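import Pool.Agent.MP_4b405e_nt.SK.FairK

/-! Sparse heights: hazard rates and the law of a relative. -/

namespace Pool.Agent.MP_5168f5_an.QA.Haz

open H19 H17S H17F MX Finset

variable {Ω L : Type} (P : FP Ω) (l : Ω → L) (z : Ω → ℝ)

/-- The line and the height at resolution `2^{-c}`. -/
noncomputable def Oc (c : ℕ) (ω : Ω) : L × ℤ := (l ω, fl1 c (z ω))

/-- The digit after the level `j` is one. -/
def one (j : ℕ) (ω : Ω) : Prop := ¬fl1 (j + 1) (z ω) = 2 * fl1 j (z ω)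

/-- The piece of level `j`. -/
noncomputable def pc (j : ℕ) (ω : Ω) : FP Ω := cv P (Oc l z j) (Oc l z j ω)

/-- The hazard rate. -/
noncomputable def hz (j : ℕ) (ω : Ω) : ℝ := pb (pc P l z j ω) (one z j)

/-- The divergence from independent digits on a window. -/
noncomputable def KL (p : ℝ) (a b : ℕ) : ℝ :=
  P.E fun ω => Real.log (cm P (Oc l z a) (Oc l z b) ω) - Real.log (bw p a b (z ω))

/-- A uniform level, a point and a relative in the child piece with digit one. -/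
noncomputable def rel {a b : ℕ} (h : a < b) : FP ((ℕ × Ω) × Ω) :=
  H17F.bind (prod (FP.unif (Ico a b) (nonempty_Ico.2 h)) P) fun v => cE (pc P l z v.1 v.2) (one z v.1)

variable {P l z} {p q r θ : ℝ} {a b c d j : ℕ} {ω o : Ω}

theorem fnO (h : a ≤ b) : Fn P (Oc l z a) (Oc l z b) := fun _ _ _ _ e =>
  Prod.ext (congrArg (·.1) e) (fl1_eq_of_le h (congrArg (·.2) e))

theorem mem_pc (ho : o ∈ P.S) : ω ∈ (pc P l z j o).S ↔ ω ∈ P.S ∧ Oc l z j ω = Oc l z j o :=
  mem_cv ho ω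

theorem E_pc (j : ℕ) (F : Ω → ℝ) : P.E F = P.E fun o => (pc P l z j o).E F :=
  KEA.exp P (Oc l z j) fun _ => F

theorem hz_congr (e : Oc l z j ω = Oc l z j o) : hz P l z j ω = hz P l z j o := by
  simp only [hz, pc, e]

theorem succ_iff (e : Oc l z j ω = Oc l z j o) :
    Oc l z (j + 1) ω = Oc l z (j + 1) o ↔ (one z j ω ↔ one z j o) := by
  obtain ⟨e1, e2⟩ := Prod.mk.inj e
  have a1 := fl1_succ j (z ω)
  have a2 := fl1_succ j (z o)
  simp only [Oc, one, Prod.mk.injEq, e1, e2, true_and] at a1 ⊢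
  omega

open Classical in
theorem cm_step (hω : ω ∈ P.S) : cm P (Oc l z j) (Oc l z (j + 1)) ω =
    if one z j ω then hz P l z j ω else 1 - hz P l z j ω := by
  split_ifs with e
  · exact pb_congr fun u hu => (succ_iff ((mem_pc hω).1 hu).2).trans (iff_true_right e)
  · rw [hz, ← pb_not]
    exact pb_congr fun u hu => (succ_iff ((mem_pc hω).1 hu).2).trans (iff_false_right e)

open Classical in
theorem bw_step (p : ℝ) (j : ℕ) (ω : Ω) : bw p j (j + 1) (z ω) = if one z j ω then p else 1 - p := by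
  rw [bw, Nat.Ico_succ_singleton, prod_singleton]
  by_cases e : one z j ω
  · rw [if_pos e, if_neg e]
  · rw [if_neg e, if_pos (not_not.1 e)]

open Classical in
/-- The mean of a function of the digit and of the hazard rate. -/
theorem E_dig (j : ℕ) (f g : ℝ → ℝ) :
    P.E (fun ω => if one z j ω then f (hz P l z j ω) else g (hz P l z j ω)) =
      P.E fun ω => hz P l z j ω * f (hz P l z j ω) + (1 - hz P l z j ω) * g (hz P l z j ω) := by
  rw [E_pc (l := l) (z := z) j]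
  refine P.E_congr fun o ho => ?_
  rw [(pc P l z j o).E_congr (G := fun ω => g (hz P l z j o) + (f (hz P l z j o) - g (hz P l z j o)) *
    if one z j ω then 1 else 0) fun ω hω => by
      rw [hz_congr ((mem_pc ho).1 hω).2]; split_ifs <;> ring, FP.E_add, FP.E_const, FP.E_mul]
  change _ + _ * hz P l z j o = _
  ring

theorem kl_pt {h : ℝ} (h0 : 0 ≤ h) (h1 : h ≤ 1) (p0 : 0 < p) (p1 : p < 1) (t0 : 0 < θ) :
    |h - p| ≤ θ * p + (1 + 1 / θ) * (h * (Real.log h - Real.log p) +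
      (1 - h) * (Real.log (1 - h) - Real.log (1 - p))) := by
  obtain ⟨s, s0, rfl⟩ : ∃ s, 0 ≤ s ∧ h = s ^ 2 := ⟨_, Real.sqrt_nonneg h, (Real.sq_sqrt h0).symm⟩
  obtain ⟨t, t1, rfl⟩ : ∃ t, 0 < t ∧ p = t ^ 2 :=
    ⟨_, Real.sqrt_pos.2 p0, (Real.sq_sqrt p0.le).symm⟩
  have k : ∀ x y : ℝ, 0 ≤ x → 0 < y → x - y ≤ x * (Real.log x - Real.log y) := fun x y hx hy => by
    rcases hx.eq_or_lt with rfl | hx
    · linarith
    · have := mul_le_mul_of_nonneg_left (Real.log_le_sub_one_of_pos (div_pos hy hx)) hx.le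
      rw [Real.log_div hy.ne' hx.ne', mul_sub x (y / x), mul_div_cancel₀ _ hx.ne'] at this
      linarith
  have k1 := mul_le_mul_of_nonneg_left (k s t s0 t1) s0
  have k2 := k _ _ (sub_nonneg.2 h1) (sub_pos.2 p1)
  rw [Real.log_pow, Real.log_pow]
  refine le_trans ?_ (add_le_add le_rfl (mul_le_mul_of_nonneg_left
    (show (s - t) ^ 2 ≤ _ by push_cast; linarith) (by positivity)))
  have k3 : 2 * t * |s - t| ≤ θ * t ^ 2 + 1 / θ * |s - t| ^ 2 := by
    refine le_of_mul_le_mul_left ?_ t0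
    rw [mul_add, ← mul_assoc θ (1 / θ), mul_one_div_cancel t0.ne']
    nlinarith [sq_nonneg (θ * t - |s - t|)]
  rw [sq_sub_sq, abs_mul, abs_of_pos (by positivity : 0 < s + t), ← sq_abs (s - t)]
  nlinarith [mul_le_mul_of_nonneg_right (le_abs_self (s - t)) (abs_nonneg (s - t))]

theorem hz_mem (j : ℕ) (ω : Ω) : 0 ≤ hz P l z j ω ∧ hz P l z j ω ≤ 1 :=
  ⟨pb_nonneg _ _, pb_le_one _ _⟩

theorem KL_add (p0 : 0 < p) (p1 : p < 1) (h : a ≤ b) (h' : b ≤ c) :
    KL P l z p a c = KL P l z p a b + KL P l z p b c := by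
  rw [KL, KL, KL, ← FP.E_add]
  refine P.E_congr fun ω hω => ?_
  rw [← cm_mul (fnO h) (fnO h') hω, ← bw_mul h h', Real.log_mul (cm_pos _ _ hω).ne'
    (cm_pos _ _ hω).ne', Real.log_mul (bw_pos p0 p1 _ _ _).ne' (bw_pos p0 p1 _ _ _).ne']
  ring

theorem haz1 (p0 : 0 < p) (p1 : p < 1) (t0 : 0 < θ) (j : ℕ) :
    P.E (fun ω => |hz P l z j ω - p|) ≤ θ * p + (1 + 1 / θ) * KL P l z p j (j + 1) := by
  classical
  rw [KL, P.E_congr (F := fun ω => Real.log _ - Real.log _) (G := fun ω => if one z j ω then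
    Real.log (hz P l z j ω) - Real.log p else Real.log (1 - hz P l z j ω) - Real.log (1 - p))
    fun ω hω => by rw [cm_step hω, bw_step]; split_ifs <;> rfl,
    E_dig j (fun h => Real.log h - Real.log p) fun h => Real.log (1 - h) - Real.log (1 - p),
    ← FP.E_mul, ← P.E_const (θ * p), ← FP.E_add]
  exact P.E_mono fun ω _ => kl_pt (hz_mem j ω).1 (hz_mem j ω).2 p0 p1 t0

theorem KL_self (a : ℕ) : KL P l z p a a = 0 :=
  (P.E_congr fun v hv => by
    rw [bw, Ico_self, prod_empty, cm, pb_congr (F := fun _ => True)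
      fun u hu => iff_true_intro ((mem_cv hv u).1 hu).2, pb_true, sub_self]).trans (P.E_const 0)

/-- The digits cannot be much less likely than independent digits. -/
theorem E_bw (h0 : 0 ≤ p) (h1 : p ≤ 1) (h : a ≤ b) :
    P.E (fun v => bw p a b (z v) / cm P (Oc l z a) (Oc l z b) v) ≤ 1 := by
  classical
  induction b, h using Nat.le_induction with
  | base =>
    refine (P.E_mono fun v hv => le_of_eq ?_).trans (P.E_const 1).le
    rw [bw, Ico_self, prod_empty, cm, pb_congr (F := fun _ => True)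
      fun u hu => iff_true_intro ((mem_cv hv u).1 hu).2, pb_true, div_one]
  | succ b h ih =>
    refine le_trans ?_ ih
    rw [E_pc (l := l) (z := z) b]
    refine P.E_mono fun o ho => ?_
    have f : ∀ x : ℝ, x * (p / x) ≤ p ∧ x * ((1 - p) / x) ≤ 1 - p := fun x => by
      by_cases e : x = 0
      · simp [e, h0, h1]
      · simp [mul_div_cancel₀, e]
    rw [(pc P l z b o).E_congr (G := fun v => bw p a b (z o) / cm P (Oc l z a) (Oc l z b) o *
      ((1 - p) / (1 - hz P l z b o) + (p / hz P l z b o - (1 - p) / (1 - hz P l z b o)) *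
        if one z b v then 1 else 0)) fun v hv => by
        obtain ⟨v1, v2⟩ := (mem_pc ho).1 hv
        rw [← bw_mul h b.le_succ, ← cm_mul (fnO h) (fnO b.le_succ) v1, ← div_mul_div_comm,
          bw_congr p a (congrArg (·.2) v2), cm_congr (fnO h v v1 o ho v2) v2, cm_step v1, bw_step,
          hz_congr v2]
        split_ifs <;> ring, FP.E_mul, FP.E_add, FP.E_const, FP.E_mul]
    refine mul_le_of_le_one_right (div_nonneg (bw_nonneg h0 h1 _ _ _) (cm_pos _ _ ho).le) ?_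
    change _ + _ * hz P l z b o ≤ _
    linarith [(f (hz P l z b o)).1, (f (1 - hz P l z b o)).2]

theorem KL_nonneg (p0 : 0 < p) (p1 : p < 1) (h : a ≤ b) : 0 ≤ KL P l z p a b := by
  have := (P.E_mono fun v hv => show 1 - (Real.log (cm P (Oc l z a) (Oc l z b) v) -
      Real.log (bw p a b (z v))) ≤ bw p a b (z v) / cm P (Oc l z a) (Oc l z b) v by
    have := Real.log_le_sub_one_of_pos (div_pos (bw_pos p0 p1 a b (z v)) (cm_pos (Oc l z a)
      (Oc l z b) hv))
    rw [Real.log_div (bw_pos p0 p1 _ _ _).ne' (cm_pos _ _ hv).ne'] at this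
    linarith).trans (E_bw p0.le p1.le h)
  rw [FP.E_sub, FP.E_const] at this
  unfold KL
  linarith

/-- Smaller windows have a smaller divergence. -/
theorem KL_mono (p0 : 0 < p) (p1 : p < 1) (h1 : a ≤ b) (h2 : b ≤ c) (h3 : c ≤ d) :
    KL P l z p b c ≤ KL P l z p a d := by
  rw [KL_add p0 p1 h1 (h2.trans h3), KL_add p0 p1 h2 h3]
  linarith [KL_nonneg (P := P) (l := l) (z := z) p0 p1 h1,
    KL_nonneg (P := P) (l := l) (z := z) p0 p1 h3]

theorem KL_le (p0 : 0 < p) (p1 : p < 1) (h : ∀ ω ∈ P.S, cm P (Oc l z a) (Oc l z b) ω ≤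
    Real.exp r * bw p a b (z ω)) : KL P l z p a b ≤ r :=
  (P.E_mono fun ω hω => by
    have := Real.log_le_log (cm_pos _ _ hω) (h ω hω)
    rw [Real.log_mul (Real.exp_pos _).ne' (bw_pos p0 p1 _ _ _).ne', Real.log_exp] at this
    linarith).trans (P.E_const r).le

/-- The hazard rates are close to `p`. -/
theorem haz (p0 : 0 < p) (p1 : p < 1) (t0 : 0 < θ) (h : a ≤ b) :
    ∑ j ∈ Ico a b, P.E (fun ω => |hz P l z j ω - p|) ≤
      θ * p * (b - a : ℕ) + (1 + 1 / θ) * KL P l z p a b := by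
  induction b, h using Nat.le_induction with
  | base => simp [KL_self]
  | succ b h ih =>
    rw [sum_Ico_succ_top h, KL_add p0 p1 h b.le_succ, Nat.succ_sub h]
    push_cast at ih ⊢
    linarith [haz1 (P := P) (l := l) (z := z) p0 p1 t0 b]

open Classical in
/-- The number of ones is rarely small. -/
theorem ones (p0 : 0 < p) (p1 : p < 1) (t0 : 0 < θ) (t1 : θ ≤ 1 / 2) (h : a ≤ b) :
    P.E (fun ω => max 0 (p * (b - a : ℕ) - ∑ j ∈ Ico a b, if one z j ω then 1 else 0)) ≤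
      (KL P l z p a b + 2) / θ + (p + 2 * θ) * (p * (b - a : ℕ)) := by
  have q0 : 0 < (1 - θ) * p := mul_pos (by linarith) p0
  have q1 : (1 - θ) * p < 1 := by nlinarith
  have k := add_le_add (E_bw (P := P) (l := l) (z := z) q0.le q1.le h)
    (E_bw (P := P) (l := l) (z := z) p0.le p1.le h)
  rw [← FP.E_add] at k
  refine le_of_mul_le_mul_left ?_ t0
  rw [mul_add, mul_div_cancel₀ _ t0.ne', ← FP.E_mul]
  refine le_trans ?_ (add_le_add (add_le_add le_rfl (k.trans_eq one_add_one_eq_two))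
    (P.E_const _).le)
  rw [KL, ← FP.E_add, ← FP.E_add]
  refine P.E_mono fun ω hω => ?_
  have c0 := cm_pos (Oc l z a) (Oc l z b) hω
  have b0 := bw_pos p0 p1 a b (z ω)
  have b1 := bw_pos q0 q1 a b (z ω)
  have l0 := Real.log_le_sub_one_of_pos (div_pos b0 c0)
  have l1 := Real.log_le_sub_one_of_pos (div_pos b1 c0)
  rw [Real.log_div b0.ne' c0.ne'] at l0
  rw [Real.log_div b1.ne' c0.ne'] at l1
  have n0 : (0 : ℝ) ≤ ∑ j ∈ Ico a b, if one z j ω then 1 else 0 :=
    sum_nonneg fun _ _ => by split_ifs <;> simp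
  have l2 : θ * (p * (b - a : ℕ) - (1 + (p + 2 * θ)) * ∑ j ∈ Ico a b, if one z j ω then 1 else 0) ≤
      Real.log (bw ((1 - θ) * p) a b (z ω)) - Real.log (bw p a b (z ω)) := by
    rw [← Real.log_div b1.ne' b0.ne', bw, bw, ← prod_div_distrib, Real.log_prod fun j _ => by
      split_ifs
      · exact div_ne_zero (by linarith) (by linarith)
      · exact div_ne_zero q0.ne' p0.ne', ← Nat.card_Ico, mul_comm p, ← nsmul_eq_mul, ← sum_const,
      mul_sum, ← sum_sub_distrib, mul_sum]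
    refine sum_le_sum fun j _ => ?_
    by_cases e : one z j ω
    · rw [if_pos e, if_neg e, if_neg e, mul_div_cancel_right₀ _ p0.ne']
      refine le_trans ?_ (Real.one_sub_inv_le_log_of_pos (by linarith))
      have : (1 - θ)⁻¹ ≤ 1 + θ * (1 + 2 * θ) := by
        rw [inv_le_iff_one_le_mul₀ (by linarith)]
        nlinarith [mul_nonneg (mul_pos t0 t0).le (by linarith : 0 ≤ 1 - 2 * θ)]
      linarith
    · rw [if_neg e, if_pos (not_not.1 e), if_pos (not_not.1 e)]
      refine le_trans ?_ (Real.one_sub_inv_le_log_of_pos (div_pos (by linarith) (by linarith)))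
      rw [inv_div, le_sub_comm, div_le_iff₀ (by linarith)]
      nlinarith [mul_pos (mul_pos t0 p0) q0]
  have d0 := div_pos b0 c0
  have d1 := div_pos b1 c0
  have s0 : 0 ≤ θ * (p + 2 * θ) := by positivity
  rcases le_total (p * (b - a : ℕ) - ∑ j ∈ Ico a b, if one z j ω then 1 else 0) 0 with e | e
  · rw [max_eq_left e]
    have : 0 ≤ θ * ((p + 2 * θ) * (p * (b - a : ℕ))) := by positivity
    linarith
  · rw [max_eq_right e]
    linarith [mul_le_mul_of_nonneg_left (sub_nonneg.1 e) s0]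

/-- The total error. -/
noncomputable def err (p θ r : ℝ) (a b : ℕ) : ℝ := 3 * θ + p + 3 * (r + 1) / (θ * (p * (b - a : ℕ)))

theorem E_rel (h : a < b) (F : (ℕ × Ω) × Ω → ℝ) : (rel P l z h).E F = (∑ j ∈ Ico a b,
    P.E fun ω => (cE (pc P l z j ω) (one z j)).E fun v => F ((j, ω), v)) / (b - a : ℕ) := by
  rw [rel, E_bind, H17F.prod, E_bind, FP.E_unif, avg, Nat.card_Ico]

/-- The level and the point have the product law. -/
theorem rel_fst (h : a < b) (F : ℕ × Ω → ℝ) : (rel P l z h).E (fun v => F v.1) =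
    (prod (FP.unif (Ico a b) (nonempty_Ico.2 h)) P).E F := by
  rw [rel, E_bind]
  exact FP.E_congr _ fun v _ => FP.E_const _ (F v)

theorem pb_rel (h : a < b) (E : ℕ → Ω → Prop) : pb (rel P l z h) (fun v => E v.1.1 v.1.2) =
    (∑ j ∈ Ico a b, pb P (E j)) / (b - a : ℕ) := by
  rw [pb, E_rel]
  congr 1
  exact sum_congr rfl fun j _ => P.E_congr fun ω _ =>
    FP.E_const _ (@ite ℝ (E j ω) (Classical.propDecidable _) 1 0)

theorem mem_rel (h : a < b) {v : (ℕ × Ω) × Ω} (hv : v ∈ (rel P l z h).S) :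
    v.1.1 ∈ Ico a b ∧ v.1.2 ∈ P.S ∧ v.2 ∈ P.S ∧ Oc l z v.1.1 v.2 = Oc l z v.1.1 v.1.2 ∧
      (0 < hz P l z v.1.1 v.1.2 → one z v.1.1 v.2) := by
  obtain ⟨u, w⟩ := (mem_bind _ _ v).1 hv
  obtain ⟨u1, u2⟩ := (mem_bind _ _ _).1 u
  obtain ⟨w1, w2⟩ := (mem_pc u2).1 (cE_sub w)
  exact ⟨u1, u2, w1, w2, fun e => ((mem_cE (ex_of_pb e) _).1 w).2⟩

/-- The relative has the law of the child piece. -/
theorem child (hω : ω ∈ P.S) (e : Oc l z j ω = Oc l z j o) (e' : one z j ω) :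
    cE (pc P l z j o) (one z j) = pc P l z (j + 1) ω := by
  rw [pc, cv, cE_cE (E := fun v => Oc l z j v = Oc l z j o) ⟨ω, hω, e, e'⟩]
  exact cE_congr fun v hv => ⟨fun u => (succ_iff (u.1.trans e.symm)).2 (iff_of_true u.2 e'),
    fun u => have k := fnO j.le_succ v hv ω hω u; ⟨k.trans e, ((succ_iff k).1 u).2 e'⟩⟩

/-- An event has the same mass in some finer atom. -/
theorem down {T : Type} (Q : FP Ω) (B : Ω → T) (E : Ω → Prop) :
    ∃ w ∈ Q.S, pb Q E ≤ pb (cv Q B (B w)) E := by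
  obtain ⟨w, hw, m⟩ := exists_max_image Q.S (fun w => pb (cv Q B (B w)) E)
    (nonempty_of_sum_ne_zero (Q.sum_one.trans_ne one_ne_zero))
  exact ⟨w, hw, (pb_cv Q B E).trans_le ((Q.E_mono m).trans_eq (Q.E_const _))⟩

theorem haz' (p0 : 0 < p) (p1 : p < 1) (t0 : 0 < θ) (t1 : θ ≤ 1 / 2) (h : a < b)
    (k : KL P l z p a b ≤ r) : (∑ j ∈ Ico a b, P.E fun ω => |hz P l z j ω - p|) ≤
      (θ + 2 * r / (θ * (p * (b - a : ℕ)))) * (p * (b - a : ℕ)) := by
  have n0 : (0 : ℝ) < (b - a : ℕ) := by exact_mod_cast Nat.sub_pos_of_lt h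
  have r0 := (KL_nonneg p0 p1 h.le).trans k
  refine (haz p0 p1 t0 h.le).trans ?_
  rw [add_mul θ, ← div_div, div_mul_cancel₀ _ (by positivity), mul_assoc, mul_div_right_comm]
  refine add_le_add le_rfl ((mul_le_mul_of_nonneg_left k (by positivity)).trans
    (mul_le_mul_of_nonneg_right ?_ r0))
  have : 1 ≤ 1 / θ := by rw [le_div_iff₀ t0]; linarith
  linarith [show 2 / θ = 1 / θ + 1 / θ by ring]

open Classical in
/-- The density of the law of the relative. -/
noncomputable def den (P : FP Ω) (l : Ω → L) (z : Ω → ℝ) (a b : ℕ) (ω : Ω) : ℝ :=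
  (∑ j ∈ Ico a b, if one z j ω then 1 / hz P l z j ω else 0) / (b - a : ℕ)

theorem den_le (h : a < b) {F : Ω → ℝ} (f0 : ∀ ω ∈ P.S, 0 ≤ F ω) :
    P.E (fun ω => den P l z a b ω * F ω) ≤ (rel P l z h).E fun v => F v.2 := by
  classical
  simp only [E_rel, den, div_eq_inv_mul (∑ _ ∈ _, _), mul_assoc, sum_mul]
  rw [FP.E_mul, FP.E_sum]
  refine mul_le_mul_of_nonneg_left (sum_le_sum fun j _ => ?_) (by positivity)
  rw [E_pc (l := l) (z := z) j]
  refine P.E_mono fun o ho => ?_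
  rw [(pc P l z j o).E_congr (G := fun v => 1 / hz P l z j o * if one z j v then F v else 0)
    fun v hv => by rw [hz_congr ((mem_pc ho).1 hv).2]; split_ifs <;> simp, FP.E_mul, ← E_cE,
    ← mul_assoc]
  exact mul_le_of_le_one_left (FP.E_nonneg _ fun v hv => f0 v ((mem_pc ho).1 (cE_sub hv)).1)
    (by rw [one_div]; exact inv_mul_le_one)

theorem den_low (p0 : 0 < p) (p1 : p < 1) (t0 : 0 < θ) (t1 : θ ≤ 1 / 2) (h : a < b)
    (k : KL P l z p a b ≤ r) : P.E (fun ω => max 0 (1 - den P l z a b ω)) ≤ err p θ r a b := by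
  classical
  have n0 : (0 : ℝ) < (b - a : ℕ) := by exact_mod_cast Nat.sub_pos_of_lt h
  have m0 : 0 < p * (b - a : ℕ) := by positivity
  have k1 := (ones (P := P) (l := l) (z := z) p0 p1 t0 t1 h.le).trans (add_le_add
    (div_le_div_of_nonneg_right (add_le_add k le_rfl) t0.le) le_rfl)
  have k2 : P.E (fun ω => ∑ j ∈ Ico a b, if one z j ω then |1 - p / hz P l z j ω| else 0) ≤
      (θ + 2 * r / (θ * (p * (b - a : ℕ)))) * (p * (b - a : ℕ)) := by
    rw [FP.E_sum]
    refine (sum_le_sum fun j _ => ?_).trans (haz' p0 p1 t0 t1 h k)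
    rw [E_dig j (fun h => |1 - p / h|) fun _ => 0]
    refine P.E_mono fun ω _ => ?_
    rcases (hz_mem (P := P) (l := l) (z := z) j ω).1.eq_or_lt with e | e
    · rw [← e]; simp
    · rw [mul_zero, add_zero, ← abs_of_pos e, ← abs_mul, abs_of_pos e, mul_sub, mul_one,
        mul_div_cancel₀ _ e.ne']
  refine le_of_mul_le_mul_left ?_ m0
  rw [← FP.E_mul]
  refine le_trans (P.E_mono fun ω _ => ?_) (((P.E_add _ _).trans_le (add_le_add k1 k2)).trans ?_)
  · have n1 : (0 : ℝ) ≤ ∑ j ∈ Ico a b, if one z j ω then |1 - p / hz P l z j ω| else 0 :=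
      sum_nonneg fun _ _ => by split_ifs <;> positivity
    rw [mul_max_of_nonneg _ _ m0.le, mul_zero, mul_sub, mul_one, den, mul_assoc,
      mul_div_cancel₀ _ n0.ne', mul_sum]
    refine max_le (add_nonneg (le_max_left _ _) n1) (le_trans ?_ (add_le_add (le_max_right _ _) le_rfl))
    rw [sub_add, ← sum_sub_distrib]
    refine sub_le_sub_left (sum_le_sum fun j _ => ?_) _
    split_ifs
    · linarith [le_abs_self (1 - p / hz P l z j ω), mul_one_div p (hz P l z j ω)]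
    · simp
  · refine le_of_sub_nonneg (le_of_le_of_eq (show 0 ≤ 1 / θ by positivity) ?_)
    unfold err
    field_simp
    ring

/-- The law of the relative is close to the law of the point. -/
theorem rel_tv (p0 : 0 < p) (p1 : p < 1) (t0 : 0 < θ) (t1 : θ ≤ 1 / 2) (h : a < b)
    (k : KL P l z p a b ≤ r) {F : Ω → ℝ} (f : ∀ ω ∈ P.S, 0 ≤ F ω ∧ F ω ≤ 1) :
    |(rel P l z h).E (fun v => F v.2) - P.E F| ≤ err p θ r a b := by
  have key : ∀ F : Ω → ℝ, (∀ ω ∈ P.S, 0 ≤ F ω ∧ F ω ≤ 1) →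
      P.E F ≤ (rel P l z h).E (fun v => F v.2) + err p θ r a b := fun F f => by
    refine le_trans (P.E_mono fun ω hω => ?_) ((P.E_add _ _).trans_le (add_le_add
      (den_le h fun ω hω => (f ω hω).1) (den_low p0 p1 t0 t1 h k)))
    nlinarith [mul_le_mul_of_nonneg_right (le_max_right 0 (1 - den P l z a b ω)) (f ω hω).1,
      mul_le_mul_of_nonneg_left (f ω hω).2 (le_max_left 0 (1 - den P l z a b ω))]
  have k2 := key (fun ω => 1 - F ω) fun ω hω => ⟨by linarith [(f ω hω).2], by linarith [(f ω hω).1]⟩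
  rw [FP.E_sub, FP.E_sub, FP.E_const, FP.E_const] at k2
  exact abs_le.2 ⟨by linarith [key F f], by linarith⟩

theorem rel_pb (p0 : 0 < p) (p1 : p < 1) (t0 : 0 < θ) (t1 : θ ≤ 1 / 2) (h : a < b)
    (k : KL P l z p a b ≤ r) (E : Ω → Prop) :
    |pb (rel P l z h) (fun v => E v.2) - pb P E| ≤ err p θ r a b :=
  rel_tv p0 p1 t0 t1 h k (F := fun ω => @ite ℝ (E ω) (Classical.propDecidable _) 1 0)
    fun ω _ => by split_ifs <;> simp

theorem gap {t s : ℝ} (e : fl1 j s = fl1 j t) (h1 : fl1 (j + 1) t = 2 * fl1 j t)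
    (h2 : fl1 (j + 1 + 1) t = 2 * fl1 (j + 1) t) (h3 : ¬fl1 (j + 1) s = 2 * fl1 j s) :
    1 / 4 < 2 ^ j * (s - t) ∧ 2 ^ j * (s - t) < 1 := by
  have a0 : fl1 (j + 1) s = 2 * fl1 j t + 1 := by have := fl1_succ j s; omega
  rw [h1] at h2
  obtain ⟨a1, a2⟩ := Int.floor_eq_iff.1 a0
  obtain ⟨a3, a4⟩ := Int.floor_eq_iff.1 h2
  push_cast at a1 a2 a3 a4
  simp only [pow_succ] at a1 a2 a3 a4
  constructor <;> linarith

theorem pb_one (j : ℕ) : pb P (one z j) ≤ p + P.E fun ω => |hz P l z j ω - p| := by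
  rw [pb_cv P (Oc l z j), ← sub_le_iff_le_add', ← P.E_const p, ← FP.E_sub, FP.E_const]
  exact P.E_mono fun ω _ => le_abs_self _

/-- The relative is at distance about `2^{-j}`. -/
theorem rel_gap (p0 : 0 < p) (p1 : p < 1) (t0 : 0 < θ) (t1 : θ ≤ 1 / 2) (h : a < b)
    (k : KL P l z p a b ≤ r) : pb (rel P l z h) (fun v => ¬(one z v.1.1 v.2 ∧
      1 / 4 < 2 ^ v.1.1 * (z v.2 - z v.1.2) ∧ 2 ^ v.1.1 * (z v.2 - z v.1.2) < 1)) ≤
      3 * err p θ r a b := by
  have n0 : (0 : ℝ) < (b - a : ℕ) := by exact_mod_cast Nat.sub_pos_of_lt h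
  have r0 := (KL_nonneg p0 p1 h.le).trans k
  have k0 := haz' p0 p1 t0 t1 h k
  have e0 : ∀ j, 0 ≤ P.E fun ω => |hz P l z j ω - p| := fun j => P.E_nonneg fun _ _ => abs_nonneg _
  have k1 := sum_le_sum fun j (_ : j ∈ Ico a b) => pb_one (P := P) (l := l) (z := z) (p := p) j
  rw [sum_add_distrib, sum_const, Nat.card_Ico, nsmul_eq_mul] at k1
  replace k1 := k1.trans (add_le_add le_rfl k0)
  have k2 : ∑ j ∈ Ico a b, pb P (one z (j + 1)) ≤ ∑ j ∈ Ico a b, pb P (one z j) + 1 := by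
    rw [sum_Ico_add' (fun j => pb P (one z j)) a b 1, sum_Ico_succ_top h, sum_eq_sum_Ico_succ_bot h]
    linarith [pb_le_one P (one z b), pb_nonneg P (one z a)]
  have k3 : ∀ j, p * pb P (fun ω => ¬0 < hz P l z j ω) ≤ P.E fun ω => |hz P l z j ω - p| := fun j =>
    le_trans (mul_le_mul_of_nonneg_left (pb_mono fun ω _ e => by
      linarith [neg_abs_le (hz P l z j ω - p), not_lt.1 e]) p0.le) (markov P (fun _ _ => abs_nonneg _) p)
  have k4 := (sum_le_sum fun j _ => k3 j).trans k0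
  rw [← mul_sum, mul_left_comm] at k4
  replace k4 := le_of_mul_le_mul_left k4 p0
  refine (pb_mono (F := fun v => one z v.1.1 v.1.2 ∨ one z (v.1.1 + 1) v.1.2 ∨
    ¬0 < hz P l z v.1.1 v.1.2) fun v hv e => ?_).trans ?_
  · by_contra c
    simp only [not_or, not_not] at c
    obtain ⟨-, -, -, v1, v2⟩ := mem_rel h hv
    exact e ⟨v2 c.2.2, gap (congrArg (·.2) v1) (not_not.1 c.1) (not_not.1 c.2.1) (v2 c.2.2)⟩
  rw [pb_rel h fun j ω => one z j ω ∨ one z (j + 1) ω ∨ ¬0 < hz P l z j ω, div_le_iff₀ n0]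
  refine (sum_le_sum fun j _ => (pb_or P (one z j) _).trans
    (add_le_add le_rfl (pb_or P (one z (j + 1)) _))).trans ?_
  rw [sum_add_distrib, sum_add_distrib]
  have x0 : 0 ≤ r / (θ * (p * (b - a : ℕ))) := by positivity
  have x1 : 1 ≤ 1 / (θ * (p * (b - a : ℕ))) * (b - a : ℕ) := by
    rw [div_mul_eq_mul_div, le_div_iff₀ (by positivity)]
    nlinarith [mul_pos t0 p0, mul_le_mul_of_nonneg_right (show θ * p ≤ 1 by nlinarith) n0.le]
  have x2 : (θ + 2 * r / (θ * (p * (b - a : ℕ)))) * (p * (b - a : ℕ)) ≤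
      (θ + 2 * r / (θ * (p * (b - a : ℕ)))) * (b - a : ℕ) :=
    mul_le_mul_of_nonneg_left (mul_le_of_le_one_left n0.le p1.le) (by positivity)
  have x3 : err p θ r a b = 3 * θ + p + 3 * (r / (θ * (p * (b - a : ℕ)))) +
      3 * (1 / (θ * (p * (b - a : ℕ)))) := by unfold err; ring
  rw [mul_div_assoc] at k1 k4 x2
  rw [x3]
  linarith [mul_pos t0 n0, mul_pos p0 n0, mul_nonneg x0 n0.le]

/-- Domination form: off a small event the law of the relative is at most `1 + x` times `P`. -/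
theorem rel_dom (p0 : 0 < p) (p1 : p < 1) (t0 : 0 < θ) (t1 : θ ≤ 1 / 2) (h : a < b)
    (k : KL P l z p a b ≤ r) {x : ℝ} (hx : 0 < x) : ∃ G : Ω → Prop,
    x * pb (rel P l z h) (fun v => ¬G v.2) ≤ (1 + x) * err p θ r a b ∧
    ∀ E : Ω → Prop, pb (rel P l z h) (fun v => G v.2 ∧ E v.2) ≤ (1 + x) * pb P E := by
  classical
  have s : ∀ E : Ω → Prop, pb (rel P l z h) (fun v => E v.2) =
      ∑ ω ∈ P.S.filter E, pb (rel P l z h) (fun v => v.2 = ω) ∧
      pb P E = ∑ ω ∈ P.S.filter E, pb P (· = ω) := fun E => by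
    constructor <;> unfold pb <;> rw [← FP.E_sum] <;> refine FP.E_congr _ fun v hv => ?_
    · rw [sum_ite_eq]; simp [(mem_rel h hv).2.2.1]
    · rw [sum_ite_eq]; simp [hv]
  obtain ⟨B, hB⟩ : ∃ B : Ω → Prop, ∀ ω, B ω ↔
    (1 + x) * pb P (· = ω) < pb (rel P l z h) (fun v => v.2 = ω) := ⟨_, fun _ => Iff.rfl⟩
  refine ⟨fun ω => ¬B ω, ?_, fun E => ?_⟩
  · have s3 := (abs_le.1 (rel_pb p0 p1 t0 t1 h k B)).2
    have s4 : (1 + x) * pb P B ≤ pb (rel P l z h) fun v => B v.2 := by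
      rw [(s B).1, (s B).2, mul_sum]
      exact sum_le_sum fun ω hω => ((hB ω).1 (mem_filter.1 hω).2).le
    simp only [not_not]
    nlinarith
  · obtain ⟨B', hB'⟩ : ∃ B' : Ω → Prop, B' = fun ω => ¬B ω ∧ E ω := ⟨_, rfl⟩
    refine le_trans (pb_mono (F := fun v => B' v.2) fun v _ e => hB' ▸ e) ?_
    rw [(s B').1, (s E).2, mul_sum]
    exact (sum_le_sum fun ω hω => not_lt.1 fun e =>
      (hB' ▸ (mem_filter.1 hω).2).1 ((hB ω).2 e)).trans (sum_le_sum_of_subset_of_nonneg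
      (fun ω hω => mem_filter.2 ⟨(mem_filter.1 hω).1, (hB' ▸ (mem_filter.1 hω).2).2⟩)
      fun ω _ _ => mul_nonneg (by linarith) (pb_nonneg _ _))

end Pool.Agent.MP_5168f5_an.QA.Haz
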