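import Pool.Agent.MP_4b405e_nt.SK.SpA
import Pool.Agent.MP_4b405e_nt.SK.Haz

/-! Sparse heights: the heights have small entropy. -/

namespace Pool.Agent.MP_5168f5_an.QA

open H19 H17S H17F R4 AN MX Filter Finset

theorem log_bw {p q : ℝ} (p0 : 0 < p) (q0 : 0 < q) (q1 : q ≤ 1 / 2) (h : p ≤ q ^ 2) (a b : ℕ)
    (t : ℝ) : Real.log (bw p a b t) ≤ 2 * Real.log (bw q a b t) + 4 * q * (b - a : ℕ) := by
  have p1 : p < 1 := by nlinarith
  rw [bw, bw, Real.log_prod fun j _ => by split_ifs <;> linarith,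
    Real.log_prod fun j _ => by split_ifs <;> linarith, ← Nat.card_Ico, mul_comm (4 * q),
    ← nsmul_eq_mul, ← sum_const, mul_sum, ← sum_add_distrib]
  refine sum_le_sum fun j _ => ?_
  split_ifs
  · have a1 := Real.log_nonpos (by linarith : 0 ≤ 1 - p) (by linarith)
    have a2 := Real.one_sub_inv_le_log_of_pos (by linarith : 0 < 1 - q)
    have a3 : (1 - q)⁻¹ ≤ 1 + 2 * q := by
      rw [inv_le_iff_one_le_mul₀ (by linarith)]
      nlinarith
    linarith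
  · have := Real.log_le_log p0 h
    rw [Real.log_pow] at this
    push_cast at this
    linarith

/-- Fair digits have small entropy. -/
theorem Haz.ch_le {Ω L : Type} {P : FP Ω} {l : Ω → L} {z : Ω → ℝ} {p q r : ℝ} {a b : ℕ}
    (p0 : 0 < p) (q0 : 0 < q) (q1 : q ≤ 1 / 2) (h : p ≤ q ^ 2) (e : a ≤ b)
    (k : Haz.KL P l z p a b ≤ r) :
    ch P (Haz.Oc l z b) (Haz.Oc l z a) ≤ r + 4 * q * (b - a : ℕ) := by
  have k1 := Haz.KL_nonneg (P := P) (l := l) (z := z) q0 (by linarith) e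
  have k2 := P.E_mono fun ω _ => log_bw p0 q0 q1 h a b (z ω)
  rw [FP.E_add, FP.E_mul, FP.E_const] at k2
  rw [Haz.KL, FP.E_sub] at k k1
  rw [ch_eq_cm, P.E_congr (G := fun ω => -1 * Real.log (cm P (Haz.Oc l z a) (Haz.Oc l z b) ω))
    fun _ _ => (neg_one_mul _).symm, FP.E_mul]
  linarith

namespace Cp

theorem rowH : RowH := by
  intro ι κ α _ _ _ _ _ σ Y lv zz h ε hε
  obtain ⟨q, q0, q1, q2⟩ : ∃ q : ℝ, 0 < q ∧ q ≤ 1 / 2 ∧ q ≤ ε / 16 :=
    ⟨min (1 / 2) (ε / 16), by positivity, min_le_left _ _, min_le_right _ _⟩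
  filter_upwards [h.hg.fa 0 1 zero_le_one _ (half_pos hε), h.hg.mono 0 1 zero_le_one,
    h.hg.lev 0 1 1 one_pos, h.hg.bk.ev (q ^ 2)⁻¹] with n a b c d
  have k0 : (0 : ℝ) < σ.kf n := lt_of_lt_of_le (by positivity) d
  have p2 : (σ.kf n : ℝ)⁻¹ ≤ q ^ 2 := inv_le_of_inv_le₀ (by positivity) d
  have f : ∀ x, Fn (Y n).P ((Y n).O x) (Haz.Oc (Y n).l (zz n) (lv n x)) ∧
      Fn (Y n).P (Haz.Oc (Y n).l (zz n) (lv n x)) ((Y n).O x) := fun x =>
    ⟨fun u _ v _ e => Prod.ext (congrArg (·.1) e) ((h.hg.hz n x u v).2 (congrArg (·.2) e)),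
      fun u _ v _ e => Prod.ext (congrArg (·.1) e) ((h.hg.hz n x u v).1 (congrArg (·.2) e))⟩
  have k := Haz.ch_le (inv_pos.2 k0) q0 q1 p2 b (Haz.KL_le (P := (Y n).P) (l := (Y n).l)
    (z := zz n) (inv_pos.2 k0) (by nlinarith) fun ω hω => le_trans (le_of_eq (by
      rw [cm_ctx (f 0).2 (f 0).1 _ hω]
      exact pb_congr fun v hv => ⟨(f 1).1 v (cE_sub hv) ω hω, (f 1).2 v (cE_sub hv) ω hω⟩))
      (a ω hω))
  refine (ch_le (F' := Haz.Oc (Y n).l (zz n) (lv n 1)) (fun u _ v _ e =>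
    (h.hg.hz n 1 u v).2 (congrArg (·.1.2) e)) (f 0).2).trans (k.trans ?_)
  have M0 : (0 : ℝ) ≤ (Y n).M := Nat.cast_nonneg _
  have c1 := (abs_le.1 c).2
  rw [Nat.cast_sub b]
  push_cast at c1
  have s := mul_le_mul_of_nonneg_left (sU_le' σ.kf (sM Y) n) (half_pos hε).le
  have t := mul_le_mul (show 4 * q ≤ ε / 4 by linarith)
    (show (lv n 1 : ℝ) - lv n 0 ≤ 2 * (Y n).M by linarith)
    (sub_nonneg.2 (by exact_mod_cast b)) (by positivity)
  simp only [sM] at s ⊢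
  linarith

end Cp

end Pool.Agent.MP_5168f5_an.QA
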