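import Pool.Agent.MP_4b405e_nt.SK.SpA
import Pool.Agent.MP_5168f5_an.QA.CpSd

/-! Sparse heights: the rounded directions. -/

namespace Pool.Agent.MP_5168f5_an.QA.Cp

open H19 H17S H17F R4 AN Filter Matrix
open GA (Mt IsFr Wd br)

theorem rd_sub {κ α : Type} {δ : ℝ} (h : 0 < δ) (A : α → κ → ℝ) (i : α) (b : κ) :
    |rd δ A i b - A i b| ≤ δ := by
  have a1 := Int.floor_le (A i b / δ)
  have a2 := Int.lt_floor_add_one (A i b / δ)
  rw [le_div_iff₀ h] at a1
  rw [div_lt_iff₀ h] at a2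
  rw [rd, abs_le]
  constructor <;> linarith

theorem rd_abs {κ α : Type} {δ H : ℝ} (h : 0 < δ) {A : α → κ → ℝ} {i : α} {b : κ}
    (k : |A i b| ≤ H) : |rd δ A i b| ≤ H + δ := by
  have := abs_add_le (rd δ A i b - A i b) (A i b)
  rw [sub_add_cancel] at this
  linarith [rd_sub h A i b]

theorem exp_half {t : ℝ} (h : 1 ≤ t) : Real.exp (-t) ≤ 1 / 2 := by
  rw [Real.exp_neg, inv_le_comm₀ (Real.exp_pos _) (by norm_num)]
  linarith [Real.add_one_le_exp t]

theorem flr_mono {κ : Type} (μ : κ → ℝ) {F F' : ℝ} (h : F ≤ F') (b : κ) :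
    flr μ F b ≤ flr μ F' b := by
  simp only [flr]
  split_ifs
  exacts [h, le_rfl]

theorem flr_up {κ : Type} (μ : κ → ℝ) {F : ℝ} (h : 1 ≤ F) (b : κ) :
    1 ≤ flr μ F b ∧ flr μ F b ≤ F := by
  simp only [flr]
  split_ifs
  exacts [⟨h, le_rfl⟩, ⟨le_rfl, h⟩]

theorem hc_abs {κ : Type} {μ : κ → ℝ} {c : κ → κ → κ → ℝ} {H : ℝ} (h : ∀ a b e, |c a b e| ≤ H)
    (a b e : κ) : |hc μ c a b e| ≤ H := by
  simp only [hc]
  split_ifs
  · exact h a b e
  · simpa using (abs_nonneg _).trans (h a b e)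

theorem rowR : RowR := by
  intro ι κ α β _ _ _ _ _ σ X E G D x C w ω g0 x0 x1 w0 hD hM ha al
  have k1 : (1 : ℝ) ≤ Fintype.card κ := by
    have : Nonempty κ := ⟨σ.τ⟩
    exact_mod_cast Fintype.card_pos
  have M0 : (0 : ℝ) ≤ X.M := Nat.cast_nonneg _
  have hM' : (D : ℝ) ≤ X.M := by exact_mod_cast hM
  have x0' : (0 : ℝ) ≤ x := by exact_mod_cast x0
  have x1' : (0 : ℝ) ≤ 1 - x := sub_nonneg.2 (by exact_mod_cast x1)
  have b : w - σ.g * X.M + 2 * D ≤ 0 := by nlinarith [mul_nonneg (mul_nonneg g0.le x0') M0]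
  have e1 : 1 ≤ Real.exp w := Real.one_le_exp w0
  have k2 : (1 : ℝ) ≤ Fintype.card κ ^ 2 := one_le_pow₀ k1
  have hL : 2 * Real.exp w ≤ 2 * Fintype.card κ ^ 2 * Real.exp w := by nlinarith
  obtain ⟨δ, hδ⟩ : ∃ δ, δ = Real.exp (-(3 * D)) := ⟨_, rfl⟩
  have d0 : 0 < δ := hδ ▸ Real.exp_pos _
  have d1 : δ ≤ 1 := hδ ▸ Real.exp_le_one_iff.2 (by linarith)
  have F1 : 1 ≤ Real.exp (1 * (D : ℝ)) := Real.one_le_exp (by linarith)
  have s := rd_sub d0 (X.A ω)
  have r : ∀ i b, |rd δ (X.A ω) i b| ≤ 2 * Real.exp w := fun i b =>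
    (rd_abs d0 (al.bA i b)).trans (by linarith)
  refine ⟨⟨isUnit_one, al.fr, fun p q r => (al.ob p q r).trans (le_trans (by linarith) hL),
    fun p q r h c => ?_, fun p q r h h1 h2 h3 => exp_one (al.sub p q r h.1 h.2.1 h1 h2 h3)
      (by linarith), fun p q _ => exp_one (al.chi p q) (by linarith),
    fun i b h => al.hg i b fun z => h ?_, al.long.imp fun i h => ?_, fun i i' p h => ?_⟩,
    good_S0 (fun b => (flr_up _ F1 b).1) (fun i b => ?_) (hc_abs al.ob) ?_, fun S g => ?_⟩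
  · simp only [Pd.ld, mul_assoc, ← Real.exp_add]
    refine exp_one (al.gr p q r h c) ?_
    have m3 := mul_le_mul_of_nonneg_right (le_max_left σ.g (σ.μ r - σ.μ p - σ.μ q)) x1'
    have m4 := mul_le_mul_of_nonneg_right (le_max_right σ.g (σ.μ r - σ.μ p - σ.μ q)) x0'
    nlinarith [mul_le_mul_of_nonneg_right (add_le_add m3 m4) M0]
  · simp [Pd.ld, rd, z]
  · change 1 ≤ 2 * Fintype.card κ ^ 2 * Real.exp w * |rd (Real.exp (-(3 * D))) (X.A ω) i σ.τ|
    rw [← hδ]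
    have a1 := abs_sub_abs_le_abs_sub (X.A ω i σ.τ) (rd δ (X.A ω) i σ.τ)
    rw [abs_sub_comm] at a1
    have a2 : Real.exp w * δ ≤ 1 / 2 := by
      rw [hδ, ← Real.exp_add]
      exact (Real.exp_le_exp.2 (by linarith)).trans (exp_half le_rfl)
    have a3 : Real.exp w * Real.exp (-w) = 1 := by rw [← Real.exp_add]; simp
    have a4 : 1 / 2 ≤ Real.exp w * |rd δ (X.A ω) i σ.τ| := by
      nlinarith [mul_le_mul_of_nonneg_left (show Real.exp (-w) - δ ≤ |rd δ (X.A ω) i σ.τ| by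
        linarith [s i σ.τ]) (Real.exp_pos w).le]
    nlinarith
  · change |rd (Real.exp (-(3 * D))) (X.A ω) i p * rd (Real.exp (-(3 * D))) (X.A ω) i' σ.τ -
      rd (Real.exp (-(3 * D))) (X.A ω) i' p * rd (Real.exp (-(3 * D))) (X.A ω) i σ.τ| *
      Real.exp (1 * (D : ℝ)) ≤ 1
    rw [← hδ]
    have m : ∀ i i' p q, |rd δ (X.A ω) i p * rd δ (X.A ω) i' q - X.A ω i p * X.A ω i' q| ≤
        3 * Real.exp w * δ := fun i i' p q => by
      rw [show rd δ (X.A ω) i p * rd δ (X.A ω) i' q - X.A ω i p * X.A ω i' q =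
        (rd δ (X.A ω) i p - X.A ω i p) * rd δ (X.A ω) i' q +
          X.A ω i p * (rd δ (X.A ω) i' q - X.A ω i' q) by ring]
      refine (abs_add_le _ _).trans ?_
      rw [abs_mul, abs_mul]
      linarith [mul_le_mul (s i p) (r i' q) (abs_nonneg _) d0.le,
        mul_le_mul (al.bA i p) (s i' q) (abs_nonneg _) (Real.exp_pos w).le]
    have a1 := exp_fl (q := 1 * (D : ℝ)) (r := -D) (L := 1) (u := 0) (al.cur i i' p h) (by simp)
      (by linarith)
    have a2 : Real.exp (-(D : ℝ)) ≤ 1 / 2 := exp_half (by linarith)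
    have a3 : 6 * Real.exp w * δ * Real.exp (1 * (D : ℝ)) ≤ 1 / 2 := by
      have : Real.exp w * δ * Real.exp (1 * (D : ℝ)) ≤ Real.exp (-1) ^ 4 := by
        rw [hδ, ← Real.exp_add, ← Real.exp_add, ← Real.exp_nat_mul]
        exact Real.exp_le_exp.2 (by push_cast; linarith)
      have := pow_le_pow_left₀ (Real.exp_pos (-1)).le (exp_half le_rfl) 4
      linarith
    have a4 : |rd δ (X.A ω) i p * rd δ (X.A ω) i' σ.τ - rd δ (X.A ω) i' p * rd δ (X.A ω) i σ.τ| ≤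
        |X.A ω i p * X.A ω i' σ.τ - X.A ω i' p * X.A ω i σ.τ| + 6 * Real.exp w * δ := by
      have b1 := abs_le.1 (m i i' p σ.τ)
      have b2 := abs_le.1 (m i' i p σ.τ)
      have b3 := le_abs_self (X.A ω i p * X.A ω i' σ.τ - X.A ω i' p * X.A ω i σ.τ)
      have b4 := neg_abs_le (X.A ω i p * X.A ω i' σ.τ - X.A ω i' p * X.A ω i σ.τ)
      rw [abs_le]
      constructor <;> linarith [b1.1, b1.2, b2.1, b2.2]
    refine (mul_le_mul_of_nonneg_right a4 (Real.exp_pos _).le).trans ?_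
    rw [add_mul]
    linarith
  · change |rd (Real.exp (-(3 * D))) (X.A ω) i b| ≤ 2 * Fintype.card κ ^ 2 * Real.exp w
    rw [← hδ]
    exact (r i b).trans hL
  · change _ ≤ 2 * Fintype.card κ ^ 2 * Real.exp w
    nlinarith
  · refine ⟨g.hg, fun φ k => ⟨fun b => ((g.ok φ k).f b).trans (mul_le_mul_of_nonneg_left
      (flr_mono _ (Real.exp_le_exp.2 (by linarith)) b) zero_le_one), fun i => ?_,
      fun y z u v => ((g.ok φ k).c y z u v).trans (mul_le_mul_of_nonneg_left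
        (le_add_of_nonneg_right zero_le_one) zero_le_one)⟩, g.one⟩
    have a1 : |φ ⬝ᵥ rd δ (X.A ω) i| ≤ 1 * (2 * Fintype.card κ ^ 2 * Real.exp w) :=
      hδ ▸ (g.ok φ k).a i
    have a2 : |φ ⬝ᵥ (rd δ (X.A ω) i - X.A ω i)| ≤ Fintype.card κ * (Real.exp (1 * (D : ℝ)) * δ) := by
      refine (Finset.abs_sum_le_sum_abs _ _).trans ((Finset.sum_le_card_nsmul _ _ _
        fun b _ => ?_).trans_eq (nsmul_eq_mul _ _))
      rw [abs_mul]
      exact mul_le_mul (((g.ok φ k).f b).trans ((one_mul _).trans_le (flr_up _ F1 b).2)) (s i b)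
        (abs_nonneg _) (Real.exp_pos _).le
    have a3 : Fintype.card κ * (Real.exp (1 * (D : ℝ)) * δ) ≤ 1 := by
      rw [hδ, ← Real.exp_add]
      exact exp_one (p := D) (by linarith [Real.add_one_le_exp (D : ℝ)]) (by linarith)
    rw [dotProduct_sub] at a2
    change |φ ⬝ᵥ X.A ω i| ≤ 1 * (2 * Fintype.card κ ^ 2 * Real.exp w + 1)
    have a4 := abs_sub_abs_le_abs_sub (φ ⬝ᵥ X.A ω i) (φ ⬝ᵥ rd δ (X.A ω) i)
    rw [abs_sub_comm] at a4
    linarith

theorem wd_sub {κ α : Type} [Fintype κ] {c : κ → κ → κ → ℝ} {L η : ℝ} (hL : 1 ≤ L) (hη : 0 ≤ η)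
    (h : ∀ a b e, |c a b e| ≤ L) {f f' : α → κ → ℝ} (hf : ∀ i b, |f i b| ≤ L)
    (hf' : ∀ i b, |f' i b| ≤ L) (hd : ∀ i b, |f i b - f' i b| ≤ η) (w : Wd α) :
    GA.Bx 1 (((2 * Fintype.card κ ^ 2 + 2) * L) ^ (2 * w.len - 1) * η)
      (w.ev (br c) f - w.ev (br c) f') := by
  have h0 : (0 : ℝ) ≤ Fintype.card κ ^ 2 * L := by positivity
  have h1 : GA.Idl c 1 1 L := fun a b e => by simpa using h a b e
  have r : ∀ a : κ, (0 : ℝ) ≤ (1 : κ → ℝ) a := fun _ => zero_le_one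
  induction w with
  | of i =>
    exact GA.GABoxA.mono (X := η) (fun b => by simpa [Wd.ev] using hd i b) r
      (le_mul_of_one_le_left hη (one_le_pow₀ (by nlinarith)))
  | br u v a b =>
    have a1 := GA.GABoxA.bx le_rfl (by positivity) (by positivity) (by positivity) r h1 a
      (GA.GABoxA.w1 le_rfl hL r h1 (f := f) (fun i b => by simpa using hf i b) v)
    have a2 := GA.GABoxA.bx le_rfl (by positivity) (by positivity) (by positivity) r h1
      (GA.GABoxA.w1 le_rfl hL r h1 (f := f') (fun i b => by simpa using hf' i b) u) b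
    intro e
    have a3 := a1 e
    have a4 := a2 e
    rw [GA.br_sub_left] at a3
    rw [GA.br_sub_right] at a4
    rw [GA.GABoxA.pw]
    simp only [Wd.ev, Pi.sub_apply, Pi.one_apply, mul_one] at a3 a4 ⊢
    have a5 : 0 ≤ L * (((2 * Fintype.card κ ^ 2 + 2) * L) ^ (2 * u.len - 1) *
      ((2 * Fintype.card κ ^ 2 + 2) * L) ^ (2 * v.len - 1)) * η := by positivity
    rw [abs_le] at a3 a4 ⊢
    constructor <;> linarith [a3.1, a3.2, a4.1, a4.2]

theorem rowC : RowC := by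
  classical
  intro ι κ α _ _ _ _ _ σ
  refine ⟨fun y => ⟨2 * y.len * (4 * Fintype.card κ ^ 2 + 4),
    fun β X E G L D x C w w' w0 hK ha D1 al cu ω hω b p => ?_⟩, fun D w w0 => ?_⟩
  · have k := cE_sub (P := X.P) (E := E) hω
    have D1' : (1 : ℝ) ≤ D := by exact_mod_cast D1
    have e1 : 1 ≤ Real.exp w := Real.one_le_exp w0
    obtain ⟨δ, hδ⟩ : ∃ δ, δ = Real.exp (-(3 * D)) := ⟨_, rfl⟩
    have d0 : 0 < δ := hδ ▸ Real.exp_pos _
    have d1 : δ ≤ 1 := hδ ▸ Real.exp_le_one_iff.2 (by linarith)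
    change |y.ev (br (hc σ.μ (X.c ω))) (rd (Real.exp (-(3 * D))) (X.A ω)) b| *
      Real.exp (1 * (D : ℝ)) ≤ 1
    rw [← hδ]
    have a1 := wd_sub (L := 2 * Real.exp w) (c := hc σ.μ (X.c ω)) (by linarith) d0.le
      (fun a b e => (hc_abs (al ω k).ob a b e).trans (by linarith))
      (fun i b => (rd_abs d0 ((al ω k).bA i b)).trans (by linarith))
      (fun i b => ((al ω k).bA i b).trans (by linarith)) (rd_sub d0 (X.A ω)) y b
    obtain ⟨q, hq⟩ : ∃ q : ℝ, q = 4 * Fintype.card κ ^ 2 + 4 := ⟨_, rfl⟩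
    have q1 : 1 ≤ q := by rw [hq]; nlinarith [sq_nonneg (Fintype.card κ : ℝ)]
    have a2 : (2 * Fintype.card κ ^ 2 + 2) * (2 * Real.exp w) ≤ Real.exp (q + w) := by
      rw [Real.exp_add]
      nlinarith [Real.add_one_le_exp q]
    have a3 : ((2 * Fintype.card κ ^ 2 + 2) * (2 * Real.exp w)) ^ (2 * y.len - 1) ≤ Real.exp D := by
      refine (pow_le_pow_left₀ (by positivity) a2 _).trans ((pow_le_pow_right₀
        (Real.one_le_exp (by linarith)) (Nat.sub_le _ 1)).trans ?_)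
      rw [← Real.exp_nat_mul]
      refine Real.exp_le_exp.2 (le_trans ?_ hK)
      rw [← hq, mul_assoc (2 * (y.len : ℝ))]
      push_cast
      exact mul_le_mul_of_nonneg_left (by nlinarith) (by positivity)
    have a4 := exp_fl (q := 1 * (D : ℝ)) (r := -D) (L := 1) (u := 0) (cu ω k b p) (by simp)
      (by linarith)
    have a5 : Real.exp (-(D : ℝ)) ≤ 1 / 2 := exp_half D1'
    have a6 : Real.exp D * δ * Real.exp (1 * (D : ℝ)) = Real.exp (-(D : ℝ)) := by
      rw [hδ, ← Real.exp_add, ← Real.exp_add]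
      exact congrArg _ (by ring)
    have a7 := abs_sub_abs_le_abs_sub (y.ev (br (hc σ.μ (X.c ω))) (rd δ (X.A ω)) b)
      (y.ev (br (hc σ.μ (X.c ω))) (X.A ω) b)
    simp only [Pi.sub_apply, Pi.one_apply, mul_one] at a1
    have a8 := mul_le_mul_of_nonneg_right a3 d0.le
    refine (mul_le_mul_of_nonneg_right (show _ ≤ |y.ev (br (hc σ.μ (X.c ω))) (X.A ω) b| +
      Real.exp D * δ by linarith) (Real.exp_pos _).le).trans ?_
    rw [add_mul, a6]
    linarith
  · obtain ⟨δ, hδ⟩ : ∃ δ, δ = Real.exp (-(3 * D)) := ⟨_, rfl⟩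
    obtain ⟨m, hm⟩ : ∃ m : ℝ, m = Real.exp (3 * D + w) := ⟨_, rfl⟩
    have d0 : 0 < δ := hδ ▸ Real.exp_pos _
    have m1 : 1 ≤ m := hm ▸ Real.one_le_exp (by positivity)
    have e' : m * δ = Real.exp w := by
      rw [hm, hδ, ← Real.exp_add]
      exact congrArg _ (by ring)
    rw [← hδ]
    refine ⟨(Fintype.piFinset fun _ : α => Fintype.piFinset fun _ : κ =>
      Finset.Icc ⌊-m⌋ ⌊m⌋).image fun z i b => (z i b : ℝ) * δ, ?_, fun A h => ?_⟩
    · refine (Nat.cast_le.2 Finset.card_image_le).trans ?_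
      simp only [Fintype.card_piFinset, Finset.prod_const, Finset.card_univ, Nat.cast_pow]
      rw [← pow_mul, mul_comm (Fintype.card κ), ← Nat.cast_mul, Real.exp_nat_mul]
      refine pow_le_pow_left₀ (Nat.cast_nonneg _) ?_ _
      have h : ⌊-m⌋ ≤ ⌊m⌋ + 1 := by
        have := Int.floor_mono (show -m ≤ m by linarith); omega
      have e := congrArg (Int.cast : ℤ → ℝ) (Int.card_Icc_of_le _ _ h)
      push_cast at e
      have e2 : 4 ≤ Real.exp 2 := by
        rw [show (2 : ℝ) = 1 + 1 by norm_num, Real.exp_add]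
        nlinarith [Real.add_one_le_exp 1]
      rw [Real.exp_add, ← hm]
      nlinarith [Int.floor_le m, Int.lt_floor_add_one (-m)]
    · refine Finset.mem_image.2 ⟨fun i b => ⌊A i b / δ⌋, Fintype.mem_piFinset.2 fun i =>
        Fintype.mem_piFinset.2 fun a => ?_, rfl⟩
      have := abs_le.1 (h i a)
      rw [Finset.mem_Icc]
      exact ⟨Int.floor_mono (by rw [le_div_iff₀ d0]; linarith),
        Int.floor_mono (by rw [div_le_iff₀ d0]; linarith)⟩

end Pool.Agent.MP_5168f5_an.QA.Cp
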