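import Pool.Agent.MP_4b405e_nt.SK.SpA
import Pool.Agent.MP_5168f5_an.MX.FroK

/-! Sparse heights: cheap labels in a smaller unit. -/

namespace Pool.Agent.MP_5168f5_an.QA.Cp

open H19 H17S H17F AN Filter
open S20 (dn mem_cv)

variable {ι κ α : Type} [Fintype ι] [DecidableEq ι] [Fintype κ] [DecidableEq κ] [Fintype α]

/-- The side conditions on one space. -/
structure Pd.Aside (σ : Cs ι κ α) (X : Pd ι κ α) {β : Type} (E G : X.Ω → Prop) (L L' : ℝ)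
    (D i : ℕ) (x xb : ℚ) (C : X.Ω → β) : Prop where
  up : X.M ≤ i * D
  lo : D ≤ X.M
  fE : Fn X.P E (X.O xb)
  fC : Fn X.P C (X.O xb)
  fA : Fn X.P X.A (X.O xb)
  fT : Fn X.P X.T C
  g0 : ∀ ω ∈ X.P.S, (X.da σ (Real.exp (1 * X.M)) L' ω).Good (S0 κ)
  tr : ∀ ω ∈ X.P.S, ∀ S, ((X.ld E G L D x C).da σ ω).Good S →
    (X.da σ (Real.exp (1 * X.M)) L' ω).Good S

/-- A cheap label of the pieces does not carry a deep cap: one space. -/
def Pd.Aw (σ : Cs ι κ α) (X : Pd ι κ α) (x : ℚ) (L r d ε : ℝ) : Prop :=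
  ∀ (β : Type) (K : X.Ω → β) (Ps : X.Ω → Set (κ → ℝ)), Fn X.P K (X.O x) → Fn X.P X.T K →
  Fn X.P Ps K → (∀ ω ∈ X.P.S, (X.da σ (Real.exp (1 * X.M)) L ω).Good (Ps ω)) →
  pb X.P (fun ω => ¬(Real.log (vl σ.μ (Ps ω)) ≤ r ∨ d ≤ -Real.log (dn X.P K X.S ω))) ≤ ε

omit [Fintype α] in
theorem Acw.unif {σ : Cs ι κ α} {Y : ℕ → Pd ι κ α} (h : Acw σ Y) {L : ℕ → ℝ} (sL : Sub (sM Y) L)
    {x : ℚ} (x0 : 0 ≤ x) (x1 : x < 1) {r ε : ℝ} (r0 : 0 < r) (e0 : 0 < ε) : ∀ᶠ n in UF,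
    (Y n).Aw σ x (L n) (r * (Y n).M) (min r (1 - x) / σ.L₀ * (Y n).M) ε := by
  have k : ∀ n, ∃ (β : Type) (K : (Y n).Ω → β) (Ps : (Y n).Ω → Set (κ → ℝ)),
      ¬(Y n).Aw σ x (L n) (r * (Y n).M) (min r (1 - x) / σ.L₀ * (Y n).M) ε →
      Fn (Y n).P K ((Y n).O x) ∧ Fn (Y n).P (Y n).T K ∧ Fn (Y n).P Ps K ∧ (∀ ω ∈ (Y n).P.S,
        ((Y n).da σ (Real.exp (1 * (Y n).M)) (L n) ω).Good (Ps ω)) ∧ ¬pb (Y n).P (fun ω =>
        ¬(Real.log (vl σ.μ (Ps ω)) ≤ r * (Y n).M ∨ min r (1 - x) / σ.L₀ * (Y n).M ≤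
          -Real.log (dn (Y n).P K (Y n).S ω))) ≤ ε := fun n => by
    by_contra c
    refine c ⟨Unit, fun _ => (), fun _ => ∅, fun a => absurd (fun β K Ps a1 a2 a3 a4 => ?_) a⟩
    by_contra a5
    exact c ⟨β, K, Ps, fun _ => ⟨a1, a2, a3, a4, a5⟩⟩
  choose β K Ps hK using k
  by_contra c
  have c' := (not_ev.1 c).mono hK
  obtain ⟨n, a, b⟩ := (c'.and (h x r 1 β K Ps L x0 x1 r0 sL (c'.mono fun _ a => a.1)
    (c'.mono fun _ a => a.2.1) (c'.mono fun _ a => a.2.2.1) (c'.mono fun _ a => a.2.2.2.1)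
    ε e0)).exists
  exact a.2.2.2.2 b

theorem dn_tr {Ω β γ ζ : Type} (P : FP Ω) (K : Ω → β) (W : Ω → γ) (S : Ω → ζ) (V : Ω → Prop)
    (d : ℝ) {t : ℝ} (t0 : 0 < t) :
    pb P (fun ω => ¬(V ω ∨ d - 2 * t ≤ -Real.log (dn P K W ω))) ≤
      pb P (fun ω => ¬(V ω ∨ d ≤ -Real.log (dn P K S ω))) + (ch P W S / t + Real.exp (-t)) := by
  have h1 := G39.markov P (u := fun ω => -Real.log (dn P W S ω)) (fun ω k => neg_nonneg.2
    (Real.log_nonpos (S20.dn_pos k W S).le (S20.dn_le_one _ _ _ _))) t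
  rw [← S20.ch_dn, ← le_div_iff₀' t0] at h1
  have h2 := (G39.markov P (u := fun ω => dn P K W ω / dn P K (fun v => (S v, W v)) ω)
    (fun ω k => (div_pos (S20.dn_pos k _ _) (S20.dn_pos k _ _)).le) (Real.exp t)).trans
    (MX.cm_ratio P W K S)
  rw [← le_div_iff₀' (Real.exp_pos t), one_div, ← Real.exp_neg] at h2
  refine (H39F.pb_union P fun ω k a => ?_).trans (add_le_add le_rfl
    ((pb_or P _ _).trans (add_le_add h1 h2)))
  by_contra c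
  simp only [not_or, not_le, not_and, not_lt] at a c
  obtain ⟨c1, c2, c3⟩ := c
  have p1 := S20.dn_pos k W S
  have p2 := S20.dn_pos k K fun v => (S v, W v)
  have p3 := S20.dn_pos k K W
  have e1 := S20.dn_side k K W S
  rw [S20.dn_congr k (A := fun v => (W v, S v)) (A' := fun v => (S v, W v)) (Y' := K)
    ((Fn.snd _ _).pair (Fn.fst _ _)) ((Fn.snd _ _).pair (Fn.fst _ _)) (Fn.fst _ _)
    (Fn.fst _ _)] at e1
  have e2 := Real.log_le_log (mul_pos p1 p2) e1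
  have e3 := Real.log_lt_log (div_pos p3 p2) c3
  rw [Real.log_mul p1.ne' p2.ne'] at e2
  rw [Real.log_div p3.ne' p2.ne', Real.log_exp] at e3
  linarith [c1 a.1, a.2]

omit [Fintype α] in
theorem Pd.Aw.tr {σ : Cs ι κ α} {X : Pd ι κ α} {β γ : Type} {E G : X.Ω → Prop}
    {L L' r d ε t : ℝ} {D i : ℕ} {x xb : ℚ} {C : X.Ω → β} (h : X.Aw σ xb L' r d ε)
    (a : X.Aside σ E G L L' D i x xb C) (ne : ∃ ω ∈ X.P.S, E ω) (t0 : 0 < t) {K : X.Ω → γ}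
    {Ps : X.Ω → Set (κ → ℝ)} (f1 : Fn (cE X.P E) K (X.ld E G L D x C).l) (f2 : Fn (cE X.P E) C K)
    (f3 : Fn (cE X.P E) Ps K)
    (g : ∀ ω ∈ (cE X.P E).S, ((X.ld E G L D x C).da σ ω).Good (Ps ω)) :
    pb X.P E * pb (cE X.P E) (fun ω => ¬(Real.log (vl σ.μ (Ps ω)) ≤ r ∨
      d - 2 * t ≤ -Real.log (dn (cE X.P E) K C ω))) ≤
      ε + ((lg + ch X.P C X.S) / t + Real.exp (-t)) := by
  classical
  have m : ∀ {ω}, ω ∈ X.P.S → E ω → ω ∈ (cE X.P E).S := fun p q => (mem_cE ne _).2 ⟨p, q⟩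
  let K' : X.Ω → γ ⊕ (X.L × X.Z) := fun ω => if E ω then .inl (K ω) else .inr (X.O xb ω)
  have cs : ∀ {p q}, K' p = K' q → (E p ∧ E q ∧ K p = K q) ∨
      (¬E p ∧ ¬E q ∧ X.O xb p = X.O xb q) := fun {p q} e => by
    by_cases u : E p <;> by_cases w : E q <;> simp_all [K']
  have h1 := h _ K' (fun ω => if E ω then Ps ω else S0 κ) (fun p u q w e => by
      by_cases c : E p
      · have c' : E q := a.fE p u q w e ▸ c
        simp only [K', if_pos c, if_pos c']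
        exact congrArg _ (f1 p (m u c) q (m w c') (by
          simp only [Pd.ld, a.fC p u q w e, a.fA p u q w e]))
      · simp only [K', if_neg c, if_neg (a.fE p u q w e ▸ c : ¬E q), e])
    (fun p u q w e => a.fT p u q w ((cs e).elim
      (fun c => f2 p (m u c.1) q (m w c.2.1) c.2.2) fun c => a.fC p u q w c.2.2))
    (fun p u q w e => (cs e).elim (fun c => by
      simp only [if_pos c.1, if_pos c.2.1, f3 p (m u c.1) q (m w c.2.1) c.2.2]) fun c => by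
        simp only [if_neg c.1, if_neg c.2.1]) fun ω u => by
      split_ifs with c
      exacts [a.tr ω u _ (g ω (m u c)), a.g0 ω u]
  have h2 := dn_tr X.P K' (fun ω => (E ω, C ω)) X.S
    (fun ω => Real.log (vl σ.μ (if E ω then Ps ω else S0 κ)) ≤ r) d t0
  have h3 := (ch_subadd (P := X.P) E C X.S).trans (add_le_add (MX.ch_prop X.P E X.S) le_rfl)
  rw [pb_cE]
  refine (pb_mono fun ω u c => ?_).trans (h2.trans (add_le_add h1 (add_le_add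
    (div_le_div_of_nonneg_right h3 t0.le) le_rfl)))
  have e : dn (cE X.P E) K C ω = dn X.P K' (fun ω => (E ω, C ω)) ω :=
    (MX.cm_cE C K u c.1).trans (pb_congr fun v w => by
      have : E v := (congrArg Prod.fst ((mem_cv u v).1 w).2).mpr c.1
      simp [K', this, c.1])
  rw [if_pos c.1, ← e]
  exact c.2

theorem acw_slow {σ : Cs ι κ α} {Y : ℕ → Pd ι κ α} (l0 : 0 < σ.L₀) (h : Acw σ Y) {L' : ℕ → ℝ}
    (sL : Sub (sM Y) L') {xb : ℚ} (x0 : 0 ≤ xb) (x1 : xb < 1) :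
    ∃ io : ℕ → ℕ, Big io ∧ ∀ (β : ℕ → Type) (E G : ∀ n, (Y n).Ω → Prop) (L : ℕ → ℝ)
      (i D : ℕ → ℕ) (x : ℕ → ℚ) (C : ∀ n, (Y n).Ω → β n), Big D → (∀ᶠ n in UF, i n ≤ io n) →
      (∀ᶠ n in UF, (Y n).Aside σ (E n) (G n) (L n) (L' n) (D n) (i n) (x n) xb (C n)) →
      Pos (sP Y) E → Sm D (fun n => ch (Y n).P (C n) (Y n).S) →
      ∀ X : ∀ n, Ld ι κ α (Y n).Ω (β n × (α → κ → ℝ)) (β n),
      (∀ n, X n = (Y n).ld (E n) (G n) (L n) (D n) (x n) (C n)) →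
      ∀ r : ℝ, 0 < r → ∃ δ : ℝ, 0 < δ ∧ ∀ (γ : ℕ → Type) (K : ∀ n, (Y n).Ω → γ n)
        (Ps : ∀ n, (Y n).Ω → Set (κ → ℝ)), FnE (fun n => (X n).P) K (fun n => (X n).l) →
        FnE (fun n => (X n).P) (fun n => (X n).T) K → FnE (fun n => (X n).P) Ps K →
        (∀ᶠ n in UF, ∀ ω ∈ (X n).P.S, ((X n).da σ ω).Good (Ps n ω)) →
        Whp (fun n => (X n).P) fun n ω => Real.log (vl σ.μ (Ps n ω)) ≤ r * (X n).M ∨
          δ * (X n).M ≤ -Real.log (dn (X n).P (K n) (X n).T ω) := by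
  obtain ⟨io, bi, hi⟩ := KSA.spill (fun i n => ∀ j ≤ i ^ 2, (Y n).Aw σ xb (L' n)
    (1 / (j + 1 : ℝ) * (Y n).M) (min (1 / (j + 1 : ℝ)) (1 - xb) / σ.L₀ * (Y n).M)
    (1 / (i + 1 : ℝ))) fun i => ev_le' fun j _ => h.unif sL x0 x1 (by positivity) (by positivity)
  refine ⟨io, bi, fun β E G L i D x C bD hD a ⟨c, c0, pE⟩ sm X hX r r0 => ?_⟩
  obtain rfl : X = _ := funext hX
  have y0 : (0 : ℝ) < 1 - xb := sub_pos.2 (by exact_mod_cast x1)
  obtain ⟨δ, d0, d1⟩ : ∃ δ : ℝ, 0 < δ ∧ 4 * δ = min (r / (1 + 2 * r)) (1 - xb) / σ.L₀ :=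
    ⟨_ / 4, by positivity, mul_div_cancel₀ _ four_ne_zero⟩
  refine ⟨2 * δ, by positivity, fun γ K Ps f1 f2 f3 g ε e0 => ?_⟩
  have e1 : 0 < ε * c / 4 := by positivity
  filter_upwards [hi, hD, a, pE, f1, f2, f3, g, bi.ev (1 / r + 1), bi.ev (1 / (ε * c / 4)),
    bD.ev 1, bD.sm lg _ (mul_pos e1 d0), sm _ (mul_pos e1 d0), G39.dl_lt bD e1 d0]
    with n b1 b2 b3 b4 b5 b6 b7 b8 b9 n1 n2 n3 n4 n5
  have q0 : 0 < r * D n := by positivity
  have lo : (D n : ℝ) ≤ (Y n).M := by exact_mod_cast b3.lo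
  have up : ((Y n).M : ℝ) ≤ io n * D n := by
    exact_mod_cast b3.up.trans (Nat.mul_le_mul_right _ b2)
  have z0 : 0 ≤ (Y n).M / (r * D n) := by positivity
  have j1 := Nat.le_ceil ((Y n).M / (r * D n))
  have j2 := Nat.ceil_lt_add_one z0
  set j := ⌈(Y n).M / (r * D n)⌉₊
  have j0 : (0 : ℝ) < j + 1 := by positivity
  have i1 : 0 < 1 / r := by positivity
  have j3 : j ≤ io n ^ 2 := by
    have : (Y n).M / (r * D n) ≤ io n * (1 / r) := by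
      rw [div_le_iff₀ q0, mul_assoc, ← mul_assoc (1 / r), one_div_mul_cancel r0.ne', one_mul]
      exact up
    exact_mod_cast (show (j : ℝ) ≤ io n ^ 2 by nlinarith)
  have k1 : 1 / (j + 1 : ℝ) * (Y n).M ≤ r * D n := by
    rw [one_div_mul_eq_div, div_le_iff₀ j0]
    rw [div_le_iff₀ q0] at j1
    nlinarith
  have k2 : 4 * δ * D n ≤ min (1 / (j + 1 : ℝ)) (1 - xb) / σ.L₀ * (Y n).M := by
    rw [d1, div_mul_eq_mul_div, div_mul_eq_mul_div, min_mul_of_nonneg _ _ (Nat.cast_nonneg _),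
      min_mul_of_nonneg _ _ (Nat.cast_nonneg _)]
    refine div_le_div_of_nonneg_right (min_le_min ?_ (mul_le_mul_of_nonneg_left lo y0.le)) l0.le
    rw [div_mul_eq_mul_div, div_mul_eq_mul_div, div_le_div_iff₀ (by positivity) j0]
    rw [← sub_lt_iff_lt_add, lt_div_iff₀ q0] at j2
    nlinarith [mul_le_mul_of_nonneg_left lo r0.le]
  have t0 : 0 < δ * D n := by positivity
  have k3 := (b1 _ le_rfl j j3).tr b3 (ex_of_pb (c0.trans_le b4)) t0 b5 b6 b7 b8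
  have k4 : (lg + ch (Y n).P (C n) (Y n).S) / (δ * D n) ≤ 2 * (ε * c / 4) := by
    rw [div_le_iff₀ t0]
    linarith
  have k5 : 1 / (io n + 1 : ℝ) ≤ ε * c / 4 := by
    rw [div_le_comm₀ (by positivity) e1]
    linarith
  have k6 := le_of_mul_le_mul_left ((mul_le_mul_of_nonneg_right b4 (pb_nonneg _ _)).trans
    (k3.trans (show _ ≤ c * ε by unfold G39.dl at n5; linarith))) c0
  refine le_trans (pb_mono (P := cE (Y n).P (E n)) fun ω _ => _root_.mt fun w => ?_) k6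
  exact Or.imp (·.trans k1) (le_trans (show 2 * δ * (D n : ℝ) ≤ _ by linarith)) w

end Pool.Agent.MP_5168f5_an.QA.Cp
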