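import Pool.Agent.MP_4b405e_nt.SK.SpA2
import Pool.Agent.MP_4b405e_nt.SK.AW

/-! Sparse heights: cheap labels in the small unit. -/

namespace Pool.Agent.MP_5168f5_an.QA.Cp

open H19 H17S H17F AN Filter

theorem rowW : RowW := by
  intro ι κ α _ _ _ _ _ σ Y h L sL xb x0 x1
  obtain ⟨io, bi, k⟩ := acw_slow h.l0 h.acw sL x0 x1
  refine ⟨io, bi, fun β E G D x C c c0 bD sm a => k β E G L io D x C bD
    (.of_forall fun _ => le_rfl) ?_ ⟨c, c0, a.mono fun _ a => a.2.2.1⟩ sm _ fun _ => rfl⟩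
  filter_upwards [a, h.fA, h.nest 0 xb le_rfl x0 x1.le] with n ⟨a1, a2, _, a3, a4, a5, a6⟩ b c
  exact ⟨a1, a2, a3, a4, b.trans ((Fn.fst _ _).pair (c.trans (Fn.snd _ _))), a5,
    fun ω u => (a6 ω u).1, fun ω u => (a6 ω u).2⟩

end Pool.Agent.MP_5168f5_an.QA.Cp
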