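import Pool.Agent.MP_4b405e_nt.SK.SpA

/-! Sparse heights: the geometric facts of the zoomed system. -/

namespace Pool.Agent.MP_5168f5_an.QA.Cp

open H19 H17S H17F R4 AN Filter Matrix
open LC (ex_le)

namespace AZ

theorem grid {f : ℕ → ℕ} {i i' c : ℕ} {m v : ℝ} (e : i ≤ i') (m0 : 0 ≤ m) (hc : f i + c ≤ f i')
    (h : ∀ n, i ≤ n → n ≤ i' → |(f n : ℝ) - f i - (n - i) * m| ≤ v) :
    (∃ n, i ≤ n ∧ n ≤ i' ∧ f n ≤ f i + c ∧ |(n - i) * m - c| ≤ m + v) ∧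
      ∃ n, i ≤ n ∧ n ≤ i' ∧ f i + c ≤ f n ∧ |(n - i) * m - c| ≤ m + v := by
  classical
  have ex : ∃ n, i ≤ n ∧ f i + c ≤ f n := ⟨i', e, hc⟩
  obtain ⟨a1, a2⟩ := Nat.find_spec ex
  have a3 := Nat.find_min' ex ⟨e, hc⟩
  have a4 := fun n => Nat.find_min ex (m := n)
  generalize Nat.find ex = n at a1 a2 a3 a4
  have b1 := abs_le.1 (h n a1 a3)
  have b2 : (f i : ℝ) + c ≤ f n := by exact_mod_cast a2
  rcases a1.eq_or_lt with rfl | a1'
  · have : c = 0 := by omega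
    subst this
    have : |((i : ℝ) - i) * m - (0 : ℕ)| ≤ m + v := by simp; linarith
    exact ⟨⟨i, le_rfl, e, le_rfl, this⟩, i, le_rfl, e, le_rfl, this⟩
  · obtain ⟨n, rfl⟩ : ∃ k, n = k + 1 := ⟨n - 1, by omega⟩
    have c1 : f n ≤ f i + c := le_of_not_ge fun z => a4 n n.lt_succ_self ⟨by omega, z⟩
    have c2 := abs_le.1 (h n (by omega) (by omega))
    have c3 : (f n : ℝ) ≤ f i + c := by exact_mod_cast c1
    push_cast at b1
    exact ⟨⟨n, by omega, by omega, c1, abs_le.2 ⟨by linarith, by linarith⟩⟩, n + 1, a1, a3, a2,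
      abs_le.2 ⟨by push_cast; linarith, by push_cast; linarith⟩⟩

theorem rd_near {κ α : Type} {δ : ℝ} (h : 0 < δ) (A : α → κ → ℝ) (i : α) (b : κ) :
    |A i b - rd δ A i b| ≤ δ ∧ (A i b = 0 → rd δ A i b = 0) := by
  refine ⟨?_, fun e => by simp [rd, e]⟩
  have a1 := (le_div_iff₀ h).1 (Int.floor_le (A i b / δ))
  have a2 := (div_lt_iff₀ h).1 (Int.lt_floor_add_one (A i b / δ))
  rw [rd, abs_le]
  constructor <;> linarith

variable {ι κ α β : Type} [Fintype ι] [DecidableEq ι] [Fintype κ] [DecidableEq κ] [Fintype α]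

/-- The data with the group element, before the rescaling. -/
noncomputable def ba (X : Pd ι κ α) (E : X.Ω → Prop) (D : ℕ) : Ba ι κ α X.Ω :=
  ⟨cE X.P E, Real.exp (1 * D), 1, X.j, X.B, X.c, fun ω => rd (Real.exp (-(3 * D))) (X.A ω)⟩

/-- The hypotheses. -/
structure Hy (σ : Cs ι κ α) (W K : ℝ) (X : Pd ι κ α) (k : ℕ) (lv : ℚ → ℕ) (zz : X.Ω → ℝ)
    (N i i' D : ℕ) (v p w : ℝ) (C : X.Ω → β) (E G : X.Ω → Prop) : Prop where
  ok : σ.Ok
  g0 : 0 < σ.g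
  lt : σ.μ σ.τ = lg
  w1 : ∀ a, σ.μ a ≤ W
  w2 : ∀ a, σ.η a ≤ W
  gf : X.Gf σ k lv zz N v
  N0 : 0 < N
  ii : i ≤ i'
  iN : i' ≤ N
  v0 : 0 ≤ v
  p1 : v + Fintype.card α + 2 * (W * (X.M / N + v)) ≤ p
  p2 : v + (1 + W * (X.M / N + v)) / σ.L₁ ≤ p
  pD : p ≤ D
  wD : w + 2 * Fintype.card κ ≤ D
  k1 : 4 ≤ σ.g * K
  k2 : 6 ≤ K
  far : K * D * N ≤ (N - i') * X.M
  ne : ∃ ω ∈ X.P.S, E ω
  ng : ∃ ω ∈ (cE X.P E).S, G ω
  fE : Fn X.P E (X.O (i / N))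
  fG : Fn (cE X.P E) G fun ω => (C ω, rd (Real.exp (-(3 * D))) (X.A ω))
  tG : ∀ ω ∈ (cE X.P E).S, ∀ v ∈ (cE X.P E).S, G ω → G v → C ω = C v
  fC : Fn X.P C (X.O (i / N))
  loc : X.Loc σ C (i / N) v

variable {σ : Cs ι κ α} {W K : ℝ} {X : Pd ι κ α} {k : ℕ} {lv : ℚ → ℕ} {zz : X.Ω → ℝ}
  {N i i' D n c : ℕ} {v p w : ℝ} {C : X.Ω → β} {E G : X.Ω → Prop} {ω u : X.Ω}

namespace Hy

variable (h : Hy σ W K X k lv zz N i i' D v p w C E G)
include h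

theorem oiff (y : ℚ) : X.O y ω = X.O y u ↔ X.l ω = X.l u ∧ fl1 (lv y) (zz ω) = fl1 (lv y) (zz u) := by
  rw [Pd.O, Pd.O, Prod.mk.injEq, h.gf.hz]

theorem up {y : ℚ} {a : ℕ} (e : lv y ≤ a) (q : (X.l ω, fl1 a (zz ω)) = (X.l u, fl1 a (zz u))) :
    X.O y ω = X.O y u := (h.oiff y).2 ⟨congrArg (·.1) q, fl1_eq_of_le e (congrArg (·.2) q)⟩

theorem dw {y : ℚ} {a : ℕ} (e : a ≤ lv y) (q : X.O y ω = X.O y u) :
    (X.l ω, fl1 a (zz ω)) = (X.l u, fl1 a (zz u)) :=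
  Prod.ext ((h.oiff y).1 q).1 (fl1_eq_of_le e ((h.oiff y).1 q).2)

theorem o0 (q : X.O (i / N) ω = X.O (i / N) u) : X.O 0 ω = X.O 0 u :=
  h.up (by simpa using h.gf.mono 0 i i.zero_le (h.ii.trans h.iN)) (h.dw le_rfl q)

theorem mem' : ω ∈ (cE (cE X.P E) G).S ↔ (ω ∈ X.P.S ∧ E ω) ∧ G ω := by
  rw [mem_cE h.ng, mem_cE h.ne]

theorem ll (a : ω ∈ X.P.S) (b : u ∈ X.P.S) (q : X.O (i / N) ω = X.O (i / N) u) :
    (C ω, rd (Real.exp (-(3 * D))) (X.A ω)) = (C u, rd (Real.exp (-(3 * D))) (X.A u)) := by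
  rw [h.fC ω a u b q, h.gf.fA ω a u b (h.o0 q)]

theorem mem (a : ω ∈ (cE (cE X.P E) G).S) (b : u ∈ X.P.S) (q : X.O (i / N) ω = X.O (i / N) u) :
    u ∈ (cE (cE X.P E) G).S := by
  obtain ⟨⟨a1, a2⟩, a3⟩ := h.mem'.1 a
  have e : E u := h.fE ω a1 u b q ▸ a2
  exact h.mem'.2 ⟨⟨b, e⟩, h.fG ω ((mem_cE h.ne _).2 ⟨a1, a2⟩) u ((mem_cE h.ne _).2 ⟨b, e⟩)
    (h.ll a1 b q) ▸ a3⟩

theorem cv_eq {T : Type} {Q : X.Ω → T} (a : ω ∈ (cE (cE X.P E) G).S)
    (q : ∀ u, Q u = Q ω → X.O (i / N) ω = X.O (i / N) u) :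
    cv (cE (cE X.P E) G) Q (Q ω) = cv X.P Q (Q ω) := by
  obtain ⟨⟨a1, a2⟩, a3⟩ := h.mem'.1 a
  rw [cE_cE ⟨ω, a1, a2, a3⟩, cv, cE_cE (E := fun u => E u ∧ G u) (E' := fun u => Q u = Q ω)
    ⟨ω, a1, ⟨a2, a3⟩, rfl⟩]
  exact cE_congr fun u hu => ⟨And.right, fun e =>
    have z := h.mem'.1 (h.mem a hu (q u e)); ⟨⟨z.1.2, z.2⟩, e⟩⟩

theorem tr : (ba X E D).Tr σ G W :=
  ⟨h.ok, h.w1, h.w2, h.ng, Real.one_le_exp (by positivity), le_rfl, fun ω a =>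
    have b := h.gf.alg ω (cE_sub a)
    ⟨b.unit, b.fr, fun i e z => b.hg i e fun y =>
      z ((rd_near (Real.exp_pos _) _ i e).2 y)⟩,
    fun ω a u b x y => (h.loc ω (cE_sub a) u (cE_sub b) (h.tG ω a u b x y)).1⟩

theorem W0 : 0 ≤ W := (h.ok.m0 σ.τ).trans (h.w1 _)

theorem lev (a : i ≤ n) (b : n ≤ i') :
    |(lv (n / N) : ℝ) - lv (i / N) - ((n : ℝ) - i) * (X.M / N)| ≤ v := by
  have := h.gf.lev i (h.ii.trans h.iN) n (b.trans h.iN)
  rwa [div_mul_eq_mul_div, mul_div_assoc] at this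

theorem gr (hc : c ≤ lv (i' / N) - lv (i / N)) :
    (∃ n : ℕ, i ≤ n ∧ n ≤ i' ∧ lv (n / N) ≤ lv (i / N) + c ∧
      |((n / N : ℚ) : ℝ) * X.M - ((i / N : ℚ) : ℝ) * X.M - c| ≤ X.M / N + v) ∧
    ∃ n : ℕ, i ≤ n ∧ n ≤ i' ∧ lv (i / N) + c ≤ lv (n / N) ∧
      |((n / N : ℚ) : ℝ) * X.M - ((i / N : ℚ) : ℝ) * X.M - c| ≤ X.M / N + v := by
  have e : ∀ n : ℕ, ((n / N : ℚ) : ℝ) * X.M - ((i / N : ℚ) : ℝ) * X.M = (n - i) * (X.M / N) :=
    fun n => by push_cast; ring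
  simp only [e]
  have := h.gf.mono i i' h.ii h.iN
  exact grid (f := fun n => lv (n / N)) h.ii (by positivity) (by omega) fun n => h.lev

theorem deep (b : n ≤ i') : K * D ≤ (1 - ((n / N : ℚ) : ℝ)) * X.M := by
  have n0 : (0 : ℝ) < N := by exact_mod_cast h.N0
  have b' : (n : ℝ) ≤ i' := by exact_mod_cast b
  refine le_of_mul_le_mul_right (h.far.trans ?_) n0
  push_cast
  rw [mul_right_comm, sub_mul 1, div_mul_cancel₀ _ n0.ne', one_mul]
  exact mul_le_mul_of_nonneg_right (by linarith) (Nat.cast_nonneg _)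

theorem gdeep (b : n ≤ i') : 4 * D ≤ σ.g * (1 - ((n / N : ℚ) : ℝ)) * X.M := by
  rw [mul_assoc]
  nlinarith [mul_le_mul_of_nonneg_left (h.deep b) h.g0.le,
    mul_le_mul_of_nonneg_right h.k1 (Nat.cast_nonneg (α := ℝ) D)]

theorem wv : 0 ≤ W * v ∧ W * v ≤ W * (X.M / N + v) :=
  ⟨mul_nonneg h.W0 h.v0, mul_le_mul_of_nonneg_left (le_add_of_nonneg_left (by positivity)) h.W0⟩

theorem vp : v + 2 * (W * (X.M / N + v)) ≤ p := by
  linarith [h.p1, Nat.cast_nonneg (α := ℝ) (Fintype.card α)]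

theorem inc (hc : c ≤ lv (i' / N) - lv (i / N)) : ((ba X E D).nw σ G (((i / N : ℚ) : ℝ) * X.M)).IncO σ
    (fun ω => (X.l ω, fl1 (lv (i / N) + c) (zz ω))) c p := by
  obtain ⟨n, n1, n2, n3, n4⟩ := (h.gr hc).1
  refine h.tr.incO (u := v + Fintype.card α) n4 (by linarith [h.p1, h.wv.1, h.wv.2])
    fun ω u a => ?_
  obtain ⟨-, s, s1, s2⟩ := h.gf.inc n (n2.trans h.iN) ω (cE_sub a.1) u (cE_sub a.2.1) (h.up n3 a.2.2)
  have al := h.gf.alg ω (cE_sub a.1)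
  have c0 := Nat.cast_nonneg (α := ℝ) (Fintype.card α)
  have d0 := Nat.cast_nonneg (α := ℝ) D
  have s3 : ∀ j, |s j * Real.exp (-(σ.η j * (((n / N : ℚ) : ℝ) * X.M)))| ≤
      Real.exp (v - σ.η j * (((n / N : ℚ) : ℝ) * X.M)) := fun j => by
    rw [abs_mul, abs_of_pos (Real.exp_pos _), sub_eq_add_neg, Real.exp_add]
    exact mul_le_mul_of_nonneg_right (s1 j) (Real.exp_pos _).le
  refine ⟨fun j => s j * Real.exp (-(σ.η j * (((n / N : ℚ) : ℝ) * X.M))),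
    fun j => (s3 j).trans (ex_le (by linarith)), fun b => ?_⟩
  change |X.t ω u b - ∑ j, _ * rd _ (X.A ω) j b| * flr σ.μ (Real.exp (1 * D)) b ≤ _
  rcases (h.ok.m0 b).eq_or_lt with z | z
  · rw [flr, if_neg z.not_lt, mul_one, Finset.sum_eq_zero fun j _ => by
      rw [(rd_near (Real.exp_pos _) _ j b).2 (by_contra fun y =>
        (h.ok.et j).ne' ((al.hg j b y).symm.trans z.symm)), mul_zero], sub_zero, ← z]
    exact ((s2 b).1 z.symm).trans (ex_le (by linarith))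
  rw [flr, if_pos z]
  have t1 : |∑ j, s j * Real.exp (-(σ.η j * (((n / N : ℚ) : ℝ) * X.M))) * X.A ω j b -
      ∑ j, s j * Real.exp (-(σ.η j * (((n / N : ℚ) : ℝ) * X.M))) *
        rd (Real.exp (-(3 * D))) (X.A ω) j b| ≤ Fintype.card α *
      (Real.exp (v - σ.μ b * (((n / N : ℚ) : ℝ) * X.M)) * Real.exp (-(3 * D))) := by
    rw [← Finset.sum_sub_distrib, ← nsmul_eq_mul]
    refine (Finset.abs_sum_le_sum_abs _ _).trans (Finset.sum_le_card_nsmul _ _ _ fun j _ => ?_)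
    rw [← mul_sub, abs_mul]
    by_cases y : X.A ω j b = 0
    · rw [(rd_near (Real.exp_pos _) _ j b).2 y, y, sub_zero, abs_zero, mul_zero]; positivity
    · exact mul_le_mul (al.hg j b y ▸ s3 j) (rd_near (Real.exp_pos _) _ j b).1 (abs_nonneg _)
        (Real.exp_pos _).le
  refine (mul_le_mul_of_nonneg_right ((abs_sub_le _ _ _).trans (add_le_add ((s2 b).2 z) t1))
    (Real.exp_pos _).le).trans ?_
  rw [add_mul, mul_assoc, ← Real.exp_add, ← Real.exp_add, ← Real.exp_add,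
    show v + Fintype.card α - σ.μ b * (((n / N : ℚ) : ℝ) * X.M) =
      Fintype.card α + (v - σ.μ b * (((n / N : ℚ) : ℝ) * X.M)) by ring, Real.exp_add (Fintype.card α)]
  refine le_trans ?_ (mul_le_mul_of_nonneg_right (Real.add_one_le_exp _) (Real.exp_pos _).le)
  rw [add_mul _ 1, one_mul (Real.exp _), add_comm]
  exact add_le_add (mul_le_mul_of_nonneg_left (ex_le (by linarith)) c0)
    (ex_le (by linarith [h.gdeep n2]))

theorem ac (hc : c ≤ lv (i' / N) - lv (i / N)) :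
    ((ba X E D).nw σ G (((i / N : ℚ) : ℝ) * X.M)).Acf σ k
    (fun ω => (X.l ω, fl1 (lv (i / N) + c) (zz ω))) c p w := by
  obtain ⟨n, n1, n2, n3, n4⟩ := (h.gr hc).2
  intro ω a r hr φ H b ⟨j, hj⟩ q
  have a0 : ω ∈ X.P.S := (h.mem'.1 a).1.1
  have d0 := Nat.cast_nonneg (α := ℝ) D
  have c0 := Nat.cast_nonneg (α := ℝ) (Fintype.card κ)
  change pb (cv (cE (cE X.P E) G) _ _) H ≤ _
  rw [h.cv_eq a fun u e => h.up (Nat.le_add_right _ _) e.symm]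
  refine S20.pb_tot_le (X.O (n / N)) fun o ho => ?_
  obtain ⟨o1, o2⟩ := (MX.mem_cv a0 o).1 ho
  have cc : cv (cv X.P (fun ω => (X.l ω, fl1 (lv (i / N) + c) (zz ω)))
      (X.l ω, fl1 (lv (i / N) + c) (zz ω))) (X.O (n / N)) (X.O (n / N) o) =
      cv X.P (X.O (n / N)) (X.O (n / N) o) := by
    rw [cv, cv, cE_cE (E := fun u => (X.l u, fl1 (lv (i / N) + c) (zz u)) =
      (X.l ω, fl1 (lv (i / N) + c) (zz ω))) (E' := fun u => X.O (n / N) u = X.O (n / N) o)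
      ⟨o, o1, o2, rfl⟩]
    exact cE_congr fun u _ => ⟨And.right, fun e => ⟨(h.dw n3 e).trans o2, e⟩⟩
  rw [cc]
  obtain ⟨s, hs⟩ : ∃ s, s = 1 + W * (X.M / N + v) := ⟨_, rfl⟩
  refine (h.gf.ac n (n2.trans h.iN) o o1 (r - s) (fun e => Real.exp (s + σ.μ e *
    (((i / N : ℚ) : ℝ) * X.M + c)) * φ e) H (fun e => ⟨fun z => by rw [(b e).1 z, mul_zero], ?_⟩)
    ⟨j, ?_⟩ fun u hu u' hu' x x' y y' => ?_).trans (ex_le (div_le_div_of_nonneg_right ?_
      (Nat.cast_nonneg _)))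
  · have y := abs_le.1 (Ba.wt n4 (h.ok.m0 e) (h.w1 e))
    rw [abs_mul, abs_of_pos (Real.exp_pos _)]
    refine (mul_le_mul_of_nonneg_left ((b e).2.trans_eq (Real.exp_add _ _).symm)
      (Real.exp_pos _).le).trans ?_
    rw [← Real.exp_add]
    exact ex_le (by linarith [y.1, h.gdeep n2, h.vp, h.pD, h.wD, h.wv.1, h.wv.2])
  · have y := abs_le.1 (Ba.wt n4 (h.ok.et j).le (h.w2 j))
    have e0 : X.A o = X.A ω := h.gf.fA o o1 ω a0 (h.o0 (h.up (Nat.le_add_right _ _) o2))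
    have x : (fun e => Real.exp (s + σ.μ e * (((i / N : ℚ) : ℝ) * X.M + c)) * φ e) ⬝ᵥ X.A o j =
        Real.exp (s + σ.η j * (((i / N : ℚ) : ℝ) * X.M + c)) * (φ ⬝ᵥ X.A ω j) := by
      rw [e0, dotProduct, dotProduct, Finset.mul_sum]
      refine Finset.sum_congr rfl fun e _ => ?_
      by_cases z : X.A ω j e = 0
      · simp [z]
      · rw [(h.gf.alg ω a0).hg j e z]; ring
    have t1 : |φ ⬝ᵥ X.A ω j - φ ⬝ᵥ rd (Real.exp (-(3 * D))) (X.A ω) j| ≤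
        Fintype.card κ * (Real.exp (1 * D + w) * Real.exp (-(3 * D))) := by
      rw [← dotProduct_sub, dotProduct, ← nsmul_eq_mul]
      refine (Finset.abs_sum_le_sum_abs _ _).trans (Finset.sum_le_card_nsmul _ _ _ fun e _ => ?_)
      rw [abs_mul]
      exact mul_le_mul ((b e).2.trans_eq (Real.exp_add _ _).symm)
        (rd_near (Real.exp_pos _) _ j e).1 (abs_nonneg _) (Real.exp_pos _).le
    have t2 : Fintype.card κ * (Real.exp (1 * D + w) * Real.exp (-(3 * D))) ≤ 1 / 2 := by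
      rw [← Real.exp_add]
      refine (mul_le_mul_of_nonneg_left (ex_le (b := -(2 * Fintype.card κ))
        (by linarith [h.wD])) c0).trans ?_
      rw [Real.exp_neg, ← div_eq_mul_inv, div_le_iff₀ (Real.exp_pos _)]
      linarith [Real.add_one_le_exp (2 * (Fintype.card κ : ℝ))]
    have t3 : 1 / 2 ≤ |φ ⬝ᵥ X.A ω j| := by
      have := abs_sub_abs_le_abs_sub (φ ⬝ᵥ rd (Real.exp (-(3 * D))) (X.A ω) j) (φ ⬝ᵥ X.A ω j)
      rw [abs_sub_comm] at this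
      change 1 ≤ |φ ⬝ᵥ rd _ (X.A ω) j| at hj
      linarith
    rw [x, abs_mul, abs_of_pos (Real.exp_pos _)]
    refine le_trans ?_ (mul_le_mul_of_nonneg_left t3 (Real.exp_pos _).le)
    refine le_trans ?_ (mul_le_mul_of_nonneg_right (ex_le (a := 1 + σ.η j *
      (((n / N : ℚ) : ℝ) * X.M)) (by linarith [y.2])) one_half_pos.le)
    rw [Real.exp_add]
    nlinarith [Real.add_one_le_exp 1, Real.exp_pos (σ.η j * (((n / N : ℚ) : ℝ) * X.M))]
  · have z1 := ((h.dw n3 x).trans o2).symm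
    have z2 := ((h.dw n3 x').trans o2).symm
    have m := h.mem a hu (h.up (Nat.le_add_right _ _) z1)
    have m' := h.mem a hu' (h.up (Nat.le_add_right _ _) z2)
    have z := q u u' ⟨a, m, z1⟩ ⟨a, m', z2⟩ y y'
    rw [(h.tr.t m m').1] at z
    have e : (fun e => Real.exp (s + σ.μ e * (((i / N : ℚ) : ℝ) * X.M + c)) * φ e) ⬝ᵥ X.t u u' =
        Real.exp s * ∑ e, φ e * (Real.exp (σ.μ e * c) *
          (Real.exp (σ.μ e * (((i / N : ℚ) : ℝ) * X.M)) * (ba X E D).t u u' e)) := by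
      rw [dotProduct, Finset.mul_sum]
      refine Finset.sum_congr rfl fun e _ => ?_
      rw [mul_add, Real.exp_add, Real.exp_add]
      change _ = _ * (_ * (_ * (_ * X.t u u' e)))
      ring
    rw [e, abs_mul, abs_of_pos (Real.exp_pos _), neg_sub, sub_eq_add_neg, Real.exp_add]
    exact mul_le_mul_of_nonneg_left z (Real.exp_pos _).le
  · rw [sub_div, hs]
    linarith [h.p2]

theorem ww : |((lv (i' / N) - lv (i / N) : ℕ) : ℝ) -
    (((i' / N : ℚ) : ℝ) * X.M - ((i / N : ℚ) : ℝ) * X.M)| ≤ v := by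
  rw [Nat.cast_sub (h.gf.mono i i' h.ii h.iN)]
  convert h.lev h.ii le_rfl using 3
  push_cast; ring

theorem pp (a : ω ∈ (cE (cE X.P E) G).S) (H : X.Ω → Prop) :
    pb (cv (cE (cE X.P E) G) (fun ω => (X.l ω, fl1 (lv (i / N) + 0) (zz ω)))
      (X.l ω, fl1 (lv (i / N) + 0) (zz ω))) H = pb (cv X.P (X.O (i / N)) (X.O (i / N) ω)) H := by
  rw [h.cv_eq a fun u e => h.up (Nat.le_add_right _ _) e.symm]
  exact congrArg (pb · H) (cE_congr fun u _ => ⟨h.up le_rfl, h.dw le_rfl⟩)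

end Hy

end AZ

open AZ in
theorem rowZ : RowZ := by
  intro ι κ α _ _ _ _ _ σ ok g0 _ lt
  obtain ⟨W, hW⟩ : ∃ W, W = ∑ a, σ.μ a + ∑ a, σ.η a := ⟨_, rfl⟩
  have s1 : 0 ≤ ∑ a, σ.μ a := Finset.sum_nonneg fun a _ => ok.m0 a
  have s2 : 0 ≤ ∑ a, σ.η a := Finset.sum_nonneg fun a _ => (ok.et a).le
  have W0 : 0 ≤ W := by linarith
  have l1 := ok.l1
  refine ⟨6 + 4 / σ.g + 2 * Fintype.card κ + Fintype.card α + 2 * W + (1 + W) / σ.L₁,
    fun Λ β X k lv zz N i i' D v L p w C C' E G G₀ ⟨Zb, ZM, ZO, ZΨ⟩ gf N0 ii iN v0 k0 hp pD wD far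
      hZ hO ne ng fE fG tG fC zC loc fC' zC' loc' ind => ?_⟩
  subst hZ
  have m0 : (0 : ℝ) ≤ X.M / N := by positivity
  have c1 := Nat.cast_nonneg (α := ℝ) (Fintype.card α)
  have c2 := Nat.cast_nonneg (α := ℝ) (Fintype.card κ)
  have c3 : 0 < 4 / σ.g := by positivity
  have c4 : 0 ≤ (1 + W) / σ.L₁ := by positivity
  have c5 : (1 + W * (X.M / N + v)) / σ.L₁ ≤ (1 + W) / σ.L₁ * (v + X.M / N + 1) := by
    rw [div_mul_eq_mul_div]
    exact div_le_div_of_nonneg_right (by nlinarith) l1.le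
  have s3 : 0 ≤ v + X.M / N := by positivity
  have h : Hy σ W _ X k lv zz N i i' D v p w C E G := ⟨ok, g0, lt, fun a => by
      linarith [Finset.single_le_sum (fun a _ => ok.m0 a) (Finset.mem_univ a)], fun a => by
      linarith [Finset.single_le_sum (fun a _ => (ok.et a).le) (Finset.mem_univ a)], gf, N0, ii, iN,
    v0, by nlinarith [mul_nonneg c1 s3, mul_nonneg c2 s3, mul_nonneg c3.le s3, mul_nonneg c4 s3],
    by nlinarith [mul_nonneg c1 s3, mul_nonneg c2 s3, mul_nonneg c3.le s3, mul_nonneg W0 s3],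
    pD, by linarith, by
      have : σ.g * (4 / σ.g) = 4 := mul_div_cancel₀ _ g0.ne'
      nlinarith [mul_nonneg g0.le c1, mul_nonneg g0.le c2, mul_nonneg g0.le c4, mul_nonneg g0.le W0],
    by linarith, far, ne, ng, fE, fG, tG, fC, loc⟩
  have sub : ∀ {ω}, ω ∈ (cE (cE X.P E) G).S → ω ∈ X.P.S := fun a => cE_sub (cE_sub a)
  have cc : ∀ {ω u}, ω ∈ (cE (cE X.P E) G).S → u ∈ (cE (cE X.P E) G).S → C ω = C u := fun a b =>
    tG _ (cE_sub a) _ (cE_sub b) (h.mem'.1 a).2 (h.mem'.1 b).2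
  have lw : lv (i / N) + (lv (i' / N) - lv (i / N)) = lv (i' / N) :=
    Nat.add_sub_cancel' (gf.mono i i' ii iN)
  have ww := abs_le.1 h.ww
  have vp := h.vp
  have wv := h.wv
  have d0 := Nat.cast_nonneg (α := ℝ) D
  have g1 := lg_pos
  have g2 := lg_lt_one
  have sc : ∀ {ω u} {r : ℝ} (b), ω ∈ (cE (cE X.P E) G).S → u ∈ (cE (cE X.P E) G).S →
      |X.t ω u b| ≤ Real.exp r → |((ba X E D).nw σ G (((i / N : ℚ) : ℝ) * X.M)).t ω u b| ≤
        Real.exp (σ.μ b * (((i / N : ℚ) : ℝ) * X.M) + r) := fun b x y z => by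
    rw [(h.tr.t x y).1, abs_mul, abs_of_pos (Real.exp_pos _), Real.exp_add]
    exact mul_le_mul_of_nonneg_left z (Real.exp_pos _).le
  refine ⟨⟨fun ω a u b e => (hO ω u).2 (h.ll (sub a) (sub b) (h.up le_rfl e)),
    fun ω a u b => (gf.hz _ _ _).1 (zC ω (sub a) u (sub b) (cc a b)),
    fun ω a => (gf.alg ω (sub a)).unit, fun ω a u b => ⟨(h.tr.t a b).2, fun e =>
      (sc e a b ((loc ω (sub a) u (sub b) (cc a b)).2 e)).trans (ex_le (by linarith))⟩,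
    fun ω a x y e z1 z2 => ?_, fun c hc => h.inc hc, fun c hc => h.ac hc, ?_, fun ω u a => ?_,
    fun ω a => ?_, fun ω a u b e => fC' ω (sub a) u (sub b) (h.up lw.ge e), fun ω a u b e => ?_,
    fun ω u a b => (sc b a.1 a.2.1 ((loc' ω (sub a.1) u (sub a.2.1) a.2.2).2 b)).trans (ex_le ?_),
    ind⟩, fun ω a => h.pp a⟩
  · refine (mul_le_mul_of_nonneg_right (mul_le_mul_of_nonneg_right ((abs_sC _ _ _ _ _ _).trans_le
      (mul_le_mul_of_nonneg_right ((gf.alg ω (sub a)).gr x y e z1 z2) (Real.exp_pos _).le))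
      (Real.exp_pos _).le) (Real.exp_pos _).le).trans ?_
    rw [← Real.exp_add, ← Real.exp_add, ← Real.exp_add, Real.exp_le_one_iff]
    have x0 : (0 : ℝ) ≤ ((i' / N : ℚ) : ℝ) * X.M := by positivity
    have x1 : (0 : ℝ) ≤ (1 - ((i' / N : ℚ) : ℝ)) * X.M := le_trans (by positivity) (h.deep le_rfl)
    have m3 := mul_le_mul_of_nonneg_right (le_max_left σ.g (σ.μ e - σ.μ x - σ.μ y)) x1
    have m4 := mul_le_mul_of_nonneg_right (le_max_right σ.g (σ.μ e - σ.μ x - σ.μ y)) x0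
    have m5 : |(σ.μ e - σ.μ x - σ.μ y) * (((lv (i' / N) - lv (i / N) : ℕ) : ℝ) -
        (((i' / N : ℚ) : ℝ) * X.M - ((i / N : ℚ) : ℝ) * X.M))| ≤ 2 * W * v := by
      rw [abs_mul]
      exact mul_le_mul (abs_le.2 ⟨by linarith [h.w1 x, h.w1 y, ok.m0 e],
        by linarith [h.w1 e, ok.m0 x, ok.m0 y]⟩) h.ww (abs_nonneg _) (by positivity)
    change _ + _ * ((lv (i' / N) - lv (i / N) : ℕ) : ℝ) + _ ≤ _
    linarith [(abs_le.1 m5).2, h.gdeep le_rfl]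
  · have n0 : (N : ℚ) ≠ 0 := by exact_mod_cast N0.ne'
    have n1 : (N : ℝ) ≠ 0 := by exact_mod_cast N0.ne'
    have z := gf.lev i (ii.trans iN) N le_rfl
    rw [div_self n0, sub_div, div_self n1, abs_le] at z
    refine ⟨ex_le ?_, ex_le ?_⟩ <;> push_cast <;> nlinarith
  · have z := gf.tt ω (sub a.1) u (sub a.2.1) (h.o0 (h.up le_rfl a.2.2))
    have e : ((ba X E D).nw σ G (((i / N : ℚ) : ℝ) * X.M)).t ω u σ.τ -
        Real.exp (lg * (((i / N : ℚ) : ℝ) * X.M + lv 1 - X.M - lv (i / N))) * 2 ^ lv (i / N) *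
          (zz u - zz ω) = Real.exp (lg * (((i / N : ℚ) : ℝ) * X.M)) *
          (X.t ω u σ.τ - (X.zt u - X.zt ω)) := by
      rw [(h.tr.t a.1 a.2.1).1, gf.zt, gf.zt, ← Real.exp_log two_pos, ← Real.exp_nat_mul,
        ← Real.exp_add, ← mul_sub, mul_sub (Real.exp _) (X.t ω u σ.τ), ← mul_assoc (Real.exp _),
        ← Real.exp_add]
      simp only [lt]
      congr 3
      unfold lg; ring
    refine (congrArg _ e).trans_le ?_
    rw [abs_mul, abs_of_pos (Real.exp_pos _)]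
    refine (mul_le_mul_of_nonneg_left z (Real.exp_pos _).le).trans ?_
    rw [← Real.exp_add, lt]
    have g3 : 1 / 2 ≤ lg := by unfold lg; linarith [Real.log_two_gt_d9]
    have g4 : 3 * D ≤ lg * ((1 - ((i' / N : ℚ) : ℝ)) * X.M) := by
      nlinarith [mul_le_mul_of_nonneg_right h.k2 d0, h.deep le_rfl]
    change _ ≤ Real.exp (-(w + lg * ((lv (i' / N) - lv (i / N) : ℕ) : ℝ)))
    refine ex_le ?_
    nlinarith [h.wD]
  · refine le_trans ((h.pp a _).trans_le (pb_mono fun u _ e => h.up lw.ge e))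
      ((gf.fa i i' ii iN ω (sub a)).trans ?_)
    change _ ≤ _ * bw _ _ (lv (i / N) + (lv (i' / N) - lv (i / N))) _
    rw [lw]
    exact mul_le_mul_of_nonneg_right (ex_le (div_le_div_of_nonneg_right (by linarith)
      (Nat.cast_nonneg _))) (bw_k _ _ _ _)
  · change fl1 (lv (i / N) + (lv (i' / N) - lv (i / N))) _ = fl1 (lv (i / N) + (lv (i' / N) - _)) _
    rw [lw]
    exact (gf.hz _ _ _).1 (zC' ω (sub a) u (sub b) e)
  · change _ ≤ p - σ.μ b * ((lv (i' / N) - lv (i / N) : ℕ) : ℝ)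
    nlinarith [mul_le_mul_of_nonneg_left ww.2 (ok.m0 b), mul_le_mul_of_nonneg_right (h.w1 b) v0]

end Pool.Agent.MP_5168f5_an.QA.Cp
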