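import Pool.Agent.MP_4b405e_nt.SK.AN
import Pool.Agent.MP_4b405e_nt.SK.AH
import Pool.Agent.MP_4b405e_nt.SK.AR
import Pool.Agent.MP_4b405e_nt.SK.AW2
import Pool.Agent.MP_4b405e_nt.SK.AZ

/-! Sparse heights: the zoomed system with caps and frames exists. -/

namespace Pool.Agent.MP_5168f5_an.QA.Cp

open H19 H17S H17F AN AN.GA AN.N6 Matrix Finset H61Z Filter
open S20 (dn)

theorem spA_of (hH : RowH) (hR : RowR) (hC : RowC) (hW : RowW) (hZ : RowZ) : SpA := by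
  intro ι κ α _ _ _ _ _ σ Y lv zz h mm m0
  classical
  obtain ⟨ρ, c, i, D, t, u, w, β, C, C', E, G₀, l⟩ := lev hH hR hC hW h
  obtain ⟨ϑ, La, D', s₀, vt, Z, G, F, F', U, U', o⟩ := N2.n2 l.lc l.big m0
  obtain ⟨K, hK⟩ := hZ ι κ α σ h.ok h.g0 h.wt h.hg.wt
  obtain ⟨-, cT⟩ := hC ι κ α σ
  have be := h.be0
  have mb := h.mb
  have r0 := l.r0
  have zP : ∀ n, (Z n).P = cE (cE (Y n).P (E n)) (G n) := fun n => congrArg Ba.P (o.ba n)
  have zF : ∀ n, (Z n).F = Real.exp (1 * D n) := fun n => congrArg Ba.F (o.ba n)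
  have mem : ∀ᶠ n in UF, ∀ ω ∈ (Z n).P.S, ω ∈ (Y n).P.S ∧ E n ω ∧ ω ∈ (cE (Y n).P (E n)).S ∧
      G n ω := by
    filter_upwards [l.ev, o.ne] with n a b ω p
    rw [zP] at p
    obtain ⟨p1, p2⟩ := (mem_cE b ω).1 p
    obtain ⟨p3, p4⟩ := (mem_cE (ex_of_pb (l.c0.trans_le a.2.2.2.2.pE)) ω).1 p1
    exact ⟨p3, p4, p1, p2⟩
  have lo : ∀ᶠ n in UF, u n * i n ^ 13 ≤ 2 * ((Z n).M : ℝ) := by
    filter_upwards [l.ev, o.lo] with n a b
    have b' : (D n : ℝ) ≤ i n * (Z n).M := by exact_mod_cast b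
    have i0 : (0 : ℝ) < i n := by linarith [a.1.i2]
    refine le_of_mul_le_mul_left ?_ i0
    nlinarith [a.1.d2]
  have ok : ∀ p : ℝ, 0 < p → ∀ T : ℝ, ∀ᶠ n in UF, ((Y n).zd (Z n) (lv n) (zz n)
      (t n / (i n ^ 12 : ℕ)) ((t n + i n ^ 7 : ℕ) / (i n ^ 12 : ℕ)) (C' n)).Ok σ (σ.kf n)
        (p * (Z n).M) (T * (Z n).M) ∧ ∀ ω ∈ (Z n).P.S, ∀ H : (Y n).Ω → Prop, pb (cv (Z n).P
          (((Y n).zd (Z n) (lv n) (zz n) (t n / (i n ^ 12 : ℕ))
            ((t n + i n ^ 7 : ℕ) / (i n ^ 12 : ℕ)) (C' n)).Q 0) (((Y n).zd (Z n) (lv n) (zz n)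
              (t n / (i n ^ 12 : ℕ)) ((t n + i n ^ 7 : ℕ) / (i n ^ 12 : ℕ)) (C' n)).Q 0 ω)) H =
          pb (cv (Y n).P ((Y n).O (t n / (i n ^ 12 : ℕ))) ((Y n).O (t n / (i n ^ 12 : ℕ)) ω)) H :=
    fun p hp T => by
    filter_upwards [l.ev, o.ne, o.sub, o.fG, o.tG, o.sm p, o.sm (2 * |T|), lo, mem,
      l.lc.big.ev (2 * K), l.big.ev (6 * |K| / p), l.big.ev (|K| / ρ), l.big.ev (2 / p),
      tendsto_atTop.1 h.hg.bk 1] with n a ne sub fG tG s1 s2 lo mem k1 k2 k3 k4 k5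
    obtain ⟨b, -, g, -, v⟩ := a
    have i0 : (0 : ℝ) < i n := by linarith [b.i2]
    have u1 : 1 ≤ u n := by linarith [b.i2, b.u1]
    have M0 : (0 : ℝ) ≤ (Z n).M := Nat.cast_nonneg _
    have lp := mul_le_mul_of_nonneg_left lo hp.le
    refine hK _ _ (Y n) (σ.kf n) (lv n) (zz n) (i n ^ 12) (t n) (t n + i n ^ 7) (D n) (u n) _
      (p * (Z n).M) (T * (Z n).M) (C n) (C' n) (E n) (G n) (G₀ n) (Z n) g
      (Nat.cast_pos (α := ℝ).1 (by push_cast; positivity)) (Nat.le_add_right _ _)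
      (Nat.cast_le (α := ℝ).1 (by push_cast; nlinarith [b.t1, pow_pos i0 12])) (by linarith) k5 ?_
      s1 ?_ ?_ (o.ba n) (o.lO n 0) (ex_of_pb (l.c0.trans_le v.pE)) ne v.fE fG tG v.fo v.fz v.loc
      v.fo' v.fz' v.loc' ?_
    · have e : ((Y n).M : ℝ) / (i n ^ 12 : ℕ) = u n * i n ^ 8 := by
        rw [b.hM]; push_cast; field_simp
      have q1 := b.mul k2 (show 8 < 13 by norm_num)
      have q2 := b.pw (show 0 ≤ 8 by norm_num)
      rw [pow_zero, mul_one] at q2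
      rw [div_mul_eq_mul_div, div_le_iff₀ hp] at q1
      have := mul_le_mul (le_abs_self K) (show u n + u n * i n ^ 8 + 1 ≤ 3 * (u n * i n ^ 8) by
        linarith) (by positivity) (abs_nonneg K)
      rw [e]
      nlinarith
    · have := mul_le_mul_of_nonneg_right (le_abs_self T) M0
      change 2 * |T| * (Z n).M ≤ (D n : ℝ) at s2
      change 2 * K ≤ (D n : ℝ) at k1
      linarith
    · have q1 := b.mul k3 (show 14 < 20 by norm_num)
      rw [div_mul_eq_mul_div, div_le_iff₀ r0, ← b.hM] at q1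
      have q2 := mul_le_mul (le_abs_self K) b.d1 (Nat.cast_nonneg _) (abs_nonneg K)
      have q3 := mul_le_mul_of_nonneg_right (q2.trans q1) (pow_pos i0 12).le
      have q4 := mul_le_mul_of_nonneg_right b.t1 (Nat.cast_nonneg (α := ℝ) (Y n).M)
      push_cast
      nlinarith
    · have q1 := b.mul k4 (show 12 < 13 by norm_num)
      rw [div_mul_eq_mul_div, div_le_iff₀ hp] at q1
      have := v.ind (G n) fG ne fun ω _ => sub ω
      rw [← zP] at this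
      refine (mi_right (fun p x q y _ => tG p (mem p x).2.2.1 q (mem q y).2.2.1 (mem p x).2.2.2
        (mem q y).2.2.2) (fun _ _ _ _ _ => rfl) fun p _ q _ e => (o.lO n 0 p q).2
          (congrArg Prod.fst e)).trans (this.trans (by nlinarith))
  have hw : ∀ᶠ n in UF, u n * i n ^ 15 - u n ≤
      ((lv n ((t n + i n ^ 7 : ℕ) / (i n ^ 12 : ℕ)) - lv n (t n / (i n ^ 12 : ℕ)) : ℕ) : ℝ) := by
    filter_upwards [l.ev] with n a
    obtain ⟨b, -, g, -, v⟩ := a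
    have i0 : (0 : ℝ) < i n := by linarith [b.i2]
    have t1 : t n + i n ^ 7 ≤ i n ^ 12 :=
      Nat.cast_le (α := ℝ).1 (by push_cast; nlinarith [b.t1, pow_pos i0 12])
    have := (abs_le.1 (g.lev _ ((Nat.le_add_right _ _).trans t1) _ t1)).1
    rw [Nat.cast_sub (g.mono _ _ (Nat.le_add_right _ _) t1)]
    have e : (((t n + i n ^ 7 : ℕ) : ℝ) - t n) / (i n ^ 12 : ℕ) * (Y n).M = u n * i n ^ 15 := by
      rw [b.hM]; push_cast; field_simp; ring
    linarith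
  refine ⟨_, _, _, _, fun n => (Y n).zd (Z n) (lv n) (zz n) (t n / (i n ^ 12 : ℕ))
    ((t n + i n ^ 7 : ℕ) / (i n ^ 12 : ℕ)) (C' n), ϑ, La, D', s₀, vt, F, F', U, U', h.g0, h.wt, be,
    h.hg.wt, o.ww, o.fr, o.dm, fun n ω v e => o.fu n ω v ((o.lO n 0 ω v).1 e), ⟨h.hg.bk, ?_⟩,
    fun p hp T => (ok p hp T).mono fun n a => a.1, fun ε hε => ?_, c, l.c0, ?_⟩
  · refine tendsto_atTop.2 fun A => ?_
    filter_upwards [l.ev, lo, l.big.ev (2 * (A + 1))] with n a lo k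
    obtain ⟨b, q, -⟩ := a
    have i0 : (0 : ℝ) < i n := by linarith [b.i2]
    have q1 : (i n : ℝ) ^ 8 ≤ (Y n).M / σ.kf n :=
      le_trans (by exact_mod_cast q) (sU_le σ.kf (sM Y) n)
    have q2 := lt_sU σ.kf (fun n => (Z n).M) n
    have q3 : u n * i n ^ 13 / σ.kf n ≤ 2 * ((Z n).M : ℝ) / σ.kf n :=
      div_le_div_of_nonneg_right lo (Nat.cast_nonneg _)
    have q4 : ((Y n).M : ℝ) / σ.kf n = i n ^ 7 * (u n * i n ^ 13 / σ.kf n) := by rw [b.hM]; ring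
    have q5 : (i n : ℝ) ≤ u n * i n ^ 13 / σ.kf n :=
      le_of_mul_le_mul_left (by rw [← q4, ← pow_succ]; exact q1) (pow_pos i0 7)
    rw [mul_div_assoc 2] at q3
    refine Nat.cast_le (α := ℝ).1 ?_
    change _ ≤ (sU σ.kf (fun n => (Z n).M) n : ℝ)
    have k' : 2 * ((A : ℝ) + 1) ≤ i n := by exact_mod_cast k
    linarith
  · filter_upwards [l.ev, hw, mem, o.tG, l.big.ev (2 / ε),
      l.big.ev (12 * (Fintype.card α * Fintype.card κ) / ε)] with n a hw mem tG k1 k2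
    obtain ⟨b, -, -, al, -⟩ := a
    have q0 := b.mul b.i2 (show 0 < 15 by norm_num)
    have q1 := b.mul k1 (show 14 < 15 by norm_num)
    have q2 := b.mul k2 (show 14 < 15 by norm_num)
    have q3 := b.pw (show 0 ≤ 14 by norm_num)
    rw [pow_zero, mul_one] at q0 q3
    rw [div_mul_eq_mul_div, div_le_iff₀ hε] at q1 q2
    have q4 := mul_le_mul_of_nonneg_left hw hε.le
    have q5 := mul_le_mul_of_nonneg_left q0 hε.le
    obtain ⟨T, t1, t2⟩ := cT (D n) (w n) b.w0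
    refine ⟨(zF n).trans_le (Real.exp_le_exp.2 ?_), ?_⟩
    · change _ ≤ ε * ((_ : ℕ) : ℝ)
      simp only [Pd.zd]
      linarith [b.d1]
    by_cases z : Nonempty (Y n).Ω
    swap
    · exact absurd (Sc.ne_om (fun n => (Y n).P) n) z
    refine ⟨T.image fun y => (Z n).O true 0 (Classical.epsilon fun ω => ω ∈ (Z n).P.S ∧
      rd (Real.exp (-(3 * D n))) ((Y n).A ω) = y), (Nat.cast_le.2 card_image_le).trans
        (t1.trans (Real.exp_le_exp.2 ?_)), fun ω p => mem_image.2 ⟨_, t2 _ (al ω (mem ω p).1).bA, ?_⟩⟩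
    · have := mul_le_mul_of_nonneg_left (show 3 * (D n : ℝ) + w n + 2 ≤ 6 * (u n * i n ^ 14) by
        linarith [b.d1, b.wu, b.u1, b.i2])
        (show (0 : ℝ) ≤ Fintype.card α * Fintype.card κ by positivity)
      simp only [Pd.zd]
      linarith
    · obtain ⟨x1, x2⟩ := Classical.epsilon_spec (p := fun v => v ∈ (Z n).P.S ∧
        rd (Real.exp (-(3 * D n))) ((Y n).A v) = rd (Real.exp (-(3 * D n))) ((Y n).A ω)) ⟨ω, p, rfl⟩
      exact (o.lO n 0 _ _).2 (Prod.ext (tG _ (mem _ x1).2.2.1 ω (mem ω p).2.2.1 (mem _ x1).2.2.2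
        (mem ω p).2.2.2) x2)
  · filter_upwards [l.ev, hw, mem, o.tG, o.ne, ok 1 one_pos 0, l.big.ev (8 * σ.m / σ.be)]
      with n a hw mem tG ne ok k
    obtain ⟨b, -, -, -, v⟩ := a
    obtain ⟨ω₀, p0, g0⟩ := ne
    obtain ⟨T, t1, t2⟩ := S20.few_dn (Y n).P (C' n) (C n) (Real.exp_pos
      (-((σ.m - 5 * σ.be / 8) * (u n * i n ^ 15)))) ω₀ (cE_sub p0)
    refine ⟨T, t1.trans ?_, fun ω p => ?_⟩
    · rw [← Real.exp_neg, neg_neg]
      have q1 := b.mul k (show 0 < 15 by norm_num)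
      rw [pow_zero, mul_one, div_mul_eq_mul_div, div_le_iff₀ be] at q1
      have q2 := mul_le_mul_of_nonneg_left hw (show 0 ≤ σ.m - σ.be / 2 by linarith)
      simp only [Pd.zd]
      refine Real.exp_le_exp.2 (le_trans ?_ q2)
      nlinarith [mul_nonneg be.le (show 0 ≤ u n by linarith [b.i2, b.u1])]
    · refine (v.cnt ω (mem ω p).2.1).trans (le_of_le_of_eq (pb_mono fun x y z => ?_)
        (ok.2 ω p _).symm)
      obtain ⟨y1, y2⟩ := (S20.mem_cv (mem ω p).1 x).1 y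
      exact t2 x y1 ((v.fo x y1 ω (mem ω p).1 y2).trans
        (tG ω (mem ω p).2.2.1 ω₀ p0 (mem ω p).2.2.2 g0)) z

theorem spA : SpA := spA_of rowH rowR rowC rowW rowZ

end Pool.Agent.MP_5168f5_an.QA.Cp
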