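import Pool.Agent.MP_5168f5_an.AN.S20Dn

/-! Sparse heights: information carried by the atoms of a label. -/

namespace Pool.Agent.MP_5168f5_an.QA.Cp.N1

open H19 H17S H17F AN Finset
open S20 (dn mem_cv)

variable {Ω α β γ δ : Type} {P Q : FP Ω} {Y : Ω → α} {l : Ω → β} {T : Ω → γ} {G : Ω → Prop}
  {ω : Ω} {b : ℝ}

theorem gibbs2 (h : ∀ v ∈ Q.S, v ∈ P.S) (Y : Ω → α) :
    hh Q Y ≤ Q.E fun v => -Real.log (pb P fun x => Y x = Y v) := by
  classical
  refine Q.gibbs _ _ (fun v hv => S20.pb_val (h v hv) Y) ?_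
  have e : Q.E (fun v => (pb P fun x => Y x = Y v) / Q.pr (Setoid.ker Y) v) =
      P.E fun x => Q.E fun v => if Y x = Y v then 1 / Q.pr (Setoid.ker Y) v else 0 := by
    simp only [pb, FP.E, Finset.mul_sum, Finset.sum_div]
    rw [Finset.sum_comm]
    exact Finset.sum_congr rfl fun x _ => Finset.sum_congr rfl fun v _ => by
      split_ifs <;> ring
  rw [e]
  refine (P.E_mono fun x _ => ?_).trans_eq (P.E_const 1)
  convert Q.class_sum (Setoid.ker Y) (fun v => Y x = Y v) fun a _ c _ p q => p.symm.trans q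

theorem ch_gibbs (h : ∀ v ∈ Q.S, v ∈ P.S) (Y : Ω → α) (T : Ω → γ) :
    ch Q Y T ≤ Q.E fun v => -Real.log (dn P Y T v) := by
  rw [KEA.ent1 Q T fun _ => Y, KEA.exp Q T fun _ v => -Real.log (dn P Y T v)]
  refine Q.E_mono fun ω hω => (gibbs2 (P := cv P T (T ω)) (fun v hv => ?_) Y).trans_eq
    (FP.E_congr _ fun v hv => ?_)
  · exact (mem_cv (h ω hω) v).2 ⟨h v ((mem_cv hω v).1 hv).1, ((mem_cv hω v).1 hv).2⟩
  · rw [dn, ((mem_cv hω v).1 hv).2]

theorem cv_res (f : Fn P G l) (h : ω ∈ P.S) (g : G ω) : cv (cE P G) l (l ω) = cv P l (l ω) := by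
  unfold cv
  rw [cE_cE (E := G) (E' := fun v => l v = l ω) ⟨ω, h, g, rfl⟩]
  exact cE_congr fun v hv => ⟨fun k => k.2, fun k => ⟨(f v hv ω h k).symm ▸ g, k⟩⟩

/-- The information that the atom of `l` carries on `Y` beyond `T`. -/
noncomputable def kl (P : FP Ω) (Y : Ω → α) (l : Ω → β) (T : Ω → γ) (ω : Ω) : ℝ :=
  (cv P l (l ω)).E fun v => Real.log (dn P Y l v) - Real.log (dn P Y T v)

theorem kl_fn (P : FP Ω) (Y : Ω → α) (l : Ω → β) (T : Ω → γ) : Fn P (kl P Y l T) l :=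
  fun a _ c _ e => by simp only [kl, e]

theorem E_kl (P : FP Ω) (Y : Ω → α) (l : Ω → β) (T : Ω → γ) :
    P.E (kl P Y l T) = ch P Y T - ch P Y l := by
  rw [S20.ch_dn, S20.ch_dn, ← FP.E_sub]
  refine (KEA.exp P l fun _ v => Real.log (dn P Y l v) - Real.log (dn P Y T v)).symm.trans
    (P.E_congr fun _ _ => by ring)

theorem res_le (f : Fn P G l) (ne : ∃ ω ∈ P.S, G ω) (Y : Ω → α) (T : Ω → γ) :
    ch (cE P G) Y T - ch (cE P G) Y l ≤ (cE P G).E (kl P Y l T) := by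
  have m := mem_cE ne
  have h1 := ch_gibbs (P := P) (Q := cE P G) (fun _ => cE_sub) Y T
  have h2 : ch (cE P G) Y l = (cE P G).E fun v => -Real.log (dn P Y l v) := by
    rw [S20.ch_dn]
    exact FP.E_congr _ fun v hv => by rw [dn, dn, cv_res f ((m v).1 hv).1 ((m v).1 hv).2]
  have h3 := KEA.exp (cE P G) l fun _ v => Real.log (dn P Y l v) - Real.log (dn P Y T v)
  replace h3 := h3.trans (FP.E_congr _ (G := kl P Y l T) fun v hv => by
    rw [kl, cv_res f ((m v).1 hv).1 ((m v).1 hv).2])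
  rw [FP.E_sub] at h3
  rw [FP.E_neg] at h1 h2
  linarith

theorem kl_nonneg (f : Fn P T l) (h : ω ∈ P.S) (Y : Ω → α) : 0 ≤ kl P Y l T ω := by
  have h1 := res_le (P := P) (G := fun v => l v = l ω) (l := l) (fun a _ c _ e => by simp only [e])
    ⟨ω, h, rfl⟩ Y T
  have h2 : ch (cv P l (l ω)) Y l ≤ ch (cv P l (l ω)) Y T :=
    ch_anti fun a p c q => f a (cE_sub p) c (cE_sub q)
  have h3 : (cv P l (l ω)).E (kl P Y l T) = kl P Y l T ω :=
    (FP.E_congr _ fun v hv => kl_fn P Y l T v (cE_sub hv) ω h ((mem_cv h v).1 hv).2).trans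
      (FP.E_const _ _)
  unfold cv at h2 h3
  linarith

/-- The information stays small after any restriction that is read from the label. -/
theorem kl_res (fT : Fn P T l) (f : Fn P G l) (ne : ∃ ω ∈ P.S, G ω)
    (h : ∀ ω ∈ P.S, G ω → kl P Y l T ω ≤ b) : mi (cE P G) Y l T ≤ b := by
  have m := mem_cE ne
  have h2 := res_le f ne Y T
  have h3 := ((cE P G).E_mono fun v hv => h v ((m v).1 hv).1 ((m v).1 hv).2).trans_eq
    (FP.E_const _ b)
  have h4 : ch (cE P G) Y l ≤ ch (cE P G) Y fun v => (l v, T v) :=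
    ch_anti ((Fn.rfl l).pair fun a p c q => fT a (cE_sub p) c (cE_sub q))
  unfold mi
  linarith

theorem mi_res (P : FP Ω) (G : Ω → Prop) (Y : Ω → α) (l : Ω → β) (T : Ω → γ) :
    pb P G * mi (cE P G) Y l T ≤ mi P Y l T + lg := by
  have h1 := KEA.ge P G Y T
  have h2 := KEA.le P G Y fun ω => (l ω, T ω)
  have h3 := mul_nonneg (sub_nonneg.2 (pb_le_one P G))
    (mi_nonneg (P := cE P fun ω => ¬G ω) Y l T)
  unfold mi at h3 ⊢
  linarith

theorem fn_le {T : ℕ → Ω → γ} {m k k' : ℕ} (h : ∀ k < m, Fn P (T k) (T (k + 1))) (e : k ≤ k')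
    (e' : k' ≤ m) : Fn P (T k) (T k') := by
  induction k', e using Nat.le_induction with
  | base => exact Fn.rfl _
  | succ j _ ih => exact (ih (Nat.le_of_succ_le e')).trans (h j e')

theorem sum_ch {T : ℕ → Ω → γ} {m n : ℕ} (h : ∀ k < m, Fn P (T k) (T (k + 1))) (e : n ≤ m) :
    ∑ k ∈ range n, ch P (T (k + 1)) (T k) ≤ ch P (T m) (T 0) := by
  have c : ∀ k k', k ≤ k' → k' ≤ m → ch P (T k') (T k) = hh P (T k') - hh P (T k) :=
    fun k k' a b => by rw [ch, hh_congr ((Fn.rfl _).pair (fn_le h a b)) (Fn.fst _ _)]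
  rw [sum_congr rfl fun k a => c k (k + 1) k.le_succ (by have := mem_range.1 a; omega),
    sum_range_sub fun k => hh P (T k), c 0 m m.zero_le le_rfl]
  exact sub_le_sub_right (hh_mono (fn_le h e le_rfl)) _

theorem sum_mi {T : ℕ → Ω → γ} (B : Ω → β) {m n K : ℕ} (h : ∀ k < m, Fn P (T k) (T (k + 1)))
    (e : n + K ≤ m + 1) :
    ∑ k ∈ range n, mi P (T (k + K)) B (T k) ≤ K * ch P B (T 0) := by
  have c : ∀ k ∈ range n, mi P (T (k + K)) B (T k) = ch P B (T k) - ch P B (T (K + k)) :=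
    fun k a => by
      have f := fn_le h (Nat.le_add_right k K) (by have := mem_range.1 a; omega)
      rw [mi_symm, mi, add_comm K, ch_congr (Fn.fst _ _) (Fn.fst _ _) ((Fn.rfl _).pair f)
        (Fn.fst _ _)]
  have h1 := sum_range_add (fun k => ch P B (T k)) n K
  rw [add_comm n, sum_range_add] at h1
  have h2 : 0 ≤ ∑ k ∈ range K, ch P B (T (n + k)) := sum_nonneg fun _ _ => ch_nonneg _ _
  have h3 := sum_le_card_nsmul (range K) (fun k => ch P B (T k)) _ fun k a =>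
    ch_anti (F := B) (fn_le h k.zero_le (by have := mem_range.1 a; omega))
  rw [card_range, nsmul_eq_mul] at h3
  rw [sum_congr rfl c, sum_sub_distrib]
  linarith

theorem ex_level {T : ℕ → Ω → γ} (B : Ω → β) {m n K : ℕ} {a H c : ℝ}
    (h : ∀ k < m, Fn P (T k) (T (k + 1))) (K1 : 1 ≤ K) (e : n + K ≤ m + 1) (n0 : 0 < n)
    (a0 : 0 < a) (H0 : 0 < H) (c0 : 0 < c) (ha : ch P (T m) (T 0) ≤ n * a)
    (hB : K * ch P B (T 0) ≤ n * H) : ∃ k < n, ch P (T (k + 1)) (T k) ≤ (1 + c) * a ∧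
      c * mi P (T (k + K)) B (T k) ≤ (1 + c) * H := by
  have h1 := (sum_ch h (show n ≤ m by omega)).trans ha
  have h2 := (sum_mi B h e).trans hB
  obtain ⟨k, k1, k2⟩ := exists_le_of_sum_le (s := range n) ⟨0, mem_range.2 n0⟩
    (f := fun k => H * ch P (T (k + 1)) (T k) + a * (c * mi P (T (k + K)) B (T k)))
    (g := fun _ => (1 + c) * a * H) (by
      rw [sum_add_distrib, ← mul_sum, ← mul_sum, ← mul_sum, sum_const, card_range, nsmul_eq_mul]
      nlinarith [mul_le_mul_of_nonneg_left h1 H0.le,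
        mul_le_mul_of_nonneg_left h2 (mul_pos a0 c0).le])
  have p1 := mul_nonneg H0.le (ch_nonneg (P := P) (T (k + 1)) (T k))
  have p2 := mul_nonneg a0.le (mul_nonneg c0.le (mi_nonneg (P := P) (T (k + K)) B (T k)))
  exact ⟨k, mem_range.1 k1, le_of_mul_le_mul_left (by linarith) H0,
    le_of_mul_le_mul_left (by linarith) a0⟩

/-- An event is often likely in its context. -/
theorem top_ev (P : FP Ω) (O : Ω → δ) (G : Ω → Prop) {c : ℝ} (c0 : 0 ≤ c) :
    pb P G - c ≤ pb P fun ω => c ≤ pb (cv P O (O ω)) G := by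
  rw [S20.pb_tot P O fun _ => G, G39.pb_ind P fun ω => c ≤ _, sub_le_iff_le_add,
    ← P.E_const c, ← FP.E_add, P.E_const c]
  refine P.E_mono fun ω _ => ?_
  by_cases k : c ≤ pb (cv P O (O ω)) G
  · rw [G39.ind_pos k]; linarith [pb_le_one (cv P O (O ω)) G]
  · rw [G39.ind_neg k]; linarith

theorem likely (P : FP Ω) (Y : Ω → α) (T : Ω → γ) {a c : ℝ} (a0 : 0 < a)
    (h : ch P Y T ≤ (1 - c) * a) : c ≤ pb P fun v => Real.exp (-a) ≤ dn P Y T v := by
  have h1 := S20.le_ch P Y T (Real.exp (-a))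
  rw [Real.log_exp, neg_neg] at h1
  have h2 := pb_not P fun v => Real.exp (-a) ≤ dn P Y T v
  have h3 := pb_mono (P := P) (E := fun v => ¬Real.exp (-a) ≤ dn P Y T v)
    (F := fun v => dn P Y T v ≤ Real.exp (-a)) fun v _ k => (not_le.1 k).le
  have := le_of_mul_le_mul_left (h1.trans (h.trans_eq (mul_comm _ _))) a0
  linarith

theorem kl_ev (f : Fn P T l) (Y : Ω → α) {i : ℝ} (b0 : 0 < b) (h : i * mi P Y l T ≤ b) (i0 : 0 < i) :
    pb P (fun ω => ¬kl P Y l T ω ≤ b) ≤ 1 / i := by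
  have h1 := G39.markov P (fun ω k => kl_nonneg f k Y) b
  have h2 : ch P Y (fun v => (l v, T v)) ≤ ch P Y l := ch_anti (Fn.fst _ _)
  have h3 := pb_mono (P := P) (E := fun ω => ¬kl P Y l T ω ≤ b)
    (F := fun ω => b ≤ kl P Y l T ω) fun v _ k => (not_le.1 k).le
  rw [E_kl] at h1
  unfold mi at h
  refine h3.trans ((le_div_iff₀ i0).2 (le_of_mul_le_mul_left ?_ b0))
  nlinarith [mul_le_mul_of_nonneg_left h1 i0.le, mul_le_mul_of_nonneg_left h2 i0.le]

/-- The choice of the level, the likely top event and the good event of the label. -/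
theorem level (P : FP Ω) (T : ℕ → Ω → γ) (O : ℕ → Ω → δ) (B : Ω → β) {m n K : ℕ}
    {a a' H c i : ℝ} (h : ∀ k < m, Fn P (T k) (T (k + 1))) (K1 : 1 ≤ K) (e : n + K ≤ m + 1)
    (n0 : 0 < n) (a0 : 0 < a) (H0 : 0 < H) (c0 : 0 < c) (i0 : 0 < i)
    (ha : ch P (T m) (T 0) ≤ n * a) (hB : K * ch P B (T 0) ≤ n * H)
    (ha' : (1 + c) * a ≤ (1 - 2 * c) * a') (a1 : 0 < a') :
    ∃ k < n, ∃ E G₀ : Ω → Prop, Fn P E (O k) ∧ c ≤ pb P E ∧
      (∀ ω, E ω → c ≤ pb (cv P (O k) (O k ω)) fun v =>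
        Real.exp (-a') ≤ dn P (T (k + 1)) (T k) v) ∧
      (∀ ω v, T k ω = T k v → B ω = B v → G₀ ω → G₀ v) ∧
      pb (cE P E) (fun ω => ¬G₀ ω) ≤ 1 / i ∧
      ∀ G : Ω → Prop, Fn (cE P E) G (fun ω => (T k ω, B ω)) → (∃ ω ∈ (cE P E).S, G ω) →
        (∀ ω ∈ (cE P E).S, G ω → G₀ ω) →
        mi (cE (cE P E) G) (T (k + K)) (fun ω => (T k ω, B ω)) (T k) ≤
          i * (((1 + c) / c * H + lg) / c) := by
  obtain ⟨k, k1, k2, k3⟩ := ex_level B h K1 e n0 a0 H0 c0 ha hB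
  have h1 := likely P (T (k + 1)) (T k) a1 (k2.trans ha')
  have h2 := top_ev P (O k) (fun v => Real.exp (-a') ≤ dn P (T (k + 1)) (T k) v) c0.le
  set E : Ω → Prop := fun ω => c ≤ pb (cv P (O k) (O k ω)) fun v =>
    Real.exp (-a') ≤ dn P (T (k + 1)) (T k) v
  have h3 : c ≤ pb P E := by linarith
  have h4 := mi_res P E (T (k + K)) B (T k)
  have h5 : mi (cE P E) (T (k + K)) (fun ω => (T k ω, B ω)) (T k) ≤
      ((1 + c) / c * H + lg) / c := by
    refine (mi_mono ((Fn.snd _ _).pair (Fn.fst _ _))).trans ((le_div_iff₀' c0).2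
      ((mul_le_mul_of_nonneg_right h3 (mi_nonneg _ _ _)).trans (h4.trans (add_le_add_left ?_ _))))
    rw [div_mul_eq_mul_div, le_div_iff₀' c0]
    exact k3
  have l0 : 0 < lg := Real.log_pos one_lt_two
  refine ⟨k, k1, E, fun ω => kl (cE P E) (T (k + K)) (fun ω => (T k ω, B ω)) (T k) ω ≤
    i * (((1 + c) / c * H + lg) / c), fun p _ q _ z => by simp only [E, z], h3, fun _ z => z,
    fun p q z z' g => by simpa only [kl, z, z'] using g, kl_ev (Fn.fst _ _) _ (by positivity)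
      (mul_le_mul_of_nonneg_left h5 i0.le) i0, fun G f ne g => kl_res (Fn.fst _ _) f ne g⟩

end Pool.Agent.MP_5168f5_an.QA.Cp.N1
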