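import Pool.Agent.MP_4b405e_nt.SK.AT
import Pool.Agent.MP_4b405e_nt.SK.N1K

/-! Sparse heights: the choice of the level on one space. -/

namespace Pool.Agent.MP_5168f5_an.QA.Cp

open H19 H17S H17F AN AN.GA AN.N6 Matrix Finset H61Z Filter
open S20 (dn)

variable {ι κ α : Type} [Fintype ι] [DecidableEq ι] [Fintype κ] [DecidableEq κ] [Fintype α]

/-- The level `i / N`, the deep level `i' / N`, their cells, the likely event `E` and the good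
event `G` of the label. -/
structure Pd.Lv (σ : Cs ι κ α) (X : Pd ι κ α) {β : Type} (N i i' D : ℕ) (u c a θ e : ℝ)
    (C C' : X.Ω → β) (E G : X.Ω → Prop) : Prop where
  fo : Fn X.P C (X.O (i / N))
  fT : Fn X.P X.T C
  fz : Fn X.P (X.z (i / N)) C
  loc : X.Loc σ C (i / N) u
  cs : ch X.P C X.S ≤ e
  fo' : Fn X.P C' (X.O (i' / N))
  fz' : Fn X.P (X.z (i' / N)) C'
  loc' : X.Loc σ C' (i' / N) u
  fE : Fn X.P E (X.O (i / N))
  pE : c ≤ pb X.P E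
  cnt : ∀ ω, E ω → c ≤ pb (cv X.P (X.O (i / N)) (X.O (i / N) ω)) fun v =>
    Real.exp (-a) ≤ dn X.P C' C v
  fG : ∀ ω v, C ω = C v →
    rd (Real.exp (-(3 * D))) (X.A ω) = rd (Real.exp (-(3 * D))) (X.A v) → G ω → G v
  pG : pb (cE X.P E) (fun ω => ¬G ω) ≤ θ
  ind : ∀ G' : X.Ω → Prop,
    Fn (cE X.P E) G' (fun ω => (C ω, rd (Real.exp (-(3 * D))) (X.A ω))) →
    (∃ ω ∈ (cE X.P E).S, G' ω) → (∀ ω ∈ (cE X.P E).S, G' ω → G ω) →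
    mi (cE (cE X.P E) G') C' (fun ω => (C ω, rd (Real.exp (-(3 * D))) (X.A ω))) C ≤ e

theorem ch_top {Ω A B C D E : Type} {P : FP Ω} {l : Ω → A} {z : Ω → B} {K : Ω → C} {S : Ω → D}
    {T : Ω → E} {z₀ : Ω → B} (h : Fn P K fun ω => (l ω, z ω)) (h0 : Fn P z₀ T) :
    ch P K T ≤ ch P K S + mi P l S T + ch P z fun ω => (l ω, z₀ ω) := by
  have a1 : ch P K (fun ω => (S ω, T ω)) ≤ ch P K S := ch_anti (Fn.fst _ _)
  have a2 : mi P K S T ≤ mi P (fun ω => (l ω, z ω)) S T := mi_mono' (h.left _)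
  rw [mi_symm (fun ω => (l ω, z ω)), mi_chain, mi_symm S l, mi_symm S z] at a2
  have a3 := mi_le (P := P) z S fun ω => (l ω, T ω)
  have a4 : ch P z (fun ω => (l ω, T ω)) ≤ ch P z fun ω => (l ω, z₀ ω) :=
    ch_anti ((Fn.fst _ _).pair (h0.trans (Fn.snd _ _)))
  unfold mi at a2 a3 ⊢
  linarith

theorem lev_one (σ : Cs ι κ α) (g0 : 0 < σ.g) (wt : ∀ b, σ.μ b = 0 ∨ σ.g ≤ σ.μ b)
    (et : ∀ i, 0 < σ.η i) : ∃ f, PG f ∧ ∀ (X : Pd ι κ α) (q : ℕ) (lv : ℚ → ℕ) (zz : X.Ω → ℝ)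
    (N m s D : ℕ) (v L u h a a' H c I e : ℝ) (T : Finset (α → κ → ℝ)), X.Gf σ q lv zz N v → 0 < N →
    (m + 1) * s ≤ N → 0 < m → 0 ≤ v → Fintype.card κ ^ 2 * Real.exp v ≤ L → f L ≤ Real.exp u →
    27 * Fintype.card κ ^ 4 + 1 +
      Real.log ((Fintype.card κ).factorial * Fintype.card κ ^ Fintype.card κ) ≤ u →
    ch X.P (X.z 1) (X.O 0) ≤ h → 0 < a → 0 < a' → 0 < H → 0 < c → 0 < I →
    (2 * m + 3) * u + ((σ.m - σ.be) * X.M + v) + h ≤ m * a → (T.card : ℝ) ≤ Real.exp (m * H) →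
    (∀ A : α → κ → ℝ, (∀ i b, |A i b| ≤ Real.exp v) → rd (Real.exp (-(3 * D))) A ∈ T) →
    (1 + c) * a ≤ (1 - 2 * c) * a' → (2 * m + 3) * u ≤ e → I * (((1 + c) / c * H + lg) / c) ≤ e →
    ∃ (y : (ℕ × (X.Ω → Ce ι κ (X.Λ' × X.Z)) × (X.Ω → Ce ι κ (X.Λ' × X.Z))) ×
      (X.Ω → Prop) × (X.Ω → Prop)), y.1.1 + s ≤ (m + 1) * s ∧
      X.Lv σ N y.1.1 (y.1.1 + s) D u c a' (1 / I) e y.1.2.1 y.1.2.2 y.2.1 y.2.2 := by
  obtain ⟨f, pf, hf⟩ := pos_cells σ g0 wt et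
  refine ⟨f, pf, fun X q lv zz N m s D v L u h a a' H c I e T gr N0 ms m0 v0 Ld fL cu hz a0 a1 H0 c0
    I0 n1 n2 n3 n4 n5 n6 => ?_⟩
  obtain ⟨C, c1, c2, c3, c4⟩ := hf X q lv zz N (m + 1) s v L u gr N0 ms v0 Ld fL cu
  have e1 : (2 * ((m + 1 : ℕ) : ℝ) + 1) * u = (2 * m + 3) * u := by push_cast; ring
  rw [e1] at c3
  have z1 : Fn X.P (X.O (((m + 1) * s : ℕ) / N)) fun ω => (X.l ω, X.z 1 ω) := by
    have := gr.oo ms le_rfl
    rwa [div_self (by exact_mod_cast N0.ne')] at this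
  have b1 : ch X.P (C (m + 1)) (C (0 + 1)) ≤ m * a :=
    (ch_anti (c3 1 (by omega)).2.1).trans ((ch_top (S := X.S) ((c3 _ le_rfl).1.trans z1) gr.zT).trans
      ((add_le_add (add_le_add (c3 _ le_rfl).2.2.2 gr.top) hz).trans n1))
  have b2 : ((1 : ℕ) : ℝ) * ch X.P (fun ω => rd (Real.exp (-(3 * D))) (X.A ω)) (C (0 + 1)) ≤
      m * H := by
    rw [Nat.cast_one, one_mul, ← Real.log_exp (m * H)]
    exact ch_det fun _ _ => ⟨T, n2, fun b hb _ => n3 _ (gr.alg b hb).bA⟩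
  obtain ⟨k, k1, E, G, l1, l2, l3, l4, l5, l6⟩ := N1.level X.P (fun k => C (k + 1))
    (fun k => X.O (((k + 1) * s : ℕ) / N)) (fun ω => rd (Real.exp (-(3 * D))) (X.A ω)) (m := m)
    (fun k b => c2 _ (by omega)) le_rfl le_rfl m0 a0 H0 c0 I0 b1 b2 n4 a1
  have e2 : (k + 1) * s + s = (k + 1 + 1) * s := by ring
  have p := c3 (k + 1) (by omega)
  have p' := c3 (k + 1 + 1) (by omega)
  refine ⟨(((k + 1) * s, C (k + 1), C (k + 1 + 1)), E, G), ?_, p.1, p.2.1, p.2.2.1,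
    c4 _ (by omega) (by omega), p.2.2.2.trans n5, e2 ▸ p'.1, e2 ▸ p'.2.2.1,
    e2 ▸ c4 _ (by omega) (by omega), l1, l2, l3, l4, l5, fun G' x y z => (l6 G' x y z).trans n6⟩
  exact e2.trans_le (Nat.mul_le_mul_right _ (by omega))

end Pool.Agent.MP_5168f5_an.QA.Cp
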