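import Pool.Agent.MP_4b405e_nt.SK.SpA

/-! Sparse heights: cheap labels in the small unit. Statement. -/

namespace Pool.Agent.MP_5168f5_an.QA.Cp

open H19 H17S H17F R4 AN Filter Matrix
open S20 (dn)

/-- A cheap label does not carry a deep cap, in the small unit and on a likely event. -/
def RowW : Prop := ∀ (ι κ α : Type) [Fintype ι] [DecidableEq ι] [Fintype κ] [DecidableEq κ]
  [Fintype α] (σ : Cs ι κ α) (Y : ℕ → Pd ι κ α), Pre0 σ Y → ∀ L : ℕ → ℝ,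
  Sub (sM Y) (fun n => L n + 1) → ∀ xb : ℚ, 0 ≤ xb → xb < 1 → ∃ io : ℕ → ℕ, Big io ∧
  ∀ (β : ℕ → Type) (E G : ∀ n, (Y n).Ω → Prop) (D : ℕ → ℕ) (x : ℕ → ℚ)
    (C : ∀ n, (Y n).Ω → β n) (c : ℝ), 0 < c → Big D → Sm D (fun n => ch (Y n).P (C n) (Y n).S) →
    (∀ᶠ n in UF, (Y n).M ≤ io n * D n ∧ D n ≤ (Y n).M ∧ c ≤ pb (Y n).P (E n) ∧
      Fn (Y n).P (E n) ((Y n).O xb) ∧ Fn (Y n).P (C n) ((Y n).O xb) ∧ Fn (Y n).P (Y n).T (C n) ∧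
      ∀ ω ∈ (Y n).P.S, ((Y n).da σ (Real.exp (1 * (Y n).M)) (L n + 1) ω).Good (S0 κ) ∧
        ∀ S, (((Y n).ld (E n) (G n) (L n) (D n) (x n) (C n)).da σ ω).Good S →
          ((Y n).da σ (Real.exp (1 * (Y n).M)) (L n + 1) ω).Good S) →
    ∀ r : ℝ, 0 < r → ∃ δ : ℝ, 0 < δ ∧ ∀ (β' : ℕ → Type) (K : ∀ n, (Y n).Ω → β' n)
      (Ps : ∀ n, (Y n).Ω → Set (κ → ℝ)),
      FnE (fun n => cE (Y n).P (E n)) K
        (fun n => ((Y n).ld (E n) (G n) (L n) (D n) (x n) (C n)).l) →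
      FnE (fun n => cE (Y n).P (E n)) C K → FnE (fun n => cE (Y n).P (E n)) Ps K →
      (∀ᶠ n in UF, ∀ ω ∈ (cE (Y n).P (E n)).S,
        (((Y n).ld (E n) (G n) (L n) (D n) (x n) (C n)).da σ ω).Good (Ps n ω)) →
      Whp (fun n => cE (Y n).P (E n)) fun n ω => Real.log (vl σ.μ (Ps n ω)) ≤ r * D n ∨
        δ * D n ≤ -Real.log (dn (cE (Y n).P (E n)) (K n) (C n) ω)

end Pool.Agent.MP_5168f5_an.QA.Cp
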