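import Pool.Agent.MP_4b405e_nt.SK.AL
import Pool.Agent.MP_4b405e_nt.SK.SpA2

/-! Sparse heights: the slow parameters and the input of the chain of caps. -/

namespace Pool.Agent.MP_5168f5_an.QA.Cp

open H19 H17S H17F AN AN.GA AN.N6 Matrix Finset H61Z Filter
open S20 (dn)

variable {ι κ α : Type} [Fintype ι] [DecidableEq ι] [Fintype κ] [DecidableEq κ] [Fintype α]
  {σ : Cs ι κ α} {Y : ℕ → Pd ι κ α} {lv : ℕ → ℚ → ℕ} {zz : ∀ n, (Y n).Ω → ℝ}

/-- The relations between the numbers on one space. -/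
structure Nb (ρ : ℝ) (M i D t : ℕ) (u w : ℝ) : Prop where
  i2 : (2 : ℝ) ≤ i
  hM : (M : ℝ) = u * i ^ 20
  hu : (i : ℝ) ^ 10 ≤ u
  w0 : 0 ≤ w
  wu : w ≤ u
  d1 : (D : ℝ) ≤ u * i ^ 14
  d2 : u * i ^ 14 ≤ 2 * (D : ℝ)
  t1 : (t + i ^ 7 : ℝ) ≤ (1 - ρ) * i ^ 12

/-- The output of the choice of the level. -/
structure Lev (σ : Cs ι κ α) (Y : ℕ → Pd ι κ α) (lv : ℕ → ℚ → ℕ) (zz : ∀ n, (Y n).Ω → ℝ)
    (ρ c : ℝ) (i D t : ℕ → ℕ) (u w : ℕ → ℝ) {β : ℕ → Type} (C C' : ∀ n, (Y n).Ω → β n)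
    (E G : ∀ n, (Y n).Ω → Prop) : Prop where
  r0 : 0 < ρ
  c0 : 0 < c
  big : Big i
  ev : ∀ᶠ n in UF, Nb ρ (Y n).M (i n) (D n) (t n) (u n) (w n) ∧
    i n ^ 8 ≤ sU σ.kf (sM Y) n ∧ (Y n).Gf σ (σ.kf n) (lv n) (zz n) (i n ^ 12) (u n) ∧
    (∀ ω ∈ (Y n).P.S, (Y n).Alg σ (w n) ω) ∧
    (Y n).Lv σ (i n ^ 12) (t n) (t n + i n ^ 7) (D n) (u n) c
      ((σ.m - 5 * σ.be / 8) * (u n * i n ^ 15)) (1 / i n) (u n * i n ^ 12) (C n) (C' n) (E n) (G n)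
  lc : N2.LC σ 1 fun n => (Y n).ld (E n) (G n) (2 * Fintype.card κ ^ 2 * Real.exp (w n)) (D n)
    (t n / (i n ^ 12 : ℕ)) (C n)

theorem Nb.pw {ρ u w : ℝ} {M i D t : ℕ} (h : Nb ρ M i D t u w) {a b : ℕ} (e : a ≤ b) :
    u * i ^ a ≤ u * i ^ b := mul_le_mul_of_nonneg_left (pow_le_pow_right₀ (by linarith [h.i2]) e)
      (le_trans (by positivity) h.hu)

theorem Nb.u1 {ρ u w : ℝ} {M i D t : ℕ} (h : Nb ρ M i D t u w) : (i : ℝ) ≤ u :=
  (le_self_pow₀ (by linarith [h.i2]) (by norm_num)).trans h.hu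

theorem Nb.mul {ρ u w K : ℝ} {M i D t : ℕ} (h : Nb ρ M i D t u w) (k : K ≤ i) {a b : ℕ}
    (e : a < b) : K * (u * i ^ a) ≤ u * i ^ b := by
  have u0 : 0 ≤ u := le_trans (by positivity) h.hu
  refine (mul_le_mul_of_nonneg_right k (by positivity)).trans (le_trans (le_of_eq ?_)
    (h.pw (show a + 1 ≤ b from e)))
  ring

theorem PreGf.mb (h : PreGf σ Y lv zz) : 0 ≤ σ.m - σ.be :=
  Le.num h.big ((Le.of_le fun n => by simpa using mi_nonneg _ _ _).trans h.top)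

theorem PreGf.ok (h : PreGf σ Y lv zz) : σ.Ok :=
  ⟨fun a => (h.wt a).elim (·.ge) h.g0.le.trans, h.et, h.live, h.tau, h.l1⟩

theorem lev (hH : RowH) (hR : RowR) (hC : RowC) (hW : RowW) (h : PreGf σ Y lv zz) :
    ∃ (ρ c : ℝ) (i D t : ℕ → ℕ) (u w : ℕ → ℝ) (β : ℕ → Type) (C C' : ∀ n, (Y n).Ω → β n)
      (E G : ∀ n, (Y n).Ω → Prop), Lev σ Y lv zz ρ c i D t u w C C' E G := by
  have g0 := h.g0
  have be := h.be0
  have mb := h.mb
  have m0 : 0 < σ.m := by linarith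
  have : Nonempty κ := ⟨σ.τ⟩
  have d1 : (1 : ℝ) ≤ Fintype.card κ := by exact_mod_cast Fintype.card_pos
  obtain ⟨ρ, r0', r1'⟩ := exists_rat_btwn (show 0 < min (1 / 2) (σ.be / (8 * σ.m)) by positivity)
  have r0 : 0 < ρ := by exact_mod_cast r0'
  have r2 : (ρ : ℝ) ≤ 1 / 2 := r1'.le.trans (min_le_left _ _)
  have r1 : ρ ≤ 1 / 2 := (Rat.cast_le (K := ℝ)).1 (by simpa using r2)
  have r3 : ρ * (8 * σ.m) ≤ σ.be := (le_div_iff₀ (by positivity)).1 (r1'.le.trans (min_le_right _ _))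
  obtain ⟨c, c0, c1⟩ : ∃ c : ℝ, 0 < c ∧ c * (24 * σ.m) = σ.be :=
    ⟨σ.be / (24 * σ.m), by positivity, by field_simp⟩
  obtain ⟨j, bj, hj⟩ := KSA.spill (fun j n => ∀ N ≤ j,
    (Y n).Gf σ (σ.kf n) (lv n) (zz n) N (1 / (j + 1 : ℝ) * (Y n).M)) fun j =>
    ev_le' fun N _ => h.gf N (by positivity)
  obtain ⟨w, hw⟩ : ∃ w : ℕ → ℝ, ∀ n, 1 / (j n + 1 : ℝ) * (Y n).M = w n := ⟨_, fun _ => rfl⟩
  replace hj : ∀ᶠ n in UF, ∀ N ≤ j n, (Y n).Gf σ (σ.kf n) (lv n) (zz n) N (w n) :=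
    hj.mono fun n a => hw n ▸ a _ le_rfl
  have w0 : ∀ n, 0 ≤ w n := fun n => by rw [← hw]; positivity
  have sL : Sub (sM Y) fun n => 2 * Fintype.card κ ^ 2 * Real.exp (w n) := by
    refine Sub.const_mul ⟨fun n => Real.one_le_exp (w0 n), fun ε hε => (bj.ev (1 / ε)).mono
      fun n a => Real.exp_le_exp.2 (hw n ▸ mul_le_mul_of_nonneg_right ?_ (Nat.cast_nonneg _))⟩
      h.big (by nlinarith)
    exact (div_le_comm₀ (by positivity) hε).2 (by linarith)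
  obtain ⟨io, bo, acw⟩ := hW ι κ α σ Y h.toPre0 _ (sL.add (h.big.sub le_rfl) h.big) (1 - ρ)
    (by linarith) (by linarith)
  obtain ⟨f, pf, hf⟩ := lev_one σ g0 h.wt h.et
  obtain ⟨i, bi, hi⟩ := KSA.spill (fun i n => i ≠ 0 → (i ^ 20 ≤ j n ∧ 2 * i ^ 6 ≤ io n ∧
    i ^ 30 ≤ (Y n).M ∧ i ^ 8 ≤ sU σ.kf (sM Y) n) ∧
    (f (2 * Fintype.card κ ^ 2 * Real.exp (w n)) ≤ Real.exp (1 / (i : ℝ) ^ 20 * (Y n).M) ∧
    ch (Y n).P ((Y n).z 1) ((Y n).O 0) ≤ 0 + 1 / (i : ℝ) ^ 20 * (Y n).M) ∧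
    (Y n).Gf σ (σ.kf n) (lv n) (zz n) (i ^ 12) (1 / (i : ℝ) ^ 20 * (Y n).M) ∧
    ∀ t ≤ i ^ 12, (t / (i ^ 12 : ℕ) : ℚ) ≤ 1 - ρ → lv n (t / (i ^ 12 : ℕ)) ≤ lv n (1 - ρ)) fun i =>
    eventually_imp_distrib_left.2 fun z => by
      have p : (0 : ℝ) < 1 / (i : ℝ) ^ 20 := by positivity
      exact ((tendsto_atTop.1 bj _).and ((tendsto_atTop.1 bo _).and ((tendsto_atTop.1 h.big _).and
        (tendsto_atTop.1 h.hg.bU _)))).and ((((pf.2 _ _ h.big sL).2 _ p).and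
        (hH ι κ α σ Y lv zz h _ p)).and ((h.gf _ p).and (ev_le' fun t _ =>
          eventually_imp_distrib_left.2 fun e => h.hg.mono _ _ e)))
  obtain ⟨u, hu⟩ : ∃ u : ℕ → ℝ, ∀ n, 1 / (i n : ℝ) ^ 20 * (Y n).M = u n := ⟨_, fun _ => rfl⟩
  replace hi := (hi.and (tendsto_atTop.1 bi 1)).mono fun n a => a.1 _ le_rfl (by omega)
  simp only [hu, zero_add] at hi
  obtain ⟨D, hD⟩ : ∃ D : ℕ → ℕ, ∀ n, (Y n).M / i n ^ 6 = D n := ⟨_, fun _ => rfl⟩
  have nb : ∀ᶠ n in UF, Nb ρ (Y n).M (i n) (D n) 0 (u n) (w n) := by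
    filter_upwards [hi, bi.ev 2] with n a b
    have i0 : (0 : ℝ) < i n := by linarith
    have e : ((Y n).M : ℝ) = u n * i n ^ 20 := by rw [← hu]; field_simp
    have e2 : (i n : ℝ) ^ 10 ≤ u n := by
      have : (i n : ℝ) ^ 30 ≤ (Y n).M := by exact_mod_cast a.1.2.2.1
      rw [e] at this
      exact le_of_mul_le_mul_right (le_of_eq_of_le (by ring) this) (pow_pos i0 20)
    have e3 : ((Y n).M : ℝ) / (i n ^ 6 : ℕ) = u n * i n ^ 14 := by rw [e]; push_cast; field_simp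
    have e4 : (D n : ℝ) ≤ u n * i n ^ 14 := hD n ▸ e3 ▸ Nat.cast_div_le
    have e5 : u n * i n ^ 14 < D n + 1 := by
      rw [← e3, ← hD]
      exact lt_sU (fun _ => i n ^ 6) (fun _ => (Y n).M) 0
    have e6 : (2 : ℝ) ≤ u n * i n ^ 14 := by
      nlinarith [one_le_pow₀ (n := 14) (show (1 : ℝ) ≤ i n by linarith),
        le_self_pow₀ (show (1 : ℝ) ≤ i n by linarith) (show 10 ≠ 0 by norm_num)]
    refine ⟨b, e, e2, w0 n, ?_, e4, by linarith, ?_⟩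
    · rw [← hu, ← hw]
      have : (i n : ℝ) ^ 20 ≤ j n := by exact_mod_cast a.1.1
      exact mul_le_mul_of_nonneg_right (one_div_le_one_div_of_le (by positivity) (by linarith))
        (Nat.cast_nonneg _)
    · have : (i n : ℝ) ^ 7 * 2 ≤ i n ^ 7 * i n ^ 5 := mul_le_mul_of_nonneg_left
        (b.trans (le_self_pow₀ (by linarith) (by norm_num))) (by positivity)
      push_cast
      nlinarith [pow_pos i0 12]
  obtain ⟨cu, cT⟩ := hC ι κ α σ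
  have ex : ∀ᶠ n in UF, ∃ (y : (ℕ × ((Y n).Ω → Ce ι κ ((Y n).Λ' × (Y n).Z)) ×
      ((Y n).Ω → Ce ι κ ((Y n).Λ' × (Y n).Z))) × ((Y n).Ω → Prop) × ((Y n).Ω → Prop)),
      (y.1.1 + i n ^ 7 : ℝ) ≤ (1 - ρ) * i n ^ 12 ∧
      (Y n).Lv σ (i n ^ 12) y.1.1 (y.1.1 + i n ^ 7) (D n) (u n) c
        ((σ.m - 5 * σ.be / 8) * (u n * i n ^ 15)) (1 / i n) (u n * i n ^ 12)
        y.1.2.1 y.1.2.2 y.2.1 y.2.2 := by
    filter_upwards [hi, nb, hj, bi.ev (27 * Fintype.card κ ^ 4 + 1 +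
      Real.log ((Fintype.card κ).factorial * Fintype.card κ ^ Fintype.card κ)),
      bi.ev (8 * (2 * σ.m + 7) / σ.be), bi.ev (24 * (Fintype.card α * Fintype.card κ)),
      bi.ev (((1 + c) / c + 1) / c)] with n a b g k1 k2 k3 k4
    have i2 := b.i2
    have u1 := b.u1
    have u0 : 0 < u n := by linarith
    have i5 : (32 : ℝ) ≤ i n ^ 5 := le_trans (by norm_num) (pow_le_pow_left₀ zero_le_two i2 5)
    obtain ⟨m, m1, m2⟩ : ∃ m : ℕ, (m + 1 : ℝ) ≤ (1 - ρ) * i n ^ 5 ∧ (1 - ρ) * i n ^ 5 ≤ (m + 2 : ℝ) := by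
      have p : (1 : ℝ) ≤ (1 - ρ) * i n ^ 5 := by nlinarith
      refine ⟨⌊(1 - ρ : ℝ) * i n ^ 5 - 1⌋₊, ?_, ?_⟩
      · linarith [Nat.floor_le (sub_nonneg.2 p)]
      · linarith [Nat.lt_floor_add_one ((1 - ρ : ℝ) * i n ^ 5 - 1)]
    have m3 : (i n : ℝ) ^ 5 / 4 ≤ m := by nlinarith
    have m4 : (m + 1 : ℝ) ≤ i n ^ 5 := by nlinarith
    have m5 : (((m + 1) * i n ^ 7 : ℕ) : ℝ) ≤ (1 - ρ) * i n ^ 12 := by
      push_cast
      exact (mul_le_mul_of_nonneg_right m1 (by positivity)).trans_eq (by ring)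
    obtain ⟨T, t1, t2⟩ := cT (D n) (w n) (w0 n)
    have p0 := b.pw (show 0 ≤ 14 by norm_num)
    have p5 : u n * (m + 1) ≤ u n * i n ^ 5 := mul_le_mul_of_nonneg_left m4 u0.le
    rw [pow_zero, mul_one] at p0
    have i0 : (0 : ℝ) < i n := by linarith
    have i1 : 0 < i n := by exact_mod_cast i0
    have m6 : (m + 1) * i n ^ 7 ≤ i n ^ 12 :=
      Nat.cast_le (α := ℝ).1 (m5.trans (by push_cast; nlinarith [pow_pos i0 12]))
    have m7 : Fintype.card κ ^ 2 * Real.exp (w n) ≤ 2 * Fintype.card κ ^ 2 * Real.exp (w n) := by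
      have : (0 : ℝ) ≤ Fintype.card κ ^ 2 * Real.exp (w n) := by positivity
      linarith
    refine (hf (Y n) _ _ _ (i n ^ 12) m (i n ^ 7) (D n) (w n) _ (u n) (u n)
      ((σ.m - 3 * σ.be / 4) * (u n * i n ^ 15)) ((σ.m - 5 * σ.be / 8) * (u n * i n ^ 15))
      (u n * i n ^ 10) c (i n) (u n * i n ^ 12) T
      (g _ ((Nat.pow_le_pow_right i1 (by norm_num)).trans a.1.1)) (by positivity) m6
      (Nat.cast_pos (α := ℝ).1 (by linarith)) (w0 n) m7 a.2.1.1 (k1.trans u1) a.2.1.2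
      (mul_pos (by linarith) (by positivity)) (mul_pos (by linarith) (by positivity))
      (by positivity) c0 i0 ?_ (t1.trans (Real.exp_le_exp.2 ?_)) t2 ?_ ?_ ?_).imp
      fun y z => ⟨le_trans (by exact_mod_cast z.1) m5, z.2⟩
    · have q1 := b.mul k2 (show 15 < 20 by norm_num)
      rw [div_mul_eq_mul_div, div_le_iff₀ be] at q1
      have q2 := mul_le_mul_of_nonneg_right (show (1 - ρ) * i n ^ 5 - 2 ≤ (m : ℝ) by linarith)
        (show 0 ≤ (σ.m - 3 * σ.be / 4) * (u n * i n ^ 15) from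
          mul_nonneg (by linarith) (by positivity))
      have q3 := b.pw (show 5 ≤ 15 by norm_num)
      have q4 : 0 ≤ u n * i n ^ 20 := by positivity
      have q5 : 0 ≤ u n * i n ^ 15 := by positivity
      have q6 : ((1 - ρ) * i n ^ 5 - 2) * ((σ.m - 3 * σ.be / 4) * (u n * i n ^ 15)) =
          (1 - ρ) * (σ.m - 3 * σ.be / 4) * (u n * i n ^ 20) -
            2 * (σ.m - 3 * σ.be / 4) * (u n * i n ^ 15) := by ring
      have q7 := mul_le_mul_of_nonneg_right (show σ.m - 7 * σ.be / 8 ≤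
        (1 - ρ) * (σ.m - 3 * σ.be / 4) by nlinarith) q4
      have q8 := b.pw (show 14 ≤ 15 by norm_num)
      rw [b.hM]
      nlinarith [b.wu, mul_nonneg be.le q5]
    · have q1 := b.mul k3 (show 14 < 15 by norm_num)
      have q2 := mul_le_mul_of_nonneg_right m3 (show 0 ≤ u n * i n ^ 10 by positivity)
      have q3 := mul_le_mul_of_nonneg_left (show 3 * (D n : ℝ) + w n + 2 ≤ 6 * (u n * i n ^ 14) by
        linarith [b.d1, b.wu]) (show (0 : ℝ) ≤ Fintype.card α * Fintype.card κ by positivity)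
      nlinarith
    · refine le_trans (le_of_eq (mul_assoc _ _ _).symm) (le_trans (mul_le_mul_of_nonneg_right
        (show _ ≤ (1 - 2 * c) * (σ.m - 5 * σ.be / 8) by nlinarith [mul_pos c0 be])
        (by positivity)) (le_of_eq (mul_assoc _ _ _)))
    · have q1 := b.mul i2 (show 5 < 6 by norm_num)
      have q2 := b.mul i2 (show 6 < 12 by norm_num)
      have q3 := b.pw (show 0 ≤ 6 by norm_num)
      rw [pow_zero, mul_one] at q3
      nlinarith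
    · have q1 := b.mul k4 (show 10 < 11 by norm_num)
      have q2 := b.pw (show 0 ≤ 10 by norm_num)
      have q3 : lg ≤ u n * i n ^ 10 := by
        have : lg ≤ 1 := (Real.log_le_sub_one_of_pos two_pos).trans (by norm_num)
        rw [pow_zero, mul_one] at q2
        linarith
      have q4 : ((1 + c) / c * (u n * i n ^ 10) + lg) / c ≤ u n * i n ^ 11 :=
        le_trans ((div_le_div_of_nonneg_right (add_le_add le_rfl q3) c0.le).trans_eq (by ring)) q1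
      exact (mul_le_mul_of_nonneg_left q4 (by linarith)).trans_eq (by ring)
  obtain ⟨y, hy⟩ := Sc.ev_pick (fun n => ⟨((0, fun _ => [], fun _ => []), fun _ => True,
    fun _ => True)⟩) ex
  have bD : Big D := tendsto_atTop_mono' _ (nb.mono fun n b => Nat.cast_le (α := ℝ).1 (by
    have := b.mul b.i2 (show 0 < 14 by norm_num)
    rw [pow_zero, mul_one] at this
    linarith [b.d2, b.u1])) bi
  have rr : ∀ᶠ n in UF, ((y n).1.1 / (i n ^ 12 : ℕ) : ℚ) ≤ 1 - ρ ∧ (y n).1.1 ≤ i n ^ 12 ∧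
      D n ≤ (Y n).M ∧ ∀ ω ∈ (Y n).P.S, ((Y n).ld (y n).2.1 (y n).2.2
        (2 * Fintype.card κ ^ 2 * Real.exp (w n)) (D n) ((y n).1.1 / (i n ^ 12 : ℕ))
          (y n).1.2.1).Alg σ ((((y n).1.1 / (i n ^ 12 : ℕ) : ℚ) : ℝ) * (Y n).M) ω ∧
        (((Y n).ld (y n).2.1 (y n).2.2 (2 * Fintype.card κ ^ 2 * Real.exp (w n)) (D n)
          ((y n).1.1 / (i n ^ 12 : ℕ)) (y n).1.2.1).da σ ω).Good (S0 κ) ∧
        ∀ S, (((Y n).ld (y n).2.1 (y n).2.2 (2 * Fintype.card κ ^ 2 * Real.exp (w n)) (D n)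
          ((y n).1.1 / (i n ^ 12 : ℕ)) (y n).1.2.1).da σ ω).Good S → ((Y n).da σ
            (Real.exp (1 * (Y n).M)) (2 * Fintype.card κ ^ 2 * Real.exp (w n) + 1) ω).Good S := by
    filter_upwards [hy, nb, hj, bi.ev (Fintype.card κ + 3), bi.ev (3 / (σ.g * ρ))] with n a b g k1 k2
    have i0 : (0 : ℝ) < i n := by linarith [b.i2]
    have x1 : (((y n).1.1 / (i n ^ 12 : ℕ) : ℚ) : ℝ) ≤ 1 - ρ := by
      push_cast
      exact (div_le_iff₀ (by positivity)).2 (le_trans (le_add_of_nonneg_right (by positivity)) a.1)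
    have x2 : ((y n).1.1 / (i n ^ 12 : ℕ) : ℚ) ≤ 1 - ρ := by exact_mod_cast x1
    have dM : D n ≤ (Y n).M := hD n ▸ Nat.div_le_self _ _
    refine ⟨x2, Nat.cast_le (α := ℝ).1 ?_, dM, fun ω p => hR ι κ α _ σ (Y n) (y n).2.1 (y n).2.2
      (D n) ((y n).1.1 / (i n ^ 12 : ℕ)) (y n).1.2.1 (w n) ω g0 (gq0 _ _) (by linarith) (w0 n) ?_ dM ?_
      ((g 0 (Nat.zero_le _)).alg ω p)⟩
    · push_cast
      nlinarith [a.1, pow_pos i0 12, pow_pos i0 7]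
    · have q1 := b.mul b.i2 (show 0 < 1 by norm_num)
      have q2 := b.mul b.i2 (show 1 < 14 by norm_num)
      rw [pow_zero, mul_one] at q1
      linarith [b.d2, b.u1, b.wu]
    · have q1 := b.mul k2 (show 14 < 20 by norm_num)
      have q2 := b.pw (show 0 ≤ 14 by norm_num)
      have gρ := mul_pos g0 r0'
      rw [div_mul_eq_mul_div, div_le_iff₀ gρ, ← b.hM] at q1
      rw [pow_zero, mul_one] at q2
      nlinarith [mul_le_mul_of_nonneg_right (mul_le_mul_of_nonneg_left (show (ρ : ℝ) ≤ 1 -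
        (((y n).1.1 / (i n ^ 12 : ℕ) : ℚ) : ℝ) by linarith) g0.le) (Nat.cast_nonneg (α := ℝ) (Y n).M),
        b.d1, b.wu]
  have sD : ∀ (ε : ℝ), 0 < ε → ∀ᶠ n in UF, u n * i n ^ 12 ≤ ε * D n := fun ε hε => by
    filter_upwards [nb, bi.ev (2 / ε)] with n b k
    have := b.mul k (show 12 < 14 by norm_num)
    rw [div_mul_eq_mul_div, div_le_iff₀ hε] at this
    nlinarith [mul_le_mul_of_nonneg_left b.d2 hε.le]
  refine ⟨ρ, c, i, D, fun n => (y n).1.1, u, w, _, fun n => (y n).1.2.1, fun n => (y n).1.2.2,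
    fun n => (y n).2.1, fun n => (y n).2.2, r0', c0, bi, ?_, h.ok, one_pos, bD, ?_, ?_,
    fun z hz => ?_, fun ε hε => ?_, acw _ _ _ D _ _ c c0 bD
      (fun ε hε => (hy.and (sD ε hε)).mono fun n a => a.1.2.cs.trans (a.2.trans_eq (zero_add _).symm)) ?_⟩
  · filter_upwards [hi, nb, hj, hy] with n a b g k
    exact ⟨{ b with t1 := k.1 }, a.1.2.2.2, a.2.2.1, (g 0 (Nat.zero_le _)).alg, k.2⟩
  · refine Sub.const_mul ⟨fun n => Real.one_le_exp (w0 n), fun ε hε => ((sD ε hε).and nb).mono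
      fun n a => Real.exp_le_exp.2 (le_trans ?_ a.1)⟩ bD (by nlinarith)
    simpa using a.2.wu.trans ((mul_one _).ge.trans (a.2.pw (show 0 ≤ 12 by norm_num)))
  · filter_upwards [hy, rr, hj] with n a b g
    have g' := g 0 (Nat.zero_le _)
    refine ⟨rfl, fun _ => rfl, mul_nonneg (by exact_mod_cast gq0 _ _) (Nat.cast_nonneg _),
      Fn.fst _ _, fn_cE (g'.fB.trans a.2.fT) _, Fn.snd _ _, fun p _ q _ e => ?_,
      fun ω p => (b.2.2.2 ω (cE_sub p)).1, fun ω p => (b.2.2.2 ω (cE_sub p)).2.1⟩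
    obtain ⟨e1, e2⟩ := Prod.mk.inj e
    exact propext ⟨a.2.fG p q e1 e2, a.2.fG q p e1.symm e2.symm⟩
  · obtain ⟨K, hK⟩ := cu z
    filter_upwards [h.cur z hz _ (half_pos g0), nb, hj, bi.ev (4 * |K|), bi.ev (4 / σ.g),
      tendsto_atTop.1 bD 1] with n a b g k1 k2 k3
    refine hK _ (Y n) _ _ _ _ _ _ (w n) _ (w0 n) ?_ ?_ k3 (g 0 (Nat.zero_le _)).alg a
    · have q1 := b.mul k1 (show 0 < 14 by norm_num)
      rw [pow_zero, mul_one] at q1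
      have := mul_le_mul (le_abs_self K) (show w n + 1 ≤ 2 * u n by linarith [b.wu, b.u1, b.i2])
        (by linarith [w0 n]) (abs_nonneg K)
      linarith [b.d2]
    · have q1 := b.mul k2 (show 14 < 20 by norm_num)
      rw [div_mul_eq_mul_div, div_le_iff₀ g0, ← b.hM] at q1
      linarith [b.d1]
  · filter_upwards [hy, bi.ev (1 / ε), bi.ev 1] with n a b k
    exact a.2.pG.trans ((div_le_comm₀ (by linarith) hε).2 b)
  · filter_upwards [hy, rr, hi, nb] with n a b g k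
    have o : Fn (Y n).P ((Y n).O ((y n).1.1 / (i n ^ 12 : ℕ))) ((Y n).O (1 - ρ)) :=
      (Fn.fst _ _).pair fun _ _ _ _ e => (h.hg.hz n _ _ _).2 (fl1_eq_of_le (g.2.2.2 _ b.2.1 b.1)
        ((h.hg.hz n _ _ _).1 (congrArg Prod.snd e)))
    refine ⟨le_trans ?_ (Nat.mul_le_mul_right _ g.1.2.1), b.2.2.1, a.2.pE, a.2.fE.trans o,
      a.2.fo.trans o, a.2.fT, fun ω p => ⟨(b.2.2.2 ω p).2.2 _ (b.2.2.2 ω p).2.1, (b.2.2.2 ω p).2.2⟩⟩
    refine Nat.cast_le (α := ℝ).1 ?_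
    have := mul_le_mul_of_nonneg_left k.d2 (show (0 : ℝ) ≤ i n ^ 6 by positivity)
    rw [k.hM]
    push_cast
    linarith

end Pool.Agent.MP_5168f5_an.QA.Cp
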