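import Pool.Agent.MP_4b405e_nt.SK.SpA
import Pool.Agent.MP_4b405e_nt.SK.N1K

/-! Sparse heights: the choice of the level. -/

namespace Pool.Agent.MP_5168f5_an.QA.Cp

open H19 H17S H17F AN Finset N1
open S20 (dn mem_cv)

theorem ex_lev {n : ℕ} {a b H : ℝ} {f g : ℕ → ℝ} (b0 : 0 < b) (ba : b ≤ a) (hn : 4 * a ≤ b * n)
    (f0 : ∀ k, 0 ≤ f k) (g0 : ∀ k, 0 ≤ g k) (hf : ∑ k ∈ range n, f k ≤ (a - b) * n)
    (hg : ∑ k ∈ range n, g k ≤ H) :
    ∃ k, 1 ≤ k ∧ k < n ∧ f k ≤ a - b / 2 ∧ g k ≤ 4 * a / b * (H / n) := by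
  classical
  have a0 : 0 < a := b0.trans_le ba
  have n4 : (4 : ℝ) ≤ n := le_of_mul_le_mul_left (by linarith) b0
  have H0 : 0 ≤ H := (sum_nonneg fun k _ => g0 k).trans hg
  let S := (range n).filter fun k => 1 ≤ k ∧ f k ≤ a - b / 2
  have h1 : (n : ℝ) * (a - b / 2) ≤ (a - b) * n + (S.card + 1) * (a - b / 2) := by
    have e : (S.card : ℝ) * (a - b / 2) =
        ∑ k ∈ range n, if 1 ≤ k ∧ f k ≤ a - b / 2 then a - b / 2 else 0 := by
      rw [← sum_filter, sum_const, nsmul_eq_mul]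
    have e' : a - b / 2 = ∑ k ∈ range n, if k = 0 then a - b / 2 else 0 := by
      rw [sum_ite_eq', if_pos (mem_range.2 (by exact_mod_cast (show (0 : ℝ) < n by linarith)))]
    have := card_nsmul_le_sum (range n) (fun k => f k + (if 1 ≤ k ∧ f k ≤ a - b / 2 then a - b / 2
      else 0) + if k = 0 then a - b / 2 else 0) (a - b / 2) fun k _ => by
        have := f0 k
        by_cases c : k = 0
        · simp [c]; exact c ▸ this
        · by_cases c' : f k ≤ a - b / 2
          · rw [if_pos ⟨by omega, c'⟩, if_neg c]; linarith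
          · rw [if_neg fun z => c' z.2, if_neg c]; linarith
    rw [sum_add_distrib, sum_add_distrib, ← e, ← e', card_range, nsmul_eq_mul] at this
    linarith
  have c0 : (0 : ℝ) ≤ S.card := Nat.cast_nonneg _
  have h2 : b * n ≤ 4 * a * S.card := by nlinarith
  have ne : S.Nonempty := card_pos.1 (by
    exact_mod_cast (pos_iff_pos_of_mul_pos (show 0 < 4 * a * (S.card : ℝ) by nlinarith)).1
      (by linarith))
  obtain ⟨k, k1, k2⟩ := exists_le_of_sum_le ne (f := g) (g := fun _ => 4 * a / b * (H / n)) (by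
    refine ((sum_le_sum_of_subset_of_nonneg (filter_subset _ _) fun k _ _ => g0 k).trans
      hg).trans ?_
    rw [sum_const, nsmul_eq_mul, div_mul_div_comm, ← mul_div_assoc, le_div_iff₀ (by nlinarith)]
    nlinarith [mul_le_mul_of_nonneg_left h2 H0])
  obtain ⟨k3, k4, k5⟩ := mem_filter.1 k1
  exact ⟨k, k4, mem_range.1 k3, k5, k2⟩

theorem rowP : RowP := by
  intro Ω β γ δ P C O A n a b H θ b0 ba hn t0 ne fo hC hA
  have a0 : 0 < a := b0.trans_le ba
  obtain ⟨k, k1, k2, k3, k4⟩ := ex_lev b0 ba hn (fun k => ch_nonneg (P := P) (C (k + 1)) (C k))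
    (fun k => mi_nonneg (P := P) (C (k + 1)) A (C k)) ((sum_ch ne le_rfl).trans hC)
    ((sum_mi A (K := 1) ne le_rfl).trans (by simpa using hA))
  have c0 : 0 < b / (4 * a) := by positivity
  have h1 := likely P (C (k + 1)) (C k) (c := 2 * (b / (4 * a))) a0
    (k3.trans_eq (by field_simp; ring))
  have h2 := top_ev P (O k) (fun v => Real.exp (-a) ≤ dn P (C (k + 1)) (C k) v) c0.le
  set E : Ω → Prop := fun ω => b / (4 * a) ≤ pb (cv P (O k) (O k ω)) fun v =>
    Real.exp (-a) ≤ dn P (C (k + 1)) (C k) v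
  have h3 : b / (4 * a) ≤ pb P E := by linarith
  have h4 := mi_res P E (C (k + 1)) A (C k)
  have l1 : lg ≤ 1 := by have := Real.log_two_lt_d9; unfold lg; linarith
  have p0 : 0 ≤ 4 * a / b * (H / n) := (mi_nonneg _ _ _).trans k4
  have h5 : mi (cE P E) (C (k + 1)) (fun ω => (C k ω, A ω)) (C k) ≤
      4 * a / b * (4 * a / b * (H / n) + 1) := by
    refine (mi_mono ((Fn.snd _ _).pair (Fn.fst _ _))).trans ?_
    rw [← inv_div, le_inv_mul_iff₀ c0, inv_div]
    exact (mul_le_mul_of_nonneg_right h3 (mi_nonneg _ _ _)).trans (by linarith)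
  refine ⟨k, k1, k2, E, fun ω => kl (cE P E) (C (k + 1)) (fun ω => (C k ω, A ω)) (C k) ω ≤
    4 * a / b * (4 * a / b * (H / n) + 1) / θ, fun p _ q _ z => by simp only [E, z], h3,
    fun o => ?_, fun p _ q _ z => by simp only [kl, z], ?_, fun G f g ne' ct => ?_⟩
  · by_cases c : ∃ w ∈ P.S, C k w = o
    · obtain ⟨w, w1, rfl⟩ := c
      obtain ⟨T, t1, t2⟩ := S20.few_dn P (C (k + 1)) (C k) (Real.exp_pos (-a)) w w1
      refine ⟨T, by rwa [Real.exp_neg, inv_inv] at t1, fun ω p q z => le_trans q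
        (pb_mono fun v r s => ?_)⟩
      obtain ⟨r1, r2⟩ := (mem_cv p v).1 r
      exact t2 v r1 ((fo k k2.le v r1 ω p r2).trans z) s
    · exact ⟨∅, by simpa using (Real.exp_pos a).le, fun ω p _ z => absurd ⟨ω, p, z⟩ c⟩
  · have := kl_ev (P := cE P E) (l := fun ω => (C k ω, A ω)) (Fn.fst _ _) (C (k + 1))
      (b := 4 * a / b * (4 * a / b * (H / n) + 1) / θ) (i := 1 / θ) (by positivity)
      (by rw [one_div_mul_eq_div]; exact div_le_div_of_nonneg_right h5 t0.le) (by positivity)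
    rwa [one_div_one_div] at this
  · refine le_trans ?_ (kl_res (Y := C (k + 1)) (Fn.fst _ _) f ne' fun ω _ z => g ω z)
    have m := mem_cE ne'
    exact sub_le_sub (ch_anti fun p u q w _ =>
      ct p ((m p).1 u).1 q ((m q).1 w).1 ((m p).1 u).2 ((m q).1 w).2)
      (ch_anti ((Fn.fst _ _).pair fun _ _ _ _ _ => rfl))

end Pool.Agent.MP_5168f5_an.QA.Cp
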