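import Pool.Agent.MP_4b405e_nt.SK.SpA

/-! Sparse heights: the grid and the cells of the position. -/

namespace Pool.Agent.MP_5168f5_an.QA.Cp

open H19 H17S H17F AN AN.GA AN.N6 Matrix Finset H61Z Filter

variable {ι κ α : Type} [Fintype ι] [DecidableEq ι] [Fintype κ] [DecidableEq κ] [Fintype α]
  {σ : Cs ι κ α}

theorem gq {i i' N : ℕ} (h : i ≤ i') : (i / N : ℚ) ≤ i' / N :=
  div_le_div_of_nonneg_right (by exact_mod_cast h) (Nat.cast_nonneg _)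

theorem gq0 (i N : ℕ) : (0 : ℚ) ≤ i / N := by positivity

theorem gq1 {i N : ℕ} (h : i ≤ N) : (i / N : ℚ) ≤ 1 :=
  div_le_one_of_le₀ (by exact_mod_cast h) (Nat.cast_nonneg _)

theorem PreGf.gf {Y : ℕ → Pd ι κ α} {lv : ℕ → ℚ → ℕ} {zz : ∀ n, (Y n).Ω → ℝ}
    (h : PreGf σ Y lv zz) (N : ℕ) {ε : ℝ} (hε : 0 < ε) :
    ∀ᶠ n in UF, (Y n).Gf σ (σ.kf n) (lv n) (zz n) N (ε * (Y n).M) := by
  filter_upwards [h.zT, h.zS, h.tS, h.tO, h.fB, h.fA, h.alg ε hε, h.near ε hε, h.tt ε hε,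
    ev_le' fun i a => h.inc _ (gq0 i N) (gq1 a) ε hε, ev_le' fun i a => h.ac _ (gq0 i N) (gq1 a) ε hε,
    ev_le' (m := N) fun i _ => ev_le' (m := N) fun i' _ => eventually_imp_distrib_left.2 fun c =>
      (h.hg.mono _ _ (gq (N := N) (c : i ≤ i'))).and (h.hg.fa _ _ (gq c) ε hε),
    ev_le' (m := N) fun i _ => ev_le' (m := N) fun i' _ => h.hg.lev (i / N) (i' / N) ε hε,
    h.top ε hε] with n a1 a2 a3 a4 a5 a6 a7 a8 a9 b1 b2 b3 b4 b5
  refine ⟨a1, a2, a3, a4, a5, a6, a7, a8, a9, b1, b2, h.hg.hz n, h.hg.zt n,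
    fun i i' c d => (b3 i (c.trans d) i' d c).1, fun i c i' d => ?_, fun i i' c d ω p =>
      ((b3 i (c.trans d) i' d c).2 ω p).trans (mul_le_mul_of_nonneg_right (Real.exp_le_exp.2 ?_)
        (bw_k _ _ _ _)), b5⟩
  · have := b4 i c i' d
    push_cast at this
    rwa [← sub_div] at this
  · rw [mul_div_assoc]
    exact mul_le_mul_of_nonneg_left (sU_le _ _ n) hε.le

namespace Pd.Gf

variable {X : Pd ι κ α} {k N i i' : ℕ} {lv : ℚ → ℕ} {zz : X.Ω → ℝ} {v : ℝ}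

theorem zz_le (h : X.Gf σ k lv zz N v) (a : i ≤ i') (b : i' ≤ N) :
    Fn X.P (X.z (i / N)) (X.z (i' / N)) := fun _ _ _ _ e =>
  (h.hz _ _ _).2 (fl1_eq_of_le (h.mono i i' a b) ((h.hz _ _ _).1 e))

theorem oo (h : X.Gf σ k lv zz N v) (a : i ≤ i') (b : i' ≤ N) :
    Fn X.P (X.O (i / N)) (X.O (i' / N)) :=
  (Fn.fst _ _).pair ((h.zz_le a b).trans (Fn.snd _ _))

theorem o0 (h : X.Gf σ k lv zz N v) (b : i ≤ N) : Fn X.P (X.O 0) (X.O (i / N)) := by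
  simpa using h.oo i.zero_le b

theorem zS' (h : X.Gf σ k lv zz N v) (N0 : 0 < N) (b : i ≤ N) : Fn X.P (X.z (i / N)) X.S := by
  have := h.zz_le b le_rfl
  rw [div_self (by exact_mod_cast N0.ne')] at this
  exact this.trans h.zS

end Pd.Gf

/-- The nested cells of the position on the levels `k * s / N`. -/
theorem pos_cells (σ : Cs ι κ α) (g0 : 0 < σ.g) (wt : ∀ b, σ.μ b = 0 ∨ σ.g ≤ σ.μ b)
    (et : ∀ i, 0 < σ.η i) : ∃ f, PG f ∧ ∀ (X : Pd ι κ α) (q : ℕ) (lv : ℚ → ℕ) (zz : X.Ω → ℝ)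
    (N m s : ℕ) (v L u : ℝ), X.Gf σ q lv zz N v → 0 < N → m * s ≤ N → 0 ≤ v →
    Fintype.card κ ^ 2 * Real.exp v ≤ L → f L ≤ Real.exp u →
    27 * Fintype.card κ ^ 4 + 1 +
      Real.log ((Fintype.card κ).factorial * Fintype.card κ ^ Fintype.card κ) ≤ u →
    ∃ C : ℕ → X.Ω → Ce ι κ (X.Λ' × X.Z), Fn X.P (C 0) X.T ∧ (∀ k < m, Fn X.P (C k) (C (k + 1))) ∧
      (∀ k ≤ m, Fn X.P (C k) (X.O ((k * s : ℕ) / N)) ∧ Fn X.P X.T (C k) ∧
        Fn X.P (X.z ((k * s : ℕ) / N)) (C k) ∧ ch X.P (C k) X.S ≤ (2 * m + 1) * u) ∧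
      ∀ k ≤ m, 1 ≤ k → X.Loc σ (C k) ((k * s : ℕ) / N) u := by
  obtain ⟨f, pf, hf⟩ := chain α κ σ.Φ
  refine ⟨f, pf, fun X q lv zz N m s v L u gr N0 ms v0 Ld fL cu => ?_⟩
  have : Nonempty κ := ⟨σ.τ⟩
  have d1 : (1 : ℝ) ≤ Fintype.card κ := by exact_mod_cast Fintype.card_pos
  have lc : 0 ≤ Real.log ((Fintype.card κ).factorial * Fintype.card κ ^ Fintype.card κ) :=
    Real.log_nonneg (one_le_mul_of_one_le_of_one_le
      (by exact_mod_cast (Fintype.card κ).factorial_pos) (one_le_pow₀ d1))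
  have d4 : (Fintype.card κ : ℝ) ^ 2 ≤ Fintype.card κ ^ 4 := pow_le_pow_right₀ d1 (by norm_num)
  have d2 : (1 : ℝ) ≤ Fintype.card κ ^ 2 := one_le_pow₀ d1
  have L2 : Real.exp v ≤ L := (le_mul_of_one_le_left (Real.exp_pos _).le d2).trans Ld
  have L1 : 1 ≤ L := (Real.one_le_exp v0).trans L2
  have kN : ∀ k ≤ m, k * s ≤ N := fun k a => (Nat.mul_le_mul_right _ a).trans ms
  have hy : ∀ k ≤ m, (X.sp σ (Real.exp (0 * X.M)) L).Hy σ.Φ (X.O ((k * s : ℕ) / N))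
      (fun ω => (X.T ω, X.z ((k * s : ℕ) / N) ω)) ((((k * s : ℕ) / N : ℚ) : ℝ) * X.M) := fun k a =>
    Pd.hy g0 wt et (gq0 _ _) le_rfl (mul_nonneg g0.le (sub_nonneg.2 (by
      exact_mod_cast gq1 (kN k a)))) L2 gr.alg gr.near (gr.inc _ (kN k a))
      (gr.tO.trans (gr.o0 (kN k a))) gr.tS (gr.zS' N0 (kN k a)) gr.fB (gr.fA.trans (gr.o0 (kN k a)))
  have F1 : 1 ≤ Real.exp (0 * (X.M : ℝ)) := by simp
  obtain ⟨Ψ, C, p0, c0, st, lk⟩ := hf _ _ _ _ (X.sp σ _ _) (fun k => X.O ((k * s : ℕ) / N))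
    (fun k ω => (X.T ω, X.z ((k * s : ℕ) / N) ω)) (fun k => (((k * s : ℕ) / N : ℚ) : ℝ) * X.M) m
    (Real.exp (-0) / (3 * Fintype.card κ)) 1 1 (fun k a => hy _ a)
    (fun k a => gr.oo (Nat.mul_le_mul_right _ k.le_succ) (kN _ a)) (hy 0 m.zero_le).zo
    (hy 0 m.zero_le).zs (fun ω k => Pd.good0 F1 Ld (gr.alg ω k)) L1 (by positivity)
    ((div_le_one (by positivity)).2 (by simp; linarith)) zero_le_one one_pos
  have ind : ∀ p : ℕ → Prop, p 0 → (∀ k < m, p (k + 1)) → ∀ k ≤ m, p k := fun p a b k c => by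
    cases k with
    | zero => exact a
    | succ k => exact b k c
  have fz : ∀ k ≤ m, Fn X.P (fun ω => ((X.T ω, X.z ((k * s : ℕ) / N) ω), Ψ k ω)) (C k) :=
    ind _ (fun a _ b _ e => by
      rw [c0] at e
      simp only [List.cons.injEq, Prod.mk.injEq] at e
      simp only [p0, e.1.1.1, e.1.1.2]) fun k a => (st k a).fz
  have fo : ∀ k ≤ m, Fn X.P (C k) (X.O ((k * s : ℕ) / N)) := ind _ (fun a ha b hb e => by
    simp only [c0, (hy 0 m.zero_le).zo a ha b hb e]) fun k a => (st k a).fo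
  have gd : ∀ k ≤ m, ∀ ω ∈ X.P.S, (X.da σ (Real.exp (0 * X.M)) L ω).Good (Ψ k ω) :=
    ind _ (fun ω k => p0 ▸ Pd.good0 F1 Ld (gr.alg ω k)) fun k a ω b => ((st k a).nx.2 ω b).1
  have lf := (Real.log_le_iff_le_exp (by linarith [pf.1 _ L1])).2 fL
  refine ⟨C, fun a ha b hb e => ?_, fun k a => (st k a).nest, fun k a => ⟨fo k a,
    (Fn.fst _ _).trans ((Fn.fst _ _).trans (fz k a)), (Fn.snd _ _).trans ((Fn.fst _ _).trans (fz k a)),
    ?_⟩, fun k a b ω p w r e => ?_⟩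
  · have := gr.zT a ha b hb e
    simp only [c0, zero_mul, Nat.cast_zero, zero_div, e, this]
  · have h1 := lk k a
    have h2 : (X.sp σ (Real.exp (0 * X.M)) L).W (Ψ k) ≤ _ :=
      (X.P.E_mono fun ω p => (vl_bd (gd k a ω p) (F := 1) fun b => by
        simp [Pd.da, flr]).2).trans_eq (X.P.E_const _)
    have h3 := mul_le_mul_of_nonneg_left (log_N1 d1 le_rfl) (sq_nonneg (Fintype.card κ : ℝ))
    rw [N1, Real.log_pow, Nat.cast_mul, ← pow_two, one_mul, one_mul] at h1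
    rw [Real.log_one, mul_zero, add_zero] at h2
    have km : (k : ℝ) ≤ m := by exact_mod_cast a
    have k0 : (0 : ℝ) ≤ k := Nat.cast_nonneg _
    refine h1.trans ((add_le_add (h2.trans (show _ ≤ u by nlinarith)) (mul_le_mul km
      (show _ ≤ 2 * u from ?_) ?_ (k0.trans km))).trans (le_of_eq (by ring)))
    · change _ + Real.log (f L) + 1 ≤ _
      nlinarith
    · have := Real.log_nonneg (pf.1 _ L1)
      have : 0 ≤ Real.log (8 * Fintype.card κ / (Real.exp (-0) / (3 * Fintype.card κ)) + 2) :=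
        Real.log_nonneg (le_add_of_nonneg_of_le (by positivity) one_le_two)
      change 0 ≤ _ + Real.log (f L) + 1
      positivity
  · obtain ⟨k, rfl⟩ := Nat.exists_eq_add_of_le' b
    have := ba_incC (K := C (k + 1)) (F := 1) (L := L) gr.alg (st k a).inc fL ω w ⟨p, r, e⟩
    refine ⟨this.1, fun b => ?_⟩
    have z := this.2 _ ((gd _ a ω p).one b) _ (hg_one _ b)
    rwa [single_dotProduct, one_mul] at z

end Pool.Agent.MP_5168f5_an.QA.Cp
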