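import Pool.Agent.MP_4b405e_nt.SK.PacF
import Pool.Agent.MP_5168f5_an.QA.Ab
import Pool.Agent.MP_5168f5_an.QA.En5E
import Pool.Agent.MP_5168f5_an.QA.AbMI
import Pool.Agent.MP_5168f5_an.QA.FrMod

/-! Sparse heights: the base class of the local part. -/

namespace Pool.Agent.MP_5168f5_an.QA.PA.F

open H19 H17S H17F R4 AN Filter Finset
open G39 (dl)
open LC (ex_le)

variable {κ : Type} [Fintype κ] [DecidableEq κ] {Ω Λ : ℕ → Type} {wt : κ → ℝ} {S : Finset κ}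
  {C L : ℝ} {X : ∀ n, Pr κ (Ω n) (Λ n)} {A : ∀ n, Ω n → κ → κ → ℝ} {kf : ℕ → ℕ}

/-- Anti-concentration for all forms. -/
theorem HA.acf (h : HA kf wt 0 S C L X A) (hM : Big (sM X)) (hL : 1 ≤ L) (x : ℚ) (T ε : ℝ)
    (hε : 0 < ε) : ∀ᶠ n in UF, ∀ ω ∈ (X n).P.S, ∀ (t : ℝ) (φ : κ → ℝ) (E : Ω n → Prop),
      t ≤ T * (X n).M → (∀ b, |φ b| ≤ Real.exp (T * (X n).M)) →
      (∃ a, 1 ≤ |∑ b, φ b * A n ω b a|) → (X n).Thin wt x ((X n).O x ω) φ t E →
      pb ((X n).fb x ω) E ≤ Real.exp ((ε * (X n).M - t / L) / kf n) := by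
  filter_upwards [h.sh, h.fn x trivial, h.inc x trivial (2 * T + 1), h.ac x T _ (half_pos hε),
    big_exp hM (Fintype.card κ) one_pos, hM.sm 1 _ (half_pos hε)]
    with n a1 a2 a3 a4 a5 a6 ω hω t φ E ht hφ ⟨a, ha⟩ th
  set l : κ → ℝ := fun a => ∑ b, φ b * A n ω b a
  have l1 : 1 ≤ ∑ a, |l a| := ha.trans (single_le_sum (f := fun a => |l a|)
    (fun _ _ => abs_nonneg _) (mem_univ a))
  have l0 : 0 < ∑ a, |l a| := one_pos.trans_le l1
  refine (a4 ω hω (t - 1) (by linarith) (fun a => l a / ∑ a, |l a|) E ⟨fun b hb => ?_,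
    fun a b => ?_⟩ ?_ fun v v' k z e e' => ?_).trans (ex_le ?_)
  · rw [div_eq_zero_iff]
    exact Or.inl (sum_eq_zero fun i _ => by
      rw [not_not.1 fun c => hb ((a1 ω hω).gr i b c).1, mul_zero])
  · simp [cA, GA.br, (Real.exp_pos _).le]
  · simp only [abs_div, abs_of_pos l0, ← sum_div, div_self l0.ne']
  · have i := a3 v v' k
    rw [a2 v k.1 ω hω z] at i
    have e1 : ∑ a, l a / (∑ a, |l a|) * (X n).co wt x v v' a = (∑ b, φ b * (X n).co wt x v v' b -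
        ∑ b, φ b * ((X n).co wt x v v' b - ∑ a, A n ω b a * (X n).co wt x v v' a)) /
          ∑ a, |l a| := by
      simp only [div_mul_eq_mul_div, ← sum_div, mul_sub, sum_sub_distrib, sub_sub_cancel, l,
        sum_mul, mul_sum, mul_assoc]
      rw [sum_comm]
    have e2 : |∑ b, φ b * ((X n).co wt x v v' b - ∑ a, A n ω b a * (X n).co wt x v v' a)| ≤
        Real.exp (-t) := by
      refine (abs_sum_le_sum_abs _ _).trans ((sum_le_card_nsmul _ _ _ fun b _ => (abs_mul _ _).trans_le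
        (mul_le_mul (hφ b) (i b) (abs_nonneg _) (Real.exp_pos _).le)).trans ?_)
      rw [nsmul_eq_mul, card_univ]
      refine (mul_le_mul_of_nonneg_right a5 (by positivity)).trans ?_
      rw [← Real.exp_add, ← Real.exp_add]
      exact ex_le (by simp only [sM]; linarith)
    rw [e1, abs_div, abs_of_pos l0]
    refine (div_le_self (abs_nonneg _) l1).trans ((abs_sub _ _).trans
      ((add_le_add (th v v' k z e e') e2).trans ?_))
    rw [neg_sub, sub_eq_add_neg 1, Real.exp_add]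
    nlinarith [Real.add_one_le_exp 1, Real.exp_pos (-t)]
  · have : 1 / L ≤ 1 := (div_le_one (by linarith)).2 hL
    simp only [sM] at a6
    refine div_le_div_of_nonneg_right ?_ (Nat.cast_nonneg _)
    rw [sub_div]
    linarith

/-- A form that is small on the pairs of an atom is small on the columns. -/
theorem HA.lin (h : HA kf wt 0 S C L X A) (hk : Big kf) (hM : Big (sM X)) (hL : 1 ≤ L) (x : ℚ) (T ε : ℝ)
    (hε : 0 < ε) : ∀ᶠ n in UF, ∀ ω ∈ (X n).P.S, ∀ (φ : κ → ℝ) (r : ℝ),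
      (∀ b, |φ b| ≤ Real.exp (T * (X n).M)) → dl (sM X) T n ≤ r →
      (∀ v v', (X n).At x v v' → (X n).O x v = (X n).O x ω →
        |∑ b, φ b * (X n).co wt x v v' b| ≤ r) →
      ∀ a, |∑ b, φ b * A n ω b a| ≤ Real.exp (ε * (X n).M) * r := by
  have L0 : 0 < L := by linarith
  filter_upwards [h.acf hM hL x (2 * |T| + ε) (ε / L / 2) (by positivity), hM.ev 1, hk.ev 1]
    with n a1 a2 a3 ω hω φ r hφ hr k a
  have r0 : 0 < r := (G39.dl_pos _ _ _).trans_le hr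
  have s0 : 0 < Real.exp (ε * (X n).M) * r := by positivity
  simp only [sM] at a2
  have d : ∀ y : κ → ℝ, |∑ b, φ b / (Real.exp (ε * (X n).M) * r) * y b| =
      |∑ b, φ b * y b| / (Real.exp (ε * (X n).M) * r) := fun y => by
    simp only [div_mul_eq_mul_div, ← sum_div, abs_div, abs_of_pos s0]
  by_contra c
  have := a1 ω hω (ε * (X n).M) (fun b => φ b / (Real.exp (ε * (X n).M) * r)) (fun _ => True)
    (by nlinarith [abs_nonneg T]) (fun b => ?_) ⟨a, ?_⟩ fun v v' u z _ _ => ?_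
  · rw [pb_true, Real.one_le_exp_iff, le_div_iff₀ (one_pos.trans_le a3), zero_mul,
      mul_div_right_comm] at this
    nlinarith [div_pos hε L0]
  · rw [abs_div, abs_of_pos s0, div_le_iff₀ s0]
    refine (hφ b).trans (le_trans ?_ (mul_le_mul_of_nonneg_left
      (mul_le_mul_of_nonneg_left hr (Real.exp_pos _).le) (Real.exp_pos _).le))
    rw [dl, ← Real.exp_add, ← Real.exp_add]
    exact ex_le (by simp only [sM]; nlinarith [le_abs_self T])
  · rw [d fun b => A n ω b a, le_div_iff₀ s0, one_mul]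
    exact (not_le.1 c).le
  · rw [d, div_le_iff₀ s0, ← mul_assoc, ← Real.exp_add, neg_add_cancel, Real.exp_zero, one_mul]
    exact k v v' u z

end Pool.Agent.MP_5168f5_an.QA.PA.F

namespace Pool.Agent.MP_5168f5_an.QA.AB.F

open H19 H17S H17F R4 AN Filter Finset
open G39 (dl)
open GA (Mt)
open N2 (Uni El eB eW tri mem_F0 vec_eB vec_mem)

variable {N D m : ℕ}

/-- A closed class of tangent systems. -/
structure Cl0 (kf : ℕ → ℕ) (E : ℕ) (η θ β js Γ : ℝ) (sl : ℕ → ℝ) (K : (ℕ → St N D) → Prop) :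
    Prop where
  cf : CF K
  idx : ∀ X (a e : ℚ), 0 < e → e ≤ 1 → K X → K fun n => (X n).idx sl js a e
  res : ∀ X G, K X → Trf X kf G → K fun n => (X n).res (G n)
  tq : ∀ X, K X → Tq X E η θ β js Γ sl
  two : ∀ X, K X → Two kf (uu X)

/-- The model together with the minimal subspace of the increments. -/
structure FM (kf : ℕ → ℕ) (kk la : Fin m → ℝ) (o τ : Fin m) (S : Finset (El la)) (C L : ℝ)
    (X : ℕ → St N D) (F : ∀ n, Fd N D m (X n).Ω) (A : ∀ n, (X n).Ω → El la → El la → ℝ) : Prop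
    extends MI kk la o τ X F where
  ha : PA.F.HA kf (eW la) 0 S C L (fun n => pr kk la o τ (X n) (F n)) A

section CF

variable {S : ℕ → Type*} (kf : ℕ → ℕ) (kk la : Fin m → ℝ) (o τ : Fin m) (x : ∀ n, S n → St N D)
  (f : ∀ n z, Fd N D m (x n z).Ω)

theorem cf_ha {κ : Type} [Fintype κ] [DecidableEq κ] {W Λ : ∀ n, S n → Type} (wt : κ → ℝ)
    (c : κ → κ → κ → ℝ) (T : Finset κ) (C L : ℝ) (p : ∀ n z, PA.Pr κ (W n z) (Λ n z))
    (a : ∀ n z, W n z → κ → κ → ℝ) : CF fun Z : ∀ n, S n =>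
      PA.F.HA kf wt c T C L (fun n => p n (Z n)) fun n => a n (Z n) :=
  ((cf_ev fun n z => ∀ ω ∈ (p n z).P.S, PA.Sh wt T C ((p n z).W ω) (a n z ω)).and
    ((cf_all fun K : ℕ => cf_ev fun n z => (p n z).Sb c (a n z) (K * (p n z).M)).and
    ((cf_all fun y => cf_ev fun n z => Fn (p n z).P (a n z) ((p n z).O y)).and
    ((cf_all fun y => cf_all fun K : ℕ => cf_ev fun n z =>
      (p n z).Inc wt (a n z) y (K * (p n z).M)).and
    (cf_all fun y => cf_all fun K : ℕ => cf_eps (p := fun ε n z =>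
      (p n z).Acf wt (kf n) c T L (a n z) y (ε * (p n z).M) (K * (p n z).M)) fun _ _ n z _ b =>
        (p n z).mo_acf wt _ c T L _ y _ _ _ _ (mul_le_mul_of_nonneg_right b (Nat.cast_nonneg _))
          le_rfl))))).congr fun Z =>
    ⟨fun h => ⟨h.sh, fun K => h.sb K, fun y => h.fn y trivial, fun y K => h.inc y trivial K,
      fun y K => h.ac y K⟩,
    fun ⟨h1, h2, h3, h4, h5⟩ => ⟨⟨h1, (all_nat (p := fun n r => (p n (Z n)).Sb c (a n (Z n)) r)
      fun n _ _ e => (p n (Z n)).mo_sb c _ 0 0 _ _ le_rfl e).2 h2, fun y _ => h3 y,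
      fun y _ => (all_nat (p := fun n r => (p n (Z n)).Inc wt (a n (Z n)) y r)
        fun n _ _ e => (p n (Z n)).mo_inc wt _ y 0 0 _ _ le_rfl e).2 (h4 y)⟩,
      fun y T => PA.F.HC.mono (h5 y ⌈T⌉₊) (Nat.le_ceil T)⟩⟩

theorem cf_fm (T : Finset (El la)) (C L : ℝ) (a : ∀ n z, (x n z).Ω → El la → El la → ℝ) :
    CF fun Z : ∀ n, S n =>
      FM kf kk la o τ T C L (fun n => x n (Z n)) (fun n => f n (Z n)) fun n => a n (Z n) :=
  ((cf_mi kk la o τ x f).and (cf_ha kf (eW la) 0 T C L (fun n z => pr kk la o τ (x n z) (f n z))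
    a)).congr fun _ => ⟨fun h => ⟨h.toMI, h.ha⟩, fun h => ⟨h.1, h.2⟩⟩

end CF

variable {kf : ℕ → ℕ} {kk la : Fin m → ℝ} {o τ : Fin m} {X : ℕ → St N D}
  {F : ∀ n, Fd N D m (X n).Ω} {E : ℕ} {η θ β js Γ : ℝ}
  {sl : ℕ → ℝ} {S : Finset (El la)} {C L : ℝ} {A : ∀ n, (X n).Ω → El la → El la → ℝ}

theorem FM.idx (h : FM kf kk la o τ S C L X F A) (q : Tq X E η θ β js Γ sl) (a : ℚ) {e : ℚ}
    (he : 0 < e) : FM kf kk la o τ S C L (fun n => (X n).idx sl js a e) F A :=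
  ⟨h.toMI.idx q a he, h.ha.idx q.big a he⟩

theorem FM.res (h : FM kf kk la o τ S C L X F A) {G : ∀ n, (X n).Ω → Prop} (g : Trf X kf G) :
    FM kf kk la o τ S C L (fun n => (X n).res (G n)) F A :=
  ⟨h.toMI.res G, h.ha.res ⟨g.top, g.fb⟩⟩

theorem FM.rg (h : FM kf kk la o τ S C L X F A) (q : Tq X E η θ β js Γ sl) (b : ℕ → ℝ) :
    FM kf kk la o τ S C L X (fun n => (F n).rg la (b n)) A := by
  have e : ∀ x, ∀ᶠ n in UF, ∀ v v', (pr kk la o τ (X n) (F n)).At x v v' →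
      (pr kk la o τ (X n) ((F n).rg la (b n))).co (eW la) x v v' =
        (pr kk la o τ (X n) (F n)).co (eW la) x v v' := fun x => by
    filter_upwards [h.toMI.pair x, h.uj] with n a c v v' z
    funext p
    simp only [PA.Pr.co, pr, Fd.rg, lb]
    rw [lg_sc _ (c v z.1) (a v z.1 v' z.2.1 z.2.2).1, ← mul_assoc, ← Real.exp_add]
    congr 3
    ring
  exact ⟨h.toMI.rg q b, ⟨h.ha.sh, h.ha.sb, h.ha.fn, fun x p T =>
    ((h.ha.inc x p T).and (e x)).mono fun n a v v' z => (a.2 v v' z).symm ▸ a.1 v v' z⟩,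
    fun x T ε hε => ((h.ha.ac x T ε hε).and (e x)).mono fun n a ω hω t ht l G l1 l2 l3 =>
      a.1 ω hω t ht l G l1 l2 fun v v' z => a.2 v v' z ▸ l3 v v' z⟩

theorem cls {K : (ℕ → St N D) → Prop} (hK : Cl0 kf E η θ β js Γ sl K) (F : ∀ n, Fd N D m (X n).Ω) :
    PA.F.Cls kf (eW la) (Pj kk la o τ K F) := by
  have : ∀ n, Nonempty (Sd N D (X n).Ω) := fun n => ⟨Sd.of (X n)⟩
  let T := fun n => PA.Pr (El la) (X n).Ω (Ln N × ℤ) × Sd N D (X n).Ω
  refine ⟨Cx.cf_ex (((hK.cf.comp (S' := T) fun _ z => z.2.st).and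
    (cf_mi (S := T) kk la o τ (fun _ z => z.2.st) fun n _ => F n)).and
    (cf_ev (S := T) fun n z => pr kk la o τ z.2.st (F n) = z.1)),
    fun Z a e e0 e1 ⟨Y, k, z⟩ => ⟨fun n => Sd.of ((Y n).st.idx sl js a e),
      ⟨hK.idx _ a e e0 e1 k.1, k.2.idx (hK.tq _ k.1) a e0⟩,
      z.mono fun n u => congrArg (PA.Pr.idx · a e) u⟩,
    fun Z G ⟨Y, k, z⟩ g => ⟨fun n => Sd.of ((Y n).st.res (G n)),
      ⟨hK.res (fun n => (Y n).st) G k.1 ⟨fun c hc => ?_, fun x c hc => ?_⟩, k.2.res G⟩,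
      z.mono fun n u => congrArg (PA.Pr.res · (G n)) u⟩,
    fun Z ⟨Y, k, z⟩ => (hK.tq _ k.1).big.congr' (z.mono fun n u => congrArg PA.Pr.M u),
    fun Z ⟨Y, k, z⟩ => ⟨(hK.two _ k.1).bk, (hK.two _ k.1).bU.congr'
      (z.mono fun n u => congrArg (fun y => PA.Pr.M y / kf n) u)⟩,
    fun Z ⟨Y, k, z⟩ a => ⟨fun ε hε => ?_, fun ε hε => ?_⟩, fun Z ⟨Y, k, z⟩ a a' e => ?_,
    fun Z ⟨Y, k, z⟩ x c hc => ?_⟩
  · filter_upwards [g.top c hc, z] with n u v
    simp only [dl, sU, PA.sM, ← v] at u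
    exact u
  · filter_upwards [g.fb x c hc, z] with n u v
    simp only [dl, sU, PA.sM, ← v] at u
    exact u
  · filter_upwards [(hK.tq _ k.1).lev 0 a hε, z] with n u v
    simp only [PA.sM, ← v, pr, lb]
    push_cast at u
    linarith [abs_le.1 u]
  · filter_upwards [(hK.tq _ k.1).lev 0 a hε, z] with n u v
    simp only [PA.sM, ← v, pr, lb]
    push_cast at u
    linarith [abs_le.1 u]
  · filter_upwards [(hK.tq _ k.1).nest e, z] with n u v
    simp only [PA.sP, PA.sO, ← v]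
    exact u
  · filter_upwards [k.2.box (hK.tq _ k.1).big x c hc, z] with n u v
    simp only [← v]
    exact u

/-- A closed class with a model has a member with the minimal subspace. -/
theorem sAB {K : (ℕ → St N D) → Prop} (hK : Cl0 kf E η θ β js Γ sl K) (k0 : K X)
    (h0 : MI kk la o τ X F) : ∃ (S : Finset (El la)) (C L : ℝ)
    (X : ℕ → St N D) (F : ∀ n, Fd N D m (X n).Ω) (A : ∀ n, (X n).Ω → El la → El la → ℝ),
    1 ≤ L ∧ K X ∧ FM kf kk la o τ S C L X F A ∧ ∀ n, (F n).b = (X n).lv 0 := by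
  obtain ⟨S, C, L, Z, A, -, hL, ⟨Y, k, z⟩, h⟩ := PA.F.pac _ _ _ kf (eW la) 0 _ _ _ _ _
    (fun b => sub_nonneg.2 b.2.le) (fun _ _ _ c => absurd rfl c) (cls hK F)
    ⟨fun n => Sd.of (X n), ⟨k0, h0⟩, .of_forall fun _ => rfl⟩ h0.start
  have f : FM kf kk la o τ S C L (fun n => (Y n).st) F A := ⟨k.2, Cx.cf_congr
    (cf_ha (S := fun n => PA.Pr (El la) (X n).Ω (Ln N × ℤ) × ((X n).Ω → El la → El la → ℝ)) kf
      (eW la) 0 S C L (fun _ z => z.1) fun _ z => z.2) (x := fun n => (Z n, A n))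
    (y := fun n => (pr kk la o τ (Y n).st (F n), A n)) (z.mono fun n u => by rw [u]) h⟩
  exact ⟨S, C, L, fun n => (Y n).st, _, A, hL, k.1, f.rg (hK.tq _ k.1) fun n => (Y n).lv 0, fun _ => rfl⟩

/-- The linear facts. -/
theorem sL1 (q : Tq X E η θ β js Γ sl) (hk : Big kf) (hL : 1 ≤ L)
    (h : FM kf kk la o τ S C L X F A) : L1 kk la o τ S C 0 X F A := by
  refine ⟨h.ha.sh.mono fun n a ω hω b => ?_, fun x => h.ha.fn x trivial,
    fun x => (h.toMI.pair x).mono fun n a ω v v' z => (a v z.1 v' z.2.1 z.eq).1,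
    fun x => (h.toMI.pair x).mono fun n a ω v v' z => (a v z.1 v' z.2.1 z.eq).2,
    fun x ε hε => (h.toMI.box q.big x ε hε).mono fun n a ω v v' z => a v v' z.at,
    fun x K => ((h.ha.inc x trivial K).and (h.ha.fn x trivial)).mono fun n a ω hω v v' z =>
      a.2 v z.1 ω hω z.2.2.1 ▸ a.1 v v' z.at,
    fun x T ε hε => .of_forall fun n ω hω t φ G b c d e => (pb_le_one _ _).trans
      (Real.one_le_exp (by rw [div_zero, sub_zero]; positivity)),
    fun x T ε hε => (h.ha.lin hk q.big hL x T ε hε).mono fun n a ω hω φ r b c d =>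
      a ω hω φ r b c fun v v' u z => d v v' ⟨u.1, u.2.1, z, u.2.2.symm.trans z⟩⟩
  have s := a ω hω
  refine ⟨(vec_pat (s.mem b)).1, vec_mem _, (vec_pat (s.mem b)).2, fun p r => ?_⟩
  rcases vec_or (PA.col (A n ω) b) p r with e | ⟨c, e⟩ <;> rw [lt, e]
  · exact ⟨abs_zero.trans_le ((abs_nonneg _).trans (s.bd b b)), fun c => absurd rfl c⟩
  · exact ⟨s.bd _ _, fun d => ⟨(s.gr _ _ d).1, (s.gr _ _ d).2.symm⟩⟩

/-- Every atom is spread in the height. -/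
theorem spread (h : Tsf X E η θ β js Γ kf sl) (x : ℚ) {ε : ℝ} (hε : 0 < ε) : ∀ᶠ n in UF,
    ∀ ω ∈ (X n).P.S, ∃ v ∈ (X n).P.S, (X n).O x v = (X n).O x ω ∧
      Real.exp (-(ε * (X n).u)) ≤ |2 ^ (X n).lv x * ((X n).g.z v - (X n).g.z ω)| := by
  obtain ⟨δ, d0, d1⟩ := exists_rat_btwn (half_pos hε)
  have l0 := lg_pos
  have l1 := lg_lt_one
  filter_upwards [h.br (x := x) (x' := x + δ) (lt_add_of_pos_right _ (by exact_mod_cast d0))
    (show (0 : ℝ) < 1 / 4 by norm_num), h.lev x (x + δ) (half_pos d0)] with n a b ω hω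
  have u0 : (0 : ℝ) ≤ (X n).u := Nat.cast_nonneg _
  push_cast at b
  obtain ⟨b1, b2⟩ := abs_le.1 b
  obtain ⟨v, hv, k, s⟩ := spread0 (k := 0) (P := (X n).P) (K := (X n).O x) (B := 1 / 4)
    (Y := fun ω => 2 ^ (X n).lv (x + δ) * (X n).g.z ω)
    ⟨fun _ => True, (pb_zero fun _ _ a => a trivial).le, fun v hv y => by
      rw [Function.iterate_zero_apply, sl_coeff]
      by_cases c : ∃ w ∈ (cv (X n).P ((X n).O x) ((X n).O x v)).S,
          ⌊2 ^ (X n).lv (x + δ) * (X n).g.z w⌋ = y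
      · obtain ⟨w, w1, w2⟩ := c
        obtain ⟨w3, w4⟩ := (MX.mem_cv hv w).1 w1
        refine le_trans ?_ (a w w3)
        rw [MX.cm, w4]
        exact pb_mono fun t ht e => Prod.ext
          ((congrArg Prod.fst ((MX.mem_cv hv t).1 ht).2).trans (congrArg Prod.fst w4).symm)
          (e.2.trans w2.symm)
      · exact (pb_zero fun w hw e => c ⟨w, hw, e.2⟩).trans_le (by norm_num)⟩ (by norm_num) hω
  refine ⟨v, hv, k, ?_⟩
  rw [← mul_sub, abs_mul, abs_of_pos (by positivity), two_exp] at s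
  rw [abs_mul, abs_of_pos (by positivity), two_exp]
  have e : lg * (((X n).lv (x + δ) : ℝ) - (X n).lv x) ≤ ε * (X n).u := by
    have : ((X n).lv (x + δ) : ℝ) - (X n).lv x ≤ 2 * δ * (X n).u := by nlinarith
    nlinarith [mul_nonneg d0.le u0]
  calc Real.exp (-(ε * (X n).u)) ≤ Real.exp (lg * (X n).lv x - lg * (X n).lv (x + δ)) * 1 := by
        rw [mul_one, Real.exp_le_exp]; linarith
    _ ≤ _ := by
        refine (mul_le_mul_of_nonneg_left s (Real.exp_pos _).le).trans_eq ?_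
        rw [← mul_assoc, ← Real.exp_add, sub_add_cancel]

/-- The height. -/
theorem sL2 (h : Tsf X E η θ β js Γ kf sl) (k : MI kk la o τ X F)
    (l : L1 kk la o τ S C L X F A) : L2 la o τ X F A := by
  refine ⟨tt h.toTq k l, fun ε hε => ?_⟩
  have e4 : 0 < ε / 4 := by positivity
  filter_upwards [spread h 0 e4, tt h.toTq k l 0 ε, l.box 0 _ e4, l.inc 0 ε,
    h.big.ev ((Fintype.card (El la) + 2) / (ε / 2))] with n a b c d u ω hω
  obtain ⟨v, hv, g, s⟩ := a ω hω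
  have g2 : Mt2 (X n) 0 ω ω v := ⟨hω, hv, rfl, g⟩
  have u0 : (0 : ℝ) ≤ (X n).u := Nat.cast_nonneg _
  by_contra z
  have z1 : ∀ a, |A n ω ⟨(τ, o), k.lt⟩ a| ≤ Real.exp (-(ε * (X n).u)) := fun a =>
    le_of_not_ge fun y => z ⟨a, y.trans_eq
      (congrArg _ (vec_eB (PA.col (A n ω) a) ⟨(τ, o), k.lt⟩).symm)⟩
  have w := vec_eB (co la (X n) (F n) 0 ω v) ⟨(τ, o), k.lt⟩
  have b1 := b ω ω v g2
  have d1 := d ω hω ω v g2 ⟨(τ, o), k.lt⟩
  simp only at w
  rw [w] at b1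
  have q : |∑ a, A n ω ⟨(τ, o), k.lt⟩ a * co la (X n) (F n) 0 ω v a| ≤
      Fintype.card (El la) * Real.exp (-(3 * ε / 4 * (X n).u)) := by
    refine (abs_sum_le_sum_abs _ _).trans ((sum_le_card_nsmul _ _ _ fun a _ => ?_).trans_eq
      (by rw [nsmul_eq_mul, card_univ]))
    rw [abs_mul]
    refine (mul_le_mul (z1 a) (c ω ω v g2 a) (abs_nonneg _) (Real.exp_pos _).le).trans_eq ?_
    rw [← Real.exp_add]; congr 1; ring
  have r : dl (uu X) ε n ≤ Real.exp (-(3 * ε / 4 * (X n).u)) :=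
    Real.exp_le_exp.2 (by show -(ε * ((X n).u : ℝ)) ≤ _; nlinarith)
  have t : Real.exp (-(ε / 4 * (X n).u)) =
      Real.exp (ε / 2 * (X n).u) * Real.exp (-(3 * ε / 4 * (X n).u)) := by
    rw [← Real.exp_add]; congr 1; ring
  rw [div_le_iff₀' (by positivity)] at u
  have y := Real.add_one_le_exp (ε / 2 * (X n).u)
  have p := Real.exp_pos (-(3 * ε / 4 * (X n).u))
  have f1 := abs_le.1 b1
  have f2 := abs_le.1 d1
  have f3 := abs_le.1 q
  have f4 : |2 ^ (X n).lv 0 * ((X n).g.z v - (X n).g.z ω)| ≤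
      (Fintype.card (El la) + 2) * Real.exp (-(3 * ε / 4 * (X n).u)) :=
    abs_le.2 ⟨by linarith, by linarith⟩
  have f5 := le_of_mul_le_mul_right (t ▸ s.trans f4) p
  have : (((X n).u : ℕ) : ℝ) = uu X n := rfl
  linarith

end Pool.Agent.MP_5168f5_an.QA.AB.F

namespace Pool.Agent.MP_5168f5_an.QA

open H19 H17S H17F R4 AN Filter AB

variable {N D : ℕ} (E : ℕ) (η θ β js Γ : ℝ) (kf : ℕ → ℕ) (sl : ℕ → ℝ)

/-- Tangent systems with sure fairness and sure bounds. -/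
def K0f (X : ℕ → St N D) : Prop := Tsf X E η θ β js Γ kf sl ∧ Sur X

theorem cl0f : AB.F.Cl0 (N := N) (D := D) kf E η θ β js Γ sl (K0f E η θ β js Γ kf sl) :=
  ⟨(cf_tsf E η θ β js Γ kf sl).and cf_sur,
    fun _ a _ e _ h => ⟨h.1.idx a e, h.2.idx h.1.big sl js a e⟩,
    fun _ G h g => ⟨h.1.res g, h.2.res G⟩, fun _ h => h.1.toTq, fun _ h => h.1.fa.toTwo⟩

variable {E η θ β js Γ kf sl} {X : ℕ → St N D}

/-- The entrance to the local part. -/
theorem T1f.ent (t : T1f X E η θ β js Γ kf sl)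
    (hZ : ZL N D) (hD : 1 ≤ D) (e0 : 0 < η) (e1 : η ≤ 1) (t0 : 0 ≤ θ)
    (t1 : 2 * (dV N D + 1) * θ ≤ η ^ dV N D) : ∃ G : ∀ n, (X n).Ω → Prop,
      K0f E η θ β js Γ kf sl fun n => (X n).res (G n) := by
  obtain ⟨G, a, b⟩ := sEntB sOpG CD.sNLV N D X η θ _ hZ hD e0 e1 t0 t1 t.toTq.tb
  obtain ⟨G', c1, -, c3, c4⟩ := t.sure a
  refine ⟨G', c4, b.pull (π := fun _ => id) ?_⟩
  filter_upwards [c3.mem, a.pos.ex] with n u v ω hω
  exact (mem_cE v ω).2 ⟨(u ω hω).1, c1 n ω (u ω hω).2⟩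

theorem K0f.ent (h : K0f E η θ β js Γ kf sl X) (hD : 1 ≤ D) :
    Fr.NR (PP X) (uu X) Bn (nuX X) (dV N D) (fun k n => (X n).s0 k) sl Γ ∧
      Fr.PT (PP X) (uu X) Bn (nuX X) (fun x n => (X n).O x) v1 (vx 0) (ptX X) (drX X)
        (fun n => 2 ^ (X n).lv 0) lg :=
  sEntA N D X η θ Γ sl hD h.1.toTq.tb h.1.toTq.lip h.2

/-- After a slow zoom the clusters are separated. -/
theorem K0f.nf (h : K0f E η θ β js Γ kf sl X) (hD : 1 ≤ D) : ∃ (X' : ℕ → St N D)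
    (kk : Fin (dV N D) → ℝ), K0f E η θ β js Γ kf sl X' ∧
    Fr.NF (PP X') (uu X') Bn (nuX X') (fun a n => (X' n).s0 (a + 1) - (X' n).s0 a) kk
      (fun a => sl (a + 1) - sl a) Γ := by
  obtain ⟨M₀, a, b⟩ := Fr.sDich (dV N D) (uu X) fun a n =>
    ((X n).idx sl js 0 1).s0 (a + 1) - ((X n).idx sl js 0 1).s0 a
  obtain ⟨e, -, c, d, f⟩ := slow (cl0f E η θ β js Γ kf sl).cf h.1.big 0
    (fun e u v => (cl0f E η θ β js Γ kf sl).idx X 0 e u v h) a
  obtain ⟨kk, k⟩ := Fr.sAx _ _ _ _ _ _ _ _ _ _ (c.ent hD).1 (b _ d f)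
  exact ⟨_, kk, c, k⟩

/-- A tangent system gives a member of the base class. -/
theorem T1f.toFM (t : T1f X E η θ β js Γ kf sl) (hZ : ZL N D)
    (hD : 1 ≤ D) (e0 : 0 < η) (e1 : η ≤ 1) (t0 : 0 ≤ θ)
    (t1 : 2 * (dV N D + 1) * θ ≤ η ^ dV N D) : ∃ (kk la : Fin (dV N D) → ℝ) (o τ : Fin (dV N D))
    (S : Finset (N2.El la)) (C L : ℝ) (X' : ℕ → St N D) (F : ∀ n, Fd N D (dV N D) (X' n).Ω)
    (A : ∀ n, (X' n).Ω → N2.El la → N2.El la → ℝ), (∀ a : Fin (dV N D), la a = sl (a + 1) - sl a) ∧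
      1 ≤ L ∧ K0f E η θ β js Γ kf sl X' ∧ AB.F.FM kf kk la o τ S C L X' F A ∧
      ∀ n, (F n).b = (X' n).lv 0 := by
  obtain ⟨G, a⟩ := t.ent hZ hD e0 e1 t0 t1
  obtain ⟨X', kk, c, d⟩ := K0f.nf a hD
  obtain ⟨o, τ, R, -, Z, TT, e, t₀, j, f, g⟩ := Fr.sMod _ _ _ _ _ _ _ _ _ _ _ _ _ _ _ _ _ _ _ d
    (c.ent hD).2
  obtain ⟨S, C, L, X'', F, A, k⟩ := AB.F.sAB
    (cl0f E η θ β js Γ kf sl) c
    (sMI N D _ E X' η θ β js Γ Γ R sl _ kk _ o τ Z TT e t₀ j hD c.1.toTq d g f)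
  exact ⟨kk, _, o, τ, S, C, L, X'', F, A, fun _ => rfl, k⟩

end Pool.Agent.MP_5168f5_an.QA
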