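import Pool.Agent.MP_4b405e_nt.SK.TanG
import Pool.Agent.MP_5168f5_an.H17F.KG
import Pool.Agent.MP_5168f5_an.H17F.KE

/-! Sparse heights: free contexts, change of context, the relative and its components. -/

namespace Pool.Agent.MP_5168f5_an.QA.Free

open H19 H17S H17F Finset

variable {Ω α β γ δ ζ η θ κ Λ : Type} {P : FP Ω}

theorem mi_eq (F : Ω → α) {G : Ω → β} {K : Ω → γ} (h : Fn P K G) :
    mi P F G K = ch P F K - ch P F G := by
  unfold mi
  rw [le_antisymm (ch_anti (P := P) (F := F) (Fn.fst G K)) (ch_anti ((Fn.rfl G).pair h))]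

theorem tel_real {φ : ℕ → ℝ} {B : ℝ} (h : ∀ i, 0 ≤ φ i ∧ φ i ≤ B) (n k : ℕ) :
    ∑ i ∈ range n, (φ i - φ (i + k)) ≤ k * B := by
  have := TanG.tel_nat (φ := fun i => φ i.toNat) (fun i => h _) n k
  simpa only [← Nat.cast_add, Int.toNat_natCast, mul_comm] using this

theorem nest {C : ℕ → Ω → β} (h : ∀ t, Fn P (C t) (C (t + 1))) {s t : ℕ} (e : s ≤ t) :
    Fn P (C s) (C t) := by
  induction e with
  | refl => exact Fn.rfl _
  | step _ ih => exact ih.trans (h _)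

/-- Telescoping along nested contexts, with steps of length `k`. -/
theorem tel (W : Ω → α) {C : ℕ → Ω → β} (h : ∀ t, Fn P (C t) (C (t + 1))) (n k : ℕ) :
    ∑ t ∈ range n, mi P W (C (t + k)) (C t) ≤ k * ch P W (C 0) := by
  simp only [fun t => mi_eq W (nest h (Nat.le_add_right t k))]
  exact tel_real (fun t => ⟨ch_nonneg _ _, ch_anti (nest h t.zero_le)⟩) n k

/-- Free contexts: the block `Z t` is read `k` steps further, the side variable `S t` is read
from one variable `W` and the context, up to `e`. -/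
theorem free (W : Ω → α) {C : ℕ → Ω → β} (h : ∀ t, Fn P (C t) (C (t + 1))) {n k : ℕ}
    {Z : ℕ → Ω → γ} {S : ℕ → Ω → δ} {e : ℝ} (hZ : ∀ t < n, Fn P (Z t) (C (t + k)))
    (hS : ∀ t < n, ch P (S t) (fun ω => (W ω, C t ω)) ≤ e) :
    ∑ t ∈ range n, mi P (Z t) (S t) (C t) ≤ k * ch P W (C 0) + n * e := by
  have k1 : ∀ t ∈ range n, mi P (Z t) (S t) (C t) ≤ mi P W (C (t + k)) (C t) + e := fun t ht => by
    have a := mi_near (P := P) (Z t) (S t) W (C t)
    have b := mi_mono (P := P) (F := W) (K := C t) ((hZ t (mem_range.1 ht)).left (C t))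
    have c := hS t (mem_range.1 ht)
    rw [mi_symm (Z t) W] at a
    linarith
  have k2 := sum_le_sum k1
  rw [sum_add_distrib, sum_const, card_range, nsmul_eq_mul] at k2
  linarith [tel W h n k]

/-- The same for cells along a path of depths that go down by `g` at each step; `J` is an extra
variable of the context. -/
theorem cells {F : (κ → ℝ) → Ω → Λ} {c : ℝ} (H : TanG.Cel P F c) (W : Ω → α) (J : Ω → β)
    {y : ℕ → κ → ℝ} {g h e : ℝ} (g0 : 0 < g) (h0 : 0 ≤ h) (hy : ∀ t b, y t b + g ≤ y (t + 1) b)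
    {n : ℕ} {S : ℕ → Ω → δ}
    (hS : ∀ t < n, ch P (S t) (fun ω => (W ω, J ω, F (fun b => y t b - h) ω)) ≤ e) :
    ∑ t ∈ range n, mi P (F fun b => y t b + h) (S t) (fun ω => (J ω, F (fun b => y t b - h) ω))
      ≤ (2 * h / g + 1) * ch P W (fun ω => (J ω, F (fun b => y 0 b - h) ω)) + n * e := by
  have u : ∀ k t b, y t b + k * g ≤ y (t + k) b := fun (k : ℕ) t b => by
    induction k with
    | zero => simp
    | succ k ih => have := hy (t + k) b; push_cast; rw [← add_assoc t]; linarith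
  have v : 2 * h ≤ (⌈2 * h / g⌉₊ : ℝ) * g := (div_le_iff₀ g0).1 (Nat.le_ceil _)
  refine (free W (C := fun t ω => (J ω, F (fun b => y t b - h) ω)) (k := ⌈2 * h / g⌉₊)
    (fun t => (Fn.fst _ _).pair ((H.mono _ _ fun b => by linarith [hy t b]).right _))
    (fun t _ => (H.mono _ _ fun b => by linarith [u ⌈2 * h / g⌉₊ t b]).right _) hS).trans ?_
  exact add_le_add (mul_le_mul_of_nonneg_right (Nat.ceil_lt_add_one (by positivity)).le
    (ch_nonneg _ _)) le_rfl

/-- Change of context. -/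
theorem ctx (A : Ω → α) (B : Ω → β) (K : Ω → γ) (K' : Ω → δ) :
    mi P A B K ≤ mi P A B K' + ch P K' K + ch P K K' := by
  have a := ch_tri' (P := P) A K K'
  have b := ch_tri' (P := P) A (fun ω => (B ω, K' ω)) fun ω => (B ω, K ω)
  have c : ch P (fun ω => (B ω, K ω)) (fun ω => (B ω, K' ω)) ≤ ch P K K' := by
    rw [ch_chain, ch_zero (Fn.fst _ _), zero_add]
    exact ch_anti ((Fn.snd _ _).right _)
  unfold mi
  linarith

/-- A side variable in the context costs its information. -/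
theorem side (A : Ω → α) (B : Ω → β) (T : Ω → γ) (K : Ω → δ) :
    mi P A B (fun ω => (T ω, K ω)) ≤ mi P A B K + mi P (fun ω => (A ω, B ω)) T K := by
  have a := mi_chain (P := P) A T B K
  have b := mi_chain (P := P) A B T K
  have c : mi P A (fun ω => (T ω, B ω)) K ≤ mi P A (fun ω => (B ω, T ω)) K :=
    mi_mono (((Fn.snd _ _).pair (Fn.fst _ _)).left _)
  have d := mi_chain (P := P) T B A K
  have e : mi P T (fun ω => (B ω, A ω)) K ≤ mi P T (fun ω => (A ω, B ω)) K :=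
    mi_mono (((Fn.snd _ _).pair (Fn.fst _ _)).left _)
  rw [mi_symm A T fun ω => (B ω, K ω)] at b
  rw [mi_symm _ T K]
  linarith [mi_nonneg (P := P) A T K, mi_nonneg (P := P) T B K]

/-- The relative: `σ` preserves the law, `T` is the side variable. -/
theorem rel {σ : Ω → Ω} (hσ : Law P σ P id) (A : Ω → α) (B : Ω → β) (B₀ : Ω → ζ) (T : Ω → γ)
    (K : Ω → δ) : mi P (fun ω => A (σ ω)) B₀ (fun ω => (T ω, K ω))
      ≤ mi P A B K + mi P (fun ω => (A ω, B ω)) T K + ch P T (fun ω => (T (σ ω), K (σ ω)))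
        + ch P (fun ω => K (σ ω)) (fun ω => (T ω, K ω)) + ch P K (fun ω => (T ω, K (σ ω)))
        + ch P B₀ fun ω => (B (σ ω), T ω, K ω) := by
  have a := mi_near (P := P) (fun ω => A (σ ω)) B₀ (fun ω => B (σ ω)) fun ω => (T ω, K ω)
  have b := ctx (P := P) (fun ω => A (σ ω)) (fun ω => B (σ ω)) (fun ω => (T ω, K ω))
    fun ω => (T ω, K (σ ω))
  have c := side (P := P) (fun ω => A (σ ω)) (fun ω => B (σ ω)) T fun ω => K (σ ω)
  have d := mi_near (P := P) (fun ω => (A (σ ω), B (σ ω))) T (fun ω => T (σ ω)) fun ω => K (σ ω)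
  have e : ch P (fun ω => (T ω, K (σ ω))) (fun ω => (T ω, K ω))
      ≤ ch P (fun ω => K (σ ω)) fun ω => (T ω, K ω) :=
    ch_mono (((Fn.fst _ _).right _).pair (Fn.fst _ _))
  have f : ch P (fun ω => (T ω, K ω)) (fun ω => (T ω, K (σ ω)))
      ≤ ch P K fun ω => (T ω, K (σ ω)) := ch_mono (((Fn.fst _ _).right _).pair (Fn.fst _ _))
  rw [hσ.mi_id A B K] at c
  rw [hσ.mi_id (fun ω => (A ω, B ω)) T K] at d
  linarith

/-- One component of the noise: `A'` is `A` with the whole noise, read from `B₁, B₂`, and `A₁` is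
`A` with the part of the noise read from `B₁`. -/
theorem comp (A : Ω → α) (A' : Ω → β) (A₁ : Ω → γ) (B₁ : Ω → δ) (B₂ : Ω → ζ) (T : Ω → η) :
    mi P A₁ B₁ T ≤ mi P A' (fun ω => (B₁ ω, B₂ ω)) T + mi P (fun ω => (A ω, B₁ ω)) B₂ T
      + ch P A₁ (fun ω => ((A ω, B₁ ω), T ω)) + ch P A₁ (fun ω => (A' ω, B₂ ω, T ω))
      + ch P A' (fun ω => (A ω, (B₁ ω, B₂ ω), T ω)) + ch P A fun ω => (A₁ ω, B₁ ω, T ω) := by
  have a := mi_near (P := P) B₂ A₁ (fun ω => (A ω, B₁ ω)) T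
  have b := ch_tri (P := P) A₁ A' fun ω => (B₂ ω, T ω)
  have c : ch P A' (fun ω => (B₂ ω, T ω)) ≤ ch P A' T := ch_anti (Fn.snd _ _)
  have d := ch_tri (P := P) A' A fun ω => ((B₁ ω, B₂ ω), T ω)
  have e : ch P A (fun ω => ((B₁ ω, B₂ ω), T ω)) ≤ ch P A fun ω => (B₁ ω, T ω) :=
    ch_anti (((Fn.fst _ _).left _).pair (Fn.snd _ _))
  have f := ch_tri (P := P) A A₁ fun ω => (B₁ ω, T ω)
  rw [mi_symm B₂, mi_symm B₂] at a
  unfold mi at *
  linarith

/-- A point where all of finitely many averages are small. -/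
theorem pick {X I : Type} {G : Finset X} (hG : G.Nonempty) (s : Finset I) {f : I → X → ℝ}
    {B : I → ℝ} (f0 : ∀ i ∈ s, ∀ x ∈ G, 0 ≤ f i x)
    (h : ∀ i ∈ s, ∑ x ∈ G, f i x ≤ B i * G.card) : ∃ x ∈ G, ∀ i ∈ s, f i x ≤ ∑ i ∈ s, B i := by
  obtain ⟨x, hx, e⟩ := exists_le_of_sum_le (f := fun x => ∑ i ∈ s, f i x)
    (g := fun _ => ∑ i ∈ s, B i) hG (by
      rw [sum_comm, sum_const, nsmul_eq_mul, mul_comm, sum_mul]; exact sum_le_sum h)
  exact ⟨x, hx, fun i hi => (single_le_sum (fun i hi => f0 i hi x hx) hi).trans e⟩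

/-! ### Labels that are nested only up to a small entropy -/

theorem mi_le_sub (W : Ω → α) (X' : Ω → β) (X : Ω → γ) :
    mi P W X' X ≤ ch P W X - ch P W X' + ch P X X' := by
  have a := ch_tri' (P := P) W X' fun ω => (X' ω, X ω)
  have b : ch P (fun ω => (X' ω, X ω)) X' ≤ ch P X X' :=
    ch_mono ((Fn.snd _ _).pair (Fn.fst _ _))
  unfold mi
  linarith

theorem telA (W : Ω → α) (X : ℕ → Ω → β) {n k : ℕ} {B v : ℝ} (hB : ∀ t, ch P W (X t) ≤ B)
    (hv : ∀ t < n, ch P (X t) (X (t + k)) ≤ v) :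
    ∑ t ∈ range n, mi P W (X (t + k)) (X t) ≤ k * B + n * v := by
  have k1 := sum_le_sum fun t (ht : t ∈ range n) =>
    (mi_le_sub (P := P) W (X (t + k)) (X t)).trans (add_le_add le_rfl (hv t (mem_range.1 ht)))
  rw [sum_add_distrib, sum_const, card_range, nsmul_eq_mul] at k1
  linarith [tel_real (φ := fun t => ch P W (X t)) (fun t => ⟨ch_nonneg _ _, hB t⟩) n k]

theorem sumA (X : ℕ → Ω → β) (G : Ω → γ) {n k : ℕ} {B v : ℝ} (hB : ∀ t, ch P (X t) G ≤ B)
    (hv : ∀ t < n, ch P (X t) (fun ω => (X (t + k) ω, G ω)) ≤ v) :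
    ∑ t ∈ range n, ch P (X (t + k)) (fun ω => (X t ω, G ω)) ≤ k * B + n * v := by
  have k0 : ∀ t ∈ range n, ch P (X (t + k)) (fun ω => (X t ω, G ω))
      ≤ (B - ch P (X t) G - (B - ch P (X (t + k)) G)) + v := fun t ht => by
    linarith [ch_symm (P := P) (X (t + k)) (X t) G, hv t (mem_range.1 ht)]
  have k1 := sum_le_sum k0
  rw [sum_add_distrib, sum_const, card_range, nsmul_eq_mul] at k1
  linarith [tel_real (φ := fun t => B - ch P (X t) G)
    (fun t => ⟨sub_nonneg.2 (hB t), sub_le_self _ (ch_nonneg _ _)⟩) n k]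

/-- One step, no bound on the labels. -/
theorem sumA1 (X : ℕ → Ω → β) (G : Ω → γ) {n : ℕ} {v : ℝ}
    (hv : ∀ t < n, ch P (X t) (fun ω => (X (t + 1) ω, G ω)) ≤ v) :
    ∑ t ∈ range n, ch P (X (t + 1)) (fun ω => (X t ω, G ω))
      ≤ ch P (X n) G - ch P (X 0) G + n * v := by
  have k0 : ∀ t ∈ range n, ch P (X (t + 1)) (fun ω => (X t ω, G ω))
      ≤ (ch P (X (t + 1)) G - ch P (X t) G) + v := fun t ht => by
    linarith [ch_symm (P := P) (X (t + 1)) (X t) G, hv t (mem_range.1 ht)]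
  have k1 := sum_le_sum k0
  rwa [sum_add_distrib, sum_const, card_range, nsmul_eq_mul,
    sum_range_sub fun t => ch P (X t) G] at k1

/-- The context `K` and the block `Z` lie between the plain labels `X` and `X'`. -/
theorem sand (Z : Ω → α) (S : Ω → β) (K : Ω → γ) (X : Ω → δ) (X' : Ω → ζ) :
    mi P Z S K ≤ mi P S X' X + ch P X K + ch P (fun ω => (Z ω, K ω)) X' := by
  have a := ch_tri' (P := P) S K X
  have b := ch_tri' (P := P) S X' fun ω => (Z ω, K ω)
  have c : ch P S (fun ω => (X' ω, X ω)) ≤ ch P S X' := ch_anti (Fn.fst _ _)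
  rw [mi_symm]
  unfold mi
  linarith

/-! ### Parameters inside the context, restriction, coupling -/

theorem law_cv {X : Type} (Q : FP X) (k : X → FP Ω) {x : X} (hx : x ∈ Q.S) :
    Law (cv (bind Q k) Prod.fst x) Prod.snd (k x) id := fun G => by
  classical
  have h1 : pb (bind Q k) (fun v => v.1 = x) = pb Q fun a => a = x :=
    Law.pb_eq (f := Prod.fst) (g := id) (fun F => KGA.E_bind_fst Q k F) fun a => a = x
  refine mul_left_cancel₀ (pb_pos Q (E := fun a => a = x) ⟨x, hx, rfl⟩).ne' ?_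
  have h2 := E_cE (bind Q k) (fun v => v.1 = x) fun v => G v.2
  rw [h1, E_bind] at h2
  refine h2.trans ?_
  rw [mul_comm, pb, ← FP.E_mul]
  refine Q.E_congr fun a _ => ?_
  by_cases e : a = x
  · simp only [e, if_true, mul_one]; rfl
  · simp only [e, if_false, mul_zero]; exact FP.E_const _ 0

theorem ch_par {X : Type} (Q : FP X) (k : X → FP Ω) (F : X → Ω → α) (G : X → Ω → β) :
    ch (bind Q k) (fun v => F v.1 v.2) (fun v => (G v.1 v.2, v.1))
      = Q.E fun x => ch (k x) (F x) (G x) := by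
  rw [KEA.ent (bind Q k) Prod.fst (fun x v => F x v.2) fun x v => G x v.2]
  refine (KGA.E_bind_fst Q k fun x => ch (cv (bind Q k) Prod.fst x) (fun v => F x v.2)
    fun v => G x v.2).trans (Q.E_congr fun x hx => (law_cv Q k hx).ch_id _ _)

theorem mi_par {X : Type} (Q : FP X) (k : X → FP Ω) (F : X → Ω → α) (G : X → Ω → β)
    (K : X → Ω → γ) : mi (bind Q k) (fun v => F v.1 v.2) (fun v => G v.1 v.2)
      (fun v => (K v.1 v.2, v.1)) = Q.E fun x => mi (k x) (F x) (G x) (K x) := by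
  unfold mi
  rw [Q.E_sub, ← ch_par, ← ch_par Q k F fun x ω => (G x ω, K x ω)]
  congr 1
  exact le_antisymm
    (ch_anti fun a _ b _ e => by simp only [Prod.mk.injEq] at e ⊢; tauto)
    (ch_anti fun a _ b _ e => by simp only [Prod.mk.injEq] at e ⊢; tauto)

/-- The variable `t` has the law `Q` and is independent of `Y`. -/
def Ind {X Υ : Type} (P : FP Ω) (Q : FP X) (t : Ω → X) (Y : Ω → Υ) : Prop :=
  Law P (fun ω => (t ω, Y ω)) (prod Q P) fun v => (v.1, Y v.2)

theorem Ind.ch {X Υ : Type} {Q : FP X} {t : Ω → X} {Y : Ω → Υ} (h : Ind P Q t Y)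
    (F : X → Υ → α) (G : X → Υ → β) :
    ch P (fun ω => F (t ω) (Y ω)) (fun ω => (G (t ω) (Y ω), t ω))
      = Q.E fun x => ch P (fun ω => F x (Y ω)) fun ω => G x (Y ω) :=
  (Law.ch_eq h (fun v => F v.1 v.2) fun v => (G v.1 v.2, v.1)).trans
    (ch_par Q (fun _ => P) (fun x ω => F x (Y ω)) fun x ω => G x (Y ω))

theorem Ind.mi {X Υ : Type} {Q : FP X} {t : Ω → X} {Y : Ω → Υ} (h : Ind P Q t Y)
    (F : X → Υ → α) (G : X → Υ → β) (K : X → Υ → γ) :
    mi P (fun ω => F (t ω) (Y ω)) (fun ω => G (t ω) (Y ω)) (fun ω => (K (t ω) (Y ω), t ω))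
      = Q.E fun x => mi P (fun ω => F x (Y ω)) (fun ω => G x (Y ω)) fun ω => K x (Y ω) := by
  rw [← mi_par Q (fun _ => P) (fun x ω => F x (Y ω)) (fun x ω => G x (Y ω)) fun x ω => K x (Y ω)]
  unfold H17F.mi
  rw [Law.ch_eq h (fun v => F v.1 v.2) fun v => (K v.1 v.2, v.1),
    Law.ch_eq h (fun v => F v.1 v.2) fun v => (G v.1 v.2, K v.1 v.2, v.1)]
  rfl

/-- A uniform step `t` inside the context: the side variable `W` is free. -/
theorem Ind.free {Υ : Type} {n : ℕ} (hn : (range n).Nonempty) {t : Ω → ℕ} {Y : Ω → Υ}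
    (h : Ind P (FP.unif (range n) hn) t Y) (W : Υ → α) (X : ℕ → Υ → β) {k : ℕ} {B v : ℝ}
    (hB : ∀ s, H17S.ch P (fun ω => W (Y ω)) (fun ω => X s (Y ω)) ≤ B)
    (hv : ∀ s < n, H17S.ch P (fun ω => X s (Y ω)) (fun ω => X (s + k) (Y ω)) ≤ v) :
    H17F.mi P (fun ω => W (Y ω)) (fun ω => X (t ω + k) (Y ω)) (fun ω => (X (t ω) (Y ω), t ω))
      ≤ k * B / n + v := by
  have n0 : (0 : ℝ) < n := by exact_mod_cast Nat.pos_of_ne_zero (nonempty_range_iff.1 hn)
  rw [h.mi (fun _ => W) (fun s => X (s + k)) X, FP.E_unif, avg, card_range, div_le_iff₀ n0,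
    add_mul, div_mul_cancel₀ _ n0.ne', mul_comm v]
  exact telA (fun ω => W (Y ω)) (fun s ω => X s (Y ω)) hB hv

theorem mi_res (P : FP Ω) (E : Ω → Prop) (F : Ω → α) (G : Ω → β) (K : Ω → γ) :
    pb P E * mi (cE P E) F G K ≤ mi P F G K + lg := by
  have h1 := KEA.ge P E F K
  have h2 := KEA.le P E F fun ω => (G ω, K ω)
  have h3 := mul_nonneg (sub_nonneg.2 (pb_le_one P E))
    (mi_nonneg (P := cE P fun ω => ¬E ω) F G K)
  unfold mi at h3 ⊢
  linarith

/-- Two pairs that agree off the event `E`. -/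
theorem ch_off (E : Ω → Prop) {F F' : Ω → α} {G G' : Ω → β} {B : ℝ}
    (h : ∀ ω ∈ P.S, ¬E ω → F ω = F' ω ∧ G ω = G' ω) (hB : ch (cE P E) F G ≤ B) :
    ch P F G ≤ ch P F' G' + lg + pb P E * B := by
  have h1 := KEA.le P E F G
  have h2 := KEA.ge P E F' G'
  have h3 := mul_le_mul_of_nonneg_left hB (pb_nonneg P E)
  have h4 := mul_nonneg (pb_nonneg P E) (ch_nonneg (P := cE P E) F' G')
  have h5 : (1 - pb P E) * ch (cE P fun ω => ¬E ω) F G
      = (1 - pb P E) * ch (cE P fun ω => ¬E ω) F' G' := by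
    by_cases e : ∃ ω ∈ P.S, ¬E ω
    · have m := fun ω hω => h ω ((mem_cE e ω).1 hω).1 ((mem_cE e ω).1 hω).2
      rw [ch_ext (fun ω hω => (m ω hω).1) fun ω hω => (m ω hω).2]
    · rw [← pb_not, pb_zero fun ω hω k => e ⟨ω, hω, k⟩, zero_mul, zero_mul]
  linarith

theorem mi_off (E : Ω → Prop) {F F' : Ω → α} {G G' : Ω → β} {K K' : Ω → γ} {B : ℝ}
    (h : ∀ ω ∈ P.S, ¬E ω → F ω = F' ω ∧ G ω = G' ω ∧ K ω = K' ω) (hB : ch (cE P E) F K ≤ B)
    (hB' : ch (cE P E) F' K' ≤ B) : mi P F G K ≤ mi P F' G' K' + 2 * lg + 2 * (pb P E * B) := by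
  have h1 := ch_off E (fun ω a b => ⟨(h ω a b).1, (h ω a b).2.2⟩) hB
  have h2 := ch_off E (F := F') (F' := F) (G := fun ω => (G' ω, K' ω))
    (G' := fun ω => (G ω, K ω)) (fun ω a b => ⟨(h ω a b).1.symm, by
      rw [(h ω a b).2.1, (h ω a b).2.2]⟩) ((ch_anti (Fn.snd _ _)).trans hB')
  unfold mi
  linarith

end Pool.Agent.MP_5168f5_an.QA.Free
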