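import Pool.Agent.MP_4b405e_nt.SK.FDef
import Pool.Agent.MP_4b405e_nt.SK.Free
import Pool.Agent.MP_5168f5_an.H17F.Sq2

/-! The budgets of the block system from the primitive budgets of a point and of its relative. -/

namespace Pool.Agent.MP_4b405e_nt.FB

open Pool.Agent.MP_5168f5_an H19 H17S H17F QA Real Matrix Finset

variable {α ν : Type} [Fintype α] [Fintype ν]

namespace Bc

variable (σ : Bc α ν)

open Classical in
/-- The coordinates of the lower classes. -/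
noncomputable def low (r : ℝ) (x : ν → ℝ) : ν → ℝ := fun p => if σ.cl p < r then x p else 0

open Classical in
/-- The coordinates of the class `r` and of the higher classes. -/
noncomputable def high (r : ℝ) (x : ν → ℝ) : ν → ℝ := fun p => if σ.cl p < r then 0 else x p

variable {σ}

omit [Fintype α] [Fintype ν] in
theorem Ok.wt_nonneg (h : σ.Ok) (p : ν) : 0 ≤ σ.wt p := by
  by_cases e : p = σ.o
  · rw [e, h.wo]
  · exact (h.wt0 p e).le

omit [Fintype α] [Fintype ν] in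
theorem Ok.cl_lt (h : σ.Ok) {p q : ν} (a : σ.wt q < σ.wt p) (b : q ≠ σ.o → σ.w p = σ.w q) :
    σ.cl q < σ.cl p := by
  unfold cl
  by_cases e : q = σ.o
  · rw [e, h.wo] at a ⊢
    rw [zero_div]
    exact div_pos a (h.w0 p)
  · rw [b e]
    exact div_lt_div_of_pos_right a (h.w0 q)

omit [Fintype α] in
theorem ex_next (σ : Bc α ν) (r : ℝ) : ∃ r', ∀ p, σ.cl p < r' ↔ σ.cl p ≤ r := by
  have e1 : ∀ᶠ g in nhdsWithin r (Set.Ioi r), ∀ p, σ.cl p < g ↔ σ.cl p ≤ r := by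
    refine Filter.eventually_all.2 fun p => ?_
    by_cases u : σ.cl p ≤ r
    · filter_upwards [self_mem_nhdsWithin] with g hg using iff_of_true (u.trans_lt hg) u
    · filter_upwards [Ioo_mem_nhdsGT (not_le.1 u)] with g hg using iff_of_false hg.2.not_gt u
  exact e1.exists

variable {Ω Λ : Type} {P : FP Ω} {Z : Ω → ν → ℝ} {K : Ω → Λ} {e : ℝ}

omit [Fintype α] in
/-- One class against the others, from the cuts. -/
theorem cut_oth (h : ∀ r, mi P (fun ω => σ.low r (Z ω)) (fun ω => σ.high r (Z ω)) K ≤ e) (r : ℝ) :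
    mi P (fun ω => σ.blk r (Z ω)) (fun ω => σ.oth r (Z ω)) K ≤ 2 * e := by
  obtain ⟨r', hr⟩ := σ.ex_next r
  have a : mi P (fun ω => σ.blk r (Z ω)) (fun ω => σ.oth r (Z ω)) K ≤ mi P
      (fun ω => σ.blk r (Z ω)) (fun ω => (σ.low r (Z ω), σ.high r' (Z ω))) K :=
    mi_mono (Fn.left (fun a _ b _ k => funext fun p => by
      have k1 := congrFun (congrArg Prod.fst k) p
      have k2 := congrFun (congrArg Prod.snd k) p
      have := hr p
      simp only [low, high, oth] at k1 k2 ⊢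
      grind) _)
  have b : mi P (fun ω => σ.blk r (Z ω)) (fun ω => σ.low r (Z ω)) K ≤ mi P
      (fun ω => σ.high r (Z ω)) (fun ω => σ.low r (Z ω)) K :=
    mi_mono' (Fn.left (fun a _ b _ k => funext fun p => by
      have k1 := congrFun k p
      simp only [high, blk] at k1 ⊢
      grind) _)
  have c : mi P (fun ω => σ.blk r (Z ω)) (fun ω => σ.high r' (Z ω))
      (fun ω => (σ.low r (Z ω), K ω)) ≤ mi P (fun ω => σ.low r' (Z ω))
        (fun ω => σ.high r' (Z ω)) K :=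
    mi_left (Fn.snd _ _) ((Fn.left (fun a _ b _ k => funext fun p => by
      have k1 := congrFun k p
      have := hr p
      simp only [low] at k1 ⊢
      grind) _).pair (Fn.snd _ _)) (Fn.left (fun a _ b _ k => funext fun p => by
      have k1 := congrFun k p
      have := hr p
      simp only [low, blk] at k1 ⊢
      grind) _)
  rw [mi_chain] at a
  rw [mi_symm fun ω => σ.high r (Z ω)] at b
  linarith [h r, h r']

end Bc

namespace Bd

variable (σ : Bc α ν) (X : Bd α ν)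

/-- The primitive budgets of a block `Z` with its context `K`. -/
structure Pr {Λ : Type} (K : X.Ω → Λ) (Z : X.Ω → ν → ℝ) (e : ℝ) : Prop where
  t : ∀ r, mi X.P (fun ω => σ.blk r (Z ω)) (fun ω => σ.oth r (Z ω)) K ≤ e
  f1 : mi X.P Z (fun ω => (X.θ σ ω, X.v ω)) K ≤ e
  f2 : mi X.P (fun ω => (Z ω, X.θ σ ω, X.v ω)) X.b (fun ω => (K ω, X.j ω)) ≤ e
  hj : hh X.P X.j ≤ e

/-- The grading, the grid and the measurability clauses. -/
structure Gr : Prop where
  ok : σ.Ok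
  zo : ∀ ω ∈ X.P.S, X.Z ω σ.o = 1
  zg : ∀ ω ∈ X.P.S, ∀ p, ∃ k : ℤ, 2 ^ X.u * X.Z ω p = k
  gr : ∀ ω ∈ X.P.S, ∀ a p q, X.ρ ω a p q ≠ 0 →
    σ.wt p = σ.wt q + σ.et a ∧ (q ≠ σ.o → σ.w p = σ.w q)
  gW : ∀ ω ∈ X.P.S, ∀ p q, X.W ω p q ≠ 0 → σ.wt q < σ.wt p ∧ (q ≠ σ.o → σ.w p = σ.w q)
  fρ : ∀ a p q, q ≠ σ.o → Fn X.P (fun ω => X.ρ ω a p q) fun ω => (X.K ω, X.v ω)
  fW' : Fn X.P X.W fun ω => (X.K ω, X.T ω, X.θ σ ω)

/-- The relative: its context `K'`, its block `Z'`, the shift `c₀`. -/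
structure Rl {Λ : Type} (K' : X.Ω → Λ) (Z' c₀ : X.Ω → ν → ℝ) (e : ℝ) : Prop where
  fc : Fn X.P c₀ fun ω => (K' ω, X.K ω, X.T ω)
  cl : ∀ ω ∈ X.P.S, ∀ p, p ≠ σ.o → |Z' ω p - (X.Z ω + X.N ω) p - c₀ ω p| ≤ exp e / 2 ^ X.u
  kk : ch X.P K' (fun ω => (X.K ω, X.T ω)) ≤ e
  kk' : ch X.P X.K (fun ω => (K' ω, X.T ω)) ≤ e
  pr : X.Pr σ K' Z' e

variable {σ X} {Λ : Type} {K : X.Ω → Λ} {Z c₀ : X.Ω → ν → ℝ} {e : ℝ}

omit [Fintype α] [Fintype ν] in
theorem Pr.two (h : X.Pr σ K Z e) (r : ℝ) : mi X.P (fun ω => σ.blk r (Z ω))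
    (fun ω => (σ.oth r (Z ω), X.θ σ ω, X.T ω)) K ≤ 4 * e := by
  have a : mi X.P (fun ω => σ.blk r (Z ω)) (fun ω => (X.θ σ ω, X.T ω))
      (fun ω => (σ.oth r (Z ω), K ω)) ≤ mi X.P Z (fun ω => (X.θ σ ω, X.T ω)) K :=
    mi_left (Fn.snd _ _) (((Fn.comp _ Z).left _).pair (Fn.snd _ _)) ((Fn.comp _ Z).left _)
  have b : mi X.P Z (fun ω => (X.θ σ ω, X.T ω)) K
      ≤ mi X.P Z (fun ω => ((X.θ σ ω, X.v ω), X.j ω, X.b ω)) K :=
    mi_mono fun a _ b _ k => by simp only [T, Prod.mk.injEq] at k ⊢; tauto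
  have c : mi X.P Z X.j (fun ω => ((X.θ σ ω, X.v ω), K ω)) ≤ e := by
    rw [mi_symm]; exact (mi_le _ _ _).trans ((ch_le_hh _ _).trans h.hj)
  have d : mi X.P Z X.b (fun ω => (X.j ω, (X.θ σ ω, X.v ω), K ω))
      ≤ mi X.P (fun ω => (Z ω, X.θ σ ω, X.v ω)) X.b fun ω => (K ω, X.j ω) :=
    mi_left (fun a _ b _ k => by simp only [Prod.mk.injEq] at k ⊢; tauto)
      (fun a _ b _ k => by simp only [Prod.mk.injEq] at k ⊢; tauto)
      fun a _ b _ k => by simp only [Prod.mk.injEq] at k ⊢; tauto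
  rw [mi_chain Z fun ω => (X.θ σ ω, X.v ω), mi_chain Z X.j X.b] at b
  rw [mi_chain]
  linarith [h.t r, h.f1, h.f2]

omit [Fintype α] [Fintype ν] in
theorem Pr.three (h : X.Pr σ K Z e) :
    mi X.P (X.θ σ) (fun ω => (Z ω, X.b ω, X.j ω)) (fun ω => (K ω, X.v ω)) ≤ 3 * e := by
  have b : mi X.P (X.θ σ) (fun ω => (Z ω, X.b ω, X.j ω)) (fun ω => (K ω, X.v ω))
      ≤ mi X.P (X.θ σ) (fun ω => (Z ω, X.j ω, X.b ω)) fun ω => (K ω, X.v ω) :=
    mi_mono fun a _ b _ k => by simp only [Prod.mk.injEq] at k ⊢; tauto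
  have a : mi X.P (X.θ σ) Z (fun ω => (K ω, X.v ω)) ≤ mi X.P (fun ω => (X.θ σ ω, X.v ω)) Z K :=
    mi_left (Fn.fst _ _) (fun a _ b _ k => by simp only [Prod.mk.injEq] at k ⊢; tauto)
      fun a _ b _ k => by simp only [Prod.mk.injEq] at k ⊢; tauto
  have c : mi X.P (X.θ σ) X.j (fun ω => (Z ω, K ω, X.v ω)) ≤ e := by
    rw [mi_symm]; exact (mi_le _ _ _).trans ((ch_le_hh _ _).trans h.hj)
  have d : mi X.P (X.θ σ) X.b (fun ω => (X.j ω, Z ω, K ω, X.v ω))
      ≤ mi X.P (fun ω => (Z ω, X.θ σ ω, X.v ω)) X.b fun ω => (K ω, X.j ω) :=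
    mi_left (fun a _ b _ k => by simp only [Prod.mk.injEq] at k ⊢; tauto)
      (fun a _ b _ k => by simp only [Prod.mk.injEq] at k ⊢; tauto)
      fun a _ b _ k => by simp only [Prod.mk.injEq] at k ⊢; tauto
  rw [mi_chain _ Z fun ω => (X.j ω, X.b ω), mi_chain _ X.j X.b] at b
  rw [mi_symm _ Z K] at a
  linarith [h.f1, h.f2]

theorem Gr.tri (h : X.Gr σ) {ω : X.Ω} (hω : ω ∈ X.P.S) {p q : ν}
    (k : (X.R ω * X.W ω - X.R ω) p q ≠ 0) : σ.cl q < σ.cl p := by
  have r : ∀ s, X.R ω p s ≠ 0 → σ.wt s < σ.wt p ∧ (s ≠ σ.o → σ.w p = σ.w s) := fun s m => by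
    rw [R, Matrix.sum_apply] at m
    obtain ⟨a, -, m⟩ := exists_ne_zero_of_sum_ne_zero m
    have := h.gr ω hω a p s (right_ne_zero_of_mul m)
    exact ⟨by linarith [this.1, h.ok.et0 a], this.2⟩
  by_cases m : X.R ω p q = 0
  · rw [Matrix.sub_apply, m, sub_zero, Matrix.mul_apply] at k
    obtain ⟨s, -, k⟩ := exists_ne_zero_of_sum_ne_zero k
    have k1 := r s (left_ne_zero_of_mul k)
    have k2 := h.gW ω hω s q (right_ne_zero_of_mul k)
    refine h.ok.cl_lt (k2.1.trans k1.1) fun n => (k1.2 fun m => ?_).trans (k2.2 n)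
    rw [m, h.ok.wo] at k2
    linarith [k2.1, h.ok.wt_nonneg q]
  · exact h.ok.cl_lt (r q m).1 (r q m).2

/-- The noise of a class is read from the lower classes. -/
theorem Gr.fnN (h : X.Gr σ) (r : ℝ) : Fn X.P (fun ω => σ.blk r (X.N ω))
    fun ω => (σ.low r (X.Z ω), X.θ σ ω, X.K ω, X.T ω) := by
  intro a ha b hb k
  simp only [Prod.mk.injEq] at k
  obtain ⟨k1, k2, k3, k4⟩ := k
  have k5 := k4
  simp only [T, Prod.mk.injEq] at k5
  have e1 : X.R a = X.R b := by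
    unfold R
    refine sum_congr rfl fun i _ => ?_
    rw [k5.2.1]
    congr 1
    ext p q
    by_cases m : q = σ.o
    · rw [m]; exact congrFun (congrFun k2 i) p
    · exact h.fρ i p q m a ha b hb (Prod.ext k3 k5.1)
  have e2 : X.W a = X.W b := h.fW' a ha b hb (Prod.ext k3 (Prod.ext k4 k2))
  funext p
  simp only [Bc.blk]
  split_ifs with c
  · simp only [N, mulVec, dotProduct]
    refine sum_congr rfl fun q _ => ?_
    rw [← e1, ← e2]
    by_cases m : (X.R a * X.W a - X.R a) p q = 0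
    · rw [m, zero_mul, zero_mul]
    · have := congrFun k1 q
      simp only [Bc.low, if_pos (c ▸ h.tri ha m)] at this
      rw [this]
  · rfl

theorem lst {Ω β : Type} {P : FP Ω} {x : Ω → ν → ℝ} {G : Ω → β} {u : ℕ} (e1 : 1 ≤ e)
    (h : ∀ a ∈ P.S, ∀ b ∈ P.S, G a = G b → ∀ p, |x a p - x b p| ≤ 2 * exp e / 2 ^ u) :
    ch P (fun ω => flv u (x ω)) G ≤ Fintype.card ν * (4 * e) := by
  refine (ch_near (L := 2 * exp e) (by positivity) fun a ha b hb k =>
    (pi_norm_le_iff_of_nonneg (by positivity)).2 (h a ha b hb k)).trans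
    (mul_le_mul_of_nonneg_left ?_ (Nat.cast_nonneg _))
  rw [log_le_iff_le_exp (by positivity), show 4 * e = e + e + (e + e) by ring, exp_add, exp_add]
  have := add_one_le_exp e
  have : 2 * exp e ≤ exp e * exp e := by nlinarith
  nlinarith

variable {K' : X.Ω → Λ} {Z' : X.Ω → ν → ℝ}

theorem Gr.No (h : X.Gr σ) {ω : X.Ω} (hω : ω ∈ X.P.S) : X.N ω σ.o = 0 := by
  refine sum_eq_zero fun q _ => mul_eq_zero_of_left (by_contra fun k => ?_) _
  have := h.tri hω k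
  rw [Bc.cl, Bc.cl, h.ok.wo, zero_div] at this
  exact this.not_ge (div_nonneg (h.ok.wt_nonneg q) (h.ok.w0 q).le)

theorem Rl.l1 (k : X.Rl σ K' Z' c₀ e) (h : X.Gr σ) (e1 : 1 ≤ e) (r : ℝ) :
    ch X.P (fun ω => flv X.u (σ.blk r (X.Z ω + X.N ω)))
      (fun ω => (σ.blk r (Z' ω), K' ω, X.K ω, X.T ω)) ≤ Fintype.card ν * (4 * e) := by
  refine lst e1 fun a ha b hb m p => ?_
  have m1 := congrFun (congrArg Prod.fst m) p
  have m2 := congrFun (k.fc a ha b hb (congrArg Prod.snd m)) p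
  simp only [Bc.blk] at m1 ⊢
  split_ifs at m1 ⊢
  · by_cases c : p = σ.o
    · rw [c, Pi.add_apply, Pi.add_apply, h.zo a ha, h.zo b hb, h.No ha, h.No hb, sub_self, abs_zero]
      positivity
    have m3 := abs_le.1 (k.cl a ha p c)
    have m4 := abs_le.1 (k.cl b hb p c)
    rw [mul_div_assoc, abs_le]
    constructor <;> linarith [m3.1, m3.2, m4.1, m4.2]
  · rw [sub_self, abs_zero]; positivity

theorem Rl.l2 (k : X.Rl σ K' Z' c₀ e) (h : X.Gr σ) (e1 : 1 ≤ e) (r₀ : ℝ) (m : ℕ) :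
    ∀ r ≤ r₀, (univ.filter fun p => σ.cl p < r).card ≤ m →
      ch X.P (fun ω => σ.low r (X.Z ω)) (fun ω => (σ.oth r₀ (Z' ω), X.θ σ ω, K' ω, X.K ω, X.T ω))
        ≤ m * (Fintype.card ν * (4 * e)) := by
  have z : ∀ r, (univ.filter fun p => σ.cl p < r) = ∅ → ch X.P (fun ω => σ.low r (X.Z ω))
      (fun ω => (σ.oth r₀ (Z' ω), X.θ σ ω, K' ω, X.K ω, X.T ω)) = 0 := fun r c =>
    ch_zero fun a _ b _ _ => funext fun p => by
      simp only [Bc.low, if_neg (filter_eq_empty_iff.1 c (mem_univ p))]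
  induction m with
  | zero => exact fun r _ c => by rw [z r (card_eq_zero.1 (Nat.le_zero.1 c))]; simp
  | succ m ih =>
    intro r hr c
    rcases (univ.filter fun p => σ.cl p < r).eq_empty_or_nonempty with s | s
    · rw [z r s]; positivity
    obtain ⟨q, hq, mx⟩ := exists_max_image _ σ.cl s
    have hq' := (mem_filter.1 hq).2
    have cd : (univ.filter fun p => σ.cl p < σ.cl q).card ≤ m := by
      have : (univ.filter fun p => σ.cl p < σ.cl q) ⊂ univ.filter fun p => σ.cl p < r :=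
        (ssubset_iff_of_subset fun p u => mem_filter.2 ⟨mem_univ p,
          (mem_filter.1 u).2.trans hq'⟩).2 ⟨q, hq, by simp⟩
      have := card_lt_card this
      omega
    have i := ih (σ.cl q) (hq'.le.trans hr) cd
    have a : ch X.P (fun ω => σ.low r (X.Z ω))
        (fun ω => (σ.oth r₀ (Z' ω), X.θ σ ω, K' ω, X.K ω, X.T ω)) ≤ ch X.P (fun ω =>
          (σ.low (σ.cl q) (X.Z ω), flv X.u (σ.blk (σ.cl q) (X.Z ω))))
          fun ω => (σ.oth r₀ (Z' ω), X.θ σ ω, K' ω, X.K ω, X.T ω) :=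
      ch_mono (Fn.left (fun a ha b hb n => funext fun p => by
        have n1 := congrFun (congrArg Prod.fst n) p
        have n2 := congrFun (congrArg Prod.snd n) p
        simp only [Bc.low, Bc.blk, flv, fl1] at n1 n2 ⊢
        split_ifs with c1
        · rcases (mx p (mem_filter.2 ⟨mem_univ p, c1⟩)).lt_or_eq with c2 | c2
          · rwa [if_pos c2, if_pos c2] at n1
          · obtain ⟨x, hx⟩ := h.zg a ha p
            obtain ⟨y, hy⟩ := h.zg b hb p
            rw [if_pos c2, if_pos c2, hx, hy, Int.floor_intCast, Int.floor_intCast] at n2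
            exact mul_left_cancel₀ (by positivity : (2 : ℝ) ^ X.u ≠ 0) (by rw [hx, hy, n2])
        · rfl) _)
    have b : ch X.P (fun ω => flv X.u (σ.blk (σ.cl q) (X.Z ω))) (fun ω => (σ.low (σ.cl q) (X.Z ω),
        σ.oth r₀ (Z' ω), X.θ σ ω, K' ω, X.K ω, X.T ω)) ≤ Fintype.card ν * (4 * e) := by
      refine lst e1 fun a ha b hb n p => ?_
      simp only [Prod.mk.injEq] at n
      obtain ⟨n1, n2, n3, n4, n5, n6⟩ := n
      have m0 := congrFun (h.fnN (σ.cl q) a ha b hb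
        (Prod.ext n1 (Prod.ext n3 (Prod.ext n5 n6)))) p
      have m1 := congrFun n2 p
      have m2 := congrFun (k.fc a ha b hb (Prod.ext n4 (Prod.ext n5 n6))) p
      simp only [Bc.blk, Bc.oth] at m0 m1 ⊢
      split_ifs at m0 ⊢ with c1
      · by_cases c : p = σ.o
        · rw [c, h.zo a ha, h.zo b hb, sub_self, abs_zero]
          positivity
        have m3 := abs_le.1 (k.cl a ha p c)
        have m4 := abs_le.1 (k.cl b hb p c)
        rw [Pi.add_apply] at m3 m4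
        rw [if_neg (c1.trans_lt (hq'.trans_le hr)).ne,
          if_neg (c1.trans_lt (hq'.trans_le hr)).ne] at m1
        rw [mul_div_assoc, abs_le]
        constructor <;> linarith [m3.1, m3.2, m4.1, m4.2]
      · rw [sub_self, abs_zero]; positivity
    rw [ch_chain] at a
    push_cast
    linarith

/-- The first budget. -/
theorem Rl.one (k : X.Rl σ K' Z' c₀ e) (h : X.Gr σ) (e1 : 1 ≤ e) (r : ℝ) :
    mi X.P (fun ω => flv X.u (σ.blk r (X.Z ω + X.N ω))) (fun ω => σ.blk r (X.N ω))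
      (fun ω => (X.K ω, X.T ω)) ≤ (6 + 4 * Fintype.card ν + 4 * Fintype.card ν ^ 2) * e := by
  have a : mi X.P (fun ω => flv X.u (σ.blk r (X.Z ω + X.N ω))) (fun ω => σ.blk r (X.N ω))
      (fun ω => (X.K ω, X.T ω)) ≤ mi X.P (fun ω => flv X.u (σ.blk r (X.Z ω + X.N ω)))
        (fun ω => (σ.low r (X.Z ω), X.θ σ ω)) fun ω => (X.K ω, X.T ω) :=
    mi_mono ((h.fnN r).trans fun a _ b _ k => by simp only [Prod.mk.injEq] at k ⊢; tauto)
  have a' := Free.ctx (P := X.P) (fun ω => flv X.u (σ.blk r (X.Z ω + X.N ω)))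
    (fun ω => (σ.low r (X.Z ω), X.θ σ ω)) (fun ω => (X.K ω, X.T ω))
    fun ω => (K' ω, X.K ω, X.T ω)
  have a1 : ch X.P (fun ω => (K' ω, X.K ω, X.T ω)) (fun ω => (X.K ω, X.T ω))
      ≤ ch X.P K' fun ω => (X.K ω, X.T ω) := ch_mono (Fn.rfl _)
  rw [ch_zero (Fn.snd K' fun ω => (X.K ω, X.T ω))] at a'
  have b := mi_near (P := X.P) (fun ω => (σ.low r (X.Z ω), X.θ σ ω))
    (fun ω => flv X.u (σ.blk r (X.Z ω + X.N ω))) (fun ω => σ.blk r (Z' ω))
    fun ω => (K' ω, X.K ω, X.T ω)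
  have c := mi_near (P := X.P) (fun ω => σ.blk r (Z' ω)) (fun ω => (σ.low r (X.Z ω), X.θ σ ω))
    (fun ω => (σ.oth r (Z' ω), X.θ σ ω)) fun ω => (K' ω, X.K ω, X.T ω)
  have c' : ch X.P (fun ω => (σ.low r (X.Z ω), X.θ σ ω))
      (fun ω => ((σ.oth r (Z' ω), X.θ σ ω), K' ω, X.K ω, X.T ω))
      ≤ ch X.P (fun ω => σ.low r (X.Z ω))
        fun ω => (σ.oth r (Z' ω), X.θ σ ω, K' ω, X.K ω, X.T ω) :=
    ch_le (fun a _ b _ k => by simp only [Prod.mk.injEq] at k ⊢; tauto)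
      fun a _ b _ k => by simp only [Prod.mk.injEq] at k ⊢; tauto
  have d := Free.ctx (P := X.P) (fun ω => σ.blk r (Z' ω)) (fun ω => (σ.oth r (Z' ω), X.θ σ ω))
    (fun ω => (K' ω, X.K ω, X.T ω)) fun ω => (X.T ω, K' ω)
  have d1 : ch X.P (fun ω => (X.T ω, K' ω)) (fun ω => (K' ω, X.K ω, X.T ω)) = 0 :=
    ch_zero fun a _ b _ k => by simp only [Prod.mk.injEq] at k ⊢; tauto
  have d2 : ch X.P (fun ω => (K' ω, X.K ω, X.T ω)) (fun ω => (X.T ω, K' ω))
      ≤ ch X.P X.K fun ω => (K' ω, X.T ω) :=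
    ch_le (fun a _ b _ k => by simp only [Prod.mk.injEq] at k ⊢; tauto)
      fun a _ b _ k => by simp only [Prod.mk.injEq] at k ⊢; tauto
  have f : mi X.P (fun ω => σ.blk r (Z' ω)) (fun ω => (σ.oth r (Z' ω), X.θ σ ω))
      (fun ω => (X.T ω, K' ω)) ≤ mi X.P (fun ω => σ.blk r (Z' ω))
        (fun ω => (σ.oth r (Z' ω), X.θ σ ω, X.T ω)) K' :=
    mi_right (Fn.snd _ _) (fun a _ b _ k => by simp only [Prod.mk.injEq] at k ⊢; tauto)
      fun a _ b _ k => by simp only [Prod.mk.injEq] at k ⊢; tauto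
  have g := k.l2 h e1 r _ r le_rfl (card_le_univ _)
  rw [mi_symm, mi_symm _ fun ω => σ.blk r (Z' ω)] at b
  linarith [k.l1 h e1 r, k.pr.two r, k.kk, k.kk']

/-! ### A small event on which there is no relative -/

/-- The data on an event. -/
noncomputable def res (X : Bd α ν) (G : X.Ω → Prop) : Bd α ν := { X with P := cE X.P G }

omit [Fintype α] [Fintype ν] in
theorem Gr.res (h : X.Gr σ) (G : X.Ω → Prop) : (X.res G).Gr σ :=
  ⟨h.ok, fun ω a => h.zo ω (cE_sub a), fun ω a => h.zg ω (cE_sub a),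
    fun ω a => h.gr ω (cE_sub a), fun ω a => h.gW ω (cE_sub a),
    fun a p q k => fn_cE (h.fρ a p q k) G, fn_cE h.fW' G⟩

theorem ch_patch {Ω β γ : Type} {P : FP Ω} {F : Ω → β} {G : Ω → γ} (E : Ω → Prop)
    (h : Fn P F fun ω => (E ω, G ω)) : ch P F G ≤ lg := by
  classical
  refine (ch_mono h).trans ((ch_det (B := 2) fun a _ => ⟨univ, by simp, fun _ _ _ => mem_univ _⟩))

theorem mi_patch {Ω β γ δ ζ : Type} {P : FP Ω} (A : Ω → ζ) {b' : Ω → β} {b : Ω → δ} {G : Ω → γ}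
    (E : Ω → Prop) (h : Fn P b' fun ω => (E ω, b ω, G ω)) : mi P A b' G ≤ mi P A b G + lg :=
  (mi_near A b' b G).trans (add_le_add le_rfl (ch_patch E h))

theorem mi_up {Ω β γ δ : Type} {P : FP Ω} (E : Ω → Prop) (F : Ω → β) (G : Ω → γ) (K : Ω → δ)
    {B : ℝ} (h : ch (cE P E) F K ≤ B) :
    mi P F G K ≤ mi (cE P fun ω => ¬E ω) F G K + lg + pb P E * B := by
  have h1 := KEA.le P E F K
  have h2 := KEA.ge P E F fun ω => (G ω, K ω)
  have h3 := mul_le_mul_of_nonneg_left h (pb_nonneg P E)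
  have h4 := mul_nonneg (pb_nonneg P E) (ch_nonneg (P := cE P E) F fun ω => (G ω, K ω))
  have h5 := mul_nonneg (pb_nonneg P E) (mi_nonneg (P := cE P fun ω => ¬E ω) F G K)
  unfold mi at h5 ⊢
  linarith

theorem Pt.mono {ω : X.Ω} {e' : ℝ} (h : X.Pt σ e ω) (a : e ≤ e') : X.Pt σ e' ω :=
  have b := exp_le_exp.2 a
  ⟨h.zo, fun p => (h.zb p).trans b, h.zg, fun i p q => (h.rb i p q).trans b,
    fun i p q => (h.cb i p q).trans b, fun i => (h.bb i).trans (exp_le_exp.2 (by linarith)), h.bt,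
    h.jl, h.gr, h.gW, fun p q => (h.bW p q).trans (exp_le_exp.2 (by linarith)), h.lie, h.chi, h.m0⟩

theorem Pt.size {ω : X.Ω} (h : X.Pt σ e ω) (ok : σ.Ok) (e0 : 0 ≤ e) (p : ν) :
    |(X.Z ω + X.N ω) p| ≤ (1 + Fintype.card ν * (Fintype.card ν + 1) * Fintype.card α)
      * exp (4 * e) := by
  have x1 : 1 ≤ exp e := one_le_exp e0
  have r : ∀ p q, |X.R ω p q| ≤ Fintype.card α * (exp e * exp e) := fun p q => by
    rw [R, Matrix.sum_apply]
    refine (abs_sum_le_sum_abs _ _).trans ((sum_le_card_nsmul _ _ _ fun a _ => ?_).trans_eq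
      (by rw [card_univ, nsmul_eq_mul]))
    rw [Matrix.smul_apply, smul_eq_mul, abs_mul]
    refine mul_le_mul ((h.bb a).trans (exp_le_exp.2 (sub_le_self _ ?_))) (h.rb a p q)
      (abs_nonneg _) (exp_pos _).le
    exact mul_nonneg (ok.et0 a).le (Nat.cast_nonneg _)
  have w : ∀ p q, |X.W ω p q| ≤ exp e := fun p q => by
    by_cases m : X.W ω p q = 0
    · rw [m, abs_zero]; positivity
    · exact (h.bW p q).trans (exp_le_exp.2 (sub_le_self _
        (mul_nonneg (sub_nonneg.2 (h.gW p q m).1.le) (Nat.cast_nonneg _))))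
  have m : ∀ q, |(X.R ω * X.W ω - X.R ω) p q|
      ≤ (Fintype.card ν + 1) * (Fintype.card α * (exp e * exp e) * exp e) := fun q => by
    rw [Matrix.sub_apply, Matrix.mul_apply, add_mul, one_mul]
    refine (abs_sub _ _).trans (add_le_add ((abs_sum_le_sum_abs _ _).trans
      ((sum_le_card_nsmul _ _ _ fun s _ => ?_).trans_eq (by rw [card_univ, nsmul_eq_mul])))
      ((r p q).trans (le_mul_of_one_le_right (by positivity) x1)))
    rw [abs_mul]
    exact mul_le_mul (r p s) (w s q) (abs_nonneg _) (by positivity)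
  have n : |X.N ω p| ≤ Fintype.card ν * ((Fintype.card ν + 1) *
      (Fintype.card α * (exp e * exp e) * exp e) * exp e) := by
    simp only [N, mulVec, dotProduct]
    refine (abs_sum_le_sum_abs _ _).trans ((sum_le_card_nsmul _ _ _ fun q _ => ?_).trans_eq
      (by rw [card_univ, nsmul_eq_mul]))
    rw [abs_mul]
    exact mul_le_mul (m q) (h.zb q) (abs_nonneg _) (by positivity)
  have z := (h.zb p).trans (exp_le_exp.2 (show e ≤ 4 * e by linarith))
  have y : exp (4 * e) = exp e * exp e * exp e * exp e := by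
    rw [← exp_add, ← exp_add, ← exp_add]; ring_nf
  rw [Pi.add_apply]
  refine (abs_add_le _ _).trans ?_
  rw [y] at z ⊢
  linarith

/-- The first budget when the relative exists only off the event `E`. -/
theorem Rl.off {E : X.Ω → Prop} (k : (X.res fun ω => ¬E ω).Rl σ K' Z' c₀ e) (h : X.Gr σ)
    (hp : ∀ ω ∈ X.P.S, X.Pt σ e ω) (hE : pb X.P E * X.u ≤ e) (e1 : 1 ≤ e) (r : ℝ) :
    mi X.P (fun ω => flv X.u (σ.blk r (X.Z ω + X.N ω))) (fun ω => σ.blk r (X.N ω))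
      (fun ω => (X.K ω, X.T ω)) ≤ (7 + 4 * Fintype.card ν + 4 * Fintype.card ν ^ 2 + Fintype.card ν
        * (12 + 4 * (Fintype.card ν * (Fintype.card ν + 1) * Fintype.card α))) * e := by
  obtain ⟨m, hm⟩ : ∃ m : ℝ, m = Fintype.card ν * (Fintype.card ν + 1) * Fintype.card α := ⟨_, rfl⟩
  have m0 : 0 ≤ m := by rw [hm]; positivity
  have a := k.one (h.res _) e1 r
  have x1 : 1 ≤ exp (4 * e) := one_le_exp (by linarith)
  have x2 : (1 : ℝ) ≤ 2 ^ X.u := one_le_pow₀ one_le_two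
  have b : ch (cE X.P E) (fun ω => flv X.u (σ.blk r (X.Z ω + X.N ω))) (fun ω => (X.K ω, X.T ω))
      ≤ Fintype.card ν * (X.u + (11 + 4 * m) * e) := by
    refine (ch_near (L := 2 * ((1 + m) * exp (4 * e)) * 2 ^ X.u) (by positivity)
      fun a ha b hb _ => (pi_norm_le_iff_of_nonneg (by positivity)).2 fun p => ?_).trans
      (mul_le_mul_of_nonneg_left ?_ (Nat.cast_nonneg _))
    · have s1 := (hp a (cE_sub ha)).size h.ok (by linarith) p
      have s2 := (hp b (cE_sub hb)).size h.ok (by linarith) p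
      rw [← hm] at s1 s2
      rw [mul_div_cancel_right₀ _ (by positivity), Pi.sub_apply, Real.norm_eq_abs]
      simp only [Bc.blk]
      split_ifs
      · linarith [abs_sub ((X.Z a + X.N a) p) ((X.Z b + X.N b) p)]
      · rw [sub_self, abs_zero]; positivity
    · have y1 : 2 * (2 * ((1 + m) * exp (4 * e)) * 2 ^ X.u) + 3
          ≤ (7 + 4 * m) * (exp (4 * e) * 2 ^ X.u) := by
        nlinarith [one_le_mul_of_one_le_of_one_le x1 x2]
      refine (log_le_log (by positivity) y1).trans ?_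
      rw [log_mul (by positivity) (by positivity), log_mul (by positivity) (by positivity),
        log_exp, log_two_pow]
      have y2 := log_le_sub_one_of_pos (show 0 < 7 + 4 * m by positivity)
      have y3 := mul_le_mul_of_nonneg_left lg_lt_one.le (Nat.cast_nonneg (α := ℝ) X.u)
      nlinarith
  have c := mi_up E _ (fun ω => σ.blk r (X.N ω)) _ b
  have d : pb X.P E * ((11 + 4 * m) * e) ≤ (11 + 4 * m) * e :=
    mul_le_of_le_one_left (by positivity) (pb_le_one _ _)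
  have f : pb X.P E * (Fintype.card ν * (X.u + (11 + 4 * m) * e))
      ≤ Fintype.card ν * ((12 + 4 * m) * e) := by
    rw [mul_left_comm]
    exact mul_le_mul_of_nonneg_left (by linarith) (Nat.cast_nonneg _)
  rw [← hm]
  have g := lg_lt_one
  change mi (cE X.P fun ω => ¬E ω) (fun ω => flv X.u (σ.blk r (X.Z ω + X.N ω)))
    (fun ω => σ.blk r (X.N ω)) (fun ω => (X.K ω, X.T ω)) ≤ _ at a
  linarith

end Bd

/-- All the facts on one space from the primitive budgets. -/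
theorem ok_of (α ν : Type) [Fintype α] [Fintype ν] : ∃ c : ℝ, 1 ≤ c ∧ ∀ (σ : Bc α ν) (X : Bd α ν)
    (Λ : Type) (K' : X.Ω → Λ) (Z' c₀ : X.Ω → ν → ℝ) (E : X.Ω → Prop) (e : ℝ), σ.Ok → 1 ≤ e →
    (∀ ω ∈ X.P.S, X.Pt σ e ω) →
    (∀ a p q, q ≠ σ.o → Fn X.P (fun ω => X.ρ ω a p q) fun ω => (X.K ω, X.v ω)) →
    (Fn X.P X.c fun ω => (X.K ω, X.v ω)) →
    (∀ p q, q ≠ σ.o → Fn X.P (fun ω => X.W ω p q) fun ω => (X.K ω, X.T ω)) →
    (Fn X.P X.W fun ω => (X.K ω, X.T ω, X.θ σ ω)) →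
    (∀ (A : _ → Prop) (k : ℕ), k < σ.C * X.u → (σ.C * X.u : ℕ) *
      pb X.P (fun ω => A (X.Y σ ω) ∧ X.j ω = k) = pb X.P fun ω => A (X.Y σ ω)) →
    X.Pr σ X.K X.Z e → pb X.P E * X.u ≤ e → (X.res fun ω => ¬E ω).Rl σ K' Z' c₀ e →
    X.Ok σ (c * e) := by
  obtain ⟨c, hc⟩ : ∃ c : ℝ, c = 4 * Fintype.card ν + 4 * Fintype.card ν ^ 2 + Fintype.card ν
    * (12 + 4 * (Fintype.card ν * (Fintype.card ν + 1) * Fintype.card α)) := ⟨_, rfl⟩
  have c0 : 0 ≤ c := by rw [hc]; positivity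
  refine ⟨7 + c, by linarith, fun σ X Λ K' Z' c₀ E e ok e1 pt f1 f2 f3 f4 lv pr hE k => ?_⟩
  have u := mul_nonneg c0 (zero_le_one.trans e1)
  refine ⟨fun ω a => (pt ω a).mono (by linarith), f1, f2, f3, f4, lv, fun r => (k.off ⟨ok,
    fun ω a => (pt ω a).zo, fun ω a => (pt ω a).zg,
    fun ω a => (pt ω a).gr, fun ω a => (pt ω a).gW, f1, f4⟩ pt hE e1
    r).trans_eq (by rw [hc]; ring), fun r => (pr.two r).trans (by linarith),
    pr.three.trans (by linarith)⟩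

end Pool.Agent.MP_4b405e_nt.FB
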