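import Pool.Agent.MP_4b405e_nt.SK.CDef
import Pool.Agent.MP_4b405e_nt.SK.CBud

/-! Sparse heights, block C: statements. -/

namespace Pool.Agent.MP_5168f5_an.QA.SC

open H19 H17S H17F R4 AN Filter Matrix Real Finset
open GA (Mt IsFr br mB mC sB sC cell)
open Pool.Agent.MP_4b405e_nt.FB (Bc Bd Bs)

/-- Short lists on the event `E`. -/
def Dt {Ω α β : Type} (P : FP Ω) (E : Ω → Prop) (F : Ω → α) (G : Ω → β) (v : ℝ) : Prop :=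
  ∀ y, ∃ S : Finset α, (S.card : ℝ) ≤ exp v ∧ ∀ ω ∈ P.S, E ω → G ω = y → F ω ∈ S

section Mid

variable {α ν : Type} [Fintype α] [Fintype ν] (σ : Bc α ν) (X : Bd α ν)

/-- Sizes, grids and grading at one point. -/
structure PtA (e : ℝ) (ω : X.Ω) : Prop where
  zo : X.Z ω σ.o = 1
  zb : ∀ p, |X.Z ω p| ≤ exp e
  zg : ∀ p, ∃ k : ℤ, 2 ^ X.u * X.Z ω p = k
  rb : ∀ a p q, |X.ρ ω a p q| ≤ exp e
  cb : ∀ a a' a'', |X.c ω a a' a''| ≤ exp e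
  bb : ∀ a, |X.b ω a| ≤ exp (e - σ.et a * X.j ω)
  jl : X.j ω < σ.C * X.u
  gr : ∀ a p q, X.ρ ω a p q ≠ 0 → σ.wt p = σ.wt q + σ.et a ∧ (q ≠ σ.o → σ.w p = σ.w q)

/-- The algebra at one point. -/
structure PtB (ω : X.Ω) : Prop where
  lie : ∀ a a' p q, |(X.ρ ω a * X.ρ ω a' - X.ρ ω a' * X.ρ ω a) p q -
    ∑ a'', X.c ω a a' a'' * X.ρ ω a'' p q| ≤ exp (-(3 * X.u))
  chi : ∀ a a', |X.c ω a a' σ.τ| ≤ exp (-(3 * X.u))
  m0 : ∀ a p q, a ≠ σ.τ → σ.ps p → ¬σ.ps q → |X.ρ ω a p q| ≤ exp (-(3 * X.u))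

/-- The level, the size of the height coefficient, measurability. -/
structure Lev (k1 e δ : ℝ) : Prop where
  hk : exp (-e) ≤ |k1| ∧ |k1| ≤ exp e
  bt : pb X.P (fun ω => ¬(exp (-1 - lg * X.j ω) ≤ |X.b ω σ.τ / k1| ∧
    |X.b ω σ.τ / k1| ≤ exp (1 - lg * X.j ω))) ≤ δ
  fρ : ∀ a p q, q ≠ σ.o → Fn X.P (fun ω => X.ρ ω a p q) fun ω => (X.K ω, X.v ω)
  fc : Fn X.P X.c fun ω => (X.K ω, X.v ω)
  lv : ∀ (A : _ → Prop) (k : ℕ), k < σ.C * X.u →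
    (σ.C * X.u : ℕ) * pb X.P (fun ω => A (X.Y σ ω) ∧ X.j ω = k) = pb X.P fun ω => A (X.Y σ ω)

/-- The facts on one space before the height coefficient is normalised. -/
structure Ok1 (k1 : ℝ) (M : ℕ) (e δ : ℝ) : Prop where
  pa : ∀ ω ∈ X.P.S, PtA σ X e ω
  pb : ∀ ω ∈ X.P.S, PtB σ X ω
  hW : ∀ ω, X.W ω = Wp M (X.R ω)
  lev : Lev σ X k1 e δ
  pr : X.Pr σ X.K X.Z e
  rl : ∃ (K' : X.Ω → X.Kt) (Z' c₀ : X.Ω → ν → ℝ), X.Rl σ K' Z' c₀ e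

end Mid

/-- The block system before the height coefficient is normalised. -/
structure Bs1 {α ν : Type} [Fintype α] [Fintype ν] (σ : Bc α ν) (X : ℕ → Bd α ν) (k1 : ℕ → ℝ)
    (M : ℕ) : Prop where
  ok : σ.Ok
  big : Big fun n => (X n).u
  ev : ∀ ε : ℝ, 0 < ε → ∀ᶠ n in UF, Ok1 σ (X n) (k1 n) M (ε * (X n).u) ε
  ac : ∀ r δ : ℝ, 0 < r → 0 < δ → ∀ᶠ n in UF, (X n).Ac σ r δ
  nd : ∀ r δ : ℝ, 0 < r → 0 < δ → ∃ κ : ℝ, 0 < κ ∧ ∀ᶠ n in UF, (X n).Nd σ r δ κ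

/-- Normalisation of the height coefficient, and a dummy relative on the bad event. -/
def RowS : Prop := ∀ (α ν : Type) [Fintype α] [Fintype ν] (σ : Bc α ν) (X : ℕ → Bd α ν)
  (k1 : ℕ → ℝ) (M : ℕ), Bs1 σ X k1 M → ∃ X' : ℕ → Bd α ν, Bs σ X' ∧ (SG.Lk σ X → SG.Lk σ X')

/-- A statement about one world, under the hypotheses with a large enough ratio. -/
def On (q : ∀ (ι κ : Type) [Fintype ι] [DecidableEq ι] [Fintype κ] [DecidableEq κ] (σ : Kk ι κ),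
    σ.Ok → Wd ι κ → Pm → ℝ → ℝ → ℝ → Prop) : Prop :=
  ∀ (ι κ : Type) [Fintype ι] [DecidableEq ι] [Fintype κ] [DecidableEq κ] (σ : Kk ι κ) (h : σ.Ok),
    ∃ K : ℝ, 1 ≤ K ∧ ∀ (Y : Wd ι κ) (p : Pm) (e w r δ : ℝ), Y.Hyp σ p K e w r δ →
      q ι κ σ h Y p K e δ

/-! ### Geometric rows -/

/-- Sizes, grids and grading. -/
def RowPA : Prop := On fun _ _ _ _ _ _ σ h Y p K e _ =>
  ∀ z ∈ (Y.P2 σ p).S, PtA (σ.bc h) (Y.bd σ p) (K * e) z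

/-- The Lie relation, the character, the stabiliser. -/
def RowPB : Prop := On fun _ _ _ _ _ _ σ h Y p _ _ _ =>
  ∀ z ∈ (Y.P2 σ p).S, PtB (σ.bc h) (Y.bd σ p) z

/-- The affine relation between the blocks. -/
def RowR : Prop := On fun _ _ _ _ _ _ σ h Y p K e _ => ∃ c₀ : (Y.bd σ p).Ω → σ.Nu → ℝ,
  Fn (Y.P2 σ p) c₀ (fun z => (Y.K' σ p z, (Y.bd σ p).K z, (Y.bd σ p).T z)) ∧
  ∀ z ∈ (Y.P2 σ p).S, ∀ q, q ≠ (σ.bc h).o →
    |Y.Z' σ p z q - ((Y.bd σ p).Z z + (Y.bd σ p).N z) q - c₀ z q| ≤ exp (K * e) / 2 ^ p.u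

/-- The contexts of the point and of the relative determine each other. -/
def RowM : Prop := On fun _ _ _ _ _ _ σ _ Y p K e _ =>
  Det (Y.P2 σ p) (Y.K' σ p) (fun z => ((Y.bd σ p).K z, (Y.bd σ p).T z)) (exp (K * e)) ∧
  Det (Y.P2 σ p) (Y.bd σ p).K (fun z => (Y.K' σ p z, (Y.bd σ p).T z)) (exp (K * e))

/-- The plain cells are almost nested, and the chart determines the plain cell. -/
def RowD1 : Prop := On fun _ _ _ _ _ _ σ _ Y p K e _ => ∀ i < Y.nD, ∀ t ≤ p.N,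
  Dt Y.P (fun _ => True) (Y.Xp σ p i t) (Y.Xp σ p (i + p.kD) t) (K * e) ∧
  Dt Y.P (Y.E i) (Y.Xp σ p i t) (fun ω => (Y.cp i ω, Y.Qc σ p i t ω)) (K * e)

/-- The deeper plain cell, or the deep cell `T`, determines the context and the block. -/
def RowD2 : Prop := On fun _ _ _ _ _ _ σ _ Y p K e _ => ∀ x : Par, x.1 < Y.nD → x.2.1 ≤ p.N →
  x.2.2.1 < p.L → x.2.2.2 < p.L →
  Dt Y.P (Y.E x.1) (fun ω => (Y.K σ p x ω, Y.Z σ p x ω, Y.Cp (Y.i1 p x) ω,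
      fun a q => Y.ρ σ p x ω a q none))
    (fun ω => (Y.Xp σ p (x.1 + p.kD) x.2.1 ω, Y.si x.1 ω)) (K * e) ∧
  Dt Y.P (Y.E x.1) (fun ω => (Y.K σ p x ω, Y.Z σ p x ω))
    (fun ω => (Y.T ω, Y.cp x.1 ω)) (K * e)

/-- The next context determines the context and the first digits of the block. -/
def RowD3 : Prop := On fun _ _ _ _ _ _ σ _ Y p K e _ => ∀ i < Y.nD, ∀ t < p.N, ∀ l < p.L,
  ∀ d < p.L, Dt Y.P (Y.E i) (fun ω => (Y.K σ p (i, t, l, d) ω, fun q : σ.Nu => q.elim 0 fun b =>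
      fl1 ⌊σ.mu b.1 * Wd.u1 σ p / lg⌋₊ (Y.Z σ p (i, t, l, d) ω q)))
    (Y.K σ p (i, t + 1, l, d)) (K * e)

/-! ### Probabilistic rows -/

/-- The level of the relative. -/
def RowLv : Prop := On fun _ _ _ _ _ _ σ h Y p K e δ =>
  Lev (σ.bc h) (Y.bd σ p) (Y.k0 / 2) (K * e) (K * δ) ∧ hh (Y.P2 σ p) (Y.bd σ p).j ≤ K * e

/-- The law of the relative is close to the law of the point. -/
def RowTV : Prop := On fun _ _ _ _ _ _ σ _ Y p K _ δ => ∀ F : Par × Y.Ω → ℝ,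
  (∀ y, 0 ≤ F y ∧ F y ≤ 1) →
    |((Y.P2 σ p).E fun z => F (z.1, z.2.2)) - (Y.P2 σ p).E fun z => F (z.1, z.2.1.2)| ≤ K * δ

/-- The classes are independent given the context. -/
def RowT : Prop := On fun _ _ _ _ _ _ σ h Y p K _ δ => ∀ r,
  mi (Y.P2 σ p) (fun z => (σ.bc h).blk r ((Y.bd σ p).Z z))
    (fun z => (σ.bc h).oth r ((Y.bd σ p).Z z)) (Y.bd σ p).K ≤ K * (δ * p.u)

/-- The context and the block are independent of the line, given the class. -/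
def RowI : Prop := On fun _ _ _ _ _ _ σ _ Y p K e _ =>
  mi (Y.P2 σ p) (fun z => ((Y.bd σ p).K z, (Y.bd σ p).Z z)) (fun z => Y.lam z.2.1.2)
    (fun z => (z.1, Y.cp z.1.1 z.2.1.2)) ≤ K * e

/-- The coefficients are free, for the point and for the relative. -/
def RowF : Prop := On fun _ _ _ _ _ _ σ h Y p K _ δ =>
  mi (Y.P2 σ p) (fun z => ((Y.bd σ p).Z z, (Y.bd σ p).θ (σ.bc h) z, (Y.bd σ p).v z)) (Y.bd σ p).b
    (fun z => ((Y.bd σ p).K z, (Y.bd σ p).j z)) ≤ K * (δ * p.u) ∧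
  mi (Y.P2 σ p) (fun z => (Y.Z' σ p z, (Y.bd σ p).θ (σ.bc h) z, (Y.bd σ p).v z)) (Y.bd σ p).b
    (fun z => (Y.K' σ p z, (Y.bd σ p).j z)) ≤ K * (δ * p.u)

/-- The primitive budgets, for the point and for the relative. -/
def RowB : Prop := On fun _ _ _ _ _ _ σ h Y p K _ δ =>
  (Y.bd σ p).Pr (σ.bc h) (Y.bd σ p).K (Y.bd σ p).Z (K * (δ * p.u)) ∧
  (Y.bd σ p).Pr (σ.bc h) (Y.K' σ p) (Y.Z' σ p) (K * (δ * p.u))

/-- Anti-concentration. -/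
def RowAc : Prop := On fun _ _ _ _ _ _ σ h Y p K _ δ => ∀ r s : ℝ, K * δ ≤ r → r ≤ 1 / δ →
  K * δ ≤ s ^ 2 → 0 < s → exp (-(r * p.u / (K * Y.k))) ≤ s / 2 → (Y.bd σ p).Ac (σ.bc h) r s

/-- Non degeneracy. -/
def RowNd : Prop := On fun _ _ _ _ _ _ σ h Y p K _ δ => ∀ r s a : ℝ, K * δ ≤ r → r ≤ 2 →
  0 < s → K * δ ≤ a * s → Y.Nd σ (r / 2 * p.u) s (a * p.u) p.d0 (p.d0 + p.L + Y.ms) →
  (Y.bd σ p).Nd (σ.bc h) r (K * s) (a / 4)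

/-- The link to the count. -/
def RowLk : Prop := On fun _ _ _ _ _ _ σ h Y p K e _ => ∃ Z : SG.Ld (Y.bd σ p),
  Z.Ok (σ.bc h) σ.cc (σ.be / (4 * σ.C)) (K * e)

def OfF : Prop := RowD1 → RowD2 → RowF
def OfI : Prop := RowD2 → RowI
def OfB : Prop := RowPA → RowLv → RowTV → RowT → RowI → RowF → RowB
def OfNd : Prop := RowI → RowNd
def OfLk : Prop := RowPA → RowD2 → RowD3 → RowLk

/-! ### The block -/

/-- The world, the state and the parameters in sequence form. -/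
structure Seq {ι κ : Type} [Fintype ι] [DecidableEq ι] [Fintype κ] [DecidableEq κ] (σ : Kk ι κ)
    (Y : ℕ → Wd ι κ) (p : ℕ → Pm) (e w r : ℕ → ℝ) : Prop where
  ok : σ.Ok
  big : Big fun n => (p n).u
  hyp : ∀ K δ : ℝ, 0 < δ → K * δ ≤ 1 → ∀ᶠ n in UF, (Y n).Hyp σ (p n) K (e n) (w n) (r n) δ
  nd : ∀ h s : ℝ, 0 < h → 0 < s → ∃ a : ℝ, 0 < a ∧ ∀ᶠ n in UF,
    (Y n).Nd σ (h * (p n).u) s (a * (p n).u) (p n).d0 ((p n).d0 + (p n).L + (Y n).ms)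

/-- The statement of the block. -/
def SpCs : Prop := ∀ (ι κ : Type) [Fintype ι] [DecidableEq ι] [Fintype κ] [DecidableEq κ]
  (σ : Kk ι κ) (Y : ℕ → Wd ι κ) (p : ℕ → Pm) (e w r : ℕ → ℝ), Seq σ Y p e w r →
  ∃ (α ν : Type) (_ : Fintype α) (_ : Fintype ν) (τ : Bc α ν) (X : ℕ → Bd α ν),
    Bs τ X ∧ ∃ θ : ℝ, 0 < θ ∧ ∀ᶠ n in UF, SG.Low τ (X n) θ

def OfC : Prop := RowS → RowPA → RowPB → RowR → RowM → RowLv → RowB → RowAc → RowNd → RowLk → SpCs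

end Pool.Agent.MP_5168f5_an.QA.SC
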