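import Pool.Agent.MP_4b405e_nt.SK.CAc3
import Pool.Agent.MP_4b405e_nt.SK.SpC

/-! Sparse heights, block C: anti-concentration of the coefficients of the relative. -/

namespace Pool.Agent.MP_5168f5_an.QA.SC.Wd

open H19 H17S H17F R4 AN Filter Matrix Real Finset
open GA (Mt IsFr br mB mC)
open LC (ex_le)

variable {ι κ : Type} [Fintype ι] [DecidableEq ι] [Fintype κ] [DecidableEq κ]
  {σ : Kk ι κ} {Y : Wd ι κ} {p : Pm} {K e w r δ : ℝ}

namespace AcA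

theorem mem_un {n i : ℕ} (h : i ∈ (un n).S) : i < max n 1 := mem_range.1 h

/-- The sizes of the parameters. -/
theorem num (H : Y.Hyp σ p K e w r δ) (k2 : 2 ≤ K) : (1 : ℝ) ≤ p.u ∧ K * p.u ≤ p.L ∧
    (p.L : ℝ) ≤ p.nb ∧ (p.nb : ℝ) ≤ w ∧ 2 * (p.L : ℝ) ≤ K * Y.D Y.nT ∧ δ ≤ 1 / 2 ∧
    K * p.L ≤ p.nb := by
  obtain ⟨d0, d1, e1, eu, kk, -, uL, Ld, dx, xn, nk, kr, rw, -, nT, -, -⟩ := H.num
  have m0 := H.ok.ms.1
  have u0 : (0 : ℝ) ≤ p.u := Nat.cast_nonneg _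
  have l0 : (0 : ℝ) ≤ p.L := Nat.cast_nonneg _
  have a0 : (0 : ℝ) ≤ p.d0 := Nat.cast_nonneg _
  have x0 : (0 : ℝ) ≤ p.xA := Nat.cast_nonneg _
  have n0 : (0 : ℝ) ≤ p.nb := Nat.cast_nonneg _
  have q0 : (0 : ℝ) ≤ p.kD * Y.ms := by positivity
  have dh : δ ≤ 1 / 2 := by nlinarith
  have t1 : (p.kD : ℝ) * Y.ms ≤ Y.D Y.nT :=
    mul_le_mul_of_nonneg_right (Nat.cast_le.2 (by omega)) m0.le
  have a1 : (p.L : ℝ) ≤ p.nb := by nlinarith
  have a2 : (p.nb : ℝ) ≤ p.kD * Y.ms := by nlinarith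
  refine ⟨by nlinarith [mul_le_mul_of_nonneg_right (show δ ^ 2 ≤ 1 by nlinarith) u0],
    by nlinarith [mul_le_mul_of_nonneg_left uL (show 0 ≤ K by linarith),
      mul_le_mul_of_nonneg_right d1 l0], a1, by nlinarith, by nlinarith, dh, by nlinarith⟩

/-- The window of the levels. -/
theorem win (s : σ.Ok) (H : Y.Hyp σ p K e w r δ) (k2 : 2 ≤ K) (kC : σ.C ≤ K) {x : Par}
    (hx : x ∈ (Y.Px p).S) : lv σ p x + σ.C * p.u ≤ Y.W ∧ max (σ.C * p.u) 1 = σ.C * p.u := by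
  obtain ⟨u1, uL, -, -, LD, -⟩ := num H k2
  obtain ⟨-, x1⟩ := (mem_bind _ _ _).1 hx
  obtain ⟨x1, x2⟩ := (mem_bind _ _ _).1 x1
  obtain ⟨x2, -⟩ := (mem_bind _ _ _).1 x2
  have t1 : x.2.1 * Wd.u1 σ p ≤ p.N * Wd.u1 σ p :=
    Nat.mul_le_mul_right _ (by have := mem_un x1; omega)
  have t2 : x.2.2.1 ≤ p.L := by have := mem_un x2; omega
  have c2 := s.c2
  have u1' : 1 ≤ p.u := by exact_mod_cast u1
  refine ⟨le_trans ?_ H.ok.w1, max_eq_left (by nlinarith)⟩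
  have := H.num.up
  have a : ((lv σ p x + σ.C * p.u : ℕ) : ℝ) ≤ Y.W1 := by
    have b1 : ((x.2.1 * Wd.u1 σ p : ℕ) : ℝ) ≤ (p.N * Wd.u1 σ p : ℕ) := Nat.cast_le.2 t1
    have b2 : (x.2.2.1 : ℝ) ≤ p.L := Nat.cast_le.2 t2
    simp only [lv, l0]
    push_cast at b1 ⊢
    nlinarith [mul_le_mul_of_nonneg_right kC (zero_le_one.trans u1)]
  exact_mod_cast a

/-- The relative has the digit one and lies at the natural distance. -/
def Gp (Y : Wd ι κ) (z : (ℕ × Y.Ω) × Y.Ω) : Prop := Haz.one Y.zz z.1.1 z.2 ∧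
  1 / 4 < 2 ^ z.1.1 * (Y.zz z.2 - Y.zz z.1.2) ∧ 2 ^ z.1.1 * (Y.zz z.2 - Y.zz z.1.2) < 1

theorem nD_pos (H : Y.Hyp σ p K e w r δ) (k2 : 2 ≤ K) : 0 < Y.nD := by
  obtain ⟨u1, uL, Ln, -⟩ := num H k2
  have a : (0 : ℝ) < p.kD :=
    (pos_iff_pos_of_mul_pos (lt_of_lt_of_le (by nlinarith) H.num.nk)).2 H.ok.ms.1
  by_contra q
  have := H.num.tel
  rw [show Y.nD = 0 by omega, Nat.cast_zero, mul_zero] at this
  nlinarith [mul_pos a (show (0 : ℝ) < p.nb by nlinarith)]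

theorem mass (H : Y.Hyp σ p K e w r δ) (n0 : 0 < Y.nD) :
    σ.cc ≤ pb (Y.P1 σ p) fun z => Y.E z.1.1 z.2.1.2 := by
  have e1 : pb (Y.P1 σ p) (fun z => Y.E z.1.1 z.2.1.2) = (un Y.nD).E fun i => pb Y.P (Y.E i) := by
    rw [pb, P1, E_bind, ← KGA.E_bind_fst (un Y.nD) fun _ => prod (un p.N) (prod (un p.L) (un p.L))]
    refine FP.E_congr _ fun x _ => (Haz.pb_rel _ fun _ ω => Y.E x.1 ω).trans ?_
    rw [sum_const, Nat.card_Ico, nsmul_eq_mul, mul_div_cancel_left₀]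
    exact Nat.cast_ne_zero.2 (by omega)
  rw [e1, un, FP.E_unif, avg, max_eq_left n0, card_range, le_div_iff₀ (Nat.cast_pos.2 n0)]
  exact H.st.mass

theorem bad (s : σ.Ok) (H : Y.Hyp σ p K e w r δ) (k2 : 2 ≤ K) (kC : σ.C ≤ K) :
    pb (Y.P2 σ p) (fun z => ¬Gp Y z.2) ≤ 21 * δ / σ.cc := by
  obtain ⟨u1, -, -, -, -, dh, -⟩ := num H k2
  obtain ⟨d0, -, e1, eu, ⟨kk, ke⟩, -⟩ := H.num
  have k0 : (2 : ℝ) ≤ Y.k := by nlinarith [Nat.cast_nonneg (α := ℝ) Y.k]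
  have p0 : 0 < (Y.k : ℝ)⁻¹ := by positivity
  have p1 : (Y.k : ℝ)⁻¹ < 1 := inv_lt_one_of_one_lt₀ (by linarith)
  have c2 : (2 : ℝ) ≤ σ.C := by exact_mod_cast s.c2
  have a : pb (Y.P1 σ p) (fun z => ¬Gp Y z.2) ≤ 21 * δ := by
    rw [pb, P1, E_bind]
    refine (FP.E_mono _ fun x hx => ?_).trans_eq (FP.E_const _ _)
    obtain ⟨w1, w2⟩ := win s H k2 kC hx
    refine (Haz.rel_gap p0 p1 d0 dh _ ((Haz.KL_mono p0 p1 (Nat.le_add_right _ _)
      (Nat.le_add_right _ _) (by omega)).trans (Haz.KL_le p0 p1 H.ok.fa))).trans ?_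
    rw [Haz.err, Nat.add_sub_cancel_left, w2]
    have b1 : (Y.k : ℝ)⁻¹ ≤ δ := by rw [inv_le_iff_one_le_mul₀' (by linarith)]; linarith
    have b2 : 3 * (e / Y.k + 1) / (δ * ((Y.k : ℝ)⁻¹ * (σ.C * p.u : ℕ))) ≤ 3 * δ := by
      rw [div_le_iff₀ (by push_cast; positivity)]
      push_cast
      have : 3 * δ * (δ * ((Y.k : ℝ)⁻¹ * (σ.C * p.u))) = 3 * (σ.C * (δ ^ 2 * p.u) / Y.k) := by ring
      rw [this, div_add_one (by linarith)]
      gcongr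
      nlinarith
    linarith
  rw [le_div_iff₀ s.cc0, mul_comm]
  refine (mul_le_mul_of_nonneg_right (mass H (nD_pos H k2)) (pb_nonneg _ _)).trans ?_
  rw [P2, pb_cE]
  exact (pb_mono fun _ _ k => k.2).trans a

theorem memE (s : σ.Ok) (H : Y.Hyp σ p K e w r δ) (k2 : 2 ≤ K) {z} (hz : z ∈ (Y.P2 σ p).S) :
    z ∈ (Y.P1 σ p).S ∧ Y.E z.1.1 z.2.1.2 :=
  (mem_cE (ex_of_pb (s.cc0.trans_le (mass H (nD_pos H k2)))) z).1 hz

theorem rd_sub (n : ℕ) (y : ℝ) : |rd n y - y| ≤ exp (-(n * lg)) := by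
  rw [exp_neg, exp_nat_mul, lg, exp_log two_pos, abs_sub_comm, rd,
    abs_of_nonneg (sub_nonneg.2 (fl1_le n y))]
  exact sub_le_iff_le_add'.2 (lt_fl1 n y).le

/-- The constants of the letters in the basis of the class. -/
theorem ck_al {i : ℕ} {ω : Y.Ω} (V : Y.Val σ e r i ω) {a a' f : κ} (g : σ.toKc.G1 a)
    (g' : σ.toKc.G1 a') (gf : σ.toKc.G1 f) :
    Y.ck σ i (Y.cp i ω) a a' f = Y.X.c (Y.v0 i (Y.cp i ω)) a a' f := by
  have n : ∀ {b}, σ.toKc.G1 b → ¬σ.Nn b := fun q y => (ne_of_lt y).symm q.2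
  have v : ∀ {b}, σ.toKc.G1 b → σ.vt b = 0 := fun q => sub_eq_zero.2 q.2
  have A : ∀ {b}, σ.toKc.G1 b → Y.A σ i (Y.cp i ω) b = Pi.single b 1 := fun {b} q => funext fun c => by
    rw [Wd.A, mul_diagonal, (V.id b c (.inl (n q))).1, one_apply, Pi.single_apply]
    by_cases y : b = c
    · subst y; simp [v q]
    · simp [y, Ne.symm y]
  rw [ck, mC, A g, A g', GA.br_single, A1, ← vecMul_vecMul, vecMul, dotProduct,
    sum_eq_single f (fun c _ y => by rw [(V.id c f (.inr (n gf))).2, one_apply_ne y, mul_zero])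
      (by simp), (V.id f f (.inr (n gf))).2, one_apply_eq, mul_one, vecMul_diagonal, v gf,
    zero_mul, exp_zero, mul_one]

theorem core (s : σ.Ok) : ∃ K₀ : ℝ, 2 + σ.C ≤ K₀ ∧ ∀ (Y : Wd ι κ) (p : Pm) (K e w r δ r' : ℝ),
    K₀ ≤ K → Y.Hyp σ p K e w r δ → K * δ ≤ r' → r' ≤ 1 / δ →
    ∀ x ∈ (Y.Px p).S, ∀ j < σ.C * p.u, ∀ o ∈ Y.P.S, ∀ χ : σ.Al → ℝ, Y.E x.1 o → ∑ a, |χ a| = 1 →
    (∀ a a' : σ.Al, |∑ f : σ.Al, Y.ck σ x.1 (Y.cp x.1 o) a.1 a'.1 f.1 * χ f| ≤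
      exp (-(2 * r' * p.u))) →
    pb (cE (Haz.pc Y.P Y.l Y.zz (Y.c₀ + (lv σ p x + j)) o) (Haz.one Y.zz (Y.c₀ + (lv σ p x + j))))
      (fun v => Haz.one Y.zz (Y.c₀ + (lv σ p x + j)) v ∧
        |∑ a, χ a * (exp (σ.mu a.1 * j) * Y.bb σ p x o v a)| ≤ exp (-(r' * p.u))) ≤
      exp (-(r' * p.u / (K * Y.k))) := by
  classical
  obtain ⟨C, c0, R⟩ := P7.Cd.rel σ.toKc s.m0 s.vt0
  have L0 := one_pos.trans_le s.one
  obtain ⟨k, hk⟩ : ∃ k : ℝ, k = Fintype.card κ := ⟨_, rfl⟩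
  have k0 : 0 ≤ k := hk ▸ Nat.cast_nonneg _
  have C0 : (0 : ℝ) ≤ σ.C := Nat.cast_nonneg _
  have CC := mul_nonneg C0 C0
  refine ⟨2 + σ.C + 2 * (2 + 2 * k + σ.C * σ.C) + 2 * (σ.L + 1 + 2 * C), by linarith,
    fun Y p K e w r δ r' hK H r1 r2 x hx j j3 o ho χ hE x1 x2 => ?_⟩
  have k2 : 2 ≤ K := by linarith
  have kC : σ.C ≤ K := by linarith
  obtain ⟨u1, uL, -, nw, -, dh, Ln⟩ := num H k2
  obtain ⟨d0, -, e1, eu, ⟨kk, ke⟩, -, uL', -⟩ := H.num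
  have hr : 0 < r' := lt_of_lt_of_le (by positivity) r1
  have rL : r' * p.u ≤ p.L := (mul_le_mul r2 uL' (by linarith) (by positivity)).trans_eq (by
    field_simp)
  have eu' : e ≤ δ * p.u := eu.trans (mul_le_mul_of_nonneg_right
    (by rw [pow_two]; exact mul_le_of_le_one_left d0.le (by linarith)) (by linarith))
  have eu1 : e ≤ p.u := eu'.trans (mul_le_of_le_one_left (by linarith) (by linarith))
  have big : 2 * (r' * p.u) + 4 * p.u + 4 * (k * p.u) + 2 * (σ.C * σ.C * p.u) ≤ p.nb := by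
    linarith [mul_le_mul_of_nonneg_right (show 4 + 4 * k + 2 * (σ.C * σ.C) ≤ K by linarith)
      (zero_le_one.trans u1), mul_le_mul_of_nonneg_right (show 3 ≤ K by linarith)
      (Nat.cast_nonneg (α := ℝ) p.L)]
  have ru : 0 ≤ r' * p.u := by positivity
  have ku : k ≤ k * p.u := le_mul_of_one_le_right k0 u1
  have cu : 0 ≤ σ.C * σ.C * (p.u : ℝ) := by positivity
  have ek : k ≤ exp k := by linarith [add_one_le_exp k]
  have e2 : 2 * exp (-(r' * p.u)) ≤ exp (-(r' * p.u - 1)) := by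
    rw [neg_sub, sub_eq_add_neg, exp_add]
    exact mul_le_mul_of_nonneg_right (by linarith [add_one_le_exp (1 : ℝ)]) (exp_pos _).le
  obtain ⟨w1, -⟩ := win s H k2 kC hx
  have hi : x.1 < Y.nD := by
    have := mem_un ((mem_bind _ _ _).1 hx).1
    have := nD_pos H k2
    omega
  have V := H.st.val _ hi o ho hE
  have mC : ∀ b, σ.mu b ≤ σ.C := fun b =>
    (s.mC b).trans (mul_le_of_le_one_right C0 lg_lt_one.le)
  have ex : ∀ F : κ → ℝ → ℝ, (∀ b, F b 0 = 0) →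
      ∑ b, F b (if h : σ.toKc.G1 b then χ ⟨b, h⟩ else 0) = ∑ a : σ.Al, F a.1 (χ a) := fun F f => by
    rw [← Fintype.sum_subtype_add_sum_subtype σ.toKc.G1, sum_eq_zero (s := univ)
      (f := fun b : {b // ¬σ.toKc.G1 b} => _) fun b _ => by rw [dif_neg b.2, f], add_zero]
    exact sum_congr (by congr; exact Subsingleton.elim _ _) fun a _ => by rw [dif_pos a.2]
  have l1 : ∀ {F : σ.Al → ℝ} {t : ℝ}, (∀ a, |F a| ≤ t) → |∑ a, χ a * F a| ≤ t := fun {F t} f =>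
    (abs_sum_le_sum_abs _ _).trans ((sum_le_sum fun a _ => (abs_mul _ _).trans_le
      (mul_le_mul_of_nonneg_left (f a) (abs_nonneg _))).trans_eq (by rw [← sum_mul, x1, one_mul]))
  refine (R _ _ _ Y.X Y.l Y.zz Y.k Y.c₀ (lv σ p x + j) Y.W e w (r' * p.u - 1) 0 o
    (fun b => if h : σ.toKc.G1 b then χ ⟨b, h⟩ else 0) _ (by linarith)
    (fun b => by linarith [mC b]) (H.ok.ac _ (by omega)) (H.ok.inc _ (by omega))
    (fun ω hω d a1 a2 a b f a3 a4 => H.ok.algL ω hω a b f a3 a4 d a1 a2) H.ok.alg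
    (Nat.cast_le.2 (by omega)) ho (H.ok.fr o ho).2.1 (H.ok.fr o ho).1 (fun v hv y => ?_)
    (by linarith) ?_ (fun b y => by_contra fun n => y (dif_neg n)) (fun b b' y y' => ?_)
    fun v hv y t => ⟨t.1, ?_⟩).trans (ex_le ?_)
  · have := H.ok.fB v hv o ho (H.ok.top v hv o ho (Haz.fnO (by omega) v hv o ho y))
    exact ⟨congrArg Prod.fst this, congrArg Prod.snd this, ((H.ok.fr o ho).2.2 v hv).2.1⟩
  · rw [ex (fun _ y => |y|) fun _ => abs_zero, x1]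
    exact exp_le_one_iff.2 (by linarith)
  · have a1 := x2 ⟨b, y⟩ ⟨b', y'⟩
    have a2 := l1 (F := fun f => Y.X.c o b b' f.1 - Y.ck σ x.1 (Y.cp x.1 o) b b' f.1)
      (t := exp (-(r' * p.u))) fun f => by
        rw [ck_al V y y' f.2]
        refine (P7.Cd.cst s.vt0 H.ok.fr V.mem.1 ho (H.ok.alg _ V.mem.1) (fun a c g => ?_) y y'
          f.2).trans ?_
        · refine le_trans ?_ (H.ok.rr x.1 (by have := H.num.nT; omega) _ V.mem.1 o ho V.mem.2 a c)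
          rw [abs_mul, abs_exp]
          refine le_mul_of_one_le_left (abs_nonneg _) (one_le_exp (mul_nonneg ?_ ?_))
          · simp only [Kk.vt]
            linarith [s.vt0 c, g.2]
          · exact mul_nonneg (Nat.cast_nonneg _) H.ok.ms.1.le
        · rw [← hk]
          refine (mul_le_mul_of_nonneg_right (pow_le_pow_left₀ k0 ek 2) (exp_pos _).le).trans ?_
          rw [← exp_nat_mul, ← exp_add]
          exact ex_le (by push_cast; linarith)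
    rw [ex (fun f y => Y.X.c o b b' f * y) fun _ => mul_zero _]
    simp only [mul_sub, sum_sub_distrib] at a2
    simp only [mul_comm (χ _)] at a2
    have a3 := ex_le (show -(2 * r' * p.u) ≤ -(r' * p.u) by linarith)
    exact (abs_sub_abs_le_abs_sub _ _ |>.trans a2 |> sub_le_iff_le_add.1).trans (by linarith)
  · have a2 := l1 (F := fun a => exp (σ.mu a.1 * j) * (exp (σ.mu a.1 * lv σ p x) * Y.t o v a.1) -
        exp (σ.mu a.1 * j) * Y.bb σ p x o v a) (t := exp (-(r' * p.u))) fun a => by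
      rw [← mul_sub, abs_mul, abs_sub_comm, abs_exp]
      refine (mul_le_mul_of_nonneg_left (rd_sub _ _) (exp_pos _).le).trans ?_
      rw [← exp_add]
      have b1 : σ.mu a.1 * j ≤ σ.C * (σ.C * p.u) :=
        mul_le_mul (mC _) (by exact_mod_cast j3.le) (Nat.cast_nonneg _) C0
      have b2 : (p.nb : ℝ) * (1 / 2) ≤ p.nb * lg :=
        mul_le_mul_of_nonneg_left (by linarith [log_two_gt_d9, show lg = log 2 from rfl])
          (Nat.cast_nonneg _)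
      exact ex_le (by linarith)
    rw [sub_zero, ex (fun b y => y * (exp (σ.mu b * (lv σ p x + j : ℕ)) *
      GA.lg (Y.X.B o) (Y.X.j o) (Y.X.j v) b)) fun _ => zero_mul _]
    simp only [mul_sub, sum_sub_distrib, ← mul_assoc (exp _), ← exp_add] at a2
    simp only [Nat.cast_add, mul_add, add_comm (_ * (lv σ p x : ℝ))]
    exact (abs_sub_abs_le_abs_sub _ _ |>.trans a2 |> sub_le_iff_le_add.1).trans (by linarith [t.2])
  · have kp : (0 : ℝ) < Y.k := (pos_iff_pos_of_mul_pos (one_pos.trans_le kk)).1 d0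
    rw [← div_div, ← neg_div]
    refine div_le_div_of_nonneg_right ?_ kp.le
    rw [sub_le_iff_le_add', ← sub_le_iff_le_add, le_div_iff₀ L0, sub_neg_eq_add, add_mul]
    have b1 : r' * p.u / K * σ.L ≤ r' * p.u / 2 := by
      rw [div_mul_eq_mul_div, div_le_div_iff₀ (by linarith) two_pos, mul_assoc]
      exact mul_le_mul_of_nonneg_left (by linarith) ru
    have b2 := mul_le_mul_of_nonneg_right r1 (zero_le_one.trans u1)
    have b3 := mul_le_mul_of_nonneg_left eu' (show 0 ≤ K by linarith)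
    have b4 := mul_le_mul_of_nonneg_left (show 1 ≤ e by linarith) c0
    have b5 := mul_le_mul_of_nonneg_right (show 2 * (σ.L + 1 + 2 * C) ≤ K by linarith)
      (show 0 ≤ e by linarith)
    linarith

end AcA

open AcA in
/-- The coefficients of the relative are not thin on characters. -/
theorem ac (s : σ.Ok) : ∃ K₀ : ℝ, 1 ≤ K₀ ∧ ∀ (Y : Wd ι κ) (p : Pm) (K e w r δ r' δ' : ℝ),
    K₀ ≤ K → Y.Hyp σ p K e w r δ → K * δ ≤ r' → r' ≤ 1 / δ → K * δ ≤ δ' ^ 2 → 0 < δ' →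
    exp (-(r' * p.u / (K * Y.k))) ≤ δ' / 2 → (Y.bd σ p).Ac (σ.bc s) r' δ' := by
  obtain ⟨K₀, k0, R⟩ := core s
  have cc0 := s.cc0
  have c1 : 0 ≤ 42 / σ.cc := by positivity
  refine ⟨K₀ + 42 / σ.cc, by linarith [Nat.cast_nonneg (α := ℝ) σ.C],
    fun Y p K e w r δ r' δ' hK H r1 r2 r3 hδ r4 => ?_⟩
  have C0 : (0 : ℝ) ≤ σ.C := Nat.cast_nonneg _
  have k2 : 2 ≤ K := by linarith
  have kC : σ.C ≤ K := by linarith
  refine MP_4b405e_nt.FB.Bd.ac_of (X := Y.bd σ p)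
    (Θ := fun z : Par × ((ℕ × Y.Ω) × Y.Ω) => (z.1, z.2.1))
    (B := fun z : Par × ((ℕ × Y.Ω) × Y.Ω) => ¬Gp Y z.2) hδ
    (fun a _ b _ q => ?_) (fun a _ b _ q => ?_) ((bad s H k2 kC).trans ?_) fun χ => ?_
  · obtain ⟨q1, q2⟩ := Prod.mk.inj (Prod.mk.inj q).1
    simp only [bd, (Prod.mk.inj q2).1]
    rw [q1]
  · obtain ⟨a1, a2, a3⟩ := a
    obtain ⟨b1, b2, b3⟩ := b
    obtain ⟨rfl, rfl⟩ := Prod.mk.inj q
    rfl
  · have := mul_le_mul_of_nonneg_right (show 42 / σ.cc ≤ K by linarith) H.num.d0.le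
    rw [show 21 * δ / σ.cc = 42 / σ.cc * δ / 2 by ring]
    linarith
  refine (Fib.res (P := Y.P1 σ p) (T := fun z => Y.E z.1.1 z.2.1.2 ∧ _)
    (Fib.par fun x hx => Fib.fst fun a ha => ?_)
    fun a _ b _ q => ?_).mono (fun z hz t => ⟨(memE s H k2 hz).2, t⟩) le_rfl
  swap
  · obtain ⟨q1, q2⟩ := Prod.mk.inj q
    simp only [q1, q2]
  obtain ⟨j, o⟩ := a
  obtain ⟨hj, ho⟩ := (mem_bind _ _ _).1 ha
  obtain ⟨j1, j2⟩ := mem_Ico.1 hj
  obtain ⟨j, rfl⟩ := Nat.exists_eq_add_of_le j1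
  rw [(AcA.win s H k2 kC hx).2] at j2
  by_contra q
  obtain ⟨v₀, -, hE, -, ⟨x1, x2⟩, -⟩ := ex_of_pb ((half_pos hδ).trans (not_le.1 q))
  have := (R Y p K e w r δ r' (by linarith) H r1 r2 x hx j (by simp only at j2; omega) o ho
    χ hE x1 x2).trans r4
  rw [← add_assoc] at this
  refine q (le_trans (pb_mono fun v _ t => ⟨(not_not.1 t.2.1).1, ?_⟩) this)
  simpa [bd, Kk.bc] using t.2.2.2

end Pool.Agent.MP_5168f5_an.QA.SC.Wd

namespace Pool.Agent.MP_5168f5_an.QA.SC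

theorem rowAc : RowAc := fun _ _ _ _ _ _ _ h =>
  (Wd.ac h).imp fun K k => ⟨k.1, fun Y p e w r δ H r' s => k.2 Y p K e w r δ r' s le_rfl H⟩

end Pool.Agent.MP_5168f5_an.QA.SC
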