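import Pool.Agent.MP_5168f5_an.QA.P7CC

/-! Sparse heights, block B: consequences of robustness. -/

namespace Pool.Agent.MP_5168f5_an.QA.SB

open H19 H17S H17F Finset Matrix

variable {κ ν Ω : Type} [Fintype κ] [Fintype ν]

/-- Robustness at the level `h`: the event `E` is not contained in the set of samples on which a
homogeneous unit character is thin. -/
def Rb (μ : κ → ℝ) (G : κ → Prop) (c : κ → κ → κ → ℝ) (R : Ω → κ → κ → ℝ) (E : Ω → Prop)
    (h : ℝ) : Prop := ∀ (l : κ → ℝ) (s : ℝ), ∑ e, |l e| = 1 →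
  (∀ e, l e ≠ 0 → 0 < μ e ∧ μ e = s) →
  (∀ b b', 0 < μ b → 0 < μ b' → |∑ e, c b b' e * l e| ≤ Real.exp (-h)) →
  ∃ v, E v ∧ ∃ b, G b ∧ Real.exp (-h) < |∑ e, l e * R v b e|

/-- An event of large mass in a cell is robust. -/
theorem rb_of {ι Λ : Type} [Fintype ι] [DecidableEq ι] [DecidableEq κ] {σ : P7.Kc ι κ}
    {X : P7.Cd ι κ Ω Λ} {a : ℚ≥0} {u w h : ℝ} (k : X.Rob σ a u w) {ω : Ω} (hω : ω ∈ X.P.S)
    (hw : h ≤ w) {E : Ω → Prop} (hE : Real.exp (u - h / σ.L) < pb (X.fb false a ω) E) :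
    Rb σ.mu σ.G1 (X.c ω) (fun v => X.rr σ a ω v) (fun v => v ∈ (X.fb false a ω).S ∧ E v) h := by
  intro l s h1 h2 h3
  by_contra n
  push Not at n
  exact hE.not_ge ((pb_mono fun v hv e => n v ⟨hv, e⟩).trans (k ω hω h hw l s h1 h2 h3))

variable {μ : κ → ℝ} {G : κ → Prop} {c : κ → κ → κ → ℝ} {R : Ω → κ → κ → ℝ} {E : Ω → Prop}
  {h δ L : ℝ}

/-- A thin homogeneous character is small. -/
theorem Rb.small (k : Rb μ G c R E h) {l : κ → ℝ} {s : ℝ} (d0 : 0 ≤ δ)
    (h2 : ∀ e, l e ≠ 0 → 0 < μ e ∧ μ e = s)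
    (h3 : ∀ b b', 0 < μ b → 0 < μ b' → |∑ e, c b b' e * l e| ≤ δ)
    (h4 : ∀ v, E v → ∀ b, G b → |∑ e, l e * R v b e| ≤ δ) : ∑ e, |l e| ≤ Real.exp h * δ := by
  by_contra n
  push Not at n
  obtain ⟨S, hS⟩ : ∃ S, S = ∑ e, |l e| := ⟨_, rfl⟩
  rw [← hS] at n
  have S0 : 0 < S := lt_of_le_of_lt (by positivity) n
  have q : ∀ x : ℝ, |x| ≤ δ → |S⁻¹ * x| ≤ Real.exp (-h) := fun x hx => by
    rw [abs_mul, abs_of_pos (inv_pos.2 S0), inv_mul_le_iff₀ S0, Real.exp_neg,
      le_mul_inv_iff₀ (Real.exp_pos h)]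
    nlinarith [Real.exp_pos h]
  obtain ⟨v, hv, b, hb, z⟩ := k (fun e => S⁻¹ * l e) s
    (by simp only [abs_mul, abs_of_pos (inv_pos.2 S0), ← mul_sum, ← hS, inv_mul_cancel₀ S0.ne'])
    (fun e he => h2 e (right_ne_zero_of_mul he)) fun b b' p p' => by
      simpa only [mul_sum, mul_left_comm] using q _ (h3 b b' p p')
  exact z.not_ge (by simpa only [mul_sum, mul_assoc] using q _ (h4 v hv b hb))

omit [Fintype κ] in
theorem sum_le {f g : ν → ℝ} {A B : ℝ} (hf : ∀ p, |f p| ≤ A) (hg : ∀ p, |g p| ≤ B) :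
    |∑ p, f p * g p| ≤ Fintype.card ν * (A * B) :=
  (abs_sum_le_sum_abs _ _).trans ((sum_le_card_nsmul _ _ (A * B) fun p _ => by
    rw [abs_mul]
    exact mul_le_mul (hf p) (hg p) (abs_nonneg _) ((abs_nonneg _).trans (hf p))).trans_eq
      (by rw [card_univ, nsmul_eq_mul]))

omit [Fintype κ] in
theorem vm_le {ξ : ν → ℝ} (x1 : ∑ p, |ξ p| ≤ 1) {A : Matrix ν ν ℝ} {B : ℝ} {q : ν} (b0 : 0 ≤ B)
    (hA : ∀ p, |A p q| ≤ B) : |(ξ ᵥ* A) q| ≤ B :=
  (abs_sum_le_sum_abs _ _).trans ((sum_le_sum (g := fun p => |ξ p| * B) fun p _ => by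
    rw [abs_mul]; exact mul_le_mul_of_nonneg_left (hA p) (abs_nonneg _)).trans
      (by rw [← sum_mul]; exact mul_le_of_le_one_left b0 x1))

/-- A functional on a module that kills the directions of many samples kills the algebra. -/
theorem Rb.kill (k : Rb μ G c R E h) (h0 : 0 ≤ h) (d0 : 0 ≤ δ) (l1 : 1 ≤ L)
    (ρ : κ → Matrix ν ν ℝ) (ξ : ν → ℝ) (x1 : ∑ p, |ξ p| ≤ 1) (hρ : ∀ a p q, |ρ a p q| ≤ L)
    (gR : ∀ v, E v → ∀ b, G b → ∀ e, R v b e ≠ 0 → μ e = μ b)
    (gc : ∀ b b' e, 0 < μ b → 0 < μ b' → μ e ≠ μ b + μ b' → ρ e = 0 ∨ |c b b' e| ≤ δ)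
    (rep : ∀ b b' p q, 0 < μ b → 0 < μ b' →
      |(ρ b * ρ b' - ρ b' * ρ b) p q - ∑ e, c b b' e * ρ e p q| ≤ δ)
    (th : ∀ v, E v → ∀ b, G b → ∀ q, |∑ e, R v b e * (ξ ᵥ* ρ e) q| ≤ δ) (a : κ) (ha : 0 < μ a)
    (q : ν) : |(ξ ᵥ* ρ a) q| ≤
      (Real.exp h * ((Fintype.card κ + 2 * Fintype.card ν + 1) * L)) ^ Fintype.card κ * δ := by
  classical
  obtain ⟨K, hK⟩ : ∃ K : ℝ, K = (Fintype.card κ + 2 * Fintype.card ν + 1) * L := ⟨_, rfl⟩
  have L0 := zero_le_one.trans l1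
  have K1 : 1 ≤ K := hK ▸ one_le_mul_of_one_le_of_one_le
    (le_add_of_nonneg_left (by positivity)) l1
  have A1 : 1 ≤ Real.exp h * K := one_le_mul_of_one_le_of_one_le (Real.one_le_exp h0) K1
  have b1 : ∀ e q, |(ξ ᵥ* ρ e) q| ≤ L := fun e q => vm_le x1 L0 fun p => hρ e p q
  rw [← hK]
  suffices s : ∀ n : ℕ, ∀ a, 0 < μ a → (univ.filter fun e => μ e < μ a).card < n → ∀ q,
      |(ξ ᵥ* ρ a) q| ≤ (Real.exp h * K) ^ n * δ from s _ a ha (card_lt_card
    (ssubset_univ_iff.2 fun z => by simpa using z.ge (mem_univ a))) q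
  intro n
  induction n with
  | zero => exact fun _ _ z => absurd z (Nat.not_lt_zero _)
  | succ n ih =>
    intro a ha z q
    obtain ⟨D, hD⟩ : ∃ D, D = (Real.exp h * K) ^ n * δ := ⟨_, rfl⟩
    have dD : δ ≤ D := hD ▸ le_mul_of_one_le_left d0 (one_le_pow₀ A1)
    have D0 := d0.trans dD
    have lt : ∀ b, 0 < μ b → μ b < μ a → ∀ p, |(ξ ᵥ* ρ b) p| ≤ D := fun b p0 p1 =>
      hD ▸ ih b p0 (lt_of_lt_of_le (card_lt_card ⟨fun e he => by
        simpa using (mem_filter.1 he).2.trans p1, fun y => by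
          simpa using y (show b ∈ univ.filter fun e => μ e < μ a by simpa using p1)⟩)
        (Nat.lt_succ_iff.1 z))
    have sm : ∀ b b' e, 0 < μ b → 0 < μ b' → μ e ≠ μ b + μ b' → ∀ x : ℝ,
        (ρ e = 0 → x = 0) → |x| ≤ L → |c b b' e * x| ≤ D * L := fun b b' e p p' y x x0 x1 => by
      rcases gc b b' e p p' y with w | w
      · rw [x0 w, mul_zero, abs_zero]; positivity
      · rw [abs_mul]; exact mul_le_mul (w.trans dD) x1 (abs_nonneg _) D0
    have cK : ∀ f : κ → ℝ, (∀ e, |f e| ≤ D * L) → |∑ e, f e| ≤ Fintype.card κ * (D * L) :=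
      fun f hf => by simpa using sum_le (f := f) (g := fun _ => 1) (B := 1) hf (by simp)
    have p1 : 0 ≤ (Fintype.card ν : ℝ) * (D * L) := by positivity
    have p2 : 0 ≤ (Fintype.card κ : ℝ) * (D * L) := by positivity
    have p3 : D ≤ D * L := le_mul_of_one_le_right D0 l1
    have := k.small (l := fun e => if μ e = μ a then (ξ ᵥ* ρ e) q else 0) (s := μ a) (δ := K * D)
      (by positivity) (fun e he => by
        have : μ e = μ a := by by_contra y; exact he (if_neg y)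
        exact ⟨this ▸ ha, this⟩) (fun b b' p p' => ?_) fun v hv b hb => ?_
    · refine le_trans ?_ (this.trans_eq (by rw [hD]; ring))
      simpa using single_le_sum (f := fun e => |if μ e = μ a then (ξ ᵥ* ρ e) q else 0|)
        (fun _ _ => abs_nonneg _) (mem_univ a)
    · by_cases y : μ a = μ b + μ b'
      · have e1 : ∑ e, c b b' e * (if μ e = μ a then (ξ ᵥ* ρ e) q else 0) =
            ∑ p, (ξ ᵥ* ρ b) p * ρ b' p q - ∑ p, (ξ ᵥ* ρ b') p * ρ b p q -
            (ξ ᵥ* (ρ b * ρ b' - ρ b' * ρ b - ∑ e, c b b' e • ρ e)) q -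
            ∑ e, c b b' e * (if μ e = μ a then 0 else (ξ ᵥ* ρ e) q) := by
          rw [vecMul_sub, vecMul_sub, ← vecMul_vecMul, ← vecMul_vecMul, vecMul_sum]
          simp only [Pi.sub_apply, Finset.sum_apply, vecMul_smul, Pi.smul_apply, smul_eq_mul]
          rw [eq_sub_iff_add_eq, ← sum_add_distrib, sum_congr rfl fun e _ =>
            show _ = c b b' e * (ξ ᵥ* ρ e) q by split_ifs <;> ring]
          simp only [vecMul, dotProduct]
          ring
        have a1 := abs_le.1 (sum_le (lt b p (by linarith)) fun r => hρ b' r q)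
        have a2 := abs_le.1 (sum_le (lt b' p' (by linarith)) fun r => hρ b r q)
        have a3 := abs_le.1 (vm_le x1 (q := q) d0 (A := ρ b * ρ b' - ρ b' * ρ b -
          ∑ e, c b b' e • ρ e) fun r => by simpa [Matrix.sum_apply] using rep b b' r q p p')
        have a4 := abs_le.1 (cK (fun e => c b b' e * if μ e = μ a then 0 else (ξ ᵥ* ρ e) q)
          fun e => by
            split_ifs with w
            · rw [mul_zero, abs_zero]; positivity
            · exact sm b b' e p p' (y ▸ w) _ (fun r => by simp [r]) (b1 e q))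
        rw [e1, hK, abs_le]
        constructor <;> linarith [a1.1, a1.2, a2.1, a2.2, a3.1, a3.2, a4.1, a4.2]
      · refine (cK _ fun e => ?_).trans (by rw [hK]; linarith)
        split_ifs with w
        · exact sm b b' e p p' (w ▸ y) _ (fun r => by simp [r]) (b1 e q)
        · rw [mul_zero, abs_zero]; positivity
    · refine le_trans ?_ (dD.trans (le_mul_of_one_le_left D0 K1))
      by_cases y : μ b = μ a
      · refine le_of_eq_of_le (congrArg _ (sum_congr rfl fun e _ => ?_)) (th v hv b hb q)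
        by_cases w : R v b e = 0
        · simp [w]
        · rw [if_pos ((gR v hv b hb e w).trans y), mul_comm]
      · rw [sum_eq_zero, abs_zero]
        · exact d0
        · intro e _
          by_cases w : R v b e = 0
          · simp [w]
          · rw [if_neg fun r => y ((gR v hv b hb e w).symm.trans r), zero_mul]

end Pool.Agent.MP_5168f5_an.QA.SB
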