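import Pool.Agent.MP_4b405e_nt.SK.SpH
import Pool.Agent.MP_4b405e_nt.SK.BRob

/-! Sparse slopes, block B: the frames of a state. -/

namespace Pool.Agent.MP_5168f5_an.QA.SH

open H19 H17S H17F R4 AN Filter Matrix Finset
open GA (Mt IsFr mB mC sC sB br)
open P7 (Kc)
open Cp (rp Hw rp_spec rp_eq)

variable {ι κ : Type} [Fintype ι] [DecidableEq ι] [Fintype κ] [DecidableEq κ]

omit [DecidableEq κ] in
/-- The constants after a change of frame. -/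
theorem chg {Φ : H61Z.Filt (Mt ι)} {B B' : κ → Mt ι} {c c' : κ → κ → κ → ℝ} (h : IsFr Φ B c)
    (h' : IsFr Φ B' c') {R : Matrix κ κ ℝ} (e : B' = mB R B) (b b' : κ) :
    c' b b' ᵥ* R = br c (R b) (R b') := by
  refine GA.GAMulA.inj h ?_
  rw [GA.GAMulA.vbr h, ← GA.GAMulA.vl_eq, ← GA.GAFrA.vec_mB, ← e, ← h'.br, e]
  rfl

variable {σ : Kc ι κ} {wk : κ → ℝ} {X : Wo ι κ} {S : St X} {m m' : ℝ} {D d : ℕ} {ω v w : X.Ω}

omit [DecidableEq κ] in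
theorem Ko.le_Vm (ko : Ko σ) (a : κ) : vt σ a + 1 ≤ Vm σ := by
  have := single_le_sum (f := vt σ) (fun b _ => ko.v0 b) (mem_univ a)
  unfold Vm
  linarith

omit [DecidableEq κ] in
theorem Ko.mu_pos (ko : Ko σ) {a : κ} (h : 0 < vt σ a) : 0 < σ.mu a :=
  (ko.m0 a).lt_of_ne fun e => h.ne' (ko.dead a e.symm)

omit [Fintype κ] [DecidableEq κ] in
theorem g1_vt {a : κ} (h : σ.G1 a) : vt σ a = 0 := sub_eq_zero.2 h.2

namespace Wo.Ok

theorem e2 (ok : X.Ok σ m) : 2 ≤ X.e := le_trans (by exact_mod_cast ok.ke.1) ok.ke.2.1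

/-- The cocycle relation in the units of the caps. -/
theorem rr_coc (ok : X.Ok σ m) (hω : ω ∈ X.P.S) (hv : v ∈ X.P.S) (hw : w ∈ X.P.S) (t : ℝ) :
    X.rr σ t ω v = X.rr σ t w v * X.rr σ t ω w := by
  ext b e
  simp only [Wo.rr, mul_apply, (ok.fr ω hω).coc w hw v hv, mul_sum]
  refine sum_congr rfl fun f _ => ?_
  rw [show (vt σ e - vt σ b) * t = (vt σ f - vt σ b) * t + (vt σ e - vt σ f) * t by ring,
    Real.exp_add]
  ring

theorem rr_up (ok : X.Ok σ m) (hω : ω ∈ X.P.S) (hv : v ∈ X.P.S) {t : ℝ} {b e : κ}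
    (h : X.rr σ t ω v b e ≠ (1 : Matrix κ κ ℝ) b e) : σ.mu b = σ.mu e ∧ vt σ b < vt σ e := by
  refine (ok.fr ω hω).up v hv b e fun k => h ?_
  by_cases z : b = e
  · subst z
    simp [Wo.rr, k]
  · simp [Wo.rr, k, z]

theorem rr_gr (ok : X.Ok σ m) (hω : ω ∈ X.P.S) (hv : v ∈ X.P.S) {t : ℝ} {b e : κ}
    (h : X.rr σ t ω v b e ≠ 0) : σ.mu b = σ.mu e ∧ vt σ b ≤ vt σ e := by
  by_cases z : b = e
  · exact ⟨z ▸ rfl, z ▸ le_rfl⟩
  · exact (ok.rr_up hω hv (by rwa [one_apply_ne z])).imp id le_of_lt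

/-- The frame of `v` in the units of the caps. -/
theorem sB_eq (ok : X.Ok σ m) (hω : ω ∈ X.P.S) (hv : v ∈ X.P.S) (t : ℝ) :
    sB (fun a => Real.exp (-(vt σ a * t))) (X.B v) =
      mB (X.rr σ t ω v) (sB (fun a => Real.exp (-(vt σ a * t))) (X.B ω)) := by
  funext b
  rw [GA.mB, GA.GAFrA.vec_sB, sB, (ok.fr ω hω).ch v hv, GA.mB]
  simp only [GA.vec, smul_sum, smul_smul, Wo.rr]
  refine sum_congr rfl fun a _ => ?_
  rw [← mul_assoc, ← Real.exp_add]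
  congr 3
  ring

/-- The constants in the units of the caps. -/
theorem sC_le (ko : Ko σ) (ok : X.Ok σ m) (hω : ω ∈ X.P.S) {t h : ℝ} (t0 : 0 ≤ t)
    (hw : Vm σ * t + h ≤ X.w) (a b e : κ) (e0 : 0 < σ.mu e)
    (n : ¬(Hw σ.mu a b e ∧ vt σ e = vt σ a + vt σ b)) :
    |sC (fun a => Real.exp (-(vt σ a * t))) (X.c ω) a b e| ≤ Real.exp (-h) := by
  rw [sC, mul_assoc, mul_div_assoc, ← Real.exp_add, ← Real.exp_sub, abs_mul, Real.abs_exp]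
  refine (mul_le_mul_of_nonneg_right ((ok.alg ω hω).gr a b e e0 n) (Real.exp_pos _).le).trans ?_
  rw [← Real.exp_add]
  refine Real.exp_le_exp.2 ?_
  nlinarith [mul_nonneg (ko.v0 a) t0, mul_nonneg (ko.v0 b) t0,
    mul_le_mul_of_nonneg_right (ko.le_Vm e) t0]

theorem sC_ob (ko : Ko σ) (ok : X.Ok σ m) (hω : ω ∈ X.P.S) {t : ℝ} (t0 : 0 ≤ t)
    (hw : Vm σ * t ≤ X.w) (a b e : κ) :
    |sC (fun a => Real.exp (-(vt σ a * t))) (X.c ω) a b e| ≤ Real.exp X.e := by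
  by_cases k : vt σ e ≤ vt σ a + vt σ b
  · rw [sC, mul_assoc, mul_div_assoc, ← Real.exp_add, ← Real.exp_sub, abs_mul, Real.abs_exp]
    refine (mul_le_of_le_one_right (abs_nonneg _) (Real.exp_le_one_iff.2 ?_)).trans
      ((ok.alg ω hω).ob a b e)
    nlinarith [mul_le_mul_of_nonneg_right k t0]
  · refine (ok.sC_le ko hω (h := 0) t0 (by linarith) a b e (ko.mu_pos ?_)
      fun n => k n.2.le).trans (Real.exp_le_exp.2 (by linarith [ok.e2]))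
    linarith [not_le.1 k, ko.v0 a, ko.v0 b]

end Wo.Ok

namespace St

variable (σ S) in
/-- The adapted basis of the class of `ω`. -/
noncomputable def BE (D : ℕ) (ω : X.Ω) : κ → Mt ι :=
  mB (S.q D ω) (sB (fun a => Real.exp (-(vt σ a * D))) (X.B (rp X.P (X.C D) ω)))

theorem fr_BE (ok : X.Ok σ m) (hω : ω ∈ X.P.S) (i : S.q D ω * S.q' D ω = 1) :
    IsFr σ.Φ (S.BE σ D ω) (S.cq σ D ω) :=
  Cp.fr_mB (GA.GAFrA.fr_sB (fun _ => Real.exp_pos _) (ok.fr _ (rp_spec _ hω).1).fr) i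

/-- The rows of `φ` are the coordinates of the frame of `v`. -/
theorem phi_B (ok : X.Ok σ m) (hω : ω ∈ X.P.S) (hv : v ∈ X.P.S) (i : S.q D ω * S.q' D ω = 1) :
    sB (fun a => Real.exp (-(vt σ a * D))) (X.B v) = mB (S.φ σ D ω v) (S.BE σ D ω) := by
  rw [ok.sB_eq (rp_spec (X.C D) hω).1 hv]
  funext b
  rw [GA.mB, GA.mB, BE, GA.GAFrA.vec_mB, φ]
  congr 1
  change _ = (X.rr σ D (rp X.P (X.C D) ω) v * S.q' D ω * S.q D ω) b
  rw [Matrix.mul_assoc, mul_eq_one_comm.1 i, Matrix.mul_one]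

theorem phi_br (ok : X.Ok σ m) (hω : ω ∈ X.P.S) (hv : v ∈ X.P.S) (i : S.q D ω * S.q' D ω = 1)
    (b b' : κ) : sC (fun a => Real.exp (-(vt σ a * D))) (X.c v) b b' ᵥ* S.φ σ D ω v =
      br (S.cq σ D ω) (S.φ σ D ω v b) (S.φ σ D ω v b') :=
  chg (fr_BE ok hω i) (GA.GAFrA.fr_sB (fun _ => Real.exp_pos _) (ok.fr v hv).fr)
    (phi_B ok hω hv i) b b'

theorem phi_coc (ok : X.Ok σ m) (hω : ω ∈ X.P.S) (hv : v ∈ X.P.S) (hw : w ∈ X.P.S) :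
    S.φ σ D ω v = X.rr σ D w v * S.φ σ D ω w := by
  rw [φ, φ, ok.rr_coc (rp_spec (X.C D) hω).1 hv hw, Matrix.mul_assoc]

/-- The data of a class. -/
theorem Ok.cls (k : S.Ok σ wk m') (hD : D < X.M) (hω : ω ∈ X.P.S) (hv : v ∈ X.P.S)
    (e : S.cp D v = S.cp D ω) : X.C D v = X.C D ω ∧ (S.E D v ↔ S.E D ω) ∧
    S.cq σ D v = S.cq σ D ω ∧ S.φ σ D v = S.φ σ D ω := by
  have a := k.fC D hD v hv ω hω e
  have b := k.fE D hD v hv ω hω e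
  simp only [Prod.mk.injEq] at b
  refine ⟨a, b.1 ▸ Iff.rfl, ?_, funext fun y => ?_⟩
  · rw [cq, cq, Wo.cc, Wo.cc, rp_eq _ a, b.2.1, b.2.2]
  · rw [φ, φ, rp_eq _ a, b.2.2]

theorem Val.phi_gr (k : S.Val σ wk D ω) (ok : X.Ok σ m) (hω : ω ∈ X.P.S) (hv : v ∈ X.P.S)
    {a p : κ} (h : S.φ σ D ω v a p ≠ 0) : σ.mu a = σ.mu p ∧ (0 < vt σ a → 0 < vt σ p) := by
  rw [φ, mul_apply] at h
  obtain ⟨e, -, z⟩ := exists_ne_zero_of_sum_ne_zero h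
  have a1 := ok.rr_gr (rp_spec (X.C D) hω).1 hv (left_ne_zero_of_mul z)
  by_cases y : e = p
  · exact ⟨y ▸ a1.1, fun x => y ▸ x.trans_le a1.2⟩
  · have a2 := k.v.gr e p (.inr (by rw [one_apply_ne y]; exact right_ne_zero_of_mul z))
    exact ⟨a1.1.trans a2.1, fun _ => a2.2.2⟩

theorem Val.phi_le (k : S.Val σ wk D ω) (ok : X.Ok σ m) (hD : D ≤ 2 * X.M) (hω : ω ∈ X.P.S)
    (hv : v ∈ X.P.S) (e : X.C D v = X.C D ω) (a p : κ) :
    |S.φ σ D ω v a p| ≤ Fintype.card κ * (Real.exp X.e * Real.exp S.e) :=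
  SB.mul_le (ok.ri D hD _ (rp_spec _ hω).1 v hv ((rp_spec _ hω).2.trans e.symm) a)
    fun b => (k.v.ob b p).2

theorem Val.cq_le (k : S.Val σ wk D ω) (ko : Ko σ) (ok : X.Ok σ m) (hω : ω ∈ X.P.S)
    (hw : Vm σ * D ≤ X.w) (a b e : κ) :
    |S.cq σ D ω a b e| ≤ Fintype.card κ ^ 3 * (Real.exp X.e * Real.exp S.e ^ 3) :=
  k.v.mC_le (ok.sC_ob ko (rp_spec _ hω).1 (Nat.cast_nonneg _) hw) a b e

end St

end Pool.Agent.MP_5168f5_an.QA.SH
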