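import Pool.Agent.MP_4b405e_nt.SK.CBr0
import Pool.Agent.MP_4b405e_nt.SK.BFr

/-! Sparse heights: the state and the non-degeneracy of block C, read from a state. -/

namespace Pool.Agent.MP_5168f5_an.QA.SC.Br

open H19 H17S H17F R4 AN Filter Matrix Real Finset
open GA (Mt IsFr br mB mC sB sC)
open P7 (Kc)
open Cp (rp rp_spec rp_eq)
open SH (Wo vt Vm Ko g1_vt)

variable {ι κ : Type} [Fintype ι] [DecidableEq ι] [Fintype κ] [DecidableEq κ]
  {X : Wo ι κ} {S : SH.St X} {σ : Kc ι κ} {wk : κ → ℝ} {be cc m m' : ℝ} {C W1 : ℕ}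

theorem pat {Y : Type} {μ vt wt : κ → ℝ} {pos : κ → Prop} {c : κ → κ → κ → ℝ}
    {φ : Y → Matrix κ κ ℝ} {E : Y → Prop} {g g' : Matrix κ κ ℝ} {L δ : ℝ}
    (h : SB.Val μ vt wt pos c φ E g g' L δ) {b e : κ} (k : g b e ≠ 0 ∨ g' b e ≠ 0) :
    μ b = μ e := by
  by_cases z : b = e
  · rw [z]
  · exact (h.gr b e (by rwa [one_apply_ne z])).1

theorem ml {x y A B : ℝ} (h : |x| ≤ A) (h' : |y| ≤ B) : |x * y| ≤ A * B := by
  rw [abs_mul]; exact mul_le_mul h h' (abs_nonneg _) ((abs_nonneg _).trans h)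

theorem Cp_iff (i : ℕ) (v ω : X.Ω) : (wd S W1).Cp i v = (wd S W1).Cp i ω ↔ X.C i v = X.C i ω :=
  ⟨fun k => Sum.inr.inj ((Cp_eq S i v).symm.trans (k.trans (Cp_eq S i ω))),
    fun k => (Cp_eq S i v).trans ((congrArg Sum.inr k).trans (Cp_eq S i ω).symm)⟩

/-- The state of block C. -/
theorem st_of (o : S.Ok σ wk m') (hc : cc ≤ m') {e r : ℝ} (he : S.e ≤ e) (hr : r ≤ S.r) :
    (wd S W1).St (kk σ wk be cc C) e r := by
  classical
  have q1 : exp S.e ≤ exp e := exp_le_exp.2 he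
  have q2 : exp (-(S.r : ℝ)) ≤ exp (-r) := exp_le_exp.2 (neg_le_neg hr)
  refine ⟨fun i a ha b hb h => ?_, fun i a ha b hb h => ?_, ?_, fun i hi y => ?_,
    fun i hi (ω : X.Ω) hω E => ?_⟩
  · refine propext (and_congr_right fun hi => ?_)
    exact (o.cls hi hb ha (o.fl i hi a ha b hb (Sum.inl.inj h))).2.1
  · show si S i a = si S i b
    unfold si
    split_ifs with hi
    · rw [o.fl i hi a ha b hb (Sum.inl.inj h)]
    · rfl
  · refine ((mul_le_mul_of_nonneg_right hc (Nat.cast_nonneg _)).trans o.mass).trans_eq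
      (sum_congr rfl fun i hi => pb_congr fun ω _ => ?_)
    exact (and_iff_right (mem_range.1 hi)).symm
  · by_cases k : ∃ a ∈ X.P.S, (wd S W1).Cp i a = y
    · obtain ⟨a, ha, rfl⟩ := k
      obtain ⟨T, t1, t2⟩ := S20.few_dn X.P (S.cp i) (X.C i) (exp_pos (-S.e)) a ha
      refine ⟨T.image some, ?_, fun v hv E k => ?_⟩
      · rw [exp_neg, inv_inv] at t1
        exact ((Nat.cast_le.2 card_image_le).trans t1).trans q1
      · exact mem_image.2 ⟨_, t2 v hv ((Cp_iff i v a).1 k) (o.val i hi v hv E.2).cm,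
          (if_pos hi : si S i v = _).symm⟩
    · exact ⟨∅, by simpa using (exp_pos e).le, fun v hv _ z => (k ⟨v, hv, z⟩).elim⟩
  · have g := g_eq (W1 := W1) o hi hω
    have V := (o.val i hi ω hω E.2).v
    refine ⟨?_, ?_, fun a b => ?_, fun a b k => ?_, fun a b => ?_, fun a b f k1 k2 k => ?_,
      fun a b k1 k2 k => ?_, fun b f k1 k2 => ?_⟩
    · rw [v0_eq hi hω]
      exact ⟨(rp_spec (X.C i) hω).1, (Cp_iff i _ ω).2 (rp_spec (X.C i) hω).2⟩
    · rw [g.1, g.2]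
      exact V.inv
    · rw [g.1, g.2]
      exact pat V
    · rw [g.1, g.2]
      by_contra z
      have := V.gr a b (not_and_or.1 z)
      exact k.elim (fun k => k ((nn_iff a).2 this.2.1)) fun k => k ((nn_iff b).2 this.2.2)
    · rw [g.1, g.2]
      exact (V.ob a b).imp (·.trans q1) (·.trans q1)
    · rw [nn_iff] at k1 k2
      rw [wt_eq k1, wt_eq k2] at k
      rw [ck_eq o hi hω]
      exact (V.v1 a b f k1 k2 k).trans q2
    · rw [nn_iff] at k1 k2
      rw [wt_eq k2] at k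
      rw [D_eq, vt_eq, φ_eq o hi hω]
      exact (V.v2 ω ⟨hω, rfl⟩ a b k1 k2 k).trans q2
    · rw [g.1, g.2]
      rw [nn_iff] at k1 k2
      exact ⟨fun z y => (V.v3 b f (fun x => z ⟨x, k1⟩) y).1.trans q2,
        fun z y => (V.v3 f b y z.1).2.trans q2⟩

/-- Only the constants of the same weights count. -/
theorem mC_gr {Y : Type} {μ vt wt : κ → ℝ} {pos : κ → Prop} {c : κ → κ → κ → ℝ}
    {φ : Y → Matrix κ κ ℝ} {E : Y → Prop} {g g' : Matrix κ κ ℝ} {L δ K : ℝ}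
    (h : SB.Val μ vt wt pos c φ E g g' L δ) {a b e : κ} (K0 : 0 ≤ K)
    (hc : ∀ a' b' e', μ a = μ a' → μ b = μ b' → μ e' = μ e → |c a' b' e'| ≤ K) :
    |mC g g' c a b e| ≤ Fintype.card κ ^ 3 * (K * L ^ 3) := by
  classical
  have L0 : 0 ≤ L := (abs_nonneg _).trans (h.ob a a).1
  simp only [mC, br, vecMul, dotProduct, sum_mul]
  refine (abs_sum_le_sum_abs _ _).trans ((sum_le_card_nsmul _ _
    (Fintype.card κ ^ 2 * (K * L ^ 3)) fun e' _ => ?_).trans_eq ?_)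
  · refine (abs_sum_le_sum_abs _ _).trans ((sum_le_card_nsmul _ _
      (Fintype.card κ * (K * L ^ 3)) fun a' _ => ?_).trans_eq ?_)
    · refine (abs_sum_le_sum_abs _ _).trans ((sum_le_card_nsmul _ _ (K * L ^ 3)
        fun b' _ => ?_).trans_eq ?_)
      · by_cases z : g a a' = 0 ∨ g b b' = 0 ∨ g' e' e = 0
        · rcases z with z | z | z <;> rw [z] <;> simp <;> positivity
        push Not at z
        exact (ml (ml (ml (hc a' b' e' (pat h (.inl z.1)) (pat h (.inl z.2.1))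
          (pat h (.inr z.2.2))) (h.ob a a').1) (h.ob b b').1) (h.ob e' e).2).trans_eq (by ring)
      · rw [nsmul_eq_mul, card_univ]
    · rw [nsmul_eq_mul, card_univ]; ring
  · rw [nsmul_eq_mul, card_univ]; ring

theorem br_one (c : κ → κ → κ → ℝ) (x : κ → ℝ) (q p : κ) :
    br c x (Pi.single q 1) p = ∑ e, x e * c e q p := by
  simp [br, Pi.single_apply, mul_comm]

/-- The action at `v` is the graded action at a point of the same subcap. -/
theorem act_le (ko : Ko σ) (ok : X.Ok σ m) (o : S.Ok σ wk m') {θ h : ℝ}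
    (hθ : ∀ a, 0 < vt σ a → θ ≤ vt σ a) {D d : ℕ} (hD : D < X.M) (hd : D + d ≤ 2 * X.M)
    {v y : X.Ω} (hv : v ∈ X.P.S) (E : S.E D v) (hy : y ∈ X.P.S)
    (e1 : X.C (D + d) y = X.C (D + d) v) (h0 : 0 ≤ h)
    (c1 : 6 * Fintype.card κ + 7 * S.e + h ≤ θ * d)
    (c2 : 5 * Fintype.card κ + 5 * S.e + h + Vm σ * X.M ≤ X.w) {a q p : κ} (ha : σ.G1 a)
    (hp : 0 < vt σ p) : |S.act σ D v a q p - if σ.mu p = σ.mu q + σ.mu a then
      br (S.cq σ D v) (S.φ σ D v y a) (Pi.single q 1) p else 0| ≤ exp (-h) := by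
  have V := o.val D hD v hv E
  have n0 : (0 : ℝ) ≤ Fintype.card κ := Nat.cast_nonneg _
  have n1 : (Fintype.card κ : ℝ) ≤ exp (Fintype.card κ) :=
    le_trans (by linarith) (add_one_le_exp _)
  have x1 : exp X.e ≤ exp S.e := exp_le_exp.2 o.le
  have s0 : 0 ≤ S.e := by linarith [o.le, ok.e2]
  have V0 : 0 ≤ Vm σ := by linarith [ko.le_Vm a, ko.v0 a]
  have dM : Vm σ * D ≤ Vm σ * X.M := mul_le_mul_of_nonneg_left (Nat.cast_le.2 hD.le) V0
  have fin : ∀ (k l : ℕ) (t : ℝ), k * (Fintype.card κ : ℝ) + l * S.e + h ≤ t →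
      (Fintype.card κ : ℝ) ^ k * exp S.e ^ l * exp (-t) ≤ exp (-h) := fun k l t z => by
    refine (mul_le_mul_of_nonneg_right (mul_le_mul_of_nonneg_right
      (pow_le_pow_left₀ n0 n1 k) (by positivity)) (by positivity)).trans ?_
    rw [← exp_nat_mul, ← exp_nat_mul, ← exp_add, ← exp_add]
    exact exp_le_exp.2 (by linarith)
  unfold SH.St.act
  split_ifs with k
  · rw [br_one, ← sum_sub_distrib]
    simp only [← sub_mul]
    have eC : X.C D y = X.C D v := ok.nest D (D + d) (by omega) hd y hy v hv e1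
    have r : ∀ f, |(X.rr σ D y v - 1) a f| ≤ exp X.e * exp (-(θ * d)) := fun f => by
      by_cases z : X.rr σ D y v a f = (1 : Matrix κ κ ℝ) a f
      · rw [Matrix.sub_apply, z, sub_self, abs_zero]
        positivity
      have u := (ok.rr_up hy hv z).2
      have ne : a ≠ f := fun w => u.ne (by rw [w])
      have i := ok.ri (D + d) hd y hy v hv e1 a f
      rw [g1_vt ha] at u
      have t : X.rr σ D y v a f = X.rr σ (D + d : ℕ) y v a f * exp (-(vt σ f * d)) := by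
        simp only [Wo.rr, g1_vt ha]
        rw [mul_right_comm, ← exp_add]
        congr 2
        push_cast
        ring
      rw [Matrix.sub_apply, one_apply_ne ne, sub_zero, t]
      refine ml i ?_
      rw [abs_exp]
      exact exp_le_exp.2 (neg_le_neg (mul_le_mul_of_nonneg_right (hθ f u) (Nat.cast_nonneg _)))
    have w : ∀ e, |S.φ σ D v v a e - S.φ σ D v y a e| ≤ Fintype.card κ *
        (exp X.e * exp (-(θ * d)) * (Fintype.card κ * (exp X.e * exp S.e))) := fun e => by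
      have := SB.mul_le (e := e) r fun b => V.phi_le ok (by omega) hv hy eC b e
      rwa [Matrix.sub_mul, Matrix.one_mul, ← SH.St.phi_coc ok hv hv hy] at this
    refine (SB.sum_le w fun e => V.cq_le ko ok hv (by linarith) e q p).trans
      (le_trans ?_ (fin 6 7 (θ * d) (by push_cast; linarith)))
    calc _ = (Fintype.card κ : ℝ) ^ 6 * (exp X.e ^ 3 * exp S.e ^ 4) * exp (-(θ * d)) := by ring
      _ ≤ (Fintype.card κ : ℝ) ^ 6 * (exp S.e ^ 3 * exp S.e ^ 4) * exp (-(θ * d)) := by gcongr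
      _ = _ := by ring
  · rw [sub_zero]
    have w : ∀ e, |S.φ σ D v v a e * S.cq σ D v e q p| ≤ Fintype.card κ * (exp X.e * exp S.e) *
        (Fintype.card κ ^ 3 * (exp (-(X.w - Vm σ * X.M)) * exp S.e ^ 3)) := fun e => by
      by_cases z : S.φ σ D v v a e = 0
      · rw [z, zero_mul, abs_zero]
        positivity
      refine ml (V.phi_le ok (by omega) hv hv rfl a e) (mC_gr V.v (exp_pos _).le
        fun a' b' e' k1 k2 k3 => ok.sC_le ko (rp_spec _ hv).1 (Nat.cast_nonneg _) (by linarith)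
          a' b' e' (k3 ▸ ko.mu_pos hp) fun n => k ?_)
      rw [← k3, n.1.2.2, ← k1, ← k2, (V.phi_gr ok hv hv z).1, add_comm]
    refine (abs_sum_le_sum_abs _ _).trans ((sum_le_card_nsmul _ _ _ fun e _ => w e).trans
      (le_trans ?_ (fin 5 5 (X.w - Vm σ * X.M) (by push_cast; linarith))))
    rw [nsmul_eq_mul, card_univ]
    calc _ = (Fintype.card κ : ℝ) ^ 5 * (exp X.e * exp S.e ^ 4) * exp (-(X.w - Vm σ * X.M)) := by
          ring
      _ ≤ (Fintype.card κ : ℝ) ^ 5 * (exp S.e * exp S.e ^ 4) * exp (-(X.w - Vm σ * X.M)) := by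
          gcongr
      _ = _ := by ring

theorem φ_g1 (o : S.Ok σ wk m') {i : ℕ} (hi : i < X.M) {v : X.Ω} (hv : v ∈ X.P.S) (y : X.Ω)
    {a : κ} (ha : σ.G1 a) :
    (wd S W1).φ (kk σ wk be cc C) i ((wd S W1).cp i v) y a = S.φ σ i v y a := funext fun p => by
  have := φ_eq (be := be) (cc := cc) (C := C) (W1 := W1) o hi hv y a p
  rwa [g1_vt ha, zero_mul, neg_zero, exp_zero, one_mul] at this

theorem ρ0_eq (o : S.Ok σ wk m') {i : ℕ} (hi : i < X.M) (i' : ℕ) {v : X.Ω} (hv : v ∈ X.P.S)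
    {a p q : κ} (ha : σ.G1 a) (hp : 0 < vt σ p) (hq : 0 < vt σ q) (e : wk p = wk q) :
    (wd S W1).ρ0 (kk σ wk be cc C) i i' v a p q = if σ.mu p = σ.mu q + σ.mu a then
      br (S.cq σ i v) (S.φ σ i v ((wd S W1).v1 i i' v) a) (Pi.single q 1) p else 0 :=
  if_congr (and_iff_left ((wt_eq hp).trans (e.trans (wt_eq hq).symm)))
    (congrArg₂ (fun c x => br c x (Pi.single q 1) p) (ck_eq o hi hv) (φ_g1 o hi hv _ ha)) rfl

theorem θ0_eq (o : S.Ok σ wk m') {i : ℕ} (hi : i < X.M) (i' : ℕ) (d : ℝ) {v : X.Ω}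
    (hv : v ∈ X.P.S) {a p : κ} (ha : σ.G1 a) (hp : 0 < vt σ p) :
    (wd S W1).θ0 (kk σ wk be cc C) i i' d v a p =
      exp (wk p * d) * (S.φ σ i v v a p - S.φ σ i v ((wd S W1).v1 i i' v) a p) :=
  congrArg₂ (· * ·) (congrArg (fun t => exp (t * d)) (wt_eq hp))
    (congrArg₂ (· - ·) (congrFun (φ_g1 o hi hv _ ha) p) (congrFun (φ_g1 o hi hv _ ha) p))

/-- The non-degeneracy of block C, explicit conditions. -/
theorem nd_of' (ko : Ko σ) (ok : X.Ok σ m) (o : S.Ok σ wk m') {θ η h h' x δ lo up : ℝ}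
    (hθ : ∀ a, 0 < vt σ a → θ ≤ vt σ a) (θ0 : 0 < θ) (nd : S.Ndx σ wk η h' x δ) (h0 : 0 ≤ h)
    (hh : h' + 1 ≤ h) (a1 : η * S.r ≤ lo) (a2 : 2 * Vm σ * up ≤ S.r)
    (c1 : 6 * Fintype.card κ + 7 * S.e + h ≤ θ * lo)
    (c2 : 5 * Fintype.card κ + 5 * S.e + h + Vm σ * X.M ≤ X.w) :
    (wd S W1).Nd (kk σ wk be cc C) h δ x lo up := by
  classical
  obtain ⟨Bad, b1, b2, b3⟩ := nd
  have n0 : (0 : ℝ) ≤ Fintype.card κ := Nat.cast_nonneg _
  have s0 : 0 ≤ S.e := by linarith [o.le, ok.e2]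
  have l0 : 0 ≤ lo := nonneg_of_mul_nonneg_right (by linarith) θ0
  have V0 : 0 ≤ Vm σ := by linarith [ko.le_Vm σ.τ, ko.v0 σ.τ]
  have two : exp (-h) + exp (-h) ≤ exp (-h') := by
    have : exp (-h) * 2 ≤ exp (-h) * exp 1 :=
      mul_le_mul_of_nonneg_left (by linarith [add_one_le_exp 1]) (exp_pos _).le
    rw [← exp_add] at this
    linarith [exp_le_exp.2 (show -h + 1 ≤ -h' by linarith)]
  refine ⟨fun i ω => i < X.M ∧ Bad i ω, fun i a ha b hb k => ?_, ?_,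
    fun i hi i' hi' k1 k2 (ω : X.Ω) hω E ξ un la => ?_⟩
  · exact propext (and_congr_right fun z => iff_of_eq (b1 i z a ha b hb (Sum.inl.inj k)))
  · exact (sum_le_sum fun i _ => pb_mono fun ω _ k => ⟨k.1.2, k.2.2⟩).trans b2
  rw [D_eq, D_eq] at k1 k2
  obtain ⟨d, rfl⟩ : ∃ d, i' = i + d :=
    Nat.exists_eq_add_of_le (Nat.cast_le (α := ℝ).1 (by linarith))
  have dd : ((i + d : ℕ) : ℝ) - i = d := by push_cast; ring
  rw [dd] at k1 k2
  have cv1 : cv X.P ((wd S W1).cp i) ((wd S W1).cp i ω) = cv X.P (S.cp i) (S.cp i ω) :=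
    cE_congr fun v hv => cp_iff o hi hω hv
  have mem : ∀ v ∈ (cv X.P (S.cp i) (S.cp i ω)).S, v ∈ X.P.S ∧ S.cp i v = S.cp i ω :=
    fun v hv => (MX.mem_cv hω v).1 hv
  have key := fun F => S20.pb_cv_cE (P := X.P) (G := fun v => i < X.M ∧ S.E i v) hω E
    ((wd S W1).cp i) F
  rw [cv1, pb_one fun v hv => ⟨hi, (o.cls hi hω (mem v hv).1 (mem v hv).2).2.1.2 E.2⟩] at key
  simp only [one_mul] at key
  refine (key _).trans_le ?_
  obtain ⟨p₀, -, hp⟩ := exists_ne_zero_of_sum_ne_zero (un.1.trans_ne one_ne_zero)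
  have hp : ξ p₀ ≠ 0 := abs_ne_zero.1 hp
  have nn : ∀ p, ξ p ≠ 0 → 0 < vt σ p := fun p z => (nn_iff p).1 (un.2.1 p z)
  have ws : ∀ p, ξ p ≠ 0 → wk p = wk p₀ := fun p z => by
    have := (un.2.2 p p₀ z hp).2
    rwa [wt_eq (nn p z), wt_eq (nn p₀ hp)] at this
  have : Nonempty X.Ω := ⟨ω⟩
  obtain ⟨f, hf⟩ := MX.fn_ex (α := X.Ω) (P := cv X.P (S.cp i) (S.cp i ω))
    (F := (wd S W1).v1 i (i + d)) (X := X.C (i + d)) fun a ha b hb k => N2.rep_congr (Prod.ext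
      ((cp_iff o hi (mem b hb).1 (mem a ha).1).2 ((mem a ha).2.trans (mem b hb).2.symm))
      ((Cp_iff _ a b).2 k))
  refine le_trans (pb_mono fun v hv k => ⟨fun z => k.2.1 ⟨hi, z⟩, fun a ha => ?_⟩)
    (b3 i hi d ⟨a1.trans k1, le_trans (by gcongr) a2⟩ ω hω E.2 (σ.mu p₀) (wk p₀) ξ
      (fun z a => la (.inr z) a + exp (wk p₀ * d) * ∑ p, ξ p * S.φ σ i ω (f z) a p)
      ⟨un.1, fun p z => ⟨nn p z, (un.2.2 p p₀ z hp).1, ws p z⟩⟩)
  obtain ⟨hv', ev⟩ := mem v hv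
  obtain ⟨g1, g2⟩ := k.2.2 a ha
  have sp := N2.rep_spec (P := X.P) (A := fun y => ((wd S W1).cp i y, (wd S W1).Cp (i + d) y))
    (G := (wd S W1).E i) hv' k.1
  have e1 := (Cp_iff _ _ _).1 (congrArg Prod.snd sp.2.2)
  refine ⟨fun q q0 qs => ?_, ?_⟩
  · have t : ∀ p, ξ p ≠ 0 → |S.act σ i v a q p -
        (wd S W1).ρ0 (kk σ wk be cc C) i (i + d) v a p q| ≤ exp (-h) := fun p z => by
      rw [ρ0_eq o hi _ hv' ha (nn p z) q0 ((ws p z).trans qs.symm)]
      exact act_le ko ok o hθ hi hi' hv' k.1.2 sp.1 e1 h0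
        (c1.trans (mul_le_mul_of_nonneg_left k1 θ0.le)) c2 ha (nn p z)
    have u := SB.dot_le (x := fun p => S.act σ i v a q p -
      (wd S W1).ρ0 (kk σ wk be cc C) i (i + d) v a p q) (exp_pos (-h)).le un.1.le t
    have g := g1 q ((nn_iff q).2 q0)
    rw [one_mul, dotProduct] at u
    refine le_trans (le_of_eq (congrArg _ ?_)) (((abs_add_le _ _).trans (add_le_add u g)).trans two)
    rw [← sum_add_distrib]
    exact sum_congr rfl fun p _ => by ring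
  · refine le_trans (le_of_eq (congrArg _ ?_)) (g2.trans (exp_le_exp.2 (by linarith)))
    rw [← hf v hv, Cp_eq, ← (o.cls hi hω hv' ev).2.2.2]
    beta_reduce
    rw [sub_add_eq_sub_sub_swap, ← mul_sub, ← sum_sub_distrib, mul_sum]
    congr 1
    refine sum_congr rfl fun p _ => ?_
    by_cases z : ξ p = 0
    · simp [z]
    · rw [θ0_eq o hi _ _ hv' ha (nn p z), ws p z, D_eq, D_eq, dd]
      ring

/-- The non-degeneracy of block C. -/
theorem nd_of (ko : Ko σ) : ∃ K : ℝ, 1 ≤ K ∧ ∀ (X : Wo ι κ) (S : SH.St X) (wk : κ → ℝ)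
    (be cc m m' : ℝ) (C W1 : ℕ) (η h h' x δ lo hi : ℝ), X.Ok σ m → S.Ok σ wk m' →
    S.Ndx σ wk η h' x δ → 0 ≤ h → h' + 1 ≤ h → η * S.r ≤ lo → 2 * Vm σ * hi ≤ S.r →
    K * (S.e + h + 1) ≤ lo → K * (S.e + h + X.M) ≤ X.w →
    (wd S W1).Nd (kk σ wk be cc C) h δ x lo hi := by
  classical
  obtain ⟨θ, θ0, θ1, hθ⟩ : ∃ θ : ℝ, 0 < θ ∧ θ ≤ 1 ∧ ∀ a, 0 < vt σ a → θ ≤ vt σ a := by
    by_cases k : (univ.filter fun a => 0 < vt σ a).Nonempty
    · obtain ⟨a, ha, hm⟩ := exists_min_image _ (vt σ) k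
      exact ⟨min (vt σ a) 1, lt_min (mem_filter.1 ha).2 one_pos, min_le_right _ _,
        fun b hb => (min_le_left _ _).trans (hm b (mem_filter.2 ⟨mem_univ _, hb⟩))⟩
    · exact ⟨1, one_pos, le_rfl, fun p hp => (k ⟨p, mem_filter.2 ⟨mem_univ _, hp⟩⟩).elim⟩
  have n0 : (0 : ℝ) ≤ Fintype.card κ := Nat.cast_nonneg _
  have V0 : 0 ≤ Vm σ := by linarith [ko.le_Vm σ.τ, ko.v0 σ.τ]
  have K1 : 6 * Fintype.card κ + 7 + Vm σ ≤ (6 * Fintype.card κ + 7 + Vm σ) / θ :=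
    le_div_self (by positivity) θ0 θ1
  refine ⟨(6 * Fintype.card κ + 7 + Vm σ) / θ, by linarith, fun X S wk be cc m m' C W1 η h h' x δ
    lo hi ok o nd h0 hh a1 a2 c1 c2 => nd_of' ko ok o hθ θ0 nd h0 hh a1 a2 ?_ ?_⟩
  all_goals have s0 : 1 ≤ S.e := by linarith [o.le, ok.e2]
  · rw [div_mul_eq_mul_div, div_le_iff₀ θ0] at c1
    nlinarith [mul_nonneg n0 h0, mul_nonneg V0 h0, mul_nonneg n0 (zero_le_one.trans s0),
      mul_nonneg V0 (zero_le_one.trans s0)]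
  · have M0 : (0 : ℝ) ≤ X.M := Nat.cast_nonneg _
    have := (mul_le_mul_of_nonneg_right K1 (by positivity)).trans c2
    nlinarith [mul_nonneg n0 h0, mul_nonneg V0 h0, mul_nonneg n0 (sub_nonneg.2 s0),
      mul_nonneg V0 (zero_le_one.trans s0), mul_nonneg n0 M0]

end Pool.Agent.MP_5168f5_an.QA.SC.Br
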