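import Pool.Agent.MP_4b405e_nt.SK.CBr1
import Pool.Agent.MP_4b405e_nt.SK.CBr2
import Pool.Agent.MP_4b405e_nt.SK.SpC
import Pool.Agent.MP_5168f5_an.H17F.KS

/-! Sparse heights: the parameters, and the sequence form of the input of block C. -/

namespace Pool.Agent.MP_5168f5_an.QA.SC.Br

open H19 H17S H17F R4 AN Filter Matrix Real Finset
open P7 (Kc)
open SH (Wo vt Vm Ko)

/-- The facts of the state. -/
def StOf : Prop := ∀ (ι κ : Type) [Fintype ι] [DecidableEq ι] [Fintype κ] [DecidableEq κ]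
  (σ : Kc ι κ) (wk : κ → ℝ) (be cc m m' e : ℝ) (C W1 : ℕ) (X : Wo ι κ) (S : SH.St X),
  X.Ok σ m → S.Ok σ wk m' → cc ≤ m' → S.e ≤ e → (wd S W1).St (kk σ wk be cc C) e S.r

/-- Non-degeneracy. -/
def NdOf : Prop := ∀ (ι κ : Type) [Fintype ι] [DecidableEq ι] [Fintype κ] [DecidableEq κ]
  (σ : Kc ι κ), Ko σ → ∃ A : ℝ, ∀ (wk : κ → ℝ) (be cc m m' η h x δ lo hi : ℝ) (C W1 : ℕ)
    (X : Wo ι κ) (S : SH.St X), X.Ok σ m → S.Ok σ wk m' → S.Ndx σ wk η (h / 2) x δ → 2 ≤ h →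
    η * S.r ≤ lo → 2 * Vm σ * hi ≤ S.r → A * (S.e + h) ≤ lo → A * (S.e + h + X.M) ≤ X.w →
    (wd S W1).Nd (kk σ wk be cc C) h δ x lo hi

theorem stOf : StOf := fun _ _ _ _ _ _ _ _ _ _ _ _ _ _ _ _ _ _ o hc he => st_of o hc he le_rfl

theorem ndOf : NdOf := fun ι κ _ _ _ _ σ k => by
  obtain ⟨K, K1, h⟩ := nd_of k
  refine ⟨2 * K, fun wk be cc m m' η g x δ lo hi C W1 X S o o' N g2 a b c d => ?_⟩
  have k2 : (2 : ℝ) ≤ X.k := by exact_mod_cast o.ke.1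
  have e0 : 0 ≤ S.e := by linarith [o.ke.2.1, o'.le]
  have M0 : (0 : ℝ) ≤ X.M := Nat.cast_nonneg _
  exact h X S wk be cc m m' C W1 η g (g / 2) x δ lo hi o o' N (by linarith) (by linarith) a b
    (by nlinarith) (by nlinarith)

variable {ι κ : Type} [Fintype ι] [DecidableEq ι] [Fintype κ] [DecidableEq κ]
variable {σ : Kc ι κ} {wk : κ → ℝ}

theorem ndx_mono {X : Wo ι κ} {S : SH.St X} {η h h' x δ δ' : ℝ} (N : S.Ndx σ wk η h x δ)
    (hh : h ≤ h') (hδ : δ ≤ δ') : S.Ndx σ wk η h' x δ' := by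
  obtain ⟨B, h1, h2, h3⟩ := N
  have e := exp_le_exp.2 (neg_le_neg hh)
  exact ⟨B, h1, h2.trans (mul_le_mul_of_nonneg_right hδ (Nat.cast_nonneg _)),
    fun D hD d hd ω hω E m s ξ l u => (pb_mono fun v _ z => ⟨z.1, fun a ha =>
      ⟨fun p p0 p1 => ((z.2 a ha).1 p p0 p1).trans e, (z.2 a ha).2.trans e⟩⟩).trans
        (h3 D hD d hd ω hω E m s ξ l u)⟩

/-- The parameters, with ratio `k`. -/
def pm (u r k W1 M C : ℕ) : Pm :=
  ⟨u, r / k ^ 5, k * (r / k ^ 5), k ^ 2 * (r / k ^ 5), k ^ 3 * (r / k ^ 5), k ^ 4 * (r / k ^ 5),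
    (W1 - 2 * k * M) / (u / C)⟩

theorem q_facts {u r k : ℕ} (k2 : 2 ≤ k) (u1 : 1 ≤ u) (h : k ^ 6 * u ≤ r) :
    k * u ≤ r / k ^ 5 ∧ k ^ 5 * (r / k ^ 5) ≤ r ∧ r ≤ 2 * k ^ 5 * (r / k ^ 5) := by
  have p : 0 < k ^ 5 := by positivity
  have a : k * u ≤ r / k ^ 5 := (Nat.le_div_iff_mul_le p).2 (by nlinarith)
  have b := Nat.lt_mul_div_succ r p
  have c : 1 ≤ r / k ^ 5 := le_trans (by nlinarith) a
  exact ⟨a, Nat.mul_div_le _ _, by nlinarith⟩

/-- The order of the parameters. -/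
theorem num_of {X : Wo ι κ} (S : SH.St X) {be cc K e δ : ℝ} {C W1 u k : ℕ} (d0 : 0 < δ)
    (d1 : K * δ ≤ 1) (k2 : 2 ≤ k) (Kk : K ≤ k) (dk : 1 ≤ δ * k) (e1 : K ≤ e)
    (eu : e ≤ δ ^ 2 * u) (kk1 : 1 ≤ δ * X.k) (kk2 : X.k ≤ e) (lu : log u ≤ e) (C0 : 0 < C)
    (Cu : C ≤ u) (ur : k ^ 6 * u ≤ S.r) (rM : S.r ≤ X.M) (rw : (1 + 2 * K) * X.M ≤ X.w)
    (tel : (S.r : ℝ) ^ 2 ≤ δ * u * X.M) (W : 3 * k * (k + 1) * X.M ≤ W1) :
    (wd S W1).Num (kk σ wk be cc C) (pm u S.r k W1 X.M C) K e X.w S.r δ := by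
  obtain ⟨q1, q2, -⟩ := q_facts k2 (C0.trans_le Cu) ur
  have v0 : 0 < u / C := Nat.div_pos Cu C0
  have v1 : u / C ≤ X.M := (Nat.div_le_self _ _).trans
    ((Nat.le_mul_of_pos_left _ (by positivity)).trans (ur.trans rM))
  have n1 := Nat.div_mul_le_self (W1 - 2 * k * X.M) (u / C)
  have n2 := Nat.lt_div_mul_add (a := W1 - 2 * k * X.M) v0
  have n3 : 2 * k * X.M ≤ W1 := le_trans (Nat.mul_le_mul_right _ (by nlinarith)) W
  have st : ∀ x : ℕ, K * x ≤ (k * x : ℕ) := fun x => by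
    rw [Nat.cast_mul]; exact mul_le_mul_of_nonneg_right Kk (Nat.cast_nonneg _)
  have pw : ∀ j ≤ 5, k ^ j * (S.r / k ^ 5) ≤ S.r := fun j hj =>
    (Nat.mul_le_mul_right _ (Nat.pow_le_pow_right (by omega) hj)).trans q2
  set q := S.r / k ^ 5
  set N := (W1 - 2 * k * X.M) / (u / C)
  have M0 : (0 : ℝ) ≤ X.M := Nat.cast_nonneg _
  refine ⟨d0, d1, e1, eu, ⟨kk1, kk2⟩, lu, ?_, st q, (st (k * q)).trans_eq ?_,
    (st (k ^ 2 * q)).trans_eq ?_, ?_, ?_, ?_, ?_, ?_, ?_, ?_⟩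
  · have : (k * u : ℝ) ≤ q := by exact_mod_cast q1
    show (u : ℝ) ≤ δ * q
    nlinarith [mul_le_mul_of_nonneg_right dk (Nat.cast_nonneg (α := ℝ) u)]
  · exact congrArg _ (show k * (k * q) = k ^ 2 * q by ring)
  · exact congrArg _ (show k * (k ^ 2 * q) = k ^ 3 * q by ring)
  · rw [ms_eq, mul_one]
    exact (st (k ^ 3 * q)).trans_eq (congrArg _ (show k * (k ^ 3 * q) = k ^ 4 * q by ring))
  · rw [ms_eq, mul_one]
    exact (st (k ^ 4 * q)).trans (Nat.cast_le.2 ((show k * (k ^ 4 * q) = k ^ 5 * q by ring) ▸ q2))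
  · rw [D_eq]
    have : (S.r : ℝ) ≤ X.M := by exact_mod_cast rM
    show (S.r : ℝ) + K * (2 * X.M : ℕ) ≤ X.w
    push_cast
    linarith
  · refine le_trans ?_ tel
    rw [pow_two]
    exact mul_le_mul (Nat.cast_le.2 (pw 4 (by omega))) (Nat.cast_le.2 (pw 3 (by omega)))
      (Nat.cast_nonneg _) (Nat.cast_nonneg _)
  · show X.M + 2 * (k ^ 4 * q) ≤ 2 * X.M
    have : 2 * (k ^ 4 * q) ≤ k * (k ^ 4 * q) := Nat.mul_le_mul_right _ k2
    have : k * (k ^ 4 * q) = k ^ 5 * q := by ring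
    omega
  · rw [D_eq]
    have a := st (2 * X.M)
    have b : N * (u / C) + k * (2 * X.M) ≤ W1 := by
      have : k * (2 * X.M) = 2 * k * X.M := by ring
      omega
    have c : ((N * (u / C) + k * (2 * X.M) : ℕ) : ℝ) ≤ W1 := Nat.cast_le.2 b
    rw [Nat.cast_add, Nat.cast_mul N] at c
    show (N : ℝ) * (u / C : ℕ) + K * (2 * X.M : ℕ) ≤ W1
    linarith
  · have b : W1 ≤ N * (u / C) + 3 * k * X.M := by
      have : X.M + 2 * k * X.M ≤ 3 * k * X.M := by nlinarith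
      omega
    have c : (W1 : ℝ) ≤ N * (u / C : ℕ) + 3 * k * X.M := by exact_mod_cast b
    have d : (3 * k * (k + 1) * X.M : ℝ) ≤ W1 := by exact_mod_cast W
    have k0 : (0 : ℝ) ≤ 3 * k * X.M := by positivity
    show (W1 : ℝ) ≤ (1 + δ) * (N * (u / C : ℕ))
    nlinarith [mul_le_mul_of_nonneg_left c d0.le, mul_le_mul_of_nonneg_left d d0.le,
      mul_le_mul_of_nonneg_left dk k0]

variable {X : ℕ → Wo ι κ}

/-- The level of the deep cell. -/
theorem ex_W1 (w : SH.World σ X) {a be : ℝ} (b0 : 0 < be) (hD : σ.D + be ≤ a) :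
    ∃ W1 : ℕ → ℕ, ∀ᶠ n in UF, W1 n ≤ (X n).W ∧ ((X n).W : ℝ) ≤ 2 * W1 n ∧
      (∀ b, 0 < σ.mu b → (X n).f ≤ σ.mu b * ((X n).W - W1 n)) ∧ σ.D * (X n).W ≤ a * W1 n := by
  obtain ⟨A, A0, hA⟩ : ∃ A : ℝ, 0 ≤ A ∧ ∀ b, 0 < σ.mu b → 1 ≤ σ.mu b * A := by
    refine ⟨∑ b, (σ.mu b)⁻¹, sum_nonneg fun b _ => inv_nonneg.2 (w.ok.m0 b), fun b h => ?_⟩
    exact (mul_inv_cancel₀ h.ne').ge.trans (mul_le_mul_of_nonneg_left
      (single_le_sum (f := fun b => (σ.mu b)⁻¹) (fun b _ => inv_nonneg.2 (w.ok.m0 b))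
        (mem_univ b)) h.le)
  obtain ⟨m, -, ok⟩ := w.ev
  have f1 : ∀ᶠ n in UF, 1 ≤ (X n).f := by
    filter_upwards [ok, w.be.eventually_ge_atTop 1] with n a b using b.trans a.ke.2.2
  have s : Sm (fun n => (X n).W) fun n => (⌈A * (X n).f⌉₊ : ℕ) :=
    (w.sf.smul (c := A + 1) (by linarith)).mono (f1.mono fun n h => by
      linarith [Nat.ceil_lt_add_one (show 0 ≤ A * (X n).f by positivity)])
  refine ⟨fun n => (X n).W - ⌈A * (X n).f⌉₊, ?_⟩
  filter_upwards [f1, s (1 / 2) (by norm_num), s (be / (|σ.D + be| + 1)) (by positivity)]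
    with n h1 h2 h3
  have W0 : (0 : ℝ) ≤ (X n).W := Nat.cast_nonneg _
  have s0 : (0 : ℝ) ≤ (⌈A * (X n).f⌉₊ : ℕ) := Nat.cast_nonneg _
  have le : ⌈A * (X n).f⌉₊ ≤ (X n).W := Nat.cast_le (α := ℝ).1 (by linarith)
  rw [Nat.cast_sub le]
  refine ⟨Nat.sub_le _ _, by linarith, fun b h => ?_, ?_⟩
  · rw [sub_sub_cancel]
    nlinarith [mul_le_mul_of_nonneg_left (Nat.le_ceil (A * (X n).f)) h.le, hA b h]
  · rw [zero_add, div_mul_eq_mul_div, le_div_iff₀ (by positivity)] at h3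
    refine le_trans ?_ (mul_le_mul_of_nonneg_right hD (by linarith))
    nlinarith [mul_le_mul_of_nonneg_left (le_abs_self (σ.D + be)) s0]

/-- The input of block C. -/
theorem seq_of (st : StOf) (nd : NdOf) {S : ∀ n, SH.St (X n)} {u : ℕ → ℕ} (w : SH.World σ X)
    (s : SH.State σ wk S) (md : SH.Mid S u) (N : SH.NDx σ wk S u) :
    ∃ (τ : Kk ι κ) (Y : ℕ → Wd ι κ) (p : ℕ → Pm) (e w r : ℕ → ℝ), Seq τ Y p e w r := by
  classical
  obtain ⟨m, m0, ok⟩ := w.ev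
  obtain ⟨m', m0', ok'⟩ := s.ev
  have vol := w.ok.vol
  set a := ∑ a with σ.Pz a ∧ 0 < vt σ a, σ.mu a with ha
  have b0 : 0 < (a - σ.D) / 2 := by linarith
  obtain ⟨C, hC⟩ := kk_ok w.ok s.sh b0 (lt_min m0 m0')
  obtain ⟨W1, hW⟩ := ex_W1 w b0 (a := a - (a - σ.D) / 2) (by linarith)
  obtain ⟨A, hA⟩ := nd ι κ σ w.ok
  have be := s.be w
  have bu : Big u := tendsto_natCast_atTop_iff (R := ℝ).1
    (tendsto_atTop_mono' _ ((md.lo 1 one_pos).mono fun n h => by simpa using h) be)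
  have c0 : ∀ j : ℕ, (0 : ℝ) < 1 / (j + 1) := fun j => by positivity
  choose x x0 hx using fun j : ℕ => N _ _ (c0 j) (c0 j)
  have rM : ∀ᶠ n in UF, (S n).r ≤ (X n).M := by
    filter_upwards [ok', s.se 1 one_pos] with n h1 h2
    by_contra z
    have z' : ((X n).M : ℝ) < (S n).r := by exact_mod_cast not_le.1 z
    have M0 : (0 : ℝ) ≤ (X n).M := Nat.cast_nonneg _
    nlinarith [h1.sq, mul_le_mul_of_nonneg_right h2 M0]
  obtain ⟨k, kb, hk⟩ := KSA.spill (fun k n => k ^ 6 * u n ≤ (S n).r ∧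
      3 * k * (k + 1) * (X n).M ≤ W1 n ∧ ∀ j ≤ k, (S n).Ndx σ wk (1 / (2 * k ^ 4 + 1))
        (1 / (j + 1) * u n) (x j * u n) (1 / (j + 1))) fun k => by
    filter_upwards [md.hi (1 / (k ^ 6 + 1)) (by positivity), w.bw (2 * (3 * k * (k + 1))), hW,
      (eventually_all_finite (Set.finite_Iic k)).2 fun j _ =>
        hx j (1 / (2 * k ^ 4 + 1)) (by positivity)] with n h1 h2 h3 h4
    refine ⟨Nat.cast_le (α := ℝ).1 ?_, Nat.cast_le (α := ℝ).1 ?_, h4⟩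
    · rw [zero_add, one_div, ← div_eq_inv_mul, le_div_iff₀ (by positivity)] at h1
      push_cast
      nlinarith [Nat.cast_nonneg (α := ℝ) (u n)]
    · push_cast
      linarith [h2.2, h3.2.1]
  have lu : ∀ ε : ℝ, 0 < ε → ∀ᶠ n in UF, log (u n) ≤ ε * u n := fun ε h =>
    ((tendsto_natCast_atTop_atTop.comp bu).eventually (isLittleO_log_id_atTop.bound h)).mono
      fun n z => (le_abs_self _).trans (z.trans_eq (by simp))
  refine ⟨_, fun n => wd (S n) (W1 n), fun n => pm (u n) (S n).r (k n) (W1 n) (X n).M C,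
    fun n => max (S n).e (log (u n)), fun n => (X n).w, fun n => (S n).r, hC, bu,
    fun K δ d0 d1 => ?_, fun h δ h0 d0 => ?_⟩
  · filter_upwards [ok, ok', hW, hk, rM, kb.ev 2, kb.ev K, kb.ev (1 / δ), w.bk.ev (1 / δ),
      be.eventually_ge_atTop K, md.lo (δ ^ 2) (by positivity), md.lo δ d0,
      lu (δ ^ 2) (by positivity), bu.ev C, w.bw (1 + 2 * K)]
      with n o o' g hk rM k2 kK kd kd' eK e1 e2 e3 Cu bw
    have le : (X n).e ≤ max (S n).e (log (u n)) := le_max_of_le_left o'.le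
    obtain ⟨g1, g2, -⟩ := hk _ le_rfl
    rw [div_le_iff₀' d0] at kd kd'
    refine ⟨ok_of _ w.ok o le (min_le_left _ _) g.1 g.2.2.1 (by rw [m_eq]; convert g.2.2.2),
      st ι κ σ wk _ _ _ _ _ C _ _ _ o o' (min_le_right _ _) (le_max_left _ _),
      num_of _ d0 d1 (by exact_mod_cast k2) kK kd (le_max_of_le_left eK)
        (max_le (by simpa using e1) e3) kd' (o.ke.2.1.trans le) (le_max_right _ _)
        (by linarith [hC.c2, show (kk σ wk ((a - σ.D) / 2) (min m m') C).C = C from rfl])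
        (by exact_mod_cast Cu) g1 rM bw.1 (o'.sq.trans ?_) g2⟩
    exact mul_le_mul_of_nonneg_right (by simpa using e2) (Nat.cast_nonneg _)
  · obtain ⟨j, hj⟩ := exists_nat_one_div_lt (lt_min (half_pos h0) d0)
    refine ⟨x j, x0 j, ?_⟩
    filter_upwards [ok, ok', hk, rM, kb.ev 2, kb.ev j, kb.ev (6 * Vm σ), kb.ev (|A| * (1 + h)),
      md.lo 1 one_pos, bu.ev 1, bu.ev (2 / h), w.bw (|A| * (2 + h)), be.eventually_ge_atTop 0]
      with n o o' hk rM k2 kj kV kA e1 u1 uh bw e0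
    obtain ⟨g1, -, g3⟩ := hk _ le_rfl
    have k2' : 2 ≤ k n := by exact_mod_cast k2
    obtain ⟨q1, q2, q3⟩ := q_facts k2' (by exact_mod_cast u1) g1
    have uM : u n ≤ (X n).M := (Nat.le_mul_of_pos_left _ (by positivity)).trans (g1.trans rM)
    set q := (S n).r / k n ^ 5
    have p1 : (k n * u n : ℝ) ≤ q := by exact_mod_cast q1
    have p2 : (k n ^ 5 * q : ℝ) ≤ (S n).r := by exact_mod_cast q2
    have p3 : ((S n).r : ℝ) ≤ 2 * k n ^ 5 * q := by exact_mod_cast q3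
    have p4 : (u n : ℝ) ≤ (X n).M := by exact_mod_cast uM
    have q0 : (1 : ℝ) ≤ q := by nlinarith
    have A0 := abs_nonneg A
    rw [div_le_iff₀' h0] at uh
    rw [zero_add, one_mul] at e1
    refine hA wk _ _ _ _ (1 / (2 * k n ^ 4 + 1)) _ _ _ _ _ C _ _ _ o o'
      (ndx_mono (g3 j (by exact_mod_cast kj)) ?_ (hj.le.trans (min_le_right _ _))) uh ?_ ?_ ?_ ?_
    · have := mul_le_mul_of_nonneg_right (hj.le.trans (min_le_left _ _))
        (Nat.cast_nonneg (α := ℝ) (u n))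
      exact this.trans_eq (show h / 2 * u n = h * u n / 2 by ring)
    · show _ ≤ ((k n * q : ℕ) : ℝ)
      rw [one_div, ← div_eq_inv_mul, div_le_iff₀ (by positivity)]
      push_cast
      nlinarith [show (0 : ℝ) ≤ k n * q by positivity]
    · rw [ms_eq]
      show 2 * Vm σ * (((k n * q : ℕ) : ℝ) + q + 1) ≤ _
      push_cast
      have V0 : 0 ≤ Vm σ := add_nonneg zero_le_one (sum_nonneg fun a _ => w.ok.v0 a)
      have a1 : (k n * q + q + 1 : ℝ) ≤ 3 * (k n * q) := by nlinarith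
      have a2 : (k n : ℝ) ^ 2 ≤ k n ^ 5 := pow_le_pow_right₀ (by linarith) (by norm_num)
      have a3 := mul_le_mul_of_nonneg_left a1 V0
      have a4 := mul_le_mul_of_nonneg_right kV (show (0 : ℝ) ≤ k n * q by positivity)
      nlinarith [mul_le_mul_of_nonneg_right a2 (show (0 : ℝ) ≤ q by positivity)]
    · show A * ((S n).e + h * u n) ≤ ((k n * q : ℕ) : ℝ)
      push_cast
      have a1 : A * ((S n).e + h * u n) ≤ |A| * ((1 + h) * u n) :=
        mul_le_mul (le_abs_self A) (by linarith) (by positivity) A0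
      have a2 := mul_le_mul_of_nonneg_right kA (Nat.cast_nonneg (α := ℝ) (u n))
      nlinarith
    · show A * ((S n).e + h * u n + (X n).M) ≤ _
      refine le_trans ?_ bw.1
      rw [mul_assoc]
      exact mul_le_mul (le_abs_self A) (by nlinarith) (by positivity) A0

/-- Block C from its sequence form. -/
theorem spCx_of (c : SpCs) : SH.SpCx :=
  fun ι κ _ _ _ _ _ _ _ _ _ w s md N => by
    obtain ⟨τ, Y, p, e, w', r, h⟩ := seq_of stOf ndOf w s md N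
    exact c ι κ τ Y p e w' r h

end Pool.Agent.MP_5168f5_an.QA.SC.Br
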