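import Pool.Agent.MP_4b405e_nt.SK.SpC

/-! Sparse heights, block C: the link to the count. -/

namespace Pool.Agent.MP_5168f5_an.QA.SC

open H19 H17S H17F R4 AN Filter Matrix Real Finset

namespace LK

variable {Ω Ω' α : Type}

theorem law_cE {P : FP Ω} {Q : FP Ω'} {f : Ω → α} {g : Ω' → α} (h : Law P f Q g) (A : α → Prop)
    (p0 : 0 < pb Q fun y => A (g y)) :
    Law (cE P fun x => A (f x)) f (cE Q fun y => A (g y)) g := fun F => by
  classical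
  refine mul_left_cancel₀ p0.ne' ?_
  rw [E_cE, ← h.pb_eq A, E_cE]
  exact h fun v => if A v then F v else 0

theorem pb_snd (U : FP α) (Q : FP Ω) (A : Ω → Prop) :
    pb (prod U Q) (fun z => A z.2) = pb Q A := by
  rw [pb, prod, E_bind]
  exact U.E_const (pb Q A)

theorem law_prod (U : FP α) (Q : FP Ω) (A : Ω → Prop) (p0 : 0 < pb Q A) :
    Law (cE (prod U Q) fun z => A z.2) id (prod U (cE Q A)) id := fun F => by
  refine mul_left_cancel₀ p0.ne' ?_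
  rw [← pb_snd U Q A, E_cE, pb_snd, prod, prod, E_bind, E_bind, ← FP.E_mul]
  exact U.E_congr fun a _ => (E_cE Q A fun ω => F (a, ω)).symm

/-- An event that has mass `c` in every atom has mass `c` on every union of atoms. -/
theorem pb_atoms {β : Type} (P : FP Ω) (φ : Ω → β) {E A : Ω → Prop} {c : ℝ} (hE : Fn P E φ)
    (h : ∀ ω ∈ P.S, c ≤ pb (cv P φ (φ ω)) A) : c * pb P E ≤ pb P fun ω => E ω ∧ A ω := by
  classical
  have q : pb P (fun ω => E ω ∧ A ω) = P.E fun a => pb (cv P φ (φ a)) fun ω => E ω ∧ A ω :=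
    KEA.exp P φ fun _ ω => @ite ℝ (E ω ∧ A ω) (Classical.propDecidable _) 1 0
  rw [q, pb, ← FP.E_mul]
  refine P.E_mono fun ω hω => ?_
  by_cases k : E ω
  · rw [if_pos k, mul_one]
    refine (h ω hω).trans (pb_mono fun v hv a => ⟨?_, a⟩)
    obtain ⟨v1, v2⟩ := (mem_cE (E := fun x => φ x = φ ω) ⟨ω, hω, rfl⟩ v).1 hv
    exact (hE v v1 ω hω v2).symm ▸ k
  · rw [if_neg k, mul_zero]
    exact pb_nonneg _ _

end LK

variable {ι κ : Type} [Fintype ι] [DecidableEq ι] [Fintype κ] [DecidableEq κ]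

namespace Wd

variable (σ : Kk ι κ) (Y : Wd ι κ) (p : Pm)

/-- The parameter with the step `t`. -/
def pt (t : ℕ) (y : ℕ × ℕ × ℕ) : Par := (y.1, t, y.2.1, y.2.2)

/-- The number of new digits per step. -/
noncomputable def hd (q : σ.Nu) : ℕ := q.elim 0 fun b => ⌊σ.mu b.1 * u1 σ p / lg⌋₊

/-- The law without the step, before the restriction. -/
noncomputable def P0 : FP ((ℕ × ℕ × ℕ) × Y.Ω) :=
  prod (prod (un Y.nD) (prod (un p.L) (un p.L))) Y.P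

/-- The step and the rest. -/
def pj (z : Par × ((ℕ × Y.Ω) × Y.Ω)) : ℕ × ((ℕ × ℕ × ℕ) × Y.Ω) :=
  (z.1.2.1, (z.1.1, z.1.2.2), z.2.1.2)

theorem law1 : Law (Y.P1 σ p) Y.pj (prod (un p.N) (Y.P0 p)) id := fun F => by
  have a : ∀ x : Par, ((Y.Rl σ p x).E fun y => F (Y.pj (x, y))) =
      Y.P.E fun ω => F (x.2.1, (x.1, x.2.2), ω) := fun x => by
    refine (Haz.rel_fst _ fun v => F (x.2.1, (x.1, x.2.2), v.2)).trans ?_
    rw [prod, E_bind]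
    exact FP.E_const _ (Y.P.E fun ω => F (x.2.1, (x.1, x.2.2), ω))
  simp only [P1, Px, P0, prod, E_bind, a, id]
  exact KGA.E_swap _ _ _

theorem mem_un {n i : ℕ} (h : 0 < n) : i ∈ (un n).S ↔ i < n := by
  rw [show (un n).S = range (max n 1) from rfl, mem_range, max_eq_left h]

theorem pb0 (h : 0 < Y.nD) (A : ℕ → Y.Ω → Prop) : pb (Y.P0 p) (fun z => A z.1.1 z.2) =
    (∑ i ∈ range Y.nD, pb Y.P (A i)) / Y.nD := by
  have : pb (Y.P0 p) (fun z => A z.1.1 z.2) = (un Y.nD).E fun i => pb Y.P (A i) := by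
    rw [pb, P0, prod, E_bind, prod, E_bind]
    exact FP.E_congr _ fun i _ => FP.E_const _ (pb Y.P (A i))
  rw [this, un, FP.E_unif, avg, card_range, max_eq_left h]

variable {σ Y p} {K e w r δ : ℝ}

theorem Num.pos (h : Y.Num σ p K e w r δ) (k1 : 1 ≤ K) (m0 : 0 < Y.ms) :
    K ^ 2 * e ≤ p.u ∧ 0 < p.L ∧ 0 < Y.nD ∧ 0 < p.N := by
  have d0 := h.d0
  have e1 : 1 ≤ e := k1.trans h.e1
  have u0 : (0 : ℝ) ≤ p.u := Nat.cast_nonneg _
  have a : K ^ 2 * e ≤ p.u := by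
    have : (K * δ) ^ 2 ≤ 1 := pow_le_one₀ (by positivity) h.d1
    nlinarith [mul_le_mul_of_nonneg_left h.eu (sq_nonneg K), mul_le_mul_of_nonneg_right this u0]
  have u1 : (0 : ℝ) < p.u := lt_of_lt_of_le (by positivity) a
  have l0 : (0 : ℝ) < p.L := (mul_pos_iff_of_pos_left d0).1 (u1.trans_le h.uL)
  have b1 : (0 : ℝ) < p.d0 := lt_of_lt_of_le (by positivity) h.Ld
  have b2 : (0 : ℝ) < p.xA := lt_of_lt_of_le (by positivity) h.dx
  have b3 : (0 : ℝ) < p.nb := lt_of_lt_of_le (by positivity) h.xn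
  have b4 : (0 : ℝ) < p.kD := (mul_pos_iff_of_pos_right m0).1 (lt_of_lt_of_le (by positivity) h.nk)
  have b5 : (0 : ℝ) < Y.nD :=
    (mul_pos_iff_of_pos_left (mul_pos d0 u1)).1 (lt_of_lt_of_le (by positivity) h.tel)
  have b6 : (0 : ℝ) < Y.nT := by
    have : (Y.nD : ℝ) + 2 * p.kD ≤ Y.nT := by exact_mod_cast h.nT
    linarith
  refine ⟨a, by exact_mod_cast l0, by exact_mod_cast b5, Nat.pos_of_ne_zero fun n => ?_⟩
  have := h.up.trans h.lo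
  rw [n] at this
  have : 0 < K * Y.D Y.nT := by rw [D]; positivity
  simp only [Nat.cast_zero, zero_mul, mul_zero, zero_add] at *
  linarith

theorem Hyp.anti (h : Y.Hyp σ p K e w r δ) {K' : ℝ} (k : K' ≤ K) : Y.Hyp σ p K' e w r δ := by
  have n := h.num
  have m0 := h.ok.ms.1
  have a : ∀ {x y : ℝ}, 0 ≤ x → K * x ≤ y → K' * x ≤ y := fun x0 q =>
    (mul_le_mul_of_nonneg_right k x0).trans q
  have d : 0 ≤ Y.D Y.nT := by rw [D]; positivity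
  have d' := mul_le_mul_of_nonneg_right k d
  exact ⟨h.ok, h.st, { n with
    d1 := a n.d0.le n.d1, e1 := k.trans n.e1, Ld := a (by positivity) n.Ld
    dx := a (by positivity) n.dx, xn := a (by positivity) n.xn, nk := a (by positivity) n.nk
    kr := a (by positivity) n.kr, rw := by linarith [n.rw], up := by linarith [n.up] }⟩

open Classical in
theorem sum_ps (h : σ.Ok) : ∑ q with (σ.bc h).ps q, (σ.bc h).wt q = σ.m := by
  symm
  refine sum_bij (fun b hb => some ⟨b, h.pn b (mem_filter.1 hb).2⟩) (fun b hb => ?_)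
    (fun a _ b _ q => ?_) (fun q hq => ?_) fun _ _ => rfl
  · exact mem_filter.2 ⟨mem_univ _, _, rfl, (mem_filter.1 hb).2⟩
  · exact congrArg Subtype.val (Option.some.inj q)
  · obtain ⟨b, rfl, k⟩ := (mem_filter.1 hq).2
    exact ⟨b.1, mem_filter.2 ⟨mem_univ _, k⟩, rfl⟩

open Classical in
/-- The gain in the count. -/
theorem gap (h : σ.Ok) (n : Y.Num σ p K e w r δ) (k1 : 1 ≤ K) (m0 : 0 < Y.ms)
    (k2 : 4 * σ.m ≤ σ.be * K) (k3 : 2 * σ.C * (σ.be + Fintype.card σ.Nu * lg) ≤ σ.be * K) :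
    (σ.m - σ.be) * Y.W1 + p.N * (σ.be / (4 * σ.C) * p.u) ≤
      p.N * ∑ q with (σ.bc h).ps q, (hd σ p q : ℝ) * lg := by
  have l0 : 0 < lg := log_pos one_lt_two
  have c0 : 0 < σ.C := lt_of_lt_of_le two_pos h.c2
  have c1 : (0 : ℝ) < σ.C := Nat.cast_pos.2 c0
  have b0 := h.be0
  have d0 := n.d0
  have mm : 0 ≤ σ.m := sum_nonneg fun b _ => h.m0 b
  obtain ⟨v, hv⟩ : ∃ v : ℝ, v = u1 σ p := ⟨_, rfl⟩
  have v0 : 0 ≤ v := hv ▸ Nat.cast_nonneg _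
  have N0 : (0 : ℝ) ≤ p.N := Nat.cast_nonneg _
  have s1 : σ.m * v - Fintype.card σ.Nu * lg ≤ ∑ q with (σ.bc h).ps q, (hd σ p q : ℝ) * lg := by
    have a := sum_le_sum (s := univ.filter (σ.bc h).ps) fun q hq =>
      show (σ.bc h).wt q * v - lg ≤ (hd σ p q : ℝ) * lg by
        obtain ⟨b, rfl, -⟩ := (mem_filter.1 hq).2
        have := (div_lt_iff₀ l0).1 (Nat.lt_floor_add_one (σ.mu b.1 * u1 σ p / lg))
        rw [hv]
        exact le_of_lt (by rw [sub_lt_iff_lt_add, ← add_one_mul]; exact this)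
    rw [sum_sub_distrib, ← sum_mul, sum_ps, sum_const, nsmul_eq_mul] at a
    have : ((univ.filter (σ.bc h).ps).card : ℝ) ≤ Fintype.card σ.Nu := by
      exact_mod_cast card_le_univ _
    nlinarith
  have s2 : (p.u : ℝ) ≤ σ.C * (v + 1) := by
    rw [hv]; exact_mod_cast (Nat.lt_mul_div_succ p.u c0).le
  have s3 : K ≤ p.u := by
    refine le_trans ?_ (n.pos k1 m0).1
    nlinarith [n.e1, mul_le_mul_of_nonneg_left (k1.trans n.e1) (sq_nonneg K)]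
  have s4 : σ.m * δ ≤ σ.be / 4 := by nlinarith [mul_le_mul_of_nonneg_left n.d1 b0.le]
  have s5 : (σ.m - σ.be) * Y.W1 ≤ (σ.m - σ.be) * (p.N * v) + σ.m * δ * (p.N * v) := by
    have d : 0 ≤ K * Y.D Y.nT := by rw [D]; positivity
    have w1 := n.up
    have w2 := n.lo
    rw [← hv] at w1 w2
    have z : 0 ≤ δ * (p.N * v) := by positivity
    rcases le_total σ.be σ.m with q | q
    · nlinarith [mul_le_mul_of_nonneg_left w2 (sub_nonneg.2 q)]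
    · nlinarith [mul_le_mul_of_nonneg_left (show p.N * v ≤ Y.W1 by linarith) (sub_nonneg.2 q)]
  have s6 : σ.be / (4 * σ.C) * p.u ≤ 3 / 4 * σ.be * v - Fintype.card σ.Nu * lg := by
    rw [div_mul_eq_mul_div, div_le_iff₀ (by positivity)]
    nlinarith [mul_le_mul_of_nonneg_left s2 b0.le, mul_le_mul_of_nonneg_left s3 b0.le,
      mul_pos c1 b0]
  nlinarith [mul_le_mul_of_nonneg_left s1 N0, mul_le_mul_of_nonneg_left s6 N0,
    mul_le_mul_of_nonneg_right s4 (mul_nonneg N0 v0)]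

/-- Lists for every parameter give lists on the space without the step. -/
theorem ch_dt {α β : Type} {Q : FP ((ℕ × ℕ × ℕ) × Y.Ω)} {F : ℕ × ℕ × ℕ → Y.Ω → α}
    {G : ℕ × ℕ × ℕ → Y.Ω → β} {v : ℝ} (h : ∀ z ∈ Q.S, z.2 ∈ Y.P.S ∧ Y.E z.1.1 z.2 ∧
      Dt Y.P (Y.E z.1.1) (F z.1) (G z.1) v) :
    ch Q (fun z => F z.1 z.2) (fun z => (G z.1 z.2, z.1)) ≤ v := by
  refine (ch_det (B := exp v) fun a ha => ?_).trans_eq (log_exp v)
  obtain ⟨S, s1, s2⟩ := (h a ha).2.2 (G a.1 a.2)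
  refine ⟨S, s1, fun b hb q => ?_⟩
  obtain ⟨q1, q2⟩ := Prod.mk.inj q
  have k := h b hb
  rw [q2] at q1 k ⊢
  exact s2 _ k.1 k.2.1 q1

open Classical in
theorem link (h : σ.Ok) (H : Y.Hyp σ p K e w r δ) (k1 : 1 ≤ K)
    (k2 : 4 * σ.m ≤ σ.be * K) (k3 : 2 * σ.C * (σ.be + Fintype.card σ.Nu * lg) ≤ σ.be * K)
    {g : ℝ} (g1 : 1 ≤ g)
    (d2 : ∀ x : Par, x.1 < Y.nD → x.2.1 ≤ p.N → x.2.2.1 < p.L → x.2.2.2 < p.L →
      Dt Y.P (Y.E x.1) (fun ω => (Y.K σ p x ω, Y.Z σ p x ω)) (fun ω => (Y.T ω, Y.cp x.1 ω)) g)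
    (d3 : ∀ i < Y.nD, ∀ t < p.N, ∀ l < p.L, ∀ d < p.L, Dt Y.P (Y.E i)
      (fun ω => (Y.K σ p (i, t, l, d) ω, fun q : σ.Nu => q.elim 0 fun b =>
        fl1 ⌊σ.mu b.1 * u1 σ p / lg⌋₊ (Y.Z σ p (i, t, l, d) ω q))) (Y.K σ p (i, t + 1, l, d)) g) :
    ∃ Z : SG.Ld (Y.bd σ p), Z.Ok (σ.bc h) σ.cc (σ.be / (4 * σ.C)) g := by
  obtain ⟨-, l0, n0, N0⟩ := H.num.pos k1 H.ok.ms.1
  obtain ⟨G, hG, cG⟩ := H.ok.cnt
  have n1 : (0 : ℝ) < Y.nD := Nat.cast_pos.2 n0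
  have mx : max p.N 1 = p.N := max_eq_left N0
  have p0 : 0 < pb (Y.P0 p) fun z => Y.E z.1.1 z.2 := by
    rw [pb0 Y p n0]
    exact div_pos ((mul_pos h.cc0 n1).trans_le H.st.mass) n1
  obtain ⟨Q, hQ⟩ : ∃ Q, Q = cE (Y.P0 p) fun z => Y.E z.1.1 z.2 := ⟨_, rfl⟩
  have mem : ∀ z ∈ Q.S, z.1.1 < Y.nD ∧ z.1.2.1 < p.L ∧ z.1.2.2 < p.L ∧ z.2 ∈ Y.P.S ∧
      Y.E z.1.1 z.2 := fun z hz => by
    obtain ⟨a, b⟩ := (mem_cE (ex_of_pb p0) z).1 (hQ ▸ hz)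
    obtain ⟨a1, a2⟩ := (mem_bind _ _ _).1 a
    obtain ⟨a3, a4⟩ := (mem_bind _ _ _).1 a1
    obtain ⟨a5, a6⟩ := (mem_bind _ _ _).1 a4
    exact ⟨(mem_un n0).1 a3, (mem_un l0).1 a5, (mem_un l0).1 a6, a2, b⟩
  have hc : σ.cc ≤ pb Q fun z => Y.T z.2 ∈ G := by
    refine le_of_mul_le_mul_left ?_ p0
    rw [hQ, pb_cE, pb0 Y p n0, pb0 Y p n0 fun i ω => Y.E i ω ∧ Y.T ω ∈ G, div_mul_eq_mul_div,
      sum_mul]
    refine div_le_div_of_nonneg_right (sum_le_sum fun i _ => ?_) n1.le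
    rw [mul_comm]
    exact LK.pb_atoms Y.P (Y.Q 0) ((H.st.fE i).trans H.ok.top) cG
  have s3 : ∀ t < p.N, ch Q (fun z => (Y.K σ p (pt t z.1) z.2, fun q : σ.Nu => q.elim 0 fun b =>
      fl1 ⌊σ.mu b.1 * u1 σ p / lg⌋₊ (Y.Z σ p (pt t z.1) z.2 q)))
      (fun z => Y.K σ p (pt (t + 1) z.1) z.2) ≤ g := fun t ht => by
    refine le_trans (ch_anti fun a _ b _ q => Prod.ext q ?_) (ch_dt (Q := Q)
      (F := fun y ω => (Y.K σ p (pt t y) ω, fun q : σ.Nu => q.elim 0 fun b =>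
        fl1 ⌊σ.mu b.1 * u1 σ p / lg⌋₊ (Y.Z σ p (pt t y) ω q)))
      (G := fun y ω => Y.K σ p (pt (t + 1) y) ω) fun z hz =>
        let k := mem z hz; ⟨k.2.2.2.1, k.2.2.2.2, d3 _ k.1 t ht _ k.2.1 _ k.2.2.1⟩)
    exact congrArg (fun x => (x.1.1, x.1.2.2)) q
  refine ⟨⟨_, (Y.bd σ p).Kt, Y.Γ, Q, max p.N 1, Y.pj, fun t z => Y.K σ p (pt t z.1) z.2,
    fun t z => Y.Z σ p (pt t z.1) z.2, hd σ p, fun z => Y.T z.2, fun z => Y.T z.2 ∈ G,
    (σ.m - σ.be) * Y.W1⟩, by simp, ?_, fun a _ b _ q => ?_, fun _ _ _ _ => rfl,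
    fun i _ z _ q hq => ?_, fun q hq => ?_, fun t ht => ?_, fun t ht => ?_, ?_, hc, ?_, ?_⟩
  · rw [hQ]
    exact (LK.law_cE (Y.law1 σ p) (fun z => Y.E z.2.1.1 z.2.2)
      (p0.trans_eq (LK.pb_snd (un p.N) (Y.P0 p) fun z => Y.E z.1.1 z.2).symm)).trans
        (LK.law_prod (un p.N) (Y.P0 p) (fun z => Y.E z.1.1 z.2) p0)
  · exact Prod.ext q (congrArg (fun x => x.1.2.1) q)
  · obtain ⟨b, rfl, -⟩ := hq
    exact (GA.CR.dz_abs _ _).trans (by linarith [add_one_le_exp g])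
  · obtain ⟨b, rfl, -⟩ := hq
    have l1 : 0 < lg := log_pos one_lt_two
    refine Nat.floor_le_of_le ((div_le_iff₀ l1).2 ?_)
    have a : (σ.C : ℝ) * u1 σ p ≤ p.u := by exact_mod_cast Nat.mul_div_le p.u σ.C
    have c := mul_le_mul_of_nonneg_right (h.mC b.1) (Nat.cast_nonneg (α := ℝ) (u1 σ p))
    exact c.trans (by rw [mul_right_comm]; exact mul_le_mul_of_nonneg_right a l1.le)
  · exact (ch_mono ((Fn.fst _ _).left _)).trans (s3 t (mx ▸ ht))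
  · refine (ch_mono fun a _ b _ q => funext fun x => ?_).trans (s3 t (mx ▸ ht))
    by_cases k : (σ.bc h).ps x
    · obtain ⟨y, rfl, -⟩ := id k
      simpa [SG.cut, SG.dg, k, hd] using congrFun (congrArg (fun x => x.1.2) q) (some y)
    · simp [SG.cut, k]
  · refine le_trans ?_ (le_mul_of_one_le_left (by linarith) (by exact_mod_cast le_max_right _ _))
    refine le_trans (ch_le ((Fn.fst _ _).left _) fun a _ b _ q => ?_) (ch_dt (Q := Q)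
      (F := fun y ω => (Y.K σ p (pt (max p.N 1) y) ω, Y.Z σ p (pt (max p.N 1) y) ω))
      (G := fun y ω => (Y.T ω, Y.cp y.1 ω)) fun z hz =>
        let k := mem z hz; ⟨k.2.2.2.1, k.2.2.2.2, d2 (pt _ z.1) k.1 mx.le k.2.1 k.2.2.1⟩)
    exact congrArg (fun x => ((x.1, x.2.2.1), (x.2.1.1, x.2.1.2.2))) q
  · refine (ch_det (B := exp ((σ.m - σ.be) * Y.W1)) fun a _ => ⟨G, hG, fun b hb _ => ?_⟩).trans_eq
      (log_exp _)
    exact ((mem_cE (ex_of_pb (h.cc0.trans_le hc)) b).1 hb).2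
  · have := gap h H.num k1 H.ok.ms.1 k2 k3
    rw [← mx] at this
    exact this

end Wd

theorem ofLk : OfLk := fun _ d2 d3 ι κ _ _ _ _ σ h => by
  obtain ⟨K2, -, d2⟩ := d2 ι κ σ h
  obtain ⟨K3, -, d3⟩ := d3 ι κ σ h
  have b0 := h.be0
  obtain ⟨K, hK⟩ : ∃ K, K = max (max 1 (max K2 K3)) (max (4 * σ.m / σ.be)
    (2 * σ.C * (σ.be + Fintype.card σ.Nu * lg) / σ.be)) := ⟨_, rfl⟩
  have k := hK.ge
  simp only [max_le_iff] at k
  obtain ⟨⟨k1, k2, k3⟩, k4, k5⟩ := k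
  refine ⟨K, k1, fun Y p e w r δ H => ?_⟩
  have e1 : 1 ≤ e := k1.trans H.num.e1
  have m : ∀ {Ω α β : Type} {P : FP Ω} {E : Ω → Prop} {F : Ω → α} {G : Ω → β} {K' : ℝ}, K' ≤ K →
      Dt P E F G (K' * e) → Dt P E F G (K * e) := fun q a y => (a y).imp fun _ s =>
    ⟨s.1.trans (exp_le_exp.2 (mul_le_mul_of_nonneg_right q (by linarith))), s.2⟩
  exact Wd.link h H k1 ((div_le_iff₀' b0).1 k4) ((div_le_iff₀' b0).1 k5)
    (one_le_mul_of_one_le_of_one_le k1 e1)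
    (fun x a b c d => m k2 (d2 Y p e w r δ (H.anti k2) x a b c d).2)
    fun i a t b l c d f => m k3 (d3 Y p e w r δ (H.anti k3) i a t b l c d f)

end Pool.Agent.MP_5168f5_an.QA.SC
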