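import Pool.Agent.MP_4b405e_nt.SK.Haz
import Pool.Agent.MP_4b405e_nt.SK.Free
import Pool.Agent.MP_4b405e_nt.SK.N1K
import Pool.Agent.MP_5168f5_an.R4.K31Dn

/-! Sparse heights: the space of a parameter, a level, a point and a relative. -/

namespace Pool.Agent.MP_5168f5_an.QA.Mk

open H19 H17S H17F MX Finset Haz
open R4.K31 (Dn)

variable {Ω Ω' L A : Type}

section Res

variable {P : FP Ω} {l : Ω → L} {z : Ω → ℝ} {c : ℕ} {G : Ω → Prop}

theorem pc_res {a j : ℕ} (f : Fn P G (Oc l z a)) (h : a ≤ j) {ω : Ω} (hω : ω ∈ P.S) (g : G ω) :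
    pc (cE P G) l z j ω = pc P l z j ω := Cp.N1.cv_res (f.trans (fnO h)) hω g

open Classical in
/-- The relative on an event that is read at the top. -/
theorem rel_res {a b : ℕ} (h : a < b) (f : Fn P G (Oc l z a)) (F : (ℕ × Ω) × Ω → ℝ) :
    pb P G * (rel (cE P G) l z h).E F = (rel P l z h).E fun v => if G v.1.2 then F v else 0 := by
  rw [E_rel, E_rel, ← mul_div_assoc, mul_sum]
  congr 1
  refine sum_congr rfl fun j hj => ?_
  by_cases e : ∃ ω ∈ P.S, G ω
  · rw [(cE P G).E_congr (G := fun ω => (cE (pc P l z j ω) (one z j)).E fun v => F ((j, ω), v))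
      fun ω hω => by rw [pc_res f (mem_Ico.1 hj).1 ((mem_cE e ω).1 hω).1 ((mem_cE e ω).1 hω).2],
      E_cE]
    refine P.E_congr fun ω _ => ?_
    split_ifs
    · rfl
    · exact (FP.E_const _ 0).symm
  · rw [pb_zero fun ω a b => e ⟨ω, a, b⟩, zero_mul]
    exact ((P.E_congr fun ω hω => by
      simp only [if_neg fun g => e ⟨ω, hω, g⟩]; exact FP.E_const _ 0).trans (P.E_const 0)).symm

/-- The divergence on a window after a restriction at the top. -/
theorem KL_res {p r : ℝ} {c₀ W J : ℕ} (p0 : 0 < p) (p1 : p < 1) (f : Fn P G (Oc l z c₀))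
    (fa : ∀ ω ∈ P.S, cm P (Oc l z c₀) (Oc l z (c₀ + W)) ω ≤ Real.exp r * bw p c₀ (c₀ + W) (z ω))
    (lo : c₀ ≤ c) (hi : c + J ≤ c₀ + W) : KL (cE P G) l z p c (c + J) ≤ r := by
  refine (KL_mono p0 p1 lo (Nat.le_add_right _ _) hi).trans (KL_le p0 p1 fun ω hω => ?_)
  by_cases e : ∃ ω ∈ P.S, G ω
  · have := fa ω (cE_sub hω)
    rwa [cm, ← Cp.N1.cv_res f (cE_sub hω) ((mem_cE e ω).1 hω).2] at this
  · have : cE P G = P := by unfold cE; rw [dif_neg e]
    rw [this] at hω ⊢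
    exact fa ω hω

end Res

open Classical in
/-- A law that is close to `P` is dominated by `2 P` off a small event. -/
theorem dom_of {Q : FP Ω'} {ρ : Ω' → Ω} {P : FP Ω} {ε : ℝ} (m : ∀ v ∈ Q.S, ρ v ∈ P.S)
    (h : ∀ B : Ω → Prop, pb Q (fun v => B (ρ v)) ≤ pb P B + ε) : ∃ G : Ω → Prop,
    pb Q (fun v => ¬G (ρ v)) ≤ 2 * ε ∧ ∀ B : Ω' → Prop, (∀ v ∈ Q.S, ¬B v → G (ρ v)) →
      pb Q B ≤ 1 / 2 → Dn 4 (cE Q fun v => ¬B v) ρ P := by
  have s : ∀ F : Ω → ℝ, Q.E (fun v => F (ρ v)) = ∑ ω ∈ P.S, pb Q (fun v => ρ v = ω) * F ω ∧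
      P.E F = ∑ ω ∈ P.S, pb P (· = ω) * F ω := fun F => by
    constructor <;> simp only [pb, mul_comm _ (F _), ← FP.E_mul] <;> rw [← FP.E_sum] <;>
      refine FP.E_congr _ fun v hv => ?_
    · simp [m v hv]
    · simp [hv]
  obtain ⟨G, hG⟩ : ∃ G : Ω → Prop, ∀ ω, G ω ↔ pb Q (fun v => ρ v = ω) ≤ 2 * pb P (· = ω) :=
    ⟨_, fun _ => Iff.rfl⟩
  refine ⟨G, ?_, fun B hB b F F0 => ?_⟩
  · have s4 : 2 * pb P (fun ω => ¬G ω) ≤ pb Q fun v => ¬G (ρ v) := by
      have a := s fun ω => if ¬G ω then 1 else 0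
      refine (congrArg (2 * ·) (Eq.trans ?_ a.2)).trans_le (le_trans ?_ (a.1.symm.trans ?_).le)
      · exact P.E_congr fun _ _ => by congr
      · rw [mul_sum]
        refine sum_le_sum fun ω _ => ?_
        by_cases g : G ω
        · simp [g]
        · simpa [g] using (not_le.1 fun k => g ((hG ω).2 k)).le
      · exact Q.E_congr fun _ _ => by congr
    linarith [h fun ω => ¬G ω]
  · have a := s fun ω => if G ω then F ω else 0
    have a1 : Q.E (fun v => if G (ρ v) then F (ρ v) else 0) ≤ 2 * P.E F := by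
      rw [a.1, (s F).2, mul_sum]
      refine sum_le_sum fun ω _ => ?_
      split_ifs with g
      · rw [← mul_assoc]
        exact mul_le_mul_of_nonneg_right ((hG ω).1 g) (F0 ω)
      · rw [mul_zero]
        exact mul_nonneg zero_le_two (mul_nonneg (pb_nonneg _ _) (F0 ω))
    have a2 := E_cE Q (fun v => ¬B v) fun v => F (ρ v)
    have a3 := (a2.trans_le (Q.E_mono fun v hv => show _ ≤ if G (ρ v) then F (ρ v) else 0 by
      by_cases k : B v
      · rw [if_neg (not_not.2 k)]; split_ifs; exacts [F0 _, le_rfl]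
      · rw [if_pos k, if_pos (hB v hv k)])).trans a1
    have a4 : 0 ≤ (cE Q fun v => ¬B v).E fun v => F (ρ v) := FP.E_nonneg _ fun _ _ => F0 _
    rw [pb_not] at a3
    nlinarith

variable (U : FP A) (P : FP Ω) (l : Ω → L) (z : Ω → ℝ) (s : A → ℕ) (E : A → Ω → Prop) {J : ℕ}

/-- The space without the restriction: `x.1` is the parameter, `x.2.1.1` the level, `x.2.1.2` the
point and `x.2.2` the relative. -/
noncomputable def fre (h : 0 < J) : FP (A × (ℕ × Ω) × Ω) :=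
  H17F.bind U fun a => rel P l z (a := s a) (b := s a + J) (Nat.lt_add_of_pos_right h)

/-- The space. -/
noncomputable def sp (h : 0 < J) : FP (A × (ℕ × Ω) × Ω) :=
  cE (fre U P l z s h) fun x => E x.1 x.2.1.2

/-- The law of the parameter and the point. -/
noncomputable def base : FP (A × Ω) := cE (prod U P) fun v => E v.1 v.2

/-- The relative as seen from the level and the point. -/
noncomputable def kid (j : ℕ) (ω : Ω) : FP Ω := cE (pc P l z j ω) (one z j)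

/-- The relative is in the child piece with digit one, at distance about `2^{-j}`. -/
def Gap (y : (ℕ × Ω) × Ω) : Prop := one z y.1.1 y.2 ∧
  1 / 4 < 2 ^ y.1.1 * (z y.2 - z y.1.2) ∧ 2 ^ y.1.1 * (z y.2 - z y.1.2) < 1

/-- The assumptions: the window is inside the range of fairness, the event is read at the top. -/
structure Ok (J c₀ W : ℕ) (p r : ℝ) : Prop where
  p0 : 0 < p
  p1 : p < 1
  lo : ∀ a ∈ U.S, c₀ ≤ s a
  hi : ∀ a ∈ U.S, s a + J ≤ c₀ + W
  fE : ∀ a ∈ U.S, Fn P (E a) (Oc l z c₀)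
  ne : ∃ a ∈ U.S, ∃ ω ∈ P.S, E a ω
  fa : ∀ ω ∈ P.S, cm P (Oc l z c₀) (Oc l z (c₀ + W)) ω ≤ Real.exp r * bw p c₀ (c₀ + W) (z ω)

variable {U P l z s E} {c₀ W : ℕ} {p r θ : ℝ}

theorem mem_fre (h : 0 < J) {x : A × (ℕ × Ω) × Ω} (hx : x ∈ (fre U P l z s h).S) :
    x.1 ∈ U.S ∧ (s x.1 ≤ x.2.1.1 ∧ x.2.1.1 < s x.1 + J) ∧ x.2.1.2 ∈ P.S ∧ x.2.2 ∈ P.S ∧
      Oc l z x.2.1.1 x.2.2 = Oc l z x.2.1.1 x.2.1.2 := by
  obtain ⟨a, b⟩ := (mem_bind _ _ x).1 hx
  obtain ⟨b1, b2, b3, b4, -⟩ := mem_rel _ b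
  exact ⟨a, mem_Ico.1 b1, b2, b3, b4⟩

theorem E_fre (h : 0 < J) (F : A × (ℕ × Ω) × Ω → ℝ) : (fre U P l z s h).E F =
    U.E fun a => (∑ j ∈ range J, P.E fun ω =>
      (kid P l z (s a + j) ω).E fun v => F (a, (s a + j, ω), v)) / J := by
  rw [fre, E_bind]
  refine U.E_congr fun a _ => ?_
  rw [E_rel, sum_Ico_eq_sum_range, Nat.add_sub_cancel_left]
  rfl

/-- Without the restriction the parameter and the point are independent. -/
theorem fre_fst (h : 0 < J) : Law (fre U P l z s h) (fun x => (x.1, x.2.1.2)) (prod U P) id :=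
  fun F => by
    rw [E_fre, prod, E_bind]
    refine U.E_congr fun a _ => ?_
    simp only [FP.E_const, sum_const, card_range, nsmul_eq_mul, id]
    exact mul_div_cancel_left₀ _ (Nat.cast_pos.2 h).ne'

theorem pb_fre (h : 0 < J) : pb (fre U P l z s h) (fun x => E x.1 x.2.1.2) =
    pb (prod U P) fun v => E v.1 v.2 := (fre_fst h).pb_eq fun v => E v.1 v.2

/-- A parameter that does not enter the level is independent of the rest. -/
theorem fre_ind {A₁ A₂ : Type} (U₁ : FP A₁) (U₂ : FP A₂) (s : A₂ → ℕ) (h : 0 < J) :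
    Free.Ind (fre (prod U₁ U₂) P l z (fun a => s a.2) h) U₁ (fun x => x.1.1)
      fun x => (x.1.2, x.2) := fun F => by
  simp only [fre, prod, E_bind]
  exact U₁.E_congr fun a _ => (FP.E_const _ _).symm

theorem err_eq (c : ℕ) : err p θ r c (c + J) = err p θ r 0 J := by
  simp only [err, Nat.add_sub_cancel_left, Nat.sub_zero]

namespace Ok

variable (H : Ok U P l z s E J c₀ W p r) (h : 0 < J)
include H

theorem ne0 : ∃ v ∈ (prod U P).S, E v.1 v.2 :=
  let ⟨a, ha, ω, hω, e⟩ := H.ne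
  ⟨(a, ω), (mem_bind _ _ _).2 ⟨ha, hω⟩, e⟩

theorem pos : 0 < pb (prod U P) fun v => E v.1 v.2 := pb_pos _ H.ne0

theorem ne1 : ∃ x ∈ (fre U P l z s h).S, E x.1 x.2.1.2 :=
  ex_of_pb (by rw [pb_fre]; exact H.pos)

theorem mem_base {v : A × Ω} : v ∈ (base U P E).S ↔ v.1 ∈ U.S ∧ v.2 ∈ P.S ∧ E v.1 v.2 := by
  rw [base, mem_cE H.ne0, prod, mem_bind, and_assoc]

/-- The points of the space. -/
theorem mem {x : A × (ℕ × Ω) × Ω} (hx : x ∈ (sp U P l z s E h).S) :
    x.1 ∈ U.S ∧ (s x.1 ≤ x.2.1.1 ∧ x.2.1.1 < s x.1 + J) ∧ x.2.1.2 ∈ P.S ∧ x.2.2 ∈ P.S ∧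
      Oc l z x.2.1.1 x.2.2 = Oc l z x.2.1.1 x.2.1.2 ∧ E x.1 x.2.1.2 ∧ E x.1 x.2.2 := by
  obtain ⟨a, b⟩ := (mem_cE (H.ne1 h) x).1 hx
  obtain ⟨a1, a2, a3, a4, a5⟩ := mem_fre h a
  exact ⟨a1, a2, a3, a4, a5, b, (H.fE _ a1 _ a4 _ a3
    (fnO ((H.lo _ a1).trans a2.1) _ a4 _ a3 a5)).symm ▸ b⟩

theorem E_sp (F : A × (ℕ × Ω) × Ω → ℝ) :
    pb (prod U P) (fun v => E v.1 v.2) * (sp U P l z s E h).E F = U.E fun a =>
      pb P (E a) * (rel (cE P (E a)) l z (Nat.lt_add_of_pos_right (n := s a) h)).E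
        fun y => F (a, y) := by
  rw [← pb_fre (l := l) (z := z) (s := s) h, sp, E_cE, fre, E_bind]
  exact U.E_congr fun a ha => (rel_res (G := E a) _ ((H.fE a ha).trans (fnO (H.lo a ha)))
    fun y => F (a, y)).symm

omit H in
theorem E_base (F : A × Ω → ℝ) : pb (prod U P) (fun v => E v.1 v.2) * (base U P E).E F =
    U.E fun a => pb P (E a) * (cE P (E a)).E fun ω => F (a, ω) := by
  rw [base, E_cE, prod, E_bind]
  exact U.E_congr fun a _ => (E_cE P (E a) fun ω => F (a, ω)).symm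

omit H in
theorem mass : pb (prod U P) (fun v => E v.1 v.2) = U.E fun a => pb P (E a) := by
  rw [pb, prod, E_bind]; rfl

/-- The space is a point of the base, a uniform level and a relative. -/
theorem E_kid (F : A × (ℕ × Ω) × Ω → ℝ) : (sp U P l z s E h).E F = (∑ j ∈ range J,
    (base U P E).E fun v => (kid P l z (s v.1 + j) v.2).E
      fun w => F (v.1, (s v.1 + j, v.2), w)) / J := by
  refine mul_left_cancel₀ H.pos.ne' ?_
  rw [← mul_div_assoc, mul_sum, base, sum_congr rfl fun j _ => E_cE (prod U P) (fun v => E v.1 v.2) _,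
    ← pb_fre (l := l) (z := z) (s := s) h, sp, E_cE, E_fre]
  simp only [prod, E_bind, div_eq_inv_mul _ (J : ℝ)]
  rw [FP.E_mul, FP.E_sum]
  refine congrArg _ (sum_congr rfl fun j _ => U.E_congr fun a _ => P.E_congr fun ω _ => ?_)
  by_cases e : E a ω
  · simp only [if_pos e]
  · simp only [if_neg e, FP.E_const]

/-- The level is uniform and independent of the parameter and the point. -/
theorem fst : Law (sp U P l z s E h) (fun x => (x.2.1.1 - s x.1, x.1, x.2.1.2))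
    (prod (FP.unif (range J) (nonempty_range_iff.2 h.ne')) (base U P E)) id := fun F => by
  rw [H.E_kid h, prod, E_bind, FP.E_unif, avg, card_range]
  simp only [FP.E_const, id, Nat.add_sub_cancel_left]

theorem law : Law (sp U P l z s E h) (fun x => (x.1, x.2.1.2)) (base U P E) id := fun F => by
  rw [H.E_kid h]
  simp only [FP.E_const, sum_const, card_range, nsmul_eq_mul, id]
  exact mul_div_cancel_left₀ _ (Nat.cast_pos.2 h).ne'

/-- The clause on the level. -/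
theorem lv {β : Type} {Y : A × (ℕ × Ω) × Ω → β} (Y₀ : A × Ω → β)
    (e : ∀ x ∈ (sp U P l z s E h).S, Y x = Y₀ (x.1, x.2.1.2)) (B : β → Prop) {k : ℕ} (hk : k < J) :
    (J : ℝ) * pb (sp U P l z s E h) (fun x => B (Y x) ∧ x.2.1.1 - s x.1 = k) =
      pb (sp U P l z s E h) fun x => B (Y x) := by
  classical
  rw [pb_congr (F := fun x => B (Y₀ (x.1, x.2.1.2)) ∧ x.2.1.1 - s x.1 = k)
      fun x hx => by rw [e x hx],
    pb_congr (E := fun x => B (Y x)) (F := fun x => B (Y₀ (x.1, x.2.1.2)))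
      fun x hx => by rw [e x hx], (H.law h).pb_eq fun v => B (Y₀ v),
    (H.fst h).pb_eq fun v => B (Y₀ v.2) ∧ v.1 = k, pb, prod, E_bind, FP.E_unif, avg, card_range,
    mul_div_cancel₀ _ (Nat.cast_pos.2 h).ne', sum_eq_single_of_mem k (mem_range.2 hk)]
  · exact FP.E_congr _ fun v _ => by simp
  · exact fun j _ n => (FP.E_congr _ fun v _ => by simp [n]).trans (FP.E_const _ 0)

theorem kl {a : A} (ha : a ∈ U.S) : KL (cE P (E a)) l z p (s a) (s a + J) ≤ r :=
  KL_res H.p0 H.p1 (H.fE a ha) H.fa (H.lo a ha) (H.hi a ha)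

/-- The law of the parameter and the relative is close to the base. -/
theorem tv (t0 : 0 < θ) (t1 : θ ≤ 1 / 2) (B : A × Ω → Prop) :
    pb (sp U P l z s E h) (fun x => B (x.1, x.2.2)) ≤ pb (base U P E) B + err p θ r 0 J := by
  refine le_of_mul_le_mul_left ?_ H.pos
  refine (H.E_sp h _).trans_le ?_
  rw [mul_add, show pb (base U P E) B = (base U P E).E _ from rfl, E_base, mass, mul_comm _ (err _ _ _ _ _), ← FP.E_mul, ← FP.E_add]
  refine U.E_mono fun a ha => ?_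
  rw [mul_comm (err _ _ _ _ _), ← mul_add]
  rw [← err_eq (s a)]
  exact mul_le_mul_of_nonneg_left (sub_le_iff_le_add'.1 (abs_le.1
    (rel_pb H.p0 H.p1 t0 t1 _ (H.kl ha) fun ω => B (a, ω))).2) (pb_nonneg _ _)

theorem gap (t0 : 0 < θ) (t1 : θ ≤ 1 / 2) :
    pb (sp U P l z s E h) (fun x => ¬Gap z x.2) ≤ 3 * err p θ r 0 J := by
  refine le_of_mul_le_mul_left ?_ H.pos
  refine (H.E_sp h _).trans_le ?_
  rw [mass, mul_comm _ (3 * _), ← FP.E_mul]
  refine U.E_mono fun a ha => ?_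
  rw [mul_comm (3 * _), ← err_eq (s a)]
  exact mul_le_mul_of_nonneg_left (rel_gap H.p0 H.p1 t0 t1 _ (H.kl ha)) (pb_nonneg _ _)

/-- The bad event: off it the relative is at the right distance and its law is dominated. -/
theorem dom (t0 : 0 < θ) (t1 : θ ≤ 1 / 2) : ∃ B : A × (ℕ × Ω) × Ω → Prop,
    pb (sp U P l z s E h) B ≤ 5 * err p θ r 0 J ∧ (∀ x, ¬B x → Gap z x.2) ∧
    ∀ B' : A × (ℕ × Ω) × Ω → Prop, (∀ x ∈ (sp U P l z s E h).S, B x → B' x) →
      pb (sp U P l z s E h) B' ≤ 1 / 2 →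
      Dn 4 (cE (sp U P l z s E h) fun x => ¬B' x) (fun x => (x.1, x.2.2)) (base U P E) := by
  obtain ⟨G, g1, g2⟩ := dom_of (Q := sp U P l z s E h) (ρ := fun x => (x.1, x.2.2))
    (fun x hx => H.mem_base.2 ⟨(H.mem h hx).1, (H.mem h hx).2.2.2.1, (H.mem h hx).2.2.2.2.2.2⟩)
    (H.tv h t0 t1)
  refine ⟨fun x => ¬G (x.1, x.2.2) ∨ ¬Gap z x.2, (pb_or _ _ _).trans ?_,
    fun x e => not_not.1 (not_or.1 e).2,
    fun B' e b => g2 B' (fun x hx n => not_not.1 fun k => n (e x hx (Or.inl k))) b⟩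
  linarith [H.gap h t0 t1]

/-- The number of levels bounds the entropy of the level. -/
theorem hj : hh (sp U P l z s E h) (fun x => x.2.1.1 - s x.1) ≤ Real.log J := by
  have := ch_det (P := sp U P l z s E h) (F := fun x => x.2.1.1 - s x.1) (G := fun _ => ())
    (B := J) fun a _ => ⟨range J, by simp, fun x hx _ => mem_range.2 (by
      have := (H.mem h hx).2.1
      show x.2.1.1 - s x.1 < J
      omega)⟩
  rwa [ch_unit] at this

variable {m : ℝ} (m0 : 0 < m) (hm : m ≤ pb (prod U P) fun v => E v.1 v.2)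
include m0 hm

omit H in
theorem dn_base : Dn m⁻¹ (base U P E) id (prod U P) := R4.K31.dn_cE _ m0 hm

omit H in
theorem dn_fre : Dn m⁻¹ (sp U P l z s E h) id (fre U P l z s h) :=
  R4.K31.dn_cE _ m0 (by rwa [pb_fre])

theorem dn_pt : Dn m⁻¹ (sp U P l z s E h) (fun x => (x.1, x.2.1.2)) (prod U P) := by
  simpa only [one_mul, id] using (R4.K31.dn_law (H.law h)).trans (dn_base m0 hm)

/-- All the facts on the bad event. -/
theorem bad (t0 : 0 < θ) (t1 : θ ≤ 1 / 2) : ∃ B : A × (ℕ × Ω) × Ω → Prop,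
    pb (sp U P l z s E h) B ≤ 5 * err p θ r 0 J ∧ (∀ x, ¬B x → Gap z x.2) ∧
    ∀ B' : A × (ℕ × Ω) × Ω → Prop, (∀ x ∈ (sp U P l z s E h).S, B x → B' x) →
      pb (sp U P l z s E h) B' ≤ 1 / 2 →
      Dn (4 * m⁻¹) (cE (sp U P l z s E h) fun x => ¬B' x) (fun x => (x.1, x.2.2)) (prod U P) ∧
      Dn (2 * m⁻¹) (cE (sp U P l z s E h) fun x => ¬B' x) id (fre U P l z s h) := by
  obtain ⟨B, b1, b2, b3⟩ := H.dom h t0 t1
  refine ⟨B, b1, b2, fun B' e b => ⟨(b3 B' e b).trans (dn_base m0 hm), ?_⟩⟩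
  have := R4.K31.dn_cE (P := sp U P l z s E h) (fun x => ¬B' x) (κ := 2⁻¹) (by norm_num)
    (by rw [pb_not]; linarith)
  rw [inv_inv] at this
  exact this.trans (dn_fre h m0 hm)

end Ok

end Pool.Agent.MP_5168f5_an.QA.Mk
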