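import Pool.Agent.MP_4b405e_nt.SK.SpC
import Pool.Agent.MP_4b405e_nt.SK.CMk

/-! Sparse heights, block C: the order of the parameters and the law of the block system. -/

namespace Pool.Agent.MP_5168f5_an.QA

open H19 H17S H17F R4 AN Filter Matrix Real Finset Haz
open R4.K31 (Dn)

/-- The law of the parameter and the relative is close to the base, for bounded functions. -/
theorem Mk.Ok.tvE {Ω L A : Type} {U : FP A} {P : FP Ω} {l : Ω → L} {z : Ω → ℝ} {s : A → ℕ}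
    {E : A → Ω → Prop} {J c₀ W : ℕ} {p r θ : ℝ} (H : Mk.Ok U P l z s E J c₀ W p r) (h : 0 < J)
    (t0 : 0 < θ) (t1 : θ ≤ 1 / 2) {F : A × Ω → ℝ} (f : ∀ y, 0 ≤ F y ∧ F y ≤ 1) :
    |(Mk.sp U P l z s E h).E (fun x => F (x.1, x.2.2)) - (Mk.base U P E).E F| ≤ err p θ r 0 J := by
  refine le_of_mul_le_mul_left ?_ H.pos
  rw [← abs_of_pos H.pos, ← abs_mul, abs_of_pos H.pos, mul_sub, H.E_sp h, Mk.Ok.E_base,
    Mk.Ok.mass, mul_comm _ (err _ _ _ _ _), ← FP.E_mul, ← FP.E_sub]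
  have k : ∀ a ∈ U.S, |pb P (E a) * (rel (cE P (E a)) l z (Nat.lt_add_of_pos_right
      (n := s a) h)).E (fun y => F (a, y.2)) - pb P (E a) * (cE P (E a)).E fun ω => F (a, ω)| ≤
      err p θ r 0 J * pb P (E a) := fun a ha => by
    rw [← mul_sub, abs_mul, abs_of_nonneg (pb_nonneg _ _), mul_comm, ← Mk.err_eq (s a)]
    exact mul_le_mul_of_nonneg_right (rel_tv H.p0 H.p1 t0 t1 _ (H.kl ha)
      (F := fun ω => F (a, ω)) fun ω _ => f _) (pb_nonneg _ _)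
  refine abs_le.2 ⟨?_, U.E_mono fun a ha => (abs_le.1 (k a ha)).2⟩
  rw [← neg_one_mul, ← FP.E_mul]
  exact U.E_mono fun a ha => by rw [neg_one_mul]; exact (abs_le.1 (k a ha)).1

namespace SC

variable {ι κ : Type} [Fintype ι] [DecidableEq ι] [Fintype κ] [DecidableEq κ] {σ : Kk ι κ}
  {Y : Wd ι κ} {p : Pm} {K e w r δ : ℝ}

theorem posl {a b : ℝ} (h : 0 < a * b) (k : 0 ≤ b) : 0 < a :=
  not_le.1 fun q => absurd h (not_lt.2 (mul_nonpos_of_nonpos_of_nonneg q k))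

theorem posr {a b : ℝ} (h : 0 < a * b) (k : 0 ≤ a) : 0 < b := posl (mul_comm a b ▸ h) k

namespace Wd

theorem mem_un {n i : ℕ} (h : 0 < n) : i ∈ (un n).S ↔ i < n := by
  rw [← max_eq_left (show 1 ≤ n from h), ← mem_range, max_eq_left (show 1 ≤ n from h)]
  simp only [un, max_eq_left (show 1 ≤ n from h)]
  rfl

theorem E_un {n : ℕ} (h : 0 < n) (F : ℕ → ℝ) : (un n).E F = (∑ i ∈ range n, F i) / n := by
  rw [un, FP.E_unif, avg, card_range, max_eq_left (show 1 ≤ n from h)]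

/-- The chain of the parameters. -/
structure Ch (σ : Kk ι κ) (Y : Wd ι κ) (p : Pm) (K e w r δ : ℝ) : Prop where
  K1 : 1 ≤ K
  d1 : δ ≤ 1
  e1 : 1 ≤ e
  eu : K * e ≤ δ * p.u
  Ku : K * e ≤ p.u
  uL : K * p.u ≤ p.L
  Ld : (p.L : ℝ) ≤ p.d0
  dx : (p.d0 : ℝ) ≤ p.xA
  xn : (p.xA : ℝ) ≤ p.nb
  nk : (p.nb : ℝ) ≤ p.kD * Y.ms
  kr : p.kD * Y.ms ≤ r
  kD : 2 * (p.kD * Y.ms) ≤ Y.D Y.nT
  rw : r ≤ w
  u0 : 0 < p.u
  L0 : 0 < p.L
  k0 : 0 < p.kD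
  n0 : 0 < Y.nD
  N0 : 0 < p.N
  s0 : 0 < u1 σ p

theorem Hyp.ch (H : Y.Hyp σ p K e w r δ) (K1 : 1 ≤ K) : Ch σ Y p K e w r δ := by
  have n := H.num
  have m0 := H.ok.ms.1
  have d0 := n.d0
  have up : ∀ {a b : ℝ}, 0 ≤ a → K * a ≤ b → a ≤ b := fun a0 h =>
    (le_mul_of_one_le_left a0 K1).trans h
  have c : ∀ m : ℕ, (0 : ℝ) ≤ m := Nat.cast_nonneg
  have d1 := up d0.le n.d1
  have e1 := K1.trans n.e1
  have eu : K * e ≤ δ * p.u := (mul_le_mul_of_nonneg_left n.eu (by linarith)).trans (by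
    nlinarith [mul_le_mul_of_nonneg_right n.d1 (mul_nonneg d0.le (c p.u))])
  have Ku : K * e ≤ p.u := eu.trans (mul_le_of_le_one_left (c _) d1)
  have uL : K * p.u ≤ p.L := (mul_le_mul_of_nonneg_left n.uL (by linarith)).trans (by
    nlinarith [mul_le_mul_of_nonneg_right n.d1 (c p.L)])
  have u1' : (1 : ℝ) ≤ p.u := e1.trans (up (by linarith) Ku)
  have a1 := up (c _) uL
  have a2 := up (c _) n.Ld
  have a3 := up (c _) n.dx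
  have a4 := up (c _) n.xn
  have a5 := up (c _) n.nk
  have a6 := up (by positivity) n.kr
  have a7 : 2 * (p.kD * Y.ms) ≤ Y.D Y.nT := by
    have : (2 * p.kD : ℝ) ≤ Y.nT := by exact_mod_cast le_of_add_le_right n.nT
    rw [← mul_assoc]
    exact mul_le_mul_of_nonneg_right this m0.le
  have a8 := le_mul_of_one_le_left (show 0 ≤ Y.D Y.nT by linarith) K1
  have k0 : (0 : ℝ) < p.kD := posl (b := Y.ms) (by linarith) m0.le
  have n0 : (0 : ℝ) < Y.nD := posr (a := δ * p.u)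
    (lt_of_lt_of_le (mul_pos k0 (by linarith)) n.tel) (by positivity)
  have N0 : (0 : ℝ) < p.N * u1 σ p := posr (a := 1 + δ)
    (by linarith [n.lo, n.up, mul_nonneg (c p.N) (c (u1 σ p))]) (by positivity)
  exact ⟨K1, d1, e1, eu, Ku, uL, a2, a3, a4, a5, a6, a7, by linarith [n.rw],
    Nat.cast_pos.1 (by linarith : (0 : ℝ) < _), Nat.cast_pos.1 (by linarith : (0 : ℝ) < _),
    Nat.cast_pos.1 k0, Nat.cast_pos.1 n0,
    Nat.cast_pos.1 (posl N0 (c _)),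
    Nat.cast_pos.1 (posr N0 (c _))⟩

theorem Ch.mem_Px (c : Ch σ Y p K e w r δ) {x : Par} : x ∈ (Y.Px p).S ↔
    x.1 < Y.nD ∧ x.2.1 < p.N ∧ x.2.2.1 < p.L ∧ x.2.2.2 < p.L := by
  simp only [Px, prod, H17F.mem_bind, mem_un c.n0, mem_un c.N0, mem_un c.L0]

/-- The window of the levels is inside the range. -/
theorem Hyp.lvW (H : Y.Hyp σ p K e w r δ) (K1 : 1 ≤ K) (kC : (σ.C : ℝ) ≤ K) {x : Par}
    (ht : x.2.1 ≤ p.N) (hl : x.2.2.1 ≤ p.L) : lv σ p x + σ.C * p.u ≤ Y.W1 := by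
  have c := H.ch K1
  have a1 : ((x.2.1 * u1 σ p : ℕ) : ℝ) ≤ (p.N * u1 σ p : ℕ) :=
    Nat.cast_le.2 (Nat.mul_le_mul_right _ ht)
  have a2 : (x.2.2.1 : ℝ) ≤ p.L := Nat.cast_le.2 hl
  have a3 := mul_le_mul_of_nonneg_right kC (Nat.cast_nonneg (α := ℝ) p.u)
  have a4 := le_mul_of_one_le_left (show 0 ≤ Y.D Y.nT by
    linarith [c.kD, c.nk, Nat.cast_nonneg (α := ℝ) p.nb]) K1
  rw [← Nat.cast_le (α := ℝ)]
  simp only [lv, l0]
  push_cast at a1 ⊢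
  linarith [H.num.up, c.uL, c.Ld, c.dx, c.xn, c.nk, c.kD]

theorem J0 (σ : Kk ι κ) (p : Pm) : 0 < max (σ.C * p.u) 1 := by simp

theorem Ch.J (c : Ch σ Y p K e w r δ) (h : σ.Ok) : max (σ.C * p.u) 1 = σ.C * p.u :=
  max_eq_left (Nat.mul_pos (by linarith [h.c2]) c.u0)

theorem P1_eq : Y.P1 σ p =
    Mk.fre (Y.Px p) Y.P Y.l Y.zz (fun x => Y.c₀ + lv σ p x) (J0 σ p) := rfl

theorem P2_eq : Y.P2 σ p =
    Mk.sp (Y.Px p) Y.P Y.l Y.zz (fun x => Y.c₀ + lv σ p x) (fun x => Y.E x.1) (J0 σ p) := rfl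

/-- The mass of the event. -/
theorem Hyp.mass (H : Y.Hyp σ p K e w r δ) (K1 : 1 ≤ K) :
    σ.cc ≤ pb (prod (Y.Px p) Y.P) fun v => Y.E v.1.1 v.2 := by
  have c := H.ch K1
  rw [Mk.Ok.mass (E := fun x : Par => Y.E x.1), Px, prod,
    KGA.E_bind_fst _ _ fun i => pb Y.P (Y.E i), E_un c.n0, le_div_iff₀ (Nat.cast_pos.2 c.n0)]
  exact H.st.mass

theorem Hyp.mk' (H : Y.Hyp σ p K e w r δ) (h : σ.Ok) (kC : (σ.C : ℝ) ≤ K) :
    Mk.Ok (Y.Px p) Y.P Y.l Y.zz (fun x => Y.c₀ + lv σ p x) (fun x => Y.E x.1)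
      (max (σ.C * p.u) 1) Y.c₀ Y.W (Y.k : ℝ)⁻¹ (e / Y.k) := by
  have K2 : (2 : ℝ) ≤ K := le_trans (by exact_mod_cast h.c2) kC
  have K1 : 1 ≤ K := by linarith
  have c := H.ch K1
  have k2 : (2 : ℝ) ≤ Y.k := by
    nlinarith [H.num.kk.1, H.num.d1, H.num.d0, Nat.cast_nonneg (α := ℝ) Y.k,
      mul_le_mul_of_nonneg_right H.num.d1 (Nat.cast_nonneg (α := ℝ) Y.k)]
  refine ⟨by positivity, inv_lt_one_of_one_lt₀ (by linarith), fun _ _ => Nat.le_add_right _ _,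
    fun x hx => ?_, fun x _ => (H.st.fE x.1).trans H.ok.top, ?_, H.ok.fa⟩
  · obtain ⟨-, a, b, -⟩ := c.mem_Px.1 hx
    have := (H.lvW K1 kC a.le b.le).trans H.ok.w1
    rw [c.J h]
    omega
  · obtain ⟨v, hv, k⟩ := ex_of_pb (h.cc0.trans_le (H.mass K1))
    exact ⟨v.1, ((H17F.mem_bind _ _ v).1 hv).1, v.2, ((H17F.mem_bind _ _ v).1 hv).2, k⟩

theorem Hyp.dh (H : Y.Hyp σ p K e w r δ) (h : σ.Ok) (kC : (σ.C : ℝ) ≤ K) : δ ≤ 1 / 2 := by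
  have K2 : (2 : ℝ) ≤ K := le_trans (by exact_mod_cast h.c2) kC
  nlinarith [H.num.d1, H.num.d0]

theorem Hyp.err_le (H : Y.Hyp σ p K e w r δ) (h : σ.Ok) (kC : (σ.C : ℝ) ≤ K) :
    err (Y.k : ℝ)⁻¹ δ (e / Y.k) 0 (max (σ.C * p.u) 1) ≤ 7 * δ := by
  have C2 : (2 : ℝ) ≤ σ.C := by exact_mod_cast h.c2
  have c := H.ch (by linarith)
  have d0 := H.num.d0
  have k0 : (0 : ℝ) < Y.k := posr (a := δ)
    (by linarith [H.num.kk.1]) d0.le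
  have u0 : (0 : ℝ) < p.u := Nat.cast_pos.2 c.u0
  have a1 : (Y.k : ℝ)⁻¹ ≤ δ := by rw [inv_le_iff_one_le_mul₀ k0]; exact H.num.kk.1
  have a2 : 3 * (e / Y.k + 1) / (δ * ((Y.k : ℝ)⁻¹ * (σ.C * p.u))) ≤ 3 * δ := by
    rw [div_le_iff₀ (by positivity), mul_assoc, mul_le_mul_iff_right₀ three_pos,
      ← mul_le_mul_iff_left₀ k0, add_mul, div_mul_cancel₀ _ k0.ne',
      show δ * (δ * ((Y.k : ℝ)⁻¹ * (σ.C * p.u))) * Y.k = σ.C * (δ ^ 2 * p.u) by field_simp]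
    nlinarith [H.num.eu, H.num.kk.2, c.e1]
  rw [err, c.J h, Nat.sub_zero]
  push_cast
  linarith

/-- The points of the space. -/
theorem Hyp.mem (H : Y.Hyp σ p K e w r δ) (h : σ.Ok) (kC : (σ.C : ℝ) ≤ K)
    {z : Par × (ℕ × Y.Ω) × Y.Ω} (hz : z ∈ (Y.P2 σ p).S) :
    (z.1.1 < Y.nD ∧ z.1.2.1 < p.N ∧ z.1.2.2.1 < p.L ∧ z.1.2.2.2 < p.L) ∧
    (Y.c₀ + lv σ p z.1 ≤ z.2.1.1 ∧ z.2.1.1 < Y.c₀ + lv σ p z.1 + σ.C * p.u) ∧
    z.2.1.2 ∈ Y.P.S ∧ z.2.2 ∈ Y.P.S ∧ Y.E z.1.1 z.2.1.2 ∧ Y.E z.1.1 z.2.2 ∧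
    Y.lam z.2.2 = Y.lam z.2.1.2 ∧ ∀ c, Y.c₀ + c ≤ z.2.1.1 → Y.Q c z.2.2 = Y.Q c z.2.1.2 := by
  have c := H.ch (le_trans (by exact_mod_cast h.c2.trans' one_le_two) kC)
  obtain ⟨a1, a2, a3, a4, a5, a6, a7⟩ := (H.mk' h kC).mem (J0 σ p) hz
  rw [c.J h] at a2
  have q : ∀ c, Y.c₀ + c ≤ z.2.1.1 → Y.Q c z.2.2 = Y.Q c z.2.1.2 := fun c k =>
    fnO k _ a4 _ a3 a5
  exact ⟨c.mem_Px.1 a1, a2, a3, a4, a6, a7,
    H.ok.top _ a4 _ a3 (q 0 ((Nat.le_add_right _ _).trans a2.1)), q⟩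

/-- The law of the point. -/
theorem Hyp.dn_pt (H : Y.Hyp σ p K e w r δ) (h : σ.Ok) (kC : (σ.C : ℝ) ≤ K) :
    Dn σ.cc⁻¹ (Y.P2 σ p) (fun z => (z.1, z.2.1.2)) (prod (Y.Px p) Y.P) :=
  (H.mk' h kC).dn_pt (J0 σ p) h.cc0
    (H.mass (le_trans (by exact_mod_cast h.c2.trans' one_le_two) kC))

theorem Hyp.dn_P1 (H : Y.Hyp σ p K e w r δ) (h : σ.Ok) (K1 : 1 ≤ K) :
    Dn σ.cc⁻¹ (Y.P2 σ p) id (Y.P1 σ p) :=
  Mk.Ok.dn_fre (E := fun x : Par => Y.E x.1) (J0 σ p) h.cc0 (H.mass K1)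

theorem Hyp.gap (H : Y.Hyp σ p K e w r δ) (h : σ.Ok) (kC : (σ.C : ℝ) ≤ K) :
    pb (Y.P2 σ p) (fun z => ¬Mk.Gap Y.zz z.2) ≤ 21 * δ :=
  ((H.mk' h kC).gap (J0 σ p) H.num.d0 (H.dh h kC)).trans (by linarith [H.err_le h kC])

/-- The bad event and the law of the relative. -/
theorem Hyp.bad (H : Y.Hyp σ p K e w r δ) (h : σ.Ok) (kC : (σ.C : ℝ) ≤ K) :
    ∃ B : Par × (ℕ × Y.Ω) × Y.Ω → Prop, pb (Y.P2 σ p) B ≤ 35 * δ ∧
      (∀ z, ¬B z → Mk.Gap Y.zz z.2) ∧ ∀ B' : Par × (ℕ × Y.Ω) × Y.Ω → Prop,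
      (∀ z ∈ (Y.P2 σ p).S, B z → B' z) → pb (Y.P2 σ p) B' ≤ 1 / 2 →
      Dn (4 * σ.cc⁻¹) (cE (Y.P2 σ p) fun z => ¬B' z) (fun z => (z.1, z.2.2))
        (prod (Y.Px p) Y.P) ∧
      Dn (2 * σ.cc⁻¹) (cE (Y.P2 σ p) fun z => ¬B' z) id (Y.P1 σ p) := by
  obtain ⟨B, b1, b2, b3⟩ := (H.mk' h kC).bad (J0 σ p) h.cc0
    (H.mass (le_trans (by exact_mod_cast h.c2.trans' one_le_two) kC)) H.num.d0 (H.dh h kC)
  exact ⟨B, b1.trans (by linarith [H.err_le h kC]), b2, b3⟩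

theorem rd_near (n : ℕ) (y : ℝ) : |rd n y - y| ≤ (2 ^ n)⁻¹ := by
  have x : (0 : ℝ) < 2 ^ n := by positivity
  rw [rd, fl1, show (2 ^ n)⁻¹ * (⌊2 ^ n * y⌋ : ℝ) - y = (2 ^ n)⁻¹ * (⌊2 ^ n * y⌋ - 2 ^ n * y) by
    field_simp, abs_mul, abs_of_pos (inv_pos.2 x)]
  refine mul_le_of_le_one_right (inv_pos.2 x).le (abs_le.2 ⟨?_, ?_⟩)
  · linarith [Int.lt_floor_add_one (2 ^ n * y)]
  · linarith [Int.floor_le (2 ^ n * y)]

/-- The size of the height coefficient. -/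
theorem Hyp.bt (H : Y.Hyp σ p K e w r δ) (h : σ.Ok) (kC : (σ.C : ℝ) + 8 ≤ K)
    {z : Par × (ℕ × Y.Ω) × Y.Ω} (hz : z ∈ (Y.P2 σ p).S) (g : Mk.Gap Y.zz z.2) :
    exp (-1 - lg * (Y.bd σ p).j z) ≤ |(Y.bd σ p).b z (σ.bc h).τ / (Y.k0 / 2)| ∧
      |(Y.bd σ p).b z (σ.bc h).τ / (Y.k0 / 2)| ≤ exp (1 - lg * (Y.bd σ p).j z) := by
  have C0 : (0 : ℝ) ≤ σ.C := Nat.cast_nonneg _
  have c := H.ch (by linarith)
  obtain ⟨⟨-, m1, m2, -⟩, ⟨m3, m4⟩, m5, m6, -, -, -, m7⟩ := H.mem h (by linarith) hz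
  obtain ⟨j, hj⟩ := Nat.exists_eq_add_of_le m3
  have e1 : (Y.bd σ p).j z = j := by change z.2.1.1 - _ = j; omega
  have jl : j < σ.C * p.u := by omega
  have lW : lv σ p z.1 ≤ Y.W :=
    (le_of_add_le_left (H.lvW c.K1 (by linarith) m1.le m2.le)).trans H.ok.w1
  obtain ⟨y, hy⟩ : ∃ y : ℝ, y = 2 ^ z.2.1.1 * (Y.zz z.2.2 - Y.zz z.2.1.2) := ⟨_, rfl⟩
  obtain ⟨-, g1, g2⟩ := g
  rw [← hy] at g1 g2
  have x2 : ∀ n : ℕ, exp (lg * n) = 2 ^ n := fun n => by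
    rw [mul_comm, exp_nat_mul, H17S.lg, exp_log two_pos]
  have k0 : 0 < |Y.k0| := (exp_pos _).trans_le H.ok.k0.1
  have t1 := H.ok.tt _ m5 _ m6 (m7 0 (le_trans (Nat.le_add_right _ _) m3)).symm
  obtain ⟨t, ht⟩ : ∃ t, t = Y.t z.2.1.2 z.2.2 σ.τ := ⟨_, rfl⟩
  obtain ⟨b, hb⟩ : ∃ b, b = rd p.nb (2 ^ lv σ p z.1 * t) := ⟨_, rfl⟩
  have e2 : (Y.bd σ p).b z (σ.bc h).τ = b := by
    change rd p.nb (exp (σ.mu σ.τ * lv σ p z.1) * _) = b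
    rw [hb, h.tau, x2, ht]; rfl
  rw [← ht] at t1
  have j0 : (0 : ℝ) < 2 ^ j := by positivity
  have t2 : |2 ^ lv σ p z.1 * t - Y.k0 * y / 2 ^ j| ≤ exp (-w) := by
    rw [show 2 ^ lv σ p z.1 * t - Y.k0 * y / 2 ^ j = 2 ^ lv σ p z.1 *
      (t - Y.k0 * 2 ^ Y.c₀ * (Y.zz z.2.2 - Y.zz z.2.1.2)) by
        rw [hy, hj, pow_add, pow_add]; field_simp, abs_mul, abs_of_pos (by positivity)]
    refine (mul_le_mul (pow_le_pow_right₀ one_le_two lW) t1 (abs_nonneg _) (by positivity)).trans_eq ?_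
    rw [← x2, ← exp_add]
    congr 1; ring
  have t3 : |b - Y.k0 * y / 2 ^ j| ≤ 2 * exp (-(p.nb / 2)) := by
    have a1 := rd_near p.nb (2 ^ lv σ p z.1 * t)
    have a2 : ((2 : ℝ) ^ p.nb)⁻¹ ≤ exp (-(p.nb / 2)) := by
      rw [exp_neg]; exact inv_anti₀ (exp_pos _) (exp_le_two_pow _)
    have a3 : exp (-w) ≤ exp (-(p.nb / 2)) := exp_le_exp.2 (by
      linarith [c.rw, c.kr, c.nk, Nat.cast_nonneg (α := ℝ) p.nb])
    rw [← hb] at a1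
    linarith [abs_sub_le b (2 ^ lv σ p z.1 * t) (Y.k0 * y / 2 ^ j)]
  have t4 : 2 * exp (-(p.nb / 2)) ≤ |Y.k0| / 32 / 2 ^ j := by
    have a1 : (2 : ℝ) ^ j ≤ exp (σ.C * p.u) :=
      (two_pow_le_exp j).trans (exp_le_exp.2 (by exact_mod_cast jl.le))
    have a2 : (64 : ℝ) ≤ exp 6 := by
      have := two_pow_le_exp 6
      norm_num at this ⊢
      exact this
    have u0 : (0 : ℝ) ≤ p.u := Nat.cast_nonneg _
    have a3 : -(p.nb / 2 : ℝ) + σ.C * p.u + 6 ≤ -e := by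
      have b1 := mul_le_mul_of_nonneg_right kC u0
      have b2 := mul_le_mul_of_nonneg_right kC (show 0 ≤ e by linarith [c.e1])
      have b3 := mul_le_mul_of_nonneg_right kC (Nat.cast_nonneg (α := ℝ) p.L)
      have b4 := mul_nonneg C0 (Nat.cast_nonneg (α := ℝ) p.L)
      have b5 := mul_nonneg C0 u0
      have b6 := mul_nonneg C0 (show 0 ≤ e by linarith [c.e1])
      linarith [c.uL, H.num.Ld, c.dx, c.xn, c.Ku, c.e1]
    rw [div_div, le_div_iff₀ (by positivity)]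
    refine le_trans ?_ ((exp_le_exp.2 a3).trans H.ok.k0.1)
    rw [exp_add, exp_add]
    nlinarith [mul_le_mul a1 a2 (by norm_num) (exp_pos _).le, exp_pos (-(p.nb / 2 : ℝ))]
  have t5 : |b / (Y.k0 / 2) * 2 ^ j - 2 * y| ≤ 1 / 16 := by
    have n0 : Y.k0 ≠ 0 := abs_pos.1 k0
    rw [show b / (Y.k0 / 2) * 2 ^ j - 2 * y = (b - Y.k0 * y / 2 ^ j) * (2 * 2 ^ j) / Y.k0 by
      field_simp, abs_div, abs_mul, div_le_iff₀ k0, abs_of_pos (show (0 : ℝ) < 2 * 2 ^ j by positivity)]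
    refine (mul_le_mul_of_nonneg_right (t3.trans t4) (by positivity)).trans_eq ?_
    field_simp
    norm_num
  obtain ⟨s1, s2⟩ := abs_le.1 t5
  have s3 : 0 < b / (Y.k0 / 2) := posl (b := 2 ^ j) (by linarith) j0.le
  have x1 := exp_one_gt_d9
  rw [e1, e2, abs_of_pos s3, exp_sub, exp_sub, x2, div_le_iff₀ j0, le_div_iff₀ j0, exp_neg]
  refine ⟨le_trans (inv_le_of_inv_le₀ (by norm_num) (show (7 / 16 : ℝ)⁻¹ ≤ _ by linarith)) ?_, ?_⟩ <;>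
    linarith

end Wd

theorem rowLv : RowLv := fun _ _ _ _ _ _ σ h => ⟨σ.C + 21,
  by linarith [Nat.cast_nonneg (α := ℝ) σ.C], fun Y p e w r δ H => by
    have C0 : (0 : ℝ) ≤ σ.C := Nat.cast_nonneg _
    have kC : (σ.C : ℝ) ≤ σ.C + 21 := by linarith
    have c := H.ch (by linarith)
    have M := H.mk' h kC
    have e1 := c.e1
    have a0 := mul_nonneg C0 (zero_le_one.trans e1)
    refine ⟨⟨?_, ?_, fun a b b' hb => ?_, fun z _ z' _ q => ?_, fun A k hk => ?_⟩, ?_⟩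
    · rw [abs_div, abs_two]
      have a1 : exp (-((σ.C + 21) * e)) ≤ exp (-e) * exp (-1) := by
        rw [← exp_add]; exact exp_le_exp.2 (by linarith)
      have a2 : exp (-1) ≤ 2⁻¹ := by
        rw [exp_neg]; exact inv_anti₀ two_pos (by linarith [exp_one_gt_d9])
      have a3 : exp e ≤ exp ((σ.C + 21) * e) := exp_le_exp.2 (by linarith)
      constructor
      · nlinarith [H.ok.k0.1, exp_pos (-e)]
      · linarith [H.ok.k0.2, abs_nonneg Y.k0]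
    · refine (pb_mono fun z hz n g => n (H.bt h (by linarith) hz g)).trans ((H.gap h kC).trans ?_)
      nlinarith [H.num.d0]
    · rintro ⟨x, ⟨j, ω⟩, v⟩ - ⟨x', ⟨j', ω'⟩, v'⟩ - q
      obtain rfl : x = x' := congrArg (·.1.1) q
      have q1 : Y.cp x.1 ω = Y.cp x.1 ω' := congrArg (·.1.2.1) q
      have q2 : Y.Cp (Y.i1 p x) ω = Y.Cp (Y.i1 p x) ω' := congrArg (·.2) q
      have q3 : Y.v1 x.1 (Y.i1 p x) ω = Y.v1 x.1 (Y.i1 p x) ω' :=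
        N2.rep_congr (Prod.ext q1 q2)
      change Y.ρ σ p x ω a b b' = Y.ρ σ p x ω' a b b'
      cases b' with
      | none => exact absurd rfl hb
      | some b' => cases b <;> simp only [Wd.ρ, Wd.ρ0, Option.elim, q1, q3]
    · obtain ⟨x, ⟨j, ω⟩, v⟩ := z
      obtain ⟨x', ⟨j', ω'⟩, v'⟩ := z'
      obtain rfl : x = x' := congrArg (·.1.1) q
      have q1 : Y.cp x.1 ω = Y.cp x.1 ω' := congrArg (·.1.2.1) q
      funext a a' a''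
      change Y.ck σ x.1 (Y.cp x.1 ω) _ _ _ = Y.ck σ x.1 (Y.cp x.1 ω') _ _ _
      rw [q1]
    · have := M.lv (Wd.J0 σ p) (Y := (Y.bd σ p).Y (σ.bc h))
        (fun v => (Y.bd σ p).Y (σ.bc h) (v.1, (0, v.2), v.2)) (fun _ _ => rfl) A
        (k := k) (by rw [c.J h]; exact hk)
      rw [show ((max (σ.C * p.u) 1 : ℕ) : ℝ) = (σ.C * p.u : ℕ) by rw [c.J h]] at this
      exact this
    · refine (M.hj (Wd.J0 σ p)).trans ?_
      have C2 : (0 : ℝ) < σ.C := by exact_mod_cast two_pos.trans_le h.c2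
      rw [c.J h, Nat.cast_mul, log_mul C2.ne' (Nat.cast_pos.2 c.u0).ne']
      nlinarith [log_le_sub_one_of_pos C2, H.num.lu]⟩

theorem rowTV : RowTV := fun _ _ _ _ _ _ σ h => ⟨σ.C + 7, by linarith [Nat.cast_nonneg (α := ℝ) σ.C],
  fun Y p e w r δ H F f => by
    have kC : (σ.C : ℝ) ≤ σ.C + 7 := by linarith
    have a := (H.mk' h kC).tvE (Wd.J0 σ p) H.num.d0 (H.dh h kC) f
    rw [← show _ = (Mk.base _ _ _).E F from (H.mk' h kC).law (Wd.J0 σ p) F] at a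
    refine (a.trans (H.err_le h kC)).trans ?_
    nlinarith [H.num.d0, Nat.cast_nonneg (α := ℝ) σ.C]⟩

end SC

end Pool.Agent.MP_5168f5_an.QA
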