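import Pool.Agent.MP_4b405e_nt.SK.SpC

/-! Sparse heights, block C: normalisation of the height coefficient. -/

namespace Pool.Agent.MP_5168f5_an.QA.SC

open H19 H17S H17F R4 AN Filter Matrix Real Finset
open Pool.Agent.MP_4b405e_nt.FB (Bc Bd Bs)

namespace Nrm

variable {α ν : Type} [Fintype α] [Fintype ν]

section Pow

variable {σ : Bc α ν} [DecidableEq ν] {R R' : Matrix ν ν ℝ}

/-- Graded matrices. -/
def Gd (σ : Bc α ν) (R : Matrix ν ν ℝ) : Prop :=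
  ∀ p q, R p q ≠ 0 → σ.wt q < σ.wt p ∧ (q ≠ σ.o → σ.w p = σ.w q)

omit [Fintype α] in
theorem pow_gd (h : σ.Ok) (g : Gd σ R) (k : ℕ) : Gd σ (R ^ (k + 1)) := by
  induction k with
  | zero => simpa using g
  | succ k ih =>
    intro p q a
    rw [pow_succ, mul_apply] at a
    obtain ⟨s, -, b⟩ := exists_ne_zero_of_sum_ne_zero a
    have b1 := ih p s (left_ne_zero_of_mul b)
    have b2 := g s q (right_ne_zero_of_mul b)
    refine ⟨b2.1.trans b1.1, fun c => (b1.2 fun e => ?_).trans (b2.2 c)⟩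
    have := h.wt0 q c
    rw [e, h.wo] at b2
    linarith [b2.1]

omit [Fintype α] in
theorem pow_bd {A y : ℝ} (A1 : 1 ≤ A)
    (b : ∀ p q, |R p q| * Fintype.card ν ≤ A * exp (-((σ.wt p - σ.wt q) * y))) (k : ℕ) (p q : ν) :
    |(R ^ (k + 1)) p q| ≤ A ^ (k + 1) * exp (-((σ.wt p - σ.wt q) * y)) := by
  have n1 : (1 : ℝ) ≤ Fintype.card ν := Nat.one_le_cast.2 (Fintype.card_pos_iff.2 ⟨p⟩)
  induction k generalizing q with
  | zero => simpa using (le_mul_of_one_le_right (abs_nonneg _) n1).trans (b p q)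
  | succ k ih =>
    rw [pow_succ, mul_apply]
    refine le_of_mul_le_mul_right ?_ (zero_lt_one.trans_le n1)
    refine (mul_le_mul_of_nonneg_right (abs_sum_le_sum_abs _ _) (by positivity)).trans ?_
    rw [sum_mul]
    refine (sum_le_card_nsmul _ _ (A ^ (k + 1 + 1) * exp (-((σ.wt p - σ.wt q) * y)))
      fun s _ => ?_).trans_eq (by rw [card_univ, nsmul_eq_mul, mul_comm])
    rw [abs_mul, mul_assoc]
    refine (mul_le_mul (ih s) (b s q) (by positivity) (by positivity)).trans_eq ?_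
    rw [mul_mul_mul_comm, ← exp_add, ← pow_succ]
    congr 2
    ring

omit [Fintype α] in
theorem pow_eq (h : σ.Ok) (g : Gd σ R) (g' : Gd σ R') (e : ∀ p q, q ≠ σ.o → R p q = R' p q)
    (k : ℕ) (p q : ν) (c : q ≠ σ.o) : (R ^ (k + 1)) p q = (R' ^ (k + 1)) p q := by
  have z : ∀ {S : Matrix ν ν ℝ}, Gd σ S → ∀ q, S σ.o q = 0 := fun {S} g q => by
    by_contra a
    have := (g _ _ a).1
    rw [h.wo] at this
    exact absurd (h.wt_nonneg q) (not_le.2 this)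
  induction k generalizing q with
  | zero => simpa using e p q c
  | succ k ih =>
    rw [pow_succ, pow_succ R', mul_apply, mul_apply]
    refine sum_congr rfl fun s _ => ?_
    by_cases a : s = σ.o
    · rw [a, z g, z g', mul_zero, mul_zero]
    · rw [ih s a, e s q c]

end Pow

variable {σ : Bc α ν} {R R' : Matrix ν ν ℝ} {M : ℕ}

omit [Fintype α] in
theorem wp_gd (h : σ.Ok) (g : Gd σ R) : Gd σ (Wp M R) := fun p q a => by
  classical
  rw [Wp, Matrix.sum_apply] at a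
  obtain ⟨k, -, b⟩ := exists_ne_zero_of_sum_ne_zero a
  rw [Matrix.smul_apply, smul_eq_mul] at b
  exact pow_gd h g k p q (right_ne_zero_of_mul b)

omit [Fintype α] in
theorem wp_eq (h : σ.Ok) (g : Gd σ R) (g' : Gd σ R') (e : ∀ p q, q ≠ σ.o → R p q = R' p q)
    (p q : ν) (c : q ≠ σ.o) : Wp M R p q = Wp M R' p q := by
  classical
  rw [Wp, Wp, Matrix.sum_apply, Matrix.sum_apply]
  refine sum_congr rfl fun k _ => ?_
  rw [Matrix.smul_apply, Matrix.smul_apply, pow_eq h g g' e k p q c]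

omit [Fintype α] in
theorem wp_bd {A y : ℝ} (A1 : 1 ≤ A)
    (b : ∀ p q, |R p q| * Fintype.card ν ≤ A * exp (-((σ.wt p - σ.wt q) * y))) (p q : ν) :
    |Wp M R p q| ≤ M * A ^ M * exp (-((σ.wt p - σ.wt q) * y)) := by
  classical
  rw [Wp, Matrix.sum_apply]
  refine (abs_sum_le_sum_abs _ _).trans ((sum_le_card_nsmul _ _
    (A ^ M * exp (-((σ.wt p - σ.wt q) * y))) fun k hk => ?_).trans_eq
      (by rw [card_range, nsmul_eq_mul, mul_assoc]))
  rw [Matrix.smul_apply, smul_eq_mul, abs_mul]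
  have a : |((-1) ^ k / (k + 2).factorial : ℝ)| ≤ 1 := by
    rw [abs_div, abs_pow, abs_neg, abs_one, one_pow, Nat.abs_cast]
    exact div_le_one_of_le₀ (Nat.one_le_cast.2 (Nat.factorial_pos _)) (Nat.cast_nonneg _)
  refine (mul_le_of_le_one_left (abs_nonneg _) a).trans ((pow_bd A1 b k p q).trans ?_)
  exact mul_le_mul_of_nonneg_right (pow_le_pow_right₀ A1 (mem_range.1 hk)) (exp_pos _).le

variable (σ) (X : Bd α ν) (k : ℝ) (M)

open Classical in
/-- The scale of a letter. -/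
noncomputable def sc (a : α) : ℝ := if a = σ.τ then k else 1

/-- The height coefficient has the wrong size. -/
def bad (b : α → ℝ) (j : ℕ) : Prop :=
  ¬(exp (-1 - lg * j) ≤ |b σ.τ / k| ∧ |b σ.τ / k| ≤ exp (1 - lg * j))

open Classical in
/-- The new coefficients. -/
noncomputable def nb (b : α → ℝ) (j : ℕ) (a : α) : ℝ :=
  if bad σ k b j then if a = σ.τ then exp (-(lg * j)) else 0 else b a / sc σ k a

/-- The rescaled data, with the old words. -/
noncomputable def x1 : Bd α ν :=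
  { X with
    ρ := fun ω a => sc σ k a • X.ρ ω a
    c := fun ω a a' a'' => X.c ω a a' a'' * (sc σ k a * sc σ k a') / sc σ k a''
    b := fun ω => nb σ k (X.b ω) (X.j ω) }

/-- The rescaled data. -/
noncomputable def x2 : Bd α ν := { x1 σ X k with W := fun ω => Wp M ((x1 σ X k).R ω) }

variable {σ X k M} {e δ : ℝ}

omit [Fintype α] [Fintype ν] in
theorem sc_bd (hk : exp (-e) ≤ |k| ∧ |k| ≤ exp e) (e0 : 0 ≤ e) (a : α) :
    sc σ k a ≠ 0 ∧ |sc σ k a| ≤ exp e ∧ |(sc σ k a)⁻¹| ≤ exp e := by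
  have p := (exp_pos (-e)).trans_le hk.1
  unfold sc
  split_ifs
  · refine ⟨abs_pos.1 p, hk.2, ?_⟩
    rw [abs_inv, inv_le_comm₀ p (exp_pos e), ← exp_neg]
    exact hk.1
  · simpa using e0

theorem R_off (s : ∀ a, sc σ k a ≠ 0) {ω : X.Ω} (g : ¬bad σ k (X.b ω) (X.j ω)) :
    (x2 σ M X k).R ω = X.R ω :=
  sum_congr rfl fun a _ => by
    show nb σ k (X.b ω) (X.j ω) a • sc σ k a • X.ρ ω a = _
    rw [nb, if_neg g, smul_smul, div_mul_cancel₀ _ (s a)]

theorem m3 {x y z A B C : ℝ} (a : |x| ≤ exp A) (b : |y| ≤ exp B) (h : z = x * y) (c : A + B ≤ C) :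
    |z| ≤ exp C := by
  rw [h, abs_mul]
  exact (mul_le_mul a b (abs_nonneg _) (exp_pos _).le).trans (by rw [← exp_add]; exact exp_le_exp.2 c)

omit [Fintype ν] in
theorem gd_R (h : σ.Ok) {Z : Bd α ν} {ω : Z.Ω} (g : ∀ a p q, Z.ρ ω a p q ≠ 0 →
    σ.wt p = σ.wt q + σ.et a ∧ (q ≠ σ.o → σ.w p = σ.w q)) : Gd σ (Z.R ω) := fun p q a => by
  rw [Bd.R, Matrix.sum_apply] at a
  obtain ⟨i, -, b⟩ := exists_ne_zero_of_sum_ne_zero a
  rw [Matrix.smul_apply, smul_eq_mul] at b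
  have := g i p q (right_ne_zero_of_mul b)
  exact ⟨by linarith [this.1, h.et0 i], this.2⟩

omit [Fintype α] [Fintype ν] in
theorem gr2 {ω : X.Ω} (g : ∀ a p q, X.ρ ω a p q ≠ 0 →
    σ.wt p = σ.wt q + σ.et a ∧ (q ≠ σ.o → σ.w p = σ.w q)) (a : α) (p q : ν)
    (b : (x1 σ X k).ρ ω a p q ≠ 0) : σ.wt p = σ.wt q + σ.et a ∧ (q ≠ σ.o → σ.w p = σ.w q) :=
  g a p q (right_ne_zero_of_mul (show sc σ k a * X.ρ ω a p q ≠ 0 from b))

theorem pt (h : σ.Ok) (e1 : 1 ≤ e) (eu : 3 * e ≤ X.u) (hk : exp (-e) ≤ |k| ∧ |k| ≤ exp e)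
    {ω : X.Ω} (a : PtA σ X e ω) (b : PtB σ X ω) :
    (x2 σ M X k).Pt σ ((4 + M * (5 + Fintype.card ν + Fintype.card α)) * e) ω := by
  have e0 : 0 ≤ e := by linarith
  have s := sc_bd (σ := σ) hk e0
  obtain ⟨c, hc⟩ : ∃ c : ℝ, c = 4 + Fintype.card ν + Fintype.card α := ⟨_, rfl⟩
  have c0 : 0 ≤ c := by rw [hc]; positivity
  have ce : (4 + M * (5 + Fintype.card ν + Fintype.card α)) * e = 4 * e + (M * e + M * (c * e)) := by
    rw [hc]; ring
  have p0 : 0 ≤ M * e + M * (c * e) := by positivity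
  have rb : ∀ i p q, |(x1 σ X k).ρ ω i p q| ≤ exp (2 * e) := fun i p q =>
    m3 (s i).2.1 (a.rb i p q) rfl (by linarith)
  have bb : ∀ i, |(x1 σ X k).b ω i| ≤ exp (2 * e - σ.et i * X.j ω) := fun i => by
    show |nb σ k (X.b ω) (X.j ω) i| ≤ _
    unfold nb
    split_ifs with g t
    · rw [abs_of_pos (exp_pos _), t, h.tau]
      exact exp_le_exp.2 (by linarith)
    · rw [abs_zero]; positivity
    · exact m3 (a.bb i) (s i).2.2 (div_eq_mul_inv _ _) (by linarith)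
  have ss : ∀ i i', |sc σ k i * sc σ k i'| ≤ exp (2 * e) := fun i i' =>
    m3 (s i).2.1 (s i').2.1 rfl (by linarith)
  rw [ce]
  refine ⟨a.zo, fun p => (a.zb p).trans (exp_le_exp.2 (by linarith)), a.zg,
    fun i p q => (rb i p q).trans (exp_le_exp.2 (by linarith)), fun i i' i'' => ?_,
    fun i => (bb i).trans (exp_le_exp.2 (by
      show _ ≤ _ - σ.et i * X.j ω
      linarith)), ?_, a.jl, gr2 a.gr, wp_gd h (gd_R h (gr2 a.gr)), fun p q => ?_,
    fun i i' p q => ?_, fun i i' => ?_, fun i p q t g g' => ?_⟩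
  · exact m3 (m3 (a.cb i i' i'') (ss i i') rfl le_rfl) (s i'').2.2 (div_eq_mul_inv _ _)
      (by linarith)
  · show exp (-1 - lg * X.j ω) ≤ |nb σ k (X.b ω) (X.j ω) σ.τ| ∧
      |nb σ k (X.b ω) (X.j ω) σ.τ| ≤ exp (1 - lg * X.j ω)
    unfold nb
    split_ifs with g t
    · rw [abs_of_pos (exp_pos _)]
      exact ⟨exp_le_exp.2 (by linarith), exp_le_exp.2 (by linarith)⟩
    · exact absurd rfl t
    · rw [sc, if_pos rfl]
      exact not_not.1 g
  · have n : ∀ m : ℕ, (m : ℝ) ≤ exp (m * e) := fun m => by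
      have := add_one_le_exp (m * e)
      nlinarith [Nat.cast_nonneg (α := ℝ) m]
    refine (wp_bd (σ := σ) (A := exp (c * e)) (y := X.j ω) (one_le_exp (by positivity))
      (fun p q => ?_) p q).trans ?_
    · have r : |(x1 σ X k).R ω p q| ≤
          Fintype.card α * exp (4 * e - (σ.wt p - σ.wt q) * X.j ω) := by
        unfold MP_4b405e_nt.FB.Bd.R
        rw [Matrix.sum_apply]
        refine (abs_sum_le_sum_abs _ _).trans ((sum_le_card_nsmul _ _ _ fun i _ => ?_).trans_eq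
          (by rw [card_univ, nsmul_eq_mul]))
        by_cases z : (x1 σ X k).ρ ω i p q = 0
        · rw [Matrix.smul_apply, z, smul_zero, abs_zero]; positivity
        · refine m3 (bb i) (rb i p q) rfl (le_of_eq ?_)
          rw [(gr2 a.gr i p q z).1]
          ring
      refine (mul_le_mul (r.trans (mul_le_mul_of_nonneg_right (n _) (exp_pos _).le)) (n _)
        (Nat.cast_nonneg _) (by positivity)).trans_eq ?_
      rw [← exp_add, ← exp_add, ← exp_add, hc]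
      congr 1
      ring
    · rw [← exp_nat_mul]
      refine (mul_le_mul_of_nonneg_right (mul_le_mul_of_nonneg_right (n M) (exp_pos _).le)
        (exp_pos _).le).trans ?_
      rw [← exp_add, ← exp_add]
      refine exp_le_exp.2 ?_
      show _ ≤ _ - (σ.wt p - σ.wt q) * X.j ω
      linarith
  · refine m3 (ss i i') (b.lie i i' p q) ?_ (by
      show _ ≤ -(2 * (X.u : ℝ))
      linarith)
    show ((sc σ k i • X.ρ ω i) * (sc σ k i' • X.ρ ω i') - (sc σ k i' • X.ρ ω i') *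
      (sc σ k i • X.ρ ω i)) p q - ∑ i'', X.c ω i i' i'' * (sc σ k i * sc σ k i') / sc σ k i'' *
        (sc σ k i'' * X.ρ ω i'' p q) = _
    rw [mul_sub, mul_sum, sum_congr rfl fun i'' _ => show X.c ω i i' i'' * (sc σ k i * sc σ k i') /
      sc σ k i'' * (sc σ k i'' * X.ρ ω i'' p q) = sc σ k i * sc σ k i' *
        (X.c ω i i' i'' * X.ρ ω i'' p q) by field_simp [(s i'').1]]
    simp only [Matrix.smul_mul, Matrix.mul_smul, Matrix.sub_apply, Matrix.smul_apply, smul_eq_mul]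
    ring
  · exact m3 (m3 (b.chi i i') (ss i i') rfl le_rfl) (s σ.τ).2.2 (div_eq_mul_inv _ _) (by
      show _ ≤ -(2 * (X.u : ℝ))
      linarith)
  · exact m3 (s i).2.1 (b.m0 i p q t g g') rfl (by
      show _ ≤ -(2 * (X.u : ℝ))
      linarith)

omit [Fintype α] [Fintype ν] in
theorem th_of {ω v : X.Ω} (h : X.θ σ ω = X.θ σ v) : (x1 σ X k).θ σ ω = (x1 σ X k).θ σ v :=
  congrArg (fun (t : α → ν → ℝ) a p => sc σ k a * t a p) h

omit [Fintype α] [Fintype ν] in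
theorem th_inj (s : ∀ a, sc σ k a ≠ 0) (ω v : X.Ω) :
    (x1 σ X k).θ σ ω = (x1 σ X k).θ σ v ↔ X.θ σ ω = X.θ σ v :=
  ⟨fun h => funext fun a => funext fun p => mul_left_cancel₀ (s a) (congrFun (congrFun h a) p),
    th_of⟩

omit [Fintype α] [Fintype ν] in
theorem pr {Λ : Type} {K : X.Ω → Λ} {Z : X.Ω → ν → ℝ} (h : X.Pr σ K Z e) :
    (x1 σ X k).Pr σ K Z e := by
  refine ⟨h.t, le_trans (mi_mono fun a _ b _ q => ?_) h.f1,
    le_trans ((mi_mono' fun a _ b _ q => ?_).trans (mi_mono fun a _ b _ q => ?_)) h.f2, h.hj⟩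
  · simp only [Prod.mk.injEq] at q
    exact Prod.ext (th_of q.1.1) q.1.2
  · simp only [Prod.mk.injEq] at q
    exact Prod.ext q.1.1 (Prod.ext (th_of q.1.2.1) q.1.2.2)
  · simp only [Prod.mk.injEq] at q
    exact congrArg₂ (nb σ k) q.1 q.2.2

theorem half {Ω : Type} {P : FP Ω} {E : Ω → Prop} (h : pb P E ≤ 1 / 2) {x y : ℝ} (x0 : 0 ≤ x)
    (k : pb P (fun ω => ¬E ω) * x ≤ y) : x ≤ 2 * y := by
  rw [pb_not] at k
  nlinarith

theorem ch_half {Ω β γ : Type} {P : FP Ω} {E : Ω → Prop} (h : pb P E ≤ 1 / 2) (F : Ω → β)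
    (G : Ω → γ) : ch (cE P fun ω => ¬E ω) F G ≤ 2 * ch P F G :=
  half h (ch_nonneg _ _) ((le_add_of_nonneg_right (mul_nonneg (sub_nonneg.2 (pb_le_one _ _))
    (ch_nonneg _ _))).trans (KEA.ge P _ F G))

theorem mi_half {Ω β γ ζ : Type} {P : FP Ω} {E : Ω → Prop} (h : pb P E ≤ 1 / 2) {F : Ω → β}
    {G : Ω → γ} {K : Ω → ζ} (e1 : 1 ≤ e) (k : mi P F G K ≤ e) :
    mi (cE P fun ω => ¬E ω) F G K ≤ 4 * e := by
  linarith [half h (mi_nonneg _ _ _) (Free.mi_res P _ F G K), lg_lt_one]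

theorem rl (s : ∀ a, sc σ k a ≠ 0) (e1 : 1 ≤ e) (hW : ∀ ω, X.W ω = Wp M (X.R ω))
    (hb : pb X.P (fun ω => bad σ k (X.b ω) (X.j ω)) ≤ 1 / 2) {Λ : Type} {K' : X.Ω → Λ}
    {Z' c₀ : X.Ω → ν → ℝ} (h : X.Rl σ K' Z' c₀ e) :
    ((x2 σ M X k).res fun ω => ¬bad σ k (X.b ω) (X.j ω)).Rl σ K' Z' c₀ (4 * e) := by
  have ne : ∃ ω ∈ X.P.S, ¬bad σ k (X.b ω) (X.j ω) := ex_of_pb (by rw [pb_not]; linarith)
  have t : Fn (cE X.P fun ω => ¬bad σ k (X.b ω) (X.j ω)) X.T (x1 σ X k).T := fun a ha b hb q => by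
    have a1 := ((mem_cE ne a).1 ha).2
    have b1 := ((mem_cE ne b).1 hb).2
    have q1 : X.v a = X.v b := congrArg Prod.fst q
    have q2 : nb σ k (X.b a) (X.j a) = nb σ k (X.b b) (X.j b) := congrArg (fun x => x.2.1) q
    have q3 : X.j a = X.j b := congrArg (fun x => x.2.2) q
    refine Prod.ext q1 (Prod.ext (funext fun i => ?_) q3)
    have := congrFun q2 i
    rw [nb, nb, if_neg a1, if_neg b1] at this
    exact (div_left_inj' (s i)).1 this
  have p := pr (k := k) h.pr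
  refine ⟨(fn_cE h.fc _).trans ((Fn.fst _ _).pair ((((Fn.fst _ _).trans (Fn.snd _ _))).pair
      (t.trans ((Fn.snd _ _).trans (Fn.snd _ _))))), fun ω hω q hq => ?_, ?_, ?_,
    fun r => mi_half hb e1 (p.t r), mi_half hb e1 p.f1, mi_half hb e1 p.f2, ?_⟩
  · have r := R_off (M := M) s ((mem_cE ne ω).1 hω).2
    have n : (x2 σ M X k).N ω = X.N ω := by
      show ((x2 σ M X k).R ω * Wp M ((x2 σ M X k).R ω) - (x2 σ M X k).R ω) *ᵥ X.Z ω = _
      rw [r, ← hW ω]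
      rfl
    show |Z' ω q - (X.Z ω + (x2 σ M X k).N ω) q - c₀ ω q| ≤ exp (4 * e) / 2 ^ X.u
    rw [n]
    exact (h.cl ω (cE_sub hω) q hq).trans
      (div_le_div_of_nonneg_right (exp_le_exp.2 (by linarith)) (by positivity))
  · exact (ch_anti ((Fn.fst _ _).pair (t.trans (Fn.snd _ _)))).trans
      ((ch_half hb K' fun ω => (X.K ω, X.T ω)).trans (by linarith [h.kk]))
  · exact (ch_anti ((Fn.fst _ _).pair (t.trans (Fn.snd _ _)))).trans
      ((ch_half hb X.K fun ω => (K' ω, X.T ω)).trans (by linarith [h.kk']))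
  · have := ch_half hb X.j fun _ => ()
    rw [ch_unit, ch_unit] at this
    exact this.trans (by linarith [h.pr.hj])

theorem ok (α ν : Type) [Fintype α] [Fintype ν] (M : ℕ) : ∃ c : ℝ, 1 ≤ c ∧ ∀ (σ : Bc α ν)
    (X : Bd α ν) (k e δ : ℝ), σ.Ok → 1 ≤ e → 3 * e ≤ X.u → δ ≤ 1 / 2 → δ * X.u ≤ e →
    Ok1 σ X k M e δ → (x2 σ M X k).Ok σ (c * e) := by
  obtain ⟨c, c1, H⟩ := MP_4b405e_nt.FB.ok_of α ν
  obtain ⟨d, hd⟩ : ∃ d : ℝ, d = 4 + M * (5 + Fintype.card ν + Fintype.card α) := ⟨_, rfl⟩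
  have d4 : 4 ≤ d := by rw [hd]; exact le_add_of_nonneg_right (by positivity)
  refine ⟨c * d, by nlinarith, fun σ X k e δ h e1 eu d1 d2 o => ?_⟩
  have s := fun a => (sc_bd (σ := σ) o.lev.hk (by linarith) a).1
  obtain ⟨K', Z', c₀, r⟩ := o.rl
  have ed : 4 * e ≤ d * e := by nlinarith
  have mo : ∀ {Y : Bd α ν} {Λ : Type} {K : Y.Ω → Λ} {Z : Y.Ω → ν → ℝ} {x y : ℝ}, x ≤ y →
      Y.Pr σ K Z x → Y.Pr σ K Z y := fun a p =>
    ⟨fun r => (p.t r).trans a, p.f1.trans a, p.f2.trans a, p.hj.trans a⟩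
  have r' := rl s e1 o.hW (o.lev.bt.trans d1) r
  have p := pr (k := k) o.pr
  have fρ : ∀ a p q, q ≠ σ.o → Fn X.P (fun ω => (x1 σ X k).ρ ω a p q) fun ω => (X.K ω, X.v ω) :=
    fun a p q z ω hω v hv t => congrArg (sc σ k a * ·) (o.lev.fρ a p q z ω hω v hv t)
  have fR : ∀ ω ∈ X.P.S, ∀ v ∈ X.P.S, X.K ω = X.K v → (x1 σ X k).T ω = (x1 σ X k).T v →
      ∀ p q, (q = σ.o → (x1 σ X k).θ σ ω = (x1 σ X k).θ σ v) →
        (x1 σ X k).R ω p q = (x1 σ X k).R v p q := fun ω hω v hv t t' p q z => by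
    have q2 : (x1 σ X k).b ω = (x1 σ X k).b v := congrArg (fun x => x.2.1) t'
    unfold MP_4b405e_nt.FB.Bd.R
    rw [Matrix.sum_apply, Matrix.sum_apply, q2]
    refine sum_congr rfl fun a _ => congrArg ((x1 σ X k).b v a * ·)
      (show (x1 σ X k).ρ ω a p q = (x1 σ X k).ρ v a p q from ?_)
    by_cases y : q = σ.o
    · rw [y]; exact congrFun (congrFun (z y) a) p
    · exact fρ a p q y ω hω v hv (Prod.ext t (congrArg Prod.fst t'))
  rw [mul_assoc]
  refine H σ (x2 σ M X k) _ K' Z' c₀ (fun ω => bad σ k (X.b ω) (X.j ω)) (d * e) h (by linarith)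
    (fun ω hω => hd ▸ pt h e1 eu o.lev.hk (o.pa ω hω) (o.pb ω hω)) fρ
    (fun ω hω v hv t => ?_) (fun p q z ω hω v hv t => ?_) (fun ω hω v hv t => ?_)
    (fun A j hj => o.lev.lv (fun y => A (y.1, y.2.1, y.2.2.1, fun a p => sc σ k a * y.2.2.2 a p))
      j hj) (mo (by linarith) ⟨p.t, p.f1, p.f2, p.hj⟩)
    ((mul_le_mul_of_nonneg_right o.lev.bt (Nat.cast_nonneg _)).trans (d2.trans (by linarith)))
    ⟨r'.fc, fun ω hω q hq => (r'.cl ω hω q hq).trans (div_le_div_of_nonneg_right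
      (exp_le_exp.2 ed) (by positivity)), r'.kk.trans ed, r'.kk'.trans ed, mo ed r'.pr⟩
  · show (fun a a' a'' => X.c ω a a' a'' * _ / _) = fun a a' a'' => X.c v a a' a'' * _ / _
    rw [o.lev.fc ω hω v hv t]
  · exact wp_eq h (gd_R h (gr2 (o.pa ω hω).gr)) (gd_R h (gr2 (o.pa v hv).gr)) (fun p q z =>
      fR ω hω v hv (congrArg Prod.fst t) (congrArg Prod.snd t) p q fun y => absurd y z) p q z
  · exact congrArg (Wp M) (Matrix.ext fun p q => fR ω hω v hv (congrArg Prod.fst t)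
      (congrArg (fun x => x.2.1) t) p q fun _ => congrArg (fun x => x.2.2) t)

theorem nd (hk : exp (-e) ≤ |k| ∧ |k| ≤ exp e) (e0 : 0 ≤ e) {r x : ℝ} (eu : e ≤ r / 2 * X.u)
    (h : X.Nd σ (r / 2) δ x) : (x2 σ M X k).Nd σ r δ x := by
  classical
  have s := sc_bd (σ := σ) hk e0
  intro T T' h1 h2
  refine le_trans (pb_mono fun ω _ ⟨ξ, a, l, b, c, d⟩ => ⟨ξ, a, _, mem_image_of_mem _ b, c,
    fun i => ?_⟩) (h T (fun y ξ v => (T' y ξ v).image fun l i => l i / sc σ k i) h1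
      fun y ξ v => (Nat.cast_le.2 card_image_le).trans (h2 y ξ v))
  have z : ∀ q, (ξ ᵥ* (x2 σ M X k).ρ ω i) q = sc σ k i * (ξ ᵥ* X.ρ ω i) q := fun q => by
    show (ξ ᵥ* (sc σ k i • X.ρ ω i)) q = _
    rw [vecMul_smul]
    rfl
  have u : -(r * ((x2 σ M X k).u : ℝ)) + e ≤ -(r / 2 * X.u) := by
    show -(r * (X.u : ℝ)) + e ≤ _
    linarith
  refine ⟨fun q hq => m3 ((d i).1 q hq) (s i).2.2 ?_ u, m3 (d i).2 (s i).2.2 ?_ u⟩ <;>
    rw [z] <;> field_simp [(s i).1]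

theorem ac (hk : exp (-e) ≤ |k| ∧ |k| ≤ exp e) (e0 : 0 ≤ e) {r : ℝ} (eu : 3 * e ≤ r / 2 * X.u)
    (d0 : 0 < δ) (hb : pb X.P (fun ω => bad σ k (X.b ω) (X.j ω)) ≤ δ ^ 2 / 4)
    (h : X.Ac σ (r / 2) (δ / 2)) : (x2 σ M X k).Ac σ r δ := by
  classical
  have s := sc_bd (σ := σ) hk e0
  have mk : pb X.P (fun ω => δ / 2 ≤ pb (cv X.P (fun v => (X.Y σ v, X.j v)) (X.Y σ ω, X.j ω))
      fun v => bad σ k (X.b v) (X.j v)) ≤ δ / 2 := by
    refine le_of_mul_le_mul_left (le_trans ?_ (hb.trans_eq (by ring))) (half_pos d0)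
    rw [show pb X.P (fun ω => bad σ k (X.b ω) (X.j ω)) = _ from
      KEA.exp X.P (fun v => (X.Y σ v, X.j v)) fun _ ω =>
        @ite ℝ (bad σ k (X.b ω) (X.j ω)) (Classical.propDecidable _) 1 0, pb, ← FP.E_mul]
    refine X.P.E_mono fun ω _ => ?_
    split_ifs with b
    · rw [mul_one]; exact b
    · rw [mul_zero]; exact pb_nonneg _ _
  refine le_trans (pb_mono fun ω _ ⟨χ, c, t⟩ => ?_)
    ((pb_or _ _ _).trans ((add_le_add h mk).trans_eq (add_halves δ)))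
  have cv1 : cv (x2 σ M X k).P (fun v => ((x2 σ M X k).Y σ v, (x2 σ M X k).j v))
      ((x2 σ M X k).Y σ ω, (x2 σ M X k).j ω) =
      cv X.P (fun v => (X.Y σ v, X.j v)) (X.Y σ ω, X.j ω) := by
    refine congrArg (cE X.P) (funext fun v => propext ?_)
    show ((X.K v, X.v v, X.Z v, (x1 σ X k).θ σ v), X.j v) =
      ((X.K ω, X.v ω, X.Z ω, (x1 σ X k).θ σ ω), X.j ω) ↔
      ((X.K v, X.v v, X.Z v, X.θ σ v), X.j v) = ((X.K ω, X.v ω, X.Z ω, X.θ σ ω), X.j ω)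
    simp only [Prod.mk.injEq]
    exact and_congr_left' (and_congr_right' (and_congr_right' (and_congr_right'
      (th_inj (X := X) (fun a => (s a).1) v ω))))
  rw [cv1] at t
  obtain ⟨n, hn⟩ : ∃ n, n = ∑ a, |χ a / sc σ k a| := ⟨_, rfl⟩
  have n1 : 1 ≤ n * exp e := by
    rw [← c.1, hn, sum_mul]
    refine sum_le_sum fun a _ => ?_
    rw [← div_mul_cancel₀ (χ a) (s a).1, abs_mul, mul_div_cancel_right₀ _ (s a).1]
    exact mul_le_mul_of_nonneg_left (s a).2.1 (abs_nonneg _)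
  have n0 : 0 < n := (mul_pos_iff_of_pos_right (exp_pos e)).1 (zero_lt_one.trans_le n1)
  have n2 : |n⁻¹| ≤ exp e := by
    rw [abs_of_pos (inv_pos.2 n0), inv_le_iff_one_le_mul₀' n0]
    exact n1
  refine (em _).symm.imp_left fun nb' => ⟨fun a => χ a / sc σ k a / n, ⟨?_, fun a a' => ?_⟩, ?_⟩
  · rw [sum_congr rfl fun a _ => by rw [abs_div _ n, abs_of_pos n0], ← sum_div, ← hn,
      div_self n0.ne']
  · refine m3 (m3 (m3 (c.2 a a') n2 rfl le_rfl) (s a).2.2 rfl le_rfl) (s a').2.2 ?_ (by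
      show -(2 * r * (X.u : ℝ)) + e + e + e ≤ _
      linarith)
    rw [sum_mul, sum_mul, sum_mul]
    refine sum_congr rfl fun a'' _ => ?_
    show _ = X.c ω a a' a'' * (sc σ k a * sc σ k a') / sc σ k a'' * χ a'' * _ * _ * _
    field_simp [(s a).1, (s a').1]
  · refine lt_of_add_lt_add_right (((add_halves δ).trans_lt t).trans_le ((pb_mono
      fun v _ y => (em _).symm.imp_left fun g => ?_).trans ((pb_or _ _ _).trans
        (add_le_add le_rfl (not_le.1 nb').le))))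
    refine m3 y n2 ?_ (by
      show -(r * (X.u : ℝ)) + e ≤ _
      linarith)
    rw [sum_mul]
    refine sum_congr rfl fun a _ => ?_
    show _ = χ a * (exp (σ.et a * X.j v) * nb σ k (X.b v) (X.j v) a) * _
    rw [nb, if_neg g]
    ring

end Nrm

open Nrm in
theorem rowS : RowS := by
  intro α ν _ _ σ X k M h
  have bu := tendsto_natCast_atTop_atTop (R := ℝ).comp h.big
  obtain ⟨c, c1, H⟩ := Nrm.ok α ν M
  refine ⟨fun n => x2 σ M (X n) (k n), ⟨h.ok, h.big, fun ε e0 => ?_, fun r δ r0 d0 => ?_,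
    fun r δ r0 d0 => ?_⟩, fun ⟨Y, c, θ, c0, t0, l⟩ => ⟨fun n => ⟨(Y n).Ω, (Y n).β, (Y n).τ, (Y n).P,
      (Y n).N, (Y n).π, (Y n).K, (Y n).Z, (Y n).h, (Y n).T, (Y n).G, (Y n).b⟩, c, θ, c0, t0,
      fun ε e0 => (l ε e0).mono fun n a => ⟨a.n0, a.law, a.fK, a.fZ, a.zb, a.hu, a.hn, a.hy, a.he,
        a.hc, a.hb, a.gap⟩⟩⟩
  · obtain ⟨x, x0, x1, x2⟩ : ∃ x : ℝ, 0 < x ∧ x ≤ 1 / 3 ∧ c * x ≤ ε :=
      ⟨min (1 / 3) (ε / c), by positivity, min_le_left _ _,
        (le_div_iff₀' (by linarith)).1 (min_le_right _ _)⟩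
    filter_upwards [h.ev x x0, bu.eventually_ge_atTop (1 / x)] with n a b
    have u0 : (0 : ℝ) ≤ (X n).u := Nat.cast_nonneg _
    have o := H σ (X n) (k n) (x * (X n).u) x h.ok ((div_le_iff₀' x0).1 b)
      (by nlinarith [mul_le_mul_of_nonneg_right x1 u0]) (x1.trans (by norm_num)) le_rfl a
    have m : c * (x * (X n).u) ≤ ε * (X n).u := by nlinarith
    exact ⟨fun ω hω => (o.pt ω hω).mono m, o.fρ, o.fc, o.fW, o.fW', o.lv,
      fun r => (o.b1 r).trans m, fun r => (o.b2 r).trans m, o.b3.trans m⟩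
  · filter_upwards [h.ev (min (r / 6) (δ ^ 2 / 4)) (by positivity),
      h.ac (r / 2) (δ / 2) (half_pos r0) (half_pos d0)] with n a b
    exact ac a.lev.hk (by positivity) (by
      nlinarith [min_le_left (r / 6) (δ ^ 2 / 4), Nat.cast_nonneg (α := ℝ) (X n).u]) d0
      (a.lev.bt.trans (min_le_right _ _)) b
  · obtain ⟨x, x0, b⟩ := h.nd (r / 2) δ (half_pos r0) d0
    refine ⟨x, x0, ?_⟩
    filter_upwards [h.ev (r / 2) (half_pos r0), b] with n a b
    exact nd a.lev.hk (by positivity) le_rfl b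

end Pool.Agent.MP_5168f5_an.QA.SC
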