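import Pool.Agent.MP_4b405e_nt.SK.CGeo

/-! The increment of a relative in the basis of the class: main part, source and remainder. -/

namespace Pool.Agent.MP_5168f5_an.AN.GA.CR

open H19 H17S H17F H61Z Real GABoxA Matrix

variable {κ κ' α : Type} [Fintype κ] [DecidableEq κ] [Fintype κ'] [Fintype α]

/-- The data at one pair: weights, the embeddings of the block coordinates and of the letters, the
frames `φ` of the point and `φ₁` of the representative, the increment `τ`, scales and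
coefficients. -/
structure Rd (κ κ' α : Type) : Type where
  mu : κ → ℝ
  wt : κ → ℝ
  vt : κ → ℝ
  e : κ' → κ
  al : α → κ
  c : κ → κ → κ → ℝ
  φ : Matrix κ κ ℝ
  φ₁ : Matrix κ κ ℝ
  τ : κ → ℝ
  sc : α → ℝ
  b : α → ℝ
  ff : κ' → ℝ
  s : κ → ℝ
  r' : κ → ℝ
  ρ : α → Matrix (Option κ') (Option κ') ℝ
  l : ℝ
  d : ℝ
  D : ℝ
  n : ℕ

namespace Rd

variable (Y : Rd κ κ' α)

/-- The coefficient of a letter. -/
noncomputable def β (a : α) : ℝ := exp (-(Y.mu (Y.al a) * Y.l)) * (Y.sc a * Y.b a)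

/-- The main part. -/
noncomputable def t : κ → ℝ := fun f => ∑ a, Y.β a * Y.φ₁ (Y.al a) f

/-- The source. -/
noncomputable def w : κ → ℝ := fun f => ∑ a, Y.β a * (Y.φ (Y.al a) f - Y.φ₁ (Y.al a) f)

/-- The remainder. -/
noncomputable def δ : κ → ℝ := Y.τ ᵥ* Y.φ - Y.t - Y.w

/-- The action of the relative. -/
noncomputable def M : Matrix (Option κ') (Option κ') ℝ := ∑ a, Y.b a • Y.ρ a

omit [DecidableEq κ] [Fintype κ'] in
theorem sum : Y.t + Y.w + Y.δ = Y.τ ᵥ* Y.φ := by rw [δ]; abel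

/-- The shape of a frame. -/
structure Fm (φ : Matrix κ κ ℝ) (U : ℝ) : Prop where
  bd : ∀ a f, |exp (-(Y.vt a * Y.D)) * φ a f| ≤ exp U
  gr : ∀ a f, φ a f ≠ 0 → Y.mu a = Y.mu f
  id : ∀ a f, (¬∃ p, Y.e p = f) → φ a f = (1 : Matrix κ κ ℝ) a f

open Classical in
/-- The hypotheses, with loss `U` and range `X`. -/
structure Ok (U X : ℝ) : Prop where
  u0 : 0 ≤ U
  x0 : 0 ≤ X
  d0 : 0 ≤ Y.d
  w0 : ∀ a, 0 ≤ Y.wt a
  ia : Y.al.Injective
  m1 : ∀ p, 0 < Y.mu (Y.e p)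
  m2 : ∀ a, 0 < Y.mu (Y.al a)
  tri : ∀ a, (∃ p, Y.e p = a) ∨ (Y.vt a = 0 ∧ (Y.mu a = 0 ∨ ∃ a', Y.al a' = a))
  va : ∀ a, Y.vt (Y.al a) = 0
  f0 : Y.Fm Y.φ U
  f1 : Y.Fm Y.φ₁ U
  t1 : ∀ a, |Y.τ a| ≤ exp (U - Y.mu a * Y.l)
  t2 : ∀ p, |Y.τ (Y.e p)| ≤ exp (-X - Y.vt (Y.e p) * Y.D - Y.mu (Y.e p) * Y.l)
  tb : ∀ a, |Y.τ (Y.al a) - Y.β a| ≤ exp (U - X - Y.mu (Y.al a) * Y.l)
  bb : ∀ a, |Y.b a| ≤ exp U
  th : ∀ a p, |exp (Y.wt (Y.e p) * Y.d) * (Y.φ (Y.al a) (Y.e p) - Y.φ₁ (Y.al a) (Y.e p))| ≤ exp U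
  ff : ∀ p, 1 ≤ Y.ff p ∧ Y.ff p ≤ 2
  s0 : ∀ a, 0 < Y.s a
  ss : ∀ p, Y.s (Y.e p) = exp (-(Y.mu (Y.e p) * Y.l + Y.wt (Y.e p) * Y.d)) * Y.ff p
  r0 : ∀ a, Y.mu a = 0 → 1 ≤ Y.r' a
  r1 : ∀ a, exp (-(Y.mu a * Y.l + X)) ≤ Y.r' a
  ob : ∀ a b f, |Y.c a b f| ≤ exp U
  nh : ∀ a p q, Y.mu (Y.e p) ≠ Y.mu a + Y.mu (Y.e q) →
    |Y.c a (Y.e q) (Y.e p)| * exp ((Y.mu (Y.e p) - Y.mu a - Y.mu (Y.e q)) * Y.l) ≤ exp (U - X)
  v1 : ∀ a p q, Y.wt (Y.e q) < Y.wt (Y.e p) → |Y.c a (Y.e q) (Y.e p)| ≤ exp (U - X)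
  xn : ∀ p, Y.wt (Y.e p) * Y.d + Y.n * H17S.lg ≤ X
  gap : ∀ p q, Y.wt (Y.e p) < Y.wt (Y.e q) → Y.n * H17S.lg ≤ (Y.wt (Y.e q) - Y.wt (Y.e p)) * Y.d
  sc : ∀ a, |Y.sc a| ≤ exp U
  ρo : ∀ a q, Y.ρ a none q = 0
  ρb : ∀ a p q, |Y.ρ a (some p) (some q)| ≤ exp U
  ρ1 : ∀ a p q, Y.ρ a (some p) (some q) = Y.sc a * (if Y.mu (Y.e p) = Y.mu (Y.e q) + Y.mu (Y.al a) ∧
    Y.wt (Y.e p) = Y.wt (Y.e q) then br Y.c (Y.φ₁ (Y.al a)) (Pi.single (Y.e q) 1) (Y.e p) else 0) *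
      Y.ff q / Y.ff p
  ρ2 : ∀ a p, |Y.ρ a (some p) none + if Y.mu (Y.e p) = Y.mu (Y.al a) then Y.sc a *
    (exp (Y.wt (Y.e p) * Y.d) * (Y.φ (Y.al a) (Y.e p) - Y.φ₁ (Y.al a) (Y.e p))) / Y.ff p else 0| ≤
      1 / 2 ^ Y.n

variable {Y} {U X : ℝ} {k : ℕ}

omit [DecidableEq κ] [Fintype κ] [Fintype κ'] [Fintype α] in
theorem mul_ex {x y a b : ℝ} (h : |x| ≤ exp a) (h' : |y| ≤ exp b) : |x * y| ≤ exp (a + b) := by
  rw [abs_mul, exp_add]; exact mul_le_mul h h' (abs_nonneg _) (exp_pos a).le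

omit [Fintype κ] [Fintype κ'] [Fintype α] in
theorem Fm.bd' {φ : Matrix κ κ ℝ} (h : Y.Fm φ U) (a f : κ) : |φ a f| ≤ exp (U + Y.vt a * Y.D) := by
  have := mul_ex (h.bd a f) (le_of_eq (abs_of_pos (exp_pos (Y.vt a * Y.D))))
  rwa [mul_right_comm, ← exp_add, neg_add_cancel, exp_zero, one_mul] at this

namespace Ok

variable (h : Y.Ok U X) (hk : Fintype.card κ ≤ k)
include h

omit [Fintype κ'] [Fintype α] in
theorem βb (a : α) : |Y.β a| ≤ exp (U - Y.mu (Y.al a) * Y.l + 1) := by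
  have a1 := abs_le.1 (h.t1 (Y.al a))
  have a2 := abs_le.1 ((h.tb a).trans (exp_le_exp.2
    (show _ ≤ U - Y.mu (Y.al a) * Y.l by linarith [h.x0])))
  have := two_exp (U - Y.mu (Y.al a) * Y.l)
  rw [abs_le]
  constructor <;> linarith [a1.1, a1.2, a2.1, a2.2]

include hk

omit [Fintype κ'] in
theorem ka : Fintype.card α ≤ k := (Fintype.card_le_of_injective _ h.ia).trans hk

omit [Fintype κ'] in
theorem t_bx : Bx (fun a => exp (-(Y.mu a * Y.l))) (exp (2 * U + k + 1)) Y.t := fun f => by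
  refine (sum_le (h.ka hk) (X := exp (2 * U + 1 - Y.mu f * Y.l)) (exp_pos _).le fun a => ?_).trans
    (le_of_eq (by rw [← exp_add, ← exp_add]; congr 1; ring))
  by_cases z : Y.φ₁ (Y.al a) f = 0
  · rw [z, mul_zero, abs_zero]; exact (exp_pos _).le
  · refine (mul_ex (h.βb a) (h.f1.bd' _ f)).trans_eq ?_
    rw [h.va, h.f1.gr _ _ z]; congr 1; ring

omit [Fintype κ'] in
theorem w_bx : Bx Y.s (exp (2 * U + k + 1)) Y.w := fun f => by
  have s0 := h.s0 f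
  refine (sum_le (h.ka hk) (X := exp (2 * U + 1) * Y.s f) (by positivity) fun a => ?_).trans
    (le_of_eq (by rw [← mul_assoc, ← exp_add]; congr 2; ring))
  by_cases z : Y.φ (Y.al a) f - Y.φ₁ (Y.al a) f = 0
  · rw [z, mul_zero, abs_zero]; positivity
  by_cases o : ∃ p, Y.e p = f
  · obtain ⟨p, rfl⟩ := o
    have m : Y.mu (Y.al a) = Y.mu (Y.e p) := by
      by_contra q
      exact z (by rw [of_not_not (mt (h.f0.gr _ _) q), of_not_not (mt (h.f1.gr _ _) q), sub_self])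
    have := mul_ex (mul_ex (h.βb a) (h.th a p))
      (le_of_eq (abs_of_pos (exp_pos (-(Y.wt (Y.e p) * Y.d)))))
    rw [mul_left_comm, mul_right_comm, ← exp_add, add_neg_cancel, exp_zero, one_mul, m] at this
    rw [h.ss, ← mul_assoc, ← exp_add]
    exact this.trans ((le_of_eq (by congr 1; ring)).trans
      (le_mul_of_one_le_right (exp_pos _).le (h.ff p).1))
  · exact absurd (by rw [h.f0.id _ _ o, h.f1.id _ _ o, sub_self]) z

omit [Fintype κ'] in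
theorem δ_bx : Bx Y.r' (exp (2 * U + k)) Y.δ := fun f => by
  have r0 := (exp_pos _).le.trans (h.r1 f)
  have e : Y.δ f = ∑ a, (Y.τ a - Function.extend Y.al Y.β 0 a) * Y.φ a f := by
    simp only [sub_mul, Finset.sum_sub_distrib]
    rw [← Fintype.sum_of_injective Y.al h.ia (fun a => Y.β a * Y.φ (Y.al a) f)
      (fun a => Function.extend Y.al Y.β 0 a * Y.φ a f) (fun a o => by rw [Function.extend_apply' _ _ _ o]; simp) fun a => by rw [h.ia.extend_apply]]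
    simp only [δ, t, w, Pi.sub_apply, vecMul, dotProduct, mul_sub, Finset.sum_sub_distrib]
    ring
  rw [e]
  refine (sum_le hk (X := exp (2 * U) * Y.r' f) (by positivity) fun a => ?_).trans
    (le_of_eq (by rw [← mul_assoc, ← exp_add, add_comm]))
  by_cases z : Y.φ a f = 0
  · rw [z, mul_zero, abs_zero]; positivity
  have m := h.f0.gr _ _ z
  have fin : ∀ v, v ≤ 2 * U - (Y.mu f * Y.l + X) → exp v ≤ exp (2 * U) * Y.r' f := fun v hv =>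
    (exp_le_exp.2 hv).trans (by
      rw [sub_eq_add_neg, exp_add]; exact mul_le_mul_of_nonneg_left (h.r1 f) (exp_pos _).le)
  by_cases o : ∃ a', Y.al a' = a
  · obtain ⟨a', rfl⟩ := o
    rw [h.ia.extend_apply]
    refine (mul_ex (h.tb a') (h.f0.bd' _ f)).trans (fin _ ?_)
    rw [h.va, m]; linarith
  rw [Function.extend_apply' _ _ _ o, Pi.zero_apply, sub_zero]
  rcases h.tri a with ⟨p, rfl⟩ | ⟨v, q | q⟩
  · refine (mul_ex (h.t2 p) (h.f0.bd' _ f)).trans (fin _ ?_)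
    rw [m]; linarith [h.u0]
  · refine (mul_ex (h.t1 a) (h.f0.bd' _ f)).trans ?_
    rw [v, q]
    exact (le_of_eq (by congr 1; ring)).trans
      (le_mul_of_one_le_right (exp_pos _).le (h.r0 f (m ▸ q)))
  · exact absurd q o

omit hk [Fintype κ'] in
theorem M_o (q : Option κ') : Y.M none q = 0 := by
  simp [M, Matrix.sum_apply, h.ρo]

omit [Fintype κ'] in
theorem M_b (p q : κ') : |Y.M (some p) (some q)| ≤ exp (2 * U + k) := by
  rw [M, Matrix.sum_apply]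
  exact (sum_le (h.ka hk) (exp_pos (U + U)).le fun a => mul_ex (h.bb a) (h.ρb a p q)).trans_eq
    (by rw [← exp_add]; congr 1; ring)

omit [Fintype κ'] in
theorem M_θ (p : κ') : |Y.w (Y.e p) / Y.s (Y.e p) + Y.M (some p) none| ≤ exp (U + k) / 2 ^ Y.n := by
  rw [M, Matrix.sum_apply, w, Finset.sum_div, ← Finset.sum_add_distrib]
  refine (sum_le (h.ka hk) (X := exp U * (1 / 2 ^ Y.n)) (by positivity) fun a => ?_).trans_eq
    (by rw [exp_add]; ring)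
  refine le_trans (le_of_eq ?_) (mul_le_mul (h.bb a) (h.ρ2 a p) (abs_nonneg _) (exp_pos U).le)
  rw [← abs_mul, Matrix.smul_apply, smul_eq_mul, mul_add, add_comm]
  congr 2
  split_ifs with m
  · have := (h.ff p).1
    rw [β, h.ss, ← m, neg_add, exp_add, exp_neg (Y.wt _ * _)]
    field_simp
  · rw [of_not_not (mt (h.f0.gr _ _) (Ne.symm m)), of_not_not (mt (h.f1.gr _ _) (Ne.symm m))]
    simp

omit [Fintype κ'] in
theorem M_d (p q : κ') : |(∑ a, Y.t a * Y.c a (Y.e q) (Y.e p)) * Y.s (Y.e q) / Y.s (Y.e p) -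
    Y.M (some p) (some q)| ≤ exp (4 * U + 2 * k + 1) / 2 ^ Y.n := by
  have f1 := h.ff p
  have f2 := h.ff q
  have bs : ∀ x : κ → ℝ, br Y.c x (Pi.single (Y.e q) 1) (Y.e p) =
      ∑ a, x a * Y.c a (Y.e q) (Y.e p) := fun x => by
    simp [br, Pi.single_apply, mul_comm]
  have e : (∑ a, Y.t a * Y.c a (Y.e q) (Y.e p)) =
      ∑ a, Y.β a * ∑ f, Y.φ₁ (Y.al a) f * Y.c f (Y.e q) (Y.e p) := by
    simp only [t, Finset.sum_mul, Finset.mul_sum, mul_assoc]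
    exact Finset.sum_comm
  have n2 : exp (-(Y.n * H17S.lg)) = 1 / 2 ^ Y.n := by
    rw [exp_neg, H17S.lg, exp_nat_mul, exp_log two_pos, one_div]
  rw [e, M, Matrix.sum_apply, Finset.sum_mul, Finset.sum_div, ← Finset.sum_sub_distrib]
  refine (sum_le (h.ka hk) (X := exp (4 * U + k + 1) * (1 / 2 ^ Y.n)) (by positivity)
    fun a => ?_).trans_eq (by rw [← mul_assoc, ← exp_add, mul_one_div]; congr 2; ring)
  have sr : exp (-(Y.mu (Y.al a) * Y.l)) * Y.s (Y.e q) / Y.s (Y.e p) =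
      exp ((Y.mu (Y.e p) - Y.mu (Y.al a) - Y.mu (Y.e q)) * Y.l) *
        exp ((Y.wt (Y.e p) - Y.wt (Y.e q)) * Y.d) * (Y.ff q / Y.ff p) := by
    rw [h.ss, h.ss, ← mul_assoc, mul_div_mul_comm, ← exp_add, ← exp_sub, ← exp_add]
    congr 2; ring
  rw [Matrix.smul_apply, smul_eq_mul, h.ρ1, bs, β, show ∀ x y z w v : ℝ,
    x * y * z * w / v = y * z * (x * w / v) from fun _ _ _ _ _ => by ring, sr]
  split_ifs with m
  · rw [m.1, m.2, show Y.mu (Y.e q) + Y.mu (Y.al a) - Y.mu (Y.al a) - Y.mu (Y.e q) = 0 by ring,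
      sub_self, zero_mul, zero_mul, exp_zero]
    refine le_of_eq_of_le (abs_eq_zero.2 (by ring)) (by positivity)
  rw [mul_zero, zero_mul, zero_div, mul_zero, sub_zero, mul_assoc, Finset.sum_mul, abs_mul]
  have g : |Y.ff q / Y.ff p| ≤ exp 1 := by
    rw [abs_of_nonneg (div_nonneg (by linarith) (by linarith))]
    exact (div_le_self (by linarith) f1.1).trans (by linarith [add_one_le_exp (1 : ℝ)])
  refine (mul_le_mul (mul_ex (h.sc a) (h.bb a)) (sum_le hk (X := exp (2 * U + 1) * (1 / 2 ^ Y.n))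
    (by positivity) fun f => ?_) (abs_nonneg _) (exp_pos _).le).trans_eq
      (by rw [← mul_assoc, ← mul_assoc, ← exp_add, ← exp_add]; congr 2; ring)
  by_cases z : Y.φ₁ (Y.al a) f = 0
  · rw [z, zero_mul, zero_mul, abs_zero]; positivity
  have m1 := h.f1.gr _ _ z
  have b1 := h.f1.bd' (Y.al a) f
  rw [h.va, zero_mul, add_zero] at b1
  have fin : ∀ v, |Y.c f (Y.e q) (Y.e p) * exp ((Y.mu (Y.e p) - Y.mu f - Y.mu (Y.e q)) * Y.l)| ≤
      exp v → v + (Y.wt (Y.e p) - Y.wt (Y.e q)) * Y.d ≤ U - Y.n * H17S.lg →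
      |Y.φ₁ (Y.al a) f * Y.c f (Y.e q) (Y.e p) * (exp ((Y.mu (Y.e p) - Y.mu (Y.al a) -
        Y.mu (Y.e q)) * Y.l) * exp ((Y.wt (Y.e p) - Y.wt (Y.e q)) * Y.d) * (Y.ff q / Y.ff p))| ≤
          exp (2 * U + 1) * (1 / 2 ^ Y.n) := fun v hv hv' => by
    have := mul_ex (mul_ex (mul_ex b1 hv) (le_of_eq (abs_of_pos
      (exp_pos ((Y.wt (Y.e p) - Y.wt (Y.e q)) * Y.d))))) g
    rw [m1, ← n2, ← exp_add (2 * U + 1)]
    exact le_of_eq_of_le (by congr 1; ring) (this.trans (exp_le_exp.2 (by linarith)))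
  have w1 := mul_nonneg (h.w0 (Y.e q)) h.d0
  have x1 := h.xn p
  by_cases m2 : Y.mu (Y.e p) = Y.mu f + Y.mu (Y.e q)
  · have z0 : exp ((Y.mu (Y.e p) - Y.mu f - Y.mu (Y.e q)) * Y.l) = 1 := by
      rw [m2, show Y.mu f + Y.mu (Y.e q) - Y.mu f - Y.mu (Y.e q) = 0 by ring, zero_mul, exp_zero]
    rcases lt_trichotomy (Y.wt (Y.e q)) (Y.wt (Y.e p)) with o | o | o
    · exact fin (U - X) (by rw [z0, mul_one]; exact h.v1 f p q o) (by linarith)
    · exact absurd ⟨by rw [m2, m1, add_comm], o.symm⟩ m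
    · exact fin U (by rw [z0, mul_one]; exact h.ob _ _ _) (by linarith [h.gap p q o])
  · exact fin (U - X) (by rw [abs_mul, abs_of_pos (exp_pos _)]; exact h.nh f p q m2) (by linarith)

/-- The identity and the facts for the lists. -/
theorem main [DecidableEq κ'] {ι : Type} [Fintype ι] [DecidableEq ι] {Φ : Filt (Mt ι)}
    {B : κ → Mt ι} {r : κ → ℝ} {C u : ℝ} (K : Kit Φ.N k C) (fr : IsFr Φ B Y.c)
    (hu : 4 * U + 2 * k + 2 ≤ u) (T : Tow Y.c (fun a => exp (-(Y.mu a * Y.l))) r Y.s u)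
    (T' : Tow Y.c (fun a => exp (-(Y.mu a * Y.l))) r Y.r' u) (he : Y.e.Injective)
    (h1 : ∀ p, Y.r' (Y.e p) = Y.s (Y.e p) / 2 ^ Y.n) (h2 : ∀ a, (¬∃ p, Y.e p = a) → Y.r' a = Y.s a)
    {x : Mt ι} (hx : IsUnit x) :
    (Bx (fun a => exp (-(Y.mu a * Y.l))) (exp u) Y.t ∧ Bx Y.s (exp u) (Y.w + Y.δ) ∧
      x * ex B (Y.τ ᵥ* Y.φ) = x * ex B (Y.t + (Y.w + Y.δ))) ∧ ∀ m, Φ.N ≤ m → ∀ p,
      |zb Y.n Y.e B r Y.s (x * ex B (Y.τ ᵥ* Y.φ)) (some p) -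
        c0 Φ.N B Y.c Y.s Y.t (rnd B r Y.s x) (rnd B r Y.s (x * ex B (Y.τ ᵥ* Y.φ))) (Y.e p) -
        (∑ i ∈ Finset.range (m + 1), ((i.factorial : ℚ))⁻¹ •
          ((-Y.M) ^ i *ᵥ zb Y.n Y.e B r Y.s x)) (some p)| ≤
        exp ((24 * C ^ 3 + (m + 1) * (2 * k + 5)) * u) / 2 ^ Y.n := by
  have k0 : (0 : ℝ) ≤ k := k.cast_nonneg
  have u0 := h.u0
  have s0 := fun a => (h.s0 a).le
  have p2 : (0 : ℝ) < 2 ^ Y.n := by positivity
  have rs : ∀ a, Y.r' a ≤ Y.s a := fun a => by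
    by_cases o : ∃ p, Y.e p = a
    · obtain ⟨p, rfl⟩ := o
      rw [h1]; exact div_le_self (s0 _) (one_le_pow₀ one_le_two)
    · exact (h2 a o).le
  have a1 := bx_up (h.t_bx hk) (fun _ => (exp_pos _).le) (show _ ≤ u by linarith)
  refine ⟨⟨a1, bx_up (bx_add' (h.w_bx hk) (bx_up (bx_le (h.δ_bx hk) (exp_pos _).le rs) s0
    (by linarith)) s0) s0 (by linarith), by rw [← add_assoc, Y.sum]⟩, fun m hm p => ?_⟩
  rw [← Y.sum]
  exact geo K hk fr (by linarith) T T' he h1 h2 hx a1 (bx_up (h.w_bx hk) s0 (by linarith))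
    (bx_up (h.δ_bx hk) (fun a => (T'.pos a).le) (by linarith)) h.M_o
    (fun p q => (h.M_b hk p q).trans (exp_le_exp.2 (by linarith)))
    (fun p q => (h.M_d hk p q).trans (div_le_div_of_nonneg_right (exp_le_exp.2 (by linarith)) p2.le))
    (fun p => (h.M_θ hk p).trans (div_le_div_of_nonneg_right (exp_le_exp.2 (by linarith)) p2.le))
    hm p

end Ok

end Rd

/-- The noise is the exponential series. -/
theorem wp_eq {ν : Type} [Fintype ν] [DecidableEq ν] (m : ℕ) (R : Matrix ν ν ℝ) (z : ν → ℝ) :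
    z + (R * (∑ k ∈ Finset.range m, ((-1) ^ k / (k + 2).factorial : ℝ) • R ^ (k + 1)) - R) *ᵥ z =
      ∑ i ∈ Finset.range (m + 1 + 1), ((i.factorial : ℚ))⁻¹ • ((-R) ^ i *ᵥ z) := by
  rw [Finset.sum_range_succ', Finset.sum_range_succ', sub_mulVec, Finset.mul_sum, sum_mulVec]
  have : ∀ k ∈ Finset.range m, (R * (((-1) ^ k / (k + 2).factorial : ℝ) • R ^ (k + 1))) *ᵥ z =
      (((k + 1 + 1).factorial : ℚ))⁻¹ • ((-R) ^ (k + 1 + 1) *ᵥ z) := fun k _ => by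
    rw [Matrix.mul_smul, ← pow_succ', smul_mulVec, ← neg_one_smul ℝ R, smul_pow, smul_mulVec,
      ← Rat.cast_smul_eq_qsmul ℝ, smul_smul]
    congr 1
    push_cast
    ring
  rw [Finset.sum_congr rfl this]
  simp [neg_mulVec]
  abel

end Pool.Agent.MP_5168f5_an.AN.GA.CR
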