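import Pool.Agent.MP_4b405e_nt.SK.CR23
import Pool.Agent.MP_4b405e_nt.SK.GRel0
import Pool.Agent.MP_4b405e_nt.SK.CLw

/-! Sparse heights, block C: the relation between the blocks and between the contexts. -/

namespace Pool.Agent.MP_5168f5_an.QA.SC.R23

open H19 H17S H17F R4 AN Filter Matrix Real Finset
open GA (Mt IsFr br mB mC sB sC Bx Nr rnd)
open GA.CR (Tow Rd zb c0)
open LC (ex_le)
open Cp.Nm5 (mul_le)
open Wd

variable {ι κ : Type} [Fintype ι] [DecidableEq ι] [Fintype κ] [DecidableEq κ]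
  {σ : Kk ι κ} {Y : Wd ι κ} {p : Pm} {K e w r δ V γ : ℝ}

variable (σ Y p) in
/-- The data of a pair. -/
noncomputable def dt (x : Par) (ω v : Y.Ω) : Rd κ {b : κ // σ.Nn b} σ.Al :=
  ⟨σ.mu, σ.wt, σ.vt, Subtype.val, Subtype.val, Y.ck σ x.1 (Y.cp x.1 ω), ph σ Y x ω ω,
    ph σ Y x ω (v1 Y p x ω), Y.t ω v, fun _ => 1, Y.bb σ p x ω v, fun q => ff σ x q.1, ss σ p x,
    sd σ p x p.u, Y.ρ σ p x ω, lv σ p x, Wd.dp p x, Y.D x.1, p.u⟩

omit [Fintype κ] [DecidableEq κ] in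
theorem ff_two (o : σ.Ok) (x : Par) (b : κ) : ff σ x b ≤ 2 := by
  have l := lg_half
  have k : (2 : ℝ) ^ nn σ x b = exp (lg * nn σ x b) := by
    rw [lg, mul_comm, exp_nat_mul, exp_log two_pos]
  have := (div_lt_iff₀ (show 0 < lg by linarith)).1
    (Nat.lt_floor_add_one ((σ.mu b * x.2.2.1 + σ.wt b * x.2.2.2) / lg))
  rw [ff, k, ← exp_sub, ← exp_log two_pos]
  exact ex_le (by change _ ≤ lg; unfold nn; linarith)

omit [Fintype κ] [DecidableEq κ] in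
theorem nn_ex {a : κ} : (∃ q : {b : κ // σ.Nn b}, q.1 = a) ↔ σ.Nn a :=
  ⟨fun ⟨q, h⟩ => h ▸ q.2, fun h => ⟨⟨a, h⟩, rfl⟩⟩

theorem two_pow (n : ℕ) : (2 : ℝ) ^ n = exp (n * lg) := by rw [lg, exp_nat_mul, exp_log two_pos]

theorem ok (H : Y.Hyp σ p K e w r δ) (o : σ.Ok) (U : σ.Ub V) (hK : 10 * V ^ 2 ≤ K) (g0 : 0 < γ)
    (g1 : ∀ a b, σ.wt a < σ.wt b → σ.wt a + γ ≤ σ.wt b) (g2 : γ⁻¹ ≤ K) {x : Par} {ω v : Y.Ω}
    (A : At σ Y p x ω) (hv : v ∈ Y.P.S) (hQ : Y.Q (lv σ p x) ω = Y.Q (lv σ p x) v) :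
    (dt σ Y p x ω v).Ok (12 * e) p.xA := by
  obtain ⟨c, c'⟩ := nums H U hK
  obtain ⟨r1, r2, r3, r4⟩ := A.rep
  obtain ⟨d1, d2, d3, d4⟩ := A.dp H U hK
  have k := H.st.val _ A.hi ω A.hω A.hE
  have kV := (H.ch10 U hK).1
  have e1 := H.num.e1
  have V1 := U.one
  have kc := U.card
  have l2 := lg_half
  have l1 := lg_lt_one
  have d0 : (0 : ℝ) ≤ Wd.dp p x := Nat.cast_nonneg _
  have u0 : (0 : ℝ) ≤ p.u := Nat.cast_nonneg _
  have ca := H.cak o U hK A.hi A.hω A.hE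
  have inc := H.ok.inc _ A.lW ω A.hω v hv hQ
  have n1 := c.e1; have n2 := c.eu; have n3 := c.uL; have n4 := c.Ld; have n5 := c.dx
  have n6 := c.xn; have n7 := c.nk; have n8 := c.kr
  have fm : ∀ y ∈ Y.P.S, Y.Cp x.1 y = Y.Cp x.1 ω → (dt σ Y p x ω v).Fm (ph σ Y x ω y) (12 * e) :=
    fun y hy q => ⟨fun a f => (k.φ_le H.ok hy (H.iT A.hi) q a f).trans (ex_le (by linarith)),
      fun a f z => k.φ_gr H.ok hy z, fun a f z => k.φ_id H.ok hy o a fun n => z (nn_ex.2 n)⟩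
  have xn : ∀ b, σ.wt b * Wd.dp p x + p.u * lg ≤ p.xA := fun b => by
    have := mul_le_mul (U.wt b) d1 d0 (by linarith)
    have := mul_le_of_le_one_right u0 l1.le
    have := mul_nonneg (show 0 ≤ V by linarith) (Nat.cast_nonneg (α := ℝ) p.d0)
    linarith [c'.dx]
  have t1 : ∀ a, |exp (σ.mu a * lv σ p x) * Y.t ω v a| ≤ exp e := fun a =>
    (mul_le (ex_abs _) (inc a).1).trans (ex_le (by linarith))
  have s0 : ∀ a, 0 < ss σ p x a := fun a => by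
    by_cases n : σ.Nn a
    · exact (exp_pos _).trans_le (ss_ge o x n)
    · exact (exp_pos _).trans_le (ss_out o x n).1
  refine ⟨by linarith, Nat.cast_nonneg _, d0, fun a => (o.w0 a).le, Subtype.val_injective,
    fun q => o.nlive q.2, fun a => a.2.1, fun a => ?_, fun a => o.vz (gn a.2), fm ω A.hω rfl,
    fm _ r1 (congrArg Prod.fst r3), fun a => (inc a).1.trans (ex_le ?_), fun q => ?_, fun a => ?_,
    fun a => ?_, fun a q => (A.th H o U hK (gn a.2) q.2).trans (ex_le (by linarith)),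
    fun q => ⟨(ff_bd o x _).1, ff_two o x _⟩, s0, fun q => (ss_in o x q.2).trans (mul_comm _ _),
    fun a z => ?_, fun a => ?_, fun a b f => (ca.ob a b f).trans (ex_le (by linarith)),
    fun a q q' z => (ca.nh a q'.1 q.1 (o.nlive q.2) (fun y => z y.2.2) _ (Nat.cast_nonneg _)
      (Nat.cast_le.2 A.lW)).trans (ex_le (by linarith)),
    fun a q q' z => (ca.v1 a q'.1 q.1 q'.2 q.2 z).trans (ex_le (by linarith)), fun q => xn q.1,
    fun q q' z => ?_, fun a => abs_one.trans_le (one_le_exp (by linarith)), fun a q => rfl,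
    fun a q q' => ?_, fun a q q' => ?_, fun a q => ?_⟩
  · by_cases n : σ.Nn a
    · exact .inl (nn_ex.2 n)
    · refine .inr ⟨o.vz n, (o.m0 a).eq_or_lt.imp Eq.symm fun z => ⟨⟨a, z, ?_⟩, rfl⟩⟩
      exact sub_eq_zero.1 (o.vz n)
  · change e - σ.mu a * lv σ p x ≤ 12 * e - σ.mu a * lv σ p x
    linarith
  · refine ((inc q.1).2 (ne_of_gt q.2)).trans (ex_le ?_)
    change -w - σ.mu q.1 * lv σ p x ≤ -p.xA - σ.vt q.1 * Y.D x.1 - σ.mu q.1 * lv σ p x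
    linarith [H.rw' U kV (H.iT A.hi), mul_le_mul_of_nonneg_right (U.vt q.1) (Y.D_nonneg x.1)]
  · change |Y.t ω v a.1 - exp (-(σ.mu a.1 * lv σ p x)) * (1 * rd p.nb (exp (σ.mu a.1 * lv σ p x) *
      Y.t ω v a.1))| ≤ exp (12 * e - p.xA - σ.mu a.1 * lv σ p x)
    have := mul_le (ex_abs (-(σ.mu a.1 * lv σ p x)))
      (rd_sub p.nb (exp (σ.mu a.1 * lv σ p x) * Y.t ω v a.1))
    rw [mul_sub, ← mul_assoc, ← exp_add, neg_add_cancel, exp_zero, one_mul, abs_sub_comm] at this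
    rw [one_mul]
    exact this.trans (ex_le (by
      nlinarith only [mul_le_mul_of_nonneg_left l2 (Nat.cast_nonneg (α := ℝ) p.nb), n1, n6,
        (Nat.cast_nonneg p.xA : (0 : ℝ) ≤ _)]))
  · have := add_ex ((rd_sub p.nb (exp (σ.mu a.1 * lv σ p x) * Y.t ω v a.1)).trans (ex_le (show _ ≤ e by
      nlinarith only [mul_nonneg (Nat.cast_nonneg (α := ℝ) p.nb) (show 0 ≤ lg by linarith), n1])))
      (t1 a.1)
    rw [sub_add_cancel] at this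
    exact this.trans (ex_le (by linarith))
  · have n : ¬σ.Nn a := fun n => (o.nlive n).ne' z
    exact ((sd_out x p.u n).trans ((ss_out o x n).2 z)).ge
  · change exp (-(σ.mu a * lv σ p x + p.xA)) ≤ sd σ p x p.u a
    by_cases n : σ.Nn a
    · rw [sd_in x _ n, two_pow, le_div_iff₀ (exp_pos _), ← exp_add]
      exact (ex_le (by linarith [xn a])).trans (ss_ge o x n)
    · rw [sd_out x _ n]; exact (ss_out o x n).1
  · change p.u * lg ≤ (σ.wt q'.1 - σ.wt q.1) * Wd.dp p x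
    have z : σ.wt q.1 + γ ≤ σ.wt q'.1 := g1 _ _ z
    have a := (H.chn (by linarith) (inv_pos.2 g0).le g2).uL
    rw [inv_mul_le_iff₀ g0] at a
    have := mul_le_mul (show γ ≤ σ.wt q'.1 - σ.wt q.1 by linarith)
      (show (p.L : ℝ) ≤ Wd.dp p x by linarith) (Nat.cast_nonneg _) (by linarith)
    linarith [mul_le_of_le_one_right u0 l1.le]
  · change |Y.ρ0 σ x.1 (Y.i1 p x) ω a.1 q.1 q'.1 * ff σ x q'.1 / ff σ x q.1| ≤ _
    have a1 : |Y.ρ0 σ x.1 (Y.i1 p x) ω a.1 q.1 q'.1| ≤ exp (11 * e) := by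
      unfold ρ0
      split_ifs
      · rw [show br (Y.ck σ x.1 (Y.cp x.1 ω)) (Y.φ σ x.1 (Y.cp x.1 ω) (Y.v1 x.1 (Y.i1 p x) ω) a.1)
          (Pi.single q'.1 1) q.1 = ∑ b, Y.ck σ x.1 (Y.cp x.1 ω) b q'.1 q.1 *
            ph σ Y x ω (v1 Y p x ω) a.1 b by simp [br, Pi.single_apply]]
        refine (sum_ex fun b => mul_le (ca.ob b q'.1 q.1)
          (A.row H o U hK r1 (congrArg Prod.fst r3) a.1 b)).trans (ex_le ?_)
        rw [o.vz (gn a.2)]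
        linarith
      · exact z_ex _
    have a2 := ff_bd o x q'.1
    have a3 := ff_bd o x q.1
    rw [abs_div, abs_of_pos (show 0 < ff σ x q.1 by linarith [a3.1])]
    refine (div_le_self (abs_nonneg _) a3.1).trans ((mul_le a1 ((abs_of_pos (by
      linarith [a2.1])).trans_le a2.2)).trans (ex_le (by linarith)))
  · exact congrArg (fun y => y * ff σ x q'.1 / ff σ x q.1) (one_mul _).symm
  · change |(if σ.mu q.1 = σ.mu a.1 then -rd (5 * p.u) (Y.θ0 σ x.1 (Y.i1 p x) (Wd.dp p x) ω a.1 q.1 /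
      ff σ x q.1) else 0) + if σ.mu q.1 = σ.mu a.1 then 1 * Y.θ0 σ x.1 (Y.i1 p x) (Wd.dp p x) ω a.1
        q.1 / ff σ x q.1 else 0| ≤ 1 / 2 ^ p.u
    split_ifs
    · rw [one_mul, neg_add_eq_sub, abs_sub_comm, two_pow, one_div, ← Real.exp_neg]
      refine (rd_sub _ _).trans (ex_le ?_)
      push_cast
      nlinarith only [u0, l2]
    · rw [add_zero, abs_zero]; positivity

theorem wp' {ν : Type} (i : Fintype ν) [j : Fintype ν] [d : DecidableEq ν] (m : ℕ) (R : Matrix ν ν ℝ)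
    (z : ν → ℝ) : (letI := i; z + (R * Wp m R - R) *ᵥ z) =
      ∑ i ∈ range (m + 1 + 1), ((i.factorial : ℚ))⁻¹ • ((-R) ^ i *ᵥ z) := by
  obtain rfl : i = j := Subsingleton.elim _ _
  obtain rfl : d = fun a b => Classical.propDecidable (a = b) := Subsingleton.elim _ _
  exact @GA.CR.wp_eq ν i (fun a b => Classical.propDecidable (a = b)) m R z

/-- The main part is read from the context and the form. -/
theorem t_fn {x : Par} {ω v ω' v' : Y.Ω} (h1 : Y.cp x.1 ω = Y.cp x.1 ω')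
    (h2 : Y.Cp (Y.i1 p x) ω = Y.Cp (Y.i1 p x) ω') (h3 : Y.bb σ p x ω v = Y.bb σ p x ω' v') :
    (dt σ Y p x ω v).t = (dt σ Y p x ω' v').t := by
  have : v1 Y p x ω = v1 Y p x ω' := N2.rep_congr (Prod.ext h1 h2)
  funext f
  simp only [Rd.t, Rd.β, dt, ph, h1, h3, this]

/-- The facts at a point of the space. -/
theorem core (o : σ.Ok) : ∃ K₀ C : ℝ, 1 ≤ K₀ ∧ GA.CR.Kit σ.Φ.N (Fintype.card κ) C ∧
    ∀ (Y : Wd ι κ) (p : Pm) (K e w r δ : ℝ), K₀ ≤ K → Y.Hyp σ p K e w r δ → 1 ≤ e ∧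
    ∀ z ∈ (Y.P2 σ p).S, Y.cp z.1.1 z.2.2 = Y.cp z.1.1 z.2.1.2 ∧
      (IsFr σ.Φ (Y.Bk σ z.1.1 (Y.cp z.1.1 z.2.1.2)) (Y.ck σ z.1.1 (Y.cp z.1.1 z.2.1.2)) ∧
        Tow (Y.ck σ z.1.1 (Y.cp z.1.1 z.2.1.2)) (fun a => exp (-(σ.mu a * lv σ p z.1)))
          (r0 σ p z.1.2.1) (ss σ p z.1) (52 * e) ∧ IsUnit (Y.X.j z.2.1.2)) ∧
      (Bx (fun a => exp (-(σ.mu a * lv σ p z.1))) (exp (52 * e)) (dt σ Y p z.1 z.2.1.2 z.2.2).t ∧
        Bx (ss σ p z.1) (exp (52 * e))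
          ((dt σ Y p z.1 z.2.1.2 z.2.2).w + (dt σ Y p z.1 z.2.1.2 z.2.2).δ) ∧
        Y.X.j z.2.2 = Y.X.j z.2.1.2 * GA.ex (Y.Bk σ z.1.1 (Y.cp z.1.1 z.2.1.2))
          ((dt σ Y p z.1 z.2.1.2 z.2.2).t +
            ((dt σ Y p z.1 z.2.1.2 z.2.2).w + (dt σ Y p z.1 z.2.1.2 z.2.2).δ))) ∧
      ∀ q, |Y.Z' σ p z (some q) - ((Y.bd σ p).Z z + (Y.bd σ p).N z) (some q) -
        c0 σ.Φ.N (Y.Bk σ z.1.1 (Y.cp z.1.1 z.2.1.2)) (Y.ck σ z.1.1 (Y.cp z.1.1 z.2.1.2))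
          (ss σ p z.1) (dt σ Y p z.1 z.2.1.2 z.2.2).t ((Y.bd σ p).K z).2.2 (Y.K' σ p z).2.2 q.1| ≤
        exp ((24 * C ^ 3 + (σ.Φ.N + 2) * (2 * Fintype.card κ + 5)) * (52 * e)) / 2 ^ p.u := by
  classical
  obtain ⟨V, U⟩ := o.ub
  obtain ⟨γ, g0, g1⟩ := gap σ
  obtain ⟨C, T⟩ := GA.CR.kit σ.Φ.N (Fintype.card κ)
  have V1 := U.one
  have i0 := inv_pos.2 g0
  have C0 : (0 : ℝ) ≤ σ.C := Nat.cast_nonneg _
  have V2 : V ≤ V ^ 2 := by nlinarith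
  refine ⟨10 * V ^ 2 + γ⁻¹ + σ.C, C, by linarith, T, fun Y p K e w r δ k H => ?_⟩
  have e1 := H.num.e1
  refine ⟨by linarith, fun z hz => ?_⟩
  have hK : 10 * V ^ 2 ≤ K := by linarith
  obtain ⟨⟨m1, m2, m3, m4⟩, ⟨m5, -⟩, m6, m7, m8, -, m9, m10⟩ := H.mem o (by linarith) hz
  have lW := (H.lvW (by linarith) (by linarith) m2.le m3.le).trans H.ok.w1
  have A : At σ Y p z.1 z.2.1.2 := ⟨m1, m2.le, m3.le, m4.le, by omega, m6, m8⟩
  have cp : Y.cp z.1.1 z.2.2 = Y.cp z.1.1 z.2.1.2 :=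
    Prod.ext (H.ok.fC _ (H.iT m1) _ m7 _ m6 m9) (H.st.fs _ _ m7 _ m6 m9)
  have fr := H.frk m1 m6 m8
  have uL : p.u ≤ 6 * p.L := by
    have := (nums H U hK).1.uL
    have : (p.u : ℝ) ≤ 6 * p.L := by linarith [Nat.cast_nonneg (α := ℝ) p.u]
    exact_mod_cast this
  have T1 := (H.tows o U hK m1 m6 m8 m2.le (by omega) (by omega)).up (show _ ≤ 52 * e by linarith)
  have T2 := (H.towk o U hK m1 m6 m8 m2.le (by omega) (by omega) uL).up
    (show _ ≤ 52 * e by linarith)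
  have un := (H.ok.fr _ m6).1
  have ic := (H.st.val _ m1 _ m6 m8).inc_φ H.ok m6 m7
  obtain ⟨⟨a1, a2, a3⟩, a4⟩ := (ok H o U hK g0 g1 (by linarith) A m7 (m10 _ m5).symm).main le_rfl T
    fr (u := 52 * e) (by linarith [U.card]) T1 T2 Subtype.val_injective (fun q => sd_in _ _ q.2)
    (fun a n => sd_out _ _ fun y => n (nn_ex.2 y)) un
  refine ⟨cp, ⟨fr, T1, un⟩, ⟨a1, a2, ic.trans a3⟩, fun q => ?_⟩
  have a5 := a4 (σ.Φ.N + 1) (Nat.le_succ _) q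
  have a6 : (Y.bd σ p).Z z + (Y.bd σ p).N z = _ := wp' _ (j := instFintypeOption) σ.Φ.N
    ((Y.bd σ p).R z) ((Y.bd σ p).Z z)
  rw [a6, sub_right_comm]
  refine le_trans (le_of_eq ?_) (a5.trans_eq (by push_cast; ring_nf; rfl))
  simp only [Z', K', Wd.Z, Wd.K, cp]
  rw [ic]
  rfl

theorem rowR : RowR := fun ι κ _ _ _ _ σ o => by
  obtain ⟨K₀, C, k1, T, h⟩ := core o
  have c1 := T.c1
  have c2 : 0 ≤ (24 * C ^ 3 + (σ.Φ.N + 2) * (2 * Fintype.card κ + 5)) * 52 := by positivity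
  refine ⟨K₀ + (24 * C ^ 3 + (σ.Φ.N + 2) * (2 * Fintype.card κ + 5)) * 52, by linarith,
    fun Y p e w r δ H => ?_⟩
  obtain ⟨e1, h⟩ := h Y p _ e w r δ (by linarith) H
  refine ⟨fun z q => q.elim 0 fun b => c0 σ.Φ.N (Y.Bk σ z.1.1 (Y.cp z.1.1 z.2.1.2))
    (Y.ck σ z.1.1 (Y.cp z.1.1 z.2.1.2)) (ss σ p z.1) (dt σ Y p z.1 z.2.1.2 z.2.2).t
    ((Y.bd σ p).K z).2.2 (Y.K' σ p z).2.2 b.1, fun a _ b _ k => ?_, fun z hz q n => ?_⟩
  · obtain ⟨x, a⟩ := a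
    obtain ⟨x', b⟩ := b
    obtain ⟨k1, k2, k3⟩ : _ ∧ _ ∧ _ := by simpa only [Prod.mk.injEq] using k
    obtain rfl : x = x' := congrArg (·.1) k2
    have k4 : Y.cp x.1 a.1.2 = Y.cp x.1 b.1.2 := congrArg (·.2.1) k2
    simp only [k1, k2, k4, t_fn k4 (congrArg (·.1) k3) (congrArg (·.2.1) k3)]
  · cases q with
    | none => exact absurd rfl n
    | some q =>
      exact ((h z hz).2.2.2 q).trans (div_le_div_of_nonneg_right (ex_le (by nlinarith only [k1, e1]))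
        (by positivity))

theorem rowM : RowM := fun ι κ _ _ _ _ σ o => by
  obtain ⟨K₀, C, k1, T, h⟩ := core o
  have c1 := T.c1
  have c2 : 0 ≤ (2 + 12 * Fintype.card κ) * C ^ 3 * 52 := by positivity
  refine ⟨K₀ + (2 + 12 * Fintype.card κ) * C ^ 3 * 52, by linarith, fun Y p e w r δ H => ?_⟩
  obtain ⟨e1, h⟩ := h Y p _ e w r δ (by linarith) H
  have l : exp ((2 + 12 * (Fintype.card κ : ℕ)) * C ^ 3 * (52 * e)) ≤
      exp ((K₀ + (2 + 12 * Fintype.card κ) * C ^ 3 * 52) * e) := ex_le (by nlinarith only [k1, e1])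
  have f : ∀ a ∈ (Y.P2 σ p).S, ∀ b ∈ (Y.P2 σ p).S, a.1 = b.1 →
      Y.cp a.1.1 a.2.1.2 = Y.cp b.1.1 b.2.1.2 → (Y.bd σ p).T a = (Y.bd σ p).T b →
      (dt σ Y p a.1 a.2.1.2 a.2.2).t = (dt σ Y p b.1 b.2.1.2 b.2.2).t := by
    rintro ⟨x, a⟩ - ⟨x', b⟩ - (rfl : x = x') k k'
    exact t_fn k (congrArg (·.1) k') (congrArg (·.2.1) k')
  have d1 := GA.CR.det_mate (P := Y.P2 σ p) (G := fun z => ((Y.bd σ p).K z, (Y.bd σ p).T z))
    (y := fun z => Y.X.j z.2.2) T le_rfl (by linarith) (fun z hz => (h z hz).2.1)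
    (fun a ha b hb k => by
      have k1 : a.1 = b.1 := congrArg (·.1.1) k
      have k2 : Y.cp a.1.1 a.2.1.2 = Y.cp b.1.1 b.2.1.2 := congrArg (·.1.2.1) k
      refine Prod.ext ?_ (Prod.ext ?_ (Prod.ext ?_ (Prod.ext (f a ha b hb k1 k2 (congrArg (·.2) k))
        (congrArg (·.1.2.2) k))))
      · simp only [k2]; rw [k1]
      · simp only [k1]
      · simp only [k1]) fun z hz => (h z hz).2.2.1
  have d2 := GA.CR.det_mate (P := Y.P2 σ p) (G := fun z => (Y.K' σ p z, (Y.bd σ p).T z))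
    (x := fun z => Y.X.j z.2.2) (y := fun z => Y.X.j z.2.1.2)
    (t := fun z => -(dt σ Y p z.1 z.2.1.2 z.2.2).t)
    (w := fun z => -((dt σ Y p z.1 z.2.1.2 z.2.2).w + (dt σ Y p z.1 z.2.1.2 z.2.2).δ))
    T le_rfl (by linarith) (fun z hz => ⟨(h z hz).2.1.1, (h z hz).2.1.2.1,
      (h z hz).2.2.1.2.2 ▸ (h z hz).2.1.2.2.mul (GA.CR.ex_unit (h z hz).2.1.1 _)⟩)
    (fun a ha b hb k => by
      have k1 : a.1 = b.1 := congrArg (·.1.1) k
      have k2 : Y.cp a.1.1 a.2.1.2 = Y.cp b.1.1 b.2.1.2 :=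
        (h a ha).1.symm.trans ((congrArg (·.1.2.1) k).trans (h b hb).1)
      have k3 := congrArg (·.1.2.2) k
      simp only [K', Wd.K, (h a ha).1, (h b hb).1] at k3
      refine Prod.ext ?_ (Prod.ext ?_ (Prod.ext ?_ (Prod.ext (congrArg Neg.neg
        (f a ha b hb k1 k2 (congrArg (·.2) k))) k3)))
      · simp only [k2]; rw [k1]
      · simp only [k1]
      · simp only [k1]) fun z hz => ⟨GA.GANrA.neg (h z hz).2.2.1.1, GA.GANrA.neg (h z hz).2.2.1.2.1, by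
      rw [(h z hz).2.2.1.2.2, ← neg_add, mul_assoc,
        ((GA.sMul _ _ _ _ _ (h z hz).2.1.1).neg _).2, mul_one]⟩
  constructor
  · intro a ha
    obtain ⟨S, s1, s2⟩ := d1 a ha
    classical
    refine ⟨S.image fun y => (a.1, Y.cp a.1.1 a.2.1.2, y), ((Nat.cast_le.2 card_image_le).trans
      s1).trans l, fun b hb k => mem_image.2 ⟨_, s2 b hb k, ?_⟩⟩
    have k1 : b.1 = a.1 := congrArg (·.1.1) k
    have k2 : Y.cp b.1.1 b.2.1.2 = Y.cp a.1.1 a.2.1.2 := congrArg (·.1.2.1) k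
    simp only [K', Wd.K, (h b hb).1]
    rw [← k2, ← k1]
  · intro a ha
    obtain ⟨S, s1, s2⟩ := d2 a ha
    classical
    refine ⟨S.image fun y => (a.1, Y.cp a.1.1 a.2.2, y), ((Nat.cast_le.2 card_image_le).trans
      s1).trans l, fun b hb k => mem_image.2 ⟨_, s2 b hb k, ?_⟩⟩
    have k1 : b.1 = a.1 := congrArg (·.1.1) k
    have k2 : Y.cp b.1.1 b.2.2 = Y.cp a.1.1 a.2.2 := congrArg (·.1.2.1) k
    rw [← k2, ← k1, (h b hb).1]
    rfl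

end Pool.Agent.MP_5168f5_an.QA.SC.R23
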