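import Pool.Agent.MP_4b405e_nt.SK.SpC

/-! Sparse heights, block C: the glue of the rows. -/

namespace Pool.Agent.MP_5168f5_an.QA.SC

open H19 H17S H17F R4 AN Filter Matrix Real Finset
open Pool.Agent.MP_4b405e_nt.FB (Bc Bd Bs)

namespace Gl

section

variable {α ν : Type} [Fintype α] [Fintype ν] {σ : Bc α ν} {X : Bd α ν} {e e' δ δ' : ℝ}

theorem pa {ω : X.Ω} (h : PtA σ X e ω) (a : e ≤ e') : PtA σ X e' ω :=
  have m : ∀ {x : ℝ}, x ≤ exp e → x ≤ exp e' := fun k => k.trans (exp_le_exp.2 a)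
  ⟨h.zo, fun _ => m (h.zb _), h.zg, fun _ _ _ => m (h.rb _ _ _), fun _ _ _ => m (h.cb _ _ _),
    fun _ => (h.bb _).trans (exp_le_exp.2 (by linarith)), h.jl, h.gr⟩

theorem lev {k : ℝ} (h : Lev σ X k e δ) (a : e ≤ e') (b : δ ≤ δ') : Lev σ X k e' δ' :=
  ⟨⟨(exp_le_exp.2 (by linarith)).trans h.hk.1, h.hk.2.trans (exp_le_exp.2 a)⟩, h.bt.trans b,
    h.fρ, h.fc, h.lv⟩

theorem pr {Λ : Type} {K : X.Ω → Λ} {Z : X.Ω → ν → ℝ} (h : X.Pr σ K Z e) (a : e ≤ e') :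
    X.Pr σ K Z e' :=
  ⟨fun r => (h.t r).trans a, h.f1.trans a, h.f2.trans a, h.hj.trans a⟩

theorem ld {Z : SG.Ld X} {c θ : ℝ} (h : Z.Ok σ c θ e) (a : e ≤ e') : Z.Ok σ c θ e' :=
  ⟨h.n0, h.law, h.fK, h.fZ, fun i hi ω hω p k => (h.zb i hi ω hω p k).trans (exp_le_exp.2 a),
    h.hu, fun i hi => (h.hn i hi).trans a, fun i hi => (h.hy i hi).trans a,
    h.he.trans (mul_le_mul_of_nonneg_left a (Nat.cast_nonneg _)), h.hc, h.hb, h.gap⟩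

theorem nd {r r' κ : ℝ} (h : X.Nd σ r δ κ) (a : r ≤ r') : X.Nd σ r' δ κ := fun T T' k k' => by
  have m : exp (-(r' * X.u)) ≤ exp (-(r * X.u)) :=
    exp_le_exp.2 (neg_le_neg (mul_le_mul_of_nonneg_right a (Nat.cast_nonneg _)))
  refine le_trans (pb_mono fun ω _ ⟨ξ, h1, l, h2, h3, h4⟩ => ?_) (h T T' k k')
  exact ⟨ξ, h1, l, h2, h3, fun a => ⟨fun q hq => ((h4 a).1 q hq).trans m, (h4 a).2.trans m⟩⟩

instance : Nonempty (SG.Ld X) :=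
  ⟨⟨X.Ω, Unit, Unit, X.P, 0, fun ω => (0, ω), fun _ _ => (), fun _ => X.Z, fun _ => 0,
    fun _ => (), fun _ => True, 0⟩⟩

end

variable {ι κ : Type} [Fintype ι] [DecidableEq ι] [Fintype κ] [DecidableEq κ] {σ : Kk ι κ}
  {Y : ℕ → Wd ι κ} {p : ℕ → Pm} {e w r : ℕ → ℝ}

theorem bc_ok (h : σ.Ok) : (σ.bc h).Ok := by
  refine ⟨fun a => a.2.1, h.tau, fun p => ?_, rfl, fun p hp => ?_, fun ⟨b, e, _⟩ => ?_,
    fun a p q => ?_⟩
  · cases p <;> exact h.w0 _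
  · rcases p with _ | b
    · exact absurd rfl hp
    · refine (h.m0 b.1).lt_of_ne fun e => ?_
      have := b.2
      rw [Kk.Nn, ← e, h.dead _ e.symm] at this
      exact lt_irrefl _ this
  · cases e
  · cases p <;> cases q <;> exact h.rng _ _ _ a.2

/-- A row holds along the sequence, with any small `δ`. -/
theorem ev {q} (s : Seq σ Y p e w r) (h : On q) : ∃ K : ℝ, 1 ≤ K ∧ ∀ ε : ℝ, 0 < ε →
    ∃ δ : ℝ, 0 < δ ∧ δ ≤ ε ∧ K * δ ≤ ε ∧ ∀ᶠ n in UF, q ι κ σ s.ok (Y n) (p n) K (e n) δ ∧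
      K * e n ≤ ε * (p n).u ∧ K * (δ * (p n).u) ≤ ε * (p n).u ∧
      (Y n).Num σ (p n) K (e n) (w n) (r n) δ := by
  obtain ⟨K, k1, h⟩ := h ι κ σ s.ok
  have k0 : 0 < K := by linarith
  refine ⟨K, k1, fun ε e0 => ?_⟩
  have a : K * (min ε 1 / K) = min ε 1 := mul_div_cancel₀ _ k0.ne'
  have d0 : 0 < min ε 1 / K := by positivity
  have l1 := min_le_left ε 1
  have l2 := min_le_right ε 1
  generalize min ε 1 / K = δ at a d0
  refine ⟨δ, d0, by nlinarith, a.trans_le l1, ?_⟩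
  filter_upwards [s.hyp K δ d0 (a.trans_le l2)] with n hn
  have u0 : (0 : ℝ) ≤ (p n).u := Nat.cast_nonneg _
  have b : K * (δ * (p n).u) ≤ ε * (p n).u := by
    rw [← mul_assoc]; exact mul_le_mul_of_nonneg_right (a.trans_le l1) u0
  refine ⟨h _ _ _ _ _ _ hn, le_trans (mul_le_mul_of_nonneg_left (hn.num.eu.trans ?_) k0.le) b,
    b, hn.num⟩
  exact mul_le_mul_of_nonneg_right (by nlinarith) u0

theorem ac (s : Seq σ Y p e w r) (h : RowAc) (x y : ℝ) (x0 : 0 < x) (y0 : 0 < y) :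
    ∀ᶠ n in UF, ((Y n).bd σ (p n)).Ac (σ.bc s.ok) x y := by
  obtain ⟨K, k1, h⟩ := ev s h
  obtain ⟨δ, d0, d1, d2, h⟩ := h (min (min x x⁻¹) (min (y ^ 2) (y / 2))) (by positivity)
  simp only [le_min_iff] at d1 d2
  filter_upwards [h] with n ⟨h, _, _, N⟩
  refine h x y d2.1.1 ?_ d2.2.1 y0 ?_
  · rw [one_div]; exact (le_inv_comm₀ d0 x0).1 d1.1.2
  · have k0 : (0 : ℝ) < (Y n).k := (pos_iff_pos_of_mul_pos (one_pos.trans_le N.kk.1)).1 d0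
    have a : δ⁻¹ ≤ x * (p n).u / (K * (Y n).k) := by
      rw [le_div_iff₀ (by positivity), inv_mul_le_iff₀ d0]
      have u0 : (0 : ℝ) ≤ (p n).u := Nat.cast_nonneg _
      have b1 := mul_le_mul_of_nonneg_left (N.kk.2.trans N.eu) (zero_le_one.trans k1)
      nlinarith [mul_le_mul_of_nonneg_right d2.1.1 (mul_nonneg d0.le u0)]
    refine (exp_le_exp.2 (neg_le_neg a)).trans (le_trans ?_ d1.2.2)
    rw [exp_neg, inv_le_comm₀ (exp_pos _) d0]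
    linarith [add_one_le_exp δ⁻¹]

theorem nd' (s : Seq σ Y p e w r) (h : RowNd) (x y : ℝ) (x0 : 0 < x) (y0 : 0 < y) :
    ∃ k : ℝ, 0 < k ∧ ∀ᶠ n in UF, ((Y n).bd σ (p n)).Nd (σ.bc s.ok) x y k := by
  obtain ⟨K, k1, h⟩ := ev s h
  have k0 : 0 < K := by linarith
  obtain ⟨a, a0, N⟩ := s.nd (min x 2 / 2) (y / K) (by positivity) (by positivity)
  obtain ⟨δ, -, -, d2, h⟩ := h (min (min x 2) (a * (y / K))) (by positivity)
  rw [le_min_iff] at d2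
  refine ⟨a / 4, by positivity, ?_⟩
  filter_upwards [h, N] with n ⟨h, _⟩ N
  have := h _ _ a d2.1 (min_le_right _ _) (by positivity) d2.2 N
  rw [mul_div_cancel₀ _ k0.ne'] at this
  exact nd this (min_le_left _ _)

theorem lk (s : Seq σ Y p e w r) (h : RowLk) :
    SG.Lk (σ.bc s.ok) fun n => (Y n).bd σ (p n) := by
  obtain ⟨K, -, h⟩ := ev s h
  have c2 : (0 : ℝ) < σ.C := Nat.cast_pos.2 (by have := s.ok.c2; omega)
  refine ⟨fun n => Classical.epsilon fun Z : SG.Ld ((Y n).bd σ (p n)) =>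
    Z.Ok (σ.bc s.ok) σ.cc (σ.be / (4 * σ.C)) (K * e n), σ.cc, σ.be / (4 * σ.C), s.ok.cc0,
    by have := s.ok.be0; positivity, fun ε e0 => ?_⟩
  obtain ⟨δ, -, -, -, h⟩ := h ε e0
  filter_upwards [h] with n ⟨h, a, _⟩
  exact ld (Classical.epsilon_spec h) a

end Gl

/-- The block from its rows. -/
theorem ofC : OfC := by
  intro rS rA rB rR rM rL rP rAc rNd rLk ι κ _ _ _ _ σ Y p e w r s
  have b : Bs1 (σ.bc s.ok) (fun n => (Y n).bd σ (p n)) (fun n => (Y n).k0 / 2) σ.Φ.N := by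
    refine ⟨Gl.bc_ok s.ok, s.big, fun ε e0 => ?_, Gl.ac s rAc, Gl.nd' s rNd⟩
    obtain ⟨_, -, hA⟩ := Gl.ev s rA
    obtain ⟨_, -, hB⟩ := Gl.ev s rB
    obtain ⟨_, -, hR⟩ := Gl.ev s rR
    obtain ⟨_, -, hM⟩ := Gl.ev s rM
    obtain ⟨_, -, hL⟩ := Gl.ev s rL
    obtain ⟨_, -, hP⟩ := Gl.ev s rP
    obtain ⟨_, -, -, -, hA⟩ := hA ε e0
    obtain ⟨_, -, -, -, hB⟩ := hB ε e0
    obtain ⟨_, -, -, -, hR⟩ := hR ε e0
    obtain ⟨_, -, -, -, hM⟩ := hM ε e0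
    obtain ⟨_, -, -, dL, hL⟩ := hL ε e0
    obtain ⟨_, -, -, -, hP⟩ := hP ε e0
    filter_upwards [hA, hB, hR, hM, hL, hP] with n ⟨hA, a1, _⟩ ⟨hB, _⟩ ⟨⟨c₀, f, hR⟩, a2, _⟩
      ⟨hM, a3, _⟩ ⟨hL, a4, _⟩ ⟨hP, _, a5, _⟩
    exact ⟨fun z hz => Gl.pa (hA z hz) a1, hB, fun _ => rfl, Gl.lev hL.1 a4 dL, Gl.pr hP.1 a5,
      _, _, c₀, f, fun z hz q k => (hR z hz q k).trans
        (div_le_div_of_nonneg_right (exp_le_exp.2 a2) (by positivity)),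
      ((ch_det hM.1).trans_eq (log_exp _)).trans a3, ((ch_det hM.2).trans_eq (log_exp _)).trans a3,
      Gl.pr hP.2 a5⟩
  obtain ⟨X, k, l⟩ := rS _ _ _ _ _ _ b
  exact ⟨_, _, _, _, _, X, k, (l (Gl.lk s rLk)).low k⟩

end Pool.Agent.MP_5168f5_an.QA.SC
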