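import Pool.Agent.MP_4b405e_nt.SK.CGeo

/-! A finer context determines a coarser context up to a short list. -/

namespace Pool.Agent.MP_5168f5_an.AN.GA.CR

open H19 H17S H17F H61Z Real GAMulA GABoxA GACntA Matrix

theorem fl1_dz {h n : ℕ} (hn : h ≤ n) (y : ℝ) : fl1 h (dz n y) = fl1 h y - 2 ^ h * ⌊y⌋ := by
  obtain ⟨k, rfl⟩ := Nat.exists_eq_add_of_le hn
  have p : (0 : ℝ) < 2 ^ k := by positivity
  have e : 2 ^ h * dz (h + k) y =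
      (⌊2 ^ h * y * ((2 ^ k : ℕ) : ℝ)⌋ : ℝ) / ((2 ^ k : ℕ) : ℝ) - ((2 ^ h * ⌊y⌋ : ℤ) : ℝ) := by
    rw [dz, fl1, pow_add]
    push_cast
    rw [mul_right_comm]
    field_simp
  rw [fl1, e, Int.floor_sub_intCast, Int.floor_div_natCast, Int.floor_intCast, fl1,
    Int.mul_natCast_floor_div_cancel (by positivity)]

variable {ι κ Ω β : Type} [Fintype ι] [DecidableEq ι] [Fintype κ] {Φ : Filt (Mt ι)} {P : FP Ω}
  {G : Ω → β} {B : Ω → κ → Mt ι} {c : Ω → κ → κ → κ → ℝ} {R r s R' r' s' : Ω → κ → ℝ}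
  {x : Ω → Mt ι} {u C : ℝ} {k : ℕ}

theorem det_two (K : Kit Φ.N k C) (hk : Fintype.card κ ≤ k) (hu : 1 ≤ u)
    (h : ∀ ω ∈ P.S, IsFr Φ (B ω) (c ω) ∧ Tow (c ω) (R ω) (r ω) (s ω) u ∧ IsUnit (x ω))
    (h' : ∀ ω ∈ P.S, Tow (c ω) (R' ω) (r' ω) (s' ω) u)
    (le : ∀ ω ∈ P.S, ∀ a, s' ω a ≤ exp u * s ω a)
    (hf : Fn P (fun ω => ((B ω, r ω, s ω), r' ω, s' ω, rnd (B ω) (r' ω) (s' ω) (x ω))) G) :
    Det P (fun ω => rnd (B ω) (r ω) (s ω) (x ω)) G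
      (exp ((2 + 12 * k) * C ^ 3 * ((C + 1) * u))) := by
  have c1 := K.c1
  have l : u ≤ (C + 1) * u := le_mul_of_one_le_left (by linarith) (by linarith)
  refine det_loc K hk (hu.trans l) (fun ω o => ⟨(h ω o).1, (h ω o).2.1.up l, (h ω o).2.2⟩)
    (fun a ha b hb e => congrArg Prod.fst (hf a ha b hb e)) fun a ha b hb e => ?_
  have e1 := hf a ha b hb e
  simp only [Prod.mk.injEq] at e1
  obtain ⟨⟨e1, -, -⟩, e2, e3, e4⟩ := e1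
  rw [← e1, ← e2, ← e3] at e4
  refine nr_mono (rnd_nr K hk (h a ha).1 hu (h' a ha) (h a ha).2.2 (h b hb).2.2 e4) fun i => ?_
  rw [add_mul, one_mul, exp_add, mul_assoc]
  exact mul_le_mul_of_nonneg_left (le a ha i) (exp_pos _).le

end Pool.Agent.MP_5168f5_an.AN.GA.CR
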