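import Pool.Agent.MP_4b405e_nt.SK.CRel

/-! Sparse heights, block C: the constants in the basis of a class, and towers of radii. -/

namespace Pool.Agent.MP_5168f5_an.QA.SC

open Real Finset Matrix
open AN.GA (mC sC Idl)
open AN.GA.CR (Tow)

variable {κ : Type}

/-- The constants are bounded by `exp e`, and smaller than `exp (-s)` off the pattern given by the
weights `μ`, the ideal `Nn` and the chain `wt`, at all levels up to `W`. -/
structure Ca (μ wt : κ → ℝ) (Nn : κ → Prop) (c : κ → κ → κ → ℝ) (W e s : ℝ) : Prop where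
  ob : ∀ a b f, |c a b f| ≤ exp e
  nh : ∀ a b f, 0 < μ f → ¬(0 < μ a ∧ 0 < μ b ∧ μ f = μ a + μ b) → ∀ l, 0 ≤ l → l ≤ W →
    |c a b f| * exp ((μ f - μ a - μ b) * l) ≤ exp (-s)
  na : ∀ a b f, 0 < μ f → ¬Nn f → Nn a ∨ Nn b → |c a b f| ≤ exp (-s)
  an : ∀ a b f, ¬Nn a → ¬Nn b → Nn f → |c a b f| ≤ exp (-s)
  v1 : ∀ a b f, Nn b → Nn f → wt b < wt f → |c a b f| ≤ exp (-s)
  v1' : ∀ a b f, Nn a → Nn f → wt a < wt f → |c a b f| ≤ exp (-s)

open Classical in
/-- Radii at the level `l` with extra depth `h` on the live indices. -/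
noncomputable def rh (μ : κ → ℝ) (l : ℝ) (h : κ → ℝ) (b : κ) : ℝ :=
  if μ b = 0 then 1 else exp (-(μ b * l + h b))

open Classical in
/-- The depth `x` off the ideal and `y` on it. -/
noncomputable def dh (Nn : κ → Prop) (x : ℝ) (y : κ → ℝ) (b : κ) : ℝ := if Nn b then y b else x

variable {μ wt vt : κ → ℝ} {Nn : κ → Prop} {c : κ → κ → κ → ℝ} {W e e' s s' l v : ℝ}
  {h₁ h₂ h₃ : κ → ℝ}

theorem rh_pos (μ : κ → ℝ) (l : ℝ) (h : κ → ℝ) (b : κ) : 0 < rh μ l h b := by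
  unfold rh; split_ifs
  · exact one_pos
  · exact exp_pos _

theorem rh_live {b : κ} (k : μ b ≠ 0) : rh μ l h₁ b = exp (-(μ b * l + h₁ b)) := if_neg k

theorem rh_dead {b : κ} (k : μ b = 0) : rh μ l h₁ b = 1 := if_pos k

theorem rh_mono {b : κ} (k : μ b ≠ 0 → h₁ b ≤ h₂ b) : rh μ l h₂ b ≤ rh μ l h₁ b := by
  by_cases z : μ b = 0
  · rw [rh_dead z, rh_dead z]
  · rw [rh_live z, rh_live z, exp_le_exp]; linarith [k z]

theorem rh_le {b : κ} (k : μ b ≠ 0 → 0 ≤ h₁ b) : rh μ l h₁ b ≤ exp (-(μ b * l)) := by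
  by_cases z : μ b = 0
  · rw [rh_dead z, z, zero_mul, neg_zero, exp_zero]
  · rw [rh_live z, exp_le_exp]; linarith [k z]

theorem dh_in {x : ℝ} {b : κ} (k : Nn b) : dh Nn x h₁ b = h₁ b := if_pos k

theorem dh_out {x : ℝ} {b : κ} (k : ¬Nn b) : dh Nn x h₁ b = x := if_neg k

namespace Ca

theorem mono (H : Ca μ wt Nn c W e s) (a : e ≤ e') (b : s' ≤ s) : Ca μ wt Nn c W e' s' :=
  have k : exp (-s) ≤ exp (-s') := exp_le_exp.2 (neg_le_neg b)
  ⟨fun _ _ _ => (H.ob _ _ _).trans (exp_le_exp.2 a),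
    fun _ _ _ p q l x y => (H.nh _ _ _ p q l x y).trans k, fun _ _ _ p q r => (H.na _ _ _ p q r).trans k,
    fun _ _ _ p q r => (H.an _ _ _ p q r).trans k, fun _ _ _ p q r => (H.v1 _ _ _ p q r).trans k,
    fun _ _ _ p q r => (H.v1' _ _ _ p q r).trans k⟩

/-- The bracket of two boxes lies in a third box. -/
theorem idl3 (H : Ca μ wt Nn c W e s) (m0 : ∀ a, 0 ≤ μ a) (e0 : 0 ≤ e) (v0 : 0 ≤ v) (l0 : 0 ≤ l)
    (lW : l ≤ W) (p1 : ∀ a, μ a ≠ 0 → 0 ≤ h₁ a) (p2 : ∀ a, μ a ≠ 0 → 0 ≤ h₂ a)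
    (p3 : ∀ a, μ a ≠ 0 → h₃ a ≤ s)
    (k : ∀ a b f, 0 < μ a → 0 < μ b → μ f = μ a + μ b → (Nn f ↔ Nn a ∨ Nn b) →
      (Nn a → wt f ≤ wt a) → (Nn b → wt f ≤ wt b) → h₃ f ≤ h₁ a + h₂ b + v) (a b f : κ) :
    |c a b f| * rh μ l h₁ a * rh μ l h₂ b ≤ exp (e + v) * rh μ l h₃ f := by
  have q1 := rh_le (μ := μ) (l := l) (p1 a)
  have q2 := rh_le (μ := μ) (l := l) (p2 b)
  have r1 := (rh_pos μ l h₁ a).le
  have r2 := (rh_pos μ l h₂ b).le
  have c0 := abs_nonneg (c a b f)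
  by_cases z : μ f = 0
  · rw [rh_dead z, mul_one]
    have a1 := q1.trans (exp_le_one_iff.2 (neg_nonpos.2 (mul_nonneg (m0 a) l0)))
    have a2 := q2.trans (exp_le_one_iff.2 (neg_nonpos.2 (mul_nonneg (m0 b) l0)))
    exact ((mul_le_of_le_one_right (mul_nonneg c0 r1) a2).trans (mul_le_of_le_one_right c0 a1)).trans
      ((H.ob a b f).trans (exp_le_exp.2 (by linarith)))
  have f0 : 0 < μ f := (m0 f).lt_of_ne' z
  have sm : |c a b f| * exp ((μ f - μ a - μ b) * l) ≤ exp (-s) →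
      |c a b f| * rh μ l h₁ a * rh μ l h₂ b ≤ exp (e + v) * rh μ l h₃ f := fun t => by
    refine (mul_le_mul (mul_le_mul_of_nonneg_left q1 c0) q2 r2 (by positivity)).trans ?_
    have : |c a b f| * exp (-(μ a * l)) * exp (-(μ b * l)) =
        |c a b f| * exp ((μ f - μ a - μ b) * l) * exp (-(μ f * l)) := by
      rw [mul_assoc, mul_assoc, ← exp_add, ← exp_add]; congr 2; ring
    rw [this, rh_live z, ← exp_add]
    refine (mul_le_mul_of_nonneg_right t (exp_pos _).le).trans ?_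
    rw [← exp_add, exp_le_exp]
    linarith [p3 f z]
  by_cases hw : 0 < μ a ∧ 0 < μ b ∧ μ f = μ a + μ b
  swap
  · exact sm (H.nh a b f f0 hw l l0 lW)
  have sm' : |c a b f| ≤ exp (-s) →
      |c a b f| * rh μ l h₁ a * rh μ l h₂ b ≤ exp (e + v) * rh μ l h₃ f := fun t => sm (by
    rw [hw.2.2, show (μ a + μ b - μ a - μ b) * l = 0 by ring, exp_zero, mul_one]; exact t)
  by_cases n1 : Nn f ↔ Nn a ∨ Nn b
  swap
  · by_cases nf : Nn f
    · have : ¬(Nn a ∨ Nn b) := fun t => n1 (iff_of_true nf t)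
      exact sm' (H.an a b f (fun t => this (Or.inl t)) (fun t => this (Or.inr t)) nf)
    · exact sm' (H.na a b f f0 nf (by_contra fun t => n1 (iff_of_false nf t)))
  by_cases n2 : Nn a → wt f ≤ wt a
  swap
  · push Not at n2
    exact sm' (H.v1' a b f n2.1 (n1.2 (Or.inl n2.1)) n2.2)
  by_cases n3 : Nn b → wt f ≤ wt b
  swap
  · push Not at n3
    exact sm' (H.v1 a b f n3.1 (n1.2 (Or.inr n3.1)) n3.2)
  have := k a b f hw.1 hw.2.1 hw.2.2 n1 n2 n3
  rw [rh_live hw.1.ne', rh_live hw.2.1.ne', rh_live z, mul_assoc, ← exp_add, ← exp_add]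
  refine (mul_le_mul_of_nonneg_right (H.ob a b f) (exp_pos _).le).trans ?_
  rw [← exp_add, exp_le_exp, hw.2.2]
  linarith

/-- The tower: relatives at the level `l + l₁`, charts with depths `x` and `wt * d`, and any
resolution `wt * d + η` with `η` within `v` of `μ * l₁ + wt * d₁ + y`. -/
theorem tow (H : Ca μ wt Nn c W e s) (m0 : ∀ a, 0 ≤ μ a) (e0 : 0 ≤ e) (v0 : 0 ≤ v) (l0 : 0 ≤ l)
    (lW : l ≤ W) {l₁ x d d₁ y : ℝ} {η : κ → ℝ} (l1 : 0 ≤ l₁) (d1 : 0 ≤ d₁)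
    (η0 : ∀ b, Nn b → 0 ≤ η b)
    (η1 : ∀ b, Nn b → μ b * l₁ + wt b * d₁ + y - v ≤ η b ∧ η b ≤ μ b * l₁ + wt b * d₁ + y)
    (d0 : 0 ≤ d) (a1 : ∀ a, μ a * l₁ ≤ x) (a2 : ∀ a, Nn a → μ a * l₁ ≤ wt a * d)
    (a3 : ∀ a f, Nn a → Nn f → η f ≤ wt a * d) (a4 : ∀ f, Nn f → wt f * d + η f ≤ x)
    (xs : x ≤ s) : Tow c (rh μ l fun a => μ a * l₁) (rh μ l (dh Nn x fun a => wt a * d))
      (rh μ l (dh Nn x fun a => wt a * d + η a)) (e + v) := by
  have b0 : ∀ a, 0 ≤ μ a * l₁ := fun a => mul_nonneg (m0 a) l1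
  have b1 : ∀ a, μ a * l₁ ≤ dh Nn x (fun a => wt a * d) a := fun a => by
    by_cases k : Nn a
    · rw [dh_in k]; exact a2 a k
    · rw [dh_out k]; exact a1 a
  have b2 : ∀ a, dh Nn x (fun a => wt a * d) a ≤ dh Nn x (fun a => wt a * d + η a) a := fun a => by
    by_cases k : Nn a
    · rw [dh_in k, dh_in k]; linarith [η0 a k]
    · rw [dh_out k, dh_out k]
  have b3 : ∀ a, dh Nn x (fun a => wt a * d + η a) a ≤ x := fun a => by
    by_cases k : Nn a
    · rw [dh_in k]; exact a4 a k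
    · rw [dh_out k]
  refine ⟨rh_pos _ _ _, fun a => rh_mono fun _ => b2 a, fun a => rh_mono fun _ => b1 a,
    H.idl3 m0 e0 v0 l0 lW (fun a _ => b0 a) (fun a _ => b0 a) (fun a _ => (a1 a).trans xs)
      fun a b f _ _ q _ _ _ => by rw [q]; linarith,
    H.idl3 m0 e0 v0 l0 lW (fun a _ => b0 a) (fun a _ => (b0 a).trans (b1 a))
      (fun a _ => ((b2 a).trans (b3 a)).trans xs) fun a b f _ _ _ n _ q => ?_,
    H.idl3 m0 e0 v0 l0 lW (fun a _ => b0 a) (fun a _ => ((b0 a).trans (b1 a)).trans (b2 a))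
      (fun a _ => (b3 a).trans xs) fun a b f _ _ w n _ q => ?_,
    H.idl3 m0 e0 v0 l0 lW (fun a _ => (b0 a).trans (b1 a)) (fun a _ => (b0 a).trans (b1 a))
      (fun a _ => (b3 a).trans xs) fun a b f _ _ _ n p q => ?_⟩
  · by_cases k : Nn b
    · rw [dh_in k, dh_in (n.2 (Or.inr k))]
      linarith [b0 a, mul_le_mul_of_nonneg_right (q k) d0]
    · rw [dh_out k]
      linarith [b0 a, b2 f, b3 f]
  · by_cases k : Nn b
    · have f := n.2 (Or.inr k)
      rw [dh_in k, dh_in f]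
      have := (η1 _ f).2
      rw [w] at this
      linarith [(η1 b k).1, mul_le_mul_of_nonneg_right (q k) d0, mul_le_mul_of_nonneg_right (q k) d1]
    · rw [dh_out k]
      linarith [b0 a, b3 f]
  · by_cases k : Nn b
    · by_cases k' : Nn a
      · have f := n.2 (Or.inr k)
        rw [dh_in k, dh_in k', dh_in f]
        linarith [a3 a _ k' f, mul_le_mul_of_nonneg_right (q k) d0]
      · rw [dh_out k']
        linarith [b0 b, b1 b, b3 f]
    · rw [dh_out k]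
      linarith [b0 a, b1 a, b3 f]

/-- The plain boxes: depth `x` off the ideal and a constant depth `y ≤ x` on it. -/
theorem plain (H : Ca μ wt Nn c W e s) (m0 : ∀ a, 0 ≤ μ a) (e0 : 0 ≤ e) (l0 : 0 ≤ l) (lW : l ≤ W)
    {x y y' : ℝ} (y0 : 0 ≤ y) (yx : y ≤ x) (y0' : 0 ≤ y') (yx' : y' ≤ x) (xs : x ≤ s) :
    Idl c (rh μ l (dh Nn x fun _ => y)) (rh μ l (dh Nn x fun _ => y')) (exp e) := by
  have b : ∀ {y : ℝ}, 0 ≤ y → y ≤ x → ∀ a, 0 ≤ dh Nn x (fun _ => y) a ∧ dh Nn x (fun _ => y) a ≤ x :=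
    fun y0 yx a => by
      by_cases k : Nn a
      · rw [dh_in k]; exact ⟨y0, yx⟩
      · rw [dh_out k]; exact ⟨y0.trans yx, le_rfl⟩
  have := H.idl3 (h₃ := dh Nn x fun _ => y') m0 e0 le_rfl l0 lW (fun a _ => (b y0 yx a).1)
    (fun a _ => (b y0' yx' a).1) (fun a _ => (b y0' yx' a).2.trans xs) fun a b' f _ _ _ n _ _ => by
      by_cases k : Nn b'
      · rw [dh_in k, dh_in (n.2 (Or.inr k))]; linarith [(b y0 yx a).1]
      · rw [dh_out k]; linarith [(b y0 yx a).1, (b y0' yx' f).2]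
  rwa [add_zero] at this

end Ca

/-! ### The constants of a cap -/

/-- The constants of a sample: bounded, graded for both weights up to `exp (-w)`. -/
structure Bi (μ vt : κ → ℝ) (c : κ → κ → κ → ℝ) (W e w : ℝ) : Prop where
  m0 : ∀ a, 0 ≤ μ a
  v0 : ∀ a, 0 ≤ vt a
  dead : ∀ a, μ a = 0 → vt a = 0
  ob : ∀ a b f, |c a b f| ≤ exp e
  gr : ∀ a b f, 0 < μ f → vt f ≠ vt a + vt b → |c a b f| ≤ exp (-w)
  nh : ∀ a b f, 0 < μ f → ¬(0 < μ a ∧ 0 < μ b ∧ μ f = μ a + μ b) → ∀ l, 0 ≤ l → l ≤ W →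
    |c a b f| * exp ((μ f - μ a - μ b) * l) ≤ exp (-w)

theorem abs_sc (vt : κ → ℝ) (c : κ → κ → κ → ℝ) (D : ℝ) (a b f : κ) :
    |sC (fun a => exp (-(vt a * D))) c a b f| = |c a b f| * exp ((vt f - vt a - vt b) * D) := by
  have : sC (fun a => exp (-(vt a * D))) c a b f = c a b f * exp ((vt f - vt a - vt b) * D) := by
    rw [sC, mul_assoc, mul_div_assoc, ← exp_add, ← exp_sub]; congr 2; ring
  rw [this, abs_mul, abs_of_pos (exp_pos _)]

/-- The constants in the units of the cap of depth `D`. -/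
theorem Bi.ca {w D V w₀ : ℝ} (H : Bi μ vt c W e w) (e0 : 0 ≤ e) (D0 : 0 ≤ D) (hV : ∀ a, vt a ≤ V)
    (s0 : 0 ≤ s) (hs : s + V * D ≤ w) :
    Ca μ (fun _ => w₀) (fun a => 0 < vt a) (sC (fun a => exp (-(vt a * D))) c) W e s := by
  have x : ∀ a b f, exp ((vt f - vt a - vt b) * D) ≤ exp (V * D) := fun a b f =>
    exp_le_exp.2 (mul_le_mul_of_nonneg_right (by linarith [hV f, H.v0 a, H.v0 b]) D0)
  have y : ∀ {t : ℝ} a b f, 0 ≤ t → t ≤ exp (-w) → t * exp ((vt f - vt a - vt b) * D) ≤ exp (-s) :=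
    fun a b f t0 t => (mul_le_mul t (x a b f) (exp_pos _).le (exp_pos _).le).trans
      (by rw [← exp_add, exp_le_exp]; linarith)
  have z : ∀ a b f, 0 < μ f → vt f ≠ vt a + vt b →
      |sC (fun a => exp (-(vt a * D))) c a b f| ≤ exp (-s) := fun a b f p q => by
    rw [abs_sc]; exact y a b f (abs_nonneg _) (H.gr a b f p q)
  refine ⟨fun a b f => ?_, fun a b f p q l l0 lW => ?_, fun a b f p q r => z a b f p ?_,
    fun a b f p q r => z a b f ?_ ?_, fun _ _ _ _ _ k => (lt_irrefl _ k).elim,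
    fun _ _ _ _ _ k => (lt_irrefl _ k).elim⟩
  · by_cases k : (vt f - vt a - vt b) * D ≤ 0
    · rw [abs_sc]
      exact (mul_le_of_le_one_right (abs_nonneg _) (exp_le_one_iff.2 k)).trans (H.ob a b f)
    · have k1 : 0 < vt f - vt a - vt b := by
        by_contra t
        exact k (mul_nonpos_of_nonpos_of_nonneg (not_lt.1 t) D0)
      have f0 : 0 < μ f := (H.m0 f).lt_of_ne' fun t => by
        linarith [H.dead f t, H.v0 a, H.v0 b]
      exact (z a b f f0 (by linarith)).trans (exp_le_exp.2 (by linarith))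
  · rw [abs_sc, mul_right_comm]
    exact y a b f (by positivity) (H.nh a b f p q l l0 lW)
  · have := H.v0 f
    rcases r with r | r <;> intro t <;> linarith [H.v0 a, H.v0 b, not_lt.1 q]
  · exact (H.m0 f).lt_of_ne' fun t => by linarith [H.dead f t]
  · intro t; linarith [H.v0 a, H.v0 b, not_lt.1 p, not_lt.1 q]

section Chg

variable [Fintype κ] [DecidableEq κ] {g g' : Matrix κ κ ℝ}

theorem mC_diag (g g' : Matrix κ κ ℝ) (ρ ρ' : κ → ℝ) (h : ∀ a, ρ a * ρ' a = 1)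
    (c : κ → κ → κ → ℝ) : mC (g * diagonal ρ) (diagonal ρ' * g') c = mC g g' (sC ρ c) := by
  funext a b f
  simp only [mC, vecMul, dotProduct, AN.GA.br, mul_diagonal, diagonal_mul, sC, sum_mul]
  refine sum_congr rfl fun e _ => sum_congr rfl fun x _ => sum_congr rfl fun y _ => ?_
  rw [div_eq_mul_inv, inv_eq_of_mul_eq_one_right (h e)]
  ring

omit [DecidableEq κ] in
/-- A bound for the constants after a change of basis, from the terms that occur. -/
theorem mC_term {L X t : ℝ} (ob : ∀ a b, |g a b| ≤ L ∧ |g' a b| ≤ L) (X0 : 0 ≤ X) (t0 : 0 ≤ t)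
    {a b f : κ} (h : ∀ a' b' f', g a a' ≠ 0 → g b b' ≠ 0 → g' f' f ≠ 0 → |c a' b' f'| * t ≤ X) :
    |mC g g' c a b f| * t ≤ Fintype.card κ ^ 3 * L ^ 3 * X := by
  have L0 : 0 ≤ L := (abs_nonneg _).trans (ob a a).1
  have q : ∀ (F : κ → ℝ) (Y : ℝ), (∀ x, |F x| ≤ Y) → |∑ x, F x| ≤ Fintype.card κ * Y := fun F Y k =>
    (abs_sum_le_sum_abs _ _).trans ((sum_le_card_nsmul _ _ Y fun x _ => k x).trans_eq
      (by rw [nsmul_eq_mul, card_univ]))
  have e : mC g g' c a b f * t = ∑ f', ∑ a', ∑ b', c a' b' f' * t * (g a a' * g b b' * g' f' f) := by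
    simp only [mC, vecMul, dotProduct, AN.GA.br, sum_mul]
    exact sum_congr rfl fun _ _ => sum_congr rfl fun _ _ => sum_congr rfl fun _ _ => by ring
  rw [← abs_of_nonneg t0, ← abs_mul, e]
  refine (q _ _ fun f' => q _ _ fun a' => q _ (L ^ 3 * X) fun b' => ?_).trans_eq (by ring)
  by_cases z : g a a' * g b b' * g' f' f = 0
  · rw [z, mul_zero, abs_zero]; positivity
  · rw [abs_mul, abs_mul (c _ _ _), abs_of_nonneg t0, abs_mul, abs_mul, mul_comm]
    refine mul_le_mul ?_ (h a' b' f' (left_ne_zero_of_mul (left_ne_zero_of_mul z))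
      (right_ne_zero_of_mul (left_ne_zero_of_mul z)) (right_ne_zero_of_mul z)) (by positivity)
      (by positivity)
    rw [pow_succ, sq]
    exact mul_le_mul (mul_le_mul (ob _ _).1 (ob _ _).1 (abs_nonneg _) L0) (ob _ _).2
      (abs_nonneg _) (by positivity)

omit [DecidableEq κ] in
theorem cube_le (e : ℝ) :
    (Fintype.card κ : ℝ) ^ 3 * exp e ^ 3 ≤ exp (3 * (Fintype.card κ + e)) := by
  rw [← mul_pow, show (3 : ℝ) = (3 : ℕ) by norm_num, exp_nat_mul, exp_add]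
  exact pow_le_pow_left₀ (by positivity) (mul_le_mul_of_nonneg_right
    ((le_add_of_nonneg_right zero_le_one).trans (add_one_le_exp _)) (exp_pos _).le) 3

omit [DecidableEq κ] in
/-- The constants in an adapted basis. -/
theorem Ca.chg {wt' : κ → ℝ} {r : ℝ} (H : Ca μ wt Nn c W e s)
    (ob : ∀ a b, |g a b| ≤ exp e' ∧ |g' a b| ≤ exp e')
    (gr : ∀ a b, g a b ≠ 0 ∨ g' a b ≠ 0 → μ a = μ b ∧ (Nn a ↔ Nn b))
    (anti : ∀ a b f, mC g g' c a b f = -mC g g' c b a f)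
    (v1 : ∀ a b f, Nn b → Nn f → wt' b < wt' f → |mC g g' c a b f| ≤ exp (-r))
    (hr : r + 3 * (Fintype.card κ + e') ≤ s) :
    Ca μ wt' Nn (mC g g' c) W (e + 3 * (Fintype.card κ + e')) r := by
  have k : ∀ {x t : ℝ} {a b f : κ}, 0 ≤ t →
      (∀ a' b' f', μ a = μ a' ∧ (Nn a ↔ Nn a') → μ b = μ b' ∧ (Nn b ↔ Nn b') →
        μ f' = μ f ∧ (Nn f' ↔ Nn f) → |c a' b' f'| * t ≤ exp x) →
      |mC g g' c a b f| * t ≤ exp (x + 3 * (Fintype.card κ + e')) := fun t0 h =>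
    (mC_term ob (exp_pos _).le t0 fun a' b' f' p q r =>
      h a' b' f' (gr _ _ (Or.inl p)) (gr _ _ (Or.inl q)) (gr _ _ (Or.inr r))).trans (by
        rw [exp_add, mul_comm (exp _)]
        exact mul_le_mul_of_nonneg_right (cube_le e') (exp_pos _).le)
  have k' : exp (-s + 3 * (Fintype.card κ + e')) ≤ exp (-r) := exp_le_exp.2 (by linarith)
  refine ⟨fun a b f => ?_, fun a b f p q l l0 lW => (k (exp_pos _).le fun a' b' f' x y z => ?_).trans k',
    fun a b f p q n => ?_, fun a b f p q n => ?_, v1, fun a b f p q n => ?_⟩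
  · simpa using k (t := 1) zero_le_one fun a' b' f' _ _ _ => by simpa using H.ob a' b' f'
  · rw [x.1, y.1, ← z.1] at q ⊢
    exact H.nh a' b' f' (z.1 ▸ p) q l l0 lW
  · refine le_trans ?_ k'
    simpa using k (t := 1) zero_le_one fun a' b' f' x y z => by
      simpa using H.na a' b' f' (z.1 ▸ p) (fun t => q (z.2.1 t)) (n.imp x.2.1 y.2.1)
  · refine le_trans ?_ k'
    simpa using k (t := 1) zero_le_one fun a' b' f' x y z => by
      simpa using H.an a' b' f' (fun t => p (x.2.2 t)) (fun t => q (y.2.2 t)) (z.2.2 n)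
  · rw [anti, abs_neg]; exact v1 b a f p q n

end Chg

end Pool.Agent.MP_5168f5_an.QA.SC
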