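import Pool.Agent.MP_4b405e_nt.SK.SpC
import Pool.Agent.MP_4b405e_nt.SK.GTow
import Pool.Agent.MP_4b405e_nt.SK.GLk0

/-! Sparse heights, block C: the next context determines the context and the first digits. -/

namespace Pool.Agent.MP_5168f5_an.QA.SC

namespace D3

open H19 H17S H17F R4 AN Filter Matrix Real Finset
open GA (Mt IsFr br mB mC sB sC cell rnd)
open GA.CR (Tow Kit)

variable {ι κ : Type} [Fintype ι] [DecidableEq ι] [Fintype κ] [DecidableEq κ] {σ : Kk ι κ}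
  {Y : Wd ι κ} {p : Pm} {K e w r δ : ℝ}

/-- Short lists on an event, from short lists under the conditional law. -/
theorem dt_of {Ω α β γ : Type} {P : FP Ω} {E : Ω → Prop} {F : Ω → α} {F' : Ω → γ} {G : Ω → β}
    {v : ℝ} (h : (∀ ω ∈ (cE P E).S, E ω) → Det (cE P E) F' G (exp v))
    (f : ∀ a ∈ P.S, ∀ b ∈ P.S, G a = G b → F' a = F' b → F a = F b) : Dt P E F G v := by
  classical
  intro y
  by_cases k : ∃ a ∈ P.S, E a ∧ G a = y
  swap
  · exact ⟨∅, by simpa using (exp_pos v).le, fun ω a b c => absurd ⟨ω, a, b, c⟩ k⟩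
  obtain ⟨a, a1, a2, rfl⟩ := k
  have m := mem_cE (P := P) ⟨a, a1, a2⟩
  obtain ⟨T, t1, t2⟩ := h (fun ω o => ((m ω).1 o).2) a ((m a).2 ⟨a1, a2⟩)
  let g : γ → α := fun z => if q : ∃ b ∈ P.S, G b = G a ∧ F' b = z then F q.choose else F a
  refine ⟨T.image g, (Nat.cast_le.2 card_image_le).trans t1, fun ω o1 o2 o3 =>
    mem_image.2 ⟨_, t2 ω ((m ω).2 ⟨o1, o2⟩) o3, ?_⟩⟩
  have q : ∃ b ∈ P.S, G b = G a ∧ F' b = F' ω := ⟨ω, o1, o3, rfl⟩
  exact (dif_pos q).trans (f _ q.choose_spec.1 ω o1 (q.choose_spec.2.1.trans o3.symm)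
    q.choose_spec.2.2)

/-- The order of the parameters. -/
theorem ord (H : Y.Hyp σ p K e w r δ) (K1 : 1 ≤ K) : 1 ≤ e ∧ e ≤ p.u ∧ (p.u : ℝ) ≤ p.L ∧
    (p.L : ℝ) ≤ p.d0 ∧ (p.d0 : ℝ) ≤ p.xA ∧ (p.xA : ℝ) ≤ p.kD * Y.ms ∧ p.xA ≤ r ∧
    ∀ i < Y.nD, 0 ≤ Y.D i ∧ Y.D i + p.kD * Y.ms ≤ Y.D Y.nT := by
  have n := H.num
  have d0 := n.d0
  have d1 : δ ≤ 1 := (le_mul_of_one_le_left d0.le K1).trans n.d1
  have up : ∀ {x y : ℝ}, 0 ≤ x → K * x ≤ y → x ≤ y := fun a b =>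
    (le_mul_of_one_le_left a K1).trans b
  have a1 := (up (Nat.cast_nonneg _) n.xn).trans (up (Nat.cast_nonneg _) n.nk)
  have m0 := H.ok.ms.1.le
  refine ⟨K1.trans n.e1, n.eu.trans (mul_le_of_le_one_left (Nat.cast_nonneg _)
    (pow_le_one₀ d0.le d1)), n.uL.trans (mul_le_of_le_one_left (Nat.cast_nonneg _) d1),
    up (Nat.cast_nonneg _) n.Ld, up (Nat.cast_nonneg _) n.dx, a1,
    a1.trans (up (by positivity) n.kr), fun i hi => ⟨by unfold Wd.D; positivity, ?_⟩⟩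
  unfold Wd.D
  rw [← add_mul]
  refine mul_le_mul_of_nonneg_right ?_ m0
  have := n.nT
  exact_mod_cast (by omega : i + p.kD ≤ Y.nT)

/-- The basis of the class and its constants. -/
theorem ca (h : σ.Ok) (H : Y.Hyp σ p K e w r δ) (K1 : Fintype.card κ + 6 ≤ K)
    (K2 : ∀ a, σ.vt a + 6 ≤ K) {i : ℕ} (hi : i < Y.nD) {ω : Y.Ω} (hω : ω ∈ Y.P.S) (hE : Y.E i ω) :
    IsFr σ.Φ (Y.Bk σ i (Y.cp i ω)) (Y.ck σ i (Y.cp i ω)) ∧
      Ca σ.mu σ.wt σ.Nn (Y.ck σ i (Y.cp i ω)) Y.W (7 * e) r := by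
  have c0 : (0 : ℝ) ≤ Fintype.card κ := Nat.cast_nonneg _
  obtain ⟨e1, o1, o2, o3, o4, o5, o6, o7⟩ := ord H (by linarith)
  obtain ⟨D0, D1⟩ := o7 i hi
  have v := H.st.val i hi ω hω hE
  have m := v.mem.1
  have x : ∀ a, exp (-(σ.vt a * Y.D i)) * exp (σ.vt a * Y.D i) = 1 := fun a => by
    rw [← exp_add, neg_add_cancel, exp_zero]
  have f : IsFr σ.Φ (Y.Bk σ i (Y.cp i ω)) (Y.ck σ i (Y.cp i ω)) :=
    Cp.fr_mB (H.ok.fr _ m).2.1 (by
      rw [Wd.A, Wd.A1, mul_assoc, ← mul_assoc (diagonal _), diagonal_mul_diagonal, funext x,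
        diagonal_one, one_mul, v.inv])
  have ek := H.num.e1
  have nn : ∀ a, σ.Nn a ↔ 0 < σ.vt a := fun a => sub_pos.symm
  have b : Bi σ.mu σ.vt (Y.X.c (Y.v0 i (Y.cp i ω))) Y.W e w :=
    ⟨h.m0, fun a => sub_nonneg.2 (h.vt0 a), fun a z => by rw [Kk.vt, h.dead a z, z, sub_zero],
      (H.ok.alg _ m).ob, fun a b f z q => (H.ok.alg _ m).gr a b f z fun t => q (by
        unfold Kk.vt; linarith [t.2.2.1, t.2.2.2]), H.ok.algL _ m⟩
  have c := b.ca (D := Y.D i) (V := K - 6) (w₀ := 0) (s := r + 6 * e) (by linarith) D0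
    (fun a => by linarith [K2 a]) (by linarith [Nat.cast_nonneg (α := ℝ) p.xA]) (by
      have := H.num.rw
      nlinarith [mul_le_mul_of_nonneg_left D1 (show 0 ≤ K - 6 by linarith)])
  rw [← funext fun a => propext (nn a)] at c
  have q : Y.ck σ i (Y.cp i ω) = mC (Y.g i (Y.cp i ω)) (Y.g1 i (Y.cp i ω))
      (sC (fun a => exp (-(σ.vt a * Y.D i))) (Y.X.c (Y.v0 i (Y.cp i ω)))) := mC_diag _ _ _ _ x _
  refine ⟨f, ?_⟩
  have an := (GA.sMul _ _ _ _ _ f).anti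
  have v1 := v.v1
  rw [q] at an v1 ⊢
  refine (c.chg v.bd (fun a b z => ⟨v.gr a b z, ?_⟩) an v1 (by linarith)).mono (by linarith) le_rfl
  by_contra t
  have u : ¬σ.Nn a ∨ ¬σ.Nn b := by tauto
  have y : a ≠ b := fun y => t (y ▸ Iff.rfl)
  rw [(v.id a b u).1, (v.id a b u).2, one_apply_ne y] at z
  simp at z

omit [Fintype κ] [DecidableEq κ] in
open Classical in
theorem rad_eq (h : σ.Ok) (t : ℕ) (n : κ → ℕ) :
    Wd.r0 σ p t = rh σ.mu (Wd.l0 σ p t) (dh σ.Nn p.xA fun a => σ.wt a * p.d0) ∧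
    (fun b => if σ.Nn b then Wd.r0 σ p t b / 2 ^ n b else Wd.r0 σ p t b) =
      rh σ.mu (Wd.l0 σ p t) (dh σ.Nn p.xA fun a => σ.wt a * p.d0 + n a * lg) := by
  constructor <;> funext b <;> simp only [Wd.r0, Kk.rad, rh, dh]
  · split_ifs <;> simp
  · by_cases k : σ.Nn b
    · have z : σ.mu b ≠ 0 := fun z => by
        have := h.dead b z
        unfold Kk.Nn at k
        linarith
      simp only [if_pos k, if_neg z]
      rw [div_eq_iff (by positivity), ← exp_log (show (0 : ℝ) < 2 ^ n b by positivity), ← exp_add,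
        log_pow, lg]
      congr 1
      ring
    · simp only [if_neg k]

/-- The towers of the charts. -/
theorem tw (h : σ.Ok) (H : Y.Hyp σ p K e w r δ) (K1 : Fintype.card κ + 6 ≤ K)
    (K3 : ∀ a b f, 2 * σ.mu a + 2 * σ.wt b ≤ K * min 1 (σ.wt f))
    {c : κ → κ → κ → ℝ} (C : Ca σ.mu σ.wt σ.Nn c Y.W (7 * e) r) {t : ℕ} (ht : t ≤ p.N)
    {l d : ℝ} (l0 : 0 ≤ l) (l1 : l ≤ 2 * p.L) (d0 : 0 ≤ d) (d1 : d ≤ p.L) {n : κ → ℕ}
    (hn : ∀ b, σ.mu b * l + σ.wt b * d - 2 ≤ n b * lg ∧ n b * lg ≤ σ.mu b * l + σ.wt b * d) :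
    Tow c (rh σ.mu (Wd.l0 σ p t) fun a => σ.mu a * l)
      (rh σ.mu (Wd.l0 σ p t) (dh σ.Nn p.xA fun a => σ.wt a * p.d0))
      (rh σ.mu (Wd.l0 σ p t) (dh σ.Nn p.xA fun a => σ.wt a * p.d0 + n a * lg)) (9 * e) := by
  have c0 : (0 : ℝ) ≤ Fintype.card κ := Nat.cast_nonneg _
  obtain ⟨e1, o1, o2, o3, o4, o5, o6, o7⟩ := ord H (by linarith)
  have g0 : 0 < lg := log_pos one_lt_two
  have L0 : (0 : ℝ) ≤ p.L := Nat.cast_nonneg _
  have lW : (Wd.l0 σ p t : ℝ) ≤ Y.W := by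
    have a1 : (Wd.l0 σ p t : ℝ) ≤ p.N * Wd.u1 σ p := by
      exact_mod_cast Nat.mul_le_mul_right _ ht
    have a2 : (Y.W1 : ℝ) ≤ Y.W := by exact_mod_cast H.ok.w1
    have a3 : 0 ≤ K * Y.D Y.nT := mul_nonneg (by linarith)
      (mul_nonneg (Nat.cast_nonneg _) H.ok.ms.1.le)
    linarith [H.num.up]
  have k1 : ∀ a b f, σ.mu a * l + σ.wt b * d ≤ min 1 (σ.wt f) * p.d0 := fun a b f => by
    have m0 : 0 ≤ min 1 (σ.wt f) := le_min zero_le_one (h.w0 f).le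
    nlinarith [mul_le_mul_of_nonneg_left l1 (h.m0 a), mul_le_mul_of_nonneg_left d1 (h.w0 b).le,
      mul_le_mul_of_nonneg_right (K3 a b f) L0, mul_le_mul_of_nonneg_left H.num.Ld m0,
      mul_nonneg (h.w0 b).le L0]
  have D0 : (0 : ℝ) ≤ p.d0 := Nat.cast_nonneg _
  have k2 : ∀ a b, σ.mu a * l + σ.wt b * d ≤ p.d0 := fun a b =>
    (k1 a b b).trans (mul_le_of_le_one_left D0 (min_le_left _ _))
  have k3 : ∀ a b f, σ.mu a * l + σ.wt b * d ≤ σ.wt f * p.d0 := fun a b f =>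
    (k1 a b f).trans (mul_le_mul_of_nonneg_right (min_le_right _ _) D0)
  have wd : ∀ b, 0 ≤ σ.wt b * d := fun b => mul_nonneg (h.w0 b).le d0
  refine (C.tow (v := 2) (y := 0) h.m0 (by linarith) zero_le_two (Nat.cast_nonneg _) lW l0 d0
    (fun b _ => by positivity) (fun b _ => by simpa using hn b) D0
    (fun a => by linarith [k2 a a, wd a]) (fun a _ => by linarith [k3 a a a, wd a])
    (fun a f _ _ => (hn f).2.trans (k3 f f a)) (fun f _ => ?_) o6).up (by linarith)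
  have a1 := (K3 f f f).trans (mul_le_of_le_one_right (by linarith) (min_le_left _ _))
  nlinarith [(hn f).2, k2 f f, H.num.dx, h.m0 f,
    mul_le_mul_of_nonneg_right (show σ.wt f + 1 ≤ K by linarith [h.m0 f]) D0]

theorem flo {x : ℝ} (h : 0 ≤ x) : x - 1 ≤ (⌊x / lg⌋₊ : ℝ) * lg ∧ (⌊x / lg⌋₊ : ℝ) * lg ≤ x := by
  have g0 : 0 < lg := log_pos one_lt_two
  have g1 : lg ≤ 1 := (log_le_sub_one_of_pos two_pos).trans (by norm_num)
  have a := (div_lt_iff₀ g0).1 (Nat.lt_floor_add_one (x / lg))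
  exact ⟨by linarith, (le_div_iff₀ g0).1 (Nat.floor_le (div_nonneg h g0.le))⟩

theorem rowD3 : RowD3 := by
  intro ι κ _ _ _ _ σ h
  classical
  obtain ⟨C, kit⟩ := GA.CR.kit σ.Φ.N (Fintype.card κ)
  obtain ⟨A, hA⟩ := Finite.exists_le fun a => σ.vt a + 6
  obtain ⟨B, hB⟩ := Finite.exists_le fun x : κ × κ × κ =>
    (2 * σ.mu x.1 + 2 * σ.wt x.2.1) / min 1 (σ.wt x.2.2)
  obtain ⟨K, K1, K2, K3, K4⟩ : ∃ K : ℝ, Fintype.card κ + 6 ≤ K ∧ A ≤ K ∧ B ≤ K ∧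
      (2 + 12 * Fintype.card κ) * C ^ 3 * ((C + 1) * 9) ≤ K :=
    ⟨max (max _ _) (max _ _), le_max_of_le_left (le_max_left _ _),
      le_max_of_le_left (le_max_right _ _), le_max_of_le_right (le_max_left _ _),
      le_max_of_le_right (le_max_right _ _)⟩
  have c0 : (0 : ℝ) ≤ Fintype.card κ := Nat.cast_nonneg _
  refine ⟨K, by linarith, fun Y p e w r δ H i hi t ht l hl d hd => ?_⟩
  have K5 : ∀ a b f, 2 * σ.mu a + 2 * σ.wt b ≤ K * min 1 (σ.wt f) := fun a b f =>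
    (div_le_iff₀ (lt_min one_pos (h.w0 f))).1 ((hB (a, b, f)).trans K3)
  obtain ⟨e1, o1, o2, -⟩ := ord H (by linarith)
  have g0 : 0 < lg := log_pos one_lt_two
  have l1 : (l : ℝ) ≤ p.L := by exact_mod_cast hl.le
  have d1 : (d : ℝ) ≤ p.L := by exact_mod_cast hd.le
  have u0 : (0 : ℝ) ≤ Wd.u1 σ p := Nat.cast_nonneg _
  have u2 : (σ.C : ℝ) * Wd.u1 σ p ≤ p.u := by exact_mod_cast Nat.mul_div_le p.u σ.C
  have u1 : (Wd.u1 σ p : ℝ) ≤ p.u := by exact_mod_cast Nat.div_le_self _ _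
  obtain ⟨hd, ed⟩ : ∃ hd : κ → ℕ, hd = fun b => ⌊σ.mu b * Wd.u1 σ p / lg⌋₊ := ⟨_, rfl⟩
  have f1 := fun b => flo (mul_nonneg (h.m0 b) u0)
  have f2 := fun b => flo (add_nonneg (mul_nonneg (h.m0 b) (Nat.cast_nonneg l))
    (mul_nonneg (h.w0 b).le (Nat.cast_nonneg d)))
  have hu : ∀ b, hd b ≤ p.u := fun b => by
    rw [ed]
    refine Nat.floor_le_of_le ?_
    rw [div_le_iff₀ g0]
    nlinarith [mul_le_mul_of_nonneg_right (h.mC b) u0]
  obtain ⟨n, en⟩ : ∃ n : κ → ℕ, n = Wd.nn σ (i, t, l, d) := ⟨_, rfl⟩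
  obtain ⟨s, es⟩ : ∃ s : κ → ℝ, s = fun b => if σ.Nn b then Wd.r0 σ p t b / 2 ^ (n b + hd b)
    else Wd.r0 σ p t b := ⟨_, rfl⟩
  have r1 := rad_eq (p := p) h t fun b => n b + hd b
  have r2 := rad_eq (p := p) h (t + 1) n
  have s2 : Wd.ss σ p (i, t + 1, l, d) = _ := (show _ = _ by rw [en]; rfl).trans r2.2
  have f3 : ∀ b, σ.mu b * l + σ.wt b * d - 1 ≤ n b * lg ∧ n b * lg ≤ σ.mu b * l + σ.wt b * d :=
    en ▸ f2
  refine dt_of (F' := fun ω => rnd (Y.Bk σ i (Y.cp i ω)) (Wd.r0 σ p t) s (Y.X.j ω)) (fun hE => ?_)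
    fun a _ b _ q q' => ?_
  · have c := fun ω o => ca h H K1 (fun a => (hA a).trans K2) hi (cE_sub o) (hE ω o)
    have k := GA.CR.det_two (P := cE Y.P (Y.E i)) (G := Y.K σ p (i, t + 1, l, d))
      (r := fun _ => Wd.r0 σ p t) (s := fun _ => s) (r' := fun _ => Wd.r0 σ p (t + 1))
      (s' := fun _ => Wd.ss σ p (i, t + 1, l, d)) (u := 9 * e) kit le_rfl (by linarith)
      (fun ω o => ⟨(c ω o).1, by
        rw [es, r1.2, r1.1]
        exact tw h H K1 K5 (c ω o).2 ht.le (l := l + Wd.u1 σ p) (by positivity) (by linarith)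
          (Nat.cast_nonneg d) d1 fun b => by
            rw [ed]
            push_cast
            constructor <;> linarith [(f1 b).1, (f1 b).2, (f3 b).1, (f3 b).2],
        (H.ok.fr ω (cE_sub o)).1⟩)
      (fun ω o => by
        rw [s2, r2.1]
        exact tw h H K1 K5 (c ω o).2 ht (Nat.cast_nonneg l) (by linarith)
          (Nat.cast_nonneg d) d1 fun b => ⟨by linarith [(f3 b).1], (f3 b).2⟩)
      (fun ω _ b => by
        rw [s2, es, r1.2]
        refine le_trans ?_ (le_mul_of_one_le_left (rh_pos _ _ _ _).le (one_le_exp (by linarith)))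
        by_cases z : σ.mu b = 0
        · rw [rh_dead z, rh_dead z]
        rw [rh_live z, rh_live z, exp_le_exp, show (Wd.l0 σ p (t + 1) : ℝ) =
          Wd.l0 σ p t + Wd.u1 σ p by simp [Wd.l0, add_mul]]
        by_cases k : σ.Nn b
        · rw [dh_in k, dh_in k, ed]
          push_cast
          linarith [(f1 b).2]
        · rw [dh_out k, dh_out k]
          linarith [mul_nonneg (h.m0 b) u0])
      fun a _ b _ q => by
        have q1 : Y.cp i a = Y.cp i b := congrArg (·.2.1) q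
        have q2 := congrArg (·.2.2) q
        simp only [Prod.mk.injEq, q1, true_and]
        simpa only [Wd.K, q1] using q2
    exact fun a ha => (k a ha).imp fun T x => ⟨x.1.trans (exp_le_exp.2 (by
      nlinarith [mul_le_mul_of_nonneg_right K4 (show 0 ≤ e by linarith)])), x.2⟩
  · have q1 : Y.cp i a = Y.cp i b := congrArg (·.2.1) q
    have q2 : cell (Y.Bk σ i (Y.cp i a)) (Wd.r0 σ p t) (Y.X.j a) =
      cell (Y.Bk σ i (Y.cp i b)) (Wd.r0 σ p t) (Y.X.j b) := congrArg Prod.fst q'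
    have q3 := congrFun (congrArg Prod.snd q')
    have q4 : ∀ f, σ.Nn f → fl1 (hd f) (GA.CR.nu (Y.Bk σ i (Y.cp i a)) (Wd.r0 σ p t) (Y.X.j a) f /
        Wd.ss σ p (i, t, l, d) f) = fl1 (hd f) (GA.CR.nu (Y.Bk σ i (Y.cp i b)) (Wd.r0 σ p t)
          (Y.X.j b) f / Wd.ss σ p (i, t, l, d) f) := fun f k => by
      have x : ∀ y : ℝ, 2 ^ hd f * (y / Wd.ss σ p (i, t, l, d) f) = y / s f := fun y => by
        simp only [es, Wd.ss, if_pos k, ← en, pow_add]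
        rw [div_div_eq_mul_div, div_div_eq_mul_div]
        ring
      rw [fl1, fl1, x, x]
      exact q3 f
    have q5 : ∀ f, ⌊GA.CR.nu (Y.Bk σ i (Y.cp i a)) (Wd.r0 σ p t) (Y.X.j a) f /
        Wd.ss σ p (i, t, l, d) f⌋ = ⌊GA.CR.nu (Y.Bk σ i (Y.cp i b)) (Wd.r0 σ p t)
          (Y.X.j b) f / Wd.ss σ p (i, t, l, d) f⌋ := fun f => by
      by_cases k : σ.Nn f
      · simpa [fl1] using fl1_eq_of_le (Nat.zero_le _) (q4 f k)
      · have x : Wd.ss σ p (i, t, l, d) f = s f := by simp only [es, Wd.ss, if_neg k]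
        rw [x]
        exact q3 f
    refine Prod.ext (Prod.ext rfl (Prod.ext q1 (Prod.ext q2 (funext q5)))) (funext fun q => ?_)
    obtain _ | f := q
    · rfl
    · have := hu f.1
      have q6 := q4 f.1 f.2
      rw [ed] at this q6
      exact (GA.CR.fl1_dz this _).trans ((congrArg₂ (fun x y : ℤ => x - 2 ^ _ * y) q6
        (q5 f.1)).trans (GA.CR.fl1_dz this _).symm)

end D3

theorem rowD3 : RowD3 := D3.rowD3

end Pool.Agent.MP_5168f5_an.QA.SC
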