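import Pool.Agent.MP_4b405e_nt.SK.Free
import Pool.Agent.MP_5168f5_an.H17F.Sq2
import Pool.Agent.MP_5168f5_an.R4.K31Dn

/-! Sparse heights: the two free side variables, for laws that are dominated by a product law. -/

namespace Pool.Agent.MP_5168f5_an.QA.Free

open H19 H17S H17F Finset
open R4.K31 (Dn)

variable {Ω Ω' X W α β γ δ ζ η : Type} {C : ℝ}

theorem mi_prod (U : FP X) (P : FP Ω) (F : Ω → α) (G : Ω → β) :
    mi (prod U P) (fun z => F z.2) (fun z => G z.2) Prod.fst = mi P F G fun _ => () := by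
  have e := mi_par U (fun _ => P) (fun _ => F) (fun _ => G) fun _ _ => ()
  rw [FP.E_const] at e
  rw [← e]
  exact le_antisymm (mi_left ((Fn.pair (fun _ _ _ _ _ => rfl) (Fn.rfl _))) (Fn.right (Fn.snd _ _) _)
    (Fn.fst _ _)) (mi_left (Fn.snd _ _) (Fn.pair (fun _ _ _ _ _ => rfl) (Fn.snd _ _)) (Fn.fst _ _))

/-- The line is free: the block and its context are read from the deep cell `T`, the parameter and
the class `c`. -/
theorem line {U : FP X} {P : FP Ω} {Q : FP Ω'} {f : Ω' → X × Ω} (d : Dn C Q f (prod U P))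
    (T : Ω → α) (l : Ω → β) (Z : Ω' → γ) {S : Ω' → δ} {K : Ω' → ζ} {c : Ω' → η}
    (hS : Fn Q S fun z => ((f z).1, l (f z).2)) (hc : Fn Q c fun z => ((f z).1, l (f z).2))
    (hK : Fn Q (fun z => ((f z).1, c z)) K) :
    mi Q Z S K ≤ C * (mi P T l (fun _ => ()) + lg)
      + ch Q (fun z => (Z z, K z)) fun z => (T (f z).2, (f z).1, c z) := by
  have a : mi Q Z S K ≤ mi Q (fun z => (Z z, K z)) S fun z => ((f z).1, c z) :=
    mi_left hK ((Fn.snd _ _).left _) ((Fn.fst _ _).left _)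
  have b := mi_near (P := Q) S (fun z => (Z z, K z)) (fun z => T (f z).2) fun z => ((f z).1, c z)
  have s : Fn Q (fun z => ((f z).1, l (f z).2)) fun z => (l (f z).2, (f z).1) :=
    (Fn.snd _ _).pair (Fn.fst _ _)
  have e : mi Q (fun z => T (f z).2) S (fun z => ((f z).1, c z))
      ≤ mi Q (fun z => T (f z).2) (fun z => l (f z).2) fun z => (f z).1 :=
    mi_right (Fn.fst _ _) ((Fn.snd _ _).pair (hc.trans s)) (hS.trans s)
  have g := d.mi_le (fun z => T z.2) (fun z => l z.2) Prod.fst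
  rw [mi_prod] at g
  rw [mi_symm S, mi_symm S] at b
  linarith

theorem ind_bind (U : FP Ω) (V : FP X) {k : Ω × X → FP W} (hk : ∀ i i' x, k (i, x) = k (i', x)) :
    Ind (bind (prod U V) k) U (fun z => z.1.1) fun z => (z.1.2, z.2) := fun F => by
  simp only [H17F.prod, E_bind]
  refine U.E_congr fun i _ => ((U.E_congr fun i' _ => ?_).trans (U.E_const _)).symm
  simp only [hk i' i]

/-- The coefficients of the relative are free: telescoping along the first parameter. -/
theorem coef {n : ℕ} (hn : (range n).Nonempty) (V : FP X) {k : ℕ × X → FP W}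
    (hk : ∀ i i' x, k (i, x) = k (i', x)) {Q : FP Ω'} {f : Ω' → (ℕ × X) × W}
    (d : Dn C Q f (bind (prod (FP.unif (range n) hn) V) k)) (b : X × W → α) (Y : ℕ → X × W → β)
    {m : ℕ} {B v : ℝ} (hB : ∀ s, ch (bind (prod (FP.unif (range n) hn) V) k)
      (fun z => b (z.1.2, z.2)) (fun z => Y s (z.1.2, z.2)) ≤ B)
    (hv : ∀ s < n, ch (bind (prod (FP.unif (range n) hn) V) k)
      (fun z => Y s (z.1.2, z.2)) (fun z => Y (s + m) (z.1.2, z.2)) ≤ v) (A : Ω' → γ)
    (K : Ω' → δ) : mi Q A (fun z => b ((f z).1.2, (f z).2)) K ≤ C * (m * B / n + v + lg)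
      + ch Q (fun z => (Y (f z).1.1 ((f z).1.2, (f z).2), (f z).1.1)) K
      + ch Q (fun z => (A z, K z)) fun z => (Y ((f z).1.1 + m) ((f z).1.2, (f z).2), (f z).1.1) := by
  have a := sand (P := Q) A (fun z => b ((f z).1.2, (f z).2)) K
    (fun z => (Y (f z).1.1 ((f z).1.2, (f z).2), (f z).1.1))
    fun z => (Y ((f z).1.1 + m) ((f z).1.2, (f z).2), (f z).1.1)
  have c : mi Q (fun z => b ((f z).1.2, (f z).2))
      (fun z => (Y ((f z).1.1 + m) ((f z).1.2, (f z).2), (f z).1.1))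
      (fun z => (Y (f z).1.1 ((f z).1.2, (f z).2), (f z).1.1)) ≤ mi Q
        (fun z => b ((f z).1.2, (f z).2)) (fun z => Y ((f z).1.1 + m) ((f z).1.2, (f z).2))
        fun z => (Y (f z).1.1 ((f z).1.2, (f z).2), (f z).1.1) :=
    mi_mono ((Fn.fst _ _).pair ((Fn.snd _ _).right _))
  have e := d.mi_le (fun z => b (z.1.2, z.2)) (fun z => Y (z.1.1 + m) (z.1.2, z.2))
    fun z => (Y z.1.1 (z.1.2, z.2), z.1.1)
  have g := mul_le_mul_of_nonneg_left (add_le_add ((ind_bind _ V hk).free hn b Y hB hv)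
    (le_refl lg)) (zero_le_one.trans d.one_le)
  linarith

end Pool.Agent.MP_5168f5_an.QA.Free
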