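import Pool.Agent.MP_4b405e_nt.SK.SpC
import Pool.Agent.MP_4b405e_nt.SK.CMk
import Pool.Agent.MP_4b405e_nt.SK.Free2

/-! Sparse heights, block C: the context and the block are independent of the line. -/

namespace Pool.Agent.MP_5168f5_an.QA.SC

open H19 H17S H17F R4 AN Real Finset
open R4.K31 (Dn)

variable {ι κ : Type} [Fintype ι] [DecidableEq ι] [Fintype κ] [DecidableEq κ]

namespace RI

variable {σ : Kk ι κ} {Y : Wd ι κ} {p : Pm} {K K' e w r δ : ℝ}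

/-- The hypotheses are monotone in the ratio. -/
theorem anti (H : Y.Hyp σ p K e w r δ) (k : K' ≤ K) : Y.Hyp σ p K' e w r δ := by
  have n := H.num
  have ms := H.ok.ms.1.le
  have D : 0 ≤ Y.D Y.nT := mul_nonneg (Nat.cast_nonneg _) ms
  have m : ∀ {x : ℝ}, 0 ≤ x → K' * x ≤ K * x := fun h => mul_le_mul_of_nonneg_right k h
  exact ⟨H.ok, H.st, n.d0, (m n.d0.le).trans n.d1, k.trans n.e1, n.eu, n.kk, n.lu, n.uL,
    (m (Nat.cast_nonneg _)).trans n.Ld, (m (Nat.cast_nonneg _)).trans n.dx,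
    (m (Nat.cast_nonneg _)).trans n.xn, (m (Nat.cast_nonneg _)).trans n.nk,
    (m (mul_nonneg (Nat.cast_nonneg _) ms)).trans n.kr, by linarith [m D, n.rw], n.tel, n.nT,
    by linarith [m D, n.up], n.lo⟩

/-- The ranges of the parameters are not empty. -/
theorem pos (H : Y.Hyp σ p K e w r δ) (k : 1 ≤ K) : 0 < p.L ∧ 0 < Y.nD := by
  have n := H.num
  have f : ∀ {a : ℕ} {x y : ℝ}, 0 < y → y ≤ x * a → 0 < a := fun {a x y} h h' =>
    Nat.pos_of_ne_zero fun z => by rw [z] at h'; simp at h'; linarith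
  have g : ∀ {a b : ℕ}, 0 < a → K * a ≤ b → 0 < b := fun {a b} h h' =>
    f (x := 1) (mul_pos (by linarith) (Nat.cast_pos.2 h)) (by rwa [one_mul])
  have u := f (by linarith [n.e1]) n.eu
  have L := f (Nat.cast_pos.2 u) n.uL
  have nb := g (g (g L n.Ld) n.dx) n.xn
  have kD := f (mul_pos (by linarith) (Nat.cast_pos.2 nb)) (n.nk.trans_eq (mul_comm _ _))
  exact ⟨L, f (mul_pos (Nat.cast_pos.2 kD) (Nat.cast_pos.2 nb)) n.tel⟩

/-- The mass of the event. -/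
theorem mass (H : Y.Hyp σ p K e w r δ) (k : 1 ≤ K) :
    σ.cc ≤ pb (prod (Y.Px p) Y.P) fun v => Y.E v.1.1 v.2 := by
  have n := (pos H k).2
  have m := H.st.mass
  rw [Mk.Ok.mass (E := fun a : Par => Y.E a.1), Wd.Px, prod, E_bind]
  simp only [FP.E_const]
  rw [Wd.un, FP.E_unif, avg, card_range, max_eq_left (Nat.succ_le_of_lt n),
    le_div_iff₀ (Nat.cast_pos.2 n)]
  exact m

omit [Fintype κ] [DecidableEq κ] in
theorem law : Law (Y.P1 σ p) (fun z => (z.1, z.2.1.2)) (prod (Y.Px p) Y.P) id :=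
  Mk.fre_fst (U := Y.Px p) (P := Y.P) (l := Y.l) (z := Y.zz) (s := fun x => Y.c₀ + Wd.lv σ p x)
    (J := max (σ.C * p.u) 1) (by simp)

theorem mass1 (H : Y.Hyp σ p K e w r δ) (k : 1 ≤ K) :
    σ.cc ≤ pb (Y.P1 σ p) fun z => Y.E z.1.1 z.2.1.2 :=
  (mass H k).trans_eq (law.pb_eq fun v => Y.E v.1.1 v.2).symm

/-- The parameter and the point are dominated by the product law. -/
theorem dn (h : σ.Ok) (H : Y.Hyp σ p K e w r δ) (k : 1 ≤ K) :
    Dn σ.cc⁻¹ (Y.P2 σ p) (fun z => (z.1, z.2.1.2)) (prod (Y.Px p) Y.P) := by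
  simpa only [mul_one, id, Wd.P2] using (K31.dn_cE _ h.cc0 (mass1 H k)).trans (K31.dn_law law)

/-- The points of the space. -/
theorem mem (h : σ.Ok) (H : Y.Hyp σ p K e w r δ) (k : 1 ≤ K) {z} (hz : z ∈ (Y.P2 σ p).S) :
    (z.1.1 < Y.nD ∧ z.1.2.1 ≤ p.N ∧ z.1.2.2.1 < p.L ∧ z.1.2.2.2 < p.L) ∧ z.2.1.2 ∈ Y.P.S ∧
      Y.E z.1.1 z.2.1.2 := by
  obtain ⟨a, b⟩ := (mem_cE (ex_of_pb (h.cc0.trans_le (mass1 H k))) z).1 hz
  obtain ⟨a1, a2⟩ := (mem_bind _ _ z).1 a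
  obtain ⟨b1, b2⟩ := (mem_bind _ _ _).1 a1
  obtain ⟨b2, b3⟩ := (mem_bind _ _ _).1 b2
  obtain ⟨b3, b4⟩ := (mem_bind _ _ _).1 b3
  have := pos H k
  have c1 := mem_range.1 b1
  have c2 := mem_range.1 b2
  have c3 := mem_range.1 b3
  have c4 := mem_range.1 b4
  exact ⟨by omega, (Haz.mem_rel _ a2).2.1, b⟩

end RI

theorem ofI : OfI := by
  intro d2 ι κ _ _ _ _ σ h
  obtain ⟨K0, k0, d2⟩ := d2 ι κ σ h
  have c0 : 0 < σ.cc⁻¹ := inv_pos.2 h.cc0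
  have k1 : 1 ≤ K0 + 2 * σ.cc⁻¹ := by linarith
  refine ⟨K0 + 2 * σ.cc⁻¹, k1, fun Y p e w r δ H => ?_⟩
  have d2 := d2 Y p e w r δ (RI.anti H (by linarith))
  have m := fun z => RI.mem h H k1 (z := z)
  have a := Free.line (RI.dn h H k1) Y.T Y.lam (fun z => ((Y.bd σ p).K z, (Y.bd σ p).Z z))
    (S := fun z => Y.lam z.2.1.2) (K := fun z => (z.1, Y.cp z.1.1 z.2.1.2))
    (c := fun z => Y.cp z.1.1 z.2.1.2) (Fn.snd _ _) (fun z hz v hv e => ?_) (Fn.rfl _)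
  · have b : ch (Y.P2 σ p) (fun z => (((Y.bd σ p).K z, (Y.bd σ p).Z z), z.1,
        Y.cp z.1.1 z.2.1.2)) (fun z => (Y.T z.2.1.2, z.1, Y.cp z.1.1 z.2.1.2)) ≤ K0 * e := by
      classical
      refine (ch_det (B := exp (K0 * e)) fun z hz => ?_).trans_eq (log_exp _)
      obtain ⟨⟨m1, m2, m3, m4⟩, -, -⟩ := m z hz
      obtain ⟨S, s1, s2⟩ := (d2 z.1 m1 m2 m3 m4).2 (Y.T z.2.1.2, Y.cp z.1.1 z.2.1.2)
      refine ⟨S.image fun s => (s, z.1, Y.cp z.1.1 z.2.1.2),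
        (Nat.cast_le.2 card_image_le).trans s1, fun v hv e => ?_⟩
      obtain ⟨e1, e2⟩ := Prod.mk.inj e
      obtain ⟨e2, e3⟩ := Prod.mk.inj e2
      refine mem_image.2 ⟨_, s2 v.2.1.2 (m v hv).2.1 (e2 ▸ (m v hv).2.2)
        (Prod.ext e1 (e2 ▸ e3)), ?_⟩
      rw [← e3, ← e2]
      rfl
    have e1 : 1 ≤ e := k1.trans H.num.e1
    have l1 : lg ≤ 1 := log_two_lt_d9.le.trans (by norm_num)
    refine a.trans ((add_le_add (mul_le_mul_of_nonneg_left (add_le_add H.ok.ind (l1.trans e1))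
      c0.le) b).trans_eq (by ring))
  · obtain ⟨e1, e2⟩ := Prod.mk.inj e
    have n := (m v hv).1.1
    have t := H.num.nT
    show Y.cp z.1.1 z.2.1.2 = Y.cp v.1.1 v.2.1.2
    rw [show z.1 = v.1 from e1]
    exact Prod.ext (H.ok.fC v.1.1 (by omega) _ (m z hz).2.1 _ (m v hv).2.1 e2)
      (H.st.fs _ _ (m z hz).2.1 _ (m v hv).2.1 e2)

end Pool.Agent.MP_5168f5_an.QA.SC
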