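import Pool.Agent.MP_4b405e_nt.SK.BLisA

/-! Short lists read from a context that has few values given the class and the deep cell. -/

namespace Pool.Agent.MP_4b405e_nt.FC

open Pool.Agent.MP_5168f5_an Pool.Agent.MP_5168f5_an.H19 Pool.Agent.MP_5168f5_an.H17S
  Pool.Agent.MP_5168f5_an.H17F Kil

variable {Ω α β γ γ' δ X Y : Type}

/-- The conditional form: the lists are read from any variable `s`. -/
theorem listsC (P : FP Ω) (s : Ω → γ) (lam : Ω → δ) (cp : Ω → β) (v : Ω → α)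
    (G : X → Y → Ω → Prop) (hG : ∀ ξ l, Fn P (G ξ l) lam) (hv : Fn P v lam)
    {x y : ℝ} (h : ∀ ω ∈ P.S, ∀ ξ (l : α → Y),
      pb (cv P cp (cp ω)) (fun b => G ξ (l (v b)) b) ≤ Real.exp (-x))
    (A : γ → Finset X) (A' : γ → X → α → Finset Y)
    (hA : ∀ z, ((A z).card : ℝ) ≤ Real.exp y) (hA' : ∀ z ξ c, ((A' z ξ c).card : ℝ) ≤ Real.exp y) :
    (x - 2 * y) * pb P (fun ω => ∃ ξ ∈ A (s ω), ∃ l ∈ A' (s ω) ξ (v ω), G ξ l ω) ≤
      mi P s lam cp + lg := by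
  set Φ : γ → Ω → Prop := fun z ω => ∃ ξ ∈ A z, ∃ l ∈ A' z ξ (v ω), G ξ l ω with hΦ
  have e1 : ∀ z, ∀ b ∈ P.S, (∃ ω ∈ P.S, lam ω = lam b ∧ Φ z ω) ↔ Φ z b := fun z b hb => by
    refine ⟨fun k => ?_, fun k => ⟨b, hb, rfl, k⟩⟩
    obtain ⟨ω, hω, e, ξ, h1, l, h2, g⟩ := k
    refine ⟨ξ, h1, l, ?_, ?_⟩
    · rwa [← hv ω hω b hb e]
    · rwa [← hG ξ l ω hω b hb e]
  have e2 : ∀ ω ∈ P.S, ∀ z, pb (cv P cp (cp ω)) (Φ z) ≤ Real.exp (-(x - 2 * y)) := fun ω hω z => by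
    refine (pb_un _ _ _ fun ξ _ => pb_sel _ v (A' z ξ) (G ξ) (Real.exp_pos _).le
      (hA' _ _) (h ω hω ξ)).trans ?_
    refine (mul_le_mul_of_nonneg_right (hA _) (by positivity)).trans_eq ?_
    rw [← Real.exp_add, ← Real.exp_add]
    congr 1
    ring
  have k := expo P cp s lam (fun _ z t => ∃ ω ∈ P.S, lam ω = t ∧ Φ z ω) (h := x - 2 * y)
    fun ω hω a _ _ => (pb_congr fun b hb => e1 (s a) b (cE_sub hb)).trans_le (e2 ω hω _)
  rwa [pb_congr fun b hb => e1 (s b) b hb] at k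

/-- Information on an event. -/
theorem mi_ev (P : FP Ω) (E : Ω → Prop) (F : Ω → α) (G : Ω → β) (K : Ω → γ) :
    pb P E * mi (cE P E) F G K ≤ mi P F G K + lg := by
  have h1 := rowKE.ge P E F K
  have h2 := rowKE.le P E F fun ω => (G ω, K ω)
  have h3 := mul_nonneg (sub_nonneg.2 (pb_le_one P E))
    (mi_nonneg (P := cE P fun ω => ¬E ω) F G K)
  unfold mi at h3 ⊢
  nlinarith

/-- The information of a context about the label, on an event. -/
theorem mi_ctx (P : FP Ω) (E : Ω → Prop) (s : Ω → γ) (T : Ω → γ') (lam : Ω → δ) {cp : Ω → β}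
    (hc : Fn P cp lam) : pb P E * mi (cE P E) s lam cp ≤
      mi P T lam (fun _ => ()) + lg + ch (cE P E) s fun ω => (cp ω, T ω) := by
  have a := mi_near (P := cE P E) lam s T cp
  have b : mi (cE P E) T lam cp ≤ mi (cE P E) T lam fun _ => () :=
    mi_cond (fun _ _ _ _ _ => rfl) ((fn_cE hc E).left _)
  have c := mi_ev P E T lam fun _ => ()
  have d : ch (cE P E) s (fun ω => (T ω, cp ω)) ≤ ch (cE P E) s fun ω => (cp ω, T ω) :=
    ch_anti ((Fn.snd _ _).pair (Fn.fst _ _))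
  rw [mi_symm lam s, mi_symm lam T] at a
  have p0 := pb_nonneg P E
  have p1 := pb_le_one P E
  have q0 : 0 ≤ ch (cE P E) s fun ω => (cp ω, T ω) := ch_nonneg _ _
  nlinarith [mul_le_mul_of_nonneg_left (a.trans (add_le_add b d)) p0]

/-- The form on an event `E`. -/
theorem listsE (P : FP Ω) (E : Ω → Prop) (s : Ω → γ) (T : Ω → γ') (lam : Ω → δ) (cp : Ω → β)
    (v : Ω → α) (G : X → Y → Ω → Prop) (hG : ∀ ξ l, Fn (cE P E) (G ξ l) lam) (hc : Fn P cp lam)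
    (hv : Fn P v lam) {x y : ℝ} (h : ∀ ω ∈ P.S, E ω → ∀ ξ (l : α → Y),
      pb (cv (cE P E) cp (cp ω)) (fun b => G ξ (l (v b)) b) ≤ Real.exp (-x))
    (A : γ → Finset X) (A' : γ → X → α → Finset Y)
    (hA : ∀ z, ((A z).card : ℝ) ≤ Real.exp y) (hA' : ∀ z ξ c, ((A' z ξ c).card : ℝ) ≤ Real.exp y) :
    (x - 2 * y) * pb P (fun ω => E ω ∧ ∃ ξ ∈ A (s ω), ∃ l ∈ A' (s ω) ξ (v ω), G ξ l ω) ≤
      mi P T lam (fun _ => ()) + 2 * lg + ch (cE P E) s fun ω => (cp ω, T ω) := by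
  have l0 := lg_pos
  by_cases e : ∃ ω ∈ P.S, E ω
  · have k := listsC (cE P E) s lam cp v G hG (fn_cE hv E)
      (fun ω hω => h ω ((mem_cE e ω).1 hω).1 ((mem_cE e ω).1 hω).2) A A' hA hA'
    have k2 := mi_ctx P E s T lam hc
    rw [← pb_cE]
    nlinarith [mul_le_mul_of_nonneg_left k (pb_nonneg P E), pb_le_one P E]
  · rw [pb_zero fun ω hω k => e ⟨ω, hω, k.1⟩, mul_zero]
    have := mi_nonneg (P := P) T lam fun _ => ()
    have : 0 ≤ ch (cE P E) s fun ω => (cp ω, T ω) := ch_nonneg _ _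
    linarith

end Pool.Agent.MP_4b405e_nt.FC
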