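import Pool.Agent.MP_4b405e_nt.SK.SpC
import Pool.Agent.MP_4b405e_nt.SK.BLisB

/-! Sparse heights, block C: short lists contain no degenerate functional. -/

namespace Pool.Agent.MP_5168f5_an.QA.SC

open H19 H17S H17F R4 AN Filter Matrix Real Finset Wd
open Pool.Agent.MP_4b405e_nt.FB (Bc Bd Bs)

variable {ι κ : Type} [Fintype ι] [DecidableEq ι] [Fintype κ] [DecidableEq κ]
  {σ : Kk ι κ} {Y : Wd ι κ} {p : Pm} {K K' e w r δ : ℝ}

namespace ND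

/-- The numeric facts. -/
structure Nm (σ : Kk ι κ) (Y : Wd ι κ) (p : Pm) (e δ : ℝ) : Prop where
  e1 : 1 ≤ e
  d1 : δ ≤ 1
  eu : e ≤ δ * p.u
  nD : 0 < Y.nD
  L : 0 < p.L
  N : 0 < p.N
  dk : (p.d0 : ℝ) + p.L ≤ 2 * (p.kD * Y.ms)

theorem nm (H : Y.Hyp σ p K e w r δ) (k : 1 ≤ K) : Nm σ Y p e δ := by
  have ms := H.ok.ms.1
  have d0 := H.num.d0
  have m : ∀ {x y : ℝ}, 0 ≤ x → K * x ≤ y → x ≤ y := fun h t => (le_mul_of_one_le_left h k).trans t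
  have a1 : δ ≤ 1 := m d0.le H.num.d1
  have m' : ∀ {x : ℝ}, 0 ≤ x → δ * x ≤ x := fun h => mul_le_of_le_one_left h a1
  have a2 : e ≤ δ * p.u := H.num.eu.trans (by rw [pow_two, mul_assoc]; exact m' (by positivity))
  have e1 := k.trans H.num.e1
  have u1 : (1 : ℝ) ≤ p.u := e1.trans (a2.trans (m' (Nat.cast_nonneg _)))
  have L1 : (1 : ℝ) ≤ p.L := u1.trans (H.num.uL.trans (m' (Nat.cast_nonneg _)))
  have c0 := m (Nat.cast_nonneg _) H.num.Ld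
  have c1 := m (Nat.cast_nonneg _) H.num.dx
  have c2 := m (Nat.cast_nonneg _) H.num.xn
  have c3 := m (Nat.cast_nonneg _) H.num.nk
  have n0 : 0 < Y.nD := Nat.pos_of_ne_zero fun z => by
    have tel := H.num.tel
    rw [z, Nat.cast_zero, mul_zero] at tel
    have : (0 : ℝ) < p.kD := pos_of_mul_pos_left (show 0 < p.kD * Y.ms by linarith) ms.le
    exact tel.not_gt (mul_pos this (by linarith))
  refine ⟨e1, a1, a2, n0, by exact_mod_cast L1, Nat.pos_of_ne_zero fun z => ?_, by linarith⟩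
  have up := H.num.up
  have lo := H.num.lo
  have nT := H.num.nT
  rw [z, Nat.cast_zero, zero_mul] at up lo
  have : (0 : ℝ) < Y.nT := by exact_mod_cast (show 0 < Y.nT by omega)
  have : 0 < K * Y.D Y.nT := mul_pos (one_pos.trans_le k) (mul_pos this ms)
  linarith

theorem mono (H : Y.Hyp σ p K e w r δ) (k : K' ≤ K) : Y.Hyp σ p K' e w r δ := by
  obtain ⟨d0, d1, e1, eu, kk, lu, uL, Ld, dx, xn, nk, kr, rw, tel, nT, up, lo⟩ := H.num
  have ms := H.ok.ms.1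
  have m : ∀ {x : ℝ}, 0 ≤ x → K' * x ≤ K * x := fun h => mul_le_mul_of_nonneg_right k h
  have D0 : 0 ≤ Y.D Y.nT := mul_nonneg (Nat.cast_nonneg _) ms.le
  exact ⟨H.ok, H.st, d0, (m d0.le).trans d1, k.trans e1, eu, kk, lu, uL,
    (m (Nat.cast_nonneg _)).trans Ld, (m (Nat.cast_nonneg _)).trans dx,
    (m (Nat.cast_nonneg _)).trans xn, (m (Nat.cast_nonneg _)).trans nk,
    (m (by positivity)).trans kr, by linarith [m D0], tel, nT, by linarith [m D0], lo⟩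

omit [Fintype κ] [DecidableEq κ] in
/-- The parameter and the base point are independent before the restriction. -/
theorem pb1 (σ : Kk ι κ) (Y : Wd ι κ) (p : Pm) (G : Par → Y.Ω → Prop) :
    pb (Y.P1 σ p) (fun z => G z.1 z.2.1.2) = (Y.Px p).E fun x => pb Y.P (G x) := by
  rw [pb, P1, E_bind]
  refine FP.E_congr _ fun x _ => ?_
  have k := Haz.pb_rel (P := Y.P) (l := Y.l) (z := Y.zz) (a := Y.c₀ + lv σ p x)
    (b := Y.c₀ + lv σ p x + max (σ.C * p.u) 1) (by simp) fun _ => G x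
  rw [sum_const, Nat.card_Ico, nsmul_eq_mul, mul_div_cancel_left₀ _
    (by exact_mod_cast (Nat.sub_pos_of_lt (by simp)).ne')] at k
  exact k

omit [Fintype ι] [DecidableEq ι] [Fintype κ] [DecidableEq κ] in
theorem Ex1 (Y : Wd ι κ) (p : Pm) (h : 0 < Y.nD) (f : ℕ → ℝ) :
    (Y.Px p).E (fun x => f x.1) = (∑ i ∈ range Y.nD, f i) / Y.nD := by
  rw [Px, H17F.prod, KGA.E_bind_fst, Wd.un, FP.E_unif, avg, card_range, max_eq_left h]

theorem mem_un {n i : ℕ} (h : 0 < n) (k : i ∈ (Wd.un n).S) : i < n := by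
  have : i ∈ range (max n 1) := k
  rwa [max_eq_left h, mem_range] at this

omit [Fintype ι] [DecidableEq ι] [Fintype κ] [DecidableEq κ] in
theorem mem_Px (h : 0 < Y.nD) (h' : 0 < p.N) (h'' : 0 < p.L) {x : Par} (k : x ∈ (Y.Px p).S) :
    x.1 < Y.nD ∧ x.2.1 < p.N ∧ x.2.2.1 < p.L ∧ x.2.2.2 < p.L := by
  obtain ⟨a, k⟩ := (mem_bind _ _ _).1 k
  obtain ⟨b, k⟩ := (mem_bind _ _ _).1 k
  obtain ⟨c, d⟩ := (mem_bind _ _ _).1 k
  exact ⟨mem_un h a, mem_un h' b, mem_un h'' c, mem_un h'' d⟩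

theorem mass (S : Y.St σ e r) (h : 0 < Y.nD) :
    σ.cc ≤ pb (Y.P1 σ p) fun z => Y.E z.1.1 z.2.1.2 := by
  rw [pb1 σ Y p fun x ω => Y.E x.1 ω, Ex1 Y p h fun i => pb Y.P (Y.E i),
    le_div_iff₀ (by exact_mod_cast h)]
  exact S.mass

/-- An event of the parameter and the base point. -/
theorem pb2 (S : Y.St σ e r) (h : 0 < Y.nD) (G : Par → Y.Ω → Prop) :
    σ.cc * pb (Y.P2 σ p) (fun z => G z.1 z.2.1.2) ≤
      (Y.Px p).E fun x => pb Y.P fun ω => Y.E x.1 ω ∧ G x ω := by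
  have a := pb_cE (Y.P1 σ p) (fun z => Y.E z.1.1 z.2.1.2) fun z => G z.1 z.2.1.2
  rw [pb1 σ Y p fun x ω => Y.E x.1 ω ∧ G x ω] at a
  rw [← a]
  exact mul_le_mul_of_nonneg_right (mass S h) (pb_nonneg _ _)

theorem mem_P2 (c0 : 0 < σ.cc) (S : Y.St σ e r) (h : 0 < Y.nD) {z : Par × ((ℕ × Y.Ω) × Y.Ω)}
    (hz : z ∈ (Y.P2 σ p).S) : z.1 ∈ (Y.Px p).S ∧ z.2.1.2 ∈ Y.P.S ∧ Y.E z.1.1 z.2.1.2 := by
  obtain ⟨b, c⟩ := (mem_cE (ex_of_pb (c0.trans_le (mass S h))) z).1 hz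
  obtain ⟨b1, b2⟩ := (mem_bind _ _ _).1 b
  exact ⟨b1, (Haz.mem_rel _ b2).2.1, c⟩

/-- The law of the base point given the parameter and a label. -/
theorem cv2 (c0 : 0 < σ.cc) (S : Y.St σ e r) (h : 0 < Y.nD) {β : Type} (c : Par → Y.Ω → β)
    {z : Par × ((ℕ × Y.Ω) × Y.Ω)} (hz : z ∈ (Y.P2 σ p).S) (F : Par → Y.Ω → Prop) :
    pb (cv (Y.P2 σ p) (fun y => (y.1, c y.1 y.2.1.2)) (z.1, c z.1 z.2.1.2))
      (fun y => F y.1 y.2.1.2) = pb (cv (cE Y.P (Y.E z.1.1)) (c z.1) (c z.1 z.2.1.2)) (F z.1) := by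
  classical
  have a0 := c0.trans_le (mass (p := p) S h)
  have k : ∀ G : Par → Y.Ω → Prop, pb (Y.P1 σ p) (fun y => Y.E y.1.1 y.2.1.2) * pb (Y.P2 σ p)
      (fun y => (y.1, c y.1 y.2.1.2) = (z.1, c z.1 z.2.1.2) ∧ G y.1 y.2.1.2) =
      pb (Y.Px p) (fun x => x = z.1) * (pb Y.P (Y.E z.1.1) *
        pb (cE Y.P (Y.E z.1.1)) fun ω => c z.1 ω = c z.1 z.2.1.2 ∧ G z.1 ω) := fun G => by
    rw [P2, pb_cE, pb_cE, pb1 σ Y p fun x ω => Y.E x.1 ω ∧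
      (x, c x ω) = (z.1, c z.1 z.2.1.2) ∧ G x ω, mul_comm, pb.eq_1 (Y.Px p), ← FP.E_mul]
    refine FP.E_congr _ fun x _ => ?_
    by_cases e : x = z.1
    · subst e
      simp only [if_true, mul_one, Prod.mk.injEq, true_and]
    · rw [if_neg e, mul_zero]
      exact pb_zero fun ω _ m => e (congrArg Prod.fst m.2.1)
  have k1 := k F
  have k2 := k fun _ _ => True
  simp only [and_true] at k2
  have b0 : 0 < pb (Y.P2 σ p) fun y => (y.1, c y.1 y.2.1.2) = (z.1, c z.1 z.2.1.2) :=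
    pb_pos _ ⟨z, hz, rfl⟩
  rw [← pb_cE (Y.P2 σ p), ← pb_cE (cE Y.P _), ← mul_assoc, ← mul_assoc, ← mul_assoc,
    mul_assoc (pb (Y.Px p) _), ← k2] at k1
  exact mul_left_cancel₀ (mul_pos a0 b0).ne' k1

theorem cp_fn (O : Y.Ok σ e w) (S : Y.St σ e r) {i : ℕ} (hi : i ≤ Y.nT) :
    Fn Y.P (Y.cp i) Y.lam := (O.fC i hi).pair (S.fs i)

/-- Degeneracy is read from the label of the line. -/
theorem dg_eq (O : Y.Ok σ e w) (S : Y.St σ e r) {i i' : ℕ} (hi : i < Y.nD) (h1 : i ≤ Y.nT)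
    (h2 : i' ≤ Y.nT) {a b : Y.Ω} (ha : a ∈ Y.P.S) (hb : b ∈ Y.P.S) (E : Y.E i a)
    (k : Y.lam a = Y.lam b) (h : ℝ) (ξ la : κ → ℝ) :
    Y.Dg σ i i' h ξ la a = Y.Dg σ i i' h ξ la b := by
  have e1 := cp_fn O S h1 a ha b hb k
  have e2 : Y.v1 i i' a = Y.v1 i i' b :=
    N2.rep_congr (Prod.ext e1 (O.fC i' h2 a ha b hb k))
  have e3 : Y.φ σ i (Y.cp i a) a = Y.φ σ i (Y.cp i a) b := by
    rw [φ, φ, O.fR _ (S.val i hi a ha E).mem.1 a ha b hb k]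
  simp only [Dg, ρ0, θ0, e2, e3, ← e1]

/-- The functional on all indices. -/
noncomputable def ext (σ : Kk ι κ) (ξ : σ.Nu → ℝ) (b : κ) : ℝ :=
  open Classical in if h : σ.Nn b then ξ (some ⟨b, h⟩) else 0

omit [DecidableEq κ] in
theorem sum_ext (ξ : σ.Nu → ℝ) (f : κ → ℝ) (g : σ.Nu → ℝ) (h0 : ξ none = 0)
    (h : ∀ b : {b // σ.Nn b}, ξ (some b) ≠ 0 → g (some b) = f b.1) :
    ∑ q, ξ q * g q = ∑ b, ext σ ξ b * f b := by
  classical
  have e : ∑ q, ξ q * g q = ∑ b : {b // σ.Nn b}, ext σ ξ b.1 * f b.1 := by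
    rw [show (univ : Finset σ.Nu) = @univ _ (instFintypeOption) from
      congrArg (@univ _) (Subsingleton.elim _ _), Fintype.sum_option, h0, zero_mul, zero_add]
    refine sum_congr rfl fun b _ => ?_
    rw [ext, dif_pos b.2]
    by_cases z : ξ (some b) = 0
    · rw [z, zero_mul, zero_mul]
    · rw [h b z]
  rw [e, ← Finset.sum_subtype (univ.filter σ.Nn) (by simp) fun b => ext σ ξ b * f b]
  exact sum_subset (filter_subset _ _) fun b _ hb => by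
    rw [ext, dif_neg (by simpa using hb), zero_mul]

theorem un_ext (h : σ.Ok) {ξ : σ.Nu → ℝ} (u : (σ.bc h).Un ξ) : σ.Un (ext σ ξ) := by
  have n : ∀ b, ext σ ξ b ≠ 0 → ∃ hb : σ.Nn b, ξ (some ⟨b, hb⟩) ≠ 0 := fun b k => by
    by_cases hb : σ.Nn b
    · exact ⟨hb, by rwa [ext, dif_pos hb] at k⟩
    · exact absurd (by rw [ext, dif_neg hb]) k
  refine ⟨?_, fun b k => (n b k).1, fun a b ka kb => u.2.2 _ _ (n a ka).2 (n b kb).2⟩
  have e := sum_ext (fun q => |ξ q|) (fun _ => 1) (fun _ => 1) (abs_eq_zero.2 u.2.1) fun _ _ => rfl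
  simp only [mul_one] at e
  rw [← u.1, e]
  refine sum_congr rfl fun b _ => ?_
  unfold ext
  split_ifs <;> simp

/-- The range of the cap level of the block. -/
theorem rg (H : Y.Hyp σ p K e w r δ) (n : Nm σ Y p e δ) {x : Par} (hx : x ∈ (Y.Px p).S) :
    x.1 < Y.nD ∧ x.1 ≤ Y.nT ∧ Y.i1 p x ≤ Y.nT ∧ (dp p x : ℝ) ≤ Y.D (Y.i1 p x) - Y.D x.1 ∧
      Y.D (Y.i1 p x) - Y.D x.1 ≤ dp p x + Y.ms ∧ p.d0 ≤ dp p x ∧ dp p x ≤ p.d0 + p.L := by
  obtain ⟨a, -, -, d⟩ := mem_Px n.nD n.N n.L hx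
  have ms := H.ok.ms.1
  have nT := H.num.nT
  have b : dp p x ≤ p.d0 + p.L := Nat.add_le_add_left d.le _
  have b' : (dp p x : ℝ) ≤ p.d0 + p.L := by exact_mod_cast b
  have e1 : Y.D (Y.i1 p x) - Y.D x.1 = ⌈(dp p x : ℝ) / Y.ms⌉₊ * Y.ms := by
    simp only [D, i1]; push_cast; ring
  have c : ⌈(dp p x : ℝ) / Y.ms⌉₊ ≤ 2 * p.kD := Nat.ceil_le.2 (by
    rw [div_le_iff₀ ms]; push_cast; linarith [n.dk])
  refine ⟨a, by omega, by unfold i1; omega, ?_, ?_, Nat.le_add_right _ _, b⟩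
  · rw [e1, ← div_le_iff₀ ms]; exact Nat.le_ceil _
  · have := (Nat.ceil_lt_add_one (show (0 : ℝ) ≤ (dp p x : ℝ) / Y.ms by positivity)).le
    rw [e1]
    refine (mul_le_mul_of_nonneg_right this ms.le).trans_eq ?_
    field_simp

/-- All parameters, given the transfer of degenerate functionals. -/
theorem all (h : σ.Ok) (H : Y.Hyp σ p K e w r δ) (n : Nm σ Y p e δ) {hh s b a t y : ℝ}
    (N : Y.Nd σ hh s b p.d0 (p.d0 + p.L + Y.ms))
    (I : mi (Y.P2 σ p) (fun z => ((Y.bd σ p).K z, (Y.bd σ p).Z z)) (fun z => Y.lam z.2.1.2)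
      (fun z => (z.1, Y.cp z.1.1 z.2.1.2)) ≤ a)
    (g : Par → (σ.Nu → ℝ) → (σ.Al → ℝ) → κ → ℝ)
    (tr : ∀ z ∈ (Y.P2 σ p).S, ∀ ξ l, (σ.bc h).Un ξ → (Y.bd σ p).Dg (σ.bc h) (t * p.u) z ξ l →
      Y.Dg σ z.1.1 (Y.i1 p z.1) hh (ext σ ξ) (g z.1 ξ l) z.2.1.2) (sy : 2 * (y * p.u) < b) :
    (Y.bd σ p).Nd (σ.bc h) t (s / σ.cc + (a + lg) / (b - 2 * (y * p.u))) y := by
  intro A A' hA hA'
  obtain ⟨Bad, fB, sB, N⟩ := N
  have O := H.ok
  have S := H.st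
  have m := fun z hz => mem_P2 (p := p) (z := z) h.cc0 S n.nD hz
  have k1 : pb (Y.P2 σ p) (fun z => Bad z.1.1 z.2.1.2) ≤ s / σ.cc := by
    rw [le_div_iff₀' h.cc0]
    refine (pb2 S n.nD fun x ω => Bad x.1 ω).trans ?_
    rw [Ex1 Y p n.nD fun i => pb Y.P fun ω => Y.E i ω ∧ Bad i ω,
      div_le_iff₀ (by exact_mod_cast n.nD)]
    exact sB
  have k2 := MP_4b405e_nt.FC.listsC (Y.P2 σ p) (Y.bd σ p).K (fun z => (z.1, Y.lam z.2.1.2))
    (fun z => (z.1, Y.cp z.1.1 z.2.1.2)) (Y.bd σ p).v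
    (fun ξ l z => σ.Un (ext σ ξ) ∧ ¬Bad z.1.1 z.2.1.2 ∧
      Y.Dg σ z.1.1 (Y.i1 p z.1) hh (ext σ ξ) (g z.1 ξ l) z.2.1.2)
    (fun ξ l a ha b hb k => by
      obtain ⟨e1, e2⟩ := Prod.mk.inj k
      obtain ⟨a1, a2, a3⟩ := m a ha
      obtain ⟨r0, r1, r2, -⟩ := rg H n a1
      simp only [← e1, fB _ _ a2 _ (m b hb).2.1 e2, dg_eq O S r0 r1 r2 a2 (m b hb).2.1 a3 e2])
    (fun a ha b hb k => by
      obtain ⟨e1, e2⟩ := Prod.mk.inj k
      obtain ⟨a1, a2, -⟩ := m a ha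
      have := O.fC _ (rg H n a1).2.2.1 _ a2 _ (m b hb).2.1 e2
      simp only [bd, ← e1, this]) (x := b) (y := y * p.u)
    (fun z hz ξ l => by
      obtain ⟨a1, a2, a3⟩ := m z hz
      obtain ⟨r0, r1, r2, r3, r4, r5, r6⟩ := rg H n a1
      have r5' : (p.d0 : ℝ) ≤ dp p z.1 := by exact_mod_cast r5
      have r6' : (dp p z.1 : ℝ) ≤ p.d0 + p.L := by exact_mod_cast r6
      refine (cv2 h.cc0 S n.nD (fun x => Y.cp x.1) hz fun x ω => σ.Un (ext σ ξ) ∧ ¬Bad x.1 ω ∧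
        Y.Dg σ x.1 (Y.i1 p x) hh (ext σ ξ) (g x ξ (l (Y.Cp (Y.i1 p x) ω))) ω).trans_le ?_
      by_cases u : σ.Un (ext σ ξ)
      · exact (pb_mono fun _ _ m => m.2).trans (N _ r0 _ r2 (by linarith) (by linarith) _ a2 a3 _ u
          fun c => g z.1 ξ (l c))
      · exact (pb_zero fun _ _ m => u m.1).trans_le (exp_pos _).le) A A' hA hA'
  have k3 : mi (Y.P2 σ p) (Y.bd σ p).K (fun z => (z.1, Y.lam z.2.1.2))
      (fun z => (z.1, Y.cp z.1.1 z.2.1.2)) ≤ a :=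
    ((mi_mono' ((Fn.fst _ _).left _)).trans (mi_mono fun a _ b _ k => by
      simp only [Prod.mk.injEq] at k ⊢; tauto)).trans I
  replace k2 := (le_div_iff₀' (sub_pos.2 sy)).2 (k2.trans (add_le_add k3 le_rfl))
  refine le_trans (pb_mono fun z hz m => ?_) ((pb_or _ _ _).trans (add_le_add k1 k2))
  obtain ⟨ξ, a1, l, a2, u, d⟩ := m
  by_cases b : Bad z.1.1 z.2.1.2
  · exact Or.inl b
  · exact Or.inr ⟨ξ, a1, l, a2, un_ext h u, b, tr z hz ξ l u d⟩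

omit [Fintype κ] [DecidableEq κ] in
theorem ff_mem (h : σ.Ok) (x : Par) (b : κ) : 1 ≤ ff σ x b ∧ ff σ x b ≤ 2 := by
  have y0 : 0 ≤ (σ.mu b * x.2.2.1 + σ.wt b * x.2.2.2) / lg :=
    div_nonneg (add_nonneg (mul_nonneg (h.m0 b) (Nat.cast_nonneg _))
      (mul_nonneg (h.w0 b).le (Nat.cast_nonneg _))) lg_pos.le
  have e : ∀ n : ℕ, (2 : ℝ) ^ n = exp (n * lg) := fun n => by
    rw [exp_nat_mul, H17S.lg, exp_log two_pos]
  have a := (le_div_iff₀ lg_pos).1 (Nat.floor_le y0)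
  have c := (div_lt_iff₀ lg_pos).1 (Nat.lt_floor_add_one ((σ.mu b * x.2.2.1 + σ.wt b * x.2.2.2) / lg))
  rw [ff, one_le_div (by positivity), div_le_iff₀ (by positivity), ← pow_succ', e, e, nn]
  exact ⟨exp_le_exp.2 a, exp_le_exp.2 (by push_cast; exact c.le)⟩

theorem rd_near (n : ℕ) (y : ℝ) : |rd n y - y| ≤ (2 ^ n)⁻¹ := by
  have := abs_fl1_sub n y
  rw [show rd n y - y = (2 ^ n)⁻¹ * (fl1 n y - 2 ^ n * y) by rw [rd]; field_simp, abs_mul,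
    abs_of_pos (by positivity)]
  exact mul_le_of_le_one_right (by positivity) this

/-- The frames are graded. -/
theorem phi_gr (O : Y.Ok σ e w) (S : Y.St σ e r) {i : ℕ} (hi : i < Y.nD) {ω y : Y.Ω}
    (hω : ω ∈ Y.P.S) (E : Y.E i ω) (hy : y ∈ Y.P.S) {a b : κ} (k : σ.mu b ≠ σ.mu a) :
    Y.φ σ i (Y.cp i ω) y a b = 0 := by
  have V := S.val i hi ω hω E
  rw [φ, Matrix.mul_apply]
  refine sum_eq_zero fun f _ => ?_
  rw [A1, diagonal_mul]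
  by_cases m : Y.g1 i (Y.cp i ω) f b = 0
  · rw [m, mul_zero, mul_zero]
  have e1 := V.gr f b (Or.inr m)
  refine mul_eq_zero_of_left (by_contra fun t => k ?_) _
  by_cases q : a = f
  · rw [q, e1]
  · rw [← e1, (((O.fr _ V.mem.1).2.2 y hy).2.2.2 a f (by rwa [Matrix.one_apply_ne q])).1]

/-- The scale of the group of a functional. -/
noncomputable def sc (σ : Kk ι κ) (Y : Wd ι κ) (p : Pm) (x : Par) (b : κ) : ℝ :=
  exp (σ.wt b * (Y.D (Y.i1 p x) - Y.D x.1 - dp p x)) * ff σ x b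

open Classical in
/-- The tilt. -/
noncomputable def tl (σ : Kk ι κ) (Y : Wd ι κ) (p : Pm) (x : Par) (ξ : σ.Nu → ℝ) (l : σ.Al → ℝ)
    (a : κ) : ℝ :=
  if h : σ.toKc.G1 a then -((∑ b, |ext σ ξ b| * sc σ Y p x b) * l ⟨a, h⟩) else 0

/-- The transfer of degenerate functionals. -/
theorem tr (h : σ.Ok) (H : Y.Hyp σ p K e w r δ) (n : Nm σ Y p e δ) {t : ℝ} (t2 : t ≤ 2)
    (ht : (∑ b, σ.wt b + 2) * e ≤ t / 2 * p.u) {z : (Y.bd σ p).Ω} (hz : z ∈ (Y.P2 σ p).S)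
    (ξ : σ.Nu → ℝ) (l : σ.Al → ℝ) (u : (σ.bc h).Un ξ)
    (d : (Y.bd σ p).Dg (σ.bc h) (t * p.u) z ξ l) :
    Y.Dg σ z.1.1 (Y.i1 p z.1) (t / 2 * p.u) (ext σ ξ) (tl σ Y p z.1 ξ l) z.2.1.2 := by
  classical
  obtain ⟨x, ⟨j, ω⟩, v⟩ := z
  obtain ⟨a1, a2, a3⟩ := mem_P2 h.cc0 H.st n.nD hz
  obtain ⟨r0, r1, r2, r3, r4, -⟩ := rg H n a1
  dsimp only at a1 a2 a3 r0 r1 r2 r3 r4 ⊢
  obtain ⟨U1, U2, U3⟩ := un_ext h u
  obtain ⟨b0, -, hb⟩ := exists_ne_zero_of_sum_ne_zero (U1.trans_ne one_ne_zero)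
  have g : ∀ b, ext σ ξ b ≠ 0 → ff σ x b = ff σ x b0 ∧ sc σ Y p x b = sc σ Y p x b0 := fun b k => by
    obtain ⟨e1, e2⟩ := U3 b b0 k (abs_ne_zero.1 hb)
    simp only [sc, ff, nn, e1, e2, and_self]
  have g' : ∀ b : {b // σ.Nn b}, ξ (some b) ≠ 0 → ext σ ξ b.1 ≠ 0 := fun b k => by
    rwa [ext, dif_pos b.2]
  have f0 := ff_mem h x b0
  have w0 : σ.wt b0 ≤ ∑ b, σ.wt b := single_le_sum (fun b _ => (h.w0 b).le) (mem_univ _)
  have w1 := h.w0 b0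
  have e1 := n.e1
  have l2 : (2 : ℝ) ≤ exp e := by linarith [add_one_le_exp e]
  have s0 : 0 < sc σ Y p x b0 := mul_pos (exp_pos _) (by linarith)
  have s1 : sc σ Y p x b0 ≤ exp (σ.wt b0 * e) * exp e :=
    mul_le_mul (exp_le_exp.2 (mul_le_mul_of_nonneg_left (by linarith [H.ok.ms.2]) w1.le))
      (f0.2.trans l2) (by linarith) (exp_pos _).le
  have fin : exp (σ.wt b0 * e) * exp e * (exp e * exp (-(t * p.u))) ≤ exp (-(t / 2 * p.u)) := by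
    simp only [← exp_add]
    exact exp_le_exp.2 (by nlinarith)
  have x0 := exp_pos (-(t * p.u))
  intro a ga
  obtain ⟨d1, d2⟩ := d ⟨a, ga⟩
  refine ⟨fun q hq => ?_, ?_⟩
  · have k := d1 (some ⟨q, hq⟩) (Option.some_ne_none _)
    have fq := ff_mem h x q
    have e2 := sum_ext ξ (fun b => Y.ρ0 σ x.1 (Y.i1 p x) ω a b q * (ff σ x q / ff σ x b0))
      (fun b => Y.ρ σ p x ω ⟨a, ga⟩ b (some ⟨q, hq⟩)) u.2.1 fun b k => by
        rw [← (g _ (g' b k)).1, ← mul_div_assoc]; rfl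
    replace k : |∑ b, ξ b * Y.ρ σ p x ω ⟨a, ga⟩ b (some ⟨q, hq⟩)| ≤ exp (-(t * p.u)) := k
    simp only [← mul_assoc] at e2
    have p0 := one_pos.trans_le f0.1
    rw [e2, ← sum_mul, abs_mul, abs_of_pos (div_pos (one_pos.trans_le fq.1) p0), ← mul_div_assoc,
      div_le_iff₀ p0] at k
    refine le_trans ?_ fin
    have : 1 ≤ exp (σ.wt b0 * e) * exp e := by rw [← exp_add]; exact one_le_exp (by positivity)
    refine le_trans ?_ (le_mul_of_one_le_left (by positivity) this)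
    nlinarith [abs_nonneg (∑ b, ext σ ξ b * Y.ρ0 σ x.1 (Y.i1 p x) ω a b q)]
  · have e2 := sum_ext ξ (fun b => -rd (5 * p.u) (Y.θ0 σ x.1 (Y.i1 p x) (dp p x) ω a b / ff σ x b))
      (fun b => Y.ρ σ p x ω ⟨a, ga⟩ b none) u.2.1 fun b _ => by
        refine ite_eq_left_iff.2 fun m => ?_
        have v1 := (N2.rep_spec (A := fun y => (Y.cp x.1 y, Y.Cp (Y.i1 p x) y)) a2 a3).1
        rw [θ0, phi_gr H.ok H.st r0 a2 a3 a2 m, Wd.v1, phi_gr H.ok H.st r0 a2 a3 v1 m]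
        simp [rd, fl1]
    replace d2 : |∑ b, ξ b * Y.ρ σ p x ω ⟨a, ga⟩ b none - l ⟨a, ga⟩| ≤ exp (-(t * p.u)) := d2
    rw [e2] at d2
    have e3 : ∑ b, |ext σ ξ b| * sc σ Y p x b = sc σ Y p x b0 := by
      rw [← one_mul (sc σ Y p x b0), ← U1, sum_mul]
      refine sum_congr rfl fun b _ => ?_
      by_cases m : ext σ ξ b = 0
      · rw [m, abs_zero, zero_mul, zero_mul]
      · rw [(g b m).2]
    have e4 : ∑ b, ext σ ξ b * Y.θ0 σ x.1 (Y.i1 p x) (Y.D (Y.i1 p x) - Y.D x.1) ω a b =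
        sc σ Y p x b0 * ∑ b, ext σ ξ b * (Y.θ0 σ x.1 (Y.i1 p x) (dp p x) ω a b / ff σ x b) := by
      rw [mul_sum]
      refine sum_congr rfl fun b _ => ?_
      by_cases m : ext σ ξ b = 0
      · rw [m, zero_mul, zero_mul, mul_zero]
      · have := (ff_mem h x b).1
        rw [← (g b m).2, sc, θ0, θ0, show σ.wt b * (Y.D (Y.i1 p x) - Y.D x.1) =
          σ.wt b * (Y.D (Y.i1 p x) - Y.D x.1 - dp p x) + σ.wt b * dp p x by ring, exp_add]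
        field_simp
    have e5 : |∑ b, ext σ ξ b * (Y.θ0 σ x.1 (Y.i1 p x) (dp p x) ω a b / ff σ x b) + ∑ b, ext σ ξ b *
        -rd (5 * p.u) (Y.θ0 σ x.1 (Y.i1 p x) (dp p x) ω a b / ff σ x b)| ≤ exp (-(t * p.u)) := by
      rw [← sum_add_distrib]
      refine (abs_sum_le_sum_abs _ _).trans ((sum_le_sum (g := fun b => |ext σ ξ b| *
        exp (-(t * p.u))) fun b _ => ?_).trans_eq (by rw [← sum_mul, U1, one_mul]))
      rw [← mul_add, abs_mul, ← sub_eq_add_neg, abs_sub_comm]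
      refine mul_le_mul_of_nonneg_left ((rd_near _ _).trans ?_) (abs_nonneg _)
      rw [Real.exp_neg]
      refine inv_anti₀ (exp_pos _) ?_
      rw [pow_mul]
      calc exp (t * p.u) ≤ exp (p.u * 2) := exp_le_exp.2 (by nlinarith [Nat.cast_nonneg (α := ℝ) p.u])
        _ = (exp 1 * exp 1) ^ p.u := by rw [exp_nat_mul, ← exp_add]; norm_num
        _ ≤ _ := pow_le_pow_left₀ (by positivity) (by nlinarith [exp_one_lt_d9, exp_pos 1]) _
    rw [tl, dif_pos ga, e3, e4, sub_neg_eq_add, ← mul_add, abs_mul, abs_of_pos s0]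
    refine (mul_le_mul s1 ?_ (abs_nonneg _) (by positivity)).trans fin
    rw [abs_le] at d2 e5 ⊢
    constructor <;> nlinarith

end ND

/-- Non degeneracy of the block system. -/
theorem ofNd : OfNd := fun I ι κ _ _ _ _ σ h => by
  obtain ⟨K1, k1, I⟩ := I ι κ σ h
  have c0 := h.cc0
  have w0 : 0 ≤ ∑ b, σ.wt b := sum_nonneg fun b _ => (h.w0 b).le
  have c1 : 0 < σ.cc⁻¹ := by positivity
  refine ⟨σ.cc⁻¹ + 2 * (K1 + 1) + 2 * (∑ b, σ.wt b + 2), by linarith,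
    fun Y p e w r δ H t s a ht t2 s0 ha N => ?_⟩
  set K := σ.cc⁻¹ + 2 * (K1 + 1) + 2 * (∑ b, σ.wt b + 2) with hK
  have k : 1 ≤ K := by linarith
  have n := ND.nm H k
  have d0 := H.num.d0
  have e1 := n.e1
  have eu := n.eu
  have u0 : (0 : ℝ) < p.u := pos_of_mul_pos_right (show 0 < δ * p.u by linarith) d0.le
  have a0 : 0 < a := pos_of_mul_pos_left ((mul_pos (one_pos.trans_le k) d0).trans_le ha) s0.le
  have au := mul_pos a0 u0
  have R := ND.all h H n N (I Y p e w r δ (ND.mono H (by linarith))) (ND.tl σ Y p)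
    (fun z hz => ND.tr h H n t2 (by
      have := mul_le_mul_of_nonneg_right ht u0.le
      have := mul_le_mul_of_nonneg_left eu (show 0 ≤ K by linarith)
      nlinarith) hz) (y := a / 4) (by linarith)
  intro A A' hA hA'
  refine (R A A' hA hA').trans ?_
  have : (K1 * e + lg) / (a * p.u - 2 * (a / 4 * p.u)) ≤ 2 * (K1 + 1) * s := by
    rw [div_le_iff₀ (by linarith)]
    have l1 : lg ≤ 1 := (log_le_sub_one_of_pos two_pos).trans_eq (by norm_num)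
    have b1 : δ ≤ a * s := (le_mul_of_one_le_left d0.le k).trans ha
    have b2 := mul_le_mul_of_nonneg_right b1 u0.le
    nlinarith [mul_le_mul_of_nonneg_left (eu.trans b2) (show 0 ≤ K1 + 1 by linarith)]
  rw [div_eq_inv_mul s]
  nlinarith

end Pool.Agent.MP_5168f5_an.QA.SC
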