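import Pool.Agent.MP_4b405e_nt.SK.FDef

/-! Sparse slopes, block C: the source of an increment and the higher words. -/

namespace Pool.Agent.MP_5168f5_an.QA.CSrc

open Matrix Finset

/-! ### The higher words of the block system -/

section FB

open MP_4b405e_nt.FB H19 H17S H17F

variable {α ν : Type} [Fintype α] [Fintype ν] [DecidableEq ν] (σ : Bc α ν)

/-- The higher words: coefficients `c` off the column of the source and `q` in that column. -/
noncomputable def hw (M : ℕ) (c q : ℕ → ℝ) (R : Matrix ν ν ℝ) : Matrix ν ν ℝ := fun p p' =>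
  ∑ i ∈ range M, (if p' = σ.o then q i else c i) * (R ^ (i + 1)) p p'

/-- A matrix that raises the weight inside the pieces. -/
def Gr (R : Matrix ν ν ℝ) : Prop :=
  ∀ p q, R p q ≠ 0 → σ.wt q < σ.wt p ∧ (q ≠ σ.o → σ.w p = σ.w q)

/-- The sizes of the entries. -/
def Sz (e j : ℝ) (R : Matrix ν ν ℝ) : Prop :=
  ∀ p q, |R p q| ≤ Real.exp (e - (σ.wt p - σ.wt q) * j)

variable {σ} {R R' : Matrix ν ν ℝ} {M : ℕ} {c q : ℕ → ℝ} {e e' j : ℝ}

omit [Fintype α] [Fintype ν] [DecidableEq ν] in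
theorem wt_nn (h : σ.Ok) (p : ν) : 0 ≤ σ.wt p := by
  by_cases k : p = σ.o
  · rw [k, h.wo]
  · exact (h.wt0 p k).le

omit [Fintype α] [Fintype ν] [DecidableEq ν] in
theorem Gr.row (h : σ.Ok) (g : Gr σ R) (p : ν) : R σ.o p = 0 := by
  by_contra k
  have := (g _ _ k).1
  linarith [wt_nn h p, h.wo]

omit [Fintype α] [DecidableEq ν] in
theorem Gr.mul (h : σ.Ok) (g : Gr σ R) (g' : Gr σ R') : Gr σ (R * R') := by
  intro p p' k
  obtain ⟨m, -, hm⟩ := exists_ne_zero_of_sum_ne_zero (mul_apply (M := R) ▸ k)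
  have a := g p m (left_ne_zero_of_mul hm)
  have a' := g' m p' (right_ne_zero_of_mul hm)
  refine ⟨a'.1.trans a.1, fun z => (a.2 fun z' => ?_).trans (a'.2 z)⟩
  exact right_ne_zero_of_mul hm (z' ▸ g'.row h p')

omit [Fintype α] in
theorem Gr.pow (h : σ.Ok) (g : Gr σ R) (i : ℕ) : Gr σ (R ^ (i + 1)) := by
  induction i with
  | zero => rwa [zero_add, pow_one]
  | succ i ih => rw [pow_succ]; exact ih.mul h g

omit [Fintype α] in
theorem Gr.hw (h : σ.Ok) (g : Gr σ R) : Gr σ (hw σ M c q R) := fun p p' k => by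
  obtain ⟨i, -, hi⟩ := exists_ne_zero_of_sum_ne_zero k
  exact g.pow h i p p' (right_ne_zero_of_mul hi)

omit [Fintype α] [DecidableEq ν] in
theorem Sz.mul (g : Sz σ e j R) (g' : Sz σ e' j R') :
    Sz σ (e + e' + Fintype.card ν) j (R * R') := by
  intro p p'
  rw [mul_apply]
  refine (abs_sum_le_sum_abs _ _).trans ((sum_le_card_nsmul _ _
    (Real.exp (e + e' - (σ.wt p - σ.wt p') * j)) fun m _ => ?_).trans ?_)
  · rw [abs_mul]
    refine (mul_le_mul (g p m) (g' m p') (abs_nonneg _) (Real.exp_pos _).le).trans_eq ?_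
    rw [← Real.exp_add]
    congr 1
    ring
  · rw [nsmul_eq_mul, card_univ, show e + e' + Fintype.card ν - (σ.wt p - σ.wt p') * j =
      Fintype.card ν + (e + e' - (σ.wt p - σ.wt p') * j) by ring, Real.exp_add]
    exact mul_le_mul_of_nonneg_right (by linarith [Real.add_one_le_exp (Fintype.card ν : ℝ)])
      (Real.exp_pos _).le

omit [Fintype α] in
theorem Sz.pow (g : Sz σ e j R) (i : ℕ) : Sz σ ((i + 1) * (e + Fintype.card ν)) j (R ^ (i + 1)) := by
  have n0 : (0 : ℝ) ≤ Fintype.card ν := Nat.cast_nonneg _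
  induction i with
  | zero =>
    rw [zero_add, pow_one]
    exact fun p p' => (g p p').trans (Real.exp_le_exp.2 (by push_cast; linarith))
  | succ i ih =>
    rw [pow_succ]
    exact fun p p' => (ih.mul g p p').trans_eq (by push_cast; ring_nf)

omit [Fintype α] in
theorem Sz.hw (g : Sz σ e j R) (e0 : 0 ≤ e) {Q : ℝ} (hc : ∀ i < M, |c i| ≤ Q)
    (hq : ∀ i < M, |q i| ≤ Q) : Sz σ (M * (e + Fintype.card ν + Q)) j (hw σ M c q R) := by
  intro p p'
  have n0 : (0 : ℝ) ≤ Fintype.card ν := Nat.cast_nonneg _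
  refine (abs_sum_le_sum_abs _ _).trans ((sum_le_card_nsmul _ _ (Q * Real.exp
    (M * (e + Fintype.card ν) - (σ.wt p - σ.wt p') * j)) fun i hi => ?_).trans ?_)
  · have hi' := mem_range.1 hi
    have i1 : (i : ℝ) + 1 ≤ M := by exact_mod_cast hi'
    rw [abs_mul]
    refine mul_le_mul ?_ ((g.pow i p p').trans (Real.exp_le_exp.2 ?_)) (abs_nonneg _)
      ((abs_nonneg _).trans (hc i hi'))
    · split_ifs
      · exact hq i hi'
      · exact hc i hi'
    · nlinarith
  · rw [nsmul_eq_mul, card_range, ← mul_assoc, show M * (e + Fintype.card ν + Q) -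
      (σ.wt p - σ.wt p') * j = M * Q + (M * (e + Fintype.card ν) - (σ.wt p - σ.wt p') * j) by ring,
      Real.exp_add]
    exact mul_le_mul_of_nonneg_right (by linarith [Real.add_one_le_exp (M * Q)])
      (Real.exp_pos _).le

omit [Fintype ν] [DecidableEq ν] in
/-- The action of the relative is graded. -/
theorem gr_act (h : σ.Ok) {ρ : α → Matrix ν ν ℝ} (b : α → ℝ)
    (g : ∀ a p q, ρ a p q ≠ 0 → σ.wt p = σ.wt q + σ.et a ∧ (q ≠ σ.o → σ.w p = σ.w q)) :
    Gr σ (∑ a, b a • ρ a) := by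
  intro p p' k
  rw [Matrix.sum_apply] at k
  obtain ⟨a, -, ha⟩ := exists_ne_zero_of_sum_ne_zero k
  have := g a p p' (right_ne_zero_of_mul ha)
  exact ⟨by linarith [h.et0 a, this.1], this.2⟩

omit [Fintype ν] [DecidableEq ν] in
/-- The size of the action of the relative. -/
theorem sz_act {ρ : α → Matrix ν ν ℝ} {b : α → ℝ}
    (g : ∀ a p q, ρ a p q ≠ 0 → σ.wt p = σ.wt q + σ.et a ∧ (q ≠ σ.o → σ.w p = σ.w q))
    (rb : ∀ a p q, |ρ a p q| ≤ Real.exp e) (bb : ∀ a, |b a| ≤ Real.exp (e' - σ.et a * j)) :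
    Sz σ (e + e' + Fintype.card α) j (∑ a, b a • ρ a) := by
  intro p p'
  rw [Matrix.sum_apply]
  refine (abs_sum_le_sum_abs _ _).trans ((sum_le_card_nsmul _ _
    (Real.exp (e + e' - (σ.wt p - σ.wt p') * j)) fun a _ => ?_).trans ?_)
  · by_cases k : ρ a p p' = 0
    · simp [k, (Real.exp_pos _).le]
    · rw [Matrix.smul_apply, smul_eq_mul, abs_mul]
      refine (mul_le_mul (bb a) (rb a p p') (abs_nonneg _) (Real.exp_pos _).le).trans_eq ?_
      rw [← Real.exp_add, (g a p p' k).1]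
      congr 1
      ring
  · rw [nsmul_eq_mul, card_univ, show e + e' + Fintype.card α - (σ.wt p - σ.wt p') * j =
      Fintype.card α + (e + e' - (σ.wt p - σ.wt p') * j) by ring, Real.exp_add]
    exact mul_le_mul_of_nonneg_right (by linarith [Real.add_one_le_exp (Fintype.card α : ℝ)])
      (Real.exp_pos _).le

omit [Fintype α] in
/-- Off the column of the source the powers do not see the source. -/
theorem pow_off (h : σ.Ok) (g : Gr σ R) (g' : Gr σ R') (e : ∀ p q, q ≠ σ.o → R p q = R' p q)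
    (i : ℕ) (p p' : ν) (k : p' ≠ σ.o) : (R ^ (i + 1)) p p' = (R' ^ (i + 1)) p p' := by
  induction i generalizing p with
  | zero => simpa using e p p' k
  | succ i ih =>
    rw [pow_succ' R, pow_succ' R', mul_apply, mul_apply]
    refine sum_congr rfl fun m _ => ?_
    by_cases z : m = σ.o
    · rw [z, (g.pow h i).row h, (g'.pow h i).row h, mul_zero, mul_zero]
    · rw [e p m z, ih]

omit [Fintype α] in
theorem hw_off (h : σ.Ok) (g : Gr σ R) (g' : Gr σ R') (e : ∀ p q, q ≠ σ.o → R p q = R' p q)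
    (p p' : ν) (k : p' ≠ σ.o) : hw σ M c q R p p' = hw σ M c q R' p p' :=
  sum_congr rfl fun i _ => by rw [pow_off h g g' e i p p' k]

omit [Fintype α] in
/-- The noise: series on the coordinates off the source, and the series of the source. -/
theorem hw_mul (Z : ν → ℝ) (zo : Z σ.o = 1) : (R * hw σ M c q R) *ᵥ Z =
    ∑ i ∈ range M, c i • R ^ (i + 2) *ᵥ Function.update Z σ.o 0 +
      ∑ i ∈ range M, q i • R ^ (i + 1) *ᵥ fun p => R p σ.o := by
  have k : hw σ M c q R *ᵥ Z = ∑ i ∈ range M, c i • R ^ (i + 1) *ᵥ Function.update Z σ.o 0 +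
      ∑ i ∈ range M, q i • fun p => (R ^ (i + 1)) p σ.o := by
    funext p
    simp only [hw, mulVec, dotProduct, Pi.add_apply, Finset.sum_apply, Pi.smul_apply, smul_eq_mul,
      sum_mul, mul_sum, ← sum_add_distrib]
    rw [sum_comm]
    refine sum_congr rfl fun i _ => ?_
    rw [← add_sum_erase _ _ (mem_univ σ.o), ← add_sum_erase _ _ (mem_univ σ.o), if_pos rfl, zo,
      Function.update_self, sum_congr rfl (g := fun p' => c i * ((R ^ (i + 1)) p p' *
        Function.update Z σ.o 0 p')) fun p' hp => by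
          rw [if_neg (ne_of_mem_erase hp), Function.update_of_ne (ne_of_mem_erase hp), mul_assoc]]
    ring
  rw [← mulVec_mulVec, k, mulVec_add, mulVec_sum, mulVec_sum]
  congr 1
  · exact sum_congr rfl fun i _ => by rw [mulVec_smul, mulVec_mulVec, ← pow_succ']
  · refine sum_congr rfl fun i _ => ?_
    rw [mulVec_smul]
    congr 1
    funext p
    have : R * R ^ (i + 1) = R ^ (i + 1) * R := by rw [← pow_succ, ← pow_succ']
    exact (congrFun (congrFun this p) σ.o :)

omit [Fintype α] in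
theorem act_mul (Z : ν → ℝ) (zo : Z σ.o = 1) :
    R *ᵥ Z = R *ᵥ Function.update Z σ.o 0 + fun p => R p σ.o := by
  funext p
  simp only [mulVec, dotProduct, Pi.add_apply]
  rw [← add_sum_erase _ _ (mem_univ σ.o), ← add_sum_erase _ _ (mem_univ σ.o), zo,
    Function.update_self, sum_congr rfl (g := fun p' => R p p' * Function.update Z σ.o 0 p')
      fun p' hp => by rw [Function.update_of_ne (ne_of_mem_erase hp)]]
  ring

/-- The coefficients of the exponential. -/
noncomputable def ce (i : ℕ) : ℝ := (-1) ^ i / ((i + 2).factorial : ℝ)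

theorem ce_le (i : ℕ) : |ce i| ≤ 1 := by
  rw [ce, abs_div, abs_pow, abs_neg, abs_one, one_pow, Nat.abs_cast]
  exact div_le_one_of_le₀ (Nat.one_le_cast.2 (Nat.factorial_pos _)) (Nat.cast_nonneg _)

variable (σ) in
/-- The matrix without the column of the source. -/
def off (R : Matrix ν ν ℝ) : Matrix ν ν ℝ := fun p q => if q = σ.o then 0 else R p q

variable (σ) in
/-- The map `-(off R)`. -/
noncomputable def ng (R : Matrix ν ν ℝ) (x : ν → ℝ) : ν → ℝ := -(off σ R *ᵥ x)

omit [Fintype α] in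
theorem ng_it (h : σ.Ok) (g : Gr σ R) {x : ν → ℝ} (xo : x σ.o = 0) (i : ℕ) :
    (R ^ i *ᵥ x) σ.o = 0 ∧ (ng σ R)^[i] x = (-1 : ℝ) ^ i • R ^ i *ᵥ x := by
  induction i with
  | zero => simpa using xo
  | succ i ih =>
    rw [pow_succ' R, ← mulVec_mulVec]
    refine ⟨by simp [mulVec, dotProduct, g.row h], ?_⟩
    have k : off σ R *ᵥ R ^ i *ᵥ x = R *ᵥ R ^ i *ᵥ x := by
      funext p
      refine sum_congr rfl fun m _ => ?_
      by_cases z : m = σ.o
      · rw [z, ih.1, mul_zero, mul_zero]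
      · simp only [off, if_neg z]
    rw [Function.iterate_succ_apply', ih.2, ng, mulVec_smul, k, pow_succ, mul_neg_one, neg_smul]

omit [Fintype α] in
/-- The block plus the noise is the exponential series. -/
theorem exp_form (h : σ.Ok) (g : Gr σ R) (Z : ν → ℝ) (zo : Z σ.o = 1) :
    Z + (R * hw σ M ce ce R - R) *ᵥ Z = Pi.single σ.o 1 +
      ∑ k ∈ range (M + 2), ((k.factorial : ℚ))⁻¹ • (ng σ R)^[k] (Function.update Z σ.o 0) +
      ∑ k ∈ range (M + 1), (((k + 1).factorial : ℚ))⁻¹ • (ng σ R)^[k] fun p => -R p σ.o := by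
  have x0 : Function.update Z σ.o 0 σ.o = 0 := Function.update_self ..
  have y0 : (fun p => -R p σ.o) σ.o = 0 := by simp [g.row h]
  have z1 : Z = Pi.single σ.o 1 + Function.update Z σ.o 0 := by
    funext p
    by_cases k : p = σ.o
    · simp [k, zo]
    · simp [k]
  have s1 : ∀ i, (((i + 1 + 1).factorial : ℚ))⁻¹ • (ng σ R)^[i + 1 + 1] (Function.update Z σ.o 0) =
      ce i • R ^ (i + 2) *ᵥ Function.update Z σ.o 0 := fun i => by
    rw [(ng_it h g x0 _).2]
    funext p
    simp only [Pi.smul_apply, Rat.smul_def, smul_eq_mul, ce]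
    push_cast
    ring
  have s2 : ∀ i, (((i + 1 + 1).factorial : ℚ))⁻¹ • (ng σ R)^[i + 1] (fun p => -R p σ.o) =
      ce i • R ^ (i + 1) *ᵥ fun p => R p σ.o := fun i => by
    rw [(ng_it h g y0 _).2, show (fun p => -R p σ.o) = -fun p => R p σ.o from rfl, mulVec_neg]
    funext p
    simp only [Pi.smul_apply, Rat.smul_def, smul_eq_mul, ce, Pi.neg_apply]
    push_cast
    ring
  rw [sub_mulVec, hw_mul Z zo, act_mul Z zo, sum_range_succ', sum_range_succ', sum_range_succ']
  simp only [s1, s2]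
  rw [(ng_it h g x0 _).2]
  nth_rw 1 [z1]
  simp only [zero_add, Nat.factorial_one, Nat.factorial_zero, Nat.cast_one, inv_one, one_smul,
    pow_one, Function.iterate_zero, id, neg_smul, show (fun p => -R p σ.o) = -fun p => R p σ.o
      from rfl]
  abel

/-- The clauses on the higher words of a block system. -/
theorem bd_hw (h : σ.Ok) (X : Bd α ν) (hW : ∀ ω, X.W ω = hw σ M c q (X.R ω))
    (gr : ∀ ω ∈ X.P.S, ∀ a p q, X.ρ ω a p q ≠ 0 →
      σ.wt p = σ.wt q + σ.et a ∧ (q ≠ σ.o → σ.w p = σ.w q))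
    (fρ : ∀ a p q, q ≠ σ.o → Fn X.P (fun ω => X.ρ ω a p q) fun ω => (X.K ω, X.v ω)) :
    (∀ p q, q ≠ σ.o → Fn X.P (fun ω => X.W ω p q) fun ω => (X.K ω, X.T ω)) ∧
      Fn X.P X.W fun ω => (X.K ω, X.T ω, X.θ σ ω) := by
  have k : ∀ ω ∈ X.P.S, ∀ v ∈ X.P.S, (X.K ω, X.T ω) = (X.K v, X.T v) → ∀ p q, q ≠ σ.o →
      X.R ω p q = X.R v p q := fun ω hω v hv e p q z => by
    simp only [Bd.T, Prod.mk.injEq] at e
    simp only [Bd.R, Matrix.sum_apply, Matrix.smul_apply, e.2.2.1]
    exact sum_congr rfl fun a _ => congrArg _ (fρ a p q z ω hω v hv (Prod.ext e.1 e.2.1))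
  refine ⟨fun p q z ω hω v hv e => ?_, fun ω hω v hv e => ?_⟩
  · show X.W ω p q = X.W v p q
    rw [hW, hW]
    exact hw_off h (gr_act h _ (gr ω hω)) (gr_act h _ (gr v hv)) (k ω hω v hv e) p q z
  · rw [hW, hW]
    congr 1
    simp only [Prod.mk.injEq] at e
    funext p q
    by_cases z : q = σ.o
    · have e1 := e.2.1
      simp only [Bd.T, Prod.mk.injEq] at e1
      simp only [Bd.R, Matrix.sum_apply, Matrix.smul_apply, e1.2.1, z]
      exact sum_congr rfl fun a _ => congrArg _ (congrFun (congrFun e.2.2 a) p)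
    · exact k ω hω v hv (by rw [e.1, e.2.1]) p q z

/-- Grading and size of the higher words, and the form of the noise, at one point. -/
theorem pt_hw (h : σ.Ok) (X : Bd α ν) (ω : X.Ω) (hW : X.W ω = hw σ M ce ce (X.R ω)) (e0 : 0 ≤ e)
    (zo : X.Z ω σ.o = 1) (rb : ∀ a p q, |X.ρ ω a p q| ≤ Real.exp e)
    (bb : ∀ a, |X.b ω a| ≤ Real.exp (e - σ.et a * X.j ω))
    (gr : ∀ a p q, X.ρ ω a p q ≠ 0 → σ.wt p = σ.wt q + σ.et a ∧ (q ≠ σ.o → σ.w p = σ.w q)) :
    (∀ p q, X.W ω p q ≠ 0 → σ.wt q < σ.wt p ∧ (q ≠ σ.o → σ.w p = σ.w q)) ∧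
    (∀ p q, |X.W ω p q| ≤ Real.exp (M * (2 * e + Fintype.card α + Fintype.card ν + 1) -
      (σ.wt p - σ.wt q) * X.j ω)) ∧
    X.Z ω + X.N ω = Pi.single σ.o 1 + ∑ k ∈ range (M + 2), ((k.factorial : ℚ))⁻¹ •
      (ng σ (X.R ω))^[k] (Function.update (X.Z ω) σ.o 0) + ∑ k ∈ range (M + 1),
        (((k + 1).factorial : ℚ))⁻¹ • (ng σ (X.R ω))^[k] fun p => -X.R ω p σ.o := by
  have g : Gr σ (X.R ω) := gr_act h _ gr
  rw [Bd.N, hW]
  refine ⟨g.hw h, ?_, exp_form h g _ zo⟩
  have := (sz_act gr rb bb).hw (M := M) (c := ce) (q := ce) (by positivity)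
    (fun i _ => ce_le i) fun i _ => ce_le i
  rw [← two_mul] at this
  exact this

end FB

end Pool.Agent.MP_5168f5_an.QA.CSrc
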