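import Pool.Agent.MP_4b405e_nt.SK.CDef
import Pool.Agent.MP_4b405e_nt.SK.CSrc

/-! Sparse heights, block C: grading and measurability of the action and of the words. -/

namespace Pool.Agent.MP_5168f5_an.QA.SC

open H19 H17S H17F R4 AN Matrix Finset
open Pool.Agent.MP_4b405e_nt.FB (Bc Bd Bs)

open Classical in
theorem Wp_eq {α ν : Type} [Fintype ν] (τ : Bc α ν) (M : ℕ) (R : Matrix ν ν ℝ) :
    Wp M R = CSrc.hw τ M CSrc.ce CSrc.ce R := by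
  funext p q
  simp only [Wp, CSrc.hw, Matrix.sum_apply, Matrix.smul_apply, smul_eq_mul, ite_self, CSrc.ce]

variable {ι κ : Type} [Fintype ι] [DecidableEq ι] [Fintype κ] [DecidableEq κ]

namespace Wd

variable {σ : Kk ι κ} (h : σ.Ok) (Y : Wd ι κ) (p : Pm)

theorem bd_W (z : (Y.bd σ p).Ω) : (Y.bd σ p).W z = @CSrc.hw _ _ _ (fun _ _ => Classical.propDecidable _)
    (σ.bc h) σ.Φ.N CSrc.ce CSrc.ce ((Y.bd σ p).R z) := Wp_eq _ _ _

/-- The action is graded. -/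
theorem bd_gr (z : (Y.bd σ p).Ω) (a : σ.Al) (q q' : σ.Nu) (k : (Y.bd σ p).ρ z a q q' ≠ 0) :
    (σ.bc h).wt q = (σ.bc h).wt q' + (σ.bc h).et a ∧
      (q' ≠ (σ.bc h).o → (σ.bc h).w q = (σ.bc h).w q') := by
  rcases q with _ | b
  · exact (k rfl).elim
  rcases q' with _ | b'
  · refine ⟨?_, fun n => (n rfl).elim⟩
    by_contra n
    exact k (if_neg fun e => n (e.trans (zero_add _).symm))
  · have : σ.mu b.1 = σ.mu b'.1 + σ.mu a.1 ∧ σ.wt b.1 = σ.wt b'.1 := by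
      by_contra n
      refine k ?_
      show Y.ρ0 σ _ _ _ _ _ _ * _ / _ = 0
      rw [ρ0, if_neg n, zero_mul, zero_div]
    exact ⟨this.1, fun _ => this.2⟩

theorem ρ0_congr {i i' : ℕ} {ω ω' : Y.Ω} (e : Y.cp i ω = Y.cp i ω') (e' : Y.Cp i' ω = Y.Cp i' ω') :
    Y.ρ0 σ i i' ω = Y.ρ0 σ i i' ω' := by
  have e4 : Y.v1 i i' ω = Y.v1 i i' ω' := N2.rep_congr (Prod.ext e e')
  funext a b b'
  unfold ρ0
  rw [e, e4]

theorem ρ_congr {x : Par} {ω ω' : Y.Ω} (e : Y.cp x.1 ω = Y.cp x.1 ω')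
    (e' : Y.Cp (Y.i1 p x) ω = Y.Cp (Y.i1 p x) ω') (a : σ.Al) (q : σ.Nu) (b' : {b // σ.Nn b}) :
    Y.ρ σ p x ω a q (some b') = Y.ρ σ p x ω' a q (some b') := by
  rcases q with _ | b
  · simp only [ρ, Option.elim]
  · simp only [ρ, Option.elim, Y.ρ0_congr e e']

/-- Off the source the action is read from the context and the subcap. -/
theorem bd_fρ (a : σ.Al) (q q' : σ.Nu) (n : q' ≠ (σ.bc h).o) :
    Fn (Y.bd σ p).P (fun z => (Y.bd σ p).ρ z a q q')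
      fun z => ((Y.bd σ p).K z, (Y.bd σ p).v z) := by
  intro z _ z' _ e
  have e1 : Y.K σ p z.1 z.2.1.2 = Y.K σ p z'.1 z'.2.1.2 := (Prod.mk.inj e).1
  have e2 : Y.Cp (Y.i1 p z.1) z.2.1.2 = Y.Cp (Y.i1 p z'.1) z'.2.1.2 := (Prod.mk.inj e).2
  have e0 : z.1 = z'.1 := (Prod.mk.inj e1).1
  have e3 : Y.cp z.1.1 z.2.1.2 = Y.cp z'.1.1 z'.2.1.2 := (Prod.mk.inj (Prod.mk.inj e1).2).1
  rcases q' with _ | b'
  · exact (n rfl).elim
  show Y.ρ σ p z.1 z.2.1.2 a q (some b') = Y.ρ σ p z'.1 z'.2.1.2 a q (some b')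
  rw [← e0] at e2 e3 ⊢
  exact Y.ρ_congr p e3 e2 a q b'

/-- The constants are read from the context. -/
theorem bd_fc : Fn (Y.bd σ p).P (Y.bd σ p).c fun z => ((Y.bd σ p).K z, (Y.bd σ p).v z) := by
  rintro ⟨x, ⟨j, ω⟩, v⟩ - ⟨x', ⟨j', ω'⟩, v'⟩ - e
  have e1 : Y.K σ p x ω = Y.K σ p x' ω' := congrArg Prod.fst e
  obtain rfl : x = x' := congrArg Prod.fst e1
  have e3 : Y.cp x.1 ω = Y.cp x.1 ω' := congrArg (fun s => s.2.1) e1
  funext a a' a''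
  exact congrArg (fun s => Y.ck σ x.1 s a.1 a'.1 a''.1) e3

/-- The measurability of the higher words. -/
theorem bd_fW (ok : (σ.bc h).Ok) : (∀ q q', q' ≠ (σ.bc h).o → Fn (Y.bd σ p).P (fun z => (Y.bd σ p).W z q q')
      fun z => ((Y.bd σ p).K z, (Y.bd σ p).T z)) ∧
    Fn (Y.bd σ p).P (Y.bd σ p).W
      fun z => ((Y.bd σ p).K z, (Y.bd σ p).T z, (Y.bd σ p).θ (σ.bc h) z) := by
  exact @CSrc.bd_hw _ _ _ _ (fun _ _ => Classical.propDecidable _) _ _ _ _ ok _ (bd_W h Y p)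
    (fun z _ => bd_gr h Y p z) (bd_fρ h Y p)

end Wd

end Pool.Agent.MP_5168f5_an.QA.SC
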