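import Pool.Agent.MP_4b405e_nt.SK.CAc4

/-! Sparse heights, block C: the coefficients, the level and the constants at one point. -/

namespace Pool.Agent.MP_5168f5_an.QA.SC.Wd.P62

open H19 H17S H17F R4 AN Filter Matrix Real Finset AcA
open LC (ex_le)

variable {ι κ : Type} [Fintype ι] [DecidableEq ι] [Fintype κ] [DecidableEq κ]
  {σ : Kk ι κ} {Y : Wd ι κ} {p : Pm} {K e w r δ : ℝ} {z : Par × ((ℕ × Y.Ω) × Y.Ω)}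

/-- The description of a point of the space. -/
theorem mem (s : σ.Ok) (H : Y.Hyp σ p K e w r δ) (k2 : 2 ≤ K) (kC : σ.C ≤ K)
    (hz : z ∈ (Y.P2 σ p).S) : z.1 ∈ (Y.Px p).S ∧ z.1.1 < Y.nD ∧ z.2.1.2 ∈ Y.P.S ∧ z.2.2 ∈ Y.P.S ∧
      Y.E z.1.1 z.2.1.2 ∧ (Y.bd σ p).j z < σ.C * p.u ∧
      z.2.1.1 = Y.c₀ + (lv σ p z.1 + (Y.bd σ p).j z) ∧ lv σ p z.1 + σ.C * p.u ≤ Y.W ∧
      Y.Q (lv σ p z.1 + (Y.bd σ p).j z) z.2.1.2 = Y.Q (lv σ p z.1 + (Y.bd σ p).j z) z.2.2 := by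
  obtain ⟨h1, hE⟩ := memE s H k2 hz
  obtain ⟨hx, h2⟩ := (mem_bind _ _ _).1 h1
  obtain ⟨a1, a2, a3, a4, -⟩ := Haz.mem_rel _ h2
  obtain ⟨w1, w2⟩ := AcA.win s H k2 kC hx
  obtain ⟨j1, j2⟩ := mem_Ico.1 a1
  rw [w2] at j2
  have b : z.2.1.1 = Y.c₀ + (lv σ p z.1 + (Y.bd σ p).j z) := by
    change _ = _ + (_ + (z.2.1.1 - _)); omega
  have := mem_un ((mem_bind _ _ _).1 hx).1
  have := nD_pos H k2
  exact ⟨hx, by omega, a2, a3, hE, by omega, b, w1, by rw [Q, ← b]; exact a4.symm⟩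

theorem jl (s : σ.Ok) (H : Y.Hyp σ p K e w r δ) (k2 : 2 ≤ K) (kC : σ.C ≤ K)
    (hz : z ∈ (Y.P2 σ p).S) : (Y.bd σ p).j z < (σ.bc s).C * (Y.bd σ p).u :=
  (mem s H k2 kC hz).2.2.2.2.2.1

theorem cb (s : σ.Ok) (H : Y.Hyp σ p K e w r δ) (k2 : 2 ≤ K) (kC : σ.C ≤ K)
    (hz : z ∈ (Y.P2 σ p).S) (a a' a'' : σ.Al) : |(Y.bd σ p).c z a a' a''| ≤ exp e := by
  obtain ⟨-, hi, ho, -, hE, -⟩ := mem s H k2 kC hz
  have V := H.st.val _ hi _ ho hE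
  exact (congrArg abs (ck_al V a.2 a'.2 a''.2)).trans_le ((H.ok.alg _ V.mem.1).ob _ _ _)

theorem chi (s : σ.Ok) (H : Y.Hyp σ p K e w r δ) (k3 : 3 ≤ K) (kC : σ.C ≤ K)
    (hz : z ∈ (Y.P2 σ p).S) (a a' : σ.Al) :
    |(Y.bd σ p).c z a a' (σ.bc s).τ| ≤ exp (-(3 * (Y.bd σ p).u)) := by
  have k2 : 2 ≤ K := by linarith
  obtain ⟨-, hi, ho, -, hE, -⟩ := mem s H k2 kC hz
  obtain ⟨u1, uL, Ln, nw, -⟩ := num H k2
  have V := H.st.val _ hi _ ho hE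
  refine (congrArg abs (ck_al V a.2 a'.2 s.g1)).trans_le
    (((H.ok.alg _ V.mem.1).chi _ _).trans (ex_le ?_))
  change -w ≤ -(3 * (p.u : ℝ))
  nlinarith

/-- The unrounded coefficients. -/
theorem tb (s : σ.Ok) (H : Y.Hyp σ p K e w r δ) (k2 : 2 ≤ K) (kC : σ.C ≤ K)
    (hz : z ∈ (Y.P2 σ p).S) (b : κ) : |exp (σ.mu b * lv σ p z.1) * Y.t z.2.1.2 z.2.2 b| ≤
      exp (e - σ.mu b * (Y.bd σ p).j z) := by
  obtain ⟨-, -, ho, hv, -, j1, -, w1, q⟩ := mem s H k2 kC hz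
  refine (Cp.Nm5.mul_le (abs_exp _).le (H.ok.inc _ (by omega) _ ho _ hv q b).1).trans (ex_le ?_)
  push_cast
  linarith

theorem bb (s : σ.Ok) (H : Y.Hyp σ p K e w r δ) (k2 : 2 ≤ K) (kC : 2 * (σ.C * σ.C) + σ.C ≤ K)
    (hz : z ∈ (Y.P2 σ p).S) (a : σ.Al) :
    |(Y.bd σ p).b z a| ≤ exp (2 * e - (σ.bc s).et a * (Y.bd σ p).j z) := by
  have C0 : (0 : ℝ) ≤ σ.C := Nat.cast_nonneg _
  have kC' : σ.C ≤ K := by nlinarith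
  obtain ⟨u1, uL, Ln, -⟩ := num H k2
  have e1 := H.num.e1
  have j1 : ((Y.bd σ p).j z : ℝ) ≤ σ.C * p.u := by exact_mod_cast (jl s H k2 kC' hz).le
  have b1 : σ.mu a.1 * (Y.bd σ p).j z ≤ σ.C * (σ.C * p.u) := mul_le_mul
    ((s.mC _).trans (mul_le_of_le_one_right C0 lg_lt_one.le)) j1 (Nat.cast_nonneg _) C0
  have b2 : (p.nb : ℝ) * (1 / 2) ≤ p.nb * lg :=
    mul_le_mul_of_nonneg_left (by linarith [log_two_gt_d9, show lg = log 2 from rfl])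
      (Nat.cast_nonneg _)
  have b3 := (rd_sub p.nb (exp (σ.mu a.1 * lv σ p z.1) * Y.t z.2.1.2 z.2.2 a.1)).trans
    (ex_le (b := e - σ.mu a.1 * (Y.bd σ p).j z) (by
      nlinarith [mul_le_mul_of_nonneg_right kC (zero_le_one.trans u1)]))
  refine (sub_le_iff_le_add.1 ((abs_sub_abs_le_abs_sub _ _).trans b3)).trans ?_
  change _ ≤ exp (2 * e - σ.mu a.1 * (Y.bd σ p).j z)
  rw [show 2 * e - σ.mu a.1 * (Y.bd σ p).j z = e + (e - σ.mu a.1 * (Y.bd σ p).j z) by ring, exp_add]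
  nlinarith [tb s H k2 kC' hz a.1, add_one_le_exp e, exp_pos (e - σ.mu a.1 * (Y.bd σ p).j z)]

end Pool.Agent.MP_5168f5_an.QA.SC.Wd.P62
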