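import Pool.Agent.MP_4b405e_nt.SK.CRel
import Pool.Agent.MP_5168f5_an.H17F.Api

/-! The digits of a relative in terms of the digits of the base point. -/

namespace Pool.Agent.MP_5168f5_an.AN.GA.CR

open H19 H17S H17F H61Z Real GAMulA GABoxA GACntA Matrix

section Lin

variable {κ κ' : Type} [Fintype κ] [Fintype κ'] {c : κ → κ → κ → ℝ} {R s r' t w x : κ → ℝ}
  {u v : ℝ} {k n : ℕ} {e : κ' → κ}

theorem nat_exp (k : ℕ) : (k : ℝ) ≤ exp k :=
  (le_add_of_nonneg_right zero_le_one).trans (add_one_le_exp _)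

theorem bx_br (hk : Fintype.card κ ≤ k) (hr : ∀ a, 0 ≤ r' a) (i : Idl c R r' (exp u))
    (ht : Bx R (exp u) t) (hx : Bx r' (exp v) x) :
    Bx r' (exp (2 * u + 2 * k + v)) (br c t x) := by
  refine mono (bx hk (exp_pos u).le (exp_pos u).le (exp_pos v).le hr i ht hx) hr ?_
  have : (k : ℝ) ^ 2 ≤ exp k ^ 2 := pow_le_pow_left₀ k.cast_nonneg (nat_exp k) 2
  rw [show 2 * u + 2 * k + v = k + k + u + (u + v) by ring, exp_add, exp_add, exp_add, exp_add,
    ← pow_two]
  gcongr

theorem sum_le {F : κ' → ℝ} {X : ℝ} (hk : Fintype.card κ' ≤ k) (hX : 0 ≤ X) (h : ∀ q, |F q| ≤ X) :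
    |∑ q, F q| ≤ exp k * X :=
  (Finset.abs_sum_le_sum_abs _ _).trans ((Finset.sum_le_card_nsmul _ _ X fun q _ => h q).trans (by
    rw [nsmul_eq_mul]
    exact mul_le_mul_of_nonneg_right ((show _ ≤ (k : ℝ) by exact_mod_cast hk).trans (nat_exp k)) hX))

/-- The vector with the normalised coordinates `z` on the range of `e`. -/
noncomputable def lift (e : κ' → κ) (s : κ → ℝ) (z : κ' → ℝ) : κ → ℝ :=
  Function.extend e (fun p => s (e p) * z p) 0

omit [Fintype κ] [Fintype κ'] in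
theorem lift_in (he : e.Injective) (z : κ' → ℝ) (p : κ') : lift e s z (e p) = s (e p) * z p :=
  he.extend_apply _ _ p

omit [Fintype κ] [Fintype κ'] in
theorem lift_out (z : κ' → ℝ) {a : κ} (h : ¬∃ p, e p = a) : lift e s z a = 0 :=
  Function.extend_apply' _ _ _ h

omit [Fintype κ] [Fintype κ'] in
theorem lift_bx (he : e.Injective) (hs : ∀ a, 0 < s a) {z : κ' → ℝ} {X : ℝ} (hX : 0 ≤ X)
    (h : ∀ p, |z p| ≤ X) : Bx s X (lift e s z) := fun a => by
  by_cases q : ∃ p, e p = a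
  · obtain ⟨p, rfl⟩ := q
    rw [lift_in he, abs_mul, abs_of_pos (hs _), mul_comm]
    exact mul_le_mul_of_nonneg_right (h p) (hs _).le
  · rw [lift_out _ q, abs_zero]; exact mul_nonneg hX (hs a).le

theorem br_lift (he : e.Injective) (z : κ' → ℝ) (a : κ) :
    br c t (lift e s z) a = ∑ q, (∑ b, t b * c b (e q) a) * s (e q) * z q := by
  rw [br, Finset.sum_comm]
  refine (Fintype.sum_of_injective e he _ _ (fun b hb => ?_) fun q => ?_).symm
  · simp [lift_out z hb]
  · rw [lift_in he, Finset.sum_mul, Finset.sum_mul]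
    exact Finset.sum_congr rfl fun b _ => by ring

/-- The series in the bracket with `-t` against the series in the matrix `-M`. -/
theorem ser_mat [DecidableEq κ'] (he : e.Injective) (hk : Fintype.card κ ≤ k) (hu : 0 ≤ u) (hs : ∀ a, 0 < s a)
    (h1 : ∀ p, r' (e p) = s (e p) / 2 ^ n) (h2 : ∀ a, (¬∃ p, e p = a) → r' a = s a)
    (i1 : Idl c R s (exp u)) (i2 : Idl c R r' (exp u)) (ht : Bx R (exp u) t)
    {M : Matrix κ' κ' ℝ} (hb : ∀ p q, |M p q| ≤ exp u)
    (hd : ∀ p q, |(∑ a, t a * c a (e q) (e p)) * s (e q) / s (e p) - M p q| ≤ exp u / 2 ^ n)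
    {z : κ' → ℝ} (hz : ∀ p, |z p| ≤ exp v) (m : ℕ) (q : ℕ → ℚ) (hq : ∀ i, |(q i : ℝ)| ≤ 1)
    (p : κ') : |(∑ i ∈ Finset.range m, q i • (br c (-t))^[i] (lift e s z)) (e p) / s (e p) -
      (∑ i ∈ Finset.range m, q i • ((-M) ^ i *ᵥ z)) p| ≤
        exp (m * (2 * u + 2 * k + 3) + v) / 2 ^ n := by
  have hk' : Fintype.card κ' ≤ k := (Fintype.card_le_of_injective e he).trans hk
  have k0 : (0 : ℝ) ≤ k := k.cast_nonneg
  have r1 : ∀ a, 0 ≤ r' a := fun a => by
    by_cases h : ∃ p, e p = a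
    · obtain ⟨p, rfl⟩ := h
      rw [h1]; have := hs (e p); positivity
    · rw [h2 a h]; exact (hs a).le
  obtain ⟨g, hg⟩ : ∃ g : (κ → ℝ) → κ → ℝ,
    g = fun x => lift e s ((-M) *ᵥ fun q => x (e q) / s (e q)) := ⟨_, rfl⟩
  have nz : ∀ {v x}, Bx s (exp v) x → ∀ q, |x (e q) / s (e q)| ≤ exp v := fun h q => by
    rw [abs_div, abs_of_pos (hs _), div_le_iff₀ (hs _)]; exact h _
  have it : ∀ i, g^[i] (lift e s z) = lift e s ((-M) ^ i *ᵥ z) := fun i => by
    induction i with
    | zero => simp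
    | succ i ih =>
      rw [Function.iterate_succ_apply', ih, hg, pow_succ', ← mulVec_mulVec]
      simp only [lift_in he, mul_div_cancel_left₀ _ (hs _).ne']
  have key := ser_cmp (f := br c (-t)) (g := g) (r := s) (r' := r') (u := 2 * u + 2 * k + 1)
    (by linarith) r1 (fun x y => (br_sub_right c _ x y).symm)
    (fun v x h => bx_up (bx_br hk r1 i2 (GANrA.neg ht) h) r1 (by linarith))
    (fun v x h => hg ▸ lift_bx he hs (exp_pos _).le fun p => (sum_le hk' (X := exp u * exp v)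
      (by positivity) fun q => by
        rw [abs_mul]
        simp only [Matrix.neg_apply, abs_neg]
        exact mul_le_mul (hb p q) (nz h q) (abs_nonneg _) (exp_pos u).le).trans (by
          rw [← exp_add, ← exp_add]; exact exp_le_exp.2 (by linarith)))
    (fun v x h a => by
      by_cases o : ∃ p, e p = a
      · obtain ⟨p, rfl⟩ := o
        have a1 : Bx r' (exp v) (x - lift e s fun q => x (e q) / s (e q)) := fun b => by
          by_cases o : ∃ p, e p = b
          · obtain ⟨q, rfl⟩ := o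
            rw [Pi.sub_apply, lift_in he, mul_div_cancel₀ _ (hs _).ne', sub_self, abs_zero]
            exact mul_nonneg (exp_pos v).le (r1 _)
          · rw [Pi.sub_apply, lift_out _ o, sub_zero, h2 b o]; exact h b
        have a2 := bx_br hk r1 i2 (GANrA.neg ht) a1 (e p)
        have a3 : |br c (-t) (lift e s fun q => x (e q) / s (e q)) (e p) - g x (e p)| ≤
            exp (2 * u + 2 * k + v) * r' (e p) := by
          rw [br_neg_left, Pi.neg_apply, br_lift he, hg]
          simp only [lift_in he, mulVec, dotProduct, Matrix.neg_apply]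
          rw [Finset.mul_sum, ← Finset.sum_neg_distrib, ← Finset.sum_sub_distrib]
          refine (sum_le hk' (X := exp u / 2 ^ n * exp v * s (e p))
            (by have := hs (e p); positivity) fun q => ?_).trans ?_
          · refine le_trans (le_of_eq ?_) (mul_le_mul_of_nonneg_right (mul_le_mul (hd p q) (nz h q)
              (abs_nonneg _) (by positivity)) (hs (e p)).le)
            rw [← abs_mul, ← abs_of_pos (hs (e p)), ← abs_mul, abs_of_pos (hs (e p)), ← abs_neg]
            congr 1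
            have := (hs (e p)).ne'
            field_simp
            ring
          · rw [h1]
            have : exp k * (exp u * exp v) ≤ exp (2 * u + 2 * k + v) := by
              rw [← exp_add, ← exp_add]; exact exp_le_exp.2 (by linarith)
            exact le_of_eq_of_le (by ring) (mul_le_mul_of_nonneg_right this
              (show 0 ≤ s (e p) / 2 ^ n by have := hs (e p); positivity))
        rw [br_sub_right, Pi.sub_apply] at a2
        have a4 := mul_le_mul_of_nonneg_right (two_exp (2 * u + 2 * k + v)) (r1 (e p))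
        rw [Pi.sub_apply, show 2 * u + 2 * k + 1 + v = 2 * u + 2 * k + v + 1 by ring]
        rw [abs_le] at a2 a3 ⊢
        constructor <;> linarith [a2.1, a2.2, a3.1, a3.2]
      · rw [Pi.sub_apply, show g x a = 0 from hg ▸ lift_out _ o, sub_zero, h2 a o]
        exact bx_up (bx_br hk (fun a => (hs a).le) i1 (GANrA.neg ht) h) (fun a => (hs a).le)
          (by linarith) a)
    (lift_bx he hs (exp_pos v).le hz) m q hq (e p)
  rw [h1, Pi.sub_apply] at key
  have e1 : (∑ i ∈ Finset.range m, q i • g^[i] (lift e s z)) (e p) =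
      s (e p) * (∑ i ∈ Finset.range m, q i • ((-M) ^ i *ᵥ z)) p := by
    simp only [it, Finset.sum_apply, Pi.smul_apply, lift_in he, Finset.mul_sum, Rat.smul_def]
    exact Finset.sum_congr rfl fun i _ => by ring
  rw [e1] at key
  rw [div_sub' (hs _).ne', abs_div, abs_of_pos (hs _), div_le_iff₀ (hs _)]
  refine key.trans_eq ?_
  rw [show 2 * u + 2 * k + 1 + 2 = 2 * u + 2 * k + 3 by ring]
  ring

omit [Fintype κ] in
/-- Powers of a matrix with a source column. -/
theorem pow_src [DecidableEq κ'] {M : Matrix (Option κ') (Option κ') ℝ} (h : ∀ q, M none q = 0)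
    (z : Option κ' → ℝ) (i : ℕ) (p : κ') : ((-M) ^ (i + 1) *ᵥ z) (some p) =
      ((-M.submatrix some some) ^ (i + 1) *ᵥ fun q => z (some q)) p +
        ((-M.submatrix some some) ^ i *ᵥ fun q => -M (some q) none * z none) p := by
  have a : ∀ (y : Option κ' → ℝ) (p : κ'), ((-M) *ᵥ y) (some p) =
      ((-M.submatrix some some) *ᵥ fun q => y (some q)) p + -M (some p) none * y none := fun y p => by
    simp [mulVec, dotProduct, Fintype.sum_option, add_comm]
  induction i generalizing p with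
  | zero => simpa using a z p
  | succ i ih =>
    have b : ((-M) ^ (i + 1) *ᵥ z) none = 0 := by
      rw [pow_succ', ← mulVec_mulVec]; simp [mulVec, dotProduct, h]
    rw [pow_succ' (-M) (i + 1), ← mulVec_mulVec, a, b, mul_zero, add_zero, funext ih,
      pow_succ' (-M.submatrix some some) (i + 1), ← mulVec_mulVec]
    conv_rhs => arg 2; rw [pow_succ', ← mulVec_mulVec]
    exact congrFun (mulVec_add _ _ _) p

omit [Fintype κ] in
theorem ser_src [DecidableEq κ'] {M : Matrix (Option κ') (Option κ') ℝ} (h : ∀ q, M none q = 0)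
    (z : Option κ' → ℝ) (m : ℕ) (p : κ') :
    (∑ i ∈ Finset.range (m + 1), ((i.factorial : ℚ))⁻¹ • ((-M) ^ i *ᵥ z)) (some p) =
      (∑ i ∈ Finset.range (m + 1), ((i.factorial : ℚ))⁻¹ •
        ((-M.submatrix some some) ^ i *ᵥ fun q => z (some q))) p +
      (∑ i ∈ Finset.range m, (((i + 1).factorial : ℚ))⁻¹ •
        ((-M.submatrix some some) ^ i *ᵥ fun q => -M (some q) none * z none)) p := by
  simp only [Finset.sum_range_succ', Finset.sum_apply, Pi.smul_apply, pow_src h,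
    smul_add, Finset.sum_add_distrib, pow_zero, one_mulVec]
  abel

end Lin

section Dig

variable {ι κ κ' : Type} [Fintype ι] [DecidableEq ι] [Fintype κ] [Fintype κ'] {Φ : Filt (Mt ι)}
  {B : κ → Mt ι} {c : κ → κ → κ → ℝ} {R r s r' : κ → ℝ} {u C : ℝ} {k n : ℕ} {e : κ' → κ}

/-- The coordinates of `x` in its cell. -/
noncomputable def nu (B : κ → Mt ι) (r : κ → ℝ) (x : Mt ι) : κ → ℝ := lg B (cell B r x) x

/-- The first `n` binary digits of the fractional part. -/
noncomputable def dz (n : ℕ) (y : ℝ) : ℝ := (fl1 n y - 2 ^ n * ⌊y⌋) / 2 ^ n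

theorem dz_grid (n : ℕ) (y : ℝ) : ∃ i : ℤ, 2 ^ n * dz n y = i :=
  ⟨fl1 n y - 2 ^ n * ⌊y⌋, by rw [dz, mul_div_cancel₀ _ (by positivity)]; push_cast; rfl⟩

theorem dz_near (n : ℕ) (y : ℝ) : |y - ⌊y⌋ - dz n y| ≤ 1 / 2 ^ n := by
  have h := abs_fl1_sub n y
  have p : (0 : ℝ) < 2 ^ n := by positivity
  rw [show y - ⌊y⌋ - dz n y = -(fl1 n y - 2 ^ n * y) / 2 ^ n by rw [dz]; field_simp; ring, abs_div,
    abs_neg, abs_of_pos p]
  exact div_le_div_of_nonneg_right h p.le

theorem dz_abs (n : ℕ) (y : ℝ) : |dz n y| ≤ 2 := by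
  have h := abs_le.1 (dz_near n y)
  have : (1 : ℝ) / 2 ^ n ≤ 1 := div_le_one_of_le₀ (one_le_pow₀ one_le_two) (by positivity)
  rw [abs_le]
  constructor <;> linarith [Int.floor_le y, Int.lt_floor_add_one y]

/-- The block of digits of `x`: `n` digits after the depth `s`, and the source coordinate. -/
noncomputable def zb (n : ℕ) (e : κ' → κ) (B : κ → Mt ι) (r s : κ → ℝ) (x : Mt ι) :
    Option κ' → ℝ := fun p => p.elim 1 fun q => dz n (nu B r x (e q) / s (e q))

/-- The constant term: a function of the two contexts and of `t`. -/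
noncomputable def c0 (N : ℕ) (B : κ → Mt ι) (c : κ → κ → κ → ℝ) (s t : κ → ℝ)
    (k k' : Mt ι × (κ → ℤ)) (a : κ) : ℝ :=
  (lg B k'.1 (k.1 * ex B t) + Ad N c (-t) fun b => s b * k.2 b) a / s a - k'.2 a

omit [Fintype κ] in
theorem flo_bx (hs : ∀ a, 0 < s a) (x : κ → ℝ) : Bx s 1 (x - fun b => s b * ⌊x b / s b⌋) := fun b => by
  have h1 := (le_div_iff₀ (hs b)).1 (Int.floor_le (x b / s b))
  have h2 := (div_lt_iff₀ (hs b)).1 (Int.lt_floor_add_one (x b / s b))
  rw [Pi.sub_apply, abs_le]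
  constructor <;> linarith [hs b]

theorem ad_add (N : ℕ) (c : κ → κ → κ → ℝ) (t x y : κ → ℝ) :
    Ad N c t (x + y) = Ad N c t x + Ad N c t y := (sLin κ ℝ N c).1 t x y

theorem ew_add (N : ℕ) (c : κ → κ → κ → ℝ) (t x y : κ → ℝ) :
    Ew N c t (x + y) = Ew N c t x + Ew N c t y := by
  have := (sLin κ ℝ N c).2.2.2.1 t (-t) x 0 y 0
  rwa [add_zero] at this

variable (K : Kit Φ.N k C) (hk : Fintype.card κ ≤ k) (fr : IsFr Φ B c) (hu : 1 ≤ u)
include K hk fr hu

/-- Small factors on both sides change the exponent by a small amount. -/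
theorem near3 (hR : ∀ a, r' a ≤ R a) (hr : ∀ a, 0 ≤ r' a) (i1 : Idl c R R (exp u))
    (i2 : Idl c R r' (exp u)) {x y : Mt ι} {d d' τ : κ → ℝ} (hd : Bx r' (exp u) d)
    (hd' : Bx r' (exp u) d') (hτ : Bx R (exp u) τ) (h : y * ex B d' = x * ex B d * ex B τ) :
    ∃ δ, Bx r' (exp (2 * C ^ 2 * u)) δ ∧ y = x * ex B (τ + δ) := by
  have m := sMul ι κ Φ B c fr
  have c1 := K.c1
  have r3 := fun a => (hr a).trans (hR a)
  have l0 : u ≤ C * u := le_mul_of_one_le_left (by linarith) c1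
  have l1 : C * u ≤ C * (C * u) := le_mul_of_one_le_left (by linarith) c1
  have z := GANrA.zero (exp_pos u).le r3
  have z' := GANrA.zero (exp_pos (C * u)).le r3
  have a := K.box hk hu r3 hr m.anti i1 i2 (bx_le hd (exp_pos u).le hR) hτ z hτ
  have a2 := a.2 (by rwa [sub_zero]) (by rw [sub_self]; exact GANrA.zero (exp_pos u).le hr)
  have b := (K.box hk (hu.trans l0) r3 hr m.anti (idl_up i1 r3 l0) (idl_up i2 hr l0) a.1
    (GANrA.neg (bx_up (bx_le hd' (exp_pos u).le hR) r3 l0)) a.1 z').2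
    (by rw [sub_self]; exact GANrA.zero (exp_pos _).le hr)
    (by rw [sub_zero]; exact GANrA.neg (bx_up hd' hr l0))
  rw [(m.one _).2] at a2
  rw [(m.one _).1] at b
  have := bx_add' b (bx_up a2 hr l1) hr
  rw [sub_add_sub_cancel] at this
  refine ⟨_, bx_up this hr (by nlinarith), ?_⟩
  rw [add_sub_cancel, ← m.mul, ← m.mul, ← mul_assoc, ← mul_assoc, ← h, mul_assoc, (m.neg _).2,
    mul_one]

/-- The context of the relative is one of few, given the context of the base point and `t`. -/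
theorem mateK (T : Tow c R r s u) (k₀ : Mt ι × (κ → ℤ)) {t : κ → ℝ} (ht : Bx R (exp u) t) :
    ∃ S : Finset (Mt ι × (κ → ℤ)), (S.card : ℝ) ≤ exp ((2 + 12 * k) * C ^ 3 * u) ∧
      ∀ x w, IsUnit x → rnd B r s x = k₀ → Bx s (exp u) w → rnd B r s (x * ex B (t + w)) ∈ S := by
  classical
  by_cases hx : IsUnit k₀.1
  swap
  · exact ⟨∅, by simpa using (exp_pos _).le, fun x w a b _ =>
      absurd (b ▸ (cell_lg fr T.p2 a).1) hx⟩
  have m := sMul ι κ Φ B c fr
  have c1 := K.c1
  have c3 : C ≤ C ^ 3 := le_self_pow₀ c1 (by norm_num)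
  have l0 : C * u ≤ C ^ 3 * u := mul_le_mul_of_nonneg_right c3 (by linarith)
  have l1 : u ≤ C * u := le_mul_of_one_le_left (by linarith) c1
  have s0 := fun a => (T.pos a).le
  obtain ⟨S, s1, s2⟩ := mate K hk fr hu T hx ht
  choose D d1 d2 using fun y₀ : Mt ι => cells_near 0
    (fun a => (lg B y₀ (k₀.1 * ex B t) + Ad Φ.N c (-t) fun b => s b * k₀.2 b) a / s a)
    (exp_pos (8 * C ^ 3 * u + 2)).le
  refine ⟨S.biUnion fun y₀ => (D y₀).image fun z => (y₀, z), ?_, fun x w a b hw => ?_⟩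
  · have d3 : ∀ y₀, ((D y₀).card : ℝ) ≤ exp (12 * k * C ^ 3 * u) := fun y₀ => by
      have h1 : 2 * exp (8 * C ^ 3 * u + 2) + 3 ≤ exp (12 * C ^ 3 * u) := by
        have a := one_le_exp (show 0 ≤ 8 * C ^ 3 * u + 2 by linarith)
        have b := Real.quadratic_le_exp_of_nonneg (x := 2) zero_le_two
        refine le_trans ?_ (exp_le_exp.2 (show 8 * C ^ 3 * u + 2 + 2 ≤ _ by linarith))
        rw [exp_add (8 * C ^ 3 * u + 2)]
        nlinarith
      refine (d1 y₀).trans ((pow_le_pow_left₀ (by positivity) h1 _).trans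
        ((pow_le_pow_right₀ (one_le_exp (by linarith)) hk).trans_eq ?_))
      rw [← exp_nat_mul]; congr 1; ring
    refine (Nat.cast_le.2 Finset.card_biUnion_le).trans ?_
    rw [Nat.cast_sum]
    refine (Finset.sum_le_card_nsmul _ _ _ fun y₀ _ =>
      (Nat.cast_le.2 Finset.card_image_le).trans (d3 y₀)).trans ?_
    rw [nsmul_eq_mul]
    refine (mul_le_mul_of_nonneg_right s1 (exp_pos _).le).trans_eq ?_
    rw [← exp_add]; congr 1; ring
  · subst b
    obtain ⟨-, e1, b1⟩ := cell_lg fr T.p2 a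
    have b2 := mono b1 (fun a => (T.p2 a).le) (one_le_exp (show 0 ≤ u by linarith))
    have w2 := bx_le hw (exp_pos u).le T.le1
    have hy := a.mul (ex_unit fr (t + w))
    have q := (rel K hk fr hu T (x₀ := cell B r x) (cell_lg fr T.p2 hy).1 b2 ht w2 (by
      rw [← e1]
      exact nr_mono (cell_nr fr T.p2 _)
        fun a => mul_le_mul_of_nonneg_right (one_le_exp (by linarith)) (T.p2 a).le)).2
    have q' := s2 _ w b2 w2
    rw [show (rnd B r s x).1 = cell B r x from rfl, ← e1] at q'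
    rw [← e1] at q
    refine Finset.mem_biUnion.2 ⟨_, q', Finset.mem_image.2 ⟨_, ?_, rfl⟩⟩
    have f1 := (K.ad hk hu (fun a => (T.p3 a).le) s0 m.anti T.i1 T.i3 (GANrA.neg ht)
      (mono (flo_bx T.pos (lg B (cell B r x) x)) s0 (one_le_exp (by linarith)))).1
    have f2 := (K.ad hk hu (fun a => (T.p3 a).le) s0 m.anti T.i1 T.i3 (GANrA.neg ht) hw).2.1
    have f3 := bx_add' (bx_add' q (bx_up f1 s0 (by linarith)) s0) (bx_up f2 s0 (by linarith)) s0
    have f4 := ad_add Φ.N c (-t) (lg B (cell B r x) x - fun b => s b * ⌊lg B (cell B r x) x b / s b⌋)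
      fun b => s b * ⌊lg B (cell B r x) x b / s b⌋
    rw [sub_add_cancel] at f4
    have := d2 (cell B r (x * ex B (t + w)))
      (fun a => lg B (cell B r (x * ex B (t + w))) (x * ex B (t + w)) a / s a)
      ((pi_norm_le_iff_of_nonneg (by positivity)).2 fun a => by
        rw [Pi.sub_apply, ← sub_div, Real.norm_eq_abs, abs_div, abs_of_pos (T.pos a), pow_zero,
          div_one, div_le_iff₀ (T.pos a), ← one_add_one_eq_two, ← add_assoc]
        refine le_of_eq_of_le (congrArg _ ?_) (f3 a)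
        simp only [f4, rnd, Pi.add_apply, Pi.sub_apply]
        ring)
    convert this using 1
    funext a
    simp [flv, fl1]

/-- The digits of the relative. -/
theorem geo [DecidableEq κ'] (T : Tow c R r s u) (T' : Tow c R r r' u) (he : e.Injective)
    (h1 : ∀ p, r' (e p) = s (e p) / 2 ^ n) (h2 : ∀ a, (¬∃ p, e p = a) → r' a = s a)
    {x : Mt ι} {t w δ : κ → ℝ} (hx : IsUnit x) (ht : Bx R (exp u) t) (hw : Bx s (exp u) w)
    (hδ : Bx r' (exp u) δ) {M : Matrix (Option κ') (Option κ') ℝ} (ho : ∀ q, M none q = 0)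
    (hb : ∀ p q, |M (some p) (some q)| ≤ exp u)
    (hd : ∀ p q, |(∑ a, t a * c a (e q) (e p)) * s (e q) / s (e p) - M (some p) (some q)| ≤
      exp u / 2 ^ n)
    (hθ : ∀ p, |w (e p) / s (e p) + M (some p) none| ≤ exp u / 2 ^ n) {m : ℕ} (hm : Φ.N ≤ m)
    (p : κ') : |zb n e B r s (x * ex B (t + w + δ)) (some p) -
      c0 Φ.N B c s t (rnd B r s x) (rnd B r s (x * ex B (t + w + δ))) (e p) -
      (∑ i ∈ Finset.range (m + 1), ((i.factorial : ℚ))⁻¹ • ((-M) ^ i *ᵥ zb n e B r s x)) (some p)| ≤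
        exp ((24 * C ^ 3 + (m + 1) * (2 * k + 5)) * u) / 2 ^ n := by
  have mu := sMul ι κ Φ B c fr
  have c1 := K.c1
  have c3 : C ≤ C ^ 3 := le_self_pow₀ c1 (by norm_num)
  have l0 : C * u ≤ C ^ 3 * u := mul_le_mul_of_nonneg_right c3 (by linarith)
  have l1 : u ≤ C * u := le_mul_of_one_le_left (by linarith) c1
  have l2 : C ≤ C * u := le_mul_of_one_le_right (by linarith) hu
  have l3 : C ^ 3 ≤ C ^ 3 * u := le_mul_of_one_le_right (by linarith) hu
  have ul : u ≤ u + 1 := by linarith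
  have r1 := fun a => (T'.pos a).le
  have r2 := fun a => (T.p2 a).le
  have r3 := fun a => (T.p3 a).le
  have p2 : (0 : ℝ) < 2 ^ n := by positivity
  have p3 : (1 : ℝ) ≤ 2 ^ n := one_le_pow₀ one_le_two
  obtain ⟨-, e1, b1⟩ := cell_lg fr T.p2 hx
  have hy := hx.mul (ex_unit fr (t + w + δ))
  have q := (rel K hk fr (hu.trans ul) (T'.up ul) (x₀ := cell B r x) (cell_lg fr T.p2 hy).1
    (mono b1 r2 (one_le_exp (by linarith))) (bx_up ht r3 ul)
    (bx_add' (bx_le hw (exp_pos u).le T.le1) (bx_le hδ (exp_pos u).le T'.le1) r2) (by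
      rw [← e1, ← add_assoc]
      exact nr_mono (cell_nr fr T.p2 _)
        fun a => mul_le_mul_of_nonneg_right (one_le_exp (by linarith)) (T.p2 a).le)).2 (e p)
  rw [← e1, ← add_assoc] at q
  obtain ⟨y, ey⟩ : ∃ y, y = x * ex B (t + w + δ) := ⟨_, rfl⟩
  rw [← ey] at q ⊢
  have a1 : Bx r' 1 (nu B r x - (fun b => s b * ⌊nu B r x b / s b⌋) -
      lift e s fun q => zb n e B r s x (some q)) := fun b => by
    by_cases o : ∃ p, e p = b
    · obtain ⟨q, rfl⟩ := o
      have := mul_le_mul_of_nonneg_left (dz_near n (nu B r x (e q) / s (e q))) (T.pos (e q)).le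
      rw [← abs_of_pos (T.pos (e q)), ← abs_mul, abs_of_pos (T.pos (e q)), mul_sub, mul_sub,
        mul_div_cancel₀ _ (T.pos _).ne'] at this
      rw [Pi.sub_apply, lift_in he, h1]
      exact this.trans_eq (by ring)
    · rw [Pi.sub_apply, lift_out _ o, sub_zero, h2 b o]; exact flo_bx T.pos _ b
  have a2 : Bx r' (exp u) (w - lift e s fun q => -M (some q) none * zb n e B r s x none) :=
    fun b => by
      by_cases o : ∃ p, e p = b
      · obtain ⟨q, rfl⟩ := o
        have := mul_le_mul_of_nonneg_left (hθ q) (T.pos (e q)).le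
        rw [← abs_of_pos (T.pos (e q)), ← abs_mul, abs_of_pos (T.pos (e q)), mul_add,
          mul_div_cancel₀ _ (T.pos _).ne'] at this
        rw [Pi.sub_apply, lift_in he, h1]
        exact le_of_eq_of_le (by congr 1; simp [zb]) (this.trans_eq (by ring))
      · rw [Pi.sub_apply, lift_out _ o, sub_zero, h2 b o]; exact hw b
  have f1 := (K.ad hk hu r3 r1 mu.anti T.i1 T'.i3 (GANrA.neg ht)
    (mono a1 r1 (one_le_exp (by linarith)))).1 (e p)
  have f2 := (K.ad hk (hu.trans ul) r3 r1 mu.anti (T'.up ul).i1 (T'.up ul).i3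
    (GANrA.neg (bx_up ht r3 ul)) (bx_add' a2 hδ r1)).2.1 (e p)
  have g1 := ser_mat (M := M.submatrix some some) he hk (by linarith) T.pos h1 h2 T.i3 T'.i3 ht hb hd
    (z := fun q => zb n e B r s x (some q)) (v := u) (fun q => (dz_abs n _).trans
      (by linarith [add_one_le_exp u])) (m + 1) _ inv_fac p
  have g2 := ser_mat (M := M.submatrix some some) he hk (by linarith) T.pos h1 h2 T.i3 T'.i3 ht hb hd
    (z := fun q => -M (some q) none * zb n e B r s x none) (v := u + 1) (fun q => by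
      have a := abs_le.1 ((hθ q).trans (div_le_self (exp_pos u).le p3))
      have b : |w (e q) / s (e q)| ≤ exp u := by
        rw [abs_div, abs_of_pos (T.pos _), div_le_iff₀ (T.pos _)]; exact hw _
      have := two_exp u
      simp only [zb, Option.elim_none, mul_one]
      rw [abs_le] at b ⊢
      constructor <;> linarith [a.1, a.2, b.1, b.2]) m _ (fun i => inv_fac (i + 1)) p
  rw [← ad_range fr _ _ (hm.trans m.le_succ)] at g1
  rw [← ew_eq fr _ _ hm] at g2
  have g3 := dz_near n (nu B r y (e p) / s (e p))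
  have e2 := congrFun (ad_add Φ.N c (-t) (nu B r x - (fun b => s b * ⌊nu B r x b / s b⌋) -
    lift e s fun q => zb n e B r s x (some q)) ((fun b => s b * ⌊nu B r x b / s b⌋) +
      lift e s fun q => zb n e B r s x (some q))) (e p)
  rw [sub_sub, sub_add_cancel, ← sub_sub, ad_add] at e2
  have e3 := congrFun (ew_add Φ.N c (-t) (w - (lift e s fun q => -M (some q) none *
    zb n e B r s x none) + δ) (lift e s fun q => -M (some q) none * zb n e B r s x none)) (e p)
  rw [add_right_comm, sub_add_cancel] at e3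
  obtain ⟨V, hV⟩ : ∃ V, V = (16 * C ^ 3 + (m + 1) * (2 * k + 5)) * u := ⟨_, rfl⟩
  have m0 : (0 : ℝ) ≤ m := m.cast_nonneg
  have k0 : (0 : ℝ) ≤ k := k.cast_nonneg
  have v0 : 2 * u + 2 * k + 3 ≤ (2 * k + 5) * u := by nlinarith
  have v1 := mul_le_mul_of_nonneg_left v0 (show (0 : ℝ) ≤ m + 1 by linarith)
  have v2 : (0 : ℝ) ≤ 2 * u + 2 * k + 3 := by linarith
  have v3 := mul_nonneg (show (0 : ℝ) ≤ m + 1 by linarith) v2
  have nm : ∀ {X v : ℝ}, |X| ≤ exp v * r' (e p) → v ≤ V → |X / s (e p)| ≤ exp V / 2 ^ n :=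
    fun h l => by
      rw [abs_div, abs_of_pos (T.pos _), div_le_iff₀ (T.pos _)]
      refine h.trans ((mul_le_mul_of_nonneg_right (exp_le_exp.2 l) (r1 _)).trans_eq ?_)
      rw [h1]; ring
  have nm' : ∀ {X v : ℝ}, |X| ≤ exp v / 2 ^ n → v ≤ V → |X| ≤ exp V / 2 ^ n := fun h l =>
    h.trans (div_le_div_of_nonneg_right (exp_le_exp.2 l) p2.le)
  have n1 := abs_le.1 (nm q (by linarith))
  have n2 := abs_le.1 (nm f1 (by linarith))
  have n3 := abs_le.1 (nm f2 (by linarith))
  have n4 := abs_le.1 (nm' g1 (by push_cast; linarith))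
  have n5 := abs_le.1 (nm' g2 (by linarith))
  have n6 := abs_le.1 (nm' (v := 0) (exp_zero ▸ g3) (by linarith))
  have n7 : 6 * (exp V / 2 ^ n) ≤ exp ((24 * C ^ 3 + (m + 1) * (2 * k + 5)) * u) / 2 ^ n := by
    rw [← mul_div_assoc]
    refine div_le_div_of_nonneg_right (le_trans ?_ (exp_le_exp.2 (show V + 5 ≤ _ by linarith))) p2.le
    rw [exp_add, mul_comm]
    exact mul_le_mul_of_nonneg_left (by linarith [add_one_le_exp (5 : ℝ)]) (exp_pos V).le
  rw [ser_src ho]
  simp only [Pi.add_apply, Pi.sub_apply] at e2 e3 n1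
  have e4 : zb n e B r s y (some p) = dz n (nu B r y (e p) / s (e p)) := rfl
  have e5 : c0 Φ.N B c s t (rnd B r s x) (rnd B r s y) (e p) =
      (lg B (cell B r y) (cell B r x * ex B t) (e p) +
        Ad Φ.N c (-t) (fun b => s b * ⌊nu B r x b / s b⌋) (e p)) / s (e p) -
          ⌊nu B r y (e p) / s (e p)⌋ := rfl
  rw [show lg B (cell B r x) x = nu B r x from rfl, show lg B (cell B r y) y = nu B r y from rfl,
    e2, e3] at n1
  simp only [sub_div, add_div] at n1 e5
  rw [e4, e5, abs_le]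
  constructor <;> linarith [n1.1, n1.2, n2.1, n2.2, n3.1, n3.2, n4.1, n4.2, n5.1, n5.2, n6.1, n6.2]

/-- The context locates the point. -/
theorem rnd_nr (T : Tow c R r s u) {x x' : Mt ι} (hx : IsUnit x) (hx' : IsUnit x')
    (h : rnd B r s x = rnd B r s x') : Nr B s (exp (C * u)) x x' := by
  have m := sMul ι κ Φ B c fr
  have r2 := fun a => (T.p2 a).le
  have s0 := fun a => (T.pos a).le
  have o : (1 : ℝ) ≤ exp u := one_le_exp (by linarith)
  obtain ⟨-, e1, b1⟩ := cell_lg fr T.p2 hx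
  obtain ⟨-, e2, b2⟩ := cell_lg fr T.p2 hx'
  have e3 : cell B r x = cell B r x' := congrArg Prod.fst h
  have b3 := mono b1 r2 o
  have b4 : Bx s (exp u) (lg B (cell B r x') x' - lg B (cell B r x) x) := fun a => by
    have e4 : ⌊lg B (cell B r x) x a / s a⌋ = ⌊lg B (cell B r x') x' a / s a⌋ :=
      congrFun (congrArg Prod.snd h) a
    have := (Int.abs_sub_lt_one_of_floor_eq_floor e4.symm).le
    rw [← sub_div, abs_div, abs_of_pos (T.pos a), div_le_iff₀ (T.pos a)] at this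
    exact this.trans (mul_le_mul_of_nonneg_right o (s0 a))
  have := (K.box hk hu r2 s0 m.anti T.i4 T.i5 (GANrA.neg b3) (mono b2 r2 o) (GANrA.neg b3) b3).2
    (by rw [sub_self]; exact GANrA.zero (exp_pos u).le s0) b4
  rw [(m.inv _).1, sub_zero] at this
  refine ⟨_, this, ?_⟩
  rw [← m.mul, ← mul_assoc]
  conv_rhs => arg 1; arg 1; rw [e1]
  rw [mul_assoc (cell B r x), (m.neg _).2, mul_one, e3]
  exact e2

end Dig

section Ent

variable {ι κ Ω β : Type} [Fintype ι] [DecidableEq ι] [Fintype κ] {Φ : Filt (Mt ι)} {P : FP Ω}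
  {G : Ω → β} {B : Ω → κ → Mt ι} {c : Ω → κ → κ → κ → ℝ} {R r s t w : Ω → κ → ℝ}
  {x y : Ω → Mt ι} {u C : ℝ} {k : ℕ} (K : Kit Φ.N k C) (hk : Fintype.card κ ≤ k) (hu : 1 ≤ u)
  (h : ∀ ω ∈ P.S, IsFr Φ (B ω) (c ω) ∧ Tow (c ω) (R ω) (r ω) (s ω) u ∧ IsUnit (x ω))
include K hk hu h

theorem det_mate (hf : Fn P (fun ω => (B ω, r ω, s ω, t ω, rnd (B ω) (r ω) (s ω) (x ω))) G)
    (hy : ∀ ω ∈ P.S, Bx (R ω) (exp u) (t ω) ∧ Bx (s ω) (exp u) (w ω) ∧
      y ω = x ω * ex (B ω) (t ω + w ω)) :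
    Det P (fun ω => rnd (B ω) (r ω) (s ω) (y ω)) G (exp ((2 + 12 * k) * C ^ 3 * u)) := by
  intro a ha
  obtain ⟨S, s1, s2⟩ := mateK K hk (h a ha).1 hu (h a ha).2.1 (rnd (B a) (r a) (s a) (x a))
    (hy a ha).1
  refine ⟨S, s1, fun b hb e => ?_⟩
  have e1 := hf b hb a ha e
  simp only [Prod.mk.injEq] at e1
  obtain ⟨e1, e2, e3, e4, e5⟩ := e1
  have := (hy b hb).2.1
  simp only [(hy b hb).2.2]
  rw [e1, e2, e3] at e5
  rw [e3] at this
  rw [e1, e2, e3, e4]
  exact s2 _ _ (h b hb).2.2 e5 this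

/-- The context of the relative given the context of the base point and `t`. -/
theorem ch_mate (hf : Fn P (fun ω => (B ω, r ω, s ω, t ω, rnd (B ω) (r ω) (s ω) (x ω))) G)
    (hy : ∀ ω ∈ P.S, Bx (R ω) (exp u) (t ω) ∧ Bx (s ω) (exp u) (w ω) ∧
      y ω = x ω * ex (B ω) (t ω + w ω)) :
    ch P (fun ω => rnd (B ω) (r ω) (s ω) (y ω)) G ≤ (2 + 12 * k) * C ^ 3 * u :=
  (ch_det (det_mate K hk hu h hf hy)).trans_eq (log_exp _)

/-- The context of the base point given the context of the relative and `t`. -/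
theorem ch_mate' (hf : Fn P (fun ω => (B ω, r ω, s ω, t ω, rnd (B ω) (r ω) (s ω) (y ω))) G)
    (hy : ∀ ω ∈ P.S, Bx (R ω) (exp u) (t ω) ∧ Bx (s ω) (exp u) (w ω) ∧
      y ω = x ω * ex (B ω) (t ω + w ω)) :
    ch P (fun ω => rnd (B ω) (r ω) (s ω) (x ω)) G ≤ (2 + 12 * k) * C ^ 3 * u :=
  ch_mate (x := y) (t := fun ω => -t ω) (w := fun ω => -w ω) K hk hu
    (fun ω o => ⟨(h ω o).1, (h ω o).2.1, (hy ω o).2.2 ▸ (h ω o).2.2.mul (ex_unit (h ω o).1 _)⟩)
    (fun a ha b hb e => by
      have := hf a ha b hb e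
      simp only [Prod.mk.injEq, neg_inj] at this ⊢
      exact this)
    fun ω o => ⟨GANrA.neg (hy ω o).1, GANrA.neg (hy ω o).2.1, by
      rw [(hy ω o).2.2, ← neg_add, mul_assoc, ((sMul _ _ _ _ _ (h ω o).1).neg _).2, mul_one]⟩

theorem det_loc (hf : Fn P (fun ω => (B ω, r ω, s ω)) G)
    (hl : ∀ a ∈ P.S, ∀ b ∈ P.S, G a = G b → Nr (B a) (s a) (exp u) (x a) (x b)) :
    Det P (fun ω => rnd (B ω) (r ω) (s ω) (x ω)) G (exp ((2 + 12 * k) * C ^ 3 * u)) := by
  intro a ha
  obtain ⟨S, s1, s2⟩ := mateK K hk (h a ha).1 hu (h a ha).2.1 (rnd (B a) (r a) (s a) (x a))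
    (GANrA.zero (exp_pos u).le fun i => ((h a ha).2.1.p3 i).le)
  refine ⟨S, s1, fun b hb e => ?_⟩
  have e1 := hf b hb a ha e
  simp only [Prod.mk.injEq] at e1
  obtain ⟨e1, e2, e3⟩ := e1
  obtain ⟨d, d1, d2⟩ := hl a ha b hb e.symm
  have := s2 _ d (h a ha).2.2 rfl d1
  rw [zero_add, ← d2] at this
  simp only [e1, e2, e3]
  exact this

/-- A variable that locates the point determines its context up to a short list. -/
theorem ch_loc (hf : Fn P (fun ω => (B ω, r ω, s ω)) G)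
    (hl : ∀ a ∈ P.S, ∀ b ∈ P.S, G a = G b → Nr (B a) (s a) (exp u) (x a) (x b)) :
    ch P (fun ω => rnd (B ω) (r ω) (s ω) (x ω)) G ≤ (2 + 12 * k) * C ^ 3 * u :=
  (ch_det (det_loc K hk hu h hf hl)).trans_eq (log_exp _)

end Ent

end Pool.Agent.MP_5168f5_an.AN.GA.CR
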