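import Pool.Agent.MP_5168f5_an.H17F.Api

/-! The block system: a graded module, its blocks, one relative, budgets. -/

namespace Pool.Agent.MP_4b405e_nt.FB

open Pool.Agent.MP_5168f5_an H19 H17S H17F Real Matrix Filter

/-- The constants: weights `et` of the letters, the letter `τ`, weights `wt` and piece weights `w`
of the coordinates, the source coordinate `o`, the positions `ps`, the range `C` of the levels. -/
structure Bc (α ν : Type) : Type where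
  et : α → ℝ
  τ : α
  wt : ν → ℝ
  w : ν → ℝ
  o : ν
  ps : ν → Prop
  C : ℕ

/-- The data on one space: context `K`, subcap `v`, block `Z`, action `ρ` (the column `o` is the
source), constants `c`, level `j` and coefficients `b` of the relative, higher words `W`. -/
structure Bd (α ν : Type) : Type 1 where
  Ω : Type
  Kt : Type
  Vt : Type
  P : FP Ω
  u : ℕ
  K : Ω → Kt
  v : Ω → Vt
  Z : Ω → ν → ℝ
  ρ : Ω → α → Matrix ν ν ℝ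
  c : Ω → α → α → α → ℝ
  j : Ω → ℕ
  b : Ω → α → ℝ
  W : Ω → Matrix ν ν ℝ

variable {α ν : Type} [Fintype α] [Fintype ν]

namespace Bc

variable (σ : Bc α ν)

/-- The class of a coordinate. -/
noncomputable def cl (p : ν) : ℝ := σ.wt p / σ.w p

/-- The relations between the constants. -/
structure Ok : Prop where
  et0 : ∀ a, 0 < σ.et a
  tau : σ.et σ.τ = lg
  w0 : ∀ p, 0 < σ.w p
  wo : σ.wt σ.o = 0
  wt0 : ∀ p, p ≠ σ.o → 0 < σ.wt p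
  po : ¬σ.ps σ.o
  rng : ∀ a p q, lg * σ.w p ≤ (σ.C - 1) * (σ.et a * σ.w q)

open Classical in
/-- The coordinates of class `r`. -/
noncomputable def blk (r : ℝ) (x : ν → ℝ) : ν → ℝ := fun p => if σ.cl p = r then x p else 0

open Classical in
/-- The coordinates of the other classes. -/
noncomputable def oth (r : ℝ) (x : ν → ℝ) : ν → ℝ := fun p => if σ.cl p = r then 0 else x p

open Classical in
/-- The positions of class `r`. -/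
noncomputable def pos (r : ℝ) (x : ν → ℝ) : ν → ℝ :=
  fun p => if σ.ps p ∧ σ.cl p = r then x p else 0

open Classical in
/-- The number of positions of class `r`. -/
noncomputable def dm (r : ℝ) : ℕ := (Finset.univ.filter fun p => σ.ps p ∧ σ.cl p = r).card

/-- A unit functional on one group of coordinates (one weight, one piece). -/
def Un (ξ : ν → ℝ) : Prop :=
  ∑ p, |ξ p| = 1 ∧ ξ σ.o = 0 ∧ ∀ p q, ξ p ≠ 0 → ξ q ≠ 0 → σ.wt p = σ.wt q ∧ σ.w p = σ.w q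

end Bc

namespace Bd

variable (σ : Bc α ν) (X : Bd α ν)

/-- The source. -/
def θ (ω : X.Ω) : α → ν → ℝ := fun a p => X.ρ ω a p σ.o

/-- The action of the relative. -/
noncomputable def R (ω : X.Ω) : Matrix ν ν ℝ := ∑ a, X.b ω a • X.ρ ω a

/-- The noise. -/
noncomputable def N (ω : X.Ω) : ν → ℝ := (X.R ω * X.W ω - X.R ω) *ᵥ X.Z ω

/-- The data of the base point. -/
def Y (ω : X.Ω) : X.Kt × X.Vt × (ν → ℝ) × (α → ν → ℝ) := (X.K ω, X.v ω, X.Z ω, X.θ σ ω)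

/-- The form. -/
def T (ω : X.Ω) : X.Vt × (α → ℝ) × ℕ := (X.v ω, X.b ω, X.j ω)

/-- The facts at one point, with the loss `e`. -/
structure Pt (e : ℝ) (ω : X.Ω) : Prop where
  zo : X.Z ω σ.o = 1
  zb : ∀ p, |X.Z ω p| ≤ exp e
  zg : ∀ p, ∃ k : ℤ, 2 ^ X.u * X.Z ω p = k
  rb : ∀ a p q, |X.ρ ω a p q| ≤ exp e
  cb : ∀ a a' a'', |X.c ω a a' a''| ≤ exp e
  bb : ∀ a, |X.b ω a| ≤ exp (e - σ.et a * X.j ω)
  bt : exp (-1 - lg * X.j ω) ≤ |X.b ω σ.τ| ∧ |X.b ω σ.τ| ≤ exp (1 - lg * X.j ω)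
  jl : X.j ω < σ.C * X.u
  gr : ∀ a p q, X.ρ ω a p q ≠ 0 → σ.wt p = σ.wt q + σ.et a ∧ (q ≠ σ.o → σ.w p = σ.w q)
  gW : ∀ p q, X.W ω p q ≠ 0 → σ.wt q < σ.wt p ∧ (q ≠ σ.o → σ.w p = σ.w q)
  bW : ∀ p q, |X.W ω p q| ≤ exp (e - (σ.wt p - σ.wt q) * X.j ω)
  lie : ∀ a a' p q, |(X.ρ ω a * X.ρ ω a' - X.ρ ω a' * X.ρ ω a) p q -
    ∑ a'', X.c ω a a' a'' * X.ρ ω a'' p q| ≤ exp (-(2 * X.u))
  chi : ∀ a a', |X.c ω a a' σ.τ| ≤ exp (-(2 * X.u))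
  m0 : ∀ a p q, a ≠ σ.τ → σ.ps p → ¬σ.ps q → |X.ρ ω a p q| ≤ exp (-(2 * X.u))

/-- The facts on one space, with the loss `e`. -/
structure Ok (e : ℝ) : Prop where
  pt : ∀ ω ∈ X.P.S, X.Pt σ e ω
  fρ : ∀ a p q, q ≠ σ.o → Fn X.P (fun ω => X.ρ ω a p q) fun ω => (X.K ω, X.v ω)
  fc : Fn X.P X.c fun ω => (X.K ω, X.v ω)
  fW : ∀ p q, q ≠ σ.o → Fn X.P (fun ω => X.W ω p q) fun ω => (X.K ω, X.T ω)
  fW' : Fn X.P X.W fun ω => (X.K ω, X.T ω, X.θ σ ω)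
  lv : ∀ (A : _ → Prop) (k : ℕ), k < σ.C * X.u →
    (σ.C * X.u : ℕ) * pb X.P (fun ω => A (X.Y σ ω) ∧ X.j ω = k) = pb X.P fun ω => A (X.Y σ ω)
  b1 : ∀ r, mi X.P (fun ω => flv X.u (σ.blk r (X.Z ω + X.N ω))) (fun ω => σ.blk r (X.N ω))
    (fun ω => (X.K ω, X.T ω)) ≤ e
  b2 : ∀ r, mi X.P (fun ω => σ.blk r (X.Z ω))
    (fun ω => (σ.oth r (X.Z ω), X.θ σ ω, X.T ω)) X.K ≤ e
  b3 : mi X.P (X.θ σ) (fun ω => (X.Z ω, X.b ω, X.j ω)) (fun ω => (X.K ω, X.v ω)) ≤ e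

/-- A unit character up to `exp (-h)`. -/
def Chr (h : ℝ) (ω : X.Ω) (χ : α → ℝ) : Prop :=
  ∑ a, |χ a| = 1 ∧ ∀ a a', |∑ a'', X.c ω a a' a'' * χ a''| ≤ exp (-h)

/-- Some character is thin on many relatives of the base point of `ω` at the level of `ω`. -/
def Bad (r δ : ℝ) (ω : X.Ω) : Prop := ∃ χ, X.Chr (2 * r * X.u) ω χ ∧
  δ < pb (cv X.P (fun v => (X.Y σ v, X.j v)) (X.Y σ ω, X.j ω)) fun v =>
    |∑ a, χ a * (exp (σ.et a * X.j v) * X.b v a)| ≤ exp (-(r * X.u))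

/-- Anti-concentration of the coefficients, given the base point and the level. -/
def Ac (r δ : ℝ) : Prop := pb X.P (X.Bad σ r δ) ≤ δ

/-- The functional `ξ` kills the action and sees the source as `l`, up to `exp (-h)`. -/
def Dg (h : ℝ) (ω : X.Ω) (ξ : ν → ℝ) (l : α → ℝ) : Prop :=
  ∀ a, (∀ q, q ≠ σ.o → |(ξ ᵥ* X.ρ ω a) q| ≤ exp (-h)) ∧ |(ξ ᵥ* X.ρ ω a) σ.o - l a| ≤ exp (-h)

/-- Short lists do not contain degenerate functionals. -/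
def Nd (r δ κ : ℝ) : Prop :=
  ∀ (T : X.Kt → Finset (ν → ℝ)) (T' : X.Kt → (ν → ℝ) → X.Vt → Finset (α → ℝ)),
    (∀ k, ((T k).card : ℝ) ≤ exp (κ * X.u)) → (∀ k ξ y, ((T' k ξ y).card : ℝ) ≤ exp (κ * X.u)) →
    pb X.P (fun ω => ∃ ξ ∈ T (X.K ω), ∃ l ∈ T' (X.K ω) ξ (X.v ω),
      σ.Un ξ ∧ X.Dg σ (r * X.u) ω ξ l) ≤ δ

/-- The positions of class `r` are flat given the context, up to `ε`. -/
def Fl (r ε : ℝ) : Prop :=
  (σ.dm r - ε) * (X.u * lg) ≤ ch X.P (fun ω => σ.pos r (X.Z ω)) X.K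

end Bd

/-- The block system. -/
structure Bs (σ : Bc α ν) (X : ℕ → Bd α ν) : Prop where
  ok : σ.Ok
  big : Big fun n => (X n).u
  ev : ∀ ε : ℝ, 0 < ε → ∀ᶠ n in UF, (X n).Ok σ (ε * (X n).u)
  ac : ∀ r δ : ℝ, 0 < r → 0 < δ → ∀ᶠ n in UF, (X n).Ac σ r δ
  nd : ∀ r δ : ℝ, 0 < r → 0 < δ → ∃ κ : ℝ, 0 < κ ∧ ∀ᶠ n in UF, (X n).Nd σ r δ κ

/-- All positions are flat. -/
def SpF : Prop := ∀ (α ν : Type) [Fintype α] [Fintype ν] (σ : Bc α ν) (X : ℕ → Bd α ν),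
  Bs σ X → ∀ r ε : ℝ, 0 < ε → ∀ᶠ n in UF, (X n).Fl σ r ε

end Pool.Agent.MP_4b405e_nt.FB
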