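import Pool.Agent.MP_5168f5_an.H17F.KE
import Pool.Agent.MP_5168f5_an.H17F.KG
import Pool.Agent.MP_5168f5_an.H17F.Sq2
import Pool.Agent.MP_4b405e_nt.SK.FDef

/-! Sparse slopes, block G: the count. -/

namespace Pool.Agent.MP_5168f5_an.QA.SG

open H19 H17S H17F Finset

variable {Ω β γ τ ν : Type}

/-- The plain count. The context `K (i + 1)` reads `K i` and the digits `Y i` up to `δ`. -/
theorem cnt0 (P : FP Ω) (N : ℕ) (K : ℕ → Ω → β) (Y : ℕ → Ω → γ) :
    ∑ i ∈ range N, ch P (Y i) (K i) ≤ ch P (K N) (K 0) +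
      ∑ i ∈ range N, (ch P (K i) (K (i + 1)) + ch P (Y i) (K (i + 1))) := by
  have s : ∀ n, ∑ i ∈ range n, ch P (Y i) (K i) ≤ hh P (K n) - hh P (K 0) +
      ∑ i ∈ range n, (ch P (K i) (K (i + 1)) + ch P (Y i) (K (i + 1))) := fun n => by
    induction n with
    | zero => simp
    | succ i ih =>
      have h1 := ch_tri' (P := P) (Y i) (K i) (K (i + 1))
      have h2 : ch P (K (i + 1)) (K i) + hh P (K i) = ch P (K i) (K (i + 1)) + hh P (K (i + 1)) := by
        have : hh P (fun ω => (K (i + 1) ω, K i ω)) = hh P fun ω => (K i ω, K (i + 1) ω) :=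
          hh_congr ((Fn.snd _ _).pair (Fn.fst _ _)) ((Fn.snd _ _).pair (Fn.fst _ _))
        unfold ch; linarith
      rw [sum_range_succ, sum_range_succ]
      linarith
  exact (s N).trans (add_le_add (sub_le_sub_right (hh_mono (Fn.fst _ _)) _) le_rfl)

/-- The plain count with a label `T` that reads the last context. -/
theorem cnt1 (P : FP Ω) (N : ℕ) (K : ℕ → Ω → β) (Y : ℕ → Ω → γ) (T : Ω → τ) {b e δ : ℝ}
    (hn : ∀ i < N, ch P (K i) (K (i + 1)) ≤ δ) (hy : ∀ i < N, ch P (Y i) (K (i + 1)) ≤ δ)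
    (hb : ch P T (K 0) ≤ b) (he : ch P (K N) (fun ω => (T ω, K 0 ω)) ≤ e) :
    ∑ i ∈ range N, ch P (Y i) (K i) ≤ b + e + N * (2 * δ) := by
  have h := sum_le_card_nsmul (range N) _ (2 * δ) fun i hi =>
    show ch P (K i) (K (i + 1)) + ch P (Y i) (K (i + 1)) ≤ 2 * δ by
      linarith [hn i (mem_range.1 hi), hy i (mem_range.1 hi)]
  rw [card_range, nsmul_eq_mul] at h
  linarith [cnt0 P N K Y, ch_tri (P := P) (K N) T (K 0)]

/-- The count against an event `G` on which the label `T` is cheap. -/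
theorem cnt (P : FP Ω) (N : ℕ) (K : ℕ → Ω → β) (Y : ℕ → Ω → γ) (T : Ω → τ) (G : Ω → Prop)
    {a b c e δ : ℝ} (hn : ∀ i < N, ch P (K i) (K (i + 1)) ≤ δ)
    (hy : ∀ i < N, ch P (Y i) (K (i + 1)) ≤ δ) (hr : ∀ i < N, Det P (Y i) (K i) (Real.exp a))
    (hc : c ≤ pb P G) (hb : ch (cE P G) T (K 0) ≤ b) (ba : b ≤ N * a)
    (he : ch P (K N) (fun ω => (T ω, K 0 ω)) ≤ e) :
    ∑ i ∈ range N, ch P (Y i) (K i) ≤ N * a - c * (N * a - b) + e + N * (lg + 2 * δ) := by
  have p0 := pb_nonneg P G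
  have p1 := sub_nonneg.2 (pb_le_one P G)
  have k : ∀ {α α' : Type} (F : Ω → α) (F' : Ω → α'), pb P G * ch (cE P G) F F' ≤ ch P F F' :=
    fun F F' => (le_add_of_nonneg_right (mul_nonneg p1 (ch_nonneg _ _))).trans (KEA.ge P G F F')
  have h1 := sum_le_sum (s := range N) fun i hi => show ch P (Y i) (K i) ≤
      pb P G * ch (cE P G) (Y i) (K i) + (lg + (1 - pb P G) * a) by
    have := (ch_det (det_cE (hr i (mem_range.1 hi)) fun ω => ¬G ω)).trans_eq (Real.log_exp a)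
    linarith [KEA.le P G (Y i) (K i), mul_le_mul_of_nonneg_left this p1]
  have h2 := sum_le_card_nsmul (range N) _ (2 * δ) fun i hi => show pb P G *
      (ch (cE P G) (K i) (K (i + 1)) + ch (cE P G) (Y i) (K (i + 1))) ≤ 2 * δ by
    linarith [hn i (mem_range.1 hi), hy i (mem_range.1 hi), k (K i) (K (i + 1)),
      k (Y i) (K (i + 1))]
  rw [sum_add_distrib, ← mul_sum, sum_const] at h1
  rw [← mul_sum] at h2
  rw [card_range, nsmul_eq_mul] at h1 h2
  linarith [mul_le_mul_of_nonneg_left (cnt0 (cE P G) N K Y) p0,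
    mul_le_mul_of_nonneg_left (ch_tri (P := cE P G) (K N) T (K 0)) p0,
    mul_le_mul_of_nonneg_left hb p0, k (K N) fun ω => (T ω, K 0 ω),
    mul_le_mul_of_nonneg_right hc (sub_nonneg.2 ba)]

/-- A parameter that is put into the context averages the entropies. -/
theorem ch_mix {I : Type} (U : FP I) (P : I → FP Ω) (F : I → Ω → γ) (K : I → Ω → β) :
    ch (bind U P) (fun x => F x.1 x.2) (fun x => (K x.1 x.2, x.1)) =
      U.E fun i => ch (P i) (F i) (K i) := by
  classical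
  rw [KEA.ent (bind U P) Prod.fst (fun i x => F i x.2) fun i x => K i x.2]
  refine (KGA.E_bind_fst U P fun i => ch (cv (bind U P) Prod.fst i) (fun x => F i x.2)
    fun x => K i x.2).trans (U.E_congr fun i hi => Law.ch_id (fun φ => ?_) _ _)
  have h1 : pb (bind U P) (fun v => v.1 = i) = pb U fun a => a = i :=
    Law.pb_eq (f := Prod.fst) (g := id) (fun F => KGA.E_bind_fst U P F) fun a => a = i
  refine mul_left_cancel₀ (pb_pos U (E := fun a => a = i) ⟨i, hi, rfl⟩).ne' ?_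
  have h2 := E_cE (bind U P) (fun v => v.1 = i) fun v => φ v.2
  rw [h1, E_bind] at h2
  refine h2.trans ?_
  rw [pb, mul_comm, ← U.E_mul]
  refine U.E_congr fun a _ => ?_
  by_cases e : a = i
  · simp [e]
  · simp only [e, if_false, mul_zero]; exact FP.E_const _ 0

/-! ### Blocks of digits -/

open Classical in
/-- The coordinates in `S`. -/
noncomputable def cut (S : ν → Prop) (z : ν → ℤ) : ν → ℤ := fun p => if S p then z p else 0

/-- The first `h p` digits of the coordinate `p`. -/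
noncomputable def dg (h : ν → ℕ) (z : ν → ℝ) : ν → ℤ := fun p => fl1 (h p) (z p)

variable {P : FP Ω}

theorem cut_le {S S' : ν → Prop} (h : ∀ p, S p → S' p) (V : Ω → ν → ℤ) :
    Fn P (fun ω => cut S (V ω)) fun ω => cut S' (V ω) := fun _ _ _ _ e => funext fun p => by
  by_cases k : S p
  · simpa [cut, k, h p k] using congrFun e p
  · simp [cut, k]

theorem cut_or {S A B : ν → Prop} (h : ∀ p, S p → A p ∨ B p) (V : Ω → ν → ℤ) :
    Fn P (fun ω => cut S (V ω)) fun ω => (cut A (V ω), cut B (V ω)) :=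
  fun _ _ _ _ e => funext fun p => by
  by_cases k : S p
  · rcases h p k with q | q
    · simpa [cut, k, q] using congrFun (congrArg Prod.fst e) p
    · simpa [cut, k, q] using congrFun (congrArg Prod.snd e) p
  · simp [cut, k]

/-- The entropies of the classes add up to the informations between them. -/
theorem cls (S : ν → Prop) (cl : ν → ℝ) (V : Ω → ν → ℤ) (K : Ω → β) (R : Finset ℝ) :
    ∑ r ∈ R, ch P (fun ω => cut (fun p => S p ∧ cl p = r) (V ω)) K ≤
      ch P (fun ω => cut (fun p => S p ∧ cl p ∈ R) (V ω)) K +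
      ∑ r ∈ R, mi P (fun ω => cut (fun p => S p ∧ cl p = r) (V ω))
        (fun ω => cut (fun p => S p ∧ cl p < r) (V ω)) K := by
  classical
  induction R using Finset.induction_on_max with
  | empty => simpa using ch_nonneg _ _
  | insert r R hr ih =>
    have n : r ∉ R := fun h => lt_irrefl _ (hr r h)
    have h1 := ch_chain (P := P) (fun ω => cut (fun p => S p ∧ cl p ∈ R) (V ω))
      (fun ω => cut (fun p => S p ∧ cl p = r) (V ω)) K
    have h2 : ch P (fun ω => (cut (fun p => S p ∧ cl p ∈ R) (V ω),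
        cut (fun p => S p ∧ cl p = r) (V ω))) K ≤
        ch P (fun ω => cut (fun p => S p ∧ cl p ∈ insert r R) (V ω)) K :=
      ch_mono (((cut_le (fun p k => ⟨k.1, mem_insert_of_mem k.2⟩) V).pair
        (cut_le (fun p k => ⟨k.1, k.2 ▸ mem_insert_self _ _⟩) V)).left K)
    have h3 : mi P (fun ω => cut (fun p => S p ∧ cl p = r) (V ω))
        (fun ω => cut (fun p => S p ∧ cl p ∈ R) (V ω)) K ≤
        mi P (fun ω => cut (fun p => S p ∧ cl p = r) (V ω))
          (fun ω => cut (fun p => S p ∧ cl p < r) (V ω)) K :=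
      mi_mono ((cut_le (fun p k => ⟨k.1, hr _ k.2⟩) V).left K)
    rw [sum_insert n, sum_insert n]
    rw [mi] at h3
    linarith

variable [Fintype ν]

open Classical in
/-- The digits between the depths `h` and `h'`. -/
theorem ch_dg (S : ν → Prop) {h h' : ν → ℕ} (hh' : ∀ p, S p → h p ≤ h' p) (Z : Ω → ν → ℝ)
    (K : Ω → β) : ch P (fun ω => cut S (dg h' (Z ω))) K ≤ ch P (fun ω => cut S (dg h (Z ω))) K +
      (∑ p with S p, ((h' p : ℝ) - h p)) * lg := by
  refine (ch_tri _ (fun ω => cut S (dg h (Z ω))) K).trans (add_le_add le_rfl ?_)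
  have := ch_pi_le (P := P) (univ.filter S) (fun p ω => fl1 (h' p) (Z ω p)) 0
    fun ω => (cut S (dg h (Z ω)), K ω)
  refine le_trans (le_of_eq (ch_ext (fun ω _ => funext fun p => by simp [cut, dg])
    fun _ _ => rfl)) (this.trans ?_)
  rw [sum_mul]
  refine sum_le_sum fun p hp => ?_
  have k := (mem_filter.1 hp).2
  have := ch_fl1_refine (P := P) (x := fun ω => Z ω p) (G := fun ω => (cut S (dg h (Z ω)), K ω))
    (j := fun _ => h p) (i := fun _ => h' p - h p) (fun _ _ _ _ _ => rfl) (fun _ _ _ _ _ => rfl)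
    fun _ _ _ _ e => by simpa [cut, dg, k] using congrFun (congrArg Prod.fst e) p
  rwa [FP.E_const, Nat.add_sub_cancel' (hh' p k), Nat.cast_sub (hh' p k)] at this

open Classical in
/-- The number of values of the first digits of a bounded vector. -/
theorem det_dg (S : ν → Prop) (h : ν → ℕ) (Z : Ω → ν → ℝ) (K : Ω → β) {r : ℝ} (r0 : 0 ≤ r)
    (hZ : ∀ ω ∈ P.S, ∀ p, S p → |Z ω p| ≤ Real.exp r) :
    Det P (fun ω => cut S (dg h (Z ω))) K (Real.exp (∑ p with S p, (h p * lg + (r + 2)))) := by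
  intro _ _
  refine ⟨Fintype.piFinset fun p => if S p then Icc (-(⌈2 ^ h p * Real.exp r⌉₊ : ℤ))
    ⌈2 ^ h p * Real.exp r⌉₊ else {0}, ?_, fun b hb _ => Fintype.mem_piFinset.2 fun p => ?_⟩
  · rw [Fintype.card_piFinset, Real.exp_sum, prod_filter]
    push_cast
    refine prod_le_prod (fun _ _ => by positivity) fun p _ => ?_
    split_ifs
    · have a : (1 : ℝ) ≤ 2 ^ h p * Real.exp r :=
        one_le_mul_of_one_le_of_one_le (one_le_pow₀ one_le_two) (Real.one_le_exp r0)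
      have c := Nat.ceil_lt_add_one (zero_le_one.trans a)
      have d : (5 : ℝ) ≤ Real.exp 2 := by
        have := Real.quadratic_le_exp_of_nonneg (x := 2) zero_le_two
        linarith
      have e : (Icc (-(⌈2 ^ h p * Real.exp r⌉₊ : ℤ)) ⌈2 ^ h p * Real.exp r⌉₊).card =
          2 * ⌈2 ^ h p * Real.exp r⌉₊ + 1 := by rw [Int.card_Icc]; omega
      rw [e, Real.exp_add, Real.exp_add, lg, Real.exp_nat_mul, Real.exp_log two_pos, ← mul_assoc]
      push_cast
      nlinarith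
    · simp
  · by_cases k : S p
    · have := fl1_mem_Icc (j := h p) (n := ⌈2 ^ h p * Real.exp r⌉₊) (x := Z b p) (y := 0) (by
        rw [sub_zero, ← div_eq_mul_inv, le_div_iff₀ (by positivity), mul_comm]
        exact (mul_le_mul_of_nonneg_left (hZ b hb p k) (by positivity)).trans (Nat.le_ceil _))
      simpa [cut, dg, k, fl1] using this
    · simp [cut, k]

/-! ### The block system -/

open MP_4b405e_nt.FB Filter

variable {α : Type} [Fintype α] (σ : Bc α ν)

open Classical in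
/-- All positions. -/
noncomputable def ap (x : ν → ℝ) : ν → ℝ := fun p => if σ.ps p then x p else 0

open Classical in
/-- The positions are deficient given the context. -/
def Low (X : Bd α ν) (θ : ℝ) : Prop :=
  ch X.P (fun ω => ap σ (X.Z ω)) X.K ≤ ((univ.filter σ.ps).card - θ) * (X.u * lg)

/-- The link between the block system and the count: a space `P` without the step, `N` steps,
contexts `K i`, blocks `Z i`, numbers `h p` of new digits per step, a label `T`, an event `G`. -/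
structure Ld (X : Bd α ν) : Type 1 where
  Ω : Type
  β : Type
  τ : Type
  P : FP Ω
  N : ℕ
  π : X.Ω → ℕ × Ω
  K : ℕ → Ω → β
  Z : ℕ → Ω → ν → ℝ
  h : ν → ℕ
  T : Ω → τ
  G : Ω → Prop
  b : ℝ

open Classical in
/-- The facts of the link, with mass `c`, gain `θ` and loss `e`. -/
structure Ld.Ok {X : Bd α ν} (Y : Ld X) (c θ e : ℝ) : Prop where
  n0 : (range Y.N).Nonempty
  law : Law X.P Y.π (prod (FP.unif (range Y.N) n0) Y.P) id
  fK : Fn X.P (fun ω => (Y.K (Y.π ω).1 (Y.π ω).2, (Y.π ω).1)) X.K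
  fZ : ∀ ω ∈ X.P.S, ∀ p, σ.ps p → X.Z ω p = Y.Z (Y.π ω).1 (Y.π ω).2 p
  zb : ∀ i < Y.N, ∀ ω ∈ Y.P.S, ∀ p, σ.ps p → |Y.Z i ω p| ≤ Real.exp e
  hu : ∀ p, σ.ps p → Y.h p ≤ X.u
  hn : ∀ i < Y.N, ch Y.P (Y.K i) (Y.K (i + 1)) ≤ e
  hy : ∀ i < Y.N, ch Y.P (fun ω => cut σ.ps (dg Y.h (Y.Z i ω))) (Y.K (i + 1)) ≤ e
  he : ch Y.P (Y.K Y.N) (fun ω => (Y.T ω, Y.K 0 ω)) ≤ Y.N * e
  hc : c ≤ pb Y.P Y.G
  hb : ch (cE Y.P Y.G) Y.T (Y.K 0) ≤ Y.b
  gap : Y.b + Y.N * (θ * X.u) ≤ Y.N * ∑ p with σ.ps p, Y.h p * lg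

/-- The link in sequence form. -/
def Lk (X : ℕ → Bd α ν) : Prop := ∃ (Y : ∀ n, Ld (X n)) (c θ : ℝ), 0 < c ∧ 0 < θ ∧
  ∀ ε : ℝ, 0 < ε → ∀ᶠ n in UF, (Y n).Ok σ c θ (ε * (X n).u)

/-- The statement of the block. -/
def SpG : Prop := ∀ (α ν : Type) [Fintype α] [Fintype ν] (σ : Bc α ν) (X : ℕ → Bd α ν),
  Bs σ X → Lk σ X → (∀ r ε : ℝ, 0 < ε → ∀ᶠ n in UF, (X n).Fl σ r ε) → False

variable {σ} {X : Bd α ν}

omit [Fintype ν] [Fintype α] in
/-- On the grid a block is equivalent to its digits. -/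
theorem grid (zg : ∀ ω ∈ X.P.S, ∀ p, ∃ k : ℤ, 2 ^ X.u * X.Z ω p = k) (S : ν → Prop)
    [DecidablePred S] : Fn X.P (fun ω p => if S p then X.Z ω p else 0)
      (fun ω => cut S (dg (fun _ => X.u) (X.Z ω))) ∧
    Fn X.P (fun ω => cut S (dg (fun _ => X.u) (X.Z ω))) fun ω p => if S p then X.Z ω p else 0 := by
  refine ⟨fun a ha b hb e => funext fun p => ?_, fun a _ b _ e => funext fun p => ?_⟩ <;>
    by_cases k : S p
  · obtain ⟨m, hm⟩ := zg a ha p
    obtain ⟨m', hm'⟩ := zg b hb p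
    have : m = m' := by simpa [cut, dg, k, fl1, hm, hm'] using congrFun e p
    simp only [if_pos k]
    exact mul_left_cancel₀ (pow_pos two_pos X.u).ne' (by rw [hm, hm', this])
  · simp [k]
  · have : X.Z a p = X.Z b p := by simpa [k] using congrFun e p
    simp [cut, dg, this]
  · simp [cut, k]

omit [Fintype α] in
open Classical in
/-- The link gives the deficiency. -/
theorem Ld.Ok.low {Y : Ld X} {c θ e : ℝ} (h : Y.Ok σ c θ e) (c0 : 0 ≤ c) (t0 : 0 ≤ θ) (e0 : 0 ≤ e)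
    (zg : ∀ ω ∈ X.P.S, ∀ p, ∃ k : ℤ, 2 ^ X.u * X.Z ω p = k) :
    ch X.P (fun ω => ap σ (X.Z ω)) X.K ≤ (univ.filter σ.ps).card * (X.u * lg + (e + 2)) -
      c * (θ * X.u) + (lg + 3 * e) := by
  have N0 : (0 : ℝ) < Y.N := Nat.cast_pos.2 (Nat.pos_of_ne_zero (nonempty_range_iff.1 h.n0))
  have s1 : ∑ p with σ.ps p, (Y.h p * lg + (e + 2)) =
      ∑ p with σ.ps p, Y.h p * lg + (univ.filter σ.ps).card * (e + 2) := by
    rw [sum_add_distrib, sum_const, nsmul_eq_mul]
  have s2 : (∑ p with σ.ps p, ((X.u : ℝ) - Y.h p)) * lg =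
      (univ.filter σ.ps).card * (X.u * lg) - ∑ p with σ.ps p, Y.h p * lg := by
    rw [sum_sub_distrib, sum_const, nsmul_eq_mul, sub_mul, sum_mul, mul_assoc]
  have p1 : 0 ≤ Y.N * (((univ.filter σ.ps).card : ℝ) * (e + 2)) := by positivity
  have p2 : 0 ≤ Y.N * (θ * X.u) := by positivity
  have k := cnt Y.P Y.N Y.K (fun i ω => cut σ.ps (dg Y.h (Y.Z i ω))) Y.T Y.G h.hn h.hy
    (fun i hi => det_dg σ.ps Y.h (Y.Z i) (Y.K i) e0 (h.zb i hi)) h.hc h.hb
    (by rw [s1]; linarith [h.gap]) h.he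
  have k1 := sum_le_sum (s := range Y.N) fun i _ =>
    ch_dg (P := Y.P) σ.ps (h' := fun _ => X.u) h.hu (Y.Z i) (Y.K i)
  rw [sum_add_distrib, sum_const, card_range, nsmul_eq_mul, s2] at k1
  have k2 : ch X.P (fun ω => ap σ (X.Z ω)) X.K ≤ ch X.P
      (fun ω => cut σ.ps (dg (fun _ => X.u) (Y.Z (Y.π ω).1 (Y.π ω).2)))
      fun ω => (Y.K (Y.π ω).1 (Y.π ω).2, (Y.π ω).1) :=
    ch_le (((grid zg σ.ps).1.trans fun a ha b hb q => funext fun p => by
      by_cases r : σ.ps p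
      · simpa [cut, dg, r, h.fZ a ha p r, h.fZ b hb p r] using congrFun q p
      · simp [cut, r]).left _) h.fK
  rw [h.law.ch_id (fun x => cut σ.ps (dg (fun _ => X.u) (Y.Z x.1 x.2))) fun x => (Y.K x.1 x.2, x.1),
    prod, ch_mix _ (fun _ => Y.P) fun i ω => cut σ.ps (dg (fun _ => X.u) (Y.Z i ω)), FP.E_unif,
    avg, card_range] at k2
  refine k2.trans ((div_le_iff₀ N0).2 ?_)
  rw [s1] at k
  nlinarith [mul_le_mul_of_nonneg_left h.gap c0, mul_nonneg c0 p1]

theorem Lk.low {X : ℕ → Bd α ν} (h : Lk σ X) (b : Bs σ X) :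
    ∃ θ : ℝ, 0 < θ ∧ ∀ᶠ n in UF, Low σ (X n) θ := by
  classical
  obtain ⟨Y, c, θ, c0, t0, h⟩ := h
  have l0 : 0 < lg := Real.log_pos one_lt_two
  obtain ⟨m, hm⟩ : ∃ m : ℝ, m = (univ.filter σ.ps).card := ⟨_, rfl⟩
  have m0 : 0 ≤ m := hm ▸ Nat.cast_nonneg _
  have e0 : 0 < c * θ / (4 * (m + 3)) := by positivity
  refine ⟨c * θ / (2 * lg), by positivity, ?_⟩
  filter_upwards [h _ e0, b.ev 1 one_pos, (tendsto_natCast_atTop_atTop.comp b.big).eventually_ge_atTop
    ((2 * m + lg) / (c * θ / 4))] with n h1 h2 h3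
  have := h1.low c0.le t0.le (by positivity) fun ω hω => (h2.pt ω hω).zg
  rw [div_le_iff₀ (by positivity), Function.comp] at h3
  have q : (m + 3) * (c * θ / (4 * (m + 3)) * (X n).u) = c * θ / 4 * (X n).u := by field_simp
  have q' : c * θ / (2 * lg) * ((X n).u * lg) = c * θ / 2 * (X n).u := by field_simp
  unfold Low
  rw [← hm] at this ⊢
  linarith

/-- Flat classes contradict the deficiency. -/
theorem not_low {X : ℕ → Bd α ν} (b : Bs σ X) {θ : ℝ} (t0 : 0 < θ)
    (h : ∀ᶠ n in UF, Low σ (X n) θ) (f : ∀ r ε : ℝ, 0 < ε → ∀ᶠ n in UF, (X n).Fl σ r ε) :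
    False := by
  classical
  have l0 : 0 < lg := Real.log_pos one_lt_two
  obtain ⟨R, hR⟩ : ∃ R, R = univ.image σ.cl := ⟨_, rfl⟩
  have e0 : 0 < θ / (3 * (R.card + 1)) := by positivity
  have : UF.NeBot := (hyperfilter ℕ).neBot
  obtain ⟨n, h1, h2, h3, h4⟩ := (h.and ((b.ev _ (mul_pos e0 l0)).and (((eventually_all_finset R).2
    fun r _ => f r _ e0).and (b.big.eventually_ge_atTop 1)))).exists
  have zg := fun ω hω => (h2.pt ω hω).zg
  have k := cls (P := (X n).P) σ.ps σ.cl (fun ω => dg (fun _ => (X n).u) ((X n).Z ω)) (X n).K R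
  have k1 : ch (X n).P (fun ω => cut (fun p => σ.ps p ∧ σ.cl p ∈ R)
      (dg (fun _ => (X n).u) ((X n).Z ω))) (X n).K ≤ _ :=
    (ch_mono (((cut_le (fun p q => q.1) _).trans (grid zg σ.ps).2).left _)).trans h1
  have k2 := sum_le_card_nsmul R _ _ fun r _ => show mi (X n).P (fun ω => cut
      (fun p => σ.ps p ∧ σ.cl p = r) (dg (fun _ => (X n).u) ((X n).Z ω))) (fun ω => cut
      (fun p => σ.ps p ∧ σ.cl p < r) (dg (fun _ => (X n).u) ((X n).Z ω))) (X n).K ≤ _ from
    (mi_mono' (((cut_le (fun p q => q.2) _).trans (grid zg fun p => σ.cl p = r).2).left _)).trans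
      ((mi_mono (G' := fun ω => (σ.oth r ((X n).Z ω), (X n).θ σ ω, (X n).T ω))
        fun a _ a' _ q => funext fun p => by
          by_cases z : σ.ps p ∧ σ.cl p < r
          · have : (X n).Z a p = (X n).Z a' p := by
              simpa [Bc.oth, z.2.ne] using congrFun (congrArg (fun x => x.1.1) q) p
            simp [cut, dg, this]
          · simp only [cut, if_neg z]).trans (h2.b2 r))
  have k3 := sum_le_sum (s := R) fun r hr => le_trans (h3 r hr)
    (ch_mono (F' := fun ω => cut (fun p => σ.ps p ∧ σ.cl p = r) (dg (fun _ => (X n).u) ((X n).Z ω)))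
      ((@grid _ _ _ zg (fun p => σ.ps p ∧ σ.cl p = r) _).1.left _))
  have k4 : ∑ r ∈ R, (σ.dm r : ℝ) = (univ.filter σ.ps).card := by
    rw [card_eq_sum_card_fiberwise (f := σ.cl) (t := R) fun p _ => hR ▸ mem_image_of_mem _ (mem_univ p)]
    push_cast
    exact sum_congr rfl fun r _ => by rw [Bc.dm, filter_filter]
  rw [← sum_mul, sum_sub_distrib, k4, sum_const, nsmul_eq_mul] at k3
  rw [nsmul_eq_mul] at k2
  have u0 : (0 : ℝ) < (X n).u * lg := mul_pos (Nat.cast_pos.2 h4) l0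
  have q : (R.card + 1) * (θ / (3 * (R.card + 1))) = θ / 3 := by field_simp
  nlinarith [mul_pos e0 u0, mul_pos t0 u0]

theorem spG : SpG := fun _ _ _ _ _ _ b l f =>
  (l.low b).elim fun _ h => not_low b h.1 h.2 f

end Pool.Agent.MP_5168f5_an.QA.SG
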