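import Pool.Agent.MP_4b405e_nt.SK.CAc
import Pool.Agent.MP_4b405e_nt.SK.CGeo
import Pool.Agent.MP_4b405e_nt.SK.SpG
import Pool.Agent.MP_4b405e_nt.SK.Haz
import Pool.Agent.MP_5168f5_an.AN.N2Mod

/-! Sparse heights, block C: the world in frame form, the state, and the block system built from
them. Definitions. -/

namespace Pool.Agent.MP_5168f5_an.QA.SC

open H19 H17S H17F R4 AN Filter Matrix Real Finset
open GA (Mt IsFr br mB mC sB sC cell)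
open Pool.Agent.MP_4b405e_nt.FB (Bc Bd Bs)

/-- The constants: piece weights `wt`, new positions `ps`, the gain `be`, the mass `cc`, the range
`C` of the levels. -/
structure Kk (ι κ : Type) [Fintype ι] [DecidableEq ι] : Type extends P7.Kc ι κ where
  wt : κ → ℝ
  ps : κ → Prop
  be : ℝ
  cc : ℝ
  C : ℕ

/-- The data on one space. The cap levels are `i * δ`; the state is `E, si, v0, g, g1`. -/
structure Wd (ι κ : Type) : Type 1 where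
  Ω : Type
  Λ : Type
  Li : Type
  Γ : Type
  Sy : Type
  X : P7.Cd ι κ Ω Λ
  l : Ω → Li
  zz : Ω → ℝ
  c₀ : ℕ
  W : ℕ
  W1 : ℕ
  k : ℕ
  k0 : ℝ
  T : Ω → Γ
  δ : ℚ≥0
  nD : ℕ
  nT : ℕ
  E : ℕ → Ω → Prop
  si : ℕ → Ω → Sy
  v0 : ℕ → Λ × Sy → Ω
  g : ℕ → Λ × Sy → Matrix κ κ ℝ
  g1 : ℕ → Λ × Sy → Matrix κ κ ℝ

/-- The parameters of the construction. -/
structure Pm : Type where
  u : ℕ
  L : ℕ
  d0 : ℕ
  xA : ℕ
  nb : ℕ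
  kD : ℕ
  N : ℕ

/-- A point of the parameter space: cap level `i`, step `t`, offsets `l1`, `d1`. -/
abbrev Par : Type := ℕ × ℕ × ℕ × ℕ

variable {ι κ : Type} [Fintype ι] [DecidableEq ι] [Fintype κ] [DecidableEq κ]

namespace Kk

variable (σ : Kk ι κ)

/-- The rate. -/
def vt (b : κ) : ℝ := σ.la b - σ.mu b

/-- The indices of positive rate. -/
def Nn (b : κ) : Prop := σ.mu b < σ.la b

/-- The letters. -/
abbrev Al : Type := {a : κ // σ.toKc.G1 a}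

/-- The coordinates of the blocks; `none` is the source coordinate. -/
abbrev Nu : Type := Option {b : κ // σ.Nn b}

noncomputable instance : Fintype σ.Al := Fintype.ofFinite _
noncomputable instance : Fintype σ.Nu := Fintype.ofFinite _

open Classical in
/-- The sum of the weights of the new positions. -/
noncomputable def m : ℝ := ∑ b with σ.ps b, σ.mu b

/-- The relations between the constants. -/
structure Ok : Prop where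
  m0 : ∀ a, 0 ≤ σ.mu a
  vt0 : ∀ a, σ.mu a ≤ σ.la a
  dead : ∀ a, σ.mu a = 0 → σ.la a = 0
  live : ∀ a, σ.Pz a → 0 < σ.mu a
  tz : ∀ a, σ.Pz a ∧ σ.la a = σ.mu a ↔ a = σ.τ
  tau : σ.mu σ.τ = lg
  one : 1 ≤ σ.L
  w0 : ∀ b, 0 < σ.wt b
  pn : ∀ b, σ.ps b → σ.Nn b
  be0 : 0 < σ.be
  cc0 : 0 < σ.cc
  c2 : 2 ≤ σ.C
  mC : ∀ b, σ.mu b ≤ σ.C * lg
  rng : ∀ a p q, σ.toKc.G1 a → lg * σ.wt p ≤ (σ.C - 1) * (σ.mu a * σ.wt q)

theorem Ok.g1 {σ : Kk ι κ} (h : σ.Ok) : σ.toKc.G1 σ.τ :=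
  ⟨h.live _ ((h.tz _).2 rfl).1, ((h.tz _).2 rfl).2⟩

/-- The constants of the block system. -/
def bc (h : σ.Ok) : Bc σ.Al σ.Nu :=
  ⟨fun a => σ.mu a.1, ⟨σ.τ, h.g1⟩, fun p => p.elim 0 fun b => σ.mu b.1,
    fun p => p.elim (σ.wt σ.τ) fun b => σ.wt b.1, none, fun p => ∃ b, p = some b ∧ σ.ps b.1, σ.C⟩

open Classical in
/-- Radii at the level `l`: extra depth `x` on the letters, `wt * d + s` on the indices of
positive rate. -/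
noncomputable def rad (l x d s : ℝ) (b : κ) : ℝ :=
  if σ.mu b = 0 then 1 else if σ.Nn b then exp (-(σ.mu b * l + σ.wt b * d + s))
    else exp (-(σ.mu b * l + x))

/-- A unit functional on one group of indices of positive rate. -/
def Un (ξ : κ → ℝ) : Prop := ∑ p, |ξ p| = 1 ∧ (∀ p, ξ p ≠ 0 → σ.Nn p) ∧
  ∀ p q, ξ p ≠ 0 → ξ q ≠ 0 → σ.mu p = σ.mu q ∧ σ.wt p = σ.wt q

end Kk

/-- Rounding down to the grid `2 ^ (-n)`. -/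
noncomputable def rd (n : ℕ) (y : ℝ) : ℝ := (2 ^ n)⁻¹ * fl1 n y

/-- The higher words of the exponential series. -/
noncomputable def Wp {ν : Type} [Fintype ν] (M : ℕ) (R : Matrix ν ν ℝ) : Matrix ν ν ℝ :=
  open Classical in ∑ k ∈ range M, ((-1) ^ k / (k + 2).factorial : ℝ) • R ^ (k + 1)

namespace Wd

variable (σ : Kk ι κ) (Y : Wd ι κ)

/-- The law. -/
abbrev P : FP Y.Ω := Y.X.P

/-- The label of the line. -/
def lam : Y.Ω → Y.Λ := Y.X.O true 0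

/-- The mesh. -/
noncomputable def ms : ℝ := (Y.δ : ℝ) * Y.X.M

/-- The depth of the cap level `i`. -/
noncomputable def D (i : ℕ) : ℝ := i * Y.ms

/-- The cap of level `i`. -/
def Cp (i : ℕ) : Y.Ω → Y.Λ := Y.X.O false (i * Y.δ)

/-- The class. -/
def cp (i : ℕ) (ω : Y.Ω) : Y.Λ × Y.Sy := (Y.Cp i ω, Y.si i ω)

/-- The piece of level `c`. -/
noncomputable def Q (c : ℕ) : Y.Ω → Y.Li × ℤ := Haz.Oc Y.l Y.zz (Y.c₀ + c)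

/-- The increment in the frame of `ω`. -/
noncomputable def t (ω v : Y.Ω) : κ → ℝ := GA.lg (Y.X.B ω) (Y.X.j ω) (Y.X.j v)

/-- The facts of the world, with loss `e` and range `w`. -/
structure Ok (e w : ℝ) : Prop where
  fr : Y.X.Fr σ.toKc
  coc : ∀ ω ∈ Y.P.S, ∀ v ∈ Y.P.S, ∀ y ∈ Y.P.S, Y.X.R ω y = Y.X.R v y * Y.X.R ω v
  alg : ∀ ω ∈ Y.P.S, Y.X.Alg σ.toKc e w ω
  algL : ∀ ω ∈ Y.P.S, ∀ a b f, 0 < σ.mu f → ¬(0 < σ.mu a ∧ 0 < σ.mu b ∧ σ.mu f = σ.mu a + σ.mu b) →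
    ∀ d : ℝ, 0 ≤ d → d ≤ Y.W →
      |Y.X.c ω a b f| * exp ((σ.mu f - σ.mu a - σ.mu b) * d) ≤ exp (-w)
  fB : Fn Y.P (fun ω => (Y.X.B ω, Y.X.c ω)) Y.lam
  fR : ∀ ω ∈ Y.P.S, ∀ v ∈ Y.P.S, ∀ y ∈ Y.P.S, Y.lam v = Y.lam y → Y.X.R ω v = Y.X.R ω y
  top : Fn Y.P Y.lam (Y.Q 0)
  fC : ∀ i ≤ Y.nT, Fn Y.P (Y.Cp i) Y.lam
  nest : ∀ i i', i ≤ i' → i' ≤ Y.nT → Fn Y.P (Y.Cp i) (Y.Cp i')
  rr : ∀ i ≤ Y.nT, ∀ ω ∈ Y.P.S, ∀ v ∈ Y.P.S, Y.Cp i ω = Y.Cp i v → ∀ b f,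
    |exp ((σ.vt f - σ.vt b) * Y.D i) * Y.X.R ω v b f| ≤ exp e
  inc : ∀ d ≤ Y.W, Y.X.IncK σ.toKc (Y.Q d) d e w
  ac : ∀ d ≤ Y.W, Y.X.AcK σ.toKc (Y.Q d) Y.k d e w
  k0 : exp (-e) ≤ |Y.k0| ∧ |Y.k0| ≤ exp e
  tt : ∀ ω ∈ Y.P.S, ∀ v ∈ Y.P.S, Y.Q 0 ω = Y.Q 0 v →
    |Y.t ω v σ.τ - Y.k0 * 2 ^ Y.c₀ * (Y.zz v - Y.zz ω)| ≤ exp (-(w + lg * Y.W))
  fa : ∀ ω ∈ Y.P.S, MX.cm Y.P (Y.Q 0) (Y.Q Y.W) ω ≤
    exp (e / Y.k) * bw (Y.k : ℝ)⁻¹ Y.c₀ (Y.c₀ + Y.W) (Y.zz ω)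
  w1 : Y.W1 ≤ Y.W
  loc : ∀ ω ∈ Y.P.S, ∀ v ∈ Y.P.S, Y.T ω = Y.T v → ∀ b, |Y.t ω v b| ≤ exp (e - σ.mu b * Y.W1)
  ind : mi Y.P Y.T Y.lam (fun _ => ()) ≤ e
  cnt : ∃ G : Finset Y.Γ, (G.card : ℝ) ≤ exp ((σ.m - σ.be) * Y.W1) ∧ ∀ ω ∈ Y.P.S,
    σ.cc ≤ pb (cv Y.P (Y.Q 0) (Y.Q 0 ω)) fun v => Y.T v ∈ G
  ms : 0 < Y.ms ∧ Y.ms ≤ e

/-- The change from the frame of the base sample to the basis of the class. -/
noncomputable def A (i : ℕ) (s : Y.Λ × Y.Sy) : Matrix κ κ ℝ :=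
  Y.g i s * diagonal fun b => exp (-(σ.vt b * Y.D i))

/-- The inverse change. -/
noncomputable def A1 (i : ℕ) (s : Y.Λ × Y.Sy) : Matrix κ κ ℝ :=
  diagonal (fun b => exp (σ.vt b * Y.D i)) * Y.g1 i s

/-- The basis of the class. -/
noncomputable def Bk (i : ℕ) (s : Y.Λ × Y.Sy) : κ → Mt ι := mB (Y.A σ i s) (Y.X.B (Y.v0 i s))

/-- The constants in the basis of the class. -/
noncomputable def ck (i : ℕ) (s : Y.Λ × Y.Sy) : κ → κ → κ → ℝ :=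
  mC (Y.A σ i s) (Y.A1 σ i s) (Y.X.c (Y.v0 i s))

/-- The rows are the coordinates of the frame of `y` in the basis of the class. -/
noncomputable def φ (i : ℕ) (s : Y.Λ × Y.Sy) (y : Y.Ω) : Matrix κ κ ℝ :=
  Y.X.R (Y.v0 i s) y * Y.A1 σ i s

/-- The chain of the class of `ω` is valid at `exp (-r)`. -/
structure Val (e r : ℝ) (i : ℕ) (ω : Y.Ω) : Prop where
  mem : Y.v0 i (Y.cp i ω) ∈ Y.P.S ∧ Y.Cp i (Y.v0 i (Y.cp i ω)) = Y.Cp i ω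
  inv : Y.g i (Y.cp i ω) * Y.g1 i (Y.cp i ω) = 1
  gr : ∀ a b, Y.g i (Y.cp i ω) a b ≠ 0 ∨ Y.g1 i (Y.cp i ω) a b ≠ 0 → σ.mu a = σ.mu b
  id : ∀ a b, ¬σ.Nn a ∨ ¬σ.Nn b → Y.g i (Y.cp i ω) a b = (1 : Matrix κ κ ℝ) a b ∧
    Y.g1 i (Y.cp i ω) a b = (1 : Matrix κ κ ℝ) a b
  bd : ∀ a b, |Y.g i (Y.cp i ω) a b| ≤ exp e ∧ |Y.g1 i (Y.cp i ω) a b| ≤ exp e
  v1 : ∀ a b f, σ.Nn b → σ.Nn f → σ.wt b < σ.wt f → |Y.ck σ i (Y.cp i ω) a b f| ≤ exp (-r)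
  v2 : ∀ a b, σ.Nn a → σ.Nn b → σ.vt a < σ.wt b →
    |exp (-(σ.vt a * Y.D i)) * Y.φ σ i (Y.cp i ω) ω a b| ≤ exp (-r)
  v3 : ∀ b f, σ.Nn b → σ.Nn f → (¬σ.ps b → σ.Pz f → |Y.g i (Y.cp i ω) b f| ≤ exp (-r)) ∧
    (σ.ps b → ¬σ.Pz f → |Y.g1 i (Y.cp i ω) f b| ≤ exp (-r))

/-- The facts of the state, with loss `e` and precision `r`. -/
structure St (e r : ℝ) : Prop where
  fE : ∀ i, Fn Y.P (Y.E i) Y.lam
  fs : ∀ i, Fn Y.P (Y.si i) Y.lam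
  mass : σ.cc * Y.nD ≤ ∑ i ∈ range Y.nD, pb Y.P (Y.E i)
  few : ∀ i < Y.nD, ∀ y, ∃ S : Finset Y.Sy, (S.card : ℝ) ≤ exp e ∧
    ∀ v ∈ Y.P.S, Y.E i v → Y.Cp i v = y → Y.si i v ∈ S
  val : ∀ i < Y.nD, ∀ ω ∈ Y.P.S, Y.E i ω → Y.Val σ e r i ω

/-- The representative of the class and of the cap of level `i'`. -/
noncomputable def v1 (i i' : ℕ) (ω : Y.Ω) : Y.Ω :=
  N2.rep Y.P (fun y => (Y.cp i y, Y.Cp i' y)) (Y.E i) ω

open Classical in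
/-- The action of the letter `a` inside the pieces. -/
noncomputable def ρ0 (i i' : ℕ) (ω : Y.Ω) (a p q : κ) : ℝ :=
  if σ.mu p = σ.mu q + σ.mu a ∧ σ.wt p = σ.wt q then
    br (Y.ck σ i (Y.cp i ω)) (Y.φ σ i (Y.cp i ω) (Y.v1 i i' ω) a) (Pi.single q 1) p else 0

/-- The source, normalised at the depth `d`. -/
noncomputable def θ0 (i i' : ℕ) (d : ℝ) (ω : Y.Ω) (a p : κ) : ℝ :=
  exp (σ.wt p * d) * (Y.φ σ i (Y.cp i ω) ω a p - Y.φ σ i (Y.cp i ω) (Y.v1 i i' ω) a p)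

/-- The functional `ξ` kills the action and sees the source as `la`. -/
def Dg (i i' : ℕ) (h : ℝ) (ξ la : κ → ℝ) (ω : Y.Ω) : Prop := ∀ a, σ.toKc.G1 a →
  (∀ q, σ.Nn q → |∑ p, ξ p * Y.ρ0 σ i i' ω a p q| ≤ exp (-h)) ∧
    |∑ p, ξ p * Y.θ0 σ i i' (Y.D i' - Y.D i) ω a p - la a| ≤ exp (-h)

/-- Degenerate functionals are exponentially unlikely, off a small event of lines. -/
def Nd (h δ s lo hi : ℝ) : Prop := ∃ Bad : ℕ → Y.Ω → Prop, (∀ i, Fn Y.P (Bad i) Y.lam) ∧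
  (∑ i ∈ range Y.nD, pb Y.P fun ω => Y.E i ω ∧ Bad i ω) ≤ δ * Y.nD ∧
  ∀ i < Y.nD, ∀ i' ≤ Y.nT, lo ≤ Y.D i' - Y.D i → Y.D i' - Y.D i ≤ hi → ∀ ω ∈ Y.P.S, Y.E i ω →
    ∀ ξ, σ.Un ξ → ∀ la : Y.Λ → κ → ℝ, pb (cv (cE Y.P (Y.E i)) (Y.cp i) (Y.cp i ω))
      (fun y => ¬Bad i y ∧ Y.Dg σ i i' h ξ (la (Y.Cp i' y)) y) ≤ exp (-s)

/-! ### The construction -/

variable (p : Pm)

/-- The step. -/
def u1 : ℕ := p.u / σ.C

/-- The level of the chart. -/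
def l0 (t : ℕ) : ℕ := t * u1 σ p

/-- The level of the block. -/
def lv (x : Par) : ℕ := l0 σ p x.2.1 + x.2.2.1

/-- The depth of the block. -/
def dp (x : Par) : ℕ := p.d0 + x.2.2.2

/-- The cap level of the block. -/
noncomputable def i1 (x : Par) : ℕ := x.1 + ⌈(dp p x : ℝ) / Y.ms⌉₊

/-- The radii of the chart. -/
noncomputable def r0 (t : ℕ) : κ → ℝ := σ.rad (l0 σ p t) p.xA p.d0 0

/-- The chart. -/
noncomputable def Qc (i t : ℕ) (ω : Y.Ω) : Mt ι := cell (Y.Bk σ i (Y.cp i ω)) (r0 σ p t) (Y.X.j ω)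

/-- The normalised coordinates in the chart. -/
noncomputable def nu (i t : ℕ) (ω : Y.Ω) : κ → ℝ :=
  GA.inc (Y.Bk σ i (Y.cp i ω)) (r0 σ p t) (Y.X.j ω)

/-- The number of digits in the context. -/
noncomputable def nn (x : Par) (b : κ) : ℕ := ⌊(σ.mu b * x.2.2.1 + σ.wt b * x.2.2.2) / lg⌋₊

open Classical in
/-- The resolution of the context. -/
noncomputable def ss (x : Par) (b : κ) : ℝ :=
  if σ.Nn b then r0 σ p x.2.1 b / 2 ^ nn σ x b else r0 σ p x.2.1 b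

/-- The ratio of the dyadic scale to the exact scale; it lies in `[1, 2)`. -/
noncomputable def ff (x : Par) (b : κ) : ℝ :=
  exp (σ.mu b * x.2.2.1 + σ.wt b * x.2.2.2) / 2 ^ nn σ x b

/-- The context. -/
noncomputable def K (x : Par) (ω : Y.Ω) : Par × (Y.Λ × Y.Sy) × Mt ι × (κ → ℤ) :=
  (x, Y.cp x.1 ω, GA.rnd (Y.Bk σ x.1 (Y.cp x.1 ω)) (r0 σ p x.2.1) (ss σ p x) (Y.X.j ω))

/-- The block. -/
noncomputable def Z (x : Par) (ω : Y.Ω) : σ.Nu → ℝ :=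
  GA.CR.zb p.u Subtype.val (Y.Bk σ x.1 (Y.cp x.1 ω)) (r0 σ p x.2.1) (ss σ p x) (Y.X.j ω)

open Classical in
/-- The action; the column `none` is the source. -/
noncomputable def ρ (x : Par) (ω : Y.Ω) (a : σ.Al) : Matrix σ.Nu σ.Nu ℝ := fun q q' =>
  q.elim 0 fun b => q'.elim
    (if σ.mu b.1 = σ.mu a.1 then
      -rd (5 * p.u) (Y.θ0 σ x.1 (Y.i1 p x) (dp p x) ω a.1 b.1 / ff σ x b.1) else 0)
    fun b' => Y.ρ0 σ x.1 (Y.i1 p x) ω a.1 b.1 b'.1 * ff σ x b'.1 / ff σ x b.1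

/-- The coefficients of the relative. -/
noncomputable def bb (x : Par) (ω v : Y.Ω) (a : σ.Al) : ℝ :=
  rd p.nb (exp (σ.mu a.1 * lv σ p x) * Y.t ω v a.1)

/-- The plain cell of the cap level `i`. -/
noncomputable def Xp (i t : ℕ) (ω : Y.Ω) : Y.Λ × Mt ι :=
  (Y.Cp i ω, cell (sB (fun b => exp (-(σ.vt b * Y.D i)))
    (Y.X.B (N2.rep Y.P (Y.Cp i) (fun _ => True) ω))) (σ.rad (l0 σ p t) p.xA 0 0) (Y.X.j ω))

/-- The uniform law on `range n`, if `n` is positive. -/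
noncomputable def un (n : ℕ) : FP ℕ := FP.unif (range (max n 1)) (by simp)

/-- The law of the parameters. -/
noncomputable def Px : FP Par := prod (un Y.nD) (prod (un p.N) (prod (un p.L) (un p.L)))

/-- The level, the point and the relative, for the parameter `x`. -/
noncomputable def Rl (x : Par) : FP ((ℕ × Y.Ω) × Y.Ω) :=
  Haz.rel Y.P Y.l Y.zz (a := Y.c₀ + lv σ p x) (b := Y.c₀ + lv σ p x + max (σ.C * p.u) 1) (by simp)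

/-- The law before the restriction. -/
noncomputable def P1 : FP (Par × ((ℕ × Y.Ω) × Y.Ω)) := bind (Y.Px p) (Y.Rl σ p)

/-- The law of the block system. -/
noncomputable def P2 : FP (Par × ((ℕ × Y.Ω) × Y.Ω)) :=
  cE (Y.P1 σ p) fun z => Y.E z.1.1 z.2.1.2

/-- The data of the block system. -/
noncomputable def bd : Bd σ.Al σ.Nu where
  Ω := Par × ((ℕ × Y.Ω) × Y.Ω)
  Kt := Par × (Y.Λ × Y.Sy) × Mt ι × (κ → ℤ)
  Vt := Y.Λ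
  P := Y.P2 σ p
  u := p.u
  K z := Y.K σ p z.1 z.2.1.2
  v z := Y.Cp (Y.i1 p z.1) z.2.1.2
  Z z := Y.Z σ p z.1 z.2.1.2
  ρ z := Y.ρ σ p z.1 z.2.1.2
  c z a a' a'' := Y.ck σ z.1.1 (Y.cp z.1.1 z.2.1.2) a.1 a'.1 a''.1
  j z := z.2.1.1 - (Y.c₀ + lv σ p z.1)
  b z := Y.bb σ p z.1 z.2.1.2 z.2.2
  W z := Wp σ.Φ.N (∑ a, Y.bb σ p z.1 z.2.1.2 z.2.2 a • Y.ρ σ p z.1 z.2.1.2 a)

/-- The context of the relative. -/
noncomputable def K' (z : (Y.bd σ p).Ω) : (Y.bd σ p).Kt := Y.K σ p z.1 z.2.2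

/-- The block of the relative. -/
noncomputable def Z' (z : (Y.bd σ p).Ω) : σ.Nu → ℝ := Y.Z σ p z.1 z.2.2

/-- The order of the parameters, with ratio `K` and smallness `δ`. -/
structure Num (K e w r δ : ℝ) : Prop where
  d0 : 0 < δ
  d1 : K * δ ≤ 1
  e1 : K ≤ e
  eu : e ≤ δ ^ 2 * p.u
  kk : 1 ≤ δ * Y.k ∧ Y.k ≤ e
  lu : log p.u ≤ e
  uL : p.u ≤ δ * p.L
  Ld : K * p.L ≤ p.d0
  dx : K * p.d0 ≤ p.xA
  xn : K * p.xA ≤ p.nb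
  nk : K * p.nb ≤ p.kD * Y.ms
  kr : K * (p.kD * Y.ms) ≤ r
  rw : r + K * Y.D Y.nT ≤ w
  tel : (p.kD * p.nb : ℝ) ≤ δ * p.u * Y.nD
  nT : Y.nD + 2 * p.kD ≤ Y.nT
  up : p.N * u1 σ p + K * Y.D Y.nT ≤ Y.W1
  lo : (Y.W1 : ℝ) ≤ (1 + δ) * (p.N * u1 σ p)

/-- The hypotheses of the rows. -/
structure Hyp (K e w r δ : ℝ) : Prop where
  ok : Y.Ok σ e w
  st : Y.St σ e r
  num : Y.Num σ p K e w r δ

end Wd

end Pool.Agent.MP_5168f5_an.QA.SC
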