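import Pool.Agent.MP_4b405e_nt.SK.GTow
import Pool.Agent.MP_4b405e_nt.SK.CGeo
import Pool.Agent.MP_4b405e_nt.SK.CDef

/-! Sparse heights, block C: the basis of a class and the frames of the samples. -/

namespace Pool.Agent.MP_5168f5_an.QA.SC

open Real Finset Matrix
open AN AN.GA

variable {ι κ : Type} [Fintype ι] [DecidableEq ι] [Fintype κ] [DecidableEq κ] {σ : Kk ι κ}
  {Y : Wd ι κ} {e w r V : ℝ} {i : ℕ} {ω v y : Y.Ω}

omit [Fintype κ] [DecidableEq κ] in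
theorem Kk.nn_iff (a : κ) : σ.Nn a ↔ 0 < σ.vt a := sub_pos.symm

omit [Fintype κ] [DecidableEq κ] in
theorem Kk.Ok.v0 (o : σ.Ok) (a : κ) : 0 ≤ σ.vt a := sub_nonneg.2 (o.vt0 a)

omit [Fintype κ] [DecidableEq κ] in
theorem Kk.Ok.vz (o : σ.Ok) {a : κ} (h : ¬σ.Nn a) : σ.vt a = 0 :=
  le_antisymm (not_lt.1 fun k => h ((Kk.nn_iff a).2 k)) (o.v0 a)

omit [Fintype κ] [DecidableEq κ] in
theorem Kk.Ok.nlive (o : σ.Ok) {a : κ} (h : σ.Nn a) : 0 < σ.mu a :=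
  (o.m0 a).lt_of_ne' fun k => by
    have := o.dead a k
    unfold Kk.Nn at h
    linarith

omit [Fintype κ] [DecidableEq κ] in
theorem Kk.rad_eq (l x d s : ℝ) : σ.rad l x d s = rh σ.mu l (dh σ.Nn x fun b => σ.wt b * d + s) := by
  funext b
  unfold Kk.rad rh dh
  split_ifs
  · rfl
  · rw [add_assoc]
  · rfl

namespace Wd

omit [Fintype ι] [DecidableEq ι] [Fintype κ] [DecidableEq κ] in
theorem D_nonneg (Y : Wd ι κ) (i : ℕ) : 0 ≤ Y.D i := by unfold D ms; positivity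

omit [Fintype ι] [DecidableEq ι] [Fintype κ] [DecidableEq κ] in
theorem D_mono (Y : Wd ι κ) {i i' : ℕ} (h : i ≤ i') : Y.D i ≤ Y.D i' :=
  mul_le_mul_of_nonneg_right (Nat.cast_le.2 h) (by unfold ms; positivity)

/-- The constants of a sample. -/
theorem Ok.bi (h : Y.Ok σ e w) (o : σ.Ok) (hv : v ∈ Y.P.S) : Bi σ.mu σ.vt (Y.X.c v) Y.W e w :=
  ⟨o.m0, o.v0, fun a k => by rw [Kk.vt, o.dead a k, k, sub_zero], (h.alg v hv).ob,
    fun a b f p q => (h.alg v hv).gr a b f p fun k => q (by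
      unfold Kk.vt; rw [k.2.2.1, k.2.2.2]; ring), h.algL v hv⟩

/-- The constants in the units of a cap. -/
theorem Ok.ca (h : Y.Ok σ e w) (o : σ.Ok) (hv : v ∈ Y.P.S) (e0 : 0 ≤ e) {D s : ℝ} (D0 : 0 ≤ D)
    (hV : ∀ a, σ.vt a ≤ V) (s0 : 0 ≤ s) (hs : s + V * D ≤ w) :
    Ca σ.mu (fun _ => 0) σ.Nn (sC (fun a => exp (-(σ.vt a * D))) (Y.X.c v)) Y.W e s := by
  rw [show σ.Nn = fun a => 0 < σ.vt a from funext fun a => propext (Kk.nn_iff a)]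
  exact (h.bi o hv).ca e0 D0 hV s0 hs

/-- The frame in the units of a cap. -/
theorem Ok.frs (h : Y.Ok σ e w) (hv : v ∈ Y.P.S) (D : ℝ) :
    IsFr σ.Φ (sB (fun a => exp (-(σ.vt a * D))) (Y.X.B v))
      (sC (fun a => exp (-(σ.vt a * D))) (Y.X.c v)) :=
  ((sFr ι κ σ.Φ _ _).1 _ (fun _ => 1) fun _ => exp_pos _).1 (h.fr v hv).2.1

namespace Val

variable (k : Y.Val σ e r i ω)
include k

theorem inv1 : Y.A σ i (Y.cp i ω) * Y.A1 σ i (Y.cp i ω) = 1 := by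
  rw [A, A1, Matrix.mul_assoc, ← Matrix.mul_assoc (diagonal _), diagonal_mul_diagonal]
  simp only [← exp_add, neg_add_cancel, exp_zero, diagonal_one, Matrix.one_mul, k.inv]

theorem inv2 : Y.A1 σ i (Y.cp i ω) * Y.A σ i (Y.cp i ω) = 1 := mul_eq_one_comm.1 k.inv1

theorem pat (a b : κ) (h : Y.g i (Y.cp i ω) a b ≠ 0 ∨ Y.g1 i (Y.cp i ω) a b ≠ 0) :
    σ.mu a = σ.mu b ∧ (σ.Nn a ↔ σ.Nn b) := by
  refine ⟨k.gr a b h, by_contra fun n => ?_⟩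
  have n' : ¬σ.Nn a ∨ ¬σ.Nn b := by tauto
  have : (1 : Matrix κ κ ℝ) a b = 0 := one_apply_ne fun z => n (z ▸ Iff.rfl)
  rw [(k.id a b n').1, (k.id a b n').2, this] at h
  simp at h

omit k in
theorem ck_eq (s : Y.Λ × Y.Sy) : Y.ck σ i s = mC (Y.g i s) (Y.g1 i s)
    (sC (fun a => exp (-(σ.vt a * Y.D i))) (Y.X.c (Y.v0 i s))) :=
  mC_diag _ _ _ _ (fun a => by rw [← exp_add, neg_add_cancel, exp_zero]) _

/-- The basis of the class is a frame. -/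
theorem fr {e' : ℝ} (h : Y.Ok σ e' w) : IsFr σ.Φ (Y.Bk σ i (Y.cp i ω)) (Y.ck σ i (Y.cp i ω)) :=
  ((sFr ι κ σ.Φ _ _).2 _ _ k.inv1).1 (h.fr _ k.mem.1).2.1

/-- The constants in the basis of the class. -/
theorem ca (h : Y.Ok σ e w) (o : σ.Ok) (e0 : 0 ≤ e) (r0 : 0 ≤ r) (hV : ∀ a, σ.vt a ≤ V)
    (hw : r + V * Y.D i ≤ w) : Ca σ.mu σ.wt σ.Nn (Y.ck σ i (Y.cp i ω)) Y.W
      (e + 3 * (Fintype.card κ + e)) (r - 3 * (Fintype.card κ + e)) := by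
  have a := (sMul ι κ σ.Φ _ _ (k.fr h)).anti
  have v := k.v1
  rw [ck_eq] at a v ⊢
  refine (h.ca o k.mem.1 e0 (Y.D_nonneg i) hV r0 hw).chg k.bd k.pat a
    (fun a b f p q t => (v a b f p q t).trans (exp_le_exp.2 ?_)) (by linarith)
  have : (0 : ℝ) ≤ Fintype.card κ := Nat.cast_nonneg _
  linarith

variable {e' : ℝ} (h : Y.Ok σ e' w) (hy : y ∈ Y.P.S)
include h hy

/-- The frame of a sample in the basis of the class. -/
theorem mB_φ : Y.X.B y = mB (Y.φ σ i (Y.cp i ω) y) (Y.Bk σ i (Y.cp i ω)) := by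
  rw [((h.fr _ k.mem.1).2.2 y hy).2.2.1]
  funext a
  rw [mB, mB, Bk, GAFrA.vec_mB, φ, show (Y.X.R _ y * Y.A1 σ i (Y.cp i ω)) a =
    Y.X.R _ y a ᵥ* Y.A1 σ i (Y.cp i ω) from rfl, vecMul_vecMul, k.inv2, vecMul_one]

theorem vec_φ (t : κ → ℝ) :
    vec (Y.X.B y) t = vec (Y.Bk σ i (Y.cp i ω)) (t ᵥ* Y.φ σ i (Y.cp i ω) y) := by
  rw [k.mB_φ h hy, GAFrA.vec_mB]

theorem ex_φ (t : κ → ℝ) :
    ex (Y.X.B y) t = ex (Y.Bk σ i (Y.cp i ω)) (t ᵥ* Y.φ σ i (Y.cp i ω) y) := by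
  rw [ex, k.vec_φ h hy, ex]

/-- The increment in the basis of the class. -/
theorem inc_φ (hv : v ∈ Y.P.S) :
    Y.X.j v = Y.X.j y * ex (Y.Bk σ i (Y.cp i ω)) (Y.t y v ᵥ* Y.φ σ i (Y.cp i ω) y) := by
  rw [← k.ex_φ h hy]; exact ((h.fr y hy).2.2 v hv).2.1

/-- The change of frame intertwines the brackets. -/
theorem br_φ (s t : κ → ℝ) :
    br (Y.ck σ i (Y.cp i ω)) (s ᵥ* Y.φ σ i (Y.cp i ω) y) (t ᵥ* Y.φ σ i (Y.cp i ω) y) =
      br (Y.X.c y) s t ᵥ* Y.φ σ i (Y.cp i ω) y := by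
  have f := k.fr h
  refine sub_eq_zero.1 (f.inj _ ?_)
  have l : ∀ x z, vec (Y.Bk σ i (Y.cp i ω)) (x - z) =
      vec (Y.Bk σ i (Y.cp i ω)) x - vec (Y.Bk σ i (Y.cp i ω)) z := fun x z => by
    simp only [GA.vec, Pi.sub_apply, sub_smul, sum_sub_distrib]
  rw [l, (sMul ι κ σ.Φ _ _ f).vbr, ← k.vec_φ h hy, ← k.vec_φ h hy, ← k.vec_φ h hy,
    (sMul ι κ σ.Φ _ _ (h.fr y hy).2.1).vbr, sub_self]

theorem br_φ' (a b : κ) :
    br (Y.ck σ i (Y.cp i ω)) (Y.φ σ i (Y.cp i ω) y a) (Y.φ σ i (Y.cp i ω) y b) =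
      Y.X.c y a b ᵥ* Y.φ σ i (Y.cp i ω) y := by
  have := k.br_φ h hy (Pi.single a 1) (Pi.single b 1)
  rwa [br_single, single_one_vecMul, single_one_vecMul] at this

omit k h hy in
theorem φ_apply (s : Y.Λ × Y.Sy) (a b : κ) : Y.φ σ i s y a b =
    ∑ f, Y.X.R (Y.v0 i s) y a f * (exp (σ.vt f * Y.D i) * Y.g1 i s f b) := by
  rw [φ, A1, Matrix.mul_apply]
  simp only [diagonal_mul]

theorem φ_gr {a b : κ} (n : Y.φ σ i (Y.cp i ω) y a b ≠ 0) : σ.mu a = σ.mu b := by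
  rw [φ_apply] at n
  obtain ⟨f, -, hf⟩ := exists_ne_zero_of_sum_ne_zero n
  refine Eq.trans ?_ (k.gr f b (Or.inr (right_ne_zero_of_mul (right_ne_zero_of_mul hf))))
  by_cases z : a = f
  · rw [z]
  · exact (((h.fr _ k.mem.1).2.2 y hy).2.2.2 a f
      (by rw [one_apply_ne z]; exact left_ne_zero_of_mul hf)).1

theorem φ_id (o : σ.Ok) (a : κ) {b : κ} (n : ¬σ.Nn b) :
    Y.φ σ i (Y.cp i ω) y a b = (1 : Matrix κ κ ℝ) a b := by
  rw [φ_apply, sum_eq_single b (fun f _ z => by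
    rw [(k.id f b (Or.inr n)).2, one_apply_ne z, mul_zero, mul_zero]) (by simp),
    (k.id b b (Or.inr n)).2, one_apply_eq, o.vz n, zero_mul, exp_zero, mul_one, mul_one]
  by_contra z
  have := ((h.fr _ k.mem.1).2.2 y hy).2.2.2 a b z
  have h1 := o.vz n
  have h2 := o.v0 a
  unfold Kk.vt at h1 h2
  linarith [this.1, this.2]

/-- The rows of the dead indices are not changed. -/
theorem φ_dead (o : σ.Ok) {a : κ} (z : σ.mu a = 0) (b : κ) :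
    Y.φ σ i (Y.cp i ω) y a b = (1 : Matrix κ κ ℝ) a b := by
  by_cases n : σ.Nn b
  · have := o.nlive n
    rw [one_apply_ne fun q => by rw [q] at z; linarith]
    by_contra q
    linarith [k.φ_gr h hy q]
  · exact k.φ_id h hy o a n

theorem φ_le (hi : i ≤ Y.nT) (c : Y.Cp i y = Y.Cp i ω) (a b : κ) :
    |exp (-(σ.vt a * Y.D i)) * Y.φ σ i (Y.cp i ω) y a b| ≤ exp (Fintype.card κ + (e' + e)) := by
  rw [φ_apply, mul_sum]
  refine (CR.sum_le (X := exp (e' + e)) le_rfl (exp_pos _).le fun f => ?_).trans_eq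
    (exp_add _ _).symm
  have := h.rr i hi _ k.mem.1 y hy (k.mem.2.trans c.symm) a f
  rw [show ∀ x z : ℝ, exp (-(σ.vt a * Y.D i)) * (x * (exp (σ.vt f * Y.D i) * z)) =
    exp ((σ.vt f - σ.vt a) * Y.D i) * x * z from fun x z => by
      rw [sub_mul, sub_eq_add_neg, exp_add]; ring, abs_mul, exp_add]
  exact mul_le_mul this (k.bd f b).2 (abs_nonneg _) (exp_pos _).le

/-- The cocycle relation. -/
theorem φ_coc (hv : v ∈ Y.P.S) :
    Y.φ σ i (Y.cp i ω) y = Y.X.R v y * Y.φ σ i (Y.cp i ω) v := by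
  rw [φ, φ, h.coc _ k.mem.1 v hv y hy, Matrix.mul_assoc]

end Val

end Wd

end Pool.Agent.MP_5168f5_an.QA.SC
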