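import Pool.Agent.MP_4b405e_nt.SK.GPt0
import Pool.Agent.MP_4b405e_nt.SK.GTow1
import Pool.Agent.MP_4b405e_nt.SK.CFn
import Pool.Agent.MP_4b405e_nt.SK.CPt62

/-! Sparse heights, block C: the facts of the block system at one point. -/

namespace Pool.Agent.MP_5168f5_an.QA.GPt

open H19 H17S H17F R4 AN Matrix Finset Real SC SC.Wd Filter
open GA hiding lg

open Classical in
theorem sum_sub {κ : Type} [Fintype κ] {P : κ → Prop} [Fintype {b // P b}] {F : {b // P b} → ℝ}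
    (G : κ → ℝ) (h : ∀ b, F b = G b.1) : ∑ b, F b = ∑ b, if P b then G b else 0 := by
  rw [← sum_filter, sum_subtype (univ.filter P) (p := P) (by simp)]
  exact sum_congr rfl fun b _ => h b

open Classical in
theorem sum_nu {κ : Type} [Fintype κ] {P : κ → Prop} [i : Fintype (Option {b // P b})]
    {F : Option {b // P b} → ℝ} (G : κ → ℝ) (h0 : F none = 0) (h : ∀ b, F (some b) = G b.1) :
    ∑ b, F b = ∑ b, if P b then G b else 0 := by
  obtain rfl : i = instFintypeOption := Subsingleton.elim _ _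
  rw [Fintype.sum_option, h0, zero_add, sum_sub G h]

variable {ι κ : Type} [Fintype ι] [DecidableEq ι] [Fintype κ] [DecidableEq κ] {σ : Kk ι κ}
  {Y : Wd ι κ} {e w r K d δ : ℝ} {i i' : ℕ} {ω y : Y.Ω} {a p q : κ}

/-- The setting of one class. -/
structure Cl (σ : Kk ι κ) (Y : Wd ι κ) (e w r K : ℝ) (i : ℕ) (ω : Y.Ω) : Prop where
  o : σ.Ok
  h : Y.Ok σ e w
  k : Y.Val σ e r i ω
  e1 : 1 ≤ e
  ce : (Fintype.card κ : ℝ) ≤ e
  r0 : 0 ≤ r
  hV : ∀ a, σ.vt a ≤ K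
  hw : r + K * Y.D i ≤ w
  hi : i ≤ Y.nT

namespace Cl

variable (c : Cl σ Y e w r K i ω)
include c

theorem g1 (a : κ) : σ.toKc.G1 a ↔ 0 < σ.mu a ∧ ¬σ.Nn a :=
  and_congr_right fun _ => ⟨fun h k => (ne_of_gt k) h, fun h => le_antisymm (not_lt.1 h) (c.o.vt0 a)⟩

theorem vD (a : κ) : r + σ.vt a * Y.D i ≤ w := by
  linarith [c.hw, mul_le_mul_of_nonneg_right (c.hV a) (Y.D_nonneg i)]

theorem wt : Wt σ.mu σ.Nn σ.toKc.G1 (7 * e) :=
  ⟨c.o.m0, fun _ => c.o.nlive, c.g1, by linarith [c.e1], by linarith [c.e1, c.ce]⟩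

theorem ck : Ck σ.mu σ.wt σ.Nn (Y.ck σ i (Y.cp i ω)) (7 * e) (r - 6 * e) := by
  have m := sMul ι κ σ.Φ _ _ (c.k.fr c.h)
  have a := (c.k.ca c.h c.o (by linarith [c.e1]) c.r0 c.hV c.hw).mono (e' := 7 * e)
    (s' := r - 6 * e) (by linarith [c.ce]) (by linarith [c.ce])
  exact ⟨m.anti, m.jac, a.ob, fun x y f j k => by
    simpa using a.nh x y f j k 0 le_rfl (Nat.cast_nonneg _), a.na, a.v1⟩

variable (hy : y ∈ Y.P.S) (cy : Y.Cp i y = Y.Cp i ω)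
include hy cy

theorem φb (a b : κ) : |Y.φ σ i (Y.cp i ω) y a b| ≤ exp (3 * e + σ.vt a * Y.D i) := by
  have := mul (exq (σ.vt a * Y.D i)) (c.k.φ_le c.h hy c.hi cy a b)
  rw [← mul_assoc, ← exp_add, add_neg_cancel, exp_zero, one_mul] at this
  exact up this (by linarith [c.ce])

theorem ph : Ph σ.mu σ.Nn σ.toKc.G1 (Y.ck σ i (Y.cp i ω)) (Y.φ σ i (Y.cp i ω) y) (Y.X.c y)
    (7 * e) (r - 6 * e) := by
  have e1 := c.e1
  refine ⟨fun a b n => up (c.φb hy cy a b) (by rw [c.o.vz n]; linarith),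
    fun a b n => c.k.φ_id c.h hy c.o a n, fun a b n => c.k.φ_gr c.h hy n,
    fun a b f => up ((c.h.alg y hy).ob a b f) (by linarith), fun a b f p ga gb n => ?_,
    c.k.br_φ' c.h hy⟩
  refine up (mul ((c.h.alg y hy).gr a b f (c.o.nlive n) fun k => ?_) (c.φb hy cy f p))
    (by linarith [c.vD f])
  have : σ.mu f < σ.la f := n
  linarith [k.2.2.1, k.2.2.2, ga.2, gb.2]

omit hy cy in
theorem gP {b b' : κ} (t : (σ.Nn b → ¬σ.ps b) ∧ (¬σ.Nn b → ¬σ.Pz b)) (z : σ.Pz b') :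
    |Y.g i (Y.cp i ω) b b'| ≤ exp (-r) := by
  by_cases n : σ.Nn b ∧ σ.Nn b'
  · exact (c.k.v3 b b' n.1 n.2).1 (t.1 n.1) z
  · rw [(c.k.id b b' (not_and_or.1 n)).1, one_apply_ne fun j => ?_]
    · exact zer _
    · subst j; exact t.2 (fun u => n ⟨u, u⟩) z

omit hy cy in
theorem gP' {f : κ} (hp : σ.ps p) (z : ¬σ.Pz f) : |Y.g1 i (Y.cp i ω) f p| ≤ exp (-r) := by
  by_cases n : σ.Nn f
  · exact (c.k.v3 p f (c.o.pn p hp) n).2 hp z
  · rw [(c.k.id f p (.inl n)).2, one_apply_ne fun j : f = p => n (j ▸ c.o.pn p hp)]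
    exact zer _

/-- The letters other than the height do not see the positions. -/
theorem φP (n : ¬σ.Nn a) (z : ¬σ.Pz a) (hp : σ.ps p) :
    |Y.φ σ i (Y.cp i ω) y a p| ≤ exp (2 * e - r) := by
  rw [Val.φ_apply]
  refine up (sum c.ce (y := e - r) fun f => ?_) (by linarith)
  by_cases j : σ.Pz f
  · exact up (mul ((c.h.alg _ c.k.mem.1).pat y hy a f z j) (mul (exq _) (c.k.bd f p).2))
      (by linarith [c.vD f])
  · have := c.h.rr i c.hi _ c.k.mem.1 y hy (c.k.mem.2.trans cy.symm) a f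
    rw [c.o.vz n, sub_zero] at this
    rw [← mul_assoc, mul_comm (Y.X.R _ _ _ _)]
    exact mul this (c.gP' hp j)

omit hy cy in
theorem ckP {b : κ} (t : (σ.Nn b → ¬σ.ps b) ∧ (¬σ.Nn b → ¬σ.Pz b)) (hq : σ.Nn q) (nq : ¬σ.ps q)
    (hp : σ.ps p) : |Y.ck σ i (Y.cp i ω) b q p| ≤ exp (6 * e - r) := by
  have a := (c.h.ca c.o c.k.mem.1 (by linarith [c.e1]) (Y.D_nonneg i) c.hV c.r0 c.hw).ob
  have g := c.k.bd
  rw [Val.ck_eq]
  simp only [mC, vecMul, dotProduct, br]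
  refine up (sum c.ce (y := e + (e + (3 * e - r))) fun f => ?_) (by linarith)
  rw [sum_mul]
  refine sum c.ce fun x => ?_
  rw [sum_mul]
  refine sum c.ce fun z => ?_
  by_cases j1 : σ.Pz x
  · exact up (mul (mul (mul (a x z f) (c.gP t j1)) (g q z).1) (g f p).2) (by linarith)
  by_cases j2 : σ.Pz z
  · exact up (mul (mul (mul (a x z f) (g b x).1) (c.gP ⟨fun _ => nq, fun u => (u hq).elim⟩ j2))
      (g f p).2) (by linarith)
  by_cases j3 : σ.Pz f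
  · refine up (mul (mul (mul (y := -r) ?_ (g b x).1) (g q z).1) (g f p).2) (by linarith)
    rw [abs_sc, ← abs_exp, ← abs_mul]
    refine up (mul ((c.h.alg _ c.k.mem.1).g0 x z f j1 j2 j3) (exq _)) ?_
    nlinarith [c.vD f, mul_nonneg (c.o.v0 x) (Y.D_nonneg i), mul_nonneg (c.o.v0 z) (Y.D_nonneg i)]
  · exact up (mul (mul (mul (a x z f) (g b x).1) (g q z).1) (c.gP' hp j3)) (by linarith)

/-- The stabiliser. -/
theorem MP (n : ¬σ.Nn a) (z : ¬σ.Pz a) (hp : σ.ps p) (hq : σ.Nn q) (nq : ¬σ.ps q) :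
    |M (Y.ck σ i (Y.cp i ω)) (Y.φ σ i (Y.cp i ω) y) a p q| ≤ exp (14 * e - r) := by
  have e1 := c.e1
  rw [M_eq]
  refine up (sum c.ce (y := 13 * e - r) fun b => ?_) (by linarith)
  by_cases t : (σ.Nn b → ¬σ.ps b) ∧ (¬σ.Nn b → ¬σ.Pz b)
  · exact up (mul (c.ckP t hq nq hp) ((c.ph hy cy).row a b n)) (by linarith)
  by_cases u : σ.Nn b
  · exact up (mul (c.ck.ob b q p) (c.φP hy cy n z
      (not_not.1 fun j => t ⟨fun _ => j, fun j => (j u).elim⟩))) (by linarith)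
  · rw [(c.ph hy cy).off a b u, one_apply_ne fun j : a = b => t ⟨fun j => (u j).elim, fun _ => j ▸ z⟩,
      mul_zero]
    exact zer _

omit cy in
/-- The size of the source. -/
theorem tb (hω : ω ∈ Y.P.S) (ky : Y.Val σ e r i y) (cy : Y.cp i y = Y.cp i ω) (hi : i' ≤ Y.nT)
    (cy' : Y.Cp i' y = Y.Cp i' ω) (d0 : 0 ≤ d) (hd : d ≤ Y.D i' - Y.D i)
    (hr : ∀ p, σ.wt p * d ≤ r) (a m : κ) (g : σ.toKc.G1 a) :
    |θ σ.wt d (Y.φ σ i (Y.cp i ω) y) (Y.φ σ i (Y.cp i ω) ω) a m| ≤ exp (7 * e) := by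
  have e1 := c.e1
  have c1 : Y.Cp i y = Y.Cp i ω := congrArg Prod.fst cy
  have n := ((c.g1 a).1 g).2
  by_cases hm : σ.Nn m
  swap
  · rw [θ, c.k.φ_id c.h hy c.o a hm, c.k.φ_id c.h hω c.o a hm, sub_self, mul_zero]
    exact zer _
  have e2 : Y.φ σ i (Y.cp i ω) ω a m - Y.φ σ i (Y.cp i ω) y a m =
      ∑ f, (Y.X.R y ω a f - (1 : Matrix κ κ ℝ) a f) * Y.φ σ i (Y.cp i ω) y f m := by
    rw [c.k.φ_coc c.h hω hy, mul_apply]
    simp [sub_mul, one_apply]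
  rw [θ, e2, mul_sum]
  refine up (sum c.ce (y := 4 * e) fun f => ?_) (by linarith)
  by_cases z : Y.X.R y ω a f = (1 : Matrix κ κ ℝ) a f
  · rw [z, sub_self, zero_mul, mul_zero]; exact zer _
  have u := ((c.h.fr y hy).2.2 ω hω).2.2.2 a f z
  have nf : σ.Nn f := show σ.mu f < σ.la f by linarith [u.1, u.2, g.2]
  have v0 := c.o.v0 f
  have b := mul (exq (-(σ.vt f * Y.D i'))) (c.h.rr i' hi y hy ω hω cy' a f)
  rw [c.o.vz n, sub_zero, ← mul_assoc, ← exp_add, neg_add_cancel, exp_zero, one_mul] at b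
  rw [one_apply_ne fun j : a = f => n (j ▸ nf), sub_zero]
  rcases lt_or_ge (σ.vt f) (σ.wt m) with j | j
  · have := mul (exq (σ.vt f * Y.D i)) (ky.v2 f m nf hm j)
    rw [← mul_assoc, ← exp_add, add_neg_cancel, exp_zero, one_mul, cy] at this
    exact up (mul (exq _) (mul b this)) (by nlinarith [hr m, mul_nonneg v0 (d0.trans hd)])
  · exact up (mul (exq _) (mul b (c.φb hy c1 f m))) (by
      nlinarith [mul_le_mul_of_nonneg_right j d0, mul_le_mul_of_nonneg_left hd v0])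

end Cl

/-- The constants that the ratio has to dominate. -/
structure Big (σ : Kk ι κ) (K : ℝ) : Prop where
  k : 400 ≤ K
  card : (Fintype.card κ : ℝ) ≤ K
  C : 2 * (σ.C * σ.C) + σ.C ≤ K
  vt : ∀ a, σ.vt a ≤ K
  wt : ∀ a, σ.wt a ≤ K
  g0 : ∀ a, 4 ≤ K * σ.wt a
  gap : ∀ a b, σ.wt a < σ.wt b → 4 ≤ K * (σ.wt b - σ.wt a)

omit [DecidableEq κ] in
theorem big (o : σ.Ok) : ∃ K, Big σ K := by
  have k : ∀ x : ℝ, 0 < x → ∀ᶠ K : ℝ in atTop, 4 ≤ K * x := fun x h =>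
    (tendsto_id.atTop_mul_const h).eventually_ge_atTop 4
  have : ∀ᶠ K : ℝ in atTop, Big σ K := by
    filter_upwards [eventually_ge_atTop 400, eventually_ge_atTop (Fintype.card κ : ℝ),
      eventually_ge_atTop (2 * (σ.C * σ.C) + σ.C : ℝ),
      eventually_all.2 fun a => eventually_ge_atTop (σ.vt a),
      eventually_all.2 fun a => eventually_ge_atTop (σ.wt a),
      eventually_all.2 fun a => k _ (o.w0 a), eventually_all.2 fun a => eventually_all.2 fun b =>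
        eventually_imp_distrib_left.2 fun h : σ.wt a < σ.wt b => k _ (sub_pos.2 h)]
      with K a b c d e f g
    exact ⟨a, b, c, d, e, f, g⟩
  exact this.exists

omit [Fintype κ] [DecidableEq κ] in
theorem ff_mem (o : σ.Ok) (x : SC.Par) (b : κ) : 1 ≤ ff σ x b ∧ ff σ x b ≤ 2 := by
  obtain ⟨t, ht⟩ : ∃ t, t = σ.mu b * x.2.2.1 + σ.wt b * x.2.2.2 := ⟨_, rfl⟩
  have t0 : 0 ≤ t / lg := by
    have := o.m0 b; have := o.w0 b; have := lg_pos; rw [ht]; positivity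
  have a := (le_div_iff₀ lg_pos).1 (Nat.floor_le t0)
  have a' := (div_lt_iff₀ lg_pos).1 (Nat.lt_floor_add_one (t / lg))
  rw [ff, nn, ← ht, two_pow_eq, ← exp_sub]
  refine ⟨one_le_exp (by linarith), (exp_le_exp.2 (show _ ≤ lg by linarith)).trans_eq ?_⟩
  exact exp_log two_pos

variable {pm : Pm} {z : SC.Par × ((ℕ × Y.Ω) × Y.Ω)}

/-- The algebraic facts at a point of the space. -/
structure At (σ : Kk ι κ) (Y : Wd ι κ) (pm : Pm) (e w r K : ℝ) (x : SC.Par) (ω y : Y.Ω) : Prop where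
  c : Cl σ Y e w r K x.1 ω
  hω : ω ∈ Y.P.S
  hy : y ∈ Y.P.S
  cy : Y.Cp x.1 y = Y.Cp x.1 ω
  dp : Dp σ.wt (r - 6 * e) (4 * pm.u) (dp pm x)
  tb : ∀ a m, σ.toKc.G1 a → |θ σ.wt (Wd.dp pm x) (Y.φ σ x.1 (Y.cp x.1 ω) y)
    (Y.φ σ x.1 (Y.cp x.1 ω) ω) a m| ≤ exp (7 * e)
  eu : 400 * e ≤ pm.u

theorem at_of (o : σ.Ok) (B : Big σ K) (H : Y.Hyp σ pm K e w r δ) (hz : z ∈ (Y.P2 σ pm).S) :
    At σ Y pm e w r K z.1 z.2.1.2 (Y.v1 z.1.1 (Y.i1 pm z.1) z.2.1.2) := by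
  have k := B.k
  have C0 : (0 : ℝ) ≤ σ.C := Nat.cast_nonneg _
  obtain ⟨hx, hi, hω, -, hE, -⟩ := P62.mem o H (by linarith) (by nlinarith [B.C]) hz
  obtain ⟨u1, uL, -⟩ := AcA.num H (by linarith)
  obtain ⟨d0, d1, e1, eu, -, -, -, Ld, dx, xn, nk, kr, rw, -, nT, -, -⟩ := H.num
  have m0 := H.ok.ms.1
  have x4 := AcA.mem_un ((mem_bind _ _ _).1 ((mem_bind _ _ _).1 ((mem_bind _ _ _).1 hx).2).2).2
  have x5 : (z.1.2.2.2 : ℝ) ≤ pm.L := by exact_mod_cast (by omega : z.1.2.2.2 ≤ pm.L)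
  have x6 : (0 : ℝ) ≤ z.1.2.2.2 := Nat.cast_nonneg _
  have hd : (Wd.dp pm z.1 : ℝ) = pm.d0 + z.1.2.2.2 := by rw [Wd.dp]; push_cast; rfl
  have l1 : (pm.u : ℝ) ≤ pm.L := by nlinarith
  have l2 : (pm.L : ℝ) ≤ pm.d0 := by nlinarith
  have l3 : (pm.d0 : ℝ) ≤ K * pm.d0 := by nlinarith
  have l4 : (pm.xA : ℝ) ≤ pm.nb := by nlinarith
  have l5 : 400 * (pm.nb : ℝ) ≤ pm.kD * Y.ms := by nlinarith
  have l6 : pm.kD * Y.ms ≤ r := by nlinarith
  have l7 : 400 * e ≤ pm.u := by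
    have a : K * e ≤ K * δ * (δ * pm.u) := by nlinarith
    have b : δ ≤ 1 := by nlinarith
    nlinarith [mul_nonneg d0.le (zero_le_one.trans u1)]
  have l8 : ∀ p, σ.wt p * Wd.dp pm z.1 ≤ 2 * (K * pm.d0) := fun p => by
    rw [hd]
    linarith [mul_le_mul_of_nonneg_right (B.wt p) (show 0 ≤ pm.d0 + (z.1.2.2.2 : ℝ) by linarith),
      mul_le_mul_of_nonneg_left (x5.trans l2) (show 0 ≤ K by linarith)]
  have l9 : ∀ t : ℝ, 4 ≤ K * t → 4 * (pm.u : ℝ) ≤ t * Wd.dp pm z.1 := fun t h => by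
    have t0 : 0 ≤ t := by nlinarith
    nlinarith [mul_le_mul_of_nonneg_left Ld t0, mul_nonneg t0 x6,
      mul_le_mul_of_nonneg_right h (Nat.cast_nonneg (α := ℝ) pm.L)]
  have i1 : Y.i1 pm z.1 ≤ Y.nT := by
    have : ⌈(Wd.dp pm z.1 : ℝ) / Y.ms⌉₊ ≤ pm.kD := Nat.ceil_le.2 ((div_le_iff₀ m0).2 (by linarith))
    rw [Wd.i1]; omega
  have c : Cl σ Y e w r K z.1.1 z.2.1.2 := ⟨o, H.ok, H.st.val _ hi _ hω hE, by linarith,
    B.card.trans e1, by linarith, B.vt, by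
      nlinarith [Y.D_mono (show z.1.1 ≤ Y.nT by omega)], by omega⟩
  obtain ⟨y1, y2, y3⟩ := N2.rep_spec (A := fun y => (Y.cp z.1.1 y, Y.Cp (Y.i1 pm z.1) y)) hω hE
  have y4 := (Prod.mk.inj y3).1
  refine ⟨c, hω, y1, congrArg Prod.fst y4, ⟨fun p => by linarith [l8 p], fun p m j => by
    linarith [l9 _ (B.gap p m j)], fun m => l9 _ (B.g0 m), by linarith, by linarith⟩,
    c.tb y1 hω (H.st.val _ hi _ y1 y2) y4 i1 (Prod.mk.inj y3).2 (by linarith) ?_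
      fun p => by linarith [l8 p], l7⟩
  have := (div_le_iff₀ m0).1 (Nat.le_ceil ((Wd.dp pm z.1 : ℝ) / Y.ms))
  rw [D, D, Wd.i1]
  push_cast
  linarith

namespace At

variable {x : SC.Par} (A : At σ Y pm e w r K x ω (Y.v1 x.1 (Y.i1 pm x) ω))
include A

theorem rat (b b' : κ) : |ff σ x b' / ff σ x b| ≤ exp e := by
  have f := ff_mem A.c.o x b
  have f' := ff_mem A.c.o x b'
  rw [abs_of_nonneg (div_nonneg (by linarith) (by linarith)), div_le_iff₀ (by linarith)]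
  nlinarith [add_one_le_exp e, A.c.e1]

theorem inv (b : κ) : |(ff σ x b)⁻¹| ≤ exp 0 := by
  have f := (ff_mem A.c.o x b).1
  rw [exp_zero, abs_of_nonneg (inv_nonneg.2 (by linarith))]
  exact inv_le_one_of_one_le₀ f

omit A in
theorem off (a : σ.Al) (b b' : {b // σ.Nn b}) : Y.ρ σ pm x ω a (some b) (some b') =
    ff σ x b'.1 / ff σ x b.1 * ρ σ.mu σ.wt (Y.ck σ x.1 (Y.cp x.1 ω))
      (Y.φ σ x.1 (Y.cp x.1 ω) (Y.v1 x.1 (Y.i1 pm x) ω)) a.1 b.1 b'.1 := by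
  change Y.ρ0 σ _ _ _ _ _ _ * _ / _ = _ * Y.ρ0 σ _ _ _ _ _ _
  ring

/-- The source column up to rounding. -/
theorem src : ∃ η : κ → κ → ℝ, (∀ a b, |η a b| ≤ exp (-(17 / 5 * pm.u))) ∧
    ∀ (a : σ.Al) (b : {b // σ.Nn b}), Y.ρ σ pm x ω a (some b) none = η a.1 b.1 - (ff σ x b.1)⁻¹ *
      θ σ.wt (Wd.dp pm x) (Y.φ σ x.1 (Y.cp x.1 ω) (Y.v1 x.1 (Y.i1 pm x) ω))
        (Y.φ σ x.1 (Y.cp x.1 ω) ω) a.1 b.1 := by
  classical
  refine ⟨fun a b => if σ.mu b = σ.mu a then Y.θ0 σ x.1 (Y.i1 pm x) (Wd.dp pm x) ω a b / ff σ x b -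
    rd (5 * pm.u) (Y.θ0 σ x.1 (Y.i1 pm x) (Wd.dp pm x) ω a b / ff σ x b) else 0, fun a b => ?_,
    fun a b => ?_⟩
  · dsimp only
    split_ifs
    · rw [abs_sub_comm]
      refine up (AcA.rd_sub _ _) ?_
      push_cast
      nlinarith [log_two_gt_d9, show lg = log 2 from rfl, Nat.cast_nonneg (α := ℝ) pm.u]
    · exact zer _
  · change (if σ.mu b.1 = σ.mu a.1 then _ else _) = _ - _ * Y.θ0 σ _ _ _ _ _ _
    dsimp only
    split_ifs with j
    · ring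
    · rw [θ0, not_not.1 fun u => j (((A.c.ph A.hy A.cy).supp (A.c.ph A.hω rfl) u).2.symm)]
      ring

theorem rb (a : σ.Al) (p q : σ.Nu) : |Y.ρ σ pm x ω a p q| ≤ exp (22 * e) := by
  have e1 := A.c.e1
  rcases p with _ | b
  · exact zer _
  rcases q with _ | b'
  · obtain ⟨η, h1, h2⟩ := A.src
    rw [h2]
    exact up (sub e1 (up (h1 _ _) (by linarith [A.eu])) (mul (A.inv _) (A.tb _ _ a.2)))
      (by linarith)
  · rw [off]
    exact up (mul (A.rat _ _) ((A.c.ph A.hy A.cy).rb A.c.wt A.c.ck ((A.c.g1 _).1 a.2).2 _ _))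
      (by linarith)

theorem m0 (a : σ.Al) (p q : σ.Nu) (ha : a ≠ (σ.bc A.c.o).τ) (hp : (σ.bc A.c.o).ps p)
    (hq : ¬(σ.bc A.c.o).ps q) : |Y.ρ σ pm x ω a p q| ≤ exp (-(3 * pm.u)) := by
  have e1 := A.c.e1
  have eu := A.eu
  obtain ⟨b, rfl, hb⟩ := hp
  have n := ((A.c.g1 _).1 a.2).2
  have z : ¬σ.Pz a.1 := fun j => ha (Subtype.ext ((A.c.o.tz _).1 ⟨j, a.2.2⟩))
  have hs := A.dp.hs b.1
  have g0 := A.dp.g0 b.1
  rcases q with _ | b'
  · obtain ⟨η, h1, h2⟩ := A.src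
    rw [h2]
    exact up (sub e1 (h1 _ _) (up (mul (A.inv _) (mul (exq _) (sub e1 (A.c.φP A.hω rfl n z hb)
      (A.c.φP A.hy A.cy n z hb)))) (by linarith))) (by linarith)
  · rw [off, ρ]
    split_ifs
    · exact up (mul (A.rat _ _) (A.c.MP A.hy A.cy n z hb b'.2 fun j => hq ⟨b', rfl, j⟩))
        (by linarith)
    · rw [mul_zero]; exact zer _

open Classical in
theorem lie (a a' : σ.Al) (p q : σ.Nu) :
    |(Y.ρ σ pm x ω a * Y.ρ σ pm x ω a' - Y.ρ σ pm x ω a' * Y.ρ σ pm x ω a) p q -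
      ∑ f : σ.Al, Y.ck σ x.1 (Y.cp x.1 ω) a.1 a'.1 f.1 * Y.ρ σ pm x ω f p q| ≤
      exp (-(3 * pm.u)) := by
  have e1 := A.c.e1
  have eu := A.eu
  have f0 : ∀ b, ff σ x b ≠ 0 := fun b => (one_pos.trans_le (ff_mem A.c.o x b).1).ne'
  have r0 : ∀ a q, Y.ρ σ pm x ω a none q = 0 := fun _ _ => rfl
  have X := A.c.ph A.hy A.cy
  rw [Matrix.sub_apply, mul_apply, mul_apply, ← sum_sub_distrib]
  rcases p with _ | b
  · simpa [r0] using (exp_pos _).le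
  have hs := A.dp.hs b.1
  have g0 := A.dp.g0 b.1
  generalize hx : Y.φ σ x.1 (Y.cp x.1 ω) (Y.v1 x.1 (Y.i1 pm x) ω) = φ at X
  have o : ∀ (a : σ.Al) (b b' : {b // σ.Nn b}), Y.ρ σ pm x ω a (some b) (some b') =
      ff σ x b'.1 / ff σ x b.1 * ρ σ.mu σ.wt (Y.ck σ x.1 (Y.cp x.1 ω)) φ a.1 b.1 b'.1 :=
    fun a b b' => hx ▸ off a b b'
  have rb := fun {a} (g : σ.toKc.G1 a) => X.rb A.c.wt A.c.ck ((A.c.g1 _).1 g).2
  rcases q with _ | b'
  · obtain ⟨η, h1, h2⟩ := A.src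
    have tb := A.tb
    rw [hx] at h2 tb
    have l := mul (neg (A.inv b.1)) (X.lie2 A.c.wt A.c.ck (A.c.ph A.hω rfl) A.dp tb a.2 a'.2 b.2)
    have ob := A.c.ck.ob
    generalize Y.φ σ x.1 (Y.cp x.1 ω) ω = ψ at l h2
    generalize Y.ck σ x.1 (Y.cp x.1 ω) = c at l o rb ob ⊢
    have s1 := sum A.c.ce (y := e + (e + (3 * (7 * e) + -(17 / 5 * pm.u))))
      (f := fun m => if σ.Nn m then ff σ x m / ff σ x b.1 * (ρ σ.mu σ.wt c φ a.1 b.1 m * η a'.1 m -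
        ρ σ.mu σ.wt c φ a'.1 b.1 m * η a.1 m) else 0) fun m => by
      split_ifs
      · exact mul (A.rat _ _) (sub e1 (mul (rb a.2 _ _) (h1 _ _)) (mul (rb a'.2 _ _) (h1 _ _)))
      · exact zer _
    have s2 := sum A.c.ce (y := 7 * e + -(17 / 5 * pm.u))
      (f := fun f => if σ.toKc.G1 f then c a.1 a'.1 f * η f b.1 else 0) fun f => by
      split_ifs
      · exact mul (ob _ _ _) (h1 _ _)
      · exact zer _
    have := add e1 (up l (show _ ≤ 25 * e - 17 / 5 * pm.u by linarith)) (up (sub e1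
      (up s1 (show _ ≤ 24 * e - 17 / 5 * pm.u by linarith)) (up s2 (by linarith))) (by linarith))
    refine up (le_of_eq_of_le ?_ this) (by linarith)
    rw [sum_nu (fun m => -(ff σ x b.1)⁻¹ * (ρ σ.mu σ.wt c φ a.1 b.1 m * θ σ.wt (Wd.dp pm x) φ ψ a'.1 m -
        ρ σ.mu σ.wt c φ a'.1 b.1 m * θ σ.wt (Wd.dp pm x) φ ψ a.1 m) + ff σ x m / ff σ x b.1 *
        (ρ σ.mu σ.wt c φ a.1 b.1 m * η a'.1 m - ρ σ.mu σ.wt c φ a'.1 b.1 m * η a.1 m))
      (by simp [r0]) (fun m => by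
        rw [o, o, h2, h2]
        have := f0 m.1
        have := f0 b.1
        field_simp
        ring), sum_sub (fun f => -(ff σ x b.1)⁻¹ * (c a.1 a'.1 f * θ σ.wt (Wd.dp pm x) φ ψ f b.1) +
        c a.1 a'.1 f * η f b.1) (fun f => by rw [h2]; ring), mul_sub, mul_sum, mul_sum,
      ← sum_sub_distrib, ← sum_sub_distrib, ← sum_sub_distrib, ← sum_add_distrib]
    congr 1
    refine sum_congr rfl fun m _ => ?_
    split_ifs <;> ring
  · have l := mul (A.rat b.1 b'.1) (X.lie1 A.c.wt A.c.ck a.2 a'.2 b.2 b'.2)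
    refine up (le_of_eq_of_le ?_ l) (by linarith)
    generalize Y.ck σ x.1 (Y.cp x.1 ω) = c at o ⊢
    rw [sum_nu (fun m => ff σ x b'.1 / ff σ x b.1 * (ρ σ.mu σ.wt c φ a.1 b.1 m *
        ρ σ.mu σ.wt c φ a'.1 m b'.1 - ρ σ.mu σ.wt c φ a'.1 b.1 m * ρ σ.mu σ.wt c φ a.1 m b'.1))
      (by simp [r0]) (fun m => by
        rw [o, o, o, o]
        have := f0 m.1
        have := f0 b.1
        field_simp), sum_sub (fun f => ff σ x b'.1 / ff σ x b.1 *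
        (c a.1 a'.1 f * ρ σ.mu σ.wt c φ f b.1 b'.1)) (fun f => by rw [o]; ring), mul_sub, mul_sum,
      mul_sum]
    simp only [mul_ite, mul_zero]

end At

end Pool.Agent.MP_5168f5_an.QA.GPt

namespace Pool.Agent.MP_5168f5_an.QA.SC

open GPt Real AN

theorem rowPA : RowPA := fun ι κ _ _ _ _ σ o => by
  obtain ⟨K, B⟩ := big o
  have k := B.k
  have C0 : (0 : ℝ) ≤ σ.C := Nat.cast_nonneg _
  have kC : σ.C ≤ K := by nlinarith [B.C]
  refine ⟨K, by linarith, fun Y p e w r δ H z hz => ?_⟩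
  have A := at_of o B H hz
  have e1 := A.c.e1
  have l : 22 * e ≤ K * e := by nlinarith
  refine ⟨rfl, fun q => ?_, fun q => ?_, fun a q q' => up (A.rb a q q') l,
    fun a a' f => up (Wd.P62.cb o H (by linarith) kC hz a a' f) (by linarith),
    fun a => up (Wd.P62.bb o H (by linarith) B.C hz a) (by linarith),
    Wd.P62.jl o H (by linarith) kC hz, Wd.bd_gr o Y p z⟩
  · have := add_one_le_exp (K * e)
    rcases q with _ | b
    · exact abs_one.trans_le (by linarith)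
    · exact (GA.CR.dz_abs _ _).trans (by linarith)
  · rcases q with _ | b
    · exact ⟨2 ^ p.u, by push_cast; exact mul_one _⟩
    · exact GA.CR.dz_grid _ _

theorem rowPB : RowPB := fun ι κ _ _ _ _ σ o => by
  obtain ⟨K, B⟩ := big o
  have k := B.k
  have C0 : (0 : ℝ) ≤ σ.C := Nat.cast_nonneg _
  refine ⟨K, by linarith, fun Y p e w r δ H z hz => ?_⟩
  have A := at_of o B H hz
  exact ⟨A.lie, Wd.P62.chi o H (by linarith) (by nlinarith [B.C]) hz, A.m0⟩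

end Pool.Agent.MP_5168f5_an.QA.SC
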