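import Pool.Agent.MP_4b405e_nt.SK.CLw
import Pool.Agent.MP_4b405e_nt.SK.CRI
import Pool.Agent.MP_4b405e_nt.SK.CFn

/-! Sparse heights, block C: the primitive budgets of the point and of the relative. -/

namespace Pool.Agent.MP_5168f5_an.QA.SC

open H19 H17S H17F R4 AN Real Finset
open Pool.Agent.MP_4b405e_nt.FB (Bd)

variable {ι κ : Type} [Fintype ι] [DecidableEq ι] [Fintype κ] [DecidableEq κ] {σ : Kk ι κ}
  {Y : Wd ι κ} {p : Pm} {K e w r δ : ℝ}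

namespace Wd

/-- The entropy of the block. -/
theorem ch_Z {Ω β : Type} (Q : FP Ω) (f : Ω → Par × Y.Ω) (G : Ω → β) (u : 1 ≤ (p.u : ℝ)) :
    ch Q (fun z => Y.Z σ p (f z).1 (f z).2) G ≤ Fintype.card σ.Nu * (5 * p.u) := by
  have g : ∀ x ω q, (∃ k : ℤ, 2 ^ p.u * Y.Z σ p x ω q = k) ∧ |Y.Z σ p x ω q| ≤ 2 := fun x ω q => by
    cases q with
    | none => exact ⟨⟨2 ^ p.u, by simp [Z, GA.CR.zb]⟩, by simp [Z, GA.CR.zb]⟩
    | some b => exact ⟨GA.CR.dz_grid _ _, GA.CR.dz_abs _ _⟩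
  have x : (0 : ℝ) < 2 ^ p.u := by positivity
  refine (ch_mono (F' := fun z => flv p.u (Y.Z σ p (f z).1 (f z).2))
    (Fn.left (fun a _ b _ k => funext fun q => ?_) _)).trans ((ch_near (L := 4 * 2 ^ p.u)
      (by positivity) fun a _ b _ _ => ?_).trans (mul_le_mul_of_nonneg_left ?_ (Nat.cast_nonneg _)))
  · obtain ⟨i, hi⟩ := (g (f a).1 (f a).2 q).1
    obtain ⟨j, hj⟩ := (g (f b).1 (f b).2 q).1
    have n := congrFun k q
    simp only [flv, fl1, hi, hj, Int.floor_intCast] at n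
    exact mul_left_cancel₀ x.ne' (by rw [hi, hj, n])
  · rw [mul_div_cancel_right₀ _ x.ne']
    refine (pi_norm_le_iff_of_nonneg (by norm_num)).2 fun q => (abs_sub _ _).trans ?_
    linarith [(g (f a).1 (f a).2 q).2, (g (f b).1 (f b).2 q).2]
  · have a : (1 : ℝ) ≤ 2 ^ p.u := one_le_pow₀ one_le_two
    refine (log_le_log (by positivity) (show _ ≤ (2 : ℝ) ^ (p.u + 4) by
      rw [pow_add]; linarith)).trans ?_
    rw [log_two_pow]
    push_cast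
    nlinarith [lg_lt_one, lg_pos]

/-- The cap level of the block is in the range. -/
theorem Hyp.i1_le (H : Y.Hyp σ p K e w r δ) (K1 : 1 ≤ K) {x : Par} (a : x.1 < Y.nD)
    (b : x.2.2.2 < p.L) : Y.i1 p x ≤ Y.nT := by
  have c := H.ch K1
  have b' : (x.2.2.2 : ℝ) ≤ p.L := Nat.cast_le.2 b.le
  have : ⌈(dp p x : ℝ) / Y.ms⌉₊ ≤ 2 * p.kD := Nat.ceil_le.2 (by
    rw [div_le_iff₀ H.ok.ms.1, dp]
    push_cast
    linarith [c.Ld, c.dx, c.xn, c.nk])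
  have := H.num.nT
  rw [i1]
  omega

/-- The class, the subcap and the action are read from the line. -/
theorem Hyp.lam_congr (H : Y.Hyp σ p K e w r δ) (K1 : 1 ≤ K) {x : Par} (a : x.1 < Y.nD)
    (b : x.2.2.2 < p.L) {ω v : Y.Ω} (m : ω ∈ Y.P.S) (m' : v ∈ Y.P.S) (g : Y.E x.1 v)
    (k : Y.lam ω = Y.lam v) : Y.cp x.1 ω = Y.cp x.1 v ∧
      Y.Cp (Y.i1 p x) ω = Y.Cp (Y.i1 p x) v ∧ Y.ρ σ p x ω = Y.ρ σ p x v := by
  have t := H.num.nT
  have e1 : Y.cp x.1 ω = Y.cp x.1 v :=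
    Prod.ext (H.ok.fC x.1 (by omega) _ m _ m' k) (H.st.fs _ _ m _ m' k)
  have e2 := H.ok.fC _ (H.i1_le K1 a b) _ m _ m' k
  have e3 : Y.v1 x.1 (Y.i1 p x) ω = Y.v1 x.1 (Y.i1 p x) v := N2.rep_congr (Prod.ext e1 e2)
  have e4 := H.ok.fR _ (H.st.val _ a _ m' g).mem.1 _ m _ m' k
  refine ⟨e1, e2, ?_⟩
  unfold ρ θ0
  rw [Y.ρ0_congr e1 e2, e1, e3]
  simp only [φ, e4]

/-- An information passes from the point to the relative. -/
theorem rel_mi (H : Y.Hyp σ p K e w r δ) (h : σ.Ok) (kC : (σ.C : ℝ) + 70 ≤ K) {α β γ : Type}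
    (F : Par × Y.Ω → α) (G : Par × Y.Ω → β) (S : Par × Y.Ω → γ) {x B : ℝ} (B0 : 0 ≤ B)
    (a : mi (Y.P2 σ p) (fun z => F (z.1, z.2.1.2)) (fun z => G (z.1, z.2.1.2))
      (fun z => S (z.1, z.2.1.2)) ≤ x) (b : ∀ Q : FP (Par × (ℕ × Y.Ω) × Y.Ω),
      ch Q (fun z => F (z.1, z.2.2)) (fun z => S (z.1, z.2.2)) ≤ B) :
    mi (Y.P2 σ p) (fun z => F (z.1, z.2.2)) (fun z => G (z.1, z.2.2)) (fun z => S (z.1, z.2.2)) ≤
      4 * x + 5 + 35 * δ * B := by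
  have C0 : (0 : ℝ) ≤ σ.C := Nat.cast_nonneg _
  have k : (σ.C : ℝ) ≤ K := by linarith
  have M := H.mk' h k
  obtain ⟨A, a1, -, a2⟩ := M.dom (J0 σ p) H.num.d0 (H.dh h k)
  have a3 : pb (Y.P2 σ p) A ≤ 35 * δ := a1.trans (by linarith [H.err_le h k])
  have a4 := (a2 A (fun _ _ => id) (a3.trans (by nlinarith [H.num.d1, H.num.d0]))).mi_le F G S
  rw [← (M.law (J0 σ p)).mi_id F G S] at a4
  have a5 := Bd.mi_up A _ (fun z => G (z.1, z.2.2)) _ (b (cE (Y.P2 σ p) A))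
  have a6 := mul_le_mul_of_nonneg_right a3 B0
  rw [← P2_eq] at a4
  linarith [lg_lt_one]

end Wd

theorem ofB : OfB := by
  intro _ lv _ t i f ι κ _ _ _ _ σ h
  obtain ⟨K1, k1, lv⟩ := lv ι κ σ h
  obtain ⟨K2, k2, t⟩ := t ι κ σ h
  obtain ⟨K3, k3, i⟩ := i ι κ σ h
  obtain ⟨K4, k4, f⟩ := f ι κ σ h
  have C0 : (0 : ℝ) ≤ σ.C := Nat.cast_nonneg _
  have N0 : (0 : ℝ) ≤ Fintype.card σ.Nu := Nat.cast_nonneg _
  refine ⟨K1 + 4 * K2 + 4 * K3 + K4 + σ.C + 70 + 175 * Fintype.card σ.Nu, by linarith,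
    fun Y p e w r δ H => ?_⟩
  have lv := (lv Y p e w r δ (RI.anti H (by linarith))).2
  have t := t Y p e w r δ (RI.anti H (by linarith))
  have i := i Y p e w r δ (RI.anti H (by linarith))
  have f := f Y p e w r δ (RI.anti H (by linarith))
  have H1 := RI.anti H (show (1 : ℝ) ≤ _ by linarith)
  have HC := RI.anti H (show (σ.C : ℝ) + 70 ≤ _ by linarith)
  have c := H1.ch le_rfl
  have eu : e ≤ δ * p.u := (one_mul e).symm.trans_le c.eu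
  have u1 : (1 : ℝ) ≤ p.u := by exact_mod_cast c.u0
  have m := fun z => HC.mem h (by linarith) (z := z)
  have x1 := c.e1.trans eu
  have b1 := mul_le_mul_of_nonneg_left eu (zero_le_one.trans k1)
  have b3 := mul_le_mul_of_nonneg_left eu (zero_le_one.trans k3)
  have f1 : mi (Y.P2 σ p) (Y.bd σ p).Z (fun z => ((Y.bd σ p).θ (σ.bc h) z, (Y.bd σ p).v z))
      (Y.bd σ p).K ≤ K3 * (δ * p.u) := by
    refine le_trans (le_trans (mi_mono ?_) (mi_left (fun _ _ _ _ k => ?_)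
      ((Fn.fst _ _).left _) ((Fn.snd _ _).left _))) (i.trans b3)
    · rintro ⟨x, ⟨j, ω⟩, v⟩ hz ⟨x', ⟨j', ω'⟩, v'⟩ hz' k
      obtain rfl : x = x' := congrArg (·.2.1) k
      obtain ⟨-, e2, e3⟩ := H1.lam_congr le_rfl (m _ hz).1.1 (m _ hz).1.2.2.2 (m _ hz).2.2.1
        (m _ hz').2.2.1 (m _ hz').2.2.2.2.1 (congrArg (·.1) k)
      exact Prod.ext (congrArg (fun (s : σ.Al → Matrix σ.Nu σ.Nu ℝ) a q => s a q none) e3) e2
    · exact Prod.ext (congrArg (·.1) k :) (congrArg (·.2.1) k :)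
  have B0 : (0 : ℝ) ≤ Fintype.card σ.Nu * (5 * p.u) := by positivity
  have t' := fun s => Wd.rel_mi HC h le_rfl (fun z => (σ.bc h).blk s (Y.Z σ p z.1 z.2))
    (fun z => (σ.bc h).oth s (Y.Z σ p z.1 z.2)) (fun z => Y.K σ p z.1 z.2) B0 (t s) fun Q =>
      (ch_mono ((Fn.comp _ _).left _)).trans (Wd.ch_Z Q (fun z => (z.1, z.2.2)) _ u1)
  have f' := Wd.rel_mi HC h le_rfl (fun z => Y.Z σ p z.1 z.2)
    (fun z => (fun a q => Y.ρ σ p z.1 z.2 a q none, Y.Cp (Y.i1 p z.1) z.2))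
    (fun z => Y.K σ p z.1 z.2) B0 f1 fun Q => Wd.ch_Z Q (fun z => (z.1, z.2.2)) _ u1
  have f2 : mi (Y.P2 σ p) (Y.Z' σ p) (fun z => ((Y.bd σ p).θ (σ.bc h) z, (Y.bd σ p).v z))
      (Y.K' σ p) ≤ _ := le_trans (mi_mono (Fn.left (fun a ha b hb k => ?_) _)) f'
  · have z : ∀ {a : ℝ}, 0 ≤ a → 0 ≤ a * (δ * p.u) := fun a => mul_nonneg a (by linarith)
    have z1 := z (zero_le_one.trans k1)
    have z2 := z (zero_le_one.trans k2)
    have z3 := z (zero_le_one.trans k3)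
    have z4 := z (zero_le_one.trans k4)
    have z5 := z C0
    have z6 := z N0
    exact ⟨⟨fun s => (t s).trans (by linarith), f1.trans (by linarith), f.1.trans (by linarith),
      lv.trans (by linarith)⟩, fun s => (t' s).trans (by linarith),
      f2.trans (by linarith), f.2.trans (by linarith), lv.trans (by linarith)⟩
  · have g : ∀ z ∈ (Y.P2 σ p).S, ((Y.bd σ p).θ (σ.bc h) z, (Y.bd σ p).v z) =
        (fun a q => Y.ρ σ p z.1 z.2.2 a q none, Y.Cp (Y.i1 p z.1) z.2.2) := fun z hz => by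
      obtain ⟨⟨m1, -, -, m2⟩, -, m3, m4, -, m5, m6, -⟩ := m z hz
      obtain ⟨-, e2, e3⟩ := H1.lam_congr le_rfl m1 m2 m3 m4 m5 m6.symm
      exact Prod.ext (congrArg (fun (s : σ.Al → Matrix σ.Nu σ.Nu ℝ) a q => s a q none) e3) e2
    exact (g a ha).trans (k.trans (g b hb).symm)

end Pool.Agent.MP_5168f5_an.QA.SC
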