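import Pool.Agent.MP_4b405e_nt.SK.CDef

/-! Sparse heights, block C: boxes in the frames of the caps and in the basis of a class. -/

namespace Pool.Agent.MP_5168f5_an.QA.SC

open H19 H17S H17F R4 AN Filter Matrix Real Finset
open GA (Mt IsFr br mB mC sB sC cell Bx Idl ex rnd vec)
open GA.CR GA.GAFrA

variable {ι κ : Type} [Fintype ι] [DecidableEq ι] [Fintype κ] [DecidableEq κ]

namespace GN

variable {B : κ → Mt ι} {A A' : Matrix κ κ ℝ} {r r' : κ → ℝ} {u v C : ℝ} {k : ℕ} {x y : Mt ι}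

omit [Fintype ι] [DecidableEq ι] [DecidableEq κ] in
theorem mB_mB (A A' : Matrix κ κ ℝ) (B : κ → Mt ι) : mB A (mB A' B) = mB (A * A') B :=
  funext fun a => by
    show vec (mB A' B) (A a) = vec B ((A * A') a)
    rw [vec_mB, mul_apply_eq_vecMul]

omit [Fintype ι] [DecidableEq ι] in
theorem sB_eq (ρ : κ → ℝ) (B : κ → Mt ι) : sB ρ B = mB (diagonal ρ) B := funext fun a => by
  show ρ a • B a = ∑ b, diagonal ρ a b • B b
  rw [sum_eq_single a (fun b _ h => by rw [diagonal_apply_ne _ h.symm, zero_smul])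
    (fun h => absurd (mem_univ a) h), diagonal_apply_eq]

omit [Fintype ι] [DecidableEq ι] in
theorem mB_one (B : κ → Mt ι) : mB 1 B = B := by
  rw [← diagonal_one, ← sB_eq]; funext a; exact one_smul _ _

omit [DecidableEq κ] in
theorem nr_mB (hk : Fintype.card κ ≤ k) (hr : ∀ f, 0 ≤ r f)
    (hA : ∀ b f, |A b f| * r' b ≤ exp u * r f) (h : GA.Nr (mB A B) r' (exp v) x y) :
    GA.Nr B r (exp (u + k + v)) x y := by
  obtain ⟨t, h1, h2⟩ := h
  refine ⟨t ᵥ* A, ?_, h2.trans (by rw [ex, vec_mB, ex])⟩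
  rw [← mulVec_transpose]
  exact bx_mat hk hr (fun p q => hA q p) h1

omit [DecidableEq κ] in
theorem cell_eq {Φ : H61Z.Filt (Mt ι)} {c : κ → κ → κ → ℝ} (K : GA.CR.Kit Φ.N k C)
    (hk : Fintype.card κ ≤ k) (fr : IsFr Φ B c) (hu : 1 ≤ u) (hr : ∀ a, 0 < r a)
    (i : Idl c r r (exp u)) (hx : IsUnit x) (hy : IsUnit y) (h : cell B r x = cell B r y) :
    GA.Nr B r (exp (C * u)) x y := by
  have m := GA.sMul ι κ Φ B c fr
  have r0 := fun a => (hr a).le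
  have o : (1 : ℝ) ≤ exp u := one_le_exp (by linarith)
  obtain ⟨-, e1, b1⟩ := cell_lg fr hr hx
  obtain ⟨-, e2, b2⟩ := cell_lg fr hr hy
  have b3 := GA.GANrA.neg (GA.GABoxA.mono b1 r0 o)
  have b4 := GA.GABoxA.mono b2 r0 o
  refine ⟨_, (K.box hk hu r0 r0 m.anti i i b3 b4 b3 b4).1, ?_⟩
  rw [← m.mul, ← mul_assoc]
  conv_rhs => arg 1; arg 1; rw [e1]
  rw [mul_assoc (cell B r x), (m.neg _).2, mul_one, h]
  exact e2

omit [Fintype κ] [DecidableEq κ] in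
theorem tow1 {c : κ → κ → κ → ℝ} (hr : ∀ a, 0 < r a) (i : Idl c r r (exp u)) : Tow c r r r u :=
  ⟨hr, fun _ => le_rfl, fun _ => le_rfl, i, i, i, i⟩

variable (σ : Kk ι κ)

/-- A graded matrix that is the identity off the columns of positive rate. -/
def Gm (A : Matrix κ κ ℝ) : Prop :=
  ∀ b f, A b f ≠ (1 : Matrix κ κ ℝ) b f → σ.mu b = σ.mu f ∧ σ.Nn f

variable {σ}

omit [Fintype κ] in
theorem Gm.mu (h : Gm σ A) {b f : κ} (e : A b f ≠ 0) : σ.mu b = σ.mu f := by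
  by_cases q : b = f
  · rw [q]
  · exact (h b f (by rwa [one_apply_ne q])).1

omit [Fintype κ] in
theorem Gm.off (h : Gm σ A) (b : κ) {f : κ} (e : ¬σ.Nn f) : A b f = (1 : Matrix κ κ ℝ) b f :=
  not_not.1 fun q => e (h b f q).2

theorem Gm.mul (h : Gm σ A) (h' : Gm σ A') : Gm σ (A * A') := fun b f e => by
  refine ⟨not_not.1 fun q => e ?_, not_not.1 fun q => e ?_⟩
  · rw [one_apply_ne fun z => q (by rw [z]), mul_apply]
    exact sum_eq_zero fun g _ => not_not.1 fun z =>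
      q ((h.mu (left_ne_zero_of_mul z)).trans (h'.mu (right_ne_zero_of_mul z)))
  · rw [← h.off b q, mul_apply]
    simp only [h'.off _ q]
    rw [← mul_apply, mul_one]

omit [Fintype κ] in
theorem gm_diag (ok : σ.Ok) (D : ℝ) : Gm σ (diagonal fun b => exp (σ.vt b * D)) := fun b f e => by
  by_cases q : b = f
  · subst q
    refine ⟨rfl, lt_of_le_of_ne (ok.vt0 b) fun z => e ?_⟩
    rw [diagonal_apply_eq, one_apply_eq, Kk.vt, z, sub_self, zero_mul, exp_zero]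
  · rw [diagonal_apply_ne _ q, one_apply_ne q] at e
    exact absurd rfl e

omit [Fintype κ] in
theorem gm_diag' (ok : σ.Ok) (D : ℝ) : Gm σ (diagonal fun b => exp (-(σ.vt b * D))) := by
  simpa only [mul_neg] using gm_diag ok (-D)

omit [Fintype κ] in
theorem Gm.box (h : Gm σ A) (hr : ∀ f, 0 ≤ r f)
    (h1 : ∀ b f, σ.mu b = σ.mu f → σ.Nn f → |A b f| * r' b ≤ exp u * r f)
    (h2 : ∀ f, ¬σ.Nn f → r' f ≤ exp u * r f) (b f : κ) : |A b f| * r' b ≤ exp u * r f := by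
  have z : 0 ≤ exp u * r f := mul_nonneg (exp_pos u).le (hr f)
  by_cases e : A b f = 0
  · rwa [e, abs_zero, zero_mul]
  by_cases q : σ.Nn f
  · exact h1 b f (h.mu e) q
  · rw [h.off b q] at e ⊢
    obtain rfl : b = f := not_not.1 fun n => e (one_apply_ne n)
    rw [one_apply_eq, abs_one, one_mul]
    exact h2 b q

omit [DecidableEq κ] in
theorem abs_mul_le (hk : Fintype.card κ ≤ k) {b f : κ} (h : ∀ g, |A b g| ≤ exp u)
    (h' : ∀ g, |A' g f| ≤ exp v) : |(A * A') b f| ≤ exp (u + v + k) := by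
  rw [mul_apply, exp_add, mul_comm]
  refine sum_le hk (exp_pos _).le fun g => ?_
  rw [abs_mul, exp_add]
  exact mul_le_mul (h g) (h' g) (abs_nonneg _) (exp_pos _).le

omit [Fintype κ] [DecidableEq κ] in
theorem vt0 (ok : σ.Ok) (b : κ) : 0 ≤ σ.vt b := sub_nonneg.2 (ok.vt0 b)

omit [Fintype κ] [DecidableEq κ] in
theorem vt_eq (ok : σ.Ok) {b : κ} (h : ¬σ.Nn b) : σ.vt b = 0 :=
  le_antisymm (sub_nonpos.2 (not_lt.1 h)) (vt0 ok b)

omit [Fintype κ] [DecidableEq κ] in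
theorem nn_mu (ok : σ.Ok) {b : κ} (h : σ.Nn b) : σ.mu b ≠ 0 := fun e => by
  have := ok.dead b e
  unfold Kk.Nn at h
  linarith

omit [Fintype κ] [DecidableEq κ] in
theorem rad_pos (l x d s : ℝ) (b : κ) : 0 < σ.rad l x d s b := by
  unfold Kk.rad; split_ifs; exacts [one_pos, exp_pos _, exp_pos _]

omit [Fintype κ] [DecidableEq κ] in
theorem rad_nn (ok : σ.Ok) (l x d s : ℝ) {b : κ} (h : σ.Nn b) :
    σ.rad l x d s b = exp (-(σ.mu b * l + σ.wt b * d + s)) := by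
  unfold Kk.rad; rw [if_neg (nn_mu ok h), if_pos h]

omit [Fintype κ] [DecidableEq κ] in
theorem rad_off (l x d s d' s' : ℝ) {b : κ} (h : ¬σ.Nn b) :
    σ.rad l x d s b = σ.rad l x d' s' b := by
  unfold Kk.rad; rw [if_neg h, if_neg h]

omit [Fintype κ] [DecidableEq κ] in
theorem rad_let (l x d s : ℝ) {b : κ} (h0 : σ.mu b ≠ 0) (h : ¬σ.Nn b) :
    σ.rad l x d s b = exp (-(σ.mu b * l + x)) := by
  unfold Kk.rad; rw [if_neg h0, if_neg h]

omit [Fintype κ] [DecidableEq κ] in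
theorem rad_dead (l x d s : ℝ) {b : κ} (h0 : σ.mu b = 0) : σ.rad l x d s b = 1 := by
  unfold Kk.rad; rw [if_pos h0]

omit [Fintype κ] [DecidableEq κ] in
theorem rad_le (ok : σ.Ok) (l : ℝ) {x d s : ℝ} (hx : 0 ≤ x) (hd : 0 ≤ d) (hs : 0 ≤ s) (b : κ) :
    σ.rad l x d s b ≤ exp (-(σ.mu b * l)) := by
  unfold Kk.rad
  split_ifs with h
  · rw [h, zero_mul, neg_zero, exp_zero]
  · exact exp_le_exp.2 (by linarith [mul_nonneg (ok.w0 b).le hd])
  · exact exp_le_exp.2 (by linarith)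

omit [Fintype κ] [DecidableEq κ] in
theorem le_rad (l : ℝ) {x : ℝ} (hx : 0 ≤ x) (b : κ) :
    exp (-(σ.mu b * l + x)) ≤ σ.rad l x 0 0 b := by
  unfold Kk.rad
  split_ifs with h
  · exact exp_le_one_iff.2 (by rw [h]; linarith)
  · exact exp_le_exp.2 (by linarith)
  · exact le_rfl

end GN

open GN

namespace Wd

variable (σ : Kk ι κ) (Y : Wd ι κ)

/-- The frame of `v` in the units of the caps of level `i`. -/
noncomputable def Fv (i : ℕ) (v : Y.Ω) : κ → Mt ι := sB (fun b => exp (-(σ.vt b * Y.D i))) (Y.X.B v)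

/-- Its constants. -/
noncomputable def cv' (i : ℕ) (v : Y.Ω) : κ → κ → κ → ℝ :=
  sC (fun b => exp (-(σ.vt b * Y.D i))) (Y.X.c v)

/-- The base sample of the cap. -/
noncomputable def rq (i : ℕ) (ω : Y.Ω) : Y.Ω := N2.rep Y.P (Y.Cp i) (fun _ => True) ω

variable {σ Y} {e w r u v l x : ℝ} {k i i' : ℕ} {a b ω : Y.Ω} {s : κ → ℝ} {g g' : Mt ι}

omit [Fintype ι] [DecidableEq ι] [Fintype κ] [DecidableEq κ] in
theorem rq_spec (h : ω ∈ Y.P.S) (i : ℕ) : Y.rq i ω ∈ Y.P.S ∧ Y.Cp i (Y.rq i ω) = Y.Cp i ω :=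
  ⟨(N2.rep_spec h trivial).1, (N2.rep_spec (G := fun _ => True) h trivial).2.2⟩

omit [Fintype ι] [DecidableEq ι] [Fintype κ] [DecidableEq κ] in
theorem rq_congr (h : Y.Cp i a = Y.Cp i b) : Y.rq i a = Y.rq i b := N2.rep_congr h

theorem Ok.D_mono (h : Y.Ok σ e w) (l : i ≤ i') : Y.D i ≤ Y.D i' :=
  mul_le_mul_of_nonneg_right (Nat.cast_le.2 l) h.ms.1.le

theorem Ok.D0 (h : Y.Ok σ e w) (i : ℕ) : 0 ≤ Y.D i := mul_nonneg i.cast_nonneg h.ms.1.le

theorem Ok.e0 (h : Y.Ok σ e w) : 0 ≤ e := h.ms.1.le.trans h.ms.2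

theorem Ok.gmR (h : Y.Ok σ e w) (ok : σ.Ok) (ha : a ∈ Y.P.S) (hb : b ∈ Y.P.S) :
    Gm σ (Y.X.R a b) := fun p q z => by
  obtain ⟨h1, h2⟩ := ((h.fr a ha).2.2 b hb).2.2.2 p q z
  exact ⟨h1, (h1 ▸ ok.vt0 p).trans_lt h2⟩

theorem Ok.frv (h : Y.Ok σ e w) (ha : a ∈ Y.P.S) (i : ℕ) : IsFr σ.Φ (Y.Fv σ i a) (Y.cv' σ i a) :=
  fr_sB (fun _ => exp_pos _) (h.fr a ha).2.1

/-- The plain boxes are closed under the bracket. -/
theorem Ok.idl (h : Y.Ok σ e w) (ok : σ.Ok) (ha : a ∈ Y.P.S) (l0 : 0 ≤ l) (l1 : l ≤ Y.W)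
    (hx : 0 ≤ x) (hw : ∀ f, σ.vt f * Y.D i + x ≤ w) :
    Idl (Y.cv' σ i a) (σ.rad l x 0 0) (σ.rad l x 0 0) (exp e) := fun p q f => by
  have d0 := h.D0 i
  have vp := mul_nonneg (vt0 ok p) d0
  have vq := mul_nonneg (vt0 ok q) d0
  have mp := mul_nonneg (ok.m0 p) l0
  have mq := mul_nonneg (ok.m0 q) l0
  have e1 : |Y.cv' σ i a p q f| =
      |Y.X.c a p q f| * exp (σ.vt f * Y.D i - σ.vt p * Y.D i - σ.vt q * Y.D i) := by
    unfold cv' sC
    rw [mul_assoc, mul_div_assoc, ← exp_add, ← exp_sub, abs_mul, abs_of_pos (exp_pos _)]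
    congr 2; ring
  have key : ∀ {X α β γ : ℝ}, |Y.X.c a p q f| * exp X ≤ exp γ → σ.rad l x 0 0 p * σ.rad l x 0 0 q ≤
      exp α → exp β ≤ σ.rad l x 0 0 f →
      σ.vt f * Y.D i - σ.vt p * Y.D i - σ.vt q * Y.D i + α - X + γ ≤ e + β →
      |Y.cv' σ i a p q f| * σ.rad l x 0 0 p * σ.rad l x 0 0 q ≤ exp e * σ.rad l x 0 0 f :=
    fun {X α β γ} h1 h2 h3 h4 => by
      rw [e1, mul_assoc]
      refine (mul_le_mul_of_nonneg_left h2 (by positivity)).trans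
        (le_trans ?_ (mul_le_mul_of_nonneg_left h3 (exp_pos e).le))
      rw [mul_assoc, ← exp_add, ← exp_add, show σ.vt f * Y.D i - σ.vt p * Y.D i - σ.vt q * Y.D i + α
        = X + (σ.vt f * Y.D i - σ.vt p * Y.D i - σ.vt q * Y.D i + α - X) by ring, exp_add,
        ← mul_assoc]
      refine (mul_le_mul_of_nonneg_right h1 (exp_pos _).le).trans ?_
      rw [← exp_add]
      exact exp_le_exp.2 (by linarith)
  have r2 : σ.rad l x 0 0 p * σ.rad l x 0 0 q ≤ exp (-(σ.mu p * l) + -(σ.mu q * l)) := by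
    rw [exp_add]
    exact mul_le_mul (rad_le ok l hx le_rfl le_rfl p) (rad_le ok l hx le_rfl le_rfl q)
      (rad_pos _ _ _ _ _).le (exp_pos _).le
  have ob : |Y.X.c a p q f| * exp 0 ≤ exp e := by rw [exp_zero, mul_one]; exact (h.alg a ha).ob p q f
  have e0 := h.e0
  rcases (ok.m0 f).eq_or_lt with z | z
  · refine key (β := 0) ob r2 (by rw [rad_dead _ _ _ _ z.symm, exp_zero]) ?_
    rw [vt_eq ok fun n => nn_mu ok n z.symm]
    linarith
  by_cases c1 : 0 < σ.mu p ∧ 0 < σ.mu q ∧ σ.mu f = σ.mu p + σ.mu q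
  · by_cases c2 : σ.la f = σ.la p + σ.la q
    · have c3 : σ.vt f = σ.vt p + σ.vt q := by unfold Kk.vt; linarith [c1.2.2]
      by_cases n : σ.Nn f
      · refine key ob r2 (rad_nn ok l x 0 0 n).ge ?_
        rw [c3, c1.2.2]
        linarith
      · have c4 := vt_eq ok n
        have n1 : ¬σ.Nn p := fun z => by
          have : 0 < σ.vt p := sub_pos.2 z
          linarith [vt0 ok q]
        refine key (α := -(σ.mu p * l + x) + -(σ.mu q * l)) ob ?_ (rad_let l x 0 0 z.ne' n).ge ?_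
        · rw [exp_add, rad_let l x 0 0 c1.1.ne' n1]
          exact mul_le_mul_of_nonneg_left (rad_le ok l hx le_rfl le_rfl q) (exp_pos _).le
        · rw [c3, c1.2.2]
          linarith
    · refine key (X := 0) (γ := -w) (by
        rw [exp_zero, mul_one]; exact (h.alg a ha).gr p q f z fun n => c2 n.2.2.2) r2
        (le_rad l hx f) ?_
      rw [c1.2.2]
      linarith [hw f]
  · refine key (h.algL a ha p q f z c1 l l0 l1) r2 (le_rad l hx f) ?_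
    linarith [hw f]

/-- The change of frame inside a cap. -/
theorem Ok.chg (h : Y.Ok σ e w) (ok : σ.Ok) (ha : a ∈ Y.P.S) (hb : b ∈ Y.P.S) (hi : i ≤ Y.nT)
    (c : Y.Cp i a = Y.Cp i b) (D : ℝ) : ∃ A, Gm σ A ∧
      sB (fun p => exp (-(σ.vt p * D))) (Y.X.B b) = mB A (Y.Fv σ i a) ∧
      A = (diagonal fun p => exp (-(σ.vt p * D))) * Y.X.R a b *
        (diagonal fun p => exp (σ.vt p * Y.D i)) ∧
      ∀ p q, |A p q| ≤ exp (e - σ.vt p * (D - Y.D i)) := by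
  refine ⟨_, ((gm_diag' ok D).mul (h.gmR ok ha hb)).mul (gm_diag ok _), ?_, rfl, fun p q => ?_⟩
  · rw [Fv, sB_eq, sB_eq, mB_mB, ((h.fr a ha).2.2 b hb).2.2.1, mB_mB, mul_assoc (_ * _),
      diagonal_mul_diagonal]
    simp only [← exp_add, add_neg_cancel, exp_zero, diagonal_one, mul_one]
  · have := mul_le_mul_of_nonneg_right (h.rr i hi a ha b hb c p q)
      (exp_pos (-(σ.vt p * (D - Y.D i)))).le
    rw [← exp_add, ← sub_eq_add_neg] at this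
    refine le_of_eq_of_le ?_ this
    rw [mul_diagonal, diagonal_mul, ← abs_of_pos (exp_pos (-(σ.vt p * (D - Y.D i)))), ← abs_mul]
    congr 1
    rw [mul_right_comm, mul_right_comm (exp _) _ (exp _), ← exp_add, ← exp_add]
    congr 2; ring

/-- From a deep cap to a cap. -/
theorem Ok.nr3 (h : Y.Ok σ e w) (ok : σ.Ok) (hk : Fintype.card κ ≤ k) (ha : a ∈ Y.P.S)
    (hb : b ∈ Y.P.S) (hi : i ≤ Y.nT) (li : i ≤ i') (c : Y.Cp i a = Y.Cp i b) (hx : 0 ≤ x)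
    (n : GA.Nr (Y.Fv σ i' b) (σ.rad l x 0 0) (exp v) g g') :
    GA.Nr (Y.Fv σ i a) (σ.rad l x 0 0) (exp (e + k + v)) g g' := by
  obtain ⟨A, a1, a2, -, a3⟩ := h.chg ok ha hb hi c (Y.D i')
  rw [Fv, a2] at n
  have r0 := fun f => (rad_pos (σ := σ) l x 0 0 f).le
  refine nr_mB hk r0 (a1.box r0 (fun p q m nq => ?_) fun f _ =>
    le_mul_of_one_le_left (r0 f) (one_le_exp h.e0)) n
  refine mul_le_mul ((a3 p q).trans (exp_le_exp.2 ?_)) ?_ (r0 p) (exp_pos e).le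
  · linarith [mul_nonneg (vt0 ok p) (sub_nonneg.2 (h.D_mono li))]
  · rw [rad_nn ok l x 0 0 nq, ← m, mul_zero, add_zero, add_zero]
    exact rad_le ok l hx le_rfl le_rfl p

theorem Val.gm (V : Y.Val σ e r i ω) : Gm σ (Y.g i (Y.cp i ω)) ∧ Gm σ (Y.g1 i (Y.cp i ω)) := by
  refine ⟨fun p q z => ⟨?_, not_not.1 fun n => z (V.id p q (.inr n)).1⟩,
    fun p q z => ⟨?_, not_not.1 fun n => z (V.id p q (.inr n)).2⟩⟩ <;>
  by_cases n : p = q
  · rw [n]
  · exact V.gr p q (.inl (by rwa [one_apply_ne n] at z))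
  · rw [n]
  · exact V.gr p q (.inr (by rwa [one_apply_ne n] at z))

/-- From the basis of the class to the frame of the cap. -/
theorem Ok.nr1 (h : Y.Ok σ e w) (ok : σ.Ok) (hk : Fintype.card κ ≤ k) (V : Y.Val σ e r i ω)
    (ha : a ∈ Y.P.S) (hi : i ≤ Y.nT) (c : Y.Cp i a = Y.Cp i ω) (hx : 0 ≤ x) (s0 : ∀ f, 0 ≤ s f)
    (hs : ∀ f, s f ≤ σ.rad l x 0 0 f) (n : GA.Nr (Y.Bk σ i (Y.cp i ω)) s (exp v) g g') :
    GA.Nr (Y.Fv σ i a) (σ.rad l x 0 0) (exp (e + e + k + k + v)) g g' := by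
  obtain ⟨A, a1, a2, -, a3⟩ := h.chg ok ha V.mem.1 hi (c.trans V.mem.2.symm) (Y.D i)
  rw [Bk, Wd.A, ← mB_mB, ← sB_eq, a2, mB_mB] at n
  have r0 := fun f => (rad_pos (σ := σ) l x 0 0 f).le
  have k0 : (0 : ℝ) ≤ k := k.cast_nonneg
  refine nr_mB hk r0 ((V.gm.1.mul a1).box r0 (fun p q m nq => ?_) fun f _ => (hs f).trans
    (le_mul_of_one_le_left (r0 f) (one_le_exp (by linarith [h.e0])))) n
  refine mul_le_mul (abs_mul_le hk (fun f => (V.bd p f).1) fun f => by simpa using a3 f q)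
    ((hs p).trans ?_) (s0 p) (exp_pos _).le
  rw [rad_nn ok l x 0 0 nq, ← m, mul_zero, add_zero, add_zero]
  exact rad_le ok l hx le_rfl le_rfl p

theorem Ok.phi (h : Y.Ok σ e w) (ok : σ.Ok) (hk : Fintype.card κ ≤ k) (V : Y.Val σ e r i ω)
    (ha : a ∈ Y.P.S) (hi : i ≤ Y.nT) (c : Y.Cp i a = Y.Cp i ω) :
    Gm σ (Y.φ σ i (Y.cp i ω) a) ∧ Y.X.B a = mB (Y.φ σ i (Y.cp i ω) a) (Y.Bk σ i (Y.cp i ω)) ∧
      ∀ p q, |Y.φ σ i (Y.cp i ω) a p q| ≤ exp (e + σ.vt p * Y.D i + e + k) := by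
  obtain ⟨A, -, -, a2, a3⟩ := h.chg ok V.mem.1 ha hi (V.mem.2.trans c.symm) 0
  refine ⟨(h.gmR ok V.mem.1 ha).mul ((gm_diag ok _).mul V.gm.2), ?_, fun p q => ?_⟩
  · rw [Bk, mB_mB, φ, Wd.A, A1, mul_assoc, mul_assoc, ← mul_assoc (Y.g1 _ _),
      mul_eq_one_comm.1 V.inv, one_mul, diagonal_mul_diagonal]
    simp only [← exp_add, add_neg_cancel, exp_zero, diagonal_one, mul_one]
    exact ((h.fr _ V.mem.1).2.2 a ha).2.2.1
  · simp only [mul_zero, neg_zero, exp_zero, diagonal_one, one_mul] at a2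
    rw [φ, A1, ← mul_assoc, ← a2]
    exact abs_mul_le hk (fun f => (a3 p f).trans_eq (by congr 1; ring)) fun f => (V.bd f q).2

/-- From the frame of a sample, in the units of the depth `D`, to the basis of the class. -/
theorem Ok.nr2 (h : Y.Ok σ e w) (ok : σ.Ok) (hk : Fintype.card κ ≤ k) (V : Y.Val σ e r i ω)
    (ha : a ∈ Y.P.S) (hi : i ≤ Y.nT) (c : Y.Cp i a = Y.Cp i ω) {D : ℝ} {ρ : κ → ℝ}
    (r0 : ∀ f, 0 ≤ ρ f) (s0 : ∀ f, 0 ≤ s f)
    (h1 : ∀ p q, σ.mu p = σ.mu q → σ.Nn q → exp (-(σ.vt p * (D - Y.D i))) * ρ p ≤ s q)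
    (h2 : ∀ f, ¬σ.Nn f → ρ f ≤ s f)
    (n : GA.Nr (sB (fun p => exp (-(σ.vt p * D))) (Y.X.B a)) ρ (exp v) g g') :
    GA.Nr (Y.Bk σ i (Y.cp i ω)) s (exp (e + e + k + k + v)) g g' := by
  obtain ⟨a1, a2, a3⟩ := h.phi ok hk V ha hi c
  rw [a2, sB_eq, mB_mB] at n
  have k0 : (0 : ℝ) ≤ k := k.cast_nonneg
  refine nr_mB hk s0 (((gm_diag' ok D).mul a1).box s0 (fun p q m nq => ?_) fun f n => (h2 f n).trans
    (le_mul_of_one_le_left (s0 f) (one_le_exp (by linarith [h.e0])))) n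
  refine le_trans ?_ (mul_le_mul_of_nonneg_left (h1 p q m nq) (exp_pos _).le)
  rw [diagonal_mul, abs_mul, abs_of_pos (exp_pos _), ← mul_assoc]
  refine mul_le_mul_of_nonneg_right ((mul_le_mul_of_nonneg_left (a3 p q) (exp_pos _).le).trans_eq ?_)
    (r0 p)
  rw [← exp_add, ← exp_add]
  congr 1; ring

/-- The deep cell locates the sample in the basis of the class. -/
theorem Ok.nrT (h : Y.Ok σ e w) (ok : σ.Ok) (hk : Fintype.card κ ≤ k) (V : Y.Val σ e r i a)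
    (ha : a ∈ Y.P.S) (hb : b ∈ Y.P.S) (hi : i ≤ Y.nT) (c : Y.T a = Y.T b) (s0 : ∀ f, 0 ≤ s f)
    (h1 : ∀ p q, σ.mu p = σ.mu q → σ.Nn q → exp (σ.vt p * Y.D i - σ.mu p * Y.W1) ≤ s q)
    (h2 : ∀ f, ¬σ.Nn f → exp (-(σ.mu f * Y.W1)) ≤ s f) :
    GA.Nr (Y.Bk σ i (Y.cp i a)) s (exp (e + e + k + k + e)) (Y.X.j a) (Y.X.j b) := by
  refine h.nr2 ok hk V ha hi rfl (D := 0) (ρ := fun f => exp (-(σ.mu f * Y.W1)))
    (fun f => (exp_pos _).le) s0 (fun p q m n => le_of_eq_of_le ?_ (h1 p q m n)) h2 ?_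
  · rw [← exp_add]; congr 1; ring
  · simp only [mul_zero, neg_zero, exp_zero]
    rw [sB_eq, diagonal_one, mB_one]
    exact ⟨_, fun f => (h.loc a ha b hb c f).trans_eq (by rw [← exp_add]; rfl),
      ((h.fr a ha).2.2 b hb).2.1⟩

/-- The rows of the letters hardly move in a deep cap. -/
theorem Ok.phi_sub (h : Y.Ok σ e w) (ok : σ.Ok) (hk : Fintype.card κ ≤ k) (V : Y.Val σ e r i ω)
    (ha : a ∈ Y.P.S) (hb : b ∈ Y.P.S) (li : i ≤ i') (hi : i' ≤ Y.nT) (c : Y.Cp i a = Y.Cp i ω)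
    (c' : Y.Cp i' a = Y.Cp i' b) {m : ℝ} (hm : ∀ f, σ.Nn f → m ≤ σ.vt f * (Y.D i' - Y.D i))
    {p : κ} (np : ¬σ.Nn p) (q : κ) :
    |Y.φ σ i (Y.cp i ω) b p q - Y.φ σ i (Y.cp i ω) a p q| ≤ exp (3 * e + 2 * k - m) := by
  obtain ⟨-, -, a3⟩ := h.phi ok hk V ha (li.trans hi) c
  have e1 : Y.φ σ i (Y.cp i ω) b p q - Y.φ σ i (Y.cp i ω) a p q =
      ∑ f, (Y.X.R a b - 1) p f * Y.φ σ i (Y.cp i ω) a f q := by
    rw [← mul_apply, sub_mul, one_mul, Matrix.sub_apply, φ, φ, h.coc _ V.mem.1 a ha b hb, mul_assoc]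
  rw [e1, show 3 * e + 2 * k - m = k + (3 * e + k - m) by ring, exp_add]
  refine sum_le hk (exp_pos _).le fun f => ?_
  by_cases z : Y.X.R a b p f = (1 : Matrix κ κ ℝ) p f
  · rw [Matrix.sub_apply, z, sub_self, zero_mul, abs_zero]; exact (exp_pos _).le
  have nf := (h.gmR ok ha hb p f z).2
  have t := h.rr i' hi a ha b hb c' p f
  rw [vt_eq ok np, sub_zero, abs_mul, abs_of_pos (exp_pos _), ← le_div_iff₀' (exp_pos _),
    ← exp_sub] at t
  rw [Matrix.sub_apply, one_apply_ne fun n : p = f => np (n ▸ nf), sub_zero, abs_mul]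
  refine (mul_le_mul t (a3 f q) (abs_nonneg _) (exp_pos _).le).trans ?_
  rw [← exp_add]
  exact exp_le_exp.2 (by linarith [hm f nf])

end Wd

end Pool.Agent.MP_5168f5_an.QA.SC
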