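import Pool.Agent.MP_4b405e_nt.SK.GTow1

/-! Sparse heights, block C: frames, constants and towers under the hypotheses of the rows. -/

namespace Pool.Agent.MP_5168f5_an.QA.SC

open Real Finset Matrix
open AN
open H17S (lg)
open GA (Mt IsFr br mB mC sB sC cell Idl)
open GA.CR (Tow)

variable {ι κ : Type} [Fintype ι] [DecidableEq ι] [Fintype κ] [DecidableEq κ] {σ : Kk ι κ}
  {Y : Wd ι κ} {p : Pm} {K e w r δ V : ℝ} {i : ℕ} {ω : Y.Ω}

/-- `V` bounds the constants. -/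
structure Kk.Ub (σ : Kk ι κ) (V : ℝ) : Prop where
  one : 1 ≤ V
  card : (Fintype.card κ : ℝ) ≤ V
  mu : ∀ a, σ.mu a ≤ V
  vt : ∀ a, σ.vt a ≤ V
  wt : ∀ a, σ.wt a ≤ V
  iw : ∀ a, 1 ≤ V * σ.wt a

omit [DecidableEq κ] in
theorem Kk.Ub.mono (h : σ.Ub V) (o : σ.Ok) {V' : ℝ} (k : V ≤ V') : σ.Ub V' :=
  ⟨h.one.trans k, h.card.trans k, fun a => (h.mu a).trans k, fun a => (h.vt a).trans k,
    fun a => (h.wt a).trans k,
    fun a => (h.iw a).trans (mul_le_mul_of_nonneg_right k (o.w0 a).le)⟩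

omit [DecidableEq κ] in
theorem Kk.Ok.ub (o : σ.Ok) : ∃ V, σ.Ub V := by
  have k : ∀ (f : κ → ℝ), (∀ a, 0 ≤ f a) → (∀ a, f a ≤ ∑ b, f b) ∧ 0 ≤ ∑ b, f b := fun f h =>
    ⟨fun a => single_le_sum (fun b _ => h b) (mem_univ a), sum_nonneg fun b _ => h b⟩
  have a1 := k _ o.m0
  have a2 := k _ o.v0
  have a3 := k _ fun a => (o.w0 a).le
  have a4 := k _ fun a => (inv_pos.2 (o.w0 a)).le
  have a5 : (0 : ℝ) ≤ Fintype.card κ := Nat.cast_nonneg _
  refine ⟨1 + Fintype.card κ + ∑ b, σ.mu b + ∑ b, σ.vt b + ∑ b, σ.wt b + ∑ b, (σ.wt b)⁻¹,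
    by linarith [a1.2, a2.2, a3.2, a4.2], by linarith [a1.2, a2.2, a3.2, a4.2],
    fun a => by linarith [a1.1 a, a2.2, a3.2, a4.2], fun a => by linarith [a1.2, a2.1 a, a3.2, a4.2],
    fun a => by linarith [a1.2, a2.2, a3.1 a, a4.2], fun a => ?_⟩
  rw [← div_le_iff₀ (o.w0 a), one_div]
  linarith [a1.2, a2.2, a3.2, a4.1 a]

omit [Fintype κ] [DecidableEq κ] in
theorem Kk.rad_zero (l : ℝ) : σ.rad l 0 0 0 = fun a => exp (-(σ.mu a * l)) := by
  funext b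
  unfold Kk.rad
  split_ifs with h <;> simp [*]

theorem rh_lev {κ : Type} (μ : κ → ℝ) (l l₁ : ℝ) :
    (rh μ l fun a => μ a * l₁) = fun a => exp (-(μ a * (l + l₁))) := by
  funext b
  unfold rh
  split_ifs with h
  · simp [h]
  · rw [mul_add]

namespace Wd

open Classical in
/-- The resolution of the context, refined by `n` digits. -/
noncomputable def sd (σ : Kk ι κ) (p : Pm) (x : Par) (n : ℕ) (b : κ) : ℝ :=
  if σ.Nn b then ss σ p x b / 2 ^ n else ss σ p x b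

omit [Fintype κ] [DecidableEq κ] in
theorem sd_zero (x : Par) : sd σ p x 0 = ss σ p x := by
  funext b; simp [sd]

omit [Fintype κ] [DecidableEq κ] in
theorem sd_in (x : Par) (n : ℕ) {b : κ} (h : σ.Nn b) : sd σ p x n b = ss σ p x b / 2 ^ n := if_pos h

omit [Fintype κ] [DecidableEq κ] in
theorem sd_out (x : Par) (n : ℕ) {b : κ} (h : ¬σ.Nn b) : sd σ p x n b = ss σ p x b := if_neg h

omit [Fintype κ] [DecidableEq κ] in
theorem r0_eq (t : ℕ) : r0 σ p t = rh σ.mu (l0 σ p t) (dh σ.Nn p.xA fun a => σ.wt a * p.d0) := by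
  simp only [r0, Kk.rad_eq, add_zero]

omit [Fintype κ] [DecidableEq κ] in
theorem sd_eq (o : σ.Ok) (x : Par) (n : ℕ) : sd σ p x n = rh σ.mu (l0 σ p x.2.1)
    (dh σ.Nn p.xA fun a => σ.wt a * p.d0 + lg * (nn σ x a + n)) := by
  funext b
  by_cases h : σ.Nn b
  · have z := (o.nlive h).ne'
    have k : ∀ m : ℕ, (2 : ℝ) ^ m = exp (lg * m) := fun m => by
      rw [lg, mul_comm, exp_nat_mul, exp_log two_pos]
    rw [sd_in x n h, ss, if_pos h, r0_eq, rh_live z, rh_live z, dh_in h, dh_in h, k, k, ← exp_sub,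
      ← exp_sub]
    congr 1; ring
  · rw [sd_out x n h, ss, if_neg h, r0_eq]
    unfold rh
    rw [dh_out h, dh_out h]

omit [Fintype κ] [DecidableEq κ] in
theorem nn_bd (o : σ.Ok) (x : Par) (b : κ) :
    σ.mu b * x.2.2.1 + σ.wt b * x.2.2.2 - 1 ≤ lg * nn σ x b ∧
      lg * nn σ x b ≤ σ.mu b * x.2.2.1 + σ.wt b * x.2.2.2 := by
  have l0 : 0 < lg := log_pos one_lt_two
  have l1 : lg ≤ 1 := log_two_lt_d9.le.trans (by norm_num)
  have a : 0 ≤ σ.mu b * x.2.2.1 + σ.wt b * x.2.2.2 :=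
    add_nonneg (mul_nonneg (o.m0 b) (Nat.cast_nonneg _)) (mul_nonneg (o.w0 b).le (Nat.cast_nonneg _))
  have a1 := Nat.floor_le (div_nonneg a l0.le)
  have a2 := (Nat.lt_floor_add_one ((σ.mu b * x.2.2.1 + σ.wt b * x.2.2.2) / lg)).le
  rw [le_div_iff₀ l0] at a1
  rw [div_le_iff₀ l0] at a2
  unfold nn
  constructor <;> linarith

/-- The chain of the parameters in linear form. -/
structure Chn (Y : Wd ι κ) (p : Pm) (K e r : ℝ) : Prop where
  e1 : K ≤ e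
  eu : K * e ≤ p.u
  uL : K * p.u ≤ p.L
  Ld : K * p.L ≤ p.d0
  dx : K * p.d0 ≤ p.xA
  xn : K * p.xA ≤ p.nb
  nk : K * p.nb ≤ p.kD * Y.ms
  kr : K * (p.kD * Y.ms) ≤ r

omit [Fintype κ] [DecidableEq κ] in
theorem Num.chn (n : Y.Num σ p K e w r δ) (k : 1 ≤ K) : Y.Chn p K e r := by
  have d0 := n.d0
  have d1 := n.d1
  have u0 : (0 : ℝ) ≤ p.u := Nat.cast_nonneg _
  have L0 : (0 : ℝ) ≤ p.L := Nat.cast_nonneg _
  have d2 : δ ≤ 1 := by nlinarith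
  refine ⟨n.e1, ?_, ?_, n.Ld, n.dx, n.xn, n.nk, n.kr⟩
  · have := mul_le_mul_of_nonneg_left n.eu (zero_le_one.trans k)
    have a : K * δ * δ ≤ 1 := by nlinarith
    nlinarith [mul_le_mul_of_nonneg_right a u0]
  · nlinarith [mul_le_mul_of_nonneg_left n.uL (zero_le_one.trans k), mul_le_mul_of_nonneg_right d1 L0]

omit [Fintype ι] [DecidableEq ι] [Fintype κ] [DecidableEq κ] in
theorem Chn.mono (c : Y.Chn p K e r) (m : 0 ≤ Y.ms) {K' : ℝ} (k0 : 0 ≤ K') (k : K' ≤ K) :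
    Y.Chn p K' e r :=
  have a : ∀ {x y : ℝ}, 0 ≤ x → K * x ≤ y → K' * x ≤ y := fun h h' =>
    (mul_le_mul_of_nonneg_right k h).trans h'
  ⟨k.trans c.e1, a (k0.trans (k.trans c.e1)) c.eu, a (Nat.cast_nonneg _) c.uL,
    a (Nat.cast_nonneg _) c.Ld, a (Nat.cast_nonneg _) c.dx, a (Nat.cast_nonneg _) c.xn,
    a (Nat.cast_nonneg _) c.nk, a (mul_nonneg (Nat.cast_nonneg _) m) c.kr⟩

namespace Hyp

variable (H : Y.Hyp σ p K e w r δ)
include H

/-- The chain with any smaller ratio. -/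
theorem chn (k : 1 ≤ K) {K' : ℝ} (k0 : 0 ≤ K') (k' : K' ≤ K) : Y.Chn p K' e r :=
  (H.num.chn k).mono H.ok.ms.1.le k0 k'

theorem iT (hi : i < Y.nD) : i ≤ Y.nT := by have := H.num.nT; omega

theorem lW (k : 0 ≤ K) {t : ℕ} (ht : t ≤ p.N) : (l0 σ p t : ℝ) ≤ Y.W := by
  have a := H.num.up
  have b : (Y.W1 : ℝ) ≤ Y.W := Nat.cast_le.2 H.ok.w1
  have c : (l0 σ p t : ℝ) ≤ p.N * u1 σ p := by exact_mod_cast Nat.mul_le_mul_right _ ht
  linarith [mul_nonneg k (Y.D_nonneg Y.nT)]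

theorem rw' (U : σ.Ub V) (k : V ≤ K) (hi : i ≤ Y.nT) : r + V * Y.D i ≤ w :=
  le_trans (add_le_add_right (mul_le_mul k (Y.D_mono hi) (Y.D_nonneg i)
    ((zero_le_one.trans U.one).trans k)) r) H.num.rw

/-- The basis of a class is a frame. -/
theorem frk (hi : i < Y.nD) (hω : ω ∈ Y.P.S) (hE : Y.E i ω) :
    IsFr σ.Φ (Y.Bk σ i (Y.cp i ω)) (Y.ck σ i (Y.cp i ω)) := (H.st.val i hi ω hω hE).fr H.ok

variable (o : σ.Ok) (U : σ.Ub V) (hK : 10 * V ^ 2 ≤ K)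
include o U hK

omit o in
theorem ch10 : V ≤ K ∧ Y.Chn p 10 e r ∧ Y.Chn p (10 * V ^ 2) e r := by
  have := U.one
  exact ⟨by nlinarith, H.chn (by nlinarith) (by norm_num) (by nlinarith),
    H.chn (by nlinarith) (by positivity) hK⟩

/-- The constants in the basis of a class. -/
theorem cak (hi : i < Y.nD) (hω : ω ∈ Y.P.S) (hE : Y.E i ω) :
    Ca σ.mu σ.wt σ.Nn (Y.ck σ i (Y.cp i ω)) Y.W (7 * e) (r - 6 * e) := by
  obtain ⟨k, c, -⟩ := H.ch10 U hK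
  have := U.card
  have := H.num.e1
  exact ((H.st.val i hi ω hω hE).ca H.ok o (by linarith [c.e1])
    (by linarith [c.e1, c.eu, c.uL, c.Ld, c.dx, c.xn, c.nk, c.kr]) U.vt
    (H.rw' U k (H.iT hi))).mono (by linarith) (by linarith)

/-- The constants of a sample in the units of a cap. -/
theorem cap (hi : i ≤ Y.nT) (hω : ω ∈ Y.P.S) :
    Ca σ.mu (fun _ => 0) σ.Nn (sC (fun a => exp (-(σ.vt a * Y.D i))) (Y.X.c ω)) Y.W e r := by
  obtain ⟨k, c, -⟩ := H.ch10 U hK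
  exact H.ok.ca o hω (by linarith [c.e1]) (Y.D_nonneg i) U.vt
    (by linarith [c.e1, c.eu, c.uL, c.Ld, c.dx, c.xn, c.nk, c.kr]) (H.rw' U k hi)

/-- The tower: relative, chart, context refined by `n` digits. -/
theorem towk {x : Par} {n : ℕ} (hi : i < Y.nD) (hω : ω ∈ Y.P.S) (hE : Y.E i ω) (ht : x.2.1 ≤ p.N)
    (hl : x.2.2.1 ≤ 2 * p.L) (hd : x.2.2.2 ≤ 2 * p.L) (hn : n ≤ 6 * p.L) :
    Tow (Y.ck σ i (Y.cp i ω)) (fun a => exp (-(σ.mu a * lv σ p x))) (r0 σ p x.2.1) (sd σ p x n)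
      (8 * e) := by
  obtain ⟨k, c, c'⟩ := H.ch10 U hK
  have v1 := U.one
  have l0' : 0 < lg := log_pos one_lt_two
  have l1 : lg ≤ 1 := log_two_lt_d9.le.trans (by norm_num)
  have L0 : (0 : ℝ) ≤ p.L := Nat.cast_nonneg _
  have d0 : (0 : ℝ) ≤ p.d0 := Nat.cast_nonneg _
  have hl' : (x.2.2.1 : ℝ) ≤ 2 * p.L := by exact_mod_cast hl
  have hd' : (x.2.2.2 : ℝ) ≤ 2 * p.L := by exact_mod_cast hd
  have hn' : (n : ℝ) ≤ 6 * p.L := by exact_mod_cast hn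
  have b1 : ∀ a, σ.mu a * x.2.2.1 ≤ V * (2 * p.L) := fun a =>
    mul_le_mul (U.mu a) hl' (Nat.cast_nonneg _) (by linarith)
  have b2 : ∀ a, σ.wt a * x.2.2.2 ≤ V * (2 * p.L) := fun a =>
    mul_le_mul (U.wt a) hd' (Nat.cast_nonneg _) (by linarith)
  have b3 : lg * n ≤ V * (6 * p.L) := mul_le_mul (l1.trans v1) hn' (Nat.cast_nonneg _) (by linarith)
  have b4 : ∀ a, 10 * (V * p.L) ≤ σ.wt a * p.d0 := fun a => by
    have a1 := mul_le_mul_of_nonneg_left c'.Ld (o.w0 a).le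
    have a2 := mul_le_mul_of_nonneg_right (U.iw a) (show 0 ≤ 10 * (V * p.L) by positivity)
    linarith
  have b5 : ∀ a, σ.wt a * p.d0 ≤ V * p.d0 := fun a => mul_le_mul_of_nonneg_right (U.wt a) d0
  have b6 : 10 * (V * p.d0) ≤ p.xA := by
    have := mul_le_mul_of_nonneg_right (show 10 * V ≤ 10 * V ^ 2 by nlinarith) d0
    linarith [c'.dx]
  have b7 : 0 ≤ V * p.L := by positivity
  have b8 : ∀ f, lg * (nn σ x f + n) ≤ 10 * (V * p.L) := fun f => by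
    linarith [(nn_bd o x f).2, b1 f, b2 f]
  have := (H.cak o U hK hi hω hE).tow (v := e) (l := l0 σ p x.2.1) (l₁ := x.2.2.1) (x := p.xA)
    (d := p.d0) (d₁ := x.2.2.2) (y := lg * n) (η := fun a => lg * (nn σ x a + n)) o.m0
    (by linarith [c.e1]) (by linarith [c.e1]) (Nat.cast_nonneg _) (H.lW (by linarith) ht)
    (Nat.cast_nonneg _) (Nat.cast_nonneg _) (fun b _ => by positivity)
    (fun b _ => ⟨by linarith [(nn_bd o x b).1, c.e1], by linarith [(nn_bd o x b).2]⟩) d0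
    (fun a => by linarith [b1 a, b4 a, b5 a]) (fun a _ => by linarith [b1 a, b4 a])
    (fun a f _ _ => (b8 f).trans (b4 a)) (fun f _ => by linarith [b8 f, b4 f, b5 f])
    (by linarith [c.e1, c.eu, c.uL, c.Ld, c.dx, c.xn, c.nk, c.kr])
  rw [rh_lev, ← r0_eq, ← sd_eq o, show 7 * e + e = 8 * e by ring] at this
  simpa only [lv, Nat.cast_add] using this

/-- The tower: relative, chart, context. -/
theorem tows {x : Par} (hi : i < Y.nD) (hω : ω ∈ Y.P.S) (hE : Y.E i ω) (ht : x.2.1 ≤ p.N)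
    (hl : x.2.2.1 ≤ 2 * p.L) (hd : x.2.2.2 ≤ 2 * p.L) :
    Tow (Y.ck σ i (Y.cp i ω)) (fun a => exp (-(σ.mu a * lv σ p x))) (r0 σ p x.2.1) (ss σ p x)
      (8 * e) := sd_zero (σ := σ) (p := p) x ▸ H.towk o U hK hi hω hE ht hl hd (Nat.zero_le _)

/-- The plain boxes, for the frame of any sample in the units of a cap. -/
theorem idp (hi : i ≤ Y.nT) (hω : ω ∈ Y.P.S) {t : ℕ} (ht : t ≤ p.N) :
    Idl (sC (fun a => exp (-(σ.vt a * Y.D i))) (Y.X.c ω)) (σ.rad (l0 σ p t) p.xA 0 0)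
      (σ.rad (l0 σ p t) p.xA 0 0) (exp e) := by
  obtain ⟨k, c, -⟩ := H.ch10 U hK
  have := (H.cap o U hK hi hω).plain (x := p.xA) o.m0 (by linarith [c.e1]) (Nat.cast_nonneg _)
    (H.lW (by linarith [U.one]) ht) le_rfl (Nat.cast_nonneg _) le_rfl (Nat.cast_nonneg _)
    (by linarith [c.e1, c.eu, c.uL, c.Ld, c.dx, c.xn, c.nk, c.kr])
  simpa only [Kk.rad_eq, mul_zero, add_zero] using this

end Hyp

end Wd

end Pool.Agent.MP_5168f5_an.QA.SC
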