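import Pool.Agent.MP_4b405e_nt.SK.SpC
import Pool.Agent.MP_4b405e_nt.SK.GNr0
import Pool.Agent.MP_4b405e_nt.SK.GTow2

/-! Sparse heights, block C: the deeper cap determines the source. -/

namespace Pool.Agent.MP_5168f5_an.QA.SC.T76

open H19 H17S H17F R4 AN Filter Matrix Real Finset

theorem fl_near {x y : ℝ} (n : ℕ) (h : |x - y| ≤ (2 ^ n)⁻¹) :
    fl1 n x ∈ Icc (fl1 n y - 1) (fl1 n y + 1) := by
  have p : (0 : ℝ) < 2 ^ n := by positivity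
  have a : |2 ^ n * x - 2 ^ n * y| ≤ 1 := by
    rw [← mul_sub, abs_mul, abs_of_pos p, ← le_div_iff₀' p, one_div]; exact h
  rw [abs_le] at a
  unfold fl1
  rw [mem_Icc, ← Int.floor_sub_one, ← Int.floor_add_one]
  exact ⟨Int.floor_le_floor (by linarith), Int.floor_le_floor (by linarith)⟩

theorem one_le_ff {ι κ : Type} [Fintype ι] [DecidableEq ι] {σ : Kk ι κ} (h : σ.Ok) (x : Par)
    (b : κ) : 1 ≤ Wd.ff σ x b := by
  have y0 : 0 ≤ (σ.mu b * x.2.2.1 + σ.wt b * x.2.2.2) / lg :=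
    div_nonneg (add_nonneg (mul_nonneg (h.m0 b) (Nat.cast_nonneg _))
      (mul_nonneg (h.w0 b).le (Nat.cast_nonneg _))) lg_pos.le
  have a := (le_div_iff₀ lg_pos).1 (Nat.floor_le y0)
  unfold Wd.ff
  rw [one_le_div (by positivity), show (2 : ℝ) = exp lg by rw [H17S.lg, exp_log two_pos],
    ← exp_nat_mul]
  exact exp_le_exp.2 a

/-- The deeper cap and the label determine the cap of the block and the source. -/
theorem th : On fun _ _ _ _ _ _ σ _ Y p K e _ => ∀ x : Par, x.1 < Y.nD → x.2.2.2 < p.L →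
    Dt Y.P (Y.E x.1) (fun ω => (Y.Cp (Y.i1 p x) ω, fun a q => Y.ρ σ p x ω a q none))
      (fun ω => (Y.Cp (x.1 + p.kD) ω, Y.si x.1 ω)) (K * e) := by
  classical
  intro ι κ _ _ _ _ σ o
  obtain ⟨V, U⟩ := o.ub
  obtain ⟨γ, g0, hγ⟩ := As.ex_gap σ.vt
  obtain ⟨c, hc⟩ : ∃ c : ℝ, c = Fintype.card (σ.Al × κ) := ⟨_, rfl⟩
  have c0 : 0 ≤ c := hc ▸ Nat.cast_nonneg _
  have V1 := U.one
  have g1 : 0 ≤ γ⁻¹ * (4 * V + 10) := by positivity
  refine ⟨γ⁻¹ * (4 * V + 10) + 2 * c + 2, by linarith, fun Y p e w r δ H x hi hd y => ?_⟩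
  have N := H.chn (K' := 2) (by linarith) (by norm_num) (by linarith)
  have N' := H.chn (K' := γ⁻¹ * (4 * V + 10)) (by linarith) g1 (by linarith)
  have e1 := N.e1
  have ms := H.ok.ms.1
  have nT := H.num.nT
  have hd' : (Wd.dp p x : ℝ) ≤ p.d0 + p.L := by
    exact_mod_cast Nat.add_le_add_left hd.le p.d0
  have i1 : Y.i1 p x ≤ x.1 + p.kD := Nat.add_le_add_left (Nat.ceil_le.2 (by
    rw [div_le_iff₀ ms]
    linarith [N.eu, N.uL, N.Ld, N.dx, N.xn, N.nk])) _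
  by_cases ex : ∃ ω₀ ∈ Y.P.S, Y.E x.1 ω₀ ∧ (Y.Cp (x.1 + p.kD) ω₀, Y.si x.1 ω₀) = y
  swap
  · exact ⟨∅, by simpa using (exp_pos _).le, fun ω hω hE z => (ex ⟨ω, hω, hE, z⟩).elim⟩
  obtain ⟨ω₀, h₀, E₀, rfl⟩ := ex
  refine ⟨(Fintype.piFinset fun z : σ.Al × κ => Icc (fl1 (5 * p.u) (Y.θ0 σ x.1 (Y.i1 p x)
    (Wd.dp p x) ω₀ z.1.1 z.2 / Wd.ff σ x z.2) - 1) (fl1 (5 * p.u) (Y.θ0 σ x.1 (Y.i1 p x)
    (Wd.dp p x) ω₀ z.1.1 z.2 / Wd.ff σ x z.2) + 1)).image fun n => (Y.Cp (Y.i1 p x) ω₀,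
      fun a q => q.elim 0 fun b => if σ.mu b.1 = σ.mu a.1 then
        -((2 ^ (5 * p.u) : ℝ)⁻¹ * n (a, b.1)) else 0), ?_, fun ω hω hE z => ?_⟩
  · refine (Nat.cast_le.2 card_image_le).trans ?_
    rw [Fintype.card_piFinset]
    simp only [Int.card_Icc, show ∀ k : ℤ, k + 1 + 1 - (k - 1) = 3 from fun k => by ring,
      prod_const, card_univ]
    push_cast
    refine (pow_le_pow_left₀ (by norm_num) (show ((3 : ℤ).toNat : ℝ) ≤ exp 2 by
      have := add_one_le_exp 2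
      show ((3 : ℕ) : ℝ) ≤ _
      push_cast; linarith) _).trans ?_
    rw [← exp_nat_mul, ← hc]
    exact exp_le_exp.2 (by nlinarith)
  have z1 := congrArg Prod.fst z
  have z2 := congrArg Prod.snd z
  dsimp only at z1 z2
  have c1 := H.ok.nest x.1 (x.1 + p.kD) (Nat.le_add_right _ _) (by omega) ω hω ω₀ h₀ z1
  have c2 := H.ok.nest _ (x.1 + p.kD) i1 (by omega) ω hω ω₀ h₀ z1
  have c3 : Y.cp x.1 ω = Y.cp x.1 ω₀ := Prod.ext c1 z2
  have c4 : Y.v1 x.1 (Y.i1 p x) ω = Y.v1 x.1 (Y.i1 p x) ω₀ := N2.rep_congr (Prod.ext c3 c2)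
  refine mem_image.2 ⟨fun z => fl1 (5 * p.u) (Y.θ0 σ x.1 (Y.i1 p x) (Wd.dp p x) ω z.1.1 z.2 /
    Wd.ff σ x z.2), Fintype.mem_piFinset.2 fun z => fl_near _ ?_, Prod.ext c2.symm rfl⟩
  have f1 := one_le_ff o x z.2
  have a1 := H.ok.phi_sub o le_rfl (H.st.val _ hi ω₀ h₀ E₀) h₀ hω (Nat.le_add_right _ p.kD)
    (by omega) rfl z1.symm (m := γ * (p.kD * Y.ms)) (fun f n => by
      rw [show Y.D (x.1 + p.kD) - Y.D x.1 = p.kD * Y.ms by simp only [Wd.D]; push_cast; ring]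
      exact mul_le_mul_of_nonneg_right (hγ f (sub_pos.2 n)) (by positivity))
    (p := z.1.1) (fun n => n.ne' z.1.2.2) z.2
  rw [← sub_div, abs_div, abs_of_pos (zero_lt_one.trans_le f1)]
  refine (div_le_self (abs_nonneg _) f1).trans ?_
  unfold Wd.θ0
  rw [c3, c4, ← mul_sub, sub_sub_sub_cancel_right, abs_mul, abs_exp]
  refine (mul_le_mul_of_nonneg_left a1 (exp_pos _).le).trans ?_
  rw [← exp_add, show (2 : ℝ) ^ (5 * p.u) = exp ((5 * p.u : ℕ) * lg) by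
    rw [exp_nat_mul, H17S.lg, exp_log two_pos], ← Real.exp_neg]
  refine exp_le_exp.2 ?_
  have b1 := N'.nk
  rw [mul_assoc, inv_mul_le_iff₀ g0] at b1
  have l1 : lg ≤ 1 := by have := log_le_sub_one_of_pos two_pos; unfold H17S.lg; linarith
  have u0 : (0 : ℝ) ≤ p.u := Nat.cast_nonneg _
  have n1 : (Wd.dp p x : ℝ) ≤ p.nb := by linarith [N.eu, N.uL, N.Ld, N.dx, N.xn]
  have n2 : (p.u : ℝ) ≤ p.nb := by linarith [N.eu, N.uL, N.Ld, N.dx, N.xn]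
  have b2 := mul_le_mul (U.wt z.2) n1 (Nat.cast_nonneg _) (zero_le_one.trans V1)
  have b3 := mul_le_mul_of_nonneg_left l1 u0
  have b4 := mul_le_mul_of_nonneg_left (show (1 : ℝ) ≤ p.nb by linarith [N.eu])
    (zero_le_one.trans V1)
  push_cast
  nlinarith [U.card, N.eu]

end Pool.Agent.MP_5168f5_an.QA.SC.T76
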