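import Pool.Agent.MP_4b405e_nt.SK.CRd2
import Pool.Agent.MP_4b405e_nt.SK.CRd2t76

/-! Sparse heights, block C: the lists of the deeper cell. -/

namespace Pool.Agent.MP_5168f5_an.QA.SC.T76

theorem rowD2 : RowD2 := D27.rowD2_of fun ι κ _ _ _ _ σ o =>
  (th ι κ σ o).imp fun _ h => ⟨h.1, fun Y p e w r δ H x a _ _ d => h.2 Y p e w r δ H x a d⟩

end Pool.Agent.MP_5168f5_an.QA.SC.T76
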