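import Pool.Agent.MP_4b405e_nt.SK.CLw
import Pool.Agent.MP_4b405e_nt.SK.Free2

/-! Sparse heights, block C: the coefficients of the relative are free. -/

namespace Pool.Agent.MP_5168f5_an.QA.SC.F59

open H19 H17S H17F R4 AN Real Finset

/-- Short lists on the base space bound a conditional entropy upstairs. -/
theorem ch_dt {Ω' Ω X α β α' β' : Type} {Q : FP Ω'} {P : FP Ω} (x : Ω' → X) (pt : Ω' → Ω)
    {E : X → Ω → Prop} {F : X → Ω → α} {G : X → Ω → β} {F' : Ω' → α'} {G' : Ω' → β'} {v : ℝ}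
    (h : ∀ z ∈ Q.S, pt z ∈ P.S ∧ E (x z) (pt z) ∧ Dt P (E (x z)) (F (x z)) (G (x z)) v)
    (hx : ∀ a ∈ Q.S, ∀ b ∈ Q.S, G' a = G' b → x a = x b ∧ G (x a) (pt a) = G (x b) (pt b))
    (hF : ∀ a ∈ Q.S, ∀ b ∈ Q.S, G' a = G' b → F (x a) (pt a) = F (x b) (pt b) → F' a = F' b) :
    ch Q F' G' ≤ v := by
  refine (ch_mono (F' := fun z => F (x z) (pt z)) fun a ha b hb e =>
    hF a ha b hb (congrArg Prod.snd e) (congrArg Prod.fst e)).trans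
      ((ch_det (B := exp v) fun a ha => ?_).trans_eq (log_exp v))
  obtain ⟨S, s1, s2⟩ := (h a ha).2.2 (G (x a) (pt a))
  refine ⟨S, s1, fun b hb e => ?_⟩
  obtain ⟨e1, e2⟩ := hx b hb a ha e
  have k := h b hb
  rw [e1] at k e2 ⊢
  exact s2 _ k.1 k.2.1 e2

variable {ι κ : Type} [Fintype ι] [DecidableEq ι] [Fintype κ] [DecidableEq κ] {σ : Kk ι κ}
  {Y : Wd ι κ} {p : Pm} {K K' e w r δ : ℝ}

theorem mono (H : Y.Hyp σ p K e w r δ) (k : K' ≤ K) : Y.Hyp σ p K' e w r δ := by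
  have n := H.num
  have m := H.ok.ms.1.le
  have u : ∀ {a b : ℝ}, 0 ≤ a → K * a ≤ b → K' * a ≤ b := fun a h =>
    (mul_le_mul_of_nonneg_right k a).trans h
  have d : K' * Y.D Y.nT ≤ K * Y.D Y.nT :=
    mul_le_mul_of_nonneg_right k (mul_nonneg (Nat.cast_nonneg _) m)
  exact ⟨H.ok, H.st, n.d0, u n.d0.le n.d1, k.trans n.e1, n.eu, n.kk, n.lu, n.uL,
    u (Nat.cast_nonneg _) n.Ld, u (Nat.cast_nonneg _) n.dx, u (Nat.cast_nonneg _) n.xn,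
    u (Nat.cast_nonneg _) n.nk, u (mul_nonneg (Nat.cast_nonneg _) m) n.kr, by linarith [n.rw],
    n.tel, n.nT, by linarith [n.up], n.lo⟩

theorem i1_le (H : Y.Hyp σ p K e w r δ) (K2 : 2 ≤ K) {x : Par} (h1 : x.1 < Y.nD)
    (h2 : x.2.2.2 < p.L) : Y.i1 p x ≤ Y.nT := by
  have c := H.ch (by linarith)
  have a : ⌈(Wd.dp p x : ℝ) / Y.ms⌉₊ ≤ p.kD := Nat.ceil_le.2 ((div_le_iff₀ H.ok.ms.1).2 (by
    have b : (x.2.2.2 : ℝ) ≤ p.L := Nat.cast_le.2 h2.le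
    have b' := mul_le_mul_of_nonneg_right K2 (Nat.cast_nonneg (α := ℝ) p.d0)
    rw [Wd.dp]
    push_cast
    linarith [H.num.dx, c.Ld, c.xn, c.nk]))
  have := H.num.nT
  rw [Wd.i1]
  omega

/-- The action is read from the line. -/
theorem rho_eq (H : Y.Hyp σ p K e w r δ) {x : Par} (h1 : x.1 ≤ Y.nT) (h2 : Y.i1 p x ≤ Y.nT)
    {a b : Y.Ω} (ha : a ∈ Y.P.S) (hb : b ∈ Y.P.S) (hE : Y.E x.1 a) (hi : x.1 < Y.nD)
    (l : Y.lam a = Y.lam b) : Y.ρ σ p x a = Y.ρ σ p x b := by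
  have c1 : Y.cp x.1 a = Y.cp x.1 b :=
    Prod.ext (H.ok.fC _ h1 a ha b hb l) (H.st.fs _ a ha b hb l)
  have c2 : Y.v1 x.1 (Y.i1 p x) a = Y.v1 x.1 (Y.i1 p x) b :=
    N2.rep_congr (Prod.ext c1 (H.ok.fC _ h2 a ha b hb l))
  have c3 : Y.φ σ x.1 (Y.cp x.1 a) a = Y.φ σ x.1 (Y.cp x.1 a) b := by
    rw [Wd.φ, Wd.φ, H.ok.fR _ (H.st.val _ hi a ha hE).mem.1 a ha b hb l]
  funext c q q'
  simp only [Wd.ρ, Wd.θ0, Wd.ρ0, c3]
  simp only [c1, c2]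

/-- The number of values of the coefficients. -/
theorem ch_bb (h : σ.Ok) (H : Y.Hyp σ p K e w r δ) (kC : (σ.C : ℝ) ≤ K) {β : Type}
    (G : Par × (ℕ × Y.Ω) × Y.Ω → β) :
    ch (Y.P1 σ p) (fun z => Y.bb σ p z.1 z.2.1.2 z.2.2) G
      ≤ Fintype.card σ.Al * (p.nb * lg + (e + 2)) := by
  classical
  have K1 : 1 ≤ K := le_trans (by exact_mod_cast h.c2.trans' one_le_two) kC
  have c := H.ch K1
  have d := SG.det_dg (P := Y.P1 σ p) (fun _ : σ.Al => True) (fun _ => p.nb)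
    (fun z a => exp (σ.mu a.1 * Wd.lv σ p z.1) * Y.t z.2.1.2 z.2.2 a.1) G (r := e)
    (by linarith [c.e1]) fun z hz a _ => by
      obtain ⟨a1, a2, a3, a4, a5⟩ := Mk.mem_fre (Wd.J0 σ p) hz
      obtain ⟨-, b1, b2, -⟩ := c.mem_Px.1 a1
      have q : Y.Q (Wd.lv σ p z.1) z.2.1.2 = Y.Q (Wd.lv σ p z.1) z.2.2 :=
        Haz.fnO a2.1 _ a3 _ a4 a5.symm
      have t := (H.ok.inc _ ((le_of_add_le_left (H.lvW K1 kC b1.le b2.le)).trans H.ok.w1) _ a3 _ a4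
        q a.1).1
      rw [abs_mul, abs_exp]
      refine (mul_le_mul_of_nonneg_left t (exp_pos _).le).trans_eq ?_
      rw [← exp_add]
      congr 1
      ring
  refine (ch_mono fun a _ b _ k => funext fun q => ?_).trans ((ch_det d).trans_eq ?_)
  · have := congrFun (congrArg Prod.fst k) q
    simp only [SG.cut, SG.dg, if_true] at this
    simp only [Wd.bb, rd, this]
  · rw [log_exp, filter_true, sum_const, card_univ, nsmul_eq_mul]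

/-- The bound for either of the two points. -/
theorem core (h : σ.Ok) (H : Y.Hyp σ p K e w r δ) (kC : (σ.C : ℝ) ≤ K) {v : ℝ}
    (d1 : ∀ i < Y.nD, ∀ t ≤ p.N,
      Dt Y.P (fun _ => True) (Y.Xp σ p i t) (Y.Xp σ p (i + p.kD) t) v ∧
      Dt Y.P (Y.E i) (Y.Xp σ p i t) (fun ω => (Y.cp i ω, Y.Qc σ p i t ω)) v)
    (d2 : ∀ x : Par, x.1 < Y.nD → x.2.1 ≤ p.N → x.2.2.1 < p.L → x.2.2.2 < p.L →
      Dt Y.P (Y.E x.1) (fun ω => (Y.K σ p x ω, Y.Z σ p x ω, Y.Cp (Y.i1 p x) ω,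
        fun a q => Y.ρ σ p x ω a q none))
        (fun ω => (Y.Xp σ p (x.1 + p.kD) x.2.1 ω, Y.si x.1 ω)) v)
    (pt : (ℕ × Y.Ω) × Y.Ω → Y.Ω) (m1 : ∀ z ∈ (Y.P1 σ p).S, pt z.2 ∈ Y.P.S)
    (m2 : ∀ z ∈ (Y.P2 σ p).S, pt z.2 ∈ Y.P.S ∧ Y.E z.1.1 (pt z.2) ∧
      Y.lam z.2.1.2 = Y.lam (pt z.2)) :
    mi (Y.P2 σ p) (fun z => (Y.Z σ p z.1 (pt z.2), (Y.bd σ p).θ (σ.bc h) z, (Y.bd σ p).v z))
      (Y.bd σ p).b (fun z => (Y.K σ p z.1 (pt z.2), (Y.bd σ p).j z)) ≤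
      σ.cc⁻¹ * (p.kD * (Fintype.card σ.Al * (p.nb * lg + (e + 2))) / Y.nD + v + lg) + v
        + (e + v) := by
  have K2 : (2 : ℝ) ≤ K := le_trans (by exact_mod_cast h.c2) kC
  have K1 : 1 ≤ K := by linarith
  have c := H.ch K1
  have nD : max Y.nD 1 = Y.nD := max_eq_left c.n0
  have nT := H.num.nT
  have mm := fun z hz => H.mem h kC (z := z) hz
  have k := Free.coef (n := max Y.nD 1) (by simp)
    (prod (Wd.un p.N) (prod (Wd.un p.L) (Wd.un p.L))) (k := Y.Rl σ p) (fun _ _ _ => rfl)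
    (H.dn_P1 h K1) (fun y => Y.bb σ p (0, y.1) y.2.1.2 y.2.2)
    (fun s y => (Y.Xp σ p s y.1.1 (pt y.2), y.1, y.2.1.1 - (Y.c₀ + Wd.lv σ p (0, y.1))))
    (m := p.kD) (v := v) (fun s => ch_bb h H kC _)
    (fun s hs => ch_dt (Q := Y.P1 σ p) (P := Y.P) (fun z => z.1.2.1) (fun z => pt z.2)
      (E := fun _ _ => True) (F := Y.Xp σ p s) (G := Y.Xp σ p (s + p.kD))
      (fun z hz => ⟨m1 z hz, trivial, (d1 s (nD ▸ hs) _
        (c.mem_Px.1 (Mk.mem_fre (Wd.J0 σ p) hz).1).2.1.le).1⟩)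
      (fun a _ b _ q => ⟨congrArg (·.2.1.1) q, congrArg (·.1) q⟩)
      fun a _ b _ q q' => Prod.ext q' (congrArg (·.2) q :))
    (fun z => (Y.Z σ p z.1 (pt z.2), (Y.bd σ p).θ (σ.bc h) z, (Y.bd σ p).v z))
    fun z => (Y.K σ p z.1 (pt z.2), (Y.bd σ p).j z)
  rw [nD] at k
  refine k.trans (add_le_add (add_le_add le_rfl ?_) ((ch_tri _
    (fun z => Y.si z.1.1 (pt z.2)) _).trans (add_le_add ?_ ?_)))
  · refine ch_dt (P := Y.P) (fun z => z.1) (fun z => pt z.2) (E := fun x => Y.E x.1)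
      (F := fun x => Y.Xp σ p x.1 x.2.1)
      (G := fun x ω => (Y.cp x.1 ω, Y.Qc σ p x.1 x.2.1 ω))
      (fun z hz => ⟨(m2 z hz).1, (m2 z hz).2.1, (d1 _ (mm z hz).1.1 _ (mm z hz).1.2.1.le).2⟩)
      (fun a _ b _ q => ?_) fun a _ b _ q q' => ?_
    · have y : Y.K σ p a.1 (pt a.2) = Y.K σ p b.1 (pt b.2) := (Prod.mk.inj q).1
      obtain ⟨y1, y2⟩ := Prod.mk.inj y
      obtain ⟨y3, y4⟩ := Prod.mk.inj y2
      exact ⟨y1, congrArg₂ Prod.mk y3 (Prod.mk.inj y4).1⟩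
    · obtain ⟨y, y'⟩ := Prod.mk.inj q
      have x : a.1 = b.1 := (Prod.mk.inj y).1
      exact congrArg₂ Prod.mk (congrArg₂ Prod.mk q' (congrArg₂ Prod.mk (congrArg Prod.snd x) y'))
        (congrArg Prod.fst x)
  · refine ch_dt (P := Y.P) (fun z => z.1.1) (fun z => pt z.2) (E := Y.E) (F := Y.si)
      (G := Y.Cp) (fun z hz => ⟨(m2 z hz).1, (m2 z hz).2.1, H.st.few _ (mm z hz).1.1⟩)
      (fun a ha b hb q => ?_) fun a _ b _ _ q' => q'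
    have x : a.1.1 = b.1.1 := (Prod.mk.inj q).2
    have y : Y.Cp (a.1.1 + p.kD) (pt a.2) = Y.Cp (b.1.1 + p.kD) (pt b.2) :=
      (Prod.mk.inj (Prod.mk.inj (Prod.mk.inj q).1).1).1
    have := (mm a ha).1.1
    rw [← x] at y ⊢
    exact ⟨rfl, H.ok.nest _ _ (Nat.le_add_right _ p.kD) (by omega) _ (m2 a ha).1 _ (m2 b hb).1 y⟩
  · have ρ : ∀ z ∈ (Y.P2 σ p).S, Y.ρ σ p z.1 z.2.1.2 = Y.ρ σ p z.1 (pt z.2) ∧
        Y.Cp (Y.i1 p z.1) z.2.1.2 = Y.Cp (Y.i1 p z.1) (pt z.2) := fun z hz => by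
      obtain ⟨⟨b1, -, -, b2⟩, -, b3, -, b4, -⟩ := mm z hz
      have i := i1_le H K2 b1 b2
      exact ⟨rho_eq H (by omega) i b3 (m2 z hz).1 b4 b1 (m2 z hz).2.2,
        H.ok.fC _ i _ b3 _ (m2 z hz).1 (m2 z hz).2.2⟩
    refine ch_dt (P := Y.P) (fun z => z.1) (fun z => pt z.2) (E := fun x => Y.E x.1)
      (F := fun x ω => (Y.K σ p x ω, Y.Z σ p x ω, Y.Cp (Y.i1 p x) ω,
        fun a q => Y.ρ σ p x ω a q none))
      (G := fun x ω => (Y.Xp σ p (x.1 + p.kD) x.2.1 ω, Y.si x.1 ω))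
      (fun z hz => ⟨(m2 z hz).1, (m2 z hz).2.1, d2 _ (mm z hz).1.1 (mm z hz).1.2.1.le
        (mm z hz).1.2.2.1 (mm z hz).1.2.2.2⟩)
      (fun a _ b _ q => ?_) fun a ha b hb q q' => ?_ <;> obtain ⟨y1, y2⟩ := Prod.mk.inj q <;>
      obtain ⟨y3, y4⟩ := Prod.mk.inj y2 <;> obtain ⟨y5, y6⟩ := Prod.mk.inj y3 <;>
      obtain ⟨y7, y8⟩ := Prod.mk.inj y6
    · exact ⟨Prod.ext y4 y7, congrArg₂ Prod.mk y5 y1⟩
    obtain ⟨s1, s2⟩ := Prod.mk.inj q'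
    obtain ⟨s3, s4⟩ := Prod.mk.inj s2
    obtain ⟨s5, s6⟩ := Prod.mk.inj s4
    refine congrArg₂ Prod.mk (congrArg₂ Prod.mk s3 (congrArg₂ Prod.mk ?_ ?_))
      (congrArg₂ Prod.mk s1 y8)
    · show (fun c q => Y.ρ σ p a.1 a.2.1.2 c q none) = fun c q => Y.ρ σ p b.1 b.2.1.2 c q none
      rw [(ρ a ha).1, (ρ b hb).1]
      exact s6
    · exact (ρ a ha).2.trans (s5.trans (ρ b hb).2.symm)

theorem ofF : OfF := by
  intro r1 r2 ι κ _ _ _ _ σ h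
  obtain ⟨K1, k1, g1⟩ := r1 ι κ σ h
  obtain ⟨K2, k2, g2⟩ := r2 ι κ σ h
  obtain ⟨A, hA⟩ : ∃ A : ℝ, A = Fintype.card σ.Al := ⟨_, rfl⟩
  have A0 : 0 ≤ A := hA ▸ Nat.cast_nonneg _
  have C0 : (0 : ℝ) ≤ σ.C := Nat.cast_nonneg _
  have i0 := (inv_pos.2 h.cc0).le
  have p0 : 0 ≤ σ.cc⁻¹ * (4 * A + (K1 + K2) + 1) := by positivity
  refine ⟨σ.cc⁻¹ * (4 * A + (K1 + K2) + 1) + 2 * (K1 + K2) + 1 + σ.C, by linarith,
    fun Y p e w r δ H => ?_⟩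
  have c := H.ch (by linarith)
  have kC : (σ.C : ℝ) ≤ σ.cc⁻¹ * (4 * A + (K1 + K2) + 1) + 2 * (K1 + K2) + 1 + σ.C := by linarith
  have e0 : 0 ≤ e := by linarith [c.e1]
  have up : ∀ {α β : Type} {E : Y.Ω → Prop} {F : Y.Ω → α} {G : Y.Ω → β} {a : ℝ},
      a ≤ K1 + K2 → Dt Y.P E F G (a * e) → Dt Y.P E F G ((K1 + K2) * e) := fun a d y =>
    (d y).imp fun S s => ⟨s.1.trans (exp_le_exp.2 (mul_le_mul_of_nonneg_right a e0)), s.2⟩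
  have f := core h H kC (v := (K1 + K2) * e) (fun i hi t ht =>
    have := g1 Y p e w r δ (mono H (by linarith)) i hi t ht
    ⟨up (by linarith) this.1, up (by linarith) this.2⟩) fun x a b a' b' =>
      up (by linarith) (g2 Y p e w r δ (mono H (by linarith)) x a b a' b').1
  have eu : e ≤ δ * p.u := (le_mul_of_one_le_left e0 c.K1).trans c.eu
  have n0 : (0 : ℝ) < Y.nD := Nat.cast_pos.2 c.n0
  have nb : e ≤ p.nb := by
    linarith [le_mul_of_one_le_left e0 c.K1, c.Ku, c.uL, c.Ld, c.dx, c.xn,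
      le_mul_of_one_le_left (Nat.cast_nonneg (α := ℝ) p.u) c.K1]
  have t1 : p.kD * (A * (p.nb * lg + (e + 2))) / Y.nD ≤ 4 * A * (δ * p.u) := by
    rw [div_le_iff₀ n0]
    have b1 : p.nb * lg + (e + 2) ≤ 4 * p.nb := by
      linarith [mul_le_of_le_one_right (Nat.cast_nonneg (α := ℝ) p.nb) lg_lt_one.le, c.e1]
    have b2 := mul_le_mul_of_nonneg_left (mul_le_mul_of_nonneg_left b1 A0)
      (Nat.cast_nonneg (α := ℝ) p.kD)
    linarith [mul_le_mul_of_nonneg_left H.num.tel (show 0 ≤ 4 * A by linarith)]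
  have t2 : (K1 + K2) * e ≤ (K1 + K2) * (δ * p.u) := mul_le_mul_of_nonneg_left eu (by linarith)
  have t3 : σ.cc⁻¹ * (p.kD * (Fintype.card σ.Al * (p.nb * lg + (e + 2))) / Y.nD + (K1 + K2) * e
      + lg) + (K1 + K2) * e + (e + (K1 + K2) * e) ≤
      (σ.cc⁻¹ * (4 * A + (K1 + K2) + 1) + 2 * (K1 + K2) + 1 + σ.C) * (δ * p.u) := by
    rw [← hA]
    have b := mul_le_mul_of_nonneg_left (show p.kD * (A * (p.nb * lg + (e + 2))) / Y.nD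
      + (K1 + K2) * e + lg ≤ (4 * A + (K1 + K2) + 1) * (δ * p.u) by
        linarith [lg_lt_one, c.e1]) i0
    linarith [mul_nonneg C0 (e0.trans eu)]
  refine ⟨(f (fun y => y.1.2) (fun z hz => (Mk.mem_fre (Wd.J0 σ p) hz).2.2.1) fun z hz => ?_).trans
    t3, (f (fun y => y.2) (fun z hz => (Mk.mem_fre (Wd.J0 σ p) hz).2.2.2.1) fun z hz => ?_).trans t3⟩
  · obtain ⟨-, -, a, -, b, -⟩ := H.mem h kC hz
    exact ⟨a, b, rfl⟩
  · obtain ⟨-, -, -, a, -, b, l, -⟩ := H.mem h kC hz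
    exact ⟨a, b, l.symm⟩

end Pool.Agent.MP_5168f5_an.QA.SC.F59
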