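import Pool.Agent.MP_4b405e_nt.SK.CTan
import Pool.Agent.MP_4b405e_nt.SK.SpC
import Pool.Agent.MP_4b405e_nt.SK.CMk

/-! The product structure of the blocks of the construction. -/

namespace Pool.Agent.MP_5168f5_an.QA.SC

open H19 H17S H17F R4 AN Real Finset
open Pool.Agent.MP_4b405e_nt.FB (Bc Bd Dig tan_sum)

variable {ι κ : Type} [Fintype ι] [DecidableEq ι] [Fintype κ] [DecidableEq κ]

theorem E_un {n : ℕ} (h : 0 < n) (f : ℕ → ℝ) : (Wd.un n).E f = (∑ i ∈ range n, f i) / n := by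
  rw [Wd.un, FP.E_unif, avg, card_range, max_eq_left h]

theorem mi_ctx {Ω α β γ δ : Type} {P : FP Ω} {F : Ω → α} {G : Ω → β} {K : Ω → γ} {K' : Ω → δ}
    (h : Fn P K K') (h' : Fn P K' K) : mi P F G K = mi P F G K' :=
  le_antisymm (mi_left h' (h.right _) (Fn.fst _ _)) (mi_left h (h'.right _) (Fn.fst _ _))

variable {σ : Kk ι κ}

theorem ss_div (Y : Wd ι κ) (p : Pm) (x : Par) (ω : Y.Ω) {b : κ} (h : σ.Nn b) :
    GA.CR.nu (Y.Bk σ x.1 (Y.cp x.1 ω)) (Wd.r0 σ p x.2.1) (Y.X.j ω) b / Wd.ss σ p x b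
      = 2 ^ Wd.nn σ x b * Y.nu σ p x.1 x.2.1 ω b := by
  rw [Wd.ss, if_pos h, div_div_eq_mul_div, mul_comm, mul_div_assoc]
  rfl

open Classical in
theorem dig_ok (h : σ.Ok) (Y : Wd ι κ) (p : Pm) (i t l d : ℕ) :
    Dig Y.P (fun ω => (Y.cp i ω, Y.Qc σ p i t ω,
        fun b => if σ.Nn b then 0 else ⌊Y.nu σ p i t ω b⌋))
      (fun ω (q : σ.Nu) => q.elim 0 fun b => Y.nu σ p i t ω b.1)
      (fun q => ⌊((σ.bc h).wt q * l + (σ.bc h).w q * d) / lg⌋₊) (Y.K σ p (i, t, l, d))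
      (Y.Z σ p (i, t, l, d)) (fun q => 0 + (σ.bc h).wt q * l + (σ.bc h).w q * d) p.u 1 := by
  have k0 : ∀ ω b, (Y.K σ p (i, t, l, d) ω).2.2.2 b = if σ.Nn b then
      fl1 (Wd.nn σ (i, t, l, d) b) (Y.nu σ p i t ω b) else ⌊Y.nu σ p i t ω b⌋ := fun ω b => by
    split_ifs with e
    · exact congrArg Int.floor (ss_div Y p (i, t, l, d) ω e)
    · simp only [Wd.K, GA.rnd, Wd.ss, if_neg e]
      rfl
  refine ⟨fun q => ?_, fun a _ b _ k => ?_, fun a _ b _ k => ?_, fun q => ?_⟩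
  · have a0 : 0 ≤ ((σ.bc h).wt q * l + (σ.bc h).w q * d) / lg := by
      refine div_nonneg (add_nonneg (mul_nonneg ?_ l.cast_nonneg) (mul_nonneg ?_ d.cast_nonneg))
        lg_pos.le <;> cases q
      exacts [le_rfl, h.m0 _, (h.w0 _).le, (h.w0 _).le]
    have a1 := (le_div_iff₀ lg_pos).1 (Nat.floor_le a0)
    have a2 := (div_lt_iff₀ lg_pos).1
      (Nat.lt_floor_add_one (((σ.bc h).wt q * l + (σ.bc h).w q * d) / lg))
    rw [abs_le]
    constructor <;> linarith [lg_lt_one]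
  · refine Prod.ext rfl (Prod.ext (congrArg (·.1.1) k :) (Prod.ext (congrArg (·.1.2.1) k :)
      (funext fun c => ?_)))
    rw [k0, k0]
    split_ifs with e
    · exact congrFun (congrArg (·.2) k) (some ⟨c, e⟩)
    · simpa only [if_neg e] using congrFun (congrArg (·.1.2.2) k) c
  · refine Prod.ext (Prod.ext (congrArg (·.2.1) k :) (Prod.ext (congrArg (·.2.2.1) k :)
      (funext fun c => ?_))) (funext fun q => ?_)
    · have := congrFun (congrArg (·.2.2.2) k) c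
      simp only [k0] at this
      by_cases e : σ.Nn c
      · simp only [if_pos e]
      · simpa only [if_neg e] using this
    · cases q with
      | none => rfl
      | some c =>
        have := congrFun (congrArg (·.2.2.2) k) c.1
        simp only [k0, if_pos c.2] at this
        exact this
  · refine (ch_zero fun a _ b _ k => ?_).trans_le zero_le_one
    cases q with
    | none => rfl
    | some c =>
      have k1 : fl1 (Wd.nn σ (i, t, l, d) c.1 + p.u) (Y.nu σ p i t a c.1)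
        = fl1 (Wd.nn σ (i, t, l, d) c.1 + p.u) (Y.nu σ p i t b c.1) := congrArg (·.1) k
      have k2 := fl1_eq_of_le (Nat.le_add_right _ _) k1
      have e : ∀ ω, Y.Z σ p (i, t, l, d) ω (some c) = GA.CR.dz p.u
          (2 ^ Wd.nn σ (i, t, l, d) c.1 * Y.nu σ p i t ω c.1) := fun ω =>
        congrArg (GA.CR.dz p.u) (ss_div Y p (i, t, l, d) ω c.2)
      simp only [fl1] at k1 k2
      rw [add_comm, pow_add, mul_assoc, mul_assoc] at k1
      simp only [e, GA.CR.dz, fl1, k1, k2]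

/-- The lower and the higher classes under the product law. -/
theorem tan_prod (h : σ.Ok) : ∃ c : ℝ, 0 ≤ c ∧ ∀ (Y : Wd ι κ) (p : Pm) (r : ℝ), 0 < p.L →
    mi (prod (Y.Px p) Y.P) (fun z => (σ.bc h).low r (Y.Z σ p z.1 z.2))
      (fun z => (σ.bc h).high r (Y.Z σ p z.1 z.2)) (fun z => Y.K σ p z.1 z.2)
        ≤ c * ((p.u + 2) ^ 2 / p.L + 1) := by
  obtain ⟨c, c0, g⟩ := tan_sum (σ.bc h) fun q => by cases q <;> exact h.w0 _
  refine ⟨2 * c, by positivity, fun Y p r hL => ?_⟩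
  have L0 : (0 : ℝ) < p.L := by exact_mod_cast hL
  have e := Free.mi_par (Y.Px p) (fun _ => Y.P) (fun x ω => (σ.bc h).low r (Y.Z σ p x ω))
    (fun x ω => (σ.bc h).high r (Y.Z σ p x ω)) (Y.K σ p)
  refine (mi_ctx (Fn.fst _ _) ((Fn.rfl _).pair fun _ _ _ _ k => congrArg (·.1) k)).trans_le
    (e.trans_le ?_)
  rw [Wd.Px, H17F.prod, E_bind]
  refine (FP.E_mono _ fun i _ => ?_).trans_eq (FP.E_const _ _)
  rw [H17F.prod, E_bind]
  refine (FP.E_mono _ fun t _ => ?_).trans_eq (FP.E_const _ _)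
  rw [H17F.prod, E_bind]
  simp only [E_un hL]
  rw [← sum_div, div_div, div_le_iff₀ (by positivity)]
  refine (g _ _ _ _ _ _ (fun _ => 0) _ (fun l d => Y.K σ p (i, t, l, d))
    (fun l d => Y.Z σ p (i, t, l, d)) p.u p.L p.L 1 r zero_le_one
    fun l _ d _ => dig_ok h Y p i t l d).trans_eq ?_
  field_simp
  ring

/-- The clause `t` for every law that is dominated by the product law. -/
theorem tan_dn (h : σ.Ok) : ∃ c : ℝ, 0 ≤ c ∧ ∀ (Y : Wd ι κ) (p : Pm) (Ω : Type) (Q : FP Ω)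
    (f : Ω → Par × Y.Ω) (C r : ℝ), 0 < p.L → K31.Dn C Q f (prod (Y.Px p) Y.P) →
    mi Q (fun z => (σ.bc h).blk r (Y.Z σ p (f z).1 (f z).2))
      (fun z => (σ.bc h).oth r (Y.Z σ p (f z).1 (f z).2)) (fun z => Y.K σ p (f z).1 (f z).2)
        ≤ C * (c * ((p.u + 2) ^ 2 / p.L + 1)) := by
  obtain ⟨c, c0, g⟩ := tan_prod h
  refine ⟨2 * c + 1, by positivity, fun Y p Ω Q f C r hL d => (d.mi_le
    (fun z => (σ.bc h).blk r (Y.Z σ p z.1 z.2)) (fun z => (σ.bc h).oth r (Y.Z σ p z.1 z.2))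
    fun z => Y.K σ p z.1 z.2).trans (mul_le_mul_of_nonneg_left ?_ (zero_le_one.trans d.one_le))⟩
  have a := Bc.cut_oth (fun r => g Y p r hL) r
  have b : 0 ≤ ((p.u : ℝ) + 2) ^ 2 / p.L := by positivity
  linarith [lg_lt_one]

variable {Y : Wd ι κ} {p : Pm} {K e w r δ : ℝ}

omit [Fintype κ] [DecidableEq κ] in
/-- The first numerical facts. -/
theorem num1 (n : Y.Num σ p K e w r δ) (K1 : 1 ≤ K) : δ ≤ 1 ∧ e ≤ δ * p.u ∧ 1 ≤ δ * p.u ∧
    (1 : ℝ) ≤ p.u ∧ (p.u : ℝ) ≤ p.L ∧ (p.L : ℝ) ≤ p.d0 ∧ (p.d0 : ℝ) ≤ p.xA ∧ (p.xA : ℝ) ≤ p.nb ∧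
    (p.nb : ℝ) ≤ p.kD * Y.ms ∧ 0 < Y.nD := by
  have d0 := n.d0
  have d1 : δ ≤ 1 := (le_mul_of_one_le_left d0.le K1).trans n.d1
  have u0 : (0 : ℝ) ≤ p.u := Nat.cast_nonneg _
  have a : δ ^ 2 * p.u ≤ δ * p.u := mul_le_mul_of_nonneg_right (by nlinarith) u0
  have b : δ * p.u ≤ p.u := mul_le_of_le_one_left u0 d1
  have m : ∀ {x y : ℝ}, 0 ≤ x → K * x ≤ y → x ≤ y := fun h k =>
    (le_mul_of_one_le_left h K1).trans k
  have c1 := n.uL.trans (mul_le_of_le_one_left (Nat.cast_nonneg _) d1)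
  have c2 := m (Nat.cast_nonneg _) n.Ld
  have c3 := m (Nat.cast_nonneg _) n.dx
  have c4 := m (Nat.cast_nonneg _) n.xn
  have c5 := m (Nat.cast_nonneg _) n.nk
  have e1 := n.e1
  have eu := n.eu
  refine ⟨d1, by linarith, by linarith, by linarith, c1, c2, c3, c4, c5,
    Nat.pos_of_ne_zero fun k => ?_⟩
  have t := n.tel
  rw [k, Nat.cast_zero, mul_zero] at t
  have k0 : (p.kD : ℝ) = 0 := le_antisymm
    (le_of_mul_le_mul_right (t.trans_eq (zero_mul _).symm) (by linarith)) (Nat.cast_nonneg _)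
  rw [k0, zero_mul] at c5
  linarith

theorem mass_px (s : Y.St σ e r) (h : 0 < Y.nD) :
    σ.cc ≤ pb (prod (Y.Px p) Y.P) fun v => Y.E v.1.1 v.2 := by
  rw [Mk.Ok.mass (E := fun (x : Par) => Y.E x.1), Wd.Px, H17F.prod, E_bind]
  simp only [FP.E_const]
  rw [E_un h, le_div_iff₀ (by exact_mod_cast h)]
  exact s.mass

omit [Fintype κ] [DecidableEq κ] in
theorem law_p1 (Y : Wd ι κ) (p : Pm) :
    Law (Y.P1 σ p) (fun z => (z.1, z.2.1.2)) (prod (Y.Px p) Y.P) id :=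
  Mk.fre_fst (U := Y.Px p) (P := Y.P) (l := Y.l) (z := Y.zz) (s := fun x => Y.c₀ + Wd.lv σ p x)
    (J := max (σ.C * p.u) 1) (by simp)

theorem dn_p1 (h : σ.Ok) (s : Y.St σ e r) (n : 0 < Y.nD) :
    K31.Dn σ.cc⁻¹ (Y.P2 σ p) id (Y.P1 σ p) :=
  K31.dn_cE _ h.cc0 ((mass_px s n).trans_eq
    ((law_p1 Y p).pb_eq fun v => Y.E v.1.1 v.2).symm)

theorem dn_p2 (h : σ.Ok) (s : Y.St σ e r) (n : 0 < Y.nD) :
    K31.Dn σ.cc⁻¹ (Y.P2 σ p) (fun z => (z.1, z.2.1.2)) (prod (Y.Px p) Y.P) := by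
  simpa only [mul_one, id] using (dn_p1 (p := p) h s n).trans (K31.dn_law (law_p1 Y p))

theorem rowT : RowT := by
  intro ι κ _ _ _ _ σ h
  obtain ⟨c, c0, g⟩ := tan_dn h
  have i0 := (inv_pos.2 h.cc0).le
  refine ⟨1 + σ.cc⁻¹ * (c * 10), le_add_of_nonneg_right (by positivity),
    fun Y p e w r δ H s => ?_⟩
  obtain ⟨d1, -, a1, a2, a3, -, -, -, -, a4⟩ :=
    num1 H.num (le_add_of_nonneg_right (by positivity))
  have L0 : (0 : ℝ) < p.L := by linarith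
  refine (g Y p _ _ _ _ s (by exact_mod_cast L0) (dn_p2 h H.st a4)).trans ?_
  have b : ((p.u : ℝ) + 2) ^ 2 / p.L ≤ 9 * (δ * p.u) := by
    rw [div_le_iff₀ L0]
    nlinarith [mul_le_mul_of_nonneg_left H.num.uL (zero_le_one.trans a2)]
  have k := mul_le_mul_of_nonneg_left (mul_le_mul_of_nonneg_left
    (show ((p.u : ℝ) + 2) ^ 2 / p.L + 1 ≤ 10 * (δ * p.u) by linarith) c0) i0
  linarith

end Pool.Agent.MP_5168f5_an.QA.SC
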