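import Pool.Agent.MP_4b405e_nt.SK.Fin0
import Pool.Agent.MP_4b405e_nt.SK.CBr
import Pool.Agent.MP_4b405e_nt.SK.CRC
import Pool.Agent.MP_4b405e_nt.SK.CNrm
import Pool.Agent.MP_4b405e_nt.SK.CRP
import Pool.Agent.MP_4b405e_nt.SK.CR23b
import Pool.Agent.MP_4b405e_nt.SK.CLw
import Pool.Agent.MP_4b405e_nt.SK.CRb
import Pool.Agent.MP_4b405e_nt.SK.CRt
import Pool.Agent.MP_4b405e_nt.SK.CRI
import Pool.Agent.MP_4b405e_nt.SK.CRf59
import Pool.Agent.MP_4b405e_nt.SK.CRd1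
import Pool.Agent.MP_4b405e_nt.SK.CRd276
import Pool.Agent.MP_4b405e_nt.SK.CRD3
import Pool.Agent.MP_4b405e_nt.SK.CAc4
import Pool.Agent.MP_4b405e_nt.SK.CRNd
import Pool.Agent.MP_4b405e_nt.SK.CLk

/-! Sparse slopes: there is no filtered system with sparse heights. -/

namespace Pool.Agent.MP_5168f5_an.QA

open SC in
theorem spCsAll : SpCs :=
  ofC rowS rowPA rowPB R23.rowR R23.rowM rowLv
    (ofB rowPA rowLv rowTV rowT (ofI T76.rowD2) (F59.ofF rowD1 T76.rowD2)) rowAc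
    (ofNd (ofI T76.rowD2)) (ofLk rowPA T76.rowD2 rowD3)

theorem noPGfAll : NoPGf := noPGf_C (SC.Br.spCx_of spCsAll)

end Pool.Agent.MP_5168f5_an.QA
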