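import Pool.Agent.MP_5168f5_an.AN.GAApi

/-! Sparse heights: one pivot step for a basis adapted to a chain of subspaces. -/

namespace Pool.Agent.MP_5168f5_an.QA.SB

open Finset Matrix
open AN.GA (br mC br_sub_left br_sub_right br_smul_left br_smul_right)

variable {κ Y : Type} [Fintype κ] [DecidableEq κ]

/-- A basis `g` with inverse `g'`, adapted to the chain given by `wt`: entries at most `L`,
errors at most `δ`. The indices with `vt > 0` span the ideal, `φ y` are the changes of frame. -/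
structure Val (μ vt wt : κ → ℝ) (pos : κ → Prop) (c : κ → κ → κ → ℝ) (φ : Y → Matrix κ κ ℝ)
    (E : Y → Prop) (g g' : Matrix κ κ ℝ) (L δ : ℝ) : Prop where
  inv : g * g' = 1
  gr : ∀ b e, g b e ≠ (1 : Matrix κ κ ℝ) b e ∨ g' b e ≠ (1 : Matrix κ κ ℝ) b e →
    μ b = μ e ∧ 0 < vt b ∧ 0 < vt e
  ob : ∀ b e, |g b e| ≤ L ∧ |g' b e| ≤ L
  v1 : ∀ a b e, 0 < vt b → 0 < vt e → wt b < wt e → |mC g g' c a b e| ≤ δ
  v2 : ∀ y, E y → ∀ a e, 0 < vt a → 0 < vt e → vt a < wt e → |(φ y * g') a e| ≤ δ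
  v3 : ∀ b e, ¬pos b → pos e → |g b e| ≤ δ ∧ |g' b e| ≤ δ

/-- The elementary matrix. -/
def el (t : κ → ℝ) (p : κ) : Matrix κ κ ℝ := 1 + vecMulVec t (Pi.single p 1)

theorem el_mul (t : κ → ℝ) (p : κ) (g : Matrix κ κ ℝ) (b : κ) :
    (el (-t) p * g) b = g b - t b • g p := by
  funext e
  simp [el, add_mul, mul_apply, vecMulVec_apply, Pi.single_apply, one_apply, sub_eq_add_neg,
    sum_add_distrib]

theorem vm_el (t x : κ → ℝ) (p e : κ) :
    (x ᵥ* el t p) e = x e + if e = p then x ⬝ᵥ t else 0 := by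
  simp only [el, vecMul_add, vecMul_one, Pi.add_apply]
  congr 1
  by_cases h : e = p
  · simp [vecMul, dotProduct, vecMulVec_apply, h]
  · simp [vecMul, dotProduct, vecMulVec_apply, h]

theorem mul_el (t : κ → ℝ) (p : κ) (g : Matrix κ κ ℝ) (b e : κ) :
    (g * el t p) b e = g b e + if e = p then g b ⬝ᵥ t else 0 := vm_el t (g b) p e

theorem el_inv (t : κ → ℝ) (p : κ) (h : t p = 0) : el (-t) p * el t p = 1 := by
  ext b e
  rw [mul_el]
  by_cases k : e = p
  · subst k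
    simp [el, vecMulVec_apply, dotProduct, add_mul, sum_add_distrib, one_apply, Pi.single_apply, h]
  · simp [el, vecMulVec_apply, k]

theorem mC_el (t : κ → ℝ) (p : κ) (g g' : Matrix κ κ ℝ) (c : κ → κ → κ → ℝ) (a b : κ) :
    mC (el (-t) p * g) (g' * el t p) c a b =
      (mC g g' c a b - t b • mC g g' c a p - t a • mC g g' c p b + (t a * t b) • mC g g' c p p) ᵥ*
        el t p := by
  simp only [mC, el_mul, br_sub_left, br_sub_right, br_smul_left, br_smul_right, ← vecMul_vecMul,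
    sub_vecMul, add_vecMul, smul_vecMul, smul_sub, smul_smul]
  rw [mul_comm (t b) (t a)]
  abel

omit [DecidableEq κ] in
theorem dot_le {x t : κ → ℝ} {T δ : ℝ} (d0 : 0 ≤ δ) (hT : ∑ b, |t b| ≤ T)
    (h : ∀ b, t b ≠ 0 → |x b| ≤ δ) : |x ⬝ᵥ t| ≤ T * δ := by
  refine (abs_sum_le_sum_abs _ _).trans ((sum_le_sum (g := fun b => |t b| * δ) fun b _ => ?_).trans
    ?_)
  · rw [abs_mul, mul_comm]
    by_cases k : t b = 0
    · simp [k]
    · exact mul_le_mul_of_nonneg_left (h b k) (abs_nonneg _)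
  · rw [← sum_mul]
    exact mul_le_mul_of_nonneg_right hT d0

theorem four_le {x y z u s t T δ : ℝ} (d0 : 0 ≤ δ) (hs : |s| ≤ T) (ht : |t| ≤ T) (hx : |x| ≤ δ)
    (hy : t ≠ 0 → |y| ≤ δ) (hz : |z| ≤ δ) (hu : t ≠ 0 → |u| ≤ δ) :
    |x - t * y - s * z + s * t * u| ≤ (1 + T) ^ 2 * δ := by
  have T0 : 0 ≤ T := (abs_nonneg _).trans hs
  have a : |t * y| ≤ T * δ := by
    by_cases k : t = 0
    · simp [k]; positivity
    · rw [abs_mul]; exact mul_le_mul ht (hy k) (abs_nonneg _) T0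
  have b : |s * z| ≤ T * δ := by rw [abs_mul]; exact mul_le_mul hs hz (abs_nonneg _) T0
  have c : |s * t * u| ≤ T * T * δ := by
    by_cases k : t = 0
    · simp [k]; positivity
    · rw [abs_mul, abs_mul]
      exact mul_le_mul (mul_le_mul hs ht (abs_nonneg _) T0) (hu k) (abs_nonneg _) (by positivity)
  rw [abs_le] at *
  constructor <;> nlinarith [a.1, a.2, b.1, b.2, c.1, c.2, hx.1, hx.2]

/-- The pivot step. The functional is `x ↦ x p + x ⬝ᵥ t`; the weight of `p` is raised to the next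
value `w'`. -/
theorem Val.piv {μ vt wt : κ → ℝ} {pos : κ → Prop} {c : κ → κ → κ → ℝ} {φ : Y → Matrix κ κ ℝ}
    {E E' : Y → Prop} {g g' : Matrix κ κ ℝ} {L δ δ' T w' : ℝ} (h : Val μ vt wt pos c φ E g g' L δ)
    (t : κ → ℝ) (p : κ) (d0 : 0 ≤ δ) (d1 : δ ≤ δ') (sub : ∀ y, E' y → E y) (tp : t p = 0)
    (p0 : 0 < vt p) (hT : ∑ b, |t b| ≤ T)
    (sp : ∀ b, t b ≠ 0 → μ b = μ p ∧ 0 < vt b ∧ wt b = wt p ∧ (pos p → pos b))
    (hw : wt p ≤ w') (n1 : ∀ b, 0 < vt b → wt b < w' → wt b ≤ wt p)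
    (n2 : ∀ b, vt b < w' → vt b ≤ wt p)
    (t1 : ∀ a b, 0 < vt b → wt b ≤ wt p → |mC g g' c a b p + mC g g' c a b ⬝ᵥ t| ≤ δ')
    (t2 : ∀ y, E' y → ∀ a, vt a = wt p → |(φ y * g') a p + (φ y * g') a ⬝ᵥ t| ≤ δ') :
    Val μ vt (Function.update wt p w') pos c φ E' (el (-t) p * g) (g' * el t p) ((1 + T) * L)
      ((1 + T) ^ 2 * δ') := by
  have tb : ∀ b, |t b| ≤ T := fun b =>
    (single_le_sum (f := fun b => |t b|) (fun _ _ => abs_nonneg _) (mem_univ b)).trans hT
  have T0 : 0 ≤ T := (abs_nonneg _).trans (tb p)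
  have L0 : 0 ≤ L := (abs_nonneg _).trans (h.ob p p).1
  have e0 : 0 ≤ δ' := d0.trans d1
  have q1 : δ ≤ (1 + T) ^ 2 * δ' := d1.trans (le_mul_of_one_le_left e0 (by nlinarith))
  have q2 : δ + T * δ ≤ (1 + T) ^ 2 * δ' := by
    nlinarith [mul_le_mul_of_nonneg_left d1 T0, mul_nonneg T0 e0, mul_nonneg (mul_nonneg T0 T0) e0]
  have up : ∀ b, wt b ≤ Function.update wt p w' b := fun b => by
    by_cases k : b = p
    · subst k; simpa using hw
    · simp [k]
  refine ⟨?_, fun b e k => ?_, fun b e => ⟨?_, ?_⟩, fun a b e b0 e1 lt => ?_,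
    fun y hy a e a0 e1 lt => ?_, fun b e nb pe => ⟨?_, ?_⟩⟩
  · rw [Matrix.mul_assoc, ← Matrix.mul_assoc g, h.inv, Matrix.one_mul, el_inv t p tp]
  · by_contra z
    have z1 : g b e = (1 : Matrix κ κ ℝ) b e ∧ g' b e = (1 : Matrix κ κ ℝ) b e := by
      by_contra y
      exact z (h.gr b e (not_and_or.1 y))
    rcases k with k | k
    · rw [el_mul] at k
      simp only [Pi.sub_apply, Pi.smul_apply, smul_eq_mul, z1.1, ne_eq, sub_eq_self,
        mul_eq_zero, not_or] at k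
      obtain ⟨s1, s2, -⟩ := sp b k.1
      by_cases pe : p = e
      · exact z (pe ▸ ⟨s1, s2, p0⟩)
      · have := h.gr p e (.inl (by rw [one_apply_ne pe]; exact k.2))
        exact z ⟨s1.trans this.1, s2, this.2.2⟩
    · rw [mul_el, z1.2] at k
      by_cases pe : e = p
      · rw [if_pos pe] at k
        obtain ⟨a, -, ha⟩ := exists_ne_zero_of_sum_ne_zero
          (show ∑ a, g' b a * t a ≠ 0 from fun z => k (by rw [dotProduct, z, add_zero]))
        obtain ⟨s1, s2, -⟩ := sp a (right_ne_zero_of_mul ha)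
        by_cases ba : b = a
        · exact z (pe ▸ ba ▸ ⟨s1, s2, p0⟩)
        · have := h.gr b a (.inr (by rw [one_apply_ne ba]; exact left_ne_zero_of_mul ha))
          exact z (pe ▸ ⟨this.1.trans s1, this.2.1, p0⟩)
      · simp [pe] at k
  · rw [el_mul]
    simp only [Pi.sub_apply, Pi.smul_apply, smul_eq_mul]
    refine (abs_sub _ _).trans ?_
    rw [abs_mul, add_mul, one_mul]
    exact add_le_add (h.ob b e).1 (mul_le_mul (tb b) (h.ob p e).1 (abs_nonneg _) T0)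
  · rw [mul_el, add_mul, one_mul]
    refine (abs_add_le _ _).trans (add_le_add (h.ob b e).2 ?_)
    split_ifs
    · exact dot_le L0 hT fun a _ => (h.ob b a).2
    · simp; positivity
  · rw [mC_el, vm_el]
    by_cases pe : e = p
    · subst pe
      rw [if_pos rfl]
      have lt' : wt b < w' := (up b).trans_lt (by simpa using lt)
      have := four_le (s := t a) (t := t b) e0 (tb a) (tb b) (t1 a b b0 (n1 b b0 lt'))
        (fun _ => t1 a e p0 le_rfl) (t1 e b b0 (n1 b b0 lt')) (fun _ => t1 e e p0 le_rfl)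
      convert this using 2
      simp only [Pi.add_apply, Pi.sub_apply, Pi.smul_apply, smul_eq_mul, add_dotProduct,
        sub_dotProduct, smul_dotProduct]
      ring
    · rw [if_neg pe, add_zero]
      have lt' : wt b < wt e := (up b).trans_lt (by simpa [pe] using lt)
      have := four_le (s := t a) (t := t b) d0 (tb a) (tb b) (h.v1 a b e b0 e1 lt')
        (fun k => h.v1 a p e p0 e1 ((sp b k).2.2.1 ▸ lt')) (h.v1 p b e b0 e1 lt')
        (fun k => h.v1 p p e p0 e1 ((sp b k).2.2.1 ▸ lt'))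
      exact this.trans (mul_le_mul_of_nonneg_left d1 (by positivity))
  · rw [← Matrix.mul_assoc, mul_el]
    by_cases pe : e = p
    · subst pe
      rw [if_pos rfl]
      rcases (n2 a (by simpa using lt)).eq_or_lt with k | k
      · exact (t2 y hy a k).trans (le_mul_of_one_le_left e0 (by nlinarith))
      · refine (abs_add_le _ _).trans (le_trans (add_le_add (h.v2 y (sub y hy) a e a0 e1 k)
          (dot_le d0 hT fun b z => h.v2 y (sub y hy) a b a0 (sp b z).2.1 ?_)) q2)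
        rw [(sp b z).2.2.1]; exact k
    · rw [if_neg pe, add_zero]
      exact (h.v2 y (sub y hy) a e a0 e1 (by simpa [pe] using lt)).trans q1
  · rw [el_mul]
    simp only [Pi.sub_apply, Pi.smul_apply, smul_eq_mul]
    refine (abs_sub _ _).trans (le_trans (add_le_add (h.v3 b e nb pe).1 ?_) q2)
    by_cases k : t b = 0
    · simp [k]; positivity
    · rw [abs_mul]
      exact mul_le_mul (tb b) (h.v3 p e (fun z => nb ((sp b k).2.2.2 z)) pe).1 (abs_nonneg _) T0
  · rw [mul_el]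
    refine (abs_add_le _ _).trans (le_trans (add_le_add (h.v3 b e nb pe).2 ?_) q2)
    split_ifs with k
    · exact dot_le d0 hT fun a z => (h.v3 b a nb ((sp a z).2.2.2 (k ▸ pe))).2
    · simp; positivity

open Classical in
/-- The mass of the functional outside the positions. -/
noncomputable def sg (pos : κ → Prop) (ξ : κ → ℝ) : ℝ := ∑ b, if pos b then 0 else |ξ b|

omit [DecidableEq κ] in
theorem big_of {f : κ → ℝ} {ε : ℝ} (e0 : 0 < ε) (h : ε ≤ ∑ b, f b) :
    ∃ p, ε ≤ Fintype.card κ * f p := by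
  by_contra q
  push Not at q
  rcases isEmpty_or_nonempty κ with i | i
  · simp at h; linarith
  have := sum_lt_sum_of_nonempty univ_nonempty fun b _ => q b
  rw [← mul_sum, sum_const, nsmul_eq_mul, card_univ] at this
  have c : (0 : ℝ) < Fintype.card κ := by exact_mod_cast Fintype.card_pos
  linarith [lt_of_mul_lt_mul_left this c.le]

/-- The choice of the pivot. -/
theorem snap (pos : κ → Prop) (ξ : κ → ℝ) {ε ε' : ℝ} (e0 : 0 < ε) (e1 : ε ≤ 1 / 2) (e2 : 0 ≤ ε')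
    (e3 : ε' ≤ 1 / 2) (h1 : ∑ b, |ξ b| = 1) (h : ε ≤ sg pos ξ ∨ sg pos ξ ≤ ε') :
    ∃ (p : κ) (t : κ → ℝ), ξ p ≠ 0 ∧ t p = 0 ∧ ∑ b, |t b| ≤ Fintype.card κ / ε ∧
      (∀ b, t b ≠ 0 → ξ b ≠ 0 ∧ (pos p → pos b)) ∧ ∀ (x : κ → ℝ) (K η : ℝ), (∀ b, |x b| ≤ K) →
        |x ⬝ᵥ ξ| ≤ η → |x p + x ⬝ᵥ t| ≤ Fintype.card κ / ε * (η + ε' * K) := by
  classical
  obtain ⟨p, S, hp, pS, hS, sm⟩ : ∃ (p : κ) (S : κ → Prop), ε ≤ Fintype.card κ * |ξ p| ∧ S p ∧
      (∀ b, S b → pos p → pos b) ∧ sg S ξ ≤ ε' := by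
    rcases h with h | h
    · obtain ⟨p, hp⟩ := big_of e0 h
      by_cases k : pos p
      · simp [k] at hp; linarith
      · exact ⟨p, fun _ => True, by simpa [k] using hp, trivial, fun _ _ z => absurd z k,
          by simpa [sg] using e2⟩
    · have : ε ≤ ∑ b, if pos b then |ξ b| else 0 := by
        have : sg pos ξ + ∑ b, (if pos b then |ξ b| else 0) = 1 := by
          rw [← h1, sg, ← sum_add_distrib]
          exact sum_congr rfl fun b _ => by split_ifs <;> simp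
        linarith
      obtain ⟨p, hp⟩ := big_of e0 this
      by_cases k : pos p
      · exact ⟨p, pos, by simpa [k] using hp, k, fun _ z _ => z, h⟩
      · simp [k] at hp; linarith
  have x0 : 0 < |ξ p| := by
    by_contra z
    have : |ξ p| = 0 := le_antisymm (not_lt.1 z) (abs_nonneg _)
    rw [this, mul_zero] at hp
    linarith
  have xp : ξ p ≠ 0 := abs_pos.1 x0
  have iv : |ξ p|⁻¹ ≤ Fintype.card κ / ε := by
    rw [inv_eq_one_div, div_le_div_iff₀ x0 e0, one_mul]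
    exact hp
  refine ⟨p, fun b => if S b ∧ b ≠ p then ξ b / ξ p else 0, xp, by simp, ?_, fun b k => ?_,
    fun x K η hK hη => ?_⟩
  · refine le_trans (sum_le_sum (g := fun b => |ξ b| * |ξ p|⁻¹) fun b _ => ?_) ?_
    · beta_reduce
      split_ifs
      · rw [abs_div, div_eq_mul_inv]
      · rw [abs_zero]; positivity
    · rw [← sum_mul, h1, one_mul]
      exact iv
  · beta_reduce at k
    by_cases z : S b ∧ b ≠ p
    · rw [if_pos z] at k
      exact ⟨fun y => k (by rw [y, zero_div]), hS b z.1⟩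
    · exact absurd (if_neg z) k
  · have K0 : 0 ≤ K := (abs_nonneg _).trans (hK p)
    have e : x p + x ⬝ᵥ (fun b => if S b ∧ b ≠ p then ξ b / ξ p else 0) =
        (x ⬝ᵥ ξ - x ⬝ᵥ fun b => if S b then 0 else ξ b) * (ξ p)⁻¹ := by
      rw [eq_mul_inv_iff_mul_eq₀ xp, ← dotProduct_sub, add_mul, dotProduct, dotProduct, sum_mul,
        ← add_sum_erase _ _ (mem_univ p), ← add_sum_erase _ _ (mem_univ p)]
      simp only [ne_eq, not_true_eq_false, and_false, if_false, mul_zero, zero_mul, zero_add,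
        Pi.sub_apply, if_pos pS, sub_zero]
      congr 1
      refine sum_congr rfl fun b hb => ?_
      have := ne_of_mem_erase hb
      by_cases z : S b
      · simp only [z, this, not_false_eq_true, and_self, if_true, sub_zero]
        field_simp
      · simp [z]
    have b : |x ⬝ᵥ fun b => if S b then 0 else ξ b| ≤ ε' * K := by
      refine dot_le K0 (le_of_eq_of_le (sum_congr rfl fun b _ => ?_) sm) fun b _ => hK b
      split_ifs <;> simp
    rw [e, abs_mul, abs_inv, mul_comm]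
    exact mul_le_mul iv ((abs_sub _ _).trans (add_le_add hη b)) (abs_nonneg _)
      ((inv_nonneg.2 x0.le).trans iv)

variable {μ vt wt : κ → ℝ} {pos : κ → Prop} {c : κ → κ → κ → ℝ} {φ : Y → Matrix κ κ ℝ}
  {E E' : Y → Prop} {g g' : Matrix κ κ ℝ} {L δ : ℝ}

/-- The step from a thin functional on the group of weight `m` in the piece `w`; `w'` is the next
value. -/
theorem Val.step (h : Val μ vt wt pos c φ E g g' L δ) (ξ : κ → ℝ) {ε ε' η K m w w' : ℝ}
    (d0 : 0 ≤ δ) (e0 : 0 < ε) (e1 : ε ≤ 1 / 2) (e2 : 0 ≤ ε') (e3 : ε' ≤ 1 / 2)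
    (h1 : ∑ b, |ξ b| = 1) (hs : ε ≤ sg pos ξ ∨ sg pos ξ ≤ ε') (sub : ∀ y, E' y → E y)
    (sp : ∀ b, ξ b ≠ 0 → μ b = m ∧ 0 < vt b ∧ wt b = w) (hw : w ≤ w')
    (n1 : ∀ b, 0 < vt b → wt b < w' → wt b ≤ w) (n2 : ∀ b, vt b < w' → vt b ≤ w)
    (k1 : ∀ a b e, |mC g g' c a b e| ≤ K) (k2 : ∀ y, E' y → ∀ a e, |(φ y * g') a e| ≤ K)
    (t1 : ∀ a b, 0 < vt b → wt b ≤ w → |mC g g' c a b ⬝ᵥ ξ| ≤ η)
    (t2 : ∀ y, E' y → ∀ a, vt a = w → |(φ y * g') a ⬝ᵥ ξ| ≤ η) :
    ∃ (p : κ) (f f' : Matrix κ κ ℝ), ξ p ≠ 0 ∧ Val μ vt (Function.update wt p w') pos c φ E' f f'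
      ((1 + Fintype.card κ / ε) * L)
      ((1 + Fintype.card κ / ε) ^ 2 * max δ (Fintype.card κ / ε * (η + ε' * K))) := by
  obtain ⟨p, t, xp, tp, hT, st, th⟩ := snap pos ξ e0 e1 e2 e3 h1 hs
  obtain ⟨p1, p2, p3⟩ := sp p xp
  refine ⟨p, _, _, xp, h.piv t p d0 (le_max_left _ _) sub tp p2 hT (fun b k => ?_) (p3 ▸ hw)
    (p3 ▸ n1) (p3 ▸ n2) (fun a b b0 k => ?_) fun y hy a k => ?_⟩
  · obtain ⟨s1, s2, s3⟩ := sp b (st b k).1
    exact ⟨s1.trans p1.symm, s2, s3.trans p3.symm, (st b k).2⟩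
  · exact (th _ K η (k1 a b) (t1 a b b0 (p3 ▸ k))).trans (le_max_right _ _)
  · exact (th _ K η (k2 y hy a) (t2 y hy a (p3 ▸ k))).trans (le_max_right _ _)

theorem Val.mono (h : Val μ vt wt pos c φ E g g' L δ) {L' δ' : ℝ} (sub : ∀ y, E' y → E y)
    (hL : L ≤ L') (hδ : δ ≤ δ') : Val μ vt wt pos c φ E' g g' L' δ' :=
  ⟨h.inv, h.gr, fun b e => ⟨(h.ob b e).1.trans hL, (h.ob b e).2.trans hL⟩,
    fun a b e x y z => (h.v1 a b e x y z).trans hδ,
    fun y k a e x z q => (h.v2 y (sub y k) a e x z q).trans hδ,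
    fun b e x y => ⟨(h.v3 b e x y).1.trans hδ, (h.v3 b e x y).2.trans hδ⟩⟩

/-- The start: the least positive value everywhere. -/
theorem Val.init {w : ℝ} (hw : ∀ a, 0 < vt a → w ≤ vt a) :
    Val μ vt (fun _ => w) pos c φ E 1 1 1 0 := by
  refine ⟨one_mul _, fun b e k => by simp at k, fun b e => ?_, fun _ _ _ _ _ k => absurd k
    (lt_irrefl _), fun _ _ a _ a0 _ k => absurd (hw a a0) (not_le.2 k), fun b e x y => ?_⟩
  · rw [and_self, one_apply]
    split_ifs <;> simp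
  · rw [and_self, one_apply_ne (fun z : b = e => x (z ▸ y)), abs_zero]

omit [DecidableEq κ] in
theorem mul_le {A B : Matrix κ κ ℝ} {K K' : ℝ} {a e : κ} (h : ∀ b, |A a b| ≤ K)
    (h' : ∀ b, |B b e| ≤ K') : |(A * B) a e| ≤ Fintype.card κ * (K * K') := by
  rw [mul_apply]
  refine (abs_sum_le_sum_abs _ _).trans ((sum_le_card_nsmul _ _ (K * K') fun b _ => ?_).trans ?_)
  · rw [abs_mul]
    exact mul_le_mul (h b) (h' b) (abs_nonneg _) ((abs_nonneg _).trans (h b))
  · rw [nsmul_eq_mul, card_univ]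

/-- The constants in the basis are bounded. -/
theorem Val.mC_le (h : Val μ vt wt pos c φ E g g' L δ) {K : ℝ} (hc : ∀ a b e, |c a b e| ≤ K)
    (a b e : κ) : |mC g g' c a b e| ≤ Fintype.card κ ^ 3 * (K * L ^ 3) := by
  have L0 : 0 ≤ L := (abs_nonneg _).trans (h.ob a a).1
  have K0 : 0 ≤ K := (abs_nonneg _).trans (hc a a a)
  have q : ∀ e', |br c (g a) (g b) e'| ≤ Fintype.card κ ^ 2 * (K * L ^ 2) := fun e' => by
    refine (abs_sum_le_sum_abs _ _).trans ((sum_le_card_nsmul _ _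
      (Fintype.card κ * (K * L ^ 2)) fun a' _ => ?_).trans_eq ?_)
    · refine (abs_sum_le_sum_abs _ _).trans ((sum_le_card_nsmul _ _ (K * L ^ 2)
        fun b' _ => ?_).trans_eq ?_)
      · rw [abs_mul, abs_mul, sq, ← mul_assoc]
        exact mul_le_mul (mul_le_mul (hc _ _ _) (h.ob _ _).1 (abs_nonneg _) K0) (h.ob _ _).1
          (abs_nonneg _) (by positivity)
      · rw [nsmul_eq_mul, card_univ]
    · rw [nsmul_eq_mul, card_univ]; ring
  exact (mul_le (A := fun _ => br c (g a) (g b)) (B := g') (a := a) q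
    fun b' => (h.ob b' e).2).trans_eq (by ring)

/-- No weight is above all values. `ψ` is the inverse change of frame. -/
theorem Val.top (h : Val μ vt wt pos c φ E g g' L δ) (d0 : 0 ≤ δ) {y : Y} (hy : E y) {p : κ}
    (p0 : 0 < vt p) (hp : ∀ a, vt a < wt p) (ψ : Matrix κ κ ℝ) {K : ℝ} (i : ψ * φ y = 1)
    (hK : ∀ a b, |ψ a b| ≤ K) (n : ∀ a b, 0 < vt a → ψ a b ≠ 0 → 0 < vt b) :
    1 ≤ Fintype.card κ ^ 2 * (L * K * δ) := by
  have L0 : 0 ≤ L := (abs_nonneg _).trans (h.ob p p).1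
  have K0 : 0 ≤ K := (abs_nonneg _).trans (hK p p)
  have e : (g * ψ * (φ y * g')) p p = 1 := by
    rw [Matrix.mul_assoc, ← Matrix.mul_assoc ψ, i, Matrix.one_mul, h.inv, one_apply_eq]
  rw [← abs_one, ← e, mul_apply]
  refine (abs_sum_le_sum_abs _ _).trans ((sum_le_card_nsmul _ _
    (Fintype.card κ * (L * K) * δ) fun a _ => ?_).trans_eq ?_)
  · by_cases k : (g * ψ) p a = 0
    · rw [k, zero_mul, abs_zero]; positivity
    · have a0 : 0 < vt a := by
        obtain ⟨b, -, hb⟩ := exists_ne_zero_of_sum_ne_zero (mul_apply (M := g) (N := ψ) ▸ k)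
        refine n b a ?_ (right_ne_zero_of_mul hb)
        by_cases z : p = b
        · exact z ▸ p0
        · exact (h.gr p b (.inl (by rw [one_apply_ne z]; exact left_ne_zero_of_mul hb))).2.2
      rw [abs_mul]
      exact mul_le_mul (mul_le (fun b => (h.ob p b).1) fun b => hK b a)
        (h.v2 y hy a p a0 p0 (hp a)) (abs_nonneg _) (by positivity)
  · rw [nsmul_eq_mul, card_univ]; ring

end Pool.Agent.MP_5168f5_an.QA.SB
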