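import Pool.Agent.MP_4b405e_nt.SK.BRob
import Pool.Agent.MP_4b405e_nt.SK.BPiv
import Pool.Agent.MP_5168f5_an.AN.GAFlag

/-! Sparse heights, block B: a thin functional kills the action of the whole algebra. -/

namespace Pool.Agent.MP_5168f5_an.QA.SB

open H19 H17S H17F Finset Matrix
open AN.GA (br mC)

variable {κ Ω : Type} [Fintype κ] [DecidableEq κ]

/-- An algebra that is graded for both weights up to `δ`, with constants at most `A`. -/
structure Al (μ vt : κ → ℝ) (c : κ → κ → κ → ℝ) (A δ : ℝ) : Prop where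
  v0 : ∀ a, 0 ≤ vt a
  live : ∀ a, 0 < vt a → 0 < μ a
  jac : ∀ s t u, br c (br c s t) u = br c s (br c t u) - br c t (br c s u)
  ob : ∀ a b e, |c a b e| ≤ A
  gr : ∀ a b e, 0 < μ e → ¬(0 < μ a ∧ 0 < μ b ∧ μ e = μ a + μ b ∧ vt e = vt a + vt b) →
    |c a b e| ≤ δ
  card : 3 * (Fintype.card κ : ℝ) + 1 ≤ A
  d0 : 0 ≤ δ

/-- A basis adapted to the chain of ideals given by `wt`. -/
structure Ch (μ vt wt : κ → ℝ) (c : κ → κ → κ → ℝ) (g g' : Matrix κ κ ℝ) (A δ : ℝ) : Prop where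
  inv : g * g' = 1
  gr : ∀ b e, g b e ≠ (1 : Matrix κ κ ℝ) b e ∨ g' b e ≠ (1 : Matrix κ κ ℝ) b e →
    μ b = μ e ∧ 0 < vt b ∧ 0 < vt e
  ob : ∀ b e, |g b e| ≤ A ∧ |g' b e| ≤ A
  v1 : ∀ a b e, 0 < vt b → 0 < vt e → wt b < wt e → |mC g g' c a b e| ≤ δ

/-- The coordinates of the bracket of `x` with the vector `q` of the basis. -/
def ac (c : κ → κ → κ → ℝ) (g g' : Matrix κ κ ℝ) (x : κ → ℝ) (q : κ) : κ → ℝ := br c x (g q) ᵥ* g'

variable {μ vt wt : κ → ℝ} {c : κ → κ → κ → ℝ} {g g' : Matrix κ κ ℝ} {A δ : ℝ}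

theorem br_l (c : κ → κ → κ → ℝ) (x : κ → ℝ) (f : κ → κ → ℝ) (y : κ → ℝ) :
    br c (∑ a, x a • f a) y = ∑ a, x a • br c (f a) y := by
  simp only [AN.GF.br_eq, map_sum, map_smul, LinearMap.sum_apply, LinearMap.smul_apply]

theorem br_r (c : κ → κ → κ → ℝ) (x : κ → ℝ) (f : κ → κ → ℝ) (y : κ → ℝ) :
    br c y (∑ a, x a • f a) = ∑ a, x a • br c y (f a) := by
  simp only [AN.GF.br_eq, map_sum, map_smul]

theorem ac_sum (x : κ → ℝ) (f : κ → κ → ℝ) (q p : κ) :
    ac c g g' (∑ a, x a • f a) q p = ∑ a, x a * ac c g g' (f a) q p := by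
  simp only [ac, br_l, sum_vecMul, smul_vecMul, Finset.sum_apply, Pi.smul_apply, smul_eq_mul]

theorem ac_single (x : κ → ℝ) (q p : κ) :
    ac c g g' x q p = ∑ a, x a * ac c g g' (Pi.single a 1) q p := by
  rw [← ac_sum]
  congr 1
  funext e
  simp [Finset.sum_apply, Pi.single_apply]

omit [DecidableEq κ] in
theorem vm_rows (x : κ → ℝ) (g : Matrix κ κ ℝ) : x ᵥ* g = ∑ a, x a • g a := by
  funext e
  simp [vecMul, dotProduct, Finset.sum_apply]

theorem Ch.back (h : Ch μ vt wt c g g' A δ) (x : κ → ℝ) : x = ∑ a, (x ᵥ* g') a • g a := by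
  rw [← vm_rows, vecMul_vecMul, mul_eq_one_comm.1 h.inv, vecMul_one]

/-- The action in terms of the constants in the basis. -/
theorem Ch.ac_eq (h : Ch μ vt wt c g g' A δ) (x : κ → ℝ) (q p : κ) :
    ac c g g' x q p = ∑ a, (x ᵥ* g') a * mC g g' c a q p := by
  conv_lhs => rw [h.back x, ac_sum]
  rfl

/-- The Jacobi identity for the action. -/
theorem Ch.ac_br (h : Ch μ vt wt c g g' A δ) (j : ∀ s t u,
    br c (br c s t) u = br c s (br c t u) - br c t (br c s u)) (x y : κ → ℝ) (q p : κ) :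
    ac c g g' (br c x y) q p = ∑ r, ac c g g' x r p * ac c g g' y q r -
      ∑ r, ac c g g' y r p * ac c g g' x q r := by
  have e : ∀ x y : κ → ℝ, (br c x (br c y (g q)) ᵥ* g') p =
      ∑ r, ac c g g' x r p * ac c g g' y q r := fun x y => by
    rw [h.back (br c y (g q)), br_r, sum_vecMul, Finset.sum_apply]
    exact sum_congr rfl fun r _ => by rw [smul_vecMul, mul_comm]; rfl
  rw [ac, j, sub_vecMul, Pi.sub_apply, e, e]

omit [DecidableEq κ] in
theorem Al.one (al : Al μ vt c A δ) : 1 ≤ A := le_trans (le_add_of_nonneg_left (by positivity)) al.card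

omit [DecidableEq κ] in
/-- A sum of small terms. -/
theorem Al.sm (al : Al μ vt c A δ) {f : κ → ℝ} {X : ℝ} (x0 : 0 ≤ X) (hf : ∀ a, |f a| ≤ X) :
    |∑ a, f a| ≤ A * X := by
  have := sum_le (f := f) (g := fun _ => 1) (B := 1) hf (by simp)
  simp only [mul_one] at this
  refine this.trans (mul_le_mul_of_nonneg_right ?_ x0)
  linarith [al.card, Nat.cast_nonneg (α := ℝ) (Fintype.card κ)]

theorem ml {x y X Y : ℝ} (h : |x| ≤ X) (h' : |y| ≤ Y) : |x * y| ≤ X * Y := by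
  rw [abs_mul]; exact mul_le_mul h h' (abs_nonneg _) ((abs_nonneg _).trans h)

theorem ac_one (a q p : κ) :
    ac c g g' (Pi.single a 1) q p = ∑ e, (∑ b, c a b e * g q b) * g' e p := by
  simp [ac, br, vecMul, dotProduct, Pi.single_apply]

variable (al : Al μ vt c A δ) (h : Ch μ vt wt c g g' A δ)
include al h

/-- A bound for the action from a bound for the relevant constants. -/
theorem Ch.ac_le {a q p : κ} {X : ℝ} (x0 : 0 ≤ X)
    (k : ∀ b e, g q b ≠ 0 → g' e p ≠ 0 → |c a b e| ≤ X) :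
    |ac c g g' (Pi.single a 1) q p| ≤ A ^ 4 * X := by
  have A0 := zero_le_one.trans al.one
  rw [ac_one]
  refine (al.sm (X := A * (X * A) * A) (by positivity) fun e => ?_).trans_eq (by ring)
  by_cases z : g' e p = 0
  · rw [z, mul_zero, abs_zero]; positivity
  refine ml (al.sm (by positivity) fun b => ?_) (h.ob e p).2
  by_cases y : g q b = 0
  · rw [y, mul_zero, abs_zero]; positivity
  · exact ml (k b e y z) (h.ob q b).1

omit al in
theorem Ch.pat {b e : κ} (k : g b e ≠ 0 ∨ g' b e ≠ 0) : μ b = μ e ∧ (0 < vt b ↔ 0 < vt e) := by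
  by_cases z : b = e
  · exact z ▸ ⟨rfl, Iff.rfl⟩
  · have := h.gr b e (by rwa [one_apply_ne z])
    exact ⟨this.1, iff_of_true this.2.1 this.2.2⟩

theorem Ch.ac_ob (a q p : κ) : |ac c g g' (Pi.single a 1) q p| ≤ A ^ 5 :=
  (h.ac_le al (zero_le_one.trans al.one) fun _ _ _ _ => al.ob _ _ _).trans_eq (by ring)

/-- Dead vectors do not act on live coordinates. -/
theorem Ch.ac_dead {a q p : κ} (p0 : 0 < μ p) (k : ¬0 < μ a ∨ ¬0 < μ q) :
    |ac c g g' (Pi.single a 1) q p| ≤ A ^ 4 * δ :=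
  h.ac_le al al.d0 fun b e y z => al.gr a b e ((h.pat (.inr z)).1 ▸ p0) fun w =>
    k.elim (fun k => k w.1) fun k => k ((h.pat (.inl y)).1 ▸ w.2.1)

/-- The indices of positive rate span an ideal. -/
theorem Ch.ac_idl {a q p : κ} (p0 : 0 < μ p) (q0 : 0 < vt q) (k : ¬0 < vt p) :
    |ac c g g' (Pi.single a 1) q p| ≤ A ^ 4 * δ :=
  h.ac_le al al.d0 fun b e y z => al.gr a b e ((h.pat (.inr z)).1 ▸ p0) fun w =>
    k ((h.pat (.inr z)).2.1 (by linarith [w.2.2.2, al.v0 a, (h.pat (.inl y)).2.1 q0]))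

/-- The chain is invariant. -/
theorem Ch.ac_up {a q p : κ} (q0 : 0 < vt q) (p0 : 0 < vt p) (k : wt q < wt p) :
    |ac c g g' (Pi.single a 1) q p| ≤ A ^ 4 * δ := by
  have A1 := al.one
  have d0 := al.d0
  rw [h.ac_eq]
  refine (al.sm (X := A * δ) (by positivity) fun e => ml ?_ (h.v1 e q p q0 p0 k)).trans ?_
  · simpa using (h.ob a e).2
  · rw [← mul_assoc, ← pow_two]
    exact mul_le_mul_of_nonneg_right (pow_le_pow_right₀ A1 (by norm_num)) d0

/-- Terms of the product that pass through an index outside the block are small. -/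
theorem Ch.ac_off {a b q p r : κ} (q0 : 0 < vt q) (p0 : 0 < vt p) (e : wt q = wt p)
    (k : ¬(0 < vt r ∧ wt r = wt p)) :
    |ac c g g' (Pi.single a 1) r p * ac c g g' (Pi.single b 1) q r| ≤ A ^ 9 * δ := by
  have l : |ac c g g' (Pi.single a 1) r p| ≤ A ^ 4 * δ → _ := fun z =>
    (ml z (h.ac_ob al b q r)).trans_eq (show _ = A ^ 9 * δ by ring)
  have l' : |ac c g g' (Pi.single b 1) q r| ≤ A ^ 4 * δ → _ := fun z =>
    (ml (h.ac_ob al a r p) z).trans_eq (show _ = A ^ 9 * δ by ring)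
  by_cases m : 0 < μ r
  · by_cases v : 0 < vt r
    · rcases lt_or_gt_of_ne (fun z => k ⟨v, z⟩) with z | z
      · exact l (h.ac_up al v p0 z)
      · exact l' (h.ac_up al q0 v (e ▸ z))
    · exact l' (h.ac_idl al m q0 v)
  · exact l (h.ac_dead al (al.live p p0) (.inr m))

/-- A functional on a block that kills the letters of many samples kills the block. -/
theorem Ch.kill {G : κ → Prop} {c₀ : κ → κ → κ → ℝ} {R : Ω → κ → κ → ℝ} {E : Ω → Prop}
    {u η w : ℝ} (k : Rb μ G c₀ R E u) (u0 : 0 ≤ u) (cc : ∀ a b e, 0 < μ e → |c₀ a b e - c a b e| ≤ δ)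
    (ξ : κ → ℝ) (x1 : ∑ p, |ξ p| ≤ 1) (sp : ∀ p, ξ p ≠ 0 → 0 < vt p ∧ wt p = w)
    (hG : ∀ b, G b → 0 < μ b)
    (gR : ∀ v, E v → ∀ b, G b → ∀ e, R v b e ≠ 0 → μ e = μ b) (dη : A ^ 11 * δ ≤ η)
    (th : ∀ v, E v → ∀ b, G b → ∀ q, 0 < vt q → wt q = w → |ac c g g' (R v b) q ⬝ᵥ ξ| ≤ η)
    (a q : κ) (q0 : 0 < vt q) (qw : wt q ≤ w) :
    |ac c g g' (Pi.single a 1) q ⬝ᵥ ξ| ≤ (Real.exp u * A ^ 6) ^ Fintype.card κ * η := by
  classical
  have A1 := al.one
  have d0 := al.d0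
  have A0 := zero_le_one.trans A1
  have pw : ∀ n ≤ 11, A ^ n * δ ≤ η := fun n hn =>
    (mul_le_mul_of_nonneg_right (pow_le_pow_right₀ A1 hn) d0).trans dη
  have e0 : 0 ≤ η := le_trans (by positivity) dη
  have A4 : 4 ≤ A := by
    have : (1 : ℝ) ≤ Fintype.card κ := Nat.one_le_cast.2 (Fintype.card_pos_iff.2 ⟨a⟩)
    linarith [al.card]
  have B1 : 1 ≤ (Real.exp u * A ^ 6) ^ Fintype.card κ :=
    one_le_pow₀ (one_le_mul_of_one_le_of_one_le (Real.one_le_exp u0) (one_le_pow₀ A1))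
  have dot : ∀ x : κ → ℝ, (∀ p, 0 < vt p → wt p = w → |x p| ≤ A ^ 4 * δ) →
      |x ⬝ᵥ ξ| ≤ (Real.exp u * A ^ 6) ^ Fintype.card κ * η := fun x hx =>
    ((dot_le (by positivity) x1 fun p z => hx p (sp p z).1 (sp p z).2).trans
      (by simpa using pw 4 (by norm_num))).trans (le_mul_of_one_le_left e0 B1)
  rcases qw.lt_or_eq with qw | qw
  · exact dot _ fun p p0 z => h.ac_up al q0 p0 (z ▸ qw)
  by_cases ha : 0 < μ a
  swap
  · exact dot _ fun p p0 _ => h.ac_dead al (al.live p p0) (.inl ha)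
  obtain ⟨ρ, hρ⟩ : ∃ ρ : κ → Matrix κ κ ℝ, ∀ a p q, ρ a p q = if (0 < μ a ∧ 0 < vt p ∧ wt p = w) ∧
      0 < vt q ∧ wt q = w then ac c g g' (Pi.single a 1) q p else 0 := ⟨fun a p q => _, fun _ _ _ => rfl⟩
  have vm : ∀ a q, (ξ ᵥ* ρ a) q = if 0 < μ a ∧ 0 < vt q ∧ wt q = w then
      ac c g g' (Pi.single a 1) q ⬝ᵥ ξ else 0 := fun a q => by
    simp only [vecMul, dotProduct, hρ]
    split_ifs with z
    · refine sum_congr rfl fun p _ => ?_
      by_cases y : ξ p = 0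
      · simp [y]
      · rw [if_pos ⟨⟨z.1, sp p y⟩, z.2⟩, mul_comm]
    · exact sum_eq_zero fun p _ => by rw [if_neg fun y => z ⟨y.1.1, y.2⟩, mul_zero]
  have := k.kill u0 e0 (one_le_pow₀ A1 : 1 ≤ A ^ 5) ρ ξ x1 (fun a p q => by
      rw [hρ]; split_ifs
      exacts [h.ac_ob al a q p, by rw [abs_zero]; positivity]) gR (fun b b' e p p' y => ?_)
    (fun b b' p q z z' => ?_) (fun v hv b hb q => ?_) a ha q
  · rw [vm, if_pos ⟨ha, q0, qw⟩] at this
    refine this.trans (mul_le_mul_of_nonneg_right (pow_le_pow_left₀ (by positivity)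
      (mul_le_mul_of_nonneg_left ?_ (Real.exp_pos u).le) _) e0)
    rw [pow_succ' A 5]
    exact mul_le_mul_of_nonneg_right (by linarith [al.card]) (by positivity)
  · by_cases z : 0 < μ e
    · refine .inr ?_
      have a1 := abs_le.1 (cc b b' e z)
      have a2 := abs_le.1 (al.gr b b' e z fun w => y w.2.2.1)
      rw [abs_le]
      constructor <;> nlinarith [pw 1 (by norm_num)]
    · exact .inl (by ext p q; rw [hρ, if_neg fun y => z y.1.1]; rfl)
  · by_cases y : (0 < vt p ∧ wt p = w) ∧ 0 < vt q ∧ wt q = w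
    swap
    · have z1 : ∀ b b', (ρ b * ρ b') p q = 0 := fun b b' => sum_eq_zero fun r _ => by
        show ρ b p r * ρ b' r q = 0
        by_cases x : 0 < vt p ∧ wt p = w
        · rw [hρ b', if_neg fun t => y ⟨x, t.2⟩, mul_zero]
        · rw [hρ b, if_neg fun t => x t.1.2, zero_mul]
      rw [Matrix.sub_apply, z1, z1, sum_eq_zero fun e _ => by
        rw [hρ, if_neg fun t => y ⟨t.1.2, t.2⟩, mul_zero]]
      simpa using e0
    have m : ∀ b b', 0 < μ b → 0 < μ b' → |(ρ b * ρ b') p q - ∑ r, ac c g g' (Pi.single b 1) r p *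
        ac c g g' (Pi.single b' 1) q r| ≤ A * (A ^ 9 * δ) := fun b b' z z' => by
      rw [mul_apply, ← sum_sub_distrib]
      refine al.sm (by positivity) fun r => ?_
      by_cases x : 0 < vt r ∧ wt r = w
      · rw [hρ, hρ, if_pos ⟨⟨z, y.1⟩, x⟩, if_pos ⟨⟨z', x⟩, y.2⟩, sub_self, abs_zero]; positivity
      · rw [hρ, if_neg fun t => x t.2, zero_mul, zero_sub, abs_neg]
        exact h.ac_off al y.2.1 y.1.1 (y.2.2.trans y.1.2.symm) (y.1.2 ▸ x)
    have m' : |∑ e, c₀ b b' e * ρ e p q - ∑ e, c b b' e * ac c g g' (Pi.single e 1) q p| ≤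
        A * (A ^ 5 * δ) := by
      rw [← sum_sub_distrib]
      refine al.sm (by positivity) fun e => ?_
      by_cases x : 0 < μ e
      · rw [hρ, if_pos ⟨⟨x, y.1⟩, y.2⟩, ← sub_mul, mul_comm _ δ]
        exact ml (cc b b' e x) (h.ac_ob al e q p)
      · rw [hρ, if_neg fun t => x t.1.1, mul_zero, zero_sub, abs_neg]
        exact (ml (al.ob b b' e) (h.ac_dead al (al.live p y.1.1) (.inl x))).trans_eq (by ring)
    have j := h.ac_br al.jac (Pi.single b 1) (Pi.single b' 1) q p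
    rw [AN.GA.br_single, ac_single] at j
    have a1 := abs_le.1 (m b b' z z')
    have a2 := abs_le.1 (m b' b z' z)
    have a3 := abs_le.1 m'
    have a4 : A * (A ^ 5 * δ) ≤ A ^ 10 * δ := by
      rw [← mul_assoc, ← pow_succ']
      exact mul_le_mul_of_nonneg_right (pow_le_pow_right₀ A1 (by norm_num)) d0
    have a5 : 4 * (A ^ 10 * δ) ≤ A * (A ^ 10 * δ) := mul_le_mul_of_nonneg_right A4 (by positivity)
    have a6 : 0 ≤ A ^ 10 * δ := by positivity
    rw [Matrix.sub_apply, abs_le]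
    constructor <;> linarith [a1.1, a1.2, a2.1, a2.2, a3.1, a3.2]
  · by_cases y : 0 < vt q ∧ wt q = w
    · have : ∑ e, R v b e * (ξ ᵥ* ρ e) q = ac c g g' (R v b) q ⬝ᵥ ξ := by
        simp only [dotProduct, ac_single (R v b), sum_mul]
        rw [sum_comm]
        refine sum_congr rfl fun e _ => ?_
        by_cases x : R v b e = 0
        · simp [x]
        · rw [vm, if_pos ⟨(gR v hv b hb e x).symm ▸ hG b hb, y⟩, dotProduct, mul_sum]
          exact sum_congr rfl fun _ _ => by ring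
      exact this ▸ th v hv b hb q y.1 y.2
    · rw [sum_eq_zero fun e _ => by rw [vm, if_neg fun t => y t.2, mul_zero], abs_zero]
      exact e0

/-- From the standard vectors to any bounded vector. -/
theorem Ch.ac_dot {ξ x : κ → ℝ} {q : κ} {X η : ℝ} (x0 : 0 ≤ X) (e0 : 0 ≤ η) (hx : ∀ a, |x a| ≤ X)
    (k : ∀ a, |ac c g g' (Pi.single a 1) q ⬝ᵥ ξ| ≤ η) : |ac c g g' x q ⬝ᵥ ξ| ≤ A * (X * η) := by
  have : ac c g g' x q ⬝ᵥ ξ = ∑ a, x a * (ac c g g' (Pi.single a 1) q ⬝ᵥ ξ) := by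
    simp only [dotProduct, ac_single x, sum_mul, mul_sum]
    rw [sum_comm]
    exact sum_congr rfl fun _ _ => sum_congr rfl fun _ _ => by ring
  rw [this]
  exact al.sm (by positivity) fun a => ml (hx a) (k a)

omit al h in
theorem Val.ch {Y : Type} {pos : κ → Prop} {φ : Y → Matrix κ κ ℝ} {E : Y → Prop} {L δ' : ℝ}
    (v : Val μ vt wt pos c φ E g g' L δ') (hL : L ≤ A) (hδ : δ' ≤ δ) : Ch μ vt wt c g g' A δ :=
  ⟨v.inv, v.gr, fun b e => ⟨(v.ob b e).1.trans hL, (v.ob b e).2.trans hL⟩,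
    fun a b e x y z => (v.v1 a b e x y z).trans hδ⟩

end Pool.Agent.MP_5168f5_an.QA.SB
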