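import Pool.Agent.MP_4b405e_nt.SK.SpB
import Pool.Agent.MP_4b405e_nt.SK.BFr
import Pool.Agent.MP_4b405e_nt.SK.BThin
import Pool.Agent.MP_5168f5_an.AN.GAAll

/-! Sparse slopes, block B: a functional that kills the letters kills the algebra. -/

namespace Pool.Agent.MP_5168f5_an.QA.SH

open H19 H17S H17F R4 AN Filter Matrix Finset
open GA (sC mC)
open P7 (Kc)
open Cp (rp rp_spec rp_eq Hw)

/-- From a class to the cell that contains it. -/
theorem cls_cell {Ω β γ : Type} {P : FP Ω} {C : Ω → β} {K : Ω → γ} (h : Fn P C K) {ω : Ω}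
    (hω : ω ∈ P.S) (F : Ω → Prop) : MX.cm P C K ω * pb (cv P K (K ω)) F =
      pb (cv P C (C ω)) fun v => K v = K ω ∧ F v := by
  rw [← pb_cE (cv P C (C ω)), MX.cm]
  congr 2
  unfold cv
  rw [cE_cE (E := fun v => C v = C ω) (E' := fun v => K v = K ω) ⟨ω, hω, rfl, rfl⟩]
  exact cE_congr fun v hv => ⟨fun e => ⟨h v hv ω hω e, e⟩, fun e => e.2⟩

variable {ι κ : Type} [Fintype ι] [DecidableEq ι] [Fintype κ] [DecidableEq κ] {σ : Kc ι κ}
  {X : Wo ι κ} {m : ℝ} {ω : X.Ω}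

/-- An event of large mass in a cell is robust. -/
theorem Wo.Ok.rb (ok : X.Ok σ m) {D : ℕ} (hD : D ≤ 2 * X.M) (hω : ω ∈ X.P.S) {h : ℝ}
    (hw : h ≤ X.w) {E : X.Ω → Prop}
    (hE : Real.exp (X.e - h / σ.L) < pb (cv X.P (X.C D) (X.C D ω)) E) :
    SB.Rb σ.mu σ.G1 (X.c ω) (fun v => X.rr σ D ω v) (fun v => v ∈ X.P.S ∧ E v) h := by
  intro l s h1 h2 h3
  by_contra n
  push Not at n
  exact hE.not_ge ((pb_mono fun v hv e => n v ⟨cE_sub hv, e⟩).trans
    (ok.rob D hD ω hω h hw l s h1 h2 h3))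

/-- The rescaled constants are graded for both weights. -/
theorem Wo.Ok.al (ko : Ko σ) (ok : X.Ok σ m) (hω : ω ∈ X.P.S) {t h A : ℝ} (t0 : 0 ≤ t) (h0 : 0 ≤ h)
    (hw : Vm σ * t + h ≤ X.w) (hA : Real.exp X.e ≤ A) (hN : 3 * (Fintype.card κ : ℝ) + 1 ≤ A) :
    SB.Al σ.mu (vt σ) (sC (fun a => Real.exp (-(vt σ a * t))) (X.c ω)) A (Real.exp (-h)) :=
  ⟨ko.v0, fun _ => ko.mu_pos, (GA.sMul _ _ _ _ _ (GA.GAFrA.fr_sB (fun _ => Real.exp_pos _)
    (ok.fr ω hω).fr)).jac, fun a b e => (ok.sC_ob ko hω t0 (by linarith) a b e).trans hA,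
    fun a b e e0 n => ok.sC_le ko hω t0 hw a b e e0 fun k => n ⟨k.1.1, k.1.2.1, k.1.2.2, k.2⟩,
    hN, (Real.exp_pos _).le⟩

/-- The rescaled constants are close to the constants. -/
theorem Wo.Ok.sC_near (ko : Ko σ) (ok : X.Ok σ m) (hω : ω ∈ X.P.S) {t h : ℝ} (t0 : 0 ≤ t)
    (hw : Vm σ * t + (h + 1) ≤ X.w) (a b e : κ) (e0 : 0 < σ.mu e) :
    |X.c ω a b e - sC (fun a => Real.exp (-(vt σ a * t))) (X.c ω) a b e| ≤ Real.exp (-h) := by
  by_cases k : Hw σ.mu a b e ∧ vt σ e = vt σ a + vt σ b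
  · rw [sC, mul_assoc, ← Real.exp_add, k.2, show -(vt σ a * t) + -(vt σ b * t) =
      -((vt σ a + vt σ b) * t) by ring, mul_div_cancel_right₀ _ (Real.exp_pos _).ne', sub_self,
      abs_zero]
    exact (Real.exp_pos _).le
  · have a1 := ok.sC_le ko hω t0 hw a b e e0 k
    have v0 : 0 ≤ Vm σ * t := mul_nonneg (by linarith [ko.le_Vm a, ko.v0 a]) t0
    have a2 := ((ok.alg ω hω).gr a b e e0 k).trans
      (Real.exp_le_exp.2 (show -X.w ≤ -(h + 1) by linarith))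
    have a3 : 2 * Real.exp (-(h + 1)) ≤ Real.exp (-h) := by
      rw [show -h = 1 + -(h + 1) by ring, Real.exp_add]
      exact mul_le_mul_of_nonneg_right (by linarith [Real.add_one_le_exp 1]) (Real.exp_pos _).le
    exact (abs_sub _ _).trans (by linarith)

theorem rowK : RowK := by
  intro ι κ _ _ _ _ σ wk ko _
  obtain ⟨N, hN⟩ : ∃ N : ℝ, N = Fintype.card κ := ⟨_, rfl⟩
  have N0 : 0 ≤ N := hN ▸ Nat.cast_nonneg _
  have L1 := ko.one
  have V1 : 1 ≤ Vm σ := by linarith [ko.le_Vm σ.τ, ko.v0 σ.τ]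
  obtain ⟨C, hC⟩ : ∃ C : ℝ, C = 2 * ((2 + 6 * N) * (3 * N + 1) + 3 * σ.L * N) +
    11 * (3 * N + 1) + 3 * σ.L + Vm σ + 2 := ⟨_, rfl⟩
  have c0 : 0 ≤ (2 + 6 * N) * (3 * N + 1) + 3 * σ.L * N := by positivity
  have C1 : 1 ≤ C := by linarith
  refine ⟨C, C1, fun X S m₀ m₁ h ok sk nu D hD ω hω hE m s ξ un ms a p p0 ps => ?_⟩
  obtain ⟨y, rfl⟩ : ∃ y, h = C * y := ⟨h / C, by field_simp⟩
  rw [mul_div_cancel_left₀ _ (by positivity)] at ms
  have ey : S.e ≤ y := le_of_mul_le_mul_left nu.lo (by positivity)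
  have e1 : 1 ≤ S.e := nu.e0.trans sk.le
  have y0 : 0 ≤ y := by linarith
  have M1 : (D : ℝ) + 1 ≤ X.M := by exact_mod_cast hD
  have D0 : (0 : ℝ) ≤ D := Nat.cast_nonneg D
  have rM : (S.r : ℝ) ≤ X.M := by exact_mod_cast nu.rM
  have hr : C * y ≤ S.r := le_trans (le_mul_of_one_le_left (by positivity) C1) nu.hi
  have w1 : Vm σ * D + (S.r + 1) ≤ X.w := by
    have : (Vm σ + 2) * X.M ≤ C * X.M := mul_le_mul_of_nonneg_right (by linarith) (by linarith)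
    nlinarith [nu.w]
  have v := sk.val D hD ω hω hE
  have r0 := rp_spec (X.C D) hω
  obtain ⟨A, hA⟩ : ∃ A, A = Real.exp ((3 * N + 1) * y) := ⟨_, rfl⟩
  have A1 : Real.exp S.e ≤ A := hA ▸ Real.exp_le_exp.2 (by nlinarith)
  have al := ok.al ko r0.1 D0 (Nat.cast_nonneg S.r) (by linarith)
    ((Real.exp_le_exp.2 sk.le).trans A1) (A := A) (by
      rw [← hN, hA]; nlinarith [Real.add_one_le_exp ((3 * N + 1) * y)])
  have ch := v.v.ch A1 le_rfl
  have rb := ok.rb (D := D) (by omega) r0.1 (h := 3 * σ.L * y) (by nlinarith)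
    (E := fun x => S.cp D x = S.cp D ω ∧ ∀ a, σ.G1 a → ∀ p, 0 < vt σ p → wk p = s →
      |∑ p', ξ p' * S.act σ D x a p p'| ≤ Real.exp (-(C * y))) (by
    rw [r0.2, ← cls_cell (sk.fC D hD) hω]
    refine lt_of_le_of_lt ?_ (mul_lt_mul' v.cm ms (Real.exp_pos _).le
      ((Real.exp_pos _).trans_le v.cm))
    rw [← Real.exp_add, mul_right_comm, mul_div_cancel_right₀ _ (by positivity)]
    exact Real.exp_le_exp.2 (by linarith [sk.le]))
  have k := fun a => ch.kill al rb (by positivity) (ok.sC_near ko r0.1 D0 w1) ξ un.1.le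
    (fun p z => ⟨(un.2 p z).1, (un.2 p z).2.2⟩) (fun b g => g.1)
    (fun x hx b _ e z => (ok.rr_gr r0.1 hx.1 z).1.symm) (η := Real.exp (-(C * y))) (by
      rw [hA, ← Real.exp_nat_mul, ← Real.exp_add]
      refine Real.exp_le_exp.2 ?_
      have : (11 * (3 * N + 1) + 1) * y ≤ C * y := mul_le_mul_of_nonneg_right (by linarith) y0
      have : (11 * (3 * N + 1) + 1) * (C * y) ≤ C * (C * y) :=
        mul_le_mul_of_nonneg_right (by linarith) (by positivity)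
      have : y ≤ C * y := le_mul_of_one_le_left y0 C1
      push_cast
      nlinarith [nu.hi]) (fun x hx b g q q0 qs => by
      obtain ⟨-, -, c1, c2⟩ := sk.cls hD hω hx.1 hx.2.1
      refine le_of_eq_of_le (congrArg _ ?_) (hx.2.2 b g q q0 qs)
      simp only [St.act, c1, c2, dotProduct]
      exact sum_congr rfl fun _ _ => (mul_comm _ _).trans (congrArg _ (ch.ac_eq _ _ _))) a p p0 ps
  refine (SB.Ch.ac_dot al ch (zero_le_one.trans al.one) (by positivity)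
    (fun e => (ch.ob a e).1) k).trans ?_
  rw [hA, ← Real.exp_nat_mul, ← Real.exp_add, ← Real.exp_nat_mul, ← Real.exp_add, ← Real.exp_add,
    ← Real.exp_add, ← hN]
  refine Real.exp_le_exp.2 ?_
  have : 2 * ((2 + 6 * N) * (3 * N + 1) + 3 * σ.L * N) * y ≤ C * y :=
    mul_le_mul_of_nonneg_right (by linarith) y0
  push_cast
  linarith

end Pool.Agent.MP_5168f5_an.QA.SH
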