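import Pool.Agent.MP_4b405e_nt.SK.SpB
import Pool.Agent.MP_4b405e_nt.SK.BFr
import Pool.Agent.MP_4b405e_nt.SK.Haz

/-! Sparse slopes, block B: a functional that sees the frame sees the source. -/

namespace Pool.Agent.MP_5168f5_an.QA.SH

open H19 H17S H17F R4 AN Filter Matrix Finset
open GA (Mt IsFr mB mC sC sB br)
open P7 (Kc)
open Cp (rp Hw rp_spec rp_eq)

variable {ι κ : Type} [Fintype ι] [DecidableEq ι] [Fintype κ] [DecidableEq κ]
  {σ : Kc ι κ} {wk : κ → ℝ} {X : Wo ι κ} {S : St X} {m₀ m s t : ℝ} {D d : ℕ} {ω v w : X.Ω}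
  {ξ l : κ → ℝ}

omit [DecidableEq κ] in
theorem sum_abs {f : κ → ℝ} {A : ℝ} (h : ∀ e, |f e| ≤ A) : |∑ e, f e| ≤ Fintype.card κ * A := by
  simpa using SB.sum_le (f := f) (g := fun _ => 1) (B := 1) h (by simp)

omit [DecidableEq κ] in
theorem dot_abs {x : κ → ℝ} {A : ℝ} (x1 : ∑ p, |ξ p| = 1) (A0 : 0 ≤ A)
    (h : ∀ p, ξ p ≠ 0 → |x p| ≤ A) : |x ⬝ᵥ ξ| ≤ A := by
  classical
  simpa using SB.dot_le A0 x1.le h

theorem mul3 {x y z A B C : ℝ} (hx : |x| ≤ A) (hy : |y| ≤ B) (hz : |z| ≤ C) :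
    |x * y * z| ≤ A * B * C := by
  rw [abs_mul, abs_mul]
  have := (abs_nonneg _).trans hx
  have := (abs_nonneg _).trans hy
  exact mul_le_mul (mul_le_mul hx hy (abs_nonneg _) (by assumption)) hz (abs_nonneg _)
    (by positivity)

omit [DecidableEq κ] in
theorem br_dot (c : κ → κ → κ → ℝ) (x y ξ : κ → ℝ) :
    br c x y ⬝ᵥ ξ = ∑ a, ∑ b, x a * y b * (c a b ⬝ᵥ ξ) := by
  simp only [br, dotProduct, sum_mul, mul_sum]
  rw [sum_comm]
  refine sum_congr rfl fun a _ => ?_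
  rw [sum_comm]
  exact sum_congr rfl fun b _ => sum_congr rfl fun e _ => by ring

/-- The finite core: in a subcap on which robustness holds the functional kills the frame. -/
theorem St.src (ko : Ko σ) (ok : X.Ok σ m₀) (hw : w ∈ X.P.S) (k : S.Val σ wk D w)
    (hD : D + d ≤ 2 * X.M) (un : Un σ wk m s ξ) (s0 : 0 < s) (wi : S.Wit σ wk D s t ξ w)
    {A hs : ℝ} (A1 : 1 ≤ A) (hA : Real.exp X.e ≤ A) (hφ : ∀ a p, |S.φ σ D w w a p| ≤ A)
    (hq : ∀ a b e, |S.cq σ D w a b e| ≤ A) (n1 : Vm σ * D + t ≤ X.w)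
    (n2 : s * d + t ≤ S.r) (n3 : ∀ e, s < vt σ e → t ≤ (vt σ e - s) * d) {F : X.Ω → Prop}
    (hF : ∀ v, F v → v ∈ X.P.S ∧ X.C (D + d) w = X.C (D + d) v ∧ ∀ a, σ.G1 a →
      |Real.exp (s * d) * (S.φ σ D w v a ⬝ᵥ ξ - S.φ σ D w w a ⬝ᵥ ξ)| ≤ 2 * Real.exp (-t))
    (rb : SB.Rb σ.mu σ.G1 (X.c w) (fun v => X.rr σ (D + d : ℕ) w v) F hs) (a : κ)
    (ha : vt σ a = s) : |S.φ σ D w w a ⬝ᵥ ξ| ≤ Real.exp hs *
      ((Fintype.card κ ^ 2 + Fintype.card κ + 2) * (A * A * Real.exp (-t))) := by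
  classical
  obtain ⟨δ, hδ⟩ : ∃ δ, δ = Real.exp (-t) := ⟨_, rfl⟩
  obtain ⟨Φ, hΦ⟩ : ∃ Φ : κ → ℝ, Φ = fun e => S.φ σ D w w e ⬝ᵥ ξ := ⟨_, rfl⟩
  have d0 : 0 < δ := hδ ▸ Real.exp_pos _
  have D0 : (0 : ℝ) ≤ D := Nat.cast_nonneg _
  have sd : 0 ≤ s * d := by positivity
  have N0 : (0 : ℝ) ≤ Fintype.card κ := Nat.cast_nonneg _
  have AA : δ * A ≤ A * A * δ := by nlinarith [mul_pos d0 (zero_lt_one.trans_le A1)]
  have AB : δ ≤ A * A * δ := by nlinarith [mul_pos d0 (zero_lt_one.trans_le A1)]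
  have p1 : ∀ e, |Φ e| ≤ A := fun e => hΦ ▸ dot_abs un.1 (by linarith) fun p _ => hφ e p
  have p2 : ∀ e, Φ e ≠ 0 → 0 < σ.mu e ∧ σ.mu e = m := fun e he => by
    rw [hΦ] at he
    obtain ⟨p, -, z⟩ := exists_ne_zero_of_sum_ne_zero he
    have a1 := (k.phi_gr ok hw hw (left_ne_zero_of_mul z)).1
    have a2 := un.2 p (right_ne_zero_of_mul z)
    exact ⟨a1 ▸ ko.mu_pos a2.1, a1.trans a2.2.1⟩
  have v2 : ∀ e p, 0 < vt σ e → 0 < vt σ p → vt σ e < wk p →
      |S.φ σ D w w e p| ≤ Real.exp (-S.r) := k.v.v2 w ⟨hw, rfl⟩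
  have r1 : Real.exp (-(S.r : ℝ)) ≤ δ := hδ ▸ Real.exp_le_exp.2 (by linarith)
  have p3 : ∀ e, 0 < vt σ e → vt σ e < s → |Φ e| ≤ Real.exp (-S.r) := fun e e0 e1 =>
    hΦ ▸ dot_abs un.1 (Real.exp_pos _).le fun p hp =>
      v2 e p e0 (un.2 p hp).1 (e1.trans_eq (un.2 p hp).2.2.symm)
  have sm : ∀ (f : κ → ℝ) (g : κ → Prop) [DecidablePred g], (∀ e, g e → Φ e ≠ 0 → |f e| ≤ δ) →
      |∑ e, f e * (if g e then Φ e else 0)| ≤ Fintype.card κ * (A * A * δ) := fun f g _ h =>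
    sum_abs fun e => by
      by_cases z : g e ∧ Φ e ≠ 0
      · rw [if_pos z.1, abs_mul]
        exact (mul_le_mul (h e z.1 z.2) (p1 e) (abs_nonneg _) d0.le).trans AA
      · rw [show (if g e then Φ e else 0) = 0 by
          split_ifs with y
          exacts [not_not.1 fun x => z ⟨y, x⟩, rfl], mul_zero, abs_zero]
        positivity
  have c1 : ∀ b b', 0 < vt σ b' → vt σ b + vt σ b' = s →
      |∑ e, X.c w b b' e * (if vt σ e = s then Φ e else 0)| ≤
        (Fintype.card κ ^ 2 + Fintype.card κ) * (A * A * δ) := fun b b' b0 e => by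
    have a1 := congrArg (· ⬝ᵥ ξ) (St.phi_br (S := S) ok hw hw k.v.inv b b')
    simp only [br_dot, ← dotProduct_mulVec] at a1
    have a2 : ∑ e, X.c w b b' e * (if vt σ e = s then Φ e else 0) =
        sC (fun a => Real.exp (-(vt σ a * D))) (X.c w) b b' ⬝ᵥ (S.φ σ D w w *ᵥ ξ) -
        ∑ e, sC (fun a => Real.exp (-(vt σ a * D))) (X.c w) b b' e *
          (if vt σ e ≠ s then Φ e else 0) := by
      rw [dotProduct, ← sum_sub_distrib]
      refine sum_congr rfl fun f _ => ?_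
      change _ = _ * (S.φ σ D w w f ⬝ᵥ ξ) - _
      rw [show S.φ σ D w w f ⬝ᵥ ξ = Φ f by rw [hΦ]]
      by_cases z : vt σ f = s
      · rw [if_pos z, if_neg (not_not.2 z), mul_zero, sub_zero, sC, mul_assoc (X.c w b b' f),
          mul_div_assoc, ← Real.exp_add, ← Real.exp_sub, z, ← e,
          show -(vt σ b * D) + -(vt σ b' * D) - -((vt σ b + vt σ b') * D) = 0 by ring,
          Real.exp_zero, mul_one]
      · rw [if_neg z, if_pos z, mul_zero, sub_self]
    have a3 := sm (sC (fun a => Real.exp (-(vt σ a * D))) (X.c w) b b') (fun f => vt σ f ≠ s)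
      fun f z y => hδ ▸ ok.sC_le ko hw D0 n1 b b' f (p2 f y).1 fun x => z (x.2.trans e)
    have a4 : |∑ x, ∑ y, S.φ σ D w w b x * S.φ σ D w w b' y * (S.cq σ D w x y ⬝ᵥ ξ)| ≤
        Fintype.card κ * (Fintype.card κ * (A * A * δ)) := sum_abs fun x => sum_abs fun y => by
      by_cases z : S.φ σ D w w b' y = 0
      · rw [z, mul_zero, zero_mul, abs_zero]; positivity
      · have y0 := (k.phi_gr ok hw hw z).2 b0
        rcases le_or_gt (wk y) s with u | u
        · exact mul3 (hφ b x) (hφ b' y) (hδ ▸ wi x y y0 u)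
        · exact (mul3 (hφ b x) ((v2 b' y b0 y0 (by linarith [ko.v0 b])).trans r1)
            (dot_abs un.1 (by linarith) fun p _ => hq x y p)).trans_eq (by ring)
    rw [a2, a1]
    exact (abs_sub _ _).trans (by linarith)
  have K0 : 0 ≤ A * A * δ := by positivity
  have N2 := mul_nonneg (sq_nonneg (Fintype.card κ : ℝ)) K0
  have N1 := mul_nonneg N0 K0
  have := rb.small (l := fun e => if vt σ e = s then Φ e else 0) (s := m)
    (δ := (Fintype.card κ ^ 2 + Fintype.card κ + 2) * (A * A * δ)) (by positivity)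
    (fun e he => p2 e fun z => he (by simp [z])) (fun b b' _ _ => ?_) fun v hv b hb => ?_
  · rw [← hδ]
    refine le_trans ?_ this
    simpa [ha, hΦ] using single_le_sum (f := fun e => |if vt σ e = s then Φ e else 0|)
      (fun _ _ => abs_nonneg _) (mem_univ a)
  · by_cases e : vt σ b + vt σ b' = s
    · rcases (ko.v0 b').eq_or_lt with z | z
      · have a1 := c1 b' b (by linarith) (by linarith)
        simp only [(GA.sMul _ _ _ _ _ (ok.fr w hw).fr).anti b' b, neg_mul, sum_neg_distrib,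
          abs_neg] at a1
        linarith
      · linarith [c1 b b' z e]
    · have := sm (X.c w b b') (fun f => vt σ f = s) fun f z y =>
        ((ok.alg w hw).gr b b' f (p2 f y).1 fun x => e (x.2.symm.trans z)).trans
          (hδ ▸ Real.exp_le_exp.2 (by nlinarith [ko.le_Vm b, ko.v0 b]))
      linarith
  · obtain ⟨v1, v2', v3⟩ := hF v hv
    have b0 := g1_vt hb
    have a1 := v3 b hb
    have a2 : Real.exp (s * d) * (S.φ σ D w v b ⬝ᵥ ξ - S.φ σ D w w b ⬝ᵥ ξ) =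
        ∑ e, Real.exp (s * d) * ((X.rr σ D w v b e - (1 : Matrix κ κ ℝ) b e) * Φ e) := by
      have q : ∀ R : Matrix κ κ ℝ, (R * S.φ σ D w w) b ⬝ᵥ ξ = ∑ e, R b e * Φ e := fun R => by
        simp only [hΦ, dotProduct, mul_apply, sum_mul, mul_sum, mul_assoc]
        exact sum_comm
      rw [← mul_sum, St.phi_coc ok hw v1 hw, q]
      simp only [sub_mul, sum_sub_distrib]
      rw [← q 1, Matrix.one_mul]
    have rr : ∀ e, |X.rr σ (D + d : ℕ) w v b e| ≤ A := fun e =>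
      (ok.ri _ hD w hw v v1 v2' b e).trans hA
    have a3 : |∑ e, (Real.exp (s * d) * ((X.rr σ D w v b e - (1 : Matrix κ κ ℝ) b e) * Φ e) -
        (if vt σ e = s then Φ e else 0) * X.rr σ (D + d : ℕ) w v b e)| ≤
        Fintype.card κ * (A * A * δ) := sum_abs fun e => by
      have x : 0 < vt σ e → Real.exp (s * d) * ((X.rr σ D w v b e - (1 : Matrix κ κ ℝ) b e) * Φ e) =
          X.rr σ (D + d : ℕ) w v b e * Real.exp ((s - vt σ e) * d) * Φ e := fun e0 => by
        have y : Real.exp (s * d) * Real.exp ((vt σ e - vt σ b) * D) =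
            Real.exp ((vt σ e - vt σ b) * (D + d : ℕ)) * Real.exp ((s - vt σ e) * d) := by
          rw [← Real.exp_add, ← Real.exp_add, b0]
          congr 1
          push_cast
          ring
        rw [one_apply_ne fun z : b = e => by rw [← z, b0] at e0; exact e0.false, sub_zero]
        simp only [Wo.rr]
        linear_combination (X.R w v b e * Φ e) * y
      by_cases z : vt σ e = s
      · rw [x (z ▸ s0), if_pos z, z, sub_self, zero_mul, Real.exp_zero, mul_one, mul_comm,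
          sub_self, abs_zero]
        exact K0
      rw [if_neg z, zero_mul, sub_zero]
      by_cases y : X.rr σ D w v b e = (1 : Matrix κ κ ℝ) b e
      · rw [y, sub_self, zero_mul, mul_zero, abs_zero]
        exact K0
      have e0 : 0 < vt σ e := b0 ▸ (ok.rr_up hw v1 y).2
      rw [x e0]
      rcases lt_or_gt_of_ne z with u | u
      · rw [mul_assoc, abs_mul, abs_mul, Real.abs_exp]
        refine (mul_le_mul (rr e) (mul_le_mul_of_nonneg_left (p3 e e0 u) (Real.exp_pos _).le)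
          (by positivity) (by linarith)).trans (le_trans ?_ ((mul_comm _ _).trans_le AA))
        rw [← Real.exp_add, hδ]
        exact mul_le_mul_of_nonneg_left (Real.exp_le_exp.2 (by
          nlinarith [mul_nonneg e0.le (Nat.cast_nonneg (α := ℝ) d)])) (by linarith)
      · refine (mul3 (rr e) (B := δ) ?_ (p1 e)).trans_eq (by ring)
        rw [Real.abs_exp, hδ]
        exact Real.exp_le_exp.2 (by linarith [n3 e u])
    rw [sum_sub_distrib, ← a2] at a3
    rw [← hδ] at a1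
    have a4 := abs_le.1 a1
    have a5 := abs_le.1 a3
    rw [abs_le]
    constructor <;> linarith [a4.1, a4.2, a5.1, a5.2]

theorem rowL : RowL := by
  intro ι κ _ _ _ _ σ wk ko sh
  obtain ⟨γ, g0, hg⟩ := As.ex_gap fun x : κ × κ => vt σ x.1 - vt σ x.2
  obtain ⟨N, hN⟩ : ∃ N : ℝ, N = Fintype.card κ := ⟨_, rfl⟩
  have N1 : 1 ≤ N := by
    have : Nonempty κ := ⟨σ.τ⟩
    rw [hN]; exact_mod_cast Fintype.card_pos
  have V1 : 1 ≤ Vm σ := by linarith [ko.le_Vm σ.τ, ko.v0 σ.τ]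
  have L1 := ko.one
  have g1 := inv_pos.2 g0
  refine ⟨γ⁻¹ + 24 * σ.L + 128 * (N + 1) + Vm σ + 1, by linarith,
    fun X S m₀ m₁ h ok k nu D hD d d1 d2 ω hω hE m s ξ l un wi => ?_⟩
  obtain ⟨C, hC⟩ : ∃ C, C = γ⁻¹ + 24 * σ.L + 128 * (N + 1) + Vm σ + 1 := ⟨_, rfl⟩
  rw [← hC] at nu d2 ⊢
  have C1 : 1 ≤ C := by linarith
  have e1 : 1 ≤ S.e := nu.e0.trans k.le
  have h0 : 0 ≤ h := le_trans (by positivity) nu.lo
  have rM : (S.r : ℝ) ≤ X.M := by exact_mod_cast nu.rM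
  have hr : h ≤ S.r := (le_mul_of_one_le_left h0 C1).trans nu.hi
  have d0 : (0 : ℝ) ≤ d := Nat.cast_nonneg _
  have DM : (D : ℝ) ≤ X.M := by exact_mod_cast hD.le
  have M0 : (0 : ℝ) ≤ X.M := Nat.cast_nonneg _
  have n1 : Vm σ * D + h ≤ X.w := le_trans (by
    nlinarith [mul_le_mul_of_nonneg_left DM (zero_le_one.trans V1),
      mul_le_mul_of_nonneg_right (show Vm σ + 1 ≤ C by linarith) M0]) nu.w
  have dD : D + d ≤ 2 * X.M := by
    have : (d : ℝ) ≤ X.M := by nlinarith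
    have : d ≤ X.M := by exact_mod_cast this
    omega
  obtain ⟨p, -, hp⟩ := exists_ne_zero_of_sum_ne_zero (un.1.trans_ne one_ne_zero)
  obtain ⟨p1, -, p2⟩ := un.2 p (abs_ne_zero.1 hp)
  obtain ⟨a₀, a1, a2⟩ := sh p p1
  have hs : s = vt σ a₀ := p2.symm.trans a2
  obtain ⟨F, hF⟩ : ∃ F : X.Ω → Prop, F = fun v => S.cp D v = S.cp D ω ∧
    S.Thin σ wk D d s h ξ (l (X.C (D + d) v)) v ∧ ¬S.Ev σ D s (h / 4) ξ v := ⟨_, rfl⟩
  have key : ∀ w ∈ X.P.S, pb (cv X.P (X.C (D + d)) (X.C (D + d) w)) F ≤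
      Real.exp (X.e - h / 8 / σ.L) := fun w₀ hw₀ => by
    by_contra n
    replace n := not_le.1 n
    obtain ⟨w, w1, w2⟩ := ex_of_pb ((Real.exp_pos _).trans n)
    obtain ⟨hw, w3⟩ := (MX.mem_cv hw₀ w).1 w1
    rw [← w3] at n
    rw [hF] at w2
    obtain ⟨c1, c2, c3, c4⟩ := k.cls hD hω hw w2.1
    have va := k.val D hD w hw (c2.2 hE)
    refine w2.2.2 fun a ha => (St.src ko ok hw va dD un (hs ▸ a1) (t := h / 2)
      (fun a p u u' => c3 ▸ wi a p u u') (A := Real.exp (3 * N + 4 * S.e)) (hs := h / 8)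
      (Real.one_le_exp (by linarith)) (Real.exp_le_exp.2 (by linarith [k.le])) (fun a p => ?_)
      (fun a b e => ?_) (by linarith) ?_ (fun e u => ?_)
      (F := fun v => v ∈ (cv X.P (X.C (D + d)) (X.C (D + d) w)).S ∧ F v) (fun v hv => ?_)
      (fun l s h1 h2 h3 => ?_) a ha).trans ?_
    · refine (va.phi_le ok (by omega) hw hw rfl a p).trans ?_
      rw [← hN, ← Real.exp_add]
      refine (mul_le_mul_of_nonneg_right (show N ≤ Real.exp N by
        linarith [Real.add_one_le_exp N]) (Real.exp_pos _).le).trans ?_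
      rw [← Real.exp_add]
      exact Real.exp_le_exp.2 (by linarith [k.le])
    · refine (va.cq_le ko ok hw (by linarith) a b e).trans ?_
      rw [← hN, ← Real.exp_nat_mul, ← Real.exp_add]
      refine (mul_le_mul_of_nonneg_right (pow_le_pow_left₀ (by linarith) (show N ≤ Real.exp N by
        linarith [Real.add_one_le_exp N]) 3) (Real.exp_pos _).le).trans ?_
      rw [← Real.exp_nat_mul, ← Real.exp_add]
      exact Real.exp_le_exp.2 (by push_cast; linarith [k.le])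
    · nlinarith [mul_le_mul_of_nonneg_right (show s ≤ Vm σ by linarith [ko.le_Vm a₀]) d0]
    · have b1 : γ ≤ vt σ e - s := hs ▸ hg (e, a₀) (sub_pos.2 (hs ▸ u))
      have b2 : γ⁻¹ * h ≤ d := (mul_le_mul_of_nonneg_right (by linarith) h0).trans d2
      rw [inv_mul_le_iff₀ g0] at b2
      nlinarith [mul_le_mul_of_nonneg_right b1 d0]
    · obtain ⟨v1, v2⟩ := (MX.mem_cv hw v).1 hv.1
      have v3 := hv.2
      rw [hF] at v3
      refine ⟨v1, v2.symm, fun a ha => ?_⟩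
      have b1 := abs_le.1 (v3.2.1 a ha).2
      have b2 := abs_le.1 (w2.2.1 a ha).2
      rw [(k.cls hD hw v1 (v3.1.trans w2.1.symm)).2.2.2, v2] at b1
      have b3 : Real.exp (-h) ≤ Real.exp (-(h / 2)) := Real.exp_le_exp.2 (by linarith)
      simp only [dotProduct, mul_comm _ (ξ _)]
      rw [mul_sub, abs_le]
      constructor <;> linarith [b1.1, b1.2, b2.1, b2.2]
    · by_contra z
      push Not at z
      exact n.not_ge ((pb_mono fun v hv e => z v ⟨hv, e⟩).trans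
        (ok.rob _ dD w hw (h / 8) (by nlinarith [mul_nonneg (zero_le_one.trans V1) (Nat.cast_nonneg
          (α := ℝ) D)]) l s h1 h2 h3))
    · rw [← hN]
      have b1 : N ^ 2 + N + 2 ≤ Real.exp (N + 1) * Real.exp (N + 1) := by
        nlinarith [Real.add_one_le_exp (N + 1)]
      refine (mul_le_mul_of_nonneg_left (mul_le_mul_of_nonneg_right b1 (by positivity))
        (Real.exp_pos _).le).trans ?_
      simp only [← Real.exp_add]
      refine Real.exp_le_exp.2 ?_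
      nlinarith [nu.lo, mul_le_mul_of_nonneg_right (show 128 * (N + 1) ≤ C by linarith)
        (zero_le_one.trans e1), mul_le_mul_of_nonneg_left e1 (zero_le_one.trans N1)]
  have t1 : pb (cv X.P (X.C D) (X.C D ω)) F ≤ Real.exp (X.e - h / 8 / σ.L) := by
    refine S20.pb_tot_le (X.C (D + d)) fun w hw => le_of_eq_of_le ?_ (key w (cE_sub hw))
    obtain ⟨w1, w2⟩ := (MX.mem_cv hω w).1 hw
    have f := ok.nest D (D + d) (Nat.le_add_right _ _) dD
    rw [← w2, Cx.cv_cv w1]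
    exact congrArg (pb · F) (Cx.cv_congr w1 (Fn.pair (fun _ _ _ _ e => e) f) (Fn.fst _ _))
  have t2 : MX.cm X.P (X.C D) (S.cp D) ω * pb (cv X.P (S.cp D) (S.cp D ω)) (fun v =>
      S.Thin σ wk D d s h ξ (l (X.C (D + d) v)) v ∧ ¬S.Ev σ D s (h / 4) ξ v) =
      pb (cv X.P (X.C D) (X.C D ω)) F := by
    rw [hF, ← S20.pb_cv, Cx.cv_cv hω, MX.cm]
    exact congrArg (fun Q => _ * pb Q _)
      (Cx.cv_congr hω (Fn.fst _ _) (Fn.pair (fun _ _ _ _ e => e) (k.fC D hD)))
  have t3 := (mul_le_mul_of_nonneg_right (k.val D hD ω hω hE).cm (pb_nonneg _ _)).trans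
    (t2.trans_le t1)
  rw [Real.exp_neg, inv_mul_le_iff₀ (Real.exp_pos _), ← Real.exp_add] at t3
  refine t3.trans (Real.exp_le_exp.2 ?_)
  have b1 : S.e ≤ h / C := by rw [le_div_iff₀ (by linarith)]; linarith [nu.lo]
  have b2 : 3 * (h / C) ≤ h / 8 / σ.L := by
    rw [div_div, ← mul_div_assoc, div_le_div_iff₀ (by linarith) (by linarith)]
    nlinarith [mul_le_mul_of_nonneg_left (show 24 * σ.L ≤ C by linarith) h0]
  linarith [k.le]

end Pool.Agent.MP_5168f5_an.QA.SH
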