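import Pool.Agent.MP_4b405e_nt.SK.SpB

/-! Sparse heights, block B: the step of the descent. -/

namespace Pool.Agent.MP_5168f5_an.QA.SH

open H19 H17S H17F R4 AN Filter Matrix Finset
open GA (mC sC)
open P7 (Kc)
open Cp (rp rp_spec rp_eq Hw)
open SB (Cut)

variable {ι κ : Type} [Fintype ι] [DecidableEq ι] [Fintype κ] [DecidableEq κ] {σ : Kc ι κ}
  {wk : κ → ℝ}

/-- On the part `A` of the class `k` a unit functional kills the brackets and the frames. -/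
def St.Gp (σ : Kc ι κ) (wk : κ → ℝ) {X : Wo ι κ} (S : St X) (h : ℝ) (D : ℕ) (k : S.β)
    (A : X.Ω → Prop) : Prop :=
  ∃ ω ∈ X.P.S, S.cp D ω = k ∧ S.E D ω ∧ ∃ m s ξ, Un σ wk m s ξ ∧
    (∀ a p, 0 < vt σ p → wk p ≤ s → |S.cq σ D ω a p ⬝ᵥ ξ| ≤ Real.exp (-h)) ∧
    ∀ v ∈ X.P.S, S.cp D v = k → A v → ∀ a, vt σ a = s → |S.φ σ D ω v a ⬝ᵥ ξ| ≤ Real.exp (-h)

theorem St.gp {X : Wo ι κ} {S : St X} {m : ℝ} (o : S.Ok σ wk m) {h : ℝ} {D : ℕ} (hD : D < X.M)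
    {k : S.β} {A : X.Ω → Prop} (g : S.Gd σ wk h D k A) : S.Gp σ wk h D k A := by
  obtain ⟨ω, hω, rfl, g, m, s, ξ, u, t1, t2⟩ := g
  refine ⟨ω, hω, rfl, g, m, s, ξ, u, t1, fun v hv z a b y => ?_⟩
  have e : S.q' D v = S.q' D ω := congrArg (·.2.2) (o.fE D hD v hv ω hω z)
  have := t2 v hv z a b y
  simp only [St.φ, rp_eq X.P (o.fC D hD v hv ω hω z)] at this ⊢
  exact e ▸ this

omit [DecidableEq κ] in
theorem Ko.vt_le30 (k : Ko σ) (a : κ) : vt σ a ≤ Vm σ :=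
  (single_le_sum (f := vt σ) (fun b _ => k.v0 b) (mem_univ a)).trans (by unfold Vm; linarith)

theorem Wo.Ok.cc_le30 {X : Wo ι κ} {m : ℝ} (h : X.Ok σ m) (k : Ko σ) (hw : Vm σ * X.M ≤ X.w)
    {D : ℕ} (hD : D ≤ X.M) {ω : X.Ω} (hω : ω ∈ X.P.S) (a b e : κ) :
    |X.cc σ D ω a b e| ≤ Real.exp X.e := by
  have al := h.alg _ (rp_spec (X.C D) hω).1
  have e0 : 0 ≤ X.e := (Nat.cast_nonneg _).trans h.ke.2.1
  have D0 : (0 : ℝ) ≤ D := Nat.cast_nonneg _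
  have q : |X.cc σ D ω a b e| = |X.c (rp X.P (X.C D) ω) a b e| *
      Real.exp ((vt σ e - vt σ a - vt σ b) * D) := by
    simp only [Wo.cc, sC]
    rw [mul_assoc, mul_div_assoc, ← Real.exp_add, ← Real.exp_sub, abs_mul,
      abs_of_pos (Real.exp_pos _)]
    congr 2
    ring
  rw [q]
  by_cases z : vt σ e ≤ vt σ a + vt σ b
  · exact (mul_le_of_le_one_right (abs_nonneg _) (Real.exp_le_one_iff.2
      (mul_nonpos_of_nonpos_of_nonneg (by linarith) D0))).trans (al.ob a b e)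
  · have m0 : 0 < σ.mu e := (k.m0 e).lt_of_ne' fun y => z (by linarith [k.dead e y, k.v0 a, k.v0 b])
    refine (mul_le_mul_of_nonneg_right (al.gr a b e m0 fun y => z y.2.le) (Real.exp_pos _).le).trans
      ?_
    rw [← Real.exp_add, Real.exp_le_exp]
    have : (D : ℝ) ≤ X.M := by exact_mod_cast hD
    have v := k.vt_le30 e
    nlinarith [k.v0 a, k.v0 b, k.v0 e, mul_le_mul v this D0 ((k.v0 e).trans v)]

/-- The numerical conditions of a step. -/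
structure Nu (N e r h θ ε ε' e' r' : ℝ) : Prop where
  e0 : 0 < ε
  e1 : ε ≤ 1 / 2
  e2 : 0 ≤ ε'
  e3 : ε' ≤ 1 / 2
  n1 : (1 + N / ε) * Real.exp e ≤ Real.exp e'
  n2 : (1 + N / ε) ^ 2 * max (Real.exp (-r))
    (N / ε * (Real.exp (-h) + ε' * (N ^ 3 * Real.exp e ^ 4))) ≤ Real.exp (-r')
  n3 : Real.exp (-e') ≤ Real.exp (-e) * θ
  n4 : r' ≤ r ∧ e ≤ e'

/-- `w s` is the value after `s`. -/
def Nx (σ : Kc ι κ) (w : ℝ → ℝ) : Prop := ∀ s, s ≤ w s ∧ ∀ b, vt σ b < w s → vt σ b ≤ s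

namespace St

variable {X : Wo ι κ} {S : St X} {m₀ m : ℝ}

/-- The part `A` of the class `k` has the adapted basis `z`. -/
def Fi (σ : Kc ι κ) (wk : κ → ℝ) (S : St X) (e r : ℝ) (D : ℕ) (k : S.β) (A : X.Ω → Prop)
    (z : Matrix κ κ ℝ × Matrix κ κ ℝ) : Prop := ∀ ω ∈ X.P.S, S.cp D ω = k →
  SB.Val σ.mu (vt σ) wk σ.Pz (X.cc σ D ω) (X.rr σ D (rp X.P (X.C D) ω))
    (fun v => v ∈ X.P.S ∧ S.cp D v = k ∧ A v) z.1 z.2 (Real.exp e) (Real.exp (-r))

theorem one (x : X.Ok σ m₀) (ko : Ko σ) (hw : Vm σ * X.M ≤ X.w) (h : S.Ok σ wk m)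
    (sh : ∀ p, 0 < vt σ p → ∃ a, wk p = vt σ a) {w : ℝ → ℝ} (nx : Nx σ w) {η θ : ℝ}
    {ε ε' e' r' : Bool → ℝ}
    (nu : ∀ b, Nu (Fintype.card κ) S.e S.r η θ (ε b) (ε' b) (e' b) (r' b))
    (two : ∀ t : ℝ, ∃ b, ε b ≤ t ∨ t ≤ ε' b) {D : ℕ} (hD : D < X.M) {k : S.β} {A : X.Ω → Prop}
    (g : S.Gp σ wk η D k A) : ∃ j : Bool × κ, 0 < vt σ j.2 ∧
      ∃ z, S.Fi σ (Function.update wk j.2 (w (wk j.2))) (e' j.1) (r' j.1) D k A z := by
  obtain ⟨ω, hω, rfl, hE, mm, s, ξ, u, t1, t2⟩ := g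
  obtain ⟨b, hb⟩ := two (SB.sg σ.Pz ξ)
  have n := nu b
  have v := (h.val D hD ω hω hE).v
  obtain ⟨p₀, -⟩ := exists_ne_zero_of_sum_ne_zero (u.1.trans_ne one_ne_zero)
  have N1 : (1 : ℝ) ≤ Fintype.card κ := by
    exact_mod_cast Fintype.card_pos_iff.2 ⟨p₀⟩
  have e0 : 0 ≤ X.e := (Nat.cast_nonneg _).trans x.ke.2.1
  have le := Real.exp_le_exp.2 h.le
  have o1 := Real.one_le_exp (e0.trans h.le)
  obtain ⟨p, f, f', xp, val⟩ := v.step (E' := fun v => v ∈ X.P.S ∧ S.cp D v = S.cp D ω ∧ A v) ξ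
    (K := Fintype.card κ ^ 3 * Real.exp S.e ^ 4) (m := mm) (w := s) (w' := w s)
    (η := Real.exp (-η)) (Real.exp_pos _).le n.e0 n.e1 n.e2 n.e3 u.1 hb (fun y k => ⟨k.1, k.2.1⟩)
    (fun b k => ⟨(u.2 b k).2.1, (u.2 b k).1, (u.2 b k).2.2⟩) (nx s).1
    (fun b b0 k => by
      obtain ⟨a, ha⟩ := sh b b0
      rw [ha] at k ⊢
      exact (nx s).2 a k)
    (nx s).2
    (fun a b e => (v.mC_le (fun a b e => (x.cc_le30 ko hw hD.le hω a b e).trans le) a b e).trans_eq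
      (by ring))
    (fun y hy a e => by
      have r := rp_spec (X.C D) hω
      refine (SB.mul_le (fun b => (x.ri D (by omega) _ r.1 y hy.1
        (r.2.trans (h.fC D hD y hy.1 ω hω hy.2.1).symm) a b).trans le)
        fun b => (v.ob b e).2).trans ?_
      exact mul_le_mul (le_self_pow₀ N1 three_ne_zero)
        (by rw [← pow_two]; exact pow_le_pow_right₀ o1 (by norm_num)) (by positivity) (by positivity))
    t1 fun y hy a k => t2 y hy.1 hy.2.1 hy.2.2 a k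
  refine ⟨(b, p), (u.2 p xp).1, (f, f'), fun v hv e => ?_⟩
  have c := rp_eq X.P (h.fC D hD v hv ω hω e)
  simp only [Wo.cc, c, (u.2 p xp).2.2]
  exact val.mono (fun _ k => k) n.n1 n.n2

/-- The new state. -/
noncomputable def nw (σ : Kc ι κ) (wk : κ → ℝ) (S : St X) (e : ℝ) (r : ℕ) (R : ℕ → X.Ω → Prop)
    (s : ℕ → X.Ω → ℕ) : St X :=
  ⟨S.β × Prop × ℕ, r, e, fun D v => (S.cp D v, R D v, s D v),
    fun D v => R D v ∧ ∃ z, S.Fi σ wk e r D (S.cp D v) (fun y => R D y ∧ s D y = s D v) z,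
    fun D v => (Classical.epsilon
      (S.Fi σ wk e r D (S.cp D v) fun y => R D y ∧ s D y = s D v)).1,
    fun D v => (Classical.epsilon
      (S.Fi σ wk e r D (S.cp D v) fun y => R D y ∧ s D y = s D v)).2⟩

theorem nw_ok {wk' : κ → ℝ} (h : S.Ok σ wk m) {e θ m' : ℝ} {r : ℕ} {R : ℕ → X.Ω → Prop}
    {s : ℕ → X.Ω → ℕ} {G : ℕ → S.β → (X.Ω → Prop) → Prop}
    (c : ∀ D < X.M, Cut X.P (S.cp D) X.lam (G D) θ (R D) (s D)) (hr : r ≤ S.r) (he : S.e ≤ e)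
    (n3 : Real.exp (-e) ≤ Real.exp (-S.e) * θ)
    (g : ∀ D < X.M, ∀ ω ∈ X.P.S, R D ω → S.E D ω)
    (ms : m' * X.M ≤ ∑ D ∈ range X.M, pb X.P ((S.nw σ wk' e r R s).E D)) :
    (S.nw σ wk' e r R s).Ok σ wk' m' := by
  refine ⟨h.le.trans he, ?_, fun D hD a ha b hb z => ?_, fun D hD a ha b hb z => ?_,
    fun D hD a ha b hb z => ?_, fun D hD ω hω k => ⟨?_, ?_⟩, ms⟩
  · have : (r : ℝ) ≤ S.r := by exact_mod_cast hr
    exact (pow_le_pow_left₀ (Nat.cast_nonneg _) this 2).trans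
      (h.sq.trans (mul_le_mul_of_nonneg_right he (Nat.cast_nonneg _)))
  · exact Prod.ext (h.fl D hD a ha b hb z)
      (Prod.ext ((c D hD).fR a ha b hb z) ((c D hD).fs a ha b hb z))
  · exact h.fC D hD a ha b hb (congrArg Prod.fst z)
  · simp only [nw, Prod.mk.injEq] at z ⊢
    simp only [z.1, z.2.1, z.2.2, and_self]
  · refine (Classical.epsilon_spec k.2 ω hω rfl).mono (fun y hy => ?_) le_rfl le_rfl
    simp only [nw, Prod.mk.injEq] at hy
    exact ⟨hy.1, hy.2.1, hy.2.2.1 ▸ k.1, hy.2.2.2⟩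
  · have a := pb_cE (cv X.P (X.C D) (X.C D ω)) (fun v => S.cp D v = S.cp D ω)
      fun v => R D v ∧ s D v = s D ω
    rw [show cE (cv X.P (X.C D) (X.C D ω)) (fun v => S.cp D v = S.cp D ω) = _ from
      Cx.cv_fn hω (h.fC D hD)] at a
    refine n3.trans ((mul_le_mul (h.val D hD ω hω (g D hD ω hω k.1)).cm ((c D hD).ms ω hω k.1)
      ?_ (pb_nonneg _ _)).trans (a.le.trans (pb_mono fun v _ z => ?_)))
    · exact ((mul_pos_iff_of_pos_left (Real.exp_pos _)).1 ((Real.exp_pos _).trans_le n3)).le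
    · exact Prod.ext z.1 (Prod.ext (propext ⟨fun _ => k.1, fun _ => z.2.1⟩) z.2.2)

/-- No weight of a valid class exceeds all rates. -/
theorem top (x : X.Ok σ m₀) {D : ℕ} (hD : D < X.M) {ω : X.Ω} (hω : ω ∈ X.P.S)
    (v : S.Val σ wk D ω) {p : κ} (p0 : 0 < vt σ p) (hp : ∀ a, vt σ a < wk p) :
    1 ≤ Fintype.card κ ^ 2 * (Real.exp S.e * Real.exp X.e * Real.exp (-S.r)) := by
  have r := rp_spec (X.C D) hω
  refine v.v.top (Real.exp_pos _).le ⟨hω, rfl⟩ p0 hp (X.rr σ D ω (rp X.P (X.C D) ω)) ?_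
    (x.ri D (by omega) ω hω _ r.1 r.2.symm) fun a b a0 k => ?_
  · have c := (x.fr _ r.1).coc ω hω _ r.1
    rw [((x.fr _ r.1).one _ r.1 rfl).2.2] at c
    ext a b
    have : (X.rr σ D ω (rp X.P (X.C D) ω) * X.rr σ D (rp X.P (X.C D) ω) ω) a b =
        Real.exp ((vt σ b - vt σ a) * D) * (1 : Matrix κ κ ℝ) a b := by
      rw [c, mul_apply, mul_apply, mul_sum]
      refine sum_congr rfl fun e _ => ?_
      simp only [Wo.rr]
      rw [mul_mul_mul_comm, ← Real.exp_add]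
      congr 2
      ring
    rw [this, one_apply]
    split_ifs with k
    · simp [k]
    · simp
  · by_cases z : a = b
    · exact z ▸ a0
    · exact a0.trans ((x.fr ω hω).up _ r.1 a b (by
        rw [one_apply_ne z]; exact right_ne_zero_of_mul k)).2

end St

omit [DecidableEq κ] in
theorem ex_nx (σ : Kc ι κ) : ∃ w, Nx σ w ∧ ∀ s, (∃ a, s < vt σ a ∧ w s = vt σ a) ∨
    ∀ a, vt σ a < w s := by
  classical
  have : ∀ s : ℝ, ∃ t, (s ≤ t ∧ ∀ b, vt σ b < t → vt σ b ≤ s) ∧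
      ((∃ a, s < vt σ a ∧ t = vt σ a) ∨ ∀ a, vt σ a < t) := fun s => by
    by_cases k : (univ.filter fun a => s < vt σ a).Nonempty
    · obtain ⟨a, ha, hm⟩ := exists_min_image _ (vt σ) k
      have := (mem_filter.1 ha).2
      exact ⟨vt σ a, ⟨this.le, fun b hb => not_lt.1 fun z =>
        hb.not_ge (hm b (mem_filter.2 ⟨mem_univ _, z⟩))⟩, .inl ⟨a, this, rfl⟩⟩
    · have q : ∀ b, vt σ b ≤ s := fun b => not_lt.1 fun z => k ⟨b, mem_filter.2 ⟨mem_univ _, z⟩⟩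
      exact ⟨s + 1, ⟨by linarith, fun b _ => q b⟩, .inr fun b => by linarith [q b]⟩
  choose w h1 h2 using this
  exact ⟨w, h1, h2⟩

theorem nu_true {N Q C e r h x z e' r' : ℝ} (N1 : 1 ≤ N) (hQ : 4 * (1 + 2 * N) ^ 6 ≤ Real.exp Q)
    (Q0 : 0 ≤ Q) (hC : 4 + Q ≤ C) (e1 : 1 ≤ e) (x0 : 0 ≤ x) (z1 : 1 ≤ z) (zh : z ≤ h) (hr : h ≤ r)
    (a : e + x + C ≤ e') (b : r' + C * e ≤ z) :
    Nu N e r h (Real.exp (-x)) (1 / 2) (Real.exp (-z)) e' r' := by
  have t : 1 ≤ 1 + 2 * N := by linarith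
  have d : N / (1 / 2) = 2 * N := by ring
  refine ⟨by norm_num, le_rfl, (Real.exp_pos _).le, ?_, ?_, ?_, ?_, by nlinarith, by linarith⟩
  · rw [Real.exp_neg, one_div]
    exact inv_anti₀ two_pos (by linarith [Real.add_one_le_exp z])
  · rw [d]
    refine (mul_le_mul_of_nonneg_right (le_trans ?_ hQ) (Real.exp_pos _).le).trans ?_
    · linarith [le_self_pow₀ t (show 6 ≠ 0 by norm_num)]
    · rw [← Real.exp_add, Real.exp_le_exp]; linarith
  · rw [d]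
    have o : 1 ≤ N ^ 3 * Real.exp e ^ 4 :=
      one_le_mul_of_one_le_of_one_le (one_le_pow₀ N1) (one_le_pow₀ (Real.one_le_exp (by linarith)))
    have h1 : Real.exp (-h) ≤ Real.exp (-z) * (N ^ 3 * Real.exp e ^ 4) :=
      (Real.exp_le_exp.2 (neg_le_neg zh)).trans (le_mul_of_one_le_right (Real.exp_pos _).le o)
    have h2 : Real.exp (-r) ≤ Real.exp (-h) := Real.exp_le_exp.2 (neg_le_neg hr)
    have p := Real.exp_pos (-h)
    have h3 : max (Real.exp (-r)) (2 * N * (Real.exp (-h) +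
        Real.exp (-z) * (N ^ 3 * Real.exp e ^ 4))) ≤
        4 * N * (Real.exp (-z) * (N ^ 3 * Real.exp e ^ 4)) := max_le (by nlinarith) (by nlinarith)
    have h4 : N ^ 4 ≤ (1 + 2 * N) ^ 4 := pow_le_pow_left₀ (by linarith) (by linarith) 4
    calc _ ≤ (1 + 2 * N) ^ 2 * (4 * N * (Real.exp (-z) * (N ^ 3 * Real.exp e ^ 4))) := by gcongr
      _ = 4 * ((1 + 2 * N) ^ 2 * N ^ 4) * (Real.exp (-z) * Real.exp e ^ 4) := by ring
      _ ≤ 4 * ((1 + 2 * N) ^ 2 * (1 + 2 * N) ^ 4) * (Real.exp (-z) * Real.exp e ^ 4) := by gcongr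
      _ ≤ Real.exp Q * (Real.exp (-z) * Real.exp e ^ 4) := by
        rw [← pow_add]; gcongr
      _ ≤ _ := by
        rw [← Real.exp_nat_mul, ← Real.exp_add, ← Real.exp_add, Real.exp_le_exp]
        push_cast
        nlinarith
  · rw [← Real.exp_add, Real.exp_le_exp]; linarith

theorem nu_false {N Q C e r h x z e' r' : ℝ} (N1 : 1 ≤ N) (hQ : 4 * (1 + 2 * N) ^ 6 ≤ Real.exp Q)
    (Q0 : 0 ≤ Q) (hC : 4 + Q ≤ C) (x0 : 0 ≤ x) (z1 : 1 ≤ z) (hr : h ≤ r)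
    (a : e + x + z + C ≤ e') (b : r' + 3 * z + C ≤ h) :
    Nu N e r h (Real.exp (-x)) (Real.exp (-z)) 0 e' r' := by
  have t : 1 ≤ 1 + 2 * N := by linarith
  have d : N / Real.exp (-z) = N * Real.exp z := by rw [Real.exp_neg, div_inv_eq_mul]
  have o := Real.one_le_exp (show 0 ≤ z by linarith)
  have u : 1 + N * Real.exp z ≤ (1 + 2 * N) * Real.exp z := by nlinarith
  refine ⟨Real.exp_pos _, ?_, le_rfl, by norm_num, ?_, ?_, ?_, by linarith, by linarith⟩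
  · rw [Real.exp_neg, one_div]
    exact inv_anti₀ two_pos (by linarith [Real.add_one_le_exp z])
  · rw [d]
    have : 1 + 2 * N ≤ Real.exp Q := by linarith [le_self_pow₀ t (show 6 ≠ 0 by norm_num)]
    calc _ ≤ Real.exp Q * Real.exp z * Real.exp e := by gcongr; exact u.trans (by gcongr)
      _ ≤ _ := by rw [← Real.exp_add, ← Real.exp_add, Real.exp_le_exp]; linarith
  · rw [d, zero_mul, add_zero]
    have h2 : Real.exp (-r) ≤ Real.exp (-h) := Real.exp_le_exp.2 (neg_le_neg hr)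
    have p := Real.exp_pos (-h)
    have h3 : max (Real.exp (-r)) (N * Real.exp z * Real.exp (-h)) ≤
        (1 + 2 * N) * Real.exp z * Real.exp (-h) :=
      max_le (h2.trans (le_mul_of_one_le_left p.le (by nlinarith))) (by gcongr; linarith)
    have h4 : (1 + 2 * N) ^ 3 ≤ Real.exp Q := by
      linarith [pow_le_pow_right₀ t (show 3 ≤ 6 by norm_num), one_le_pow₀ (n := 6) t]
    calc _ ≤ ((1 + 2 * N) * Real.exp z) ^ 2 * ((1 + 2 * N) * Real.exp z * Real.exp (-h)) := by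
          gcongr
      _ = (1 + 2 * N) ^ 3 * (Real.exp z ^ 3 * Real.exp (-h)) := by ring
      _ ≤ Real.exp Q * (Real.exp z ^ 3 * Real.exp (-h)) := by gcongr
      _ ≤ _ := by
        rw [← Real.exp_nat_mul, ← Real.exp_add, ← Real.exp_add, Real.exp_le_exp]
        push_cast
        linarith
  · rw [← Real.exp_add, Real.exp_le_exp]; linarith

theorem rowS : RowS := by
  intro ι κ _ _ _ _ σ wk ko sh
  classical
  obtain ⟨N, hN⟩ : ∃ N : ℝ, N = Fintype.card κ := ⟨_, rfl⟩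
  have N1 : 1 ≤ N := by
    rw [hN]; exact_mod_cast Fintype.card_pos_iff.2 ⟨σ.τ⟩
  obtain ⟨Q, hQ⟩ : ∃ Q : ℝ, Q = 4 * (1 + 2 * N) ^ 6 := ⟨_, rfl⟩
  have Q0 : 0 ≤ Q := by rw [hQ]; positivity
  have Q1 : 4 * (1 + 2 * N) ^ 6 ≤ Real.exp Q := by linarith [Real.add_one_le_exp Q]
  have V0 : 0 ≤ Vm σ := (ko.v0 σ.τ).trans (ko.vt_le30 σ.τ)
  refine ⟨4 + Q + Vm σ, by linarith, fun X S m₀ m₁ h x o nm y z δ r e R s y0 d0 z1 zh a1 a2 a3 a4
    a5 c ms => ?_⟩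
  have e1 : 1 ≤ S.e := nm.e0.trans o.le
  have hr : h ≤ S.r := le_trans (by nlinarith) nm.hi
  have M1 : (1 : ℝ) ≤ X.M := by
    have : (S.r : ℝ) ≤ X.M := by exact_mod_cast nm.rM
    linarith
  have hw : Vm σ * X.M ≤ X.w := le_trans (by nlinarith) nm.w
  obtain ⟨w, nx, hx⟩ := ex_nx σ
  have nu : ∀ b, Nu (Fintype.card κ) S.e S.r h (Real.exp (-y)) (bif b then 1 / 2 else Real.exp (-z))
      (bif b then Real.exp (-z) else 0) (e b) (r b) := by
    rw [← hN]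
    rintro (_ | _)
    · exact nu_false N1 Q1 Q0 (by linarith) y0 z1 hr a3 a4
    · exact nu_true N1 Q1 Q0 (by linarith) e1 y0 z1 zh hr a1 a2
  have key : ∀ D ω, ∃ j : Bool × κ, D < X.M → ω ∈ X.P.S → R D ω → 0 < vt σ j.2 ∧
      (S.nw σ (Function.update wk j.2 (w (wk j.2))) (e j.1) (r j.1) R s).E D ω := fun D ω => by
    by_cases k : D < X.M ∧ ω ∈ X.P.S ∧ R D ω
    · obtain ⟨j, j1, j2⟩ := St.one x ko hw o (fun p k => (sh p k).imp fun _ q => q.2) nx nu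
        (fun t => (le_total t (Real.exp (-z))).elim (fun q => ⟨true, .inr q⟩)
          fun q => ⟨false, .inl q⟩) k.1 (St.gp o k.1 ((c D k.1).gd ω k.2.1 k.2.2))
      exact ⟨j, fun _ _ q => ⟨j1, q, j2⟩⟩
    · exact ⟨(true, σ.τ), fun a b q => absurd ⟨a, b, q⟩ k⟩
  choose τ hτ using key
  obtain ⟨j, hj⟩ : ∃ j, δ / (2 * Fintype.card κ) * X.M ≤
      ∑ D ∈ range X.M, pb X.P fun ω => R D ω ∧ τ D ω = j := by
    by_contra q
    push Not at q
    have := sum_lt_sum_of_nonempty ⟨(true, σ.τ), mem_univ _⟩ fun j _ => q j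
    rw [sum_comm, sum_const, card_univ, Fintype.card_prod, Fintype.card_bool, nsmul_eq_mul] at this
    simp only [← KSA.pb_sum] at this
    push_cast at this
    rw [← hN, ← mul_assoc, mul_div_cancel₀ _ (by positivity)] at this
    linarith
  obtain ⟨D, hD, ω, hω, k⟩ : ∃ D < X.M, ∃ ω ∈ X.P.S, R D ω ∧ τ D ω = j := by
    by_contra q
    push Not at q
    rw [sum_eq_zero fun D hD => pb_zero fun ω hω k => q D (mem_range.1 hD) ω hω k.1 k.2, ← hN] at hj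
    exact hj.not_gt (by positivity)
  have ok := St.nw_ok (wk' := Function.update wk j.2 (w (wk j.2))) (e := e j.1) (r := r j.1) o c
    (by exact_mod_cast (nu j.1).n4.1) (nu j.1).n4.2 (nu j.1).n3
    (fun D hD ω hω k => by
      obtain ⟨v, hv, e, g, -⟩ := (c D hD).gd ω hω k
      exact (congrArg (·.1) (o.fE D hD v hv ω hω e)).to_iff.1 g)
    (hj.trans (sum_le_sum fun D hD => pb_mono fun ω hω k =>
      k.2 ▸ (hτ D ω (mem_range.1 hD) hω k.1).2))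
  have t := hτ D ω hD hω k.1
  rw [k.2] at t
  rcases hx (wk j.2) with ⟨a, a1, a2⟩ | q
  · exact ⟨(j.2, a, j.1), _, t.1, a1, rfl, rfl, a2 ▸ ok⟩
  · have := St.top x hD hω (ok.val D hD ω hω t.2) t.1 (by simpa using q)
    rw [← Real.exp_add, ← Real.exp_add, ← hN] at this
    change 1 ≤ N ^ 2 * Real.exp (e j.1 + X.e + -(r j.1 : ℝ)) at this
    have b : Real.exp (e j.1 + X.e + -(r j.1 : ℝ)) ≤ Real.exp (-Q) :=
      Real.exp_le_exp.2 (by linarith [a5 j.1, o.le, (nu j.1).n4.2])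
    have b2 : N ^ 2 < Real.exp Q := by
      have := pow_le_pow_left₀ (show 0 ≤ N by linarith) (show N ≤ 1 + 2 * N by linarith) 2
      have t : 1 ≤ 1 + 2 * N := by linarith
      linarith [pow_le_pow_right₀ t (show 2 ≤ 6 by norm_num), one_le_pow₀ (n := 6) t]
    have b3 := mul_lt_mul_of_pos_right b2 (Real.exp_pos (-Q))
    rw [← Real.exp_add, add_neg_cancel, Real.exp_zero] at b3
    nlinarith [sq_nonneg N]

end Pool.Agent.MP_5168f5_an.QA.SH
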