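import Pool.Agent.MP_4b405e_nt.SK.BGlue
import Pool.Agent.MP_4b405e_nt.SK.BKil
import Pool.Agent.MP_4b405e_nt.SK.BSrc
import Pool.Agent.MP_4b405e_nt.SK.BStp

/-! Sparse slopes, block B. -/

namespace Pool.Agent.MP_5168f5_an.QA.SH

/-- Descent or non-degeneracy. -/
theorem spB : SpB := spB_of rowK rowL rowS

end Pool.Agent.MP_5168f5_an.QA.SH
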