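import Pool.Agent.MP_4b405e_nt.SK.SpB

/-! Sparse slopes, block B: the glue. -/

namespace Pool.Agent.MP_5168f5_an.QA.SH

open H19 H17S H17F R4 AN Filter Matrix Finset
open P7 (Kc)
open Cp (rp rp_eq rp_spec)

variable {ι κ : Type} [Fintype ι] [DecidableEq ι] [Fintype κ] [DecidableEq κ]
  {σ : Kc ι κ} {wk : κ → ℝ}

namespace BG

section One

variable {X : Wo ι κ} {S : St X} {m m' : ℝ}

theorem phi_eq (k : X.Ok σ m) (o : S.Ok σ wk m') {D : ℕ} (hD : D < X.M) {a b : X.Ω}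
    (ha : a ∈ X.P.S) (hb : b ∈ X.P.S) (e : X.lam a = X.lam b) : S.φ σ D a a = S.φ σ D b b := by
  have e1 := o.fl D hD a ha b hb e
  have e3 := o.fE D hD a ha b hb e1
  simp only [Prod.mk.injEq] at e3
  have w := (rp_spec (X.C D) hb).1
  have e5 : X.R (rp X.P (X.C D) b) a = X.R (rp X.P (X.C D) b) b := by
    rw [(k.fr _ w).coc b hb a ha, ((k.fr b hb).one a ha e.symm).2.2, one_mul]
  unfold St.φ Wo.rr
  rw [rp_eq X.P (o.fC D hD a ha b hb e1), e5, e3.2.2]

theorem her (h : ℝ) (D : ℕ) : SB.Her X.P (S.cp D) (S.Gd σ wk h D) :=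
  fun _ _ _ ⟨ω, a, b, c, m, s, ξ, d, e, f⟩ g =>
    ⟨ω, a, b, c, m, s, ξ, d, e, fun v hv x y => f v hv x (g v hv x y)⟩

/-- One space: non-degeneracy outside the removed part. -/
theorem ndx (k : X.Ok σ m) (o : S.Ok σ wk m') {η h x δ C : ℝ} (h0 : 0 ≤ h) (x1 : 1 ≤ x)
    (c : C * h ≤ η * S.r)
    (hK : ∀ D < X.M, ∀ ω ∈ X.P.S, S.E D ω → ∀ (m s : ℝ) (ξ : κ → ℝ), Un σ wk m s ξ →
      Real.exp (-x) < pb (cv X.P (S.cp D) (S.cp D ω)) (fun v => ∀ a, σ.G1 a → ∀ p,
        0 < vt σ p → wk p = s → |∑ p', ξ p' * S.act σ D v a p p'| ≤ Real.exp (-h)) →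
      S.Wit σ wk D s (h / 2) ξ ω)
    (hL : ∀ D < X.M, ∀ d : ℕ, 2 * Vm σ * d ≤ S.r → C * h ≤ d → ∀ ω ∈ X.P.S, S.E D ω →
      ∀ (m s : ℝ) (ξ : κ → ℝ) (l : X.Λ → κ → ℝ), Un σ wk m s ξ → S.Wit σ wk D s (h / 2) ξ ω →
      pb (cv X.P (S.cp D) (S.cp D ω)) (fun v => S.Thin σ wk D d s h ξ (l (X.C (D + d) v)) v ∧
        ¬S.Ev σ D s (h / 4) ξ v) ≤ Real.exp (-(2 * x)))
    (n : ¬∃ z : (ℕ → X.Ω → Prop) × (ℕ → X.Ω → ℕ), (∀ D < X.M, SB.Cut X.P (S.cp D) X.lam
      (S.Gd σ wk (h / 4) D) (Real.exp (-(2 * x))) (z.1 D) (z.2 D)) ∧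
      δ * X.M ≤ ∑ D ∈ range X.M, pb X.P (z.1 D)) : S.Ndx σ wk η h x δ := by
  have g : ∀ D, ∃ (R : X.Ω → Prop) (s : X.Ω → ℕ), D < X.M → SB.Cut X.P (S.cp D) X.lam
      (S.Gd σ wk (h / 4) D) (Real.exp (-(2 * x))) R s ∧
      SB.Lt X.P (S.cp D) X.lam (S.Gd σ wk (h / 4) D) (Real.exp (-(2 * x))) R := fun D => by
    by_cases hD : D < X.M
    · obtain ⟨R, s, a⟩ := SB.greedy (o.fl D hD) (her (h / 4) D) (Real.exp_pos (-(2 * x)))
      exact ⟨R, s, fun _ => a⟩
    · exact ⟨fun _ => False, fun _ => 0, fun a => absurd a hD⟩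
  choose R s g using g
  refine ⟨R, fun D hD => (g D hD).1.fR, ?_, fun D hD d hd ω hω hE m s' ξ l u => ?_⟩
  · refine (sum_le_sum fun D _ => pb_mono fun _ _ a => a.2).trans (le_of_not_ge fun a => ?_)
    exact n ⟨(R, s), fun D hD => (g D hD).1, a⟩
  · by_contra q
    have w := hK D hD ω hω hE m s' ξ u ((not_le.1 q).trans_le
      (pb_mono fun v _ a b hb => (a.2 b hb).1))
    have a1 := hL D hD d hd.2 (c.trans hd.1) ω hω hE m s' ξ l u w
    have a2 := (g D hD).2 ω hω (S.Ev σ D s' (h / 4) ξ) (fun a ha b hb e => by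
      unfold St.Ev
      rw [phi_eq k o hD ha hb e]) ⟨ω, hω, rfl, hE, m, s', ξ, u, fun a p y z =>
        (w a p y z).trans (Real.exp_le_exp.2 (by linarith)), fun _ _ _ y => y.1⟩
    refine q ((pb_split _ _ (S.Ev σ D s' (h / 4) ξ)).trans_le ((add_le_add
      ((pb_mono fun v _ y => ⟨y.2, y.1.1⟩).trans a2.le)
      ((pb_mono fun v _ y => ⟨y.1.2, y.2⟩).trans a1)).trans ?_))
    have e : Real.exp (-x) = Real.exp (-(2 * x)) * Real.exp x := by
      rw [← Real.exp_add]; congr 1; ring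
    nlinarith [Real.add_one_le_exp x, Real.exp_pos (-(2 * x))]

end One

omit [DecidableEq κ] in
theorem pot_lt [DecidableEq κ] {p a : κ} (h0 : 0 < vt σ p) (h : wk p < vt σ a) :
    pot σ (Function.update wk p (vt σ a)) < pot σ wk := by
  classical
  refine card_lt_card ⟨fun x hx => ?_, fun z => ?_⟩
  · rw [mem_filter] at hx ⊢
    refine ⟨hx.1, hx.2.1, ?_⟩
    by_cases e : x.1 = p
    · rw [e, Function.update_self] at hx
      exact e ▸ h.trans hx.2.2
    · simpa only [Function.update_of_ne e] using hx.2.2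
  · have := (mem_filter.1 (z (show (p, a) ∈ _ from mem_filter.2 ⟨mem_univ _, h0, h⟩))).2.2
    simp at this

variable {X : ℕ → Wo ι κ} {S : ∀ n, St (X n)} {u : ℕ → ℕ}

theorem bu (W : World σ X) (s : State σ wk S) (mid : Mid S u) : Big u := by
  refine tendsto_atTop.2 fun b => ?_
  filter_upwards [mid.lo 1 one_pos, (s.be W).eventually_ge_atTop b] with n a c
  exact_mod_cast (show (b : ℝ) ≤ u n by linarith)

theorem num (W : World σ X) (s : State σ wk S) (mid : Mid S u) {C c : ℝ} (c0 : 0 < c)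
    (C1 : 1 ≤ C) : ∀ᶠ n in UF, (S n).Num C (c * u n) := by
  obtain ⟨m, -, so⟩ := s.ev
  have C0 : 0 < C := by linarith
  filter_upwards [W.be.eventually_ge_atTop 1, mid.lo (c / C) (by positivity),
    mid.hi (1 / (C * c)) (by positivity), s.se 1 one_pos, so, W.bw C] with n a1 a2 a3 a4 a5 a6
  refine ⟨a1, ?_, ?_, ?_, a6.1⟩
  · rw [zero_add, div_mul_eq_mul_div, le_div_iff₀ C0] at a2
    linarith
  · rw [zero_add, div_mul_eq_mul_div, le_div_iff₀ (by positivity)] at a3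
    linarith
  · have m0 : (0 : ℝ) ≤ (X n).M := Nat.cast_nonneg _
    have := a5.sq
    have r0 : (0 : ℝ) < (S n).r := by linarith [a5.le]
    exact_mod_cast (show ((S n).r : ℝ) ≤ (X n).M from le_of_mul_le_mul_left (by nlinarith) r0)

end BG

open BG in
theorem spB_of (hk : RowK) (hl : RowL) (hs : RowS) : SpB := by
  intro ι κ _ _ _ _ σ wk X S u W s mid
  obtain ⟨CK, K1, hk⟩ := hk ι κ σ wk W.ok s.sh
  obtain ⟨CL, L1, hl⟩ := hl ι κ σ wk W.ok s.sh
  obtain ⟨C, C1, hs⟩ := hs ι κ σ wk W.ok s.sh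
  obtain ⟨m₀, -, ok⟩ := W.ev
  obtain ⟨m₁, -, so⟩ := s.ev
  have b := bu W s mid
  refine or_iff_not_imp_left.2 fun nd h δ h0 d0 => ?_
  rcases SB.diag fun a n => ∃ z : (ℕ → (X n).Ω → Prop) × (ℕ → (X n).Ω → ℕ),
    (∀ D < (X n).M, SB.Cut (X n).P ((S n).cp D) (X n).lam ((S n).Gd σ wk (h * u n / 4) D)
      (Real.exp (-(2 * (a * u n)))) (z.1 D) (z.2 D)) ∧
      δ * (X n).M ≤ ∑ D ∈ range (X n).M, pb (X n).P (z.1 D) with ⟨a, a0, k⟩ | ⟨a, a0, a1, k⟩
  · obtain ⟨x, x0, x1, x2, x3⟩ : ∃ x : ℝ, 0 < x ∧ x ≤ a ∧ x ≤ h / CK ∧ 2 * x ≤ h / CL := by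
      have p1 : 0 < h / CK := by positivity
      have p2 : 0 < h / CL := by positivity
      exact ⟨min a (min (h / CK) (h / CL / 2)), by positivity, min_le_left _ _,
        (min_le_right _ _).trans (min_le_left _ _),
        by linarith [(min_le_right a _).trans (min_le_right (h / CK) (h / CL / 2))]⟩
    refine ⟨x, x0, fun η e0 => ?_⟩
    filter_upwards [k, ok, so, num W s mid h0 K1, num W s mid h0 L1, b.ev (1 / x),
      mid.hi (η / (CL * h)) (by positivity)] with n k o1 o2 n1 n2 u1 u2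
    have u0 : (0 : ℝ) ≤ u n := Nat.cast_nonneg _
    rw [div_le_iff₀ x0] at u1
    rw [zero_add, div_mul_eq_mul_div, le_div_iff₀ (by positivity)] at u2
    refine ndx o1 o2 (C := CL) (by positivity) (by linarith) (by linarith)
      (fun D hD ω hω hE m s ξ y q => hk _ _ _ _ _ o1 o2 n1 D hD ω hω hE m s ξ y
        ((Real.exp_le_exp.2 ?_).trans_lt q))
      (fun D hD d d1 d2 ω hω hE m s ξ l y w => (hl _ _ _ _ _ o1 o2 n2 D hD d d1 d2 ω hω hE m s ξ l
        y w).trans (Real.exp_le_exp.2 ?_)) fun ⟨z, z1, z2⟩ => k ⟨z, fun D hD => ?_, z2⟩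
    · rw [mul_div_right_comm]
      nlinarith
    · rw [mul_div_right_comm]
      nlinarith
    · exact ⟨(z1 D hD).fR, (z1 D hD).fs, (z1 D hD).gd, fun ω hω r =>
        (Real.exp_le_exp.2 (by nlinarith)).trans ((z1 D hD).ms ω hω r)⟩
  · obtain ⟨e, he⟩ : ∃ e : ℕ → ℝ, ∀ n, e n = (S n).e + 2 * (a n * u n) + C := ⟨_, fun _ => rfl⟩
    have ee : ∀ n, (S n).e + C ≤ e n := fun n => by
      have := a0 n
      have : 0 ≤ a n * u n := by positivity
      rw [he]; linarith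
    have be : Tendsto e UF atTop :=
      tendsto_atTop_mono (fun n => by linarith [ee n]) (s.be W)
    have se : Sm u e := fun ε p => by
      filter_upwards [mid.lo (ε / 3) (by positivity), a1 (ε / 6) (by positivity),
        b.sm C (ε / 3) (by positivity)] with n q1 q2 q3
      have := mul_le_mul_of_nonneg_right q2 (Nat.cast_nonneg (α := ℝ) (u n))
      rw [he]; linarith
    obtain ⟨z, z1, z2⟩ : ∃ z : ℕ → ℕ, Sm z e ∧ Sm u fun n => z n :=
      ⟨_, (mean be se).1, (mean be se).2.1⟩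
    obtain ⟨r, r1, r2⟩ : ∃ r : Bool → ℕ → ℕ, (∀ n, r true n = ⌊(z n : ℝ) / 2⌋₊) ∧
        ∀ n, r false n = ⌊h * u n / 8⌋₊ :=
      ⟨fun y n => cond y ⌊(z n : ℝ) / 2⌋₊ ⌊h * u n / 8⌋₊, fun _ => rfl, fun _ => rfl⟩
    obtain ⟨f, f1, f2⟩ : ∃ f : Bool → ℕ → ℝ, (∀ n, f true n = e n) ∧
        ∀ n, f false n = e n + z n :=
      ⟨fun y n => cond y (e n) (e n + z n), fun _ => rfl, fun _ => rfl⟩
    have lo : ∀ y n, cond y ((z n : ℝ) / 2) (h * u n / 8) < r y n + 1 := fun y n => by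
      cases y
      · rw [r2]; exact Nat.lt_floor_add_one _
      · rw [r1]; exact Nat.lt_floor_add_one _
    have sm : ∀ y, Sm (r y) (f y) := fun y ε p => by
      cases y
      · filter_upwards [(se.add z2) (ε * h / 16) (by positivity), b.ev (16 / h)] with n q1 q2
        have := mul_le_mul_of_nonneg_left (lo false n).le p.le
        rw [div_le_iff₀ h0] at q2
        have := mul_le_mul_of_nonneg_left q2 p.le
        simp only [cond_false] at *
        rw [f2]; linarith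
      · filter_upwards [z1 (ε / 4) (by positivity), be.eventually_ge_atTop ε] with n q1 q2
        have := mul_le_mul_of_nonneg_left (lo true n).le p.le
        simp only [cond_true] at *
        rw [f1]; linarith
    have key : ∀ᶠ n in UF, ∃ y : κ × κ × Bool, ∃ S' : St (X n), 0 < vt σ y.1 ∧
        wk y.1 < vt σ y.2.1 ∧ S'.r = r y.2.2 n ∧ S'.e = f y.2.2 n ∧
        S'.Ok σ (Function.update wk y.1 (vt σ y.2.1)) (δ / (2 * Fintype.card κ)) := by
      filter_upwards [k, ok, so, num W s mid (show 0 < h / 4 by positivity) C1,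
        z1 (1 / (2 * C)) (by positivity), z2 (h / 64) (by positivity), se (h / 64) (by positivity),
        sm true (1 / 3) (by positivity), sm false (1 / 3) (by positivity),
        be.eventually_ge_atTop 1, (s.be W).eventually_ge_atTop 0, z1 1 one_pos]
        with n ⟨y, y1, y2⟩ o1 o2 n1 q1 q2 q3 q4 q5 q6 q7 q8
      have u0 : (0 : ℝ) ≤ u n := Nat.cast_nonneg _
      have z0 : (0 : ℝ) ≤ z n := Nat.cast_nonneg _
      have hu : 0 ≤ h * u n := by positivity
      have := a0 n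
      have := ee n
      rw [zero_add, one_div, le_inv_mul_iff₀ (by positivity)] at q1
      refine hs _ _ _ _ _ o1 o2 n1 (2 * (a n * u n)) (z n) δ (fun y => r y n) (fun y => f y n) y.1 y.2
        (by positivity) d0 (by linarith) (by linarith) (by rw [f1, he]) ?_ (by rw [f2, he]; linarith)
        ?_ (fun y => ?_) (by simpa only [div_mul_eq_mul_div] using y1) y2
      · have := Nat.floor_le (show (0 : ℝ) ≤ (z n : ℝ) / 2 by positivity)
        rw [r1]; nlinarith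
      · have := Nat.floor_le (show (0 : ℝ) ≤ h * u n / 8 by positivity)
        rw [r2]; linarith
      · cases y
        · rw [f2] at *; linarith
        · rw [f1] at *; linarith
    obtain ⟨y, key⟩ := ev_ex key
    have ch : ∀ n, ∃ S' : St (X n), S'.r = r y.2.2 n ∧ S'.e = f y.2.2 n ∧
        ((∃ S' : St (X n), 0 < vt σ y.1 ∧ wk y.1 < vt σ y.2.1 ∧ S'.r = r y.2.2 n ∧
          S'.e = f y.2.2 n ∧
          S'.Ok σ (Function.update wk y.1 (vt σ y.2.1)) (δ / (2 * Fintype.card κ))) →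
        S'.Ok σ (Function.update wk y.1 (vt σ y.2.1)) (δ / (2 * Fintype.card κ))) := fun n => by
      by_cases q : ∃ S' : St (X n), 0 < vt σ y.1 ∧ wk y.1 < vt σ y.2.1 ∧ S'.r = r y.2.2 n ∧
          S'.e = f y.2.2 n ∧
          S'.Ok σ (Function.update wk y.1 (vt σ y.2.1)) (δ / (2 * Fintype.card κ))
      · obtain ⟨S', -, -, q1, q2, q3⟩ := q
        exact ⟨S', q1, q2, fun _ => q3⟩
      · exact ⟨{ S n with r := r y.2.2 n, e := f y.2.2 n }, rfl, rfl, fun w => absurd w q⟩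
    choose S' c1 c2 c3 using ch
    obtain ⟨_, -, p0, p1, -⟩ := key.exists
    obtain ⟨a', a2, a3⟩ := s.sh _ p0
    have cp : (0 : ℝ) < Fintype.card κ := by exact_mod_cast Fintype.card_pos_iff.2 ⟨y.1⟩
    refine absurd ⟨_, S', ⟨fun p hp => ?_, ?_, _, by positivity, key.mono c3⟩, pot_lt p0 p1⟩ nd
    · by_cases q : p = y.1
      · exact ⟨y.2.1, by linarith, by rw [q, Function.update_self]⟩
      · rw [Function.update_of_ne q]; exact s.sh p hp
    · simpa only [c1, c2] using sm y.2.2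

end Pool.Agent.MP_5168f5_an.QA.SH
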