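import Pool.Agent.MP_5168f5_an.H17F.KS
import Pool.Agent.MP_5168f5_an.AN.S20Dn

/-! Sparse heights: greedy removal of good events inside atoms, and the dichotomy. -/

namespace Pool.Agent.MP_5168f5_an.QA.SB

open H19 H17S H17F Filter
open AN.S20 (mem_cv)

section One

variable {Ω Λ Li : Type} (P : FP Ω) (K : Ω → Λ) (y : Ω → Li) (Gd : Λ → (Ω → Prop) → Prop)

/-- The event `R` is cut by the label `s` into good classes of relative mass at least `θ` in the
atoms of `K`; both are functions of `y`. -/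
structure Cut (θ : ℝ) (R : Ω → Prop) (s : Ω → ℕ) : Prop where
  fR : Fn P R y
  fs : Fn P s y
  gd : ∀ ω ∈ P.S, R ω → Gd (K ω) fun v => R v ∧ s v = s ω
  ms : ∀ ω ∈ P.S, R ω → θ ≤ pb (cv P K (K ω)) fun v => R v ∧ s v = s ω

/-- Outside `R` the good events are light in the atoms of `K`. -/
def Lt (θ : ℝ) (R : Ω → Prop) : Prop := ∀ ω ∈ P.S, ∀ A : Ω → Prop, Fn P A y →
  Gd (K ω) (fun v => A v ∧ ¬R v) → pb (cv P K (K ω)) (fun v => A v ∧ ¬R v) < θ

/-- Parts of good events are good. -/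
def Her : Prop := ∀ k A A', Gd k A → (∀ v ∈ P.S, K v = k → A' v → A v) → Gd k A'

variable {P K y Gd}

theorem greedy (hK : Fn P K y) (hG : Her P K Gd) {θ : ℝ} (t0 : 0 < θ) :
    ∃ R s, Cut P K y Gd θ R s ∧ Lt P K y Gd θ R := by
  classical
  have ne : ∃ k, ∃ R s, Cut P K y Gd θ R s ∧ P.S.card - (P.S.filter R).card = k :=
    ⟨_, fun _ => False, fun _ => 0, ⟨fun _ _ _ _ _ => rfl, fun _ _ _ _ _ => rfl,
      fun _ _ k => k.elim, fun _ _ k => k.elim⟩, rfl⟩
  obtain ⟨R, s, h, e⟩ := Nat.find_spec ne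
  refine ⟨R, s, h, fun ω hω A fA gA => ?_⟩
  by_contra q
  push Not at q
  obtain ⟨v₀, m0, a0⟩ := ex_of_pb (t0.trans_le q)
  rw [mem_cv hω] at m0
  obtain ⟨N, hN⟩ : ∃ N : ℕ, ∀ v ∈ P.S, s v < N :=
    ⟨P.S.sup s + 1, fun v hv => Nat.lt_succ_of_le (Finset.le_sup (f := s) hv)⟩
  have key : ∀ w ∈ P.S, (R w ∨ A w ∧ K w = K ω) → ∀ v ∈ P.S, K v = K w →
      (((R v ∨ A v ∧ K v = K ω) ∧ (if R v then s v else N) = if R w then s w else N) ↔
        if R w then R v ∧ s v = s w else A v ∧ ¬R v) := by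
    intro w hw k v hv kv
    by_cases r : R w <;> by_cases r' : R v
    · simp [r, r']
    · have := hN w hw
      simp only [r, r', if_true, if_false, false_and, iff_false, not_and]
      omega
    · have := hN v hv
      simp only [r, r', if_true, if_false, not_true, and_false, iff_false, not_and]
      omega
    · simp [r, r', kv, (k.resolve_left r).2]
  have c : Cut P K y Gd θ (fun v => R v ∨ A v ∧ K v = K ω) fun v => if R v then s v else N := by
    refine ⟨fun a ha b hb z => ?_, fun a ha b hb z => ?_, fun w hw k => ?_, fun w hw k => ?_⟩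
    · simp only [h.fR a ha b hb z, fA a ha b hb z, hK a ha b hb z]
    · simp only [h.fR a ha b hb z, h.fs a ha b hb z]
    · by_cases r : R w
      · exact hG _ _ _ (h.gd w hw r) fun v hv kv z => by
          simpa [r] using (key w hw k v hv kv).1 z
      · rw [(k.resolve_left r).2]
        exact hG _ _ _ gA fun v hv kv z => by
          simpa [r] using (key w hw k v hv (kv.trans (k.resolve_left r).2.symm)).1 z
    · by_cases r : R w
      · refine (h.ms w hw r).trans (pb_mono fun v hv z => ?_)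
        rw [mem_cv hw] at hv
        exact (key w hw k v hv.1 hv.2).2 (by simpa [r] using z)
      · rw [(k.resolve_left r).2]
        refine q.trans (pb_mono fun v hv z => ?_)
        rw [mem_cv hω] at hv
        exact (key w hw k v hv.1 (hv.2.trans (k.resolve_left r).2.symm)).2 (by simpa [r] using z)
  have lt : (P.S.filter R).card < (P.S.filter fun v => R v ∨ A v ∧ K v = K ω).card :=
    Finset.card_lt_card ⟨fun v hv => by
      rw [Finset.mem_filter] at hv ⊢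
      exact ⟨hv.1, .inl hv.2⟩, fun z => a0.2 (Finset.mem_filter.1
        (z (Finset.mem_filter.2 ⟨m0.1, .inr ⟨a0.1, m0.2⟩⟩))).2⟩
  have := Finset.card_filter_le P.S fun v => R v ∨ A v ∧ K v = K ω
  exact Nat.find_min ne (m := P.S.card - (P.S.filter fun v => R v ∨ A v ∧ K v = K ω).card)
    (by omega) ⟨_, _, c, by congr⟩

/-- Whole classes may be selected by a type. -/
theorem Cut.sel {θ : ℝ} {R : Ω → Prop} {s : Ω → ℕ} (h : Cut P K y Gd θ R s) (hK : Fn P K y)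
    {Gd' : Λ → (Ω → Prop) → Prop} (hG : Her P K Gd') (T : Λ → ℕ → Prop)
    (k : ∀ ω ∈ P.S, R ω → T (K ω) (s ω) → Gd' (K ω) fun v => R v ∧ s v = s ω) :
    Cut P K y Gd' θ (fun v => R v ∧ T (K v) (s v)) s := by
  refine ⟨fun a ha b hb z => ?_, h.fs, fun w hw r => ?_, fun w hw r => ?_⟩
  · simp only [h.fR a ha b hb z, h.fs a ha b hb z, hK a ha b hb z]
  · exact hG _ _ _ (k w hw r.1 r.2) fun v _ _ z => ⟨z.1.1, z.2⟩
  · refine (h.ms w hw r.1).trans (pb_mono fun v hv z => ⟨⟨z.1, ?_⟩, z.2⟩)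
    rw [mem_cv hw] at hv
    rw [hv.2, z.2]
    exact r.2

end One

/-- A property fails at one positive value or holds along values that tend to zero. -/
theorem diag (p : ℝ → ℕ → Prop) : (∃ a : ℝ, 0 < a ∧ ∀ᶠ n in UF, ¬p a n) ∨
    ∃ a : ℕ → ℝ, (∀ n, 0 < a n) ∧ (∀ ε : ℝ, 0 < ε → ∀ᶠ n in UF, a n ≤ ε) ∧
      ∀ᶠ n in UF, p (a n) n := by
  refine or_iff_not_imp_left.2 fun h => ?_
  have c0 : ∀ k : ℕ, (0 : ℝ) < 1 / (k + 1) := fun k => by positivity
  obtain ⟨k, k1, k2⟩ := KSA.spill (fun k n => p (1 / (k + 1)) n) fun k => by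
    by_contra z
    exact h ⟨_, c0 k, Ultrafilter.eventually_not.2 z⟩
  refine ⟨fun n => 1 / (k n + 1), fun n => c0 _, fun ε hε => ?_, k2.mono fun n u => u _ le_rfl⟩
  filter_upwards [k1.ev (1 / ε)] with n u
  rw [div_le_iff₀ hε] at u
  rw [div_le_iff₀ (by positivity)]
  linarith

theorem exists_forall_of_imp' (Ω : Type) (p : (Ω → Prop) × (Ω → ℕ) → Prop) :
    ∃ z, (∃ z, p z) → p z := by
  by_cases h : ∃ z, p z
  · exact h.imp fun _ k _ => k
  · exact ⟨(fun _ => False, fun _ => 0), fun k => absurd k h⟩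

/-- The dichotomy of the descent: good events are light outside a small event, or a positive part
is cut into good classes of subexponential mass. -/
theorem dich {Ω Λ Li : ℕ → Type} (P : ∀ n, FP (Ω n)) (K : ∀ n, Ω n → Λ n) (y : ∀ n, Ω n → Li n)
    (Gd : ℝ → ∀ n, Λ n → (Ω n → Prop) → Prop) (u : ℕ → ℝ)
    (hK : ∀ᶠ n in UF, Fn (P n) (K n) (y n)) (hG : ∀ c n, Her (P n) (K n) (Gd c n)) :
    (∀ c δ : ℝ, 0 < c → 0 < δ → ∃ a : ℝ, 0 < a ∧ ∀ᶠ n in UF, ∃ R, Fn (P n) R (y n) ∧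
      pb (P n) R ≤ δ ∧ Lt (P n) (K n) (y n) (Gd c n) (Real.exp (-(a * u n))) R) ∨
    ∃ c : ℝ, 0 < c ∧ ∃ (a : ℕ → ℝ) (R : ∀ n, Ω n → Prop) (s : ∀ n, Ω n → ℕ), (∀ n, 0 < a n) ∧
      (∀ ε : ℝ, 0 < ε → ∀ᶠ n in UF, a n ≤ ε) ∧ Pos P R ∧
      ∀ᶠ n in UF, Cut (P n) (K n) (y n) (Gd c n) (Real.exp (-(a n * u n))) (R n) (s n) := by
  refine or_iff_not_imp_right.2 fun h c δ c0 d0 => ?_
  rcases diag fun a n => ∃ z : (Ω n → Prop) × (Ω n → ℕ), δ ≤ pb (P n) z.1 ∧
    Cut (P n) (K n) (y n) (Gd c n) (Real.exp (-(a * u n))) z.1 z.2 with ⟨a, a0, k⟩ | ⟨a, a0, a1, k⟩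
  · refine ⟨a, a0, ?_⟩
    filter_upwards [k, hK] with n q f
    obtain ⟨R, s, r1, r2⟩ := greedy f (hG c n) (Real.exp_pos (-(a * u n)))
    exact ⟨R, r1.fR, le_of_not_ge fun z => q ⟨(R, s), z, r1⟩, r2⟩
  · choose z hz using fun n => exists_forall_of_imp' (Ω n) fun z : (Ω n → Prop) × (Ω n → ℕ) =>
      δ ≤ pb (P n) z.1 ∧ Cut (P n) (K n) (y n) (Gd c n) (Real.exp (-(a n * u n))) z.1 z.2
    replace hz := k.mono hz
    exact absurd ⟨c, c0, a, fun n => (z n).1, fun n => (z n).2, a0, a1,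
      ⟨δ, d0, hz.mono fun n q => q.1⟩, hz.mono fun n q => q.2⟩ h

end Pool.Agent.MP_5168f5_an.QA.SB
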