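import Pool.Agent.MP_4b405e_nt.SK.FCov

/-! Short lists read from a label with small information. -/

namespace Pool.Agent.MP_4b405e_nt.FC

open Pool.Agent.MP_5168f5_an Pool.Agent.MP_5168f5_an.H19 Pool.Agent.MP_5168f5_an.H17S
  Pool.Agent.MP_5168f5_an.H17F Kil

variable {Ω α β γ δ X Y : Type}

theorem pb_un (P : FP Ω) (T : Finset α) (B : α → Ω → Prop) {b : ℝ}
    (h : ∀ i ∈ T, pb P (B i) ≤ b) : pb P (fun ω => ∃ i ∈ T, B i ω) ≤ T.card * b := by
  classical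
  induction T using Finset.induction_on with
  | empty => simp [pb_zero]
  | insert a s ha ih =>
    have k1 := ih fun i hi => h i (Finset.mem_insert_of_mem hi)
    have k2 := h a (Finset.mem_insert_self _ _)
    have k3 := pb_or P (B a) fun ω => ∃ i ∈ s, B i ω
    have k4 : pb P (fun ω => ∃ i ∈ insert a s, B i ω) ≤
        pb P fun ω => B a ω ∨ ∃ i ∈ s, B i ω := pb_mono fun ω _ k => by simpa using k
    rw [Finset.card_insert_of_notMem ha]
    push_cast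
    linarith

/-- A list that depends on `v` is covered by few functions of `v`. -/
theorem pb_sel (P : FP Ω) (v : Ω → α) (A : α → Finset Y) (G : Y → Ω → Prop) {B b : ℝ}
    (b0 : 0 ≤ b) (hA : ∀ y, ((A y).card : ℝ) ≤ B)
    (h : ∀ l : α → Y, pb P (fun ω => G (l (v ω)) ω) ≤ b) :
    pb P (fun ω => ∃ l ∈ A (v ω), G l ω) ≤ B * b := by
  classical
  obtain ⟨ω0, -⟩ := ex_mem P
  have B0 : 0 ≤ B := (Nat.cast_nonneg _).trans (hA (v ω0))
  by_cases e : Nonempty Y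
  swap
  · exact (pb_zero fun ω _ k => e ⟨k.choose⟩).trans_le (mul_nonneg B0 b0)
  obtain ⟨y0⟩ := e
  have k := pb_un P (Finset.range ⌊B⌋₊) (fun i ω => G ((A (v ω)).toList.getD i y0) ω) (b := b)
    fun i _ => h fun y => (A y).toList.getD i y0
  rw [Finset.card_range] at k
  refine (pb_mono fun ω _ ⟨l, hl, g⟩ => ?_).trans
    (k.trans (mul_le_mul_of_nonneg_right (Nat.floor_le B0) b0))
  obtain ⟨i, hi, rfl⟩ := List.getElem_of_mem (Finset.mem_toList.2 hl)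
  refine ⟨i, Finset.mem_range.2 (hi.trans_le ?_), by rwa [List.getD_eq_getElem _ _ hi]⟩
  rw [Finset.length_toList]
  exact Nat.le_floor (hA _)

/-- Events of the label `lam` that are rare in every class are not hit by short lists read from
the class and from a variable `T` almost independent of `lam`. -/
theorem lists (P : FP Ω) (T : Ω → γ) (lam : Ω → δ) (cp : Ω → β) (v : Ω → α)
    (G : X → Y → Ω → Prop) (hG : ∀ ξ l, Fn P (G ξ l) lam) (hc : Fn P cp lam) (hv : Fn P v lam)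
    {x y : ℝ} (h : ∀ ω ∈ P.S, ∀ ξ (l : α → Y),
      pb (cv P cp (cp ω)) (fun b => G ξ (l (v b)) b) ≤ Real.exp (-x))
    (A : β → γ → Finset X) (A' : β → γ → X → α → Finset Y)
    (hA : ∀ k z, ((A k z).card : ℝ) ≤ Real.exp y)
    (hA' : ∀ k z ξ s, ((A' k z ξ s).card : ℝ) ≤ Real.exp y) :
    (x - 2 * y) * pb P (fun ω => ∃ ξ ∈ A (cp ω) (T ω), ∃ l ∈ A' (cp ω) (T ω) ξ (v ω), G ξ l ω) ≤
      mi P T lam (fun _ => ()) + lg := by
  set Φ : γ → Ω → Prop := fun z ω => ∃ ξ ∈ A (cp ω) z, ∃ l ∈ A' (cp ω) z ξ (v ω), G ξ l ω with hΦ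
  have e1 : ∀ z, ∀ b ∈ P.S, (∃ ω ∈ P.S, lam ω = lam b ∧ Φ z ω) ↔ Φ z b := fun z b hb => by
    refine ⟨fun k => ?_, fun k => ⟨b, hb, rfl, k⟩⟩
    obtain ⟨ω, hω, e, ξ, h1, l, h2, g⟩ := k
    refine ⟨ξ, ?_, l, ?_, ?_⟩
    · rwa [← hc ω hω b hb e]
    · rwa [← hc ω hω b hb e, ← hv ω hω b hb e]
    · rwa [← hG ξ l ω hω b hb e]
  have e2 : ∀ z, pb P (Φ z) ≤ Real.exp (-(x - 2 * y)) := fun z => by
    have k := pb_at P cp fun k ω => ∃ ξ ∈ A k z, ∃ l ∈ A' k z ξ (v ω), G ξ l ω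
    rw [hΦ, k]
    refine (P.E_mono fun ω hω => ?_).trans (P.E_const _).le
    refine (pb_un _ _ _ fun ξ _ => pb_sel _ v (A' (cp ω) z ξ) (G ξ) (Real.exp_pos _).le
      (hA' _ _ _) (h ω hω ξ)).trans ?_
    refine (mul_le_mul_of_nonneg_right (hA _ _) (by positivity)).trans_eq ?_
    rw [← Real.exp_add, ← Real.exp_add]
    congr 1
    ring
  have k := rare P T lam (fun z s => ∃ ω ∈ P.S, lam ω = s ∧ Φ z ω) (h := x - 2 * y)
    ((P.E_mono fun a _ => (pb_congr (e1 (T a))).trans_le (e2 _)).trans (P.E_const _).le)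
  rwa [pb_congr fun b hb => e1 (T b) b hb] at k

end Pool.Agent.MP_4b405e_nt.FC
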