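import Pool.Agent.MP_4b405e_nt.SK.EKil8
import Pool.Agent.MP_5168f5_an.H17F.KS
import Pool.Agent.MP_5168f5_an.H17F.Sq2

/-! Labels with small information: rare events and short lists. -/

namespace Pool.Agent.MP_4b405e_nt.FC

open Pool.Agent.MP_5168f5_an Pool.Agent.MP_5168f5_an.H19 Pool.Agent.MP_5168f5_an.H17S
  Pool.Agent.MP_5168f5_an.H17F Kil

variable {Ω α β γ δ : Type}

/-- A relation that is rare for independent variables is rare unless the information is large. -/
theorem rare (P : FP Ω) (s : Ω → α) (W : Ω → β) (T : α → β → Prop) {h : ℝ}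
    (hT : P.E (fun a => pb P fun b => T (s a) (W b)) ≤ Real.exp (-h)) :
    h * pb P (fun ω => T (s ω) (W ω)) ≤ mu P s W + lg := by
  classical
  have e0 := Real.exp_pos h
  have k := dv P s W (fun x y => if T x y then (Real.exp h + 1) / 2 else 1 / 2)
    (fun a _ b _ => by split_ifs <;> positivity) (by
      have e1 : (P.E fun a => P.E fun b =>
          if T (s a) (W b) then (Real.exp h + 1) / 2 else 1 / 2) =
          P.E fun a => 1 / 2 + Real.exp h / 2 * pb P fun b => T (s a) (W b) := by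
        refine P.E_congr fun a _ => ?_
        unfold pb
        rw [← FP.E_mul, ← P.E_const (1 / 2), ← FP.E_add, FP.E_const]
        refine P.E_congr fun b _ => ?_
        by_cases t : T (s a) (W b) <;> simp only [t, if_true, if_false] <;> ring
      rw [e1, FP.E_add, FP.E_const, FP.E_mul]
      have := mul_le_mul_of_nonneg_left hT (half_pos e0).le
      have e2 : Real.exp h * Real.exp (-h) = 1 := by rw [← Real.exp_add]; simp
      linarith)
  have e3 : h * pb P (fun ω => T (s ω) (W ω)) - lg ≤ P.E fun ω =>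
      Real.log (if T (s ω) (W ω) then (Real.exp h + 1) / 2 else 1 / 2) := by
    unfold pb
    rw [← FP.E_mul, ← P.E_const lg, ← FP.E_sub]
    refine P.E_mono fun ω _ => ?_
    by_cases t : T (s ω) (W ω)
    · simp only [t, if_true, mul_one]
      rw [Real.log_div (by positivity) two_ne_zero]
      have := Real.log_le_log e0 (show Real.exp h ≤ Real.exp h + 1 by linarith)
      rw [Real.log_exp] at this
      unfold lg; linarith
    · simp only [t, if_false, mul_zero]
      rw [one_div, Real.log_inv]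
      unfold lg; linarith
  linarith

theorem pb_at (P : FP Ω) (K : Ω → γ) (E : γ → Ω → Prop) :
    pb P (fun ω => E (K ω) ω) = P.E fun ω => pb (cv P K (K ω)) (E (K ω)) := by
  classical
  exact KEA.exp P K fun k ω => if E k ω then 1 else 0

/-- The conditional form. -/
theorem rareC (P : FP Ω) (K : Ω → γ) (s : Ω → α) (W : Ω → β) (T : γ → α → β → Prop) {h : ℝ}
    (hT : ∀ ω ∈ P.S, (cv P K (K ω)).E (fun a => pb (cv P K (K ω)) fun b =>
      T (K ω) (s a) (W b)) ≤ Real.exp (-h)) :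
    h * pb P (fun ω => T (K ω) (s ω) (W ω)) ≤ mi P s W K + lg := by
  classical
  have e1 : pb P (fun ω => T (K ω) (s ω) (W ω)) =
      P.E fun ω => pb (cv P K (K ω)) fun a => T (K ω) (s a) (W a) :=
    pb_at P K fun k ω => T k (s ω) (W ω)
  rw [e1, mi_atom, ← FP.E_mul, ← P.E_const lg, ← FP.E_add]
  exact P.E_mono fun ω hω => rare _ s W (T (K ω)) (hT ω hω)

/-- Every fixed value of the label has a rare event. -/
theorem expo (P : FP Ω) (K : Ω → γ) (s : Ω → α) (W : Ω → β) (T : γ → α → β → Prop) {h : ℝ}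
    (hT : ∀ ω ∈ P.S, ∀ a ∈ P.S, K a = K ω →
      pb (cv P K (K ω)) (fun b => T (K ω) (s a) (W b)) ≤ Real.exp (-h)) :
    h * pb P (fun ω => T (K ω) (s ω) (W ω)) ≤ mi P s W K + lg :=
  rareC P K s W T fun ω hω => (FP.E_mono _ fun a ha =>
    hT ω hω a ((mem_cv P K hω a).1 ha).1 ((mem_cv P K hω a).1 ha).2).trans (FP.E_const _ _).le

theorem ex_mem (P : FP Ω) : ∃ ω, ω ∈ P.S := by
  by_contra h
  have := P.sum_one
  rw [Finset.eq_empty_of_forall_notMem fun ω hω => h ⟨ω, hω⟩] at this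
  simp at this

theorem ex_ge (P : FP Ω) (F : Ω → ℝ) : ∃ a ∈ P.S, P.E F ≤ F a := by
  obtain ⟨a, ha, k⟩ := P.S.exists_max_image F (ex_mem P)
  exact ⟨a, ha, (P.E_mono k).trans (P.E_const _).le⟩

/-- A greedy list covers the points that are often covered. -/
theorem greedy (P : FP Ω) (R : Ω → Ω → Prop) {θ : ℝ} (m : ℕ) :
    ∃ f : ℕ → Ω, (∀ i, f i ∈ P.S) ∧
      pb P (fun b => θ ≤ pb P (fun a => R a b) ∧ ∀ i < m, ¬R (f i) b) ≤ Real.exp (-(θ * m)) := by
  classical
  induction m with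
  | zero =>
    obtain ⟨a, ha⟩ := ex_mem P
    exact ⟨fun _ => a, fun _ => ha, by simpa using pb_le_one _ _⟩
  | succ m ih =>
    obtain ⟨f, hf, k⟩ := ih
    set U : Ω → Prop := fun b => θ ≤ pb P (fun a => R a b) ∧ ∀ i < m, ¬R (f i) b with hU
    obtain ⟨a, ha, k1⟩ := ex_ge P fun a => pb P fun b => U b ∧ R a b
    have k2 : θ * pb P U ≤ P.E fun a => pb P fun b => U b ∧ R a b := by
      unfold pb
      rw [FP.E_comm, ← FP.E_mul]
      refine P.E_mono fun b _ => ?_
      by_cases u : U b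
      · simp only [u, if_true, true_and, mul_one]
        exact u.1.trans_eq (P.E_congr fun _ _ => by congr)
      · simp [u, FP.E_const]
    refine ⟨fun i => if i = m then a else f i, fun i => by
      beta_reduce; split_ifs <;> simp [*], ?_⟩
    have k3 := pb_split P U (R a)
    have k4 : pb P (fun b => θ ≤ pb P (fun a => R a b) ∧
        ∀ i < m + 1, ¬R (if i = m then a else f i) b) ≤ pb P fun b => U b ∧ ¬R a b :=
      pb_mono fun b _ e => ⟨⟨e.1, fun i hi => by
        have := e.2 i (by omega)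
        rwa [if_neg hi.ne] at this⟩, by simpa using e.2 m (by omega)⟩
    have k5 := Real.add_one_le_exp (-θ)
    have k6 := pb_nonneg P U
    have k7 := Real.exp_pos (-θ)
    have e : Real.exp (-(θ * (m + 1 : ℕ))) = Real.exp (-θ) * Real.exp (-(θ * m)) := by
      rw [← Real.exp_add]; push_cast; ring_nf
    rw [e]
    nlinarith

/-- A label with small information can be replaced by a short list, in one atom. -/
theorem cover0 (P : FP Ω) (s : Ω → α) (W : Ω → β) (T : α → β → Prop) {h : ℝ} (m : ℕ) :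
    ∃ f : ℕ → Ω, (∀ i, f i ∈ P.S) ∧
      h * pb P (fun ω => T (s ω) (W ω) ∧ ∀ i < m, ¬T (s (f i)) (W ω)) ≤
        mu P s W + lg + |h| * Real.exp (-(Real.exp (-h) * m)) := by
  classical
  obtain ⟨f, hf, k⟩ := greedy P (fun a b => T (s a) (W b)) (θ := Real.exp (-h)) m
  refine ⟨f, hf, ?_⟩
  have k1 := rare P s W (fun x y => T x y ∧ pb P (fun a => T (s a) y) < Real.exp (-h)) (h := h) (by
    unfold pb
    rw [FP.E_comm]
    refine (P.E_mono fun b _ => ?_).trans (P.E_const _).le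
    by_cases u : pb P (fun a => T (s a) (W b)) < Real.exp (-h)
    · unfold pb at u
      simp only [u, and_true]
      exact le_of_eq_of_le (P.E_congr fun _ _ => by congr) u.le
    · unfold pb at u
      simp only [u, and_false, if_false, FP.E_const]
      exact (Real.exp_pos _).le)
  have k2 : pb P (fun ω => T (s ω) (W ω) ∧ ∀ i < m, ¬T (s (f i)) (W ω)) ≤
      pb P (fun ω => T (s ω) (W ω) ∧ pb P (fun a => T (s a) (W ω)) < Real.exp (-h)) +
        Real.exp (-(Real.exp (-h) * m)) :=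
    (pb_mono fun ω _ e => (lt_or_ge _ _).imp (fun u => ⟨e.1, u⟩) fun u => ⟨u, e.2⟩).trans
      ((pb_or P _ _).trans (add_le_add le_rfl k))
  have k3 := Real.exp_pos (-(Real.exp (-h) * m))
  rcases le_total 0 h with h0 | h0
  · rw [abs_of_nonneg h0]
    nlinarith
  · have := pb_nonneg P fun ω => T (s ω) (W ω) ∧ ∀ i < m, ¬T (s (f i)) (W ω)
    have := mu_nonneg P s W
    have := lg_pos
    have := abs_nonneg h
    nlinarith

/-- A label with small information given `K` can be replaced by a short list read from `K`. -/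
theorem cover (P : FP Ω) (K : Ω → γ) (s : Ω → α) (W : Ω → β) (T : γ → α → β → Prop) {h : ℝ}
    (h0 : 0 ≤ h) (m : ℕ) :
    ∃ f : γ → ℕ → Ω, (∀ ω ∈ P.S, ∀ i, f (K ω) i ∈ P.S ∧ K (f (K ω) i) = K ω) ∧
      h * pb P (fun ω => T (K ω) (s ω) (W ω) ∧ ∀ i < m, ¬T (K ω) (s (f (K ω) i)) (W ω)) ≤
        mi P s W K + lg + h * Real.exp (-(Real.exp (-h) * m)) := by
  classical
  choose f hf k using fun c : γ => cover0 (cv P K c) s W (T c) (h := h) m
  refine ⟨f, fun ω hω i => (mem_cv P K hω _).1 (hf _ i), ?_⟩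
  have e1 : pb P (fun ω => T (K ω) (s ω) (W ω) ∧ ∀ i < m, ¬T (K ω) (s (f (K ω) i)) (W ω)) =
      P.E fun ω => pb (cv P K (K ω)) fun a =>
        T (K ω) (s a) (W a) ∧ ∀ i < m, ¬T (K ω) (s (f (K ω) i)) (W a) :=
    pb_at P K fun c ω => T c (s ω) (W ω) ∧ ∀ i < m, ¬T c (s (f c i)) (W ω)
  rw [e1, mi_atom, ← FP.E_mul, add_assoc, ← P.E_const (lg + _), ← FP.E_add]
  refine P.E_mono fun ω _ => ?_
  have := k (K ω)
  rw [abs_of_nonneg h0] at this
  linarith

/-- The list as an index that is read from `K` and `W`. -/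
theorem coverI (P : FP Ω) (K : Ω → γ) (s : Ω → α) (W : Ω → β) (T : γ → α → β → Prop) {h : ℝ}
    (h0 : 0 ≤ h) (m : ℕ) : ∃ (f : γ → ℕ → Ω) (ι : γ → β → ℕ), (∀ c y, ι c y ≤ m) ∧
      (∀ ω ∈ P.S, ∀ i, f (K ω) i ∈ P.S ∧ K (f (K ω) i) = K ω) ∧
      h * pb P (fun ω => ¬(T (K ω) (s ω) (W ω) →
        T (K ω) (s (f (K ω) (ι (K ω) (W ω)))) (W ω))) ≤
        mi P s W K + lg + h * Real.exp (-(Real.exp (-h) * m)) := by
  classical
  obtain ⟨f, hf, k⟩ := cover P K s W T h0 m
  have e : ∀ c y, ∃ i ≤ m, (∃ i < m, T c (s (f c i)) y) → T c (s (f c i)) y := fun c y => by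
    by_cases u : ∃ i < m, T c (s (f c i)) y
    · obtain ⟨i, a, b⟩ := u
      exact ⟨i, a.le, fun _ => b⟩
    · exact ⟨0, Nat.zero_le _, fun v => absurd v u⟩
  choose ι a b using e
  refine ⟨f, ι, a, hf, le_trans (mul_le_mul_of_nonneg_left (pb_mono fun ω _ u => ?_) h0) k⟩
  rw [Classical.not_imp] at u
  exact ⟨u.1, fun i hi v => u.2 (b _ _ ⟨i, hi, v⟩)⟩

/-- Information of a larger label. -/
theorem mi_add (P : FP Ω) (F : Ω → α) (s : Ω → δ) (B : Ω → β) (K : Ω → γ) :
    mi P (fun ω => (F ω, s ω)) B K ≤ mi P F B K + ch P s fun ω => (F ω, K ω) := by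
  rw [mi_symm, mi_chain, mi_symm B F, mi_symm B s]
  exact add_le_add le_rfl (mi_le _ _ _)

/-- Conditioning on a cheap label. -/
theorem mi_lab (P : FP Ω) (F : Ω → α) (s : Ω → δ) (B : Ω → β) (K : Ω → γ) :
    mi P F B (fun ω => (s ω, K ω)) ≤ mi P F B K + ch P s K := by
  have h1 := mi_add P F s B K
  have h2 : mi P F B (fun ω => (s ω, K ω)) ≤ mi P (fun ω => (F ω, s ω)) B K := by
    have h3 := mi_chain (P := P) B s F K
    have h4 := mi_nonneg (P := P) B s K
    have h5 : mi P B (fun ω => (s ω, F ω)) K ≤ mi P B (fun ω => (F ω, s ω)) K :=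
      mi_mono (((Fn.snd F s).pair (Fn.fst F s)).left K)
    rw [mi_symm, mi_symm (fun ω => (F ω, s ω))]
    linarith
  have h6 : ch P s (fun ω => (F ω, K ω)) ≤ ch P s K := ch_anti (Fn.snd F K)
  linarith

/-- Transfer of a slab: `y` is read from the moved point, `x` from the noise. On `E` they are
close, so that `x` is located by a cheap integer. -/
theorem transfer (P : FP Ω) (C : Ω → γ) (F : Ω → α) (B : Ω → β) (E : Ω → Prop) (x y : Ω → ℝ)
    {d : ℝ} (hd : 0 < d) (hE : Fn P E C) (hx : Fn P x fun ω => (B ω, C ω))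
    (hy : Fn P y fun ω => (F ω, C ω)) (h : ∀ ω ∈ P.S, E ω → |y ω - x ω| ≤ d) :
    ∃ G : Ω → ℤ, (∀ ω ∈ P.S, E ω → |x ω - d * G ω| ≤ 2 * d) ∧
      ch P G C ≤ mi P F B C + Real.log 5 := by
  classical
  have k : ∀ ω ∈ P.S, E ω → |x ω - d * ⌊y ω / d⌋| ≤ 2 * d := fun ω hω e => by
    have a1 := Int.floor_le (y ω / d)
    have a2 := Int.lt_floor_add_one (y ω / d)
    rw [le_div_iff₀ hd] at a1
    rw [div_lt_iff₀ hd] at a2
    have a3 := abs_le.1 (h ω hω e)
    rw [abs_le]; constructor <;> nlinarith [a3.1, a3.2]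
  refine ⟨fun ω => if E ω then ⌊y ω / d⌋ else 0, fun ω hω e => by
    simpa only [e, if_true] using k ω hω e, ?_⟩
  have h1 : mi P (fun ω => if E ω then ⌊y ω / d⌋ else 0) B C ≤ mi P F B C :=
    mi_mono' fun a ha b hb e => by
      simp only [hE a ha b hb (congrArg Prod.snd e), hy a ha b hb e]
  have h2 : ch P (fun ω => if E ω then ⌊y ω / d⌋ else 0) (fun ω => (B ω, C ω)) ≤ Real.log 5 := by
    refine ch_det fun a ha => ?_
    by_cases e : E a
    · refine ⟨Finset.Icc (⌊x a / d⌋ - 2) (⌊x a / d⌋ + 2), ?_, fun b hb u => ?_⟩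
      · rw [Int.card_Icc]
        have : (⌊x a / d⌋ + 2 + 1 - (⌊x a / d⌋ - 2)).toNat = 5 := by omega
        rw [this]; norm_num
      · have e' : E b := by rwa [hE b hb a ha (congrArg Prod.snd u)]
        have a0 := abs_le.1 (k b hb e')
        rw [hx b hb a ha u] at a0
        simp only [e', if_true]
        have a1 := Int.floor_le (x a / d)
        have a2 := Int.lt_floor_add_one (x a / d)
        rw [le_div_iff₀ hd] at a1
        rw [div_lt_iff₀ hd] at a2
        have a3 : (⌊x a / d⌋ - 2 : ℝ) ≤ ⌊y b / d⌋ := le_of_mul_le_mul_right (by nlinarith) hd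
        have a4 : (⌊y b / d⌋ : ℝ) < ⌊x a / d⌋ + 3 := lt_of_mul_lt_mul_right (by nlinarith) hd.le
        have a5 : ⌊x a / d⌋ - 2 ≤ ⌊y b / d⌋ := by exact_mod_cast a3
        have a6 : ⌊y b / d⌋ < ⌊x a / d⌋ + 3 := by exact_mod_cast a4
        exact Finset.mem_Icc.2 ⟨a5, by omega⟩
    · refine ⟨{0}, by norm_num, fun b hb u => ?_⟩
      have e' : ¬E b := by rwa [hE b hb a ha (congrArg Prod.snd u)]
      simp [e']
  unfold mi at h1 ⊢
  linarith

section Seq

open Filter

variable {Ω α β γ : ℕ → Type} {P : ∀ n, FP (Ω n)} {u : ℕ → ℕ}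

/-- A label with small information is replaced by an index in a short list. -/
theorem coverS (hu : Big u) (K : ∀ n, Ω n → γ n) (s : ∀ n, Ω n → α n) (W : ∀ n, Ω n → β n)
    (T : ∀ n, γ n → α n → β n → Prop) (h : Sm u fun n => mi (P n) (s n) (W n) (K n)) :
    ∃ (f : ∀ n, γ n → ℕ → Ω n) (ι : ∀ n, γ n → β n → ℕ) (m : ℕ → ℕ),
      (Sm u fun n => Real.log (m n + 1)) ∧ (∀ n c y, ι n c y ≤ m n) ∧
      (∀ n, ∀ ω ∈ (P n).S, ∀ i, f n (K n ω) i ∈ (P n).S ∧ K n (f n (K n ω) i) = K n ω) ∧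
      Whp P fun n ω => T n (K n ω) (s n ω) (W n ω) →
        T n (K n ω) (s n (f n (K n ω) (ι n (K n ω) (W n ω)))) (W n ω) := by
  obtain ⟨k, hk, e⟩ := KSA.spill (fun k n => mi (P n) (s n) (W n) (K n) ≤
      0 + 1 / (k + 1 : ℝ) ^ 2 * u n ∧ (k + 1 : ℝ) ^ 2 ≤ u n) fun k =>
    (h _ (by positivity)).and (hu.ev _)
  choose f ι a b c using fun n => coverI (P n) (K n) (s n) (W n) (T n)
    (h := u n / (k n + 1)) (by positivity) ⌈Real.exp (2 * (u n / (k n + 1)))⌉₊
  refine ⟨f, ι, _, fun ε hε => ?_, a, b, fun ε hε => ?_⟩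
  · filter_upwards [hk.ev (4 / ε), hu.ev (4 / ε)] with n v w
    rw [div_le_iff₀ hε] at v w
    set H : ℝ := u n / (k n + 1) with hH
    have h0 : 0 ≤ H := by positivity
    have h1 := Nat.ceil_lt_add_one (Real.exp_pos (2 * H)).le
    have h2 := Real.one_le_exp (show 0 ≤ 2 * H by positivity)
    have h3 := Real.add_one_le_exp 2
    have h4 : H * (k n + 1) = u n := div_mul_cancel₀ _ (by positivity)
    refine ((Real.log_le_iff_le_exp (by positivity)).2 (?_ : _ ≤ Real.exp (2 * H + 2))).trans ?_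
    · rw [Real.exp_add]; nlinarith
    · nlinarith
  · filter_upwards [hk.ev (3 / ε), e] with n v w
    obtain ⟨w1, w2⟩ := w _ le_rfl
    rw [div_le_iff₀ hε] at v
    have c := c n
    set H : ℝ := u n / (k n + 1) with hH
    set κ : ℝ := k n + 1 with hκ
    have k0 : 0 < κ := by positivity
    have h4 : H * κ = u n := div_mul_cancel₀ _ k0.ne'
    have h5 : κ ≤ H := le_of_mul_le_mul_right (by nlinarith) k0
    have h0 : 0 < H := k0.trans_le h5
    have h6 : Real.exp (-(Real.exp (-H) * ⌈Real.exp (2 * H)⌉₊)) ≤ 1 / κ := by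
      have a1 := Nat.le_ceil (Real.exp (2 * H))
      have a2 : Real.exp (-H) * Real.exp (2 * H) = Real.exp H := by
        rw [← Real.exp_add]; congr 1; ring
      have a3 := mul_le_mul_of_nonneg_left a1 (Real.exp_pos (-H)).le
      have a4 := Real.add_one_le_exp H
      have a5 := Real.add_one_le_exp (Real.exp (-H) * ⌈Real.exp (2 * H)⌉₊)
      rw [Real.exp_neg, one_div]
      exact inv_anti₀ k0 (by linarith)
    have h7 : 1 / κ ^ 2 * u n = H * (1 / κ) := by rw [← h4]; field_simp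
    have h8 : lg ≤ H * (1 / κ) := by
      rw [mul_one_div, le_div_iff₀ k0]
      nlinarith [lg_lt_one]
    have h9 : 3 * (1 / κ) ≤ ε := by
      rw [mul_one_div, div_le_iff₀ k0]; nlinarith
    refine le_trans (le_of_mul_le_mul_left ?_ h0) h9
    nlinarith [mul_le_mul_of_nonneg_left h6 h0.le]

/-- Rare events for each value of a label with small information. -/
theorem expoS (hu : Big u) (K : ∀ n, Ω n → γ n) (s : ∀ n, Ω n → α n) (W : ∀ n, Ω n → β n)
    (T : ∀ n, γ n → α n → β n → Prop) (h : Sm u fun n => mi (P n) (s n) (W n) (K n)) {κ : ℝ}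
    (hκ : 0 < κ) (hT : ∀ᶠ n in UF, ∀ ω ∈ (P n).S, ∀ a ∈ (P n).S, K n a = K n ω →
      pb (cv (P n) (K n) (K n ω)) (fun b => T n (K n ω) (s n a) (W n b)) ≤
        Real.exp (-(κ * u n))) : Whp P fun n ω => ¬T n (K n ω) (s n ω) (W n ω) := fun ε hε => by
  filter_upwards [hT, h (ε * κ / 2) (by positivity), hu.ev (2 / (ε * κ)), hu.ev 1] with n a b c d
  have e := expo (P n) (K n) (s n) (W n) (T n) a
  rw [div_le_iff₀ (by positivity)] at c
  simp only [not_not]
  refine le_of_mul_le_mul_left (e.trans ?_) (show 0 < κ * u n by positivity)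
  nlinarith [lg_lt_one]

end Seq

end Pool.Agent.MP_4b405e_nt.FC
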