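import Pool.Agent.MP_4b405e_nt.SK.SpH
import Pool.Agent.MP_4b405e_nt.SK.FCov

/-! Sparse slopes, block B: from exponents to lists. -/

namespace Pool.Agent.MP_5168f5_an.QA.SH

open H19 H17S H17F R4 AN Filter Matrix Finset
open P7 (Kc)
open Cp (rp rp_spec rp_eq)

namespace BL

theorem pb_fin {Ω J : Type} (P : FP Ω) (s : Finset J) (E : J → Ω → Prop) :
    pb P (fun ω => ∃ i ∈ s, E i ω) ≤ ∑ i ∈ s, pb P (E i) := by
  classical
  induction s using Finset.induction_on with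
  | empty => simpa using (pb_zero (P := P) fun _ _ h => by simp at h).le
  | insert a s ha ih =>
    rw [sum_insert ha]
    refine le_trans (pb_mono fun ω _ h => ?_) ((pb_or P (E a) _).trans (add_le_add le_rfl ih))
    obtain ⟨i, hi, k⟩ := h
    rcases mem_insert.1 hi with rfl | hi
    · exact Or.inl k
    · exact Or.inr ⟨i, hi, k⟩

/-- The union bound over two lists. -/
theorem two {Ω J L Λ : Type} [Inhabited L] (P : FP Ω) (A : Finset J) (A' : J → Λ → Finset L)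
    (C : Ω → Λ) (E : J → L → Ω → Prop) {y p : ℝ} (p0 : 0 ≤ p) (hA : (A.card : ℝ) ≤ y)
    (hA' : ∀ ξ c, ((A' ξ c).card : ℝ) ≤ y)
    (h : ∀ ξ ∈ A, ∀ l : Λ → L, pb P (fun v => E ξ (l (C v)) v) ≤ p) :
    pb P (fun v => ∃ ξ ∈ A, ∃ l ∈ A' ξ (C v), E ξ l v) ≤ y * (y * p) := by
  have y0 : 0 ≤ y := (Nat.cast_nonneg _).trans hA
  refine (pb_fin P A _).trans ((sum_le_card_nsmul _ _ (y * p) fun ξ hξ => ?_).trans ?_)
  · refine le_trans (pb_mono fun v _ k => ?_) ((pb_fin P (range ⌊y⌋₊)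
      fun i v => E ξ ((A' ξ (C v)).toList.getD i default) v).trans
      ((sum_le_card_nsmul _ _ p fun i _ => h ξ hξ fun c => (A' ξ c).toList.getD i default).trans ?_))
    · obtain ⟨l, hl, k⟩ := k
      obtain ⟨i, hi, e⟩ := List.getElem_of_mem (mem_toList.2 hl)
      refine ⟨i, mem_range.2 (hi.trans_le ?_), ?_⟩
      · rw [length_toList]; exact Nat.le_floor (hA' ξ (C v))
      · rw [List.getD_eq_getElem _ _ hi, e]; exact k
    · rw [card_range, nsmul_eq_mul]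
      exact mul_le_mul_of_nonneg_right (Nat.floor_le y0) p0
  · rw [nsmul_eq_mul]
    exact mul_le_mul_of_nonneg_right hA (mul_nonneg y0 p0)

variable {ι κ : Type} [Fintype ι] [DecidableEq ι] [Fintype κ] [DecidableEq κ]
  {σ : Kc ι κ} {wk : κ → ℝ} {X : Wo ι κ} {S : St X} {m m' : ℝ}

omit [DecidableEq κ] in
theorem un_eq {a s a' s' : ℝ} {ξ : κ → ℝ} (h : Un σ wk a s ξ) (h' : Un σ wk a' s' ξ) : s = s' := by
  obtain ⟨p, -, hp⟩ := exists_ne_zero_of_sum_ne_zero (h.1.trans_ne one_ne_zero)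
  have := abs_ne_zero.1 hp
  exact (h.2 p this).2.2.symm.trans (h'.2 p this).2.2

/-- Thinness is read from the label of the direction. -/
theorem thin_eq (k : X.Ok σ m) (o : S.Ok σ wk m') {D : ℕ} (hD : D < X.M) {a b : X.Ω}
    (ha : a ∈ X.P.S) (hb : b ∈ X.P.S) (e : X.lam a = X.lam b) (d : ℕ) (s h : ℝ) (ξ l : κ → ℝ) :
    S.Thin σ wk D d s h ξ l a → S.Thin σ wk D d s h ξ l b := by
  have e1 := o.fl D hD a ha b hb e
  have e2 := o.fC D hD a ha b hb e1
  have e3 := o.fE D hD a ha b hb e1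
  simp only [Prod.mk.injEq] at e3
  have e4 := rp_eq X.P e2
  have w := (rp_spec (X.C D) hb).1
  have e5 : X.R (rp X.P (X.C D) b) a = X.R (rp X.P (X.C D) b) b := by
    rw [(k.fr _ w).coc b hb a ha, ((k.fr b hb).one a ha e.symm).2.2, one_mul]
  have e6 : S.φ σ D a a = S.φ σ D b b := by
    unfold St.φ Wo.rr
    rw [e4, e5, e3.2.2]
  have e7 : S.cq σ D a = S.cq σ D b := by
    unfold St.cq Wo.cc
    rw [e4, e3.2.1, e3.2.2]
  unfold St.Thin St.act
  rw [e6, e7]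
  exact id

theorem ndl (k : X.Ok σ m) (o : S.Ok σ wk m') (v0 : ∀ a, 0 ≤ vt σ a) (hr : S.e ≤ S.r)
    {η h x δ : ℝ} (x0 : 0 < x) (c : 2 * S.e ≤ δ * x) (N : S.Ndx σ wk η h (3 * x) δ) :
    S.Ndl σ wk η h x (2 * δ) := by
  classical
  obtain ⟨Bad, fB, sB, N⟩ := N
  intro d hd A A' hA hA'
  have rM : (S.r : ℝ) ≤ X.M := by
    have := o.sq
    have M0 : (0 : ℝ) ≤ X.M := Nat.cast_nonneg _
    by_contra q
    have := mul_le_mul_of_nonneg_right hr M0
    nlinarith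
  have dM : d ≤ X.M := by
    have h1 : (1 : ℝ) ≤ Vm σ := le_add_of_nonneg_right (sum_nonneg fun a _ => v0 a)
    have h2 := hd.2
    have d0 : (0 : ℝ) ≤ d := Nat.cast_nonneg _
    have : (d : ℝ) ≤ X.M := by nlinarith
    exact_mod_cast this
  have l1 : lg ≤ X.e := by
    have h1 : lg ≤ 1 := by
      have := Real.log_le_sub_one_of_pos (x := 2) two_pos
      unfold lg; linarith
    have h2 : (2 : ℝ) ≤ X.k := by exact_mod_cast k.ke.1
    linarith [k.ke.2.1]
  set H : ℕ → X.Γ → X.Ω → Prop := fun D z ω => S.E D ω ∧ ∃ ξ ∈ A D (S.cp D ω) z,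
    ∃ l ∈ A' D (S.cp D ω) z ξ (X.C (D + d) ω), ∃ m s, Un σ wk m s ξ ∧
      S.Thin σ wk D d s h ξ l ω with hH
  have key : ∀ D ∈ range X.M, pb X.P (fun ω => H D (X.T ω) ω) ≤
      pb X.P (fun ω => S.E D ω ∧ Bad D ω) + δ := fun D hD => by
    have hD := mem_range.1 hD
    have fn : ∀ z, ∀ a ∈ X.P.S, ∀ b ∈ X.P.S, X.lam a = X.lam b → H D z a ∧ ¬Bad D a →
        H D z b ∧ ¬Bad D b := fun z a ha b hb e ⟨⟨h1, ξ, hξ, l, hl, m, s, u, t⟩, h2⟩ => by
      have e1 := o.fl D hD a ha b hb e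
      have e2 := k.fC (D + d) (by omega) a ha b hb e
      have e3 : S.E D a = S.E D b := congrArg Prod.fst (o.fE D hD a ha b hb e1)
      exact ⟨⟨e3 ▸ h1, ξ, e1 ▸ hξ, l, e1 ▸ e2 ▸ hl, m, s, u, thin_eq k o hD ha hb e _ _ _ _ _ t⟩,
        fB D hD a ha b hb e ▸ h2⟩
    have one : ∀ z, pb X.P (fun b => H D z b ∧ ¬Bad D b) ≤ Real.exp (-x) := fun z => by
      refine (MP_4b405e_nt.FC.pb_at X.P (S.cp D) fun _ b => H D z b ∧ ¬Bad D b).trans_le
        ((X.P.E_mono fun ω hω => ?_).trans_eq (X.P.E_const _))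
      have mem := MP_4b405e_nt.Kil.mem_cv X.P (S.cp D) hω
      by_cases hE : S.E D ω
      · refine le_trans (pb_mono fun v hv q => ?_) ((two (cv X.P (S.cp D) (S.cp D ω))
          (A D (S.cp D ω) z) (A' D (S.cp D ω) z) (X.C (D + d))
          (fun ξ l v => ¬Bad D v ∧ ∃ m s, Un σ wk m s ξ ∧ S.Thin σ wk D d s h ξ l v)
          (Real.exp_pos (-(3 * x))).le (hA _ _ _) (hA' _ _ _) fun ξ _ l => ?_).trans_eq ?_)
        · obtain ⟨⟨-, ξ, hξ, l, hl, t⟩, h2⟩ := q
          rw [((mem v).1 hv).2] at hξ hl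
          exact ⟨ξ, hξ, l, hl, h2, t⟩
        · by_cases u : ∃ m s, Un σ wk m s ξ
          · obtain ⟨m, s, u⟩ := u
            refine le_trans (pb_mono fun v _ ⟨h1, _, s', u', t⟩ => ⟨h1, ?_⟩)
              (N D hD d hd ω hω hE m s ξ l u)
            rwa [un_eq u u']
          · exact (pb_zero fun v _ ⟨_, m, s, u', _⟩ => u ⟨m, s, u'⟩).trans_le (Real.exp_pos _).le
        · rw [← Real.exp_add, ← Real.exp_add]; congr 1; ring
      · refine (pb_zero fun v hv q => hE ?_).trans_le (Real.exp_pos _).le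
        have e3 : S.E D v = S.E D ω :=
          congrArg Prod.fst (o.fE D hD v ((mem v).1 hv).1 ω hω ((mem v).1 hv).2)
        exact e3 ▸ q.1.1
    have r := MP_4b405e_nt.FC.rare X.P X.T X.lam
      (fun z y => ∃ v ∈ X.P.S, X.lam v = y ∧ H D z v ∧ ¬Bad D v) (h := x)
      ((X.P.E_mono fun a _ => le_trans (pb_mono fun b hb ⟨v, hv, e, q⟩ => fn _ v hv b hb e q)
        (one (X.T a))).trans_eq (X.P.E_const _))
    have r1 : pb X.P (fun ω => H D (X.T ω) ω ∧ ¬Bad D ω) ≤ δ := by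
      refine le_of_mul_le_mul_left (le_trans (mul_le_mul_of_nonneg_left
        (pb_mono fun ω hω q => ⟨ω, hω, rfl, q⟩) x0.le) (r.trans ?_)) x0
      have := k.ind
      unfold MP_4b405e_nt.Kil.mu
      linarith [o.le]
    rw [pb_split X.P _ (Bad D)]
    exact add_le_add (pb_mono fun _ _ q => ⟨q.1.1, q.2⟩) r1
  have := sum_le_sum key
  rw [sum_add_distrib, sum_const, card_range, nsmul_eq_mul] at this
  linarith

end BL

theorem spL : SpL := fun ι κ _ _ _ _ σ wk X S u w s md nd h δ h0 δ0 => by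
  obtain ⟨x, x0, nd⟩ := nd h (δ / 2) h0 (half_pos δ0)
  obtain ⟨m, -, hm⟩ := w.ev
  obtain ⟨m', -, hm'⟩ := s.ev
  refine ⟨x / 3, by positivity, fun η η0 => ?_⟩
  filter_upwards [nd η η0, hm, hm', s.se 1 one_pos, md.lo (δ * x / 12) (by positivity)]
    with n N k o a b
  have e2 : (2 : ℝ) ≤ (X n).k := by exact_mod_cast k.ke.1
  have e3 := k.ke.2.1
  have e4 := o.le
  have u0 : (0 : ℝ) < u n := by
    rcases (Nat.cast_nonneg (α := ℝ) (u n)).eq_or_lt with z | z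
    · rw [← z] at b; linarith
    · exact z
  have := BL.ndl (δ := δ / 2) (x := x / 3 * u n) k o w.ok.v0 (by linarith) (by positivity)
    (by linarith) (by convert N using 1; ring)
  convert this using 1
  ring

end Pool.Agent.MP_5168f5_an.QA.SH
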