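import Pool.Agent.MP_4b405e_nt.SK.FairK

/-! Independent sparse digits, stopped after a given number of ones. -/

namespace Pool.Agent.MP_5168f5_an.QA.Brn

open H19 H17S H17F MX Finset

/-- The weight of a digit. -/
noncomputable def wt (p : ℝ) (x : Bool) : ℝ := if x then p else 1 - p

/-- Independent digits. -/
noncomputable def law (L : ℕ) {p : ℝ} (h0 : 0 < p) (h1 : p < 1) : FP (Fin L → Bool) where
  S := univ
  p := fun v => ∏ i, wt p (v i)
  pos := fun v _ => prod_pos fun i _ => by unfold wt; split_ifs <;> linarith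
  sum_one := by
    rw [← Fintype.piFinset_univ, ← prod_univ_sum (fun _ => univ) fun _ x => wt p x]
    simp [wt]

variable {L : ℕ} {p : ℝ} (h0 : 0 < p) (h1 : p < 1)

theorem pb_pi (A : Fin L → Prop) (w : Fin L → Bool) :
    pb (law L h0 h1) (fun v => ∀ i, A i → v i = w i) =
      ∏ i, @ite ℝ (A i) (Classical.propDecidable _) (wt p (w i)) 1 := by
  classical
  have a : univ.filter (fun v : Fin L → Bool => ∀ i, A i → v i = w i) =
      Fintype.piFinset fun i => if A i then {w i} else univ := by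
    ext u
    simp only [mem_filter, mem_univ, true_and, Fintype.mem_piFinset]
    refine forall_congr' fun i => ?_
    split_ifs with h <;> simp [h]
  rw [pb_eq]
  refine Eq.trans (b := ∑ v ∈ Fintype.piFinset fun i => if A i then {w i} else univ,
    ∏ i, wt p (v i)) (sum_congr (Finset.ext fun u => by
      rw [← a]; simp only [mem_filter]; rfl) fun _ _ => rfl) ?_
  rw [← prod_univ_sum (fun i => if A i then {w i} else univ) fun _ x => wt p x]
  refine prod_congr rfl fun i _ => ?_
  split_ifs <;> simp [wt]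

/-- The digits that may be used. -/
def bt (M : ℕ) (v : Fin L → Bool) (i : ℕ) : Prop := ∃ h : i < L, v ⟨i, h⟩ = true ∧ 1 ≤ i ∧ i ≤ M

open Classical in
/-- The number of ones. -/
noncomputable def ct (m : ℕ) (β : ℕ → Prop) : ℕ → ℕ
  | 0 => 0
  | i + 1 => ct m β i + if β i ∧ ct m β i < m then 1 else 0

open Classical in
/-- The value of the digits. -/
noncomputable def vl (D : ℕ → Prop) : ℕ → ℕ
  | 0 => 0
  | i + 1 => 2 * vl D i + if D i then 1 else 0

variable {m : ℕ} {β β' D D' : ℕ → Prop}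

theorem ct_le (m : ℕ) (β : ℕ → Prop) : ∀ i, ct m β i ≤ m
  | 0 => Nat.zero_le _
  | i + 1 => by
    have := ct_le m β i
    rw [ct]
    split_ifs with h
    · exact h.2
    · exact this

theorem ct_mono (m : ℕ) (β : ℕ → Prop) : Monotone (ct m β) :=
  monotone_nat_of_le_succ fun _ => Nat.le_add_right _ _

open Classical in
theorem ct_card (m : ℕ) (β : ℕ → Prop) (k : ℕ) :
    ((range k).filter fun i => β i ∧ ct m β i < m).card = ct m β k := by
  induction k with
  | zero => rfl
  | succ k ih =>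
    rw [range_add_one, filter_insert, ct]
    split_ifs
    · rw [card_insert_of_notMem (by simp), ih]
    · exact ih

theorem ct_congr {k : ℕ} (h : ∀ i < k, (β i ∧ ct m β i < m ↔ β' i ∧ ct m β' i < m)) :
    ct m β k = ct m β' k := by
  classical
  rw [← ct_card, ← ct_card]
  congr 1
  exact filter_congr fun i hi => h i (mem_range.1 hi)

theorem ag_iff {k : ℕ} (g : ct m β' k < m) :
    (∀ i < k, (β i ∧ ct m β i < m ↔ β' i ∧ ct m β' i < m)) ↔ ∀ i < k, (β i ↔ β' i) := by
  refine ⟨fun h i hi => ?_, fun h i => ?_⟩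
  · have a := ct_congr fun j (e : j < i) => h j (e.trans hi)
    have b := (ct_mono m β' hi.le).trans_lt g
    have c := h i hi
    rw [a] at c
    simpa only [b, and_true] using c
  · induction i using Nat.strong_induction_on with
    | _ i ih =>
      intro hi
      rw [ct_congr fun j (e : j < i) => ih j e (e.trans hi), h i hi]

theorem vl_iff : ∀ k, vl D k = vl D' k ↔ ∀ i < k, (D i ↔ D' i)
  | 0 => by simp [vl]
  | k + 1 => by
    rw [Nat.forall_lt_succ_right, ← vl_iff k, vl, vl]
    by_cases a : D k <;> by_cases b : D' k <;> simp [a, b] <;> omega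

open Classical in
theorem vl_div (D : ℕ → Prop) (k : ℕ) :
    2 * ((vl D k : ℝ) / 2 ^ k) = ∑ j ∈ (range k).filter D, (1 / 2 : ℝ) ^ j := by
  induction k with
  | zero => simp [vl]
  | succ k ih =>
    rw [range_add_one, filter_insert, vl]
    split_ifs
    · rw [sum_insert (by simp), ← ih, one_div, inv_pow]
      push_cast
      field_simp
      ring
    · rw [← ih]
      push_cast
      field_simp
      ring

theorem vl_lt (h : ¬D 0) : ∀ k, 2 * vl D (k + 1) + 2 ≤ 2 ^ (k + 1)
  | 0 => by simp [vl, h]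
  | k + 1 => by
    have := vl_lt h k
    rw [vl, pow_succ]
    split_ifs <;> omega

theorem fl1_vl (D : ℕ → Prop) {k : ℕ} (h : k ≤ L) : fl1 k ((vl D L : ℝ) / 2 ^ L) = vl D k := by
  induction h using Nat.decreasingInduction with
  | self => rw [fl1, mul_div_cancel₀ _ (by positivity), Int.floor_natCast]
  | of_succ k _ ih =>
    have := fl1_succ k ((vl D L : ℝ) / 2 ^ L)
    rw [ih, vl] at this
    split_ifs at this <;> omega

/-- The height. -/
noncomputable def ht (M m : ℕ) (v : Fin L → Bool) : ℝ :=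
  (vl (fun i => bt M v i ∧ ct m (bt M v) i < m) L : ℝ) / 2 ^ L

open Classical in
theorem pb_fl {M k : ℕ} (hk : k ≤ L) {w : Fin L → Bool} (g : ct m (bt M w) L < m) :
    pb (law L h0 h1) (fun v => fl1 k (ht M m v) = fl1 k (ht M m w)) =
      ∏ i ∈ range k, if 1 ≤ i ∧ i ≤ M then (if bt M w i then p else 1 - p) else 1 := by
  rw [pb_congr (F := fun v => ∀ i : Fin L, (i.1 < k ∧ 1 ≤ i.1 ∧ i.1 ≤ M) → v i = w i) fun v _ => by
    rw [ht, ht, fl1_vl _ hk, fl1_vl _ hk, Nat.cast_inj, vl_iff,
      ag_iff ((ct_mono _ _ hk).trans_lt g)]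
    refine ⟨fun h i e => ?_, fun h i hi => ?_⟩
    · have := h i e.1
      simp only [bt, i.2, exists_true_left, e.2, and_true] at this
      exact Bool.eq_iff_iff.2 this
    · refine exists_congr fun a => and_congr_left fun b => ?_
      rw [h ⟨i, a⟩ ⟨hi, b⟩], pb_pi, ← prod_subset (s₁ := range k) (s₂ := range L) (f := fun i =>
      if i < k then if 1 ≤ i ∧ i ≤ M then (if bt M w i then p else 1 - p) else 1 else 1)
      (range_mono hk) (fun i _ e => if_neg (by simpa using e)) |>.symm.trans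
      (prod_congr rfl fun i hi => if_pos (mem_range.1 hi)), ← Fin.prod_univ_eq_prod_range]
  refine prod_congr rfl fun i _ => ?_
  by_cases a : i.1 < k <;> by_cases b : 1 ≤ i.1 ∧ i.1 ≤ M <;> simp [a, b, wt, bt]

theorem pb_bad (M : ℕ) : m * pb (law L h0 h1) (fun v => ¬ct m (bt M v) L < m) ≤ L * p := by
  classical
  have a := markov (law L h0 h1) (F := fun v => ∑ i : Fin L, if v i = true then 1 else 0)
    (fun v _ => by positivity) m
  refine le_trans (mul_le_mul_of_nonneg_left (pb_mono fun v _ e => ?_) (Nat.cast_nonneg _))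
    (a.trans_eq ?_)
  · rw [sum_boole, Nat.cast_le]
    refine (not_lt.1 e).trans ?_
    rw [← ct_card, ← card_map Fin.valEmbedding]
    refine card_le_card fun i hi => ?_
    obtain ⟨c, d, -⟩ := (mem_filter.1 hi).2.1
    exact mem_map.2 ⟨⟨i, c⟩, by simpa using d, rfl⟩
  · have b : ∀ i : Fin L, (law L h0 h1).E (fun v => if v i = true then 1 else 0) = p := fun i => by
      have c := pb_pi h0 h1 (fun j => j = i) fun _ => true
      refine Eq.trans ((law L h0 h1).E_congr fun v _ => ?_)
        (c.trans ((prod_eq_single i (fun j _ e => if_neg e) (by simp)).trans (if_pos rfl)))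
      simp
    unfold FP.E at b ⊢
    simp only [mul_sum]
    rw [sum_comm, sum_congr rfl fun i _ => b i, sum_const, card_univ, Fintype.card_fin,
      nsmul_eq_mul]

theorem cm_le {M a b : ℕ} (hM : M < L) (e : a ≤ b) (hb : b ≤ L) {w : Fin L → Bool}
    (g : ct m (bt M w) L < m) : (1 - p) ^ (L - M) * cm (law L h0 h1) (fun v => fl1 a (ht M m v))
      (fun v => fl1 b (ht M m v)) w ≤ bw p a b (ht M m w) := by
  classical
  have k := cm_eq (P := law L h0 h1) (fun v => fl1 a (ht M m v)) (fun v => fl1 b (ht M m v)) w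
  rw [pb_congr (E := fun v => _ ∧ _) (F := fun v => fl1 b (ht M m v) = fl1 b (ht M m w))
    (fun v _ => ⟨And.right, fun c => ⟨fl1_eq_of_le e c, c⟩⟩), pb_fl h0 h1 hb g,
    pb_fl h0 h1 (e.trans hb) g, ← prod_range_mul_prod_Ico _ e, mul_right_inj'
      (prod_pos fun i _ => by split_ifs <;> linarith).ne'] at k
  have q : (1 - p) ^ (L - M) ≤ ∏ i ∈ Ico a b, if 1 ≤ i ∧ i ≤ M then 1 else 1 - p := by
    rw [prod_ite, prod_const_one, one_mul, prod_const]
    refine pow_le_pow_of_le_one (by linarith) (by linarith) ?_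
    refine (card_le_card (t := insert 0 (Ico (M + 1) L)) fun i hi => ?_).trans
      ((card_insert_le _ _).trans (by rw [Nat.card_Ico]; omega))
    simp only [mem_filter, mem_Ico, mem_insert] at hi ⊢
    omega
  rw [k]
  refine (mul_le_mul_of_nonneg_right q
    (prod_nonneg fun i _ => by split_ifs <;> linarith)).trans_eq ?_
  rw [← prod_mul_distrib]
  refine prod_congr rfl fun i hi => ?_
  have i1 : i + 1 ≤ L := le_trans (mem_Ico.1 hi).2 hb
  have i2 := (ct_mono m (bt M w) (Nat.le_of_succ_le i1)).trans_lt g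
  rw [ht, fl1_vl _ i1, fl1_vl _ (Nat.le_of_succ_le i1), vl]
  by_cases c : bt M w i
  · obtain ⟨_, _, d⟩ := id c
    simp [c, d, i2]
  · by_cases d : 1 ≤ i ∧ i ≤ M <;> simp [c, d]

include h0 h1 in
/-- The law of the heights. -/
theorem bern {M : ℕ} (hM : M < L) (m : ℕ) : ∃ (W : Type) (Q : FP W) (z : W → ℝ),
    (∀ w, 0 ≤ z w ∧ 2 * z w ≤ 1) ∧ (∀ w w', fl1 L (z w) = fl1 L (z w') → z w = z w') ∧
    (∀ w, ∃ J : Finset ℕ, J.card ≤ m ∧ (∀ j ∈ J, 1 ≤ j ∧ j ≤ M) ∧
      2 * z w = ∑ j ∈ J, (1 / 2 : ℝ) ^ j) ∧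
    m * pb Q (fun w => ¬∀ a b, a ≤ b → b ≤ L → (1 - p) ^ (L - M) *
      cm Q (fun v => fl1 a (z v)) (fun v => fl1 b (z v)) w ≤ bw p a b (z w)) ≤ L * p := by
  classical
  refine ⟨_, law L h0 h1, ht M m, fun w => ⟨by unfold ht; positivity, ?_⟩, fun w w' e => ?_,
    fun w => ⟨_, (ct_card m (bt M w) L).trans_le (ct_le _ _ _), fun j hj => ?_, by
      rw [ht]; convert vl_div (fun i => bt M w i ∧ ct m (bt M w) i < m) L⟩,
    le_trans (mul_le_mul_of_nonneg_left (pb_mono fun w _ e g => e fun a b c d =>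
      cm_le h0 h1 hM c d g) (Nat.cast_nonneg _)) (pb_bad h0 h1 M)⟩
  · obtain ⟨k, rfl⟩ : ∃ k, L = k + 1 := ⟨L - 1, by omega⟩
    have a := vl_lt (D := fun i => bt M w i ∧ ct m (bt M w) i < m)
      (fun ⟨⟨_, _, c, _⟩, _⟩ => absurd c (by omega)) k
    rw [ht, ← mul_div_assoc, div_le_one (by positivity)]
    exact_mod_cast (Nat.le_add_right _ _).trans a
  · rw [ht, ht, fl1_vl _ le_rfl, fl1_vl _ le_rfl, Nat.cast_inj] at e
    rw [ht, ht, e]
  · obtain ⟨_, _, c⟩ := (mem_filter.1 hj).2.1
    exact c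

end Pool.Agent.MP_5168f5_an.QA.Brn
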