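import Pool.Agent.MP_4b405e_nt.SK.SpA

/-! Sparse heights: anti-concentration of the characters of rate zero at the integer levels. -/

namespace Pool.Agent.MP_5168f5_an.QA

open H19 H17S H17F R4 AN Filter Matrix Finset
open GA (Mt br mB mC IsFr)
open G39 (dl_inv)
open LC (Au ex_le)

variable {ι κ α : Type} [Fintype ι] [DecidableEq ι] [Fintype κ] [DecidableEq κ] [Fintype α]

/-- No character of rate zero is thin on the pairs of a large part of an atom of `K`, a piece of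
depth `d`, for heights of spacing `k`. -/
def P7.Cd.AcK {Ω Λ Λ' : Type} (σ : P7.Kc ι κ) (X : P7.Cd ι κ Ω Λ) (K : Ω → Λ') (k : ℕ)
    (d u w : ℝ) : Prop := ∀ ω ∈ X.P.S, ∀ h : ℝ, h ≤ w → ∀ l : κ → ℝ,
  ∑ b, |l b| = 1 → (∀ b, l b ≠ 0 → σ.G1 b) →
  (∀ b b', σ.G1 b → σ.G1 b' → |∑ e, X.c ω b b' e * l e| ≤ Real.exp (-h)) →
  ∀ E : Ω → Prop, (∀ v ∈ X.P.S, ∀ v' ∈ X.P.S, K v = K ω → K v' = K ω → E v → E v' →
    |∑ b, l b * (Real.exp (σ.mu b * d) * GA.lg (X.B v) (X.j v) (X.j v') b)| ≤ Real.exp (-h)) →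
  pb (cv X.P K (K ω)) E ≤ Real.exp ((u - h / σ.L) / k)

/-- Increments in an atom of `K`, a piece of depth `d`, have rate zero. -/
def P7.Cd.IncK {Ω Λ Λ' : Type} (σ : P7.Kc ι κ) (X : P7.Cd ι κ Ω Λ) (K : Ω → Λ') (d u w : ℝ) :
    Prop := ∀ ω ∈ X.P.S, ∀ v ∈ X.P.S, K ω = K v → ∀ b,
  |GA.lg (X.B ω) (X.j ω) (X.j v) b| ≤ Real.exp (u - σ.mu b * d) ∧
    (σ.la b ≠ σ.mu b → |GA.lg (X.B ω) (X.j ω) (X.j v) b| ≤ Real.exp (-w - σ.mu b * d))

namespace Cp

/-- The record in the frames, with the group element. -/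
noncomputable def Zd.cd {Ω Λ L Γ : Type} (X : Zd ι κ α Ω Λ L Γ) (F F' : Matrix κ κ ℝ)
    (u u' : Ω → Matrix κ κ ℝ) : P7.Cd ι κ Ω Λ :=
  { Cp.cd X.toWn F F' u u' with j := X.g }

variable {Ω Λ L Γ : ℕ → Type} {σ : Cs ι κ α} {X : ∀ n, Zd ι κ α (Ω n) (Λ n) (L n) (Γ n)}
  {mm ϑ La D s₀ : ℝ} {vt : κ → ℝ} {F F' : ℕ → Matrix κ κ ℝ} {u u' : ∀ n, Ω n → Matrix κ κ ℝ}

theorem Cap.acL (H : Cap σ X mm ϑ La D s₀ vt F F' u u') :
    Au (fun n => (X n).M) fun n p w => ∀ d ≤ (X n).W,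
      ((X n).cd (F n) (F' n) (u n) (u' n)).AcK (kc σ La D vt) ((X n).Q d) (σ.kf n) d p w := by
  intro c hc T
  classical
  have w := H.ww
  have f := H.fr
  have al := w.ra f
  have L1 := w.ok.l1
  obtain ⟨δ, d0, d1, d2⟩ : ∃ δ : ℝ, 0 < δ ∧ 3 * δ ≤ c ∧ 6 * δ ≤ c * σ.L₁ :=
    ⟨min (c / 3) (c * σ.L₁ / 6), by positivity, by linarith [min_le_left (c / 3) (c * σ.L₁ / 6)],
      by linarith [min_le_right (c / 3) (c * σ.L₁ / 6)]⟩
  filter_upwards [w.noCh f al (show 0 < 2 * δ by positivity), H.ok _ (half_pos hc) |T|,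
    al 1 one_pos c, f.blk, f.col, w.ent f (3 * δ), w.alg,
    G39.big_dl w.big (2 * Fintype.card κ) d0]
    with n k1 k2 k3 k4 k5 k6 k7 k0 a ha ω hω h hT l l1 l2 l3 E hE
  rw [dl_inv] at k0
  obtain ⟨e1, e2, e3, -⟩ := k4 ω hω
  set M : ℝ := ((X n).M : ℝ)
  have M0 : 0 ≤ M := Nat.cast_nonneg _
  have m1 := mul_nonneg d0.le M0
  have m2 := mul_le_mul_of_nonneg_right d1 M0
  have m3 := mul_le_mul_of_nonneg_right d2 M0
  have G : ∀ b, l b ≠ 0 → 0 < σ.μ b ∧ vt b = 0 := fun b v =>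
    ⟨(l2 b v).1, by have : σ.μ b + vt b = σ.μ b := (l2 b v).2; linarith⟩
  change pb (cv (X n).P _ _) E ≤ Real.exp ((c * M - h / max 1 (max La σ.L₁)) / σ.kf n)
  rcases le_or_gt h (c * M) with z | z
  · refine (pb_le_one _ _).trans (Real.one_le_exp (div_nonneg (sub_nonneg.2 ?_) (Nat.cast_nonneg _)))
    rw [div_le_iff₀ (zero_lt_one.trans_le (le_max_left _ _))]
    exact z.trans (le_mul_of_one_le_right (by positivity) (le_max_left _ _))
  obtain ⟨b₀, hb⟩ : ∃ b, 1 ≤ Fintype.card κ * |l b| := by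
    by_contra q
    push Not at q
    rcases isEmpty_or_nonempty κ with i | i
    · simp at l1
    have := sum_lt_sum_of_nonempty univ_nonempty fun b _ => q b
    rw [← mul_sum, l1] at this
    simp at this
  let l' : κ → ℝ := fun e => if σ.μ e = σ.μ b₀ then l e else 0
  have s1 : |l b₀| ≤ ∑ e, |l' e| := le_of_eq_of_le (by simp [l'])
    (single_le_sum (f := fun e => |l' e|) (fun _ _ => abs_nonneg _) (mem_univ b₀))
  have s0 : 0 < ∑ e, |l' e| := lt_of_lt_of_le (abs_pos.2 fun q => by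
    rw [q, abs_zero, mul_zero] at hb; linarith) s1
  have s2 : ∀ {x : ℝ}, |x| ≤ 2 * Real.exp (-(c * M)) →
      |(∑ e, |l' e|)⁻¹ * x| ≤ Real.exp (-(2 * δ * M)) := fun {x} v => by
    have q : (∑ e, |l' e|)⁻¹ ≤ Fintype.card κ := by
      rw [inv_le_iff_one_le_mul₀ s0]
      exact hb.trans (mul_le_mul_of_nonneg_left s1 (Nat.cast_nonneg _))
    rw [abs_mul, abs_of_pos (inv_pos.2 s0)]
    refine (mul_le_mul q v (abs_nonneg _) (Nat.cast_nonneg _)).trans ?_
    rw [← mul_assoc, mul_comm _ 2]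
    refine (mul_le_mul_of_nonneg_right k0 (Real.exp_pos _).le).trans ?_
    rw [← Real.exp_add]
    exact ex_le (by linarith)
  obtain ⟨i, hi⟩ := k1 ω hω (σ.μ b₀) ((∑ e, |l' e|)⁻¹ • l') (fun e v => by
      have v' : l' e ≠ 0 := right_ne_zero_of_mul v
      by_cases q : σ.μ e = σ.μ b₀
      · exact ⟨G e (by simpa [l', q] using v'), q⟩
      · exact absurd (if_neg q) v') (by
      simp only [Pi.smul_apply, smul_eq_mul, abs_mul, abs_inv, abs_of_pos s0, ← mul_sum]
      exact inv_mul_cancel₀ s0.ne') fun b b' x y => by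
    simp only [Pi.smul_apply, smul_eq_mul, mul_left_comm _ (∑ e, |l' e|)⁻¹, ← mul_sum]
    refine s2 ?_
    by_cases q : σ.μ b + σ.μ b' = σ.μ b₀
    · have q1 : |∑ e, mC (u n ω * F n) (F' n * u' n ω) ((X n).c ω) b b' e * l e| ≤ _ :=
        l3 b b' ⟨x.1, by show _ + _ = σ.μ b; rw [x.2, add_zero]⟩
        ⟨y.1, by show _ + _ = σ.μ b'; rw [y.2, add_zero]⟩
      have q2 := l1_le (x := fun e => if σ.μ e = σ.μ b₀ then 0 else
          mC (u n ω * F n) (F' n * u' n ω) ((X n).c ω) b b' e) (Real.exp_pos (-(c * M))).le l1.le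
        fun e v => by
          split_ifs with r
          · rw [abs_zero]; exact (Real.exp_pos _).le
          · exact (k3 ω hω).gr b b' e (G e v).1 fun r' => r (r'.2.2.1.trans q)
      rw [show ∑ e, Cp.hc σ.μ (mC (u n ω * F n) (F' n * u' n ω) ((X n).c ω)) b b' e * l' e =
          ∑ e, mC (u n ω * F n) (F' n * u' n ω) ((X n).c ω) b b' e * l e -
          ∑ e, (if σ.μ e = σ.μ b₀ then 0 else
            mC (u n ω * F n) (F' n * u' n ω) ((X n).c ω) b b' e) * l e by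
        rw [← sum_sub_distrib]
        refine sum_congr rfl fun e _ => ?_
        by_cases r : σ.μ e = σ.μ b₀
        · simp [l', r, Cp.hc, Hw, x.1, y.1, q]
        · simp [l', r]]
      exact (abs_sub _ _).trans (by linarith [q1.trans (ex_le (neg_le_neg z.le))])
    · rw [sum_eq_zero fun e _ => ?_, abs_zero]
      · positivity
      · by_cases r : σ.μ e = σ.μ b₀
        · rw [Cp.hc, if_neg fun r' => q (r'.2.2.symm.trans r), zero_mul]
        · simp [l', r]
  have hg := ((k7 ω hω).hg i).vecMul (F := F' n * u' n ω) fun a e q => (e3 e a q).symm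
  have h1 : Real.exp (-(3 * δ * M)) ≤ |∑ e, ((X n).A ω i ᵥ* (F' n * u' n ω)) e * l e| := by
    rw [smul_dotProduct, smul_eq_mul, abs_mul, abs_of_pos (inv_pos.2 s0)] at hi
    by_cases q : σ.η i = σ.μ b₀
    · rw [show ∑ e, ((X n).A ω i ᵥ* (F' n * u' n ω)) e * l e =
          l' ⬝ᵥ ((X n).A ω i ᵥ* (F' n * u' n ω)) from sum_congr rfl fun e _ => by
        by_cases r : ((X n).A ω i ᵥ* (F' n * u' n ω)) e = 0
        · simp [r]
        · simp [l', (hg e r).trans q, mul_comm]]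
      rw [lt_inv_mul_iff₀ s0] at hi
      refine le_trans ?_ hi.le
      rw [show -(3 * δ * M) = -(δ * M) + -(2 * δ * M) by ring, Real.exp_add]
      refine mul_le_mul_of_nonneg_right (le_trans ?_ s1) (Real.exp_pos _).le
      rw [Real.exp_neg, inv_le_iff_one_le_mul₀' (Real.exp_pos _)]
      exact hb.trans (mul_le_mul_of_nonneg_right
        (by linarith [Nat.cast_nonneg (α := ℝ) (Fintype.card κ)]) (abs_nonneg _))
    · rw [Hg.dot (wt := σ.μ) (μ := σ.μ b₀) (fun e v => by_contra fun r => v (if_neg r)) hg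
        (Ne.symm q), abs_zero, mul_zero] at hi
      exact absurd hi (Real.exp_pos _).not_gt
  have p3 := Real.exp_pos (3 * δ * M)
  have F0 : 0 ≤ (X n).F := nonneg_of_mul_nonneg_right
    ((abs_nonneg _).trans (k6 ω hω b₀ b₀)) (Real.exp_pos _)
  refine (k2.ac a ha ω hω (h - 3 * δ * M) (by
      linarith [mul_le_mul_of_nonneg_right (le_abs_self T) M0, show h ≤ T * M from hT])
    (Real.exp (3 * δ * M) • ((F' n * u' n ω) *ᵥ l)) E (fun b => ⟨fun q => ?_, ?_⟩) ⟨i, ?_⟩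
    fun v v' x y ev ev' => ?_).trans (ex_le (div_le_div_of_nonneg_right ?_ (Nat.cast_nonneg _)))
  · refine mul_eq_zero_of_right _ (sum_eq_zero fun e _ => not_not.1 fun r => ?_)
    linarith [e3 e b (left_ne_zero_of_mul r), (G e (right_ne_zero_of_mul r)).1]
  · rw [Pi.smul_apply, smul_eq_mul, abs_mul, abs_of_pos p3]
    refine (mul_le_mul_of_nonneg_left (l1_le (by positivity) l1.le fun e _ => k6 ω hω b e)
      p3.le).trans ?_
    rw [← mul_assoc, ← Real.exp_add, add_neg_cancel, Real.exp_zero, one_mul]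
    exact le_mul_of_one_le_right F0 (Real.one_le_exp (by positivity))
  · rw [smul_dotProduct, smul_eq_mul, abs_mul, abs_of_pos p3, mulVec_dot]
    refine le_trans ?_ (mul_le_mul_of_nonneg_left h1 p3.le)
    rw [← Real.exp_add, add_neg_cancel, Real.exp_zero]
  · have q := hE v x.2.1 v' y.2.1 x.2.2.symm y.2.2.symm ev ev'
    have t : GA.lg (GA.mB (u n v * F n) ((X n).B v)) ((X n).g v) ((X n).g v') =
        (X n).Y.t v v' ᵥ* (F' n * u' n v) := by
      rw [(k2.ex v x.2.1 v' y.2.1).1]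
      exact lg_mB (k7 v x.2.1).fr (k4 v x.2.1).1 (k2.unit v x.2.1) _
    rw [show ∑ b, (Real.exp (3 * δ * M) • ((F' n * u' n ω) *ᵥ l)) b *
        (Real.exp (σ.μ b * a) * (X n).Y.t v v' b) = Real.exp (3 * δ * M) * ∑ e, l e *
        (Real.exp (σ.μ e * a) * GA.lg (GA.mB (u n v * F n) ((X n).B v)) ((X n).g v) ((X n).g v') e)
        from ?_, abs_mul,
      abs_of_pos p3]
    · refine (mul_le_mul_of_nonneg_left q p3.le).trans_eq ?_
      rw [← Real.exp_add]; congr 1; ring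
    simp only [Pi.smul_apply, smul_eq_mul, mul_assoc, ← mul_sum]
    congr 1
    simp only [mulVec, dotProduct, sum_mul]
    refine sum_comm.trans (sum_congr rfl fun e _ => ?_)
    by_cases r : l e = 0
    · simp [r]
    rw [t]
    simp only [vecMul, dotProduct, mul_sum]
    refine sum_congr rfl fun b _ => ?_
    rw [k5 v x.2.1 b e (G e r).2, ← k5 ω hω b e (G e r).2]
    by_cases r' : (F' n * u' n ω) b e = 0
    · simp [r']
    · rw [e3 e b r']; ring
  · have q1 : h / max 1 (max La σ.L₁) ≤ h / σ.L₁ := div_le_div_of_nonneg_left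
      (by nlinarith) L1 ((le_max_right _ _).trans (le_max_right _ _))
    have q2 : 3 * δ * M / σ.L₁ ≤ c / 2 * M := by rw [div_le_iff₀ L1]; linarith
    rw [sub_div]
    linarith

theorem Cap.incL (H : Cap σ X mm ϑ La D s₀ vt F F' u u') :
    Au (fun n => (X n).M) fun n p w => ∀ d ≤ (X n).W,
      ((X n).cd (F n) (F' n) (u n) (u' n)).IncK (kc σ La D vt) ((X n).Q d) d p w := by
  intro c hc T
  have w := H.ww
  have f := H.fr
  obtain ⟨x, hx⟩ : ∃ x : ℚ, ∀ e, 0 < vt e → |T| + c ≤ vt e * x := by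
    obtain ⟨y, hy⟩ := Finite.exists_le fun e => (|T| + c) / vt e
    obtain ⟨x, hx⟩ := exists_rat_gt y
    exact ⟨x, fun e p => (div_le_iff₀' p).1 ((hy e).trans hx.le)⟩
  have c4 : 0 < c / 4 := by positivity
  filter_upwards [H.ok _ c4 0, f.blk, w.ent f (|T| + c), w.alg, w.dir f 0 c4, w.dir f x c4,
    f.dia 0 _ c4, w.good 0, G39.big_dl w.big (Fintype.card κ + 1) c4,
    G39.big_dl w.big (Fintype.card α + 1) c4]
    with n k2 k4 k6 k7 k8 k9 k1 k3 n1 n2 a ha ω hω v hv e b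
  rw [dl_inv] at n1 n2
  obtain ⟨e1, -, e3, -⟩ := k4 ω hω
  obtain ⟨s, s1, s2⟩ := k2.inc a ha ω v ⟨hω, hv, e⟩
  set M : ℝ := ((X n).M : ℝ)
  have M0 : 0 ≤ M := Nat.cast_nonneg _
  have m1 := mul_le_mul_of_nonneg_right (le_abs_self T) M0
  have m2 := mul_nonneg (abs_nonneg T) M0
  have m3 := mul_nonneg hc.le M0
  have t : GA.lg (GA.mB (u n ω * F n) ((X n).B ω)) ((X n).g ω) ((X n).g v) b =
      0 + ∑ e, ((X n).Y.t ω v e - ∑ i, s i * (X n).A ω i e) * (F' n * u' n ω) e b +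
        ∑ i, s i * ((X n).A ω i ᵥ* (F' n * u' n ω)) b := by
    rw [(k2.ex ω hω v hv).1, lg_mB (k7 ω hω).fr e1 (k2.unit ω hω)]
    simp only [vecMul, dotProduct, sub_mul, sum_sub_distrib, sum_mul, mul_sum, mul_assoc]
    rw [sum_comm (f := fun e i => s i * ((X n).A ω i e * (F' n * u' n ω) e b))]
    ring
  have hg : ∀ i, ((X n).A ω i ᵥ* (F' n * u' n ω)) b ≠ 0 → σ.μ b = σ.η i := fun i =>
    ((k7 ω hω).hg i).vecMul (F := F' n * u' n ω) (fun a e q => (e3 e a q).symm) b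
  have key : ∀ y z : ℝ, y ≤ z → (0 < σ.μ b → -((|T| + c) * M) ≤ y) → (σ.μ b = 0 → c / 4 * M ≤ y) →
      (∀ i, |((X n).A ω i ᵥ* (F' n * u' n ω)) b| ≤ Real.exp (c / 4 * M + z)) →
      |GA.lg (GA.mB (u n ω * F n) ((X n).B ω)) ((X n).g ω) ((X n).g v) b| ≤
        Real.exp (3 * (c / 4 * M) + z - σ.μ b * a) := fun y z yz y1 y2 z1 => by
    rw [t]
    refine (Nm5.sum_le n2 ((Nm5.sum_le n1 (y := c / 4 * M - σ.μ b * a + y)
      (by rw [abs_zero]; positivity) fun e => ?_).trans (ex_le (b := c / 4 * M - σ.μ b * a +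
        (c / 4 * M + z)) (by linarith))) fun i => ?_).trans (ex_le (by linarith))
    · by_cases q : (F' n * u' n ω) e b = 0
      · rw [q, mul_zero, abs_zero]; positivity
      have q1 := s2 e
      rw [e3 b e q] at q1
      rcases (w.ok.m0 b).eq_or_lt with r | r
      · rw [flr, if_neg (by rw [e3 b e q, ← r]; exact lt_irrefl _), mul_one] at q1
        refine (Nm5.mul_le q1 (y' := c / 4 * M) ?_).trans (ex_le (by linarith [y2 r.symm]))
        have := (k1 ω hω).2 (Pi.single e 1) (fun φ p => by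
          have := ((k3 ω hω).ok φ p).f e
          rw [dotProduct_single, mul_one]
          refine this.trans_eq ?_
          change 1 * flr σ.μ _ e = 1
          rw [flr, if_neg (by rw [e3 b e q, ← r]; exact lt_irrefl _), mul_one]) b
        simpa using this
      · rw [flr, if_pos (by rw [e3 b e q]; exact r)] at q1
        rw [abs_mul]
        refine (mul_le_mul_of_nonneg_left (k6 ω hω e b) (abs_nonneg _)).trans ?_
        rw [mul_left_comm, add_comm _ y, Real.exp_add]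
        exact mul_le_mul (ex_le (y1 r)) q1 (by
          have F0 : 0 ≤ (X n).F := nonneg_of_mul_nonneg_right
            ((abs_nonneg _).trans (k6 ω hω b b)) (Real.exp_pos _)
          positivity) (Real.exp_pos _).le
    · by_cases q : ((X n).A ω i ᵥ* (F' n * u' n ω)) b = 0
      · rw [q, mul_zero, abs_zero]; positivity
      have q1 := s1 i
      rw [← hg i q] at q1
      exact Nm5.mul_le q1 (z1 i)
  refine ⟨(key (c / 4 * M) (c / 4 * M) le_rfl (fun _ => by linarith) (fun _ => le_rfl) fun i =>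
    (k8 ω hω i b).trans (ex_le (by simp only [Rat.cast_zero]; linarith))).trans (ex_le ?_),
    fun q => ?_⟩
  · change _ ≤ c * M - σ.μ b * a
    linarith
  · have p : 0 < vt b := (f.v0 b).1.lt_of_ne' fun y => q (by
      change σ.μ b + vt b = σ.μ b
      rw [y, add_zero])
    refine (key _ _ le_rfl (fun _ => le_rfl) (fun y => absurd (f.dead b y) p.ne') fun i =>
      (k9 ω hω i b).trans (ex_le ?_)).trans (ex_le ?_)
    · linarith [mul_le_mul_of_nonneg_right (hx b p) M0]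
    · change _ ≤ -(T * M) - σ.μ b * a
      linarith

end Cp

end Pool.Agent.MP_5168f5_an.QA
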