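import Pool.Agent.MP_4b405e_nt.SK.CFr
import Pool.Agent.MP_4b405e_nt.SK.Haz
import Pool.Agent.MP_4b405e_nt.SK.FDef
import Pool.Agent.MP_5168f5_an.AN.GAAll2

/-! Sparse heights: a character is not thin on the relatives of one point. -/

namespace Pool.Agent.MP_5168f5_an.QA

open H19 H17S H17F R4 AN Filter Matrix Finset
open GA (Mt br mB mC IsFr)
open LC (ex_le)
open Cp (Hw l1_le)

variable {ι κ : Type} [Fintype ι] [DecidableEq ι] [Fintype κ] [DecidableEq κ]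

namespace P7.Cd

omit [DecidableEq κ] in
/-- A character stays a character after a dilation. -/
theorem dil {μ l : κ → ℝ} {c : κ → ℝ} {m x y h : ℝ} (l1 : ∑ e, |l e| ≤ 1)
    (h1 : |∑ e, c e * l e| ≤ Real.exp (-h)) (h2 : ∀ e, l e ≠ 0 → μ e ≠ m → |c e| ≤ Real.exp (-h))
    (h3 : m * x ≤ y) (h4 : ∀ e, μ e * x ≤ y) :
    |∑ e, c e * (Real.exp (μ e * x) * l e)| ≤ 3 * Real.exp (y - h) := by
  have q := l1_le (x := fun e => c e * (Real.exp (μ e * x) - Real.exp (m * x)))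
    (R := 2 * Real.exp (y - h)) (by positivity) l1 fun e v => by
      by_cases r : μ e = m
      · rw [r, sub_self, mul_zero, abs_zero]; positivity
      · rw [abs_mul, sub_eq_add_neg y, Real.exp_add, ← mul_assoc, mul_comm]
        refine mul_le_mul ((abs_sub _ _).trans ?_) (h2 e v r) (abs_nonneg _) (by positivity)
        rw [Real.abs_exp, Real.abs_exp]
        linarith [ex_le h3, ex_le (h4 e)]
  have q' := (Cp.Nm5.mul_le ((Real.abs_exp _).trans_le (ex_le h3)) h1)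
  rw [show ∑ e, c e * (Real.exp (μ e * x) * l e) = ∑ e, c e * (Real.exp (μ e * x) -
      Real.exp (m * x)) * l e + Real.exp (m * x) * ∑ e, c e * l e by
    rw [mul_sum, ← sum_add_distrib]
    exact sum_congr rfl fun _ _ => by ring]
  refine (abs_add_le _ _).trans ?_
  rw [← sub_eq_add_neg] at q'
  linarith

omit [DecidableEq κ] in
/-- A character is not thin, around any centre, on the increments from one point. -/
theorem one (σ : Kc ι κ) (m0 : ∀ a, 0 ≤ σ.mu a) (vt : ∀ a, σ.mu a ≤ σ.la a) :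
    ∃ C : ℝ, 0 ≤ C ∧ ∀ (Ω Λ Λ' : Type)
    (X : Cd ι κ Ω Λ) (K : Ω → Λ') (k : ℕ) (d d₀ W u w h z : ℝ) (ω : Ω) (x : Mt ι) (l : κ → ℝ)
    (E : Ω → Prop), 0 ≤ u → 0 ≤ w → X.AcK σ K k d u w → X.AlgL σ W w → X.Alg σ u w ω →
    0 ≤ d₀ → d₀ ≤ W →
    (∀ b, |σ.mu b * (d₀ - d)| ≤ u) → ω ∈ X.P.S → IsFr σ.Φ (X.B ω) (X.c ω) → IsUnit x → h ≤ w →
    Real.exp (-u) ≤ ∑ b, |l b| → (∀ b, l b ≠ 0 → σ.G1 b) →
    (∀ b b', σ.G1 b → σ.G1 b' → |∑ e, X.c ω b b' e * l e| ≤ Real.exp (-h)) →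
    (∀ v ∈ X.P.S, K v = K ω → E v → X.B v = X.B ω ∧ ∃ s, X.j v = x * GA.ex (X.B ω) s ∧
      (∀ b, |s b| ≤ Real.exp (u - σ.mu b * d₀)) ∧
      |∑ b, l b * (Real.exp (σ.mu b * d₀) * s b) - z| ≤ Real.exp (-h)) →
    pb (cv X.P K (K ω)) E ≤ Real.exp ((u - (h - C * (u + 1)) / σ.L) / k) := by
  classical
  obtain ⟨K₀, k0, ab⟩ := GA.sAbel σ.Φ.N (Fintype.card κ)
  have K0 : (0 : ℝ) ≤ K₀ := Nat.cast_nonneg _
  refine ⟨K₀ * K₀ + K₀ + 6, by positivity, ?_⟩
  intro Ω Λ Λ' X K k d d₀ W u w h z ω x l E u0 w0 ac gl al d0 d1 dd hω fr ux hw l0 l2 l3 hE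
  have mu := GA.sMul _ _ _ _ _ fr
  have s0 := (Real.exp_pos _).trans_le l0
  obtain ⟨m, hm⟩ : ∃ m : κ → ℝ, m = (∑ b, |l b|)⁻¹ • l := ⟨_, rfl⟩
  have m1 : ∑ b, |m b| = 1 := by
    simp only [hm, Pi.smul_apply, smul_eq_mul, abs_mul, abs_inv, abs_of_pos s0, ← mul_sum]
    exact inv_mul_cancel₀ s0.ne'
  have m2 : ∀ b, m b ≠ 0 → σ.G1 b := fun b v => l2 b (right_ne_zero_of_mul (hm ▸ v))
  have sc : ∀ {y t : ℝ}, Real.exp (-u) ≤ t → ∀ {r : ℝ}, |y| ≤ Real.exp r →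
      |t⁻¹ * y| ≤ Real.exp (u + r) := fun {y t} q {r} v => Cp.Nm5.mul_le (by
    rw [abs_of_pos (inv_pos.2 ((Real.exp_pos _).trans_le q))]
    exact (inv_anti₀ (Real.exp_pos _) q).trans_eq (by rw [Real.exp_neg, inv_inv])) v
  have m3 : ∀ b b', σ.G1 b → σ.G1 b' → |∑ e, X.c ω b b' e * m e| ≤ Real.exp (-(h - u)) :=
    fun b b' p q => by
      simp only [hm, Pi.smul_apply, smul_eq_mul, mul_left_comm _ (∑ e, |l e|)⁻¹, ← mul_sum]
      exact (sc l0 (l3 b b' p q)).trans (ex_le (by linarith))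
  have t0 : Real.exp (-u) ≤ ∑ b, |Real.exp (σ.mu b * (d₀ - d)) * m b| := by
    rw [← mul_one (Real.exp _), ← m1, mul_sum]
    exact sum_le_sum fun b _ => by
      rw [abs_mul, Real.abs_exp]
      exact mul_le_mul_of_nonneg_right (ex_le (neg_le_of_abs_le (dd b))) (abs_nonneg _)
  have t1 := (Real.exp_pos _).trans_le t0
  have e3 : (3 : ℝ) ≤ Real.exp 2 := by linarith [Real.add_one_le_exp (2 : ℝ)]
  have hu : 0 ≤ K₀ * u := by positivity
  have hu' : 0 ≤ K₀ * K₀ * u := by positivity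
  have hk : (0 : ℝ) ≤ K₀ * K₀ := by positivity
  refine ac ω hω _ (by linarith) ((∑ b, |Real.exp (σ.mu b * (d₀ - d)) * m b|)⁻¹ •
    fun b => Real.exp (σ.mu b * (d₀ - d)) * m b) ?_
    (fun b v => m2 b (right_ne_zero_of_mul (right_ne_zero_of_mul v))) (fun b b' p q => ?_) E
    fun v hv v' hv' o o' ev ev' => ?_
  · simp only [Pi.smul_apply, smul_eq_mul, abs_mul _ (_ * _), abs_inv, abs_of_pos t1, ← mul_sum]
    exact inv_mul_cancel₀ t1.ne'
  · simp only [Pi.smul_apply, smul_eq_mul, mul_left_comm _ (∑ e, |_ * m e|)⁻¹, ← mul_sum]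
    refine (sc t0 (r := 2 + (2 * u - (h - u))) ((dil (m := σ.mu b + σ.mu b') (y := 2 * u) m1.le
      (m3 b b' p q) (fun e v r => (al.gr b b' e (m2 e v).1 fun r' => r r'.2.2.1).trans
        (ex_le (by linarith))) (by linarith [le_of_abs_le (dd b), le_of_abs_le (dd b')])
      fun e => by linarith [le_of_abs_le (dd e)]).trans ?_)).trans (ex_le (by linarith))
    rw [Real.exp_add]
    exact mul_le_mul_of_nonneg_right e3 (Real.exp_pos _).le
  obtain ⟨b1, s, s1, s2, s3⟩ := hE v hv o ev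
  obtain ⟨-, s', s1', s2', s3'⟩ := hE v' hv' o' ev'
  have t : GA.lg (X.B v) (X.j v) (X.j v') = GA.bch σ.Φ.N (X.c ω) (-s) s' := by
    rw [b1, s1', show x * GA.ex (X.B ω) s' = X.j v * GA.ex (X.B ω)
      (GA.bch σ.Φ.N (X.c ω) (-s) s') by
        rw [← mu.mul, s1, mul_assoc, ← mul_assoc (GA.ex _ s), (mu.neg s).2, one_mul]]
    exact mu.lg _ _ (s1 ▸ ux.mul (IsUnit.of_mul_eq_one _ (mu.neg s).2))
  have bx : ∀ {y : κ → ℝ}, (∀ b, |y b| ≤ Real.exp (u - σ.mu b * d₀)) →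
      GA.Bx (fun a => Real.exp (-(σ.mu a * d₀))) (Real.exp u) y := fun q b =>
    (q b).trans_eq (Real.exp_add _ _)
  have ee : ∀ a b e, Real.exp (σ.mu e * d₀) * Real.exp (-(σ.mu a * d₀)) *
      Real.exp (-(σ.mu b * d₀)) = Real.exp ((σ.mu e - σ.mu a - σ.mu b) * d₀) := fun a b e => by
    rw [← Real.exp_add, ← Real.exp_add]; congr 1; ring
  have nh : ∀ a b e, 0 < σ.mu e → ¬Hw σ.mu a b e →
      |X.c ω a b e * Real.exp ((σ.mu e - σ.mu a - σ.mu b) * d₀)| ≤ Real.exp (-(h - u)) :=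
    fun a b e p q => by
      rw [abs_mul, Real.abs_exp]
      exact (gl ω hω d₀ d0 d1 a b e p q).trans (ex_le (by linarith))
  have hz : ∀ a b e, Hw σ.mu a b e → Real.exp ((σ.mu e - σ.mu a - σ.mu b) * d₀) = 1 :=
    fun a b e q => by rw [q.2.2, add_sub_cancel_left, sub_self, zero_mul, Real.exp_zero]
  have key := (ab κ (X.c ω) (fun a => Real.exp (-(σ.mu a * d₀)))
    (fun e => Real.exp (σ.mu e * d₀) * m e) (Real.exp u) (3 * Real.exp (-(h - u))) (-s) s' s s'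
    le_rfl (Real.one_le_exp u0) (by positivity) (fun _ => (Real.exp_pos _).le) (fun a b e => by
      refine le_of_mul_le_mul_left ?_ (Real.exp_pos (σ.mu e * d₀))
      rw [mul_left_comm _ (Real.exp u), ← Real.exp_add (_ * _), add_neg_cancel, Real.exp_zero,
        mul_one, show ∀ p q r t : ℝ, p * (q * r * t) = q * (p * r * t) from fun _ _ _ _ => by ring,
        ee]
      by_cases q : Hw σ.mu a b e
      · rw [hz a b e q, mul_one]; exact al.ob a b e
      rcases (m0 e).eq_or_lt with p | p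
      · refine (mul_le_of_le_one_right (abs_nonneg _) (Real.exp_le_one_iff.2 ?_)).trans
          (al.ob a b e)
        exact mul_nonpos_of_nonpos_of_nonneg (by linarith [m0 a, m0 b]) d0
      · exact (gl ω hω d₀ d0 d1 a b e p q).trans (ex_le (by linarith))) (fun a b => by
      have q := l1_le (x := fun e => X.c ω a b e * Real.exp ((σ.mu e - σ.mu a - σ.mu b) * d₀) -
          if σ.G1 a ∧ σ.G1 b then X.c ω a b e else 0) (R := 2 * Real.exp (-(h - u)))
        (by positivity) m1.le fun e v => by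
          have g := m2 e v
          have p := Real.exp_pos (-(h - u))
          by_cases r : Hw σ.mu a b e
          · rw [hz a b e r, mul_one]
            split_ifs with y
            · rw [sub_self, abs_zero]; positivity
            · rw [sub_zero]
              refine ((al.gr a b e g.1 fun r' => y ⟨⟨r.1, ?_⟩, r.2.1, ?_⟩).trans
                (ex_le (b := -(h - u)) (by linarith))).trans (by linarith) <;>
                linarith [vt a, vt b, g.2, r'.2.2.2, r.2.2]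
          · refine (abs_sub _ _).trans ?_
            have := (al.gr a b e g.1 fun r' => r ⟨r'.1, r'.2.1, r'.2.2.1⟩).trans
              (ex_le (b := -(h - u)) (by linarith))
            split_ifs
            · linarith [nh a b e g.1 r]
            · rw [abs_zero]; linarith [nh a b e g.1 r]
      have q' : |if σ.G1 a ∧ σ.G1 b then ∑ e, X.c ω a b e * m e else 0| ≤ Real.exp (-(h - u)) := by
        split_ifs with y
        · exact m3 a b y.1 y.2
        · rw [abs_zero]; positivity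
      rw [← Real.abs_exp (-(σ.mu a * d₀)), ← Real.abs_exp (-(σ.mu b * d₀)), ← abs_mul, ← abs_mul,
        show (fun e => Real.exp (σ.mu e * d₀) * m e) ⬝ᵥ X.c ω a b * Real.exp (-(σ.mu a * d₀)) *
          Real.exp (-(σ.mu b * d₀)) = ∑ e, (X.c ω a b e * Real.exp ((σ.mu e - σ.mu a - σ.mu b) *
            d₀) - if σ.G1 a ∧ σ.G1 b then X.c ω a b e else 0) * m e +
            if σ.G1 a ∧ σ.G1 b then ∑ e, X.c ω a b e * m e else 0 by
          simp only [← ee]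
          simp only [dotProduct, sum_mul, sub_mul, sum_sub_distrib]
          split_ifs
          · rw [sub_add_cancel]; exact sum_congr rfl fun _ _ => by ring
          · simp only [zero_mul, sum_const_zero, sub_zero, add_zero]
            exact sum_congr rfl fun _ _ => by ring]
      exact (abs_add_le _ _).trans (by linarith))
    (fun b => (abs_neg _).trans_le (bx s2 b)) (bx s2') (bx s2) (bx s2')).1
  have th : ∀ {y : κ → ℝ}, |∑ b, l b * (Real.exp (σ.mu b * d₀) * y b) - z| ≤ Real.exp (-h) →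
      |(fun e => Real.exp (σ.mu e * d₀) * m e) ⬝ᵥ y - (∑ b, |l b|)⁻¹ * z| ≤
        Real.exp (-(h - u)) := fun {y} q => by
    rw [show (fun e => Real.exp (σ.mu e * d₀) * m e) ⬝ᵥ y = (∑ b, |l b|)⁻¹ *
        ∑ b, l b * (Real.exp (σ.mu b * d₀) * y b) by
      rw [mul_sum, hm]
      exact sum_congr rfl fun _ _ => by simp only [Pi.smul_apply, smul_eq_mul]; ring, ← mul_sub]
    exact (sc l0 q).trans (ex_le (by linarith))
  have pw : (K₀ * Real.exp u) ^ K₀ ≤ Real.exp (K₀ * (K₀ + u)) := by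
    rw [Real.exp_nat_mul, Real.exp_add]
    gcongr
    linarith [Real.add_one_le_exp (K₀ : ℝ)]
  have p1 := Real.one_le_exp (show 0 ≤ K₀ * (K₀ + u) by positivity)
  have e5 : (5 : ℝ) ≤ Real.exp 4 := by linarith [Real.add_one_le_exp (4 : ℝ)]
  rw [t, show ∑ b, ((∑ b, |Real.exp (σ.mu b * (d₀ - d)) * m b|)⁻¹ •
      fun b => Real.exp (σ.mu b * (d₀ - d)) * m b) b * (Real.exp (σ.mu b * d) *
        GA.bch σ.Φ.N (X.c ω) (-s) s' b) = (∑ b, |Real.exp (σ.mu b * (d₀ - d)) * m b|)⁻¹ *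
      ((fun e => Real.exp (σ.mu e * d₀) * m e) ⬝ᵥ GA.bch σ.Φ.N (X.c ω) (-s) s') by
    rw [dotProduct, mul_sum]
    refine sum_congr rfl fun b _ => ?_
    rw [show σ.mu b * d₀ = σ.mu b * (d₀ - d) + σ.mu b * d by ring, Real.exp_add]
    simp only [Pi.smul_apply, smul_eq_mul]
    ring]
  refine (sc t0 (r := 4 + (K₀ * (K₀ + u) + -(h - u))) ?_).trans (ex_le (by linarith))
  rw [dotProduct_sub, dotProduct_sub, dotProduct_neg] at key
  have a1 := abs_le.1 (th s3)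
  have a2 := abs_le.1 (th s3')
  have a3 := abs_le.1 (key.trans (mul_le_mul_of_nonneg_right pw (by positivity)))
  have a4 := le_mul_of_one_le_left (Real.exp_pos (-(h - u))).le p1
  have a5 := mul_le_mul_of_nonneg_right e5
    (mul_pos (Real.exp_pos (K₀ * (K₀ + u))) (Real.exp_pos (-(h - u)))).le
  rw [Real.exp_add, Real.exp_add, abs_le]
  constructor <;> linarith [a1.1, a1.2, a2.1, a2.2, a3.1, a3.2]

omit [DecidableEq κ] in
/-- A character is not thin on the relatives of one point at the level `c + j`. -/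
theorem rel (σ : Kc ι κ) (m0 : ∀ a, 0 ≤ σ.mu a) (vt : ∀ a, σ.mu a ≤ σ.la a) :
    ∃ C : ℝ, 0 ≤ C ∧ ∀ (Ω Λ L : Type) (X : Cd ι κ Ω Λ) (ln : Ω → L) (zz : Ω → ℝ) (k c j : ℕ)
    (W u w h z : ℝ) (o : Ω) (l : κ → ℝ) (G : Ω → Prop), 0 ≤ w → (∀ b, σ.mu b ≤ u) →
    X.AcK σ (Haz.Oc ln zz (c + (j + 1))) k (j + 1 : ℕ) u w →
    X.IncK σ (Haz.Oc ln zz (c + j)) j u w → X.AlgL σ W w → (∀ ω ∈ X.P.S, X.Alg σ u w ω) →
    (j : ℝ) ≤ W → o ∈ X.P.S → IsFr σ.Φ (X.B o) (X.c o) → IsUnit (X.j o) →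
    (∀ v ∈ X.P.S, Haz.Oc ln zz (c + j) v = Haz.Oc ln zz (c + j) o → X.B v = X.B o ∧
      X.c v = X.c o ∧ X.j v = X.j o * GA.ex (X.B o) (GA.lg (X.B o) (X.j o) (X.j v))) → h ≤ w →
    Real.exp (-u) ≤ ∑ b, |l b| → (∀ b, l b ≠ 0 → σ.G1 b) →
    (∀ b b', σ.G1 b → σ.G1 b' → |∑ e, X.c o b b' e * l e| ≤ Real.exp (-h)) →
    (∀ v ∈ X.P.S, Haz.Oc ln zz (c + j) v = Haz.Oc ln zz (c + j) o → G v →
      Haz.one zz (c + j) v ∧ |∑ b, l b * (Real.exp (σ.mu b * j) *
        GA.lg (X.B o) (X.j o) (X.j v) b) - z| ≤ Real.exp (-h)) →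
    pb (cE (Haz.pc X.P ln zz (c + j) o) (Haz.one zz (c + j))) G ≤
      Real.exp ((u - (h - C * (u + 1)) / σ.L) / k) := by
  obtain ⟨C, c0, H⟩ := one σ m0 vt
  refine ⟨C, c0, ?_⟩
  intro Ω Λ L X ln zz k c j W u w h z o l G w0 mu ac ic gl al jW ho fr ux eq hw l0 l2 l3 hG
  by_contra q
  obtain ⟨ω, h1, h2⟩ := ex_of_pb ((Real.exp_pos _).trans (not_le.1 q))
  obtain ⟨hω, e⟩ := (Haz.mem_pc ho).1 (cE_sub h1)
  obtain ⟨b1, b2, -⟩ := eq ω hω e
  rw [Haz.child hω e (hG ω hω e h2).1] at q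
  refine q (H Ω Λ _ X _ k _ j W u w h z ω (X.j o) l G ((m0 σ.τ).trans (mu _)) w0 ac gl (al ω hω)
    (Nat.cast_nonneg _) jW (fun b => ?_) hω (by rw [b1, b2]; exact fr) ux hw l0 l2
    (by rw [b2]; exact l3) fun v hv e' g => ?_)
  · push_cast
    rw [sub_add_cancel_left, mul_neg, mul_one, abs_neg, abs_of_nonneg (m0 b)]
    exact mu b
  · have e2 := (Haz.fnO (c + j).le_succ v hv ω hω e').trans e
    rw [b1]
    exact ⟨(eq v hv e2).1, _, (eq v hv e2).2.2, fun b => (ic o ho v hv e2.symm b).1,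
      (hG v hv e2 g).2⟩

end P7.Cd

/-! ### Small conditional probabilities -/

/-- The event `T` has probability at most `δ` in every atom of `Θ`. -/
def Fib {Ω β : Type} (P : FP Ω) (Θ : Ω → β) (T : Ω → Prop) (δ : ℝ) : Prop :=
  ∀ ω ∈ P.S, pb (cv P Θ (Θ ω)) T ≤ δ

namespace Fib

variable {Ω Ω' β γ : Type} {P : FP Ω} {Θ : Ω → β} {Y : Ω → γ} {T T' E : Ω → Prop} {δ δ' : ℝ}

theorem pb_cv (P : FP Ω) (Θ : Ω → β) (E : Ω → Prop) :
    pb P E = P.E fun a => pb (cv P Θ (Θ a)) E :=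
  KEA.exp P Θ fun _ ω => @ite ℝ (E ω) (Classical.propDecidable _) 1 0

theorem iff : Fib P Θ T δ ↔ ∀ A : Ω → Prop, Fn P A Θ →
    pb P (fun ω => A ω ∧ T ω) ≤ δ * pb P A := by
  classical
  refine ⟨fun h A f => ?_, fun h ω hω => ?_⟩
  · rw [pb_cv P Θ, pb_cv P Θ A, ← FP.E_mul]
    refine P.E_mono fun ω hω => ?_
    have m : ∀ v ∈ (cv P Θ (Θ ω)).S, A v = A ω := fun v hv =>
      f v ((S20.mem_cv hω v).1 hv).1 ω hω ((S20.mem_cv hω v).1 hv).2
    by_cases a : A ω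
    · rw [pb_congr (E := A) (F := fun _ => True) fun v hv => by simp [m v hv, a], pb_true, mul_one]
      exact (pb_mono fun _ _ k => k.2).trans (h ω hω)
    · rw [pb_zero fun v hv k => a (m v hv ▸ k.1), pb_zero fun v hv k => a (m v hv ▸ k), mul_zero]
  · have := h (fun v => Θ v = Θ ω) fun _ _ _ _ e => by simp only [e]
    rw [← pb_cE, mul_comm δ] at this
    exact le_of_mul_le_mul_left this (pb_pos P ⟨ω, hω, rfl⟩)

theorem mono (h : Fib P Θ T δ) (k : ∀ ω ∈ P.S, T' ω → T ω) (e : δ ≤ δ') : Fib P Θ T' δ' :=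
  fun ω hω => ((pb_mono fun v hv => k v (cE_sub hv)).trans (h ω hω)).trans e

/-- A coarser label. -/
theorem coarse (h : Fib P Θ T δ) (f : Fn P Y Θ) : Fib P Y T δ :=
  iff.2 fun A a => iff.1 h A (a.trans f)

/-- Restriction to an event that the label reads. -/
theorem res (h : Fib P Θ T δ) (f : Fn P E Θ) : Fib (cE P E) Θ T δ := by
  by_cases x : ∃ ω ∈ P.S, E ω
  · intro ω hω
    obtain ⟨h1, h2⟩ := (mem_cE x ω).1 hω
    rw [cv, cE_cE (E' := fun v => Θ v = Θ ω) ⟨ω, h1, h2, rfl⟩, cE_congr (E' := fun v => Θ v = Θ ω) fun v hv =>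
      ⟨fun k => k.2, fun k => ⟨(f v hv ω h1 k).symm ▸ h2, k⟩⟩]
    exact h ω h1
  · rwa [cE, dif_neg x]

/-- A parameter in the label. -/
theorem par {U : FP Ω'} {Q : Ω' → FP Ω} {Θ : Ω' → Ω → β} {T : Ω' × Ω → Prop}
    (h : ∀ i ∈ U.S, Fib (Q i) (Θ i) (fun ω => T (i, ω)) δ) :
    Fib (bind U Q) (fun x => (x.1, Θ x.1 x.2)) T δ := iff.2 fun A a => by
  rw [pb, pb, E_bind, E_bind, ← FP.E_mul]
  exact U.E_mono fun i hi => iff.1 (h i hi) (fun ω => A (i, ω)) fun v hv w hw e =>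
    a _ ((mem_bind _ _ _).2 ⟨hi, hv⟩) _ ((mem_bind _ _ _).2 ⟨hi, hw⟩) (by simp only [e])

/-- The second coordinate given the first. -/
theorem fst {U : FP Ω'} {Q : Ω' → FP Ω} {T : Ω' × Ω → Prop}
    (h : ∀ i ∈ U.S, pb (Q i) (fun ω => T (i, ω)) ≤ δ) : Fib (bind U Q) Prod.fst T δ :=
  fun x hx => by
    have := par (Θ := fun _ _ => ()) (T := T) (U := U) (Q := Q) (δ := δ) (fun i hi ω hω => by
      rw [cv, cE_congr (E' := fun _ => True) (fun _ _ => by simp), ← one_mul (pb _ _),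
        ← pb_true (Q i), pb_cE]
      simpa using h i hi) x hx
    rwa [cv, cE_congr (E' := fun v => v.1 = x.1) fun _ _ => by simp] at this

end Fib

end Pool.Agent.MP_5168f5_an.QA

namespace Pool.Agent.MP_4b405e_nt.FB.Bd

open Pool.Agent.MP_5168f5_an H19 H17S H17F Real QA

variable {α ν : Type} [Fintype α] {σ : Bc α ν} {X : Bd α ν}

/-- Anti-concentration from a bound in the atoms of a fine label, off a rare event. -/
theorem ac_of {β : Type} {Θ : X.Ω → β} {B : X.Ω → Prop} {r δ : ℝ} (d0 : 0 < δ)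
    (fc : Fn X.P X.c fun ω => (X.K ω, X.v ω)) (fΘ : Fn X.P (fun ω => (X.Y σ ω, X.j ω)) Θ)
    (hB : pb X.P B ≤ δ * δ / 2) (h : ∀ χ, Fib X.P Θ (fun v => ¬B v ∧ X.Chr (2 * r * X.u) v χ ∧
      |∑ a, χ a * (exp (σ.et a * X.j v) * X.b v a)| ≤ exp (-(r * X.u))) (δ / 2)) :
    X.Ac σ r δ := by
  classical
  have k : δ / 2 * pb X.P (X.Bad σ r δ) ≤ pb X.P B := by
    rw [Fib.pb_cv X.P (fun ω => (X.Y σ ω, X.j ω)) B, pb, ← FP.E_mul]
    refine X.P.E_mono fun ω hω => ?_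
    split_ifs with b
    · obtain ⟨χ, c, t⟩ := b
      have q := t.trans_le ((pb_mono (F := fun v => B v ∨ _) fun v hv e => (em (B v)).imp_right
        fun n => ⟨n, ?_, e⟩).trans ((pb_or _ _ _).trans
          (add_le_add le_rfl ((h χ).coarse fΘ ω hω))))
      swap
      · linarith
      obtain ⟨v1, v2⟩ := (AN.S20.mem_cv hω v).1 hv
      simp only [Y, Prod.mk.injEq] at v2
      rwa [Chr, fc v v1 ω hω (Prod.ext v2.1.1 v2.1.2.1)]
    · rw [mul_zero]; exact pb_nonneg _ _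
  exact le_of_mul_le_mul_left (k.trans (hB.trans_eq (by ring))) (half_pos d0)

end Pool.Agent.MP_4b405e_nt.FB.Bd
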