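import Pool.Agent.MP_4b405e_nt.SK.CAc2

/-! Sparse heights: the constants of the letters do not depend on the frame. -/

namespace Pool.Agent.MP_5168f5_an.QA.P7.Cd

open H19 H17S H17F R4 AN Filter Matrix Finset
open GA (Mt br mB mC IsFr)
open LC (ex_le)

variable {ι κ Ω Λ : Type} [Fintype ι] [DecidableEq ι] [Fintype κ] [DecidableEq κ]

omit [DecidableEq κ] in
/-- The constants after a change of frame. -/
theorem chg {Φ : H61Z.Filt (Mt ι)} {B : κ → Mt ι} {c c' : κ → κ → κ → ℝ} {R : Matrix κ κ ℝ}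
    (h : IsFr Φ B c) (h' : IsFr Φ (mB R B) c') (a b : κ) : c' a b ᵥ* R = br c (R a) (R b) := by
  have e := h'.br a b
  rw [GA.GAFrA.vec_mB] at e
  have m := (GA.sMul _ _ _ _ _ h).vbr (R a) (R b)
  refine sub_eq_zero.1 (h.inj _ ?_)
  have s : GA.vec B (c' a b ᵥ* R - br c (R a) (R b)) =
      GA.vec B (c' a b ᵥ* R) - GA.vec B (br c (R a) (R b)) := by
    simp only [GA.vec, Pi.sub_apply, sub_smul, sum_sub_distrib]
  rw [s, m, ← e]
  exact sub_self _

/-- The constants of the letters in two frames. -/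
theorem cst {σ : Kc ι κ} {X : Cd ι κ Ω Λ} {u w : ℝ} {ω v : Ω} (vt : ∀ a, σ.mu a ≤ σ.la a)
    (fr : X.Fr σ) (hω : ω ∈ X.P.S) (hv : v ∈ X.P.S) (al : X.Alg σ u w ω)
    (hR : ∀ b f, σ.G1 b → |X.R ω v b f| ≤ Real.exp u) {a a' e : κ} (g : σ.G1 a) (g' : σ.G1 a')
    (ge : σ.G1 e) :
    |X.c v a a' e - X.c ω a a' e| ≤ Fintype.card κ ^ 2 * Real.exp (2 * u - w) := by
  obtain ⟨-, f1, f2⟩ := fr ω hω
  obtain ⟨-, -, f3, f4⟩ := f2 v hv
  have e1 := congrFun (chg f1 (f3 ▸ (fr v hv).2.1) a a') e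
  have dg : ∀ b, X.R ω v b b = 1 := fun b => by
    rw [← one_apply_eq (α := ℝ) b]
    exact not_not.1 fun q => lt_irrefl _ (f4 b b q).2
  have up : ∀ b f, b ≠ f → X.R ω v b f ≠ 0 → σ.mu b = σ.mu f ∧ σ.la b < σ.la f :=
    fun b f p q => f4 b f (by rwa [one_apply_ne p])
  rw [show (X.c v a a' ᵥ* X.R ω v) e = X.c v a a' e by
    refine (sum_eq_single e (fun b _ p => mul_eq_zero_of_right _ (not_not.1 fun q => ?_))
      (by simp)).trans (by simp [dg])
    linarith [(up b e p q).1, (up b e p q).2, vt b, ge.2]] at e1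
  rw [e1, br, ← sum_product', show X.c ω a a' e = ∑ x ∈ univ ×ˢ univ,
      if x = (a, a') then X.c ω a a' e else 0 by simp, ← sum_sub_distrib]
  refine (abs_sum_le_sum_abs _ _).trans ((sum_le_card_nsmul _ _ (Real.exp (2 * u - w))
    fun x _ => ?_).trans_eq (by simp [pow_two]))
  split_ifs with y
  · subst y
    simp only [dg, mul_one, sub_self, abs_zero]
    positivity
  rw [sub_zero]
  by_cases q1 : X.R ω v a x.1 = 0
  · rw [q1, mul_zero, zero_mul, abs_zero]; positivity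
  by_cases q2 : X.R ω v a' x.2 = 0
  · rw [q2, mul_zero, abs_zero]; positivity
  refine (Cp.Nm5.mul_le (Cp.Nm5.mul_le (al.gr _ _ e ge.1 fun r => ?_) (hR a _ g))
    (hR a' _ g')).trans (ex_le (by linarith))
  have z : σ.mu x.1 < σ.la x.1 ∨ σ.mu x.2 < σ.la x.2 := by
    by_cases p : a = x.1
    · have p' : a' ≠ x.2 := fun p' => y (Prod.ext p.symm p'.symm)
      exact .inr (by linarith [(up _ _ p' q2).1, (up _ _ p' q2).2, g'.2])
    · exact .inl (by linarith [(up _ _ p q1).1, (up _ _ p q1).2, g.2])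
  rcases z with z | z <;> linarith [vt x.1, vt x.2, r.2.2.1, r.2.2.2, ge.2]

end Pool.Agent.MP_5168f5_an.QA.P7.Cd
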