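import Pool.Agent.MP_4b405e_nt.SK.SpC
import Pool.Agent.MP_4b405e_nt.SK.GTow

/-! Sparse heights, block C: the plain cells. -/

namespace Pool.Agent.MP_5168f5_an.QA.SC

open H19 H17S H17F R4 AN Filter Matrix Real Finset
open GA (Mt IsFr sB cell)

set_option linter.unusedSectionVars false

namespace D1

variable {ι κ : Type} [Fintype ι] [DecidableEq ι] [Fintype κ] [DecidableEq κ]

/-- A box in a changed basis lies in a box. -/
theorem nr_mB {B : κ → Mt ι} {A : Matrix κ κ ℝ} {r r' : κ → ℝ} {u e : ℝ} {x y : Mt ι}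
    (r0 : ∀ a, 0 ≤ r a) (hA : ∀ a f, |A a f| * r' a ≤ exp e * r f)
    (n : GA.Nr (GA.mB A B) r' (exp u) x y) : GA.Nr B r (exp (u + e + Fintype.card κ)) x y := by
  obtain ⟨t, h1, h2⟩ := n
  refine ⟨t ᵥ* A, fun f => ?_, h2.trans (by rw [GA.ex, GA.GAFrA.vec_mB, GA.ex])⟩
  refine (GA.CR.sum_le (k := Fintype.card κ) (X := exp u * (exp e * r f)) le_rfl
    (by have := r0 f; positivity) fun a => ?_).trans_eq (by rw [exp_add, exp_add]; ring)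
  rw [abs_mul]
  refine (mul_le_mul_of_nonneg_right (h1 a) (abs_nonneg _)).trans ?_
  rw [mul_assoc, mul_comm (r' a)]
  exact mul_le_mul_of_nonneg_left (hA a f) (exp_pos u).le

variable {σ : Kk ι κ} {Y : Wd ι κ} {p : Pm} {K e w r δ l x d u : ℝ}

theorem rad_pos (σ : Kk ι κ) (l x d s : ℝ) (b : κ) : 0 < σ.rad l x d s b := by
  unfold Kk.rad; split_ifs
  · exact one_pos
  · exact exp_pos _
  · exact exp_pos _

theorem rad_eq (σ : Kk ι κ) (l x : ℝ) :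
    σ.rad l x 0 0 = rh σ.mu l (dh (fun a => 0 < σ.vt a) x fun _ => 0) := by
  funext b
  have e : 0 < σ.vt b ↔ σ.Nn b := sub_pos
  unfold Kk.rad rh
  by_cases z : σ.mu b = 0
  · rw [if_pos z, if_pos z]
  · rw [if_neg z, if_neg z]
    by_cases n : σ.Nn b
    · rw [if_pos n, dh_in (Nn := fun a => 0 < σ.vt a) (e.2 n)]; simp
    · rw [if_neg n, dh_out (Nn := fun a => 0 < σ.vt a) fun t => n (e.1 t)]

/-- Radii of the same weight lie below the plain radius of an index of positive rate. -/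
theorem rad_le (h : σ.Ok) (x0 : 0 ≤ x) (d0 : 0 ≤ d) {a b : κ} (m : σ.mu a = σ.mu b)
    (n : σ.Nn b ∨ a = b) : σ.rad l x d 0 a ≤ σ.rad l x 0 0 b := by
  have := mul_nonneg (h.w0 a).le d0
  unfold Kk.rad
  by_cases z : σ.mu b = 0
  · rw [if_pos z, if_pos (m.trans z)]
  · rw [if_neg z, if_neg (m ▸ z), m]
    rcases n with n | rfl
    · rw [if_pos n]
      split_ifs <;> exact exp_le_exp.2 (by linarith)
    · split_ifs <;> exact exp_le_exp.2 (by linarith)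

/-- The plain basis of a sample at the depth `D`. -/
noncomputable abbrev Bp (σ : Kk ι κ) (Y : Wd ι κ) (D : ℝ) (v : Y.Ω) : κ → Mt ι :=
  sB (fun b => exp (-(σ.vt b * D))) (Y.X.B v)

/-- A plain box of a deeper level lies in a plain box of any sample of the cap. -/
theorem nr_cap (h : σ.Ok) (H : Y.Ok σ e w) {i : ℕ} (hi : i ≤ Y.nT) {v v' : Y.Ω}
    (hv : v ∈ Y.P.S) (hv' : v' ∈ Y.P.S) (hc : Y.Cp i v = Y.Cp i v') (x0 : 0 ≤ x) {D : ℝ}
    (hD : Y.D i ≤ D) {y z : Mt ι} (n : GA.Nr (Bp σ Y D v') (σ.rad l x 0 0) (exp u) y z) :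
    GA.Nr (Bp σ Y (Y.D i) v) (σ.rad l x 0 0) (exp (u + e + Fintype.card κ)) y z := by
  obtain ⟨-, -, f⟩ := H.fr v hv
  obtain ⟨-, -, f1, f2⟩ := f v' hv'
  have e1 : Bp σ Y D v' = GA.mB (fun b f => exp (-(σ.vt b * D)) * Y.X.R v v' b f *
      exp (σ.vt f * Y.D i)) (Bp σ Y (Y.D i) v) := by
    funext b
    rw [GA.mB, GA.GAFrA.vec_sB, Bp, sB, f1, GA.mB]
    simp only [GA.vec, smul_sum, smul_smul]
    refine sum_congr rfl fun f _ => ?_
    congr 1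
    rw [mul_comm (exp (-(σ.vt f * Y.D i))), mul_assoc, ← exp_add, add_neg_cancel, exp_zero, mul_one]
  rw [e1] at n
  refine nr_mB (fun a => (rad_pos σ _ _ _ _ a).le) (fun a f => ?_) n
  by_cases z : Y.X.R v v' a f = 0
  · simp only [z, mul_zero, zero_mul, abs_zero]
    exact mul_nonneg (exp_pos _).le (rad_pos σ _ _ _ _ f).le
  refine mul_le_mul ?_ ?_ (rad_pos σ _ _ _ _ a).le (exp_pos _).le
  · refine le_trans ?_ (H.rr i hi v hv v' hv' hc a f)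
    rw [mul_right_comm, ← exp_add, abs_mul, abs_mul, abs_of_pos (exp_pos _), abs_of_pos (exp_pos _)]
    refine mul_le_mul_of_nonneg_right (exp_le_exp.2 ?_) (abs_nonneg _)
    have := mul_le_mul_of_nonneg_left hD (show 0 ≤ σ.vt a from sub_nonneg.2 (h.vt0 a))
    linarith
  · by_cases q : a = f
    · rw [q]
    · have := f2 a f (by rwa [one_apply_ne q])
      exact rad_le h x0 le_rfl this.1 (Or.inl (by
        have t := h.vt0 a
        unfold Kk.Nn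
        linarith [this.1, this.2]))

theorem D_mono (m : 0 < Y.ms) {i i' : ℕ} (k : i ≤ i') : Y.D i ≤ Y.D i' :=
  mul_le_mul_of_nonneg_right (Nat.cast_le.2 k) m.le

theorem D_nn (m : 0 < Y.ms) (i : ℕ) : 0 ≤ Y.D i := mul_nonneg i.cast_nonneg m.le

/-- The constants of a sample. -/
theorem bi (h : σ.Ok) (H : Y.Ok σ e w) {v : Y.Ω} (hv : v ∈ Y.P.S) :
    Bi σ.mu σ.vt (Y.X.c v) Y.W e w :=
  ⟨h.m0, fun a => sub_nonneg.2 (h.vt0 a), fun a z => by rw [Kk.vt, h.dead a z, z, sub_self],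
    (H.alg v hv).ob, fun a b f f0 n => (H.alg v hv).gr a b f f0 fun t => n (by
      unfold Kk.vt; linarith [t.2.2.1, t.2.2.2]), H.algL v hv⟩

/-- The numerical facts. -/
theorem nums (N : Y.Num σ p K e w r δ) (k1 : 1 ≤ K) (m : 0 < Y.ms) :
    (p.xA : ℝ) ≤ r ∧ ∀ t ≤ p.N, (Wd.l0 σ p t : ℝ) ≤ Y.W1 := by
  have a : ∀ {x y : ℝ}, 0 ≤ x → K * x ≤ y → x ≤ y := fun x0 k =>
    (le_mul_of_one_le_left x0 k1).trans k
  refine ⟨(a (Nat.cast_nonneg _) N.xn).trans ((a (Nat.cast_nonneg _) N.nk).trans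
    (a (mul_nonneg (Nat.cast_nonneg _) m.le) N.kr)), fun t ht => ?_⟩
  have b : (t : ℝ) * Wd.u1 σ p ≤ p.N * Wd.u1 σ p :=
    mul_le_mul_of_nonneg_right (Nat.cast_le.2 ht) (Nat.cast_nonneg _)
  have := mul_nonneg (zero_le_one.trans k1) (D_nn m Y.nT)
  rw [Wd.l0, Nat.cast_mul]
  linarith [N.up]

/-- A plain box meets few plain cells. -/
theorem list {C : ℝ} (Q : GA.CR.Kit σ.Φ.N (Fintype.card κ) C) (h : σ.Ok) (H : Y.Hyp σ p K e w r δ)
    (k1 : 1 ≤ K) (kv : ∀ a, σ.vt a ≤ K) {i t : ℕ} (hi : i ≤ Y.nT) (ht : t ≤ p.N) {v : Y.Ω}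
    (hv : v ∈ Y.P.S) (eu : e ≤ u) {y : Mt ι} (hy : IsUnit y) : ∃ T : Finset (Mt ι),
      (T.card : ℝ) ≤ exp (C * u) ∧
      ∀ z, GA.Nr (Bp σ Y (Y.D i) v) (σ.rad (Wd.l0 σ p t) p.xA 0 0) (exp u) y z →
        cell (Bp σ Y (Y.D i) v) (σ.rad (Wd.l0 σ p t) p.xA 0 0) z ∈ T := by
  have m := H.ok.ms.1
  have e1 := k1.trans H.num.e1
  obtain ⟨n1, n2⟩ := nums H.num k1 m
  have x0 : (0 : ℝ) ≤ p.xA := Nat.cast_nonneg _
  have rp := rad_pos σ (Wd.l0 σ p t) p.xA 0 0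
  have ca := (bi h H.ok hv).ca (w₀ := 0) (s := p.xA) (by linarith) (D_nn m i) kv x0 (by
    have := mul_le_mul_of_nonneg_left (D_mono m hi) (zero_le_one.trans k1)
    linarith [H.num.rw])
  have id := ca.plain h.m0 (by linarith) (Nat.cast_nonneg (Wd.l0 σ p t))
    ((n2 t ht).trans (Nat.cast_le.2 H.ok.w1)) le_rfl x0 le_rfl x0 le_rfl
  rw [← rad_eq] at id
  have id' := GA.CR.idl_up id (fun a => (rp a).le) eu
  obtain ⟨T, t1, t2⟩ := Q.cell rfl le_rfl (GA.GAFrA.fr_sB (fun _ => exp_pos _) (H.ok.fr v hv).2.1)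
    (e1.trans eu) (fun a => ⟨rp a, le_mul_of_one_le_left (rp a).le (one_le_exp (by linarith))⟩)
    id' id' hy
  refine ⟨T, t1.trans_eq ?_, t2⟩
  rw [prod_eq_one fun a _ => div_self (rp a).ne', mul_one]

/-- The basis of the class is a frame. -/
theorem fr_Bk (H : Y.Ok σ e w) {i : ℕ} {ω : Y.Ω} (V : Y.Val σ e r i ω) :
    IsFr σ.Φ (Y.Bk σ i (Y.cp i ω)) (Y.ck σ i (Y.cp i ω)) := by
  refine ((GA.sFr ι κ σ.Φ _ _).2 _ _ ?_).1 (H.fr _ V.mem.1).2.1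
  rw [Wd.A, Wd.A1, Matrix.mul_assoc, ← Matrix.mul_assoc (diagonal _), diagonal_mul_diagonal]
  simp only [← exp_add, neg_add_cancel, exp_zero, diagonal_one, Matrix.one_mul, V.inv]

theorem Bk_eq (σ : Kk ι κ) (Y : Wd ι κ) (i : ℕ) (s : Y.Λ × Y.Sy) :
    Y.Bk σ i s = GA.mB (Y.g i s) (Bp σ Y (Y.D i) (Y.v0 i s)) := by
  funext a
  rw [Wd.Bk, GA.mB, GA.mB, GA.GAFrA.vec_sB]
  congr 1
  funext b
  rw [Wd.A, mul_diagonal, mul_comm]

/-- A box in the basis of the class lies in a plain box of the base sample. -/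
theorem nr_Bk (h : σ.Ok) {i : ℕ} {ω : Y.Ω} (V : Y.Val σ e r i ω) (x0 : 0 ≤ x) (d0 : 0 ≤ d)
    {y z : Mt ι} (n : GA.Nr (Y.Bk σ i (Y.cp i ω)) (σ.rad l x d 0) (exp u) y z) :
    GA.Nr (Bp σ Y (Y.D i) (Y.v0 i (Y.cp i ω))) (σ.rad l x 0 0) (exp (u + e + Fintype.card κ)) y z := by
  rw [Bk_eq] at n
  refine nr_mB (fun a => (rad_pos σ _ _ _ _ a).le) (fun a f => ?_) n
  by_cases z : Y.g i (Y.cp i ω) a f = 0
  · rw [z, abs_zero, zero_mul]
    exact mul_nonneg (exp_pos _).le (rad_pos σ _ _ _ _ f).le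
  refine mul_le_mul (V.bd a f).1 (rad_le h x0 d0 (V.gr a f (Or.inl z)) ?_)
    (rad_pos σ _ _ _ _ a).le (exp_pos _).le
  by_contra q
  push Not at q
  exact z (by rw [(V.id a f (Or.inr q.1)).1, one_apply_ne q.2])

end D1

open D1 in
theorem rowD1 : RowD1 := by
  intro ι κ _ _ _ _ σ h
  classical
  obtain ⟨C, Q⟩ := GA.CR.kit σ.Φ.N (Fintype.card κ)
  have c1 := Q.c1
  have k0 : (0 : ℝ) ≤ Fintype.card κ := Nat.cast_nonneg _
  have v0 : ∀ a, 0 ≤ σ.vt a := fun a => sub_nonneg.2 (h.vt0 a)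
  have s0 : 0 ≤ ∑ a, σ.vt a := sum_nonneg fun a _ => v0 a
  have c2 : 1 ≤ C * (2 + 2 * Fintype.card κ) := by nlinarith
  refine ⟨C * (2 + 2 * Fintype.card κ) + ∑ a, σ.vt a, by linarith, fun Y p e w r δ H i hi t ht => ?_⟩
  obtain ⟨K, hK⟩ : ∃ K, K = C * (2 + 2 * Fintype.card κ) + ∑ a, σ.vt a := ⟨_, rfl⟩
  rw [← hK] at H ⊢
  have k1 : 1 ≤ K := by linarith
  have e1 := k1.trans H.num.e1
  have kv : ∀ a, σ.vt a ≤ K := fun a => by
    linarith [single_le_sum (fun a _ => v0 a) (mem_univ a)]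
  have m := H.ok.ms.1
  have i1 : i + p.kD ≤ Y.nT := by have := H.num.nT; omega
  have i0 : i ≤ Y.nT := by omega
  have x0 : (0 : ℝ) ≤ p.xA := Nat.cast_nonneg _
  obtain ⟨u, hu⟩ : ∃ u, u = (2 + 2 * Fintype.card κ) * e := ⟨_, rfl⟩
  have u1 : 2 * e + 2 * Fintype.card κ ≤ u := by nlinarith
  have u2 : exp (C * u) ≤ exp (K * e) := exp_le_exp.2 (by
    have := mul_nonneg s0 (zero_le_one.trans e1)
    rw [hu, hK]; linarith)
  have rp := rad_pos σ (Wd.l0 σ p t) p.xA 0 0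
  have key : ∀ {β : Type} (E : Y.Ω → Prop) (G : Y.Ω → β) (q : Y.Ω → Mt ι),
      (∀ ω ∈ Y.P.S, E ω → ∀ ω' ∈ Y.P.S, E ω' → G ω = G ω' → Y.Cp i ω = Y.Cp i ω' ∧ q ω = q ω') →
      (∀ ω ∈ Y.P.S, E ω → GA.Nr (Bp σ Y (Y.D i) (N2.rep Y.P (Y.Cp i) (fun _ => True) ω))
        (σ.rad (Wd.l0 σ p t) p.xA 0 0) (exp u) (q ω) (Y.X.j ω)) →
      Dt Y.P E (Y.Xp σ p i t) G (K * e) := fun E G q a b y => by
    by_cases o : ∃ ω ∈ Y.P.S, E ω ∧ G ω = y
    swap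
    · exact ⟨∅, by simpa using (exp_pos _).le, fun ω hω x z => (o ⟨ω, hω, x, z⟩).elim⟩
    obtain ⟨ω, hω, o1, rfl⟩ := o
    obtain ⟨T, t1, t2⟩ := list Q h H k1 kv i0 ht
      (N2.rep_spec (A := Y.Cp i) (G := fun _ => True) hω trivial).1 (u := u) (by linarith)
      (GA.GACntA.nr_unit (b ω hω o1) (H.ok.fr ω hω).1)
    refine ⟨T.image fun z => (Y.Cp i ω, z), (Nat.cast_le.2 card_image_le).trans (t1.trans u2),
      fun v hv o2 o3 => mem_image.2 ⟨_, t2 (Y.X.j v) ?_, ?_⟩⟩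
    · obtain ⟨a1, a2⟩ := a v hv o2 ω hω o1 o3
      rw [← a2, ← N2.rep_congr a1]
      exact b v hv o2
    · obtain ⟨a1, -⟩ := a v hv o2 ω hω o1 o3
      rw [Wd.Xp, N2.rep_congr a1, a1]
  have up : ∀ {B : κ → Mt ι} {a : ℝ} {y z : Mt ι}, a ≤ u →
      GA.Nr B (σ.rad (Wd.l0 σ p t) p.xA 0 0) (exp a) y z →
      GA.Nr B (σ.rad (Wd.l0 σ p t) p.xA 0 0) (exp u) y z := fun l ⟨s, s1, s2⟩ =>
    ⟨s, GA.CR.bx_up s1 (fun a => (rp a).le) l, s2⟩
  refine ⟨key _ _ (fun ω => (Y.Xp σ p (i + p.kD) t ω).2) (fun ω hω _ v hv _ q =>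
    ⟨H.ok.nest i _ (Nat.le_add_right _ _) i1 ω hω v hv (congrArg Prod.fst q), by rw [q]⟩)
    fun ω hω _ => ?_, key _ _ (Y.Qc σ p i t) (fun ω hω _ v hv _ q =>
      ⟨congrArg (·.1.1) q, congrArg Prod.snd q⟩) fun ω hω o => ?_⟩
  · have a := N2.rep_spec (A := Y.Cp i) (G := fun _ => True) hω trivial
    have b := N2.rep_spec (A := Y.Cp (i + p.kD)) (G := fun _ => True) hω trivial
    refine up (by linarith) (nr_cap (u := 0) h H.ok i0 a.1 b.1 (a.2.2.trans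
      (H.ok.nest i _ (Nat.le_add_right _ _) i1 _ hω _ b.1 b.2.2.symm)) x0
      (D_mono m (Nat.le_add_right i p.kD)) ?_)
    rw [exp_zero]
    exact GA.CR.cell_nr (GA.GAFrA.fr_sB (fun _ => exp_pos _) (H.ok.fr _ b.1).2.1) rp _
  · have a := N2.rep_spec (A := Y.Cp i) (G := fun _ => True) hω trivial
    have V := H.st.val i hi ω hω o
    refine up (by linarith) (nr_cap h H.ok i0 a.1 V.mem.1
      (a.2.2.trans V.mem.2.symm) x0 le_rfl (nr_Bk (u := 0) h V x0 (Nat.cast_nonneg p.d0) ?_))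
    rw [exp_zero]
    exact GA.CR.cell_nr (fr_Bk H.ok V) (rad_pos σ _ _ _ _) _

end Pool.Agent.MP_5168f5_an.QA.SC
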