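import Pool.Agent.MP_4b405e_nt.SK.CAc4
import Pool.Agent.MP_4b405e_nt.SK.CBr
import Pool.Agent.MP_4b405e_nt.SK.CLk
import Pool.Agent.MP_4b405e_nt.SK.CLw
import Pool.Agent.MP_4b405e_nt.SK.CNrm
import Pool.Agent.MP_4b405e_nt.SK.CRC
import Pool.Agent.MP_4b405e_nt.SK.CRD3
import Pool.Agent.MP_4b405e_nt.SK.CRI
import Pool.Agent.MP_4b405e_nt.SK.CRNd
import Pool.Agent.MP_4b405e_nt.SK.CRd1
import Pool.Agent.MP_4b405e_nt.SK.CRt
import Pool.Agent.MP_4b405e_nt.SK.CR23b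
import Pool.Agent.MP_4b405e_nt.SK.CRb
import Pool.Agent.MP_4b405e_nt.SK.CRP
import Pool.Agent.MP_4b405e_nt.SK.CRd276
import Pool.Agent.MP_4b405e_nt.SK.CRf59

/-! Sparse heights, block C: assembly. -/

namespace Pool.Agent.MP_5168f5_an.QA.SC

theorem spCs : SpCs :=
  ofC rowS rowPA rowPB R23.rowR R23.rowM rowLv
    (ofB rowPA rowLv rowTV rowT (ofI T76.rowD2) (F59.ofF rowD1 T76.rowD2)) rowAc (ofNd (ofI T76.rowD2))
    (ofLk rowPA T76.rowD2 rowD3)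

theorem spCx : SH.SpCx := Br.spCx_of spCs

end Pool.Agent.MP_5168f5_an.QA.SC
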