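import Pool.Agent.MP_4b405e_nt.SK.W5F

/-! Sparse heights: the statements of the global part. -/

namespace Pool.Agent.MP_5168f5_an.QA

open H19 H17S H17F MX Filter Finset

/-- Configurations with sparse heights and a definite multiplicity. -/
def Slf (N : ℕ) (η₀ : ℝ) : Prop := ∃ (y : ℕ → Cfg N) (M kf : ℕ → ℕ), DSK y M ∧ Two kf M ∧
  (Whp (fun n => (y n).P) fun n ω => ∀ a b, a ≤ b → b ≤ M n →
    cm (y n).P ((shOf (y n)).O a) ((shOf (y n)).O b) ω ≤
      Real.exp 2 * bw (kf n : ℝ)⁻¹ a b ((y n).z ω)) ∧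
  ∀ᶠ n in UF, η₀ * M n ≤ mu (y n) (M n)

/-- There are no such configurations. -/
def NoSlf : Prop := ∀ (N : ℕ) (η₀ : ℝ), 0 < η₀ → ¬Slf N η₀

/-- There is no filtered system with sparse heights. -/
def NoPGf : Prop := ∀ (ι κ α : Type) [Fintype ι] [DecidableEq ι] [Fintype κ] [DecidableEq κ]
  [Fintype α] (σ : Cp.Cs ι κ α) (Y : ℕ → Cp.Pd ι κ α) (lv : ℕ → ℚ → ℕ) (zz : ∀ n, (Y n).Ω → ℝ),
  ¬Cp.PreGf σ Y lv zz

/-- The tangent system with fair heights, first form. -/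
structure T1g {N D : ℕ} (X : ℕ → St N D) (η θ β js : ℝ) (kf : ℕ → ℕ) (sl : ℕ → ℝ) : Prop where
  tb : Tb X Set.univ η θ fun k x => sl k * x
  fa : Faw X kf
  los : Los X Set.univ η fun x => β * x
  jpr : Jpr X Set.univ fun x => js * x
  drift : θ * ∑ k ∈ range (dV N D + 1), |sl k| ≤ β / 8

end Pool.Agent.MP_5168f5_an.QA
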