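import Pool.Agent.MP_4b405e_nt.SK.SpA
import Pool.Agent.MP_4b405e_nt.SK.SpG
import Pool.Agent.MP_4b405e_nt.SK.SlD
import Pool.Agent.MP_4b405e_nt.SK.BPiv

/-! Sparse slopes, block H: the world, the states of the descent, and the glue. -/

namespace Pool.Agent.MP_5168f5_an.QA.SH

open H19 H17S H17F R4 AN Filter Matrix Finset
open GA (Mt IsFr mB mC sC)
open P7 (Kc)
open Cp (rp Hw)

variable {ι κ : Type} [Fintype ι] [DecidableEq ι] [Fintype κ] [DecidableEq κ]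

/-- The rate of the caps. -/
def vt (σ : Kc ι κ) (a : κ) : ℝ := σ.la a - σ.mu a

/-- A bound for the rates of the caps. -/
noncomputable def Vm (σ : Kc ι κ) : ℝ := 1 + ∑ a, vt σ a

open Classical in
/-- The relations between the constants; `σ.D` is the exponent of the count. -/
structure Ko (σ : Kc ι κ) : Prop where
  m0 : ∀ a, 0 ≤ σ.mu a
  v0 : ∀ a, 0 ≤ vt σ a
  dead : ∀ a, σ.mu a = 0 → vt σ a = 0
  live : ∀ a, σ.Pz a → 0 < σ.mu a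
  tz : ∀ a, σ.Pz a ∧ vt σ a = 0 ↔ a = σ.τ
  one : 1 ≤ σ.L
  tau : σ.mu σ.τ = lg
  vol : σ.D < ∑ a with σ.Pz a ∧ 0 < vt σ a, σ.mu a

/-- The data on one space: unit `M` of the caps, number `W` of levels, base level `c₀`, spacing
`k`, loss `e`, range `w`, wide loss `f`; group element `g`, frame `B`, constants `c`, change of
frame `R`; label `lam` of the direction, cells `C D` of the caps, line `l`, height `zz`, deep cell
`T`. -/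
structure Wo (ι κ : Type) : Type 1 where
  Ω : Type
  Λ : Type
  Λ' : Type
  Li : Type
  Γ : Type
  P : FP Ω
  M : ℕ
  W : ℕ
  c₀ : ℕ
  k : ℕ
  e : ℝ
  w : ℝ
  f : ℝ
  ka : ℝ
  g : Ω → Mt ι
  B : Ω → κ → Mt ι
  c : Ω → κ → κ → κ → ℝ
  R : Ω → Ω → Matrix κ κ ℝ
  lam : Ω → Λ'
  C : ℕ → Ω → Λ
  l : Ω → Li
  zz : Ω → ℝ
  T : Ω → Γ

namespace Wo

variable (σ : Kc ι κ) (X : Wo ι κ)

/-- The piece of depth `c`. -/
noncomputable def Q (c : ℕ) (ω : X.Ω) : X.Li × ℤ := (X.l ω, fl1 (X.c₀ + c) (X.zz ω))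

/-- The coordinates of an increment in the frame of `ω`. -/
noncomputable def t (ω v : X.Ω) : κ → ℝ := GA.lg (X.B ω) (X.g ω) (X.g v)

/-- The change of frame in the units of the caps of depth `D`. -/
noncomputable def rr (D : ℝ) (ω v : X.Ω) : Matrix κ κ ℝ :=
  fun b e => Real.exp ((vt σ e - vt σ b) * D) * X.R ω v b e

/-- The constants of the cap of depth `D` of `ω`. -/
noncomputable def cc (D : ℕ) (ω : X.Ω) : κ → κ → κ → ℝ :=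
  sC (fun a => Real.exp (-(vt σ a * D))) (X.c (rp X.P (X.C D) ω))

/-- The exact relations. -/
structure Fr (ω : X.Ω) : Prop where
  unit : IsUnit (X.g ω)
  fr : IsFr σ.Φ (X.B ω) (X.c ω)
  one : ∀ v ∈ X.P.S, X.lam ω = X.lam v → X.B ω = X.B v ∧ X.c ω = X.c v ∧ X.R ω v = 1
  ex : ∀ v ∈ X.P.S, X.g v = X.g ω * GA.ex (X.B ω) (X.t ω v)
  ch : ∀ v ∈ X.P.S, X.B v = mB (X.R ω v) (X.B ω)
  coc : ∀ v ∈ X.P.S, ∀ x ∈ X.P.S, X.R ω x = X.R v x * X.R ω v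
  up : ∀ v ∈ X.P.S, ∀ b e, X.R ω v b e ≠ (1 : Matrix κ κ ℝ) b e →
    σ.mu b = σ.mu e ∧ vt σ b < vt σ e

/-- The constants in the frame of `ω`. -/
structure Alg (ω : X.Ω) : Prop where
  ob : ∀ a b e, |X.c ω a b e| ≤ Real.exp X.e
  gr : ∀ a b e, 0 < σ.mu e → ¬(Hw σ.mu a b e ∧ vt σ e = vt σ a + vt σ b) →
    |X.c ω a b e| ≤ Real.exp (-X.w)
  grW : ∀ a b e, 0 < σ.mu e → ¬Hw σ.mu a b e →
    |X.c ω a b e| * Real.exp ((σ.mu e - σ.mu a - σ.mu b) * X.W) ≤ Real.exp (-X.w)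
  g0 : ∀ a b e, ¬σ.Pz a → ¬σ.Pz b → σ.Pz e → |X.c ω a b e| ≤ Real.exp (-X.w)
  chi : ∀ a b, |X.c ω a b σ.τ| ≤ Real.exp (-X.w)
  pat : ∀ v ∈ X.P.S, ∀ b e, ¬σ.Pz b → σ.Pz e → |X.R ω v b e| ≤ Real.exp (-X.w)

/-- No homogeneous character is thin on the letters of many samples of a cell. -/
def Rob (D : ℕ) : Prop := ∀ ω ∈ X.P.S, ∀ h : ℝ, h ≤ X.w → ∀ (l : κ → ℝ) (s : ℝ),
  ∑ e, |l e| = 1 → (∀ e, l e ≠ 0 → 0 < σ.mu e ∧ σ.mu e = s) →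
  (∀ b b', 0 < σ.mu b → 0 < σ.mu b' → |∑ e, X.c ω b b' e * l e| ≤ Real.exp (-h)) →
  pb (cv X.P (X.C D) (X.C D ω))
    (fun v => ∀ b, σ.G1 b → |∑ e, l e * X.rr σ D ω v b e| ≤ Real.exp (-h)) ≤
    Real.exp (X.e - h / σ.L)

/-- Increments in a piece of depth `c`. -/
def Inc (c : ℕ) : Prop := ∀ ω ∈ X.P.S, ∀ v ∈ X.P.S, X.Q c ω = X.Q c v → ∀ b,
  |X.t ω v b| ≤ Real.exp (X.e - σ.mu b * c) ∧
    (0 < vt σ b → |X.t ω v b| ≤ Real.exp (-X.w - σ.mu b * c))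

/-- No character of the letters is thin on the pairs of a large part of a piece of depth `c`. -/
def Ac (c : ℕ) : Prop := ∀ ω ∈ X.P.S, ∀ h : ℝ, h ≤ X.w → ∀ l : κ → ℝ,
  ∑ b, |l b| = 1 → (∀ b, l b ≠ 0 → σ.G1 b) →
  (∀ b b', σ.G1 b → σ.G1 b' → |∑ e, X.c ω b b' e * l e| ≤ Real.exp (-h)) →
  ∀ E : X.Ω → Prop, (∀ v ∈ X.P.S, ∀ v' ∈ X.P.S, X.Q c ω = X.Q c v → X.Q c ω = X.Q c v' → E v →
    E v' → |∑ b, l b * (Real.exp (σ.mu b * c) * X.t v v' b)| ≤ Real.exp (-h)) →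
  pb (cv X.P (X.Q c) (X.Q c ω)) E ≤ Real.exp ((X.e - h / σ.L) / X.k)

/-- The facts on one space; `m` is the mass of the count. -/
structure Ok (m : ℝ) : Prop where
  ke : 2 ≤ X.k ∧ (X.k : ℝ) ≤ X.e ∧ X.e ≤ X.f
  fr : ∀ ω ∈ X.P.S, X.Fr σ ω
  alg : ∀ ω ∈ X.P.S, X.Alg σ ω
  top : Fn X.P X.lam (X.Q 0)
  z0 : Fn X.P (fun ω => fl1 X.c₀ (X.zz ω)) fun _ => ()
  bot : Fn X.P (X.C 0) fun _ => ()
  fC : ∀ D ≤ 2 * X.M, Fn X.P (X.C D) X.lam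
  nest : ∀ D D', D ≤ D' → D' ≤ 2 * X.M → Fn X.P (X.C D) (X.C D')
  ri : ∀ D ≤ 2 * X.M, ∀ ω ∈ X.P.S, ∀ v ∈ X.P.S, X.C D ω = X.C D v → ∀ b e,
    |X.rr σ D ω v b e| ≤ Real.exp X.e
  rob : ∀ D ≤ 2 * X.M, X.Rob σ D
  far : ∀ ω ∈ X.P.S, ∀ v ∈ X.P.S, ∀ b, |X.t ω v b| ≤ Real.exp X.f ∧
    (σ.mu b = 0 → |X.t ω v b| ≤ Real.exp X.e)
  inc : ∀ c ≤ X.W, X.Inc σ c
  ac : ∀ c ≤ X.W, X.Ac σ c
  ka : Real.exp (-X.e) ≤ |X.ka| ∧ |X.ka| ≤ Real.exp X.e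
  tt : ∀ ω ∈ X.P.S, ∀ v ∈ X.P.S, X.Q 0 ω = X.Q 0 v →
    |X.t ω v σ.τ - X.ka * 2 ^ X.c₀ * (X.zz v - X.zz ω)| ≤ Real.exp (-(X.w + lg * X.W))
  fa : ∀ ω ∈ X.P.S, MX.cm X.P (X.Q 0) (X.Q X.W) ω ≤
    Real.exp (X.e / X.k) * bw (X.k : ℝ)⁻¹ X.c₀ (X.c₀ + X.W) (X.zz ω)
  fT : Fn X.P X.T (X.Q X.W)
  zT : Fn X.P (fun ω => fl1 (X.c₀ + X.W) (X.zz ω)) X.T
  loc : ∀ ω ∈ X.P.S, ∀ v ∈ X.P.S, X.T ω = X.T v → ∀ b,
    |X.t ω v b| ≤ Real.exp (X.f - σ.mu b * X.W)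
  ind : mi X.P X.T X.lam (fun _ => ()) ≤ X.e
  few : Det X.P X.lam (fun _ => ()) (Real.exp X.f)
  cnt : ∃ G : Finset X.Γ, (G.card : ℝ) ≤ Real.exp (σ.D * X.W) ∧ ∀ ω ∈ X.P.S,
    m ≤ pb (cv X.P (X.Q 0) (X.Q 0 ω)) fun v => X.T v ∈ G

end Wo

/-- The world. -/
structure World (σ : Kc ι κ) (X : ℕ → Wo ι κ) : Prop where
  ok : Ko σ
  bk : Big fun n => (X n).k
  se : Sm (fun n => (X n).M) fun n => (X n).e
  bw : ∀ T : ℝ, ∀ᶠ n in UF, T * (X n).M ≤ (X n).w ∧ T * (X n).M ≤ (X n).W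
  sf : Sm (fun n => (X n).W) fun n => (X n).f
  ev : ∃ m : ℝ, 0 < m ∧ ∀ᶠ n in UF, (X n).Ok σ m

/-- A state on one space: range `r` of validity, loss `e`, classes `cp D`, event `E D`, adapted
basis `q D` (rows, in the frame of the cap) and its inverse `q' D`. -/
structure St (X : Wo ι κ) : Type 1 where
  β : Type
  r : ℕ
  e : ℝ
  cp : ℕ → X.Ω → β
  E : ℕ → X.Ω → Prop
  q : ℕ → X.Ω → Matrix κ κ ℝ
  q' : ℕ → X.Ω → Matrix κ κ ℝ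

/-- A unit functional on the group of weight `m` and piece weight `s`. -/
def Un (σ : Kc ι κ) (wk : κ → ℝ) (m s : ℝ) (ξ : κ → ℝ) : Prop :=
  ∑ p, |ξ p| = 1 ∧ ∀ p, ξ p ≠ 0 → 0 < vt σ p ∧ σ.mu p = m ∧ wk p = s

namespace St

variable (σ : Kc ι κ) (wk : κ → ℝ) {X : Wo ι κ} (S : St X)

/-- The constants in the adapted basis of the cap. -/
noncomputable def cq (D : ℕ) (ω : X.Ω) : κ → κ → κ → ℝ :=
  mC (S.q D ω) (S.q' D ω) (X.cc σ D ω)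

/-- The frame of `v`, in the units of the cap, in the adapted basis of the class of `ω`. -/
noncomputable def φ (D : ℕ) (ω v : X.Ω) : Matrix κ κ ℝ :=
  X.rr σ D (rp X.P (X.C D) ω) v * S.q' D ω

/-- The coefficient of `p'` in the bracket of the vector `a` of the frame of `ω` with `p`. -/
noncomputable def act (D : ℕ) (ω : X.Ω) (a p p' : κ) : ℝ :=
  ∑ e, S.φ σ D ω ω a e * S.cq σ D ω e p p'

/-- The basis is adapted and the chain is valid at `ω`. -/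
structure Val (D : ℕ) (ω : X.Ω) : Prop where
  v : SB.Val σ.mu (vt σ) wk σ.Pz (X.cc σ D ω) (X.rr σ D (rp X.P (X.C D) ω))
    (fun v => v ∈ X.P.S ∧ S.cp D v = S.cp D ω) (S.q D ω) (S.q' D ω) (Real.exp S.e)
    (Real.exp (-S.r))
  cm : Real.exp (-S.e) ≤ MX.cm X.P (X.C D) (S.cp D) ω

/-- The facts on one space; `m` is the mass. -/
structure Ok (m : ℝ) : Prop where
  le : X.e ≤ S.e
  sq : (S.r : ℝ) ^ 2 ≤ S.e * X.M
  fl : ∀ D < X.M, Fn X.P (S.cp D) X.lam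
  fC : ∀ D < X.M, Fn X.P (X.C D) (S.cp D)
  fE : ∀ D < X.M, Fn X.P (fun ω => (S.E D ω, S.q D ω, S.q' D ω)) (S.cp D)
  val : ∀ D < X.M, ∀ ω ∈ X.P.S, S.E D ω → S.Val σ wk D ω
  mass : m * X.M ≤ ∑ D ∈ range X.M, pb X.P (S.E D)

/-- The functional `ξ` kills the action of the letters of `ω` on the piece `s` and sees the source
at depth `d` as `l`, up to `exp (-h)`. -/
def Thin (D d : ℕ) (s h : ℝ) (ξ l : κ → ℝ) (ω : X.Ω) : Prop := ∀ a, σ.G1 a →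
  (∀ p, 0 < vt σ p → wk p = s → |∑ p', ξ p' * S.act σ D ω a p p'| ≤ Real.exp (-h)) ∧
    |Real.exp (s * d) * ∑ p', ξ p' * S.φ σ D ω ω a p' - l a| ≤ Real.exp (-h)

/-- The admissible depths of the subcaps. -/
def Adm (η : ℝ) (d : ℕ) : Prop := η * S.r ≤ d ∧ 2 * Vm σ * d ≤ S.r

/-- Outside a small set of directions, thin events have mass at most `exp (-x)` in a class. -/
def Ndx (η h x δ : ℝ) : Prop := ∃ Bad : ℕ → X.Ω → Prop, (∀ D < X.M, Fn X.P (Bad D) X.lam) ∧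
  ∑ D ∈ range X.M, pb X.P (fun ω => S.E D ω ∧ Bad D ω) ≤ δ * X.M ∧
  ∀ D < X.M, ∀ d, S.Adm σ η d → ∀ ω ∈ X.P.S, S.E D ω → ∀ (m s : ℝ) (ξ : κ → ℝ)
    (l : X.Λ → κ → ℝ), Un σ wk m s ξ → pb (cv X.P (S.cp D) (S.cp D ω))
      (fun v => ¬Bad D v ∧ S.Thin σ wk D d s h ξ (l (X.C (D + d) v)) v) ≤ Real.exp (-x)

/-- Short lists read from the class and the deep cell do not contain thin functionals. -/
def Ndl (η h x δ : ℝ) : Prop := ∀ d, S.Adm σ η d →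
  ∀ (A : ℕ → S.β → X.Γ → Finset (κ → ℝ))
    (A' : ℕ → S.β → X.Γ → (κ → ℝ) → X.Λ → Finset (κ → ℝ)),
    (∀ D y z, ((A D y z).card : ℝ) ≤ Real.exp x) →
    (∀ D y z ξ v, ((A' D y z ξ v).card : ℝ) ≤ Real.exp x) →
    ∑ D ∈ range X.M, pb X.P (fun ω => S.E D ω ∧ ∃ ξ ∈ A D (S.cp D ω) (X.T ω),
      ∃ l ∈ A' D (S.cp D ω) (X.T ω) ξ (X.C (D + d) ω), ∃ m s, Un σ wk m s ξ ∧
        S.Thin σ wk D d s h ξ l ω) ≤ δ * X.M

end St

section Seq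

variable (σ : Kc ι κ) (wk : κ → ℝ) {X : ℕ → Wo ι κ} (S : ∀ n, St (X n))

/-- A state of shape `wk`. -/
structure State : Prop where
  sh : ∀ p, 0 < vt σ p → ∃ a, 0 < vt σ a ∧ wk p = vt σ a
  se : Sm (fun n => (S n).r) fun n => (S n).e
  ev : ∃ m : ℝ, 0 < m ∧ ∀ᶠ n in UF, (S n).Ok σ wk m

/-- The unit `u` lies between the loss and the range. -/
structure Mid (u : ℕ → ℕ) : Prop where
  lo : Sm u fun n => (S n).e
  hi : Sm (fun n => (S n).r) fun n => u n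

/-- Non-degeneracy, exponent form. -/
def NDx (u : ℕ → ℕ) : Prop := ∀ h δ : ℝ, 0 < h → 0 < δ → ∃ x : ℝ, 0 < x ∧ ∀ η : ℝ, 0 < η →
  ∀ᶠ n in UF, (S n).Ndx σ wk η (h * u n) (x * u n) δ

/-- Non-degeneracy, list form. -/
def NDl (u : ℕ → ℕ) : Prop := ∀ h δ : ℝ, 0 < h → 0 < δ → ∃ x : ℝ, 0 < x ∧ ∀ η : ℝ, 0 < η →
  ∀ᶠ n in UF, (S n).Ndl σ wk η (h * u n) (x * u n) δ

open Classical in
/-- The potential of a shape. -/
noncomputable def pot : ℕ :=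
  (univ.filter fun x : κ × κ => 0 < vt σ x.1 ∧ wk x.1 < vt σ x.2).card

end Seq

/-- A statement about a state and a unit. -/
def OnS (p : ∀ (ι κ : Type) [Fintype ι] [DecidableEq ι] [Fintype κ] [DecidableEq κ]
    (_ : Kc ι κ) (_ : κ → ℝ) (X : ℕ → Wo ι κ), (∀ n, St (X n)) → (ℕ → ℕ) → Prop) : Prop :=
  ∀ (ι κ : Type) [Fintype ι] [DecidableEq ι] [Fintype κ] [DecidableEq κ] (σ : Kc ι κ)
    (wk : κ → ℝ) (X : ℕ → Wo ι κ) (S : ∀ n, St (X n)) (u : ℕ → ℕ),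
    World σ X → State σ wk S → Mid S u → p ι κ σ wk X S u

/-- Block A, second half: the world in frame form. -/
def SpW : Prop := ∀ (ι κ α : Type) [Fintype ι] [DecidableEq ι] [Fintype κ] [DecidableEq κ]
  [Fintype α] (Ω Λ L Γ : ℕ → Type) (σ : Cp.Cs ι κ α)
  (X : ∀ n, Cp.Zd ι κ α (Ω n) (Λ n) (L n) (Γ n)) (mm ϑ La D s₀ : ℝ) (vt : κ → ℝ)
  (F F' : ℕ → Matrix κ κ ℝ) (u u' : ∀ n, Ω n → Matrix κ κ ℝ),
  Cp.Cap σ X mm ϑ La D s₀ vt F F' u u' → ∃ (σ' : Kc ι κ) (Y : ℕ → Wo ι κ), World σ' Y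

/-- Block B: descent or non-degeneracy. -/
def SpB : Prop := OnS fun _ κ _ _ _ _ σ wk X S u =>
  (∃ (wk' : κ → ℝ) (S' : ∀ n, St (X n)), State σ wk' S' ∧ pot σ wk' < pot σ wk) ∨ NDx σ wk S u

/-- Block B, last row: from exponents to lists. -/
def SpL : Prop := OnS fun _ _ _ _ _ _ σ wk _ S u => NDx σ wk S u → NDl σ wk S u

open MP_4b405e_nt.FB in
/-- Block C: the block system and its deficiency (from `SG.Lk.low` or `SG.Lk2.low`). -/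
def SpC : Prop := OnS fun _ _ _ _ _ _ σ wk _ S u => NDl σ wk S u →
  ∃ (α ν : Type) (_ : Fintype α) (_ : Fintype ν) (τ : Bc α ν) (Y : ℕ → Bd α ν),
    Bs τ Y ∧ ∃ θ : ℝ, 0 < θ ∧ ∀ᶠ n in UF, SG.Low τ (Y n) θ

open MP_4b405e_nt.FB in
/-- Block C from the exponent form. -/
def SpCx : Prop := OnS fun _ _ _ _ _ _ σ wk _ S u => NDx σ wk S u →
  ∃ (α ν : Type) (_ : Fintype α) (_ : Fintype ν) (τ : Bc α ν) (Y : ℕ → Bd α ν),
    Bs τ Y ∧ ∃ θ : ℝ, 0 < θ ∧ ∀ᶠ n in UF, SG.Low τ (Y n) θ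

/-! ### The glue -/

theorem spCx_of (l : SpL) (c : SpC) : SpCx := fun ι κ _ _ _ _ σ wk X S u h s m nd =>
  c ι κ σ wk X S u h s m (l ι κ σ wk X S u h s m nd)

/-- The geometric mean of two scales. -/
theorem mean {M : ℕ → ℕ} {e : ℕ → ℝ} (b : Tendsto e UF atTop) (s : Sm M e) :
    Sm (fun n => ⌊√(e n * M n)⌋₊) e ∧ Sm M (fun n => (⌊√(e n * M n)⌋₊ : ℕ)) ∧
      ∀ᶠ n in UF, ((⌊√(e n * M n)⌋₊ : ℕ) : ℝ) ^ 2 ≤ e n * M n := by
  have k : ∀ᶠ n in UF, ((⌊√(e n * M n)⌋₊ : ℕ) : ℝ) ^ 2 ≤ e n * M n :=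
    (b.eventually_ge_atTop 0).mono fun n h => by
      have p : 0 ≤ e n * M n := by positivity
      have := Nat.floor_le (Real.sqrt_nonneg (e n * M n))
      exact (pow_le_pow_left₀ (Nat.cast_nonneg _) this 2).trans_eq (Real.sq_sqrt p)
  refine ⟨fun ε h => ?_, fun ε h => ?_, k⟩
  · filter_upwards [s (ε ^ 2 / 4) (by positivity), b.eventually_ge_atTop ε,
      b.eventually_ge_atTop 0] with n h1 h2 h3
    have a := Nat.lt_floor_add_one √(e n * M n)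
    have c : 2 * e n / ε ≤ √(e n * M n) := Real.le_sqrt_of_sq_le (by
      rw [div_pow, div_le_iff₀ (by positivity)]
      nlinarith [mul_le_mul_of_nonneg_left h1 h3])
    rw [div_le_iff₀ h] at c
    nlinarith
  · filter_upwards [s (ε ^ 2) (by positivity), k] with n h1 h2
    have m0 : (0 : ℝ) ≤ M n := Nat.cast_nonneg _
    have : ((⌊√(e n * M n)⌋₊ : ℕ) : ℝ) ^ 2 ≤ (ε * M n) ^ 2 := by
      nlinarith [mul_le_mul_of_nonneg_right h1 m0]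
    simpa using (pow_le_pow_iff_left₀ (Nat.cast_nonneg _) (by positivity) two_ne_zero).1 this

variable {σ : Kc ι κ} {X : ℕ → Wo ι κ}

theorem World.be (h : World σ X) : Tendsto (fun n => (X n).e) UF atTop := by
  obtain ⟨m, -, k⟩ := h.ev
  exact tendsto_atTop_mono' _ (k.mono fun n a => a.ke.2.1) (tendsto_natCast_atTop_atTop.comp h.bk)

theorem State.be {wk : κ → ℝ} {S : ∀ n, St (X n)} (s : State σ wk S) (h : World σ X) :
    Tendsto (fun n => (S n).e) UF atTop := by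
  obtain ⟨m, -, k⟩ := s.ev
  exact tendsto_atTop_mono' _ (k.mono fun n a => a.le) h.be

/-- The first state. -/
theorem World.init (h : World σ X) : ∃ (wk : κ → ℝ) (S : ∀ n, St (X n)), State σ wk S := by
  classical
  have m := mean h.be h.se
  obtain ⟨w, h1, h2⟩ : ∃ w : ℝ, (∀ a, 0 < vt σ a → w ≤ vt σ a) ∧
      ∀ p, 0 < vt σ p → ∃ a, 0 < vt σ a ∧ w = vt σ a := by
    by_cases k : (univ.filter fun a => 0 < vt σ a).Nonempty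
    · obtain ⟨a, ha, hm⟩ := exists_min_image _ (vt σ) k
      exact ⟨vt σ a, fun b hb => hm b (mem_filter.2 ⟨mem_univ _, hb⟩),
        fun _ _ => ⟨a, (mem_filter.1 ha).2, rfl⟩⟩
    · exact ⟨0, fun _ k => k.le, fun p hp => (k ⟨p, mem_filter.2 ⟨mem_univ _, hp⟩⟩).elim⟩
  obtain ⟨c, -, ok⟩ := h.ev
  refine ⟨fun _ => w, fun n => ⟨(X n).Λ, ⌊√((X n).e * (X n).M)⌋₊, (X n).e, (X n).C,
    fun _ _ => True, fun _ _ => 1, fun _ _ => 1⟩, h2, m.1, 1, one_pos, ?_⟩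
  filter_upwards [m.2.2, ok, h.be.eventually_ge_atTop 0] with n a b e0
  refine ⟨le_rfl, a, fun D hD => b.fC D (by omega), fun _ _ _ _ _ _ e => e,
    fun _ _ _ _ _ _ _ => rfl, fun D _ ω hω _ => ⟨(SB.Val.init h1).mono (fun _ k => k)
      (Real.one_le_exp e0) (Real.exp_pos _).le, ?_⟩, ?_⟩
  · refine (Real.exp_le_one_iff.2 (neg_nonpos.2 e0)).trans (le_of_eq (pb_one ?_).symm)
    exact fun v hv => ((MX.mem_cv hω v).1 hv).2
  · simp [pb_true]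

/-- There is no world. -/
theorem noWorld (b : SpB) (c : SpCx) (f : MP_4b405e_nt.FB.SpF) (h : World σ X) :
    False := by
  have key : ∀ (N : ℕ) (wk : κ → ℝ) (S : ∀ n, St (X n)), State σ wk S → pot σ wk = N → False := by
    intro N
    induction N using Nat.strong_induction_on with
    | _ N ih =>
      intro wk S s e
      have m := mean (s.be h) s.se
      have mid : Mid S _ := ⟨m.1, m.2.1⟩
      rcases b ι κ σ wk X S _ h s mid with ⟨wk', S', s', lt⟩ | nd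
      · exact ih _ (e ▸ lt) wk' S' s' rfl
      · obtain ⟨α, ν, _, _, τ, Y, bs, θ, t0, lo⟩ :=
          c ι κ σ wk X S _ h s mid nd
        exact SG.not_low bs t0 lo (f α ν τ Y bs)
  obtain ⟨wk, S, s⟩ := h.init
  exact key _ wk S s rfl

/-- The global statement from the blocks. -/
theorem noPGf (a : Cp.SpA) (w : SpW) (b : SpB) (c : SpCx) (f : MP_4b405e_nt.FB.SpF) : NoPGf := by
  intro ι κ α _ _ _ _ _ σ Y lv zz g
  obtain ⟨Ω, Λ, L, Γ, X, ϑ, La, D, s₀, vt, F, F', u, u', k⟩ := a ι κ α σ Y lv zz g 1 one_pos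
  obtain ⟨σ', Z, h⟩ := w ι κ α Ω Λ L Γ σ X 1 ϑ La D s₀ vt F F' u u' k
  exact noWorld b c f h

end Pool.Agent.MP_5168f5_an.QA.SH
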