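import Pool.Agent.MP_4b405e_nt.SK.CDef
import Pool.Agent.MP_4b405e_nt.SK.SpH

/-! Sparse heights: the record of block C read from the world and a state. -/

namespace Pool.Agent.MP_5168f5_an.QA.SC.Br

open H19 H17S H17F R4 AN Filter Matrix Real Finset
open GA (Mt IsFr br mB mC sB sC)
open P7 (Kc)
open Cp (rp rp_spec rp_eq)
open SH (Wo vt Vm Ko)

variable {ι κ : Type} [Fintype ι] [DecidableEq ι] [Fintype κ] [DecidableEq κ]

open Classical in
/-- The constants. -/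
noncomputable def kk (σ : Kc ι κ) (wk : κ → ℝ) (be cc : ℝ) (C : ℕ) : Kk ι κ where
  toKc := σ
  wt b := if 0 < vt σ b then wk b else 1
  ps b := σ.Pz b ∧ 0 < vt σ b
  be := be
  cc := cc
  C := C

variable {X : Wo ι κ} (S : SH.St X)

/-- The label of the class. -/
noncomputable def si (i : ℕ) (ω : X.Ω) : Option S.β := if i < X.M then some (S.cp i ω) else none

/-- A point of the class `s`. -/
noncomputable def pk (i : ℕ) (s : (X.Λ' ⊕ X.Λ) × Option S.β) : X.Ω :=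
  @Classical.epsilon _ (N2.ne X.P) fun v => v ∈ X.P.S ∧ (Sum.inr (X.C i v), si S i v) = s

/-- The data. -/
noncomputable def wd (W1 : ℕ) : Wd ι κ where
  Ω := X.Ω
  Λ := X.Λ' ⊕ X.Λ
  Li := X.Li
  Γ := X.Γ
  Sy := Option S.β
  X := ⟨X.P, 1, X.g, X.B, X.c, X.R, fun k a ω => cond k (.inl (X.lam ω)) (.inr (X.C ⌊a⌋₊ ω))⟩
  l := X.l
  zz := X.zz
  c₀ := X.c₀
  W := X.W
  W1 := W1
  k := X.k
  k0 := X.ka
  T := X.T
  δ := 1
  nD := X.M
  nT := 2 * X.M
  E i ω := i < X.M ∧ S.E i ω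
  si := si S
  v0 i s := rp X.P (X.C i) (pk S i s)
  g i s := S.q i (pk S i s)
  g1 i s := S.q' i (pk S i s)

variable {σ : Kc ι κ} {wk : κ → ℝ} {be cc m : ℝ} {C W1 i : ℕ}

omit [Fintype κ] [DecidableEq κ] in
theorem nn_iff (b : κ) : (kk σ wk be cc C).Nn b ↔ 0 < vt σ b := sub_pos.symm

omit [Fintype κ] [DecidableEq κ] in
theorem vt_eq (b : κ) : (kk σ wk be cc C).vt b = vt σ b := rfl

omit [Fintype κ] [DecidableEq κ] in
theorem wt_eq {b : κ} (h : 0 < vt σ b) : (kk σ wk be cc C).wt b = wk b := if_pos h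

theorem ms_eq : (wd S W1).ms = 1 := by simp [Wd.ms, wd]

theorem D_eq (i : ℕ) : (wd S W1).D i = i := by rw [Wd.D, ms_eq, mul_one]

theorem lam_eq (ω : X.Ω) : (wd S W1).lam ω = Sum.inl (X.lam ω) := rfl

theorem Cp_eq (i : ℕ) (ω : X.Ω) : (wd S W1).Cp i ω = Sum.inr (X.C i ω) := by simp [Wd.Cp, wd]

theorem cp_eq (hi : i < X.M) (ω : X.Ω) :
    (wd S W1).cp i ω = (Sum.inr (X.C i ω), some (S.cp i ω)) :=
  Prod.ext (Cp_eq S i ω) (if_pos hi)

variable {S}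

/-- The classes are those of the state. -/
theorem cp_iff (o : S.Ok σ wk m) (hi : i < X.M) {ω v : X.Ω} (hω : ω ∈ X.P.S) (hv : v ∈ X.P.S) :
    (wd S W1).cp i v = (wd S W1).cp i ω ↔ S.cp i v = S.cp i ω := by
  rw [cp_eq S hi, cp_eq S hi]
  exact ⟨fun e => Option.some.inj (congrArg Prod.snd e),
    fun e => by rw [e, o.fC i hi v hv ω hω e]⟩

theorem pk_spec (hi : i < X.M) {ω : X.Ω} (hω : ω ∈ X.P.S) :
    pk S i ((wd S W1).cp i ω) ∈ X.P.S ∧ X.C i (pk S i ((wd S W1).cp i ω)) = X.C i ω ∧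
      S.cp i (pk S i ((wd S W1).cp i ω)) = S.cp i ω := by
  have h := @Classical.epsilon_spec_aux _ (N2.ne X.P) (fun v => v ∈ X.P.S ∧
    (Sum.inr (X.C i v), si S i v) = (wd S W1).cp i ω) ⟨ω, hω, Prod.ext (Cp_eq S i ω).symm rfl⟩
  have e := h.2.trans (cp_eq S hi ω)
  exact ⟨h.1, Sum.inr.inj (congrArg Prod.fst e),
    Option.some.inj ((if_pos hi).symm.trans (congrArg Prod.snd e))⟩

theorem v0_eq (hi : i < X.M) {ω : X.Ω} (hω : ω ∈ X.P.S) :
    (wd S W1).v0 i ((wd S W1).cp i ω) = rp X.P (X.C i) ω := rp_eq _ (pk_spec hi hω).2.1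

theorem g_eq (o : S.Ok σ wk m) (hi : i < X.M) {ω : X.Ω} (hω : ω ∈ X.P.S) :
    (wd S W1).g i ((wd S W1).cp i ω) = S.q i ω ∧ (wd S W1).g1 i ((wd S W1).cp i ω) = S.q' i ω :=
  have p := pk_spec (S := S) (W1 := W1) hi hω
  have e := congrArg Prod.snd (o.fE i hi _ p.1 ω hω p.2.2)
  ⟨congrArg Prod.fst e, congrArg Prod.snd e⟩

theorem mC_diag (g g' : Matrix κ κ ℝ) (x : κ → ℝ) (c : κ → κ → κ → ℝ) :
    mC (g * diagonal fun b => exp (-x b)) (diagonal (fun b => exp (x b)) * g') c =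
      mC g g' (sC (fun b => exp (-x b)) c) := by
  funext a b e
  simp only [mC, br, sC, vecMul, dotProduct, mul_diagonal, diagonal_mul, sum_mul, Real.exp_neg,
    div_inv_eq_mul]
  refine sum_congr rfl fun f _ => sum_congr rfl fun y _ => sum_congr rfl fun z _ => by ring

/-- The constants of the class. -/
theorem ck_eq (o : S.Ok σ wk m) (hi : i < X.M) {ω : X.Ω} (hω : ω ∈ X.P.S) :
    (wd S W1).ck (kk σ wk be cc C) i ((wd S W1).cp i ω) = S.cq σ i ω := by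
  have g := g_eq (W1 := W1) o hi hω
  unfold Wd.ck Wd.A Wd.A1
  rw [g.1, g.2, v0_eq hi hω, D_eq]
  exact mC_diag _ _ (fun b => vt σ b * i) _

/-- The frame of `y` in the basis of the class. -/
theorem φ_eq (o : S.Ok σ wk m) (hi : i < X.M) {ω : X.Ω} (hω : ω ∈ X.P.S) (y : X.Ω) (a b : κ) :
    exp (-(vt σ a * i)) * (wd S W1).φ (kk σ wk be cc C) i ((wd S W1).cp i ω) y a b =
      S.φ σ i ω y a b := by
  have g := g_eq (W1 := W1) o hi hω
  unfold Wd.φ Wd.A1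
  rw [g.2, v0_eq hi hω, D_eq, mul_apply, mul_sum]
  refine sum_congr rfl fun f _ => ?_
  rw [diagonal_mul]
  show _ * (X.R _ y a f * (exp (vt σ f * i) * _)) = exp ((vt σ f - vt σ a) * i) * X.R _ y a f * _
  rw [sub_mul, sub_eq_add_neg, Real.exp_add]
  ring

end Pool.Agent.MP_5168f5_an.QA.SC.Br
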