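import Pool.Agent.MP_4b405e_nt.SK.CBr0

/-! Sparse heights: the constants and the facts of the world for the record of block C. -/

namespace Pool.Agent.MP_5168f5_an.QA.SC.Br

open H19 H17S H17F R4 AN Filter Matrix Real Finset
open GA (Mt IsFr br mB mC sB sC)
open P7 (Kc)
open SH (Wo vt Vm Ko)

variable {ι κ : Type} [Fintype ι] [DecidableEq ι] [Fintype κ] [DecidableEq κ]
variable {σ : Kc ι κ} {wk : κ → ℝ} {be cc m e : ℝ} {C W1 : ℕ} {X : Wo ι κ} (S : SH.St X)

/-- The constants. -/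
theorem kk_ok (k : Ko σ) (sh : ∀ p, 0 < vt σ p → ∃ a, 0 < vt σ a ∧ wk p = vt σ a) (b0 : 0 < be)
    (c0 : 0 < cc) : ∃ C, (kk σ wk be cc C).Ok := by
  have w0 : ∀ b, 0 < (kk σ wk be cc 0).wt b := fun b => by
    by_cases h : 0 < vt σ b
    · obtain ⟨a, h1, h2⟩ := sh b h
      rw [wt_eq h, h2]; exact h1
    · exact one_pos.trans_eq (if_neg h).symm
  have t1 : ∀ᶠ C : ℕ in atTop, ∀ b, σ.mu b ≤ C * lg := eventually_all.2 fun b =>
    (tendsto_natCast_atTop_atTop.atTop_mul_const lg_pos).eventually_ge_atTop _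
  have t2 : ∀ᶠ C : ℕ in atTop, ∀ a p q, σ.G1 a → lg * (kk σ wk be cc 0).wt p ≤
      ((C : ℝ) - 1) * (σ.mu a * (kk σ wk be cc 0).wt q) :=
    eventually_all.2 fun a => eventually_all.2 fun p => eventually_all.2 fun q => by
      by_cases h : σ.G1 a
      · exact (((tendsto_atTop_add_const_right _ (-1) tendsto_natCast_atTop_atTop).atTop_mul_const
          (mul_pos h.1 (w0 q))).eventually_ge_atTop _).mono fun C z _ => z
      · exact .of_forall fun _ z => (h z).elim
  obtain ⟨C, h1, h2, h3⟩ := (t1.and (t2.and (eventually_ge_atTop 2))).exists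
  refine ⟨C, k.m0, fun a => sub_nonneg.1 (k.v0 a), fun a h => ?_, k.live, fun a => ?_, k.tau,
    k.one, w0, fun b h => (nn_iff b).2 h.2, b0, c0, h3, h1, h2⟩
  · have := k.dead a h
    exact (sub_eq_zero.1 this).trans h
  · exact (and_congr_right fun _ => sub_eq_zero.symm).trans (k.tz a)

open Classical in
omit [DecidableEq κ] in
theorem m_eq : (kk σ wk be cc C).m = ∑ a with σ.Pz a ∧ 0 < vt σ a, σ.mu a := by
  unfold Kk.m
  congr

/-- The facts of the world. -/
theorem ok_of (k : Ko σ) (o : X.Ok σ m) (he : X.e ≤ e) (hc : cc ≤ m) (w1 : W1 ≤ X.W)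
    (hf : ∀ b, 0 < σ.mu b → X.f ≤ σ.mu b * (X.W - W1))
    (hD : σ.D * X.W ≤ ((kk σ wk be cc C).m - be) * W1) :
    (wd S W1).Ok (kk σ wk be cc C) e X.w := by
  have ee := exp_le_exp.2 he
  have k2 : (2 : ℝ) ≤ X.k := by exact_mod_cast o.ke.1
  have e0 : 1 ≤ e := by linarith [o.ke.2.1]
  have il : ∀ {a b : X.Ω}, (wd S W1).lam a = (wd S W1).lam b → X.lam a = X.lam b := Sum.inl.inj
  have ic : ∀ {i} {a b : X.Ω}, (wd S W1).Cp i a = (wd S W1).Cp i b ↔ X.C i a = X.C i b :=
    fun {i a b} => by rw [Cp_eq, Cp_eq]; exact Sum.inr.inj_iff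
  refine
    { fr := fun ω hω => ⟨(o.fr ω hω).unit, (o.fr ω hω).fr, fun v hv => ⟨?_, (o.fr ω hω).ex v hv,
        (o.fr ω hω).ch v hv, fun b f h => ?_⟩⟩
      coc := fun ω hω => (o.fr ω hω).coc
      alg := fun ω hω => ⟨fun a b f => ((o.alg ω hω).ob a b f).trans ee,
        fun a b f h n => (o.alg ω hω).gr a b f h fun z => n ⟨z.1.1, z.1.2.1, z.1.2.2, ?_⟩,
        (o.alg ω hω).g0, (o.alg ω hω).chi, (o.alg ω hω).pat⟩
      algL := fun ω hω a b f h n d d0 d1 => ?_
      fB := fun a ha b hb z =>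
        Prod.ext ((o.fr a ha).one b hb (il z)).1 ((o.fr a ha).one b hb (il z)).2.1
      fR := fun ω hω v hv y hy z => ?_
      top := fun a ha b hb z => congrArg Sum.inl (o.top a ha b hb z)
      fC := fun i hi a ha b hb z => ic.2 (o.fC i hi a ha b hb (il z))
      nest := fun i i' h hi a ha b hb z => ic.2 (o.nest i i' h hi a ha b hb (ic.1 z))
      rr := fun i hi ω hω v hv z b f => ?_
      inc := fun d hd ω hω v hv z b => ⟨(o.inc d hd ω hω v hv z b).1.trans
        (exp_le_exp.2 (sub_le_sub_right he _)), fun n => (o.inc d hd ω hω v hv z b).2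
          ((k.v0 b).lt_of_ne fun y => n (sub_eq_zero.1 y.symm))⟩
      ac := fun d hd ω hω h hh l l1 l2 l3 E hE => (o.ac d hd ω hω h hh l l1 l2 l3 E
        fun v hv v' hv' y y' => hE v hv v' hv' y.symm y'.symm).trans (exp_le_exp.2
          (div_le_div_of_nonneg_right (sub_le_sub_right he _) (Nat.cast_nonneg _)))
      k0 := ⟨(exp_le_exp.2 (neg_le_neg he)).trans o.ka.1, o.ka.2.trans ee⟩
      tt := o.tt
      fa := fun ω hω => (o.fa ω hω).trans (mul_le_mul_of_nonneg_right (exp_le_exp.2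
        (div_le_div_of_nonneg_right he (Nat.cast_nonneg _))) (bw_k _ _ _ _))
      w1 := w1
      loc := fun ω hω v hv z b => ?_
      ind := (mi_mono (G' := X.lam) fun a _ b _ z =>
        congrArg Sum.inl (congrArg Prod.fst z)).trans (o.ind.trans he)
      cnt := o.cnt.imp fun G h => ⟨h.1.trans (exp_le_exp.2 hD), fun ω hω => hc.trans (h.2 ω hω)⟩
      ms := by rw [ms_eq]; exact ⟨one_pos, e0⟩ }
  · have := o.bot ω hω v hv rfl
    simpa [wd] using this
  · have := (o.fr ω hω).up v hv b f h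
    refine ⟨this.1, ?_⟩
    have h1 := this.1
    have h2 := this.2
    unfold vt at h2
    show σ.la b < σ.la f
    linarith
  · have h1 := z.1.2.2
    have h2 := z.2
    unfold vt at h2
    show σ.la f = σ.la a + σ.la b
    linarith
  · rcases le_total 0 (σ.mu f - σ.mu a - σ.mu b) with z | z
    · exact (mul_le_mul_of_nonneg_left (exp_le_exp.2 (mul_le_mul_of_nonneg_left d1 z))
        (abs_nonneg _)).trans ((o.alg ω hω).grW a b f h n)
    · exact (mul_le_of_le_one_right (abs_nonneg _) (exp_le_one_iff.2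
        (mul_nonpos_of_nonpos_of_nonneg z d0))).trans ((o.alg ω hω).gr a b f h fun y => n y.1)
  · have := (o.fr ω hω).coc v hv y hy
    rw [((o.fr v hv).one y hy (il z)).2.2, Matrix.one_mul] at this
    exact this.symm
  · rw [D_eq]
    exact (o.ri i hi ω hω v hv (ic.1 z) b f).trans ee
  · rcases (k.m0 b).eq_or_lt with y | y
    · refine ((o.far ω hω v hv b).2 y.symm).trans (exp_le_exp.2 ?_)
      show X.e ≤ e - σ.mu b * W1
      rw [← y, zero_mul, sub_zero]; exact he
    · refine (o.loc ω hω v hv z b).trans (exp_le_exp.2 ?_)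
      show X.f - σ.mu b * X.W ≤ e - σ.mu b * W1
      linarith [hf b y]

end Pool.Agent.MP_5168f5_an.QA.SC.Br
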