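import Pool.Agent.MP_4b405e_nt.SK.CBr0
import Pool.Agent.MP_4b405e_nt.SK.BSrc

/-! Sparse heights: non-degeneracy of the record of block C. -/

namespace Pool.Agent.MP_5168f5_an.QA.SC.Br76

open H19 H17S H17F R4 AN Filter Matrix Real Finset
open GA (Mt IsFr br mB mC sB sC)
open P7 (Kc)
open Cp (rp Hw rp_spec rp_eq)
open SH (Wo vt Vm Ko sum_abs g1_vt mul3)
open Br

variable {ι κ : Type} [Fintype ι] [DecidableEq ι] [Fintype κ] [DecidableEq κ]
variable {σ : Kc ι κ} {wk : κ → ℝ} {X : Wo ι κ} {S : SH.St X} {m m' : ℝ} {D d : ℕ} {y v : X.Ω}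

/-- The constants of the class are almost graded. -/
theorem cq_gr (k : S.Val σ wk D y) (ko : Ko σ) (ok : X.Ok σ m) (hy : y ∈ X.P.S) {t : ℝ}
    (hw : Vm σ * D + t ≤ X.w) {a b e : κ} (e0 : 0 < σ.mu e) (n : ¬Hw σ.mu a b e) :
    |S.cq σ D y a b e| ≤ Fintype.card κ ^ 3 * (exp (-t) * exp S.e ^ 3) := by
  have g : ∀ {p q}, S.q D y p q ≠ 0 ∨ S.q' D y p q ≠ 0 → σ.mu p = σ.mu q := fun {p q} h => by
    by_cases z : p = q
    · rw [z]
    · exact (k.v.gr p q (by rwa [one_apply_ne z])).1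
  have a1 : S.cq σ D y a b e = ∑ f, ∑ a', ∑ b',
      X.cc σ D y a' b' f * S.q D y a a' * S.q D y b b' * S.q' D y f e := by
    simp only [SH.St.cq, mC, br, vecMul, dotProduct, sum_mul]
  rw [a1]
  refine (sum_abs fun f => sum_abs fun a' => sum_abs (A := exp (-t) * exp S.e ^ 3)
    fun b' => ?_).trans_eq (by ring)
  by_cases z : S.q D y a a' = 0 ∨ S.q D y b b' = 0 ∨ S.q' D y f e = 0
  · rcases z with z | z | z <;> rw [z] <;> simp only [mul_zero, zero_mul, abs_zero] <;> positivity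
  push Not at z
  have c := ok.sC_le ko (rp_spec (X.C D) hy).1 (Nat.cast_nonneg D) hw a' b' f
    (g (.inr z.2.2) ▸ e0) fun x => n (by
      have := x.1
      unfold Hw at this ⊢
      rwa [g (.inl z.1), g (.inl z.2.1), ← g (.inr z.2.2)])
  rw [abs_mul]
  exact (mul_le_mul (mul3 c (k.v.ob _ _).1 (k.v.ob _ _).1) (k.v.ob _ _).2 (abs_nonneg _)
    (by positivity)).trans_eq (by ring)

/-- The letters of two frames in a subcap are close. -/
theorem phi_near (ok : X.Ok σ m) (hy : y ∈ X.P.S) (hv : v ∈ X.P.S) (hD : D + d ≤ 2 * X.M)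
    (e : X.C (D + d) v = X.C (D + d) y) {γ A : ℝ} (hγ : ∀ f, 0 < vt σ f → γ ≤ vt σ f)
    (hA : ∀ f p, |S.φ σ D y v f p| ≤ A) {a : κ} (ha : σ.G1 a) (p : κ) :
    |S.φ σ D y y a p - S.φ σ D y v a p| ≤ Fintype.card κ * (exp (X.e - γ * d) * A) := by
  have a1 : S.φ σ D y y a p - S.φ σ D y v a p = ((X.rr σ D v y - 1) * S.φ σ D y v) a p := by
    rw [SH.St.phi_coc ok hy hy hv, Matrix.sub_mul, Matrix.one_mul, Matrix.sub_apply]
  rw [a1]
  refine SB.mul_le (fun f => ?_) fun f => hA f p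
  rw [Matrix.sub_apply]
  by_cases z : X.rr σ D v y a f = (1 : Matrix κ κ ℝ) a f
  · rw [z, sub_self, abs_zero]; positivity
  have a0 := g1_vt ha
  have f0 : 0 < vt σ f := a0 ▸ (ok.rr_up hv hy z).2
  have b : X.rr σ D v y a f = exp (-(vt σ f * d)) * X.rr σ (D + d : ℕ) v y a f := by
    simp only [Wo.rr]
    rw [← mul_assoc, ← exp_add, a0]
    congr 2
    push_cast
    ring
  rw [one_apply_ne fun x : a = f => by rw [← x, a0] at f0; exact f0.false, sub_zero, b, abs_mul,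
    abs_exp]
  refine (mul_le_mul_of_nonneg_left (ok.ri _ hD v hv y hy e a f) (exp_pos _).le).trans ?_
  rw [← exp_add]
  exact exp_le_exp.2 (by linarith [mul_le_mul_of_nonneg_right (hγ f f0) (Nat.cast_nonneg d)])

open Classical in
/-- The action of a letter is close to the graded action read at a point of the subcap. -/
theorem act_near (k : S.Val σ wk D y) (ko : Ko σ) (ok : X.Ok σ m) (le : X.e ≤ S.e)
    (hy : y ∈ X.P.S) (hv : v ∈ X.P.S) (hD : D + d ≤ 2 * X.M)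
    (e : X.C (D + d) v = X.C (D + d) y) {γ h : ℝ} (hγ : ∀ f, 0 < vt σ f → γ ≤ vt σ f)
    (h0 : 0 ≤ h) (n1 : 6 * Fintype.card κ + 7 * S.e + h ≤ γ * d)
    (n2 : Vm σ * D + (5 * Fintype.card κ + 5 * S.e + h) ≤ X.w) {a p p' : κ} (ha : σ.G1 a)
    (p0 : 0 < vt σ p') : |S.act σ D y a p p' - if σ.mu p' = σ.mu p + σ.mu a then
      br (S.cq σ D y) (S.φ σ D y v a) (Pi.single p 1) p' else 0| ≤ exp (-h) := by
  obtain ⟨N, hN⟩ : ∃ N : ℝ, N = Fintype.card κ := ⟨_, rfl⟩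
  have N0 : 0 ≤ N := hN ▸ Nat.cast_nonneg _
  have N1 : N ≤ exp N := by linarith [add_one_le_exp N]
  have e2 := ok.e2
  have ee := exp_le_exp.2 le
  have f1 : ∀ x ∈ X.P.S, X.C D x = X.C D y → ∀ f q, |S.φ σ D y x f q| ≤ exp (N + 2 * S.e) :=
    fun x hx z f q => (k.phi_le ok (by omega) hy hx z f q).trans (by
      rw [← hN, two_mul, exp_add, exp_add]; gcongr)
  rw [← hN] at n1 n2
  split_ifs with z
  · have a1 : S.act σ D y a p p' - br (S.cq σ D y) (S.φ σ D y v a) (Pi.single p 1) p' =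
        ∑ f, (S.φ σ D y y a f - S.φ σ D y v a f) * S.cq σ D y f p p' := by
      simp only [SH.St.act, br, Pi.single_apply, mul_ite, mul_one, mul_zero, sum_ite_eq',
        mem_univ, if_true, ← sum_sub_distrib]
      exact sum_congr rfl fun f _ => by ring
    rw [a1]
    refine (SB.sum_le (fun f => phi_near ok hy hv hD e hγ (f1 v hv (ok.nest D (D + d)
      (Nat.le_add_right _ _) hD v hv y hy e)) ha f) fun f => k.cq_le ko ok hy (by linarith) f p
        p').trans ?_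
    rw [← hN]
    calc _ ≤ exp N * (exp N * (exp (S.e - γ * d) * exp (N + 2 * S.e)) *
          (exp N ^ 3 * (exp S.e * exp S.e ^ 3))) := by gcongr
      _ ≤ _ := by
        simp only [← exp_nat_mul, ← exp_add]
        exact exp_le_exp.2 (by push_cast; linarith)
  · rw [sub_zero]
    refine (sum_abs (A := exp (N + 2 * S.e) * (N ^ 3 * (exp (-(5 * N + 5 * S.e + h)) *
      exp S.e ^ 3))) fun f => ?_).trans ?_
    · by_cases x : S.φ σ D y y a f = 0
      · rw [x, zero_mul, abs_zero]; positivity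
      rw [abs_mul, hN]
      refine mul_le_mul (hN ▸ f1 y hy rfl a f) (cq_gr k ko ok hy (hN ▸ n2) (ko.mu_pos p0)
        fun u => z ?_) (abs_nonneg _) (exp_pos _).le
      rw [u.2.2, (k.phi_gr ok hy hy x).1, add_comm]
    rw [← hN]
    calc _ ≤ exp N * (exp (N + 2 * S.e) * (exp N ^ 3 * (exp (-(5 * N + 5 * S.e + h)) *
          exp S.e ^ 3))) := by gcongr
      _ ≤ _ := by
        simp only [← exp_nat_mul, ← exp_add]
        exact exp_le_exp.2 (by push_cast; linarith)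

/-- Non-degeneracy of the record. -/
theorem nd_of (ko : Ko σ) : ∃ C₀ : ℝ, 1 ≤ C₀ ∧ ∀ (wk : κ → ℝ) (be cc : ℝ) (C W1 : ℕ) (X : Wo ι κ)
    (S : SH.St X) (m m' η h h' x δ lo hi : ℝ), X.Ok σ m → S.Ok σ wk m' → S.Ndx σ wk η h' x δ →
    0 ≤ h → h' + 1 ≤ h → η * S.r ≤ lo → 2 * Vm σ * hi ≤ S.r → C₀ * (S.e + h + 1) ≤ lo →
    C₀ * (S.e + h + X.M) ≤ X.w → (wd S W1).Nd (kk σ wk be cc C) h δ x lo hi := by
  classical
  obtain ⟨γ, g0, hγ⟩ := As.ex_gap (vt σ)
  obtain ⟨N, hN⟩ : ∃ N : ℝ, N = Fintype.card κ := ⟨_, rfl⟩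
  have N0 : 0 ≤ N := hN ▸ Nat.cast_nonneg _
  have V1 : 1 ≤ Vm σ := by linarith [ko.le_Vm σ.τ, ko.v0 σ.τ]
  have g1 : 0 ≤ γ⁻¹ * (6 * N + 7) := by positivity
  refine ⟨γ⁻¹ * (6 * N + 7) + (Vm σ + 5 * N + 5), by linarith,
    fun wk be cc C W1 X S m m' η h h' x δ lo hi ok o ⟨Bad, b1, b2, b3⟩ h0 hh c1 c2 c3 c4 =>
    ⟨fun i y => i < X.M ∧ Bad i y, fun i a ha b hb z => propext (and_congr_right fun u =>
      iff_of_eq (b1 i u a ha b hb (Sum.inl.inj z))), le_trans (sum_le_sum fun i _ =>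
      pb_mono fun ω _ z => ⟨z.1.2, z.2.2⟩) b2, fun i hi i' hi' l1 l2 ω hω hE ξ un la => ?_⟩⟩
  change i < X.M at hi
  change i' ≤ 2 * X.M at hi'
  have e2 : 2 ≤ S.e := ok.e2.trans o.le
  rw [D_eq, D_eq] at l1 l2
  have l0 : γ⁻¹ * (6 * N + 7) * (S.e + h + 1) ≤ lo := le_trans (by gcongr; linarith) c3
  obtain ⟨d, rfl⟩ : ∃ d, i' = i + d := Nat.exists_eq_add_of_le (by
    have : (0 : ℝ) ≤ γ⁻¹ * (6 * N + 7) * (S.e + h + 1) := by positivity
    exact_mod_cast (show (i : ℝ) ≤ i' by linarith))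
  have dd : ((i + d : ℕ) : ℝ) - i = d := by push_cast; ring
  rw [dd] at l1 l2
  have n1 : 6 * N + 7 * S.e + h ≤ γ * d := by
    have := l0.trans l1
    rw [mul_assoc, inv_mul_le_iff₀ g0] at this
    nlinarith
  have n2 : Vm σ * i + (5 * N + 5 * S.e + h) ≤ X.w := by
    have i1 : (i : ℝ) ≤ X.M := by exact_mod_cast hi.le
    have i0 : (0 : ℝ) ≤ i := Nat.cast_nonneg _
    have : (Vm σ + 5 * N + 5) * (S.e + h + X.M) ≤ X.w :=
      le_trans (mul_le_mul_of_nonneg_right (by linarith) (by linarith)) c4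
    nlinarith [mul_le_mul_of_nonneg_left i1 (zero_le_one.trans V1)]
  obtain ⟨p₀, -, hp⟩ := exists_ne_zero_of_sum_ne_zero (un.1.trans_ne one_ne_zero)
  replace hp := abs_ne_zero.1 hp
  have un' : SH.Un σ wk (σ.mu p₀) (wk p₀) ξ := ⟨un.1, fun p z => by
    have a1 := (nn_iff p).1 (un.2.1 p z)
    have a2 := un.2.2 p p₀ z hp
    rw [wt_eq a1, wt_eq ((nn_iff p₀).1 (un.2.1 p₀ hp))] at a2
    exact ⟨a1, a2⟩⟩
  obtain ⟨g, hg⟩ : ∃ g : X.Λ → X.Ω, ∀ y, (wd S W1).cp i y = (wd S W1).cp i ω →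
      (wd S W1).v1 i (i + d) y = g (X.C (i + d) y) :=
    ⟨fun c => @Classical.epsilon _ (N2.ne X.P) fun v => v ∈ X.P.S ∧ (wd S W1).E i v ∧
      ((wd S W1).cp i v, (wd S W1).Cp (i + d) v) = ((wd S W1).cp i ω, Sum.inr c), fun y z => by
      unfold Wd.v1 N2.rep
      simp only [z, Cp_eq S (i + d) y]
      rfl⟩
  have law : cv (cE (wd S W1).P ((wd S W1).E i)) ((wd S W1).cp i) ((wd S W1).cp i ω) =
      cv X.P (S.cp i) (S.cp i ω) := by
    unfold cv
    rw [cE_cE (E' := fun v => (wd S W1).cp i v = (wd S W1).cp i ω) ⟨ω, hω, hE, rfl⟩]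
    exact cE_congr fun v hv => ⟨fun z => (cp_iff o hi hω hv).1 z.2, fun z =>
      ⟨⟨hi, (o.cls hi hω hv z).2.1.2 hE.2⟩, (cp_iff o hi hω hv).2 z⟩⟩
  rw [law]
  refine le_trans (pb_mono fun y hy z => ⟨fun u => z.1 ⟨hi, u⟩, fun a ha => ?_⟩)
    (b3 i hi d ⟨c1.trans l1, le_trans (by gcongr) c2⟩ ω hω hE.2 _ _ ξ (fun c a => la (.inr c) a +
      exp (wk p₀ * d) * ∑ p, ξ p * S.φ σ i ω (g c) a p) un')
  obtain ⟨hy, cy⟩ := (MX.mem_cv hω y).1 hy
  obtain ⟨-, k1, -, k2⟩ := o.cls hi hω hy cy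
  have Ey : (wd S W1).E i y := ⟨hi, k1.2 hE.2⟩
  have va := o.val i hi y hy Ey.2
  obtain ⟨r1, -, r3⟩ := N2.rep_spec (P := X.P)
    (A := fun y => ((wd S W1).cp i y, (wd S W1).Cp (i + d) y)) hy Ey
  change (wd S W1).v1 i (i + d) y ∈ _ at r1
  change ((wd S W1).cp i ((wd S W1).v1 i (i + d) y), (wd S W1).Cp (i + d)
    ((wd S W1).v1 i (i + d) y)) = _ at r3
  replace r3 := Sum.inr.inj ((Cp_eq S _ _).symm.trans ((congrArg Prod.snd r3).trans (Cp_eq S _ _)))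
  have ph : ∀ u, (wd S W1).φ (kk σ wk be cc C) i ((wd S W1).cp i y) u a = S.φ σ i y u a :=
    fun u => funext fun b => by
      have := φ_eq (W1 := W1) (be := be) (cc := cc) (C := C) o hi hy u a b
      rwa [g1_vt ha, zero_mul, neg_zero, exp_zero, one_mul] at this
  obtain ⟨z1, z2⟩ := z.2 a ha
  have ee : exp (-h) + exp (-h) ≤ exp (-h') := by
    rw [show -h' = 1 + -h + (h - h' - 1) by ring, exp_add, exp_add]
    nlinarith [add_one_le_exp 1, exp_pos (-h), one_le_exp (show 0 ≤ h - h' - 1 by linarith),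
      mul_pos (exp_pos 1) (exp_pos (-h))]
  refine ⟨fun p p0 ps => ?_, le_trans (le_of_eq_of_le (congrArg _ ?_) z2)
    (le_trans (le_add_of_nonneg_left (exp_pos _).le) ee)⟩
  · have a1 := SH.dot_abs (x := fun p' => S.act σ i y a p p' -
        (wd S W1).ρ0 (kk σ wk be cc C) i (i + d) y a p' p) un.1 (exp_pos (-h)).le fun p' u => by
      have u1 := un'.2 p' u
      refine le_of_eq_of_le (congrArg (fun t => |_ - t|) ?_) (act_near va ko ok o.le hy r1 hi' r3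
        hγ h0 (hN ▸ n1) (hN ▸ n2) (p := p) ha u1.1)
      unfold Wd.ρ0
      rw [ck_eq o hi hy, ph, wt_eq p0, wt_eq u1.1, u1.2.2, ps]
      simp only [and_true]
      rfl
    have a2 := abs_le.1 (z1 p ((nn_iff p).2 p0))
    simp only [dotProduct, mul_comm _ (ξ _), mul_sub, sum_sub_distrib] at a1
    replace a1 := abs_le.1 a1
    rw [abs_le]
    constructor <;> linarith [a1.1, a1.2, a2.1, a2.2]
  · rw [← hg y ((cp_iff o hi hω hy).2 cy), ← k2, Cp_eq S (i + d) y]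
    beta_reduce
    rw [← sub_sub, sub_right_comm, ← mul_sub, ← sum_sub_distrib, mul_sum]
    congr 1
    refine sum_congr rfl fun p _ => ?_
    by_cases u : ξ p = 0
    · simp [u]
    unfold Wd.θ0
    rw [ph, ph, D_eq, D_eq, dd, wt_eq (un'.2 p u).1, (un'.2 p u).2.2]
    ring

end Pool.Agent.MP_5168f5_an.QA.SC.Br76
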