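import Pool.Agent.MP_5168f5_an.AN.GAAll2

/-! The first order term of the group law along a fixed element. -/

namespace Pool.Agent.MP_4b405e_nt.SK

open Pool.Agent.MP_5168f5_an.AN.GA GABoxA

/-- Up to terms with two letters `z`, the element `exp(-x) exp(x + z)` has logarithm
`z + ∑ q i • ad x ^ (i + 1) z` with universal rational coefficients. -/
def SDexp : Prop := ∀ N k : ℕ, ∃ (K : ℕ) (q : ℕ → ℚ), 1 ≤ K ∧ (∀ i, |q i| ≤ K) ∧
  ∀ (κ : Type) [Fintype κ] (c : κ → κ → κ → ℝ) (R r r1 : κ → ℝ) (L η : ℝ) (x z : κ → ℝ),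
  Fintype.card κ ≤ k → (∀ a b e, c a b e = -c b a e) → (∀ a, 0 ≤ R a ∧ 0 ≤ r a ∧ 0 ≤ r1 a) →
  1 ≤ L → 0 ≤ η → Idl c R R L → Idl c R r L → Idl c R r1 L →
  (∀ a b e, |c a b e| * r a * r b ≤ η * r1 e) → Bx R L x → Bx r L z → Bx R L z →
  Bx r1 ((K * L) ^ K * η)
    (bch N c (-x) (x + z) - (z + ∑ i ∈ Finset.range K, q i • (br c x)^[i + 1] z))

namespace XDexp

variable {κ α : Type} [Fintype κ] {c : κ → κ → κ → ℝ} {R r r1 x z : κ → ℝ} {L η : ℝ} {k : ℕ}

theorem pw3 (Λ : ℝ) (u v : Wd α) :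
    Λ ^ (3 * (Wd.br u v).len - 1) = Λ * (Λ ^ (3 * u.len - 1) * Λ ^ (3 * v.len - 1)) := by
  rw [← pow_add, ← pow_succ']
  have := len_pos u
  have := len_pos v
  exact congrArg _ (by simp only [Wd.len]; omega)

theorem split (c : κ → κ → κ → ℝ) (A B U V U' V' : κ → ℝ) :
    br c A B - br c U V - (br c U' V + br c U V') =
      br c (A - U - U') B + br c U (B - V - V') + br c U' V' + br c U' (B - V - V') := by
  simp only [br_sub_left, br_sub_right]
  abel

theorem rem (hk : Fintype.card κ ≤ k) (hL : 1 ≤ L) (hη : 0 ≤ η)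
    (hr : ∀ a, 0 ≤ R a ∧ 0 ≤ r a ∧ 0 ≤ r1 a) (ha : ∀ a b e, c a b e = -c b a e)
    (h0 : Idl c R R L) (h1 : Idl c R r L) (h2 : Idl c R r1 L)
    (h3 : ∀ a b e, |c a b e| * r a * r b ≤ η * r1 e) {f g F : α → κ → ℝ}
    (hf : ∀ i, Bx R L (f i)) (hF : ∀ i, Bx R L (F i)) (hg : ∀ i, Bx r L (g i))
    (hG : ∀ i, Bx R L (g i)) (e0 : ∀ i, F i = f i + g i) (w : Wd α) :
    Bx r1 (((4 * k ^ 2 + 4) * L) ^ (3 * w.len - 1) * η)
      (w.ev (br c) F - w.ev (br c) f - w.dv (br c) f g) := by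
  have z0 : (0 : ℝ) ≤ k ^ 2 * L := by positivity
  have z1 : (1 : ℝ) ≤ (4 * k ^ 2 + 4) * L := by nlinarith
  have z2 : ∀ u : Wd α, ((2 * k ^ 2 + 2) * L) ^ (2 * u.len - 1) * L ≤
      ((4 * k ^ 2 + 4) * L) ^ (3 * u.len - 1) := fun u => by
    have := len_pos u
    refine le_trans ?_ (pow_le_pow_right₀ z1 (show 2 * u.len - 1 + 1 ≤ _ by omega))
    rw [pow_succ]
    exact mul_le_mul (pow_le_pow_left₀ (by positivity) (by nlinarith) _) (by nlinarith)
      (by linarith) (pow_nonneg (by positivity) _)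
  have z3 : ∀ u : Wd α, ((2 * k ^ 2 + 2) * L) ^ (2 * u.len - 1) ≤
      ((4 * k ^ 2 + 4) * L) ^ (3 * u.len - 1) := fun u =>
    (le_mul_of_one_le_right (by positivity) hL).trans (z2 u)
  have q1 : ∀ u : Wd α, Bx R (((4 * k ^ 2 + 4) * L) ^ (3 * u.len - 1)) (u.ev (br c) f) := fun u =>
    mono (w1 hk hL (fun a => (hr a).1) h0 hf u) (fun a => (hr a).1) (z3 u)
  have q2 : ∀ u : Wd α, Bx R (((4 * k ^ 2 + 4) * L) ^ (3 * u.len - 1)) (u.ev (br c) F) := fun u =>
    mono (w1 hk hL (fun a => (hr a).1) h0 hF u) (fun a => (hr a).1) (z3 u)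
  have q3 : ∀ u : Wd α, Bx r (((4 * k ^ 2 + 4) * L) ^ (3 * u.len - 1)) (u.dv (br c) f g) := fun u =>
    mono (GABox2A.w3 hk hL (by positivity) (fun a => ⟨(hr a).1, (hr a).2.1⟩) ha h0 h1 hf hg u)
      (fun a => (hr a).2.1) (z2 u)
  have q4 : ∀ u : Wd α, Bx R (((4 * k ^ 2 + 4) * L) ^ (3 * u.len - 1)) (u.dv (br c) f g) := fun u =>
    mono (GABox2A.w3 hk hL (by positivity) (fun a => ⟨(hr a).1, (hr a).1⟩) ha h0 h0 hf hG u)
      (fun a => (hr a).1) (z2 u)
  induction w with
  | of i =>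
    intro e
    have := (hr e).2.2
    simp only [Wd.ev, Wd.dv, e0, add_sub_cancel_left, sub_self, Pi.zero_apply, abs_zero]
    positivity
  | br u v a b =>
    intro e
    have a1 := bx hk (by positivity) (by positivity) (by positivity) (fun a => (hr a).2.2) h2
      (q2 v) a e
    have a2 := bx hk (by positivity) (by positivity) (by positivity) (fun a => (hr a).2.2) h2
      (q1 u) b e
    have a3 := GADerA.bx3 hk hη (by positivity) (by positivity) (fun a => (hr a).2.2) h3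
      (q3 u) (q3 v) e
    have a4 := bx hk (by positivity) (by positivity) (by positivity) (fun a => (hr a).2.2) h2
      (q4 u) b e
    rw [br_anti ha] at a1
    rw [pw3, Wd.ev, Wd.ev, Wd.dv, split]
    simp only [Pi.add_apply, Pi.neg_apply] at a1 ⊢
    obtain ⟨Z, hZ⟩ : ∃ Z, Z = ((4 * k ^ 2 + 4) * L) ^ (3 * u.len - 1) *
      ((4 * k ^ 2 + 4) * L) ^ (3 * v.len - 1) * η * r1 e := ⟨_, rfl⟩
    have a5 : 0 ≤ Z := by have := (hr e).2.2; rw [hZ]; positivity
    have a6 : (k : ℝ) ^ 2 * Z ≤ k ^ 2 * L * Z :=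
      mul_le_mul_of_nonneg_right (le_mul_of_one_le_right (by positivity) hL) a5
    have a7 : 0 ≤ L * Z := by positivity
    rw [hZ] at a6 a7
    rw [abs_le] at a1 a2 a3 a4 ⊢
    constructor <;> linarith [a1.1, a1.2, a2.1, a2.2, a3.1, a3.2, a4.1, a4.2]

/-- The value of a word at the letters `-x`, `x`. -/
def sg : Wd Bool → ℚ
  | .of i => bif i then -1 else 1
  | .br _ _ => 0

/-- The coefficient of the derivative of a word at `-x`, `x` in the direction `0`, `z`. -/
def nn : Wd Bool → ℚ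
  | .of i => bif i then 0 else 1
  | .br u v => sg u * nn v - nn u * sg v

omit [Fintype κ] in
theorem qs (p : ℚ) (s : κ → ℝ) : p • s = (p : ℝ) • s := by
  funext e
  simp [Rat.smul_def]

theorem ev_eq (ha : ∀ a b e, c a b e = -c b a e) (w : Wd Bool) :
    w.ev (br c) (fun i => bif i then -x else x) = sg w • x := by
  induction w with
  | of i => cases i <;> simp [Wd.ev, sg]
  | br u v a b =>
    rw [Wd.ev, a, b, qs, qs, br_smul_left, br_smul_right, br_self ha]
    simp [sg]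

theorem dv_eq (ha : ∀ a b e, c a b e = -c b a e) (w : Wd Bool) :
    w.dv (br c) (fun i => bif i then -x else x) (fun i => bif i then 0 else z) =
      nn w • (br c x)^[w.len - 1] z := by
  induction w with
  | of i => cases i <;> simp [Wd.dv, nn, Wd.len]
  | br u v a b =>
    have l1 := len_pos u
    have l2 := len_pos v
    have e1 : sg u • br c x ((br c x)^[v.len - 1] z) =
        sg u • (br c x)^[(Wd.br u v).len - 1] z := by
      cases u with
      | of i =>
        rw [← Function.iterate_succ_apply' (br c x)]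
        exact congrArg (fun j => _ • (br c x)^[j] z) (by simp only [Wd.len]; omega)
      | br _ _ => simp [sg]
    have e2 : sg v • br c x ((br c x)^[u.len - 1] z) =
        sg v • (br c x)^[(Wd.br u v).len - 1] z := by
      cases v with
      | of i =>
        rw [← Function.iterate_succ_apply' (br c x)]
        exact congrArg (fun j => _ • (br c x)^[j] z) (by simp only [Wd.len]; omega)
      | br _ _ => simp [sg]
    rw [Wd.dv, a, b, ev_eq ha, ev_eq ha, qs (nn u), qs (nn v), qs (sg u), qs (sg v), br_smul_left,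
      br_smul_right, br_smul_left, br_smul_right, br_anti ha _ x, ← qs, ← qs, ← qs, ← qs, smul_neg,
      e2, smul_comm (sg u), e1, nn]
    module

end XDexp

open XDexp in
theorem sDexp : SDexp := by
  intro N k
  obtain ⟨m, hm⟩ : ∃ m, m = (BL N).support.sup Wd.len + 2 := ⟨_, rfl⟩
  obtain ⟨Q, hQ⟩ : ∃ Q, Q = 3 + ∑ w ∈ (BL N).support, |(BL N w : ℝ)| := ⟨_, rfl⟩
  obtain ⟨Q', hQ'⟩ : ∃ Q', Q' = 1 + ∑ w ∈ (BL N).support, |BL N w * nn w| := ⟨_, rfl⟩
  obtain ⟨K, k1, k2, k3, k0⟩ :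
      ∃ K : ℕ, 8 * k ^ 2 + 8 ≤ K ∧ ⌈Q⌉₊ ≤ K ∧ 3 * m + 1 ≤ K ∧ ⌈Q'⌉₊ ≤ K :=
    ⟨8 * k ^ 2 + 8 + ⌈Q⌉₊ + (3 * m + 1) + ⌈Q'⌉₊, by omega, by omega, by omega, by omega⟩
  refine ⟨K, fun i => (if i = 0 then -(1 / 2) else 0) +
    ∑ w ∈ (BL N).support, if w.len - 2 = i then BL N w * nn w else 0, by omega, fun i => ?_,
    fun κ _ c R r r1 L η x z hk ha hr hL hη h0 h1 h2 h3 hx hz hZ => ?_⟩
  · refine le_trans ?_ (Nat.ceil_le.1 k0)
    rw [hQ']
    refine (abs_add_le _ _).trans (add_le_add ?_ ((Finset.abs_sum_le_sum_abs _ _).trans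
      (Finset.sum_le_sum fun w _ => ?_)))
    · split_ifs <;> norm_num [abs_le]
    · split_ifs
      · exact le_rfl
      · rw [abs_zero]
        exact abs_nonneg _
  have k4 : (8 * k ^ 2 + 8 : ℝ) ≤ K := by exact_mod_cast k1
  have hL2 : 1 ≤ 2 * L := by linarith
  have k5 : (1 : ℝ) ≤ (4 * k ^ 2 + 4) * (2 * L) :=
    one_le_mul_of_one_le_of_one_le (by nlinarith [sq_nonneg (k : ℝ)]) hL2
  have k6 : (4 * k ^ 2 + 4) * (2 * L) ≤ K * L := by nlinarith
  have k7 : Q * ((4 * k ^ 2 + 4) * (2 * L)) ^ (3 * m) ≤ (K * L) ^ K := by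
    refine le_trans ?_ (pow_le_pow_right₀ (k5.trans k6) k3)
    rw [pow_succ' (K * L : ℝ)]
    exact mul_le_mul ((Nat.ceil_le.1 k2).trans (le_mul_of_one_le_right (by positivity) hL))
      (pow_le_pow_left₀ (by positivity) k6 _) (by positivity) (by positivity)
  have i2 : ∀ {ρ : κ → ℝ}, (∀ a, 0 ≤ ρ a) → Idl c R ρ L → Idl c R ρ (2 * L) :=
    fun hρ h a b e => (h a b e).trans (mul_le_mul_of_nonneg_right (by linarith) (hρ e))
  have n1 : Bx R L (-x) := fun a => by simpa using hx a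
  have n0 : ∀ {ρ : κ → ℝ}, (∀ a, 0 ≤ ρ a) → Bx ρ (2 * L) 0 := fun hρ a => by
    have := hρ a
    simp only [Pi.zero_apply, abs_zero]
    positivity
  have n2 : Bx R (2 * L) (x + z) := fun a => (abs_add_le _ _).trans (by linarith [hx a, hZ a])
  have lL : L ≤ 2 * L := by linarith
  have a1 := lin (BL N) (fun w => (w.ev (br c) fun i => bif i then -x else x + z) -
      (w.ev (br c) fun i => bif i then -x else x) -
      w.dv (br c) (fun i => bif i then -x else x) fun i => bif i then 0 else z)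
    (X := ((4 * k ^ 2 + 4) * (2 * L)) ^ (3 * m) * η) (by positivity) (fun a => (hr a).2.2)
    fun w e => mono (rem hk hL2 hη hr ha (i2 (fun a => (hr a).1) h0) (i2 (fun a => (hr a).2.1) h1)
      (i2 (fun a => (hr a).2.2) h2) h3
      (fun i => by
        cases i
        · exact mono hx (fun a => (hr a).1) lL
        · exact mono n1 (fun a => (hr a).1) lL)
      (fun i => by
        cases i
        · exact n2
        · exact mono n1 (fun a => (hr a).1) lL)
      (fun i => by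
        cases i
        · exact mono hz (fun a => (hr a).2.1) lL
        · exact n0 fun a => (hr a).2.1)
      (fun i => by
        cases i
        · exact mono hZ (fun a => (hr a).1) lL
        · exact n0 fun a => (hr a).1)
      (fun i => by cases i <;> simp) w) (fun a => (hr a).2.2)
      (mul_le_mul_of_nonneg_right (pow_le_pow_right₀ k5 (by omega)) hη)
  rw [← hQ, ← mul_assoc] at a1
  refine (congrArg _ ?_).mp (mono a1 (fun a => (hr a).2.2) (mul_le_mul_of_nonneg_right k7 hη))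
  have b0 : bch N c (-x) x = 0 := by
    rw [(sFil κ ℝ N c ha).1 (-x) x (by rw [br_neg_left, br_self ha, _root_.neg_zero]), neg_add_cancel]
  have b1 : ∑ i ∈ Finset.range K, ((if i = 0 then -(1 / 2) else 0) +
      ∑ w ∈ (BL N).support, if w.len - 2 = i then BL N w * nn w else 0) • (br c x)^[i + 1] z =
      -((1 / 2 : ℚ) • br c x z) + ∑ w ∈ (BL N).support, BL N w •
        w.dv (br c) (fun i => bif i then -x else x) fun i => bif i then 0 else z := by
    simp only [add_smul, Finset.sum_add_distrib, Finset.sum_smul, ite_smul, zero_smul]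
    rw [Finset.sum_ite_eq', if_pos (Finset.mem_range.2 (by omega)), Finset.sum_comm]
    refine congrArg₂ _ (by simp) (Finset.sum_congr rfl fun w hw => ?_)
    have c1 := (sBch N).1 w hw
    have c2 : w.len ≤ (BL N).support.sup Wd.len := Finset.le_sup hw
    rw [Finset.sum_ite_eq, if_pos (Finset.mem_range.2 (by omega)), dv_eq ha, mul_smul]
    exact congrArg (fun j => _ • _ • (br c x)^[j] z) (by omega)
  have b2 : bch N c (-x) (x + z) = bch N c (-x) (x + z) - bch N c (-x) x := by rw [b0, sub_zero]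
  rw [b1, b2]
  simp only [bch, ser, Wd.ev, Wd.dv, Finsupp.sum, smul_sub, Finset.sum_sub_distrib,
    cond_true, cond_false, br_zero_left, zero_add, br_neg_left, smul_neg]
  abel

end Pool.Agent.MP_4b405e_nt.SK
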