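import Pool.Agent.MP_4b405e_nt.SK.CAc

/-! Sparse heights: the facts of the zoomed system in the frames. -/

namespace Pool.Agent.MP_5168f5_an.QA

open H19 H17S H17F R4 AN Filter Matrix Finset
open GA (Mt br mB mC IsFr)
open G39 (dl_inv)
open LC (Au ex_le)

variable {ι κ α : Type} [Fintype ι] [DecidableEq ι] [Fintype κ] [DecidableEq κ] [Fintype α]

/-- The constants are graded at all depths up to `W`. -/
def P7.Cd.AlgL {Ω Λ : Type} (σ : P7.Kc ι κ) (X : P7.Cd ι κ Ω Λ) (W w : ℝ) : Prop :=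
  ∀ ω ∈ X.P.S, ∀ d : ℝ, 0 ≤ d → d ≤ W → ∀ a b e, 0 < σ.mu e → ¬Cp.Hw σ.mu a b e →
    |X.c ω a b e| * Real.exp ((σ.mu e - σ.mu a - σ.mu b) * d) ≤ Real.exp (-w)

namespace Cp

variable {Ω Λ L Γ : ℕ → Type} {σ : Cs ι κ α} {X : ∀ n, Zd ι κ α (Ω n) (Λ n) (L n) (Γ n)}
  {mm ϑ La D s₀ : ℝ} {vt : κ → ℝ} {F F' : ℕ → Matrix κ κ ℝ} {u u' : ∀ n, Ω n → Matrix κ κ ℝ}

/-- The entries of the frames. -/
theorem Cap.ent (H : Cap σ X mm ϑ La D s₀ vt F F' u u') {c : ℝ} (hc : 0 < c) :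
    ∀ᶠ n in UF, ∀ ω ∈ (X n).P.S, ∀ a b, |(u n ω * F n) a b| ≤ Real.exp (c * (X n).M) ∧
      (σ.μ a = 0 → |(F' n * u' n ω) a b| ≤ Real.exp (c * (X n).M)) := by
  filter_upwards [H.fr.dia 0 _ hc, H.ww.good 0] with n k1 k3 ω hω a b
  refine ⟨by simpa using (k1 ω hω).1 a _ ((k3 ω hω).one b), fun r => ?_⟩
  simpa using (k1 ω hω).2 (Pi.single a 1) (fun φ p => by
    rw [dotProduct_single, mul_one]
    refine (((k3 ω hω).ok φ p).f a).trans_eq ?_
    change 1 * flr σ.μ _ a = 1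
    rw [flr, if_neg (by rw [r]; exact lt_irrefl _), mul_one]) b

theorem Cap.algL (H : Cap σ X mm ϑ La D s₀ vt F F' u u') :
    Au (fun n => (X n).M) fun n _ w =>
      ((X n).cd (F n) (F' n) (u n) (u' n)).AlgL (kc σ La D vt) (X n).W w := by
  intro c hc T
  have w := H.ww
  filter_upwards [H.ok 1 one_pos 0, H.fr.blk, w.ent H.fr (T + 5), w.alg, H.ent one_pos,
    G39.big_dl w.big (Fintype.card κ + 1) one_pos] with n k2 k4 k6 k7 k8 n1 ω hω d d0 d1 a b e he h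
  rw [dl_inv] at n1
  obtain ⟨-, e2, e3, -⟩ := k4 ω hω
  set M : ℝ := ((X n).M : ℝ)
  have F0 : 0 ≤ (X n).F := nonneg_of_mul_nonneg_right
    ((abs_nonneg _).trans (k6 ω hω b b)) (Real.exp_pos _)
  change 0 < σ.μ e at he
  change ¬Hw σ.μ a b e at h
  change |mC (u n ω * F n) (F' n * u' n ω) ((X n).c ω) a b e| *
    Real.exp ((σ.μ e - σ.μ a - σ.μ b) * d) ≤ _
  rw [← Real.abs_exp ((σ.μ e - σ.μ a - σ.μ b) * d), ← abs_mul,
    show mC (u n ω * F n) (F' n * u' n ω) ((X n).c ω) a b e *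
      Real.exp ((σ.μ e - σ.μ a - σ.μ b) * d) = 0 + ∑ e', (0 + ∑ a', (0 + ∑ b',
        (u n ω * F n) a a' * (u n ω * F n) b b' * ((X n).c ω a' b' e' *
          Real.exp ((σ.μ e - σ.μ a - σ.μ b) * d) * (F' n * u' n ω) e' e))) by
      simp only [mC, br, vecMul, dotProduct, sum_mul, zero_add]
      exact sum_congr rfl fun _ _ => sum_congr rfl fun _ _ => sum_congr rfl fun _ _ => by ring]
  have z : ∀ y : ℝ, |(0 : ℝ)| ≤ Real.exp y := fun y => by rw [abs_zero]; positivity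
  refine (Nm5.sum_le n1 (z _) fun e' => Nm5.sum_le n1 (z _) fun a' => Nm5.sum_le n1 (z _)
    (y := 1 * M + 1 * M + -((T + 5) * M)) fun b' => ?_).trans (ex_le (by linarith))
  by_cases q1 : (u n ω * F n) a a' = 0
  · rw [q1, zero_mul, zero_mul]; exact z _
  by_cases q2 : (u n ω * F n) b b' = 0
  · rw [q2, mul_zero, zero_mul]; exact z _
  by_cases q3 : (F' n * u' n ω) e' e = 0
  · rw [q3, mul_zero, mul_zero]; exact z _
  have r1 := e2 a a' q1
  have r2 := e2 b b' q2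
  have r3 := e3 e e' q3
  have h' : ¬Hw σ.μ a' b' e' := by rwa [Hw, r1, r2, r3]
  have g0 := (k7 ω hω).gr a' b' e' (r3 ▸ he) h'
  have g1 := k2.grW ω hω a' b' e' (r3 ▸ he) h'
  rw [r1, r2, r3] at g0 g1
  refine Nm5.mul_le (Nm5.mul_le (k8 ω hω a a').1 (k8 ω hω b b').1) ?_
  rw [abs_mul, abs_mul, Real.abs_exp]
  refine (mul_le_mul_of_nonneg_left (k6 ω hω e' e) (by positivity)).trans ?_
  rw [mul_left_comm]
  refine mul_le_of_le_one_right (Real.exp_pos _).le ?_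
  rcases le_total 0 (σ.μ e - σ.μ a - σ.μ b) with s | s
  · refine le_trans ?_ g1
    gcongr
  · refine le_trans ?_ g0
    refine mul_le_mul_of_nonneg_right (mul_le_mul_of_nonneg_left (ex_le ?_) (abs_nonneg _)) F0
    rw [mul_zero]
    exact mul_nonpos_of_nonpos_of_nonneg s d0

/-- The marked coordinate in the frames is the height. -/
theorem Cap.ttL (H : Cap σ X mm ϑ La D s₀ vt F F' u u') :
    Au (fun n => (X n).M) fun n p w => Real.exp (-p) ≤ |(X n).ka * F' n σ.τ σ.τ| ∧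
      |(X n).ka * F' n σ.τ σ.τ| ≤ Real.exp p ∧ ∀ ω ∈ (X n).P.S, ∀ v ∈ (X n).P.S,
        (X n).Q 0 ω = (X n).Q 0 v →
        |GA.lg (mB (u n ω * F n) ((X n).B ω)) ((X n).g ω) ((X n).g v) σ.τ -
          (X n).ka * F' n σ.τ σ.τ * 2 ^ (X n).c₀ * ((X n).zz v - (X n).zz ω)| ≤
            Real.exp (-(w + lg * (X n).W)) := by
  intro c hc T
  have w := H.ww
  have f := H.fr
  have c3 : 0 < c / 3 := by positivity
  filter_upwards [H.ok _ c3 (T + c), f.blk, f.col, f.ex, w.alg, H.ent c3, w.dir f 0 c3, w.sub _ c3]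
    with n k2 k4 k5 k6 k7 k8 k9 k1
  set M : ℝ := ((X n).M : ℝ)
  have M0 : 0 ≤ c * M := mul_nonneg hc.le (Nat.cast_nonneg _)
  have ct : ∀ ω ∈ (X n).P.S, ∀ x : κ → ℝ, (x ᵥ* (F' n * u' n ω)) σ.τ = x σ.τ * F' n σ.τ σ.τ :=
    fun ω hω x => by
      rw [← k5 ω hω σ.τ σ.τ f.tau]
      exact sum_eq_single σ.τ (fun e _ z => mul_eq_zero_of_right _ (not_not.1 fun y =>
        z ((k6.2.1 e σ.τ (.inr (k5 ω hω e _ f.tau ▸ y))).2.2 rfl))) (by simp)
  obtain ⟨o, ho⟩ : ∃ ω, ω ∈ (X n).P.S :=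
    nonempty_of_sum_ne_zero ((X n).P.sum_one.trans_ne one_ne_zero)
  have b1 : Real.exp (-(c / 3 * M)) ≤ |F' n σ.τ σ.τ| := by
    have e := ct o ho ((u n o * F n) σ.τ)
    rw [← mul_apply_eq_vecMul, (k4 o ho).1, one_apply_eq] at e
    rw [Real.exp_neg, inv_le_iff_one_le_mul₀' (Real.exp_pos _), ← abs_one, e, abs_mul]
    exact mul_le_mul_of_nonneg_right (k8 o ho _ _).1 (abs_nonneg _)
  have b2 : |F' n σ.τ σ.τ| ≤ Real.exp (c / 3 * M + c / 3 * M) := by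
    obtain ⟨i, hi⟩ := (k7 o ho).long
    have e := k9 o ho i σ.τ
    rw [ct o ho, abs_mul, Rat.cast_zero, mul_zero, sub_zero] at e
    rw [Real.exp_add]
    calc _ ≤ (X n).L * |(X n).A o i σ.τ| * |F' n σ.τ σ.τ| :=
          le_mul_of_one_le_left (abs_nonneg _) hi
      _ ≤ _ := by
          rw [mul_assoc]
          exact mul_le_mul k1.2 e (by positivity) (Real.exp_pos _).le
  have a0 : 0 < (X n).ka := (Real.exp_pos _).trans_le k2.ka.1
  refine ⟨?_, (Nm5.mul_le ((abs_of_pos a0).trans_le k2.ka.2) b2).trans (ex_le (by linarith)),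
    fun ω hω v hv e => ?_⟩
  · rw [abs_mul, abs_of_pos a0]
    refine le_trans ?_ (mul_le_mul k2.ka.1 b1 (Real.exp_pos _).le a0.le)
    rw [← Real.exp_add]
    exact ex_le (by linarith)
  · rw [(k2.ex ω hω v hv).1, lg_mB (k7 ω hω).fr (k4 ω hω).1 (k2.unit ω hω), ct ω hω,
      show ∀ t r s y z : ℝ, t * r - s * r * y * z = (t - s * y * z) * r from fun _ _ _ _ _ => by
        ring]
    exact (Nm5.mul_le (k2.tt ω v ⟨hω, hv, e⟩) b2).trans (ex_le (by linarith))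

/-- All pairs and the pairs in one deep cell, in the frames. -/
theorem Cap.locL (H : Cap σ X mm ϑ La D s₀ vt F F' u u') :
    Au (fun n => (X n).M) fun n p w => ∀ ω ∈ (X n).P.S, ∀ v ∈ (X n).P.S, ∃ t : κ → ℝ,
      (X n).g v = (X n).g ω * GA.ex (mB (u n ω * F n) ((X n).B ω)) t ∧
      GA.lg (mB (u n ω * F n) ((X n).B ω)) ((X n).g ω) ((X n).g v) = t ∧
      ∀ b, (σ.μ b = 0 → |t b| ≤ Real.exp p) ∧ (0 < σ.μ b → |t b| ≤ (X n).F * Real.exp (-w) ∧
        ((X n).T ω = (X n).T v → |t b| ≤ (X n).F * Real.exp (-w - σ.μ b * (X n).W))) := by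
  intro c hc T
  have w := H.ww
  have f := H.fr
  have c3 : 0 < c / 3 := by positivity
  filter_upwards [H.ok _ c3 0, f.blk, w.ent f (T + c), w.alg, H.ent c3,
    G39.big_dl w.big (Fintype.card κ + 1) c3] with n k2 k4 k6 k7 k8 n1 ω hω v hv
  rw [dl_inv] at n1
  obtain ⟨e1, -, e3, -⟩ := k4 ω hω
  obtain ⟨x1, x2⟩ := k2.ex ω hω v hv
  set M : ℝ := ((X n).M : ℝ)
  have M0 : 0 ≤ c * M := mul_nonneg hc.le (Nat.cast_nonneg _)
  have z : ∀ y : ℝ, |(0 : ℝ)| ≤ Real.exp y := fun y => by rw [abs_zero]; positivity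
  have key : ∀ (b : κ) (y : ℝ), (∀ e, σ.μ e = σ.μ b → |(X n).Y.t ω v e| ≤
      Real.exp (c / 3 * M + y)) → |((X n).Y.t ω v ᵥ* (F' n * u' n ω)) b| ≤
        (X n).F * Real.exp (-(T * M) + y) := fun b y h => by
    have F0 : 0 ≤ (X n).F := nonneg_of_mul_nonneg_right
      ((abs_nonneg _).trans (k6 ω hω b b)) (Real.exp_pos _)
    refine (abs_sum_le_sum_abs _ _).trans ((sum_le_card_nsmul _ _
      (Real.exp (c / 3 * M + y) * (Real.exp (-((T + c) * M)) * (X n).F)) fun e _ => ?_).trans ?_)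
    · by_cases q : (F' n * u' n ω) e b = 0
      · simp only [q, mul_zero, abs_zero]; positivity
      · rw [abs_mul]
        exact mul_le_mul (h e (e3 b e q)) (k6 ω hω e b) (abs_nonneg _) (Real.exp_pos _).le
    · rw [card_univ, nsmul_eq_mul, ← mul_assoc, ← mul_assoc, mul_comm (X n).F]
      refine mul_le_mul_of_nonneg_right ?_ F0
      rw [mul_assoc, ← Real.exp_add]
      refine (mul_le_mul_of_nonneg_right ((le_add_of_nonneg_right zero_le_one).trans n1)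
        (Real.exp_pos _).le).trans ?_
      rw [← Real.exp_add]
      exact ex_le (by linarith)
  refine ⟨(X n).Y.t ω v ᵥ* (F' n * u' n ω), by rw [ex_mB _ e1]; exact x1, by
    rw [x1]; exact lg_mB (k7 ω hω).fr e1 (k2.unit ω hω) _, fun b => ⟨fun r => ?_, fun _ =>
      ⟨by simpa using key b 0 fun e _ => by simpa using x2 e, fun q => ?_⟩⟩⟩
  · refine le_trans (le_of_eq ?_) ((Nm5.sum_le n1 (z _) (y := c / 3 * M + c / 3 * M)
      (f := fun e => (X n).Y.t ω v e * (F' n * u' n ω) e b) fun e => ?_).trans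
        (ex_le (by linarith)))
    · rw [zero_add]; rfl
    · by_cases q : (F' n * u' n ω) e b = 0
      · rw [q, mul_zero]; exact z _
      · exact Nm5.mul_le (x2 e) ((k8 ω hω e b).2 ((e3 b e q).trans r))
  · exact key b (-(σ.μ b * (X n).W)) fun e r => r ▸ k2.loc ω v ⟨hω, hv, q⟩ e

end Cp

end Pool.Agent.MP_5168f5_an.QA
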