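import Pool.Agent.MP_4b405e_nt.SK.CPt62

/-! Sparse heights, block C: the block and the grading at one point. -/

namespace Pool.Agent.MP_5168f5_an.QA.SC.Wd.P62

open H19 H17S H17F R4 AN Filter Matrix Real Finset

variable {ι κ : Type} [Fintype ι] [DecidableEq ι] [Fintype κ] [DecidableEq κ]
  {σ : Kk ι κ} {Y : Wd ι κ} {p : Pm} {e : ℝ} (z : Par × ((ℕ × Y.Ω) × Y.Ω))

theorem zo (s : σ.Ok) : (Y.bd σ p).Z z (σ.bc s).o = 1 := rfl

theorem zb (h : 1 ≤ e) (q : σ.Nu) : |(Y.bd σ p).Z z q| ≤ exp e := by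
  have := add_one_le_exp e
  cases q with
  | none => exact abs_one.trans_le (by linarith)
  | some b => exact (GA.CR.dz_abs _ _).trans (by linarith)

theorem zg (q : σ.Nu) : ∃ k : ℤ, 2 ^ (Y.bd σ p).u * (Y.bd σ p).Z z q = k := by
  cases q with
  | none => exact ⟨2 ^ p.u, by push_cast; exact mul_one _⟩
  | some b => exact GA.CR.dz_grid _ _

theorem gr (s : σ.Ok) (a : σ.Al) (q q' : σ.Nu) (h : (Y.bd σ p).ρ z a q q' ≠ 0) :
    (σ.bc s).wt q = (σ.bc s).wt q' + (σ.bc s).et a ∧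
      (q' ≠ (σ.bc s).o → (σ.bc s).w q = (σ.bc s).w q') := by
  cases q with
  | none => exact absurd rfl h
  | some b =>
    cases q' with
    | none => exact ⟨by_contra fun n => h (if_neg fun y => n (y.trans (zero_add _).symm)),
        fun n => absurd rfl n⟩
    | some b' =>
      have k : σ.mu b.1 = σ.mu b'.1 + σ.mu a.1 ∧ σ.wt b.1 = σ.wt b'.1 := by_contra fun n => h (by
        change Y.ρ0 σ _ _ _ _ _ _ * _ / _ = 0
        rw [ρ0, if_neg n, zero_mul, zero_div])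
      exact ⟨k.1, fun _ => k.2⟩

end Pool.Agent.MP_5168f5_an.QA.SC.Wd.P62
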