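import Pool.Agent.MP_5168f5_an.AN.GAApi

/-! Sparse heights, block C: the graded part of an action and its source satisfy the bracket
relations up to small errors. -/

namespace Pool.Agent.MP_5168f5_an.QA.GPt

open AN GA Matrix Finset Real

theorem up {x y z : ℝ} (k : |x| ≤ exp y) (h : y ≤ z) : |x| ≤ exp z := k.trans (exp_le_exp.2 h)

theorem zer (y : ℝ) : |(0 : ℝ)| ≤ exp y := by rw [abs_zero]; exact (exp_pos y).le

theorem mul {x x' y y' : ℝ} (k : |x| ≤ exp y) (k' : |x'| ≤ exp y') : |x * x'| ≤ exp (y + y') := by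
  rw [abs_mul, exp_add]
  exact mul_le_mul k k' (abs_nonneg _) (exp_pos _).le

theorem exq (y : ℝ) : |exp y| ≤ exp y := (abs_exp y).le

theorem neg {x y : ℝ} (k : |x| ≤ exp y) : |-x| ≤ exp y := by rwa [abs_neg]

theorem add {x x' y e : ℝ} (e1 : 1 ≤ e) (k : |x| ≤ exp y) (k' : |x'| ≤ exp y) :
    |x + x'| ≤ exp (e + y) := by
  rw [exp_add]
  nlinarith [abs_add_le x x', exp_pos y, add_one_le_exp e]

theorem sub {x x' y e : ℝ} (e1 : 1 ≤ e) (k : |x| ≤ exp y) (k' : |x'| ≤ exp y) :
    |x - x'| ≤ exp (e + y) := sub_eq_add_neg x x' ▸ add e1 k (neg k')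

theorem sum {β : Type} [Fintype β] {f : β → ℝ} {y e : ℝ} (c : (Fintype.card β : ℝ) ≤ e)
    (k : ∀ i, |f i| ≤ exp y) : |∑ i, f i| ≤ exp (e + y) := by
  have a := (abs_sum_le_sum_abs f univ).trans (sum_le_card_nsmul _ _ _ fun i _ => k i)
  rw [nsmul_eq_mul, card_univ] at a
  rw [exp_add]
  nlinarith [exp_pos y, add_one_le_exp e]

variable {κ : Type} [Fintype κ] [DecidableEq κ]

/-- The weights, the indices `N` of positive rate, the letters `G`, the loss `e`. -/
structure Wt (mu : κ → ℝ) (N G : κ → Prop) (e : ℝ) : Prop where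
  m0 : ∀ a, 0 ≤ mu a
  n0 : ∀ a, N a → 0 < mu a
  g : ∀ a, G a ↔ 0 < mu a ∧ ¬N a
  e1 : 1 ≤ e
  k : (Fintype.card κ : ℝ) ≤ e

/-- The constants in the basis of the class. -/
structure Ck (mu wt : κ → ℝ) (N : κ → Prop) (c : κ → κ → κ → ℝ) (e s : ℝ) : Prop where
  anti : ∀ a b f, c a b f = -c b a f
  jac : ∀ s t u, br c (br c s t) u = br c s (br c t u) - br c t (br c s u)
  ob : ∀ a b f, |c a b f| ≤ exp e
  gr : ∀ a b f, 0 < mu f → ¬(0 < mu a ∧ 0 < mu b ∧ mu f = mu a + mu b) → |c a b f| ≤ exp (-s)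
  nl : ∀ a b f, 0 < mu f → ¬N f → N a ∨ N b → |c a b f| ≤ exp (-s)
  v1 : ∀ a b f, N b → N f → wt b < wt f → |c a b f| ≤ exp (-s)

/-- A frame `x` with constants `d`, in the basis of the class. -/
structure Ph (mu : κ → ℝ) (N G : κ → Prop) (c : κ → κ → κ → ℝ) (x : Matrix κ κ ℝ)
    (d : κ → κ → κ → ℝ) (e s : ℝ) : Prop where
  row : ∀ a b, ¬N a → |x a b| ≤ exp e
  off : ∀ a b, ¬N b → x a b = (1 : Matrix κ κ ℝ) a b
  gr : ∀ a b, x a b ≠ 0 → mu a = mu b
  ob : ∀ a b f, |d a b f| ≤ exp e
  nn : ∀ a b f p, G a → G b → N f → |d a b f * x f p| ≤ exp (-s)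
  bk : ∀ a b, br c (x a) (x b) = d a b ᵥ* x

/-- The action of a row. -/
def M (c : κ → κ → κ → ℝ) (x : Matrix κ κ ℝ) (a p q : κ) : ℝ := br c (x a) (Pi.single q 1) p

open Classical in
/-- The graded part of the action. -/
noncomputable def ρ (mu wt : κ → ℝ) (c : κ → κ → κ → ℝ) (x : Matrix κ κ ℝ) (a p q : κ) : ℝ :=
  if mu p = mu q + mu a ∧ wt p = wt q then M c x a p q else 0

theorem M_eq (c : κ → κ → κ → ℝ) (x : Matrix κ κ ℝ) (a p q : κ) :
    M c x a p q = ∑ b, c b q p * x a b := by
  simp [M, br, Pi.single_apply]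

theorem br_M (c : κ → κ → κ → ℝ) (x : Matrix κ κ ℝ) (a p : κ) (v : κ → ℝ) :
    br c (x a) v p = ∑ m, M c x a p m * v m := by
  simp only [M_eq, br, sum_mul]
  exact sum_comm

theorem br_vm (c : κ → κ → κ → ℝ) (x : Matrix κ κ ℝ) (t : κ → ℝ) (p q : κ) :
    br c (t ᵥ* x) (Pi.single q 1) p = ∑ f, t f * M c x f p q := by
  have := M_eq c (fun _ => t ᵥ* x) p p q
  simp only [M] at this
  simp only [this, M_eq, vecMul, dotProduct, mul_sum]
  exact sum_comm.trans (sum_congr rfl fun _ _ => sum_congr rfl fun _ _ => by ring)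

variable {mu wt : κ → ℝ} {N G : κ → Prop} {c cx cy : κ → κ → κ → ℝ} {x y : Matrix κ κ ℝ}
  {e s h d : ℝ} {a a' p q : κ}

theorem Ph.ms (W : Wt mu N G e) (X : Ph mu N G c x cx e s) (ha : ¬N a) {t : ℝ}
    (k : ∀ b, mu a = mu b → |c b q p| ≤ exp t) : |M c x a p q| ≤ exp (2 * e + t) := by
  rw [M_eq]
  refine up (sum W.k (y := t + e) fun b => ?_) (by linarith)
  by_cases z : x a b = 0
  · rw [z, mul_zero]; exact zer _
  · exact mul (k b (X.gr a b z)) (X.row a b ha)

theorem Ph.rb (W : Wt mu N G e) (C : Ck mu wt N c e s) (X : Ph mu N G c x cx e s) (ha : ¬N a)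
    (p q : κ) : |ρ mu wt c x a p q| ≤ exp (3 * e) := by
  rw [ρ]
  split_ifs
  · exact up (X.ms W ha fun b _ => C.ob b q p) (by linarith)
  · exact zer _

/-- On the letters the constants of a frame are those of the class. -/
theorem Ph.cl (W : Wt mu N G e) (C : Ck mu wt N c e s) (X : Ph mu N G c x cx e s) (ha : G a)
    (ha' : G a') {f : κ} (hf : G f) : |c a a' f - cx a a' f| ≤ exp (4 * e - s) := by
  have g := (W.g _).1 ha
  have g' := (W.g _).1 ha'
  have g'' := (W.g _).1 hf
  have e1 : cx a a' f = br c (x a) (x a') f := by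
    rw [X.bk]
    simp [vecMul, dotProduct, X.off _ f g''.2, one_apply]
  have e2 : c a a' f = br c ((1 : Matrix κ κ ℝ) a) ((1 : Matrix κ κ ℝ) a') f := by
    simp [br, one_apply]
  rw [e1, e2, br, br, ← sum_sub_distrib]
  refine up (sum W.k (y := e + (-s + e + e)) fun b => ?_) (by linarith)
  rw [← sum_sub_distrib]
  refine sum W.k fun b' => ?_
  by_cases z : N b ∨ N b'
  · have : c b b' f * (1 : Matrix κ κ ℝ) a b * (1 : Matrix κ κ ℝ) a' b' = 0 := by
      rcases z with z | z
      · rw [one_apply_ne (fun k : a = b => g.2 (k ▸ z)), mul_zero, zero_mul]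
      · rw [one_apply_ne (fun k : a' = b' => g'.2 (k ▸ z)), mul_zero]
    rw [this, zero_sub]
    exact neg (mul (mul (C.nl b b' f g''.1 g''.2 z) (X.row a b g.2)) (X.row a' b' g'.2))
  · rw [X.off a b fun k => z (.inl k), X.off a' b' fun k => z (.inr k), sub_self]
    exact zer _

open Classical in
/-- The bracket relation of the graded action. -/
theorem Ph.lie1 (W : Wt mu N G e) (C : Ck mu wt N c e s) (X : Ph mu N G c x cx e s) (ha : G a)
    (ha' : G a') (hp : N p) (hq : N q) :
    |∑ m, (if N m then ρ mu wt c x a p m * ρ mu wt c x a' m q -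
        ρ mu wt c x a' p m * ρ mu wt c x a m q else 0) -
      ∑ f, if G f then c a a' f * ρ mu wt c x f p q else 0| ≤ exp (10 * e - s) := by
  have e1 := W.e1
  have p0 := W.n0 p hp
  have mb : ∀ {b}, ¬N b → ∀ p q, |M c x b p q| ≤ exp (2 * e + e) := fun k p q =>
    X.ms W k fun b _ => C.ob b q p
  by_cases A : mu p = mu q + mu a + mu a' ∧ wt p = wt q
  · have t1 : ∀ {a a'}, G a → G a' → mu p = mu q + mu a + mu a' → ∀ m,
        |(if N m then ρ mu wt c x a p m * ρ mu wt c x a' m q else 0) -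
          M c x a p m * M c x a' m q| ≤ exp (5 * e - s) := fun {a a'} ha ha' A1 m => by
      have g := (W.g _).1 ha
      have g' := (W.g _).1 ha'
      by_cases k : N m ∧ mu m = mu q + mu a' ∧ wt m = wt q
      · rw [if_pos k.1, ρ, ρ, if_pos k.2, if_pos ⟨by linarith [k.2.1], by linarith [k.2.2, A.2]⟩,
          sub_self]
        exact zer _
      have z : (if N m then ρ mu wt c x a p m * ρ mu wt c x a' m q else 0) = 0 := by
        split_ifs with n
        · rw [ρ.eq_def _ _ _ _ a', if_neg fun j => k ⟨n, j⟩, mul_zero]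
        · rfl
      rw [z, zero_sub, abs_neg]
      have l : (∀ b, mu a = mu b → |c b m p| ≤ exp (-s)) →
          |M c x a p m * M c x a' m q| ≤ exp (5 * e - s) := fun j =>
        up (mul (X.ms W g.2 j) (mb g'.2 m q)) (by linarith)
      have r : (∀ b, mu a' = mu b → |c b q m| ≤ exp (-s)) →
          |M c x a p m * M c x a' m q| ≤ exp (5 * e - s) := fun j =>
        up (mul (mb g.2 p m) (X.ms W g'.2 j)) (by linarith)
      by_cases m0 : 0 < mu m
      swap
      · exact l fun b _ => C.gr b m p p0 fun j => m0 j.2.1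
      by_cases m1 : mu m = mu q + mu a'
      swap
      · exact r fun b i => C.gr b q m m0 fun j => m1 (by linarith [j.2.2])
      by_cases n : N m
      swap
      · exact r fun b _ => C.nl b q m m0 n (.inr hq)
      rcases lt_trichotomy (wt m) (wt q) with j | j | j
      · exact l fun b _ => C.v1 b m p n hp (by linarith [A.2])
      · exact (k ⟨n, m1, j⟩).elim
      · exact r fun b _ => C.v1 b q m hq n j
    have t2 : ∀ f, |(if G f then c a a' f * ρ mu wt c x f p q else 0) -
        cx a a' f * M c x f p q| ≤ exp (7 * e - s) := fun f => by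
      by_cases n : N f
      · rw [if_neg fun k => ((W.g f).1 k).2 n, zero_sub, abs_neg, M_eq, mul_sum]
        refine up (sum W.k (y := e + -s) fun b => ?_) (by linarith)
        rw [mul_left_comm]
        exact mul (C.ob b q p) (X.nn a a' f b ha ha' n)
      by_cases k : G f ∧ mu p = mu q + mu f
      · rw [if_pos k.1, ρ, if_pos ⟨k.2, A.2⟩, ← sub_mul]
        exact up (mul (X.cl W C ha ha' k.1) (mb n p q)) (by linarith)
      have z : (if G f then c a a' f * ρ mu wt c x f p q else 0) = 0 := by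
        split_ifs with j
        · rw [ρ, if_neg fun i => k ⟨j, i.1⟩, mul_zero]
        · rfl
      rw [z, zero_sub, abs_neg]
      exact up (mul (X.ob a a' f) (X.ms W n fun b i => C.gr b q p p0 fun j =>
        k ⟨(W.g f).2 ⟨i ▸ j.1, n⟩, by linarith [j.2.2]⟩)) (by linarith)
    have J := congrFun (C.jac (x a) (x a') (Pi.single q 1)) p
    rw [X.bk, br_vm, Pi.sub_apply, br_M, br_M] at J
    change _ = ∑ m, M c x a p m * M c x a' m q - ∑ m, M c x a' p m * M c x a m q at J
    have s1 := sum W.k (t1 ha ha' A.1)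
    have s2 := sum W.k (t1 ha' ha (by linarith [A.1]))
    have s3 := sum W.k t2
    have := sub e1 (up (sub e1 s1 s2) (show _ ≤ e + (7 * e - s) by linarith)) s3
    refine up (le_of_eq_of_le ?_ this) (by linarith)
    simp only [sum_sub_distrib]
    rw [J]
    congr 1
    have : ∀ m, (if N m then ρ mu wt c x a p m * ρ mu wt c x a' m q -
        ρ mu wt c x a' p m * ρ mu wt c x a m q else 0) =
        (if N m then ρ mu wt c x a p m * ρ mu wt c x a' m q else 0) -
        (if N m then ρ mu wt c x a' p m * ρ mu wt c x a m q else 0) := fun m => by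
      split_ifs <;> simp
    simp only [this, sum_sub_distrib]
    ring
  · have t1 : ∀ a a' m, ¬(mu p = mu q + mu a + mu a' ∧ wt p = wt q) →
        ρ mu wt c x a p m * ρ mu wt c x a' m q = 0 := fun a a' m k => by
      rw [ρ, ρ]
      split_ifs with i j
      · exact (k ⟨by linarith [i.1, j.1], i.2.trans j.2⟩).elim
      all_goals simp
    rw [sum_eq_zero fun m _ => by
      rw [t1 a a' m A, t1 a' a m fun k => A ⟨by linarith [k.1], k.2⟩, sub_self, ite_self],
      zero_sub, abs_neg]
    refine up (sum W.k (y := -s + 3 * e) fun f => ?_) (by linarith)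
    split_ifs with k
    · by_cases j : mu p = mu q + mu f ∧ wt p = wt q
      · exact mul (C.gr a a' f ((W.g f).1 k).1 fun i => A ⟨by linarith [i.2.2, j.1], j.2⟩)
          (X.rb W C ((W.g f).1 k).2 p q)
      · rw [ρ, if_neg j, mul_zero]; exact zer _
    · exact zer _

/-- The normalised source. -/
noncomputable def θ (wt : κ → ℝ) (d : ℝ) (x y : Matrix κ κ ℝ) (a p : κ) : ℝ :=
  exp (wt p * d) * (y a p - x a p)

/-- The depth `d` against the thresholds. -/
structure Dp (wt : κ → ℝ) (s h d : ℝ) : Prop where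
  hs : ∀ p, h + wt p * d ≤ s
  gap : ∀ p m, wt p < wt m → h + wt p * d ≤ wt m * d
  g0 : ∀ m, h ≤ wt m * d
  h0 : 0 ≤ h
  d0 : 0 ≤ d

theorem Ph.supp (X : Ph mu N G c x cx e s) (Y : Ph mu N G c y cy e s) {m : κ}
    (k : y a m - x a m ≠ 0) : N m ∧ mu a = mu m := by
  refine ⟨not_not.1 fun n => k (by rw [X.off a m n, Y.off a m n, sub_self]), not_not.1 fun n => k ?_⟩
  rw [not_not.1 fun j => n (X.gr a m j), not_not.1 fun j => n (Y.gr a m j), sub_self]

open Classical in
/-- The cocycle relation of the source. -/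
theorem Ph.lie2 (W : Wt mu N G e) (C : Ck mu wt N c e s) (X : Ph mu N G c x cx e s)
    (Y : Ph mu N G c y cy e s) (D : Dp wt s h d)
    (tb : ∀ a m, G a → |θ wt d x y a m| ≤ exp e) (ha : G a) (ha' : G a') (hp : N p) :
    |∑ m, (if N m then ρ mu wt c x a p m * θ wt d x y a' m -
        ρ mu wt c x a' p m * θ wt d x y a m else 0) -
      ∑ f, if G f then c a a' f * θ wt d x y f p else 0| ≤ exp (10 * e - h) := by
  have e1 := W.e1
  have p0 := W.n0 p hp
  have hs := D.hs p
  have h0 := D.h0
  have db : ∀ {a}, G a → ∀ m, |y a m - x a m| ≤ exp (e - wt m * d) := fun {a} k m => by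
    have := mul (exq (-(wt m * d))) (tb a m k)
    rw [θ, ← mul_assoc, ← exp_add, neg_add_cancel, exp_zero, one_mul] at this
    exact up this (by linarith)
  have t3 : ∀ {a a'}, G a → G a' → ∀ m,
      |(if N m then ρ mu wt c x a p m * θ wt d x y a' m else 0) -
        exp (wt p * d) * (M c x a p m * (y a' m - x a' m))| ≤ exp (4 * e - h) :=
    fun {a a'} ha ha' m => by
    have g := ((W.g _).1 ha).2
    by_cases z : y a' m - x a' m = 0
    · rw [θ, z]; simpa using (exp_pos _).le
    have n := (X.supp Y z).1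
    rw [if_pos n, ρ]
    split_ifs with k
    · rw [θ, k.2, mul_left_comm, sub_self]; exact zer _
    rw [zero_mul, zero_sub, abs_neg]
    have g0 := D.g0 m
    have l : (∀ b, mu a = mu b → |c b m p| ≤ exp (-s)) →
        |exp (wt p * d) * (M c x a p m * (y a' m - x a' m))| ≤ exp (4 * e - h) := fun j =>
      up (mul (exq _) (mul (X.ms W g j) (db ha' m))) (by linarith)
    rcases lt_trichotomy (wt m) (wt p) with j | j | j
    · exact l fun b _ => C.v1 b m p n hp j
    · exact l fun b i => C.gr b m p p0 fun u => k ⟨by linarith [u.2.2], j.symm⟩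
    · exact up (mul (exq _) (mul (X.ms W g fun b _ => C.ob b m p) (db ha' m)))
        (by linarith [D.gap p m j])
  have t4 : |exp (wt p * d) * br c (y a - x a) (y a' - x a') p| ≤ exp (5 * e - h) := by
    rw [br, mul_sum]
    refine up (sum W.k (y := e + (3 * e - h)) fun m => ?_) (by linarith)
    rw [mul_sum]
    refine sum W.k fun m' => ?_
    simp only [Pi.sub_apply]
    by_cases z : y a' m' - x a' m' = 0
    · rw [z]; simpa using (exp_pos _).le
    have g0 := D.g0 m
    have g1 := D.g0 m'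
    rcases lt_or_ge (wt m') (wt p) with j | j
    · exact up (mul (exq _) (mul (mul (C.v1 m m' p (X.supp Y z).1 hp j) (db ha m)) (db ha' m')))
        (by linarith)
    · exact up (mul (exq _) (mul (mul (C.ob m m' p) (db ha m)) (db ha' m')))
        (by linarith [mul_le_mul_of_nonneg_right j D.d0])
  have t5 : ∀ f, |(if G f then c a a' f * θ wt d x y f p else 0) -
      exp (wt p * d) * (cy a a' f * y f p - cx a a' f * x f p)| ≤ exp (6 * e - h) := fun f => by
    split_ifs with k
    · have n := ((W.g f).1 k).2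
      have := mul (exq (wt p * d)) (sub e1 (mul (Y.cl W C ha ha' k) (Y.row f p n))
        (mul (X.cl W C ha ha' k) (X.row f p n)))
      exact up (le_of_eq_of_le (by rw [θ]; congr 1; ring) this) (by linarith)
    rw [zero_sub, abs_neg]
    by_cases n : N f
    · exact up (mul (exq _) (sub e1 (Y.nn a a' f p ha ha' n) (X.nn a a' f p ha ha' n)))
        (by linarith)
    have m : mu f ≠ mu p := fun j => k ((W.g f).2 ⟨j ▸ p0, n⟩)
    rw [not_not.1 fun j => m (X.gr f p j), not_not.1 fun j => m (Y.gr f p j)]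
    simpa using (exp_pos _).le
  have J : br c (y a) (y a') p - br c (x a) (x a') p = br c (x a) (y a' - x a') p -
      br c (x a') (y a - x a) p + br c (y a - x a) (y a' - x a') p := by
    have := congrFun (br_anti C.anti (x a') (y a - x a)) p
    simp only [br_sub_left, br_sub_right, Pi.sub_apply, Pi.neg_apply] at this ⊢
    linarith
  rw [X.bk, Y.bk, br_M, br_M] at J
  have s1 := sum W.k (t3 ha ha')
  have s2 := sum W.k (t3 ha' ha)
  have s3 := sum W.k t5
  have := sub e1 (up (sub e1 (up (sub e1 s1 s2) (show _ ≤ 6 * e - h by linarith))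
    (up t4 (show _ ≤ 6 * e - h by linarith))) (show _ ≤ e + (6 * e - h) by linarith)) s3
  refine up (le_of_eq_of_le ?_ this) (by linarith)
  congr 1
  have : ∀ m, (if N m then ρ mu wt c x a p m * θ wt d x y a' m -
      ρ mu wt c x a' p m * θ wt d x y a m else 0) =
      (if N m then ρ mu wt c x a p m * θ wt d x y a' m else 0) -
      (if N m then ρ mu wt c x a' p m * θ wt d x y a m else 0) := fun m => by
    split_ifs <;> simp
  simp only [this, sum_sub_distrib, ← mul_sum]
  simp only [vecMul, dotProduct, Pi.sub_apply] at J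
  linear_combination (-exp (wt p * d)) * J

end Pool.Agent.MP_5168f5_an.QA.GPt
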