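import Pool.Agent.MP_4b405e_nt.SK.CPt62b
import Pool.Agent.MP_4b405e_nt.SK.GTow2
import Pool.Agent.MP_4b405e_nt.SK.GPt0

/-! Sparse heights, block C: the frames, the source and the stabiliser in the basis of a class. -/

namespace Pool.Agent.MP_5168f5_an.QA.SC.Wd.P62

open H19 H17S H17F R4 AN Filter Matrix Real Finset
open GA (br mC sC)

variable {ι κ : Type} [Fintype ι] [DecidableEq ι] [Fintype κ] [DecidableEq κ]
  {σ : Kk ι κ} {Y : Wd ι κ} {V e w r d : ℝ} {i i' : ℕ} {ω v y : Y.Ω} {a b b' : κ}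

omit [Fintype κ] [DecidableEq κ] in
theorem g1_iff (o : σ.Ok) (a : κ) : σ.toKc.G1 a ↔ 0 < σ.mu a ∧ ¬σ.Nn a :=
  and_congr_right fun _ =>
    ⟨fun q y => (ne_of_lt y).symm q, fun n => le_antisymm (not_lt.1 n) (o.vt0 a)⟩

/-- The setting of a class. -/
structure Se (σ : Kk ι κ) (Y : Wd ι κ) (V e w r : ℝ) (i : ℕ) (ω : Y.Ω) : Prop where
  o : σ.Ok
  U : σ.Ub V
  h : Y.Ok σ e w
  k : Y.Val σ e r i ω
  eV : V ≤ e
  hi : i ≤ Y.nT
  hw : r + V * Y.D i ≤ w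
  r0 : 0 ≤ r

namespace Se

variable (S : Se σ Y V e w r i ω)
include S

theorem e1 : 1 ≤ e := S.U.one.trans S.eV

theorem ck : (Fintype.card κ : ℝ) ≤ e := S.U.card.trans S.eV

theorem vd (f : κ) : r + σ.vt f * Y.D i ≤ w := by
  linarith [mul_le_mul_of_nonneg_right (S.U.vt f) (Y.D_nonneg i), S.hw]

theorem fe (hy : y ∈ Y.P.S) (c : Y.Cp i y = Y.Cp i ω) (a b : κ) :
    |Y.φ σ i (Y.cp i ω) y a b| ≤ exp (σ.vt a * Y.D i + 3 * e) := by
  have := GPt.mul (GPt.exq (σ.vt a * Y.D i)) (S.k.φ_le S.h hy S.hi c a b)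
  rw [← mul_assoc, ← exp_add, add_neg_cancel, exp_zero, one_mul] at this
  exact GPt.up this (by linarith [S.ck])

theorem wt : GPt.Wt σ.mu σ.Nn σ.toKc.G1 (7 * e) :=
  ⟨S.o.m0, fun _ => S.o.nlive, g1_iff S.o, by linarith [S.e1], by linarith [S.e1, S.ck]⟩

theorem cc : GPt.Ck σ.mu σ.wt σ.Nn (Y.ck σ i (Y.cp i ω)) (7 * e) (r - 6 * e) := by
  have m := GA.sMul ι κ σ.Φ _ _ (S.k.fr S.h)
  have c := (S.k.ca S.h S.o (by linarith [S.e1]) S.r0 S.U.vt S.hw).mono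
    (show _ ≤ 7 * e by linarith [S.ck]) (show r - 6 * e ≤ _ by linarith [S.ck])
  exact ⟨m.anti, m.jac, c.ob, fun a b f p q => by
    simpa using c.nh a b f p q 0 le_rfl (Nat.cast_nonneg _), c.na, c.v1⟩

theorem ph (hy : y ∈ Y.P.S) (c : Y.Cp i y = Y.Cp i ω) : GPt.Ph σ.mu σ.Nn σ.toKc.G1
    (Y.ck σ i (Y.cp i ω)) (Y.φ σ i (Y.cp i ω) y) (Y.X.c y) (7 * e) (r - 6 * e) := by
  have := S.e1
  refine ⟨fun a b n => GPt.up (S.fe hy c a b) (by rw [S.o.vz n]; linarith),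
    fun a b n => S.k.φ_id S.h hy S.o a n, fun a b n => S.k.φ_gr S.h hy n,
    fun a b f => GPt.up ((S.h.alg y hy).ob a b f) (by linarith), fun a b f p ga gb n => GPt.up
      (GPt.mul ((S.h.alg y hy).gr a b f (S.o.nlive n) fun q => ?_) (S.fe hy c f p))
      (by linarith [S.vd f]), S.k.br_φ' S.h hy⟩
  exact (ne_of_lt n).symm (by rw [q.2.2.2, q.2.2.1, ga.2, gb.2])

/-- The source is bounded. -/
theorem th (k1 : Y.Val σ e r i v) (q : Y.cp i v = Y.cp i ω) (hω : ω ∈ Y.P.S) (hv : v ∈ Y.P.S)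
    (hi' : i' ≤ Y.nT) (c' : Y.Cp i' v = Y.Cp i' ω) (d0 : 0 ≤ d) (hd : Y.D i + d ≤ Y.D i')
    (dr : V * d ≤ r) (ha : σ.toKc.G1 a) (b : κ) :
    |GPt.θ σ.wt d (Y.φ σ i (Y.cp i ω) v) (Y.φ σ i (Y.cp i ω) ω) a b| ≤ exp (7 * e) := by
  have e1 := S.e1
  have c : Y.Cp i v = Y.Cp i ω := congrArg Prod.fst q
  have va : σ.vt a = 0 := sub_eq_zero.2 ha.2
  have E : Y.φ σ i (Y.cp i ω) ω a b - Y.φ σ i (Y.cp i ω) v a b =
      ∑ f, (Y.X.R v ω a f - (1 : Matrix κ κ ℝ) a f) * Y.φ σ i (Y.cp i ω) v f b := by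
    rw [S.k.φ_coc S.h hω hv, mul_apply]
    simp [sub_mul, one_apply]
  rw [GPt.θ, E, mul_sum]
  refine GPt.up (GPt.sum S.ck (y := 4 * e) fun f => ?_) (by linarith)
  by_cases z : Y.X.R v ω a f = (1 : Matrix κ κ ℝ) a f
  · rw [z, sub_self, zero_mul, mul_zero]; exact GPt.zer _
  obtain ⟨z1, z2⟩ := ((S.h.fr v hv).2.2 ω hω).2.2.2 a f z
  have n : σ.Nn f := by unfold Kk.Nn; linarith [ha.2]
  have R := GPt.mul (GPt.exq (-(σ.vt f * Y.D i'))) (S.h.rr i' hi' v hv ω hω c' a f)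
  rw [va, sub_zero, ← mul_assoc, ← exp_add, neg_add_cancel, exp_zero, one_mul] at R
  rw [one_apply_ne (fun j : a = f => z2.ne (j ▸ rfl)), sub_zero]
  have t := mul_le_mul_of_nonneg_left hd (S.o.v0 f)
  rcases le_or_gt (σ.wt b) (σ.vt f) with j | j
  · exact GPt.up (GPt.mul (GPt.exq _) (GPt.mul R (S.fe hv c f b)))
      (by linarith [mul_le_mul_of_nonneg_right j d0])
  by_cases nb : σ.Nn b
  · have := GPt.mul (GPt.exq (σ.vt f * Y.D i)) (k1.v2 f b n nb j)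
    rw [q, ← mul_assoc, ← exp_add, add_neg_cancel, exp_zero, one_mul] at this
    exact GPt.up (GPt.mul (GPt.exq _) (GPt.mul R this)) (by
      linarith [mul_le_mul_of_nonneg_right (S.U.wt b) d0, mul_nonneg (S.o.v0 f) d0])
  · rw [S.k.φ_id S.h hv S.o f nb, one_apply_ne (fun j : f = b => nb (j ▸ n)), mul_zero, mul_zero]
    exact GPt.zer _

theorem g1s (hb : σ.ps b) {f : κ} (z : ¬σ.Pz f) : |Y.g1 i (Y.cp i ω) f b| ≤ exp (-r) := by
  have nb := S.o.pn b hb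
  by_cases n : σ.Nn f
  · exact (S.k.v3 b f nb n).2 hb z
  · rw [(S.k.id f b (.inl n)).2, one_apply_ne (fun j : f = b => n (j ▸ nb))]; exact GPt.zer _

theorem gs (nb : σ.Nn b) (hb : ¬σ.ps b) {f : κ} (z : σ.Pz f) :
    |Y.g i (Y.cp i ω) b f| ≤ exp (-r) := by
  by_cases n : σ.Nn f
  · exact (S.k.v3 b f nb n).1 hb z
  · rw [(S.k.id b f (.inr n)).1, one_apply_ne (fun j : b = f => n (j ▸ nb))]; exact GPt.zer _

theorem rs (hy : y ∈ Y.P.S) (c : Y.Cp i y = Y.Cp i ω) (ha : σ.toKc.G1 a) (t : a ≠ σ.τ) (f : κ) :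
    |Y.X.R (Y.v0 i (Y.cp i ω)) y a f * exp (σ.vt f * Y.D i)| ≤ exp e ∧
      (σ.Pz f → |Y.X.R (Y.v0 i (Y.cp i ω)) y a f * exp (σ.vt f * Y.D i)| ≤ exp (-r)) := by
  have := S.h.rr i S.hi _ S.k.mem.1 y hy (S.k.mem.2.trans c.symm) a f
  rw [show σ.vt a = 0 from sub_eq_zero.2 ha.2, sub_zero, mul_comm] at this
  exact ⟨this, fun z => GPt.up (GPt.mul ((S.h.alg _ S.k.mem.1).pat y hy a f
    (fun j => t ((S.o.tz a).1 ⟨j, ha.2⟩)) z) (GPt.exq _)) (by linarith [S.vd f])⟩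

/-- The letters other than the height do not see the new positions. -/
theorem pat (hy : y ∈ Y.P.S) (c : Y.Cp i y = Y.Cp i ω) (ha : σ.toKc.G1 a) (t : a ≠ σ.τ)
    (hb : σ.ps b) : |Y.φ σ i (Y.cp i ω) y a b| ≤ exp (2 * e - r) := by
  rw [Val.φ_apply]
  refine GPt.up (GPt.sum S.ck (y := e - r) fun f => ?_) (by linarith)
  rw [← mul_assoc]
  by_cases z : σ.Pz f
  · exact GPt.up (GPt.mul ((S.rs hy c ha t f).2 z) (S.k.bd f b).2) (by linarith)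
  · exact GPt.up (GPt.mul (S.rs hy c ha t f).1 (S.g1s hb z)) (by linarith)

/-- The letters other than the height keep the old coordinates. -/
theorem stab (hy : y ∈ Y.P.S) (c : Y.Cp i y = Y.Cp i ω) (ha : σ.toKc.G1 a) (t : a ≠ σ.τ)
    (hb : σ.ps b) (nb : σ.Nn b') (hb' : ¬σ.ps b') :
    |GPt.M (Y.ck σ i (Y.cp i ω)) (Y.φ σ i (Y.cp i ω) y) a b b'| ≤ exp (6 * e - r) := by
  have e1 := S.e1
  have ob := (S.h.ca S.o S.k.mem.1 (by linarith) (Y.D_nonneg i) S.U.vt S.r0 S.hw).ob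
  have E : Y.φ σ i (Y.cp i ω) y a ᵥ* Y.g i (Y.cp i ω) =
      fun f => Y.X.R (Y.v0 i (Y.cp i ω)) y a f * exp (σ.vt f * Y.D i) := by
    change (Y.φ σ i (Y.cp i ω) y * Y.g i (Y.cp i ω)) a = _
    rw [φ, A1, Matrix.mul_assoc, Matrix.mul_assoc, mul_eq_one_comm.1 S.k.inv, Matrix.mul_one]
    funext f
    rw [mul_diagonal]
  rw [GPt.M, Val.ck_eq, TL.TLTAdpA.br_mC, E, single_one_vecMul, vecMul, dotProduct]
  refine GPt.up (GPt.sum S.ck (y := e + (e + (3 * e - r))) fun f3 => ?_) (by linarith)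
  rw [br, sum_mul]
  refine GPt.sum S.ck fun f1 => ?_
  rw [sum_mul]
  refine GPt.sum S.ck fun f2 => ?_
  have R := S.rs hy c ha t f1
  have G := (S.k.bd b' f2).1
  have G1 := (S.k.bd f3 b).2
  by_cases z1 : σ.Pz f1
  · exact GPt.up (GPt.mul (GPt.mul (GPt.mul (ob f1 f2 f3) (R.2 z1)) G) G1) (by linarith)
  by_cases z2 : σ.Pz f2
  · exact GPt.up (GPt.mul (GPt.mul (GPt.mul (ob f1 f2 f3) R.1) (S.gs nb hb' z2)) G1) (by linarith)
  by_cases z3 : σ.Pz f3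
  swap
  · exact GPt.up (GPt.mul (GPt.mul (GPt.mul (ob f1 f2 f3) R.1) G) (S.g1s hb z3)) (by linarith)
  have C : |sC (fun a => exp (-(σ.vt a * Y.D i))) (Y.X.c (Y.v0 i (Y.cp i ω))) f1 f2 f3| ≤
      exp (-r) := by
    rw [sC, div_eq_mul_inv, ← exp_neg]
    exact GPt.up (GPt.mul (GPt.mul (GPt.mul ((S.h.alg _ S.k.mem.1).g0 f1 f2 f3 z1 z2 z3)
      (GPt.exq _)) (GPt.exq _)) (GPt.exq _)) (by
        linarith [S.vd f3, mul_nonneg (S.o.v0 f1) (Y.D_nonneg i),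
          mul_nonneg (S.o.v0 f2) (Y.D_nonneg i)])
  exact GPt.up (GPt.mul (GPt.mul (GPt.mul C R.1) G) G1) (by linarith)

end Se

end Pool.Agent.MP_5168f5_an.QA.SC.Wd.P62
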