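import Pool.Agent.MP_4b405e_nt.SK.SpC
import Pool.Agent.MP_4b405e_nt.SK.GTow2
import Pool.Agent.MP_4b405e_nt.SK.CPt62

/-! Sparse heights, block C: the increment to the relative, in the basis of the class. -/

namespace Pool.Agent.MP_5168f5_an.QA.SC.R23

open H19 H17S H17F R4 AN Filter Matrix Real Finset
open GA (Mt IsFr br mB mC sB sC Bx Nr)
open GA.CR (Tow)
open LC (ex_le)
open Cp.Nm5 (mul_le)
open Wd

variable {ι κ : Type} [Fintype ι] [DecidableEq ι] [Fintype κ] [DecidableEq κ]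
  {σ : Kk ι κ} {Y : Wd ι κ} {p : Pm} {K e w r δ V γ : ℝ}

theorem sum_ex {β : Type} [Fintype β] {F : β → ℝ} {x : ℝ} (h : ∀ i, |F i| ≤ exp x) :
    |∑ i, F i| ≤ exp (Fintype.card β + x) := by
  rw [exp_add]; exact GA.CR.sum_le le_rfl (exp_pos x).le h

theorem z_ex (x : ℝ) : |(0 : ℝ)| ≤ exp x := by rw [abs_zero]; exact (exp_pos x).le

theorem add_ex {a b x : ℝ} (h : |a| ≤ exp x) (h' : |b| ≤ exp x) : |a + b| ≤ exp (x + 1) :=
  (abs_add_le a b).trans ((add_le_add h h').trans (GA.CR.two_exp x))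

theorem ex_abs (x : ℝ) : |exp x| ≤ exp x := (abs_exp x).le

omit [DecidableEq κ] in
theorem card_al : (Fintype.card σ.Al : ℝ) ≤ Fintype.card κ :=
  Nat.cast_le.2 (Fintype.card_le_of_injective _ Subtype.val_injective)

omit [Fintype κ] [DecidableEq κ] in
theorem gn {a : κ} (k : σ.toKc.G1 a) : ¬σ.Nn a := fun y => (ne_of_lt y).symm k.2

omit [DecidableEq κ] in
theorem gap (σ : Kk ι κ) : ∃ γ : ℝ, 0 < γ ∧ ∀ a b, σ.wt a < σ.wt b → σ.wt a + γ ≤ σ.wt b := by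
  obtain ⟨y, hy⟩ := Finite.exists_le fun x : κ × κ => (σ.wt x.2 - σ.wt x.1)⁻¹
  refine ⟨(max y 1)⁻¹, by positivity, fun a b q => ?_⟩
  have := inv_le_of_inv_le₀ (sub_pos.2 q) ((hy (a, b)).trans (le_max_left y 1))
  linarith

theorem rd_sub (n : ℕ) (y : ℝ) : |rd n y - y| ≤ exp (-(n * lg)) := AcA.rd_sub n y

theorem lg_half : 1 / 2 ≤ lg := by
  have := Real.log_two_gt_d9
  unfold lg
  linarith

/-- The facts at one pair of a parameter and a point. -/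
structure At (σ : Kk ι κ) (Y : Wd ι κ) (p : Pm) (x : Par) (ω : Y.Ω) : Prop where
  hi : x.1 < Y.nD
  ht : x.2.1 ≤ p.N
  hl : x.2.2.1 ≤ p.L
  hd : x.2.2.2 ≤ p.L
  lW : lv σ p x ≤ Y.W
  hω : ω ∈ Y.P.S
  hE : Y.E x.1 ω

variable (σ Y p) in
/-- The representative. -/
noncomputable abbrev v1 (x : Par) (ω : Y.Ω) : Y.Ω := Y.v1 x.1 (Y.i1 p x) ω

variable (σ Y) in
/-- The frame of `y` in the basis of the class of `ω`. -/
noncomputable abbrev ph (x : Par) (ω y : Y.Ω) : Matrix κ κ ℝ := Y.φ σ x.1 (Y.cp x.1 ω) y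

section Pt

variable (H : Y.Hyp σ p K e w r δ) (o : σ.Ok) (U : σ.Ub V) (hK : 10 * V ^ 2 ≤ K) {x : Par}
  {ω : Y.Ω} (A : At σ Y p x ω)

include A in
theorem At.rep : v1 Y p x ω ∈ Y.P.S ∧ Y.E x.1 (v1 Y p x ω) ∧
    Y.cp x.1 (v1 Y p x ω) = Y.cp x.1 ω ∧ Y.Cp (Y.i1 p x) (v1 Y p x ω) = Y.Cp (Y.i1 p x) ω := by
  have := N2.rep_spec (A := fun y => (Y.cp x.1 y, Y.Cp (Y.i1 p x) y)) A.hω A.hE
  exact ⟨this.1, this.2.1, congrArg Prod.fst this.2.2, congrArg Prod.snd this.2.2⟩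

include H U hK in
theorem nums : Y.Chn p 10 e r ∧ Y.Chn p (10 * V) e r := by
  have v := U.one
  exact ⟨(H.ch10 U hK).2.1, H.chn (by nlinarith only [v, hK]) (by positivity)
    (by nlinarith only [v, hK])⟩

include H U hK A in
theorem At.dp : (dp p x : ℝ) ≤ 2 * p.d0 ∧ (p.d0 : ℝ) ≤ dp p x ∧ Y.i1 p x ≤ Y.nT ∧
    Y.D x.1 + dp p x ≤ Y.D (Y.i1 p x) := by
  obtain ⟨c, -⟩ := nums H U hK
  have m := H.ok.ms.1
  have l : (x.2.2.2 : ℝ) ≤ p.L := Nat.cast_le.2 A.hd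
  have l0 : (0 : ℝ) ≤ x.2.2.2 := Nat.cast_nonneg _
  have d : (Wd.dp p x : ℝ) = p.d0 + x.2.2.2 := by rw [Wd.dp]; push_cast; rfl
  have a : (Wd.dp p x : ℝ) ≤ 2 * p.d0 := by linarith [c.Ld]
  refine ⟨a, by linarith, ?_, ?_⟩
  · have : ⌈(Wd.dp p x : ℝ) / Y.ms⌉₊ ≤ p.kD := Nat.ceil_le.2 ((div_le_iff₀ m).2 (by
      linarith [c.e1, c.eu, c.uL, c.Ld, c.dx, c.xn, c.nk]))
    have := H.num.nT
    have := A.hi
    unfold i1
    omega
  · have := (div_le_iff₀ m).1 (Nat.le_ceil ((Wd.dp p x : ℝ) / Y.ms))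
    unfold i1 D
    push_cast
    linarith

include H o U hK A in
/-- The letters of a frame in the cap. -/
theorem At.row {y : Y.Ω} (hy : y ∈ Y.P.S) (c : Y.Cp x.1 y = Y.Cp x.1 ω) (a f : κ) :
    |ph σ Y x ω y a f| ≤ exp (3 * e + σ.vt a * Y.D x.1) := by
  obtain ⟨k, -⟩ := H.ch10 U hK
  have := mul_le ((H.st.val _ A.hi ω A.hω A.hE).φ_le H.ok hy (H.iT A.hi) c a f)
    (ex_abs (σ.vt a * Y.D x.1))
  rw [mul_right_comm, ← exp_add, neg_add_cancel, exp_zero, one_mul] at this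
  exact this.trans (ex_le (by linarith [U.card, H.num.e1]))

include H o U hK A in
/-- The size of the source. -/
theorem At.th {a b : κ} (n : ¬σ.Nn a) (nb : σ.Nn b) :
    |Y.θ0 σ x.1 (Y.i1 p x) (Wd.dp p x) ω a b| ≤ exp (5 * e) := by
  obtain ⟨c, c'⟩ := nums H U hK
  obtain ⟨r1, r2, r3, r4⟩ := A.rep
  obtain ⟨d1, d2, d3, d4⟩ := A.dp H U hK
  have k := H.st.val _ A.hi ω A.hω A.hE
  have k1 := H.st.val _ A.hi _ r1 r2
  have kV := (H.ch10 U hK).1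
  have e1 := H.num.e1
  have d0 : (0 : ℝ) ≤ Wd.dp p x := Nat.cast_nonneg _
  have : Y.θ0 σ x.1 (Y.i1 p x) (Wd.dp p x) ω a b = ∑ f, exp (σ.wt b * Wd.dp p x) *
      ((Y.X.R (v1 Y p x ω) ω a f - (1 : Matrix κ κ ℝ) a f) * ph σ Y x ω (v1 Y p x ω) f b) := by
    rw [θ0, k.φ_coc H.ok A.hω r1, ← mul_sum]
    congr 1
    simp only [sub_mul, sum_sub_distrib, ← mul_apply, Matrix.one_mul]
  rw [this]
  refine (sum_ex (x := 4 * e) fun f => ?_).trans (ex_le (by linarith [U.card]))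
  by_cases q : Y.X.R (v1 Y p x ω) ω a f = (1 : Matrix κ κ ℝ) a f
  · rw [q, sub_self, zero_mul, mul_zero]; exact z_ex _
  obtain ⟨q1, q2⟩ := ((H.ok.fr _ r1).2.2 ω A.hω).2.2.2 a f q
  have nf : σ.Nn f := show σ.mu f < σ.la f by linarith [o.vt0 a]
  have a1 := H.ok.rr _ d3 _ r1 ω A.hω r4 a f
  rw [o.vz n, sub_zero] at a1
  rw [one_apply_ne fun z : a = f => n (z ▸ nf), sub_zero, show exp (σ.wt b * Wd.dp p x) *
    (Y.X.R (v1 Y p x ω) ω a f * ph σ Y x ω (v1 Y p x ω) f b) =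
    exp (σ.vt f * Y.D (Y.i1 p x)) * Y.X.R (v1 Y p x ω) ω a f * (exp (-(σ.vt f * Y.D x.1)) *
      ph σ Y x ω (v1 Y p x ω) f b) * exp (σ.wt b * Wd.dp p x - σ.vt f * (Y.D (Y.i1 p x) - Y.D x.1)) by
    rw [show σ.wt b * Wd.dp p x = σ.vt f * Y.D (Y.i1 p x) + -(σ.vt f * Y.D x.1) +
      (σ.wt b * Wd.dp p x - σ.vt f * (Y.D (Y.i1 p x) - Y.D x.1)) by ring, exp_add, exp_add]
    ring_nf]
  have v0 := mul_nonneg (o.v0 f) (show 0 ≤ Y.D (Y.i1 p x) - Y.D x.1 by linarith)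
  rcases lt_or_ge (σ.vt f) (σ.wt b) with s | s
  · have a2 := k1.v2 f b nf nb s
    rw [r3] at a2
    have := mul_le_mul (U.wt b) d1 d0 (by linarith [U.one])
    exact (mul_le (mul_le a1 a2) (ex_abs _)).trans (ex_le (by
      linarith [c.e1, c.eu, c.uL, c.Ld, c.dx, c.xn, c.nk, c.kr, c'.dx]))
  · have a2 := k.φ_le H.ok r1 (H.iT A.hi) (congrArg Prod.fst r3) f b
    have := mul_le_mul s (show (Wd.dp p x : ℝ) ≤ Y.D (Y.i1 p x) - Y.D x.1 by linarith) d0 (o.v0 f)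
    exact (mul_le (mul_le a1 a2) (ex_abs _)).trans (ex_le (by linarith [U.card]))

omit [Fintype κ] [DecidableEq κ] in
include o in
theorem ff_bd (x : Par) (b : κ) : 1 ≤ ff σ x b ∧ ff σ x b ≤ exp 1 := by
  have k : (2 : ℝ) ^ nn σ x b = exp (lg * nn σ x b) := by
    rw [lg, mul_comm, exp_nat_mul, exp_log two_pos]
  have := nn_bd o x b
  rw [ff, k, ← exp_sub]
  exact ⟨one_le_exp (by linarith), ex_le (by linarith)⟩

omit [Fintype κ] [DecidableEq κ] in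
include o in
theorem ss_in (x : Par) {b : κ} (h : σ.Nn b) :
    ss σ p x b = ff σ x b * exp (-(σ.mu b * lv σ p x + σ.wt b * Wd.dp p x)) := by
  rw [ss, if_pos h, r0, Kk.rad, if_neg (o.nlive h).ne', if_pos h, ff, div_mul_eq_mul_div, ← exp_add,
    lv, Wd.dp]
  congr 2
  push_cast
  ring

omit [Fintype κ] [DecidableEq κ] in
include o in
theorem ss_ge (x : Par) {b : κ} (h : σ.Nn b) :
    exp (-(σ.mu b * lv σ p x + σ.wt b * Wd.dp p x)) ≤ ss σ p x b := by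
  rw [ss_in o x h]; exact le_mul_of_one_le_left (exp_pos _).le (ff_bd o x b).1

omit [Fintype κ] [DecidableEq κ] in
include o in
theorem ss_out (x : Par) {b : κ} (h : ¬σ.Nn b) : exp (-(σ.mu b * lv σ p x + p.xA)) ≤ ss σ p x b ∧
    (σ.mu b = 0 → ss σ p x b = 1) := by
  rw [ss, if_neg h, r0, Kk.rad]
  refine ⟨?_, fun z => if_pos z⟩
  have l : (l0 σ p x.2.1 : ℝ) ≤ lv σ p x := Nat.cast_le.2 (Nat.le_add_right _ _)
  have := mul_le_mul_of_nonneg_left l (o.m0 b)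
  split_ifs with z
  · rw [z]; exact exp_le_one_iff.2 (by simp)
  · exact ex_le (by linarith)

end Pt

end Pool.Agent.MP_5168f5_an.QA.SC.R23
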