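import Pool.Agent.MP_4b405e_nt.SK.SpC
import Pool.Agent.MP_4b405e_nt.SK.GTow2
import Pool.Agent.MP_4b405e_nt.SK.CLw

/-! Sparse heights, block C: the contexts of the point and of the relative determine each other. -/

namespace Pool.Agent.MP_5168f5_an.QA.SC

namespace M3

open H19 H17S H17F R4 AN Matrix Real Finset
open GA (Mt IsFr Bx ex rnd)
open GA.CR (Tow Kit)

variable {ι κ : Type} [Fintype ι] [DecidableEq ι] [Fintype κ] [DecidableEq κ] {σ : Kk ι κ}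
  {Y : Wd ι κ} {p : Pm} {K e w r δ V : ℝ}

theorem mul_ex {x y a b c : ℝ} (h : |x| ≤ exp a) (h' : |y| ≤ exp b) (k : a + b ≤ c) :
    |x * y| ≤ exp c := by
  rw [abs_mul]
  exact (mul_le_mul h h' (abs_nonneg _) (exp_pos a).le).trans
    ((exp_add a b).symm.trans_le (exp_le_exp.2 k))

/-- The rows of the letters move by the weight of the column inside a subcap. -/
theorem th (o : σ.Ok) (h : Y.Ok σ e w) {i i' : ℕ} {ω y : Y.Ω} (k : Y.Val σ e r i ω)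
    (hω : ω ∈ Y.P.S) (hy : y ∈ Y.P.S) (hi : i ≤ i') (hi' : i' ≤ Y.nT) (c : Y.Cp i' ω = Y.Cp i' y)
    {d : ℝ} (d0 : 0 ≤ d) (d1 : d ≤ Y.D i' - Y.D i) {a f : κ} (na : ¬σ.Nn a) (nf : σ.Nn f)
    (hr : σ.wt f * d ≤ r) : |Y.φ σ i (Y.cp i ω) y a f - Y.φ σ i (Y.cp i ω) ω a f| ≤
      exp (3 * e + 2 * Fintype.card κ - σ.wt f * d) := by
  have e0 : 0 ≤ e := h.ms.1.le.trans h.ms.2
  have c0 : (0 : ℝ) ≤ Fintype.card κ := Nat.cast_nonneg _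
  have e1 : Y.φ σ i (Y.cp i ω) y a f - Y.φ σ i (Y.cp i ω) ω a f =
      ∑ g, (Y.X.R ω y - 1) a g * Y.φ σ i (Y.cp i ω) ω g f := by
    rw [← mul_apply, sub_mul, one_mul, Matrix.sub_apply, ← k.φ_coc h hy hω]
  rw [e1, show 3 * e + 2 * Fintype.card κ - σ.wt f * d =
    Fintype.card κ + (3 * e + Fintype.card κ - σ.wt f * d) by ring, exp_add]
  refine GA.CR.sum_le le_rfl (exp_pos _).le fun g => ?_
  by_cases z : Y.X.R ω y a g = (1 : Matrix κ κ ℝ) a g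
  · rw [Matrix.sub_apply, z, sub_self, zero_mul, abs_zero]; exact (exp_pos _).le
  obtain ⟨m1, m2⟩ := ((h.fr ω hω).2.2 y hy).2.2.2 a g z
  have ng : σ.Nn g := (m1 ▸ o.vt0 a).trans_lt m2
  have t := h.rr i' hi' ω hω y hy c a g
  rw [o.vz na, sub_zero] at t
  have q : (Y.X.R ω y - 1) a g * Y.φ σ i (Y.cp i ω) ω g f =
      exp (-(σ.vt g * (Y.D i' - Y.D i))) * (exp (σ.vt g * Y.D i') * Y.X.R ω y a g) *
        (exp (-(σ.vt g * Y.D i)) * Y.φ σ i (Y.cp i ω) ω g f) := by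
    rw [Matrix.sub_apply, one_apply_ne fun n : a = g => na (n ▸ ng), sub_zero,
      show ∀ A B C x y : ℝ, A * (B * x) * (C * y) = A * B * C * (x * y) from fun _ _ _ _ _ => by ring,
      ← exp_add, ← exp_add, show -(σ.vt g * (Y.D i' - Y.D i)) + σ.vt g * Y.D i' +
        -(σ.vt g * Y.D i) = 0 by ring, exp_zero, one_mul]
  rw [q]
  have v := mul_le_mul_of_nonneg_left d1 (o.v0 g)
  have t1 := mul_ex (abs_exp (-(σ.vt g * (Y.D i' - Y.D i)))).le t le_rfl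
  rcases lt_or_ge (σ.vt g) (σ.wt f) with l | l
  · exact mul_ex t1 (k.v2 g f ng nf l) (by linarith [mul_nonneg (o.v0 g) d0])
  · exact mul_ex t1 (k.φ_le h hω (hi.trans hi') rfl g f)
      (by linarith [mul_le_mul_of_nonneg_right l d0])

omit [Fintype κ] [DecidableEq κ] in
/-- Lower bounds for the resolution of the context. -/
theorem ss_ge (o : σ.Ok) (x : Par) (f : κ) :
    (σ.Nn f → exp (-(σ.mu f * Wd.lv σ p x + σ.wt f * Wd.dp p x)) ≤ Wd.ss σ p x f) ∧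
    (σ.wt f * Wd.dp p x ≤ p.xA → exp (-(σ.mu f * Wd.lv σ p x + p.xA)) ≤ Wd.ss σ p x f) ∧
    (σ.mu f = 0 → Wd.ss σ p x f = 1) := by
  have a : σ.Nn f → exp (-(σ.mu f * Wd.lv σ p x + σ.wt f * Wd.dp p x)) ≤ Wd.ss σ p x f := fun n => by
    rw [← Wd.sd_zero, Wd.sd_eq o, rh_live (o.nlive n).ne', dh_in n, exp_le_exp]
    have := (Wd.nn_bd o x f).2
    simp only [Wd.lv, Wd.dp]
    push_cast
    linarith
  have b : σ.mu f = 0 → Wd.ss σ p x f = 1 := fun z => by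
    rw [← Wd.sd_zero, Wd.sd_eq o, rh_dead z]
  refine ⟨a, fun q => ?_, b⟩
  by_cases n : σ.Nn f
  · exact (exp_le_exp.2 (by linarith)).trans (a n)
  by_cases z : σ.mu f = 0
  · rw [b z, z]; exact exp_le_one_iff.2 (by linarith [Nat.cast_nonneg (α := ℝ) p.xA])
  rw [← Wd.sd_zero, Wd.sd_eq o, rh_live z, dh_out n, exp_le_exp]
  have := mul_nonneg (o.m0 f) (Nat.cast_nonneg (α := ℝ) x.2.2.1)
  simp only [Wd.lv]
  push_cast
  linarith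

open Classical in
/-- The coefficients of the letters. -/
noncomputable def be (σ : Kk ι κ) (l : ℝ) (b : σ.Al → ℝ) (g : κ) : ℝ :=
  if h : σ.toKc.G1 g then exp (-(σ.mu g * l)) * b ⟨g, h⟩ else 0

/-- The main part of the increment. -/
noncomputable def tm (σ : Kk ι κ) (Y : Wd ι κ) (p : Pm) (x : Par) (ω : Y.Ω) (b : σ.Al → ℝ) :
    κ → ℝ := be σ (Wd.lv σ p x) b ᵥ* Y.φ σ x.1 (Y.cp x.1 ω) (Y.v1 x.1 (Y.i1 p x) ω)

theorem tm_congr {x : Par} {ω ω' : Y.Ω} (b : σ.Al → ℝ) (h : Y.cp x.1 ω = Y.cp x.1 ω')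
    (h' : Y.Cp (Y.i1 p x) ω = Y.Cp (Y.i1 p x) ω') : tm σ Y p x ω b = tm σ Y p x ω' b := by
  have e4 : Y.v1 x.1 (Y.i1 p x) ω = Y.v1 x.1 (Y.i1 p x) ω' := N2.rep_congr (Prod.ext h h')
  rw [tm, tm, h, e4]

/-- The increment in the basis of the class. -/
theorem near (o : σ.Ok) (U : σ.Ub V) (hK : 10 * V ^ 2 ≤ K) (H : Y.Hyp σ p K e w r δ) {x : Par}
    {ω v : Y.Ω} (hi : x.1 < Y.nD) (hd : x.2.2.2 < p.L) (hω : ω ∈ Y.P.S) (hv : v ∈ Y.P.S)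
    (hE : Y.E x.1 ω) (lW : Wd.lv σ p x ≤ Y.W) (q : Y.Q (Wd.lv σ p x) ω = Y.Q (Wd.lv σ p x) v) :
    Bx (fun a => exp (-(σ.mu a * Wd.lv σ p x))) (exp (8 * e)) (tm σ Y p x ω (Y.bb σ p x ω v)) ∧
    Bx (Wd.ss σ p x) (exp (8 * e))
      (Y.t ω v ᵥ* Y.φ σ x.1 (Y.cp x.1 ω) ω - tm σ Y p x ω (Y.bb σ p x ω v)) := by
  obtain ⟨k0, c, c'⟩ := H.ch10 U hK
  have h := H.ok
  have k := H.st.val _ hi ω hω hE
  have v1 := U.one
  have ck : 10 * (Fintype.card κ : ℝ) ≤ e := by nlinarith [U.card, H.num.e1]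
  have c0 : (0 : ℝ) ≤ Fintype.card κ := Nat.cast_nonneg _
  have n0 : ∀ m : ℕ, (0 : ℝ) ≤ m := Nat.cast_nonneg
  have iT := H.iT hi
  obtain ⟨y1, -, y2⟩ := N2.rep_spec (P := Y.P) (A := fun y => (Y.cp x.1 y, Y.Cp (Y.i1 p x) y)) hω hE
  have y3 : Y.Cp x.1 (Y.v1 x.1 (Y.i1 p x) ω) = Y.Cp x.1 ω := congrArg (·.1.1) y2
  have y4 : Y.Cp (Y.i1 p x) (Y.v1 x.1 (Y.i1 p x) ω) = Y.Cp (Y.i1 p x) ω := congrArg (·.2) y2
  change Y.v1 x.1 (Y.i1 p x) ω ∈ _ at y1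
  have m0 := h.ms.1
  have dp1 : (Wd.dp p x : ℝ) ≤ 2 * p.d0 := by
    have : (x.2.2.2 : ℝ) ≤ p.L := Nat.cast_le.2 hd.le
    simp only [Wd.dp]; push_cast; linarith [c.Ld, n0 p.L]
  have wd : ∀ f, σ.wt f * Wd.dp p x ≤ p.xA := fun f => by
    have a := mul_le_mul (U.wt f) dp1 (n0 _) (by linarith)
    nlinarith [c'.dx, mul_le_mul_of_nonneg_right (show 2 * V ≤ 10 * V ^ 2 by nlinarith) (n0 p.d0)]
  have xr : (p.xA : ℝ) ≤ r := by linarith [c.xn, c.nk, c.kr, n0 p.xA]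
  have i1 : Y.i1 p x ≤ Y.nT := by
    have a : ⌈(Wd.dp p x : ℝ) / Y.ms⌉₊ ≤ p.kD := Nat.ceil_le.2 (by
      rw [div_le_iff₀ m0]; linarith [c.dx, c.xn, c.nk, n0 p.d0])
    have := H.num.nT
    unfold Wd.i1; omega
  have i2 : (Wd.dp p x : ℝ) ≤ Y.D (Y.i1 p x) - Y.D x.1 := by
    have := (div_le_iff₀ m0).1 (Nat.le_ceil ((Wd.dp p x : ℝ) / Y.ms))
    simp only [Wd.D, Wd.i1]; push_cast; linarith
  obtain ⟨l, el⟩ : ∃ l : ℝ, l = Wd.lv σ p x := ⟨_, rfl⟩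
  have t := h.inc _ lW ω hω v hv q
  rw [← el] at t
  have g1 : ∀ g, σ.toKc.G1 g → ¬σ.Nn g := fun g a n => n.ne' a.2
  have ph : ∀ y ∈ Y.P.S, Y.Cp x.1 y = Y.Cp x.1 ω → ∀ g f,
      |Y.φ σ x.1 (Y.cp x.1 ω) y g f| ≤ exp (σ.vt g * Y.D x.1 + (Fintype.card κ + 2 * e)) :=
    fun y a b g f => by
      have := mul_ex (abs_exp (σ.vt g * Y.D x.1)).le (k.φ_le h a iT b g f) le_rfl
      rwa [← mul_assoc, ← exp_add, add_neg_cancel, exp_zero, one_mul, ← two_mul] at this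
  have b1 : ∀ g, σ.toKc.G1 g →
      |Y.t ω v g - be σ l (Y.bb σ p x ω v) g| ≤ exp (-(σ.mu g * l + p.xA)) := fun g a => by
    have a1 := Wd.rd_near p.nb (exp (σ.mu g * l) * Y.t ω v g)
    have a2 : ((2 : ℝ) ^ p.nb)⁻¹ ≤ exp (-(p.nb / 2)) := by
      rw [exp_neg]; exact inv_anti₀ (exp_pos _) (exp_le_two_pow _)
    have a3 := mul_ex (abs_exp (-(σ.mu g * l))).le (a1.trans a2)
      (c := -(σ.mu g * l + p.xA)) (by linarith [c.xn, n0 p.xA])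
    rw [mul_sub, ← mul_assoc, ← exp_add, neg_add_cancel, exp_zero, one_mul, abs_sub_comm] at a3
    rw [be, dif_pos a, Wd.bb, ← el]
    exact a3
  have b2 : ∀ g, |be σ l (Y.bb σ p x ω v) g| ≤ exp (e + 1 - σ.mu g * l) := fun g => by
    by_cases a : σ.toKc.G1 g
    · have a1 := abs_le.1 ((b1 g a).trans (exp_le_exp.2
        (show _ ≤ e - σ.mu g * l by linarith [n0 p.xA])))
      have a2 := abs_le.1 (t g).1
      have a3 := GA.CR.two_exp (e - σ.mu g * l)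
      rw [show e + 1 - σ.mu g * l = e - σ.mu g * l + 1 by ring, abs_le]
      change _ ≤ Y.t ω v g ∧ Y.t ω v g ≤ _ at a2
      constructor <;> linarith [a1.1, a1.2, a2.1, a2.2]
    · rw [be, dif_neg a, abs_zero]; exact (exp_pos _).le
  have b3 : ∀ g, be σ l (Y.bb σ p x ω v) g ≠ 0 → σ.toKc.G1 g := fun g a =>
    by_contra fun n => a (dif_neg n)
  rw [tm, ← el]
  refine ⟨fun f => ?_, fun f => ?_⟩
  · rw [← exp_add, show 8 * e + -(σ.mu f * l) =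
      Fintype.card κ + (8 * e - Fintype.card κ - σ.mu f * l) by ring, exp_add]
    refine GA.CR.sum_le le_rfl (exp_pos _).le fun g => ?_
    by_cases z : be σ l (Y.bb σ p x ω v) g *
      Y.φ σ x.1 (Y.cp x.1 ω) (Y.v1 x.1 (Y.i1 p x) ω) g f = 0
    · rw [z, abs_zero]; exact (exp_pos _).le
    refine mul_ex (b2 g) (ph _ y1 y3 g f) ?_
    rw [o.vz (g1 g (b3 g (left_ne_zero_of_mul z))), k.φ_gr h y1 (right_ne_zero_of_mul z)]
    linarith [c.e1]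
  obtain ⟨s1, s2, s3⟩ := ss_ge (p := p) o x f
  rw [← el] at s1 s2
  have s0 := (exp_pos _).le.trans (s2 (wd f))
  have e1 : (Y.t ω v ᵥ* Y.φ σ x.1 (Y.cp x.1 ω) ω - be σ l (Y.bb σ p x ω v) ᵥ*
      Y.φ σ x.1 (Y.cp x.1 ω) (Y.v1 x.1 (Y.i1 p x) ω)) f =
      ∑ g, ((Y.t ω v g - be σ l (Y.bb σ p x ω v) g) * Y.φ σ x.1 (Y.cp x.1 ω) ω g f -
        be σ l (Y.bb σ p x ω v) g * (Y.φ σ x.1 (Y.cp x.1 ω) (Y.v1 x.1 (Y.i1 p x) ω) g f -
          Y.φ σ x.1 (Y.cp x.1 ω) ω g f)) := by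
    simp only [Pi.sub_apply, vecMul, dotProduct, ← sum_sub_distrib]
    exact sum_congr rfl fun g _ => by ring
  have up : ∀ {y a b : ℝ}, |y| ≤ exp a → exp b ≤ Wd.ss σ p x f → a ≤ 5 * e + b →
      |y| ≤ exp (5 * e) * Wd.ss σ p x f := fun h1 h2 h3 =>
    h1.trans ((exp_le_exp.2 h3).trans ((exp_add _ _).trans_le
      (mul_le_mul_of_nonneg_left h2 (exp_pos _).le)))
  have z0 : |(0 : ℝ)| ≤ exp (5 * e) * Wd.ss σ p x f := by rw [abs_zero]; positivity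
  rw [e1]
  refine (GA.CR.sum_le (X := exp (5 * e + 1) * Wd.ss σ p x f) le_rfl (by positivity)
    fun g => ?_).trans (by
      rw [← mul_assoc, ← exp_add]
      exact mul_le_mul_of_nonneg_right (exp_le_exp.2 (by linarith [c.e1])) s0)
  refine (abs_sub _ _).trans ((add_le_add ?_ ?_).trans ((add_mul _ _ _).symm.trans_le
    (mul_le_mul_of_nonneg_right (GA.CR.two_exp (5 * e)) s0)))
  · by_cases z : Y.φ σ x.1 (Y.cp x.1 ω) ω g f = 0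
    · rw [z, mul_zero]; exact z0
    have m := k.φ_gr h hω z
    by_cases a : σ.toKc.G1 g
    · refine up (mul_ex (b1 g a) (ph _ hω rfl g f) le_rfl) (s2 (wd f)) ?_
      rw [o.vz (g1 g a), m]
      linarith
    rw [be, dif_neg a, sub_zero]
    by_cases n : σ.la g = σ.mu g
    · have d : σ.mu g = 0 := (o.m0 g).eq_or_lt.elim Eq.symm fun z => absurd ⟨z, n⟩ a
      refine up (b := 0) (mul_ex (t g).1 (ph _ hω rfl g f) le_rfl)
        (by rw [s3 (m ▸ d), exp_zero]) ?_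
      rw [Kk.vt, n, d]
      linarith
    · refine up (mul_ex ((t g).2 n) (ph _ hω rfl g f) le_rfl) (s2 (wd f)) ?_
      have a1 := H.rw' U k0 iT
      have a2 := mul_le_mul_of_nonneg_right (U.vt g) (Y.D_nonneg x.1)
      rw [m]
      linarith
  · by_cases z : be σ l (Y.bb σ p x ω v) g = 0
    · rw [z, zero_mul]; exact z0
    by_cases n : σ.Nn f
    swap
    · rw [k.φ_id h y1 o g n, k.φ_id h hω o g n, sub_self, mul_zero]; exact z0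
    by_cases m : σ.mu g = σ.mu f
    swap
    · rw [by_contra fun z => m (k.φ_gr h y1 z), by_contra fun z => m (k.φ_gr h hω z), sub_self,
        mul_zero]
      exact z0
    refine up (mul_ex (b2 g) (th o h k hω y1 (Nat.le_add_right _ _) i1 y4.symm (n0 _) i2
      (g1 g (b3 g z)) n ((wd f).trans xr)) le_rfl) (s1 n) ?_
    rw [m]
    linarith [c.e1]

theorem det_up {Ω α β γ : Type} {P : FP Ω} {F : Ω → α} {F' : Ω → γ} {G : Ω → β} {B B' : ℝ}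
    (h : Det P F' G B) (g : Ω → γ → α) (f : ∀ a ∈ P.S, ∀ b ∈ P.S, G b = G a → F b = g a (F' b))
    (k : B ≤ B') : Det P F G B' := fun a ha => by
  classical
  obtain ⟨T, t1, t2⟩ := h a ha
  exact ⟨T.image (g a), ((Nat.cast_le.2 card_image_le).trans t1).trans k, fun b hb q =>
    mem_image.2 ⟨_, t2 b hb q, (f a ha b hb q).symm⟩⟩

theorem rowM : RowM := by
  intro ι κ _ _ _ _ σ o
  classical
  obtain ⟨C, kit⟩ := GA.CR.kit σ.Φ.N (Fintype.card κ)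
  obtain ⟨V, U⟩ := o.ub
  obtain ⟨K, K1, K2, K3⟩ : ∃ K : ℝ, 10 * V ^ 2 ≤ K ∧ (σ.C : ℝ) ≤ K ∧
      (2 + 12 * Fintype.card κ) * C ^ 3 * 8 ≤ K :=
    ⟨max _ (max _ _), le_max_left _ _, le_max_of_le_right (le_max_left _ _),
      le_max_of_le_right (le_max_right _ _)⟩
  have v1 := U.one
  refine ⟨K, by nlinarith, fun Y p e w r δ H => ?_⟩
  obtain ⟨-, c, -⟩ := H.ch10 U K1
  have u1 : 1 ≤ 8 * e := by linarith [c.e1]
  have kb : exp ((2 + 12 * Fintype.card κ) * C ^ 3 * (8 * e)) ≤ exp (K * e) := exp_le_exp.2 (by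
    rw [← mul_assoc]; exact mul_le_mul_of_nonneg_right K3 (by linarith))
  have cl : ∀ z ∈ (Y.P2 σ p).S, Y.cp z.1.1 z.2.2 = Y.cp z.1.1 z.2.1.2 := fun z hz => by
    obtain ⟨⟨a, -⟩, -, b, b', -, -, q, -⟩ := H.mem o K2 hz
    exact Prod.ext (H.ok.fC _ (H.iT a) _ b' _ b q) (H.st.fs _ _ b' _ b q)
  have a1 : ∀ z ∈ (Y.P2 σ p).S, IsFr σ.Φ (Y.Bk σ z.1.1 (Y.cp z.1.1 z.2.1.2))
      (Y.ck σ z.1.1 (Y.cp z.1.1 z.2.1.2)) ∧ Tow (Y.ck σ z.1.1 (Y.cp z.1.1 z.2.1.2))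
        (fun a => exp (-(σ.mu a * Wd.lv σ p z.1))) (Wd.r0 σ p z.1.2.1) (Wd.ss σ p z.1) (8 * e) :=
    fun z hz => by
      obtain ⟨⟨a, t, l, d⟩, -, b, -, E, -⟩ := H.mem o K2 hz
      exact ⟨H.frk a b E, H.tows o U K1 a b E t.le (by omega) (by omega)⟩
  obtain ⟨t, et⟩ : ∃ t : (Y.bd σ p).Ω → κ → ℝ, t = fun z =>
    tm σ Y p z.1 z.2.1.2 (Y.bb σ p z.1 z.2.1.2 z.2.2) := ⟨_, rfl⟩
  obtain ⟨s, es⟩ : ∃ s : (Y.bd σ p).Ω → κ → ℝ, s = fun z => Y.t z.2.1.2 z.2.2 ᵥ*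
    Y.φ σ z.1.1 (Y.cp z.1.1 z.2.1.2) z.2.1.2 - t z := ⟨_, rfl⟩
  have a2 : ∀ z ∈ (Y.P2 σ p).S, (IsUnit (Y.X.j z.2.1.2) ∧ IsUnit (Y.X.j z.2.2)) ∧
      Bx (fun a => exp (-(σ.mu a * Wd.lv σ p z.1))) (exp (8 * e)) (t z) ∧
      Bx (Wd.ss σ p z.1) (exp (8 * e)) (s z) ∧ Y.X.j z.2.2 = Y.X.j z.2.1.2 *
        ex (Y.Bk σ z.1.1 (Y.cp z.1.1 z.2.1.2)) (t z + s z) := fun z hz => by
    obtain ⟨⟨a, ht, l, d⟩, ⟨j, -⟩, b, b', E, -, -, q⟩ := H.mem o K2 hz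
    have lW := (H.lvW (by nlinarith) K2 ht.le l.le).trans H.ok.w1
    have n := near o U K1 H a d b b' E (by omega) (q _ j).symm
    rw [es, et]
    exact ⟨⟨(H.ok.fr _ b).1, (H.ok.fr _ b').1⟩, n.1, n.2, by
      rw [add_sub_cancel]; exact (H.st.val _ a _ b E).inc_φ H.ok b b'⟩
  have ft : ∀ a b : (Y.bd σ p).Ω, a.1 = b.1 → Y.cp a.1.1 a.2.1.2 = Y.cp b.1.1 b.2.1.2 →
      (Y.bd σ p).T a = (Y.bd σ p).T b → t a = t b := by
    rintro ⟨x, ⟨j, ω⟩, v⟩ ⟨x', ⟨j', ω'⟩, v'⟩ (rfl : x = x') q q'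
    have q2 : Y.bb σ p x ω v = Y.bb σ p x ω' v' := congrArg (·.2.1) q'
    rw [et]
    exact (congrArg _ q2).trans (tm_congr _ q (congrArg (·.1) q'))
  constructor
  · refine det_up (GA.CR.det_mate (x := fun z : (Y.bd σ p).Ω => Y.X.j z.2.1.2) kit le_rfl u1
      (fun z hz => ⟨(a1 z hz).1, (a1 z hz).2, (a2 z hz).1.1⟩) (fun a _ b _ q => ?_)
      fun z hz => (a2 z hz).2) (fun a y => (a.1, Y.cp a.1.1 a.2.1.2, y)) (fun a _ b hb q => ?_) kb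
    · have q1 : a.1 = b.1 := congrArg (·.1.1) q
      have q2 : Y.cp a.1.1 a.2.1.2 = Y.cp b.1.1 b.2.1.2 := congrArg (·.1.2.1) q
      simp only [Prod.mk.injEq]
      exact ⟨by rw [q2, q1], by rw [q1], by rw [q1], ft a b q1 q2 (congrArg (·.2) q),
        congrArg (·.1.2.2) q⟩
    · refine Prod.ext (congrArg (·.1.1) q) (Prod.ext ((cl b hb).trans (congrArg (·.1.2.1) q)) ?_)
      exact congrArg (fun y => rnd (Y.Bk σ b.1.1 y) _ _ (Y.X.j b.2.2)) (cl b hb)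
  · refine det_up (GA.CR.det_mate (x := fun z : (Y.bd σ p).Ω => Y.X.j z.2.2)
      (y := fun z => Y.X.j z.2.1.2) (t := fun z => -t z) (w := fun z => -s z) kit le_rfl u1
      (fun z hz => ⟨(a1 z hz).1, (a1 z hz).2, (a2 z hz).1.2⟩) (fun a ha b hb q => ?_)
      fun z hz => ⟨GA.GANrA.neg (a2 z hz).2.1, GA.GANrA.neg (a2 z hz).2.2.1, ?_⟩)
      (fun a y => (a.1, Y.cp a.1.1 a.2.1.2, y)) (fun a ha b hb q => ?_) kb
    · have q1 : a.1 = b.1 := congrArg (·.1.1) q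
      have q2 : Y.cp a.1.1 a.2.1.2 = Y.cp b.1.1 b.2.1.2 :=
        (cl a ha).symm.trans ((congrArg (·.1.2.1) q).trans (cl b hb))
      have q3 : rnd (Y.Bk σ a.1.1 (Y.cp a.1.1 a.2.2)) _ _ (Y.X.j a.2.2) =
        rnd (Y.Bk σ b.1.1 (Y.cp b.1.1 b.2.2)) _ _ (Y.X.j b.2.2) := congrArg (·.1.2.2) q
      rw [cl a ha, cl b hb] at q3
      simp only [Prod.mk.injEq]
      exact ⟨by rw [q2, q1], by rw [q1], by rw [q1],
        congrArg Neg.neg (ft a b q1 q2 (congrArg (·.2) q)), q3⟩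
    · rw [(a2 z hz).2.2.2, ← neg_add, mul_assoc, ((GA.sMul _ _ _ _ _ (a1 z hz).1).neg _).2, mul_one]
    · exact Prod.ext (congrArg (·.1.1) q) (Prod.ext
        ((cl b hb).symm.trans ((congrArg (·.1.2.1) q).trans (cl a ha))) rfl)

end M3

end Pool.Agent.MP_5168f5_an.QA.SC
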