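import Pool.Agent.MP_4b405e_nt.SK.SpC
import Pool.Agent.MP_4b405e_nt.SK.GTow1
import Pool.Agent.MP_4b405e_nt.SK.GNr0

/-! Sparse heights, block C: deep cells determine the context and the block. -/

namespace Pool.Agent.MP_5168f5_an.QA.SC

open H19 H17S H17F R4 AN Filter Matrix Real Finset
open GA (Mt IsFr br mB mC sB sC cell Bx Idl ex rnd vec)
open GA.CR

namespace D27

section Lists

variable {Ω α α' β β' : Type} {P : FP Ω} {E : Ω → Prop} {F : Ω → α} {F' : Ω → α'} {G : Ω → β}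
  {G' : Ω → β'} {v v' : ℝ}

theorem dt_mono (h : Dt P E F G v) (k : v ≤ v') : Dt P E F G v' := fun y =>
  let ⟨S, a, b⟩ := h y
  ⟨S, a.trans (exp_le_exp.2 k), b⟩

theorem dt_map (h : Dt P E F G v) (k : ∀ a ∈ P.S, ∀ b ∈ P.S, E a → E b → G a = G b → F a = F b →
    F' a = F' b) : Dt P E F' G v := fun y => by
  classical
  obtain ⟨S, a, b⟩ := h y
  have := N2.ne P
  refine ⟨S.image fun s => F' (Classical.epsilon fun ω => ω ∈ P.S ∧ E ω ∧ G ω = y ∧ F ω = s),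
    (Nat.cast_le.2 card_image_le).trans a, fun ω o e g => mem_image.2 ⟨_, b ω o e g, ?_⟩⟩
  obtain ⟨c1, c2, c3, c4⟩ := Classical.epsilon_spec
    (p := fun w => w ∈ P.S ∧ E w ∧ G w = y ∧ F w = F ω) ⟨ω, o, e, g, rfl⟩
  exact k _ c1 _ o c2 e (c3.trans g.symm) c4

theorem dt_pair (h : Dt P E F G v) (h' : Dt P E F' G v') :
    Dt P E (fun ω => (F ω, F' ω)) G (v + v') := fun y => by
  obtain ⟨S, a, b⟩ := h y
  obtain ⟨S', a', b'⟩ := h' y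
  refine ⟨S ×ˢ S', ?_, fun ω o e g => mem_product.2 ⟨b ω o e g, b' ω o e g⟩⟩
  rw [card_product, Nat.cast_mul, exp_add]
  exact mul_le_mul a a' (Nat.cast_nonneg _) (exp_pos _).le

theorem dt_fine (h : Dt P E F G v) (f : β' → β) (k : ∀ ω, G ω = f (G' ω)) : Dt P E F G' v :=
  fun y =>
    let ⟨S, a, b⟩ := h (f y)
    ⟨S, a, fun ω o e g => b ω o e (by rw [k, g])⟩

end Lists

variable {ι κ : Type} [Fintype ι] [DecidableEq ι] [Fintype κ] [DecidableEq κ]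

omit [Fintype κ] [DecidableEq κ] in
/-- A tower from the abelian estimate. -/
theorem tow2 {c : κ → κ → κ → ℝ} {r r' : κ → ℝ} {u : ℝ} (p : ∀ a, 0 < r' a) (l : ∀ a, r' a ≤ r a)
    (ab : ∀ a b e, |c a b e| * r a * r b ≤ exp u * r' e) : Tow c r r r' u :=
  have i : Idl c r r (exp u) := fun a b f =>
    (ab a b f).trans (mul_le_mul_of_nonneg_left (l f) (exp_pos u).le)
  ⟨p, l, fun _ => le_rfl, i, i, fun a b f => (mul_le_mul_of_nonneg_left (l b)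
    (mul_nonneg (abs_nonneg _) ((p a).trans_le (l a)).le)).trans (ab a b f), ab⟩

variable (σ : Kk ι κ) (p : Pm)

/-- The extra depth of the last digit. -/
noncomputable def η (x : Par) (b : κ) : ℝ := lg * (Wd.nn σ x b + p.u)

/-- The resolution of the block. -/
noncomputable def r1 (x : Par) : κ → ℝ :=
  rh σ.mu (Wd.l0 σ p x.2.1) (dh σ.Nn p.xA fun b => σ.wt b * p.d0 + η σ p x b)

variable {σ p}

omit [Fintype κ] [DecidableEq κ] in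
theorem exp_lg (n : ℕ) : exp (lg * n) = 2 ^ n := by
  rw [mul_comm, exp_nat_mul, lg, exp_log two_pos]

omit [Fintype κ] [DecidableEq κ] in
theorem ss_in (o : σ.Ok) (x : Par) {b : κ} (n : σ.Nn b) :
    Wd.ss σ p x b = r1 σ p x b * 2 ^ p.u := by
  rw [Wd.ss, if_pos n, Wd.r0, GN.rad_nn o _ _ _ _ n, r1, rh_live (GN.nn_mu o n), dh_in n, η,
    ← exp_lg, ← exp_lg, ← exp_sub, ← exp_add]
  congr 1; ring

omit [Fintype κ] [DecidableEq κ] in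
theorem ss_out (x : Par) {b : κ} (n : ¬σ.Nn b) : Wd.ss σ p x b = r1 σ p x b := by
  rw [Wd.ss, if_neg n, Wd.r0, Kk.rad_eq, r1]
  unfold rh
  rw [dh_out n, dh_out n]

omit [DecidableEq κ] in
/-- The rounding at the resolution of the block determines the context and the block. -/
theorem det (o : σ.Ok) (x : Par) {B : κ → Mt ι} {g g' : Mt ι}
    (h : rnd B (Wd.r0 σ p x.2.1) (r1 σ p x) g = rnd B (Wd.r0 σ p x.2.1) (r1 σ p x) g') :
    rnd B (Wd.r0 σ p x.2.1) (Wd.ss σ p x) g = rnd B (Wd.r0 σ p x.2.1) (Wd.ss σ p x) g' ∧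
      zb p.u (Subtype.val : {b // σ.Nn b} → κ) B (Wd.r0 σ p x.2.1) (Wd.ss σ p x) g =
        zb p.u Subtype.val B (Wd.r0 σ p x.2.1) (Wd.ss σ p x) g' := by
  have h1 : cell B (Wd.r0 σ p x.2.1) g = cell B (Wd.r0 σ p x.2.1) g' := congrArg Prod.fst h
  have h2 : ∀ b, ⌊nu B (Wd.r0 σ p x.2.1) g b / r1 σ p x b⌋ =
      ⌊nu B (Wd.r0 σ p x.2.1) g' b / r1 σ p x b⌋ := congrFun (congrArg Prod.snd h)
  have h3 : ∀ b, σ.Nn b → fl1 p.u (nu B (Wd.r0 σ p x.2.1) g b / Wd.ss σ p x b) =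
      fl1 p.u (nu B (Wd.r0 σ p x.2.1) g' b / Wd.ss σ p x b) := fun b n => by
    have q : ∀ y : ℝ, 2 ^ p.u * (y / Wd.ss σ p x b) = y / r1 σ p x b := fun y => by
      rw [ss_in o x n]; field_simp
    rw [fl1, fl1, q, q, h2]
  have h4 : ∀ b, ⌊nu B (Wd.r0 σ p x.2.1) g b / Wd.ss σ p x b⌋ =
      ⌊nu B (Wd.r0 σ p x.2.1) g' b / Wd.ss σ p x b⌋ := fun b => by
    by_cases n : σ.Nn b
    · simpa [fl1] using fl1_eq_of_le (Nat.zero_le _) (h3 b n)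
    · rw [ss_out x n, h2]
  refine ⟨Prod.ext h1 (funext h4), funext fun q => ?_⟩
  cases q with
  | none => rfl
  | some q => simp only [zb, Option.elim_some, dz, h3 q.1 q.2, h4 q.1]

/-- The numbers of the rows. -/
structure Nm (σ : Kk ι κ) (Y : Wd ι κ) (p : Pm) (e w r : ℝ) (x : Par) : Prop where
  e1 : 1 ≤ e
  ke : (Fintype.card κ : ℝ) ≤ e
  iT : x.1 + p.kD ≤ Y.nT
  lW : (Wd.l0 σ p x.2.1 : ℝ) ≤ Y.W
  a3 : ∀ a f, η σ p x f ≤ σ.wt a * p.d0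
  a4 : ∀ f, σ.wt f * p.d0 + η σ p x f ≤ p.xA
  xr : p.xA + 6 * e ≤ r
  rw : ∃ V, (∀ a, σ.vt a ≤ V) ∧ r + V * Y.D Y.nT ≤ w
  dp : ∀ a, σ.Nn a → p.xA ≤ σ.vt a * (p.kD * Y.ms)
  w1 : ∀ a, σ.mu a ≠ 0 → p.xA + σ.vt a * Y.D Y.nT ≤ σ.mu a * (Y.W1 - Wd.l0 σ p x.2.1)

variable {Y : Wd ι κ} {e w r C : ℝ} {x : Par}

omit [Fintype κ] [DecidableEq κ] in
theorem η0 (x : Par) (b : κ) : 0 ≤ η σ p x b := mul_nonneg lg_pos.le (by positivity)

omit [DecidableEq κ] in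
theorem Nm.le_r1 (N : Nm σ Y p e w r x) {a b : κ} (m : σ.mu a = σ.mu b)
    (z : σ.mu a ≠ 0) : exp (-(σ.mu a * Wd.l0 σ p x.2.1 + p.xA)) ≤ r1 σ p x b := by
  rw [r1, rh_live (m ▸ z), m, exp_le_exp]
  by_cases n : σ.Nn b
  · rw [dh_in n]; linarith [N.a4 b]
  · rw [dh_out n]

/-- The tower of the chart and of the resolution of the block. -/
theorem Nm.tow (o : σ.Ok) (N : Nm σ Y p e w r x) (h : Y.Ok σ e w) {ω : Y.Ω}
    (V : Y.Val σ e r x.1 ω) :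
    Tow (Y.ck σ x.1 (Y.cp x.1 ω)) (Wd.r0 σ p x.2.1) (Wd.r0 σ p x.2.1) (r1 σ p x) (7 * e) := by
  obtain ⟨W, v1, v2⟩ := N.rw
  have e0 := h.e0
  have x0 : (0 : ℝ) ≤ p.xA := Nat.cast_nonneg _
  have W0 : 0 ≤ W := (o.v0 σ.τ).trans (v1 _)
  have H := V.ca h o e0 (by linarith [N.xr]) v1 (by
    linarith [mul_le_mul_of_nonneg_left (Y.D_mono (show x.1 ≤ Y.nT by linarith [N.iT])) W0])
  have b0 : ∀ a, 0 ≤ σ.wt a * p.d0 := fun a => mul_nonneg (o.w0 a).le (Nat.cast_nonneg _)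
  have b1 : ∀ a, 0 ≤ dh σ.Nn p.xA (fun b => σ.wt b * p.d0 + 0) a := fun a => by
    by_cases n : σ.Nn a
    · rw [dh_in n]; linarith [b0 a]
    · rwa [dh_out n]
  have b3 : ∀ a, dh σ.Nn p.xA (fun b => σ.wt b * p.d0 + η σ p x b) a ≤ p.xA := fun a => by
    by_cases n : σ.Nn a
    · rw [dh_in n]; exact N.a4 a
    · rw [dh_out n]
  rw [Wd.r0, Kk.rad_eq]
  refine (tow2 (u := e + 3 * (Fintype.card κ + e) + 0) (rh_pos _ _ _) (fun a => rh_mono fun _ => ?_)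
    (H.idl3 o.m0 (by positivity) le_rfl (Nat.cast_nonneg _) N.lW (fun a _ => b1 a)
      (fun a _ => b1 a) (fun a _ => (b3 a).trans (by linarith [N.xr, N.ke]))
      fun a b f _ _ _ n _ q => ?_)).up (by linarith [N.ke])
  · by_cases n : σ.Nn a
    · rw [dh_in n, dh_in n]; linarith [η0 (σ := σ) (p := p) x a]
    · rw [dh_out n, dh_out n]
  · by_cases k : σ.Nn b
    · by_cases k' : σ.Nn a
      · rw [dh_in k, dh_in k', dh_in (n.2 (Or.inr k))]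
        linarith [N.a3 a f, mul_le_mul_of_nonneg_right (q k) (Nat.cast_nonneg (α := ℝ) p.d0)]
      · rw [dh_out k']
        linarith [b1 b, b3 f]
    · rw [dh_out k]
      linarith [b1 a, b3 f]

/-- A label that locates the point determines the context and the block. -/
theorem Nm.core (o : σ.Ok) (N : Nm σ Y p e w r x) (h : Y.Ok σ e w) (s : Y.St σ e r)
    (hi : x.1 < Y.nD) (K : GA.CR.Kit σ.Φ.N (Fintype.card κ) C) {β : Type} {G : Y.Ω → β} {U : ℝ}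
    (hU : 7 * e ≤ U) (hG : ∀ a ∈ Y.P.S, ∀ b ∈ Y.P.S, Y.E x.1 a → G a = G b →
      Y.cp x.1 a = Y.cp x.1 b ∧
        GA.Nr (Y.Bk σ x.1 (Y.cp x.1 a)) (r1 σ p x) (exp U) (Y.X.j a) (Y.X.j b)) :
    Dt Y.P (Y.E x.1) (fun ω => (Y.K σ p x ω, Y.Z σ p x ω)) G
      ((2 + 12 * (Fintype.card κ : ℕ)) * C ^ 3 * U) := by
  refine dt_map (F := fun ω => rnd (Y.Bk σ x.1 (Y.cp x.1 ω)) (Wd.r0 σ p x.2.1) (r1 σ p x)
    (Y.X.j ω)) (fun y => ?_) fun a ha b hb ea _ g f => ?_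
  · by_cases z : ∃ a ∈ Y.P.S, Y.E x.1 a ∧ G a = y
    swap
    · exact ⟨∅, by simpa using (exp_pos _).le, fun ω a b c => absurd ⟨ω, a, b, c⟩ z⟩
    obtain ⟨a, ha, ea, rfl⟩ := z
    have V := s.val _ hi a ha ea
    have T := (N.tow o h V).up hU
    obtain ⟨S, s1, s2⟩ := mateK K le_rfl (V.fr h) (by linarith [N.e1]) T
      (rnd (Y.Bk σ x.1 (Y.cp x.1 a)) (Wd.r0 σ p x.2.1) (r1 σ p x) (Y.X.j a))
      (GA.GANrA.zero (exp_pos U).le fun i => (T.p3 i).le)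
    refine ⟨S, s1, fun b hb _ g => ?_⟩
    obtain ⟨c, d, d1, d2⟩ := hG a ha b hb ea g.symm
    have := s2 _ d (h.fr a ha).1 rfl d1
    rw [zero_add, ← d2] at this
    simp only [← c]
    exact this
  · have c := (hG a ha b hb ea g).1
    simp only [← c] at f
    have := det o x f
    simp only [Wd.K, Wd.Z, ← c, this.1, this.2]

/-- The deep cell `T`. -/
theorem Nm.nrT (o : σ.Ok) (N : Nm σ Y p e w r x) (h : Y.Ok σ e w) {a b : Y.Ω}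
    (V : Y.Val σ e r x.1 a) (ha : a ∈ Y.P.S) (hb : b ∈ Y.P.S) (c : Y.T a = Y.T b) :
    GA.Nr (Y.Bk σ x.1 (Y.cp x.1 a)) (r1 σ p x)
      (exp (e + e + (Fintype.card κ : ℕ) + (Fintype.card κ : ℕ) + e)) (Y.X.j a) (Y.X.j b) := by
  have iT : x.1 ≤ Y.nT := by linarith [N.iT]
  refine h.nrT o le_rfl V ha hb iT c (fun f => (rh_pos _ _ _ f).le) (fun a' b' m n => ?_)
    fun f _ => ?_
  · have z : σ.mu a' ≠ 0 := m ▸ GN.nn_mu o n
    refine le_trans (exp_le_exp.2 ?_) (N.le_r1 m z)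
    linarith [N.w1 a' z, mul_le_mul_of_nonneg_left (Y.D_mono iT) (o.v0 a')]
  · by_cases z : σ.mu f = 0
    · rw [r1, rh_dead z, z, zero_mul, neg_zero, exp_zero]
    · refine le_trans (exp_le_exp.2 ?_) (N.le_r1 rfl z)
      linarith [N.w1 f z, mul_nonneg (o.v0 f) (Y.D_nonneg Y.nT)]

/-- The deep plain cell. -/
theorem Nm.nrX (o : σ.Ok) (N : Nm σ Y p e w r x) (h : Y.Ok σ e w)
    (K : GA.CR.Kit σ.Φ.N (Fintype.card κ) C) {a b : Y.Ω} (V : Y.Val σ e r x.1 a) (ha : a ∈ Y.P.S)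
    (hb : b ∈ Y.P.S) (c : Y.Xp σ p (x.1 + p.kD) x.2.1 a = Y.Xp σ p (x.1 + p.kD) x.2.1 b) :
    GA.Nr (Y.Bk σ x.1 (Y.cp x.1 a)) (r1 σ p x)
      (exp (e + e + (Fintype.card κ : ℕ) + (Fintype.card κ : ℕ) + C * e)) (Y.X.j a) (Y.X.j b) := by
  have iT : x.1 ≤ Y.nT := by linarith [N.iT]
  have x0 : (0 : ℝ) ≤ p.xA := Nat.cast_nonneg _
  have c1 : Y.Cp (x.1 + p.kD) a = Y.Cp (x.1 + p.kD) b := congrArg Prod.fst c
  have c2 : cell (Y.Fv σ (x.1 + p.kD) (Y.rq (x.1 + p.kD) a)) _ (Y.X.j a) =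
      cell (Y.Fv σ (x.1 + p.kD) (Y.rq (x.1 + p.kD) b)) _ (Y.X.j b) := congrArg Prod.snd c
  rw [← Wd.rq_congr c1] at c2
  obtain ⟨q1, q2⟩ := Wd.rq_spec ha (x.1 + p.kD)
  obtain ⟨W, v1, v2⟩ := N.rw
  have n := GN.cell_eq K le_rfl (h.frv q1 _) N.e1 (GN.rad_pos _ _ _ _)
    (h.idl o q1 (Nat.cast_nonneg _) N.lW x0 fun f => by
      linarith [mul_le_mul (v1 f) (Y.D_mono N.iT) (Y.D_nonneg _) ((o.v0 f).trans (v1 f)), N.xr,
        h.e0]) (h.fr a ha).1 (h.fr b hb).1 c2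
  refine h.nr2 o le_rfl V q1 iT (h.nest _ _ (Nat.le_add_right _ _) N.iT _ q1 _ ha q2)
    (fun f => (GN.rad_pos _ _ _ _ f).le) (fun f => (rh_pos _ _ _ f).le) (fun a' b' m n => ?_)
    (fun f n => ?_) n
  · have z : σ.mu a' ≠ 0 := m ▸ GN.nn_mu o n
    refine le_trans ?_ (N.le_r1 m z)
    have d : Y.D (x.1 + p.kD) - Y.D x.1 = p.kD * Y.ms := by simp only [Wd.D]; push_cast; ring
    by_cases n' : σ.Nn a'
    · rw [GN.rad_nn o _ _ _ _ n', ← exp_add, d, exp_le_exp]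
      linarith [N.dp a' n']
    · rw [GN.rad_let _ _ _ _ z n', o.vz n', zero_mul, neg_zero, exp_zero, one_mul]
  · rw [← ss_out x n, Wd.ss, if_neg n, Wd.r0, GN.rad_off _ _ _ _ p.d0 0 n]

omit [DecidableEq κ] in
theorem bound (o : σ.Ok) : ∃ A : ℝ, 1 ≤ A ∧ ∀ a, σ.mu a ≤ A ∧ σ.vt a ≤ A ∧ σ.wt a ≤ A ∧
    1 ≤ A * σ.wt a ∧ (σ.mu a ≠ 0 → 1 ≤ A * σ.mu a) ∧ (σ.Nn a → 1 ≤ A * σ.vt a) := by
  obtain ⟨A, h⟩ := Finite.exists_le fun a =>
    1 + σ.mu a + σ.vt a + σ.wt a + (σ.wt a)⁻¹ + (σ.mu a)⁻¹ + (σ.vt a)⁻¹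
  have k : ∀ a, 1 ≤ A ∧ σ.mu a ≤ A ∧ σ.vt a ≤ A ∧ σ.wt a ≤ A ∧ (σ.wt a)⁻¹ ≤ A ∧ (σ.mu a)⁻¹ ≤ A ∧
      (σ.vt a)⁻¹ ≤ A := fun a => by
    have := h a
    have := o.m0 a
    have := o.v0 a
    have := o.w0 a
    have := inv_nonneg.2 (o.m0 a)
    have := inv_nonneg.2 (o.v0 a)
    have := inv_nonneg.2 (o.w0 a).le
    refine ⟨?_, ?_, ?_, ?_, ?_, ?_, ?_⟩ <;> linarith
  have q : ∀ {t : ℝ}, 0 < t → t⁻¹ ≤ A → 1 ≤ A * t := fun t0 t => by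
    rwa [inv_le_iff_one_le_mul₀ t0] at t
  exact ⟨A, (k σ.τ).1, fun a => ⟨(k a).2.1, (k a).2.2.1, (k a).2.2.2.1, q (o.w0 a) (k a).2.2.2.2.1,
    fun z => q ((o.m0 a).lt_of_ne' z) (k a).2.2.2.2.2.1,
    fun n => q ((Kk.nn_iff a).1 n) (k a).2.2.2.2.2.2⟩⟩

theorem nm (o : σ.Ok) : ∃ K₀ : ℝ, 1 ≤ K₀ ∧ ∀ {K : ℝ} {Y : Wd ι κ} {p : Pm} {e w r δ : ℝ} {x : Par},
    K₀ ≤ K → Y.Hyp σ p K e w r δ → x.1 < Y.nD → x.2.1 ≤ p.N → x.2.2.1 < p.L → x.2.2.2 < p.L →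
    Nm σ Y p e w r x := by
  obtain ⟨A, A1, hA⟩ := bound o
  have k0 : (0 : ℝ) ≤ Fintype.card κ := Nat.cast_nonneg _
  have A2 : A ≤ A * A := le_mul_of_one_le_left (by linarith) A1
  refine ⟨8 * (A * A) + Fintype.card κ, by linarith, fun {K Y p e w r δ x} hK H h1 h2 h3 h4 => ?_⟩
  obtain ⟨d0, d1, e1, eu, -, -, uL, Ld, dx, xn, nk, kr, rw, -, nT, up, -⟩ := H.num
  have u0 : (0 : ℝ) ≤ p.u := Nat.cast_nonneg _
  have L0 : (0 : ℝ) ≤ p.L := Nat.cast_nonneg _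
  have c0 : (0 : ℝ) ≤ p.d0 := Nat.cast_nonneg _
  have x0 : (0 : ℝ) ≤ p.xA := Nat.cast_nonneg _
  have n0 : (0 : ℝ) ≤ p.nb := Nat.cast_nonneg _
  have D0 := Y.D_nonneg Y.nT
  have m0 := H.ok.ms.1.le
  have s : ∀ {a y z : ℝ}, 0 ≤ y → a ≤ K → K * y ≤ z → a * y ≤ z := fun y0 a k =>
    (mul_le_mul_of_nonneg_right a y0).trans k
  have δ1 : δ ≤ 1 := by simpa using s d0.le (show 1 ≤ K by linarith) d1
  have f1 : e ≤ p.u := eu.trans (mul_le_of_le_one_left u0 (pow_le_one₀ d0.le δ1))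
  have f2 : (p.u : ℝ) ≤ p.L := uL.trans (mul_le_of_le_one_left L0 δ1)
  have f3 := s L0 (show 1 ≤ K by linarith) Ld
  have f4 := s c0 (show 1 ≤ K by linarith) dx
  have f5 := s x0 (show 7 ≤ K by linarith) xn
  have f6 := s n0 (show 1 ≤ K by linarith) nk
  have f7 := s (show 0 ≤ p.kD * Y.ms by positivity) (show 1 ≤ K by linarith) kr
  have f8 : p.kD * Y.ms ≤ Y.D Y.nT := Y.D_mono (show p.kD ≤ Y.nT by omega)
  have f9 : (Wd.l0 σ p x.2.1 : ℝ) ≤ p.N * Wd.u1 σ p := by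
    rw [Wd.l0]; exact_mod_cast Nat.mul_le_mul_right _ h2
  have g1 : ∀ f, η σ p x f ≤ 3 * A * p.L := fun f => by
    have a1 : (x.2.2.1 : ℝ) ≤ p.L := by exact_mod_cast h3.le
    have a2 : (x.2.2.2 : ℝ) ≤ p.L := by exact_mod_cast h4.le
    have a3 := Nat.floor_le (a := (σ.mu f * x.2.2.1 + σ.wt f * x.2.2.2) / lg) (div_nonneg
      (add_nonneg (mul_nonneg (o.m0 f) (Nat.cast_nonneg _))
        (mul_nonneg (o.w0 f).le (Nat.cast_nonneg _))) lg_pos.le)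
    rw [le_div_iff₀ lg_pos] at a3
    have a4 := mul_le_mul (hA f).1 a1 (Nat.cast_nonneg _) (by linarith)
    have a5 := mul_le_mul (hA f).2.2.1 a2 (Nat.cast_nonneg _) (by linarith)
    have a6 := mul_le_of_le_one_left u0 lg_lt_one.le
    have a7 := le_mul_of_one_le_left L0 A1
    rw [η, Wd.nn]
    linarith
  have AL : 0 ≤ A * p.L := by positivity
  refine ⟨by linarith, by linarith, by omega, ?_, fun a f => ?_, fun f => ?_, by linarith,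
    ⟨A, fun a => (hA a).2.1, by linarith [mul_le_mul_of_nonneg_right (show A ≤ K by linarith) D0]⟩,
    fun a n => ?_, fun a z => ?_⟩
  · have : (Y.W1 : ℝ) ≤ Y.W := by exact_mod_cast H.ok.w1
    linarith [mul_nonneg (show 0 ≤ K by linarith) D0]
  · have a1 := mul_le_mul_of_nonneg_left (s L0 (show 8 * (A * A) ≤ K by linarith) Ld) (o.w0 a).le
    have a2 := mul_le_mul_of_nonneg_right (hA a).2.2.2.1 AL
    linarith [g1 f]
  · have a1 := mul_le_mul_of_nonneg_right (hA f).2.2.1 c0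
    have a2 := s c0 (show 4 * A ≤ K by linarith) dx
    have a3 := mul_le_mul_of_nonneg_left f3 (show 0 ≤ A by linarith)
    linarith [g1 f]
  · have a1 := mul_le_mul_of_nonneg_left (s n0 (show A ≤ K by linarith) nk) (o.v0 a)
    have a2 := mul_le_mul_of_nonneg_right ((hA a).2.2.2.2.2 n) n0
    linarith
  · have a1 := mul_le_mul_of_nonneg_left (show 8 * (A * A) * Y.D Y.nT ≤ Y.W1 - Wd.l0 σ p x.2.1 by
      linarith [mul_le_mul_of_nonneg_right (show 8 * (A * A) ≤ K by linarith) D0]) (o.m0 a)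
    have a2 := mul_le_mul_of_nonneg_right ((hA a).2.2.2.2.1 z) (mul_nonneg (by linarith : 0 ≤ A) D0)
    have a3 := mul_le_mul_of_nonneg_right (hA a).2.1 D0
    have a4 := le_mul_of_one_le_left D0 A1
    linarith

omit [Fintype κ] [DecidableEq κ] in
theorem num_mono {K K' δ : ℝ} (h : Y.Num σ p K e w r δ) (k : K' ≤ K) : Y.Num σ p K' e w r δ := by
  have s : ∀ {y : ℝ}, 0 ≤ y → K' * y ≤ K * y := fun y0 => mul_le_mul_of_nonneg_right k y0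
  have D0 := Y.D_nonneg Y.nT
  exact ⟨h.d0, (s h.d0.le).trans h.d1, k.trans h.e1, h.eu, h.kk, h.lu, h.uL,
    (s (Nat.cast_nonneg _)).trans h.Ld, (s (Nat.cast_nonneg _)).trans h.dx,
    (s (Nat.cast_nonneg _)).trans h.xn, (s (Nat.cast_nonneg _)).trans h.nk,
    (s (Y.D_nonneg p.kD)).trans h.kr, by linarith [s D0, h.rw], h.tel, h.nT,
    by linarith [s D0, h.up], h.lo⟩

/-- The lists for the context and the block. -/
def RowKZ : Prop := On fun _ _ _ _ _ _ σ _ Y p K e _ => ∀ x : Par, x.1 < Y.nD → x.2.1 ≤ p.N →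
  x.2.2.1 < p.L → x.2.2.2 < p.L →
  Dt Y.P (Y.E x.1) (fun ω => (Y.K σ p x ω, Y.Z σ p x ω))
    (fun ω => (Y.Xp σ p (x.1 + p.kD) x.2.1 ω, Y.si x.1 ω)) (K * e) ∧
  Dt Y.P (Y.E x.1) (fun ω => (Y.K σ p x ω, Y.Z σ p x ω))
    (fun ω => (Y.T ω, Y.cp x.1 ω)) (K * e)

/-- The lists for the subcap and the source. -/
def RowVt : Prop := On fun _ _ _ _ _ _ σ _ Y p K e _ => ∀ x : Par, x.1 < Y.nD → x.2.1 ≤ p.N →
  x.2.2.1 < p.L → x.2.2.2 < p.L →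
  Dt Y.P (Y.E x.1) (fun ω => (Y.Cp (Y.i1 p x) ω, fun a q => Y.ρ σ p x ω a q none))
    (fun ω => (Y.Cp (x.1 + p.kD) ω, Y.si x.1 ω)) (K * e)

theorem rowKZ : RowKZ := fun ι κ _ _ _ _ σ o => by
  obtain ⟨K₀, k1, hK⟩ := nm o
  obtain ⟨C, K⟩ := kit σ.Φ.N (Fintype.card κ)
  have c1 := K.c1
  have z : 0 ≤ (2 + 12 * (Fintype.card κ : ℝ)) * C ^ 3 * (7 + C) := by positivity
  refine ⟨K₀ + (2 + 12 * (Fintype.card κ : ℝ)) * C ^ 3 * (7 + C), by linarith,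
    fun Y p e w r δ H x h1 h2 h3 h4 => ?_⟩
  have N := hK (by linarith) H h1 h2 h3 h4
  have e0 := H.ok.e0
  have ce : 0 ≤ C * e := by positivity
  have r0 : ∀ f, 0 ≤ r1 σ p x f := fun f => (rh_pos _ _ _ f).le
  have up : ∀ {B : κ → Mt ι} {v : ℝ} {g g' : Mt ι}, GA.Nr B (r1 σ p x) (exp v) g g' →
      v ≤ (7 + C) * e → GA.Nr B (r1 σ p x) (exp ((7 + C) * e)) g g' :=
    fun ⟨t, a, b⟩ l => ⟨t, bx_up a r0 l, b⟩
  have fin : (2 + 12 * (Fintype.card κ : ℝ)) * C ^ 3 * ((7 + C) * e) ≤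
      (K₀ + (2 + 12 * (Fintype.card κ : ℝ)) * C ^ 3 * (7 + C)) * e := by
    linarith [mul_nonneg (show 0 ≤ K₀ by linarith) e0]
  refine ⟨dt_mono (N.core o H.ok H.st h1 K (U := (7 + C) * e) (by linarith)
    fun a ha b hb ea g => ⟨?_, up (N.nrX o H.ok K (H.st.val _ h1 a ha ea) ha hb
      (congrArg Prod.fst g)) (by linarith [N.ke])⟩) fin,
    dt_mono (N.core o H.ok H.st h1 K (U := (7 + C) * e) (by linarith)
    fun a ha b hb ea g => ⟨congrArg Prod.snd g, up (N.nrT o H.ok (H.st.val _ h1 a ha ea) ha hb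
      (congrArg Prod.fst g)) (by linarith [N.ke])⟩) fin⟩
  exact Prod.ext (H.ok.nest _ _ (Nat.le_add_right _ _) N.iT a ha b hb
    (congrArg (fun y => y.1.1) g)) (Prod.mk.inj g).2

theorem rowD2_of (t : RowVt) : RowD2 := fun ι κ _ _ _ _ σ o => by
  obtain ⟨K₁, k1, h1⟩ := rowKZ ι κ σ o
  obtain ⟨K₂, k2, h2⟩ := t ι κ σ o
  refine ⟨K₁ + K₂, by linarith, fun Y p e w r δ H x a b c d => ?_⟩
  have q1 := h1 Y p e w r δ ⟨H.ok, H.st, num_mono H.num (by linarith)⟩ x a b c d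
  have q2 := h2 Y p e w r δ ⟨H.ok, H.st, num_mono H.num (by linarith)⟩ x a b c d
  have e0 := H.ok.e0
  refine ⟨dt_map (dt_mono (dt_pair q1.1 (dt_fine q2 (fun y => (y.1.1, y.2)) fun _ => rfl))
    (add_mul _ _ _).ge) fun a _ b _ _ _ _ f => ?_,
    dt_mono q1.2 (mul_le_mul_of_nonneg_right (by linarith) e0)⟩
  simp only [Prod.mk.injEq] at f ⊢
  exact ⟨f.1.1, f.1.2, f.2.1, f.2.2⟩

end D27

end Pool.Agent.MP_5168f5_an.QA.SC
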