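import Pool.Agent.MP_4b405e_nt.SK.CRelA

/-! Linear coordinates in a cell and the action of a relative. -/

namespace Pool.Agent.MP_5168f5_an.AN.GA.CR

open H19 H17S H17F H61Z Real GAMulA GABoxA GACntA

theorem ex_box {K : ℕ} {u : ℝ} (hu : 1 ≤ u) : ((K : ℝ) * exp u) ^ K ≤ exp (K * (K + 1) * u) := by
  have h : (K : ℝ) ≤ exp (K * u) :=
    ((le_mul_of_one_le_right (Nat.cast_nonneg K) hu).trans (le_add_of_nonneg_right zero_le_one)).trans
      (add_one_le_exp _)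
  refine (pow_le_pow_left₀ (by positivity) (mul_le_mul_of_nonneg_right h (exp_pos u).le) K).trans_eq ?_
  rw [← exp_add, ← exp_nat_mul]; congr 1; ring

section Bx

variable {κ : Type} {r r' s t : κ → ℝ} {u v X Y : ℝ}

theorem bx_up (h : Bx r (exp u) s) (hr : ∀ a, 0 ≤ r a) (e : u ≤ v) : Bx r (exp v) s :=
  mono h hr (exp_le_exp.2 e)

theorem bx_le (h : Bx r X s) (hX : 0 ≤ X) (e : ∀ a, r a ≤ r' a) : Bx r' X s := fun a =>
  (h a).trans (mul_le_mul_of_nonneg_left (e a) hX)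

theorem bx_add (h : Bx r X s) (h' : Bx r Y t) : Bx r (X + Y) (s + t) := fun a =>
  (abs_add_le _ _).trans ((add_le_add (h a) (h' a)).trans_eq (add_mul _ _ _).symm)

theorem bx_sub (h : Bx r X s) (h' : Bx r Y t) : Bx r (X + Y) (s - t) :=
  sub_eq_add_neg s t ▸ bx_add h (GANrA.neg h')

theorem two_exp (u : ℝ) : exp u + exp u ≤ exp (u + 1) := by
  rw [exp_add]; nlinarith [exp_pos u, add_one_le_exp (1 : ℝ)]

theorem bx_add' (h : Bx r (exp u) s) (h' : Bx r (exp u) t) (hr : ∀ a, 0 ≤ r a) :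
    Bx r (exp (u + 1)) (s + t) := mono (bx_add h h') hr (two_exp u)

theorem bx_sub' (h : Bx r (exp u) s) (h' : Bx r (exp u) t) (hr : ∀ a, 0 ≤ r a) :
    Bx r (exp (u + 1)) (s - t) := mono (bx_sub h h') hr (two_exp u)

theorem idl_up {c : κ → κ → κ → ℝ} (h : Idl c r r' (exp u)) (hr : ∀ a, 0 ≤ r' a) (e : u ≤ v) :
    Idl c r r' (exp v) := fun a b f =>
  (h a b f).trans (mul_le_mul_of_nonneg_right (exp_le_exp.2 e) (hr f))

end Bx

/-- Three systems of radii: relatives, cells, resolution. -/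
structure Tow {κ : Type} (c : κ → κ → κ → ℝ) (R r r' : κ → ℝ) (u : ℝ) : Prop where
  pos : ∀ a, 0 < r' a
  le1 : ∀ a, r' a ≤ r a
  le2 : ∀ a, r a ≤ R a
  i1 : Idl c R R (exp u)
  i2 : Idl c R r (exp u)
  i3 : Idl c R r' (exp u)
  ab : ∀ a b e, |c a b e| * r a * r b ≤ exp u * r' e

namespace Tow

variable {κ : Type} {c : κ → κ → κ → ℝ} {R r r' : κ → ℝ} {u v : ℝ} (h : Tow c R r r' u)
include h

theorem p2 (a : κ) : 0 < r a := (h.pos a).trans_le (h.le1 a)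
theorem p3 (a : κ) : 0 < R a := (h.p2 a).trans_le (h.le2 a)

theorem up (e : u ≤ v) : Tow c R r r' v :=
  ⟨h.pos, h.le1, h.le2, idl_up h.i1 (fun a => (h.p3 a).le) e, idl_up h.i2 (fun a => (h.p2 a).le) e,
    idl_up h.i3 (fun a => (h.pos a).le) e, fun a b f =>
      (h.ab a b f).trans (mul_le_mul_of_nonneg_right (exp_le_exp.2 e) (h.pos f).le)⟩

theorem i4 : Idl c r r (exp u) := fun a b f =>
  (h.ab a b f).trans (mul_le_mul_of_nonneg_left (h.le1 f) (exp_pos u).le)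

theorem i5 : Idl c r r' (exp u) := fun a b f =>
  (mul_le_mul_of_nonneg_left (h.le1 b) (mul_nonneg (abs_nonneg _) (h.p2 a).le)).trans (h.ab a b f)

theorem i6 : Idl c r' r' (exp u) := fun a b f =>
  (mul_le_mul_of_nonneg_right (mul_le_mul_of_nonneg_left (h.le1 a) (abs_nonneg _))
    (h.pos b).le).trans (h.i5 a b f)

end Tow

/-- The estimates on boxes, in exponent form. -/
structure Kit (N k : ℕ) (C : ℝ) : Prop where
  c1 : 1 ≤ C
  box : ∀ {κ : Type} [Fintype κ] {c : κ → κ → κ → ℝ} {r r' : κ → ℝ} {u : ℝ} {s t s' t' : κ → ℝ},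
    Fintype.card κ ≤ k → 1 ≤ u → (∀ a, 0 ≤ r a) → (∀ a, 0 ≤ r' a) →
    (∀ a b e, c a b e = -c b a e) → Idl c r r (exp u) → Idl c r r' (exp u) → Bx r (exp u) s →
    Bx r (exp u) t → Bx r (exp u) s' → Bx r (exp u) t' → Bx r (exp (C * u)) (bch N c s t) ∧
      (Bx r' (exp u) (s - s') → Bx r' (exp u) (t - t') →
        Bx r' (exp (C * u)) (bch N c s t - bch N c s' t'))
  ad : ∀ {κ : Type} [Fintype κ] {c : κ → κ → κ → ℝ} {r r' : κ → ℝ} {u : ℝ} {s w : κ → ℝ},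
    Fintype.card κ ≤ k → 1 ≤ u → (∀ a, 0 ≤ r a) → (∀ a, 0 ≤ r' a) →
    (∀ a b e, c a b e = -c b a e) → Idl c r r (exp u) → Idl c r r' (exp u) → Bx r (exp u) s →
    Bx r' (exp u) w → Bx r' (exp (C * u)) (Ad N c s w) ∧ Bx r' (exp (C * u)) (Ew N c s w) ∧
      Bx r' (exp (C * u)) (br c s w)
  ab : ∀ {κ : Type} [Fintype κ] {c : κ → κ → κ → ℝ} {R r r' : κ → ℝ} {u : ℝ} {s t : κ → ℝ},
    Fintype.card κ ≤ k → 1 ≤ u → Tow c R r r' u → Bx r (exp u) s → Bx r (exp u) t →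
    Bx r' (exp (C * u)) (bch N c s t - s - t)
  tay : ∀ {κ : Type} [Fintype κ] {c : κ → κ → κ → ℝ} {R r r' : κ → ℝ} {u : ℝ}
    {s t s' t' : κ → ℝ}, Fintype.card κ ≤ k → 1 ≤ u → (∀ a b e, c a b e = -c b a e) →
    Tow c R r r' u → Bx R (exp u) s → Bx R (exp u) t → Bx r (exp u) s' → Bx r (exp u) t' →
    Bx r' (exp (C * u)) (bch N c (s + s') (t + t') - bch N c s t - dbch N c s t s' t')
  cell : ∀ {ι κ : Type} [Fintype ι] [DecidableEq ι] [Fintype κ] {Φ : Filt (Mt ι)} {B : κ → Mt ι}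
    {c : κ → κ → κ → ℝ} {r r' : κ → ℝ} {u : ℝ} {y : Mt ι}, Φ.N = N → Fintype.card κ ≤ k →
    IsFr Φ B c → 1 ≤ u → (∀ a, 0 < r' a ∧ r' a ≤ exp u * r a) → Idl c r r (exp u) →
    Idl c r r' (exp u) → IsUnit y → ∃ T : Finset (Mt ι),
      (T.card : ℝ) ≤ exp (C * u) * ∏ a, r a / r' a ∧ ∀ x, Nr B r (exp u) y x → cell B r' x ∈ T

theorem kit (N k : ℕ) : ∃ C, Kit N k C := by
  obtain ⟨K1, -, h1⟩ := sBox N k
  obtain ⟨K2, -, h2⟩ := sBox2 N k
  obtain ⟨K3, -, h3⟩ := sAbel N k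
  obtain ⟨K4, -, h4⟩ := sCell N k
  obtain ⟨m, hm⟩ : ∃ m, m = (BL N).support.sup Wd.len + 2 := ⟨_, rfl⟩
  obtain ⟨Q, hQ⟩ : ∃ Q, Q = 3 + ∑ w ∈ (BL N).support, |(BL N w : ℝ)| := ⟨_, rfl⟩
  obtain ⟨K, k1, k2, k3, k4, k5, k6, k7⟩ : ∃ K : ℕ, K1 ≤ K ∧ K2 ≤ K ∧ K3 ≤ K ∧ K4 ≤ K ∧
      4 * k ^ 2 + 4 ≤ K ∧ ⌈Q⌉₊ ≤ K ∧ 2 * m + 1 ≤ K :=
    ⟨K1 + K2 + K3 + K4 + (4 * k ^ 2 + 4) + ⌈Q⌉₊ + (2 * m + 1), by omega, by omega, by omega,
      by omega, by omega, by omega, by omega⟩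
  have z : (0 : ℝ) ≤ K * (K + 1) := by positivity
  have f : ∀ (J : ℕ) (u : ℝ), J ≤ K → 1 ≤ u →
      ((J : ℝ) * exp u) ^ J * exp u ≤ exp ((6 * (K * (K + 1)) + 1) * u) := fun J u e hu => by
    have a : (J : ℝ) ≤ K := by exact_mod_cast e
    have b : (J : ℝ) * (J + 1) ≤ K * (K + 1) := by gcongr
    refine (mul_le_mul_of_nonneg_right (ex_box hu) (exp_pos u).le).trans ?_
    rw [← exp_add]
    exact exp_le_exp.2 (by nlinarith)
  have g : ∀ (J : ℕ) (u : ℝ), J ≤ K → 1 ≤ u →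
      ((J : ℝ) * exp u) ^ J ≤ exp ((6 * (K * (K + 1)) + 1) * u) := fun J u e hu =>
    (le_mul_of_one_le_right (by positivity) (one_le_exp (by linarith))).trans (f J u e hu)
  have o : ∀ {u : ℝ}, 1 ≤ u → 1 ≤ exp u := fun hu => one_le_exp (by linarith)
  refine ⟨6 * (K * (K + 1)) + 1, by linarith, ?_, ?_, ?_, ?_, ?_⟩
  · intro κ _ c r r' u s t s' t' hk hu hr hr' ha i1 i2 a b a' b'
    have := h1 κ c r r' _ (exp u) s t s' t' hk (o hu) (exp_pos u).le (fun a => ⟨hr a, hr' a⟩) ha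
      i1 i2 a b a' b'
    exact ⟨mono this.1 hr (g _ _ k1 hu), fun p q => mono (this.2 p q) hr' (f _ _ k1 hu)⟩
  · intro κ _ c r r' u s w hk hu hr hr' ha i1 i2 a b
    have := h2 κ c r r' _ (exp u) s (-s) w 0 hk (o hu) (exp_pos u).le (fun a => ⟨hr a, hr' a⟩) ha
      i1 i2 a (GANrA.neg a) b (GANrA.zero (exp_pos u).le hr')
    exact ⟨mono this.2.1 hr' (f _ _ k2 hu), mono this.1 hr' (f _ _ k2 hu),
      mono this.2.2 hr' (f _ _ k2 hu)⟩
  · intro κ _ c R r r' u s t hk hu T a b e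
    classical
    have := (h3 κ c r (Pi.single e 1) _ (exp u * r' e) s t s t hk (o hu)
      (mul_pos (exp_pos u) (T.pos e)).le (fun a => (T.p2 a).le) T.i4
      (fun a b => by simpa using T.ab a b e) a b a b).1
    rw [single_one_dotProduct, ← mul_assoc] at this
    exact this.trans (mul_le_mul_of_nonneg_right (f _ _ k3 hu) (T.pos e).le)
  · intro κ _ c R r r' u s t s' t' hk hu ha T a b a' b'
    have u1 : 1 ≤ u + 1 := by linarith
    have ul : u ≤ u + 1 := by linarith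
    have T' := T.up ul
    have r3 := fun a => (T.p3 a).le
    have r2 := fun a => (T.p2 a).le
    have r1 := fun a => (T.pos a).le
    have kk : (4 * k ^ 2 + 4 : ℝ) ≤ K := by exact_mod_cast k5
    have l1 : (1 : ℝ) ≤ (4 * k ^ 2 + 4) * exp (u + 1) ^ 3 :=
      one_le_mul_of_one_le_of_one_le (by nlinarith [sq_nonneg (k : ℝ)]) (one_le_pow₀ (o u1))
    have w := fun w : Wd Bool => w4 (f := fun i => bif i then s else t)
      (f' := fun i => bif i then s + s' else t + t') (g := fun i => bif i then s' else t') hk (o u1)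
      (fun a => ⟨r3 a, r2 a, r1 a⟩) ha T'.i1 T'.i2 T'.i3 T'.ab
      (fun i => by cases i; exacts [bx_up b r3 ul, bx_up a r3 ul])
      (fun i => by
        cases i
        exacts [bx_add' b (bx_le b' (exp_pos u).le T.le2) r3,
          bx_add' a (bx_le a' (exp_pos u).le T.le2) r3])
      (fun i => by cases i; exacts [bx_up b' r2 ul, bx_up a' r2 ul])
      (fun i => by cases i <;> simp) w
    have l := lin (X := ((4 * k ^ 2 + 4) * exp (u + 1) ^ 3) ^ (2 * m)) (BL N) _ (by positivity) r1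
      fun v e => mono (w v) r1 (pow_le_pow_right₀ l1 (by omega))
    rw [← hQ] at l
    refine fun e => le_trans (le_of_eq ?_) ((l e).trans (mul_le_mul_of_nonneg_right ?_ (r1 e)))
    · congr 1
      simp only [bch, ser, dbch, Wd.ev, Wd.dv, Finsupp.sum, smul_sub, Finset.sum_sub_distrib,
        Bool.cond_true, Bool.cond_false, Pi.add_apply, Pi.sub_apply]
      ring
    · have e1 : (4 * k ^ 2 + 4) * exp (u + 1) ^ 3 ≤ K * exp (6 * u) := by
        rw [← exp_nat_mul]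
        exact mul_le_mul kk (exp_le_exp.2 (by push_cast; linarith)) (exp_pos _).le (by positivity)
      have e2 : Q ≤ K * exp (6 * u) :=
        (Nat.ceil_le.1 k6).trans (le_mul_of_one_le_right (by positivity) (one_le_exp (by linarith)))
      refine (mul_le_mul e2 (pow_le_pow_left₀ (by positivity) e1 _) (by positivity)
        (by positivity)).trans ?_
      rw [← pow_succ']
      refine ((pow_le_pow_right₀ (l1.trans e1) k7).trans (ex_box (by linarith))).trans ?_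
      exact exp_le_exp.2 (by nlinarith)
  · intro ι κ _ _ _ Φ B c r r' u y hN hk fr hu hr i1 i2 hy
    exact ((h4 ι κ Φ B c r r' _ hN hk fr (o hu) hr).2 i1 i2 y hy).imp fun T h =>
      ⟨h.1.trans (mul_le_mul_of_nonneg_right (g _ _ k4 hu) (Finset.prod_nonneg fun a _ =>
        div_nonneg ((mul_pos_iff_of_pos_left (exp_pos u)).1 ((hr a).1.trans_le (hr a).2)).le
          (hr a).1.le)), h.2⟩

section Rel

variable {ι κ : Type} [Fintype ι] [DecidableEq ι] [Fintype κ] {Φ : Filt (Mt ι)} {B : κ → Mt ι}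
  {c : κ → κ → κ → ℝ} {R r r' : κ → ℝ} {u C : ℝ} {k : ℕ}

theorem ex_unit (fr : IsFr Φ B c) (t : κ → ℝ) : IsUnit (ex B t) :=
  ⟨⟨_, _, ((sMul ι κ Φ B c fr).neg t).2, ((sMul ι κ Φ B c fr).neg t).1⟩, rfl⟩

theorem cell_nr (fr : IsFr Φ B c) (hr : ∀ a, 0 < r a) (x : Mt ι) : Nr B r 1 (cell B r x) x := by
  obtain ⟨K, -, h⟩ := sCell Φ.N (Fintype.card κ)
  exact (h ι κ Φ B c r r 1 rfl le_rfl fr le_rfl fun a => ⟨hr a, (one_mul _).ge⟩).1 x

/-- A point is the centre of its cell times the exponential of its coordinates. -/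
theorem cell_lg (fr : IsFr Φ B c) (hr : ∀ a, 0 < r a) {x : Mt ι} (hx : IsUnit x) :
    IsUnit (cell B r x) ∧ x = cell B r x * ex B (lg B (cell B r x) x) ∧
      Bx r 1 (lg B (cell B r x) x) := by
  have h := cell_nr fr hr x
  have u := nr_unit h hx
  obtain ⟨t, ht, e⟩ := h
  have : lg B (cell B r x) x = t := by
    conv_lhs => arg 3; rw [e]
    exact (sMul ι κ Φ B c fr).lg _ t u
  rw [this]
  exact ⟨u, e, ht⟩

/-- Moving a factor to the left. -/
theorem ex_swap (fr : IsFr Φ B c) (ν t : κ → ℝ) :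
    ex B ν * ex B t = ex B t * ex B (Ad Φ.N c (-t) ν) := by
  rw [(sAd ι κ Φ B c fr).2.2.2.1, neg_neg, ← mul_assoc, ← mul_assoc,
    ((sMul ι κ Φ B c fr).neg t).2, one_mul]

theorem ex_split (fr : IsFr Φ B c) (t s : κ → ℝ) :
    ex B s = ex B t * ex B (bch Φ.N c (-t) s) := by
  rw [← (sMul ι κ Φ B c fr).mul, ← mul_assoc, ((sMul ι κ Φ B c fr).neg t).2, one_mul]

variable (K : Kit Φ.N k C) (hk : Fintype.card κ ≤ k) (fr : IsFr Φ B c) (hu : 1 ≤ u)
  (T : Tow c R r r' u)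
include K hk fr hu T

/-- A small change of the exponent is a small factor on the right, linear in the change. -/
theorem src {t w : κ → ℝ} (ht : Bx R (exp u) t) (hw : Bx r (exp u) w) :
    ∃ ζ, ex B (t + w) = ex B t * ex B ζ ∧ Bx r (exp (C * u + 1)) ζ ∧
      Bx r' (exp (C * u)) (ζ - Ew Φ.N c (-t) w) := by
  have m := sMul ι κ Φ B c fr
  have r2 := fun a => (T.p2 a).le
  have a := K.tay hk hu m.anti T (GANrA.neg ht) ht (GANrA.zero (exp_pos u).le r2) hw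
  rw [add_zero, (m.inv t).1, sub_zero, lw_eq fr] at a
  have b := (K.ad hk hu (fun a => (T.p3 a).le) r2 m.anti T.i1 T.i2 (GANrA.neg ht) hw).2.1
  have := bx_add' (bx_le a (exp_pos _).le T.le1) b r2
  rw [sub_add_cancel] at this
  exact ⟨_, ex_split fr t _, this, a⟩

/-- The relative is `exp t` times a factor in the box of the cell. -/
theorem rel0 {ν t w : κ → ℝ} (hν : Bx r (exp u) ν) (ht : Bx R (exp u) t) (hw : Bx r (exp u) w) :
    ∃ μ, ex B ν * ex B (t + w) = ex B t * ex B μ ∧ Bx r (exp (2 * C ^ 2 * u)) μ ∧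
      Bx r' (exp (2 * C ^ 2 * u + 1)) (μ - Ad Φ.N c (-t) ν - Ew Φ.N c (-t) w) := by
  have m := sMul ι κ Φ B c fr
  have c1 := K.c1
  have r1 := fun a => (T.pos a).le
  have r2 := fun a => (T.p2 a).le
  obtain ⟨ζ, e, z1, z2⟩ := src K hk fr hu T ht hw
  have a1 := (K.ad hk hu (fun a => (T.p3 a).le) r2 m.anti T.i1 T.i2 (GANrA.neg ht) hν).1
  obtain ⟨u1, e1⟩ : ∃ u1, u1 = 2 * C * u := ⟨_, rfl⟩
  have l0 : u ≤ C * u := le_mul_of_one_le_left (by linarith) c1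
  have l1 : C * u + 1 ≤ u1 := by linarith
  have l2 : u1 ≤ C * u1 := le_mul_of_one_le_left (by linarith) c1
  have T1 := T.up (show u ≤ u1 by linarith)
  have a2 := bx_up a1 r2 (show C * u ≤ u1 by linarith)
  have z3 := bx_up z1 r2 l1
  have b1 := (K.box hk (by linarith) r2 r2 m.anti T1.i4 T1.i4 a2 z3 a2 z3).1
  have b2 := bx_add' (K.ab hk (by linarith) T1 a2 z3)
    (bx_up z2 r1 (show C * u ≤ C * u1 by linarith)) r1
  rw [show C * u1 = 2 * C ^ 2 * u by rw [e1]; ring] at b1 b2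
  refine ⟨_, ?_, b1, by convert b2 using 1; abel⟩
  rw [e, ← mul_assoc, ex_swap fr, mul_assoc, m.mul]

/-- The relative `x₀ exp ν exp (t + w)` in the coordinates of any centre `y₀` near to it. -/
theorem rel {x₀ y₀ : Mt ι} {ν t w : κ → ℝ} (hy : IsUnit y₀) (hν : Bx r (exp u) ν)
    (ht : Bx R (exp u) t) (hw : Bx r (exp u) w)
    (h : Nr B r (exp u) y₀ (x₀ * ex B ν * ex B (t + w))) :
    Nr B r (exp (8 * C ^ 3 * u)) y₀ (x₀ * ex B t) ∧
      Bx r' (exp (8 * C ^ 3 * u)) (lg B y₀ (x₀ * ex B ν * ex B (t + w)) - lg B y₀ (x₀ * ex B t) -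
        Ad Φ.N c (-t) ν - Ew Φ.N c (-t) w) := by
  have m := sMul ι κ Φ B c fr
  have c1 := K.c1
  have r1 := fun a => (T.pos a).le
  have r2 := fun a => (T.p2 a).le
  obtain ⟨μ, e, b1, b2⟩ := rel0 K hk fr hu T hν ht hw
  obtain ⟨u2, e2⟩ : ∃ u2, u2 = 2 * C ^ 2 * u := ⟨_, rfl⟩
  rw [← e2] at b1 b2
  have l2 : u ≤ u2 := e2 ▸ le_mul_of_one_le_left (by linarith) (by nlinarith)
  have l3 : u2 ≤ C * u2 := le_mul_of_one_le_left (by linarith) c1
  have l4 : 4 * (C * u2) = 8 * C ^ 3 * u := by rw [e2]; ring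
  have T2 := T.up l2
  obtain ⟨w0, h0, e0⟩ := h
  have h1 := bx_up h0 r2 l2
  have d1 := (K.box hk (by linarith) r2 r2 m.anti T2.i4 T2.i4 h1 (GANrA.neg b1) h1
    (GANrA.neg b1)).1
  have d2 := K.ab hk (by linarith) T2 h1 (GANrA.neg b1)
  have e3 : x₀ * ex B t = y₀ * ex B (bch Φ.N c w0 (-μ)) := by
    rw [← m.mul, ← mul_assoc, ← e0, mul_assoc x₀, e, ← mul_assoc, mul_assoc, (m.neg _).2, mul_one]
  rw [e0, e3, m.lg _ _ hy, m.lg _ _ hy]
  refine ⟨⟨_, bx_up d1 r2 (by linarith), rfl⟩, ?_⟩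
  have := bx_up (bx_sub' (bx_up b2 r1 (show u2 + 1 ≤ C * u2 + 1 by linarith))
    (bx_up d2 r1 (show C * u2 ≤ C * u2 + 1 by linarith)) r1) r1
      (show C * u2 + 1 + 1 ≤ 8 * C ^ 3 * u by linarith)
  convert this using 1
  abel

/-- The cell of the relative is one of few, given the centre `x₀` and `t`. -/
theorem mate {x₀ : Mt ι} (hx : IsUnit x₀) {t : κ → ℝ} (ht : Bx R (exp u) t) :
    ∃ S : Finset (Mt ι), (S.card : ℝ) ≤ exp (2 * C ^ 3 * u) ∧ ∀ ν w, Bx r (exp u) ν →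
      Bx r (exp u) w → cell B r (x₀ * ex B ν * ex B (t + w)) ∈ S := by
  have c1 := K.c1
  have l : u ≤ 2 * C ^ 2 * u := le_mul_of_one_le_left (by linarith) (by nlinarith)
  obtain ⟨S, s1, s2⟩ := K.cell (r := r) (r' := r) rfl hk fr (hu.trans l) (fun a => ⟨T.p2 a,
    le_mul_of_one_le_left (T.p2 a).le (one_le_exp (by linarith))⟩) (T.up l).i4 (T.up l).i4
    (hx.mul (ex_unit fr t))
  refine ⟨S, ?_, fun ν w a b => s2 _ ?_⟩
  · simp only [div_self (T.p2 _).ne', Finset.prod_const_one, mul_one] at s1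
    exact s1.trans_eq (by congr 1; ring)
  · obtain ⟨μ, e, b1, -⟩ := rel0 K hk fr hu T a ht b
    exact ⟨μ, b1, by rw [mul_assoc x₀, e, mul_assoc]⟩

/-- The cell of the base point is one of few, given the centre `y₀` of the relative and `t`. -/
theorem mate' {y₀ : Mt ι} (hy : IsUnit y₀) {t : κ → ℝ} (ht : Bx R (exp u) t) :
    ∃ S : Finset (Mt ι), (S.card : ℝ) ≤ exp (8 * C ^ 4 * u) ∧ ∀ x w, Bx r (exp u) w →
      Nr B r (exp u) y₀ (x * ex B (t + w)) → cell B r x ∈ S := by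
  have m := sMul ι κ Φ B c fr
  have c1 := K.c1
  have c3 : 1 ≤ C ^ 3 := one_le_pow₀ c1
  have l1 : u ≤ u + 1 := by linarith
  have l : u + 1 ≤ 2 * C ^ 3 * (u + 1) := le_mul_of_one_le_left (by linarith) (by linarith)
  obtain ⟨S, s1, s2⟩ := mate K hk fr (hu.trans l1) (T.up l1) hy
    (GANrA.neg (bx_up ht (fun a => (T.p3 a).le) l1))
  refine ⟨S, s1.trans (exp_le_exp.2 ?_), fun x w a ⟨ν, b, e⟩ => ?_⟩
  · have : C ^ 3 ≤ C ^ 4 := pow_le_pow_right₀ c1 (by norm_num)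
    nlinarith
  · have := s2 ν (-w) (bx_up b (fun a => (T.p2 a).le) l1)
      (GANrA.neg (bx_up a (fun a => (T.p2 a).le) l1))
    rwa [← e, ← neg_add, mul_assoc, (m.neg _).2, mul_one] at this

end Rel

section Blk

variable {κ : Type} {r r' : κ → ℝ} {u : ℝ}

/-- Iterates of two close maps are close. -/
theorem it_cmp {f g : (κ → ℝ) → κ → ℝ} (hu : 0 ≤ u) (hr : ∀ a, 0 ≤ r' a)
    (fs : ∀ x y, f x - f y = f (x - y))
    (hf : ∀ v x, Bx r' (exp v) x → Bx r' (exp (u + v)) (f x))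
    (hg : ∀ v x, Bx r (exp v) x → Bx r (exp (u + v)) (g x))
    (hd : ∀ v x, Bx r (exp v) x → Bx r' (exp (u + v)) (f x - g x)) {v : ℝ} {x : κ → ℝ}
    (hx : Bx r (exp v) x) (n : ℕ) : Bx r (exp (n * u + v)) (g^[n] x) ∧
      Bx r' (exp (n * (u + 1) + v)) (f^[n] x - g^[n] x) := by
  induction n with
  | zero => exact ⟨by simpa using hx, by simpa using GANrA.zero (exp_pos v).le hr⟩
  | succ n ih =>
    simp only [Function.iterate_succ_apply']
    have n0 : (0 : ℝ) ≤ n := n.cast_nonneg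
    refine ⟨by convert hg _ _ ih.1 using 2; push_cast; ring, ?_⟩
    have a := hf _ _ ih.2
    rw [← fs] at a
    have := bx_add' a (bx_up (hd _ _ ih.1) hr (by linarith)) hr
    rw [sub_add_sub_cancel] at this
    convert this using 2
    push_cast; ring

/-- A series with coefficients of size at most one. -/
theorem bx_ser {v : ℝ} (hr : ∀ a, 0 ≤ r a) (m : ℕ) (q : ℕ → ℚ) (hq : ∀ n, |(q n : ℝ)| ≤ 1)
    (F : ℕ → κ → ℝ) (h : ∀ n < m, Bx r (exp v) (F n)) :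
    Bx r (exp (m + v)) (∑ n ∈ Finset.range m, q n • F n) := fun e => by
  rw [Finset.sum_apply]
  refine (Finset.abs_sum_le_sum_abs _ _).trans ((Finset.sum_le_card_nsmul _ _ (exp v * r e)
    fun j hj => ?_).trans ?_)
  · rw [Pi.smul_apply, Rat.smul_def, abs_mul]
    exact (mul_le_of_le_one_left (abs_nonneg _) (hq j)).trans (h j (Finset.mem_range.1 hj) e)
  · rw [Finset.card_range, nsmul_eq_mul, exp_add, mul_assoc]
    exact mul_le_mul_of_nonneg_right ((le_add_of_nonneg_right zero_le_one).trans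
      (add_one_le_exp _)) (mul_nonneg (exp_pos v).le (hr e))

theorem inv_fac (n : ℕ) : |((((n.factorial : ℚ))⁻¹ : ℚ) : ℝ)| ≤ 1 := by
  push_cast
  rw [abs_of_nonneg (by positivity)]
  exact inv_le_one_of_one_le₀ (Nat.one_le_cast.2 n.factorial_pos)

/-- Series in two close maps are close. -/
theorem ser_cmp {f g : (κ → ℝ) → κ → ℝ} (hu : 0 ≤ u) (hr : ∀ a, 0 ≤ r' a)
    (fs : ∀ x y, f x - f y = f (x - y))
    (hf : ∀ v x, Bx r' (exp v) x → Bx r' (exp (u + v)) (f x))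
    (hg : ∀ v x, Bx r (exp v) x → Bx r (exp (u + v)) (g x))
    (hd : ∀ v x, Bx r (exp v) x → Bx r' (exp (u + v)) (f x - g x)) {v : ℝ} {x : κ → ℝ}
    (hx : Bx r (exp v) x) (m : ℕ) (q : ℕ → ℚ) (hq : ∀ n, |(q n : ℝ)| ≤ 1) :
    Bx r' (exp (m * (u + 2) + v)) (∑ n ∈ Finset.range m, q n • f^[n] x -
      ∑ n ∈ Finset.range m, q n • g^[n] x) := by
  rw [← Finset.sum_sub_distrib]
  simp only [← smul_sub]
  convert bx_ser (v := m * (u + 1) + v) hr m q hq _ fun n hn =>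
    bx_up (it_cmp hu hr fs hf hg hd hx n).2 hr ?_ using 2
  · ring
  · have : (n : ℝ) ≤ m := by exact_mod_cast hn.le
    nlinarith

/-- A matrix acts on boxes. -/
theorem bx_mat [Fintype κ] {κ' : Type} {s : κ' → ℝ} {M : Matrix κ' κ ℝ} {k : ℕ}
    (hk : Fintype.card κ ≤ k) (hs : ∀ p, 0 ≤ s p) (h : ∀ p q, |M p q| * r q ≤ exp u * s p) {v : ℝ}
    {x : κ → ℝ} (hx : Bx r (exp v) x) : Bx s (exp (u + k + v)) (M.mulVec x) := fun p => by
  have h0 : 0 ≤ exp v * (exp u * s p) := by have := hs p; positivity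
  refine (Finset.abs_sum_le_sum_abs _ _).trans ((Finset.sum_le_card_nsmul _ _
    (exp v * (exp u * s p)) fun q _ => ?_).trans ?_)
  · rw [abs_mul]
    exact (mul_le_mul_of_nonneg_left (hx q) (abs_nonneg _)).trans
      (le_of_eq_of_le (by ring) (mul_le_mul_of_nonneg_left (h p q) (exp_pos v).le))
  · rw [nsmul_eq_mul, exp_add, exp_add]
    have : ((Finset.univ : Finset κ).card : ℝ) ≤ exp k :=
      (show _ ≤ (k : ℝ) by exact_mod_cast hk).trans
        ((le_add_of_nonneg_right zero_le_one).trans (add_one_le_exp _))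
    exact (mul_le_mul_of_nonneg_right this h0).trans_eq (by ring)

end Blk

end Pool.Agent.MP_5168f5_an.AN.GA.CR
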