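import Pool.Agent.MP_5168f5_an.AN.GAAll2

/-! The logarithmic derivative of the exponential as a series, and the remainder of order two. -/

namespace Pool.Agent.MP_5168f5_an.AN.GA.CR

open H61Z IsNilpotent Polynomial GAMulA GADbA GABoxA

theorem dexp_eq {A : Type} [Ring A] [Algebra ℚ A] (D : A →ₗ[ℚ] A)
    (hD : ∀ x y, D (x * y) = D x * y + x * D y) {Z : A} (hn : IsNilpotent Z) {k : ℕ}
    (hk : (cm Z)^[k] (D Z) = 0) : D (exp Z) * exp (-Z) =
      ∑ n ∈ Finset.range k, (((n + 1).factorial : ℚ))⁻¹ • (cm Z)^[n] (D Z) := by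
  obtain ⟨K, h⟩ := hn
  have h1 : D 1 = 0 := by
    have := hD 1 1
    simpa using this
  set P : A[X] := H61Z.ser K fun n => ((n.factorial : ℚ))⁻¹ • D (Z ^ n) with hP
  have cP : ∀ n, P.coeff n = ((n.factorial : ℚ))⁻¹ • D (Z ^ n) :=
    coeff_ser fun n hn => by rw [pow_eq_zero_of_le hn h, map_zero, smul_zero]
  have dP : derivative P = C Z * P + C (D Z) * eser K Z := by
    ext n
    rw [coeff_der, coeff_add, coeff_C_mul, coeff_C_mul, cP, cP, coeff_eser h, fact_step,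
      pow_succ', hD, smul_add, mul_smul_comm, mul_smul_comm, add_comm]
  have eP : ev1 P = D (exp Z) := by
    rw [hP, ev1_ser, exp_eq_sum h, map_sum]; simp
  set B : A[X] := P * eser K (-Z) with hB
  have dB : derivative B = C (D Z) + (C Z * B - B * C Z) := by
    rw [hB, derivative_mul, dP, der_eser' (neg_pow_zero h), add_mul, mul_assoc (C (D Z)),
      eser_mul_neg h, map_neg]
    noncomm_ring
  have b0 : B.coeff 0 = 0 := by
    rw [hB, mul_coeff_zero, cP]; simp [h1]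
  have bs : ∀ n, B.coeff (n + 1) = (((n + 1 : ℕ) : ℚ))⁻¹ •
      ((C (D Z)).coeff n + (Z * B.coeff n - B.coeff n * Z)) := by
    intro n
    rw [coeff_succ_eq, dB, coeff_add, coeff_sub, coeff_C_mul, coeff_mul_C]
  have bn : ∀ n, B.coeff (n + 1) = (((n + 1).factorial : ℚ))⁻¹ • (cm Z)^[n] (D Z) := by
    intro n
    induction n with
    | zero => have := bs 0; rw [b0] at this; simpa using this
    | succ n ih =>
      rw [bs, ih, coeff_C, if_neg (by omega), zero_add, Function.iterate_succ_apply',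
        mul_smul_comm, smul_mul_assoc, ← smul_sub, smul_smul, Nat.factorial_succ (n + 1)]
      congr 1
      push_cast
      rw [mul_inv]
  have z : ∀ n, k ≤ n → (cm Z)^[n] (D Z) = 0 := fun n e => by
    obtain ⟨j, rfl⟩ := Nat.exists_eq_add_of_le' e
    rw [Function.iterate_add_apply, hk]
    exact Function.iterate_fixed (by simp [cm]) j
  have e : B = H61Z.ser (k + 1) B.coeff := by
    ext n
    rw [coeff_ser fun m hm => ?_]
    obtain ⟨j, rfl⟩ := Nat.exists_eq_add_of_le' ((Nat.le_add_left 1 k).trans hm)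
    rw [bn, z j (by omega), smul_zero]
  have e2 := congrArg ev1 e
  rw [ev1_ser, Finset.sum_range_succ', b0, add_zero, hB, map_mul, eP,
    ev1_eser (neg_pow_zero h)] at e2
  rw [e2]
  exact Finset.sum_congr rfl fun n _ => bn n

variable {ι κ : Type} [Fintype ι] [DecidableEq ι] [Fintype κ] {Φ : Filt (Mt ι)}
  {B : κ → Mt ι} {c : κ → κ → κ → ℝ}

theorem vl_it (h : IsFr Φ B c) (x w : κ → ℝ) (k : ℕ) :
    vl B ((br c x)^[k] w) = (cm (vec B x))^[k] (vec B w) := by
  induction k with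
  | zero => rfl
  | succ k ih => rw [Function.iterate_succ_apply', Function.iterate_succ_apply', vbr h, ih]; rfl

/-- Long iterated brackets vanish. -/
theorem it_zero (h : IsFr Φ B c) (x w : κ → ℝ) {k : ℕ} (hk : Φ.N ≤ k) : (br c x)^[k] w = 0 :=
  inj h (by
    rw [vl_it h, map_zero]
    exact Φ.bot _ (Φ.mono hk (GAAdA.mem Φ (h.mem x) (h.mem w) k)))

theorem sum_range (h : IsFr Φ B c) (q : ℕ → ℚ) (x w : κ → ℝ) {m m' : ℕ} (hm : Φ.N ≤ m)
    (hm' : Φ.N ≤ m') : ∑ k ∈ Finset.range m, q k • (br c x)^[k] w =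
      ∑ k ∈ Finset.range m', q k • (br c x)^[k] w := by
  have e : ∀ m, Φ.N ≤ m → ∑ k ∈ Finset.range Φ.N, q k • (br c x)^[k] w =
      ∑ k ∈ Finset.range m, q k • (br c x)^[k] w := fun m hm =>
    Finset.sum_subset (Finset.range_subset_range.2 hm) fun k _ a => by
      rw [it_zero h x w (by simpa using a), smul_zero]
  rw [← e m hm, e m' hm']

/-- The adjoint action, with any long enough range. -/
theorem ad_range (h : IsFr Φ B c) (x w : κ → ℝ) {m : ℕ} (hm : Φ.N ≤ m) :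
    Ad Φ.N c x w = ∑ k ∈ Finset.range m, ((k.factorial : ℚ))⁻¹ • (br c x)^[k] w :=
  sum_range h _ x w (Nat.le_succ _) hm

/-- The derivation of the dual numbers. -/
noncomputable def dd (A : Type) [Ring A] [Algebra ℚ A] :
    TrivSqZeroExt A A →ₗ[ℚ] TrivSqZeroExt A A where
  toFun x := TrivSqZeroExt.inr x.snd
  map_add' x y := by rw [TrivSqZeroExt.snd_add, TrivSqZeroExt.inr_add]
  map_smul' q x := TrivSqZeroExt.ext (by simp) (by simp)

/-- The logarithmic derivative as a series. -/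
theorem ew_eq (h : IsFr Φ B c) (x w : κ → ℝ) {m : ℕ} (hm : Φ.N ≤ m) :
    Ew Φ.N c x w = ∑ k ∈ Finset.range m, (((k + 1).factorial : ℚ))⁻¹ • (br c x)^[k] w := by
  have mu := sMul ι κ Φ B c h
  have it : ∀ k, (cm (ph B x w))^[k] (dd _ (ph B x w)) =
      TrivSqZeroExt.inr (vl B ((br c x)^[k] w)) := fun k => by
    induction k with
    | zero => rfl
    | succ k ih =>
      rw [Function.iterate_succ_apply', Function.iterate_succ_apply', ih, vbr h]
      refine TrivSqZeroExt.ext (by simp [cm]) ?_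
      simp [cm, ph_fst]
  have e := dexp_eq (dd (Mt ι)) (fun a b => TrivSqZeroExt.ext (by simp [dd])
    (by simp [dd, add_comm])) ((dF Φ).nil (x := ph B x w) ⟨h.mem x, h.mem w⟩) (k := m)
    (by rw [it, it_zero h x w hm, map_zero, TrivSqZeroExt.inr_zero])
  have n : -ph B x w = ph B (-x) (-w) :=
    TrivSqZeroExt.ext (by simp [ph_fst]) (by simp [ph_snd])
  simp only [it] at e
  have e2 := congrArg TrivSqZeroExt.snd e
  rw [snd_mul', n, (key h (-x) (-w)).1] at e2
  simp only [dd, LinearMap.coe_mk, AddHom.coe_mk, TrivSqZeroExt.fst_inr, zero_mul, zero_add,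
    TrivSqZeroExt.snd_inr, (key h x w).2, TrivSqZeroExt.snd_sum, TrivSqZeroExt.snd_smul] at e2
  rw [mul_assoc, (mu.neg x).2, mul_one] at e2
  refine inj h ?_
  rw [e2, map_sum]
  simp only [map_rat_smul]

/-- The left logarithmic derivative. -/
theorem lw_eq (h : IsFr Φ B c) (t w : κ → ℝ) : dbch Φ.N c (-t) t 0 w = Ew Φ.N c (-t) w := by
  have mu := sMul ι κ Φ B c h
  have n : ph B (-t) (-w) = -ph B t w :=
    TrivSqZeroExt.ext (by simp [ph_fst]) (by simp [ph_snd])
  have e := main h (-t) t (-w) w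
  rw [n, exp_neg_mul_exp_self ((dF Φ).nil (x := ph B t w) ⟨h.mem t, h.mem w⟩), (mu.inv t).1,
    exp_r] at e
  have e2 := congrArg TrivSqZeroExt.snd e
  simp only [TrivSqZeroExt.snd_one, TrivSqZeroExt.snd_add, TrivSqZeroExt.snd_inr, zero_add] at e2
  have e3 : dbch Φ.N c (-t) t (-w) w = 0 := inj h (by rw [← e2, map_zero])
  have a := (sLin κ ℝ Φ.N c).2.2.2.1 (-t) t (-w) w w 0
  rw [e3, zero_add, neg_add_cancel, add_zero] at a
  rw [a, Ew, neg_neg]

section Rem

variable {α : Type} {R r r' s t : κ → ℝ} {L X Y : ℝ} {k : ℕ}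

/-- The bracket of two boxes, with three systems of radii. -/
theorem bx3 {r₁ r₂ r₃ : κ → ℝ} (hk : Fintype.card κ ≤ k) (hL : 0 ≤ L) (hX : 0 ≤ X) (hY : 0 ≤ Y)
    (hr : ∀ a, 0 ≤ r₃ a) (h : ∀ a b e, |c a b e| * r₁ a * r₂ b ≤ L * r₃ e) (hs : Bx r₁ X s)
    (ht : Bx r₂ Y t) : Bx r₃ (k ^ 2 * L * (X * Y)) (br c s t) := fun e => by
  have h0 : 0 ≤ X * Y * (L * r₃ e) := by have := hr e; positivity
  have h1 : ∀ a b, |c a b e * s a * t b| ≤ X * Y * (L * r₃ e) := fun a b => by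
    rw [abs_mul, abs_mul]
    refine (mul_le_mul (mul_le_mul_of_nonneg_left (hs a) (abs_nonneg _)) (ht b) (abs_nonneg _)
      (mul_nonneg (abs_nonneg _) ((abs_nonneg _).trans (hs a)))).trans ?_
    exact le_of_eq_of_le (by ring) (mul_le_mul_of_nonneg_left (h a b e) (mul_nonneg hX hY))
  have h2 : ∀ (f : κ → ℝ) (Z : ℝ), 0 ≤ Z → (∀ a, |f a| ≤ Z) → |∑ a, f a| ≤ k * Z :=
    fun f Z z hf => (Finset.abs_sum_le_sum_abs _ _).trans ((Finset.sum_le_card_nsmul _ _ Z
      fun a _ => hf a).trans (by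
        rw [nsmul_eq_mul]
        exact mul_le_mul_of_nonneg_right (by exact_mod_cast hk) z))
  exact (h2 _ _ (by positivity) fun a => h2 _ _ h0 (h1 a)).trans_eq (by ring)

/-- The remainder of order two of a word. -/
theorem w4 (hk : Fintype.card κ ≤ k) (hL : 1 ≤ L) (hr : ∀ a, 0 ≤ R a ∧ 0 ≤ r a ∧ 0 ≤ r' a)
    (ha : ∀ a b e, c a b e = -c b a e) (h : Idl c R R L) (h' : Idl c R r L) (h'' : Idl c R r' L)
    (ab : ∀ a b e, |c a b e| * r a * r b ≤ L * r' e) {f f' g : α → κ → ℝ}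
    (hf : ∀ i, Bx R L (f i)) (hf' : ∀ i, Bx R L (f' i)) (hg : ∀ i, Bx r L (g i))
    (e : ∀ i, f' i - f i = g i) (w : Wd α) :
    Bx r' (((4 * k ^ 2 + 4) * L ^ 3) ^ (2 * w.len - 1))
      (w.ev (br c) f' - w.ev (br c) f - w.dv (br c) f g) := by
  have h0 : (0 : ℝ) ≤ k ^ 2 * L := by positivity
  have l3 : L ≤ L ^ 3 := le_self_pow₀ hL (by norm_num)
  have l1 : (1 : ℝ) ≤ (2 * k ^ 2 + 2) * L := by nlinarith
  have lm : (2 * k ^ 2 + 2) * L ≤ (4 * k ^ 2 + 4) * L ^ 3 :=
    mul_le_mul (by nlinarith [sq_nonneg (k : ℝ)]) l3 (by positivity) (by positivity)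
  induction w with
  | of i =>
    intro a
    simp only [Wd.ev, Wd.dv, e i, sub_self, Pi.zero_apply, abs_zero]
    have := (hr a).2.2
    positivity
  | br u v a b =>
    have p : ∀ w : Wd α, ((2 * k ^ 2 + 2) * L) ^ (2 * w.len - 1) ≤
      ((4 * k ^ 2 + 4) * L ^ 3) ^ (2 * w.len - 1) := fun w => pow_le_pow_left₀ (by positivity) lm _
    have q1 := fun w : Wd α => mono (w1 hk hL (fun a => (hr a).1) h hf w) (fun a => (hr a).1) (p w)
    have q2 := fun w : Wd α => mono (w2 hk hL (η := L) (by positivity)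
      (fun a => ⟨(hr a).1, (hr a).2.1⟩) ha h h' hf' hf (fun i => e i ▸ hg i) w)
        (fun a => (hr a).2.1) (mul_le_mul_of_nonneg_right (p w) (by positivity))
    have r2 := fun a => (hr a).2.2
    intro x
    have a1 := bx3 hk (by positivity) (by positivity) (by positivity) r2 ab (q2 u) (q2 v) x
    have a2 := bx hk (by positivity) (by positivity) (by positivity) r2 h'' (q1 u) b x
    have a3 := bx hk (by positivity) (by positivity) (by positivity) r2 h'' (q1 v) a x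
    rw [br_anti ha] at a3
    rw [pw]
    obtain ⟨U, hU⟩ : ∃ U, U = ((4 * k ^ 2 + 4) * L ^ 3) ^ (2 * u.len - 1) := ⟨_, rfl⟩
    obtain ⟨V, hV⟩ : ∃ V, V = ((4 * k ^ 2 + 4) * L ^ 3) ^ (2 * v.len - 1) := ⟨_, rfl⟩
    rw [← hU, ← hV] at a1 a2 a3 ⊢
    have u0 : 0 ≤ U * V * r' x := by rw [hU, hV]; have := r2 x; positivity
    have k0 : 0 ≤ (k : ℝ) ^ 2 * (U * V * r' x) := by positivity
    have a4 := mul_le_mul_of_nonneg_left l3 k0
    have a5 : 0 ≤ L ^ 3 * (U * V * r' x) := by positivity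
    have a6 : 0 ≤ L ^ 3 * ((k : ℝ) ^ 2 * (U * V * r' x)) := by positivity
    simp only [br_sub_left, br_sub_right, Wd.ev, Wd.dv, Pi.sub_apply, Pi.add_apply,
      Pi.neg_apply] at a1 a2 a3 ⊢
    rw [abs_le] at a1 a2 a3 ⊢
    constructor <;> nlinarith [a1.1, a1.2, a2.1, a2.2, a3.1, a3.2]

end Rem

end Pool.Agent.MP_5168f5_an.AN.GA.CR
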