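import Pool.Agent.MP_4b405e_nt.SK.GNr0
import Pool.Agent.MP_4b405e_nt.SK.CRD3
import Pool.Agent.MP_4b405e_nt.SK.CAc4

/-! Sparse heights, block C: the contexts of a point and of its relative determine each other. -/

namespace Pool.Agent.MP_5168f5_an.QA.SC

open H19 H17S H17F R4 AN Filter Matrix Real Finset
open GA (Mt IsFr br mB mC sB sC cell Bx Idl ex rnd vec)
open GA.CR GN

variable {ι κ : Type} [Fintype ι] [DecidableEq ι] [Fintype κ] [DecidableEq κ] {σ : Kk ι κ}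
  {Y : Wd ι κ} {p : Pm} {K e w r δ : ℝ}

namespace RM

theorem det_fn {Ω α β γ : Type} {P : FP Ω} {F : Ω → α} {F' : Ω → γ} {G : Ω → β} {B : ℝ}
    (h : Det P F' G B) (f : ∀ a ∈ P.S, ∀ b ∈ P.S, G a = G b → F' a = F' b → F a = F b) :
    Det P F G B := by
  classical
  intro a ha
  obtain ⟨T, t1, t2⟩ := h a ha
  let g : γ → α := fun z => if q : ∃ b ∈ P.S, G b = G a ∧ F' b = z then F q.choose else F a
  refine ⟨T.image g, (Nat.cast_le.2 card_image_le).trans t1, fun ω o1 o3 =>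
    mem_image.2 ⟨_, t2 ω o1 o3, ?_⟩⟩
  have q : ∃ b ∈ P.S, G b = G a ∧ F' b = F' ω := ⟨ω, o1, o3, rfl⟩
  exact (dif_pos q).trans (f _ q.choose_spec.1 ω o1 (q.choose_spec.2.1.trans o3.symm)
    q.choose_spec.2.2)

theorem det_mono {Ω α β : Type} {P : FP Ω} {F : Ω → α} {G : Ω → β} {B B' : ℝ} (h : Det P F G B)
    (l : B ≤ B') : Det P F G B' := fun a ha => (h a ha).imp fun _ k => ⟨k.1.trans l, k.2⟩

theorem mul_ex {x y a b : ℝ} (h : |x| ≤ exp a) (h' : |y| ≤ exp b) : |x * y| ≤ exp (a + b) := by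
  rw [abs_mul, exp_add]; exact mul_le_mul h h' (abs_nonneg _) (exp_pos a).le

theorem add_ex {x y a : ℝ} (h : |x| ≤ exp a) (h' : |y| ≤ exp a) : |x + y| ≤ exp (a + 1) :=
  (abs_add_le _ _).trans ((add_le_add h h').trans (two_exp a))

/-- The source is bounded. -/
theorem src {k i i' : ℕ} {a b : Y.Ω} (h : Y.Ok σ e w) (ok : σ.Ok) (hk : Fintype.card κ ≤ k)
    (V : Y.Val σ e r i a) (ha : a ∈ Y.P.S) (hb : b ∈ Y.P.S) (li : i ≤ i') (hi : i' ≤ Y.nT)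
    (c' : Y.Cp i' a = Y.Cp i' b) {d : ℝ} (d0 : 0 ≤ d) (hd : Y.D i + d ≤ Y.D i') {s q : κ}
    (np : ¬σ.Nn s) (nq : σ.Nn q) (hr : σ.wt q * d ≤ r) :
    |Y.φ σ i (Y.cp i a) b s q - Y.φ σ i (Y.cp i a) a s q| ≤ exp (3 * e + 2 * k - σ.wt q * d) := by
  obtain ⟨-, -, a3⟩ := h.phi ok hk V ha (li.trans hi) rfl
  have e1 : Y.φ σ i (Y.cp i a) b s q - Y.φ σ i (Y.cp i a) a s q =
      ∑ f, (Y.X.R a b - 1) s f * Y.φ σ i (Y.cp i a) a f q := by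
    rw [← mul_apply, sub_mul, one_mul, Matrix.sub_apply, Wd.φ, Wd.φ, h.coc _ V.mem.1 a ha b hb,
      mul_assoc]
  rw [e1, show 3 * e + 2 * k - σ.wt q * d = k + (3 * e + k - σ.wt q * d) by ring, exp_add]
  refine sum_le hk (exp_pos _).le fun f => ?_
  by_cases z : Y.X.R a b s f = (1 : Matrix κ κ ℝ) s f
  · rw [Matrix.sub_apply, z, sub_self, zero_mul, abs_zero]; exact (exp_pos _).le
  have nf := (h.gmR ok ha hb s f z).2
  have t := h.rr i' hi a ha b hb c' s f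
  rw [vt_eq ok np, sub_zero, abs_mul, abs_of_pos (exp_pos _), ← le_div_iff₀' (exp_pos _),
    ← exp_sub] at t
  rw [Matrix.sub_apply, one_apply_ne fun n : s = f => np (n ▸ nf), sub_zero]
  have v := mul_le_mul_of_nonneg_left hd (vt0 ok f)
  have k0 : (0 : ℝ) ≤ k := k.cast_nonneg
  rcases lt_or_ge (σ.vt f) (σ.wt q) with l | l
  · have y := V.v2 f q nf nq l
    rw [abs_mul, abs_of_pos (exp_pos _), ← le_div_iff₀' (exp_pos _), ← exp_sub] at y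
    refine (mul_ex t y).trans (exp_le_exp.2 ?_)
    linarith [h.e0, mul_nonneg (vt0 ok f) d0]
  · refine (mul_ex t (a3 f q)).trans (exp_le_exp.2 ?_)
    linarith [mul_le_mul_of_nonneg_right l d0]

/-- The constants are large enough. -/
structure Lg (σ : Kk ι κ) (K : ℝ) : Prop where
  k1 : Fintype.card κ + 6 ≤ K
  k2 : ∀ a, σ.vt a + 6 ≤ K
  k3 : ∀ a b f, 2 * σ.mu a + 2 * σ.wt b ≤ K * min 1 (σ.wt f)
  k4 : (σ.C : ℝ) ≤ K

omit [DecidableEq κ] in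
theorem ex_lg (h : σ.Ok) (M : ℝ) : ∃ K, Lg σ K ∧ M ≤ K := by
  obtain ⟨A, hA⟩ := Finite.exists_le fun a => σ.vt a + 6
  obtain ⟨B, hB⟩ := Finite.exists_le fun x : κ × κ × κ =>
    (2 * σ.mu x.1 + 2 * σ.wt x.2.1) / min 1 (σ.wt x.2.2)
  obtain ⟨K, K1, K2, K3, K4, K5⟩ : ∃ K : ℝ, Fintype.card κ + 6 ≤ K ∧ A ≤ K ∧ B ≤ K ∧ σ.C ≤ K ∧
      M ≤ K := ⟨max (max _ _) (max _ (max _ _)), le_max_of_le_left (le_max_left _ _),
    le_max_of_le_left (le_max_right _ _), le_max_of_le_right (le_max_left _ _),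
    le_max_of_le_right (le_max_of_le_right (le_max_left _ _)),
    le_max_of_le_right (le_max_of_le_right (le_max_right _ _))⟩
  exact ⟨K, ⟨K1, fun a => (hA a).trans K2, fun a b f =>
    (div_le_iff₀ (lt_min one_pos (h.w0 f))).1 ((hB (a, b, f)).trans K3), K4⟩, K5⟩

omit [DecidableEq κ] in
theorem Lg.two (L : Lg σ K) : 2 ≤ K := by
  linarith [L.k1, Nat.cast_nonneg (α := ℝ) (Fintype.card κ)]

/-- The range of the parameters. -/
structure Rg (Y : Wd ι κ) (p : Pm) (x : Par) : Prop where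
  i : x.1 < Y.nD
  t : x.2.1 ≤ p.N
  l : x.2.2.1 ≤ p.L
  d : x.2.2.2 ≤ p.L

theorem dp_le (h : σ.Ok) (L : Lg σ K) (H : Y.Hyp σ p K e w r δ) {x : Par} (R : Rg Y p x) (f : κ) :
    (Wd.dp p x : ℝ) ≤ p.xA ∧ σ.wt f * Wd.dp p x ≤ p.xA := by
  have k2 := L.two
  obtain ⟨-, -, -, o3, -⟩ := D3.ord H (by linarith)
  have a : (Wd.dp p x : ℝ) ≤ 2 * p.d0 := by
    have : (x.2.2.2 : ℝ) ≤ p.L := Nat.cast_le.2 R.d
    unfold Wd.dp; push_cast; linarith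
  have d0 : (0 : ℝ) ≤ p.d0 := Nat.cast_nonneg _
  have b := (L.k3 f f f).trans (mul_le_of_le_one_right (by linarith) (min_le_left _ _))
  exact ⟨by nlinarith [H.num.dx], by
    nlinarith [H.num.dx, h.m0 f, mul_le_mul_of_nonneg_left a (h.w0 f).le]⟩

theorem i1_le (h : σ.Ok) (L : Lg σ K) (H : Y.Hyp σ p K e w r δ) {x : Par} (R : Rg Y p x) :
    x.1 ≤ Y.i1 p x ∧ Y.i1 p x ≤ x.1 + p.kD ∧ x.1 + p.kD ≤ Y.nT ∧
      Y.D x.1 + Wd.dp p x ≤ Y.D (Y.i1 p x) := by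
  obtain ⟨-, -, -, -, -, o5, -⟩ := D3.ord H (by linarith [L.two])
  have m := H.ok.ms.1
  refine ⟨Nat.le_add_right _ _, Nat.add_le_add_left (Nat.ceil_le.2 ((div_le_iff₀ m).2
    ((dp_le h L H R σ.τ).1.trans o5))) _, by have := H.num.nT; have := R.i; omega, ?_⟩
  have := (div_le_iff₀ m).1 (Nat.le_ceil ((Wd.dp p x : ℝ) / Y.ms))
  unfold Wd.D Wd.i1
  push_cast
  linarith

omit [Fintype κ] [DecidableEq κ] in
theorem ss_nn (h : σ.Ok) (x : Par) {f : κ} (n : σ.Nn f) :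
    exp (-(σ.mu f * Wd.lv σ p x + σ.wt f * Wd.dp p x)) ≤ Wd.ss σ p x f := by
  have a := (D3.flo (add_nonneg (mul_nonneg (h.m0 f) (Nat.cast_nonneg x.2.2.1))
    (mul_nonneg (h.w0 f).le (Nat.cast_nonneg x.2.2.2)))).2
  rw [Wd.ss, if_pos n, Wd.r0, rad_nn h _ _ _ _ n, le_div_iff₀ (by positivity),
    ← exp_log (show (0 : ℝ) < 2 ^ Wd.nn σ x f by positivity), ← exp_add, log_two_pow]
  refine exp_le_exp.2 ?_
  unfold Wd.lv Wd.dp Wd.nn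
  push_cast
  linarith

omit [Fintype κ] [DecidableEq κ] in
theorem ss_off (x : Par) {f : κ} (n : ¬σ.Nn f) : Wd.ss σ p x f = Wd.r0 σ p x.2.1 f := if_neg n

/-- The tower of the chart. -/
theorem tow (h : σ.Ok) (L : Lg σ K) (H : Y.Hyp σ p K e w r δ) {x : Par} (R : Rg Y p x) {ω : Y.Ω}
    (hω : ω ∈ Y.P.S) (hE : Y.E x.1 ω) : IsFr σ.Φ (Y.Bk σ x.1 (Y.cp x.1 ω)) (Y.ck σ x.1 (Y.cp x.1 ω)) ∧
      Tow (Y.ck σ x.1 (Y.cp x.1 ω)) (rh σ.mu (Wd.l0 σ p x.2.1) fun a => σ.mu a * x.2.2.1)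
        (Wd.r0 σ p x.2.1) (Wd.ss σ p x) (9 * e) := by
  obtain ⟨f, c⟩ := D3.ca h H L.k1 L.k2 R.i hω hE
  have r1 := D3.rad_eq (p := p) h x.2.1 (Wd.nn σ x)
  have l1 : (x.2.2.1 : ℝ) ≤ p.L := Nat.cast_le.2 R.l
  refine ⟨f, ?_⟩
  rw [show Wd.ss σ p x = _ from r1.2, r1.1]
  exact D3.tw h H L.k1 L.k3 c R.t (Nat.cast_nonneg _) (by linarith [Nat.cast_nonneg (α := ℝ) p.L])
    (Nat.cast_nonneg _) (Nat.cast_le.2 R.d) fun b => by
      have := D3.flo (add_nonneg (mul_nonneg (h.m0 b) (Nat.cast_nonneg x.2.2.1))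
        (mul_nonneg (h.w0 b).le (Nat.cast_nonneg x.2.2.2)))
      exact ⟨by unfold Wd.nn; linarith [this.1], this.2⟩

/-- The support of the law. -/
theorem mem (h : σ.Ok) (L : Lg σ K) (H : Y.Hyp σ p K e w r δ) {z : (Y.bd σ p).Ω}
    (hz : z ∈ (Y.P2 σ p).S) : Rg Y p z.1 ∧ z.2.1.2 ∈ Y.P.S ∧ z.2.2 ∈ Y.P.S ∧ Y.E z.1.1 z.2.1.2 ∧
      Wd.lv σ p z.1 ≤ Y.W ∧ Y.Q (Wd.lv σ p z.1) z.2.1.2 = Y.Q (Wd.lv σ p z.1) z.2.2 ∧
      Y.lam z.2.1.2 = Y.lam z.2.2 ∧ Y.cp z.1.1 z.2.2 = Y.cp z.1.1 z.2.1.2 := by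
  obtain ⟨z1, z2⟩ := Wd.AcA.memE h H L.two hz
  obtain ⟨hx, z3⟩ := (mem_bind _ _ _).1 z1
  obtain ⟨m1, m2, m3, m4, -⟩ := Haz.mem_rel _ z3
  have w1 := (Wd.AcA.win h H L.two L.k4 hx).1
  obtain ⟨x0, x1⟩ := (mem_bind _ _ _).1 hx
  obtain ⟨x1, x2⟩ := (mem_bind _ _ _).1 x1
  obtain ⟨x2, x3⟩ := (mem_bind _ _ _).1 x2
  have y0 := Wd.AcA.mem_un x0
  have y1 := Wd.AcA.mem_un x1
  have y2 := Wd.AcA.mem_un x2
  have y3 := Wd.AcA.mem_un x3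
  have n0 := Wd.AcA.nD_pos H L.two
  have q : ∀ c ≤ Wd.lv σ p z.1, Y.Q c z.2.1.2 = Y.Q c z.2.2 := fun c hc =>
    Haz.fnO (P := Y.P) ((Nat.add_le_add_left hc _).trans (mem_Ico.1 m1).1) _ m2 _ m3 m4.symm
  have la := H.ok.top _ m2 _ m3 (q 0 (Nat.zero_le _))
  have := H.num.nT
  exact ⟨⟨by omega, by omega, by omega, by omega⟩, m2, m3, z2, by omega, q _ le_rfl, la,
    Prod.ext (H.ok.fC _ (by omega) _ m3 _ m2 la.symm) (H.st.fs _ _ m3 _ m2 la.symm)⟩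

open Classical in
/-- The main part of the increment. -/
noncomputable def th (σ : Kk ι κ) (Y : Wd ι κ) (p : Pm) (x : Par) (b : σ.Al → ℝ) (ω : Y.Ω) :
    κ → ℝ := (fun a => if g : σ.toKc.G1 a then exp (-(σ.mu a * Wd.lv σ p x)) * b ⟨a, g⟩ else 0) ᵥ*
      Y.φ σ x.1 (Y.cp x.1 ω) (Y.v1 x.1 (Y.i1 p x) ω)

/-- The near identity. -/
theorem near (h : σ.Ok) (L : Lg σ K) (H : Y.Hyp σ p K e w r δ) {x : Par} (R : Rg Y p x) {ω v : Y.Ω}
    (hω : ω ∈ Y.P.S) (hv : v ∈ Y.P.S) (hE : Y.E x.1 ω) (lW : Wd.lv σ p x ≤ Y.W)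
    (q : Y.Q (Wd.lv σ p x) ω = Y.Q (Wd.lv σ p x) v) :
    Bx (rh σ.mu (Wd.l0 σ p x.2.1) fun a => σ.mu a * x.2.2.1) (exp (9 * e))
      (th σ Y p x (Y.bb σ p x ω v) ω) ∧
    Bx (Wd.ss σ p x) (exp (9 * e))
      (Y.t ω v ᵥ* Y.φ σ x.1 (Y.cp x.1 ω) ω - th σ Y p x (Y.bb σ p x ω v) ω) ∧
    Y.X.j v = Y.X.j ω * ex (Y.Bk σ x.1 (Y.cp x.1 ω)) (th σ Y p x (Y.bb σ p x ω v) ω +
      (Y.t ω v ᵥ* Y.φ σ x.1 (Y.cp x.1 ω) ω - th σ Y p x (Y.bb σ p x ω v) ω)) := by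
  classical
  have k2 := L.two
  obtain ⟨e1, -, -, -, -, -, o6, o7⟩ := D3.ord H (by linarith)
  obtain ⟨j1, j2, j3, j4⟩ := i1_le h L H R
  have iT : x.1 ≤ Y.nT := by omega
  have V := H.st.val _ R.i ω hω hE
  obtain ⟨u1, u2, u3⟩ := N2.rep_spec (A := fun y => (Y.cp x.1 y, Y.Cp (Y.i1 p x) y)) hω hE
  obtain ⟨u, hu⟩ : ∃ u, u = Y.v1 x.1 (Y.i1 p x) ω := ⟨_, rfl⟩
  rw [show N2.rep Y.P (fun y => (Y.cp x.1 y, Y.Cp (Y.i1 p x) y)) (Y.E x.1) ω = u from hu.symm]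
    at u1 u2 u3
  have u4 : Y.cp x.1 u = Y.cp x.1 ω := congrArg Prod.fst u3
  have u5 : Y.Cp (Y.i1 p x) u = Y.Cp (Y.i1 p x) ω := congrArg Prod.snd u3
  obtain ⟨g0, g1, g2⟩ := H.ok.phi h le_rfl V hω iT rfl
  obtain ⟨g3, -, g4⟩ := H.ok.phi h le_rfl V u1 iT (congrArg Prod.fst u4)
  have ic := H.ok.inc _ lW ω hω v hv q
  have ke : (Fintype.card κ : ℝ) + 6 ≤ e := L.k1.trans H.num.e1
  have c0 : (0 : ℝ) ≤ Fintype.card κ := Nat.cast_nonneg _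
  have nb : (p.xA : ℝ) ≤ p.nb * lg := by
    have := Real.log_two_gt_d9
    unfold lg
    nlinarith [H.num.xn, Nat.cast_nonneg (α := ℝ) p.xA, Nat.cast_nonneg (α := ℝ) p.nb]
  have x0 : (0 : ℝ) ≤ p.xA := Nat.cast_nonneg _
  have lv : (Wd.lv σ p x : ℝ) = Wd.l0 σ p x.2.1 + x.2.2.1 := by unfold Wd.lv; push_cast; rfl
  have na : ∀ {a}, σ.toKc.G1 a → ¬σ.Nn a := fun q y => (ne_of_lt y).symm q.2
  have b1 : ∀ a (g : σ.toKc.G1 a), |Y.t ω v a - exp (-(σ.mu a * Wd.lv σ p x)) *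
      Y.bb σ p x ω v ⟨a, g⟩| ≤ exp (-(σ.mu a * Wd.lv σ p x) - p.xA) := fun a g => by
    have := mul_ex (abs_of_pos (exp_pos (-(σ.mu a * Wd.lv σ p x)))).le
      (Wd.AcA.rd_sub p.nb (exp (σ.mu a * Wd.lv σ p x) * Y.t ω v a))
    rw [mul_sub, ← mul_assoc, ← exp_add, neg_add_cancel, exp_zero, one_mul, abs_sub_comm] at this
    exact this.trans (exp_le_exp.2 (by linarith))
  have fin : ∀ {s : κ → ℝ} {F : κ → ℝ} {f : κ}, 0 ≤ s f → (∀ a, |F a| ≤ exp (7 * e) * s f) →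
      |∑ a, F a| ≤ exp (9 * e) * s f := fun s0 k =>
    (sum_le le_rfl (mul_nonneg (exp_pos _).le s0) k).trans (by
      rw [← mul_assoc, ← exp_add]
      exact mul_le_mul_of_nonneg_right (exp_le_exp.2 (by linarith)) s0)
  refine ⟨fun f => ?_, fun f => ?_, ?_⟩
  · refine fin (rh_pos _ _ _ f).le fun a => ?_
    have z : 0 ≤ exp (7 * e) * rh σ.mu (Wd.l0 σ p x.2.1) (fun a => σ.mu a * x.2.2.1) f :=
      mul_nonneg (exp_pos _).le (rh_pos _ _ _ f).le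
    rw [← hu]
    beta_reduce
    split_ifs with g
    swap
    · rwa [zero_mul, abs_zero]
    by_cases y : Y.φ σ x.1 (Y.cp x.1 ω) u a f = 0
    · rwa [y, mul_zero, abs_zero]
    have m := g3.mu y
    have a1 := add_ex (ic a).1 ((abs_neg _).trans_le ((b1 a g).trans (exp_le_exp.2
      (show _ ≤ e - σ.mu a * Wd.lv σ p x by linarith))))
    rw [show GA.lg (Y.X.B ω) (Y.X.j ω) (Y.X.j v) a = Y.t ω v a from rfl, neg_sub,
      add_sub_cancel] at a1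
    rw [rh_live (m ▸ g.1.ne'), ← exp_add]
    refine (mul_ex a1 (g4 a f)).trans (exp_le_exp.2 ?_)
    rw [vt_eq h (na g), ← m, lv]
    linarith
  · have s0 := ((tow h L H R hω hE).2.pos f).le
    have z : 0 ≤ exp (7 * e) * Wd.ss σ p x f := mul_nonneg (exp_pos _).le s0
    rw [Pi.sub_apply, th, vecMul, vecMul, dotProduct, dotProduct, ← sum_sub_distrib, ← hu]
    refine fin s0 fun a => ?_
    have up : ∀ {X y : ℝ}, |X| ≤ exp y → σ.Nn f →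
        y ≤ 7 * e - (σ.mu f * Wd.lv σ p x + σ.wt f * Wd.dp p x) →
        |X| ≤ exp (7 * e) * Wd.ss σ p x f := fun a n b =>
      a.trans ((exp_le_exp.2 b).trans ((exp_add _ _).trans_le
        (mul_le_mul_of_nonneg_left (ss_nn h x n) (exp_pos _).le)))
    have wd := (dp_le h L H R f).2
    by_cases n : σ.Nn f
    · by_cases m : σ.mu a = σ.mu f
      swap
      · rwa [not_not.1 fun y => m (g0.mu y), not_not.1 fun y => m (g3.mu y), mul_zero, mul_zero,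
          sub_zero, abs_zero]
      split_ifs with g
      · have s1 := src H.ok h le_rfl (H.st.val _ R.i u u1 u2) u1 hω j1 (j2.trans j3) u5
          (Nat.cast_nonneg (Wd.dp p x)) j4 (na g) n (wd.trans o6)
        rw [u4] at s1
        have s2 := add_ex ((mul_ex (ic a).1 s1).trans (exp_le_exp.2
          (show _ ≤ 6 * e - (σ.mu f * Wd.lv σ p x + σ.wt f * Wd.dp p x) by rw [m]; linarith)))
          ((mul_ex (b1 a g) (g4 a f)).trans (exp_le_exp.2 (by rw [vt_eq h (na g), m]; linarith)))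
        refine up (le_of_eq_of_le (congrArg _ ?_) s2) n (by linarith)
        unfold Wd.t
        ring
      · rw [zero_mul, sub_zero]
        have y : σ.la a ≠ σ.mu a := fun y =>
          g ⟨m ▸ (h.m0 f).lt_of_ne' (nn_mu h n), y⟩
        refine up (mul_ex ((ic a).2 y) (g2 a f)) n ?_
        obtain ⟨D0, D1⟩ := o7 _ R.i
        have q0 : 0 ≤ p.kD * Y.ms := mul_nonneg (Nat.cast_nonneg _) H.ok.ms.1.le
        rw [m]
        nlinarith [H.num.rw, L.k2 a, vt0 h a]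
    · rw [g0.off a n, g3.off a n, ← sub_mul]
      by_cases y : a = f
      swap
      · rwa [one_apply_ne y, mul_zero, abs_zero]
      subst y
      rw [one_apply_eq, mul_one, ss_off x n, Wd.r0]
      split_ifs with g
      · rw [rad_let _ _ _ _ g.1.ne' n, ← exp_add]
        refine (b1 a g).trans (exp_le_exp.2 ?_)
        rw [lv]
        linarith [mul_nonneg (h.m0 a) (Nat.cast_nonneg (α := ℝ) x.2.2.1)]
      · have m : σ.mu a = 0 := not_not.1 fun m =>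
          g ⟨(h.m0 a).lt_of_ne' m, le_antisymm (not_lt.1 n) (h.vt0 a)⟩
        rw [sub_zero, rad_dead _ _ _ _ m, mul_one]
        exact (ic a).1.trans (exp_le_exp.2 (by rw [m]; linarith))
  · rw [add_sub_cancel, ex, ← GA.GAFrA.vec_mB, ← g1]
    exact ((H.ok.fr ω hω).2.2 v hv).2.1

end RM

open RM in
theorem rowM : RowM := by
  intro ι κ _ _ _ _ σ h
  obtain ⟨C, kit⟩ := GA.CR.kit σ.Φ.N (Fintype.card κ)
  obtain ⟨K, L, K1⟩ := ex_lg h ((2 + 12 * Fintype.card κ) * C ^ 3 * 9)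
  refine ⟨K, by linarith [L.two], fun Y p e w r δ H => ?_⟩
  have e1 : 1 ≤ e := (D3.ord H (by linarith [L.two])).1
  have bd : exp ((2 + 12 * (Fintype.card κ : ℕ)) * C ^ 3 * (9 * e)) ≤ exp (K * e) :=
    exp_le_exp.2 (by nlinarith)
  have M := fun z (hz : z ∈ (Y.P2 σ p).S) => mem h L H hz
  have T := fun z (hz : z ∈ (Y.P2 σ p).S) => tow h L H (M z hz).1 (M z hz).2.1 (M z hz).2.2.2.1
  have N := fun z (hz : z ∈ (Y.P2 σ p).S) => near h L H (M z hz).1 (M z hz).2.1 (M z hz).2.2.1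
    (M z hz).2.2.2.1 (M z hz).2.2.2.2.1 (M z hz).2.2.2.2.2.1
  have tc : ∀ a b : (Y.bd σ p).Ω, a.1 = b.1 → Y.cp a.1.1 a.2.1.2 = Y.cp b.1.1 b.2.1.2 →
      (Y.bd σ p).T a = (Y.bd σ p).T b → th σ Y p a.1 (Y.bb σ p a.1 a.2.1.2 a.2.2) a.2.1.2 =
        th σ Y p b.1 (Y.bb σ p b.1 b.2.1.2 b.2.2) b.2.1.2 := by
    rintro ⟨x, ⟨j, ω⟩, v⟩ ⟨x', ⟨j', ω'⟩, v'⟩ e0 e2 e3
    obtain rfl : x = x' := e0
    have e4 : Y.Cp (Y.i1 p x) ω = Y.Cp (Y.i1 p x) ω' := congrArg Prod.fst e3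
    have e5 : Y.bb σ p x ω v = Y.bb σ p x ω' v' := congrArg (fun s => s.2.1) e3
    have e6 : Y.v1 x.1 (Y.i1 p x) ω = Y.v1 x.1 (Y.i1 p x) ω' := N2.rep_congr (Prod.ext e2 e4)
    simp only at e2 ⊢
    rw [th, th, e5, e6, e2]
  have A1 := det_mate (P := Y.P2 σ p) (G := fun z => ((Y.bd σ p).K z, (Y.bd σ p).T z))
    (B := fun z => Y.Bk σ z.1.1 (Y.cp z.1.1 z.2.1.2)) (r := fun z => Wd.r0 σ p z.1.2.1)
    (s := fun z => Wd.ss σ p z.1) (x := fun z => Y.X.j z.2.1.2) (y := fun z => Y.X.j z.2.2)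
    (t := fun z => th σ Y p z.1 (Y.bb σ p z.1 z.2.1.2 z.2.2) z.2.1.2) kit le_rfl (by linarith)
    (fun z hz => ⟨(T z hz).1, (T z hz).2, (H.ok.fr _ (M z hz).2.1).1⟩) (fun a ha b hb k => by
      have k1 : Y.K σ p a.1 a.2.1.2 = Y.K σ p b.1 b.2.1.2 := congrArg Prod.fst k
      have k2 : a.1 = b.1 := (Prod.mk.inj k1).1
      have k3 : Y.cp a.1.1 a.2.1.2 = Y.cp b.1.1 b.2.1.2 := congrArg (fun s => s.2.1) k1
      exact Prod.ext (congrArg₂ (Y.Bk σ) (congrArg Prod.fst k2) k3) (Prod.ext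
        (congrArg (fun x : Par => Wd.r0 σ p x.2.1) k2) (Prod.ext (congrArg (Wd.ss σ p) k2)
          (Prod.ext (tc a b k2 k3 (congrArg Prod.snd k)) (congrArg (fun s => s.2.2) k1))))) N
  have A2 := det_mate (P := Y.P2 σ p) (G := fun z => (Y.K' σ p z, (Y.bd σ p).T z))
    (B := fun z => Y.Bk σ z.1.1 (Y.cp z.1.1 z.2.1.2)) (r := fun z => Wd.r0 σ p z.1.2.1)
    (s := fun z => Wd.ss σ p z.1) (x := fun z => Y.X.j z.2.2) (y := fun z => Y.X.j z.2.1.2)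
    (t := fun z => -th σ Y p z.1 (Y.bb σ p z.1 z.2.1.2 z.2.2) z.2.1.2) kit le_rfl (by linarith)
    (fun z hz => ⟨(T z hz).1, (T z hz).2, (H.ok.fr _ (M z hz).2.2.1).1⟩) (fun a ha b hb k => by
      have k1 : Y.K σ p a.1 a.2.2 = Y.K σ p b.1 b.2.2 := congrArg Prod.fst k
      unfold Wd.K at k1
      rw [(M a ha).2.2.2.2.2.2.2, (M b hb).2.2.2.2.2.2.2] at k1
      have k2 : a.1 = b.1 := (Prod.mk.inj k1).1
      have k3 : Y.cp a.1.1 a.2.1.2 = Y.cp b.1.1 b.2.1.2 := congrArg (fun s => s.2.1) k1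
      exact Prod.ext (congrArg₂ (Y.Bk σ) (congrArg Prod.fst k2) k3) (Prod.ext
        (congrArg (fun x : Par => Wd.r0 σ p x.2.1) k2) (Prod.ext (congrArg (Wd.ss σ p) k2)
          (Prod.ext (congrArg Neg.neg (tc a b k2 k3 (congrArg Prod.snd k)))
            (congrArg (fun s => s.2.2) k1)))))
    fun z hz => ⟨GA.GANrA.neg (N z hz).1, GA.GANrA.neg (N z hz).2.1, by
      rw [(N z hz).2.2, ← neg_add, mul_assoc, ((GA.sMul _ _ _ _ _ (T z hz).1).neg _).2, mul_one]⟩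
  refine ⟨det_mono (det_fn A1 fun a ha b hb k k' => ?_) bd,
    det_mono (det_fn A2 fun a ha b hb k k' => ?_) bd⟩
  · have k1 : Y.K σ p a.1 a.2.1.2 = Y.K σ p b.1 b.2.1.2 := congrArg Prod.fst k
    have k3 : Y.cp a.1.1 a.2.1.2 = Y.cp b.1.1 b.2.1.2 := congrArg (fun s => s.2.1) k1
    have k2 : a.1 = b.1 := (Prod.mk.inj k1).1
    show Y.K σ p a.1 a.2.2 = Y.K σ p b.1 b.2.2
    unfold Wd.K
    rw [(M a ha).2.2.2.2.2.2.2, (M b hb).2.2.2.2.2.2.2]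
    exact Prod.ext k2 (Prod.ext k3 k')
  · have k1 : Y.K σ p a.1 a.2.2 = Y.K σ p b.1 b.2.2 := congrArg Prod.fst k
    unfold Wd.K at k1
    rw [(M a ha).2.2.2.2.2.2.2, (M b hb).2.2.2.2.2.2.2] at k1
    have k2 : a.1 = b.1 := (Prod.mk.inj k1).1
    have k3 : Y.cp a.1.1 a.2.1.2 = Y.cp b.1.1 b.2.1.2 := congrArg (fun s => s.2.1) k1
    show Y.K σ p a.1 a.2.1.2 = Y.K σ p b.1 b.2.1.2
    exact Prod.ext k2 (Prod.ext k3 k')

end Pool.Agent.MP_5168f5_an.QA.SC
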