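import Pool.Agent.MP_4b405e_nt.SK.GRel0
import Pool.Agent.MP_4b405e_nt.SK.GTow2
import Pool.Agent.MP_4b405e_nt.SK.CLw

/-! Sparse heights, block C: the affine relation between the blocks of a point and a relative. -/

namespace Pool.Agent.MP_5168f5_an.QA.SC

open Real Finset Matrix
open AN
open H17S (lg Fn)
open GA (Mt IsFr br rnd)
open GA.CR (Tow Rd Kit sum_le c0)
open GA.CR.Rd (mul_ex)

namespace R40

variable {ι κ : Type} [Fintype ι] [DecidableEq ι] [Fintype κ] [DecidableEq κ] {σ : Kk ι κ}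
  {Y : Wd ι κ} {p : Pm} {K e w r δ V : ℝ} {x : Par} {ω v : Y.Ω}

noncomputable instance : Fintype {b : κ // σ.Nn b} := Fintype.ofFinite _

/-- The data at one pair. -/
noncomputable def dat (σ : Kk ι κ) (Y : Wd ι κ) (p : Pm) (x : Par) (ω v : Y.Ω) :
    Rd κ {b : κ // σ.Nn b} σ.Al where
  mu := σ.mu
  wt := σ.wt
  vt := σ.vt
  e := Subtype.val
  al := Subtype.val
  c := Y.ck σ x.1 (Y.cp x.1 ω)
  φ := Y.φ σ x.1 (Y.cp x.1 ω) ω
  φ₁ := Y.φ σ x.1 (Y.cp x.1 ω) (Y.v1 x.1 (Y.i1 p x) ω)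
  τ := Y.t ω v
  sc := fun _ => 1
  b := Y.bb σ p x ω v
  ff := fun b => Wd.ff σ x b.1
  s := Wd.ss σ p x
  r' := Wd.sd σ p x p.u
  ρ := Y.ρ σ p x ω
  l := Wd.lv σ p x
  d := Wd.dp p x
  D := Y.D x.1
  n := p.u

theorem p2 (m : ℕ) : (2 : ℝ) ^ m = exp (lg * m) := by
  rw [lg, mul_comm, exp_nat_mul, exp_log two_pos]

omit [Fintype κ] [DecidableEq κ] in
theorem ff_bd (o : σ.Ok) (x : Par) (b : κ) : 1 ≤ Wd.ff σ x b ∧ Wd.ff σ x b ≤ 2 := by
  have l0 : 0 < lg := log_pos one_lt_two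
  have a := (Nat.lt_floor_add_one ((σ.mu b * x.2.2.1 + σ.wt b * x.2.2.2) / lg)).le
  rw [div_le_iff₀ l0] at a
  rw [Wd.ff, one_le_div (by positivity), div_le_iff₀ (by positivity), ← pow_succ', p2, p2]
  refine ⟨exp_le_exp.2 (Wd.nn_bd o x b).2, exp_le_exp.2 ?_⟩
  rw [mul_comm lg]
  exact_mod_cast a

omit [Fintype κ] [DecidableEq κ] in
theorem ss_eq (o : σ.Ok) {b : κ} (h : σ.Nn b) : Wd.ss σ p x b =
    exp (-(σ.mu b * Wd.lv σ p x + σ.wt b * Wd.dp p x)) * Wd.ff σ x b := by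
  rw [Wd.ss, if_pos h, Wd.r0, Kk.rad, if_neg (o.nlive h).ne', if_pos h, Wd.ff, ← mul_div_assoc,
    ← exp_add, Wd.lv, Wd.dp]
  push_cast
  congr 2; ring

omit [Fintype κ] [DecidableEq κ] in
theorem let_off (a : σ.Al) : ¬σ.Nn a.1 := fun y => (ne_of_lt y).symm a.2.2

/-- The range of the parameter and the membership of the point. -/
structure In (σ : Kk ι κ) (Y : Wd ι κ) (p : Pm) (x : Par) (ω : Y.Ω) : Prop where
  hi : x.1 < Y.nD
  ht : x.2.1 ≤ p.N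
  hl : x.2.2.1 ≤ p.L
  hd : x.2.2.2 ≤ p.L
  hω : ω ∈ Y.P.S
  hE : Y.E x.1 ω

omit [Fintype κ] [DecidableEq κ] in
theorem In.v1 (I : In σ Y p x ω) (i' : ℕ) : Y.v1 x.1 i' ω ∈ Y.P.S ∧ Y.E x.1 (Y.v1 x.1 i' ω) ∧
    Y.cp x.1 (Y.v1 x.1 i' ω) = Y.cp x.1 ω ∧ Y.Cp i' (Y.v1 x.1 i' ω) = Y.Cp i' ω :=
  have a := N2.rep_spec (P := Y.P) (A := fun y => (Y.cp x.1 y, Y.Cp i' y)) I.hω I.hE
  ⟨a.1, a.2.1, congrArg Prod.fst a.2.2, congrArg Prod.snd a.2.2⟩

omit [Fintype ι] [DecidableEq ι] [Fintype κ] [DecidableEq κ] in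
theorem dp_le (m : 0 < Y.ms) (x : Par) : (Wd.dp p x : ℝ) ≤ Y.D (Y.i1 p x) - Y.D x.1 := by
  have := (div_le_iff₀ m).1 (Nat.le_ceil ((Wd.dp p x : ℝ) / Y.ms))
  rw [Wd.D, Wd.D, Wd.i1]
  push_cast
  linarith

variable (H : Y.Hyp σ p K e w r δ) (o : σ.Ok) (U : σ.Ub V) (hK : 10 * V ^ 2 ≤ K)
  (I : In σ Y p x ω)
include H U hK I

theorem dp2 : (Wd.dp p x : ℝ) ≤ 2 * p.d0 := by
  obtain ⟨-, c, -⟩ := H.ch10 U hK
  have a : (x.2.2.2 : ℝ) ≤ p.L := Nat.cast_le.2 I.hd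
  rw [Wd.dp]
  push_cast
  linarith [c.Ld, Nat.cast_nonneg (α := ℝ) p.L]

theorem i1_le : Y.i1 p x ≤ Y.nT := by
  obtain ⟨-, c, -⟩ := H.ch10 U hK
  have a : ⌈(Wd.dp p x : ℝ) / Y.ms⌉₊ ≤ p.kD := Nat.ceil_le.2 ((div_le_iff₀ H.ok.ms.1).2 (by
    linarith [dp2 H U hK I, c.dx, c.xn, c.nk, Nat.cast_nonneg (α := ℝ) p.d0]))
  have := H.num.nT
  have := I.hi
  rw [Wd.i1]
  omega

theorem wd_le (b : κ) : σ.wt b * Wd.dp p x + p.u * lg ≤ p.xA := by
  obtain ⟨-, c, c'⟩ := H.ch10 U hK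
  have d0 : (0 : ℝ) ≤ p.d0 := Nat.cast_nonneg _
  have u0 : (0 : ℝ) ≤ p.u := Nat.cast_nonneg _
  have a := mul_le_mul (U.wt b) (dp2 H U hK I) (Nat.cast_nonneg _) (zero_le_one.trans U.one)
  have a1 := mul_le_mul_of_nonneg_right (show 10 * V ≤ 10 * V ^ 2 by nlinarith [U.one]) d0
  have a2 := mul_le_of_le_one_right u0 (show lg ≤ 1 from log_two_lt_d9.le.trans (by norm_num))
  linarith [c'.dx, c.dx, c.uL, c.Ld]

include o

/-- The size of the source. -/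
theorem th_le {a b : κ} (ha : ¬σ.Nn a) (hb : σ.Nn b) :
    |Y.θ0 σ x.1 (Y.i1 p x) (Wd.dp p x) ω a b| ≤ exp (5 * e) := by
  obtain ⟨kV, c, -⟩ := H.ch10 U hK
  obtain ⟨m1, m2, m3, m4⟩ := I.v1 (Y.i1 p x)
  have k := H.st.val _ I.hi ω I.hω I.hE
  have k1 := H.st.val _ I.hi _ m1 m2
  have cd := U.card
  have e1 := H.num.e1
  have e2 := c.e1
  rw [Wd.θ0, k.φ_coc H.ok I.hω m1, show ∀ A B : Matrix κ κ ℝ, (A * B) a b - B a b =
    ∑ f, (A - 1) a f * B f b from fun A B => by rw [← mul_apply, sub_mul, one_mul, Matrix.sub_apply],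
    mul_sum]
  refine (sum_le (X := exp (4 * e)) le_rfl (exp_pos _).le fun f => ?_).trans
    (by rw [← exp_add]; exact exp_le_exp.2 (by linarith))
  by_cases z : Y.X.R (Y.v1 x.1 (Y.i1 p x) ω) ω a f = (1 : Matrix κ κ ℝ) a f
  · rw [Matrix.sub_apply, z, sub_self, zero_mul, mul_zero, abs_zero]; exact (exp_pos _).le
  have g := ((H.ok.fr _ m1).2.2 ω I.hω).2.2.2 a f z
  have nf : σ.Nn f := by
    have := o.vt0 a
    unfold Kk.Nn
    linarith [g.1, g.2]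
  have t := H.ok.rr _ (i1_le H U hK I) _ m1 ω I.hω m4 a f
  have d1 := dp_le (p := p) H.ok.ms.1 x
  have d2 := mul_le_mul_of_nonneg_left d1 (o.v0 f)
  have fin : ∀ y, |exp (-(σ.vt f * Y.D x.1)) *
      Y.φ σ x.1 (Y.cp x.1 ω) (Y.v1 x.1 (Y.i1 p x) ω) f b| ≤ exp y →
      y + (σ.wt b - σ.vt f) * Wd.dp p x ≤ 3 * e → |exp (σ.wt b * Wd.dp p x) *
        ((Y.X.R (Y.v1 x.1 (Y.i1 p x) ω) ω - 1) a f *
          Y.φ σ x.1 (Y.cp x.1 ω) (Y.v1 x.1 (Y.i1 p x) ω) f b)| ≤ exp (4 * e) := fun y hy hy' => by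
    have := mul_ex (mul_ex t hy) (abs_exp
      (σ.wt b * Wd.dp p x - σ.vt f * (Y.D (Y.i1 p x) - Y.D x.1))).le
    refine le_of_eq_of_le ?_ (this.trans (exp_le_exp.2 (by linarith)))
    rw [Matrix.sub_apply, one_apply_ne fun n : a = f => ha (n ▸ nf), sub_zero, o.vz ha, sub_zero,
      show σ.wt b * Wd.dp p x = σ.vt f * Y.D (Y.i1 p x) + -(σ.vt f * Y.D x.1) +
        (σ.wt b * Wd.dp p x - σ.vt f * (Y.D (Y.i1 p x) - Y.D x.1)) by ring, exp_add, exp_add]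
    congr 1
    ring_nf
  rcases lt_or_ge (σ.vt f) (σ.wt b) with q | q
  · refine fin _ (m3 ▸ k1.v2 f b nf hb q) ?_
    have := wd_le H U hK I b
    have := mul_nonneg (o.v0 f) (Nat.cast_nonneg (α := ℝ) (Wd.dp p x))
    have := mul_nonneg (Nat.cast_nonneg (α := ℝ) p.u) (show 0 ≤ lg from (log_pos one_lt_two).le)
    linarith [c.xn, c.nk, c.kr, Nat.cast_nonneg (α := ℝ) p.xA]
  · refine fin _ (k.φ_le H.ok m1 (H.iT I.hi) (congrArg Prod.fst m3) f b) ?_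
    have := mul_nonpos_of_nonpos_of_nonneg (sub_nonpos.2 q) (Nat.cast_nonneg (α := ℝ) (Wd.dp p x))
    linarith

/-- The shape of the frame of a sample of the cap. -/
theorem fm {y : Y.Ω} (hy : y ∈ Y.P.S) (c : Y.Cp x.1 y = Y.Cp x.1 ω) :
    (dat σ Y p x ω v).Fm (Y.φ σ x.1 (Y.cp x.1 ω) y) (3 * e) := by
  have k := H.st.val _ I.hi ω I.hω I.hE
  exact ⟨fun a f => (k.φ_le H.ok hy (H.iT I.hi) c a f).trans (exp_le_exp.2 (by
      linarith [U.card, (H.ch10 U hK).1, H.num.e1])), fun a f => k.φ_gr H.ok hy,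
    fun a f n => k.φ_id H.ok hy o a fun q => n ⟨⟨f, q⟩, rfl⟩⟩

/-- The size of the action. -/
theorem rho_le {a : κ} (ha : ¬σ.Nn a) (b b' : κ) :
    |Y.ρ0 σ x.1 (Y.i1 p x) ω a b b'| ≤ exp (11 * e) := by
  obtain ⟨m1, -, m3, -⟩ := I.v1 (Y.i1 p x)
  rw [Wd.ρ0]
  split_ifs
  swap
  · rw [abs_zero]; exact (exp_pos _).le
  rw [show ∀ (c : κ → κ → κ → ℝ) (y : κ → ℝ), br c y (Pi.single b' 1) b = ∑ f, y f * c f b' b from
    fun c y => by simp [br, Pi.single_apply, mul_comm]]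
  refine (sum_le le_rfl (exp_pos _).le fun f => mul_ex
    ((fm (v := ω) H o U hK I m1 (congrArg Prod.fst m3)).bd' a f)
    ((H.cak o U hK I.hi I.hω I.hE).ob f b' b)).trans ?_
  rw [← exp_add]
  refine exp_le_exp.2 ?_
  change _ + (3 * e + σ.vt a * _ + _) ≤ _
  rw [o.vz ha]
  linarith [U.card, (H.ch10 U hK).1, H.num.e1]

/-- The hypotheses of the identity. -/
theorem ok (G : ∀ a b, σ.wt a < σ.wt b → 1 ≤ K * (σ.wt b - σ.wt a)) (hv : v ∈ Y.P.S)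
    (lW : Wd.lv σ p x ≤ Y.W) (q : Y.Q (Wd.lv σ p x) ω = Y.Q (Wd.lv σ p x) v) :
    (dat σ Y p x ω v).Ok (12 * e) p.xA := by
  obtain ⟨kV, c, -⟩ := H.ch10 U hK
  obtain ⟨m1, -, m3, -⟩ := I.v1 (Y.i1 p x)
  have e1 := c.e1
  have x0 : (0 : ℝ) ≤ p.xA := Nat.cast_nonneg _
  have xr : (p.xA : ℝ) ≤ r := by linarith [c.xn, c.nk, c.kr]
  have up : ∀ {φ}, (dat σ Y p x ω v).Fm φ (3 * e) → (dat σ Y p x ω v).Fm φ (12 * e) := fun F =>
    ⟨fun a f => (F.bd a f).trans (exp_le_exp.2 (by linarith)), F.gr, F.id⟩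
  have t : ∀ b, |Y.t ω v b| ≤ _ ∧ (_ → |Y.t ω v b| ≤ _) := H.ok.inc _ lW ω I.hω v hv q
  have C := H.cak o U hK I.hi I.hω I.hE
  have ff := ff_bd o x
  have l0 : 1 / 2 ≤ lg := by linarith [log_two_gt_d9, show lg = log 2 from rfl]
  have nr : ∀ y, |rd p.nb y - y| ≤ exp (-p.xA) := fun y => (Wd.rd_near _ y).trans (by
    rw [p2, ← exp_neg]
    exact exp_le_exp.2 (by nlinarith [c.xn]))
  have s0 : ∀ a, 0 < Wd.ss σ p x a := (H.tows o U hK I.hi I.hω I.hE I.ht (by have := I.hl; omega)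
    (by have := I.hd; omega)).pos
  refine ⟨by linarith, x0, Nat.cast_nonneg _, fun a => (o.w0 a).le, Subtype.val_injective,
    fun b => o.nlive b.2, fun a => a.2.1, fun a => ?_, fun a => o.vz (let_off a),
    up (fm H o U hK I I.hω rfl), up (fm H o U hK I m1 (congrArg Prod.fst m3)),
    fun a => (t a).1.trans (exp_le_exp.2 (sub_le_sub_right (by linarith) _)),
    fun b => ((t b.1).2 (ne_of_lt b.2).symm).trans (exp_le_exp.2 (sub_le_sub_right ?_ _)),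
    fun a => ?_, fun a => ?_,
    fun a b => (th_le H o U hK I (let_off a) b.2).trans (exp_le_exp.2 (by linarith)),
    fun b => ff b.1, s0, fun b => ss_eq o b.2, fun a z => ?_, fun a => ?_,
    fun a b f => (C.ob a b f).trans (exp_le_exp.2 (by linarith)),
    fun a b b' n => (C.nh a b'.1 b.1 (o.nlive b.2) (fun y => n y.2.2) _ (Nat.cast_nonneg _)
      (Nat.cast_le.2 lW)).trans (exp_le_exp.2 (by linarith)),
    fun a b b' n => (C.v1 a b'.1 b.1 b'.2 b.2 n).trans (exp_le_exp.2 (by linarith)),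
    fun b => wd_le H U hK I b.1, fun b b' n => ?_,
    fun _ => abs_one.trans_le (one_le_exp (by linarith)), fun _ _ => rfl, fun a b b' => ?_,
    fun a b b' => ?_, fun a b => ?_⟩
  · by_cases n : σ.Nn a
    · exact .inl ⟨⟨a, n⟩, rfl⟩
    refine .inr ⟨o.vz n, (o.m0 a).eq_or_lt.imp Eq.symm fun z => ⟨⟨a, z, sub_eq_zero.1 (o.vz n)⟩, rfl⟩⟩
  · have := mul_le_mul_of_nonneg_right (U.vt b.1) (Y.D_nonneg x.1)
    change -w ≤ -(p.xA : ℝ) - σ.vt b.1 * Y.D x.1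
    linarith [H.rw' U kV (H.iT I.hi)]
  · have := mul_ex (abs_exp (-(σ.mu a.1 * Wd.lv σ p x))).le
      (nr (exp (σ.mu a.1 * Wd.lv σ p x) * Y.t ω v a.1))
    rw [mul_sub, ← mul_assoc, ← exp_add, neg_add_cancel, exp_zero, one_mul, abs_sub_comm] at this
    refine le_of_eq_of_le (by rw [Rd.β]; simp only [dat, one_mul, Wd.bb])
      (this.trans (exp_le_exp.2 ?_))
    change _ ≤ 12 * e - p.xA - σ.mu a.1 * Wd.lv σ p x
    linarith
  · have a1 := abs_le.1 ((nr (exp (σ.mu a.1 * Wd.lv σ p x) * Y.t ω v a.1)).trans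
      (exp_le_exp.2 (show _ ≤ e by linarith)))
    have a2 := abs_le.1 ((mul_ex (abs_exp (σ.mu a.1 * Wd.lv σ p x)).le (t a.1).1).trans
      (exp_le_exp.2 (show _ ≤ e by linarith)))
    have a3 := (GA.CR.two_exp e).trans (exp_le_exp.2 (show _ ≤ 12 * e by linarith))
    change |rd _ _| ≤ _
    rw [abs_le]
    constructor <;> linarith [a1.1, a1.2, a2.1, a2.2]
  · change 1 ≤ Wd.sd σ p x p.u a
    rw [Wd.sd_eq o, rh, if_pos (show σ.mu a = 0 from z)]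
  · change exp (-(σ.mu a * Wd.lv σ p x + p.xA)) ≤ Wd.sd σ p x p.u a
    have a1 := mul_nonneg (o.m0 a) (Nat.cast_nonneg (α := ℝ) x.2.2.1)
    rw [Wd.sd_eq o, rh, Wd.lv, Nat.cast_add]
    split_ifs with z
    · rw [z, zero_mul, zero_add]; exact exp_le_one_iff.2 (by linarith)
    refine exp_le_exp.2 ?_
    by_cases n : σ.Nn a
    · have := wd_le H U hK I a
      rw [Wd.dp, Nat.cast_add] at this
      rw [dh_in n]
      linarith [(Wd.nn_bd o x a).2]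
    · rw [dh_out n]; linarith
  · have a1 := mul_le_mul_of_nonneg_left (G _ _ n) (Nat.cast_nonneg (α := ℝ) p.u)
    have a2 : K * p.u ≤ Wd.dp p x := by
      rw [Wd.dp, Nat.cast_add]
      linarith [(H.chn (by linarith [U.one]) (by linarith [U.one]) le_rfl).uL, c.Ld,
        Nat.cast_nonneg (α := ℝ) p.L, Nat.cast_nonneg (α := ℝ) x.2.2.2]
    have a3 := mul_le_mul_of_nonneg_left a2 (sub_pos.2 n).le
    have a4 := mul_le_of_le_one_right (Nat.cast_nonneg (α := ℝ) p.u)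
      (show lg ≤ 1 from log_two_lt_d9.le.trans (by norm_num))
    change (p.u : ℝ) * lg ≤ (σ.wt b'.1 - σ.wt b.1) * Wd.dp p x
    change (σ.wt b'.1 - σ.wt b.1) * _ ≤ (σ.wt b'.1 - σ.wt b.1) * _ at a3
    change _ ≤ p.u * (K * (σ.wt b'.1 - σ.wt b.1)) at a1
    linarith
  · have g : |Wd.ff σ x b'.1 / Wd.ff σ x b.1| ≤ exp 1 := by
      rw [abs_of_nonneg (div_nonneg (by linarith [ff b'.1]) (by linarith [ff b.1]))]
      exact (div_le_self (by linarith [ff b'.1]) (ff b.1).1).trans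
        (by linarith [add_one_le_exp (1 : ℝ), ff b'.1])
    exact le_of_eq_of_le (congrArg abs (mul_div_assoc _ _ _))
      ((mul_ex (rho_le H o U hK I (let_off a) b.1 b'.1) g).trans (exp_le_exp.2 (by linarith)))
  · simp only [dat, one_mul]
    rfl
  · simp only [dat, one_mul, Wd.ρ, Option.elim]
    split_ifs
    · rw [neg_add_eq_sub, abs_sub_comm]
      refine (Wd.rd_near _ _).trans ?_
      rw [one_div]
      exact inv_anti₀ (by positivity) (pow_le_pow_right₀ one_le_two (by omega))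
    · rw [add_zero, abs_zero]; positivity

omit H o U hK I

/-- The constant term. -/
noncomputable def cz (σ : Kk ι κ) (Y : Wd ι κ) (p : Pm)
    (k' k : Par × (Y.Λ × Y.Sy) × Mt ι × (κ → ℤ)) (t : κ → ℝ) : σ.Nu → ℝ := fun q => q.elim 0 fun b =>
  c0 σ.Φ.N (Y.Bk σ k.1.1 k.2.1) (Y.ck σ k.1.1 k.2.1) (Wd.ss σ p k.1) t k.2.2 k'.2.2 b.1

theorem t_congr {x' : Par} {ω' v' : Y.Ω} (k : Y.K σ p x ω = Y.K σ p x' ω')
    (c : Y.Cp (Y.i1 p x) ω = Y.Cp (Y.i1 p x') ω') (b : Y.bb σ p x ω v = Y.bb σ p x' ω' v') :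
    (dat σ Y p x ω v).t = (dat σ Y p x' ω' v').t := by
  obtain rfl : x = x' := congrArg Prod.fst k
  have k1 : Y.cp x.1 ω = Y.cp x.1 ω' := congrArg (fun y => y.2.1) k
  have k2 : Y.v1 x.1 (Y.i1 p x) ω = Y.v1 x.1 (Y.i1 p x) ω' := N2.rep_congr (Prod.ext k1 c)
  funext f
  simp only [Rd.t, Rd.β, dat, k1, k2, b]

/-- The series of the noise, for any two enumerations of the coordinates. -/
theorem wp {ν : Type} (i i' : Fintype ν) (d : DecidableEq ν) (m : ℕ) (R : Matrix ν ν ℝ)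
    (z : ν → ℝ) : (letI := i; z + (R * Wp m R - R) *ᵥ z) = (letI := i';
      ∑ k ∈ range (m + 1 + 1), ((k.factorial : ℚ))⁻¹ • ((-R) ^ k *ᵥ z)) := by
  obtain rfl := Subsingleton.elim i i'
  obtain rfl : d = fun a b => Classical.propDecidable (a = b) := Subsingleton.elim _ _
  exact @GA.CR.wp_eq ν i (fun a b => Classical.propDecidable (a = b)) m R z

end R40

open R40 in
theorem rowR : RowR := fun ι κ _ _ _ _ σ o => by
  classical
  obtain ⟨V, U⟩ := o.ub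
  obtain ⟨C, T⟩ := GA.CR.kit σ.Φ.N (Fintype.card κ)
  obtain ⟨g, hg⟩ := Finite.exists_le fun y : κ × κ => (σ.wt y.2 - σ.wt y.1)⁻¹
  obtain ⟨K, k1, k2, k3, k4⟩ : ∃ K : ℝ, 10 * V ^ 2 ≤ K ∧ (σ.C : ℝ) ≤ K ∧ g ≤ K ∧
      (24 * C ^ 3 + ((σ.Φ.N + 1 : ℕ) + 1) * (2 * Fintype.card κ + 5)) * 52 ≤ K :=
    ⟨_, le_max_left _ _, le_max_of_le_right (le_max_left _ _),
      le_max_of_le_right (le_max_of_le_right (le_max_left _ _)),
      le_max_of_le_right (le_max_of_le_right (le_max_right _ _))⟩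
  refine ⟨K, by nlinarith [U.one], fun Y p e w r δ H => ⟨fun z => cz σ Y p (Y.K' σ p z)
    ((Y.bd σ p).K z) (dat σ Y p z.1 z.2.1.2 z.2.2).t, fun z _ z' _ k => ?_, fun z hz q hq => ?_⟩⟩
  · have a1 : Y.K' σ p z = Y.K' σ p z' := congrArg Prod.fst k
    have a2 : (Y.bd σ p).K z = (Y.bd σ p).K z' := congrArg (fun y => y.2.1) k
    simp only [a1, a2, t_congr a2 (congrArg (fun y => y.2.2.1) k) (congrArg (fun y => y.2.2.2.1) k)]
  obtain ⟨x, ⟨j, ω⟩, v⟩ := z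
  obtain ⟨⟨a1, a2, a3, a4⟩, ⟨b1, b2⟩, hω, hv, hE, -, la, hQ⟩ := H.mem o k2 hz
  obtain ⟨kV, c, -⟩ := H.ch10 U k1
  obtain _ | b := q
  · exact absurd rfl hq
  have I : In σ Y p x ω := ⟨a1, a2.le, a3.le, a4.le, hω, hE⟩
  have e1 := c.e1
  have lW : Wd.lv σ p x ≤ Y.W :=
    le_of_add_le_left ((H.lvW (by nlinarith [U.one]) k2 a2.le a3.le).trans H.ok.w1)
  have cp : Y.cp x.1 v = Y.cp x.1 ω :=
    Prod.ext (H.ok.fC _ (H.iT a1) v hv ω hω la) (H.st.fs _ v hv ω hω la)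
  have uL : p.u ≤ 6 * p.L := by
    have : (p.u : ℝ) ≤ 6 * p.L := by linarith [c.uL, Nat.cast_nonneg (α := ℝ) p.u]
    exact_mod_cast this
  have M := ((ok H o U k1 I (fun a a' n => ?_) hv lW (hQ _ b1).symm).main le_rfl T
    (H.frk a1 hω hE) (u := 52 * e) (by linarith [U.card, H.num.e1])
    ((H.tows o U k1 a1 hω hE a2.le (by omega) (by omega)).up (by linarith))
    ((H.towk o U k1 a1 hω hE a2.le (by omega) (by omega) uL).up (by linarith))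
    Subtype.val_injective (fun b => Wd.sd_in x _ b.2) (fun a n => Wd.sd_out x _ fun y => n ⟨⟨a, y⟩, rfl⟩)
    (H.ok.fr ω hω).1).2 (σ.Φ.N + 1) (Nat.le_succ _) b
  swap
  · exact ((le_of_eq (inv_mul_cancel₀ (sub_pos.2 n).ne').symm).trans
      (mul_le_mul_of_nonneg_right ((hg (a, a')).trans k3) (sub_pos.2 n).le))
  rw [← wp inferInstance] at M
  refine le_of_eq_of_le ?_ (M.trans (div_le_div_of_nonneg_right (exp_le_exp.2 ?_) (by positivity)))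
  · simp only [dat]
    rw [← (H.st.val _ a1 ω hω hE).inc_φ H.ok hω hv, sub_right_comm]
    simp only [Wd.K', Wd.Z', Wd.K, Wd.Z, cz, cp]
    rfl
  · rw [← mul_assoc]
    exact mul_le_mul_of_nonneg_right k4 (by linarith)

end Pool.Agent.MP_5168f5_an.QA.SC
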