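import Pool.Agent.MP_4b405e_nt.SK.GTow2
import Pool.Agent.MP_4b405e_nt.SK.GRel0
import Pool.Agent.MP_4b405e_nt.SK.CLw

/-! Sparse heights, block C: the affine relation between the blocks. -/

namespace Pool.Agent.MP_5168f5_an.QA.SC.R73

open H19 H17S H17F R4 AN Matrix Real Finset Wd
open GA (Mt IsFr br)
open GA.CR (Tow Rd Kit)

variable {ι κ : Type} [Fintype ι] [DecidableEq ι] [Fintype κ] [DecidableEq κ] {σ : Kk ι κ}
  {Y : Wd ι κ} {p : Pm} {K e w r δ V : ℝ} {i i' : ℕ} {ω : Y.Ω}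

noncomputable instance : Fintype {b : κ // σ.Nn b} := Fintype.ofFinite _

omit [Fintype κ] [DecidableEq κ] in
theorem ff_bd (o : σ.Ok) (x : Par) (b : κ) : 1 ≤ ff σ x b ∧ ff σ x b ≤ 2 := by
  have l0 : 0 < lg := log_pos one_lt_two
  have a2 := (Nat.lt_floor_add_one ((σ.mu b * x.2.2.1 + σ.wt b * x.2.2.2) / lg)).le
  rw [div_le_iff₀ l0] at a2
  have k : (2 : ℝ) ^ nn σ x b = exp (lg * nn σ x b) := by
    rw [lg, mul_comm, exp_nat_mul, exp_log two_pos]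
  rw [ff, k, ← exp_sub]
  refine ⟨one_le_exp (by linarith [(nn_bd o x b).2]), ?_⟩
  rw [← exp_log two_pos, exp_le_exp]
  unfold nn
  rw [show log 2 = lg from rfl]
  linarith

omit [Fintype ι] [DecidableEq ι] [Fintype κ] [DecidableEq κ] in
theorem v1_spec (hω : ω ∈ Y.P.S) (hE : Y.E i ω) : Y.v1 i i' ω ∈ Y.P.S ∧ Y.E i (Y.v1 i i' ω) ∧
    Y.cp i (Y.v1 i i' ω) = Y.cp i ω ∧ Y.Cp i' (Y.v1 i i' ω) = Y.Cp i' ω :=
  have := N2.rep_spec (A := fun y => (Y.cp i y, Y.Cp i' y)) hω hE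
  ⟨this.1, this.2.1, (Prod.ext_iff.1 this.2.2).1, (Prod.ext_iff.1 this.2.2).2⟩

/-- The source is bounded. -/
theorem th_le (H : Y.Hyp σ p K e w r δ) (o : σ.Ok) (hc : (Fintype.card κ : ℝ) ≤ e) (hi : i < Y.nD)
    (hi' : i' ≤ Y.nT) (hω : ω ∈ Y.P.S) (hE : Y.E i ω) {d : ℝ} (d0 : 0 ≤ d)
    (hd : d ≤ Y.D i' - Y.D i) {a b : κ} (na : ¬σ.Nn a) (nb : σ.Nn b) (hr : σ.wt b * d ≤ r) :
    |Y.θ0 σ i i' d ω a b| ≤ exp (5 * e) := by
  obtain ⟨s1, s2, s3, s4⟩ := v1_spec (i' := i') hω hE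
  have k := H.st.val i hi ω hω hE
  have k1 := H.st.val i hi _ s1 s2
  have e0 : 0 ≤ e := (Nat.cast_nonneg _).trans hc
  have : Y.θ0 σ i i' d ω a b = ∑ f, exp (σ.wt b * d) * ((Y.X.R (Y.v1 i i' ω) ω a f -
      (1 : Matrix κ κ ℝ) a f) * Y.φ σ i (Y.cp i ω) (Y.v1 i i' ω) f b) := by
    rw [θ0, k.φ_coc H.ok hω s1, ← mul_sum, Matrix.mul_apply]
    simp only [sub_mul, sum_sub_distrib]
    rw [← Matrix.mul_apply (M := 1), Matrix.one_mul]
  rw [this]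
  refine (GA.CR.sum_le (X := exp (4 * e)) le_rfl (exp_pos _).le fun f => ?_).trans
    (by rw [← exp_add, exp_le_exp]; linarith)
  by_cases z : Y.X.R (Y.v1 i i' ω) ω a f = (1 : Matrix κ κ ℝ) a f
  · rw [z, sub_self, zero_mul, mul_zero, abs_zero]; exact (exp_pos _).le
  have g := ((H.ok.fr _ s1).2.2 ω hω).2.2.2 a f z
  have nf : σ.Nn f := by unfold Kk.Nn; linarith [o.vt0 a, g.1, g.2]
  have a1 := H.ok.rr i' hi' _ s1 ω hω s4 a f
  have vf := o.v0 f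
  rw [o.vz na, sub_zero] at a1
  rw [one_apply_ne fun q : a = f => na (q ▸ nf), sub_zero,
    show ∀ x y : ℝ, exp (σ.wt b * d) * (x * y) = exp (σ.wt b * d - σ.vt f * (Y.D i' - Y.D i)) *
      (exp (σ.vt f * Y.D i') * x * (exp (-(σ.vt f * Y.D i)) * y)) from fun x y => by
        rw [mul_mul_mul_comm, ← mul_assoc _ (_ * _), ← exp_add, ← exp_add]; congr 2; ring]
  have a0 := le_of_eq (abs_of_pos (exp_pos (σ.wt b * d - σ.vt f * (Y.D i' - Y.D i))))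
  by_cases q : σ.vt f < σ.wt b
  · have a2 := k1.v2 f b nf nb q
    rw [s3] at a2
    refine (Rd.mul_ex a0 (Rd.mul_ex a1 a2)).trans (exp_le_exp.2 ?_)
    linarith [mul_nonneg vf (d0.trans hd)]
  · have a2 := k.φ_le H.ok s1 (H.iT hi) (Prod.ext_iff.1 s3).1 f b
    refine (Rd.mul_ex a0 (Rd.mul_ex a1 a2)).trans (exp_le_exp.2 ?_)
    linarith [mul_le_mul (not_lt.1 q) hd d0 vf]

/-- The data at one pair. -/
noncomputable def rdd (σ : Kk ι κ) (Y : Wd ι κ) (p : Pm) (x : Par) (ω v : Y.Ω) :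
    Rd κ {b : κ // σ.Nn b} σ.Al where
  mu := σ.mu
  wt := σ.wt
  vt := σ.vt
  e := Subtype.val
  al := Subtype.val
  c := Y.ck σ x.1 (Y.cp x.1 ω)
  φ := Y.φ σ x.1 (Y.cp x.1 ω) ω
  φ₁ := Y.φ σ x.1 (Y.cp x.1 ω) (Y.v1 x.1 (Y.i1 p x) ω)
  τ := Y.t ω v
  sc := fun _ => 1
  b := Y.bb σ p x ω v
  ff := fun b => ff σ x b.1
  s := ss σ p x
  r' := sd σ p x p.u
  ρ := Y.ρ σ p x ω
  l := lv σ p x
  d := dp p x
  D := Y.D x.1
  n := p.u

omit [Fintype κ] [DecidableEq κ] in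
theorem i1_bd (n : Y.Num σ p K e w r δ) (m : 0 < Y.ms) {x : Par} (hi : x.1 < Y.nD)
    (hd : (dp p x : ℝ) ≤ p.kD * Y.ms) :
    Y.i1 p x ≤ Y.nT ∧ (dp p x : ℝ) ≤ Y.D (Y.i1 p x) - Y.D x.1 := by
  have a : ⌈(dp p x : ℝ) / Y.ms⌉₊ ≤ p.kD := Nat.ceil_le.2 ((div_le_iff₀ m).2 hd)
  have b := (div_le_iff₀ m).1 (Nat.le_ceil ((dp p x : ℝ) / Y.ms))
  refine ⟨by have := n.nT; unfold i1; omega, ?_⟩
  unfold D i1
  push_cast
  linarith

theorem rdd_ok (H : Y.Hyp σ p K e w r δ) (o : σ.Ok) (U : σ.Ub V) (hK : 10 * V ^ 2 ≤ K)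
    (kC : (σ.C : ℝ) ≤ K) (kg : ∀ a b, σ.wt a < σ.wt b → 1 ≤ (σ.wt b - σ.wt a) * K)
    {z : Par × (ℕ × Y.Ω) × Y.Ω} (hz : z ∈ (Y.P2 σ p).S) :
    (rdd σ Y p z.1 z.2.1.2 z.2.2).Ok (12 * e) p.xA := by
  obtain ⟨⟨hi, ht, hl, hd⟩, ⟨j1, -⟩, hω, hv, hE, -, -, hq⟩ := H.mem o kC hz
  obtain ⟨x, ⟨j, ω⟩, v⟩ := z
  dsimp only at *
  obtain ⟨kV, c, c'⟩ := H.ch10 U hK
  have v1 := U.one
  have K1 : 1 ≤ K := v1.trans kV
  have hc : (Fintype.card κ : ℝ) ≤ e := U.card.trans (kV.trans H.num.e1)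
  have e1 := c.e1
  have n0 : ∀ m : ℕ, (0 : ℝ) ≤ m := Nat.cast_nonneg
  have l0' : 1 / 2 ≤ lg := le_trans (by norm_num) log_two_gt_d9.le
  have l1 : lg ≤ 1 := log_two_lt_d9.le.trans (by norm_num)
  have pw : ∀ m : ℕ, (2 : ℝ) ^ m = exp (lg * m) := fun m => by
    rw [lg, mul_comm, exp_nat_mul, exp_log two_pos]
  have lW : lv σ p x ≤ Y.W :=
    ((Nat.le_add_right _ _).trans (H.lvW K1 kC ht.le hl.le)).trans H.ok.w1
  have d1 : (dp p x : ℝ) = p.d0 + x.2.2.2 := by simp [dp]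
  have d2 : (x.2.2.2 : ℝ) ≤ p.L := Nat.cast_le.2 hd.le
  have d3 : (dp p x : ℝ) ≤ 2 * p.d0 := by linarith [c.Ld, n0 p.L]
  have d4 : ∀ b, σ.wt b * dp p x + p.u ≤ p.xA := fun b => by
    have a1 := mul_le_mul (U.wt b) d3 (n0 _) (by linarith)
    have a2 := mul_le_mul_of_nonneg_right (show 10 * V ≤ 10 * V ^ 2 by nlinarith) (n0 p.d0)
    have a3 := mul_le_mul_of_nonneg_right v1 (n0 p.d0)
    linarith [c'.dx, c.uL, c.Ld, n0 p.u]
  have xr : (p.xA : ℝ) + 6 * e ≤ r := by linarith [c.eu, c.uL, c.Ld, c.dx, c.xn, c.nk, c.kr]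
  obtain ⟨i1T, i1D⟩ := i1_bd H.num H.ok.ms.1 hi (by linarith [c.dx, c.xn, c.nk, n0 p.d0])
  obtain ⟨s1, s2, s3, s4⟩ := v1_spec (i' := Y.i1 p x) hω hE
  have k := H.st.val _ hi ω hω hE
  have A := H.cak o U hK hi hω hE
  have I := H.ok.inc _ lW ω hω v hv (hq _ j1).symm
  have nA : ∀ a : σ.Al, ¬σ.Nn a.1 := fun a q => by unfold Kk.Nn at q; linarith [a.2.2]
  have fm : ∀ y ∈ Y.P.S, Y.Cp x.1 y = Y.Cp x.1 ω →
      (rdd σ Y p x ω v).Fm (Y.φ σ x.1 (Y.cp x.1 ω) y) (12 * e) := fun y hy q =>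
    ⟨fun a f => (k.φ_le H.ok hy (H.iT hi) q a f).trans (exp_le_exp.2 (by linarith)),
      fun a f n => k.φ_gr H.ok hy n, fun a f n => k.φ_id H.ok hy o a fun q => n ⟨⟨f, q⟩, rfl⟩⟩
  have T := H.tows o U hK (x := x) hi hω hE ht.le (by omega) (by omega)
  have up : ∀ {a b : ℝ}, a ≤ b → exp a ≤ exp b := fun h => exp_le_exp.2 h
  refine ⟨by linarith, n0 _, n0 _, fun a => (o.w0 a).le, Subtype.val_injective,
    fun b => o.nlive b.2, fun a => a.2.1, fun a => ?_, fun a => o.vz (nA a), fm ω hω rfl,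
    fm _ s1 (Prod.ext_iff.1 s3).1, fun a => (I a).1.trans (up (by dsimp only [rdd]; linarith)),
    fun b => ((I b.1).2 (ne_of_gt b.2)).trans (up ?_), fun a => ?_, fun a => ?_,
    fun a b => (th_le H o hc hi i1T hω hE (n0 _) i1D (nA a) b.2
      (by linarith [d4 b.1, n0 p.u])).trans (up (by linarith)),
    fun b => ff_bd o x b.1, T.pos, fun b => ?_, fun a q => ?_, fun a => ?_,
    fun a b f => (A.ob a b f).trans (up (by linarith)),
    fun a b q n => (A.nh a q.1 b.1 (o.nlive b.2) (fun t => n t.2.2) _ (n0 _)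
      (Nat.cast_le.2 lW)).trans (up (by linarith)),
    fun a b q n => (A.v1 a q.1 b.1 q.2 b.2 n).trans (up (by linarith)), fun b => ?_,
    fun b q n => ?_, fun a => abs_one.trans_le (one_le_exp (by linarith)), fun a q => rfl,
    fun a b q => ?_, fun a b q => ?_, fun a b => ?_⟩
  · by_cases n : σ.Nn a
    · exact Or.inl ⟨⟨a, n⟩, rfl⟩
    · refine Or.inr ⟨o.vz n, (o.m0 a).eq_or_lt'.imp id fun q => ⟨⟨a, q, ?_⟩, rfl⟩⟩
      exact sub_eq_zero.1 (o.vz n)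
  · dsimp only [rdd]
    linarith [H.rw' U kV (H.iT hi), mul_le_mul_of_nonneg_right (U.vt b.1) (Y.D_nonneg x.1)]
  · dsimp only [rdd, Rd.β, bb]
    have a1 := rd_near p.nb (exp (σ.mu a.1 * lv σ p x) * Y.t ω v a.1)
    rw [pw, ← exp_neg, abs_sub_comm] at a1
    have a2 := Rd.mul_ex (le_of_eq (abs_of_pos (exp_pos (-(σ.mu a.1 * lv σ p x))))) a1
    rw [mul_sub, ← mul_assoc, ← exp_add, neg_add_cancel, exp_zero, one_mul] at a2
    rw [one_mul]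
    refine a2.trans (up ?_)
    linarith [mul_le_mul_of_nonneg_right l0' (n0 p.nb), c.xn, n0 p.xA]
  · dsimp only [rdd, bb]
    have a1 := abs_le.1 ((rd_near p.nb (exp (σ.mu a.1 * lv σ p x) * Y.t ω v a.1)).trans
      (inv_le_one_of_one_le₀ (one_le_pow₀ one_le_two)))
    have a2 := abs_le.1 ((Rd.mul_ex (le_of_eq (abs_of_pos (exp_pos (σ.mu a.1 * lv σ p x))))
      (I a.1).1).trans (up (show _ ≤ e by linarith)))
    have a3 : exp e + 1 ≤ exp (12 * e) := by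
      rw [show 12 * e = e + 11 * e by ring, exp_add]
      nlinarith [add_one_le_exp (11 * e), add_one_le_exp e]
    unfold Wd.t at a1 ⊢
    rw [abs_le]
    constructor <;> linarith [a1.1, a1.2, a2.1, a2.2]
  · dsimp only [rdd]
    rw [ss, if_pos b.2, r0_eq, rh_live (o.nlive b.2).ne', dh_in b.2, ff, mul_div_assoc', ← exp_add]
    congr 2
    simp only [lv, dp, Nat.cast_add]
    ring
  · dsimp only [rdd] at q ⊢
    rw [sd_eq o, rh_dead q]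
  · dsimp only [rdd]
    have lv0 : σ.mu a * lv σ p x = σ.mu a * l0 σ p x.2.1 + σ.mu a * x.2.2.1 := by
      simp only [lv, Nat.cast_add, mul_add]
    have m0 := mul_nonneg (o.m0 a) (n0 x.2.2.1)
    rw [sd_eq o]
    by_cases q : σ.mu a = 0
    · rw [rh_dead q, q, zero_mul, zero_add]; exact exp_le_one_iff.2 (neg_nonpos.2 (n0 _))
    rw [rh_live q]
    refine up ?_
    by_cases n : σ.Nn a
    · rw [dh_in n]
      have := d4 a
      rw [d1] at this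
      linarith [(nn_bd o x a).2, mul_le_mul_of_nonneg_right l1 (n0 p.u)]
    · rw [dh_out n]; linarith
  · dsimp only [rdd]
    linarith [d4 b.1, mul_le_mul_of_nonneg_left l1 (n0 p.u)]
  · dsimp only [rdd] at n ⊢
    have a1 := mul_le_mul_of_nonneg_right (kg _ _ n) (n0 p.u)
    have a2 : K * p.u ≤ dp p x := by
      linarith [(H.num.chn K1).uL, c.Ld, n0 p.L, n0 x.2.2.2]
    have a3 := mul_le_mul_of_nonneg_left a2 (sub_pos.2 n).le
    linarith [mul_le_mul_of_nonneg_left l1 (n0 p.u)]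
  · have f1 := ff_bd o x b.1
    have f2 := ff_bd o x q.1
    have a1 : |Y.ρ0 σ x.1 (Y.i1 p x) ω a.1 b.1 q.1| ≤ exp (11 * e) := by
      unfold ρ0
      split_ifs
      · have : ∀ t : κ → ℝ, br (Y.ck σ x.1 (Y.cp x.1 ω)) t (Pi.single q.1 1) b.1 =
            ∑ f, t f * Y.ck σ x.1 (Y.cp x.1 ω) f q.1 b.1 := fun t => by
          simp [br, Pi.single_apply, mul_comm]
        rw [this]
        refine (GA.CR.sum_le (X := exp (10 * e)) le_rfl (exp_pos _).le fun f => ?_).trans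
          (by rw [← exp_add, exp_le_exp]; linarith)
        have a2 := k.φ_le H.ok s1 (H.iT hi) (Prod.ext_iff.1 s3).1 a.1 f
        rw [o.vz (nA a), zero_mul, neg_zero, exp_zero, one_mul] at a2
        exact (Rd.mul_ex a2 (A.ob _ _ _)).trans (up (by linarith))
      · rw [abs_zero]; exact (exp_pos _).le
    show |Y.ρ0 σ x.1 (Y.i1 p x) ω a.1 b.1 q.1 * ff σ x q.1 / ff σ x b.1| ≤ _
    rw [mul_div_assoc]
    refine (Rd.mul_ex (b := e) a1 ?_).trans (up (by linarith))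
    rw [abs_of_nonneg (div_nonneg (by linarith) (by linarith)), div_le_iff₀ (by linarith)]
    nlinarith [add_one_le_exp e]
  · dsimp only [rdd]
    rw [one_mul]
    rfl
  · dsimp only [rdd, ρ, Option.elim]
    split_ifs
    · rw [one_mul, neg_add_eq_sub, abs_sub_comm, one_div]
      exact (rd_near _ _).trans (inv_anti₀ (by positivity) (pow_le_pow_right₀ one_le_two (by omega)))
    · rw [add_zero, abs_zero]; positivity

omit [DecidableEq κ] in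
theorem ex_gap (σ : Kk ι κ) : ∃ G : ℝ, 0 ≤ G ∧ ∀ a b, σ.wt a < σ.wt b → 1 ≤ (σ.wt b - σ.wt a) * G := by
  have k : ∀ q : κ × κ, 0 ≤ |(σ.wt q.2 - σ.wt q.1)⁻¹| := fun _ => abs_nonneg _
  refine ⟨∑ q : κ × κ, |(σ.wt q.2 - σ.wt q.1)⁻¹|, sum_nonneg fun q _ => k q, fun a b h => ?_⟩
  rw [mul_comm, ← div_le_iff₀ (sub_pos.2 h), one_div]
  exact (le_abs_self _).trans (single_le_sum (fun q _ => k q) (mem_univ (a, b)))

theorem ser {ν : Type} [Fintype ν] [DecidableEq ν] (F : Fintype (Option ν))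
    (D : DecidableEq (Option ν)) (m : ℕ) (R : Matrix (Option ν) (Option ν) ℝ) (z : Option ν → ℝ) :
    (letI := F; letI := D; ∑ i ∈ Finset.range m, ((i.factorial : ℚ))⁻¹ • ((-R) ^ i *ᵥ z)) =
      (letI : Fintype (Option ν) := instFintypeOption
       letI : DecidableEq (Option ν) := Option.instDecidableEq
       ∑ i ∈ Finset.range m, ((i.factorial : ℚ))⁻¹ • ((-R) ^ i *ᵥ z)) := by
  cases Subsingleton.elim F instFintypeOption
  cases Subsingleton.elim D Option.instDecidableEq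
  rfl

theorem rowR : RowR := fun ι κ _ _ _ _ σ o => by
  obtain ⟨V, U⟩ := o.ub
  obtain ⟨G, G0, hG⟩ := ex_gap σ
  obtain ⟨C, kit⟩ := GA.CR.kit σ.Φ.N (Fintype.card κ)
  have v1 := U.one
  have c1 := kit.c1
  have n0 : ∀ m : ℕ, (0 : ℝ) ≤ m := Nat.cast_nonneg
  obtain ⟨A, hA⟩ : ∃ A : ℝ, A = (24 * C ^ 3 + ((σ.Φ.N + 1 : ℕ) + 1) * (2 * Fintype.card κ + 5)) * 51 :=
    ⟨_, rfl⟩
  have A0 : 0 ≤ A := by rw [hA]; positivity
  have V2 : 1 ≤ V ^ 2 := one_le_pow₀ v1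
  refine ⟨10 * V ^ 2 + σ.C + G + A, by linarith [n0 σ.C], fun Y p e w r δ H => ?_⟩
  have hK : 10 * V ^ 2 ≤ 10 * V ^ 2 + σ.C + G + A := by linarith [n0 σ.C]
  have kC : (σ.C : ℝ) ≤ 10 * V ^ 2 + σ.C + G + A := by linarith
  refine ⟨fun z q => q.elim 0 fun b => GA.CR.c0 σ.Φ.N (Y.Bk σ z.1.1 (Y.cp z.1.1 z.2.1.2))
    (Y.ck σ z.1.1 (Y.cp z.1.1 z.2.1.2)) (ss σ p z.1) (rdd σ Y p z.1 z.2.1.2 z.2.2).t
    (Y.K σ p z.1 z.2.1.2).2.2 (Y.K σ p z.1 z.2.2).2.2 b.1, ?_, fun z hz q hq => ?_⟩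
  · rintro ⟨x, ⟨j, ω⟩, v⟩ - ⟨x', ⟨j', ω'⟩, v'⟩ - h
    have h1 : Y.K σ p x v = Y.K σ p x' v' := congrArg Prod.fst h
    have h2 : Y.K σ p x ω = Y.K σ p x' ω' := congrArg (fun y => y.2.1) h
    obtain rfl : x = x' := congrArg Prod.fst h2
    have h3 : Y.cp x.1 ω = Y.cp x.1 ω' := congrArg (fun y => y.2.1) h2
    have h4 : Y.Cp (Y.i1 p x) ω = Y.Cp (Y.i1 p x) ω' := congrArg (fun y => y.2.2.1) h
    have h5 : Y.bb σ p x ω v = Y.bb σ p x ω' v' := congrArg (fun y => y.2.2.2.1) h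
    have h6 : Y.v1 x.1 (Y.i1 p x) ω = Y.v1 x.1 (Y.i1 p x) ω' := N2.rep_congr (Prod.ext h3 h4)
    have h7 : (rdd σ Y p x ω v).t = (rdd σ Y p x ω' v').t := by
      funext f
      simp only [Rd.t, Rd.β, rdd, h3, h5, h6]
    simp only [h1, h2, h3, h7]
  · have O := rdd_ok H o U hK kC (fun a b h => (hG a b h).trans
      (mul_le_mul_of_nonneg_left (by linarith [n0 σ.C]) (sub_pos.2 h).le)) hz
    obtain ⟨⟨hi, ht, hl, hd⟩, -, hω, hv, hE, -, hlam, -⟩ := H.mem o kC hz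
    obtain ⟨x, ⟨j, ω⟩, v⟩ := z
    dsimp only at hi ht hl hd hω hv hE hlam O
    obtain ⟨kV, c, -⟩ := H.ch10 U hK
    have hc : (Fintype.card κ : ℝ) ≤ e := U.card.trans (kV.trans H.num.e1)
    have e1 := c.e1
    have uL : p.u ≤ 6 * p.L := by
      rw [← Nat.cast_le (α := ℝ)]; push_cast; linarith [c.uL, n0 p.u, n0 p.L]
    have cp : Y.cp x.1 v = Y.cp x.1 ω :=
      Prod.ext (H.ok.fC _ (H.iT hi) _ hv _ hω hlam) (H.st.fs _ _ hv _ hω hlam)
    have M := (O.main le_rfl (u := 51 * e) kit (H.frk hi hω hE) (by linarith)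
      ((H.tows o U hK (x := x) hi hω hE ht.le (by omega) (by omega)).up (by linarith))
      ((H.towk o U hK (x := x) hi hω hE ht.le (by omega) (by omega) uL).up (by linarith))
      Subtype.val_injective (fun b => sd_in x p.u b.2) (fun a n => sd_out x p.u fun k => n ⟨⟨a, k⟩, rfl⟩)
      (H.ok.fr ω hω).1).2 (σ.Φ.N + 1) (Nat.le_succ _)
    obtain _ | b := q
    · exact absurd rfl hq
    have M1 := M b
    have jv := (H.st.val _ hi ω hω hE).inc_φ H.ok hω hv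
    have s1 : (Y.bd σ p).Z (x, (j, ω), v) + (Y.bd σ p).N (x, (j, ω), v) = _ :=
      (@GA.CR.wp_eq σ.Nu _ (fun a b => Classical.propDecidable (a = b)) σ.Φ.N _ _).trans
        (ser _ _ _ _ _)
    rw [s1, sub_right_comm]
    refine le_trans (le_of_eq ?_) (M1.trans (div_le_div_of_nonneg_right (exp_le_exp.2 ?_)
      (by positivity)))
    · simp only [Z', Wd.Z, Wd.K, cp, jv]
      rfl
    · rw [← mul_assoc, ← hA]
      exact mul_le_mul_of_nonneg_right (by linarith [n0 σ.C]) (by linarith)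

end Pool.Agent.MP_5168f5_an.QA.SC.R73
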