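import Pool.Agent.MP_4b405e_nt.SK.CBud

/-! The product structure for dyadic digits, with the level and the depth inside the context. -/

namespace Pool.Agent.MP_4b405e_nt.FB

open Pool.Agent.MP_5168f5_an H19 H17S H17F QA Real Finset

variable {α ν Ω Λ Λ' : Type} [Fintype ν] {P : FP Ω}

theorem ch_pi' {γ β : Type} (f : ν → Ω → γ) (G : Ω → β) :
    ch P (fun ω i => f i ω) G ≤ ∑ i, ch P (f i) G := by
  classical
  obtain ⟨ω, -⟩ : P.S.Nonempty :=
    Finset.nonempty_of_sum_ne_zero (by rw [P.sum_one]; exact one_ne_zero)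
  rcases isEmpty_or_nonempty ν with h | ⟨⟨i⟩⟩
  · rw [ch_zero fun _ _ _ _ _ => funext fun i => isEmptyElim i]
    exact sum_nonneg fun _ _ => ch_nonneg _ _
  · simpa using ch_pi_le (P := P) univ f (f i ω) G

/-- The digits at the depths `w * y`. -/
noncomputable def cel (w : ν → ℝ) (Q : Ω → Λ) (x : Ω → ν → ℝ) (y : ν → ℝ) (ω : Ω) : Λ × (ν → ℤ) :=
  (Q ω, fun p => fl1 ⌊w p * y p / lg⌋₊ (x ω p))

theorem cel_cel {w : ν → ℝ} (w0 : ∀ p, 0 < w p) (Q : Ω → Λ) (x : Ω → ν → ℝ) :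
    TanG.Cel P (cel w Q x) (∑ p, (w p + 1)) := by
  have m : ∀ p {s t : ℝ}, s ≤ t → ⌊w p * s / lg⌋₊ ≤ ⌊w p * t / lg⌋₊ := fun p s t e =>
    Nat.floor_le_floor (div_le_div_of_nonneg_right (mul_le_mul_of_nonneg_left e (w0 p).le)
      lg_pos.le)
  refine ⟨fun s t e a _ b _ k => Prod.ext (congrArg (·.1) k :) (funext fun p =>
    fl1_eq_of_le (m p (e p)) (congrFun (congrArg Prod.snd k) p)), fun s t M e a _ b _ k =>
    Prod.ext (congrArg (·.1.1) k) (funext fun p => (e p).elim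
      (fun u => fl1_eq_of_le (m p u) (congrFun (congrArg (·.1.2) k) p))
      fun u => fl1_eq_of_le (m p u) (congrFun (congrArg (·.2.2) k) p)), fun s h h0 => ?_⟩
  refine (ch_mono (F' := fun ω p => fl1 ⌊w p * (s p + h) / lg⌋₊ (x ω p))
    (((Fn.fst _ _).right _).pair (Fn.fst _ _))).trans ((ch_pi' _ _).trans ?_)
  rw [sum_mul]
  refine sum_le_sum fun p _ => ?_
  have k := m p (le_add_of_nonneg_right h0 : s p ≤ s p + h)
  have := ch_fl1_refine (P := P) (x := fun ω => x ω p) (G := cel w Q x s)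
    (j := fun _ => ⌊w p * s p / lg⌋₊) (i := fun _ => ⌊w p * (s p + h) / lg⌋₊ - ⌊w p * s p / lg⌋₊)
    (fun _ _ _ _ _ => rfl) (fun _ _ _ _ _ => rfl)
    fun _ _ _ _ e => congrFun (congrArg Prod.snd e) p
  rw [FP.E_const, Nat.add_sub_cancel' k, Nat.cast_sub k] at this
  refine this.trans ?_
  have wh := mul_nonneg (w0 p).le h0
  have a : (⌊w p * (s p + h) / lg⌋₊ : ℝ) ≤ ⌊w p * s p / lg⌋₊ + 1 + w p * h / lg := by
    rcases le_total 0 (w p * (s p + h) / lg) with c | c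
    · have := Nat.lt_floor_add_one (w p * s p / lg)
      have := Nat.floor_le c
      rw [mul_add, add_div] at *
      linarith
    · rw [Nat.floor_of_nonpos c, Nat.cast_zero]
      have := lg_pos
      positivity
  have b := mul_le_mul_of_nonneg_right a lg_pos.le
  rw [add_mul, add_mul, div_mul_cancel₀ _ lg_pos.ne'] at b
  nlinarith [lg_lt_one, w0 p]

/-- The context `K` consists of the label `Q` and of `n p` digits of `x p`, where `n p` is the depth
`a p` up to `s`; the block `Z p` is read from the next `u` digits up to `s`. -/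
structure Dig (P : FP Ω) (Q : Ω → Λ) (x : Ω → ν → ℝ) (n : ν → ℕ) (K : Ω → Λ') (Z : Ω → ν → ℝ)
    (a : ν → ℝ) (u : ℕ) (s : ℝ) : Prop where
  dp : ∀ p, |n p * lg - a p| ≤ s
  k1 : Fn P K fun ω => (Q ω, fun p => fl1 (n p) (x ω p))
  k2 : Fn P (fun ω => (Q ω, fun p => fl1 (n p) (x ω p))) K
  z : ∀ p, ch P (fun ω => Z ω p) (fun ω => (fl1 (n p + u) (x ω p), K ω)) ≤ s

variable {σ : Bc α ν} {Q : Ω → Λ} {x : Ω → ν → ℝ} {n : ν → ℕ} {K : Ω → Λ'} {Z : Ω → ν → ℝ}
  {y : ν → ℝ} {u : ℕ} {s h : ℝ}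

theorem Dig.le (H : Dig P Q x n K Z (fun p => σ.w p * y p) u s) (hh : ∀ p, s + u ≤ σ.w p * h)
    (r : ℝ) : mi P (fun ω => σ.low r (Z ω)) (fun ω => σ.high r (Z ω)) K ≤
      mi P (cel σ.w Q x (TanG.pw (fun b => σ.cl b < r) (fun b => y b - h) fun b => y b + h))
        (cel σ.w Q x (TanG.pw (fun b => σ.cl b < r) (fun b => y b + h) fun b => y b - h))
        (cel σ.w Q x fun b => y b - h) + 2 * (Fintype.card ν * s) := by
  classical
  have u0 : (0 : ℝ) ≤ u := Nat.cast_nonneg u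
  have lo : ∀ p, ⌊σ.w p * (y p - h) / lg⌋₊ ≤ n p := fun p => Nat.floor_le_of_le (by
    rw [div_le_iff₀ lg_pos]; linarith [(abs_le.1 (H.dp p)).1, hh p])
  have hi : ∀ p, n p + u ≤ ⌊σ.w p * (y p + h) / lg⌋₊ := fun p => Nat.le_floor (by
    rw [le_div_iff₀ lg_pos]
    push_cast
    linarith [(abs_le.1 (H.dp p)).2, hh p, mul_le_of_le_one_right u0 lg_lt_one.le])
  obtain ⟨A, hA⟩ : ∃ A, A = cel σ.w Q x
    (TanG.pw (fun b => σ.cl b < r) (fun b => y b - h) fun b => y b + h) := ⟨_, rfl⟩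
  obtain ⟨B, hB⟩ : ∃ B, B = cel σ.w Q x
    (TanG.pw (fun b => σ.cl b < r) (fun b => y b + h) fun b => y b - h) := ⟨_, rfl⟩
  have fA : ∀ p, σ.cl p < r → Fn P (fun ω => fl1 (n p + u) (x ω p)) A := fun p c a _ b _ k =>
    fl1_eq_of_le (hi p) (by simpa [hA, cel, TanG.pw, c] using congrFun (congrArg Prod.snd k) p)
  have fB : ∀ p, ¬σ.cl p < r → Fn P (fun ω => fl1 (n p + u) (x ω p)) B := fun p c a _ b _ k =>
    fl1_eq_of_le (hi p) (by simpa [hB, cel, TanG.pw, c] using congrFun (congrArg Prod.snd k) p)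
  have s0 : ∀ p : ν, 0 ≤ s := fun p => (abs_nonneg _).trans (H.dp p)
  have a1 : ch P (fun ω => σ.low r (Z ω)) (fun ω => (A ω, K ω)) ≤ Fintype.card ν * s := by
    refine (ch_pi' (fun p ω => σ.low r (Z ω) p) _).trans ((sum_le_card_nsmul _ _ _ fun p _ =>
      ?_).trans_eq (by rw [card_univ, nsmul_eq_mul]))
    by_cases c : σ.cl p < r
    · simp only [Bc.low, if_pos c]
      exact (ch_anti (((fA p c).left _).pair (Fn.snd _ _))).trans (H.z p)
    · simp only [Bc.low, if_neg c]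
      exact (ch_zero fun _ _ _ _ _ => rfl).trans_le (s0 p)
  have a2 : ch P (fun ω => σ.high r (Z ω)) (fun ω => (B ω, K ω)) ≤ Fintype.card ν * s := by
    refine (ch_pi' (fun p ω => σ.high r (Z ω) p) _).trans ((sum_le_card_nsmul _ _ _ fun p _ =>
      ?_).trans_eq (by rw [card_univ, nsmul_eq_mul]))
    by_cases c : σ.cl p < r
    · simp only [Bc.high, if_pos c]
      exact (ch_zero fun _ _ _ _ _ => rfl).trans_le (s0 p)
    · simp only [Bc.high, if_neg c]
      exact (ch_anti (((fB p c).left _).pair (Fn.snd _ _))).trans (H.z p)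
  have b1 := mi_near (P := P) (fun ω => σ.low r (Z ω)) (fun ω => σ.high r (Z ω)) B K
  have b2 := mi_near (P := P) B (fun ω => σ.low r (Z ω)) A K
  obtain ⟨M, hM⟩ : ∃ M : Ω → Λ × (ν → ℤ), M = fun ω => (Q ω, fun p => fl1
    (if σ.cl p < r then n p else ⌊σ.w p * (y p - h) / lg⌋₊) (x ω p)) := ⟨_, rfl⟩
  have c1 : mi P A B M ≤ mi P A B (cel σ.w Q x fun b => y b - h) := by
    refine mi_left (fun a _ b _ k => ?_) (Fn.left (fun a ha b hb k => ?_) _) (Fn.fst _ _)
    · rw [hM] at k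
      refine Prod.ext (congrArg (·.1) k :) (funext fun p => fl1_eq_of_le ?_
        (congrFun (congrArg Prod.snd k) p))
      split_ifs
      exacts [lo p, le_rfl]
    · rw [hM]
      refine Prod.ext (by simpa [hA, cel] using congrArg Prod.fst k) (funext fun p => ?_)
      by_cases c : σ.cl p < r
      · simp only [if_pos c]
        exact fl1_eq_of_le (Nat.le_add_right _ u) (fA p c a ha b hb k)
      · simpa [hA, cel, TanG.pw, c] using congrFun (congrArg Prod.snd k) p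
  have c2 : mi P A B K ≤ mi P A B M := by
    refine mi_right (Fn.trans (fun a _ b _ k => ?_) H.k2) (H.k1.trans fun a ha b hb k => ?_)
      (Fn.fst _ _)
    · rw [hM]
      refine Prod.ext (congrArg (·.1) k :) (funext fun p => fl1_eq_of_le ?_
        (congrFun (congrArg Prod.snd k) p))
      split_ifs
      exacts [le_rfl, lo p]
    · have k2 := congrArg Prod.snd k
      rw [hM] at k2
      refine Prod.ext (congrArg (·.1) k2 :) (funext fun p => ?_)
      by_cases c : σ.cl p < r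
      · simpa [c] using congrFun (congrArg Prod.snd k2) p
      · exact fl1_eq_of_le (Nat.le_add_right _ u) (fB p c a ha b hb (congrArg Prod.fst k))
  rw [mi_symm _ B] at b1
  rw [mi_symm B A] at b2
  rw [← hA, ← hB]
  linarith

/-- The sum over the box of levels and depths. -/
theorem tan_sum (σ : Bc α ν) (w0 : ∀ p, 0 < σ.w p) : ∃ c : ℝ, 0 ≤ c ∧ ∀ (Ω Λ Λ' : Type) (P : FP Ω)
    (Q : Ω → Λ) (x : Ω → ν → ℝ) (o : ν → ℝ) (n : ℕ → ℕ → ν → ℕ) (K : ℕ → ℕ → Ω → Λ')
    (Z : ℕ → ℕ → Ω → ν → ℝ) (u L D : ℕ) (s r : ℝ), 0 ≤ s → (∀ l < L, ∀ d < D,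
      Dig P Q x (n l d) (K l d) (Z l d) (fun p => o p + σ.wt p * l + σ.w p * d) u s) →
    ∑ l ∈ range L, ∑ d ∈ range D,
      mi P (fun ω => σ.low r (Z l d ω)) (fun ω => σ.high r (Z l d ω)) (K l d)
        ≤ c * ((u + s + 1) ^ 2 * (L + D) + (s + 1) * (L * D)) := by
  obtain ⟨c, c0, g⟩ := TanG.tan σ.cl
  obtain ⟨m, hm⟩ : ∃ m : ℝ, m = 1 + ∑ p, (σ.w p)⁻¹ := ⟨_, rfl⟩
  obtain ⟨C, hC⟩ : ∃ C : ℝ, C = ∑ p, (σ.w p + 1) := ⟨_, rfl⟩
  have m1 : 1 ≤ m := hm ▸ le_add_of_nonneg_right (sum_nonneg fun p _ => (inv_pos.2 (w0 p)).le)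
  have m2 : ∀ p, 1 ≤ σ.w p * m := fun p => by
    have := single_le_sum (f := fun p => (σ.w p)⁻¹) (fun p _ => (inv_pos.2 (w0 p)).le) (mem_univ p)
    have := mul_le_mul_of_nonneg_left (show (σ.w p)⁻¹ ≤ m by linarith) (w0 p).le
    rwa [mul_inv_cancel₀ (w0 p).ne'] at this
  have C0 : 0 ≤ C := hC ▸ sum_nonneg fun p _ => by linarith [w0 p]
  refine ⟨c * C * m ^ 2 + 2 * Fintype.card ν, by positivity,
    fun Ω Λ Λ' P Q x o n K Z u L D s r s0 H => ?_⟩
  have t1 : (1 : ℝ) ≤ u + s + 1 := by have := Nat.cast_nonneg (α := ℝ) u; linarith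
  have k := g Ω _ P _ _ (cel_cel w0 Q x) (fun p => o p / σ.w p) r (m * (u + s + 1)) L D
    (one_le_mul_of_one_le_of_one_le m1 t1)
  have k' := sum_le_sum fun l (hl : l ∈ range L) => sum_le_sum fun d (hd : d ∈ range D) =>
    Dig.le (σ := σ) (y := TanG.pt (fun p => o p / σ.w p) σ.cl l d) (h := m * (u + s + 1))
      (K := K l d) (Z := Z l d) (by
        convert H l (mem_range.1 hl) d (mem_range.1 hd) using 2 with p
        have := (w0 p).ne'
        simp only [TanG.pt, Bc.cl, Int.cast_natCast]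
        field_simp) (fun p => by nlinarith [m2 p]) r
  simp only [sum_add_distrib, sum_const, card_range, nsmul_eq_mul] at k'
  rw [← hC] at k
  have p1 : 0 ≤ (u + s + 1) ^ 2 * ((L : ℝ) + D) := by positivity
  have p2 : 0 ≤ (L : ℝ) * D := by positivity
  have p3 : c * C * (L * D) ≤ c * C * m ^ 2 * ((s + 1) * (L * D)) := by
    rw [mul_assoc (c * C), ← mul_assoc (m ^ 2)]
    exact mul_le_mul_of_nonneg_left (le_mul_of_one_le_left p2 (one_le_mul_of_one_le_of_one_le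
      (one_le_pow₀ m1) (by linarith))) (by positivity)
  have p4 := mul_nonneg (Nat.cast_nonneg (α := ℝ) (Fintype.card ν)) p1
  have p5 := mul_nonneg (Nat.cast_nonneg (α := ℝ) (Fintype.card ν)) p2
  rw [mul_pow] at k
  linarith

end Pool.Agent.MP_4b405e_nt.FB
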