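import Pool.Agent.MP_4b405e_nt.SK.SlD
import Pool.Agent.MP_4b405e_nt.SK.Bern
import Pool.Agent.MP_4b405e_nt.H6.Cover

/-! Sparse heights: from entropy to covering numbers. -/

namespace Pool.Agent.MP_5168f5_an.QA.Brn

open H19 H17S H17F MX Filter Perf

variable {N : ℕ}

/-- The heights are fair off an event of probability `θ`. -/
def FrC (x : Cfg N) (k M : ℕ) (θ : ℝ) : Prop := pb x.P (fun ω => ¬∀ a b, a ≤ b → b ≤ M →
  cm x.P ((shOf x).O a) ((shOf x).O b) ω ≤ Real.exp 2 * bw (k : ℝ)⁻¹ a b (x.z ω)) ≤ θ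

theorem mu_le {x : Cfg N} (h : x.Box) (M : ℕ) : mu x M ≤ N * M * lg := by
  have c := ch_fl_refine (P := x.P) (x := x.e) (j := 0) (i := M) (G := fun ω =>
    (fl M (x.pt ω), fl1 M (x.z ω), x.θ ω)) fun a ha b hb _ => funext fun i =>
      (fl1_zero_of_box ((h a ha).2.1 i).1 ((h a ha).2.1 i).2).trans
        (fl1_zero_of_box ((h b hb).2.1 i).1 ((h b hb).2.1 i).2).symm
  rwa [zero_add] at c

theorem fin1 (h : NoSlf) (N l₀ : ℕ) {ε : ℝ} (hε : 0 < ε) : ∃ l : ℕ, l₀ < l ∧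
    ∀ (M : ℕ) (x : Cfg N), x.Box → Fn x.P x.θ (fun _ => ()) →
    Fn x.P x.ln (fun ω => fl M (x.e ω)) → Fn x.P x.z (fun ω => fl1 M (x.z ω)) → l * l ≤ M →
    FrC x (M / l) M (1 / l) → mu x M ≤ ε * M := by
  by_contra k
  simp only [not_exists, not_and, not_forall, not_le] at k
  choose M x a1 a2 a3 a4 a5 a6 a7 using fun j : ℕ => k (j + l₀ + 1) (by omega)
  have b : ∀ j, j + l₀ + 1 ≤ M j / (j + l₀ + 1) := fun j =>
    (Nat.le_div_iff_mul_le (by omega)).2 (a5 j)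
  have id : Big fun j => j := tendsto_atTop.2 ev_ge
  have t : Two (fun j => M j / (j + l₀ + 1)) M :=
    ⟨tendsto_atTop_mono (fun j => le_trans (by omega) (b j)) id,
      tendsto_atTop_mono (fun j => le_trans (show j ≤ j + l₀ + 1 by omega)
        ((Nat.le_div_iff_mul_le (lt_of_lt_of_le (by omega) (b j))).2 (Nat.mul_div_le _ _))) id⟩
  refine h N ε hε ⟨x, M, _, ⟨t.big, a1, a2, a3, a4⟩, t, fun θ hθ => ?_,
    .of_forall fun n => (a7 n).le⟩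
  filter_upwards [id.ev (1 / θ)] with j e
  refine (a6 j).trans ?_
  rw [div_le_iff₀ hθ] at e
  rw [div_le_iff₀ (by positivity)]
  push_cast
  nlinarith [Nat.cast_nonneg (α := ℝ) l₀]

theorem cfg (h : NoSlf) (N l₀ : ℕ) {ε : ℝ} (hε : 0 < ε) : ∃ (l : ℕ) (C : ℝ), l₀ < l ∧
    ∀ (ι W : Type) (M : ℕ) (P : FP ι) (A e : ι → V N) (Q : FP W) (z : W → ℝ),
    (∀ r i, 0 ≤ A r i ∧ A r i < 1) → (∀ r ∈ P.S, ∀ i, 0 ≤ e r i ∧ e r i < 1) →
    (∀ w, 0 ≤ z w ∧ z w < 1) → Fn P id (fun r => fl M (e r)) →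
    (∀ w w', fl1 M (z w) = fl1 M (z w') → z w = z w') →
    (l * l ≤ M → pb Q (fun w => ¬∀ a b, a ≤ b → b ≤ M →
      cm Q (fun v => fl1 a (z v)) (fun v => fl1 b (z v)) w ≤
        Real.exp 2 * bw ((M / l : ℕ) : ℝ)⁻¹ a b (z w)) ≤ 1 / l) →
    hh P id ≤ ε * M + C + ch (prod P Q)
      (fun v => fl M (A v.1 + z v.2 • e v.1)) fun v => fl1 M (z v.2) := by
  obtain ⟨l, l0, hC⟩ := fin1 h N l₀ hε
  refine ⟨l, N * (l * l : ℕ) * lg, l0, fun ι W M P A e Q z a1 a2 a3 a4 a5 a6 => ?_⟩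
  have mem : ∀ v ∈ (prod P Q).S, v.1 ∈ P.S ∧ v.2 ∈ Q.S := fun v => (AB.mem_prod v).1
  have lp := lg_pos
  let x : Cfg N :=
    ⟨ι × W, Unit, prod P Q, fun v => A v.1, fun v => e v.1, fun v => z v.2, fun _ => ()⟩
  have bx : x.Box := fun v hv => ⟨a1 _, a2 _ (mem v hv).1, a3 _⟩
  have k : mu x M ≤ ε * M + N * (l * l : ℕ) * lg := by
    by_cases c : l * l ≤ M
    · refine le_trans (hC M x bx (fun _ _ _ _ _ => rfl)
        (fun u hu v hv g => congrArg (fun r => (A r, e r, ())) (a4 _ (mem u hu).1 _ (mem v hv).1 g))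
        (fun u _ v _ g => a5 _ _ g) c (le_trans ?_ (a6 c))) (le_add_of_nonneg_right (by positivity))
      have s := AN.Nz.pb_prod_and P Q (fun _ => True) fun w => ¬∀ a b, a ≤ b → b ≤ M →
        cm Q (fun v => fl1 a (z v)) (fun v => fl1 b (z v)) w ≤
          Real.exp 2 * bw ((M / l : ℕ) : ℝ)⁻¹ a b (z w)
      rw [pb_true, one_mul] at s
      refine le_trans (pb_mono fun v hv g => ⟨trivial, fun q => g fun a b c d => ?_⟩) s.le
      refine le_trans ?_ (q a b c d)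
      rw [← cm_prod (K := fun r => (A r, e r)) (fun w => fl1 a (z w)) (fun w => fl1 b (z w))
        (fun a ha b hb g => a4 a ha b hb (congrArg (fun y => fl M y.2) g)) hv]
      exact (cm_ctx (P := prod P Q) (Θ := (shOf x).O a)
        (Θ' := fun u => (fl1 a (z u.2), A u.1, e u.1)) (fun _ _ _ _ g => congrArg Prod.swap g)
        (fun _ _ _ _ g => congrArg Prod.swap g) _ hv).trans_le
        (cm_mono hv fun _ _ _ _ g => congrArg (fun y => y.1.2) g)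
    · have d : (M : ℝ) ≤ (l * l : ℕ) := by exact_mod_cast (not_le.1 c).le
      refine (mu_le bx M).trans (le_add_of_nonneg_of_le (by positivity) (by gcongr))
  rw [hh_congr a4 fun _ _ _ _ g => congrArg (fun r => fl M (e r)) g,
    ← AB.ch_prod_fst P Q _ fun w => fl1 M (z w)]
  refine (ch_tri' _ _ _).trans (add_le_add k (ch_mono fun u _ v _ g => ?_))
  simp only [Prod.mk.injEq] at g
  exact Prod.ext g.1 (Prod.ext g.2 rfl)

theorem heights {l M g : ℕ} (g0 : 0 < g) (hl : 2 * g < l) : ∃ (W : Type) (Q : FP W) (z : W → ℝ),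
    (∀ w, 0 ≤ z w ∧ 2 * z w ≤ 1) ∧
    (∀ w w', fl1 (M + g) (z w) = fl1 (M + g) (z w') → z w = z w') ∧
    (∀ w, ∃ J : Finset ℕ, J.card ≤ 2 * l * l ∧ (∀ j ∈ J, 1 ≤ j ∧ j ≤ M) ∧
      2 * z w = ∑ j ∈ J, (1 / 2 : ℝ) ^ j) ∧
    (l * l ≤ M + g → pb Q (fun w => ¬∀ a b, a ≤ b → b ≤ M + g →
      cm Q (fun v => fl1 a (z v)) (fun v => fl1 b (z v)) w ≤
        Real.exp 2 * bw (((M + g) / l : ℕ) : ℝ)⁻¹ a b (z w)) ≤ 1 / l) := by
  by_cases c : l * l ≤ M + g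
  swap
  · obtain ⟨W, Q, z, z1, z2, z3, -⟩ := bern (p := 1 / 2) (L := M + g) (by norm_num) (by norm_num)
      (show M < M + g by omega) (2 * l * l)
    exact ⟨W, Q, z, z1, z2, z3, fun d => absurd d c⟩
  have l0 : 0 < l := by omega
  have k1 : l ≤ (M + g) / l := (Nat.le_div_iff_mul_le l0).2 c
  have k2 : M + g ≤ 2 * l * ((M + g) / l) := by
    have := Nat.lt_div_mul_add (a := M + g) l0
    nlinarith
  generalize (M + g) / l = k at k1 k2 ⊢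
  have g1 : (1 : ℝ) ≤ g := by exact_mod_cast g0
  have k3 : 2 * (g : ℝ) < k := by exact_mod_cast hl.trans_le k1
  have k4 : ((M + g : ℕ) : ℝ) ≤ 2 * l * k := by exact_mod_cast k2
  have lr : (0 : ℝ) < l := by exact_mod_cast l0
  have k0 : (0 : ℝ) < k := by linarith
  have p1 : (k : ℝ)⁻¹ < 1 := inv_lt_one_of_one_lt₀ (by linarith)
  obtain ⟨W, Q, z, z1, z2, z3, z4⟩ := bern (L := M + g) (inv_pos.2 k0) p1
    (show M < M + g by omega) (2 * l * l)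
  refine ⟨W, Q, z, z1, z2, z3, fun _ => le_of_mul_le_mul_left (a := ((2 * l * l : ℕ) : ℝ))
    (le_trans (le_trans (mul_le_mul_of_nonneg_left (pb_mono fun w hw =>
      _root_.mt fun q a b c d => ?_) (Nat.cast_nonneg _)) z4) ?_) (by positivity)⟩
  · have s := q a b c d
    have u := one_add_mul_le_pow (a := -(k : ℝ)⁻¹) (by linarith) g
    have v : (g : ℝ) * (k : ℝ)⁻¹ ≤ 1 / 2 := by
      rw [← div_eq_mul_inv, div_le_iff₀ k0]; linarith
    rw [Nat.add_sub_cancel_left] at s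
    rw [← sub_eq_add_neg] at u
    nlinarith [cm_pos (P := Q) (fun v => fl1 a (z v)) (fun v => fl1 b (z v)) hw,
      Real.add_one_le_exp 2, bw_k k a b (z w)]
  · rw [← div_eq_mul_inv, div_le_iff₀ k0]
    refine k4.trans_eq ?_
    push_cast
    field_simp

theorem cover (h : NoSlf) (n : ℕ) {ε : ℝ} (hε : 0 < ε) : ∃ (m : ℕ) (C : ℝ), ∀ (δ : ℝ)
    (R : Finset (Eu n)) (a : Eu n → Eu n) (K : ℕ), 0 < δ → δ ≤ 1 →
    (∀ r ∈ R, ∀ i, r i ∈ Set.Icc (0 : ℝ) 1) → (∀ r ∈ R, ∀ r' ∈ R, r ≠ r' → δ ≤ dist r r') →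
    (∀ J : Finset ℕ, J.card ≤ m → (∀ j ∈ J, 1 ≤ j ∧ δ ≤ (1 / 2) ^ j) →
      ∃ 𝒰 : Finset (Set (Eu n)), 𝒰.card ≤ K ∧ (∀ U ∈ 𝒰, ∀ x ∈ U, ∀ y ∈ U, dist x y ≤ δ) ∧
        ∀ r ∈ R, ∃ U ∈ 𝒰, a r + (∑ j ∈ J, (1 / 2 : ℝ) ^ j) • r ∈ U) →
    (R.card : ℝ) ≤ C * δ ^ (-ε) * K := by
  have l0 := lg_pos
  obtain ⟨l, C, hl, hC⟩ := cfg h n (2 * (n + 2)) (mul_pos hε l0)
  refine ⟨2 * l * l, Real.exp (ε * lg * (n + 2) + C + 10 * n + n * (n + 2) * lg),
    fun δ R a K d0 d1 r1 r2 hK => ?_⟩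
  rcases R.eq_empty_or_nonempty with e | hR
  · rw [e, Finset.card_empty, Nat.cast_zero]; positivity
  obtain ⟨M, m1, m2⟩ := exists_nat_pow_near (x := 1 / δ) ((one_le_div d0).2 d1) one_lt_two
  rw [le_div_iff₀ d0] at m1
  rw [div_lt_iff₀ d0] at m2
  obtain ⟨W, Q, z, z1, z2, z3, z4⟩ := heights (M := M) (show 0 < n + 2 by omega) hl
  have hT : ∀ t : ℝ, (∃ w, t = 2 * z w) → ∃ 𝒰 : Finset (Set (Eu n)), 𝒰.card ≤ K ∧
      (∀ U ∈ 𝒰, ∀ x ∈ U, ∀ y ∈ U, dist x y ≤ δ) ∧ ∀ r ∈ R, ∃ U ∈ 𝒰, a r + t • r ∈ U := by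
    rintro _ ⟨w, rfl⟩
    obtain ⟨J, j1, j2, j3⟩ := z3 w
    refine j3 ▸ hK J j1 fun j hj => ⟨(j2 j hj).1, le_trans ?_
      (pow_le_pow_of_le_one (by norm_num) (by norm_num) (j2 j hj).2)⟩
    rwa [one_div, inv_pow, ← one_div, le_div_iff₀' (by positivity)]
  choose! 𝒰 u1 u2 u3 using hT
  choose! U v1 v2 using fun w => u3 _ ⟨w, rfl⟩
  have k1 := hC (Eu n) W (M + (n + 2)) (FP.unif R hR) (fun r i => Int.fract (a r i / 4))
    (fun r i => r i / 2) Q z (fun r i => ⟨Int.fract_nonneg _, Int.fract_lt_one _⟩)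
    (fun r hr i => ⟨by linarith [(r1 r hr i).1], by linarith [(r1 r hr i).2]⟩)
    (fun w => ⟨(z1 w).1, by linarith [(z1 w).2]⟩)
    (fun r hr r' hr' e => by_contra fun k => (r2 r hr r' hr' k).not_gt (sep m2 e)) z2 z4
  have k2 := ch_pt hR Q (a := a) (t := fun w => 2 * z w) (g := n + 2) (𝒰 := fun w => 𝒰 (2 * z w))
    (U := U) (G := fun w => fl1 (M + (n + 2)) (z w)) m1
    (fun w => ⟨by linarith [(z1 w).1], (z1 w).2⟩) r1
    (fun w w' e => by simp only [z2 w w' e, and_self]) (fun w => u1 _ ⟨w, rfl⟩)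
    (fun w => u2 _ ⟨w, rfl⟩) fun w r hr => ⟨v1 w r hr, v2 w r hr⟩
  simp only [mul_div_cancel_left₀ _ (two_ne_zero (α := ℝ))] at k2
  have k3 : hh (FP.unif R hR) id = Real.log R.card := by
    rw [← FP.H_unif R hR]
    exact (FP.unif R hR).H_congr fun a _ b _ => by simp [Setoid.ker_def]
  have K0 : (0 : ℝ) < K := by
    obtain ⟨r, hr⟩ := hR
    obtain ⟨w, -⟩ := ex_of_pb (P := Q) (E := fun _ => True) (by rw [pb_true]; exact one_pos)
    exact_mod_cast (Finset.card_pos.2 ⟨_, v1 w r hr⟩).trans_le (u1 _ ⟨w, rfl⟩)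
  have k4 : M * lg ≤ -Real.log δ := by
    have := Real.log_nonpos (by positivity) m1
    rw [Real.log_mul (by positivity) d0.ne', Real.log_pow] at this
    unfold lg
    linarith
  rw [Real.rpow_def_of_pos d0, ← Real.exp_log K0, ← Real.exp_add, ← Real.exp_add,
    ← Real.log_le_iff_le_exp (by exact_mod_cast hR.card_pos)]
  push_cast at k1 k2
  nlinarith [mul_le_mul_of_nonneg_left k4 hε.le]

end Pool.Agent.MP_5168f5_an.QA.Brn
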