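import Pool.Agent.MP_4b405e_nt.SK.DDefs

/-! Sparse slopes, block D: the long step. -/

namespace Pool.Agent.MP_5168f5_an.QA.SD

open H19 H17S H17F

section Abs

variable {Ω α β Γ : Type}

theorem pr_ker (P : FP Ω) (f : Ω → α) (ω : Ω) :
    P.pr (Setoid.ker f) ω = pb P fun ω' => f ω' = f ω := by
  unfold FP.pr pb
  exact P.E_congr fun a _ => by simp only [Setoid.ker_def]; congr

/-- Off the heavy cells the conditional surprise is at least `log (1/t)`. -/
theorem ch_light (P : FP Ω) (F : Ω → α) (G : Ω → β) {t : ℝ} (ht : 0 < t) :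
    pb P (fun ω => ¬t * pb P (fun a => G a = G ω) < pb P fun a => F a = F ω ∧ G a = G ω) *
      Real.log (1 / t) ≤ ch P F G := by
  classical
  have e0 : ∀ (E : Ω → Prop) (c : ℝ), pb P E * c = P.E fun ω => if E ω then c else 0 := by
    intro E c
    unfold pb
    rw [mul_comm, ← FP.E_mul]
    exact P.E_congr fun ω _ => by split_ifs <;> simp
  rw [e0]
  unfold ch hh FP.H
  rw [← FP.E_sub]
  refine P.E_mono fun ω hω => ?_
  have h1 := P.pr_pos (Setoid.ker fun ω => (F ω, G ω)) hω
  have h2 := P.pr_pos (Setoid.ker G) hω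
  have e1 : P.pr (Setoid.ker fun ω => (F ω, G ω)) ω = pb P fun a => F a = F ω ∧ G a = G ω := by
    rw [pr_ker]; exact pb_congr fun a _ => by simp
  have e2 := pr_ker P G ω
  have h3 : P.pr (Setoid.ker fun ω => (F ω, G ω)) ω ≤ P.pr (Setoid.ker G) ω := by
    rw [e1, e2]; exact pb_mono fun a _ h => h.2
  by_cases h : t * pb P (fun a => G a = G ω) < pb P fun a => F a = F ω ∧ G a = G ω
  · have := Real.log_le_log h1 h3
    rw [if_neg (not_not.2 h)]; linarith
  · rw [if_pos h]
    rw [← e1, ← e2] at h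
    have h4 := Real.log_le_log h1 (not_lt.1 h)
    rw [Real.log_mul ht.ne' h2.ne'] at h4
    rw [one_div, Real.log_inv]; linarith

/-- At most `1/t` cells are heavy. -/
theorem heavy_card (P : FP Ω) (F : Ω → α) (E : Ω → Prop) {t : ℝ} (ht : 0 < t) (K : Finset ℕ)
    (a : ℕ → α) (inj : ∀ k ∈ K, ∀ k' ∈ K, a k = a k' → k = k')
    (h : ∀ k ∈ K, t * pb P E < pb P fun ω => F ω = a k ∧ E ω) : (K.card : ℝ) ≤ 1 / t := by
  classical
  have h1 : ∑ k ∈ K, pb P (fun ω => F ω = a k ∧ E ω) ≤ pb P E := by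
    unfold pb
    rw [← FP.E_sum]
    refine P.E_mono fun ω _ => ?_
    by_cases hE : E ω
    · simp only [hE, and_true, if_true]
      rw [Finset.sum_boole]
      have : (K.filter fun k => F ω = a k).card ≤ 1 := Finset.card_le_one.2 fun k hk k' hk' => by
        rw [Finset.mem_filter] at hk hk'
        exact inj k hk.1 k' hk'.1 (hk.2.symm.trans hk'.2)
      exact_mod_cast this
    · simp [hE]
  rcases K.eq_empty_or_nonempty with rfl | ⟨k, hk⟩
  · simp only [Finset.card_empty, Nat.cast_zero]; positivity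
  have h2 : ∑ _k ∈ K, t * pb P E ≤ ∑ k ∈ K, pb P (fun ω => F ω = a k ∧ E ω) :=
    Finset.sum_le_sum fun k hk => (h k hk).le
  have h3 : 0 < pb P E := by
    have h4 : (pb P fun ω => F ω = a k ∧ E ω) ≤ pb P E := pb_mono fun _ _ h => h.2
    have h5 := h k hk
    have h6 := pb_nonneg P E
    rcases h6.lt_or_eq with h6 | h6
    · exact h6
    · rw [← h6] at h4 h5; linarith
  rw [Finset.sum_const, nsmul_eq_mul] at h2
  rw [le_div_iff₀ ht]
  have : (K.card * t) * pb P E ≤ 1 * pb P E := by linarith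
  exact le_of_mul_le_mul_right this h3

/-- An almost invariant shift that crosses `M` cells of `c` inside two cells of `c'`. -/
theorem add_ent [AddCommGroup Γ] (P : FP Ω) (Y : Ω → Γ) (v : Γ) (c : Γ → α) (c' : Γ → β)
    {M : ℕ} {de t : ℝ} (hM : 0 < M) (hde : 0 ≤ de) (ht : 0 < t) (ht1 : t ≤ 1)
    (hinv : ∀ L : Set Γ, pb P (fun ω => Y ω ∈ L) ≤ pb P (fun ω => Y ω + v ∈ L) + de)
    (inj : ∀ y, ∀ k < M, ∀ k' < M, c (y + k • v) = c (y + k' • v) → k = k')
    (two : ∀ y, ∃ b b' : β, ∀ k < M, c' (y + k • v) = b ∨ c' (y + k • v) = b') :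
    (1 - (2 / (t * M) + M * de)) * Real.log (1 / t) ≤
      ch P (fun ω => c (Y ω)) fun ω => c' (Y ω) := by
  classical
  set L : Set Γ := {y | t * pb P (fun a => c' (Y a) = c' y) <
    pb P fun a => c (Y a) = c y ∧ c' (Y a) = c' y} with hL
  have hM' : (0 : ℝ) < M := by exact_mod_cast hM
  have h1 : ∀ k : ℕ, pb P (fun ω => Y ω ∈ L) ≤ pb P (fun ω => Y ω + k • v ∈ L) + k * de := by
    intro k
    induction k with
    | zero => simp
    | succ k ih =>
      have h2 := hinv {y | y + k • v ∈ L}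
      have h3 : pb P (fun ω => Y ω + v ∈ {y | y + k • v ∈ L}) =
          pb P (fun ω => Y ω + (k + 1) • v ∈ L) := pb_congr fun ω _ => by
        rw [Set.mem_ofPred_eq, add_assoc, succ_nsmul']
      rw [h3] at h2
      change pb P (fun ω => Y ω + k • v ∈ L) ≤ _ at h2
      push_cast; linarith
  have h4 : ∀ y, (((Finset.range M).filter fun k => y + k • v ∈ L).card : ℝ) ≤ 2 / t := by
    intro y
    obtain ⟨b, b', hb⟩ := two y
    have h5 : ∀ b : β, (((Finset.range M).filter fun k => y + k • v ∈ L ∧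
        c' (y + k • v) = b).card : ℝ) ≤ 1 / t := by
      intro b
      refine heavy_card P (fun a => c (Y a)) (fun a => c' (Y a) = b) ht _ (fun k => c (y + k • v))
        (fun k hk k' hk' e => ?_) fun k hk => ?_
      · rw [Finset.mem_filter, Finset.mem_range] at hk hk'
        exact inj y k hk.1 k' hk'.1 e
      · rw [Finset.mem_filter] at hk
        have := hk.2.1
        rw [hL, Set.mem_ofPred_eq, hk.2.2] at this
        exact this
    have h6 : ((Finset.range M).filter fun k => y + k • v ∈ L).card ≤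
        ((Finset.range M).filter fun k => y + k • v ∈ L ∧ c' (y + k • v) = b).card +
        ((Finset.range M).filter fun k => y + k • v ∈ L ∧ c' (y + k • v) = b').card := by
      refine le_trans (Finset.card_le_card fun k hk => ?_) (Finset.card_union_le _ _)
      simp only [Finset.mem_filter, Finset.mem_union, Finset.mem_range] at hk ⊢
      rcases hb k hk.1 with h | h
      · exact Or.inl ⟨hk.1, hk.2, h⟩
      · exact Or.inr ⟨hk.1, hk.2, h⟩
    have h7 := (Nat.cast_le (α := ℝ)).2 h6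
    rw [Nat.cast_add] at h7
    have := h5 b
    have := h5 b'
    have : (2 : ℝ) / t = 1 / t + 1 / t := by ring
    linarith
  have h8 : ∑ k ∈ Finset.range M, pb P (fun ω => Y ω + k • v ∈ L) ≤ 2 / t := by
    unfold pb
    rw [← FP.E_sum, ← P.E_const (2 / t)]
    refine P.E_mono fun ω _ => ?_
    rw [Finset.sum_boole]
    exact le_trans (le_of_eq (by congr)) (h4 (Y ω))
  have h9 : ∑ _k ∈ Finset.range M, pb P (fun ω => Y ω ∈ L) ≤
      ∑ k ∈ Finset.range M, (pb P (fun ω => Y ω + k • v ∈ L) + M * de) :=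
    Finset.sum_le_sum fun k hk => (h1 k).trans (by
      have : (k : ℝ) ≤ M := by exact_mod_cast (Finset.mem_range.1 hk).le
      have := mul_le_mul_of_nonneg_right this hde
      linarith)
  rw [Finset.sum_add_distrib, Finset.sum_const, Finset.sum_const, Finset.card_range, nsmul_eq_mul,
    nsmul_eq_mul] at h9
  have h10 : pb P (fun ω => Y ω ∈ L) ≤ 2 / (t * M) + M * de := by
    have : (M : ℝ) * (2 / (t * M) + M * de) = 2 / t + M * (M * de) := by field_simp
    exact le_of_mul_le_mul_left (by linarith) hM'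
  have h11 := ch_light P (fun ω => c (Y ω)) (fun ω => c' (Y ω)) ht
  change pb P (fun ω => ¬Y ω ∈ L) * _ ≤ _ at h11
  rw [pb_not] at h11
  have h12 : 0 ≤ Real.log (1 / t) := Real.log_nonneg (by rw [le_div_iff₀ ht]; linarith)
  exact le_trans (mul_le_mul_of_nonneg_right (by linarith) h12) h11

end Abs

variable {N : ℕ}

/-- The change of coordinates of the long step: axis `i` becomes `w`, the others double. -/
noncomputable def stp (i : Fin N) (w : V N) : Mat N :=
  (((1 : ℝ) / 2) • (1 : Mat N)).updateCol i fun k => if k = i then 1 / w i else -w k / (2 * w i)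

theorem stp_apply (i : Fin N) (w y : V N) (k : Fin N) :
    (stp i w).mulVec y k = if k = i then y i / w i else y k / 2 - w k / (2 * w i) * y i := by
  unfold stp
  rw [Matrix.mulVec, dotProduct, ← Finset.add_sum_erase _ _ (Finset.mem_univ i)]
  have h1 : ∑ l ∈ Finset.univ.erase i, (((1 : ℝ) / 2) • (1 : Mat N)).updateCol i
      (fun k => if k = i then 1 / w i else -w k / (2 * w i)) k l * y l =
      ∑ l ∈ Finset.univ.erase i, if k = l then y l / 2 else 0 := by
    refine Finset.sum_congr rfl fun l hl => ?_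
    rw [Matrix.updateCol_ne (Finset.ne_of_mem_erase hl), Matrix.smul_apply, Matrix.one_apply]
    split_ifs <;> simp; ring
  rw [h1, Finset.sum_ite_eq, Matrix.updateCol_self]
  by_cases h : k = i
  · simp [h]; ring
  · simp [h]; ring

theorem stp_det (i : Fin N) (w : V N) : (stp i w).det = (1 / 2) ^ (N - 1) * (1 / w i) := by
  unfold stp
  rw [← Matrix.cramer_apply, Matrix.cramer_smul, Matrix.cramer_one]
  simp

theorem stp_le {i : Fin N} {w : V N} (h1 : 1 ≤ |w i|) (hw : ∀ k, |w k| ≤ |w i|) (y : V N) :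
    ‖(stp i w).mulVec y‖ ≤ ‖y‖ := by
  refine (pi_norm_le_iff_of_nonneg (norm_nonneg _)).2 fun k => ?_
  have hi : |y i| ≤ ‖y‖ := norm_le_pi_norm y i
  have hk : |y k| ≤ ‖y‖ := norm_le_pi_norm y k
  have h0 : 0 < |w i| := by linarith
  rw [stp_apply, Real.norm_eq_abs]
  split_ifs
  · rw [abs_div]; exact (div_le_self (abs_nonneg _) h1).trans hi
  · have h2 : |w k / (2 * w i) * y i| ≤ ‖y‖ / 2 := by
      rw [abs_mul, abs_div, abs_mul, abs_two]
      have h3 : |w k| / (2 * |w i|) ≤ 1 / 2 := by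
        rw [div_le_div_iff₀ (by positivity) (by positivity)]; linarith [hw k]
      calc _ ≤ 1 / 2 * ‖y‖ := mul_le_mul h3 hi (abs_nonneg _) (by norm_num)
        _ = _ := by ring
    have h4 : |y k / 2| ≤ ‖y‖ / 2 := by rw [abs_div, abs_two]; linarith
    exact (abs_sub _ _).trans (by linarith)

theorem stp_ge {i : Fin N} {w : V N} {B : ℝ} (h1 : w i ≠ 0) (hw : ∀ k, |w k| ≤ B) (y : V N) :
    ‖y‖ ≤ (B + 2) * ‖(stp i w).mulVec y‖ := by
  have hB : 0 ≤ B := (abs_nonneg _).trans (hw i)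
  set z := (stp i w).mulVec y with hz
  refine (pi_norm_le_iff_of_nonneg (by positivity)).2 fun k => ?_
  have hi : |z i| ≤ ‖z‖ := norm_le_pi_norm z i
  have hk : |z k| ≤ ‖z‖ := norm_le_pi_norm z k
  have ei : z i = y i / w i := by rw [hz, stp_apply, if_pos rfl]
  have h2 : |w k * z i| ≤ B * ‖z‖ := by
    rw [abs_mul]; exact mul_le_mul (hw k) hi (abs_nonneg _) hB
  rw [Real.norm_eq_abs]
  by_cases h : k = i
  · subst h
    have : y k = w k * z k := by rw [ei]; field_simp
    rw [this]; nlinarith [norm_nonneg z]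
  · have ek : z k = y k / 2 - w k / (2 * w i) * y i := by rw [hz, stp_apply, if_neg h]
    have : y k = 2 * z k + w k * z i := by rw [ek, ei]; field_simp; ring
    rw [this]
    refine (abs_add_le _ _).trans ?_
    rw [abs_mul, abs_two]; nlinarith

theorem stp_self {i : Fin N} {w : V N} (h1 : w i ≠ 0) (s : ℝ) (k : Fin N) :
    (stp i w).mulVec (s • w) k = if k = i then s else 0 := by
  rw [stp_apply]
  split_ifs
  · simp only [Pi.smul_apply, smul_eq_mul]; field_simp
  · simp only [Pi.smul_apply, smul_eq_mul]; field_simp; ring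

theorem near_of_flv {x y : V N} (h : flv 0 x = flv 0 y) : ‖x - y‖ ≤ 1 := by
  simpa using (norm_sub_lt_of_flv_eq h).le

theorem sY_near {Ω : Type} {P : FP Ω} (A : Ω → V N) {Q : ℕ} (hQ : 0 < Q) (G : Mat N)
    {x : Ω × Z N} (hx : x ∈ (prod P (cub N Q)).S) :
    ‖(Q : ℝ)⁻¹ • cz (sY A Q G x) - G.mulVec (A x.1)‖ ≤ 2 := by
  have hQ' : (1 : ℝ) ≤ Q := by exact_mod_cast hQ
  have h1 : x.2 ∈ cuS N Q := ((mem_bind _ _ _).1 hx).2
  refine (pi_norm_le_iff_of_nonneg (by norm_num)).2 fun i => ?_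
  have h2 := abs_le.1 (abs_fl1_sub 0 ((Q : ℝ) * G.mulVec (A x.1) i))
  have h3 : (0 : ℝ) ≤ x.2 i := by exact_mod_cast (mem_cuS.1 h1 i).1
  have h4 : (x.2 i : ℝ) ≤ Q := by exact_mod_cast (mem_cuS.1 h1 i).2
  have e : ((Q : ℝ)⁻¹ • cz (sY A Q G x) - G.mulVec (A x.1)) i =
      ((fl1 0 ((Q : ℝ) * G.mulVec (A x.1) i) - 2 ^ 0 * (Q * G.mulVec (A x.1) i)) + x.2 i) / Q := by
    simp only [sY, fcl, flv, cz, Pi.sub_apply, Pi.smul_apply, Pi.add_apply, smul_eq_mul]
    push_cast; field_simp; ring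
  rw [e, Real.norm_eq_abs, abs_div, abs_of_pos (by linarith : (0 : ℝ) < Q),
    div_le_iff₀ (by linarith), abs_le]
  constructor <;> linarith

theorem hh_fst {Ω Ω' α : Type} (P : FP Ω) (R : FP Ω') (f : Ω → α) :
    hh (prod P R) (fun x => f x.1) = hh P f :=
  hh_law _ _ fun F => by
    rw [prod, E_bind]; exact P.E_congr fun x _ => R.E_const (F (f x))

theorem hh_le_ch {Ω α β : Type} (P : FP Ω) (f : Ω → α) (g : Ω → β) :
    hh P f ≤ hh P g + ch P f g := by
  have := hh_mono (P := P) (Fn.fst f g)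
  unfold ch; linarith

theorem log13 : Real.log (2 * 5 + 3) ≤ 3 := by
  rw [Real.log_le_iff_le_exp (by norm_num)]
  have h := Real.add_one_le_exp (1 : ℝ)
  have h1 : (2.7 : ℝ) ≤ Real.exp 1 := by linarith [Real.exp_one_gt_d9]
  have : Real.exp 3 = Real.exp 1 ^ 3 := by rw [← Real.exp_nat_mul]; norm_num
  rw [this]
  exact le_trans (by norm_num) (pow_le_pow_left₀ (by norm_num) h1 3)

theorem log5 : Real.log (2 * 1 + 3) ≤ 2 := by
  rw [Real.log_le_iff_le_exp (by norm_num)]
  have h1 : (2.7 : ℝ) ≤ Real.exp 1 := by linarith [Real.exp_one_gt_d9]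
  have : Real.exp 2 = Real.exp 1 ^ 2 := by rw [← Real.exp_nat_mul]; norm_num
  rw [this]
  exact le_trans (by norm_num) (pow_le_pow_left₀ (by norm_num) h1 2)

theorem rowAdd : RowAdd := by
  intro Ω N P A Q La M G de t hQ hM hde ht ht1 hG hs
  unfold Stop at hs
  push Not at hs
  obtain ⟨v, ⟨⟨i0, hi0⟩, hv⟩, hinv⟩ := hs
  obtain ⟨i, -, hi⟩ := Finset.exists_max_image Finset.univ (fun k => |v k|) ⟨i0, Finset.mem_univ _⟩
  have hQ' : (0 : ℝ) < Q := by exact_mod_cast hQ
  have hM' : (1 : ℝ) ≤ M := by exact_mod_cast hM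
  have hiZ : (Q : ℤ) ≤ |v i| := hi0.trans (hi i0 (Finset.mem_univ _))
  have hiQ : (Q : ℝ) ≤ |(v i : ℝ)| := by exact_mod_cast hiZ
  set w : V N := ((M : ℝ) / Q) • cz v with hw
  have aw : ∀ k, |w k| = M / Q * |(v k : ℝ)| := fun k => by
    rw [hw, Pi.smul_apply, smul_eq_mul, abs_mul, abs_of_pos (by positivity)]; rfl
  have w1 : 1 ≤ |w i| := by
    rw [aw, div_mul_eq_mul_div, le_div_iff₀ hQ']; nlinarith
  have w0 : w i ≠ 0 := fun h => by rw [h, abs_zero] at w1; linarith
  have wm : ∀ k, |w k| ≤ |w i| := fun k => by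
    rw [aw, aw]
    refine mul_le_mul_of_nonneg_left ?_ (by positivity)
    exact_mod_cast hi k (Finset.mem_univ _)
  have wB : ∀ k, |w k| ≤ M * La := fun k => by
    have h1 : |(v k : ℝ)| ≤ La * Q := by exact_mod_cast hv k
    rw [aw, div_mul_eq_mul_div, div_le_iff₀ hQ']; nlinarith
  set E := stp i w with hE
  have hdet : (E * G).det = (1 / 2) ^ (N - 1) * (1 / w i) * G.det := by
    rw [Matrix.det_mul, hE, stp_det]
  refine ⟨E * G, ?_, fun x => ?_, fun x => ?_, ?_, ?_⟩
  · rw [hdet]; positivity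
  · rw [← Matrix.mulVec_mulVec]; exact stp_le w1 wm _
  · rw [← Matrix.mulVec_mulVec]; exact stp_ge w0 wB _
  · have h1 : |G.det| = |w i| * 2 ^ (N - 1) * |(E * G).det| := by
      rw [hdet, abs_mul, abs_mul, abs_of_pos (by positivity : (0 : ℝ) < (1 / 2) ^ (N - 1)),
        abs_div, abs_one, one_div_pow]
      have : |w i| ≠ 0 := abs_ne_zero.2 w0
      field_simp
    rw [h1]
    refine mul_le_mul_of_nonneg_right (mul_le_mul (wB i) ?_ (by positivity) (by positivity))
      (abs_nonneg _)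
    exact pow_le_pow_right₀ one_le_two (Nat.sub_le N 1)
  set R := prod P (cub N Q) with hR
  set c : Z N → Z N := fun y => flv 0 ((Q : ℝ)⁻¹ • cz y) with hc
  set c' : Z N → Z N := fun y => flv 0 (E.mulVec ((Q : ℝ)⁻¹ • cz y)) with hc'
  have sh : ∀ (y : Z N) (k : ℕ), (Q : ℝ)⁻¹ • cz (y + k • v) =
      (Q : ℝ)⁻¹ • cz y + ((k : ℝ) / M) • w := fun y k => by
    funext l
    simp only [hw, cz, Pi.smul_apply, Pi.add_apply, smul_eq_mul]
    rw [nsmul_eq_mul]
    push_cast; field_simp
  have key := add_ent R (sY A Q G) v c c' hM hde ht ht1 hinv (fun y k _ k' _ e => ?_) fun y => ?_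
  rotate_left
  · have h1 := norm_sub_lt_of_flv_eq e
    have h2 := (norm_le_pi_norm _ i).trans_lt h1
    simp only [cz, Pi.sub_apply, Pi.smul_apply, Pi.add_apply, smul_eq_mul,
      Real.norm_eq_abs, pow_zero, inv_one] at h2
    rw [nsmul_eq_mul, nsmul_eq_mul] at h2
    push_cast at h2
    have h3 : (Q : ℝ)⁻¹ * (y i + k * v i) - (Q : ℝ)⁻¹ * (y i + k' * v i) =
        ((k : ℝ) - k') * v i / Q := by field_simp; ring
    rw [h3, abs_div, abs_mul, abs_of_pos hQ', div_lt_one hQ'] at h2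
    have h4 : |(k : ℝ) - k'| < 1 := by
      by_contra h5
      have := mul_le_mul (not_lt.1 h5) hiQ hQ'.le (abs_nonneg _)
      linarith
    have h6 : |(k : ℤ) - k'| < 1 := by exact_mod_cast h4
    have := Int.abs_lt_one_iff.1 h6
    omega
  · refine ⟨c' y, c' y + Pi.single i 1, fun k hk => ?_⟩
    have hk' : (k : ℝ) / M < 1 := by
      rw [div_lt_one (by linarith)]; exact_mod_cast hk
    have hk0 : (0 : ℝ) ≤ k / M := by positivity
    have h1 : ∀ l, c' (y + k • v) l =
        ⌊E.mulVec ((Q : ℝ)⁻¹ • cz y) l + if l = i then (k : ℝ) / M else 0⌋ := fun l => by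
      simp only [hc', sh, Matrix.mulVec_add, flv, fl1, Pi.add_apply, pow_zero, one_mul]
      rw [hE, stp_self w0]
    have h2 : ∀ l, c' y l = ⌊E.mulVec ((Q : ℝ)⁻¹ • cz y) l⌋ := fun l => by
      simp only [hc', flv, fl1, pow_zero, one_mul]
    have h3 : c' (y + k • v) i = c' y i ∨ c' (y + k • v) i = c' y i + 1 := by
      rw [h1, h2, if_pos rfl]
      set z := E.mulVec ((Q : ℝ)⁻¹ • cz y) i
      have a1 : ⌊z⌋ ≤ ⌊z + k / M⌋ := Int.floor_le_floor (by linarith)
      have a2 : ⌊z + k / M⌋ ≤ ⌊z + 1⌋ := Int.floor_le_floor (by linarith)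
      rw [Int.floor_add_one] at a2
      omega
    have h4 : ∀ l, l ≠ i → c' (y + k • v) l = c' y l := fun l hl => by
      rw [h1, h2, if_neg hl, add_zero]
    rcases h3 with h3 | h3
    · refine Or.inl (funext fun l => ?_)
      by_cases hl : l = i
      · rw [hl, h3]
      · exact h4 l hl
    · refine Or.inr (funext fun l => ?_)
      by_cases hl : l = i
      · rw [hl, h3]; simp
      · rw [h4 l hl]; simp [hl]
  have nr : ∀ x ∈ R.S, ‖(Q : ℝ)⁻¹ • cz (sY A Q G x) - G.mulVec (A x.1)‖ ≤ 2 :=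
    fun x hx => sY_near A hQ G hx
  have tri : ∀ p q r s : V N, ‖p - s‖ ≤ ‖q - p‖ + ‖q - r‖ + ‖r - s‖ := fun p q r s => by
    have : p - s = -(q - p) + (q - r) + (r - s) := by abel
    rw [this]
    exact (norm_add_le _ _).trans (by
      have := norm_add_le (-(q - p)) (q - r); rw [norm_neg] at this; linarith)
  have c1 : ch R (fun x => cel (E * G) (A x.1)) (fun x => c' (sY A Q G x)) ≤ N * 3 := by
    have := ch_near (P := R) (x := fun x => (E * G).mulVec (A x.1))
      (G := fun x => c' (sY A Q G x)) (j := 0) (L := 5) (by norm_num) fun a ha b hb e => by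
        have h1 := near_of_flv e
        have h2 := (stp_le w1 wm _).trans (nr a ha)
        have h3 := (stp_le w1 wm _).trans (nr b hb)
        rw [Matrix.mulVec_sub, ← hE] at h2 h3
        have h4 := tri (E.mulVec (G.mulVec (A a.1))) (E.mulVec ((Q : ℝ)⁻¹ • cz (sY A Q G a)))
          (E.mulVec ((Q : ℝ)⁻¹ • cz (sY A Q G b))) (E.mulVec (G.mulVec (A b.1)))
        simp only [← Matrix.mulVec_mulVec]
        rw [pow_zero, div_one]; linarith
    rw [Fintype.card_fin] at this
    exact this.trans (mul_le_mul_of_nonneg_left log13 (by positivity))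
  have c2 : ch R (fun x => c' (sY A Q G x)) (fun x => c (sY A Q G x)) ≤ N * 2 := by
    have := ch_near (P := R) (x := fun x => E.mulVec ((Q : ℝ)⁻¹ • cz (sY A Q G x)))
      (G := fun x => c (sY A Q G x)) (j := 0) (L := 1) (by norm_num) fun a _ b _ e => by
        have h1 := (stp_le w1 wm _).trans (near_of_flv e)
        rw [Matrix.mulVec_sub, ← hE] at h1
        simpa using h1
    rw [Fintype.card_fin] at this
    exact this.trans (mul_le_mul_of_nonneg_left log5 (by positivity))
  have c3 : ch R (fun x => c (sY A Q G x)) (fun x => cel G (A x.1)) ≤ N * 3 := by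
    have := ch_near (P := R) (x := fun x => (Q : ℝ)⁻¹ • cz (sY A Q G x))
      (G := fun x => cel G (A x.1)) (j := 0) (L := 5) (by norm_num) fun a ha b hb e => by
        have h1 := near_of_flv e
        have h2 := nr a ha
        have h3 := nr b hb
        have h4 := tri ((Q : ℝ)⁻¹ • cz (sY A Q G a)) (G.mulVec (A a.1)) (G.mulVec (A b.1))
          ((Q : ℝ)⁻¹ • cz (sY A Q G b))
        rw [norm_sub_rev] at h2 h3
        rw [pow_zero, div_one]; linarith
    rw [Fintype.card_fin] at this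
    exact this.trans (mul_le_mul_of_nonneg_left log13 (by positivity))
  have e1 := hh_fst P (cub N Q) fun ω => cel (E * G) (A ω)
  have e2 := hh_fst P (cub N Q) fun ω => cel G (A ω)
  have i1 := hh_le_ch R (fun x => cel (E * G) (A x.1)) fun x => c' (sY A Q G x)
  have i2 := hh_le_ch R (fun x => c (sY A Q G x)) fun x => cel G (A x.1)
  have i3 : hh R (fun x => (c (sY A Q G x), c' (sY A Q G x))) =
      hh R fun x => (c' (sY A Q G x), c (sY A Q G x)) :=
    hh_congr (Fn.pair (Fn.snd _ _) (Fn.fst _ _)) (Fn.pair (Fn.snd _ _) (Fn.fst _ _))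
  unfold ch at key c2
  unfold HG
  rw [← e1, ← e2]
  linarith

end Pool.Agent.MP_5168f5_an.QA.SD
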