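import Pool.Agent.MP_4b405e_nt.SK.DDefs

/-! Sparse slopes, block D: the chain of boxes, built from the law of `A` alone. -/

namespace Pool.Agent.MP_5168f5_an.QA.SD

open H19 H17S H17F

variable {Ω : Type} {N : ℕ} {P : FP Ω} {A : Ω → V N}

theorem HG_nonneg (G : Mat N) : 0 ≤ HG P A G := hh_nonneg _

/-- A dilation by an integer does not raise the cell entropy. -/
theorem HG_smul (G : Mat N) (k : ℕ) : HG P A ((k : ℝ)⁻¹ • G) ≤ HG P A G := by
  refine hh_mono fun a _ b _ e => funext fun i => ?_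
  have h : ∀ x : V N, cel ((k : ℝ)⁻¹ • G) x i = cel G x i / k := fun x => by
    simp only [cel, flv, fl1, pow_zero, one_mul, Matrix.smul_mulVec, Pi.smul_apply, smul_eq_mul]
    rw [← div_eq_inv_mul, Int.floor_div_natCast]
  rw [h, h, congrFun e i]

theorem HG_one : HG P A (1 : Mat N) = hh P fun ω => flv 0 (A ω) := by
  simp only [HG, cel, Matrix.one_mulVec]

/-- `G'` comes after `G`: the box is larger, and the growth is paid by the cell entropy. -/
structure Aft (P : FP Ω) (A : Ω → V N) (th : ℝ) (G G' : Mat N) : Prop where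
  ne : G'.det ≠ 0
  le : ∀ x, ‖G'.mulVec x‖ ≤ ‖G.mulVec x‖
  gr : ∀ x, ‖G.mulVec x‖ ≤ Real.exp (th * (HG P A G - HG P A G')) * ‖G'.mulVec x‖
  dt : |G.det| ≤ Real.exp (th * (HG P A G - HG P A G')) * |G'.det|
  en : HG P A G' ≤ HG P A G

theorem Aft.rfl {th : ℝ} {G : Mat N} (h : G.det ≠ 0) : Aft P A th G G :=
  ⟨h, fun _ => le_rfl, fun _ => by simp, by simp, le_rfl⟩

theorem Aft.trans {th : ℝ} {G G' G'' : Mat N} (h : Aft P A th G G') (k : Aft P A th G' G'') :
    Aft P A th G G'' := by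
  have e : Real.exp (th * (HG P A G - HG P A G'')) = Real.exp (th * (HG P A G - HG P A G'))
      * Real.exp (th * (HG P A G' - HG P A G'')) := by rw [← Real.exp_add]; congr 1; ring
  refine ⟨k.ne, fun x => (k.le x).trans (h.le x), fun x => ?_, ?_, k.en.trans h.en⟩
  · rw [e, mul_assoc]
    exact (h.gr x).trans (mul_le_mul_of_nonneg_left (k.gr x) (Real.exp_pos _).le)
  · rw [e, mul_assoc]
    exact h.dt.trans (mul_le_mul_of_nonneg_left k.dt (Real.exp_pos _).le)

/-- Long steps until a stop. -/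
theorem run {th rho : ℝ} (h0 : 0 < rho) {St : Mat N → Prop}
    (hs : ∀ G, G.det ≠ 0 → ¬St G → ∃ G', Aft P A th G G' ∧ HG P A G' ≤ HG P A G - rho)
    (G : Mat N) (hG : G.det ≠ 0) : ∃ G', Aft P A th G G' ∧ St G' := by
  obtain ⟨n, hn⟩ := exists_nat_gt (HG P A G / rho)
  rw [div_lt_iff₀ h0] at hn
  induction n generalizing G with
  | zero => exact absurd hn (by simpa using HG_nonneg G)
  | succ n ih =>
    by_cases c : St G
    · exact ⟨G, Aft.rfl hG, c⟩
    · obtain ⟨G', a, b⟩ := hs G hG c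
      obtain ⟨G'', a', b'⟩ := ih G' a.ne (by push_cast at hn; linarith)
      exact ⟨G'', a.trans a', b'⟩

/-- The chain: run to a stop, record, dilate by `k`. -/
theorem chain {th rho : ℝ} (h0 : 0 < rho) (ht : 0 ≤ th) {St : Mat N → Prop}
    (hs : ∀ G, G.det ≠ 0 → ¬St G → ∃ G', Aft P A th G G' ∧ HG P A G' ≤ HG P A G - rho)
    (G₀ : Mat N) (hG : G₀.det ≠ 0) {k : ℕ} (hk : 0 < k) :
    ∃ (G : ℕ → Mat N) (h : ℕ → ℝ), (∀ i, (G i).det ≠ 0 ∧ St (G i)) ∧ Monotone h ∧
      (∀ i, 0 ≤ h i ∧ h i ≤ th * HG P A G₀) ∧ (∀ x, ‖(G 0).mulVec x‖ ≤ ‖G₀.mulVec x‖) ∧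
      (∀ x, ‖G₀.mulVec x‖ ≤ Real.exp (h 0) * ‖(G 0).mulVec x‖) ∧
      (∀ i x, k * ‖(G (i + 1)).mulVec x‖ ≤ ‖(G i).mulVec x‖) ∧
      (∀ i x, ‖(G i).mulVec x‖ ≤ Real.exp (h (i + 1) - h i) * (k * ‖(G (i + 1)).mulVec x‖)) ∧
      ∀ i, |G₀.det| ≤ Real.exp (h i) * (k ^ (N * i) * |(G i).det|) := by
  have k0 : (0 : ℝ) < k := by exact_mod_cast hk
  have ne : ∀ G : Mat N, G.det ≠ 0 → ((k : ℝ)⁻¹ • G).det ≠ 0 := fun G h => by
    rw [Matrix.det_smul]; positivity
  choose! nx hA hS using run (P := P) (A := A) h0 hs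
  let G : ℕ → Mat N := fun i => (fun F => nx ((k : ℝ)⁻¹ • F))^[i] (nx G₀)
  have g0 : G 0 = nx G₀ := rfl
  have gs : ∀ i, G (i + 1) = nx ((k : ℝ)⁻¹ • G i) := fun i => Function.iterate_succ_apply' _ _ _
  have gd : ∀ i, (G i).det ≠ 0 := fun i => by
    induction i with
    | zero => exact (hA _ hG).ne
    | succ i ih => rw [gs]; exact (hA _ (ne _ ih)).ne
  have a0 : Aft P A th G₀ (G 0) := hA _ hG
  have as : ∀ i, Aft P A th ((k : ℝ)⁻¹ • G i) (G (i + 1)) := fun i => by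
    rw [gs]; exact hA _ (ne _ (gd i))
  have en : ∀ i, HG P A (G (i + 1)) ≤ HG P A (G i) := fun i => (as i).en.trans (HG_smul _ k)
  have en0 : ∀ i, HG P A (G i) ≤ HG P A G₀ := fun i => by
    induction i with
    | zero => exact a0.en
    | succ i ih => exact (en i).trans ih
  have nm : ∀ (F : Mat N) x, ‖F.mulVec x‖ = k * ‖((k : ℝ)⁻¹ • F).mulVec x‖ := fun F x => by
    rw [Matrix.smul_mulVec, norm_smul, Real.norm_of_nonneg (by positivity)]; field_simp
  have ex : ∀ i, Real.exp (th * (HG P A ((k : ℝ)⁻¹ • G i) - HG P A (G (i + 1)))) ≤ Real.exp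
      (th * (HG P A G₀ - HG P A (G (i + 1))) - th * (HG P A G₀ - HG P A (G i))) := fun i =>
    Real.exp_le_exp.2 (by nlinarith [HG_smul (P := P) (A := A) (G i) k])
  refine ⟨G, fun i => th * (HG P A G₀ - HG P A (G i)), fun i => ⟨gd i, ?_⟩,
    monotone_nat_of_le_succ fun i => mul_le_mul_of_nonneg_left (by linarith [en i]) ht,
    fun i => ⟨mul_nonneg ht (by linarith [en0 i]),
      mul_le_mul_of_nonneg_left (by linarith [HG_nonneg (P := P) (A := A) (G i)]) ht⟩,
    a0.le, a0.gr, fun i x => ?_, fun i x => ?_, fun i => ?_⟩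
  · cases i with
    | zero => exact hS _ hG
    | succ i => rw [gs]; exact hS _ (ne _ (gd i))
  · rw [nm (G i)]; exact mul_le_mul_of_nonneg_left ((as i).le x) k0.le
  · rw [nm (G i), mul_left_comm]
    exact mul_le_mul_of_nonneg_left (((as i).gr x).trans
      (mul_le_mul_of_nonneg_right (ex i) (norm_nonneg _))) k0.le
  · induction i with
    | zero => simpa using a0.dt
    | succ i ih =>
      have d := (as i).dt.trans (mul_le_mul_of_nonneg_right (ex i) (abs_nonneg _))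
      rw [Matrix.det_smul, Fintype.card_fin, abs_mul, abs_of_pos (by positivity), inv_pow,
        inv_mul_le_iff₀ (by positivity), Real.exp_sub] at d
      refine ih.trans ((mul_le_mul_of_nonneg_left (mul_le_mul_of_nonneg_left d (by positivity))
        (Real.exp_pos _).le).trans (le_of_eq ?_))
      rw [mul_add N, pow_add, mul_one]
      field_simp

/-- A box with small volume has a thin direction. -/
theorem thin (G : Mat N) {r : ℝ} (hr : 0 < r) (h : (N.factorial : ℝ) < r ^ N * |G.det|) :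
    ∃ x : V N, ‖x‖ ≤ r ∧ 1 ≤ ‖G.mulVec x‖ := by
  by_contra c
  push Not at c
  have e : ∀ a b, |G a b| ≤ r⁻¹ := fun a b => by
    have n1 : ‖(Pi.single b r : V N)‖ ≤ r := by rw [Pi.norm_single, Real.norm_of_nonneg hr.le]
    have n2 := (norm_le_pi_norm _ a).trans_lt (c _ n1)
    rw [Matrix.mulVec_single, Pi.smul_apply, Matrix.col_apply, MulOpposite.smul_eq_mul_unop,
      MulOpposite.unop_op, Real.norm_eq_abs, abs_mul, abs_of_pos hr] at n2
    rw [← one_div, le_div_iff₀ hr]; exact n2.le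
  have d := Matrix.det_le (A := G) (abv := AbsoluteValue.abs) (x := r⁻¹) e
  rw [Fintype.card_fin, nsmul_eq_mul, inv_pow, AbsoluteValue.abs_apply, ← div_eq_mul_inv,
    le_div_iff₀ (by positivity)] at d
  linarith

/-- The constants of the long step. -/
theorem consts (N La : ℕ) {e : ℝ} (he : 0 < e) : ∃ (M : ℕ) (de t rho : ℝ), 0 < M ∧ 0 < de ∧
    0 < t ∧ t ≤ 1 ∧ 0 < rho ∧ rho ≤ (1 - (2 / (t * M) + M * de)) * Real.log (1 / t) - 8 * N ∧
    (M : ℝ) * La + 2 ≤ Real.exp ((1 + e) * rho) ∧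
    (M : ℝ) * La * 2 ^ N ≤ Real.exp ((1 + e) * rho) := by
  set s : ℝ := 6 * (1 + e) / e with hs
  have s0 : 0 < s := by positivity
  set c : ℝ := Real.log ((La + 2) * 2 ^ N) with hc
  have c0 : 0 ≤ c := Real.log_nonneg (by
    have : (1 : ℝ) ≤ 2 ^ N := one_le_pow₀ (by norm_num)
    have : (0 : ℝ) ≤ La := Nat.cast_nonneg _
    nlinarith)
  have t1 := (Real.tendsto_log_atTop.comp tendsto_natCast_atTop_atTop).eventually_ge_atTop
    (((1 + e / 2) * Real.log s + (1 + e) * (8 * N) + c + 1) / (e / 2))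
  have t2 := (tendsto_natCast_atTop_atTop (R := ℝ)).eventually_ge_atTop (max s 1)
  obtain ⟨M, m1, m2⟩ := (t1.and t2).exists
  have M1 : (1 : ℝ) ≤ M := (le_max_right _ _).trans m2
  have M0 : (0 : ℝ) < M := by linarith
  have lM : 0 ≤ Real.log M := Real.log_nonneg M1
  rw [Function.comp, div_le_iff₀ (by positivity)] at m1
  have k : (1 + e) * ((Real.log M + c + 1) / (1 + e)) = Real.log M + c + 1 := by field_simp
  have x : (M : ℝ) * ((La + 2) * 2 ^ N) ≤ Real.exp ((1 + e) * ((Real.log M + c + 1) / (1 + e))) := by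
    rw [k, Real.exp_add, Real.exp_add, Real.exp_log M0, hc, Real.exp_log (by positivity)]
    exact le_mul_of_one_le_right (by positivity) (Real.one_le_exp zero_le_one)
  have p2 : (1 : ℝ) ≤ 2 ^ N := one_le_pow₀ (by norm_num)
  have l0 : (0 : ℝ) ≤ La := Nat.cast_nonneg _
  refine ⟨M, 1 / (s * M), s / M, (Real.log M + c + 1) / (1 + e), by exact_mod_cast M0,
    by positivity, by positivity, (div_le_one M0).2 ((le_max_left _ _).trans m2), by positivity,
    ?_, le_trans ?_ x, le_trans ?_ x⟩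
  · have a : 1 - (2 / (s / M * M) + M * (1 / (s * M))) = (1 + e / 2) / (1 + e) := by
      rw [hs]; field_simp; ring
    rw [a, one_div_div, Real.log_div M0.ne' s0.ne', div_le_iff₀ (by positivity), sub_mul,
      div_mul_eq_mul_div, div_mul_cancel₀ _ (by positivity)]
    nlinarith
  · nlinarith [mul_nonneg (mul_nonneg M0.le l0) (sub_nonneg.2 p2), mul_nonneg M0.le (sub_nonneg.2 p2)]
  · nlinarith [mul_nonneg M0.le (zero_le_one.trans p2)]

/-- The long step in the form used by the chain. -/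
theorem step (h : RowAdd) (N La : ℕ) {e : ℝ} (he : 0 < e) : ∃ de rho : ℝ, 0 < de ∧ 0 < rho ∧
    ∀ (Ω : Type) (P : FP Ω) (A : Ω → V N) (Q : ℕ), 0 < Q → ∀ G : Mat N, G.det ≠ 0 →
      ¬Stop P A Q La G de → ∃ G', Aft P A (1 + e) G G' ∧ HG P A G' ≤ HG P A G - rho := by
  obtain ⟨M, de, t, rho, M0, d0, t0, t1, r0, r1, x1, x2⟩ := consts N La he
  refine ⟨de, rho, d0, r0, fun Ω P A Q Q0 G g0 hs => ?_⟩
  obtain ⟨G', a, b, c, d, f⟩ := h Ω N P A Q La M G de t Q0 M0 d0.le t0 t1 g0 hs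
  have y : Real.exp ((1 + e) * rho) ≤ Real.exp ((1 + e) * (HG P A G - HG P A G')) :=
    Real.exp_le_exp.2 (mul_le_mul_of_nonneg_left (by linarith) (by positivity))
  exact ⟨G', ⟨a, b, fun x => (c x).trans (mul_le_mul_of_nonneg_right (x1.trans y) (norm_nonneg _)),
    d.trans (mul_le_mul_of_nonneg_right (x2.trans y) (abs_nonneg _)), by linarith⟩, by linarith⟩

/-- The chain of stops, starting from the cube of side `Q`, with dilations by `k`. -/
theorem boxes (h : RowAdd) (N La : ℕ) {e : ℝ} (he : 0 < e) : ∃ de : ℝ, 0 < de ∧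
    ∀ (Ω : Type) (P : FP Ω) (A : Ω → V N) (Q k : ℕ), 0 < Q → 0 < k →
      ∃ (G : ℕ → Mat N) (la : ℕ → ℝ), (∀ i, (G i).det ≠ 0 ∧ Stop P A Q La (G i) de) ∧
        (∀ x, Q * ‖(G 0).mulVec x‖ ≤ ‖x‖) ∧
        (∀ i x, k * ‖(G (i + 1)).mulVec x‖ ≤ ‖(G i).mulVec x‖) ∧
        (∀ i j, i ≤ j → ∀ x, ‖(G i).mulVec x‖ ≤ Real.exp (la j - la i) * ‖(G j).mulVec x‖) ∧
        Monotone la ∧
        (∀ i, 0 ≤ la i ∧ la i ≤ (1 + e) * hh P (fun ω => flv 0 (A ω)) + i * Real.log k) ∧
        ∀ i (r : ℝ), 0 < r → N.factorial * (Q ^ N * (Real.exp ((1 + e) *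
          hh P fun ω => flv 0 (A ω)) * k ^ (N * i))) < r ^ N →
          ∃ x : V N, ‖x‖ ≤ r ∧ 1 ≤ ‖(G i).mulVec x‖ := by
  obtain ⟨de, rho, d0, r0, hs⟩ := step h N La he
  refine ⟨de, d0, fun Ω P A Q k Q0 k0 => ?_⟩
  have q0 : (0 : ℝ) < Q := by exact_mod_cast Q0
  have k1 : (1 : ℝ) ≤ k := by exact_mod_cast k0
  have lk : 0 ≤ Real.log k := Real.log_nonneg k1
  have dq : ((Q : ℝ)⁻¹ • (1 : Mat N)).det = ((Q : ℝ) ^ N)⁻¹ := by
    rw [Matrix.det_smul, Matrix.det_one, Fintype.card_fin, mul_one, inv_pow]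
  obtain ⟨G, l, a1, a2, a3, a4, -, a6, a7, a8⟩ := chain (P := P) (A := A) r0 (by positivity)
    (hs Ω P A Q Q0) ((Q : ℝ)⁻¹ • 1) (by rw [dq]; positivity) k0
  have b3 : ∀ i, l i ≤ (1 + e) * hh P fun ω => flv 0 (A ω) := fun i => (a3 i).2.trans
    (mul_le_mul_of_nonneg_left ((HG_smul 1 Q).trans_eq HG_one) (by positivity))
  refine ⟨G, fun i => l i + i * Real.log k, a1, fun x => ?_, a6, fun i j hij x => ?_,
    fun i j hij => add_le_add (a2 hij) (mul_le_mul_of_nonneg_right (by exact_mod_cast hij) lk),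
    fun i => ⟨add_nonneg (a3 i).1 (by positivity), add_le_add (b3 i) le_rfl⟩,
    fun i r hr hi => thin _ hr ?_⟩
  · have := a4 x
    rwa [Matrix.smul_mulVec, Matrix.one_mulVec, norm_smul, Real.norm_of_nonneg (by positivity),
      le_inv_mul_iff₀ q0] at this
  · induction j, hij using Nat.le_induction with
    | base => simp
    | succ j _ ih =>
      refine ih.trans ((mul_le_mul_of_nonneg_left (a7 j x) (Real.exp_pos _).le).trans
        (le_of_eq ?_))
      rw [← mul_assoc, ← mul_assoc, ← Real.exp_add]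
      conv_lhs => rw [← Real.exp_log (zero_lt_one.trans_le k1), ← Real.exp_add]
      rw [Real.log_exp]
      congr 2
      push_cast
      ring
  · have d := (a8 i).trans (mul_le_mul_of_nonneg_right (Real.exp_le_exp.2 (b3 i)) (by positivity))
    rw [dq, abs_of_pos (by positivity), inv_le_iff_one_le_mul₀ (by positivity)] at d
    have p : 0 < |(G i).det| := abs_pos.2 (a1 i).1
    have f : (0 : ℝ) < N.factorial := by exact_mod_cast N.factorial_pos
    refine lt_of_le_of_lt ?_ (mul_lt_mul_of_pos_right hi p)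
    refine (le_mul_of_one_le_right f.le d).trans (le_of_eq ?_)
    ring

end Pool.Agent.MP_5168f5_an.QA.SD
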