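import Pool.Agent.MP_4b405e_nt.SK.SpD
import Pool.Agent.MP_4b405e_nt.SK.DChain

/-! Sparse slopes, block D: the chain with a count of the long steps. -/

namespace Pool.Agent.MP_5168f5_an.QA.SD

open H19 H17S H17F

namespace XCh

variable {Ω : Type} {N : ℕ} {P : FP Ω} {A : Ω → V N} {a b ρ : ℝ}

/-- `G'` is reached from `G` by `j` long steps. -/
structure Af (P : FP Ω) (A : Ω → V N) (a b ρ : ℝ) (j : ℕ) (G G' : Mat N) : Prop where
  ne : G'.det ≠ 0
  le : ∀ x, ‖G'.mulVec x‖ ≤ ‖G.mulVec x‖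
  gr : ∀ x, ‖G.mulVec x‖ ≤ a ^ j * ‖G'.mulVec x‖
  dt : |G.det| ≤ b ^ j * |G'.det|
  en : HG P A G' + ρ * j ≤ HG P A G

theorem run (h0 : 0 < ρ) (ha : 0 ≤ a) (hb : 0 ≤ b) {St : Mat N → Prop}
    (hs : ∀ G, G.det ≠ 0 → ¬St G → ∃ G', Af P A a b ρ 1 G G') (G : Mat N) (hG : G.det ≠ 0) :
    ∃ G' j, Af P A a b ρ j G G' ∧ St G' := by
  obtain ⟨n, hn⟩ := exists_nat_gt (HG P A G / ρ)
  rw [div_lt_iff₀ h0] at hn
  induction n generalizing G with
  | zero => exact absurd hn (by simpa using HG_nonneg G)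
  | succ n ih =>
    by_cases c : St G
    · exact ⟨G, 0, ⟨hG, fun _ => le_rfl, fun _ => by simp, by simp, by simp⟩, c⟩
    · obtain ⟨G', h⟩ := hs G hG c
      have e := h.en
      obtain ⟨G'', j, k, s⟩ := ih G' h.ne (by push_cast at hn e; linarith)
      refine ⟨G'', j + 1, ⟨k.ne, fun x => (k.le x).trans (h.le x), fun x => ?_, ?_, ?_⟩, s⟩
      · rw [pow_succ', mul_assoc]
        exact (h.gr x).trans (by rw [pow_one]; exact mul_le_mul_of_nonneg_left (k.gr x) ha)
      · rw [pow_succ', mul_assoc]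
        exact h.dt.trans (by rw [pow_one]; exact mul_le_mul_of_nonneg_left k.dt hb)
      · have := k.en
        push_cast at e ⊢
        linarith

end XCh

open XCh in
theorem sCh : SCh := by
  intro h Ω N P A Q La M k G₀ de t ρ Q0 M0 _ hk d0 t0 t1 hG r0 r1
  have k0 : (0 : ℝ) < k := by exact_mod_cast hk
  have ne : ∀ G : Mat N, G.det ≠ 0 → ((k : ℝ)⁻¹ • G).det ≠ 0 := fun G h => by
    rw [Matrix.det_smul]; positivity
  choose! nx ct hA hS using XCh.run (P := P) (A := A) (a := (M : ℝ) * La + 2)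
    (b := (M : ℝ) * La * 2 ^ N) r0 (by positivity) (by positivity)
    (St := fun G => Stop P A Q La G de) fun G g0 hs => by
      obtain ⟨G', a, b, c, d, f⟩ := h Ω N P A Q La M G de t Q0 M0 d0 t0 t1 g0 hs
      exact ⟨G', a, b, by simpa only [pow_one] using c, by simpa only [pow_one] using d,
        by push_cast; linarith⟩
  let G : ℕ → Mat N := fun i => (fun F => nx ((k : ℝ)⁻¹ • F))^[i] (nx G₀)
  let c : ℕ → ℕ := fun i => ct G₀ + ∑ j ∈ Finset.range i, ct ((k : ℝ)⁻¹ • G j)
  have cs : ∀ i, c (i + 1) = c i + ct ((k : ℝ)⁻¹ • G i) := fun i => by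
    simp only [c, Finset.sum_range_succ, add_assoc]
  have gs : ∀ i, G (i + 1) = nx ((k : ℝ)⁻¹ • G i) := fun i => Function.iterate_succ_apply' _ _ _
  have gd : ∀ i, (G i).det ≠ 0 := fun i => by
    induction i with
    | zero => exact (hA _ hG).ne
    | succ i ih => rw [gs]; exact (hA _ (ne _ ih)).ne
  have a0 := hA _ hG
  have as := fun i => hA _ (ne _ (gd i))
  simp only [← gs] at as
  have en : ∀ i, HG P A (G i) + ρ * c i ≤ HG P A G₀ := fun i => by
    induction i with
    | zero => simpa [c, G] using a0.en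
    | succ i ih =>
      have := (as i).en.trans (HG_smul _ k)
      rw [cs]; push_cast; linarith
  have nm : ∀ (F : Mat N) x, ‖F.mulVec x‖ = k * ‖((k : ℝ)⁻¹ • F).mulVec x‖ := fun F x => by
    rw [Matrix.smul_mulVec, norm_smul, Real.norm_of_nonneg (by positivity)]; field_simp
  refine ⟨G, c, monotone_nat_of_le_succ fun i => by rw [cs]; omega, a0.le, fun i => ⟨gd i, ?_,
    by linarith [en i, HG_nonneg (P := P) (A := A) (G i)], fun x => ?_, fun x => ?_, ?_⟩⟩
  · cases i with
    | zero => exact hS _ hG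
    | succ i => rw [gs]; exact hS _ (ne _ (gd i))
  · rw [nm (G i)]; exact mul_le_mul_of_nonneg_left ((as i).le x) k0.le
  · rw [nm (G i), cs, Nat.add_sub_cancel_left, mul_assoc]
    exact mul_le_mul_of_nonneg_left ((as i).gr x) k0.le
  · induction i with
    | zero => simpa [c, G] using a0.dt
    | succ i ih =>
      have d := (as i).dt
      rw [Matrix.det_smul, Fintype.card_fin, abs_mul, abs_of_pos (by positivity), inv_pow,
        inv_mul_le_iff₀ (by positivity)] at d
      refine ih.trans ((mul_le_mul_of_nonneg_left d (by positivity)).trans (le_of_eq ?_))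
      rw [cs, mul_add N, pow_add, pow_add, mul_one]
      ring

end Pool.Agent.MP_5168f5_an.QA.SD
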