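import Pool.Agent.MP_4b405e_nt.SK.SpD

/-! Sparse slopes, block D: any index type, and the boxes that are dense from above. -/

namespace Pool.Agent.MP_5168f5_an.QA.SD

open H19 H17S H17F Real

/-- Nested boxes in which the noise `X` does not spread, for any index type. -/
structure Bxι {Ω T ι : Type} [Fintype ι] (P : FP Ω) (X : Ω → ι → ℝ) (τ : Ω → T) (c C b q : ℝ)
    (u n : ℕ) (M : ℕ → (ι → ℝ) →L[ℝ] (ι → ℝ)) (la : ℕ → ℝ) (Gd : ℕ → (ι → ℝ) → T → Prop) :
    Prop where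
  lo : c * u ≤ b * n
  hi : b * n ≤ u
  nest : ∀ k x, ‖M (k + 1) x‖ ≤ exp (-(2 * b)) * ‖M k x‖
  gro : ∀ i k, i ≤ k → ∀ x, ‖M i x‖ ≤ exp (la k - la i) * ‖M k x‖
  mono : Monotone la
  la0 : la 0 = 0
  lan : la n ≤ C * u
  fine : ‖M 0‖ ≤ 2 ^ u
  thin : exp (c * u) ≤ ‖M n‖
  bad : ∑ k ∈ Finset.range n, pb P (fun ω => ¬Gd k (X ω) (τ ω)) ≤ q * n
  gp : ∀ k x x' t, Gd k x t → Gd k x' t → ‖M k (x - x')‖ ≤ 1 → ‖M k (x - x')‖ ≤ exp (-b)

/-- There are such boxes. -/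
def NSBι {Ω T ι : Type} [Fintype ι] (P : FP Ω) (X : Ω → ι → ℝ) (τ : Ω → T) (c C b q : ℝ)
    (u : ℕ) : Prop :=
  ∃ n M la Gd, Bxι P X τ c C b q u n M la Gd

/-- The statement of block D for any index type. -/
def SpDι : Prop := ∀ (N : ℕ) (κ : ℝ), 0 < N → 0 < κ → ∃ c C : ℝ, 0 < c ∧ 1 ≤ C ∧
  ∀ b q η : ℝ, 1 ≤ b → 0 < q → 0 < η → ∃ (β : ℝ) (u₀ : ℕ), 0 < β ∧ ∀ u : ℕ, u₀ ≤ u →
    ∀ (ι Ω T : Type) [Fintype ι] (P : FP Ω) (A A' X : Ω → ι → ℝ) (τ : Ω → T),
      Fintype.card ι = N → (∀ ω ∈ P.S, ‖A' ω - A ω - X ω‖ ≤ ((2 : ℝ) ^ u)⁻¹) →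
      hh P (fun ω => flv u (A ω)) ≤ (N - κ) * u * lg →
      mi P A (fun ω => (X ω, τ ω)) (fun _ => ()) ≤ β * u → mi P A' X τ ≤ β * u →
      ∃ s : (ι → ℝ) → ℕ, hh P (fun ω => s (A ω)) ≤ η * u ∧
        c ≤ pb P fun ω => NSBι (cv P (fun ω => s (A ω)) (s (A ω))) X τ c C b q u

namespace DIota

/-- Change of the index type. -/
noncomputable def re {ι κ : Type} [Fintype ι] [Fintype κ] (e : κ ≃ ι) : (ι → ℝ) →L[ℝ] (κ → ℝ) :=
  ContinuousLinearMap.pi fun a => ContinuousLinearMap.proj (e a)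

variable {ι κ : Type} [Fintype ι] [Fintype κ]

theorem re_apply (e : κ ≃ ι) (x : ι → ℝ) (a : κ) : re e x a = x (e a) := rfl

theorem norm_re (e : κ ≃ ι) (x : ι → ℝ) : ‖re e x‖ = ‖x‖ := e.surjective.pi_norm_comp x

theorem re_re (e : κ ≃ ι) (x : κ → ℝ) : re e (re e.symm x) = x := by
  funext a
  simp [re_apply]

theorem re_inj (e : κ ≃ ι) {x y : ι → ℝ} (h : re e x = re e y) : x = y := by
  funext a
  simpa [re_apply] using congrFun h (e.symm a)

theorem norm_conj (e : κ ≃ ι) (M : (κ → ℝ) →L[ℝ] (κ → ℝ)) :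
    ‖(re e.symm).comp (M.comp (re e))‖ = ‖M‖ := by
  refine le_antisymm (ContinuousLinearMap.opNorm_le_bound _ (norm_nonneg _) fun x => ?_)
    (ContinuousLinearMap.opNorm_le_bound _ (norm_nonneg _) fun x => ?_)
  · rw [ContinuousLinearMap.comp_apply, norm_re, ← norm_re e x]
    exact M.le_opNorm _
  · have := ((re e.symm).comp (M.comp (re e))).le_opNorm (re e.symm x)
    rwa [ContinuousLinearMap.comp_apply, norm_re, ContinuousLinearMap.comp_apply, re_re,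
      norm_re] at this

theorem nsb {Ω T : Type} {N : ℕ} (e : Fin N ≃ ι) {P : FP Ω} {X : Ω → ι → ℝ} {τ : Ω → T}
    {c C b q : ℝ} {u : ℕ} (h : NSB P (fun ω => re e (X ω)) τ c C b q u) :
    NSBι P X τ c C b q u := by
  obtain ⟨n, M, la, Gd, h⟩ := h
  have nm : ∀ k x, ‖((re e.symm).comp ((M k).comp (re e))) x‖ = ‖M k (re e x)‖ := fun k x => by
    rw [ContinuousLinearMap.comp_apply, norm_re, ContinuousLinearMap.comp_apply]
  refine ⟨n, fun k => (re e.symm).comp ((M k).comp (re e)), la, fun k x t => Gd k (re e x) t,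
    h.lo, h.hi, fun k x => ?_, fun i k hik x => ?_, h.mono, h.la0, h.lan, ?_, ?_, h.bad,
    fun k x x' t h1 h2 h3 => ?_⟩
  · rw [nm, nm]; exact h.nest k _
  · rw [nm, nm]; exact h.gro i k hik _
  · rw [norm_conj]; exact h.fine
  · rw [norm_conj]; exact h.thin
  · rw [nm, map_sub] at h3 ⊢
    exact h.gp k _ _ t h1 h2 h3

open Classical in
/-- The rising sun count. -/
theorem sun {la : ℕ → ℝ} (hm : Monotone la) {s : ℝ} (hs : 0 ≤ s) (n d : ℕ) : ∀ m, m + d = n →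
    s * ((Finset.Ico m n).filter fun i =>
      ∃ k, i ≤ k ∧ k ≤ n ∧ s * (k - i : ℕ) < la k - la i).card ≤ la n - la m := by
  induction d using Nat.strong_induction_on with
  | _ d ih =>
    intro m hd
    rcases Nat.eq_zero_or_pos d with rfl | d0
    · obtain rfl : m = n := hd
      simp
    by_cases hb : ∃ k, m ≤ k ∧ k ≤ n ∧ s * (k - m : ℕ) < la k - la m
    · obtain ⟨k, k1, k2, k3⟩ := hb
      have k4 : m < k := lt_of_le_of_ne k1 fun e => by
        subst e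
        simp at k3
      have h1 := ih (n - k) (by omega) k (by omega)
      have h2 : ((Finset.Ico m n).filter fun i =>
          ∃ k, i ≤ k ∧ k ≤ n ∧ s * (k - i : ℕ) < la k - la i).card ≤ (k - m) +
          ((Finset.Ico k n).filter fun i =>
          ∃ k, i ≤ k ∧ k ≤ n ∧ s * (k - i : ℕ) < la k - la i).card := by
        rw [← Finset.Ico_union_Ico_eq_Ico k1 k2, Finset.filter_union]
        refine (Finset.card_union_le _ _).trans (Nat.add_le_add_right ?_ _)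
        exact (Finset.card_filter_le _ _).trans (Nat.card_Ico _ _).le
      have h3 := mul_le_mul_of_nonneg_left ((Nat.cast_le (α := ℝ)).2 h2) hs
      rw [Nat.cast_add, mul_add] at h3
      linarith
    · have h1 := ih (d - 1) (by omega) (m + 1) (by omega)
      rw [← Finset.insert_Ico_add_one_left_eq_Ico (by omega : m < n), Finset.filter_insert,
        if_neg hb]
      linarith [hm (Nat.le_succ m)]

end DIota
open DIota

theorem spDι_of (h : SpD) : SpDι := by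
  intro N κ hN hκ
  obtain ⟨c, C, c0, C1, h⟩ := h N κ hN hκ
  refine ⟨c, C, c0, C1, fun b q η b1 q0 η0 => ?_⟩
  obtain ⟨β, u₀, β0, h⟩ := h b q η b1 q0 η0
  refine ⟨β, u₀, β0, fun u hu ι Ω T _ P A A' X τ hc h1 h2 h3 h4 => ?_⟩
  have e : Fin N ≃ ι := (Fintype.equivFinOfCardEq hc).symm
  obtain ⟨s, s1, s2⟩ := h u hu Ω T P (fun ω => re e (A ω)) (fun ω => re e (A' ω))
    (fun ω => re e (X ω)) τ
    (fun ω hω => by rw [← map_sub, ← map_sub, norm_re]; exact h1 ω hω)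
    (le_trans (hh_mono fun a _ b _ k => funext fun i => congrFun k (e i)) h2)
    (le_trans ((mi_mono' fun a _ b _ k => congrArg (re e) (congrArg Prod.fst k)).trans
      (mi_mono fun a _ b _ k => congrArg (fun v : (ι → ℝ) × T => (re e v.1, v.2))
        (congrArg Prod.fst k))) h3)
    (le_trans ((mi_mono' fun a _ b _ k => congrArg (re e) (congrArg Prod.fst k)).trans
      (mi_mono fun a _ b _ k => congrArg (re e) (congrArg Prod.fst k))) h4)
  exact ⟨fun x => s (re e x), s1, s2.trans (pb_mono fun ω _ k => nsb e k)⟩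

namespace Bxι

variable {Ω T ι : Type} [Fintype ι] {P : FP Ω} {X : Ω → ι → ℝ} {τ : Ω → T} {c C b q : ℝ}
  {u n : ℕ} {M : ℕ → (ι → ℝ) →L[ℝ] (ι → ℝ)} {la : ℕ → ℝ} {Gd : ℕ → (ι → ℝ) → T → Prop}

/-- Later boxes are larger, by `2 b` per step. -/
theorem nest_le (h : Bxι P X τ c C b q u n M la Gd) {i k : ℕ} (hik : i ≤ k) (x : ι → ℝ) :
    ‖M k x‖ ≤ exp (-(2 * b * (k - i : ℕ))) * ‖M i x‖ := by
  induction k, hik using Nat.le_induction with
  | base => simp
  | succ k hk ih =>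
    refine (h.nest k x).trans ((mul_le_mul_of_nonneg_left ih (exp_pos _).le).trans (le_of_eq ?_))
    rw [← mul_assoc, ← exp_add, Nat.succ_sub hk]
    push_cast
    ring_nf

theorem anti (h : Bxι P X τ c C b q u n M la Gd) (b0 : 0 ≤ b) {i k : ℕ} (hik : i ≤ k)
    (x : ι → ℝ) : ‖M k x‖ ≤ ‖M i x‖ :=
  (h.nest_le hik x).trans (mul_le_of_le_one_left (norm_nonneg _)
    (exp_le_one_iff.2 (neg_nonpos.2 (by positivity))))

theorem norm_le (h : Bxι P X τ c C b q u n M la Gd) {i k : ℕ} (hik : i ≤ k) :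
    ‖M k‖ ≤ exp (-(2 * b * (k - i : ℕ))) * ‖M i‖ :=
  ContinuousLinearMap.opNorm_le_bound _ (by positivity) fun x => by
    rw [mul_assoc]
    exact (h.nest_le hik x).trans (mul_le_mul_of_nonneg_left ((M i).le_opNorm x) (exp_pos _).le)

/-- The size of the boxes. -/
theorem lev (h : Bxι P X τ c C b q u n M la Gd) (b0 : 0 ≤ b) {i : ℕ} (hi : i ≤ n) :
    exp (c * u) ≤ ‖M i‖ ∧ ‖M i‖ ≤ 2 ^ u := by
  have k : ∀ {i k : ℕ}, i ≤ k → ‖M k‖ ≤ ‖M i‖ := fun hik =>
    (h.norm_le hik).trans (mul_le_of_le_one_left (norm_nonneg _)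
      (exp_le_one_iff.2 (neg_nonpos.2 (by positivity))))
  exact ⟨h.thin.trans (k hi), (k (Nat.zero_le i)).trans h.fine⟩

/-- A quarter of the boxes lie in the first half and are dense from above. -/
theorem sun (h : Bxι P X τ c C b q u n M la Gd) (c0 : 0 < c) (C0 : 0 < C) (b0 : 0 < b) :
    ∃ I : Finset ℕ, I ⊆ Finset.range (n / 2) ∧ n ≤ 4 * I.card + 2 ∧ ∀ i ∈ I, ∀ k, i ≤ k → k ≤ n →
      la k - la i ≤ 4 * C / c * b * (k - i : ℕ) ∧
        ∀ x, ‖M i x‖ ≤ exp (4 * C / c * b * (k - i : ℕ)) * ‖M k x‖ := by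
  classical
  have s0 : 0 < 4 * C / c * b := by positivity
  have h1 := DIota.sun h.mono s0.le n n 0 (by simp)
  set B := (Finset.Ico 0 n).filter fun i =>
    ∃ k, i ≤ k ∧ k ≤ n ∧ 4 * C / c * b * (k - i : ℕ) < la k - la i with hB
  have h2 : 4 * C / c * b * (4 * B.card) ≤ 4 * C / c * b * n := by
    have a1 : 4 * C / c * (c * u) ≤ 4 * C / c * (b * n) :=
      mul_le_mul_of_nonneg_left h.lo (by positivity)
    have a2 : 4 * C / c * (c * u) = 4 * (C * u) := by field_simp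
    have := h.lan
    rw [h.la0] at h1
    linarith
  have h3 : 4 * B.card ≤ n := by exact_mod_cast le_of_mul_le_mul_left h2 s0
  refine ⟨Finset.range (n / 2) \ B, Finset.sdiff_subset, ?_, fun i hi k k1 k2 => ?_⟩
  · have := Finset.le_card_sdiff B (Finset.range (n / 2))
    rw [Finset.card_range] at this
    omega
  · obtain ⟨i1, i2⟩ := Finset.mem_sdiff.1 hi
    have i3 := Finset.mem_range.1 i1
    have k3 : la k - la i ≤ 4 * C / c * b * (k - i : ℕ) := not_lt.1 fun k3 =>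
      i2 (Finset.mem_filter.2 ⟨Finset.mem_Ico.2 ⟨Nat.zero_le _, by omega⟩, k, k1, k2, k3⟩)
    exact ⟨k3, fun x => (h.gro i k k1 x).trans
      (mul_le_mul_of_nonneg_right (exp_le_exp.2 k3) (norm_nonneg _))⟩

end Bxι

end Pool.Agent.MP_5168f5_an.QA.SD
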