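import Pool.Agent.MP_4b405e_nt.SK.DPin

/-! The preliminary label: after it, events of `A` are almost independent of `Y` on most atoms. -/

namespace Pool.Agent.MP_5168f5_an.QA.DLab

open H19 H17S H17F DPin

variable {Ω α β γ δ : Type}

/-- Bounded functions of `A` and of `Y` are uncorrelated up to `be`. -/
def Cut (Q : FP Ω) (A : Ω → α) (Y : Ω → β) (be : ℝ) : Prop :=
  ∀ (f : α → ℝ) (g : β → ℝ), (∀ x, |f x| ≤ 1) → (∀ y, |g y| ≤ 1) →
    |Q.E (fun ω => f (A ω) * g (Y ω)) - Q.E (fun ω => f (A ω)) * Q.E fun ω => g (Y ω)| ≤ be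

theorem Cut.mono {Q : FP Ω} {A : Ω → α} {Y : Ω → β} {be be' : ℝ} (h : Cut Q A Y be)
    (k : be ≤ be') : Cut Q A Y be' := fun f g hf hg => (h f g hf hg).trans k

theorem Cut.comp {Q : FP Ω} {A : Ω → α} {Y : Ω → β} {be : ℝ} (h : Cut Q A Y be) (u : α → γ)
    (v : β → δ) : Cut Q (fun ω => u (A ω)) (fun ω => v (Y ω)) be := fun f g hf hg =>
  h (fun x => f (u x)) (fun y => g (v y)) (fun _ => hf _) fun _ => hg _

theorem Cut.nonneg {Q : FP Ω} {A : Ω → α} {Y : Ω → β} {be : ℝ} (h : Cut Q A Y be) : 0 ≤ be :=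
  (abs_nonneg _).trans (h (fun _ => 0) (fun _ => 0) (by simp) (by simp))

open Classical in
/-- The event form. -/
theorem Cut.ev {Q : FP Ω} {A : Ω → α} {Y : Ω → β} {be : ℝ} (h : Cut Q A Y be) (f : α → ℝ)
    (hf : ∀ x, |f x| ≤ 1) (G : β → Prop) :
    |Q.E (fun ω => if G (Y ω) then f (A ω) else 0) -
      pb Q (fun ω => G (Y ω)) * Q.E fun ω => f (A ω)| ≤ be := by
  have := h f (fun y => if G y then 1 else 0) hf fun y => by split_ifs <;> simp
  rw [mul_comm] at this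
  have e : Q.E (fun ω => if G (Y ω) then f (A ω) else 0) =
      Q.E fun ω => f (A ω) * if G (Y ω) then 1 else 0 :=
    Q.E_congr fun ω _ => by split_ifs <;> simp
  rw [e]
  exact this

theorem approx {T : Type} (f : T → ℝ) (h0 : ∀ t, 0 ≤ f t) (t0 : T) {ε : ℝ} (hε : 0 < ε) :
    ∃ t, f t ≤ f t0 ∧ ∀ t', f t ≤ f t' + ε := by
  have bd : BddBelow (Set.range f) := ⟨0, by rintro _ ⟨t, rfl⟩; exact h0 t⟩
  have : Nonempty T := ⟨t0⟩
  obtain ⟨t, ht⟩ := exists_lt_of_ciInf_lt (f := f) (lt_add_of_pos_right (⨅ t, f t) hε)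
  have k : ∀ t', f t ≤ f t' + ε := fun t' => ht.le.trans (add_le_add (ciInf_le bd t') le_rfl)
  rcases le_total (f t) (f t0) with h | h
  · exact ⟨t, h, k⟩
  · exact ⟨t0, le_rfl, fun t' => h.trans (k t')⟩

theorem hh_prop (P : FP Ω) (E : Ω → Prop) (G : Ω → β) : ch P E G ≤ lg := by
  classical
  refine (ch_det (B := 2) fun a _ => ⟨{True, False}, ?_, fun b _ _ => ?_⟩)
  · exact_mod_cast Finset.card_le_two
  · by_cases h : E b <;> simp [h]

theorem label0 (P : FP Ω) (A : Ω → α) (Y : Ω → β) {K : ℝ} (hK : 0 < K) :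
    ∃ s : α → ℕ, hh P (fun ω => s (A ω)) ≤ K * mi P A Y (fun _ => ()) ∧
      ∀ S : α → Prop, mi P (fun ω => S (A ω)) Y (fun ω => s (A ω)) ≤ 2 * lg / K := by
  classical
  obtain ⟨s, h1, h2⟩ := approx
    (fun s : α → ℕ => mi P A Y (fun ω => s (A ω)) + hh P (fun ω => s (A ω)) / K)
    (fun s => add_nonneg (mi_nonneg _ _ _) (div_nonneg (hh_nonneg _) hK.le)) (fun _ => 0)
    (div_pos lg_pos hK)
  refine ⟨s, ?_, fun S => ?_⟩
  · have e1 : hh P (fun _ => (0 : ℕ)) = 0 :=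
      (hh_congr (fun _ _ _ _ _ => rfl) fun _ _ _ _ _ => rfl).trans hh_unit
    have e2 : mi P A Y (fun _ => (0 : ℕ)) ≤ mi P A Y fun _ => () :=
      mi_cond (fun _ _ _ _ _ => rfl) fun _ _ _ _ _ => rfl
    have e3 := mi_nonneg (P := P) A Y fun ω => s (A ω)
    simp only [e1, zero_div, add_zero] at h1
    rw [mul_comm, ← div_le_iff₀ hK]
    linarith
  · have h3 := h2 fun a => 2 * s a + if S a then 1 else 0
    have f1 : Fn P (fun ω => 2 * s (A ω) + if S (A ω) then 1 else 0)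
        fun ω => (S (A ω), s (A ω)) := fun a _ b _ e => by
      simp only [Prod.mk.injEq] at e
      simp only [e.1, e.2]
    have f2 : Fn P (fun ω => (S (A ω), s (A ω)))
        fun ω => 2 * s (A ω) + if S (A ω) then 1 else 0 := fun a _ b _ e => by
      by_cases ha : S (A a) <;> by_cases hb : S (A b) <;>
        simp only [ha, hb, if_true, if_false, Prod.mk.injEq, true_and] at e ⊢ <;> omega
    have e1 : hh P (fun ω => 2 * s (A ω) + if S (A ω) then 1 else 0) ≤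
        hh P (fun ω => s (A ω)) + lg := by
      have a1 := hh_mono f1
      have a2 := hh_prop P (fun ω => S (A ω)) fun ω => s (A ω)
      unfold ch at a2
      linarith
    have e2 : mi P A Y (fun ω => 2 * s (A ω) + if S (A ω) then 1 else 0) =
        mi P A Y (fun ω => s (A ω)) - mi P (fun ω => S (A ω)) Y fun ω => s (A ω) := by
      rw [mi_symm A, mi_symm A, mi_symm fun ω => S (A ω)]
      unfold mi
      have a1 : ch P Y (fun ω => 2 * s (A ω) + if S (A ω) then 1 else 0) =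
          ch P Y fun ω => (S (A ω), s (A ω)) := le_antisymm (ch_anti f2) (ch_anti f1)
      have a2 : ch P Y (fun ω => (A ω, 2 * s (A ω) + if S (A ω) then 1 else 0)) =
          ch P Y fun ω => (A ω, s (A ω)) :=
        le_antisymm (ch_anti ((Fn.fst _ _).pair ((Fn.comp s A).left _)))
          (ch_anti ((Fn.fst _ _).pair
            ((Fn.comp (fun a => 2 * s a + if S a then 1 else 0) A).left _)))
      rw [a1, a2]; ring
    have e3 := div_le_div_of_nonneg_right e1 hK.le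
    simp only [e2] at h3
    rw [add_div] at e3
    have e4 : 2 * lg / K = lg / K + lg / K := by ring
    linarith

open Classical in
/-- The correlation defect of a sign function. -/
noncomputable def val (Q : FP Ω) (A : Ω → α) (Y : Ω → β) (S : α → Prop) (g : β → ℝ) : ℝ :=
  (Q.E fun ω => Q.E fun ω' => (if S (A ω) then 1 else -1) * g (Y ω')) -
    Q.E fun ω => (if S (A ω) then 1 else -1) * g (Y ω)

theorem cut_of_val (Q : FP Ω) (A : Ω → α) (Y : Ω → β) {be : ℝ}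
    (h : ∀ S g, (∀ y, |g y| ≤ 1) → val Q A Y S g ≤ be) : Cut Q A Y be := by
  classical
  have e : ∀ (f : α → ℝ) (g : β → ℝ), (Q.E fun ω => Q.E fun ω' => f (A ω) * g (Y ω')) -
      Q.E (fun ω => f (A ω) * g (Y ω)) =
      Q.E fun ω => f (A ω) * (Q.E (fun ω => g (Y ω)) - (cv Q A (A ω)).E fun ω => g (Y ω)) := by
    intro f g
    rw [KEA.exp Q A fun x ω => f x * g (Y ω), ← Q.E_sub]
    refine Q.E_congr fun ω _ => ?_
    rw [FP.E_mul, FP.E_mul]; ring
  have k : ∀ (f : α → ℝ) (g : β → ℝ), (∀ x, |f x| ≤ 1) → (∀ y, |g y| ≤ 1) →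
      Q.E (fun ω => f (A ω)) * Q.E (fun ω => g (Y ω)) - Q.E (fun ω => f (A ω) * g (Y ω)) ≤ be := by
    intro f g hf hg
    have h1 := h (fun x => (cv Q A x).E (fun ω => g (Y ω)) < Q.E fun ω => g (Y ω)) g hg
    have h2 : Q.E (fun ω => f (A ω)) * Q.E (fun ω => g (Y ω)) =
        Q.E fun ω => Q.E fun ω' => f (A ω) * g (Y ω') := by
      rw [mul_comm, ← Q.E_mul]
      exact Q.E_congr fun ω _ => by rw [FP.E_mul, mul_comm]
    unfold val at h1
    rw [e (fun x => if (cv Q A x).E (fun ω => g (Y ω)) < Q.E fun ω => g (Y ω) then 1 else -1) g]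
      at h1
    rw [h2, e f g]
    refine le_trans (Q.E_mono fun ω _ => ?_) h1
    have := abs_le.1 (hf (A ω))
    split_ifs with h5
    · exact mul_le_mul_of_nonneg_right this.2 (by linarith)
    · exact mul_le_mul_of_nonpos_right this.1 (by linarith)
  intro f g hf hg
  have h1 := k f g hf hg
  have h2 := k (fun x => -f x) g (fun x => by rw [abs_neg]; exact hf x) hg
  simp only [neg_mul, FP.E_neg] at h2
  rw [abs_le]
  constructor <;> linarith

theorem val_le (Q : FP Ω) (A : Ω → α) (Y : Ω → β) (S : α → Prop) {g : β → ℝ}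
    (hg : ∀ y, |g y| ≤ 1) : val Q A Y S g ≤ 2 := by
  classical
  have b : ∀ x y, |(if S x then (1 : ℝ) else -1) * g y| ≤ 1 := fun x y => by
    split_ifs <;> simpa using hg y
  have h1 := abs_le.1 (E_abs_le Q (F := fun ω => (if S (A ω) then (1 : ℝ) else -1) * g (Y ω))
    fun ω _ => b _ _)
  have h2 := abs_le.1 (E_abs_le Q
    (F := fun ω => Q.E fun ω' => (if S (A ω) then (1 : ℝ) else -1) * g (Y ω'))
    fun ω _ => E_abs_le _ fun ω' _ => b _ _)
  unfold val
  linarith [h1.1, h2.2]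

/-- The label: it costs `K I(A;Y)` and the defects of the atoms have mean at most `3 r`. -/
theorem label (P : FP Ω) (A : Ω → α) (Y : Ω → β) {K r : ℝ} (hK : 0 < K) (r0 : 0 < r)
    (hr : 2 * lg / K ≤ r ^ 2) :
    ∃ (s : α → ℕ) (be : ℕ → ℝ), hh P (fun ω => s (A ω)) ≤ K * mi P A Y (fun _ => ()) ∧
      P.E (fun ω => be (s (A ω))) ≤ 3 * r ∧
      ∀ k, Cut (cv P (fun ω => s (A ω)) k) A Y (be k) := by
  classical
  obtain ⟨s, h1, h2⟩ := label0 P A Y hK
  have h3 := fun k : ℕ => approx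
    (fun t : (α → Prop) × {g : β → ℝ // ∀ y, |g y| ≤ 1} =>
      2 - val (cv P (fun ω => s (A ω)) k) A Y t.1 t.2.1)
    (fun t => sub_nonneg.2 (val_le _ _ _ _ t.2.2)) (fun _ => True, ⟨fun _ => 0, by simp⟩) r0
  choose t _ ht using h3
  refine ⟨s, fun k => val (cv P (fun ω => s (A ω)) k) A Y (t k).1 (t k).2.1 + r, h1, ?_,
    fun k => cut_of_val _ _ _ fun S g hg => ?_⟩
  · have h4 := (abs_le.1 (pin P (fun ω => (t (s (A ω))).1 (A ω)) Y (fun ω => s (A ω))
      (fun b y k => (if b then 1 else -1) * (t k).2.1 y)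
      (fun b y k => by split_ifs <;> simpa using (t k).2.2 y) r0
      ((h2 fun a => (t (s a)).1 a).trans hr))).1
    have e1 := KEA.exp P (fun ω => s (A ω)) fun k ω =>
      (if (t k).1 (A ω) then (1 : ℝ) else -1) * (t k).2.1 (Y ω)
    have e2 := KEA.exp P (fun ω => s (A ω)) fun k ω => (cv P (fun ω => s (A ω)) k).E fun ω' =>
      (if (t k).1 (A ω) then (1 : ℝ) else -1) * (t k).2.1 (Y ω')
    rw [P.E_add, P.E_const]
    unfold val
    rw [P.E_sub, ← e1, ← e2]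
    linarith
  · have := ht k (S, ⟨g, hg⟩)
    simp only at this ⊢
    linarith

/-- Information given a label is the mean over the atoms. -/
theorem mi_atoms (P : FP Ω) (F : Ω → α) (G : Ω → β) (K : Ω → γ) (s : Ω → δ) :
    mi P F G (fun ω => (K ω, s ω)) = P.E fun ω => mi (cv P s (s ω)) F G K := by
  unfold mi
  rw [P.E_sub, ← KEA.ent P s (fun _ => F) fun _ => K,
    ← KEA.ent P s (fun _ => F) fun _ ω => (G ω, K ω)]
  congr 1
  exact le_antisymm
    (ch_anti fun a _ b _ e => by simp only [Prod.mk.injEq] at e ⊢; tauto)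
    (ch_anti fun a _ b _ e => by simp only [Prod.mk.injEq] at e ⊢; tauto)

/-- A label that is a function of the first variable is free. -/
theorem mi_lab_fn {P : FP Ω} {F : Ω → α} (G : Ω → β) (K : Ω → γ) {s : Ω → δ} (h : Fn P s F) :
    P.E (fun ω => mi (cv P s (s ω)) F G K) ≤ mi P F G K := by
  rw [← mi_atoms, mi_symm F, mi_symm F]
  unfold mi
  have a1 : ch P G (fun ω => (K ω, s ω)) ≤ ch P G K := ch_anti (Fn.fst _ _)
  have a2 : ch P G (fun ω => (F ω, K ω)) ≤ ch P G fun ω => (F ω, K ω, s ω) :=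
    ch_anti ((Fn.fst _ _).pair ((Fn.snd _ _).pair (h.left _)))
  linarith

/-- Any label costs at most its entropy. -/
theorem mi_lab (P : FP Ω) (F : Ω → α) (G : Ω → β) (K : Ω → γ) (s : Ω → δ) :
    P.E (fun ω => mi (cv P s (s ω)) F G K) ≤ mi P F G K + hh P s := by
  rw [← mi_atoms]
  unfold mi
  have a1 : ch P F (fun ω => (K ω, s ω)) ≤ ch P F K := ch_anti (Fn.fst _ _)
  have a2 := ch_drop (P := P) F s fun ω => (G ω, K ω)
  have a3 : ch P F (fun ω => (s ω, G ω, K ω)) ≤ ch P F fun ω => (G ω, K ω, s ω) :=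
    ch_anti fun a _ b _ e => by simp only [Prod.mk.injEq] at e ⊢; tauto
  have a4 := ch_le_hh (P := P) s fun ω => (G ω, K ω)
  linarith

/-- The mean entropy over the atoms. -/
theorem hh_lab (P : FP Ω) (F : Ω → α) (s : Ω → δ) :
    P.E (fun ω => hh (cv P s (s ω)) F) ≤ hh P F := by
  rw [← KEA.ent1 P s fun _ => F]
  exact ch_le_hh _ _

theorem markov (P : FP Ω) {F : Ω → ℝ} {t e : ℝ} (h0 : ∀ ω ∈ P.S, 0 ≤ F ω) (ht : 0 < t)
    (h : P.E F ≤ e) : pb P (fun ω => ¬F ω ≤ t) ≤ e / t := by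
  classical
  rw [le_div_iff₀ ht, mul_comm, pb, ← P.E_mul]
  refine le_trans (P.E_mono fun ω hω => ?_) h
  by_cases h1 : F ω ≤ t
  · simpa [h1] using h0 ω hω
  · simpa [h1] using (not_le.1 h1).le

/-- The label together with the good atoms. -/
theorem pick (P : FP Ω) (A : Ω → α) (A' : Ω → β) (X : Ω → γ) {T Z : Type} (τ : Ω → T)
    (C : Ω → Z) {K r θ b h h' : ℝ} (hK : 0 < K) (r0 : 0 < r) (hr : 2 * lg / K ≤ r ^ 2)
    (θ0 : 0 < θ) (b0 : 0 < b) (h0 : 0 < h') (hC : hh P C ≤ h)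
    (h1 : mi P A (fun ω => (X ω, τ ω)) (fun _ => ()) ≤ b) (h2 : mi P A' X τ ≤ b) :
    ∃ s : α → ℕ, hh P (fun ω => s (A ω)) ≤ K * b ∧
      1 - h / h' - 3 * θ ≤ pb P fun ω =>
        hh (cv P (fun ω => s (A ω)) (s (A ω))) C ≤ h' ∧
        Cut (cv P (fun ω => s (A ω)) (s (A ω))) A (fun ω => (X ω, τ ω)) (3 * r / θ) ∧
        mi (cv P (fun ω => s (A ω)) (s (A ω))) A X τ ≤ b / θ ∧
        mi (cv P (fun ω => s (A ω)) (s (A ω))) A' X τ ≤ (b + K * b) / θ := by
  obtain ⟨s, be, k1, k2, k3⟩ := label P A (fun ω => (X ω, τ ω)) hK r0 hr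
  have k4 : hh P (fun ω => s (A ω)) ≤ K * b := k1.trans (mul_le_mul_of_nonneg_left h1 hK.le)
  refine ⟨s, k4, ?_⟩
  have k5 : mi P A X τ ≤ b := by
    have a1 := mi_chain (P := P) A τ X fun _ => ()
    have a2 := mi_nonneg (P := P) A τ fun _ => ()
    have a3 : mi P A (fun ω => (τ ω, X ω)) (fun _ => ()) ≤
        mi P A (fun ω => (X ω, τ ω)) fun _ => () :=
      mi_mono (((Fn.snd X τ).pair (Fn.fst X τ)).left _)
    have a4 : mi P A X τ ≤ mi P A X fun ω => (τ ω, ()) :=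
      mi_cond (fun _ _ _ _ e => by simp only [e]) ((Fn.fst τ _).right _)
    linarith
  have m1 := markov P (fun ω _ => hh_nonneg _) h0 ((hh_lab P C fun ω => s (A ω)).trans hC)
  have m2 := markov P (fun ω _ => (k3 (s (A ω))).nonneg) (t := 3 * r / θ) (by positivity) k2
  have m3 := markov P (fun ω _ => mi_nonneg _ _ _) (t := b / θ) (by positivity)
    ((mi_lab_fn X τ (Fn.comp s A)).trans k5)
  have m4 := markov P (fun ω _ => mi_nonneg _ _ _) (t := (b + K * b) / θ) (by positivity)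
    ((mi_lab P A' X τ fun ω => s (A ω)).trans (add_le_add h2 k4))
  have e : ∀ x : ℝ, 0 < x → x / (x / θ) = θ := fun x hx => by field_simp
  rw [e _ (by positivity)] at m2 m3 m4
  have o1 := pb_or P (fun ω => ¬hh (cv P (fun ω => s (A ω)) (s (A ω))) C ≤ h')
    fun ω => ¬be (s (A ω)) ≤ 3 * r / θ ∨ ¬mi (cv P (fun ω => s (A ω)) (s (A ω))) A X τ ≤ b / θ ∨
      ¬mi (cv P (fun ω => s (A ω)) (s (A ω))) A' X τ ≤ (b + K * b) / θ
  have o2 := pb_or P (fun ω => ¬be (s (A ω)) ≤ 3 * r / θ)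
    fun ω => ¬mi (cv P (fun ω => s (A ω)) (s (A ω))) A X τ ≤ b / θ ∨
      ¬mi (cv P (fun ω => s (A ω)) (s (A ω))) A' X τ ≤ (b + K * b) / θ
  have o3 := pb_or P (fun ω => ¬mi (cv P (fun ω => s (A ω)) (s (A ω))) A X τ ≤ b / θ)
    fun ω => ¬mi (cv P (fun ω => s (A ω)) (s (A ω))) A' X τ ≤ (b + K * b) / θ
  have o4 := pb_not P fun ω => ¬hh (cv P (fun ω => s (A ω)) (s (A ω))) C ≤ h' ∨
    ¬be (s (A ω)) ≤ 3 * r / θ ∨ ¬mi (cv P (fun ω => s (A ω)) (s (A ω))) A X τ ≤ b / θ ∨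
      ¬mi (cv P (fun ω => s (A ω)) (s (A ω))) A' X τ ≤ (b + K * b) / θ
  refine le_trans (by linarith) (o4.ge.trans (pb_mono fun ω _ hω => ?_))
  simp only [not_or, not_not] at hω
  exact ⟨hω.1, (k3 _).mono hω.2.1, hω.2.2.1, hω.2.2.2⟩

end Pool.Agent.MP_5168f5_an.QA.DLab
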