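import Pool.Agent.MP_4b405e_nt.SK.DDefs
import Pool.Agent.MP_4b405e_nt.SK.DLab

/-! Sparse slopes, block D: a deficient variable has many nested boxes without spreading. -/

namespace Pool.Agent.MP_5168f5_an.QA.SD

open H19 H17S H17F Real
open DLab (Cut)

/-- Nested boxes in which the noise `X` does not spread. -/
structure Bx {Ω T : Type} {N : ℕ} (P : FP Ω) (X : Ω → V N) (τ : Ω → T) (c C b q : ℝ) (u n : ℕ)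
    (M : ℕ → V N →L[ℝ] V N) (la : ℕ → ℝ) (Gd : ℕ → V N → T → Prop) : Prop where
  lo : c * u ≤ b * n
  hi : b * n ≤ u
  nest : ∀ k x, ‖M (k + 1) x‖ ≤ exp (-(2 * b)) * ‖M k x‖
  gro : ∀ i k, i ≤ k → ∀ x, ‖M i x‖ ≤ exp (la k - la i) * ‖M k x‖
  mono : Monotone la
  la0 : la 0 = 0
  lan : la n ≤ C * u
  fine : ‖M 0‖ ≤ 2 ^ u
  thin : exp (c * u) ≤ ‖M n‖
  bad : ∑ k ∈ Finset.range n, pb P (fun ω => ¬Gd k (X ω) (τ ω)) ≤ q * n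
  gp : ∀ k x x' t, Gd k x t → Gd k x' t → ‖M k (x - x')‖ ≤ 1 → ‖M k (x - x')‖ ≤ exp (-b)

/-- There are such boxes. -/
def NSB {Ω T : Type} {N : ℕ} (P : FP Ω) (X : Ω → V N) (τ : Ω → T) (c C b q : ℝ) (u : ℕ) : Prop :=
  ∃ n M la Gd, Bx P X τ c C b q u n M la Gd

/-- The statement of block D. -/
def SpD : Prop := ∀ (N : ℕ) (κ : ℝ), 0 < N → 0 < κ → ∃ c C : ℝ, 0 < c ∧ 1 ≤ C ∧
  ∀ b q η : ℝ, 1 ≤ b → 0 < q → 0 < η → ∃ (β : ℝ) (u₀ : ℕ), 0 < β ∧ ∀ u : ℕ, u₀ ≤ u →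
    ∀ (Ω T : Type) (P : FP Ω) (A A' X : Ω → V N) (τ : Ω → T),
      (∀ ω ∈ P.S, ‖A' ω - A ω - X ω‖ ≤ ((2 : ℝ) ^ u)⁻¹) →
      hh P (fun ω => flv u (A ω)) ≤ (N - κ) * u * lg →
      mi P A (fun ω => (X ω, τ ω)) (fun _ => ()) ≤ β * u → mi P A' X τ ≤ β * u →
      ∃ s : V N → ℕ, hh P (fun ω => s (A ω)) ≤ η * u ∧
        c ≤ pb P fun ω => NSB (cv P (fun ω => s (A ω)) (s (A ω))) X τ c C b q u

/-! ### Rows -/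

/-- The chain; `k i` counts the long steps before the stop `i`. -/
def RowCh : Prop :=
  ∀ (Ω : Type) (N : ℕ) (P : FP Ω) (A : Ω → V N) (Q La M lam : ℕ) (G₀ : Mat N) (de t ρ : ℝ),
    0 < Q → 0 < M → 0 < La → 0 < lam → 0 ≤ de → 0 < t → t ≤ 1 → G₀.det ≠ 0 → 0 < ρ →
    ρ ≤ (1 - (2 / (t * M) + M * de)) * log (1 / t) - 8 * N →
    ∃ (G : ℕ → Mat N) (k : ℕ → ℕ), Monotone k ∧ (∀ x, ‖(G 0).mulVec x‖ ≤ ‖G₀.mulVec x‖) ∧ ∀ i,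
      (G i).det ≠ 0 ∧ Stop P A Q La (G i) de ∧ ρ * k i ≤ HG P A G₀ ∧
      (∀ x, lam * ‖(G (i + 1)).mulVec x‖ ≤ ‖(G i).mulVec x‖) ∧
      (∀ x, ‖(G i).mulVec x‖ ≤
        lam * ((M : ℝ) * La + 2) ^ (k (i + 1) - k i) * ‖(G (i + 1)).mulVec x‖) ∧
      |G₀.det| ≤ (lam : ℝ) ^ (N * i) * ((M : ℝ) * La * 2 ^ N) ^ k i * |(G i).det|

/-- No spreading at a stop. -/
def RowNS : Prop :=
  ∀ (Ω Γ : Type) (N : ℕ) (P : FP Ω) (A A' X : Ω → V N) (Q La : ℕ) (G : Mat N) (d : Ω → Z N)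
    (w : Ω → Γ) (de be l : ℝ), 0 < Q → 0 < de → 0 < l → l ≤ 1 → Stop P A Q La G de →
    (∀ ω ∈ P.S, ‖(Q : ℝ) • G.mulVec (A' ω - A ω - X ω)‖ ≤ 1) →
    (∀ ω ∈ P.S, ‖cz (d ω) - (Q : ℝ) • G.mulVec (X ω)‖ ≤ 2) →
    (∀ ω ∈ P.S, ∀ ω' ∈ P.S, w ω = w ω' → ∀ i, |d ω i - d ω' i| ≤ (La : ℤ) * Q) →
    Cut P A w be → ∃ c : Γ → Z N, pb P (fun ω => ∃ i, (Q : ℤ) ≤ |d ω i - c (w ω) i|) ≤
      4 * be * (2 * La * Q + 1) ^ N / de + 32 / de * ((mi P A d w + mi P A' d w) / l + l + N / Q)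

/-- Telescoping along residue classes and the good sets. -/
def RowTel : Prop :=
  ∀ (Ω T : Type) (N : ℕ) (P : FP Ω) (A A' X : Ω → V N) (τ : Ω → T) (Q s lam p n : ℕ)
    (G : ℕ → Mat N) (de be l : ℝ), 0 < N → 0 < Q → 0 < s → 0 < lam → 0 < p → 0 < de → 0 < l →
    l ≤ 1 → 10 * Q * (2 * N * s) ≤ lam ^ p →
    (∀ i, (G i).det ≠ 0 ∧ Stop P A Q (2 * N * s) (G i) de ∧
      ∀ x, lam * ‖(G (i + 1)).mulVec x‖ ≤ ‖(G i).mulVec x‖) →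
    (∀ ω ∈ P.S, ‖(Q : ℝ) • (G 0).mulVec (A' ω - A ω - X ω)‖ ≤ 1) →
    Cut P A (fun ω => (X ω, τ ω)) be → ∃ Gd : ℕ → V N → T → Prop,
      ∑ i ∈ Finset.range n, pb P (fun ω => ¬Gd i (X ω) (τ ω)) ≤
        4 * (n * (4 * be * (2 * (2 * N * s : ℕ) * Q + 1) ^ N / de + 32 / de * (l + N / Q)) +
          32 / de / l * p * (mi P A X τ + mi P A' X τ)) ∧
      ∀ i x x' t, Gd i x t → Gd i x' t → ‖(G i).mulVec (x - x')‖ ≤ s - 5 →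
        ‖(G i).mulVec (x - x')‖ ≤ 6

/-- Block D for one law. -/
def One : Prop := ∀ (N : ℕ) (κ : ℝ), 0 < N → 0 < κ → ∃ c C : ℝ, 0 < c ∧ 1 ≤ C ∧
  ∀ b q : ℝ, 1 ≤ b → 0 < q → ∃ (be β : ℝ) (u₀ : ℕ), 0 < be ∧ 0 < β ∧ ∀ u : ℕ, u₀ ≤ u →
    ∀ (Ω T : Type) (P : FP Ω) (A A' X : Ω → V N) (τ : Ω → T),
      (∀ ω ∈ P.S, ‖A' ω - A ω - X ω‖ ≤ ((2 : ℝ) ^ u)⁻¹) →
      hh P (fun ω => flv u (A ω)) ≤ (N - κ) * u * lg →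
      Cut P A (fun ω => (X ω, τ ω)) be → mi P A X τ + mi P A' X τ ≤ β * u →
      NSB P X τ c C b q u

def SCh : Prop := RowAdd → RowCh
def STel : Prop := RowNS → RowTel
def SOne : Prop := RowCh → RowTel → One
def SPick : Prop := One → SpD

theorem spD_of (a : RowAdd) (n : RowNS) (c : SCh) (t : STel) (o : SOne) (p : SPick) : SpD :=
  p (o (c a) (t n))

end Pool.Agent.MP_5168f5_an.QA.SD
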