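import Pool.Agent.MP_4b405e_nt.SK.DNsB
import Pool.Agent.MP_4b405e_nt.SK.SpD

/-! Sparse slopes, block D: the row on stops. -/

namespace Pool.Agent.MP_5168f5_an.QA.SD

open H19 H17S H17F

theorem rowNS : RowNS := by
  intro Ω Γ N P A A' X Q La G d w de be l hQ hde l0 l1 hs h1 h2 hw hc
  obtain ⟨c, h⟩ := nsC P A A' X d w Q La G l0.le l1 hde.le hs h1 h2 hw hc
  refine ⟨c, le_of_mul_le_mul_left (h.trans ?_) (mul_pos hde l0)⟩
  have hQ' : (0 : ℝ) < Q := Nat.cast_pos.2 hQ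
  have m : 0 ≤ mi P A d w + mi P A' d w := add_nonneg (mi_nonneg _ _ _) (mi_nonneg _ _ _)
  have k1 : (0 : ℝ) ≤ l * be * (2 * La * Q + 1) ^ N := by have := hc.nonneg; positivity
  have k2 : 32 * l * (N : ℝ) / (Q + 1) ≤ 32 * l * N / Q :=
    div_le_div_of_nonneg_left (by positivity) hQ' (by linarith)
  have e : de * l * (4 * be * (2 * La * Q + 1) ^ N / de +
      32 / de * ((mi P A d w + mi P A' d w) / l + l + N / Q)) =
      4 * (l * be * (2 * La * Q + 1) ^ N) + 32 * (mi P A d w + mi P A' d w) + 32 * l ^ 2 +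
        32 * l * N / Q := by
    field_simp
    ring
  rw [e]
  nlinarith [sq_nonneg l]

end Pool.Agent.MP_5168f5_an.QA.SD
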