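import Pool.Agent.MP_4b405e_nt.SK.SpD

/-! Sparse slopes, block D: from one law to the labelled statement. -/

namespace Pool.Agent.MP_5168f5_an.QA.SD

open H19 H17S H17F Real

theorem NSB.mono {Ω T : Type} {N : ℕ} {P : FP Ω} {X : Ω → V N} {τ : Ω → T} {c c' C b q : ℝ}
    {u : ℕ} (h : NSB P X τ c C b q u) (k : c' ≤ c) : NSB P X τ c' C b q u := by
  obtain ⟨n, M, la, Gd, h⟩ := h
  have e : c' * u ≤ c * u := mul_le_mul_of_nonneg_right k (Nat.cast_nonneg u)
  exact ⟨n, M, la, Gd, e.trans h.lo, h.hi, h.nest, h.gro, h.mono, h.la0, h.lan, h.fine,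
    (exp_le_exp.2 e).trans h.thin, h.bad, h.gp⟩

theorem sPick : SPick := by
  intro one N κ hN hκ
  have N0 : (0 : ℝ) < N := by exact_mod_cast hN
  obtain ⟨c, C, c0, C1, h⟩ := one N (κ / 2) hN (by positivity)
  refine ⟨min c (κ / (4 * N)), C, lt_min c0 (by positivity), C1, fun b q η b1 q0 η0 => ?_⟩
  obtain ⟨be, β, u₀, be0, β0, h⟩ := h b q b1 q0
  obtain ⟨θ, hθ⟩ : ∃ θ : ℝ, θ = κ / (12 * N) := ⟨_, rfl⟩
  have θ0 : 0 < θ := by rw [hθ]; positivity
  obtain ⟨r, hr⟩ : ∃ r : ℝ, r = be * θ / 3 := ⟨_, rfl⟩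
  have r0 : 0 < r := by rw [hr]; positivity
  obtain ⟨K, hK⟩ : ∃ K : ℝ, K = 2 * lg / r ^ 2 := ⟨_, rfl⟩
  have l0 := lg_pos
  have K0 : 0 < K := by rw [hK]; positivity
  obtain ⟨β', b0, b1', b2⟩ : ∃ β' : ℝ, 0 < β' ∧ β' ≤ η / K ∧ β' ≤ β * θ / (2 + K) :=
    ⟨min (η / K) (β * θ / (2 + K)), lt_min (by positivity) (by positivity), min_le_left _ _,
      min_le_right _ _⟩
  refine ⟨β', max u₀ 1, b0, fun u hu Ω T P A A' X τ h1 h2 h3 h4 => ?_⟩
  have u0 : (0 : ℝ) < u := by exact_mod_cast (le_max_right u₀ 1).trans hu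
  have ul : 0 < u * lg := by positivity
  have κN : κ ≤ N := by
    have := (hh_nonneg (P := P) fun ω => flv u (A ω)).trans h2
    rw [mul_assoc] at this
    linarith [nonneg_of_mul_nonneg_left this ul]
  have d0 : 0 < N - κ / 2 := by linarith
  obtain ⟨s, k1, k2⟩ := DLab.pick P A A' X τ (fun ω => flv u (A ω)) (K := K) (r := r) (θ := θ)
    (b := β' * u) (h' := (N - κ / 2) * u * lg) K0 r0 (by rw [hK]; field_simp; exact le_rfl) θ0
    (by positivity) (by positivity) h2 h3 h4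
  refine ⟨s, k1.trans ?_, (min_le_right _ _).trans (le_trans ?_ (k2.trans (pb_mono ?_)))⟩
  · rw [le_div_iff₀ K0] at b1'
    nlinarith
  · have e : (N - κ) * u * lg / ((N - κ / 2) * u * lg) = (N - κ) / (N - κ / 2) := by
      field_simp
    have e2 : (N - κ) / (N - κ / 2) ≤ 1 - κ / (2 * N) := by
      rw [div_le_iff₀ d0]
      have : κ / (2 * N) * (N - κ / 2) ≤ κ / 2 := by
        rw [div_mul_eq_mul_div, div_le_iff₀ (by positivity)]
        nlinarith
      linarith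
    have e3 : κ / (4 * N) = κ / (2 * N) - 3 * θ := by rw [hθ]; field_simp; ring
    rw [e, e3]
    linarith
  · rintro ω _ ⟨a1, a2, a3, a4⟩
    refine NSB.mono (h u ((le_max_left _ _).trans hu) Ω T _ A A' X τ
      (fun ω' hω' => h1 ω' (cE_sub hω')) a1 (a2.mono (le_of_eq ?_)) ?_) (min_le_left _ _)
    · rw [hr]; field_simp
    · refine (add_le_add a3 a4).trans ?_
      rw [le_div_iff₀ (by positivity)] at b2
      rw [← add_div, div_le_iff₀ θ0]
      nlinarith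

end Pool.Agent.MP_5168f5_an.QA.SD
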