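import Pool.Agent.MP_4b405e_nt.SK.SpD

/-! Sparse slopes, block D: rounding chains, telescoping budgets and good events. -/

namespace Pool.Agent.MP_5168f5_an.QA.SD

open H19 H17S H17F Finset

variable {Ω α β T : Type} {N : ℕ}

/-- No branching at the box `G`: a rounding `d` of the noise sits near a centre read from a
coarser rounding `c`, up to the information budget. -/
def NsAt (P : FP Ω) (A : Ω → α) (A' : Ω → β) (X : Ω → V N) (τ : Ω → T) (Q La : ℕ) (G : Mat N)
    (e K : ℝ) : Prop :=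
  ∀ d c : V N → Z N, (∀ x i, |(d x i : ℝ) - Q * G.mulVec x i| ≤ 2) →
    (∀ x x', c x = c x' → ∀ i, |d x i - d x' i| ≤ (La : ℤ) * Q) →
    ∃ z : Z N × T → Z N,
      pb P (fun ω => ∃ i, (Q : ℤ) ≤ |d (X ω) i - z (c (X ω), τ ω) i|) ≤
        e + K * (mi P A (fun ω => d (X ω)) (fun ω => (c (X ω), τ ω)) +
          mi P A' (fun ω => d (X ω)) fun ω => (c (X ω), τ ω))

/-- Iteration along a residue class. -/
def zc {W : Type} (F : ℕ → W → W) (p r : ℕ) : ℕ → W → W
  | 0 => id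
  | m + 1 => fun x => F (r + m * p) (zc F p r m x)

theorem ex_chain {W : Type} (F : ℕ → W → W) {p : ℕ} (hp : 0 < p) :
    ∃ z : ℕ → W → W, (∀ i < p, ∀ x, z i x = x) ∧ ∀ i x, z (i + p) x = F i (z i x) := by
  refine ⟨fun i => zc F p (i % p) (i / p), fun i hi x => ?_, fun i x => ?_⟩
  · simp only [Nat.div_eq_of_lt hi]; rfl
  · simp only [Nat.add_mod_right, Nat.add_div_right _ hp, zc]
    rw [mul_comm, Nat.mod_add_div]

theorem sum_tel {a : ℕ → ℝ} {b : ℝ} (p n : ℕ) (h0 : ∀ i, 0 ≤ a i) (h1 : ∀ i, a i ≤ b) :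
    ∑ i ∈ range n, (a i - a (i + p)) ≤ p * b := by
  have h2 : ∑ i ∈ range n, a i + ∑ i ∈ range p, a (n + i) =
      ∑ i ∈ range p, a i + ∑ i ∈ range n, a (i + p) := by
    rw [← sum_range_add, add_comm n p, sum_range_add]
    simp only [add_comm p]
  have h3 : 0 ≤ ∑ i ∈ range p, a (n + i) := sum_nonneg fun i _ => h0 _
  have h4 : ∑ i ∈ range p, a i ≤ p * b := by
    simpa using sum_le_card_nsmul (range p) a b fun i _ => h1 i
  rw [sum_sub_distrib]; linarith

theorem tel_mi {W U : Type} (P : FP Ω) (A : Ω → α) (X : Ω → W) (τ : Ω → T) (d c : ℕ → W → U)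
    (p n : ℕ) (h1 : ∀ i x x', d i x = d i x' → c i x = c i x')
    (h2 : ∀ i x x', c i x = c i x' → d (i + p) x = d (i + p) x') :
    ∑ i ∈ range n, mi P A (fun ω => d i (X ω)) (fun ω => (c i (X ω), τ ω)) ≤
      p * mi P A X τ := by
  refine le_trans (sum_le_sum fun i _ => ?_) (sum_tel (a := fun i => mi P A (fun ω => d i (X ω)) τ)
    p n (fun i => mi_nonneg _ _ _) fun i => mi_mono ((Fn.comp (d i) X).left τ))
  have e1 := mi_chain (P := P) A (fun ω => c i (X ω)) (fun ω => d i (X ω)) τ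
  have e2 : mi P A (fun ω => (c i (X ω), d i (X ω))) τ ≤ mi P A (fun ω => d i (X ω)) τ :=
    mi_mono fun a _ b _ e => Prod.ext (h1 i _ _ (congrArg Prod.fst e)) (congrArg Prod.fst e)
  have e3 : mi P A (fun ω => d (i + p) (X ω)) τ ≤ mi P A (fun ω => c i (X ω)) τ :=
    mi_mono fun a _ b _ e => h2 i _ _ (congrArg Prod.fst e)
  linarith

theorem sep0 {u u' k S : ℤ} (hS : 0 < S) (hu : u ≤ u') (h : (u + k) / S ≠ (u' + k) / S) :
    ∃ m : ℤ, u < m * S - k ∧ m * S - k ≤ u' := by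
  have h1 : (u + k) / S < (u' + k) / S :=
    lt_of_le_of_ne (Int.ediv_le_ediv hS (by linarith)) h
  have h2 := (Int.ediv_lt_iff_lt_mul hS).1 h1
  have h3 := Int.ediv_mul_le (u' + k) hS.ne'
  exact ⟨(u' + k) / S, by linarith, by linarith⟩

theorem sep1 {u u' k S : ℤ} {y y' : ℝ} (hS : 0 < S) (h : (u + k) / S ≠ (u' + k) / S)
    (hy : |(u : ℝ) - y| ≤ 2) (hy' : |(u' : ℝ) - y'| ≤ 2) :
    ∃ m : ℤ, min y y' - 2 < ((m * S - k : ℤ) : ℝ) ∧ ((m * S - k : ℤ) : ℝ) ≤ max y y' + 2 := by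
  obtain ⟨a1, a2⟩ := abs_le.1 hy
  obtain ⟨a3, a4⟩ := abs_le.1 hy'
  have m1 := min_le_left y y'
  have m2 := min_le_right y y'
  have m3 := le_max_left y y'
  have m4 := le_max_right y y'
  rcases le_total u u' with hu | hu
  · obtain ⟨m, b1, b2⟩ := sep0 hS hu h
    have c1 : (u : ℝ) < ((m * S - k : ℤ) : ℝ) := by exact_mod_cast b1
    have c2 : ((m * S - k : ℤ) : ℝ) ≤ u' := by exact_mod_cast b2
    exact ⟨m, by linarith, by linarith⟩
  · obtain ⟨m, b1, b2⟩ := sep0 hS hu h.symm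
    have c1 : (u' : ℝ) < ((m * S - k : ℤ) : ℝ) := by exact_mod_cast b1
    have c2 : ((m * S - k : ℤ) : ℝ) ≤ u := by exact_mod_cast b2
    exact ⟨m, by linarith, by linarith⟩

/-- At most one shift separates two close reals. -/
theorem sep2 {R : ℕ} {s : ℤ} (hs : 0 < s) {y y' : ℝ} (hy : |y - y'| + 4 ≤ s) (u u' : ℕ → ℤ)
    (hu : ∀ j, |(u j : ℝ) - y| ≤ 2) (hu' : ∀ j, |(u' j : ℝ) - y'| ≤ 2) :
    ((range R).filter fun j => (u j + j * s) / (R * s) ≠ (u' j + j * s) / (R * s)).card ≤ 1 := by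
  refine card_le_one.2 fun j hj k hk => ?_
  obtain ⟨j1, j2⟩ := mem_filter.1 hj
  obtain ⟨k1, k2⟩ := mem_filter.1 hk
  rw [mem_range] at j1 k1
  have hR : (0 : ℤ) < R := by exact_mod_cast (Nat.zero_le j).trans_lt j1
  obtain ⟨m, a1, a2⟩ := sep1 (mul_pos hR hs) j2 (hu j) (hu' j)
  obtain ⟨m', b1, b2⟩ := sep1 (mul_pos hR hs) k2 (hu k) (hu' k)
  have e := max_sub_min_eq_abs y y'
  rw [abs_sub_comm] at e
  have c1 : ((m * (R * s) - j * s : ℤ) : ℝ) < ((m' * (R * s) - k * s + s : ℤ) : ℝ) := by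
    rw [Int.cast_add]; linarith
  have c2 : ((m' * (R * s) - k * s : ℤ) : ℝ) < ((m * (R * s) - j * s + s : ℤ) : ℝ) := by
    rw [Int.cast_add]; linarith
  have d1 : (m * R - j) * s < (m' * R - k + 1) * s := by
    have := Int.cast_lt.1 c1; linarith
  have d2 : (m' * R - k) * s < (m * R - j + 1) * s := by
    have := Int.cast_lt.1 c2; linarith
  have f1 := lt_of_mul_lt_mul_right d1 hs.le
  have f2 := lt_of_mul_lt_mul_right d2 hs.le
  have g : (m - m') * R = j - k := by linarith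
  have j3 : (j : ℤ) < R := by exact_mod_cast j1
  have k3 : (k : ℤ) < R := by exact_mod_cast k1
  have j0 : (0 : ℤ) ≤ j := Int.natCast_nonneg j
  have k0 : (0 : ℤ) ≤ k := Int.natCast_nonneg k
  have g1 : m - m' < 1 := lt_of_mul_lt_mul_right (by linarith) hR.le
  have g2 : -1 < m - m' := lt_of_mul_lt_mul_right (by linarith) hR.le
  have g3 : m - m' = 0 := by omega
  rw [g3] at g
  omega

theorem fcl_near (Q : ℕ) (G : Mat N) (x : V N) (i : Fin N) :
    |(fcl Q G x i : ℝ) - Q * G.mulVec x i| ≤ 1 := by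
  have h1 := Int.floor_le (Q * G.mulVec x i : ℝ)
  have h2 := Int.lt_floor_add_one (Q * G.mulVec x i : ℝ)
  have e : fcl Q G x i = ⌊(Q * G.mulVec x i : ℝ)⌋ := by simp [fcl, flv, fl1]
  rw [e, abs_le]; constructor <;> linarith

theorem ediv_near {u k S : ℤ} (hS : 0 < S) (k0 : 0 ≤ k) (k1 : k ≤ S) :
    |u - S * ((u + k) / S)| ≤ S := by
  have h1 := Int.emod_nonneg (u + k) hS.ne'
  have h2 := Int.emod_lt_of_pos (u + k) hS
  have h3 := Int.emod_add_mul_ediv (u + k) S
  rw [abs_le]; constructor <;> linarith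

/-- The chain of roundings for one shift `k`. -/
theorem rnd (G : ℕ → Mat N) {n p Q : ℕ} {S k : ℤ} (hp : 0 < p) (hQ : 0 < Q) (hS : 0 < S)
    (k0 : 0 ≤ k) (k1 : k ≤ S) (hdet : ∀ i < n, (G i).det ≠ 0)
    (hn : ∀ i, i + p < n → ∀ x, (S + 2 : ℝ) * ‖(G (i + p)).mulVec x‖ ≤ ‖(G i).mulVec x‖) :
    ∃ d : ℕ → V N → Z N, (∀ i < n, ∀ x a, |(d i x a : ℝ) - Q * (G i).mulVec x a| ≤ 2) ∧
      ∀ i x x', (fun a => (d i x a + k) / S) = (fun a => (d i x' a + k) / S) →
        d (i + p) x = d (i + p) x' := by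
  obtain ⟨z, z0, z1⟩ := ex_chain (fun i (y : V N) => (G i)⁻¹.mulVec
    fun a => (S * ((fcl Q (G i) y a + k) / S) : ℤ) / (Q : ℝ)) hp
  have Q0 : (0 : ℝ) < Q := by exact_mod_cast hQ
  have S0 : (0 : ℝ) < S := by exact_mod_cast hS
  have nr : ∀ i x, Q * ‖(G i).mulVec (x - z i x)‖ ≤ 1 → ∀ a,
      |(fcl Q (G i) (z i x) a : ℝ) - Q * (G i).mulVec x a| ≤ 2 := fun i x h a => by
    have h1 := abs_le.1 (fcl_near Q (G i) (z i x) a)
    have h2 := abs_le.1 ((norm_le_pi_norm ((G i).mulVec (x - z i x)) a).trans_eq' (Real.norm_eq_abs _))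
    rw [Matrix.mulVec_sub, Pi.sub_apply, ← Matrix.mulVec_sub] at h2
    have h3 := mul_le_mul_of_nonneg_left h2.1 Q0.le
    have h4 := mul_le_mul_of_nonneg_left h2.2 Q0.le
    rw [abs_le]; constructor <;> linarith [h1.1, h1.2]
  have key : ∀ i, i < n → ∀ x, Q * ‖(G i).mulVec (x - z i x)‖ ≤ 1 := by
    intro i
    induction i using Nat.strong_induction_on with
    | _ i ih =>
      intro hi x
      rcases lt_or_ge i p with h | h
      · rw [z0 i h, sub_self, Matrix.mulVec_zero, norm_zero, mul_zero]; exact zero_le_one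
      · obtain ⟨l, rfl⟩ := Nat.exists_eq_add_of_le' h
        have hl : l < n := by omega
        have h1 := nr l x (ih l (by omega) hl x)
        have h2 : ‖(G l).mulVec (x - z (l + p) x)‖ ≤ (S + 2) / Q := by
          refine (pi_norm_le_iff_of_nonneg (by positivity)).2 fun a => ?_
          rw [z1, Matrix.mulVec_sub, Matrix.mulVec_mulVec,
            Matrix.mul_nonsing_inv _ (hdet l hl).isUnit, Matrix.one_mulVec, Pi.sub_apply,
            Real.norm_eq_abs, le_div_iff₀ Q0, ← abs_of_pos Q0, ← abs_mul, abs_of_pos Q0, sub_mul,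
            div_mul_cancel₀ _ Q0.ne']
          have h3 := abs_le.1 (h1 a)
          have h4 : |(fcl Q (G l) (z l x) a : ℝ) - (S * ((fcl Q (G l) (z l x) a + k) / S) : ℤ)| ≤ S := by
            exact_mod_cast ediv_near hS k0 k1
          have h5 := abs_le.1 h4
          rw [abs_le]; constructor <;> linarith [h3.1, h3.2, h5.1, h5.2]
        have h3 := (hn l hi (x - z (l + p) x)).trans h2
        rw [le_div_iff₀ Q0] at h3
        have h4 : (S + 2 : ℝ) * (Q * ‖(G (l + p)).mulVec (x - z (l + p) x)‖) ≤ (S + 2) * 1 := by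
          linarith
        exact le_of_mul_le_mul_left h4 (by positivity)
  refine ⟨fun i x => fcl Q (G i) (z i x), fun i hi x a => nr i x (key i hi x) a,
    fun i x x' e => ?_⟩
  simp only [z1]
  congr 2
  funext a
  rw [congrFun e a]

open Classical in
theorem pb_cnt (P : FP Ω) {R : ℕ} (hR : 0 < R) (E : ℕ → Ω → Prop) :
    pb P (fun ω => ¬4 * ((range R).filter fun j => E j ω).card < R) ≤
      4 / R * ∑ j ∈ range R, pb P (E j) := by
  have R0 : (0 : ℝ) < R := by exact_mod_cast hR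
  unfold pb
  rw [← P.E_sum, ← P.E_mul]
  refine P.E_mono fun ω _ => ?_
  rw [sum_boole]
  split_ifs with h
  · have h1 : (R : ℝ) ≤ 4 * ((range R).filter fun j => E j ω).card := by
      exact_mod_cast not_lt.1 h
    rw [div_mul_eq_mul_div, le_div_iff₀ R0, one_mul]
    convert h1
  · positivity

/-- Row D5. -/
theorem tel (P : FP Ω) (A : Ω → α) (A' : Ω → β) (X : Ω → V N) (τ : Ω → T) (G : ℕ → Mat N)
    {n p Q L : ℕ} {e K : ℝ} (hN : 0 < N) (hp : 0 < p) (Q0 : 0 < Q) (hL : 0 < L) (K0 : 0 ≤ K)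
    (hdet : ∀ i < n, (G i).det ≠ 0)
    (hn : ∀ i, i + p < n → ∀ x,
      (2 * N * L * Q + 2 : ℝ) * ‖(G (i + p)).mulVec x‖ ≤ ‖(G i).mulVec x‖)
    (hns : ∀ i < n, NsAt P A A' X τ Q (2 * N * L) (G i) e K) :
    ∃ Gd : ℕ → V N → T → Prop,
      ∑ i ∈ range n, pb P (fun ω => ¬Gd i (X ω) (τ ω)) ≤
        4 * (n * e + K * p * (mi P A X τ + mi P A' X τ)) ∧
      ∀ i < n, ∀ x x' t, Gd i x t → Gd i x' t → ‖(G i).mulVec (x - x')‖ ≤ L - 5 →
        ‖(G i).mulVec (x - x')‖ ≤ 6 := by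
  classical
  obtain ⟨R, hR⟩ : ∃ R : ℕ, R = 2 * N := ⟨_, rfl⟩
  obtain ⟨s, hs⟩ : ∃ s : ℤ, s = L * Q := ⟨_, rfl⟩
  have R0 : 0 < R := by omega
  have R1 : (0 : ℤ) < R := by exact_mod_cast R0
  have Q1 : (1 : ℝ) ≤ Q := by exact_mod_cast Q0
  have s0 : 0 < s := by rw [hs]; positivity
  have hS : (((R : ℤ) * s : ℤ) : ℝ) = 2 * N * L * Q := by rw [hR, hs]; push_cast; ring
  have hS' : (R : ℤ) * s = ((2 * N * L : ℕ) : ℤ) * Q := by rw [hR, hs]; push_cast; ring
  have h1 : ∀ j : ℕ, ∃ d : ℕ → V N → Z N, j < R →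
      (∀ i < n, ∀ x a, |(d i x a : ℝ) - Q * (G i).mulVec x a| ≤ 2) ∧
      ∀ i x x', (fun a => (d i x a + j * s) / (R * s)) = (fun a => (d i x' a + j * s) / (R * s)) →
        d (i + p) x = d (i + p) x' := fun j => by
    by_cases hj : j < R
    · have j1 : (j : ℤ) ≤ R := by exact_mod_cast hj.le
      obtain ⟨d, hd⟩ := rnd G (S := R * s) (k := j * s) hp Q0 (mul_pos R1 s0) (by positivity)
        (mul_le_mul_of_nonneg_right j1 s0.le) hdet (by rw [hS]; exact hn)
      exact ⟨d, fun _ => hd⟩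
    · exact ⟨fun _ _ _ => 0, fun h => absurd h hj⟩
  choose d hd using h1
  obtain ⟨c, hc⟩ : ∃ c : ℕ → ℕ → V N → Z N,
    ∀ j i x, c j i x = fun a => (d j i x a + j * s) / (R * s) := ⟨_, fun _ _ _ => rfl⟩
  have h2 : ∀ j i : ℕ, ∃ z : Z N × T → Z N, j < R → i < n →
      pb P (fun ω => ∃ a, (Q : ℤ) ≤ |d j i (X ω) a - z (c j i (X ω), τ ω) a|) ≤
        e + K * (mi P A (fun ω => d j i (X ω)) (fun ω => (c j i (X ω), τ ω)) +
          mi P A' (fun ω => d j i (X ω)) fun ω => (c j i (X ω), τ ω)) := fun j i => by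
    by_cases hj : j < R ∧ i < n
    · obtain ⟨z, hz⟩ := hns i hj.2 (d j i) (c j i) ((hd j hj.1).1 i hj.2) fun x x' e a => by
        rw [hc, hc] at e
        have e1 := congrFun e a
        have a1 := Int.emod_nonneg (d j i x a + j * s) (mul_pos R1 s0).ne'
        have a2 := Int.emod_lt_of_pos (d j i x a + j * s) (mul_pos R1 s0)
        have a3 := Int.emod_add_mul_ediv (d j i x a + j * s) (R * s)
        have b1 := Int.emod_nonneg (d j i x' a + j * s) (mul_pos R1 s0).ne'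
        have b2 := Int.emod_lt_of_pos (d j i x' a + j * s) (mul_pos R1 s0)
        have b3 := Int.emod_add_mul_ediv (d j i x' a + j * s) (R * s)
        rw [e1] at a3
        rw [← hS', abs_le]; constructor <;> linarith
      exact ⟨z, fun _ _ => hz⟩
    · exact ⟨fun _ _ => 0, fun h h' => absurd ⟨h, h'⟩ hj⟩
  choose z hz using h2
  refine ⟨fun i x t => 4 * ((range R).filter fun j =>
    ∃ a, (Q : ℤ) ≤ |d j i x a - z j i (c j i x, t) a|).card < R, ?_, fun i hi x x' t g g' hx => ?_⟩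
  · refine le_trans (sum_le_sum fun i _ => (le_of_eq ?_).trans (pb_cnt P R0 fun j ω =>
      ∃ a, (Q : ℤ) ≤ |d j i (X ω) a - z j i (c j i (X ω), τ ω) a|)) ?_
    · congr! 7
    have R2 : (0 : ℝ) < R := by exact_mod_cast R0
    rw [← mul_sum, sum_comm]
    have h3 : ∀ j ∈ range R, ∑ i ∈ range n,
        pb P (fun ω => ∃ a, (Q : ℤ) ≤ |d j i (X ω) a - z j i (c j i (X ω), τ ω) a|) ≤
        n * e + K * p * (mi P A X τ + mi P A' X τ) := fun j hj => by
      rw [mem_range] at hj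
      refine le_trans (sum_le_sum fun i hi => hz j i hj (mem_range.1 hi)) ?_
      have f1 : ∀ i x x', d j i x = d j i x' → c j i x = c j i x' := fun i x x' e => by
        rw [hc, hc, e]
      have f2 : ∀ i x x', c j i x = c j i x' → d j (i + p) x = d j (i + p) x' :=
        fun i x x' e => (hd j hj).2 i x x' (by rwa [hc, hc] at e)
      have t1 := tel_mi P A X τ (d j) (c j) p n f1 f2
      have t2 := tel_mi P A' X τ (d j) (c j) p n f1 f2
      rw [sum_add_distrib, ← mul_sum, sum_add_distrib, sum_const, card_range, nsmul_eq_mul,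
        mul_assoc, mul_add (p : ℝ)]
      exact add_le_add le_rfl (mul_le_mul_of_nonneg_left (add_le_add t1 t2) K0)
    have h4 := sum_le_card_nsmul _ _ _ h3
    rw [card_range, nsmul_eq_mul] at h4
    refine (mul_le_mul_of_nonneg_left h4 (by positivity)).trans_eq ?_
    field_simp
  · have cx : ∀ a, |Q * (G i).mulVec x a - Q * (G i).mulVec x' a| =
        Q * |(G i).mulVec (x - x') a| := fun a => by
      rw [← mul_sub, abs_mul, Nat.abs_cast, Matrix.mulVec_sub, Pi.sub_apply]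
    have h3 : ((range R).filter fun j => c j i x ≠ c j i x').card ≤ N := by
      have h4 : ((range R).filter fun j => c j i x ≠ c j i x') ⊆ univ.biUnion fun a : Fin N =>
          (range R).filter fun j => c j i x a ≠ c j i x' a := fun j hj => by
        obtain ⟨j1, j2⟩ := mem_filter.1 hj
        obtain ⟨a, ha⟩ := Function.ne_iff.1 j2
        exact mem_biUnion.2 ⟨a, mem_univ _, mem_filter.2 ⟨j1, ha⟩⟩
      refine (card_le_card h4).trans ((card_biUnion_le_card_mul _ _ 1 fun a _ => ?_).trans (by simp))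
      have h5 : |(G i).mulVec (x - x') a| ≤ L - 5 :=
        ((norm_le_pi_norm ((G i).mulVec (x - x')) a).trans_eq' (Real.norm_eq_abs _)).trans hx
      have h6 : |Q * (G i).mulVec x a - Q * (G i).mulVec x' a| + 4 ≤ (s : ℝ) := by
        rw [cx, hs]; push_cast; nlinarith
      obtain ⟨j0, hj0⟩ : ∃ j0 : ℕ → ℕ, ∀ j, j0 j = if j < R then j else 0 := ⟨_, fun _ => rfl⟩
      have j1 : ∀ j, j0 j < R := fun j => by rw [hj0]; split_ifs <;> assumption
      refine le_trans (card_le_card fun j hj => ?_) (sep2 (R := R) s0 h6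
        (fun j => d (j0 j) i x a) (fun j => d (j0 j) i x' a)
        (fun j => (hd _ (j1 j)).1 i hi x a) fun j => (hd _ (j1 j)).1 i hi x' a)
      obtain ⟨j2, j3⟩ := mem_filter.1 hj
      refine mem_filter.2 ⟨j2, ?_⟩
      rw [hj0, if_pos (mem_range.1 j2)]
      rwa [hc, hc] at j3
    obtain ⟨j, hj, hj'⟩ := exists_mem_notMem_of_card_lt_card (t := range R) (s :=
      ((range R).filter fun j => ∃ a, (Q : ℤ) ≤ |d j i x a - z j i (c j i x, t) a|) ∪
      ((range R).filter fun j => ∃ a, (Q : ℤ) ≤ |d j i x' a - z j i (c j i x', t) a|) ∪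
      ((range R).filter fun j => c j i x ≠ c j i x')) (by
        refine lt_of_le_of_lt ((card_union_le _ _).trans
          (add_le_add (card_union_le _ _) h3)) ?_
        rw [card_range]; omega)
    simp only [mem_union, mem_filter, hj, true_and, not_or, not_exists, not_le, not_not] at hj'
    obtain ⟨⟨b1, b2⟩, b3⟩ := hj'
    refine (pi_norm_le_iff_of_nonneg (by norm_num)).2 fun a => ?_
    have c1 := abs_lt.1 (b1 a)
    have c2 := abs_lt.1 (b2 a)
    rw [← b3] at c2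
    have c3 : |d j i x a - d j i x' a| ≤ 2 * Q := by rw [abs_le]; constructor <;> linarith [c1.1]
    have c4 : |(d j i x a : ℝ) - d j i x' a| ≤ 2 * Q := by exact_mod_cast c3
    have c5 := abs_le.1 ((hd j (mem_range.1 hj)).1 i hi x a)
    have c6 := abs_le.1 ((hd j (mem_range.1 hj)).1 i hi x' a)
    have c7 := abs_le.1 c4
    have c8 : Q * |(G i).mulVec (x - x') a| ≤ Q * 6 := by
      rw [← cx, abs_le]; constructor <;> linarith [c5.1, c6.1, c7.1]
    exact le_of_mul_le_mul_left c8 (by linarith)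

theorem nest_pow {G : ℕ → Mat N} {lam : ℕ}
    (h : ∀ i x, lam * ‖(G (i + 1)).mulVec x‖ ≤ ‖(G i).mulVec x‖) (i p : ℕ) (x : V N) :
    (lam : ℝ) ^ p * ‖(G (i + p)).mulVec x‖ ≤ ‖(G i).mulVec x‖ := by
  induction p with
  | zero => simp
  | succ p ih =>
    refine le_trans ?_ ih
    rw [pow_succ, mul_assoc]
    exact mul_le_mul_of_nonneg_left (h (i + p) x) (by positivity)

theorem sTel : STel := by
  intro hNS Ω T N P A A' X τ Q s lam p n G de be l hN hQ hs hl hp hde l0 l1 hpow hG hA hC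
  have L1 : (1 : ℝ) ≤ lam := by exact_mod_cast hl
  have h1 : ∀ i, i + p < n → ∀ x,
      (2 * N * s * Q + 2 : ℝ) * ‖(G (i + p)).mulVec x‖ ≤ ‖(G i).mulVec x‖ := fun i _ x => by
    refine le_trans (mul_le_mul_of_nonneg_right ?_ (norm_nonneg _))
      (nest_pow (fun i => (hG i).2.2) i p x)
    have h2 : 2 * N * s * Q + 2 ≤ lam ^ p := by
      have : 0 < N * s * Q := by positivity
      nlinarith
    exact_mod_cast h2
  have h2 : ∀ i < n, NsAt P A A' X τ Q (2 * N * s) (G i)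
      (4 * be * (2 * (2 * N * s : ℕ) * Q + 1) ^ N / de + 32 / de * (l + N / Q)) (32 / de / l) := by
    intro i _ d c hd hc
    obtain ⟨z, hz⟩ := hNS Ω (Z N × T) N P A A' X Q (2 * N * s) (G i) (fun ω => d (X ω))
      (fun ω => (c (X ω), τ ω)) de be l hQ hde l0 l1 (hG i).2.1
      (fun ω hω => by
        refine le_trans ?_ (hA ω hω)
        have h3 := nest_pow (fun i => (hG i).2.2) 0 i (A' ω - A ω - X ω)
        rw [zero_add] at h3
        rw [norm_smul, norm_smul]
        exact mul_le_mul_of_nonneg_left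
          ((le_mul_of_one_le_left (norm_nonneg _) (one_le_pow₀ L1)).trans h3) (norm_nonneg _))
      (fun ω _ => (pi_norm_le_iff_of_nonneg (by norm_num)).2 fun a => hd (X ω) a)
      (fun ω _ ω' _ e => hc _ _ (congrArg Prod.fst e))
      (hC.comp id fun y => (c y.1, y.2))
    exact ⟨z, hz.trans_eq (by ring)⟩
  obtain ⟨Gd, g1, g2⟩ := tel P A A' X τ G hN hp hQ hs (by positivity) (fun i _ => (hG i).1) h1 h2
  refine ⟨fun i x t => i < n ∧ Gd i x t, le_trans (sum_le_sum fun i hi => ?_) g1,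
    fun i x x' t g g' => g2 i g.1 x x' t g.2 g'.2⟩
  exact pb_mono fun ω _ h g => h ⟨mem_range.1 hi, g⟩

end Pool.Agent.MP_5168f5_an.QA.SD
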