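import Pool.Agent.MP_4b405e_nt.SK.DOne
import Pool.Agent.MP_4b405e_nt.SK.DAdd
import Pool.Agent.MP_4b405e_nt.SK.DCh
import Pool.Agent.MP_4b405e_nt.SK.DNsR
import Pool.Agent.MP_4b405e_nt.SK.DTel
import Pool.Agent.MP_4b405e_nt.SK.DPick
import Pool.Agent.MP_4b405e_nt.SK.DIota

/-! Sparse slopes, block D: assembly. -/

namespace Pool.Agent.MP_5168f5_an.QA.SD

theorem spD : SpD := spD_of rowAdd rowNS sCh sTel sOne sPick

theorem spDι : SpDι := spDι_of spD

end Pool.Agent.MP_5168f5_an.QA.SD
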