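import Pool.Agent.MP_5168f5_an.H17F.Api

/-! Sparse slopes, block D: boxes, cells and almost invariant shifts. -/

namespace Pool.Agent.MP_5168f5_an.QA.SD

open H19 H17S H17F

/-- A box is given by the matrix `G` of its coordinates: the box is `‖G x‖ ≤ 1`. -/
abbrev Mat (N : ℕ) : Type := Matrix (Fin N) (Fin N) ℝ

variable {Ω : Type} {N : ℕ}

/-- The cell of `x` in the grid of the box `G`. -/
noncomputable def cel (G : Mat N) (x : V N) : Z N := flv 0 (G.mulVec x)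

/-- The cell of `x` in the grid of the box `G` refined `Q` times. -/
noncomputable def fcl (Q : ℕ) (G : Mat N) (x : V N) : Z N := flv 0 ((Q : ℝ) • G.mulVec x)

/-- The integer points of the cube `[0, Q]^N`. -/
noncomputable def cuS (N Q : ℕ) : Finset (Z N) := Fintype.piFinset fun _ => Finset.Icc (0 : ℤ) Q

theorem cuS_ne (N Q : ℕ) : (cuS N Q).Nonempty :=
  ⟨0, Fintype.mem_piFinset.2 fun _ => Finset.mem_Icc.2 ⟨le_rfl, Int.natCast_nonneg Q⟩⟩

theorem mem_cuS {Q : ℕ} {k : Z N} : k ∈ cuS N Q ↔ ∀ i, 0 ≤ k i ∧ k i ≤ Q := by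
  simp [cuS, Fintype.mem_piFinset]

/-- The uniform law on the integer points of `[0, Q]^N`. -/
noncomputable def cub (N Q : ℕ) : FP (Z N) := FP.unif (cuS N Q) (cuS_ne N Q)

/-- The smoothed fine cell `Y`. -/
noncomputable def sY (A : Ω → V N) (Q : ℕ) (G : Mat N) (x : Ω × Z N) : Z N :=
  fcl Q G (A x.1) + x.2

/-- The law of `Y` is invariant under the shift by `v` up to `de`. -/
def Inv (P : FP Ω) (A : Ω → V N) (Q : ℕ) (G : Mat N) (v : Z N) (de : ℝ) : Prop :=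
  ∀ L : Set (Z N), pb (prod P (cub N Q)) (fun x => sY A Q G x ∈ L) ≤
    pb (prod P (cub N Q)) (fun x => sY A Q G x + v ∈ L) + de

/-- The annulus `Q ≤ |v| ≤ La Q`. -/
def Ann (Q La : ℕ) (v : Z N) : Prop := (∃ i, (Q : ℤ) ≤ |v i|) ∧ ∀ i, |v i| ≤ (La : ℤ) * Q

/-- No shift in the annulus is almost invariant. -/
def Stop (P : FP Ω) (A : Ω → V N) (Q La : ℕ) (G : Mat N) (de : ℝ) : Prop :=
  ∀ v : Z N, Ann Q La v → ¬Inv P A Q G v de

/-- The cell entropy. -/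
noncomputable def HG (P : FP Ω) (A : Ω → V N) (G : Mat N) : ℝ := hh P fun ω => cel G (A ω)

/-- The long step: the box grows, its log volume by at most `log (M La 2^N)`, and the cell
entropy drops by almost `log M`. -/
def RowAdd : Prop :=
  ∀ (Ω : Type) (N : ℕ) (P : FP Ω) (A : Ω → V N) (Q La M : ℕ) (G : Mat N) (de t : ℝ),
    0 < Q → 0 < M → 0 ≤ de → 0 < t → t ≤ 1 → G.det ≠ 0 → ¬Stop P A Q La G de →
    ∃ G' : Mat N, G'.det ≠ 0 ∧ (∀ x, ‖G'.mulVec x‖ ≤ ‖G.mulVec x‖) ∧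
      (∀ x, ‖G.mulVec x‖ ≤ (M * La + 2) * ‖G'.mulVec x‖) ∧
      |G.det| ≤ M * La * 2 ^ N * |G'.det| ∧
      HG P A G' ≤ HG P A G - (1 - (2 / (t * M) + M * de)) * Real.log (1 / t) + 8 * N

end Pool.Agent.MP_5168f5_an.QA.SD
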