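import Pool.Agent.MP_4b405e_nt.SK.DPin

/-! If no shift from a finite family almost preserves the smoothed law of `a`, then a noise that
can be added to `a` at little cost is concentrated near a centre. -/

namespace Pool.Agent.MP_5168f5_an.QA.DNs

open H19 H17S H17F DPin

variable {Ω γ G : Type} [AddCommGroup G]

theorem ex_le_E (P : FP Ω) (F : Ω → ℝ) : ∃ j ∈ P.S, F j ≤ P.E F := by
  obtain ⟨x, hx⟩ := ex_of_pb (P := P) (E := fun _ => True) (by rw [pb_true]; norm_num)
  obtain ⟨j, hj, hm⟩ := P.S.exists_min_image F ⟨x, hx.1⟩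
  exact ⟨j, hj, (P.E_const (F j)).ge.trans (P.E_mono hm)⟩

/-- Moving the noise from `a` to `a'`. -/
theorem move (P : FP Ω) (a a' d : Ω → G) (sm : G → Prop) {ζ l : ℝ} (l0 : 0 ≤ l) (l1 : l ≤ 1)
    (he : ∀ ω ∈ P.S, sm (a' ω - a ω - d ω)) (F : G → G → ℝ) (hF : ∀ y x, |F y x| ≤ 1)
    (hs : ∀ y x e, sm e → |F (y + e) x - F y x| ≤ ζ) :
    l * ((P.E fun k => P.E fun i => F (a k + d i) (d i)) -
      P.E fun k => P.E fun i => F (a' k) (d i)) ≤
      (hh P a - ch P a d) + (hh P a' - ch P a' d) + 2 * l ^ 2 + l * ζ := by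
  have h1 := pin0 P a d (fun y x => -F (y + x) x) (fun y x => by rw [abs_neg]; exact hF _ _) l0 l1
  have h2 := pin0 P a' d F hF l0 l1
  have h3 : P.E (fun ω => F (a ω + d ω) (d ω)) ≤ P.E fun ω => F (a' ω) (d ω) + ζ := by
    refine P.E_mono fun ω hω => ?_
    have h4 := (abs_le.1 (hs (a ω + d ω) (d ω) _ (he ω hω))).1
    rw [show a ω + d ω + (a' ω - a ω - d ω) = a' ω by abel] at h4
    linarith
  simp only [FP.E_neg, FP.E_add, FP.E_const] at h1 h3
  have h5 := mul_le_mul_of_nonneg_left h3 l0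
  nlinarith

open Classical in
/-- One atom: the differences of two independent copies of `d` almost preserve the law. -/
theorem atom (P : FP Ω) (a a' d : Ω → G) (sm near : G → Prop) {ζ l : ℝ} (l0 : 0 ≤ l) (l1 : l ≤ 1)
    (he : ∀ ω ∈ P.S, sm (a' ω - a ω - d ω)) (T : G → G → ℝ) (hT : ∀ v x, |T v x| ≤ 1)
    (hs : ∀ v x e, sm e → |T v (x + e) - T v x| ≤ ζ) :
    l * (P.E fun j => P.E fun i => if near (d i - d j) then 0 else
      P.E fun k => T (d i - d j) (a k) - T (d i - d j) (a k + (d i - d j))) ≤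
      2 * ((hh P a - ch P a d) + (hh P a' - ch P a' d) + 2 * l ^ 2 + l * ζ) := by
  have z0 : 0 ≤ ζ := by
    obtain ⟨x, hx⟩ := ex_of_pb (P := P) (E := fun _ => True) (by rw [pb_true]; norm_num)
    exact (abs_nonneg _).trans (hs 0 0 _ (he x hx.1))
  obtain ⟨U, hU⟩ : ∃ U : G → G → G → ℝ,
      ∀ x x' y, U x x' y = if near (x - x') then 0 else T (x - x') (y - x') := ⟨_, fun _ _ _ => rfl⟩
  have U1 : ∀ x x' y, |U x x' y| ≤ 1 := fun x x' y => by
    rw [hU]; split_ifs
    · simp
    · exact hT _ _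
  have U2 : ∀ x x' y e, sm e → |U x x' (y + e) - U x x' y| ≤ ζ := fun x x' y e h => by
    rw [hU, hU]; split_ifs
    · simpa using z0
    · rw [show y + e - x' = y - x' + e by abel]; exact hs _ _ _ h
  have h1 := move P a a' d sm l0 l1 he (fun y x => P.E fun i => U (d i) x y)
    (fun y x => E_abs_le P fun i _ => U1 _ _ _)
    (fun y x e h => by rw [← P.E_sub]; exact E_abs_le P fun i _ => U2 _ _ _ _ h)
  have h2 := move P a a' d sm l0 l1 he (fun y x => -P.E fun j => U x (d j) y)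
    (fun y x => by rw [abs_neg]; exact E_abs_le P fun i _ => U1 _ _ _)
    (fun y x e h => by
      rw [neg_sub_neg, abs_sub_comm, ← P.E_sub]; exact E_abs_le P fun i _ => U2 _ _ _ _ h)
  simp only [FP.E_neg] at h2
  have e1 : (P.E fun k => P.E fun i => P.E fun j => U (d i) (d j) (a' k)) =
      P.E fun k => P.E fun j => P.E fun i => U (d i) (d j) (a' k) :=
    P.E_congr fun k _ => P.E_comm _
  have e2 : (P.E fun k => P.E fun i => P.E fun j => U (d i) (d j) (a k + d i)) =
      P.E fun k => P.E fun j => P.E fun i => U (d i) (d j) (a k + d i) :=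
    P.E_congr fun k _ => P.E_comm _
  have e3 : (P.E fun j => P.E fun i => if near (d i - d j) then 0 else
      P.E fun k => T (d i - d j) (a k) - T (d i - d j) (a k + (d i - d j))) =
      (P.E fun k => P.E fun j => P.E fun i => U (d i) (d j) (a k + d j)) -
        P.E fun k => P.E fun j => P.E fun i => U (d i) (d j) (a k + d i) := by
    rw [← P.E_sub]
    simp only [← FP.E_sub]
    rw [P.E_comm fun k j => P.E fun i => U (d i) (d j) (a k + d j) - U (d i) (d j) (a k + d i)]
    refine P.E_congr fun j _ => ?_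
    rw [P.E_comm fun k i => U (d i) (d j) (a k + d j) - U (d i) (d j) (a k + d i)]
    refine P.E_congr fun i _ => ?_
    simp only [hU]
    split_ifs
    · simp [FP.E_const]
    · refine P.E_congr fun k _ => ?_
      rw [add_sub_cancel_right, add_sub_assoc]
  rw [e3]
  rw [e1, e2] at h2
  nlinarith

open Classical in
/-- Worlds in which a fixed test function of `a` has a small mean are rare. -/
theorem rare (P : FP Ω) (w : Ω → γ) (f : Ω → ℝ) {δ β : ℝ} (hf : δ ≤ P.E f)
    (hc : ∀ S : γ → Prop, pb P (fun ω => S (w ω)) * P.E f ≤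
      P.E (fun ω => if S (w ω) then f ω else 0) + β) :
    δ * pb P (fun ω => (cv P w (w ω)).E f < δ / 2) ≤ 2 * β := by
  have h1 := hc fun s => (cv P w s).E f < δ / 2
  have h2 : P.E (fun ω => if (cv P w (w ω)).E f < δ / 2 then f ω else 0) ≤
      δ / 2 * pb P fun ω => (cv P w (w ω)).E f < δ / 2 := by
    rw [KEA.exp P w fun s ω => if (cv P w s).E f < δ / 2 then f ω else 0, pb, ← P.E_mul]
    refine P.E_mono fun ω _ => ?_
    by_cases h : (cv P w (w ω)).E f < δ / 2
    · simp only [h, if_true, mul_one]; exact h.le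
    · simp only [h, if_false, mul_zero, FP.E_const]; exact le_rfl
  have h3 := mul_le_mul_of_nonneg_left hf
    (pb_nonneg P fun ω => (cv P w (w ω)).E f < δ / 2)
  have h4 : P.E (fun ω => @ite ℝ ((cv P w (w ω)).E f < δ / 2) (propDecidable _) (f ω) 0) =
      P.E (fun ω => if (cv P w (w ω)).E f < δ / 2 then f ω else 0) :=
    P.E_congr fun ω _ => by congr
  linarith

open Classical in
/-- No branching at a stop. -/
theorem ns (P : FP Ω) (a a' d : Ω → G) (w : Ω → γ) (sm near : G → Prop) (V : Finset G)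
    (T : G → G → ℝ) {ζ l δ β : ℝ} (l0 : 0 ≤ l) (l1 : l ≤ 1) (δ0 : 0 ≤ δ)
    (he : ∀ ω ∈ P.S, sm (a' ω - a ω - d ω))
    (hT : ∀ v x, 0 ≤ T v x ∧ T v x ≤ 1)
    (hs : ∀ v x e, sm e → |T v (x + e) - T v x| ≤ ζ)
    (hV : ∀ i ∈ P.S, ∀ j ∈ P.S, w i = w j → ¬near (d i - d j) → d i - d j ∈ V)
    (hstop : ∀ v ∈ V, δ ≤ P.E fun ω => T v (a ω) - T v (a ω + v))
    (hcut : ∀ f : G → ℝ, (∀ x, |f x| ≤ 1) → ∀ S : γ → Prop,
      pb P (fun ω => S (w ω)) * P.E (fun ω => f (a ω)) ≤
        P.E (fun ω => if S (w ω) then f (a ω) else 0) + β) :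
    ∃ c : γ → G, δ * l * pb P (fun ω => ¬near (d ω - c (w ω))) ≤
      2 * l * β * V.card + 4 * (mi P a d w + mi P a' d w) + 8 * l ^ 2 + 4 * l * ζ := by
  have hc : ∀ s : γ, ∃ j ∈ (cv P w s).S, pb (cv P w s) (fun i => ¬near (d i - d j)) ≤
      (cv P w s).E fun j => pb (cv P w s) fun i => ¬near (d i - d j) := fun s =>
    ex_le_E (cv P w s) fun j => pb (cv P w s) fun i => ¬near (d i - d j)
  choose j _ hj using hc
  refine ⟨fun s => d (j s), ?_⟩
  obtain ⟨f, hf⟩ : ∃ f : G → Ω → ℝ, ∀ v ω, f v ω = T v (a ω) - T v (a ω + v) :=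
    ⟨_, fun _ _ => rfl⟩
  have T1 : ∀ v x, |T v x| ≤ 1 := fun v x => abs_le.2 ⟨by linarith [(hT v x).1], (hT v x).2⟩
  have hr : ∀ v ∈ V, δ * pb P (fun ω => (cv P w (w ω)).E (f v) < δ / 2) ≤ 2 * β := by
    intro v hv
    have e : f v = fun ω => T v (a ω) - T v (a ω + v) := funext (hf v)
    refine rare P w (f v) (by rw [e]; exact hstop v hv) fun S => ?_
    rw [e]
    exact hcut (fun x => T v x - T v (x + v)) (fun x => abs_le.2
      ⟨by linarith [(hT v x).1, (hT v (x + v)).2], by linarith [(hT v x).2, (hT v (x + v)).1]⟩) S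
  have e0 : pb P (fun ω => ¬near (d ω - d (j (w ω)))) =
      P.E fun ω => pb (cv P w (w ω)) fun i => ¬near (d i - d (j (w ω))) :=
    KEA.exp P w fun s ω => @ite ℝ (¬near (d ω - d (j s))) (propDecidable _) 1 0
  have key : ∀ ω ∈ P.S, δ * l * pb (cv P w (w ω)) (fun i => ¬near (d i - d (j (w ω)))) ≤
      l * δ * (∑ v ∈ V, if (cv P w (w ω)).E (f v) < δ / 2 then 1 else 0) +
      (4 * ((hh (cv P w (w ω)) a - ch (cv P w (w ω)) a d) +
        (hh (cv P w (w ω)) a' - ch (cv P w (w ω)) a' d)) + (8 * l ^ 2 + 4 * l * ζ)) := by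
    intro ω hω
    obtain ⟨Q, hQ⟩ : ∃ Q, Q = cv P w (w ω) := ⟨_, rfl⟩
    have hm : ∀ i ∈ Q.S, i ∈ P.S ∧ w i = w ω := fun i hi =>
      (mem_cE (E := fun b => w b = w ω) ⟨ω, hω, rfl⟩ i).1 (by rw [hQ] at hi; exact hi)
    have h1 := atom Q a a' d sm near l0 l1 (fun i hi => he i (hm i hi).1) T T1 hs
    have h0 : 0 ≤ l * (Q.E fun j => Q.E fun i => if near (d i - d j) then 0 else
      Q.E fun k => T (d i - d j) (a k) - T (d i - d j) (a k + (d i - d j))) →
        0 ≤ 2 * ((hh Q a - ch Q a d) + (hh Q a' - ch Q a' d) + 2 * l ^ 2 + l * ζ) :=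
      fun h => h.trans h1
    have h2 := hj (w ω)
    rw [← hQ] at h2 ⊢
    have dl : 0 ≤ δ * l := mul_nonneg δ0 l0
    by_cases hb : ∃ v ∈ V, Q.E (f v) < δ / 2
    · obtain ⟨v, hv, hb⟩ := hb
      have h3 : (1 : ℝ) ≤ ∑ v ∈ V, if Q.E (f v) < δ / 2 then 1 else 0 := by
        have := Finset.single_le_sum (f := fun v => if Q.E (f v) < δ / 2 then (1 : ℝ) else 0)
          (fun _ _ => by split_ifs <;> norm_num) hv
        simpa only [hb, if_true] using this
      have z0 : 0 ≤ ζ := (abs_nonneg _).trans (hs 0 0 _ (he ω hω))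
      have m1 : 0 ≤ hh Q a - ch Q a d := by
        have := ch_anti (P := Q) (F := a) (G := fun _ => ()) (G' := d) fun _ _ _ _ _ => rfl
        rw [ch_unit] at this; linarith
      have m2 : 0 ≤ hh Q a' - ch Q a' d := by
        have := ch_anti (P := Q) (F := a') (G := fun _ => ()) (G' := d) fun _ _ _ _ _ => rfl
        rw [ch_unit] at this; linarith
      have h4 := mul_le_mul_of_nonneg_left
        (pb_le_one Q fun i => ¬near (d i - d (j (w ω)))) dl
      have h5 := mul_le_mul_of_nonneg_left h3 dl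
      have h6 := mul_nonneg l0 z0
      nlinarith [sq_nonneg l]
    · push Not at hb
      have h3 : (0 : ℝ) ≤ ∑ v ∈ V, if Q.E (f v) < δ / 2 then 1 else 0 :=
        Finset.sum_nonneg fun _ _ => by split_ifs <;> norm_num
      have h4 : δ / 2 * (Q.E fun j => pb Q fun i => ¬near (d i - d j)) ≤
          Q.E fun j => Q.E fun i => if near (d i - d j) then 0 else
            Q.E fun k => T (d i - d j) (a k) - T (d i - d j) (a k + (d i - d j)) := by
        rw [← Q.E_mul]
        refine Q.E_mono fun y hy => ?_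
        rw [pb, ← Q.E_mul]
        refine Q.E_mono fun i hi => ?_
        by_cases h : near (d i - d y)
        · simp [h]
        · simp only [h, not_false_eq_true, if_true, if_false, mul_one]
          have h5 := hb _ (hV i (hm i hi).1 y (hm y hy).1 ((hm i hi).2.trans (hm y hy).2.symm) h)
          rwa [show f (d i - d y) = _ from funext (hf _)] at h5
      have h5 := mul_le_mul_of_nonneg_left h4 l0
      have h6 := mul_le_mul_of_nonneg_left h2 dl
      have h7 := mul_nonneg dl h3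
      nlinarith
  have h8 := P.E_mono key
  rw [P.E_mul, ← e0] at h8
  simp only [FP.E_add, FP.E_mul, FP.E_const, FP.E_sum] at h8
  rw [← mi_cv, ← mi_cv] at h8
  have h9 : δ * ∑ v ∈ V, P.E (fun ω => if (cv P w (w ω)).E (f v) < δ / 2 then (1 : ℝ) else 0) ≤
      V.card * (2 * β) := by
    rw [Finset.mul_sum, ← nsmul_eq_mul]
    refine Finset.sum_le_card_nsmul _ _ _ fun v hv => le_trans (le_of_eq ?_) (hr v hv)
    unfold pb
    congr
  have h10 := mul_le_mul_of_nonneg_left h9 l0
  nlinarith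

end Pool.Agent.MP_5168f5_an.QA.DNs
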