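import Pool.Agent.MP_4b405e_nt.SK.DNs
import Pool.Agent.MP_4b405e_nt.SK.DDefs
import Pool.Agent.MP_4b405e_nt.SK.DLab

/-! Sparse slopes, block D: no branching at a stop, for boxes. -/

namespace Pool.Agent.MP_5168f5_an.QA.SD

open H19 H17S H17F

variable {Ω γ : Type} {N : ℕ}

open Classical in
theorem pb_cub (Q : ℕ) (E : Z N → Prop) :
    pb (cub N Q) E = (((cuS N Q).filter E).card : ℝ) / (cuS N Q).card := by
  rw [pb_eq]
  simp only [cub, FP.unif, Finset.sum_const, nsmul_eq_mul]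
  ring

open Classical in
theorem pb_coord (Q : ℕ) (i : Fin N) (B : ℤ → Prop) :
    pb (cub N Q) (fun k => B (k i)) = (((Finset.Icc (0 : ℤ) Q).filter B).card : ℝ) / (Q + 1) := by
  have e1 : (cuS N Q).filter (fun k => B (k i)) = Fintype.piFinset
      (Function.update (fun _ => Finset.Icc (0 : ℤ) Q) i ((Finset.Icc (0 : ℤ) Q).filter B)) := by
    ext k
    simp only [cuS, Finset.mem_filter, Fintype.mem_piFinset]
    constructor
    · rintro ⟨h1, h2⟩ j
      by_cases hj : j = i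
      · subst hj; rw [Function.update_self]; exact Finset.mem_filter.2 ⟨h1 _, h2⟩
      · rw [Function.update_of_ne hj]; exact h1 j
    · intro h
      have h2 := h i
      rw [Function.update_self, Finset.mem_filter] at h2
      refine ⟨fun j => ?_, h2.2⟩
      by_cases hj : j = i
      · subst hj; exact h2.1
      · have h3 := h j
        rwa [Function.update_of_ne hj] at h3
  have e2 : (Finset.Icc (0 : ℤ) Q).card = Q + 1 := by simp
  have e3 : ((cuS N Q).filter fun k => B (k i)).card =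
      ((Finset.Icc (0 : ℤ) Q).filter B).card * (Q + 1) ^ (Finset.univ.erase i).card := by
    rw [e1, Fintype.card_piFinset, ← Finset.mul_prod_erase _ _ (Finset.mem_univ i),
      Function.update_self, ← e2, ← Finset.prod_const]
    congr 1
    exact Finset.prod_congr rfl fun j hj => by
      rw [Function.update_of_ne (Finset.ne_of_mem_erase hj)]
  have e4 : (cuS N Q).card = (Q + 1) * (Q + 1) ^ (Finset.univ.erase i).card := by
    rw [cuS, Fintype.card_piFinset, ← Finset.mul_prod_erase _ _ (Finset.mem_univ i), e2,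
      Finset.prod_const]
  rw [pb_cub]
  have e5 : ((cuS N Q).filter fun k => B (k i)).card =
      (@Finset.filter _ (fun k : Z N => B (k i)) (fun _ => propDecidable _) (cuS N Q)).card := by
    congr
  rw [← e5, e3, e4]
  push_cast
  field_simp

/-- The cube leaves itself under a short shift with small probability. -/
theorem pb_out (Q E0 : ℕ) (e : Z N) (he : ∀ i, |e i| ≤ E0) :
    pb (cub N Q) (fun k => k + e ∉ cuS N Q) ≤ 2 * N * E0 / (Q + 1) := by
  classical
  have h1 : ∀ i, pb (cub N Q) (fun k => ¬(0 ≤ k i + e i ∧ k i + e i ≤ Q)) ≤ 2 * E0 / (Q + 1) := by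
    intro i
    rw [pb_coord Q i fun t => ¬(0 ≤ t + e i ∧ t + e i ≤ Q)]
    refine div_le_div_of_nonneg_right ?_ (by positivity)
    have h2 := abs_le.1 (he i)
    have h3 : ((Finset.Ico (0 : ℤ) E0) ∪ Finset.Ioc ((Q : ℤ) - E0) Q).card ≤ 2 * E0 :=
      (Finset.card_union_le _ _).trans (by simp; omega)
    refine le_trans ?_ (by exact_mod_cast h3 :
      (((Finset.Ico (0 : ℤ) E0) ∪ Finset.Ioc ((Q : ℤ) - E0) Q).card : ℝ) ≤ 2 * E0)
    refine Nat.cast_le.2 (Finset.card_le_card fun t ht => ?_)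
    simp only [Finset.mem_filter, Finset.mem_Icc, Finset.mem_union, Finset.mem_Ico,
      Finset.mem_Ioc] at ht ⊢
    omega
  have h4 : pb (cub N Q) (fun k => k + e ∉ cuS N Q) ≤
      ∑ i, pb (cub N Q) fun k => ¬(0 ≤ k i + e i ∧ k i + e i ≤ Q) := by
    unfold pb
    rw [← FP.E_sum]
    refine FP.E_mono _ fun k _ => ?_
    by_cases h : k + e ∈ cuS N Q
    · rw [if_neg (not_not.2 h)]
      exact Finset.sum_nonneg fun _ _ => by split_ifs <;> norm_num
    · rw [if_pos h]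
      rw [mem_cuS, not_forall] at h
      obtain ⟨i, hi⟩ := h
      refine le_trans (le_of_eq ?_) (Finset.single_le_sum
        (fun _ _ => by split_ifs <;> norm_num) (Finset.mem_univ i))
      exact (if_pos hi).symm
  refine h4.trans ((Finset.sum_le_card_nsmul _ _ _ fun i _ => h1 i).trans (le_of_eq ?_))
  simp only [Finset.card_univ, Fintype.card_fin, nsmul_eq_mul]
  ring

theorem shift1 (Q E0 : ℕ) (e : Z N) (he : ∀ i, |e i| ≤ E0) (L : Set (Z N)) (x : Z N) :
    pb (cub N Q) (fun k => x + e + k ∈ L) ≤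
      pb (cub N Q) (fun k => x + k ∈ L) + 2 * N * E0 / (Q + 1) := by
  classical
  have h1 : pb (cub N Q) (fun k => x + e + k ∈ L ∧ k + e ∈ cuS N Q) ≤
      pb (cub N Q) fun k => x + k ∈ L := by
    rw [pb_cub, pb_cub]
    refine div_le_div_of_nonneg_right (Nat.cast_le.2 ?_) (Nat.cast_nonneg _)
    refine Finset.card_le_card_of_injOn (fun k => k + e) (fun k hk => ?_)
      fun _ _ _ _ h => add_right_cancel h
    simp only [Finset.coe_filter, Set.mem_ofPred_eq] at hk ⊢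
    exact ⟨hk.2.2, by rw [show x + (k + e) = x + e + k by abel]; exact hk.2.1⟩
  rw [pb_split (cub N Q) _ fun k => k + e ∈ cuS N Q]
  exact add_le_add h1 ((pb_mono fun _ _ h => h.2).trans (pb_out Q E0 e he))

/-- The shift lemma for the uniform law on the cube. -/
theorem shift (Q E0 : ℕ) (e : Z N) (he : ∀ i, |e i| ≤ E0) (L : Set (Z N)) (x : Z N) :
    |pb (cub N Q) (fun k => x + e + k ∈ L) - pb (cub N Q) fun k => x + k ∈ L| ≤
      2 * N * E0 / (Q + 1) := by
  have h1 := shift1 Q E0 e he L x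
  have h2 := shift1 Q E0 (-e) (fun i => by rw [Pi.neg_apply, abs_neg]; exact he i) L (x + e)
  rw [add_neg_cancel_right] at h2
  rw [abs_le]; constructor <;> linarith

theorem pb_prod {Ω' : Type} (P : FP Ω) (R : FP Ω') (E : Ω × Ω' → Prop) :
    pb (prod P R) E = P.E fun ω => pb R fun k => E (ω, k) := E_bind _ _ _

open Classical in
/-- No branching at a stop. -/
theorem nsB (P : FP Ω) (A A' : Ω → V N) (d : Ω → Z N) (w : Ω → γ) (Q La E0 : ℕ) (G : Mat N)
    {de l β : ℝ} (l0 : 0 ≤ l) (l1 : l ≤ 1) (de0 : 0 ≤ de) (β0 : 0 ≤ β)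
    (hstop : Stop P A Q La G de)
    (he : ∀ ω ∈ P.S, ∀ i, |fcl Q G (A' ω) i - fcl Q G (A ω) i - d ω i| ≤ E0)
    (hw : ∀ a ∈ P.S, ∀ b ∈ P.S, w a = w b → ∀ i, |d a i - d b i| ≤ (La : ℤ) * Q)
    (hcut : ∀ f : V N → ℝ, (∀ x, |f x| ≤ 1) → ∀ S : γ → Prop,
      pb P (fun ω => S (w ω)) * P.E (fun ω => f (A ω)) ≤
        P.E (fun ω => if S (w ω) then f (A ω) else 0) + β) :
    ∃ c : γ → Z N, de * l * pb P (fun ω => ∃ i, (Q : ℤ) ≤ |d ω i - c (w ω) i|) ≤
      2 * l * β * (2 * La * Q + 1) ^ N + 4 * (mi P A d w + mi P A' d w) + 8 * l ^ 2 +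
        4 * l * (2 * N * E0 / (Q + 1)) := by
  have hL : ∀ v : Z N, ∃ L : Set (Z N), Ann Q La v →
      pb (prod P (cub N Q)) (fun x => sY A Q G x + v ∈ L) + de <
        pb (prod P (cub N Q)) fun x => sY A Q G x ∈ L := by
    intro v
    by_cases hv : Ann Q La v
    · have h := hstop v hv
      unfold Inv at h
      push Not at h
      exact h.imp fun L hL _ => hL
    · exact ⟨∅, fun h => absurd h hv⟩
  choose L hL using hL
  obtain ⟨B, hB⟩ : ∃ B : Finset (Z N),
      B = Fintype.piFinset fun _ => Finset.Icc (-((La : ℤ) * Q)) (La * Q) := ⟨_, rfl⟩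
  have hc : ((B.filter (Ann Q La)).card : ℝ) ≤ (2 * La * Q + 1) ^ N := by
    have h1 : (Finset.Icc (-((La : ℤ) * Q)) (La * Q)).card = 2 * La * Q + 1 := by
      rw [Int.card_Icc]
      have : (La : ℤ) * Q + 1 - -((La : ℤ) * Q) = ((2 * La * Q + 1 : ℕ) : ℤ) := by push_cast; ring
      rw [this, Int.toNat_natCast]
    have h2 : B.card = (2 * La * Q + 1) ^ N := by
      rw [hB, Fintype.card_piFinset, h1, Finset.prod_const, Finset.card_univ, Fintype.card_fin]
    have h3 := (Finset.card_filter_le B (Ann Q La)).trans h2.le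
    exact_mod_cast h3
  obtain ⟨c, h⟩ := DNs.ns P (fun ω => fcl Q G (A ω)) (fun ω => fcl Q G (A' ω)) d w
    (fun e => ∀ i, |e i| ≤ E0) (fun v => ¬∃ i, (Q : ℤ) ≤ |v i|) (B.filter (Ann Q La))
    (fun v x => pb (cub N Q) fun k => x + k ∈ L v) (ζ := 2 * N * E0 / (Q + 1)) (β := β)
    l0 l1 de0 he (fun v x => ⟨pb_nonneg _ _, pb_le_one _ _⟩)
    (fun v x e h => shift Q E0 e h (L v) x)
    (fun a ha b hb e h => Finset.mem_filter.2 ⟨by
      rw [hB, Fintype.mem_piFinset]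
      exact fun i => Finset.mem_Icc.2 (abs_le.1 (hw a ha b hb e i)),
      not_not.1 h, hw a ha b hb e⟩)
    (fun v hv => by
      have h1 := hL v (Finset.mem_filter.1 hv).2
      rw [pb_prod, pb_prod] at h1
      rw [P.E_sub]
      have e1 : (P.E fun ω => pb (cub N Q) fun k => sY A Q G (ω, k) + v ∈ L v) =
          P.E fun ω => pb (cub N Q) fun k => fcl Q G (A ω) + v + k ∈ L v :=
        P.E_congr fun ω _ => pb_congr fun k _ => by
          rw [sY, add_right_comm]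
      rw [e1] at h1
      exact le_sub_iff_add_le'.2 h1.le)
    (fun f hf S => hcut (fun x => f (fcl Q G x)) (fun _ => hf _) S)
  refine ⟨c, ?_⟩
  have e2 : pb P (fun ω => ∃ i, (Q : ℤ) ≤ |d ω i - c (w ω) i|) =
      pb P fun ω => ¬¬∃ i, (Q : ℤ) ≤ |(d ω - c (w ω)) i| := pb_congr fun ω _ => not_not.symm
  have m1 : mi P (fun ω => fcl Q G (A ω)) d w ≤ mi P A d w :=
    mi_mono' fun a _ b _ e => congrArg (fcl Q G) (congrArg Prod.fst e)
  have m2 : mi P (fun ω => fcl Q G (A' ω)) d w ≤ mi P A' d w :=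
    mi_mono' fun a _ b _ e => congrArg (fcl Q G) (congrArg Prod.fst e)
  have h5 := mul_le_mul_of_nonneg_left hc (by positivity : 0 ≤ 2 * l * β)
  rw [e2]
  linarith

theorem fcl_err (Q : ℕ) (G : Mat N) (a a' x : V N) (d : Z N)
    (h1 : ‖(Q : ℝ) • G.mulVec (a' - a - x)‖ ≤ 1) (h2 : ‖cz d - (Q : ℝ) • G.mulVec x‖ ≤ 2)
    (i : Fin N) : |fcl Q G a' i - fcl Q G a i - d i| ≤ (4 : ℕ) := by
  have k1 := abs_le.1 ((norm_le_pi_norm _ i).trans h1)
  have k2 := abs_le.1 ((norm_le_pi_norm _ i).trans h2)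
  simp only [Matrix.mulVec_sub, Pi.smul_apply, Pi.sub_apply, smul_eq_mul, cz, mul_sub] at k1 k2
  have k3 := Int.floor_le ((Q : ℝ) * G.mulVec a i)
  have k4 := Int.lt_floor_add_one ((Q : ℝ) * G.mulVec a i)
  have k5 := Int.floor_le ((Q : ℝ) * G.mulVec a' i)
  have k6 := Int.lt_floor_add_one ((Q : ℝ) * G.mulVec a' i)
  simp only [fcl, flv, fl1, pow_zero, one_mul, Pi.smul_apply, smul_eq_mul]
  have k7 : |((⌊(Q : ℝ) * G.mulVec a' i⌋ - ⌊(Q : ℝ) * G.mulVec a i⌋ - d i : ℤ) : ℝ)| ≤ 4 := by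
    push_cast
    rw [abs_le]; constructor <;> linarith [k1.1, k1.2, k2.1, k2.2]
  exact_mod_cast k7

/-- No branching at a stop, with real errors and the cut hypothesis for the world `w`. -/
theorem nsC (P : FP Ω) (A A' X : Ω → V N) (d : Ω → Z N) (w : Ω → γ) (Q La : ℕ) (G : Mat N)
    {de l β : ℝ} (l0 : 0 ≤ l) (l1 : l ≤ 1) (de0 : 0 ≤ de) (hstop : Stop P A Q La G de)
    (h1 : ∀ ω ∈ P.S, ‖(Q : ℝ) • G.mulVec (A' ω - A ω - X ω)‖ ≤ 1)
    (h2 : ∀ ω ∈ P.S, ‖cz (d ω) - (Q : ℝ) • G.mulVec (X ω)‖ ≤ 2)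
    (hw : ∀ a ∈ P.S, ∀ b ∈ P.S, w a = w b → ∀ i, |d a i - d b i| ≤ (La : ℤ) * Q)
    (hcut : DLab.Cut P A w β) :
    ∃ c : γ → Z N, de * l * pb P (fun ω => ∃ i, (Q : ℤ) ≤ |d ω i - c (w ω) i|) ≤
      2 * l * β * (2 * La * Q + 1) ^ N + 4 * (mi P A d w + mi P A' d w) + 8 * l ^ 2 +
        32 * l * N / (Q + 1) := by
  obtain ⟨c, h⟩ := nsB P A A' d w Q La 4 G l0 l1 de0 hcut.nonneg hstop
    (fun ω hω => fcl_err Q G _ _ _ _ (h1 ω hω) (h2 ω hω)) hw fun f hf S => by
      have := (abs_le.1 (hcut.ev f hf S)).1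
      linarith
  refine ⟨c, h.trans (le_of_eq ?_)⟩
  push_cast
  ring

end Pool.Agent.MP_5168f5_an.QA.SD
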