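import Pool.Agent.MP_4b405e_nt.SK.SpD

/-! Sparse slopes, block D: the constants for one law. -/

namespace Pool.Agent.MP_5168f5_an.QA.SD

open H19 H17S H17F Real
open DLab (Cut)

theorem long_step (N La : ℕ) {κ : ℝ} (hκ : 0 < κ) (hL : 0 < La) :
    ∃ (M : ℕ) (t de ρ : ℝ), 2 ≤ M ∧ 0 < de ∧ 0 < t ∧ t ≤ 1 ∧ 0 < ρ ∧
      ρ ≤ (1 - (2 / (t * M) + M * de)) * log (1 / t) - 8 * N ∧
      log ((M : ℝ) * La * 2 ^ N) ≤ (1 + κ) * ρ := by
  obtain ⟨θ, hθ⟩ : ∃ θ : ℝ, θ = κ / (2 * (1 + κ)) := ⟨_, rfl⟩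
  have θ0 : 0 < θ := by rw [hθ]; positivity
  have θ1 : θ ≤ 1 / 2 := by
    rw [hθ, div_le_div_iff₀ (by positivity) (by norm_num)]; linarith
  have e1 : (1 + κ) * (1 - θ) = 1 + κ / 2 := by rw [hθ]; field_simp; ring
  have a8 : 8 ≤ 4 / θ := by rw [le_div_iff₀ θ0]; linarith
  obtain ⟨D, hD⟩ : ∃ D : ℝ,
      D = (1 + κ / 2) * log (4 / θ) + 8 * N * (1 + κ) + log ((La : ℝ) * 2 ^ N) := ⟨_, rfl⟩
  obtain ⟨M, hM⟩ := exists_nat_ge (max (4 / θ) (exp (2 * D / κ)))
  have m1 : 4 / θ ≤ M := (le_max_left _ _).trans hM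
  have m0 : (0 : ℝ) < M := by linarith
  have m2 : 2 * D / κ ≤ log M := (le_log_iff_exp_le m0).2 ((le_max_right _ _).trans hM)
  have m3 : D ≤ κ / 2 * log M := by rw [div_le_iff₀ hκ] at m2; linarith
  have l1 : (1 : ℝ) ≤ (La : ℝ) * 2 ^ N :=
    one_le_mul_of_one_le_of_one_le (by exact_mod_cast hL) (one_le_pow₀ one_le_two)
  have e2 : log ((M : ℝ) * La * 2 ^ N) = log M + log ((La : ℝ) * 2 ^ N) := by
    rw [mul_assoc, log_mul m0.ne' (by linarith)]
  have k : log ((M : ℝ) * La * 2 ^ N) ≤ (1 + κ) * ((1 - θ) * (log M - log (4 / θ)) - 8 * N) := by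
    rw [mul_sub, ← mul_assoc, e1, e2]; nlinarith
  have p0 : 0 < log ((M : ℝ) * La * 2 ^ N) := by
    rw [e2]; exact add_pos_of_pos_of_nonneg (log_pos (by linarith)) (log_nonneg l1)
  refine ⟨M, 4 / θ / M, θ / (2 * M), (1 - θ) * (log M - log (4 / θ)) - 8 * N,
    by exact_mod_cast (by linarith : (2 : ℝ) ≤ M), by positivity, by positivity,
    (div_le_one m0).2 m1, (mul_pos_iff_of_pos_left (by linarith)).1 (p0.trans_le k), le_of_eq ?_, k⟩
  rw [one_div_div, log_div m0.ne' (by positivity)]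
  congr 2
  field_simp
  ring

variable {N : ℕ}

theorem det_bd {G : Mat N} {a : ℝ} (h : ∀ x, ‖G.mulVec x‖ ≤ a * ‖x‖) :
    |G.det| ≤ N.factorial * a ^ N := by
  have := Matrix.det_le (A := G) (abv := AbsoluteValue.abs) (x := a) fun i j => by
    have h1 := (norm_le_pi_norm (G.mulVec (Pi.single j 1)) i).trans (h _)
    rw [Pi.norm_single, norm_one, mul_one, Matrix.mulVec_single_one] at h1
    exact h1
  simpa using this

/-- The rescaled box as a linear map. -/
noncomputable def bxM (r : ℝ) (G : Mat N) : V N →L[ℝ] V N :=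
  r⁻¹ • LinearMap.toContinuousLinearMap G.mulVecLin

theorem norm_bxM {r : ℝ} (hr : 0 < r) (G : Mat N) (x : V N) :
    ‖bxM r G x‖ = r⁻¹ * ‖G.mulVec x‖ := by
  have : bxM r G x = r⁻¹ • G.mulVec x := rfl
  rw [this, norm_smul, norm_inv, Real.norm_of_nonneg hr.le]

theorem start (u Q : ℕ) (x : V N) :
    (((2 : ℝ) ^ u / Q) • (1 : Mat N)).mulVec x = ((2 : ℝ) ^ u / Q) • x := by
  rw [Matrix.smul_mulVec, Matrix.one_mulVec]

theorem start_H {Ω : Type} (P : FP Ω) (A : Ω → V N) (u Q : ℕ) :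
    HG P A (((2 : ℝ) ^ u / Q) • (1 : Mat N)) ≤ hh P fun ω => flv u (A ω) := by
  refine hh_mono fun a _ b _ e => funext fun i => ?_
  have k : ∀ x : V N, cel (((2 : ℝ) ^ u / Q) • (1 : Mat N)) x i = flv u x i / Q := fun x => by
    unfold cel flv fl1
    rw [start, ← Int.floor_div_natCast]
    congr 1
    simp only [pow_zero, one_mul, Pi.smul_apply, smul_eq_mul]
    ring
  rw [k, k, e]

theorem budget {n u V de l Q p b c q I N : ℝ} (hn : c * u ≤ b * n) (V0 : 0 < V) (d0 : 0 < de)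
    (l0 : 0 < l) (hl : l ≤ q * de / 512) (Q0 : 0 < Q) (hQ : 512 * N / (q * de) ≤ Q) (p0 : 0 < p)
    (b0 : 0 < b) (q0 : 0 < q) (n0 : 0 ≤ n) (hI : I ≤ q * c * de * l / (512 * b * p) * u) :
    4 * (n * (4 * (q * de / (64 * V)) * V / de + 32 / de * (l + N / Q)) + 32 / de / l * p * I) ≤
      q * n := by
  have e1 : 4 * (q * de / (64 * V)) * V / de = q / 16 := by field_simp; ring
  have e2 : N / Q ≤ q * de / 512 := by
    rw [div_le_iff₀ (by positivity)] at hQ
    rw [div_le_iff₀ Q0]; linarith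
  have e3 : 32 / de * (l + N / Q) ≤ q / 8 := by
    calc _ ≤ 32 / de * (q * de / 512 + q * de / 512) := by gcongr
      _ = q / 8 := by field_simp; ring
  have e4 : 32 / de / l * p * I ≤ q * n / 16 := by
    calc _ ≤ 32 / de / l * p * (q * c * de * l / (512 * b * p) * u) := by gcongr
      _ = q / (16 * b) * (c * u) := by field_simp; ring
      _ ≤ q / (16 * b) * (b * n) := by gcongr
      _ = q * n / 16 := by field_simp
  rw [e1]
  nlinarith [mul_le_mul_of_nonneg_left e3 n0]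

theorem sOne : SOne := by
  intro hC hT N κ hN hκ
  have N1 : (1 : ℝ) ≤ N := by exact_mod_cast hN
  have lg0 := lg_pos
  have lg1 := lg_lt_one
  obtain ⟨c, hc⟩ : ∃ c : ℝ, c = κ * lg / (24 * N) := ⟨_, rfl⟩
  have c0 : 0 < c := by rw [hc]; positivity
  have cN : 24 * N * c = κ * lg := by rw [hc]; field_simp
  refine ⟨c, N + 3, c0, by linarith, fun b q hb hq => ?_⟩
  obtain ⟨r, hr⟩ := exists_nat_ge (6 * exp b)
  have eb : 1 ≤ exp b := one_le_exp (by linarith)
  have r1 : (1 : ℝ) ≤ r := by linarith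
  have r0 : (0 : ℝ) < r := by linarith
  obtain ⟨La, hLa⟩ : ∃ La : ℕ, La = 2 * N * (r + 5) := ⟨_, rfl⟩
  have L0 : 0 < La := by rw [hLa]; positivity
  obtain ⟨M, t, de, ρ, M2, d0, t0, t1, ρ0, hρ, hM⟩ :=
    long_step N La (κ := κ / (4 * N)) (by positivity) L0
  obtain ⟨Q, hQ⟩ := exists_nat_gt (512 * N / (q * de))
  have Q0 : (0 : ℝ) < Q := lt_trans (by positivity) hQ
  have Q1 : 0 < Q := by exact_mod_cast Q0
  have Q2 : (1 : ℝ) ≤ Q := by exact_mod_cast Q1
  obtain ⟨lam, hlam⟩ : ∃ lam : ℕ, lam = ⌈exp (2 * b)⌉₊ := ⟨_, rfl⟩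
  have a1 : exp (2 * b) ≤ lam := hlam ▸ Nat.le_ceil _
  have a0 : 3 ≤ exp (2 * b) := by linarith [add_one_le_exp (2 * b)]
  have a2 : (lam : ℝ) ≤ exp (3 * b) := by
    have h1 : (lam : ℝ) < exp (2 * b) + 1 := hlam ▸ Nat.ceil_lt_add_one (exp_pos _).le
    have h2 : exp (3 * b) = exp (2 * b) * exp b := by rw [← exp_add]; ring_nf
    nlinarith only [add_one_le_exp b, h1, h2, a0, hb]
  have a3 : 2 ≤ lam := by exact_mod_cast (by linarith : (2 : ℝ) ≤ lam)
  have a4 : (0 : ℝ) < lam := by linarith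
  have a5 : log lam ≤ 3 * b := (log_le_iff_le_exp a4).2 a2
  obtain ⟨p, hp⟩ : ∃ p : ℕ, p = 10 * Q * La := ⟨_, rfl⟩
  have p0 : 0 < p := by rw [hp]; positivity
  have p1 : 10 * Q * (2 * N * (r + 5)) ≤ lam ^ p := by
    rw [← hLa, ← hp]; exact Nat.lt_two_pow_self.le.trans (Nat.pow_le_pow_left a3 p)
  obtain ⟨l, hl⟩ : ∃ l : ℝ, l = min 1 (q * de / 512) := ⟨_, rfl⟩
  have l0 : 0 < l := by rw [hl]; positivity
  obtain ⟨W, hW⟩ : ∃ W : ℝ, W = (2 * La * Q + 1) ^ N := ⟨_, rfl⟩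
  have W0 : 0 < W := by rw [hW]; positivity
  obtain ⟨u₀, hu₀⟩ := exists_nat_gt
    (max (b / c) ((N * log Q + log N.factorial + N * log r) / (N * c)))
  refine ⟨q * de / (64 * W), q * c * de * l / (512 * b * p), u₀, by positivity, by positivity,
    fun u hu Ω T P A A' X τ h1 h2 h3 h4 => ?_⟩
  have hu' : (u₀ : ℝ) ≤ u := by exact_mod_cast hu
  have u1 : b < c * u := by
    have := ((le_max_left _ _).trans_lt hu₀).trans_le hu'
    rw [div_lt_iff₀ c0] at this; linarith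
  have u2 : N * log Q + log N.factorial + N * log r < N * c * u := by
    have := ((le_max_right _ _).trans_lt hu₀).trans_le hu'
    rw [div_lt_iff₀ (by positivity)] at this; linarith
  have u0 : (0 : ℝ) < u := (mul_pos_iff_of_pos_left c0).1 (by linarith)
  have κN : κ ≤ N := by
    have h5 := (hh_nonneg _).trans h2
    rw [mul_assoc] at h5
    exact sub_nonneg.1 (nonneg_of_mul_nonneg_left h5 (by positivity))
  have c1 : 24 * c ≤ 1 := by
    have : N * (24 * c) ≤ N * 1 := by nlinarith only [cN, lg1, κN, hκ]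
    exact le_of_mul_le_mul_left this (by linarith)
  obtain ⟨n, hn⟩ : ∃ n : ℕ, n = ⌊2 * c * u / b⌋₊ := ⟨_, rfl⟩
  have n1 : b * n ≤ 2 * c * u := by
    have : (n : ℝ) ≤ 2 * c * u / b := hn ▸ Nat.floor_le (by positivity)
    rw [le_div_iff₀ (by linarith)] at this; linarith
  have n2 : c * u ≤ b * n := by
    have : 2 * c * u / b < n + 1 := hn ▸ Nat.lt_floor_add_one _
    rw [div_lt_iff₀ (by linarith)] at this; linarith
  have g0 : (0 : ℝ) < 2 ^ u / Q := by positivity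
  have d1 : (((2 : ℝ) ^ u / Q) • (1 : Mat N)).det = (2 ^ u / Q) ^ N := by simp
  obtain ⟨G, k, km, k0, hG⟩ := hC Ω N P A Q La M lam (((2 : ℝ) ^ u / Q) • 1) de t ρ Q1 (by omega)
    L0 (by omega) d0.le t0 t1 (by rw [d1]; positivity) ρ0 hρ
  have k1 : ∀ x, ‖(G 0).mulVec x‖ ≤ 2 ^ u / Q * ‖x‖ := fun x => by
    have := k0 x
    rwa [start, norm_smul, Real.norm_of_nonneg g0.le] at this
  obtain ⟨Gd, b1, b2⟩ := hT Ω T N P A A' X τ Q (r + 5) lam p n G de (q * de / (64 * W)) l hN Q1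
    (by omega) (by omega) p0 d0 l0 (hl ▸ min_le_left _ _) p1
    (fun i => ⟨(hG i).1, hLa ▸ (hG i).2.1, (hG i).2.2.2.1⟩) (fun ω hω => by
      rw [norm_smul, Real.norm_of_nonneg Q0.le]
      calc _ ≤ Q * (2 ^ u / Q * ((2 : ℝ) ^ u)⁻¹) := by
            gcongr; exact (k1 _).trans (by gcongr; exact h1 ω hω)
        _ = 1 := by field_simp) h3
  have ML : (2 : ℝ) ≤ (M : ℝ) * La := by
    have x1 : (2 : ℝ) ≤ M := by exact_mod_cast M2
    have x2 : (1 : ℝ) ≤ La := by exact_mod_cast L0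
    nlinarith only [x1, x2]
  have g1 : log ((M : ℝ) * La + 2) ≤ log ((M : ℝ) * La * 2 ^ N) := by
    refine log_le_log (by linarith) ?_
    have : (2 : ℝ) ^ 1 ≤ 2 ^ N := pow_le_pow_right₀ one_le_two hN
    nlinarith only [this, ML]
  have g2 : 0 ≤ log ((M : ℝ) * La + 2) := log_nonneg (by linarith)
  have g3 : k n * log ((M : ℝ) * La * 2 ^ N) ≤ (N - 3 * κ / 4) * u * lg := by
    have x1 := ((hG n).2.2.1.trans (start_H P A u Q)).trans h2
    have x2 : (1 + κ / (4 * N)) * (N - κ) ≤ N - 3 * κ / 4 := by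
      have y1 : κ / (4 * N) * N = κ / 4 := by field_simp
      have y2 : 0 ≤ κ / (4 * N) * κ := by positivity
      linarith only [y1, y2]
    calc _ ≤ k n * ((1 + κ / (4 * N)) * ρ) := by gcongr
      _ = (1 + κ / (4 * N)) * (ρ * k n) := by ring
      _ ≤ (1 + κ / (4 * N)) * ((N - κ) * u * lg) := by gcongr
      _ = (1 + κ / (4 * N)) * (N - κ) * (u * lg) := by ring
      _ ≤ (N - 3 * κ / 4) * (u * lg) := by gcongr
      _ = _ := by ring
  obtain ⟨la, hla⟩ : ∃ la : ℕ → ℝ,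
      ∀ i, la i = i * log lam + (k i - k 0) * log ((M : ℝ) * La + 2) := ⟨_, fun _ => rfl⟩
  have ll : 0 ≤ log lam := log_nonneg (by linarith)
  refine ⟨n, fun i => bxM r (G i), la, Gd, n2, by nlinarith only [n1, c1, u0], fun i x => ?_, fun i j hij x => ?_,
    fun i j hij => ?_, by simp [hla], ?_, ?_, ?_, ?_, fun i x x' θ y1 y2 y3 => ?_⟩
  · rw [norm_bxM r0, norm_bxM r0, mul_left_comm]
    gcongr
    rw [exp_neg, ← div_eq_inv_mul, le_div_iff₀ (exp_pos _), mul_comm]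
    exact le_trans (by gcongr) ((hG i).2.2.2.1 x)
  · rw [norm_bxM r0, norm_bxM r0, mul_left_comm]
    gcongr
    induction j, hij using Nat.le_induction with
    | base => simp
    | succ j hij ih =>
      have e : exp (la (j + 1) - la i) =
          exp (la j - la i) * (lam * ((M : ℝ) * La + 2) ^ (k (j + 1) - k j)) := by
        rw [← exp_log a4, ← exp_log (by linarith : (0 : ℝ) < M * La + 2), ← exp_nat_mul, ← exp_add,
          ← exp_add, hla, hla j, Nat.cast_sub (km j.le_succ)]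
        congr 1
        push_cast; ring
      rw [e, mul_assoc]
      exact ih.trans (by gcongr; exact (hG j).2.2.2.2.1 x)
  · rw [hla, hla]
    have x1 : (i : ℝ) ≤ j := by exact_mod_cast hij
    have x2 : (k i : ℝ) ≤ k j := by exact_mod_cast km hij
    gcongr
  · rw [hla]
    have x1 : (k n - k 0 : ℝ) * log ((M : ℝ) * La + 2) ≤ k n * log ((M : ℝ) * La * 2 ^ N) :=
      mul_le_mul (sub_le_self _ (Nat.cast_nonneg _)) g1 g2 (Nat.cast_nonneg _)
    have x2 : (n : ℝ) * log lam ≤ n * (3 * b) := by gcongr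
    have x3 : (N - 3 * κ / 4) * u * lg ≤ N * u * 1 := by
      gcongr
      linarith
    nlinarith only [x1, x2, x3, g3, n1, c1, u0]
  · refine ContinuousLinearMap.opNorm_le_bound _ (by positivity) fun x => ?_
    rw [norm_bxM r0]
    calc _ ≤ 1 * (2 ^ u / 1 * ‖x‖) :=
          mul_le_mul (inv_le_one_of_one_le₀ r1) ((k1 x).trans (by gcongr)) (norm_nonneg _)
            zero_le_one
      _ = _ := by ring
  · by_contra hh
    have x1 : |(G n).det| ≤ N.factorial * (r * exp (c * u)) ^ N := det_bd fun x => by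
      have y := (bxM r (G n)).le_of_opNorm_le (not_le.1 hh).le x
      rw [norm_bxM r0, ← div_eq_inv_mul, div_le_iff₀ r0] at y
      linarith
    have f0 : (0 : ℝ) < N.factorial := by exact_mod_cast N.factorial_pos
    have x2 := (hG n).2.2.2.2.2
    rw [d1, abs_of_pos (by positivity)] at x2
    have x3 := log_le_log (by positivity) (x2.trans (mul_le_mul_of_nonneg_left x1 (by positivity)))
    rw [log_mul (by positivity) (by positivity), log_mul (by positivity) (by positivity),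
      log_mul (by positivity) (by positivity), log_pow, log_pow, log_pow, log_pow,
      log_div (by positivity) Q0.ne', log_two_pow, log_mul r0.ne' (exp_pos _).ne', log_exp] at x3
    have x4 : ((N * n : ℕ) : ℝ) * log lam ≤ N * (6 * c * u) := by
      rw [Nat.cast_mul, mul_assoc]
      exact mul_le_mul_of_nonneg_left
        (by linarith only [mul_le_mul_of_nonneg_left a5 (Nat.cast_nonneg (α := ℝ) n), n1])
        (Nat.cast_nonneg _)
    have x5 : κ * lg * u = 24 * N * c * u := by rw [cN]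
    have x6 : 0 < N * c * u := by positivity
    linarith only [x3, x4, x5, x6, g3, u2]
  · refine b1.trans ?_
    rw [← hLa, ← hW]
    exact budget n2 W0 d0 l0 (hl ▸ min_le_right _ _) Q0 hQ.le (by exact_mod_cast p0)
      (by linarith) hq (Nat.cast_nonneg _) h4
  · rw [norm_bxM r0] at y3 ⊢
    rw [← div_eq_inv_mul, div_le_one r0] at y3
    have y4 := b2 i x x' θ y1 y2 (by push_cast; linarith)
    rw [← div_eq_inv_mul, div_le_iff₀ r0, exp_neg, ← div_eq_inv_mul, le_div_iff₀ (exp_pos _)]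
    nlinarith only [exp_pos b, y4, hr]

end Pool.Agent.MP_5168f5_an.QA.SD
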