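import Pool.Agent.MP_5168f5_an.MX.FalE
import Pool.Agent.MP_5168f5_an.H17F.KE

/-! Small mutual information gives closeness against bounded test functions. -/

namespace Pool.Agent.MP_5168f5_an.QA.DPin

open H19 H17S H17F
open H39F (pv pv_eq pv_pos hh_eq)

variable {Ω α β γ : Type}

/-- The variational bound for two variables. -/
theorem dv0 (P : FP Ω) (a : Ω → α) (b : Ω → β) (ψ : α → β → ℝ) :
    P.E (fun ω => ψ (a ω) (b ω)) ≤
      (hh P a - ch P a b) + ((P.E fun i => P.E fun j => Real.exp (ψ (a i) (b j))) - 1) := by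
  obtain ⟨Z, hZd⟩ : ∃ Z, Z = P.E fun i => P.E fun j => Real.exp (ψ (a i) (b j)) := ⟨_, rfl⟩
  have hZ : 0 < Z := by
    obtain ⟨x, hx⟩ := ex_of_pb (P := P) (E := fun _ => True) (by rw [pb_true]; norm_num)
    have pos : ∀ F : Ω → ℝ, (∀ ω, 0 < F ω) → 0 < P.E F := fun F hF =>
      Finset.sum_pos (fun ω hω => mul_pos (P.pos ω hω) (hF ω)) ⟨x, hx.1⟩
    rw [hZd]
    exact pos _ fun i => pos _ fun j => Real.exp_pos _
  rw [← hZd]
  have key := P.gibbs (Setoid.ker fun ω => (a ω, b ω))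
    (fun ω => pv P a (a ω) * pv P b (b ω) * (Real.exp (ψ (a ω) (b ω)) / Z))
    (fun ω hω => mul_pos (mul_pos (pv_pos P a hω) (pv_pos P b hω))
      (div_pos (Real.exp_pos _) hZ)) (by
      have t1 := MX.tilt P a b (fun x y => Real.exp (ψ x y) / Z) fun x y => by positivity
      have t3 : P.E (fun i => P.E fun j => Real.exp (ψ (a i) (b j)) / Z) ≤ 1 := by
        simp only [div_eq_inv_mul, FP.E_mul]
        rw [← hZd]
        exact (inv_mul_cancel₀ hZ.ne').le
      refine le_trans (le_of_eq (P.E_congr fun ω _ => ?_)) (t1.trans t3)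
      rw [← pv_eq P (fun ω => (a ω, b ω)) ω])
  have e2 : P.E (fun ω => -Real.log
      (pv P a (a ω) * pv P b (b ω) * (Real.exp (ψ (a ω) (b ω)) / Z))) =
      hh P a + hh P b - P.E (fun ω => ψ (a ω) (b ω)) + Real.log Z := by
    rw [hh_eq, hh_eq, ← P.E_add, ← P.E_sub, ← P.E_const (Real.log Z), ← P.E_add]
    refine P.E_congr fun ω hω => ?_
    have a1 := pv_pos P a hω
    have a2 := pv_pos P b hω
    have a4 := Real.exp_pos (ψ (a ω) (b ω))
    rw [Real.log_mul (by positivity) (by positivity), Real.log_mul a1.ne' a2.ne',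
      Real.log_div a4.ne' hZ.ne', Real.log_exp]
    ring
  rw [e2] at key
  have e3 := Real.log_le_sub_one_of_pos hZ
  have e4 : ch P a b = P.H (Setoid.ker fun ω => (a ω, b ω)) - hh P b := rfl
  linarith

theorem exp_le {x : ℝ} (h : |x| ≤ 1) : Real.exp x ≤ 1 + x + x ^ 2 := by
  have := (abs_le.1 (Real.abs_exp_sub_one_sub_id_le h)).2
  linarith

/-- A bounded test function against an independent copy. -/
theorem pin0 (P : FP Ω) (a : Ω → α) (b : Ω → β) (φ : α → β → ℝ) (hφ : ∀ x y, |φ x y| ≤ 1)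
    {l : ℝ} (l0 : 0 ≤ l) (l1 : l ≤ 1) :
    l * (P.E (fun ω => φ (a ω) (b ω)) - P.E fun i => P.E fun j => φ (a i) (b j)) ≤
      (hh P a - ch P a b) + l ^ 2 := by
  have h1 := dv0 P a b fun x y => l * φ x y
  have h2 : (P.E fun i => P.E fun j => Real.exp (l * φ (a i) (b j))) ≤
      P.E fun i => P.E fun j => (1 + l ^ 2) + l * φ (a i) (b j) := by
    refine P.E_mono fun i _ => P.E_mono fun j _ => ?_
    have h3 := hφ (a i) (b j)
    have h4 : |l * φ (a i) (b j)| ≤ 1 := by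
      rw [abs_mul, abs_of_nonneg l0]
      exact mul_le_one₀ l1 (abs_nonneg _) h3
    have h5 : φ (a i) (b j) ^ 2 ≤ 1 := by
      rw [← sq_abs]; exact pow_le_one₀ (abs_nonneg _) h3
    have h6 := exp_le h4
    have h7 : (l * φ (a i) (b j)) ^ 2 ≤ l ^ 2 := by
      rw [mul_pow]; exact mul_le_of_le_one_right (sq_nonneg _) h5
    linarith
  simp only [FP.E_add, FP.E_const, FP.E_mul] at h1 h2
  linarith

theorem mi_cv (P : FP Ω) (F : Ω → α) (G : Ω → β) (K : Ω → γ) :
    mi P F G K = P.E fun ω => hh (cv P K (K ω)) F - ch (cv P K (K ω)) F G := by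
  rw [P.E_sub]
  unfold mi
  rw [KEA.ent1 P K fun _ => F, KEA.ent P K (fun _ => F) fun _ => G]

theorem pinl (P : FP Ω) (F : Ω → α) (G : Ω → β) (K : Ω → γ) (φ : α → β → γ → ℝ)
    (hφ : ∀ x y z, |φ x y z| ≤ 1) {l : ℝ} (l0 : 0 ≤ l) (l1 : l ≤ 1) :
    l * (P.E (fun ω => φ (F ω) (G ω) (K ω)) -
      P.E fun ω => (cv P K (K ω)).E fun ω' => φ (F ω) (G ω') (K ω)) ≤ mi P F G K + l ^ 2 := by
  rw [mi_cv, KEA.exp P K fun k ω => φ (F ω) (G ω) k,
    KEA.exp P K fun k ω => (cv P K k).E fun ω' => φ (F ω) (G ω') k, ← P.E_sub, ← P.E_mul,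
    ← P.E_const (l ^ 2), ← P.E_add]
  exact P.E_mono fun ω _ =>
    pin0 (cv P K (K ω)) F G (fun x y => φ x y (K ω)) (fun _ _ => hφ _ _ _) l0 l1

theorem E_abs_le (P : FP Ω) {F : Ω → ℝ} {c : ℝ} (h : ∀ ω ∈ P.S, |F ω| ≤ c) : |P.E F| ≤ c := by
  rw [abs_le]
  exact ⟨(P.E_const (-c)).ge.trans (P.E_mono fun ω hω => (abs_le.1 (h ω hω)).1),
    (P.E_mono fun ω hω => (abs_le.1 (h ω hω)).2).trans (P.E_const c).le⟩

theorem pin1 (P : FP Ω) (F : Ω → α) (G : Ω → β) (K : Ω → γ) (φ : α → β → γ → ℝ)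
    (hφ : ∀ x y z, |φ x y z| ≤ 1) {s : ℝ} (s0 : 0 < s) (h : mi P F G K ≤ s ^ 2) :
    P.E (fun ω => φ (F ω) (G ω) (K ω)) -
      (P.E fun ω => (cv P K (K ω)).E fun ω' => φ (F ω) (G ω') (K ω)) ≤ 2 * s := by
  rcases le_total s 1 with s1 | s1
  · have h1 := pinl P F G K φ hφ s0.le s1
    refine le_of_mul_le_mul_left (h1.trans ?_) s0
    nlinarith
  · have h1 := abs_le.1 (E_abs_le P (F := fun ω => φ (F ω) (G ω) (K ω)) fun ω _ => hφ _ _ _)
    have h2 := abs_le.1 (E_abs_le P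
      (F := fun ω => (cv P K (K ω)).E fun ω' => φ (F ω) (G ω') (K ω))
      fun ω _ => E_abs_le _ fun ω' _ => hφ _ _ _)
    linarith [h1.2, h2.1]

/-- Test function form: `G` may be replaced by a copy that is independent of `F` given `K`. -/
theorem pin (P : FP Ω) (F : Ω → α) (G : Ω → β) (K : Ω → γ) (φ : α → β → γ → ℝ)
    (hφ : ∀ x y z, |φ x y z| ≤ 1) {s : ℝ} (s0 : 0 < s) (h : mi P F G K ≤ s ^ 2) :
    |P.E (fun ω => φ (F ω) (G ω) (K ω)) -
      P.E fun ω => (cv P K (K ω)).E fun ω' => φ (F ω) (G ω') (K ω)| ≤ 2 * s := by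
  have h1 := pin1 P F G K φ hφ s0 h
  have h2 := pin1 P F G K (fun x y z => -φ x y z) (fun x y z => by rw [abs_neg]; exact hφ x y z)
    s0 h
  simp only [FP.E_neg] at h2
  rw [abs_le]
  constructor <;> linarith

theorem cv_unit (P : FP Ω) : cv P (fun _ => ()) () = P := by
  unfold cv
  simp only [cE_true]

/-- The form without conditioning. -/
theorem pinU (P : FP Ω) (F : Ω → α) (G : Ω → β) (φ : α → β → ℝ) (hφ : ∀ x y, |φ x y| ≤ 1)
    {s : ℝ} (s0 : 0 < s) (h : mi P F G (fun _ => ()) ≤ s ^ 2) :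
    |P.E (fun ω => φ (F ω) (G ω)) - P.E fun ω => P.E fun ω' => φ (F ω) (G ω')| ≤ 2 * s := by
  have := pin P F G (fun _ => ()) (fun x y _ => φ x y) (fun x y _ => hφ x y) s0 h
  simpa only [cv_unit] using this

open Classical in
/-- The splitting dichotomy: the one-bit label `pb (G | A) < pb G` carries the whole distance
between the law of `A` and its law given `G`. -/
theorem split (P : FP Ω) (A : Ω → α) (G : Ω → Prop) {s : ℝ} (s0 : 0 < s)
    (h : mi P (fun ω => pb (cv P A (A ω)) G < pb P G) G (fun _ => ()) ≤ s ^ 2)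
    (f : α → ℝ) (hf : ∀ x, |f x| ≤ 1) :
    pb P G * (P.E (fun ω => f (A ω)) - (cE P G).E fun ω => f (A ω)) ≤ 2 * s := by
  have e : ∀ g : α → ℝ, pb P G * P.E (fun ω => g (A ω)) -
      P.E (fun ω => if G ω then g (A ω) else 0) =
      P.E fun ω => g (A ω) * (pb P G - pb (cv P A (A ω)) G) := by
    intro g
    rw [KEA.exp P A fun x ω => if G ω then g x else 0, ← P.E_mul, ← P.E_sub]
    refine P.E_congr fun ω _ => ?_
    have : ((cv P A (A ω)).E fun ω' => if G ω' then g (A ω) else 0) =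
        g (A ω) * pb (cv P A (A ω)) G := by
      unfold pb
      rw [← FP.E_mul]
      exact FP.E_congr _ fun ω' _ => by split_ifs <;> simp
    rw [this]; ring
  have h1 := (abs_le.1 (pinU P (fun ω => pb (cv P A (A ω)) G < pb P G) G
    (fun x y => if y then (if x then 1 else -1) else 0)
    (fun x y => by split_ifs <;> simp) s0 h)).1
  have h2 : (P.E fun ω => P.E fun ω' => if G ω' then
      (if pb (cv P A (A ω)) G < pb P G then (1 : ℝ) else -1) else 0) =
      pb P G * P.E fun ω => if pb (cv P A (A ω)) G < pb P G then (1 : ℝ) else -1 := by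
    rw [← P.E_mul]
    refine P.E_congr fun ω _ => ?_
    generalize (if pb (cv P A (A ω)) G < pb P G then (1 : ℝ) else -1) = c
    rw [mul_comm, pb, ← FP.E_mul]
    exact FP.E_congr _ fun ω' _ => by by_cases hG : G ω' <;> simp [hG]
  have h3 := e fun x => if pb (cv P A x) G < pb P G then (1 : ℝ) else -1
  have h4 : P.E (fun ω => f (A ω) * (pb P G - pb (cv P A (A ω)) G)) ≤
      P.E fun ω => (if pb (cv P A (A ω)) G < pb P G then (1 : ℝ) else -1) *
        (pb P G - pb (cv P A (A ω)) G) := by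
    refine P.E_mono fun ω _ => ?_
    have := abs_le.1 (hf (A ω))
    split_ifs with h5
    · exact mul_le_mul_of_nonneg_right this.2 (by linarith)
    · exact mul_le_mul_of_nonpos_right this.1 (by linarith)
  rw [mul_sub, E_cE, e f]
  linarith

end Pool.Agent.MP_5168f5_an.QA.DPin
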