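import Pool.Agent.MP_4b405e_nt.SK.SpE

/-! The first run in abstract form: data and statement. -/

namespace Pool.Agent.MP_4b405e_nt.EA

open Pool.Agent.MP_5168f5_an H19 H17S H17F Real
open EB (Vv)

/-- `Φ k θ` is the form `θ` in the coordinates of the box `k`, as a function of `B = (p, ρ)`;
`Ψ k j` is the size of its part in `p` at level `j`; `o` is a direction of `p`; `τ` is the true
form, `Gd` are good events, `ex` is an error. -/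
structure Dat (ι ι' ν T Ω : Type) [Fintype ι] [Fintype ι'] [Fintype ν] where
  P : FP Ω
  n : ℕ
  U : ℕ
  I : Finset ℕ
  Φ : ℕ → T → Vv ι ι' →L[ℝ] (ν → ℝ)
  Ψ : ℕ → ℕ → (ι → ℝ) →L[ℝ] (ν → ℝ)
  o : ι → ℝ
  j : T → ℕ
  B : Ω → Vv ι ι'
  τ : Ω → T
  Gd : ℕ → Ω → Prop
  ex : Ω → ℝ

variable {ι ι' ν T Ω : Type} [Fintype ι] [Fintype ι'] [Fintype ν]

open Classical in
/-- The error on the event `A (B ω)`. -/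
noncomputable def Dat.er (X : Dat ι ι' ν T Ω) (Q : FP Ω) (A : Vv ι ι' → Prop) : ℝ :=
  Q.E fun ω => if A (X.B ω) then X.ex ω else 0

/-- The level is uniform on every event of `B`, up to the error. -/
def Dat.Lv (X : Dat ι ι' ν T Ω) (Q : FP Ω) : Prop :=
  ∀ (A : Vv ι ι' → Prop) (W : Finset ℕ), W ⊆ Finset.range X.U →
    (W.card : ℝ) / X.U * pb Q (fun ω => A (X.B ω)) ≤
      pb Q (fun ω => A (X.B ω) ∧ X.j (X.τ ω) ∈ W) + X.er Q A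

/-- The reference size of a form: the size of the direction `o`. -/
noncomputable def Dat.sg (X : Dat ι ι' ν T Ω) (k : ℕ) (θ : T) : ℝ := ‖X.Φ k θ (X.o, 0)‖

/-- The forms `θ`, `θ₀` have the same level, which is not deeper than `6 L`, and are small together
over a large ball of `ρ`. -/
def Dat.Cl (X : Dat ι ι' ν T Ω) (r L : ℝ) (k : ℕ) (θ θ₀ : T) : Prop :=
  X.j θ₀ = X.j θ ∧ exp r ≤ X.sg k θ ∧ X.sg k θ ≤ exp (6 * L) ∧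
    ∀ ρ : ι' → ℝ, X.sg k θ * ‖ρ‖ ≤ exp r → ∃ p, ‖X.Φ k θ (p, ρ)‖ ≤ 1 ∧ ‖X.Φ k θ₀ (p, ρ)‖ ≤ 1

/-- The form is spread on every event of `B`, given the level, up to the error. -/
def Dat.Ac (X : Dat ι ι' ν T Ω) (r L : ℝ) (Q : FP Ω) : Prop :=
  ∀ (A : Vv ι ι' → Prop) (θ₀ : ℕ → T) (i : ℕ → ℕ), (∀ j, i j ∈ X.I) →
    pb Q (fun ω => A (X.B ω) ∧ X.Cl r L (i (X.j (X.τ ω))) (X.τ ω) (θ₀ (X.j (X.τ ω)))) ≤ X.er Q A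

/-- Two good points with the form `θ` are either far or very close in the box `k`. -/
def Dat.Gp (X : Dat ι ι' ν T Ω) (β : ℝ) (k : ℕ) (θ : T) : Prop :=
  ∀ ω ∈ X.P.S, ∀ ω' ∈ X.P.S, X.Gd k ω → X.Gd k ω' → X.τ ω = θ → X.τ ω' = θ →
    ‖X.Φ k θ (X.B ω - X.B ω')‖ ≤ 1 → ‖X.Φ k θ (X.B ω - X.B ω')‖ ≤ exp (-(6 * β))

/-- The hypotheses. -/
structure Dat.Ok (X : Dat ι ι' ν T Ω) (κ ρ C A r β L : ℝ) : Prop where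
  ball : ∀ ω ∈ X.P.S, ∀ ω' ∈ X.P.S, ‖X.B ω - X.B ω'‖ ≤ 1
  ref : ∀ i ∈ X.I, ∀ θ p, ‖X.Ψ i (X.j θ) p‖ ≤ exp 1 * ‖X.Φ i θ (p, 0)‖ ∧
    ‖X.Φ i θ (p, 0)‖ ≤ exp 1 * ‖X.Ψ i (X.j θ) p‖
  slow : ∀ i ∈ X.I, ∀ j p, ‖X.Ψ i j p‖ ≤ exp κ * ‖X.Ψ i (j + 1) p‖
  sep : ∀ i ∈ X.I, ∀ i' ∈ X.I, i < i' → ∀ j p, ‖X.Ψ i' j p‖ ≤ exp (-(12 * β)) * ‖X.Ψ i j p‖
  low : ∀ i ∈ X.I, ∀ p, ‖X.Ψ i X.U p‖ ≤ exp (-(4 * β)) * ‖p‖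
  high : ∀ i ∈ X.I, exp (6 * L) ≤ ‖X.Ψ i 0 X.o‖
  u0 : 0 < X.U
  mass : ρ * κ * X.U ≤ β * X.I.card
  ex0 : ∀ ω, 0 ≤ X.ex ω
  lv : X.Lv X.P
  r0 : 0 ≤ r
  o1 : ‖X.o‖ ≤ 1
  nest : ∀ k < X.n, ∀ θ x, ‖X.Φ (k + 1) θ x‖ ≤ exp (-(12 * β)) * ‖X.Φ k θ x‖
  dens : ∀ i ∈ X.I, ∀ k, i ≤ k → k ≤ X.n → ∀ θ x,
    ‖X.Φ i θ x‖ ≤ exp (C * β * (k - i : ℕ)) * ‖X.Φ k θ x‖
  top : ∀ i ∈ X.I, L ≤ β * (X.n - i : ℕ)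
  up : ∀ i ∈ X.I, ∀ θ, X.sg i θ ≤ exp (6 * L) → ∀ y, ‖X.Φ i θ (0, y)‖ ≤ X.sg i θ * exp r * ‖y‖
  upp : ∀ i ∈ X.I, ∀ θ y, 0 ≤ y → y ≤ 6 * L → X.sg i θ ≤ exp y → ∀ x,
    ‖X.Φ i θ x‖ ≤ exp (A * y + r) * ‖x‖
  gp : ∀ i ∈ X.I, ∀ θ, X.sg i θ ≤ exp (6 * L) → ∀ k, i ≤ k → k < X.n → X.Gp β k θ
  ac : X.Ac r L X.P

/-- The information between the form and `B`, plus the bad mass. -/
noncomputable def Dat.bud (X : Dat ι ι' ν T Ω) : ℝ :=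
  mi X.P X.τ X.B (fun _ => ()) + ∑ k ∈ Finset.range X.n, pb X.P fun ω => ¬X.Gd k ω

/-- The first run: `ρ` is not flat. -/
def Run1A : Prop := ∀ (M : ℕ) (κ ρ C A : ℝ), 0 < κ → 0 < ρ → ρ ≤ 1 → 1 ≤ C → 1 ≤ A →
  ∃ η β₀ : ℝ, 0 < η ∧ ∀ β, β₀ ≤ β → ∃ K L₀ : ℝ, 0 ≤ K ∧
    ∀ (ι ι' ν T Ω : Type) [Fintype ι] [Fintype ι'] [Fintype ν] (X : Dat ι ι' ν T Ω) (r L : ℝ)
      (R : ℕ), Fintype.card ι + Fintype.card ι' ≤ M → L₀ ≤ L → r ≤ η * L →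
      X.Ok κ ρ C A r β L → 6 * L ≤ R * lg →
      hh X.P (fun ω => flv R (X.B ω).2) ≤
        Fintype.card ι' * R * lg - η * L + K * X.bud + L * X.P.E X.ex

end Pool.Agent.MP_4b405e_nt.EA
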