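import Pool.Agent.MP_5168f5_an.H17F.KE

/-! Information inequalities for an adaptive process on the atoms of a finite law. -/

namespace Pool.Agent.MP_4b405e_nt.Kil

open Pool.Agent.MP_5168f5_an Pool.Agent.MP_5168f5_an.H19 Pool.Agent.MP_5168f5_an.H17S
  Pool.Agent.MP_5168f5_an.H17F

variable {Ω α β γ δ : Type}

/-- Mutual information without conditioning. -/
noncomputable def mu (P : FP Ω) (F : Ω → α) (G : Ω → β) : ℝ := mi P F G fun _ => ()

theorem mu_eq (P : FP Ω) (F : Ω → α) (G : Ω → β) :
    mu P F G = hh P F + hh P G - hh P fun ω => (F ω, G ω) := by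
  unfold mu mi
  have h1 : ch P F (fun ω => (G ω, ())) = ch P F G :=
    le_antisymm (ch_anti (Fn.fst G fun _ => ())) (ch_anti fun a _ b _ e => by simp only [e])
  rw [ch_unit, h1]; unfold ch; ring

theorem mu_nonneg (P : FP Ω) (F : Ω → α) (G : Ω → β) : 0 ≤ mu P F G := mi_nonneg _ _ _

theorem mu_le (P : FP Ω) (F : Ω → α) (G : Ω → β) : mu P F G ≤ hh P F := by
  have := mi_le (P := P) F G fun _ => ()
  rwa [ch_unit] at this

theorem mu_symm (P : FP Ω) (F : Ω → α) (G : Ω → β) : mu P F G = mu P G F := mi_symm _ _ _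

theorem mu_mono {P : FP Ω} (F : Ω → α) {G : Ω → β} {G' : Ω → γ} (h : Fn P G G') :
    mu P F G ≤ mu P F G' := mi_mono (h.left _)

/-- Variational lower bound for the mutual information. -/
theorem dv (P : FP Ω) (τ : Ω → α) (G : Ω → β) (f : α → β → ℝ)
    (hf : ∀ a ∈ P.S, ∀ b ∈ P.S, 0 < f (τ a) (G b))
    (h1 : P.E (fun a => P.E fun b => f (τ a) (G b)) ≤ 1) :
    P.E (fun ω => Real.log (f (τ ω) (G ω))) ≤ mu P τ G := by
  classical
  set A := Setoid.ker τ
  set B := Setoid.ker G
  set J := Setoid.ker fun ω => (τ ω, G ω)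
  have key : P.H J ≤ P.E fun ω => -Real.log (P.pr A ω * P.pr B ω * f (τ ω) (G ω)) := by
    refine P.gibbs J _ (fun ω hω => mul_pos (mul_pos (P.pr_pos A hω) (P.pr_pos B hω))
      (hf ω hω ω hω)) (le_trans ?_ h1)
    have e1 : P.E (fun ω => P.pr A ω * P.pr B ω * f (τ ω) (G ω) / P.pr J ω) =
        P.E (fun ω => P.E fun a => P.E fun b =>
          if A a ω ∧ B b ω then f (τ ω) (G ω) / P.pr J ω else 0) := by
      refine P.E_congr fun ω _ => ?_
      have : ∀ a, (P.E fun b => if A a ω ∧ B b ω then f (τ ω) (G ω) / P.pr J ω else 0) =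
          (P.pr B ω * (f (τ ω) (G ω) / P.pr J ω)) * if A a ω then 1 else 0 := by
        intro a
        by_cases h : A a ω
        · simp only [h, true_and, if_true, mul_one]
          rw [mul_comm]
          unfold FP.pr
          rw [← FP.E_mul]
          exact P.E_congr fun b _ => by split_ifs <;> simp
        · simp only [h, false_and, if_false, FP.E_const, mul_zero]
      simp only [this]
      rw [FP.E_mul]
      change _ = _ * P.pr A ω
      ring
    rw [e1, FP.E_comm]
    refine P.E_mono fun a ha => ?_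
    rw [FP.E_comm]
    refine P.E_mono fun b hb => ?_
    have h4 := P.class_sum J (fun ω => A a ω ∧ B b ω) fun x _ y _ h1 h2 =>
      Prod.ext (A.trans' (A.symm' h1.1) h2.1) (B.trans' (B.symm' h1.2) h2.2)
    have h5 : (P.E fun ω => if A a ω ∧ B b ω then f (τ ω) (G ω) / P.pr J ω else 0) =
        P.E fun ω => f (τ a) (G b) * if A a ω ∧ B b ω then 1 / P.pr J ω else 0 := by
      refine P.E_congr fun ω _ => ?_
      by_cases h6 : A a ω ∧ B b ω
      · simp only [h6, and_self, if_true]
        have e1 : τ a = τ ω := h6.1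
        have e2 : G b = G ω := h6.2
        rw [e1, e2]; ring
      · simp only [h6, if_false, mul_zero]
    rw [h5, FP.E_mul]
    refine (mul_le_mul_of_nonneg_left (le_trans (le_of_eq ?_) h4) (hf a ha b hb).le).trans
      (mul_one _).le
    exact P.E_congr fun ω _ => by congr
  have e : (P.E fun ω => -Real.log (P.pr A ω * P.pr B ω * f (τ ω) (G ω))) =
      P.E fun ω => (-Real.log (P.pr A ω) + -Real.log (P.pr B ω)) - Real.log (f (τ ω) (G ω)) := by
    refine P.E_congr fun ω hω => ?_
    rw [Real.log_mul (mul_pos (P.pr_pos A hω) (P.pr_pos B hω)).ne' (hf ω hω ω hω).ne',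
      Real.log_mul (P.pr_pos A hω).ne' (P.pr_pos B hω).ne']
    ring
  rw [e, FP.E_sub, FP.E_add] at key
  rw [mu_eq]
  unfold hh FP.H at *
  linarith

/-- Labels whose own event is not almost sure: their mass is paid by information or by the
failure of the event of the true label. -/
theorem atyp (P : FP Ω) (τ : Ω → α) (G : Ω → β) (A : α → β → Prop) (T : α → Prop) {q : ℝ}
    (hT : ∀ a ∈ P.S, T (τ a) → pb P (fun b => A (τ a) (G b)) ≤ 1 - q) :
    q / 2 * pb P (fun a => T (τ a)) ≤
      mu P τ G + pb P fun a => T (τ a) ∧ ¬A (τ a) (G a) := by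
  classical
  have hp : ∀ θ, 0 < 1 + pb P (fun b => A θ (G b)) := fun θ => by
    have := pb_nonneg P (fun b => A θ (G b)); linarith
  have h := dv P τ G (fun θ g => if T θ then (1 + if A θ g then 1 else 0) /
      (1 + pb P fun b => A θ (G b)) else 1) (fun a _ b _ => by
        have := hp (τ a)
        split_ifs <;> positivity) (by
      refine le_trans (P.E_mono (G := fun _ => 1) fun a _ => ?_) (P.E_const 1).le
      by_cases h : T (τ a)
      · simp only [h, if_true, div_eq_inv_mul]
        rw [FP.E_mul, FP.E_add, FP.E_const]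
        refine le_of_eq ?_
        have e : (P.E fun ω => if A (τ a) (G ω) then (1 : ℝ) else 0) =
            pb P fun b => A (τ a) (G b) := P.E_congr fun _ _ => by congr
        rw [e]
        exact inv_mul_cancel₀ (hp _).ne'
      · simp only [h, if_false, FP.E_const, le_refl])
  refine le_trans ?_ (add_le_add h le_rfl)
  unfold pb
  rw [← FP.E_mul, ← FP.E_add]
  refine P.E_mono fun a ha => ?_
  by_cases h1 : T (τ a)
  · have h2 := hT a ha h1
    have h3 := hp (τ a)
    have h4 : Real.log (1 + pb P fun b => A (τ a) (G b)) ≤ lg - q / 2 := by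
      have h5 := Real.log_le_sub_one_of_pos (div_pos h3 two_pos)
      rw [Real.log_div h3.ne' two_ne_zero] at h5
      unfold lg; linarith
    have h6 := lg_lt_one
    unfold pb at h3 h4
    by_cases h7 : A (τ a) (G a)
    · simp only [h1, h7, if_true, not_true, and_false, if_false]
      rw [Real.log_div (by norm_num) h3.ne', one_add_one_eq_two]
      unfold lg at h4; linarith
    · simp only [h1, h7, if_true, if_false, not_false_iff, and_self]
      rw [Real.log_div (by norm_num) h3.ne', add_zero, Real.log_one]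
      linarith
  · simp [h1]

/-- A variable that is trivial on `A` and takes at most `B` values is cheap. -/
theorem cheap (P : FP Ω) (F : Ω → α) (A : Ω → Prop) (T : Finset α) {B q : ℝ}
    (hB : (T.card : ℝ) ≤ B) (hT : ∀ a ∈ P.S, F a ∈ T)
    (hA : ∀ a ∈ P.S, ∀ b ∈ P.S, A a → A b → F a = F b) (hq : 1 - q ≤ pb P A) :
    hh P F ≤ lg + q * Real.log B := by
  classical
  have hne : P.S.Nonempty := by
    by_contra h
    have := P.sum_one
    rw [Finset.not_nonempty_iff_eq_empty.1 h] at this
    simp at this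
  obtain ⟨a0, ha0⟩ := hne
  have h1 : (1 : ℝ) ≤ B := by
    have : 0 < T.card := Finset.card_pos.2 ⟨_, hT a0 ha0⟩
    exact le_trans (by exact_mod_cast this) hB
  have h := KEA.sparse P A F (fun _ => ()) B 1 (fun _ _ => ⟨T, hB, fun b hb _ => hT b hb⟩) (by
    intro a _
    by_cases k : ∃ b ∈ P.S, A b
    · obtain ⟨b, hb, hAb⟩ := k
      exact ⟨{F b}, by simp, fun c hc _ hAc => Finset.mem_singleton.2 (hA c hc b hb hAc hAb)⟩
    · exact ⟨∅, by simp, fun c hc _ hAc => (k ⟨c, hc, hAc⟩).elim⟩)
  rw [ch_unit, Real.log_one, mul_zero, add_zero] at h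
  have := mul_le_mul_of_nonneg_right (show 1 - pb P A ≤ q by linarith) (Real.log_nonneg h1)
  linarith

/-- A variable with at most `B` values. -/
theorem hh_card (P : FP Ω) (F : Ω → α) (T : Finset α) {B : ℝ} (hB : (T.card : ℝ) ≤ B)
    (hT : ∀ a ∈ P.S, F a ∈ T) : hh P F ≤ Real.log B := by
  rw [← ch_unit]; exact ch_det fun _ _ => ⟨T, hB, fun b hb _ => hT b hb⟩

theorem mem_cv (P : FP Ω) (F : Ω → α) {ω : Ω} (hω : ω ∈ P.S) (a : Ω) :
    a ∈ (cv P F (F ω)).S ↔ a ∈ P.S ∧ F a = F ω :=
  mem_cE (E := fun b => F b = F ω) ⟨ω, hω, rfl⟩ a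

theorem E_atom (P : FP Ω) (F : Ω → α) (X : Ω → ℝ) :
    P.E X = P.E fun ω => (cv P F (F ω)).E X := KEA.exp P F fun _ => X

theorem pb_atom (P : FP Ω) (F : Ω → α) (A : Ω → Prop) :
    pb P A = P.E fun ω => pb (cv P F (F ω)) A := E_atom P F _

theorem ch_atom (P : FP Ω) (F : Ω → α) (X : Ω → β) :
    ch P X F = P.E fun ω => hh (cv P F (F ω)) X := KEA.ent1 P F fun _ => X

/-- Entropy splits over the atoms of the step variable. -/
theorem hh_atom (P : FP Ω) (F : Ω → α) (X : Ω → β) :
    hh P X ≤ hh P F + P.E fun ω => hh (cv P F (F ω)) X := by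
  have := ch_tri (P := P) X F fun _ => ()
  rw [ch_unit, ch_unit] at this
  have h1 : ch P X (fun ω => (F ω, ())) ≤ ch P X F := ch_anti (Fn.fst F fun _ => ())
  rw [← ch_atom]; linarith

theorem mi_atom (P : FP Ω) (F : Ω → α) (τ : Ω → β) (B : Ω → γ) :
    mi P τ B F = P.E fun ω => mu (cv P F (F ω)) τ B := by
  have h1 := ch_atom P F τ
  have h2 := KEA.ent P F (fun _ => τ) fun _ => B
  have h3 : P.E (fun ω => mu (cv P F (F ω)) τ B) =
      P.E (fun ω => hh (cv P F (F ω)) τ) - P.E fun ω => ch (cv P F (F ω)) τ B := by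
    rw [← FP.E_sub]
    refine P.E_congr fun ω _ => ?_
    rw [mu_eq]; unfold ch; ring
  unfold mi
  linarith

/-- Chain rule for the information over the atoms of a step variable that is a function of `B`. -/
theorem mu_atom (P : FP Ω) {F : Ω → α} (τ : Ω → β) {B : Ω → γ} (h : Fn P F B) :
    mu P τ B = mu P τ F + P.E fun ω => mu (cv P F (F ω)) τ B := by
  have h1 := mi_chain (P := P) τ F B fun _ => ()
  have h2 : mi P τ (fun ω => (F ω, B ω)) (fun _ => ()) = mu P τ B :=
    le_antisymm (mu_mono τ (h.pair (Fn.rfl B))) (mu_mono τ (Fn.snd F B))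
  have h3 : mi P τ B (fun ω => (F ω, ())) = mi P τ B F := by
    unfold mi
    rw [le_antisymm (ch_anti (Fn.fst F fun _ => ())) (ch_anti (P := P) (F := τ)
      (G := fun ω => (F ω, ())) (G' := F) fun a _ b _ e => by simp only [e])]
    congr 1
    exact le_antisymm (ch_anti fun a _ b _ e => by simp only [Prod.mk.injEq] at e ⊢; tauto)
      (ch_anti fun a _ b _ e => by simp only [Prod.mk.injEq] at e ⊢; tauto)
  rw [← mi_atom, ← h2, h1, h3]; rfl

end Pool.Agent.MP_4b405e_nt.Kil
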