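import Pool.Agent.MP_4b405e_nt.SK.EGeo8
import Pool.Agent.MP_4b405e_nt.SK.EKil8

/-! The step variables of the cutting process and their entropies. -/

namespace Pool.Agent.MP_4b405e_nt.Geo

open MeasureTheory Set Pointwise Module Metric
open Pool.Agent.MP_5168f5_an Pool.Agent.MP_5168f5_an.H19 Pool.Agent.MP_5168f5_an.H17S
  Pool.Agent.MP_5168f5_an.H17F

variable {Ω E F : Type} [NormedAddCommGroup E] [NormedSpace ℝ E] [NormedAddCommGroup F]
  [NormedSpace ℝ F] (Q : FP Ω)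

theorem log_five_le : Real.log 5 ≤ 2 := by
  rw [Real.log_le_iff_le_exp (by norm_num)]
  have h := Real.add_one_le_exp (1 / 2 : ℝ)
  have e : Real.exp 2 = Real.exp (1 / 2) ^ 4 := by rw [← Real.exp_nat_mul]; norm_num
  rw [e]
  exact le_trans (by norm_num) (pow_le_pow_left₀ (by norm_num) h 4)

/-- A label that pins a variable modulo `exp (-b) • P`. -/
theorem lab [FiniteDimensional ℝ E] (B : Ω → E) {P : Set E} (h : Sym P) {r R b : ℝ} (hr : 0 < r)
    (h0 : ∀ x, ‖x‖ ≤ r → x ∈ P) (h1 : ∀ x ∈ P, ‖x‖ ≤ R)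
    (hB : ∀ ω ∈ Q.S, ∀ ω' ∈ Q.S, B ω - B ω' ∈ P) (hb : 0 ≤ b) :
    ∃ f : E → E, hh Q (fun ω => f (B ω)) ≤ finrank ℝ E * (b + 2) ∧
      ∀ ω ∈ Q.S, ∀ ω' ∈ Q.S, f (B ω) = f (B ω') → B ω - B ω' ∈ Real.exp (-b) • P := by
  classical
  borelize E
  obtain ⟨f, h2, h3⟩ := label (Measure.addHaar : Measure E) h (ne_zero_of _ hr h0)
    (ne_top_of _ h1) (Q.S.image B) (by
      intro x hx y hy
      obtain ⟨a, ha, rfl⟩ := Finset.mem_image.1 hx
      obtain ⟨a', ha', rfl⟩ := Finset.mem_image.1 hy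
      exact hB a ha a' ha') (Real.exp_pos (-b)) (Real.exp_le_one_iff.2 (by linarith))
  refine ⟨f, (Kil.hh_card Q _ _ h2 fun a ha =>
    Finset.mem_image_of_mem f (Finset.mem_image_of_mem B ha)).trans ?_, fun a ha a' ha' e =>
    h3 _ (Finset.mem_image_of_mem B ha) _ (Finset.mem_image_of_mem B ha') e⟩
  rw [Real.log_pow, Real.log_div (by norm_num) (Real.exp_pos _).ne', Real.log_exp]
  exact mul_le_mul_of_nonneg_left (by linarith [log_five_le]) (Nat.cast_nonneg _)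

/-- The label of the homothety step. -/
theorem Ok.lab_smul [FiniteDimensional ℝ E] [FiniteDimensional ℝ F] {D : Set (E × F)} {r R b : ℝ}
    (h : Ok D r R) (B : Ω → E × F) (hB : ∀ ω ∈ Q.S, ∀ ω' ∈ Q.S, B ω - B ω' ∈ D) (hb : 0 ≤ b) :
    ∃ f : E × F → E × F, hh Q (fun ω => f (B ω)) ≤ (finrank ℝ E + finrank ℝ F) * (b + 2) ∧
      ∀ ω ∈ Q.S, ∀ ω' ∈ Q.S, f (B ω) = f (B ω') → B ω - B ω' ∈ Real.exp (-b) • D := by
  have := lab Q B h.sym h.pos h.ball h.bd hB hb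
  rwa [finrank_prod, Nat.cast_add] at this

/-- The label of the paid step. -/
theorem Ok.lab_pay [FiniteDimensional ℝ F] {D : Set (E × F)} {r R b : ℝ}
    (h : Ok D r R) (B : Ω → E × F) (hB : ∀ ω ∈ Q.S, ∀ ω' ∈ Q.S, B ω - B ω' ∈ D) (hb : 0 ≤ b) :
    ∃ f : E × F → F, hh Q (fun ω => f (B ω)) ≤ finrank ℝ F * (b + 2) ∧
      ∀ ω ∈ Q.S, ∀ ω' ∈ Q.S, f (B ω) = f (B ω') → B ω - B ω' ∈ payS D (Real.exp (-b)) := by
  obtain ⟨f, h1, h2⟩ := lab Q (fun ω => (B ω).2) h.sym.shd h.pos h.shd_ball h.shd_bd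
    (fun a ha a' ha' => mem_shd (hB a ha a' ha')) hb
  exact ⟨fun x => f x.2, h1, fun a ha a' ha' e => ⟨hB a ha a' ha', h2 a ha a' ha' e⟩⟩

/-- The entropy of grid cells of a variable with differences in `P`. -/
theorem hh_cells {ι : Type} [Fintype ι] (y : Ω → ι → ℝ) {P : Set (ι → ℝ)} (h : Sym P) {r R : ℝ}
    (h1 : ∀ x ∈ P, ‖x‖ ≤ R) (hr : 0 < r) (h0 : ∀ x, ‖x‖ ≤ r → x ∈ P)
    (hy : ∀ ω ∈ Q.S, ∀ ω' ∈ Q.S, y ω - y ω' ∈ P) :
    hh Q (fun ω i => ⌊y ω i / r⌋) ≤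
      Real.log (volume.real P) + Fintype.card ι * (lg - Real.log r) := by
  classical
  have h2 := cells h (ne_top_of _ h1) hr
    (fun x hx => h0 x ((pi_norm_le_iff_of_nonneg hr.le).2 hx)) (Q.S.image y) (by
      intro x hx z hz
      obtain ⟨a, ha, rfl⟩ := Finset.mem_image.1 hx
      obtain ⟨a', ha', rfl⟩ := Finset.mem_image.1 hz
      exact hy a ha a' ha')
  rw [← le_div_iff₀ (by positivity)] at h2
  have h3 : 0 < volume.real P :=
    ENNReal.toReal_pos (ne_zero_of _ hr h0) (ne_top_of _ h1)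
  refine (Kil.hh_card Q _ _ h2 fun a ha => Finset.mem_image_of_mem _
    (Finset.mem_image_of_mem y ha)).trans (le_of_eq ?_)
  rw [Real.log_div (by positivity) (by positivity), Real.log_mul (by positivity) h3.ne',
    Real.log_pow, Real.log_pow]
  unfold lg; ring

/-- The same for dyadic cells. -/
theorem hh_flv {ι : Type} [Fintype ι] (y : Ω → ι → ℝ) {P : Set (ι → ℝ)} (h : Sym P) {d R : ℝ}
    (h1 : ∀ x ∈ P, ‖x‖ ≤ R) (h0 : ∀ x, ‖x‖ ≤ Real.exp (-d) → x ∈ P) {j : ℕ} (hj : d ≤ j * lg)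
    (hy : ∀ ω ∈ Q.S, ∀ ω' ∈ Q.S, y ω - y ω' ∈ P) :
    hh Q (fun ω => flv j (y ω)) ≤ Real.log (volume.real P) + Fintype.card ι * (j + 1) * lg := by
  have e1 : ((2 : ℝ) ^ j)⁻¹ = Real.exp (-(j * lg)) := by
    rw [Real.exp_neg, ← log_two_pow, Real.exp_log (by positivity)]
  have := hh_cells Q y h h1 (r := ((2 : ℝ) ^ j)⁻¹) (by positivity)
    (fun x hx => h0 x (hx.trans (by rw [e1]; exact Real.exp_le_exp.2 (by linarith)))) hy
  have e2 : (fun ω i => ⌊y ω i / ((2 : ℝ) ^ j)⁻¹⌋) = fun ω => flv j (y ω) := by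
    funext ω i
    simp only [flv, fl1, div_inv_eq_mul, mul_comm]
  rw [e2, Real.log_inv, log_two_pow] at this
  convert this using 2; ring

open Classical in
/-- The variable of a cut that is free on the event `A`. -/
theorem cut_var {V : Type} [AddCommGroup V] [Module ℝ V] (B : Ω → V) (ζ : V →ₗ[ℝ] ℝ)
    (A : V → Prop) {b w : ℝ} (hb : 0 ≤ b) (hw : 0 ≤ w)
    (h1 : ∀ ω ∈ Q.S, ∀ ω' ∈ Q.S, |ζ (B ω - B ω')| ≤ 1)
    (hA : ∀ ω ∈ Q.S, ∀ ω' ∈ Q.S, A (B ω) → A (B ω') → |ζ (B ω - B ω')| ≤ Real.exp (-b))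
    (hq : 1 - w ≤ pb Q fun ω => A (B ω)) :
    ∃ f : V → Option ℤ, hh Q (fun ω => f (B ω)) ≤ 1 + w * (b + 2) ∧
      ∀ ω ∈ Q.S, ∀ ω' ∈ Q.S, f (B ω) = f (B ω') → |ζ (B ω - B ω')| ≤ Real.exp (-b) := by
  have hne : Q.S.Nonempty := by
    by_contra h
    have := Q.sum_one
    rw [Finset.not_nonempty_iff_eq_empty.1 h] at this
    simp at this
  obtain ⟨a0, ha0⟩ := hne
  set t := Real.exp b with ht
  have ht1 : 1 ≤ t := Real.one_le_exp hb
  refine ⟨fun x => if A x then none else some ⌊t * ζ (x - B a0)⌋, ?_, fun a ha a' ha' e => ?_⟩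
  · have h2 := Kil.cheap Q (fun ω => if A (B ω) then none else some ⌊t * ζ (B ω - B a0)⌋)
      (fun ω => A (B ω)) (insert none ((Finset.Icc ⌊-t⌋ ⌊t⌋).image some)) (B := 5 * t) (q := w)
      ?_ ?_ (fun a _ a' _ k k' => by simp only [k, k', if_true]) hq
    · rw [Real.log_mul (by norm_num) (by positivity), ht, Real.log_exp] at h2
      have := mul_le_mul_of_nonneg_left (show Real.log 5 + b ≤ b + 2 by linarith [log_five_le]) hw
      linarith [lg_lt_one]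
    · have h3 := Finset.card_insert_le none ((Finset.Icc ⌊-t⌋ ⌊t⌋).image some)
      have h4 := Finset.card_image_le (s := Finset.Icc ⌊-t⌋ ⌊t⌋) (f := some)
      have h5 : ((Finset.Icc ⌊-t⌋ ⌊t⌋).card : ℤ) = ⌊t⌋ + 1 - ⌊-t⌋ := by
        rw [Int.card_Icc_of_le _ _ (by
          have := Int.floor_le_floor (show -t ≤ t by linarith); omega)]
      have h6 : ((Finset.Icc ⌊-t⌋ ⌊t⌋).card : ℝ) = ⌊t⌋ + 1 - ⌊-t⌋ := by exact_mod_cast h5
      have h7 := Int.floor_le t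
      have h8 := Int.lt_floor_add_one (-t)
      have h9 : ((insert none ((Finset.Icc ⌊-t⌋ ⌊t⌋).image some)).card : ℝ) ≤
          (Finset.Icc ⌊-t⌋ ⌊t⌋).card + 1 := by exact_mod_cast h3.trans (by omega)
      linarith
    · intro a ha
      by_cases k : A (B a)
      · simp [k]
      · have h3 := abs_le.1 (h1 a ha a0 ha0)
        simp only [k, if_false]
        refine Finset.mem_insert_of_mem (Finset.mem_image_of_mem _ (Finset.mem_Icc.2
          ⟨Int.floor_le_floor ?_, Int.floor_le_floor ?_⟩)) <;> nlinarith [h3.1, h3.2]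
  · by_cases k : A (B a) <;> by_cases k' : A (B a')
    · exact hA a ha a' ha' k k'
    · simp [k, k'] at e
    · simp [k, k'] at e
    · simp only [k, k', if_false, Option.some.injEq] at e
      have h2 := Int.abs_sub_lt_one_of_floor_eq_floor e
      have h3 : t * ζ (B a - B a0) - t * ζ (B a' - B a0) = t * ζ (B a - B a') := by
        simp only [map_sub]; ring
      rw [h3, abs_mul, abs_of_pos (by linarith)] at h2
      rw [Real.exp_neg, ← ht, inv_eq_one_div, le_div_iff₀' (by linarith)]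
      exact h2.le

end Pool.Agent.MP_4b405e_nt.Geo
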