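import Mathlib

/-! The potential of a form: real sequences. -/

namespace Pool.Agent.MP_4b405e_nt.EP

open Real Finset

/-- Logarithm clamped to `[lo, hi]`, shifted to `[0, hi - lo]`. -/
noncomputable def cl (lo hi y : ℝ) : ℝ := log (min (max y (exp lo)) (exp hi)) - lo

section cl

variable {lo hi y y' b : ℝ}

theorem cl_pos' : 0 < min (max y (exp lo)) (exp hi) :=
  lt_min (lt_max_of_lt_right (exp_pos _)) (exp_pos _)

theorem cl_mono (h : y ≤ y') : cl lo hi y ≤ cl lo hi y' :=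
  sub_le_sub_right (log_le_log cl_pos' (min_le_min (max_le_max h le_rfl) le_rfl)) _

theorem cl_le : cl lo hi y ≤ hi - lo :=
  sub_le_sub_right ((log_le_iff_le_exp cl_pos').2 (min_le_right _ _)) _

theorem cl_low (h : lo ≤ hi) (hy : y ≤ exp lo) : cl lo hi y = 0 := by
  rw [cl, max_eq_right hy, min_eq_left (exp_le_exp.2 h), log_exp, sub_self]

theorem cl_high (hy : exp hi ≤ y) : cl lo hi y = hi - lo := by
  rw [cl, min_eq_right (le_max_of_le_left hy), log_exp]

theorem cl_nonneg (h : lo ≤ hi) : 0 ≤ cl lo hi y := by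
  rcases le_total y (exp lo) with a | a
  · exact (cl_low h a).ge
  · exact (cl_low h le_rfl).ge.trans (cl_mono a)

theorem cl_lip (hb : 0 ≤ b) (h : exp (-b) * y ≤ y') : cl lo hi y - cl lo hi y' ≤ b := by
  have e1 : exp (-b) ≤ 1 := exp_le_one_iff.2 (by linarith)
  have e0 := exp_pos (-b)
  have : exp (-b) * min (max y (exp lo)) (exp hi) ≤ min (max y' (exp lo)) (exp hi) := by
    rw [mul_min_of_nonneg _ _ e0.le, mul_max_of_nonneg _ _ e0.le]
    exact min_le_min (max_le_max h (mul_le_of_le_one_left (exp_pos _).le e1))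
      (mul_le_of_le_one_left (exp_pos _).le e1)
  have := log_le_log (mul_pos e0 cl_pos') this
  rw [log_mul e0.ne' cl_pos'.ne', log_exp] at this
  unfold cl
  linarith

theorem cl_drop (hb : 0 ≤ b) (h1 : exp (lo + b) ≤ y) (h2 : y ≤ exp hi) (h : y' ≤ exp (-b) * y) :
    cl lo hi y' ≤ cl lo hi y - b := by
  have y0 : 0 < y := (exp_pos _).trans_le h1
  have a : exp lo ≤ exp (-b) * y := by
    have := mul_le_mul_of_nonneg_left h1 (exp_pos (-b)).le
    rwa [← exp_add, show -b + (lo + b) = lo by ring] at this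
  have a' : exp lo ≤ y := (exp_le_exp.2 (by linarith)).trans h1
  have := log_le_log (cl_pos' (y := y') (lo := lo) (hi := hi)) ((min_le_left _ _).trans (max_le h a))
  rw [log_mul (exp_pos _).ne' y0.ne', log_exp] at this
  rw [cl, cl, max_eq_left a', min_eq_left h2]
  linarith

end cl

open Classical in
/-- The excess. -/
noncomputable def Yv (a y : ℝ) : ℝ := if y ≤ 1 then 0 else log y + a

section Y

variable {a x y y' e : ℝ}

theorem Yv_low (h : y ≤ 1) : Yv a y = 0 := if_pos h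

theorem Yv_high (h : 1 < y) : Yv a y = log y + a := if_neg h.not_ge

theorem Yv_nonneg (ha : 0 ≤ a) : 0 ≤ Yv a y := by
  rcases le_or_gt y 1 with h | h
  · exact (Yv_low h).ge
  · rw [Yv_high h]; linarith [log_nonneg h.le]

theorem Yv_mono (ha : 0 ≤ a) (h : y' ≤ y) : Yv a y' ≤ Yv a y := by
  rcases le_or_gt y' 1 with c | c
  · rw [Yv_low c]; exact Yv_nonneg ha
  · rw [Yv_high c, Yv_high (c.trans_le h)]
    linarith [log_le_log (one_pos.trans c) h]

theorem Yv_le (ha : 0 ≤ a) (hx : 0 ≤ x) (h : y ≤ exp x) : Yv a y ≤ x + a := by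
  rcases le_or_gt y 1 with c | c
  · rw [Yv_low c]; linarith
  · rw [Yv_high c]; linarith [(log_le_iff_le_exp (one_pos.trans c)).2 h]

theorem Yv_drop (hy : 1 < y) (h : y' ≤ exp (-a) * y + 2 * e) (he : e ≤ 1 / 4) :
    Yv a y' ≤ Yv a y - (a - 1) := by
  rw [Yv_high hy]
  rcases le_or_gt y' 1 with c | c
  · rw [Yv_low c]; linarith [log_nonneg hy.le]
  · have y0 := one_pos.trans hy
    have := log_le_log (one_pos.trans c) (show y' ≤ 2 * (exp (-a) * y) by linarith)
    rw [log_mul two_ne_zero (mul_pos (exp_pos _) y0).ne', log_mul (exp_pos _).ne' y0.ne',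
      log_exp] at this
    rw [Yv_high c]
    linarith [log_two_lt_d9]

end Y

/-- The windows that are still ahead. -/
noncomputable def Lam (n : ℕ) (β a : ℝ) (i : ℕ) (z : ℕ → ℝ) : ℝ :=
  ∑ k ∈ Ico i n, cl (-β) (-a) (z k)

/-- The excess at the box `i`. -/
noncomputable def Yi (n : ℕ) (a : ℝ) (i : ℕ) (z : ℕ → ℝ) : ℝ := if i < n then Yv a (z i) else 0

noncomputable def Zf (n : ℕ) (β a c : ℝ) (i : ℕ) (z : ℕ → ℝ) : ℝ := Yi n a i z - c * Lam n β a i z

/-- The first box in which the section is small. -/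
noncomputable def i0 (n : ℕ) (I : Finset ℕ) (β : ℝ) (e : ℕ → ℝ) : ℕ :=
  sInf {i | i = n ∨ (i ∈ I ∧ e i ≤ exp (-(2 * β)))}

/-- The potential. -/
noncomputable def Zp (n : ℕ) (I : Finset ℕ) (β a c : ℝ) (z e : ℕ → ℝ) : ℝ :=
  Zf n β a c (i0 n I β e) z

/-- A geometrically decreasing sequence. -/
structure Dec (n : ℕ) (β : ℝ) (z : ℕ → ℝ) : Prop where
  pos : ∀ k, 0 ≤ z k
  nest : ∀ k < n, z (k + 1) ≤ exp (-(12 * β)) * z k

variable {n i i' k k' : ℕ} {I : Finset ℕ} {β a c C b g x : ℝ} {z z' e e' : ℕ → ℝ}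

theorem Dec.anti (h : Dec n β z) (hβ : 0 ≤ β) (hk : k ≤ k') (hn : k' ≤ n) : z k' ≤ z k := by
  induction k', hk using Nat.le_induction with
  | base => exact le_rfl
  | succ m _ ih =>
    exact ((h.nest m hn).trans (mul_le_of_le_one_left (h.pos m)
      (exp_le_one_iff.2 (by linarith)))).trans (ih (by omega))

theorem Dec.lt (h : Dec n β z) (hβ : 0 ≤ β) (hk : k < k') (hn : k' ≤ n) :
    z k' ≤ exp (-(12 * β)) * z k :=
  (h.anti hβ hk hn).trans (h.nest k (by omega))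

theorem Dec.pow (h : Dec n β z) (hk : k ≤ k') (hn : k' ≤ n) :
    z k' ≤ exp (-(12 * β * (k' - k : ℕ))) * z k := by
  induction k', hk using Nat.le_induction with
  | base => simp
  | succ m hm ih =>
    refine (h.nest m hn).trans ((mul_le_mul_of_nonneg_left (ih (by omega)) (exp_pos _).le).trans
      (le_of_eq ?_))
    rw [← mul_assoc, ← exp_add, Nat.sub_add_comm hm]
    push_cast
    ring_nf

theorem i0_le : i0 n I β e ≤ n := Nat.sInf_le (Or.inl rfl)

theorem i0_le' (hi : i ∈ I) (h : e i ≤ exp (-(2 * β))) : i0 n I β e ≤ i :=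
  Nat.sInf_le (Or.inr ⟨hi, h⟩)

theorem i0_mem (h : i0 n I β e < n) : i0 n I β e ∈ I ∧ e (i0 n I β e) ≤ exp (-(2 * β)) :=
  (Nat.sInf_mem (s := {i | i = n ∨ (i ∈ I ∧ e i ≤ exp (-(2 * β)))}) ⟨n, Or.inl rfl⟩).resolve_left
    h.ne

theorem i0_mono (h : ∀ k, e' k ≤ e k) : i0 n I β e' ≤ i0 n I β e := by
  rcases (i0_le (n := n) (I := I) (β := β) (e := e)).eq_or_lt with c | c
  · rw [c]; exact i0_le
  · exact i0_le' (i0_mem c).1 ((h _).trans (i0_mem c).2)

theorem i0_small (h : Dec n β e) (hβ : 0 ≤ β) (hk : i0 n I β e ≤ k) (hn : k < n) :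
    e k ≤ exp (-(2 * β)) :=
  (h.anti hβ hk hn.le).trans (i0_mem (hk.trans_lt hn)).2

theorem i0_eq (h : Dec n β e) (hβ : 0 < β) (hi : i ∈ I) (hn : i < n) (h1 : exp (-(4 * β)) ≤ e i)
    (h2 : e i ≤ exp (-(2 * β))) : i0 n I β e = i := by
  refine (i0_le' hi h2).eq_or_lt.resolve_right fun c => ?_
  have := h1.trans ((h.lt hβ.le c hn.le).trans
    (mul_le_mul_of_nonneg_left (i0_mem (c.trans hn)).2 (exp_pos _).le))
  rw [← exp_add, exp_le_exp] at this
  linarith

theorem Yi_nonneg (ha : 0 ≤ a) : 0 ≤ Yi n a i z := by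
  unfold Yi; split_ifs
  · exact Yv_nonneg ha
  · exact le_rfl

theorem Yi_mono (ha : 0 ≤ a) (h : ∀ k, z' k ≤ z k) : Yi n a i z' ≤ Yi n a i z := by
  unfold Yi; split_ifs
  · exact Yv_mono ha (h i)
  · exact le_rfl

theorem Lam_nonneg (ha : a ≤ β) : 0 ≤ Lam n β a i z :=
  sum_nonneg fun _ _ => cl_nonneg (by linarith)

/-- New boxes do not raise the potential. -/
theorem birth (h : Dec n β z) (ha : 0 ≤ a) (hb : a ≤ β) (hc0 : 0 ≤ c)
    (hc : C * β + a ≤ c * (β - a)) (hi : i' ≤ i) (hn : i ≤ n) (hn' : i' < n)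
    (hd : ∀ k, i' ≤ k → k ≤ n → z i' ≤ exp (C * β * (k - i' : ℕ)) * z k) (ht : z n ≤ 1) :
    Zf n β a c i' z ≤ Zf n β a c i z := by
  classical
  have sp : Lam n β a i' z = ∑ k ∈ Ico i' i, cl (-β) (-a) (z k) + Lam n β a i z :=
    (sum_Ico_consecutive _ hi hn).symm
  have c0 : ∀ k, 0 ≤ cl (-β) (-a) (z k) := fun _ => cl_nonneg (by linarith)
  have y0 : 0 ≤ Yi n a i z := Yi_nonneg ha
  have ex : ∃ k, i' ≤ k ∧ (z k ≤ 1 ∨ k = i) := ⟨i, hi, Or.inr rfl⟩
  obtain ⟨m1, m2⟩ := Nat.find_spec ex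
  have m3 : Nat.find ex ≤ i := Nat.find_min' ex ⟨hi, Or.inr rfl⟩
  have m4 : ∀ k ∈ Ico i' (Nat.find ex), cl (-β) (-a) (z k) = β - a := fun k hk => by
    have := Nat.find_min ex (mem_Ico.1 hk).2
    rw [cl_high ((exp_le_one_iff.2 (by linarith)).trans (le_of_not_ge fun c =>
      this ⟨(mem_Ico.1 hk).1, Or.inl c⟩))]
    ring
  set m := Nat.find ex
  have s1 : ((m - i' : ℕ) : ℝ) * (β - a) ≤ ∑ k ∈ Ico i' i, cl (-β) (-a) (z k) := by
    refine le_trans (le_of_eq ?_)
      (sum_le_sum_of_subset_of_nonneg (Ico_subset_Ico_right m3) fun k _ _ => c0 k)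
    rw [sum_congr rfl m4, sum_const, Nat.card_Ico, nsmul_eq_mul]
  have s2 := mul_le_mul_of_nonneg_left s1 hc0
  have s3 := mul_le_mul_of_nonneg_left hc (Nat.cast_nonneg (α := ℝ) (m - i'))
  have s4 : 0 ≤ ((m - i' : ℕ) : ℝ) * a := by positivity
  have key : Yi n a i' z ≤ Yi n a i z + c * ∑ k ∈ Ico i' i, cl (-β) (-a) (z k) := by
    rw [Yi, if_pos hn']
    rcases le_or_gt (z i') 1 with u | u
    · rw [Yv_low u]
      exact add_nonneg y0 (mul_nonneg hc0 (sum_nonneg fun k _ => c0 k))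
    rw [Yv_high u]
    have d := hd m m1 (m3.trans hn)
    rcases le_or_gt (z m) 1 with v | v
    · have m5 : (1 : ℝ) ≤ (m - i' : ℕ) := by
        have : i' ≠ m := fun e => by rw [← e] at v; linarith
        exact_mod_cast (show 1 ≤ m - i' by omega)
      have := (log_le_iff_le_exp (one_pos.trans u)).2
        (d.trans (mul_le_of_le_one_right (exp_pos _).le v))
      nlinarith
    · have e : m = i := m2.resolve_left v.not_ge
      have lt : i < n := hn.lt_of_ne fun c => by rw [e, c] at v; linarith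
      have := log_le_log (one_pos.trans u) d
      rw [log_mul (exp_pos _).ne' (one_pos.trans v).ne', log_exp] at this
      rw [Yi, if_pos lt, Yv_high (e ▸ v), ← e]
      rw [← e] at s2
      nlinarith
  unfold Zf
  rw [sp]
  linarith

/-- One step moves at most one window. -/
theorem one (h : Dec n β z) (ha : 0 ≤ a) (hb : a ≤ β) (h1 : ∀ k, z' k ≤ z k)
    (h2 : ∀ k, exp (-(6 * β)) * z k ≤ z' k) (hb0 : 0 ≤ b)
    (h3 : ∀ k ∈ Ico i n, cl (-β) (-a) (z k) - cl (-β) (-a) (z' k) ≤ b) :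
    Lam n β a i z - Lam n β a i z' ≤ b := by
  have β0 : 0 ≤ β := ha.trans hb
  have mv : ∀ k, cl (-β) (-a) (z k) - cl (-β) (-a) (z' k) ≠ 0 → z' k < 1 ∧ exp (-β) < z k :=
    fun k hk => ⟨lt_of_not_ge fun c => hk (by
      have : exp (-a) ≤ z' k := (exp_le_one_iff.2 (by linarith)).trans c
      rw [cl_high this, cl_high (this.trans (h1 k)), sub_self]), lt_of_not_ge fun c => hk (by
      rw [cl_low (by linarith) c, cl_low (by linarith) ((h1 k).trans c), sub_self])⟩
  have two : ∀ k k', k < k' → k' < n → z' k < 1 → exp (-β) < z k' → False :=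
    fun k k' u v p q => by
      have s := h.lt β0 u v.le
      have t := mul_le_mul_of_nonneg_left (h2 k) (exp_pos (-(6 * β))).le
      rw [← mul_assoc, ← exp_add, show -(6 * β) + -(6 * β) = -(12 * β) by ring] at t
      have w : exp (-(6 * β)) ≤ exp (-β) := exp_le_exp.2 (by linarith)
      nlinarith [exp_pos (-(6 * β))]
  rw [Lam, Lam, ← sum_sub_distrib]
  by_cases c : ∃ k ∈ Ico i n, cl (-β) (-a) (z k) - cl (-β) (-a) (z' k) ≠ 0
  · obtain ⟨k, hk, u⟩ := c
    rw [sum_eq_single_of_mem k hk fun k' hk' ne => by_contra fun v => ?_]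
    · exact h3 k hk
    · rcases lt_or_gt_of_ne ne with w | w
      · exact two k' k w (mem_Ico.1 hk).2 (mv _ v).1 (mv _ u).2
      · exact two k k' w (mem_Ico.1 hk').2 (mv _ u).1 (mv _ v).2
  · push Not at c
    rw [sum_eq_zero c]
    exact hb0

theorem Lam_le (h : Dec n β z) (ha : 0 ≤ a) (hb : a ≤ β) (hi : i ≤ n) (hx : z i ≤ exp x) :
    Lam n β a i z ≤ if x ≤ -β then 0 else (x + β) / 12 + β := by
  have β0 : 0 ≤ β := ha.trans hb
  induction hi using Nat.decreasingInduction generalizing x with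
  | self => rw [Lam, Ico_self, sum_empty]; split_ifs <;> linarith
  | of_succ k hk ih =>
    have u : z (k + 1) ≤ exp (x - 12 * β) := by
      refine (h.nest k hk).trans ((mul_le_mul_of_nonneg_left hx (exp_pos _).le).trans_eq ?_)
      rw [← exp_add]; ring_nf
    have v := ih u
    have w : cl (-β) (-a) (z k) ≤ β := cl_le.trans (by linarith)
    rw [Lam, sum_eq_sum_Ico_succ_bot hk]
    rw [Lam] at v
    split_ifs with c
    · rw [if_pos (by linarith)] at v
      rw [cl_low (by linarith) (hx.trans (exp_le_exp.2 c))]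
      linarith
    · split_ifs at v <;> linarith

/-- Sizes of a form in the boxes: whole body `z`, section `e`. -/
structure Sq (n : ℕ) (I : Finset ℕ) (β C : ℝ) (z e : ℕ → ℝ) : Prop where
  dz : Dec n β z
  de : Dec n β e
  dens : ∀ i ∈ I, ∀ k, i ≤ k → k ≤ n → z i ≤ exp (C * β * (k - i : ℕ)) * z k
  top : ∀ i ∈ I, e i ≤ exp (-(2 * β)) → z n ≤ 1

/-- The change of the potential in one step. -/
theorem Zp_step (h : Sq n I β C z e) (h' : Sq n I β C z' e') (ha : 0 ≤ a) (hb : a ≤ β)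
    (hc0 : 0 ≤ c) (hc : C * β + a ≤ c * (β - a)) (h1 : ∀ k, z' k ≤ z k)
    (h2 : ∀ k, exp (-(6 * β)) * z k ≤ z' k) (he : ∀ k, e' k ≤ e k) (hb0 : 0 ≤ b)
    (h3 : ∀ k ∈ Ico (i0 n I β e) n, cl (-β) (-a) (z k) - cl (-β) (-a) (z' k) ≤ b)
    (hg : Yi n a (i0 n I β e) z' ≤ Yi n a (i0 n I β e) z - g) :
    Zp n I β a c z' e' ≤ Zp n I β a c z e + c * b - g := by
  have s1 : Zp n I β a c z' e' ≤ Zf n β a c (i0 n I β e) z' := by
    have m : i0 n I β e' ≤ i0 n I β e := i0_mono he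
    rcases (i0_le (n := n) (I := I) (β := β) (e := e')).eq_or_lt with u | u
    · rw [Zp, le_antisymm m (i0_le.trans u.ge)]
    · exact birth h'.dz ha hb hc0 hc m i0_le u (h'.dens _ (i0_mem u).1)
        (h'.top _ (i0_mem u).1 (i0_mem u).2)
  have s2 := mul_le_mul_of_nonneg_left (one h.dz ha hb h1 h2 hb0 h3) hc0
  unfold Zp Zf at *
  linarith

theorem Zp_le (ha : 0 ≤ a) (hb : a ≤ β) (hc0 : 0 ≤ c) (hx : 0 ≤ x)
    (h : ∀ i ∈ I, e i ≤ exp (-(2 * β)) → z i ≤ exp x) : Zp n I β a c z e ≤ x + a := by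
  have := mul_nonneg hc0 (Lam_nonneg (n := n) (i := i0 n I β e) (z := z) hb)
  have u : Yi n a (i0 n I β e) z ≤ x + a := by
    unfold Yi; split_ifs with c
    · exact Yv_le ha hx (h _ (i0_mem c).1 (i0_mem c).2)
    · linarith
  unfold Zp Zf
  linarith

theorem le_Zp (hz : Dec n β z) (ha : 0 ≤ a) (hb : a ≤ β) (hc0 : 0 ≤ c) (hx : 0 ≤ x)
    (h : ∀ i ∈ I, e i ≤ exp (-(2 * β)) → z i ≤ exp x) :
    -(c * (x / 12 + 2 * β)) ≤ Zp n I β a c z e := by
  have β0 : 0 ≤ β := ha.trans hb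
  have u : Lam n β a (i0 n I β e) z ≤ x / 12 + 2 * β := by
    rcases (i0_le (n := n) (I := I) (β := β) (e := e)).eq_or_lt with v | v
    · rw [v, Lam, Ico_self, sum_empty]; linarith
    · refine (Lam_le hz ha hb i0_le (h _ (i0_mem v).1 (i0_mem v).2)).trans ?_
      split_ifs <;> linarith
  have := mul_le_mul_of_nonneg_left u hc0
  have := Yi_nonneg (n := n) (i := i0 n I β e) (z := z) ha
  unfold Zp Zf
  linarith

end Pool.Agent.MP_4b405e_nt.EP
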