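import Mathlib

/-! Disjoint windows of levels. -/

namespace Pool.Agent.MP_4b405e_nt.EB

open Real Finset

theorem win_one {y : ℕ → ℝ} {U : ℕ} {h β : ℝ} (h0 : 0 < h) (hβ : 2 + h ≤ β)
    (y0 : exp (-1 - 2 * β) < y 0) (yU : y U ≤ exp (-(4 * β)))
    (sl : ∀ j, y j ≤ exp h * y (j + 1)) :
    ∃ W : Finset ℕ, W ⊆ range U ∧ β ≤ h * W.card ∧
      ∀ j ∈ W, exp (1 - 4 * β) ≤ y j ∧ y j ≤ exp (-1 - 2 * β) := by
  classical
  have it : ∀ j m : ℕ, y j ≤ exp (h * m) * y (j + m) := fun j m => by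
    induction m with
    | zero => simp
    | succ m ih =>
      refine ih.trans ((mul_le_mul_of_nonneg_left (sl (j + m)) (exp_pos _).le).trans (le_of_eq ?_))
      rw [← mul_assoc, ← exp_add, add_assoc]
      push_cast
      ring_nf
  set j₁ := Nat.findGreatest (fun j => exp (-1 - 2 * β) < y j) U with hj
  have a1 : exp (-1 - 2 * β) < y j₁ :=
    Nat.findGreatest_spec (P := fun j => exp (-1 - 2 * β) < y j) (Nat.zero_le U) y0
  have a0 : j₁ ≤ U := Nat.findGreatest_le U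
  set m := ⌊(2 * β - 2) / h⌋₊ with hm
  have m1 : h * m ≤ 2 * β - 2 := by
    have := Nat.floor_le (a := (2 * β - 2) / h) (div_nonneg (by linarith) h0.le)
    rwa [le_div_iff₀ h0, mul_comm] at this
  have m2 : 2 * β - 2 < h * (m + 1) := by
    have := Nat.lt_floor_add_one ((2 * β - 2) / h)
    rwa [div_lt_iff₀ h0, mul_comm _ h] at this
  have lo : ∀ t ≤ m, exp (1 - 4 * β) ≤ y (j₁ + t) := fun t ht => by
    have b1 := a1.le.trans (it j₁ t)
    have b2 : h * t ≤ h * m := mul_le_mul_of_nonneg_left (by exact_mod_cast ht) h0.le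
    refine le_of_mul_le_mul_left (le_trans ?_ b1) (exp_pos _)
    rw [← exp_add]
    exact exp_le_exp.2 (by linarith)
  have up : j₁ + m < U := by
    by_contra hn
    have b1 := lo (U - j₁) (by omega)
    rw [Nat.add_sub_cancel' a0] at b1
    have := exp_le_exp.1 (b1.trans yU)
    linarith
  refine ⟨Ioc j₁ (j₁ + m), fun j hj => ?_, ?_, fun j hj => ?_⟩
  · rw [mem_Ioc] at hj
    exact mem_range.2 (by omega)
  · rw [Nat.card_Ioc, Nat.add_sub_cancel_left]
    linarith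
  · rw [mem_Ioc] at hj
    refine ⟨?_, not_lt.1 (Nat.findGreatest_is_greatest (P := fun j => exp (-1 - 2 * β) < y j)
      hj.1 (by omega))⟩
    have := lo (j - j₁) (by omega)
    rwa [Nat.add_sub_cancel' hj.1.le] at this

/-- For a set `J` of boxes: a set `W` of levels and a box for each level. -/
theorem win {y : ℕ → ℕ → ℝ} {U : ℕ} {h β : ℝ} {J : Finset ℕ} (h0 : 0 < h) (hβ : 2 + h ≤ β)
    (hJ : J.Nonempty) (y0 : ∀ i ∈ J, exp (-1 - 2 * β) < y i 0)
    (yU : ∀ i ∈ J, y i U ≤ exp (-(4 * β))) (sl : ∀ i ∈ J, ∀ j, y i j ≤ exp h * y i (j + 1))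
    (sep : ∀ i ∈ J, ∀ i' ∈ J, i < i' → ∀ j, y i' j ≤ exp (-(2 * β)) * y i j) :
    ∃ (W : Finset ℕ) (i : ℕ → ℕ), W ⊆ range U ∧ (∀ j, i j ∈ J) ∧ β * J.card ≤ h * W.card ∧
      ∀ j ∈ W, exp (1 - 4 * β) ≤ y (i j) j ∧ y (i j) j ≤ exp (-1 - 2 * β) := by
  classical
  choose! V v1 v2 v3 using fun i (hi : i ∈ J) => win_one h0 hβ (y0 i hi) (yU i hi) (sl i hi)
  have key : ∀ i ∈ J, ∀ i' ∈ J, i < i' → Disjoint (V i) (V i') := fun i hi i' hi' lt => by
    rw [disjoint_left]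
    intro j a b
    have c := ((v3 i' hi' j b).1.trans (sep i hi i' hi' lt j)).trans
      (mul_le_mul_of_nonneg_left (v3 i hi j a).2 (exp_pos _).le)
    rw [← exp_add, exp_le_exp] at c
    linarith
  have ex : ∀ j, ∃ i ∈ J, j ∈ J.biUnion V → j ∈ V i := fun j => by
    by_cases hj : j ∈ J.biUnion V
    · obtain ⟨i, a, b⟩ := mem_biUnion.1 hj
      exact ⟨i, a, fun _ => b⟩
    · exact ⟨_, hJ.choose_spec, fun k => absurd k hj⟩
  choose i i1 i2 using ex
  refine ⟨J.biUnion V, i, biUnion_subset.2 v1, i1, ?_, fun j hj => v3 _ (i1 j) j (i2 j hj)⟩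
  rw [card_biUnion fun a ha b hb ne => (lt_or_gt_of_ne ne).elim (key a ha b hb)
    fun l => (key b hb a ha l).symm]
  push_cast
  rw [mul_sum, mul_comm, ← nsmul_eq_mul, ← sum_const]
  exact sum_le_sum v2

end Pool.Agent.MP_4b405e_nt.EB
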