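import Pool.Agent.MP_4b405e_nt.SK.EA
import Pool.Agent.MP_4b405e_nt.SK.ELab8
import Pool.Agent.MP_4b405e_nt.SK.EPot
import Pool.Agent.MP_4b405e_nt.SK.EWin

/-! The first run: states and their geometry. -/

namespace Pool.Agent.MP_4b405e_nt.EA

open Pool.Agent.MP_5168f5_an H19 H17S H17F Real MeasureTheory Pointwise
open EB (Vv)
open Geo (Sym)

variable {ι ι' ν T Ω : Type} [Fintype ι] [Fintype ι'] [Fintype ν]

noncomputable def lv (D : Set (Vv ι ι')) : ℝ := log (volume.real (Geo.shd D))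

noncomputable def lw (D : Set (Vv ι ι')) : ℝ := log (volume.real (Geo.sec D))

/-- The gain. -/
noncomputable def Gn (D : Set (Vv ι ι')) (a : ℝ) : ℝ :=
  Fintype.card ι' * lg - lv D - Fintype.card ι' * a

/-- The body contains the direction `o` and the ball of `ρ` at depth `d`. -/
def Bo (o : ι → ℝ) (D : Set (Vv ι ι')) (d : ℝ) : Prop :=
  ∀ (t : ℝ) (y : ι' → ℝ), |t| ≤ exp (-d) → ‖y‖ ≤ exp (-d) → ((t • o, y) : Vv ι ι') ∈ D

theorem vb_pi (ι : Type) [Fintype ι] :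
    Geo.vb (volume : Measure (ι → ℝ)) = 2 ^ Fintype.card ι := by
  unfold Geo.vb
  rw [Measure.real, Real.volume_pi_closedBall _ zero_le_one, ENNReal.toReal_ofReal (by positivity)]
  simp

theorem fr_pi (ι : Type) [Fintype ι] : Module.finrank ℝ (ι → ℝ) = Fintype.card ι :=
  Module.finrank_fintype_fun_eq_card ℝ

theorem log_ball (ι : Type) [Fintype ι] (x : ℝ) :
    log (exp x ^ Module.finrank ℝ (ι → ℝ) * Geo.vb (volume : Measure (ι → ℝ))) =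
      Fintype.card ι * (x + lg) := by
  rw [vb_pi, fr_pi, ← mul_pow, log_pow, log_mul (exp_pos _).ne' two_ne_zero, log_exp]; rfl

theorem exp_lg : exp lg = 2 := exp_log two_pos

section geo

variable {D D' : Set (Vv ι ι')} {a d b q s R s' R' : ℝ} {o : ι → ℝ}

theorem lv_le (h : Geo.Ok D s (exp (-a))) : lv D ≤ Fintype.card ι' * (-a + lg) := by
  rw [← log_ball]
  exact log_le_log (h.shd_pos volume) (Geo.real_le volume (exp_pos _).le h.shd_bd)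

theorem lv_ge (h : Geo.Ok D (exp (-d)) R) : Fintype.card ι' * (-d + lg) ≤ lv D := by
  rw [← log_ball]
  exact log_le_log (mul_pos (by positivity) (Geo.vb_pos _))
    (Geo.real_ge volume (exp_pos _).le h.shd_ball h.shd_bd)

theorem lw_le (h : Geo.Ok D s R) : lw D ≤ Fintype.card ι * lg := by
  have := log_ball ι 0
  rw [zero_add] at this
  rw [← this]
  exact log_le_log (h.sec_pos volume)
    (Geo.real_le volume (exp_pos _).le (by rw [exp_zero]; exact h.sec_bd))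

theorem lw_ge (h : Geo.Ok D (exp (-d)) R) : Fintype.card ι * (-d + lg) ≤ lw D := by
  rw [← log_ball]
  exact log_le_log (mul_pos (by positivity) (Geo.vb_pos _))
    (Geo.real_ge volume (exp_pos _).le h.sec_ball h.sec_bd)

theorem lv_mono (h : Geo.Ok D s R) (h' : Geo.Ok D' s' R') (hs : D' ⊆ D) : lv D' ≤ lv D :=
  log_le_log (h'.shd_pos volume) (h.shd_vol_mono volume hs)

theorem lw_mono (h : Geo.Ok D s R) (h' : Geo.Ok D' s' R') (hs : D' ⊆ D) : lw D' ≤ lw D :=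
  log_le_log (h'.sec_pos volume) (h.sec_vol_mono volume hs)

theorem lv_of (h : Geo.Ok D s R) (e : Geo.shd D' = exp (-b) • Geo.shd D) :
    lv D' = lv D - Fintype.card ι' * b := by
  unfold lv
  rw [e, Geo.real_smul volume (exp_pos _).le, log_mul (by positivity) (h.shd_pos volume).ne',
    log_pow, log_exp, fr_pi]
  ring

theorem lv_keep (h : Geo.Ok D s R) (h' : Geo.Ok D' s' R') (hb : 0 ≤ b) (hk : exp (-b) • D ⊆ D') :
    lv D - Fintype.card ι' * b ≤ lv D' := by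
  rw [← lv_of h (Geo.shd_smul _)]
  exact lv_mono h' (h.smul (exp_pos _) (exp_le_one_iff.2 (by linarith))) hk

theorem inrad (h : Geo.Ok D s (exp (-a))) (hq : 2 * (Fintype.card ι' : ℝ) + 4 ≤ q) (y : ι' → ℝ)
    (hy : ‖y‖ ≤ exp (-(a + Gn D a + q))) : y ∈ Geo.shd D := by
  refine Geo.inradius volume h.sym.shd (exp_pos (-a)) h.shd_bd (exp_pos _) ?_ y hy
  have e1 : volume.real (Geo.shd D) = exp (lv D) := (exp_log (h.shd_pos volume)).symm
  rw [e1, vb_pi, fr_pi, ← exp_lg]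
  simp only [← exp_add, ← exp_nat_mul]
  rw [exp_lt_exp]
  unfold Gn
  have h1 := lg_lt_one
  have h3 : (0 : ℝ) ≤ Fintype.card ι' := Nat.cast_nonneg _
  nlinarith

theorem Bo.mono (h : Bo o D d) {d' : ℝ} (hd : d ≤ d') : Bo o D d' := fun t y h1 h2 =>
  h t y (h1.trans (exp_le_exp.2 (by linarith))) (h2.trans (exp_le_exp.2 (by linarith)))

theorem Bo.snd (h : Bo o D d) (y : ι' → ℝ) (hy : ‖y‖ ≤ exp (-d)) : ((0, y) : Vv ι ι') ∈ D := by
  simpa using h 0 y (by simpa using (exp_pos _).le) hy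

theorem Bo.keep (h : Bo o D d) (hk : exp (-b) • D ⊆ D') : Bo o D' (d + b) := by
  intro t y h1 h2
  have e : exp (-d) = exp b * exp (-(d + b)) := by rw [← exp_add]; congr 1; ring
  refine hk ⟨((exp b * t) • o, exp b • y), h _ _ ?_ ?_, ?_⟩
  · rw [abs_mul, abs_of_pos (exp_pos _), e]
    exact mul_le_mul_of_nonneg_left h1 (exp_pos _).le
  · rw [norm_smul, Real.norm_of_nonneg (exp_pos _).le, e]
    exact mul_le_mul_of_nonneg_left h2 (exp_pos _).le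
  · simp [smul_smul, ← mul_assoc, ← exp_add]

theorem Bo.sg (h : Geo.Ok D s R) (hb : Bo o D d) (Φ : Vv ι ι' →L[ℝ] (ν → ℝ)) :
    ‖Φ (o, 0)‖ ≤ exp d * Geo.es Φ D := by
  refine h.le_es_smul Φ (exp_pos _) ⟨(exp (-d) • o, 0), hb _ 0 ?_ ?_, ?_⟩
  · rw [abs_of_pos (exp_pos _)]
  · simpa using (exp_pos _).le
  · simp [smul_smul, ← exp_add]

theorem Bo.exc (h : Geo.Ok D s (exp (-a))) (hb : Bo o D d) (Φ : Vv ι ι' →L[ℝ] (ν → ℝ)) {g : ℝ}
    (had : a ≤ d) (hg : 0 ≤ g) (hup : ∀ y, ‖Φ (0, y)‖ ≤ ‖Φ (o, 0)‖ * exp g * ‖y‖) :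
    Geo.sz Φ D ≤ exp (d - a + g + 2) * Geo.es Φ D := by
  have e0 : 0 ≤ Geo.es Φ D := Geo.sz_nonneg _ _
  have h1 := hb.sg h Φ
  refine Geo.sz_le _ (by positivity) fun x hx => ?_
  have h2 : ((0, x.2) : Vv ι ι') ∈ exp (d - a) • D := by
    refine ⟨(0, exp (a - d) • x.2), hb.snd _ ?_, by simp [smul_smul, ← exp_add]⟩
    rw [norm_smul, Real.norm_of_nonneg (exp_pos _).le, show -d = a - d + -a by ring, exp_add]
    exact mul_le_mul_of_nonneg_left (h.out x hx) (exp_pos _).le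
  have h3 := h.sym.sub_mem zero_le_one (exp_pos _).le (x := x) (by simpa using hx) h2
  have h4 : x - (0, x.2) = (x.1, 0) := by ext <;> simp
  rw [h4] at h3
  have h5 : ‖Φ (x.1, 0)‖ ≤ (1 + exp (d - a)) * Geo.es Φ D := h.le_es_smul Φ (by positivity) h3
  have h6 : ‖Φ (0, x.2)‖ ≤ exp (d - a + g) * Geo.es Φ D := by
    calc _ ≤ ‖Φ (o, 0)‖ * exp g * ‖x.2‖ := hup _
      _ ≤ exp d * Geo.es Φ D * exp g * exp (-a) := by gcongr; exact h.out x hx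
      _ = _ := by rw [show d - a + g = d + g + -a by ring, exp_add, exp_add]; ring
  have h7 : Φ x = Φ (x.1, 0) + Φ (0, x.2) := by rw [← map_add]; simp
  have h8 := norm_add_le (Φ (x.1, 0)) (Φ (0, x.2))
  rw [← h7] at h8
  have h9 : 1 ≤ exp (d - a + g) := one_le_exp (by linarith)
  have h10 : exp (d - a) ≤ exp (d - a + g) := exp_le_exp.2 (by linarith)
  have h11 : 3 * exp (d - a + g) ≤ exp (d - a + g + 2) := by
    rw [exp_add _ 2, mul_comm]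
    exact mul_le_mul_of_nonneg_left (by linarith [add_one_le_exp (2 : ℝ)]) (exp_pos _).le
  nlinarith

theorem le_exp_q {n : ℕ} (hq : 2 * (n : ℝ) + 4 ≤ q) : 5 * 2 ^ n ≤ exp q := by
  have h1 : (2 : ℝ) ^ n = exp (n * lg) := by rw [exp_nat_mul, exp_lg]
  have h2 : 5 ≤ exp 4 := by linarith [add_one_le_exp (4 : ℝ)]
  have h3 : (0 : ℝ) ≤ n := Nat.cast_nonneg _
  calc _ ≤ exp 4 * exp (n * lg) := by rw [h1]; gcongr
    _ ≤ _ := by rw [← exp_add]; exact exp_le_exp.2 (by nlinarith [lg_lt_one])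

theorem log_drop {v v' x : ℝ} (h0 : 0 < v') (h : v' ≤ exp x * v) : log v' ≤ x + log v := by
  have : 0 < v := (mul_pos_iff_of_pos_left (exp_pos x)).1 (h0.trans_le h)
  have k := log_le_log h0 h
  rwa [log_mul (exp_pos _).ne' this.ne', log_exp] at k

/-- The local slab lemma. -/
theorem loc (h : Geo.Ok D s R) (h' : Geo.Ok D' s' R') (hs : D' ⊆ D) (Φ : Vv ι ι' →L[ℝ] (ν → ℝ))
    {β hi : ℝ} (hβ : 2 ≤ β) (hq : 2 * (Fintype.card ι' : ℝ) + 4 ≤ q)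
    (he : Geo.es Φ D ≤ exp (-(2 * β))) :
    EP.cl (-β) hi (Geo.sz Φ D) - EP.cl (-β) hi (Geo.sz Φ D') ≤ lv D - lv D' + q := by
  have m0 : 0 < max (Geo.sz Φ D') (exp (-β)) := lt_max_of_lt_right (exp_pos _)
  have e3 : 3 * Geo.es Φ D ≤ exp (-β) := by
    have a1 : exp (-β) = exp β * exp (-(2 * β)) := by rw [← exp_add]; congr 1; ring
    nlinarith [add_one_le_exp β, exp_pos (-(2 * β))]
  have k := h.loc_slab Φ volume h'.sym hs m0 (le_max_left _ _) (e3.trans (le_max_right _ _))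
  have e : EP.cl (-β) hi (Geo.sz Φ D') = EP.cl (-β) hi (max (Geo.sz Φ D') (exp (-β))) := by
    simp [EP.cl]
  have n0 : (0 : ℝ) ≤ Fintype.card ι' := Nat.cast_nonneg _
  rw [e]
  refine EP.cl_lip (by linarith [lv_mono h h' hs]) ?_
  have e1 : volume.real (Geo.shd D) = exp (lv D) := (exp_log (h.shd_pos volume)).symm
  have e2 : volume.real (Geo.shd D') = exp (lv D') := (exp_log (h'.shd_pos volume)).symm
  rw [e1, e2, fr_pi] at k
  have k2 := le_exp_q hq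
  have e4 : exp (-(lv D - lv D' + q)) * (exp q * exp (lv D)) = exp (lv D') := by
    rw [← exp_add, ← exp_add]; congr 1; ring
  refine le_of_mul_le_mul_right ?_ (mul_pos (exp_pos q) (exp_pos (lv D)))
  rw [mul_right_comm, e4, mul_comm]
  refine k.trans ?_
  rw [← mul_assoc]
  refine mul_le_mul_of_nonneg_right ?_ (exp_pos _).le
  have : (0 : ℝ) < 2 ^ Fintype.card ι' := by positivity
  nlinarith

end geo

/-- The constants. -/
structure Pm where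
  κ : ℝ
  ρ : ℝ
  C : ℝ
  A : ℝ
  β : ℝ
  r : ℝ
  L : ℝ
  q : ℝ
  c : ℝ
  u : ℝ
  γ : ℝ
  a : ℝ
  v : ℝ
  w : ℝ
  K : ℝ
  ε : ℝ
  R : ℕ

/-- The relations between the constants. -/
structure Pm.Ok (p : Pm) (N : ℝ) : Prop where
  κ0 : 0 < p.κ
  ρ0 : 0 < p.ρ
  A1 : 1 ≤ p.A
  hq : 2 * N + 4 ≤ p.q
  c0 : 0 ≤ p.c
  hc : p.C * p.β + p.a ≤ p.c * (p.β - p.a)
  u0 : 0 ≤ p.u
  u1 : 4 * p.u ≤ 1
  hu : 4 * (p.u * p.c) ≤ 1
  γ0 : 0 ≤ p.γ
  γ1 : 4 * p.γ ≤ 1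
  a2 : 2 ≤ p.a
  aβ : p.a + 1 ≤ p.β
  βκ : 2 + p.κ ≤ p.β
  βq : 8 + 4 * p.q ≤ p.β
  v1 : p.v ≤ 1
  w0 : 0 < p.w
  hw : 20 * p.w ≤ p.v
  vβ : 4 + 4 * p.q ≤ p.v * p.β
  K0 : 0 < p.K
  hK : 2 * (p.q * (3 * p.β + 1) + 7 * p.β) ≤ p.ε * p.w * p.K
  hP : p.q + p.γ * p.a + p.a * p.ε / 4 ≤ (p.a - 1) * p.u * (p.ρ - p.ε)
  rL : 2 * p.r ≤ p.L
  hL : 11 * p.β + 9 * (p.β * p.q) + p.q + 1 ≤ p.L
  hR : 6 * p.L ≤ p.R * lg

/-- The depth of the state. -/
noncomputable def dd (p : Pm) (D : Set (Vv ι ι')) (a : ℝ) : ℝ :=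
  a + 3 * Gn D a + (p.q + 2 * p.r + 5 * p.β + 1)

/-- A state. -/
structure Bd (X : Dat ι ι' ν T Ω) (p : Pm) (D : Set (Vv ι ι')) (a : ℝ) : Prop where
  ok : Geo.Ok D (exp (-(p.A * dd p D a))) (exp (-a))
  bo : Bo X.o D (dd p D a)
  a0 : 0 ≤ a
  a2 : a ≤ 2 * p.L
  d6 : dd p D a ≤ 6 * p.L

/-- All hypotheses. -/
structure Hy (X : Dat ι ι' ν T Ω) (p : Pm) : Prop where
  x : X.Ok p.κ p.ρ p.C p.A p.r p.β p.L
  p : p.Ok (Fintype.card ι + Fintype.card ι')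

noncomputable def Dat.z (X : Dat ι ι' ν T Ω) (D : Set (Vv ι ι')) (θ : T) (k : ℕ) : ℝ :=
  Geo.sz (X.Φ k θ) D

noncomputable def Dat.e (X : Dat ι ι' ν T Ω) (D : Set (Vv ι ι')) (θ : T) (k : ℕ) : ℝ :=
  Geo.es (X.Φ k θ) D

variable {X : Dat ι ι' ν T Ω} {p : Pm} {D D' : Set (Vv ι ι')} {a a' b : ℝ}

theorem Hy.q1 (H : Hy X p) : 2 * (Fintype.card ι : ℝ) + 4 ≤ p.q := by
  linarith [H.p.hq, Nat.cast_nonneg (α := ℝ) (Fintype.card ι')]

theorem Hy.q2 (H : Hy X p) : 2 * (Fintype.card ι' : ℝ) + 4 ≤ p.q := by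
  linarith [H.p.hq, Nat.cast_nonneg (α := ℝ) (Fintype.card ι)]

theorem Hy.q4 (H : Hy X p) : 4 ≤ p.q := by
  linarith [H.q1, Nat.cast_nonneg (α := ℝ) (Fintype.card ι)]

theorem Hy.β0 (H : Hy X p) : 24 ≤ p.β := by linarith [H.q4, H.p.βq]

theorem Hy.Lβ (H : Hy X p) : 11 * p.β ≤ p.L := by
  nlinarith [H.q4, H.β0, H.p.hL]

theorem Hy.lt (H : Hy X p) {i : ℕ} (hi : i ∈ X.I) : i < X.n := by
  by_contra k
  have := H.x.top i hi
  rw [Nat.sub_eq_zero_of_le (not_lt.1 k)] at this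
  simp only [Nat.cast_zero, mul_zero] at this
  linarith [H.Lβ, H.β0]

theorem Bd.g0 (h : Bd X p D a) : 0 ≤ Gn D a := by
  have := lv_le h.ok
  unfold Gn; linarith

theorem Bd.lw0 (H : Hy X p) (h : Bd X p D a) : 0 ≤ lw D + 3 * (p.A * p.q * p.L) := by
  have h1 := lw_ge h.ok
  have n0 : (0 : ℝ) ≤ Fintype.card ι := Nat.cast_nonneg _
  have h2 : p.A * dd p D a ≤ p.A * (6 * p.L) :=
    mul_le_mul_of_nonneg_left h.d6 (by linarith [H.p.A1])
  have h3 : 0 ≤ p.A * p.L := mul_nonneg (by linarith [H.p.A1]) (by linarith [H.Lβ, H.β0])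
  nlinarith [H.q1, lg_pos]

theorem Bd.sg6 (h : Bd X p D a) {θ : T} {k : ℕ} (he : X.e D θ k ≤ 1) :
    X.sg k θ ≤ exp (6 * p.L) :=
  (h.bo.sg h.ok _).trans ((mul_le_of_le_one_right (exp_pos _).le he).trans (exp_le_exp.2 h.d6))

theorem Bd.exc (H : Hy X p) (h : Bd X p D a) {θ : T} {i : ℕ} (hi : i ∈ X.I)
    (he : X.e D θ i ≤ exp (-(2 * p.β))) : X.z D θ i ≤ exp (dd p D a - a + p.r + 2) := by
  have h1 : X.e D θ i ≤ 1 := he.trans (exp_le_one_iff.2 (by linarith [H.β0]))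
  refine (h.bo.exc h.ok _ ?_ H.x.r0 (H.x.up i hi θ (h.sg6 h1))).trans
    (mul_le_of_le_one_right (exp_pos _).le h1)
  unfold dd
  linarith [h.g0, H.q4, H.x.r0, H.β0]

theorem Bd.sq (H : Hy X p) (h : Bd X p D a) (θ : T) :
    EP.Sq X.n X.I p.β p.C (X.z D θ) (X.e D θ) := by
  have dz : EP.Dec X.n p.β (X.z D θ) := ⟨fun k => Geo.sz_nonneg _ _, fun k hk =>
    Geo.sz_cmp _ _ h.ok.bd (exp_pos _).le (H.x.nest k hk θ)⟩
  refine ⟨dz, ⟨fun k => Geo.sz_nonneg _ _, fun k hk =>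
    h.ok.es_cmp _ _ (exp_pos _).le fun y => H.x.nest k hk θ _⟩, fun i hi k h1 h2 =>
    Geo.sz_cmp _ _ h.ok.bd (exp_pos _).le (H.x.dens i hi k h1 h2 θ), fun i hi he => ?_⟩
  refine (dz.pow (H.lt hi).le le_rfl).trans
    ((mul_le_mul_of_nonneg_left (h.exc H hi he) (exp_pos _).le).trans ?_)
  rw [← exp_add, exp_le_one_iff]
  linarith [H.x.top i hi, h.d6, h.a0, H.p.rL, H.Lβ, H.β0]

theorem Bd.win (H : Hy X p) (h : Bd X p D a) : ∃ (W : Finset ℕ) (i : ℕ → ℕ),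
    W ⊆ Finset.range X.U ∧ (∀ j, i j ∈ X.I) ∧ p.ρ ≤ (W.card : ℝ) / X.U ∧ ∀ θ, X.j θ ∈ W →
      exp (-(4 * p.β)) ≤ X.e D θ (i (X.j θ)) ∧ X.e D θ (i (X.j θ)) ≤ exp (-(2 * p.β)) := by
  have U0 : (0 : ℝ) < X.U := by exact_mod_cast H.x.u0
  have hm := H.x.mass
  have hI : X.I.Nonempty := by
    rw [Finset.nonempty_iff_ne_empty]
    intro e
    rw [e] at hm
    have := mul_pos (mul_pos H.p.ρ0 H.p.κ0) U0
    simp only [Finset.card_empty, Nat.cast_zero, mul_zero] at hm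
    linarith
  obtain ⟨W, i, h1, h2, h3, h4⟩ := EB.win (y := fun i j => Geo.sz (X.Ψ i j) (Geo.sec D)) (U := X.U)
    H.p.κ0 H.p.βκ hI (fun i hi => by
      have k1 : exp (-dd p D a) • X.o ∈ Geo.sec D :=
        h.bo _ 0 (by rw [abs_of_pos (exp_pos _)]) (by simpa using (exp_pos _).le)
      have k2 := Geo.le_sz (X.Ψ i 0) h.ok.sec_bd k1
      rw [map_smul, norm_smul, Real.norm_of_nonneg (exp_pos _).le] at k2
      refine lt_of_lt_of_le ?_ ((mul_le_mul_of_nonneg_left (H.x.high i hi) (exp_pos _).le).trans k2)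
      rw [← exp_add, exp_lt_exp]
      linarith [h.d6, H.β0])
    (fun i hi => Geo.sz_le _ (exp_pos _).le fun y hy => (H.x.low i hi y).trans
      (mul_le_of_le_one_right (exp_pos _).le (h.ok.sec_bd y hy)))
    (fun i hi j => Geo.sz_cmp _ _ h.ok.sec_bd (exp_pos _).le (H.x.slow i hi j))
    (fun i hi i' hi' lt j => Geo.sz_cmp _ _ h.ok.sec_bd (exp_pos _).le fun y =>
      (H.x.sep i hi i' hi' lt j y).trans (mul_le_mul_of_nonneg_right
        (exp_le_exp.2 (by linarith [H.β0])) (norm_nonneg _)))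
  refine ⟨W, i, h1, h2, ?_, fun θ hθ => ?_⟩
  · rw [le_div_iff₀ U0]
    exact le_of_mul_le_mul_left (by linarith) H.p.κ0
  · obtain ⟨k1, k2⟩ := h4 _ hθ
    have k3 : Geo.sz (X.Ψ (i (X.j θ)) (X.j θ)) (Geo.sec D) ≤ exp 1 * X.e D θ (i (X.j θ)) :=
      Geo.sz_cmp _ _ h.ok.sec_bd (exp_pos _).le fun y => by simpa using (H.x.ref _ (h2 _) θ y).1
    have k4 : X.e D θ (i (X.j θ)) ≤ exp 1 * Geo.sz (X.Ψ (i (X.j θ)) (X.j θ)) (Geo.sec D) :=
      Geo.sz_cmp _ _ h.ok.sec_bd (exp_pos _).le fun y => by simpa using (H.x.ref _ (h2 _) θ y).2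
    constructor
    · refine le_of_mul_le_mul_left (le_trans (le_of_eq ?_) (k1.trans k3)) (exp_pos 1)
      rw [← exp_add, sub_eq_add_neg]
    · refine k4.trans ((mul_le_mul_of_nonneg_left k2 (exp_pos _).le).trans_eq ?_)
      rw [← exp_add]; congr 1; ring

/-- The next state. -/
theorem Bd.mk' (H : Hy X p) (h : Bd X p D a) (aL : a < p.L) (gL : Gn D a < p.L)
    (hk : exp (-(6 * p.β)) • D ⊆ D') (h1 : a ≤ a') (h2 : a' ≤ a + 6 * p.β)
    (ok : Geo.Ok D' (exp (-(p.A * dd p D' a'))) (exp (-a'))) (bo : Bo X.o D' (dd p D' a')) :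
    Bd X p D' a' := by
  refine ⟨ok, bo, h.a0.trans h1, by linarith [H.Lβ, H.β0], ?_⟩
  have k := lv_keep h.ok ok (by linarith [H.β0]) hk
  have n0 : (0 : ℝ) ≤ Fintype.card ι' := Nat.cast_nonneg _
  have k1 := mul_le_mul_of_nonneg_left h1 n0
  have k2 := mul_le_mul_of_nonneg_left H.q2 (show 0 ≤ p.β by linarith [H.β0])
  unfold dd Gn at *
  linarith [H.p.hL, H.p.rL, H.β0]

theorem Bd.next (H : Hy X p) (h : Bd X p D a) (aL : a < p.L) (gL : Gn D a < p.L) (b0 : 0 ≤ b)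
    (b6 : b ≤ 6 * p.β) (hk : exp (-b) • D ⊆ D') (h1 : a ≤ a') (h2 : a' ≤ a + 6 * p.β)
    (ok : Geo.Ok D' (exp (-b) * exp (-(p.A * dd p D a))) (exp (-a')))
    (hd : dd p D a + b ≤ dd p D' a') : exp (-(6 * p.β)) • D ⊆ D' ∧ Bd X p D' a' := by
  have k : exp (-(6 * p.β)) • D ⊆ D' :=
    (h.ok.sym.smul_mono (exp_pos _).le (exp_le_exp.2 (by linarith))).trans hk
  refine ⟨k, h.mk' H aL gL k h1 h2 (ok.mono (exp_pos _) ?_ le_rfl) ((h.bo.keep hk).mono hd)⟩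
  rw [← exp_add, exp_le_exp]
  nlinarith [H.p.A1]

end Pool.Agent.MP_4b405e_nt.EA
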