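import Pool.Agent.MP_4b405e_nt.SK.EKill
import Pool.Agent.MP_4b405e_nt.SK.EKil8

/-! Shape free forms of the free cut, of the passage to atoms and of the induction. -/

namespace Pool.Agent.MP_5168f5_an.QA.EK

open H19 H17S H17F Real Pointwise

variable {Ω T V α γ : Type}

theorem fn_ex [Nonempty α] {Q : FP Ω} {F : Ω → α} {B : Ω → V} (h : Fn Q F B) :
    ∃ f : V → α, ∀ ω ∈ Q.S, F ω = f (B ω) := by
  classical
  refine ⟨fun v => if h : ∃ ω ∈ Q.S, B ω = v then F h.choose else Classical.arbitrary α,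
    fun ω hω => ?_⟩
  have e : ∃ u ∈ Q.S, B u = B ω := ⟨ω, hω, rfl⟩
  simp only [dif_pos e]
  exact (h _ e.choose_spec.1 ω hω e.choose_spec.2).symm

theorem hh_ext {Q : FP Ω} {F G : Ω → α} (h : ∀ ω ∈ Q.S, F ω = G ω) : hh Q F = hh Q G :=
  hh_congr (fun a ha b hb e => by rw [h a ha, h b hb, e])
    fun a ha b hb e => by rw [← h a ha, ← h b hb, e]

/-- Either one candidate is almost free, or the candidates are bad or cost information. -/
theorem killG [NormedAddCommGroup V] [NormedSpace ℝ V] [Fintype γ] (Q : FP Ω) (B : Ω → V)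
    (τ : Ω → T) (Φ : T → V →L[ℝ] (γ → ℝ)) (G : T → Ω → Prop) (D : Set V) {β w : ℝ} (f : V → α)
    (Cd : T → Prop) (hβ : 2 ≤ β) (hw : 0 < w) (hD : ∀ ω ∈ Q.S, ∀ ω' ∈ Q.S, B ω - B ω' ∈ D)
    (hf : ∀ ω ∈ Q.S, ∀ ω' ∈ Q.S, f (B ω) = f (B ω') → B ω - B ω' ∈ exp (-(6 * β)) • D)
    (h1 : ∀ θ, Cd θ → ∀ x ∈ D, ‖Φ θ x‖ ≤ 1)
    (h2 : ∀ θ, Cd θ → ∀ ω ∈ Q.S, ∀ ω' ∈ Q.S, G θ ω → G θ ω' → τ ω = θ → τ ω' = θ →
      ‖Φ θ (B ω - B ω')‖ ≤ 1 → ‖Φ θ (B ω - B ω')‖ ≤ exp (-(6 * β))) :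
    (∃ θ, Cd θ ∧ ∀ (c : γ) (b : ℝ), 0 ≤ b → b ≤ 5 * β → ∃ F : V → Option ℤ,
      hh Q (fun ω => F (B ω)) ≤ 1 + w * (b + 2) ∧
      ∀ ω ∈ Q.S, ∀ ω' ∈ Q.S, F (B ω) = F (B ω') → |Φ θ (B ω - B ω') c| ≤ exp (-b)) ∨
    pb Q (fun ω => Cd (τ ω)) ≤ 2 / w * (pb Q (fun ω => Cd (τ ω) ∧ ¬G (τ ω) ω) +
      mi Q τ (fun ω => f (B ω)) fun _ => ()) := by
  set A : T → α → Prop := fun θ d => ∃ u ∈ Q.S, τ u = θ ∧ G θ u ∧ f (B u) = d with hA
  by_cases h : ∃ θ, Cd θ ∧ pb Q (fun ω => ¬A θ (f (B ω))) ≤ w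
  · obtain ⟨θ, hθ, hs⟩ := h
    refine Or.inl ⟨θ, hθ, fun c b b0 b5 => ?_⟩
    have sub : ∀ a b, Φ θ (B a) c - Φ θ (B b) c = Φ θ (B a - B b) c := fun a b => by simp
    have co : ∀ x, |Φ θ x c| ≤ ‖Φ θ x‖ := fun x => norm_le_pi_norm (Φ θ x) c
    have sm : ∀ a ∈ Q.S, ∀ b ∈ Q.S, f (B a) = f (B b) →
        |Φ θ (B a) c - Φ θ (B b) c| ≤ exp (-(6 * β)) := fun a ha b hb e => by
      obtain ⟨x, hx, e⟩ := hf a ha b hb e
      rw [sub, ← e]
      refine (co _).trans ?_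
      simp only [map_smul, norm_smul, Real.norm_eq_abs, abs_of_pos (exp_pos _)]
      exact mul_le_of_le_one_right (exp_pos _).le (h1 θ hθ x hx)
    have e3 : 3 * exp (-(6 * β)) ≤ exp (-b) := by
      have a1 : exp (-(5 * β)) ≤ exp (-b) := exp_le_exp.2 (by linarith)
      have a2 : exp (-(5 * β)) = exp β * exp (-(6 * β)) := by rw [← exp_add]; congr 1; ring
      have a3 := add_one_le_exp β
      nlinarith [exp_pos (-(6 * β))]
    obtain ⟨F, hF, hH, hc⟩ := cut Q (B := B) (fun ω => Φ θ (B ω) c) (fun ω => A θ (f (B ω)))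
      (Fn.comp (fun v => Φ θ v c) B) (Fn.comp (fun v => A θ (f v)) B) (w := 1) (exp_pos (-b))
      (fun a ha b hb => by rw [sub]; exact (co _).trans (h1 θ hθ _ (hD a ha b hb)))
      (by
        rintro a ha b hb ⟨u, hu, u1, u2, u3⟩ ⟨v, hv, v1, v2, v3⟩
        have k1 := abs_le.1 (sm u hu a ha u3)
        have k2 := abs_le.1 (sm v hv b hb v3)
        have k3 := (co _).trans (h2 θ hθ u hu v hv u2 v2 u1 v1 (h1 θ hθ _ (hD u hu v hv)))
        rw [← sub, abs_le] at k3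
        rw [abs_le]
        constructor <;> linarith [k1.1, k1.2, k2.1, k2.2, k3.1, k3.2]) hs
    obtain ⟨F', e⟩ := fn_ex hF
    refine ⟨F', ?_, fun a ha b hb k => ?_⟩
    · rw [← hh_ext e]
      refine hH.trans (add_le_add lg_lt_one.le (mul_le_mul_of_nonneg_left ?_ hw.le))
      rw [log_le_iff_le_exp (by positivity), one_div, ← exp_neg, neg_neg, exp_add]
      have a1 := add_one_le_exp (2 : ℝ)
      have a2 := one_le_exp b0
      nlinarith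
    · rw [← sub]
      exact hc a ha b hb (by rw [e a ha, e b hb, k])
  · push Not at h
    have k := MP_4b405e_nt.Kil.atyp Q τ (fun ω => f (B ω)) A Cd (q := w) fun a _ ha => by
      have := h _ ha
      rw [pb_not] at this
      linarith
    have k2 : pb Q (fun a => Cd (τ a) ∧ ¬A (τ a) (f (B a))) ≤
        pb Q fun ω => Cd (τ ω) ∧ ¬G (τ ω) ω :=
      pb_mono fun a ha e => ⟨e.1, fun g => e.2 ⟨a, ha, rfl, g, rfl⟩⟩
    right
    unfold MP_4b405e_nt.Kil.mu at k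
    rw [div_mul_eq_mul_div, le_div_iff₀ hw]
    linarith

open Classical in
/-- An inequality that holds on every event of `B` passes to the atoms of a function of `B`. -/
theorem her (Q : FP Ω) (B : Ω → V) (f : V → α) {ω : Ω} (hω : ω ∈ Q.S) {c d : ℝ}
    (E F : Ω → Prop) (ex : Ω → ℝ)
    (h : ∀ A : V → Prop, c * pb Q (fun v => A (B v) ∧ E v) ≤ d * pb Q (fun v => A (B v) ∧ F v) +
      Q.E fun v => if A (B v) then ex v else 0) (A : V → Prop) :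
    c * pb (cv Q (fun v => f (B v)) (f (B ω))) (fun v => A (B v) ∧ E v) ≤
      d * pb (cv Q (fun v => f (B v)) (f (B ω))) (fun v => A (B v) ∧ F v) +
      (cv Q (fun v => f (B v)) (f (B ω))).E fun v => if A (B v) then ex v else 0 := by
  have p0 : 0 < pb Q fun v => f (B v) = f (B ω) := pb_pos Q ⟨ω, hω, rfl⟩
  have k := h fun x => f x = f (B ω) ∧ A x
  have e1 := pb_cE Q (fun v => f (B v) = f (B ω)) fun v => A (B v) ∧ E v
  have e2 := pb_cE Q (fun v => f (B v) = f (B ω)) fun v => A (B v) ∧ F v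
  have e3 := E_cE Q (fun v => f (B v) = f (B ω)) fun v => if A (B v) then ex v else 0
  simp only [and_assoc] at k
  have e4 : (Q.E fun v => if f (B v) = f (B ω) ∧ A (B v) then ex v else 0) =
      Q.E fun v => if f (B v) = f (B ω) then if A (B v) then ex v else 0 else 0 :=
    Q.E_congr fun v _ => by by_cases x : f (B v) = f (B ω) <;> by_cases y : A (B v) <;> simp [x, y]
  refine le_of_mul_le_mul_left ?_ p0
  unfold cv
  rw [mul_add, mul_left_comm, mul_left_comm _ d, e1, e2, e3, ← e4]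
  refine k.trans (le_of_eq ?_)
  congr 2
  funext v
  congr

theorem tgt_sum {J δ : Type} (I : Finset J) {w : ℝ} (w0 : 0 ≤ w) (w1 : w * I.card ≤ 1)
    (Z : J → Ω → δ) : Tgt fun Q => w * ∑ i ∈ I, hh Q (Z i) := by
  intro Q γ F
  have h1 : ∑ i ∈ I, hh Q (Z i) ≤ ∑ i ∈ I, (hh Q F + Q.E fun ω => hh (cv Q F (F ω)) (Z i)) :=
    Finset.sum_le_sum fun i _ => tgt_hh (Z i) Q γ F
  rw [Finset.sum_add_distrib, Finset.sum_const, nsmul_eq_mul, ← Q.E_sum] at h1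
  rw [Q.E_mul]
  have := mul_le_mul_of_nonneg_left h1 w0
  nlinarith [hh_nonneg (P := Q) F]

/-- The induction over atoms with a real potential. -/
theorem indG {S : Type} (τ : Ω → T) (B : Ω → V) {Tg : FP Ω → ℝ} (hT : Tgt Tg)
    (Val : FP Ω → S → Prop) (ψ : S → Ω → ℝ) {K : ℝ} (μ : S → ℝ) (hK : 0 ≤ K)
    (h : ∀ Q s, Val Q s → Tg Q ≤ Q.E (ψ s) ∨
      (0 ≤ μ s ∧ ∃ (α : Type) (f : V → α) (s' : S), μ s' + 1 ≤ μ s ∧
        (∀ ω ∈ Q.S, Val (cv Q (fun ω => f (B ω)) (f (B ω))) s') ∧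
        hh Q (fun ω => f (B ω)) + Q.E (ψ s') ≤
          Q.E (ψ s) + K * mi Q τ (fun ω => f (B ω)) fun _ => ()))
    (Q : FP Ω) (s : S) (hs : Val Q s) : Tg Q ≤ Q.E (ψ s) + K * mi Q τ B fun _ => () := by
  refine proc' τ B hT Val (fun s => ⌊μ s + 1⌋₊) ψ hK (fun Q s hs => ?_) s Q hs
  rcases h Q s hs with k | ⟨m0, α, f, s', m1, v, k⟩
  · exact Or.inl k
  · refine Or.inr ⟨α, fun ω => f (B ω), s', Fn.comp f B, ?_, v, k⟩
    have a1 : ⌊μ s' + 1⌋₊ ≤ ⌊μ s⌋₊ := Nat.floor_le_floor m1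
    rw [Nat.floor_add_one m0]
    omega

end Pool.Agent.MP_5168f5_an.QA.EK
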