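import Pool.Agent.MP_4b405e_nt.SK.EA1
import Pool.Agent.MP_4b405e_nt.SK.EKil17

/-! The first run: the four steps and the potential of a form. -/

namespace Pool.Agent.MP_4b405e_nt.EA

open Pool.Agent.MP_5168f5_an H19 H17S H17F Real MeasureTheory Pointwise
open EB (Vv)
open Geo (Sym)

/-- Either one candidate is almost free, or the candidates are bad or cost information. -/
theorem killZ {Ω T V W α : Type} [NormedAddCommGroup V] [NormedSpace ℝ V] [NormedAddCommGroup W]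
    [NormedSpace ℝ W] (Q : FP Ω) (B : Ω → V)
    (τ : Ω → T) (Φ : T → V →L[ℝ] W) (G : T → Ω → Prop) (D : Set V) {β w : ℝ} (f : V → α)
    (Cd : T → Prop) (hβ : 2 ≤ β) (hw : 0 < w) (hD : ∀ ω ∈ Q.S, ∀ ω' ∈ Q.S, B ω - B ω' ∈ D)
    (hf : ∀ ω ∈ Q.S, ∀ ω' ∈ Q.S, f (B ω) = f (B ω') → B ω - B ω' ∈ exp (-(6 * β)) • D)
    (h1 : ∀ θ, Cd θ → ∀ x ∈ D, ‖Φ θ x‖ ≤ 1)
    (h2 : ∀ θ, Cd θ → ∀ ω ∈ Q.S, ∀ ω' ∈ Q.S, G θ ω → G θ ω' → τ ω = θ → τ ω' = θ →
      ‖Φ θ (B ω - B ω')‖ ≤ 1 → ‖Φ θ (B ω - B ω')‖ ≤ exp (-(6 * β))) :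
    (∃ θ, Cd θ ∧ ∀ (ζ : V →ₗ[ℝ] ℝ) (b : ℝ), (∀ x, |ζ x| ≤ ‖Φ θ x‖) → 0 ≤ b → b ≤ 5 * β →
      ∃ F : V → Option ℤ, hh Q (fun ω => F (B ω)) ≤ 1 + w * (b + 2) ∧
      ∀ ω ∈ Q.S, ∀ ω' ∈ Q.S, F (B ω) = F (B ω') → |ζ (B ω - B ω')| ≤ exp (-b)) ∨
    pb Q (fun ω => Cd (τ ω)) ≤ 2 / w * (pb Q (fun ω => Cd (τ ω) ∧ ¬G (τ ω) ω) +
      mi Q τ (fun ω => f (B ω)) fun _ => ()) := by
  set A : T → α → Prop := fun θ d => ∃ u ∈ Q.S, τ u = θ ∧ G θ u ∧ f (B u) = d with hA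
  by_cases h : ∃ θ, Cd θ ∧ 1 - w ≤ pb Q (fun ω => A θ (f (B ω)))
  · obtain ⟨θ, hθ, hs⟩ := h
    refine Or.inl ⟨θ, hθ, fun ζ b co b0 b5 => ?_⟩
    have sm : ∀ a ∈ Q.S, ∀ b ∈ Q.S, f (B a) = f (B b) →
        |ζ (B a - B b)| ≤ exp (-(6 * β)) := fun a ha b hb e => by
      obtain ⟨x, hx, e⟩ := hf a ha b hb e
      rw [← e]
      refine (co _).trans ?_
      simp only [map_smul, norm_smul, Real.norm_eq_abs, abs_of_pos (exp_pos _)]
      exact mul_le_of_le_one_right (exp_pos _).le (h1 θ hθ x hx)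
    have e3 : 3 * exp (-(6 * β)) ≤ exp (-b) := by
      have a1 : exp (-(5 * β)) ≤ exp (-b) := exp_le_exp.2 (by linarith)
      have a2 : exp (-(5 * β)) = exp β * exp (-(6 * β)) := by rw [← exp_add]; congr 1; ring
      have a3 := add_one_le_exp β
      nlinarith [exp_pos (-(6 * β))]
    refine Geo.cut_var Q B ζ (fun x => A θ (f x)) b0 hw.le
      (fun a ha b hb => (co _).trans (h1 θ hθ _ (hD a ha b hb))) ?_ hs
    rintro a ha b hb ⟨u, hu, u1, u2, u3⟩ ⟨v, hv, v1, v2, v3⟩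
    have k1 := abs_le.1 (sm u hu a ha u3)
    have k2 := abs_le.1 (sm v hv b hb v3)
    have k3 := abs_le.1 ((co _).trans
      (h2 θ hθ u hu v hv u2 v2 u1 v1 (h1 θ hθ _ (hD u hu v hv))))
    simp only [map_sub] at k1 k2 k3 ⊢
    rw [abs_le]
    constructor <;> linarith [k1.1, k1.2, k2.1, k2.2, k3.1, k3.2]
  · push Not at h
    have k := Kil.atyp Q τ (fun ω => f (B ω)) A Cd (q := w) fun a _ ha => (h _ ha).le
    have k2 : pb Q (fun a => Cd (τ a) ∧ ¬A (τ a) (f (B a))) ≤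
        pb Q fun ω => Cd (τ ω) ∧ ¬G (τ ω) ω :=
      pb_mono fun a ha e => ⟨e.1, fun g => e.2 ⟨a, ha, rfl, g, rfl⟩⟩
    right
    unfold Kil.mu at k
    rw [div_mul_eq_mul_div, le_div_iff₀ hw]
    linarith

variable {ι ι' ν T Ω : Type} [Fintype ι] [Fintype ι'] [Fintype ν]
  {X : Dat ι ι' ν T Ω} {p : Pm} {D D' : Set (Vv ι ι')} {a a' b g : ℝ} {θ : T} {i k : ℕ}

/-- The state `D'` follows `D`. -/
structure Nx (X : Dat ι ι' ν T Ω) (p : Pm) (D D' : Set (Vv ι ι')) (a' : ℝ) : Prop where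
  sub : D' ⊆ D
  keep : exp (-(6 * p.β)) • D ⊆ D'
  bd : Bd X p D' a'

theorem exp_mul_neg (a b : ℝ) : exp (-b) * exp (-a) = exp (-(a + b)) := by
  rw [← exp_add]; congr 1; ring

theorem Bd.gn_of (h : Bd X p D a) (e : Geo.shd D' = exp (-b) • Geo.shd D) :
    Gn D' (a + b) = Gn D a := by
  unfold Gn
  rw [lv_of h.ok e]
  ring

theorem Bd.stW (H : Hy X p) (h : Bd X p D a) (aL : a < p.L) (gL : Gn D a < p.L) :
    Nx X p D (exp (-(6 * p.β)) • D) (a + 6 * p.β) ∧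
      Gn (exp (-(6 * p.β)) • D) (a + 6 * p.β) = Gn D a := by
  have b0 : 0 ≤ 6 * p.β := by linarith [H.β0]
  have e1 : exp (-(6 * p.β)) ≤ 1 := exp_le_one_iff.2 (by linarith)
  have g := h.gn_of (b := 6 * p.β) (Geo.shd_smul _)
  have k := h.ok.smul (exp_pos _) e1
  rw [exp_mul_neg a] at k
  have := h.next H aL gL b0 le_rfl subset_rfl (by linarith) le_rfl k (by unfold dd; linarith)
  exact ⟨⟨h.ok.sym.smul_sub (exp_pos _).le e1, this.1, this.2⟩, g⟩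

theorem Bd.stP (H : Hy X p) (h : Bd X p D a) (aL : a < p.L) (gL : Gn D a < p.L) :
    Nx X p D (Geo.payS D (exp (-p.a))) (a + p.a) ∧
      Gn (Geo.payS D (exp (-p.a))) (a + p.a) = Gn D a := by
  have b0 : 0 ≤ p.a := by linarith [H.p.a2]
  have b6 : p.a ≤ 6 * p.β := by linarith [H.p.aβ, H.β0]
  have e1 : exp (-p.a) ≤ 1 := exp_le_one_iff.2 (by linarith)
  have g := h.gn_of (h.ok.shd_pay (exp_pos (-p.a)).le e1)
  have k := h.ok.pay (exp_pos _) e1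
  rw [exp_mul_neg a] at k
  have := h.next H aL gL b0 b6 (h.ok.pay_keep (exp_pos _).le e1) (by linarith) (by linarith) k
    (by unfold dd; linarith)
  exact ⟨⟨Set.inter_subset_left, this.1, this.2⟩, g⟩

theorem Bd.stF (H : Hy X p) (h : Bd X p D a) (aL : a < p.L) (gL : Gn D a < p.L)
    (z0 : exp (-p.β) ≤ X.z D θ k) (z1 : X.z D θ k ≤ 1) (he : X.e D θ k ≤ exp (-(2 * p.β))) :
    ∃ ζ : Vv ι ι' →ₗ[ℝ] ℝ, (∀ x, |ζ x| ≤ ‖X.Φ k θ x‖) ∧
      Nx X p D (Geo.cutS D ζ (exp (-(2 * p.β)))) a ∧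
      Gn D a + (p.β - p.q) ≤ Gn (Geo.cutS D ζ (exp (-(2 * p.β)))) a := by
  obtain ⟨ζ, h1, h2⟩ := h.ok.slab_fun (X.Φ k θ) volume he (exp_pos (-(2 * p.β)))
  have b0 : 0 ≤ 2 * p.β := by linarith [H.β0]
  have e1 : exp (-(2 * p.β)) ≤ 1 := exp_le_one_iff.2 (by linarith)
  have hζ : ∀ x ∈ D, |ζ x| ≤ 1 := fun x hx => (h1 x).trans ((h.ok.le_sz _ hx).trans z1)
  have ok := h.ok.cut' (exp_pos _) e1 hζ
  have k := h2 _ ok.sym Set.inter_subset_left fun x hx => hx.2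
  have v0 := ok.shd_pos volume
  have v1 := h.ok.shd_pos volume
  have g : Gn D a + (p.β - p.q) ≤ Gn (Geo.cutS D ζ (exp (-(2 * p.β)))) a := by
    have := log_drop (x := p.q - p.β) v0 (v := volume.real (Geo.shd D)) (by
      refine le_of_mul_le_mul_left (((mul_le_mul_of_nonneg_right z0 v0.le).trans k).trans ?_)
        (exp_pos (-p.β))
      rw [← mul_assoc, ← exp_add, show -p.β + (p.q - p.β) = -(2 * p.β) + p.q by ring, exp_add,
        fr_pi]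
      refine mul_le_mul_of_nonneg_right ?_ v1.le
      nlinarith [le_exp_q H.q2, exp_pos (-(2 * p.β))])
    unfold Gn lv
    linarith
  have := h.next H aL gL b0 (by linarith) (h.ok.cut_keep (exp_pos _).le e1 hζ) le_rfl
    (by linarith) ok (by unfold dd; linarith [H.p.βq, H.q4])
  exact ⟨ζ, h1, ⟨Set.inter_subset_left, this.1, this.2⟩, g⟩

theorem Bd.stN (H : Hy X p) (h : Bd X p D a) (aL : a < p.L) (gL : Gn D a < p.L) (hi : i ∈ X.I)
    (z1 : X.z D θ i ≤ 1) (he : exp (-(4 * p.β)) ≤ X.e D θ i)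
    (hs : X.sg i θ ≤ exp (a + Gn D a + p.q + p.r)) :
    ∃ ζ : Vv ι ι' →ₗ[ℝ] ℝ, (∀ x, |ζ x| ≤ ‖X.Φ i θ x‖) ∧
      Nx X p D (Geo.cutS D ζ (exp (-(5 * p.β)))) a ∧
      lw (Geo.cutS D ζ (exp (-(5 * p.β)))) ≤ lw D - (p.β - p.q) := by
  obtain ⟨ζ, h1, k⟩ := h.ok.cut_fun (X.Φ i θ) volume (exp_pos (-(5 * p.β)))
  have β0 := H.β0
  have r0 := H.x.r0
  have g0 := h.g0
  have e1 : exp (-(5 * p.β)) ≤ 1 := exp_le_one_iff.2 (by linarith)
  have hζ : ∀ x ∈ D, |ζ x| ≤ 1 := fun x hx => (h1 x).trans ((h.ok.le_sz _ hx).trans z1)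
  have ok := h.ok.cut' (exp_pos _) e1 hζ
  have kp : exp (-(6 * p.β)) • D ⊆ Geo.cutS D ζ (exp (-(5 * p.β))) :=
    (h.ok.sym.smul_mono (exp_pos _).le (exp_le_exp.2 (by linarith))).trans
      (h.ok.cut_keep (exp_pos _).le e1 hζ)
  have d1 : dd p D a ≤ dd p (Geo.cutS D ζ (exp (-(5 * p.β)))) a := by
    have := lv_mono h.ok ok Set.inter_subset_left
    unfold dd Gn; linarith
  set d' := dd p (Geo.cutS D ζ (exp (-(5 * p.β)))) a
  have d2 : a + Gn D a + p.q + p.r + p.r + 5 * p.β + 1 ≤ d' := by unfold dd at d1; linarith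
  have y6 : a + Gn D a + p.q + p.r ≤ 6 * p.L := by
    have := h.d6
    unfold dd at this; linarith
  refine ⟨ζ, h1, ⟨Set.inter_subset_left, kp, h.mk' H aL gL kp le_rfl (by linarith)
    (h.ok.cut (exp_pos _) (exp_le_exp.2 (by nlinarith [H.p.A1])) fun x hx => ?_)
    fun t y ht hy => ⟨h.bo.mono d1 t y ht hy, (h1 _).trans ?_⟩⟩, ?_⟩
  · refine (h1 x).trans ((H.x.upp i hi θ _ (by linarith [h.a0, H.q4]) y6 hs x).trans
      ((mul_le_mul_of_nonneg_left hx (exp_pos _).le).trans ?_))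
    rw [← exp_add, exp_le_exp]
    nlinarith [H.p.A1]
  · have e : X.Φ i θ (t • X.o, y) = t • X.Φ i θ (X.o, 0) + X.Φ i θ (0, y) := by
      rw [← map_smul, ← map_add]; simp
    have u := H.x.up i hi θ (hs.trans (exp_le_exp.2 y6)) y
    have s0 : 0 ≤ X.sg i θ := norm_nonneg _
    have u1 : ‖t • X.Φ i θ (X.o, 0)‖ ≤ X.sg i θ * exp p.r * exp (-d') := by
      rw [norm_smul, Real.norm_eq_abs, mul_comm]
      exact mul_le_mul (le_mul_of_one_le_right s0 (one_le_exp r0)) ht (abs_nonneg _)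
        (by positivity)
    have u2 : X.sg i θ * exp p.r * ‖y‖ ≤ X.sg i θ * exp p.r * exp (-d') := by gcongr
    have u3 : X.sg i θ * exp p.r * exp (-d') ≤ exp (-(5 * p.β) - 1) := by
      calc _ ≤ exp (a + Gn D a + p.q + p.r) * exp p.r * exp (-d') := by gcongr
        _ ≤ _ := by rw [← exp_add, ← exp_add, exp_le_exp]; linarith
    have u4 : exp (-(5 * p.β)) = exp 1 * exp (-(5 * p.β) - 1) := by rw [← exp_add]; congr 1; ring
    have u5 := norm_add_le (t • X.Φ i θ (X.o, 0)) (X.Φ i θ (0, y))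
    rw [e]
    nlinarith [add_one_le_exp (1 : ℝ), exp_pos (-(5 * p.β) - 1)]
  · have v0 := ok.sec_pos volume
    have v1 := h.ok.sec_pos volume
    have := log_drop (x := p.q - p.β) v0 (v := volume.real (Geo.sec D)) (by
      refine le_of_mul_le_mul_left (((mul_le_mul_of_nonneg_right he v0.le).trans k).trans ?_)
        (exp_pos (-(4 * p.β)))
      rw [← mul_assoc, ← exp_add, show -(4 * p.β) + (p.q - p.β) = -(5 * p.β) + p.q by ring,
        exp_add, fr_pi]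
      refine mul_le_mul_of_nonneg_right ?_ v1.le
      have : (0 : ℝ) < 2 ^ Fintype.card ι := by positivity
      nlinarith [le_exp_q H.q1, exp_pos (-(5 * p.β))])
    unfold lw
    linarith

/-- The potential of a form. -/
noncomputable def Zd (X : Dat ι ι' ν T Ω) (p : Pm) (D : Set (Vv ι ι')) (θ : T) : ℝ :=
  EP.Zp X.n X.I p.β p.a p.c (X.z D θ) (X.e D θ)

/-- The first box in which the section is small. -/
noncomputable def j0 (X : Dat ι ι' ν T Ω) (p : Pm) (D : Set (Vv ι ι')) (θ : T) : ℕ :=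
  EP.i0 X.n X.I p.β (X.e D θ)

theorem Bd.small (H : Hy X p) (h : Bd X p D a) (hk : k ∈ Finset.Ico (j0 X p D θ) X.n) :
    X.e D θ k ≤ exp (-(2 * p.β)) :=
  EP.i0_small (h.sq H θ).de (by linarith [H.β0]) (Finset.mem_Ico.1 hk).1 (Finset.mem_Ico.1 hk).2

theorem Bd.zd (H : Hy X p) (h : Bd X p D a) (n : Nx X p D D' a') (hb : 0 ≤ b)
    (h3 : ∀ k ∈ Finset.Ico (j0 X p D θ) X.n,
      EP.cl (-p.β) (-p.a) (X.z D θ k) - EP.cl (-p.β) (-p.a) (X.z D' θ k) ≤ b)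
    (hg : EP.Yi X.n p.a (j0 X p D θ) (X.z D' θ) ≤ EP.Yi X.n p.a (j0 X p D θ) (X.z D θ) - g) :
    Zd X p D' θ ≤ Zd X p D θ + p.c * b - g :=
  EP.Zp_step (h.sq H θ) (n.bd.sq H θ) (by linarith [H.p.a2]) (by linarith [H.p.aβ]) H.p.c0 H.p.hc
    (fun _ => h.ok.sz_mono _ n.sub) (fun _ => n.bd.ok.sz_ge _ (exp_pos _).le n.keep)
    (fun _ => h.ok.es_mono _ n.sub) hb h3 hg

theorem Bd.yi (H : Hy X p) (h : Bd X p D a) (n : Nx X p D D' a') :
    EP.Yi X.n p.a i (X.z D' θ) ≤ EP.Yi X.n p.a i (X.z D θ) - 0 := by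
  rw [sub_zero]
  exact EP.Yi_mono (by linarith [H.p.a2]) fun _ => h.ok.sz_mono _ n.sub

theorem Bd.zd_cut (H : Hy X p) (h : Bd X p D a) (n : Nx X p D D' a) (θ : T) :
    Zd X p D' θ ≤ Zd X p D θ + p.c * (Gn D' a - Gn D a + p.q) := by
  have e : Gn D' a - Gn D a + p.q = lv D - lv D' + p.q := by unfold Gn; ring
  have := h.zd (θ := θ) H n (by linarith [lv_mono h.ok n.bd.ok n.sub, H.q4])
    (fun k hk => loc h.ok n.bd.ok n.sub _ (by linarith [H.β0]) H.q2 (h.small H hk)) (h.yi H n)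
  rw [e]
  linarith

theorem Bd.zd_W (H : Hy X p) (h : Bd X p D a) (n : Nx X p D D' a') (θ : T) :
    Zd X p D' θ ≤ Zd X p D θ + p.c * p.β := by
  have := h.zd (θ := θ) (b := p.β) H n (by linarith [H.β0]) (fun k _ => by
    linarith [EP.cl_le (lo := -p.β) (hi := -p.a) (y := X.z D θ k), H.p.a2,
      EP.cl_nonneg (lo := -p.β) (hi := -p.a) (y := X.z D' θ k) (by linarith [H.p.aβ])]) (h.yi H n)
  linarith

/-- The form is in a window. -/
def CF (X : Dat ι ι' ν T Ω) (p : Pm) (D : Set (Vv ι ι')) (θ : T) : Prop :=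
  ∃ k ∈ Finset.Ico (j0 X p D θ) X.n, exp (-p.β) ≤ X.z D θ k ∧ X.z D θ k ≤ 1

open Classical in
theorem Bd.zd_P (H : Hy X p) (h : Bd X p D a) (n : Nx X p D (Geo.payS D (exp (-p.a))) a') (θ : T)
    (F : Prop) (hF : F → ∃ i ∈ X.I, exp (-(4 * p.β)) ≤ X.e D θ i ∧
      X.e D θ i ≤ exp (-(2 * p.β)) ∧ 1 < X.z D θ i) :
    Zd X p (Geo.payS D (exp (-p.a))) θ ≤ Zd X p D θ + p.c * p.a * (if CF X p D θ then 1 else 0) -
      (p.a - 1) * if F then 1 else 0 := by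
  have a2 := H.p.a2
  have e1 : exp (-p.a) ≤ 1 := exp_le_one_iff.2 (by linarith)
  have kp : ∀ k, exp (-p.a) * X.z D θ k ≤ X.z (Geo.payS D (exp (-p.a))) θ k := fun k =>
    n.bd.ok.sz_ge _ (exp_pos _).le (h.ok.pay_keep (exp_pos _).le e1)
  rw [mul_assoc]
  refine h.zd H n (by split_ifs <;> linarith) (fun k hk => ?_) ?_
  · split_ifs with c
    · rw [mul_one]; exact EP.cl_lip (by linarith) (kp k)
    · rw [mul_zero]
      rcases le_or_gt (X.z D θ k) 1 with u | u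
      · have v : X.z D θ k ≤ exp (-p.β) := le_of_not_ge fun v => c ⟨k, hk, v, u⟩
        rw [EP.cl_low (by linarith [H.p.aβ]) v, zero_sub, neg_nonpos]
        exact EP.cl_nonneg (by linarith [H.p.aβ])
      · rw [EP.cl_high (e1.trans u.le), EP.cl_high
          ((le_mul_of_one_le_right (exp_pos _).le u.le).trans (kp k)), sub_self]
  · split_ifs with c
    · obtain ⟨i, hi, h1, h2, h3⟩ := hF c
      have e : j0 X p D θ = i :=
        EP.i0_eq (h.sq H θ).de (by linarith [H.β0]) hi (H.lt hi) h1 h2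
      rw [e, mul_one, EP.Yi, EP.Yi, if_pos (H.lt hi), if_pos (H.lt hi)]
      refine EP.Yv_drop h3 (h.ok.sz_pay _ (exp_pos _).le e1) (h2.trans ?_)
      rw [exp_neg, one_div]
      exact inv_anti₀ (by norm_num) (by linarith [add_one_le_exp (2 * p.β), H.β0])
    · rw [mul_zero]; exact h.yi H n

open Classical in
/-- The charge of a bad pair. -/
noncomputable def bt (X : Dat ι ι' ν T Ω) (p : Pm) (D : Set (Vv ι ι')) (θ : T) (k : ℕ) : ℝ :=
  EP.cl (-p.β - p.a) 0 (X.z D θ k) / p.w + if exp (-(4 * p.β)) ≤ X.e D θ k then p.K else 0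

open Classical in
/-- The charge of all bad pairs. -/
noncomputable def bad (X : Dat ι ι' ν T Ω) (p : Pm) (D : Set (Vv ι ι')) (ω : Ω) : ℝ :=
  ∑ k ∈ Finset.range X.n, if X.Gd k ω then 0 else bt X p D (X.τ ω) k

theorem Hy.bt0 (H : Hy X p) : 0 ≤ bt X p D θ k := by
  have := div_nonneg (EP.cl_nonneg (lo := -p.β - p.a) (hi := 0) (y := X.z D θ k)
    (by linarith [H.β0, H.p.a2])) H.p.w0.le
  unfold bt
  split_ifs <;> linarith [H.p.K0]

theorem Hy.bt1 (H : Hy X p) : bt X p D θ k ≤ (p.β + p.a) / p.w + p.K := by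
  have := div_le_div_of_nonneg_right ((EP.cl_le (lo := -p.β - p.a) (hi := 0)
    (y := X.z D θ k)).trans_eq (show _ = p.β + p.a by ring)) H.p.w0.le
  unfold bt
  split_ifs <;> linarith [H.p.K0]

theorem Bd.bt2 (H : Hy X p) (h : Bd X p D a) (hs : D' ⊆ D) :
    (if exp (-(4 * p.β)) ≤ X.e D' θ k then p.K else 0) ≤
      if exp (-(4 * p.β)) ≤ X.e D θ k then p.K else 0 := by
  split_ifs with c c'
  exacts [le_rfl, absurd (c.trans (h.ok.es_mono _ hs)) c', H.p.K0.le, le_rfl]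

theorem Bd.bt_mono (H : Hy X p) (h : Bd X p D a) (hs : D' ⊆ D) : bt X p D' θ k ≤ bt X p D θ k :=
  add_le_add (div_le_div_of_nonneg_right (EP.cl_mono (h.ok.sz_mono _ hs)) H.p.w0.le) (h.bt2 H hs)

theorem Bd.bt_W (H : Hy X p) (h : Bd X p D a) (h1 : exp (-(4 * p.β)) ≤ X.e D θ k)
    (h2 : X.e D θ k ≤ exp (-(2 * p.β))) :
    bt X p (exp (-(6 * p.β)) • D) θ k ≤ bt X p D θ k - p.K := by
  have e1 : exp (-(6 * p.β)) ≤ 1 := exp_le_one_iff.2 (by linarith [H.β0])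
  have e : X.e (exp (-(6 * p.β)) • D) θ k < exp (-(4 * p.β)) := by
    refine (h.ok.es_smul _ (exp_pos _)).trans_lt
      ((mul_le_mul_of_nonneg_left h2 (exp_pos _).le).trans_lt ?_)
    rw [← exp_add, exp_lt_exp]
    linarith [H.β0]
  have := div_le_div_of_nonneg_right (EP.cl_mono (lo := -p.β - p.a) (hi := 0)
    (h.ok.sz_mono (X.Φ k θ) (h.ok.sym.smul_sub (exp_pos _).le e1))) H.p.w0.le
  unfold bt
  rw [if_pos h1, if_neg e.not_ge]
  unfold Dat.z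
  linarith

theorem Bd.bt_P (H : Hy X p) (h : Bd X p D a) (h0 : exp (-p.β) ≤ X.z D θ k) (h1 : X.z D θ k ≤ 1)
    (h2 : X.e D θ k ≤ exp (-(2 * p.β))) :
    bt X p (Geo.payS D (exp (-p.a))) θ k ≤ bt X p D θ k - (p.a - 1) / p.w := by
  have a2 := H.p.a2
  have e1 : exp (-p.a) ≤ 1 := exp_le_one_iff.2 (by linarith)
  have k1 : X.z (Geo.payS D (exp (-p.a))) θ k ≤ exp (-p.a) * X.z D θ k + 2 * X.e D θ k :=
    h.ok.sz_pay _ (exp_pos _).le e1
  have k2 : exp (-(2 * p.β)) = exp (-p.β) * exp (-p.β) := by rw [← exp_add]; congr 1; ring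
  have k3 : exp (-(p.a - 1)) = exp 1 * exp (-p.a) := by rw [← exp_add]; congr 1; ring
  have k4 : exp 1 * exp (-p.β) ≤ exp (-p.a) := by
    rw [← exp_add, exp_le_exp]; linarith [H.p.aβ]
  have k5 : 2 * exp (-p.β) ≤ exp (-(p.a - 1)) - exp (-p.a) := by
    nlinarith [add_one_le_exp (1 : ℝ), exp_pos (-p.β), exp_pos (-p.a)]
  have k6 := EP.cl_drop (lo := -p.β - p.a) (hi := 0) (b := p.a - 1)
    (y' := X.z (Geo.payS D (exp (-p.a))) θ k) (by linarith)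
    ((exp_le_exp.2 (by linarith)).trans h0) (by rwa [exp_zero]) (by
      nlinarith [exp_pos (-p.β), mul_le_mul_of_nonneg_left h0 (exp_pos (-p.β)).le,
        mul_le_mul_of_nonneg_right k5 ((exp_pos _).le.trans h0)])
  have k7 := div_le_div_of_nonneg_right k6 H.p.w0.le
  have k8 := h.bt2 (θ := θ) (k := k) (D' := Geo.payS D (exp (-p.a))) H Set.inter_subset_left
  rw [sub_div] at k7
  unfold bt
  linarith

theorem Bd.bad_drop (H : Hy X p) (h : Bd X p D a) (hs : D' ⊆ D) (Q : FP Ω) (Cd : T → Prop)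
    (κ : T → ℕ) (hg : ∀ θ, Cd θ → κ θ < X.n ∧ bt X p D' θ (κ θ) ≤ bt X p D θ (κ θ) - g) :
    Q.E (bad X p D') ≤ Q.E (bad X p D) - g * pb Q fun ω => Cd (X.τ ω) ∧ ¬X.Gd (κ (X.τ ω)) ω := by
  classical
  unfold pb
  rw [← Q.E_mul, ← Q.E_sub]
  refine Q.E_mono fun ω _ => ?_
  have m : ∀ k ∈ Finset.range X.n, 0 ≤ (if X.Gd k ω then 0 else bt X p D (X.τ ω) k) -
      if X.Gd k ω then 0 else bt X p D' (X.τ ω) k := fun k _ => by
    split_ifs
    · simp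
    · exact sub_nonneg.2 (h.bt_mono H hs)
  split_ifs with c
  · have := Finset.single_le_sum m (Finset.mem_range.2 (hg _ c.1).1)
    rw [Finset.sum_sub_distrib, if_neg c.2, if_neg c.2] at this
    unfold bad
    linarith [(hg _ c.1).2]
  · have := Finset.sum_nonneg m
    rw [Finset.sum_sub_distrib] at this
    unfold bad
    linarith

theorem Bd.bad_mono (H : Hy X p) (h : Bd X p D a) (hs : D' ⊆ D) (Q : FP Ω) :
    Q.E (bad X p D') ≤ Q.E (bad X p D) := by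
  have := h.bad_drop (g := 0) H hs Q (fun _ => False) (fun _ => 0) fun _ k => k.elim
  linarith

theorem Hy.bad0 (H : Hy X p) (Q : FP Ω) : 0 ≤ Q.E (bad X p D) :=
  Q.E_nonneg fun ω _ => Finset.sum_nonneg fun k _ => by
    split_ifs
    exacts [le_rfl, H.bt0]

theorem Hy.bad1 (H : Hy X p) (Q : FP Ω) : Q.E (bad X p D) ≤
    ((p.β + p.a) / p.w + p.K) * ∑ k ∈ Finset.range X.n, pb Q fun ω => ¬X.Gd k ω := by
  unfold pb
  rw [← Q.E_sum, ← Q.E_mul]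
  refine Q.E_mono fun ω _ => ?_
  rw [Finset.mul_sum]
  refine Finset.sum_le_sum fun k _ => ?_
  by_cases c : X.Gd k ω
  · simp [c]
  · simpa [c] using H.bt1

end Pool.Agent.MP_4b405e_nt.EA
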