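import Pool.Agent.MP_4b405e_nt.SK.EA

/-! Reduction of the first run to its abstract form. -/

namespace Pool.Agent.MP_4b405e_nt.EW

open Pool.Agent.MP_5168f5_an H19 H17S H17F Real

open Classical in
/-- The rising sun lemma. -/
theorem sun (la : ℕ → ℝ) (n : ℕ) {lam T : ℝ} (h0 : 0 ≤ lam)
    (mono : ∀ i k, i ≤ k → k < n → la i ≤ la k) (hT : ∀ k < n, la k ≤ T) (t : ℕ) :
    ∀ m < n, n - m ≤ t → lam * ((Finset.Ico m n).filter fun i =>
      ∃ k, i < k ∧ k < n ∧ lam * (k - i : ℕ) < la k - la i).card ≤ T - la m := by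
  induction t with
  | zero => intro m h1 h2; omega
  | succ t ih =>
    intro m h1 h2
    by_cases hb : ∃ k, m < k ∧ k < n ∧ lam * (k - m : ℕ) < la k - la m
    · obtain ⟨k, k1, k2, k3⟩ := hb
      have h3 := ih k k2 (by omega)
      have h4 : ((Finset.Ico m n).filter fun i =>
          ∃ k, i < k ∧ k < n ∧ lam * (k - i : ℕ) < la k - la i).card ≤ (k - m) +
          ((Finset.Ico k n).filter fun i =>
          ∃ k, i < k ∧ k < n ∧ lam * (k - i : ℕ) < la k - la i).card := by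
        rw [← Nat.card_Ico m k]
        refine le_trans (Finset.card_le_card fun i hi => ?_) (Finset.card_union_le _ _)
        simp only [Finset.mem_filter, Finset.mem_Ico, Finset.mem_union] at hi ⊢
        by_cases h5 : i < k
        · exact Or.inl ⟨hi.1.1, h5⟩
        · exact Or.inr ⟨⟨by omega, hi.1.2⟩, hi.2⟩
      have h5 := mul_le_mul_of_nonneg_left (Nat.cast_le (α := ℝ).2 h4) h0
      rw [Nat.cast_add, mul_add] at h5
      linarith
    · have h4 : ((Finset.Ico m n).filter fun i =>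
          ∃ k, i < k ∧ k < n ∧ lam * (k - i : ℕ) < la k - la i) =
          ((Finset.Ico (m + 1) n).filter fun i =>
          ∃ k, i < k ∧ k < n ∧ lam * (k - i : ℕ) < la k - la i) := by
        ext i
        simp only [Finset.mem_filter, Finset.mem_Ico]
        refine ⟨fun hi => ⟨⟨?_, hi.1.2⟩, hi.2⟩, fun hi => ⟨⟨by omega, hi.1.2⟩, hi.2⟩⟩
        by_contra h5
        have : i = m := by omega
        exact hb (this ▸ hi.2)
      rw [h4]
      by_cases h5 : m + 1 < n
      · linarith [ih (m + 1) h5 (by omega), mono m (m + 1) (by omega) h5]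
      · rw [Finset.Ico_eq_empty (by omega)]
        simpa using hT m h1

theorem mx {a b a' b' c : ℝ} (hc : 0 ≤ c) (h1 : a ≤ c * a') (h2 : b ≤ c * b') :
    max a b ≤ c * max a' b' :=
  max_le (h1.trans (mul_le_mul_of_nonneg_left (le_max_left _ _) hc))
    (h2.trans (mul_le_mul_of_nonneg_left (le_max_right _ _) hc))

theorem ex_le {a b c x : ℝ} (h : a ≤ b + c) (hx : 0 ≤ x) : exp a * x ≤ exp b * (exp c * x) := by
  rw [← mul_assoc, ← exp_add]; exact mul_le_mul_of_nonneg_right (exp_le_exp.2 h) hx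

variable {ι ι' γ T Ω : Type} [Fintype ι] [Fintype ι'] [Fintype γ]

theorem norm_opt (v : Option γ → ℝ) : ‖v‖ = max ‖fun c => v (some c)‖ |v none| := by
  refine le_antisymm ((pi_norm_le_iff_of_nonneg (le_max_of_le_left (norm_nonneg _))).2 ?_)
    (max_le ((pi_norm_le_iff_of_nonneg (norm_nonneg _)).2 fun c => norm_le_pi_norm v _)
      (norm_le_pi_norm v none))
  rintro (_ | c)
  · exact le_max_right _ _
  · exact le_max_of_le_left (norm_le_pi_norm (fun c => v (some c)) c)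

/-- Forget the extra coordinate. -/
noncomputable def res (ι : Type) : (Option ι → ℝ) →L[ℝ] (ι → ℝ) :=
  ContinuousLinearMap.pi fun i => ContinuousLinearMap.proj (some i)

/-- A map with one more coordinate. -/
noncomputable def pr2 {V : Type} [NormedAddCommGroup V] [NormedSpace ℝ V] (A : V →L[ℝ] (γ → ℝ))
    (φ : V →L[ℝ] ℝ) : V →L[ℝ] (Option γ → ℝ) :=
  ContinuousLinearMap.pi fun o => o.elim φ fun c => (ContinuousLinearMap.proj c).comp A

theorem norm_pr2 {V : Type} [NormedAddCommGroup V] [NormedSpace ℝ V] (A : V →L[ℝ] (γ → ℝ))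
    (φ : V →L[ℝ] ℝ) (x : V) : ‖pr2 A φ x‖ = max ‖A x‖ |φ x| := norm_opt _

theorem res_le (p : Option ι → ℝ) : ‖res ι p‖ ≤ ‖p‖ := by
  rw [norm_opt p]; exact le_max_left _ _

theorem none_le (p : Option ι → ℝ) : |p none| ≤ ‖p‖ := norm_le_pi_norm p none

/-- The extra direction. -/
def oo (ι : Type) : Option ι → ℝ := fun a => a.elim 1 fun _ => 0

/-- The data with the extra coordinate. -/
noncomputable def up (X : EB.Dat ι ι' γ T Ω) (h κ : ℝ) (I : Finset ℕ) :
    EA.Dat (Option ι) ι' (Option γ) T Ω where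
  P := X.P
  n := X.n - 1
  U := X.U
  I := I
  Φ := fun k θ => pr2 ((X.Φ k θ).comp ((res ι).prodMap (ContinuousLinearMap.id ℝ _)))
    (exp (κ * (X.l k - h * X.j θ)) •
      (ContinuousLinearMap.proj none).comp (ContinuousLinearMap.fst ℝ _ _))
  Ψ := fun i j => pr2 (exp (-(h * j)) • (X.Ξ i).comp (X.J.comp (res ι)))
    (exp (κ * (X.l i - h * j)) • ContinuousLinearMap.proj none)
  o := oo ι
  j := X.j
  B := fun ω => (fun a => a.elim 0 (X.B ω).1, (X.B ω).2)
  τ := X.τ
  Gd := X.Gd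
  ex := X.ex

variable (X : EB.Dat ι ι' γ T Ω) (h κ : ℝ) (I : Finset ℕ)

theorem nΦ (k : ℕ) (θ : T) (x : (Option ι → ℝ) × (ι' → ℝ)) : ‖(up X h κ I).Φ k θ x‖ =
    max ‖X.Ξ k (X.s θ • X.J (res ι x.1) + X.C θ x.2)‖
      (exp (κ * (X.l k - h * X.j θ)) * |x.1 none|) := by
  refine (norm_pr2 _ _ _).trans ?_
  congr 1
  simp [abs_mul]

theorem nΨ (i j : ℕ) (p : Option ι → ℝ) : ‖(up X h κ I).Ψ i j p‖ =
    max (exp (-(h * j)) * ‖X.Ξ i (X.J (res ι p))‖) (exp (κ * (X.l i - h * j)) * |p none|) := by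
  refine (norm_pr2 _ _ _).trans ?_
  congr 1
  · simp [norm_smul]
  · simp [abs_mul]

theorem res_oo : res ι (oo ι) = 0 := rfl

theorem sg_eq (k : ℕ) (θ : T) :
    (up X h κ I).sg k θ = exp (κ * (X.l k - h * X.j θ)) := by
  change ‖(up X h κ I).Φ k θ (oo ι, 0)‖ = _
  rw [nΦ]
  simp [res_oo, oo, (exp_pos _).le]

theorem nB (k : ℕ) (θ : T) (ω ω' : Ω) :
    ‖(up X h κ I).Φ k θ ((up X h κ I).B ω - (up X h κ I).B ω')‖ =
      ‖X.Φ k θ (X.B ω - X.B ω')‖ := by
  rw [nΦ]
  have : ((up X h κ I).B ω - (up X h κ I).B ω').1 none = 0 := sub_self (0 : ℝ)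
  rw [this, abs_zero, mul_zero, max_eq_left (norm_nonneg _)]
  rfl

theorem nB' (ω ω' : Ω) : ‖(up X h κ I).B ω - (up X h κ I).B ω'‖ = ‖X.B ω - X.B ω'‖ := by
  rw [Prod.norm_def, Prod.norm_def, norm_opt]
  have : ((up X h κ I).B ω - (up X h κ I).B ω').1 none = 0 := sub_self (0 : ℝ)
  rw [this, abs_zero, max_eq_left (norm_nonneg _)]
  rfl

theorem bud_le : (up X h κ I).bud ≤ X.bud :=
  add_le_add (mi_mono ((Fn.comp (fun x : EB.Vv ι ι' =>
      ((fun a : Option ι => a.elim 0 x.1, x.2) : (Option ι → ℝ) × (ι' → ℝ))) X.B).left _))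
    (Finset.sum_le_sum_of_subset_of_nonneg (Finset.range_subset_range.2 (Nat.sub_le _ _))
      fun _ _ _ => pb_nonneg _ _)

variable {X h κ I} {ν C η β r L : ℝ} {R : ℕ} {la : ℕ → ℝ}

theorem nest_iter (H : X.Ok1 h κ ν C η β r L R la) (hβ : 0 ≤ β) {i : ℕ} :
    ∀ k, i < k → k < X.n → X.l k + 12 * β ≤ X.l i ∧
      ∀ x, ‖X.Ξ k x‖ ≤ exp (-(12 * β)) * ‖X.Ξ i x‖ := by
  intro k hk
  induction k, hk using Nat.le_induction with
  | base => exact fun hn => ⟨H.lnest i hn, H.nest i hn⟩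
  | succ k hk ih =>
    intro hn
    obtain ⟨h1, h2⟩ := ih (by omega)
    refine ⟨by linarith [H.lnest k hn], fun x => (H.nest k hn x).trans ?_⟩
    exact (mul_le_of_le_one_left (norm_nonneg _) (exp_le_one_iff.2 (by linarith))).trans (h2 x)

theorem rel (hκ : 0 < κ) (hL : 0 ≤ L) {y : ℝ} (k : exp (κ * y) ≤ exp (6 * (L / 3))) :
    y ≤ EB.cE κ * L := by
  have h1 := exp_le_exp.1 k
  have h2 : y ≤ 2 / κ * L := by
    rw [div_mul_eq_mul_div, le_div_iff₀' hκ]; linarith
  unfold EB.cE; nlinarith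

theorem ok_up (H : X.Ok1 h κ ν C η β r L R la) (hs : ∀ θ, X.Sz h θ) (hg : ∀ θ, X.Ga h κ r L θ)
    (hκ : 0 < κ) (hβ : 0 ≤ β) (hL : 0 ≤ L) {κ' ρ' C' A β' : ℝ} (hI : I ⊆ X.I)
    (k1 : h ≤ κ') (k2 : κ * h ≤ κ') (b1 : β' ≤ β) (b2 : β' ≤ κ * β) (a1 : 1 ≤ A) (a2 : 1 ≤ κ * A)
    (hm : ρ' * κ' * X.U ≤ β' * I.card)
    (hd : ∀ i ∈ I, ∀ k, i ≤ k → k < X.n →
      la k - la i ≤ C' * β' * (k - i : ℕ) ∧ κ * (la k - la i) ≤ C' * β' * (k - i : ℕ))
    (ht : ∀ i ∈ I, L / 3 ≤ β' * (X.n - 1 - i : ℕ)) :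
    (up X h κ I).Ok κ' ρ' C' A (r + 3) β' (L / 3) := by
  have r0 := H.r0
  refine
    { ball := fun ω hω ω' hω' => (nB' X h κ I ω ω').trans_le (H.ball ω hω ω' hω')
      ref := fun i _ θ p => ?_
      slow := fun i _ j p => ?_
      sep := fun i hi i' hi' hii j p => ?_
      low := fun i hi p => ?_
      high := fun i hi => ?_
      u0 := H.u0
      mass := hm
      ex0 := H.ex0
      lv := fun A W hW => H.lv (fun x => A (fun a => a.elim 0 x.1, x.2)) W hW
      r0 := by linarith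
      o1 := ?_
      nest := fun k hk θ x => ?_
      dens := fun i hi k h1 h2 θ x => ?_
      top := ht
      up := fun i hi θ h1 y => ?_
      upp := fun i hi θ y h2 h1 h3 x => ?_
      gp := fun i hi θ h1 k h2 h3 ω hω ω' hω' g g' e e' => ?_
      ac := fun A θ₀ i hi => ?_ }
  · rw [nΦ, nΨ]
    have e : ‖X.Ξ i (X.s θ • X.J (res ι p) + X.C θ 0)‖ = |X.s θ| * ‖X.Ξ i (X.J (res ι p))‖ := by
      simp [norm_smul]
    have h1 : ∀ x : ℝ, 0 ≤ x → x ≤ exp 1 * x := fun x hx =>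
      le_mul_of_one_le_left hx (one_le_exp zero_le_one)
    have h2 := norm_nonneg (X.Ξ i (X.J (res ι p)))
    refine ⟨mx (exp_pos _).le ?_ (h1 _ (by positivity)), mx (exp_pos _).le ?_ (h1 _ (by positivity))⟩
    · rw [e]
      exact (ex_le (c := -1 - h * X.j θ) (le_of_eq (by change -(h * X.j θ) = _; ring)) h2).trans
        (mul_le_mul_of_nonneg_left (mul_le_mul_of_nonneg_right (hs θ).1 h2) (exp_pos _).le)
    · rw [e]
      exact (mul_le_mul_of_nonneg_right (hs θ).2 h2).trans (ex_le (le_of_eq (by ring_nf; rfl)) h2)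
  · rw [nΨ, nΨ]
    push_cast
    exact mx (exp_pos _).le (ex_le (by linarith) (norm_nonneg _))
      (ex_le (by nlinarith) (abs_nonneg _))
  · rw [nΨ, nΨ]
    obtain ⟨h1, h2⟩ := nest_iter H hβ i' hii (H.sub i' (hI hi'))
    refine mx (exp_pos _).le ?_ (ex_le (by nlinarith) (abs_nonneg _))
    rw [mul_left_comm]
    refine mul_le_mul_of_nonneg_left ((h2 _).trans ?_) (exp_pos _).le
    exact mul_le_mul_of_nonneg_right (exp_le_exp.2 (by linarith)) (norm_nonneg _)
  · rw [nΨ]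
    have h1 := (H.lev i (hI hi)).2
    refine max_le ?_ (mul_le_mul (exp_le_exp.2 ?_) (none_le p) (abs_nonneg _) (exp_pos _).le)
    · refine (mul_le_mul_of_nonneg_left (H.up i (hI hi) _) (exp_pos _).le).trans ?_
      rw [← mul_assoc, ← exp_add]
      refine mul_le_mul (exp_le_exp.2 ?_) (res_le p) (norm_nonneg _) (exp_pos _).le
      change -(h * X.U) + _ ≤ _
      linarith
    · change κ * (X.l i - h * X.U) ≤ _
      nlinarith
  · change _ ≤ ‖(up X h κ I).Ψ i 0 (oo ι)‖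
    rw [nΨ]
    refine le_max_of_le_right ?_
    have h1 := (H.lev i (hI hi)).1
    have h2 : κ * (EB.cE κ * L) = 2 * L + 4 * (κ * L) := by unfold EB.cE; field_simp
    simp only [oo, Option.elim, abs_one, mul_one, Nat.cast_zero, mul_zero, sub_zero]
    exact exp_le_exp.2 (by nlinarith [mul_le_mul_of_nonneg_left h1 hκ.le, mul_nonneg hκ.le hL])
  · change ‖oo ι‖ ≤ 1
    rw [norm_opt]; simp [oo]; exact (norm_zero (E := ι → ℝ)).le.trans zero_le_one
  · rw [nΦ, nΦ]
    have hk' : k + 1 < X.n := by change k < X.n - 1 at hk; omega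
    have h1 := H.lnest k hk'
    refine mx (exp_pos _).le ((H.nest k hk' _).trans ?_) (ex_le (by nlinarith) (abs_nonneg _))
    exact mul_le_mul_of_nonneg_right (exp_le_exp.2 (by linarith)) (norm_nonneg _)
  · rw [nΦ, nΦ]
    have hk' : k < X.n := by
      change k ≤ X.n - 1 at h2
      have := H.sub i (hI hi); omega
    obtain ⟨h3, h4⟩ := H.grow i k h1 hk'
    obtain ⟨h5, h6⟩ := hd i hi k h1 hk'
    refine mx (exp_pos _).le ((h4 _).trans ?_) (ex_le (by nlinarith) (abs_nonneg _))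
    exact mul_le_mul_of_nonneg_right (exp_le_exp.2 h5) (norm_nonneg _)
  · rw [sg_eq] at h1 ⊢
    rw [nΦ]
    have h2 := hg θ i (hI hi) (by linarith [rel hκ hL h1]) y
    refine max_le ?_ (by simp; positivity)
    simp only [map_zero, smul_zero, zero_add]
    rw [← exp_add]
    exact h2.trans (mul_le_mul_of_nonneg_right (exp_le_exp.2 (by linarith)) (norm_nonneg _))
  · replace h1 := h3.trans (exp_le_exp.2 h1)
    rw [sg_eq] at h1 h3
    have h4 := exp_le_exp.1 h3
    have h5 : X.l i - h * X.j θ ≤ A * y := by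
      refine le_of_mul_le_mul_left (h4.trans ?_) hκ
      nlinarith
    have h6 : y ≤ A * y := le_mul_of_one_le_left h2 a1
    rw [nΦ]
    refine max_le ?_ (mul_le_mul (exp_le_exp.2 (by linarith))
      ((none_le _).trans (norm_fst_le x)) (abs_nonneg _) (exp_pos _).le)
    rw [map_add, map_smul]
    refine (norm_add_le _ _).trans ?_
    have h7 : ‖X.s θ • X.Ξ i (X.J (res ι x.1))‖ ≤ exp (A * y + r + 1) * ‖x‖ := by
      rw [norm_smul, Real.norm_eq_abs]
      refine (mul_le_mul (hs θ).2 (H.up i (hI hi) _) (norm_nonneg _) (exp_pos _).le).trans ?_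
      rw [← mul_assoc, ← exp_add]
      exact mul_le_mul (exp_le_exp.2 (by linarith)) ((res_le _).trans (norm_fst_le x))
        (norm_nonneg _) (exp_pos _).le
    have h8 : ‖X.Ξ i (X.C θ x.2)‖ ≤ exp (A * y + r + 1) * ‖x‖ :=
      (hg θ i (hI hi) (by linarith [rel hκ hL h1]) _).trans
        (mul_le_mul (exp_le_exp.2 (by linarith)) (norm_snd_le x) (norm_nonneg _) (exp_pos _).le)
    have h9 : 2 * exp (A * y + r + 1) ≤ exp (A * y + (r + 3)) := by
      refine le_trans ?_ (exp_le_exp.2 (show 1 + (A * y + r + 1) ≤ _ by linarith))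
      rw [exp_add 1]
      exact mul_le_mul_of_nonneg_right (by linarith [add_one_le_exp (1 : ℝ)]) (exp_pos _).le
    nlinarith [norm_nonneg x]
  · rw [sg_eq] at h1
    rw [nB]
    intro h4
    have hk' : k < X.n := by change k < X.n - 1 at h3; omega
    exact (H.gp k hk' θ ⟨i, hI hi, h2, by linarith [rel hκ hL h1]⟩ ω hω ω' hω' g g' e e' h4).trans
      (exp_le_exp.2 (by linarith))
  · have h1 := H.ac (fun x => A (fun a => a.elim 0 x.1, x.2)) i
      (fun j => (X.s (θ₀ j))⁻¹ • X.C (θ₀ j)) fun j => hI (hi j)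
    refine le_trans (pb_mono ?_) h1
    rintro ω - ⟨h2, h3, h4, h5, h6⟩
    refine ⟨h2, ?_⟩
    change X.j _ = X.j (X.τ ω) at h3
    change ∀ y, (up X h κ I).sg (i (X.j (X.τ ω))) (X.τ ω) * ‖y‖ ≤ _ → ∃ p,
      ‖(up X h κ I).Φ (i (X.j (X.τ ω))) (X.τ ω) (p, y)‖ ≤ 1 ∧
      ‖(up X h κ I).Φ (i (X.j (X.τ ω))) (θ₀ (X.j (X.τ ω))) (p, y)‖ ≤ 1 at h6
    change _ ≤ (up X h κ I).sg (i (X.j (X.τ ω))) (X.τ ω) at h4
    change (up X h κ I).sg (i (X.j (X.τ ω))) (X.τ ω) ≤ _ at h5
    change X.j (θ₀ (X.j (X.τ ω))) = _ at h3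
    generalize θ₀ (X.j (X.τ ω)) = θ' at *
    generalize i (X.j (X.τ ω)) = k at *
    generalize X.τ ω = θ at *
    rw [sg_eq] at h4 h5 h6
    refine ⟨by linarith [rel hκ hL h5], ?_, fun y => ?_⟩
    · have h7 : 0 ≤ κ * (X.l k - h * X.j θ) := by linarith [exp_le_exp.1 h4]
      linarith [nonneg_of_mul_nonneg_right h7 hκ]
    rcases eq_or_ne y 0 with rfl | hy
    · simp
    have hy' := norm_pos_iff.2 hy
    set g := κ * (X.l k - h * X.j θ)
    set t := exp ((r + 3) - g) / ‖y‖ with ht'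
    have t0 : 0 < t := by positivity
    obtain ⟨p, p1, p2⟩ := h6 (t • y) (le_of_eq (by
      rw [norm_smul, Real.norm_of_nonneg t0.le, ht', div_mul_cancel₀ _ hy'.ne', ← exp_add]
      congr 1; ring))
    rw [nΦ] at p1 p2
    have q1 := (le_max_left _ _).trans p1
    have q2 := (le_max_left _ _).trans p2
    have s0 : 0 < |X.s θ'| := (exp_pos _).trans_le (hs θ').1
    have s1 : X.s θ' ≠ 0 := abs_pos.1 s0
    have s2 : |X.s θ * (X.s θ')⁻¹| ≤ exp 2 := by
      rw [abs_mul, abs_inv, ← div_eq_mul_inv, div_le_iff₀ s0]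
      refine (hs θ).2.trans (le_trans (le_of_eq ?_)
        (mul_le_mul_of_nonneg_left (hs θ').1 (exp_pos _).le))
      rw [← exp_add, h3]; congr 1; ring
    have e1 : t • X.Ξ k (X.C θ y - X.s θ • ((X.s θ')⁻¹ • X.C θ') y) =
        X.Ξ k (X.s θ • X.J (res ι p) + X.C θ (t • y)) -
          (X.s θ * (X.s θ')⁻¹) • X.Ξ k (X.s θ' • X.J (res ι p) + X.C θ' (t • y)) := by
      simp only [map_add, map_sub, map_smul, smul_apply, smul_add, smul_sub,
        smul_smul, inv_mul_cancel_right₀ s1]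
      rw [mul_comm t]; abel
    have e2 := norm_sub_le (X.Ξ k (X.s θ • X.J (res ι p) + X.C θ (t • y)))
      ((X.s θ * (X.s θ')⁻¹) • X.Ξ k (X.s θ' • X.J (res ι p) + X.C θ' (t • y)))
    rw [← e1, norm_smul, norm_smul, Real.norm_of_nonneg t0.le, Real.norm_eq_abs] at e2
    have e3 := mul_le_mul s2 q2 (norm_nonneg _) (exp_pos _).le
    have e4 : 1 + exp 2 ≤ exp 3 := by
      have h7 : exp 3 = exp 1 * exp 2 := by rw [← exp_add]; norm_num
      nlinarith [add_one_le_exp (1 : ℝ), add_one_le_exp (2 : ℝ)]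
    refine le_of_mul_le_mul_left (le_trans (show _ ≤ exp 3 by linarith) ?_) t0
    rw [mul_left_comm, ht', div_mul_cancel₀ _ hy'.ne', ← exp_add]
    exact exp_le_exp.2 (by linarith)

open Classical in
/-- Labels that are not realised are replaced by harmless ones. -/
noncomputable def fix (X : EB.Dat ι ι' γ T Ω) (h κ r L : ℝ) : EB.Dat ι ι' γ T Ω :=
  { X with
    s := fun θ => if X.Sz h θ ∧ X.Ga h κ r L θ then X.s θ else exp (-(h * X.j θ))
    C := fun θ => if X.Sz h θ ∧ X.Ga h κ r L θ then X.C θ else 0 }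

theorem fix_sz (θ : T) : (fix X h κ r L).Sz h θ := by
  by_cases k : X.Sz h θ ∧ X.Ga h κ r L θ
  · have e : (fix X h κ r L).s θ = X.s θ := if_pos k
    unfold EB.Dat.Sz
    rw [e]; exact k.1
  · have e : (fix X h κ r L).s θ = exp (-(h * X.j θ)) := if_neg k
    unfold EB.Dat.Sz
    rw [e, abs_of_pos (exp_pos _)]
    change exp (-1 - h * X.j θ) ≤ _ ∧ _ ≤ exp (1 - h * X.j θ)
    exact ⟨exp_le_exp.2 (by linarith), exp_le_exp.2 (by linarith)⟩

theorem fix_ga (θ : T) : (fix X h κ r L).Ga h κ r L θ := by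
  intro i hi h1 y
  by_cases k : X.Sz h θ ∧ X.Ga h κ r L θ
  · have := k.2 i hi h1 y
    simpa only [fix, k, and_self, if_true] using this
  · simp only [fix]
    rw [if_neg k]
    simp only [zero_apply, map_zero, norm_zero]
    positivity

theorem fix_ok (H : X.Ok1 h κ ν C η β r L R la) : (fix X h κ r L).Ok1 h κ ν C η β r L R la := by
  have e1 : ∀ ω ∈ X.P.S, (fix X h κ r L).s (X.τ ω) = X.s (X.τ ω) := fun ω hω =>
    if_pos ⟨H.sz ω hω, H.ga ω hω⟩
  have e2 : ∀ ω ∈ X.P.S, (fix X h κ r L).C (X.τ ω) = X.C (X.τ ω) := fun ω hω =>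
    if_pos ⟨H.sz ω hω, H.ga ω hω⟩
  refine
    { ball := H.ball, sub := H.sub, nest := H.nest, r0 := H.r0, up := H.up, lev := H.lev
      u0 := H.u0, mass := H.mass, ex0 := H.ex0, lv := H.lv
      sz := fun _ _ => fix_sz _, ga := fun _ _ => fix_ga _
      gp := fun k hk θ h1 ω hω ω' hω' g g' e e' => ?_
      lnest := H.lnest, grow := H.grow, tot := H.tot
      ac := fun A i Γ hi => le_trans (pb_mono ?_) (H.ac A i Γ hi)
      r1 := H.r1, short := H.short, dep := H.dep }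
  · have h2 := H.gp k hk θ h1 ω hω ω' hω' g g' e e'
    have e3 : X.τ ω = θ := e
    rw [EB.Dat.Φ_apply, ← e3, e1 ω hω, e2 ω hω]
    rw [EB.Dat.Φ_apply, ← e3] at h2
    exact h2
  · rintro ω hω ⟨h1, h2, h3, h4⟩
    refine ⟨h1, h2, h3, fun y => ?_⟩
    have h5 := h4 y
    rw [← e1 ω hω, ← e2 ω hω]
    exact h5

open Classical in
theorem good_boxes (H : X.Ok1 h κ ν C η β r L R la) (hν : 0 < ν) (hC : 0 < C) (hβ : 0 < β)
    {m : ℝ} (m0 : 0 < m) (m1 : m ≤ 1) (hη0 : 0 < η) (hη : η ≤ m * ν / 4) (hL : 2 * β ≤ L) :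
    ∃ I ⊆ X.I, (X.I.card : ℝ) ≤ 2 * I.card ∧
      (∀ i ∈ I, ∀ k, i ≤ k → k < X.n → la k - la i ≤ 4 * C * β / ν * (k - i : ℕ)) ∧
      ∀ i ∈ I, L / 3 ≤ m * β * (X.n - 1 - i : ℕ) := by
  set Bad := (Finset.Ico 0 X.n).filter fun i =>
    ∃ k, i < k ∧ k < X.n ∧ 4 * C * β / ν * (k - i : ℕ) < la k - la i with hBad
  set Top := X.I.filter fun i => m * β * (X.n - 1 - i : ℕ) < L / 3 with hTop
  have c1 : ν * L ≤ η * (β * X.I.card) := by
    nlinarith [mul_le_mul_of_nonneg_left H.short hν.le, mul_le_mul_of_nonneg_left H.mass hη0.le]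
  have c0 : (0 : ℝ) ≤ β * X.I.card := by positivity
  have c2 : 4 * L ≤ m * (β * X.I.card) := by
    refine le_of_mul_le_mul_left ?_ hν
    nlinarith [mul_le_mul_of_nonneg_right hη c0]
  have c3 : (8 : ℝ) ≤ X.I.card := by
    refine le_of_mul_le_mul_left ?_ hβ
    nlinarith [mul_le_mul_of_nonneg_right m1 c0]
  have hn : 0 < X.n := by
    obtain ⟨i, hi⟩ := Finset.card_pos.1 (show 0 < X.I.card by exact_mod_cast (by linarith : (0 : ℝ) < X.I.card))
    exact lt_of_le_of_lt (Nat.zero_le _) (H.sub i hi)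
  have b1 : 4 * (Bad.card : ℝ) ≤ X.I.card := by
    have h1 := sun la X.n (lam := 4 * C * β / ν) (T := C * h * X.U) (by positivity)
      (fun i k h1 h2 => by
        rcases h1.eq_or_lt with rfl | h3
        · exact le_rfl
        · linarith [(H.grow i k h1 h2).1, (nest_iter H hβ.le k h3 h2).1])
      (fun k hk => (H.tot k hk).2) X.n 0 hn (by omega)
    have h2 := (H.tot 0 hn).1
    have h3 : 4 * C * β / ν * Bad.card ≤ C * h * X.U := by linarith
    rw [div_mul_eq_mul_div, div_le_iff₀ hν] at h3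
    refine le_of_mul_le_mul_left ?_ (mul_pos hC hβ)
    nlinarith [mul_le_mul_of_nonneg_left H.mass hC.le]
  have b2 : 4 * (Top.card : ℝ) ≤ X.I.card := by
    have mb : 0 < m * β := mul_pos m0 hβ
    have h1 : Top.card ≤ (Finset.range ⌈L / 3 / (m * β)⌉₊).card := by
      refine Finset.card_le_card_of_injOn (fun i => X.n - 1 - i) (fun i hi => ?_)
        fun i hi i' hi' e => ?_
      · have := (Finset.mem_filter.1 hi).2
        exact Finset.mem_coe.2 (Finset.mem_range.2 (Nat.lt_ceil.2 ((lt_div_iff₀' mb).2 this)))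
      · have h2 := H.sub i (Finset.mem_filter.1 hi).1
        have h3 := H.sub i' (Finset.mem_filter.1 hi').1
        simp only at e
        omega
    rw [Finset.card_range] at h1
    have h2 : (Top.card : ℝ) ≤ L / 3 / (m * β) + 1 :=
      (Nat.cast_le.2 h1).trans (Nat.ceil_lt_add_one (by have : 0 ≤ L := by linarith
                                                        positivity)).le
    have h3 : L / 3 / (m * β) ≤ X.I.card / 12 := by
      rw [div_le_iff₀ mb]; nlinarith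
    linarith
  refine ⟨X.I \ (Bad ∪ Top), Finset.sdiff_subset, ?_, fun i hi k h1 h2 => ?_, fun i hi => ?_⟩
  · have h1 := Finset.le_card_sdiff (Bad ∪ Top) X.I
    have h2 := Finset.card_union_le Bad Top
    have h3 : X.I.card ≤ (X.I \ (Bad ∪ Top)).card + Bad.card + Top.card := by omega
    have h4 : (X.I.card : ℝ) ≤ (X.I \ (Bad ∪ Top)).card + Bad.card + Top.card := by
      exact_mod_cast h3
    linarith
  · rcases h1.eq_or_lt with rfl | h3
    · simp
    · by_contra h4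
      exact (Finset.mem_sdiff.1 hi).2 (Finset.mem_union_left _ (Finset.mem_filter.2
        ⟨Finset.mem_Ico.2 ⟨Nat.zero_le _, by omega⟩, k, h3, h2, not_le.1 h4⟩))
  · by_contra h4
    exact (Finset.mem_sdiff.1 hi).2 (Finset.mem_union_right _ (Finset.mem_filter.2
      ⟨(Finset.mem_sdiff.1 hi).1, not_le.1 h4⟩))

/-- The first run follows from its abstract form. -/
theorem wrap (HA : EA.Run1A) : EB.Run1 := by
  intro N h κ ν C hh hκ hν hC
  set m := min 1 κ with hm
  set M := max 1 κ with hM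
  have m0 : 0 < m := lt_min one_pos hκ
  have m1 : m ≤ 1 := min_le_left _ _
  have m2 : m ≤ κ := min_le_right _ _
  have M1 : 1 ≤ M := le_max_left _ _
  have M2 : κ ≤ M := le_max_right _ _
  have ρ0 : 0 < ν * m / (2 * M) := by positivity
  obtain ⟨η', β₀, η0, HA⟩ := HA (2 * N + 1) (h * M) (min 1 (ν * m / (2 * M)))
    (max 1 (4 * C * M / (ν * m))) (max 1 κ⁻¹) (by positivity) (lt_min one_pos ρ0)
    (min_le_left _ _) (le_max_left _ _) (le_max_left _ _)
  refine ⟨min (η' / 6) (m * ν / 4), 1, max 1 (β₀ / m), lt_min (by positivity) (by positivity),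
    zero_le_one, fun β hβ => ?_⟩
  have β1 : 1 ≤ β := (le_max_left _ _).trans hβ
  obtain ⟨K, L₀, K0, HA⟩ := HA (m * β) ((div_le_iff₀' m0).1 ((le_max_right _ _).trans hβ))
  refine ⟨K, max (3 * L₀) (max (2 * β) (18 / η')), K0, ?_⟩
  intro ι ι' γ T Ω _ _ _ _ X r L R la h1 h2 hL H
  have L1 : 3 * L₀ ≤ L := (le_max_left _ _).trans hL
  have L2 : 2 * β ≤ L := (le_max_left _ _).trans ((le_max_right _ _).trans hL)
  have L3 : 18 ≤ η' * L :=
    (div_le_iff₀' η0).1 ((le_max_right _ _).trans ((le_max_right _ _).trans hL))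
  have L4 : 0 ≤ L := by linarith
  have e1 : min (η' / 6) (m * ν / 4) * L ≤ η' / 6 * L :=
    mul_le_mul_of_nonneg_right (min_le_left _ _) L4
  have H' := fix_ok H
  obtain ⟨I, hI, c1, c2, c3⟩ := good_boxes H' hν hC (by linarith) m0 m1
    (lt_min (by positivity) (by positivity)) (min_le_right _ _) L2
  have ok := ok_up (κ' := h * M) (ρ' := min 1 (ν * m / (2 * M)))
    (C' := max 1 (4 * C * M / (ν * m))) (A := max 1 κ⁻¹) (β' := m * β) H' fix_sz fix_ga hκ
    (by linarith) L4 hI (by nlinarith) (by nlinarith) (by nlinarith) (by nlinarith)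
    (le_max_left _ _) (by
      have := mul_le_mul_of_nonneg_left (le_max_right 1 κ⁻¹) hκ.le
      rwa [mul_inv_cancel₀ hκ.ne'] at this) (by
      have h3 : min 1 (ν * m / (2 * M)) * (h * M) * (fix X h κ r L).U ≤
          ν * m / (2 * M) * (h * M) * (fix X h κ r L).U := by
        gcongr; exact min_le_right _ _
      have h4 : ν * m / (2 * M) * (h * M) * (fix X h κ r L).U =
          m / 2 * (ν * h * (fix X h κ r L).U) := by field_simp
      have h5 := mul_le_mul_of_nonneg_left H'.mass (show 0 ≤ m / 2 by positivity)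
      have h6 := mul_le_mul_of_nonneg_left c1 (show 0 ≤ m / 2 * β by positivity)
      nlinarith) (fun i hi k k1 k2 => by
      have h3 := c2 i hi k k1 k2
      have h4 : M * (4 * C * β / ν * (k - i : ℕ)) =
          4 * C * M / (ν * m) * (m * β) * (k - i : ℕ) := by field_simp
      have h5 : 4 * C * M / (ν * m) * (m * β) * (k - i : ℕ) ≤
          max 1 (4 * C * M / (ν * m)) * (m * β) * (k - i : ℕ) := by
        gcongr; exact le_max_right _ _
      have h6 : 0 ≤ 4 * C * β / ν * (k - i : ℕ) := by positivity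
      exact ⟨by nlinarith, by nlinarith [mul_le_mul_of_nonneg_left h3 hκ.le]⟩) c3
  have main := HA (Option ι) ι' (Option γ) T Ω _ (r + 3) (L / 3) R
    (by rw [Fintype.card_option]; omega) (by linarith) (by linarith [H.r1]) ok (by linarith [H.dep])
  have b1 : (up (fix X h κ r L) h κ I).bud ≤ X.bud := bud_le _ h κ I
  have b2 : 0 ≤ X.P.E X.ex := X.P.E_nonneg fun ω _ => H.ex0 ω
  change H17S.hh X.P (fun ω => flv R (X.B ω).2) ≤ _ - _ + _ + L / 3 * X.P.E X.ex at main
  nlinarith [mul_le_mul_of_nonneg_left b1 K0, mul_nonneg L4 b2, mul_nonneg η0.le L4]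

end Pool.Agent.MP_4b405e_nt.EW
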