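import Pool.Agent.MP_4b405e_nt.SK.EA2
import Pool.Agent.MP_4b405e_nt.SK.EWrap8

/-! The first run: the induction. -/

namespace Pool.Agent.MP_4b405e_nt.EA

open Pool.Agent.MP_5168f5_an H19 H17S H17F Real MeasureTheory Pointwise
open EB (Vv)
open Geo (Sym)

variable {ι ι' ν T Ω : Type} [Fintype ι] [Fintype ι'] [Fintype ν]
  {X : Dat ι ι' ν T Ω} {p : Pm} {D D' : Set (Vv ι ι')} {a a' b : ℝ} {Q : FP Ω}

/-- The part of the potential that does not depend on the point. -/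
noncomputable def ps0 (p : Pm) (D : Set (Vv ι ι')) (a : ℝ) : ℝ :=
  lv D + Fintype.card ι' * (p.R + 1) * lg + Gn D a / 2 + p.γ * (a - p.L) +
    (p.q + 3 * p.r + 6 * p.β + 3) + p.v * (lw D + 3 * (p.A * p.q * p.L))

/-- The potential. -/
noncomputable def ps (X : Dat ι ι' ν T Ω) (p : Pm) (s : Set (Vv ι ι') × ℝ) (ω : Ω) : ℝ :=
  ps0 p s.1 s.2 + p.u * Zd X p s.1 (X.τ ω) + bad X p s.1 ω + 2 * p.u * (2 * p.L - s.2) * X.ex ω

/-- The clock. -/
noncomputable def clk (p : Pm) (s : Set (Vv ι ι') × ℝ) : ℝ :=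
  (p.L - s.2) + (p.L - Gn s.1 s.2) + (lw s.1 + 3 * (p.A * p.q * p.L))

theorem E_ps (Q : FP Ω) : Q.E (ps X p (D, a)) = ps0 p D a +
    p.u * Q.E (fun ω => Zd X p D (X.τ ω)) + Q.E (bad X p D) +
      2 * p.u * (2 * p.L - a) * Q.E X.ex := by
  unfold ps
  rw [Q.E_add, Q.E_add, Q.E_add, Q.E_const, Q.E_mul, Q.E_mul]

/-- The invariant. -/
structure Val (X : Dat ι ι' ν T Ω) (p : Pm) (Q : FP Ω) (s : Set (Vv ι ι') × ℝ) : Prop where
  sub : Q.S ⊆ X.P.S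
  mem : ∀ ω ∈ Q.S, ∀ ω' ∈ Q.S, X.B ω - X.B ω' ∈ s.1
  un : X.Lv Q
  ac : X.Ac p.r p.L Q
  bd : Bd X p s.1 s.2

theorem Val.cv {α : Type} {s s' : Set (Vv ι ι') × ℝ} (h : Val X p Q s) (f : Vv ι ι' → α)
    (hb : Bd X p s'.1 s'.2)
    (hf : ∀ ω ∈ Q.S, ∀ ω' ∈ Q.S, f (X.B ω) = f (X.B ω') → X.B ω - X.B ω' ∈ s'.1) :
    ∀ ω ∈ Q.S, Val X p (cv Q (fun ω => f (X.B ω)) (f (X.B ω))) s' := by
  intro ω hω
  have m := QA.EK.mem_cv (F := fun ω => f (X.B ω)) hω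
  refine ⟨fun v hv => h.sub ((m v).1 hv).1, fun v hv v' hv' => hf v ((m v).1 hv).1 v'
    ((m v').1 hv').1 (((m v).1 hv).2.trans ((m v').1 hv').2.symm), fun A W hW => ?_,
    fun A θ₀ i hi => ?_, hb⟩
  · have := QA.EK.her Q X.B f hω (c := (W.card : ℝ) / X.U) (d := 1) (fun _ => True)
      (fun v => X.j (X.τ v) ∈ W) X.ex (fun A => by
        simp only [and_true, one_mul]; exact h.un A W hW) A
    simp only [and_true, one_mul] at this
    exact this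
  · have := QA.EK.her Q X.B f hω (c := 1) (d := 0)
      (fun v => X.Cl p.r p.L (i (X.j (X.τ v))) (X.τ v) (θ₀ (X.j (X.τ v)))) (fun _ => True) X.ex
      (fun A => by simp only [one_mul, zero_mul, zero_add]; exact h.ac A θ₀ i hi) A
    simp only [one_mul, zero_mul, zero_add] at this
    exact this

theorem er_true (Q : FP Ω) : X.er Q (fun _ => True) = Q.E X.ex :=
  Q.E_congr fun _ _ => if_pos trivial

/-- The conclusion of a step. -/
def Stp (X : Dat ι ι' ν T Ω) (p : Pm) (Q : FP Ω) (s : Set (Vv ι ι') × ℝ) : Prop :=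
  ∃ (α : Type) (f : Vv ι ι' → α) (s' : Set (Vv ι ι') × ℝ), clk p s' + 1 ≤ clk p s ∧
    (∀ ω ∈ Q.S, Val X p (cv Q (fun ω => f (X.B ω)) (f (X.B ω))) s') ∧
    hh Q (fun ω => f (X.B ω)) + Q.E (ps X p s') ≤
      Q.E (ps X p s) + p.K * mi Q X.τ (fun ω => f (X.B ω)) fun _ => ()

theorem Val.term (H : Hy X p) (h : Val X p Q (D, a)) (ht : p.L ≤ a ∨ p.L ≤ Gn D a) :
    hh Q (fun ω => flv p.R (X.B ω).2) ≤ Q.E (ps X p (D, a)) := by
  have hb : Bd X p D a := h.bd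
  have h1 := Geo.hh_flv Q (fun ω => (X.B ω).2) hb.ok.sym.shd hb.ok.shd_bd
    (fun y hy => Geo.mem_shd (hb.bo.snd y hy)) (hb.d6.trans H.p.hR)
    fun x hx y hy => Geo.mem_shd (h.mem x hx y hy)
  have x0 : 0 ≤ dd p D a - a + p.r + 2 := by
    unfold dd; linarith [hb.g0, H.q4, H.x.r0, H.β0]
  have h2 : -(p.c * ((dd p D a - a + p.r + 2) / 12 + 2 * p.β)) ≤
      Q.E fun ω => Zd X p D (X.τ ω) := by
    rw [← Q.E_const (-_)]
    exact Q.E_mono fun ω _ => EP.le_Zp (hb.sq H _).dz (by linarith [H.p.a2])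
      (by linarith [H.p.aβ]) H.p.c0 x0 fun i hi he => hb.exc H hi he
  have h3 := mul_le_mul_of_nonneg_left h2 H.p.u0
  have h4 := mul_le_mul_of_nonneg_right H.p.hu
    (show 0 ≤ (dd p D a - a + p.r + 2) / 12 + 2 * p.β by linarith [H.β0])
  have h5 := H.bad0 (D := D) Q
  have h6 : 0 ≤ 2 * p.u * (2 * p.L - a) * Q.E X.ex :=
    mul_nonneg (mul_nonneg (by linarith [H.p.u0]) (by linarith [hb.a2]))
      (Q.E_nonneg fun ω _ => H.x.ex0 ω)
  have h7 := mul_nonneg (show 0 ≤ p.v by linarith [H.p.hw, H.p.w0]) (hb.lw0 H)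
  have h8 : 0 ≤ Gn D a / 4 + p.γ * (a - p.L) := by
    have L0 : 0 ≤ p.L := by linarith [H.Lβ, H.β0]
    rcases ht with k | k
    · nlinarith [hb.g0, H.p.γ0]
    · nlinarith [H.p.γ1, mul_nonneg H.p.γ0 hb.a0]
  rw [E_ps]
  unfold ps0 dd lv at *
  linarith [hb.g0, H.q4, H.x.r0, H.β0]

theorem Val.cut (H : Hy X p) (h : Val X p Q (D, a)) (n : Nx X p D D' a) (F : Vv ι ι' → Option ℤ)
    (hF : hh Q (fun ω => F (X.B ω)) ≤ b)
    (hf : ∀ ω ∈ Q.S, ∀ ω' ∈ Q.S, F (X.B ω) = F (X.B ω') → X.B ω - X.B ω' ∈ D')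
    (h1 : b + p.q / 4 ≤ (Gn D' a - Gn D a) / 4 + p.v * (lw D - lw D'))
    (h2 : 1 ≤ Gn D' a - Gn D a + (lw D - lw D')) : Stp X p Q (D, a) := by
  have hb : Bd X p D a := h.bd
  refine ⟨_, F, (D', a), by unfold clk; linarith, h.cv F n.bd hf, ?_⟩
  have k1 : Q.E (fun ω => Zd X p D' (X.τ ω)) ≤
      Q.E (fun ω => Zd X p D (X.τ ω)) + p.c * (Gn D' a - Gn D a + p.q) := by
    rw [← Q.E_const (p.c * _), ← Q.E_add]
    exact Q.E_mono fun ω _ => hb.zd_cut H n _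
  have g : 0 ≤ Gn D' a - Gn D a := by
    have := lv_mono hb.ok n.bd.ok n.sub
    unfold Gn; linarith
  have k2 := mul_le_mul_of_nonneg_left k1 H.p.u0
  have k3 := mul_le_mul_of_nonneg_right H.p.hu
    (show 0 ≤ Gn D' a - Gn D a + p.q by linarith [H.q4])
  have k4 := hb.bad_mono H n.sub Q
  have k5 := mul_nonneg H.p.K0.le (mi_nonneg (P := Q) X.τ (fun ω => F (X.B ω)) fun _ => ())
  have e : lv D' - lv D = Gn D a - Gn D' a := by unfold Gn; ring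
  rw [E_ps, E_ps]
  unfold ps0
  linarith

theorem Val.step (H : Hy X p) (h : Val X p Q (D, a)) (aL : a < p.L) (gL : Gn D a < p.L) :
    Stp X p Q (D, a) := by
  classical
  have hb : Bd X p D a := h.bd
  have β0 := H.β0
  have q4 := H.q4
  have w0 := H.p.w0
  have K0 := H.p.K0
  have u0 := H.p.u0
  have a2 := H.p.a2
  have v0 : 0 ≤ p.v := by linarith [H.p.hw]
  have x0 : 0 ≤ Q.E X.ex := Q.E_nonneg fun ω _ => H.x.ex0 ω
  have n0 : (0 : ℝ) ≤ Fintype.card ι' := Nat.cast_nonneg _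
  obtain ⟨f, hf1, hf2⟩ := hb.ok.lab_smul Q X.B h.mem (b := 6 * p.β) (by linarith)
  rw [fr_pi, fr_pi] at hf1
  obtain ⟨W, i, hW, hi, hρ, hw⟩ := hb.win H
  have gp : ∀ θ k, X.Gp p.β k θ → ∀ ω ∈ Q.S, ∀ ω' ∈ Q.S, X.Gd k ω → X.Gd k ω' → X.τ ω = θ →
      X.τ ω' = θ → ‖X.Φ k θ (X.B ω - X.B ω')‖ ≤ 1 →
      ‖X.Φ k θ (X.B ω - X.B ω')‖ ≤ exp (-(6 * p.β)) :=
    fun θ k g ω hω ω' hω' => g ω (h.sub hω) ω' (h.sub hω')
  have e1 : exp (-(2 * p.β)) ≤ 1 := exp_le_one_iff.2 (by linarith)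
  set CN : T → Prop := fun θ => X.j θ ∈ W ∧ X.z D θ (i (X.j θ)) ≤ 1 ∧
    X.sg (i (X.j θ)) θ ≤ exp (a + Gn D a + p.q + p.r) with hCN
  rcases killZ Q X.B X.τ (fun θ => X.Φ (i (X.j θ)) θ) (fun θ => X.Gd (i (X.j θ))) D f CN
    (by linarith) w0 h.mem hf2 (fun θ c x hx => (hb.ok.le_sz _ hx).trans c.2.1)
    (fun θ c => gp θ _ (H.x.gp _ (hi _) θ (hb.sg6 ((hw θ c.1).2.trans e1)) _ le_rfl
      (H.lt (hi _)))) with ⟨θ, c, k⟩ | kN
  · obtain ⟨ζ, h1, n, h2⟩ := hb.stN H aL gL (hi _) c.2.1 (hw θ c.1).1 c.2.2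
    obtain ⟨F, h3, h4⟩ := k ζ (5 * p.β) h1 (by linarith) le_rfl
    have g : Gn D a ≤ Gn (Geo.cutS D ζ (exp (-(5 * p.β)))) a := by
      have := lv_mono hb.ok n.bd.ok n.sub
      unfold Gn; linarith
    refine h.cut H n F h3 (fun ω hω ω' hω' e => ⟨h.mem ω hω ω' hω', h4 ω hω ω' hω' e⟩) ?_
      (by linarith [H.p.βq])
    have k1 := mul_le_mul_of_nonneg_left h2 v0
    have k2 := mul_le_mul_of_nonneg_right H.p.hw (show 0 ≤ 5 * p.β + 2 by linarith)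
    have k3 := mul_le_mul_of_nonneg_right H.p.v1 (show 0 ≤ p.q by linarith)
    linarith [H.p.vβ, H.p.v1]
  have exk : ∀ θ, ∃ k, CF X p D θ → k ∈ Finset.Ico (j0 X p D θ) X.n ∧
      exp (-p.β) ≤ X.z D θ k ∧ X.z D θ k ≤ 1 := fun θ => by
    by_cases c : CF X p D θ
    · obtain ⟨k, hk⟩ := c
      exact ⟨k, fun _ => hk⟩
    · exact ⟨0, fun c' => absurd c' c⟩
  choose κ hκ using exk
  rcases killZ Q X.B X.τ (fun θ => X.Φ (κ θ) θ) (fun θ => X.Gd (κ θ)) D f (CF X p D)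
    (by linarith) w0 h.mem hf2 (fun θ c x hx => (hb.ok.le_sz _ hx).trans (hκ θ c).2.2)
    (fun θ c => by
      obtain ⟨k1, k2⟩ := Finset.mem_Ico.1 (hκ θ c).1
      obtain ⟨k3, k4⟩ := EP.i0_mem (k1.trans_lt k2)
      exact gp θ _ (H.x.gp _ k3 θ (hb.sg6 (k4.trans e1)) _ k1 k2)) with ⟨θ, c, k⟩ | kF
  · obtain ⟨ζ, h1, n, h2⟩ := hb.stF H aL gL (hκ θ c).2.1 (hκ θ c).2.2 (hb.small H (hκ θ c).1)
    obtain ⟨F, h3, h4⟩ := k ζ (2 * p.β) h1 (by linarith) (by linarith)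
    have g := lw_mono hb.ok n.bd.ok n.sub
    refine h.cut H n F h3 (fun ω hω ω' hω' e => ⟨h.mem ω hω ω' hω', h4 ω hω ω' hω' e⟩) ?_
      (by linarith [H.p.βq])
    have k1 := mul_nonneg v0 (sub_nonneg.2 g)
    have k2 := mul_le_mul_of_nonneg_right (H.p.hw.trans H.p.v1)
      (show 0 ≤ 2 * p.β + 2 by linarith)
    linarith [H.p.βq]
  set m := mi Q X.τ (fun ω => f (X.B ω)) fun _ => () with hm
  set bN := pb Q fun ω => CN (X.τ ω) ∧ ¬X.Gd (i (X.j (X.τ ω))) ω with hbN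
  set bF := pb Q fun ω => CF X p D (X.τ ω) ∧ ¬X.Gd (κ (X.τ ω)) ω with hbF
  have bN0 : 0 ≤ bN := pb_nonneg _ _
  have bF0 : 0 ≤ bF := pb_nonneg _ _
  rcases le_total (p.q * (3 * p.β + 1) + 7 * p.β) (p.K * (bN + m)) with cW | cW
  · obtain ⟨n, g⟩ := hb.stW H aL gL
    have g2 := lw_mono hb.ok n.bd.ok n.sub
    refine ⟨_, f, (exp (-(6 * p.β)) • D, a + 6 * p.β), by unfold clk; linarith,
      h.cv f n.bd hf2, ?_⟩
    have k1 : Q.E (fun ω => Zd X p (exp (-(6 * p.β)) • D) (X.τ ω)) ≤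
        Q.E (fun ω => Zd X p D (X.τ ω)) + p.c * p.β := by
      rw [← Q.E_const (p.c * _), ← Q.E_add]
      exact Q.E_mono fun ω _ => hb.zd_W H n _
    have k2 := mul_le_mul_of_nonneg_left k1 u0
    have k3 := mul_le_mul_of_nonneg_right H.p.hu (show 0 ≤ p.β by linarith)
    have k4 := hb.bad_drop H n.sub Q CN (fun θ => i (X.j θ)) fun θ c =>
      ⟨H.lt (hi _), hb.bt_W H (hw θ c.1).1 (hw θ c.1).2⟩
    have k5 := lv_mono hb.ok n.bd.ok n.sub
    have k6 := mul_le_mul_of_nonneg_left g2 v0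
    have k7 := mul_nonneg (mul_nonneg u0 (show 0 ≤ p.β by linarith)) x0
    have k8 := mul_le_mul_of_nonneg_right H.p.γ1 (show 0 ≤ p.β by linarith)
    have k9 := mul_le_mul_of_nonneg_right H.p.hq (show 0 ≤ 3 * p.β + 1 by linarith)
    rw [E_ps, E_ps]
    unfold ps0
    linarith
  obtain ⟨n, g⟩ := hb.stP H aL gL
  obtain ⟨f', hg1, hg2⟩ := hb.ok.lab_pay Q X.B h.mem (b := p.a) (by linarith)
  rw [fr_pi] at hg1
  have g2 := lw_mono hb.ok n.bd.ok n.sub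
  refine ⟨_, f', (Geo.payS D (exp (-p.a)), a + p.a), by unfold clk; linarith,
    h.cv f' n.bd hg2, ?_⟩
  have hε : 2 / p.w * (bN + m) ≤ p.ε := by
    rw [div_mul_eq_mul_div, div_le_iff₀ w0]
    exact le_of_mul_le_mul_left (by linarith [H.p.hK]) K0
  set Fr : T → Prop := fun θ => X.j θ ∈ W ∧ 1 < X.z D θ (i (X.j θ)) with hFr
  have k1 : Q.E (fun ω => Zd X p (Geo.payS D (exp (-p.a))) (X.τ ω)) ≤
      Q.E (fun ω => Zd X p D (X.τ ω)) + p.c * p.a * pb Q (fun ω => CF X p D (X.τ ω)) -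
        (p.a - 1) * pb Q fun ω => Fr (X.τ ω) := by
    unfold pb
    rw [← Q.E_mul, ← Q.E_mul, ← Q.E_add, ← Q.E_sub]
    refine Q.E_mono fun ω _ => ?_
    convert hb.zd_P H n (X.τ ω) (Fr (X.τ ω)) fun c =>
      ⟨_, hi _, (hw _ c.1).1, (hw _ c.1).2, c.2⟩
  have far : p.ρ - p.ε - 2 * Q.E X.ex ≤ pb Q fun ω => Fr (X.τ ω) := by
    obtain ⟨o, -, -⟩ := H39F.ex_ge Q fun _ => 0
    have ex0 : ∀ j, ∃ θ₀, (∃ θ, X.j θ = j ∧ X.z D θ (i j) ≤ 1) →
        X.j θ₀ = j ∧ X.z D θ₀ (i j) ≤ 1 := fun j => by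
      by_cases c : ∃ θ, X.j θ = j ∧ X.z D θ (i j) ≤ 1
      · obtain ⟨θ, c⟩ := c
        exact ⟨θ, fun _ => c⟩
      · exact ⟨X.τ o, fun c' => absurd c' c⟩
    choose θ₀ hθ using ex0
    have l1 := h.un (fun _ => True) W hW
    have l2 := h.ac (fun _ => True) θ₀ i hi
    rw [er_true] at l1 l2
    rw [pb_true, mul_one] at l1
    have l3 : pb Q (fun ω => True ∧ X.j (X.τ ω) ∈ W) ≤ pb Q fun ω => Fr (X.τ ω) ∨ CN (X.τ ω) ∨
        True ∧ X.Cl p.r p.L (i (X.j (X.τ ω))) (X.τ ω) (θ₀ (X.j (X.τ ω))) := by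
      refine pb_mono fun ω _ c => ?_
      rcases lt_or_ge 1 (X.z D (X.τ ω) (i (X.j (X.τ ω)))) with u | u
      · exact Or.inl ⟨c.2, u⟩
      rcases le_or_gt (X.sg (i (X.j (X.τ ω))) (X.τ ω)) (exp (a + Gn D a + p.q + p.r)) with v | v
      · exact Or.inr (Or.inl ⟨c.2, u, v⟩)
      obtain ⟨t1, t2⟩ := hθ _ ⟨_, rfl, u⟩
      refine Or.inr (Or.inr ⟨trivial, t1, (exp_le_exp.2 (by linarith [hb.a0, hb.g0])).trans v.le,
        hb.sg6 ((hw _ c.2).2.trans e1), fun y hy => ?_⟩)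
      obtain ⟨x, hx, rfl⟩ := inrad hb.ok H.q2 y (by
        refine le_of_mul_le_mul_left (((mul_le_mul_of_nonneg_right v.le (norm_nonneg y)).trans
          hy).trans_eq ?_) (exp_pos _)
        rw [← exp_add]; congr 1; ring)
      exact ⟨x.1, (hb.ok.le_sz _ hx).trans u, (hb.ok.le_sz _ hx).trans t2⟩
    have l4 := pb_or Q (fun ω => Fr (X.τ ω)) fun ω => CN (X.τ ω) ∨
      True ∧ X.Cl p.r p.L (i (X.j (X.τ ω))) (X.τ ω) (θ₀ (X.j (X.τ ω)))
    have l5 := pb_or Q (fun ω => CN (X.τ ω)) fun ω =>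
      True ∧ X.Cl p.r p.L (i (X.j (X.τ ω))) (X.τ ω) (θ₀ (X.j (X.τ ω)))
    linarith
  have k4 := hb.bad_drop H n.sub Q (CF X p D) κ fun θ c => ⟨(Finset.mem_Ico.1 (hκ θ c).1).2,
    hb.bt_P H (hκ θ c).2.1 (hκ θ c).2.2 (hb.small H (hκ θ c).1)⟩
  have t0 : 0 < p.w⁻¹ := inv_pos.2 w0
  have kF' : pb Q (fun ω => CF X p D (X.τ ω)) ≤ 2 * (p.w⁻¹ * bF) + p.ε := by
    have := mul_nonneg t0.le bN0
    rw [div_eq_mul_inv] at kF hε
    linarith
  have k2 := mul_le_mul_of_nonneg_left k1 u0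
  have k3 := mul_le_mul_of_nonneg_right H.p.hu (mul_nonneg (show 0 ≤ p.a by linarith)
    (pb_nonneg Q fun ω => CF X p D (X.τ ω)))
  have k5 := mul_le_mul_of_nonneg_left kF' (show 0 ≤ p.a by linarith)
  have k6 := mul_le_mul_of_nonneg_left far (mul_nonneg (show 0 ≤ p.a - 1 by linarith) u0)
  have k7 := mul_le_mul_of_nonneg_right a2 (mul_nonneg t0.le bF0)
  have k8 := mul_le_mul_of_nonneg_left g2 v0
  have k9 := mul_nonneg K0.le (mi_nonneg (P := Q) X.τ (fun ω => f' (X.B ω)) fun _ => ())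
  have k10 := mul_nonneg u0 x0
  have e : lv (Geo.payS D (exp (-p.a))) = lv D - Fintype.card ι' * p.a := by
    unfold Gn at g; linarith
  rw [div_eq_mul_inv] at k4
  rw [E_ps, E_ps]
  unfold ps0
  linarith [H.p.hP, H.q2]

theorem ok_ball : Geo.Ok (Metric.closedBall (0 : Vv ι ι') 1) (exp (-0)) (exp (-0)) := by
  refine ⟨⟨convex_closedBall _ _, fun x hx => by simpa using hx, by simp⟩,
    fun x hx => by simpa using hx, exp_pos _, fun x hx => by simpa using hx, fun x hx => ?_⟩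
  simpa using (norm_snd_le x).trans (mem_closedBall_zero_iff.1 hx)

theorem core (H : Hy X p) : hh X.P (fun ω => flv p.R (X.B ω).2) ≤
    Fintype.card ι' * p.R * lg - p.γ * p.L + (4 * p.q + 6 * p.r + 12 * p.β + 6) +
      3 * (p.v * (p.A * p.q) * p.L) + ((p.β + p.a) / p.w + p.K) * X.bud + p.L * X.P.E X.ex := by
  set D : Set (Vv ι ι') := Metric.closedBall 0 1
  have ok : Geo.Ok D (exp (-0)) (exp (-0)) := ok_ball
  have β0 := H.β0
  have q4 := H.q4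
  have r0 := H.x.r0
  have g0 : Gn D 0 = 0 := by
    have h1 := lv_le ok
    have h2 := lv_ge ok
    unfold Gn; linarith
  have d0 : dd p D 0 = p.q + 2 * p.r + 5 * p.β + 1 := by unfold dd; linarith
  have hb : Bd X p D 0 := by
    refine ⟨ok.mono (exp_pos _) (exp_le_exp.2 (by rw [d0]; nlinarith [H.p.A1])) le_rfl,
      Bo.mono (d := 0) (fun t y ht hy => ?_) (by linarith), le_rfl, by linarith [H.Lβ], ?_⟩
    · rw [neg_zero, exp_zero] at ht hy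
      rw [mem_closedBall_zero_iff, Prod.norm_mk, norm_smul]
      exact max_le (mul_le_one₀ ht (norm_nonneg _) H.x.o1) hy
    · nlinarith [H.p.hL, H.p.rL]
  have k := QA.EK.indG X.τ X.B (QA.EK.tgt_hh fun ω => flv p.R (X.B ω).2) (Val X p) (ps X p)
    (clk p) H.p.K0.le (fun Q s hs => by
      obtain ⟨D, a⟩ := s
      by_cases c : p.L ≤ a ∨ p.L ≤ Gn D a
      · exact Or.inl (hs.term H c)
      · push Not at c
        refine Or.inr ⟨?_, hs.step H c.1 c.2⟩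
        have := hs.bd.lw0 H
        unfold clk
        linarith [c.1, c.2]) X.P (D, 0)
    ⟨subset_rfl, fun ω hω ω' hω' => mem_closedBall_zero_iff.2 (H.x.ball ω hω ω' hω'), H.x.lv,
      H.x.ac, hb⟩
  have k1 : X.P.E (fun ω => Zd X p D (X.τ ω)) ≤ dd p D 0 - 0 + p.r + 2 + p.a := by
    rw [← X.P.E_const (_ + p.a)]
    exact X.P.E_mono fun ω _ => EP.Zp_le (by linarith [H.p.a2]) (by linarith [H.p.aβ]) H.p.c0
      (by linarith) fun i hi he => hb.exc H hi he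
  have k2 := mul_le_mul_of_nonneg_left k1 H.p.u0
  have k3 := mul_le_mul_of_nonneg_right H.p.u1
    (show 0 ≤ dd p D 0 - 0 + p.r + 2 + p.a by linarith [H.p.a2])
  have k4 := H.bad1 (D := D) X.P
  have k5 := mul_le_mul_of_nonneg_right H.p.u1 (mul_nonneg (show 0 ≤ p.L by linarith [H.Lβ])
    (X.P.E_nonneg fun ω _ => H.x.ex0 ω))
  have k6 := mul_nonneg (div_nonneg (show 0 ≤ p.β + p.a by linarith [H.p.a2]) H.p.w0.le)
    (mi_nonneg (P := X.P) X.τ X.B fun _ => ())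
  have k7 := lv_le ok
  have n0 : (0 : ℝ) ≤ Fintype.card ι := Nat.cast_nonneg _
  have n1 : (0 : ℝ) ≤ Fintype.card ι' := Nat.cast_nonneg _
  have k8 : p.v * lw D ≤ p.q := by
    have := mul_le_mul_of_nonneg_left (lw_le ok) (show 0 ≤ p.v by linarith [H.p.hw, H.p.w0])
    have := mul_le_mul_of_nonneg_right H.p.v1 (mul_nonneg n0 lg_pos.le)
    nlinarith [H.q1, lg_lt_one]
  have k9 := mul_le_mul_of_nonneg_left lg_lt_one.le n1
  rw [E_ps] at k
  unfold ps0 Dat.bud at *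
  linarith [H.q2, H.p.aβ]

theorem run1A : Run1A := by
  intro M κ ρ C A κ0 ρ0 ρ1 C1 A1
  obtain ⟨q, hq⟩ : ∃ q : ℝ, q = 2 * M + 4 := ⟨_, rfl⟩
  have q4 : 4 ≤ q := by linarith [Nat.cast_nonneg (α := ℝ) M]
  obtain ⟨u, hu⟩ : ∃ u : ℝ, u = 1 / (8 * C) := ⟨_, rfl⟩
  have u0 : 0 < u := by rw [hu]; positivity
  have uC : u * C = 1 / 8 := by rw [hu]; field_simp
  have u8 : u ≤ 1 / 8 := by nlinarith
  have t0 : 0 < ρ * u := mul_pos ρ0 u0
  have t1 : ρ * u ≤ 1 / 8 := by nlinarith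
  obtain ⟨a, ha⟩ : ∃ a : ℝ, a = 10 * q / (ρ * u) := ⟨_, rfl⟩
  have ea : a * (ρ * u) = 10 * q := by rw [ha]; field_simp
  have a2 : 2 ≤ a := by nlinarith
  obtain ⟨v, hv⟩ : ∃ v : ℝ, v = ρ * u / 8 / (50 * (A * q)) := ⟨_, rfl⟩
  have Aq : 4 ≤ A * q := by nlinarith
  have v0 : 0 < v := by rw [hv]; positivity
  have ev : v * (A * q) = ρ * u / 400 := by rw [hv]; field_simp; ring
  have v1 : v ≤ 1 := by nlinarith
  refine ⟨ρ * u / 80, 4 * a + κ + 8 + 4 * q + (4 + 4 * q) / v, by positivity, fun β hβ => ?_⟩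
  have d0 : 0 ≤ (4 + 4 * q) / v := by positivity
  have β0 : 0 < β := by linarith
  obtain ⟨K, hK⟩ : ∃ K : ℝ, K = 2 * (q * (3 * β + 1) + 7 * β) / (ρ * u / 2 * (v / 20)) := ⟨_, rfl⟩
  have K0 : 0 < K := by rw [hK]; positivity
  refine ⟨(β + a) / (v / 20) + K, 11 * β + 9 * (β * q) + q + 1 +
    (4 * q + 12 * β + 6) * 40 / (ρ * u), by positivity, fun ι ι' ν T Ω _ _ _ X r L R hM hL hr hX hR
      => ?_⟩
  have d1 : 0 ≤ (4 * q + 12 * β + 6) * 40 / (ρ * u) := by positivity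
  have d2 : 0 ≤ β * q := by positivity
  have L0 : 0 ≤ L := by linarith
  have hM' : (Fintype.card ι : ℝ) + Fintype.card ι' ≤ M := by exact_mod_cast hM
  have k := core (X := X) (p := ⟨κ, ρ, C, A, β, r, L, q, 2 * C, u, ρ * u / 8, a, v, v / 20, K,
    ρ * u / 2, R⟩) ⟨hX, by
      constructor <;> dsimp only
      · exact κ0
      · exact ρ0
      · exact A1
      · linarith
      · linarith
      · nlinarith [mul_le_mul_of_nonneg_left (show 4 * a ≤ β by linarith) (show 0 ≤ C by linarith)]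
      · exact u0.le
      · linarith
      · linarith
      · linarith
      · linarith
      · exact a2
      · linarith
      · linarith
      · linarith
      · exact v1
      · linarith
      · linarith
      · rw [← div_le_iff₀' v0]; linarith
      · exact K0
      · rw [hK, mul_div_cancel₀ _ (by positivity)]
      · have : (a - 1) * u * (ρ * u / 2) ≤ (a - 1) * (1 / 8) * (ρ * u / 2) := by
          gcongr; linarith
        nlinarith
      · nlinarith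
      · linarith
      · exact hR⟩
  dsimp only at k
  have k2 : (4 * q + 12 * β + 6) * 40 ≤ L * (ρ * u) := by
    rw [← div_le_iff₀ t0]; linarith
  rw [ev] at k
  linarith

/-- The first run. -/
theorem run1 : EB.Run1 := EW.wrap run1A

end Pool.Agent.MP_4b405e_nt.EA
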