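import Pool.Agent.MP_4b405e_nt.SK.EDef

/-! Facts at a valid state of the first run. -/

namespace Pool.Agent.MP_4b405e_nt.EB

open Pool.Agent.MP_5168f5_an H19 H17S H17F Real MeasureTheory Pointwise
open Geo (Sym sz es sec shd cutS payS)

variable {ι ι' γ T Ω : Type} [Fintype ι] [Fintype ι'] [Fintype γ]

/-- The nesting of boxes, iterated. -/
theorem nest_iter (X : Dat ι ι' γ T Ω) {β : ℝ}
    (h : ∀ k, k + 1 < X.n → ∀ x, ‖X.Ξ (k + 1) x‖ ≤ exp (-(12 * β)) * ‖X.Ξ k x‖) (i d : ℕ) :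
    i + d < X.n → ∀ x, ‖X.Ξ (i + d) x‖ ≤ exp (-(12 * β * d)) * ‖X.Ξ i x‖ := by
  induction d with
  | zero => intro _ x; simp
  | succ d ih =>
    intro hd x
    have h1 := h (i + d) (by omega) x
    have h2 := ih (by omega) x
    have h3 : exp (-(12 * β * ((d + 1 : ℕ) : ℝ))) = exp (-(12 * β)) * exp (-(12 * β * d)) := by
      rw [← exp_add]; congr 1; push_cast; ring
    rw [h3, mul_assoc, ← add_assoc]
    exact h1.trans (mul_le_mul_of_nonneg_left h2 (exp_pos _).le)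

/-- Numerical consequences of the conditions on the constants. -/
theorem nm_facts {σ : Cn} (N : σ.Nm ι ι') (hr : 0 ≤ σ.r) :
    0 ≤ σ.c₂ ∧ 0 < σ.β ∧ 0 ≤ cV ι ι' ∧ cV ι ι' < σ.β ∧ 0 ≤ σ.c * σ.L ∧ σ.c * σ.L ≤ σ.L / 8 ∧
    6 * σ.β * Fintype.card ι' + 6 * σ.β + cV ι ι' + 5 ≤ σ.L / 2 ∧
    0 ≤ 6 * σ.β * Fintype.card ι' ∧ σ.xm ι ι' ≤ 7 * σ.L / 8 ∧
    σ.Gm ι' + 2 * σ.r + 5 * σ.β + cV ι ι' + 5 ≤ σ.xm ι ι' := by
  have hC := N.C0
  have hκ := N.κ0
  have hν := N.ν0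
  have hν1 := N.ν1
  have hb := N.b2
  have hbβ := N.bβ
  have hv := N.vβ
  have hr1 := N.r1
  have hbig := N.big
  have hc2 : 0 ≤ σ.c₂ := by unfold Cn.c₂; positivity
  have hc2' : σ.c₂ ≤ 1 / 2 := by
    unfold Cn.c₂
    apply one_div_le_one_div_of_le (by norm_num); linarith
  have he0 : 0 ≤ σ.η₀ := by unfold Cn.η₀; positivity
  have he1 : σ.η₀ ≤ 1 / 8 := by
    unfold Cn.η₀; nlinarith
  have hcκ : (1 + σ.κ) * σ.c = σ.η₀ := by unfold Cn.c; field_simp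
  have hc0 : 0 ≤ σ.c := by unfold Cn.c; positivity
  have hc1 : σ.c ≤ 1 / 8 := by nlinarith
  have hβ : 0 < σ.β := by linarith
  have hV : 0 ≤ cV ι ι' := by unfold cV; positivity
  have hm : 0 ≤ 6 * σ.β * Fintype.card ι' := by positivity
  have hW0 : 0 ≤ 6 * σ.β * Fintype.card ι' + 6 * σ.β + cV ι ι' + 5 := by positivity
  have hW : 6 * σ.β * Fintype.card ι' + 6 * σ.β + cV ι ι' + 5 ≤ σ.L / 2 := by nlinarith
  have hL : 0 ≤ σ.L := by linarith
  have hcL : 0 ≤ σ.c * σ.L := by positivity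
  have hcL1 : σ.c * σ.L ≤ σ.L / 8 := by nlinarith
  have hκcL : (1 + σ.κ) * (σ.c * σ.L) ≤ σ.L / 8 := by
    rw [← mul_assoc, hcκ]; nlinarith
  have hκr : (1 + σ.κ) * σ.r ≤ σ.L / 8 :=
    (mul_le_mul_of_nonneg_left hr1 (by linarith)).trans hκcL
  refine ⟨hc2, hβ, hV, by linarith, hcL, hcL1, hW, hm, ?_, ?_⟩
  · unfold Cn.xm Cn.Gm; nlinarith
  · have : 0 ≤ σ.Gm ι' + 2 * σ.r + 5 * σ.β + cV ι ι' + 5 := by unfold Cn.Gm; positivity
    unfold Cn.xm; nlinarith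

theorem three_exp (x : ℝ) : 3 * exp (x - 2) ≤ exp x := by
  have h1 : exp x = exp 2 * exp (x - 2) := by rw [← exp_add]; congr 1; ring
  have h2 := add_one_le_exp (2 : ℝ)
  have h3 := exp_pos (x - 2)
  nlinarith

theorem sFact : SFact := by
  intro pC gA gS ι ι' γ T Ω _ _ _ X σ Q s H V
  obtain ⟨D, a⟩ := s
  have N := H.nm
  have O := H.ok
  have hr := O.r0
  obtain ⟨hc2, hβ, hV, hVβ, hcL, hcL1, hW, hm, hxm, hxm'⟩ := nm_facts N hr
  have hκ := N.κ0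
  have hb := N.b2
  have hbβ := N.bβ
  have hr1 := N.r1
  have hBd : Bd D a := V.bd
  have ha0 : 0 ≤ a := V.a0
  have ha1 : a ≤ σ.L + σ.b := V.a1
  have hG1 : Gn D a ≤ σ.c * σ.L + 6 * σ.β * Fintype.card ι' := V.g1
  have hSb : Sb D (σ.dE ι ι' a (Gn D a)) := V.sb
  have hLa : La D (σ.Λ ι ι') := V.la
  obtain ⟨hG0, -, hlw, -⟩ := (gA ι ι').2 D a hBd
  have hL : 0 ≤ σ.L := by linarith
  have hGm : σ.Gm ι' = σ.c * σ.L + 6 * σ.β * Fintype.card ι' := rfl
  have hfb : σ.fb ι ι' a ≤ 2 * σ.L := by unfold Cn.fb; rw [hGm]; linarith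
  have hdE : σ.dE ι ι' a (Gn D a) + 1 ≤ cE σ.κ * σ.L := by
    have h1 : σ.fb ι ι' a / σ.κ ≤ 2 * σ.L / σ.κ := div_le_div_of_nonneg_right hfb hκ.le
    have h2 : cE σ.κ * σ.L = 2 * σ.L / σ.κ + 4 * σ.L := by unfold cE; ring
    unfold Cn.dE; rw [h2]; linarith
  have hκdE : σ.κ * (σ.dE ι ι' a (Gn D a) + 1) =
      σ.κ * (5 * σ.β + 2 + σ.r + Gn D a) + σ.fb ι ι' a := by
    unfold Cn.dE; field_simp; ring
  have hy : ∀ (θ : T), ∀ i ∈ X.I, exp (X.l i - σ.dE ι ι' a (Gn D a)) ≤ X.y i D := by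
    intro θ i hi
    obtain ⟨p, hp, hp'⟩ := O.lo i hi
    have h1 := (gS ι ι' γ T Ω X D a i θ hBd).2.2.2.2.1 _ p hSb hp
    refine le_trans ?_ h1
    rw [sub_eq_neg_add, exp_add]
    exact mul_le_mul_of_nonneg_left hp' (exp_pos _).le
  refine ⟨?_, ?_, ?_, ?_⟩
  · unfold Dat.rm
    apply div_nonneg _ (by linarith)
    have h1 := (hlw _ hSb).1
    have h2 : (Fintype.card ι : ℝ) * σ.dE ι ι' a (Gn D a) ≤ Fintype.card ι * (cE σ.κ * σ.L) :=
      mul_le_mul_of_nonneg_left (by linarith) (by positivity)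
    show 0 ≤ lw D + _
    linarith
  · show a + Gn D a + cV ι ι' ≤ σ.R * lg
    have := N.dep
    linarith
  · intro i hi
    obtain ⟨ω, -⟩ : ∃ ω, ω ∈ X.P.S := by
      by_contra hne
      push Not at hne
      have h1 := X.P.sum_one
      rw [Finset.sum_eq_zero (fun ω hω => absurd hω (hne ω))] at h1
      exact zero_ne_one h1
    refine le_trans ?_ (hy (X.τ ω) i hi)
    apply one_le_exp
    have := (O.lev i hi).1
    linarith
  · rintro θ ⟨ω, hω, rfl⟩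
    set θ := X.τ ω with hθ
    have hSz := O.sz ω hω
    have hGa := O.ga ω hω
    have hg := fun k => gS ι ι' γ T Ω X D a k θ hBd
    have he0 : ∀ k, 0 ≤ X.e k θ D := fun k => by
      rw [(hg k).1]; exact mul_nonneg (abs_nonneg _) (hg k).2.1
    have hz0 : ∀ k, 0 ≤ X.z k θ D := fun k => (he0 k).trans (hg k).2.2.1
    have hns : Ns σ.β X.n fun k => X.z k θ D :=
      ⟨hz0, fun k hk => ((hg k).2.2.2.2.2.1 (k + 1) _ (exp_pos _).le (O.nest k hk)).1⟩
    have hit : ∀ i k, i ≤ k → k < X.n →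
        X.z k θ D ≤ exp (-(12 * σ.β * ((k - i : ℕ) : ℝ))) * X.z i θ D ∧
        X.e k θ D ≤ exp (-(12 * σ.β * ((k - i : ℕ) : ℝ))) * X.e i θ D := by
      intro i k hik hk
      have h1 := nest_iter X O.nest i (k - i) (by omega)
      rw [Nat.add_sub_cancel' hik] at h1
      have h2 := (hg i).2.2.2.2.2.1 k _ (exp_pos _).le h1
      exact ⟨h2.1, h2.2.1⟩
    have hAl : ∀ i ∈ X.Al σ.β θ D, i ∈ X.I ∧ X.e i θ D ≤ exp (-(2 * σ.β)) := by
      intro i hi
      unfold Dat.Al at hi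
      exact Finset.mem_filter.1 hi
    have hl : ∀ i ∈ X.Al σ.β θ D, X.l i - σ.h * X.j θ ≤ σ.dE ι ι' a (Gn D a) + 1 := by
      intro i hi
      obtain ⟨hiI, hie⟩ := hAl i hi
      have h1 : exp (-1 - σ.h * X.j θ) * exp (X.l i - σ.dE ι ι' a (Gn D a)) ≤ X.e i θ D := by
        rw [(hg i).1]
        exact mul_le_mul hSz.1 (hy θ i hiI) (exp_pos _).le (abs_nonneg _)
      rw [← exp_add] at h1
      have h2 := exp_le_exp.1 (h1.trans hie)
      linarith
    have hzx : ∀ i ∈ X.Al σ.β θ D, X.z i θ D ≤ exp (σ.xm ι ι') := by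
      intro i hi
      obtain ⟨hiI, hie⟩ := hAl i hi
      have h0 := hl i hi
      have hΛ : 1 ≤ σ.Λ ι ι' := by
        unfold Cn.Λ; linarith [exp_pos (5 * σ.β + σ.r + σ.fb ι ι' 0)]
      have h1 := (hg i).2.2.2.2.2.2.2.1 _ _ hΛ (exp_pos _).le hLa (hGa i hiI (by linarith))
      have h2 : σ.Λ ι ι' * X.e i θ D ≤ σ.Λ ι ι' * 1 := by
        refine mul_le_mul_of_nonneg_left (hie.trans ?_) (by linarith)
        rw [exp_le_one_iff]; linarith
      have h3 : (1 : ℝ) ≤ exp (σ.xm ι ι' - 2) := by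
        apply one_le_exp; rw [hGm] at hxm'; linarith
      have h4 : exp (5 * σ.β + σ.r + σ.fb ι ι' 0) ≤ exp (σ.xm ι ι' - 2) := by
        apply exp_le_exp.2; unfold Cn.fb; linarith
      have h5 : exp (σ.κ * (X.l i - σ.h * X.j θ) + σ.r) * exp (-a) ≤ exp (σ.xm ι ι' - 2) := by
        rw [← exp_add]
        apply exp_le_exp.2
        have h6 := mul_le_mul_of_nonneg_left h0 hκ.le
        rw [hκdE] at h6
        have h7 : σ.κ * (5 * σ.β + 2 + σ.r + Gn D a) ≤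
            σ.κ * (σ.Gm ι' + 2 * σ.r + 5 * σ.β + cV ι ι' + 5) :=
          mul_le_mul_of_nonneg_left (by rw [hGm]; linarith) hκ.le
        unfold Cn.fb at h6
        unfold Cn.xm
        linarith
      have h8 := three_exp (σ.xm ι ι')
      unfold Cn.Λ at h1 h2
      linarith
    have hP := pC σ.β σ.b σ.c₂ (σ.xm ι ι') X.n (X.Al σ.β θ D) (fun k => X.z k θ D) hc2
      (by linarith) (by linarith) hβ (by rw [hGm] at hxm'; linarith) hns hzx
    refine ⟨hns, hP.1, hP.2, fun i hi => ?_⟩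
    obtain ⟨hiI, hie⟩ := hAl i hi
    have h0 := hl i hi
    have hin := O.sub i hiI
    have hl' : X.l i ≤ σ.h * X.j θ + cE σ.κ * σ.L := by linarith
    refine ⟨hl', ?_, fun k hik hk => ⟨?_, O.gp k hk θ ⟨i, hiI, hik, hl'⟩, ?_⟩, fun h4 i' hi' => ?_⟩
    · have h1 := (hit i (X.n - 1) (by omega) (by omega)).1
      have h2 := mul_le_mul_of_nonneg_left (hzx i hi)
        (exp_pos (-(12 * σ.β * ((X.n - 1 - i : ℕ) : ℝ)))).le
      refine (h1.trans h2).trans ?_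
      rw [← exp_add, exp_le_one_iff]
      have h3 := O.top i hiI
      have h4 : ((X.n - i : ℕ) : ℝ) = ((X.n - 1 - i : ℕ) : ℝ) + 1 := by
        have : X.n - i = X.n - 1 - i + 1 := by omega
        rw [this]; push_cast; ring
      rw [h4] at h3
      linarith
    · have h1 := (hit i k hik hk).2
      have h2 : exp (-(12 * σ.β * ((k - i : ℕ) : ℝ))) ≤ 1 := by
        rw [exp_le_one_iff, neg_nonpos]; positivity
      have h3 := mul_le_mul_of_nonneg_right h2 (he0 i)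
      show X.e k θ D ≤ _
      linarith
    · exact ((hg k).2.2.2.2.2.1 i _ (exp_pos _).le (O.dens i hiI k hik hk)).1
    · by_contra hlt
      push Not at hlt
      have h1 := (hit i' i hlt.le hin).2
      have h2 := mul_le_mul_of_nonneg_left (hAl i' hi').2
        (exp_pos (-(12 * σ.β * ((i - i' : ℕ) : ℝ)))).le
      have h3 : exp (-(4 * σ.β)) ≤ _ := le_trans h4 (h1.trans h2)
      rw [← exp_add, exp_le_exp] at h3
      have h5 : (1 : ℝ) ≤ ((i - i' : ℕ) : ℝ) := by exact_mod_cast (by omega : 1 ≤ i - i')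
      nlinarith

end Pool.Agent.MP_4b405e_nt.EB
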