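import Pool.Agent.MP_4b405e_nt.SK.EDef

/-! The process on the side of the noise: the mass of the far forms. -/

namespace Pool.Agent.MP_4b405e_nt.EB

open Pool.Agent.MP_5168f5_an H19 H17S H17F Real

theorem sFar' : SFar := by
  classical
  intro gS wi fa ι ι' γ T Ω _ _ _ X σ Q s H V
  obtain ⟨-, -, f3, f4⟩ := fa ι ι' γ T Ω X σ Q s H V
  have o := H.ok
  have nm := H.nm
  have U0 : (0 : ℝ) < X.U := by exact_mod_cast o.u0
  have hU : 0 < σ.h * X.U := mul_pos nm.h0 U0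
  have ne : X.I.Nonempty := by
    rcases X.I.eq_empty_or_nonempty with e | e
    · have := o.mass
      rw [e] at this
      simp only [Finset.card_empty, Nat.cast_zero, mul_zero] at this
      nlinarith [mul_pos nm.ν0 hU]
    · exact e
  obtain ⟨W, i, w1, w2, w3, w4⟩ := wi ι ι' γ T Ω X σ.h σ.ν σ.β σ.r _ s.2 s.1 X.I nm.h0 nm.hβ o.toOk
    V.bd subset_rfl f3 ne
  have er : X.er Q (fun _ => True) = Q.E X.ex := by simp [Dat.er]
  have l1 := V.lv (fun _ => True) W w1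
  have one : pb Q (fun _ => True) = 1 := by simp [pb, FP.E_const]
  rw [er, one, mul_one] at l1
  have l2 : σ.ν ≤ (W.card : ℝ) / X.U := by
    rw [le_div_iff₀ U0]
    have := o.mass
    nlinarith [nm.h0]
  let Fb : T → Prop := fun θ => X.Re θ ∧ X.z (i (X.j θ)) θ s.1 ≤ 1
  let Γ : ℕ → (ι' → ℝ) →L[ℝ] (γ → ℝ) := fun j =>
    if e : ∃ θ, Fb θ ∧ X.j θ = j then (X.s e.choose)⁻¹ • X.C e.choose else 0
  have a1 := V.ac (fun _ => True) i Γ w2
  rw [er] at a1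
  have sz : ∀ θ, X.Re θ → X.Sz σ.h θ := by rintro _ ⟨ω, hω, rfl⟩; exact o.sz ω hω
  have key : ∀ ω ∈ Q.S, (True ∧ X.j (X.τ ω) ∈ W) → (X.Cd σ s (X.τ ω) ∨
      (True ∧ X.Cl σ.h σ.κ σ.r σ.L (i (X.j (X.τ ω))) (Γ (X.j (X.τ ω))) (X.τ ω))) ∨
      ∃ i ∈ X.Al σ.β (X.τ ω) s.1, exp (-(4 * σ.β)) ≤ X.e i (X.τ ω) s.1 ∧
        1 < X.z i (X.τ ω) s.1 := by
    intro ω hω hj
    have re : X.Re (X.τ ω) := ⟨ω, V.sub hω, rfl⟩
    generalize X.τ ω = θ at hj re ⊢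
    obtain ⟨e1, e2⟩ := w4 θ (sz θ re) hj.2
    have al : i (X.j θ) ∈ X.Al σ.β θ s.1 := Finset.mem_filter.2 ⟨w2 _, e2⟩
    rcases lt_or_ge 1 (X.z (i (X.j θ)) θ s.1) with z1 | z1
    · exact Or.inr ⟨_, al, e1, z1⟩
    rcases lt_or_ge (σ.κ * (X.l (i (X.j θ)) - σ.h * X.j θ)) (σ.fb ι ι' s.2) with k1 | k1
    · exact Or.inl (Or.inl ⟨re, _, Or.inl ⟨al, e1, z1, k1⟩⟩)
    have ex : ∃ θ', Fb θ' ∧ X.j θ' = X.j θ := ⟨θ, ⟨re, z1⟩, rfl⟩
    obtain ⟨⟨c1, c2⟩, c3⟩ := ex.choose_spec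
    have s1 := (sz _ c1).1
    rw [c3] at c2 s1
    have g := V.g1
    have v0 : 0 ≤ cV ι ι' := by unfold cV; positivity
    have L0 : 0 ≤ σ.c * σ.L := o.r0.trans nm.r1
    have β0 : 0 ≤ 6 * σ.β * Fintype.card ι' := by
      have : 0 ≤ σ.β := by linarith [nm.b2, nm.bβ]
      positivity
    have p : 0 ≤ σ.κ * (X.l (i (X.j θ)) - σ.h * X.j θ) := by
      refine le_trans ?_ k1
      unfold Cn.fb Cn.Gm
      linarith [V.a0, o.r0]
    refine Or.inl (Or.inr ⟨trivial, ((f4 θ re).2.2.2 _ al).1,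
      sub_nonneg.1 (nonneg_of_mul_nonneg_right p nm.κ0), fun ρ => ?_⟩)
    have c4 := (gS ι ι' γ T Ω X s.1 s.2 (i (X.j θ)) θ V.bd).2.2.2.2.2.2.2.2 ex.choose z1 c2
      (abs_pos.1 ((exp_pos _).trans_le s1)) (by
        refine (sz θ re).2.trans (le_trans (le_of_eq ?_)
          (mul_le_mul_of_nonneg_left s1 (exp_pos 2).le))
        rw [← exp_add]; congr 1; ring) ρ
    simp only [Γ, dif_pos ex]
    refine c4.trans (mul_le_mul_of_nonneg_right (exp_le_exp.2 ?_) (norm_nonneg _))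
    unfold Cn.fb at k1
    linarith
  have m1 := (pb_mono key).trans ((pb_or Q _ _).trans (add_le_add_left (pb_or Q _ _) _))
  linarith

end Pool.Agent.MP_4b405e_nt.EB
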