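import Pool.Agent.MP_4b405e_nt.SK.EDef

/-! Volumes, inradius, the paid step and the homothety. -/

namespace Pool.Agent.MP_4b405e_nt.EB

open Pool.Agent.MP_5168f5_an H19 H17S H17F Real MeasureTheory Pointwise
open Geo (Sym sz es sec shd cutS payS)

namespace XGa

variable {ι ι' : Type} [Fintype ι] [Fintype ι'] {D : Set (Vv ι ι')} {a d r : ℝ}

theorem vb_pi (ι : Type) [Fintype ι] :
    Geo.vb (volume : Measure (ι → ℝ)) = 2 ^ Fintype.card ι := by
  unfold Geo.vb
  rw [Measure.real, Real.volume_pi_closedBall _ zero_le_one, ENNReal.toReal_ofReal (by positivity)]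
  simp

theorem fr_pi (ι : Type) [Fintype ι] : Module.finrank ℝ (ι → ℝ) = Fintype.card ι :=
  Module.finrank_fintype_fun_eq_card ℝ

theorem log_ball (ι : Type) [Fintype ι] (x : ℝ) :
    log (exp x ^ Module.finrank ℝ (ι → ℝ) * Geo.vb (volume : Measure (ι → ℝ))) =
      Fintype.card ι * (x + lg) := by
  rw [vb_pi, fr_pi, ← mul_pow, log_pow, log_mul (exp_pos _).ne' two_ne_zero, log_exp]; rfl

theorem lv_le (h : Geo.Ok D r (exp (-a))) : lv D ≤ Fintype.card ι' * (-a + lg) := by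
  rw [← log_ball]
  exact log_le_log (h.shd_pos volume) (Geo.real_le volume (exp_pos _).le h.shd_bd)

theorem lv_ge (h : Geo.Ok D (exp (-d)) (exp (-a))) : Fintype.card ι' * (-d + lg) ≤ lv D := by
  rw [← log_ball]
  exact log_le_log (mul_pos (by positivity) (Geo.vb_pos _))
    (Geo.real_ge volume (exp_pos _).le h.shd_ball h.shd_bd)

theorem lw_le (h : Geo.Ok D r (exp (-a))) : lw D ≤ Fintype.card ι * lg := by
  have := log_ball ι 0
  rw [zero_add] at this
  rw [← this]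
  exact log_le_log (h.sec_pos volume)
    (Geo.real_le volume (exp_pos _).le (by rw [exp_zero]; exact h.sec_bd))

theorem lw_ge (h : Geo.Ok D r (exp (-a))) (hd : Sb D d) : Fintype.card ι * (-d + lg) ≤ lw D := by
  rw [← log_ball]
  exact log_le_log (mul_pos (by positivity) (Geo.vb_pos _))
    (Geo.real_ge volume (exp_pos _).le hd h.sec_bd)

theorem ok_ball : Geo.Ok (Metric.closedBall (0 : Vv ι ι') 1) (exp (-0)) (exp (-0)) := by
  refine ⟨⟨convex_closedBall _ _, fun x hx => by simpa using hx, by simp⟩,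
    fun x hx => by simpa using hx, exp_pos _, fun x hx => by simpa using hx, fun x hx => ?_⟩
  simpa using (norm_snd_le x).trans (mem_closedBall_zero_iff.1 hx)

theorem inrad (h : Geo.Ok D r (exp (-a))) (ρ : ι' → ℝ)
    (hr : ‖ρ‖ ≤ exp (-(a + Gn D a + cV ι ι'))) : ρ ∈ shd D := by
  refine Geo.inradius volume h.sym.shd (exp_pos (-a)) h.shd_bd (exp_pos _) ?_ ρ hr
  have e1 : volume.real (shd D) = exp (lv D) := (exp_log (h.shd_pos volume)).symm
  have e2 : (2 : ℝ) = exp lg := (exp_log two_pos).symm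
  rw [e1, vb_pi, fr_pi, e2]
  simp only [← exp_add, ← exp_nat_mul]
  rw [exp_lt_exp]
  unfold Gn cV
  have h1 := lg_lt_one
  have h2 : (0 : ℝ) ≤ Fintype.card ι := Nat.cast_nonneg _
  have h3 : (0 : ℝ) ≤ Fintype.card ι' := Nat.cast_nonneg _
  nlinarith

theorem lv_of (h : Geo.Ok D r (exp (-a))) {D' : Set (Vv ι ι')} {b : ℝ}
    (e : shd D' = exp (-b) • shd D) : lv D' = lv D - Fintype.card ι' * b := by
  unfold lv
  rw [e, Geo.real_smul volume (exp_pos _).le, log_mul (by positivity) (h.shd_pos volume).ne',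
    log_pow, log_exp, fr_pi]
  ring

end XGa

open XGa in
theorem geoA : GeoA := by
  intro ι ι' _ _
  refine ⟨⟨⟨_, ok_ball⟩, ?_, ?_, fun d hd p hp => ?_, fun Λ hΛ x hx => ?_⟩,
    fun D a ⟨r, h⟩ => ⟨?_, inrad h, fun d hd => ⟨?_, fun d' e p hp => hd p
      (hp.trans (exp_le_exp.2 (by linarith)))⟩, fun D' b h' hs hb hk => ?_,
      fun D' hs e => ⟨by rw [lw, lw, e], fun d hd p hp => ?_, fun Λ hΛ x hx => ?_⟩⟩⟩
  · have h1 := lv_le (ok_ball (ι := ι) (ι' := ι'))
    have h2 := lv_ge (ok_ball (ι := ι) (ι' := ι'))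
    unfold Gn; linarith
  · have h1 := lw_le (ok_ball (ι := ι) (ι' := ι'))
    have h2 := lw_ge (ok_ball (ι := ι) (ι' := ι')) (ok_ball (ι := ι) (ι' := ι')).sec_ball
    linarith
  · simpa using hp.trans (exp_le_one_iff.2 (by linarith))
  · have h1 : ‖x.1‖ ≤ 1 := (norm_fst_le x).trans (mem_closedBall_zero_iff.1 hx)
    have h2 : ‖Λ⁻¹ • x.1‖ ≤ 1 := by
      rw [norm_smul, norm_inv, Real.norm_of_nonneg (by linarith)]
      exact mul_le_one₀ (inv_le_one_of_one_le₀ hΛ) (norm_nonneg _) h1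
    simpa using h2
  · have := lv_le h
    unfold Gn; linarith
  · have h1 := lw_ge h hd
    have h2 : (0 : ℝ) ≤ Fintype.card ι * lg := mul_nonneg (Nat.cast_nonneg _) lg_pos.le
    linarith
  · have k := h.sub h' hs (exp_pos _) hk
    have k2 := h.smul (exp_pos (-b)) (exp_le_one_iff.2 (by linarith))
    have h1 : lv D' ≤ lv D := log_le_log (k.shd_pos volume) (h.shd_vol_mono volume hs)
    have h2 : lv (exp (-b) • D) ≤ lv D' :=
      log_le_log (k2.shd_pos volume) (k.shd_vol_mono volume hk)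
    rw [lv_of h (Geo.shd_smul _)] at h2
    refine ⟨⟨_, k⟩, log_le_log (k.sec_pos volume) (h.sec_vol_mono volume hs),
      by unfold Gn; linarith, by unfold Gn; linarith, fun d hd p hp => hk ?_⟩
    refine Geo.smul_sec _ (Geo.mem_smul_of_ball (exp_pos (-d)) hd (exp_pos _).le ?_)
    rwa [← exp_add, show -b + -d = -(d + b) by ring]
  · exact e.symm.subset (hd p hp)
  · exact e.symm.subset (hΛ x (hs hx))

open XGa in
theorem geoB : GeoB := by
  intro ι ι' γ T Ω _ _ _ X D a b ⟨r, h⟩ hb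
  have h0 := exp_pos (-b)
  have h1 : exp (-b) ≤ 1 := exp_le_one_iff.2 (by linarith)
  have e : exp (-(a + b)) = exp (-b) * exp (-a) := by rw [← exp_add]; congr 1; ring
  refine ⟨⟨⟨_, e ▸ h.pay h0 h1⟩, ?_, Set.inter_subset_left, h.pay_keep h0.le h1, h.sec_pay _,
    fun k θ => ⟨h.es_pay _ _, h.sz_pay _ h0.le h1⟩, fun Q hQ => ⟨ι' → ℝ, ?_⟩⟩,
    ⟨h.sym.smul _, h.sym.smul_sub h0.le h1, ?_, fun k θ => h.sz_smul _ h0.le,
      fun Λ hΛ x hx => ?_, fun Q hQ => ⟨Vv ι ι', ?_⟩⟩, fun Q R hQ hR => ?_⟩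
  · unfold Gn
    rw [lv_of h (h.shd_pay h0.le h1)]
    ring
  · have := h.lab_pay Q X.B hQ hb
    rwa [fr_pi] at this
  · unfold Gn
    rw [lv_of h (Geo.shd_smul _)]
    ring
  · obtain ⟨y, hy, rfl⟩ := hx
    exact ⟨_, hΛ y hy, by simp [smul_comm Λ⁻¹]⟩
  · have := h.lab_smul Q X.B hQ hb
    rwa [fr_pi, fr_pi] at this
  · exact Geo.hh_flv Q (fun ω => (X.B ω).2) h.sym.shd h.shd_bd (inrad h) hR
      fun x hx y hy => Geo.mem_shd (hQ x hx y hy)

end Pool.Agent.MP_4b405e_nt.EB
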