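import Pool.Agent.MP_4b405e_nt.SK.EDef

/-! The process on the side of the noise: cuts and the local slab lemma. -/

namespace Pool.Agent.MP_4b405e_nt.EB

open Pool.Agent.MP_5168f5_an H19 H17S H17F Real MeasureTheory Pointwise Module
open Geo (Sym sz es sec shd cutS payS)

theorem gc_lip {lo hi y y' b : ℝ} (hb : 0 ≤ b) (h : exp (-b) * y ≤ max y' (exp lo)) :
    cl lo hi y - cl lo hi y' ≤ b := by
  have e1 : exp (-b) ≤ 1 := exp_le_one_iff.2 (by linarith)
  have e0 := exp_pos (-b)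
  have p : ∀ y, 0 < min (max y (exp lo)) (exp hi) := fun y =>
    lt_min (lt_max_of_lt_right (exp_pos _)) (exp_pos _)
  have h1 : exp (-b) * min (max y (exp lo)) (exp hi) ≤ min (max y' (exp lo)) (exp hi) := by
    rw [mul_min_of_nonneg _ _ e0.le, mul_max_of_nonneg _ _ e0.le]
    exact min_le_min (max_le h (le_max_of_le_right (mul_le_of_le_one_left (exp_pos _).le e1)))
      (mul_le_of_le_one_left (exp_pos _).le e1)
  have h2 := log_le_log (mul_pos e0 (p y)) h1
  rw [log_mul e0.ne' (p y).ne', log_exp] at h2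
  unfold cl; linarith

theorem gc_pow (n m : ℕ) : 5 * (2 : ℝ) ^ m ≤ exp (2 * (n + m) + 4) := by
  have h1 : (2 : ℝ) ≤ exp 2 := by linarith [add_one_le_exp (2 : ℝ)]
  have h2 : (5 : ℝ) ≤ exp 4 := by linarith [add_one_le_exp (4 : ℝ)]
  have h3 : (2 : ℝ) ^ m ≤ exp (2 * (n + m)) := by
    refine (pow_le_pow_left₀ zero_le_two h1 m).trans ?_
    rw [← exp_nat_mul]
    exact exp_le_exp.2 (by nlinarith [(Nat.cast_nonneg n : (0 : ℝ) ≤ n)])
  rw [exp_add, mul_comm]
  exact mul_le_mul h3 h2 (by norm_num) (exp_pos _).le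

theorem gc_log {v v' c β : ℝ} (h0 : 0 < v') (h : v' ≤ exp (c - β) * v) :
    log v' ≤ log v - (β - c) := by
  have v0 : 0 < v := (mul_pos_iff_of_pos_left (exp_pos _)).1 (h0.trans_le h)
  have := log_le_log h0 h
  rw [log_mul (exp_pos _).ne' v0.ne', log_exp] at this
  linarith

theorem geoC : GeoC := by
  intro ι ι' γ T Ω _ _ _ X D a β k θ ⟨r, h⟩ β0 z1
  have u1 : ∀ ζ, X.Un k θ ζ → ∀ x ∈ D, |ζ x| ≤ 1 := fun ζ hζ x hx =>
    (hζ x).trans ((h.le_sz _ hx).trans z1)
  have x1 : ∀ b : ℝ, 0 ≤ b → exp (-b) ≤ 1 := fun b hb => exp_le_one_iff.2 (by linarith)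
  refine ⟨fun ζ b hζ b0 => ⟨h.cut_sym ζ (exp_pos _).le, Set.inter_subset_left,
    h.cut_keep (exp_pos _).le (x1 b b0) (u1 ζ hζ), fun d g g0 hs hg hd p hp => ⟨hs p hp, ?_⟩,
    fun Λ g Λ1 g0 hl hg hΛ x hx => ⟨hl x hx.1, ?_⟩, fun he => h.sec_cut _ hζ he⟩,
    fun he => ?_, fun hz he => ?_⟩
  · refine (hζ _).trans ?_
    rw [X.Φ_apply, map_zero, add_zero, map_smul, norm_smul, Real.norm_eq_abs]
    calc _ ≤ |X.s θ| * (g * exp (-d)) :=
          mul_le_mul_of_nonneg_left ((hg p).trans (mul_le_mul_of_nonneg_left hp g0)) (abs_nonneg _)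
      _ ≤ exp (d - b) * exp (-d) := by
          rw [← mul_assoc]; exact mul_le_mul_of_nonneg_right hd (exp_pos _).le
      _ = exp (-b) := by rw [← exp_add]; ring_nf
  · have Λ0 : 0 < Λ := by linarith
    have e1 : ((Λ⁻¹ • x.1, 0) : Vv ι ι') = Λ⁻¹ • (x - (0, x.2)) := by ext <;> simp
    have e2 : |ζ (0, x.2)| ≤ g * exp (-a) := by
      refine (hζ _).trans ?_
      rw [X.Φ_apply, map_zero, smul_zero, zero_add]
      exact (hg _).trans (mul_le_mul_of_nonneg_left (h.out x hx.1) g0)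
    have e3 : |ζ x| ≤ exp (-b) := hx.2
    have e4 : exp (b - a) * exp (-b) = exp (-a) := by rw [← exp_add]; ring_nf
    show |ζ _| ≤ _
    rw [e1, map_smul, map_sub, smul_eq_mul, abs_mul, abs_of_pos (inv_pos.2 Λ0),
      inv_mul_le_iff₀ Λ0]
    have e5 := mul_le_mul_of_nonneg_right hΛ (exp_pos (-b)).le
    rw [add_mul, mul_assoc, e4] at e5
    linarith [abs_sub (ζ x) (ζ (0, x.2))]
  · obtain ⟨ζ, hζ, hv⟩ := h.cut_fun (X.Φ k θ) volume (exp_pos (-(5 * β)))
    refine ⟨ζ, hζ, gc_log ((h.cut' (exp_pos _) (x1 _ (by linarith)) (u1 ζ hζ)).sec_pos volume) ?_⟩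
    have v0 := (h.sec_pos volume).le
    have v1 : 0 ≤ volume.real (sec (cutS D ζ (exp (-(5 * β))))) := measureReal_nonneg
    have h1 := (mul_le_mul_of_nonneg_right he v1).trans hv
    have h2 := gc_pow (Fintype.card ι') (Fintype.card ι)
    rw [finrank_fintype_fun_eq_card] at h1
    refine le_of_mul_le_mul_left (h1.trans ?_) (exp_pos _)
    rw [← mul_assoc, ← exp_add, show -(4 * β) + (cV ι ι' - β) =
      -(5 * β) + (2 * (Fintype.card ι' + Fintype.card ι) + 4) by unfold cV; ring, exp_add]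
    refine mul_le_mul_of_nonneg_right ?_ v0
    have h3 : (0 : ℝ) < 2 ^ Fintype.card ι := by positivity
    nlinarith [exp_pos (-(5 * β))]
  · obtain ⟨ζ, hζ, hv⟩ := h.slab_fun (X.Φ k θ) volume he (exp_pos (-(2 * β)))
    refine ⟨ζ, hζ, ?_⟩
    have h0 := hv _ (h.cut_sym ζ (exp_pos _).le) Set.inter_subset_left fun x hx => hx.2
    have v0 := (h.shd_pos volume).le
    have v1 := (h.cut' (exp_pos _) (x1 (2 * β) (by linarith)) (u1 ζ hζ)).shd_pos volume
    have h1 := (mul_le_mul_of_nonneg_right hz v1.le).trans h0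
    have h2 := gc_pow (Fintype.card ι) (Fintype.card ι')
    rw [finrank_fintype_fun_eq_card] at h1
    have h4 : lv (cutS D ζ (exp (-(2 * β)))) ≤ lv D - (β - cV ι ι') := by
      refine gc_log v1 (le_of_mul_le_mul_left (h1.trans ?_) (exp_pos _))
      rw [← mul_assoc, ← exp_add, show -β + (cV ι ι' - β) =
        -(2 * β) + (2 * (Fintype.card ι + Fintype.card ι') + 4) by unfold cV; ring, exp_add]
      refine mul_le_mul_of_nonneg_right ?_ v0
      nlinarith [exp_pos (-(2 * β))]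
    unfold Gn; linarith

theorem geoD : GeoD := by
  intro ι ι' γ T Ω _ _ _ X D D' a β b k θ ⟨r, h⟩ ⟨r', h'⟩ hs β2 _ he
  have v0 := h.shd_pos volume
  have v1 := h'.shd_pos volume
  have m0 : 0 < max (X.z k θ D') (exp (-β)) := lt_max_of_lt_right (exp_pos _)
  have h3 : 3 * exp (-(2 * β)) ≤ exp (-β) := by
    rw [show -β = β + -(2 * β) by ring, exp_add]
    exact mul_le_mul_of_nonneg_right (by linarith [add_one_le_exp β]) (exp_pos _).le
  have h1 := h.loc_slab (X.Φ k θ) volume h'.sym hs m0 (le_max_left _ _)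
    (le_max_of_le_right ((mul_le_mul_of_nonneg_left he (by norm_num)).trans h3))
  rw [finrank_fintype_fun_eq_card] at h1
  have h2 := gc_pow (Fintype.card ι) (Fintype.card ι')
  have h4 : lv D' ≤ lv D := log_le_log v1 (h.shd_vol_mono volume hs)
  have e : Gn D' a - Gn D a + cV ι ι' = lv D - lv D' + cV ι ι' := by unfold Gn; ring
  have c0 : 0 ≤ cV ι ι' := by unfold cV; positivity
  rw [e]
  refine gc_lip (by linarith) ?_
  have e2 : exp (-(lv D - lv D' + cV ι ι')) =
      volume.real (shd D') / (volume.real (shd D) * exp (cV ι ι')) := by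
    rw [show -(lv D - lv D' + cV ι ι') = lv D' - (lv D + cV ι ι') by ring, exp_sub, exp_add]
    unfold lv
    rw [exp_log v0, exp_log v1]
  rw [e2, div_mul_eq_mul_div, div_le_iff₀ (by positivity), mul_comm]
  refine h1.trans ?_
  have h5 : (3 : ℝ) * 2 ^ Fintype.card ι' ≤ exp (cV ι ι') :=
    le_trans (by gcongr; norm_num) h2
  calc _ = max (X.z k θ D') (exp (-β)) * (volume.real (shd D) * (3 * 2 ^ Fintype.card ι')) := by
        ring
    _ ≤ _ := by gcongr

end Pool.Agent.MP_4b405e_nt.EB
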