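import Pool.Agent.MP_4b405e_nt.SK.EDef

/-! Sizes of the forms on a body. -/

namespace Pool.Agent.MP_4b405e_nt.EB

open Pool.Agent.MP_5168f5_an H19 H17S H17F Real MeasureTheory Pointwise
open Geo (Sym sz es sec shd cutS payS)

variable {ι ι' γ T Ω : Type} [Fintype ι] [Fintype ι'] [Fintype γ]

theorem Dat.Φ_fst (X : Dat ι ι' γ T Ω) (k : ℕ) (θ : T) (p : ι → ℝ) :
    X.Φ k θ (p, 0) = X.s θ • X.Ξ k (X.J p) := by
  rw [X.Φ_apply]; simp

theorem Dat.Φ_snd (X : Dat ι ι' γ T Ω) (k : ℕ) (θ : T) (ρ : ι' → ℝ) :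
    X.Φ k θ (0, ρ) = X.Ξ k (X.C θ ρ) := by
  rw [X.Φ_apply]; simp

theorem Dat.e_eq (X : Dat ι ι' γ T Ω) {D : Set (Vv ι ι')} {r R : ℝ} (h : Geo.Ok D r R) (k : ℕ)
    (θ : T) : X.e k θ D = |X.s θ| * X.y k D := by
  have k1 : ∀ p, ‖((X.Φ k θ).comp (ContinuousLinearMap.inl ℝ _ _)) p‖ =
      |X.s θ| * ‖((X.Ξ k).comp X.J) p‖ := fun p => by
    change ‖X.Φ k θ (p, 0)‖ = |X.s θ| * ‖X.Ξ k (X.J p)‖
    rw [X.Φ_fst, norm_smul, Real.norm_eq_abs]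
  refine le_antisymm (Geo.sz_cmp _ _ h.sec_bd (abs_nonneg _) fun p => (k1 p).le) ?_
  rcases (abs_nonneg (X.s θ)).eq_or_lt with h0 | h0
  · rw [← h0, zero_mul]; exact Geo.sz_nonneg _ _
  · rw [← le_div_iff₀' h0, div_eq_inv_mul]
    refine Geo.sz_cmp _ _ h.sec_bd (by positivity) fun p => ?_
    rw [k1, ← mul_assoc, inv_mul_cancel₀ h0.ne', one_mul]

theorem geoS_of (hA : GeoA) : GeoS := by
  intro ι ι' γ T Ω _ _ _ X D a k θ hB
  obtain ⟨r, h⟩ := id hB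
  have e0 : 0 ≤ X.e k θ D := Geo.sz_nonneg _ _
  refine ⟨X.e_eq h k θ, Geo.sz_nonneg _ _, h.es_le_sz _, ?_, ?_, ?_, ?_, ?_, ?_⟩
  · intro g hg H
    exact Geo.sz_le _ hg fun p hp => (H p).trans (mul_le_of_le_one_right hg (h.sec_bd p hp))
  · intro d p hS hp
    have h1 : exp (-d) • p ∈ sec D := hS _ (by
      rw [norm_smul, Real.norm_of_nonneg (exp_pos _).le]
      exact mul_le_of_le_one_right (exp_pos _).le hp)
    have h2 := Geo.le_sz ((X.Ξ k).comp X.J) h.sec_bd h1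
    rwa [map_smul, norm_smul, Real.norm_of_nonneg (exp_pos _).le] at h2
  · intro k' c hc H
    exact ⟨Geo.sz_cmp _ _ h.bd hc fun x => H _, Geo.sz_cmp _ _ h.sec_bd hc fun x => H _,
      Geo.sz_cmp _ _ h.sec_bd hc fun x => H _⟩
  · rintro D' a' c ⟨r', h'⟩ hs hc hk
    exact ⟨h.sz_mono _ hs, h.es_mono _ hs, h'.sz_ge _ hc hk⟩
  · intro Λ g hΛ hg hL H
    have hΛ0 : 0 < Λ := by linarith
    refine Geo.sz_le _ (by positivity) fun x hx => ?_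
    have h1 := h.le_es (X.Φ k θ) (hL x hx)
    have h2 : X.Φ k θ x = Λ • X.Φ k θ (Λ⁻¹ • x.1, 0) + X.Φ k θ (0, x.2) := by
      rw [← map_smul, ← map_add]; congr 1
      ext <;> simp [mul_inv_cancel_left₀ hΛ0.ne']
    rw [h2]
    refine (norm_add_le _ _).trans (add_le_add ?_ ?_)
    · rw [norm_smul, Real.norm_of_nonneg hΛ0.le]
      exact mul_le_mul_of_nonneg_left h1 hΛ0.le
    · rw [X.Φ_snd]
      exact (H _).trans (mul_le_mul_of_nonneg_left (h.out x hx) hg)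
  · intro θ' h1 h2 hs hle ρ
    have hP := ((hA ι ι').2 D a hB).2.1
    have hs0 : 0 < |X.s θ'| := abs_pos.2 hs
    have h3 := h.close (X.Φ k θ) (X.Φ k θ') (s := X.s θ * (X.s θ')⁻¹) (s' := 1) (fun p => by
      rw [X.Φ_fst, X.Φ_fst, one_smul, smul_smul, inv_mul_cancel_right₀ hs]) (exp_pos _) hP ρ
    have h4 : X.Ξ k (X.C θ ρ - X.s θ • ((X.s θ')⁻¹ • X.C θ') ρ) =
        (1 : ℝ) • X.Φ k θ (0, ρ) - (X.s θ * (X.s θ')⁻¹) • X.Φ k θ' (0, ρ) := by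
      rw [X.Φ_snd, X.Φ_snd, one_smul, map_sub, smul_apply, smul_smul, map_smul]
    rw [h4]
    refine h3.trans ?_
    have h5 : |X.s θ * (X.s θ')⁻¹| ≤ exp 2 := by
      rw [abs_mul, abs_inv, ← div_eq_mul_inv, div_le_iff₀ hs0]; exact hle
    have h6 : |(1 : ℝ)| * sz (X.Φ k θ) D + |X.s θ * (X.s θ')⁻¹| * sz (X.Φ k θ') D ≤ exp 3 := by
      have h7 : exp 3 = exp 2 * exp 1 := by rw [← exp_add]; norm_num
      have h8 := add_one_le_exp (1 : ℝ)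
      have h9 := add_one_le_exp (2 : ℝ)
      have h10 : |X.s θ * (X.s θ')⁻¹| * sz (X.Φ k θ') D ≤ exp 2 :=
        (mul_le_of_le_one_right (abs_nonneg _) h2).trans h5
      have h11 : sz (X.Φ k θ) D ≤ 1 := h1
      rw [abs_one, one_mul, h7]; nlinarith
    calc _ ≤ ‖ρ‖ / exp (-(a + Gn D a + cV ι ι')) * exp 3 :=
          mul_le_mul_of_nonneg_left h6 (by positivity)
      _ = _ := by rw [exp_neg, div_inv_eq_mul, mul_assoc, ← exp_add, mul_comm]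

end Pool.Agent.MP_4b405e_nt.EB
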