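import Pool.Agent.MP_4b405e_nt.SK.EDef
import Pool.Agent.MP_4b405e_nt.SK.EWin

/-! The free cut, the windows and the passage to atoms. -/

namespace Pool.Agent.MP_4b405e_nt.EB

open Pool.Agent.MP_5168f5_an H19 H17S H17F Real Pointwise QA.EK
open Geo (Sym sz es sec shd cutS payS)

theorem kill : Kill := by
  intro ι ι' γ T Ω α _ _ _ X Q D a β f Cd k hβ ⟨r, hD⟩ hs hI hf hC
  set A : T → α → Prop := fun θ d => ∃ u ∈ Q.S, X.τ u = θ ∧ X.Gd (k θ) u ∧ f (X.B u) = d with hA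
  have w0 : 0 < 5 * β + 2 := by linarith
  by_cases h : ∃ θ, Cd θ ∧ pb Q (fun ω => ¬A θ (f (X.B ω))) ≤ 1 / (5 * β + 2)
  · obtain ⟨θ, hθ, hq⟩ := h
    refine Or.inl ⟨θ, hθ, fun ζ hζ b b0 b5 => ?_⟩
    have h1 : ∀ x ∈ D, ‖X.Φ (k θ) θ x‖ ≤ 1 := fun x hx => (hD.le_sz _ hx).trans (hC θ hθ).2
    have sm : ∀ a ∈ Q.S, ∀ b ∈ Q.S, f (X.B a) = f (X.B b) →
        |ζ (X.B a - X.B b)| ≤ exp (-(6 * β)) := fun a ha b hb e => by
      obtain ⟨x, hx, e⟩ := hf a ha b hb e
      rw [← e]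
      simp only [map_smul, smul_eq_mul, abs_mul, abs_of_pos (exp_pos _)]
      exact mul_le_of_le_one_right (exp_pos _).le ((hζ x).trans (h1 x hx))
    have e3 : 3 * exp (-(6 * β)) ≤ exp (-b) := by
      have a1 : exp (-(5 * β)) ≤ exp (-b) := exp_le_exp.2 (by linarith)
      have a2 : exp (-(5 * β)) = exp β * exp (-(6 * β)) := by rw [← exp_add]; congr 1; ring
      have a3 := add_one_le_exp β
      nlinarith [exp_pos (-(6 * β))]
    obtain ⟨F, hH, hc⟩ := Geo.cut_var Q X.B ζ (fun v => A θ (f v)) (w := 1 / (5 * β + 2)) b0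
      (by positivity) (fun a ha b hb => (hζ _).trans (h1 _ (hI a ha b hb)))
      (by
        rintro a ha b hb ⟨u, hu, u1, u2, u3⟩ ⟨v, hv, v1, v2, v3⟩
        have k1 := abs_le.1 (sm u hu a ha u3)
        have k2 := abs_le.1 (sm v hv b hb v3)
        have k3 := abs_le.1 ((hζ _).trans ((hC θ hθ).1 u (hs hu) v (hs hv) u2 v2 u1 v1
          (h1 _ (hI u hu v hv))))
        rw [map_sub] at k1 k2 k3 ⊢
        rw [abs_le]
        constructor <;> linarith [k1.1, k1.2, k2.1, k2.2, k3.1, k3.2])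
      (by rw [pb_not] at hq; linarith)
    refine ⟨_, F, hH.trans ?_, fun a ha b hb e => ⟨hI a ha b hb, hc a ha b hb e⟩⟩
    have : 1 / (5 * β + 2) * (b + 2) ≤ 1 := by
      rw [div_mul_eq_mul_div, div_le_one w0]; linarith
    linarith
  · push Not at h
    have k1 := Kil.atyp Q X.τ (fun ω => f (X.B ω)) A Cd (q := 1 / (5 * β + 2)) fun a _ ha => by
      have := h _ ha
      rw [pb_not] at this
      linarith
    have k2 : pb Q (fun a => Cd (X.τ a) ∧ ¬A (X.τ a) (f (X.B a))) ≤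
        pb Q fun ω => Cd (X.τ ω) ∧ ¬X.Gd (k (X.τ ω)) ω :=
      pb_mono fun a ha e => ⟨e.1, fun g => e.2 ⟨a, ha, rfl, g, rfl⟩⟩
    right
    unfold Kil.mu at k1
    have k3 := mul_le_mul_of_nonneg_left k1 (show 0 ≤ 2 * (5 * β + 2) by linarith)
    have k4 : 2 * (5 * β + 2) * (1 / (5 * β + 2) / 2 * pb Q fun a => Cd (X.τ a)) =
        pb Q fun a => Cd (X.τ a) := by field_simp
    have k5 := mi_nonneg (P := Q) X.τ (fun ω => f (X.B ω)) fun _ => ()
    have k6 := pb_nonneg Q fun ω => Cd (X.τ ω) ∧ ¬X.Gd (k (X.τ ω)) ω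
    nlinarith

section

variable {ι ι' γ T Ω : Type} [Fintype ι] [Fintype ι'] [Fintype γ] {X : Dat ι ι' γ T Ω}

theorem Dat.e_eq17 (X : Dat ι ι' γ T Ω) {D : Set (Vv ι ι')} {a : ℝ} (hD : Bd D a) (k : ℕ) (θ : T) :
    X.e k θ D = |X.s θ| * X.y k D := by
  obtain ⟨r, hD⟩ := hD
  have e : ∀ p, ‖((X.Φ k θ).comp (ContinuousLinearMap.inl ℝ _ _)) p‖ =
      |X.s θ| * ‖((X.Ξ k).comp X.J) p‖ := fun p => by
    simp [Dat.Φ_apply, norm_smul]
  refine le_antisymm (Geo.sz_cmp _ _ hD.sec_bd (abs_nonneg _) fun p => (e p).le) ?_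
  rcases (abs_nonneg (X.s θ)).eq_or_lt with h | h
  · rw [← h, zero_mul]; exact Geo.sz_nonneg _ _
  · rw [← le_inv_mul_iff₀ h]
    exact Geo.sz_cmp _ _ hD.sec_bd (inv_nonneg.2 h.le) fun p => by
      rw [e, inv_mul_cancel_left₀ h.ne']

theorem Dat.Ok.nest17 {h ν β r d : ℝ} (k : X.Ok h ν β r d) (hβ : 0 ≤ β) {i i' : ℕ} (lt : i < i')
    (hn : i' < X.n) (x : γ → ℝ) : ‖X.Ξ i' x‖ ≤ exp (-(12 * β)) * ‖X.Ξ i x‖ := by
  induction i', lt using Nat.le_induction with
  | base => exact k.nest i hn x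
  | succ m _ ih =>
    refine (k.nest m hn x).trans ((mul_le_of_le_one_left (norm_nonneg _) ?_).trans (ih (by omega)))
    exact exp_le_one_iff.2 (by linarith)

end

theorem win' : Win := by
  intro ι ι' γ T Ω _ _ _ X h ν β r d a D S h0 hβ k hD hS h1 ne
  have b0 : 0 ≤ β := by linarith
  obtain ⟨r', hO⟩ := id hD
  obtain ⟨W, i, w1, w2, w3, w4⟩ := win (y := fun i j => exp (-(h * j)) * X.y i D) (U := X.U)
    h0 hβ ne
    (fun i hi => by
      simp only [Nat.cast_zero, mul_zero, neg_zero, exp_zero, one_mul]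
      exact (exp_lt_one_iff.2 (by linarith)).trans_le (h1 i hi))
    (fun i hi => by
      have a1 : X.y i D ≤ exp (X.l i + r) := Geo.sz_le _ (exp_pos _).le fun p hp =>
        (k.up i (hS hi) p).trans (mul_le_of_le_one_right (exp_pos _).le (hO.sec_bd p hp))
      refine (mul_le_mul_of_nonneg_left a1 (exp_pos _).le).trans ?_
      rw [← exp_add, exp_le_exp]
      linarith [(k.lev i (hS hi)).2])
    (fun i _ j => le_of_eq (by
      rw [← mul_assoc, ← exp_add]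
      push_cast
      ring_nf))
    (fun i _ i' hi' lt j => by
      have a1 : X.y i' D ≤ exp (-(2 * β)) * X.y i D :=
        Geo.sz_cmp _ _ hO.sec_bd (exp_pos _).le fun p =>
          (k.nest17 b0 lt (k.sub i' (hS hi')) _).trans (mul_le_mul_of_nonneg_right
            (exp_le_exp.2 (by linarith)) (norm_nonneg _))
      rw [mul_left_comm]
      exact mul_le_mul_of_nonneg_left a1 (exp_pos _).le)
  refine ⟨W, i, w1, w2, w3, fun θ hθ hj => ?_⟩
  obtain ⟨a1, a2⟩ := w4 _ hj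
  have y0 : 0 ≤ X.y (i (X.j θ)) D := Geo.sz_nonneg _ _
  rw [X.e_eq17 hD]
  have e1 : exp (-1 - h * X.j θ) = exp (-1) * exp (-(h * X.j θ)) := by rw [← exp_add]; ring_nf
  have e2 : exp (1 - h * X.j θ) = exp 1 * exp (-(h * X.j θ)) := by rw [← exp_add]; ring_nf
  have e3 : exp (-(4 * β)) = exp (-1) * exp (1 - 4 * β) := by rw [← exp_add]; ring_nf
  have e4 : exp (-(2 * β)) = exp 1 * exp (-1 - 2 * β) := by rw [← exp_add]; ring_nf
  constructor
  · refine le_trans ?_ (mul_le_mul_of_nonneg_right hθ.1 y0)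
    rw [e1, e3, mul_assoc]
    exact mul_le_mul_of_nonneg_left a1 (exp_pos _).le
  · refine (mul_le_mul_of_nonneg_right hθ.2 y0).trans ?_
    rw [e2, e4, mul_assoc]
    exact mul_le_mul_of_nonneg_left a2 (exp_pos _).le

theorem atom : Atom := by
  intro ι ι' γ T Ω α _ _ _ X Q f h κ r L D ω hω
  refine ⟨fun v hv => ((mem_cv hω v).1 hv).1, fun hf a ha b hb => ?_, fun hl A W hW => ?_,
    fun ha A i Γ hi => ?_⟩
  · rw [mem_cv hω] at ha hb
    exact hf a ha.1 b hb.1 (ha.2.trans hb.2.symm)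
  · have := her Q X.B f hω (c := (W.card : ℝ) / X.U) (d := 1) (fun _ => True)
      (fun v => X.j (X.τ v) ∈ W) X.ex (fun A => by simpa [Dat.er] using hl A W hW) A
    simpa [Dat.er] using this
  · have := her Q X.B f hω (c := 1) (d := 0)
      (fun v => X.Cl h κ r L (i (X.j (X.τ v))) (Γ (X.j (X.τ v))) (X.τ v)) (fun _ => True) X.ex
      (fun A => by simpa [Dat.er] using ha A i Γ hi) A
    simpa [Dat.er] using this

end Pool.Agent.MP_4b405e_nt.EB
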