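import Pool.Agent.MP_4b405e_nt.SK.EDef

/-! The process on the side of the noise: the choice of the constants. -/

namespace Pool.Agent.MP_4b405e_nt.EB

open Pool.Agent.MP_5168f5_an H19 H17S H17F Real

namespace XN

theorem fin {N n n' g η₀ w κ c β b r L v E : ℝ} (n0 : 0 ≤ n) (n1 : n ≤ N)
    (n1' : n' ≤ N) (κ0 : 0 < κ) (hw : w * (1 + κ) = 1 / 4) (hg : w * η₀ = g)
    (hc : c = 4 * g) (hr : r ≤ c * L) (v0 : 0 ≤ v) (v1 : v ≤ 4 * N + 4) (b0 : 0 < b)
    (b1 : 16 * N ≤ g * b) (E0 : 0 ≤ E) (β0 : 0 ≤ β) (β1 : 1 ≤ β - v)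
    (β2 : 8 * (4 * N + 6) * N * E ≤ g * (β - v)) (L0 : 0 ≤ L)
    (L1 : 4 * (4 * N + β + (6 * β * N + 6 * β + 4 * N + 9) + (4 * N + 6) * N) ≤ g * L) :
    n' * 2 * lg + w * (2 * β + (1 + κ) * (c * L + 6 * β * n' + 2 * r + 5 * β + v + 5) / 12 -
      η₀ * L) + (v + 2) * (n * (lg + E * L) / (β - v)) + (L + b) * (2 * n' / b) ≤ -(g / 4 * L) := by
  have l0 : 0 ≤ lg := log_nonneg one_le_two
  have l1 : lg ≤ 1 := by
    have := log_le_sub_one_of_pos (show (0 : ℝ) < 2 by norm_num)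
    unfold lg; linarith
  have N0 : 0 ≤ N := n0.trans n1
  have w0 : 0 < w := by
    by_contra k
    nlinarith [mul_nonneg (neg_nonneg.2 (not_lt.1 k)) (show 0 ≤ 1 + κ by linarith)]
  have w1 : w ≤ 1 / 4 := by nlinarith [mul_pos w0 κ0]
  have a1 : n' * 2 * lg ≤ 2 * N := by nlinarith [mul_le_mul n1' l1 l0 N0]
  have a2 : w * (2 * β + (1 + κ) * (c * L + 6 * β * n' + 2 * r + 5 * β + v + 5) / 12 - η₀ * L) =
      w * (2 * β) + (c * L + 6 * β * n' + 2 * r + 5 * β + v + 5) / 48 - g * L := by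
    rw [← hg]
    linear_combination (c * L + 6 * β * n' + 2 * r + 5 * β + v + 5) / 12 * hw
  have a3 : w * (2 * β) ≤ β := by nlinarith
  have a4 : 6 * β * n' ≤ 6 * β * N := mul_le_mul_of_nonneg_left n1' (by positivity)
  have p : 0 < β - v := by linarith
  have a5 : (v + 2) * (n * (lg + E * L) / (β - v)) ≤ (4 * N + 6) * N + g * L / 8 := by
    rw [← mul_div_assoc, div_le_iff₀ p]
    have h1 : (v + 2) * n ≤ (4 * N + 6) * N := mul_le_mul (by linarith) n1 n0 (by positivity)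
    have h2 : (v + 2) * (n * (lg + E * L)) ≤ (4 * N + 6) * N * (1 + E * L) := by
      rw [← mul_assoc]
      exact mul_le_mul h1 (by linarith) (by positivity) (by positivity)
    have h3 := mul_le_mul_of_nonneg_left β1 (show 0 ≤ (4 * N + 6) * N by positivity)
    have h4 := mul_le_mul_of_nonneg_right β2 L0
    nlinarith
  have a6 : (L + b) * (2 * n' / b) ≤ g * L / 8 + 2 * N := by
    rw [← mul_div_assoc, div_le_iff₀ b0]
    have h1 := mul_le_mul_of_nonneg_right b1 L0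
    have h2 := mul_le_mul_of_nonneg_right n1' L0
    have h3 := mul_le_mul_of_nonneg_right n1' b0.le
    nlinarith
  have a7 : 0 ≤ 6 * β * N := by positivity
  rw [a2]
  subst hc
  nlinarith

end XN

theorem sNum : SNum := by
  intro hc N h κ ν C h0 κ0 ν0 C0
  have m0 : 0 < min ν 1 := by positivity
  set g : ℝ := 1 / (4 * (1 + κ)) * (1 / (2 * (C + 1)) * min ν 1 / 4) with hg
  have g0 : 0 < g := by positivity
  have E0 : 0 ≤ cE κ := by unfold cE; positivity
  set b : ℝ := 2 + 16 * N / g with hb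
  have q0 : 0 ≤ 16 * (N : ℝ) / g := by positivity
  have q1 : 0 ≤ 8 * (4 * (N : ℝ) + 6) * N * cE κ / g := by positivity
  have N0 : (0 : ℝ) ≤ N := Nat.cast_nonneg N
  refine ⟨g / 4, 4, 2 * b + (2 + h) + (8 * N + 16) + 8 * (4 * N + 6) * N * cE κ / g,
    by positivity, by norm_num, fun β hβ => ?_⟩
  have β0 : 0 < β := by linarith
  refine ⟨4 * (5 * β + 2) / (1 / (2 * (C + 1)) * min ν 1 / 16) * ((N + N) * (6 * β + 2) + β),
    2 * ((1 + κ) * (6 * β * N + 6 * β + (4 * N + 4) + 5)) +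
      4 * (4 * N + β + (6 * β * N + 6 * β + 4 * N + 9) + (4 * N + 6) * N) / g,
    by positivity, fun ι ι' γ T Ω _ _ _ _ X r L R c1 c2 hL hr hR o => ?_⟩
  have d1 : (Fintype.card ι : ℝ) ≤ N := by exact_mod_cast c1
  have d2 : (Fintype.card ι' : ℝ) ≤ N := by exact_mod_cast c2
  have v0 : 0 ≤ cV ι ι' := by unfold cV; positivity
  have v1 : cV ι ι' ≤ 4 * N + 4 := by unfold cV; linarith
  have s1 : 0 ≤ 2 * ((1 + κ) * (6 * β * N + 6 * β + (4 * N + 4) + 5)) := by positivity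
  have s2 : 0 ≤ 4 * (4 * N + β + (6 * β * N + 6 * β + 4 * N + 9) + (4 * N + 6) * N) / g := by
    positivity
  have L0 : 0 ≤ L := by linarith
  let σ : Cn := ⟨h, κ, min ν 1, C, β, b, r, L, R⟩
  have cg : σ.c = 4 * g := by
    simp only [Cn.c, Cn.η₀, Cn.c₂, σ, hg]
    field_simp
  have r1 : r ≤ σ.c * L := by rw [cg]; nlinarith [mul_nonneg g0.le L0]
  have big : (1 + κ) * (6 * β * Fintype.card ι' + 6 * β + cV ι ι' + 5) ≤ L / 2 := by
    have := mul_le_mul_of_nonneg_left (show 6 * β * Fintype.card ι' + 6 * β + cV ι ι' + 5 ≤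
      6 * β * N + 6 * β + (4 * N + 4) + 5 by
        linarith [mul_le_mul_of_nonneg_left d2 (show 0 ≤ 6 * β by positivity)])
      (show 0 ≤ 1 + κ by linarith)
    linarith
  have H := hc ι ι' γ T Ω X σ ⟨⟨h0, κ0, m0, min_le_right _ _, C0, by show 2 ≤ b; linarith,
    by show 2 * b ≤ β; linarith, by show 2 + h ≤ β; linarith,
    by show 2 * cV ι ι' + 8 ≤ β; linarith, r1, big, hR, Fintype.card_pos⟩,
    { o with
      mass := le_trans (mul_le_mul_of_nonneg_right (mul_le_mul_of_nonneg_right (min_le_left _ _)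
        h0.le) (Nat.cast_nonneg _)) o.mass }⟩
  have F := XN.fin (N := N) (n := Fintype.card ι) (n' := Fintype.card ι') (g := g) (η₀ := σ.η₀)
    (w := σ.w₁) (κ := κ) (c := σ.c) (β := β) (b := b) (r := r) (L := L) (v := cV ι ι') (E := cE κ)
    (Nat.cast_nonneg _) d1 d2 κ0
    (by simp only [Cn.w₁, σ]; field_simp) rfl cg r1 v0 v1 (by linarith)
    (by rw [hb, mul_add, mul_div_cancel₀ _ g0.ne']; linarith) E0 β0.le (by linarith)
    (by rw [← div_le_iff₀' g0]; linarith) L0 (by rw [← div_le_iff₀' g0]; linarith)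
  have u0 : 0 ≤ X.bud := add_nonneg (mi_nonneg _ _ _) (Finset.sum_nonneg fun _ _ => pb_nonneg _ _)
  have k1 : σ.K ι ι' ≤
      4 * (5 * β + 2) / (1 / (2 * (C + 1)) * min ν 1 / 16) * ((N + N) * (6 * β + 2) + β) := by
    refine mul_le_mul_of_nonneg_left ?_
      (show 0 ≤ 4 * (5 * β + 2) / (1 / (2 * (C + 1)) * min ν 1 / 16) by positivity)
    exact add_le_add_left (mul_le_mul_of_nonneg_right (add_le_add d1 d2)
      (show 0 ≤ 6 * β + 2 by positivity)) _
  have k2 := mul_le_mul_of_nonneg_right k1 u0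
  have x0 : 0 ≤ X.P.E X.ex := X.P.E_nonneg fun ω _ => o.ex0 ω
  have bL : b ≤ L := by
    have : 0 ≤ κ * (6 * β * Fintype.card ι' + 6 * β + cV ι ι' + 5) := by positivity
    have : 0 ≤ 6 * β * Fintype.card ι' := by positivity
    linarith
  have k3 := mul_le_mul_of_nonneg_right bL x0
  have H' : hh X.P (fun ω => flv R (X.B ω).2) ≤ Fintype.card ι' * ((R : ℝ) + 2) * lg +
      σ.w₁ * (2 * β + (1 + κ) * (σ.c * L + 6 * β * Fintype.card ι' + 2 * r + 5 * β +
        cV ι ι' + 5) / 12 - σ.η₀ * L) + σ.K ι ι' * X.bud +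
      (cV ι ι' + 2) * (Fintype.card ι * (lg + cE κ * L) / (β - cV ι ι')) +
      (L + b) * (2 * Fintype.card ι' / b + 2 * X.P.E X.ex) := H
  rw [mul_add (L + b), mul_add (Fintype.card ι' : ℝ) (R : ℝ), add_mul] at H'
  linarith

end Pool.Agent.MP_4b405e_nt.EB
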