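import Pool.Agent.MP_4b405e_nt.SK.EDef
import Pool.Agent.MP_4b405e_nt.SK.EPot

/-! The clamp, and the monotonicity of the potential of a sequence of sizes. -/

namespace Pool.Agent.MP_4b405e_nt.EB

open Real

section cl

variable {lo hi y y' b β : ℝ}

theorem cl_eq : cl lo hi y = EP.cl lo hi y := rfl

theorem cl_mono (h : y ≤ y') : cl lo hi y ≤ cl lo hi y' := EP.cl_mono h

theorem cl_le : cl lo hi y ≤ hi - lo := EP.cl_le

theorem cl_low (h : lo ≤ hi) (hy : y ≤ exp lo) : cl lo hi y = 0 := EP.cl_low h hy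

theorem cl_high (hy : exp hi ≤ y) : cl lo hi y = hi - lo := EP.cl_high hy

theorem cl_nonneg (h : lo ≤ hi) : 0 ≤ cl lo hi y := EP.cl_nonneg h

theorem cl_lip (hb : 0 ≤ b) (h : exp (-b) * y ≤ y') : cl lo hi y - cl lo hi y' ≤ b :=
  EP.cl_lip hb h

theorem Yv_mono (h : y' ≤ y) : Yv β y' ≤ Yv β y := by
  unfold Yv
  have := log_le_log (lt_max_of_lt_right (exp_pos (-β)) : 0 < max y' (exp (-β)))
    (max_le_max h (le_refl (exp (-β))))
  linarith

theorem Yv_nonneg : 0 ≤ Yv β y := by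
  unfold Yv
  have := log_le_log (exp_pos (-β)) (le_max_right y (exp (-β)))
  rw [log_exp] at this
  linarith

end cl

theorem potO : PotO := by
  intro β b y y' hb hβ hy
  have h0 : -β ≤ -b := by linarith
  refine ⟨⟨cl_nonneg h0, cl_le.trans (by linarith)⟩, fun h => ⟨cl_lip hb h, ?_⟩⟩
  rintro (c | c)
  · rw [cl_low h0 c]; exact cl_nonneg h0
  · have : exp (-b) ≤ y' := (le_mul_of_one_le_right (exp_pos _).le c.le).trans h
    rw [cl_high this]; exact cl_le

variable {β b Δ : ℝ} {n : ℕ} {S S' : Finset ℕ} {z z' : ℕ → ℝ}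

theorem Ns.anti (h : Ns β n z) (hβ : 0 ≤ β) {k k' : ℕ} (hk : k ≤ k') (hn : k' < n) :
    z k' ≤ z k := by
  induction k', hk using Nat.le_induction with
  | base => exact le_rfl
  | succ m _ ih =>
    exact ((h.2 m hn).trans (mul_le_of_le_one_left (h.1 m)
      (exp_le_one_iff.2 (by linarith)))).trans (ih (by omega))

theorem Ns.lt (h : Ns β n z) (hβ : 0 ≤ β) {k k' : ℕ} (hk : k < k') (hn : k' < n) :
    z k' ≤ exp (-(12 * β)) * z k :=
  (h.anti hβ hk hn).trans (h.2 k (by omega))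

/-- A box whose clamp drops has its size in a window. -/
theorem Mv.win (h : Mv β b Δ n S S' z z') {k : ℕ} (hk : k < n)
    (hd : cl (-β) (-b) (z' k) < cl (-β) (-b) (z k)) :
    exp (-β) < z k ∧ exp (-(6 * β)) * z k < exp (-b) := by
  have h0 : -β ≤ -b := by linarith [h.b0, h.bβ]
  constructor
  · by_contra c
    rw [cl_low h0 (not_lt.1 c)] at hd
    exact hd.not_ge (cl_nonneg h0)
  · by_contra c
    rw [cl_high ((not_lt.1 c).trans (h.ge k hk))] at hd
    exact hd.not_ge cl_le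

/-- At most one box drops. -/
theorem Mv.one (h : Mv β b Δ n S S' z z') {k k' : ℕ} (hk : k < k') (hn : k' < n)
    (hd : cl (-β) (-b) (z' k) < cl (-β) (-b) (z k))
    (hd' : cl (-β) (-b) (z' k') < cl (-β) (-b) (z k')) : False := by
  have hβ : 0 ≤ β := by linarith [h.b0, h.bβ]
  have a := (h.win (hk.trans hn) hd).2
  have a' := (h.win hn hd').1
  have c := h.ns.lt hβ hk hn
  have e1 : exp (-(12 * β)) = exp (-(6 * β)) * exp (-(6 * β)) := by
    rw [← exp_add]; ring_nf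
  have e2 : exp (-(6 * β)) * exp (-b) ≤ exp (-β) := by
    rw [← exp_add]; exact exp_le_exp.2 (by linarith [h.b0])
  have := mul_lt_mul_of_pos_left a (exp_pos (-(6 * β)))
  rw [e1, mul_assoc] at c
  linarith

/-- The sum of the drops of the clamps. -/
theorem Mv.sum_drop (h : Mv β b Δ n S S' z z') {i : ℕ} (hi : i ∈ S) :
    ∑ k ∈ Finset.Ico i n, cl (-β) (-b) (z k) - Δ ≤ ∑ k ∈ Finset.Ico i n, cl (-β) (-b) (z' k) := by
  by_cases c : ∃ k ∈ Finset.Ico i n, cl (-β) (-b) (z' k) < cl (-β) (-b) (z k)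
  · obtain ⟨k, hk, hd⟩ := c
    have hk' := Finset.mem_Ico.1 hk
    rw [← Finset.add_sum_erase _ _ hk, ← Finset.add_sum_erase _ _ hk]
    have a := h.drop k hk'.2 ⟨i, hi, hk'.1⟩
    have : ∑ m ∈ (Finset.Ico i n).erase k, cl (-β) (-b) (z m) ≤
        ∑ m ∈ (Finset.Ico i n).erase k, cl (-β) (-b) (z' m) := by
      refine Finset.sum_le_sum fun m hm => not_lt.1 fun hm' => ?_
      obtain ⟨ne, hm⟩ := Finset.mem_erase.1 hm
      rcases lt_or_gt_of_ne ne with l | l
      · exact h.one l hk'.2 hm' hd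
      · exact h.one l (Finset.mem_Ico.1 hm).2 hd hm'
    linarith
  · have : ∑ m ∈ Finset.Ico i n, cl (-β) (-b) (z m) ≤
        ∑ m ∈ Finset.Ico i n, cl (-β) (-b) (z' m) :=
      Finset.sum_le_sum fun m hm => not_lt.1 fun hm' => c ⟨m, hm, hm'⟩
    linarith [h.d0]

theorem Ph_nonneg {c : ℝ} : 0 ≤ Ph β b c n S z := (Finset.le_fold_max _).2 (Or.inl le_rfl)

theorem ph_le_Ph {c : ℝ} {i : ℕ} (hi : i ∈ S) : ph β b c n z i ≤ Ph β b c n S z :=
  (Finset.le_fold_max _).2 (Or.inr ⟨i, hi, le_rfl⟩)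

theorem Ph_le {c x : ℝ} (h0 : 0 ≤ x) (h : ∀ i ∈ S, ph β b c n z i ≤ x) : Ph β b c n S z ≤ x :=
  (Finset.fold_max_le _).2 ⟨h0, h⟩

theorem potA : PotA := by
  intro β b c Δ n S S' z z' hc h
  rw [sub_le_iff_le_add]
  refine Ph_le (add_nonneg Ph_nonneg h.d0) fun i hi => ?_
  have a := ph_le_Ph (β := β) (b := b) (c := c) (n := n) (z := z') (h.sub hi)
  have s := h.sum_drop hi
  have y := mul_le_mul_of_nonneg_left (Yv_mono (β := β) (h.le i (h.lt i (h.sub hi)))) hc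
  unfold ph at a ⊢
  linarith

end Pool.Agent.MP_4b405e_nt.EB
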