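import Pool.Agent.MP_4b405e_nt.SK.EDef

/-! The potential of a sequence of sizes: the far step and the bounds. -/

namespace Pool.Agent.MP_4b405e_nt.EB

open Real

namespace XPb

variable {β b y y' t : ℝ} {n : ℕ} {z : ℕ → ℝ}

theorem cl_ge (h : b ≤ β) (y : ℝ) : 0 ≤ cl (-β) (-b) y := by
  have : exp (-β) ≤ min (max y (exp (-β))) (exp (-b)) :=
    le_min (le_max_right _ _) (exp_le_exp.2 (by linarith))
  have := log_le_log (exp_pos _) this
  rw [log_exp] at this
  rw [cl]; linarith

theorem cl_le (y : ℝ) : cl (-β) (-b) y ≤ β - b := by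
  have := log_le_log (lt_min ((exp_pos _).trans_le (le_max_right y (exp (-β)))) (exp_pos (-b)))
    (min_le_right _ _)
  rw [log_exp] at this
  rw [cl]; linarith

theorem cl_hi (h : exp (-b) ≤ y) : cl (-β) (-b) y = β - b := by
  rw [cl, min_eq_right (h.trans (le_max_left _ _)), log_exp]; ring

theorem cl_lo (h : b ≤ β) (h' : y ≤ exp (-β)) : cl (-β) (-b) y = 0 := by
  rw [cl, max_eq_right h', min_eq_left (exp_le_exp.2 (by linarith)), log_exp, sub_self]

theorem Yv_ge (β y : ℝ) : 0 ≤ Yv β y := by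
  have := log_le_log (exp_pos _) (le_max_right y (exp (-β)))
  rw [log_exp] at this
  rw [Yv]; linarith

theorem Yv_le (h : y ≤ exp t * max y' (exp (-β))) (h' : exp (-β) ≤ exp t * max y' (exp (-β))) :
    Yv β y ≤ t + Yv β y' := by
  have p : 0 < max y' (exp (-β)) := (exp_pos _).trans_le (le_max_right _ _)
  have := log_le_log ((exp_pos _).trans_le (le_max_right y (exp (-β)))) (max_le h h')
  rw [log_mul (exp_pos _).ne' p.ne', log_exp] at this
  rw [Yv, Yv]; linarith

theorem ns_le (h : Ns β n z) (i m : ℕ) (e : i + m < n) :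
    z (i + m) ≤ exp (-(12 * β * m)) * z i := by
  induction m with
  | zero => simp
  | succ m ih =>
    refine (h.2 (i + m) e).trans ?_
    refine (mul_le_mul_of_nonneg_left (ih (by omega)) (exp_pos _).le).trans_eq ?_
    rw [← mul_assoc, ← exp_add]; congr 2; push_cast; ring

/-- At most one box drops. -/
theorem drops {Δ : ℝ} {S S' : Finset ℕ} {z' : ℕ → ℝ} (h : Mv β b Δ n S S' z z') {i : ℕ}
    (hi : i ∈ S) : ∑ k ∈ Finset.Ico i n, cl (-β) (-b) (z k) - Δ ≤
      ∑ k ∈ Finset.Ico i n, cl (-β) (-b) (z' k) := by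
  have b0 := h.b0
  have bβ := h.bβ
  have w : ∀ k < n, cl (-β) (-b) (z' k) < cl (-β) (-b) (z k) →
      exp (-β) < z k ∧ exp (-(6 * β)) * z k < exp (-b) := fun k hk d =>
    ⟨not_le.1 fun e => by
      rw [cl_lo (by linarith) e] at d; exact d.not_ge (cl_ge (by linarith) _),
    (h.ge k hk).trans_lt (not_le.1 fun e => by rw [cl_hi e] at d; exact d.not_ge (cl_le _))⟩
  have two : ∀ k k', k < k' → k' < n → cl (-β) (-b) (z' k) < cl (-β) (-b) (z k) →
      cl (-β) (-b) (z' k') < cl (-β) (-b) (z k') → False := by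
    intro k k' e hk d d'
    obtain ⟨m, rfl⟩ := Nat.exists_eq_add_of_lt e
    have a₁ := ns_le h.ns k (m + 1) hk
    have a₂ := (w k (by omega) d).2
    have a₃ := (w _ hk d').1
    have a₄ : exp (-(12 * β * (m + 1 : ℕ))) ≤ exp (-(6 * β)) * exp (-(6 * β)) := by
      rw [← exp_add]
      have : 0 ≤ β * m := mul_nonneg (by linarith) m.cast_nonneg
      exact exp_le_exp.2 (by push_cast; linarith)
    have a₅ : exp (-(6 * β)) * exp (-b) ≤ exp (-β) := by
      rw [← exp_add]; exact exp_le_exp.2 (by linarith)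
    have a₆ := mul_le_mul_of_nonneg_right a₄ (h.ns.1 k)
    have a₇ := mul_lt_mul_of_pos_left a₂ (exp_pos (-(6 * β)))
    rw [← add_assoc] at a₁
    linarith
  rw [sub_le_comm, ← Finset.sum_sub_distrib]
  by_cases c : ∃ k ∈ Finset.Ico i n, cl (-β) (-b) (z' k) < cl (-β) (-b) (z k)
  · obtain ⟨k, hk, d⟩ := c
    rw [← Finset.add_sum_erase _ _ hk]
    have hk' := Finset.mem_Ico.1 hk
    have := Finset.sum_nonpos (s := (Finset.Ico i n).erase k)
      (f := fun k => cl (-β) (-b) (z k) - cl (-β) (-b) (z' k)) fun k' h' => by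
        obtain ⟨e, h'⟩ := Finset.mem_erase.1 h'
        refine sub_nonpos.2 (not_lt.1 fun d' => ?_)
        rcases lt_or_gt_of_ne e with l | l
        exacts [two _ _ l hk'.2 d' d, two _ _ l (Finset.mem_Ico.1 h').2 d d']
    linarith [h.drop k hk'.2 ⟨i, hi, hk'.1⟩]
  · exact (Finset.sum_nonpos fun k hk => sub_nonpos.2 (not_lt.1 fun d => c ⟨k, hk, d⟩)).trans h.d0

end XPb

open XPb

theorem potB : PotB := by
  intro β b C Δ n S S' z z' i C0 h hi least far dens top cut
  have b0 := h.b0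
  have bβ := h.bβ
  have hn := h.lt i (h.sub hi)
  set c : ℝ := 1 / (2 * (C + 1)) with hc
  have c0 : 0 < c := by positivity
  have cC : c * (C + 1) = 1 / 2 := by rw [hc]; field_simp
  have eb : exp (-b) ≤ 1 := exp_le_one_iff.2 (by linarith)
  have ex : ∃ m, i + m < n ∧ z (i + m) ≤ 1 := ⟨n - 1 - i, by omega, by
    rwa [show i + (n - 1 - i) = n - 1 by omega]⟩
  classical
  obtain ⟨m, ⟨mn, zm⟩, mi⟩ : ∃ m, (i + m < n ∧ z (i + m) ≤ 1) ∧ ∀ j < m, 1 < z (i + j) :=
    ⟨Nat.find ex, Nat.find_spec ex, fun j hj => not_le.1 fun e =>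
      Nat.find_min ex hj ⟨by have := (Nat.find_spec ex).1; omega, e⟩⟩
  have m1 : (1 : ℝ) ≤ m := by
    rcases m with _ | m
    · exact absurd far (not_lt.2 zm)
    · simp
  have sp : ∀ j ≤ m, j * (β / 2) + ∑ k ∈ Finset.Ico (i + j) n, cl (-β) (-b) (z k) ≤
      ∑ k ∈ Finset.Ico i n, cl (-β) (-b) (z k) := by
    intro j hj
    induction j with
    | zero => simp
    | succ j ih =>
      have := ih (by omega)
      rw [Finset.sum_eq_sum_Ico_succ_bot (show i + j < n by omega),
        cl_hi (eb.trans (mi j hj).le)] at this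
      rw [← add_assoc]; push_cast; linarith
  have yv : ∀ j ≤ m, Yv β (z i) ≤ C * β * j + Yv β (z (i + j)) := fun j hj => by
    have := dens (i + j) (by omega) (by omega)
    rw [Nat.add_sub_cancel_left] at this
    have p : 0 ≤ C * β * j := mul_nonneg (mul_nonneg C0.le (by linarith)) j.cast_nonneg
    exact Yv_le (this.trans (mul_le_mul_of_nonneg_left (le_max_left _ _) (exp_pos _).le))
      ((le_max_right _ _).trans (le_mul_of_one_le_left
        ((exp_pos _).le.trans (le_max_right _ _)) (one_le_exp p)))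
  have ym : Yv β (z (i + m)) ≤ β := by
    have := log_nonpos ((exp_pos _).le.trans (le_max_right (z (i + m)) (exp (-β))))
      (max_le zm (exp_le_one_iff.2 (by linarith)))
    rw [Yv]; linarith
  have β0 : 0 ≤ β := by linarith
  have tail : ∑ k ∈ Finset.Ico (i + m) n, cl (-β) (-b) (z k) ≤ ph β b c n z i := by
    have a₁ := sp m le_rfl
    have a₂ : Yv β (z i) ≤ (C + 1) * (m * β) := by nlinarith [yv m le_rfl]
    have a₃ := mul_le_mul_of_nonneg_left a₂ c0.le
    rw [← mul_assoc, cC] at a₃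
    rw [ph]; linarith
  have nn : ∀ k, 0 ≤ cl (-β) (-b) (z k) := fun k => cl_ge (by linarith) _
  have top : Ph β b c n S z ≤ ph β b c n z i := by
    refine (Finset.fold_max_le _).2 ⟨(Finset.sum_nonneg fun k _ => nn k).trans tail, fun i' h' => ?_⟩
    obtain ⟨j, rfl⟩ := Nat.exists_eq_add_of_le (least i' h')
    rcases le_total j m with l | l
    · have a₁ := sp j l
      have a₂ := mul_le_mul_of_nonneg_left (yv j l) c0.le
      have a₃ : 0 ≤ c * (j * β) := by positivity
      have a₄ : c * (C * β * j) + c * (j * β) = j * (β / 2) := by linear_combination j * β * cC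
      rw [ph, ph]; linarith
    · refine le_trans ?_ tail
      have := Finset.sum_le_sum_of_subset_of_nonneg (f := fun k => cl (-β) (-b) (z k))
        (Finset.Ico_subset_Ico_left (b := n) (show i + m ≤ i + j by omega)) fun k _ _ => nn k
      rw [ph]; linarith [mul_nonneg c0.le (Yv_ge β (z (i + j)))]
  refine (Finset.le_fold_max _).2 (Or.inr ⟨i, h.sub hi, ?_⟩)
  have e2 : 2 * exp (-b) * z i ≤ exp (1 - b) * max (z i) (exp (-β)) := by
    rw [sub_eq_add_neg, exp_add]
    exact mul_le_mul (mul_le_mul_of_nonneg_right (by linarith [add_one_le_exp (1 : ℝ)])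
      (exp_pos _).le) (le_max_left _ _) (by linarith) (by positivity)
  have e3 : exp (-β) ≤ 2 * exp (-b) * z i := by
    nlinarith [exp_le_exp.2 (show -β ≤ -b by linarith), exp_pos (-b)]
  have a₁ := mul_le_mul_of_nonneg_left (Yv_le (cut.trans e2) (e3.trans e2)) c0.le
  have a₂ := drops h hi
  rw [ph] at top ⊢
  linarith

theorem potC : PotC := by
  intro β b c x n S z c0 b0 bβ β0 x0 ns up
  refine ⟨(Finset.le_fold_max _).2 (Or.inl le_rfl), (Finset.fold_max_le _).2
    ⟨by positivity, fun i hi => ?_⟩⟩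
  have M : (⌈(x + β) / (12 * β)⌉₊ : ℝ) * β ≤ 2 * β + x / 12 := by
    have := mul_le_mul_of_nonneg_right
      (Nat.ceil_lt_add_one (show 0 ≤ (x + β) / (12 * β) by positivity)).le β0.le
    have e : ((x + β) / (12 * β) + 1) * β = (x + β) / 12 + β := by field_simp
    linarith
  have a : ∑ k ∈ Finset.Ico i n, cl (-β) (-b) (z k) ≤
      ∑ k ∈ Finset.Ico i (i + ⌈(x + β) / (12 * β)⌉₊), cl (-β) (-b) (z k) := by
    rw [← Finset.sum_filter_ne_zero]
    refine Finset.sum_le_sum_of_subset_of_nonneg (fun k hk => ?_) fun k _ _ => cl_ge bβ _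
    obtain ⟨hk, e⟩ := Finset.mem_filter.1 hk
    obtain ⟨l, hk⟩ := Finset.mem_Ico.1 hk
    obtain ⟨m, rfl⟩ := Nat.exists_eq_add_of_le l
    refine Finset.mem_Ico.2 ⟨l, Nat.add_lt_add_left (Nat.lt_ceil.2 (not_le.1 fun g => e ?_)) i⟩
    rw [div_le_iff₀ (by positivity)] at g
    refine cl_lo bβ ((ns_le ns i m hk).trans
      ((mul_le_mul_of_nonneg_left (up i hi) (exp_pos _).le).trans ?_))
    rw [← exp_add]; exact exp_le_exp.2 (by linarith)
  have a' := Finset.sum_le_card_nsmul (Finset.Ico i (i + ⌈(x + β) / (12 * β)⌉₊))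
    (fun k => cl (-β) (-b) (z k)) β fun k _ => (cl_le _).trans (by linarith)
  rw [Nat.card_Ico, Nat.add_sub_cancel_left, nsmul_eq_mul] at a'
  rw [ph]; linarith [mul_nonneg c0 (Yv_ge β (z i))]

end Pool.Agent.MP_4b405e_nt.EB
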