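import Pool.Agent.MP_4b405e_nt.SK.SpE
import Pool.Agent.MP_4b405e_nt.SK.EKil17
import Pool.Agent.MP_4b405e_nt.SK.ELab8

/-! The second run. -/

namespace Pool.Agent.MP_4b405e_nt.EB

open Pool.Agent.MP_5168f5_an H19 H17S H17F Real MeasureTheory Pointwise QA.EK
open Geo (Sym)

namespace R2

/-- Disjoint windows of levels. -/
theorem win (J : Finset ℕ) (y : ℕ → ℝ) {h β : ℝ} {U : ℕ} (h0 : 0 < h) (hβ : 2 + h ≤ β)
    (lo : ∀ i ∈ J, 0 ≤ y i) (hi : ∀ i ∈ J, y i + 4 * β ≤ h * U)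
    (sep : ∀ i ∈ J, ∀ i' ∈ J, i < i' → y i' + 2 * β ≤ y i) :
    ∃ (W : Finset ℕ) (i : ℕ → ℕ), W ⊆ Finset.range U ∧ β * J.card ≤ h * W.card ∧
      ∀ j ∈ W, i j ∈ J ∧ y (i j) + 2 * β + 1 ≤ h * j ∧ h * j ≤ y (i j) + 4 * β - 1 := by
  classical
  set w : ℕ → Finset ℕ := fun i =>
    Finset.Icc ⌈(y i + 2 * β + 1) / h⌉₊ ⌊(y i + 4 * β - 1) / h⌋₊ with hw
  have p : ∀ i ∈ J, 0 ≤ (y i + 2 * β + 1) / h ∧ 0 ≤ (y i + 4 * β - 1) / h := fun i m =>
    ⟨div_nonneg (by linarith [lo i m]) h0.le, div_nonneg (by linarith [lo i m]) h0.le⟩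
  have mem : ∀ i ∈ J, ∀ j ∈ w i, y i + 2 * β + 1 ≤ h * j ∧ h * j ≤ y i + 4 * β - 1 := by
    intro i m j hj
    rw [hw, Finset.mem_Icc, Nat.ceil_le, Nat.le_floor_iff (p i m).2, div_le_iff₀' h0,
      le_div_iff₀' h0] at hj
    exact hj
  have card : ∀ i ∈ J, β ≤ h * (w i).card := by
    intro i m
    have a1 := Nat.ceil_lt_add_one (p i m).1
    have a2 := Nat.lt_floor_add_one ((y i + 4 * β - 1) / h)
    have a3 : ⌊(y i + 4 * β - 1) / h⌋₊ + 1 ≤ (w i).card + ⌈(y i + 2 * β + 1) / h⌉₊ := by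
      rw [hw, Nat.card_Icc]; omega
    have a4 : (⌊(y i + 4 * β - 1) / h⌋₊ : ℝ) + 1 ≤ (w i).card + ⌈(y i + 2 * β + 1) / h⌉₊ := by
      exact_mod_cast a3
    have a5 : (y i + 4 * β - 1) / h - (y i + 2 * β + 1) / h - 1 ≤ (w i).card := by linarith
    have a6 := mul_le_mul_of_nonneg_left a5 h0.le
    rw [mul_sub, mul_sub, mul_div_cancel₀ _ h0.ne', mul_div_cancel₀ _ h0.ne'] at a6
    linarith
  have ex : ∀ j, ∃ i, j ∈ J.biUnion w → i ∈ J ∧ j ∈ w i := fun j => by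
    by_cases k : j ∈ J.biUnion w
    · obtain ⟨i, a, b⟩ := Finset.mem_biUnion.1 k
      exact ⟨i, fun _ => ⟨a, b⟩⟩
    · exact ⟨0, fun k' => (k k').elim⟩
  choose i hi' using ex
  refine ⟨J.biUnion w, i, fun j hj => ?_, ?_, fun j hj =>
    ⟨(hi' j hj).1, mem _ (hi' j hj).1 j (hi' j hj).2⟩⟩
  · have a := mem _ (hi' j hj).1 j (hi' j hj).2
    have b : h * j < h * U := by linarith [a.2, hi _ (hi' j hj).1]
    exact Finset.mem_range.2 (by exact_mod_cast lt_of_mul_lt_mul_left b h0.le)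
  · rw [Finset.card_biUnion, Nat.cast_sum, Finset.mul_sum, mul_comm β, ← nsmul_eq_mul,
      ← Finset.sum_const]
    · exact Finset.sum_le_sum card
    · intro a ha b hb e
      refine Finset.disjoint_left.2 fun j ja jb => ?_
      have k1 := mem a ha j ja
      have k2 := mem b hb j jb
      rcases lt_or_gt_of_ne e with c | c
      · linarith [sep a ha b hb c, k1.1, k2.2]
      · linarith [sep b hb a ha c, k1.2, k2.1]

theorem vb_eq (κ : Type) [Fintype κ] : Geo.vb (volume : Measure (κ → ℝ)) = 2 ^ Fintype.card κ := by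
  rw [Geo.vb, Measure.real, Real.volume_pi_closedBall _ zero_le_one, ENNReal.toReal_ofReal
    (by positivity), mul_one]

theorem log_ball (κ : Type) [Fintype κ] (t : ℝ) :
    log (exp t ^ Module.finrank ℝ (κ → ℝ) * Geo.vb (volume : Measure (κ → ℝ))) =
      Fintype.card κ * (t + lg) := by
  rw [vb_eq, Module.finrank_fintype_fun_eq_card, ← mul_pow, log_pow,
    log_mul (exp_pos t).ne' two_ne_zero, log_exp]; rfl

/-- Cells met by a variable with small differences. -/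
theorem hh_box {Ω γ : Type} [Fintype γ] (Q : FP Ω) (y : Ω → γ → ℝ) {s t : ℝ} (ht : s ≤ t)
    (h : ∀ ω ∈ Q.S, ∀ ω' ∈ Q.S, ‖y ω - y ω'‖ ≤ exp t) :
    hh Q (fun ω a => ⌊y ω a / exp s⌋) ≤ Fintype.card γ * (t - s + 2) := by
  have k := Geo.hh_cells Q y (P := Metric.closedBall 0 (exp t)) (r := exp s) (R := exp t)
    ⟨convex_closedBall _ _, fun x hx => by simpa using hx, by simp [(exp_pos t).le]⟩
    (fun x hx => mem_closedBall_zero_iff.1 hx) (exp_pos s)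
    (fun x hx => mem_closedBall_zero_iff.2 (hx.trans (exp_le_exp.2 ht)))
    fun a ha b hb => mem_closedBall_zero_iff.2 (h a ha b hb)
  rw [Geo.real_ball _ (exp_pos t).le, log_ball, log_exp] at k
  have := mul_le_mul_of_nonneg_left lg_lt_one.le (Nat.cast_nonneg (α := ℝ) (Fintype.card γ))
  linarith

variable {ι γ T Ω : Type} [Fintype ι] [Fintype γ] (X : Dat ι Empty γ T Ω)

/-- The box `k` read on `p`. -/
noncomputable def ps (k : ℕ) : (ι → ℝ) →L[ℝ] (γ → ℝ) := (X.Ξ k).comp X.J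

theorem phi (k : ℕ) (θ : T) (x : Vv ι Empty) : X.Φ k θ x = (X.s θ • ps X k) x.1 := by
  rw [X.Φ_apply, Subsingleton.elim x.2 0]; simp [ps]

theorem nest {h ν β d : ℝ} (ok : X.Ok h ν β 0 d) (hβ : 0 ≤ β) {i k : ℕ} (e : i < k) (hk : k < X.n)
    (x : γ → ℝ) : ‖X.Ξ k x‖ ≤ exp (-(12 * β)) * ‖X.Ξ i x‖ := by
  induction k, e using Nat.le_induction with
  | base => exact ok.nest i hk x
  | succ k _ ih =>
    refine (ok.nest k hk x).trans (le_trans ?_ (ih (by omega)))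
    exact mul_le_of_le_one_left (norm_nonneg _) (exp_le_one_iff.2 (by linarith))

/-- The states. -/
structure Val (d : ℝ) (Q : FP Ω) (s : Set (ι → ℝ) × ℝ) : Prop where
  sym : Sym s.1
  a0 : 0 ≤ s.2
  out : ∀ x ∈ s.1, ‖x‖ ≤ exp (-s.2)
  inn : ∀ x, ‖x‖ ≤ exp (-(d + s.2)) → x ∈ s.1
  sub : Q.S ⊆ X.P.S
  dif : ∀ ω ∈ Q.S, ∀ ω' ∈ Q.S, (X.B ω).1 - (X.B ω').1 ∈ s.1
  lv : X.Lv Q

/-- The volume above the inner ball. -/
noncomputable def La (d : ℝ) (s : Set (ι → ℝ) × ℝ) : ℝ :=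
  log (volume.real s.1) + Fintype.card ι * (d + s.2)

open Classical in
/-- The number of bad boxes which still can be charged. -/
noncomputable def bad (β : ℝ) (D : Set (ι → ℝ)) (ω : Ω) : ℝ := ∑ k ∈ Finset.range X.n,
  if ¬X.Gd k ω ∧ exp (-(4 * β)) ≤ Geo.sz (X.s (X.τ ω) • ps X k) D then 1 else 0

variable {X} {d β : ℝ} {Q : FP Ω} {s s' : Set (ι → ℝ) × ℝ}

theorem Val.vol (h : Val X d Q s) : 0 < volume.real s.1 :=
  ENNReal.toReal_pos (Geo.ne_zero_of _ (exp_pos _) h.inn) (Geo.ne_top_of _ h.out)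

theorem Val.la (h : Val X d Q s) : 0 ≤ La d s := by
  have k := log_le_log (mul_pos (pow_pos (exp_pos _) _) (Geo.vb_pos _))
    (Geo.real_ge volume (exp_pos _).le h.inn h.out)
  rw [log_ball] at k
  have := mul_nonneg (Nat.cast_nonneg (α := ℝ) (Fintype.card ι)) lg_pos.le
  unfold La; linarith

theorem Val.next {α : Type} (h : Val X d Q s) (f : (ι → ℝ) → α) (sy : Sym s'.1) (a0 : 0 ≤ s'.2)
    (out : ∀ x ∈ s'.1, ‖x‖ ≤ exp (-s'.2)) (inn : ∀ x, ‖x‖ ≤ exp (-(d + s'.2)) → x ∈ s'.1)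
    (dif : ∀ ω ∈ Q.S, ∀ ω' ∈ Q.S, f (X.B ω).1 = f (X.B ω').1 → (X.B ω).1 - (X.B ω').1 ∈ s'.1) :
    ∀ ω ∈ Q.S, Val X d (cv Q (fun ω => f (X.B ω).1) (f (X.B ω).1)) s' := fun ω hω => by
  have m := fun v => (mem_cv (F := fun ω => f (X.B ω).1) hω v).1
  refine ⟨sy, a0, out, inn, fun v hv => h.sub (m v hv).1, fun a ha b hb =>
    dif a (m a ha).1 b (m b hb).1 ((m a ha).2.trans (m b hb).2.symm), fun A W hW => ?_⟩
  have := her Q X.B (fun v => f v.1) hω (c := (W.card : ℝ) / X.U) (d := 1) (fun _ => True)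
    (fun v => X.j (X.τ v) ∈ W) X.ex (fun A => by simpa [Dat.er] using h.lv A W hW) A
  simpa [Dat.er] using this

theorem bad_nonneg (D : Set (ι → ℝ)) (ω : Ω) : 0 ≤ bad X β D ω :=
  Finset.sum_nonneg fun _ _ => by split_ifs <;> norm_num

theorem bad_mono {D D' : Set (ι → ℝ)} {r : ℝ} (hb : ∀ x ∈ D, ‖x‖ ≤ r) (hs : D' ⊆ D) (ω : Ω) :
    bad X β D' ω ≤ bad X β D ω := by
  refine Finset.sum_le_sum fun k _ => ?_
  split_ifs with a b
  · exact le_rfl
  · exact (b ⟨a.1, a.2.trans (Geo.sz_mono _ hb hs)⟩).elim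
  all_goals norm_num

theorem bad_drop {D D' : Set (ι → ℝ)} {r : ℝ} (hb : ∀ x ∈ D, ‖x‖ ≤ r) (hs : D' ⊆ D) (ω : Ω)
    {k : ℕ} (hk : k < X.n) (g : ¬X.Gd k ω)
    (e : exp (-(4 * β)) ≤ Geo.sz (X.s (X.τ ω) • ps X k) D)
    (e' : Geo.sz (X.s (X.τ ω) • ps X k) D' < exp (-(4 * β))) :
    bad X β D' ω + 1 ≤ bad X β D ω := by
  classical
  have m := Finset.mem_range.2 hk
  unfold bad
  rw [← Finset.add_sum_erase _ _ m, ← Finset.add_sum_erase _ _ m,
    if_neg fun a => absurd a.2 (not_le.2 e'), if_pos ⟨g, e⟩, zero_add, add_comm]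
  refine add_le_add le_rfl (Finset.sum_le_sum fun k _ => ?_)
  split_ifs with a b
  · exact le_rfl
  · exact (b ⟨a.1, a.2.trans (Geo.sz_mono _ hb hs)⟩).elim
  all_goals norm_num

theorem bad_le (D : Set (ι → ℝ)) :
    X.P.E (bad X β D) ≤ ∑ k ∈ Finset.range X.n, pb X.P fun ω => ¬X.Gd k ω := by
  unfold bad pb
  rw [X.P.E_sum]
  refine Finset.sum_le_sum fun k _ => X.P.E_mono fun ω _ => ?_
  by_cases g : X.Gd k ω
  · simp [g]
  · simp only [g, not_false_eq_true, true_and, if_true]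
    split_ifs <;> norm_num

theorem sz_s {D : Set (ι → ℝ)} {r : ℝ} (hb : ∀ x ∈ D, ‖x‖ ≤ r) (c : ℝ)
    (Φ : (ι → ℝ) →L[ℝ] (γ → ℝ)) : Geo.sz (c • Φ) D = |c| * Geo.sz Φ D := by
  refine le_antisymm (Geo.sz_cmp _ _ hb (abs_nonneg c) fun x => by simp [norm_smul]) ?_
  rcases eq_or_ne c 0 with rfl | hs
  · simpa using Geo.sz_nonneg (0 : (ι → ℝ) →L[ℝ] (γ → ℝ)) D
  · have h0 := abs_pos.2 hs
    rw [← le_div_iff₀' h0, div_eq_inv_mul]
    exact Geo.sz_cmp _ _ hb (by positivity) fun x => by simp [norm_smul, h0.ne']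

/-- The volume drops under the cut. -/
theorem cut_vol (h : Val X d Q s) {Φ : (ι → ℝ) →L[ℝ] (γ → ℝ)} (e : exp (-(4 * β)) ≤ Geo.sz Φ s.1)
    (p : ∀ c, 0 < volume.real (s.1 ∩ {x | |Φ x c| ≤ exp (-(5 * β))})) :
    ∃ c, log (volume.real (s.1 ∩ {x | |Φ x c| ≤ exp (-(5 * β))})) ≤
      log (volume.real s.1) - β + (Fintype.card ι + 2) := by
  obtain ⟨x, hx, k⟩ := Geo.lt_sz Φ (c := exp (-(4 * β)) / 2) (by positivity)
    (lt_of_lt_of_le (half_lt_self (exp_pos _)) e)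
  obtain ⟨c, hc⟩ : ∃ c, exp (-(4 * β)) / 2 < |Φ x c| := by
    by_contra n
    push Not at n
    exact absurd ((pi_norm_le_iff_of_nonneg (by positivity)).2 n) (not_le.2 k)
  refine ⟨c, ?_⟩
  obtain ⟨m, m1, m2⟩ := Geo.exists_nat_lt (lt_trans (by positivity) hc)
    (show 0 < 2 * exp (-(5 * β)) by positivity)
  set ζ : (ι → ℝ) →ₗ[ℝ] ℝ := (LinearMap.proj c).comp (Φ : (ι → ℝ) →ₗ[ℝ] (γ → ℝ))
  have a := Geo.cut volume ζ h.sym (h.sym.inter (Geo.sym_slab ζ (exp_pos (-(5 * β))).le))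
    Set.inter_subset_left (Geo.ne_top_of _ h.out) (fun x hx => hx.2) hx m1
  rw [Module.finrank_fintype_fun_eq_card] at a
  have a1 : exp β ≤ 4 * (m + 1) := by
    have : exp (-(4 * β)) = exp β * exp (-(5 * β)) := by rw [← exp_add]; congr 1; ring
    nlinarith [exp_pos (-(5 * β))]
  have a2 : exp β * volume.real (s.1 ∩ {x | |Φ x c| ≤ exp (-(5 * β))}) ≤
      2 ^ (Fintype.card ι + 2) * volume.real s.1 := by
    have := mul_le_mul_of_nonneg_right a1 (p c).le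
    have a' : (m + 1 : ℝ) * volume.real (s.1 ∩ {x | |Φ x c| ≤ exp (-(5 * β))}) ≤ _ := a
    rw [pow_add]; linarith
  have a3 := log_le_log (mul_pos (exp_pos β) (p c)) a2
  rw [log_mul (exp_pos β).ne' (p c).ne', log_exp, log_mul (by positivity) h.vol.ne', log_pow] at a3
  have a4 := mul_le_mul_of_nonneg_left lg_lt_one.le
    (Nat.cast_nonneg (α := ℝ) (Fintype.card ι + 2))
  unfold lg at a4
  push_cast at a3 a4
  linarith

theorem step {h ν L N c w t K : ℝ} (ok : X.Ok h ν β 0 L) (sz : ∀ ω ∈ X.P.S, X.Sz h (X.τ ω))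
    (gp : ∀ i ∈ X.I, ∀ θ, X.l i ≤ h * X.j θ + L → X.Gp β i θ) (h0 : 0 < h) (ν0 : 0 < ν)
    (hβ : 2 + h ≤ β) (L0 : 0 ≤ L) (n1 : Fintype.card ι ≤ N) (n2 : Fintype.card γ ≤ N)
    (c0 : 0 ≤ c) (w0 : 0 < w) (t0 : 0 < t) (K0 : 0 ≤ K) (b1 : N + 3 ≤ β)
    (b2 : 1 + w * (5 * β + 2) ≤ c * (β - (N + 2))) (b3 : N * (6 * β + 2) ≤ K * (w * t / 2))
    (v : Val X (L + 1 + 5 * β) Q s) :
    (X.I.card : ℝ)⁻¹ * ∑ i ∈ X.I, hh Q (X.dg L i) ≤ Q.E (fun ω => 2 * N + N * L / ν * (t + X.ex ω)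
      + c * La (L + 1 + 5 * β) s + K * bad X β s.1 ω) ∨
    (0 ≤ La (L + 1 + 5 * β) s + (L - s.2) ∧ ∃ (α : Type) (f : (ι → ℝ) → α) (s' : Set (ι → ℝ) × ℝ),
      La (L + 1 + 5 * β) s' + (L - s'.2) + 1 ≤ La (L + 1 + 5 * β) s + (L - s.2) ∧
      (∀ ω ∈ Q.S, Val X (L + 1 + 5 * β) (cv Q (fun ω => f (X.B ω).1) (f (X.B ω).1)) s') ∧
      hh Q (fun ω => f (X.B ω).1) + Q.E (fun ω => 2 * N + N * L / ν * (t + X.ex ω)
        + c * La (L + 1 + 5 * β) s' + K * bad X β s'.1 ω) ≤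
      Q.E (fun ω => 2 * N + N * L / ν * (t + X.ex ω) + c * La (L + 1 + 5 * β) s
        + K * bad X β s.1 ω) + K * mi Q X.τ (fun ω => f (X.B ω).1) fun _ => ()) := by
  classical
  simp only [FP.E_add, FP.E_mul, FP.E_const]
  have β0 : 0 < β := by linarith
  have N0 : 0 ≤ N := (Nat.cast_nonneg _).trans n1
  have U0 : (0 : ℝ) < X.U := by exact_mod_cast ok.u0
  have I0 : (0 : ℝ) < X.I.card := pos_of_mul_pos_right
    (lt_of_lt_of_le (mul_pos (mul_pos ν0 h0) U0) ok.mass) β0.le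
  have up : ∀ i ∈ X.I, ∀ p, ‖ps X i p‖ ≤ exp (X.l i) * ‖p‖ := fun i m p => by
    simpa [ps] using ok.up i m p
  have zu : ∀ i ∈ X.I, Geo.sz (ps X i) s.1 ≤ exp (X.l i - s.2) := fun i m =>
    Geo.sz_le _ (exp_pos _).le fun x hx => (up i m x).trans (by
      rw [sub_eq_add_neg, exp_add]; exact mul_le_mul_of_nonneg_left (v.out x hx) (exp_pos _).le)
  set J := X.I.filter fun i => exp (X.l i - L) < Geo.sz (ps X i) s.1 with hJ
  have jm : ∀ i ∈ J, i ∈ X.I ∧ X.l i - L < log (Geo.sz (ps X i) s.1) ∧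
      exp (log (Geo.sz (ps X i) s.1)) = Geo.sz (ps X i) s.1 := fun i m => by
    obtain ⟨a, b⟩ := Finset.mem_filter.1 m
    exact ⟨a, (lt_log_iff_exp_lt ((exp_pos _).trans b)).2 b, exp_log ((exp_pos _).trans b)⟩
  have ju : ∀ i ∈ J, log (Geo.sz (ps X i) s.1) ≤ X.l i - s.2 := fun i m =>
    exp_le_exp.1 (by rw [(jm i m).2.2]; exact zu i (jm i m).1)
  have E0 : 0 ≤ Q.E X.ex := Q.E_nonneg fun ω _ => ok.ex0 ω
  have B0 : 0 ≤ K * Q.E (bad X β s.1) := mul_nonneg K0 (Q.E_nonneg fun ω _ => bad_nonneg _ ω)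
  have term : ν * J.card ≤ (t + Q.E X.ex) * X.I.card →
      (X.I.card : ℝ)⁻¹ * ∑ i ∈ X.I, hh Q (X.dg L i) ≤ 2 * N + N * L / ν * (t + Q.E X.ex)
        + c * La (L + 1 + 5 * β) s + K * Q.E (bad X β s.1) := fun e => by
    have a : ∀ i ∈ X.I, hh Q (X.dg L i) ≤ 2 * N + if i ∈ J then N * L else 0 := fun i m => by
      have k : ∀ r, X.l i - L ≤ r → Geo.sz (ps X i) s.1 ≤ exp r →
          hh Q (X.dg L i) ≤ N * (r - (X.l i - L) + 2) := fun r e₁ e₂ =>
        (hh_box Q (fun ω => ps X i (X.B ω).1) e₁ fun a ha b hb => by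
          rw [← map_sub]; exact (Geo.le_sz _ v.out (v.dif a ha b hb)).trans e₂).trans
          (mul_le_mul_of_nonneg_right n2 (by linarith))
      split_ifs with g
      · have := k (X.l i) (by linarith) ((zu i m).trans (exp_le_exp.2 (by linarith [v.a0])))
        linarith
      · have := k _ le_rfl (not_lt.1 fun g' => g (Finset.mem_filter.2 ⟨m, g'⟩))
        linarith
    have b := Finset.sum_le_sum a
    rw [Finset.sum_add_distrib, Finset.sum_const, Finset.sum_ite_mem,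
      Finset.inter_eq_right.2 (Finset.filter_subset _ _), Finset.sum_const, nsmul_eq_mul,
      nsmul_eq_mul] at b
    have b' := mul_le_mul_of_nonneg_left e (show 0 ≤ N * L / ν by positivity)
    rw [← mul_assoc, div_mul_cancel₀ _ ν0.ne'] at b'
    have b'' : (X.I.card : ℝ)⁻¹ * ∑ i ∈ X.I, hh Q (X.dg L i) ≤
        2 * N + N * L / ν * (t + Q.E X.ex) := by
      rw [inv_mul_le_iff₀ I0]; linarith
    linarith [mul_nonneg c0 v.la]
  rcases J.eq_empty_or_nonempty with e | ⟨i₀, m₀⟩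
  · exact Or.inl (term (by rw [e]; simp only [Finset.card_empty, Nat.cast_zero, mul_zero]; positivity))
  have μ0 : 0 ≤ La (L + 1 + 5 * β) s + (L - s.2) := by
    linarith [v.la, (jm i₀ m₀).2.1, ju i₀ m₀]
  obtain ⟨W, i, w1, w2, w3⟩ := win J (fun i => log (Geo.sz (ps X i) s.1)) (U := X.U) h0 hβ
    (fun i m => by linarith [(jm i m).2.1, (ok.lev i (jm i m).1).1])
    (fun i m => by linarith [ju i m, (ok.lev i (jm i m).1).2, v.a0]) fun i m i' m' e => by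
      have := Geo.sz_cmp (ps X i) (ps X i') v.out (exp_pos _).le fun x =>
        nest X ok β0.le e (ok.sub _ (jm i' m').1) (X.J x)
      rw [← (jm i m).2.2, ← (jm i' m').2.2, ← exp_add, exp_le_exp] at this
      linarith
  have cd : ∀ θ, X.j θ ∈ W ∧ X.Sz h θ → i (X.j θ) ∈ X.I ∧
      X.l (i (X.j θ)) ≤ h * X.j θ + L ∧
      exp (-(4 * β)) ≤ Geo.sz (X.s θ • ps X (i (X.j θ))) s.1 ∧
      Geo.sz (X.s θ • ps X (i (X.j θ))) s.1 ≤ exp (-(2 * β)) := fun θ ⟨a, b⟩ => by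
    obtain ⟨m, e₁, e₂⟩ := w3 _ a
    rw [sz_s v.out, ← (jm _ m).2.2]
    refine ⟨(jm _ m).1, by linarith [(jm _ m).2.1], le_trans ?_
      (mul_le_mul_of_nonneg_right b.1 (exp_pos _).le),
      (mul_le_mul_of_nonneg_right b.2 (exp_pos _).le).trans ?_⟩ <;>
    · rw [← exp_add, exp_le_exp]; linarith
  obtain ⟨f, f1, f2⟩ := Geo.lab Q (fun ω => (X.B ω).1) v.sym (exp_pos _) v.inn v.out v.dif
    (show 0 ≤ 6 * β by linarith)
  rw [Module.finrank_fintype_fun_eq_card] at f1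
  rcases killG Q (fun ω => (X.B ω).1) X.τ (fun θ => X.s θ • ps X (i (X.j θ)))
    (fun θ => X.Gd (i (X.j θ))) s.1 f (fun θ => X.j θ ∈ W ∧ X.Sz h θ) (by linarith) w0 v.dif f2
    (fun θ m x hx => ((Geo.le_sz _ v.out hx).trans (cd θ m).2.2.2).trans
      (exp_le_one_iff.2 (by linarith)))
    (fun θ m a ha b hb g g' e e' => by
      have := gp _ (cd θ m).1 θ (cd θ m).2.1 a (v.sub ha) b (v.sub hb) g g' e e'
      rwa [phi] at this) with ⟨θ, m, k⟩ | k
  · obtain ⟨m1, m2, m3, -⟩ := cd θ m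
    have inn : ∀ a x, ‖x‖ ≤ exp (-(L + 1 + 5 * β + s.2)) → x ∈ s.1 ∩
        {x | |(X.s θ • ps X (i (X.j θ))) x a| ≤ exp (-(5 * β))} := fun a x hx => by
      refine ⟨v.inn x hx, (norm_le_pi_norm ((X.s θ • ps X (i (X.j θ))) x) a).trans ?_⟩
      rw [smul_apply, norm_smul, Real.norm_eq_abs]
      calc _ ≤ exp (1 - h * X.j θ) * (exp (X.l (i (X.j θ))) * exp (-(L + 1 + 5 * β + s.2))) :=
            mul_le_mul m.2.2 ((up _ m1 x).trans (mul_le_mul_of_nonneg_left hx (exp_pos _).le))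
              (norm_nonneg _) (exp_pos _).le
        _ ≤ _ := by rw [← exp_add, ← exp_add, exp_le_exp]; linarith [v.a0]
    obtain ⟨a, ha⟩ := cut_vol v m3 fun a => ENNReal.toReal_pos
      (Geo.ne_zero_of _ (exp_pos _) (inn a)) (Geo.ne_top_of _ fun x hx => v.out x hx.1)
    obtain ⟨F, F1, F2⟩ := k a (5 * β) (by linarith) le_rfl
    have la : La (L + 1 + 5 * β) (s.1 ∩ {x | |(X.s θ • ps X (i (X.j θ))) x a| ≤ exp (-(5 * β))},
        s.2) ≤ La (L + 1 + 5 * β) s - (β - (N + 2)) := by unfold La; dsimp only; linarith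
    refine Or.inr ⟨μ0, _, F, (s.1 ∩ {x | |(X.s θ • ps X (i (X.j θ))) x a| ≤ exp (-(5 * β))}, s.2),
      by dsimp only; linarith, v.next F (v.sym.inter (Geo.sym_slab ((LinearMap.proj a).comp
        (X.s θ • ps X (i (X.j θ)) : (ι → ℝ) →L[ℝ] (γ → ℝ)).toLinearMap) (exp_pos _).le)) v.a0
        (fun x hx => v.out x hx.1) (inn a) fun x hx y hy e => ⟨v.dif x hx y hy, F2 x hx y hy e⟩, ?_⟩
    have a1 := mul_le_mul_of_nonneg_left (Q.E_mono fun ω _ => bad_mono (X := X) (β := β) v.out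
      (Set.inter_subset_left
        (t := {x | |(X.s θ • ps X (i (X.j θ))) x a| ≤ exp (-(5 * β))})) ω) K0
    have a2 := mul_nonneg K0 (mi_nonneg (P := Q) X.τ (fun ω => F (X.B ω).1) fun _ => ())
    have a3 := mul_le_mul_of_nonneg_left la c0
    dsimp only
    linarith
  by_cases g : pb Q (fun ω => X.j (X.τ ω) ∈ W ∧ X.Sz h (X.τ ω)) ≤ t
  · refine Or.inl (term ?_)
    have a1 := v.lv (fun _ => True) W w1
    simp only [Dat.er, pb_true, true_and, if_true, mul_one] at a1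
    have a2 : pb Q (fun ω => X.j (X.τ ω) ∈ W) ≤ t :=
      (pb_mono fun ω hω e => ⟨e, sz ω (v.sub hω)⟩).trans g
    have a3 : (W.card : ℝ) ≤ (t + Q.E X.ex) * X.U := by rw [← div_le_iff₀ U0]; linarith
    have a4 := mul_le_mul_of_nonneg_left ok.mass (show 0 ≤ t + Q.E X.ex by linarith)
    refine le_of_mul_le_mul_left ?_ β0
    nlinarith [mul_le_mul_of_nonneg_left w2 ν0.le,
      mul_le_mul_of_nonneg_left a3 (mul_pos ν0 h0).le]
  have sb := v.sym.smul_sub (exp_pos (-(6 * β))).le (exp_le_one_iff.2 (by linarith))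
  have la : La (L + 1 + 5 * β) (exp (-(6 * β)) • s.1, s.2 + 6 * β) = La (L + 1 + 5 * β) s := by
    unfold La; dsimp only
    rw [Geo.real_smul _ (exp_pos _).le, log_mul (by positivity) v.vol.ne', log_pow, log_exp,
      Module.finrank_fintype_fun_eq_card]
    ring
  refine Or.inr ⟨μ0, _, f, (exp (-(6 * β)) • s.1, s.2 + 6 * β), by rw [la]; dsimp only; linarith,
    v.next f (v.sym.smul _) (by linarith [v.a0]) ?_ (fun x hx => Geo.mem_smul_of_ball (exp_pos _)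
      v.inn (exp_pos _).le (hx.trans (by rw [← exp_add, exp_le_exp]; linarith))) f2, ?_⟩
  · rintro _ ⟨x, hx, rfl⟩
    simp only [norm_smul, Real.norm_eq_abs, abs_of_pos (exp_pos _)]
    refine (mul_le_mul_of_nonneg_left (v.out x hx) (exp_pos _).le).trans ?_
    rw [← exp_add, exp_le_exp]; linarith
  have a1 : Q.E (bad X β (exp (-(6 * β)) • s.1)) + pb Q (fun ω =>
      (X.j (X.τ ω) ∈ W ∧ X.Sz h (X.τ ω)) ∧ ¬X.Gd (i (X.j (X.τ ω))) ω) ≤ Q.E (bad X β s.1) := by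
    unfold pb
    rw [← Q.E_add]
    refine Q.E_mono fun ω _ => ?_
    split_ifs with e
    · refine bad_drop v.out sb ω (ok.sub _ (cd _ e.1).1) e.2 (cd _ e.1).2.2.1 ?_
      rw [Geo.sz_smul _ v.out (exp_pos _).le]
      refine (mul_le_mul_of_nonneg_left (cd _ e.1).2.2.2 (exp_pos _).le).trans_lt ?_
      rw [← exp_add, exp_lt_exp]; linarith
    · rw [add_zero]; exact bad_mono v.out sb ω
  rw [div_mul_eq_mul_div, le_div_iff₀ w0] at k
  have a2 := mul_le_mul_of_nonneg_right n1 (show 0 ≤ 6 * β + 2 by linarith)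
  have a3 := mul_le_mul_of_nonneg_left a1 K0
  have a4 := mul_le_mul_of_nonneg_right (not_le.1 g).le w0.le
  have a5 := mul_le_mul_of_nonneg_left (a4.trans k) K0
  rw [la]; dsimp only
  linarith

end R2

open R2

theorem run2 : Run2 := by
  intro N h ν ε h0 ν0 ε0
  have N0 : (0 : ℝ) ≤ N := Nat.cast_nonneg N
  obtain ⟨c, hc⟩ : ∃ c, c = ε / (4 * (N + 1)) := ⟨_, rfl⟩
  have c0 : 0 < c := by rw [hc]; positivity
  have c1 : c * N ≤ ε / 4 := by
    rw [hc, div_mul_eq_mul_div, div_le_div_iff₀ (by positivity) (by norm_num)]; nlinarith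
  refine ⟨N / ν, 2 + h + 2 / c + 2 * (N + 3), by positivity, fun β hβ => ?_⟩
  have c2 : 0 < 2 / c := by positivity
  have β0 : 0 < β := by linarith
  refine ⟨N * (6 * β + 2) / (c / 10 * (c * ν) / 2), 8 * N / ε + 2 + 5 * β, by positivity,
    fun ι γ T Ω _ _ X L n1 n2 L0 ok sz gp => ?_⟩
  have e1 : 0 ≤ 8 * N / ε := by positivity
  have n1' : (Fintype.card ι : ℝ) ≤ N := by exact_mod_cast n1
  have U0 : (0 : ℝ) < X.U := by exact_mod_cast ok.u0
  have I0 : (0 : ℝ) < X.I.card := pos_of_mul_pos_right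
    (lt_of_lt_of_le (mul_pos (mul_pos ν0 h0) U0) ok.mass) β0.le
  set K := N * (6 * β + 2) / (c / 10 * (c * ν) / 2) with hK
  have K0 : 0 ≤ K := by positivity
  have k := indG X.τ (fun ω => (X.B ω).1) (tgt_sum X.I (w := (X.I.card : ℝ)⁻¹) (by positivity)
    (inv_mul_cancel₀ I0.ne').le (X.dg L)) (Val X (L + 1 + 5 * β)) _
    (fun s => La (L + 1 + 5 * β) s + (L - s.2)) K0
    (fun Q s => step (c := c) (w := c / 10) (t := c * ν) ok sz gp h0 ν0 (by linarith)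
      (by linarith) n1' (by exact_mod_cast n2) c0.le (by positivity) (by positivity) K0
      (by linarith) (by
        have := mul_le_mul_of_nonneg_left hβ c0.le
        rw [mul_add, mul_add, mul_div_cancel₀ _ c0.ne'] at this
        nlinarith [mul_pos c0 h0]) (by rw [hK, div_mul_cancel₀ _ (by positivity)]))
    X.P (Metric.closedBall 0 1, 0)
    ⟨⟨convex_closedBall _ _, fun x hx => by simpa using hx, by simp⟩, le_rfl,
      fun x hx => by simpa using hx,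
      fun x hx => mem_closedBall_zero_iff.2 (hx.trans (exp_le_one_iff.2 (by linarith))),
      subset_rfl, fun a ha b hb =>
        mem_closedBall_zero_iff.2 ((norm_fst_le _).trans (ok.ball a ha b hb)), ok.lv⟩
  simp only [FP.E_add, FP.E_mul, FP.E_const] at k
  have a1 := mul_le_mul_of_nonneg_left (bad_le (X := X) (β := β) (Metric.closedBall 0 1)) K0
  have a2 := mul_le_mul_of_nonneg_left (mi_mono (P := X.P) (F := X.τ) (K := fun _ => ())
    ((Fn.comp (fun v : Vv ι Empty => v.1) X.B).left _)) K0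
  have a3 : La (L + 1 + 5 * β) ((Metric.closedBall 0 1, 0) : Set (ι → ℝ) × ℝ) ≤ N * (2 * L) := by
    have := log_ball ι 0
    rw [exp_zero, ← Geo.real_ball _ zero_le_one] at this
    unfold La; dsimp only
    rw [this, ← mul_add]
    exact mul_le_mul n1' (by linarith [lg_lt_one]) (by linarith [lg_pos]) N0
  have a4 := mul_le_mul_of_nonneg_left a3 c0.le
  have a5 := mul_le_mul_of_nonneg_right c1 (show 0 ≤ L by linarith)
  have a6 : N * L / ν * (c * ν + X.P.E X.ex) = c * N * L + N / ν * L * X.P.E X.ex := by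
    field_simp
  have a7 : 8 * N ≤ ε * L := by
    have := mul_le_mul_of_nonneg_left (show 8 * N / ε ≤ L by linarith) ε0.le
    rwa [mul_div_cancel₀ _ ε0.ne'] at this
  rw [inv_mul_le_iff₀ I0] at k
  refine k.trans (mul_le_mul_of_nonneg_left ?_ I0.le)
  unfold Dat.bud
  linarith

end Pool.Agent.MP_4b405e_nt.EB
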