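import Pool.Agent.MP_4b405e_nt.SK.EDef

/-! The step with many candidates. -/

namespace Pool.Agent.MP_4b405e_nt.EB

open Pool.Agent.MP_5168f5_an H19 H17S H17F Real MeasureTheory Pointwise
open Geo (Sym sz es sec shd cutS payS)

section

variable {ι ι' γ T Ω : Type} [Fintype ι] [Fintype ι'] [Fintype γ]

open Classical in
theorem Bq_drop (X : Dat ι ι' γ T Ω) {β : ℝ} {D D' : Set (Vv ι ι')} (ω : Ω) (E : Prop) (k : ℕ)
    (hle : ∀ k, k < X.n → X.z k (X.τ ω) D' ≤ X.z k (X.τ ω) D)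
    (hE : E → k < X.n ∧ ¬X.Gd k ω ∧ exp (-(4 * β)) ≤ X.z k (X.τ ω) D ∧
      X.z k (X.τ ω) D' < exp (-(4 * β))) :
    X.Bq β D' ω + (if E then 1 else 0) ≤ X.Bq β D ω := by
  have h1 : ∀ k ∈ Finset.range X.n,
      (0 : ℝ) ≤ (if ¬X.Gd k ω ∧ exp (-(4 * β)) ≤ X.z k (X.τ ω) D then 1 else 0) -
        if ¬X.Gd k ω ∧ exp (-(4 * β)) ≤ X.z k (X.τ ω) D' then 1 else 0 := by
    intro k hk
    by_cases h : ¬X.Gd k ω ∧ exp (-(4 * β)) ≤ X.z k (X.τ ω) D'
    · rw [if_pos h, if_pos ⟨h.1, h.2.trans (hle k (Finset.mem_range.1 hk))⟩]; norm_num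
    · rw [if_neg h]; split_ifs <;> norm_num
  have h2 := Finset.sum_nonneg h1
  unfold Dat.Bq
  by_cases h : E
  · obtain ⟨a1, a2, a3, a4⟩ := hE h
    have h3 := Finset.single_le_sum h1 (Finset.mem_range.2 a1)
    rw [if_pos ⟨a2, a3⟩, if_neg fun c => absurd c.2 (not_le.2 a4), Finset.sum_sub_distrib] at h3
    rw [if_pos h]
    linarith
  · rw [Finset.sum_sub_distrib] at h2
    rw [if_neg h]
    linarith

end

theorem sStepH : SStepH := by
  intro pO pA gA gS gB ki at' fact sN sF ι ι' γ T Ω _ _ _ X σ Q s hy val run hν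
  classical
  obtain ⟨D, a⟩ := s
  have nm := hy.nm
  have β2 : 2 ≤ σ.β := by linarith [nm.hβ, nm.h0]
  have b0 : 0 ≤ σ.b := by linarith [nm.b2]
  have β6 : 0 ≤ 6 * σ.β := by linarith
  have N1 : (1 : ℝ) ≤ Fintype.card ι' := by exact_mod_cast nm.ne
  have N0 : (0 : ℝ) ≤ Fintype.card ι := Nat.cast_nonneg _
  have cV0 : 0 ≤ cV ι ι' := by unfold cV; positivity
  have bd : Bd D a := val.bd
  obtain ⟨sym, sub, gn, hz, hla, hlb⟩ := (gB ι ι' γ T Ω X D a (6 * σ.β) bd β6).2.1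
  obtain ⟨α, f, hf, fib⟩ := hlb Q val.inn
  obtain ⟨bd', lw', -, -, sb'⟩ := ((gA ι ι').2 D a bd).2.2.2.1 _ (6 * σ.β) sym sub β6 subset_rfl
  obtain ⟨-, -, -, fa⟩ := fact ι ι' γ T Ω X σ Q (D, a) hy val
  have hk : ∀ θ, ∃ k, X.Cd σ (D, a) θ → X.CN σ (D, a) k θ ∨ X.CF σ (D, a) k θ := by
    intro θ
    by_cases h : X.Cd σ (D, a) θ
    · exact h.2.imp fun k hk _ => hk
    · exact ⟨0, fun c => absurd c h⟩
  choose k hk using hk
  have alI : ∀ θ D i, i ∈ X.Al σ.β θ D → i < X.n := fun θ D i hi =>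
    hy.ok.sub i (Finset.mem_filter.1 hi).1
  have e41 : exp (-(4 * σ.β)) ≤ exp (-σ.β) := exp_le_exp.2 (by linarith)
  have cd : ∀ θ, X.Cd σ (D, a) θ → k θ < X.n ∧ X.Gp σ.β (k θ) θ ∧ X.z (k θ) θ D ≤ 1 ∧
      exp (-(4 * σ.β)) ≤ X.z (k θ) θ D := by
    intro θ h
    rcases hk θ h with h1 | h1
    · have lt := alI θ D _ h1.1
      exact ⟨lt, (((fa θ h.1).2.2.2 _ h1.1).2.2.1 _ le_rfl lt).2.1, h1.2.2.1,
        h1.2.1.trans (gS ι ι' γ T Ω X D a (k θ) θ bd).2.2.1⟩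
    · obtain ⟨i, hi, ik⟩ := h1.2.1
      exact ⟨h1.1, (((fa θ h.1).2.2.2 _ hi).2.2.1 _ ik h1.1).2.1, h1.2.2.2,
        e41.trans h1.2.2.1.le⟩
  rcases ki ι ι' γ T Ω α X Q D a σ.β f (X.Cd σ (D, a)) k β2 bd val.sub val.inn fib
    (fun θ h => ⟨(cd θ h).2.1, (cd θ h).2.2.1⟩) with ⟨θ, h, fr⟩ | h
  · rcases hk θ h with h1 | h1
    · exact sN ι ι' γ T Ω X σ Q (D, a) hy val run (k θ) θ h.1 h1 fr
    · exact sF ι ι' γ T Ω X σ Q (D, a) hy val run (k θ) θ h.1 h1 fr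
  have g6 : Gn D a + 6 * σ.β ≤ Gn (exp (-(6 * σ.β)) • D) a := by rw [gn]; nlinarith
  have rm' : X.rm σ (exp (-(6 * σ.β)) • D) ≤ X.rm σ D :=
    div_le_div_of_nonneg_right (by linarith) (by linarith [nm.vβ])
  refine ⟨α, f, (exp (-(6 * σ.β)) • D, a), ?_, fun ω hω => ?_, ?_⟩
  · unfold Dat.μ
    simp only
    linarith
  · obtain ⟨t1, t2, t3, t4⟩ :=
      at' ι ι' γ T Ω α X Q f σ.h σ.κ σ.r σ.L (exp (-(6 * σ.β)) • D) ω hω
    refine ⟨t1.trans val.sub, t2 fib, t3 val.lv, t4 val.ac, bd', val.a0, val.a1, ?_, ?_,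
      hla _ val.la⟩
    · have := run.2
      simp only at this ⊢
      rw [gn]
      unfold Cn.Gm
      linarith
    · refine (((gA ι ι').2 _ a bd').2.2.1 _ (sb' _ val.sb)).2 _ ?_
      unfold Cn.dE
      simp only
      linarith
  · have c0 : 0 ≤ σ.c₂ := by
      have := nm.C0
      unfold Cn.c₂; positivity
    have ν0 : 0 < σ.ν₁ := by
      have := nm.C0
      have := nm.ν0
      unfold Cn.ν₁ Cn.c₂; positivity
    have w0 : 0 ≤ σ.w₁ := by
      have := nm.κ0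
      unfold Cn.w₁; positivity
    have w1 : σ.w₁ ≤ 1 := by
      have := nm.κ0
      unfold Cn.w₁
      rw [div_le_one (by positivity)]; linarith
    have K0 : 0 ≤ σ.K ι ι' := by unfold Cn.K; positivity
    obtain ⟨E, hE⟩ : ∃ E : Ω → Prop,
        E = fun ω => X.Cd σ (D, a) (X.τ ω) ∧ ¬X.Gd (k (X.τ ω)) ω := ⟨_, rfl⟩
    have pt : ∀ ω ∈ Q.S, X.ψ σ (exp (-(6 * σ.β)) • D, a) ω + σ.K ι ι' *
        (if E ω then 1 else 0) ≤ X.ψ σ (D, a) ω + σ.β := by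
      intro ω hω
      have re : X.Re (X.τ ω) := ⟨ω, val.sub hω, rfl⟩
      have ns := (fa _ re).1
      have cmp := fun k => (gS ι ι' γ T Ω X D a k (X.τ ω) bd).2.2.2.2.2.2.1 _ a
        (exp (-(6 * σ.β))) bd' sub (exp_pos _).le subset_rfl
      have p1 : X.pf σ (X.τ ω) D - σ.β ≤ X.pf σ (X.τ ω) (exp (-(6 * σ.β)) • D) := by
        refine pA σ.β σ.b σ.c₂ σ.β X.n _ _ _ _ c0 ⟨b0, nm.bβ, by linarith, fun i hi => ?_,
          alI _ _, ns, fun k _ => (cmp k).1, fun k _ => (cmp k).2.2, fun k _ _ => ?_⟩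
        · rw [Dat.Al, Finset.mem_filter] at hi ⊢
          exact ⟨hi.1, (cmp i).2.1.trans hi.2⟩
        · have z0 : 0 ≤ X.z k (X.τ ω) D := ns.1 k
          have z1 : 0 ≤ X.z k (X.τ ω) (exp (-(6 * σ.β)) • D) := by rw [hz]; positivity
          have q1 := (pO σ.β σ.b _ 0 b0 (by linarith [nm.bβ]) z0).1.2
          have q2 := (pO σ.β σ.b _ 0 b0 (by linarith [nm.bβ]) z1).1.1
          linarith
      have p2 := Bq_drop X (β := σ.β) (D := D) (D' := exp (-(6 * σ.β)) • D) ω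
        (E ω) (k (X.τ ω)) (fun k _ => (cmp k).1) fun c => by
          rw [hE] at c
          obtain ⟨a1, -, a3, a4⟩ := cd _ c.1
          refine ⟨a1, c.2, a4, ?_⟩
          rw [hz]
          exact (mul_le_of_le_one_right (exp_pos _).le a3).trans_lt (exp_lt_exp.2 (by linarith))
      have p3 := mul_le_mul_of_nonneg_left p2 K0
      have p4 := mul_le_mul_of_nonneg_left p1 w0
      have p5 := mul_le_mul_of_nonneg_left rm' (by linarith : 0 ≤ cV ι ι' + 2)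
      have p6 : σ.w₁ * σ.β ≤ σ.β := mul_le_of_le_one_left (by linarith) w1
      unfold Dat.ψ
      simp only
      linarith
    have h1 := Q.E_mono pt
    rw [Q.E_add, Q.E_add, Q.E_mul, Q.E_const] at h1
    have h2 : (Fintype.card ι + Fintype.card ι') * (6 * σ.β + 2) + σ.β ≤ σ.K ι ι' *
        (pb Q (fun ω => X.Cd σ (D, a) (X.τ ω) ∧ ¬X.Gd (k (X.τ ω)) ω) +
          mi Q X.τ (fun ω => f (X.B ω)) fun _ => ()) := by
      have h3 := (one_le_div ν0).2 (hν.trans h)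
      have h4 : 0 ≤ (Fintype.card ι + Fintype.card ι') * (6 * σ.β + 2) + σ.β := by positivity
      refine (le_mul_of_one_le_left h4 h3).trans (le_of_eq ?_)
      unfold Cn.K
      ring
    have h5 : (Q.E fun ω => if E ω then 1 else 0) = pb Q E := rfl
    rw [← hE] at h2
    rw [h5] at h1
    linarith

end Pool.Agent.MP_4b405e_nt.EB
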