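import Pool.Agent.MP_4b405e_nt.SK.EDef

/-! The paid step of the first run. -/

namespace Pool.Agent.MP_4b405e_nt.EB

open Pool.Agent.MP_5168f5_an H19 H17S H17F Real MeasureTheory Pointwise
open Geo (Sym sz es sec shd cutS payS)

theorem sStepP : SStepP := by
  classical
  intro pO pA pB gA gS gB at' fa far ι ι' γ T Ω _ _ _ X σ Q s hy hv hr hc
  obtain ⟨D, a⟩ := s
  have nm := hy.nm
  have b2 := nm.b2
  have bβ := nm.bβ
  have b0 : 0 ≤ σ.b := by linarith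
  obtain ⟨⟨p1, p2, p3, p4, p5, p6, p7⟩, -, -⟩ := gB ι ι' γ T Ω X D a σ.b hv.bd b0
  obtain ⟨α, f, f1, f2⟩ := p7 Q hv.inn
  obtain ⟨-, -, -, -, g5⟩ := (gA ι ι').2 D a hv.bd
  obtain ⟨q1, q2, q3⟩ := g5 _ p3 p5
  obtain ⟨-, -, -, fa⟩ := fa ι ι' γ T Ω X σ Q (D, a) hy hv
  have far := far ι ι' γ T Ω X σ Q (D, a) hy hv
  set D' := payS D (exp (-σ.b)) with hD'
  have rm : X.rm σ D' = X.rm σ D := by unfold Dat.rm; rw [q1]
  have c0 : 0 < σ.c₂ := by have := nm.C0; unfold Cn.c₂; positivity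
  have c1 : σ.c₂ ≤ 1 / 2 := by
    have := nm.C0
    exact one_div_le_one_div_of_le two_pos (by linarith)
  have zz : ∀ k θ, X.z k θ D' ≤ X.z k θ D ∧ exp (-σ.b) * X.z k θ D ≤ X.z k θ D' := fun k θ => by
    obtain ⟨-, -, -, -, -, -, h, -⟩ := gS ι ι' γ T Ω X D a k θ hv.bd
    have := h D' _ _ p1 p3 (exp_pos _).le p4
    exact ⟨this.1, this.2.2⟩
  have al : ∀ θ, X.Al σ.β θ D' = X.Al σ.β θ D := fun θ => by
    unfold Dat.Al; simp only [(p6 _ θ).1]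
  refine ⟨α, f, (D', a + σ.b), le_of_eq ?_, fun ω hω => ?_, ?_⟩
  · unfold Dat.μ
    simp only [p2, rm]
    have : σ.b ≠ 0 := by linarith
    field_simp; ring
  · obtain ⟨t1, t2, t3, t4⟩ := at' ι ι' γ T Ω α X Q f σ.h σ.κ σ.r σ.L D' ω hω
    refine ⟨t1.trans hv.sub, t2 f2, t3 hv.lv, t4 hv.ac, p1, add_nonneg hv.a0 b0,
      add_le_add hr.1.le le_rfl, p2 ▸ hv.g1, ?_, q3 _ hv.la⟩
    refine (((gA ι ι').2 D' _ p1).2.2.1 _ (q2 _ hv.sb)).2 _ ?_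
    simp only [p2]
    unfold Cn.dE Cn.fb
    have := div_le_div_of_nonneg_right (show a + σ.Gm ι' + cV ι ι' + 3 + σ.r ≤
      a + σ.b + σ.Gm ι' + cV ι ι' + 3 + σ.r by linarith) nm.κ0.le
    linarith
  have key : ∀ ω ∈ Q.S, X.pf σ (X.τ ω) D + σ.c₂ * (σ.b - 1) * (if ∃ i ∈ X.Al σ.β (X.τ ω) D,
      exp (-(4 * σ.β)) ≤ X.e i (X.τ ω) D ∧ 1 < X.z i (X.τ ω) D then 1 else 0) -
      σ.b * (if X.Cd σ (D, a) (X.τ ω) then 1 else 0) ≤ X.pf σ (X.τ ω) D' := by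
    intro ω hω
    have re : X.Re (X.τ ω) := ⟨ω, hv.sub hω, rfl⟩
    generalize X.τ ω = θ at re ⊢
    obtain ⟨ns, -, -, fb⟩ := fa θ re
    have mv : Mv σ.β σ.b (σ.b * if X.Cd σ (D, a) θ then 1 else 0) X.n (X.Al σ.β θ D)
        (X.Al σ.β θ D') (fun k => X.z k θ D) fun k => X.z k θ D' := by
      refine ⟨b0, bβ, mul_nonneg b0 (by split_ifs <;> norm_num), (al θ).ge,
        fun i hi => hy.ok.sub i (Finset.mem_filter.1 hi).1, ns, fun k _ => (zz k θ).1,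
        fun k _ => le_trans (mul_le_mul_of_nonneg_right (exp_le_exp.2 (by linarith)) (ns.1 k))
          (zz k θ).2, fun k hk hi => ?_⟩
      obtain ⟨o1, o2⟩ := (pO σ.β σ.b _ _ b0 (by linarith) (ns.1 k)).2 (zz k θ).2
      split_ifs with h
      · rwa [mul_one]
      · rw [mul_zero, sub_nonpos]
        refine o2 ?_
        by_contra h1
        push Not at h1
        exact h ⟨re, k, Or.inr ⟨hk, hi, h1.1, h1.2⟩⟩
    by_cases h : ∃ i ∈ X.Al σ.β θ D, exp (-(4 * σ.β)) ≤ X.e i θ D ∧ 1 < X.z i θ D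
    · rw [if_pos h, mul_one]
      obtain ⟨i, hi, h1, h2⟩ := h
      obtain ⟨-, k1, k2, k3⟩ := fb i hi
      refine pB σ.β σ.b σ.C _ X.n _ _ _ _ i nm.C0 mv hi (k3 h1) h2
        (fun k h3 h4 => (k2 k h3 h4).2.2) k1 (((p6 i θ).2).trans ?_)
      have h3 : X.e i θ D ≤ exp (-(2 * σ.β)) := (Finset.mem_filter.1 hi).2
      have h4 : 2 * exp (-(2 * σ.β)) ≤ exp (-σ.b) := by
        refine le_trans ?_ (exp_le_exp.2 (show 1 + -(2 * σ.β) ≤ _ by linarith))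
        rw [exp_add]
        exact mul_le_mul_of_nonneg_right (by linarith [add_one_le_exp (1 : ℝ)]) (exp_pos _).le
      nlinarith [exp_pos (-σ.b)]
    · rw [if_neg h, mul_zero, add_zero]
      exact pA σ.β σ.b σ.c₂ _ X.n _ _ _ _ c0.le mv
  have n1 : 0 < σ.ν₁ := by have := nm.ν0; unfold Cn.ν₁; positivity
  have K0 : 0 ≤ σ.K ι ι' := by
    have : 0 ≤ σ.β := by linarith
    unfold Cn.K; positivity
  have w0 : 0 < σ.w₁ := by have := nm.κ0; unfold Cn.w₁; positivity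
  have w1 : σ.w₁ ≤ 1 / 4 := by
    have := nm.κ0
    exact one_div_le_one_div_of_le (by norm_num) (by linarith)
  have bq : ∀ ω, X.Bq σ.β D' ω ≤ X.Bq σ.β D ω := fun ω => Finset.sum_le_sum fun k _ => by
    by_cases h : ¬X.Gd k ω ∧ exp (-(4 * σ.β)) ≤ X.z k (X.τ ω) D'
    · rw [if_pos h, if_pos ⟨h.1, h.2.trans (zz k _).1⟩]
    · rw [if_neg h]; split_ifs <;> norm_num
  have pt := Q.E_mono (F := X.ψ σ (D', a + σ.b)) (G := fun ω => X.ψ σ (D, a) ω +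
      ((σ.w₁ * σ.η₀ * σ.b - Fintype.card ι' * (σ.b + 2)) - σ.w₁ * σ.c₂ * (σ.b - 1) *
        (if ∃ i ∈ X.Al σ.β (X.τ ω) D, exp (-(4 * σ.β)) ≤ X.e i (X.τ ω) D ∧ 1 < X.z i (X.τ ω) D
          then 1 else 0) + σ.w₁ * σ.b * (if X.Cd σ (D, a) (X.τ ω) then 1 else 0) -
        2 * σ.b * X.ex ω)) fun ω hω => by
    have h1 := mul_le_mul_of_nonneg_left (key ω hω) w0.le
    have h2 := mul_le_mul_of_nonneg_left (bq ω) K0
    have h3 : σ.b * (2 * Fintype.card ι' / σ.b) = 2 * Fintype.card ι' :=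
      mul_div_cancel₀ _ (by linarith)
    unfold Dat.ψ
    simp only [p2, rm]
    nlinarith
  rw [FP.E_add, FP.E_sub, FP.E_add, FP.E_sub, FP.E_const, FP.E_mul, FP.E_mul, FP.E_mul] at pt
  have e1 : (Q.E fun ω => if X.Cd σ (D, a) (X.τ ω) then (1 : ℝ) else 0) =
      pb Q fun ω => X.Cd σ (D, a) (X.τ ω) := Q.E_congr fun _ _ => by congr
  have e2 : (Q.E fun ω => if ∃ i ∈ X.Al σ.β (X.τ ω) D, exp (-(4 * σ.β)) ≤ X.e i (X.τ ω) D ∧
      1 < X.z i (X.τ ω) D then (1 : ℝ) else 0) = pb Q fun ω => ∃ i ∈ X.Al σ.β (X.τ ω) D,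
        exp (-(4 * σ.β)) ≤ X.e i (X.τ ω) D ∧ 1 < X.z i (X.τ ω) D := Q.E_congr fun _ _ => by congr
  rw [e1, e2] at pt
  simp only at far
  generalize (pb Q fun ω => X.Cd σ (D, a) (X.τ ω)) = u at *
  generalize (pb Q fun ω => ∃ i ∈ X.Al σ.β (X.τ ω) D, exp (-(4 * σ.β)) ≤ X.e i (X.τ ω) D ∧
    1 < X.z i (X.τ ω) D) = v at *
  have x0 : 0 ≤ Q.E X.ex := Q.E_nonneg fun ω _ => hy.ok.ex0 ω
  have m0 := mul_nonneg K0 (mi_nonneg (P := Q) X.τ (fun ω => f (X.B ω)) fun _ => ())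
  have ν0 := nm.ν0
  have h1 : σ.η₀ * σ.b + σ.b * u - 2 * σ.b * Q.E X.ex ≤ σ.c₂ * (σ.b - 1) * v := by
    have h2 : σ.c₂ * (σ.b - 1) * (σ.ν - u - 2 * Q.E X.ex) ≤ σ.c₂ * (σ.b - 1) * v :=
      mul_le_mul_of_nonneg_left (by linarith) (mul_nonneg c0.le (by linarith))
    have h3 : u ≤ σ.c₂ * σ.ν / 16 := hc
    have h4 : u ≤ σ.ν / 32 := by nlinarith
    have h5 : σ.c₂ * (σ.b - 1) * (σ.ν - σ.ν / 32) ≤ σ.c₂ * (σ.b - 1) * (σ.ν - u) :=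
      mul_le_mul_of_nonneg_left (by linarith) (mul_nonneg c0.le (by linarith))
    have h6 := mul_le_mul_of_nonneg_left h3 b0
    have h7 : σ.c₂ * (σ.b - 1) * Q.E X.ex ≤ σ.b * Q.E X.ex :=
      mul_le_mul_of_nonneg_right (by nlinarith) x0
    have h8 : 0 ≤ σ.c₂ * σ.ν * (σ.b - 2) := mul_nonneg (mul_pos c0 ν0).le (by linarith)
    have h9 : 0 ≤ σ.c₂ * σ.ν * σ.b := mul_nonneg (mul_pos c0 ν0).le b0
    unfold Cn.η₀
    nlinarith
  have h2 := mul_le_mul_of_nonneg_left h1 w0.le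
  have h3 := mul_le_mul_of_nonneg_right w1 (mul_nonneg b0 x0)
  have h4 := mul_nonneg b0 x0
  nlinarith

end Pool.Agent.MP_4b405e_nt.EB
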