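import Pool.Agent.MP_4b405e_nt.SK.EDef

/-! The process on the side of the noise: an extra coordinate and the dense boxes. -/

namespace Pool.Agent.MP_4b405e_nt.EB

open Pool.Agent.MP_5168f5_an H19 H17S H17F Real

namespace XW

open Classical in
theorem sun {la : ℕ → ℝ} (hm : Monotone la) {s : ℝ} (hs : 0 ≤ s) (n d : ℕ) : ∀ m, m + d = n →
    s * ((Finset.Ico m n).filter fun i =>
      ∃ k, i ≤ k ∧ k ≤ n ∧ s * (k - i : ℕ) < la k - la i).card ≤ la n - la m := by
  induction d using Nat.strong_induction_on with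
  | _ d ih =>
    intro m hd
    rcases Nat.eq_zero_or_pos d with rfl | d0
    · obtain rfl : m = n := hd
      simp
    by_cases hb : ∃ k, m ≤ k ∧ k ≤ n ∧ s * (k - m : ℕ) < la k - la m
    · obtain ⟨k, k1, k2, k3⟩ := hb
      have k4 : m < k := lt_of_le_of_ne k1 fun e => by
        subst e
        simp at k3
      have h1 := ih (n - k) (by omega) k (by omega)
      have h2 : ((Finset.Ico m n).filter fun i =>
          ∃ k, i ≤ k ∧ k ≤ n ∧ s * (k - i : ℕ) < la k - la i).card ≤ (k - m) +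
          ((Finset.Ico k n).filter fun i =>
          ∃ k, i ≤ k ∧ k ≤ n ∧ s * (k - i : ℕ) < la k - la i).card := by
        rw [← Finset.Ico_union_Ico_eq_Ico k1 k2, Finset.filter_union]
        refine (Finset.card_union_le _ _).trans (Nat.add_le_add_right ?_ _)
        exact (Finset.card_filter_le _ _).trans (Nat.card_Ico _ _).le
      have h3 := mul_le_mul_of_nonneg_left ((Nat.cast_le (α := ℝ)).2 h2) hs
      rw [Nat.cast_add, mul_add] at h3
      linarith
    · have h1 := ih (d - 1) (by omega) (m + 1) (by omega)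
      rw [← Finset.insert_Ico_add_one_left_eq_Ico (by omega : m < n), Finset.filter_insert,
        if_neg hb]
      linarith [hm (Nat.le_succ m)]

variable {α β : Type} [Fintype α] [Fintype β]

/-- Forget the extra coordinate. -/
noncomputable def rs : (Option α → ℝ) →L[ℝ] (α → ℝ) :=
  ContinuousLinearMap.pi fun a => ContinuousLinearMap.proj (some a)

/-- Extend by zero. -/
noncomputable def up : (α → ℝ) →L[ℝ] (Option α → ℝ) :=
  ContinuousLinearMap.pi fun o => o.elim 0 fun a => ContinuousLinearMap.proj a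

/-- A block map. -/
noncomputable def ex (c : ℝ) (A : (α → ℝ) →L[ℝ] (β → ℝ)) : (Option α → ℝ) →L[ℝ] (Option β → ℝ) :=
  ContinuousLinearMap.pi fun o => o.elim (c • ContinuousLinearMap.proj none)
    fun b => (ContinuousLinearMap.proj b).comp (A.comp rs)

@[simp] theorem rs_apply (x : Option α → ℝ) (a : α) : rs x a = x (some a) := rfl
@[simp] theorem up_none (x : α → ℝ) : up x none = 0 := rfl
@[simp] theorem up_some (x : α → ℝ) (a : α) : up x (some a) = x a := rfl
@[simp] theorem ex_none (c : ℝ) (A : (α → ℝ) →L[ℝ] (β → ℝ)) (x : Option α → ℝ) :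
    ex c A x none = c * x none := rfl
@[simp] theorem ex_some (c : ℝ) (A : (α → ℝ) →L[ℝ] (β → ℝ)) (x : Option α → ℝ) (b : β) :
    ex c A x (some b) = A (rs x) b := rfl
@[simp] theorem rs_up (x : α → ℝ) : rs (up x) = x := rfl
@[simp] theorem rs_ex (c : ℝ) (A : (α → ℝ) →L[ℝ] (β → ℝ)) (x : Option α → ℝ) :
    rs (ex c A x) = A (rs x) := rfl

theorem ex_up (c : ℝ) (A : (α → ℝ) →L[ℝ] (β → ℝ)) (x : α → ℝ) : ex c A (up x) = up (A x) := by
  funext o
  cases o <;> simp

theorem none_le (x : Option α → ℝ) : |x none| ≤ ‖x‖ := norm_le_pi_norm x none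

theorem rs_le (x : Option α → ℝ) : ‖rs x‖ ≤ ‖x‖ :=
  (pi_norm_le_iff_of_nonneg (norm_nonneg x)).2 fun a => norm_le_pi_norm x (some a)

theorem nm_le {x : Option α → ℝ} {t : ℝ} (h1 : |x none| ≤ t) (h2 : ‖rs x‖ ≤ t) : ‖x‖ ≤ t :=
  (pi_norm_le_iff_of_nonneg ((abs_nonneg _).trans h1)).2 fun o => by
    cases o with
    | none => exact h1
    | some a => exact (norm_le_pi_norm (rs x) a).trans h2

theorem nm_up (x : α → ℝ) : ‖up x‖ = ‖x‖ :=
  le_antisymm (nm_le (by simp) (by simp)) (by simpa using rs_le (up x))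

theorem ex_cmp {c c' t : ℝ} {A A' : (α → ℝ) →L[ℝ] (β → ℝ)} (ht : 0 ≤ t) (h1 : |c'| ≤ t * |c|)
    (h2 : ∀ x, ‖A' x‖ ≤ t * ‖A x‖) (x : Option α → ℝ) : ‖ex c' A' x‖ ≤ t * ‖ex c A x‖ := by
  refine nm_le ?_ ?_
  · have h3 := none_le (ex c A x)
    rw [ex_none, abs_mul] at h3 ⊢
    calc |c'| * |x none| ≤ t * |c| * |x none| := mul_le_mul_of_nonneg_right h1 (abs_nonneg _)
      _ = t * (|c| * |x none|) := by ring
      _ ≤ _ := mul_le_mul_of_nonneg_left h3 ht
  · exact (h2 _).trans (mul_le_mul_of_nonneg_left (rs_le (ex c A x)) ht)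

variable {ι ι' γ T Ω : Type} [Fintype ι] [Fintype ι'] [Fintype γ]

/-- The data with an extra coordinate and a new set of boxes. -/
noncomputable def wr (X : Dat ι ι' γ T Ω) (I : Finset ℕ) : Dat (Option ι) ι' (Option γ) T Ω where
  P := X.P
  n := X.n
  U := X.U
  I := I
  Ξ k := ex (exp (X.l k)) (X.Ξ k)
  l := X.l
  J := ex 1 X.J
  C θ := up.comp (X.C θ)
  s := X.s
  j := X.j
  B ω := (up (X.B ω).1, (X.B ω).2)
  τ := X.τ
  Gd := X.Gd
  ex := X.ex

variable (X : Dat ι ι' γ T Ω) (I : Finset ℕ)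

theorem B_sub (ω ω' : Ω) : (wr X I).B ω - (wr X I).B ω' =
    (up (X.B ω - X.B ω').1, (X.B ω - X.B ω').2) := by
  simp [wr, map_sub]

theorem Φ_up (k : ℕ) (θ : T) (x : Vv ι ι') :
    ‖(wr X I).Φ k θ (up x.1, x.2)‖ = ‖X.Φ k θ x‖ := by
  rw [Dat.Φ_apply, Dat.Φ_apply, ← nm_up (X.Ξ k _), ← ex_up (exp (X.l k))]
  simp [wr, ex_up, map_add, map_smul]

theorem bud_le : (wr X I).bud ≤ X.bud := by
  refine add_le_add_left (Kil.mu_mono X.τ (G := (wr X I).B) (G' := X.B) fun a _ b _ e => ?_) _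
  simp only [wr, e]

theorem exp_le {x y t : ℝ} (h : x ≤ t + y) : |exp x| ≤ exp t * |exp y| := by
  rw [abs_of_pos (exp_pos _), abs_of_pos (exp_pos _), ← exp_add]
  exact exp_le_exp.2 h

theorem ok2 {h κ ν C η β r L C' ν' : ℝ} {R : ℕ} {la : ℕ → ℝ}
    (o : X.Ok1 h κ ν C η β r L R la) (hI : I ⊆ X.I) (hm : ν' * h * X.U ≤ β * I.card)
    (hd : ∀ i ∈ I, ∀ k, i ≤ k → k < X.n → la k - la i ≤ C' * β * (k - i : ℕ))
    (ht : ∀ i ∈ I, L ≤ β * (X.n - i : ℕ)) : (wr X I).Ok2 h κ ν' C' β r L where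
  ball ω hω ω' hω' := by
    have := o.ball ω hω ω' hω'
    rw [B_sub, Prod.norm_def, nm_up]
    exact this
  sub i hi := o.sub i (hI hi)
  nest k hk x := ex_cmp (exp_pos _).le (exp_le (by linarith [o.lnest k hk])) (o.nest k hk) x
  r0 := o.r0
  up i hi p := by
    refine nm_le ?_ ((o.up i (hI hi) _).trans
      (mul_le_mul_of_nonneg_left (rs_le p) (exp_pos _).le))
    show |exp (X.l i) * (1 * p none)| ≤ exp (X.l i + r) * ‖p‖
    rw [one_mul, abs_mul, abs_of_pos (exp_pos _)]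
    exact mul_le_mul (exp_le_exp.2 (by linarith [o.r0])) (none_le p) (abs_nonneg _) (exp_pos _).le
  lev i hi := o.lev i (hI hi)
  u0 := o.u0
  mass := hm
  ex0 := o.ex0
  lv A W hW := o.lv (fun v => A (up v.1, v.2)) W hW
  sz := o.sz
  ga ω hω i hi hl ρ := by
    have := o.ga ω hω i (hI hi) hl ρ
    rwa [← nm_up, ← ex_up (exp (X.l i))] at this
  gp k hk θ := fun ⟨i, hi, h1⟩ ω hω ω' hω' g g' e e' => by
    rw [B_sub, Φ_up]
    exact o.gp k hk θ ⟨i, hI hi, h1⟩ ω hω ω' hω' g g' e e'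
  lo i _ := by
    classical
    refine ⟨Pi.single none 1, by rw [Pi.norm_single]; simp, le_trans ?_ (none_le _)⟩
    show exp (X.l i) ≤ |exp (X.l i) * (1 * (Pi.single none 1 : Option ι → ℝ) none)|
    simp
  dens i hi k h1 h2 x := by
    have h3 := hd i hi k h1 h2
    obtain ⟨h4, h5⟩ := o.grow i k h1 h2
    refine ex_cmp (exp_pos _).le (exp_le (by linarith)) (fun y => (h5 y).trans ?_) x
    exact mul_le_mul_of_nonneg_right (exp_le_exp.2 h3) (norm_nonneg _)
  top := ht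
  ac A i Γ hi := by
    refine le_trans (pb_mono fun ω _ hω => ⟨hω.1, hω.2.1, hω.2.2.1, fun ρ => ?_⟩)
      (o.ac (fun v => A (up v.1, v.2)) i (fun j => rs.comp (Γ j)) fun j => hI (hi j))
    refine le_trans (le_of_eq ?_) ((rs_le _).trans (hω.2.2.2 ρ))
    simp [wr, map_sub, map_smul]

theorem pick {h κ ν C η β r L : ℝ} {R : ℕ} {la : ℕ → ℝ} (o : X.Ok1 h κ ν C η β r L R la)
    (h0 : 0 < h) (ν0 : 0 < ν) (C0 : 0 < C) (β0 : 0 < β) (hL : β ≤ L) (hη : η ≤ ν / 8) :
    ∃ I ⊆ X.I, ν / 2 * h * X.U ≤ β * I.card ∧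
      (∀ i ∈ I, ∀ k, i ≤ k → k < X.n → la k - la i ≤ 4 * C / ν * β * (k - i : ℕ)) ∧
      ∀ i ∈ I, L ≤ β * (X.n - i : ℕ) := by
  classical
  have U0 : (0 : ℝ) < X.U := by exact_mod_cast o.u0
  have hU : 0 < h * X.U := by positivity
  have n0 : 0 < X.n := by
    rcases X.I.eq_empty_or_nonempty with e | ⟨i, hi⟩
    · have := o.mass
      rw [e] at this
      simp only [Finset.card_empty, Nat.cast_zero, mul_zero] at this
      nlinarith [mul_pos ν0 hU]
    · exact (Nat.zero_le i).trans_lt (o.sub i hi)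
  set lb : ℕ → ℝ := fun k => la (min k (X.n - 1)) with hlb
  have m1 : Monotone lb := monotone_nat_of_le_succ fun k => by
    rcases lt_or_ge (k + 1) X.n with h1 | h1
    · have := (o.grow k (k + 1) (Nat.le_succ k) h1).1
      simp only [hlb, min_eq_left (show k ≤ X.n - 1 by omega),
        min_eq_left (show k + 1 ≤ X.n - 1 by omega)]
      linarith [o.lnest k h1]
    · simp only [hlb, min_eq_right (show X.n - 1 ≤ k by omega),
        min_eq_right (show X.n - 1 ≤ k + 1 by omega), le_refl]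
  have s0 : 0 < 4 * C / ν * β := by positivity
  have b1 := sun m1 s0.le X.n X.n 0 (by simp)
  set Bd := (Finset.Ico 0 X.n).filter fun i =>
    ∃ k, i ≤ k ∧ k ≤ X.n ∧ 4 * C / ν * β * (k - i : ℕ) < lb k - lb i with hB
  have b2 : lb X.n - lb 0 ≤ C * h * X.U := by
    linarith [(o.tot (min X.n (X.n - 1)) (by omega)).2, (o.tot (min 0 (X.n - 1)) (by omega)).1]
  have b3 : β * Bd.card ≤ ν / 4 * (h * X.U) := by
    have e : 4 * C / ν * β * Bd.card = 4 * C / ν * (β * Bd.card) := by ring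
    have e' : C * h * X.U = 4 * C / ν * (ν / 4 * (h * X.U)) := by field_simp
    rw [e] at b1
    exact le_of_mul_le_mul_left (b1.trans (b2.trans_eq e')) (by positivity)
  set Tp := Finset.Ico (X.n - ⌈L / β⌉₊) X.n with hT
  have t1 : β * Tp.card ≤ ν / 4 * (h * X.U) := by
    have c1 : (Tp.card : ℝ) ≤ ⌈L / β⌉₊ := by
      rw [hT, Nat.card_Ico]; exact_mod_cast (by omega)
    have c2 := (Nat.ceil_lt_add_one (show 0 ≤ L / β from div_nonneg (by linarith) β0.le)).le
    have c3 : β * (L / β + 1) = L + β := by field_simp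
    have c4 := mul_le_mul_of_nonneg_left (c1.trans c2) β0.le
    have c5 := o.short
    nlinarith [mul_le_mul_of_nonneg_right hη hU.le]
  refine ⟨X.I \ (Bd ∪ Tp), Finset.sdiff_subset, ?_, fun i hi k h1 h2 => ?_, fun i hi => ?_⟩
  · have c1 : (X.I.card : ℝ) ≤ (X.I \ (Bd ∪ Tp)).card + (Bd.card + Tp.card) := by
      have := Finset.le_card_sdiff (Bd ∪ Tp) X.I
      have := Finset.card_union_le Bd Tp
      exact_mod_cast (by omega)
    have c2 := mul_le_mul_of_nonneg_left c1 β0.le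
    have := o.mass
    nlinarith
  · obtain ⟨i1, i2⟩ := Finset.mem_sdiff.1 hi
    by_contra c
    refine i2 (Finset.mem_union_left _ (Finset.mem_filter.2
      ⟨Finset.mem_Ico.2 ⟨Nat.zero_le _, by omega⟩, k, h1, h2.le, ?_⟩))
    simp only [hlb, min_eq_left (show k ≤ X.n - 1 by omega),
      min_eq_left (show i ≤ X.n - 1 by omega)]
    exact not_le.1 c
  · obtain ⟨i1, i2⟩ := Finset.mem_sdiff.1 hi
    have i3 := o.sub i i1
    have i4 : ⌈L / β⌉₊ ≤ X.n - i := by
      by_contra c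
      exact i2 (Finset.mem_union_right _ (Finset.mem_Ico.2 ⟨by omega, i3⟩))
    rw [← div_le_iff₀' β0]
    exact (Nat.le_ceil _).trans (by exact_mod_cast i4)

end XW

open XW in
theorem sWrap : SWrap := by
  intro hc N h κ ν C h0 κ0 ν0 C0
  obtain ⟨η, K', β₀, η0, K0, H⟩ := hc (N + 1) h κ (ν / 2) (4 * C / ν) h0 κ0 (by positivity)
    (by positivity)
  refine ⟨min η (ν / 8), K', max β₀ 1, by positivity, K0, fun β hβ => ?_⟩
  obtain ⟨K, L₀, K1, H⟩ := H β ((le_max_left _ _).trans hβ)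
  refine ⟨K, max L₀ β, K1, fun ι ι' γ T Ω _ _ _ _ X r L R la c1 c2 hL o => ?_⟩
  have β0 : 0 < β := one_pos.trans_le ((le_max_right _ _).trans hβ)
  have hβL : β ≤ L := (le_max_right _ _).trans hL
  obtain ⟨I, i1, i2, i3, i4⟩ := pick X o h0 ν0 C0 β0 hβL (min_le_right _ _)
  have e := mul_le_mul_of_nonneg_right (min_le_left η (ν / 8)) (β0.le.trans hβL)
  have := H (Option ι) ι' (Option γ) T Ω (wr X I) r L R (by simpa using c1) (by omega)
    ((le_max_left _ _).trans hL) (o.r1.trans e) o.dep (ok2 X I o i1 i2 i3 i4)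
  have b := mul_le_mul_of_nonneg_left (bud_le X I) K1
  refine le_trans this ?_
  show _ - _ + _ + K' * L * X.P.E X.ex ≤ _
  linarith

end Pool.Agent.MP_4b405e_nt.EB
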