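import Pool.Agent.MP_4b405e_nt.SK.ECore
import Pool.Agent.MP_4b405e_nt.SK.EFact
import Pool.Agent.MP_4b405e_nt.SK.EFar41
import Pool.Agent.MP_4b405e_nt.SK.EGa
import Pool.Agent.MP_4b405e_nt.SK.EGc
import Pool.Agent.MP_4b405e_nt.SK.EGs
import Pool.Agent.MP_4b405e_nt.SK.ELaw
import Pool.Agent.MP_4b405e_nt.SK.ENum
import Pool.Agent.MP_4b405e_nt.SK.EPa
import Pool.Agent.MP_4b405e_nt.SK.EPb
import Pool.Agent.MP_4b405e_nt.SK.ERun2
import Pool.Agent.MP_4b405e_nt.SK.EStC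
import Pool.Agent.MP_4b405e_nt.SK.EStH
import Pool.Agent.MP_4b405e_nt.SK.EStP
import Pool.Agent.MP_4b405e_nt.SK.EWrap

/-! The process on the side of the noise: both runs. -/

namespace Pool.Agent.MP_4b405e_nt.EB

theorem run1 : Run1 :=
  run1_of potO potA potB potC geoA (geoS_of geoA) geoB geoC geoD kill win' atom sFact sTerm sStepN
    sStepF sStepH sFar' sStepP sCore sNum sWrap

end Pool.Agent.MP_4b405e_nt.EB
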