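import Pool.Agent.MP_4b405e_nt.SK.EDef

/-! The process on the side of the noise: the terminal states and the induction. -/

namespace Pool.Agent.MP_4b405e_nt.EB

open Pool.Agent.MP_5168f5_an H19 H17S H17F Real

variable {ι ι' γ T Ω : Type} [Fintype ι] [Fintype ι'] [Fintype γ]

theorem cV_pos : 0 < cV ι ι' := by unfold cV; positivity

theorem Cn.Nm.sg {σ : Cn} (h : σ.Nm ι ι') :
    0 < σ.β ∧ 0 < σ.b ∧ 0 < σ.c ∧ 0 < σ.w₁ ∧ 0 < σ.η₀ ∧ 0 ≤ σ.K ι ι' ∧ 0 ≤ σ.L ∧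
      σ.w₁ * σ.η₀ = σ.c / 4 := by
  have b0 : 0 < σ.b := by linarith [h.b2]
  have β0 : 0 < σ.β := by linarith [h.bβ]
  have k0 := h.κ0
  have n0 := h.ν0
  have C0 := h.C0
  have v0 := cV_pos (ι := ι) (ι' := ι')
  have c2 : 0 < σ.c₂ := by unfold Cn.c₂; positivity
  have e0 : 0 < σ.η₀ := by unfold Cn.η₀; positivity
  have n1 : 0 < σ.ν₁ := by unfold Cn.ν₁; positivity
  refine ⟨β0, b0, by unfold Cn.c; positivity, by unfold Cn.w₁; positivity, e0,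
    by unfold Cn.K; positivity, ?_, ?_⟩
  · have : 0 ≤ (1 + σ.κ) * (6 * σ.β * Fintype.card ι' + 6 * σ.β + cV ι ι' + 5) := by positivity
    linarith [h.big]
  · unfold Cn.w₁ Cn.c
    field_simp

theorem Dat.Bq_nonneg (X : Dat ι ι' γ T Ω) (β : ℝ) (D : Set (Vv ι ι')) (ω : Ω) :
    0 ≤ X.Bq β D ω := Finset.sum_nonneg fun _ _ => by split_ifs <;> norm_num

theorem sTerm : STerm := by
  intro gA gB fa ι ι' γ T Ω _ _ _ X σ Q s hy v nr
  obtain ⟨β0, b0, c0, w0, e0, K0, L0, we⟩ := hy.nm.sg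
  obtain ⟨f1, f2, -, f4⟩ := fa ι ι' γ T Ω X σ Q s hy v
  have G0 := ((gA ι ι').2 s.1 s.2 v.bd).1
  have h1 := (gB ι ι' γ T Ω X s.1 s.2 0 v.bd le_rfl).2.2 Q σ.R v.inn f2
  have h2 : σ.w₁ * (σ.η₀ * (σ.L - s.2)) ≤ Gn s.1 s.2 / 2 := by
    rw [← mul_assoc, we]
    rcases not_and_or.1 nr with h | h
    · have := mul_nonneg c0.le (sub_nonneg.2 (not_lt.1 h))
      linarith
    · have := mul_nonneg c0.le v.a0
      have := mul_nonneg c0.le L0
      have := not_lt.1 h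
      linarith
  refine h1.trans ((Q.E_const _).ge.trans (Q.E_mono fun ω hω => ?_))
  have p1 := (f4 (X.τ ω) ⟨ω, v.sub hω, rfl⟩).2.2.1
  have t1 := mul_nonneg w0.le (sub_nonneg.2 p1)
  have t2 := mul_nonneg K0 (X.Bq_nonneg σ.β s.1 ω)
  have t3 := mul_nonneg (by linarith [cV_pos (ι := ι) (ι' := ι')] : 0 ≤ cV ι ι' + 2) f1
  have t4 : 0 ≤ (σ.L + σ.b - s.2) * (2 * Fintype.card ι' / σ.b + 2 * X.ex ω) :=
    mul_nonneg (sub_nonneg.2 v.a1) (by have := hy.ok.ex0 ω; positivity)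
  unfold Dat.ψ
  unfold Gn at h2 G0 ⊢
  linarith

theorem sCore : SCore := by
  intro gA fa te sh sp ι ι' γ T Ω _ _ _ X σ hy
  obtain ⟨β0, b0, c0, w0, e0, K0, L0, -⟩ := hy.nm.sg
  obtain ⟨⟨g1, g2, g3, g4, g5⟩, -⟩ := gA ι ι'
  have v0 := cV_pos (ι := ι) (ι' := ι')
  have r0 := hy.ok.r0
  have k0 := hy.nm.κ0
  have Gm0 : 0 ≤ σ.Gm ι' := by unfold Cn.Gm; positivity
  have v : X.Val σ X.P (Metric.closedBall 0 1, 0) :=
    ⟨Finset.Subset.rfl, fun ω hω ω' hω' => mem_closedBall_zero_iff.2 (hy.ok.ball ω hω ω' hω'),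
      hy.ok.lv, hy.ok.ac, g1, le_rfl, by positivity, g2.le.trans Gm0,
      g4 _ (by rw [g2]; unfold Cn.dE Cn.fb; positivity),
      g5 _ (by unfold Cn.Λ; linarith [exp_pos (5 * σ.β + σ.r + σ.fb ι ι' 0)])⟩
  have h1 := Pool.Agent.MP_5168f5_an.QA.EK.indG X.τ X.B (Pool.Agent.MP_5168f5_an.QA.EK.tgt_hh fun ω => flv σ.R (X.B ω).2) (X.Val σ) (X.ψ σ) (X.μ σ) K0
    (fun Q s vs => by
      by_cases hr : X.Run σ s
      · refine Or.inr ⟨?_, ?_⟩
        · have a1 := div_nonneg (sub_nonneg.2 hr.1.le) b0.le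
          have a2 := (fa ι ι' γ T Ω X σ Q s hy vs).1
          have a3 := sub_nonneg.2 hr.2.le
          unfold Dat.μ
          linarith
        · rcases le_total σ.ν₁ (pb Q fun ω => X.Cd σ s (X.τ ω)) with h | h
          · exact sh ι ι' γ T Ω X σ Q s hy vs hr h
          · exact sp ι ι' γ T Ω X σ Q s hy vs hr h
      · exact Or.inl (te ι ι' γ T Ω X σ Q s hy vs hr)) X.P _ v
  obtain ⟨-, -, -, f4⟩ := fa ι ι' γ T Ω X σ X.P _ hy v
  have h2 : X.P.E (X.ψ σ (Metric.closedBall 0 1, 0)) ≤ X.P.E fun ω =>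
      (Fintype.card ι' * (σ.R + 2) * lg + σ.w₁ * (2 * σ.β + σ.xm ι ι' / 12 - σ.η₀ * σ.L) +
        (cV ι ι' + 2) * (Fintype.card ι * (lg + cE σ.κ * σ.L) / (σ.β - cV ι ι')) +
        (σ.L + σ.b) * (2 * Fintype.card ι' / σ.b)) +
      (σ.K ι ι' * ∑ k ∈ Finset.range X.n, (@ite ℝ (¬X.Gd k ω) (Classical.propDecidable _) 1 0) +
        (σ.L + σ.b) * 2 * X.ex ω) := by
    refine X.P.E_mono fun ω hω => ?_
    have p0 := mul_nonneg w0.le (f4 (X.τ ω) ⟨ω, hω, rfl⟩).2.1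
    have p1 : X.Bq σ.β (Metric.closedBall 0 1) ω ≤
        ∑ k ∈ Finset.range X.n, @ite ℝ (¬X.Gd k ω) (Classical.propDecidable _) 1 0 := by
      refine Finset.sum_le_sum fun k _ => ?_
      by_cases h : X.Gd k ω
      · simp [h]
      · simp only [h, not_false_eq_true, if_true]
        split_ifs <;> norm_num
    have p2 := mul_le_mul_of_nonneg_left p1 K0
    unfold Dat.ψ Dat.rm
    simp only [g2, g3] at p0 ⊢
    rw [mul_add (Fintype.card ι : ℝ) lg]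
    linarith
  simp only [FP.E_add, FP.E_const, FP.E_mul, FP.E_sum] at h2
  unfold Dat.bud pb
  linarith

end Pool.Agent.MP_4b405e_nt.EB
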