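import Pool.Agent.MP_4b405e_nt.SK.SpE
import Pool.Agent.MP_4b405e_nt.SK.ELab8
import Pool.Agent.MP_4b405e_nt.SK.EKil17

/-! The process on the side of the noise: sizes, states, and the statements of the steps. -/

namespace Pool.Agent.MP_4b405e_nt.EB

open Pool.Agent.MP_5168f5_an H19 H17S H17F Real MeasureTheory Pointwise
open Geo (Sym sz es sec shd cutS payS)

/-- Logarithm clamped to an interval and shifted. -/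
noncomputable def cl (lo hi y : ℝ) : ℝ := log (min (max y (exp lo)) (exp hi)) - lo

/-- Logarithm cut from below and shifted. -/
noncomputable def Yv (β y : ℝ) : ℝ := log (max y (exp (-β))) + β

/-- The potential of a sequence of sizes seen from the box `i`. -/
noncomputable def ph (β b c : ℝ) (n : ℕ) (z : ℕ → ℝ) (i : ℕ) : ℝ :=
  ∑ k ∈ Finset.Ico i n, cl (-β) (-b) (z k) - c * Yv β (z i)

/-- The potential of a sequence of sizes, for the set `S` of aligned boxes. -/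
noncomputable def Ph (β b c : ℝ) (n : ℕ) (S : Finset ℕ) (z : ℕ → ℝ) : ℝ :=
  S.fold max 0 (ph β b c n z)

variable {ι ι' γ T Ω : Type} [Fintype ι] [Fintype ι'] [Fintype γ]

noncomputable def lv (D : Set (Vv ι ι')) : ℝ := log (volume.real (shd D))
noncomputable def lw (D : Set (Vv ι ι')) : ℝ := log (volume.real (sec D))

/-- The gain. -/
noncomputable def Gn (D : Set (Vv ι ι')) (a : ℝ) : ℝ :=
  Fintype.card ι' * lg - lv D - Fintype.card ι' * a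

/-- A body with paid depth `a`. -/
def Bd (D : Set (Vv ι ι')) (a : ℝ) : Prop := ∃ r, Geo.Ok D r (exp (-a))

/-- The section contains a ball. -/
def Sb (D : Set (Vv ι ι')) (d : ℝ) : Prop := ∀ p : ι → ℝ, ‖p‖ ≤ exp (-d) → ((p, 0) : Vv ι ι') ∈ D

/-- The first coordinate lies in a multiple of the section. -/
def La (D : Set (Vv ι ι')) (Λ : ℝ) : Prop := ∀ x ∈ D, ((Λ⁻¹ • x.1, 0) : Vv ι ι') ∈ D

/-- The constant of the volume estimates. -/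
noncomputable def cV (ι ι' : Type) [Fintype ι] [Fintype ι'] : ℝ :=
  2 * (Fintype.card ι + Fintype.card ι') + 4

namespace Dat

variable (X : Dat ι ι' γ T Ω)

noncomputable def z (k : ℕ) (θ : T) (D : Set (Vv ι ι')) : ℝ := sz (X.Φ k θ) D
noncomputable def e (k : ℕ) (θ : T) (D : Set (Vv ι ι')) : ℝ := es (X.Φ k θ) D
noncomputable def y (k : ℕ) (D : Set (Vv ι ι')) : ℝ := sz ((X.Ξ k).comp X.J) (sec D)

/-- All differences of values of `B` lie in `D`. -/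
def In (Q : FP Ω) (D : Set (Vv ι ι')) : Prop := ∀ ω ∈ Q.S, ∀ ω' ∈ Q.S, X.B ω - X.B ω' ∈ D

/-- A label with small entropy whose fibres have differences in `D`. -/
def Lb (Q : FP Ω) (c : ℝ) (D : Set (Vv ι ι')) : Prop :=
  ∃ (α : Type) (f : Vv ι ι' → α), hh Q (fun ω => f (X.B ω)) ≤ c ∧
    ∀ ω ∈ Q.S, ∀ ω' ∈ Q.S, f (X.B ω) = f (X.B ω') → X.B ω - X.B ω' ∈ D

/-- A functional under the form `θ` in the box `k`. -/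
def Un (k : ℕ) (θ : T) (ζ : Vv ι ι' →ₗ[ℝ] ℝ) : Prop := ∀ x, |ζ x| ≤ ‖X.Φ k θ x‖

/-- The form occurs. -/
def Re (θ : T) : Prop := ∃ ω ∈ X.P.S, X.τ ω = θ

open Classical in
/-- The bad mass of the boxes that are still alive. -/
noncomputable def Bq (β : ℝ) (D : Set (Vv ι ι')) (ω : Ω) : ℝ :=
  ∑ k ∈ Finset.range X.n, if ¬X.Gd k ω ∧ exp (-(4 * β)) ≤ X.z k (X.τ ω) D then 1 else 0

open Classical in
/-- The aligned boxes. -/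
noncomputable def Al (β : ℝ) (θ : T) (D : Set (Vv ι ι')) : Finset ℕ :=
  X.I.filter fun i => X.e i θ D ≤ exp (-(2 * β))

/-- Hypotheses of the first run after the reductions. -/
structure Ok2 (h κ ν C β r L : ℝ) : Prop extends X.Ok h ν β r (cE κ * L) where
  sz : ∀ ω ∈ X.P.S, X.Sz h (X.τ ω)
  ga : ∀ ω ∈ X.P.S, X.Ga h κ r L (X.τ ω)
  gp : ∀ k < X.n, ∀ θ, (∃ i ∈ X.I, i ≤ k ∧ X.l i ≤ h * X.j θ + cE κ * L) → X.Gp β k θ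
  lo : ∀ i ∈ X.I, ∃ p, ‖p‖ ≤ 1 ∧ exp (X.l i) ≤ ‖X.Ξ i (X.J p)‖
  dens : ∀ i ∈ X.I, ∀ k, i ≤ k → k < X.n → ∀ x,
    ‖X.Ξ i x‖ ≤ exp (C * β * (k - i : ℕ)) * ‖X.Ξ k x‖
  top : ∀ i ∈ X.I, L ≤ β * (X.n - i : ℕ)
  ac : X.Ac h κ r L X.P

end Dat

/-- The constants of the first run. -/
structure Cn where
  (h κ ν C β b r L : ℝ)
  R : ℕ

namespace Cn

variable (σ : Cn) (ι ι' : Type) [Fintype ι] [Fintype ι']

noncomputable def c₂ : ℝ := 1 / (2 * (σ.C + 1))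
noncomputable def η₀ : ℝ := σ.c₂ * σ.ν / 4
noncomputable def ν₁ : ℝ := σ.c₂ * σ.ν / 16
noncomputable def c : ℝ := σ.η₀ / (1 + σ.κ)
noncomputable def w₁ : ℝ := 1 / (4 * (1 + σ.κ))
noncomputable def Gm : ℝ := σ.c * σ.L + 6 * σ.β * Fintype.card ι'
noncomputable def fb (a : ℝ) : ℝ := a + σ.Gm ι' + cV ι ι' + 3 + σ.r
noncomputable def dE (a G : ℝ) : ℝ := 5 * σ.β + 1 + σ.r + σ.fb ι ι' a / σ.κ + G
noncomputable def Λ : ℝ := 1 + exp (5 * σ.β + σ.r + σ.fb ι ι' 0)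
noncomputable def xm : ℝ := (1 + σ.κ) * (σ.Gm ι' + 2 * σ.r + 5 * σ.β + cV ι ι' + 5)
noncomputable def K : ℝ :=
  4 * (5 * σ.β + 2) / σ.ν₁ * ((Fintype.card ι + Fintype.card ι') * (6 * σ.β + 2) + σ.β)

/-- Conditions on the constants. -/
structure Nm : Prop where
  h0 : 0 < σ.h
  κ0 : 0 < σ.κ
  ν0 : 0 < σ.ν
  ν1 : σ.ν ≤ 1
  C0 : 0 < σ.C
  b2 : 2 ≤ σ.b
  bβ : 2 * σ.b ≤ σ.β
  hβ : 2 + σ.h ≤ σ.β
  vβ : 2 * cV ι ι' + 8 ≤ σ.β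
  r1 : σ.r ≤ σ.c * σ.L
  big : (1 + σ.κ) * (6 * σ.β * Fintype.card ι' + 6 * σ.β + cV ι ι' + 5) ≤ σ.L / 2
  dep : 2 * σ.L ≤ σ.R * lg
  ne : 1 ≤ Fintype.card ι'

end Cn

namespace Dat

variable (X : Dat ι ι' γ T Ω) (σ : Cn)

/-- All hypotheses of the first run. -/
structure Hy : Prop where
  nm : σ.Nm ι ι'
  ok : X.Ok2 σ.h σ.κ σ.ν σ.C σ.β σ.r σ.L

/-- Valid states. -/
structure Val (Q : FP Ω) (s : Set (Vv ι ι') × ℝ) : Prop where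
  sub : Q.S ⊆ X.P.S
  inn : X.In Q s.1
  lv : X.Lv Q
  ac : X.Ac σ.h σ.κ σ.r σ.L Q
  bd : Bd s.1 s.2
  a0 : 0 ≤ s.2
  a1 : s.2 ≤ σ.L + σ.b
  g1 : Gn s.1 s.2 ≤ σ.Gm ι'
  sb : Sb s.1 (σ.dE ι ι' s.2 (Gn s.1 s.2))
  la : La s.1 (σ.Λ ι ι')

/-- The potential of the form `θ`. -/
noncomputable def pf (θ : T) (D : Set (Vv ι ι')) : ℝ :=
  Ph σ.β σ.b σ.c₂ X.n (X.Al σ.β θ D) fun k => X.z k θ D

/-- The room left for cuts of the section. -/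
noncomputable def rm (_X : Dat ι ι' γ T Ω) (σ : Cn) (D : Set (Vv ι ι')) : ℝ :=
  (lw D + Fintype.card ι * (cE σ.κ * σ.L)) / (σ.β - cV ι ι')

/-- The potential of a state. -/
noncomputable def ψ (s : Set (Vv ι ι') × ℝ) (ω : Ω) : ℝ :=
  Fintype.card ι' * (σ.R + 2) * lg - Fintype.card ι' * s.2 - Gn s.1 s.2 / 2 +
    σ.w₁ * (2 * σ.β + σ.xm ι ι' / 12 - σ.η₀ * (σ.L - s.2) - X.pf σ (X.τ ω) s.1) +
    σ.K ι ι' * X.Bq σ.β s.1 ω + (cV ι ι' + 2) * X.rm σ s.1 +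
    (σ.L + σ.b - s.2) * (2 * Fintype.card ι' / σ.b + 2 * X.ex ω)

/-- The time left. -/
noncomputable def μ (s : Set (Vv ι ι') × ℝ) : ℝ :=
  (σ.L - s.2) / σ.b + (σ.c * σ.L - Gn s.1 s.2) + X.rm σ s.1

/-- The process is running. -/
def Run (_X : Dat ι ι' γ T Ω) (σ : Cn) (s : Set (Vv ι ι') × ℝ) : Prop :=
  s.2 < σ.L ∧ Gn s.1 s.2 < σ.c * σ.L

/-- A near candidate. -/
def CN (s : Set (Vv ι ι') × ℝ) (k : ℕ) (θ : T) : Prop :=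
  k ∈ X.Al σ.β θ s.1 ∧ exp (-(4 * σ.β)) ≤ X.e k θ s.1 ∧ X.z k θ s.1 ≤ 1 ∧
    σ.κ * (X.l k - σ.h * X.j θ) < σ.fb ι ι' s.2

/-- A far candidate. -/
def CF (s : Set (Vv ι ι') × ℝ) (k : ℕ) (θ : T) : Prop :=
  k < X.n ∧ (∃ i ∈ X.Al σ.β θ s.1, i ≤ k) ∧ exp (-σ.β) < X.z k θ s.1 ∧ X.z k θ s.1 ≤ 1

/-- A candidate. -/
def Cd (s : Set (Vv ι ι') × ℝ) (θ : T) : Prop := X.Re θ ∧ ∃ k, X.CN σ s k θ ∨ X.CF σ s k θ

/-- Every cut under the form `θ` in the box `k` is cheap. -/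
def Fr (Q : FP Ω) (β c : ℝ) (D : Set (Vv ι ι')) (k : ℕ) (θ : T) : Prop :=
  ∀ ζ, X.Un k θ ζ → ∀ b, 0 ≤ b → b ≤ 5 * β → X.Lb Q c (cutS D ζ (exp (-b)))

/-- A step of the process. -/
def Next (Q : FP Ω) (s : Set (Vv ι ι') × ℝ) : Prop :=
  ∃ (α : Type) (f : Vv ι ι' → α) (s' : Set (Vv ι ι') × ℝ), X.μ σ s' + 1 ≤ X.μ σ s ∧
    (∀ ω ∈ Q.S, X.Val σ (cv Q (fun ω => f (X.B ω)) (f (X.B ω))) s') ∧
    hh Q (fun ω => f (X.B ω)) + Q.E (X.ψ σ s') ≤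
      Q.E (X.ψ σ s) + σ.K ι ι' * mi Q X.τ (fun ω => f (X.B ω)) fun _ => ()

end Dat

/-! ### Rows: potentials of sequences -/

/-- Sizes of nested boxes. -/
def Ns (β : ℝ) (n : ℕ) (z : ℕ → ℝ) : Prop :=
  (∀ k, 0 ≤ z k) ∧ ∀ k, k + 1 < n → z (k + 1) ≤ exp (-(12 * β)) * z k

/-- A step from the sizes `z` to the sizes `z'`. -/
structure Mv (β b Δ : ℝ) (n : ℕ) (S S' : Finset ℕ) (z z' : ℕ → ℝ) : Prop where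
  b0 : 0 ≤ b
  bβ : 2 * b ≤ β
  d0 : 0 ≤ Δ
  sub : S ⊆ S'
  lt : ∀ i ∈ S', i < n
  ns : Ns β n z
  le : ∀ k < n, z' k ≤ z k
  ge : ∀ k < n, exp (-(6 * β)) * z k ≤ z' k
  drop : ∀ k < n, (∃ i ∈ S, i ≤ k) → cl (-β) (-b) (z k) - cl (-β) (-b) (z' k) ≤ Δ

/-- The clamp. -/
def PotO : Prop := ∀ β b y y' : ℝ, 0 ≤ b → b ≤ β → 0 ≤ y →
  (0 ≤ cl (-β) (-b) y ∧ cl (-β) (-b) y ≤ β - b) ∧
  (exp (-b) * y ≤ y' → cl (-β) (-b) y - cl (-β) (-b) y' ≤ b ∧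
    (y ≤ exp (-β) ∨ 1 < y → cl (-β) (-b) y ≤ cl (-β) (-b) y'))

def PotA : Prop := ∀ (β b c Δ : ℝ) (n : ℕ) (S S' : Finset ℕ) (z z' : ℕ → ℝ), 0 ≤ c →
  Mv β b Δ n S S' z z' → Ph β b c n S z - Δ ≤ Ph β b c n S' z'

def PotB : Prop := ∀ (β b C Δ : ℝ) (n : ℕ) (S S' : Finset ℕ) (z z' : ℕ → ℝ) (i : ℕ), 0 < C →
  Mv β b Δ n S S' z z' → i ∈ S → (∀ i' ∈ S, i ≤ i') → 1 < z i →
  (∀ k, i ≤ k → k < n → z i ≤ exp (C * β * (k - i : ℕ)) * z k) → z (n - 1) ≤ 1 →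
  z' i ≤ 2 * exp (-b) * z i →
  Ph β b (1 / (2 * (C + 1))) n S z + 1 / (2 * (C + 1)) * (b - 1) - Δ ≤
    Ph β b (1 / (2 * (C + 1))) n S' z'

def PotC : Prop := ∀ (β b c x : ℝ) (n : ℕ) (S : Finset ℕ) (z : ℕ → ℝ), 0 ≤ c → 0 ≤ b → b ≤ β →
  0 < β → 0 ≤ x → Ns β n z → (∀ i ∈ S, z i ≤ exp x) →
  0 ≤ Ph β b c n S z ∧ Ph β b c n S z ≤ 2 * β + x / 12

/-! ### Rows: geometry -/

/-- Start, gain, inradius of the shadow, volume of the section, sub-bodies. -/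
def GeoA : Prop := ∀ (ι ι' : Type) [Fintype ι] [Fintype ι'],
  (Bd (Metric.closedBall (0 : Vv ι ι') 1) 0 ∧ Gn (Metric.closedBall (0 : Vv ι ι') 1) 0 = 0 ∧
    lw (Metric.closedBall (0 : Vv ι ι') 1) = Fintype.card ι * lg ∧
    (∀ d, 0 ≤ d → Sb (Metric.closedBall (0 : Vv ι ι') 1) d) ∧
    ∀ Λ, 1 ≤ Λ → La (Metric.closedBall (0 : Vv ι ι') 1) Λ) ∧
  ∀ (D : Set (Vv ι ι')) (a : ℝ), Bd D a → 0 ≤ Gn D a ∧
    (∀ ρ : ι' → ℝ, ‖ρ‖ ≤ exp (-(a + Gn D a + cV ι ι')) → ρ ∈ shd D) ∧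
    (∀ d, Sb D d → -(Fintype.card ι * d) ≤ lw D ∧ ∀ d', d ≤ d' → Sb D d') ∧
    (∀ D' b, Sym D' → D' ⊆ D → 0 ≤ b → exp (-b) • D ⊆ D' → Bd D' a ∧ lw D' ≤ lw D ∧
      Gn D a ≤ Gn D' a ∧ Gn D' a ≤ Gn D a + Fintype.card ι' * b ∧ ∀ d, Sb D d → Sb D' (d + b)) ∧
    ∀ D', D' ⊆ D → sec D' = sec D → lw D' = lw D ∧ (∀ d, Sb D d → Sb D' d) ∧
      ∀ Λ, La D Λ → La D' Λ

/-- Sizes. -/
def GeoS : Prop := ∀ (ι ι' γ T Ω : Type) [Fintype ι] [Fintype ι'] [Fintype γ]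
  (X : Dat ι ι' γ T Ω) (D : Set (Vv ι ι')) (a : ℝ) (k : ℕ) (θ : T), Bd D a →
  X.e k θ D = |X.s θ| * X.y k D ∧ 0 ≤ X.y k D ∧ X.e k θ D ≤ X.z k θ D ∧
  (∀ g, 0 ≤ g → (∀ p, ‖X.Ξ k (X.J p)‖ ≤ g * ‖p‖) → X.y k D ≤ g) ∧
  (∀ d p, Sb D d → ‖p‖ ≤ 1 → exp (-d) * ‖X.Ξ k (X.J p)‖ ≤ X.y k D) ∧
  (∀ k' c, 0 ≤ c → (∀ x, ‖X.Ξ k' x‖ ≤ c * ‖X.Ξ k x‖) →
    X.z k' θ D ≤ c * X.z k θ D ∧ X.e k' θ D ≤ c * X.e k θ D ∧ X.y k' D ≤ c * X.y k D) ∧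
  (∀ D' a' c, Bd D' a' → D' ⊆ D → 0 ≤ c → c • D ⊆ D' → X.z k θ D' ≤ X.z k θ D ∧
    X.e k θ D' ≤ X.e k θ D ∧ c * X.z k θ D ≤ X.z k θ D') ∧
  (∀ Λ g, 1 ≤ Λ → 0 ≤ g → La D Λ → (∀ ρ, ‖X.Ξ k (X.C θ ρ)‖ ≤ g * ‖ρ‖) →
    X.z k θ D ≤ Λ * X.e k θ D + g * exp (-a)) ∧
  ∀ θ', X.z k θ D ≤ 1 → X.z k θ' D ≤ 1 → X.s θ' ≠ 0 → |X.s θ| ≤ exp 2 * |X.s θ'| → ∀ ρ,
    ‖X.Ξ k (X.C θ ρ - X.s θ • ((X.s θ')⁻¹ • X.C θ') ρ)‖ ≤ exp (a + Gn D a + cV ι ι' + 3) * ‖ρ‖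

/-- The paid step and the homothety, with their labels; the count of cells. -/
def GeoB : Prop := ∀ (ι ι' γ T Ω : Type) [Fintype ι] [Fintype ι'] [Fintype γ]
  (X : Dat ι ι' γ T Ω) (D : Set (Vv ι ι')) (a b : ℝ), Bd D a → 0 ≤ b →
  (Bd (payS D (exp (-b))) (a + b) ∧ Gn (payS D (exp (-b))) (a + b) = Gn D a ∧
    payS D (exp (-b)) ⊆ D ∧ exp (-b) • D ⊆ payS D (exp (-b)) ∧ sec (payS D (exp (-b))) = sec D ∧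
    (∀ k θ, X.e k θ (payS D (exp (-b))) = X.e k θ D ∧
      X.z k θ (payS D (exp (-b))) ≤ exp (-b) * X.z k θ D + 2 * X.e k θ D) ∧
    ∀ Q : FP Ω, X.In Q D → X.Lb Q (Fintype.card ι' * (b + 2)) (payS D (exp (-b)))) ∧
  (Sym (exp (-b) • D) ∧ exp (-b) • D ⊆ D ∧ Gn (exp (-b) • D) a = Gn D a + Fintype.card ι' * b ∧
    (∀ k θ, X.z k θ (exp (-b) • D) = exp (-b) * X.z k θ D) ∧
    (∀ Λ, La D Λ → La (exp (-b) • D) Λ) ∧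
    ∀ Q : FP Ω, X.In Q D →
      X.Lb Q ((Fintype.card ι + Fintype.card ι') * (b + 2)) (exp (-b) • D)) ∧
  ∀ (Q : FP Ω) (R : ℕ), X.In Q D → a + Gn D a + cV ι ι' ≤ R * lg →
    hh Q (fun ω => flv R (X.B ω).2) ≤ lv D + Fintype.card ι' * (R + 1) * lg

/-- Cuts. -/
def GeoC : Prop := ∀ (ι ι' γ T Ω : Type) [Fintype ι] [Fintype ι'] [Fintype γ]
  (X : Dat ι ι' γ T Ω) (D : Set (Vv ι ι')) (a β : ℝ) (k : ℕ) (θ : T), Bd D a → 0 ≤ β →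
  X.z k θ D ≤ 1 →
  (∀ ζ b, X.Un k θ ζ → 0 ≤ b → Sym (cutS D ζ (exp (-b))) ∧ cutS D ζ (exp (-b)) ⊆ D ∧
    exp (-b) • D ⊆ cutS D ζ (exp (-b)) ∧
    (∀ d g, 0 ≤ g → Sb D d → (∀ p, ‖X.Ξ k (X.J p)‖ ≤ g * ‖p‖) → |X.s θ| * g ≤ exp (d - b) →
      Sb (cutS D ζ (exp (-b))) d) ∧
    (∀ Λ g, 1 ≤ Λ → 0 ≤ g → La D Λ → (∀ ρ, ‖X.Ξ k (X.C θ ρ)‖ ≤ g * ‖ρ‖) →
      1 + g * exp (b - a) ≤ Λ → La (cutS D ζ (exp (-b))) Λ) ∧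
    (X.e k θ D ≤ exp (-b) → sec (cutS D ζ (exp (-b))) = sec D)) ∧
  (exp (-(4 * β)) ≤ X.e k θ D → ∃ ζ, X.Un k θ ζ ∧
    lw (cutS D ζ (exp (-(5 * β)))) ≤ lw D - (β - cV ι ι')) ∧
  (exp (-β) ≤ X.z k θ D → X.e k θ D ≤ exp (-(2 * β)) → ∃ ζ, X.Un k θ ζ ∧
    Gn D a + (β - cV ι ι') ≤ Gn (cutS D ζ (exp (-(2 * β)))) a)

/-- The local slab lemma. -/
def GeoD : Prop := ∀ (ι ι' γ T Ω : Type) [Fintype ι] [Fintype ι'] [Fintype γ]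
  (X : Dat ι ι' γ T Ω) (D D' : Set (Vv ι ι')) (a β b : ℝ) (k : ℕ) (θ : T), Bd D a → Bd D' a →
  D' ⊆ D → 2 ≤ β → b ≤ β → X.e k θ D ≤ exp (-(2 * β)) →
  cl (-β) (-b) (X.z k θ D) - cl (-β) (-b) (X.z k θ D') ≤ Gn D' a - Gn D a + cV ι ι'

/-! ### Rows: laws -/

/-- Either one candidate is almost free, or the candidates are bad or cost information. -/
def Kill : Prop := ∀ (ι ι' γ T Ω α : Type) [Fintype ι] [Fintype ι'] [Fintype γ]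
  (X : Dat ι ι' γ T Ω) (Q : FP Ω) (D : Set (Vv ι ι')) (a β : ℝ) (f : Vv ι ι' → α) (Cd : T → Prop)
  (k : T → ℕ), 2 ≤ β → Bd D a → Q.S ⊆ X.P.S → X.In Q D →
  (∀ ω ∈ Q.S, ∀ ω' ∈ Q.S, f (X.B ω) = f (X.B ω') → X.B ω - X.B ω' ∈ exp (-(6 * β)) • D) →
  (∀ θ, Cd θ → X.Gp β (k θ) θ ∧ X.z (k θ) θ D ≤ 1) →
  (∃ θ, Cd θ ∧ X.Fr Q β 2 D (k θ) θ) ∨
  pb Q (fun ω => Cd (X.τ ω)) ≤ 4 * (5 * β + 2) *
    (pb Q (fun ω => Cd (X.τ ω) ∧ ¬X.Gd (k (X.τ ω)) ω) +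
      mi Q X.τ (fun ω => f (X.B ω)) fun _ => ())

/-- Windows of levels: for a set `S` of boxes, a set `W` of levels and a box for each level. -/
def Win : Prop := ∀ (ι ι' γ T Ω : Type) [Fintype ι] [Fintype ι'] [Fintype γ]
  (X : Dat ι ι' γ T Ω) (h ν β r d a : ℝ) (D : Set (Vv ι ι')) (S : Finset ℕ), 0 < h → 2 + h ≤ β →
  X.Ok h ν β r d → Bd D a → S ⊆ X.I → (∀ i ∈ S, 1 ≤ X.y i D) → S.Nonempty →
  ∃ (W : Finset ℕ) (i : ℕ → ℕ), W ⊆ Finset.range X.U ∧ (∀ j, i j ∈ S) ∧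
    β * S.card ≤ h * W.card ∧ ∀ θ, X.Sz h θ → X.j θ ∈ W →
      exp (-(4 * β)) ≤ X.e (i (X.j θ)) θ D ∧ X.e (i (X.j θ)) θ D ≤ exp (-(2 * β))

/-- The hypotheses on events of `B` pass to atoms. -/
def Atom : Prop := ∀ (ι ι' γ T Ω α : Type) [Fintype ι] [Fintype ι'] [Fintype γ]
  (X : Dat ι ι' γ T Ω) (Q : FP Ω) (f : Vv ι ι' → α) (h κ r L : ℝ) (D : Set (Vv ι ι')), ∀ ω ∈ Q.S,
  (cv Q (fun ω => f (X.B ω)) (f (X.B ω))).S ⊆ Q.S ∧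
  ((∀ ω ∈ Q.S, ∀ ω' ∈ Q.S, f (X.B ω) = f (X.B ω') → X.B ω - X.B ω' ∈ D) →
    X.In (cv Q (fun ω => f (X.B ω)) (f (X.B ω))) D) ∧
  (X.Lv Q → X.Lv (cv Q (fun ω => f (X.B ω)) (f (X.B ω)))) ∧
  (X.Ac h κ r L Q → X.Ac h κ r L (cv Q (fun ω => f (X.B ω)) (f (X.B ω))))

/-! ### Rows: the first run -/

/-- A statement about all valid states. -/
def AllSt (p : ∀ {ι ι' γ T Ω : Type} [Fintype ι] [Fintype ι'] [Fintype γ], Dat ι ι' γ T Ω → Cn →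
    FP Ω → Set (Vv ι ι') × ℝ → Prop) : Prop :=
  ∀ (ι ι' γ T Ω : Type) [Fintype ι] [Fintype ι'] [Fintype γ] (X : Dat ι ι' γ T Ω) (σ : Cn)
    (Q : FP Ω) (s : Set (Vv ι ι') × ℝ), X.Hy σ → X.Val σ Q s → p X σ Q s

/-- Facts at a valid state. -/
def Fact : Prop := AllSt fun {ι ι'} _ _ _ _ _ _ X σ _ s =>
  0 ≤ X.rm σ s.1 ∧ s.2 + Gn s.1 s.2 + cV ι ι' ≤ σ.R * lg ∧ (∀ i ∈ X.I, 1 ≤ X.y i s.1) ∧
  ∀ θ, X.Re θ → Ns σ.β X.n (fun k => X.z k θ s.1) ∧ 0 ≤ X.pf σ θ s.1 ∧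
    X.pf σ θ s.1 ≤ 2 * σ.β + σ.xm ι ι' / 12 ∧
    ∀ i ∈ X.Al σ.β θ s.1, X.l i ≤ σ.h * X.j θ + cE σ.κ * σ.L ∧ X.z (X.n - 1) θ s.1 ≤ 1 ∧
      (∀ k, i ≤ k → k < X.n → X.e k θ s.1 ≤ exp (-(2 * σ.β)) ∧ X.Gp σ.β k θ ∧
        X.z i θ s.1 ≤ exp (σ.C * σ.β * (k - i : ℕ)) * X.z k θ s.1) ∧
      (exp (-(4 * σ.β)) ≤ X.e i θ s.1 → ∀ i' ∈ X.Al σ.β θ s.1, i ≤ i')

def Term : Prop := AllSt fun X σ Q s => ¬X.Run σ s →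
  hh Q (fun ω => flv σ.R (X.B ω).2) ≤ Q.E (X.ψ σ s)

def StepN : Prop := AllSt fun X σ Q s => X.Run σ s → ∀ k θ, X.Re θ → X.CN σ s k θ →
  X.Fr Q σ.β 2 s.1 k θ → X.Next σ Q s

def StepF : Prop := AllSt fun X σ Q s => X.Run σ s → ∀ k θ, X.Re θ → X.CF σ s k θ →
  X.Fr Q σ.β 2 s.1 k θ → X.Next σ Q s

/-- Many candidates: a free cut or the homothety. -/
def StepH : Prop := AllSt fun X σ Q s => X.Run σ s →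
  σ.ν₁ ≤ pb Q (fun ω => X.Cd σ s (X.τ ω)) → X.Next σ Q s

/-- The mass of the far forms. -/
def Far : Prop := AllSt fun X σ Q s =>
  σ.ν ≤ pb Q (fun ω => X.Cd σ s (X.τ ω)) + 2 * Q.E X.ex + pb Q fun ω =>
    ∃ i ∈ X.Al σ.β (X.τ ω) s.1, exp (-(4 * σ.β)) ≤ X.e i (X.τ ω) s.1 ∧ 1 < X.z i (X.τ ω) s.1

/-- Few candidates: the paid step. -/
def StepP : Prop := AllSt fun X σ Q s => X.Run σ s →
  pb Q (fun ω => X.Cd σ s (X.τ ω)) ≤ σ.ν₁ → X.Next σ Q s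

/-- The first run with explicit constants. -/
def Core : Prop := ∀ (ι ι' γ T Ω : Type) [Fintype ι] [Fintype ι'] [Fintype γ]
  (X : Dat ι ι' γ T Ω) (σ : Cn), X.Hy σ → hh X.P (fun ω => flv σ.R (X.B ω).2) ≤
    Fintype.card ι' * (σ.R + 2) * lg + σ.w₁ * (2 * σ.β + σ.xm ι ι' / 12 - σ.η₀ * σ.L) +
      σ.K ι ι' * X.bud +
      (cV ι ι' + 2) * (Fintype.card ι * (lg + cE σ.κ * σ.L) / (σ.β - cV ι ι')) +
      (σ.L + σ.b) * (2 * Fintype.card ι' / σ.b + 2 * X.P.E X.ex)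

/-- The first run after the reductions. -/
def Run1c : Prop := ∀ (N : ℕ) (h κ ν C : ℝ), 0 < h → 0 < κ → 0 < ν → 0 < C →
  ∃ η K' β₀ : ℝ, 0 < η ∧ 0 ≤ K' ∧ ∀ β, β₀ ≤ β → ∃ K L₀ : ℝ, 0 ≤ K ∧
    ∀ (ι ι' γ T Ω : Type) [Fintype ι] [Fintype ι'] [Fintype γ] [Nonempty ι']
      (X : Dat ι ι' γ T Ω) (r L : ℝ) (R : ℕ), Fintype.card ι ≤ N →
      Fintype.card ι' ≤ N → L₀ ≤ L → r ≤ η * L → 2 * L ≤ R * lg → X.Ok2 h κ ν C β r L →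
      hh X.P (fun ω => flv R (X.B ω).2) ≤
        Fintype.card ι' * R * lg - η * L + K * X.bud + K' * L * X.P.E X.ex

def SFact : Prop := PotC → GeoA → GeoS → Fact
def STerm : Prop := GeoA → GeoB → Fact → Term
def SStepN : Prop := PotA → GeoA → GeoS → GeoC → GeoD → Atom → Fact → StepN
def SStepF : Prop := PotA → GeoA → GeoS → GeoC → GeoD → Atom → Fact → StepF
def SStepH : Prop := PotO → PotA → GeoA → GeoS → GeoB → Kill → Atom → Fact → StepN → StepF → StepH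
def SFar : Prop := GeoS → Win → Fact → Far
def SStepP : Prop := PotO → PotA → PotB → GeoA → GeoS → GeoB → Atom → Fact → Far → StepP
def SCore : Prop := GeoA → Fact → Term → StepH → StepP → Core
def SNum : Prop := Core → Run1c
def SWrap : Prop := Run1c → Run1
def SRun2 : Prop := GeoA → GeoS → GeoB → GeoC → Kill → Win → Atom → Run2

theorem run1_of (pO : PotO) (pA : PotA) (pB : PotB) (pC : PotC) (gA : GeoA) (gS : GeoS) (gB : GeoB)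
    (gC : GeoC) (gD : GeoD) (ki : Kill) (wi : Win) (at' : Atom) (sf : SFact) (st : STerm)
    (sn : SStepN) (sF : SStepF) (sh : SStepH) (sfa : SFar) (sp : SStepP) (sc : SCore) (nu : SNum)
    (wr : SWrap) : Run1 :=
  have f := sf pC gA gS
  wr (nu (sc gA f (st gA gB f)
    (sh pO pA gA gS gB ki at' f (sn pA gA gS gC gD at' f) (sF pA gA gS gC gD at' f))
    (sp pO pA pB gA gS gB at' f (sfa gS wi f))))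

end Pool.Agent.MP_4b405e_nt.EB
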