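import Pool.Agent.MP_4b405e_nt.SK.EDef

/-! The mass of the far forms. -/

namespace Pool.Agent.MP_4b405e_nt.EB

open Pool.Agent.MP_5168f5_an H19 H17S H17F Real MeasureTheory Pointwise
open Geo (Sym sz es sec shd cutS payS)

theorem sFar8 : SFar := by
  classical
  intro gS wi fa ι ι' γ T Ω _ _ _ X σ Q s hy hv
  obtain ⟨D, a⟩ := s
  have nm := hy.nm
  have ok := hy.ok
  obtain ⟨-, -, f3, fa⟩ := fa ι ι' γ T Ω X σ Q (D, a) hy hv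
  have U0 : (0 : ℝ) < X.U := by exact_mod_cast ok.u0
  have hI : X.I.Nonempty := by
    rw [← Finset.card_pos]
    by_contra h
    have h1 := ok.mass
    rw [Nat.eq_zero_of_not_pos h] at h1
    have := mul_pos (mul_pos nm.ν0 nm.h0) U0
    simp only [Nat.cast_zero, mul_zero] at h1
    linarith
  obtain ⟨W, i, w1, w2, w3, w4⟩ := wi ι ι' γ T Ω X σ.h σ.ν σ.β σ.r _ a D X.I nm.h0 nm.hβ ok.toOk
    hv.bd subset_rfl f3 hI
  have l1 := hv.lv (fun _ => True) W w1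
  have er : X.er Q (fun _ => True) = Q.E X.ex := Q.E_congr fun _ _ => if_pos trivial
  have n1 : σ.ν ≤ (W.card : ℝ) / X.U := by
    rw [le_div_iff₀ U0]
    refine le_of_mul_le_mul_left ?_ nm.h0
    nlinarith [ok.mass]
  have ch : ∀ j : ℕ, ∃ Γ : (ι' → ℝ) →L[ℝ] (γ → ℝ), ∀ θ, X.Re θ → X.j θ = j → j ∈ W →
      X.z (i j) θ D ≤ 1 → σ.fb ι ι' a ≤ σ.κ * (X.l (i j) - σ.h * j) →
      X.Cl σ.h σ.κ σ.r σ.L (i j) Γ θ := by
    intro j
    by_cases h : ∃ θ', X.Re θ' ∧ X.j θ' = j ∧ X.z (i j) θ' D ≤ 1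
    swap
    · exact ⟨0, fun θ h1 h2 _ h3 _ => (h ⟨θ, h1, h2, h3⟩).elim⟩
    obtain ⟨θ', r', j', z'⟩ := h
    refine ⟨(X.s θ')⁻¹ • X.C θ', fun θ r1 j1 hW z1 hf => ?_⟩
    have sz : ∀ θ, X.Re θ → X.Sz σ.h θ := by rintro _ ⟨ω, hω, rfl⟩; exact ok.sz ω hω
    have s1 := sz θ r1
    have s2 := sz θ' r'
    have e1 := w4 θ s1 (j1 ▸ hW)
    rw [j1] at e1
    obtain ⟨k1, -⟩ := (fa θ r1).2.2.2 (i j) (Finset.mem_filter.2 ⟨w2 j, e1.2⟩)
    obtain ⟨-, -, -, -, -, -, -, -, g⟩ := gS ι ι' γ T Ω X D a (i j) θ hv.bd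
    have s0 : 0 < |X.s θ'| := (exp_pos _).trans_le s2.1
    have g := g θ' z1 z' (abs_pos.1 s0) (by
      refine s1.2.trans (le_trans (le_of_eq ?_) (mul_le_mul_of_nonneg_left s2.1 (exp_pos _).le))
      rw [← exp_add, j1, j']; congr 1; ring)
    have g1 : Gn D a ≤ σ.Gm ι' := hv.g1
    have a0 : 0 ≤ a := hv.a0
    have f0 : 0 ≤ σ.fb ι ι' a := by
      have h1 := nm.κ0
      have h2 := nm.ν0
      have h3 := nm.C0
      have h4 : 0 ≤ σ.β := by linarith [nm.b2, nm.bβ]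
      have h5 : 0 ≤ cV ι ι' := by unfold cV; positivity
      have h6 : 0 ≤ σ.L := by
        have : 0 ≤ (1 + σ.κ) * (6 * σ.β * Fintype.card ι' + 6 * σ.β + cV ι ι' + 5) := by positivity
        linarith [nm.big]
      have h7 := ok.r0
      unfold Cn.fb Cn.Gm Cn.c Cn.η₀ Cn.c₂
      positivity
    refine ⟨k1, ?_, fun ρ => (g ρ).trans (mul_le_mul_of_nonneg_right (exp_le_exp.2 ?_)
      (norm_nonneg _))⟩
    · rw [j1]
      linarith [nonneg_of_mul_nonneg_right (f0.trans hf) nm.κ0]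
    · rw [j1]
      unfold Cn.fb at hf
      linarith
  choose Γ hΓ using ch
  have a1 := hv.ac (fun _ => True) i Γ w2
  rw [er] at l1 a1
  rw [pb_true, mul_one] at l1
  have h1 := pb_mono (P := Q) (E := fun ω => True ∧ X.j (X.τ ω) ∈ W) (F := fun ω =>
      (X.Cd σ (D, a) (X.τ ω) ∨ (True ∧ X.Cl σ.h σ.κ σ.r σ.L (i (X.j (X.τ ω))) (Γ (X.j (X.τ ω)))
        (X.τ ω))) ∨ ∃ i ∈ X.Al σ.β (X.τ ω) D, exp (-(4 * σ.β)) ≤ X.e i (X.τ ω) D ∧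
        1 < X.z i (X.τ ω) D) fun ω hω h => by
    have re : X.Re (X.τ ω) := ⟨ω, hv.sub hω, rfl⟩
    have e1 := w4 _ (ok.sz ω (hv.sub hω)) h.2
    have al : i (X.j (X.τ ω)) ∈ X.Al σ.β (X.τ ω) D := Finset.mem_filter.2 ⟨w2 _, e1.2⟩
    rcases le_or_gt (X.z (i (X.j (X.τ ω))) (X.τ ω) D) 1 with h2 | h2
    · rcases le_or_gt (σ.fb ι ι' a) (σ.κ * (X.l (i (X.j (X.τ ω))) - σ.h * X.j (X.τ ω))) with h3 | h3
      · exact Or.inl (Or.inr ⟨trivial, hΓ _ _ re rfl h.2 h2 h3⟩)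
      · exact Or.inl (Or.inl ⟨re, _, Or.inl ⟨al, e1.1, h2, h3⟩⟩)
    · exact Or.inr ⟨_, al, e1.1, h2⟩
  have h2 := h1.trans ((pb_or _ _ _).trans (add_le_add (pb_or _ _ _) le_rfl))
  simp only
  linarith

end Pool.Agent.MP_4b405e_nt.EB
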