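import Pool.Agent.MP_4b405e_nt.SK.Geo8

/-! The states of the cutting process: sizes of forms, sections, shadows and the three steps. -/

namespace Pool.Agent.MP_4b405e_nt.Geo

open MeasureTheory Set Pointwise Module Metric

section Sz

variable {V W : Type*} [NormedAddCommGroup V] [NormedSpace ℝ V] [NormedAddCommGroup W]
  [NormedSpace ℝ W]

/-- The size of a form on a set. -/
noncomputable def sz (L : V →L[ℝ] W) (D : Set V) : ℝ := sSup ((fun x => ‖L x‖) '' D)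

variable (L : V →L[ℝ] W) {D D' : Set V} {b c : ℝ}

theorem le_sz (hb : ∀ x ∈ D, ‖x‖ ≤ b) {x : V} (hx : x ∈ D) : ‖L x‖ ≤ sz L D := by
  refine le_csSup ⟨‖L‖ * b, ?_⟩ ⟨x, hx, rfl⟩
  rintro _ ⟨y, hy, rfl⟩
  exact (L.le_opNorm y).trans (mul_le_mul_of_nonneg_left (hb y hy) (norm_nonneg _))

theorem sz_le (h0 : 0 ≤ c) (h : ∀ x ∈ D, ‖L x‖ ≤ c) : sz L D ≤ c :=
  Real.sSup_le (by rintro _ ⟨y, hy, rfl⟩; exact h y hy) h0

theorem sz_nonneg (D : Set V) : 0 ≤ sz L D :=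
  Real.sSup_nonneg (by rintro _ ⟨y, -, rfl⟩; exact norm_nonneg _)

theorem lt_sz (h0 : 0 ≤ c) (h : c < sz L D) : ∃ x ∈ D, c < ‖L x‖ := by
  by_contra k
  push Not at k
  exact absurd (sz_le L h0 k) (not_le.2 h)

theorem sz_mono (hb : ∀ x ∈ D, ‖x‖ ≤ b) (hs : D' ⊆ D) : sz L D' ≤ sz L D :=
  sz_le L (sz_nonneg L D) fun _ hx => le_sz L hb (hs hx)

theorem le_sz_smul (hb : ∀ x ∈ D, ‖x‖ ≤ b) (hc : 0 ≤ c) {x : V} (hx : x ∈ c • D) :
    ‖L x‖ ≤ c * sz L D := by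
  obtain ⟨y, hy, rfl⟩ := hx
  simp only [map_smul, norm_smul, Real.norm_of_nonneg hc]
  exact mul_le_mul_of_nonneg_left (le_sz L hb hy) hc

theorem sz_ge (hb : ∀ x ∈ D', ‖x‖ ≤ b) (hc : 0 ≤ c) (hs : c • D ⊆ D') :
    c * sz L D ≤ sz L D' := by
  rcases hc.eq_or_lt with rfl | hc'
  · simpa using sz_nonneg L D'
  · rw [← le_div_iff₀' hc']
    refine sz_le L (div_nonneg (sz_nonneg L D') hc) fun x hx => ?_
    have := le_sz L hb (hs ⟨x, hx, rfl⟩)
    simp only [map_smul, norm_smul, Real.norm_of_nonneg hc] at this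
    rwa [le_div_iff₀' hc']

theorem sz_smul (hb : ∀ x ∈ D, ‖x‖ ≤ b) (hc : 0 ≤ c) : sz L (c • D) = c * sz L D := by
  refine le_antisymm (sz_le L (mul_nonneg hc (sz_nonneg L D)) fun x hx => le_sz_smul L hb hc hx)
    (sz_ge L (b := c * b) ?_ hc subset_rfl)
  rintro _ ⟨y, hy, rfl⟩
  simp only [norm_smul, Real.norm_of_nonneg hc]
  exact mul_le_mul_of_nonneg_left (hb y hy) hc

/-- Comparison of two forms. -/
theorem sz_cmp {W' : Type*} [NormedAddCommGroup W'] [NormedSpace ℝ W'] (L' : V →L[ℝ] W')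
    (hb : ∀ x ∈ D, ‖x‖ ≤ b) (hc : 0 ≤ c) (h : ∀ x, ‖L' x‖ ≤ c * ‖L x‖) :
    sz L' D ≤ c * sz L D :=
  sz_le L' (mul_nonneg hc (sz_nonneg L D)) fun x hx =>
    (h x).trans (mul_le_mul_of_nonneg_left (le_sz L hb hx) hc)

theorem exists_fun (x0 : V) : ∃ ζ : V →ₗ[ℝ] ℝ, (∀ x, |ζ x| ≤ ‖L x‖) ∧ ζ x0 = ‖L x0‖ := by
  obtain ⟨g, h1, h2⟩ := exists_dual_vector'' ℝ (L x0)
  refine ⟨(g.comp L : V →L[ℝ] ℝ), fun x => ?_, by simpa using h2⟩
  have := g.le_opNorm (L x)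
  have h3 := mul_le_mul_of_nonneg_right h1 (norm_nonneg (L x))
  simp only [Real.norm_eq_abs] at this
  simpa using this.trans (h3.trans (one_mul _).le)

theorem mem_smul_of_ball {r : ℝ} (hr : 0 < r) (h : ∀ x, ‖x‖ ≤ r → x ∈ D) (hc : 0 ≤ c) {x : V}
    (hx : ‖x‖ ≤ c * r) : x ∈ c • D := by
  rcases hc.eq_or_lt with rfl | hc'
  · have : x = 0 := by simpa using hx
    exact ⟨0, h 0 (by simpa using hr.le), by simp [this]⟩
  · refine ⟨c⁻¹ • x, h _ ?_, by simp [smul_smul, mul_inv_cancel₀ hc'.ne']⟩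
    rw [norm_smul, norm_inv, Real.norm_of_nonneg hc, inv_mul_le_iff₀ hc']; exact hx

/-- A form on a set that contains a ball. -/
theorem le_ball {r : ℝ} (hr : 0 < r) (h : ∀ x, ‖x‖ ≤ r → x ∈ D) (hb : ∀ x ∈ D, ‖x‖ ≤ b) (x : V) :
    ‖L x‖ ≤ ‖x‖ / r * sz L D :=
  le_sz_smul L hb (by positivity) (mem_smul_of_ball hr h (by positivity) (by
    rw [div_mul_cancel₀ _ hr.ne']))

theorem exists_nat_lt {w t : ℝ} (hw : 0 < w) (ht : 0 < t) :
    ∃ k : ℕ, k * t < w ∧ w ≤ (k + 1) * t := by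
  have h1 : 0 < ⌈w / t⌉₊ := Nat.ceil_pos.2 (by positivity)
  obtain ⟨k, hk⟩ := Nat.exists_eq_succ_of_ne_zero h1.ne'
  refine ⟨k, ?_, ?_⟩
  · rw [← lt_div_iff₀ ht]; exact Nat.lt_ceil.1 (by omega)
  · have := Nat.le_ceil (w / t)
    rw [hk, div_le_iff₀ ht] at this
    exact_mod_cast this

end Sz

section Vol

variable {E : Type*} [NormedAddCommGroup E] [NormedSpace ℝ E] [FiniteDimensional ℝ E]
  [MeasurableSpace E] [BorelSpace E] (μ : Measure E) [μ.IsAddHaarMeasure] {P : Set E} {r R : ℝ}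

/-- The volume of the unit ball. -/
noncomputable def vb : ℝ := μ.real (closedBall 0 1)

theorem vb_pos : 0 < vb μ :=
  ENNReal.toReal_pos (measure_closedBall_pos μ 0 one_pos).ne' measure_closedBall_lt_top.ne

theorem real_ball (hr : 0 ≤ r) : μ.real (closedBall 0 r) = r ^ finrank ℝ E * vb μ := by
  rw [vb, ← real_smul μ hr, _root_.smul_closedBall _ _ zero_le_one]; simp [abs_of_nonneg hr]

theorem ne_top_of (h : ∀ x ∈ P, ‖x‖ ≤ R) : μ P ≠ ⊤ :=
  ((measure_mono fun x hx => mem_closedBall_zero_iff.2 (h x hx)).trans_lt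
    (measure_closedBall_lt_top (μ := μ) (x := 0) (r := R))).ne

theorem ne_zero_of (hr : 0 < r) (h : ∀ x, ‖x‖ ≤ r → x ∈ P) : μ P ≠ 0 :=
  ((measure_closedBall_pos μ 0 hr).trans_le
    (measure_mono fun x hx => h x (mem_closedBall_zero_iff.1 hx))).ne'

theorem real_le (hR : 0 ≤ R) (h : ∀ x ∈ P, ‖x‖ ≤ R) : μ.real P ≤ R ^ finrank ℝ E * vb μ := by
  rw [← real_ball μ hR]
  exact measureReal_mono (fun x hx => mem_closedBall_zero_iff.2 (h x hx))
    measure_closedBall_lt_top.ne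

theorem real_ge (hr : 0 ≤ r) (h : ∀ x, ‖x‖ ≤ r → x ∈ P) (h' : ∀ x ∈ P, ‖x‖ ≤ R) :
    r ^ finrank ℝ E * vb μ ≤ μ.real P := by
  rw [← real_ball μ hr]
  exact measureReal_mono (fun x hx => h x (mem_closedBall_zero_iff.1 hx)) (ne_top_of μ h')

/-- The inradius of a symmetric convex set from its volume. -/
theorem inradius (h : Sym P) (hR : 0 < R) (hb : ∀ x ∈ P, ‖x‖ ≤ R) (hr : 0 < r)
    (hv : 2 * r * ((2 * R) ^ finrank ℝ E * vb μ) < R * μ.real P) (y : E) (hy : ‖y‖ ≤ r) :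
    y ∈ P := by
  by_contra hn
  set k := ⌊R / (2 * r)⌋₊
  have hk1 : (k : ℝ) * (2 * r) ≤ R := by
    rw [← le_div_iff₀ (by positivity)]; exact Nat.floor_le (by positivity)
  have hk2 : R < (k + 1) * (2 * r) := by
    rw [← div_lt_iff₀ (by positivity)]; exact Nat.lt_floor_add_one _
  have := pack_real μ (Finset.range (k + 1)) (fun i : ℕ => (i : ℝ) • y) (Q := (1 / 2 : ℝ) • P)
    (R := closedBall 0 R) (h.smul _).cvx measure_closedBall_lt_top.ne ?_ ?_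
  · rw [real_smul μ (by norm_num), Finset.card_range, real_ball μ hR.le] at this
    push_cast at this
    have e2 : (2 : ℝ) ^ finrank ℝ E * (1 / 2) ^ finrank ℝ E = 1 := by
      rw [← mul_pow]; norm_num
    have h3 : (k + 1 : ℝ) * μ.real P ≤ (2 * R) ^ finrank ℝ E * vb μ := by
      calc (k + 1 : ℝ) * μ.real P
          = 2 ^ finrank ℝ E * ((k + 1 : ℝ) * ((1 / 2) ^ finrank ℝ E * μ.real P)) := by
            rw [mul_left_comm, ← mul_assoc (2 ^ finrank ℝ E), e2, one_mul]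
        _ ≤ 2 ^ finrank ℝ E * (R ^ finrank ℝ E * vb μ) := by gcongr
        _ = _ := by rw [mul_pow, mul_assoc]
    have h4 : 0 ≤ μ.real P := measureReal_nonneg
    nlinarith [mul_le_mul_of_nonneg_right hk2.le h4, mul_le_mul_of_nonneg_left h3 hr.le]
  · rintro i hi _ ⟨x, hx, rfl⟩
    have hi' : (i : ℝ) ≤ k := by exact_mod_cast Nat.lt_succ_iff.1 (Finset.mem_range.1 hi)
    rw [mem_closedBall_zero_iff]
    refine (norm_add_le _ _).trans ?_
    simp only [norm_smul, Real.norm_natCast]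
    have h1 : (i : ℝ) * ‖y‖ ≤ k * r := by gcongr
    have h2 := hb x hx
    norm_num; linarith
  · rintro i _ j _ _ ⟨x, hx, rfl⟩ _ ⟨x', hx', rfl⟩ e
    by_contra hij
    have h1 : (1 : ℝ) ≤ |(i : ℝ) - j| := by
      have : (1 : ℤ) ≤ |(i : ℤ) - j| := Int.one_le_abs (sub_ne_zero.2 (by exact_mod_cast hij))
      exact_mod_cast this
    have h2 : (i : ℝ) - j ≠ 0 := fun h0 => by rw [h0] at h1; norm_num at h1
    have h3 : (1 / 2 : ℝ) • x' + (-(1 / 2) : ℝ) • x ∈ P := h.comb (by norm_num [abs_of_pos]) hx' hx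
    have h4 : (1 / 2 : ℝ) • x' + (-(1 / 2) : ℝ) • x = ((i : ℝ) - j) • y := by
      simp only at e
      rw [sub_smul, neg_smul, eq_sub_of_add_eq e]; abel
    have h5 := h.smul_mem (a := ((i : ℝ) - j)⁻¹) (by rw [abs_inv]; exact inv_le_one_of_one_le₀ h1) h3
    rw [h4, smul_smul, inv_mul_cancel₀ h2, one_smul] at h5
    exact hn h5

end Vol

section State

variable {E F W : Type*} [NormedAddCommGroup E] [NormedSpace ℝ E] [NormedAddCommGroup F]
  [NormedSpace ℝ F] [NormedAddCommGroup W] [NormedSpace ℝ W]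

/-- The section `ρ = 0`. -/
def sec (D : Set (E × F)) : Set E := {p | (p, 0) ∈ D}

/-- The shadow on `ρ`. -/
def shd (D : Set (E × F)) : Set F := LinearMap.snd ℝ E F '' D

/-- The size of a form on the section. -/
noncomputable def es (L : E × F →L[ℝ] W) (D : Set (E × F)) : ℝ :=
  sz (L.comp (ContinuousLinearMap.inl ℝ E F)) (sec D)

/-- A state: inside the unit ball, containing the ball `r`, with shadow inside the ball `R`. -/
structure Ok (D : Set (E × F)) (r R : ℝ) : Prop where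
  sym : Sym D
  bd : ∀ x ∈ D, ‖x‖ ≤ 1
  pos : 0 < r
  ball : ∀ x, ‖x‖ ≤ r → x ∈ D
  out : ∀ x ∈ D, ‖x.2‖ ≤ R

/-- The cut by a slab. -/
def cutS (D : Set (E × F)) (ζ : E × F →ₗ[ℝ] ℝ) (δ : ℝ) : Set (E × F) := D ∩ {x | |ζ x| ≤ δ}

/-- The paid step. -/
def payS (D : Set (E × F)) (c : ℝ) : Set (E × F) := D ∩ LinearMap.snd ℝ E F ⁻¹' (c • shd D)

variable {D D' : Set (E × F)} {r R r' R' c δ : ℝ} (L : E × F →L[ℝ] W)

theorem mem_shd {x : E × F} (hx : x ∈ D) : x.2 ∈ shd D := ⟨x, hx, rfl⟩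

theorem sec_mono (h : D' ⊆ D) : sec D' ⊆ sec D := fun _ hp => h hp

theorem shd_mono (h : D' ⊆ D) : shd D' ⊆ shd D := image_mono h

theorem Sym.sec (h : Sym D) : Sym (sec D) := h.preimage (LinearMap.inl ℝ E F)

theorem Sym.shd (h : Sym D) : Sym (shd D) := h.image _

theorem shd_smul (c : ℝ) : shd (c • D) = c • shd D := image_smul _ c D

theorem smul_sec (c : ℝ) : c • sec D ⊆ sec (c • D) := by
  rintro _ ⟨p, hp, rfl⟩; exact ⟨(p, 0), hp, by simp⟩

theorem sec_smul (hc : c ≠ 0) : sec (c • D) = c • sec D := by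
  refine Subset.antisymm ?_ (smul_sec c)
  rintro p ⟨x, hx, e⟩
  have e1 : c • x.1 = p := congrArg Prod.fst e
  have e2 : x.2 = 0 := (smul_eq_zero.1 (congrArg Prod.snd e)).resolve_left hc
  exact ⟨x.1, by change (x.1, 0) ∈ D; rw [← e2]; exact hx, e1⟩

namespace Ok

variable (h : Ok D r R)
include h

theorem sec_bd : ∀ p ∈ sec D, ‖p‖ ≤ 1 := fun p hp => by simpa using h.bd _ hp

theorem sec_ball : ∀ p, ‖p‖ ≤ r → p ∈ sec D := fun p hp => h.ball _ (by simpa using hp)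

theorem shd_bd : ∀ y ∈ shd D, ‖y‖ ≤ R := by rintro _ ⟨x, hx, rfl⟩; exact h.out x hx

theorem shd_ball : ∀ y, ‖y‖ ≤ r → y ∈ shd D := fun y hy =>
  ⟨(0, y), h.ball _ (by simpa using hy), rfl⟩

theorem R_nonneg : 0 ≤ R := by simpa using h.out 0 h.sym.zero

theorem mono (h0 : 0 < r') (h1 : r' ≤ r) (h2 : R ≤ R') : Ok D r' R' :=
  ⟨h.sym, h.bd, h0, fun x hx => h.ball x (hx.trans h1), fun x hx => (h.out x hx).trans h2⟩

theorem le_sz {x : E × F} (hx : x ∈ D) : ‖L x‖ ≤ sz L D := Geo.le_sz L h.bd hx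

theorem le_es {p : E} (hp : (p, 0) ∈ D) : ‖L (p, 0)‖ ≤ es L D := by
  simpa [es] using Geo.le_sz (L.comp (ContinuousLinearMap.inl ℝ E F)) h.sec_bd (x := p) hp

theorem es_le_sz : es L D ≤ sz L D :=
  sz_le _ (sz_nonneg L D) fun p hp => by simpa using h.le_sz L hp

theorem sz_mono (hs : D' ⊆ D) : sz L D' ≤ sz L D := Geo.sz_mono L h.bd hs

theorem es_mono (hs : D' ⊆ D) : es L D' ≤ es L D := Geo.sz_mono _ h.sec_bd (sec_mono hs)

/-- A step that keeps `c • D₀` divides sizes by at most `c⁻¹`. -/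
theorem sz_ge {D₀ : Set (E × F)} (hc : 0 ≤ c) (hs : c • D₀ ⊆ D) : c * sz L D₀ ≤ sz L D :=
  Geo.sz_ge L h.bd hc hs

theorem es_ge {D₀ : Set (E × F)} (hc : 0 ≤ c) (hs : c • D₀ ⊆ D) : c * es L D₀ ≤ es L D :=
  Geo.sz_ge _ h.sec_bd hc ((smul_sec c).trans (sec_mono hs))

theorem sz_smul (hc : 0 ≤ c) : sz L (c • D) = c * sz L D := Geo.sz_smul L h.bd hc

theorem es_smul (hc : 0 < c) : es L (c • D) = c * es L D := by
  unfold es; rw [sec_smul hc.ne', Geo.sz_smul _ h.sec_bd hc.le]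

theorem es_cmp {W' : Type*} [NormedAddCommGroup W'] [NormedSpace ℝ W'] (L' : E × F →L[ℝ] W')
    (hc : 0 ≤ c) (k : ∀ p, ‖L' (p, 0)‖ ≤ c * ‖L (p, 0)‖) : es L' D ≤ c * es L D :=
  sz_cmp _ _ h.sec_bd hc fun p => by simpa using k p

theorem sec_le (p : E) : ‖L (p, 0)‖ ≤ ‖p‖ / r * es L D := by
  simpa [es] using le_ball (L.comp (ContinuousLinearMap.inl ℝ E F)) h.pos h.sec_ball h.sec_bd p

theorem le_es_smul (hc : 0 < c) {p : E} (hp : (p, 0) ∈ c • D) : ‖L (p, 0)‖ ≤ c * es L D := by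
  have : p ∈ c • sec D := by rw [← sec_smul hc.ne']; exact hp
  simpa [es] using le_sz_smul (L.comp (ContinuousLinearMap.inl ℝ E F)) h.sec_bd hc.le this

/-- Any smaller symmetric convex set that keeps `c • D`. -/
theorem sub (h' : Sym D') (hs : D' ⊆ D) (hc : 0 < c) (hk : c • D ⊆ D') : Ok D' (c * r) R :=
  ⟨h', fun x hx => h.bd x (hs hx), mul_pos hc h.pos,
    fun _ hx => hk (mem_smul_of_ball h.pos h.ball hc.le hx), fun x hx => h.out x (hs hx)⟩

/-- The homothety step. -/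
theorem smul (hc : 0 < c) (h1 : c ≤ 1) : Ok (c • D) (c * r) (c * R) := by
  have := h.sub (h.sym.smul c) (h.sym.smul_sub hc.le h1) hc subset_rfl
  refine ⟨this.sym, this.bd, this.pos, this.ball, ?_⟩
  rintro _ ⟨x, hx, rfl⟩
  simp only [Prod.smul_snd, norm_smul, Real.norm_of_nonneg hc.le]
  exact mul_le_mul_of_nonneg_left (h.out x hx) hc.le

theorem cut_sym (ζ : E × F →ₗ[ℝ] ℝ) (hδ : 0 ≤ δ) : Sym (cutS D ζ δ) := h.sym.inter (sym_slab ζ hδ)

theorem cut_keep {ζ : E × F →ₗ[ℝ] ℝ} (hδ : 0 ≤ δ) (h1 : δ ≤ 1) (hζ : ∀ x ∈ D, |ζ x| ≤ 1) :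
    δ • D ⊆ cutS D ζ δ := by
  rintro _ ⟨x, hx, rfl⟩
  refine ⟨h.sym.smul_sub hδ h1 ⟨x, hx, rfl⟩, ?_⟩
  simp only [mem_ofPred_eq, map_smul, smul_eq_mul, abs_mul, abs_of_nonneg hδ]
  exact mul_le_of_le_one_right hδ (hζ x hx)

/-- A cut, with the ball controlled by the functional itself. -/
theorem cut {ζ : E × F →ₗ[ℝ] ℝ} (h0 : 0 < r') (h1 : r' ≤ r) (hζ : ∀ x, ‖x‖ ≤ r' → |ζ x| ≤ δ) :
    Ok (cutS D ζ δ) r' R :=
  ⟨h.cut_sym ζ ((abs_nonneg _).trans (hζ 0 (by simpa using h0.le))), fun x hx => h.bd x hx.1, h0,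
    fun x hx => ⟨h.ball x (hx.trans h1), hζ x hx⟩, fun x hx => h.out x hx.1⟩

/-- A cut, with the ball controlled by the ratio. -/
theorem cut' {ζ : E × F →ₗ[ℝ] ℝ} (hδ : 0 < δ) (h1 : δ ≤ 1) (hζ : ∀ x ∈ D, |ζ x| ≤ 1) :
    Ok (cutS D ζ δ) (δ * r) R :=
  h.sub (h.cut_sym ζ hδ.le) inter_subset_left hδ (h.cut_keep hδ.le h1 hζ)

theorem sec_cut {ζ : E × F →ₗ[ℝ] ℝ} (hζ : ∀ x, |ζ x| ≤ ‖L x‖) (he : es L D ≤ δ) :
    sec (cutS D ζ δ) = sec D :=
  Subset.antisymm (sec_mono inter_subset_left) fun _ hp =>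
    ⟨hp, (hζ _).trans ((h.le_es L hp).trans he)⟩

theorem pay_keep (hc : 0 ≤ c) (h1 : c ≤ 1) : c • D ⊆ payS D c := by
  rintro _ ⟨x, hx, rfl⟩
  exact ⟨h.sym.smul_sub hc h1 ⟨x, hx, rfl⟩, x.2, mem_shd hx, rfl⟩

theorem shd_pay (hc : 0 ≤ c) (h1 : c ≤ 1) : shd (payS D c) = c • shd D := h.sym.shadow _ hc h1

theorem sec_pay (c : ℝ) : sec (payS D c) = sec D :=
  Subset.antisymm (sec_mono inter_subset_left) fun _ hp => ⟨hp, (h.sym.shd.smul c).zero⟩

theorem es_pay (c : ℝ) : es L (payS D c) = es L D := by unfold es; rw [h.sec_pay]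

theorem pay (hc : 0 < c) (h1 : c ≤ 1) : Ok (payS D c) (c * r) (c * R) := by
  have := h.sub (D' := payS D c) (h.sym.inter ((h.sym.shd.smul c).preimage _)) inter_subset_left hc
    (h.pay_keep hc.le h1)
  refine ⟨this.sym, this.bd, this.pos, this.ball, ?_⟩
  rintro x ⟨-, y, hy, e⟩
  have e' : x.2 = c • y := e.symm
  rw [e', norm_smul, Real.norm_of_nonneg hc.le]
  exact mul_le_mul_of_nonneg_left (h.shd_bd y hy) hc.le

theorem sz_pay (hc : 0 ≤ c) (h1 : c ≤ 1) : sz L (payS D c) ≤ c * sz L D + 2 * es L D := by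
  have e0 : 0 ≤ es L D := sz_nonneg _ _
  refine sz_le L (by have := sz_nonneg L D; positivity) ?_
  rintro x ⟨hx, _, ⟨y, hy, rfl⟩, e⟩
  have e' : c • y.2 = x.2 := e
  have h2 : x - c • y ∈ (1 + c) • D :=
    h.sym.sub_mem zero_le_one hc (by simpa using hx) ⟨y, hy, rfl⟩
  have h3 : x - c • y = (x.1 - c • y.1, 0) := by ext <;> simp [e']
  rw [h3] at h2
  have h4 := h.le_es_smul L (by linarith) h2
  have h5 := le_sz_smul L h.bd hc (x := c • y) ⟨y, hy, rfl⟩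
  rw [← h3, map_sub] at h4
  have h6 := norm_le_norm_add_norm_sub' (L x) (L (c • y))
  nlinarith

/-- The first coordinate of a point of `D` lies in a dilate of the section. -/
theorem fst_le {x : E × F} (hx : x ∈ D) : ‖L (x.1, 0)‖ ≤ (1 + R / r) * es L D := by
  have hM : 0 ≤ R / r := div_nonneg h.R_nonneg h.pos.le
  have h1 : ((0, x.2) : E × F) ∈ (R / r) • D := mem_smul_of_ball h.pos h.ball hM (by
    rw [div_mul_cancel₀ _ h.pos.ne']; simpa using h.out x hx)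
  have h2 := h.sym.sub_mem zero_le_one hM (x := x) (by simpa using hx) h1
  have h3 : x - (0, x.2) = (x.1, 0) := by ext <;> simp
  rw [h3] at h2
  exact h.le_es_smul L (by linarith) h2

/-- The excess bound. -/
theorem excess {g : ℝ} (hg : 0 ≤ g) (k : ∀ y, ∃ p, ‖p‖ ≤ g * ‖y‖ ∧ ‖L (0, y)‖ ≤ ‖L (p, 0)‖) :
    sz L D ≤ (1 + R / r + g * (R / r)) * es L D := by
  have hM : 0 ≤ R / r := div_nonneg h.R_nonneg h.pos.le
  have e0 : 0 ≤ es L D := sz_nonneg _ _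
  refine sz_le L (by positivity) fun x hx => ?_
  obtain ⟨p, h1, h2⟩ := k x.2
  have h3 := h.fst_le L hx
  have h4 := h.sec_le L p
  have h5 : ‖p‖ / r ≤ g * (R / r) := by
    rw [← mul_div_assoc]
    exact div_le_div_of_nonneg_right
      (h1.trans (mul_le_mul_of_nonneg_left (h.out x hx) hg)) h.pos.le
  have h6 : L x = L (x.1, 0) + L (0, x.2) := by rw [← map_add]; simp
  have h7 := norm_add_le (L (x.1, 0)) (L (0, x.2))
  rw [← h6] at h7
  nlinarith [mul_le_mul_of_nonneg_right h5 e0]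

/-- Two forms that are proportional on the section. -/
theorem close (L' : E × F →L[ℝ] W) {s s' : ℝ} (k : ∀ p, s' • L (p, 0) = s • L' (p, 0)) {t : ℝ}
    (ht : 0 < t) (hP : ∀ y, ‖y‖ ≤ t → y ∈ shd D) (y : F) :
    ‖s' • L (0, y) - s • L' (0, y)‖ ≤ ‖y‖ / t * (|s'| * sz L D + |s| * sz L' D) := by
  let A : F →L[ℝ] W := (s' • L - s • L').comp (ContinuousLinearMap.inr ℝ E F)
  have h1 := le_ball A ht hP h.shd_bd y
  have h2 : sz A (shd D) ≤ |s'| * sz L D + |s| * sz L' D := by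
    refine sz_le A (by have := sz_nonneg L D; have := sz_nonneg L' D; positivity) ?_
    rintro _ ⟨x, hx, rfl⟩
    have h6 : ∀ M : E × F →L[ℝ] W, M (0, x.2) = M x - M (x.1, 0) := fun M => by
      rw [← map_sub]; congr 1; ext <;> simp
    have h7 : A x.2 = s' • L x - s • L' x := by
      change s' • L (0, x.2) - s • L' (0, x.2) = _
      rw [h6, h6, smul_sub, smul_sub, k]; abel
    change ‖A x.2‖ ≤ _
    rw [h7]
    refine (norm_sub_le _ _).trans ?_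
    simp only [norm_smul, Real.norm_eq_abs]
    gcongr
    exacts [h.le_sz L hx, h.le_sz L' hx]
  exact h1.trans (mul_le_mul_of_nonneg_left h2 (by positivity))

section Shd

variable [FiniteDimensional ℝ F] [MeasurableSpace F] [BorelSpace F] (μ : Measure F)
  [μ.IsAddHaarMeasure]

theorem shd_pos : 0 < μ.real (shd D) :=
  ENNReal.toReal_pos (ne_zero_of μ h.pos h.shd_ball) (ne_top_of μ h.shd_bd)

theorem shd_vol_mono (hs : D' ⊆ D) : μ.real (shd D') ≤ μ.real (shd D) :=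
  measureReal_mono (shd_mono hs) (ne_top_of μ h.shd_bd)

/-- A functional under the form such that every cut along it shrinks the shadow. -/
theorem slab_fun {e : ℝ} (he : es L D ≤ e) (hδ : 0 < δ) :
    ∃ ζ : E × F →ₗ[ℝ] ℝ, (∀ x, |ζ x| ≤ ‖L x‖) ∧ ∀ D', Sym D' → D' ⊆ D → (∀ x ∈ D', |ζ x| ≤ δ) →
      sz L D * μ.real (shd D') ≤ (2 * δ + 3 * e) * 2 ^ finrank ℝ F * μ.real (shd D) := by
  have e0 : 0 ≤ e := (sz_nonneg _ _).trans he
  rcases (sz_nonneg L D).eq_or_lt with h0 | h0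
  · refine ⟨0, by simp, fun D' _ _ _ => ?_⟩
    rw [← h0, zero_mul]; positivity
  obtain ⟨k, h1, h2⟩ := exists_nat_lt h0 (show 0 < 2 * δ + 3 * e by positivity)
  obtain ⟨x0, hx0, h3⟩ := lt_sz L (by positivity) h1
  obtain ⟨ζ, h4, h5⟩ := exists_fun L x0
  refine ⟨ζ, h4, fun D' h' hs hζ => ?_⟩
  have h6 := slab μ (LinearMap.snd ℝ E F) ζ h.sym h' hs (ne_top_of μ h.shd_bd) hζ (e := e)
    (fun x hx e1 => by
      have e2 : x = (x.1, 0) := Prod.ext rfl e1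
      refine (h4 x).trans ?_
      rw [e2] at hx ⊢
      exact (h.le_es L hx).trans he) hx0 (k := k) (by rwa [h5, abs_norm])
  have h7 : 0 ≤ μ.real (shd D') := measureReal_nonneg
  calc _ ≤ (k + 1) * (2 * δ + 3 * e) * μ.real (shd D') := by gcongr
    _ = (2 * δ + 3 * e) * ((k + 1) * μ.real (shd D')) := by ring
    _ ≤ (2 * δ + 3 * e) * (2 ^ finrank ℝ F * μ.real (shd D)) :=
        mul_le_mul_of_nonneg_left h6 (by positivity)
    _ = _ := by ring

/-- The local slab lemma. -/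
theorem loc_slab (h' : Sym D') (hs : D' ⊆ D) {m : ℝ} (hm : 0 < m) (h1 : sz L D' ≤ m)
    (h2 : 3 * es L D ≤ m) :
    sz L D * μ.real (shd D') ≤ 3 * m * 2 ^ finrank ℝ F * μ.real (shd D) := by
  obtain ⟨ζ, h3, h4⟩ := h.slab_fun L μ (e := m / 3) (by linarith) hm
  have := h4 D' h' hs fun x hx =>
    (h3 x).trans ((Geo.le_sz L (fun y hy => h.bd y (hs hy)) hx).trans h1)
  convert this using 3; ring

end Shd

section Sec

variable [FiniteDimensional ℝ E] [MeasurableSpace E] [BorelSpace E] (μ : Measure E)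
  [μ.IsAddHaarMeasure]

theorem sec_pos : 0 < μ.real (sec D) :=
  ENNReal.toReal_pos (ne_zero_of μ h.pos h.sec_ball) (ne_top_of μ h.sec_bd)

theorem sec_vol_mono (hs : D' ⊆ D) : μ.real (sec D') ≤ μ.real (sec D) :=
  measureReal_mono (sec_mono hs) (ne_top_of μ h.sec_bd)

/-- A functional under the form whose cut shrinks the section. -/
theorem cut_fun (hδ : 0 < δ) :
    ∃ ζ : E × F →ₗ[ℝ] ℝ, (∀ x, |ζ x| ≤ ‖L x‖) ∧
      es L D * μ.real (sec (cutS D ζ δ)) ≤ 2 * δ * 2 ^ finrank ℝ E * μ.real (sec D) := by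
  rcases (show 0 ≤ es L D from sz_nonneg _ _).eq_or_lt with h0 | h0
  · refine ⟨0, by simp, ?_⟩
    rw [← h0, zero_mul]; positivity
  obtain ⟨k, h1, h2⟩ := exists_nat_lt h0 (show 0 < 2 * δ by positivity)
  obtain ⟨p, hp, h3⟩ := lt_sz _ (by positivity) h1
  obtain ⟨ζ, h4, h5⟩ := exists_fun L (p, 0)
  refine ⟨ζ, h4, ?_⟩
  have h6 := Geo.cut μ (ζ.comp (LinearMap.inl ℝ E F)) h.sym.sec (h.cut_sym ζ hδ.le).sec
    (sec_mono inter_subset_left) (ne_top_of μ h.sec_bd) (δ := δ) (fun x hx => hx.2) hp (k := k)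
    (by simpa [h5] using h3)
  have h7 : 0 ≤ μ.real (sec (cutS D ζ δ)) := measureReal_nonneg
  calc _ ≤ (k + 1) * (2 * δ) * μ.real (sec (cutS D ζ δ)) := by gcongr
    _ = 2 * δ * ((k + 1) * μ.real (sec (cutS D ζ δ))) := by ring
    _ ≤ 2 * δ * (2 ^ finrank ℝ E * μ.real (sec D)) :=
        mul_le_mul_of_nonneg_left h6 (by positivity)
    _ = _ := by ring

end Sec

end Ok

end State

end Pool.Agent.MP_4b405e_nt.Geo
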