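import Pool.Agent.MP_5168f5_an.H17F.KE
import Pool.Agent.MP_5168f5_an.H39F.Kit

/-! The adaptive process: abstract induction over atoms, the test step, the free cut. -/

namespace Pool.Agent.MP_5168f5_an.QA.EK

open H19 H17S H17F

variable {Ω α β Θ : Type}

theorem mi_unit (P : FP Ω) (τ : Ω → Θ) (B : Ω → β) :
    mi P τ B (fun _ => ()) = hh P τ - ch P τ B := by
  unfold mi
  rw [ch_unit, ch_congr (F := τ) (F' := τ) (G := fun ω => (B ω, ())) (G' := B) (Fn.fst _ _)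
    (Fn.fst _ _) ((Fn.rfl B).pair fun _ _ _ _ _ => rfl) (Fn.fst _ _)]

theorem mem_cv {P : FP Ω} {F : Ω → α} {ω : Ω} (h : ω ∈ P.S) (v : Ω) :
    v ∈ (cv P F (F ω)).S ↔ v ∈ P.S ∧ F v = F ω := by
  rw [KEA.cv_eq P F h]; exact CND.mem P F h

/-- The information splits along a function of `B`. -/
theorem mi_at (P : FP Ω) (τ : Ω → Θ) {B : Ω → β} {F : Ω → α} (h : Fn P F B) :
    P.E (fun ω => mi (cv P F (F ω)) τ B fun _ => ()) =
      mi P τ B (fun _ => ()) - mi P τ F fun _ => () := by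
  simp only [mi_unit]
  rw [P.E_sub, ← KEA.ent1 P F fun _ => τ, ← KEA.ent P F (fun _ => τ) fun _ => B,
    ch_congr (F := τ) (F' := τ) (G := fun ω => (B ω, F ω)) (G' := B) (Fn.fst _ _)
      (Fn.fst _ _) ((Fn.rfl B).pair h) (Fn.fst _ _)]
  ring

/-- A target that a label lowers by at most its entropy. -/
def Tgt (T : FP Ω → ℝ) : Prop :=
  ∀ (Q : FP Ω) (γ : Type) (F : Ω → γ), T Q ≤ hh Q F + Q.E fun ω => T (cv Q F (F ω))

theorem tgt_hh (X : Ω → α) : Tgt fun Q => hh Q X := by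
  intro Q γ F
  rw [← KEA.ent1 Q F fun _ => X]
  have := ch_tri' (P := Q) X (fun _ => ()) F
  rw [ch_unit, ch_unit] at this
  linarith

theorem tgt_avg {ι : Type} (I : Finset ι) (hI : I.Nonempty) (T : ι → FP Ω → ℝ)
    (h : ∀ i ∈ I, Tgt (T i)) : Tgt fun Q => (∑ i ∈ I, T i Q) / I.card := by
  intro Q γ F
  have c : (0 : ℝ) < I.card := by exact_mod_cast hI.card_pos
  have h1 : ∑ i ∈ I, T i Q ≤ ∑ i ∈ I, (hh Q F + Q.E fun ω => T i (cv Q F (F ω))) :=
    Finset.sum_le_sum fun i hi => h i hi Q γ F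
  rw [Finset.sum_add_distrib, Finset.sum_const, nsmul_eq_mul, ← Q.E_sum] at h1
  have h2 : Q.E (fun ω => (∑ i ∈ I, T i (cv Q F (F ω))) / I.card) =
      (I.card : ℝ)⁻¹ * Q.E fun ω => ∑ i ∈ I, T i (cv Q F (F ω)) := by
    rw [← Q.E_mul]; exact Q.E_congr fun ω _ => by ring
  rw [h2, div_le_iff₀ c, add_mul, mul_comm (I.card : ℝ)⁻¹, mul_assoc, inv_mul_cancel₀ c.ne']
  linarith

/-- The induction over atoms; the next state may depend on the value of the label. -/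
theorem proc {St : Type} (τ : Ω → Θ) (B : Ω → β) {T : FP Ω → ℝ} (hT : Tgt T)
    (Inv : FP Ω → St → Prop) (μ : St → ℕ) (g : St → Ω → ℝ) {c : ℝ} (hc : 0 ≤ c)
    (step : ∀ Q σ, Inv Q σ → T Q ≤ Q.E (g σ) ∨ ∃ (γ : Type) (F : Ω → γ) (s : γ → St),
      Fn Q F B ∧ (∀ ω ∈ Q.S, μ (s (F ω)) < μ σ ∧ Inv (cv Q F (F ω)) (s (F ω))) ∧
      hh Q F + Q.E (fun ω => g (s (F ω)) ω) ≤ Q.E (g σ) + c * mi Q τ F fun _ => ())
    (σ : St) (Q : FP Ω) (h : Inv Q σ) : T Q ≤ Q.E (g σ) + c * mi Q τ B fun _ => () := by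
  induction hn : μ σ using Nat.strong_induction_on generalizing σ Q with
  | _ n ih =>
    rcases step Q σ h with h1 | ⟨γ, F, s, hF, hs, h1⟩
    · have := mul_nonneg hc (mi_nonneg (P := Q) τ B fun _ => ())
      linarith
    · have h2 : Q.E (fun ω => T (cv Q F (F ω))) ≤ Q.E fun ω =>
          (cv Q F (F ω)).E (g (s (F ω))) + c * mi (cv Q F (F ω)) τ B fun _ => () :=
        Q.E_mono fun ω hω => ih _ (hn ▸ (hs ω hω).1) _ _ (hs ω hω).2 rfl
      rw [Q.E_add, Q.E_mul, mi_at Q τ hF, ← KEA.exp Q F fun v => g (s v)] at h2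
      have h3 := hT Q γ F
      linarith

/-- The induction over atoms with a next state that does not read the label. -/
theorem proc' {St : Type} (τ : Ω → Θ) (B : Ω → β) {T : FP Ω → ℝ} (hT : Tgt T)
    (Inv : FP Ω → St → Prop) (μ : St → ℕ) (g : St → Ω → ℝ) {c : ℝ} (hc : 0 ≤ c)
    (step : ∀ Q σ, Inv Q σ → T Q ≤ Q.E (g σ) ∨ ∃ (γ : Type) (F : Ω → γ) (s : St),
      Fn Q F B ∧ μ s < μ σ ∧ (∀ ω ∈ Q.S, Inv (cv Q F (F ω)) s) ∧
      hh Q F + Q.E (g s) ≤ Q.E (g σ) + c * mi Q τ F fun _ => ())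
    (σ : St) (Q : FP Ω) (h : Inv Q σ) : T Q ≤ Q.E (g σ) + c * mi Q τ B fun _ => () := by
  refine proc τ B hT Inv μ g hc (fun Q σ h => ?_) σ Q h
  rcases step Q σ h with h1 | ⟨γ, F, s, a, b, d, e⟩
  · exact Or.inl h1
  · exact Or.inr ⟨γ, F, fun _ => s, a, fun ω hω => ⟨b, d ω hω⟩, e⟩

/-- The value `θ` is atypical: a set of cells is likely given `θ` and not likely in the mean. -/
def Aty (Q : FP Ω) (τ : Ω → Θ) (D : Ω → β) (q s : ℝ) (θ : Θ) : Prop :=
  ∃ A : β → Prop, pb (cv Q τ θ) (fun v => ¬A (D v)) ≤ q ∧ s ≤ pb Q fun v => ¬A (D v)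

/-- Atypical mass is paid by information. -/
theorem tstep (Q : FP Ω) (τ : Ω → Θ) (D : Ω → β) {q s : ℝ} (hq : 0 ≤ q) (hs : 4 * q ≤ s) :
    s / 4 * pb Q (fun ω => Aty Q τ D q s (τ ω)) ≤ mi Q τ D fun _ => () := by
  classical
  have hA : ∀ θ, ∃ A : β → Prop, Aty Q τ D q s θ →
      pb (cv Q τ θ) (fun v => ¬A (D v)) ≤ q ∧ s ≤ pb Q fun v => ¬A (D v) := fun θ => by
    by_cases h : Aty Q τ D q s θ
    · obtain ⟨A, h⟩ := h
      exact ⟨A, fun _ => h⟩
    · exact ⟨fun _ => True, fun h' => absurd h' h⟩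
  choose A hA using hA
  have p0 : ∀ θ, 0 < 1 + pb Q fun v => A θ (D v) := fun θ => by
    have := pb_nonneg Q fun v => A θ (D v)
    linarith
  have key := H39F.gibbs2 Q τ D (fun θ d => if Aty Q τ D q s θ then
    (1 + if A θ d then 1 else 0) / (1 + pb Q fun v => A θ (D v)) else 1)
    (fun θ d => by
      have := p0 θ
      split_ifs <;> positivity)
    (by
      refine (Q.E_mono fun a _ => ?_).trans (Q.E_const 1).le
      by_cases h : Aty Q τ D q s (τ a)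
      · simp only [h, if_true, div_eq_inv_mul]
        rw [Q.E_mul, Q.E_add, Q.E_const]
        exact (inv_mul_cancel₀ (p0 _).ne').le
      · simp only [h, if_false]
        exact (Q.E_const 1).le)
  rw [mi_unit]
  refine le_trans ?_ key
  rw [KEA.exp Q τ fun θ ω => Real.log (if Aty Q τ D q s θ then
    (1 + if A θ (D ω) then 1 else 0) / (1 + pb Q fun v => A θ (D v)) else 1)]
  unfold pb
  rw [← Q.E_mul]
  refine Q.E_mono fun a _ => ?_
  by_cases h : Aty Q τ D q s (τ a)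
  · simp only [h, if_true, mul_one]
    obtain ⟨h1, h2⟩ := hA _ h
    have e : (cv Q τ (τ a)).E (fun ω => Real.log ((1 + if A (τ a) (D ω) then 1 else 0) /
        (1 + pb Q fun v => A (τ a) (D v)))) = lg * pb (cv Q τ (τ a)) (fun v => A (τ a) (D v)) -
          Real.log (1 + pb Q fun v => A (τ a) (D v)) := by
      rw [← FP.E_const (cv Q τ (τ a)) (Real.log _)]
      conv_rhs => unfold pb
      rw [← FP.E_mul, ← FP.E_sub]
      refine FP.E_congr _ fun ω _ => ?_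
      rw [Real.log_div (by split_ifs <;> norm_num) (p0 _).ne']
      unfold pb lg
      split_ifs <;> norm_num
    rw [pb_not] at h1 h2
    have h3 : Real.log (1 + pb Q fun v => A (τ a) (D v)) ≤ lg - s / 2 := by
      have h4 := Real.log_le_sub_one_of_pos (div_pos (p0 (τ a)) two_pos)
      rw [Real.log_div (p0 _).ne' two_ne_zero] at h4
      unfold lg
      linarith
    refine le_trans ?_ e.ge
    nlinarith [lg_pos, lg_lt_one]
  · simp only [h, if_false, mul_zero, Real.log_one]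
    exact (FP.E_const _ 0).ge

open Classical in
/-- A label that is silent on a likely event has small entropy. -/
theorem hh_opt (Q : FP Ω) (E : Ω → Prop) (f : Ω → α) (T : Finset α) {M s : ℝ} (h1 : 1 ≤ M)
    (hT : ∀ ω ∈ Q.S, ¬E ω → f ω ∈ T) (hM : (T.card : ℝ) ≤ M) (hs : pb Q (fun ω => ¬E ω) ≤ s) :
    hh Q (fun ω => if E ω then none else some (f ω)) ≤ lg + s * Real.log M := by
  have a := ch_tri (P := Q) (fun ω => if E ω then none else some (f ω)) E fun _ => ()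
  rw [ch_unit, ch_unit] at a
  have b : hh Q E ≤ lg := by
    rw [← ch_unit]
    exact ch_det (B := 2) fun _ _ => ⟨{True, False}, by simp, fun b _ _ => by
      by_cases h : E b <;> simp [h]⟩
  have c := ch_detE (P := Q) (F := fun ω => if E ω then none else some (f ω))
    (G := fun ω => (E ω, ())) (fun ω => if E ω then 1 else M)
    (fun a _ b _ e => by simp only [Prod.mk.injEq] at e; simp only [e.1])
    (fun a _ => by
      by_cases h : E a
      · refine ⟨{none}, by simp [h], fun b _ e => ?_⟩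
        simp only [Prod.mk.injEq] at e
        simp [e.1, h]
      · refine ⟨T.image some, ?_, fun b hb e => ?_⟩
        · simp only [h, if_false]
          exact le_trans (by exact_mod_cast Finset.card_image_le) hM
        · simp only [Prod.mk.injEq] at e
          have : ¬E b := e.1 ▸ h
          simp [this, hT b hb this])
  have d : Q.E (fun ω => Real.log (if E ω then 1 else M)) =
      Real.log M * pb Q fun ω => ¬E ω := by
    unfold pb
    rw [← Q.E_mul]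
    exact Q.E_congr fun ω _ => by by_cases h : E ω <;> simp [h]
  have := mul_le_mul_of_nonneg_left hs (Real.log_nonneg h1)
  linarith

/-- Reals within `w` of each other meet few intervals of length `δ`. -/
theorem few (Q : FP Ω) (φ : Ω → ℝ) {w δ : ℝ} (hδ : 0 < δ)
    (hw : ∀ a ∈ Q.S, ∀ b ∈ Q.S, |φ a - φ b| ≤ w) :
    ∃ T : Finset ℤ, (T.card : ℝ) ≤ w / δ + 2 ∧ ∀ a ∈ Q.S, ⌊φ a / δ⌋ ∈ T := by
  obtain ⟨o, ho, -⟩ := H39F.ex_ge Q fun _ => 0
  obtain ⟨m, hm, h⟩ := Q.S.exists_min_image φ ⟨o, ho⟩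
  have w0 : 0 ≤ w := (abs_nonneg _).trans (hw m hm m hm)
  have hle : ⌊φ m / δ⌋ ≤ ⌊(φ m + w) / δ⌋ := Int.floor_le_floor (by gcongr; linarith)
  refine ⟨Finset.Icc ⌊φ m / δ⌋ ⌊(φ m + w) / δ⌋, ?_, fun a ha => Finset.mem_Icc.2
    ⟨Int.floor_le_floor (by gcongr; exact h a ha), Int.floor_le_floor ?_⟩⟩
  · have e : ((Finset.Icc ⌊φ m / δ⌋ ⌊(φ m + w) / δ⌋).card : ℤ) =
        ⌊(φ m + w) / δ⌋ + 1 - ⌊φ m / δ⌋ := Int.card_Icc_of_le _ _ (by omega)
    have e' : ((Finset.Icc ⌊φ m / δ⌋ ⌊(φ m + w) / δ⌋).card : ℝ) =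
        ⌊(φ m + w) / δ⌋ + 1 - ⌊φ m / δ⌋ := by exact_mod_cast e
    have a1 := Int.floor_le ((φ m + w) / δ)
    have a2 := Int.lt_floor_add_one (φ m / δ)
    rw [add_div] at a1
    rw [e', add_div]
    linarith
  · have := (abs_le.1 (hw a ha m hm)).2
    gcongr
    linarith

/-- A cut that is known on a likely event is almost free. -/
theorem cut (Q : FP Ω) {B : Ω → β} (φ : Ω → ℝ) (E : Ω → Prop) (hφ : Fn Q φ B) (hE : Fn Q E B)
    {w δ s : ℝ} (hδ : 0 < δ) (hw : ∀ a ∈ Q.S, ∀ b ∈ Q.S, |φ a - φ b| ≤ w)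
    (hd : ∀ a ∈ Q.S, ∀ b ∈ Q.S, E a → E b → |φ a - φ b| ≤ δ) (hs : pb Q (fun ω => ¬E ω) ≤ s) :
    ∃ F : Ω → Option ℤ, Fn Q F B ∧ hh Q F ≤ lg + s * Real.log (w / δ + 2) ∧
      ∀ a ∈ Q.S, ∀ b ∈ Q.S, F a = F b → |φ a - φ b| ≤ δ := by
  classical
  obtain ⟨T, h1, h2⟩ := few Q φ hδ hw
  obtain ⟨o, ho, -⟩ := H39F.ex_ge Q fun _ => 0
  have w0 : 0 ≤ w / δ := div_nonneg ((abs_nonneg _).trans (hw o ho o ho)) hδ.le
  refine ⟨fun ω => if E ω then none else some ⌊φ ω / δ⌋, fun a ha b hb e => ?_, ?_,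
    fun a ha b hb e => ?_⟩
  · simp only [hφ a ha b hb e, hE a ha b hb e]
  · convert hh_opt Q E (fun ω => ⌊φ ω / δ⌋) T (by linarith) (fun ω hω _ => h2 ω hω) h1 hs
  · by_cases x : E a <;> by_cases y : E b <;> simp only [x, y, if_true, if_false] at e
    · exact hd a ha b hb x y
    · cases e
    · cases e
    · have := Int.abs_sub_lt_one_of_floor_eq_floor (Option.some.inj e)
      rw [← sub_div, abs_div, abs_of_pos hδ, div_lt_one hδ] at this
      exact this.le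

/-- The free cut for a typical value `θ` at which the event `G` is likely. -/
theorem kill (Q : FP Ω) (τ : Ω → Θ) {B : Ω → β} (D : Ω → α) (φ : Ω → ℝ) (G : Ω → Prop) (θ : Θ)
    (hθ : ∃ ω ∈ Q.S, τ ω = θ) (hφ : Fn Q φ B) (hD : Fn Q D B) {q s w δ x y : ℝ} (hδ : 0 < δ)
    (hxy : 2 * x + y ≤ δ) (hw : ∀ a ∈ Q.S, ∀ b ∈ Q.S, |φ a - φ b| ≤ w)
    (hx : ∀ a ∈ Q.S, ∀ b ∈ Q.S, D a = D b → |φ a - φ b| ≤ x)
    (hy : ∀ a ∈ Q.S, ∀ b ∈ Q.S, τ a = θ → τ b = θ → G a → G b → |φ a - φ b| ≤ y)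
    (hG : pb (cv Q τ θ) (fun v => ¬G v) ≤ q) (ty : ¬Aty Q τ D q s θ) :
    ∃ F : Ω → Option ℤ, Fn Q F B ∧ hh Q F ≤ lg + s * Real.log (w / δ + 2) ∧
      ∀ a ∈ Q.S, ∀ b ∈ Q.S, F a = F b → |φ a - φ b| ≤ δ := by
  obtain ⟨o, ho, rfl⟩ := hθ
  refine cut Q φ (fun v => ∃ u ∈ Q.S, τ u = τ o ∧ G u ∧ D u = D v) hφ
    (fun a ha b hb e => by simp only [hD a ha b hb e]) hδ hw ?_ ?_
  · rintro a ha b hb ⟨u, hu, u1, u2, u3⟩ ⟨v, hv, v1, v2, v3⟩
    have h1 := abs_le.1 (hx u hu a ha u3)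
    have h2 := abs_le.1 (hx v hv b hb v3)
    have h3 := abs_le.1 (hy u hu v hv u1 v1 u2 v2)
    rw [abs_le]
    constructor <;> linarith [h1.1, h1.2, h2.1, h2.2, h3.1, h3.2]
  · by_contra hn
    refine ty ⟨fun d => ∃ u ∈ Q.S, τ u = τ o ∧ G u ∧ D u = d, le_trans (pb_mono ?_) hG,
      (not_le.1 hn).le⟩
    intro v hv h1 h2
    obtain ⟨a, b⟩ := (mem_cv ho v).1 hv
    exact h1 ⟨v, a, b, h2, rfl⟩

end Pool.Agent.MP_5168f5_an.QA.EK
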