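import Pool.Agent.MP_4b405e_nt.SK.EDef

/-! The process on the side of the noise: the free cuts. -/

namespace Pool.Agent.MP_4b405e_nt.EB

open Pool.Agent.MP_5168f5_an H19 H17S H17F Real MeasureTheory Pointwise
open Geo (Sym sz es sec shd cutS payS)

variable {ι ι' γ T Ω : Type} [Fintype ι] [Fintype ι'] [Fintype γ] {X : Dat ι ι' γ T Ω} {σ : Cn}
  {Q : FP Ω} {D D' : Set (Vv ι ι')} {a : ℝ}

theorem stc_cV : 0 ≤ cV ι ι' := by unfold cV; positivity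

/-- A step to a sub-body with the same paid depth. -/
theorem stc_sub (pA : PotA) (gA : GeoA) (gS : GeoS) (gD : GeoD) (at' : Atom) (fa : Fact)
    (hy : X.Hy σ) (v : X.Val σ Q (D, a)) (ru : X.Run σ (D, a)) (hs : Sym D') (h1 : D' ⊆ D) {b : ℝ}
    (b0 : 0 ≤ b) (b1 : b ≤ 6 * σ.β) (h2 : exp (-b) • D ⊆ D')
    (sb : Sb D' (σ.dE ι ι' a (Gn D' a))) (la : La D' (σ.Λ ι ι')) (lb : X.Lb Q 2 D')
    (hμ : 1 ≤ Gn D' a - Gn D a + (X.rm σ D - X.rm σ D'))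
    (hψ : 2 + σ.w₁ * cV ι ι' ≤ (Gn D' a - Gn D a) / 4 + (cV ι ι' + 2) * (X.rm σ D - X.rm σ D')) :
    X.Next σ Q (D, a) := by
  classical
  obtain ⟨α, f, hf, hf'⟩ := lb
  have n := hy.nm
  have c0 : 0 ≤ cV ι ι' := stc_cV
  have β2 : 2 ≤ σ.β := by linarith [n.vβ]
  obtain ⟨bd', -, g1, g2, -⟩ := ((gA ι ι').2 D a v.bd).2.2.2.1 D' b hs h1 b0 h2
  have N0 : (0 : ℝ) ≤ Fintype.card ι' := Nat.cast_nonneg _
  have zz : ∀ k θ, X.z k θ D' ≤ X.z k θ D ∧ X.e k θ D' ≤ X.e k θ D ∧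
      exp (-b) * X.z k θ D ≤ X.z k θ D' := fun k θ =>
    (gS ι ι' γ T Ω X D a k θ v.bd).2.2.2.2.2.2.1 D' a _ bd' h1 (exp_pos _).le h2
  have w0 : 0 ≤ σ.w₁ := by have := n.κ0; unfold Cn.w₁; positivity
  have w1 : σ.w₁ ≤ 1 / 4 := by
    have := n.κ0
    exact one_div_le_one_div_of_le (by norm_num) (by linarith)
  have K0 : 0 ≤ σ.K ι ι' := by
    have := n.C0; have := n.ν0
    unfold Cn.K Cn.ν₁ Cn.c₂; positivity
  refine ⟨α, f, (D', a), ?_, fun ω hω => ?_, ?_⟩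
  · unfold Dat.μ; linarith
  · obtain ⟨t1, t2, t3, t4⟩ := at' ι ι' γ T Ω α X Q f σ.h σ.κ σ.r σ.L D' ω hω
    refine ⟨t1.trans v.sub, t2 hf', t3 v.lv, t4 v.ac, bd', v.a0, v.a1, ?_, sb, la⟩
    have := ru.2
    unfold Cn.Gm
    nlinarith [mul_le_mul_of_nonneg_left b1 N0]
  · have h3 : Q.E (X.ψ σ (D', a)) ≤ Q.E fun ω => X.ψ σ (D, a) ω + -2 := by
      refine Q.E_mono fun ω hω => ?_
      have re : X.Re (X.τ ω) := ⟨ω, v.sub hω, rfl⟩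
      obtain ⟨ns, -, -, al⟩ := (fa ι ι' γ T Ω X σ Q (D, a) hy v).2.2.2 _ re
      have h4 : X.pf σ (X.τ ω) D - (Gn D' a - Gn D a + cV ι ι') ≤ X.pf σ (X.τ ω) D' := by
        refine pA σ.β σ.b σ.c₂ _ X.n _ _ _ _ (by have := n.C0; unfold Cn.c₂; positivity)
          ⟨by linarith [n.b2], n.bβ, by linarith, fun i hi => ?_, fun i hi => ?_, ns,
            fun k _ => (zz k _).1, fun k hk => le_trans ?_ (zz k _).2.2, fun k hk ⟨i, hi, ik⟩ => ?_⟩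
        · obtain ⟨i1, i2⟩ := Finset.mem_filter.1 hi
          exact Finset.mem_filter.2 ⟨i1, (zz i _).2.1.trans i2⟩
        · exact hy.ok.sub i (Finset.mem_filter.1 hi).1
        · exact mul_le_mul_of_nonneg_right (exp_le_exp.2 (by linarith)) (ns.1 k)
        · exact gD ι ι' γ T Ω X D D' a σ.β σ.b k _ v.bd bd' h1 β2 (by linarith [n.bβ, n.b2])
            ((al i hi).2.2.1 k ik hk).1
      have h5 : X.Bq σ.β D' ω ≤ X.Bq σ.β D ω := by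
        refine Finset.sum_le_sum fun k _ => ?_
        by_cases h : ¬X.Gd k ω ∧ exp (-(4 * σ.β)) ≤ X.z k (X.τ ω) D'
        · rw [if_pos h, if_pos ⟨h.1, h.2.trans (zz k _).1⟩]
        · rw [if_neg h]; split_ifs <;> norm_num
      have h6 := mul_le_mul_of_nonneg_left h5 K0
      have h7 := mul_le_mul_of_nonneg_left h4 w0
      have h8 := mul_le_mul_of_nonneg_right w1 (sub_nonneg.2 g1)
      unfold Dat.ψ
      dsimp only
      linarith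
    rw [FP.E_add, FP.E_const] at h3
    have h4 := mul_nonneg K0 (mi_nonneg (P := Q) X.τ (fun ω => f (X.B ω)) fun _ => ())
    linarith

theorem stc_rm (hy : X.Hy σ) {t : ℝ} (h : lw D' ≤ lw D - t * (σ.β - cV ι ι')) :
    t ≤ X.rm σ D - X.rm σ D' := by
  have c0 : 0 ≤ cV ι ι' := stc_cV
  have p : 0 < σ.β - cV ι ι' := by linarith [hy.nm.vβ]
  unfold Dat.rm
  rw [← sub_div, le_div_iff₀ p]; linarith

theorem sStepN : SStepN := by
  rintro pA gA gS gC gD at' fa ι ι' γ T Ω _ _ _ X σ Q ⟨D, a⟩ hy v ru k θ re ⟨c1, c2, c3, c4⟩ fr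
  have n := hy.nm
  have c0 : 0 ≤ cV ι ι' := stc_cV
  have β0 : 0 ≤ σ.β := by linarith [n.vβ]
  have kI : k ∈ X.I := (Finset.mem_filter.1 c1).1
  obtain ⟨h1, h2, -⟩ := gC ι ι' γ T Ω X D a σ.β k θ v.bd β0 c3
  obtain ⟨ζ, hζ, hw⟩ := h2 c2
  obtain ⟨s1, s2, s3, s4, s5, -⟩ := h1 ζ (5 * σ.β) hζ (by linarith)
  obtain ⟨g0, -, g2, g3, -⟩ := (gA ι ι').2 D a v.bd
  obtain ⟨bd', -, g4, -⟩ := g3 _ _ s1 s2 (by linarith) s3
  obtain ⟨ω, hω, rfl⟩ := re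
  have al := (((fa ι ι' γ T Ω X σ Q (D, a) hy v).2.2.2 _ ⟨ω, hω, rfl⟩).2.2.2 k c1).1
  have rm := stc_rm (t := 1) hy (hw.trans_eq (by rw [one_mul]))
  have w1 : σ.w₁ ≤ 1 / 4 := by
    have := n.κ0
    exact one_div_le_one_div_of_le (by norm_num) (by linarith)
  refine stc_sub pA gA gS gD at' fa hy v ru s1 s2 (b := 5 * σ.β) (by linarith) (by linarith) s3
    ?_ ?_ (fr ζ hζ _ (by linarith) le_rfl) (by linarith) (by nlinarith)
  · refine (((gA ι ι').2 _ a bd').2.2.1 _ (s4 _ (exp (X.l k + σ.r)) (exp_pos _).le v.sb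
      (hy.ok.up k kI) ?_)).2 _ (by unfold Cn.dE; linarith)
    refine (mul_le_mul_of_nonneg_right (hy.ok.sz ω hω).2 (exp_pos _).le).trans ?_
    rw [← exp_add]
    refine exp_le_exp.2 ?_
    have h4 : X.l k - σ.h * X.j (X.τ ω) ≤ σ.fb ι ι' a / σ.κ := by
      rw [le_div_iff₀ n.κ0, mul_comm]; exact c4.le
    unfold Cn.dE
    dsimp only at g0 ⊢
    linarith
  · refine s5 _ _ (by unfold Cn.Λ; linarith [exp_pos (5 * σ.β + σ.r + σ.fb ι ι' 0)])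
      (exp_pos _).le v.la (hy.ok.ga ω hω k kI al) ?_
    rw [← exp_add]
    unfold Cn.Λ
    refine add_le_add le_rfl (exp_le_exp.2 ?_)
    unfold Cn.fb at c4 ⊢
    dsimp only at c4
    linarith

theorem sStepF : SStepF := by
  rintro pA gA gS gC gD at' fa ι ι' γ T Ω _ _ _ X σ Q ⟨D, a⟩ hy v ru k θ re
    ⟨c1, ⟨i, c2, ik⟩, c3, c4⟩ fr
  have n := hy.nm
  have c0 : 0 ≤ cV ι ι' := stc_cV
  have β0 : 0 ≤ σ.β := by linarith [n.vβ]
  have he := ((((fa ι ι' γ T Ω X σ Q (D, a) hy v).2.2.2 _ re).2.2.2 i c2).2.2.1 k ik c1).1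
  obtain ⟨h1, -, h2⟩ := gC ι ι' γ T Ω X D a σ.β k θ v.bd β0 c4
  obtain ⟨ζ, hζ, hw⟩ := h2 c3.le he
  obtain ⟨s1, s2, s3, -, -, s6⟩ := h1 ζ (2 * σ.β) hζ (by linarith)
  obtain ⟨-, -, -, g3, g5⟩ := (gA ι ι').2 D a v.bd
  obtain ⟨bd', -, g4, -⟩ := g3 _ _ s1 s2 (by linarith) s3
  obtain ⟨e1, e2, e3⟩ := g5 _ s2 (s6 he)
  have rm := stc_rm (t := 0) hy (e1.trans_le (by rw [zero_mul, sub_zero]))
  have w1 : σ.w₁ ≤ 1 / 4 := by
    have := n.κ0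
    exact one_div_le_one_div_of_le (by norm_num) (by linarith)
  refine stc_sub pA gA gS gD at' fa hy v ru s1 s2 (b := 2 * σ.β) (by linarith) (by linarith) s3
    ((((gA ι ι').2 _ a bd').2.2.1 _ (e2 _ v.sb)).2 _ (by unfold Cn.dE; linarith)) (e3 _ v.la)
    (fr ζ hζ _ (by linarith) (by linarith)) (by linarith [n.vβ]) (by nlinarith [n.vβ])

end Pool.Agent.MP_4b405e_nt.EB
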