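import Pool.Agent.MP_4b405e_nt.SK.EDef

/-! Steps to a sub-body at a fixed paid depth. -/

namespace Pool.Agent.MP_4b405e_nt.EB

open Pool.Agent.MP_5168f5_an H19 H17S H17F Real MeasureTheory Pointwise
open Geo (Sym sz es sec shd cutS payS)

variable {ι ι' γ T Ω : Type} [Fintype ι] [Fintype ι'] [Fintype γ]

theorem cV_ge : (4 : ℝ) ≤ cV ι ι' := by
  unfold cV
  have : (0 : ℝ) ≤ Fintype.card ι + Fintype.card ι' := by positivity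
  linarith

namespace Cn.Nm

variable {σ : Cn}

theorem β16 (h : σ.Nm ι ι') : 16 ≤ σ.β := by linarith [h.vβ, cV_ge (ι := ι) (ι' := ι')]

theorem βV (h : σ.Nm ι ι') : 0 < σ.β - cV ι ι' := by linarith [h.vβ, cV_ge (ι := ι) (ι' := ι')]

theorem w0 (h : σ.Nm ι ι') : 0 < σ.w₁ := by
  have := h.κ0
  unfold Cn.w₁; positivity

theorem w4 (h : σ.Nm ι ι') : σ.w₁ ≤ 1 / 4 := by
  have := h.κ0
  unfold Cn.w₁
  exact one_div_le_one_div_of_le (by norm_num) (by linarith)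

theorem c₂0 (h : σ.Nm ι ι') : 0 < σ.c₂ := by
  have := h.C0
  unfold Cn.c₂; positivity

theorem ν₁0 (h : σ.Nm ι ι') : 0 < σ.ν₁ := by
  have := h.c₂0
  have := h.ν0
  unfold Cn.ν₁; positivity

theorem K0 (h : σ.Nm ι ι') : 0 ≤ σ.K ι ι' := by
  have := h.ν₁0
  have := h.β16
  unfold Cn.K; positivity

end Cn.Nm

/-- A sub-body that contains the homothetic image with ratio `exp (-t)`, `t ≤ 6 β`. -/
structure Sub (β t : ℝ) (D D' : Set (Vv ι ι')) : Prop where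
  sym : Sym D'
  sub : D' ⊆ D
  t0 : 0 ≤ t
  t6 : t ≤ 6 * β
  sup : exp (-t) • D ⊆ D'

variable {X : Dat ι ι' γ T Ω} {σ : Cn} {Q : FP Ω} {s : Set (Vv ι ι') × ℝ} {D' : Set (Vv ι ι')}
  {t : ℝ}

/-- Volumes of a sub-body. -/
theorem Sub.geo (gA : GeoA) {D : Set (Vv ι ι')} {a β : ℝ} (hb : Bd D a) (u : Sub β t D D') :
    Bd D' a ∧ lw D' ≤ lw D ∧ Gn D a ≤ Gn D' a ∧ Gn D' a ≤ Gn D a + Fintype.card ι' * t ∧
      ∀ d, Sb D d → Sb D' (d + t) :=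
  ((gA ι ι').2 D a hb).2.2.2.1 D' t u.sym u.sub u.t0 u.sup

/-- Sizes in a sub-body. -/
theorem Sub.sz (gA : GeoA) (gS : GeoS) {D : Set (Vv ι ι')} {a β : ℝ} (hb : Bd D a)
    (u : Sub β t D D') (X : Dat ι ι' γ T Ω) (k : ℕ) (θ : T) :
    X.z k θ D' ≤ X.z k θ D ∧ X.e k θ D' ≤ X.e k θ D ∧ exp (-t) * X.z k θ D ≤ X.z k θ D' :=
  (gS ι ι' γ T Ω X D a k θ hb).2.2.2.2.2.2.1 D' a _ (u.geo gA hb).1 u.sub (exp_pos _).le u.sup

theorem Sub.al (gA : GeoA) (gS : GeoS) {D : Set (Vv ι ι')} {a β : ℝ} (hb : Bd D a)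
    (u : Sub β t D D') (X : Dat ι ι' γ T Ω) (θ : T) : X.Al β θ D ⊆ X.Al β θ D' := by
  intro i hi
  simp only [Dat.Al, Finset.mem_filter] at hi ⊢
  exact ⟨hi.1, (u.sz gA gS hb X i θ).2.1.trans hi.2⟩

theorem Sub.rm (gA : GeoA) (H : X.Hy σ) (V : X.Val σ Q s) (u : Sub σ.β t s.1 D') :
    X.rm σ D' ≤ X.rm σ s.1 := by
  unfold Dat.rm
  exact div_le_div_of_nonneg_right (by linarith [(u.geo gA V.bd).2.1]) H.nm.βV.le

/-- The bad mass of the boxes that are alive does not grow. -/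
theorem Sub.bq (gA : GeoA) (gS : GeoS) {D : Set (Vv ι ι')} {a β : ℝ} (hb : Bd D a)
    (u : Sub β t D D') (X : Dat ι ι' γ T Ω) (ω : Ω) : X.Bq β D' ω ≤ X.Bq β D ω := by
  unfold Dat.Bq
  refine Finset.sum_le_sum fun k _ => ?_
  split_ifs with h1 h2
  · exact le_rfl
  · exact (h2 ⟨h1.1, h1.2.trans (u.sz gA gS hb X k _).1⟩).elim
  · exact zero_le_one
  · exact le_rfl

/-- The potential of a form after a step to a sub-body. -/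
theorem Sub.pf (pA : PotA) (gA : GeoA) (gS : GeoS) (fa : Fact) (H : X.Hy σ) (V : X.Val σ Q s)
    (u : Sub σ.β t s.1 D') {θ : T} (hθ : X.Re θ) {Δ : ℝ} (h0 : 0 ≤ Δ)
    (hd : ∀ k < X.n, (∃ i ∈ X.Al σ.β θ s.1, i ≤ k) →
      cl (-σ.β) (-σ.b) (X.z k θ s.1) - cl (-σ.β) (-σ.b) (X.z k θ D') ≤ Δ) :
    X.pf σ θ s.1 - Δ ≤ X.pf σ θ D' := by
  have F := ((fa ι ι' γ T Ω X σ Q s H V).2.2.2 θ hθ).1
  refine pA σ.β σ.b σ.c₂ Δ X.n _ _ _ _ H.nm.c₂0.le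
    ⟨by linarith [H.nm.b2], H.nm.bβ, h0, u.al gA gS V.bd X θ, fun i hi => ?_, F,
      fun k _ => (u.sz gA gS V.bd X k θ).1, fun k _ => ?_, hd⟩
  · exact H.ok.sub i (Finset.mem_filter.1 hi).1
  · exact (mul_le_mul_of_nonneg_right (exp_le_exp.2 (by linarith [u.t6])) (F.1 k)).trans
      (u.sz gA gS V.bd X k θ).2.2

/-- The drop of the clamps through the local slab lemma. -/
theorem Sub.pfD (pA : PotA) (gA : GeoA) (gS : GeoS) (gD : GeoD) (fa : Fact) (H : X.Hy σ)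
    (V : X.Val σ Q s) (u : Sub σ.β t s.1 D') {θ : T} (hθ : X.Re θ) :
    X.pf σ θ s.1 - (Gn D' s.2 - Gn s.1 s.2 + cV ι ι') ≤ X.pf σ θ D' := by
  have G := u.geo gA V.bd
  have hv := cV_ge (ι := ι) (ι' := ι')
  refine u.pf pA gA gS fa H V hθ (by linarith [G.2.2.1]) fun k hk ⟨i, hi, hik⟩ => ?_
  have F := (((fa ι ι' γ T Ω X σ Q s H V).2.2.2 θ hθ).2.2.2 i hi).2.2.1 k hik hk
  exact gD ι ι' γ T Ω X s.1 D' s.2 σ.β σ.b k θ V.bd G.1 u.sub (by linarith [H.nm.β16])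
    (by linarith [H.nm.bβ, H.nm.b2]) F.1

/-- A ball in the section at the old depth is a ball at the new depth. -/
theorem Sub.sb (gA : GeoA) (V : X.Val σ Q s) (u : Sub σ.β t s.1 D') {d : ℝ} (h : Sb D' d)
    (hd : d ≤ σ.dE ι ι' s.2 (Gn s.1 s.2) + (Gn D' s.2 - Gn s.1 s.2)) :
    Sb D' (σ.dE ι ι' s.2 (Gn D' s.2)) := by
  refine (((gA ι ι').2 D' s.2 (u.geo gA V.bd).1).2.2.1 d h).2 _ ?_
  unfold Cn.dE at hd ⊢
  linarith

/-- The atoms of a label are valid for the sub-body. -/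
theorem Sub.val (gA : GeoA) (at' : Atom) (V : X.Val σ Q s) (R : X.Run σ s)
    (u : Sub σ.β t s.1 D') (hs : Sb D' (σ.dE ι ι' s.2 (Gn D' s.2))) (hl : La D' (σ.Λ ι ι'))
    {α : Type} {f : Vv ι ι' → α}
    (hf : ∀ ω ∈ Q.S, ∀ ω' ∈ Q.S, f (X.B ω) = f (X.B ω') → X.B ω - X.B ω' ∈ D') :
    ∀ ω ∈ Q.S, X.Val σ (cv Q (fun ω => f (X.B ω)) (f (X.B ω))) (D', s.2) := by
  intro ω hω
  have A := at' ι ι' γ T Ω α X Q f σ.h σ.κ σ.r σ.L D' ω hω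
  have G := u.geo gA V.bd
  refine ⟨A.1.trans V.sub, A.2.1 hf, A.2.2.1 V.lv, A.2.2.2 V.ac, G.1, V.a0, V.a1, ?_, hs, hl⟩
  have h1 : (Fintype.card ι' : ℝ) * t ≤ Fintype.card ι' * (6 * σ.β) :=
    mul_le_mul_of_nonneg_left u.t6 (by positivity)
  have h2 := R.2
  have h3 := G.2.2.2.1
  show Gn D' s.2 ≤ σ.Gm ι'
  unfold Cn.Gm
  linarith

/-- The step to a sub-body. -/
theorem Sub.next (gA : GeoA) (at' : Atom) (H : X.Hy σ) (V : X.Val σ Q s) (R : X.Run σ s)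
    (u : Sub σ.β t s.1 D') (hs : Sb D' (σ.dE ι ι' s.2 (Gn D' s.2))) (hl : La D' (σ.Λ ι ι'))
    {α : Type} {f : Vv ι ι' → α}
    (hf : ∀ ω ∈ Q.S, ∀ ω' ∈ Q.S, f (X.B ω) = f (X.B ω') → X.B ω - X.B ω' ∈ D') {Δ : ℝ}
    (hp : ∀ θ, X.Re θ → X.pf σ θ s.1 - Δ ≤ X.pf σ θ D')
    (hμ : 1 ≤ Gn D' s.2 - Gn s.1 s.2 + (X.rm σ s.1 - X.rm σ D'))
    (hc : hh Q (fun ω => f (X.B ω)) + σ.w₁ * Δ ≤ (Gn D' s.2 - Gn s.1 s.2) / 2 +
      (cV ι ι' + 2) * (X.rm σ s.1 - X.rm σ D') +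
      σ.K ι ι' * (Q.E (X.Bq σ.β s.1) - Q.E (X.Bq σ.β D') +
        mi Q X.τ (fun ω => f (X.B ω)) fun _ => ())) :
    X.Next σ Q s := by
  refine ⟨α, f, (D', s.2), ?_, u.val gA at' V R hs hl hf, ?_⟩
  · unfold Dat.μ
    dsimp only
    linarith
  · have h1 : Q.E (X.ψ σ (D', s.2)) ≤ Q.E fun ω => X.ψ σ s ω +
        ((σ.w₁ * Δ - (Gn D' s.2 - Gn s.1 s.2) / 2 - (cV ι ι' + 2) * (X.rm σ s.1 - X.rm σ D')) -
          σ.K ι ι' * (X.Bq σ.β s.1 ω - X.Bq σ.β D' ω)) := by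
      refine FP.E_mono _ fun ω hω => ?_
      have := mul_le_mul_of_nonneg_left (hp (X.τ ω) ⟨ω, V.sub hω, rfl⟩) H.nm.w0.le
      unfold Dat.ψ
      dsimp only
      linarith
    rw [FP.E_add, FP.E_sub, FP.E_const, FP.E_mul, FP.E_sub] at h1
    linarith

/-- The step to a sub-body that is paid by the gain and by the room alone. -/
theorem Sub.free (pA : PotA) (gA : GeoA) (gS : GeoS) (gD : GeoD) (at' : Atom) (fa : Fact)
    (H : X.Hy σ) (V : X.Val σ Q s) (R : X.Run σ s)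
    (u : Sub σ.β t s.1 D') (hs : Sb D' (σ.dE ι ι' s.2 (Gn D' s.2))) (hl : La D' (σ.Λ ι ι'))
    (lb : X.Lb Q 2 D')
    (hg : cV ι ι' + 8 ≤ Gn D' s.2 - Gn s.1 s.2 ∨ 1 ≤ X.rm σ s.1 - X.rm σ D') :
    X.Next σ Q s := by
  obtain ⟨α, f, h2, hf⟩ := lb
  have G := (u.geo gA V.bd).2.2.1
  have hv := cV_ge (ι := ι) (ι' := ι')
  have hr := u.rm gA H V
  refine u.next gA at' H V R hs hl hf (fun θ hθ => u.pfD pA gA gS gD fa H V hθ)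
    (by rcases hg with c | c <;> linarith) ?_
  have h1 : 0 ≤ σ.K ι ι' * (Q.E (X.Bq σ.β s.1) - Q.E (X.Bq σ.β D') +
      mi Q X.τ (fun ω => f (X.B ω)) fun _ => ()) :=
    mul_nonneg H.nm.K0 (add_nonneg
      (sub_nonneg.2 (FP.E_mono _ fun ω _ => u.bq gA gS V.bd X ω)) (mi_nonneg _ _ _))
  have h3 : σ.w₁ * (Gn D' s.2 - Gn s.1 s.2 + cV ι ι') ≤
      1 / 4 * (Gn D' s.2 - Gn s.1 s.2 + cV ι ι') :=
    mul_le_mul_of_nonneg_right H.nm.w4 (by linarith)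
  rcases hg with c | c
  · have : 0 ≤ (cV ι ι' + 2) * (X.rm σ s.1 - X.rm σ D') := mul_nonneg (by linarith) (by linarith)
    linarith
  · have : cV ι ι' + 2 ≤ (cV ι ι' + 2) * (X.rm σ s.1 - X.rm σ D') :=
      le_mul_of_one_le_right (by linarith) c
    linarith

end Pool.Agent.MP_4b405e_nt.EB
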