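import Mathlib

/-! Graded matrices: words, exponentials, approximate characters. -/

namespace Pool.Agent.MP_4b405e_nt.FA

open Finset Matrix Real

variable {al nu : Type} [Fintype al] [Fintype nu] [DecidableEq nu]

/-- The letter `a` raises the weight by `et a`. -/
def Gr (et : al → ℝ) (wt : nu → ℝ) (rho : al → Matrix nu nu ℝ) : Prop :=
  ∀ a p q, rho a p q ≠ 0 → wt p = wt q + et a

/-- The matrix of the element with coordinates `b`. -/
def Rm (rho : al → Matrix nu nu ℝ) (b : al → ℝ) : Matrix nu nu ℝ := ∑ a, b a • rho a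

/-- The truncated exponential of `-Rm rho b`. -/
noncomputable def Lm (rho : al → Matrix nu nu ℝ) (b : al → ℝ) : Matrix nu nu ℝ :=
  ∑ k ∈ range (Fintype.card nu), ((k.factorial : ℝ)⁻¹) • (-Rm rho b) ^ k

variable {et : al → ℝ} {wt : nu → ℝ} {rho : al → Matrix nu nu ℝ} {b : al → ℝ} {ξ : nu → ℝ}

omit [Fintype nu] [DecidableEq nu] in
theorem Rm_apply (p q : nu) : Rm rho b p q = ∑ a, b a * rho a p q := by
  simp [Rm, Matrix.sum_apply]

omit [Fintype nu] [DecidableEq nu] in
theorem Rm_lt (hg : Gr et wt rho) (he : ∀ a, 0 < et a) {p q : nu} (h : Rm rho b p q ≠ 0) :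
    wt q < wt p := by
  rw [Rm_apply] at h
  obtain ⟨a, -, ha⟩ := exists_ne_zero_of_sum_ne_zero h
  linarith [hg a p q (right_ne_zero_of_mul ha), he a]

theorem pow_lt (hg : Gr et wt rho) (he : ∀ a, 0 < et a) (k : ℕ) :
    ∀ {p q : nu}, ((-Rm rho b) ^ (k + 1)) p q ≠ 0 → wt q < wt p := by
  induction k with
  | zero => exact fun h => Rm_lt (b := b) hg he (by simpa using h)
  | succ k ih =>
    intro p q h
    rw [pow_succ, mul_apply] at h
    obtain ⟨s, -, hs⟩ := exists_ne_zero_of_sum_ne_zero h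
    exact (Rm_lt (b := b) hg he (by simpa using right_ne_zero_of_mul hs)).trans
      (ih (left_ne_zero_of_mul hs))

omit [Fintype nu] [DecidableEq nu] in
theorem Rm_abs (hg : Gr et wt rho) {B y : ℝ} (hB : 0 ≤ B) (hr : ∀ a p q, |rho a p q| ≤ B)
    (hb : ∀ a, |b a| ≤ B * exp (-(et a * y))) (p q : nu) :
    |Rm rho b p q| ≤ Fintype.card al * B ^ 2 * exp (-((wt p - wt q) * y)) := by
  rw [Rm_apply]
  refine (abs_sum_le_sum_abs _ _).trans ((sum_le_card_nsmul _ _
    (B ^ 2 * exp (-((wt p - wt q) * y))) fun a _ => ?_).trans_eq (by simp [mul_assoc]))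
  by_cases h : rho a p q = 0
  · rw [h, mul_zero, abs_zero]; positivity
  · rw [abs_mul, hg a p q h, add_sub_cancel_left]
    calc _ ≤ B * exp (-(et a * y)) * B :=
          mul_le_mul (hb a) (hr a p q) (abs_nonneg _) (by positivity)
      _ = _ := by ring

theorem pow_abs (hg : Gr et wt rho) {B y : ℝ} (hB : 0 ≤ B) (hr : ∀ a p q, |rho a p q| ≤ B)
    (hb : ∀ a, |b a| ≤ B * exp (-(et a * y))) (k : ℕ) : ∀ p q : nu,
    |((-Rm rho b) ^ k) p q| ≤
      (Fintype.card nu * (Fintype.card al * B ^ 2)) ^ k * exp (-((wt p - wt q) * y)) := by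
  induction k with
  | zero =>
    intro p q
    by_cases h : p = q
    · simp [h]
    · simp [h, (exp_pos _).le]
  | succ k ih =>
    intro p q
    rw [pow_succ, mul_apply]
    refine (abs_sum_le_sum_abs _ _).trans ((sum_le_card_nsmul _ _ ((Fintype.card nu *
      (Fintype.card al * B ^ 2)) ^ k * (Fintype.card al * B ^ 2) * exp (-((wt p - wt q) * y)))
      fun s _ => ?_).trans_eq (by rw [card_univ, nsmul_eq_mul]; ring))
    rw [abs_mul, neg_apply, abs_neg]
    refine (mul_le_mul (ih p s) (Rm_abs hg hB hr hb s q) (abs_nonneg _) (by positivity)).trans_eq ?_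
    rw [show -((wt p - wt q) * y) = -((wt p - wt s) * y) + -((wt s - wt q) * y) by ring, exp_add]
    ring

/-- The constant of the word estimates. -/
noncomputable def cW (al nu : Type) [Fintype al] [Fintype nu] (B : ℝ) : ℝ :=
  Fintype.card nu * (Fintype.card nu * (Fintype.card al * B ^ 2)) ^ Fintype.card nu

omit [DecidableEq nu] in
theorem one_le_base [Nonempty al] [Nonempty nu] {B : ℝ} (hB : 1 ≤ B) :
    (1 : ℝ) ≤ Fintype.card nu * (Fintype.card al * B ^ 2) :=
  one_le_mul_of_one_le_of_one_le (by exact_mod_cast Fintype.card_pos)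
    (one_le_mul_of_one_le_of_one_le (by exact_mod_cast Fintype.card_pos) (one_le_pow₀ hB))

theorem inv_fac (k : ℕ) : |((k.factorial : ℝ)⁻¹)| ≤ 1 := by
  rw [abs_of_nonneg (by positivity)]
  exact inv_le_one_of_one_le₀ (by exact_mod_cast k.factorial_pos)

/-- The size of the entries of the exponential. -/
theorem Lm_abs [Nonempty al] (hg : Gr et wt rho) {B y : ℝ} (hB : 1 ≤ B)
    (hr : ∀ a p q, |rho a p q| ≤ B) (hb : ∀ a, |b a| ≤ B * exp (-(et a * y))) (p q : nu) :
    |Lm rho b p q| ≤ cW al nu B * exp (-((wt p - wt q) * y)) := by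
  have : Nonempty nu := ⟨p⟩
  rw [Lm, Matrix.sum_apply]
  refine (abs_sum_le_sum_abs _ _).trans ((sum_le_card_nsmul _ _ ((Fintype.card nu *
    (Fintype.card al * B ^ 2)) ^ Fintype.card nu * exp (-((wt p - wt q) * y)))
      fun k hk => ?_).trans_eq (by rw [card_range, nsmul_eq_mul, cW]; ring))
  rw [Matrix.smul_apply, smul_eq_mul, abs_mul]
  refine (mul_le_of_le_one_left (abs_nonneg _) (inv_fac k)).trans
    ((pow_abs hg (by linarith) hr hb k p q).trans ?_)
  exact mul_le_mul_of_nonneg_right (pow_le_pow_right₀ (one_le_base hB) (mem_range.1 hk).le)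
    (exp_pos _).le

omit [DecidableEq nu] [Fintype al] in
theorem vec_wt (hg : Gr et wt rho) {mu : ℝ} (hξ : ∀ p, ξ p ≠ 0 → wt p = mu) {a : al} {q : nu}
    (h : (ξ ᵥ* rho a) q ≠ 0) : mu = wt q + et a := by
  obtain ⟨p, -, hp⟩ := exists_ne_zero_of_sum_ne_zero h
  rw [← hξ p (left_ne_zero_of_mul hp), hg a p q (right_ne_zero_of_mul hp)]

omit [DecidableEq nu] in
theorem vec_Rm (q : nu) : (ξ ᵥ* Rm rho b) q = ∑ a, b a * (ξ ᵥ* rho a) q := by
  simp only [vecMul, dotProduct, Rm_apply, mul_sum]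
  rw [sum_comm]
  exact sum_congr rfl fun a _ => sum_congr rfl fun p _ => by ring

/-- If the letters above the weight of `q` are small then only single letters act. -/
theorem word [Nonempty al] (hg : Gr et wt rho) (he : ∀ a, 0 < et a) {B y mu δ : ℝ} (hB : 1 ≤ B)
    (hr : ∀ a p q, |rho a p q| ≤ B) (hb : ∀ a, |b a| ≤ B * exp (-(et a * y)))
    (hξ : ∀ p, ξ p ≠ 0 → wt p = mu) {q : nu} (hq : wt q < mu) (h0 : 0 ≤ δ)
    (hδ : ∀ a s, wt q < wt s → |(ξ ᵥ* rho a) s| ≤ δ) :
    |(ξ ᵥ* Lm rho b) q + ∑ a, b a * (ξ ᵥ* rho a) q| ≤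
      δ * cW al nu B * exp (-((mu - wt q) * y)) := by
  have : Nonempty nu := ⟨q⟩
  have B1 := one_le_base (al := al) (nu := nu) hB
  by_cases hz : ξ = 0
  · simp only [hz, zero_vecMul, Pi.zero_apply, mul_zero, sum_const_zero, add_zero, abs_zero, cW]
    positivity
  obtain ⟨p, hp⟩ := Function.ne_iff.1 hz
  have hn : 1 < Fintype.card nu := Fintype.one_lt_card_iff.2 ⟨p, q, by
    rintro rfl
    exact hq.ne (hξ p hp)⟩
  have h1 : ∀ s, wt q < wt s →
      |(ξ ᵥ* Rm rho b) s| ≤ δ * (Fintype.card al * B ^ 2) * exp (-((mu - wt s) * y)) := by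
    intro s hs
    rw [vec_Rm]
    refine (abs_sum_le_sum_abs _ _).trans ((sum_le_card_nsmul _ _
      (δ * B ^ 2 * exp (-((mu - wt s) * y))) fun a _ => ?_).trans_eq
        (by rw [card_univ, nsmul_eq_mul]; ring))
    by_cases h : (ξ ᵥ* rho a) s = 0
    · rw [h, mul_zero, abs_zero]; positivity
    · rw [abs_mul, vec_wt hg hξ h, add_sub_cancel_left]
      calc _ ≤ B * exp (-(et a * y)) * δ :=
            mul_le_mul (hb a) (hδ a s hs) (abs_nonneg _) (by positivity)
        _ ≤ B ^ 2 * exp (-(et a * y)) * δ := by gcongr; nlinarith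
        _ = _ := by ring
  have h2 : ∀ k, |(ξ ᵥ* (-Rm rho b) ^ (k + 1 + 1)) q| ≤ δ * (Fintype.card nu *
      (Fintype.card al * B ^ 2)) ^ (k + 1 + 1) * exp (-((mu - wt q) * y)) := fun k => by
    rw [pow_succ', ← vecMul_vecMul]
    refine (abs_sum_le_sum_abs _ _).trans ((sum_le_card_nsmul _ _ (δ * (Fintype.card al * B ^ 2) *
      (Fintype.card nu * (Fintype.card al * B ^ 2)) ^ (k + 1) * exp (-((mu - wt q) * y)))
      fun s _ => ?_).trans_eq (by rw [card_univ, nsmul_eq_mul]; ring))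
    by_cases h : ((-Rm rho b) ^ (k + 1)) s q = 0
    · simp only [h, mul_zero, abs_zero]; positivity
    · rw [abs_mul, vecMul_neg, Pi.neg_apply, abs_neg]
      refine (mul_le_mul (h1 s (pow_lt hg he k h)) (pow_abs hg (by linarith) hr hb (k + 1) s q)
        (abs_nonneg _) (by positivity)).trans_eq ?_
      rw [show -((mu - wt q) * y) = -((mu - wt s) * y) + -((wt s - wt q) * y) by ring, exp_add]
      ring
  have h3 : ξ q = 0 := by_contra fun e => hq.ne (hξ q e)
  obtain ⟨n, e⟩ : ∃ n, Fintype.card nu = n + 1 + 1 := ⟨Fintype.card nu - 2, by omega⟩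
  have h4 : (ξ ᵥ* Lm rho b) q + ∑ a, b a * (ξ ᵥ* rho a) q = ∑ k ∈ range n,
      (((k + 1 + 1).factorial : ℝ)⁻¹) * (ξ ᵥ* (-Rm rho b) ^ (k + 1 + 1)) q := by
    rw [Lm, e, sum_range_succ', sum_range_succ', ← vec_Rm, vecMul_add, vecMul_add, vecMul_sum]
    simp [vecMul_smul, vecMul_neg, h3]
  rw [h4]
  refine (abs_sum_le_sum_abs _ _).trans ((sum_le_card_nsmul _ _ (δ * (Fintype.card nu *
    (Fintype.card al * B ^ 2)) ^ Fintype.card nu * exp (-((mu - wt q) * y)))
      fun k hk => ?_).trans ?_)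
  · rw [abs_mul]
    refine (mul_le_of_le_one_left (abs_nonneg _) (inv_fac _)).trans ((h2 k).trans ?_)
    have := mem_range.1 hk
    gcongr
    omega
  · rw [card_range, nsmul_eq_mul, cW]
    have : (n : ℝ) ≤ Fintype.card nu := by exact_mod_cast (by omega : n ≤ Fintype.card nu)
    calc _ ≤ Fintype.card nu * (δ * (Fintype.card nu * (Fintype.card al * B ^ 2)) ^
          Fintype.card nu * exp (-((mu - wt q) * y))) := by gcongr
      _ = _ := by ring

omit [DecidableEq nu] in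
/-- Under the same hypothesis the column `q` is an approximate character. -/
theorem char (hg : Gr et wt rho) (he : ∀ a, 0 < et a) {B δ lam : ℝ} {c : al → al → al → ℝ}
    (hr : ∀ a p q, |rho a p q| ≤ B) (h1 : ∑ p, |ξ p| ≤ 1) {q : nu} (h0 : 0 ≤ δ) (hl : 0 ≤ lam)
    (hδ : ∀ a s, wt q < wt s → |(ξ ᵥ* rho a) s| ≤ δ) (a a' : al)
    (hc : ∀ p, |(rho a * rho a' - rho a' * rho a - ∑ e, c a a' e • rho e) p q| ≤ lam) :
    |∑ e, c a a' e * (ξ ᵥ* rho e) q| ≤ 2 * (Fintype.card nu * B * δ) + lam := by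
  have B0 : 0 ≤ B := (abs_nonneg _).trans (hr a q q)
  have k1 : ∀ a a', |(ξ ᵥ* (rho a * rho a')) q| ≤ Fintype.card nu * B * δ := fun a a' => by
    rw [← vecMul_vecMul]
    refine (abs_sum_le_sum_abs _ _).trans ((sum_le_card_nsmul _ _ (B * δ)
      fun s _ => ?_).trans_eq (by rw [card_univ, nsmul_eq_mul]; ring))
    by_cases h : rho a' s q = 0
    · simp only [h, mul_zero, abs_zero]; positivity
    · rw [abs_mul, mul_comm]
      exact mul_le_mul (hr _ _ _) (hδ a s (by linarith [hg a' s q h, he a'])) (abs_nonneg _) B0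
  have k2 : |(ξ ᵥ* (rho a * rho a' - rho a' * rho a - Rm rho (c a a'))) q| ≤ lam := by
    refine (abs_sum_le_sum_abs _ _).trans ((sum_le_sum (g := fun p => |ξ p| * lam)
      fun p _ => ?_).trans ?_)
    · rw [abs_mul]
      exact mul_le_mul_of_nonneg_left (hc p) (abs_nonneg _)
    · rw [← sum_mul]
      exact mul_le_of_le_one_left hl h1
  rw [vecMul_sub, vecMul_sub, Pi.sub_apply, Pi.sub_apply, vec_Rm, abs_le] at k2
  have k3 := abs_le.1 (k1 a a')
  have k4 := abs_le.1 (k1 a' a)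
  rw [abs_le]
  constructor <;> linarith

omit [DecidableEq nu] in
/-- Either everything is below its threshold or there is a highest weight where this fails. -/
theorem least {σ : ℝ → ℝ} (n : nu → ℝ) (S : nu → Prop) :
    (∀ q, S q → n q ≤ σ (wt q)) ∨
      ∃ q, S q ∧ σ (wt q) < n q ∧ ∀ s, S s → wt q < wt s → n s ≤ σ (wt s) := by
  classical
  by_cases h : (univ.filter fun q => S q ∧ σ (wt q) < n q).Nonempty
  · obtain ⟨q, hq, hm⟩ := exists_max_image _ wt h
    exact Or.inr ⟨q, (mem_filter.1 hq).2.1, (mem_filter.1 hq).2.2, fun s hs hw =>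
      le_of_not_gt fun e => (hm s (mem_filter.2 ⟨mem_univ _, hs, e⟩)).not_gt hw⟩
  · exact Or.inl fun q hq => le_of_not_gt fun e => h ⟨q, mem_filter.2 ⟨mem_univ _, hq, e⟩⟩

end Pool.Agent.MP_4b405e_nt.FA
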