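import Pool.Agent.MP_4b405e_nt.SK.FDef
import Pool.Agent.MP_4b405e_nt.SK.FAlg
import Pool.Agent.MP_5168f5_an.H17F.KE

/-! The first weight at which a functional does not kill the letters is seen by the noise. -/

namespace Pool.Agent.MP_4b405e_nt.FB

open Pool.Agent.MP_5168f5_an H19 H17S H17F Real Matrix Finset

variable {α ν : Type} [Fintype α] [Fintype ν] {σ : Bc α ν} {X : Bd α ν}

theorem pb_cv {Ω T : Type} (P : FP Ω) (Θ : Ω → T) (E : Ω → Prop) :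
    pb P E = P.E fun a => pb (cv P Θ (Θ a)) E :=
  KEA.exp P Θ fun _ ω => @ite ℝ (E ω) (Classical.propDecidable _) 1 0

namespace Bd

/-- The letters are small on all coordinates of weight above `x`. -/
def Up (σ : Bc α ν) (X : Bd α ν) (h : ℝ) (ω : X.Ω) (ξ : ν → ℝ) (x : ℝ) : Prop :=
  ∀ a s, x < σ.wt s → |(ξ ᵥ* X.ρ ω a) s| ≤ exp (-h)

variable {e h m : ℝ} {ω : X.Ω} {ξ : ν → ℝ}

theorem Pt.gr' (t : X.Pt σ e ω) : FA.Gr σ.et σ.wt (X.ρ ω) :=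
  fun a p q h => (t.gr a p q h).1

theorem vec_R (ω : X.Ω) (ξ : ν → ℝ) (q : ν) :
    (ξ ᵥ* X.R ω) q = ∑ a, X.b ω a * (ξ ᵥ* X.ρ ω a) q := FA.vec_Rm q

theorem R_abs (t : X.Pt σ e ω) (hξ : ∀ p, ξ p ≠ 0 → σ.wt p = m) {s : ν} {d : ℝ} (h0 : 0 ≤ d)
    (hd : ∀ a, |(ξ ᵥ* X.ρ ω a) s| ≤ d) :
    |(ξ ᵥ* X.R ω) s| ≤ Fintype.card α * (d * exp (e - (m - σ.wt s) * X.j ω)) := by
  rw [vec_R]
  refine (abs_sum_le_sum_abs _ _).trans ((sum_le_card_nsmul _ _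
    (d * exp (e - (m - σ.wt s) * X.j ω)) fun a _ => ?_).trans_eq (by rw [card_univ, nsmul_eq_mul]))
  by_cases h : (ξ ᵥ* X.ρ ω a) s = 0
  · rw [h, mul_zero, abs_zero]; positivity
  · rw [abs_mul, FA.vec_wt t.gr' hξ h, add_sub_cancel_left, mul_comm]
    exact mul_le_mul (hd a) (t.bb a) (abs_nonneg _) h0

/-- Only single letters act. -/
theorem word (t : X.Pt σ e ω) (hξ : ∀ p, ξ p ≠ 0 → σ.wt p = m) {q : ν}
    (up : X.Up σ h ω ξ (σ.wt q)) : |(ξ ᵥ* (X.R ω * X.W ω)) q| ≤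
      Fintype.card ν * Fintype.card α * exp (2 * e - h - (m - σ.wt q) * X.j ω) := by
  rw [← vecMul_vecMul]
  refine (abs_sum_le_sum_abs _ _).trans ((sum_le_card_nsmul _ _
    (Fintype.card α * exp (2 * e - h - (m - σ.wt q) * X.j ω)) fun s _ => ?_).trans_eq
      (by rw [card_univ, nsmul_eq_mul, mul_assoc]))
  by_cases hz : X.W ω s q = 0
  · simp only [hz, mul_zero, abs_zero]; positivity
  · rw [abs_mul]
    refine (mul_le_mul (R_abs t hξ (exp_pos _).le fun a => up a s (t.gW s q hz).1) (t.bW s q)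
      (abs_nonneg _) (by positivity)).trans_eq ?_
    rw [mul_assoc, ← exp_add, ← exp_add]
    congr 2
    ring

/-- The column `q` is an approximate character. -/
theorem chr (o : σ.Ok) (t : X.Pt σ e ω) (h1 : ∑ p, |ξ p| ≤ 1) {q : ν}
    (up : X.Up σ h ω ξ (σ.wt q)) (a a' : α) :
    |∑ a'', X.c ω a a' a'' * (ξ ᵥ* X.ρ ω a'') q| ≤
      2 * (Fintype.card ν * exp (e - h)) + exp (-(2 * X.u)) := by
  rw [sub_eq_add_neg, exp_add, ← mul_assoc (Fintype.card ν : ℝ)]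
  exact FA.char t.gr' o.et0 t.rb h1 (exp_pos _).le (exp_pos _).le up a a' fun p => by
    simpa [Matrix.sum_apply] using t.lie a a' p q

theorem Ok.fn_ρ (k : X.Ok σ e) : Fn X.P X.ρ (X.Y σ) := fun a ha b hb E => by
  simp only [Y, Prod.mk.injEq] at E
  funext c p q
  by_cases hq : q = σ.o
  · subst hq
    exact congrFun (congrFun E.2.2.2 c) p
  · exact k.fρ c p q hq a ha b hb (Prod.ext E.1 E.2.1)

/-- Characters read from the base point and the level are not thin. -/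
theorem Ac.thin {r δ : ℝ} (A : X.Ac σ r δ) (h0 : 0 ≤ δ) {χ : X.Ω → α → ℝ}
    (f : Fn X.P χ fun ω => (X.Y σ ω, X.j ω)) :
    pb X.P (fun ω => X.Chr (2 * r * X.u) ω (χ ω) ∧
      |∑ a, χ ω a * (exp (σ.et a * X.j ω) * X.b ω a)| ≤ exp (-(r * X.u))) ≤ 2 * δ := by
  classical
  rw [pb_split _ _ (X.Bad σ r δ)]
  have h1 := (pb_mono (P := X.P) (E := fun ω => (X.Chr (2 * r * X.u) ω (χ ω) ∧
    |∑ a, χ ω a * (exp (σ.et a * X.j ω) * X.b ω a)| ≤ exp (-(r * X.u))) ∧ X.Bad σ r δ ω)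
    fun _ _ h => h.2).trans A
  have h2 : pb X.P (fun ω => (X.Chr (2 * r * X.u) ω (χ ω) ∧
      |∑ a, χ ω a * (exp (σ.et a * X.j ω) * X.b ω a)| ≤ exp (-(r * X.u))) ∧
        ¬X.Bad σ r δ ω) ≤ δ := by
    refine (pb_cv X.P (fun ω => (X.Y σ ω, X.j ω)) _).trans_le
      ((X.P.E_mono fun ω hω => ?_).trans_eq (X.P.E_const δ))
    have mem := mem_cE (E := fun v => (X.Y σ v, X.j v) = (X.Y σ ω, X.j ω)) ⟨ω, hω, rfl⟩
    by_contra hc
    obtain ⟨v, hv, a1, a2⟩ := ex_of_pb (h0.trans_lt (not_le.1 hc))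
    obtain ⟨v1, v2⟩ := (mem v).1 hv
    refine a2 ⟨χ v, a1.1, (not_le.1 hc).trans_le ?_⟩
    rw [v2]
    refine pb_mono fun x hx b => ?_
    obtain ⟨x1, x2⟩ := (mem x).1 hx
    rw [f v v1 x x1 (v2.trans x2.symm)]
    exact b.1.2
  linarith

/-- At the first weight where the letters are not small the noise is not small. -/
theorem first (o : σ.Ok) (k : X.Ok σ e) {r δ h h' : ℝ} (A : X.Ac σ r δ) (h0 : 0 ≤ δ)
    {ξ : X.Ω → ν → ℝ} {q : X.Ω → ν} (m : X.Ω → ℝ) (fξ : Fn X.P ξ fun ω => (X.Y σ ω, X.j ω))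
    (fq : Fn X.P q fun ω => (X.Y σ ω, X.j ω))
    (c1 : 2 * (Fintype.card ν * exp (e - h)) + exp (-(2 * X.u)) ≤ exp (-h' - 2 * r * X.u))
    (c2 : 2 * (Fintype.card ν * Fintype.card α * exp (2 * e - h)) ≤ exp (-h' - r * X.u)) :
    pb X.P (fun ω => ∑ p, |ξ ω p| ≤ 1 ∧ (∀ p, ξ ω p ≠ 0 → σ.wt p = m ω) ∧
      X.Up σ h ω (ξ ω) (σ.wt (q ω)) ∧ exp (-h') ≤ ∑ a, |(ξ ω ᵥ* X.ρ ω a) (q ω)| ∧
      2 * |(ξ ω ᵥ* (X.R ω * X.W ω - X.R ω)) (q ω)| ≤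
        exp (-h' - r * X.u - (m ω - σ.wt (q ω)) * X.j ω)) ≤ 2 * δ := by
  refine le_trans (pb_mono fun ω hω ⟨a1, a2, a3, a4, a5⟩ => ?_) (A.thin h0
    (χ := fun ω a => (ξ ω ᵥ* X.ρ ω a) (q ω) / ∑ a, |(ξ ω ᵥ* X.ρ ω a) (q ω)|) fun a ha b hb E => by
      simp only [fξ a ha b hb E, fq a ha b hb E, k.fn_ρ a ha b hb (congrArg Prod.fst E)])
  have t := k.pt ω hω
  set S := ∑ a, |(ξ ω ᵥ* X.ρ ω a) (q ω)| with hS
  have S0 : 0 < S := (exp_pos _).trans_le a4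
  refine ⟨⟨?_, fun a a' => ?_⟩, ?_⟩
  · simp only [abs_div, abs_of_pos S0]
    rw [← sum_div, div_self S0.ne']
  · simp only [← mul_div_assoc]
    rw [← sum_div, abs_div, abs_of_pos S0, div_le_iff₀ S0]
    refine ((chr o t a1 a3 a a').trans c1).trans ?_
    rw [sub_eq_neg_add, exp_add]
    exact mul_le_mul_of_nonneg_left a4 (exp_pos _).le
  · have e1 : ∑ a, (ξ ω ᵥ* X.ρ ω a) (q ω) / S * (exp (σ.et a * X.j ω) * X.b ω a) =
        exp ((m ω - σ.wt (q ω)) * X.j ω) * (ξ ω ᵥ* X.R ω) (q ω) / S := by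
      rw [vec_R, mul_sum, sum_div]
      refine sum_congr rfl fun a _ => ?_
      by_cases hz : (ξ ω ᵥ* X.ρ ω a) (q ω) = 0
      · simp [hz]
      · rw [FA.vec_wt t.gr' a2 hz, add_sub_cancel_left]
        ring
    have b1 := word t a2 a3
    have b2 := mul_le_mul_of_nonneg_right c2 (exp_pos (-((m ω - σ.wt (q ω)) * X.j ω))).le
    rw [mul_assoc, mul_assoc, ← exp_add, ← exp_add, ← sub_eq_add_neg, ← sub_eq_add_neg] at b2
    rw [vecMul_sub, Pi.sub_apply] at a5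
    have b3 : |(ξ ω ᵥ* X.R ω) (q ω)| ≤ exp (-h' - r * X.u - (m ω - σ.wt (q ω)) * X.j ω) := by
      have := abs_sub_abs_le_abs_sub ((ξ ω ᵥ* X.R ω) (q ω)) ((ξ ω ᵥ* (X.R ω * X.W ω)) (q ω))
      rw [abs_sub_comm] at this
      linarith
    rw [e1, abs_div, abs_of_pos S0, div_le_iff₀ S0, abs_mul, abs_of_pos (exp_pos _)]
    refine (mul_le_mul_of_nonneg_left b3 (exp_pos _).le).trans
      (le_trans (le_of_eq ?_) (mul_le_mul_of_nonneg_left a4 (exp_pos _).le))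
    rw [← exp_add, ← exp_add]
    congr 1
    ring

end Bd

end Pool.Agent.MP_4b405e_nt.FB
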