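import Pool.Agent.MP_4b405e_nt.SK.FAc
import Pool.Agent.MP_5168f5_an.H17F.SqApi

/-! A functional that kills the noise of most relatives kills the letters. -/

namespace Pool.Agent.MP_4b405e_nt.FB

open Pool.Agent.MP_5168f5_an H19 H17S H17F Real Matrix Finset Filter

variable {α ν : Type} [Fintype α] [Fintype ν] {σ : Bc α ν}

theorem pb_lt {Ω : Type} (P : FP Ω) (B : Ω → Prop) (j : Ω → ℕ) (M : ℕ) :
    pb P (fun ω => B ω ∧ j ω < M) = ∑ k ∈ range M, pb P fun ω => B ω ∧ j ω = k := by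
  induction M with
  | zero => exact pb_zero fun ω _ h => absurd h.2 (Nat.not_lt_zero _)
  | succ M ih =>
    rw [sum_range_succ, ← ih, pb_split P _ fun ω => j ω = M, add_comm]
    congr 1 <;> refine pb_congr fun ω _ => ?_ <;> by_cases B ω <;> simp only [*, true_and,
      false_and] <;> omega

namespace Bd

variable {X : Bd α ν} {e : ℝ}

theorem Ok.cu (k : X.Ok σ e) : 0 < σ.C * X.u := by
  obtain ⟨ω, hω, -⟩ := ex_of_pb (P := X.P) (E := fun _ => True) (by rw [pb_true]; exact one_pos)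
  exact (Nat.zero_le _).trans_lt (k.pt ω hω).jl

/-- The level is uniform on events of the base point. -/
theorem Ok.lv' (k : X.Ok σ e) {B : X.Ω → Prop} (f : Fn X.P B (X.Y σ)) {i : ℕ}
    (hi : i < σ.C * X.u) :
    (σ.C * X.u : ℕ) * pb X.P (fun ω => B ω ∧ X.j ω = i) = pb X.P B := by
  have e1 : ∀ ω ∈ X.P.S, (∃ v ∈ X.P.S, X.Y σ v = X.Y σ ω ∧ B v) ↔ B ω := fun ω hω =>
    ⟨fun ⟨v, hv, a, b⟩ => f v hv ω hω a ▸ b, fun b => ⟨ω, hω, rfl, b⟩⟩
  rw [← pb_congr e1, ← k.lv (fun y => ∃ v ∈ X.P.S, X.Y σ v = y ∧ B v) i hi]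
  congr 1
  exact pb_congr fun ω hω => by rw [e1 ω hω]

/-- Small levels have a fixed share. -/
theorem Ok.lev (k : X.Ok σ e) {B : X.Ω → Prop} (f : Fn X.P B (X.Y σ)) {c : ℝ} (hc : 0 ≤ c) :
    min c 1 / σ.C * pb X.P B ≤ pb X.P fun ω => B ω ∧ (X.j ω : ℝ) ≤ c * X.u := by
  have h0 := k.cu
  have C0 : 0 < σ.C := Nat.pos_of_mul_pos_right h0
  have u0 : (0 : ℝ) < X.u := by exact_mod_cast Nat.pos_of_mul_pos_left h0
  have C1 : (1 : ℝ) ≤ σ.C := by exact_mod_cast C0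
  have m0 : 0 ≤ min c 1 * X.u := by positivity
  have h1 : ⌈min c 1 * X.u⌉₊ ≤ σ.C * X.u := Nat.ceil_le.2 (by
    push_cast
    exact mul_le_mul_of_nonneg_right ((min_le_right _ _).trans C1) u0.le)
  have h2 : (σ.C * X.u : ℕ) * pb X.P (fun ω => B ω ∧ X.j ω < ⌈min c 1 * X.u⌉₊) =
      ⌈min c 1 * X.u⌉₊ * pb X.P B := by
    rw [pb_lt, mul_sum, sum_congr rfl fun i hi => k.lv' f ((mem_range.1 hi).trans_le h1)]
    simp
  refine le_trans ?_ (pb_mono (E := fun ω => B ω ∧ X.j ω < ⌈min c 1 * X.u⌉₊) fun ω _ h =>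
    ⟨h.1, (Nat.lt_ceil.1 h.2).le.trans (by gcongr; exact min_le_left _ _)⟩)
  have h3 := mul_le_mul_of_nonneg_right (Nat.le_ceil (min c 1 * X.u)) (pb_nonneg X.P B)
  rw [← h2] at h3
  push_cast at h3
  rw [div_mul_eq_mul_div, div_le_iff₀ (by linarith)]
  refine le_of_mul_le_mul_right ?_ u0
  linarith

end Bd

variable {X : ℕ → Bd α ν}

theorem Bs.C_pos (h : Bs σ X) : (0 : ℝ) < σ.C := by
  obtain ⟨n, hn⟩ := (h.ev 1 one_pos).exists
  exact_mod_cast Nat.pos_of_mul_pos_right hn.cu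

/-- A character read from the base point is seen by a relative of small level. -/
theorem acUse (h : Bs σ X) {r c : ℝ} (hr : 0 < r) (hc : 0 < c) (B : ∀ n, (X n).Ω → Prop)
    (χ : ∀ n, (X n).Ω → α → ℝ)
    (f : ∀ᶠ n in UF, Fn (X n).P (B n) ((X n).Y σ) ∧ Fn (X n).P (χ n) ((X n).Y σ) ∧
      ∀ ω ∈ (X n).P.S, B n ω → (X n).Chr (2 * r * (X n).u) ω (χ n ω))
    (p : Pos (fun n => (X n).P) B) :
    Pos (fun n => (X n).P) fun n ω => B n ω ∧ ((X n).j ω : ℝ) ≤ c * (X n).u ∧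
      exp (-(r * (X n).u)) < |∑ a, χ n ω a * (exp (σ.et a * (X n).j ω) * (X n).b ω a)| := by
  obtain ⟨κ, κ0, hκ⟩ := p
  have C0 := h.C_pos
  have d0 : 0 < min c 1 / σ.C * κ / 4 := by positivity
  refine ⟨min c 1 / σ.C * κ / 2, by positivity, ?_⟩
  filter_upwards [f, hκ, h.ev 1 one_pos, h.ac r _ hr d0] with n ⟨f1, f2, f3⟩ a k A
  have h1 := k.lev f1 hc.le
  have h2 := A.thin d0.le (χ := χ n) fun a ha b hb E => f2 a ha b hb (congrArg Prod.fst E)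
  have h3 := mul_le_mul_of_nonneg_left a (show 0 ≤ min c 1 / σ.C by positivity)
  have h4 := (pb_mono (P := (X n).P) (E := fun ω => B n ω ∧ ((X n).j ω : ℝ) ≤ c * (X n).u)
    fun ω hω b => ?_).trans (pb_or _ (fun ω => B n ω ∧ ((X n).j ω : ℝ) ≤ c * (X n).u ∧
      exp (-(r * (X n).u)) < |∑ a, χ n ω a * (exp (σ.et a * (X n).j ω) * (X n).b ω a)|)
      fun ω => (X n).Chr (2 * r * (X n).u) ω (χ n ω) ∧
        |∑ a, χ n ω a * (exp (σ.et a * (X n).j ω) * (X n).b ω a)| ≤ exp (-(r * (X n).u)))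
  · linarith
  · exact (lt_or_ge _ _).imp (fun t => ⟨b.1, b.2, t⟩) fun t => ⟨f3 ω hω b.1, t⟩

theorem ev_exp {u : ℕ → ℕ} (hu : Big u) (A : ℝ) {t : ℝ} (ht : 0 < t) :
    ∀ᶠ n in UF, A ≤ exp (t * u n) := by
  filter_upwards [hu.ev (A / t)] with n a
  rw [div_le_iff₀ ht] at a
  linarith [add_one_le_exp (t * u n)]

omit [Fintype α] [Fintype ν] in
theorem Bc.Ok.wt_nonneg (o : σ.Ok) (p : ν) : 0 ≤ σ.wt p := by
  by_cases h : p = σ.o
  · rw [h, o.wo]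
  · exact (o.wt0 p h).le

/-- The first weight at which the letters are seen. -/
theorem kill_one (h : Bs σ X) {c r : ℝ} (hr : 0 < r) (h1 : 4 * r ≤ c) (h2 : 4 * r ≤ 1) (q : ν)
    (E : ∀ n, (X n).Ω → Prop) (ξ : ∀ n, (X n).Ω → ν → ℝ)
    (f : ∀ᶠ n in UF, Fn (X n).P (E n) ((X n).Y σ) ∧ Fn (X n).P (ξ n) ((X n).Y σ) ∧
      ∀ ω ∈ (X n).P.S, E n ω → σ.Un (ξ n ω))
    (w : Whp (fun n => (X n).P) fun n ω => E n ω →
      |(ξ n ω ᵥ* ((X n).R ω * (X n).W ω - (X n).R ω)) q| ≤ exp (-(c * (X n).u))) :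
    Whp (fun n => (X n).P) fun n ω => ¬(E n ω ∧ (X n).Up σ (8 * r * (X n).u) ω (ξ n ω) (σ.wt q) ∧
      exp (-(r * (X n).u)) ≤ ∑ a, |(ξ n ω ᵥ* (X n).ρ ω a) q|) := by
  intro ε hε
  have C0 := h.C_pos
  obtain ⟨V, hV⟩ : ∃ V : ℝ, V = ∑ p, σ.wt p + 1 := ⟨_, rfl⟩
  have V1 : ∀ p, σ.wt p ≤ V := fun p => by
    linarith [single_le_sum (fun p _ => h.ok.wt_nonneg p) (mem_univ p)]
  have V0 : 0 < V := by linarith [sum_nonneg fun p (_ : p ∈ univ) => h.ok.wt_nonneg p]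
  have c0 : 0 < r / V := by positivity
  have d0 : 0 < min (r / V) 1 / σ.C * ε / 3 := by positivity
  filter_upwards [f, w _ d0, h.ev r hr, h.ac r _ hr d0, ev_exp h.big 2 hr,
    ev_exp h.big (4 * Fintype.card ν) hr,
    ev_exp h.big (2 * (Fintype.card ν * Fintype.card α)) hr] with n ⟨f1, f2, f3⟩ a k A e1 e2 e3
  have u0 : (0 : ℝ) ≤ (X n).u := Nat.cast_nonneg _
  have ru := mul_nonneg hr.le u0
  have hm : ∀ ω, ∃ m, m ≤ V ∧ (σ.Un (ξ n ω) → ∀ p, ξ n ω p ≠ 0 → σ.wt p = m) := fun ω => by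
    by_cases z : ∃ p, ξ n ω p ≠ 0
    · obtain ⟨p, hp⟩ := z
      exact ⟨_, V1 p, fun t s hs => (t.2.2 s p hs hp).1⟩
    · exact ⟨V, le_rfl, fun _ p hp => absurd ⟨p, hp⟩ z⟩
  choose m m1 m2 using hm
  have g1 := Bd.first h.ok k A d0.le (h := 8 * r * (X n).u) (h' := r * (X n).u) (q := fun _ => q) m
    (fun a ha b hb E => f2 a ha b hb (congrArg Prod.fst E)) (fun _ _ _ _ _ => rfl) ?_ ?_
  · have g2 := k.lev (B := fun ω => E n ω ∧ (X n).Up σ (8 * r * (X n).u) ω (ξ n ω) (σ.wt q) ∧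
      exp (-(r * (X n).u)) ≤ ∑ a, |(ξ n ω ᵥ* (X n).ρ ω a) q|) (fun a ha b hb E => by
        simp only [Bd.Up, f1 a ha b hb E, f2 a ha b hb E, k.fn_ρ a ha b hb E]) c0.le
    simp only [not_not]
    refine le_of_mul_le_mul_left (((g2.trans (pb_mono fun ω hω ⟨⟨b1, b2, b3⟩, b4⟩ => ?_)).trans
      ((pb_or _ _ _).trans (add_le_add g1 a))).trans_eq (by ring))
      (show 0 < min (r / V) 1 / σ.C by positivity)
    · refine or_not.imp (fun t => ⟨(f3 ω hω b1).1.le, m2 ω (f3 ω hω b1), b2, b3, ?_⟩) id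
      have t1 : (m ω - σ.wt q) * (X n).j ω ≤ V * (r / V * (X n).u) :=
        mul_le_mul (by linarith [m1 ω, h.ok.wt_nonneg q]) b4 (Nat.cast_nonneg _) V0.le
      rw [← mul_assoc, mul_div_cancel₀ _ V0.ne'] at t1
      refine (mul_le_mul e1 (t b1) (abs_nonneg _) (exp_pos _).le).trans ?_
      rw [← exp_add, exp_le_exp]
      nlinarith
  · have t1 := mul_le_mul_of_nonneg_right e2 (exp_pos (r * (X n).u - 8 * r * (X n).u)).le
    have t2 := mul_le_mul_of_nonneg_right e1 (exp_pos (-(2 * (X n).u))).le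
    rw [← exp_add] at t1 t2
    have t3 : exp (r * (X n).u + (r * (X n).u - 8 * r * (X n).u)) ≤
      exp (-(r * (X n).u) - 2 * r * (X n).u) := exp_le_exp.2 (by linarith)
    have t4 : exp (r * (X n).u + -(2 * (X n).u)) ≤ exp (-(r * (X n).u) - 2 * r * (X n).u) :=
      exp_le_exp.2 (by nlinarith)
    linarith
  · rw [← mul_assoc]
    refine (mul_le_mul_of_nonneg_right e3 (exp_pos _).le).trans ?_
    rw [← exp_add, exp_le_exp]
    linarith

/-- A functional that kills the noise kills the letters. -/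
theorem kill (h : Bs σ X) {c : ℝ} (hc : 0 < c) : ∃ r : ℝ, 0 < r ∧ r ≤ c ∧
    ∀ (E : ∀ n, (X n).Ω → Prop) (ξ : ∀ n, (X n).Ω → ν → ℝ),
      (∀ᶠ n in UF, Fn (X n).P (E n) ((X n).Y σ) ∧ Fn (X n).P (ξ n) ((X n).Y σ) ∧
        ∀ ω ∈ (X n).P.S, E n ω → σ.Un (ξ n ω)) →
      (Whp (fun n => (X n).P) fun n ω => E n ω → ∀ q, q ≠ σ.o →
        |(ξ n ω ᵥ* ((X n).R ω * (X n).W ω - (X n).R ω)) q| ≤ exp (-(c * (X n).u))) →
      Whp (fun n => (X n).P) fun n ω => E n ω → ∀ a q, q ≠ σ.o →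
        |(ξ n ω ᵥ* (X n).ρ ω a) q| ≤ exp (-(r * (X n).u)) := by
  classical
  have c0 : 0 < min c 1 / 4 := by positivity
  set t : ℝ → ℝ := fun x => min c 1 / 4 / 8 ^ (univ.filter fun p => x < σ.wt p).card with ht
  have t0 : ∀ x, 0 < t x := fun x => by positivity
  have t1 : ∀ x, t x ≤ min c 1 / 4 := fun x => div_le_self c0.le (one_le_pow₀ (by norm_num))
  have t2 : ∀ x, min c 1 / 4 / 8 ^ Fintype.card ν ≤ t x := fun x =>
    div_le_div_of_nonneg_left c0.le (by positivity)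
      (pow_le_pow_right₀ (by norm_num) (card_le_univ _))
  have t3 : ∀ q s, σ.wt q < σ.wt s → 8 * t (σ.wt q) ≤ t (σ.wt s) := fun q s hs => by
    have : (univ.filter fun p => σ.wt s < σ.wt p).card + 1 ≤
        (univ.filter fun p => σ.wt q < σ.wt p).card :=
      card_lt_card ⟨fun p hp => by
        simp only [mem_filter, mem_univ, true_and] at hp ⊢; exact hs.trans hp,
        fun e => by simpa using e (mem_filter.2 ⟨mem_univ s, hs⟩)⟩
    have := pow_le_pow_right₀ (show (1 : ℝ) ≤ 8 by norm_num) this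
    simp only [ht]
    rw [← mul_div_assoc, div_le_div_iff₀ (by positivity) (by positivity)]
    rw [pow_succ] at this
    nlinarith
  have m1 := min_le_left c 1
  have m2 := min_le_right c 1
  refine ⟨min c 1 / 4 / 8 ^ Fintype.card ν, by positivity, by linarith [t1 0, t2 0],
    fun E ξ f w => ?_⟩
  refine (Whp.all fun q : {q // q ≠ σ.o} => kill_one h (t0 (σ.wt q)) (by linarith [t1 (σ.wt q)])
    (by linarith [t1 (σ.wt q)]) q E ξ f (w.mono (Eventually.of_forall fun n ω _ a b =>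
      a b q q.2))).mono (Eventually.of_forall fun n ω _ a b a' q hq => ?_)
  have u0 : (0 : ℝ) ≤ (X n).u := Nat.cast_nonneg _
  have k1 : ∀ a' q, |(ξ n ω ᵥ* (X n).ρ ω a') q| ≤ ∑ a, |(ξ n ω ᵥ* (X n).ρ ω a) q| := fun a' q =>
    single_le_sum (f := fun a => |(ξ n ω ᵥ* (X n).ρ ω a) q|) (fun _ _ => abs_nonneg _) (mem_univ a')
  rcases FA.least (wt := σ.wt) (σ := fun x => exp (-(t x * (X n).u)))
    (fun q => ∑ a, |(ξ n ω ᵥ* (X n).ρ ω a) q|) (fun q => q ≠ σ.o) with l | ⟨s, s1, s2, s3⟩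
  · exact ((k1 a' q).trans (l q hq)).trans
      (exp_le_exp.2 (neg_le_neg (mul_le_mul_of_nonneg_right (t2 _) u0)))
  · refine absurd ⟨b, fun a p hp => ?_, s2.le⟩ (a ⟨s, s1⟩)
    refine ((k1 a p).trans (s3 p ?_ hp)).trans
      (exp_le_exp.2 (neg_le_neg (mul_le_mul_of_nonneg_right (t3 s p hp) u0)))
    rintro rfl
    rw [h.ok.wo] at hp
    exact hp.not_ge (h.ok.wt_nonneg s)

end Pool.Agent.MP_4b405e_nt.FB
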