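import Pool.Agent.MP_4b405e_nt.SK.FSp
import Pool.Agent.MP_4b405e_nt.SK.FKill

/-! Averages over the atoms of a context. -/

namespace Pool.Agent.MP_4b405e_nt.FB

open Pool.Agent.MP_5168f5_an H19 H17S H17F Real Matrix Finset

namespace Av

variable {Ω α α' β γ δ ζ : Type} {P : FP Ω} {y : Ω → γ}

theorem mem {ω : Ω} (hω : ω ∈ P.S) (v : Ω) : v ∈ (cv P y (y ω)).S ↔ v ∈ P.S ∧ y v = y ω :=
  mem_cE (E := fun v => y v = y ω) ⟨ω, hω, rfl⟩ v

theorem self {ω : Ω} (hω : ω ∈ P.S) : ω ∈ (cv P y (y ω)).S := (mem hω ω).2 ⟨hω, rfl⟩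

/-- A function of the context is constant on an atom. -/
theorem const {F : Ω → α} (h : Fn P F y) {ω v : Ω} (hω : ω ∈ P.S) (hv : v ∈ (cv P y (y ω)).S) :
    F v = F ω := h v ((mem hω v).1 hv).1 ω hω ((mem hω v).1 hv).2

theorem fn_cv (P : FP Ω) (y : Ω → γ) : Fn P (fun ω => cv P y (y ω)) y := Fn.comp (cv P y) y

theorem E_cv {F : Ω → Ω → ℝ} (h : Fn P F y) :
    P.E (fun ω => F ω ω) = P.E fun ω => (cv P y (y ω)).E (F ω) := by
  rw [CND.exp P y F h]
  exact P.E_congr fun ω hω => by rw [KEA.cv_eq P y hω]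

theorem E_cv' (y : Ω → γ) (F : Ω → ℝ) : P.E F = P.E fun ω => (cv P y (y ω)).E F :=
  E_cv (F := fun _ => F) fun _ _ _ _ _ => rfl

theorem pb_cv {G : Ω → Ω → Prop} (h : Fn P G y) :
    pb P (fun ω => G ω ω) = P.E fun ω => pb (cv P y (y ω)) (G ω) :=
  E_cv (F := fun ω v => @ite ℝ (G ω v) (Classical.propDecidable _) 1 0) fun a ha b hb e => by
    beta_reduce; rw [h a ha b hb e]

theorem ch_cv {F : Ω → Ω → α} (h : Fn P F y) :
    ch P (fun ω => F ω ω) y = P.E fun ω => hh (cv P y (y ω)) (F ω) := by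
  rw [CND.ent P y F h]
  exact P.E_congr fun ω hω => by rw [KEA.cv_eq P y hω]

theorem ch_cv' (y : Ω → γ) (F : Ω → α) : ch P F y = P.E fun ω => hh (cv P y (y ω)) F :=
  ch_cv (F := fun _ => F) fun _ _ _ _ _ => rfl

theorem ch_cv2 {F : Ω → Ω → α} {G : Ω → Ω → β} (h : Fn P F y) (h' : Fn P G y) :
    ch P (fun ω => F ω ω) (fun ω => (G ω ω, y ω)) =
      P.E fun ω => ch (cv P y (y ω)) (F ω) (G ω) := by
  have h1 := ch_cv (P := P) (F := fun ω v => (G ω v, F ω v)) (y := y) fun a ha b hb e => by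
    simp only [h a ha b hb e, h' a ha b hb e]
  rw [ch_chain, ch_cv h', ← eq_sub_iff_add_eq', ← P.E_sub] at h1
  rw [h1]
  refine P.E_congr fun ω _ => ?_
  unfold ch
  congr 1
  exact hh_congr ((Fn.snd _ _).pair (Fn.fst _ _)) ((Fn.snd _ _).pair (Fn.fst _ _))

theorem mi_cv2 {F : Ω → Ω → α} {G : Ω → Ω → β} {K : Ω → Ω → δ} (h : Fn P F y) (h' : Fn P G y)
    (h'' : Fn P K y) : mi P (fun ω => F ω ω) (fun ω => G ω ω) (fun ω => (K ω ω, y ω)) =
      P.E fun ω => mi (cv P y (y ω)) (F ω) (G ω) (K ω) := by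
  unfold mi
  rw [P.E_sub, ← ch_cv2 h h'', ← ch_cv2 (G := fun ω v => (G ω v, K ω v)) h fun a ha b hb e => by
    simp only [h' a ha b hb e, h'' a ha b hb e]]
  congr 1
  exact le_antisymm (ch_anti fun a _ b _ e => by simp only [Prod.mk.injEq] at e ⊢; tauto)
    (ch_anti fun a _ b _ e => by simp only [Prod.mk.injEq] at e ⊢; tauto)

theorem mi_cv {F : Ω → Ω → α} {G : Ω → Ω → β} (h : Fn P F y) (h' : Fn P G y) :
    mi P (fun ω => F ω ω) (fun ω => G ω ω) y =
      P.E fun ω => mi (cv P y (y ω)) (F ω) (G ω) fun _ => () := by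
  unfold mi
  simp only [ch_unit]
  rw [P.E_sub, ← ch_cv h, ch_cv2 h h']
  congr 1
  exact P.E_congr fun ω _ => le_antisymm (ch_anti fun a _ b _ e => by simp only [e])
    (ch_anti (Fn.fst _ _))

theorem mi_cv' (y : Ω → γ) (F : Ω → α) (G : Ω → β) :
    mi P F G y = P.E fun ω => mi (cv P y (y ω)) F G fun _ => () :=
  mi_cv (F := fun _ => F) (G := fun _ => G) (fun _ _ _ _ _ => rfl) fun _ _ _ _ _ => rfl

open Classical in
theorem E_ite (P : FP Ω) (E : Ω → Prop) (c : ℝ) :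
    (P.E fun ω => if E ω then c else 0) = c * pb P E := by
  unfold pb
  rw [← P.E_mul]
  exact P.E_congr fun ω _ => by split_ifs <;> simp

open Classical in
theorem E_ite_le (E : Ω → Prop) {B : Ω → ℝ} (h : ∀ ω ∈ P.S, 0 ≤ B ω) :
    (P.E fun ω => if E ω then B ω else 0) ≤ P.E B :=
  P.E_mono fun ω hω => by split_ifs; exacts [le_rfl, h ω hω]

open Classical in
/-- A gain on the atoms seen from an event. -/
theorem avg (E : Ω → Prop) {F : Ω → Ω → α} (hF : Fn P F y) {A g : ℝ} {B : Ω → ℝ}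
    (h1 : ∀ ω ∈ P.S, E ω → hh (cv P y (y ω)) (F ω) ≤ A - g + B ω)
    (h2 : ∀ ω ∈ P.S, ¬E ω → hh (cv P y (y ω)) (F ω) ≤ A) :
    ch P (fun ω => F ω ω) y ≤ A - g * pb P E + P.E fun ω => if E ω then B ω else 0 := by
  rw [ch_cv hF, ← E_ite, ← P.E_const A, ← P.E_sub, ← P.E_add]
  refine P.E_mono fun ω hω => ?_
  split_ifs with h
  · exact h1 ω hω h
  · simpa using h2 ω hω h

open Classical in
theorem avg' (E : Ω → Prop) (F : Ω → α) {A g : ℝ} {B : Ω → ℝ}
    (h1 : ∀ ω ∈ P.S, E ω → hh (cv P y (y ω)) F ≤ A - g + B ω)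
    (h2 : ∀ ω ∈ P.S, ¬E ω → hh (cv P y (y ω)) F ≤ A) :
    ch P F y ≤ A - g * pb P E + P.E fun ω => if E ω then B ω else 0 :=
  avg E (F := fun _ => F) (fun _ _ _ _ _ => rfl) h1 h2

open Classical in
/-- A variable that is read on an event of the context only. -/
theorem avg0 {E : Ω → Prop} (hE : Fn P E y) {F : Ω → Ω → α} (hF : Fn P F y) (d : α) {B : Ω → ℝ}
    (h1 : ∀ ω ∈ P.S, E ω → hh (cv P y (y ω)) (F ω) ≤ B ω) :
    ch P (fun ω => if E ω then F ω ω else d) y ≤ P.E fun ω => if E ω then B ω else 0 := by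
  rw [ch_cv (F := fun ω v => if E ω then F ω v else d) fun a ha b hb e => by
    simp only [hE a ha b hb e, hF a ha b hb e]]
  refine P.E_mono fun ω hω => ?_
  split_ifs with h
  · exact h1 ω hω h
  · exact (hh_mono (g := fun _ => ()) fun _ _ _ _ _ => rfl).trans hh_unit.le

/-- A choice that depends on the context only. -/
theorem pick [Nonempty α] {R : Ω → α → Prop} (h : Fn P R y) :
    ∃ f : Ω → α, Fn P f y ∧ ∀ ω, (∃ x, R ω x) → R ω (f ω) :=
  ⟨fun ω => Classical.epsilon (R ω), fun a ha b hb e => by simp only [h a ha b hb e],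
    fun _ k => Classical.epsilon_spec k⟩

/-- A member of a family below the mean, read from the context. -/
theorem pickI {I : Ω → Finset ℕ} {f : Ω → ℕ → ℝ} {B : Ω → ℝ} (hI : Fn P I y) (hf : Fn P f y)
    (hB : Fn P B y) : ∃ i : Ω → ℕ, Fn P i y ∧ ∀ ω, (I ω).Nonempty →
      ∑ k ∈ I ω, f ω k ≤ (I ω).card * B ω → i ω ∈ I ω ∧ f ω (i ω) ≤ B ω := by
  obtain ⟨i, h1, h2⟩ := pick (P := P) (y := y) (R := fun ω k => k ∈ I ω ∧ f ω k ≤ B ω)
    fun a ha b hb e => by simp only [hI a ha b hb e, hf a ha b hb e, hB a ha b hb e]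
  exact ⟨i, h1, fun ω k1 k2 => h2 ω (exists_le_of_sum_le k1 (by simpa using k2))⟩

/-- Information given a larger context: `y₁` is read from the side of `B`, the rest of `y` from
the side of `A`. -/
theorem mi_ctx {A : Ω → α} {A' : Ω → α'} {B : Ω → β} {K : Ω → δ} {T : Ω → ζ} {γ₁ : Type}
    (y₁ : Ω → γ₁) (hK : Fn P K y₁) (h1 : Fn P y₁ fun ω => (B ω, K ω))
    (hT : Fn P T fun ω => (B ω, K ω)) (h2 : Fn P y₁ y) (h3 : Fn P y fun ω => (A ω, y₁ ω))
    (hA : Fn P A' fun ω => (A ω, y ω)) : mi P T A' y ≤ mi P A B K := by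
  refine (mi_mono hA).trans ((mi_cond h2 h3).trans ?_)
  rw [mi_symm]
  exact (mi_mono (hT.trans ((Fn.fst B y₁).pair (hK.right B)))).trans (mi_cond hK h1)

/-- Markov's inequality. -/
theorem markov {B : Ω → ℝ} (h : ∀ ω ∈ P.S, 0 ≤ B ω) (t : ℝ) :
    t * pb P (fun ω => t ≤ B ω) ≤ P.E B := by
  rw [← E_ite]
  exact P.E_mono fun ω hω => by split_ifs with k; exacts [k, h ω hω]

end Av

variable {α ν γ : Type} [Fintype α] [Fintype ν] {σ : Bc α ν} {X : Bd α ν} {e : ℝ} {y : X.Ω → γ}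

/-- The level is uniform on the atoms of a context read from the base point. -/
theorem Bd.Ok.lvA (k : X.Ok σ e) (fy : Fn X.P y (X.Y σ)) {ω : X.Ω} (hω : ω ∈ X.P.S)
    {A : X.Ω → Prop} (fA : Fn X.P A (X.Y σ)) {W : Finset ℕ} (hW : W ⊆ range (σ.C * X.u)) :
    (W.card : ℝ) / (σ.C * X.u : ℕ) * pb (cv X.P y (y ω)) A =
      pb (cv X.P y (y ω)) fun v => A v ∧ X.j v ∈ W := by
  have p0 : 0 < pb X.P fun v => y v = y ω := pb_pos _ ⟨ω, hω, rfl⟩
  have u0 : (0 : ℝ) < (σ.C * X.u : ℕ) := by exact_mod_cast k.cu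
  have f : Fn X.P (fun v => y v = y ω ∧ A v) (X.Y σ) := fun a ha b hb e => by
    simp only [fy a ha b hb e, fA a ha b hb e]
  have h1 : ∀ W : Finset ℕ, W ⊆ range (σ.C * X.u) →
      (σ.C * X.u : ℕ) * pb X.P (fun v => (y v = y ω ∧ A v) ∧ X.j v ∈ W) =
        W.card * pb X.P fun v => y v = y ω ∧ A v := fun W => by
    induction W using Finset.induction_on with
    | empty => exact fun _ => by rw [pb_zero fun _ _ h => notMem_empty _ h.2]; simp
    | insert i W hi ih =>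
      intro h
      rw [pb_split _ _ fun v => X.j v = i, card_insert_of_notMem hi, Nat.cast_succ, add_mul,
        one_mul, ← ih ((subset_insert _ _).trans h), mul_add, add_comm]
      nth_rewrite 1 [← k.lv' f (mem_range.1 (h (mem_insert_self _ _)))]
      congr 2 <;> refine pb_congr fun v _ => ?_
      · exact ⟨fun a => ⟨a.1.1, (mem_insert.1 a.1.2).resolve_left a.2⟩,
          fun a => ⟨⟨a.1, mem_insert_of_mem a.2⟩, fun b => hi (b ▸ a.2)⟩⟩
      · exact ⟨fun a => ⟨a.1.1, a.2⟩, fun a => ⟨⟨a.1, a.2 ▸ mem_insert_self _ _⟩, a.2⟩⟩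
  refine mul_left_cancel₀ p0.ne' (mul_left_cancel₀ u0.ne' ?_)
  unfold cv
  rw [pb_cE, mul_left_comm (pb _ _), pb_cE, ← mul_assoc, mul_div_cancel₀ _ u0.ne', ← h1 W hW]
  simp only [and_assoc]

variable [DecidableEq ν] {Y : Wd X} {r c C a b q η : ℝ} {t : X.Ω → ℕ → Prop}

namespace Wd.Ok

variable (h : Y.Ok σ r c C a b q η t) (f : Fn X.P (fun ω => (X.K ω, Y.s ω, X.v ω)) y)
include h f

theorem all : Fn X.P (fun ω => ((Y.n ω, Y.M ω, Y.la ω, Y.Gd ω), Y.l ω, Y.I ω, Y.E ω)) y :=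
  (h.fM.trans fun a ha b hb e => by
    have := f a ha b hb e
    simp only [Prod.mk.injEq] at this ⊢
    exact ⟨this.1, this.2.1⟩).pair (h.fl.trans f)

theorem fn_n : Fn X.P Y.n y := fun a ha b hb e => congrArg (·.1.1) (h.all f a ha b hb e)
theorem fn_M : Fn X.P Y.M y := fun a ha b hb e => congrArg (·.1.2.1) (h.all f a ha b hb e)
theorem fn_la : Fn X.P Y.la y := fun a ha b hb e => congrArg (·.1.2.2.1) (h.all f a ha b hb e)
theorem fn_Gd : Fn X.P Y.Gd y := fun a ha b hb e => congrArg (·.1.2.2.2) (h.all f a ha b hb e)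
theorem fn_l : Fn X.P Y.l y := fun a ha b hb e => congrArg (·.2.1) (h.all f a ha b hb e)
theorem fn_I : Fn X.P Y.I y := fun a ha b hb e => congrArg (·.2.2.1) (h.all f a ha b hb e)
theorem fn_E : Fn X.P Y.E y := fun a ha b hb e => congrArg (·.2.2.2) (h.all f a ha b hb e)

open Classical in
/-- The bad mass, averaged over the atoms of a context that determines the world. -/
theorem badA : (X.P.E fun ω => if Y.E ω then ∑ k ∈ range (Y.n ω),
    pb (cv X.P y (y ω)) (fun v => ¬Y.Gd ω k (X.N v) (X.T v)) else 0) ≤ q * X.u := by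
  refine le_trans (le_of_eq ?_) h.bad
  rw [Av.E_cv (y := y) (F := fun ω v => if Y.E ω then ∑ k ∈ range (Y.n ω),
    if Y.Gd ω k (X.N v) (X.T v) then (0 : ℝ) else 1 else 0) fun a ha b hb e => by
      simp only [h.fn_E f a ha b hb e, h.fn_n f a ha b hb e, h.fn_Gd f a ha b hb e]]
  refine X.P.E_congr fun ω _ => ?_
  split_ifs
  · rw [FP.E_sum]
    exact sum_congr rfl fun k _ => FP.E_congr _ fun v _ => by
      by_cases g : Y.Gd ω k (X.N v) (X.T v) <;> simp [g]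
  · exact (FP.E_const _ 0).symm

end Wd.Ok

end Pool.Agent.MP_4b405e_nt.FB
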