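import Pool.Agent.MP_4b405e_nt.SK.FS2

/-! The first run on a block system: the data on one atom. -/

namespace Pool.Agent.MP_4b405e_nt.FB.S1

open Pool.Agent.MP_5168f5_an H19 H17S H17F Real Matrix Finset

variable {α ν : Type} [Fintype α] [Fintype ν] {σ : Bc α ν} {X : Bd α ν}

section Chi

variable {e r l : ℝ} {ω : X.Ω} {M : (ν → ℝ) →L[ℝ] (ν → ℝ)}

open Classical in
/-- A visible column gives a unit character. -/
theorem Box.chi (B : Box σ X r ω M l) (o : σ.Ok) (t : X.Pt σ e ω) {g H h : ℝ} {a₀ : α} {q : ν}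
    (hg : ∀ p q, σ.wt q < σ.wt p → g ≤ σ.wt p - σ.wt q) (ha : a₀ ≠ σ.τ) (hq : q ≠ σ.o)
    (h0 : r * σ.w q = σ.wt q + σ.et a₀) (hH : 0 ≤ H) (hl : H ≤ l) (he : e ≤ X.u / 2)
    (see : exp (σ.et a₀ / lg * (l - H)) ≤ ‖M (col X ω a₀ q)‖)
    (hh : 2 * (Fintype.card ν * exp (e + σ.et a₀ / lg * H - g / lg * l)) +
      3 * exp (-(X.u / 2)) ≤ exp (-h)) (y : ν → ℝ) (j : ℕ) :
    ∃ χ, X.Chr h ω χ ∧ ∀ (β : α → ℝ) (d : ℝ),
      ‖M (∑ a, (if a = σ.τ then 0 else β a) • col X ω a q) - β σ.τ • y‖ ≤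
        exp (σ.et a₀ / lg * (l - lg * j) - d) →
      |∑ a, χ a * (exp (σ.et a * j) * β a)| ≤ exp (σ.et a₀ / lg * H - d) := by
  have : Nonempty ν := ⟨q⟩
  obtain ⟨x, hx⟩ := (IsGreatest.pi_norm (M (col X ω a₀ q))).1
  change ‖M (col X ω a₀ q) x‖ = _ at hx
  rw [← hx, norm_eq_abs] at see
  set κ := σ.et a₀ / lg with hκ
  have k0 : 0 < κ := div_pos (o.et0 a₀) lg_pos
  have kl : κ * lg = σ.et a₀ := div_mul_cancel₀ _ lg_pos.ne'
  set f : α → ℝ := fun a => exp (-(σ.et a * j)) *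
    if a = σ.τ then -y x else M (col X ω a q) x with hf
  set S := ∑ a, |f a| with hS
  have fS : ∀ a, |f a| ≤ S := fun a =>
    single_le_sum (f := fun a => |f a|) (fun _ _ => abs_nonneg _) (mem_univ a)
  have S1 : exp (κ * (l - H) - σ.et a₀ * j) ≤ S := by
    refine le_trans ?_ (fS a₀)
    rw [hf]
    simp only [if_neg ha]
    rw [abs_mul, abs_of_pos (exp_pos _), sub_eq_neg_add, exp_add]
    exact mul_le_mul_of_nonneg_left see (exp_pos _).le
  have S0 : 0 < S := (exp_pos _).trans_le S1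
  have fe : ∀ a, a ≠ σ.τ → f a = exp (-(σ.et a₀ * j)) * M (col X ω a q) x := by
    intro a k
    rw [hf]
    simp only [if_neg k]
    by_cases hM : M (col X ω a q) = 0
    · rw [hM]; simp
    · have := B.grade o t hq hM
      rw [show σ.et a = σ.et a₀ by linarith]
  refine ⟨fun a => f a / S, ⟨?_, fun a a' => ?_⟩, fun β d hd => ?_⟩
  · simp only [abs_div, abs_of_pos S0]
    rw [← sum_div, div_self S0.ne']
  · simp only [← mul_div_assoc]
    rw [← sum_div, abs_div, abs_of_pos S0, div_le_iff₀ S0]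
    have e1 : ∑ a'', X.c ω a a' a'' * f a'' = X.c ω a a' σ.τ * f σ.τ + exp (-(σ.et a₀ * j)) *
        (M (∑ a'', X.c ω a a' a'' • col X ω a'' q) x -
          X.c ω a a' σ.τ * M (col X ω σ.τ q) x) := by
      rw [map_sum, Finset.sum_apply, ← add_sum_erase _ _ (mem_univ σ.τ),
        ← add_sum_erase _ _ (mem_univ σ.τ)]
      simp only [map_smul, Pi.smul_apply, smul_eq_mul, add_sub_cancel_left, mul_sum]
      congr 1
      exact sum_congr rfl fun b hb => by rw [fe b (ne_of_mem_erase hb)]; ring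
    have u0 : (0 : ℝ) ≤ X.u := Nat.cast_nonneg _
    have c1 : |X.c ω a a' σ.τ * f σ.τ| ≤ exp (-(X.u / 2)) * S := by
      rw [abs_mul]
      exact mul_le_mul ((t.chi a a').trans (exp_le_exp.2 (by linarith))) (fS _) (abs_nonneg _)
        (exp_pos _).le
    have c2 : |X.c ω a a' σ.τ * M (col X ω σ.τ q) x| ≤ exp (-(X.u / 2)) := by
      rw [abs_mul]
      have h1 : |M (col X ω σ.τ q) x| ≤ 2 ^ X.u * exp e :=
        (norm_le_pi_norm _ x).trans (B.small (exp_pos _).le fun p _ => t.rb _ p q)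
      refine (mul_le_mul (t.chi a a') h1 (abs_nonneg _) (exp_pos _).le).trans ?_
      rw [← mul_assoc, mul_comm _ ((2 : ℝ) ^ X.u)]
      refine (mul_le_mul_of_nonneg_right (two_pow_exp _) (exp_pos _).le).trans ?_
      rw [← exp_add, exp_le_exp]; linarith
    have c3 := (norm_le_pi_norm _ x).trans (B.chr o t hg (hH.trans hl) hq a a')
    rw [norm_eq_abs, h0, add_sub_cancel_left] at c3
    have c4 : exp (-(X.u : ℝ)) ≤ exp (-(X.u / 2)) := exp_le_exp.2 (by linarith)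
    have c5 : 1 ≤ exp (κ * (l - H)) := one_le_exp (mul_nonneg k0.le (sub_nonneg.2 hl))
    have c6 : exp (e + (σ.et a₀ - g) / lg * l) =
        exp (e + κ * H - g / lg * l) * exp (κ * (l - H)) := by
      rw [← exp_add, sub_div]; congr 1; ring
    have c7 : |M (∑ a'', X.c ω a a' a'' • col X ω a'' q) x -
        X.c ω a a' σ.τ * M (col X ω σ.τ q) x| ≤ (2 * (Fintype.card ν *
          exp (e + κ * H - g / lg * l)) + 2 * exp (-(X.u / 2))) * exp (κ * (l - H)) := by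
      refine (abs_sub _ _).trans ?_
      have := mul_le_mul_of_nonneg_left c5 (exp_pos (-(X.u / 2 : ℝ))).le
      rw [c6] at c3
      nlinarith
    have c8 : exp (-(σ.et a₀ * j)) * exp (κ * (l - H)) ≤ S := by
      rw [← exp_add]; exact (exp_le_exp.2 (by linarith)).trans S1
    rw [e1]
    refine (abs_add_le _ _).trans ?_
    rw [abs_mul (exp _), abs_of_pos (exp_pos _)]
    have c9 := mul_le_mul_of_nonneg_left c7 (exp_pos (-(σ.et a₀ * j))).le
    have c10 := mul_le_mul_of_nonneg_left c8 (show 0 ≤ 2 * (Fintype.card ν *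
      exp (e + κ * H - g / lg * l)) + 2 * exp (-(X.u / 2)) by positivity)
    have c11 := mul_le_mul_of_nonneg_right hh S0.le
    nlinarith
  · have e1 : ∑ a, f a / S * (exp (σ.et a * j) * β a) =
        (M (∑ a, (if a = σ.τ then 0 else β a) • col X ω a q) - β σ.τ • y) x / S := by
      rw [Pi.sub_apply, map_sum, Finset.sum_apply, ← add_sum_erase _ _ (mem_univ σ.τ),
        ← add_sum_erase _ _ (mem_univ σ.τ), eq_div_iff S0.ne', add_mul, sum_mul]
      have e2 : ∀ a, f a / S * (exp (σ.et a * j) * β a) * S =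
          β a * if a = σ.τ then -y x else M (col X ω a q) x := fun a => by
        rw [hf]
        simp only [exp_neg]
        have := (exp_pos (σ.et a * j)).ne'
        field_simp
      simp only [e2, if_true, map_smul, Pi.smul_apply, smul_eq_mul, zero_mul, zero_add]
      rw [sum_congr rfl fun a (ha : a ∈ univ.erase σ.τ) => by
        rw [if_neg (ne_of_mem_erase ha)]]
      rw [sum_congr rfl fun a (ha : a ∈ univ.erase σ.τ) =>
        show (if a = σ.τ then 0 else β a) * M (col X ω a q) x = β a * M (col X ω a q) x by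
          rw [if_neg (ne_of_mem_erase ha)]]
      ring
    rw [e1, abs_div, abs_of_pos S0, div_le_iff₀ S0]
    refine ((norm_le_pi_norm _ x).trans hd).trans (le_trans (le_of_eq ?_)
      (mul_le_mul_of_nonneg_left S1 (exp_pos _).le))
    rw [← exp_add, ← kl]; congr 1; ring

end Chi

variable [DecidableEq ν]

/-- The data of the first run on the atom of `ω`. -/
noncomputable def dat (σ : Bc α ν) (X : Bd α ν) (Y : Wd X) (q : ν) (rA δ : ℝ) (ω : X.Ω) :
    EB.Dat ν (σ.I1 q) ν (X.Vt × (α → ℝ) × ℕ) X.Ω where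
  P := X.At σ q ω
  n := Y.n ω
  U := σ.C * X.u
  I := Y.I ω
  Ξ := fun k => (2 : ℝ) • Y.M ω k
  l := Y.l ω
  J := Jm σ X ω q
  C := fun θ => Cm σ X ω q θ.2.1
  s := fun θ => θ.2.1 σ.τ
  j := fun θ => θ.2.2
  B := X.Bv σ q
  τ := X.T
  Gd := fun k v => Y.Gd ω k (X.N v) (X.T v)
  ex := X.ex σ rA δ

/-- The inequalities between the constants. -/
structure Nm (σ : Bc α ν) (κ u c C a b x e L ρ β η rA g m n' C' : ℝ) : Prop where
  u0 : 0 < u
  b1 : 12 * β ≤ b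
  b2 : 12 * β ≤ a * b
  b3 : 1 ≤ β
  C1 : 1 ≤ C
  r0 : 0 ≤ ρ
  x0 : 0 ≤ x
  xc : x ≤ c
  g0 : 0 ≤ g
  eu : e ≤ u / 2
  up : 2 * (Fintype.card ν : ℝ) ≤ exp ρ
  ga : 2 * (Fintype.card α * (Fintype.card ν * exp e)) ≤ exp ρ
  L0 : 0 ≤ EB.cE κ * L
  L1 : EB.cE κ * L ≤ c * u / 2
  top : ρ + 4 * β ≤ lg * u / 2
  word : Fintype.card α * (Fintype.card ν * (Fintype.card ν *
    exp (2 * e + m / lg * (EB.cE κ * L) - g * (c * u / (2 * lg))))) +
    Fintype.card α * (Fintype.card ν * exp (e - u)) ≤ exp (-(12 * β))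
  thin : κ * (x * u) + rA * u ≤ ρ
  chr : 2 * (Fintype.card ν * exp (e + κ * (x * u) - g / lg * (c * u))) + 3 * exp (-(u / 2)) ≤
    exp (-(2 * rA * u))
  r1 : ρ ≤ η * L
  short : L ≤ η * lg * (σ.C * u)
  dep : 2 * L ≤ u * lg
  mass : n' * lg * σ.C * b ≤ c * β
  tot : C * C ≤ C' * lg * σ.C

variable {Y : Wd X} {r c C a b x e L ρ β η rA g m n' C' δ : ℝ} {ω : X.Ω} {q : ν} {a₀ : α}

theorem anti (p : Y.Pt σ r c C a b ω) (hb : 0 ≤ b) {i k : ℕ} (h : i ≤ k) (z : ν → ℝ) :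
    ‖Y.M ω k z‖ ≤ ‖Y.M ω i z‖ := by
  induction k, h using Nat.le_induction with
  | base => exact le_rfl
  | succ k _ ih =>
    exact (p.nest k z).trans ((mul_le_of_le_one_left (norm_nonneg _)
      (exp_le_one_iff.2 (by linarith))).trans ih)

theorem box (p : Y.Pt σ r c C a b ω) {v : X.Ω} (h : X.ρ v = X.ρ ω) {i : ℕ} (hi : i < Y.n ω) :
    Box σ X r v (Y.M ω i) (Y.l ω i) :=
  ⟨p.sup i, p.fine i, fun a' s hs => by
    have := p.up i hi a' s hs
    unfold col; rw [h]; exact this⟩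

omit [DecidableEq ν] in
theorem rho_eq (k : X.Ok σ e) {v : X.Ω} (hv : v ∈ X.P.S) (hω : ω ∈ X.P.S)
    (h : X.cx σ q v = X.cx σ q ω) : X.ρ v = X.ρ ω := by
  simp only [Bd.cx, Prod.mk.injEq] at h
  funext a' p s
  by_cases hs : s = σ.o
  · subst hs
    exact congrFun (congrFun h.2.2.2.1 a') p
  · exact k.fρ a' p s hs v hv ω hω (Prod.ext h.1 h.2.1)

omit [Fintype α] [DecidableEq ν] in
theorem norm_two (M : (ν → ℝ) →L[ℝ] (ν → ℝ)) (z : ν → ℝ) : ‖((2 : ℝ) • M) z‖ = 2 * ‖M z‖ := by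
  change ‖(2 : ℝ) • M z‖ = _
  rw [norm_smul, Real.norm_two]

theorem gp (o : σ.Ok) (k : X.Ok σ e) (A : Atoms σ X q e) (hω : ω ∈ X.P.S)
    (p : Y.Pt σ r c C a b ω) {κ : ℝ} (N : Nm σ κ X.u c C a b x e L ρ β η rA g m n' C')
    (hg : ∀ p q, σ.wt q < σ.wt p → g ≤ σ.wt p - σ.wt q) (hm : ∀ a, σ.et a ≤ m)
    {i k' : ℕ} (hi : i < Y.n ω) (hik : i ≤ k') (θ : X.Vt × (α → ℝ) × ℕ)
    (hl : Y.l ω i ≤ lg * θ.2.2 + EB.cE κ * L) : (dat σ X Y q rA δ ω).Gp β k' θ := by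
  intro v hv v' hv' g1 g2 t1 t2 hle
  obtain ⟨m1, c1⟩ := (A.mem ω hω v).1 hv
  obtain ⟨m2, c2⟩ := (A.mem ω hω v').1 hv'
  change X.T v = θ at t1
  change X.T v' = θ at t2
  have r1 := rho_eq k m1 hω c1
  have r2 := rho_eq k m2 hω c2
  have c3 := c1.trans c2.symm
  have bl := A.ball v v' c3
  simp only [Bd.cx, Prod.mk.injEq] at c3
  obtain ⟨eK, -, eo, eθ, e2, -⟩ := c3
  have tt := t1.trans t2.symm
  have eb : X.b v = θ.2.1 := congrArg (·.2.1) t1
  have eb' : X.b v' = θ.2.1 := congrArg (·.2.1) t2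
  have ej : X.j v = θ.2.2 := congrArg (·.2.2) t1
  have eW : X.W v = X.W v' := k.fW' v m1 v' m2 (by simp only [eK, tt, eθ])
  have eR : X.R v = X.R v' := by unfold Bd.R; rw [r1, r2, eb, eb']
  set y := X.Z v - X.Z v' with hy
  have y1 : ∀ s, σ.cl s ≠ σ.cl q → y s = 0 := fun s hs => by
    have := congrFun eo s
    simp only [Bc.oth, if_neg hs] at this
    exact sub_eq_zero.2 this
  have y2 : ∀ s : σ.I2 q, y s.1 = 0 := fun s => sub_eq_zero.2 (congrFun e2 s)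
  have y3 : (X.Bv σ q v - X.Bv σ q v').1 = y := by
    funext s
    simp only [Bd.Bv, Prod.fst_sub, Pi.sub_apply, Bc.blk]
    split_ifs with h
    · rfl
    · rw [y1 s h, sub_zero]
  have y4 : (X.Bv σ q v - X.Bv σ q v').2 = fun s => y s.1 := rfl
  have y5 : ‖y‖ ≤ 1 := y3 ▸ (norm_fst_le _).trans bl
  have t := k.pt v m1
  have Bi := box p r1 hi
  set Φ := X.b v σ.τ • Jm σ X v q y + Cm σ X v q (X.b v) fun s => y s.1 with hΦ
  have eΦ : (dat σ X Y q rA δ ω).Φ k' θ ((dat σ X Y q rA δ ω).B v - (dat σ X Y q rA δ ω).B v') =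
      ((2 : ℝ) • Y.M ω k') Φ := by
    rw [EB.Dat.Φ_apply]
    change ((2 : ℝ) • Y.M ω k') (θ.2.1 σ.τ • Jm σ X ω q (X.Bv σ q v - X.Bv σ q v').1 +
      Cm σ X ω q θ.2.1 (X.Bv σ q v - X.Bv σ q v').2) = _
    rw [y3, y4, hΦ, eb]
    unfold Jm Cm
    rw [r1]
  have b0 : 0 ≤ b := by linarith [N.b1, N.b3]
  have w1 := Bi.word o t hg hm N.L0 (ej ▸ hl) y5
  have w2 := Bi.diff t o y1 y2 y5
  have hj : c * X.u / (2 * lg) ≤ X.j v := by
    rw [div_le_iff₀ (by linarith [lg_pos]), ej]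
    linarith [(p.lev i hi).1, N.L1]
  have w3 : ‖Y.M ω i ((X.R v * X.W v) *ᵥ y)‖ ≤ Fintype.card α * (Fintype.card ν *
      (Fintype.card ν * exp (2 * e + m / lg * (EB.cE κ * L) - g * (c * X.u / (2 * lg))))) := by
    refine w1.trans ?_
    have := mul_le_mul_of_nonneg_left hj N.g0
    gcongr
  set err := (X.R v * X.W v) *ᵥ y - (X.R v *ᵥ y - Φ) with herr
  have w4 : ‖Y.M ω k' err‖ ≤ exp (-(12 * β)) := by
    refine (anti p b0 hik _).trans ?_
    rw [herr, map_sub]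
    exact (norm_sub_le _ _).trans ((add_le_add w3 w2).trans N.word)
  have eN : X.N v - X.N v' = err - Φ := by
    unfold Bd.N
    rw [← eR, ← eW, ← mulVec_sub, ← hy, sub_mulVec, herr]; abel
  rw [eΦ, norm_two] at hle ⊢
  have s1 : exp (-(12 * β)) * 4 ≤ exp (-(6 * β)) := by
    have h1 : 4 ≤ exp (6 * β) := by linarith [add_one_le_exp (6 * β), N.b3]
    refine (mul_le_mul_of_nonneg_left h1 (exp_pos _).le).trans_eq ?_
    rw [← exp_add]; congr 1; ring
  have s2 : exp (-(6 * β)) ≤ 1 := exp_le_one_iff.2 (by linarith [N.b3])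
  have s3 : exp (-b) ≤ exp (-(12 * β)) := exp_le_exp.2 (by linarith [N.b1])
  have n1 : ‖Y.M ω k' (X.N v - X.N v')‖ ≤ 1 := by
    rw [eN, map_sub]
    exact (norm_sub_le _ _).trans (by linarith)
  have n2 := p.gp k' _ _ θ (t1 ▸ g1) (t2 ▸ g2) n1
  have n3 : Y.M ω k' Φ = Y.M ω k' err - Y.M ω k' (X.N v - X.N v') := by
    rw [eN, ← map_sub, sub_sub_cancel]
  have n4 := norm_sub_le (Y.M ω k' err) (Y.M ω k' (X.N v - X.N v'))
  rw [n3]; linarith

theorem ac (o : σ.Ok) (k : X.Ok σ e) (A : Atoms σ X q e) (hω : ω ∈ X.P.S)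
    (p : Y.Pt σ r c C a b ω) (N : Nm σ (σ.et a₀ / lg) X.u c C a b x e L ρ β η rA g m n' C')
    (hg : ∀ p q, σ.wt q < σ.wt p → g ≤ σ.wt p - σ.wt q) (hδ : 0 ≤ δ)
    (ts : ∀ i ∈ Y.I ω, Y.TS σ x a₀ q ω i) (hp : σ.ps q) (h0 : r * σ.w q = σ.wt q + σ.et a₀) :
    (dat σ X Y q rA δ ω).Ac lg (σ.et a₀ / lg) ρ L (X.At σ q ω) := by
  classical
  intro E i Γ hI
  set q₁ : σ.I1 q := ⟨q, hp, rfl, rfl⟩ with hq₁
  have hχ : ∀ j : ℕ, ∃ χ, X.Chr (2 * rA * X.u) ω χ ∧ ∀ (b' : α → ℝ) (d : ℝ),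
      ‖Y.M ω (i j) (∑ a, (if a = σ.τ then 0 else b' a) • col X ω a q) -
        b' σ.τ • Y.M ω (i j) (Γ j (Pi.single q₁ 1))‖ ≤
        exp (σ.et a₀ / lg * (Y.l ω (i j) - lg * j) - d) →
      |∑ a, χ a * (exp (σ.et a * j) * b' a)| ≤ exp (σ.et a₀ / lg * (x * X.u) - d) := by
    intro j
    have hi := p.sub _ (hI j)
    obtain ⟨t1, t2, t3⟩ := ts _ (hI j)
    have l1 := (p.lev _ hi).1
    refine (box p rfl hi).chi o (k.pt ω hω) hg t1 t2 h0 (mul_nonneg N.x0 N.u0.le)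
      ((mul_le_mul_of_nonneg_right N.xc N.u0.le).trans l1) N.eu t3 (le_trans ?_ N.chr) _ j
    have := mul_le_mul_of_nonneg_left l1 (div_nonneg N.g0 lg_pos.le)
    gcongr
  choose χ h1 h2 using hχ
  refine le_trans (pb_mono fun v hv h => ⟨h.1, ?_, ?_⟩) (A.ac rA δ hδ ω hω E χ)
  · obtain ⟨m1, c1⟩ := (A.mem ω hω v).1 hv
    simp only [Bd.cx, Prod.mk.injEq] at c1
    have ec : X.c v = X.c ω := k.fc v m1 ω hω (Prod.ext c1.1 c1.2.1)
    have := h1 (X.j v)
    unfold Bd.Chr at this ⊢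
    rw [ec]; exact this
  · have h3 := h.2.2.2 (Pi.single q₁ 1)
    change ‖((2 : ℝ) • Y.M ω (i (X.j v))) (Cm σ X ω q (X.b v) (Pi.single q₁ 1) -
      X.b v σ.τ • Γ (X.j v) (Pi.single q₁ 1))‖ ≤ exp (σ.et a₀ / lg *
        (Y.l ω (i (X.j v)) - lg * X.j v) - ρ) * ‖(Pi.single q₁ 1 : σ.I1 q → ℝ)‖ at h3
    rw [Pi.norm_single, norm_one, mul_one, norm_two, map_sub, map_smul, Cm_apply] at h3
    have e1 : ∑ a, ∑ s : σ.I1 q, (if a = σ.τ then 0 else X.b v a *
        (Pi.single q₁ 1 : σ.I1 q → ℝ) s) • col X ω a s.1 =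
        ∑ a, (if a = σ.τ then 0 else X.b v a) • col X ω a q := by
      refine sum_congr rfl fun a _ => ?_
      rw [sum_eq_single q₁ (fun s _ hs => by simp [hs]) (by simp)]
      simp [hq₁]
    rw [e1] at h3
    refine (h2 (X.j v) (X.b v) ρ (le_trans ?_ h3)).trans (exp_le_exp.2 (by linarith [N.thin]))
    exact le_mul_of_one_le_left (norm_nonneg _) one_le_two

/-- The hypotheses of the first run hold on the atom. -/
theorem ok1 (o : σ.Ok) (k : X.Ok σ e) (A : Atoms σ X q e) (hω : ω ∈ X.P.S)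
    (p : Y.Pt σ r c C a b ω) (N : Nm σ (σ.et a₀ / lg) X.u c C a b x e L ρ β η rA g m n' C')
    (hg : ∀ p q, σ.wt q < σ.wt p → g ≤ σ.wt p - σ.wt q) (hm : ∀ a, σ.et a ≤ m) (hδ : 0 ≤ δ)
    (ts : ∀ i ∈ Y.I ω, Y.TS σ x a₀ q ω i) (hq : q ≠ σ.o) (hp : σ.ps q)
    (h0 : r * σ.w q = σ.wt q + σ.et a₀) (hC : 0 < σ.C) :
    (dat σ X Y q rA δ ω).Ok1 lg (σ.et a₀ / lg) n' C' η β ρ L X.u fun k => C * Y.la ω k := by
  have b0 : 0 < b := by linarith [N.b1, N.b3]
  have eU : (((dat σ X Y q rA δ ω).U : ℕ) : ℝ) = σ.C * X.u := Nat.cast_mul _ _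
  have u0 := N.u0
  refine
    { ball := fun v hv v' hv' => A.ball v v'
        (((A.mem ω hω v).1 hv).2.trans ((A.mem ω hω v').1 hv').2.symm)
      sub := p.sub
      nest := fun k' _ z => ?_
      r0 := N.r0
      up := fun i hi z => ?_
      lev := fun i hi => ?_
      u0 := Nat.mul_pos hC (by exact_mod_cast N.u0)
      mass := ?_
      ex0 := X.ex_nonneg σ rA hδ
      lv := fun E W hW => (A.lv ω hω E W hW).trans (le_add_of_nonneg_right
        (FP.E_nonneg _ fun v _ => ?_))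
      sz := fun v hv => (k.pt v ((A.mem ω hω v).1 hv).1).bt
      ga := fun v hv i hi _ z => ?_
      gp := fun k' _ θ ⟨i, hi, hik, hl⟩ => gp o k A hω p N hg hm (p.sub i hi) hik θ hl
      lnest := fun k' hk => le_trans (add_le_add le_rfl N.b2) (p.lnest k' hk)
      grow := fun i k' hik hk => ⟨(p.lgro i k' hik hk).trans_eq (mul_sub _ _ _), fun z => ?_⟩
      tot := fun k' hk => ⟨?_, ?_⟩
      ac := ac o k A hω p N hg hδ ts hp h0
      r1 := N.r1
      short := eU ▸ N.short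
      dep := N.dep }
  · change ‖((2 : ℝ) • Y.M ω (k' + 1)) z‖ ≤ _ * ‖((2 : ℝ) • Y.M ω k') z‖
    rw [norm_two, norm_two, mul_left_comm]
    refine mul_le_mul_of_nonneg_left ((p.nest k' z).trans (mul_le_mul_of_nonneg_right
      (exp_le_exp.2 (by linarith [N.b1])) (norm_nonneg _))) zero_le_two
  · change ‖((2 : ℝ) • Y.M ω i) (Jm σ X ω q z)‖ ≤ exp (Y.l ω i + ρ) * _
    rw [norm_two, exp_add]
    have h1 := (box p rfl (p.sub i hi)).J_le o hq z
    have h2 := mul_le_mul_of_nonneg_right N.up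
      (mul_nonneg (exp_pos (Y.l ω i)).le (norm_nonneg z))
    linarith
  · have h1 := p.lev i (p.sub i hi)
    change EB.cE _ * L ≤ Y.l ω i ∧ Y.l ω i + ρ + 4 * β ≤ _
    rw [eU]
    exact ⟨by linarith [N.L0, N.L1], by linarith [N.top]⟩
  · change _ ≤ β * ((Y.I ω).card : ℝ)
    rw [eU]
    have h1 := mul_le_mul_of_nonneg_right N.mass u0.le
    have h2 := mul_le_mul_of_nonneg_left p.lo (show 0 ≤ β by linarith [N.b3])
    exact le_of_mul_le_mul_left (a := b) (by linarith) b0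
  · split_ifs
    · exact X.ex_nonneg σ rA hδ v
    · exact le_rfl
  · change ‖((2 : ℝ) • Y.M ω i) (Cm σ X ω q (X.b v) z)‖ ≤
      exp (σ.et a₀ / lg * (Y.l ω i - lg * X.j v) + ρ) * _
    have h1 := (box p rfl (p.sub i hi)).C_le o (k.pt ω hω) hq h0
      (k.pt v ((A.mem ω hω v).1 hv).1).bb z
    have h2 := mul_le_mul_of_nonneg_right N.ga (mul_nonneg
      (exp_pos (σ.et a₀ / lg * (Y.l ω i - lg * X.j v))).le (norm_nonneg z))
    rw [norm_two, exp_add]
    rw [exp_add] at h1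
    linarith
  · change ‖((2 : ℝ) • Y.M ω i) z‖ ≤ _ * ‖((2 : ℝ) • Y.M ω k') z‖
    rw [norm_two, norm_two, mul_left_comm]
    refine mul_le_mul_of_nonneg_left ((p.gro i k' hik z).trans (mul_le_mul_of_nonneg_right
      (exp_le_exp.2 ?_) (norm_nonneg _))) zero_le_two
    have := mul_le_mul_of_nonneg_right N.C1 (sub_nonneg.2 (p.mono hik))
    linarith
  · exact mul_nonneg (by linarith [N.C1]) (p.la0 ▸ p.mono (Nat.zero_le k'))
  · rw [eU]
    have h1 := mul_le_mul_of_nonneg_left ((p.mono (show k' ≤ Y.n ω from hk.le)).trans p.lan)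
      (show 0 ≤ C by linarith [N.C1])
    have h2 := mul_le_mul_of_nonneg_right N.tot u0.le
    linarith

end Pool.Agent.MP_4b405e_nt.FB.S1
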