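import Pool.Agent.MP_4b405e_nt.SK.FNc1
import Pool.Agent.MP_4b405e_nt.SK.FKill

/-! Degenerate functionals in label form; pointwise facts about the noise. -/

namespace Pool.Agent.MP_4b405e_nt.FB

open Pool.Agent.MP_5168f5_an H19 H17S H17F Real Matrix Filter Finset FC

variable {α ν : Type} [Fintype α] [Fintype ν] {σ : Bc α ν}

theorem ch_prop {Ω β : Type} (P : FP Ω) (E : Ω → Prop) (G : Ω → β) : ch P E G ≤ lg := by
  classical
  exact ch_det fun _ _ => ⟨{True, False}, by exact_mod_cast card_le_two, fun b _ _ => by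
    by_cases h : E b <;> simp [h]⟩

namespace Bc

omit [Fintype α] in
theorem dot_blk {r : ℝ} {ψ : ν → ℝ} (h : ∀ p, ψ p ≠ 0 → σ.cl p = r) (y : ν → ℝ) :
    ψ ⬝ᵥ σ.blk r y = ψ ⬝ᵥ y := sum_congr rfl fun p _ => by
  by_cases e : ψ p = 0
  · simp [e]
  · simp [blk, h p e]

omit [Fintype α] in
theorem dot_split (r : ℝ) (ψ y : ν → ℝ) : ψ ⬝ᵥ y = σ.blk r ψ ⬝ᵥ y + ψ ⬝ᵥ σ.oth r y := by
  simp only [dotProduct, ← sum_add_distrib]
  exact sum_congr rfl fun p _ => by by_cases e : σ.cl p = r <;> simp [blk, oth, e]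

/-- The weight of a functional. -/
noncomputable def mw (σ : Bc α ν) (ξ : ν → ℝ) : ℝ := ∑ p, |ξ p| * σ.wt p

omit [Fintype α] in
theorem Un.mw {ξ : ν → ℝ} (h : σ.Un ξ) (p : ν) (e : ξ p ≠ 0) : σ.wt p = σ.mw ξ := by
  rw [← one_mul (σ.wt p), ← h.1, sum_mul]
  exact sum_congr rfl fun q _ => by
    by_cases k : ξ q = 0
    · simp [k]
    · rw [(h.2.2 p q e k).1]

omit [Fintype α] in
theorem Un.mw_le (o : σ.Ok) {ξ : ν → ℝ} (h : σ.Un ξ) : σ.mw ξ ≤ ∑ p, σ.wt p :=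
  sum_le_sum fun p _ => mul_le_of_le_one_left (o.wt_nonneg p)
    (h.1 ▸ single_le_sum (f := fun p => |ξ p|) (fun _ _ => abs_nonneg _) (mem_univ p))

/-- The point `y` lies in the slab `x` of class `r` and width `exp (-h)`. -/
def Slab (σ : Bc α ν) (r h : ℝ) (x : (ν → ℝ) × ℝ) (y : ν → ℝ) : Prop :=
  σ.Un x.1 ∧ (∀ p, x.1 p ≠ 0 → σ.cl p = r) ∧ |x.1 ⬝ᵥ y - x.2| ≤ exp (-h)

omit [Fintype α] in
theorem round {r : ℝ} {ψ : ν → ℝ} (h1 : ∑ p, |ψ p| = 1) (h : ∀ p, ψ p ≠ 0 → σ.cl p = r) (u : ℕ)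
    (y : ν → ℝ) : |(ψ ⬝ᵥ fun p => (flv u (σ.blk r y) p : ℝ) / 2 ^ u) - ψ ⬝ᵥ y| ≤
      exp (-(1 / 2 * u)) := by
  rw [← dot_blk h y, ← dotProduct_sub]
  refine (dot_le _ _).trans ?_
  rw [h1, one_mul]
  refine (pi_norm_le_iff_of_nonneg (exp_pos _).le).2 fun p => ?_
  have a := abs_fl1_sub u (σ.blk r y p)
  have b := exp_le_two_pow u
  have c : (0 : ℝ) < 2 ^ u := by positivity
  have d : exp (-(1 / 2 * u : ℝ)) * exp (u / 2) = 1 := by rw [← exp_add]; ring_nf; simp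
  rw [Real.norm_eq_abs, Pi.sub_apply, ← mul_div_cancel_left₀ (σ.blk r y p) c.ne', ← sub_div,
    abs_div, abs_of_pos c, div_le_iff₀ c]
  exact a.trans (d.ge.trans (mul_le_mul_of_nonneg_left b (exp_pos _).le))

end Bc

namespace Bd

variable {X : Bd α ν} {e : ℝ} {ω : X.Ω}

/-- The matrix of the noise. -/
noncomputable def L (X : Bd α ν) (ω : X.Ω) : Matrix ν ν ℝ := X.R ω * X.W ω - X.R ω

theorem Pt.gR (o : σ.Ok) (t : X.Pt σ e ω) {p q : ν} (h : X.R ω p q ≠ 0) :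
    σ.wt q < σ.wt p ∧ (q ≠ σ.o → σ.w p = σ.w q) := by
  rw [R, Matrix.sum_apply] at h
  obtain ⟨a, -, ha⟩ := exists_ne_zero_of_sum_ne_zero h
  have := t.gr a p q (right_ne_zero_of_mul ha)
  exact ⟨by linarith [this.1, o.et0 a], this.2⟩

theorem Pt.gL (o : σ.Ok) (t : X.Pt σ e ω) {p q : ν} (h : X.L ω p q ≠ 0) :
    σ.wt q < σ.wt p ∧ (q ≠ σ.o → σ.w p = σ.w q) := by
  by_cases k : X.R ω p q = 0
  · rw [L, Matrix.sub_apply, k, sub_zero, mul_apply] at h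
    obtain ⟨s, -, hs⟩ := exists_ne_zero_of_sum_ne_zero h
    have a := t.gR o (left_ne_zero_of_mul hs)
    have b := t.gW s q (right_ne_zero_of_mul hs)
    refine ⟨b.1.trans a.1, fun c => (a.2 fun d => ?_).trans (b.2 c)⟩
    have := o.wt_nonneg q
    rw [d, o.wo] at b
    linarith [b.1]
  · exact t.gR o k

theorem Pt.vL (o : σ.Ok) (t : X.Pt σ e ω) {ξ : ν → ℝ} {q : ν} (hq : q ≠ σ.o)
    (h : (ξ ᵥ* X.L ω) q ≠ 0) : ∃ p, ξ p ≠ 0 ∧ σ.w p = σ.w q ∧ σ.cl q < σ.cl p := by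
  obtain ⟨p, -, hp⟩ := exists_ne_zero_of_sum_ne_zero h
  have a := t.gL o (right_ne_zero_of_mul hp)
  refine ⟨p, left_ne_zero_of_mul hp, a.2 hq, ?_⟩
  rw [Bc.cl, Bc.cl, a.2 hq]
  exact div_lt_div_of_pos_right a.1 (o.w0 q)

theorem Ok.ρ_eq (k : X.Ok σ e) {a b : X.Ω} (ha : a ∈ X.P.S) (hb : b ∈ X.P.S) (e1 : X.K a = X.K b)
    (e2 : X.v a = X.v b) (e3 : X.θ σ a = X.θ σ b) : X.ρ a = X.ρ b := by
  funext c p q
  by_cases hq : q = σ.o
  · subst hq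
    exact congrFun (congrFun e3 c) p
  · exact k.fρ c p q hq a ha b hb (Prod.ext e1 e2)

theorem Ok.L_eq (k : X.Ok σ e) {a b : X.Ω} (ha : a ∈ X.P.S) (hb : b ∈ X.P.S) (e1 : X.K a = X.K b)
    (e2 : X.T a = X.T b) (e3 : X.θ σ a = X.θ σ b) : X.L a = X.L b := by
  have e4 : X.b a = X.b b := congrArg (·.2.1) e2
  rw [L, L, R, R, k.ρ_eq ha hb e1 (congrArg (·.1) e2) e3, e4,
    k.fW' a ha b hb (Prod.ext e1 (Prod.ext e2 e3))]

theorem Ok.L_col (o : σ.Ok) (k : X.Ok σ e) {a b : X.Ω} (ha : a ∈ X.P.S) (hb : b ∈ X.P.S)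
    (e1 : X.K a = X.K b) (e2 : X.T a = X.T b) (p : ν) {q : ν} (hq : q ≠ σ.o) :
    X.L a p q = X.L b p q := by
  have e4 : X.b a = X.b b := congrArg (·.2.1) e2
  have e5 : ∀ p q, q ≠ σ.o → X.R a p q = X.R b p q := fun p q hq => by
    simp only [R, Matrix.sum_apply, Matrix.smul_apply, e4]
    exact sum_congr rfl fun c _ =>
      congrArg _ (k.fρ c p q hq a ha b hb (Prod.ext e1 (congrArg (·.1) e2)))
  simp only [L, Matrix.sub_apply, mul_apply, e5 p q hq]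
  congr 1
  refine sum_congr rfl fun s _ => ?_
  have e6 : X.W a s q = X.W b s q := k.fW s q hq a ha b hb (Prod.ext e1 e2)
  by_cases hs : s = σ.o
  · have : X.W b s q = 0 := by
      by_contra c
      have d := ((k.pt b hb).gW s q c).1
      rw [hs, o.wo] at d
      linarith [o.wt_nonneg q]
    rw [e6, this, mul_zero, mul_zero]
  · rw [e5 p s hs, e6]

theorem dot_N (ξ : ν → ℝ) (ω : X.Ω) : ξ ⬝ᵥ X.N ω = (ξ ᵥ* X.L ω) ⬝ᵥ X.Z ω :=
  dotProduct_mulVec _ _ _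

end Bd

variable {X : ℕ → Bd α ν}

theorem Bs.b1 (h : Bs σ X) (r : ℝ) : Sm (fun n => (X n).u) fun n => mi (X n).P
    (fun ω => flv (X n).u (σ.blk r ((X n).Z ω + (X n).N ω))) (fun ω => σ.blk r ((X n).N ω))
    fun ω => ((X n).K ω, (X n).T ω) :=
  fun ε hε => (h.ev ε hε).mono fun _ k => (k.b1 r).trans_eq (zero_add _).symm

theorem Bs.b2 (h : Bs σ X) (r : ℝ) : Sm (fun n => (X n).u) fun n => mi (X n).P
    (fun ω => σ.blk r ((X n).Z ω))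
    (fun ω => (σ.oth r ((X n).Z ω), (X n).θ σ ω, (X n).T ω)) (X n).K :=
  fun ε hε => (h.ev ε hε).mono fun _ k => (k.b2 r).trans_eq (zero_add _).symm

theorem Bs.b3 (h : Bs σ X) : Sm (fun n => (X n).u) fun n => mi (X n).P ((X n).θ σ)
    (fun ω => ((X n).Z ω, (X n).b ω, (X n).j ω)) fun ω => ((X n).K ω, (X n).v ω) :=
  fun ε hε => (h.ev ε hε).mono fun _ k => k.b3.trans_eq (zero_add _).symm

theorem card_list {β : Type} [DecidableEq β] (f : ℕ → β) {m : ℕ} {x : ℝ}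
    (h : Real.log (m + 1) ≤ 0 + x) : (((range (m + 1)).image f).card : ℝ) ≤ exp x := by
  rw [zero_add, log_le_iff_le_exp (by positivity)] at h
  refine le_trans ?_ h
  exact_mod_cast card_image_le.trans (card_range _).le

/-- Functionals and tilts with small information are not degenerate. -/
theorem ndL (h : Bs σ X) {r : ℝ} (hr : 0 < r) (ξ : ∀ n, (X n).Ω → ν → ℝ)
    (l : ∀ n, (X n).Ω → α → ℝ)
    (h1 : Sm (fun n => (X n).u) fun n =>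
      mi (X n).P (ξ n) (fun ω => ((X n).v ω, (X n).θ σ ω)) (X n).K)
    (h2 : Sm (fun n => (X n).u) fun n =>
      mi (X n).P (l n) ((X n).θ σ) fun ω => ((X n).K ω, (X n).v ω, ξ n ω)) :
    Whp (fun n => (X n).P) fun n ω =>
      ¬(σ.Un (ξ n ω) ∧ (X n).Dg σ (r * (X n).u) ω (ξ n ω) (l n ω)) := by
  classical
  let D : ℕ → (α → Matrix ν ν ℝ) → (ν → ℝ) → (α → ℝ) → Prop := fun n ρ ξ l => σ.Un ξ ∧
    ∀ a, (∀ q, q ≠ σ.o → |(ξ ᵥ* ρ a) q| ≤ exp (-(r * (X n).u))) ∧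
      |(ξ ᵥ* ρ a) σ.o - l a| ≤ exp (-(r * (X n).u))
  obtain ⟨f1, ι1, m1, a1, b1, -, c1⟩ := coverS h.big (fun n ω => ((X n).K ω, (X n).v ω, ξ n ω)) l
    (fun n => (X n).ρ) (fun n c y ρ => D n ρ c.2.2 y)
    (h2.mono ((h.ev 1 one_pos).mono fun n k => mi_mono fun a ha b hb e =>
      k.ρ_eq ha hb (congrArg (·.2.1) e) (congrArg (·.2.2.1) e) (congrArg (·.1) e)))
  obtain ⟨f2, ι2, m2, a2, b2, -, c2⟩ := coverS h.big (fun n => (X n).K) ξ
    (fun n ω => ((X n).v ω, (X n).ρ ω))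
    (fun n k x w => ∃ y ∈ (range (m1 n + 1)).image fun i => l n (f1 n (k, w.1, x) i), D n w.2 x y)
    (h1.mono ((h.ev 1 one_pos).mono fun n k => mi_mono fun a ha b hb e =>
      Prod.ext (congrArg (·.1.1) e)
        (k.ρ_eq ha hb (congrArg (·.2) e) (congrArg (·.1.1) e) (congrArg (·.1.2) e))))
  by_contra hc
  obtain ⟨δ, d0, hd⟩ := ((not_whp hc).and c1).and c2
  obtain ⟨κ, k0, hk⟩ := h.nd r _ hr (half_pos d0)
  obtain ⟨n, u1, u2, u3, u4⟩ := (hd.and (hk.and ((a1 κ k0).and (a2 κ k0)))).exists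
  have := u2 (fun k => (range (m2 n + 1)).image fun i => ξ n (f2 n k i))
    (fun k x y => (range (m1 n + 1)).image fun i => l n (f1 n (k, y, x) i))
    (fun k => card_list _ u4) fun k x y => card_list _ u3
  refine absurd (u1.trans ((pb_mono fun ω _ e => ?_).trans this)) (by linarith)
  obtain ⟨y, v1, v2⟩ := e.2 ⟨_, mem_image_of_mem _ (mem_range.2 (Nat.lt_succ_of_le (b1 n _ _))),
    e.1.2 (not_not.1 e.1.1)⟩
  exact ⟨_, mem_image_of_mem _ (mem_range.2 (Nat.lt_succ_of_le (b2 n _ _))), y, v1, v2⟩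

/-- The same with constants. -/
theorem ndC (h : Bs σ X) {r δ : ℝ} (hr : 0 < r) (hδ : 0 < δ) : ∃ κ : ℝ, 0 < κ ∧ ∀ᶠ n in UF,
    ∀ (ξ : (X n).Ω → ν → ℝ) (l : (X n).Ω → α → ℝ),
      mi (X n).P ξ (fun ω => ((X n).v ω, (X n).θ σ ω)) (X n).K ≤ κ * (X n).u →
      mi (X n).P l ((X n).θ σ) (fun ω => ((X n).K ω, (X n).v ω, ξ ω)) ≤ κ * (X n).u →
      pb (X n).P (fun ω => σ.Un (ξ ω) ∧ (X n).Dg σ (r * (X n).u) ω (ξ ω) (l ω)) ≤ δ := by
  obtain ⟨κ, k0, hk⟩ := consts (u := fun n => (X n).u)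
    (A := fun n => ((X n).Ω → ν → ℝ) × ((X n).Ω → α → ℝ)) (fun _ => (0, 0))
    (fun n x => mi (X n).P x.1 (fun ω => ((X n).v ω, (X n).θ σ ω)) (X n).K +
      mi (X n).P x.2 ((X n).θ σ) fun ω => ((X n).K ω, (X n).v ω, x.1 ω))
    (fun n x => pb (X n).P fun ω => σ.Un (x.1 ω) ∧ (X n).Dg σ (r * (X n).u) ω (x.1 ω) (x.2 ω))
    (δ := δ) fun x hx => by
      simpa only [not_not] using ndL h hr (fun n => (x n).1) (fun n => (x n).2)
        (hx.mono (.of_forall fun n => le_add_of_nonneg_right (mi_nonneg _ _ _)))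
        (hx.mono (.of_forall fun n => le_add_of_nonneg_left (mi_nonneg _ _ _))) δ hδ
  exact ⟨κ / 2, half_pos k0, hk.mono fun n a ξ l b c => a (ξ, l) (by linarith)⟩

end Pool.Agent.MP_4b405e_nt.FB
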