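import Pool.Agent.MP_4b405e_nt.SK.FSp
import Pool.Agent.MP_4b405e_nt.SK.FNc2

/-! The size of letters and words in a box; differences of the noise. -/

namespace Pool.Agent.MP_4b405e_nt.FB

open Pool.Agent.MP_5168f5_an H19 H17S H17F Real Matrix Finset

variable {α ν : Type} [Fintype α] [Fintype ν] {σ : Bc α ν}

theorem clm_mulVec (M : (ν → ℝ) →L[ℝ] (ν → ℝ)) (A : Matrix ν ν ℝ) (D : ν → ℝ) :
    ‖M (A *ᵥ D)‖ ≤ ∑ s, |D s| * ‖M fun p => A p s‖ := by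
  have : A *ᵥ D = ∑ s, D s • fun p => A p s := by
    funext p
    simp [mulVec, dotProduct, mul_comm]
  rw [this, map_sum]
  refine (norm_sum_le _ _).trans (sum_le_sum fun s _ => ?_)
  rw [map_smul, norm_smul, Real.norm_eq_abs]

/-- A bound for the columns that are used. -/
theorem clm_col (M : (ν → ℝ) →L[ℝ] (ν → ℝ)) (A : Matrix ν ν ℝ) (D : ν → ℝ) {G : ℝ} (h0 : 0 ≤ G)
    (h : ∀ s, D s ≠ 0 → ‖M fun p => A p s‖ ≤ G) : ‖M (A *ᵥ D)‖ ≤ Fintype.card ν * ‖D‖ * G := by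
  refine (clm_mulVec M A D).trans ((sum_le_card_nsmul _ _ (‖D‖ * G) fun s _ => ?_).trans_eq
    (by rw [card_univ, nsmul_eq_mul, mul_assoc]))
  by_cases e : D s = 0
  · rw [e, abs_zero, zero_mul]; positivity
  · exact mul_le_mul (norm_le_pi_norm D s) (h s e) (norm_nonneg _) (norm_nonneg _)

theorem ex_pos {ι : Type} [Finite ι] (f : ι → ℝ) : ∃ γ : ℝ, 0 < γ ∧ ∀ i, 0 < f i → γ ≤ f i := by
  classical
  cases nonempty_fintype ι
  by_cases h : (univ.filter fun i => 0 < f i).Nonempty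
  · obtain ⟨i, hi, hm⟩ := exists_min_image _ f h
    exact ⟨f i, (mem_filter.1 hi).2, fun j hj => hm j (mem_filter.2 ⟨mem_univ _, hj⟩)⟩
  · exact ⟨1, one_pos, fun i hi => absurd ⟨i, mem_filter.2 ⟨mem_univ _, hi⟩⟩ h⟩

namespace Bc

omit [Fintype α] in
/-- The least gap between weights. -/
theorem ex_gap (σ : Bc α ν) : ∃ γ : ℝ, 0 < γ ∧ ∀ p q, σ.wt q < σ.wt p → γ ≤ σ.wt p - σ.wt q := by
  obtain ⟨γ, a, b⟩ := ex_pos fun x : ν × ν => σ.wt x.1 - σ.wt x.2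
  exact ⟨γ, a, fun p q h => b (p, q) (sub_pos.2 h)⟩

omit [Fintype ν] in
/-- The range of the weights of the letters. -/
theorem Ok.ex_et (o : σ.Ok) : ∃ g Λ : ℝ, 0 < g ∧ 1 ≤ Λ ∧
    ∀ a, g ≤ σ.et a / lg ∧ σ.et a / lg ≤ Λ := by
  have h : ∀ a, 0 < σ.et a / lg := fun a => div_pos (o.et0 a) lg_pos
  obtain ⟨g, a, b⟩ := ex_pos fun a => σ.et a / lg
  refine ⟨g, 1 + ∑ a, σ.et a / lg, a, ?_, fun a => ⟨b a (h a), ?_⟩⟩
  · linarith [sum_nonneg fun a (_ : a ∈ univ) => (h a).le]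
  · linarith [single_le_sum (fun a _ => (h a).le) (mem_univ a)]

end Bc

namespace Bd

variable {X : Bd α ν} {e l L g Λ γ : ℝ} {ω : X.Ω} {M : (ν → ℝ) →L[ℝ] (ν → ℝ)} {x : ν → ℝ}

theorem R_mulVec (ω : X.Ω) (x : ν → ℝ) : X.R ω *ᵥ x = ∑ a, X.b ω a • X.ρ ω a *ᵥ x := by
  simp only [R, sum_mulVec, smul_mulVec]

/-- One letter in a box. -/
theorem Pt.let_box (t : X.Pt σ e ω) (hx : x σ.o = 0) {a : α}
    (h : ∀ q, q ≠ σ.o → ‖M fun p => X.ρ ω a p q‖ ≤ exp (σ.et a / lg * l)) :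
    ‖M (X.b ω a • X.ρ ω a *ᵥ x)‖ ≤
      Fintype.card ν * ‖x‖ * exp (e + σ.et a / lg * (l - lg * X.j ω)) := by
  rw [map_smul, norm_smul, Real.norm_eq_abs]
  refine (mul_le_mul (t.bb a) (clm_col M _ x (exp_pos _).le fun s hs => h s fun k => hs (k ▸ hx))
    (norm_nonneg _) (exp_pos _).le).trans_eq ?_
  rw [mul_left_comm, ← exp_add]
  congr 2
  field_simp [lg_pos.ne']
  ring

/-- A set of letters in a box. -/
theorem Pt.set_box (t : X.Pt σ e ω) (hx : x σ.o = 0) (S : Finset α) {y : ℝ}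
    (h : ∀ a ∈ S, ∀ q, q ≠ σ.o → ‖M fun p => X.ρ ω a p q‖ ≤ exp (σ.et a / lg * l))
    (hy : ∀ a ∈ S, σ.et a / lg * (l - lg * X.j ω) ≤ y) :
    ‖M (∑ a ∈ S, X.b ω a • X.ρ ω a *ᵥ x)‖ ≤
      Fintype.card α * (Fintype.card ν * ‖x‖ * exp (e + y)) := by
  rw [map_sum]
  refine (norm_sum_le _ _).trans ((sum_le_card_nsmul _ _ (Fintype.card ν * ‖x‖ * exp (e + y))
    fun a ha => (t.let_box hx (h a ha)).trans ?_).trans ?_)
  · gcongr
    exact hy a ha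
  · rw [nsmul_eq_mul]
    gcongr
    exact card_le_univ _

/-- The relative in a box whose level is at most `L` above the level of the relative. -/
theorem Pt.R_box (o : σ.Ok) (t : X.Pt σ e ω) (hx : x σ.o = 0) (hΛ : ∀ a, σ.et a / lg ≤ Λ)
    (h : ∀ a q, q ≠ σ.o → ‖M fun p => X.ρ ω a p q‖ ≤ exp (σ.et a / lg * l)) (L0 : 0 ≤ L)
    (hl : l ≤ lg * X.j ω + L) :
    ‖M (X.R ω *ᵥ x)‖ ≤ Fintype.card α * (Fintype.card ν * ‖x‖ * exp (e + Λ * L)) := by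
  rw [R_mulVec]
  refine t.set_box hx _ (fun a _ => h a) fun a _ => ?_
  have := div_pos (o.et0 a) lg_pos
  exact (mul_le_mul_of_nonneg_left (by linarith) this.le).trans
    (mul_le_mul_of_nonneg_right (hΛ a) L0)

/-- Letters that are seen late: the level `l` is at least `L` below the level of the relative. -/
theorem Pt.late_box (t : X.Pt σ e ω) (hx : x σ.o = 0) (S : Finset α) (hg : ∀ a, g ≤ σ.et a / lg)
    (h : ∀ a ∈ S, ∀ q, q ≠ σ.o → ‖M fun p => X.ρ ω a p q‖ ≤ exp (σ.et a / lg * l)) (L0 : 0 ≤ L)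
    (hl : l + L ≤ lg * X.j ω) (g0 : 0 ≤ g) : ‖M (∑ a ∈ S, X.b ω a • X.ρ ω a *ᵥ x)‖ ≤
      Fintype.card α * (Fintype.card ν * ‖x‖ * exp (e - g * L)) := by
  refine t.set_box hx S h fun a _ => ?_
  have := hg a
  nlinarith

theorem Pt.W_o (o : σ.Ok) (t : X.Pt σ e ω) (D : ν → ℝ) : (X.W ω *ᵥ D) σ.o = 0 :=
  sum_eq_zero fun s _ => by
    have : X.W ω σ.o s = 0 := by
      by_contra c
      have d := (t.gW _ s c).1
      rw [o.wo] at d
      linarith [o.wt_nonneg s]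
    exact mul_eq_zero_of_left this _

theorem Pt.W_norm (t : X.Pt σ e ω) (hγ : ∀ p q, σ.wt q < σ.wt p → γ ≤ σ.wt p - σ.wt q)
    (D : ν → ℝ) : ‖X.W ω *ᵥ D‖ ≤ Fintype.card ν * exp (e - γ * X.j ω) * ‖D‖ := by
  refine norm_mulVec_le (exp_pos _).le (fun p q => ?_) D
  by_cases h : X.W ω p q = 0
  · rw [h, abs_zero]; positivity
  · refine (t.bW p q).trans ?_
    gcongr
    exact hγ p q (t.gW p q h).1

/-- The longer words in a box. -/
theorem Pt.word_box (o : σ.Ok) (t : X.Pt σ e ω) (hΛ : ∀ a, σ.et a / lg ≤ Λ)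
    (hγ : ∀ p q, σ.wt q < σ.wt p → γ ≤ σ.wt p - σ.wt q)
    (h : ∀ a q, q ≠ σ.o → ‖M fun p => X.ρ ω a p q‖ ≤ exp (σ.et a / lg * l)) (L0 : 0 ≤ L)
    (hl : l ≤ lg * X.j ω + L) (D : ν → ℝ) : ‖M ((X.R ω * X.W ω) *ᵥ D)‖ ≤
      Fintype.card α * Fintype.card ν ^ 2 * ‖D‖ * exp (2 * e + Λ * L - γ * X.j ω) := by
  rw [← mulVec_mulVec]
  refine (t.R_box o (t.W_o o D) hΛ h L0 hl).trans ?_
  have := t.W_norm hγ D
  calc _ ≤ Fintype.card α * (Fintype.card ν * (Fintype.card ν * exp (e - γ * X.j ω) * ‖D‖) *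
        exp (e + Λ * L)) := by gcongr
    _ = _ := by
      rw [show 2 * e + Λ * L - γ * X.j ω = e - γ * X.j ω + (e + Λ * L) by ring,
        exp_add (e - γ * X.j ω)]
      ring

theorem N_eq (ω : X.Ω) : X.N ω = X.L ω *ᵥ X.Z ω := rfl

theorem L_mulVec (ω : X.Ω) (D : ν → ℝ) :
    X.L ω *ᵥ D = (X.R ω * X.W ω) *ᵥ D - X.R ω *ᵥ D := sub_mulVec _ _ _

variable {a b : X.Ω}

/-- The difference of the noise at two points with the same context, form and source. -/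
theorem Ok.N_sub (k : X.Ok σ e) (ha : a ∈ X.P.S) (hb : b ∈ X.P.S) (e1 : X.K a = X.K b)
    (e2 : X.T a = X.T b) (e3 : X.θ σ a = X.θ σ b) :
    X.N a - X.N b = X.L a *ᵥ (X.Z a - X.Z b) := by
  rw [N_eq, N_eq, ← k.L_eq ha hb e1 e2 e3, mulVec_sub]

/-- The same with different sources. -/
theorem Ok.N_sub' (o : σ.Ok) (k : X.Ok σ e) (ha : a ∈ X.P.S) (hb : b ∈ X.P.S)
    (e1 : X.K a = X.K b) (e2 : X.T a = X.T b) : X.N a - X.N b =
      X.L a *ᵥ (X.Z a - X.Z b) + fun p => X.L a p σ.o - X.L b p σ.o := by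
  classical
  rw [N_eq, N_eq, mulVec_sub]
  funext p
  have : ∑ s, (X.L a p s - X.L b p s) * X.Z b s = X.L a p σ.o - X.L b p σ.o := by
    rw [sum_eq_single σ.o (fun s _ hs => by rw [k.L_col o ha hb e1 e2 p hs, sub_self, zero_mul])
      (by simp), (k.pt b hb).zo, mul_one]
  simp only [Pi.add_apply, Pi.sub_apply, ← this, mulVec, dotProduct, sub_mul, sum_sub_distrib]
  ring

theorem Ok.Z_sub_o (k : X.Ok σ e) (ha : a ∈ X.P.S) (hb : b ∈ X.P.S) : (X.Z a - X.Z b) σ.o = 0 := by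
  rw [Pi.sub_apply, (k.pt a ha).zo, (k.pt b hb).zo, sub_self]

/-- Off the source a letter depends on the context and the subcap only. -/
theorem Ok.ρ_mulVec (k : X.Ok σ e) (ha : a ∈ X.P.S) (hb : b ∈ X.P.S) (e1 : X.K a = X.K b)
    (e2 : X.v a = X.v b) (c : α) (hx : x σ.o = 0) : X.ρ a c *ᵥ x = X.ρ b c *ᵥ x := by
  funext p
  refine sum_congr rfl fun s _ => ?_
  by_cases hs : s = σ.o
  · simp only [hs, hx, mul_zero]
  · exact congrArg (· * x s) (k.fρ c p s hs a ha b hb (Prod.ext e1 e2))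

theorem Ok.R_mulVec (k : X.Ok σ e) (ha : a ∈ X.P.S) (hb : b ∈ X.P.S) (e1 : X.K a = X.K b)
    (e2 : X.T a = X.T b) (hx : x σ.o = 0) : X.R a *ᵥ x = X.R b *ᵥ x := by
  have e4 : X.b a = X.b b := congrArg (·.2.1) e2
  rw [Bd.R_mulVec, Bd.R_mulVec, e4]
  exact sum_congr rfl fun c _ => by rw [k.ρ_mulVec ha hb e1 (congrArg (·.1) e2) c hx]

end Bd

end Pool.Agent.MP_4b405e_nt.FB
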