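import Pool.Agent.MP_4b405e_nt.SK.FS1
import Pool.Agent.MP_4b405e_nt.SK.FS3
import Pool.Agent.MP_4b405e_nt.SK.FAvg
import Pool.Agent.MP_4b405e_nt.SK.FWord

/-! The first run on a block system: no letter other than `τ` is seen almost first. -/

namespace Pool.Agent.MP_4b405e_nt.FB

open Pool.Agent.MP_5168f5_an H19 H17S H17F Real Matrix Finset Filter

namespace S1

variable {α ν : Type} [Fintype α] [Fintype ν] [DecidableEq ν] {σ : Bc α ν} {X : Bd α ν}
  {Y : Wd X} {r c C a b x e L ρ β η η₀ rA g m n' C' δ κ ε K K' : ℝ} {q : ν} {a₀ : α}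

theorem seen (o : σ.Ok) (k : X.Ok σ e) (h : Y.Ok σ r c C a b κ η₀ (Y.TS σ x a₀ q)) (hc : 0 < c)
    (hx : x ≤ c) (hu : 0 < X.u) :
    q ≠ σ.o ∧ σ.ps q ∧ r * σ.w q = σ.wt q + σ.et a₀ ∧ σ.cl q < r := by
  obtain ⟨ω, hω, E⟩ := ex_of_pb (hc.trans_le h.pe)
  have p := h.pt ω hω E
  have u0 : (0 : ℝ) < X.u := by exact_mod_cast hu
  obtain ⟨i, hi⟩ : (Y.I ω).Nonempty := by
    rw [← card_pos]
    by_contra h0
    have h1 := p.lo
    rw [Nat.eq_zero_of_not_pos h0, Nat.cast_zero, mul_zero] at h1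
    linarith [mul_pos hc u0]
  obtain ⟨t1, t2, t3⟩ := h.ty ω hω E i hi
  exact ⟨t2, (box p rfl (p.sub i hi)).seen o (k.pt ω hω) t1 t2 hu
    ((mul_le_mul_of_nonneg_right hx u0.le).trans (p.lev i (p.sub i hi)).1) t3⟩

theorem fin (o : σ.Ok) (k : X.Ok σ e) (he : 0 ≤ e)
    (h : Y.Ok σ r c C a b κ η₀ (Y.TS σ x a₀ q)) (hc : 0 < c)
    (N : Nm σ (σ.et a₀ / lg) X.u c C a b x e L ρ β η rA g m n' C')
    (hg : ∀ p q, σ.wt q < σ.wt p → g ≤ σ.wt p - σ.wt q) (hm : ∀ a, σ.et a ≤ m) (hδ : 0 ≤ δ)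
    (hC : 0 < σ.C) (fl : X.Fl σ (σ.cl q) ε) (hA : X.Ac σ rA δ) (hK : 0 ≤ K) (hK' : 0 ≤ K' * L)
    (hL : 0 ≤ η * L)
    (run : Nonempty (σ.I1 q) → ∀ (D : EB.Dat ν (σ.I1 q) ν (X.Vt × (α → ℝ) × ℕ) X.Ω) la,
      D.Ok1 lg (σ.et a₀ / lg) n' C' η β ρ L X.u la → hh D.P (fun ω => flv X.u (D.B ω).2) ≤
        Fintype.card (σ.I1 q) * X.u * lg - η * L + K * D.bud + K' * L * D.P.E D.ex) :
    η * L * c ≤ ε * (X.u * lg) + Fintype.card ν * (2 * e + 8) + e + K * (e + κ * X.u) +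
      K' * L * (2 * δ) := by
  classical
  obtain ⟨hq, hp, h0, hr⟩ := seen o k h hc N.xc (by exact_mod_cast N.u0)
  have A := rowAt α ν σ X q e he k
  have f : Fn X.P (fun ω => (X.K ω, Y.s ω, X.v ω)) (X.cx σ q) := fun v hv v' hv' E => by
    simp only [Bd.cx, Prod.mk.injEq] at E ⊢
    refine ⟨E.1, h.fs v hv v' hv' (Prod.ext E.1 (funext fun p => ?_)), E.2.1⟩
    have := congrFun E.2.2.1 p
    simp only [Bc.pos, Bc.oth] at this ⊢
    split_ifs with k1
    · rwa [if_neg (k1.2 ▸ hr.ne'), if_neg (k1.2 ▸ hr.ne')] at this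
    · rfl
  have c0 : (0 : ℝ) ≤ Fintype.card ν := Nat.cast_nonneg _
  set bd : X.Ω → ℝ := fun ω => ∑ k ∈ range (Y.n ω),
    pb (X.At σ q ω) fun v => ¬Y.Gd ω k (X.N v) (X.T v) with hbd
  set inf : X.Ω → ℝ := fun ω => mi (X.At σ q ω) X.T (X.Bv σ q) fun _ => () with hinf
  set ex : X.Ω → ℝ := fun ω => (X.At σ q ω).E (X.ex σ rA δ) with hex
  have av := Av.avg' (P := X.P) (y := X.cx σ q) Y.E (fun ω => flv X.u (X.Bv σ q ω).2)
    (A := Fintype.card (σ.I1 q) * X.u * lg + 2 * Fintype.card ν) (g := η * L)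
    (B := fun ω => K * (inf ω + bd ω) + K' * L * ex ω) (fun ω hω E => by
      have := run ⟨⟨q, hp, rfl, rfl⟩⟩ _ _ (ok1 o k A hω (h.pt ω hω E) N hg hm hδ
        (h.ty ω hω E) hq hp h0 hC)
      change hh (X.At σ q ω) (fun ω => flv X.u (X.Bv σ q ω).2) ≤ _ - _ + K * (inf ω + bd ω) +
        K' * L * ex ω at this
      change hh (X.At σ q ω) _ ≤ _
      linarith) fun ω hω _ => A.top ω hω
  have b1 : (X.P.E fun ω => if Y.E ω then K * (inf ω + bd ω) + K' * L * ex ω else 0) ≤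
      X.P.E fun ω => K * (inf ω + if Y.E ω then bd ω else 0) + K' * L * ex ω :=
    X.P.E_mono fun ω _ => by
      split_ifs
      · exact le_rfl
      · exact add_nonneg (mul_nonneg hK (add_nonneg (mi_nonneg _ _ _) le_rfl))
          (mul_nonneg hK' (FP.E_nonneg _ fun v _ => X.ex_nonneg σ rA hδ v))
  rw [FP.E_add, FP.E_mul, FP.E_mul, FP.E_add] at b1
  have b2 : (X.P.E fun ω => if Y.E ω then bd ω else 0) ≤ κ * X.u := h.badA f
  have b3 := mul_le_mul_of_nonneg_left (add_le_add A.inf b2) hK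
  have b4 := mul_le_mul_of_nonneg_left (A.ex rA δ hδ hA) hK'
  have b5 := mul_le_mul_of_nonneg_left h.pe hL
  have b6 := A.flat ε fl
  linarith

theorem ev_le {u : ℕ → ℕ} (h : Big u) (A : ℝ) {s : ℝ} (hs : 0 < s) :
    ∀ᶠ n in UF, A ≤ s * u n :=
  ((tendsto_natCast_atTop_atTop.comp h).const_mul_atTop hs).eventually_ge_atTop A

theorem ev_exp {u : ℕ → ℕ} (h : Big u) (A : ℝ) {s : ℝ} (hs : 0 < s) :
    ∀ᶠ n in UF, A ≤ exp (s * u n) :=
  (ev_le h A hs).mono fun n k => k.trans (by linarith [add_one_le_exp (s * u n)])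

theorem exp_aux {A s t z : ℝ} (h : A * exp t ≤ exp s) (hA : 0 ≤ A) (hz : z ≤ -s) :
    A * exp z ≤ exp (-t) := by
  have h1 : A * exp z ≤ A * exp (-s) := mul_le_mul_of_nonneg_left (exp_le_exp.2 hz) hA
  have h2 := mul_le_mul_of_nonneg_right h (exp_pos (-s - t)).le
  rw [mul_assoc, ← exp_add, ← exp_add, show t + (-s - t) = -s by ring,
    show s + (-s - t) = -t by ring] at h2
  exact h1.trans h2

omit [DecidableEq ν] in
theorem nm {u w l a₁ : ℝ} (u0 : 0 < u) (hc : 0 < c) (hC : 1 ≤ C) (C1 : (1 : ℝ) ≤ σ.C)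
    (E0 : 0 < EB.cE κ) (a1 : a₁ ≤ 1) (a2 : a₁ ≤ a) (η0 : 0 < η) (g0 : 0 < g) (w0 : 0 < w)
    (hw : w = g * (c / (2 * lg))) (ll : 0 < l) (s1 : EB.cE κ * l ≤ c / 2) (s2 : l ≤ η * lg)
    (s3 : 2 * l ≤ lg) (s4 : η * l ≤ lg / 4) (s5 : m / lg * (EB.cE κ * l) ≤ w / 4) (x0 : 0 < x)
    (x1 : x ≤ c) (x2 : κ * x ≤ η * l / 2) (x3 : κ * x ≤ w / 2) (r1 : rA ≤ η * l / 2)
    (r2 : rA ≤ w / 4) (r3 : rA ≤ 1 / 8) (hβ : 12 * β = b * a₁) (β1 : 1 ≤ β) (b0 : 0 < b)
    (e2 : e ≤ w / 8) (e3 : e ≤ 1 / 2) (e4 : e ≤ η * l / 2) (v3 : 4 * β ≤ lg / 4 * u)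
    (v4 : 2 * (Fintype.card ν : ℝ) ≤ exp (η * l * u))
    (v5 : 2 * (Fintype.card α * Fintype.card ν : ℝ) ≤ exp (η * l / 2 * u))
    (v6 : 2 * (Fintype.card α * Fintype.card ν * Fintype.card ν : ℝ) * exp (12 * β) ≤
      exp (w / 2 * u))
    (v7 : 2 * (Fintype.card α * Fintype.card ν : ℝ) * exp (12 * β) ≤ exp (1 / 2 * u))
    (v8 : 4 * (Fintype.card ν : ℝ) ≤ exp (w / 2 * u)) (v9 : (6 : ℝ) ≤ exp (1 / 4 * u)) :
    Nm σ κ u c C a b x (e * u) (l * u) (η * l * u) β η rA g m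
      (c * a₁ / (12 * lg * σ.C)) (C * C / lg) := by
  have l0 := lg_pos
  have mu : ∀ {s t : ℝ}, s ≤ t → s * u ≤ t * u := fun h => mul_le_mul_of_nonneg_right h u0.le
  exact
    { u0 := u0
      b1 := by linarith [mul_le_mul_of_nonneg_left a1 b0.le]
      b2 := by linarith [mul_le_mul_of_nonneg_left a2 b0.le]
      b3 := β1
      C1 := hC
      r0 := by positivity
      x0 := x0.le
      xc := x1
      g0 := g0.le
      eu := by linarith [mu e3]
      up := v4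
      ga := by
        have h1 := mul_le_mul v5 (exp_le_exp.2 (mu e4)) (exp_pos _).le (exp_pos _).le
        rw [← exp_add, show η * l / 2 * u + η * l / 2 * u = η * l * u by ring] at h1
        linarith
      L0 := by positivity
      L1 := by linarith [mu s1]
      top := by linarith [mu s4]
      word := by
        have h1 := exp_aux v6 (by positivity) (z := 2 * (e * u) + m / lg * (EB.cE κ * (l * u)) -
          g * (c * u / (2 * lg))) (by
            have : g * (c * u / (2 * lg)) = w * u := by rw [hw]; ring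
            linarith [mu e2, mu s5])
        have h2 := exp_aux v7 (by positivity) (z := e * u - u) (by linarith [mu e3])
        linarith
      thin := by linarith [mu x2, mu r1]
      chr := by
        have h1 := exp_aux (A := 4 * Fintype.card ν) (s := w / 2 * u + 2 * rA * u)
          (t := 2 * rA * u) (z := e * u + κ * (x * u) - g / lg * (c * u))
          (by rw [exp_add]; exact mul_le_mul_of_nonneg_right v8 (exp_pos _).le) (by positivity)
          (by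
            have : g / lg * (c * u) = 2 * w * u := by rw [hw]; field_simp
            linarith [mu e2, mu x3, mu r2, mul_pos w0 u0])
        have h2 := exp_aux (A := 6) (s := 1 / 4 * u + 2 * rA * u) (t := 2 * rA * u)
          (z := -(u / 2)) (by rw [exp_add]; exact mul_le_mul_of_nonneg_right v9 (exp_pos _).le)
          (by positivity) (by linarith [mu r3])
        linarith
      r1 := by rw [mul_assoc]
      short := by
        have := mul_le_mul_of_nonneg_left (le_mul_of_one_le_left u0.le C1) (mul_pos η0 l0).le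
        linarith [mu s2]
      dep := by linarith [mu s3]
      mass := by
        have : c * a₁ / (12 * lg * σ.C) * lg * σ.C * b = c * (b * a₁) / 12 := by field_simp
        rw [this, ← hβ]; linarith
      tot := by
        rw [div_mul_cancel₀ _ l0.ne']
        exact le_mul_of_one_le_right (by positivity) C1 }

end S1

open S1 in
theorem rowS : RowS := by
  intro run α ν _ _ _ σ X B r c C a a₀ q hc hC ha fl
  have o := B.ok
  have l0 := lg_pos
  have l1 := lg_lt_one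
  have pos := ev_le B.big 1 one_pos
  by_cases hr : σ.cl q < r
  swap
  · refine ⟨c, 1, hc, fun b _ => ⟨1, one_pos, ?_⟩⟩
    filter_upwards [B.ev 1 one_pos, pos] with n k u1 η Y h
    exact hr (seen o k h hc le_rfl (by exact_mod_cast (by linarith : (0 : ℝ) < (X n).u))).2.2.2
  have C1 : (1 : ℝ) ≤ σ.C := by
    have h1 := o.rng σ.τ q q
    rw [o.tau] at h1
    have h2 := mul_pos l0 (o.w0 q)
    nlinarith
  have C0 : 0 < σ.C := by exact_mod_cast (by linarith : (0 : ℝ) < σ.C)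
  set κ := σ.et a₀ / lg with hκ
  have k0 : 0 < κ := div_pos (o.et0 a₀) l0
  have E0 : 0 < EB.cE κ := by unfold EB.cE; positivity
  obtain ⟨a₁, a0, a1, a2⟩ : ∃ a₁ : ℝ, 0 < a₁ ∧ a₁ ≤ 1 ∧ a₁ ≤ a :=
    ⟨min a 1, lt_min ha one_pos, min_le_right _ _, min_le_left _ _⟩
  obtain ⟨η, K', β₀, η0, K0', run⟩ := run (Fintype.card ν) lg κ (c * a₁ / (12 * lg * σ.C))
    (C * C / lg) l0 k0 (by positivity) (by positivity)
  obtain ⟨g, g0, hg⟩ := σ.ex_gap
  obtain ⟨m, m0, hm⟩ : ∃ m : ℝ, 0 < m ∧ ∀ a, σ.et a ≤ m :=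
    ⟨∑ a, σ.et a, sum_pos (fun a _ => o.et0 a) ⟨a₀, mem_univ _⟩, fun a =>
      single_le_sum (fun a _ => (o.et0 a).le) (mem_univ a)⟩
  obtain ⟨w, w0, hw⟩ : ∃ w : ℝ, 0 < w ∧ w = g * (c / (2 * lg)) := ⟨_, by positivity, rfl⟩
  obtain ⟨l, ll, s1, s2, s3, s4, s5⟩ : ∃ l : ℝ, 0 < l ∧ EB.cE κ * l ≤ c / 2 ∧ l ≤ η * lg ∧
      2 * l ≤ lg ∧ η * l ≤ lg / 4 ∧ m / lg * (EB.cE κ * l) ≤ w / 4 := by
    refine ⟨min (c / 2 / EB.cE κ) (min (η * lg) (min (lg / 2) (min (lg / 4 / η)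
      (w / 4 / (m / lg * EB.cE κ))))), by positivity, ?_, ?_, ?_, ?_, ?_⟩
    · rw [← le_div_iff₀' E0]; exact min_le_left _ _
    · exact (min_le_right _ _).trans (min_le_left _ _)
    · rw [← le_div_iff₀' two_pos]
      exact (min_le_right _ _).trans ((min_le_right _ _).trans (min_le_left _ _))
    · rw [← le_div_iff₀' η0]
      exact (min_le_right _ _).trans ((min_le_right _ _).trans ((min_le_right _ _).trans
        (min_le_left _ _)))
    · rw [← mul_assoc, ← le_div_iff₀' (by positivity)]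
      exact (min_le_right _ _).trans ((min_le_right _ _).trans ((min_le_right _ _).trans
        (min_le_right _ _)))
  obtain ⟨x, x0, x1, x2, x3⟩ : ∃ x : ℝ, 0 < x ∧ x ≤ c ∧ κ * x ≤ η * l / 2 ∧ κ * x ≤ w / 2 := by
    refine ⟨min c (min (η * l / 2 / κ) (w / 2 / κ)), by positivity, min_le_left _ _, ?_, ?_⟩
    · rw [← le_div_iff₀' k0]; exact (min_le_right _ _).trans (min_le_left _ _)
    · rw [← le_div_iff₀' k0]; exact (min_le_right _ _).trans (min_le_right _ _)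
  obtain ⟨rA, r0, r1, r2, r3⟩ : ∃ s : ℝ, 0 < s ∧ s ≤ η * l / 2 ∧ s ≤ w / 4 ∧ s ≤ 1 / 8 :=
    ⟨min (η * l / 2) (min (w / 4) (1 / 8)), by positivity, min_le_left _ _,
      (min_le_right _ _).trans (min_le_left _ _), (min_le_right _ _).trans (min_le_right _ _)⟩
  refine ⟨x, 12 * max β₀ 1 / a₁, x0, fun b hb => ?_⟩
  rw [div_le_iff₀ a0] at hb
  obtain ⟨β, hβ⟩ : ∃ β : ℝ, 12 * β = b * a₁ := ⟨b * a₁ / 12, by ring⟩
  have β1 : 1 ≤ β := by linarith [le_max_right β₀ 1]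
  have b0 : 0 < b := (pos_iff_pos_of_mul_pos (a := b) (b := a₁) (by linarith)).2 a0
  obtain ⟨K, L₀, K0, run⟩ := run β (by linarith [le_max_left β₀ 1])
  obtain ⟨d, d0, hd⟩ : ∃ d : ℝ, 0 < d ∧ 8 * d = η * l * c := ⟨η * l * c / 8, by positivity, by ring⟩
  have c0 : (0 : ℝ) ≤ Fintype.card ν := Nat.cast_nonneg _
  have c1 : (0 : ℝ) ≤ Fintype.card α := Nat.cast_nonneg _
  obtain ⟨e, e0, e1, e2, e3, e4⟩ : ∃ e : ℝ, 0 < e ∧ (2 * Fintype.card ν + 1 + K) * e ≤ d ∧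
      e ≤ w / 8 ∧ e ≤ 1 / 2 ∧ e ≤ η * l / 2 := by
    refine ⟨min (d / (2 * Fintype.card ν + 1 + K)) (min (w / 8) (min (1 / 2) (η * l / 2))),
      by positivity, ?_, (min_le_right _ _).trans (min_le_left _ _),
      (min_le_right _ _).trans ((min_le_right _ _).trans (min_le_left _ _)),
      (min_le_right _ _).trans ((min_le_right _ _).trans (min_le_right _ _))⟩
    rw [← le_div_iff₀' (by positivity)]; exact min_le_left _ _
  obtain ⟨κ', q0, q1⟩ : ∃ s : ℝ, 0 < s ∧ K * s ≤ d :=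
    ⟨d / (K + 1), by positivity, by
      rw [← mul_div_assoc, div_le_iff₀ (by positivity)]; nlinarith⟩
  obtain ⟨δ, δ0, δ1⟩ : ∃ s : ℝ, 0 < s ∧ K' * l * (2 * s) ≤ d :=
    ⟨d / (2 * (K' * l + 1)), by positivity, by
      have : 0 ≤ K' * l := by positivity
      rw [← mul_div_assoc, ← mul_div_assoc, div_le_iff₀ (by positivity)]; nlinarith⟩
  refine ⟨κ', q0, ?_⟩
  filter_upwards [B.ev e e0, fl _ hr d d0, B.ac rA δ r0 δ0, pos, ev_le B.big L₀ ll,
    ev_le B.big (8 * Fintype.card ν) d0, ev_le B.big (4 * β) (show 0 < lg / 4 by positivity),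
    ev_exp B.big (2 * Fintype.card ν) (show 0 < η * l by positivity),
    ev_exp B.big (2 * (Fintype.card α * Fintype.card ν)) (show 0 < η * l / 2 by positivity),
    ev_exp B.big (2 * (Fintype.card α * Fintype.card ν * Fintype.card ν) * exp (12 * β))
      (show 0 < w / 2 by positivity),
    ev_exp B.big (2 * (Fintype.card α * Fintype.card ν) * exp (12 * β))
      (show (0 : ℝ) < 1 / 2 by positivity),
    ev_exp B.big (4 * Fintype.card ν) (show 0 < w / 2 by positivity),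
    ev_exp B.big 6 (show (0 : ℝ) < 1 / 4 by positivity)]
    with n k f1 f2 u1 v1 v2 v3 v4 v5 v6 v7 v8 v9 η₀ Y h
  set u : ℝ := (((X n).u : ℕ) : ℝ) with hu
  have u0 : 0 < u := by linarith
  have mu : ∀ {s t : ℝ}, s ≤ t → s * u ≤ t * u := fun h => mul_le_mul_of_nonneg_right h u0.le
  have N := nm (σ := σ) (m := m) u0 hc hC C1 E0 a1 a2 η0 g0 w0 hw ll s1 s2 s3 s4 s5 x0 x1 x2 x3
    r1 r2 r3 hβ β1 b0 e2 e3 e4 v3 v4 v5 v6 v7 v8 v9
  have key := fin o k (by positivity) h hc N hg hm δ0.le C0 f1 f2 K0 (K' := K') (by positivity)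
    (by positivity) fun _ D la hD => run _ _ _ _ _ D _ _ _ la le_rfl
      (Fintype.card_le_of_injective (fun s : σ.I1 q => s.1) Subtype.val_injective) v1 hD
  have z1 : d * (u * lg) ≤ d * u := mul_le_mul_of_nonneg_left (by nlinarith) d0.le
  have z2 : η * (l * u) * c = 8 * (d * u) := by rw [← mul_assoc 8, hd]; ring
  linarith [mu e1, mu q1, mu δ1, mul_pos d0 u0]

end Pool.Agent.MP_4b405e_nt.FB
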