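import Pool.Agent.MP_4b405e_nt.SK.FAll0
import Pool.Agent.MP_4b405e_nt.SK.FS4

/-! Flatness of the positions: assembly. -/

namespace Pool.Agent.MP_4b405e_nt.FB

theorem spF : SpF := spF_S rowS

end Pool.Agent.MP_4b405e_nt.FB
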