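import Pool.Agent.MP_4b405e_nt.SK.FFd0

/-! Flatness of the positions: levels and types of the boxes. -/

namespace Pool.Agent.MP_4b405e_nt.FB.Lv

open Pool.Agent.MP_5168f5_an H19 H17S H17F Real Matrix Filter Finset

/-- The level of a family of sizes `g` with weights `k`. -/
noncomputable def lev {C : Type} (k g : C → ℝ) : ℝ := ⨆ c, log (g c) / k c

section Lev

variable {C : Type} [Fintype C] {k g g' : C → ℝ} {x y : ℝ}

theorem le_lev (hk : ∀ c, 0 < k c) (g : C → ℝ) (c : C) : g c ≤ exp (k c * lev k g) :=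
  (le_exp_log _).trans (exp_le_exp.2 ((div_le_iff₀' (hk c)).1
    (le_ciSup (f := fun c => log (g c) / k c) (Finite.bddAbove_range _) c)))

omit [Fintype C] in
theorem lev_le (hk : ∀ c, 0 < k c) (hg : ∀ c, 0 ≤ g c) (h0 : 0 ≤ x)
    (h : ∀ c, g c ≤ exp (k c * x)) : lev k g ≤ x := by
  refine Real.iSup_le (fun c => (div_le_iff₀' (hk c)).2 ?_) h0
  rcases (hg c).eq_or_lt with e | e
  · rw [← e, log_zero]; exact mul_nonneg (hk c).le h0
  · exact (log_le_iff_le_exp e).2 (h c)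

theorem ex_lev (hk : ∀ c, 0 < k c) (hg : ∀ c, 0 ≤ g c) (h0 : 0 < lev k g) :
    ∃ c, g c = exp (k c * lev k g) := by
  rcases isEmpty_or_nonempty C with e | e
  · simp [lev] at h0
  obtain ⟨c, hc⟩ := exists_eq_ciSup_of_finite (f := fun c => log (g c) / k c)
  have e : log (g c) = k c * lev k g := by rw [lev, ← hc, mul_div_cancel₀ _ (hk c).ne']
  refine ⟨c, ?_⟩
  rcases (hg c).eq_or_lt with z | z
  · rw [← z, log_zero] at e
    exact absurd e (mul_pos (hk c) h0).ne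
  · rw [← e, exp_log z]

theorem lev_shift (hk : ∀ c, 0 < k c) (hg' : ∀ c, 0 ≤ g' c) (h0 : 0 ≤ lev k g + y)
    (h : ∀ c, g' c ≤ exp x * g c) (e : ∀ c, x ≤ k c * y) : lev k g' ≤ lev k g + y :=
  lev_le hk hg' h0 fun c => (h c).trans ((mul_le_mul_of_nonneg_left (le_lev hk g c)
    (exp_pos _).le).trans (by rw [← exp_add, exp_le_exp, mul_add]; linarith [e c]))

end Lev

/-- The components: a letter with a column, a row of the source, a row. -/
abbrev Cm (α ν : Type) : Type := (α × ν) ⊕ (ν ⊕ ν)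

variable {α ν : Type} [Fintype α] [Fintype ν] [DecidableEq ν]

/-- The constant in the weight of the rows. -/
structure Cc (σ : Bc α ν) (c' : ℝ) : Prop where
  c0 : 0 < c'
  c1 : c' ≤ 1 / 2
  et : ∀ a, 2 * c' * σ.et a ≤ lg

open Classical in
/-- The vector of a component. -/
noncomputable def yv (σ : Bc α ν) (ρ : α → Matrix ν ν ℝ) : Cm α ν → ν → ℝ
  | .inl c => if c.2 = σ.o then 0 else fun p => ρ c.1 p c.2
  | .inr (.inl p) => if σ.wt p = lg then Pi.single p 1 else 0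
  | .inr (.inr p) => Pi.single p 1

/-- The weight of a component. -/
noncomputable def kw (σ : Bc α ν) (c' : ℝ) : Cm α ν → ℝ
  | .inl c => σ.et c.1 / lg
  | .inr (.inl _) => 1
  | .inr (.inr _) => 1 / c'

/-- The level of the box `Ξ`. -/
noncomputable def lv (σ : Bc α ν) (c' : ℝ) (y : Cm α ν → ν → ℝ) (Ξ : (ν → ℝ) →L[ℝ] (ν → ℝ)) : ℝ :=
  lev (kw σ c') fun c => ‖Ξ (y c)‖

/-- A component with a letter other than `τ`. -/
def Sl (σ : Bc α ν) : Cm α ν → Prop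
  | .inl c => c.1 ≠ σ.τ
  | .inr _ => False

/-- The component `t` is within `x` of the level. -/
def Vis (σ : Bc α ν) (c' x : ℝ) (y : Cm α ν → ν → ℝ) (Ξ : (ν → ℝ) →L[ℝ] (ν → ℝ)) (t : Cm α ν) :
    Prop := exp (kw σ c' t * (lv σ c' y Ξ - x)) ≤ ‖Ξ (y t)‖

/-- The box `Ξ` has type `t`. -/
def Ty (σ : Bc α ν) (c' x : ℝ) (y : Cm α ν → ν → ℝ) (Ξ : (ν → ℝ) →L[ℝ] (ν → ℝ)) (t : Cm α ν) :
    Prop := (Sl σ t → Vis σ c' x y Ξ t) ∧ (¬Sl σ t →
      ‖Ξ (y t)‖ = exp (kw σ c' t * lv σ c' y Ξ) ∧ ∀ t', Sl σ t' → ¬Vis σ c' x y Ξ t')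

variable {σ : Bc α ν} {r c' : ℝ}

section Const

omit [Fintype α] [Fintype ν] [DecidableEq ν]

theorem two (h : σ.Ok) : (2 : ℝ) ≤ σ.C := by
  have a := h.rng σ.τ σ.o σ.o
  rw [h.tau] at a
  have := mul_pos lg_pos (h.w0 σ.o)
  nlinarith

theorem kw_pos (h : σ.Ok) (k : Cc σ c') : ∀ t : Cm α ν, 0 < kw σ c' t
  | .inl c => div_pos (h.et0 c.1) lg_pos
  | .inr (.inl _) => one_pos
  | .inr (.inr _) => one_div_pos.2 k.c0

theorem kw_half (k : Cc σ c') (c : α × ν) : 2 * c' * kw σ c' (.inl c) ≤ 1 := by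
  show 2 * c' * (σ.et c.1 / lg) ≤ 1
  rw [← mul_div_assoc, div_le_one lg_pos]
  exact k.et c.1

theorem kw_le (h : σ.Ok) (k : Cc σ c') : ∀ t : Cm α ν, c' * kw σ c' t ≤ 1
  | .inl c => by nlinarith [kw_half k c, mul_pos k.c0 (kw_pos h k (.inl c))]
  | .inr (.inl _) => by have := k.c1; show c' * 1 ≤ 1; linarith
  | .inr (.inr _) => (mul_one_div_cancel k.c0.ne').le

theorem kw_ge (h : σ.Ok) (k : Cc σ c') : ∀ t : Cm α ν, 1 ≤ kw σ c' t * (σ.C - 1)
  | .inl c => by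
    have a := h.rng c.1 σ.o σ.o
    show 1 ≤ σ.et c.1 / lg * (σ.C - 1)
    rw [div_mul_eq_mul_div, le_div_iff₀ lg_pos]
    exact le_of_mul_le_mul_right (by linarith) (h.w0 σ.o)
  | .inr (.inl _) => by have := two h; show 1 ≤ 1 * ((σ.C : ℝ) - 1); linarith
  | .inr (.inr _) => by
    have := two h
    have := k.c1
    show 1 ≤ 1 / c' * (σ.C - 1)
    rw [div_mul_eq_mul_div, le_div_iff₀ k.c0]
    linarith

end Const

omit [Fintype ν] [DecidableEq ν] in
theorem ex_cc (h : σ.Ok) : ∃ c', Cc σ c' := by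
  have s : ∀ a, σ.et a ≤ ∑ a, σ.et a := fun a =>
    single_le_sum (fun a _ => (h.et0 a).le) (mem_univ a)
  have t := s σ.τ
  rw [h.tau] at t
  have l := lg_pos
  refine ⟨lg / (2 * ∑ a, σ.et a), by positivity [l.trans_le t], ?_, fun a => ?_⟩
  · rw [div_le_div_iff₀ (by linarith) two_pos]; linarith
  · rw [mul_div_assoc', div_mul_eq_mul_div, div_le_iff₀ (by linarith)]
    nlinarith [s a]

section Level

variable {ρ : α → Matrix ν ν ℝ} {y : Cm α ν → ν → ℝ} {Ξ Ξ' : (ν → ℝ) →L[ℝ] (ν → ℝ)}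

omit [DecidableEq ν] in
theorem up (h : σ.Ok) (k : Cc σ c') (y : Cm α ν → ν → ℝ) (Ξ : (ν → ℝ) →L[ℝ] (ν → ℝ))
    (t : Cm α ν) : ‖Ξ (y t)‖ ≤ exp (kw σ c' t * lv σ c' y Ξ) :=
  le_lev (kw_pos h k) (fun c => ‖Ξ (y c)‖) t

theorem norm_le_lv (h : σ.Ok) (k : Cc σ c') :
    ‖Ξ‖ ≤ Fintype.card ν * exp (lv σ c' (yv σ ρ) Ξ / c') := by
  refine Ξ.opNorm_le_bound (by positivity) fun x => ?_
  have e : x = ∑ p, x p • (Pi.single p 1 : ν → ℝ) := by
    funext i; simp [Finset.sum_apply, Pi.single_apply]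
  conv_lhs => rw [e, map_sum]
  refine (norm_sum_le _ _).trans ((sum_le_card_nsmul _ _ (exp (lv σ c' (yv σ ρ) Ξ / c') * ‖x‖)
    fun p _ => ?_).trans_eq (by rw [card_univ, nsmul_eq_mul, mul_assoc]))
  rw [map_smul, norm_smul, mul_comm]
  refine mul_le_mul ((up h k (yv σ ρ) Ξ (.inr (.inr p))).trans_eq ?_) (norm_le_pi_norm x p)
    (abs_nonneg _) (exp_pos _).le
  show exp (1 / c' * _) = _
  rw [one_div_mul_eq_div]

theorem lv_ge (h : σ.Ok) (k : Cc σ c') {x : ℝ} (e : exp x ≤ ‖Ξ‖) :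
    c' * (x - Fintype.card ν) ≤ lv σ c' (yv σ ρ) Ξ := by
  have a := e.trans (norm_le_lv (ρ := ρ) h k)
  have b : (Fintype.card ν : ℝ) ≤ exp (Fintype.card ν) := by
    linarith [add_one_le_exp (Fintype.card ν : ℝ)]
  have c := a.trans (mul_le_mul_of_nonneg_right b (exp_pos _).le)
  rw [← exp_add, exp_le_exp, ← sub_le_iff_le_add', le_div_iff₀' k.c0] at c
  exact c

omit [Fintype α] in
theorem yv_le {e : ℝ} (e0 : 0 ≤ e) (hρ : ∀ a p q, |ρ a p q| ≤ exp e) :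
    ∀ t : Cm α ν, ‖yv σ ρ t‖ ≤ exp e
  | .inl c => by
    simp only [yv]
    split_ifs
    · simpa using (exp_pos e).le
    · exact (pi_norm_le_iff_of_nonneg (exp_pos _).le).2 fun x => hρ _ _ _
  | .inr (.inl p) => by
    simp only [yv]
    split_ifs
    · simpa [Pi.norm_single] using e0
    · simpa using (exp_pos e).le
  | .inr (.inr p) => by simpa [yv, Pi.norm_single] using e0

omit [Fintype α] in
theorem lv_le (h : σ.Ok) (k : Cc σ c') {e x : ℝ} (e0 : 0 ≤ e) (x0 : 0 ≤ x)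
    (hρ : ∀ a p q, |ρ a p q| ≤ exp e) (hx : ‖Ξ‖ ≤ exp x) :
    lv σ c' (yv σ ρ) Ξ ≤ (σ.C - 1) * (x + e) := by
  have := two h
  refine lev_le (kw_pos h k) (fun _ => norm_nonneg _) (by nlinarith) fun t => ?_
  refine (Ξ.le_opNorm _).trans ((mul_le_mul hx (yv_le e0 hρ t) (norm_nonneg _)
    (exp_pos _).le).trans ?_)
  rw [← exp_add, exp_le_exp, ← mul_assoc]
  exact le_mul_of_one_le_left (by linarith) (kw_ge h k t)

omit [DecidableEq ν] in
theorem lv_nest (h : σ.Ok) (k : Cc σ c') {b : ℝ} (b0 : 0 ≤ b)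
    (e : ∀ x, ‖Ξ' x‖ ≤ exp (-b) * ‖Ξ x‖) (l : c' * b ≤ lv σ c' y Ξ) :
    lv σ c' y Ξ' + c' * b ≤ lv σ c' y Ξ := by
  have := lev_shift (g := fun t => ‖Ξ (y t)‖) (g' := fun t => ‖Ξ' (y t)‖)
    (x := -b) (y := -(c' * b)) (kw_pos h k) (fun _ => norm_nonneg _) (by unfold lv at l; linarith)
    (fun t => e _) fun t => by nlinarith [kw_le h k t]
  unfold lv
  linarith

omit [DecidableEq ν] in
theorem lv_grow (h : σ.Ok) (k : Cc σ c') {x : ℝ} (x0 : 0 ≤ x)
    (e : ∀ y, ‖Ξ' y‖ ≤ exp x * ‖Ξ y‖) (l : 0 ≤ lv σ c' y Ξ) :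
    lv σ c' y Ξ' ≤ lv σ c' y Ξ + σ.C * x := by
  have := two h
  exact lev_shift (kw_pos h k) (fun _ => norm_nonneg _) (by unfold lv at l; nlinarith)
    (fun t => e _) fun t => by nlinarith [kw_ge h k t, kw_pos h k t]

omit [DecidableEq ν] in
/-- Every box of positive level has a type. -/
theorem ex_ty (h : σ.Ok) (k : Cc σ c') {x : ℝ} (r0 : 0 ≤ x) (l : 0 < lv σ c' y Ξ) :
    ∃ t, Ty σ c' x y Ξ t := by
  by_cases e : ∃ t, Sl σ t ∧ Vis σ c' x y Ξ t
  · obtain ⟨t, a, b⟩ := e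
    exact ⟨t, fun _ => b, fun n => absurd a n⟩
  · obtain ⟨t, ht⟩ := ex_lev (kw_pos h k) (fun _ => norm_nonneg _) l
    refine ⟨t, fun a => absurd ⟨t, a, le_trans (exp_le_exp.2 ?_) ht.ge⟩ e,
      fun _ => ⟨ht, fun t' a b => e ⟨t', a, b⟩⟩⟩
    exact mul_le_mul_of_nonneg_left (sub_le_self _ r0) (kw_pos h k t).le

omit [Fintype α] [Fintype ν] in
/-- The vectors see only the columns other than the source. -/
theorem yv_congr {ρ' : α → Matrix ν ν ℝ} (e : ∀ a p q, q ≠ σ.o → ρ a p q = ρ' a p q) :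
    yv σ ρ = yv σ ρ' := funext fun t => by
  rcases t with c | p | p
  · simp only [yv]
    split_ifs with u
    exacts [rfl, funext fun _ => e _ _ _ u]
  all_goals rfl

omit [Fintype α] [Fintype ν] in
theorem yv_col {a : α} {q : ν} (h : q ≠ σ.o) : yv σ ρ (.inl (a, q)) = fun p => ρ a p q := if_neg h

omit [Fintype α] in
theorem col_ne {a : α} {q : ν} {x : ℝ} (h : exp x ≤ ‖Ξ (yv σ ρ (.inl (a, q)))‖) : q ≠ σ.o := by
  rintro rfl
  simp only [yv, if_true, map_zero, norm_zero] at h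
  exact h.not_gt (exp_pos x)

end Level

open Classical in
/-- The boxes of type `t`. -/
noncomputable def sel (σ : Bc α ν) (c' x : ℝ) (t : Cm α ν) (y : Cm α ν → ν → ℝ) (n : ℕ)
    (M : ℕ → (ν → ℝ) →L[ℝ] (ν → ℝ)) : Finset ℕ := (range n).filter fun i => Ty σ c' x y (M i) t

/-- The world with levels and the boxes of type `t`. -/
noncomputable def wd (σ : Bc α ν) (c' x : ℝ) (t : Cm α ν) {X : Bd α ν} (Y : Wd X) : Wd X :=
  { Y with
    l := fun ω k => lv σ c' (yv σ (X.ρ ω)) (Y.M ω k)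
    I := fun ω => sel σ c' x t (yv σ (X.ρ ω)) (Y.n ω) (Y.M ω)
    E := fun ω => Y.E ω ∧
      Y.n ω ≤ Fintype.card (Cm α ν) * (sel σ c' x t (yv σ (X.ρ ω)) (Y.n ω) (Y.M ω)).card }

theorem pb_le_sum {Ω T : Type} [Fintype T] (P : FP Ω) {E : Ω → Prop} {H : T → Ω → Prop}
    (h : ∀ ω ∈ P.S, E ω → ∃ t, H t ω) : pb P E ≤ ∑ t, pb P (H t) := by
  classical
  unfold pb
  rw [← P.E_sum]
  refine P.E_mono fun ω hω => ?_
  split_ifs with e
  · obtain ⟨t, ht⟩ := h ω hω e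
    refine le_trans (le_of_eq ?_) (single_le_sum (f := fun t => if H t ω then (1 : ℝ) else 0)
      (fun t _ => by split_ifs <;> norm_num) (mem_univ t))
    simp [ht]
  · exact sum_nonneg fun t _ => by split_ifs <;> norm_num

variable {X : Bd α ν} {Y : Wd X} {c C b e x : ℝ} {ω : X.Ω}

theorem low (h : σ.Ok) (k : Cc σ c') (p : Y.Pt0 σ r c C b ω)
    (u : 2 * (Fintype.card ν : ℝ) ≤ c * X.u) {i : ℕ} (hi : i ≤ Y.n ω) :
    c' * (c * X.u / 2) ≤ lv σ c' (yv σ (X.ρ ω)) (Y.M ω i) :=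
  le_trans (mul_le_mul_of_nonneg_left (by linarith) k.c0.le)
    (lv_ge h k (p.thin i hi))

theorem pop (h : σ.Ok) (k : Cc σ c') (p : Y.Pt0 σ r c C b ω) (hE : Y.E ω)
    (x0 : 0 ≤ x) (u : 2 * (Fintype.card ν : ℝ) ≤ c * X.u) (u0 : 0 < c * X.u) :
    ∃ t, (wd σ c' x t Y).E ω := by
  classical
  by_contra n
  have n' : ∀ t, Fintype.card (Cm α ν) * (sel σ c' x t (yv σ (X.ρ ω)) (Y.n ω) (Y.M ω)).card <
      Y.n ω := fun t => lt_of_not_ge fun a => n ⟨t, hE, a⟩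
  have s : range (Y.n ω) ⊆ univ.biUnion fun t => sel σ c' x t (yv σ (X.ρ ω)) (Y.n ω) (Y.M ω) :=
    fun i hi => by
      obtain ⟨t, ht⟩ := ex_ty h k x0 (lt_of_lt_of_le (mul_pos k.c0 (half_pos u0))
        (low h k p u (mem_range.1 hi).le))
      exact mem_biUnion.2 ⟨t, mem_univ t, mem_filter.2 ⟨hi, ht⟩⟩
  have a := (card_le_card s).trans card_biUnion_le
  have : Nonempty (Cm α ν) := ⟨.inr (.inr σ.o)⟩
  have d := sum_lt_sum_of_nonempty univ_nonempty fun t _ => n' t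
  rw [← mul_sum, sum_const, card_univ, smul_eq_mul] at d
  rw [card_range] at a
  exact (Nat.mul_le_mul_left _ a).not_gt d

theorem pt (h : σ.Ok) (k : Cc σ c') (o : X.Pt σ e ω) (p : Y.Pt0 σ r c C b ω) {t : Cm α ν}
    (hE : (wd σ c' x t Y).E ω) (b0 : 0 ≤ b) (c0 : 0 < c) (C0 : 0 ≤ C) (e0 : 0 ≤ e)
    (e1 : σ.C * e ≤ lg * X.u / 2) (u : 2 * (Fintype.card ν : ℝ) ≤ c * X.u) (u' : 4 * b ≤ c * X.u) :
    (wd σ c' x t Y).Pt σ r (c' * c / (4 * Fintype.card (Cm α ν))) (C + σ.C) (2 * c') b ω := by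
  classical
  have : Nonempty (Cm α ν) := ⟨t⟩
  have F1 : (1 : ℝ) ≤ Fintype.card (Cm α ν) := by exact_mod_cast Fintype.card_pos
  have u0 : (0 : ℝ) ≤ X.u := Nat.cast_nonneg _
  have cu := mul_nonneg c0.le u0
  have k0 := k.c0
  have k1 := k.c1
  have t2 := two h
  have lo := fun i hi => low h k p u (i := i) hi
  have fi := p.fine
  refine ⟨p.sup, p.hi, ?_, fun i hi => mem_range.1 (mem_filter.1 hi).1, p.nest, p.gro, p.mono,
    p.la0, p.lan.trans (by nlinarith), fi, p.gp, fun i _ a q hq => ?_, fun i _ q hq => ?_,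
    fun i hi => ⟨le_trans ?_ (lo i hi.le), ?_⟩, fun i hi => ?_, fun i j hij hj => ?_⟩
  · have a : (Y.n ω : ℝ) ≤ Fintype.card (Cm α ν) * ((wd σ c' x t Y).I ω).card := by
      exact_mod_cast hE.2
    have := p.lo.trans (mul_le_mul_of_nonneg_left a b0)
    rw [div_mul_eq_mul_div, div_le_iff₀ (by positivity)]
    nlinarith
  · have := up h k (yv σ (X.ρ ω)) (Y.M ω i) (.inl (a, q))
    rwa [yv_col hq] at this
  · have := up h k (yv σ (X.ρ ω)) (Y.M ω i) (.inr (.inl q))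
    simp only [yv, kw, if_pos hq, one_mul] at this
    exact this
  · rw [div_mul_eq_mul_div, div_le_iff₀ (by positivity)]
    nlinarith [mul_nonneg k0.le cu]
  · have l := lg_pos
    have := lv_le h k e0 (x := X.u * lg) (by positivity) o.rb
      ((fi i).trans_eq (by rw [← log_two_pow, exp_log (by positivity)]))
    show lv σ c' _ _ ≤ _
    nlinarith
  · have := lv_nest (y := yv σ (X.ρ ω)) h k (b := 2 * b) (by linarith) (p.nest i)
      (le_trans (mul_le_mul_of_nonneg_left (by linarith) k0.le) (lo i (by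
        change i + 1 < Y.n ω at hi; omega)))
    show lv σ c' _ _ + _ ≤ lv σ c' _ _
    linarith
  · have m := sub_nonneg.2 (p.mono hij)
    have := lv_grow (y := yv σ (X.ρ ω)) h k m (p.gro i j hij)
      (le_trans (by positivity) (lo j hj.le))
    show lv σ c' _ _ - lv σ c' _ _ ≤ _ * (Y.la ω j - Y.la ω i)
    nlinarith

theorem ok (h : σ.Ok) (k : Cc σ c') (o : X.Ok σ e) {q η : ℝ} (p : Y.Ok0 σ r c C b q η)
    {t : Cm α ν} (hE : c ≤ Fintype.card (Cm α ν) * pb X.P (wd σ c' x t Y).E) (b0 : 0 ≤ b)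
    (c0 : 0 < c) (C0 : 0 ≤ C) (e0 : 0 ≤ e) (e1 : σ.C * e ≤ lg * X.u / 2)
    (u : 2 * (Fintype.card ν : ℝ) ≤ c * X.u) (u' : 4 * b ≤ c * X.u) {T : X.Ω → ℕ → Prop}
    (ty : ∀ ω i, c' * (c * X.u / 2) ≤ lv σ c' (yv σ (X.ρ ω)) (Y.M ω i) →
      Ty σ c' x (yv σ (X.ρ ω)) (Y.M ω i) t → T ω i) :
    (wd σ c' x t Y).Ok σ r (c' * c / (4 * Fintype.card (Cm α ν))) (C + σ.C) (2 * c') b q η T := by
  classical
  have : Nonempty (Cm α ν) := ⟨t⟩
  have F1 : (1 : ℝ) ≤ Fintype.card (Cm α ν) := by exact_mod_cast Fintype.card_pos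
  refine ⟨p.fs, p.hs, p.fM, fun v hv w hw z => ?_, ?_, le_trans (X.P.E_mono fun ω _ => ?_) p.bad,
    fun ω hω a => pt h k (o.pt ω hω) (p.pt ω hω a.1) a b0 c0 C0 e0 e1 u u', fun ω hω a i hi =>
      ty ω i (low h k (p.pt ω hω a.1) u (mem_range.1 (mem_filter.1 hi).1).le)
        (mem_filter.1 hi).2⟩
  · simp only [Prod.mk.injEq] at z
    have z1 : (X.K v, Y.s v) = (X.K w, Y.s w) := Prod.ext z.1 z.2.1
    have a := p.fM v hv w hw z1
    have d := p.fE v hv w hw z1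
    have g : yv σ (X.ρ v) = yv σ (X.ρ w) :=
      yv_congr fun a p q hq => o.fρ a p q hq v hv w hw (Prod.ext z.1 z.2.2)
    simp only [Prod.mk.injEq] at a
    simp only [wd, a.1, a.2.1, d, g]
  · have := pb_nonneg X.P (wd σ c' x t Y).E
    rw [div_le_iff₀ (by positivity)]
    nlinarith [k.c1, k.c0]
  · by_cases a : (wd σ c' x t Y).E ω
    · rw [if_pos a, if_pos a.1]
      exact le_rfl
    · rw [if_neg a]
      split_ifs
      · exact sum_nonneg fun _ _ => by split_ifs <;> norm_num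
      · exact le_rfl

theorem rowF1 : RowF1 := by
  intro f α ν _ _ _ σ X B r nf
  obtain ⟨c, C, c0, C1, f⟩ := f α ν σ X B r nf
  have h := B.ok
  obtain ⟨c', k⟩ := ex_cc h
  have : Nonempty (Cm α ν) := ⟨.inr (.inr σ.o)⟩
  have F1 : (1 : ℝ) ≤ Fintype.card (Cm α ν) := by exact_mod_cast Fintype.card_pos
  have t2 := two h
  have k0 := k.c0
  have k1 := k.c1
  have l0 := lg_pos
  refine ⟨c' * c / (4 * Fintype.card (Cm α ν)), C + σ.C, 2 * c', by positivity, by linarith,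
    by positivity, fun x b q η x0 b1 q0 η0 => ?_⟩
  filter_upwards [f b q η b1 q0 η0, B.ev (lg / (2 * σ.C)) (by positivity),
    (tendsto_natCast_atTop_atTop (R := ℝ)).comp B.big |>.eventually_ge_atTop
      ((2 * Fintype.card ν + 4 * b) / c)] with n ⟨Y, p⟩ o u
  simp only [Function.comp] at u
  rw [div_le_iff₀' c0] at u
  have n0 : (0 : ℝ) ≤ Fintype.card ν := Nat.cast_nonneg _
  have u0 : (0 : ℝ) ≤ (X n).u := Nat.cast_nonneg _
  have x1 : 0 ≤ x * (X n).u := by positivity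
  have s := p.pe.trans (pb_le_sum (X n).P (H := fun t => (wd σ c' (x * (X n).u) t Y).E)
    fun ω hω a => pop h k (p.pt ω hω a) a x1 (by linarith) (by linarith))
  obtain ⟨t, -, ht⟩ := exists_le_of_sum_le univ_nonempty
    (f := fun _ => c / Fintype.card (Cm α ν)) (le_trans (by
      rw [sum_const, card_univ, nsmul_eq_mul, mul_div_cancel₀ _ (by positivity)]) s)
  rw [div_le_iff₀' (by positivity)] at ht
  have K := @ok α ν _ _ _ σ r c' (X n) Y c C b _ _ h k o q η p t ht (by linarith) c0 (by linarith)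
    (by positivity) (le_of_eq (by field_simp)) (by linarith) (by linarith)
  refine ⟨wd σ c' (x * (X n).u) t Y, ?_⟩
  rcases t with ⟨a, q'⟩ | p' | p'
  · by_cases e : a = σ.τ
    · subst e
      refine .inr (.inl ⟨q', K fun ω i _ ty => ?_⟩)
      obtain ⟨a1, a2⟩ := ty.2 fun z => z rfl
      have a3 := col_ne a1.ge
      rw [yv_col a3] at a1
      refine ⟨a3, le_trans (le_of_eq ?_) a1.ge, fun a' q'' z1 z2 => ?_⟩
      · simp only [kw, h.tau, div_self l0.ne', one_mul]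
        rfl
      · have := (not_le.1 (a2 (.inl (a', q'')) z1)).le
        rwa [yv_col z2] at this
    · refine .inl ⟨a, q', K fun ω i _ ty => ?_⟩
      have a1 := ty.1 e
      have a3 := col_ne a1
      unfold Vis at a1
      rw [yv_col a3] at a1
      exact ⟨e, a3, a1⟩
  · refine .inr (.inr (.inl ⟨p', K fun ω i _ ty => ?_⟩))
    have a1 := (ty.2 id).1
    simp only [yv, kw, one_mul] at a1
    split_ifs at a1 with z
    · exact ⟨z, a1.ge⟩
    · rw [map_zero, norm_zero] at a1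
      exact absurd a1 (exp_pos _).ne
  · refine .inr (.inr (.inr ⟨p', K fun ω i lo ty => ?_⟩))
    have a1 := (ty.2 id).1
    obtain ⟨L, hL⟩ : ∃ L, L = lv σ c' (yv σ ((X n).ρ ω)) (Y.M ω i) / c' := ⟨_, rfl⟩
    have eL : lv σ c' (yv σ ((X n).ρ ω)) (Y.M ω i) = c' * L := by rw [hL]; field_simp
    have a2 : (wd σ c' (x * (X n).u) (.inr (.inr p')) Y).f ω i p' = exp L := by
      refine a1.trans ?_
      simp only [kw, hL, one_div_mul_eq_div]
    have L1 : c * (X n).u / 2 ≤ L := le_of_mul_le_mul_left (eL ▸ lo) k0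
    have cu : 0 < c * (X n).u := by linarith
    have m : c' * c / (4 * Fintype.card (Cm α ν)) * (X n).u ≤ L / 2 := by
      rw [div_mul_eq_mul_div, div_le_iff₀ (by positivity)]
      nlinarith
    refine ⟨fun z => ?_, a2 ▸ exp_le_exp.2 (by linarith), fun a' q'' z => ?_⟩
    · have := up h k (yv σ ((X n).ρ ω)) (Y.M ω i) (.inr (.inl p'))
      simp only [yv, kw, if_pos z, one_mul] at this
      have := exp_le_exp.1 (a2.ge.trans this)
      nlinarith
    · have := up h k (yv σ ((X n).ρ ω)) (Y.M ω i) (.inl (a', q''))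
      rw [yv_col z] at this
      rw [a2, ← exp_add]
      refine this.trans (exp_le_exp.2 ?_)
      rw [eL]
      nlinarith [kw_half k (a', q'')]

end Pool.Agent.MP_4b405e_nt.FB.Lv
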