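import Pool.Agent.MP_4b405e_nt.SK.FFd0
import Pool.Agent.MP_4b405e_nt.SK.DIota
import Pool.Agent.MP_5168f5_an.H17F.SqApi

/-! Flatness of the positions: a class that is not flat has boxes. -/

namespace Pool.Agent.MP_4b405e_nt.FB

open Pool.Agent.MP_5168f5_an H19 H17S H17F Real Matrix Filter
open QA.SD (Bxι NSBι)

namespace Fd

section Atoms

variable {Ω T Kt ι : Type} [Fintype ι]

theorem pb3 (P : FP Ω) (E F G : Ω → Prop) :
    1 - pb P (fun ω => ¬E ω) - pb P (fun ω => ¬F ω) - pb P (fun ω => ¬G ω) ≤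
      pb P fun ω => E ω ∧ F ω ∧ G ω := by
  have h1 := pb_not P fun ω => E ω ∧ F ω ∧ G ω
  have h2 : pb P (fun ω => ¬(E ω ∧ F ω ∧ G ω)) ≤ pb P fun ω => ¬E ω ∨ (¬F ω ∨ ¬G ω) :=
    pb_mono fun _ _ h => by tauto
  have h3 := pb_or P (fun ω => ¬E ω) fun ω => ¬F ω ∨ ¬G ω
  have h4 := pb_or P (fun ω => ¬F ω) fun ω => ¬G ω
  linarith

open Classical in
/-- The boxes in the atoms of a context. -/
theorem atoms (P : FP Ω) (K : Ω → Kt) (A A' X : Ω → ι → ℝ) (τ : Ω → T) {c C b q h h' e β η : ℝ}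
    {u : ℕ} (c0 : 0 ≤ c) (b1 : 1 ≤ b) (q0 : 0 ≤ q) (h0 : 0 < h') (β0 : 0 < β) (η0 : 0 ≤ η)
    (D : ∀ Q : FP Ω, (∀ ω ∈ Q.S, ω ∈ P.S) → hh Q (fun ω => flv u (A ω)) ≤ h' →
      mi Q A (fun ω => (X ω, τ ω)) (fun _ => ()) ≤ β → mi Q A' X τ ≤ β →
      ∃ s : (ι → ℝ) → ℕ, hh Q (fun ω => s (A ω)) ≤ η ∧
        c ≤ pb Q fun ω => NSBι (cv Q (fun ω => s (A ω)) (s (A ω))) X τ c C b q u)
    (h1 : ch P (fun ω => flv u (A ω)) K ≤ h) (h2 : mi P A (fun ω => (X ω, τ ω)) K ≤ e)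
    (h3 : mi P A' X (fun ω => (τ ω, K ω)) ≤ e) :
    ∃ (s : Kt → (ι → ℝ) → ℕ) (G : Kt → ℕ → Prop) (n : Kt → ℕ → ℕ)
      (M : Kt → ℕ → ℕ → (ι → ℝ) →L[ℝ] (ι → ℝ)) (la : Kt → ℕ → ℕ → ℝ)
      (Gd : Kt → ℕ → ℕ → (ι → ℝ) → T → Prop),
      ch P (fun ω => s (K ω) (A ω)) K ≤ η ∧
      c * (1 - h / h' - e / β - e / β) ≤ pb P (fun ω => G (K ω) (s (K ω) (A ω))) ∧
      (P.E fun ω => if G (K ω) (s (K ω) (A ω)) then
        ∑ k ∈ Finset.range (n (K ω) (s (K ω) (A ω))),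
          if Gd (K ω) (s (K ω) (A ω)) k (X ω) (τ ω) then (0 : ℝ) else 1 else 0) ≤ q * u ∧
      ∀ y m, G y m → ∃ Q : FP Ω, Bxι Q X τ c C b q u (n y m) (M y m) (la y m) (Gd y m) := by
  let gd : Kt → Prop := fun y => hh (cv P K y) (fun ω => flv u (A ω)) ≤ h' ∧
    mi (cv P K y) A (fun ω => (X ω, τ ω)) (fun _ => ()) ≤ β ∧ mi (cv P K y) A' X τ ≤ β
  have e1 : ∀ y, ∃ s : (ι → ℝ) → ℕ, hh (cv P K y) (fun ω => s (A ω)) ≤ η ∧ (gd y →
      c ≤ pb (cv P K y) fun ω =>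
        NSBι (cv (cv P K y) (fun ω => s (A ω)) (s (A ω))) X τ c C b q u) := fun y => by
    by_cases g : gd y
    · obtain ⟨s, k1, k2⟩ := D (cv P K y) (fun _ hω => cE_sub hω) g.1 g.2.1 g.2.2
      exact ⟨s, k1, fun _ => k2⟩
    · refine ⟨fun _ => 0, le_trans ?_ η0, fun k => absurd k g⟩
      rw [← ch_unit]
      exact (ch_zero fun _ _ _ _ _ => rfl).le
  choose s s1 s2 using e1
  let G : Kt → ℕ → Prop := fun y m => NSBι (cv (cv P K y) (fun ω => s y (A ω)) m) X τ c C b q u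
  have e2 : ∀ y m, ∃ (n : ℕ) (M : ℕ → (ι → ℝ) →L[ℝ] (ι → ℝ)) (la : ℕ → ℝ)
      (Gd : ℕ → (ι → ℝ) → T → Prop), G y m →
      Bxι (cv (cv P K y) (fun ω => s y (A ω)) m) X τ c C b q u n M la Gd := fun y m => by
    by_cases g : G y m
    · obtain ⟨n, M, la, Gd, k⟩ := g
      exact ⟨n, M, la, Gd, fun _ => k⟩
    · exact ⟨0, fun _ => 0, fun _ => 0, fun _ _ _ => True, fun k => absurd k g⟩
  choose n M la Gd bx using e2
  refine ⟨s, G, n, M, la, Gd, ?_, ?_, ?_, fun y m g => ⟨_, bx y m g⟩⟩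
  · rw [KEA.ent1 P K fun y ω => s y (A ω)]
    exact (P.E_mono fun ω _ => s1 (K ω)).trans_eq (P.E_const η)
  · have m1 := QA.DLab.markov P (F := fun ω => hh (cv P K (K ω)) fun ω => flv u (A ω))
      (fun _ _ => hh_nonneg _) h0 ((KEA.ent1 P K fun _ ω => flv u (A ω)).symm.trans_le h1)
    have m2 := QA.DLab.markov P
      (F := fun ω => mi (cv P K (K ω)) A (fun ω => (X ω, τ ω)) fun _ => ())
      (fun _ _ => mi_nonneg _ _ _) β0 (e := e) (by
        rw [← QA.DLab.mi_atoms]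
        exact le_trans (mi_cond (K := K) (Fn.snd (fun _ => ()) K)
          fun _ _ _ _ k => Prod.ext rfl (congrArg (fun t => t.2) k :)) h2)
    have m3 := QA.DLab.markov P (F := fun ω => mi (cv P K (K ω)) A' X τ)
      (fun _ _ => mi_nonneg _ _ _) β0 (e := e) (by rw [← QA.DLab.mi_atoms]; exact h3)
    have m4 : 1 - h / h' - e / β - e / β ≤ pb P fun ω => gd (K ω) :=
      le_trans (by linarith) (pb3 P _ _ _)
    refine (mul_le_mul_of_nonneg_left m4 c0).trans ?_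
    have m5 : pb P (fun ω => G (K ω) (s (K ω) (A ω))) =
        P.E fun ω => pb (cv P K (K ω)) fun v => G (K ω) (s (K ω) (A v)) :=
      KEA.exp P K fun y ω => if G y (s y (A ω)) then 1 else 0
    rw [m5, pb, ← P.E_mul]
    refine P.E_mono fun ω _ => ?_
    by_cases g : gd (K ω)
    · rw [if_pos g, mul_one]; exact s2 _ g
    · rw [if_neg g, mul_zero]; exact pb_nonneg _ _
  · let F : Kt → ℕ → Ω → ℝ := fun y m ω => if G y m then ∑ k ∈ Finset.range (n y m),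
      if Gd y m k (X ω) (τ ω) then (0 : ℝ) else 1 else 0
    refine (KEA.exp P K fun y ω => F y (s y (A ω)) ω).trans_le
      ((P.E_mono fun ω _ => ?_).trans_eq (P.E_const _))
    refine (KEA.exp (cv P K (K ω)) (fun v => s (K ω) (A v)) (F (K ω))).trans_le
      ((FP.E_mono _ fun v _ => ?_).trans_eq (FP.E_const _ _))
    generalize K ω = y
    generalize s y (A v) = m
    by_cases g : G y m
    · have k := bx y m g
      have k1 : (n y m : ℝ) ≤ u := (le_mul_of_one_le_left (Nat.cast_nonneg _) b1).trans k.hi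
      refine le_trans ?_ (k.bad.trans (mul_le_mul_of_nonneg_left k1 q0))
      simp only [F, if_pos g]
      rw [FP.E_sum]
      refine Finset.sum_le_sum fun i _ => FP.E_mono _ fun a _ => ?_
      by_cases z : Gd y m i (X a) (τ a) <;> simp [z]
    · simp only [F, if_neg g]
      rw [FP.E_const]
      positivity

end Atoms

section Ext

variable {ν : Type} [Fintype ν] (S : ν → Prop)

/-- Restriction to the coordinates in `S`. -/
noncomputable def res : (ν → ℝ) →L[ℝ] ({p // S p} → ℝ) :=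
  ContinuousLinearMap.pi fun a => ContinuousLinearMap.proj a.1

open Classical in
/-- Extension by zero. -/
noncomputable def ext : ({p // S p} → ℝ) →L[ℝ] (ν → ℝ) :=
  ContinuousLinearMap.pi fun p => if h : S p then ContinuousLinearMap.proj ⟨p, h⟩ else 0

omit [Fintype ν] in
theorem res_apply (x : ν → ℝ) (a : {p // S p}) : res S x a = x a.1 := rfl

omit [Fintype ν] in
theorem ext_pos (y : {p // S p} → ℝ) (a : {p // S p}) : ext S y a.1 = y a := by
  simp [ext, a.2]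

omit [Fintype ν] in
theorem ext_neg (y : {p // S p} → ℝ) {p : ν} (h : ¬S p) : ext S y p = 0 := by
  simp [ext, h]

omit [Fintype ν] in
theorem res_ext (y : {p // S p} → ℝ) : res S (ext S y) = y := funext (ext_pos S y)

variable [Fintype {p // S p}]

theorem norm_res (x : ν → ℝ) : ‖res S x‖ ≤ ‖x‖ :=
  (pi_norm_le_iff_of_nonneg (norm_nonneg _)).2 fun a => norm_le_pi_norm x a.1

theorem norm_ext (y : {p // S p} → ℝ) : ‖ext S y‖ = ‖y‖ := by
  refine le_antisymm ((pi_norm_le_iff_of_nonneg (norm_nonneg _)).2 fun p => ?_)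
    ((congrArg _ (res_ext S y)).symm.trans_le (norm_res S _))
  by_cases h : S p
  · rw [ext_pos S y ⟨p, h⟩]; exact norm_le_pi_norm y _
  · rw [ext_neg S y h, norm_zero]; exact norm_nonneg _

/-- A box on the coordinates in `S` as a box on all coordinates. -/
noncomputable def up (M : ({p // S p} → ℝ) →L[ℝ] ({p // S p} → ℝ)) : (ν → ℝ) →L[ℝ] (ν → ℝ) :=
  (ext S).comp (M.comp (res S))

theorem up_norm (M : ({p // S p} → ℝ) →L[ℝ] ({p // S p} → ℝ)) (x : ν → ℝ) :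
    ‖up S M x‖ = ‖M (res S x)‖ := norm_ext S _

theorem norm_up (M : ({p // S p} → ℝ) →L[ℝ] ({p // S p} → ℝ)) : ‖up S M‖ = ‖M‖ := by
  refine le_antisymm (ContinuousLinearMap.opNorm_le_bound _ (norm_nonneg _) fun x => ?_)
    (ContinuousLinearMap.opNorm_le_bound _ (norm_nonneg _) fun x => ?_)
  · rw [up_norm]
    exact (M.le_opNorm _).trans (mul_le_mul_of_nonneg_left (norm_res S x) (norm_nonneg _))
  · have := (up S M).le_opNorm (ext S x)
    rwa [up_norm, res_ext, norm_ext] at this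

end Ext

section Noise

variable {α ν : Type} [Fintype α] [Fintype ν] {σ : Bc α ν} {X : Bd α ν} {e : ℝ}

omit [Fintype α] [Fintype ν] in
theorem wt_nonneg (o : σ.Ok) (p : ν) : 0 ≤ σ.wt p := by
  by_cases h : p = σ.o
  · rw [h, o.wo]
  · exact (o.wt0 p h).le

theorem R_lt (o : σ.Ok) {ω : X.Ω} (t : X.Pt σ e ω) {p q : ν} (h : X.R ω p q ≠ 0) :
    σ.wt q < σ.wt p ∧ (q ≠ σ.o → σ.w p = σ.w q) := by
  rw [Bd.R, Matrix.sum_apply] at h
  obtain ⟨a, -, ha⟩ := Finset.exists_ne_zero_of_sum_ne_zero h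
  have k := t.gr a p q (right_ne_zero_of_mul ha)
  exact ⟨by linarith [k.1, o.et0 a], k.2⟩

/-- The noise only sees lower classes. -/
theorem cl_lt (o : σ.Ok) {ω : X.Ω} (t : X.Pt σ e ω) {p q : ν}
    (h : (X.R ω * X.W ω - X.R ω) p q ≠ 0) : σ.cl q < σ.cl p := by
  have k : σ.wt q < σ.wt p ∧ (q ≠ σ.o → σ.w p = σ.w q) := by
    by_cases z : X.R ω p q = 0
    · rw [Matrix.sub_apply, z, sub_zero, Matrix.mul_apply] at h
      obtain ⟨s, -, hs⟩ := Finset.exists_ne_zero_of_sum_ne_zero h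
      have k1 := R_lt o t (left_ne_zero_of_mul hs)
      have k2 := t.gW s q (right_ne_zero_of_mul hs)
      refine ⟨k2.1.trans k1.1, fun hq => (k1.2 fun z => ?_).trans (k2.2 hq)⟩
      have := wt_nonneg o q
      rw [z, o.wo] at k2
      linarith [k2.1]
    · exact R_lt o t z
  unfold Bc.cl
  by_cases hq : q = σ.o
  · rw [hq, o.wo] at k ⊢
    rw [zero_div]
    exact div_pos k.1 (o.w0 p)
  · rw [k.2 hq]
    exact div_lt_div_of_pos_right k.1 (o.w0 q)

theorem fn_N (o : σ.Ok) (k : X.Ok σ e) {r : ℝ} {p : ν} (hp : σ.cl p = r) :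
    Fn X.P (fun ω => X.N ω p) fun ω => ((σ.oth r (X.Z ω), X.θ σ ω, X.T ω), X.K ω) := by
  intro a ha b hb E
  simp only [Prod.mk.injEq] at E
  obtain ⟨⟨e1, e2, e3⟩, e4⟩ := E
  have e5 : X.ρ a = X.ρ b := by
    funext c p q
    by_cases hq : q = σ.o
    · subst hq
      exact congrFun (congrFun e2 c) p
    · exact k.fρ c p q hq a ha b hb (Prod.ext e4 (congrArg Prod.fst e3))
  have e6 : X.R a = X.R b := by
    have : X.b a = X.b b := congrArg (fun t => t.2.1) e3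
    unfold Bd.R
    rw [e5, this]
  have e7 : X.W a = X.W b := k.fW' a ha b hb (Prod.ext e4 (Prod.ext e3 e2))
  simp only [Bd.N, mulVec, dotProduct]
  rw [← e6, ← e7]
  refine Finset.sum_congr rfl fun q _ => ?_
  by_cases z : (X.R a * X.W a - X.R a) p q = 0
  · rw [z, zero_mul, zero_mul]
  · have l := (cl_lt o (k.pt a ha) z).ne
    have := congrFun e1 q
    simp only [Bc.oth, if_neg (hp ▸ l)] at this
    rw [this]

variable (σ) in
/-- The positions of class `r`. -/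
abbrev Sr (r : ℝ) (p : ν) : Prop := σ.ps p ∧ σ.cl p = r

variable {r : ℝ}

omit [Fintype α] [Fintype ν] in
theorem res_pos (x : ν → ℝ) : res (Sr σ r) (σ.pos r x) = res (Sr σ r) x :=
  funext fun a => if_pos a.2

omit [Fintype α] [Fintype ν] in
theorem res_blk (x : ν → ℝ) : res (Sr σ r) (σ.blk r x) = res (Sr σ r) x :=
  funext fun a => if_pos a.2.2

theorem bud2 (o : σ.Ok) (k : X.Ok σ e) : mi X.P (fun ω => res (Sr σ r) (X.Z ω))
    (fun ω => (res (Sr σ r) (X.N ω), X.T ω)) X.K ≤ e := by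
  refine le_trans ((mi_mono' fun a _ b _ E => ?_).trans (mi_mono (Fn.pair
    (fun a ha b hb E => funext fun p => ?_) fun a _ b _ E => ?_))) (k.b2 r)
  · have := congrArg (fun t => res (Sr σ r) t.1) E
    simpa only [res_blk] using this
  · exact fn_N o k p.2.2 a ha b hb E
  · exact congrArg (fun t => t.1.2.2) E

theorem bud1 {β : Type} (k : X.Ok σ e) (f : ({p // Sr σ r p} → ℤ) → β) :
    mi X.P (fun ω => f (flv X.u (res (Sr σ r) (X.Z ω) + res (Sr σ r) (X.N ω))))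
      (fun ω => res (Sr σ r) (X.N ω)) (fun ω => (X.T ω, X.K ω)) ≤ e := by
  refine le_trans ?_ (k.b1 r)
  refine le_trans (mi_cond (K := fun ω => (X.K ω, X.T ω)) ((Fn.snd _ _).pair (Fn.fst _ _))
    fun _ _ _ _ E => Prod.ext (congrArg (fun t => t.2.2) E) (congrArg (fun t => t.2.1) E)) ?_
  refine (mi_mono' fun a _ b _ E => congrArg f (funext fun p => ?_)).trans
    (mi_mono fun a _ b _ E => ?_)
  · have := congrFun (congrArg Prod.fst E) p.1
    simp only [flv, Bc.blk, if_pos p.2.2] at this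
    exact this
  · have := congrArg (fun t => res (Sr σ r) t.1) E
    simpa only [res_blk] using this

theorem near {ι : Type} [Fintype ι] (u : ℕ) (x y : ι → ℝ) :
    ‖((2 : ℝ) ^ u)⁻¹ • cz (flv u (x + y)) - x - y‖ ≤ ((2 : ℝ) ^ u)⁻¹ := by
  have p0 : (0 : ℝ) < 2 ^ u := by positivity
  have e : ((2 : ℝ) ^ u)⁻¹ • cz (flv u (x + y)) - x - y = ((2 : ℝ) ^ u)⁻¹ •
      (cz (flv u (x + y)) - (2 : ℝ) ^ u • (x + y)) := by
    rw [smul_sub, smul_smul, inv_mul_cancel₀ p0.ne', one_smul, sub_sub]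
  rw [e, norm_smul, Real.norm_eq_abs, abs_of_pos (inv_pos.2 p0)]
  exact mul_le_of_le_one_right (inv_pos.2 p0).le (norm_cz_flv _ _)

variable [Fintype {p // Sr σ r p}]

omit [Fintype α] in
theorem pt0 {Ω : Type} {Q : FP Ω} {N : Ω → {p // Sr σ r p} → ℝ} {τ : Ω → X.Vt × (α → ℝ) × ℕ}
    {c c' C b q : ℝ} {Y : Wd X} {ω : X.Ω}
    {M : ℕ → ({p // Sr σ r p} → ℝ) →L[ℝ] ({p // Sr σ r p} → ℝ)}
    {Gd : ℕ → ({p // Sr σ r p} → ℝ) → X.Vt × (α → ℝ) × ℕ → Prop}
    (x : Bxι Q N τ c C b q X.u (Y.n ω) M (Y.la ω) Gd) (b1 : 1 ≤ b) (cc : c' ≤ c)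
    (e1 : ∀ i, Y.M ω i = up (Sr σ r) (M i))
    (e2 : ∀ i y t, Y.Gd ω i y t ↔ Gd i (res (Sr σ r) y) t) : Y.Pt0 σ r c' C b ω := by
  have an : Antitone fun i => ‖M i‖ := antitone_nat_of_succ_le fun i =>
    ContinuousLinearMap.opNorm_le_bound _ (norm_nonneg _) fun y => (x.nest i y).trans
      ((mul_le_of_le_one_left (norm_nonneg _) (exp_le_one_iff.2 (by linarith))).trans
        ((M i).le_opNorm y))
  have cu : c' * X.u ≤ c * X.u := mul_le_mul_of_nonneg_right cc (Nat.cast_nonneg _)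
  refine ⟨fun i y => ?_, x.hi, cu.trans x.lo, fun i y => ?_, fun i j h y => ?_, x.mono, x.la0,
    x.lan, fun i => ?_, fun i h => ?_, fun i y y' t g1 g2 h => ?_⟩
  · simp only [e1, up, ContinuousLinearMap.comp_apply, res_pos]
  · simp only [e1, up_norm]; exact x.nest i _
  · simp only [e1, up_norm]; exact x.gro i j h _
  · simp only [e1, norm_up]; exact (an (Nat.zero_le i)).trans x.fine
  · simp only [e1, norm_up]; exact ((exp_le_exp.2 cu).trans x.thin).trans (an h)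
  · rw [e1, up_norm, map_sub] at h ⊢
    exact x.gp i _ _ t ((e2 _ _ _).1 g1) ((e2 _ _ _).1 g2) h

end Noise

end Fd

open Fd in
theorem rowF0 : RowF0 := by
  classical
  intro D α ν _ _ _ σ X bs r hr
  obtain ⟨ε, ε0, hε⟩ : ∃ ε : ℝ, 0 < ε ∧ ∀ᶠ n in UF, ¬(X n).Fl σ r ε := by
    by_contra z
    exact hr fun ε ε0 => by
      by_contra y
      exact z ⟨ε, ε0, not_ev.1 y⟩
  have cS : Fintype.card {p // Sr σ r p} = σ.dm r := by rw [Fintype.card_subtype, Bc.dm]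
  have l0 := lg_pos
  have εN : ε < σ.dm r := by
    obtain ⟨n, hn⟩ := hε.exists
    by_contra z
    exact hn ((mul_nonpos_of_nonpos_of_nonneg (by linarith) (by positivity)).trans (ch_nonneg _ _))
  have N0 : (0 : ℝ) < σ.dm r := ε0.trans εN
  obtain ⟨c, C, c0, C1, D⟩ := QA.SD.spDι_of D (σ.dm r) (ε / 2) (by exact_mod_cast N0)
    (half_pos ε0)
  obtain ⟨m, hm⟩ : ∃ m : ℝ, m = ε / (4 * σ.dm r) := ⟨_, rfl⟩
  have m0 : 0 < m := by rw [hm]; positivity
  have m1 : m ≤ 1 := by rw [hm, div_le_one (by positivity)]; linarith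
  have cm : c * m ≤ c := mul_le_of_le_one_right c0.le m1
  have d0 : 0 < (σ.dm r : ℝ) - ε / 2 := by linarith
  have e3 : ((σ.dm r : ℝ) - ε) / (σ.dm r - ε / 2) ≤ 1 - 2 * m := by
    rw [div_le_iff₀ d0]
    have : m * σ.dm r = ε / 4 := by rw [hm]; field_simp
    nlinarith
  refine ⟨c * m, C, by positivity, C1, fun b q η b1 q0 η0 => ?_⟩
  obtain ⟨β, u₀, β0, D⟩ := D b q η b1 q0 η0
  filter_upwards [hε, bs.ev (β * m / 2) (by positivity),
    bs.big.eventually_ge_atTop (max u₀ 1)] with n hn k hu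
  generalize X n = Y at hn k hu
  have u0 : (0 : ℝ) < Y.u := by exact_mod_cast (le_max_right u₀ 1).trans hu
  have h1 : ch Y.P (fun ω => flv Y.u (res (Sr σ r) (Y.Z ω))) Y.K ≤ (σ.dm r - ε) * (Y.u * lg) := by
    refine le_trans (ch_mono fun a _ b _ E => ?_) (not_le.1 hn).le
    have := congrArg (fun t => flv Y.u (res (Sr σ r) t.1)) E
    simpa only [res_pos] using this
  obtain ⟨s, G, n, M, la, Gd, k1, k2, k3, k4⟩ := atoms Y.P Y.K (fun ω => res (Sr σ r) (Y.Z ω)) _ _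
    Y.T (h' := (σ.dm r - ε / 2) * Y.u * lg) (β := β * Y.u) (η := η * Y.u) c0.le b1 q0.le
    (by positivity) (by positivity) (by positivity)
    (fun Q _ => D Y.u ((le_max_left _ _).trans hu) _ _ _ Q _ _ _ Y.T cS fun ω _ => near _ _ _)
    h1 (bud2 bs.ok k) (bud1 k fun z => ((2 : ℝ) ^ Y.u)⁻¹ • cz z)
  have e1 : (σ.dm r - ε) * (Y.u * lg) / ((σ.dm r - ε / 2) * Y.u * lg) =
      (σ.dm r - ε) / (σ.dm r - ε / 2) := by field_simp
  have e2 : β * m / 2 * Y.u / (β * Y.u) = m / 2 := by field_simp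
  rw [e1, e2] at k2
  obtain ⟨t, ht⟩ : ∃ t : Y.Ω → ℕ, t = fun ω => s (Y.K ω) (res (Sr σ r) (Y.Z ω)) := ⟨_, rfl⟩
  have ht' : ∀ ω, s (Y.K ω) (res (Sr σ r) (Y.Z ω)) = t ω := fun ω => by rw [ht]
  simp only [ht'] at k1 k2 k3
  refine ⟨⟨t, fun ω => n (Y.K ω) (t ω), fun ω i => up (Sr σ r) (M (Y.K ω) (t ω) i),
    fun ω => la (Y.K ω) (t ω), fun ω i x z => Gd (Y.K ω) (t ω) i (res (Sr σ r) x) z,
    fun _ _ => 0, fun _ => ∅, fun ω => G (Y.K ω) (t ω)⟩, fun a _ b _ E => ?_, k1,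
    fun a _ b _ E => ?_, fun a _ b _ E => ?_,
    le_trans (mul_le_mul_of_nonneg_left (by linarith) c0.le) k2, k3, fun ω _ g => ?_⟩
  · have E1 : Y.K a = Y.K b := congrArg Prod.fst E
    have := congrArg (fun t => res (Sr σ r) t.2) E
    simp only [res_pos] at this
    simp only [← ht', this, E1]
  · simp only [Prod.mk.injEq] at E
    simp only [E.1, E.2]
  · simp only [Prod.mk.injEq] at E
    simp only [E.1, E.2]
  · obtain ⟨Q, x⟩ := k4 _ _ g
    exact pt0 x b1 cm (fun _ => rfl) fun _ _ _ => Iff.rfl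

end Pool.Agent.MP_4b405e_nt.FB
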