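import Pool.Agent.MP_4b405e_nt.SK.FSp

/-! Flatness of the positions: the order of the constants and the induction on the classes. -/

namespace Pool.Agent.MP_4b405e_nt.FB

open Pool.Agent.MP_5168f5_an H19 H17S H17F Real Matrix Filter

namespace XG

theorem low {ι : Type} [Finite ι] (f : ι → ℝ) (h : ∀ i, 0 < f i) : ∃ x, 0 < x ∧ ∀ i, x ≤ f i := by
  rcases isEmpty_or_nonempty ι with e | e
  · exact ⟨1, one_pos, fun i => (e.false i).elim⟩
  · obtain ⟨i, hi⟩ := Finite.exists_min f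
    exact ⟨f i, h i, hi⟩

theorem upp {ι : Type} [Finite ι] (f : ι → ℝ) : ∃ x, ∀ i, f i ≤ x := by
  rcases isEmpty_or_nonempty ι with e | e
  · exact ⟨1, fun i => (e.false i).elim⟩
  · obtain ⟨i, hi⟩ := Finite.exists_max f
    exact ⟨f i, hi⟩

theorem lg_pos : 0 < lg := Real.log_pos one_lt_two

end XG

variable {α ν : Type} [Fintype α] [Fintype ν] [DecidableEq ν] {σ : Bc α ν}

theorem Wd.Ok.mono {X : Bd α ν} {Y : Wd X} {r c C a b q η q' η' : ℝ} {t t' : X.Ω → ℕ → Prop}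
    (h : Y.Ok σ r c C a b q η t) (hq : q ≤ q') (he : η ≤ η') (ht : ∀ ω i, t ω i → t' ω i) :
    Y.Ok σ r c C a b q' η' t' :=
  ⟨h.fs, h.hs.trans (mul_le_mul_of_nonneg_right he (Nat.cast_nonneg _)), h.fM, h.fl, h.pe,
    h.bad.trans (mul_le_mul_of_nonneg_right hq (Nat.cast_nonneg _)), h.pt,
    fun ω hω e i hi => ht ω i (h.ty ω hω e i hi)⟩

theorem Wd.TS.mono (ok : σ.Ok) {X : Bd α ν} {Y : Wd X} {x x' : ℝ} {a : α} {q : ν} {ω : X.Ω} {i : ℕ}
    (e : x ≤ x') (h : Y.TS σ x a q ω i) : Y.TS σ x' a q ω i := by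
  refine ⟨h.1, h.2.1, le_trans (exp_le_exp.2 ?_) h.2.2⟩
  refine mul_le_mul_of_nonneg_left ?_ (div_pos (ok.et0 a) XG.lg_pos).le
  have := mul_le_mul_of_nonneg_right e (Nat.cast_nonneg (α := ℝ) X.u)
  linarith

omit [Fintype α] [DecidableEq ν] in
theorem fl_triv {X : ℕ → Bd α ν} {r : ℝ} (h : ∀ p, σ.cl p ≠ r) : FL σ X r := fun ε hε =>
  .of_forall fun n => by
    have e : σ.dm r = 0 := by
      classical
      unfold Bc.dm
      rw [Finset.card_eq_zero, Finset.filter_eq_empty_iff]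
      exact fun p _ a => h p a.2
    unfold Bd.Fl
    rw [e]
    refine le_trans ?_ (ch_nonneg _ _)
    have := mul_nonneg hε.le (mul_nonneg (Nat.cast_nonneg (α := ℝ) (X n).u) XG.lg_pos.le)
    simp only [Nat.cast_zero, zero_sub, neg_mul]
    linarith

theorem rowG : RowG := by
  intro nd nc fe ns nx no ni α ν _ _ σ X h
  classical
  suffices k : ∀ m : ℕ, ∀ r, (Finset.univ.filter fun p => σ.cl p < r).card = m → FL σ X r from
    fun r => k _ r rfl
  intro m
  induction m using Nat.strong_induction_on with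
  | _ m ih =>
  intro r hm
  have lowr : ∀ r' < r, FL σ X r' := by
    intro r' hr
    by_cases e : ∃ p, σ.cl p = r'
    · obtain ⟨p, hp⟩ := e
      refine ih _ ?_ r' rfl
      rw [← hm]
      refine Finset.card_lt_card ⟨fun v hv => ?_, fun k => ?_⟩
      · simp only [Finset.mem_filter, Finset.mem_univ, true_and] at hv ⊢
        exact hv.trans hr
      · have := k (Finset.mem_filter.2 ⟨Finset.mem_univ p, hp.trans_lt hr⟩)
        simp only [Finset.mem_filter, Finset.mem_univ, true_and] at this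
        exact this.ne hp
    · exact fl_triv fun p a => e ⟨p, a⟩
  by_contra hr
  obtain ⟨c, C, a, hc, hC, ha, hf⟩ := fe α ν σ X h r hr
  choose xS bS xS0 hS using fun z : α × ν => ns α ν σ X h r c C a z.1 z.2 hc hC ha lowr
  obtain ⟨x, x0, hx⟩ := XG.low xS xS0
  choose bX hX using fun q' : ν => nx α ν σ X h r c C a x q' hc hC ha x0 (nc α ν σ X h)
  choose bO hO using fun p : ν => no α ν σ X h r c C a p hc hC ha (nd α ν σ X h)
  choose eI eI0 hI using fun p : ν => ni α ν σ X h r c C a p hc hC ha (nd α ν σ X h)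
  obtain ⟨b1, hb1⟩ := XG.upp bS
  obtain ⟨b2, hb2⟩ := XG.upp bX
  obtain ⟨b3, hb3⟩ := XG.upp bO
  obtain ⟨b, e0, e1, e2, e3⟩ : ∃ b : ℝ, 1 ≤ b ∧ b1 ≤ b ∧ b2 ≤ b ∧ b3 ≤ b :=
    ⟨max (max 1 b1) (max b2 b3), by simp, by simp, by simp, by simp⟩
  choose qS qS0 kS using fun z => hS z b ((hb1 z).trans e1)
  choose qX qX0 kX using fun z => hX z b ((hb2 z).trans e2)
  choose qO eO qO0 eO0 kO using fun z => hO z b ((hb3 z).trans e3)
  obtain ⟨q1, q10, hq1⟩ := XG.low qS qS0
  obtain ⟨q2, q20, hq2⟩ := XG.low qX qX0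
  obtain ⟨q3, q30, hq3⟩ := XG.low qO qO0
  obtain ⟨η1, η10, hη1⟩ := XG.low eO eO0
  obtain ⟨η2, η20, hη2⟩ := XG.low eI eI0
  have fin : ∀ᶠ _n in UF, False := by
    filter_upwards [hf x b (min q1 (min q2 q3)) (min η1 η2) x0 e0 (by positivity) (by positivity),
      eventually_all.2 kS, eventually_all.2 kX, eventually_all.2 kO,
      eventually_all.2 fun p => hI p b e0] with n ⟨Y, hY⟩ u1 u2 u3 u4
    rcases hY with ⟨a', q', k⟩ | ⟨q', k⟩ | ⟨p, k⟩ | ⟨p, k⟩
    · exact u1 (a', q') _ Y (k.mono ((min_le_left _ _).trans (hq1 _)) le_rfl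
        fun _ _ => Wd.TS.mono h.ok (hx _))
    · exact u2 q' _ Y (k.mono ((min_le_right _ _).trans ((min_le_left _ _).trans (hq2 _))) le_rfl
        fun _ _ => id)
    · exact u3 p Y (k.mono ((min_le_right _ _).trans ((min_le_right _ _).trans (hq3 _)))
        ((min_le_left _ _).trans (hη1 _)) fun _ _ => id)
    · exact u4 p _ Y (k.mono le_rfl ((min_le_right _ _).trans (hη2 _)) fun _ _ => id)
  exact (show (UF : Filter ℕ).NeBot from Ultrafilter.neBot _).ne (eventually_false_iff_eq_bot.1 fin)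

end Pool.Agent.MP_4b405e_nt.FB
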