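import Pool.Agent.MP_4b405e_nt.SK.Geo8
import Pool.Agent.MP_5168f5_an.H17F.Api

/-! The process on the side of the noise: data and statements. -/

namespace Pool.Agent.MP_4b405e_nt.EB

open Pool.Agent.MP_5168f5_an H19 H17S H17F Real

/-- Pairs of vectors. -/
abbrev Vv (ι ι' : Type) : Type := (ι → ℝ) × (ι' → ℝ)

/-- Boxes `Ξ k` with levels `l k`, forms `θ : (p, ρ) ↦ s θ • J p + C θ ρ` of level `j θ`, the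
variable `B = (p, ρ)`, the true form `τ`, good events and an error. -/
structure Dat (ι ι' γ T Ω : Type) [Fintype ι] [Fintype ι'] [Fintype γ] where
  P : FP Ω
  n : ℕ
  U : ℕ
  I : Finset ℕ
  Ξ : ℕ → (γ → ℝ) →L[ℝ] (γ → ℝ)
  l : ℕ → ℝ
  J : (ι → ℝ) →L[ℝ] (γ → ℝ)
  C : T → (ι' → ℝ) →L[ℝ] (γ → ℝ)
  s : T → ℝ
  j : T → ℕ
  B : Ω → Vv ι ι'
  τ : Ω → T
  Gd : ℕ → Ω → Prop
  ex : Ω → ℝ

variable {ι ι' γ T Ω : Type} [Fintype ι] [Fintype ι'] [Fintype γ]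

/-- The form `θ` in the coordinates of the box `k`. -/
noncomputable def Dat.Φ (X : Dat ι ι' γ T Ω) (k : ℕ) (θ : T) : Vv ι ι' →L[ℝ] (γ → ℝ) :=
  (X.Ξ k).comp (X.s θ • X.J.comp (ContinuousLinearMap.fst ℝ _ _) +
    (X.C θ).comp (ContinuousLinearMap.snd ℝ _ _))

theorem Dat.Φ_apply (X : Dat ι ι' γ T Ω) (k : ℕ) (θ : T) (x : Vv ι ι') :
    X.Φ k θ x = X.Ξ k (X.s θ • X.J x.1 + X.C θ x.2) := rfl

open Classical in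
/-- The error on the event `A (B ω)`. -/
noncomputable def Dat.er (X : Dat ι ι' γ T Ω) (Q : FP Ω) (A : Vv ι ι' → Prop) : ℝ :=
  Q.E fun ω => if A (X.B ω) then X.ex ω else 0

/-- The level is uniform on every event of `B`, up to the error. -/
def Dat.Lv (X : Dat ι ι' γ T Ω) (Q : FP Ω) : Prop :=
  ∀ (A : Vv ι ι' → Prop) (W : Finset ℕ), W ⊆ Finset.range X.U →
    (W.card : ℝ) / X.U * pb Q (fun ω => A (X.B ω)) ≤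
      pb Q (fun ω => A (X.B ω) ∧ X.j (X.τ ω) ∈ W) + X.er Q A

/-- The depth below the level of a box that is ever used, in units of `L`. -/
noncomputable def cE (κ : ℝ) : ℝ := 2 / κ + 4

/-- The form `θ` is close to the centre `Γ` in the box `i`. -/
def Dat.Cl (X : Dat ι ι' γ T Ω) (h κ r L : ℝ) (i : ℕ) (Γ : (ι' → ℝ) →L[ℝ] (γ → ℝ)) (θ : T) : Prop :=
  X.l i ≤ h * X.j θ + cE κ * L ∧ h * X.j θ ≤ X.l i ∧
    ∀ ρ, ‖X.Ξ i (X.C θ ρ - X.s θ • Γ ρ)‖ ≤ exp (κ * (X.l i - h * X.j θ) - r) * ‖ρ‖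

/-- On every event of `B` the true form is not close to a centre read from its level, up to the
error. -/
def Dat.Ac (X : Dat ι ι' γ T Ω) (h κ r L : ℝ) (Q : FP Ω) : Prop :=
  ∀ (A : Vv ι ι' → Prop) (i : ℕ → ℕ) (Γ : ℕ → (ι' → ℝ) →L[ℝ] (γ → ℝ)), (∀ j, i j ∈ X.I) →
    pb Q (fun ω => A (X.B ω) ∧ X.Cl h κ r L (i (X.j (X.τ ω))) (Γ (X.j (X.τ ω))) (X.τ ω)) ≤
      X.er Q A

/-- Two good points with the same form are either far or very close in the box `k`. -/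
def Dat.Gp (X : Dat ι ι' γ T Ω) (β : ℝ) (k : ℕ) (θ : T) : Prop :=
  ∀ ω ∈ X.P.S, ∀ ω' ∈ X.P.S, X.Gd k ω → X.Gd k ω' → X.τ ω = θ → X.τ ω' = θ →
    ‖X.Φ k θ (X.B ω - X.B ω')‖ ≤ 1 → ‖X.Φ k θ (X.B ω - X.B ω')‖ ≤ exp (-(6 * β))

/-- The information between the form and `B`, plus the bad mass. -/
noncomputable def Dat.bud (X : Dat ι ι' γ T Ω) : ℝ :=
  mi X.P X.τ X.B (fun _ => ()) + ∑ k ∈ Finset.range X.n, pb X.P fun ω => ¬X.Gd k ω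

/-- Hypotheses common to both runs. -/
structure Dat.Ok (X : Dat ι ι' γ T Ω) (h ν β r d : ℝ) : Prop where
  ball : ∀ ω ∈ X.P.S, ∀ ω' ∈ X.P.S, ‖X.B ω - X.B ω'‖ ≤ 1
  sub : ∀ i ∈ X.I, i < X.n
  nest : ∀ k, k + 1 < X.n → ∀ x, ‖X.Ξ (k + 1) x‖ ≤ exp (-(12 * β)) * ‖X.Ξ k x‖
  r0 : 0 ≤ r
  up : ∀ i ∈ X.I, ∀ p, ‖X.Ξ i (X.J p)‖ ≤ exp (X.l i + r) * ‖p‖
  lev : ∀ i ∈ X.I, d ≤ X.l i ∧ X.l i + r + 4 * β ≤ h * X.U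
  u0 : 0 < X.U
  mass : ν * h * X.U ≤ β * X.I.card
  ex0 : ∀ ω, 0 ≤ X.ex ω
  lv : X.Lv X.P

/-- The size of a form. -/
def Dat.Sz (X : Dat ι ι' γ T Ω) (h : ℝ) (θ : T) : Prop :=
  exp (-1 - h * X.j θ) ≤ |X.s θ| ∧ |X.s θ| ≤ exp (1 - h * X.j θ)

/-- The size of the part of a form that acts on `ρ`. -/
def Dat.Ga (X : Dat ι ι' γ T Ω) (h κ r L : ℝ) (θ : T) : Prop :=
  ∀ i ∈ X.I, X.l i ≤ h * X.j θ + cE κ * L →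
    ∀ ρ, ‖X.Ξ i (X.C θ ρ)‖ ≤ exp (κ * (X.l i - h * X.j θ) + r) * ‖ρ‖

/-- Hypotheses of the first run. -/
structure Dat.Ok1 (X : Dat ι ι' γ T Ω) (h κ ν C η β r L : ℝ) (R : ℕ) (la : ℕ → ℝ) : Prop extends
    X.Ok h ν β r (cE κ * L) where
  sz : ∀ ω ∈ X.P.S, X.Sz h (X.τ ω)
  ga : ∀ ω ∈ X.P.S, X.Ga h κ r L (X.τ ω)
  gp : ∀ k < X.n, ∀ θ, (∃ i ∈ X.I, i ≤ k ∧ X.l i ≤ h * X.j θ + cE κ * L) → X.Gp β k θ
  lnest : ∀ k, k + 1 < X.n → X.l (k + 1) + 12 * β ≤ X.l k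
  grow : ∀ i k, i ≤ k → k < X.n → X.l i - X.l k ≤ la k - la i ∧
    ∀ x, ‖X.Ξ i x‖ ≤ exp (la k - la i) * ‖X.Ξ k x‖
  tot : ∀ k < X.n, 0 ≤ la k ∧ la k ≤ C * h * X.U
  ac : X.Ac h κ r L X.P
  r1 : r ≤ η * L
  short : L ≤ η * h * X.U
  dep : 2 * L ≤ R * lg

/-- The first run: the variable `ρ` is not flat. -/
def Run1 : Prop := ∀ (N : ℕ) (h κ ν C : ℝ), 0 < h → 0 < κ → 0 < ν → 0 < C →
  ∃ η K' β₀ : ℝ, 0 < η ∧ 0 ≤ K' ∧ ∀ β, β₀ ≤ β → ∃ K L₀ : ℝ, 0 ≤ K ∧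
    ∀ (ι ι' γ T Ω : Type) [Fintype ι] [Fintype ι'] [Fintype γ] [Nonempty ι']
      (X : Dat ι ι' γ T Ω) (r L : ℝ) (R : ℕ) (la : ℕ → ℝ), Fintype.card ι ≤ N →
      Fintype.card ι' ≤ N → L₀ ≤ L → X.Ok1 h κ ν C η β r L R la →
      hh X.P (fun ω => flv R (X.B ω).2) ≤
        Fintype.card ι' * R * lg - η * L + K * X.bud + K' * L * X.P.E X.ex

/-- The coordinates of `p` in the box `i`, at depth `L` below its level. -/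
noncomputable def Dat.dg (X : Dat ι ι' γ T Ω) (L : ℝ) (i : ℕ) (ω : Ω) : γ → ℤ :=
  fun a => ⌊X.Ξ i (X.J (X.B ω).1) a / exp (X.l i - L)⌋

/-- The second run: no variable `ρ`; the coordinates of `p` in the boxes have rate zero. -/
def Run2 : Prop := ∀ (N : ℕ) (h ν ε : ℝ), 0 < h → 0 < ν → 0 < ε →
  ∃ K' β₀ : ℝ, 0 ≤ K' ∧ ∀ β, β₀ ≤ β → ∃ K L₀ : ℝ, 0 ≤ K ∧
    ∀ (ι γ T Ω : Type) [Fintype ι] [Fintype γ] (X : Dat ι Empty γ T Ω) (L : ℝ),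
      Fintype.card ι ≤ N → Fintype.card γ ≤ N → L₀ ≤ L → X.Ok h ν β 0 L →
      (∀ ω ∈ X.P.S, X.Sz h (X.τ ω)) →
      (∀ i ∈ X.I, ∀ θ, X.l i ≤ h * X.j θ + L → X.Gp β i θ) →
      ∑ i ∈ X.I, hh X.P (X.dg L i) ≤ X.I.card * (ε * L + K * X.bud + K' * L * X.P.E X.ex)

end Pool.Agent.MP_4b405e_nt.EB
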