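import Pool.Agent.MP_4b405e_nt.SK.FDef
import Pool.Agent.MP_4b405e_nt.SK.SpD
import Pool.Agent.MP_4b405e_nt.SK.SpE

/-! Flatness of the positions: worlds of boxes and the statements of the steps. -/

namespace Pool.Agent.MP_4b405e_nt.FB

open Pool.Agent.MP_5168f5_an H19 H17S H17F Real Matrix Filter

variable {α ν : Type} [Fintype α] [Fintype ν] [DecidableEq ν]

/-- A label, a chain of boxes with growth `la` and levels `l`, selected boxes, good sets and an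
event. -/
structure Wd (X : Bd α ν) : Type where
  s : X.Ω → ℕ
  n : X.Ω → ℕ
  M : X.Ω → ℕ → (ν → ℝ) →L[ℝ] (ν → ℝ)
  la : X.Ω → ℕ → ℝ
  Gd : X.Ω → ℕ → (ν → ℝ) → X.Vt × (α → ℝ) × ℕ → Prop
  l : X.Ω → ℕ → ℝ
  I : X.Ω → Finset ℕ
  E : X.Ω → Prop

namespace Wd

variable (σ : Bc α ν) {X : Bd α ν} (Y : Wd X)

/-- The size of the column `q` of the letter `a` in the box `k`. -/
noncomputable def g (ω : X.Ω) (k : ℕ) (a : α) (q : ν) : ℝ := ‖Y.M ω k fun p => X.ρ ω a p q‖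

/-- The size of the coordinate `p` in the box `k`. -/
noncomputable def f (ω : X.Ω) (k : ℕ) (p : ν) : ℝ := ‖Y.M ω k (Pi.single p 1)‖

/-- The facts at a point of the event. -/
structure Pt (r c C a b : ℝ) (ω : X.Ω) : Prop where
  sup : ∀ k x, Y.M ω k x = Y.M ω k (σ.pos r x)
  hi : b * Y.n ω ≤ X.u
  lo : c * X.u ≤ b * (Y.I ω).card
  sub : ∀ i ∈ Y.I ω, i < Y.n ω
  nest : ∀ k x, ‖Y.M ω (k + 1) x‖ ≤ exp (-(2 * b)) * ‖Y.M ω k x‖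
  gro : ∀ i k, i ≤ k → ∀ x, ‖Y.M ω i x‖ ≤ exp (Y.la ω k - Y.la ω i) * ‖Y.M ω k x‖
  mono : Monotone (Y.la ω)
  la0 : Y.la ω 0 = 0
  lan : Y.la ω (Y.n ω) ≤ C * X.u
  fine : ∀ k, ‖Y.M ω k‖ ≤ 2 ^ X.u
  gp : ∀ k x x' t, Y.Gd ω k x t → Y.Gd ω k x' t → ‖Y.M ω k (x - x')‖ ≤ 1 →
    ‖Y.M ω k (x - x')‖ ≤ exp (-b)
  up : ∀ k < Y.n ω, ∀ a' q, q ≠ σ.o → Y.g ω k a' q ≤ exp (σ.et a' / lg * Y.l ω k)
  ups : ∀ k < Y.n ω, ∀ p, σ.wt p = lg → Y.f ω k p ≤ exp (Y.l ω k)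
  lev : ∀ k < Y.n ω, c * X.u ≤ Y.l ω k ∧ Y.l ω k ≤ (σ.C - 1 / 2) * lg * X.u
  lnest : ∀ k, k + 1 < Y.n ω → Y.l ω (k + 1) + a * b ≤ Y.l ω k
  lgro : ∀ i k, i ≤ k → k < Y.n ω → Y.l ω i - Y.l ω k ≤ C * (Y.la ω k - Y.la ω i)

open Classical in
/-- The facts on the space; the selected boxes have the type `t`. -/
structure Ok (r c C a b q η : ℝ) (t : X.Ω → ℕ → Prop) : Prop where
  fs : Fn X.P Y.s fun ω => (X.K ω, σ.pos r (X.Z ω))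
  hs : ch X.P Y.s X.K ≤ η * X.u
  fM : Fn X.P (fun ω => (Y.n ω, Y.M ω, Y.la ω, Y.Gd ω)) fun ω => (X.K ω, Y.s ω)
  fl : Fn X.P (fun ω => (Y.l ω, Y.I ω, Y.E ω)) fun ω => (X.K ω, Y.s ω, X.v ω)
  pe : c ≤ pb X.P Y.E
  bad : (X.P.E fun ω => if Y.E ω then ∑ k ∈ Finset.range (Y.n ω),
    if Y.Gd ω k (X.N ω) (X.T ω) then (0 : ℝ) else 1 else 0) ≤ q * X.u
  pt : ∀ ω ∈ X.P.S, Y.E ω → Y.Pt σ r c C a b ω
  ty : ∀ ω ∈ X.P.S, Y.E ω → ∀ i ∈ Y.I ω, t ω i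

/-- A letter other than `τ` is seen almost first. -/
def TS (x : ℝ) (a : α) (q : ν) (ω : X.Ω) (i : ℕ) : Prop :=
  a ≠ σ.τ ∧ q ≠ σ.o ∧ exp (σ.et a / lg * (Y.l ω i - x * X.u)) ≤ Y.g ω i a q

/-- The letter `τ` is seen first and the other letters late. -/
def TX (x : ℝ) (q : ν) (ω : X.Ω) (i : ℕ) : Prop :=
  q ≠ σ.o ∧ exp (Y.l ω i) ≤ Y.g ω i σ.τ q ∧ ∀ a' q', a' ≠ σ.τ → q' ≠ σ.o →
    Y.g ω i a' q' ≤ exp (σ.et a' / lg * (Y.l ω i - x * X.u))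

/-- The source is seen first. -/
def TO (p : ν) (ω : X.Ω) (i : ℕ) : Prop := σ.wt p = lg ∧ exp (Y.l ω i) ≤ Y.f ω i p

/-- Nothing is seen. -/
def TI (c : ℝ) (p : ν) (ω : X.Ω) (i : ℕ) : Prop := σ.wt p ≠ lg ∧ exp (c * X.u) ≤ Y.f ω i p ∧
  ∀ a' q', q' ≠ σ.o → Y.g ω i a' q' ≤ exp (-(c * X.u)) * Y.f ω i p

end Wd

/-- Flatness of the class `r`. -/
def FL (σ : Bc α ν) (X : ℕ → Bd α ν) (r : ℝ) : Prop := ∀ ε : ℝ, 0 < ε → ∀ᶠ n in UF, (X n).Fl σ r ε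

/-- A cheap label does not carry a thin slab for the block of class `r`. -/
def NC (σ : Bc α ν) (X : ℕ → Bd α ν) (r : ℝ) : Prop := ∀ c δ : ℝ, 0 < c → 0 < δ →
  ∃ κ : ℝ, 0 < κ ∧ ∀ᶠ n in UF, ∀ (ψ : (X n).Ω → ν → ℝ) (y : (X n).Ω → ℝ),
    mi (X n).P (fun ω => (ψ ω, y ω)) (fun ω => σ.blk r ((X n).Z ω)) (X n).K ≤ κ * (X n).u →
    pb (X n).P (fun ω => σ.Un (ψ ω) ∧ (∀ p, ψ ω p ≠ 0 → σ.cl p = r) ∧
      |ψ ω ⬝ᵥ (X n).Z ω - y ω| ≤ exp (-(c * (X n).u))) ≤ δ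

/-- Cheap labels do not carry a degenerate functional. -/
def ND (σ : Bc α ν) (X : ℕ → Bd α ν) : Prop := ∀ c δ : ℝ, 0 < c → 0 < δ →
  ∃ κ : ℝ, 0 < κ ∧ ∀ᶠ n in UF, ∀ (ξ : (X n).Ω → ν → ℝ) (y : (X n).Ω → α → ℝ),
    mi (X n).P ξ (fun ω => ((X n).v ω, (X n).θ σ ω)) (X n).K ≤ κ * (X n).u →
    mi (X n).P y ((X n).θ σ) (fun ω => ((X n).K ω, (X n).v ω, ξ ω)) ≤ κ * (X n).u →
    pb (X n).P (fun ω => σ.Un (ξ ω) ∧ (X n).Dg σ (c * (X n).u) ω (ξ ω) (y ω)) ≤ δ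

/-- A statement about block systems. -/
def OnB (p : ∀ (α ν : Type) [Fintype α] [Fintype ν] [DecidableEq ν], Bc α ν → (ℕ → Bd α ν) → Prop) :
    Prop := ∀ (α ν : Type) [Fintype α] [Fintype ν] [DecidableEq ν] (σ : Bc α ν) (X : ℕ → Bd α ν),
  Bs σ X → p α ν σ X

def NDall : Prop := OnB fun _ _ _ _ _ σ X => ND σ X
def NCall : Prop := OnB fun _ _ _ _ _ σ X => ∀ r, NC σ X r

/-- A class that is not flat has worlds, of one of the four types. -/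
def Feed : Prop := OnB fun _ _ _ _ _ σ X => ∀ r, ¬FL σ X r → ∃ c C a : ℝ, 0 < c ∧ 1 ≤ C ∧ 0 < a ∧
  ∀ x b q η : ℝ, 0 < x → 1 ≤ b → 0 < q → 0 < η → ∀ᶠ n in UF, ∃ Y : Wd (X n),
    (∃ a' q', Y.Ok σ r c C a b q η (Y.TS σ x a' q')) ∨ (∃ q', Y.Ok σ r c C a b q η (Y.TX σ x q')) ∨
    (∃ p, Y.Ok σ r c C a b q η (Y.TO σ p)) ∨ ∃ p, Y.Ok σ r c C a b q η (Y.TI σ c p)

def NoS : Prop := OnB fun _ _ _ _ _ σ X => ∀ (r c C a : ℝ) a' q', 0 < c → 1 ≤ C → 0 < a →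
  (∀ r' < r, FL σ X r') → ∃ x b₀ : ℝ, 0 < x ∧ ∀ b, b₀ ≤ b → ∃ q : ℝ, 0 < q ∧ ∀ᶠ n in UF,
    ∀ η (Y : Wd (X n)), ¬Y.Ok σ r c C a b q η (Y.TS σ x a' q')

def NoX : Prop := OnB fun _ _ _ _ _ σ X => ∀ (r c C a x : ℝ) q', 0 < c → 1 ≤ C → 0 < a → 0 < x →
  (∀ r', NC σ X r') → ∃ b₀ : ℝ, ∀ b, b₀ ≤ b → ∃ q : ℝ, 0 < q ∧ ∀ᶠ n in UF,
    ∀ η (Y : Wd (X n)), ¬Y.Ok σ r c C a b q η (Y.TX σ x q')

def NoO : Prop := OnB fun _ _ _ _ _ σ X => ∀ (r c C a : ℝ) p, 0 < c → 1 ≤ C → 0 < a → ND σ X →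
  ∃ b₀ : ℝ, ∀ b, b₀ ≤ b → ∃ q η : ℝ, 0 < q ∧ 0 < η ∧ ∀ᶠ n in UF,
    ∀ Y : Wd (X n), ¬Y.Ok σ r c C a b q η (Y.TO σ p)

def NoI : Prop := OnB fun _ _ _ _ _ σ X => ∀ (r c C a : ℝ) p, 0 < c → 1 ≤ C → 0 < a → ND σ X →
  ∃ η : ℝ, 0 < η ∧ ∀ b, 1 ≤ b → ∀ᶠ n in UF, ∀ q (Y : Wd (X n)), ¬Y.Ok σ r c C a b q η (Y.TI σ c p)

/-! ### Rows -/

def RowFeed : Prop := QA.SD.SpD → Feed
def RowS : Prop := EB.Run1 → NoS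
def RowX : Prop := EB.Run2 → NoX
def RowO : Prop := EB.Run2 → NoO
def RowG : Prop := NDall → NCall → Feed → NoS → NoX → NoO → NoI → SpF

theorem spF_of (d : QA.SD.SpD) (r1 : EB.Run1) (r2 : EB.Run2) (nd : NDall) (nc : NCall) (i : NoI)
    (h1 : RowFeed) (h2 : RowS) (h3 : RowX) (h4 : RowO) (h5 : RowG) : SpF :=
  h5 nd nc (h1 d) (h2 r1) (h3 r2) (h4 r2) i

end Pool.Agent.MP_4b405e_nt.FB
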