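import Pool.Agent.MP_4b405e_nt.SK.FNc2
import Pool.Agent.MP_4b405e_nt.SK.FSp

/-! Cheap labels do not carry thin slabs. -/

namespace Pool.Agent.MP_4b405e_nt.FB

open Pool.Agent.MP_5168f5_an H19 H17S H17F Real Matrix Filter Finset FC

variable {α ν : Type} [Fintype α] [Fintype ν] {σ : Bc α ν} {X : ℕ → Bd α ν}

/-- The sequence form. -/
def NcS (σ : Bc α ν) (X : ℕ → Bd α ν) (r : ℝ) : Prop := ∀ c : ℝ, 0 < c →
  ∀ x : ∀ n, (X n).Ω → (ν → ℝ) × ℝ,
    (Sm (fun n => (X n).u) fun n => mi (X n).P (x n) (fun ω => σ.blk r ((X n).Z ω)) (X n).K) →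
    Whp (fun n => (X n).P) fun n ω => ¬σ.Slab r (c * (X n).u) (x n ω) ((X n).Z ω)

/-- A slab read from the context and the block, and an integer that locates the noise. -/
structure Tn (σ : Bc α ν) (X : ℕ → Bd α ν) (r c : ℝ)
    (x : ∀ n, (X n).Kt → (ν → ℝ) → (ν → ℝ) × ℝ) (G : ∀ n, (X n).Ω → ℤ) : Prop where
  hs : Sm (fun n => (X n).u) fun n => ch (X n).P (fun ω => (x n ((X n).K ω) ((X n).Z ω),
    σ.Slab r (c * (X n).u) (x n ((X n).K ω) ((X n).Z ω)) ((X n).Z ω))) (X n).K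
  hG : Sm (fun n => (X n).u) fun n => ch (X n).P (G n) fun ω => ((x n ((X n).K ω) ((X n).Z ω),
    σ.Slab r (c * (X n).u) (x n ((X n).K ω) ((X n).Z ω)) ((X n).Z ω)), (X n).K ω, (X n).T ω)
  loc : ∀ n, ∀ ω ∈ (X n).P.S,
    σ.Slab r (c * (X n).u) (x n ((X n).K ω) ((X n).Z ω)) ((X n).Z ω) →
    |(x n ((X n).K ω) ((X n).Z ω)).1 ⬝ᵥ (X n).N ω - 2 * exp (-(c * (X n).u)) * G n ω| ≤
      2 * (2 * exp (-(c * (X n).u)))

variable {r c : ℝ} {x : ∀ n, (X n).Kt → (ν → ℝ) → (ν → ℝ) × ℝ} {G : ∀ n, (X n).Ω → ℤ}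

theorem ex_tn (h : Bs σ X) (c1 : c ≤ 1 / 2)
    (hx : Sm (fun n => (X n).u) fun n =>
      ch (X n).P (fun ω => x n ((X n).K ω) ((X n).Z ω)) (X n).K) : ∃ G, Tn σ X r c x G := by
  classical
  have hs := (hx.add (h.big.sm lg)).mono (.of_forall fun n => (ch_subadd _ fun ω =>
    σ.Slab r (c * (X n).u) (x n ((X n).K ω) ((X n).Z ω)) ((X n).Z ω)) _ |>.trans
      (add_le_add le_rfl (ch_prop _ _ _)))
  choose G a b using fun n => transfer (X n).P (fun ω => ((x n ((X n).K ω) ((X n).Z ω),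
      σ.Slab r (c * (X n).u) (x n ((X n).K ω) ((X n).Z ω)) ((X n).Z ω)), (X n).K ω, (X n).T ω))
    (fun ω => flv (X n).u (σ.blk r ((X n).Z ω + (X n).N ω))) (fun ω => σ.blk r ((X n).N ω))
    (fun ω => σ.Slab r (c * (X n).u) (x n ((X n).K ω) ((X n).Z ω)) ((X n).Z ω))
    (fun ω => (x n ((X n).K ω) ((X n).Z ω)).1 ⬝ᵥ σ.blk r ((X n).N ω))
    (fun ω => ((x n ((X n).K ω) ((X n).Z ω)).1 ⬝ᵥ fun p =>
      (flv (X n).u (σ.blk r ((X n).Z ω + (X n).N ω)) p : ℝ) / 2 ^ (X n).u) -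
      (x n ((X n).K ω) ((X n).Z ω)).2)
    (d := 2 * exp (-(c * (X n).u))) (by positivity) (fun _ _ _ _ e => congrArg (·.1.2) e)
    (fun _ _ _ _ e => by
      have e1 := congrArg (·.1) e
      have e2 := congrArg (·.2.1.1) e
      simp only at e1 e2 ⊢
      rw [e1, e2])
    (fun _ _ _ _ e => by
      have e1 := congrArg (·.1) e
      have e2 := congrArg (·.2.1.1) e
      simp only at e1 e2 ⊢
      rw [e1, e2])
    (fun ω _ e => by
      have a1 := abs_le.1 (Bc.round e.1.1 e.2.1 (X n).u ((X n).Z ω + (X n).N ω))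
      have a2 := abs_le.1 e.2.2
      have a3 : exp (-(1 / 2 * (X n).u : ℝ)) ≤ exp (-(c * (X n).u)) :=
        exp_le_exp.2 (neg_le_neg (mul_le_mul_of_nonneg_right c1 (Nat.cast_nonneg _)))
      rw [dotProduct_add] at a1
      rw [Bc.dot_blk e.2.1, abs_le]
      constructor <;> linarith [a1.1, a1.2, a2.1, a2.2])
  refine ⟨G, hs, (((h.b1 r).add hs).add (h.big.sm (Real.log 5))).mono (.of_forall fun n =>
    (b n).trans (add_le_add ((mi_lab _ _ _ _ _).trans (add_le_add le_rfl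
      (ch_anti (Fn.fst _ _)))) le_rfl)), fun n ω hω e => ?_⟩
  have := a n ω hω e
  rwa [Bc.dot_blk e.2.1] at this

/-- The lower classes are not seen. -/
theorem Tn.low (t : Tn σ X r c x G) (h : Bs σ X) (hc : 0 < c)
    (ih : ∀ q, q ≠ σ.o → σ.cl q < r → NcS σ X (σ.cl q)) :
    Whp (fun n => (X n).P) fun n ω =>
      σ.Slab r (c * (X n).u) (x n ((X n).K ω) ((X n).Z ω)) ((X n).Z ω) → ∀ q, q ≠ σ.o →
        |((x n ((X n).K ω) ((X n).Z ω)).1 ᵥ* (X n).L ω) q| ≤ exp (-(c / 2 * (X n).u)) := by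
  classical
  refine (Whp.all (G := fun q n ω => q ≠ σ.o →
    σ.Slab r (c * (X n).u) (x n ((X n).K ω) ((X n).Z ω)) ((X n).Z ω) →
      |((x n ((X n).K ω) ((X n).Z ω)).1 ᵥ* (X n).L ω) q| ≤ exp (-(c / 2 * (X n).u)))
    fun q => ?_).mono (.of_forall fun _ _ _ a b q hq => a q hq b)
  by_cases hq : q = σ.o
  · exact Whp.of_ev (.of_forall fun _ _ _ a => absurd hq a)
  by_cases hr : σ.cl q < r
  swap
  · refine Whp.of_ev ((h.ev 1 one_pos).mono fun n k ω hω _ e => ?_)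
    by_contra a
    obtain ⟨p, a1, -, a2⟩ := (k.pt ω hω).vL h.ok hq fun b => a (by rw [b, abs_zero]; positivity)
    exact hr (e.2.1 p a1 ▸ a2)
  let η : ∀ n, (X n).Ω → ν → ℝ := fun n ω => (x n ((X n).K ω) ((X n).Z ω)).1 ᵥ* (X n).L ω
  let S : ∀ n, (X n).Ω → ℝ := fun n ω => ∑ p, |σ.blk (σ.cl q) (η n ω) p|
  have w := ih q hq hr (c / 4) (by positivity) (fun n ω => ((S n ω)⁻¹ • σ.blk (σ.cl q) (η n ω),
    (S n ω)⁻¹ * (2 * exp (-(c * (X n).u)) * G n ω - η n ω ⬝ᵥ σ.oth (σ.cl q) ((X n).Z ω))))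
    ((((h.b2 (σ.cl q)).add t.hs).add t.hG).mono ((h.ev 1 one_pos).mono fun n k => by
      refine (mi_mono' (F' := fun ω => (((σ.oth (σ.cl q) ((X n).Z ω), (X n).θ σ ω, (X n).T ω),
        (x n ((X n).K ω) ((X n).Z ω),
          σ.Slab r (c * (X n).u) (x n ((X n).K ω) ((X n).Z ω)) ((X n).Z ω))), G n ω))
        fun a ha b hb e => ?_).trans ((mi_add _ _ _ _ _).trans (add_le_add
          ((mi_add _ _ _ _ _).trans (add_le_add (mi_symm _ _ _).le (ch_anti (Fn.snd _ _))))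
          (ch_anti fun a _ b _ e => Prod.ext (congrArg (·.1.2) e)
            (Prod.ext (congrArg (·.2) e) (congrArg (·.1.1.2.2) e)))))
      have e1 : η n a = η n b := by
        have e2 := congrArg (·.1.1.2.1) e
        simp only at e2
        simp only [η]
        rw [e2, k.L_eq ha hb (congrArg (·.2) e) (congrArg (·.1.1.1.2.2) e)
          (congrArg (·.1.1.1.2.1) e)]
      have e3 := congrArg (·.1.1.1.1) e
      have e4 := congrArg (·.1.2) e
      simp only at e3 e4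
      simp only [S, e1, e3, e4]))
  refine w.mono ?_
  filter_upwards [h.ev 1 one_pos, ev_exp h.big 4 (show 0 < c / 4 by positivity)]
    with n k a4 ω hω a _ e
  by_contra b
  have o0 : ∀ p, σ.blk (σ.cl q) (η n ω) p ≠ 0 → σ.cl p = σ.cl q ∧ η n ω p ≠ 0 ∧ p ≠ σ.o := by
    intro p hp
    have b1 : σ.cl p = σ.cl q := by
      by_contra b1; exact hp (if_neg b1)
    refine ⟨b1, fun b2 => hp (by simp [Bc.blk, b2]), fun b2 => ?_⟩
    have b3 := div_pos (h.ok.wt0 q hq) (h.ok.w0 q)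
    rw [b2, Bc.cl, h.ok.wo, zero_div] at b1
    exact b3.ne b1
  have s1 : exp (-(c / 2 * (X n).u)) ≤ S n ω := (not_le.1 b).le.trans
    (le_of_eq_of_le (by simp [Bc.blk, η]) (single_le_sum
      (f := fun p => |σ.blk (σ.cl q) (η n ω) p|) (fun _ _ => abs_nonneg _) (mem_univ q)))
  have s0 : 0 < S n ω := (exp_pos _).trans_le s1
  have o1 : ∀ p, ((S n ω)⁻¹ • σ.blk (σ.cl q) (η n ω)) p ≠ 0 → _ := fun p hp =>
    o0 p (right_ne_zero_of_mul hp)
  refine a ⟨⟨?_, ?_, fun p p' hp hp' => ?_⟩, fun p hp => (o1 p hp).1, ?_⟩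
  · simp only [Pi.smul_apply, smul_eq_mul, abs_mul, abs_inv, abs_of_pos s0]
    rw [← mul_sum]
    exact inv_mul_cancel₀ s0.ne'
  · by_contra hp
    exact (o1 _ hp).2.2 rfl
  · obtain ⟨b1, b2, b3⟩ := o1 p hp
    obtain ⟨b4, b5, b6⟩ := o1 p' hp'
    obtain ⟨s, c1, c2, -⟩ := (k.pt ω hω).vL h.ok b3 b2
    obtain ⟨s', c3, c4, -⟩ := (k.pt ω hω).vL h.ok b6 b5
    have c5 : σ.w p = σ.w p' := by rw [← c2, ← c4]; exact (e.1.2.2 s s' c1 c3).2
    have c6 := b1.trans b4.symm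
    rw [Bc.cl, Bc.cl, c5, div_left_inj' (h.ok.w0 p').ne'] at c6
    exact ⟨c6, c5⟩
  · have b1 := t.loc n ω hω e
    rw [Bd.dot_N, Bc.dot_split (σ := σ) (σ.cl q)] at b1
    simp only
    rw [smul_dotProduct, smul_eq_mul, ← mul_sub, abs_mul, abs_inv, abs_of_pos s0,
      inv_mul_le_iff₀ s0, ← sub_add, sub_add_eq_add_sub]
    refine b1.trans (le_trans ?_ (mul_le_mul_of_nonneg_right s1 (exp_pos _).le))
    have b2 := mul_le_mul_of_nonneg_right a4 (exp_pos (-(c * (X n).u))).le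
    rw [← exp_add] at b2
    rw [← exp_add]
    exact le_of_eq_of_le (by ring) (b2.trans_eq (by congr 1; ring))

/-- The slab holds the block and kills the letters. -/
def Ek (σ : Bc α ν) (X : ℕ → Bd α ν) (r c r₁ : ℝ)
    (x : ∀ n, (X n).Kt → (ν → ℝ) → (ν → ℝ) × ℝ) (n : ℕ) (y : (X n).Kt × (X n).Vt × (ν → ℝ))
    (ρ : α → Matrix ν ν ℝ) : Prop := σ.Slab r (c * (X n).u) (x n y.1 y.2.2) y.2.2 ∧
  ∀ a q, q ≠ σ.o → |((x n y.1 y.2.2).1 ᵥ* ρ a) q| ≤ exp (-(r₁ * (X n).u))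

omit [Fintype α] in
theorem up_o {Y : Bd α ν} {h : ℝ} {ω : Y.Ω} {ξ : ν → ℝ}
    (k : ∀ a q, q ≠ σ.o → |(ξ ᵥ* Y.ρ ω a) q| ≤ exp (-h)) : Y.Up σ h ω ξ (σ.wt σ.o) :=
  fun a s hs => k a s fun e => by rw [e] at hs; exact lt_irrefl _ hs

theorem sum_pos' {χ : α → ℝ} : ‖χ‖ ≤ ∑ a, |χ a| :=
  (pi_norm_le_iff_of_nonneg (sum_nonneg fun _ _ => abs_nonneg _)).2 fun a =>
    single_le_sum (f := fun a => |χ a|) (fun _ _ => abs_nonneg _) (mem_univ a)

open Classical in
/-- The source is seen by the relatives. -/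
theorem Tn.step (t : Tn σ X r c x G) (h : Bs σ X) {r₁ s : ℝ} (s0 : 0 < s) (s1 : s ≤ r₁)
    (s2 : s ≤ c) (c1 : c ≤ 1 / 2) :
    Step (fun n => (X n).P) (fun n => (X n).u) (fun n ω => ((X n).K ω, (X n).v ω, (X n).Z ω))
      (fun n => (X n).ρ) (fun n y ρ a => ((x n y.1 y.2.2).1 ᵥ* ρ a) σ.o) (Ek σ X r c r₁ x) s := by
  intro B χ hB pB
  have w0 : 0 ≤ ∑ p, σ.wt p := sum_nonneg fun p _ => h.ok.wt_nonneg p
  have ok := h.ev (s / 32) (by positivity)
  have p := acUse h (r := s / 8) (c := s / 16 / (∑ p, σ.wt p + 1)) (by positivity) (by positivity)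
    _ (fun n ω => (∑ a, |χ n ((X n).K ω, (X n).v ω, (X n).Z ω) ((X n).ρ ω) a|)⁻¹ •
      χ n ((X n).K ω, (X n).v ω, (X n).Z ω) ((X n).ρ ω)) (by
    filter_upwards [ok, ev_exp h.big (4 * Fintype.card ν + 2) (show 0 < s / 4 by positivity)]
      with n k a4
    have e1 : ∀ a ∈ (X n).P.S, ∀ b ∈ (X n).P.S, (X n).Y σ a = (X n).Y σ b →
        ((X n).K a, (X n).v a, (X n).Z a) = ((X n).K b, (X n).v b, (X n).Z b) := fun a _ b _ e =>
      Prod.ext (congrArg (·.1) e) (Prod.ext (congrArg (·.2.1) e) (congrArg (·.2.2.1) e))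
    refine ⟨fun a ha b hb e => by simp only [e1 a ha b hb e, k.fn_ρ a ha b hb e],
      fun a ha b hb e => by simp only [e1 a ha b hb e, k.fn_ρ a ha b hb e], fun ω hω e => ?_⟩
    obtain ⟨-, b1, a, ha, b, hb, b2, b3, b4, b5, b6⟩ := hB n ω hω e
    have b7 := b1.trans sum_pos'
    have S0 := (exp_pos _).trans_le b7
    refine ⟨?_, fun a1 a2 => ?_⟩
    · simp only [Pi.smul_apply, smul_eq_mul, abs_mul, abs_inv, abs_of_pos S0]
      rw [← mul_sum]
      exact inv_mul_cancel₀ S0.ne'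
    · have d1 := abs_le.1 (Bd.chr h.ok (k.pt a ha) b4.1.1.1.le (up_o b4.2) a1 a2)
      have d2 := abs_le.1 (Bd.chr h.ok (k.pt b hb) b5.1.1.1.le (up_o b5.2) a1 a2)
      rw [k.fc a ha ω hω (Prod.ext (congrArg (·.1) b2) (congrArg (·.2.1) b2))] at d1
      rw [k.fc b hb ω hω (Prod.ext (congrArg (·.1) b3) (congrArg (·.2.1) b3))] at d2
      simp only [Pi.smul_apply, smul_eq_mul, mul_left_comm _ (_ : ℝ)⁻¹]
      rw [← mul_sum, abs_mul, abs_inv, abs_of_pos S0, inv_mul_le_iff₀ S0]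
      refine le_trans ?_ (mul_le_mul_of_nonneg_right b7 (exp_pos _).le)
      have u0 : (0 : ℝ) ≤ (X n).u := Nat.cast_nonneg _
      have d3 : exp (s / 32 * (X n).u - r₁ * (X n).u) ≤ exp (-(3 * s / 4 * (X n).u)) :=
        exp_le_exp.2 (by nlinarith)
      have d4 : exp (-(2 * (X n).u : ℝ)) ≤ exp (-(3 * s / 4 * (X n).u)) :=
        exp_le_exp.2 (by nlinarith)
      have d5 := mul_le_mul_of_nonneg_right a4 (exp_pos (-(3 * s / 4 * (X n).u))).le
      have d6 := mul_le_mul_of_nonneg_left d3 (Nat.cast_nonneg (α := ℝ) (Fintype.card ν))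
      have d7 : exp (s / 4 * (X n).u) * exp (-(3 * s / 4 * (X n).u)) =
          exp (-(s / 4 * (X n).u)) * exp (-(2 * (s / 8) * (X n).u)) := by
        rw [← exp_add, ← exp_add]; congr 1; ring
      rw [b6, ← d7]
      simp only [Pi.sub_apply, mul_sub, sum_sub_distrib]
      rw [abs_le]
      constructor <;> linarith [d1.1, d1.2, d2.1, d2.2]) pB
  refine ⟨fun n ω a => exp (σ.et a * (X n).j ω) * (X n).b ω a,
    fun n ω => exp (σ.mw (x n ((X n).K ω) ((X n).Z ω)).1 * (X n).j ω) *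
      ((∑ q, if q = σ.o then 0 else
        ((x n ((X n).K ω) ((X n).Z ω)).1 ᵥ* (X n).L ω) q * (X n).Z ω q) -
        2 * exp (-(c * (X n).u)) * G n ω), (h.b3.add t.hG).mono (ok.mono fun n k => ?_),
    p.mono ?_⟩
  · refine (mi_mono (G' := (X n).θ σ) fun a ha b hb e => k.ρ_eq ha hb (congrArg (·.2.1) e)
      (congrArg (·.2.2.1) e) (congrArg (·.1) e)).trans
      ((mi_mono' (F' := fun ω => (((X n).b ω, (X n).j ω), G n ω)) fun a ha b hb e => ?_).trans
        ((mi_add _ _ _ _ _).trans (add_le_add ?_ (ch_anti fun a _ b _ e => ?_))))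
    · obtain ⟨e1, e2⟩ := Prod.mk.inj e
      obtain ⟨e3, e4⟩ := Prod.mk.inj e1
      obtain ⟨e5, e6⟩ := Prod.mk.inj e3
      obtain ⟨e7, e8⟩ := Prod.mk.inj e2
      obtain ⟨e9, e10⟩ := Prod.mk.inj e8
      have e11 : ∀ q, (if q = σ.o then 0 else
          ((x n ((X n).K b) ((X n).Z b)).1 ᵥ* (X n).L a) q * (X n).Z b q) = if q = σ.o then 0 else
          ((x n ((X n).K b) ((X n).Z b)).1 ᵥ* (X n).L b) q * (X n).Z b q := fun q => by
        by_cases hq : q = σ.o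
        · simp only [hq, if_true]
        · simp only [hq, if_false, vecMul, dotProduct,
            k.L_col h.ok ha hb e7 (Prod.ext e9 e3) _ hq]
      simp only [e4, e5, e6, e7, e10, e11]
    · rw [mi_symm]
      exact mi_right (fun a _ b _ e => Prod.ext (congrArg (·.1) e) (congrArg (·.2.1) e))
        (fun a _ b _ e => Prod.ext (congrArg (·.2.1) e)
          (Prod.ext (congrArg (·.2.2) e) (congrArg (·.1.1) e))) fun a _ b _ e => congrArg (·.1.2) e
    · obtain ⟨e1, e2⟩ := Prod.mk.inj e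
      obtain ⟨e7, e8⟩ := Prod.mk.inj e2
      obtain ⟨e9, e10⟩ := Prod.mk.inj e8
      exact Prod.ext (by simp only [e7, e10]) (Prod.ext e7 (Prod.ext e9 e1))
  · filter_upwards [ok, ev_exp h.big (Fintype.card α) (show 0 < s / 32 by positivity),
      ev_exp h.big (Fintype.card ν * Fintype.card α + 4) (show 0 < 3 * s / 16 by positivity)]
      with n k a1 a2 ω hω ⟨e, b1, b2⟩
    obtain ⟨E, b3, -⟩ := hB n ω hω e
    have S0 := (exp_pos _).trans_le (b3.trans sum_pos')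
    have u0 : (0 : ℝ) ≤ (X n).u := Nat.cast_nonneg _
    have pt := k.pt ω hω
    refine ⟨e, ?_, ?_, ?_⟩
    · refine (sum_le_card_nsmul _ _ (exp (s / 32 * (X n).u)) fun a _ => ?_).trans ?_
      · rw [abs_mul, abs_of_pos (exp_pos _)]
        refine (mul_le_mul_of_nonneg_left (pt.bb a) (exp_pos _).le).trans_eq ?_
        rw [← exp_add]; congr 1; ring
      · rw [card_univ, nsmul_eq_mul]
        refine (mul_le_mul_of_nonneg_right a1 (exp_pos _).le).trans_eq ?_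
        rw [← exp_add]; congr 1; ring
    · simp only [Pi.smul_apply, smul_eq_mul, mul_assoc (_ : ℝ)⁻¹] at b2
      rw [← mul_sum, abs_mul, abs_inv, abs_of_pos S0, lt_inv_mul_iff₀ S0] at b2
      rw [dotProduct_comm, mul_comm]
      exact (mul_le_mul_of_nonneg_right sum_pos' (exp_pos _).le).trans b2.le
    · set ξ := (x n ((X n).K ω) ((X n).Z ω)).1 with hξ
      have U : σ.Un ξ := E.1.1
      have e1 : (fun a => exp (σ.et a * (X n).j ω) * (X n).b ω a) ⬝ᵥ
          (fun a => (ξ ᵥ* (X n).ρ ω a) σ.o) =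
          exp (σ.mw ξ * (X n).j ω) * (ξ ᵥ* (X n).R ω) σ.o := by
        rw [Bd.vec_R, mul_sum]
        refine sum_congr rfl fun a _ => ?_
        by_cases hz : (ξ ᵥ* (X n).ρ ω a) σ.o = 0
        · simp [hz]
        · rw [FA.vec_wt pt.gr' U.mw hz, h.ok.wo, zero_add]
          ring
      have e2 : ξ ⬝ᵥ (X n).N ω = (∑ q, if q = σ.o then 0 else (ξ ᵥ* (X n).L ω) q * (X n).Z ω q) +
          ((ξ ᵥ* ((X n).R ω * (X n).W ω)) σ.o - (ξ ᵥ* (X n).R ω) σ.o) := by
        have e3 : (ξ ᵥ* ((X n).R ω * (X n).W ω)) σ.o - (ξ ᵥ* (X n).R ω) σ.o =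
            ∑ q, if q = σ.o then (ξ ᵥ* (X n).L ω) q * (X n).Z ω q else 0 := by
          rw [sum_ite_eq', if_pos (mem_univ _), pt.zo, mul_one, Bd.L, vecMul_sub, Pi.sub_apply]
        rw [Bd.dot_N, e3, ← sum_add_distrib]
        exact sum_congr rfl fun q _ => by split_ifs <;> simp
      have d1 := abs_le.1 (t.loc n ω hω E.1)
      have d2 := abs_le.1 (Bd.word pt U.mw (up_o E.2))
      rw [← hξ, e2] at d1
      rw [h.ok.wo, sub_zero] at d2
      have d3 : σ.mw ξ * (X n).j ω ≤ s / 16 * (X n).u := by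
        have d4 := mul_le_mul_of_nonneg_left b1 (show 0 ≤ ∑ p, σ.wt p + 1 by positivity)
        rw [← mul_assoc, mul_div_cancel₀ _ (by positivity)] at d4
        have d5 := mul_le_mul_of_nonneg_right (U.mw_le h.ok) (Nat.cast_nonneg (α := ℝ) ((X n).j ω))
        nlinarith [Nat.cast_nonneg (α := ℝ) ((X n).j ω)]
      have d4 : exp (σ.mw ξ * (X n).j ω) *
          exp (2 * (s / 32 * (X n).u) - r₁ * (X n).u - σ.mw ξ * (X n).j ω) ≤
          exp (-(15 * s / 16 * (X n).u)) := by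
        rw [← exp_add]; exact exp_le_exp.2 (by nlinarith)
      have d5 : exp (σ.mw ξ * (X n).j ω) * exp (-(c * (X n).u)) ≤
          exp (-(15 * s / 16 * (X n).u)) := by
        rw [← exp_add]; exact exp_le_exp.2 (by nlinarith)
      have d6 := mul_le_mul_of_nonneg_right a2 (exp_pos (-(15 * s / 16 * (X n).u))).le
      have d7 : exp (3 * s / 16 * (X n).u) * exp (-(15 * s / 16 * (X n).u)) =
          exp (-(3 * s / 4 * (X n).u)) := by rw [← exp_add]; congr 1; ring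
      have d8 := mul_le_mul_of_nonneg_left d4
        (show (0 : ℝ) ≤ Fintype.card ν * Fintype.card α by positivity)
      rw [e1, ← mul_sub, abs_mul, abs_of_pos (exp_pos _), ← d7]
      refine (mul_le_mul_of_nonneg_left (abs_le.2 ⟨?_, ?_⟩ : _ ≤ Fintype.card ν * Fintype.card α *
        exp (2 * (s / 32 * (X n).u) - r₁ * (X n).u - σ.mw ξ * (X n).j ω) +
          4 * exp (-(c * (X n).u))) (exp_pos _).le).trans ?_
      · linarith [d1.1, d1.2, d2.1, d2.2]
      · linarith [d1.1, d1.2, d2.1, d2.2]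
      · nlinarith

theorem ncS_step (h : Bs σ X) (ih : ∀ q, q ≠ σ.o → σ.cl q < r → NcS σ X (σ.cl q)) :
    NcS σ X r := by
  classical
  intro c₀ c0 y hy
  by_contra hc
  set c := min c₀ (1 / 2) with hc'
  have c2 : 0 < c := lt_min c0 one_half_pos
  have c1 : c ≤ 1 / 2 := min_le_right _ _
  obtain ⟨f, ι, m, a1, a2, -, a3⟩ := coverS h.big (fun n => (X n).K) y
    (fun n ω => σ.blk r ((X n).Z ω)) (fun n _ x z => σ.Slab r (c * (X n).u) x z) hy
  let x : ∀ n, (X n).Kt → (ν → ℝ) → (ν → ℝ) × ℝ := fun n k z => y n (f n k (ι n k (σ.blk r z)))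
  have hx : Sm (fun n => (X n).u) fun n =>
      ch (X n).P (fun ω => x n ((X n).K ω) ((X n).Z ω)) (X n).K :=
    a1.mono (.of_forall fun n => (ch_mono (F' := fun ω => ι n ((X n).K ω) (σ.blk r ((X n).Z ω)))
      fun a _ b _ e => by
        obtain ⟨e1, e2⟩ := Prod.mk.inj e
        simp only [x, e1]; rw [e2]).trans (ch_label (fun _ _ => a2 _ _ _) _))
  have p1 : Pos (fun n => (X n).P) fun n ω =>
      σ.Slab r (c * (X n).u) (x n ((X n).K ω) ((X n).Z ω)) ((X n).Z ω) :=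
    ((not_whp hc).and a3).mono (.of_forall fun n ω _ e => by
      obtain ⟨b1, b2, b3⟩ := not_not.1 e.1
      obtain ⟨b4, b5, b6⟩ := e.2 ⟨b1, b2, by
        rw [Bc.dot_blk b2]
        exact b3.trans (exp_le_exp.2 (neg_le_neg
          (mul_le_mul_of_nonneg_right (min_le_left _ _) (Nat.cast_nonneg _))))⟩
      rw [Bc.dot_blk b5] at b6
      exact ⟨b4, b5, b6⟩)
  obtain ⟨G, t⟩ := ex_tn (r := r) h c1 hx
  obtain ⟨r₁, r0, r1, k⟩ := kill h (half_pos c2)
  have k1 := k _ (fun n ω => (x n ((X n).K ω) ((X n).Z ω)).1) (.of_forall fun n =>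
    ⟨fun a _ b _ e => by
      have e1 := congrArg (·.1) e
      have e2 := congrArg (·.2.2.1) e
      simp only [Bd.Y] at e1 e2
      simp only [e1, e2], fun a _ b _ e => by
      have e1 := congrArg (·.1) e
      have e2 := congrArg (·.2.2.1) e
      simp only [Bd.Y] at e1 e2
      simp only [e1, e2], fun ω _ e => e.1⟩) (t.low h c2 ih)
  obtain ⟨s, s0, s1, l, l1, l2⟩ := src h.big r0
    (fun s s0 s1 => t.step h s0 s1 (by linarith) c1)
    ((p1.and k1).mono (.of_forall fun n ω _ e => ⟨e.1, e.2 e.1⟩))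
  refine (l2.mono (.of_forall fun n ω _ e => ?_)).not_whp
    (ndL h s0 (fun n ω => (x n ((X n).K ω) ((X n).Z ω)).1) l
      (hx.mono (.of_forall fun n => (mi_le _ _ _).trans (ch_mono fun a _ b _ e =>
        congrArg (·.1.1) e)))
      ((h.b3.add l1).mono (.of_forall fun n =>
        (mi_mono' (F' := fun ω => ((X n).Z ω, l n ω)) fun a _ b _ e => congrArg (·.1.2) e).trans
          ((mi_add _ _ _ _ _).trans (add_le_add ?_ (ch_anti fun a _ b _ e =>
            Prod.ext (congrArg (·.2.1) e) (Prod.ext (congrArg (·.2.2.1) e) (congrArg (·.1) e))))))))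
  · refine ⟨e.1.1.1, fun a => ⟨fun q hq => (e.1.2 a q hq).trans (exp_le_exp.2 (neg_le_neg
      (mul_le_mul_of_nonneg_right s1 (Nat.cast_nonneg _)))), ?_⟩⟩
    exact (norm_le_pi_norm _ a).trans e.2
  · rw [mi_symm]
    refine mi_right (fun a _ b _ e => Prod.ext (congrArg (·.1) e) (congrArg (·.2.1) e))
      (fun a _ b _ e => ?_) fun a _ b _ e => congrArg (·.1.1) e
    have e1 := congrArg (·.1.1) e
    have e2 := congrArg (·.2.1) e
    have e3 := congrArg (·.2.2) e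
    simp only at e1 e2 e3
    simp only [e1, e2, e3]

theorem ncS (h : Bs σ X) (r : ℝ) : NcS σ X r := by
  classical
  induction hn : (univ.filter fun p => σ.cl p < r).card using Nat.strong_induction_on
    generalizing r with
  | _ k ih =>
    refine ncS_step h fun q _ hq => ih _ ?_ _ rfl
    rw [← hn]
    refine card_lt_card ⟨fun p hp => ?_, fun e => ?_⟩
    · simp only [mem_filter, mem_univ, true_and] at hp ⊢
      exact hp.trans hq
    · simpa using e (mem_filter.2 ⟨mem_univ q, hq⟩)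

theorem ndAll : NDall := fun _ _ _ _ _ _ _ h _ _ hc hδ => ndC h hc hδ

theorem ncAll : NCall := fun _ ν _ _ _ σ X h r c δ hc hδ => by
  obtain ⟨κ, k0, hk⟩ := consts (u := fun n => (X n).u) (A := fun n => (X n).Ω → (ν → ℝ) × ℝ)
    (fun _ => 0) (fun n x => mi (X n).P x (fun ω => σ.blk r ((X n).Z ω)) (X n).K)
    (fun n x => pb (X n).P fun ω => σ.Slab r (c * (X n).u) (x ω) ((X n).Z ω)) (δ := δ)
    fun x hx => by simpa only [not_not] using ncS h r c hc x hx δ hδ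
  exact ⟨κ, k0, hk.mono fun n a ψ y b => a (fun ω => (ψ ω, y ω)) b⟩

end Pool.Agent.MP_4b405e_nt.FB
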