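import Pool.Agent.MP_4b405e_nt.SK.FSp
import Pool.Agent.MP_5168f5_an.H17F.SqApi

/-! The type in which nothing is seen does not occur. -/

namespace Pool.Agent.MP_4b405e_nt.FB

open Pool.Agent.MP_5168f5_an H19 H17S H17F Real Matrix Filter Finset

namespace NoIA

variable {α ν : Type} [Fintype α] [Fintype ν] [DecidableEq ν]

theorem log_ev {u : ℕ → ℕ} (h : Big u) {ε : ℝ} (hε : 0 < ε) :
    ∀ᶠ n in UF, Real.log ((u n : ℝ) + 1) ≤ ε * u n := by
  filter_upwards [h.ev ((ε / 2 - 1 - Real.log (ε / 2)) / (ε / 2))] with n hn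
  have e0 : 0 < ε / 2 := by positivity
  have u1 : (0 : ℝ) < (u n : ℝ) + 1 := by positivity
  have h1 := Real.log_le_sub_one_of_pos (mul_pos e0 u1)
  rw [Real.log_mul e0.ne' u1.ne'] at h1
  rw [div_le_iff₀ e0] at hn
  linarith

theorem row_apply (M : (ν → ℝ) →L[ℝ] (ν → ℝ)) (x : ν → ℝ) (i : ν) :
    M x i = ∑ q, M (Pi.single q 1) i * x q := by
  have e : x = ∑ q, x q • (Pi.single q 1 : ν → ℝ) := by
    funext j; simp [Finset.sum_apply, Pi.single_apply]
  conv_lhs => rw [e, map_sum]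
  simp only [map_smul, Finset.sum_apply, Pi.smul_apply, smul_eq_mul]
  exact sum_congr rfl fun q _ => mul_comm _ _

theorem ex_row (y : ν → ℝ) (p : ν) : ∃ i, ‖y‖ ≤ |y i| := by
  obtain ⟨i, -, hi⟩ := exists_max_image univ (fun i => |y i|) ⟨p, mem_univ p⟩
  exact ⟨i, (pi_norm_le_iff_of_nonneg (abs_nonneg _)).2 fun j => hi j (mem_univ j)⟩

/-- The part in the group of `p` of a row of `M` that sees `p` best, normalised. -/
theorem ex_fun (σ : Bc α ν) (p : ν) (M : (ν → ℝ) →L[ℝ] (ν → ℝ)) : ∃ ξ : ν → ℝ,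
    0 < ‖M (Pi.single p 1)‖ → ∑ q, |ξ q| = 1 ∧
      (∀ q, ξ q ≠ 0 → σ.wt q = σ.wt p ∧ σ.w q = σ.w p ∧ M (Pi.single q 1) ≠ 0) ∧
      ∀ (x : ν → ℝ) (μ w : ℝ), (∀ q, x q ≠ 0 → σ.wt q = μ ∧ σ.w q = w) →
        ‖M (Pi.single p 1)‖ * |ξ ⬝ᵥ x| ≤ ‖M x‖ := by
  classical
  obtain ⟨i, hi⟩ := ex_row (M (Pi.single p 1)) p
  obtain ⟨z, hz⟩ : ∃ z : ν → ℝ, z = fun q =>
    if σ.wt q = σ.wt p ∧ σ.w q = σ.w p then M (Pi.single q 1) i else 0 := ⟨_, rfl⟩
  obtain ⟨S, hS⟩ : ∃ S, S = ∑ q, |z q| := ⟨_, rfl⟩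
  refine ⟨fun q => S⁻¹ * z q, fun h0 => ?_⟩
  have h1 : ‖M (Pi.single p 1)‖ ≤ S := by
    have : |z p| ≤ S := hS ▸ single_le_sum (f := fun q => |z q|) (fun _ _ => abs_nonneg _) (mem_univ p)
    refine hi.trans (le_trans (le_of_eq ?_) this)
    simp [hz]
  have S0 : 0 < S := h0.trans_le h1
  refine ⟨?_, fun q hq => ?_, fun x μ w hx => ?_⟩
  · simp only [abs_mul, abs_of_pos (inv_pos.2 S0)]
    rw [← mul_sum, ← hS, inv_mul_cancel₀ S0.ne']
  · have h2 := right_ne_zero_of_mul hq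
    by_cases h : σ.wt q = σ.wt p ∧ σ.w q = σ.w p
    · refine ⟨h.1, h.2, fun e => h2 ?_⟩
      simp [hz, e]
    · exact absurd (by simp only [hz, if_neg h]) h2
  · have h2 : |z ⬝ᵥ x| ≤ ‖M x‖ := by
      by_cases h : μ = σ.wt p ∧ w = σ.w p
      · refine le_trans (le_of_eq ?_) (norm_le_pi_norm (M x) i)
        rw [Real.norm_eq_abs, row_apply]
        congr 1
        refine sum_congr rfl fun q _ => ?_
        by_cases e : x q = 0
        · simp [e]
        · simp only [hz, if_pos (⟨(hx q e).1.trans h.1, (hx q e).2.trans h.2⟩ :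
            σ.wt q = σ.wt p ∧ σ.w q = σ.w p)]
      · have : z ⬝ᵥ x = 0 := sum_eq_zero fun q _ => by
          by_cases e : x q = 0
          · simp [e]
          · have : ¬(σ.wt q = σ.wt p ∧ σ.w q = σ.w p) := fun c =>
              h ⟨(hx q e).1.symm.trans c.1, (hx q e).2.symm.trans c.2⟩
            simp only [hz, if_neg this, zero_mul]
        rw [this, abs_zero]
        exact norm_nonneg _
    have h3 : (fun q => S⁻¹ * z q) ⬝ᵥ x = S⁻¹ * (z ⬝ᵥ x) := by
      simp only [dotProduct, mul_sum, mul_assoc]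
    rw [h3, abs_mul, abs_of_pos (inv_pos.2 S0), ← mul_assoc]
    exact (mul_le_of_le_one_left (abs_nonneg _) (by
      rw [← div_eq_mul_inv]; exact (div_le_one S0).2 h1)).trans h2

theorem pos_single (σ : Bc α ν) (r : ℝ) {q : ν} (h : ¬σ.ps q) : σ.pos r (Pi.single q 1) = 0 := by
  funext s
  by_cases e : s = q
  · subst e; simp [Bc.pos, h]
  · simp [Bc.pos, e]

end NoIA

open NoIA

theorem noI : NoI := by
  intro α ν _ _ _ σ X hB r c C a p c0 _ _ nd
  classical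
  obtain ⟨κ, κ0, nd⟩ := nd c (c / 2) c0 (by positivity)
  refine ⟨κ / 2, by positivity, fun b b1 => ?_⟩
  filter_upwards [nd, hB.ev 1 one_pos, hB.big.ev 1, log_ev hB.big (ε := κ / 2) (by positivity)]
    with n nd ok u1 hl q Y h
  choose Ξ hΞ using ex_fun σ p
  have hi : ∀ ω, ∃ i : ℕ, i ≤ (X n).u ∧ (ω ∈ (X n).P.S → Y.E ω → i ∈ Y.I ω) := by
    intro ω
    by_cases e : ω ∈ (X n).P.S ∧ Y.E ω
    · have t := h.pt ω e.1 e.2
      have h1 : 0 < (Y.I ω).card := by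
        by_contra h2
        have h3 := t.lo
        rw [Nat.eq_zero_of_not_pos h2] at h3
        simp only [Nat.cast_zero, mul_zero] at h3
        nlinarith
      obtain ⟨i, hi⟩ := card_pos.1 h1
      refine ⟨i, ?_, fun _ _ => hi⟩
      have h2 : (i : ℝ) ≤ Y.n ω := by exact_mod_cast (t.sub i hi).le
      have h3 := t.hi
      have h4 : (i : ℝ) ≤ (X n).u := by nlinarith [Nat.cast_nonneg (α := ℝ) (Y.n ω)]
      exact_mod_cast h4
    · exact ⟨0, Nat.zero_le _, fun h1 h2 => absurd ⟨h1, h2⟩ e⟩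
  choose i iu hi using hi
  have c1 : c ≤ 1 := h.pe.trans (pb_le_one _ _)
  have u0 : (0 : ℝ) ≤ (X n).u := Nat.cast_nonneg _
  have k1 : ch (X n).P (fun ω => Ξ (Y.M ω (i ω))) (X n).K ≤ κ * (X n).u := by
    have a1 : ch (X n).P (fun ω => Ξ (Y.M ω (i ω))) (X n).K ≤
        ch (X n).P (fun ω => (Y.s ω, i ω)) (X n).K := ch_mono fun x hx y hy e => by
      simp only [Prod.mk.injEq] at e
      have := h.fM x hx y hy (Prod.ext e.2 e.1.1)
      simp only [Prod.mk.injEq] at this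
      simp only [this.2.1, e.1.2]
    have a2 := ch_subadd (P := (X n).P) Y.s i (X n).K
    have a3 := ch_label (P := (X n).P) (fun ω _ => iu ω) (X n).K
    have a4 := h.hs
    linarith
  have k2 := nd (fun ω => Ξ (Y.M ω (i ω))) (fun _ _ => 0) ((mi_le _ _ _).trans k1)
    ((mi_le _ _ _).trans ((ch_zero fun _ _ _ _ _ => rfl).trans_le (by positivity)))
  have k3 : pb (X n).P Y.E ≤ c / 2 := by
    refine le_trans (pb_mono fun ω hω e => ?_) k2
    have t := h.pt ω hω e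
    have o := ok.pt ω hω
    obtain ⟨y1, y2, y3⟩ := h.ty ω hω e _ (hi ω hω e)
    have f0 : 0 < Y.f ω (i ω) p := (exp_pos _).trans_le y2
    obtain ⟨x1, x2, x3⟩ := hΞ (Y.M ω (i ω)) f0
    have ps : ∀ s, Ξ (Y.M ω (i ω)) s ≠ 0 → σ.ps s := fun s hs => by
      by_contra h1
      refine (x2 s hs).2.2 ?_
      rw [t.sup, pos_single σ r h1, map_zero]
    refine ⟨⟨x1, ?_, fun s s' hs hs' => ⟨(x2 s hs).1.trans (x2 s' hs').1.symm,
      (x2 s hs).2.1.trans (x2 s' hs').2.1.symm⟩⟩, fun a' => ⟨fun q' hq => ?_, ?_⟩⟩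
    · by_contra h1
      exact hB.ok.po (ps _ h1)
    · have h1 := (x3 (fun s => (X n).ρ ω a' s q') _ _
        fun s hs => ⟨(o.gr a' s q' hs).1, (o.gr a' s q' hs).2 hq⟩).trans (y3 a' q' hq)
      rw [mul_comm (exp _)] at h1
      exact le_of_mul_le_mul_left h1 f0
    · rw [sub_zero]
      have h1 : ∀ s, |Ξ (Y.M ω (i ω)) s * (X n).ρ ω a' s σ.o| ≤
          |Ξ (Y.M ω (i ω)) s| * exp (-(c * (X n).u)) := fun s => by
        by_cases hs : Ξ (Y.M ω (i ω)) s = 0
        · simp [hs]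
        rw [abs_mul]
        refine mul_le_mul_of_nonneg_left ?_ (abs_nonneg _)
        by_cases ha : a' = σ.τ
        · have : (X n).ρ ω a' s σ.o = 0 := by
            by_contra h2
            have h3 := (o.gr a' s σ.o h2).1
            rw [hB.ok.wo, zero_add, ha, hB.ok.tau, (x2 s hs).1] at h3
            exact y1 h3
          rw [this, abs_zero]
          exact (exp_pos _).le
        · exact (o.m0 a' s σ.o ha (ps s hs) hB.ok.po).trans (exp_le_exp.2 (by nlinarith))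
      refine (abs_sum_le_sum_abs _ _).trans ((sum_le_sum fun s _ => h1 s).trans ?_)
      rw [← sum_mul, x1, one_mul]
  linarith [h.pe]

end Pool.Agent.MP_4b405e_nt.FB
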