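import Pool.Agent.MP_4b405e_nt.SK.FSp
import Pool.Agent.MP_4b405e_nt.SK.FKill

/-! The source cannot be seen first: the second run on the source. -/

namespace Pool.Agent.MP_4b405e_nt.FB

open Pool.Agent.MP_5168f5_an H19 H17S H17F Real Matrix Finset Filter

namespace RO

variable {α ν : Type} [Fintype α] [Fintype ν] [DecidableEq ν] {σ : Bc α ν} {X : Bd α ν}

theorem M_exp (M : (ν → ℝ) →L[ℝ] (ν → ℝ)) (x : ν → ℝ) :
    M x = ∑ p, x p • M (Pi.single p 1) := by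
  conv_lhs => rw [pi_eq_sum_univ' x]
  simp only [map_sum, map_smul]

open Classical in
/-- The projection to the coordinates of the weight of the source. -/
noncomputable def J (σ : Bc α ν) : (ν → ℝ) →L[ℝ] (ν → ℝ) :=
  ContinuousLinearMap.pi fun p => if σ.wt p = lg then ContinuousLinearMap.proj p else 0

open Classical in
omit [Fintype α] [Fintype ν] [DecidableEq ν] in
theorem J_apply (x : ν → ℝ) (p : ν) : J σ x p = if σ.wt p = lg then x p else 0 := by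
  unfold J
  rw [ContinuousLinearMap.pi_apply]
  split_ifs <;> rfl

omit [Fintype α] in
theorem J_norm {M : (ν → ℝ) →L[ℝ] (ν → ℝ)} {F : ℝ} (h0 : 0 ≤ F)
    (h : ∀ p, σ.wt p = lg → ‖M (Pi.single p 1)‖ ≤ F) (x : ν → ℝ) :
    ‖M (J σ x)‖ ≤ Fintype.card ν * F * ‖x‖ := by
  rw [M_exp]
  refine (norm_sum_le _ _).trans ((sum_le_card_nsmul _ _ (F * ‖x‖) fun p _ => ?_).trans_eq
    (by rw [card_univ, nsmul_eq_mul, mul_assoc]))
  rw [J_apply, norm_smul]
  split_ifs with hp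
  · rw [mul_comm]
    exact mul_le_mul (h p hp) (norm_le_pi_norm x p) (norm_nonneg _) h0
  · rw [norm_zero, zero_mul]; positivity

omit [DecidableEq ν] in
theorem R_vec (ω : X.Ω) (D : ν → ℝ) :
    X.R ω *ᵥ D = ∑ s, D s • ∑ a, X.b ω a • fun p => X.ρ ω a p s := by
  funext p
  simp only [Bd.R, mulVec, dotProduct, Matrix.sum_apply, Finset.sum_apply, Matrix.smul_apply,
    Pi.smul_apply, smul_eq_mul]
  exact sum_congr rfl fun s _ => mul_comm _ _

variable {e g A L l : ℝ} {ω ω' : X.Ω} {M : (ν → ℝ) →L[ℝ] (ν → ℝ)}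

omit [DecidableEq ν] in
/-- Words of length two or more are not seen. -/
theorem word (o : σ.Ok) (t : X.Pt σ e ω) (hg : ∀ s q, σ.wt q < σ.wt s → g ≤ σ.wt s - σ.wt q)
    (hA : ∀ a, σ.et a / lg ≤ A) (hL : 0 ≤ L) (hl : l ≤ lg * X.j ω + L)
    (up : ∀ a q, q ≠ σ.o → ‖M fun p => X.ρ ω a p q‖ ≤ exp (σ.et a / lg * l)) :
    ‖M ((X.R ω * X.W ω) *ᵥ X.Z ω)‖ ≤ Fintype.card ν * (Fintype.card ν * exp (2 * e - g * X.j ω) *
      (Fintype.card α * exp (e + A * L))) := by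
  rw [← mulVec_mulVec, R_vec, map_sum]
  refine (norm_sum_le _ _).trans ((sum_le_card_nsmul _ _ _ fun s _ => ?_).trans_eq
    (by rw [card_univ, nsmul_eq_mul]))
  rw [map_smul, norm_smul]
  by_cases hs : s = σ.o
  · have : (X.W ω *ᵥ X.Z ω) s = 0 := sum_eq_zero fun q _ => by
      have : X.W ω s q = 0 := by_contra fun h => by
        have h1 := (t.gW s q h).1
        rw [hs, o.wo] at h1
        exact h1.not_ge (o.wt_nonneg q)
      simp only [this, zero_mul]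
    rw [this, norm_zero, zero_mul]
    positivity
  refine mul_le_mul ?_ ?_ (norm_nonneg _) (by positivity)
  · refine (abs_sum_le_sum_abs _ _).trans ((sum_le_card_nsmul _ _ _ fun q _ => ?_).trans_eq
      (by rw [card_univ, nsmul_eq_mul]))
    by_cases h : X.W ω s q = 0
    · simp only [h, zero_mul, abs_zero]; positivity
    · rw [abs_mul]
      refine (mul_le_mul (t.bW s q) (t.zb q) (abs_nonneg _) (exp_pos _).le).trans ?_
      rw [← exp_add, exp_le_exp]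
      nlinarith [mul_le_mul_of_nonneg_right (hg s q (t.gW s q h).1) (Nat.cast_nonneg (X.j ω))]
  · rw [map_sum]
    refine (norm_sum_le _ _).trans ((sum_le_card_nsmul _ _ _ fun a _ => ?_).trans_eq
      (by rw [card_univ, nsmul_eq_mul]))
    rw [map_smul, norm_smul]
    refine (mul_le_mul (t.bb a) (up a s hs) (norm_nonneg _) (exp_pos _).le).trans ?_
    rw [← exp_add, exp_le_exp]
    have h1 : 0 ≤ σ.et a / lg := (div_pos (o.et0 a) lg_pos).le
    have h2 : σ.et a / lg * lg = σ.et a := div_mul_cancel₀ _ lg_pos.ne'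
    have h3 := mul_le_mul_of_nonneg_left hl h1
    have h4 := mul_le_mul_of_nonneg_right (hA a) hL
    rw [mul_add, ← mul_assoc, h2] at h3
    linarith

omit [DecidableEq ν] in
/-- The sources of the other letters are not seen. -/
theorem src0 {r : ℝ} (o : σ.Ok) (t : X.Pt σ e ω) (sup : ∀ x, M x = M (σ.pos r x))
    (fine : ‖M‖ ≤ 2 ^ X.u) {a : α} (ha : a ≠ σ.τ) :
    ‖M (X.θ σ ω a)‖ ≤ 2 ^ X.u * exp (-(2 * X.u)) := by
  rw [sup]
  refine (M.le_opNorm _).trans (mul_le_mul fine ?_ (norm_nonneg _) (by positivity))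
  refine (pi_norm_le_iff_of_nonneg (exp_pos _).le).2 fun p => ?_
  unfold Bc.pos
  split_ifs with hp
  · exact t.m0 a p σ.o ha hp.1 o.po
  · rw [norm_zero]; exact (exp_pos _).le

omit [DecidableEq ν] in
theorem J_src (o : σ.Ok) (t : X.Pt σ e ω) : J σ (X.θ σ ω σ.τ) = X.θ σ ω σ.τ := by
  funext p
  rw [J_apply]
  split_ifs with hp
  · rfl
  · refine (by_contra fun h => hp ?_ : X.θ σ ω σ.τ p = 0).symm
    rw [(t.gr σ.τ p σ.o h).1, o.wo, o.tau, zero_add]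

omit [DecidableEq ν] in
/-- Two points with the same form differ only through the source. -/
theorem R_diff (t : X.Pt σ e ω) (hρ : ∀ a p q, q ≠ σ.o → X.ρ ω a p q = X.ρ ω' a p q)
    (hb : X.b ω = X.b ω') (hZ : X.Z ω = X.Z ω') :
    X.R ω *ᵥ X.Z ω - X.R ω' *ᵥ X.Z ω' = ∑ a, X.b ω a • (X.θ σ ω a - X.θ σ ω' a) := by
  classical
  rw [R_vec, R_vec, ← hb, ← hZ, ← sum_sub_distrib, sum_eq_single σ.o]
  · rw [t.zo, one_smul, one_smul, ← sum_sub_distrib]
    exact sum_congr rfl fun a _ => (smul_sub _ _ _).symm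
  · intro s _ hs
    simp only [hρ _ _ s hs, sub_self]
  · simp

omit [DecidableEq ν] in
/-- The noise in the box is the source of `τ`, up to a small error. -/
theorem diff {r D : ℝ} (o : σ.Ok) (t : X.Pt σ e ω) (t' : X.Pt σ e ω')
    (hρ : ∀ a p q, q ≠ σ.o → X.ρ ω a p q = X.ρ ω' a p q) (hb : X.b ω = X.b ω')
    (hZ : X.Z ω = X.Z ω') (sup : ∀ x, M x = M (σ.pos r x)) (fine : ‖M‖ ≤ 2 ^ X.u)
    (w : ‖M ((X.R ω * X.W ω) *ᵥ X.Z ω)‖ ≤ D) (w' : ‖M ((X.R ω' * X.W ω') *ᵥ X.Z ω')‖ ≤ D) :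
    ‖M (X.N ω - X.N ω') - M ((-X.b ω σ.τ) • (X.θ σ ω σ.τ - X.θ σ ω' σ.τ))‖ ≤
      2 * D + Fintype.card α * (exp e * (2 * (2 ^ X.u * exp (-(2 * X.u))))) := by
  classical
  have h1 : X.N ω - X.N ω' - (-X.b ω σ.τ) • (X.θ σ ω σ.τ - X.θ σ ω' σ.τ) =
      (X.R ω * X.W ω) *ᵥ X.Z ω - (X.R ω' * X.W ω') *ᵥ X.Z ω' -
        ∑ a ∈ univ.erase σ.τ, X.b ω a • (X.θ σ ω a - X.θ σ ω' a) := by
    have h2 := R_diff t hρ hb hZ
    rw [← add_sum_erase _ _ (mem_univ σ.τ)] at h2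
    rw [eq_sub_of_add_eq' h2.symm, Bd.N, Bd.N, sub_mulVec, sub_mulVec, neg_smul]
    abel
  rw [← map_sub, h1, map_sub, map_sub, map_sum]
  refine (norm_sub_le _ _).trans (add_le_add ((norm_sub_le _ _).trans (by linarith)) ?_)
  refine (norm_sum_le _ _).trans ((sum_le_card_nsmul _ _
    (exp e * (2 * (2 ^ X.u * exp (-(2 * X.u))))) fun a ha => ?_).trans ?_)
  · rw [map_smul, norm_smul, map_sub]
    refine mul_le_mul ((t.bb a).trans (exp_le_exp.2 ?_)) ((norm_sub_le _ _).trans ?_)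
      (norm_nonneg _) (exp_pos _).le
    · linarith [mul_nonneg (o.et0 a).le (Nat.cast_nonneg (X.j ω))]
    · linarith [src0 o t sup fine (ne_of_mem_erase ha), src0 o t' sup fine (ne_of_mem_erase ha)]
  · rw [nsmul_eq_mul]
    exact mul_le_mul_of_nonneg_right (by exact_mod_cast card_le_univ _) (by positivity)

/-- The row `m` of a box, on the coordinates of the source. -/
noncomputable def row (σ : Bc α ν) (M : (ν → ℝ) →L[ℝ] (ν → ℝ)) (m : ν) : ν → ℝ :=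
  J σ fun p => M (Pi.single p 1) m

/-- Its size. -/
noncomputable def sz (σ : Bc α ν) (M : (ν → ℝ) →L[ℝ] (ν → ℝ)) (m : ν) : ℝ := ∑ p, |row σ M m p|

/-- The normalised row. -/
noncomputable def xi (σ : Bc α ν) (M : (ν → ℝ) →L[ℝ] (ν → ℝ)) (m : ν) : ν → ℝ :=
  fun p => row σ M m p / sz σ M m

variable {m : ν} {r : ℝ}

omit [Fintype α] in
theorem xi_vec (B : Matrix ν ν ℝ) (q : ν) :
    (xi σ M m ᵥ* B) q = M (J σ fun p => B p q) m / sz σ M m := by
  rw [M_exp, Finset.sum_apply, sum_div]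
  refine sum_congr rfl fun p _ => ?_
  simp only [xi, row, J_apply, Pi.smul_apply, smul_eq_mul]
  split_ifs <;> ring

omit [Fintype α] in
theorem xi_ne (sup : ∀ x, M x = M (σ.pos r x)) {p : ν} (h : xi σ M m p ≠ 0) :
    σ.wt p = lg ∧ σ.ps p ∧ σ.cl p = r := by
  have h1 : row σ M m p ≠ 0 := fun e => h (by rw [xi, e, zero_div])
  rw [row, J_apply] at h1
  split_ifs at h1 with hp
  · refine ⟨hp, by_contra fun hc => h1 ?_⟩
    have : σ.pos r (Pi.single p 1) = 0 := by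
      funext s
      unfold Bc.pos
      split_ifs with hs
      · exact Pi.single_eq_of_ne (fun e : s = p => hc (e ▸ hs)) _
      · rfl
    rw [sup, this, map_zero, Pi.zero_apply]
  · exact absurd rfl h1

omit [Fintype α] in
theorem xi_un (o : σ.Ok) (sup : ∀ x, M x = M (σ.pos r x)) (h0 : 0 < sz σ M m) :
    σ.Un (xi σ M m) := by
  refine ⟨?_, by_contra fun h => ?_, fun p q hp hq => ?_⟩
  · simp only [xi, abs_div, abs_of_pos h0]
    rw [← sum_div]
    exact div_self h0.ne'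
  · exact lg_pos.ne (o.wo.symm.trans (xi_ne sup h).1)
  · obtain ⟨a1, -, a2⟩ := xi_ne sup hp
    obtain ⟨b1, -, b2⟩ := xi_ne sup hq
    refine ⟨a1.trans b1.symm, ?_⟩
    have h1 := a2.trans b2.symm
    unfold Bc.cl at h1
    rw [a1, b1, div_eq_div_iff (o.w0 p).ne' (o.w0 q).ne'] at h1
    exact (mul_left_cancel₀ lg_pos.ne' h1).symm

theorem xi_dg {h y : ℝ} (o : σ.Ok) (t : X.Pt σ e ω) (sup : ∀ x, M x = M (σ.pos r x))
    (hg : ∀ s q, σ.wt q < σ.wt s → g ≤ σ.wt s - σ.wt q) (g0 : 0 ≤ g) (hS : exp l ≤ sz σ M m)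
    (up : ∀ a q, q ≠ σ.o → ‖M fun p => X.ρ ω a p q‖ ≤ exp (σ.et a / lg * l)) (l0 : 0 ≤ l)
    (h1 : h ≤ g * l) (h2 : h ≤ 2 * X.u) (hy : |M (X.θ σ ω σ.τ) m / sz σ M m - y| ≤ exp (-h))
    {z : α → ℝ} (z1 : z σ.τ = y) (z2 : ∀ a, a ≠ σ.τ → z a = 0) : X.Dg σ h ω (xi σ M m) z := by
  have S0 := (exp_pos l).trans_le hS
  refine fun a => ⟨fun q hq => ?_, ?_⟩
  · rw [xi_vec]
    by_cases hw : σ.wt q + σ.et a = lg
    · have e1 : (J σ fun p => X.ρ ω a p q) = fun p => X.ρ ω a p q := funext fun p => by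
        rw [J_apply]
        split_ifs with hp
        · rfl
        · exact (by_contra fun h => hp ((t.gr a p q h).1.trans hw) : X.ρ ω a p q = 0).symm
      rw [e1, abs_div, abs_of_pos S0, div_le_iff₀ S0]
      refine (((norm_le_pi_norm _ m).trans (up a q hq)).trans ?_).trans
        (mul_le_mul_of_nonneg_left hS (exp_pos _).le)
      rw [← exp_add, exp_le_exp]
      have a1 := hg q σ.o (by rw [o.wo]; exact o.wt0 q hq)
      rw [o.wo, sub_zero] at a1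
      have a2 : σ.et a / lg ≤ 1 - g := by
        rw [div_le_iff₀ lg_pos]
        nlinarith [lg_lt_one, lg_pos]
      nlinarith [mul_le_mul_of_nonneg_right a2 l0]
    · have e1 : (J σ fun p => X.ρ ω a p q) = 0 := funext fun p => by
        rw [J_apply]
        split_ifs with hp
        · exact by_contra fun h => hw ((t.gr a p q h).1.symm.trans hp)
        · rfl
      rw [e1, map_zero, Pi.zero_apply, zero_div, abs_zero]
      exact (exp_pos _).le
  · by_cases ha : a = σ.τ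
    · subst ha
      rw [xi_vec, z1]
      exact (congrArg (fun x => |M x m / sz σ M m - y|) (J_src o t)).trans_le hy
    · rw [z2 a ha, sub_zero]
      refine (abs_sum_le_sum_abs _ _).trans ((sum_le_sum (g := fun p => |xi σ M m p| * exp (-h))
        fun p _ => ?_).trans_eq (by rw [← sum_mul, (xi_un o sup S0).1, one_mul]))
      rw [abs_mul]
      by_cases hp : xi σ M m p = 0
      · simp [hp]
      · exact mul_le_mul_of_nonneg_left ((t.m0 a p σ.o ha (xi_ne sup hp).2.1 o.po).trans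
          (exp_le_exp.2 (by linarith))) (abs_nonneg _)

omit [DecidableEq ν] in
theorem lvW (k : X.Ok σ e) {B : X.Ω → Prop} (f : Fn X.P B (X.Y σ)) (W : Finset ℕ)
    (hW : W ⊆ range (σ.C * X.u)) :
    (σ.C * X.u : ℕ) * pb X.P (fun ω => B ω ∧ X.j ω ∈ W) = W.card * pb X.P B := by
  induction W using Finset.induction_on with
  | empty => rw [pb_zero fun ω _ h => notMem_empty _ h.2]; simp
  | insert i W hi ih =>
    have h1 : pb X.P (fun ω => (B ω ∧ X.j ω ∈ insert i W) ∧ X.j ω = i) =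
        pb X.P fun ω => B ω ∧ X.j ω = i :=
      pb_congr fun ω _ => ⟨fun h => ⟨h.1.1, h.2⟩, fun h => ⟨⟨h.1, mem_insert.2 (.inl h.2)⟩, h.2⟩⟩
    have h2 : pb X.P (fun ω => (B ω ∧ X.j ω ∈ insert i W) ∧ ¬X.j ω = i) =
        pb X.P fun ω => B ω ∧ X.j ω ∈ W :=
      pb_congr fun ω _ => ⟨fun h => ⟨h.1.1, (mem_insert.1 h.1.2).resolve_left h.2⟩,
        fun h => ⟨⟨h.1, mem_insert_of_mem h.2⟩, fun e => hi (e ▸ h.2)⟩⟩
    rw [pb_split _ _ fun ω => X.j ω = i, h1, h2, mul_add, ih ((subset_insert _ _).trans hW),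
      k.lv' f (mem_range.1 (hW (mem_insert_self _ _))), card_insert_of_notMem hi]
    push_cast
    ring

/-- The world. -/
noncomputable def wd (σ : Bc α ν) (Y : Wd X) (ω : X.Ω) : X.Kt × ℕ × X.Vt × (ν → ℤ) :=
  (X.K ω, Y.s ω, X.v ω, flv 0 (X.θ σ ω σ.τ))

/-- The forms. -/
abbrev Tf (X : Bd α ν) : Type := (X.Vt × (α → ℝ) × ℕ) × (ν → ℝ)

/-- The data of the second run in the world of `ω₀`. -/
noncomputable def dat (σ : Bc α ν) (Y : Wd X) (d : ℝ) (ω₀ : X.Ω) : EB.Dat ν Empty ν (Tf X) X.Ω where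
  P := cv X.P (wd σ Y) (wd σ Y ω₀)
  n := Y.n ω₀
  U := σ.C * X.u
  I := Y.I ω₀
  Ξ k := (2 : ℝ) • Y.M ω₀ k
  l k := Y.l ω₀ k + d
  J := J σ
  C _ := 0
  s θ := -θ.1.2.1 σ.τ
  j θ := θ.1.2.2
  B ω := (X.θ σ ω σ.τ, 0)
  τ ω := (X.T ω, X.Z ω)
  Gd k ω := Y.Gd ω₀ k (X.N ω) (X.T ω)
  ex _ := 0

variable {Y : Wd X} {c C a b q η d : ℝ} {ty : X.Ω → ℕ → Prop} {ω₀ : X.Ω}

omit [DecidableEq ν] [Fintype α] [Fintype ν] in
theorem mem_dat (h : ω₀ ∈ X.P.S) :
    ω ∈ (cv X.P (wd σ Y) (wd σ Y ω₀)).S ↔ ω ∈ X.P.S ∧ wd σ Y ω = wd σ Y ω₀ :=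
  mem_cE (E := fun v => wd σ Y v = wd σ Y ω₀) ⟨ω₀, h, rfl⟩ ω

theorem fn_wd (y : Y.Ok σ r c C a b q η ty) : Fn X.P (wd σ Y) (X.Y σ) := fun v hv v' hv' E => by
  simp only [Bd.Y, Prod.mk.injEq] at E
  have := y.fs v hv v' hv' (by simp only [E.1, E.2.2.1])
  simp only [wd, E.1, E.2.1, E.2.2.2, this]

theorem dat_ok (k : X.Ok σ e) (y : Y.Ok σ r c C a b q η ty) (h0 : ω₀ ∈ X.P.S)
    (hE : Y.E ω₀) (hd : exp d = 2 * Fintype.card ν) (d0 : 0 ≤ d) (b0 : 0 ≤ b)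
    (n1 : d + b / 3 ≤ lg * X.u / 2) (n2 : L ≤ c * X.u) :
    (dat σ Y d ω₀).Ok lg (c / (12 * lg * σ.C)) (b / 12) 0 L := by
  have t := y.pt ω₀ h0 hE
  have cu := k.cu
  have C0 : (0 : ℝ) < σ.C := by exact_mod_cast Nat.pos_of_mul_pos_right cu
  refine ⟨fun v hv v' hv' => ?_, t.sub, fun i _ x => ?_, le_rfl, fun i hi x => ?_,
    fun i hi => ?_, cu, ?_, fun _ => le_rfl, fun A W hW => ?_⟩
  · have h1 := ((mem_dat h0).1 hv).2.trans ((mem_dat h0).1 hv').2.symm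
    have h2 := norm_sub_lt_of_flv_eq (congrArg (fun x => x.2.2.2) h1)
    simp only [dat, Prod.mk_sub_mk, sub_self, Prod.norm_mk, norm_zero]
    exact max_le (h2.le.trans_eq (by simp)) zero_le_one
  · simp only [dat, _root_.smul_apply, norm_smul, Real.norm_ofNat]
    have h1 := (t.nest i x).trans (mul_le_mul_of_nonneg_right
      (exp_le_exp.2 (by linarith : -(2 * b) ≤ -(12 * (b / 12)))) (norm_nonneg _))
    linarith
  · simp only [dat, _root_.smul_apply, norm_smul, Real.norm_ofNat]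
    have h1 := J_norm (exp_pos _).le (t.ups i (t.sub i hi)) x
    rw [add_zero, exp_add, hd]
    linarith
  · have h1 := t.lev i (t.sub i hi)
    simp only [dat]
    push_cast
    constructor <;> linarith [h1.1, h1.2]
  · have h1 := t.lo
    have h2 : c / (12 * lg * σ.C) * lg * ((σ.C * X.u : ℕ) : ℝ) = c * X.u / 12 := by
      have := lg_pos
      push_cast
      field_simp
    simp only [dat]
    rw [h2]
    linarith
  · have p0 := pb_pos X.P (E := fun v => wd σ Y v = wd σ Y ω₀) ⟨ω₀, h0, rfl⟩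
    have h1 := lvW k (B := fun v => wd σ Y v = wd σ Y ω₀ ∧ A (X.θ σ v σ.τ, 0))
      (fun v hv v' hv' E => by simp only [fn_wd y v hv v' hv' E,
        show X.θ σ v = X.θ σ v' from congrArg (fun x => x.2.2.2) E]) W hW
    simp only [and_assoc] at h1
    rw [← pb_cE X.P (fun v => wd σ Y v = wd σ Y ω₀) fun v => A (X.θ σ v σ.τ, 0),
      ← pb_cE X.P (fun v => wd σ Y v = wd σ Y ω₀)] at h1
    have h2 : 0 ≤ (dat σ Y d ω₀).er (dat σ Y d ω₀).P A :=
      FP.E_nonneg _ fun v _ => by split_ifs <;> exact le_rfl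
    have u0 : (0 : ℝ) < (σ.C * X.u : ℕ) := by exact_mod_cast cu
    refine le_add_of_le_of_nonneg (le_of_eq ?_) h2
    rw [div_mul_eq_mul_div, div_eq_iff (by exact u0.ne')]
    refine mul_left_cancel₀ p0.ne' ?_
    simp only [dat, cv, Bd.T]
    linarith

theorem dat_gp (o : σ.Ok) (k : X.Ok σ e) (y : Y.Ok σ r c C a b q η ty) (h0 : ω₀ ∈ X.P.S)
    (hE : Y.E ω₀) (hg : ∀ s q, σ.wt q < σ.wt s → g ≤ σ.wt s - σ.wt q) (g0 : 0 ≤ g)
    (hA : ∀ a, σ.et a / lg ≤ A) (hL : 0 ≤ L) (d0 : 0 ≤ d) (b0 : 4 ≤ b) (n2 : L ≤ c * X.u / 2)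
    (n3 : 2 * (Fintype.card ν * (Fintype.card ν * exp (2 * e - g * (c * X.u / 2)) *
      (Fintype.card α * exp (e + A * L)))) +
      Fintype.card α * (exp e * (2 * (2 ^ X.u * exp (-(2 * X.u))))) ≤ exp (-b))
    {i : ℕ} (hi : i ∈ Y.I ω₀) (θ : Tf X) (hl : Y.l ω₀ i + d ≤ lg * θ.1.2.2 + L) :
    (dat σ Y d ω₀).Gp (b / 12) i θ := by
  have t := y.pt ω₀ h0 hE
  intro v hv v' hv' g1 g2 e1 e2 h1
  obtain ⟨m1, w1⟩ := (mem_dat h0).1 hv
  obtain ⟨m2, w2⟩ := (mem_dat h0).1 hv'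
  have col : ∀ x ∈ X.P.S, wd σ Y x = wd σ Y ω₀ → ∀ a p q, q ≠ σ.o → X.ρ x a p q = X.ρ ω₀ a p q :=
    fun x hx w a p q hq => k.fρ a p q hq x hx ω₀ h0
      (Prod.ext (congrArg (fun z => z.1) w) (congrArg (fun z => z.2.2.1) w))
  have wrd : ∀ x ∈ X.P.S, wd σ Y x = wd σ Y ω₀ → (X.T x, X.Z x) = θ →
      ‖Y.M ω₀ i ((X.R x * X.W x) *ᵥ X.Z x)‖ ≤ Fintype.card ν * (Fintype.card ν *
        exp (2 * e - g * (c * X.u / 2)) * (Fintype.card α * exp (e + A * L))) := fun x hx w e3 => by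
    have hj : θ.1.2.2 = X.j x := by rw [← e3]; rfl
    rw [hj] at hl
    refine (word o (k.pt x hx) hg hA hL (l := Y.l ω₀ i) (by linarith) fun a q hq => ?_).trans ?_
    · simp only [col x hx w a _ q hq]
      exact t.up i (t.sub i hi) a q hq
    · have h2 := (t.lev i (t.sub i hi)).1
      have h3 := mul_le_mul_of_nonneg_right lg_lt_one.le (Nat.cast_nonneg (α := ℝ) (X.j x))
      gcongr
      linarith
  have e3 : (X.T v, X.Z v) = (X.T v', X.Z v') := e1.trans e2.symm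
  have eT : X.T v = X.T v' := congrArg Prod.fst e3
  have h2 := (diff o (k.pt v m1) (k.pt v' m2)
    (fun a p q hq => (col v m1 w1 a p q hq).trans (col v' m2 w2 a p q hq).symm)
    (congrArg (fun z => z.2.1) eT) (congrArg Prod.snd e3) (t.sup i) (t.fine i) (wrd v m1 w1 e1)
    (wrd v' m2 w2 e2)).trans n3
  have e4 : ‖(dat σ Y d ω₀).Φ i θ ((dat σ Y d ω₀).B v - (dat σ Y d ω₀).B v')‖ =
      2 * ‖Y.M ω₀ i ((-X.b v σ.τ) • (X.θ σ v σ.τ - X.θ σ v' σ.τ))‖ := by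
    rw [EB.Dat.Φ_apply, ← show (X.T v, X.Z v) = θ from e1]
    simp only [dat, Prod.mk_sub_mk, map_sub, J_src o (k.pt v m1), J_src o (k.pt v' m2),
      _root_.zero_apply, sub_self, add_zero, _root_.smul_apply, norm_smul,
      Real.norm_ofNat, Bd.T]
  rw [e4] at h1 ⊢
  have x1 : 2 ≤ exp 1 := by linarith [add_one_le_exp (1 : ℝ)]
  have x2 : 4 ≤ exp (b / 2) := by
    have := exp_le_exp.2 (by linarith : 1 + 1 ≤ b / 2)
    rw [exp_add] at this
    nlinarith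
  have x3 : exp (-b) * exp (b / 2) = exp (-(6 * (b / 12))) := by rw [← exp_add]; congr 1; ring
  have x4 : exp (-(6 * (b / 12))) ≤ 1 := exp_le_one_iff.2 (by linarith)
  have x5 := mul_le_mul_of_nonneg_left x2 (exp_pos (-b)).le
  have h3 := abs_le.1 ((abs_norm_sub_norm_le _ _).trans h2)
  have h4 := t.gp i (X.N v) (X.N v') (X.T v) g1 (by rw [eT]; exact g2) (by linarith [h3.2])
  linarith [h3.1]

open Classical in
/-- The number of bad boxes. -/
noncomputable def bad (Y : Wd X) (ω : X.Ω) : ℝ := if Y.E ω then ∑ k ∈ range (Y.n ω),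
  if Y.Gd ω k (X.N ω) (X.T ω) then (0 : ℝ) else 1 else 0

omit [DecidableEq ν] in
theorem bad_nonneg (ω : X.Ω) : 0 ≤ bad Y ω := by
  unfold bad
  split_ifs
  · exact sum_nonneg fun k _ => by split_ifs <;> norm_num
  · exact le_rfl

/-- The information between the form and the source. -/
noncomputable def inf (σ : Bc α ν) (X : Bd α ν) (Q : FP X.Ω) : ℝ :=
  mi Q (fun ω => (X.T ω, X.Z ω)) (fun ω => (X.θ σ ω σ.τ, (0 : Empty → ℝ))) fun _ => ()

theorem atom {p : ν} {x K : ℝ} (y : Y.Ok σ r c C a b q η (Y.TO σ p)) (x0 : 0 ≤ x) (K0 : 0 ≤ K)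
    (b1 : 1 ≤ b) (cu : 0 < c * X.u) (k : ∀ ω ∈ X.P.S, J σ (X.θ σ ω σ.τ) = X.θ σ ω σ.τ)
    (hR : ∀ ω₀ ∈ X.P.S, Y.E ω₀ → ∑ i ∈ Y.I ω₀, hh (dat σ Y d ω₀).P ((dat σ Y d ω₀).dg L i) ≤
      (Y.I ω₀).card * (x + K * (dat σ Y d ω₀).bud)) (z : X.Kt × ℕ × X.Vt × (ν → ℤ)) :
    ∃ (i : ℕ) (m : ν) (G : X.Ω → ℤ), i ≤ X.u ∧ hh (cv X.P (wd σ Y) z) G ≤
      x + K * (inf σ X (cv X.P (wd σ Y) z) + (cv X.P (wd σ Y) z).E (bad Y)) ∧
      ∀ ω ∈ X.P.S, wd σ Y ω = z → Y.E ω → i ∈ Y.I ω ∧ exp (Y.l ω i) ≤ sz σ (Y.M ω i) m ∧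
        G ω = ⌊2 * Y.M ω i (X.θ σ ω σ.τ) m / exp (Y.l ω i + d - L)⌋ := by
  classical
  by_cases h : ∃ ω ∈ X.P.S, wd σ Y ω = z ∧ Y.E ω
  swap
  · refine ⟨0, p, fun _ => 0, Nat.zero_le _, ?_, fun ω hω e1 e2 => absurd ⟨ω, hω, e1, e2⟩ h⟩
    refine ((hh_mono (g := fun _ => ()) fun _ _ _ _ _ => rfl).trans_eq hh_unit).trans ?_
    exact add_nonneg x0 (mul_nonneg K0 (add_nonneg (mi_nonneg _ _ _)
      (FP.E_nonneg _ fun ω _ => bad_nonneg ω)))
  obtain ⟨ω₀, h0, rfl, hE⟩ := h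
  have t := y.pt ω₀ h0 hE
  have ne : (Y.I ω₀).Nonempty := card_pos.1 (by
    have := cu.trans_le t.lo
    exact_mod_cast (pos_iff_pos_of_mul_pos this).1 (by linarith))
  have h1 := hR ω₀ h0 hE
  rw [← nsmul_eq_mul, ← sum_const] at h1
  obtain ⟨i, hi, h2⟩ := exists_le_of_sum_le ne h1
  obtain ⟨w1, w2⟩ := y.ty ω₀ h0 hE i hi
  obtain ⟨m, hm⟩ : ∃ m, exp (Y.l ω₀ i) ≤ |Y.M ω₀ i (Pi.single p 1) m| := by
    by_contra hc
    push Not at hc
    exact w2.not_gt ((pi_norm_lt_iff (exp_pos _)).2 hc)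
  have fM : ∀ ω ∈ X.P.S, wd σ Y ω = wd σ Y ω₀ → (Y.n ω = Y.n ω₀ ∧ Y.M ω = Y.M ω₀ ∧
      Y.Gd ω = Y.Gd ω₀) ∧ Y.l ω = Y.l ω₀ ∧ Y.I ω = Y.I ω₀ ∧ Y.E ω := fun ω hω e => by
    simp only [wd, Prod.mk.injEq] at e
    have a1 := y.fM ω hω ω₀ h0 (by simp only [e.1, e.2.1])
    have a2 := y.fl ω hω ω₀ h0 (by simp only [e.1, e.2.1, e.2.2.1])
    simp only [Prod.mk.injEq] at a1 a2
    exact ⟨⟨a1.1, a1.2.1, a1.2.2.2⟩, a2.1, a2.2.1, a2.2.2 ▸ hE⟩
  refine ⟨i, m, fun ω => (dat σ Y d ω₀).dg L i ω m, ?_, ?_, fun ω hω e _ => ?_⟩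
  · have a1 : (i : ℝ) ≤ Y.n ω₀ := by exact_mod_cast (t.sub i hi).le
    have a2 := mul_le_mul_of_nonneg_right b1 (Nat.cast_nonneg (α := ℝ) (Y.n ω₀))
    exact_mod_cast (by linarith [t.hi] : (i : ℝ) ≤ X.u)
  · have h3 : hh (dat σ Y d ω₀).P (fun ω => (dat σ Y d ω₀).dg L i ω m) ≤
        hh (dat σ Y d ω₀).P ((dat σ Y d ω₀).dg L i) := hh_mono fun _ _ _ _ e => congrFun e m
    suffices h4 : ∑ k ∈ range (Y.n ω₀), pb (cv X.P (wd σ Y) (wd σ Y ω₀))
        (fun ω => ¬Y.Gd ω₀ k (X.N ω) (X.T ω)) = (cv X.P (wd σ Y) (wd σ Y ω₀)).E (bad Y) by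
      rw [← h4]
      exact h3.trans h2
    unfold pb
    rw [← FP.E_sum]
    refine FP.E_congr _ fun ω hω => ?_
    obtain ⟨a1, a2⟩ := (mem_dat h0).1 hω
    obtain ⟨⟨b1, -, b2⟩, -, -, b3⟩ := fM ω a1 a2
    rw [bad, if_pos b3, b1, b2]
    exact sum_congr rfl fun k _ => by by_cases h : Y.Gd ω₀ k (X.N ω) (X.T ω) <;> simp [h]
  · obtain ⟨⟨-, b1, -⟩, b2, b3, -⟩ := fM ω hω e
    rw [b1, b2, b3]
    refine ⟨hi, hm.trans ?_, ?_⟩
    · refine le_trans (le_of_eq ?_) (single_le_sum (fun p _ => abs_nonneg _) (mem_univ p))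
      rw [row, J_apply, if_pos w1]
    · simp only [EB.Dat.dg, dat, k ω hω, _root_.smul_apply, Pi.smul_apply, smul_eq_mul]

theorem inf_le (k : X.Ok σ e) (y : Y.Ok σ r c C a b q η ty) :
    (X.P.E fun ω => inf σ X (cv X.P (wd σ Y) (wd σ Y ω))) ≤ e := by
  unfold inf
  rw [← QA.DLab.mi_atoms]
  refine le_trans ?_ k.b3
  refine (mi_mono (G' := X.θ σ) fun v _ v' _ E => ?_).trans
    ((mi_cond (K := fun ω => (X.K ω, Y.s ω, X.v ω)) (fun v _ v' _ E => ?_)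
      fun v _ v' _ E => ?_).trans ?_)
  · simp only [show X.θ σ v = X.θ σ v' from congrArg Prod.fst E]
  · simp only [wd, Prod.mk.injEq] at E ⊢
    tauto
  · simp only [wd, Prod.mk.injEq] at E ⊢
    simp only [E.1, E.2.1, E.2.2.1, E.2.2.2, and_self]
  rw [mi_symm]
  refine (mi_cond (K := fun ω => (X.K ω, X.v ω)) (fun v _ v' _ E => ?_)
    fun v hv v' hv' E => ?_).trans (mi_mono fun v _ v' _ E => ?_)
  · simp only [Prod.mk.injEq] at E ⊢
    tauto
  · simp only [Prod.mk.injEq] at E ⊢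
    exact ⟨E.2.1, y.fs v hv v' hv' (by simp only [E.2.1, E.1.2]), E.2.2⟩
  · simp only [Bd.T, Prod.mk.injEq] at E ⊢
    tauto

theorem tilt {t S E F : ℝ} (hS : exp l ≤ S) (hE : E = exp l * (2 * F)) (F0 : 0 < F) :
    |t / S - E * ⌊2 * t / E⌋ / (2 * S)| ≤ F := by
  have l0 := exp_pos l
  have S0 := l0.trans_le hS
  have E0 : 0 < E := by rw [hE]; positivity
  have h1 : t / S - E * ⌊2 * t / E⌋ / (2 * S) = E / (2 * S) * Int.fract (2 * t / E) := by
    rw [Int.fract]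
    field_simp
  rw [h1, abs_of_nonneg (mul_nonneg (by positivity) (Int.fract_nonneg _))]
  refine (mul_le_of_le_one_right (by positivity) (Int.fract_lt_one _).le).trans ?_
  rw [div_le_iff₀ (by positivity), hE]
  nlinarith

/-- Cheap labels with a degenerate functional. -/
theorem one {p : ν} {x K κ h : ℝ} (o : σ.Ok) (k : X.Ok σ e)
    (y : Y.Ok σ r c C a b q η (Y.TO σ p)) (x0 : 0 ≤ x) (K0 : 0 ≤ K) (b1 : 1 ≤ b) (cu : 0 < c * X.u)
    (hR : ∀ ω₀ ∈ X.P.S, Y.E ω₀ → ∑ i ∈ Y.I ω₀, hh (dat σ Y d ω₀).P ((dat σ Y d ω₀).dg L i) ≤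
      (Y.I ω₀).card * (x + K * (dat σ Y d ω₀).bud))
    (hg : ∀ s q, σ.wt q < σ.wt s → g ≤ σ.wt s - σ.wt q) (g0 : 0 ≤ g)
    (hd : exp d = 2 * Fintype.card ν) (h1 : h ≤ g * (c * X.u)) (h2 : h ≤ 2 * X.u)
    (h3 : Fintype.card ν * exp (-L) ≤ exp (-h))
    (n4 : η * X.u + log (X.u + 1) + log (Fintype.card ν) ≤ κ)
    (n5 : η * X.u + Fintype.card ν * log (2 * (2 * exp e) + 3) + (x + K * (e + q * X.u)) ≤ κ) :
    ∃ (ξ : X.Ω → ν → ℝ) (z : X.Ω → α → ℝ), mi X.P ξ (fun ω => (X.v ω, X.θ σ ω)) X.K ≤ κ ∧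
      mi X.P z (X.θ σ) (fun ω => (X.K ω, X.v ω, ξ ω)) ≤ κ ∧
      c ≤ pb X.P fun ω => σ.Un (ξ ω) ∧ X.Dg σ h ω (ξ ω) (z ω) := by
  classical
  choose i m G a1 a2 a3 using atom y x0 K0 b1 cu (fun ω hω => J_src o (k.pt ω hω)) hR
  have fM : Fn X.P Y.M fun ω => (X.K ω, Y.s ω) := fun v hv v' hv' E =>
    congrArg (fun z => z.2.1) (y.fM v hv v' hv' E)
  refine ⟨fun ω => xi σ (Y.M ω (i (wd σ Y ω))) (m (wd σ Y ω)), fun ω a => if a = σ.τ then
    exp (Y.l ω (i (wd σ Y ω)) + d - L) * G (wd σ Y ω) ω /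
      (2 * sz σ (Y.M ω (i (wd σ Y ω))) (m (wd σ Y ω))) else 0, ?_, ?_,
    y.pe.trans (pb_mono fun ω hω hE => ?_)⟩
  · refine (mi_le _ _ _).trans ((ch_mono (F' := fun ω => ((Y.s ω, i (wd σ Y ω)), m (wd σ Y ω)))
      fun v hv v' hv' E => ?_).trans ((ch_subadd _ _ _).trans (le_trans (add_le_add
        ((ch_subadd _ _ _).trans (add_le_add y.hs (ch_label (fun ω _ => a1 _) _)))
        (ch_det fun _ _ => ⟨univ, le_rfl, fun _ _ _ => mem_univ _⟩)) n4)))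
    simp only [Prod.mk.injEq] at E
    simp only [fM v hv v' hv' (Prod.ext E.2 E.1.1.1), E.1.1.2, E.1.2]
  · have c1 : ch X.P (fun ω => G (wd σ Y ω) ω) (wd σ Y) ≤ x + K * (e + q * X.u) := by
      rw [KEA.ent1 X.P (wd σ Y) G]
      refine (X.P.E_mono fun ω _ => a2 _).trans ?_
      rw [FP.E_add, FP.E_const, FP.E_mul, FP.E_add, ← KEA.exp X.P (wd σ Y) fun _ => bad Y]
      exact add_le_add le_rfl (mul_le_mul_of_nonneg_left (add_le_add (inf_le k y) y.bad) K0)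
    have c2 : ch X.P (fun ω => flv 0 (X.θ σ ω σ.τ)) X.K ≤
        Fintype.card ν * log (2 * (2 * exp e) + 3) :=
      ch_near (by positivity) fun v hv v' hv' _ => by
        rw [pow_zero, div_one]
        refine (pi_norm_le_iff_of_nonneg (by positivity)).2 fun s => (abs_sub _ _).trans ?_
        simp only [Bd.θ]
        linarith [(k.pt v hv).rb σ.τ s σ.o, (k.pt v' hv').rb σ.τ s σ.o]
    refine (mi_le _ _ _).trans ((ch_tri' _ _ (wd σ Y)).trans (le_trans (add_le_add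
      ((ch_mono fun v hv v' hv' E => ?_).trans c1) ((ch_le (F' := fun ω => (Y.s ω,
        flv 0 (X.θ σ ω σ.τ))) (fun v hv v' hv' E => ?_) (Fn.fst _ _)).trans
        ((ch_subadd _ _ _).trans (add_le_add y.hs c2)))) (by linarith)))
    · have e1 : G (wd σ Y v) v = G (wd σ Y v') v' := congrArg Prod.fst E
      have e2 : wd σ Y v = wd σ Y v' := congrArg Prod.snd E
      have e3 := e2
      simp only [wd, Prod.mk.injEq] at e3
      have e4 : Y.l v = Y.l v' := congrArg Prod.fst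
        (y.fl v hv v' hv' (by simp only [e3.1, e3.2.1, e3.2.2.1]))
      simp only [e1, e4, fM v hv v' hv' (Prod.ext e3.1 e3.2.1)]
      simp only [e2]
    · simp only [wd, Prod.mk.injEq] at E ⊢
      tauto
  · obtain ⟨b1, b2, b3⟩ := a3 _ ω hω rfl hE
    have t := y.pt ω hω hE
    have l1 := (t.lev _ (t.sub _ b1)).1
    have N0 : (0 : ℝ) < Fintype.card ν := by
      have : Nonempty ν := ⟨p⟩
      exact_mod_cast Fintype.card_pos
    refine ⟨xi_un o (t.sup _) ((exp_pos _).trans_le b2), xi_dg o (k.pt ω hω) (t.sup _) hg g0 b2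
      (t.up _ (t.sub _ b1)) (cu.le.trans l1) (h1.trans (mul_le_mul_of_nonneg_left l1 g0)) h2
      (le_trans ?_ h3) (if_pos rfl) fun a ha => if_neg ha⟩
    rw [b3]
    refine tilt b2 ?_ (by positivity)
    rw [sub_eq_add_neg, exp_add, exp_add, hd]
    ring

omit [Fintype α] [DecidableEq ν] in
theorem ex_gap (σ : Bc α ν) : ∃ g : ℝ, 0 < g ∧ g ≤ 1 ∧
    ∀ s q, σ.wt q < σ.wt s → g ≤ σ.wt s - σ.wt q := by
  have h : ∀ᶠ g in nhdsWithin (0 : ℝ) (Set.Ioi 0), 0 < g ∧ g ≤ 1 ∧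
      ∀ s q, σ.wt q < σ.wt s → g ≤ σ.wt s - σ.wt q := by
    refine (eventually_mem_nhdsWithin).and (Eventually.filter_mono nhdsWithin_le_nhds
      ((eventually_le_nhds one_pos).and ?_))
    refine eventually_all.2 fun s => eventually_all.2 fun q => ?_
    by_cases h : σ.wt q < σ.wt s
    · exact (eventually_le_nhds (sub_pos.2 h)).mono fun _ a _ => a
    · exact Eventually.of_forall fun _ a => absurd a h
  exact h.exists

theorem log_small {t x : ℝ} (ht : 0 < t) (hx : 2 / t ^ 2 + 2 / t ≤ x) : log (x + 1) ≤ 2 * t * x := by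
  have a1 : 0 < 2 / t ^ 2 := by positivity
  have a2 : 0 < 2 / t := by positivity
  have x0 : 0 < x := by linarith
  rw [log_le_iff_le_exp (by linarith), show 2 * t * x = t * x + t * x by ring, exp_add]
  have h1 := add_one_le_exp (t * x)
  have h2 : 2 ≤ t ^ 2 * x := by
    have := (div_le_iff₀' (by positivity : 0 < t ^ 2)).1 (by linarith : 2 / t ^ 2 ≤ x)
    exact this
  have h3 : 0 ≤ t * x := by positivity
  nlinarith [mul_le_mul h1 h1 (by linarith) (exp_pos _).le]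

theorem small {B t s b : ℝ} (B0 : 0 ≤ B) (h : B * exp b ≤ exp t) (hs : s ≤ -t) :
    B * exp s ≤ exp (-b) := by
  refine (mul_le_mul_of_nonneg_left (exp_le_exp.2 hs) B0).trans ?_
  rw [exp_neg, exp_neg, ← div_eq_mul_inv, inv_eq_one_div, div_le_div_iff₀ (exp_pos _) (exp_pos _)]
  linarith

end RO

open RO in
theorem rowO : RowO := by
  intro R2 α ν _ _ _ σ X h r c C a p c0 _ _ nd
  have o := h.ok
  have C0 := h.C_pos
  have l0 := lg_pos
  have N1 : (1 : ℝ) ≤ Fintype.card ν := by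
    have : Nonempty ν := ⟨p⟩
    exact_mod_cast Fintype.card_pos
  obtain ⟨g, g0, -, hg⟩ := ex_gap σ
  obtain ⟨A, A0, hA⟩ : ∃ A : ℝ, 0 < A ∧ ∀ a, σ.et a / lg ≤ A := by
    have h1 : ∀ a ∈ univ, 0 ≤ σ.et a / lg := fun a _ => (div_pos (o.et0 a) l0).le
    exact ⟨∑ a, σ.et a / lg + 1, by linarith [sum_nonneg h1],
      fun a => by linarith [single_le_sum h1 (mem_univ a)]⟩
  obtain ⟨t, t0, t1, t2⟩ : ∃ t : ℝ, 0 < t ∧ t ≤ c / 2 ∧ A * t ≤ g * c / 8 :=
    ⟨min (c / 2) (g * c / 8 / A), by positivity, min_le_left _ _,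
      (le_div_iff₀' A0).1 (min_le_right _ _)⟩
  obtain ⟨s, s0, s1, s2, s3⟩ : ∃ s : ℝ, 0 < s ∧ s ≤ t / 2 ∧ s ≤ g * c ∧ s ≤ 2 :=
    ⟨min (t / 2) (min (g * c) 2), by positivity, min_le_left _ _,
      (min_le_right _ _).trans (min_le_left _ _), (min_le_right _ _).trans (min_le_right _ _)⟩
  obtain ⟨κ, κ0, hκ⟩ := nd s (c / 2) s0 (half_pos c0)
  obtain ⟨K', β₀, -, hK⟩ := R2 (Fintype.card ν) lg (c / (12 * lg * σ.C)) (κ / 8 / t) l0
    (by positivity) (by positivity)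
  refine ⟨max (12 * β₀) 4, fun b hb => ?_⟩
  have b4 : 4 ≤ b := (le_max_right _ _).trans hb
  obtain ⟨K, L₀, K0, hR⟩ := hK (b / 12) (by linarith [(le_max_left _ _).trans hb])
  obtain ⟨ε, ε0, ε1, ε2, ε3, ε4⟩ : ∃ ε : ℝ, 0 < ε ∧ K * ε ≤ κ / 8 ∧ Fintype.card ν * ε ≤ κ / 8 ∧
      3 * ε ≤ g * c / 8 ∧ ε ≤ 1 / 2 := by
    have h1 : ∀ B x : ℝ, 0 < x → ∀ᶠ ε in nhdsWithin (0 : ℝ) (Set.Ioi 0), B * ε ≤ x := fun B x hx =>
      Eventually.filter_mono nhdsWithin_le_nhds (((continuous_const_mul B).tendsto 0).eventually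
        (eventually_le_nhds (by simpa using hx)))
    obtain ⟨ε, a0, a1, a2, a3, a4⟩ := (eventually_mem_nhdsWithin.and ((h1 K (κ / 8)
      (by positivity)).and ((h1 (Fintype.card ν) (κ / 8) (by positivity)).and
        ((h1 3 (g * c / 8) (by positivity)).and (h1 1 (1 / 2) (by positivity)))))).exists
    exact ⟨ε, a0, a1, a2, a3, by linarith⟩
  have hd : exp (log (2 * Fintype.card ν)) = 2 * Fintype.card ν := exp_log (by positivity)
  have d0 : 0 ≤ log (2 * Fintype.card ν) := log_nonneg (by linarith)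
  refine ⟨ε, κ / 8, ε0, by positivity, ?_⟩
  filter_upwards [hκ, h.ev ε ε0, h.big.ev 1, h.big.ev (L₀ / t),
    h.big.ev ((log (2 * Fintype.card ν) + b / 3) / (lg / 2)),
    ev_exp h.big (4 * (Fintype.card ν * Fintype.card ν * Fintype.card α) * exp b)
      (show 0 < g * c / 4 by positivity),
    ev_exp h.big (4 * Fintype.card α * exp b) one_half_pos,
    ev_exp h.big (Fintype.card ν) (half_pos t0), h.big.ev (2 / (κ / 8) ^ 2 + 2 / (κ / 8)),
    h.big.ev (5 * Fintype.card ν / (κ / 8))] with n nd k u1 u2 u3 u4 u5 u6 u7 u8 Y y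
  rw [div_le_iff₀' (by positivity)] at u2 u3 u8
  have u0 : (0 : ℝ) ≤ (X n).u := by linarith
  have m := fun {x y : ℝ} (h : x ≤ y) => mul_le_mul_of_nonneg_right h u0
  have cu : 0 < c * (X n).u := by positivity
  refine (one (L := t * (X n).u) (x := κ / 8 / t * (t * (X n).u))
    (κ := κ * (X n).u) (h := s * (X n).u) o k y (by positivity) K0 (by linarith) cu
    (fun ω₀ h0 hE => ?_) hg g0.le hd (by linarith [m s2]) (m s3) ?_ ?_ ?_).elim
    fun ξ ⟨z, h1, h2, h3⟩ => by linarith [nd ξ z h1 h2]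
  · refine (hR ν ν (Tf (X n)) _ (dat σ Y _ ω₀) (t * (X n).u) le_rfl le_rfl u2
      (dat_ok k y h0 hE hd d0 (by linarith) (by linarith) (by linarith [m t1]))
      (fun ω hω => ?_) fun i hi θ hl => dat_gp o k y h0 hE hg g0.le hA (by positivity) d0 b4
        (by linarith [m t1]) ?_ hi θ hl).trans_eq ?_
    · have := (k.pt ω ((mem_dat h0).1 hω).1).bt
      simpa only [EB.Dat.Sz, dat, abs_neg, Bd.T] using this
    · have a1 := small (s := 2 * (ε * (X n).u) - g * (c * (X n).u / 2) +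
        (ε * (X n).u + A * (t * (X n).u))) (by positivity) u4 (by linarith [m t2, m ε3])
      have a2 := small (s := ε * (X n).u + ((X n).u + -(2 * (X n).u))) (by positivity) u5
        (by linarith [m ε4])
      have a3 := mul_le_mul_of_nonneg_right (two_pow_le_exp (X n).u)
        (show 0 ≤ Fintype.card α * exp (ε * (X n).u) * exp (-(2 * ((X n).u : ℝ))) by positivity)
      rw [exp_add] at a1
      rw [exp_add, exp_add] at a2
      linarith
    · simp only [dat, FP.E_const, mul_zero, add_zero]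
  · refine small (t := t / 2 * (X n).u + s * (X n).u) (by positivity) ?_ (by linarith [m s1])
    rw [exp_add]
    exact mul_le_mul_of_nonneg_right u6 (exp_pos _).le
  · linarith [log_small (by positivity) u7, log_le_self (by linarith : (0 : ℝ) ≤ Fintype.card ν)]
  · have a1 : log (2 * (2 * exp (ε * (X n).u)) + 3) ≤ ε * (X n).u + 5 := by
      have a2 : 1 ≤ exp (ε * (X n).u) := one_le_exp (by positivity)
      refine (log_le_log (by positivity) (by linarith : _ ≤ exp (ε * (X n).u) * 7)).trans ?_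
      rw [log_mul (exp_pos _).ne' (by norm_num), log_exp]
      linarith [log_le_five (x := 7) (by norm_num) (by norm_num)]
    have a2 := mul_le_mul_of_nonneg_left a1 (show (0 : ℝ) ≤ Fintype.card ν by linarith)
    have a3 : κ / 8 / t * (t * (X n).u) = κ / 8 * (X n).u := by field_simp
    have a4 : 0 ≤ κ * (X n).u := by positivity
    linarith [m ε1, m ε2]

end Pool.Agent.MP_4b405e_nt.FB
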