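import Pool.Agent.MP_4b405e_nt.SK.FWord
import Pool.Agent.MP_4b405e_nt.SK.FNoI

/-! The type in which the letter `τ` is seen first does not occur. -/

namespace Pool.Agent.MP_4b405e_nt.FB

open Pool.Agent.MP_5168f5_an H19 H17S H17F Real Matrix Filter Finset FC Kil NoIA

namespace RX

/-- Choices on the atoms of a world are glued. -/
theorem glob {Ω W A B : Type} [Inhabited A] [Inhabited B] (P : FP Ω) (w : Ω → W) (E : Ω → Prop)
    (R : A → B → Ω → Prop) (β : W → ℝ) (β0 : ∀ v, 0 ≤ β v)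
    (h : ∀ ω ∈ P.S, E ω → ∃ (ψ : A) (y : Ω → B), (∀ v ∈ P.S, w v = w ω → R ψ (y v) v) ∧
      hh (cv P w (w ω)) y ≤ β (w ω)) :
    ∃ (ψ : Ω → A) (y : Ω → B), Fn P ψ w ∧ (∀ ω ∈ P.S, E ω → R (ψ ω) (y ω) ω) ∧
      ch P y w ≤ P.E fun ω => β (w ω) := by
  have k : ∀ s : W, ∃ (ψ : A) (y : Ω → B), (∀ v ∈ P.S, w v = s → E v → R ψ (y v) v) ∧
      hh (cv P w s) y ≤ β s := fun s => by
    by_cases e : ∃ ω ∈ P.S, w ω = s ∧ E ω
    · obtain ⟨ω, a, rfl, b⟩ := e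
      obtain ⟨ψ, y, c, d⟩ := h ω a b
      exact ⟨ψ, y, fun v hv e _ => c v hv e, d⟩
    · refine ⟨default, fun _ => default, fun v hv a b => absurd ⟨v, hv, a, b⟩ e, ?_⟩
      exact ((hh_mono (g := fun _ => ()) fun _ _ _ _ _ => rfl).trans_eq hh_unit).trans (β0 s)
  choose ψ y a b using k
  refine ⟨fun ω => ψ (w ω), fun ω => y (w ω) ω, Fn.comp ψ w, fun ω hω e => a _ ω hω rfl e, ?_⟩
  rw [KEA.ent1]
  exact P.E_mono fun ω _ => b _

theorem pb_mem {Ω : Type} (P : FP Ω) (B : Ω → Prop) (j : Ω → ℕ) (W : Finset ℕ) :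
    pb P (fun ω => B ω ∧ j ω ∈ W) = ∑ k ∈ W, pb P fun ω => B ω ∧ j ω = k := by
  induction W using Finset.induction_on with
  | empty => exact pb_zero fun ω _ h => absurd h.2 (notMem_empty _)
  | insert i W hi ih =>
    rw [sum_insert hi, ← ih, pb_split P _ fun ω => j ω = i]
    congr 1 <;> refine pb_congr fun ω _ => ?_ <;> by_cases e : j ω = i <;> simp [e, hi]

variable {α ν : Type} [Fintype α] [Fintype ν] {σ : Bc α ν} {X : Bd α ν} {e : ℝ}

/-- The level is uniform on the atoms of a world read from the base point. -/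
theorem lv_atom {W : Type} (k : X.Ok σ e) {w : X.Ω → W} (fw : Fn X.P w (X.Y σ)) {ω : X.Ω}
    (hω : ω ∈ X.P.S) {B : X.Ω → Prop} (f : Fn X.P B (X.Y σ)) {S : Finset ℕ}
    (hS : S ⊆ range (σ.C * X.u)) :
    (S.card : ℝ) / (σ.C * X.u : ℕ) * pb (cv X.P w (w ω)) B ≤
      pb (cv X.P w (w ω)) fun v => B v ∧ X.j v ∈ S := by
  have p0 : 0 < pb X.P fun v => w v = w ω := pb_pos _ ⟨ω, hω, rfl⟩
  have u0 : (0 : ℝ) < (σ.C * X.u : ℕ) := by exact_mod_cast k.cu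
  have g : Fn X.P (fun v => w v = w ω ∧ B v) (X.Y σ) := fun a ha b hb E => by
    simp only [fw a ha b hb E, f a ha b hb E]
  refine le_of_mul_le_mul_left (le_of_eq ?_) p0
  unfold cv
  rw [mul_left_comm, pb_cE, pb_cE, div_mul_eq_mul_div, div_eq_iff u0.ne', mul_comm _ (_ : ℝ)]
  simp only [← and_assoc]
  rw [pb_mem, mul_comm (∑ k ∈ S, _), mul_sum,
    sum_congr rfl fun i hi => k.lv' g (mem_range.1 (hS hi))]
  simp [mul_comm]

/-- The context of the second run. -/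
noncomputable def kx (σ : Bc α ν) (X : Bd α ν) (r : ℝ) (ω : X.Ω) :
    X.Kt × X.Vt × (ν → ℝ) × (α → ν → ℝ) := (X.K ω, X.v ω, σ.oth r (X.Z ω), X.θ σ ω)

/-- The world of the second run. -/
noncomputable def wx (σ : Bc α ν) (X : Bd α ν) (r : ℝ) (ω : X.Ω) :
    (ν → ℤ) × X.Kt × X.Vt × (ν → ℝ) × (α → ν → ℝ) := (flv 0 (σ.blk r (X.Z ω)), kx σ X r ω)

variable {r r' : ℝ}

omit [Fintype α] [Fintype ν] in
theorem fn_wx (r : ℝ) : Fn X.P (wx σ X r) (X.Y σ) := fun a _ b _ E => by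
  simp only [Bd.Y, Prod.mk.injEq] at E
  simp only [wx, kx, E.1, E.2.1, E.2.2.1, E.2.2.2]

theorem ch_flv (k : X.Ok σ e) (e0 : 0 ≤ e) (r : ℝ) {W : Type} (G : X.Ω → W) :
    ch X.P (fun ω => flv 0 (σ.blk r (X.Z ω))) G ≤ Fintype.card ν * (e + 2) := by
  have h1 : ∀ a ∈ X.P.S, ‖σ.blk r (X.Z a)‖ ≤ exp e := fun a ha =>
    (pi_norm_le_iff_of_nonneg (exp_pos _).le).2 fun p => by
      unfold Bc.blk
      split_ifs
      · exact (k.pt a ha).zb p
      · simpa using (exp_pos e).le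
  refine (ch_near (L := 2 * exp e) (by positivity) fun a ha b hb _ => ?_).trans ?_
  · refine (norm_sub_le _ _).trans ?_
    rw [pow_zero, div_one]
    linarith [h1 a ha, h1 b hb]
  · gcongr
    rw [log_le_iff_le_exp (by positivity), exp_add]
    have h2 := one_le_exp e0
    have h3 : (7 : ℝ) ≤ exp 2 := by
      have := exp_one_gt_d9
      rw [show (2 : ℝ) = 1 + 1 by norm_num, exp_add]
      nlinarith
    nlinarith

omit [Fintype α] [Fintype ν] in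
theorem fn_kx (r : ℝ) : Fn X.P (kx σ X r)
    fun ω => ((σ.oth r (X.Z ω), X.θ σ ω, X.T ω), X.K ω) := fun a _ b _ E => by
  simp only [Bd.T, Prod.mk.injEq] at E
  simp only [kx, E.2, E.1.1, E.1.2.1, E.1.2.2.1]

theorem mi_T (k : X.Ok σ e) (e0 : 0 ≤ e) (r : ℝ) :
    mi X.P X.T (fun ω => σ.blk r (X.Z ω)) (wx σ X r) ≤ e + Fintype.card ν * (e + 2) := by
  refine (mi_lab _ _ _ _ _).trans (add_le_add ?_ (ch_flv k e0 r _))
  rw [mi_symm]
  refine le_trans (mi_mono ?_) ((mi_cond ?_ (fn_kx r)).trans (k.b2 r))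
  · exact fun a _ b _ E => congrArg (·.1.2.2) E
  · exact fun a _ b _ E => congrArg (·.1) E

theorem mi_w (k : X.Ok σ e) (e0 : 0 ≤ e) (r : ℝ) :
    mi X.P (wx σ X r) (fun ω => σ.blk r (X.Z ω)) X.K ≤ e + Fintype.card ν * (e + 2) := by
  refine le_trans (mi_mono' ?_) ((mi_add _ (kx σ X r) (fun ω => flv 0 (σ.blk r (X.Z ω))) _ _).trans
    (add_le_add ?_ (ch_flv k e0 r _)))
  · exact fun a _ b _ E => Prod.ext (congrArg (·.1.2) E) (congrArg (·.1.1) E)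
  · rw [mi_symm]
    exact (mi_mono (fn_kx r)).trans (k.b2 r)

open Classical in
/-- The letter `τ` on the class `r`. -/
noncomputable def Am (σ : Bc α ν) (X : Bd α ν) (r : ℝ) (ω : X.Ω) : Matrix ν ν ℝ :=
  fun p q => if σ.cl q = r then X.ρ ω σ.τ p q else 0

omit [Fintype α] in
theorem Am_mulVec (ω : X.Ω) (x : ν → ℝ) : Am σ X r ω *ᵥ x = X.ρ ω σ.τ *ᵥ σ.blk r x := by
  funext p
  refine sum_congr rfl fun q _ => ?_
  by_cases h : σ.cl q = r <;> simp [Am, Bc.blk, h]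

omit [Fintype α] [Fintype ν] in
theorem sub_blk {x y : ν → ℝ} (h : σ.oth r x = σ.oth r y) : x - y = σ.blk r x - σ.blk r y := by
  funext p
  have := congrFun h p
  by_cases e : σ.cl p = r <;> simp_all [Bc.blk, Bc.oth]

omit [Fintype α] [Fintype ν] in
theorem blk_sub (x y : ν → ℝ) : σ.blk r (σ.blk r x - σ.blk r y) = σ.blk r x - σ.blk r y := by
  funext p
  by_cases e : σ.cl p = r <;> simp [Bc.blk, e]

omit [Fintype α] [Fintype ν] in
theorem cl_o (o : σ.Ok) {q : ν} (hq : q ≠ σ.o) : σ.cl σ.o ≠ σ.cl q := by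
  rw [Bc.cl, o.wo, zero_div]
  exact (div_pos (o.wt0 q hq) (o.w0 q)).ne

omit [Fintype α] in
theorem norm_blk (x : ν → ℝ) : ‖σ.blk r x‖ ≤ ‖x‖ :=
  (pi_norm_le_iff_of_nonneg (norm_nonneg _)).2 fun p => by
    unfold Bc.blk
    split_ifs
    · exact norm_le_pi_norm x p
    · simp

variable {Y : Wd X} {c C a b L x : ℝ} {ω : X.Ω} {q : ν}

/-- The data of the second run on the atom of `ω`. -/
noncomputable def dat (σ : Bc α ν) (Y : Wd X) (r : ℝ) (ω : X.Ω) :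
    EB.Dat ν Empty ν (X.Vt × (α → ℝ) × ℕ) X.Ω where
  P := cv X.P (wx σ X r) (wx σ X r ω)
  n := Y.n ω
  U := σ.C * X.u
  I := Y.I ω
  Ξ k := (2 : ℝ) • Y.M ω k
  l k := Y.l ω k + Real.log (2 * Fintype.card ν)
  J := LinearMap.toContinuousLinearMap (Am σ X r ω).mulVecLin
  C _ := 0
  s θ := -θ.2.1 σ.τ
  j θ := θ.2.2
  B v := (σ.blk r (X.Z v), 0)
  τ := X.T
  Gd k v := Y.Gd ω k (X.N v) (X.T v)
  ex _ := 0

theorem dat_ΞJ (k : ℕ) (p : ν → ℝ) : (dat σ Y r ω).Ξ k ((dat σ Y r ω).J p) =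
    (2 : ℝ) • Y.M ω k (X.ρ ω σ.τ *ᵥ σ.blk r p) := by
  rw [← Am_mulVec]; rfl

theorem dat_Φ (k : ℕ) (v : X.Ω) (p : EB.Vv ν Empty) : (dat σ Y r ω).Φ k (X.T v) p =
    (2 : ℝ) • Y.M ω k (-X.b v σ.τ • X.ρ ω σ.τ *ᵥ σ.blk r p.1) := by
  rw [← Am_mulVec, EB.Dat.Φ_apply]
  exact congrArg (fun y => (2 : ℝ) • Y.M ω k y) (add_zero _)

theorem dat_mem (hω : ω ∈ X.P.S) (v : X.Ω) :
    v ∈ (dat σ Y r ω).P.S ↔ v ∈ X.P.S ∧ wx σ X r v = wx σ X r ω := mem_cv _ _ hω v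

theorem near (hω : ω ∈ X.P.S) {v v' : X.Ω} (hv : v ∈ (dat σ Y r ω).P.S)
    (hv' : v' ∈ (dat σ Y r ω).P.S) : ‖σ.blk r (X.Z v) - σ.blk r (X.Z v')‖ ≤ 1 := by
  have := norm_sub_lt_of_flv_eq (congrArg Prod.fst
    (((dat_mem hω v).1 hv).2.trans ((dat_mem hω v').1 hv').2.symm))
  rw [pow_zero, inv_one] at this
  exact this.le

omit [Fintype α] in
theorem log_card (σ : Bc α ν) : 0 ≤ Real.log (2 * Fintype.card ν) ∧
    exp (Real.log (2 * Fintype.card ν)) = 2 * Fintype.card ν := by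
  have : (1 : ℝ) ≤ Fintype.card ν := by exact_mod_cast Fintype.card_pos_iff.2 ⟨σ.o⟩
  exact ⟨log_nonneg (by linarith), exp_log (by linarith)⟩

variable [DecidableEq ν]

theorem dat_ok (o : σ.Ok) (k : X.Ok σ e) (hω : ω ∈ X.P.S) (t : Y.Pt σ r c C a b ω)
    (hr : σ.cl σ.o ≠ r') (hb : 4 ≤ b) (hL : L ≤ c * X.u)
    (h1 : Real.log (2 * Fintype.card ν) + 4 * ((b - 2) / 6) ≤ lg * X.u / 2) :
    (dat σ Y r' ω).Ok lg (c / (12 * lg * σ.C)) ((b - 2) / 6) 0 L where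
  ball v hv v' hv' := by
    refine (Prod.norm_def _).trans_le (max_le (near hω hv hv') ?_)
    simp [dat]
  sub := t.sub
  nest i _ y := by
    change ‖(2 : ℝ) • Y.M ω (i + 1) y‖ ≤ _ * ‖(2 : ℝ) • Y.M ω i y‖
    rw [norm_smul, norm_smul, mul_left_comm]
    exact mul_le_mul_of_nonneg_left ((t.nest i y).trans (mul_le_mul_of_nonneg_right
      (exp_le_exp.2 (by linarith)) (norm_nonneg _))) (norm_nonneg _)
  r0 := le_rfl
  up i hi p := by
    have h2 := clm_col (Y.M ω i) (X.ρ ω σ.τ) (σ.blk r' p) (exp_pos _).le fun s hs =>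
      t.up i (t.sub i hi) σ.τ s (by rintro rfl; exact hs (if_neg hr))
    rw [o.tau, div_self lg_pos.ne', one_mul] at h2
    rw [dat_ΞJ, norm_smul, Real.norm_ofNat, add_zero]
    change _ ≤ exp (Y.l ω i + _) * _
    rw [exp_add, (log_card σ).2]
    have h3 := norm_blk (σ := σ) (r := r') p
    calc _ ≤ 2 * (Fintype.card ν * ‖p‖ * exp (Y.l ω i)) := by
          refine mul_le_mul_of_nonneg_left (h2.trans ?_) zero_le_two
          gcongr
      _ = _ := by ring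
  lev i hi := by
    have := t.lev i (t.sub i hi)
    simp only [dat]
    push_cast
    constructor <;> linarith [this.1, this.2, (log_card σ).1]
  u0 := k.cu
  mass := by
    have C0 : (0 : ℝ) < σ.C := by exact_mod_cast Nat.pos_of_mul_pos_right k.cu
    have h2 := t.lo
    have h3 : (0 : ℝ) ≤ (Y.I ω).card := Nat.cast_nonneg _
    have := lg_pos
    simp only [dat]
    push_cast
    rw [show c / (12 * lg * σ.C) * lg * (σ.C * X.u) = c * X.u / 12 by field_simp]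
    nlinarith
  ex0 _ := le_rfl
  lv A W hW := by
    refine (lv_atom k (fn_wx r') hω (B := fun v => A (σ.blk r' (X.Z v), 0))
      (fun a _ b _ E => ?_) hW).trans (le_add_of_nonneg_right (FP.E_nonneg _ fun v _ => ?_))
    · have : X.Z a = X.Z b := congrArg (·.2.2.1) E
      simp only [this]
    · simp [dat]

theorem dat_gp {g Λ γ : ℝ} (o : σ.Ok) (k : X.Ok σ e) (hω : ω ∈ X.P.S) (t : Y.Pt σ r c C a b ω)
    (hb : 4 ≤ b) (g0 : 0 ≤ g) (hg : ∀ a, g ≤ σ.et a / lg ∧ σ.et a / lg ≤ Λ) (γ0 : 0 ≤ γ)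
    (hγ : ∀ p q, σ.wt q < σ.wt p → γ ≤ σ.wt p - σ.wt q) (L0 : 0 ≤ L) (l1 : 2 * L ≤ c * X.u)
    (l2 : 2 * L ≤ x * X.u) (h1 : 2 * (Fintype.card α * Fintype.card ν ^ 2) *
      exp (2 * e + Λ * L - γ * (c * X.u / 2)) ≤ exp (-b))
    (h2 : 2 * (Fintype.card α * Fintype.card ν) * exp (e - g * (x * X.u / 2)) ≤ exp (-b))
    {i : ℕ} (hi : i ∈ Y.I ω) (ty : Y.TX σ x q ω i) (θ : X.Vt × (α → ℝ) × ℕ)
    (hl : (dat σ Y r' ω).l i ≤ lg * (dat σ Y r' ω).j θ + L) :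
    (dat σ Y r' ω).Gp ((b - 2) / 6) i θ := by
  classical
  rintro v hv v' hv' G G' rfl e2 h
  obtain ⟨v1, v2⟩ := (dat_mem hω v).1 hv
  obtain ⟨w1, w2⟩ := (dat_mem hω v').1 hv'
  have e3 := v2.trans w2.symm
  simp only [wx, kx, Prod.mk.injEq] at v2 e3
  have hρ := k.ρ_eq v1 hω v2.2.1 v2.2.2.1 v2.2.2.2.2
  have hN := k.N_sub v1 w1 e3.2.1 e2.symm e3.2.2.2.2
  have hD := near hω hv hv'
  have ho := k.Z_sub_o v1 w1
  have p := k.pt v v1
  change Y.l ω i + _ ≤ lg * X.j v + L at hl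
  have hl' : Y.l ω i ≤ lg * X.j v + L := by linarith [(log_card σ).1]
  have hj : c * X.u / 2 ≤ X.j v := by
    nlinarith [(t.lev i (t.sub i hi)).1, lg_lt_one, Nat.cast_nonneg (α := ℝ) (X.j v)]
  change ‖(dat σ Y r' ω).Φ i (X.T v) _‖ ≤ _ at h ⊢
  rw [dat_Φ] at h ⊢
  change ‖(2 : ℝ) • Y.M ω i (_ • _ *ᵥ σ.blk r' (σ.blk r' (X.Z v) - σ.blk r' (X.Z v')))‖ ≤ _ at h ⊢
  rw [blk_sub, norm_smul, Real.norm_ofNat, ← hρ] at h ⊢
  rw [← sub_blk e3.2.2.2.1] at h hD ⊢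
  set D := X.Z v - X.Z v'
  have b1 := p.word_box (M := Y.M ω i) o (fun a => (hg a).2) hγ
    (fun a s hs => hρ ▸ t.up i (t.sub i hi) a s hs) L0 hl' D
  have b2 := p.late_box (M := Y.M ω i) (L := x * X.u / 2) (l := Y.l ω i - x * X.u) ho
    (univ.erase σ.τ) (fun a => (hg a).1)
    (fun a ha s hs => hρ ▸ ty.2.2 a s (ne_of_mem_erase ha) hs) (by linarith) (by linarith) g0
  have c1 : (Fintype.card α : ℝ) * Fintype.card ν ^ 2 * ‖D‖ * exp (2 * e + Λ * L - γ * X.j v) ≤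
      Fintype.card α * Fintype.card ν ^ 2 * 1 * exp (2 * e + Λ * L - γ * (c * X.u / 2)) := by
    gcongr
  have c2 : (Fintype.card α : ℝ) * (Fintype.card ν * ‖D‖ * exp (e - g * (x * X.u / 2))) ≤
      Fintype.card α * (Fintype.card ν * 1 * exp (e - g * (x * X.u / 2))) := by gcongr
  have c3 : X.N v - X.N v' = -X.b v σ.τ • X.ρ v σ.τ *ᵥ D +
      ((X.R v * X.W v) *ᵥ D - ∑ a ∈ univ.erase σ.τ, X.b v a • X.ρ v a *ᵥ D) := by
    rw [hN, Bd.L_mulVec, Bd.R_mulVec, ← add_sum_erase _ _ (mem_univ σ.τ), neg_smul]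
    abel
  have c4 : ‖Y.M ω i (X.N v - X.N v') - Y.M ω i (-X.b v σ.τ • X.ρ v σ.τ *ᵥ D)‖ ≤ exp (-b) := by
    rw [c3, map_add, add_sub_cancel_left, map_sub]
    refine (norm_sub_le _ _).trans ?_
    linarith
  have c5 : 4 * exp (-b) ≤ exp (-(6 * ((b - 2) / 6))) := by
    rw [show -(6 * ((b - 2) / 6)) = 1 + 1 + -b by ring, exp_add, exp_add]
    have := exp_one_gt_d9
    gcongr
    nlinarith
  have c6 : exp (-(6 * ((b - 2) / 6))) ≤ 1 := exp_le_one_iff.2 (by linarith)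
  have c7 := norm_sub_norm_le (Y.M ω i (X.N v - X.N v')) (Y.M ω i (-X.b v σ.τ • X.ρ v σ.τ *ᵥ D))
  have c8 := norm_sub_norm_le (Y.M ω i (-X.b v σ.τ • X.ρ v σ.τ *ᵥ D)) (Y.M ω i (X.N v - X.N v'))
  rw [norm_sub_rev] at c8
  have c9 := t.gp i _ _ _ G ((congrArg (Y.Gd ω i (X.N v')) e2).mp G') (by linarith [exp_pos (-b)])
  linarith

/-- A column of `τ` that is seen lies one step below the class of the boxes. -/
theorem see (o : σ.Ok) (p : X.Pt σ e ω) (t : Y.Pt σ r c C a b ω) (hq : q ≠ σ.o) {i : ℕ}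
    (h : Y.M ω i (fun s => X.ρ ω σ.τ s q) ≠ 0) : r = σ.cl q + lg / σ.w q := by
  rw [t.sup] at h
  obtain ⟨s, hs⟩ : ∃ s, σ.pos r (fun s => X.ρ ω σ.τ s q) s ≠ 0 :=
    Function.ne_iff.1 fun e => h (by rw [e]; exact map_zero _)
  have h1 : σ.ps s ∧ σ.cl s = r := by_contra fun e => hs (if_neg e)
  have h2 := p.gr σ.τ s q fun e => hs ((if_pos h1).trans e)
  rw [← h1.2, Bc.cl, Bc.cl, h2.1, h2.2 hq, o.tau, add_div]

/-- The coordinates in a box give a thin slab. -/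
theorem slab (o : σ.Ok) (p : X.Pt σ e ω) (t : Y.Pt σ r c C a b ω) {i : ℕ} (ty : Y.TX σ x q ω i)
    (L : ℝ) : ∃ (ψ : ν → ℝ) (y : (ν → ℤ) → ℝ), σ.Un ψ ∧ (∀ s, ψ s ≠ 0 → σ.cl s = σ.cl q) ∧
      ∀ v, |ψ ⬝ᵥ X.Z v - y ((dat σ Y (σ.cl q) ω).dg L i v)| ≤ Fintype.card ν * exp (-L) := by
  obtain ⟨m, hm⟩ := ex_row (Y.M ω i fun s => X.ρ ω σ.τ s q) q
  have g0 : exp (Y.l ω i) ≤ _ := ty.2.1.trans hm
  obtain ⟨A, hA⟩ : ∃ A, A = ((dat σ Y (σ.cl q) ω).Ξ i).comp (dat σ Y (σ.cl q) ω).J := ⟨_, rfl⟩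
  have h1 : ∀ s, A (Pi.single s 1) = if σ.cl s = σ.cl q then
      (2 : ℝ) • Y.M ω i fun p => X.ρ ω σ.τ p s else 0 := fun s => by
    rw [hA, ContinuousLinearMap.comp_apply, dat_ΞJ, ← Am_mulVec, mulVec_single_one]
    split_ifs with h
    · exact congrArg (fun y => (2 : ℝ) • Y.M ω i y) (funext fun p => if_pos h)
    · rw [show (Am σ X (σ.cl q) ω).col s = 0 from funext fun p => if_neg h, map_zero, smul_zero]
  obtain ⟨S, hS⟩ : ∃ S, S = ∑ s, |A (Pi.single s 1) m| := ⟨_, rfl⟩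
  have S1 : 2 * exp (Y.l ω i) ≤ S := by
    refine le_trans ?_ (hS ▸ single_le_sum (f := fun s => |A (Pi.single s 1) m|)
      (fun _ _ => abs_nonneg _) (mem_univ q))
    simp only [h1, if_true, Pi.smul_apply, smul_eq_mul, abs_mul, abs_two]
    linarith
  have S0 : 0 < S := lt_of_lt_of_le (by positivity) S1
  have h2 : ∀ s, S⁻¹ * A (Pi.single s 1) m ≠ 0 → σ.cl s = σ.cl q ∧ σ.w s = σ.w q := fun s hs => by
    have h3 := right_ne_zero_of_mul hs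
    have h4 : σ.cl s = σ.cl q := by_contra fun e => h3 (by rw [h1, if_neg e]; rfl)
    have h5 := see o p t (q := s) (i := i) (by rintro rfl; exact cl_o o ty.1 h4) fun e =>
      h3 (by rw [h1, if_pos h4, e, smul_zero]; rfl)
    have h6 := see o p t ty.1 (i := i) fun e => by
      rw [e] at g0
      simpa using (exp_pos _).trans_le g0
    rw [h5, h4, add_right_inj, div_eq_div_iff (o.w0 s).ne' (o.w0 q).ne'] at h6
    exact ⟨h4, (mul_left_cancel₀ lg_pos.ne' h6).symm⟩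
  obtain ⟨d, hd⟩ : ∃ d, d = exp ((dat σ Y (σ.cl q) ω).l i - L) := ⟨_, rfl⟩
  have d0 : 0 < d := hd ▸ exp_pos _
  refine ⟨fun s => S⁻¹ * A (Pi.single s 1) m, fun z => S⁻¹ * (z m * d),
    ⟨?_, ?_, fun s s' a b => ?_⟩, fun s hs => (h2 s hs).1, fun v => ?_⟩
  · simp only [abs_mul, abs_of_pos (inv_pos.2 S0)]
    rw [← mul_sum, ← hS, inv_mul_cancel₀ S0.ne']
  · exact by_contra fun e => cl_o o ty.1 (h2 _ e).1
  · have h3 := (h2 s a).2.trans (h2 s' b).2.symm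
    have h4 := (h2 s a).1.trans (h2 s' b).1.symm
    rw [Bc.cl, Bc.cl, h3, div_left_inj' (o.w0 s').ne'] at h4
    exact ⟨h4, h3⟩
  · have h3 : (fun s => S⁻¹ * A (Pi.single s 1) m) ⬝ᵥ X.Z v =
        S⁻¹ * A (σ.blk (σ.cl q) (X.Z v)) m := by
      rw [← Bc.dot_blk fun s hs => (h2 s hs).1, row_apply A (σ.blk _ _), mul_sum]
      exact sum_congr rfl fun s _ => mul_assoc _ _ _
    have h4 : (dat σ Y (σ.cl q) ω).dg L i v m = ⌊A (σ.blk (σ.cl q) (X.Z v)) m / d⌋ := by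
      rw [hA, hd]; rfl
    have h5 := Int.floor_le (A (σ.blk (σ.cl q) (X.Z v)) m / d)
    have h6 := Int.lt_floor_add_one (A (σ.blk (σ.cl q) (X.Z v)) m / d)
    rw [le_div_iff₀ d0] at h5
    rw [div_lt_iff₀ d0] at h6
    have h7 : d = exp (Y.l ω i) * (2 * Fintype.card ν) * exp (-L) := by
      rw [hd, ← (log_card σ).2, ← exp_add, ← exp_add]; rfl
    beta_reduce
    rw [h3, h4, ← mul_sub, abs_mul, abs_of_pos (inv_pos.2 S0), abs_of_nonneg (by linarith),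
      inv_mul_le_iff₀ S0]
    calc _ ≤ d := by linarith
      _ = 2 * exp (Y.l ω i) * (Fintype.card ν * exp (-L)) := by rw [h7]; ring
      _ ≤ _ := by gcongr

theorem fn_Y {t : X.Ω → ℕ → Prop} {q η : ℝ} (h : Y.Ok σ r c C a b q η t) (hr : r ≠ r') :
    Fn X.P (fun ω => (Y.n ω, Y.Gd ω, Y.E ω)) (wx σ X r') := fun a ha b hb E => by
  simp only [wx, kx, Prod.mk.injEq] at E
  have h1 := h.fs a ha b hb (Prod.ext E.2.1 (funext fun p => by
    by_cases k : σ.ps p ∧ σ.cl p = r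
    · have := congrFun E.2.2.2.1 p
      simp only [Bc.oth, if_neg (k.2.trans_ne hr)] at this
      simp only [Bc.pos, if_pos k, this]
    · simp only [Bc.pos, if_neg k]))
  have h2 := h.fM a ha b hb (Prod.ext E.2.1 h1)
  have h3 := h.fl a ha b hb (Prod.ext E.2.1 (Prod.ext h1 E.2.2.1))
  simp only [Prod.mk.injEq] at h2 h3 ⊢
  exact ⟨h2.1, h2.2.2.2, h3.2.2⟩

open Classical in
/-- The number of bad boxes. -/
noncomputable def bad (Y : Wd X) (ω : X.Ω) : ℝ := if Y.E ω then ∑ k ∈ Finset.range (Y.n ω),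
  if Y.Gd ω k (X.N ω) (X.T ω) then (0 : ℝ) else 1 else 0

omit [DecidableEq ν] in
theorem bad_nonneg (ω : X.Ω) : 0 ≤ bad Y ω := by
  unfold bad
  split_ifs
  · exact sum_nonneg fun k _ => by split_ifs <;> norm_num
  · exact le_rfl

omit [DecidableEq ν] in
theorem dat_bud (f : Fn X.P (fun ω => (Y.n ω, Y.Gd ω, Y.E ω)) (wx σ X r)) (hω : ω ∈ X.P.S)
    (hE : Y.E ω) : (dat σ Y r ω).bud ≤ mu (dat σ Y r ω).P X.T (fun v => σ.blk r (X.Z v)) +
      (dat σ Y r ω).P.E (bad Y) := by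
  refine add_le_add (mi_mono fun a _ b _ E => ?_) (le_of_eq ?_)
  · have : σ.blk r (X.Z a) = σ.blk r (X.Z b) := congrArg (·.1) E
    simp only [dat, this]
  · unfold pb
    rw [← FP.E_sum]
    refine FP.E_congr _ fun v hv => ?_
    obtain ⟨v1, v2⟩ := (dat_mem hω v).1 hv
    have := f v v1 ω hω v2
    simp only [Prod.mk.injEq] at this
    rw [bad, this.1, this.2.1, this.2.2, if_pos hE]
    exact sum_congr rfl fun k _ => by
      by_cases e : Y.Gd ω k (X.N v) (X.T v) <;> simp [dat, e]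

end RX

open RX

theorem rowX : RowX := by
  intro R2 α ν _ _ _ σ X hB r c C a x q c0 _ _ x0 nc
  have o := hB.ok
  have l0 := lg_pos
  have C0 := hB.C_pos
  obtain ⟨γ, γ0, hγ⟩ := σ.ex_gap
  obtain ⟨g, Λ, g0, Λ1, hg⟩ := o.ex_et
  obtain ⟨l, lp, l1, l2, l3⟩ : ∃ l : ℝ, 0 < l ∧ 2 * l ≤ c ∧ 2 * l ≤ x ∧ Λ * l ≤ γ * c / 4 := by
    refine ⟨min (min (c / 2) (x / 2)) (γ * c / 4 / Λ), by positivity, ?_, ?_, ?_⟩
    · linarith [min_le_left (min (c / 2) (x / 2)) (γ * c / 4 / Λ), min_le_left (c / 2) (x / 2)]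
    · linarith [min_le_left (min (c / 2) (x / 2)) (γ * c / 4 / Λ), min_le_right (c / 2) (x / 2)]
    · rw [← le_div_iff₀' (by linarith)]
      exact min_le_right _ _
  obtain ⟨κ, κ0, nc⟩ := nc (σ.cl q) (l / 2) (c / 2) (by positivity) (by positivity)
  obtain ⟨K', β₀, -, R2⟩ := R2 (Fintype.card ν) lg (c / (12 * lg * σ.C)) (κ / 4 / l) l0
    (by positivity) (by positivity)
  refine ⟨max 4 (6 * β₀ + 2), fun b hb => ?_⟩
  have b4 : 4 ≤ b := (le_max_left _ _).trans hb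
  obtain ⟨K, L₀, K0, R2⟩ := R2 ((b - 2) / 6) (by linarith [le_max_right 4 (6 * β₀ + 2)])
  obtain ⟨ε, ε0, e1, e2, e3⟩ : ∃ ε : ℝ, 0 < ε ∧ 2 * ε ≤ γ * c / 8 ∧ ε ≤ g * x / 4 ∧
      (K + 1) * (Fintype.card ν + 1) * ε ≤ κ / 4 := by
    refine ⟨min (min (γ * c / 16) (g * x / 4)) (κ / 4 / ((K + 1) * (Fintype.card ν + 1))),
      by positivity, ?_, (min_le_left _ _).trans (min_le_right _ _), ?_⟩
    · linarith [(min_le_left (min (γ * c / 16) (g * x / 4))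
        (κ / 4 / ((K + 1) * (Fintype.card ν + 1)))).trans (min_le_left _ _)]
    · rw [← le_div_iff₀' (by positivity)]
      exact min_le_right _ _
  refine ⟨κ / 4 / (K + 1), by positivity, ?_⟩
  filter_upwards [nc, hB.ev ε ε0, hB.big.ev 1, hB.big.ev (L₀ / l),
    hB.big.ev ((Real.log (2 * Fintype.card ν) + 4 * ((b - 2) / 6)) / (lg / 2)),
    hB.big.ev ((K + 1) * (2 * Fintype.card ν) / (κ / 4)),
    ev_exp hB.big (Fintype.card ν) (half_pos lp),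
    ev_exp hB.big (2 * (Fintype.card α * Fintype.card ν ^ 2) * exp b) (t := γ * c / 8)
      (by positivity),
    ev_exp hB.big (2 * (Fintype.card α * Fintype.card ν) * exp b) (t := g * x / 4)
      (by positivity)] with n nc k u1 u2 u3 u4 u5 u6 u7 η Y h
  rw [div_le_iff₀ (by positivity)] at u2 u3 u4
  have u0 : (0 : ℝ) < (X n).u := by linarith
  have ne : ∀ ω ∈ (X n).P.S, Y.E ω → (Y.I ω).Nonempty := fun ω hω e => by
    refine card_pos.1 (Nat.pos_of_ne_zero fun z => ?_)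
    have := (h.pt ω hω e).lo
    rw [z, Nat.cast_zero, mul_zero] at this
    nlinarith
  have hr : r ≠ σ.cl q ∧ q ≠ σ.o := by
    obtain ⟨ω, hω, e⟩ := ex_of_pb (c0.trans_le h.pe)
    obtain ⟨i, hi⟩ := ne ω hω e
    have ty := h.ty ω hω e i hi
    rw [see o (k.pt ω hω) (h.pt ω hω e) ty.1 (i := i)
      (norm_pos_iff.1 ((exp_pos _).trans_le ty.2.1))]
    exact ⟨(lt_add_of_pos_right _ (div_pos l0 (o.w0 q))).ne', ty.1⟩
  have fY := fn_Y h hr.1
  have sh : ∀ {A y t : ℝ}, A * exp b ≤ exp t → y ≤ -t → 0 ≤ A → A * exp y ≤ exp (-b) :=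
    fun {A y t} a1 a2 a3 => by
      refine le_of_mul_le_mul_right ?_ (exp_pos b)
      rw [← exp_add (-b), neg_add_cancel, mul_right_comm, ← add_neg_cancel t, exp_add]
      gcongr
  obtain ⟨ψ, y, fψ, hs, hy⟩ := glob (X n).P (wx σ (X n) (σ.cl q)) Y.E
    (fun (ψ : ν → ℝ) (y : ℝ) ω => σ.Un ψ ∧ (∀ p, ψ p ≠ 0 → σ.cl p = σ.cl q) ∧
      |ψ ⬝ᵥ (X n).Z ω - y| ≤ exp (-(l / 2 * (X n).u)))
    (fun s => κ / 4 * (X n).u + K * (mu (cv (X n).P (wx σ (X n) (σ.cl q)) s) (X n).T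
      (fun v => σ.blk (σ.cl q) ((X n).Z v)) + (cv (X n).P (wx σ (X n) (σ.cl q)) s).E (bad Y)))
    (fun s => add_nonneg (by positivity) (mul_nonneg K0 (add_nonneg (mi_nonneg _ _ _)
      (FP.E_nonneg _ fun v _ => bad_nonneg v)))) fun ω hω e => by
    have t := h.pt ω hω e
    have run := R2 ν ν _ _ (dat σ Y (σ.cl q) ω) (l * (X n).u) le_rfl le_rfl (by linarith)
      (dat_ok o k hω t (cl_o o hr.2) b4 (by nlinarith) (by linarith))
      (fun v hv => by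
        have := (k.pt v ((dat_mem hω v).1 hv).1).bt
        exact ⟨this.1.trans_eq (abs_neg _).symm, (abs_neg _).trans_le this.2⟩)
      fun i hi θ hl => dat_gp o k hω t b4 g0.le hg γ0.le hγ (by positivity) (by nlinarith)
        (by nlinarith) (sh u6 (by nlinarith) (by positivity)) (sh u7 (by nlinarith) (by positivity))
        hi (h.ty ω hω e i hi) θ hl
    rw [← nsmul_eq_mul, ← sum_const] at run
    obtain ⟨i, hi, hh1⟩ := exists_le_of_sum_le (ne ω hω e) run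
    obtain ⟨ψ, y, a1, a2, a3⟩ := slab o (k.pt ω hω) t (h.ty ω hω e i hi) (l * (X n).u)
    refine ⟨ψ, fun v => y ((dat σ Y (σ.cl q) ω).dg (l * (X n).u) i v), fun v _ _ =>
      ⟨a1, a2, (a3 v).trans ?_⟩, ((hh_mono (Fn.comp y _)).trans hh1).trans ?_⟩
    · refine (mul_le_mul_of_nonneg_right u5 (exp_pos _).le).trans_eq ?_
      rw [← exp_add]
      congr 1
      ring
    · have a4 := mul_le_mul_of_nonneg_left (dat_bud fY hω e) K0
      have a5 : (dat σ Y (σ.cl q) ω).P.E (dat σ Y (σ.cl q) ω).ex = 0 := FP.E_const _ 0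
      rw [a5, mul_zero, add_zero, ← mul_assoc, div_mul_cancel₀ _ lp.ne']
      exact add_le_add le_rfl a4
  rw [FP.E_add, FP.E_const, FP.E_mul, FP.E_add, ← mi_atom, ← E_atom] at hy
  have e0 : 0 ≤ ε * (X n).u := by positivity
  have m1 := mi_T k e0 (σ.cl q)
  have m2 := mi_w k e0 (σ.cl q)
  have m3 : (X n).P.E (bad Y) ≤ _ := h.bad
  have m4 : mi (X n).P (fun ω => (ψ ω, y ω)) (fun ω => σ.blk (σ.cl q) ((X n).Z ω)) (X n).K ≤ _ :=
    (mi_mono' (((fψ.left y).pair (Fn.snd _ y)).left _)).trans (mi_add _ _ y _ _)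
  have m5 := ch_anti (P := (X n).P) (F := y) (Fn.fst (wx σ (X n) (σ.cl q)) (X n).K)
  have m6 := mul_le_mul_of_nonneg_left (add_le_add m1 m3) K0
  have m7 : K * (κ / 4 / (K + 1) * (X n).u) ≤ κ / 4 * (X n).u := by
    rw [← mul_assoc, ← mul_div_assoc]
    refine mul_le_mul_of_nonneg_right ?_ u0.le
    rw [div_le_iff₀ (by positivity)]
    nlinarith
  have m8 := mul_le_mul_of_nonneg_right e3 u0.le
  have := (pb_mono hs).trans (nc ψ y (by nlinarith))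
  linarith [h.pe]

end Pool.Agent.MP_4b405e_nt.FB
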