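import Pool.Agent.MP_4b405e_nt.SK.DAll
import Pool.Agent.MP_4b405e_nt.SK.EAll
import Pool.Agent.MP_4b405e_nt.SK.FGlue
import Pool.Agent.MP_4b405e_nt.SK.FNc
import Pool.Agent.MP_4b405e_nt.SK.FNoI
import Pool.Agent.MP_4b405e_nt.SK.FFd1
import Pool.Agent.MP_4b405e_nt.SK.FFeed
import Pool.Agent.MP_4b405e_nt.SK.FRowX
import Pool.Agent.MP_4b405e_nt.SK.FRowO

/-! Flatness of the positions: assembly up to the first run. -/

namespace Pool.Agent.MP_4b405e_nt.FB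

open Pool.Agent.MP_5168f5_an

theorem spF_S (hs : RowS) : SpF :=
  spF_of QA.SD.spD EB.run1 EB.run2 ndAll ncAll noI (rowFeed_of rowF0 Lv.rowF1) hs rowX rowO rowG

end Pool.Agent.MP_4b405e_nt.FB
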