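import Pool.Agent.MP_5168f5_an.QA.Jn
import Pool.Agent.MP_5168f5_an.QA.AbL2

/-! Sparse heights: tangent systems with two units. -/

namespace Pool.Agent.MP_5168f5_an.QA

open H19 H17S H17F R4 AN Filter Finset
open G39 (dl)
open MX (cm)

/-- The weight of the binary digits of `t` between the levels `a` and `b`. -/
noncomputable def bw (p : ℝ) (a b : ℕ) (t : ℝ) : ℝ :=
  ∏ j ∈ Ico a b, if fl1 (j + 1) t = 2 * fl1 j t then 1 - p else p

/-- The second unit. -/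
abbrev sU (kf u : ℕ → ℕ) : ℕ → ℕ := fun n => u n / kf n

/-- The spacing and the second unit are large. -/
structure Two (kf u : ℕ → ℕ) : Prop where
  bk : Big kf
  bU : Big (sU kf u)

theorem bw_nonneg {p : ℝ} (h0 : 0 ≤ p) (h1 : p ≤ 1) (a b : ℕ) (t : ℝ) : 0 ≤ bw p a b t :=
  prod_nonneg fun j _ => by split_ifs <;> linarith

theorem bw_le {p : ℝ} (h0 : 0 ≤ p) (h1 : p ≤ 1 / 2) (a b : ℕ) (t : ℝ) :
    bw p a b t ≤ Real.exp (-(p * (b - a : ℕ))) := by
  refine (prod_le_prod (g := fun _ => Real.exp (-p)) (fun j _ => by split_ifs <;> linarith)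
    fun j _ => ?_).trans_eq ?_
  · have := Real.add_one_le_exp (-p)
    split_ifs <;> linarith
  · rw [prod_const, Nat.card_Ico, ← Real.exp_nat_mul]
    congr 1
    ring

section Units

variable {kf u u' : ℕ → ℕ} {c : ℝ}

theorem sU_le (kf u : ℕ → ℕ) (n : ℕ) : (sU kf u n : ℝ) ≤ u n / kf n := Nat.cast_div_le

theorem sU_le' (kf u : ℕ → ℕ) (n : ℕ) : (sU kf u n : ℝ) ≤ u n := by
  exact_mod_cast Nat.div_le_self _ _

theorem lt_sU (kf u : ℕ → ℕ) (n : ℕ) : (u n : ℝ) / kf n < sU kf u n + 1 := by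
  rcases Nat.eq_zero_or_pos (kf n) with e | e
  · simp [sU, e]
  · rw [div_lt_iff₀ (by exact_mod_cast e)]
    have := Nat.lt_div_mul_add (a := u n) e
    have : (u n : ℝ) < (u n / kf n : ℕ) * kf n + kf n := by exact_mod_cast this
    simp only [sU]
    linarith

theorem Two.le (h : Two kf u) : ∀ᶠ n in UF, (u n : ℝ) / kf n ≤ 2 * sU kf u n :=
  (h.bU.ev 1).mono fun n a => by linarith [lt_sU kf u n]

theorem Two.big (h : Two kf u) : Big u :=
  tendsto_atTop_mono (fun _ => Nat.div_le_self _ _) h.bU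

theorem Two.cmp (h : Two kf u) (hc : 0 < c) (e : ∀ᶠ n in UF, c * u n ≤ u' n) :
    ∀ᶠ n in UF, c / 2 * sU kf u n ≤ sU kf u' n := by
  filter_upwards [e, h.bU.ev (2 / c)] with n a b
  rw [div_le_iff₀' hc] at b
  have h1 := lt_sU kf u' n
  have h2 := mul_le_mul_of_nonneg_left (sU_le kf u n) hc.le
  have h3 : c * ((u n : ℝ) / kf n) ≤ u' n / kf n := by
    rw [← mul_div_assoc]
    exact div_le_div_of_nonneg_right a (Nat.cast_nonneg _)
  linarith

theorem Two.mono (h : Two kf u) (hc : 0 < c) (e : ∀ᶠ n in UF, c * u n ≤ u' n) : Two kf u' :=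
  ⟨h.bk, tendsto_atTop.2 fun K => by
    filter_upwards [h.cmp hc e, h.bU.ev (K / (c / 2))] with n a b
    rw [div_le_iff₀' (half_pos hc)] at b
    exact_mod_cast b.trans a⟩

theorem cf_two {S : ℕ → Type*} (kf : ℕ → ℕ) (m : ∀ n, S n → ℕ) :
    CF fun x : ∀ n, S n => Two kf fun n => m n (x n) :=
  ((cf_const (Big kf)).and (cf_big (S := S) fun n x => m n x / kf n)).congr fun _ =>
    ⟨fun h => ⟨h.bk, h.bU⟩, fun h => ⟨h.1, h.2⟩⟩

theorem dl_sU (kf u : ℕ → ℕ) (hc : 0 ≤ c) (n : ℕ) : dl u c n ≤ dl (sU kf u) c n :=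
  Real.exp_le_exp.2 (neg_le_neg (mul_le_mul_of_nonneg_left (sU_le' kf u n) hc))

end Units

variable {N D : ℕ}

/-- The digits of the height between the levels `c` and `c'` are not more likely than for
independent digits with probability `1 / k`, up to the factor `exp r`. -/
def St.Fa (X : St N D) (k c c' : ℕ) (r : ℝ) (ω : X.Ω) : Prop :=
  cm X.P (X.g.O c) (X.g.O c') ω ≤ Real.exp r * bw (k : ℝ)⁻¹ c c' (X.g.z ω)

theorem bw_k (k a b : ℕ) (t : ℝ) : 0 ≤ bw (k : ℝ)⁻¹ a b t :=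
  bw_nonneg (by positivity) (Nat.cast_inv_le_one k) a b t

theorem St.Fa.mono {X : St N D} {k c c' : ℕ} {r r' : ℝ} {ω : X.Ω} (h : X.Fa k c c' r ω)
    (e : r ≤ r') : X.Fa k c c' r' ω :=
  le_trans h (mul_le_mul_of_nonneg_right (Real.exp_le_exp.2 e) (bw_k _ _ _ _))

section Classes

variable (X : ℕ → St N D) (E : ℕ) (η θ β js Γ : ℝ) (kf : ℕ → ℕ) (sl : ℕ → ℝ)

/-- Fair heights, with high probability. -/
structure Faw : Prop extends Two kf (uu X) where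
  fa : ∀ x x' : ℚ, x ≤ x' → ∀ ε : ℝ, 0 < ε → Whp (PP X) fun n =>
    (X n).Fa (kf n) ((X n).lv x) ((X n).lv x') (ε * sU kf (uu X) n)

/-- Fair heights, surely. -/
structure Fas : Prop extends Two kf (uu X) where
  fa : ∀ x x' : ℚ, x ≤ x' → ∀ ε : ℝ, 0 < ε → ∀ᶠ n in UF, ∀ ω ∈ (X n).P.S,
    (X n).Fa (kf n) ((X n).lv x) ((X n).lv x') (ε * sU kf (uu X) n) ω

/-- The tangent system with fair heights. -/
structure T1f : Prop extends Tq X E η θ β js Γ sl where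
  fa : Faw X kf

/-- The tangent system with surely fair heights. -/
structure Tsf : Prop extends Tq X E η θ β js Γ sl where
  fa : Fas X kf

/-- The event `G` is not power small in the second unit, also in the atoms that it meets. -/
structure Trf (G : ∀ n, (X n).Ω → Prop) : Prop where
  top : ∀ c : ℝ, 0 < c → ∀ᶠ n in UF, dl (sU kf (uu X)) c n ≤ pb (X n).P (G n)
  fb : ∀ (x : ℚ) (c : ℝ), 0 < c → ∀ᶠ n in UF, ∀ ω ∈ (X n).P.S, G n ω →
    dl (sU kf (uu X)) c n ≤ pb ((X n).fb x ω) (G n)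

theorem cf_fas : CF fun X : ℕ → St N D => Fas X kf :=
  ((cf_two (S := fun _ => St N D) kf fun _ y => y.u).and (cf_all fun x : ℚ => cf_all fun x' : ℚ =>
    cf_all fun _ : x ≤ x' => cf_eps (S := fun _ => St N D) (p := fun ε n y => ∀ ω ∈ y.P.S,
      y.Fa (kf n) (y.lv x) (y.lv x') (ε * (y.u / kf n : ℕ)) ω) fun _ _ _ _ _ a b ω hω =>
        (b ω hω).mono (mul_le_mul_of_nonneg_right a (Nat.cast_nonneg _)))).congr fun _ =>
    ⟨fun h => ⟨h.toTwo, h.fa⟩, fun h => ⟨h.1, h.2⟩⟩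

theorem cf_tsf : CF fun X : ℕ → St N D => Tsf X E η θ β js Γ kf sl :=
  ((cf_tq E η θ β js Γ sl).and (cf_fas kf)).congr fun _ =>
    ⟨fun h => ⟨h.toTq, h.fa⟩, fun h => ⟨h.1, h.2⟩⟩

variable {X E η θ β js Γ kf sl} {G : ∀ n, (X n).Ω → Prop}

theorem Trf.trm (g : Trf X kf G) : Trm X G :=
  ⟨fun c hc => (g.top c hc).mono fun n a => (dl_sU kf _ hc.le n).trans a,
    fun x c hc => (g.fb x c hc).mono fun n a ω h k => (dl_sU kf _ hc.le n).trans (a ω h k)⟩

theorem Trf.mem (g : Trf X kf G) :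
    ∀ᶠ n in UF, ∀ ω ∈ (cE (X n).P (G n)).S, ω ∈ (X n).P.S ∧ G n ω := g.trm.mem

theorem Trf.dom (g : Trf X kf G) (x : ℚ) (c : ℝ) (hc : 0 < c) :
    ∀ᶠ n in UF, ∀ v ∈ (cE (X n).P (G n)).S, ∀ F : (X n).Ω → Prop,
      pb (((X n).res (G n)).fb x v) F ≤ Real.exp (c * sU kf (uu X) n) * pb ((X n).fb x v) F :=
  (g.mem.and (g.fb x c hc)).mono fun _ a v hv F =>
    LC.pb_res (a.1 v hv).1 (a.1 v hv).2 (a.2 v (a.1 v hv).1 (a.1 v hv).2) F

theorem Trf.fa (g : Trf X kf G) (x : ℚ) {c : ℝ} (hc : 0 < c) :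
    ∀ᶠ n in UF, ∀ v ∈ (cE (X n).P (G n)).S, ∀ k c' r, (X n).Fa k ((X n).lv x) c' r v →
      ((X n).res (G n)).Fa k ((X n).lv x) c' (c * sU kf (uu X) n + r) v :=
  (g.dom x c hc).mono fun _ a v hv _ _ _ h => (a v hv _).trans
    ((mul_le_mul_of_nonneg_left h (Real.exp_pos _).le).trans_eq (by rw [← mul_assoc, ← Real.exp_add]))

theorem Fas.res (h : Fas X kf) (g : Trf X kf G) : Fas (fun n => (X n).res (G n)) kf :=
  ⟨h.toTwo, fun x x' e ε hε => by
    filter_upwards [h.fa x x' e _ (half_pos hε), g.fa x (half_pos hε)] with n a b v hv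
    exact (b v hv _ _ _ (a v (cE_sub hv))).mono (le_of_eq (by ring))⟩

theorem Tsf.res (h : Tsf X E η θ β js Γ kf sl) (g : Trf X kf G) :
    Tsf (fun n => (X n).res (G n)) E η θ β js Γ kf sl :=
  ⟨h.toTq.pull (π := fun _ => id) (dn_res g.trm.top), h.fa.res g⟩

theorem Fas.idx (h : Fas X kf) (sl : ℕ → ℝ) (js : ℝ) (a : ℚ) {e : ℚ} (he : 0 < e) :
    Fas (fun n => (X n).idx sl js a e) kf := by
  have e0 : (0 : ℝ) < e / 2 := half_pos (by exact_mod_cast he)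
  have k := (fl_idx (X := X) h.toTwo.big he).1
  refine ⟨h.toTwo.mono e0 k, fun x x' b ε hε => ?_⟩
  filter_upwards [h.fa (a + e * x) (a + e * x') (by gcongr) (ε * (e / 2 / 2)) (by positivity),
    h.toTwo.cmp e0 k] with n u v ω hω
  refine St.Fa.mono (X := X n) (u ω hω) ?_
  rw [mul_assoc]
  exact mul_le_mul_of_nonneg_left v hε.le

theorem Tsf.idx (h : Tsf X E η θ β js Γ kf sl) (a : ℚ) {e : ℚ} (he : 0 < e) :
    Tsf (fun n => (X n).idx sl js a e) E η θ β js Γ kf sl :=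
  ⟨h.toTq.idx a he, h.fa.idx sl js a he⟩

theorem ex_trf (h : Big (sU kf (uu X)))
    (g : ∀ c : ℝ, 0 < c → ∀ᶠ n in UF, dl (sU kf (uu X)) c n ≤ pb (X n).P (G n)) :
    ∃ G' : ∀ n, (X n).Ω → Prop, (∀ n ω, G' n ω → G n ω) ∧
      (∀ᶠ n in UF, pb (X n).P (G n) ≤ 2 * pb (X n).P (G' n)) ∧ Trf X kf G' := by
  obtain ⟨G', a, b, c⟩ := LP.trim (PP X) (fun (x : ℚ) n => (X n).O x) G h g
  refine ⟨G', a, b, fun e he => ?_, c⟩
  filter_upwards [b, g _ (half_pos he), G39.dl_lt h one_half_pos (half_pos he)] with n u v w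
  rw [G39.dl_half]
  nlinarith [G39.dl_pos (sU kf (uu X)) (e / 2) n]

theorem top_whf {u : ℕ → ℕ} (h : Big u) (g : Whp (PP X) G) (c : ℝ) (hc : 0 < c) :
    ∀ᶠ n in UF, dl u c n ≤ pb (X n).P (G n) := by
  filter_upwards [g _ one_half_pos, G39.dl_lt h one_half_pos hc] with n u w
  rw [pb_not] at u
  linarith

/-- Fairness is sure on a large event inside a given event. -/
theorem Faw.sure (h : Faw X kf) (g : Whp (PP X) G) :
    ∃ G' : ∀ n, (X n).Ω → Prop, (∀ n ω, G' n ω → G n ω) ∧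
      (∀ᶠ n in UF, 1 / 4 ≤ pb (X n).P (G' n)) ∧ Trf X kf G' ∧
      Fas (fun n => (X n).res (G' n)) kf := by
  obtain ⟨f, hf⟩ := exists_surjective_nat (ℕ × ℚ × ℚ)
  obtain ⟨E₀, a, b⟩ := whp_diag (P := PP X) (G := fun j n ω => (f j).2.1 ≤ (f j).2.2 →
    (X n).Fa (kf n) ((X n).lv (f j).2.1) ((X n).lv (f j).2.2)
      (1 / ((f j).1 + 1 : ℝ) * sU kf (uu X) n) ω) fun j => by
    by_cases e : (f j).2.1 ≤ (f j).2.2
    · exact (h.fa _ _ e _ (by positivity)).mono (.of_forall fun _ _ _ u _ => u)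
    · exact Whp.of_ev (.of_forall fun _ _ _ u => absurd u e)
  obtain ⟨G', c1, c2, c3⟩ := ex_trf h.bU (top_whf h.bU (a.and g))
  refine ⟨G', fun n ω u => (c1 n ω u).2, ?_, c3, h.toTwo, fun x x' e ε hε => ?_⟩
  · filter_upwards [c2, (a.and g) _ one_half_pos] with n u v
    rw [pb_not] at v
    linarith
  · obtain ⟨i, hi⟩ := exists_nat_one_div_lt (half_pos hε)
    obtain ⟨j, hj⟩ := hf (i, x, x')
    filter_upwards [b j, c3.mem, c3.fa x (half_pos hε)] with n u1 u2 u3 v hv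
    rw [hj] at u1
    refine (u3 v hv _ _ _ (u1 v (c1 n v (u2 v hv).2).1 e)).mono ?_
    have := mul_le_mul_of_nonneg_right hi.le (Nat.cast_nonneg (α := ℝ) (sU kf (uu X) n))
    simp only at this ⊢
    linarith

theorem T1f.sure (h : T1f X E η θ β js Γ kf sl) (g : Whp (PP X) G) :
    ∃ G' : ∀ n, (X n).Ω → Prop, (∀ n ω, G' n ω → G n ω) ∧
      (∀ᶠ n in UF, 1 / 4 ≤ pb (X n).P (G' n)) ∧ Trf X kf G' ∧
      Tsf (fun n => (X n).res (G' n)) E η θ β js Γ kf sl :=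
  (h.fa.sure g).imp fun _ a => ⟨a.1, a.2.1, a.2.2.1,
    h.toTq.pull (π := fun _ => id) (dn_res a.2.2.1.trm.top), a.2.2.2⟩

theorem Tq.lip (h : Tq X E η θ β js Γ sl) : Lip X Set.univ Γ :=
  fun x _ x' _ ε e => (h.loc x x' ε e).mono fun _ a => by simpa only [add_mul] using a.lip

/-- The atoms branch. -/
theorem Tsf.br (h : Tsf X E η θ β js Γ kf sl) {x x' : ℚ} (e : x < x') {B : ℝ} (hB : 0 < B) :
    ∀ᶠ n in UF, ∀ ω ∈ (X n).P.S, cm (X n).P ((X n).O x) ((X n).O x') ω ≤ B := by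
  have d0 : (0 : ℝ) < x' - x := sub_pos.2 (by exact_mod_cast e)
  filter_upwards [h.fa.fa x x' e.le ((x' - x) / 4) (by positivity), h.lev x x' (half_pos d0),
    h.fa.bk.ev 2, G39.dl_lt h.fa.bU hB (show 0 < ((x' : ℝ) - x) / 4 by positivity),
    h.loc x x' 1 one_pos] with n a b c d l ω hω
  have k0 : (0 : ℝ) < kf n := by linarith
  refine (a ω hω).trans ((mul_le_mul_of_nonneg_left (bw_le (by positivity)
    (by rw [one_div]; exact inv_anti₀ two_pos c) _ _ _) (Real.exp_pos _).le).trans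
      (le_trans ?_ d.le))
  rw [← Real.exp_add, dl, Real.exp_le_exp, Nat.cast_sub (l.mono e.le)]
  have h1 := mul_le_mul_of_nonneg_left (sU_le kf (uu X) n) (half_pos d0).le
  have h2 : ((x' : ℝ) - x) / 2 * (((X n).u : ℝ) / kf n) ≤
      (kf n : ℝ)⁻¹ * (((X n).lv x' : ℝ) - (X n).lv x) := by
    rw [← mul_div_assoc, inv_mul_eq_div]
    exact div_le_div_of_nonneg_right (by linarith [(abs_le.1 b).1]) k0.le
  simp only [uu] at h1 ⊢
  linarith

end Classes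

end Pool.Agent.MP_5168f5_an.QA
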