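import Pool.Agent.MP_4b405e_nt.SK.FSp

/-! Flatness of the positions: the worlds of boxes before the levels are read. -/

namespace Pool.Agent.MP_4b405e_nt.FB

open Pool.Agent.MP_5168f5_an H19 H17S H17F Real Matrix Filter

variable {α ν : Type} [Fintype α] [Fintype ν] [DecidableEq ν]

namespace Wd

variable (σ : Bc α ν) {X : Bd α ν} (Y : Wd X)

/-- The facts on the boxes at a point of the event. -/
structure Pt0 (r c C b : ℝ) (ω : X.Ω) : Prop where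
  sup : ∀ k x, Y.M ω k x = Y.M ω k (σ.pos r x)
  hi : b * Y.n ω ≤ X.u
  lo : c * X.u ≤ b * Y.n ω
  nest : ∀ k x, ‖Y.M ω (k + 1) x‖ ≤ exp (-(2 * b)) * ‖Y.M ω k x‖
  gro : ∀ i k, i ≤ k → ∀ x, ‖Y.M ω i x‖ ≤ exp (Y.la ω k - Y.la ω i) * ‖Y.M ω k x‖
  mono : Monotone (Y.la ω)
  la0 : Y.la ω 0 = 0
  lan : Y.la ω (Y.n ω) ≤ C * X.u
  fine : ∀ k, ‖Y.M ω k‖ ≤ 2 ^ X.u
  thin : ∀ k ≤ Y.n ω, exp (c * X.u) ≤ ‖Y.M ω k‖
  gp : ∀ k x x' t, Y.Gd ω k x t → Y.Gd ω k x' t → ‖Y.M ω k (x - x')‖ ≤ 1 →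
    ‖Y.M ω k (x - x')‖ ≤ exp (-b)

open Classical in
/-- The facts on the space; the bad mass is small on every event of the world. -/
structure Ok0 (r c C b q η : ℝ) : Prop where
  fs : Fn X.P Y.s fun ω => (X.K ω, σ.pos r (X.Z ω))
  hs : ch X.P Y.s X.K ≤ η * X.u
  fM : Fn X.P (fun ω => (Y.n ω, Y.M ω, Y.la ω, Y.Gd ω)) fun ω => (X.K ω, Y.s ω)
  fE : Fn X.P Y.E fun ω => (X.K ω, Y.s ω)
  pe : c ≤ pb X.P Y.E
  bad : (X.P.E fun ω => if Y.E ω then ∑ k ∈ Finset.range (Y.n ω),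
    if Y.Gd ω k (X.N ω) (X.T ω) then (0 : ℝ) else 1 else 0) ≤ q * X.u
  pt : ∀ ω ∈ X.P.S, Y.E ω → Y.Pt0 σ r c C b ω

end Wd

/-- A class that is not flat has boxes. -/
def Feed0 : Prop := OnB fun _ _ _ _ _ σ X => ∀ r, ¬FL σ X r → ∃ c C : ℝ, 0 < c ∧ 1 ≤ C ∧
  ∀ b q η : ℝ, 1 ≤ b → 0 < q → 0 < η → ∀ᶠ n in UF, ∃ Y : Wd (X n), Y.Ok0 σ r c C b q η

def RowF0 : Prop := QA.SD.SpD → Feed0
def RowF1 : Prop := Feed0 → Feed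

theorem rowFeed_of (h0 : RowF0) (h1 : RowF1) : RowFeed := fun d => h1 (h0 d)

end Pool.Agent.MP_4b405e_nt.FB
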