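import Pool.Agent.MP_4b405e_nt.SK.FCov

/-! A vector that is seen by transversal functionals is located by a cheap label. -/

namespace Pool.Agent.MP_4b405e_nt.FC

open Pool.Agent.MP_5168f5_an Pool.Agent.MP_5168f5_an.H19 Pool.Agent.MP_5168f5_an.H17S
  Pool.Agent.MP_5168f5_an.H17F Filter Real Matrix

/-- From sequences to constants. -/
theorem consts {u : ℕ → ℕ} {A : ℕ → Type} (x₀ : ∀ n, A n) (I p : ∀ n, A n → ℝ) {δ : ℝ}
    (h : ∀ x : ∀ n, A n, (Sm u fun n => I n (x n)) → ∀ᶠ n in UF, p n (x n) ≤ δ) :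
    ∃ κ : ℝ, 0 < κ ∧ ∀ᶠ n in UF, ∀ x, I n x ≤ κ * u n → p n x ≤ δ := by
  by_contra k
  push Not at k
  obtain ⟨m, hm, e⟩ := KSA.spill (fun m n => ∃ x, I n x ≤ 1 / (m + 1 : ℝ) * u n ∧ δ < p n x)
    fun m => (not_ev.1 fun v => by
      have := k (1 / (m + 1 : ℝ)) (by positivity)
      refine (frequently_iff_neBot.1 this).ne (empty_mem_iff_bot.1 ?_)
      rw [mem_inf_principal]
      refine v.mono fun n a b => ?_
      obtain ⟨x, b1, b2⟩ := b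
      exact a ⟨x, b1, b2⟩).mono fun n a => not_not.1 a
  have e1 : ∀ n, ∃ x, (∃ x, I n x ≤ 1 / (m n + 1 : ℝ) * u n ∧ δ < p n x) →
      I n x ≤ 1 / (m n + 1 : ℝ) * u n ∧ δ < p n x := fun n => by
    by_cases v : ∃ x, I n x ≤ 1 / (m n + 1 : ℝ) * u n ∧ δ < p n x
    · exact v.imp fun _ a _ => a
    · exact ⟨x₀ n, fun a => absurd a v⟩
  choose x hx using e1
  have e2 := e.mono fun n a => hx n (a _ le_rfl)
  obtain ⟨n, a, b⟩ := ((h x fun ε hε => by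
    filter_upwards [e2, hm.ev (1 / ε)] with n a b
    rw [div_le_iff₀ hε] at b
    refine a.1.trans ?_
    rw [zero_add]
    refine mul_le_mul_of_nonneg_right ?_ (Nat.cast_nonneg _)
    rw [div_le_iff₀ (by positivity)]
    linarith).and e2).exists
  exact absurd a (not_le.2 b.2)

variable {α : Type} [Fintype α]

theorem dot_le (β x : α → ℝ) : |β ⬝ᵥ x| ≤ (∑ a, |β a|) * ‖x‖ := by
  rw [Finset.sum_mul]
  refine (Finset.abs_sum_le_sum_abs _ _).trans (Finset.sum_le_sum fun a _ => ?_)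
  rw [abs_mul]
  exact mul_le_mul_of_nonneg_left (norm_le_pi_norm x a) (abs_nonneg _)

/-- A transversal functional lowers the dimension. -/
theorem cut (V : Submodule ℝ (α → ℝ)) {β χ w : α → ℝ} {x : ℝ} (x0 : 0 < x) (x1 : x ≤ 1 / 4)
    (hw : w ∈ V) (h1 : ‖χ - w‖ ≤ x ^ 16) (h2 : x ^ 4 ≤ ‖χ‖) (h3 : x * ∑ a, |β a| ≤ 1)
    (h4 : x ^ 2 * ‖χ‖ ≤ |β ⬝ᵥ χ|) : ∃ V' : Submodule ℝ (α → ℝ),
      Module.finrank ℝ V' < Module.finrank ℝ V ∧ ∀ y, ∀ v ∈ V, ‖y - v‖ ≤ x ^ 16 →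
        |β ⬝ᵥ y| ≤ 2 * x ^ 12 → ∃ v' ∈ V', ‖y - v'‖ ≤ x ^ 8 := by
  have s0 : 0 ≤ ∑ a, |β a| := Finset.sum_nonneg fun _ _ => abs_nonneg _
  have k : ∀ y v : α → ℝ, ‖y - v‖ ≤ x ^ 16 → |β ⬝ᵥ y - β ⬝ᵥ v| ≤ x ^ 15 := fun y v h => by
    rw [← dotProduct_sub]
    refine (dot_le _ _).trans ((mul_le_mul_of_nonneg_left h s0).trans ?_)
    nlinarith [pow_pos x0 15]
  have p : ∀ {i j : ℕ}, i ≤ j → x ^ j ≤ x ^ i := fun h =>
    pow_le_pow_of_le_one x0.le (by linarith) h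
  have n0 : 0 < ‖χ‖ := (pow_pos x0 4).trans_le h2
  have a1 : x ^ 2 * ‖χ‖ ≤ 2 * |β ⬝ᵥ w| := by
    have b1 := abs_sub_abs_le_abs_sub (β ⬝ᵥ χ) (β ⬝ᵥ w)
    have b2 := k χ w h1
    have b3 := mul_le_mul_of_nonneg_left h2 (pow_pos x0 2).le
    have b4 : x ^ 15 ≤ x ^ 7 := p (by norm_num)
    nlinarith [pow_pos x0 6]
  have a2 : ‖w‖ ≤ 2 * ‖χ‖ := by
    have b1 := norm_sub_norm_le w χ
    rw [norm_sub_rev] at b1
    linarith [p (show 4 ≤ 16 by norm_num)]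
  have a3 : 0 < |β ⬝ᵥ w| := by nlinarith [mul_pos (pow_pos x0 2) n0]
  have a4 : β ⬝ᵥ w ≠ 0 := abs_pos.1 a3
  let L : (α → ℝ) →ₗ[ℝ] ℝ := (dotProductBilin ℝ ℝ) β
  refine ⟨V ⊓ LinearMap.ker L, Submodule.finrank_lt_finrank_of_lt
    (lt_of_le_of_ne inf_le_left fun e => a4 ?_), fun y v hv b1 b2 => ?_⟩
  · exact (e.ge hw).2
  · refine ⟨v - (β ⬝ᵥ v / β ⬝ᵥ w) • w, ⟨V.sub_mem hv (V.smul_mem _ hw), ?_⟩, ?_⟩
    · change β ⬝ᵥ (v - (β ⬝ᵥ v / β ⬝ᵥ w) • w) = 0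
      rw [dotProduct_sub, dotProduct_smul, smul_eq_mul, div_mul_cancel₀ _ a4, sub_self]
    · have c1 : |β ⬝ᵥ v| ≤ 3 * x ^ 12 := by
        have d1 := abs_sub_abs_le_abs_sub (β ⬝ᵥ v) (β ⬝ᵥ y)
        rw [abs_sub_comm] at d1
        linarith [k y v b1, p (show 12 ≤ 15 by norm_num)]
      have c2 : ‖(β ⬝ᵥ v / β ⬝ᵥ w) • w‖ ≤ 12 * x ^ 10 := by
        rw [norm_smul, Real.norm_eq_abs, abs_div, div_mul_eq_mul_div, div_le_iff₀ a3]
        have d1 := mul_le_mul c1 a2 (norm_nonneg _) (by positivity)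
        nlinarith [pow_pos x0 10]
      rw [← sub_add]
      refine (norm_add_le _ _).trans ?_
      have d2 : x ^ 2 ≤ 1 / 16 := by nlinarith
      nlinarith [p (show 10 ≤ 16 by norm_num), pow_pos x0 8]

variable {Ω β γ : ℕ → Type} {P : ∀ n, FP (Ω n)} {u : ℕ → ℕ}

theorem exp_small (hu : Big u) {r c : ℝ} (hr : 0 < r) (hc : 0 < c) :
    ∀ᶠ n in UF, exp (-(r * u n)) ≤ c := by
  filter_upwards [hu.ev (1 / (c * r))] with n a
  rw [div_le_iff₀ (by positivity)] at a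
  have := add_one_le_exp (r * u n)
  rw [exp_neg, inv_le_comm₀ (exp_pos _) hc, inv_eq_one_div, div_le_iff₀ hc]
  nlinarith

theorem exp_pw (r y : ℝ) (k : ℕ) : exp (-(r / 16 * y)) ^ k = exp (-(k * r / 16 * y)) := by
  rw [← exp_nat_mul]; congr 1; ring

/-- The step: a long difference is seen by a functional whose value is cheap. -/
def Step (P : ∀ n, FP (Ω n)) (u : ℕ → ℕ) (C : ∀ n, Ω n → γ n) (W : ∀ n, Ω n → β n)
    (th : ∀ n, γ n → β n → α → ℝ) (E : ∀ n, γ n → β n → Prop) (r : ℝ) : Prop :=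
  ∀ (B : ∀ n, γ n → β n → Prop) (χ : ∀ n, γ n → β n → α → ℝ),
    (∀ n, ∀ ω ∈ (P n).S, B n (C n ω) (W n ω) → E n (C n ω) (W n ω) ∧
      exp (-(r / 4 * u n)) ≤ ‖χ n (C n ω) (W n ω)‖ ∧ ∃ a ∈ (P n).S, ∃ b ∈ (P n).S,
        C n a = C n ω ∧ C n b = C n ω ∧ E n (C n ω) (W n a) ∧ E n (C n ω) (W n b) ∧
        χ n (C n ω) (W n ω) = th n (C n ω) (W n a) - th n (C n ω) (W n b)) →
    (Pos P fun n ω => B n (C n ω) (W n ω)) →
    ∃ (φ : ∀ n, Ω n → α → ℝ) (z : ∀ n, Ω n → ℝ),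
      (Sm u fun n => mi (P n) (fun ω => (φ n ω, z n ω)) (W n) (C n)) ∧
      Pos P fun n ω => B n (C n ω) (W n ω) ∧ ∑ a, |φ n ω a| ≤ exp (r / 16 * u n) ∧
        exp (-(r / 8 * u n)) * ‖χ n (C n ω) (W n ω)‖ ≤ |φ n ω ⬝ᵥ χ n (C n ω) (W n ω)| ∧
        |φ n ω ⬝ᵥ th n (C n ω) (W n ω) - z n ω| ≤ exp (-(3 * r / 4 * u n))

theorem src0 (hu : Big u) {C : ∀ n, Ω n → γ n} {W : ∀ n, Ω n → β n}
    {th : ∀ n, γ n → β n → α → ℝ} {E : ∀ n, γ n → β n → Prop} {R : ℝ}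
    (st : ∀ r, 0 < r → r ≤ R → Step P u C W th E r) (d : ℕ) : ∀ r, 0 < r → r ≤ R →
    ∀ (Λ : ℕ → Type) (s : ∀ n, γ n → β n → Λ n) (G : ∀ n, γ n → β n → Prop),
    (Sm u fun n => ch (P n) (fun ω => s n (C n ω) (W n ω)) (C n)) →
    (Pos P fun n ω => G n (C n ω) (W n ω)) → (∀ n c y, G n c y → E n c y) →
    (∀ᶠ n in UF, ∀ ω ∈ (P n).S, G n (C n ω) (W n ω) → ∃ V : Submodule ℝ (α → ℝ),
      Module.finrank ℝ V < d ∧ ∀ a ∈ (P n).S, ∀ b ∈ (P n).S, C n a = C n ω → C n b = C n ω →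
        s n (C n ω) (W n a) = s n (C n ω) (W n ω) → s n (C n ω) (W n b) = s n (C n ω) (W n ω) →
        G n (C n ω) (W n a) → G n (C n ω) (W n b) → ∃ w ∈ V,
          ‖th n (C n ω) (W n a) - th n (C n ω) (W n b) - w‖ ≤ exp (-(r * u n))) →
    ∃ r', 0 < r' ∧ r' ≤ R ∧ ∃ l : ∀ n, Ω n → α → ℝ, (Sm u fun n => ch (P n) (l n) (C n)) ∧
      Pos P fun n ω => E n (C n ω) (W n ω) ∧
        ‖th n (C n ω) (W n ω) - l n ω‖ ≤ exp (-(r' * u n)) := by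
  classical
  induction d with
  | zero =>
    intro r _ _ Λ s G _ hG _ hV
    obtain ⟨n, ⟨ω, a, b⟩, c⟩ := (hG.ex.and hV).exists
    obtain ⟨V, e, -⟩ := c ω a b
    exact absurd e (Nat.not_lt_zero _)
  | succ d ih =>
    intro r r0 r1 Λ s G hs hG hE hV
    let In : ∀ n, γ n × Λ n → Ω n → Prop := fun n c a =>
      a ∈ (P n).S ∧ C n a = c.1 ∧ s n c.1 (W n a) = c.2 ∧ G n c.1 (W n a)
    let Lg : ∀ n, γ n × Λ n → (α → ℝ) → Prop := fun n c x => exp (-(r / 4 * u n)) ≤ ‖x‖ ∧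
      ∃ a b, In n c a ∧ In n c b ∧ x = th n c.1 (W n a) - th n c.1 (W n b)
    have e1 : ∀ n c, ∃ x, (∃ x, Lg n c x) → Lg n c x := fun n c => by
      by_cases v : ∃ x, Lg n c x
      · exact v.imp fun _ a _ => a
      · exact ⟨0, fun a => absurd a v⟩
    choose χ hχ using e1
    by_cases hw : Whp P fun n ω => G n (C n ω) (W n ω) →
        ∃ x, Lg n (C n ω, s n (C n ω) (W n ω)) x
    · obtain ⟨φ, z, h1, h2⟩ := st r r0 r1 (fun n c y => G n c y ∧ ∃ x, Lg n (c, s n c y) x)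
        (fun n c y => χ n (c, s n c y)) (fun n ω _ h => by
          obtain ⟨k1, a, b, ka, kb, k2⟩ := hχ n _ h.2
          exact ⟨hE _ _ _ h.1, k1, a, ka.1, b, kb.1, ka.2.1, kb.2.1, hE _ _ _ ka.2.2.2,
            hE _ _ _ kb.2.2.2, k2⟩) ((hG.and hw).mono (.of_forall fun _ _ _ h => ⟨h.1, h.2 h.1⟩))
      let T : ∀ n, Λ n × γ n → (α → ℝ) × ℝ → β n → Prop := fun n c x y =>
        ∑ a, |x.1 a| ≤ exp (r / 16 * u n) ∧
        exp (-(r / 8 * u n)) * ‖χ n (c.2, c.1)‖ ≤ |x.1 ⬝ᵥ χ n (c.2, c.1)| ∧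
        |x.1 ⬝ᵥ th n c.2 y - x.2| ≤ exp (-(3 * r / 4 * u n))
      obtain ⟨f, ι, m, k1, k2, -, k4⟩ := coverS hu (fun n ω => (s n (C n ω) (W n ω), C n ω))
        (fun n ω => (φ n ω, z n ω)) W T
        ((h1.add hs).mono (.of_forall fun n => mi_lab _ _ _ _ _))
      refine ih (r / 2) (half_pos r0) (by linarith) (fun n => Λ n × ℕ)
        (fun n c y => (s n c y, ι n (s n c y, c) y))
        (fun n c y => (G n c y ∧ ∃ x, Lg n (c, s n c y) x) ∧ T n (s n c y, c)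
          (φ n (f n (s n c y, c) (ι n (s n c y, c) y)), z n (f n (s n c y, c) (ι n (s n c y, c) y)))
          y) ((hs.add k1).mono (.of_forall fun n => (ch_subadd _ _ _).trans
            (add_le_add le_rfl (ch_label (fun _ _ => k2 _ _ _) _))))
        ((h2.and k4).mono (.of_forall fun _ _ _ h => ⟨h.1.1, h.2 h.1.2⟩))
        (fun n c y h => hE n c y h.1.1) ?_
      filter_upwards [hV, exp_small hu (show 0 < r / 16 by positivity) (show 0 < 1 / 4 by norm_num)]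
        with n v x1 ω hω h
      obtain ⟨V, a1, a2⟩ := v ω hω h.1.1
      obtain ⟨k1, a, b, ka, kb, k2⟩ := hχ n _ h.1.2
      obtain ⟨w, hw, k3⟩ := a2 a ka.1 b kb.1 ka.2.1 kb.2.1 ka.2.2.1 kb.2.2.1 ka.2.2.2 kb.2.2.2
      have q : ∀ (k : ℕ) (t : ℝ), t = k * r / 16 →
          exp (-(r / 16 * u n)) ^ k = exp (-(t * u n)) := fun k t e => by rw [exp_pw, e]
      obtain ⟨V', b1, b2⟩ := cut V (exp_pos _) x1 hw (χ := χ n (C n ω, s n (C n ω) (W n ω)))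
        (by rw [q 16 r (by push_cast; ring), k2]; exact k3)
        (by rw [q 4 (r / 4) (by push_cast; ring)]; exact k1)
        ((mul_le_mul_of_nonneg_left h.2.1 (exp_pos _).le).trans (by rw [← exp_add]; simp))
        (by rw [q 2 (r / 8) (by push_cast; ring)]; exact h.2.2.1)
      refine ⟨V', by omega, fun a ha b hb c1 c2 c3 c4 c5 c6 => ?_⟩
      obtain ⟨c7, c8⟩ := Prod.mk.inj c3
      obtain ⟨c9, c10⟩ := Prod.mk.inj c4
      obtain ⟨w', hw', k4⟩ := a2 a ha b hb c1 c2 c7 c9 c5.1.1 c6.1.1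
      rw [← q 8 (r / 2) (by push_cast; ring)]
      refine b2 _ w' hw' (by rw [q 16 r (by push_cast; ring)]; exact k4) ?_
      have d1 := c5.2.2.2
      have d2 := c6.2.2.2
      simp only [c8, c10] at d1 d2
      simp only [c7, c9] at d1 d2
      rw [q 12 (3 * r / 4) (by push_cast; ring), dotProduct_sub, abs_le]
      constructor <;> linarith [(abs_le.1 d1).1, (abs_le.1 d1).2, (abs_le.1 d2).1, (abs_le.1 d2).2]
    · have e2 : ∀ n c, ∃ x : α → ℝ, (∃ a, In n c a) → ∃ a, In n c a ∧ x = th n c.1 (W n a) :=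
        fun n c => by
          by_cases v : ∃ a, In n c a
          · obtain ⟨a, v⟩ := v
            exact ⟨_, fun _ => ⟨a, v, rfl⟩⟩
          · exact ⟨0, fun a => absurd a v⟩
      choose l hl using e2
      refine ⟨r / 4, by positivity, by linarith, fun n ω => l n (C n ω, s n (C n ω) (W n ω)),
        hs.mono (.of_forall fun n => ch_mono fun a _ b _ e => by
          obtain ⟨e1, e2⟩ := Prod.mk.inj e
          simp only [e1]; rw [e2]), (not_whp hw).mono (.of_forall fun n ω hω h => ?_)⟩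
      rw [Classical.not_imp] at h
      have i1 : In n (C n ω, s n (C n ω) (W n ω)) ω := ⟨hω, rfl, rfl, h.1⟩
      obtain ⟨a, i2, e⟩ := hl n _ ⟨ω, i1⟩
      refine ⟨hE _ _ _ h.1, le_of_not_ge fun v => h.2 ⟨_, v, ω, a, i1, i2, ?_⟩⟩
      exact congrArg _ e

/-- The vector `th` is located by a cheap label. -/
theorem src (hu : Big u) {C : ∀ n, Ω n → γ n} {W : ∀ n, Ω n → β n}
    {th : ∀ n, γ n → β n → α → ℝ} {E : ∀ n, γ n → β n → Prop} {R : ℝ} (hR : 0 < R)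
    (st : ∀ r, 0 < r → r ≤ R → Step P u C W th E r)
    (hE : Pos P fun n ω => E n (C n ω) (W n ω)) :
    ∃ r', 0 < r' ∧ r' ≤ R ∧ ∃ l : ∀ n, Ω n → α → ℝ, (Sm u fun n => ch (P n) (l n) (C n)) ∧
      Pos P fun n ω => E n (C n ω) (W n ω) ∧
        ‖th n (C n ω) (W n ω) - l n ω‖ ≤ exp (-(r' * u n)) :=
  src0 hu st (Fintype.card α + 1) R hR le_rfl (fun _ => Unit) (fun _ _ _ => ()) E
    (Le.of_le fun n => (ch_zero fun _ _ _ _ _ => rfl).le) hE (fun _ _ _ h => h)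
    (.of_forall fun n ω _ _ => ⟨⊤, by simp, fun a _ b _ _ _ _ _ _ _ =>
      ⟨_, trivial, by rw [sub_self, norm_zero]; positivity⟩⟩)

end Pool.Agent.MP_4b405e_nt.FC
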