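import Pool.Agent.MP_4b405e_nt.SK.FSp
import Pool.Agent.MP_4b405e_nt.SK.FAc

/-! The first run on a block system: the context and the variables. -/

namespace Pool.Agent.MP_4b405e_nt.FB

open Pool.Agent.MP_5168f5_an H19 H17S H17F Real Matrix Filter

variable {α ν : Type} [Fintype α] [Fintype ν]

/-- The positions in the group of `q`. -/
def Bc.I1 (σ : Bc α ν) (q : ν) : Type := {p // σ.ps p ∧ σ.cl p = σ.cl q ∧ σ.w p = σ.w q}

/-- The other positions in the class of `q`. -/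
def Bc.I2 (σ : Bc α ν) (q : ν) : Type := {p // σ.ps p ∧ σ.cl p = σ.cl q ∧ σ.w p ≠ σ.w q}

noncomputable instance (σ : Bc α ν) (q : ν) : Fintype (σ.I1 q) :=
  @Subtype.fintype _ _ (Classical.decPred _) _

noncomputable instance (σ : Bc α ν) (q : ν) : Fintype (σ.I2 q) :=
  @Subtype.fintype _ _ (Classical.decPred _) _

namespace Bd

variable (σ : Bc α ν) (X : Bd α ν)

/-- The context of the first run. -/
noncomputable def cx (q : ν) (ω : X.Ω) :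
    X.Kt × X.Vt × (ν → ℝ) × (α → ν → ℝ) × (σ.I2 q → ℝ) × (ν → ℤ) :=
  (X.K ω, X.v ω, σ.oth (σ.cl q) (X.Z ω), X.θ σ ω, fun p => X.Z ω p.1,
    flv 0 (σ.blk (σ.cl q) (X.Z ω)))

/-- The variable of the first run. -/
noncomputable def Bv (q : ν) (ω : X.Ω) : EB.Vv ν (σ.I1 q) :=
  (σ.blk (σ.cl q) (X.Z ω), fun p => X.Z ω p.1)

/-- The law on the atom of the context. -/
noncomputable def At (q : ν) (ω : X.Ω) : FP X.Ω := cv X.P (X.cx σ q) (X.cx σ q ω)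

open Classical in
/-- The error of anti-concentration. -/
noncomputable def ex (r δ : ℝ) (ω : X.Ω) : ℝ := if X.Bad σ r δ ω then 1 else δ

end Bd

/-- Probabilistic facts on the atoms of the context. -/
structure Atoms (σ : Bc α ν) (X : Bd α ν) (q : ν) (e : ℝ) : Prop where
  mem : ∀ ω ∈ X.P.S, ∀ v, v ∈ (X.At σ q ω).S ↔ v ∈ X.P.S ∧ X.cx σ q v = X.cx σ q ω
  ball : ∀ ω ω', X.cx σ q ω = X.cx σ q ω' → ‖X.Bv σ q ω - X.Bv σ q ω'‖ ≤ 1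
  flat : ∀ ε, X.Fl σ (σ.cl q) ε →
    Fintype.card (σ.I1 q) * X.u * lg - ε * (X.u * lg) - Fintype.card ν * (2 * e + 6) - e ≤
      ch X.P (fun ω => flv X.u (X.Bv σ q ω).2) (X.cx σ q)
  top : ∀ ω ∈ X.P.S, hh (X.At σ q ω) (fun v => flv X.u (X.Bv σ q v).2) ≤
    Fintype.card (σ.I1 q) * X.u * lg + 2 * Fintype.card ν
  inf : (X.P.E fun ω => mi (X.At σ q ω) X.T (X.Bv σ q) fun _ => ()) ≤ e
  lv : ∀ ω ∈ X.P.S, ∀ (A : EB.Vv ν (σ.I1 q) → Prop) (W : Finset ℕ),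
    W ⊆ Finset.range (σ.C * X.u) →
    (W.card : ℝ) / (σ.C * X.u : ℕ) * pb (X.At σ q ω) (fun v => A (X.Bv σ q v)) ≤
      pb (X.At σ q ω) fun v => A (X.Bv σ q v) ∧ X.j v ∈ W
  ac : ∀ r δ, 0 ≤ δ → ∀ ω ∈ X.P.S, ∀ (A : EB.Vv ν (σ.I1 q) → Prop) (χ : ℕ → α → ℝ),
    pb (X.At σ q ω) (fun v => A (X.Bv σ q v) ∧ X.Chr (2 * r * X.u) v (χ (X.j v)) ∧
      |∑ a, χ (X.j v) a * (exp (σ.et a * X.j v) * X.b v a)| ≤ exp (-(r * X.u))) ≤
      (X.At σ q ω).E fun v => @ite ℝ (A (X.Bv σ q v)) (Classical.propDecidable _)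
        (X.ex σ r δ v) 0
  ex : ∀ r δ, 0 ≤ δ → X.Ac σ r δ → (X.P.E fun ω => (X.At σ q ω).E (X.ex σ r δ)) ≤ 2 * δ

/-- The facts hold on every space. -/
def RowAt : Prop := ∀ (α ν : Type) [Fintype α] [Fintype ν] (σ : Bc α ν) (X : Bd α ν) (q : ν)
  (e : ℝ), 0 ≤ e → X.Ok σ e → Atoms σ X q e

theorem Bd.ex_nonneg (σ : Bc α ν) (X : Bd α ν) (r : ℝ) {δ : ℝ} (h : 0 ≤ δ) (ω : X.Ω) :
    0 ≤ X.ex σ r δ ω := by
  unfold Bd.ex; split_ifs
  · exact zero_le_one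
  · exact h

end Pool.Agent.MP_4b405e_nt.FB
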