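import Pool.Agent.MP_4b405e_nt.SK.FS0
import Pool.Agent.MP_4b405e_nt.SK.DPin

/-! The first run on a block system: the facts on the atoms of the context. -/

namespace Pool.Agent.MP_4b405e_nt.FB

open Pool.Agent.MP_5168f5_an H19 H17S H17F Real Matrix Filter

variable {α ν : Type} [Fintype α] [Fintype ν] {σ : Bc α ν} {X : Bd α ν} {q : ν} {e : ℝ}

theorem log_cells (u : ℕ) : log (2 * 2 ^ u + 3) ≤ u * lg + 2 := by
  have h1 : (1 : ℝ) ≤ 2 ^ u := one_le_pow₀ one_le_two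
  have h2 : log (2 * 2 ^ u + 3) ≤ log (2 ^ u * 5) := log_le_log (by positivity) (by linarith)
  rw [log_mul (by positivity) (by norm_num), log_pow] at h2
  have h3 : log 5 ≤ 2 := by
    rw [log_le_iff_le_exp (by norm_num)]
    have := add_one_le_exp (1 : ℝ)
    have h4 : exp 2 = exp 1 * exp 1 := by rw [← exp_add]; norm_num
    nlinarith [exp_one_gt_d9]
  unfold lg
  linarith

theorem ch_unit_ball {Ω ι β : Type} [Fintype ι] {P : FP Ω} {x : Ω → ι → ℝ} {G : Ω → β} (u : ℕ)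
    (h : ∀ a ∈ P.S, ∀ b ∈ P.S, G a = G b → ‖x a - x b‖ ≤ 1) :
    ch P (fun ω => flv u (x ω)) G ≤ Fintype.card ι * (u * lg + 2) :=
  (ch_near (L := 2 ^ u) (by positivity) fun a ha b hb k => by
    rw [div_self (by positivity)]; exact h a ha b hb k).trans
    (mul_le_mul_of_nonneg_left (log_cells u) (Nat.cast_nonneg _))

theorem blk_of {r : ℝ} {x : ν → ℝ} {p : ν} (h : σ.cl p = r) : σ.blk r x p = x p := if_pos h

theorem blk_near {x y : ν → ℝ} {r : ℝ} (h : flv 0 (σ.blk r x) = flv 0 (σ.blk r y)) :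
    ‖σ.blk r x - σ.blk r y‖ ≤ 1 := by
  simpa using (norm_sub_lt_of_flv_eq h).le

theorem sub_near {x y : ν → ℝ} {r : ℝ} (h : flv 0 (σ.blk r x) = flv 0 (σ.blk r y)) {ι : Type}
    [Fintype ι] (f : ι → ν) (hf : ∀ i, σ.cl (f i) = r) :
    ‖(fun i => x (f i)) - fun i => y (f i)‖ ≤ 1 :=
  (pi_norm_le_iff_of_nonneg zero_le_one).2 fun i => by
    have := (norm_le_pi_norm _ (f i)).trans (blk_near h)
    rwa [Pi.sub_apply, blk_of (hf i), blk_of (hf i)] at this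

theorem grid_eq {u : ℕ} {x y : ℝ} (hx : ∃ k : ℤ, 2 ^ u * x = k) (hy : ∃ k : ℤ, 2 ^ u * y = k)
    (h : fl1 u x = fl1 u y) : x = y := by
  obtain ⟨m, hm⟩ := hx
  obtain ⟨m', hm'⟩ := hy
  have : m = m' := by simpa [fl1, hm, hm'] using h
  exact mul_left_cancel₀ (pow_pos two_pos u).ne' (by rw [hm, hm', this])

theorem dm_eq (σ : Bc α ν) (q : ν) :
    σ.dm (σ.cl q) = Fintype.card (σ.I1 q) + Fintype.card (σ.I2 q) := by
  classical
  have e1 : Fintype.card (σ.I1 q) =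
      (Finset.univ.filter fun p => σ.ps p ∧ σ.cl p = σ.cl q ∧ σ.w p = σ.w q).card := by
    rw [← Fintype.card_subtype]; exact Fintype.card_congr (Equiv.refl _)
  have e2 : Fintype.card (σ.I2 q) =
      (Finset.univ.filter fun p => σ.ps p ∧ σ.cl p = σ.cl q ∧ σ.w p ≠ σ.w q).card := by
    rw [← Fintype.card_subtype]; exact Fintype.card_congr (Equiv.refl _)
  rw [e1, e2, Bc.dm, ← Finset.card_filter_add_card_filter_not (fun p => σ.w p = σ.w q),
    Finset.filter_filter, Finset.filter_filter]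
  simp only [and_assoc, ne_eq]

theorem card_I1 (σ : Bc α ν) (q : ν) : Fintype.card (σ.I1 q) ≤ Fintype.card ν :=
  Fintype.card_le_of_injective Subtype.val Subtype.val_injective

theorem card_I2 (σ : Bc α ν) (q : ν) : Fintype.card (σ.I2 q) ≤ Fintype.card ν :=
  Fintype.card_le_of_injective Subtype.val Subtype.val_injective

namespace Bd

theorem cx_Y {a b : X.Ω} (h : X.Y σ a = X.Y σ b) : X.cx σ q a = X.cx σ q b := by
  simp only [Y, Prod.mk.injEq] at h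
  simp only [cx, h.1, h.2.1, h.2.2.1, h.2.2.2]

theorem Bv_Y {a b : X.Ω} (h : X.Y σ a = X.Y σ b) : X.Bv σ q a = X.Bv σ q b := by
  simp only [Y, Prod.mk.injEq] at h
  simp only [Bv, h.2.2.1]

theorem ball {ω ω' : X.Ω} (h : X.cx σ q ω = X.cx σ q ω') : ‖X.Bv σ q ω - X.Bv σ q ω'‖ ≤ 1 := by
  have h1 : flv 0 (σ.blk (σ.cl q) (X.Z ω)) = flv 0 (σ.blk (σ.cl q) (X.Z ω')) :=
    congrArg (fun x => x.2.2.2.2.2) h
  exact max_le (blk_near h1) (sub_near h1 (fun p : σ.I1 q => p.1) fun p => p.2.2.1)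

theorem fn_blk {ι : Type} (f : ι → ν) (hf : ∀ i, σ.cl (f i) = σ.cl q) :
    Fn X.P (fun ω i => X.Z ω (f i)) fun ω => σ.blk (σ.cl q) (X.Z ω) := fun _ _ _ _ h =>
  funext fun i => (blk_of (hf i)).symm.trans ((congrFun h (f i)).trans (blk_of (hf i)))

theorem inf (k : X.Ok σ e) : mi X.P X.T (X.Bv σ q) (X.cx σ q) ≤ e := by
  have f1 : Fn X.P (X.Bv σ q) fun ω => σ.blk (σ.cl q) (X.Z ω) :=
    (Fn.rfl _).pair (fn_blk (fun p : σ.I1 q => p.1) fun p => p.2.2.1)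
  have f2 := fn_blk (X := X) (fun p : σ.I2 q => p.1) fun p => p.2.2.1
  have h1 : mi X.P X.T (fun ω => σ.blk (σ.cl q) (X.Z ω)) (X.cx σ q) ≤
      mi X.P X.T (fun ω => σ.blk (σ.cl q) (X.Z ω))
        fun ω => (X.K ω, X.v ω, σ.oth (σ.cl q) (X.Z ω), X.θ σ ω) :=
    mi_cond (fun a _ b _ h => by
        simp only [cx, Prod.mk.injEq] at h ⊢
        exact ⟨h.1, h.2.1, h.2.2.1, h.2.2.2.1⟩)
      fun a ha b hb h => by
        have h3 := f2 a ha b hb (congrArg Prod.fst h)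
        simp only [cx, Prod.mk.injEq] at h ⊢
        exact ⟨h.2.1, h.2.2.1, h.2.2.2.1, h.2.2.2.2, h3, by rw [h.1]⟩
  have h2 : mi X.P (fun ω => σ.blk (σ.cl q) (X.Z ω))
      (fun ω => (σ.oth (σ.cl q) (X.Z ω), X.θ σ ω, X.T ω))
      (fun ω => (X.K ω, X.v ω, σ.oth (σ.cl q) (X.Z ω), X.θ σ ω)) ≤ e :=
    (mi_cond (Fn.fst _ _) fun a _ b _ h => by
      simp only [T, Prod.mk.injEq] at h ⊢
      exact ⟨h.2, h.1.2.2.1, h.1.1, h.1.2.1⟩).trans (k.b2 _)
  refine (mi_mono (f1.left _)).trans (h1.trans ?_)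
  rw [mi_symm]
  exact (mi_mono fun a _ b _ h => congrArg (fun x => x.1.2.2) h).trans h2

theorem flat (e0 : 0 ≤ e) (k : X.Ok σ e) {ε : ℝ} (h : X.Fl σ (σ.cl q) ε) :
    Fintype.card (σ.I1 q) * X.u * lg - ε * (X.u * lg) - Fintype.card ν * (2 * e + 6) - e ≤
      ch X.P (fun ω => flv X.u (X.Bv σ q ω).2) (X.cx σ q) := by
  classical
  obtain ⟨c1, hc⟩ : ∃ c1, c1 = fun ω => (X.K ω, X.v ω, σ.oth (σ.cl q) (X.Z ω), X.θ σ ω) :=
    ⟨_, rfl⟩
  have h1 : mi X.P (fun ω => σ.pos (σ.cl q) (X.Z ω))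
      (fun ω => (σ.oth (σ.cl q) (X.Z ω), X.θ σ ω, X.v ω)) X.K ≤ e := by
    refine le_trans (mi_mono' fun a _ b _ h => funext fun p => ?_)
      ((mi_mono fun a _ b _ h => ?_).trans (k.b2 (σ.cl q)))
    · unfold Bc.pos
      split_ifs with hp
      · exact (blk_of hp.2).symm.trans ((congrFun (congrArg Prod.fst h) p).trans (blk_of hp.2))
      · rfl
    · simp only [T, Prod.mk.injEq] at h ⊢
      exact ⟨h.1.1, h.1.2.1, h.1.2.2.1⟩
  have h2 : ch X.P (fun ω => σ.pos (σ.cl q) (X.Z ω))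
      (fun ω => ((σ.oth (σ.cl q) (X.Z ω), X.θ σ ω, X.v ω), X.K ω)) ≤
      ch X.P (fun ω => σ.pos (σ.cl q) (X.Z ω)) c1 :=
    ch_anti fun a _ b _ h => by
      simp only [hc, Prod.mk.injEq] at h ⊢
      exact ⟨h.2, h.1.2.2, h.1.1, h.1.2.1⟩
  have h3 := ch_tri (P := X.P) (fun ω => σ.pos (σ.cl q) (X.Z ω))
    (fun ω => (flv 0 (σ.blk (σ.cl q) (X.Z ω)), flv X.u fun p : σ.I2 q => X.Z ω p.1)) c1
  have h4 := ch_chain (P := X.P) (fun ω => flv 0 (σ.blk (σ.cl q) (X.Z ω)))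
    (fun ω => flv X.u fun p : σ.I2 q => X.Z ω p.1) c1
  have h5 : ch X.P (fun ω => flv 0 (σ.blk (σ.cl q) (X.Z ω))) c1 ≤
      Fintype.card ν * (e + 2) := by
    refine (ch_near (L := 2 * exp e) (by positivity) fun a ha b hb _ => ?_).trans
      (mul_le_mul_of_nonneg_left ?_ (Nat.cast_nonneg _))
    · rw [pow_zero, div_one]
      refine (pi_norm_le_iff_of_nonneg (by positivity)).2 fun p => ?_
      have a1 := abs_le.1 ((k.pt a ha).zb p)
      have a2 := abs_le.1 ((k.pt b hb).zb p)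
      simp only [Pi.sub_apply, Bc.blk, norm_eq_abs]
      split_ifs
      · rw [abs_le]; constructor <;> linarith [a1.1, a1.2, a2.1, a2.2]
      · simp only [sub_zero, abs_zero]; positivity
    · rw [log_le_iff_le_exp (by positivity), exp_add]
      have a1 := one_le_exp e0
      have a2 : exp 2 = exp 1 * exp 1 := by rw [← exp_add]; norm_num
      have a3 : 7 ≤ exp 2 := by nlinarith [exp_one_gt_d9]
      nlinarith
  have h6 : ch X.P (fun ω => flv X.u fun p : σ.I2 q => X.Z ω p.1)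
      (fun ω => (flv 0 (σ.blk (σ.cl q) (X.Z ω)), c1 ω)) ≤
      Fintype.card (σ.I2 q) * (X.u * lg + 2) :=
    ch_unit_ball X.u fun a _ b _ h =>
      sub_near (congrArg Prod.fst h) (fun p : σ.I2 q => p.1) fun p => p.2.2.1
  have g2 : ∀ a ∈ X.P.S, ∀ b ∈ X.P.S, (flv X.u fun p : σ.I2 q => X.Z a p.1) =
      (flv X.u fun p : σ.I2 q => X.Z b p.1) → (fun p : σ.I2 q => X.Z a p.1) =
        fun p : σ.I2 q => X.Z b p.1 := fun a ha b hb h =>
    funext fun p => grid_eq ((k.pt a ha).zg _) ((k.pt b hb).zg _) (congrFun h p)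
  have h7 : ch X.P (fun ω => σ.pos (σ.cl q) (X.Z ω)) (fun ω => ((flv 0 (σ.blk (σ.cl q) (X.Z ω)),
      flv X.u fun p : σ.I2 q => X.Z ω p.1), c1 ω)) ≤
      ch X.P (fun ω => flv X.u (X.Bv σ q ω).2) (X.cx σ q) := by
    refine ch_le (fun a ha b hb h => funext fun p => ?_) fun a ha b hb h => ?_
    · unfold Bc.pos
      split_ifs with hp
      · by_cases hw : σ.w p = σ.w q
        · exact grid_eq ((k.pt a ha).zg _) ((k.pt b hb).zg _)
            (congrFun (congrArg Prod.fst h) ⟨p, hp.1, hp.2, hw⟩)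
        · exact congrFun (g2 a ha b hb (congrArg (fun x => x.2.1.2) h)) ⟨p, hp.1, hp.2, hw⟩
      · rfl
    · have a1 := g2 a ha b hb (congrArg (fun x => x.1.2) h)
      simp only [hc, cx, Prod.mk.injEq] at h ⊢
      exact ⟨h.2.1, h.2.2.1, h.2.2.2.1, h.2.2.2.2, a1, h.1.1⟩
  have h8 : (Fintype.card (σ.I2 q) : ℝ) ≤ Fintype.card ν := Nat.cast_le.2 (card_I2 σ q)
  have h9 : 0 ≤ (Fintype.card ν : ℝ) * (e + 2) := by positivity
  unfold Fl at h
  rw [dm_eq] at h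
  push_cast at h
  unfold mi at h1
  nlinarith

theorem pb_fin {Ω : Type} (P : FP Ω) (E : Ω → Prop) (j : Ω → ℕ) (W : Finset ℕ) :
    pb P (fun ω => E ω ∧ j ω ∈ W) = ∑ k ∈ W, pb P fun ω => E ω ∧ j ω = k := by
  classical
  unfold pb
  rw [← P.E_sum]
  refine P.E_congr fun ω _ => ?_
  by_cases h : E ω <;> simp [h]

theorem lvl (k : X.Ok σ e) {ω : X.Ω} (hω : ω ∈ X.P.S) (A : EB.Vv ν (σ.I1 q) → Prop)
    (W : Finset ℕ) (hW : W ⊆ Finset.range (σ.C * X.u)) :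
    (W.card : ℝ) / (σ.C * X.u : ℕ) * pb (X.At σ q ω) (fun v => A (X.Bv σ q v)) ≤
      pb (X.At σ q ω) fun v => A (X.Bv σ q v) ∧ X.j v ∈ W := by
  have p0 : 0 < pb X.P fun v => X.cx σ q v = X.cx σ q ω := pb_pos X.P ⟨ω, hω, rfl⟩
  refine le_of_mul_le_mul_left ?_ p0
  have e1 := pb_cE X.P (fun v => X.cx σ q v = X.cx σ q ω) fun v => A (X.Bv σ q v)
  have e2 := pb_cE X.P (fun v => X.cx σ q v = X.cx σ q ω) fun v => A (X.Bv σ q v) ∧ X.j v ∈ W
  have e3 : ∀ v, (∃ v', X.Y σ v' = X.Y σ v ∧ X.cx σ q v' = X.cx σ q ω ∧ A (X.Bv σ q v')) ↔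
      X.cx σ q v = X.cx σ q ω ∧ A (X.Bv σ q v) := fun v =>
    ⟨fun ⟨_, a, b⟩ => by rwa [cx_Y a, Bv_Y a] at b, fun h => ⟨v, rfl, h⟩⟩
  have e4 := fun i hi => k.lv
    (fun y => ∃ v', X.Y σ v' = y ∧ X.cx σ q v' = X.cx σ q ω ∧ A (X.Bv σ q v')) i hi
  simp only [e3] at e4
  rw [mul_left_comm]
  unfold At cv
  rw [e1, e2]
  simp only [← and_assoc]
  rw [pb_fin, div_mul_eq_mul_div, ← nsmul_eq_mul, ← Finset.sum_const, Finset.sum_div]
  refine Finset.sum_le_sum fun i hi => ?_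
  have a1 := Finset.mem_range.1 (hW hi)
  have a2 : (0 : ℝ) < (σ.C * X.u : ℕ) := Nat.cast_pos.2 (Nat.zero_lt_of_lt a1)
  rw [div_le_iff₀' a2, e4 i a1]

theorem acl (k : X.Ok σ e) {r δ : ℝ} (h0 : 0 ≤ δ) {ω : X.Ω} (hω : ω ∈ X.P.S)
    (A : EB.Vv ν (σ.I1 q) → Prop) (χ : ℕ → α → ℝ) :
    pb (X.At σ q ω) (fun v => A (X.Bv σ q v) ∧ X.Chr (2 * r * X.u) v (χ (X.j v)) ∧
      |∑ a, χ (X.j v) a * (exp (σ.et a * X.j v) * X.b v a)| ≤ exp (-(r * X.u))) ≤
      (X.At σ q ω).E fun v => @ite ℝ (A (X.Bv σ q v)) (Classical.propDecidable _)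
        (X.ex σ r δ v) 0 := by
  classical
  have p0 : 0 < pb X.P fun v => X.cx σ q v = X.cx σ q ω := pb_pos X.P ⟨ω, hω, rfl⟩
  refine le_of_mul_le_mul_left ?_ p0
  unfold At cv
  rw [pb_cE, E_cE, pb_cv X.P fun v => (X.Y σ v, X.j v)]
  refine X.P.E_mono fun a ha => ?_
  have mem := mem_cE (E := fun v => (X.Y σ v, X.j v) = (X.Y σ a, X.j a)) ⟨a, ha, rfl⟩
  have x0 := X.ex_nonneg σ r h0 a
  by_contra hc
  obtain ⟨v, hv, a1, a2, a3, -⟩ := ex_of_pb (lt_of_le_of_lt (by split_ifs <;> simp [x0])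
    (not_le.1 hc))
  obtain ⟨v1, v2⟩ := (mem v).1 hv
  have y1 : X.Y σ v = X.Y σ a := congrArg Prod.fst v2
  have y2 : X.j v = X.j a := congrArg Prod.snd v2
  rw [cx_Y y1] at a1
  rw [Bv_Y y1] at a2
  rw [if_pos a1, if_pos a2, ex] at hc
  split_ifs at hc with hb
  · exact hc (pb_le_one _ _)
  · have y3 : X.c v = X.c a := k.fc v v1 a ha (congrArg (fun x => (x.1, x.2.1)) y1)
    refine hb ⟨χ (X.j a), by simpa only [Chr, y2, y3] using a3, (not_le.1 hc).trans_le ?_⟩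
    refine pb_mono fun x hx b => ?_
    have y4 : X.j x = X.j a := congrArg Prod.snd ((mem x).1 hx).2
    have := b.2.2.2
    rwa [show χ (X.j x) = χ (X.j a) by rw [y4]] at this

end Bd

theorem rowAt : RowAt := by
  intro α ν _ _ σ X q e e0 k
  refine ⟨fun ω hω v => mem_cE (E := fun v => X.cx σ q v = X.cx σ q ω) ⟨ω, hω, rfl⟩ v,
    fun _ _ => Bd.ball, fun _ => Bd.flat e0 k, fun ω hω => ?_, ?_,
    fun ω hω A W hW => Bd.lvl k hω A W hW, fun r δ h0 ω hω A χ => Bd.acl k h0 hω A χ,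
    fun r δ h0 A => ?_⟩
  · have mem := mem_cE (E := fun v => X.cx σ q v = X.cx σ q ω) ⟨ω, hω, rfl⟩
    have h1 := ch_unit_ball (P := X.At σ q ω) (x := fun v => (X.Bv σ q v).2) (G := fun _ => ()) X.u
      fun a ha b hb _ => (norm_snd_le _).trans
        (Bd.ball (((mem a).1 ha).2.trans ((mem b).1 hb).2.symm))
    have h2 : (Fintype.card (σ.I1 q) : ℝ) ≤ Fintype.card ν := Nat.cast_le.2 (card_I1 σ q)
    rw [ch_unit] at h1
    linarith
  · refine le_trans (le_of_eq ?_) (Bd.inf (q := q) k)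
    rw [QA.DPin.mi_cv]
    refine X.P.E_congr fun ω _ => ?_
    unfold mi
    rw [ch_unit]
    congr 1
    exact le_antisymm (ch_anti (Fn.fst _ _)) (ch_anti fun a _ b _ h => by simp only [h])
  · classical
    have h1 := KEA.exp X.P (X.cx σ q) fun _ => X.ex σ r δ
    have h2 : X.P.E (X.ex σ r δ) ≤ X.P.E fun ω =>
        @ite ℝ (X.Bad σ r δ ω) (Classical.propDecidable _) 1 0 + δ :=
      X.P.E_mono fun ω _ => by unfold Bd.ex; split_ifs <;> linarith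
    rw [FP.E_add, FP.E_const] at h2
    unfold Bd.Ac pb at A
    unfold Bd.At
    linarith

end Pool.Agent.MP_4b405e_nt.FB
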