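import Pool.Agent.MP_4b405e_nt.SK.FS0

/-! The first run on a block system: one box and the letters. -/

namespace Pool.Agent.MP_4b405e_nt.FB.S1

open Pool.Agent.MP_5168f5_an H19 H17S H17F Real Matrix Finset

variable {α ν : Type} [Fintype α] [Fintype ν] {σ : Bc α ν} {X : Bd α ν}

/-- The column `q` of the letter `a`. -/
def col (X : Bd α ν) (ω : X.Ω) (a : α) (q : ν) : ν → ℝ := fun p => X.ρ ω a p q

/-- A box that sees the positions of class `r`, with level `l`. -/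
structure Box (σ : Bc α ν) (X : Bd α ν) (r : ℝ) (ω : X.Ω) (M : (ν → ℝ) →L[ℝ] (ν → ℝ))
    (l : ℝ) : Prop where
  sup : ∀ x, M x = M (σ.pos r x)
  fine : ‖M‖ ≤ 2 ^ X.u
  up : ∀ a q, q ≠ σ.o → ‖M (col X ω a q)‖ ≤ exp (σ.et a / lg * l)

omit [Fintype α] in
theorem mulVec_eq {μ : Type} [Fintype μ] (A : Matrix ν μ ℝ) (y : μ → ℝ) :
    A *ᵥ y = ∑ q, y q • fun p => A p q := by
  funext p
  simp only [mulVec, dotProduct, Finset.sum_apply, Pi.smul_apply, smul_eq_mul]
  exact sum_congr rfl fun q _ => mul_comm _ _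

theorem R_mulVec (ω : X.Ω) (y : ν → ℝ) :
    X.R ω *ᵥ y = ∑ a, ∑ q, (X.b ω a * y q) • col X ω a q := by
  funext p
  simp only [Bd.R, mulVec, dotProduct, Matrix.sum_apply, Finset.sum_apply, Pi.smul_apply,
    Matrix.smul_apply, smul_eq_mul, col, sum_mul]
  rw [sum_comm]
  exact sum_congr rfl fun a _ => sum_congr rfl fun q _ => by ring

omit [Fintype α] in
theorem norm_sum2 {β γ : Type} [Fintype β] [Fintype γ] (M : (ν → ℝ) →L[ℝ] (ν → ℝ))
    (c : β → γ → ℝ) (v : β → γ → ν → ℝ) {d : ℝ} (h : ∀ a q, |c a q| * ‖M (v a q)‖ ≤ d) :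
    ‖M (∑ a, ∑ q, c a q • v a q)‖ ≤ Fintype.card β * (Fintype.card γ * d) := by
  rw [map_sum]
  refine (norm_sum_le _ _).trans ((sum_le_card_nsmul _ _ (Fintype.card γ * d)
    fun a _ => ?_).trans_eq (by rw [card_univ, nsmul_eq_mul]))
  rw [map_sum]
  refine (norm_sum_le _ _).trans ((sum_le_card_nsmul _ _ d fun q _ => ?_).trans_eq
    (by rw [card_univ, nsmul_eq_mul]))
  rw [map_smul, norm_smul, norm_eq_abs]; exact h a q

omit [Fintype α] in
theorem norm_sum1 {γ : Type} [Fintype γ] (M : (ν → ℝ) →L[ℝ] (ν → ℝ))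
    (c : γ → ℝ) (v : γ → ν → ℝ) {d : ℝ} (h : ∀ q, |c q| * ‖M (v q)‖ ≤ d) :
    ‖M (∑ q, c q • v q)‖ ≤ Fintype.card γ * d := by
  rw [map_sum]
  refine (norm_sum_le _ _).trans ((sum_le_card_nsmul _ _ d fun q _ => ?_).trans_eq
    (by rw [card_univ, nsmul_eq_mul]))
  rw [map_smul, norm_smul, norm_eq_abs]; exact h q

theorem wt_nn (o : σ.Ok) (p : ν) : 0 ≤ σ.wt p := by
  by_cases h : p = σ.o
  · rw [h, o.wo]
  · exact (o.wt0 p h).le

variable {e r l : ℝ} {ω : X.Ω} {M : (ν → ℝ) →L[ℝ] (ν → ℝ)}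

theorem Box.small (B : Box σ X r ω M l) {x : ν → ℝ} {d : ℝ} (h0 : 0 ≤ d)
    (h : ∀ p, σ.ps p → |x p| ≤ d) : ‖M x‖ ≤ 2 ^ X.u * d := by
  rw [B.sup]
  refine (M.le_opNorm _).trans (mul_le_mul B.fine ?_ (norm_nonneg _) (by positivity))
  refine (pi_norm_le_iff_of_nonneg h0).2 fun p => ?_
  unfold Bc.pos
  split_ifs with k
  · exact h p k.1
  · simpa using h0

theorem Box.grade (B : Box σ X r ω M l) (o : σ.Ok) (t : X.Pt σ e ω) {a : α} {q : ν}
    (hq : q ≠ σ.o) (h : M (col X ω a q) ≠ 0) : r * σ.w q = σ.wt q + σ.et a := by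
  by_contra hc
  refine h ?_
  rw [B.sup, ← M.map_zero]
  congr 1
  funext p
  unfold Bc.pos
  split_ifs with k
  · by_contra hz
    obtain ⟨h1, h2⟩ := t.gr a p q hz
    refine hc ?_
    rw [← h1, ← h2 hq, ← k.2, Bc.cl, div_mul_cancel₀ _ (o.w0 p).ne']
  · rfl

theorem Box.m0 (B : Box σ X r ω M l) (t : X.Pt σ e ω) {a : α} {q : ν} (ha : a ≠ σ.τ)
    (hq : ¬σ.ps q) : ‖M (col X ω a q)‖ ≤ 2 ^ X.u * exp (-(2 * X.u)) :=
  B.small (exp_pos _).le fun p hp => t.m0 a p q ha hp hq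

theorem two_pow_exp (u : ℕ) : (2 : ℝ) ^ u * exp (-(2 * u)) ≤ exp (-u) := by
  have h : (2 : ℝ) ^ u ≤ exp u := by
    rw [← mul_one (u : ℝ), exp_nat_mul]
    exact pow_le_pow_left₀ zero_le_two (by linarith [add_one_le_exp (1 : ℝ)]) u
  refine (mul_le_mul_of_nonneg_right h (exp_pos _).le).trans_eq ?_
  rw [← exp_add]; congr 1; ring

/-- A visible letter acts on a position of a lower class. -/
theorem Box.seen (B : Box σ X r ω M l) (o : σ.Ok) (t : X.Pt σ e ω) {a : α} {q : ν} {H : ℝ}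
    (ha : a ≠ σ.τ) (hq : q ≠ σ.o) (hu : 0 < X.u) (hH : H ≤ l)
    (h : exp (σ.et a / lg * (l - H)) ≤ ‖M (col X ω a q)‖) :
    σ.ps q ∧ r * σ.w q = σ.wt q + σ.et a ∧ σ.cl q < r := by
  have h1 : 1 ≤ ‖M (col X ω a q)‖ := (one_le_exp (mul_nonneg (div_pos (o.et0 a) lg_pos).le
    (sub_nonneg.2 hH))).trans h
  have h2 := B.grade o t hq (a := a) fun k => by rw [k, norm_zero] at h1; linarith
  refine ⟨?_, h2, ?_⟩
  · by_contra hp
    have h3 := (B.m0 t ha hp).trans (two_pow_exp _)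
    have h4 : exp (-(X.u : ℝ)) < 1 := by
      rw [exp_lt_one_iff]; have : (0 : ℝ) < X.u := by exact_mod_cast hu
      linarith
    linarith
  · rw [Bc.cl, div_lt_iff₀ (o.w0 q), h2]; linarith [o.et0 a]

/-- Words of length at least two are not seen. -/
theorem Box.word (B : Box σ X r ω M l) (o : σ.Ok) (t : X.Pt σ e ω) {g m A : ℝ}
    (hg : ∀ p q, σ.wt q < σ.wt p → g ≤ σ.wt p - σ.wt q) (hm : ∀ a, σ.et a ≤ m) (hA : 0 ≤ A)
    (hl : l ≤ lg * X.j ω + A) {y : ν → ℝ} (hy : ‖y‖ ≤ 1) :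
    ‖M ((X.R ω * X.W ω) *ᵥ y)‖ ≤ Fintype.card α * (Fintype.card ν *
      (Fintype.card ν * exp (2 * e + m / lg * A - g * X.j ω))) := by
  rw [← mulVec_mulVec, R_mulVec]
  refine norm_sum2 M _ _ fun a s => ?_
  by_cases hz : (X.W ω *ᵥ y) s = 0
  · rw [hz, mul_zero, abs_zero, zero_mul]; positivity
  have hs : s ≠ σ.o := by
    obtain ⟨q, -, hq⟩ := exists_ne_zero_of_sum_ne_zero hz
    have h1 := (t.gW s q (left_ne_zero_of_mul hq)).1
    have h2 := wt_nn o q
    rintro rfl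
    rw [o.wo] at h1; linarith
  have h1 : |(X.W ω *ᵥ y) s| ≤ Fintype.card ν * exp (e - g * X.j ω) := by
    refine (abs_sum_le_sum_abs _ _).trans ((sum_le_card_nsmul _ _ (exp (e - g * X.j ω))
      fun q _ => ?_).trans_eq (by rw [card_univ, nsmul_eq_mul]))
    change |X.W ω s q * y q| ≤ _
    by_cases hw : X.W ω s q = 0
    · rw [hw, zero_mul, abs_zero]; positivity
    rw [abs_mul]
    have h2 : |y q| ≤ 1 := (norm_le_pi_norm y q).trans hy
    refine (mul_le_of_le_one_right (abs_nonneg _) h2).trans ((t.bW s q).trans (exp_le_exp.2 ?_))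
    have := mul_le_mul_of_nonneg_right (hg s q (t.gW s q hw).1) (Nat.cast_nonneg (X.j ω))
    linarith
  have h3 : |X.b ω a| * ‖M (col X ω a s)‖ ≤ exp (e + m / lg * A) := by
    refine (mul_le_mul (t.bb a) (B.up a s hs) (norm_nonneg _) (exp_pos _).le).trans ?_
    rw [← exp_add, exp_le_exp]
    have h4 := mul_le_mul_of_nonneg_left hl (div_pos (o.et0 a) lg_pos).le
    have h5 : σ.et a / lg * (lg * X.j ω + A) = σ.et a * X.j ω + σ.et a / lg * A := by
      have := lg_pos.ne'; field_simp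
    have h6 : σ.et a / lg * A ≤ m / lg * A :=
      mul_le_mul_of_nonneg_right (div_le_div_of_nonneg_right (hm a) lg_pos.le) hA
    linarith
  rw [abs_mul, mul_right_comm]
  refine (mul_le_mul h3 h1 (abs_nonneg _) (exp_pos _).le).trans_eq ?_
  rw [mul_left_comm, ← exp_add]; congr 2; ring

/-- The column `q` seen in the box is an approximate character. -/
theorem Box.chr (B : Box σ X r ω M l) (o : σ.Ok) (t : X.Pt σ e ω) {g : ℝ}
    (hg : ∀ p q, σ.wt q < σ.wt p → g ≤ σ.wt p - σ.wt q) (hl : 0 ≤ l) {q : ν} (hq : q ≠ σ.o)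
    (a a' : α) : ‖M (∑ a'', X.c ω a a' a'' • col X ω a'' q)‖ ≤
      2 * (Fintype.card ν * exp (e + (r * σ.w q - σ.wt q - g) / lg * l)) + exp (-X.u) := by
  have key : ∀ a a', ‖M (∑ s, X.ρ ω a' s q • col X ω a s)‖ ≤
      Fintype.card ν * exp (e + (r * σ.w q - σ.wt q - g) / lg * l) := by
    intro a a'
    refine norm_sum1 M _ _ fun s => ?_
    by_cases hz : X.ρ ω a' s q = 0
    · rw [hz, abs_zero, zero_mul]; positivity
    by_cases hM : M (col X ω a s) = 0
    · rw [hM, norm_zero, mul_zero]; positivity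
    obtain ⟨h1, h2⟩ := t.gr a' s q hz
    have h3 : σ.wt q < σ.wt s := by linarith [o.et0 a']
    have hs : s ≠ σ.o := by
      rintro rfl
      rw [o.wo] at h3; linarith [wt_nn o q]
    have h4 := B.grade o t hs hM
    rw [h2 hq] at h4
    rw [exp_add]
    refine mul_le_mul (t.rb a' s q) ((B.up a s hs).trans (exp_le_exp.2 ?_)) (norm_nonneg _)
      (exp_pos _).le
    exact mul_le_mul_of_nonneg_right (div_le_div_of_nonneg_right
      (by linarith [hg s q h3]) lg_pos.le) hl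
  set D : ν → ℝ := fun p => (X.ρ ω a * X.ρ ω a' - X.ρ ω a' * X.ρ ω a) p q -
    ∑ a'', X.c ω a a' a'' * X.ρ ω a'' p q with hD
  have e1 : ∑ a'', X.c ω a a' a'' • col X ω a'' q = (∑ s, X.ρ ω a' s q • col X ω a s) -
      (∑ s, X.ρ ω a s q • col X ω a' s) - D := by
    funext p
    simp only [hD, col, Finset.sum_apply, Pi.sub_apply, Pi.smul_apply, smul_eq_mul,
      Matrix.sub_apply, mul_apply, mul_comm (X.ρ ω a p _), mul_comm (X.ρ ω a' p _)]
    ring
  have h5 : ‖M D‖ ≤ exp (-X.u) :=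
    (B.small (exp_pos _).le fun p _ => t.lie a a' p q).trans (two_pow_exp _)
  rw [e1, map_sub, map_sub]
  refine (norm_sub_le _ _).trans (add_le_add ((norm_sub_le _ _).trans ?_) h5)
  linarith [key a a', key a' a]

/-- A matrix as a continuous linear map. -/
noncomputable def cm {μ : Type} [Fintype μ] (A : Matrix ν μ ℝ) : (μ → ℝ) →L[ℝ] (ν → ℝ) :=
  LinearMap.toContinuousLinearMap A.mulVecLin

omit [Fintype α] in
theorem cm_apply {μ : Type} [Fintype μ] (A : Matrix ν μ ℝ) (y : μ → ℝ) : cm A y = A *ᵥ y := rfl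

open Classical in
/-- The letter `τ` on the class of `q`. -/
noncomputable def Jm (σ : Bc α ν) (X : Bd α ν) (ω : X.Ω) (q : ν) : (ν → ℝ) →L[ℝ] (ν → ℝ) :=
  cm (Matrix.of fun p s => if σ.cl s = σ.cl q then X.ρ ω σ.τ p s else 0)

open Classical in
/-- The other letters on the positions in the group of `q`. -/
noncomputable def Cm (σ : Bc α ν) (X : Bd α ν) (ω : X.Ω) (q : ν) (b : α → ℝ) :
    (σ.I1 q → ℝ) →L[ℝ] (ν → ℝ) :=
  cm (Matrix.of fun p (s : σ.I1 q) => ∑ a, if a = σ.τ then 0 else b a * X.ρ ω a p s.1)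

theorem Jm_apply (ω : X.Ω) (q : ν) (y : ν → ℝ) :
    Jm σ X ω q y = ∑ s, σ.blk (σ.cl q) y s • col X ω σ.τ s := by
  unfold Jm
  rw [cm_apply, mulVec_eq]
  refine sum_congr rfl fun s _ => funext fun p => ?_
  simp only [Bc.blk, col, Pi.smul_apply, of_apply, smul_eq_mul]
  split_ifs <;> simp

open Classical in
theorem Cm_apply (ω : X.Ω) (q : ν) (b : α → ℝ) (y : σ.I1 q → ℝ) :
    Cm σ X ω q b y =
      ∑ a, ∑ s : σ.I1 q, (if a = σ.τ then 0 else b a * y s) • col X ω a s.1 := by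
  unfold Cm
  rw [cm_apply, mulVec_eq, sum_comm]
  refine sum_congr rfl fun s _ => funext fun p => ?_
  simp only [col, Pi.smul_apply, of_apply, smul_eq_mul, Finset.sum_apply, mul_sum]
  refine sum_congr rfl fun a _ => ?_
  split_ifs <;> ring

theorem cl_ne (o : σ.Ok) {q s : ν} (hq : q ≠ σ.o) (h : σ.cl s = σ.cl q) : s ≠ σ.o := by
  rintro rfl
  have := div_pos (o.wt0 q hq) (o.w0 q)
  rw [Bc.cl, Bc.cl, o.wo, zero_div] at h
  linarith

theorem Box.J_le (B : Box σ X r ω M l) (o : σ.Ok) {q : ν} (hq : q ≠ σ.o) (y : ν → ℝ) :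
    ‖M (Jm σ X ω q y)‖ ≤ Fintype.card ν * (exp l * ‖y‖) := by
  rw [Jm_apply]
  refine norm_sum1 M _ _ fun s => ?_
  unfold Bc.blk
  split_ifs with h
  · have h1 := B.up σ.τ s (cl_ne o hq h)
    rw [o.tau, div_self lg_pos.ne', one_mul] at h1
    rw [mul_comm]
    exact mul_le_mul h1 (norm_le_pi_norm y s) (abs_nonneg _) (exp_pos _).le
  · rw [abs_zero, zero_mul]; positivity

theorem I1_wt (o : σ.Ok) {q : ν} (s : σ.I1 q) : σ.wt s.1 = σ.wt q := by
  have h : σ.wt s.1 / σ.w s.1 = σ.wt q / σ.w q := s.2.2.1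
  rw [s.2.2.2, div_left_inj' (o.w0 q).ne'] at h
  exact h

/-- Only the letters of one weight act on the group of `q`. -/
theorem Box.et_eq (B : Box σ X r ω M l) (o : σ.Ok) (t : X.Pt σ e ω) {q : ν} (hq : q ≠ σ.o)
    {a₀ a : α} (h0 : r * σ.w q = σ.wt q + σ.et a₀) (s : σ.I1 q)
    (h : M (col X ω a s.1) ≠ 0) : σ.et a = σ.et a₀ := by
  have h1 := B.grade o t (cl_ne o hq s.2.2.1) h
  rw [s.2.2.2, I1_wt o s] at h1
  linarith

theorem Box.C_le (B : Box σ X r ω M l) (o : σ.Ok) (t : X.Pt σ e ω) {q : ν} (hq : q ≠ σ.o)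
    {a₀ : α} (h0 : r * σ.w q = σ.wt q + σ.et a₀) {b : α → ℝ} {j : ℕ}
    (hb : ∀ a, |b a| ≤ exp (e - σ.et a * j)) (y : σ.I1 q → ℝ) :
    ‖M (Cm σ X ω q b y)‖ ≤ Fintype.card α * (Fintype.card ν *
      (exp (σ.et a₀ / lg * (l - lg * j) + e) * ‖y‖)) := by
  classical
  rw [Cm_apply]
  refine (norm_sum2 M _ _ (d := exp (σ.et a₀ / lg * (l - lg * j) + e) * ‖y‖)
    fun a s => ?_).trans ?_
  · split_ifs
    · rw [abs_zero, zero_mul]; positivity
    by_cases hM : M (col X ω a s.1) = 0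
    · rw [hM, norm_zero, mul_zero]; positivity
    have h1 := B.up a s.1 (cl_ne o hq s.2.2.1)
    have h2 := hb a
    rw [B.et_eq o t hq h0 s hM] at h1 h2
    rw [abs_mul, mul_right_comm]
    refine mul_le_mul ((mul_le_mul h2 h1 (norm_nonneg _) (exp_pos _).le).trans_eq ?_)
      (norm_le_pi_norm y s) (abs_nonneg _) (exp_pos _).le
    rw [← exp_add]; congr 1
    have := lg_pos.ne'; field_simp; ring
  · have : (Fintype.card (σ.I1 q) : ℝ) ≤ Fintype.card ν := by
      exact_mod_cast Fintype.card_le_of_injective (fun s : σ.I1 q => s.1) Subtype.val_injective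
    gcongr

open Classical in
/-- The action on a difference of two points of one atom. -/
theorem Box.diff (B : Box σ X r ω M l) (t : X.Pt σ e ω) (o : σ.Ok) {q : ν} {y : ν → ℝ}
    (h1 : ∀ s, σ.cl s ≠ σ.cl q → y s = 0) (h2 : ∀ s : σ.I2 q, y s.1 = 0) (hy : ‖y‖ ≤ 1) :
    ‖M (X.R ω *ᵥ y - (X.b ω σ.τ • Jm σ X ω q y + Cm σ X ω q (X.b ω) fun s => y s.1))‖ ≤
      Fintype.card α * (Fintype.card ν * exp (e - X.u)) := by
  have e1 : X.R ω *ᵥ y - (X.b ω σ.τ • Jm σ X ω q y + Cm σ X ω q (X.b ω) fun s => y s.1) =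
      ∑ a, ∑ s, (if a = σ.τ ∨ σ.ps s then 0 else X.b ω a * y s) • col X ω a s := by
    have e2 : X.b ω σ.τ • Jm σ X ω q y =
        ∑ a, ∑ s, (if a = σ.τ then X.b ω a * y s else 0) • col X ω a s := by
      rw [Jm_apply, sum_eq_single σ.τ (fun a _ h => by simp [h]) (by simp), smul_sum]
      refine sum_congr rfl fun s _ => ?_
      rw [if_pos rfl, smul_smul]
      congr 2
      unfold Bc.blk
      split_ifs with k
      · rfl
      · exact (h1 s k).symm
    have e3 : (Cm σ X ω q (X.b ω) fun s => y s.1) =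
        ∑ a, ∑ s, (if a ≠ σ.τ ∧ σ.ps s then X.b ω a * y s else 0) • col X ω a s := by
      rw [Cm_apply]
      refine sum_congr rfl fun a _ => ?_
      have e4 := Finset.sum_subtype_of_mem (s := univ.filter fun p => σ.ps p ∧
        σ.cl p = σ.cl q ∧ σ.w p = σ.w q) (p := fun p => σ.ps p ∧ σ.cl p = σ.cl q ∧ σ.w p = σ.w q)
        (fun s => (if a = σ.τ then 0 else X.b ω a * y s) • col X ω a s)
        fun p hp => (mem_filter.1 hp).2
      have e5 : ∑ s : σ.I1 q, (if a = σ.τ then 0 else X.b ω a * y s.1) • col X ω a s.1 =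
          ∑ s ∈ univ.filter fun p => σ.ps p ∧ σ.cl p = σ.cl q ∧ σ.w p = σ.w q,
            (if a = σ.τ then 0 else X.b ω a * y s) • col X ω a s := by
        rw [← e4]
        exact sum_congr (by
          ext s
          exact ⟨fun _ => mem_subtype.2 (mem_filter.2 ⟨mem_univ _, s.2⟩), fun _ => mem_univ _⟩)
          fun _ _ => rfl
      rw [e5, sum_filter]
      refine sum_congr rfl fun s _ => ?_
      by_cases k1 : a = σ.τ
      · simp [k1]
      by_cases k2 : σ.ps s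
      · by_cases k3 : σ.cl s = σ.cl q
        · by_cases k4 : σ.w s = σ.w q
          · simp [k1, k2, k3, k4]
          · simp [k4, show y s = 0 from h2 ⟨s, k2, k3, k4⟩]
        · simp [k3, h1 s k3]
      · simp [k2]
    rw [R_mulVec, e2, e3, ← sum_add_distrib, ← sum_sub_distrib]
    refine sum_congr rfl fun a _ => ?_
    rw [← sum_add_distrib, ← sum_sub_distrib]
    refine sum_congr rfl fun s _ => ?_
    rw [← add_smul, ← sub_smul]
    congr 1
    by_cases k1 : a = σ.τ <;> by_cases k2 : σ.ps s <;> simp [k1, k2]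
  rw [e1]
  refine norm_sum2 M _ _ fun a s => ?_
  split_ifs with k
  · rw [abs_zero, zero_mul]; positivity
  · rw [not_or] at k
    have h3 : |X.b ω a * y s| ≤ exp e := by
      rw [abs_mul]
      refine (mul_le_of_le_one_right (abs_nonneg _) ((norm_le_pi_norm y s).trans hy)).trans
        ((t.bb a).trans (exp_le_exp.2 ?_))
      have := mul_nonneg (o.et0 a).le (Nat.cast_nonneg (α := ℝ) (X.j ω))
      linarith
    rw [sub_eq_add_neg, exp_add]
    exact mul_le_mul h3 ((B.m0 t k.1 k.2).trans (two_pow_exp _)) (norm_nonneg _) (exp_pos _).le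

end Pool.Agent.MP_4b405e_nt.FB.S1
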