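import Pool.Agent.MP_4b405e_nt.SK.FNoI
import Pool.Agent.MP_4b405e_nt.SK.FAc

/-! A letter seen almost first gives a unit character. -/

namespace Pool.Agent.MP_4b405e_nt.FB

open Pool.Agent.MP_5168f5_an H19 H17S H17F Real Matrix Finset

variable {α ν : Type} [Fintype α] [Fintype ν] {σ : Bc α ν} {X : Bd α ν}

namespace ScA

variable {e r l g D : ℝ} {ω : X.Ω} {ξ : ν → ℝ} {a₀ : α} {q : ν}

omit [Fintype α] [Fintype ν] in
theorem cl_eq (o : σ.Ok) {p : ν} (h : σ.cl p = r) : σ.wt p = r * σ.w p := by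
  rw [← h, Bc.cl, div_mul_cancel₀ _ (o.w0 p).ne']

/-- The weight of a letter that is seen on the column `s`. -/
theorem wt_eq (o : σ.Ok) (t : X.Pt σ e ω) (sup : ∀ p, ξ p ≠ 0 → σ.cl p = r) {a : α} {s : ν}
    (hs : s ≠ σ.o) (h : (ξ ᵥ* X.ρ ω a) s ≠ 0) : r * σ.w s = σ.wt s + σ.et a := by
  obtain ⟨p, -, hp⟩ := exists_ne_zero_of_sum_ne_zero h
  obtain ⟨g1, g2⟩ := t.gr a p s (right_ne_zero_of_mul hp)
  rw [← g1, ← g2 hs, cl_eq o (sup p (left_ne_zero_of_mul hp))]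

/-- Words of length two are small on the column `q`. -/
theorem word2 (o : σ.Ok) (t : X.Pt σ e ω) (sup : ∀ p, ξ p ≠ 0 → σ.cl p = r) (hq : q ≠ σ.o)
    (k0 : r * σ.w q = σ.wt q + σ.et a₀) (l0 : 0 ≤ l) (hg : ∀ a, g ≤ σ.et a / lg)
    (up : ∀ a s, s ≠ σ.o → |(ξ ᵥ* X.ρ ω a) s| ≤ exp (σ.et a / lg * l)) (a a' : α) :
    |(ξ ᵥ* (X.ρ ω a * X.ρ ω a')) q| ≤
      Fintype.card ν * exp (σ.et a₀ / lg * l - g * l + e) := by
  rw [← vecMul_vecMul]
  refine (abs_sum_le_sum_abs _ _).trans ((sum_le_card_nsmul _ _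
    (exp (σ.et a₀ / lg * l - g * l + e)) fun s _ => ?_).trans_eq (by rw [card_univ, nsmul_eq_mul]))
  by_cases h : (ξ ᵥ* X.ρ ω a) s * X.ρ ω a' s q = 0
  · exact (le_of_eq (by rw [h, abs_zero])).trans (exp_pos _).le
  obtain ⟨g1, g2⟩ := t.gr a' s q (right_ne_zero_of_mul h)
  have hs : s ≠ σ.o := fun E => by
    rw [E, o.wo] at g1
    linarith [o.wt0 q hq, o.et0 a']
  have k1 := wt_eq o t sup hs (left_ne_zero_of_mul h)
  rw [g2 hq, k0, g1] at k1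
  have k2 : σ.et a / lg = σ.et a₀ / lg - σ.et a' / lg := by
    rw [← sub_div]; congr 1; linarith
  rw [abs_mul, exp_add]
  refine mul_le_mul ((up a s hs).trans (exp_le_exp.2 ?_)) (t.rb _ _ _) (abs_nonneg _) (exp_pos _).le
  rw [k2, sub_mul]
  linarith [mul_le_mul_of_nonneg_right (hg a') l0]

/-- The column `q` is an approximate character. -/
theorem char2 (o : σ.Ok) (t : X.Pt σ e ω) (sup : ∀ p, ξ p ≠ 0 → σ.cl p = r) (hq : q ≠ σ.o)
    (k0 : r * σ.w q = σ.wt q + σ.et a₀) (l0 : 0 ≤ l) (hg : ∀ a, g ≤ σ.et a / lg)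
    (up : ∀ a s, s ≠ σ.o → |(ξ ᵥ* X.ρ ω a) s| ≤ exp (σ.et a / lg * l))
    (fine : ∑ p, |ξ p| ≤ D) (a a' : α) :
    |∑ a'', X.c ω a a' a'' * (ξ ᵥ* X.ρ ω a'') q| ≤
      2 * (Fintype.card ν * exp (σ.et a₀ / lg * l - g * l + e)) + D * exp (-(2 * X.u)) := by
  have k2 : |(ξ ᵥ* (X.ρ ω a * X.ρ ω a' - X.ρ ω a' * X.ρ ω a - FA.Rm (X.ρ ω) (X.c ω a a'))) q| ≤
      D * exp (-(2 * X.u)) := by
    refine (abs_sum_le_sum_abs _ _).trans ((sum_le_sum (g := fun p => |ξ p| * exp (-(2 * X.u)))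
      fun p _ => ?_).trans ?_)
    · rw [abs_mul]
      refine mul_le_mul_of_nonneg_left ?_ (abs_nonneg _)
      simpa [FA.Rm_apply] using t.lie a a' p q
    · rw [← sum_mul]
      exact mul_le_mul_of_nonneg_right fine (exp_pos _).le
  rw [vecMul_sub, vecMul_sub, Pi.sub_apply, Pi.sub_apply, FA.vec_Rm, abs_le] at k2
  have k3 := abs_le.1 (word2 o t sup hq k0 l0 hg up a a')
  have k4 := abs_le.1 (word2 o t sup hq k0 l0 hg up a' a)
  rw [abs_le]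
  constructor <;> linarith

/-- The character, for one row. -/
theorem core [DecidableEq α] (o : σ.Ok) (t : X.Pt σ e ω) (sup : ∀ p, ξ p ≠ 0 → σ.cl p = r)
    (hq : q ≠ σ.o) (ha : a₀ ≠ σ.τ) (hg : ∀ a, g ≤ σ.et a / lg)
    (up : ∀ a s, s ≠ σ.o → |(ξ ᵥ* X.ρ ω a) s| ≤ exp (σ.et a / lg * l))
    (fine : ∑ p, |ξ p| ≤ D) {z h : ℝ} (z0 : 0 ≤ z) (zl : z ≤ l)
    (ts : exp (σ.et a₀ / lg * (l - z)) ≤ |(ξ ᵥ* X.ρ ω a₀) q|)
    (hh : 2 * (Fintype.card ν * exp (σ.et a₀ / lg * z - g * l + e)) +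
      exp (-(2 * X.u)) * (1 + exp (σ.et a₀ / lg * z)) + D * exp (-(2 * X.u)) ≤ exp (-h))
    (γ : ℝ) (j : ℕ) : ∃ χ, X.Chr h ω χ ∧ ∀ (β : α → ℝ) (s : ℝ),
      |∑ a ∈ univ.erase σ.τ, β a * (ξ ᵥ* X.ρ ω a) q - β σ.τ * γ| ≤
        exp (σ.et a₀ / lg * (l - lg * j) - s) →
      |∑ a, χ a * (exp (σ.et a * j) * β a)| ≤ exp (σ.et a₀ / lg * z - s) := by
  have L0 := lg_pos
  set κ := σ.et a₀ / lg with hκ
  have κ0 : 0 < κ := div_pos (o.et0 _) L0
  have κ1 : κ * lg = σ.et a₀ := div_mul_cancel₀ _ L0.ne'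
  have k0 := wt_eq o t sup hq (abs_pos.1 ((exp_pos _).trans_le ts))
  have k1 : ∀ a, (ξ ᵥ* X.ρ ω a) q ≠ 0 → σ.et a = σ.et a₀ := fun a h => by
    linarith [wt_eq o t sup hq h]
  set y : α → ℝ := fun a => if a = σ.τ then -(γ * exp ((σ.et a₀ - lg) * j)) else
    (ξ ᵥ* X.ρ ω a) q with hy
  have yτ : y σ.τ = -(γ * exp ((σ.et a₀ - lg) * j)) := if_pos rfl
  have ya : ∀ a ∈ univ.erase σ.τ, y a = (ξ ᵥ* X.ρ ω a) q := fun a h =>
    if_neg (ne_of_mem_erase h)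
  set S := ∑ a, |y a| with hS
  have s1 : ∀ a, |y a| ≤ S := fun a =>
    single_le_sum (f := fun a => |y a|) (fun _ _ => abs_nonneg _) (mem_univ a)
  have s2 : exp (κ * (l - z)) ≤ S := by
    refine ts.trans (le_trans (le_of_eq ?_) (s1 a₀))
    rw [ya a₀ (mem_erase.2 ⟨ha, mem_univ _⟩)]
  have S0 : 0 < S := (exp_pos _).trans_le s2
  have s3 : 1 ≤ S := (one_le_exp (mul_nonneg κ0.le (sub_nonneg.2 zl))).trans s2
  have s4 : ∀ w, exp (κ * l + w) ≤ exp (κ * z + w) * S := fun w => by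
    refine le_trans (le_of_eq ?_) (mul_le_mul_of_nonneg_left s2 (exp_pos _).le)
    rw [← exp_add]; congr 1; ring
  refine ⟨fun a => y a / S, ⟨?_, fun a a' => ?_⟩, fun β s hc => ?_⟩
  · simp only [abs_div, abs_of_pos S0]
    rw [← sum_div, div_self S0.ne']
  · simp only [← mul_div_assoc]
    rw [← sum_div, abs_div, abs_of_pos S0, div_le_iff₀ S0]
    have e1 : ∑ a'', X.c ω a a' a'' * y a'' = ∑ a'', X.c ω a a' a'' * (ξ ᵥ* X.ρ ω a'') q -
        X.c ω a a' σ.τ * (ξ ᵥ* X.ρ ω σ.τ) q + X.c ω a a' σ.τ * y σ.τ := by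
      rw [← add_sum_erase _ _ (mem_univ σ.τ), ← add_sum_erase univ
        (fun a'' => X.c ω a a' a'' * (ξ ᵥ* X.ρ ω a'') q) (mem_univ σ.τ),
        sum_congr rfl fun b hb => by rw [ya b hb]]
      ring
    have b1 := char2 o t sup hq k0 (z0.trans zl) hg up fine a a'
    have b2 : |X.c ω a a' σ.τ * (ξ ᵥ* X.ρ ω σ.τ) q| ≤ exp (-(2 * X.u)) * (exp (κ * z) * S) := by
      rw [abs_mul]
      refine mul_le_mul (t.chi a a') ?_ (abs_nonneg _) (exp_pos _).le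
      by_cases hz : (ξ ᵥ* X.ρ ω σ.τ) q = 0
      · rw [hz, abs_zero]; positivity
      · have := s4 0
        rw [add_zero, add_zero] at this
        refine (up _ q hq).trans (le_trans (le_of_eq ?_) this)
        rw [k1 _ hz]
    have b3 : |X.c ω a a' σ.τ * y σ.τ| ≤ exp (-(2 * X.u)) * S := by
      rw [abs_mul]
      exact mul_le_mul (t.chi a a') (s1 _) (abs_nonneg _) (exp_pos _).le
    have b4 := s4 (-(g * l) + e)
    rw [← add_assoc, ← add_assoc, ← sub_eq_add_neg, ← sub_eq_add_neg] at b4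
    have b5 := mul_le_mul_of_nonneg_left b4 (Nat.cast_nonneg (α := ℝ) (Fintype.card ν))
    have D0 : 0 ≤ D * exp (-(2 * X.u)) :=
      mul_nonneg ((sum_nonneg fun _ _ => abs_nonneg _).trans fine) (exp_pos _).le
    have b6 := le_mul_of_one_le_right D0 s3
    have b7 := mul_le_mul_of_nonneg_right hh S0.le
    rw [e1]
    have b8 := abs_le.1 b1
    have b9 := abs_le.1 b2
    have b10 := abs_le.1 b3
    rw [abs_le]
    constructor <;> linarith
  · have e1 : ∑ a, y a / S * (exp (σ.et a * j) * β a) = exp (σ.et a₀ * j) *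
        (∑ a ∈ univ.erase σ.τ, β a * (ξ ᵥ* X.ρ ω a) q - β σ.τ * γ) / S := by
      rw [← add_sum_erase _ _ (mem_univ σ.τ), mul_sub, mul_sum, sub_div, sub_eq_neg_add, sum_div,
        yτ, o.tau]
      congr 1
      · have : exp (σ.et a₀ * j) = exp ((σ.et a₀ - lg) * j) * exp (lg * j) := by
          rw [← exp_add]; congr 1; ring
        rw [this]; ring
      · refine sum_congr rfl fun b hb => ?_
        rw [ya b hb]
        by_cases hz : (ξ ᵥ* X.ρ ω b) q = 0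
        · simp [hz]
        · rw [k1 b hz]; ring
    rw [e1, abs_div, abs_of_pos S0, div_le_iff₀ S0, abs_mul, abs_of_pos (exp_pos _)]
    refine (mul_le_mul_of_nonneg_left hc (exp_pos _).le).trans
      (le_trans (le_of_eq ?_) ((s4 (-s)).trans_eq (by rw [← sub_eq_add_neg])))
    rw [← exp_add, ← κ1]
    congr 1
    ring

end ScA

/-- In a box where the letter `a₀ ≠ τ` is seen almost first, every centre `y` and level `j` give a
unit character that is small on the coefficients of all forms close to the centre. -/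
theorem Wd.acChi [DecidableEq α] [DecidableEq ν] {Y : Wd X} {e r c C a b x g h : ℝ} {ω : X.Ω}
    {i : ℕ} {a₀ : α} {q : ν} (o : σ.Ok) (t : X.Pt σ e ω) (p : Y.Pt σ r c C a b ω)
    (hi : i < Y.n ω) (ts : Y.TS σ x a₀ q ω i) (x0 : 0 ≤ x) (xc : x ≤ c)
    (hg : ∀ a', g ≤ σ.et a' / lg) (g0 : 0 ≤ g)
    (hh : 2 * (Fintype.card ν * exp (σ.et a₀ / lg * (x * X.u) - g * (c * X.u) + e)) +
      exp (-(2 * X.u)) * (1 + exp (σ.et a₀ / lg * (x * X.u))) +
      Fintype.card ν * 2 ^ X.u * exp (-(2 * X.u)) ≤ exp (-h)) (y : ν → ℝ) (j : ℕ) :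
    ∃ χ, X.Chr h ω χ ∧ ∀ (β : α → ℝ) (s : ℝ),
      ‖Y.M ω i (fun p' => ∑ a' ∈ univ.erase σ.τ, β a' * X.ρ ω a' p' q) - β σ.τ • y‖ ≤
        exp (σ.et a₀ / lg * (Y.l ω i - lg * j) - s) →
      |∑ a', χ a' * (exp (σ.et a' * j) * β a')| ≤ exp (σ.et a₀ / lg * (x * X.u) - s) := by
  obtain ⟨k, hk⟩ := NoIA.ex_row (Y.M ω i fun p' => X.ρ ω a₀ p' q) q
  set ξ : ν → ℝ := fun p' => Y.M ω i (Pi.single p' 1) k with hξ
  have row : ∀ a' s, (ξ ᵥ* X.ρ ω a') s = Y.M ω i (fun p' => X.ρ ω a' p' s) k := fun a' s =>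
    (NoIA.row_apply _ _ _).symm
  have u0 : (0 : ℝ) ≤ X.u := Nat.cast_nonneg _
  have lv := (p.lev i hi).1
  have h1 : ∀ p', ξ p' ≠ 0 → σ.cl p' = r := fun p' hp => by
    by_contra hc
    refine hp ?_
    have : σ.pos r (Pi.single p' 1) = 0 := by
      funext s
      by_cases E : s = p'
      · subst E; simp [Bc.pos, hc]
      · simp [Bc.pos, E]
    simp only [hξ]
    rw [p.sup, this, map_zero, Pi.zero_apply]
  have h2 : ∀ a' s, s ≠ σ.o → |(ξ ᵥ* X.ρ ω a') s| ≤ exp (σ.et a' / lg * Y.l ω i) :=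
    fun a' s hs => by
      rw [row]
      exact (norm_le_pi_norm (Y.M ω i fun p' => X.ρ ω a' p' s) k).trans (p.up i hi a' s hs)
  have h3 : ∑ p', |ξ p'| ≤ Fintype.card ν * 2 ^ X.u := by
    refine (sum_le_card_nsmul _ _ ((2 : ℝ) ^ X.u) fun p' _ => ?_).trans_eq
      (by rw [card_univ, nsmul_eq_mul])
    refine (norm_le_pi_norm (Y.M ω i (Pi.single p' 1)) k).trans
      (((Y.M ω i).le_opNorm _).trans ?_)
    rw [Pi.norm_single, norm_one, mul_one]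
    exact p.fine i
  have h4 := mul_le_mul_of_nonneg_left (exp_le_exp.2
    (show σ.et a₀ / lg * (x * X.u) - g * Y.l ω i + e ≤
      σ.et a₀ / lg * (x * X.u) - g * (c * X.u) + e by
        linarith [mul_le_mul_of_nonneg_left lv g0])) (Nat.cast_nonneg (α := ℝ) (Fintype.card ν))
  obtain ⟨χ, c1, c2⟩ := ScA.core (h := h) o t h1 ts.2.1 ts.1 hg h2 h3 (mul_nonneg x0 u0)
    ((mul_le_mul_of_nonneg_right xc u0).trans lv) (by rw [row]; exact ts.2.2.trans hk)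
    (by linarith) (y k) j
  refine ⟨χ, c1, fun β s hc => c2 β s (le_trans (le_of_eq ?_) ((norm_le_pi_norm _ k).trans hc))⟩
  rw [Real.norm_eq_abs, Pi.sub_apply, Pi.smul_apply, smul_eq_mul, NoIA.row_apply]
  congr 2
  simp only [vecMul, dotProduct, mul_sum]
  rw [sum_comm]
  exact sum_congr rfl fun _ _ => sum_congr rfl fun _ _ => by ring

end Pool.Agent.MP_4b405e_nt.FB
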