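import Pool.Agent.MP_4b405e_nt.SK.FSc
import Pool.Agent.MP_4b405e_nt.SK.FS2

/-! Anti-concentration of the forms on an atom of the context. -/

namespace Pool.Agent.MP_4b405e_nt.FB

open Pool.Agent.MP_5168f5_an H19 H17S H17F Real Matrix Finset

variable {α ν : Type} [Fintype α] [Fintype ν] {σ : Bc α ν} {X : Bd α ν}

open Classical in
theorem Cm_single (ω : X.Ω) {q : ν} (s : σ.I1 q) (β : α → ℝ) :
    S1.Cm σ X ω q β (Pi.single s 1) =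
      fun p => ∑ a ∈ univ.erase σ.τ, β a * X.ρ ω a p s.1 := by
  funext p
  unfold S1.Cm
  rw [S1.cm_apply, mulVec_single_one, col_apply, of_apply, ← add_sum_erase _ _ (mem_univ σ.τ),
    if_pos rfl, zero_add]
  exact sum_congr rfl fun a ha => if_neg (ne_of_mem_erase ha)

/-- The field `ac` of the first run. -/
theorem Wd.datAc [DecidableEq ν] {Y : Wd X} {e r c C a b x g r₀ δ r₁ L : ℝ} {ω : X.Ω} {a₀ : α}
    {q : ν} {D : EB.Dat ν (σ.I1 q) ν (X.Vt × (α → ℝ) × ℕ) X.Ω} (o : σ.Ok) (k : X.Ok σ e)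
    (At : Atoms σ X q e) (hω : ω ∈ X.P.S) (p : Y.Pt σ r c C a b ω) (ps : σ.ps q)
    (x0 : 0 ≤ x) (xc : x ≤ c) (hg : ∀ a', g ≤ σ.et a' / lg) (g0 : 0 ≤ g) (δ0 : 0 ≤ δ)
    (hh : 2 * (Fintype.card ν * exp (σ.et a₀ / lg * (x * X.u) - g * (c * X.u) + e)) +
      exp (-(2 * X.u)) * (1 + exp (σ.et a₀ / lg * (x * X.u))) +
      Fintype.card ν * 2 ^ X.u * exp (-(2 * X.u)) ≤ exp (-(2 * r₀ * X.u)))
    (hr : σ.et a₀ / lg * (x * X.u) + r₀ * X.u ≤ r₁)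
    (hP : D.P = X.At σ q ω) (hB : D.B = X.Bv σ q) (hτ : D.τ = X.T) (hj : ∀ θ, D.j θ = θ.2.2)
    (hs : ∀ θ, D.s θ = θ.2.1 σ.τ) (hC : ∀ θ, D.C θ = S1.Cm σ X ω q θ.2.1)
    (hex : D.ex = X.ex σ r₀ δ)
    (hI : ∀ i ∈ D.I, ∃ m < Y.n ω, D.Ξ i = Y.M ω m ∧ D.l i = Y.l ω m ∧ Y.TS σ x a₀ q ω m) :
    D.Ac lg (σ.et a₀ / lg) r₁ L D.P := by
  classical
  intro A i Γ hi
  let s : σ.I1 q := ⟨q, ps, rfl, rfl⟩
  have key : ∀ j : ℕ, ∃ χ, X.Chr (2 * r₀ * X.u) ω χ ∧ ∀ (β : α → ℝ),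
      ‖D.Ξ (i j) (S1.Cm σ X ω q β (Pi.single s 1) - β σ.τ • Γ j (Pi.single s 1))‖ ≤
        exp (σ.et a₀ / lg * (D.l (i j) - lg * j) - r₁) →
      |∑ a', χ a' * (exp (σ.et a' * j) * β a')| ≤ exp (-(r₀ * X.u)) := fun j => by
    obtain ⟨m, m1, m2, m3, m4⟩ := hI _ (hi j)
    obtain ⟨χ, c1, c2⟩ := Wd.acChi o (k.pt ω hω) p m1 m4 x0 xc hg g0 hh
      (Y.M ω m (Γ j (Pi.single s 1))) j
    refine ⟨χ, c1, fun β hc => (c2 β r₁ ?_).trans (exp_le_exp.2 (by linarith))⟩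
    rwa [m2, m3, map_sub, map_smul, Cm_single] at hc
  choose χ c1 c2 using key
  unfold EB.Dat.er
  rw [hP, hB, hτ, hex]
  refine le_trans (pb_mono fun v hv h => ⟨h.1, ?_, ?_⟩) (At.ac r₀ δ δ0 ω hω A χ)
  · obtain ⟨v1, v2⟩ := (At.mem ω hω v).1 hv
    simp only [Bd.cx, Prod.mk.injEq] at v2
    have := c1 (X.j v)
    unfold Bd.Chr at this ⊢
    rwa [k.fc v v1 ω hω (Prod.ext v2.1 v2.2.1)]
  · have h3 := h.2.2.2 (Pi.single s 1)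
    rw [Pi.norm_single, norm_one, mul_one, hs, hC, hj] at h3
    exact c2 (X.j v) (X.b v) h3

end Pool.Agent.MP_4b405e_nt.FB
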