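import Pool.Agent.MP_4b405e_nt.SK.FDefs
import Pool.Agent.MP_5168f5_an.QA.HEn

/-! Sparse heights: closure properties of fairness. -/

namespace Pool.Agent.MP_5168f5_an.QA

open H19 H17S H17F MX Filter Finset

section One

variable {N : ℕ} {Ω α β γ : Type} {P : FP Ω} {g : Sh N Ω} {p : ℝ} {a b c d k : ℕ}

theorem bw_mul (h : a ≤ b) (h' : b ≤ c) (p t : ℝ) : bw p a b t * bw p b c t = bw p a c t :=
  prod_Ico_consecutive _ h h'

theorem bw_pos (h0 : 0 < p) (h1 : p < 1) (a b : ℕ) (t : ℝ) : 0 < bw p a b t :=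
  prod_pos fun j _ => by split_ifs <;> linarith

theorem bw_congr (p : ℝ) (a : ℕ) {t t' : ℝ} (h : fl1 b t = fl1 b t') : bw p a b t = bw p a b t' :=
  prod_congr rfl fun j hj => by
    have := (mem_Ico.1 hj).2
    rw [fl1_eq_of_le (show j + 1 ≤ b from this) h, fl1_eq_of_le this.le h]

theorem cm_mul {A : Ω → α} {B : Ω → β} {C : Ω → γ} (h : Fn P A B) (h' : Fn P B C) {ω : Ω}
    (hω : ω ∈ P.S) : cm P A B ω * cm P B C ω = cm P A C ω := by
  refine mul_left_cancel₀ (pb_val_pos A hω).ne' ?_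
  rw [← mul_assoc, cm_eq, cm_eq, pb_congr (F := fun v => B v = B ω)
    fun v hv => ⟨And.right, fun e => ⟨h v hv ω hω e, e⟩⟩, cm_eq]
  exact pb_congr fun v hv => ⟨fun e => ⟨h v hv ω hω e.1, e.2⟩, fun e => ⟨h' v hv ω hω e.2, e.2⟩⟩

theorem Sh.fnO (P : FP Ω) (g : Sh N Ω) (h : a ≤ b) : Fn P (g.O a) (g.O b) := fun _ _ _ _ e =>
  Prod.ext (congrArg (·.1) e) (fl1_eq_of_le h (congrArg (·.2) e))

theorem fl1_succ (j : ℕ) (t : ℝ) : fl1 (j + 1) t = 2 * fl1 j t ∨ fl1 (j + 1) t = 2 * fl1 j t + 1 := by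
  have := mem_Ico.1 (fl1_mem_Ico (j := j) (i := 1) (x := t) rfl)
  omega

theorem E_ind_div (Q : FP Ω) (E : Ω → Prop) {r : ℝ} (hr : 0 ≤ r) :
    Q.E (fun v => r / pb Q E * @ite ℝ (E v) (Classical.propDecidable _) 1 0) ≤ r := by
  rw [FP.E_mul]
  change r / pb Q E * pb Q E ≤ r
  rw [div_mul_eq_mul_div, mul_div_assoc]
  exact mul_le_of_le_one_right hr (div_self_le_one _)

/-- One digit. -/
theorem E_step (h0 : 0 ≤ p) (h1 : p ≤ 1) (b : ℕ) {o : Ω} (ho : o ∈ P.S) :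
    (cv P (g.O b) (g.O b o)).E (fun v => bw p b (b + 1) (g.z v) / cm P (g.O b) (g.O (b + 1)) v) ≤
      1 := by
  set Q := cv P (g.O b) (g.O b o) with hQ
  have k := add_le_add (E_ind_div Q (fun v => fl1 (b + 1) (g.z v) = 2 * fl1 b (g.z v))
    (sub_nonneg.2 h1)) (E_ind_div Q (fun v => ¬fl1 (b + 1) (g.z v) = 2 * fl1 b (g.z v)) h0)
  rw [← FP.E_add, sub_add_cancel] at k
  refine le_trans (le_of_eq (Q.E_congr fun v hv => ?_)) k
  obtain ⟨v1, v2⟩ := (mem_cv ho v).1 hv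
  have e : ∀ u ∈ Q.S, g.l u = g.l v ∧ fl1 b (g.z u) = fl1 b (g.z v) := fun u hu =>
    Prod.mk.inj (((mem_cv ho u).1 hu).2.trans v2.symm)
  rw [bw, Nat.Ico_succ_singleton, prod_singleton, cm, v2, ← hQ]
  by_cases c : fl1 (b + 1) (g.z v) = 2 * fl1 b (g.z v)
  · rw [if_pos c, if_pos c, if_neg (not_not.2 c), mul_one, mul_zero, add_zero]
    congr 1
    refine pb_congr fun u hu => ?_
    simp only [Sh.O, Prod.mk.injEq, (e u hu).1, (e u hu).2, true_and, c]
  · rw [if_neg c, if_neg c, if_pos c, mul_one, mul_zero, zero_add]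
    congr 1
    refine pb_congr fun u hu => ?_
    have a1 := fl1_succ b (g.z u)
    have a2 := fl1_succ b (g.z v)
    simp only [Sh.O, Prod.mk.injEq, (e u hu).1, (e u hu).2, true_and] at a1 ⊢
    omega

/-- The digits cannot be much less likely than for independent digits. -/
theorem E_bw (P : FP Ω) (g : Sh N Ω) (h0 : 0 ≤ p) (h1 : p ≤ 1) (h : a ≤ b) :
    P.E (fun v => bw p a b (g.z v) / cm P (g.O a) (g.O b) v) ≤ 1 := by
  induction b, h using Nat.le_induction with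
  | base =>
    refine (P.E_mono fun v hv => le_of_eq ?_).trans (P.E_const 1).le
    rw [bw, Ico_self, prod_empty, cm, pb_congr (F := fun _ => True)
      fun u hu => iff_true_intro ((mem_cv hv u).1 hu).2, pb_true, div_one]
  | succ b h ih =>
    refine le_trans ?_ ih
    rw [P.E_congr (G := fun v => bw p a b (g.z v) / cm P (g.O a) (g.O b) v *
      (bw p b (b + 1) (g.z v) / cm P (g.O b) (g.O (b + 1)) v)) fun v hv => by
        rw [div_mul_div_comm, bw_mul h b.le_succ, cm_mul (g.fnO P h) (g.fnO P b.le_succ) hv],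
      KEA.exp P (g.O b) fun _ v => bw p a b (g.z v) / cm P (g.O a) (g.O b) v *
        (bw p b (b + 1) (g.z v) / cm P (g.O b) (g.O (b + 1)) v)]
    refine P.E_mono fun o ho => ?_
    rw [(cv P (g.O b) (g.O b o)).E_congr (G := fun v => bw p a b (g.z o) / cm P (g.O a) (g.O b) o *
      (bw p b (b + 1) (g.z v) / cm P (g.O b) (g.O (b + 1)) v)) fun v hv => by
        obtain ⟨v1, v2⟩ := (mem_cv ho v).1 hv
        rw [bw_congr p a (congrArg (·.2) v2), cm_congr (g.fnO P h v v1 o ho v2) v2], FP.E_mul]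
    exact mul_le_of_le_one_right (div_nonneg (bw_nonneg h0 h1 _ _ _) (cm_pos _ _ ho).le)
      (E_step h0 h1 b ho)

theorem pb_low (P : FP Ω) (g : Sh N Ω) (h0 : 0 ≤ p) (h1 : p ≤ 1) (h : a ≤ b) (s : ℝ) :
    pb P (fun v => ¬bw p a b (g.z v) ≤ Real.exp s * cm P (g.O a) (g.O b) v) ≤ Real.exp (-s) := by
  have m := (markov P (F := fun v => bw p a b (g.z v) / cm P (g.O a) (g.O b) v)
    (fun v hv => div_nonneg (bw_nonneg h0 h1 _ _ _) (cm_pos _ _ hv).le) (Real.exp s)).trans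
    (E_bw P g h0 h1 h)
  rw [Real.exp_neg, ← one_div, le_div_iff₀' (Real.exp_pos _)]
  refine le_trans (mul_le_mul_of_nonneg_left (pb_mono fun v hv e => ?_) (Real.exp_pos _).le) m
  exact (le_div_iff₀ (cm_pos _ _ hv)).2 (not_le.1 e).le

/-- Fairness between two levels. -/
def Fa0 (P : FP Ω) (g : Sh N Ω) (k a b : ℕ) (r : ℝ) (ω : Ω) : Prop :=
  cm P (g.O a) (g.O b) ω ≤ Real.exp r * bw (k : ℝ)⁻¹ a b (g.z ω)

theorem Fa0.mono {r r' : ℝ} {ω : Ω} (h : Fa0 P g k a b r ω) (e : r ≤ r') : Fa0 P g k a b r' ω :=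
  le_trans h (mul_le_mul_of_nonneg_right (Real.exp_le_exp.2 e) (bw_k _ _ _ _))

/-- Fairness passes to all subwindows. -/
theorem fa_sub (P : FP Ω) (g : Sh N Ω) (hk : 2 ≤ k) (e1 : c ≤ a) (e2 : a ≤ b) (e3 : b ≤ d)
    (r s : ℝ) : pb P (fun v => ¬Fa0 P g k a b (r + 2 * s) v) ≤
      pb P (fun v => ¬Fa0 P g k c d r v) + 2 * Real.exp (-s) := by
  have k2 : (2 : ℝ) ≤ k := by exact_mod_cast hk
  have p0 : (0 : ℝ) < (k : ℝ)⁻¹ := by positivity
  have p1 : (k : ℝ)⁻¹ < 1 := inv_lt_one_of_one_lt₀ (by linarith)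
  have l1 := pb_low P g p0.le p1.le e1 s
  have l2 := pb_low P g p0.le p1.le e3 s
  refine le_trans (pb_mono fun v hv e => ?_) (((pb_or _ _ _).trans (add_le_add le_rfl
    ((pb_or _ _ _).trans (add_le_add l1 l2)))).trans_eq (by ring))
  by_contra q
  simp only [not_or, not_not] at q
  obtain ⟨q1, q2, q3⟩ := q
  refine e (le_of_mul_le_mul_left ?_ (mul_pos (bw_pos p0 p1 c a (g.z v)) (bw_pos p0 p1 b d (g.z v))))
  rw [Fa0, ← cm_mul (g.fnO P e1) (g.fnO P (e2.trans e3)) hv,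
    ← cm_mul (g.fnO P e2) (g.fnO P e3) hv, ← bw_mul e1 (e2.trans e3), ← bw_mul e2 e3] at q1
  calc _ ≤ Real.exp s * cm P (g.O c) (g.O a) v * (Real.exp s * cm P (g.O b) (g.O d) v) *
        cm P (g.O a) (g.O b) v := mul_le_mul_of_nonneg_right (mul_le_mul q2 q3
          (bw_pos p0 p1 _ _ _).le (mul_nonneg (Real.exp_pos _).le (cm_pos _ _ hv).le))
          (cm_pos _ _ hv).le
    _ = Real.exp s * Real.exp s * (cm P (g.O c) (g.O a) v * (cm P (g.O a) (g.O b) v *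
        cm P (g.O b) (g.O d) v)) := by ring
    _ ≤ _ := (mul_le_mul_of_nonneg_left q1 (by positivity)).trans_eq (by
        rw [two_mul, Real.exp_add, Real.exp_add]; ring)

end One

section Seq

variable {N : ℕ} {Ω T T' α : ℕ → Type} {P : ∀ n, FP (Ω n)} {g : ∀ n, Sh N (Ω n)}
  {U kf u c d : ℕ → ℕ}

/-- Side information that carries little information. -/
theorem whp_info (hU : Big U) {A : ∀ n, Ω n → T n} {F : ∀ n, Ω n → α n} {K : ∀ n, Ω n → T' n}
    (e : Sm U fun n => mi (P n) (F n) (K n) (A n)) {ε : ℝ} (hε : 0 < ε) : Whp P fun n ω =>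
      cm (P n) (fun v => (K n v, A n v)) (F n) ω ≤ Real.exp (ε * U n) * cm (P n) (A n) (F n) ω := by
  have key : ∀ n, ∀ ω ∈ (P n).S, 0 < cm (P n) (A n) (F n) ω ∧
      0 < cm (P n) (fun v => (K n v, A n v)) (F n) ω := fun n ω hω => ⟨cm_pos _ _ hω, cm_pos _ _ hω⟩
  refine (KSA.mark P U (fun n ω => cm (P n) (A n) (F n) ω /
      cm (P n) (fun v => (K n v, A n v)) (F n) ω + (-Real.log (cm (P n) (A n) (F n) ω) -
      -Real.log (cm (P n) (fun v => (K n v, A n v)) (F n) ω))) ε hU hε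
    (Eventually.of_forall fun n ω hω => by
      obtain ⟨a, b⟩ := key n ω hω
      have := Real.log_le_sub_one_of_pos (div_pos a b)
      rw [Real.log_div a.ne' b.ne'] at this
      linarith)
    ((e.add (hU.sm 1)).mono (Eventually.of_forall fun n => by
      rw [FP.E_add, FP.E_sub, ← ch_eq_cm, ← ch_eq_cm]
      have := cm_ratio (P n) (A n) (F n) (K n)
      unfold mi
      linarith))).mono (.of_forall fun n ω hω v => ?_)
  obtain ⟨a, b⟩ := key n ω hω
  rw [← Real.exp_log a, ← Real.exp_add, ← Real.log_le_iff_le_exp b]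
  linarith [div_pos a b]

/-- A likely event is likely on most fibres. -/
theorem whp_fib {G : ∀ n, Ω n → Prop} (h : Whp P G) (K : ∀ n, Ω n → T n) {δ : ℝ} (hδ : 0 < δ) :
    Whp P fun n o => pb (cv (P n) (K n) (K n o)) (fun v => ¬G n v) ≤ δ := fun ε hε =>
  (h (δ * ε) (by positivity)).mono fun n a => by
    have m := markov (P n) (F := fun o => pb (cv (P n) (K n) (K n o)) fun v => ¬G n v)
      (fun _ _ => pb_nonneg _ _) δ
    rw [← pb_cv] at m
    exact le_of_mul_le_mul_left ((mul_le_mul_of_nonneg_left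
      (pb_mono fun o _ e => (not_le.1 e).le) hδ.le).trans (m.trans a)) hδ

/-- Most values of a context keep the fairness of a window. -/
theorem fa_val {K : ∀ n, Ω n → T n} (hU : Big U) (h : ∀ ε : ℝ, 0 < ε →
      Whp P fun n => Fa0 (P n) (g n) (kf n) (c n) (d n) (ε * U n))
    (e : Sm U fun n => mi (P n) ((g n).O (d n)) (K n) ((g n).O (c n))) :
    ∃ E, Whp P E ∧ ∀ o : ∀ n, Ω n, (∀ᶠ n in UF, o n ∈ (P n).S ∧ E n (o n)) → ∀ ε : ℝ, 0 < ε →
      Whp (fun n => cv (P n) (K n) (K n (o n))) fun n =>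
        Fa0 (cv (P n) (K n) (K n (o n))) (g n) (kf n) (c n) (d n) (ε * U n) := by
  obtain ⟨E, a, b⟩ := whp_diag fun j : ℕ => whp_fib ((h (1 / (j + 1 : ℝ)) (by positivity)).and
    (whp_info hU e (ε := 1 / (j + 1 : ℝ)) (by positivity))) K (δ := 1 / (j + 1 : ℝ)) (by positivity)
  refine ⟨E, a, fun o ho ε hε δ hδ => ?_⟩
  obtain ⟨j, hj⟩ := exists_nat_one_div_lt (lt_min (half_pos hε) hδ)
  filter_upwards [ho, b j] with n x y
  refine le_trans ?_ ((y _ x.2).trans (hj.le.trans (min_le_right _ _)))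
  refine pb_mono fun v hv q r => q ?_
  rw [Fa0, cm_cv _ _ _ x.1 hv, cm_ctx (Θ' := fun u => (K n u, (g n).O (c n) u))
    ((Fn.snd _ _).pair (Fn.fst _ _)) ((Fn.snd _ _).pair (Fn.fst _ _)) _ (cE_sub hv)]
  refine r.2.trans ((mul_le_mul_of_nonneg_left r.1 (Real.exp_pos _).le).trans ?_)
  rw [← mul_assoc, ← Real.exp_add]
  refine mul_le_mul_of_nonneg_right (Real.exp_le_exp.2 ?_) (bw_k _ _ _ _)
  nlinarith [hj.le.trans (min_le_left _ _), Nat.cast_nonneg (α := ℝ) (U n)]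

/-- Fairness of one window gives fairness of all subwindows in all units above a threshold. -/
theorem fa_slow (h : ∀ ε : ℝ, 0 < ε →
      Whp P fun n => Fa0 (P n) (g n) (kf n) (c n) (d n) (ε * sU kf u n)) :
    ∃ M₀ : ℕ → ℝ, Sm u M₀ ∧ ∀ u' : ℕ → ℕ, Sm u' M₀ → Two kf u' → ∀ a b : ℕ → ℕ,
      (∀ᶠ n in UF, c n ≤ a n ∧ a n ≤ b n ∧ b n ≤ d n) → ∀ ε : ℝ, 0 < ε →
      Whp P fun n => Fa0 (P n) (g n) (kf n) (a n) (b n) (ε * sU kf u' n) := by
  obtain ⟨k, k1, k2⟩ := KSA.spill _ fun m : ℕ =>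
    h (1 / (m + 1 : ℝ)) (by positivity) (1 / (m + 1 : ℝ)) (by positivity)
  refine ⟨fun n => 1 / (k n + 1 : ℝ) * u n, fun ε hε => (R4.K31.small hε k1).mono fun n a => ?_,
    fun u' hu w a b e ε hε δ hδ => ?_⟩
  · linarith [mul_le_mul_of_nonneg_right a (Nat.cast_nonneg (α := ℝ) (u n))]
  have e4 : 0 < ε / 4 := by positivity
  filter_upwards [k2, R4.K31.small (half_pos hδ) k1, hu _ e4, e, w.le, w.bk.ev 2,
    AN.G39.dl_lt w.bU (half_pos (half_pos hδ)) e4] with n f p q z y k0 l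
  have m := fa_sub (P n) (g n) (k := kf n) (by exact_mod_cast k0) z.1 z.2.1 z.2.2
    (1 / (k n + 1 : ℝ) * sU kf u n) (ε / 4 * sU kf u' n)
  refine le_trans ?_ (m.trans ?_)
  · refine pb_mono fun v _ x t => x (Fa0.mono t ?_)
    have h1 := mul_le_mul_of_nonneg_left (sU_le kf u n) (show 0 ≤ 1 / (k n + 1 : ℝ) by positivity)
    have h2 : 1 / (k n + 1 : ℝ) * ((u n : ℝ) / kf n) ≤ ε / 4 * ((u' n : ℝ) / kf n) := by
      rw [← mul_div_assoc, ← mul_div_assoc]
      exact div_le_div_of_nonneg_right (by linarith) (Nat.cast_nonneg _)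
    linarith [mul_le_mul_of_nonneg_left y e4.le]
  · rw [AN.G39.dl] at l
    linarith [f _ le_rfl]

end Seq

end Pool.Agent.MP_5168f5_an.QA
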