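import Pool.Agent.MP_4b405e_nt.SK.SpH
import Pool.Agent.MP_4b405e_nt.SK.CFr

/-! Sparse slopes: the world with one loss. -/

namespace Pool.Agent.MP_5168f5_an.QA.SH

open H19 H17S H17F R4 AN Filter Matrix Finset
open GA (Mt IsFr mB mC sC)
open P7 (Kc)
open Cp (Hw Cs Zd Cap kc)
open LC (ex_le)

variable {ι κ α : Type} [Fintype ι] [DecidableEq ι] [Fintype κ] [DecidableEq κ] [Fintype α]

section One

variable {Ω Λ : Type} {σ : Kc ι κ} {Y : P7.Cd ι κ Ω Λ}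

theorem rr_eq (f : Y.Fr σ) {ω v : Ω} (p : ω ∈ Y.P.S) (q : v ∈ Y.P.S) (a : ℚ≥0) (b e : κ) :
    Y.rr σ a ω v b e = Real.exp ((vt σ e - vt σ b) * (a * Y.M)) * Y.R ω v b e := by
  unfold P7.Cd.rr
  by_cases z : b = e
  · simp [z]
  by_cases r : Y.R ω v b e = 0
  · simp [r]
  have := (((f ω p).2.2 v q).2.2.2 b e (by rwa [one_apply_ne z])).1
  congr 3
  unfold vt
  linarith

/-- Robustness passes from a level to a slightly larger depth. -/
theorem rob_sh (f : Y.Fr σ) {a : ℚ≥0} {u w w' s D δ : ℝ} (L1 : 1 ≤ σ.L)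
    (v0 : ∀ b, 0 ≤ vt σ b ∧ vt σ b ≤ s) (d0 : a * Y.M ≤ D) (d1 : D ≤ a * Y.M + δ) (ww : w ≤ w')
    (al : ∀ ω ∈ Y.P.S, Y.Alg σ u w' ω) (rb : Y.Rob σ a u w') {ω : Ω} (p : ω ∈ Y.P.S) {h : ℝ}
    (hw : h ≤ w) {l : κ → ℝ} {m : ℝ} (l1 : ∑ e, |l e| = 1)
    (l2 : ∀ e, l e ≠ 0 → 0 < σ.mu e ∧ σ.mu e = m)
    (l3 : ∀ b b', 0 < σ.mu b → 0 < σ.mu b' → |∑ e, Y.c ω b b' e * l e| ≤ Real.exp (-h)) :
    pb (cv Y.P (Y.O false a) (Y.O false a ω)) (fun v => ∀ b, σ.G1 b →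
      |∑ e, l e * (Real.exp ((vt σ e - vt σ b) * D) * Y.R ω v b e)| ≤ Real.exp (-h)) ≤
      Real.exp (u + 2 * s * δ + 1 - h / σ.L) := by
  obtain ⟨θ, rfl⟩ : ∃ θ, D = a * Y.M + θ := ⟨D - a * Y.M, by ring⟩
  have t0 : 0 ≤ θ := by linarith
  have t1 : θ ≤ δ := by linarith
  have s0 : 0 ≤ s := (v0 σ.τ).1.trans (v0 σ.τ).2
  have sd : 0 ≤ s * δ := mul_nonneg s0 (t0.trans t1)
  have b1 : ∀ b, vt σ b * θ ≤ s * δ := fun b => mul_le_mul (v0 b).2 t1 t0 s0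
  obtain ⟨Z, hZ⟩ : ∃ Z, Z = ∑ e, |l e| * Real.exp (vt σ e * θ) := ⟨_, rfl⟩
  have Z1 : 1 ≤ Z := by
    rw [hZ, ← l1]
    exact sum_le_sum fun e _ => le_mul_of_one_le_right (abs_nonneg _)
      (Real.one_le_exp (mul_nonneg (v0 e).1 t0))
  have Z0 : 0 < Z := zero_lt_one.trans_le Z1
  have cut : ∀ x : ℝ, |Z⁻¹ * x| ≤ |x| := fun x => by
    rw [abs_mul, abs_of_pos (inv_pos.2 Z0)]
    exact mul_le_of_le_one_left (abs_nonneg _) (inv_le_one_of_one_le₀ Z1)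
  refine le_trans (pb_mono fun v hv k b g => ?_) ((rb ω p (h - (2 * s * δ + 1)) (by linarith)
    (fun e => Z⁻¹ * (l e * Real.exp (vt σ e * θ))) m ?_ (fun e z => l2 e
      (left_ne_zero_of_mul (right_ne_zero_of_mul z))) fun b b' x y => ?_).trans (ex_le ?_))
  · have g0 : vt σ b = 0 := sub_eq_zero.2 g.2
    simp only [mul_assoc, ← mul_sum]
    refine (cut _).trans (le_trans (le_of_eq ?_) ((k b g).trans (ex_le (by linarith))))
    refine congrArg _ (sum_congr rfl fun e _ => ?_)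
    rw [rr_eq f p ((MX.mem_cv p v).1 hv).1, ← mul_assoc (Real.exp _), ← Real.exp_add, g0]
    congr 3
    ring
  · simp only [abs_mul, abs_of_pos (inv_pos.2 Z0), Real.abs_exp, ← mul_sum]
    rw [← hZ, inv_mul_cancel₀ Z0.ne']
  · simp only [mul_left_comm _ Z⁻¹, ← mul_sum]
    refine (cut _).trans ?_
    have e2 : Real.exp ((vt σ b + vt σ b') * θ) ≤ Real.exp (2 * s * δ) :=
      ex_le (by linarith [b1 b, b1 b'])
    have q := Cp.l1_le (x := fun e => Y.c ω b b' e *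
        (Real.exp (vt σ e * θ) - Real.exp ((vt σ b + vt σ b') * θ)))
      (Real.exp_pos (-h + 2 * s * δ)).le l1.le fun e z => by
        by_cases r : vt σ e = vt σ b + vt σ b'
        · rw [r, sub_self, mul_zero, abs_zero]; positivity
        refine Cp.Nm5.mul_le (((al ω p).gr b b' e (l2 e z).1 fun r' => r ?_).trans
          (ex_le (by linarith))) ?_
        · unfold vt; linarith [r'.2.2.1, r'.2.2.2]
        · have := Real.exp_pos (vt σ e * θ)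
          have := Real.exp_pos ((vt σ b + vt σ b') * θ)
          have := ex_le (show vt σ e * θ ≤ 2 * s * δ by linarith [b1 e])
          rw [abs_le]
          constructor <;> linarith
    have q' := Cp.Nm5.mul_le ((Real.abs_exp _).trans_le e2) (l3 b b' x y)
    rw [show ∑ e, Y.c ω b b' e * (l e * Real.exp (vt σ e * θ)) =
        Real.exp ((vt σ b + vt σ b') * θ) * ∑ e, Y.c ω b b' e * l e + ∑ e, Y.c ω b b' e *
          (Real.exp (vt σ e * θ) - Real.exp ((vt σ b + vt σ b') * θ)) * l e by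
      rw [mul_sum, ← sum_add_distrib]
      exact sum_congr rfl fun e _ => by ring]
    refine (abs_add_le _ _).trans ?_
    rw [add_comm (2 * s * δ)] at q'
    rw [show -(h - (2 * s * δ + 1)) = -h + 2 * s * δ + 1 by ring, Real.exp_add _ 1]
    nlinarith [Real.add_one_le_exp 1, Real.exp_pos (-h + 2 * s * δ)]
  · have : (2 * s * δ + 1) / σ.L ≤ 2 * s * δ + 1 := div_le_self (by linarith) L1
    rw [sub_div]
    linarith

end One

/-- The world attached to the zoomed system, with `N` cells per unit. -/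
noncomputable def wo {Ω Λ L Γ : Type} (X : Zd ι κ α Ω Λ L Γ) (F F' : Matrix κ κ ℝ)
    (u u' : Ω → Matrix κ κ ℝ) (τ : κ) (k N : ℕ) (e w f : ℝ) : Wo ι κ :=
  ⟨Ω, Λ, Λ, L, Γ, X.P, X.M, X.W, X.c₀, k, e, w, f, X.ka * F' τ τ, X.g,
    fun ω => mB (u ω * F) (X.B ω), fun ω => mC (u ω * F) (F' * u' ω) (X.c ω),
    fun ω v => u v * u' ω, X.O true 0, fun D => X.O false ((D * N / X.M : ℕ) / N), X.l, X.zz, X.T⟩

variable {Ω Λ L Γ : ℕ → Type} {σ : Cs ι κ α} {X : ∀ n, Zd ι κ α (Ω n) (Λ n) (L n) (Γ n)}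
  {mm ϑ La D s₀ : ℝ} {vt : κ → ℝ} {F F' : ℕ → Matrix κ κ ℝ} {u u' : ∀ n, Ω n → Matrix κ κ ℝ}

/-- The number of levels is large. -/
theorem wide (H : Cap σ X mm ϑ La D s₀ vt F F' u u') (T : ℝ) :
    ∀ᶠ n in UF, T * (X n).M ≤ (X n).W := by
  filter_upwards [H.fr.blk, H.ww.ent H.fr (T + 2), H.ent one_pos, H.wide 1 one_pos,
    G39.big_dl H.ww.big (Fintype.card κ + 1) one_pos] with n k1 k2 k3 k4 k5
  rw [G39.dl_inv] at k5
  obtain ⟨o, ho⟩ : ∃ ω, ω ∈ (X n).P.S :=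
    nonempty_of_sum_ne_zero ((X n).P.sum_one.trans_ne one_ne_zero)
  have q := Cp.Nm5.sum_le (x := 0) (y := 1 * (X n).M + (-((T + 2) * (X n).M) + 1 * (X n).W)) k5
    (by rw [abs_zero]; positivity)
    (f := fun e => (u n o * F n) σ.τ e * (F' n * u' n o) e σ.τ) fun e =>
      Cp.Nm5.mul_le (k3 o ho σ.τ e).1 ((k2 o ho e σ.τ).trans (by
        rw [Real.exp_add]
        exact mul_le_mul_of_nonneg_left k4.1 (Real.exp_pos _).le))
  rw [zero_add, ← mul_apply, (k1 o ho).1, one_apply_eq, abs_one, Real.one_le_exp_iff] at q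
  linarith

theorem ko (H : Cap σ X mm ϑ La D s₀ vt F F' u u') : Ko (kc σ La (σ.m - σ.be / 2) vt) := by
  have e : ∀ a, SH.vt (kc σ La (σ.m - σ.be / 2) vt) a = vt a := fun a => add_sub_cancel_left _ _
  have tz : ∀ a, σ.pos a ∧ vt a = 0 ↔ a = σ.τ := fun a =>
    ⟨fun p => H.ww.tz H.fr p.1 p.2, fun p => p ▸ ⟨H.ww.ok.tau, H.fr.tau⟩⟩
  refine ⟨H.ww.ok.m0, fun a => e a ▸ (H.fr.v0 a).1, fun a p => e a ▸ H.fr.dead a p, H.ww.ok.live,
    fun a => e a ▸ tz a, le_max_left _ _, H.lgτ, ?_⟩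
  refine (sub_lt_self _ (half_pos H.be0)).trans_eq (sum_congr ?_ fun _ _ => rfl)
  ext a
  simp only [mem_filter, mem_univ, true_and]
  exact and_congr_right fun p => ⟨fun q => e a ▸ (H.fr.v0 a).1.lt_of_ne' fun r =>
    q ((tz a).1 ⟨p, r⟩), fun q r => q.ne' ((e a).trans ((tz a).2 r).2)⟩

theorem wo_ok (H : Cap σ X mm ϑ La D s₀ vt F F' u u') {m : ℝ}
    (hm : ∀ᶠ n in UF, ∃ G : Finset (Γ n), (G.card : ℝ) ≤ Real.exp ((σ.m - σ.be / 2) * (X n).W) ∧
      ∀ ω ∈ (X n).P.S, m ≤ pb (cv (X n).P ((X n).Q 0) ((X n).Q 0 ω)) fun v => (X n).T v ∈ G)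
    {c : ℝ} (hc : 0 < c) (T : ℝ) (hT : 0 ≤ T) : ∃ N : ℕ, ∀ᶠ n in UF,
      (wo (X n) (F n) (F' n) (u n) (u' n) σ.τ (σ.kf n) N (c * (X n).M) (T * (X n).M)
        (c * (X n).W)).Ok (kc σ La (σ.m - σ.be / 2) vt) m := by
  have w := H.ww
  have f := H.fr
  have s0 : 0 ≤ s₀ := (f.v0 σ.τ).1.trans (f.v0 σ.τ).2
  obtain ⟨N, hN⟩ := exists_nat_gt (8 * s₀ / c)
  have N0 : (0 : ℝ) < N := lt_of_le_of_lt (by positivity) hN
  have N1 : 0 < N := by exact_mod_cast N0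
  have c2 := half_pos hc
  have ev : ∀ a, SH.vt (kc σ La (σ.m - σ.be / 2) vt) a = vt a := fun a => add_sub_cancel_left _ _
  have ev' : ∀ a, SH.vt (kc σ La D vt) a = vt a := fun a => add_sub_cancel_left _ _
  refine ⟨N, ?_⟩
  filter_upwards [hm, H.ok c hc T, w.rf f, w.ra f c hc T, w.ra f _ c2 T, H.algL c hc T,
    H.acL c hc T, H.incL c hc T, H.ttL c hc T, H.locL c hc T, H.wide c hc, wide H 1, w.bot, f.ex,
    H.two.bk.ev 2, H.two.bU.ev c⁻¹, w.big.ev (4 / c),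
    Cp.ev_le' (m := 2 * N) fun i _ => w.com (i / N),
    Cp.ev_le' (m := 2 * N) fun i _ => w.one (i / N),
    Cp.ev_le' (m := 2 * N) fun i _ => w.ri f (i / N) _ c2 T,
    Cp.ev_le' (m := 2 * N) fun i _ => w.rr f (i / N) _ c2 T,
    Cp.ev_le' (m := 2 * N) fun i' _ => Cp.ev_le' (m := i') fun i b => w.nest false (i / N) (i' / N)
      (div_le_div_of_nonneg_right (by exact_mod_cast b) (by positivity))]
    with n cn ok rf ra ra2 alL ac inc tt loc wd MW bot ex k2 kU M4 com one ri rr nest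
  have M0 : (0 : ℝ) < (X n).M := lt_of_lt_of_le (by positivity) M4
  have M1 : 0 < (X n).M := by exact_mod_cast M0
  have cM : 4 ≤ c * (X n).M := (div_le_iff₀' hc).1 M4
  have TM : 0 ≤ T * (X n).M := mul_nonneg hT M0.le
  have eW : c * (X n).M ≤ c * (X n).W := mul_le_mul_of_nonneg_left (by linarith) hc.le
  have lv : ∀ d ≤ 2 * (X n).M, d * N / (X n).M ≤ 2 * N := fun d p =>
    Nat.div_le_of_le_mul (by nlinarith)
  have sd : 2 * s₀ * ((X n).M / N) ≤ c / 4 * (X n).M := by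
    rw [div_lt_iff₀ hc] at hN
    rw [← mul_div_assoc, div_le_iff₀ N0]
    nlinarith
  have dp : ∀ d : ℕ, ((((d * N / (X n).M : ℕ) : ℚ≥0) / N : ℚ≥0) : ℝ) * (X n).M ≤ d ∧
      (d : ℝ) ≤ ((((d * N / (X n).M : ℕ) : ℚ≥0) / N : ℚ≥0) : ℝ) * (X n).M + (X n).M / N :=
    fun d => by
      have a1 : ((d * N / (X n).M : ℕ) : ℝ) * (X n).M ≤ d * N := by
        exact_mod_cast Nat.div_mul_le_self _ _
      have a2 : (d : ℝ) * N ≤ ((d * N / (X n).M : ℕ) : ℝ) * (X n).M + (X n).M := by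
        exact_mod_cast (Nat.lt_div_mul_add M1).le
      rw [NNRat.cast_div, NNRat.cast_natCast, NNRat.cast_natCast, div_mul_eq_mul_div, ← add_div,
        div_le_iff₀ N0, le_div_iff₀ N0]
      exact ⟨a1, a2⟩
  have Fe : ∀ y : ℝ, (X n).F * Real.exp (-(T * (X n).M) - y) ≤ Real.exp (c * (X n).W - y) :=
    fun y => (mul_le_mul_of_nonneg_right wd.1 (Real.exp_pos _).le).trans (by
      rw [← Real.exp_add]; exact ex_le (by linarith))
  refine ⟨⟨by exact_mod_cast k2, ?_, eW⟩, fun ω p => ⟨ok.unit ω p, (rf ω p).2.1, fun v q e => ?_,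
      fun v q => ?_, fun v q => ((rf ω p).2.2 v q).2.2.1, fun v q x _ => ?_, fun v q b e z => ?_⟩,
    fun ω p => ⟨(ra ω p).ob, fun a b e x y => (ra ω p).gr a b e x fun r => y ⟨⟨r.1, r.2.1, r.2.2.1⟩,
      ?_⟩, alL ω p _ (Nat.cast_nonneg _) le_rfl, (ra ω p).g0, (ra ω p).chi, (ra ω p).pat⟩,
    ok.top, fun ω p v q _ => ok.z0 ω p v q, fun ω p v q _ => ?_,
    fun d p => (com _ (lv d p)).trans (one _ (lv d p)),
    fun d d' p q => nest _ (lv d' q) _ (Nat.div_le_div_right (Nat.mul_le_mul_right _ p)),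
    fun d p ω x v y e b b' => ?_, fun d p ω x h hw l s l1 l2 l3 => ?_, fun ω p v q b => ?_,
    fun d p ω x v y e b => ⟨(inc d p ω x v y e b).1, fun r => (inc d p ω x v y e b).2 ?_⟩,
    fun d p ω x h hw l l1 l2 l3 E hE => ac d p ω x h hw l l1 l2 l3 E
      fun v a v' a' b b' => hE v a v' a' b.symm b'.symm,
    ⟨tt.1, tt.2.1⟩, tt.2.2, ok.fa, ok.fT, ok.zT, fun ω p v q e b => ?_, ok.ind,
    fun _ _ => wd.2.imp fun S a => ⟨a.1, fun b r _ => a.2 b r⟩, cn⟩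
  · have a := kU.trans (sU_le σ.kf (fun n => (X n).M) n)
    rw [le_div_iff₀ (by linarith), inv_mul_le_iff₀ hc] at a
    exact a
  · obtain ⟨e1, e2⟩ := H.fu n ω v e
    obtain ⟨-, e3, e4⟩ := bot ω p v q
    refine ⟨?_, ?_, ?_⟩
    · change mB (u n ω * F n) ((X n).B ω) = mB (u n v * F n) ((X n).B v)
      rw [e1, e3]
    · change mC (u n ω * F n) (F' n * u' n ω) ((X n).c ω) =
        mC (u n v * F n) (F' n * u' n v) ((X n).c v)
      rw [e1, e2, e4]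
    · change u n v * u' n ω = 1
      rw [← e1, (ex.2.2 ω p).1]
  · obtain ⟨t, t1, t2, -⟩ := loc ω p v q
    exact t1.trans (by rw [← t2]; rfl)
  · change u n x * u' n ω = u n x * u' n v * (u n v * u' n ω)
    rw [mul_assoc, ← mul_assoc (u' n v), mul_eq_one_comm.1 (ex.2.2 v q).1, one_mul]
  · obtain ⟨z1, z2⟩ := ((rf ω p).2.2 v q).2.2.2 b e z
    refine ⟨z1, ?_⟩
    rw [ev, ev]
    change σ.μ b = σ.μ e at z1
    change σ.μ b + vt b < σ.μ e + vt e at z2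
    linarith
  · obtain ⟨-, -, r1, r2⟩ := r
    rw [ev, ev, ev]
    change σ.μ e = σ.μ a + σ.μ b at r1
    change σ.μ e + vt e = σ.μ a + vt a + (σ.μ b + vt b) at r2
    linarith
  · change (X n).O false ((0 * N / (X n).M : ℕ) / N) ω = (X n).O false ((0 * N / (X n).M : ℕ) / N) v
    simpa using (bot ω p v q).1
  · have q := ri _ (lv d p) ω x v y e b b'
    rw [rr_eq rf x y, ev', ev', abs_mul, Real.abs_exp] at q
    change |Real.exp ((SH.vt _ b' - SH.vt _ b) * d) * (u n v * u' n ω) b b'| ≤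
      Real.exp (c * (X n).M)
    obtain ⟨d0, d1⟩ := dp d
    change Real.exp ((vt b' - vt b) * (_ * ((X n).M : ℝ))) * |(u n v * u' n ω) b b'| ≤ _ at q
    generalize ((((d * N / (X n).M : ℕ) : ℚ≥0) / N : ℚ≥0) : ℝ) * (X n).M = a at q d0 d1
    rw [ev, ev, abs_mul, Real.abs_exp, show (vt b' - vt b) * (d : ℝ) =
      (vt b' - vt b) * (d - a) + (vt b' - vt b) * a by ring, Real.exp_add, mul_assoc]
    refine (mul_le_mul_of_nonneg_left q (Real.exp_pos _).le).trans ?_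
    rw [← Real.exp_add]
    have := mul_le_mul (show vt b' - vt b ≤ s₀ by linarith [(f.v0 b).1, (f.v0 b').2])
      (show d - a ≤ (X n).M / N by linarith) (by linarith) s0
    have := mul_nonneg s0 (div_nonneg M0.le N0.le)
    exact ex_le (by linarith)
  · refine le_trans (le_of_eq ?_) ((rob_sh rf (le_max_left _ _)
      (fun b => (ev' b).symm ▸ f.v0 b) (dp d).1 (dp d).2 le_rfl ra2 (rr _ (lv d p)) x hw l1 l2
      l3).trans (ex_le (sub_le_sub_right ?_ _)))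
    · rfl
    · change _ ≤ c * (X n).M
      linarith
  · obtain ⟨t, -, t2, t3⟩ := loc ω p v q
    change |GA.lg _ _ _ b| ≤ Real.exp (c * (X n).W) ∧ (σ.μ b = 0 → |GA.lg _ _ _ b| ≤ _)
    erw [t2]
    refine ⟨?_, (t3 b).1⟩
    rcases (w.ok.m0 b).eq_or_lt with r | r
    · exact ((t3 b).1 r.symm).trans (ex_le eW)
    · exact ((t3 b).2 r).1.trans (by simpa using Fe 0)
  · rw [ev] at r
    change σ.μ b + vt b ≠ σ.μ b
    linarith
  · obtain ⟨t, -, t2, t3⟩ := loc ω p v q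
    change |GA.lg _ _ _ b| ≤ Real.exp (c * (X n).W - σ.μ b * (X n).W)
    erw [t2]
    rcases (w.ok.m0 b).eq_or_lt with r | r
    · exact ((t3 b).1 r.symm).trans (ex_le (by rw [← r]; linarith))
    · exact (((t3 b).2 r).2 e).trans (Fe _)

theorem spW : SpW := by
  intro ι κ α _ _ _ _ _ Ω Λ L Γ σ X mm ϑ La D s₀ vt F F' u u' H
  obtain ⟨m, m0, hm⟩ := H.cnt
  choose N hN using fun j : ℕ => wo_ok H hm (c := 1 / (j + 1 : ℝ)) (by positivity) j j.cast_nonneg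
  obtain ⟨i, bi, hi⟩ := KSA.spill _ hN
  have sm : ∀ M : ℕ → ℕ, Sm M fun n => 1 / (i n + 1 : ℝ) * M n := fun M ε hε =>
    (bi.ev ε⁻¹).mono fun n a => by
      have : 1 / (i n + 1 : ℝ) ≤ ε := by
        rw [div_le_iff₀ (by positivity), ← inv_mul_le_iff₀ hε]
        linarith
      simpa using mul_le_mul_of_nonneg_right this (Nat.cast_nonneg (M n))
  refine ⟨_, fun n => wo (X n) (F n) (F' n) (u n) (u' n) σ.τ (σ.kf n) (N (i n))
    (1 / (i n + 1 : ℝ) * (X n).M) (i n * (X n).M) (1 / (i n + 1 : ℝ) * (X n).W), ko H, H.two.bk,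
    sm _, fun T => ?_, sm _, m, m0, hi.mono fun n a => a _ le_rfl⟩
  filter_upwards [bi.ev T, wide H T] with n a b
  exact ⟨mul_le_mul_of_nonneg_right a (Nat.cast_nonneg _), b⟩

end Pool.Agent.MP_5168f5_an.QA.SH
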