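import Pool.Agent.MP_4b405e_nt.SK.Top
import Pool.Agent.MP_4b405e_nt.SK.AA
import Pool.Agent.MP_4b405e_nt.SK.HOne
import Pool.Agent.MP_4b405e_nt.SK.BAll
import Pool.Agent.MP_4b405e_nt.SK.FAll

/-! Sparse slopes: the global statement from the block system. -/

namespace Pool.Agent.MP_5168f5_an.QA

theorem noPGf_C (c : SH.SpCx) : NoPGf := SH.noPGf Cp.spA SH.spW SH.spB c MP_4b405e_nt.FB.spF

end Pool.Agent.MP_5168f5_an.QA
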