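import Pool.Agent.MP_4b405e_nt.SK.PacF
import Pool.Agent.MP_5168f5_an.QA.FlAll2
import Pool.Agent.MP_5168f5_an.QA.Spl

/-! Sparse heights: the minimal filtration and the splitting. -/

namespace Pool.Agent.MP_5168f5_an.QA.Fl

open H19 H17S H17F R4 AN Filter Finset Matrix
open GA (Mt IsFr Nr Bx Idl lg vec ex br mB mC cm)
open PA (Pr sP sM sO)
open LC (Au Mo ex_le)
open Cp (Hg hc)
open S20 (dn)

/-- A class closed under limits, centred zooms and restrictions. -/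
structure Czf {κ' : Type} {Ω Λ : ℕ → Type} (kf : ℕ → ℕ)
    (K : (∀ n, Pr κ' (Ω n) (Λ n)) → Prop) : Prop where
  cf : CF K
  idx : ∀ X (e : ℚ), 0 < e → e ≤ 1 → K X → K fun n => (X n).idx 0 e
  res : ∀ X G, K X → PA.F.Trm kf X G → K fun n => (X n).res (G n)
  big : ∀ X, K X → Big (sM X)
  nest : ∀ X, K X → ∀ a a', a ≤ a' → FnE (sP X) (sO X a) (sO X a')
  two : ∀ X, K X → Big (sU kf (sM X))

variable {ι κ α κ' : Type} [Fintype ι] [DecidableEq ι] [Fintype κ] [DecidableEq κ] [Fintype α]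
  {Ω Λ Θ Ξ : ℕ → Type} {σ : Sg ι κ α} {b : ∀ n, Bd ι κ α (Ω n) (Θ n) (Ξ n)}
  {K : (∀ n, Pr κ' (Ω n) (Λ n)) → Prop} {μ : κ → ℝ} {γ : κ → ℕ} {X : ∀ n, Pr κ' (Ω n) (Λ n)}
  {d : ∀ n, Fd ι κ α (Ω n)} {Hs : Finset ℝ} {W : ℝ} {kf : ℕ → ℕ}

theorem Mem.resf (hK : Czf kf K) (h : Mem σ b K μ γ X d) {G : ∀ n, Ω n → Prop}
    (g : PA.F.Trm kf X G) : Mem σ b K μ γ (fun n => (X n).res (G n)) d :=
  ⟨hK.res X G h.k g, h.bf.res G, h.fl.res G⟩

theorem Mem.idf (hD : RDrop) (hN : RNet) (ok : σ.Ok Hs W) (hμ : ∀ a, μ a ∈ Hs) (hK : Czf kf K)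
    (h : Mem σ b K μ γ X d) {e : ℚ} (he : 0 < e) (h1 : e ≤ 1) :
    ∃ d', Mem σ b K μ (ng μ γ) (fun n => (X n).idx 0 e) d' ∧
      ∀ᶠ n in UF, Kp (d n) (X n).P (fun a => 0 < μ a) μ (d' n) :=
  (h.fl.idx hD hN ok hμ (hK.big X h.k) h.bf he h1 (hK.nest X h.k _ _ (by linarith))).imp
    fun _ x => ⟨⟨hK.idx X e he h1 h.k, h.bf.idx ok (hK.big X h.k) he h1, x.1⟩, x.2⟩

/-- A slow centred zoom: the new unit is small against the old one and large against `u`. -/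
theorem Mem.slowf (hD : RDrop) (hN : RNet) (ok : σ.Ok Hs W) (hμ : ∀ a, μ a ∈ Hs) (hK : Czf kf K)
    (h : Mem σ b K μ γ X d) {J : Type} [Countable J] {u : J → ℕ → ℝ} (hu : ∀ j, Sm (sM X) (u j)) :
    ∃ (k : ℕ → ℕ) (d' : ∀ n, Fd ι κ α (Ω n)), Big k ∧
      Mem σ b K μ (ng μ γ) (fun n => (X n).idx 0 (1 / (k n + 1))) d' ∧
      (∀ᶠ n in UF, Kp (d n) (X n).P (fun a => 0 < μ a) μ (d' n)) ∧
      ∀ j, Sm (sM fun n => (X n).idx 0 (1 / (k n + 1))) (u j) := by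
  have e0 : ∀ k : ℕ, (0 : ℚ) < 1 / (k + 1) := fun k => by positivity
  choose d' h1 h2 using fun k : ℕ => h.idf hD hN ok hμ hK (e0 k)
    (div_le_one_of_le₀ (by simp) (by positivity))
  let T := fun n => Pr κ' (Ω n) (Λ n) × Fd ι κ α (Ω n)
  obtain ⟨k, hk, a⟩ := cf_diag (K := fun _ (Z : ∀ n, T n) =>
      Mem σ b K μ (ng μ γ) (fun n => (Z n).1) (fun n => (Z n).2) ∧
      (∀ᶠ n in UF, Kp (d n) (X n).P (fun a => 0 < μ a) μ (Z n).2) ∧
      ∀ j, Sm (fun n => (Z n).1.M) (u j))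
    (fun _ => (cf_mem σ b μ _ hK.cf).and ((cf_ev (S := T) fun n z =>
      Kp (d n) (X n).P (fun a => 0 < μ a) μ z.2).and
      (cf_all fun j => cf_sm (S := T) (fun _ z => z.1.M) fun n _ => u j n)))
    (fun k n => ((X n).idx 0 (1 / (k + 1)), d' k n)) fun k _ _ =>
      ⟨h1 k, h2 k, fun j => (cmp_idx (hK.big X h.k) 0 (e0 k)).le (hu j)⟩
  exact ⟨k, _, hk, a 0⟩

/-- One cut with the precision `q`. -/
theorem cutf (hA : RAx) (hB : RBas) (hD : RDrop) (hN : RNet) (ok : σ.Ok Hs W) (hK : Czf kf K)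
    (hμ : ∀ a, μ a ∈ Hs) (h : Mem σ b K μ γ X d) {p : ℝ → ℝ}
    (hp : ∀ m, 0 < m → p m ∈ Hs ∧ p m < m ∧ ∀ h ∈ Hs, h < m → h ≤ p m)
    (no : ∀ L, 1 ≤ L → ¬ACW σ b μ L X d) {q : ℝ} (q1 : 1 ≤ q) :
    ∃ Z : Finset κ, (∃ a ∈ Z, 0 < μ a) ∧ ∃ (Y : ∀ n, Pr κ' (Ω n) (Λ n)) (d' : ∀ n, Fd ι κ α (Ω n)),
      K Y ∧ BF σ b Y ∧ ∀ᶠ n in UF, One σ (b n) (d' n) (Y n).P ((Y n).O (-1)) (cw p μ Z) (ng μ γ)
        (Y n).M ((Y n).M / q) (q * (Y n).M) := by
  have dr : ∀ Z, Dr Hs μ (cw p μ Z) := fun Z a => by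
    unfold cw
    split_ifs with e
    exacts [⟨(hp _ e.2).1, (hp _ e.2).2.1.le, (hp _ e.2).2.2⟩, ⟨hμ a, le_rfl, fun _ _ => le_of_lt⟩]
  choose Cz c1 st using fun Z => step hD hN γ ok hμ (dr Z)
  obtain ⟨C, C1, hC⟩ : ∃ C : ℝ, 1 ≤ C ∧ ∀ Z, Cz Z ≤ C := ⟨∑ Z, Cz Z,
    (c1 ∅).trans (single_le_sum (fun Z _ => zero_le_one.trans (c1 Z)) (mem_univ _)),
    fun Z => single_le_sum (fun Z _ => zero_le_one.trans (c1 Z)) (mem_univ Z)⟩
  obtain ⟨C', C2, bs⟩ := hB ι κ α σ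
  have hM := hK.big X h.k
  obtain ⟨δ, δ0, hδ⟩ : ∃ δ : ℝ, 0 < δ ∧ 2 * q * C * C' * δ = 1 :=
    ⟨1 / (2 * q * C * C'), by positivity, by field_simp⟩
  obtain ⟨s, s0, hs⟩ : ∃ s : ℝ, 0 < s ∧ (q + 2 * C) * (2 * 4 ^ (Fintype.card κ + 1)) * s = 1 :=
    ⟨1 / ((q + 2 * C) * (2 * 4 ^ (Fintype.card κ + 1))), by positivity, by field_simp⟩
  have p1 : 1 ≤ q * C := one_le_mul_of_one_le_of_one_le q1 C1
  have δ1 : C' * δ ≤ 1 / 2 := by nlinarith [mul_pos (one_pos.trans_le C2) δ0]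
  have δ2 : δ ≤ 1 / 2 := by nlinarith
  have s1 : s ≤ 1 := by
    have : (1 : ℝ) ≤ 4 ^ (Fintype.card κ + 1) := one_le_pow₀ (by norm_num)
    have : 1 ≤ (q + 2 * C) * (2 * 4 ^ (Fintype.card κ + 1)) :=
      one_le_mul_of_one_le_of_one_le (by linarith) (by linarith)
    nlinarith
  obtain ⟨x, r, β, k, U, V, Z, x1, x0, r0, fk, fU, ax, p0, p2, ps⟩ := deep hA ok.eta hM
    (no (4 / (δ * s)) (by rw [le_div_iff₀ (by positivity)]; nlinarith))
  have x2 : (0 : ℝ) < -x := by exact_mod_cast neg_pos.2 x0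
  have x3 : -(x : ℝ) ≤ 1 := by exact_mod_cast neg_le.1 x1
  obtain ⟨ρ, hρ⟩ : ∃ ρ, ρ = min r (-x) := ⟨_, rfl⟩
  rw [← hρ] at ps
  have ρ0 : 0 < ρ := hρ ▸ lt_min r0 x2
  have ρ1 : ρ ≤ r := hρ ▸ min_le_left _ _
  have ρ2 : ρ ≤ -x := hρ ▸ min_le_right _ _
  obtain ⟨e, e1, e2⟩ := exists_rat_btwn (half_lt_self (mul_pos ρ0 s0))
  have e3 : (0 : ℝ) < e := (half_pos (mul_pos ρ0 s0)).trans e1
  have e4 : (e : ℝ) ≤ -x := by nlinarith
  have e0 : 0 < e := by exact_mod_cast e3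
  have e5 : e ≤ -x := by exact_mod_cast e4
  have e6 : e ≤ 1 := by linarith
  obtain ⟨G, g1, g⟩ := PA.F.trim (hK.two X h.k) _ fun c hc =>
    ((G39.dl_lt (hK.two X h.k) p2 hc).and ps).mono fun n a => a.1.le.trans a.2
  have kY := hK.idx _ e e0 e6 (hK.res X G h.k g)
  have bY := BF.idx (X := fun n => (X n).res (G n)) ok hM (h.bf.res G) e0 e6
  have μ0 : ∀ a, 0 ≤ μ a := fun a => (ok.bd _ (hμ a)).1
  have zl : ∃ a ∈ Z, 0 < μ a := by
    obtain ⟨n, a⟩ := g.mem.exists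
    obtain ⟨ω, o⟩ := N3.ex_pt (cE (X n).P (G n))
    have := (g1 n ω (a ω o).2).2
    exact this.ne.imp fun a y => ⟨y, this.lv a y⟩
  refine ⟨Z, zl, ?_⟩
  suffices ∀ᶠ n in UF, ∃ d', One σ (b n) d' (cE (X n).P (G n)) ((X n).O (0 + e * -1)) (cw p μ Z)
      (ng μ γ) (⌊(e : ℝ) * (X n).M⌋₊ : ℕ) ((⌊(e : ℝ) * (X n).M⌋₊ : ℕ) / q)
      (q * (⌊(e : ℝ) * (X n).M⌋₊ : ℕ)) from
    (ev_ex d this).elim fun d' a => ⟨_, d', kY, bY, a⟩
  filter_upwards [h.fl (δ * (e / 2)) (by positivity) (q + 4 * C + 1), g.mem, fk, fU, ax,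
    bY (-1) le_rfl (by norm_num) δ δ0 (q + 2 * C), (LC.eqv_floor hM e3).2 _ (half_pos e3),
    hK.nest X h.k (-1) (0 + e * -1) (by linarith), hK.nest X h.k x (0 + e * -1) (by linarith),
    G39.big_dl hM (3 ^ Fintype.card κ) (show 0 < δ * (e / 2) by positivity),
    hM.ev (1 / (δ * (e / 2)))] with n o m fk fU ax bt fl n1 n2 b3 m1
  rw [G39.dl_inv] at b3
  rw [div_le_iff₀' (by positivity)] at m1
  have f1 : ((⌊(e : ℝ) * (X n).M⌋₊ : ℕ) : ℝ) ≤ e * (X n).M := Nat.floor_le (by positivity)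
  simp only [un, sM, PA.Pr.idx] at fl bt m1 b3 o
  generalize ((⌊(e : ℝ) * (X n).M⌋₊ : ℕ) : ℝ) = M' at *
  have sb : ∀ ω ∈ (cE (X n).P (G n)).S, ω ∈ (X n).P.S := fun _ => cE_sub
  generalize hm : ((X n).M : ℝ) = M at *
  have M0 : 0 ≤ M := hm ▸ Nat.cast_nonneg _
  have e7 : (e : ℝ) ≤ 1 := by linarith
  have f2 : e / 2 * M ≤ M' := by linarith
  have f3 : M' ≤ M := by nlinarith
  have f4 : δ * (e / 2) * M ≤ δ * M' := by nlinarith
  have f5 : 1 ≤ δ * M' := m1.trans f4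
  have M1 : 0 ≤ M' := by nlinarith
  have f6 : ρ / (4 / (δ * s)) * M ≤ δ * M' := by
    rw [div_div_eq_mul_div]
    nlinarith [mul_le_mul_of_nonneg_right e1.le (mul_nonneg δ0.le M0)]
  have few : Det (cE (X n).P (G n)) (k n) (fun ω => ((b n).S ω, (d n).T ω)) (Real.exp (δ * M')) :=
    det_few.2 (((S20.few_dn (X n).P (k n) _ (Real.exp_pos (-(ρ / (4 / (δ * s)) * M)))).cE
      (G n)).mono (fun v hv _ => hm ▸ (g1 n v (m v hv).2).1) (by
        rw [← Real.exp_neg, neg_neg]; exact ex_le f6))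
  have o1 := (((mo_one _ _ _ _ f4 le_rfl o).sub sb).lev (fn_sub n1 sb)).ref (fn_sub (fk.trans n2) sb)
    few (by linarith)
  have o2 := bs _ _ _ _ _ _ _ _ μ γ M _ _ (U n) (V n) μ0 M0 (by linarith) (by positivity) o1
    ((fn_sub fU sb).trans fn_atm) fun ω hω => by
      obtain ⟨N, a⟩ := ax ω (sb ω hω)
      have up : ∀ i j, (μ i = μ j ∧ (¬0 < μ i → i = j)) → Up μ γ i j := fun i j y =>
        ⟨y.1.le, fun z => (y.2 (by rw [y.1, z]; exact lt_irrefl _)) ▸ le_rfl⟩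
      exact ⟨a.inv, fun i j => ⟨(a.bd i j).1.trans (Real.one_le_exp (by linarith)),
        (a.bd i j).2.trans (b3.trans (ex_le (by linarith))), fun y => up i j (a.hU i j y),
        fun y => up i j (a.hV i j y)⟩⟩
  have u1 : C * (C' * (δ * M' + δ * M')) = M' / q := by
    rw [eq_div_iff (by positivity)]
    linear_combination M' * hδ
  have u2 : 1 ≤ C' * (δ * M' + δ * M') := one_le_mul_of_one_le_of_one_le C2 (by linarith)
  have u3 : C' * (δ * M' + δ * M') ≤ M' := by nlinarith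
  have u4 : δ * M' ≤ C' * (δ * M' + δ * M') := by nlinarith
  have z0 := zero_le_one.trans (c1 Z)
  have t1 : Cz Z * (C' * (δ * M' + δ * M') + M') ≤ 2 * C * M' :=
    (mul_le_mul (hC Z) (by linarith : _ ≤ 2 * M') (by linarith) (by linarith)).trans_eq (by ring)
  have t2 : Cz Z * (C' * (δ * M' + δ * M') + M) ≤ 2 * C * M :=
    (mul_le_mul (hC Z) (by linarith : _ ≤ 2 * M) (by linarith) (by linarith)).trans_eq (by ring)
  have t3 : (q + 2 * C) * M' ≤ (q + 2 * C) * M := mul_le_mul_of_nonneg_left f3 (by linarith)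
  have t4 : (q + 2 * C) * M' ≤ r / (2 * 4 ^ (Fintype.card κ + 1)) * M := by
    have : r / (2 * 4 ^ (Fintype.card κ + 1)) = (q + 2 * C) * (r * s) := by
      rw [div_eq_iff (by positivity)]
      linear_combination -r * hs
    rw [this, mul_assoc]
    refine mul_le_mul_of_nonneg_left (f1.trans (mul_le_mul_of_nonneg_right ?_ M0)) (by linarith)
    nlinarith
  have cz : ∀ a, 0 < μ a → cw p μ Z a = μ a → a ∉ Z := fun a y z t => by
    rw [cw, if_pos ⟨t, y⟩] at z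
    exact (hp _ y).2.1.ne z
  have cz' : ∀ a, cw p μ Z a < μ a → a ∈ Z := fun a y => by_contra fun t => by
    rw [cw, if_neg fun z => t z.1] at y
    exact lt_irrefl _ y
  obtain ⟨d', y, -⟩ := st Z _ _ _ _ _ _ _ _ M M' _ _ ((q + 2 * C) * M') M0 M1 u2 (by nlinarith)
    (by linarith) o2 (bt.wk u4 (fun i => by push_cast; linarith) le_rfl)
    (fun ω hω a a' i y y' z z' t t' => by
      have := (g1 n ω (m ω hω).2).2.sc a a' i y y' (cz a y z) (cz a' y' z') (cz' i t) t'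
      rw [Fd.c, ← mC_comp, hm] at this
      exact this.trans (ex_le (neg_le_neg t4)))
    fun ω hω i a t t' => ((g1 n ω (m ω hω).2).2.sA i a (cz' a t) t').trans
      (ex_le (neg_le_neg (hm ▸ t4)))
  exact ⟨d', mo_one _ _ _ _ (u1 ▸ mul_le_mul_of_nonneg_right (hC Z) (by linarith)) (by linarith) y⟩

/-- Members with minimal weights carry no deep cap. -/
theorem sAcwf (ok : σ.Ok Hs W) (hK : Czf kf K) (mn : Mn σ b K Hs μ) (h : Mem σ b K μ γ X d) :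
    ∃ L₀, 1 ≤ L₀ ∧ ACW σ b μ L₀ X d := by
  by_contra no
  push Not at no
  obtain ⟨p, hp⟩ := ex_pv ok.zero
  let T := fun n => Pr κ' (Ω n) (Λ n) × Fd ι κ α (Ω n)
  let Q : Finset κ → ℕ → (∀ n, T n) → Prop := fun Z i Y => K (fun n => (Y n).1) ∧
    BF σ b (fun n => (Y n).1) ∧ ∀ᶠ n in UF, One σ (b n) (Y n).2 (Y n).1.P ((Y n).1.O (-1))
      (cw p μ Z) (ng μ γ) (Y n).1.M ((Y n).1.M / (i + 1)) ((i + 1) * (Y n).1.M)
  have mo : ∀ Z i j Y, i ≤ j → Q Z j Y → Q Z i Y := fun Z i j Y e a => by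
    have e' : (i + 1 : ℝ) ≤ j + 1 := by exact_mod_cast Nat.succ_le_succ e
    exact ⟨a.1, a.2.1, a.2.2.mono fun n => mo_one _ _ _ _ (div_le_div_of_nonneg_left
      (Nat.cast_nonneg _) (by positivity) e') (mul_le_mul_of_nonneg_right e' (Nat.cast_nonneg _))⟩
  obtain ⟨Z, hZ⟩ : ∃ Z, ∀ i : ℕ, (∃ a ∈ Z, 0 < μ a) ∧ ∃ Y, Q Z i Y := by
    by_contra c
    rw [not_exists] at c
    choose j hj using fun Z => not_forall.1 (c Z)
    obtain ⟨Z, z, Y, d', a⟩ := cutf rAx rBas rDrop rNet ok hK mn.1 h hp no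
      (q := (univ.sup j : ℕ) + 1) (by simp)
    exact hj Z ⟨z, fun n => (Y n, d' n), mo Z _ _ _ (le_sup (mem_univ Z)) a⟩
  choose Y hY using fun i => (hZ i).2
  obtain ⟨k, -, a⟩ := cf_diag (K := Q Z) (fun i => (hK.cf.comp (S' := T) fun _ z => z.1).and
    (((cf_bf σ b).comp (S' := T) fun _ z => z.1).and (cf_ev (S := T) fun n z =>
      One σ (b n) z.2 z.1.P (z.1.O (-1)) (cw p μ Z) (ng μ γ) z.1.M (z.1.M / (i + 1))
        ((i + 1) * z.1.M)))) Y fun k i e => mo Z i k _ e (hY k)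
  have le : ∀ a, cw p μ Z a ∈ Hs ∧ cw p μ Z a ≤ μ a := fun a => by
    unfold cw
    split_ifs with e
    exacts [⟨(hp _ e.2).1, (hp _ e.2).2.1.le⟩, ⟨mn.1 a, le_rfl⟩]
  obtain ⟨i, i1, i2⟩ := (hZ 0).1
  refine (mn.2 _ _ _ _ (fun a => (le a).1) ⟨(a 0).1, (a 0).2.1,
    au_seq (fun _ => mo_one) fun i => (a i).2.2⟩).not_gt (sum_lt_sum (fun a _ => (le a).2)
      ⟨i, mem_univ i, ?_⟩)
  rw [cw, if_pos ⟨i1, i2⟩]
  exact (hp _ i2).2.1

end Pool.Agent.MP_5168f5_an.QA.Fl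

namespace Pool.Agent.MP_5168f5_an.QA.Spl

open H19 H17S H17F R4 AN Filter Finset Matrix Fl
open GA (Mt IsFr vec ex cm br Neg Big1 ob_sum ob_mul ob_const ob_congr ob_neg neg_ev)
open G39 (OB dl dl_inv dl_pos ob_of_le)
open PA (Pr sP sM)
open LC (Au Mo ex_le)

variable {ι κ α J : Type} [Fintype ι] [DecidableEq ι] [Fintype κ] [DecidableEq κ] [Fintype α]

variable {κ' : Type} {Ω Λ Θ Ξ : ℕ → Type} {σ : Sg ι κ α} {b : ∀ n, Bd ι κ α (Ω n) (Θ n) (Ξ n)}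
  {K : (∀ n, Pr κ' (Ω n) (Λ n)) → Prop} {μ : κ → ℝ} {o τ : ι} {s : ℝ} {j₀ : J}
  {z : ∀ n, Od ι α J (Ω n)} {X₀ X : ∀ n, Pr κ' (Ω n) (Λ n)} {d₀ d : ∀ n, Fd ι κ α (Ω n)}
  {γ : κ → ℕ} {Hs : Finset ℝ} {W : ℝ} {kf : ℕ → ℕ}

/-- After a restriction and a slow zoom, finitely many numbers are negligible or of unit size. -/
theorem Mb.dicf (hD : RDrop) (hN : RNet) (ok : σ.Ok Hs W) (hμ : ∀ a, μ a ∈ Hs) (hK : Czf kf K)
    (h : Mb σ b K μ o τ s j₀ z X₀ d₀ γ X d) {I : Type} [Finite I]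
    (c : I → (κ → Mt ι) → (ι → ℝ) → ℝ) : ∃ γ' X' d', ∃ p : I → Prop,
    Mb σ b K μ o τ s j₀ z X₀ d₀ γ' X' d' ∧
    (∀ᶠ n in UF, ∀ ω ∈ (X' n).P.S, ω ∈ (X n).P.S ∧ (d' n).B σ ω = (d n).B σ ω) ∧
    Au (sM X') fun n u w => ∀ ω ∈ (X' n).P.S, ∀ j,
      (p j → |c j ((d' n).B σ ω) ((z n).q ω)| ≤ Real.exp (-w)) ∧
      (¬p j → Real.exp (-u) ≤ |c j ((d' n).B σ ω) ((z n).q ω)|) := by
  have hM := hK.big X h.mem.k
  obtain ⟨G, p, g, ⟨c0, c1, g1⟩, g0, -, g2, g3⟩ := Di.dich (sP X) (sM X)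
    fun j n ω => c j ((d n).B σ ω) ((z n).q ω)
  obtain ⟨G', g4, tr⟩ := PA.F.trim (hK.two X h.mem.k) G fun e he => by
    filter_upwards [g1, G39.dl_lt (hK.two X h.mem.k) c1 he] with n x y using y.le.trans x
  have a : Au (sM X) fun n u w => (∀ ω ∈ (X n).P.S, Ob σ (d n) μ o j₀ (z n) u w ω) ∧ ∀ j, ¬p j →
      ∀ ω, G n ω → Real.exp (-u) ≤ |c j ((d n).B σ ω) ((z n).q ω)| := au_and h.orb.ob
    fun e he _ => eventually_all.2 fun j => eventually_all.2 fun x => g3 j x e he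
  obtain ⟨u, w, a1, a2⟩ := au_ex hM a
  choose u' w' a3 a4 using fun j => au_ex hM (h.jet j)
  obtain ⟨k, d', hk, m, kp, sm⟩ := (h.mem.resf hK tr).slowf hD hN ok hμ hK
    (u := fun j : Option ℕ => j.elim u u') fun j e he => by
      cases j
      exacts [(a1.sm e he).mono fun _ x => by simpa using x,
        ((a3 _).sm e he).mono fun _ x => by simpa using x]
  have le : ∀ e : ℝ, 0 < e → ∀ T : ℝ, ∀ᶠ n in UF,
      T * (((X n).res (G' n)).idx 0 (1 / (k n + 1))).M ≤ e * (X n).M := fun e he T => by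
    filter_upwards [K31.small (ε := e / (|T| + 1)) (by positivity) hk] with n x
    refine (PA.fl_mul (fun _ => (X n).res (G' n)) 0 (by positivity) T 0).trans
      (mul_le_mul_of_nonneg_right ?_ (Nat.cast_nonneg _))
    push_cast
    rw [le_div_iff₀ (by positivity)] at x
    nlinarith [show (0 : ℝ) < 1 / (k n + 1) by positivity]
  have uw : ∀ {u w}, Uw (sM X) u w → Sm (sM fun n => ((X n).res (G' n)).idx 0 (1 / (k n + 1))) u →
      Uw (sM fun n => ((X n).res (G' n)).idx 0 (1 / (k n + 1))) u w := fun x y =>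
    ⟨x.one, fun e he => (y e he).mono fun _ t => by simpa using t,
      fun T => ((le 1 one_pos T).and (x.bg 1)).mono fun _ t => t.1.trans t.2⟩
  have kb : ∀ᶠ n in UF, ∀ ω ∈ (cE (X n).P (G' n)).S, (d' n).B σ ω = (d n).B σ ω ∧
      (d' n).k ω = (d n).k ω := kp.mono fun n x ω y =>
    ⟨by rw [Fd.B, x.U]; rfl, (x.k (fun _ t => t) ω y).1⟩
  refine ⟨_, _, d', p, ⟨m, fun j => au_of (uw (a3 j) (sm (some j))) (fun _ => mo_jt)
    ((a4 j).mono fun n x ω y => x ω (cE_sub y)), ⟨?_, au_of (uw a1 (sm none)) (fun _ => mo_ob) ?_⟩,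
    ?_, ?_⟩, kb.mono fun n x ω y => ⟨cE_sub y, (x ω y).1⟩, fun e he T => ?_⟩
  · filter_upwards [kp, h.orb.fq] with n x y using (fn_sub y fun _ => cE_sub).trans x.T
  · filter_upwards [kb, a2] with n x y ω t using (y.1 ω (cE_sub t)).congr (x ω t).1 (x ω t).2
  · filter_upwards [kp, h.fT] with n x y using (fn_sub y fun _ => cE_sub).trans x.T
  · filter_upwards [kb, h.rel] with n x y ω t
    refine ⟨(y ω (cE_sub t)).1, Eq.trans ?_ (y ω (cE_sub t)).2⟩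
    rw [Fd.G, (x ω t).1, (x ω t).2, Fd.G]
  · filter_upwards [kb, a2, tr.mem, le g g0 T, (uw a1 (sm none)).sm e he] with n x y t v v' ω r j
    rw [(x ω r).1]
    exact ⟨fun q => (g2 j q n ω (g4 n ω (t ω r).2)).trans (ex_le (neg_le_neg v)),
      fun q => (ex_le (neg_le_neg v')).trans (y.2 j q ω (g4 n ω (t ω r).2))⟩

/-- The entry `(τ, o)` becomes a coordinate. -/
theorem Mb.onef (hD : RDrop) (hN : RNet) (ok : σ.Ok Hs W) (hμ : ∀ a, μ a ∈ Hs) (hK : Czf kf K)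
    (pa : Pat σ o τ s) (h : Mb σ b K μ o τ s j₀ z X₀ d₀ γ X d) : ∃ γ' X' d' ta,
    Mb σ b K μ o τ s j₀ z X₀ d₀ γ' X' d' ∧ μ ta = s ∧ 0 < s ∧
    ∀ᶠ n in UF, ∀ ω ∈ (X' n).P.S, ∀ a, (d' n).B σ ω a τ o = if a = ta then 1 else 0 := by
  obtain ⟨γ, X, d, p, h, -, a⟩ := h.dicf hD hN ok hμ hK fun (a : κ) B _ => B a τ o
  have hM := hK.big X h.mem.k
  have f := (h.mem.fl 1 one_pos 0).mono fun n x ω y => pt ok.fr pa x.toCm (ω := ω) y
  choose ω hω using fun n => ex_of_pb (P := (X n).P) (E := fun _ => True)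
    (by rw [pb_true]; exact one_pos)
  have x : ∀ᶠ n in UF, ω n ∈ (X n).P.S := .of_forall fun n => (hω n).1
  obtain ⟨ta, t1, t2⟩ : ∃ ta, μ ta = s ∧ ¬p ta := by
    by_contra c
    push Not at c
    have k : ∀ i, σ.η i = s → Neg (sM X) fun n => vec σ.B ((b n).H (ω n) i) τ o := fun i e => by
      refine (GA.Neg.sum hM univ (f := fun a n => (d n).A (ω n) i a * (d n).B σ (ω n) a τ o)
        fun a' _ => ?_).congr (f.mono fun n y => by rw [← (y _ (hω n).1).2.2.2.2, vec_app])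
      rcases lt_trichotomy (μ a') s with u | u | u
      · exact (au_neg h.mem.fl (x.mono fun _ y _ _ k => k.low _ y i a' (e ▸ u))).mul
          (h.obB hM x a' τ o)
      · exact (au_neg a (x.mono fun _ y _ _ k => (k _ y a').1 (c a' u))).mul'
          (au_ob h.mem.fl (x.mono fun _ y _ _ k => k.bA _ y i a'))
      · exact neg_ev (f.mono fun n y => by rw [(y _ (hω n).1).2.2.2.1 a' u, mul_zero])
    obtain ⟨n, ⟨y1, y2⟩, y3⟩ := (((h.jet 0 1 one_pos 0).and (eventually_all.2 fun i =>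
      eventually_all.2 fun e => k i e 2)).and (hM.ev 1)).exists
    obtain ⟨i, e, y⟩ := (y1 _ (hω n).1).long
    have := Real.exp_le_exp.1 (y.trans (y2 i e))
    linarith
  have s0 : 0 < s := by
    obtain ⟨n, y⟩ := (h.jet 0 1 one_pos 0).exists
    obtain ⟨i, e, -⟩ := (y _ (hω n).1).long
    exact e ▸ ok.eta i
  have ne : ∀ᶠ n in UF, ∀ ω ∈ (X n).P.S, (d n).B σ ω ta τ o ≠ 0 := (a 1 one_pos 0).mono
    fun n y ω u => abs_pos.1 ((Real.exp_pos _).trans_le ((y ω u ta).2 t2))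
  have up : ∀ {a e : κ} {x : ℝ}, (a ≠ ta → s < μ a → x = 0) →
      ((1 : Matrix κ κ ℝ) a e + if e = ta then x else 0) ≠ 0 → Fl.Up μ γ a e :=
    fun {a e x} u v => by
      by_cases k : a = e
      · exact k ▸ ⟨le_rfl, fun _ => le_rfl⟩
      rw [one_apply_ne k, zero_add, ite_ne_right_iff] at v
      exact v.1 ▸ ⟨t1 ▸ not_lt.1 fun w => v.2 (u (v.1 ▸ k) w), fun w => absurd (t1 ▸ w) s0.ne'⟩
  have sm : ∀ x : κ → ℝ, x ta ≠ 0 → ∀ a, ∑ e, ((1 : Matrix κ κ ℝ) a e +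
      if e = ta then ((1 : Matrix κ κ ℝ) a ta - x a) * (x ta)⁻¹ else 0) * x e =
      (1 : Matrix κ κ ℝ) a ta := fun x k a => by
    simp [add_mul, sum_add_distrib, one_apply, k]
  refine ⟨γ, X, _, ta, h.chg (fun a => (ok.bd _ (hμ a)).1) hM
    (fun B _ a e => (1 : Matrix κ κ ℝ) a e +
      if e = ta then ((1 : Matrix κ κ ℝ) a ta - B a τ o) * (B ta τ o)⁻¹ else 0)
    (fun B _ a e => (1 : Matrix κ κ ℝ) a e +
      if e = ta then B a τ o - (1 : Matrix κ κ ℝ) a ta else 0) ?_ fun ω x a' e => ?_, t1, s0, ?_⟩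
  · filter_upwards [f, ne] with n y y' ω u
    refine ⟨?_, fun a e => ⟨up fun k k' => ?_, up fun k k' => ?_⟩⟩
    · ext a e
      rw [mul_apply]
      by_cases k : e = ta
      · subst k
        simp only [if_true, add_sub_cancel]
        exact sm (fun a => (d n).B σ ω a τ o) (y' ω u) a
      · simp [k, one_apply]
    all_goals simp [one_apply_ne k, (y ω u).2.2.2.1 a k']
  · have i := ob_inv (au_big a (x.mono fun _ y _ _ k => (k _ y ta).2 t2))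
    have j := ob_neg hM (h.obB hM x a' τ o)
    refine ⟨GA.ob_add hM (ob_const hM _) ?_, GA.ob_add hM (ob_const hM _) ?_⟩ <;> split_ifs
    exacts [ob_mul hM (GA.ob_add hM (ob_const hM _) j) i, ob_const hM _,
      GA.ob_add hM (h.obB hM x a' τ o) (ob_const hM (-_)), ob_const hM _]
  · filter_upwards [ne] with n y ω u a
    rw [bas_B, GA.mB, vec_app]
    exact sm (fun a => (d n).B σ ω a τ o) (y ω u) a

/-- The stabiliser becomes a coordinate subspace. -/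
theorem Mb.twof (hD : RDrop) (hN : RNet) (ok : σ.Ok Hs W) (hμ : ∀ a, μ a ∈ Hs) (hK : Czf kf K)
    (pa : Pat σ o τ s) (h : Mb σ b K μ o τ s j₀ z X₀ d₀ γ X d) {ta : κ}
    (ch : ∀ᶠ n in UF, ∀ ω ∈ (X n).P.S, ∀ a, (d n).B σ ω a τ o = if a = ta then 1 else 0) :
    ∃ γ' X' d', ∃ S : Finset κ, Mb σ b K μ o τ s j₀ z X₀ d₀ γ' X' d' ∧ (∀ a ∈ S, 0 < μ a) ∧
    (∀ᶠ n in UF, ∀ ω ∈ (X' n).P.S, ∀ a, (d' n).B σ ω a τ o = if a = ta then 1 else 0) ∧
    ∀ ω : ∀ n, Ω n, (∀ᶠ n in UF, ω n ∈ (X' n).P.S) → (∀ a r, 0 < μ a → ¬(a ∈ S ∨ a = ta) →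
      Neg (sM X') fun n => ((d' n).B σ (ω n) a *ᵥ (z n).q (ω n)) r) ∧
      ∀ t : ℕ → κ → ℝ, (∀ a, OB (sM X') fun n => t n a) → (∀ n a, ¬(a ∈ S ∨ a = ta) → t n a = 0) →
        (∀ r, Neg (sM X') fun n => (vec ((d' n).B σ (ω n)) (t n) *ᵥ (z n).q (ω n)) r) →
        ∀ a, Neg (sM X') fun n => t n a := by
  classical
  obtain ⟨γ, X, d, p, h, e, a⟩ := h.dicf hD hN ok hμ hK
    fun (j : Finset κ × κ) B q => ds (fun a => B a *ᵥ q) j.1 j.2
  have hM := hK.big X h.mem.k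
  replace ch : ∀ᶠ n in UF, ∀ ω ∈ (X n).P.S, ∀ a, (d n).B σ ω a τ o = if a = ta then 1 else 0 :=
    (ch.and e).mono fun n x ω u => (x.2 ω u).2 ▸ x.1 ω (x.2 ω u).1
  obtain ⟨rk, r1, r2⟩ := ex_rk μ
  obtain ⟨S, hS⟩ := greedy rk fun I b => 0 < μ b ∧ b ≠ ta ∧ ¬p (I, b)
  let N : (κ → Mt ι) → (ι → ℝ) → Matrix κ κ ℝ := fun B q b a =>
    if (0 < μ b ∧ ¬(b ∈ S ∨ b = ta)) ∧ a ∈ S.filter fun a => rk a < rk b then
      co (fun a => B a *ᵥ q) (S.filter fun a => rk a < rk b) b a else 0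
  have n1 : ∀ B q b a, N B q b a ≠ 0 → (0 < μ b ∧ ¬(b ∈ S ∨ b = ta)) ∧ a ∈ S ∧ rk a < rk b :=
    fun B q b a k => (ite_ne_right_iff.1 k).1.imp_right mem_filter.1
  have n2 : ∀ B q, N B q * N B q = 0 := fun B q => by
    ext a e
    refine sum_eq_zero fun x _ => ?_
    by_contra k
    exact (n1 B q x e (right_ne_zero_of_mul k)).1.2 (.inl (n1 B q a x (left_ne_zero_of_mul k)).2.1)
  have up : ∀ B q a e, ((1 - N B q) a e ≠ 0 → Fl.Up μ γ a e) ∧
      ((1 + N B q) a e ≠ 0 → Fl.Up μ γ a e) := fun B q a e => by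
    by_cases k : a = e
    · exact k ▸ ⟨fun _ => ⟨le_rfl, fun _ => le_rfl⟩, fun _ => ⟨le_rfl, fun _ => le_rfl⟩⟩
    have : N B q a e ≠ 0 → Fl.Up μ γ a e := fun k => ⟨r2 _ _ (n1 B q a e k).2.2,
      fun u => absurd u ((hS e).1 (n1 B q a e k).2.1).1.ne'⟩
    simpa [one_apply_ne k] using this
  have sq := fun ω x => sq_ind hM (h.obv hM (ω := ω) x) r1 (S := S) fun b hb =>
    au_big a (x.mono fun _ y _ _ k => (k _ y (_, b)).2 ((hS b).1 hb).2.2)
  have nb : ∀ ω : ∀ n, Ω n, (∀ᶠ n in UF, ω n ∈ (X n).P.S) → ∀ a e,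
      OB (sM X) fun n => N ((d n).B σ (ω n)) ((z n).q (ω n)) a e := fun ω x a e => by
    simp only [N]
    split_ifs with k
    exacts [(sq ω x).1 _ _ _ k.2, ob_const hM _]
  have vb : ∀ (B : κ → Mt ι) q a, GA.mB (1 - N B q) B a = B a - vec B (N B q a) := fun B q a => by
    simp [GA.mB, GA.vec, sub_smul, one_apply]
  have v0 : ∀ (B : κ → Mt ι) q a, a ∈ S ∨ a = ta → GA.mB (1 - N B q) B a = B a := fun B q a k => by
    rw [vb, show N B q a = 0 from funext fun e => if_neg fun u => u.1.2 k]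
    simp [GA.vec]
  have ts : ta ∉ S := fun k => ((hS ta).1 k).2.1 rfl
  have f := (h.mem.fl 1 one_pos 0).mono fun n x ω y => pt ok.fr pa x.toCm (ω := ω) y
  refine ⟨γ, X, _, S, h.chg (fun a => (ok.bd _ (hμ a)).1) hM (fun B q => 1 - N B q)
    (fun B q => 1 + N B q) (.of_forall fun n ω _ => ⟨?_, up _ _⟩) fun ω x a e =>
      ⟨GA.ob_add hM (ob_const hM _) (ob_neg hM (nb ω x a e)),
        GA.ob_add hM (ob_const hM _) (nb ω x a e)⟩, fun a k => ((hS a).1 k).1,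
    ch.mono fun n x ω u a => ?_, fun ω x => ⟨fun a' r u v => ?_, fun t t1 t2 t3 => ?_⟩⟩
  · rw [sub_mul, mul_add, mul_add, n2]
    simp
  · rw [bas_B, vb, Matrix.sub_apply, vec_app, x ω u a, sub_eq_self]
    refine sum_eq_zero fun e _ => ?_
    by_contra k
    have := right_ne_zero_of_mul k
    rw [x ω u, ite_ne_right_iff] at this
    exact ts (this.1 ▸ (n1 _ _ _ _ (left_ne_zero_of_mul k)).2.1)
  · refine (au_neg a (x.mono fun _ y _ _ k => (k _ y (S.filter fun e => rk e < rk a', a')).1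
      (by_contra fun c => v (.inl ((hS a').2 ⟨u, fun e => v (.inr e), c⟩))))).mono
      (.of_forall fun n => ?_)
    refine le_trans (le_of_eq ?_) ((norm_le_pi_norm _ r).trans (le_abs_self _))
    rw [bas_B, vb, sub_mulVec, show GA.vec ((d n).B σ (ω n)) = vc _ from rfl, vc_mulVec, rm,
      Real.norm_eq_abs, ← sum_subset (subset_univ (S.filter fun e => rk e < rk a'))
      fun e _ k => by rw [show N _ _ a' e = 0 from if_neg fun c => k c.2, zero_smul],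
      sum_congr rfl fun e k => by rw [show N _ _ a' e = _ from if_pos ⟨⟨u, v⟩, k⟩]]
  · have e1 : ∀ n, vec (((d n).bas (fun ω => 1 - N ((d n).B σ ω) ((z n).q ω))
        fun ω => 1 + N ((d n).B σ ω) ((z n).q ω)).B σ (ω n)) (t n) *ᵥ (z n).q (ω n) =
        t n ta • (d n).B σ (ω n) ta *ᵥ (z n).q (ω n) +
          ∑ a ∈ S, t n a • (d n).B σ (ω n) a *ᵥ (z n).q (ω n) := fun n => by
      rw [bas_B, show GA.vec (GA.mB _ _) = vc _ from rfl, vc_mulVec, ← sum_insert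
        (f := fun a => t n a • (d n).B σ (ω n) a *ᵥ (z n).q (ω n)) ts, ← sum_subset
        (subset_univ (insert ta S)) fun e _ k => by
          rw [t2 n e fun c => k (mem_insert.2 c.symm), zero_smul]]
      exact sum_congr rfl fun e k => by rw [v0 _ _ e (mem_insert.1 k).symm]
    simp only [e1] at t3
    have e2 : Neg (sM X) fun n => t n ta := by
      refine ((t3 τ).sub hM ((au_neg h.orb.ob (x.mono fun _ y _ _ k => (k _ y).qo)).mul'
        (t1 ta))).congr ?_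
      filter_upwards [x, f, ch] with n y y1 y2
      have : ∀ a, ((d n).B σ (ω n) a *ᵥ (z n).q (ω n)) τ =
          (if a = ta then 1 else 0) * (z n).q (ω n) o := fun a => by
        rw [← y2 _ y a, mulVec, dotProduct, sum_eq_single o
          (fun r _ k => by rw [(y1 _ y).2.2.1 a r k, zero_mul]) (by simp)]
      rw [Pi.add_apply, Finset.sum_apply, sum_eq_zero fun a k => by
        rw [Pi.smul_apply, this, if_neg (ne_of_mem_of_not_mem k ts), zero_mul, smul_zero],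
        Pi.smul_apply, this, if_pos rfl, smul_eq_mul]
      ring
    intro a'
    by_cases k : a' ∈ S
    · exact (sq ω x).2 t (fun r => ((t3 r).sub hM (e2.mul (h.obv hM x ta r))).congr
        (.of_forall fun n => by simp)) a' k
    by_cases k' : a' = ta
    · exact k' ▸ e2
    · exact neg_ev (.of_forall fun n => t2 n a' fun c => c.elim k k')

/-- A member with an orbit gives a member with a splitting. -/
def SSplf : Prop := ∀ (ι κ α κ' J : Type) [Fintype ι] [DecidableEq ι] [Fintype κ] [DecidableEq κ]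
  [Fintype α] [Fintype J] (Ω Λ Θ Ξ : ℕ → Type) (kf : ℕ → ℕ) (σ : Sg ι κ α)
  (b : ∀ n, Bd ι κ α (Ω n) (Θ n) (Ξ n)) (K : (∀ n, Pr κ' (Ω n) (Λ n)) → Prop) (Hs : Finset ℝ)
  (W : ℝ) (μ : κ → ℝ) (γ : κ → ℕ) (o τ : ι) (s : ℝ) (j₀ : J) (z : ∀ n, Od ι α J (Ω n))
  (X : ∀ n, Pr κ' (Ω n) (Λ n)) (d : ∀ n, Fd ι κ α (Ω n)), σ.Ok Hs W → (∀ a, μ a ∈ Hs) →
  Czf kf K → Mem σ b K μ γ X d → Pat σ o τ s → Jet σ b o τ s z X → Orb σ μ o j₀ z X d →
  ∃ (γ' : κ → ℕ) (X' : ∀ n, Pr κ' (Ω n) (Λ n)) (d' : ∀ n, Fd ι κ α (Ω n)) (pos : κ → Prop)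
    (ta : κ), Mem σ b K μ γ' X' d' ∧ Jet σ b o τ s z X' ∧ Orb σ μ o j₀ z X' d' ∧
    Out σ b μ o τ s z X' d' pos ta ∧ FnE (sP X') (fun n => (d n).T) (fun n => (d' n).T) ∧
    ∀ᶠ n in UF, ∀ ω ∈ (X' n).P.S, ω ∈ (X n).P.S ∧ (d' n).G σ (b n) ω = (d n).G σ (b n) ω

theorem sSplf : SSplf := by
  intro ι κ α κ' J _ _ _ _ _ _ Ω Λ Θ Ξ kf σ b K Hs W μ γ o τ s j₀ z X₀ d₀ ok hμ hK m pa j1 j2
  have hD := rDrop
  have hN := rNet
  obtain ⟨γ, X, d, ta, h, t1, s0, ch⟩ := Mb.onef hD hN ok hμ hK pa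
    ⟨m, j1, j2, .of_forall fun _ => Fn.rfl _, .of_forall fun _ _ x => ⟨x, rfl⟩⟩
  obtain ⟨γ, X, d, S, h, lv, ch, g⟩ := h.twof hD hN ok hμ hK pa ch
  have hM := hK.big X h.mem.k
  have := Di.ne_om (sP X)
  have f := (h.mem.fl 1 one_pos 0).mono fun n x ω y => pt ok.fr pa x.toCm (ω := ω) y
  have lv' : ∀ a, a ∈ S ∨ a = ta → 0 < μ a := fun a k => k.elim (lv a) fun e => by rwa [e, t1]
  have h0 : ∀ a, ¬0 < μ a → μ a = 0 := fun a k => le_antisymm (not_lt.1 k) (ok.bd _ (hμ a)).1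
  obtain ⟨u, w, a1, a2⟩ := au_ex hM h.orb.ob
  let ψ := fun n (t : Ω n → κ → ℝ) u w => ∀ ω ∈ (X n).P.S, (∀ a, |t ω a| ≤ Real.exp u ∧
    (μ a = 0 → |t ω a| ≤ Real.exp (-w))) ∧ ∀ r, |(ex ((d n).B σ ω) ((d n).k ω) *ᵥ Pi.single o 1 -
    ex ((d n).B σ ω) (t ω) *ᵥ ((z n).F ω j₀ *ᵥ (z n).q ω)) r| ≤ Real.exp (-w)
  obtain ⟨t, ht⟩ := ev_ex (p := fun n t => ψ n t (u n) (w n)) (fun _ _ => 0) (a2.mono fun n x =>
    ⟨fun ω => Classical.epsilon _, fun ω y => Classical.epsilon_spec (x ω y).orb⟩)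
  have at' : Au (sM X) fun n => ψ n (t n) :=
    au_of a1 (fun n _ _ _ _ a e x ω y => ⟨fun i => ((x ω y).1 i).imp (·.trans (ex_le a))
      fun p q => (p q).trans (ex_le (neg_le_neg e)),
      fun r => ((x ω y).2 r).trans (ex_le (neg_le_neg e))⟩) ht
  have key := fun (ω : ∀ n, Ω n) (x : ∀ᶠ n in UF, ω n ∈ (X n).P.S) => Sq.out (M := sM X)
    (Φ := σ.Φ) (μ := μ) (η := σ.η) (pos := fun a => a ∈ S ∨ a = ta) (o := o) (τ := τ) (ta := ta)
    (D := fun n => ⟨(d n).B σ (ω n), (d n).c σ (ω n), (z n).q (ω n), (z n).F (ω n) j₀,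
      (z n).F' (ω n), t n (ω n), (d n).k (ω n), (d n).A (ω n), fun i => vec σ.B ((b n).H (ω n) i),
      (z n).y (ω n), (z n).χ (ω n)⟩)
    { big := hM
      live := lv'
      eq := by
        filter_upwards [x, f, ch, a2, h.jet 0 1 one_pos 0, h.mem.fl 1 one_pos 0]
          with n y y1 y2 y3 y4 y5
        exact ⟨(y1 _ y).1, (y3 _ y).inv, (y4 _ y).y0, y5.ad _ y, ⟨(y1 _ y).2.2.1,
          fun a => (y1 _ y).2.1 a o, (y2 _ y ta).trans (if_pos rfl),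
          fun e _ k => (y2 _ y e).trans (if_neg k)⟩, (y1 _ y).2.1⟩
      bB := h.obB hM x
      bc := fun a a' e => au_ob h.mem.fl (x.mono fun _ y _ _ k => k.bc _ y a a' e)
      bq := fun r => au_ob h.orb.ob (x.mono fun _ y _ _ k => ((k _ y).bd j₀ r r).2.2)
      bF := fun p r => au_ob h.orb.ob (x.mono fun _ y _ _ k => ((k _ y).bd j₀ p r).1)
      bF' := fun p r => au_ob h.orb.ob (x.mono fun _ y _ _ k => ((k _ y).bd j₀ p r).2.1)
      bt := fun a => au_ob at' (x.mono fun _ y _ _ k => ((k _ y).1 a).1)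
      bk := fun a => au_ob h.mem.fl (x.mono fun _ y _ _ k => k.bk _ y a)
      bA := fun i a => au_ob h.mem.fl (x.mono fun _ y _ _ k => k.bA _ y i a)
      bH := fun i => ob_vec hM σ.B fun a => au_ob (h.mem.bf 0 (by norm_num) le_rfl)
        (x.mono fun _ y _ _ k => (k.bH _ y i a).1)
      bj := fun j r => au_ob (h.jet j) (x.mono fun _ y _ _ k =>
        ((k _ y).bd r (k _ y).long.choose).1)
      bχ := fun i => au_ob (h.jet 0) (x.mono fun _ y _ _ k => ((k _ y).bd o i).2)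
      fil := fun a a' e p q r => au_neg h.mem.fl (x.mono fun _ y _ _ k =>
        k.fil _ y a a' e (.inl ⟨p, q, r⟩))
      stab := (g ω x).1
      com := fun a p r q => au_neg h.orb.ob (x.mono fun _ y _ _ k => (k _ y).com a j₀ p r q)
      dead := fun a q => au_neg at' (x.mono fun _ y _ _ k => ((k _ y).1 a).2
        (h0 a fun c => q.elim (· c) c.not_gt))
      orb := fun r => au_neg at' (x.mono fun _ y _ _ k => (k _ y).2 r)
      low := fun i a q => au_neg h.mem.fl (x.mono fun _ y _ _ k => k.low _ y i a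
        (q.elim (fun c => (h0 a c).trans_lt (ok.eta i)) id))
      jet := fun i j r => au_neg (h.jet j) (x.mono fun _ y _ _ k => (k _ y).sh i r)
      ind := (g ω x).2 }
  have e1 : ∀ c : κ → κ → κ → ℝ, Cp.hc μ c = hm μ c := fun c => by
    funext a a' e
    unfold Cp.hc hm Cp.Hw
    congr
  refine ⟨γ, X, d, fun a => a ∈ S ∨ a = ta, ta, h.mem, h.jet, h.orb, ⟨lv', .inr rfl, t1,
    fun _ _ T => ?_, fun v hv _ _ T => ?_⟩, h.fT, h.rel⟩
  · filter_upwards [f, ch, eventually_all.2 fun a => eventually_all.2 fun r => eventually_all.2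
      fun p => eventually_all.2 fun q => Di.sq_neg (f := fun n ω => ((d n).B σ ω a *ᵥ (z n).q ω) r)
        (fun ω x => (g ω x).1 a r p q) T,
      eventually_all.2 fun a => eventually_all.2 fun a' => eventually_all.2 fun e =>
      eventually_all.2 fun p => eventually_all.2 fun p' => eventually_all.2 fun q =>
      eventually_all.2 fun q' => eventually_all.2 fun r =>
        Di.sq_neg (f := fun n ω => (d n).c σ ω a a' e)
          (fun ω x => (key ω x).1 a a' e p p' q q' r) T,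
      eventually_all.2 fun i => eventually_all.2 fun i' => eventually_all.2 fun a =>
      eventually_all.2 fun p => Di.sq_neg (f := fun n ω =>
        pr μ (σ.η i) ((d n).A ω i) a * pr μ (σ.η i') ((d n).A ω i') ta -
        pr μ (σ.η i') ((d n).A ω i') a * pr μ (σ.η i) ((d n).A ω i) ta)
        (fun ω x => (key ω x).2.1 i i' a p) T]
      with n y1 y2 y3 y4 y5 ω y
    have v : ∀ t, vec ((d n).B σ ω) t τ o = t ta := fun t => by simp [vec_app, y2 ω y]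
    refine ⟨y2 ω y, fun i => (v _).symm.trans ((y1 ω y).2.2.2.2 i), fun a a' => ?_,
      fun a r p q => y3 a r p q ω y, fun a a' e p p' q q' r => y4 a a' e p p' q q' r ω y,
      fun i i' a p => y5 i i' a p ω y⟩
    have m : ∀ a a', ((d n).B σ ω a * (d n).B σ ω a') τ o = 0 := fun a a' =>
      sum_eq_zero fun r _ => by
        by_cases k : r = o
        · exact mul_eq_zero_of_right _ (k ▸ (y1 ω y).2.1 a' o)
        · exact mul_eq_zero_of_left ((y1 ω y).2.2.1 a r k) _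
    rw [← v ((d n).c σ ω a a'), ← (y1 ω y).1.br, cm, Matrix.sub_apply, m, m, sub_zero]
  · filter_upwards [eventually_all.2 fun a => eventually_all.2 fun p =>
      Di.sq_neg (f := fun n ω => v.ev (br (hm μ ((d n).c σ ω)))
        (fun i => pr μ (σ.η i) ((d n).A ω i)) a) (fun ω x => (key ω x).2.2 v hv a p) T]
      with n y ω x a p
    rw [e1]
    exact y a p ω x

end Pool.Agent.MP_5168f5_an.QA.Spl
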