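import Mathlib

/-! Sparse heights: the count of the weights of the positions in a graded change of basis. -/

namespace Pool.Agent.MP_5168f5_an.QA.SG

open Finset Matrix

variable {κ ν : Type} [Fintype κ] [DecidableEq κ] [Fintype ν] [DecidableEq ν]

omit [DecidableEq ν] in
/-- For one weight there are at least as many new positions as old ones. -/
theorem dimw (μ : κ → ℝ) (wt : ν → ℝ) (pos : κ → Prop) (ps : ν → Prop) [DecidablePred pos]
    [DecidablePred ps] (E : Matrix ν κ ℝ) (E' : Matrix κ ν ℝ) (L δ : ℝ) (h2 : E' * E = 1)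
    (gr : ∀ p a, E p a ≠ 0 ∨ E' a p ≠ 0 → wt p = μ a) (hL : ∀ a p, |E' a p| ≤ L)
    (hδ : ∀ p a, ¬ps p → pos a → |E p a| ≤ δ) (d0 : 0 ≤ δ)
    (hs : Fintype.card ν * Fintype.card κ * L * δ < 1) (w : ℝ) :
    (univ.filter fun a => pos a ∧ μ a = w).card ≤ (univ.filter fun p => ps p ∧ wt p = w).card := by
  classical
  let A := {a // pos a ∧ μ a = w}
  let B := {p // ps p ∧ wt p = w}
  let f : (A → ℝ) →ₗ[ℝ] B → ℝ :=
    (E.submatrix (Subtype.val : B → ν) (Subtype.val : A → κ)).mulVecLin
  have inj : Function.Injective f := by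
    rw [injective_iff_map_eq_zero]
    intro z hz
    by_contra z0
    obtain ⟨a₀, ha₀⟩ := Function.ne_iff.1 z0
    obtain ⟨a, -, ha⟩ := exists_max_image univ (fun a : A => |z a|) ⟨a₀, mem_univ _⟩
    have za : 0 < |z a| := (abs_pos.2 ha₀).trans_le (ha a₀ (mem_univ _))
    have e : ∀ p, |E' a.1 p * ∑ b : A, E p b.1 * z b| ≤ Fintype.card κ * L * δ * |z a| := by
      intro p
      have L0 : 0 ≤ L := (abs_nonneg _).trans (hL a.1 p)
      by_cases k : ps p
      · have s0 : ∑ b : A, E p b.1 * z b = 0 := by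
          by_cases k' : wt p = w
          · exact congrFun hz ⟨p, k, k'⟩
          · refine sum_eq_zero fun b _ => mul_eq_zero_of_left ?_ _
            by_contra c
            exact k' ((gr p b.1 (.inl c)).trans b.2.2)
        rw [s0, mul_zero, abs_zero]
        positivity
      · have s1 : |∑ b : A, E p b.1 * z b| ≤ Fintype.card κ * (δ * |z a|) := by
          refine (abs_sum_le_sum_abs _ _).trans
            ((sum_le_card_nsmul _ _ (δ * |z a|) fun b _ => ?_).trans ?_)
          · rw [abs_mul]
            exact mul_le_mul (hδ p b.1 k b.2.1) (ha b (mem_univ _)) (abs_nonneg _) d0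
          · rw [nsmul_eq_mul, card_univ]
            exact mul_le_mul_of_nonneg_right (by exact_mod_cast Fintype.card_subtype_le _)
              (mul_nonneg d0 za.le)
        rw [abs_mul]
        refine (mul_le_mul (hL a.1 p) s1 (abs_nonneg _) L0).trans_eq ?_
        ring
    have i : z a = ∑ p, E' a.1 p * ∑ b : A, E p b.1 * z b := by
      simp only [mul_sum, ← mul_assoc]
      rw [sum_comm]
      simp only [← sum_mul, ← mul_apply, h2, one_apply, Subtype.val_inj, ite_mul, one_mul,
        zero_mul]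
      rw [sum_eq_single a (fun b _ k => if_neg k.symm) (fun k => absurd (mem_univ a) k), if_pos rfl]
    have b : |z a| ≤ Fintype.card ν * (Fintype.card κ * L * δ * |z a|) := by
      conv_lhs => rw [i]
      refine (abs_sum_le_sum_abs _ _).trans ((sum_le_card_nsmul _ _ _ fun p _ => e p).trans_eq ?_)
      rw [nsmul_eq_mul, card_univ]
    nlinarith
  have := LinearMap.finrank_le_finrank_of_injective inj
  simpa [A, B, Fintype.card_subtype] using this

/-- The weights of the old positions add up to at most the weights of the new positions. -/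
theorem dimc (μ : κ → ℝ) (wt : ν → ℝ) (pos : κ → Prop) (ps : ν → Prop) [DecidablePred pos]
    [DecidablePred ps] (E : Matrix ν κ ℝ) (E' : Matrix κ ν ℝ) (L δ : ℝ) (h1 : E * E' = 1)
    (h2 : E' * E = 1) (gr : ∀ p a, E p a ≠ 0 ∨ E' a p ≠ 0 → wt p = μ a)
    (hL : ∀ a p, |E' a p| ≤ L) (hδ : ∀ p a, ¬ps p → pos a → |E p a| ≤ δ)
    (hs : Fintype.card ν * Fintype.card κ * L * δ < 1) (m0 : ∀ a, 0 ≤ μ a) :
    ∑ a ∈ univ.filter pos, μ a ≤ ∑ p ∈ univ.filter ps, wt p := by
  classical
  have hs' : Fintype.card ν * Fintype.card κ * L * max δ 0 < 1 := by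
    rcases le_total δ 0 with k | k
    · rw [max_eq_right k, mul_zero]; exact one_pos
    · rwa [max_eq_left k]
  have mw : ∀ p, wt p ∈ univ.image μ := fun p => by
    have : ∑ a, E p a * E' a p ≠ 0 := by
      rw [← mul_apply, h1, one_apply_eq]; exact one_ne_zero
    obtain ⟨a, -, k⟩ := exists_ne_zero_of_sum_ne_zero this
    exact mem_image.2 ⟨a, mem_univ _, (gr p a (.inl (left_ne_zero_of_mul k))).symm⟩
  rw [← sum_fiberwise_of_maps_to (g := μ) (t := univ.image μ)
      fun a _ => mem_image_of_mem _ (mem_univ a),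
    ← sum_fiberwise_of_maps_to (g := wt) (t := univ.image μ) fun p _ => mw p]
  refine sum_le_sum fun w hw => ?_
  obtain ⟨a, -, rfl⟩ := mem_image.1 hw
  rw [sum_congr rfl fun b k => (mem_filter.1 k).2, sum_congr rfl fun b k => (mem_filter.1 k).2,
    sum_const, sum_const, nsmul_eq_mul, nsmul_eq_mul, filter_filter, filter_filter]
  exact mul_le_mul_of_nonneg_right (by
    exact_mod_cast dimw μ wt pos ps E E' L _ h2 gr hL (fun p b k k' =>
      (hδ p b k k').trans (le_max_left _ _)) (le_max_right _ _) hs' _) (m0 a)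

end Pool.Agent.MP_5168f5_an.QA.SG
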