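import Pool.Agent.MP_4b405e_nt.SK.SpG

/-! Sparse slopes, block G: the link with a uniform level and steps of length `η`. -/

namespace Pool.Agent.MP_5168f5_an.QA.SG

open H19 H17S H17F Finset MP_4b405e_nt.FB Filter

variable {α ν : Type} [Fintype α] [Fintype ν] (σ : Bc α ν)

open Classical in
/-- The facts of the link when the level is uniform on `range (N * η)` and one step has the
length `η`. -/
structure Ld.Ok2 {X : Bd α ν} (Y : Ld X) (η : ℕ) (c θ e : ℝ) : Prop where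
  n0 : (range (Y.N * η)).Nonempty
  law : Law X.P Y.π (prod (FP.unif (range (Y.N * η)) n0) Y.P) id
  fK : Fn X.P (fun ω => (Y.K (Y.π ω).1 (Y.π ω).2, (Y.π ω).1)) X.K
  fZ : ∀ ω ∈ X.P.S, ∀ p, σ.ps p → X.Z ω p = Y.Z (Y.π ω).1 (Y.π ω).2 p
  zb : ∀ l < Y.N * η, ∀ ω ∈ Y.P.S, ∀ p, σ.ps p → |Y.Z l ω p| ≤ Real.exp e
  hu : ∀ p, σ.ps p → Y.h p ≤ X.u
  hn : ∀ l < Y.N * η, ch Y.P (Y.K l) (Y.K (l + η)) ≤ e
  hy : ∀ l < Y.N * η, ch Y.P (fun ω => cut σ.ps (dg Y.h (Y.Z l ω))) (Y.K (l + η)) ≤ e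
  he : ∀ r < η, ch Y.P (Y.K (Y.N * η + r)) (fun ω => (Y.T ω, Y.K r ω)) ≤ Y.N * e
  hc : c ≤ pb Y.P Y.G
  hb : ∀ r < η, ch (cE Y.P Y.G) Y.T (Y.K r) ≤ Y.b
  gap : Y.b + Y.N * (θ * X.u) ≤ Y.N * ∑ p with σ.ps p, Y.h p * lg

/-- The link with steps, in sequence form. -/
def Lk2 (X : ℕ → Bd α ν) : Prop := ∃ (Y : ∀ n, Ld (X n)) (η : ℕ → ℕ) (c θ : ℝ), 0 < c ∧ 0 < θ ∧
  ∀ ε : ℝ, 0 < ε → ∀ᶠ n in UF, (Y n).Ok2 σ (η n) c θ (ε * (X n).u)

theorem sum_steps (f : ℕ → ℝ) (N η : ℕ) :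
    ∑ l ∈ range (N * η), f l = ∑ r ∈ range η, ∑ i ∈ range N, f (i * η + r) := by
  induction N with
  | zero => simp
  | succ N ih => simp only [Nat.succ_mul, sum_range_add, ih, sum_range_succ, sum_add_distrib]

variable {σ} {X : Bd α ν}

omit [Fintype α] in
open Classical in
/-- The link gives the deficiency. -/
theorem Ld.Ok2.low {Y : Ld X} {η : ℕ} {c θ e : ℝ} (h : Y.Ok2 σ η c θ e) (c0 : 0 ≤ c) (t0 : 0 ≤ θ)
    (e0 : 0 ≤ e) (zg : ∀ ω ∈ X.P.S, ∀ p, ∃ k : ℤ, 2 ^ X.u * X.Z ω p = k) :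
    ch X.P (fun ω => ap σ (X.Z ω)) X.K ≤ (univ.filter σ.ps).card * (X.u * lg + (e + 2)) -
      c * (θ * X.u) + (lg + 3 * e) := by
  have N0 : (0 : ℝ) < (Y.N * η : ℕ) :=
    Nat.cast_pos.2 (Nat.pos_of_ne_zero (nonempty_range_iff.1 h.n0))
  have s1 : ∑ p with σ.ps p, (Y.h p * lg + (e + 2)) =
      ∑ p with σ.ps p, Y.h p * lg + (univ.filter σ.ps).card * (e + 2) := by
    rw [sum_add_distrib, sum_const, nsmul_eq_mul]
  have s2 : (∑ p with σ.ps p, ((X.u : ℝ) - Y.h p)) * lg =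
      (univ.filter σ.ps).card * (X.u * lg) - ∑ p with σ.ps p, Y.h p * lg := by
    rw [sum_sub_distrib, sum_const, nsmul_eq_mul, sub_mul, sum_mul, mul_assoc]
  have p1 : 0 ≤ Y.N * (((univ.filter σ.ps).card : ℝ) * (e + 2)) := by positivity
  have p2 : 0 ≤ Y.N * (θ * X.u) := by positivity
  have lt : ∀ r < η, ∀ i < Y.N, i * η + r < Y.N * η := fun r hr i hi => by
    nlinarith [Nat.mul_le_mul_right η (Nat.succ_le_of_lt hi)]
  have st : ∀ i r, (i + 1) * η + r = i * η + r + η := fun i r => by ring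
  have k0 := sum_le_card_nsmul (range η) _ (Y.N * ((univ.filter σ.ps).card *
      (X.u * lg + (e + 2)) - c * (θ * X.u) + (lg + 3 * e))) fun r hr => show ∑ i ∈ range Y.N,
      ch Y.P (fun ω => cut σ.ps (dg (fun _ => X.u) (Y.Z (i * η + r) ω))) (Y.K (i * η + r)) ≤ _ by
    have hr := mem_range.1 hr
    have k := cnt Y.P Y.N (fun i => Y.K (i * η + r))
      (fun i ω => cut σ.ps (dg Y.h (Y.Z (i * η + r) ω))) Y.T Y.G
      (fun i hi => by rw [st]; exact h.hn _ (lt r hr i hi))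
      (fun i hi => by rw [st]; exact h.hy _ (lt r hr i hi))
      (fun i hi => det_dg σ.ps Y.h (Y.Z _) (Y.K _) e0 (h.zb _ (lt r hr i hi))) h.hc
      (by simpa using h.hb r hr) (by rw [s1]; linarith [h.gap]) (by simpa using h.he r hr)
    have k1 := sum_le_sum (s := range Y.N) fun i _ =>
      ch_dg (P := Y.P) σ.ps (h' := fun _ => X.u) h.hu (Y.Z (i * η + r)) (Y.K (i * η + r))
    rw [sum_add_distrib, sum_const, card_range, nsmul_eq_mul, s2] at k1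
    rw [s1] at k
    nlinarith [mul_le_mul_of_nonneg_left h.gap c0, mul_nonneg c0 p1]
  rw [← sum_steps fun l => ch Y.P (fun ω => cut σ.ps (dg (fun _ => X.u) (Y.Z l ω))) (Y.K l),
    card_range, nsmul_eq_mul] at k0
  have k2 : ch X.P (fun ω => ap σ (X.Z ω)) X.K ≤ ch X.P
      (fun ω => cut σ.ps (dg (fun _ => X.u) (Y.Z (Y.π ω).1 (Y.π ω).2)))
      fun ω => (Y.K (Y.π ω).1 (Y.π ω).2, (Y.π ω).1) :=
    ch_le (((grid zg σ.ps).1.trans fun a ha b hb q => funext fun p => by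
      by_cases r : σ.ps p
      · simpa [cut, dg, r, h.fZ a ha p r, h.fZ b hb p r] using congrFun q p
      · simp [cut, r]).left _) h.fK
  rw [h.law.ch_id (fun x => cut σ.ps (dg (fun _ => X.u) (Y.Z x.1 x.2))) fun x => (Y.K x.1 x.2, x.1),
    prod, ch_mix _ (fun _ => Y.P) fun i ω => cut σ.ps (dg (fun _ => X.u) (Y.Z i ω)), FP.E_unif,
    avg, card_range] at k2
  refine k2.trans ((div_le_iff₀ N0).2 (k0.trans_eq ?_))
  push_cast
  ring

theorem Lk2.low {X : ℕ → Bd α ν} (h : Lk2 σ X) (b : Bs σ X) :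
    ∃ θ : ℝ, 0 < θ ∧ ∀ᶠ n in UF, Low σ (X n) θ := by
  classical
  obtain ⟨Y, η, c, θ, c0, t0, h⟩ := h
  have l0 : 0 < lg := Real.log_pos one_lt_two
  obtain ⟨m, hm⟩ : ∃ m : ℝ, m = (univ.filter σ.ps).card := ⟨_, rfl⟩
  have m0 : 0 ≤ m := hm ▸ Nat.cast_nonneg _
  have e0 : 0 < c * θ / (4 * (m + 3)) := by positivity
  refine ⟨c * θ / (2 * lg), by positivity, ?_⟩
  filter_upwards [h _ e0, b.ev 1 one_pos, (tendsto_natCast_atTop_atTop.comp b.big).eventually_ge_atTop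
    ((2 * m + lg) / (c * θ / 4))] with n h1 h2 h3
  have := h1.low c0.le t0.le (by positivity) fun ω hω => (h2.pt ω hω).zg
  rw [div_le_iff₀ (by positivity), Function.comp] at h3
  have q : (m + 3) * (c * θ / (4 * (m + 3)) * (X n).u) = c * θ / 4 * (X n).u := by field_simp
  have q' : c * θ / (2 * lg) * ((X n).u * lg) = c * θ / 2 * (X n).u := by field_simp
  unfold Low
  rw [← hm] at this ⊢
  linarith

theorem spG2 {X : ℕ → Bd α ν} (b : Bs σ X) (l : Lk2 σ X)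
    (f : ∀ r ε : ℝ, 0 < ε → ∀ᶠ n in UF, (X n).Fl σ r ε) : False :=
  (l.low b).elim fun _ h => not_low b h.1 h.2 f

end Pool.Agent.MP_5168f5_an.QA.SG
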