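import Mathlib

/-! Symmetric convex sets: packing, covering, the slab lemma and counting of grid cells. -/

namespace Pool.Agent.MP_4b405e_nt.Geo

open MeasureTheory Set Pointwise Module

/-- A symmetric convex set. -/
structure Sym {E : Type*} [AddCommGroup E] [Module ℝ E] (P : Set E) : Prop where
  cvx : Convex ℝ P
  neg : ∀ x ∈ P, -x ∈ P
  zero : (0 : E) ∈ P

section Alg

variable {E F : Type*} [AddCommGroup E] [Module ℝ E] [AddCommGroup F] [Module ℝ F]
  {P Q : Set E}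

theorem Sym.smul_mem (h : Sym P) {a : ℝ} (ha : |a| ≤ 1) {x : E} (hx : x ∈ P) : a • x ∈ P := by
  rcases le_total 0 a with h0 | h0
  · rw [abs_of_nonneg h0] at ha
    have := h.cvx hx h.zero h0 (sub_nonneg.2 ha) (by ring)
    simpa using this
  · rw [abs_of_nonpos h0] at ha
    have := h.cvx (h.neg x hx) h.zero (neg_nonneg.2 h0) (sub_nonneg.2 ha) (by ring)
    simpa using this

theorem Sym.comb (h : Sym P) {a b : ℝ} (hab : |a| + |b| ≤ 1) {x y : E} (hx : x ∈ P)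
    (hy : y ∈ P) : a • x + b • y ∈ P := by
  have key : ∀ (c : ℝ) (z : E), z ∈ P → ∃ z' ∈ P, c • z = |c| • z' := by
    intro c z hz
    rcases le_total 0 c with h0 | h0
    · exact ⟨z, hz, by rw [abs_of_nonneg h0]⟩
    · exact ⟨-z, h.neg z hz, by rw [abs_of_nonpos h0]; simp⟩
  obtain ⟨x', hx', ex⟩ := key a x hx
  obtain ⟨y', hy', ey⟩ := key b y hy
  rw [ex, ey]
  rcases eq_or_lt_of_le (show |a| ≤ 1 by linarith [abs_nonneg b]) with h1 | h1
  · have hb : |b| = 0 := by linarith [abs_nonneg b]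
    rw [h1, hb]; simpa using hx'
  · have hz : (|b| / (1 - |a|)) • y' ∈ P := by
      refine h.smul_mem ?_ hy'
      rw [abs_of_nonneg (div_nonneg (abs_nonneg b) (by linarith)), div_le_one (by linarith)]
      linarith
    have := h.cvx hx' hz (abs_nonneg a) (show 0 ≤ 1 - |a| by linarith) (by ring)
    rwa [smul_smul, mul_div_cancel₀ _ (by linarith : (1 - |a|) ≠ 0)] at this

theorem Sym.inter (h : Sym P) (h' : Sym Q) : Sym (P ∩ Q) :=
  ⟨h.cvx.inter h'.cvx, fun x hx => ⟨h.neg x hx.1, h'.neg x hx.2⟩, h.zero, h'.zero⟩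

theorem Sym.image (h : Sym P) (π : E →ₗ[ℝ] F) : Sym (π '' P) :=
  ⟨h.cvx.linear_image π, by
    rintro _ ⟨x, hx, rfl⟩; exact ⟨-x, h.neg x hx, by simp⟩, ⟨0, h.zero, by simp⟩⟩

theorem Sym.preimage (h : Sym P) (π : F →ₗ[ℝ] E) : Sym (π ⁻¹' P) :=
  ⟨h.cvx.linear_preimage π, fun x hx => by simpa using h.neg _ hx, by simpa using h.zero⟩

theorem Sym.smul (h : Sym P) (c : ℝ) : Sym (c • P) :=
  ⟨h.cvx.smul c, by
    rintro _ ⟨x, hx, rfl⟩; exact ⟨-x, h.neg x hx, by simp⟩, ⟨0, h.zero, by simp⟩⟩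

theorem sym_slab (ζ : E →ₗ[ℝ] ℝ) {δ : ℝ} (hδ : 0 ≤ δ) : Sym {x | |ζ x| ≤ δ} := by
  refine ⟨fun x hx y hy a b ha hb hab => ?_, fun x hx => by simpa using hx, by simpa using hδ⟩
  simp only [mem_ofPred_eq, map_add, map_smul, smul_eq_mul] at hx hy ⊢
  calc |a * ζ x + b * ζ y| ≤ |a * ζ x| + |b * ζ y| := abs_add_le _ _
    _ = a * |ζ x| + b * |ζ y| := by rw [abs_mul, abs_mul, abs_of_nonneg ha, abs_of_nonneg hb]
    _ ≤ a * δ + b * δ := by gcongr
    _ = δ := by rw [← add_mul, hab, one_mul]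

theorem Sym.smul_mono (h : Sym P) {a b : ℝ} (ha : 0 ≤ a) (hab : a ≤ b) : a • P ⊆ b • P := by
  rintro _ ⟨x, hx, rfl⟩
  rcases eq_or_lt_of_le (ha.trans hab) with h0 | h0
  · have : a = 0 := le_antisymm (h0 ▸ hab) ha
    exact ⟨0, h.zero, by simp [this]⟩
  · refine ⟨(a / b) • x, h.smul_mem ?_ hx, ?_⟩
    · rw [abs_of_nonneg (div_nonneg ha h0.le), div_le_one h0]; exact hab
    · simp only [smul_smul]; rw [mul_div_cancel₀ _ h0.ne']

theorem Sym.smul_sub (h : Sym P) {a : ℝ} (ha : 0 ≤ a) (h1 : a ≤ 1) : a • P ⊆ P := by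
  simpa using h.smul_mono ha h1

theorem Sym.add_mem (h : Sym P) {a b : ℝ} (ha : 0 ≤ a) (hb : 0 ≤ b) {x y : E} (hx : x ∈ a • P)
    (hy : y ∈ b • P) : x + y ∈ (a + b) • P := by
  rw [h.cvx.add_smul ha hb]; exact add_mem_add hx hy

theorem Sym.sub_mem (h : Sym P) {a b : ℝ} (ha : 0 ≤ a) (hb : 0 ≤ b) {x y : E} (hx : x ∈ a • P)
    (hy : y ∈ b • P) : x - y ∈ (a + b) • P := by
  rw [sub_eq_add_neg]; exact h.add_mem ha hb hx ((h.smul b).neg y hy)

/-- The shadow of `D ∩ π ⁻¹ (c • π D)` is exactly `c • π D`. -/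
theorem Sym.shadow (h : Sym P) (π : E →ₗ[ℝ] F) {c : ℝ} (hc : 0 ≤ c) (h1 : c ≤ 1) :
    π '' (P ∩ π ⁻¹' (c • π '' P)) = c • π '' P := by
  apply Subset.antisymm
  · rintro _ ⟨x, hx, rfl⟩; exact hx.2
  · rintro _ ⟨_, ⟨x, hx, rfl⟩, rfl⟩
    refine ⟨c • x, ⟨h.smul_mem (by rwa [abs_of_nonneg hc]) hx, ?_⟩, by simp⟩
    exact ⟨π x, ⟨x, hx, rfl⟩, by simp⟩

theorem image_smul (π : E →ₗ[ℝ] F) (c : ℝ) (P : Set E) : π '' (c • P) = c • π '' P := by
  apply Subset.antisymm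
  · rintro _ ⟨_, ⟨x, hx, rfl⟩, rfl⟩; exact ⟨π x, ⟨x, hx, rfl⟩, by simp⟩
  · rintro _ ⟨_, ⟨x, hx, rfl⟩, rfl⟩; exact ⟨c • x, ⟨x, hx, rfl⟩, by simp⟩

end Alg

section Meas

variable {E : Type*} [NormedAddCommGroup E] [NormedSpace ℝ E] [FiniteDimensional ℝ E]
  [MeasurableSpace E] [BorelSpace E] (μ : Measure E) [μ.IsAddHaarMeasure]

/-- Packing of translates of a convex set. -/
theorem pack {α : Type*} (T : Finset α) (t : α → E) {Q R : Set E} (hQ : Convex ℝ Q)
    (hR : ∀ a ∈ T, ∀ q ∈ Q, t a + q ∈ R)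
    (hd : ∀ a ∈ T, ∀ b ∈ T, ∀ q ∈ Q, ∀ q' ∈ Q, t a + q = t b + q' → a = b) :
    (T.card : ENNReal) * μ Q ≤ μ R := by
  have h1 : μ (⋃ a ∈ T, t a +ᵥ Q) = ∑ a ∈ T, μ (t a +ᵥ Q) := by
    refine measure_biUnion_finset₀ (fun a ha b hb hab => Disjoint.aedisjoint ?_)
      fun a _ => (hQ.vadd _).nullMeasurableSet μ
    refine disjoint_left.2 ?_
    rintro _ ⟨q, hq, rfl⟩ ⟨q', hq', e⟩
    exact hab (hd a ha b hb q hq q' hq' (by simpa using e.symm))
  have h2 : μ (⋃ a ∈ T, t a +ᵥ Q) ≤ μ R := by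
    refine measure_mono (iUnion₂_subset fun a ha => ?_)
    rintro _ ⟨q, hq, rfl⟩; exact hR a ha q hq
  rw [h1] at h2
  simpa [measure_vadd] using h2

theorem vol_smul {c : ℝ} (hc : 0 ≤ c) (P : Set E) :
    μ (c • P) = ENNReal.ofReal (c ^ finrank ℝ E) * μ P := by
  rw [Measure.addHaar_smul, abs_of_nonneg (pow_nonneg hc _)]

theorem real_smul {c : ℝ} (hc : 0 ≤ c) (P : Set E) :
    μ.real (c • P) = c ^ finrank ℝ E * μ.real P := by
  rw [Measure.real, vol_smul μ hc, ENNReal.toReal_mul, ENNReal.toReal_ofReal (pow_nonneg hc _)]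
  rfl

/-- Packing, real form. -/
theorem pack_real {α : Type*} (T : Finset α) (t : α → E) {Q R : Set E} (hQ : Convex ℝ Q)
    (hf : μ R ≠ ⊤) (hR : ∀ a ∈ T, ∀ q ∈ Q, t a + q ∈ R)
    (hd : ∀ a ∈ T, ∀ b ∈ T, ∀ q ∈ Q, ∀ q' ∈ Q, t a + q = t b + q' → a = b) :
    (T.card : ℝ) * μ.real Q ≤ μ.real R := by
  have := ENNReal.toReal_mono hf (pack μ T t hQ hR hd)
  rwa [ENNReal.toReal_mul, ENNReal.toReal_natCast] at this

theorem smul_ne_top {P : Set E} (hf : μ P ≠ ⊤) {c : ℝ} (hc : 0 ≤ c) : μ (c • P) ≠ ⊤ := by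
  rw [vol_smul μ hc]; exact ENNReal.mul_ne_top ENNReal.ofReal_ne_top hf

/-- Covering: a finite set with differences in `P` has a small net. -/
theorem cover {P : Set E} (h : Sym P) (h0 : μ P ≠ 0) (hf : μ P ≠ ⊤) (S : Finset E)
    (hS : ∀ x ∈ S, ∀ y ∈ S, x - y ∈ P) {c : ℝ} (hc : 0 < c) (h1 : c ≤ 1) :
    ∃ T : Finset E, T ⊆ S ∧ (T.card : ℝ) ≤ (5 / c) ^ finrank ℝ E ∧
      ∀ x ∈ S, ∃ t ∈ T, x - t ∈ (c / 2) • P := by
  classical
  obtain ⟨T, hT, hmax⟩ := Finset.exists_max_image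
    (S.powerset.filter fun T => ∀ a ∈ T, ∀ b ∈ T, a - b ∈ (c / 2) • P → a = b) Finset.card
    ⟨∅, by simp⟩
  obtain ⟨hTS, hsep⟩ := Finset.mem_filter.1 hT
  have hTS := Finset.mem_powerset.1 hTS
  refine ⟨T, hTS, ?_, fun x hx => ?_⟩
  · rcases T.eq_empty_or_nonempty with rfl | ⟨x0, hx0⟩
    · simp only [Finset.card_empty, Nat.cast_zero]; positivity
    have hp : 0 < μ.real P := ENNReal.toReal_pos h0 hf
    have := pack_real μ T id (Q := (c / 4) • P) (R := x0 +ᵥ (5 / 4 : ℝ) • P)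
      (h.smul _).cvx (by rw [measure_vadd]; exact smul_ne_top μ hf (by norm_num)) ?_ ?_
    · rw [Measure.real, Measure.real, measure_vadd, ← Measure.real, ← Measure.real,
        real_smul μ (by positivity), real_smul μ (by norm_num), ← mul_assoc] at this
      have h3 := le_of_mul_le_mul_right this hp
      have e : (5 / c) ^ finrank ℝ E = (5 / 4 : ℝ) ^ finrank ℝ E / (c / 4) ^ finrank ℝ E := by
        rw [← div_pow]; congr 1; field_simp
      rw [e, le_div_iff₀ (by positivity)]; exact h3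
    · intro a ha q hq
      refine ⟨a - x0 + q, ?_, by simp only [vadd_eq_add, id]; abel⟩
      have := h.add_mem zero_le_one (by norm_num : (0 : ℝ) ≤ 1 / 4) (x := a - x0) (y := q)
        (by simpa using hS a (hTS ha) x0 (hTS hx0))
        (h.smul_mono (by positivity) (by linarith) hq)
      norm_num at this ⊢; exact this
    · intro a ha b hb q hq q' hq' e
      refine hsep a ha b hb ?_
      have := h.sub_mem (by positivity) (by positivity) hq' hq
      have e2 : a - b = q' - q := by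
        simp only [id] at e; rw [sub_eq_sub_iff_add_eq_add, e, add_comm]
      rw [e2]; convert this using 2; ring
  · by_contra hn
    push Not at hn
    have hxT : x ∉ T := fun hxT => hn x hxT (by simpa using (h.smul (c / 2)).zero)
    have := hmax (insert x T) (Finset.mem_filter.2 ⟨Finset.mem_powerset.2
      (Finset.insert_subset hx hTS), fun a ha b hb hab => ?_⟩)
    · rw [Finset.card_insert_of_notMem hxT] at this; omega
    · rcases Finset.mem_insert.1 ha with rfl | ha' <;> rcases Finset.mem_insert.1 hb with rfl | hb'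
      · rfl
      · exact absurd hab (hn b hb')
      · exact absurd (by simpa using (h.smul (c / 2)).neg _ hab) (hn a ha')
      · exact hsep a ha' b hb' hab

/-- Covering as a label. -/
theorem label [DecidableEq E] {P : Set E} (h : Sym P) (h0 : μ P ≠ 0) (hf : μ P ≠ ⊤)
    (S : Finset E) (hS : ∀ x ∈ S, ∀ y ∈ S, x - y ∈ P) {c : ℝ} (hc : 0 < c) (h1 : c ≤ 1) :
    ∃ f : E → E, ((S.image f).card : ℝ) ≤ (5 / c) ^ finrank ℝ E ∧
      ∀ x ∈ S, ∀ y ∈ S, f x = f y → x - y ∈ c • P := by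
  classical
  obtain ⟨T, -, hc', hT⟩ := cover μ h h0 hf S hS hc h1
  choose! f hf1 hf2 using hT
  refine ⟨f, le_trans ?_ hc', fun x hx y hy e => ?_⟩
  · exact_mod_cast Finset.card_le_card (Finset.image_subset_iff.2 hf1)
  · have := h.sub_mem (by positivity) (by positivity) (hf2 x hx) (hf2 y hy)
    rwa [e, add_halves, sub_sub_sub_cancel_right] at this

/-- The slab lemma. -/
theorem slab {F : Type*} [AddCommGroup F] [Module ℝ F] (π : F →ₗ[ℝ] E) (ζ : F →ₗ[ℝ] ℝ)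
    {D D' : Set F} (h : Sym D) (h' : Sym D') (hs : D' ⊆ D) (hf : μ (π '' D) ≠ ⊤) {δ e : ℝ}
    (hδ : ∀ x ∈ D', |ζ x| ≤ δ) (he : ∀ x ∈ D, π x = 0 → |ζ x| ≤ e) {x0 : F} (hx0 : x0 ∈ D)
    {k : ℕ} (hk : k * (2 * δ + 3 * e) < |ζ x0|) :
    (k + 1 : ℝ) * μ.real (π '' D') ≤ 2 ^ finrank ℝ E * μ.real (π '' D) := by
  have hδ0 : 0 ≤ δ := by simpa using hδ 0 h'.zero
  have he0 : 0 ≤ e := by simpa using he 0 h.zero (by simp)
  have hk1 : (0 : ℝ) < max (k : ℝ) 1 := lt_max_of_lt_right one_pos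
  have hle : ∀ i ∈ Finset.range (k + 1), (0 : ℝ) ≤ i / (2 * max (k : ℝ) 1) ∧
      (i : ℝ) / (2 * max (k : ℝ) 1) ≤ 1 / 2 := by
    intro i hi
    have : (i : ℝ) ≤ max (k : ℝ) 1 :=
      le_max_of_le_left (by exact_mod_cast Nat.lt_succ_iff.1 (Finset.mem_range.1 hi))
    refine ⟨by positivity, ?_⟩
    rw [div_le_div_iff₀ (by positivity) (by norm_num)]; linarith
  have := pack_real μ (Finset.range (k + 1)) (fun i : ℕ => ((i : ℝ) / (2 * max (k : ℝ) 1)) • π x0)
    (Q := (1 / 2 : ℝ) • π '' D') (R := π '' D) ((h'.image π).smul _).cvx hf ?_ ?_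
  · rw [real_smul μ (by norm_num), Finset.card_range] at this
    push_cast at this
    have e2 : (2 : ℝ) ^ finrank ℝ E * (1 / 2) ^ finrank ℝ E = 1 := by
      rw [← mul_pow]; norm_num
    calc (k + 1 : ℝ) * μ.real (π '' D')
        = 2 ^ finrank ℝ E * ((k + 1 : ℝ) * ((1 / 2) ^ finrank ℝ E * μ.real (π '' D'))) := by
          rw [mul_left_comm, ← mul_assoc (2 ^ finrank ℝ E), e2, one_mul]
      _ ≤ _ := by gcongr
  · rintro i hi _ ⟨_, ⟨x, hx, rfl⟩, rfl⟩
    refine (h.image π).comb ?_ ⟨x0, hx0, rfl⟩ ⟨x, hs hx, rfl⟩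
    rw [abs_of_nonneg (hle i hi).1, abs_of_nonneg (by norm_num)]; linarith [(hle i hi).2]
  · rintro i hi j hj _ ⟨_, ⟨x, hx, rfl⟩, rfl⟩ _ ⟨_, ⟨y, hy, rfl⟩, rfl⟩ e1
    by_contra hij
    have hk0 : k ≠ 0 := by
      rintro rfl
      simp only [zero_add, Finset.range_one, Finset.mem_singleton] at hi hj
      exact hij (hi.trans hj.symm)
    have hm : max (k : ℝ) 1 = k := max_eq_left (by exact_mod_cast Nat.one_le_iff_ne_zero.2 hk0)
    have hkp : (0 : ℝ) < k := by rwa [hm] at hk1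
    set a : ℝ := i / (2 * max (k : ℝ) 1) - j / (2 * max (k : ℝ) 1) with ha
    have ha1 : |a| ≤ 1 / 2 := by
      rw [abs_le]; constructor <;> linarith [(hle i hi).1, (hle i hi).2, (hle j hj).1, (hle j hj).2]
    have ha2 : 1 / (2 * k) ≤ |a| := by
      have : (1 : ℝ) ≤ |(i : ℝ) - j| := by
        have : (1 : ℤ) ≤ |(i : ℤ) - j| := Int.one_le_abs (sub_ne_zero.2 (by exact_mod_cast hij))
        exact_mod_cast this
      rw [ha, hm, ← sub_div, abs_div, abs_of_pos (by positivity : (0 : ℝ) < 2 * k)]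
      gcongr
    have hw : (1 / 2 : ℝ) • x + (-(1 / 2) : ℝ) • y ∈ D' := h'.comb (by norm_num [abs_of_pos]) hx hy
    set w := (1 / 2 : ℝ) • x + (-(1 / 2) : ℝ) • y with hw'
    have hy2 : (2 / 3 * a) • x0 + (2 / 3 : ℝ) • w ∈ D := by
      refine h.comb ?_ hx0 (hs hw)
      rw [abs_mul, abs_of_pos (by norm_num : (0 : ℝ) < 2 / 3)]; linarith
    have hπ : π ((2 / 3 * a) • x0 + (2 / 3 : ℝ) • w) = 0 := by
      have : a • π x0 + π w = 0 := by
        simp only at e1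
        rw [ha, hw', sub_smul, map_add, map_smul, map_smul, neg_smul, ← sub_eq_zero.2 e1]
        abel
      rw [map_add, map_smul, map_smul, mul_smul, ← smul_add, this, smul_zero]
    have h3 := he _ hy2 hπ
    have h4 := hδ _ hw
    rw [map_add, map_smul, map_smul, smul_eq_mul, smul_eq_mul, mul_assoc, ← mul_add, abs_mul,
      abs_of_pos (by norm_num : (0 : ℝ) < 2 / 3)] at h3
    have h5 : |a| * |ζ x0| ≤ |a * ζ x0 + ζ w| + |ζ w| := by
      rw [← abs_mul]
      simpa using abs_sub (a * ζ x0 + ζ w) (ζ w)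
    have h6 : 1 / (2 * k) * |ζ x0| ≤ |a| * |ζ x0| := by gcongr
    have h7 : |ζ x0| ≤ 2 * k * (3 / 2 * e + δ) := by
      rw [div_mul_eq_mul_div, one_mul, div_le_iff₀ (by positivity)] at h6
      nlinarith
    nlinarith

/-- A cut of a symmetric convex set. -/
theorem cut (ζ : E →ₗ[ℝ] ℝ) {D D' : Set E} (h : Sym D) (h' : Sym D') (hs : D' ⊆ D)
    (hf : μ D ≠ ⊤) {δ : ℝ} (hδ : ∀ x ∈ D', |ζ x| ≤ δ) {x0 : E} (hx0 : x0 ∈ D) {k : ℕ}
    (hk : k * (2 * δ) < |ζ x0|) :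
    (k + 1 : ℝ) * μ.real D' ≤ 2 ^ finrank ℝ E * μ.real D := by
  have := slab μ LinearMap.id ζ h h' hs (by simpa using hf) hδ (e := 0)
    (fun x _ hx => by rw [show x = 0 from hx]; simp) hx0 (k := k) (by simpa using hk)
  simpa using this

end Meas

/-- Grid cells met by a finite set with differences in `P`. -/
theorem cells {ι : Type*} [Fintype ι] [DecidableEq ι] {P : Set (ι → ℝ)} (h : Sym P)
    (hf : volume P ≠ ⊤) {r : ℝ} (hr : 0 < r) (hb : ∀ x : ι → ℝ, (∀ i, |x i| ≤ r) → x ∈ P)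
    (S : Finset (ι → ℝ)) (hS : ∀ x ∈ S, ∀ y ∈ S, x - y ∈ P) :
    ((S.image fun x i => ⌊x i / r⌋).card : ℝ) * r ^ Fintype.card ι ≤
      2 ^ Fintype.card ι * volume.real P := by
  rcases S.eq_empty_or_nonempty with rfl | ⟨x0, hx0⟩
  · simp only [Finset.image_empty, Finset.card_empty, Nat.cast_zero, zero_mul]; positivity
  have := pack_real volume (S.image fun x i => ⌊x i / r⌋) (fun z i => r * z i)
    (Q := Set.pi univ fun _ => Ico 0 r) (R := x0 +ᵥ (2 : ℝ) • P)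
    (convex_pi fun _ _ => convex_Ico 0 r)
    (by rw [measure_vadd]; exact smul_ne_top _ hf (by norm_num)) ?_ ?_
  · rw [Measure.real, Measure.real, measure_vadd, ← Measure.real, ← Measure.real,
      real_smul _ (by norm_num), finrank_fintype_fun_eq_card, Measure.real,
      Real.volume_pi_Ico_toReal (fun _ => hr.le)] at this
    simpa using this
  · intro z hz q hq
    obtain ⟨x, hx, rfl⟩ := Finset.mem_image.1 hz
    refine ⟨(x - x0) + ((fun i => r * ⌊x i / r⌋) + q - x), ?_, by simp only [vadd_eq_add]; abel⟩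
    have := h.add_mem zero_le_one zero_le_one (x := x - x0)
      (y := (fun i => r * ⌊x i / r⌋) + q - x) (by simpa using hS x hx x0 hx0) (by
        rw [one_smul]
        refine hb _ fun i => ?_
        have h1 := Int.floor_le (x i / r)
        have h2 := Int.lt_floor_add_one (x i / r)
        have h3 := hq i (mem_univ i)
        rw [le_div_iff₀ hr] at h1
        rw [div_lt_iff₀ hr] at h2
        simp only [Pi.sub_apply, Pi.add_apply, abs_le]
        constructor <;> nlinarith [h3.1, h3.2])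
    norm_num at this ⊢; exact this
  · intro z _ z' _ q hq q' hq' e
    funext i
    have e1 := congrFun e i
    have h3 := hq i (mem_univ i)
    have h4 := hq' i (mem_univ i)
    simp only [Pi.add_apply] at e1
    have h5 : ((z i : ℝ) - z' i) * r < 1 * r := by nlinarith [h3.1, h4.2]
    have h6 : ((z' i : ℝ) - z i) * r < 1 * r := by nlinarith [h3.2, h4.1]
    have h7 : z i - z' i < 1 := by exact_mod_cast lt_of_mul_lt_mul_right h5 hr.le
    have h8 : z' i - z i < 1 := by exact_mod_cast lt_of_mul_lt_mul_right h6 hr.le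
    omega

end Pool.Agent.MP_4b405e_nt.Geo
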