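import Pool.Agent.MP_4b405e_nt.SK.FDefs

/-! Sparse heights: the joining norm on an event that is large in the second unit. -/

namespace Pool.Agent.MP_5168f5_an.QA

namespace NJ

open Finset AN.C1 Real

theorem njLinW (m : ℕ) : ∃ C : ℕ, 1 ≤ C ∧ ∀ (V : Type) [AddCommGroup V] [Module ℝ V]
    [FiniteDimensional ℝ V] (B : V → ℝ), Module.finrank ℝ V = m → Hb B →
    ∃ (R : (V → ℝ) → (ℕ → ℝ) → (Fin m → ℕ) → V → ℝ)
      (Ls : (V → ℝ) → (ℕ → ℝ) → (Fin m → ℕ) → Finset (V → ℝ)), (∀ ν cl a, (Ls ν cl a).card ≤ C) ∧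
      ∀ (s : ℕ) (ν ν' : V → ℝ) (cl : ℕ → ℝ) (De : ℝ), 1 ≤ s → Hb ν → Hb ν' → 0 ≤ De →
        (∀ k ≤ m, |sg B k ν - cl k| ≤ De ∧ |sg B k ν' - cl k| ≤ De) →
        ∃ (a : Fin m → ℕ) (μ : V → ℝ), (∀ k, s ∣ a k) ∧ R ν' cl a ∈ Ls ν cl a ∧
          Out C (De + s) B ν ν' μ (R ν' cl a) a := by
  obtain ⟨K, K1, hK⟩ := top m
  obtain ⟨Γ, hΓ⟩ : ∃ Γ : ℝ, Γ = m * (m + 1) + 1 := ⟨_, rfl⟩
  have G1 : 1 ≤ Γ := by rw [hΓ]; nlinarith [Nat.cast_nonneg (α := ℝ) m]
  obtain ⟨C1, c1, hg⟩ := gain m G1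
  obtain ⟨C2, hn⟩ := net m (m * m)
  obtain ⟨c, hc⟩ : ∃ c : ℝ, c = 2 * m ^ 3 + 1 := ⟨_, rfl⟩
  have m0 := Nat.cast_nonneg (α := ℝ) m
  have m3 : (m : ℝ) ≤ m ^ 3 ∧ (m : ℝ) * m ≤ m ^ 3 := by
    rcases m with _ | m
    · simp
    · have : (1 : ℝ) ≤ (m + 1 : ℕ) := by simp
      constructor <;> nlinarith [mul_nonneg m0 m0]
  have c0 : 1 ≤ c := by rw [hc]; linarith
  have l1 := log_nonneg K1
  have l2 := log_nonneg G1
  have l3 := log_nonneg c1
  have l4 := log_nonneg c0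
  have l5 := mul_nonneg m0 l2
  have l6 := mul_nonneg m0 l4
  obtain ⟨q, hq⟩ : ∃ q, q = 12 + log C1 + log Γ + 10 * log K + m * log Γ := ⟨_, rfl⟩
  obtain ⟨C, hC⟩ := exists_nat_ge (q + 3 + C2 + Γ + 2 * m + 2 * (m * log c) + 2 * log c)
  have n2 := Nat.cast_nonneg (α := ℝ) C2
  have qC : q ≤ C := by linarith
  have oC : (1 : ℝ) ≤ C := by linarith
  have mC : (m : ℝ) ≤ C := by linarith
  refine ⟨C, by exact_mod_cast (show (1 : ℝ) ≤ C by linarith), fun V _ _ _ B rk hB => ?_⟩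
  obtain ⟨r, L, h1, h2⟩ := hn V rk
  have ex : ∀ ν : V → ℝ, ∃ b : Module.Basis (Fin m) ℝ V, Hb ν → ∃ l, Ax B ν b l := fun ν => by
    by_cases h : Hb ν
    · exact (two rk hB h).imp fun _ u _ => u
    · exact ⟨Module.finBasisOfFinrankEq ℝ V rk, fun u => absurd u h⟩
  choose ax hx using ex
  refine ⟨fun ν cl a => r (dn (ax ν) (tl cl a)), fun ν cl a => L (dn (ax ν) (tl cl a)),
    fun _ _ _ => (h1 _).trans (by exact_mod_cast (show (C2 : ℝ) ≤ C by linarith)),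
    fun s ν ν' cl De s1 h h' d0 e => ?_⟩
  have s2 : (1 : ℝ) ≤ s := by exact_mod_cast s1
  have s3 : (0 : ℝ) < s := by linarith
  obtain ⟨l, x⟩ := hx ν h
  obtain ⟨l', x'⟩ := hx ν' h'
  obtain ⟨μ, hm, u0, ad⟩ := meet rk h h'
  have u : ∀ y, μ y ≤ Γ * ν y ∧ μ y ≤ Γ * ν' y := fun y => by
    rw [hΓ]; constructor <;> linarith [(u0 y).1, (u0 y).2, h.nonneg y, h'.nonneg y]
  have n := nr x.pos K1 (fun k => rho_pos h hB rk) (hK V B ν _ l hB h x) fun k hk => (e k hk).1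
  have n' := nr x'.pos K1 (fun k => rho_pos h' hB rk) (hK V B ν' _ l' hB h' x')
    fun k hk => (e k hk).2
  set D := 2 * De + 2 * log K with hD
  let a : Fin m → ℕ := fun k => s * ⌈(sg B k μ - sg B k ν + q * (De + 1)) / s⌉₊
  have g0 : ∀ k : Fin m, sg B k ν ≤ sg B k μ + m * log Γ := fun k =>
    sg_le rk hB hm h G1 (fun y => (u y).1) k.2.le
  have q1 : log C1 + log Γ + 5 * D + 2 * De + m * log Γ ≤ q * (De + 1) := by
    rw [hq, hD]; nlinarith
  have a1 : ∀ k : Fin m, sg B k μ - sg B k ν + q * (De + 1) ≤ a k := fun k => by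
    have := Nat.le_ceil ((sg B k μ - sg B k ν + q * (De + 1)) / s)
    rw [div_le_iff₀' s3] at this
    simpa only [a, Nat.cast_mul] using this
  have a2 : ∀ k : Fin m, a k ≤ sg B k μ - sg B k ν + q * (De + 1) + s := fun k => by
    have := (Nat.ceil_lt_add_one (show 0 ≤ (sg B k μ - sg B k ν + q * (De + 1)) / s from
      div_nonneg (by linarith [g0 k]) s3.le)).le
    rw [div_add_one s3.ne', le_div_iff₀' s3] at this
    simpa only [a, Nat.cast_mul] using this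
  have a3 : ∀ k, D ≤ a k := fun k => by linarith [g0 k, a1 k]
  have cr : ∀ {ν ν' b b' l l'}, Hb ν → Ax B ν b l → Ax B ν' b' l' → Nr cl l D → Nr cl l' D →
      (∀ y, μ y ≤ Γ * ν y ∧ μ y ≤ Γ * ν' y) →
      (∀ k : Fin m, sg B k μ - sg B k ν + log C1 + log Γ + 4 * D ≤ a k) →
      ∀ y, dn b (tl cl a) y ≤ m * m * dn b' (tl cl a) y := fun {ν ν' b b' l l'} h x x' n n' u w =>
    cross x x' n fun k j kj => by
      have b1 : l' k ≤ exp (2 * D) * l k := (n' k).1.trans (le_trans (by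
        rw [← exp_add]; exact exp_le_exp.2 (by linarith))
        (mul_le_mul_of_nonneg_left (n k).2 (exp_pos _).le))
      have b2 := hg V B ν μ b l k (b' j) (Γ * exp (2 * D)) hB h hm x (fun y => (u y).1)
        (one_le_mul_of_one_le_of_one_le G1 (one_le_exp (by linarith))) (by simpa using x'.db.1 j)
        ((u _).2.trans (by
          rw [mul_assoc]
          gcongr
          exact (x'.dg.1 j).trans (by simpa using (x'.anti kj).trans b1)))
      have p := rho_pos h hB rk k.2.le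
      have p' := rho_pos hm hB rk k.2.le
      have b3 : C1 * (Γ * exp (2 * D)) * rho k ν B * exp (2 * D) ≤ exp (a k) * rho k μ B := by
        rw [← exp_log p, ← exp_log p', ← exp_log (show 0 < C1 by linarith),
          ← exp_log (show 0 < Γ by linarith)]
        simp only [← exp_add]
        exact exp_le_exp.2 (by have := w k; simp only [sg] at this; linarith)
      refine le_of_mul_le_mul_right ?_ p'
      nlinarith [mul_le_mul_of_nonneg_right b2 (exp_pos (2 * D)).le,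
        mul_le_mul_of_nonneg_right b3 (x.pos k).le]
  have c12 := cr h x x' n n' u fun k => by linarith [a1 k]
  have c21 := cr h' x' x n' n (fun y => (u y).symm) fun k => by
    linarith [a1 k, abs_le.1 (e k k.2.le).1, abs_le.1 (e k k.2.le).2]
  have N1 := dn_hb (ax ν) (tl_pos (cl := cl) (a := a))
  have N2 := dn_hb (ax ν') (tl_pos (cl := cl) (a := a))
  obtain ⟨t1, t2, t3⟩ := h2 _ N2
  have lo : ∀ {ν b l}, Hb ν → Ax B ν b l → Nr cl l D → ∀ y, c * ν y ≤ m * dn b (tl cl a) y :=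
    fun {ν b l} h x n y => by
      have := cmp x.dg (dn_dg b (tl_pos (cl := cl) (a := a))) h (s := c⁻¹) (by positivity)
        (fun i => by rw [le_inv_mul_iff₀ (by linarith), hc]; exact tl_lo x n a3 i) y
      rwa [mul_comm (m : ℝ), mul_assoc, le_inv_mul_iff₀ (by linarith)] at this
  have hi : ∀ {ν b l}, Hb ν → Ax B ν b l → Nr cl l D → ∀ y,
      dn b (tl cl a) y ≤ m * (c * exp (2 * ∑ i, (a i : ℝ))) * ν y := fun {ν b l} h x n y =>
    cmp (dn_dg b tl_pos) x.dg (dn_hb b tl_pos) (by positivity)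
      (fun i => hc ▸ tl_up n a3 i (subset_univ _)) y
  have s0 : (0 : ℝ) ≤ ∑ i, (a i : ℝ) := by positivity
  have ee : c * (c * exp (2 * ∑ i, (a i : ℝ))) ≤ exp (C * (∑ i, (a i : ℝ) + 1)) := by
    rw [← exp_log (show 0 < c by linarith)]
    simp only [← exp_add]
    exact exp_le_exp.2 (by nlinarith)
  have t4 : ∀ y, r (dn (ax ν') (tl cl a)) y ≤ c * dn (ax ν) (tl cl a) y := fun y => by
    nlinarith [(t2 y).2, c21 y, N1.nonneg y]
  have gg : ∀ k : Fin m, a k ≤ sg B k μ - sg B k ν + C * (De + s + 1) := fun k => by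
    nlinarith [a2 k, mul_le_mul_of_nonneg_right qC (show 0 ≤ De + 1 by linarith),
      mul_le_mul_of_nonneg_right oC s3.le]
  refine ⟨a, μ, fun _ => Dvd.intro _ rfl, t3 _ N1 fun y => by push_cast; exact ⟨c21 y, c12 y⟩, hm, t1, fun y => ?_,
    fun y => ?_, fun y => ?_, ad, fun k => gg k, fun k => ?_, fun J J0 w k => ?_⟩
  · have b1 := (t2 y).1
    have b2 := t1.nonneg y
    have b3 := mul_le_mul_of_nonneg_left ((c12 y).trans (mul_le_mul_of_nonneg_left b1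
      (by positivity))) m0
    constructor <;> refine le_of_mul_le_mul_left ?_ (show 0 < c by linarith)
    · nlinarith [lo h x n y]
    · nlinarith [lo h' x' n' y, mul_le_mul_of_nonneg_left b1 m0]
  · have b0 : 0 ≤ c * exp (2 * ∑ i, (a i : ℝ)) := by positivity
    constructor
    · refine le_trans ?_ (mul_le_mul_of_nonneg_right ee (h.nonneg y))
      have b1 := mul_le_mul_of_nonneg_left (hi h x n y) (mul_nonneg m0 m0)
      nlinarith [(t2 y).2, c21 y, mul_nonneg b0 (h.nonneg y)]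
    · refine le_trans ?_ (mul_le_mul_of_nonneg_right ee (h'.nonneg y))
      nlinarith [(t2 y).2, hi h' x' n' y, mul_nonneg b0 (h'.nonneg y)]
  · constructor <;> nlinarith [(u y).1, (u y).2, h.nonneg y, h'.nonneg y]
  · have b0 : (0 : ℝ) ≤ ∑ i ∈ Iic k, (a i : ℝ) := by positivity
    have b1 := sg_le rk hB t1 N1 c0 t4 (k := k + 1) k.2
    have b2 := (hK V B _ _ _ hB N1 (x.dn tl_pos tl_anti) (k + 1) k.2).1
    have b3 := pk_le (s := c * exp (2 * ∑ i ∈ Iic k, (a i : ℝ))) (k := k + 1)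
      (one_le_mul_of_one_le_of_one_le c0 (one_le_exp (by linarith))) tl_pos x.pos
      fun i hi => hc ▸ tl_up n a3 i (Iic_subset_Iic.2 (Nat.le_of_lt_succ hi))
    have b4 := (hK V B ν _ l hB h x (k + 1) k.2).2
    have b5 := log_le_log (rho_pos N1 hB rk k.2) (b2.trans (mul_le_mul_of_nonneg_left
      (b3.trans (mul_le_mul_of_nonneg_left b4 (by positivity))) (by linarith)))
    have p := rho_pos h hB rk (k := k + 1) k.2
    rw [log_mul (by positivity) (by positivity), log_mul (by positivity) (by positivity),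
      log_mul (by positivity) (by positivity), log_pow, log_mul (by positivity) (by positivity),
      log_exp] at b5
    simp only [sg] at b1 ⊢
    nlinarith
  · have b1 := sg_le rk hB h hm (one_le_exp J0) (le_meet h ad (one_le_exp J0) w) k.2.le
    rw [log_exp] at b1
    nlinarith [a2 k, mul_le_mul_of_nonneg_right qC (show 0 ≤ De + 1 by linarith),
      mul_le_mul_of_nonneg_right oC s3.le, mul_le_mul_of_nonneg_right mC J0]

end NJ

section Pt

open Finset AN AN.C1 Real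
open BdA (hb_Bn)

theorem jnPtW (N D : ℕ) : ∃ C : ℕ, 1 ≤ C ∧
    ∃ (R : (VD N D → ℝ) → (ℕ → ℝ) → (Fin (dV N D) → ℕ) → VD N D → ℝ)
      (Ls : (VD N D → ℝ) → (ℕ → ℝ) → (Fin (dV N D) → ℕ) → Finset (VD N D → ℝ)),
      (∀ ν cen a, (Ls ν cen a).card ≤ C) ∧
      ∀ (s : ℕ) (ν ν' : VD N D → ℝ) (cen : ℕ → ℝ) (De η : ℝ), 1 ≤ s → Hb ν → Hb ν' → 0 < η → η ≤ 1 →
        pen cen ν ≤ De → pen cen ν' ≤ De → ∃ a : Fin (dV N D) → ℕ, (∀ k, s ∣ a k) ∧
          R ν' cen a ∈ Ls ν cen a ∧ Hb (R ν' cen a) ∧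
          (∀ F, ν F ≤ R ν' cen a F ∧ ν' F ≤ R ν' cen a F) ∧
          ∑ k : Fin (dV N D), η ^ (k : ℕ) * (a k : ℝ) ≤ gn η ν ν' + C * (De + s + 1) ∧
          (∀ r, 0 ≤ r → (∀ F, ν F ≤ exp r * ν' F) → ∀ k, (a k : ℝ) ≤ C * (r + (De + s) + 1)) ∧
          ∀ b, ∑ k : Fin (dV N D), η ^ (k : ℕ) * (a k : ℝ) ≤ b →
            (∀ k, (a k : ℝ) ≤ b / η ^ dV N D) ∧
            (∀ F, R ν' cen a F ≤ exp (C * (b / η ^ dV N D + 1)) * ν F) ∧
            dsp (R ν' cen a) ν ≤ C * (b / η ^ dV N D + 1) ∧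
            pen cen (R ν' cen a) ≤ De + C * (b / η ^ dV N D + 1) ∧
            Psi η ν - Psi η (R ν' cen a) ≤ C * η * (b + 1) := by
  obtain ⟨C, C1, hC⟩ := NJ.njLinW (dV N D)
  obtain ⟨R, Ls, hL, h⟩ := hC (VD N D) Bn rfl hb_Bn
  have c1 : (1 : ℝ) ≤ C := by exact_mod_cast C1
  have d0 := Nat.cast_nonneg (α := ℝ) (dV N D)
  obtain ⟨K, hK⟩ : ∃ K : ℕ, K = C * (dV N D + 1) ^ 3 := ⟨_, rfl⟩
  have k0 : C ≤ K := hK ▸ Nat.le_mul_of_pos_right _ (by positivity)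
  have k3 : (dV N D + 1 : ℝ) * (dV N D * (C * (dV N D + 1))) ≤ K := by
    rw [hK]; push_cast; nlinarith [mul_nonneg (mul_nonneg d0 d0) (zero_le_one.trans c1)]
  have k2 : (C : ℝ) * (dV N D + 1) ≤ K := by
    rw [hK]; push_cast
    exact mul_le_mul_of_nonneg_left (le_self_pow₀ (by linarith) three_ne_zero) (by linarith)
  have k1 : (dV N D : ℝ) * C ≤ K := by linarith
  refine ⟨K, C1.trans k0, R, Ls, fun _ _ _ => (hL _ _ _).trans k0,
    fun s ν ν' cen De η hs hν hν' η0 η1 p p' => ?_⟩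
  have one : ∀ ν : VD N D → ℝ, ∀ k ≤ dV N D, |sg k ν - cen k| ≤ pen cen ν := fun ν k hk =>
    single_le_sum (f := fun k => |sg k ν - cen k|) (fun _ _ => abs_nonneg _)
      (mem_range.2 (Nat.lt_succ_of_le hk))
  have D0 : 0 ≤ De := ((abs_nonneg _).trans (one ν 0 (Nat.zero_le _))).trans p
  obtain ⟨a, μ, dv, hl, o⟩ := h s ν ν' cen De hs hν hν' D0 fun k hk =>
    ⟨(one ν k hk).trans p, (one ν' k hk).trans p'⟩
  refine ⟨a, dv, hl, o.ht, o.le, ?_, fun r r0 e k => (o.size r r0 e k).trans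
    (mul_le_mul_of_nonneg_right (by exact_mod_cast k0) (by positivity)), fun b hb => ?_⟩
  · rw [gn, ← Fin.sum_univ_eq_sum_range fun k => η ^ k * (sg k (mt ν ν') - sg k ν)]
    refine (sum_le_sum (g := fun k : Fin (dV N D) => η ^ (k : ℕ) * (sg k (mt ν ν') - sg k ν) +
      C * (De + s + 1)) fun k _ => ?_).trans ?_
    · have a1 : (a k : ℝ) ≤ sg k μ - sg k ν + C * (De + s + 1) := o.gain k
      have a2 := sg_le_mt o.hm (by linarith) o.mu o.adm k.2.le
      have a3 := mul_le_of_le_one_left (show 0 ≤ C * (De + s + 1) by positivity)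
        (pow_le_one₀ (n := k) η0.le η1)
      nlinarith [pow_pos η0 k]
    · rw [sum_add_distrib, sum_const, card_univ, Fintype.card_fin, nsmul_eq_mul, ← mul_assoc]
      gcongr
  clear dv
  generalize R ν' cen a = T at o
  have t0 : ∀ k : Fin (dV N D), 0 ≤ η ^ (k : ℕ) * (a k : ℝ) := fun k => by positivity
  have b0 : 0 ≤ b := (sum_nonneg fun k _ => t0 k).trans hb
  have q0 : 0 ≤ b / η ^ dV N D := by positivity
  have s1 : ∀ k, (a k : ℝ) ≤ b / η ^ dV N D := fun k => by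
    rw [le_div_iff₀' (by positivity)]
    exact le_trans (mul_le_mul_of_nonneg_right (pow_le_pow_of_le_one η0.le η1 k.2.le)
      (Nat.cast_nonneg _)) ((single_le_sum (fun k _ => t0 k) (mem_univ k)).trans hb)
  have s2 : C * (∑ i, (a i : ℝ) + 1) ≤ C * (dV N D + 1) * (b / η ^ dV N D + 1) := by
    have := sum_le_card_nsmul univ _ _ fun k _ => s1 k
    rw [card_univ, Fintype.card_fin, nsmul_eq_mul] at this
    rw [mul_assoc]
    exact mul_le_mul_of_nonneg_left (by nlinarith) (by linarith)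
  have s3 : ∀ F, T F ≤ exp (C * (dV N D + 1) * (b / η ^ dV N D + 1)) * ν F := fun F =>
    (o.up F).1.trans (mul_le_mul_of_nonneg_right (exp_le_exp.2 s2) (hν.nonneg F))
  have s4 : dsp T ν ≤ K * (b / η ^ dV N D + 1) := by
    unfold dsp pen
    refine (sum_le_card_nsmul _ _ (dV N D * (C * (dV N D + 1) * (b / η ^ dV N D + 1)))
      fun k hk => ?_).trans ?_
    · have hk' := Nat.lt_succ_iff.1 (mem_range.1 hk)
      have a1 := sg_up hν o.ht (r := 0) (fun F => by simpa using (o.le F).1) hk'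
      have a2 := sg_up o.ht hν s3 hk'
      have a3 := mul_le_mul_of_nonneg_right (show (k : ℝ) ≤ dV N D by exact_mod_cast hk')
        (show 0 ≤ C * (dV N D + 1) * (b / η ^ dV N D + 1) by positivity)
      have a4 : 0 ≤ dV N D * (C * (dV N D + 1) * (b / η ^ dV N D + 1)) := by positivity
      exact abs_le.2 ⟨by linarith, by linarith⟩
    · rw [card_range, nsmul_eq_mul]
      push_cast
      nlinarith [mul_le_mul_of_nonneg_right k3 (show 0 ≤ b / η ^ dV N D + 1 by positivity)]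
  refine ⟨s1, fun F => (s3 F).trans (mul_le_mul_of_nonneg_right (exp_le_exp.2
    (mul_le_mul_of_nonneg_right k2 (by positivity))) (hν.nonneg F)), s4, ?_, ?_⟩
  · refine le_trans ?_ (add_le_add p s4)
    rw [dsp, pen, pen, pen, ← sum_add_distrib]
    exact sum_le_sum fun k _ => (abs_sub_le _ (sg k ν) _).trans_eq (add_comm _ _)
  · rw [Psi, Psi, ← sum_sub_distrib, sum_range_succ', ← Fin.sum_univ_eq_sum_range
      fun k => η ^ (k + 1) * sg (k + 1) ν - η ^ (k + 1) * sg (k + 1) T]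
    simp only [sg, rho_zero hν hb_Bn, rho_zero o.ht hb_Bn, sub_self, add_zero]
    refine (sum_le_card_nsmul _ _ (C * η * (b + 1)) fun k _ => ?_).trans ?_
    · rw [← mul_sub, pow_succ', mul_assoc, mul_comm (C : ℝ), mul_assoc]
      refine mul_le_mul_of_nonneg_left ((mul_le_mul_of_nonneg_left (o.drop k)
        (by positivity)).trans ?_) η0.le
      rw [mul_left_comm, mul_add, mul_sum, mul_one]
      refine mul_le_mul_of_nonneg_left (add_le_add (le_trans ?_ hb) (pow_le_one₀ η0.le η1))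
        (by linarith)
      exact (sum_le_sum fun (i : Fin (dV N D)) hi => mul_le_mul_of_nonneg_right
        (pow_le_pow_of_le_one η0.le η1 (Fin.le_def.1 (mem_Iic.1 hi)))
          (Nat.cast_nonneg _)).trans
          (sum_le_sum_of_subset_of_nonneg (subset_univ _) fun i _ _ => t0 i)
    · rw [card_univ, Fintype.card_fin, nsmul_eq_mul, ← mul_assoc, ← mul_assoc]
      gcongr

end Pt

open H19 H17S H17F R4 AN Filter MvPolynomial Finset
open C1 (Hb)

variable {N D : ℕ}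

theorem Two.sm {kf u : ℕ → ℕ} (h : Two kf u) (ε : ℝ) (hε : 0 < ε) :
    ∀ᶠ n in UF, (kf n : ℝ) ≤ ε * u n := by
  filter_upwards [h.bU.ev ε⁻¹] with n a
  have h1 : ((kf n * sU kf u n : ℕ) : ℝ) ≤ u n := by exact_mod_cast Nat.mul_div_le _ _
  rw [inv_le_iff_one_le_mul₀' hε] at a
  push_cast at h1
  nlinarith [mul_le_mul_of_nonneg_left a (Nat.cast_nonneg (α := ℝ) (kf n))]

/-- On an event that is large in the second unit a joining norm is read both from the long piece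
and from the label of the short piece. -/
def JOINf (N D : ℕ) : Prop := ∃ C : ℝ, 1 ≤ C ∧ ∀ (η θ : ℝ) (σ : ℕ → ℚ → ℝ) (kf : ℕ → ℕ)
  (X : ℕ → St N D), Par N D C η θ → Tb X Set.univ η θ σ → Two kf (uu X) → ∀ x x' : ℚ, x' ≤ x →
  ∃ (G : ∀ n, (X n).Ω → Prop) (T : ∀ n, (X n).Ω → VD N D → ℝ),
    (∀ c : ℝ, 0 < c → ∀ᶠ n in UF, G39.dl (sU kf (uu X)) c n ≤ pb (X n).P (G n)) ∧
    FnE (fun n => cE (X n).P (G n)) T (fun n => (X n).O x') ∧
    FnE (fun n => cE (X n).P (G n)) T (fun n => (X n).S x) ∧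
    Jn (fun n => (X n).pull (cE (X n).P (G n)) id) η C x x' T

namespace JnA

/-- The pointwise form. -/
def PtJW (N D : ℕ) : Prop := ∃ C : ℕ, 1 ≤ C ∧
  ∃ (R : (VD N D → ℝ) → (ℕ → ℝ) → (Fin (dV N D) → ℕ) → VD N D → ℝ)
    (Ls : (VD N D → ℝ) → (ℕ → ℝ) → (Fin (dV N D) → ℕ) → Finset (VD N D → ℝ)),
  (∀ ν cen a, (Ls ν cen a).card ≤ C) ∧ ∀ (s : ℕ) (ν ν' : VD N D → ℝ) (cen : ℕ → ℝ) (De η : ℝ),
  1 ≤ s → Hb ν →
  Hb ν' → 0 < η → η ≤ 1 / 2 → pen cen ν ≤ De → pen cen ν' ≤ De → ∃ a : Fin (dV N D) → ℕ,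
    (∀ k, s ∣ a k) ∧ R ν' cen a ∈ Ls ν cen a ∧ (∀ F, ν' F ≤ R ν' cen a F) ∧
    ∑ k, η ^ k.1 * a k ≤ gn η ν ν' + C * (De + s + 1) ∧ ∀ b : ℝ, ∑ k, η ^ k.1 * a k ≤ b →
      Jo η (C * (b / η ^ dV N D + 1)) (C * η * (b + 1)) ∅ ν (R ν' cen a)

theorem ptJW (N D : ℕ) : PtJW N D := by
  obtain ⟨C, c, R, Ls, k, h⟩ := jnPtW N D
  refine ⟨C, c, R, Ls, k, fun s ν ν' cen De η hs a b η0 η1 p p' => ?_⟩
  obtain ⟨x, h0, h1, h2, h3, h4, -, h5⟩ := h s ν ν' cen De η hs a b η0 (by linarith) p p'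
  exact ⟨x, h0, h1, fun F => (h3 F).2, h4, fun y hy => ⟨h2, fun _ e => e.elim, fun F => (h3 F).1,
    (h5 y hy).2.1, (h5 y hy).2.2.1, (h5 y hy).2.2.2.2⟩⟩

/-- The finite form. -/
theorem finW (hp : PtJW N D) (nj : NJ N D) : ∃ C : ℝ, 1 ≤ C ∧ ∀ η θ : ℝ, Par N D C η θ →
    ∃ C' : ℝ, 1 ≤ C' ∧ ∀ (Ω : Type) (P : FP Ω) (g : Sh N Ω) (M c w : ℕ) (S : Ω → Dc N D)
    (cen : ℕ → ℝ) (s : ℕ), 1 ≤ s → ∃ (G : Ω → Prop) (T : Ω → VD N D → ℝ), ∀ e p Y : ℝ, g.Box P → c + w ≤ M →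
    Val P g M (c + w) S → 0 ≤ e → Opd η θ P g M (c + w) S e → 0 ≤ p →
    (∀ ω ∈ P.S, pen cen (S ω).ν ≤ p) → C * (w + p + s) + C' * (1 + e) ≤ Y →
    1 ≤ C' * (Y / η ^ dV N D / s + 1) ^ dV N D * pb P G ∧ Fn (cE P G) T (g.O c) ∧ Fn (cE P G) T S ∧
      ∀ ω ∈ (cE P G).S, Jo η (Y / η ^ dV N D) (η * Y) (seg M c (g.l ω) (g.zc c ω) 5) (S ω).ν
        (T ω) := by
  classical
  obtain ⟨C₁, c1, R, Ls, cL, hp⟩ := hp
  obtain ⟨C₂, c2, nj⟩ := nj
  obtain ⟨K, K0, hK⟩ := cpy N D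
  have c1' : (1 : ℝ) ≤ C₁ := by exact_mod_cast c1
  obtain ⟨B, hB⟩ : ∃ B : ℝ, B = 2 * C₁ * ((C₁ + C₂) * (2 * K + 2)) := ⟨_, rfl⟩
  have B0 : 0 ≤ B := by rw [hB]; positivity
  refine ⟨B + C₂ + 2, by linarith, fun η θ pa => ?_⟩
  obtain ⟨C₃, c3, nj⟩ := nj η θ (pa.mono (by linarith))
  have η0 := pa.1
  have η1 : η ≤ 1 / 2 := by nlinarith [pa.2.1]
  have η2 : η ≤ 1 := by linarith
  have q0 : 0 < η ^ dV N D := pow_pos η0 _
  have q1 : η ^ dV N D ≤ 1 := pow_le_one₀ η0.le η2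
  refine ⟨B + 2 * C₁ * (C₁ + C₃ + 1), by nlinarith, fun Ω P g M c w S cen s hs => ?_⟩
  have s1 : (1 : ℝ) ≤ s := by exact_mod_cast hs
  have s0 : (0 : ℝ) < s := by linarith
  obtain ⟨A, fA, hA⟩ := hK η η0.le η2 Ω P g M c w S
  have : Nonempty (Fin (dV N D) → ℕ) := ⟨0⟩
  choose! a a0 a1 a2 a3 a4 using fun (ω : Ω) (h : Hb (S ω).ν ∧ Hb (A ω).ν) =>
    hp s (S ω).ν (A ω).ν cen (pen cen (S ω).ν + pen cen (A ω).ν) η hs h.1 h.2 η0 η1
      (le_add_of_nonneg_right (Stp.pen_nonneg _ _)) (le_add_of_nonneg_left (Stp.pen_nonneg _ _))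
  choose i i1 i2 using ex_idx (α := VD N D → ℝ)
  obtain ⟨f, hf⟩ : ∃ f : Ω → ℝ, f = fun ω => ∑ k, η ^ k.1 * a ω k := ⟨_, rfl⟩
  have f0 : ∀ ω, 0 ≤ f ω := fun ω => by rw [hf]; positivity
  obtain ⟨⟨a₀, i₀⟩, h₀⟩ := ex_val P (fun ω => ¬2 * P.E f + 1 ≤ f ω)
    fun ω => (a ω, i (Ls (S ω).ν cen (a ω)) (R (A ω).ν cen (a ω)))
  refine ⟨fun ω => ¬2 * P.E f + 1 ≤ f ω ∧
    (a ω, i (Ls (S ω).ν cen (a ω)) (R (A ω).ν cen (a ω))) = (a₀, i₀),
    fun ω => R (A ω).ν cen a₀, fun e p Y bx hc vS e0 op p0 pS hY => ?_⟩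
  obtain ⟨vA, cA, hA⟩ := hA vS
  have w0 : (0 : ℝ) ≤ w := Nat.cast_nonneg _
  have x0 : 0 ≤ K * (w + 1) := by positivity
  have hb : ∀ ω ∈ P.S, Hb (S ω).ν ∧ Hb (A ω).ν := fun ω h => ⟨(vS ω h).2.hb, (vA ω h).2.hb⟩
  have m1 : P.E (fun ω => pen cen (S ω).ν + pen cen (A ω).ν) ≤ 2 * p + K * (w + 1) :=
    (P.E_mono fun ω h => by
      obtain ⟨v, hv, k⟩ := (hA ω h).2
      linarith [pS ω h, pS v hv, k cen]).trans_eq (P.E_const _)
  have m2 := (nj Ω P g M (c + w) S A cen e _ bx hc vS vA e0 x0 op cA).1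
  have m3 : P.E f ≤ P.E fun ω => gn η (S ω).ν (A ω).ν +
      (C₁ * (pen cen (S ω).ν + pen cen (A ω).ν) + C₁ * (s + 1)) := P.E_mono fun ω h => by
    rw [hf]
    linarith [a3 ω (hb ω h)]
  rw [P.E_add, P.E_add, P.E_mul, P.E_const] at m3
  have m4 : C₁ * (2 * P.E f + 1 + 1) ≤ Y := by
    have n1 := mul_le_mul_of_nonneg_left m1 (show 0 ≤ (C₁ : ℝ) + C₂ by linarith)
    have n2 : (C₁ + C₂) * (2 * p + 2 * K * (w + 1)) ≤ (C₁ + C₂) * (2 * K + 2) * (w + p + 1) := by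
      rw [mul_assoc (C₁ + C₂)]
      exact mul_le_mul_of_nonneg_left (by nlinarith) (by linarith)
    have n8 : (C₁ : ℝ) * s ≤ (C₁ + C₂) * (2 * K + 2) * s :=
      mul_le_mul_of_nonneg_right (by nlinarith) s0.le
    have n3 : P.E f ≤ (C₁ + C₂) * (2 * K + 2) * (w + p + s + 1) + C₁ + C₃ * (1 + e) := by
      nlinarith
    have n4 := mul_le_mul_of_nonneg_left n3 (show 0 ≤ 2 * (C₁ : ℝ) by linarith)
    have n5 : 0 ≤ (C₂ + 2) * (w + p + s) := by positivity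
    have n6 : 0 ≤ B * e := by positivity
    have n7 : 0 ≤ 2 * C₁ * (C₁ + 1) * e := by positivity
    refine le_trans ?_ hY
    rw [hB] at n6 ⊢
    linarith
  have E0 : 0 ≤ P.E f := P.E_nonneg fun ω _ => f0 ω
  have m5 : 2 * P.E f + 1 ≤ Y := by nlinarith
  have m6 := (half P fun ω _ => f0 ω).trans ((pb_mono fun ω _ k => And.intro k trivial).trans
    (h₀ (Fintype.piFinset (fun _ => (range (⌊Y / η ^ dV N D / s⌋₊ + 1)).map
      ⟨fun j => s * j, mul_right_injective₀ (by omega)⟩) ×ˢ range C₁) (fun _ => True)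
      fun ω h k _ => mem_product.2 ⟨Fintype.mem_piFinset.2 fun j => ?_,
        mem_range.2 ((i1 _ _ (a1 ω (hb ω h))).trans_le (cL _ _ _))⟩))
  · have y0 : 0 ≤ Y / η ^ dV N D / s := div_nonneg (div_nonneg (by linarith) q0.le) s0.le
    rw [card_product, Fintype.card_piFinset, prod_const, card_map, card_range, card_range, card_univ,
      Fintype.card_fin] at m6
    push_cast at m6
    have ex := ex_of_pb ((mul_pos_iff_of_pos_left (by positivity)).1 (one_half_pos.trans_le m6))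
    refine ⟨?_, fun u hu v hv k => ?_, fun u hu v hv k => ?_, fun ω hω => ?_⟩
    · have n1 : ((⌊Y / η ^ dV N D / s⌋₊ : ℝ) + 1) ^ dV N D * C₁ * 2 ≤
          (B + 2 * C₁ * (C₁ + C₃ + 1)) * (Y / η ^ dV N D / s + 1) ^ dV N D := by
        rw [mul_assoc, mul_comm]
        exact mul_le_mul (by nlinarith) (pow_le_pow_left₀ (by positivity)
          (add_le_add_left (Nat.floor_le y0) 1) _) (by positivity) (by positivity)
      refine le_trans ?_ (mul_le_mul_of_nonneg_right n1 (pb_nonneg _ _))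
      linarith
    · exact congrArg (R · cen a₀) (fA u (cE_sub hu) v (cE_sub hv) k)
    · obtain ⟨u1, -, u2⟩ := (mem_cE ex u).1 hu
      obtain ⟨v1, -, v2⟩ := (mem_cE ex v).1 hv
      obtain ⟨u3, u4⟩ := Prod.mk.inj u2
      obtain ⟨v3, v4⟩ := Prod.mk.inj v2
      have u5 := a1 u (hb u u1)
      have v5 := a1 v (hb v v1)
      rw [u3] at u4 u5
      rw [v3, ← k] at v4 v5
      exact i2 _ _ u5 _ v5 (u4.trans v4.symm)
    · obtain ⟨u1, u0, u2⟩ := (mem_cE ex ω).1 hω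
      have j := a4 ω (hb ω u1) (2 * P.E f + 1) ((congrFun hf ω).ge.trans (not_le.1 u0).le)
      have j' := a2 ω (hb ω u1)
      rw [(Prod.mk.inj u2).1] at j j'
      refine Jo.mono ⟨j.hb, fun y hy F => ((hA ω u1).1 y hy F).trans (j' F), j.le, j.up, j.dsp,
        j.psi⟩ (hb ω u1).1 ?_ ?_
      · rw [div_add_one q0.ne', ← mul_div_assoc]
        exact div_le_div_of_nonneg_right (le_trans (by nlinarith) m4) q0.le
      · rw [mul_comm _ η, mul_assoc]
        exact mul_le_mul_of_nonneg_left m4 η0.le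
  · obtain ⟨z, hz⟩ := a0 ω (hb ω h) j
    refine mem_map.2 ⟨z, ?_, hz.symm⟩
    rw [mem_range, Nat.lt_succ_iff]
    refine Nat.le_floor ((le_div_iff₀' s0).2 ?_)
    rw [← Nat.cast_mul, ← hz]
    refine (le_div_iff₀' q0).2 (le_trans ?_ ((not_le.1 k).le.trans m5))
    rw [hf]
    exact (mul_le_mul_of_nonneg_right (pow_le_pow_of_le_one η0.le η2 j.2.le)
      (Nat.cast_nonneg _)).trans (single_le_sum (f := fun k : Fin (dV N D) => η ^ k.1 * a ω k)
        (fun k _ => by positivity) (mem_univ j))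

theorem joinF (hp : PtJW N D) (nj : NJ N D) : JOINf N D := by
  obtain ⟨C, c1, h⟩ := finW hp nj
  refine ⟨C, c1, fun η θ σ kf X pa t two x x' hx => ?_⟩
  obtain ⟨C', c2, h⟩ := h η θ pa
  choose G T h using fun n => h _ (X n).P (X n).g (X n).M ((X n).lv x')
    ((X n).lv x - (X n).lv x') ((X n).S x) ((X n).cen σ x) (kf n + 1) (Nat.le_add_left _ _)
  have η0 := pa.1
  have q0 : 0 < η ^ dV N D := pow_pos η0 _
  have η1 : η ≤ 1 := by nlinarith [pa.2.1]
  have x0 : (0 : ℝ) ≤ x - x' := sub_nonneg.2 (by exact_mod_cast hx)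
  have k := fun (ε : ℝ) (hε : 0 < ε) => show ∀ᶠ n in UF, _ by
    have p : 0 < ε / (3 * C + 2 * C') := by positivity
    filter_upwards [t.box, t.top x trivial, t.mono x' trivial x trivial hx, t.val x trivial,
      t.lev x' trivial x trivial _ p, t.opt x trivial _ p, t.spec x trivial _ p,
      t.big.sm 1 _ (half_pos p), two.sm _ (half_pos (half_pos p))] with n b1 b2 b3 b4 b5 b6 b7 b8 b9
    have e := Nat.add_sub_of_le b3
    rw [← e] at b2 b4 b6
    refine h n _ _ ((C * (x - x') + ε) * (X n).u) b1 b2 b4 (by positivity) b6 (by positivity) b7 ?_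
    rw [Nat.cast_sub b3]
    have a1 := mul_le_mul_of_nonneg_left b5 (zero_le_one.trans c1)
    have a2 := mul_le_mul_of_nonneg_left b8 (zero_le_one.trans c2)
    have a4 := mul_le_mul_of_nonneg_left b9 (zero_le_one.trans c1)
    have a5 := mul_le_mul_of_nonneg_left b8 (zero_le_one.trans c1)
    have a3 : ε * (X n).u = (3 * C + 2 * C') * (ε / (3 * C + 2 * C') * (X n).u) := by field_simp
    have a6 : 0 ≤ C * (ε / (3 * C + 2 * C') * (X n).u) := by positivity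
    have a7 : 0 ≤ C' * (ε / (3 * C + 2 * C') * (X n).u) := by positivity
    simp only [uu, zero_add] at a1 a2 a4 a5
    push_cast
    linarith
  refine ⟨G, T, fun c hc => ?_, (k 1 one_pos).mono fun _ a => a.2.1,
    (k 1 one_pos).mono fun _ a => a.2.2.1, fun ε hε => ?_⟩
  · have p : 1 ≤ (C * (x - x') + 1) / η ^ dV N D :=
      (one_le_div q0).2 ((pow_le_one₀ η0.le η1).trans (by nlinarith))
    filter_upwards [k 1 one_pos, ((((((Sub.nat two.bU).const_mul two.bU p).const_mul two.bU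
      one_le_two).pow (dV N D)).const_mul two.bU c2).2 c hc), two.bk.ev 1] with n a b b'
    rw [← inv_inv (G39.dl _ _ _), G39.dl_inv, inv_le_iff_one_le_mul₀' (Real.exp_pos _)]
    refine a.1.trans (mul_le_mul_of_nonneg_right (le_trans ?_ b) (pb_nonneg _ _))
    refine mul_le_mul_of_nonneg_left (pow_le_pow_left₀ (by positivity) ?_ _) (by linarith)
    have z1 := lt_sU kf (uu X) n
    have z2 : ((X n).u : ℝ) / (kf n + 1 : ℕ) ≤ (X n).u / kf n :=
      div_le_div_of_nonneg_left (Nat.cast_nonneg _) (by linarith) (by push_cast; linarith)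
    have z3 := mul_le_mul_of_nonneg_left (z2.trans z1.le) (zero_le_one.trans p)
    have z4 := mul_le_mul p (show (1 : ℝ) ≤ sU kf (uu X) n + 1 by
      linarith [Nat.cast_nonneg (α := ℝ) (sU kf (uu X) n)]) zero_le_one (zero_le_one.trans p)
    rw [mul_div_right_comm, mul_div_assoc]
    linarith
  · filter_upwards [k _ (mul_pos hε q0), t.val x trivial] with n a b ω hω
    refine (a.2.2.2 ω hω).mono (b ω (cE_sub hω)).2.hb (le_of_eq (by field_simp)) ?_
    rw [← mul_assoc]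
    refine mul_le_mul_of_nonneg_right ?_ (Nat.cast_nonneg _)
    have := mul_le_mul_of_nonneg_left (mul_le_one₀ η1 q0.le (pow_le_one₀ η0.le η1)) hε.le
    linarith

end JnA

/-- The joining event can be trimmed. -/
theorem JOINf.trm (h : JOINf N D) : ∃ C : ℝ, 1 ≤ C ∧ ∀ {η θ : ℝ} {σ : ℕ → ℚ → ℝ} {kf : ℕ → ℕ}
    {X : ℕ → St N D}, Par N D C η θ → Tb X Set.univ η θ σ → Two kf (uu X) → ∀ {x x' : ℚ}, x' ≤ x →
    ∃ (G : ∀ n, (X n).Ω → Prop) (T : ∀ n, (X n).Ω → VD N D → ℝ), Trf X kf G ∧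
      FnE (fun n => cE (X n).P (G n)) T (fun n => (X n).O x') ∧
      FnE (fun n => cE (X n).P (G n)) T (fun n => (X n).S x) ∧
      Jn (fun n => (X n).res (G n)) η C x x' T := by
  obtain ⟨C, c, h⟩ := h
  refine ⟨C, c, fun p t w x x' e => ?_⟩
  obtain ⟨G, T, a1, a2, a3, a4⟩ := h _ _ _ _ _ p t w x x' e
  obtain ⟨G', b1, -, b2⟩ := ex_trf w.bU a1
  have k := b2.mem.mono fun n a ω hω => (mem_cE ⟨ω, (a ω hω).1, b1 n ω (a ω hω).2⟩ ω).2
    ⟨(a ω hω).1, b1 n ω (a ω hω).2⟩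
  refine ⟨G', T, b2, ?_, ?_, a4.pull (π := fun _ => id) k⟩
  · filter_upwards [a2, k] with n a b u hu v hv using a u (b u hu) v (b v hv)
  · filter_upwards [a3, k] with n a b u hu v hv using a u (b u hu) v (b v hv)

/-- The bound at the top on the joining event. -/
theorem joinTopf {E E' : ℕ} (k : Kit N E E' D) {β₀ : ℝ} (hβ : 0 < β₀) : ∃ C : ℝ, 1 ≤ C ∧
    ∀ {X : ℕ → St N D} {η θ β js Γ : ℝ} {kf : ℕ → ℕ} {sl : ℕ → ℝ} {x x' : ℚ}, Par N D C η θ →
    β₀ ≤ β → Tq X E η θ β js Γ sl → Two kf (uu X) → x' ≤ x →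
    ∃ (G : ∀ n, (X n).Ω → Prop) (T : ∀ n, (X n).Ω → VD N D → ℝ), Trf X kf G ∧
      FnE (fun n => cE (X n).P (G n)) T (fun n => (X n).O x') ∧
      FnE (fun n => cE (X n).P (G n)) T (fun n => (X n).S x) ∧
      Tq.TopAt (fun n => (X n).res (G n)) x x' T ((lg + β / 2) * (x - x')) := by
  obtain ⟨C₀, c0, h⟩ := (JnA.joinF (JnA.ptJW N D) k.nj).trm
  obtain ⟨C, c, h'⟩ := topAt k hβ (zero_le_one.trans c0)
  refine ⟨C₀ + C, by linarith, fun p b t w e => ?_⟩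
  obtain ⟨G, T, a1, a2, a3, a4⟩ := h (p.mono (by linarith)) t.tb w e
  exact ⟨G, T, a1, a2, a3, h' (p.mono (by linarith)) b (t.pull (dn_res a1.trm.top)) e a4⟩

end Pool.Agent.MP_5168f5_an.QA
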