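import Pool.Agent.MP_4b405e_nt.SK.N2R
import Pool.Agent.MP_5168f5_an.QA.CpRTz

/-! Sparse heights: the only position of rate zero is the marked one. -/

namespace Pool.Agent.MP_5168f5_an.QA.Cp.N2

open H19 H17S H17F R4 AN Filter Matrix Finset
open GA (Mt br mC Wd)
open G39 (dl OB OS dl_inv)
open LC (Au ex_le)

variable {ι κ α : Type} [Fintype ι] [DecidableEq ι] [Fintype κ] [DecidableEq κ] [Fintype α]
  {Ω Λ : ℕ → Type} {σ : Cs ι κ α} {X : ∀ n, Wn ι κ α (Ω n) (Λ n)}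
  {ϑ La D s₀ : ℝ} {vt : κ → ℝ} {F F' : ℕ → Matrix κ κ ℝ} {u u' : ∀ n, Ω n → Matrix κ κ ℝ}

/-- Homogeneous characters of rate zero that are small on the directions are small. -/
theorem WW.key (w : WW σ X ϑ La D s₀) (f : FR σ X s₀ vt F F' u u')
    (al : Au (wM X) fun n p q => ∀ ω ∈ (X n).P.S,
      (cd (X n) (F n) (F' n) (u n) (u' n)).Alg (kc σ La D vt) p q ω) {c : ℝ} (hc0 : 0 < c) :
    ∃ δ : ℝ, 0 < δ ∧ ∀ᶠ n in UF, ∀ ω ∈ (X n).P.S, ∀ (l : κ → ℝ) (r : ℝ), ∑ b, |l b| ≤ 1 →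
      Hg σ.μ r l → (∀ b, l b ≠ 0 → 0 < σ.μ b ∧ vt b = 0) →
      (∀ b b', vt b = 0 → vt b' = 0 → |∑ e, hc σ.μ (mC (u n ω * F n) (F' n * u' n ω) ((X n).c ω))
        b b' e * l e| ≤ Real.exp (-(c * (X n).M))) →
      (∀ i, |∑ e, ((X n).A ω i ᵥ* (F' n * u' n ω)) e * l e| ≤ Real.exp (-(c * (X n).M))) →
      ∀ b, |l b| ≤ Real.exp (-(δ * (X n).M)) := by
  have t0 := w.t0
  obtain ⟨x, x0, x1⟩ := exists_rat_btwn (show 0 < c / 2 / ϑ by positivity)
  rw [lt_div_iff₀ t0] at x1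
  obtain ⟨δ, hδ⟩ : ∃ δ : ℝ, δ = ϑ * x / 8 := ⟨_, rfl⟩
  have d0 : 0 < δ := by rw [hδ]; positivity
  refine ⟨δ, d0, ?_⟩
  filter_upwards [f.blk, f.dia 0 δ d0, f.dia x δ d0, w.good 0, w.off 0 (10 * δ), w.sub 1 one_pos,
    w.rate 0 x (by exact_mod_cast x0.le) δ d0 0, al 1 one_pos c,
    (G39.big_dl w.big (4 * (Fintype.card κ : ℝ) ^ 2) d0).mono fun n k => G39.dl_inv _ _ n ▸ k]
    with n k1 k2 k3 k4 k5 k6 k7 k8 k9 ω hω l r l1 l2 l3 l4 l5 b
  obtain ⟨e1, e2, e3, -⟩ := k1 ω hω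
  set N := u n ω * F n
  set N' := F' n * u' n ω
  set M : ℝ := ((X n).M : ℝ)
  have M0 : 0 ≤ M := Nat.cast_nonneg _
  have m1 := mul_nonneg d0.le M0
  have m2 : 16 * (δ * M) ≤ c * M := by
    rw [← mul_assoc]; exact mul_le_mul_of_nonneg_right (by linarith) M0
  have p := Real.exp_pos (-(δ * M))
  have a1 : ∀ y, In ((X n).Ψ 0 ω) y → ∀ e, |(y ᵥ* N') e| ≤ Real.exp (δ * M) := fun y v e => by
    simpa using (k2 ω hω).2 y v e
  have g2 : Hg σ.μ r (Real.exp (-(δ * M)) • (N' *ᵥ l)) := (hg_mulVec e3 l2).smul _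
  have sc : ∀ y, |(Real.exp (-(δ * M)) • (N' *ᵥ l)) ⬝ᵥ y| =
      Real.exp (-(δ * M)) * |∑ e, (y ᵥ* N') e * l e| := fun y => by
    rw [smul_dotProduct, smul_eq_mul, abs_mul, abs_of_pos p, mulVec_dot]
  have g1 : ∀ y, In ((X n).Ψ 0 ω) y → |(Real.exp (-(δ * M)) • (N' *ᵥ l)) ⬝ᵥ y| ≤ 1 := fun y v => by
    rw [sc]
    refine (mul_le_mul_of_nonneg_left (l1_le (Real.exp_pos _).le l1 fun e _ => a1 y v e) p.le).trans ?_
    rw [← Real.exp_add, neg_add_cancel, Real.exp_zero]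
  have a2 : ∀ b b', |∑ e, hc σ.μ (mC N N' ((X n).c ω)) b b' e * l e| ≤ Real.exp (-(c * M)) := by
    intro b b'
    by_cases z : vt b = 0 ∧ vt b' = 0
    · exact l4 b b' z.1 z.2
    refine l1_le (Real.exp_pos _).le l1 fun e v => ?_
    unfold hc
    split_ifs with y
    · refine (k8 ω hω).gr b b' e (l3 e v).1 fun q => z ?_
      have q' : σ.μ e + vt e = σ.μ b + vt b + (σ.μ b' + vt b') := q.2.2.2
      constructor <;> linarith [y.2.2, (l3 e v).2, (f.v0 b).1, (f.v0 b').1]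
    · rw [abs_zero]; exact (Real.exp_pos _).le
  have tt : -(ϑ * (((x : ℝ) - (0 : ℚ)) * M)) - δ * M = -(9 * (δ * M)) := by
    rw [hδ]; push_cast; ring
  have tl : Real.exp (-(9 * (δ * M))) ≤ Real.exp (-(9 * (δ * M))) * (X n).L :=
    le_mul_of_one_le_right (Real.exp_pos _).le k6.1
  have key := k7 ω hω _ r g2 g1 (by
    rw [tt]
    refine ⟨fun a => ?_, fun i => le_trans ?_ tl, fun y z v v' => le_trans ?_ tl⟩
    · change _ ≤ _ * flr σ.μ (X n).F a
      unfold flr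
      split_ifs with q
      · refine ((k4 ω hω).ent_of g2 g1 a).trans ?_
        have q1 := (k4 ω hω).fu.vl_pos (wt := σ.μ)
        refine le_trans ?_ (mul_le_mul_of_nonneg_left (k5 ω hω) (Real.exp_pos _).le)
        rw [mul_one, mul_comm (vl _ _), ← mul_assoc, ← Real.exp_add]
        exact mul_le_mul_of_nonneg_right (k9.trans (ex_le (by linarith))) q1.le
      · rw [show (Real.exp (-(δ * M)) • (N' *ᵥ l)) a = 0 from not_not.1 fun v => ?_, abs_zero]
        · positivity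
        obtain ⟨e, -, v'⟩ := exists_ne_zero_of_sum_ne_zero (s := univ)
          (f := fun e => N' a e * l e) (right_ne_zero_of_mul v)
        exact q (e3 e a (left_ne_zero_of_mul v') ▸ (l3 e (right_ne_zero_of_mul v')).1)
    · rw [sc]
      refine (mul_le_mul_of_nonneg_left (l5 i) p.le).trans ?_
      rw [← Real.exp_add]
      exact ex_le (by linarith)
    · rw [sc]
      change _ * |∑ e, (br (hc σ.μ ((X n).c ω)) y z ᵥ* N') e * l e| ≤ _
      rw [br_mC e1, hc_mC e2 e3, show ∑ e, br (hc σ.μ (mC N N' ((X n).c ω))) (y ᵥ* N') (z ᵥ* N') e *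
          l e = ∑ b, ∑ b', (∑ e, hc σ.μ (mC N N' ((X n).c ω)) b b' e * l e) * (y ᵥ* N') b *
          (z ᵥ* N') b' by
        simp only [br, sum_mul]
        exact sum_comm.trans (sum_congr rfl fun _ _ => sum_comm.trans
          (sum_congr rfl fun _ _ => sum_congr rfl fun _ _ => by ring))]
      have q : ∀ b b', |(∑ e, hc σ.μ (mC N N' ((X n).c ω)) b b' e * l e) * (y ᵥ* N') b *
          (z ᵥ* N') b'| ≤ Real.exp (-(c * M) + δ * M + δ * M) := fun b b' => by
        rw [abs_mul, abs_mul, Real.exp_add, Real.exp_add]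
        exact mul_le_mul (mul_le_mul (a2 b b') (a1 y v b) (abs_nonneg _) (Real.exp_pos _).le)
          (a1 z v' b') (abs_nonneg _) (by positivity)
      have q2 := (abs_sum_le_sum_abs _ univ).trans (sum_le_card_nsmul _ _ _ fun b _ =>
        (abs_sum_le_sum_abs _ univ).trans (sum_le_card_nsmul _ _ _ fun b' _ => q b b'))
      rw [card_univ, nsmul_eq_mul, nsmul_eq_mul, ← mul_assoc, ← pow_two] at q2
      refine (mul_le_mul_of_nonneg_left (q2.trans (mul_le_mul_of_nonneg_right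
        (show _ ≤ Real.exp (δ * M) by nlinarith [sq_nonneg (Fintype.card κ : ℝ)])
        (Real.exp_pos _).le)) p.le).trans ?_
      rw [← Real.exp_add, ← Real.exp_add]
      exact ex_le (by linarith)) (Real.exp (-(δ * M)) • N b)
  by_cases z : l b = 0
  · rw [z, abs_zero]; exact p.le
  have q := key fun φ v => by
    have := (k3 ω hω).1 b φ v
    rw [(l3 b z).2, zero_mul, add_zero] at this
    rw [dotProduct_smul, smul_eq_mul, abs_mul, abs_of_pos p]
    refine (mul_le_mul_of_nonneg_left this p.le).trans ?_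
    rw [← Real.exp_add, neg_add_cancel, Real.exp_zero]
  rw [dotProduct_smul, smul_eq_mul, abs_mul, abs_of_pos p, sc,
    show N b ᵥ* N' = (1 : Matrix κ κ ℝ) b from congrFun e1 b] at q
  simp only [one_apply, ite_mul, one_mul, zero_mul, sum_ite_eq, mem_univ, if_true] at q
  rw [← mul_assoc, ← Real.exp_add, ← le_div_iff₀' (Real.exp_pos _), ← Real.exp_sub] at q
  refine q.trans (ex_le ?_)
  linarith

theorem WW.noCh (w : WW σ X ϑ La D s₀) (f : FR σ X s₀ vt F F' u u')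
    (al : Au (wM X) fun n p q => ∀ ω ∈ (X n).P.S,
      (cd (X n) (F n) (F' n) (u n) (u' n)).Alg (kc σ La D vt) p q ω) {c : ℝ} (hc0 : 0 < c) :
    ∀ᶠ n in UF, ∀ ω ∈ (X n).P.S, NoCh σ.μ (fun b => 0 < σ.μ b ∧ vt b = 0)
      (hc σ.μ (mC (u n ω * F n) (F' n * u' n ω) ((X n).c ω)))
      (fun i => (X n).A ω i ᵥ* (F' n * u' n ω)) (Real.exp (-(c * (X n).M))) := by
  obtain ⟨δ, d0, k⟩ := w.key f al hc0
  filter_upwards [k, G39.dl_lt w.big (K := 1 / (Fintype.card κ + 1)) (by positivity) d0]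
    with n k1 k2 ω hω s l l1 l2 l3
  by_contra z
  push Not at z
  have := sum_le_card_nsmul univ _ _ fun b _ => (k1 ω hω l s l2.le (fun b v => (l1 b v).2)
    (fun b v => (l1 b v).1) (fun b b' x y => ?_) (fun i => ?_) b).trans k2.le
  · rw [l2, card_univ, nsmul_eq_mul, mul_one_div, le_div_iff₀ (by positivity)] at this
    linarith
  · by_cases q : 0 < σ.μ b ∧ 0 < σ.μ b'
    · exact l3 b b' ⟨q.1, x⟩ ⟨q.2, y⟩
    · rw [sum_eq_zero fun e _ => by rw [hc, if_neg fun v => q ⟨v.1, v.2.1⟩, zero_mul], abs_zero]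
      exact (Real.exp_pos _).le
  · have := z i
    rwa [dotProduct_comm] at this

/-- The entries of the coordinate forms are far below the floor. -/
theorem WW.ent (w : WW σ X ϑ La D s₀) (f : FR σ X s₀ vt F F' u u') (T : ℝ) :
    ∀ᶠ n in UF, ∀ ω ∈ (X n).P.S, ∀ a e,
      |(F' n * u' n ω) a e| ≤ Real.exp (-(T * (X n).M)) * (X n).F := by
  filter_upwards [f.blk, f.dia 0 1 one_pos, w.good 0, w.off 0 (T + 2),
    G39.big_dl w.big (4 * (Fintype.card κ : ℝ) ^ 2) one_pos] with n k1 k2 k3 k4 k5 ω hω a e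
  rw [dl_inv] at k5
  have q := (k3 ω hω).fu.vl_pos (wt := σ.μ)
  refine ((k3 ω hω).ent_of ((k1 ω hω).2.2.1 e) (R := Real.exp (1 * (X n).M)) (fun y v => by
    simpa [vecMul_col] using (k2 ω hω).2 y v e) a).trans (le_trans ?_
      (mul_le_mul_of_nonneg_left (k4 ω hω) (Real.exp_pos _).le))
  rw [mul_comm (vl _ _), ← mul_assoc, ← Real.exp_add]
  refine mul_le_mul_of_nonneg_right ((mul_le_mul_of_nonneg_right k5 (Real.exp_pos _).le).trans ?_)
    q.le
  rw [← Real.exp_add]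
  exact ex_le (by simp only [wM]; linarith)

/-- The coordinates of the directions. -/
theorem WW.dir (w : WW σ X ϑ La D s₀) (f : FR σ X s₀ vt F F' u u') (x : ℚ) {c : ℝ} (hc : 0 < c) :
    ∀ᶠ n in UF, ∀ ω ∈ (X n).P.S, ∀ i e,
      |((X n).A ω i ᵥ* (F' n * u' n ω)) e| ≤ Real.exp ((c - vt e * x) * (X n).M) := by
  filter_upwards [f.dia x _ (half_pos hc), w.good x, w.sub _ (half_pos hc)] with n k1 k2 k3 ω hω i e
  refine (vecMul_col _ _ e ▸ (k2 ω hω).dot_A (zero_lt_one.trans_le k3.1) (fun y v => by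
    rw [← vecMul_col]; exact (k1 ω hω).2 y v e) i).trans
      ((mul_le_mul_of_nonneg_right k3.2 (Real.exp_pos _).le).trans ?_)
  rw [← Real.exp_add]
  exact ex_le (by linarith)

theorem rTz_of (hA : RAlg) : RTz := by
  intro ι κ α _ _ _ _ _ Ω Λ σ X ϑ La D s₀ vt F F' u u' w f a pa ta
  have al := hA ι κ α Ω Λ σ X ϑ La D s₀ vt F F' u u' w f
  have hM := w.big
  choose ω hω using fun n => show ∃ ω, ω ∈ (X n).P.S from
    nonempty_of_sum_ne_zero ((X n).P.sum_one.trans_ne one_ne_zero)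
  have v0 : vt a = 0 := by have : σ.μ a + vt a = σ.μ a := ta; linarith
  have sm : ∀ᶠ n in UF, ∀ (x : κ → ℝ) b, σ.pos b → vt b = 0 → (∀ e, σ.pos e → |x e| * (X n).F ≤ 1) →
      |(x ᵥ* (F' n * u' n (ω n))) b| ≤ dl (wM X) 2 n := by
    filter_upwards [w.ent f 3, f.col, f.ex, G39.big_dl hM (Fintype.card κ) one_pos]
      with n k1 k2 k3 k4 x b p1 p2 p3
    rw [dl_inv] at k4
    refine (abs_sum_le_sum_abs _ _).trans ((sum_le_card_nsmul _ _ (Real.exp (-(3 * (X n).M)))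
      fun e _ => ?_).trans ?_)
    · show |x e * (F' n * u' n (ω n)) e b| ≤ _
      by_cases z : (F' n * u' n (ω n)) e b = 0
      · rw [z, mul_zero, abs_zero]; exact (Real.exp_pos _).le
      rw [abs_mul]
      refine (mul_le_mul_of_nonneg_left (k1 _ (hω n) e b) (abs_nonneg _)).trans ?_
      rw [mul_left_comm]
      exact mul_le_of_le_one_right (Real.exp_pos _).le
        (p3 e ((k3.2.1 e b (.inr (k2 _ (hω n) e b p2 ▸ z))).2.1 p1))
    · rw [card_univ, nsmul_eq_mul]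
      refine (mul_le_mul_of_nonneg_right k4 (Real.exp_pos _).le).trans ?_
      rw [← Real.exp_add]
      exact ex_le (by simp only [wM]; linarith)
  have ct : ∀ᶠ n in UF, ∀ x : κ → ℝ, (x ᵥ* (F' n * u' n (ω n))) σ.τ =
      x σ.τ * (F' n * u' n (ω n)) σ.τ σ.τ := by
    filter_upwards [f.col, f.ex] with n k2 k3 x
    refine sum_eq_single σ.τ (fun e _ z => mul_eq_zero_of_right _ (not_not.1 fun y => z ?_)) (by simp)
    exact (k3.2.1 e σ.τ (.inr (k2 _ (hω n) e _ f.tau ▸ y))).2.2 rfl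
  have bA : ∀ i b, OB (wM X) fun n => ((X n).A (ω n) i ᵥ* (F' n * u' n (ω n))) b := fun i b c hc =>
    (w.dir f 0 hc).mono fun n k => by simpa [dl_inv] using k _ (hω n) i b
  refine tz_of hM (μ := σ.μ) (G := fun b => 0 < σ.μ b ∧ vt b = 0)
    (Pz := fun b => σ.pos b ∧ vt b = 0) (η := σ.η)
    (c := fun n => hc σ.μ (mC (u n (ω n) * F n) (F' n * u' n (ω n)) ((X n).c (ω n))))
    (fun b v => v.1) (fun a b e c hc => (al c hc 0).mono fun n k => ?_) bA (fun i b v => ?_)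
    (fun b b' e x y v => GA.Neg.os fun T => (al 1 one_pos T).mono fun n k => ?_)
    (fun ε hε => (w.noCh f al hε).mono fun n k => k _ (hω n))
    (fun i i' b p => ⟨1, one_pos, ?_⟩) (fun z b l p => ⟨2, two_pos, ?_⟩) ⟨w.ok.tau, f.tau⟩ ?_ a
    ⟨pa, v0⟩ ⟨w.ok.live a pa, v0⟩
  · rw [dl_inv]
    unfold Cp.hc
    split_ifs
    · exact (k _ (hω n)).ob a b e
    · rw [abs_zero]; exact (Real.exp_pos _).le
  · by_cases z : σ.μ b = σ.η i
    · have p : 0 < vt b := (f.v0 b).1.lt_of_ne' fun y => v ⟨⟨z ▸ w.ok.et i, y⟩, z⟩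
      exact ⟨_, half_pos p, (w.dir f 1 (half_pos p)).mono fun n k =>
        (k _ (hω n) i b).trans (ex_le (by simp only [wM]; push_cast; linarith))⟩
    · refine GA.Neg.os (GA.neg_ev ((f.blk.and w.alg).mono fun n k => not_not.1 fun y => z ?_))
      exact ((k.2 _ (hω n)).hg i).vecMul (fun a e q => ((k.1 _ (hω n)).2.2.1 e a q).symm) b y
  · unfold Cp.hc
    split_ifs with z
    · have p : 0 < σ.μ e := by linarith [z.1, z.2.1, z.2.2]
      refine (k _ (hω n)).gr b b' e p fun q => v ⟨⟨p, ?_⟩, z.2.2⟩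
      have q' : σ.μ e + vt e = σ.μ b + vt b + (σ.μ b' + vt b') := q.2.2.2
      linarith [z.2.2, x.2, y.2]
    · rw [abs_zero]; exact (G39.dl_pos _ _ _).le
  · filter_upwards [sm, ct, w.alg, w.dir f 0 one_half_pos, w.sub _ one_half_pos]
      with n k1 k2 k3 k4 k5
    obtain ⟨j, hj⟩ := (k3 _ (hω n)).long
    have q1 := k1 (fun e => (X n).A (ω n) i e * (X n).A (ω n) i' σ.τ -
      (X n).A (ω n) i' e * (X n).A (ω n) i σ.τ) b p.1 p.2 fun e q => (k3 _ (hω n)).cur i i' e q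
    have q2 := k4 _ (hω n) j σ.τ
    rw [k2, abs_mul] at q2
    have q3 : |(F' n * u' n (ω n)) σ.τ σ.τ| ≤ Real.exp (X n).M := by
      refine (le_mul_of_one_le_left (abs_nonneg _) hj).trans ?_
      rw [mul_assoc]
      refine (mul_le_mul k5.2 q2 (by positivity) (Real.exp_pos _).le).trans ?_
      rw [← Real.exp_add]
      exact ex_le (by push_cast; linarith)
    rw [k2, k2, show ∀ a b c d e : ℝ, a * (b * e) - c * (d * e) = e * (a * b - c * d) from
      fun _ _ _ _ _ => by ring, abs_mul]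
    refine (mul_le_mul q3 (le_of_eq_of_le ?_ q1) (abs_nonneg _) (Real.exp_pos _).le).trans ?_
    · simp only [vecMul, dotProduct, sum_mul, ← sum_sub_distrib]
      exact congrArg _ (sum_congr rfl fun _ _ => by ring)
    · rw [dl, dl, ← Real.exp_add]
      exact ex_le (by simp only [wM]; linarith)
  · filter_upwards [sm, w.cur z l, f.blk] with n k1 k2 k3
    obtain ⟨e1, e2, e3, -⟩ := k3 _ (hω n)
    have : ∀ z : Wd α, z.ev (br (hc σ.μ (mC (u n (ω n) * F n) (F' n * u' n (ω n)) ((X n).c (ω n)))))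
        (fun i => (X n).A (ω n) i ᵥ* (F' n * u' n (ω n))) =
        z.ev (br (hc σ.μ ((X n).c (ω n)))) ((X n).A (ω n)) ᵥ* (F' n * u' n (ω n)) := fun z => by
      induction z with
      | of i => rfl
      | br x y hx hy => rw [Wd.ev, Wd.ev, hx, hy, br_mC e1, hc_mC e2 e3]
    rw [this]
    exact k1 _ b p.1 p.2 (k2 _ (hω n))
  · by_contra z
    push Not at z
    obtain ⟨r, r0, k⟩ := os_all z
    have r3 : 0 < r / 3 := by positivity
    obtain ⟨n, k1, k2, k3, k4, k5, k6, k7, k8⟩ := (k.and (ct.and (w.alg.and ((w.sub _ r3).and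
      ((f.dia 0 _ r3).and (f.blk.and ((w.good 0).and (hM.ev 1)))))))).exists
    obtain ⟨j, hj⟩ := (k3 _ (hω n)).long
    have q1 := k2 ((u n (ω n) * F n) σ.τ)
    rw [show (u n (ω n) * F n) σ.τ ᵥ* (F' n * u' n (ω n)) = (1 : Matrix κ κ ℝ) σ.τ from
      congrFun (k6 _ (hω n)).1 σ.τ, one_apply_eq] at q1
    have q2 := (k5 _ (hω n)).1 σ.τ _ ((k7 _ (hω n)).one σ.τ)
    rw [single_dotProduct, one_mul] at q2
    have q3 := k1 j
    rw [k2] at q3
    have q4 : |(X n).A (ω n) j σ.τ| = |(X n).A (ω n) j σ.τ * (F' n * u' n (ω n)) σ.τ σ.τ| *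
        |(u n (ω n) * F n) σ.τ σ.τ| := by
      rw [← abs_mul, mul_assoc, mul_comm (_ : ℝ) ((u n (ω n) * F n) σ.τ σ.τ), ← q1, mul_one]
    have q5 := hj.trans (mul_le_mul k4.2 (q4.trans_le (mul_le_mul q3 q2 (abs_nonneg _)
      (G39.dl_pos _ _ _).le)) (abs_nonneg _) (Real.exp_pos _).le)
    rw [dl, ← Real.exp_add, ← Real.exp_add, Real.one_le_exp_iff] at q5
    simp only [wM] at q5 k8
    push_cast at q5
    nlinarith

end Pool.Agent.MP_5168f5_an.QA.Cp.N2
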