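import Pool.Agent.MP_4b405e_nt.SK.N2R

/-! Sparse heights: from the chain at one depth to the window. -/

namespace Pool.Agent.MP_5168f5_an.QA.Cp

open H19 H17S H17F R4 AN Filter Matrix
open LC (ex_le Au)

variable {ι κ α J : Type} [Fintype ι] [DecidableEq ι] [Fintype κ] [DecidableEq κ] [Fintype α]

theorem Sd.Ok0.sub {Ω Θ Λ : Type} {σ : Cs ι κ α} {mm K ϑ La γ C : ℝ} {X : Sd ι κ α Ω Θ Λ}
    (h : X.Ok0 σ mm K ϑ La γ C) {ω : Ω} (hω : ω ∈ X.P.S) {k k' : ℕ} (e : k ≤ k') (e' : k' ≤ X.m) :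
    X.Ψ k ω ⊆ X.Ψ k' ω := by
  induction k', e using Nat.le_induction with
  | base => exact subset_rfl
  | succ j _ ih => exact (ih (Nat.le_of_succ_le e')).trans (h.mono j e' ω hω)

theorem Sd.Ok0.fu {Ω Θ Λ : Type} {σ : Cs ι κ α} {mm K ϑ La γ C : ℝ} {X : Sd ι κ α Ω Θ Λ}
    (h : X.Ok0 σ mm K ϑ La γ C) {ω : Ω} (hω : ω ∈ X.P.S) {k : ℕ} (e : k ≤ X.m) :
    Fu (X.Ψ k ω) 1 (Real.exp (|C| * (X.m * X.s))) := by
  have g := h.good k e ω hω
  refine ⟨one_pos, g.fu.one, fun φ a b => ((g.ok φ a).f b).trans ?_⟩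
  rw [one_mul]
  change flr σ.μ X.F b ≤ _
  unfold flr
  split_ifs
  · refine h.fl.trans (Real.exp_le_exp.2 ?_)
    push_cast
    exact mul_le_mul_of_nonneg_right (le_abs_self C) (by positivity)
  · exact Real.one_le_exp (by positivity)
namespace N2

/-- The saturation of the selected event under the label. -/
theorem sat {Ω α Λ Λ' Λ'' : ℕ → Type} {J : Type} {X : Sc Ω α Λ Λ' Λ'' J Empty} {A a τ b : ℝ}
    {u k₀ kb : ℕ → ℕ} {σ : J → ℝ} {y : J → ℕ → ℝ} {G : ∀ n, Ω n → Prop}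
    (h : X.Ev u k₀ σ τ b y kb G) (hX : X.In A a) (hw : Mid X.m u k₀)
    (fO : ∀ᶠ n in UF, ∀ k ≤ X.m n, Fn (X.P n) (X.O n k) (X.l n))
    (fY : ∀ᶠ n in UF, ∀ j, ∀ k ≤ X.m n, Fn (X.P n) (X.Y j n k) (X.l n))
    (fG : ∀ᶠ n in UF, Fn (X.P n) (X.G₀ n) (X.l n)) :
    X.Ev u k₀ σ τ b y kb fun n ω => ω ∈ (X.P n).S ∧ ∃ v ∈ (X.P n).S, X.l n v = X.l n ω ∧ G n v := by
  have lm : ∀ R : ℝ, ∀ᶠ n in UF, ∀ k : ℕ, |(k : ℝ) - k₀ n| ≤ R * u n → k ≤ X.m n := fun R =>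
    (hw R).mono fun n c k e => Nat.cast_le.1 (show (k : ℝ) ≤ X.m n by linarith [(abs_le.1 e).2, c.2])
  refine ⟨h.ne.mono fun n ⟨ω, p, g⟩ => ⟨ω, p, p, ω, p, rfl, g⟩, ?_, fun ε hε => ?_, fun ε hε => ?_,
    fun i => i.elim, fun j R ε hε => ?_, fun R ε hε => ?_, ?_⟩
  · filter_upwards [h.sub, fG] with n c f ω ⟨p, v, q, e, g⟩
    exact f v q ω p e ▸ c v g
  · filter_upwards [h.domO ε hε, fO] with n c f ω p ⟨_, v, q, e, g⟩ k e1 e2
    rw [← f k e2 v q ω p e]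
    exact (c v q g k e1 e2).trans (pb_mono fun w r z =>
      have r' := ((S20.mem_cv q w).1 r).1
      ⟨r', w, r', rfl, z⟩)
  · filter_upwards [h.domC ε hε, fO, hX.co] with n c f f' ω p ⟨_, v, q, e, g⟩ k e1 e2
    rw [← ((f' k e2).trans (f k e2)) v q ω p e]
    exact (c v q g k e1 e2).trans (pb_mono fun w r z =>
      have r' := ((S20.mem_cv q w).1 r).1
      ⟨r', w, r', rfl, z⟩)
  · filter_upwards [h.lin j R ε hε, fY, lm R] with n c f l ω p ⟨_, v, q, e, g⟩ k e1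
    rw [← f j k (l k e1) v q ω p e]
    exact c v q g k e1
  · filter_upwards [h.gn R ε hε, fO, hX.co, lm R] with n c f f' l ω p ⟨_, v, q, e, g⟩ k k' e1 e2
    have z : ∀ k ≤ X.m n, SelA.gain (X.P n) (X.l n) (X.C n) k v =
        SelA.gain (X.P n) (X.l n) (X.C n) k ω := fun k e1 => by
      rw [SelA.gain, SelA.gain, S20.dn_rel (((f' k e1).trans (f k e1)) v q ω p e) e,
        S20.dn_rel (((f' 0 (Nat.zero_le _)).trans (f 0 (Nat.zero_le _))) v q ω p e) e]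
    rw [← z k (l k e1), ← z k' (l k' e2)]
    exact c v q g k k' e1 e2
  · filter_upwards [h.tot, fY] with n c f ω p ⟨_, v, q, e, g⟩
    rw [← f _ _ le_rfl v q ω p e, ← f _ _ (Nat.zero_le _) v q ω p e]
    exact c v q g

section In

variable {Ω Θ Λ : ℕ → Type}

theorem sc_in {σ : Cs ι κ α} {ob : J → Set (κ → ℝ) → ℝ} {mm K ϑ La a γ C : ℝ}
    {X : ∀ n, Sd ι κ α (Ω n) (Θ n) (Λ n)} (ad : Adm σ.μ ob) (hK : 0 < K)
    (h : CH σ mm K ϑ La a γ C X) : ∃ A, (sc σ ob K X).In A a := by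
  obtain ⟨c, ad⟩ := adm_obv ad hK
  have sp : ∀ᶠ n in UF, (1 : ℝ) ≤ (X n).s := by
    filter_upwards [h.sm 1 one_pos, h.big.ev 1] with n c d
    have e := Real.log_pos (show (1 : ℝ) < (X n).m + 1 by linarith)
    exact Nat.one_le_cast.2 (Nat.cast_pos.1 (show (0 : ℝ) < (X n).s by linarith))
  have d1 : ∀ n, 1 ≤ Real.exp (|C| * ((X n).m * (X n).s)) := fun n =>
    Real.one_le_exp (by positivity)
  refine ⟨|c| * (1 + |C|), h.big, h.sm, h.ev.mono fun _ o => o.com, h.ev.mono fun _ o => o.nest false,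
    h.ev.mono fun _ o => o.fl1, h.ev.mono fun _ o k e => (o.fO k e).trans (Fn.fst _ _), fun b => b.elim, h.whp, h.se,
    fun j ε hε => ?_, fun j => ?_, ?_, h.am.1, fun ε hε => (h.en ε hε).mono fun n e => ?_⟩
  · filter_upwards [h.ev, sp, h.big.sm c ε hε] with n o s1 s2 ω hω _ k k' e e'
    refine ((ad j _ _ (d1 n) (o.fu hω (e.trans e')) (o.good k (e.trans e') ω hω).hg).2 _
      (o.fu hω e') (o.good k' e' ω hω).hg (o.sub hω e e')).trans (add_le_add le_rfl ?_)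
    have := mul_le_mul_of_nonneg_left s1 (show 0 ≤ ε * (X n).m by positivity)
    change c ≤ ε * ((X n).m * (X n).s)
    linarith
  · filter_upwards [h.ev, sp, h.big.ev 1] with n o s1 s2 ω hω _ k e
    refine (ad j _ _ (d1 n) (o.fu hω e) (o.good k e ω hω).hg).1.trans ?_
    have p : (1 : ℝ) ≤ (X n).m * (X n).s := one_le_mul_of_one_le_of_one_le s2 s1
    rw [Real.log_exp]
    change _ ≤ |c| * (1 + |C|) * ((X n).m * (X n).s)
    refine (mul_le_mul_of_nonneg_right (le_abs_self c) (by positivity)).trans ?_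
    rw [mul_assoc]
    exact mul_le_mul_of_nonneg_left (by linarith) (abs_nonneg c)
  · filter_upwards [h.ev] with n o ω hω
    have f := o.fu hω (Nat.zero_le _)
    exact mul_le_mul_of_nonneg_left (Real.log_le_log f.vl_pos
      (f.mono (o.fu hω le_rfl) (o.sub hω (Nat.zero_le _) le_rfl))) hK.le
  · simp only [Nat.cast_mul] at e ⊢
    exact e
end In

/-- The facts on one space, for the levels up to `R` and the loss `c`. -/
structure Cx {Ω Θ Λ : Type} (σ : Cs ι κ α) (mm K ϑ La γ C : ℝ) (X : Sd ι κ α Ω Θ Λ) (G : Ω → Prop)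
    (u k₀ : ℕ) (W R c : ℝ) : Prop where
  ok : X.Ok0 σ mm K ϑ La γ C
  tr : Ba.Tr σ X.toBa G W
  sub : ∀ ω, G ω → X.G ω
  dom : ∀ b, ∀ ω ∈ X.P.S, G ω → ∀ k, k₀ ≤ k → k ≤ X.m →
    Real.exp (-(c * (u * X.s : ℕ))) ≤ pb (cv X.P (X.O b k) (X.O b k ω)) G
  lev : ∀ x : ℝ, |x| ≤ R → kx k₀ u x ≤ X.m ∧ |(kx k₀ u x : ℝ) - k₀| ≤ (R + 1) * u ∧
    |((kx k₀ u x : ℝ) - k₀) * X.s - x * (u * X.s : ℕ)| ≤ c * (u * X.s : ℕ)
  e : X.e ≤ c * (u * X.s : ℕ)
  far : R * (u * X.s : ℕ) ≤ γ * (X.m * X.s : ℕ)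
  k1 : 1 ≤ k₀ ∧ k₀ ≤ X.m
  u1 : (1 : ℝ) ≤ (u * X.s : ℕ)

variable {Ω Θ Λ : ℕ → Type} {σ : Cs ι κ α} {mm K ϑ La a γ C A τ b W : ℝ}
  {X : ∀ n, Sd ι κ α (Ω n) (Θ n) (Λ n)} {ob : J → Set (κ → ℝ) → ℝ} {u k₀ : ℕ → ℕ}
  {sg : Option J → ℝ} {y : Option J → ℕ → ℝ} {G : ∀ n, Ω n → Prop}

theorem cx (h : CH σ mm K ϑ La a γ C X) (hi : (sc σ ob K X).In A a)
    (w : (sc σ ob K X).Win u k₀ sg τ b) (v : (sc σ ob K X).Ev u k₀ sg τ b y k₀ G)
    (w1 : ∀ a, σ.μ a ≤ W) (w2 : ∀ i, σ.η i ≤ W) (R : ℝ) {c : ℝ} (hc : 0 < c) :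
    ∀ᶠ n in UF, Cx σ mm K ϑ La γ C (X n) (G n) (u n) (k₀ n) W R c := by
  have c4 : 0 < c / 4 := by positivity
  filter_upwards [h.ev, v.ne, v.sub, v.domO c hc, v.domC c hc, w.mid (|R| + 1),
    w.mid (|R| / γ), w.er _ c4, w.big.ev 1, w.big.ev (2 / c), SelB.s_pos hi]
    with n o ne su dO dC m1 m2 e1 u1 u2 s1
  simp only [sc, zero_add, one_mul] at ne su dO dC m1 m2 e1 s1
  rw [add_mul, one_mul] at m1
  have r0 := abs_nonneg R
  have r1 := mul_le_mul_of_nonneg_right (le_abs_self R) (zero_le_one.trans u1)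
  have k1 : (u n : ℝ) ≤ k₀ n := by nlinarith [m1.1]
  have k2 : k₀ n ≤ (X n).m := Nat.cast_le (α := ℝ).1 (by nlinarith [m1.2])
  have k3 : 1 ≤ k₀ n := Nat.one_le_cast (α := ℝ).1 (u1.trans k1)
  have s2 : ((X n).s : ℝ) ≤ c / 2 * (u n * (X n).s : ℕ) := by
    rw [div_le_iff₀' hc] at u2
    push_cast
    nlinarith
  obtain ⟨ω₀, p0, -⟩ := id ne
  refine ⟨o, ⟨h.ok, w1, w2, ne, ?_, o.l1, fun ω p => ?_, fun ω p ω' _ _ _ =>
    (t_zero o.j1 (o.alg 0 (Nat.zero_le _) ω p).fr ω').2⟩, su, fun b => ?_, fun x hx => ?_,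
    by nlinarith, ?_, ⟨k3, k2⟩, ?_⟩
  · have := (o.good 0 (Nat.zero_le _) ω₀ p0).fl1 σ.τ
    simpa only [Ba.da, flr, if_pos (h.ok.live _ h.ok.tau)] using this
  · exact ⟨(o.alg 0 (Nat.zero_le _) ω p).unit, (o.alg 0 (Nat.zero_le _) ω p).fr,
      (o.alg 0 (Nat.zero_le _) ω p).hg⟩
  · cases b
    · simpa only [Nat.cast_mul] using dC
    · simpa only [Nat.cast_mul] using dO
  · obtain ⟨a1, a2, a3⟩ := kx_spec (k₀ := k₀ n) (m := (X n).m) (R := R) (by linarith [m1.1])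
      (by linarith [m1.2]) u1 hx
    have a4 : |((kx (k₀ n) (u n) x : ℝ) - k₀ n) * (X n).s - x * (u n * (X n).s : ℕ)| ≤ (X n).s := by
      rw [Nat.cast_mul, ← mul_assoc, ← sub_mul, abs_mul, Nat.abs_cast]
      exact mul_le_of_le_one_left (Nat.cast_nonneg _) a1
    exact ⟨a2, a3, a4.trans (by linarith)⟩
  · have g0 := h.g0
    have a1 : |R| / γ * u n ≤ (X n).m := m2.1.trans (Nat.cast_le.2 k2)
    rw [div_mul_eq_mul_div, div_le_iff₀' g0] at a1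
    push_cast
    nlinarith [mul_le_mul_of_nonneg_right (r1.trans a1) (zero_le_one.trans s1)]
  · push_cast
    nlinarith

theorem lin_wn (H : ∀ R c : ℝ, 0 < c → ∀ᶠ n in UF, Cx σ mm K ϑ La γ C (X n) (G n) (u n) (k₀ n) W R c)
    (v : (sc σ ob K X).Ev u k₀ sg τ b y k₀ G) (j : Option J) :
    Lin (fun n => wn σ (X n) (G n) (u n) (k₀ n)) (obv σ.μ ob K j) (sg j) (y j) := fun x c hc => by
  have c' : 0 < c / (1 + |sg j|) := by positivity
  filter_upwards [H |(x : ℝ)| _ c', v.lin j (|(x : ℝ)| + 1) _ c'] with n t l ω p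
  obtain ⟨p1, p2⟩ := t.tr.mem.1 p
  obtain ⟨-, a2, a4⟩ := t.lev x le_rfl
  have b1 := abs_le.1 (l ω p1 p2 _ a2)
  have b2 := abs_le.1 ((abs_mul (sg j) _).trans_le (mul_le_mul_of_nonneg_left a4 (abs_nonneg _)))
  have e : c / (1 + |sg j|) * (u n * (X n).s : ℕ) + |sg j| * (c / (1 + |sg j|) *
      (u n * (X n).s : ℕ)) = c * (u n * (X n).s : ℕ) := by field_simp
  simp only [sc, ← Nat.cast_mul] at b1
  simp only [wn]
  rw [abs_le]
  constructor <;> linarith [b1.1, b1.2, b2.1, b2.2]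
theorem ww (h : CH σ mm K ϑ La a γ C X) (hK : 0 < K) (hi : (sc σ ob K X).In A a)
    (w : (sc σ ob K X).Win u k₀ sg τ b) (v : (sc σ ob K X).Ev u k₀ sg τ b y k₀ G)
    (fz : ∀ n ω ω', G n ω → G n ω' → (X n).O false (k₀ n) ω = (X n).O false (k₀ n) ω')
    (hb : b < mm) (gap : ∀ p q p' q' : Option κ,
      |p.elim 0 σ.μ - q.elim 0 σ.μ - (p'.elim 0 σ.μ - q'.elim 0 σ.μ)| ≤ 2 * (sg none / K) →
      p.elim 0 σ.μ - q.elim 0 σ.μ = p'.elim 0 σ.μ - q'.elim 0 σ.μ) :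
    WW σ (fun n => wn σ (X n) (G n) (u n) (k₀ n)) ϑ La τ (sg none / K) ∧
      ∀ j, Lin (fun n => wn σ (X n) (G n) (u n) (k₀ n)) (obv σ.μ ob K j) (sg j) (y j) := by
  obtain ⟨W, w1, w2⟩ : ∃ W, (∀ a, σ.μ a ≤ W) ∧ ∀ i, σ.η i ≤ W := by
    have p := Finset.sum_nonneg fun a (_ : a ∈ Finset.univ) => h.ok.m0 a
    have q := Finset.sum_nonneg fun i (_ : i ∈ Finset.univ) => (h.ok.et i).le
    exact ⟨∑ a, σ.μ a + ∑ i, σ.η i, fun a => (Finset.single_le_sum (fun a _ => h.ok.m0 a)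
      (Finset.mem_univ a)).trans (by linarith), fun i => (Finset.single_le_sum
        (fun i _ => (h.ok.et i).le) (Finset.mem_univ i)).trans (by linarith)⟩
  have H := fun R c hc => cx h hi w v w1 w2 R (c := c) hc
  have th := h.t0
  have ta : 0 ≤ τ := w.t0
  have bg : Big fun n => u n * (X n).s := tendsto_atTop_mono' _
    ((SelB.s_pos hi).mono fun n s => Nat.le_mul_of_pos_right _
      (Nat.cast_pos.1 (zero_lt_one.trans_le s))) w.big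
  have nq : ∀ a : ℚ≥0, (0 : ℝ) ≤ (a : ℚ) := fun a => by exact_mod_cast a.2
  have two : ∀ x x' : ℝ, |x| ≤ |x| + |x'| ∧ |x'| ≤ |x| + |x'| := fun x x' =>
    ⟨le_add_of_nonneg_right (abs_nonneg _), le_add_of_nonneg_left (abs_nonneg _)⟩
  refine ⟨⟨h.ok, h.t0, h.a0, gap, bg, h.ev.mono fun n o => o.j1, fun c hc => (H 0 c hc).mono fun n t =>
    ⟨t.ok.l1, t.ok.le.trans (ex_le t.e)⟩, (H 0 1 one_pos).mono fun n t ω p ω' p' => ?_,
    fun x hx => (H 0 1 one_pos).mono fun n t ω p ω' p' _ => ?_,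
    fun k a a' e => (H |((a' : ℚ) : ℝ)| 1 one_pos).mono fun n t => fn_cE (SelA.fn_chain
      (t.ok.nest k) (kx_mono _ _ (by exact_mod_cast e)) (t.lev _ le_rfl).1) _,
    fun a => (H |((a : ℚ) : ℝ)| 1 one_pos).mono fun n t => fn_cE (t.ok.com _ (t.lev _ le_rfl).1) _,
    fun a => (H |((a : ℚ) : ℝ)| 1 one_pos).mono fun n t => fn_cE ((t.ok.fO _ (t.lev _ le_rfl).1).trans
      (t.ok.fl1 _ (t.lev _ (by simp)).1)) _,
    fun a => (H |((a : ℚ) : ℝ)| 1 one_pos).mono fun n t => fn_cE (t.ok.fΨ _ (t.lev _ le_rfl).1) _,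
    (H 0 1 one_pos).mono fun n t ω p => t.tr.alg (t.ok.d0 _) (t.ok.alg _ t.k1.2 ω (cE_sub p)),
    fun z hz => ((H 0 1 one_pos).and (h.cur z hz)).mono fun n t => t.1.tr.cur t.2,
    fun x => (H |(x : ℝ)| 1 one_pos).mono fun n t ω p => ?_,
    fun x x' e => (H |(x' : ℝ)| 1 one_pos).mono fun n t ω p => t.ok.sub (cE_sub p)
      (kx_mono _ _ (by exact_mod_cast e)) (t.lev _ le_rfl).1,
    fun x T => ?_, fun x x' e c hc _ => ?_, fun a c hc _ => ?_, fun a a' e c hc _ => ?_,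
    ⟨fun n => y none n / K, fun x c hc => ?_⟩⟩, lin_wn H v⟩
  · have z := fz n ω ω' (t.tr.mem.1 p).2 (t.tr.mem.1 p').2
    have f := Prod.mk.inj ((t.ok.fB.trans (SelA.fn_chain (t.ok.nest false) (Nat.zero_le _) t.k1.2))
      ω (cE_sub p) ω' (cE_sub p') z)
    refine ⟨?_, ?_, ?_⟩
    · simpa only [wn, NNRat.coe_zero, Rat.cast_zero, kx_zero] using z
    · simp only [wn, Ba.nw, f.1]
    · simp only [wn, Ba.nw, f.2]
  · have e : kx (k₀ n) (u n) x ≤ k₀ n :=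
      (kx_mono _ _ (by exact_mod_cast hx)).trans_eq (kx_zero _ _)
    exact ((t.ok.fΨ _ (e.trans t.k1.2)).trans (SelA.fn_chain (t.ok.nest false) e t.k1.2)) ω
      (cE_sub p) ω' (cE_sub p') (fz n ω ω' (t.tr.mem.1 p).2 (t.tr.mem.1 p').2)
  · simp only [wn, Ba.da_nw]
    exact t.ok.good _ (t.lev _ le_rfl).1 ω (cE_sub p)
  · filter_upwards [H (|(x : ℝ)| + |T|) 1 one_pos, v.tot] with n t z ω p
    obtain ⟨p1, p2⟩ := t.tr.mem.1 p
    have a1 := (t.lev x (two _ _).1).1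
    have f := fun k e => t.ok.fu (k := k) p1 e
    have a2 := (f _ a1).mono (wt := σ.μ) (f _ le_rfl) (t.ok.sub p1 a1 le_rfl)
    have a3 : K * Real.log (vl σ.μ ((X n).Ψ (X n).m ω)) - K * Real.log (vl σ.μ ((X n).Ψ 0 ω)) ≤
      b * ((X n).m * (X n).s) := z ω p1 p2
    have m0 : (0 : ℝ) ≤ (X n).m * (X n).s := by positivity
    have a4 : Real.log (vl σ.μ ((X n).Ψ (X n).m ω)) ≤ Real.log (vl σ.μ ((X n).Ψ 0 ω)) +
        mm / K * ((X n).m * (X n).s : ℕ) := by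
      rw [← sub_le_iff_le_add', div_mul_eq_mul_div, le_div_iff₀' hK, Nat.cast_mul]
      nlinarith
    rw [Real.log_le_iff_le_exp (f _ le_rfl).vl_pos, Real.exp_add,
      Real.exp_log (f _ (Nat.zero_le _)).vl_pos] at a4
    refine le_trans ?_ (t.ok.off ω p1)
    rw [add_mul, Real.exp_add, ← mul_assoc]
    refine mul_le_mul (a2.trans a4) (ex_le (le_trans ?_ t.far)) (Real.exp_pos _).le
      ((f _ a1).vl_pos.le.trans (a2.trans a4))
    exact mul_le_mul_of_nonneg_right ((le_abs_self T).trans (two _ _).2) (Nat.cast_nonneg _)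
  · have q : 0 < 1 + 2 * ϑ := by positivity
    refine (H (|(x : ℝ)| + |(x' : ℝ)|) _ (div_pos hc q)).mono fun n t => ?_
    obtain ⟨-, -, a4⟩ := t.lev x (two _ _).1
    obtain ⟨b1, -, b4⟩ := t.lev x' (two _ _).2
    refine t.tr.rate (δ := ϑ * (2 * (c / (1 + 2 * ϑ) * (u n * (X n).s : ℕ)))) ?_ ?_
      (t.ok.rate _ _ (kx_mono _ _ (by exact_mod_cast e)) b1)
    · rw [← mul_sub, abs_mul, abs_of_pos th]
      refine mul_le_mul_of_nonneg_left (abs_le.2 ⟨?_, ?_⟩) th.le <;> simp only [wn] <;>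
        linarith [(abs_le.1 a4).1, (abs_le.1 a4).2, (abs_le.1 b4).1, (abs_le.1 b4).2]
    · simp only [wM, wn]
      linarith [t.e, small (c := c) (U := (u n * (X n).s : ℕ)) q]
  · refine (H |((a : ℚ) : ℝ)| _ (half_pos hc)).mono fun n t ω p => ?_
    obtain ⟨p1, p2⟩ := t.tr.mem.1 p
    have a1 := (t.lev _ le_rfl).1
    have a2 := kx_ge (k₀ n) (u n) (nq a)
    refine t.tr.rob p (t.dom false ω p1 p2 _ a2 a1) ?_
      (t.ok.rob _ a1 (t.k1.1.trans a2) ω p1 (t.sub ω p2))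
    simp only [wM, wn]
    linarith [t.e]
  · have q : 0 < 1 + 2 * τ := by positivity
    have c' := div_pos hc q
    filter_upwards [H (|((a : ℚ) : ℝ)| + |((a' : ℚ) : ℝ)|) _ c',
      v.df hi w.mid (|((a : ℚ) : ℝ)| + |((a' : ℚ) : ℝ)| + 1) _ c'] with n t z ω p
    obtain ⟨p1, p2⟩ := t.tr.mem.1 p
    obtain ⟨-, a2, a4⟩ := t.lev _ (two ((a : ℚ) : ℝ) _).1
    obtain ⟨-, b2, b4⟩ := t.lev _ (two _ ((a' : ℚ) : ℝ)).2
    refine (z ω p1 p2 _ _ (kx_ge _ _ (nq a)) (kx_mono _ _ (by exact_mod_cast e)) a2 b2).trans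
      (mul_le_mul_of_nonneg_right (ex_le ?_) (pb_nonneg _ _))
    have x1 := mul_le_mul_of_nonneg_left (abs_le.1 a4).1 ta
    have x2 := mul_le_mul_of_nonneg_left (abs_le.1 b4).2 ta
    have x3 := small (c := c) (U := (u n * (X n).s : ℕ)) q
    simp only [sc, wM, wn, ← Nat.cast_mul, Rat.cast_nnratCast] at x1 x2 ⊢
    linarith
  · refine (lin_wn H v none x _ (mul_pos hK hc)).mono fun n z ω p => ?_
    have := z ω p
    rw [mul_assoc, ← div_le_iff₀' hK, ← abs_of_pos hK, ← abs_div, abs_of_pos hK] at this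
    refine le_of_eq_of_le (congrArg _ ?_) this
    simp only [obv]
    field_simp
theorem sWin [Fintype J] (σ : Cs ι κ α) (ob : J → Set (κ → ℝ) → ℝ) (ad : Adm σ.μ ob) (mm : ℝ) :
    ∃ K₀ : ℝ, ∀ (Ω Θ Λ : ℕ → Type) (K ϑ La a γ C : ℝ) (X : ∀ n, Sd ι κ α (Ω n) (Θ n) (Λ n)),
    K₀ ≤ K → CH σ mm K ϑ La a γ C X → ∃ (D s₀ : ℝ) (u k₀ : ℕ → ℕ) (G : ∀ n, Ω n → Prop),
      WW σ (fun n => wn σ (X n) (G n) (u n) (k₀ n)) ϑ La D s₀ ∧
      Lins (fun n => wn σ (X n) (G n) (u n) (k₀ n)) ob ∧ (0 ≤ D ∧ D ≤ mm ∧ s₀ ≤ mm) ∧ Big u ∧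
      Mid (fun n => (X n).m) u k₀ ∧ (∀ᶠ n in UF, ∃ ω ∈ (X n).P.S, G n ω) ∧
      (∀ᶠ n in UF, ∀ ω, G n ω → (X n).G ω) ∧ FnE (fun n => (X n).P) G fun n => (X n).l := by
  obtain ⟨δ, d0, d1⟩ := ex_gap fun i : Option κ × Option κ × Option κ × Option κ =>
    i.1.elim 0 σ.μ - i.2.1.elim 0 σ.μ - (i.2.2.1.elim 0 σ.μ - i.2.2.2.elim 0 σ.μ)
  refine ⟨2 * |mm| / δ + 1, fun Ω Θ Λ K ϑ La a γ C X k h => ?_⟩
  have hK : 0 < K := lt_of_lt_of_le (by positivity) k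
  have K1 : 1 ≤ K := le_trans (le_add_of_nonneg_left (by positivity)) k
  obtain ⟨A, hi⟩ := sc_in ad hK h
  obtain ⟨u, k₀, sg, τ, cy, G, w, v⟩ := selY _ _ _ _ _ _ _ _ A a ((mm - a) / 2) hi
    (by linarith [h.am.2])
  have v1 := sat v hi w.mid (h.ev.mono fun n o => o.fO) (h.ev.mono fun n o j k e p q r s z =>
    congrArg (obv σ.μ ob K j) (((o.fΨ k e).trans ((o.com k e).trans (o.fO k e))) p q r s z))
    (h.ev.mono fun n o => o.fG)
  obtain ⟨ω₀, h0⟩ := Sc.ev_pick (Sc.ne_om (sc σ ob K X).P) v1.ne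
  have v' := v1.frz hi (kc := k₀) (.of_forall fun _ => Nat.zero_le _) h0
  have s1 : τ + sg none ≤ a + (mm - a) / 2 := w.le
  have s2 : 0 ≤ sg none := w.s0 none
  obtain ⟨r1, r2⟩ := ww h hK hi w v' (fun _ _ _ g g' => g.2.trans g'.2.symm) (by linarith [h.am.2])
    fun p q p' q' e => sub_eq_zero.1 (d1 (p, q, p', q') (e.trans (by
      have a1 : sg none ≤ |mm| := by linarith [w.t0, h.am.2, le_abs_self mm]
      have a2 : 2 * |mm| / δ ≤ K := by linarith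
      rw [div_le_iff₀ d0] at a2
      rw [← mul_div_assoc, div_le_iff₀' hK]
      linarith)))
  refine ⟨_, _, u, k₀, _, r1, ⟨fun n => (X n).m * (X n).s, fun R => ?_, fun j => ⟨_, _, r2 (some j)⟩⟩,
    ⟨w.t0, by linarith [h.am.2], (div_le_self s2 K1).trans (by linarith [h.am.2, w.t0])⟩, w.big,
    w.mid, v'.ne, v'.sub, ?_⟩
  · filter_upwards [w.mid R, w.mid 0] with n m1 m2
    have := mul_le_mul_of_nonneg_right (m1.1.trans (show (k₀ n : ℝ) ≤ (X n).m by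
      simpa [sc] using m2.2)) (Nat.cast_nonneg (α := ℝ) (X n).s)
    simp only [wn]
    push_cast
    linarith
  · filter_upwards [h.ev, w.mid 0] with n o m2 p q r s z
    have k2 : k₀ n ≤ (X n).m := by simpa [sc] using m2.2
    have := ((o.com _ k2).trans (o.fO _ k2)) p q r s z
    simp only [sc, this, z, q, s]

end N2

end Pool.Agent.MP_5168f5_an.QA.Cp
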