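import Pool.Agent.MP_4b405e_nt.SK.N2S
import Pool.Agent.MP_4b405e_nt.SK.N2T
import Pool.Agent.MP_4b405e_nt.SK.N2W

/-! Sparse heights: caps, window and frames at one depth. -/

namespace Pool.Agent.MP_5168f5_an.QA.Cp.N2

open H19 H17S H17F R4 AN Filter Matrix
open LC (Au)

variable {ι κ α : Type} [Fintype ι] [DecidableEq ι] [Fintype κ] [DecidableEq κ] [Fintype α]

section W

variable {Ω Λ : ℕ → Type} {σ : Cs ι κ α} {X : ∀ n, Wn ι κ α (Ω n) (Λ n)}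
  {ϑ La D s₀ : ℝ} {vt : κ → ℝ} {F F' : ℕ → Matrix κ κ ℝ} {u u' : ∀ n, Ω n → Matrix κ κ ℝ}

/-- The caps are functions of the piece. -/
theorem WW.fl (w : WW σ X ϑ La D s₀) (x : ℚ) :
    FnE (wP X) (fun n => (X n).Ψ x) fun n => (X n).O true 0 := by
  rcases le_total x 0 with h | h
  · exact (w.neg x h).mono fun n a p q r s _ => a p q r s rfl
  · filter_upwards [w.fΨ ⟨x, h⟩, w.com ⟨x, h⟩, w.one ⟨x, h⟩] with n a b c
    exact (a.trans b).trans c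

/-- Frames that are functions of the piece. -/
theorem WW.rep (w : WW σ X ϑ La D s₀) (f : FR σ X s₀ vt F F' u u') :
    FR σ X s₀ vt F F' (fun n ω => u n (rp (X n).P ((X n).O true 0) ω))
      fun n ω => u' n (rp (X n).P ((X n).O true 0) ω) := by
  refine ⟨f.v0, f.dead, f.tau, f.ex.mono fun n a => ⟨a.1, a.2.1, fun ω k => a.2.2 _ (rp_spec _ k).1⟩,
    fun T => (f.pat T).mono fun n a ω k => a _ (rp_spec _ k).1,
    fun c hc => (f.ob c hc).mono fun n a ω k => a _ (rp_spec _ k).1, fun x c hc => ?_⟩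
  filter_upwards [f.dia x c hc, w.fl x] with n a b ω k
  have := a _ (rp_spec ((X n).O true 0) k).1
  rwa [b _ (rp_spec _ k).1 ω k (rp_spec _ k).2] at this

/-- The constants in the frames are graded for both weights. -/
theorem WW.ra (w : WW σ X ϑ La D s₀) (f : FR σ X s₀ vt F F' u u') :
    Au (wM X) fun n p q => ∀ ω ∈ (X n).P.S,
      (cd (X n) (F n) (F' n) (u n) (u' n)).Alg (kc σ La D vt) p q ω :=
  rAlg _ _ _ _ _ σ X ϑ La D s₀ vt F F' u u' w f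

/-- Robustness in the cells. -/
theorem WW.rr (w : WW σ X ϑ La D s₀) (f : FR σ X s₀ vt F F' u u') (a : ℚ≥0) :
    Au (wM X) fun n => (cd (X n) (F n) (F' n) (u n) (u' n)).Rob (kc σ La D vt) a :=
  rRob_of rAlg _ _ _ _ _ σ X ϑ La D s₀ vt F F' u u' w f a

/-- The only position of rate zero is the marked one. -/
theorem WW.tz (w : WW σ X ϑ La D s₀) (f : FR σ X s₀ vt F F' u u') {a : κ} (p : σ.pos a)
    (v : vt a = 0) : a = σ.τ :=
  rTz_of rAlg _ _ _ _ _ σ X ϑ La D s₀ vt F F' u u' w f a p (by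
    show σ.μ a + vt a = σ.μ a
    rw [v, add_zero])

/-- The exact relations of the frames. -/
theorem WW.rf (w : WW σ X ϑ La D s₀) (f : FR σ X s₀ vt F F' u u') :
    ∀ᶠ n in UF, (cd (X n) (F n) (F' n) (u n) (u' n)).Fr (kc σ La D vt) :=
  rFr _ _ _ _ _ σ X ϑ La D s₀ vt F F' u u' w f

/-- The frames in one cell are close. -/
theorem WW.ri (w : WW σ X ϑ La D s₀) (f : FR σ X s₀ vt F F' u u') (a : ℚ≥0) :
    Au (wM X) fun n p _ => ∀ ω ∈ (X n).P.S, ∀ v ∈ (X n).P.S,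
      (X n).O false a ω = (X n).O false a v → ∀ b e,
        |(cd (X n) (F n) (F' n) (u n) (u' n)).rr (kc σ La D vt) a ω v b e| ≤ Real.exp p :=
  fun c hc T => ((rInc _ _ _ _ _ σ X ϑ La D s₀ vt F F' u u' w f a).1 c hc T).mono
    fun _ k ω p v q e b => (k ω v ⟨p, q, e⟩ b).2

end W

/-- Caps, window and frames at one depth. -/
theorem n2 {Ω Θ Λ : ℕ → Type} {σ : Cs ι κ α} {γ : ℝ} {X : ∀ n, Ld ι κ α (Ω n) (Θ n) (Λ n)}
    (h : LC σ γ X) {q : ℕ → ℕ} (hq : Big q) {mm : ℝ} (m0 : 0 < mm) :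
    ∃ (ϑ La D s₀ : ℝ) (vt : κ → ℝ) (Z : ∀ n, Wn ι κ α (Ω n) (Θ n ⊕ Ce ι κ (Λ n)))
      (G : ∀ n, Ω n → Prop) (F F' : ℕ → Matrix κ κ ℝ) (u u' : ∀ n, Ω n → Matrix κ κ ℝ),
      Out σ X q mm ϑ La D s₀ vt Z G F F' u u' := by
  obtain ⟨J, _, ob, ad, fr⟩ := sFr ι κ α σ
  obtain ⟨K₀, win⟩ := sWin σ ob ad mm
  obtain ⟨K, ϑ, La, e, m, s, Ψ, C, G₀, k0, ch, ev⟩ := sCh h hq m0 K₀
  obtain ⟨D, s₀, u, k₀, G, w, li, dm, bu, mid, ne, sub, fG⟩ := win _ _ _ K ϑ La _ _ _ _ k0 ch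
  obtain ⟨vt, F, F', U, U', f⟩ := fr _ _ _ ϑ La D s₀ w li
  refine ⟨ϑ, La, D, s₀, vt, _, G, F, F', _, _, w, w.rep f, dm, fun _ => rfl, fun R => ?_, ?_, ne,
    (sub.and ev).mono fun n a ω g => a.2.1 ω (a.1 ω g), fG, ?_,
    fun n a ω v => Sum.inl_injective.eq_iff, fun n ω v z => ?_⟩
  · filter_upwards [mid R, mid 0, ev] with n m1 m2 a
    have b : ((m n * s n : ℕ) : ℝ) ≤ (X n).M := Nat.cast_le.2 a.2.2.1
    have := mul_le_mul_of_nonneg_right (m1.1.trans (show (k₀ n : ℝ) ≤ m n by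
      simpa [Ld.sd] using m2.2)) (Nat.cast_nonneg (α := ℝ) (s n))
    change R * (u n * s n : ℕ) ≤ _
    push_cast at b ⊢
    linarith
  · filter_upwards [ev, tendsto_atTop.1 bu 1] with n a b
    exact a.2.2.2.trans (Nat.mul_le_mul_left _ (Nat.le_mul_of_pos_left _ b))
  · filter_upwards [w.bot, ne, ev, mid 0] with n a b c m2 ω p v r g g'
    have k2 : k₀ n ≤ m n := by simpa [Ld.sd] using m2.2
    have := (a ω ((mem_cE b ω).2 ⟨p, g⟩) v ((mem_cE b v).2 ⟨r, g'⟩)).1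
    simp only [wn, NNRat.coe_zero, Rat.cast_zero, kx_zero] at this
    exact c.2.1 _ k2 ω p v r (Sum.inr.inj this)
  · have := rp_eq (wn σ ((X n).sd (e n) (m n) (s n) (Ψ n) (C n) (G₀ n)) (G n) (u n) (k₀ n)).P
      (O := (wn σ ((X n).sd (e n) (m n) (s n) (Ψ n) (C n) (G₀ n)) (G n) (u n) (k₀ n)).O true 0)
      (ω := ω) (v := v) (congrArg Sum.inl z)
    exact ⟨congrArg (U n) this, congrArg (U' n) this⟩

end Pool.Agent.MP_5168f5_an.QA.Cp.N2
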