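import Pool.Agent.MP_4b405e_nt.SK.N2D

/-! Sparse heights: the chain of caps at one depth, on one space. -/

namespace Pool.Agent.MP_5168f5_an.QA.Cp

open H19 H17S H17F AN AN.GA AN.N6 Matrix Finset H61Z

variable {ι κ α Ω Θ Λ : Type} [Fintype ι] [DecidableEq ι] [Fintype κ] [DecidableEq κ] [Fintype α]

/-- The data for the chain. -/
noncomputable def Ld.sp (σ : Cs ι κ α) (X : Ld ι κ α Ω Θ Λ) : Sp ι κ α Ω Λ :=
  ⟨X.P, ⟨σ.μ, flr σ.μ X.F, X.L, 0, 0⟩, σ.η, X.B, X.c, fun ω => hc σ.μ (X.c ω), X.A, X.j, X.T⟩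

/-- The chain record. -/
noncomputable def Ld.sd (X : Ld ι κ α Ω Θ Λ) {β : Type} (e : ℝ) (m s : ℕ)
    (Ψ : ℕ → Ω → Set (κ → ℝ)) (C : ℕ → Ω → β) (G : Ω → Prop) : Sd ι κ α Ω Θ (Θ ⊕ β) :=
  ⟨X.toBa, m, s, e, fun _ => X.d, X.l, fun b k ω => bif b then .inl (X.l ω) else .inr (C k ω), Ψ, G⟩

namespace N2

variable {σ : Cs ι κ α} {X : Ld ι κ α Ω Θ Λ} {γ : ℝ}

theorem hy (ok : σ.Ok) (h : X.Ok σ γ) (L1 : 1 ≤ X.L) :
    (X.sp σ).Hy σ.Φ X.l X.T X.d := by
  have w : ∀ b, σ.μ b = 0 ∨ 0 < σ.μ b := fun b => (ok.m0 b).eq_or_lt.imp Eq.symm id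
  have pp := rr_pos σ.μ X.d
  have r1 : ∀ b, rr σ.μ X.d b ≤ 1 := fun b => Real.exp_le_one_iff.2 (by
    have := ok.m0 b; have := h.d0; rw [neg_nonpos]; positivity)
  have L0 : 0 ≤ X.L := by linarith
  have z : ∀ ω ∈ X.P.S, ∀ v, X.j v = X.j ω * ex (X.B ω) 0 := fun ω k v => by
    rw [(sMul _ _ _ _ _ (h.alg ω k).fr).zero, h.j1, h.j1, mul_one]
  refine ⟨fun ω k => ⟨(h.alg ω k).fr, (h.alg ω k).unit, ⟨fun p q e n => ?_, fun p q e => ?_⟩,
    (h.alg ω k).hg⟩, h.tl, Fn.rfl _, fun ω k v k' e => ?_, h.fA,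
    fun ω k v _ _ => ⟨0, 0, z ω k v, fun i => ?_, fun b => ?_⟩, fun ω k v _ _ => ⟨0, z ω k v, fun b => ?_⟩⟩
  · by_contra c
    exact n (if_neg fun h => c h.2.2)
  · change |X.c ω p q e - hc σ.μ (X.c ω) p q e| * rr σ.μ X.d p * rr σ.μ X.d q *
      flr σ.μ X.F e ≤ X.L * rr σ.μ X.d e
    by_cases c : Hw σ.μ p q e
    · rw [hc, if_pos c, sub_self, abs_zero, zero_mul, zero_mul, zero_mul]
      exact mul_nonneg L0 (pp e).le
    · rw [hc, if_neg c, sub_zero]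
      refine flr_le (fun _ => ?_) (fun y => ?_) (w e) fun y => show X.L ≤ _ by simp [rr, y]
      · exact (mul_le_of_le_one_right (mul_nonneg (abs_nonneg _) (pp p).le) (r1 q)).trans
          ((mul_le_of_le_one_right (abs_nonneg _) (r1 p)).trans ((h.alg ω k).ob p q e))
      · have := mul_le_mul_of_nonneg_right (((h.alg ω k).gr p q e y c).trans L1) (pp e).le
        refine le_of_eq_of_le ?_ this
        simp only [rr, mul_assoc, mul_comm X.F, ← Real.exp_add]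
        rw [← mul_assoc, ← mul_assoc (Real.exp _), ← Real.exp_add, mul_assoc]
        congr 3
        ring
  · have := h.fB ω k v k' e
    simp only [Prod.mk.injEq] at this
    simp only [Ld.sp, this.1, this.2]
  · simpa using mul_nonneg (show 0 ≤ (X.sp σ).d.L from L0) (rr_pos _ _ _).le
  · simpa using mul_nonneg (show 0 ≤ (X.sp σ).d.L from L0) (rr_pos _ _ _).le
  · simpa using mul_nonneg (show 0 ≤ (X.sp σ).d.L from L0) (rr_pos _ _ _).le

omit [Fintype α] in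
theorem ba_rate {X : Ba ι κ α Ω} {Ψ : ℕ → Ω → Set (κ → ℝ)} {m k k' : ℕ} {r e : ℝ} (hL : 0 ≤ X.L)
    (r0 : 0 ≤ r) (he : 6 * Fintype.card κ ≤ Real.exp e) (e0 : 0 ≤ e)
    (g : ∀ k ≤ m, ∀ ω ∈ X.P.S, (X.da σ ω).Good (Ψ k ω))
    (s : ∀ k < m, ∀ ω ∈ X.P.S,
      (X.da σ ω).sub (Ψ k ω) (Real.exp (-r) / (3 * Fintype.card κ)) ⊆ Ψ (k + 1) ω)
    (h : k ≤ k') (h' : k' ≤ m) : X.Rate σ (Ψ k) (Ψ k') (((k' : ℝ) - k) * r) e :=
  Cp.ba_rate (X := ⟨Ω, Unit, Unit, Unit, Unit, X.P, 0, fun _ => (), fun _ _ => (), fun _ => (),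
    fun _ => (), X.j, X.B, X.c, X.A, fun _ => 0⟩) hL r0 he e0 g s h h'

/-- The relations between the numbers. -/
structure Nm (κ : Type) [Fintype κ] (γ : ℝ) (M m s : ℕ) (v : ℝ) : Prop where
  m3 : 3 ≤ m
  vm : 1 / (m + 1 : ℝ) ^ 4 * M = v
  mv : (m + 1 : ℝ) ≤ v
  lv : Real.log (M + 1) ≤ v
  cv : 27 * Fintype.card κ ^ 4 + γ +
    Real.log ((Fintype.card κ).factorial * Fintype.card κ ^ Fintype.card κ) ≤ v
  gv : 2 * v ≤ γ * M
  s1 : (m * s : ℝ) ≤ M
  s2 : (M : ℝ) ≤ m * (s + 1)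

theorem sd_ok (σ : Cs ι κ α) (ok : σ.Ok) : ∃ f, PG f ∧ ∀ (Ω Θ Λ : Type) (X : Ld ι κ α Ω Θ Λ)
    (γ : ℝ) (m s : ℕ) (v mm K ϑ La : ℝ), 0 < γ → Nm κ γ X.M m s v → X.Ok σ γ → 1 ≤ X.L →
    X.L ≤ Real.exp v → f X.L ≤ Real.exp v → 0 ≤ ϑ → 1 ≤ La → mm / K ≤ γ / 4 →
    ∃ y : (ℕ → Ω → Set (κ → ℝ)) × (ℕ → Ω → Ce ι κ Λ) × (Ω → Prop),
      (X.sd ((m + 1) ^ 2 * v) m s y.1 y.2.1 y.2.2).Ok0 σ mm K ϑ La (γ / 4) (2 * γ) ∧
      (∀ ω, y.2.2 ω → X.G ω) ∧
      pb X.P (fun ω => ¬y.2.2 ω) ≤ 1 / (m + 1) + pb X.P (fun ω => ¬X.G ω) ∧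
      ch X.P (y.2.1 m) X.T ≤ (Fintype.card κ * γ / La + Fintype.card κ ^ 2 * ϑ) * X.M +
        4 * ((m + 1) ^ 2 * v) ∧
      ∀ k ≤ m, Fn X.P X.T (y.2.1 k) := by
  obtain ⟨f, pf, hf⟩ := chain α κ σ.Φ
  refine ⟨f, pf, fun Ω Θ Λ X γ m s v mm K ϑ La g0 nm gr L1 Lv hLs th hΛ hK => ?_⟩
  have : Nonempty κ := ⟨σ.τ⟩
  obtain ⟨m3, vm, mv, lv, cv, gv, s1, s2⟩ := nm
  have d1 : (1 : ℝ) ≤ Fintype.card κ := by exact_mod_cast Fintype.card_pos
  have M0 : (0 : ℝ) ≤ X.M := Nat.cast_nonneg _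
  have m3' : (3 : ℝ) ≤ m := by exact_mod_cast m3
  have lc : 0 ≤ Real.log ((Fintype.card κ).factorial * Fintype.card κ ^ Fintype.card κ) :=
    Real.log_nonneg (one_le_mul_of_one_le_of_one_le
      (by exact_mod_cast (Fintype.card κ).factorial_pos) (one_le_pow₀ d1))
  have d2 : (Fintype.card κ : ℝ) ≤ Fintype.card κ ^ 2 := le_self_pow₀ d1 two_ne_zero
  have d4 : (Fintype.card κ : ℝ) ^ 2 ≤ Fintype.card κ ^ 4 := pow_le_pow_right₀ d1 (by norm_num)
  have ev := Real.add_one_le_exp v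
  have v0 : 0 < v := by linarith
  have ve : 16 * v ≤ (m + 1) ^ 2 * v := mul_le_mul_of_nonneg_right (by nlinarith) v0.le
  have ve' : 4 * ((m + 1) * v) ≤ (m + 1) ^ 2 * v := by nlinarith
  have vM : 4 * v ≤ X.M := by
    rw [← vm, one_div, ← mul_assoc]
    refine mul_le_of_le_one_left M0 ((mul_inv_le_iff₀ (by positivity)).2 ?_)
    nlinarith [pow_le_pow_left₀ (show (0 : ℝ) ≤ 4 by norm_num) (show (4 : ℝ) ≤ m + 1 by linarith) 4]
  have aM : 0 ≤ γ * X.M := by positivity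
  have F1 : 1 ≤ X.F := gr.fl ▸ Real.one_le_exp aM
  have h0 := hy ok gr L1
  have ts : 0 ≤ ϑ * s := by positivity
  let I : ℕ := ⌈γ * X.M⌉₊ + Fintype.card κ
  have fF : ∀ b, flr σ.μ X.F b ≤ Real.exp (γ * X.M) :=
    fun b => by unfold flr; split_ifs <;> simp [← gr.fl, F1]
  obtain ⟨Ψ, C, p0, c0, st, lk⟩ := hf _ _ _ _ (X.sp σ) (fun _ => X.l) (fun _ => X.T) (fun _ => X.d) m
    (Real.exp (-(ϑ * s)) / (3 * Fintype.card κ)) La (Real.exp (-I - 6 * v))
    (fun _ _ => h0) (fun _ _ => Fn.rfl _) h0.zo h0.zs gr.g0 L1 (by positivity)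
    ((div_le_one (by positivity)).2 ((Real.exp_le_one_iff.2 (by linarith)).trans (by linarith)))
    (by linarith) (Real.exp_pos _)
  have ind : ∀ p : ℕ → Prop, p 0 → (∀ k < m, p (k + 1)) → ∀ k ≤ m, p k := fun p a b k c => by
    cases k with
    | zero => exact a
    | succ k => exact b k c
  have fz : ∀ k ≤ m, Fn X.P (fun ω => (X.T ω, Ψ k ω)) (C k) :=
    ind _ (fun a _ b _ e => by
      rw [c0] at e
      simp only [List.cons.injEq, Prod.mk.injEq] at e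
      simp only [p0, e.1.1]) fun k a => (st k a).fz
  have fo : ∀ k ≤ m, Fn X.P (C k) X.l := ind _ (fun a ha b hb e => by
    simp only [c0, gr.tl a ha b hb e]) fun k a => (st k a).fo
  have gd : ∀ k ≤ m, ∀ ω ∈ X.P.S, (X.da σ ω).Good (Ψ k ω) :=
    ind _ (fun ω k => p0 ▸ gr.g0 ω k) fun k a ω b => ((st k a).nx.2 ω b).1
  have Le' : X.L ≤ Real.exp ((m + 1) ^ 2 * v) := Lv.trans (Real.exp_le_exp.2 (by linarith))
  have f1 := pf.1 _ L1
  have lf := (Real.log_le_iff_le_exp (by linarith)).2 hLs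
  have U1 : ((m * s : ℕ) : ℝ) ≤ X.M := by push_cast; exact s1
  refine ⟨(Ψ, C, fun ω => (∀ k < m, ∀ R, 0 < R → (X.sp σ).Rb (Ψ (k + 1)) (C (k + 1)) R
    (Real.exp ((m + 1) ^ 2 * v - 1 + 1 - Real.log R / La)) ω) ∧ X.G ω),
    ⟨L1, Le', gr.fl.trans_le (Real.exp_le_exp.2 ?_), fun _ => gr.d0, gr.j1, fun b k a => ?_,
      fun k a p u q w e => congrArg Sum.inr (fo k a p u q w (Sum.inl.inj e)),
      fun k a p u q w e => Sum.inl.inj e, fun k a p u q w e => congrArg Sum.inl e,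
      fun p u q w e => ?_,
      fun p u q w e => gr.fB p u q w (congrArg (·.1) (fz 0 m.zero_le p u q w (Sum.inr.inj e))),
      fun k a p u q w e => congrArg Prod.snd (fz k a p u q w (Sum.inr.inj e)),
      fun _ _ => gr.alg, gd, fun k a ω b y c => ((st k a).nx.2 ω b).2 (Or.inl c),
      fun k k' a b => ?_, fun ω b => ?_, fun k a b ω _ g h φ r y p q w => ?_⟩,
    fun ω g => g.2, ?_, ?_, fun k a => (Fn.fst _ _).trans (fz k a)⟩
  · change _ ≤ 2 * γ * (m * s : ℕ)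
    push_cast
    nlinarith [mul_le_mul_of_nonneg_left (show X.M ≤ 2 * (m * s : ℝ) by nlinarith) g0.le]
  · cases b
    · exact fun p u q w e => congrArg Sum.inr ((st k a).nest p u q w (Sum.inr.inj e))
    · exact fun p u q w e => e
  · have e' : X.l p = X.l q := e
    refine congrArg₂ And (propext (forall₂_congr fun k a => ?_)) (gr.fG p u q w e')
    have : Ψ (k + 1) p = Ψ (k + 1) q :=
      congrArg Prod.snd ((fz (k + 1) a).trans (fo (k + 1) a) p u q w e')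
    simp only [Sp.Rb, fo (k + 1) a p u q w e', this]
  · change X.Rate σ (Ψ k) (Ψ k') (ϑ * ((k' - k) * s)) ((m + 1) ^ 2 * v)
    rw [mul_left_comm]
    exact ba_rate (by linarith) ts (by linarith [Real.add_one_le_exp ((m + 1) ^ 2 * v)])
      (by linarith) gd (fun k a ω b => ((st k a).nx.2 ω b).2) a b
  · change vl σ.μ (Ψ 0 ω) * Real.exp ((mm / K + γ / 4) * (m * s : ℕ)) ≤ X.F
    have g : Fu (S0 κ) 1 1 := ⟨one_pos, fun a => ⟨a, by simp⟩, by
      rintro _ ⟨a, rfl⟩ b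
      simp only [Pi.single_apply]
      split_ifs <;> simp⟩
    have : vl σ.μ (S0 κ) ≤ Real.exp v := by
      refine g.up.trans (le_trans ?_ ((Real.log_le_iff_le_exp (by positivity)).1
        (show Real.log ((Fintype.card κ).factorial * Fintype.card κ ^ Fintype.card κ) ≤ v by
          nlinarith)))
      gcongr
    rw [p0, gr.fl]
    refine (mul_le_mul_of_nonneg_right this (Real.exp_pos _).le).trans ?_
    rw [← Real.exp_add]
    refine Real.exp_le_exp.2 ?_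
    nlinarith [mul_le_mul_of_nonneg_left U1 g0.le,
      mul_le_mul_of_nonneg_right hK (Nat.cast_nonneg (α := ℝ) (m * s))]
  · obtain ⟨k, rfl⟩ := Nat.exists_eq_add_of_le' b
    have := g.1 k a _ (Real.exp_pos h) φ r y p q w
    rw [Real.log_exp, sub_add_cancel] at this
    refine le_of_eq_of_le (congrArg (pb · _) ?_) this
    simp only [H17F.cv, Ld.sd, Ld.sp, cond_false, Sum.inr.injEq]
  · have h1 := rob_all (I := I) (e := (m + 1) ^ 2 * v - 1) (O := fun _ => X.l)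
      (Z := fun _ => X.T) (s := fun _ => X.d) (fun _ _ => h0) st hΛ (Real.exp_pos _) (by
        refine (sum_le_card_nsmul univ _ _ fun b _ => fF b).trans_lt ?_
        simp only [card_univ, nsmul_eq_mul, I, Nat.cast_add, Real.exp_add]
        rw [mul_comm]
        exact mul_lt_mul' (Real.exp_le_exp.2 (Nat.le_ceil _))
          (by linarith [Real.add_one_le_exp (Fintype.card κ : ℝ)]) (by linarith) (Real.exp_pos _))
      (by linarith)
    have h3 : (I : ℝ) ≤ Real.exp v * Real.exp v := by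
      have := Nat.ceil_lt_add_one aM
      rw [Real.log_le_iff_le_exp (by linarith)] at lv
      refine le_trans ?_ (mul_le_mul (show γ + Fintype.card κ + 1 ≤ _ by linarith) lv
        (by linarith) (Real.exp_pos _).le)
      simp only [I, Nat.cast_add]
      nlinarith
    have h4 : Real.log (2 * Fintype.card κ) ≤ v :=
      (Real.log_le_iff_le_exp (by linarith)).2 (by linarith)
    have h5 := Real.exp_le_exp.2 (show 2 + Real.log (f X.L) +
      Real.log (2 * Fintype.card κ) - ((m + 1) ^ 2 * v - 1) ≤ -(6 * v) by nlinarith)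
    rw [← Real.exp_add, show -(I : ℝ) - 6 * v + I = -(6 * v) by ring] at h1
    have h6 : (m : ℝ) * (I * (Real.exp (-(6 * v)) + Real.exp (-(6 * v)))) ≤ 1 / (m + 1) := by
      have e6 : Real.exp v ^ 6 * Real.exp (-(6 * v)) = 1 := by
        rw [← Real.exp_nat_mul, ← Real.exp_add]; simp
      have p := Real.exp_pos (-(6 * v))
      rw [le_div_iff₀ (by linarith)]
      refine le_of_le_of_eq ?_ e6
      calc _ = (m * (m + 1) * 2 * I) * Real.exp (-(6 * v)) := by ring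
        _ ≤ (Real.exp v * Real.exp v * (Real.exp v * Real.exp v) * (Real.exp v * Real.exp v)) *
            Real.exp (-(6 * v)) := by
          gcongr
          · linarith
          · linarith
          · nlinarith
        _ = _ := by ring
    exact (H39F.pb_union X.P fun ω _ k => not_and_or.1 k).trans (add_le_add (h1.trans
      (le_trans (mul_le_mul_of_nonneg_left (mul_le_mul_of_nonneg_left (add_le_add h5 le_rfl)
        (Nat.cast_nonneg _)) (Nat.cast_nonneg _)) h6)) le_rfl)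
  · have h1 := lk m le_rfl
    have h2 : (X.sp σ).W (Ψ m) ≤ _ :=
      (X.P.E_mono fun ω k => (vl_bd (gd m le_rfl ω k) fF).2).trans_eq (X.P.E_const _)
    have h3 := mul_le_mul_of_nonneg_left (log_N1 d1 ts) (sq_nonneg (Fintype.card κ : ℝ))
    have h4 : Real.exp (-I - 6 * v) ≤ 1 := Real.exp_le_one_iff.2 (by
      linarith [Nat.cast_nonneg (α := ℝ) I])
    rw [N1, Real.log_pow, Nat.cast_mul, ← pow_two] at h1
    rw [Real.log_exp] at h2
    refine le_of_mul_le_mul_left (h1.trans ?_) (show 0 < La by linarith)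
    have e : La * ((Fintype.card κ * γ / La + Fintype.card κ ^ 2 * ϑ) * X.M +
        4 * ((m + 1) ^ 2 * v)) = Fintype.card κ * γ * X.M +
        La * (Fintype.card κ ^ 2 * ϑ * X.M + 4 * ((m + 1) ^ 2 * v)) := by field_simp; ring
    have h5 : m * (Fintype.card κ ^ 2 * Real.log (8 * Fintype.card κ / (Real.exp (-(ϑ * s)) /
        (3 * Fintype.card κ)) + 2) + Real.log (f X.L)) ≤
        Fintype.card κ ^ 2 * ϑ * X.M + 2 * ((m + 1) ^ 2 * v) := by
      refine (mul_le_mul_of_nonneg_left (add_le_add (h3.trans (show _ ≤ v + Fintype.card κ ^ 2 *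
        (ϑ * s) by nlinarith)) lf) (Nat.cast_nonneg _)).trans ?_
      push_cast at U1
      nlinarith [mul_le_mul_of_nonneg_left U1 (show 0 ≤ Fintype.card κ ^ 2 * ϑ by positivity)]
    have h6 := mul_le_mul_of_nonneg_left h5 (show 0 ≤ La by linarith)
    have h7 := mul_le_mul_of_nonneg_right hΛ (show 0 ≤ (m + 1) ^ 2 * v by positivity)
    rw [e]
    change _ + m * (La * (_ + Real.log (f X.L)) + _) ≤ _
    nlinarith [mul_le_mul_of_nonneg_left h4 (show (0 : ℝ) ≤ m by linarith)]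

end N2

end Pool.Agent.MP_5168f5_an.QA.Cp
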