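import Pool.Agent.MP_5168f5_an.QA.CpChain
import Pool.Agent.MP_5168f5_an.QA.CpWin

/-! Sparse heights: the chain of caps at one depth. Records. -/

namespace Pool.Agent.MP_5168f5_an.QA.Cp

open H19 H17S H17F R4 AN Filter Matrix
open GA (Mt IsFr lg Wd br mB mC)
open LC (Au)
open S20 (dn)

variable {ι κ α : Type} [Fintype ι] [DecidableEq ι] [Fintype κ] [DecidableEq κ] [Fintype α]

/-- The data at one depth `d`: unit `M`, coarse label `T`, fine label `l`, good event `G`. -/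
structure Ld (ι κ α Ω Θ Λ : Type) : Type extends Ba ι κ α Ω where
  M : ℕ
  d : ℝ
  T : Ω → Λ
  l : Ω → Θ
  G : Ω → Prop

/-- The facts on one space. -/
structure Ld.Ok {Ω Θ Λ : Type} (σ : Cs ι κ α) (γ : ℝ) (X : Ld ι κ α Ω Θ Λ) : Prop where
  fl : X.F = Real.exp (γ * X.M)
  j1 : ∀ ω, X.j ω = 1
  d0 : 0 ≤ X.d
  tl : Fn X.P X.T X.l
  fB : Fn X.P (fun ω => (X.B ω, X.c ω)) X.T
  fA : Fn X.P X.A X.l
  fG : Fn X.P X.G X.l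
  alg : ∀ ω ∈ X.P.S, X.Alg σ X.d ω
  g0 : ∀ ω ∈ X.P.S, (X.da σ ω).Good (S0 κ)

/-- The chain at one depth: the facts on one space. -/
structure Sd.Ok0 {Ω Θ Λ : Type} (σ : Cs ι κ α) (mm K ϑ La γ C : ℝ) (X : Sd ι κ α Ω Θ Λ) :
    Prop where
  l1 : 1 ≤ X.L
  le : X.L ≤ Real.exp X.e
  fl : X.F ≤ Real.exp (C * (X.m * X.s : ℕ))
  d0 : ∀ k, 0 ≤ X.dp k
  j1 : ∀ ω, X.j ω = 1
  nest : ∀ b, ∀ k < X.m, Fn X.P (X.O b k) (X.O b (k + 1))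
  com : ∀ k ≤ X.m, Fn X.P (X.O false k) (X.O true k)
  fl1 : ∀ k ≤ X.m, Fn X.P X.l (X.O true k)
  fO : ∀ k ≤ X.m, Fn X.P (X.O true k) X.l
  fG : Fn X.P X.G X.l
  fB : Fn X.P (fun ω => (X.B ω, X.c ω)) (X.O false 0)
  fΨ : ∀ k ≤ X.m, Fn X.P (X.Ψ k) (X.O false k)
  alg : ∀ k ≤ X.m, ∀ ω ∈ X.P.S, X.Alg σ (X.dp k) ω
  good : ∀ k ≤ X.m, ∀ ω ∈ X.P.S, (X.da σ ω).Good (X.Ψ k ω)
  mono : ∀ k < X.m, ∀ ω ∈ X.P.S, X.Ψ k ω ⊆ X.Ψ (k + 1) ω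
  rate : ∀ k k', k ≤ k' → k' ≤ X.m →
    X.Rate σ (X.Ψ k) (X.Ψ k') (ϑ * (((k' : ℝ) - k) * X.s)) X.e
  off : ∀ ω ∈ X.P.S, vl σ.μ (X.Ψ 0 ω) * Real.exp ((mm / K + γ) * (X.m * X.s : ℕ)) ≤ X.F
  rob : ∀ k ≤ X.m, 1 ≤ k → ∀ ω ∈ X.P.S, X.G ω → X.Rob σ (X.O false k) (X.Ψ k) La X.e ω

namespace N2

/-- The input: a cheap label does not carry a deep cap. -/
structure LC {Ω Θ Λ : ℕ → Type} (σ : Cs ι κ α) (γ : ℝ)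
    (X : ∀ n, Ld ι κ α (Ω n) (Θ n) (Λ n)) : Prop where
  ok : σ.Ok
  g0 : 0 < γ
  big : Big fun n => (X n).M
  sub : Sub (fun n => (X n).M) fun n => (X n).L
  ev : ∀ᶠ n in UF, (X n).Ok σ γ
  cur : ∀ w : Wd α, 2 ≤ w.len → ∀ᶠ n in UF, (X n).Cur σ w
  whp : Whp (fun n => (X n).P) fun n => (X n).G
  acw : ∀ r : ℝ, 0 < r → ∃ δ : ℝ, 0 < δ ∧ ∀ (β : ℕ → Type) (K : ∀ n, Ω n → β n)
    (Ps : ∀ n, Ω n → Set (κ → ℝ)), FnE (fun n => (X n).P) K (fun n => (X n).l) →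
    FnE (fun n => (X n).P) (fun n => (X n).T) K → FnE (fun n => (X n).P) Ps K →
    (∀ᶠ n in UF, ∀ ω ∈ (X n).P.S, ((X n).da σ ω).Good (Ps n ω)) →
    Whp (fun n => (X n).P) fun n ω => Real.log (vl σ.μ (Ps n ω)) ≤ r * (X n).M ∨
      δ * (X n).M ≤ -Real.log (dn (X n).P (K n) (X n).T ω)

/-- The chain of caps. The unit is `m * s`. -/
structure CH {Ω Θ Λ : ℕ → Type} (σ : Cs ι κ α) (mm K ϑ La a γ C : ℝ)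
    (X : ∀ n, Sd ι κ α (Ω n) (Θ n) (Λ n)) : Prop where
  ok : σ.Ok
  t0 : 0 < ϑ
  a0 : 0 < La
  am : 0 ≤ a ∧ a < mm
  g0 : 0 < γ
  big : Big fun n => (X n).m
  sm : Sm (fun n => (X n).s) fun n => Real.log ((X n).m + 1)
  se : Sm (fun n => (X n).m * (X n).s) fun n => (X n).e
  ev : ∀ᶠ n in UF, (X n).Ok0 σ mm K ϑ La γ C
  cur : ∀ w : Wd α, 2 ≤ w.len → ∀ᶠ n in UF, (X n).Cur σ w
  whp : Whp (fun n => (X n).P) fun n => (X n).G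
  en : Le (fun n => (X n).m * (X n).s)
    (fun n => mi (X n).P (X n).l ((X n).O false (X n).m) ((X n).O false 0) + (X n).P.E fun ω =>
      K * Real.log (vl σ.μ ((X n).Ψ (X n).m ω)) - K * Real.log (vl σ.μ ((X n).Ψ 0 ω)))
    fun n => a * ((X n).m * (X n).s : ℕ)

section W

variable {Ω Λ : ℕ → Type} (σ : Cs ι κ α) (X : ∀ n, Wn ι κ α (Ω n) (Λ n))

/-- The window at one depth. All samples lie in one cell of level zero; the pieces do not depend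
on the level. -/
structure WW (ϑ La D s₀ : ℝ) : Prop where
  ok : σ.Ok
  t0 : 0 < ϑ
  a0 : 0 < La
  gap : ∀ p q p' q' : Option κ,
    |p.elim 0 σ.μ - q.elim 0 σ.μ - (p'.elim 0 σ.μ - q'.elim 0 σ.μ)| ≤ 2 * s₀ →
    p.elim 0 σ.μ - q.elim 0 σ.μ = p'.elim 0 σ.μ - q'.elim 0 σ.μ
  big : Big (wM X)
  j1 : ∀ᶠ n in UF, ∀ ω, (X n).j ω = 1
  sub : ∀ c : ℝ, 0 < c → ∀ᶠ n in UF, 1 ≤ (X n).L ∧ (X n).L ≤ Real.exp (c * (X n).M)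
  bot : ∀ᶠ n in UF, ∀ ω ∈ (X n).P.S, ∀ v ∈ (X n).P.S, (X n).O false 0 ω = (X n).O false 0 v ∧
    (X n).B ω = (X n).B v ∧ (X n).c ω = (X n).c v
  neg : ∀ x : ℚ, x ≤ 0 → FnE (wP X) (fun n => (X n).Ψ x) fun _ _ => ()
  nest : ∀ k a a', a ≤ a' → FnE (wP X) (fun n => (X n).O k a) fun n => (X n).O k a'
  com : ∀ a, FnE (wP X) (fun n => (X n).O false a) fun n => (X n).O true a
  one : ∀ a, FnE (wP X) (fun n => (X n).O true a) fun n => (X n).O true 0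
  fΨ : ∀ a : ℚ≥0, FnE (wP X) (fun n => (X n).Ψ a) fun n => (X n).O false a
  alg : ∀ᶠ n in UF, ∀ ω ∈ (X n).P.S, (X n).Alg σ 0 ω
  cur : ∀ w : Wd α, 2 ≤ w.len → ∀ᶠ n in UF, (X n).Cur σ w
  good : ∀ x, ∀ᶠ n in UF, ∀ ω ∈ (X n).P.S, ((X n).da σ ω).Good ((X n).Ψ x ω)
  mono : ∀ x x', x ≤ x' → ∀ᶠ n in UF, ∀ ω ∈ (X n).P.S, (X n).Ψ x ω ⊆ (X n).Ψ x' ω
  off : ∀ (x : ℚ) (T : ℝ), ∀ᶠ n in UF, ∀ ω ∈ (X n).P.S,
    vl σ.μ ((X n).Ψ x ω) * Real.exp (T * (X n).M) ≤ (X n).F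
  rate : ∀ x x' : ℚ, x ≤ x' → Au (wM X) fun n u _ =>
    (X n).Rate σ ((X n).Ψ x) ((X n).Ψ x') (ϑ * (((x' : ℝ) - x) * (X n).M)) u
  rob : ∀ a : ℚ≥0, Au (wM X) fun n u _ => ∀ ω ∈ (X n).P.S,
    (X n).Rob σ ((X n).O false a) ((X n).Ψ a) La u ω
  df : ∀ a a' : ℚ≥0, a ≤ a' → Au (wM X) fun n u _ => ∀ ω ∈ (X n).P.S,
    dn (X n).P ((X n).O false a') ((X n).O true a) ω ≤
      Real.exp (u + D * (a' * (X n).M - a * (X n).M)) *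
        dn (X n).P ((X n).O false a') ((X n).O false a) ω
  vol : ∃ y, Lin X (fun S => Real.log (vl σ.μ S)) s₀ y

end W

/-- A statement about a window with frames. -/
def OnW (p : ∀ (ι κ : Type) [Fintype ι] [DecidableEq ι] [Fintype κ] [DecidableEq κ]
    (Ω Λ : ℕ → Type), P7.Kc ι κ → (∀ n, P7.Cd ι κ (Ω n) (Λ n)) → Prop) : Prop :=
  ∀ (ι κ α : Type) [Fintype ι] [DecidableEq ι] [Fintype κ] [DecidableEq κ] [Fintype α]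
    (Ω Λ : ℕ → Type) (σ : Cs ι κ α) (X : ∀ n, Wn ι κ α (Ω n) (Λ n)) (ϑ La D s₀ : ℝ) (vt : κ → ℝ)
    (F F' : ℕ → Matrix κ κ ℝ) (u u' : ∀ n, Ω n → Matrix κ κ ℝ), WW σ X ϑ La D s₀ →
    FR σ X s₀ vt F F' u u' →
    p ι κ Ω Λ (kc σ La D vt) fun n => cd (X n) (F n) (F' n) (u n) (u' n)

def SFr : Prop := ∀ (ι κ α : Type) [Fintype ι] [DecidableEq ι] [Fintype κ] [DecidableEq κ]
  [Fintype α] (σ : Cs ι κ α), ∃ (J : Type) (_ : Fintype J) (ob : J → Set (κ → ℝ) → ℝ),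
  Adm σ.μ ob ∧ ∀ (Ω Λ : ℕ → Type) (X : ∀ n, Wn ι κ α (Ω n) (Λ n)) (ϑ La D s₀ : ℝ),
    WW σ X ϑ La D s₀ → Lins X ob →
    ∃ vt F F' u u', FR σ X s₀ vt F F' u u'

def RTz : Prop := OnW fun _ _ _ _ _ _ _ _ σ _ => ∀ a, σ.Pz a → σ.la a = σ.mu a → a = σ.τ
def RFr : Prop := OnW fun _ _ _ _ _ _ _ _ σ X => ∀ᶠ n in UF, (X n).Fr σ
def RAlg : Prop := OnW fun _ _ _ _ _ _ _ _ σ X =>
  Au (fun n => (X n).M) fun n u w => ∀ ω ∈ (X n).P.S, (X n).Alg σ u w ω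
def RInc : Prop := OnW fun _ _ _ _ _ _ _ _ σ X =>
  ∀ a, (Au (fun n => (X n).M) fun n u _ => (X n).Inc σ a u) ∧
    Au (fun n => (X n).M) fun n _ w => (X n).Inc1 σ a w
def RRob : Prop := OnW fun _ _ _ _ _ _ _ _ σ X => ∀ a, Au (fun n => (X n).M) fun n => (X n).Rob σ a

/-- The output: a window `Z` on the law conditioned on `G`, with frames. -/
structure Out {Ω Θ Λ Λ' : ℕ → Type} (σ : Cs ι κ α) (X : ∀ n, Ld ι κ α (Ω n) (Θ n) (Λ n))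
    (q : ℕ → ℕ) (mm ϑ La D s₀ : ℝ) (vt : κ → ℝ) (Z : ∀ n, Wn ι κ α (Ω n) (Λ' n))
    (G : ∀ n, Ω n → Prop) (F F' : ℕ → Matrix κ κ ℝ) (u u' : ∀ n, Ω n → Matrix κ κ ℝ) : Prop where
  ww : WW σ Z ϑ La D s₀
  fr : FR σ Z s₀ vt F F' u u'
  dm : 0 ≤ D ∧ D ≤ mm ∧ s₀ ≤ mm
  ba : ∀ n, (Z n).toBa = (X n).toBa.nw σ (G n) (X n).d
  sm : ∀ R : ℝ, ∀ᶠ n in UF, R * (Z n).M ≤ (X n).M
  lo : ∀ᶠ n in UF, (X n).M ≤ q n * (Z n).M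
  ne : ∀ᶠ n in UF, ∃ ω ∈ (X n).P.S, G n ω
  sub : ∀ᶠ n in UF, ∀ ω, G n ω → (X n).G ω
  fG : FnE (fun n => (X n).P) G fun n => (X n).l
  tG : ∀ᶠ n in UF, ∀ ω ∈ (X n).P.S, ∀ v ∈ (X n).P.S, G n ω → G n v → (X n).T ω = (X n).T v
  lO : ∀ n a ω v, (Z n).O true a ω = (Z n).O true a v ↔ (X n).l ω = (X n).l v
  fu : ∀ n ω v, (X n).l ω = (X n).l v → u n ω = u n v ∧ u' n ω = u' n v

end N2

end Pool.Agent.MP_5168f5_an.QA.Cp
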