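import Pool.Agent.MP_4b405e_nt.SK.N2D
import Pool.Agent.MP_5168f5_an.QA.CpFr
import Pool.Agent.MP_5168f5_an.QA.CpRAlg
import Pool.Agent.MP_5168f5_an.QA.CpRRob
import Pool.Agent.MP_5168f5_an.QA.CpRFr
import Pool.Agent.MP_5168f5_an.QA.CpInc

/-! Sparse heights: the frames of the window at one depth. -/

namespace Pool.Agent.MP_5168f5_an.QA.Cp.N2

open H19 H17S H17F R4 AN Filter Matrix
open GA (Mt IsFr lg mB mC br)
open LC (Au ex_le)

section One

variable {ι κ α : Type} [Fintype ι] [DecidableEq ι] [Fintype κ] [DecidableEq κ] [Fintype α]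

omit [Fintype α] [DecidableEq κ] in
theorem t_zero {Ω : Type} {σ : Cs ι κ α} {X : Ba ι κ α Ω} (h : ∀ ω, X.j ω = 1) {ω : Ω}
    (f : IsFr σ.Φ (X.B ω) (X.c ω)) (v : Ω) :
    X.t ω v = 0 ∧ X.j v = X.j ω * GA.ex (X.B ω) (X.t ω v) := by
  have m := GA.sMul _ _ _ _ _ f
  have e : X.t ω v = 0 := by
    have := m.lg 1 0 isUnit_one
    rw [m.zero, mul_one] at this
    rw [Ba.t, h, h, this]
  rw [e, m.zero, h, h, mul_one]
  exact ⟨rfl, rfl⟩

variable {Ω Λ : ℕ → Type} {σ : Cs ι κ α} {X : ∀ n, Wn ι κ α (Ω n) (Λ n)} {ϑ La D s₀ : ℝ}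

theorem WW.incC (w : WW σ X ϑ La D s₀) (a : ℚ≥0) : Au (wM X) fun n u _ =>
    (X n).IncC σ ((X n).O false a) ((X n).Ψ a) (a * (X n).M) u := fun _ _ _ => by
  filter_upwards [w.j1, w.alg] with n j al ω v e
  obtain ⟨e1, e2⟩ := t_zero j (al ω e.1).fr v
  exact ⟨e2, fun φ _ r _ => by rw [e1, dotProduct_zero, abs_zero]; exact (Real.exp_pos _).le⟩

theorem WW.incO (w : WW σ X ϑ La D s₀) (a : ℚ≥0) :
    Au (wM X) fun n u _ => (X n).IncO σ ((X n).O true a) (a * (X n).M) u := fun _ _ _ => by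
  filter_upwards [w.j1, w.alg] with n j al ω v e
  refine ⟨0, fun i => by simpa using (Real.exp_pos _).le, fun b => ?_⟩
  rw [(t_zero j (al ω e.1).fr v).1]
  simpa using (Real.exp_pos _).le

end One

section Fr

open T2
open C1 (rho vol vol_mono rho_le le_rho' vol_nonneg)

theorem sFr_of (hF : SFrC) : N2.SFr := by
  intro ι κ α _ _ _ _ _ σ
  obtain ⟨C, hC⟩ := sOb κ
  refine ⟨Option κ × Fin (Fintype.card κ + 1), inferInstance,
    fun j => ob σ.μ (bk σ.μ (fun a => ¬σ.pos a) j.1) j.2, ⟨C, fun j S D d f g => ⟨?_,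
      fun S' f' g' e => (hC _ _ _ S S' D D (Nat.le_of_lt_succ j.2.2) f f' g' e).1⟩⟩,
    fun Ω Λ X ϑ La D s₀ w ⟨T, t1, t2⟩ => ?_⟩
  · have := (hC σ.μ (bk σ.μ (fun a => ¬σ.pos a) j.1) _ S S D D (Nat.le_of_lt_succ j.2.2) f f g
      subset_rfl).2
    rwa [abs_of_nonneg (Real.log_nonneg d)] at this
  obtain ⟨vt, F, F', u, u', o⟩ := hF κ σ.μ (fun a => ¬σ.pos a) σ.τ s₀ Ω (wP X) (wM X) T
    (fun x n => (X n).Ψ x) ⟨w.big, t1, not_not.2 w.ok.tau,
    fun x => (w.good x).mono fun n a ω hω => ⟨⟨_, (a ω hω).fu⟩, fun φ p => ⟨(a ω hω).hg φ p,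
      fun b z => (((a ω hω).ok φ p).f b).trans_eq (by simp [Ba.da, flr, z])⟩⟩,
    w.mono, fun x e => (w.neg x e).mono fun n a ω hω v hv => a ω hω v hv rfl,
    fun x x' ε _ hε => by
      obtain ⟨y, l⟩ := w.vol
      filter_upwards [l x _ (half_pos hε), l x' _ (half_pos hε), w.good x, w.good x'] with
        n a b c d ω hω
      rw [← Real.exp_log ((c ω hω).fu.vl_pos (wt := σ.μ)),
        ← Real.exp_log ((d ω hω).fu.vl_pos (wt := σ.μ)), ← Real.exp_add, Real.exp_le_exp]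
      linarith [(abs_le.1 (a ω hω)).1, (abs_le.1 (b ω hω)).2],
    fun i k hk => by
      obtain ⟨r, y, l⟩ := t2 (i, ⟨k, Nat.lt_succ_of_le hk⟩)
      exact ⟨y, r, l⟩,
    Fr.su_eps fun ε hε => by
      filter_upwards [w.sub _ (half_pos hε), w.alg, w.good 1] with n a b c ω hω
      obtain ⟨i, p⟩ := (b ω hω).long
      have L0 : 0 < (X n).L := by linarith [a.1]
      refine ⟨(X n).L⁻¹ • (X n).A ω i, fun φ q => ?_, ?_⟩
      · rw [dotProduct_smul, smul_eq_mul, abs_mul, abs_inv, abs_of_pos L0, inv_mul_le_iff₀ L0,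
          mul_comm]
        exact ((c ω hω).ok φ q).a i
      · have e : Real.exp ((0 + ε) * (X n).M) =
            Real.exp (ε / 2 * (X n).M) * Real.exp (ε / 2 * (X n).M) := by
          rw [← Real.exp_add]; congr 1; ring
        rw [Pi.smul_apply, smul_eq_mul, abs_mul, abs_inv, abs_of_pos L0]
        refine p.trans (le_trans (le_of_eq ?_) (mul_le_mul_of_nonneg_right
          (e ▸ mul_le_mul a.2 a.2 L0.le (Real.exp_pos _).le) (by positivity)))
        field_simp⟩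
  refine ⟨vt, F, F', u, u', o.v0, o.vd, o.vτ, (o.ref.and o.tri).mono fun n a => ⟨a.1.inv,
    fun p q k => ⟨(k.elim ((a.1.hg p).1 q) ((a.1.hg p).2 q)).symm, fun z => by_contra fun z' =>
      k.elim (absurd (a.1.g0 p q z' (not_not.2 z)).1) (absurd (a.1.g0 p q z' (not_not.2 z)).2),
      fun z => by_contra fun z' => ?_⟩, fun ω hω => ⟨(a.2 ω hω).1, fun b e k =>
      k.elim ((a.2 ω hω).2.1 b e) ((a.2 ω hω).2.2 b e)⟩⟩,
    fun K => (o.pat K).mono fun n a ω hω b e p q => a ω hω b e p (not_not.2 q), fun c hc => ?_,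
    fun x c hc => ?_⟩
  · rw [z, (a.1.chi p).1, (a.1.chi p).2, one_apply_ne z'] at k
    exact k.elim (· rfl) (· rfl)
  · obtain ⟨G, a, b⟩ := o.bd
    filter_upwards [a.2 c hc, b] with n a b ω hω p q
    exact ⟨(b ω hω p q).1.trans a, (b ω hω p q).2.trans a⟩
  · obtain ⟨G, a, b⟩ := o.dg x
    have k1 : (1 : ℝ) ≤ Fintype.card κ := Nat.one_le_cast.2 (Fintype.card_pos_iff.2 ⟨σ.τ⟩)
    filter_upwards [(a.const_mul w.big (C := 2 * Fintype.card κ) (by linarith)).2 c hc, b,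
      w.good x, o.ref, o.tri] with n d b g r t ω hω
    have G0 := a.pos n
    refine ⟨fun p φ q => ((g ω hω).hg φ q).elim fun _ z => (dot_le (g ω hω).fu q z _).trans ?_,
      fun y q e => ?_⟩
    · refine (mul_le_mul_of_nonneg_left ((b ω hω).1 p) (by positivity)).trans ?_
      rw [← mul_assoc, add_mul, Real.exp_add, mul_assoc (vt p)]
      exact mul_le_mul_of_nonneg_right d (Real.exp_pos _).le
    · have z := (b ω hω).2 (y ᵥ* (F' n * u' n ω)) e
      rw [← vecMul_eq_sum, vecMul_vecMul, Matrix.mul_assoc, ← Matrix.mul_assoc (u' n ω),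
        mul_eq_one_comm.1 (t ω hω).1, Matrix.one_mul, mul_eq_one_comm.1 r.inv, vecMul_one] at z
      have z' := mul_le_mul_of_nonneg_left (nS_le (wt := σ.μ) (g ω hω).fu fun φ p _ => q φ p) G0.le
      rw [sub_mul, Real.exp_sub, le_div_iff₀ (Real.exp_pos _), mul_assoc (vt e)]
      exact z.trans (z'.trans (le_trans (by nlinarith) d))

theorem sFr : SFr := sFr_of (T2.sFrC T2.sBlk)

end Fr

theorem rFr : RFr := by
  intro ι κ α _ _ _ _ _ Ω Λ σ X ϑ La D s₀ vt F F' u u' z r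
  filter_upwards [z.incC 0 1 one_pos 0, z.bot, z.alg, r.blk, r.ex] with n k1 k2 k3 k4 k5 ω hω
  refine ⟨(k3 ω hω).unit, fr_mB (k3 ω hω).fr (k4 ω hω).1, fun v hv => ⟨(k2 ω hω v hv).1, ?_, ?_,
    fun b e w => ?_⟩⟩
  · refine Classical.epsilon_spec (p := fun t => (X n).j v = (X n).j ω *
      GA.ex (mB (u n ω * F n) ((X n).B ω)) t) ⟨(X n).t ω v ᵥ* (F' n * u' n ω), ?_⟩
    rw [ex_mB _ (k4 ω hω).1]
    exact (k1 ω v ⟨hω, hv, (k2 ω hω v hv).1⟩).1
  · funext a
    show GA.vec ((X n).B v) ((u n v * F n) a) =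
      GA.vec (mB (u n ω * F n) ((X n).B ω)) ((u n v * u' n ω) a)
    rw [GA.GAFrA.vec_mB, (k2 ω hω v hv).2.1]
    congr 1
    show _ = (u n v * u' n ω * (u n ω * F n)) a
    rw [mul_assoc, ← mul_assoc (u' n ω), mul_eq_one_comm.1 (k5.2.2 ω hω).1, one_mul]
  · have := pat_mul (p := fun b e => σ.μ b = σ.μ e ∧ vt b < vt e)
      (fun _ _ _ x y => ⟨x.1.trans y.1, x.2.trans y.2⟩)
      (fun a b x => (k5.2.2 v hv).2 a b (.inl x)) (fun a b x => (k5.2.2 ω hω).2 a b (.inr x)) b e w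
    exact ⟨this.1, add_lt_add_of_le_of_lt this.1.le this.2⟩

open IncA in
theorem rInc : RInc := by
  intro ι κ α _ _ _ _ _ Ω Λ σ X ϑ La D s₀ vt F F' u u' z r a
  have hM : Big (wM X) := z.big
  have hl : ∀ᶠ n in UF, ∀ ω ∈ (X n).P.S, ∀ v ∈ (X n).P.S,
      lg (mB (u n ω * F n) ((X n).B ω)) ((X n).j ω) ((X n).j v) =
        (X n).t ω v ᵥ* (F' n * u' n ω) := by
    filter_upwards [z.incC 0 1 one_pos 0, z.bot, z.alg, r.blk] with n k1 k2 k3 k4 ω hω v hv
    conv_lhs => rw [(k1 ω v ⟨hω, hv, (k2 ω hω v hv).1⟩).1]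
    exact lg_mB (k3 ω hω).fr (k4 ω hω).1 (k3 ω hω).unit _
  refine ⟨fun c hc _ => ?_, fun _ _ T => (eventually_all (p := fun b n => ∀ ω v,
    (X n).At ((X n).O true a) ω v → σ.μ b + vt b ≠ σ.μ b → |Real.exp ((σ.μ b + vt b) *
      (a * (X n).M)) * lg (mB (u n ω * F n) ((X n).B ω)) ((X n).j ω) ((X n).j v) b| ≤
      Real.exp (-(T * (X n).M)))).2 (fun b => ?_) |>.mono fun n k ω v e b => k b ω v e⟩
  · have c3 : 0 < c / 3 := by positivity
    filter_upwards [hl, z.incC a _ c3 0, z.good a, r.blk, r.dia a _ c3, z.fΨ a, r.ex,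
      kle hM (2 * Fintype.card κ) c3] with n k1 k2 k3 k4 k5 k6 k7 k8 ω v e b
    simp only [Rat.cast_nnratCast] at k5
    refine ⟨?_, fun f => ?_⟩
    · show |Real.exp ((σ.μ b + vt b) * (a * (X n).M)) *
        lg (mB (u n ω * F n) ((X n).B ω)) ((X n).j ω) ((X n).j v) b| ≤ _
      rw [k1 ω e.1 v e.2.1, vecMul_col, abs_mul, Real.abs_exp]
      refine (mul_le_mul_of_nonneg_left ((k3 ω e.1).dot_le ((k4 ω e.1).2.2.1 b)
        (fun y w => by rw [← vecMul_col]; exact (k5 ω e.1).2 y w b) (Real.exp_pos _).le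
        fun ψ w => (k2 ω v e).2 ψ w _) (Real.exp_pos _).le).trans ?_
      refine (mul_le_mul_of_nonneg_left (mul_le_mul_of_nonneg_right (mul_le_mul_of_nonneg_right k8
        (Real.exp_pos _).le) (Real.exp_pos _).le) (Real.exp_pos _).le).trans ?_
      simp only [← Real.exp_add]
      exact ex_le (le_of_eq (by simp only [cd]; ring))
    · show |Real.exp ((σ.μ f + vt f - (σ.μ b + vt b)) * (a * (X n).M)) * (u n v * u' n ω) b f| ≤ _
      by_cases w : (u n v * u' n ω) b f = 0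
      · rw [w, mul_zero, abs_zero]; positivity
      have := (k5 ω e.1).2 (Real.exp (-((c / 3 + vt b * a) * (X n).M)) • (u n v * F n) b)
        (fun φ y => by
          rw [dotProduct_smul, smul_eq_mul, abs_mul, Real.abs_exp, Real.exp_neg,
            inv_mul_le_iff₀ (Real.exp_pos _), mul_one]
          exact (k5 v e.2.1).1 b φ (k6 ω e.1 v e.2.1 e.2.2 ▸ y)) f
      rw [smul_vecMul, Pi.smul_apply, smul_eq_mul, abs_mul, Real.abs_exp, Real.exp_neg,
        inv_mul_le_iff₀ (Real.exp_pos _), ← Real.exp_add, ← mul_apply_eq_vecMul, mul_assoc,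
        ← mul_assoc (F n), k7.1, one_mul] at this
      rw [abs_mul, Real.abs_exp, blk_mul (fun a b w => ((k4 v e.2.1).2.2.2 a b (.inl w)).1)
        (fun a b w => ((k4 ω e.1).2.2.2 a b (.inr w)).1) b f w]
      refine (mul_le_mul_of_nonneg_left this (Real.exp_pos _).le).trans ?_
      rw [← Real.exp_add]
      have : 0 ≤ c / 3 * (X n).M := by positivity
      exact ex_le (by simp only [cd]; linarith)
  by_cases v0 : vt b = 0
  · exact .of_forall fun n ω v _ w => absurd (by rw [v0, add_zero]) w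
  have v1 := (r.v0 b).1.lt_of_ne' v0
  have m1 : 0 < σ.μ b := (z.ok.m0 b).lt_of_ne' fun w => v0 (r.dead b w)
  obtain ⟨K, hK⟩ : ∃ K, K = T + (σ.μ b + vt b) * a + 4 := ⟨_, rfl⟩
  obtain ⟨x, hx⟩ := exists_rat_gt (K / vt b)
  rw [div_lt_iff₀ v1] at hx
  filter_upwards [hl, z.incO a 1 one_pos 0, z.good x, z.good 0, r.blk, r.dia x 1 one_pos,
    r.dia 0 1 one_pos, z.off 0 K, z.sub 1 one_pos,
    kle hM (Fintype.card α + Fintype.card κ) one_pos, kle hM (4 * (Fintype.card κ : ℝ) ^ 2) one_pos]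
    with n k1 k2 k3 k4 k5 k6 k7 k8 k9 k10 k11 ω v e _
  obtain ⟨s, s1, s2⟩ := k2 ω v e
  have p : (0 : ℝ) ≤ (X n).M := Nat.cast_nonneg _
  have q : (0 : ℝ) ≤ a * (X n).M := by positivity
  simp only [wM] at *
  rw [k1 ω e.1 v e.2.1, vecMul_col, abs_mul, Real.abs_exp]
  refine (mul_le_mul_of_nonneg_left (one (A := (X n).A ω) (s := s)
    (δ := Real.exp ((3 - K) * (X n).M)) (fun i => ?_) fun f => ?_) (Real.exp_pos _).le).trans ?_
  · have := (k3 ω e.1).dot_A (one_pos.trans_le k9.1)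
      (fun y w => by rw [← vecMul_col]; exact (k6 ω e.1).2 y w b) i
    refine (mul_le_mul (s1 i) (this.trans (mul_le_mul_of_nonneg_right k9.2 (Real.exp_pos _).le))
      (abs_nonneg _) (Real.exp_pos _).le).trans ?_
    simp only [← Real.exp_add]
    exact ex_le (by nlinarith [mul_nonneg (z.ok.et i).le q, mul_le_mul_of_nonneg_right hx.le p])
  · by_cases w : (F' n * u' n ω) f b = 0
    · simp only [w, abs_zero, zero_mul]; positivity
    have e1 := (k4 ω e.1).ent_of ((k5 ω e.1).2.2.1 b)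
      (fun y w => by rw [← vecMul_col]; exact (k7 ω e.1).2 y w b) f
    have e2 := s2 f
    have e3 := (k4 ω e.1).fu.vl_pos (wt := σ.μ)
    rw [flr, if_pos ((k5 ω e.1).2.2.1 b f w ▸ m1)] at e2
    have e4 := (mul_le_mul_of_nonneg_left (k8 ω e.1) (abs_nonneg _)).trans e2
    rw [← mul_assoc, ← le_div_iff₀ (Real.exp_pos _), ← Real.exp_sub] at e4
    refine (mul_le_mul_of_nonneg_right e1 (abs_nonneg _)).trans ?_
    rw [mul_assoc, mul_assoc, mul_comm (vl _ _)]
    refine (mul_le_mul k11 (mul_le_mul_of_nonneg_left e4 (Real.exp_pos _).le) (by positivity)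
      (Real.exp_pos _).le).trans ?_
    simp only [← Real.exp_add]
    exact ex_le (by simp only [Rat.cast_zero]; nlinarith [mul_nonneg (z.ok.m0 f) q])
  · refine (mul_le_mul_of_nonneg_left (mul_le_mul_of_nonneg_right k10 (Real.exp_pos _).le)
      (Real.exp_pos _).le).trans ?_
    simp only [← Real.exp_add]
    exact ex_le (le_of_eq (by rw [hK]; ring))

open Finset

open AlgA in
theorem rAlg : RAlg := by
  intro ι κ α _ _ _ _ _ Ω Λ σ X ϑ La D s₀ vt F F' u u' z r c hc0 T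
  have c0 : 0 < c / 20 := by positivity
  have hf : ∀ᶠ n in UF, ∀ ω ∈ (X n).P.S, Fi σ (X n).toBa ω vt (F n) (F' n) (u n ω) (u' n ω)
      ((X n).Ψ 0 ω) (Real.exp (c / 20 * (X n).M)) (Real.exp (-((|T| + c) * (X n).M))) := by
    filter_upwards [z.alg, z.good 0, z.sub _ c0, G39.big_dl z.big (2 * Fintype.card κ + 2) c0,
      z.off 0 (|T| + c), r.ex, r.blk, r.pat (|T| + c), r.ob _ c0, r.dia 0 _ c0] with
      n k1 k2 k3 k4 k5 k6 k7 k8 k9 k10 ω hω
    refine ⟨k1 ω hω, k2 ω hω, z.ok.m0, fun a => r.tau.trans_le (r.v0 a).1, z.ok.live, k3.1, k3.2,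
      k4.trans_eq (G39.dl_inv _ _ _), Real.exp_pos _, ?_, k6.1, k6.2.1, (k6.2.2 ω hω).1,
      (k6.2.2 ω hω).2, (k7 ω hω).2.1, (k7 ω hω).2.2.1, k8 ω hω, k9 ω hω,
      fun a φ w => by simpa using (k10 ω hω).1 a φ w, fun y w e => by simpa using (k10 ω hω).2 y w e⟩
    rw [Real.exp_neg, le_inv_mul_iff₀ (Real.exp_pos _), mul_comm]
    exact k5 ω hω
  have hg : ∀ p : κ × κ × κ, ∀ᶠ n in UF, ∀ ω ∈ (X n).P.S, vt p.2.2 ≠ vt p.1 + vt p.2.1 →
      |mC (u n ω * F n) (F' n * u' n ω) (hc σ.μ ((X n).c ω)) p.1 p.2.1 p.2.2| ≤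
        Real.exp (c / 20 * (X n).M) ^ 4 * Real.exp (-((|T| + c) * (X n).M)) := fun ⟨a, b, e⟩ => by
    by_cases w : vt e = vt a + vt b
    · exact .of_forall fun _ _ _ k => absurd w k
    obtain ⟨x, hx⟩ := ex_rat (γ := vt a + vt b - vt e) (sub_ne_zero.2 (Ne.symm w)) (|T| + c)
    filter_upwards [z.good x, z.sub _ c0, r.dia x _ c0] with n k1 k2 k3 ω hω _
    refine (tri (k1 ω hω) (one_pos.trans_le k2.1) (Real.exp_pos _) (Real.exp_pos _)
      ((k3 ω hω).1 a) ((k3 ω hω).1 b) fun y v => (k3 ω hω).2 y v e).trans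
      ((mul_le_mul_of_nonneg_right (mul_le_mul_of_nonneg_left k2.2 (by positivity))
        (Real.exp_pos _).le).trans ?_)
    simp only [← Real.exp_nat_mul, ← Real.exp_add]
    refine Real.exp_le_exp.2 ?_
    push_cast
    nlinarith [mul_le_mul_of_nonneg_right hx (Nat.cast_nonneg (α := ℝ) (X n).M)]
  filter_upwards [hf, eventually_all.2 hg] with n k1 k2 ω hω
  have h := k1 ω hω
  have m0 : (0 : ℝ) ≤ (X n).M := Nat.cast_nonneg _
  have t0 := mul_le_mul_of_nonneg_right (le_abs_self T) m0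
  have q : Real.exp (c / 20 * (X n).M) ^ 20 * Real.exp (-((|T| + c) * (X n).M)) ≤
      Real.exp (-(T * (X n).M)) := by
    rw [← Real.exp_nat_mul, ← Real.exp_add]
    refine Real.exp_le_exp.2 ?_
    push_cast
    linarith
  refine ⟨fun a b e => (h.bd (Real.exp_le_one_iff.2 (neg_nonpos.2 (by positivity))) a b e).trans
      ((h.pw (show 16 ≤ 20 by norm_num)).trans_eq ?_), fun a b e he w => le_trans ?_ q,
    fun a b e i j l => (h.g0 a b e i j l).trans q, fun a b => (h.chi z.ok.tau a b).trans q,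
    fun v hv b e i j => le_trans ?_ q⟩
  · rw [← Real.exp_nat_mul]
    congr 1
    push_cast
    show _ = c * (X n).M
    ring
  · refine h.fin (j := 4) (by norm_num) (h.rest a b e he) ?_
    by_cases i : Hw σ.μ a b e
    · refine k2 (a, b, e) ω hω fun j => w ⟨i.1, i.2.1, i.2.2, ?_⟩
      show σ.μ e + vt e = σ.μ a + vt a + (σ.μ b + vt b)
      rw [i.2.2, show vt e = vt a + vt b from j]
      ring
    · rw [h.nh a b e i, abs_zero]
      positivity
  · have h' := k1 v hv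
    refine (s1 (t := Real.exp (c / 20 * (X n).M) * Real.exp (-((|T| + c) * (X n).M))) h.k
      (by positivity) fun f => ?_).trans ?_
    · rw [abs_mul]
      by_cases l : σ.pos f
      · exact (mul_le_mul (h'.pat b f i l).1 (h.ob f e).2 (abs_nonneg _) h.d0.le).trans_eq
          (mul_comm _ _)
      · exact mul_le_mul (h'.ob b f).1 (h.pat f e l j).2 (abs_nonneg _) h.e0.le
    · rw [← mul_assoc, ← pow_two]
      exact mul_le_mul_of_nonneg_right (h.pw (by norm_num)) h.d0.le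

open RR in
theorem rRob_of (hA : RAlg) : RRob := by
  intro ι κ α _ _ _ _ _ Ω Λ σ X ϑ La D s₀ vt F F' u u' w r a c hc T
  have a0 := w.a0
  obtain ⟨c', c0, c1⟩ : ∃ c' : ℝ, 0 < c' ∧ c' + 6 * c' / La = c :=
    ⟨c / (1 + 6 / La), by positivity, by field_simp⟩
  obtain ⟨T', hT⟩ : ∃ T' : ℝ, T' = |T| + s₀ * a + 2 * c' + 1 := ⟨_, rfl⟩
  have z : ∀ b, ∀ᶠ n in UF, vt b ≠ 0 → ∀ v ∈ (X n).P.S, ∀ j,
      |((X n).A v j ᵥ* (F' n * u' n v)) b| ≤ (X n).L * Real.exp (-(T' * (X n).M)) := fun b => by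
    by_cases e : vt b = 0
    · exact .of_forall fun _ k => absurd e k
    have p : 0 < vt b := (r.v0 b).1.lt_of_ne' e
    obtain ⟨x, hx⟩ := exists_rat_gt ((T' + 1) / vt b)
    rw [div_lt_iff₀' p] at hx
    filter_upwards [r.dia x 1 one_pos, w.good x, w.sub 1 one_pos] with n d g l _ v hv j
    refine dir (g v hv) l.1 j fun y hy => ((d v hv).2 y hy b).trans (Real.exp_le_exp.2 ?_)
    rw [← neg_mul]
    exact mul_le_mul_of_nonneg_right (by linarith) (Nat.cast_nonneg _)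
  filter_upwards [hA ι κ α Ω Λ σ X ϑ La D s₀ vt F F' u u' w r c' c0 T', r.ex, r.ob c' c0,
    r.dia a c' c0, eventually_all.2 z, w.sub 1 one_pos, w.bot, w.fΨ a, w.good a, w.off a T,
    w.rob a c' c0 0, w.big.ev (2 * Fintype.card κ / c'), w.big.ev 1] with n al ex ob dia z l1 bot fΨ
    good off rob m1 m2 ω hω h hh l s e1 hl ch
  change ω ∈ (X n).P.S at hω
  change h ≤ T * (X n).M at hh
  change _ ≤ Real.exp (c * (X n).M - h / max 1 (max La σ.L₁))
  change _ ≤ ((X n).M : ℝ) at m1 m2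
  have m0 : (0 : ℝ) ≤ (X n).M := Nat.cast_nonneg _
  have a1 : (0 : ℝ) ≤ a := NNRat.cast_nonneg a
  rcases le_total h 0 with h0 | h0
  · refine (pb_le_one _ _).trans (Real.one_le_exp ?_)
    have := div_nonpos_of_nonpos_of_nonneg h0 (zero_le_one.trans (le_max_left 1 (max La σ.L₁)))
    nlinarith
  obtain ⟨q, hq⟩ : ∃ q, q = Real.exp (c' * (X n).M) := ⟨_, rfl⟩
  have q0 : 0 < q := hq ▸ Real.exp_pos _
  have q2 : 2 * Fintype.card κ + 1 ≤ q := by
    rw [div_le_iff₀' c0] at m1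
    linarith [Real.add_one_le_exp (c' * (X n).M)]
  have k0 : (0 : ℝ) ≤ Fintype.card κ := Nat.cast_nonneg _
  have hu : ∀ v ∈ (X n).P.S, (∀ b e, u n v b e ≠ 0 → σ.μ b = σ.μ e) ∧
      ∀ b e, u' n v b e ≠ 0 → σ.μ b = σ.μ e := fun v hv =>
    ⟨hom1 fun b e k => ((ex.2.2 v hv).2 b e (.inl k)).1,
      hom1 fun b e k => ((ex.2.2 v hv).2 b e (.inr k)).1⟩
  have f := hmul (hu ω hω).1 fun b e k => (ex.2.1 b e (.inl k)).1
  have f' := hmul (fun b e k => (ex.2.1 b e (.inr k)).1) (hu ω hω).2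
  have i : u n ω * F n * (F' n * u' n ω) = 1 := by
    rw [Matrix.mul_assoc, ← Matrix.mul_assoc (F n), ex.1, Matrix.one_mul, (ex.2.2 ω hω).1]
  simp only [Rat.cast_nnratCast] at dia
  have dd : ∀ v ∈ (X n).P.S, ∀ y, In ((X n).Ψ a v) y → ∀ e,
      |(y ᵥ* (F' n * u' n v)) e| * Real.exp (vt e * (a * (X n).M)) ≤ q := fun v hv y hy e => by
    refine (mul_le_mul_of_nonneg_right ((dia v hv).2 y hy e) (Real.exp_pos _).le).trans_eq ?_
    rw [← Real.exp_add, hq]; congr 1; ring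
  have hW : ∀ b, 1 ≤ Real.exp (vt b * (a * (X n).M)) ∧
      Real.exp (vt b * (a * (X n).M)) ≤ Real.exp (s₀ * (a * (X n).M)) := fun b =>
    ⟨Real.one_le_exp (mul_nonneg (r.v0 b).1 (by positivity)),
      Real.exp_le_exp.2 (mul_le_mul_of_nonneg_right (r.v0 b).2 (by positivity))⟩
  obtain ⟨e, he⟩ : ∃ e, 1 ≤ q * |l e| := by
    by_contra k
    have := sm (f := fun e => q * |l e|) (y := 1) fun e => by
      rw [abs_of_nonneg (by positivity)]; exact le_of_not_ge fun y => k ⟨e, y⟩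
    rw [← mul_sum, e1, mul_one, abs_of_pos q0] at this
    linarith
  have p0 : 0 < q ^ 4 * Real.exp (-h) := by positivity
  refine (pb_mono fun v hv th => ?_).trans ((rob ω hω (h - 6 * c' * (X n).M)
    ((q ^ 4 * Real.exp (-h))⁻¹ • ph (F' n * u' n ω) vt (a * (X n).M) l) s
    ((q * Real.exp (vt e * (a * (X n).M)))⁻¹ • (u n ω * F n) e) ((ph_hg f' hl).smul _)
    (fun φ k => ?_) ?_).trans (Real.exp_le_exp.2 ?_))
  · obtain ⟨hv, o⟩ := (MX.mem_cv hω v).1 hv
    have eΨ := fΨ v hv ω hω o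
    have ec := (bot v hv ω hω).2.2
    have g := good v hv
    have k := okv (N := u n ω * F n) (Z := F' n * u' n v) (R := u n v * u' n ω) (vt := vt) (l := l)
      (δ := Real.exp (-(T' * (X n).M))) (ε := Real.exp (-h)) g l1.1 (mul_eq_one_comm.1 i) f f'
      (by rw [Matrix.mul_assoc, ← Matrix.mul_assoc (u' n v), mul_eq_one_comm.1 (ex.2.2 v hv).1,
        Matrix.one_mul])
      (hmul (hu v hv).1 (hu ω hω).2) (fun b e => ?_) q2 (Real.exp_pos _) (Real.exp_pos _).le ?_ hW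
      ?_ (by rw [eΨ]; exact dd ω hω) (fun j b => ⟨dir g l1.1 j fun y hy => le_trans
        (le_mul_of_one_le_right (abs_nonneg _) (hW b).1) (dd v hv y hy b), fun y => z b y v hv j⟩)
      (by rw [ec]; exact (al ω hω).gr) e1 hl (by rw [ec]; exact ch) fun b b1 b2 => ?_
    · have := k.smul (q ^ 4 * Real.exp (-h))⁻¹
      rwa [abs_of_pos (inv_pos.2 p0), inv_mul_cancel₀ p0.ne'] at this
    · refine (sm (y := q * q) fun e' => ?_).trans (by nlinarith [mul_pos q0 q0])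
      rw [abs_mul, hq]
      exact mul_le_mul (ob v hv _ _).1 (ob ω hω _ _).2 (abs_nonneg _) (Real.exp_pos _).le
    · have : (2 : ℝ) ≤ Real.exp (X n).M := by linarith [Real.add_one_le_exp ((X n).M : ℝ)]
      refine (mul_le_mul_of_nonneg_right (mul_le_mul_of_nonneg_right (mul_le_mul_of_nonneg_right
        this (by positivity)) (Real.exp_pos _).le) (Real.exp_pos _).le).trans ?_
      rw [hq, ← Real.exp_nat_mul, ← Real.exp_add, ← Real.exp_add, ← Real.exp_add, Real.exp_le_exp,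
        hT]
      push_cast
      nlinarith [le_abs_self T]
    · have := off v hv
      rw [← le_div_iff₀ (Real.exp_pos _), div_eq_inv_mul, ← Real.exp_neg] at this
      exact this.trans (mul_le_mul_of_nonneg_right (Real.exp_le_exp.2 (neg_le_neg hh))
        (zero_le_one.trans (by simpa [Ba.da, flr, (show 0 < σ.μ e from
          (hl e fun y => by norm_num [y] at he).1)] using g.fl1 e)))
    · refine le_of_eq_of_le (congrArg _ (sum_congr rfl fun e' _ => ?_))
        (th b ⟨b1, by show σ.μ b + vt b = σ.μ b; rw [b2, add_zero]⟩)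
      show _ = l e' * (Real.exp ((σ.μ e' + vt e' - (σ.μ b + vt b)) * (a * (X n).M)) *
        (u n v * u' n ω) b e')
      by_cases y : (u n v * u' n ω) b e' = 0
      · simp [y]
      · rw [hmul (hu v hv).1 (hu ω hω).2 b e' y, b2, add_zero, add_sub_cancel_left]; ring
  · rw [dotProduct_smul, smul_eq_mul, abs_mul, abs_of_pos (by positivity), ← div_eq_inv_mul,
      div_le_one (by positivity)]
    refine ((dia ω hω).1 e φ k).trans_eq ?_
    rw [hq, ← Real.exp_add]; congr 1; ring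
  · have y : ∀ e', ((u n ω * F n) e ᵥ* (F' n * u' n ω)) e' = (1 : Matrix κ κ ℝ) e e' :=
      fun e' => congrFun (congrFun i e) e'
    rw [smul_dotProduct, dotProduct_smul, ph_dot]
    simp only [y, one_apply, ite_mul, one_mul, zero_mul, sum_ite_eq, mem_univ, if_true,
      smul_eq_mul, abs_mul]
    rw [abs_of_pos (inv_pos.2 p0), abs_of_pos (by positivity), abs_of_pos (Real.exp_pos _)]
    have y2 : Real.exp (h - 6 * c' * (X n).M) * (q ^ 6 * Real.exp (-h)) = 1 := by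
      rw [hq, ← Real.exp_nat_mul, ← Real.exp_add, ← Real.exp_add, Real.exp_eq_one_iff]
      push_cast
      ring
    rw [eq_inv_of_mul_eq_one_left y2]
    calc _ = (q ^ 6 * Real.exp (-h))⁻¹ * 1 := (mul_one _).symm
      _ ≤ (q ^ 6 * Real.exp (-h))⁻¹ * (q * |l e|) := mul_le_mul_of_nonneg_left he (by positivity)
      _ = _ := by field_simp
  · have := div_le_div_of_nonneg_left h0 a0 ((le_max_left La σ.L₁).trans (le_max_right 1 _))
    rw [← c1, sub_div]
    have y : 6 * c' * (X n).M / La = 6 * c' / La * (X n).M := by ring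
    nlinarith

end Pool.Agent.MP_5168f5_an.QA.Cp.N2
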