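import Pool.Agent.MP_4b405e_nt.SK.N2C

/-! Sparse heights: the chain of caps at one depth exists. -/

namespace Pool.Agent.MP_5168f5_an.QA.Cp.N2

open H19 H17S H17F AN AN.GA AN.N6 Filter

variable {ι κ α : Type} [Fintype ι] [DecidableEq ι] [Fintype κ] [DecidableEq κ] [Fintype α]
  {Ω Θ Λ : ℕ → Type} {σ : Cs ι κ α} {γ : ℝ} {X : ∀ n, Ld ι κ α (Ω n) (Θ n) (Λ n)}

/-- The slow number of steps. -/
theorem LC.grid (h : LC σ γ X) {q : ℕ → ℕ} (hq : Big q) {L : ℕ → ℝ}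
    (hL : Sub (fun n => (X n).M) L) : ∃ m s : ℕ → ℕ, Big m ∧
    ∀ᶠ n in UF, Nm κ γ (X n).M (m n) (s n) (1 / (m n + 1 : ℝ) ^ 4 * (X n).M) ∧ 2 * m n ≤ q n ∧
      (X n).L ≤ Real.exp (1 / (m n + 1 : ℝ) ^ 4 * (X n).M) ∧
      L n ≤ Real.exp (1 / (m n + 1 : ℝ) ^ 4 * (X n).M) := by
  obtain ⟨m, bm, hm⟩ := KSA.spill (fun i n => (2 * i ≤ q n ∧
    (X n).L ≤ Real.exp (1 / (i + 1 : ℝ) ^ 4 * (X n).M) ∧
      L n ≤ Real.exp (1 / (i + 1 : ℝ) ^ 4 * (X n).M)) ∧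
    (i + 1 : ℝ) ^ 5 ≤ (X n).M ∧ Real.log ((X n).M + 1) ≤ 1 / (i + 1 : ℝ) ^ 4 * (X n).M) fun i =>
    ((tendsto_atTop.1 hq _).and ((h.sub.2 _ (by positivity)).and (hL.2 _ (by positivity)))).and
      ((h.big.ev _).and (((Sub.nat h.big).log (1 / (i + 1 : ℝ) ^ 4) (by positivity)).mono
        fun n a => a.trans_eq (zero_add _)))
  refine ⟨m, fun n => ⌊((X n).M : ℝ) / m n⌋₊, bm, ?_⟩
  filter_upwards [hm, tendsto_atTop.1 bm 3, bm.ev (27 * Fintype.card κ ^ 4 + γ +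
    Real.log ((Fintype.card κ).factorial * Fintype.card κ ^ Fintype.card κ)), bm.ev (2 / γ)]
    with n a b c d
  obtain ⟨a1, a2, a3⟩ := a _ le_rfl
  have m3 : (3 : ℝ) ≤ m n := by exact_mod_cast b
  have M0 : (0 : ℝ) ≤ (X n).M := Nat.cast_nonneg _
  have mv : (m n + 1 : ℝ) ≤ 1 / (m n + 1 : ℝ) ^ 4 * (X n).M := by
    rw [one_div, le_inv_mul_iff₀ (by positivity), ← pow_succ]; exact a2
  have g0 := h.g0
  refine ⟨⟨b, rfl, mv, a3, by linarith, ?_, ?_, ?_⟩, a1⟩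
  · rw [← mul_assoc]
    refine mul_le_mul_of_nonneg_right ?_ M0
    rw [div_le_iff₀ g0] at d
    rw [mul_one_div, div_le_iff₀ (by positivity)]
    nlinarith [mul_le_mul_of_nonneg_left (le_self_pow₀ (show (1 : ℝ) ≤ m n + 1 by linarith)
      four_ne_zero) g0.le]
  · exact (le_div_iff₀' (by linarith)).1 (Nat.floor_le (div_nonneg M0 (by linarith)))
  · exact (div_le_iff₀' (by linarith)).1 (Nat.lt_floor_add_one _).le

theorem sCh (h : LC σ γ X) {q : ℕ → ℕ} (hq : Big q) {mm : ℝ} (m0 : 0 < mm) (K₀ : ℝ) :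
    ∃ (K ϑ La : ℝ) (e : ℕ → ℝ) (m s : ℕ → ℕ) (Ψ : ∀ n, ℕ → Ω n → Set (κ → ℝ))
      (C : ∀ n, ℕ → Ω n → Ce ι κ (Λ n)) (G : ∀ n, Ω n → Prop), K₀ ≤ K ∧
      CH σ mm K ϑ La (mm / 2) (γ / 4) (2 * γ)
        (fun n => (X n).sd (e n) (m n) (s n) (Ψ n) (C n) (G n)) ∧
      ∀ᶠ n in UF, (∀ ω, G n ω → (X n).G ω) ∧ (∀ k ≤ m n, Fn (X n).P (X n).T (C n k)) ∧
        m n * s n ≤ (X n).M ∧ (X n).M ≤ q n * s n := by
  have g0 := h.g0
  have : Nonempty κ := ⟨σ.τ⟩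
  have d1 : (1 : ℝ) ≤ Fintype.card κ := by exact_mod_cast Fintype.card_pos
  obtain ⟨K, k0, k1, k2⟩ : ∃ K : ℝ, K₀ ≤ K ∧ 0 < K ∧ mm / K ≤ γ / 4 := by
    have p : 0 < mm / (γ / 4) := by positivity
    refine ⟨max K₀ (mm / (γ / 4)), le_max_left _ _, p.trans_le (le_max_right _ _), ?_⟩
    exact (div_le_comm₀ (p.trans_le (le_max_right _ _)) (by positivity)).2 (le_max_right _ _)
  obtain ⟨r, p0, p1⟩ : ∃ r : ℝ, 0 < r ∧ K * r = mm / 8 :=
    ⟨mm / 8 / K, by positivity, mul_div_cancel₀ _ k1.ne'⟩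
  obtain ⟨c, c0, acw⟩ := h.acw r p0
  obtain ⟨δ, q0, q1⟩ : ∃ δ : ℝ, 0 < δ ∧
      δ * (3 + K * ((Fintype.card κ * γ + 1) * (1 + 3 / c))) = mm / 8 :=
    ⟨mm / 8 / _, by positivity, div_mul_cancel₀ _ (by positivity)⟩
  obtain ⟨La, u1, u2⟩ : ∃ La : ℝ, 1 ≤ La ∧ Fintype.card κ * γ / La ≤ δ :=
    ⟨max 1 (Fintype.card κ * γ / δ), le_max_left _ _,
      (div_le_comm₀ (by positivity) q0).2 (le_max_right _ _)⟩
  obtain ⟨f, pf, hf⟩ := sd_ok σ h.ok
  obtain ⟨m, s, bm, hm⟩ := h.grid hq (pf.2 _ _ h.big h.sub)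
  obtain ⟨v, hv⟩ : ∃ v : ℕ → ℝ, ∀ n, 1 / (m n + 1 : ℝ) ^ 4 * (X n).M = v n := ⟨_, fun _ => rfl⟩
  simp only [hv] at hm
  have v0 : ∀ n, 0 ≤ v n := fun n => by rw [← hv]; positivity
  have sm : ∀ ε : ℝ, 0 < ε → ∀ᶠ n in UF, (m n + 1) ^ 2 * v n ≤ ε * (X n).M := fun ε hε =>
    (bm.ev (1 / ε)).mono fun n a => by
      have : (0 : ℝ) ≤ m n := Nat.cast_nonneg _
      rw [← hv, ← mul_assoc, div_le_iff₀ hε] at *
      refine mul_le_mul_of_nonneg_right ?_ (Nat.cast_nonneg _)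
      rw [mul_one_div, div_le_iff₀ (by positivity)]
      nlinarith [mul_le_mul_of_nonneg_right (show 1 ≤ ε * (m n + 1) ^ 2 by nlinarith)
        (sq_nonneg (m n + 1 : ℝ))]
  choose y hy using fun n => exists_forall_of_imp fun a : (Nm κ γ (X n).M (m n) (s n) (v n) ∧
      2 * m n ≤ q n ∧ (X n).L ≤ Real.exp (v n) ∧ f (X n).L ≤ Real.exp (v n)) ∧ (X n).Ok σ γ =>
    hf _ _ _ (X n) γ (m n) (s n) (v n) mm K (δ / Fintype.card κ ^ 2) La g0 a.1.1 a.2 (h.sub.1 n)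
      a.1.2.2.1 a.1.2.2.2 (by positivity) u1 k2
  replace hy := (hm.and h.ev).mono hy
  have U1 : ∀ᶠ n in UF, ((X n).M : ℝ) ≤ 2 * (m n * s n : ℕ) := by
    filter_upwards [hm, sm (1 / 2) (by norm_num)] with n a b
    have : (0 : ℝ) ≤ m n := Nat.cast_nonneg _
    push_cast
    nlinarith [a.1.s2, a.1.mv, mul_le_mul_of_nonneg_right (show 1 ≤ (m n + 1 : ℝ) ^ 2 by nlinarith)
      (v0 n)]
  have ac := acw _ (fun n => (y n).2.1 (m n)) (fun n => (y n).1 (m n))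
    (hy.mono fun n a p u q w e => Sum.inr.inj (a.1.com _ le_rfl p u q w (congrArg Sum.inl e)))
    (hy.mono fun n a => a.2.2.2.2 _ le_rfl)
    (hy.mono fun n a p u q w e => a.1.fΨ _ le_rfl p u q w (congrArg Sum.inr e))
    (hy.mono fun n a => a.1.good _ le_rfl)
  refine ⟨K, δ / Fintype.card κ ^ 2, La, fun n => (m n + 1) ^ 2 * v n, m, s, fun n => (y n).1,
    fun n => (y n).2.1, fun n => (y n).2.2, k0, ⟨h.ok, by positivity,
    by linarith, ⟨by linarith, by linarith⟩, by positivity, bm, fun ε hε => ?_, fun ε hε => ?_,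
    hy.mono fun n a => a.1, h.cur, fun ε hε => ?_, Le.of_ev ?_⟩, ?_⟩
  · filter_upwards [hm, bm.ev (4 / ε)] with n a b
    have m3 : (3 : ℝ) ≤ m n := by exact_mod_cast a.1.m3
    have e := hv n
    rw [one_div, inv_mul_eq_iff_eq_mul₀ (by positivity)] at e
    have b1 : (m n + 1 : ℝ) ^ 4 * (m n + 1) ≤ (X n).M :=
      e ▸ mul_le_mul_of_nonneg_left a.1.mv (by positivity)
    have b2 : (m n : ℝ) * (m n) ^ 2 ≤ m n * s n := by
      have : 4 * (m n : ℝ) ^ 3 ≤ (m n + 1) ^ 4 := by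
        rw [pow_succ' _ 3]; gcongr <;> linarith
      nlinarith [a.1.s2]
    have b3 := mul_le_mul_of_nonneg_left (le_of_mul_le_mul_left b2 (by linarith)) hε.le
    rw [div_le_iff₀' hε] at b
    change Real.log (m n + 1) ≤ 0 + ε * s n
    nlinarith [Real.log_le_sub_one_of_pos (show (0 : ℝ) < m n + 1 by linarith)]
  · filter_upwards [U1, sm (ε / 2) (by positivity)] with n a c
    change (m n + 1) ^ 2 * v n ≤ 0 + ε * (m n * s n : ℕ)
    nlinarith [mul_le_mul_of_nonneg_left a hε.le]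
  · filter_upwards [hy, bm.ev (2 / ε), h.whp _ (half_pos hε)] with n a b c
    refine a.2.2.1.trans ?_
    have : 1 / (m n + 1 : ℝ) ≤ ε / 2 := (div_le_comm₀ (by positivity) (half_pos hε)).2 (by
      rw [one_div_div]; linarith)
    linarith
  · filter_upwards [hy, U1, ac δ q0, sm (δ / 4) (by positivity), h.ev,
      h.big.ev (1 + Real.log ((Fintype.card κ).factorial *
        Fintype.card κ ^ Fintype.card κ))] with n a b c' e o g
    obtain ⟨a1, -, -, a2, a3⟩ := a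
    have fF : ∀ b, flr σ.μ (X n).F b ≤ Real.exp (γ * (X n).M) := fun b => by
      have := Real.one_le_exp (show 0 ≤ γ * (X n).M by positivity)
      unfold flr; split_ifs <;> simp [this, o.fl]
    have lc : 0 ≤ Real.log ((Fintype.card κ).factorial * Fintype.card κ ^ Fintype.card κ) :=
      Real.log_nonneg (one_le_mul_of_one_le_of_one_le
        (by exact_mod_cast (Fintype.card κ).factorial_pos) (one_le_pow₀ d1))
    have M0 : (0 : ℝ) < (X n).M := by linarith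
    have b1 : ch (X n).P ((y n).2.1 (m n)) (X n).T ≤ 3 * δ * (X n).M := by
      rw [mul_div_cancel₀ _ (by positivity)] at a2
      nlinarith [mul_le_mul_of_nonneg_right u2 M0.le]
    have b2 := ev_le (X n).P _ (X n).T (W := (Fintype.card κ * γ + 1) * (X n).M)
      (mul_pos c0 M0) (by positivity) (fun ω k => (vl_bd (a1.good _ le_rfl ω k) fF).2.trans (by
        rw [Real.log_exp]
        nlinarith)) (by positivity) c'
    have b3 : ch (X n).P ((y n).2.1 (m n)) (X n).T / (c * (X n).M) ≤ δ * (3 / c) := by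
      rw [div_le_iff₀ (mul_pos c0 M0)]
      refine b1.trans (le_of_eq ?_)
      field_simp
    have b4 := mul_le_mul_of_nonneg_left (b2.trans (add_le_add le_rfl (mul_le_mul_of_nonneg_left
      (add_le_add le_rfl b3) (by positivity)))) k1.le
    have b5 : mi (X n).P (X n).l (fun ω => (.inr ((y n).2.1 (m n) ω) : Θ n ⊕ _))
        (fun ω => (.inr ((y n).2.1 0 ω) : Θ n ⊕ _)) ≤ 3 * δ * (X n).M := by
      rw [mi_symm]
      refine (mi_le _ _ _).trans ((ch_anti (G := (X n).T) fun p u q w e =>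
        a3 0 (Nat.zero_le _) p u q w (Sum.inr.inj e)).trans ?_)
      exact (ch_mono ((Fn.comp Sum.inr _).left _)).trans b1
    have b7 := (X n).P.E_mono (F := fun ω => K * Real.log (vl σ.μ ((y n).1 (m n) ω)) -
      K * Real.log (vl σ.μ ((y n).1 0 ω))) fun ω k => sub_le_self _
        (mul_nonneg k1.le (vl_bd (a1.good 0 (Nat.zero_le _) ω k) fF).1)
    rw [FP.E_mul] at b7
    have b9 : K * (r * (X n).M + (Fintype.card κ * γ + 1) * (X n).M * (δ + δ * (3 / c))) =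
        (mm / 4 - 3 * δ) * (X n).M := by linear_combination (X n).M * p1 + (X n).M * q1
    refine (add_le_add b5 (b7.trans (b4.trans_eq b9))).trans ?_
    change _ ≤ mm / 2 * (m n * s n : ℕ)
    nlinarith [mul_le_mul_of_nonneg_left b m0.le]
  · filter_upwards [hy, hm, U1] with n a b c
    refine ⟨a.2.1, a.2.2.2.2, by exact_mod_cast b.1.s1, ?_⟩
    have : (X n).M ≤ 2 * (m n * s n) := by exact_mod_cast c
    exact this.trans ((mul_assoc _ _ _).ge.trans (Nat.mul_le_mul_right _ b.2.1))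

end Pool.Agent.MP_5168f5_an.QA.Cp.N2
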