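import Pool.Agent.MP_4b405e_nt.SK.P5B

/-! Sparse heights: from the tangent system to the filtered system. -/

namespace Pool.Agent.MP_5168f5_an.QA.P5.F

section Fin

open H19 H17S H17F R4 AN Filter Matrix Finset
open GA (Mt)
open N2 (El eW eB)
open LC (Au)
open FinA (mk unit)

variable {N D m : ℕ} {π : Pa m}

variable {Y : ℕ → Bs N D π}

theorem lbf (h : M4 Y) (x : ℚ) {ε : ℝ} (hε : 0 < ε) : ∀ᶠ n in UF,
    |AB.lb (Y n).X (Y n).F x - x * (Y n).X.u| ≤ ε * (Y n).X.u :=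
  (h.ts.toTq.lev 0 x hε).mono fun n a => by simpa [AB.lb, h.hb n] using a

/-- Anti-concentration of the coefficients. -/
theorem fin_ac (h : M4 Y) (x : ℚ) : Au (fun n => (Y n).X.u) fun n =>
    As.Acf π.σ (Y n).bd (Y n).pr (π.kf n) π.L x := fun c hc T => by
  have w0 : 0 ≤ ∑ i, eW π.la i := sum_nonneg fun i _ => (sub_pos.2 i.2).le
  have c1 : 0 < c / 2 / (∑ i, eW π.la i + 1) := by positivity
  filter_upwards [h.fm.ha.sh, h.fm.ha.ac x T _ (half_pos hc), lbf h x c1] with n a b d ω hω t l E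
    ht h0 ⟨i, hi⟩ th
  have u0 : (0 : ℝ) ≤ (Y n).X.u := Nat.cast_nonneg _
  have e : ∀ j, |eW π.la j * (x * (Y n).X.u - AB.lb (Y n).X (Y n).F x)| ≤ c / 2 * (Y n).X.u :=
    fun j => by
    have j0 : 0 ≤ eW π.la j := (sub_pos.2 j.2).le
    have j1 : eW π.la j ≤ ∑ i, eW π.la i + 1 := (single_le_sum
      (fun i _ => (sub_pos.2 i.2).le) (mem_univ j)).trans (by linarith)
    rw [abs_mul, abs_of_nonneg j0, abs_sub_comm]
    refine (mul_le_mul j1 d (abs_nonneg _) (by linarith)).trans_eq ?_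
    field_simp
  obtain ⟨r, r1, r2⟩ := unit (l := fun j => l j *
      Real.exp (eW π.la j * (x * (Y n).X.u - AB.lb (Y n).X (Y n).F x)))
    (Real.exp_pos (-(c / 2 * (Y n).X.u))) ⟨i, by
      rw [abs_mul, Real.abs_exp]
      exact (Real.exp_le_exp.2 (abs_le.1 (e i)).1).trans
        (le_mul_of_one_le_left (Real.exp_pos _).le hi)⟩
  have r0 := (Real.exp_pos _).trans_le r1
  have p : 0 ≤ c / 2 * (Y n).X.u := by positivity
  refine (b ω hω (t - c / 2 * (Y n).X.u) ((sub_le_self _ p).trans ht) _ E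
    ⟨fun j hj => ?_, fun j k => ?_⟩ r2 fun v v' z z' ev ev' => ?_).trans
      (Real.exp_le_exp.2 (div_le_div_of_nonneg_right ?_ (Nat.cast_nonneg _)))
  · rw [h0 j (funext fun q => ?_), zero_mul, zero_div]
    have : PA.col ((Y n).A ω) j = 0 := funext fun s => by_contra fun k =>
      hj ((a ω hω).gr s j k).1
    simp [Bs.bd, AB.lt, this, GA.vec]
  · simp [PA.cA, GA.br, (Real.exp_pos _).le]
  · have k := th v z.1 v' z.2.1 z' (z.2.2.symm.trans z') ev ev'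
    have q : ∑ j, l j * Real.exp (eW π.la j * (x * (Y n).X.u - AB.lb (Y n).X (Y n).F x)) / r *
        (Y n).pr.co (eW π.la) x v v' j = (∑ j, l j * (Real.exp (π.σ.η j * (x * (Y n).pr.M)) *
          (Y n).bd.y v v' j)) / r := by
      rw [sum_div]
      refine sum_congr rfl fun j _ => ?_
      rw [mul_sub, Real.exp_sub]
      simp only [PA.Pr.co, AB.pr, Pa.σ, Bs.bd]
      field_simp
    rw [q, abs_div, abs_of_pos r0, div_le_iff₀ r0]
    refine k.trans (le_trans ?_ (mul_le_mul_of_nonneg_left r1 (Real.exp_pos _).le))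
    rw [← Real.exp_add]
    exact Real.exp_le_exp.2 (by linarith)
  · have : c / 2 * (Y n).X.u / π.L ≤ c / 2 * (Y n).X.u := div_le_self p h.one.2
    rw [sub_div]
    show c / 2 * (Y n).X.u - _ ≤ c * (Y n).X.u - _
    linarith

/-- The letters move the height. -/
theorem fin_mv (h : M4 Y) : ∀ᶠ n in UF, ∀ ω ∈ (Y n).X.P.S, ∀ v ∈ (Y n).X.P.S,
    (Y n).X.O (-1) ω = (Y n).X.O (-1) v →
    |∑ i, (Y n).pr.Y ω v i * AB.lt π.la ((Y n).A ω) i π.τ π.o -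
      (Real.exp (lg * (Y n).F.b) * (Y n).X.g.z v - Real.exp (lg * (Y n).F.b) * (Y n).X.g.z ω)| ≤
      2 := by
  have l1 := h.l1
  have l2 := h.l2
  filter_upwards [l1.inc (-1) 2, l2.tt (-1) 2, h.fm.ha.sh, lbf h (-1) one_pos] with n a b s d ω hω
    v hv e
  let β : El π.la := ⟨(π.τ, π.o), h.fm.toMI.lt⟩
  have z : AB.Mt2 (Y n).X (-1) ω ω v := ⟨hω, hv, rfl, e.symm⟩
  have wβ : eW π.la β = lg := by simp [β, eW, h.fm.lo, h.fm.lτ]
  have a1 := a ω hω ω v z β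
  have b1 := b ω ω v z
  rw [N2.vec_eB _ β] at b1
  have q : ∑ i, (Y n).A ω β i * AB.co π.la (Y n).X (Y n).F (-1) ω v i =
      Real.exp (lg * AB.lb (Y n).X (Y n).F (-1)) *
        ∑ i, (Y n).pr.Y ω v i * AB.lt π.la ((Y n).A ω) i π.τ π.o := by
    rw [mul_sum]
    refine sum_congr rfl fun i _ => ?_
    rw [AB.lt, N2.vec_eB _ β, PA.col, AB.co]
    by_cases k : (Y n).A ω β i = 0
    · simp [k]
    · rw [((s ω hω).gr β i k).2, wβ]
      simp only [AB.pr]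
      ring
  have q2 : (2 : ℝ) ^ (Y n).X.lv (-1) =
      Real.exp (lg * AB.lb (Y n).X (Y n).F (-1)) * Real.exp (lg * (Y n).F.b) := by
    rw [AB.two_exp, ← Real.exp_add, AB.lb]
    congr 1
    ring
  have q3 : G39.dl (fun n => (Y n).X.u) 2 n ≤ Real.exp (lg * AB.lb (Y n).X (Y n).F (-1)) := by
    have := (abs_le.1 d).1
    push_cast at this
    refine Real.exp_le_exp.2 ?_
    nlinarith [lg_pos, lg_lt_one, Nat.cast_nonneg (α := ℝ) (Y n).X.u]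
  rw [q] at a1
  rw [q2] at b1
  refine le_of_mul_le_mul_left ?_ (Real.exp_pos (lg * AB.lb (Y n).X (Y n).F (-1)))
  rw [← Real.abs_exp, ← abs_mul, Real.abs_exp, abs_le] at *
  constructor <;> linarith [a1.1, a1.2, b1.1, b1.2]

theorem sFin_of (hB : SBF) : SFin := by
  intro N D m π Hs W L₀ μ γ Z q pos t ok hμ hβ hL G acw top
  have h := G.m5.m4
  have tq := h.ts.toTq
  have l1 := h.l1
  have l2 := h.l2
  have bf := hB N D m π _ h
  have ko := h.fm.ko _ h.fm.toMI.ne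
  have wt : μ t = lg := G.out.wt
  refine ⟨ok, hμ, tq.big, one_pos.trans_le hL, h.one.2, half_pos hβ, G.out.live, G.out.tau,
    fun _ _ _ => rfl, fun x x' e => (tq.loc x x' 1 one_pos).mono fun _ a _ _ _ _ k =>
      fl1_eq_of_le (a.mono e) k, (tq.loc 0 0 1 one_pos).mono fun n a u hu v hv k =>
      (a.val u hu).1.symm.trans ((congrArg Dc.h k).trans (a.val v hv).1), bf, G.m5.fl, acw,
    fun c hc T => ?_, fun v hv K => G.out.cur v hv 1 one_pos K, fun x _ _ => fin_ac h x,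
    fun ε hε => ?_, top⟩
  · filter_upwards [G.out.sp c hc T, l2.long c hc, l1.mem] with n a b e ω hω
    obtain ⟨i, hi⟩ := b ω hω
    have s := a ω hω
    refine ⟨⟨i, ?_, ?_⟩, fun x y z k => s.sub x y z k.1 k.2.1, fun x y _ => ?_, s.cur⟩
    · have := (((e ω hω i).2.2.2 π.τ π.o).2 fun k =>
        (Real.exp_pos _).not_ge (by simpa [k] using hi)).2
      rw [h.fm.lo, h.fm.lτ, sub_zero] at this
      exact this.symm.trans wt.symm
    · exact hi.trans_eq (congrArg abs ((s.chA i).trans (mk ko _)).symm)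
    · exact (congrArg abs (s.chi x y)).trans_le (by simpa using (Real.exp_pos _).le)
  · obtain ⟨C, hC, o⟩ := Fl.ofOut Fl.rIdl _ _ _ π.σ Hs W μ γ ok hμ
    filter_upwards [G.m5.fl 1 one_pos (2 * C), bf (-1) le_rfl (by norm_num) 1 one_pos (2 * C),
      G.out.sp 1 one_pos 0, fin_mv h, tq.big.ev 1, big_exp tq.big 3 hε] with n a b s k u1 u3 ω hω v hv e
    have u0 : (0 : ℝ) ≤ (Z n).X.u := Nat.cast_nonneg _
    obtain ⟨⟨g, -⟩, -, g'⟩ := o _ _ _ _ _ _ _ _ _ _ _ _ _ u0 (u1.trans_eq (one_mul _).symm)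
      (show C * (1 * (Z n).X.u + (Z n).X.u) ≤ 2 * C * (Z n).X.u from le_of_eq (by ring)) a b
      (fun _ _ _ _ x => x) ω hω v hv
    obtain ⟨r, r1, r2⟩ := g' e
    have fr : GA.IsFr π.σ.Φ ((Z n).d.B π.σ ω) ((Z n).d.c π.σ ω) :=
      ((GA.sFr _ _ _ _ _).2 _ _ (a.inv ω hω)).1 ok.fr
    have r3 := (r2 t).trans (Real.exp_le_one_iff.2 (show _ ≤ (0 : ℝ) by nlinarith))
    have r4 := k ω hω v hv e
    have r5 : ∑ i, (Z n).bd.y ω v i * (Z n).d.A ω i t =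
        ∑ i, (Z n).pr.Y ω v i * AB.lt π.la ((Z n).A ω) i π.τ π.o :=
      sum_congr rfl fun i _ => congrArg _ (((s ω hω).chA i).trans (mk ko _))
    rw [r5] at r3
    rw [r1, (GA.sMul _ _ _ _ _ fr).lg _ _ g]
    exact (abs_sub_le _ _ _).trans ((add_le_add r3 r4).trans (le_trans (by norm_num) u3))

end Fin

section Glue

open H19 H17S H17F R4 AN Filter Matrix

variable {N D m : ℕ} {π : Pa m} {μ : π.κ → ℝ} {γ : π.κ → ℕ} {Z : ℕ → Mb N D π}

/-- Minimal weights exist. -/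
theorem ex_mn {Hs : Finset ℝ} (h : M5 μ γ Z) (hμ : ∀ a, μ a ∈ Hs) :
    ∃ (μ' : π.κ → ℝ) (γ' : π.κ → ℕ) (Z' : ℕ → Mb N D π), Mn N D Hs μ' ∧ M5 μ' γ' Z' := by
  classical
  obtain ⟨μ', a, b⟩ := Finset.exists_min_image ((Fintype.piFinset fun _ : π.κ => Hs).filter
    fun ν => ∃ (γ : π.κ → ℕ) (Z : ℕ → Mb N D π), M5 ν γ Z) (fun ν => ∑ a, ν a)
    ⟨μ, Finset.mem_filter.2 ⟨Fintype.mem_piFinset.2 hμ, γ, Z, h⟩⟩
  obtain ⟨c, γ', Z', e⟩ := Finset.mem_filter.1 a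
  exact ⟨μ', γ', Z', ⟨Fintype.mem_piFinset.1 c, fun ν γ Z u v =>
    b ν (Finset.mem_filter.2 ⟨Fintype.mem_piFinset.2 u, γ, Z, v⟩)⟩, e⟩

/-- The geometric facts pass to an event and to a finer label. -/
theorem Geo.rr {q : ∀ n, (Z n).X.Ω → Fin m → ℝ} {pos : π.κ → Prop} {t : π.κ} {β : ℕ → Type}
    (h : Geo μ γ Z q pos t) (G : ∀ n, (Z n).X.Ω → Prop) (K : ∀ n, (Z n).X.Ω → β n)
    (m5 : M5 μ γ fun n => ((Z n).res (G n)).ref (K n)) :
    Geo μ γ (fun n => ((Z n).res (G n)).ref (K n)) q pos t :=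
  ⟨m5, fun c hc T => (h.com c hc T).mono fun _ a ω hω => a ω (cE_sub hω),
    ⟨h.orb.fn.mono fun _ a u hu v hv e =>
      a u (cE_sub hu) v (cE_sub hv) (congrArg Prod.fst (Fl.atm_eq.1 e)),
      fun c hc T => (h.orb.nb c hc T).mono fun _ a ω hω => a ω (cE_sub hω)⟩,
    h.out.live, h.out.tau, h.out.wt,
    fun c hc T => (h.out.sp c hc T).mono fun _ a ω hω =>
      let k := a ω (cE_sub hω); ⟨k.chB, k.chA, k.chi, k.stab, k.sub, k.cur⟩,
    fun v hv c hc T => (h.out.cur v hv c hc T).mono fun _ a ω hω => a ω (cE_sub hω)⟩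

/-- The pair of labels is cheap over the datum of level zero. -/
theorem M5.cheap (h : M5 μ γ Z) :
    Sm (uu (sX Z)) fun n => ch (Z n).X.P (fun ω => ((Z n).S ω, (Z n).T ω)) ((Z n).X.S 0) :=
  fun ε hε => by
  filter_upwards [h.fl ε hε 0, h.m4.ts.loc (-1) 0 1 one_pos] with n a b
  have k := ch_det a.few
  rw [Real.log_exp] at k
  refine (ch_mono (F' := (Z n).d.T) fun u hu v hv e => ?_).trans (k.trans_eq (zero_add _).symm)
  have e1 : (Z n).d.T u = (Z n).d.T v := congrArg Prod.fst e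
  have e2 : (Z n).X.S 0 u = (Z n).X.S 0 v := congrArg Prod.snd e
  have e3 := congrArg Dc.h e2
  rw [(b.val' u hu).1, (b.val' v hv).1] at e3
  exact Prod.ext (Prod.ext e2 e1) (Prod.ext e1 (fl1_eq_of_le (b.mono (by norm_num)) e3))

theorem sp5_of (en : SEnt) (ok : SOk) (bf : SBF) (cl : SClo) (ac : SAcw) (co : SCom) (vh : SVH)
    (ob : SOrb) (sp : SSpl) (jt : SJt) (os : SOrbs) (fi : SFin) (st : Fl.SStart) (as : As.SAsf)
    (sc : Cp.SSclf) (hS : Ch.SChart) : SP5f := fun N E E' D k β₀ hβ => by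
  obtain ⟨C₁, c1, e1⟩ := en _ E E' D k
  obtain ⟨C₂, c2, e2⟩ := jt _ E E' D k β₀ hβ
  have c3 : (0 : ℝ) ≤ dV (N + 1) D := Nat.cast_nonneg _
  refine ⟨C₁ + C₂ + 2 * (dV (N + 1) D + 1), by linarith, fun η θ β js Γ kf sl X pa hb t1 => ?_⟩
  obtain ⟨m, kk, la, o, τ, S, C, L, Y, y⟩ := e1 η θ β js Γ kf sl X (pa.mono (by linarith)) t1
  obtain ⟨Hs, W, a⟩ := (ok m _ y.fm.ko).1
  obtain ⟨γ₀, d₀, f₀⟩ := st _ _ _ _ _ _ _ _ _ _ Hs W _ a y.ts.big (bf _ _ _ _ Y y)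
  obtain ⟨μ, γ₁, Z₁, mn, z1⟩ := ex_mn (Z := fun n => ⟨Y n, d₀ n⟩) ⟨y, f₀⟩ a.hm
  obtain ⟨Z₂, z2, h2⟩ := co _ _ _ _ Hs W μ γ₁ Z₁ a mn z1
  obtain ⟨Z₃, q₃, z3, h3, o3⟩ := ob _ _ _ _ Hs W μ γ₁ Z₂ k.zl (pa.mono (by linarith)) a mn.1 z2 h2
    (vh _ _ _ _ Hs W μ γ₁ Z₂ 0 a mn.1 z2 (by norm_num) le_rfl)
  obtain ⟨γ, Z, q, pos, t, g⟩ := sp _ _ _ _ Hs W μ γ₁ Z₃ q₃ a mn.1 z3 h3 o3
  obtain ⟨G, ν, tr, n1, n2, tp⟩ := e2 η θ β js Γ kf sl (sX Z) (pa.mono (by linarith)) hb g.m5.m4.ts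
  have z5 := (cl _ _ _ _ μ γ _ ((cl _ _ _ _ μ γ Z g.m5).1 G tr)).2 _ ν n1 fun ε hε =>
    n2.mono fun n b u hu => ⟨{ν n u}, by simpa using Real.one_le_exp (by positivity),
      fun v hv e => Finset.mem_singleton.2 (b v hv u hu (congrArg Prod.fst e))⟩
  have g5 := g.rr G ν z5
  let Z₅ := fun n => ((Z n).res (G n)).ref (ν n)
  obtain ⟨d, K, hK, fd, od⟩ := os _ _ _ _ Hs W μ γ Z₅ q pos t a mn.1 g5
    (vh _ _ _ _ Hs W μ γ Z₅ 0 a mn.1 z5 (by norm_num) le_rfl)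
    (vh _ _ _ _ Hs W μ γ Z₅ (-1) a mn.1 z5 le_rfl (by norm_num))
  obtain ⟨L₀, l0, aw⟩ := ac _ _ _ _ Hs W μ γ Z₅ a mn z5
  have top := Tq.top (X := sX Z₅) hS z5.m4.ts.big
    ((z5.m4.ts.loc (-1) 0 1 one_pos).mono fun _ b => b.mono (by norm_num))
    ((z5.m4.ts.loc (-1) 0 1 one_pos).mono fun _ b => b.val') tp o.pos hK od
    (T := fun n => (Z₅ n).T)
    (fd.mono fun n b u hu v hv e => Prod.ext
      (congrArg Prod.snd (Fl.atm_eq.1 (congrArg Prod.fst e))) (b u hu v hv (congrArg Prod.fst e)))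
    ((z5.fl 1 one_pos 0).mono fun n b u hu v hv e =>
      Prod.ext (b.fT u hu v hv e) (congrArg (·.2) e))
    (.of_forall fun n u _ v _ e => congrArg Prod.snd e) z5.cheap
  have w := sum_pos ⟨Hs, W, μ, γ, pos, t, L₀, L, β / 2, kf⟩ g.out.tau
  obtain ⟨s, s', dp, w5⟩ := as _ _ _ _ _ _ _ _ _ _ _ _ _ _ _ (fi _ _ _ _ Hs W L₀ μ γ Z₅ q pos t a mn.1
    (hβ.trans_le hb) l0 g5 aw fun ε hε => (top ε hε).mono fun n b => b.trans_eq (by
      simp only at w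
      rw [w, g.out.wt, add_comm _ lg, add_sub_add_left_eq_sub]))
  have q5 := z5.m4.ts
  refine ⟨_, _, _, _, _, _, _, _, _, _, fun n x => (Z₅ n).X.lv (x - 1), fun n => (Z₅ n).X.g.z,
    sc _ _ _ _ dp _ _ w5, q5.fa.toTwo, g.out.wt, fun _ _ _ _ => Iff.rfl,
    (q5.loc 0 0 1 one_pos).mono fun n b ω hω => (b.box ω hω).2.2,
    fun x x' e => (q5.loc _ _ 1 one_pos).mono fun n b => b.mono (sub_le_sub_right e 1),
    fun x x' ε hε => (q5.toTq.lev (x - 1) (x' - 1) hε).mono fun n b => ?_, fun n ω => ?_,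
    fun x x' e => q5.fa.fa _ _ (sub_le_sub_right e 1)⟩
  · push_cast at b
    rwa [sub_sub_sub_cancel_right] at b
  · change Real.exp (-(μ t * (Z₅ n).X.u)) * (Real.exp (lg * (Z₅ n).F.b) * _) = _
    rw [← mul_assoc, ← Real.exp_add, g.out.wt, z5.m4.hb n, sub_self]
    congr 2
    exact (neg_add_eq_sub _ _).trans (mul_sub _ _ _).symm

end Glue

theorem sp5f : SP5f :=
  sp5_of sEnt sOk sBF sClo sAcw sCom sVH sOrb sSpl sJt sOrbs (sFin_of sBF) Fl.sStart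
    (As.as_off Fl.rOut) Cp.sSclf Ch.sChart

end Pool.Agent.MP_5168f5_an.QA.P5.F
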