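import Pool.Agent.MP_4b405e_nt.SK.PickF
import Pool.Agent.MP_4b405e_nt.SK.P5C
import Pool.Agent.MP_5168f5_an.QA.Main1

/-! Sparse heights: from configurations to filtered systems. -/

namespace Pool.Agent.MP_5168f5_an.QA

open H19 H17S H17F MX Filter

theorem tq_of {N D E : ℕ} {X : ℕ → St N D} {η θ β js Γ : ℝ} {sl : ℕ → ℝ}
    (t : Tb X Set.univ η θ fun k x => sl k * x) (los : Los X Set.univ η fun x => β * x)
    (jpr : Jpr X Set.univ fun x => js * x) (lip : Lip X Set.univ Γ) (tig : Tig X Set.univ E)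
    (drift : θ * ∑ k ∈ Finset.range (dV N D + 1), |sl k| ≤ β / 8) : Tq X E η θ β js Γ sl :=
  ⟨t.big, drift, fun x x' ε hε => by
    filter_upwards [t.box, t.top x trivial, eventually_imp_distrib_left.2
      (t.mono x trivial x' trivial), t.lev x trivial x' trivial ε hε, t.val x trivial,
      t.val x' trivial, t.fn x trivial, t.opt x trivial ε hε, t.spec x trivial ε hε,
      los x trivial x' trivial ε hε, jpr x trivial ε hε, lip x trivial x' trivial ε hε,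
      tig x trivial ε hε] with n a1 a2 a3 a4 a5 a6 a7 a8 a9 b1 b2 b3 b4
    exact ⟨a1, a2, a3, a4, a5, a6, a7, a8, a9, b1, b2, by simpa only [add_mul] using b3, b4⟩⟩

theorem toT1f (hc : SChn) {N D : ℕ} (e1 : E1 N D) (e2 : E2 N D) (ex : EXT N D) (nj : NJ N D)
    {η' : ℝ} (h0 : 0 < η') (hn : Slf N η') :
    ∃ β₀ η₁ : ℝ, 0 < β₀ ∧ 0 < η₁ ∧ ∀ η θ₁ : ℝ, 0 < η → η ≤ η₁ → 0 < θ₁ →
    ∃ (θ β js Γ : ℝ) (kf : ℕ → ℕ) (sl : ℕ → ℝ) (X : ℕ → St N D), 0 ≤ θ ∧ θ ≤ θ₁ ∧ β₀ ≤ β ∧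
      T1g X η θ β js kf sl ∧ Lip X Set.univ Γ := by
  obtain ⟨C₁, c1, hc⟩ := hc N D e1 e2 ex nj
  have c0 : 0 < C₁ := by linarith
  set s := η' / 128 with hs
  have s0 : 0 < s := by positivity
  refine ⟨η' / 2 / 1000, min C₁⁻¹ (s / 2 / C₁), by positivity, by positivity,
    fun η θ₁ a1 a2 a3 => ?_⟩
  have t0 : 0 < min θ₁ (η ^ dV N D / C₁) := by positivity
  obtain ⟨I, hI⟩ := exists_nat_gt (8 * (C₁ + 2 * s) / s)
  have I0 : (0 : ℝ) < I := lt_trans (by positivity) hI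
  have v1 : 1 / (I + 1 : ℝ) ≤ 1 := div_le_one_of_le₀ (by linarith) (by positivity)
  obtain ⟨C, C0, hC⟩ := hc η _ s ⟨a1, (mul_le_mul_of_nonneg_left (a2.trans (min_le_left _ _))
    c0.le).trans_eq (mul_inv_cancel₀ c0.ne'), t0.le, (le_div_iff₀' c0).1 (min_le_right _ _)⟩ t0
    (by linarith [(le_div_iff₀' c0).1 (a2.trans (min_le_right _ _))]) (1 / (I + 1 : ℝ)) I
    (by positivity)
  obtain ⟨y, M, kf, hy, tw, fr, s4⟩ := hn
  obtain ⟨k, k1, k2⟩ := KSA.spill (fun k n => (k + 1) ^ (2 * I + 2) ≤ M n / kf n) fun k =>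
    tw.bU.eventually_ge_atTop _
  obtain ⟨ρ, hρ⟩ : ∃ ρ : ℕ → ℕ, ∀ n, ρ n = k n + 1 := ⟨_, fun _ => rfl⟩
  have ρ0 : ∀ n, 0 < ρ n := fun n => hρ n ▸ Nat.succ_pos _
  have ρ1 : ∀ n, (1 : ℝ) ≤ ρ n := fun n => by exact_mod_cast ρ0 n
  have ρ2 : Big ρ := tendsto_atTop_mono (fun n => (hρ n).ge.trans' (Nat.le_succ _)) k1
  obtain ⟨w, hw⟩ : ∃ w : ℕ → ℕ, ∀ n, w n = kf n * ρ n := ⟨_, fun _ => rfl⟩
  have w2 : Big w := tendsto_atTop_mono (fun n => hw n ▸ Nat.le_mul_of_pos_right _ (ρ0 n)) tw.bk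
  have pw : ∀ n {a b}, a < b → (ρ n : ℝ) * (w n * ρ n ^ a) ≤ w n * ρ n ^ b := fun n a b e => by
    rw [mul_left_comm, ← pow_succ']
    exact mul_le_mul_of_nonneg_left (pow_le_pow_right₀ (ρ1 n) e) (Nat.cast_nonneg _)
  let X : ℕ → ℕ → ℝ := fun n r => if r = 0 then 0 else (w n : ℝ) * ρ n ^ (2 * r)
  have x1 : ∀ n r, 0 ≤ X n r ∧ X n r ≤ (w n : ℝ) * ρ n ^ (2 * r) := fun n r => by
    simp only [X]; split_ifs <;> exact ⟨by positivity, by first | positivity | exact le_rfl⟩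
  have x2 : ∀ n, Pen.Ok (min θ₁ (η ^ dV N D / C₁)) (1 / (I + 1 : ℝ)) (X n) := fun n =>
    ⟨t0.le, by positivity, v1, rfl, monotone_nat_of_le_succ fun r => (x1 n r).2.trans
      (mul_le_mul_of_nonneg_left (pow_le_pow_right₀ (ρ1 n) (by omega)) (Nat.cast_nonneg _))⟩
  have ch : ∀ n, ∃ Y : Chn D (y n), C ≤ w n → 0 < w n → Y.M = M n ∧ Y.w = w n ∧
      Y.Ok η (min θ₁ (η ^ dV N D / C₁)) (1 / (I + 1 : ℝ)) s C (C₁ + 2 * s) (X n) I := fun n => by
    by_cases e : C ≤ w n ∧ 0 < w n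
    · exact (hC (y n) (M n) (w n) (X n) (hy.box n) (hy.triv n) (hy.sep n) e.2 e.1 (x2 n)).imp
        fun _ a _ _ => a
    · exact ⟨⟨Unit, 0, 0, fun _ _ => ⟨0, 0, 0⟩, fun _ _ => ()⟩, fun a b => absurd ⟨a, b⟩ e⟩
  choose Y hY using ch
  have n1 : (1 : ℝ) ≤ N + 1 := by linarith [Nat.cast_nonneg (α := ℝ) N]
  obtain ⟨θ, β, js, Γ, sl, Z, b1, b2, b3⟩ := sPkf N D y M (fun n => w n * ρ n ^ (2 * I)) w kf
    (fun _ => ∅) (fun _ _ => 0) Y (η' / 2) (s / (N + 1)) η _ _ s C (C₁ + 2 * s) X I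
    ⟨hy, .of_forall fun n => by rw [Finset.sum_empty]; positivity,
      fun _ => ⟨monotone_const, rfl⟩, .of_forall fun n => by positivity⟩ (fun δ hδ =>
      (fr δ hδ).mono fun n e a b h h' => (pb_mono fun ω _ z q => z (q a b h h')).trans e) tw.bk
    (sm_of ρ2 (.of_forall fun n => ⟨by positivity, by rw [hw]; push_cast; linarith⟩))
    (by positivity) (by positivity) s0.le C0 (by positivity) (by exact_mod_cast I0) (by
      filter_upwards [s4] with n a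
      simp only [Finset.card_empty, Nat.cast_zero, zero_mul, mul_zero, zero_add]
      nlinarith [Nat.cast_nonneg (α := ℝ) (M n)])
    (by
      have a : 1 / (I + 1 : ℝ) ≤ 1 / I := one_div_le_one_div_of_le I0 (by linarith)
      have b : 8 * (1 / I) * (C₁ + 2 * s) ≤ s := by
        rw [div_lt_iff₀ s0] at hI
        rw [mul_right_comm, mul_one_div, div_le_iff₀ I0]
        linarith
      rw [mul_div_cancel₀ _ (by positivity)]
      nlinarith [mul_le_mul_of_nonneg_right a (show 0 ≤ C₁ + 2 * s by positivity)])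
    w2 (sm_of ρ2 (k2.mono fun n a => ⟨by positivity, by
      have := (Nat.mul_le_mul_left (kf n) (a _ le_rfl)).trans (Nat.mul_div_le _ _)
      rw [← hρ] at this
      exact_mod_cast le_trans (le_of_eq (by rw [hw]; ring)) this⟩))
    (fun r hr => ⟨fun n => w n * ρ n ^ (2 * r + 1), sm_of ρ2 (.of_forall fun n =>
        ⟨by positivity, by simpa using pw n (Nat.succ_pos (2 * r))⟩),
      sm_of ρ2 (.of_forall fun n => ⟨(x1 n r).1, by
        push_cast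
        exact (mul_le_mul_of_nonneg_left (x1 n r).2 (by positivity)).trans
          (pw n (Nat.lt_succ_self _))⟩),
      fun A => ((ρ2.ev (A + 1)).and (w2.ev 1)).mono fun n a => by
        simp only [X, Nat.succ_ne_zero, if_false]
        push_cast
        refine lt_of_lt_of_le (mul_lt_mul_of_pos_right (by linarith [a.1]) ?_) (pw n (by omega))
        exact mul_pos (one_pos.trans_le a.2) (by have := ρ1 n; positivity),
      sm_of ρ2 (.of_forall fun n => ⟨by positivity, by push_cast; exact pw n (by omega)⟩)⟩)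
    (((w2.ev C).and (w2.eventually_gt_atTop 0)).mono fun n a => ⟨x2 n, hY n a.1 a.2⟩)
  exact ⟨θ, β, js, Γ, kf, sl, Z, b1, b2.trans (min_le_left _ _), b3⟩

theorem toTigf (N E D : ℕ) (t : TIG N E D) : ∃ C : ℝ, 1 ≤ C ∧ ∀ (η θ β js Γ : ℝ) (kf : ℕ → ℕ)
    (sl : ℕ → ℝ) (X : ℕ → St N D), Par N D C η θ → T1g X η θ β js kf sl → Lip X Set.univ Γ →
    ∃ X' : ℕ → St N D, T1f X' E η θ β js Γ kf sl := by
  obtain ⟨C, hC, t⟩ := t
  refine ⟨C, hC, fun η θ β js Γ kf sl X pa h l => ?_⟩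
  obtain ⟨C', c0, t⟩ := t η θ pa
  obtain ⟨G, g, e⟩ := ex_sure (P := PP X) (p := fun (x : ℚ) s n ω =>
    ((X n).S x ω).Tight (X n).M ((X n).lv x) ((X n).g.l ω) (s * (X n).u) ∧
      ((X n).S x ω).Low E (X n).M ((X n).lv x) ((X n).g.l ω) (s * (X n).u))
    (fun x s hs => whp_of_mean (p := fun s n ω =>
      ((X n).S x ω).Tight (X n).M ((X n).lv x) ((X n).g.l ω) (s * (X n).u) ∧
        ((X n).S x ω).Low E (X n).M ((X n).lv x) ((X n).g.l ω) (s * (X n).u))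
      h.tb.big c0 (fun ε hε => by
      filter_upwards [h.tb.box, h.tb.top x trivial, h.tb.val x trivial, h.tb.opt x trivial ε hε]
        with n a b c d
      exact (t _ _ _ _ _ _ _ a b c (by positivity) d).imp fun G k => ⟨fun ω hω => ⟨(k.1 ω hω).1,
        fun s z => ⟨(k.1 ω hω).2.1.mono (c ω hω).2.pos.le z, (k.1 ω hω).2.2.mono z⟩⟩, k.2⟩) hs)
    fun x s s' k => (h.tb.val x trivial).mono fun n c ω hω z =>
      have := mul_le_mul_of_nonneg_right k (X n).u.cast_nonneg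
      ⟨z.1.mono (c ω hω).2.pos.le this, z.2.mono this⟩
  obtain ⟨G', a, b, -, c⟩ := h.fa.sure g
  have p : Pos (PP X) G' := ⟨_, by norm_num, b⟩
  have d := R4.K31.dnS_cE p
  refine ⟨cnd X G', tq_of (h.tb.dn d) (h.los.dn h.tb.big d) (h.jpr.dn d) (l.dn d)
    (fun x _ ε hε => ?_) h.drift, c.toTwo, fun x x' k ε hε => Whp.of_ev (c.fa x x' k ε hε)⟩
  filter_upwards [e x ε hε, p.sure] with n u v ω hω
  have z := And.intro (v ω hω).1 (a n ω (v ω hω).2)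
  exact u ω ((mem_cE ⟨ω, z⟩ ω).2 z)

theorem noSlf_of' (e1 : SE1) (e2 : SE2) (c1 : SCnt) (c2 : SCntF) (bl : BlkF) (og : SOpG)
    (fi : OfFill) (ti : OfTig) (ex : OfExt) (nj : OfNJ) (hc : SChn) (en : SP5f) (no : NoPGf) :
    NoSlf := by
  intro N η₀ h0 h
  cases N with
  | zero =>
    obtain ⟨y, M, kf, pd, -, -, s⟩ := h
    obtain ⟨n, a, b⟩ := (s.and (pd.big.ev 1)).exists
    have : mu (y n) (M n) ≤ 0 := (ch_zero fun _ _ _ _ _ => Subsingleton.elim _ _).le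
    nlinarith
  | succ N =>
    obtain ⟨E, E₀, D₁, a1, -, a2⟩ := bl (N + 1)
    obtain ⟨D, d0, d1⟩ : ∃ D, D₁ ≤ D ∧ E + E₀ * E ≤ D := ⟨_, le_max_left _ _, le_max_right _ _⟩
    obtain ⟨a3, a4, a5⟩ := a2 D d0
    have b1 : E ≤ E + E₀ * E := Nat.le_add_right _ _
    have f := fi _ E E₀ D a3
    have t := ti og _ E D a4
    have j := nj _ E _ D (b1.trans d1) (c1 _ _) f t
    obtain ⟨β₀, η₁, p1, p2, p3⟩ := toT1f hc (e1 _ _ (a1.trans (b1.trans d1))) (e2 _ _)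
      (ex _ E _ D (b1.trans d1) (c1 _ _) f t) j h0 h
    obtain ⟨C, q1, q2⟩ := toTigf _ E D t
    obtain ⟨C', r1, r2⟩ :=
      en N E _ D ⟨a1, b1, d1, c1 _ _, c2 _ _, f, t, j, ⟨E₀, a3⟩, a4, a5⟩ β₀ p1
    have k0 : 0 < C + C' := by linarith
    have h1 : 0 < min η₁ (C + C')⁻¹ := lt_min p2 (inv_pos.2 k0)
    obtain ⟨θ, β, js, Γ, kf, sl, X, s1, s2, s3, s4, s5⟩ := p3 _
      ((min η₁ (C + C')⁻¹) ^ dV (N + 1) D / (C + C')) h1 (min_le_left _ _) (by positivity)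
    have pa : Par (N + 1) D (C + C') (min η₁ (C + C')⁻¹) θ :=
      ⟨h1, (mul_le_mul_of_nonneg_left (min_le_right _ _) k0.le).trans_eq (mul_inv_cancel₀ k0.ne'),
        s1, by rwa [le_div_iff₀ k0, mul_comm] at s2⟩
    obtain ⟨X', u⟩ := q2 _ θ β js Γ kf sl X (pa.mono (by linarith)) s4 s5
    obtain ⟨ι, κ, α, _, _, _, _, _, σ, Y, lv, zz, z⟩ :=
      r2 _ θ β js Γ kf sl X' (pa.mono (by linarith)) s3 u
    exact no ι κ α σ Y lv zz z

/-- No filtered systems with sparse heights, so no configurations with sparse heights. -/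
theorem noSlf_of (no : NoPGf) : NoSlf :=
  noSlf_of' sE1 sE2 sCnt sCntF blkF sOpG ofFill ofTig ofExt ofNJ sChn P5.F.sp5f no

end Pool.Agent.MP_5168f5_an.QA
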