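import Pool.Agent.MP_4b405e_nt.SK.FDefs
import Pool.Agent.MP_5168f5_an.QA.As
import Pool.Agent.MP_5168f5_an.QA.W5

/-! Sparse heights: the filtered system. -/

namespace Pool.Agent.MP_5168f5_an.QA

namespace Cp

open H19 H17S H17F R4 AN Filter Matrix
open GA (Mt IsFr Nr Wd br sB sC)

variable {ι κ α : Type} [Fintype ι] [DecidableEq ι] [Fintype κ] [DecidableEq κ]

namespace Pd

variable (σ : Cs ι κ α) (X : Pd ι κ α) [Fintype α]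

/-- Anti-concentration of pairs inside a piece of depth `x`. -/
def Acf (k : ℕ) (x : ℚ) (u : ℝ) : Prop := ∀ ω ∈ X.P.S, ∀ (h : ℝ) (φ : κ → ℝ) (E : X.Ω → Prop),
  (∀ b, (σ.μ b = 0 → φ b = 0) ∧ |φ b| ≤ Real.exp ((σ.μ b * x + σ.g * (1 - x)) * X.M - h - u)) →
  (∃ i, Real.exp (σ.η i * (x * X.M)) ≤ |φ ⬝ᵥ X.A ω i|) →
  (∀ v ∈ X.P.S, ∀ v' ∈ X.P.S, X.O x v = X.O x ω → X.O x v' = X.O x ω → E v → E v' →
    |φ ⬝ᵥ X.t v v'| ≤ Real.exp (-h)) →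
  pb (cv X.P (X.O x) (X.O x ω)) E ≤ Real.exp ((u - h / σ.L₁) / k)

variable (Y : X.Ω → X.Ω → α → ℝ)

/-- Anti-concentration of the coefficients inside a piece of depth `x`, up to the depth `w`. -/
def Ac5f (k : ℕ) (x : ℚ) (u w : ℝ) : Prop := ∀ ω ∈ X.P.S, ∀ (h : ℝ) (l : α → ℝ) (E : X.Ω → Prop),
  h ≤ w → (∀ i, X.A ω i = 0 → l i = 0) → (∃ i, 1 ≤ |l i|) →
  (∀ v ∈ X.P.S, ∀ v' ∈ X.P.S, X.O x v = X.O x ω → X.O x v' = X.O x ω → E v → E v' →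
    |∑ i, l i * (Real.exp (-(σ.η i * ((1 - x) * X.M))) * Y v v' i)| ≤ Real.exp (-h)) →
  pb (cv X.P (X.O x) (X.O x ω)) E ≤ Real.exp ((u - h / σ.L₁) / k)

end Pd

section Seq

variable [Fintype α] (σ : Cs ι κ α) (X : ℕ → Pd ι κ α)

/-- The filtered system without the heights. -/
structure Pre0 : Prop where
  big : Big (sM X)
  g0 : 0 < σ.g
  l0 : 0 < σ.L₀
  l1 : 0 < σ.L₁
  be0 : 0 < σ.be
  wt : ∀ a, σ.μ a = 0 ∨ σ.g ≤ σ.μ a
  et : ∀ i, 0 < σ.η i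
  live : ∀ a, σ.pos a → 0 < σ.μ a
  tau : σ.pos σ.τ
  nest : ∀ x x' : ℚ, 0 ≤ x → x ≤ x' → x' ≤ 1 →
    FnE (sP X) (fun n => (X n).z x) fun n => (X n).z x'
  zT : FnE (sP X) (fun n => (X n).z 0) fun n => (X n).T
  zS : FnE (sP X) (fun n => (X n).z 1) fun n => (X n).S
  tS : FnE (sP X) (fun n => (X n).T) fun n => (X n).S
  tO : FnE (sP X) (fun n => (X n).T) fun n => (X n).O 0
  fB : FnE (sP X) (fun n ω => ((X n).B ω, (X n).c ω)) fun n => (X n).T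
  fA : FnE (sP X) (fun n => (X n).A) fun n => (X n).O 0
  alg : Ev X fun n u => ∀ ω ∈ (X n).P.S, (X n).Alg σ u ω
  cur : ∀ w : Wd α, 2 ≤ w.len → Ev X fun n => (X n).Cur σ w
  near : Ev X fun n => (X n).Near σ
  inc : ∀ x : ℚ, 0 ≤ x → x ≤ 1 → Ev X fun n => (X n).Inc σ x
  ac : ∀ x : ℚ, 0 ≤ x → x ≤ 1 → Ev X fun n => (X n).Acf σ (σ.kf n) x
  tt : Ev X fun n => (X n).Tt σ
  top : Le (sM X) (fun n => mi (X n).P (X n).l (X n).S (X n).T) fun n => (σ.m - σ.be) * (X n).M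
  acw : Acw σ X

/-- The windows are the dyadic intervals of a height `zz` whose binary digits are sparse. -/
structure Hgt (lv : ℕ → ℚ → ℕ) (zz : ∀ n, (X n).Ω → ℝ) : Prop extends Two σ.kf (sM X) where
  wt : σ.μ σ.τ = lg
  hz : ∀ n x ω v, (X n).z x ω = (X n).z x v ↔ fl1 (lv n x) (zz n ω) = fl1 (lv n x) (zz n v)
  bx : ∀ᶠ n in UF, ∀ ω ∈ (X n).P.S, 0 ≤ zz n ω ∧ zz n ω < 1
  mono : ∀ x x' : ℚ, x ≤ x' → ∀ᶠ n in UF, lv n x ≤ lv n x'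
  lev : ∀ x x' : ℚ, Ev X fun n u => |(lv n x' : ℝ) - lv n x - (x' - x) * (X n).M| ≤ u
  zt : ∀ n ω, (X n).zt ω = Real.exp (lg * (lv n 1 - (X n).M)) * zz n ω
  fa : ∀ x x' : ℚ, x ≤ x' → ∀ ε : ℝ, 0 < ε → ∀ᶠ n in UF, ∀ ω ∈ (X n).P.S,
    MX.cm (X n).P ((X n).O x) ((X n).O x') ω ≤ Real.exp (ε * sU σ.kf (sM X) n) *
      bw (σ.kf n : ℝ)⁻¹ (lv n x) (lv n x') (zz n ω)

/-- The filtered system with sparse heights. -/
structure PreGf (lv : ℕ → ℚ → ℕ) (zz : ∀ n, (X n).Ω → ℝ) : Prop extends Pre0 σ X where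
  hg : Hgt σ X lv zz

end Seq

section Seq5

variable [Fintype α] (σ : Cs ι κ α) (dp : κ → ℝ) (X : ℕ → Pd ι κ α)
  (Y : ∀ n, (X n).Ω → (X n).Ω → α → ℝ)

/-- The filtered system in the unscaled basis: the unit box is the box of depth one. The depths
`dp` extend the weights to the dead indices. -/
structure W5f : Prop where
  big : Big (sM X)
  g0 : 0 < σ.g
  l0 : 0 < σ.L₀
  l1 : 1 ≤ σ.L₁
  be0 : 0 < σ.be
  wt : ∀ a, σ.μ a = 0 ∨ σ.g ≤ σ.μ a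
  et : ∀ i, 0 < σ.η i
  live : ∀ a, σ.pos a → 0 < σ.μ a
  tau : σ.pos σ.τ
  gp : ∀ a b e, 0 < σ.μ a → 0 < σ.μ b → σ.μ a + σ.μ b < σ.μ e → σ.μ a + σ.μ b + σ.g ≤ σ.μ e
  ge : ∀ i b, σ.η i < σ.μ b → σ.η i + σ.g ≤ σ.μ b
  d1 : ∀ a, 0 < σ.μ a → dp a = σ.μ a
  d0 : ∀ a b, σ.μ a = 0 → dp a + σ.μ b + σ.g ≤ 0
  nest : ∀ x x' : ℚ, 0 ≤ x → x ≤ x' → x' ≤ 1 →
    FnE (sP X) (fun n => (X n).z x) fun n => (X n).z x'
  zT : FnE (sP X) (fun n => (X n).z 0) fun n => (X n).T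
  zS : FnE (sP X) (fun n => (X n).z 1) fun n => (X n).S
  tS : FnE (sP X) (fun n => (X n).T) fun n => (X n).S
  tO : FnE (sP X) (fun n => (X n).T) fun n => (X n).O 0
  fB : FnE (sP X) (fun n ω => ((X n).B ω, (X n).c ω)) fun n => (X n).T
  fA : FnE (sP X) (fun n => (X n).A) fun n => (X n).O 0
  alg : Ev2 X fun n u δ => ∀ ω ∈ (X n).P.S, (X n).Al5 σ dp u δ ω
  cur : ∀ w : Wd α, 2 ≤ w.len → Ev2 X fun n _ δ => ∀ ω ∈ (X n).P.S, ∀ b, σ.pos b →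
    |w.ev (br (hc σ.μ ((X n).c ω))) ((X n).ah σ ω) b| ≤ δ
  near : Ev2 X fun n => (X n).Nr5 σ
  inc : ∀ x : ℚ, 0 ≤ x → x ≤ 1 → Ev2 X fun n => (X n).In5 σ (Y n) x
  ac : ∀ x : ℚ, 0 ≤ x → x ≤ 1 → ∀ T : ℝ,
    Ev X fun n u => (X n).Ac5f σ (Y n) (σ.kf n) x u (T * (X n).M)
  tt : Ev X fun n u => ∀ ω ∈ (X n).P.S, ∀ v ∈ (X n).P.S, (X n).O 0 ω = (X n).O 0 v →
    |(X n).t ω v σ.τ - ((X n).zt v - (X n).zt ω)| ≤ Real.exp u
  top : Le (sM X) (fun n => mi (X n).P (X n).l (X n).S (X n).T) fun n => (σ.m - σ.be) * (X n).M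
  acw : Acw σ fun n => (X n).hom σ

end Seq5

/-- Rescaling gives the filtered system. -/
def SSclf : Prop := ∀ (ι κ α : Type) [Fintype ι] [DecidableEq ι] [Fintype κ] [DecidableEq κ]
  [Fintype α] (σ : Cs ι κ α) (dp : κ → ℝ) (X : ℕ → Pd ι κ α)
  (Y : ∀ n, (X n).Ω → (X n).Ω → α → ℝ), W5f σ dp X Y → Pre0 σ fun n => (X n).scl σ dp

namespace Nm5

variable {σ : Cs ι κ α} {dp : κ → ℝ} {K u M : ℝ} {X : Pd ι κ α} [Fintype α]
  {Y : X.Ω → X.Ω → α → ℝ} {x : ℚ}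

theorem acf {kf : ℕ} (h : Nm5 σ dp K) (l1 : 1 ≤ σ.L₁) (u0 : 0 ≤ u) (x0 : 0 ≤ x) (x1 : x ≤ 1)
    (c : (Fintype.card α + 1 : ℝ) ≤ Real.exp u) (c' : (Fintype.card κ + 1 : ℝ) ≤ Real.exp u)
    (c2 : 2 ≤ Real.exp u) (k : ∀ ω ∈ X.P.S, X.Al5 σ dp u (Real.exp (-(9 * K * X.M))) ω)
    (fA : Fn X.P X.A (X.O x)) (k1 : X.In5 σ Y x u (Real.exp (-(9 * K * X.M))))
    (k2 : X.Ac5f σ Y kf x u (σ.g * X.M)) : (X.scl σ dp).Acf σ kf x (5 * u) := by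
  intro ω hω r φ E p1 ⟨i, p2⟩ p3
  have M0 : (0 : ℝ) ≤ X.M := Nat.cast_nonneg _
  have x0' : (0 : ℝ) ≤ x := by exact_mod_cast x0
  have q1 : |0 + ∑ b, φ b * X.ah σ ω i b| ≤ Real.exp (u + ((σ.η i * x + σ.g * (1 - x)) * X.M -
      r - 5 * u + u)) := sum_le c' (by rw [abs_zero]; positivity) fun b => by
    unfold Pd.ah
    split_ifs with q
    · exact mul_le (q ▸ (p1 b).2) ((k ω hω).bA i b)
    · rw [mul_zero, abs_zero]; positivity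
  rw [zero_add] at q1
  have q2 := Real.exp_le_exp.1 (p2.trans q1)
  have a := k2 ω hω (r - u) (fun i => Real.exp (-(σ.η i * (x * X.M))) * (φ ⬝ᵥ X.ah σ ω i)) E
    (by nlinarith [mul_nonneg h.g0.le (mul_nonneg x0' M0)])
    (fun i q => by
      have : X.ah σ ω i = 0 := funext fun b => by simp [Pd.ah, q]
      rw [this, dotProduct_zero, mul_zero])
    ⟨i, by
      rw [abs_mul, Real.abs_exp, Real.exp_neg, le_inv_mul_iff₀ (Real.exp_pos _), mul_one]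
      exact p2⟩ fun v hv v' hv' o1 o2 e1 e2 => by
    obtain ⟨b1, b2, b3⟩ := k1 v hv v' hv' (o1.trans o2.symm)
    have b4 := h.inc u0 x0 x1 c (k v hv) b1 b2 b3
    have b5 : X.ah σ v = X.ah σ ω := by
      funext i b
      rw [Pd.ah, Pd.ah, fA v hv ω hω o1]
    have e : ∑ i, Real.exp (-(σ.η i * (x * X.M))) * (φ ⬝ᵥ X.ah σ ω i) *
        (Real.exp (-(σ.η i * ((1 - x) * X.M))) * Y v v' i) = φ ⬝ᵥ (X.scl σ dp).t v v' +
        ∑ b, -φ b * ((X.scl σ dp).t v v' b - ∑ i, Real.exp (-(σ.η i * ((1 - x) * X.M))) *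
          Y v v' i * Real.exp (-(σ.η i * (x * X.M))) * X.ah σ v i b) := by
      simp only [b5, dotProduct, neg_mul, mul_sub, Finset.sum_neg_distrib, Finset.sum_sub_distrib,
        Finset.mul_sum, Finset.sum_mul]
      rw [Finset.sum_comm, sub_neg_eq_add, ← add_assoc, add_neg_cancel, zero_add]
      exact Finset.sum_congr rfl fun _ _ => Finset.sum_congr rfl fun _ _ => by ring
    rw [e, neg_sub, sub_eq_add_neg]
    refine sum_le c' (p3 v hv v' hv' o1 o2 e1 e2) fun b => ?_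
    rcases h.or b with m | m
    · rw [(p1 b).1 m, neg_zero, zero_mul, abs_zero]; positivity
    · exact (mul_le ((abs_neg _).trans_le (p1 b).2) ((b4 b).2 m)).trans
        (Real.exp_le_exp.2 (by linarith))
  refine a.trans (Real.exp_le_exp.2 (div_le_div_of_nonneg_right ?_ (Nat.cast_nonneg _)))
  rw [sub_div]
  linarith [div_le_self u0 l1]

end Nm5

theorem sSclf : SSclf := by
  intro ι κ α _ _ _ _ _ σ dp X Y h
  obtain ⟨K1, k1⟩ := Finite.exists_le fun a : κ ⊕ κ ⊕ α ⊕ Unit =>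
    a.elim (fun a => -dp a) (Sum.elim σ.μ (Sum.elim σ.η fun _ => σ.g))
  have N : Nm5 σ dp K1 := ⟨h.g0, h.wt, h.et, h.live, h.tau, h.gp, h.ge, h.d1, h.d0,
    k1 (.inr (.inr (.inr ()))), fun a => ⟨neg_le.1 (k1 (.inl a)), k1 (.inr (.inl a))⟩,
    fun i => k1 (.inr (.inr (.inl i)))⟩
  have p : ∀ {ε : ℝ}, 0 < ε → ∀ n, 0 ≤ ε * (X n).M := fun hε n => by positivity
  have cd : ∀ {ε : ℝ}, 0 < ε → ∀ C : ℕ, ∀ᶠ n in UF, (C + 1 : ℝ) ≤ Real.exp (ε * (X n).M) :=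
    fun hε C => (h.big.sub (le_add_of_nonneg_left (Nat.cast_nonneg C))).2 _ hε
  refine ⟨h.big, h.g0, h.l0, one_pos.trans_le h.l1, h.be0, h.wt, h.et, h.live, h.tau, h.nest, h.zT,
    h.zS, h.tS, h.tO, h.fB.mono fun n a ω hω v hv e => ?_, h.fA.mono fun n a ω hω v hv e => ?_,
    fun ε hε => (h.alg ε _ hε).mono fun n a ω hω => N.alg (p hε n) (a ω hω),
    fun w hw ε hε => (h.cur w hw ε σ.g hε).mono fun n a ω hω b hb => ?_,
    fun ε hε => (h.near ε _ hε).mono fun n a => N.near (p hε n) a, fun x x0 x1 ε hε => ?_,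
    fun x x0 x1 ε hε => ?_, fun ε hε => ?_, h.top,
    fun x r C β K Ps L a1 a2 a3 a4 a5 a6 a7 a8 => h.acw x r C β K Ps L a1 a2 a3 a4 a5 a6 a7
      (a8.mono fun n a ω hω => ?_)⟩
  · have := Prod.mk.inj (a ω hω v hv e)
    simp only [this.1, this.2]
  · funext i b
    simp only [Pd.ah, a ω hω v hv e]
  · change |w.ev (br (hc σ.μ (sC _ _))) _ b| ≤ _
    rw [N.hc_sC]
    exact (a ω hω b hb).trans (Real.exp_le_exp.2 (by linarith [p hε n]))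
  · have e : 0 < ε / 3 := by positivity
    filter_upwards [h.alg _ (9 * K1) e, h.inc x x0 x1 _ (9 * K1) e, cd e (Fintype.card α)] with
      n a b c ω hω v hv o
    obtain ⟨b1, b2, b3⟩ := b ω hω v hv o
    have b4 := N.inc (p e n) x0 x1 c (a ω hω) b1 b2 b3
    rw [show 3 * (ε / 3 * ((X n).M : ℝ)) = ε * (X n).M by ring] at b4
    refine ⟨b1.trans ?_, fun i => Real.exp (-(σ.η i * ((1 - x) * (X n).M))) * Y n ω v i,
      fun i => (Nm5.mul_le (Real.abs_exp _).le (b2 i)).trans (Real.exp_le_exp.2 ?_), b4⟩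
    · rw [GA.GAFrA.ex_div fun a => Real.exp_pos (dp a * (X n).M),
        ← funext (Nm5.t_scl (a ω hω) b1)]
    · linarith [p e n]
  · have e : 0 < ε / 5 := by positivity
    filter_upwards [h.alg _ (9 * K1) e, h.inc x x0 x1 _ (9 * K1) e, cd e (Fintype.card α),
      cd e (Fintype.card κ), cd e 1, h.ac x x0 x1 σ.g _ e, h.fA, h.nest 0 x le_rfl x0 x1] with
      n a b c c' c2 d f g
    have := N.acf h.l1 (p e n) x0 x1 c c' (by norm_num at c2; exact c2) a (fun ω hω v hv o =>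
      f ω hω v hv (Prod.ext (Prod.mk.inj o).1 (g ω hω v hv (Prod.mk.inj o).2))) b d
    rwa [show 5 * (ε / 5 * ((X n).M : ℝ)) = ε * (X n).M by ring] at this
  · filter_upwards [h.alg _ 1 hε, h.inc 0 le_rfl zero_le_one _ 1 hε, h.tt ε hε] with
      n a b c ω hω v hv o
    rw [Nm5.t_scl (a ω hω) (b ω hω v hv o).1, N.d1 _ (N.live _ N.tau), ← mul_sub, Real.exp_neg,
      inv_mul_eq_div, ← sub_div]
    exact Nm5.div_le (c ω hω v hv o) le_rfl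
  · have := a ω hω
    unfold Pd.da at this ⊢
    rwa [N.hc_sC] at this

end Cp

namespace As

open H19 H17S H17F R4 AN Filter Finset Matrix
open GA (Mt Wd lg br ex IsFr)
open PA (Pr sP sM sO)
open LC (Au ex_le)
open Cp (Hw hc Cs Pd)
open Fl (Sg Bd Fd blk BF FL ACW One Lw ROut)

variable {ι κ α κ' : Type} [Fintype ι] [DecidableEq ι] [Fintype κ] [DecidableEq κ] [Fintype α]

/-- Anti-concentration of the coefficients in the pieces of the level `x`. -/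
def Acf {Ω Λ Θ Ξ : Type} (σ : Sg ι κ α) (b : Bd ι κ α Ω Θ Ξ) (X : Pr κ' Ω Λ) (k : ℕ) (L : ℝ)
    (x : ℚ) (u w : ℝ) : Prop := ∀ ω ∈ X.P.S, ∀ (h : ℝ) (l : α → ℝ) (E : Ω → Prop), h ≤ w →
  (∀ i, b.H ω i = 0 → l i = 0) → (∃ i, 1 ≤ |l i|) →
  (∀ v ∈ X.P.S, ∀ v' ∈ X.P.S, X.O x v = X.O x ω → X.O x v' = X.O x ω → E v → E v' →
    |∑ i, l i * (Real.exp (σ.η i * (x * X.M)) * b.y v v' i)| ≤ Real.exp (-h)) →
  pb (X.fb x ω) E ≤ Real.exp ((u - h / L) / k)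

section

variable {Ω L Z Θ Ξ : ℕ → Type} (σ : Sg ι κ α) (b : ∀ n, Bd ι κ α (Ω n) (Θ n) (Ξ n)) (k : Kc κ)
  (X : ∀ n, Pr κ' (Ω n) (L n × Z n)) (d : ∀ n, Fd ι κ α (Ω n)) (zt : ∀ n, Ω n → ℝ)

/-- The last member. -/
structure Fin5f : Prop where
  ok : σ.Ok k.Hs k.W
  hμ : ∀ a, k.μ a ∈ k.Hs
  big : Big (sM X)
  l0 : 0 < k.L₀
  l1 : 1 ≤ k.L₁
  be0 : 0 < k.be
  live : ∀ a, k.pos a → 0 < k.μ a
  tau : k.pos k.ta
  line : ∀ n x ω, ((X n).O x ω).1 = ((X n).O 0 ω).1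
  nest : ∀ x x' : ℚ, x ≤ x' →
    FnE (sP X) (fun n ω => ((X n).O x ω).2) fun n ω => ((X n).O x' ω).2
  zS : FnE (sP X) (fun n ω => ((X n).O 0 ω).2) fun n => (b n).S
  bf : BF σ b X
  fl : FL σ b k.μ k.γ X d
  acw : ACW σ b k.μ k.L₀ X d
  spl : Au (sM X) fun n u w => ∀ ω ∈ (X n).P.S,
    Sp k.μ σ.η k.pos k.ta ((d n).c σ ω) ((d n).A ω) u w
  cur : ∀ v : Wd α, 2 ≤ v.len → ∀ K : ℝ, ∀ᶠ n in UF, ∀ ω ∈ (X n).P.S, ∀ e, k.pos e →
    |v.ev (br (hc k.μ ((d n).c σ ω))) (fun i => blk k.μ (σ.η i) ((d n).A ω i)) e| ≤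
      Real.exp (-(K * (X n).M))
  ac : ∀ x : ℚ, -1 ≤ x → x ≤ 0 → Au (sM X) fun n => Acf σ (b n) (X n) (k.kf n) k.L₁ x
  tt : ∀ ε : ℝ, 0 < ε → ∀ᶠ n in UF, ∀ ω ∈ (X n).P.S, ∀ v ∈ (X n).P.S,
    (X n).O (-1) ω = (X n).O (-1) v → |lg ((d n).B σ ω) ((d n).G σ (b n) ω) ((d n).G σ (b n) v)
      k.ta - (zt n v - zt n ω)| ≤ Real.exp (ε * (X n).M)
  top : Le (sM X) (fun n => mi (X n).P (fun ω => ((X n).O 0 ω).1)
    (fun ω => ((b n).S ω, (d n).T ω)) fun ω => ((d n).T ω, ((X n).O (-1) ω).2))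
    fun n => (k.m - k.be) * (X n).M

end

/-- The last member gives the filtered system. -/
def SAsf : Prop := ∀ (ι κ α κ' : Type) [Fintype ι] [DecidableEq ι] [Fintype κ] [DecidableEq κ]
  [Fintype α] (Ω L Z Θ Ξ : ℕ → Type) (σ : Sg ι κ α) (b : ∀ n, Bd ι κ α (Ω n) (Θ n) (Ξ n))
  (k : Kc κ) (X : ∀ n, Pr κ' (Ω n) (L n × Z n)) (d : ∀ n, Fd ι κ α (Ω n)) (zt : ∀ n, Ω n → ℝ),
  Fin5f σ b k X d zt → ∃ (g L₁ : ℝ) (dp : κ → ℝ),
    Cp.W5f ⟨σ.Φ, k.μ, σ.η, k.pos, k.ta, g, L₁, k.L₁, k.be, k.kf⟩ dp (pd σ b X d zt) fun n => (b n).y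

variable {Ω L Z Θ Ξ : ℕ → Type} {σ : Sg ι κ α} {b : ∀ n, Bd ι κ α (Ω n) (Θ n) (Ξ n)} {k : Kc κ}
  {X : ∀ n, Pr κ' (Ω n) (L n × Z n)} {d : ∀ n, Fd ι κ α (Ω n)} {zt : ∀ n, Ω n → ℝ}

theorem Fin5f.O (h : Fin5f σ b k X d zt) (n : ℕ) (x : ℚ) :
    (pd σ b X d zt n).O x = (X n).O (x - 1) := funext fun ω => Prod.ext (h.line n _ ω).symm rfl

theorem Fin5f.ne (h : Fin5f σ b k X d zt) {x x' : ℚ} (e : x ≤ x') : FnE (sP X) (sO X x) (sO X x') :=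
  (h.nest x x' e).mono fun n a u hu v hv z => Prod.ext
    ((h.line n x u).trans ((h.line n x' u).symm.trans ((congrArg Prod.fst z).trans
      ((h.line n x' v).trans (h.line n x v).symm))))
    (a u hu v hv (congrArg Prod.snd z))

theorem as_off (hO : ROut) : SAsf := fun ι κ α κ' _ _ _ _ _ Ω L Z Θ Ξ σ b k X d zt h => by
  have m0 : ∀ a, 0 ≤ k.μ a := fun a => (h.ok.bd _ (h.hμ a)).1
  obtain ⟨g, g0, hg⟩ := ex_gap (J := κ ⊕ κ × κ × κ ⊕ α × κ) (Sum.elim k.μ (Sum.elim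
    (fun p => k.μ p.2.2 - (k.μ p.1 + k.μ p.2.1)) fun p => k.μ p.2 - σ.η p.1))
  obtain ⟨L₁, l1, hA⟩ := Fl.sAcw' ι κ α κ' Ω _ Θ Ξ σ b k.L₀ k.μ X d m0 h.big h.l0 h.acw
  have mW : ∀ a, k.μ a + g ≤ k.W + g := fun a => add_le_add (h.ok.bd _ (h.hμ a)).2 le_rfl
  have O0 : ∀ n, (pd σ b X d zt n).O 0 = (X n).O (-1) := fun n => by rw [h.O, zero_sub]
  have fl := h.fl 1 one_pos 0
  have lo := fun {x : ℚ} (x1 : -1 ≤ x) (x0 : x ≤ 0) =>
    lg_out hO h.ok h.hμ h.big h.bf h.fl x1 x0 (h.ne x1)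
  have l1' := lo le_rfl (by norm_num)
  refine ⟨g, L₁, dpt k.μ k.γ (k.W + g), h.big, g0,
    l1, h.l1, h.be0, fun a => (m0 a).eq_or_lt.imp Eq.symm (hg (.inl a)), h.ok.eta, h.live, h.tau,
    fun a a' e _ _ z => ?_, fun i a z => ?_, fun a z => if_pos z, fun a a' z => ?_,
    fun x x' _ e _ => h.nest _ _ (sub_le_sub_right e 1), .of_forall fun n => ?_, ?_, ?_, ?_, ?_, ?_,
    fun ε K hε => ?_, fun v hv ε K _ => h.cur v hv K, fun ε K hε => ?_, fun x x0 x1 ε K hε => ?_,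
    fun x x0 x1 T ε hε => ?_, fun ε hε => ?_, h.top,
    fun x r C β K Ps R x0 x1 r0 sR f1 _ f3 gd => ?_⟩
  · have := hg (.inr (.inl (a, a', e))) (sub_pos.2 z)
    simp only [Sum.elim_inr, Sum.elim_inl] at this ⊢
    linarith
  · have := hg (.inr (.inr (i, a))) (sub_pos.2 z)
    simp only [Sum.elim_inr] at this ⊢
    linarith
  · have := dpt_dead (μ := k.μ) (γ := k.γ) (K := k.W + g) (a := a) (by linarith [mW a, m0 a])
      (fun y => y.ne' z)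
    simp only
    linarith [mW a']
  · simp only [zero_sub]
    exact Fn.snd _ _
  · simp only [sub_self]
    exact h.zS.mono fun n a => a.left _
  · filter_upwards [h.zS, h.nest (-1) 0 (by norm_num)] with n a1 a2
    exact (Fn.snd _ _).pair ((a2.trans a1).left _)
  · filter_upwards [fl] with n a
    rw [O0]
    exact a.fT.pair (Fn.comp Prod.snd _)
  · filter_upwards [fl] with n a
    exact ((Fn.comp (fun p => (GA.mB p.1 σ.B, GA.mC p.1 p.2 σ.c)) _).trans a.fU).left _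
  · filter_upwards [fl] with n a
    rw [O0]
    exact (Fn.comp Prod.snd _).trans a.fk
  · filter_upwards [h.fl ε hε K, l1' ε hε K, h.spl ε hε K] with n a1 a2 a3 ω hω
    exact ⟨(a2 ω hω ω hω).unit, fr_d h.ok.fr a1.toCm hω, a1.bc ω hω, a1.bA ω hω, (a3 ω hω).long,
      fun a a' e z => a1.fil ω hω a a' e (dpt_lw m0 (fun a => by linarith [mW a]) z),
      (a3 ω hω).sub, (a3 ω hω).chi, a1.low ω hω, (a3 ω hω).cur⟩
  · filter_upwards [l1' ε hε K] with n a ω hω v hv e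
    obtain ⟨e1, e2⟩ := Prod.mk.inj e
    obtain ⟨t1, t2⟩ := (a ω hω v hv).mate e2
    exact ⟨t1, fun a => ⟨(t2 a).2.2 e1, (t2 a).2.1⟩⟩
  · have y1 : -1 ≤ x - 1 := by linarith
    have y0 : x - 1 ≤ 0 := by linarith
    filter_upwards [lo y1 y0 ε hε K, h.bf _ y1 y0 ε hε K] with n a1 a2 ω hω v hv e
    rw [h.O] at e
    obtain ⟨t1, t2⟩ := (a1 ω hω v hv).inc e
    obtain ⟨-, -, -, t3⟩ := a2.inc ω hω v hv e
    refine ⟨t1, fun i => (t3 i).trans_eq ?_, t2⟩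
    push_cast
    rw [neg_sub]
  · filter_upwards [h.ac (x - 1) (by linarith) (by linarith) ε hε T, fl] with n a1 a2 ω hω t l E
      t1 t2 t3 t4
    rw [h.O] at t4 ⊢
    refine a1 ω hω t l E t1 (fun i z => t2 i ((fr_d h.ok.fr a2.toCm hω).inj _ ?_)) t3
      fun v hv v' hv' e e' z z' => (le_of_eq ?_).trans (t4 v hv v' hv' e e' z z')
    · rw [a2.ad ω hω, z]
      simp [GA.vec]
    · have : ∀ i, σ.η i * (((x - 1 : ℚ) : ℝ) * (X n).M) = -(σ.η i * ((1 - x) * (X n).M)) :=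
        fun i => by push_cast; ring
      simp only [this]
  · filter_upwards [h.tt ε hε] with n a ω hω v hv e
    rw [O0] at e
    exact a ω hω v hv e
  · have := hA (x - 1) r C β K Ps R (by linarith) (by linarith) r0 sR
      (f1.mono fun n a => (h.O n x ▸ a : Fn (X n).P (K n) ((X n).O (x - 1)))) f3 gd
    rwa [show -((x - 1 : ℚ) : ℝ) = 1 - x by push_cast; ring] at this

end As

/-- There is a filtered system with sparse heights. -/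
def ExPGf : Prop := ∃ (ι κ α : Type) (_ : Fintype ι) (_ : DecidableEq ι) (_ : Fintype κ)
  (_ : DecidableEq κ) (_ : Fintype α) (σ : Cp.Cs ι κ α) (Y : ℕ → Cp.Pd ι κ α) (lv : ℕ → ℚ → ℕ)
  (zz : ∀ n, (Y n).Ω → ℝ), Cp.PreGf σ Y lv zz

/-- A tangent system with fair heights gives a filtered system with sparse heights. -/
def SP5f : Prop := ∀ N E E' D, Kit (N + 1) E E' D → ∀ β₀ : ℝ, 0 < β₀ → ∃ C : ℝ, 1 ≤ C ∧
  ∀ (η θ β js Γ : ℝ) (kf : ℕ → ℕ) (sl : ℕ → ℝ) (X : ℕ → St (N + 1) D), Par (N + 1) D C η θ →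
  β₀ ≤ β → T1f X E η θ β js Γ kf sl → ExPGf

end Pool.Agent.MP_5168f5_an.QA
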