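import Pool.Agent.MP_4b405e_nt.SK.AbF
import Pool.Agent.MP_4b405e_nt.SK.FlF
import Pool.Agent.MP_4b405e_nt.SK.JnF
import Pool.Agent.MP_4b405e_nt.SK.W5F
import Pool.Agent.MP_5168f5_an.QA.P5All

/-! Sparse heights: from the tangent system to the filtered system, first part. -/

namespace Pool.Agent.MP_5168f5_an.QA.P5.F

section Defs

open H19 H17S H17F R4 AN Filter Matrix
open GA (Mt ex vec cm Wd br)
open N2 (El eW tri rk)
open LC (Au)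
open Fr (act)

variable {N D m : ℕ} {π : Pa m}

/-- The base class. -/
structure M4 (Y : ℕ → Bs N D π) : Prop where
  one : 1 ≤ D ∧ 1 ≤ π.L
  ts : Tsf (fun n => (Y n).X) π.E π.η π.θ π.β π.js π.Γ π.kf π.sl
  sur : Sur fun n => (Y n).X
  fm : AB.F.FM π.kf π.kk π.la π.o π.τ π.S π.C π.L (fun n => (Y n).X) (fun n => (Y n).F)
    fun n => (Y n).A
  hb : ∀ n, (Y n).F.b = (Y n).X.lv 0

section Seq

variable (μ : π.κ → ℝ) (γ : π.κ → ℕ) (Z : ℕ → Mb N D π)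

/-- The class of the filtrations. -/
structure M5 : Prop where
  m4 : M4 fun n => (Z n).toBs
  fl : Fl.FL π.σ (fun n => (Z n).bd) μ γ (fun n => (Z n).pr) fun n => (Z n).d

/-- All geometric facts. -/
structure Geo (q : ∀ n, (Z n).X.Ω → Fin m → ℝ) (pos : π.κ → Prop) (t : π.κ) : Prop where
  m5 : M5 μ γ Z
  com : Com μ Z
  orb : Orb μ Z q
  out : Spl.Out (J := Unit) π.σ (fun n => (Z n).bd) μ π.o π.τ lg (fun n => ⟨0, 0, q n, 0, 0⟩)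
    (fun n => (Z n).pr) (fun n => (Z n).d) pos t

end Seq

/-- The weights are minimal. -/
def Mn (N D : ℕ) (Hs : Finset ℝ) (μ : π.κ → ℝ) : Prop := (∀ a, μ a ∈ Hs) ∧
  ∀ μ' γ (Z : ℕ → Mb N D π), (∀ a, μ' a ∈ Hs) → M5 μ' γ Z → ∑ a, μ a ≤ ∑ a, μ' a

/-! ### Entrance and closure -/

/-- A tangent system gives a member of the base class. -/
def SEnt : Prop := ∀ N E E' D, Kit N E E' D → ∃ C₀ : ℝ, 1 ≤ C₀ ∧ ∀ (η θ β js Γ : ℝ) (kf : ℕ → ℕ)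
  (sl : ℕ → ℝ) (X : ℕ → St N D), Par N D C₀ η θ → T1f X E η θ β js Γ kf sl →
  ∃ (m : ℕ) (kk la : Fin m → ℝ) (o τ : Fin m) (S : Finset (El la)) (C L : ℝ)
    (Y : ℕ → Bs N D ⟨E, η, θ, β, js, Γ, kf, sl, kk, la, o, τ, S, C, L⟩), M4 Y

/-- The base facts. -/
def SBF : Prop := ∀ (N D m : ℕ) (π : Pa m) (Y : ℕ → Bs N D π), M4 Y →
  Fl.BF π.σ (fun n => (Y n).bd) fun n => (Y n).pr

/-- The lateral derivatives in the own frame. -/
def SFb : Prop := ∀ (N D m : ℕ) (π : Pa m) (Y : ℕ → Bs N D π), M4 Y →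
  Fl.Fb π.σ (fun n => (Y n).bd) (fun n => (Y n).φ) (fun n => (Y n).pr) ∧
  ∀ T : ℝ, ∀ᶠ n in UF, ∀ ω ∈ (Y n).X.P.S,
    (∀ j p, ((2 : ℝ) ^ (Y n).X.M)⁻¹ • dk j.succ ((Y n).F.E ω p) =
      act ((Y n).φ ω j) ((Y n).F.E ω) p) ∧ ∀ j p q, ¬π.kk q < π.kk p →
      |(((Y n).F.J ω)⁻¹ * (Y n).φ ω j * (Y n).F.J ω) p q| ≤ Real.exp (-(T * (Y n).X.u))

/-- The class of the increments over a fixed member. -/
def SBr : Prop := ∀ (N D m : ℕ) (π : Pa m) (Y : ℕ → Bs N D π), M4 Y →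
  ∃ K : (∀ n, PA.Pr (El π.la) (Y n).X.Ω (Ln N × ℤ)) → Prop, Fl.Czf π.kf K ∧
    K (fun n => (Y n).pr) ∧
    ∀ X, K X → ∃ (P : ∀ n, FP (Y n).X.Ω) (u : ℕ → ℕ) (lv : ℕ → ℚ → ℕ)
      (S : ∀ n, ℚ → (Y n).X.Ω → Dc N D) (s : ℕ → ℕ → ℝ) (j : ℕ → ℝ),
      M4 (fun n => (Y n).sub (P n) (u n) (lv n) (S n) (s n) (j n)) ∧
      (∀ n, S n 0 = (Y n).X.S 0) ∧
      ∀ᶠ n in UF, X n = ((Y n).sub (P n) (u n) (lv n) (S n) (s n) (j n)).pr

/-- Restriction to an event and refinement of the label. -/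
def SClo : Prop := ∀ (N D m : ℕ) (π : Pa m) (μ : π.κ → ℝ) (γ : π.κ → ℕ) (Z : ℕ → Mb N D π),
  M5 μ γ Z → (∀ G, Trf (sX Z) π.kf G → M5 μ γ fun n => (Z n).res (G n)) ∧
  ∀ (β : ℕ → Type) (K : ∀ n, (Z n).X.Ω → β n), FnE (PP (sX Z)) K (fun n => (Z n).X.O (-1)) →
    (∀ ε : ℝ, 0 < ε → ∀ᶠ n in UF, Det (Z n).X.P (K n) (Z n).S (Real.exp (ε * (Z n).X.u))) →
    M5 μ γ fun n => (Z n).ref (K n)

/-- Minimal members carry no deep cap. -/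
def SAcw : Prop := ∀ (N D m : ℕ) (π : Pa m) (Hs : Finset ℝ) (W : ℝ) (μ : π.κ → ℝ) (γ : π.κ → ℕ)
  (Z : ℕ → Mb N D π), π.σ.Ok Hs W → Mn N D Hs μ → M5 μ γ Z → ∃ L₀, 1 ≤ L₀ ∧
    Fl.ACW π.σ (fun n => (Z n).bd) μ L₀ (fun n => (Z n).pr) fun n => (Z n).d

/-! ### The geometric steps -/

/-- Commutation can be made sure. -/
def SCom : Prop := ∀ (N D m : ℕ) (π : Pa m) (Hs : Finset ℝ) (W : ℝ) (μ : π.κ → ℝ) (γ : π.κ → ℕ)
  (Z : ℕ → Mb N D π), π.σ.Ok Hs W → Mn N D Hs μ → M5 μ γ Z →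
  ∃ Z' : ℕ → Mb N D π, M5 μ γ Z' ∧ Com μ Z'

/-- Tubes lie on orbits. -/
def SVH : Prop := ∀ (N D m : ℕ) (π : Pa m) (Hs : Finset ℝ) (W : ℝ) (μ : π.κ → ℝ) (γ : π.κ → ℕ)
  (Z : ℕ → Mb N D π) (x : ℚ), π.σ.Ok Hs W → (∀ a, μ a ∈ Hs) → M5 μ γ Z → -1 ≤ x → x ≤ 0 →
  VH μ Z x

/-- The orbit goes into the common label. -/
def SOrb : Prop := ∀ (N D m : ℕ) (π : Pa m) (Hs : Finset ℝ) (W : ℝ) (μ : π.κ → ℝ) (γ : π.κ → ℕ)
  (Z : ℕ → Mb N D π), ZL N D → Par N D (2 * (dV N D + 1)) π.η π.θ → π.σ.Ok Hs W →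
  (∀ a, μ a ∈ Hs) → M5 μ γ Z → Com μ Z → VH μ Z 0 →
  ∃ (Z' : ℕ → Mb N D π) (q : _), M5 μ γ Z' ∧ Com μ Z' ∧ Orb μ Z' q

/-- The basis can be adapted. -/
def SSpl : Prop := ∀ (N D m : ℕ) (π : Pa m) (Hs : Finset ℝ) (W : ℝ) (μ : π.κ → ℝ) (γ : π.κ → ℕ)
  (Z : ℕ → Mb N D π) (q : _), π.σ.Ok Hs W → (∀ a, μ a ∈ Hs) → M5 μ γ Z → Com μ Z → Orb μ Z q →
  ∃ (γ' : π.κ → ℕ) (Z' : ℕ → Mb N D π) (q' : _) (pos : π.κ → Prop) (t : π.κ),
    Geo μ γ' Z' q' pos t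

/-- The joined norm and the bound at the top. -/
def SJt : Prop := ∀ N E E' D, Kit N E E' D → ∀ β₀ : ℝ, 0 < β₀ → ∃ C₀ : ℝ, 1 ≤ C₀ ∧
  ∀ (η θ β js Γ : ℝ) (kf : ℕ → ℕ) (sl : ℕ → ℝ) (X : ℕ → St N D), Par N D C₀ η θ → β₀ ≤ β →
  Tsf X E η θ β js Γ kf sl → ∃ (G : ∀ n, (X n).Ω → Prop) (ν' : ∀ n, (X n).Ω → VD N D → ℝ),
    Trf X kf G ∧ FnE (PP fun n => (X n).res (G n)) ν' (fun n => (X n).O (-1)) ∧
    FnE (PP fun n => (X n).res (G n)) ν' (fun n => (X n).S 0) ∧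
    Tq.TopAt (fun n => (X n).res (G n)) 0 (-1) ν' (lg + β / 2)

open Classical in
/-- The orbit data of the chart. -/
def SOrbs : Prop := ∀ (N D m : ℕ) (π : Pa m) (Hs : Finset ℝ) (W : ℝ) (μ : π.κ → ℝ) (γ : π.κ → ℕ)
  (Z : ℕ → Mb N D π) (q : _) (pos : π.κ → Prop) (t : π.κ), π.σ.Ok Hs W → (∀ a, μ a ∈ Hs) →
  Geo μ γ Z q pos t → VH μ Z 0 → VH μ Z (-1) →
  ∃ (d : ∀ n, (Z n).X.Ω → Tq.Fd N D m (El π.kk)) (K : ℝ), 0 ≤ K ∧ FnE (PP (sX Z)) d (sT Z) ∧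
    Tq.Orbs (sX Z) 0 (-1) d K (∑ a ∈ Finset.univ.filter pos, μ a)

/-- The last member. -/
def SFin : Prop := ∀ (N D m : ℕ) (π : Pa m) (Hs : Finset ℝ) (W L₀ : ℝ) (μ : π.κ → ℝ)
  (γ : π.κ → ℕ) (Z : ℕ → Mb N D π) (q : _) (pos : π.κ → Prop) (t : π.κ), π.σ.Ok Hs W →
  (∀ a, μ a ∈ Hs) → 0 < π.β → 1 ≤ L₀ → Geo μ γ Z q pos t →
  Fl.ACW π.σ (fun n => (Z n).bd) μ L₀ (fun n => (Z n).pr) (fun n => (Z n).d) →
  (Le (uu (sX Z)) (fun n => mi (Z n).X.P (Z n).X.g.l (Z n).S (Z n).T) fun n =>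
    ((⟨Hs, W, μ, γ, pos, t, L₀, π.L, π.β / 2, π.kf⟩ : As.Kc π.κ).m - π.β / 2) * (Z n).X.u) →
  As.Fin5f π.σ (fun n => (Z n).bd) ⟨Hs, W, μ, γ, pos, t, L₀, π.L, π.β / 2, π.kf⟩
    (fun n => (Z n).pr) (fun n => (Z n).d) fun n ω => Real.exp (lg * (Z n).F.b) * (Z n).X.g.z ω

end Defs

section Clo

open H19 H17S H17F R4 AN Filter Matrix

variable {N D m : ℕ} {π : Pa m} {μ : π.κ → ℝ} {γ : π.κ → ℕ} {Z : ℕ → Mb N D π}

theorem M4.res {Y : ℕ → Bs N D π} (h : M4 Y) {G : ∀ n, (Y n).X.Ω → Prop}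
    (g : Trf (fun n => (Y n).X) π.kf G) : M4 fun n => (Y n).res (G n) :=
  ⟨h.one, h.ts.res g, h.sur.res G, h.fm.res g, h.hb⟩

theorem M5.res (h : M5 μ γ Z) {G : ∀ n, (Z n).X.Ω → Prop} (g : Trf (sX Z) π.kf G) :
    M5 μ γ fun n => (Z n).res (G n) :=
  ⟨h.m4.res g, h.fl.res G⟩

theorem M5.ref (h : M5 μ γ Z) {β : ℕ → Type} {K : ∀ n, (Z n).X.Ω → β n}
    (k : FnE (PP (sX Z)) K fun n => (Z n).X.O (-1))
    (f : ∀ ε : ℝ, 0 < ε → ∀ᶠ n in UF, Det (Z n).X.P (K n) (Z n).S (Real.exp (ε * (Z n).X.u))) :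
    M5 μ γ fun n => (Z n).ref (K n) :=
  ⟨h.m4, h.fl.ref k f⟩

theorem sClo : SClo := fun _ _ _ _ _ _ _ h => ⟨fun _ g => h.res g, fun _ _ k f => h.ref k f⟩

end Clo

section Br

open H19 H17S H17F R4 AN Filter Finset
open G39 (dl)
open N2 (El)

variable {N D m : ℕ} {π : Pa m}

theorem cf_m4 {S : ℕ → Type*} (y : ∀ n, S n → Bs N D π) (hb : ∀ n z, (y n z).F.b = (y n z).X.lv 0) :
    CF fun Z : ∀ n, S n => M4 fun n => y n (Z n) :=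
  ((cf_const (1 ≤ D ∧ 1 ≤ π.L)).and
    (((cf_tsf π.E π.η π.θ π.β π.js π.Γ π.kf π.sl).comp fun n z => (y n z).X).and
    ((cf_sur.comp fun n z => (y n z).X).and (AB.F.cf_fm π.kf π.kk π.la π.o π.τ (fun n z => (y n z).X)
      (fun n z => (y n z).F) π.S π.C π.L fun n z => (y n z).A)))).congr fun _ =>
    ⟨fun h => ⟨h.one, h.ts, h.sur, h.fm⟩, fun h => ⟨h.1, h.2.1, h.2.2.1, h.2.2.2, fun _ => hb _ _⟩⟩

theorem M4.idx {Y : ℕ → Bs N D π} (h : M4 Y) {e : ℚ} (he : 0 < e) :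
    M4 fun n => ⟨(Y n).X.idx π.sl π.js 0 e, (Y n).F, (Y n).A⟩ :=
  ⟨h.one, h.ts.idx 0 he, h.sur.idx h.ts.big _ _ 0 he, h.fm.idx h.ts.toTq 0 he,
    fun n => (h.hb n).trans (by simp)⟩

theorem sBr : SBr := by
  intro N D m π Y h
  let w₀ : ∀ n, Fw (Y n) := fun n => ⟨(Y n).X.P, (Y n).X.u, (Y n).X.lv, (Y n).X.S, (Y n).X.s0,
    (Y n).X.j0, rfl, h.hb n⟩
  have : ∀ n, Nonempty (Fw (Y n)) := fun n => ⟨w₀ n⟩
  refine ⟨fun X => ∃ w : ∀ n, Fw (Y n), M4 (fun n => (w n).bs) ∧ ∀ᶠ n in UF, X n = (w n).bs.pr,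
    ⟨Cx.cf_ex (K := fun Z : ∀ n, PA.Pr (El π.la) (Y n).X.Ω (Ln N × ℤ) × Fw (Y n) =>
      M4 (fun n => (Z n).2.bs) ∧ ∀ᶠ n in UF, (Z n).1 = (Z n).2.bs.pr)
      ((cf_m4 (fun n (z : _ × Fw (Y n)) => z.2.bs) fun _ z => z.2.hb).and
        (cf_ev fun n (z : PA.Pr _ (Y n).X.Ω _ × Fw (Y n)) => z.1 = z.2.bs.pr)),
      fun X e he _ ⟨w, a, b⟩ => ?_, fun X G ⟨w, a, b⟩ g => ?_, fun X ⟨w, a, b⟩ => ?_,
      fun X ⟨w, a, b⟩ x x' e => ?_, fun X ⟨w, a, b⟩ => ?_⟩, ⟨w₀, h, .of_forall fun _ => rfl⟩,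
    fun X ⟨w, a, b⟩ => ⟨_, _, _, _, _, _, a, fun n => (w n).hS, b⟩⟩
  · exact ⟨fun n => ⟨(w n).P, _, fun x => (w n).lv (0 + e * x), fun x => (w n).S (0 + e * x), _, _,
      by simpa using (w n).hS, by simpa using (w n).hb⟩, a.idx he,
      b.mono fun n k => congrArg (PA.Pr.idx · 0 e) k⟩
  · refine ⟨fun n => ⟨cE (w n).P (G n), _, _, _, _, _, (w n).hS, (w n).hb⟩, a.res ⟨fun c hc => ?_,
      fun x c hc => ?_⟩, b.mono fun n k => congrArg (PA.Pr.res · (G n)) k⟩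
    · filter_upwards [g.top c hc, b] with n k1 k2
      simp only [dl, PA.sM, sU] at k1
      rw [k2] at k1
      exact k1
    · filter_upwards [g.fb x c hc, b] with n k1 k2
      simp only [dl, PA.sM, sU] at k1
      rw [k2] at k1
      exact k1
  · exact Tendsto.congr' (b.mono fun n k => by simp only [PA.sM]; rw [k]; rfl) a.ts.big
  · filter_upwards [a.ts.nest e, b] with n k1 k2
    simp only [PA.sP, PA.sO]
    rw [k2]
    exact k1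
  · exact Tendsto.congr' (b.mono fun n k => by simp only [PA.sM, sU]; rw [k]; rfl) a.ts.fa.bU

end Br

section Acw

open H19 H17S H17F R4 AN Filter
open N2 (El)

variable {N D m : ℕ} {π : Pa m}

/-- A filtration over a member of the class of the increments is a member of the class of the
filtrations. -/
theorem unp {Y : ℕ → Bs N D π} {X : ∀ n, PA.Pr (El π.la) (Y n).X.Ω (Ln N × ℤ)}
    {P : ∀ n, FP (Y n).X.Ω} {u : ℕ → ℕ} {lv : ℕ → ℚ → ℕ} {S : ∀ n, ℚ → (Y n).X.Ω → Dc N D}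
    {s : ℕ → ℕ → ℝ} {j : ℕ → ℝ} {μ : π.κ → ℝ} {γ : π.κ → ℕ}
    {d : ∀ n, Fl.Fd (Fin m) π.κ (El π.la) (Y n).X.Ω}
    (h : M4 fun n => (Y n).sub (P n) (u n) (lv n) (S n) (s n) (j n))
    (h0 : ∀ n, S n 0 = (Y n).X.S 0)
    (e : ∀ᶠ n in UF, X n = ((Y n).sub (P n) (u n) (lv n) (S n) (s n) (j n)).pr)
    (f : Fl.FL π.σ (fun n => (Y n).bd) μ γ X d) :
    M5 μ γ fun n => (⟨(Y n).sub (P n) (u n) (lv n) (S n) (s n) (j n), d n⟩ : Mb N D π) := by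
  refine ⟨h, fun c hc T => ?_⟩
  filter_upwards [f c hc T, e] with n a b
  have k := bd_sub (Y n) (P n) (u n) (lv n) (S n) (s n) (j n) (h0 n)
  simp only [PA.sM] at a ⊢
  rw [b, ← k] at a
  exact a

/-- Minimal weights stay minimal in the class of the increments. -/
theorem mn_of {Y : ℕ → Bs N D π} {K : (∀ n, PA.Pr (El π.la) (Y n).X.Ω (Ln N × ℤ)) → Prop}
    {Hs : Finset ℝ} {μ : π.κ → ℝ} (h : Mn N D Hs μ)
    (hK : ∀ X, K X → ∃ (P : ∀ n, FP (Y n).X.Ω) (u : ℕ → ℕ) (lv : ℕ → ℚ → ℕ)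
      (S : ∀ n, ℚ → (Y n).X.Ω → Dc N D) (s : ℕ → ℕ → ℝ) (j : ℕ → ℝ),
      M4 (fun n => (Y n).sub (P n) (u n) (lv n) (S n) (s n) (j n)) ∧
      (∀ n, S n 0 = (Y n).X.S 0) ∧
      ∀ᶠ n in UF, X n = ((Y n).sub (P n) (u n) (lv n) (S n) (s n) (j n)).pr) :
    Fl.Mn π.σ (fun n => (Y n).bd) K Hs μ := by
  refine ⟨h.1, fun μ' γ X d a b => ?_⟩
  obtain ⟨P, u, lv, S, s, j, p, q, r⟩ := hK X b.k
  exact h.2 μ' γ _ a (unp p q r b.fl)

theorem sAcw_of (hB : SBr) (hF : SBF) : SAcw := by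
  intro N D m π Hs W μ γ Z ok mn h
  obtain ⟨K, cz, k0, hK⟩ := hB N D m π _ h.m4
  exact Fl.sAcwf ok cz (mn_of mn hK) ⟨k0, hF N D m π _ h.m4, h.fl⟩

end Acw

section Fb

open H19 H17S H17F R4 AN Filter Finset
open GA (Mt vec)
open N2 (tri)
open Fr (act)

variable {N D m : ℕ} {π : Pa m}

variable {Y : ℕ → Bs N D π}

theorem M4.l1 (h : M4 Y) : AB.L1 π.kk π.la π.o π.τ π.S π.C 0 (fun n => (Y n).X)
    (fun n => (Y n).F) fun n => (Y n).A :=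
  AB.F.sL1 h.ts.toTq h.ts.fa.bk h.one.2 h.fm

theorem M4.l2 (h : M4 Y) : AB.L2 π.la π.o π.τ (fun n => (Y n).X) (fun n => (Y n).F)
    fun n => (Y n).A := AB.F.sL2 h.ts h.fm.toMI h.l1

/-- The letters as matrices. -/
theorem M4.vecH (h : M4 Y) : ∀ᶠ n in UF, ∀ ω ∈ (Y n).X.P.S, ∀ i,
    vec π.σ.B ((Y n).bd.H ω i) = AB.lt π.la ((Y n).A ω) i :=
  h.l1.mem.mono fun _ k ω hω i => FbA.vec_pB (k ω hω i).1 (k ω hω i).2.2.1

/-- The matrices of the derivatives in the first frame and in the own frame. -/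
theorem M4.ph (h : M4 Y) : ∀ᶠ n in UF, ∀ ω ∈ (Y n).X.P.S, Fr.Sp ((Y n).F.E ω) ∧
    Ob.Ph (Y n).X.M ((Y n).F.E ω) ((Y n).φ ω) ∧ Ob.Ph (Y n).X.M ((Y n).F.f ω)
      fun j => ((Y n).F.J ω)⁻¹ * (Y n).φ ω j * (Y n).F.J ω := by
  filter_upwards [h.fm.sp, h.fm.uj] with n a b ω hω
  have u := (b ω hω).det
  have s : Fr.Sp ((Y n).F.E ω) := by
    have := (a ω hω).act u
    rwa [AB.Fd.f, ← Fr.act_mul, Matrix.mul_nonsing_inv _ u, Fr.act_one] at this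
  have := ((Ob.sTay N D m (Y n).X.M _ s).2 _ (FbA.ph_mxd s)).1 _
    (Matrix.isUnit_nonsing_inv_det _ u)
  rw [Matrix.nonsing_inv_nonsing_inv _ u] at this
  exact ⟨s, FbA.ph_mxd s, this⟩

theorem sFb : SFb := fun N D m π Y h => by
  have k := Ob.ofFb Ob.sTay Ob.sLog N D m _ _ _ _ _ _ _ _ _ _ _ _ _ _ _ _ _ _ h.ts.toTq h.sur
    h.fm.toMI h.hb h.l1 (h.ph.mono fun _ a ω hω => (a ω hω).2.2)
  refine ⟨⟨.of_forall fun n ω _ v _ e => congrArg (mxd (Y n).X.M) e, fun c hc T => ?_⟩,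
    fun T => ?_⟩
  · filter_upwards [k c hc T, h.vecH] with n a b ω hω j p q
    exact ⟨(a ω hω j).1 q p, fun i => (b ω hω i).symm ▸ (a ω hω j).2.2 i q p⟩
  · filter_upwards [k 1 one_pos T, h.ph] with n a b ω hω
    refine ⟨fun j p => (congrFun ((b ω hω).2.1 j) p).symm, fun j p q e => ?_⟩
    simpa [Ob.pj, e] using (a ω hω j).2.1 q p

end Fb

section BF

open H19 H17S H17F R4 AN Filter Finset
open GA (Mt vec)
open N2 (El eB eW rk)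
open LC (ex_le)

theorem sBF : SBF := by
  intro N D m π Y h x x0 x1 c hc T
  let _ : Fintype (Subtype (Br.PQ π.kk π.o π.τ)) := (inferInstance : Fintype π.κ)
  have f := h.fm.toMI
  have q := h.ts.toTq
  have l := h.l1
  obtain ⟨C, e, hC, nr⟩ := Br.near m
  obtain ⟨Γ, s, d⟩ := f.dg 0
  obtain ⟨Γ', s', d'⟩ := f.few 0
  have w0 : ∀ i, 0 < eW π.la i := fun i => sub_pos.2 i.2
  have w1 : ∀ i, eW π.la i ≤ ∑ i, eW π.la i := fun i =>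
    single_le_sum (fun i _ => (w0 i).le) (mem_univ i)
  have w2 : 0 ≤ ∑ i, eW π.la i := sum_nonneg fun i _ => (w0 i).le
  obtain ⟨ε, hε, e1⟩ : ∃ ε : ℝ, 0 < ε ∧ (∑ i, eW π.la i + 1) * ε = c :=
    ⟨c / (∑ i, eW π.la i + 1), by positivity, mul_div_cancel₀ _ (by positivity)⟩
  have x0' : (-1 : ℝ) ≤ x := by exact_mod_cast x0
  filter_upwards [f.uj, f.row, f.fe x, d, d', s'.2 c hc,
    (((s.mul s).pow e).const_mul q.big hC).2 c hc, l.mem, l.fn x, l.ex x, l.pat x, l.box x ε hε,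
    l.inc x (T + (∑ i, eW π.la i) * (1 + ε)), q.loc x 0 ε hε, big_exp q.big π.C hc]
    with n a1 a2 a3 a4 a5 a6 a7 a8 a9 b1 b2 b3 b4 b5 b6
  have u0 : (0 : ℝ) ≤ (Y n).X.u := Nat.cast_nonneg _
  have lb : -AB.lb (Y n).X (Y n).F x ≤ -(x : ℝ) * (Y n).X.u + ε * (Y n).X.u := by
    have := b5.lev
    rw [AB.lb, h.hb n]
    push_cast at this
    linarith
  refine ⟨fun ω hω => (Matrix.isUnit_iff_isUnit_det _).2 (a1 ω hω).det, a3,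
    fun ω hω => (a5 ω hω).imp fun U k => ⟨k.1.trans a6, fun v hv z => k.2 v hv (congrArg _ z)⟩,
    fun ω hω v hv z => ?_, fun ω hω i a => ⟨((a8 ω hω i).2.2.2 _ _).1.trans b6, fun z => ?_⟩,
    fun ω hω v hv z z' => ?_, fun ω hω v hv z => ?_⟩
  · simp only [Bs.bd, a9 ω hω v hv z]
  · refine le_of_eq_of_le (abs_eq_zero.2 (not_not.1 fun k => z.not_ge ?_)) (Real.exp_pos _).le
    have k1 := (((a8 ω hω i).2.2.2 _ _).2 k).2
    change eW π.la i ≤ π.pm a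
    unfold Pa.pm
    split_ifs with y
    · rw [← k1, a.2.2 y, y, f.lo, f.lτ, sub_zero]
    · have : (rk π.kk a.1.2 : ℝ) + 1 ≤ rk π.kk a.1.1 := by exact_mod_cast N2.rk_lt.2 a.2.1
      nlinarith [w1 i, lg_pos]
  · have r : AB.rd π.la (Y n).X (Y n).F 0 = 1 := funext fun a => by simp [AB.rd, AB.lb, h.hb n]
    have k1 := a4 ω hω
    have k2 := a4 v hv
    rw [show (Y n).X.S 0 ω = (Y n).X.S 0 v from z, r, AB.Fd.f,
      show (Y n).F.E ω = (Y n).F.E v from z', ← Fr.act_div (a1 v hv).inv.det,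
      Matrix.nonsing_inv_nonsing_inv _ (a1 v hv).det] at k1
    rw [r] at k2
    have g := (zero_le_one.trans (s.1 n))
    obtain ⟨t, t1, t2⟩ := nr π.kk π.o π.τ _ _ _ f.ko ((s.mul s).1 n) (a1 ω hω) (a1 v hv) (a2 ω hω)
      (a2 v hv) (Fr.b2_dg k2 k1 g g (fun _ => one_pos) ((a1 ω hω).inv.mul (a1 v hv)).det).2.1
    exact ⟨t, fun a => (t1 a).trans (mul_le_mul_of_nonneg_right a7 zero_le_one), t2⟩
  · have M : AB.Mt2 (Y n).X x ω ω v := ⟨hω, hv, rfl, z.symm⟩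
    have k : ∀ (b : El π.la) (y r : ℝ), |Real.exp (eW π.la b * AB.lb (Y n).X (Y n).F x) * y| ≤
        Real.exp r → |y| ≤ Real.exp (r + eW π.la b * (-(x : ℝ) * (Y n).X.u + ε * (Y n).X.u)) :=
      fun b y r k => by
      rw [abs_mul, Real.abs_exp, ← le_div_iff₀' (Real.exp_pos _), ← Real.exp_sub] at k
      exact k.trans (ex_le (by nlinarith [w0 b]))
    refine ⟨Br.en _ (vec (eB π.la) ((Y n).pr.Y ω v)), (b1 ω ω v M).trans ?_, fun a => ?_,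
      fun i => (k i _ _ (b3 ω ω v M i)).trans (ex_le ?_)⟩
    · exact congrArg (fun y => _ * IsNilpotent.exp y) (Br.vec_pat (b2 ω ω v M)).symm
    · change |vec _ _ a.1.1 a.1.2 - ∑ i, _ * AB.lt _ _ i a.1.1 a.1.2| ≤ _
      by_cases y : π.la a.1.2 < π.la a.1.1
      · have v1 := fun t => N2.vec_eB (la := π.la) t ⟨a.1, y⟩
        refine (k ⟨a.1, y⟩ _ _ (le_of_eq_of_le (congrArg _ ?_) (b4 ω hω ω v M ⟨a.1, y⟩))).trans
          (ex_le ?_)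
        · rw [mul_sub, mul_sum, v1]
          refine congrArg _ (sum_congr rfl fun i _ => ?_)
          by_cases g : AB.lt π.la ((Y n).A ω) i a.1.1 a.1.2 = 0
          · rw [g, ← show _ = (Y n).A ω ⟨a.1, y⟩ i from v1 (PA.col _ i), ← AB.lt, g]; ring
          · rw [AB.co, ← (((a8 ω hω i).2.2.2 _ _).2 g).2, AB.lt, v1]
            simp only [eW, PA.col, Bs.bd, AB.pr]
            ring
        · have := mul_le_mul (w1 ⟨a.1, y⟩) (show -(x : ℝ) * (Y n).X.u + ε * (Y n).X.u ≤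
            (1 + ε) * (Y n).X.u by nlinarith) (by
              have : (x : ℝ) ≤ 0 := by exact_mod_cast x1
              nlinarith) w2
          simp only [PA.sM, AB.pr, uu] at this ⊢
          linarith
      · have v0 := fun t => N2.mem_F0.1 (N2.vec_mem (la := π.la) t) _ _ y
        simp only [AB.lt, v0, mul_zero, sum_const_zero, sub_zero, abs_zero]
        positivity
    · have := mul_le_mul_of_nonneg_right (w1 i) (mul_nonneg hε.le u0)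
      change _ ≤ c * (Y n).X.u + eW π.la i * (-(x : ℝ) * (Y n).X.u)
      rw [← e1]
      linarith

end BF

section Com

open H19 H17S H17F R4 AN Filter Matrix
open GA (Mt ex cm IsFr)
open N2 (tri)
open N6 (Eb)
open Fl (Sg Bd Fd One)
open Ob (pj)

/-- Sure commutation in the frame `E` gives the facts in the frame `G`. -/
theorem com_of (hF : SFb) {N D m : ℕ} {π : Pa m} {Hs : Finset ℝ} {W : ℝ} {μ : π.κ → ℝ}
    {γ : π.κ → ℕ} {Z : ℕ → Mb N D π} (ok : π.σ.Ok Hs W) (hμ : ∀ a, μ a ∈ Hs) (h : M5 μ γ Z)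
    (c : ∀ T : ℝ, ∀ᶠ n in UF, ∀ ω ∈ (Z n).X.P.S, ∀ a j p q, 0 < μ a →
      |cm ((Z n).B ω a) (((Z n).d.E ω)⁻¹ * (Z n).φ ω j * (Z n).d.E ω) p q| ≤
        Real.exp (-(T * (Z n).X.u))) : Com μ Z := by
  obtain ⟨⟨-, fb⟩, tr⟩ := hF N D m π _ h.m4
  obtain ⟨C, c1, H⟩ := ComA.one π.σ (kk := π.kk) rfl ok.fr (ok.bd 0 ok.zero).2
  unfold Com Al
  refine Fl.au_lin h.m4.ts.big (Fl.au_and h.fl (Fl.au_and fb
    (ψ' := fun n _ w => ∀ ω ∈ (Z n).X.P.S, (∀ j p q, ¬π.kk q < π.kk p →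
      |(((Z n).F.J ω)⁻¹ * (Z n).φ ω j * (Z n).F.J ω) p q| ≤ Real.exp (-w)) ∧ ∀ a j p q, 0 < μ a →
      |cm ((Z n).B ω a) (((Z n).d.E ω)⁻¹ * (Z n).φ ω j * (Z n).d.E ω) p q| ≤ Real.exp (-w))
    fun _ _ T => ((tr T).and (c T)).mono fun n x ω y => ⟨(x.1 ω y).2, x.2 ω y⟩))
    (fun n u u' w w' a b x ω y j p q => ⟨(x ω y j p q).1.trans (LC.ex_le a),
      fun e => ((x ω y j p q).2.1 e).trans (LC.ex_le (neg_le_neg b)),
      fun i e => ((x ω y j p q).2.2 i e).trans (LC.ex_le (neg_le_neg b))⟩) c1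
    (.of_forall fun n u w u1 a x ω y j => ?_)
  exact H _ _ _ _ (Z n).bd (Z n).d _ _ μ γ _ u w ((Z n).φ ω j) ω (fun a => ok.bd _ (hμ a))
    (Nat.cast_nonneg _) u1 a x.1 y (fun p q => (x.2.1 ω y j p q).1) ((x.2.2 ω y).1 j)
    fun a => (x.2.2 ω y).2 a j

theorem sCom_of (hA : SAcw) (hC : Fl.SCom) (hF : SFb) (hK : SClo) : SCom := by
  intro N D m π Hs W μ γ Z ok mn h
  obtain ⟨L₀, l1, acw⟩ := hA N D m π Hs W μ γ Z ok mn h
  have big := h.m4.ts.big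
  obtain ⟨E, e1, e2⟩ := whp_diag fun i : ℕ => hC _ _ _ _ _ _ _ _ _ π.σ (fun n => (Z n).bd) Hs W L₀
    μ γ (fun n => (Z n).pr) (fun n => (Z n).d) (fun n => (Z n).φ) ok mn.1 big h.fl
    (one_pos.trans_le l1) acw (hF N D m π _ h.m4).1 i
  obtain ⟨G, g1, -, g⟩ := ex_trf (X := sX Z) h.m4.ts.fa.bU (top_whf h.m4.ts.fa.bU e1)
  have h' := (hK N D m π μ γ Z h).1 G g
  refine ⟨_, h', com_of hF ok mn.1 h' fun T => ?_⟩
  obtain ⟨i, hi⟩ := exists_nat_ge T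
  filter_upwards [e2 i, g.mem] with n x y ω z a j p q e
  exact (x ω (g1 n ω (y ω z).2) a j p q e).trans (LC.ex_le (neg_le_neg
    (mul_le_mul_of_nonneg_right hi (Nat.cast_nonneg _))))

end Com

section VH

open H19 H17S H17F R4 AN AN.N6 IsNilpotent Finset Filter Matrix
open GA (Mt ex vec cm)
open Lt Vh Ob

theorem sVH : SVH := by
  intro N D m π Hs W₀ μ γ Z x ok _ h x1 x0 c hc T
  obtain ⟨k, hk⟩ : ∃ k, k = D + m + 1 := ⟨_, rfl⟩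
  obtain ⟨K, hK⟩ : ∃ K : ℝ, K = |T| + (6 * k + 7 : ℕ) * (c + 2) := ⟨_, rfl⟩
  have l0 : 0 < lg := Real.log_pos one_lt_two
  have l1 : lg ≤ 1 := by have := Real.log_two_lt_d9; rw [lg]; linarith
  have c3 : 0 < c / 3 := by positivity
  have tq := h.m4.ts.toTq
  have l2 := h.m4.l2
  filter_upwards [vh (T := lg * (-x + c / 3)) (x := x) sTay tq.big h.m4.fm.toMI h.m4.l1 l2
      (AB.sL3 N D m _ _ _ _ _ _ _ _ _ _ _ _ _ _ _ _ _ tq h.m4.fm.toMI h.m4.hb h.m4.l1 l2) K 5 c3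
      ((tq.lev x 0 c3).mono fun n a => by
        rw [AB.two_exp, AB.two_exp, ← Real.exp_add]
        exact Real.exp_le_exp.2 (by nlinarith [(abs_le.1 a).2])),
    (sFb N D m π _ h.m4).1.2 _ c3 K, h.fl _ c3 K, h.m4.ph, h.m4.vecH, h.m4.l1.mem,
    tq.big.ev (2 * (m + 1) + k : ℕ), tq.big.ev (N * 5), tq.big.ev π.C, tq.big.ev (5 / c),
    tq.big.ev (Fintype.card π.κ * Fintype.card π.κ)] with n a1 a2 a3 a4 a5 a6 a7 a8 a9 a10 a11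
  intro ω hω y hy
  obtain ⟨a, -, ea, b⟩ := a1 ω hω
  obtain ⟨ξ, s, e, b1, b2, b3, b4, b5⟩ := b _ (a4 ω hω).2.2 y hy
  have x5 : ∀ j, |ξ j| ≤ 5 := fun j => (norm_le_pi_norm ξ j).trans b1
  have mZ : vec ((Z n).B ω) ((Z n).d.k ω) ∈ (N2.tri π.kk).F 0 := by
    rw [Mb.B, Fl.Fd.B, GA.GAFrA.vec_mB]; exact ok.fr.mem _
  have eN : ex ((Z n).B ω) (-(Z n).d.k ω) = exp (-vec ((Z n).B ω) ((Z n).d.k ω)) := by
    simp [ex, GA.vec]
  have eG : ((Z n).G ω)⁻¹ = exp (vec ((Z n).B ω) ((Z n).d.k ω)) * ((Z n).F.J ω)⁻¹ := by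
    rw [Mb.G, Fl.Fd.G, Matrix.mul_inv_rev, eN, inv_eq_left_inv (exp_mul_exp_neg_self ⟨_, nil_of mZ 0⟩)]
    rfl
  have e1 : (Z n).ev ω y = exp (vec ((Z n).B ω) ((Z n).d.k ω)) *ᵥ ev ((Z n).F.f ω) y := by
    rw [Mb.ev, eG, Fr.act_mul, VhA.ev_act]; rfl
  have e2 : ∑ j, ξ j • (Z n).ph ω j = exp (vec ((Z n).B ω) ((Z n).d.k ω)) *
      (∑ j, ξ j • (((Z n).F.J ω)⁻¹ * (Z n).φ ω j * (Z n).F.J ω)) *
        exp (-vec ((Z n).B ω) ((Z n).d.k ω)) := by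
    rw [mul_sum, sum_mul]
    refine sum_congr rfl fun j _ => ?_
    rw [Mb.ph, eG, Mb.G, Fl.Fd.G, eN]
    simp only [mul_smul_comm, smul_mul_assoc, mul_assoc]
    rfl
  have e3 : ex ((Z n).B ω) (s • (Z n).d.A ω a) = exp (exp (vec ((Z n).B ω) ((Z n).d.k ω)) *
      (s • AB.lt π.la ((Z n).A ω) a) * exp (-vec ((Z n).B ω) ((Z n).d.k ω))) := by
    rw [mul_smul_comm, smul_mul_assoc, ← a5 ω hω, ← eN]
    refine congrArg exp (Eq.trans ?_ (congrArg (s • ·) (a3.ad ω hω a)))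
    simp [GA.vec, smul_sum, smul_smul]
  have f1 := fun j q p => (a2 ω hω j p q).1
  have f2 := fun j q p => (a2 ω hω j p q).2 a
  have f3 := a3.bk ω hω
  have f4 := fun a e => (a3.bU ω hω a e).1
  have f5 := a3.bA ω hω a
  have f6 := a3.low ω hω a
  rw [a5 ω hω] at f2
  have u0 : (0 : ℝ) ≤ (Z n).X.u := Nat.cast_nonneg _
  have x1' : (-1 : ℝ) ≤ x := by exact_mod_cast x1
  have x0' : (x : ℝ) ≤ 0 := by exact_mod_cast x0
  simp only [uu, PA.sM, AB.pr, G39.dl, Mb.Nb] at a7 a8 a9 a10 a11 b2 b3 f1 f2 f3 f4 f5 f6 ⊢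
  generalize ((Z n).X.u : ℝ) = u at *
  have n0 : (0 : ℝ) ≤ N := Nat.cast_nonneg _
  have t0 := abs_nonneg T
  have cu := mul_nonneg hc.le u0
  have u1 : u ≤ Real.exp u := le_trans (by linarith) (Real.add_one_le_exp u)
  have s1 : |s| ≤ Real.exp (lg * (-x * u) + 2 * (c / 3 * u)) :=
    b2.trans (Real.exp_le_exp.2 (by nlinarith))
  have xu : 0 ≤ -x * u := by nlinarith
  have s2 : |s| ≤ Real.exp ((c + 1) * u) := s1.trans (Real.exp_le_exp.2 (by nlinarith))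
  obtain ⟨W, hW⟩ : ∃ W, W = Real.exp ((c + 2) * u) := ⟨_, rfl⟩
  have w0 : ∀ {r v : ℝ}, r ≤ u → v ≤ (c + 1) * u → r * Real.exp v ≤ W := fun p q =>
    (mul_le_mul (p.trans u1) (Real.exp_le_exp.2 q) (Real.exp_pos _).le (Real.exp_pos _).le).trans_eq
      (by rw [hW, ← Real.exp_add]; congr 1; ring)
  have w4 : ((2 * (m + 1) + k : ℕ) : ℝ) ≤ W := by simpa using w0 (v := 0) a7 (by positivity)
  have θ0 := (Real.exp_pos (-(K * u))).le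
  have g1 : Eb W (vec ((Z n).B ω) ((Z n).d.k ω)) := eb_mono (eb_lin f3 fun a => eb_lin (f4 a)
    (A := 1) fun e q p => by
      show |Matrix.single _ _ (1 : ℝ) p q| ≤ 1
      rw [Matrix.single, of_apply]; split_ifs <;> simp) (le_trans (le_of_eq (by
        rw [Real.exp_add]; ring)) (w0 (v := c / 3 * u + c / 3 * u) a11 (by linarith)))
  have g2 : Eb W _ := eb_mono (eb_lin x5 f1) (by
    rw [Fintype.card_fin, ← mul_assoc]; exact w0 a8 (by linarith))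
  have g3 : Eb W (s • AB.lt π.la ((Z n).A ω) a) := eb_mono (eb_smul (L := u)
    (fun q p => ((a6 ω hω a).2.2.2 p q).1.trans a9) s2) (mul_comm u _ ▸ w0 le_rfl le_rfl)
  have g4 : Eb (W * Real.exp (-(K * u))) (cm (∑ j, ξ j • (((Z n).F.J ω)⁻¹ * (Z n).φ ω j *
      (Z n).F.J ω)) (s • AB.lt π.la ((Z n).A ω) a)) := by
    rw [VhA.cm_lin]
    refine eb_mono (eb_neg (eb_lin x5 fun j => eb_smul (f2 j) s2)) ?_
    rw [Fintype.card_fin, ← mul_assoc, ← mul_assoc]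
    exact mul_le_mul_of_nonneg_right (w0 a8 le_rfl) θ0
  have lo : ∀ b, μ b < lg → |(s • (Z n).d.A ω a) b| ≤ Real.exp (-(|T| * u)) := fun b hb => by
    rw [Pi.smul_apply, smul_eq_mul, abs_mul]
    refine (mul_le_mul s2 (f6 b (hb.trans_eq ea.symm)) (abs_nonneg _) (Real.exp_pos _).le).trans ?_
    have k0 : (0 : ℝ) ≤ k * ((c + 2) * u) := by positivity
    rw [← Real.exp_add, hK]
    push_cast
    exact Real.exp_le_exp.2 (by nlinarith)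
  have tT : Real.exp (-(|T| * u)) ≤ Real.exp (-(T * u)) :=
    Real.exp_le_exp.2 (by nlinarith [le_abs_self T])
  refine ⟨s • (Z n).d.A ω a, ξ, fun b => ⟨fun hb => ?_, fun hb =>
    (lo b ((not_lt.1 hb).trans_lt l0)).trans tT⟩, fun j => (x5 j).trans ?_, ?_⟩
  · rw [← Real.exp_add]
    rcases lt_or_ge (μ b) lg with p | p
    · exact (lo b p).trans (Real.exp_le_exp.2 (by nlinarith [mul_nonneg hb.le xu]))
    · rw [Pi.smul_apply, smul_eq_mul, abs_mul]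
      refine (mul_le_mul s1 (f5 b) (abs_nonneg _) (Real.exp_pos _).le).trans ?_
      rw [← Real.exp_add]
      exact Real.exp_le_exp.2 (by nlinarith [mul_le_mul_of_nonneg_right p xu])
  · rw [div_le_iff₀' hc] at a10
    linarith [Real.add_one_le_exp (c * u)]
  · rw [e1, e2, e3, b5]
    refine vb_mono (VhA.core π.o w4 (by have := one_le w4; positivity) (hk ▸ nil_of mZ D)
      (hk ▸ nil_up b4) (hk ▸ nil_of (sm_mem (a6 ω hω a).1 s) D) g1 g2 g3 g4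
      (vb_mono b3 (le_mul_of_one_le_left θ0 (one_le w4)))) (le_trans (le_of_eq ?_) tT)
    rw [← mul_assoc, ← _root_.pow_succ, hW, ← Real.exp_nat_mul, ← Real.exp_add, hK]
    congr 1; push_cast; ring

end VH

theorem sJt : SJt := fun N E E' D k β₀ hβ => by
  obtain ⟨C, c, h⟩ := joinTopf k hβ
  refine ⟨C, c, fun η θ β js Γ kf sl X p b t => ?_⟩
  obtain ⟨G, T, a1, a2, a3, a4⟩ := h p b t.toTq t.fa.toTwo (show (-1 : ℚ) ≤ 0 by norm_num)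
  exact ⟨G, T, a1, a2, a3, by simpa using a4⟩

theorem sEnt : SEnt := by
  intro N E E' D k
  have hD : 1 ≤ D := k.one.trans (k.le.trans k.le')
  have c : (1 : ℝ) ≤ 2 * (dV N D + 1) := by linarith [(Nat.cast_nonneg (dV N D) : (0 : ℝ) ≤ _)]
  refine ⟨_, c, fun η θ β js Γ kf sl X p t => ?_⟩
  obtain ⟨kk, la, o, τ, S, C, L, X', F, A, -, a, b, d, e⟩ := t.toFM k.zl hD p.1
    ((le_mul_of_one_le_left p.1.le c).trans p.2.1) p.2.2.1 p.2.2.2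
  exact ⟨_, kk, la, o, τ, S, C, L, fun n => ⟨X' n, F n, A n⟩, ⟨hD, a⟩, b.1, b.2, d, e⟩

theorem sAcw : SAcw := sAcw_of sBr sBF

theorem sCom : SCom := sCom_of sAcw Fl.sCom sFb sClo

end Pool.Agent.MP_5168f5_an.QA.P5.F
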