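import Pool.Agent.MP_4b405e_nt.SK.P5A
import Pool.Agent.MP_5168f5_an.QA.P5OrbAll
import Pool.Agent.MP_5168f5_an.QA.P5SplH
import Pool.Agent.MP_5168f5_an.QA.Os47B

/-! Sparse heights: from the tangent system to the filtered system, second part. -/

namespace Pool.Agent.MP_5168f5_an.QA.P5.F

section OrbD

open H19 H17S H17F R4 AN Filter Matrix IsNilpotent
open GA (Mt ex)
open G39 (dl)
open N6 (Eb)

/-- The algebra of the unit box. -/
def SOa : Prop := ∀ (N D m : ℕ) (π : Pa m) (Hs : Finset ℝ) (W : ℝ) (μ : π.κ → ℝ) (γ : π.κ → ℕ)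
  (Z : ℕ → Mb N D π), π.σ.Ok Hs W → (∀ a, μ a ∈ Hs) → M5 μ γ Z → Com μ Z →
  FnE (PP (sX Z)) (fun n ω => ((Z n).B ω, (Z n).d.c π.σ ω, (Z n).pf ω)) (sT Z) ∧
  FnE (PP (sX Z)) (fun n ω => ((Z n).d.T ω, (Z n).pt ω)) (fun n => (Z n).X.O (-1)) ∧
  Al Z fun n ω u w => Ob.Al π.kk ((Z n).B ω) ((Z n).d.c π.σ ω) (fun a => 0 < μ a) 1 ((Z n).pf ω)
    (Real.exp u) (Real.exp u) (Real.exp (-w)) ∧ Ob.Vb (Real.exp u) ((Z n).pt ω) ∧
    (Z n).pt ω π.o = 1 ∧ (∀ t (ξ : Fin N → ℝ) q,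
      (ex ((Z n).B ω) t *ᵥ (exp (∑ j, ξ j • (Z n).pf ω j) *ᵥ q)) π.o = q π.o) ∧ ∀ ξ : Fin N → ℝ, (∀ j, |ξ j| ≤ Real.exp (Z n).X.u) → Eb (Real.exp (-w))
        (exp (∑ j, ξ j • (Z n).ph ω j) - exp (∑ j, ξ j • (Z n).pf ω j))

/-- Points of one cell, seen from two samples with the same labels. -/
def SOc : Prop := ∀ (N D m : ℕ) (π : Pa m) (Hs : Finset ℝ) (W : ℝ) (μ : π.κ → ℝ) (γ : π.κ → ℕ)
  (Z : ℕ → Mb N D π) (R : ℕ), π.σ.Ok Hs W → (∀ a, μ a ∈ Hs) → M5 μ γ Z →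
  Al Z fun n ω u w => ∀ v ∈ (Z n).X.P.S, (Z n).S v = (Z n).S ω → ∀ y y',
    vc ((Z n).X.S 0 ω).ν (2 * R * (Z n).X.u) y = vc ((Z n).X.S 0 ω).ν (2 * R * (Z n).X.u) y' →
    ∃ t, Ob.Bo (fun a => 0 < μ a) 1 (Real.exp u) (Real.exp (-w)) t ∧
      Ob.Vb (Real.exp u * dl (uu (sX Z)) R n)
        ((Z n).ev ω y - ex ((Z n).B ω) t *ᵥ (Z n).ev v y')

def OfOa : Prop := Ob.STay → Ob.SPrt → SOa
def OfOc : Prop := SBF → Fl.ROut → SOc
def OfOrb : Prop := Ob.SNet → Ob.SJoin → SOa → SOc → SClo → SOrb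

end OrbD

section Oa

open H19 H17S H17F R4 AN Filter Matrix IsNilpotent
open GA (Mt IsFr ex cm)
open N2 (tri)
open N6 (Eb PG pg_id pg_const pg_nat pg_box)
open Fl (Sg Bd Fd One)
open Ob (pj Bo)
open Lt Ob.OrbPhA

variable {N D m : ℕ} {π : Pa m}

/-- The first frame is a basis and `φ` are the matrices of the derivatives. -/
theorem oa_ph (hT : Ob.STay) {Y : ℕ → Bs N D π} (h : M4 Y) : ∀ᶠ n in UF, ∀ ω ∈ (Y n).X.P.S,
    Fr.Sp ((Y n).F.E ω) ∧ LinearIndependent ℝ ((Y n).F.E ω) ∧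
      Ob.Ph (Y n).X.M ((Y n).F.E ω) ((Y n).φ ω) := by
  obtain ⟨Γ, -, g⟩ := h.fm.dB
  filter_upwards [g, h.fm.sp, h.fm.uj] with n a b c ω hω
  have u := (c ω hω).det
  have s : Fr.Sp ((Y n).F.E ω) := by
    have := Fr.Sp.act (b ω hω) u
    rwa [AB.Fd.f, ← Fr.act_mul, mul_nonsing_inv _ u, Fr.act_one] at this
  obtain ⟨φ, k⟩ := (hT N D m (Y n).X.M _ s).1
  exact ⟨s, OaA.li_act (Vh.dg_li (a ω hω) fun _ => Real.exp_pos _) (c ω hω).inv.det, fun j =>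
    funext fun p => (Classical.epsilon_spec (p := fun φ : Mt (Fin m) => ∀ p,
      ((2 : ℝ) ^ (Y n).X.M)⁻¹ • dk j.succ ((Y n).F.E ω p) = Fr.act φ ((Y n).F.E ω) p)
      ⟨φ j, fun p => (congrFun (k j) p).symm⟩ p).symm⟩

theorem ofOa : OfOa := by
  intro hT hR N D m π Hs W μ γ Z ok hμ h hc
  obtain ⟨C, hC, H⟩ := OaA.one hR D (Fin N) π.σ (kk := π.kk) rfl ok.fr (ok.bd 0 ok.zero).2 π.o
  have f := h.fl 1 one_pos 0
  refine ⟨f.mono fun n a ω x v y e => ?_, f.mono fun n a ω x v y e => ?_, ?_⟩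
  · have e1 := a.fU ω x v y e
    have e2 : (Z n).F.E ω = (Z n).F.E v := a.f0 ω x v y e
    simp only [Prod.mk.injEq] at e1
    simp only [Mb.B, Fd.B, Fd.c, e1.1, e1.2, true_and, Prod.mk.injEq]
    funext j
    simp only [Mb.pf, Ob.pf, Ob.pe, Bs.φ, a.fE ω x v y e, e2]
  · have e0 := a.fT ω x v y e
    have e1 := a.fU ω x v y e0
    have e2 := a.fk ω x v y e
    simp only [Prod.mk.injEq] at e1 e2
    simp only [Mb.pt, Mb.B, Fd.B, e0, e1.1, e2.1]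
  have hf : LC.Au (uu (sX Z)) _ := h.fl
  unfold Com Al at hc
  unfold Al
  refine Fl.au_lin h.m4.ts.big (Fl.au_and hf hc) (fun n u u' w w' a b k ω x => ?_) hC ?_
  · obtain ⟨k1, k2, k3, k4, k5⟩ := k ω x
    have e := LC.ex_le (neg_le_neg b)
    exact ⟨k1.mono (LC.ex_le a) e, fun p => (k2 p).trans (LC.ex_le a), k3, k4,
      fun ξ s => eb_mono (k5 ξ s) e⟩
  filter_upwards [oa_ph hT h.m4] with n a u w u1 hw k ω x
  obtain ⟨t1, t2, t3⟩ := ((hT N D m _ _ (a ω x).1).2 _ (a ω x).2.2).2 (a ω x).2.1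
  obtain ⟨k1, k2, k3⟩ := H _ _ _ _ (Z n).bd (Z n).d _ _ μ γ _ u w ((Z n).φ ω) ω
    (fun a => ok.bd _ (hμ a)) (Nat.cast_nonneg _) u1 hw k.1 x (k.2 ω x) t2 fun ξ => (t3 ξ).1
  have ko := h.m4.fm.ko
  refine ⟨k1, k2, ?_, fun t ξ q => ?_, k3⟩
  · exact (OaA.row ko (k1.fr.mem _) _).trans (Pi.single_eq_same _ _)
  · exact (OaA.row ko (k1.fr.mem _) _).trans (OaA.row ko (comb_mem k1.mf ξ) q)

end Oa

section Oc

open H19 H17S H17F R4 AN Filter Matrix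
open GA (Mt IsFr ex)
open G39 (dl)
open N2 (tri)
open N6 (Eb)
open LC (Au)
open Fr (act)
open Ob (Vb)

open P5Oc in
theorem ofOc : OfOc := by
  intro hB hO N D m π Hs W μ γ Z R ok hμ h
  obtain ⟨C, hC, H⟩ := hO _ _ _ π.σ Hs W μ γ ok hμ
  obtain ⟨A, hA, HA⟩ := Ob.AlA.bB π.σ.B
  obtain ⟨a, ha, Ha⟩ := Ob.OrbPhA.ex_eb m (Fintype.card π.κ)
  obtain ⟨K, hK, HK⟩ := Ob.sPg a ha
  obtain ⟨Γ, g, hg⟩ := h.m4.fm.dg 0
  have k0 : (0 : ℝ) ≤ K * (K + A) := by positivity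
  have d0 : (0 : ℝ) ≤ dV N D := Nat.cast_nonneg _
  have m0 : (0 : ℝ) ≤ m := Nat.cast_nonneg _
  have h3 : Au (uu (sX Z)) fun n u _ => ∀ ω ∈ (Z n).X.P.S, ∀ p,
      ((Z n).X.S 0 ω).ν ((Z n).F.f ω p) ≤ Real.exp u := fun c hc _ => by
    filter_upwards [hg, g.2 c hc] with n x y ω k p
    have := (x ω k).1 p
    rw [AB.rd, AB.lb, h.m4.hb n, sub_self, mul_zero, neg_zero, Real.exp_zero, mul_one] at this
    exact this.trans y
  refine Fl.au_lin (C := C + (m + 1 + K * (K + A) + (dV N D + 1))) h.m4.ts.big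
    (Fl.au_and (Fl.au_and h.fl (hB N D m π _ h.m4 (-1) le_rfl (by norm_num))) h3)
    (fun n u u' w w' x y z ω k v l e p p' q => (z ω k v l e p p' q).imp fun t s =>
      ⟨fun b => ⟨fun i => ((s.1 b).1 i).trans (mul_le_mul_of_nonneg_right (LC.ex_le x) zero_le_one),
        fun i => ((s.1 b).2 i).trans (LC.ex_le (neg_le_neg y))⟩, fun r => (s.2 r).trans
        (mul_le_mul_of_nonneg_right (LC.ex_le x) (Real.exp_pos _).le)⟩) (by linarith) ?_
  filter_upwards [h.m4.sur.hb 0, h.m4.fm.uj] with n hb uj u w hu hw ⟨⟨o, b⟩, z⟩ ω k v l e y y' q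
  have M0 : (0 : ℝ) ≤ (Z n).X.u := Nat.cast_nonneg _
  have c1 : C * (u + (Z n).X.u) ≤ (C + (m + 1 + K * (K + A) + (dV N D + 1))) * (u + (Z n).X.u) :=
    mul_le_mul_of_nonneg_right (by linarith) (by linarith)
  obtain ⟨e1, e2⟩ := Prod.ext_iff.1 e
  obtain ⟨t, t1, t2⟩ := (H _ _ _ _ _ _ _ _ _ _ _ u w M0 hu (c1.trans hw) o b (fun _ _ _ _ x => x)
    ω k v l).2.1 e2.symm
  have f1 : IsFr (tri π.kk) ((Z n).B ω) ((Z n).d.c π.σ ω) :=
    ((GA.sFr _ _ π.σ.Φ π.σ.B π.σ.c).2 _ _ (o.inv ω k)).1 ok.fr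
  have mu := GA.sMul _ _ _ _ _ f1
  refine ⟨t, fun i => ⟨fun _ => ((t2 i).2.2 e1.symm).trans ?_, fun x => ((t2 i).2.1
    (le_antisymm (not_lt.1 x) (ok.bd _ (hμ i)).1)).trans (LC.ex_le (by linarith))⟩, fun p => ?_⟩
  · rw [Pi.one_apply, mul_one]
    exact LC.ex_le (mul_le_mul_of_nonneg_right (by linarith) (by linarith))
  have e3 : (Z n).F.E v = (Z n).F.E ω := o.f0 v l ω k e2
  have e4 : ((Z n).G ω)⁻¹ = ex ((Z n).B ω) ((Z n).d.k ω) * ((Z n).F.J ω)⁻¹ := by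
    rw [Mb.G, Fl.Fd.G, Matrix.mul_inv_rev, inv_eq_left_inv (mu.neg _).2]; rfl
  rw [Mb.ev, Mb.ev, ev_act, ev_act, e3, show (Z n).G v = _ from t1, Matrix.mul_inv_rev,
    inv_eq_right_inv (mu.neg t).2, mulVec_mulVec, ← mul_assoc, (mu.neg t).2, one_mul, e4,
    ← mulVec_sub, ← mulVec_mulVec, mulVec_sub, ← ev_act, ← ev_act]
  have a1 : 1 ≤ Real.exp (A * u) := Real.one_le_exp (by positivity)
  have b1 : Eb (Real.exp (K * (K + A) * u)) (ex ((Z n).B ω) ((Z n).d.k ω)) := fun r s =>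
    (((Ha _ _ _ _ _ _ le_rfl f1 a1 (HA _ u hu fun i j => (o.bU ω k i j).1) fun i =>
      (o.bk ω k i).trans (LC.ex_le (le_mul_of_one_le_left (by linarith) hA))).1 r s).trans
      (HK _ a1)).trans (Fl.FlOut.pw hu)
  refine (N6.Cb.mul (o := p) (Y := of fun r _ => _) b1 (cell (hb ω k) (z ω k) q)
    (Real.exp_pos _).le (by positivity) p).trans ?_
  rw [← mul_assoc]
  refine mul_le_mul_of_nonneg_right ((mul_le_mul (mul_le_mul_of_nonneg_right
    (Ob.AlA.le_exp (by positivity) hu) (Real.exp_pos _).le) (mul_le_mul_of_nonneg_right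
    (Ob.AlA.le_exp d0 hu) (Real.exp_pos _).le) (by positivity) (by positivity)).trans ?_)
    (Real.exp_pos _).le
  simp only [← Real.exp_add]
  exact LC.ex_le (by nlinarith)

end Oc

section Orb1

open H19 H17S H17F R4 AN Filter Matrix
open G39 (dl dl_pos)
open LC (ex_le)
open Fl (au_and au_ex ev_ex)
open OrbA

variable {N D m : ℕ} {π : Pa m} {μ : π.κ → ℝ} {γ : π.κ → ℕ} {Z : ℕ → Mb N D π} {Hs : Finset ℝ}
  {W : ℝ}

/-- One accuracy. -/
theorem orb_step (hN : Ob.SNet) (hJ : Ob.SJoin) (ha : SOa) (hc : SOc) (hZ : ZL N D)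
    (pa : Par N D (2 * (dV N D + 1)) π.η π.θ) (ok : π.σ.Ok Hs W) (hμ : ∀ a, μ a ∈ Hs)
    (h : M5 μ γ Z) (co : Com μ Z) (vh : VH μ Z 0) (R : ℕ) :
    ∃ q : ∀ n, (Z n).X.Ω → Fin m → ℝ, FnE (PP (sX Z)) q (fun n => (Z n).X.O (-1)) ∧
      (Sm (uu (sX Z)) fun n => ch (Z n).X.P (q n) ((Z n).X.S 0)) ∧ ∀ c : ℝ, 0 < c → ∀ᶠ n in UF,
        ∀ ω ∈ (Z n).X.P.S, Gq μ (Z n) (q n) ω (c * (Z n).X.u) (R * (Z n).X.u) := by
  have hB : Big (uu (sX Z)) := h.m4.ts.big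
  obtain ⟨f1, f2, a1⟩ := ha N D m π Hs W μ γ Z ok hμ h co
  have a3 := hc N D m π Hs W μ γ Z (R + 1) ok hμ h
  have a4 := h.fl
  unfold VH at vh
  unfold Al at a1 a3 vh
  unfold Fl.FL at a4
  obtain ⟨a, w, uw, H⟩ := au_ex hB (au_and (au_and a1 vh) (au_and a3 a4))
  obtain ⟨F, hF, cv⟩ := Ob.conv m (Fintype.card π.κ)
  obtain ⟨C, c1, np⟩ := Ob.np hN hJ m (Fintype.card π.κ + Fintype.card (Fin N))
  have s0 : Sub (uu (sX Z)) fun n => Real.exp |a n| := ⟨fun _ => Real.one_le_exp (abs_nonneg _),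
    fun c e => ((uw.sm c e).and uw.one).mono fun n k => ex_le (by
      rw [abs_of_nonneg (zero_le_one.trans k.2)]; exact k.1)⟩
  have s1 := (hF.2 _ _ hB s0).mul s0
  have s2 := GA.sub_box hB s1 c1
  have s3 := (hF.2 _ _ hB s2).mul s2
  let y : ∀ n, NW (Z n).X.Ω N ((Z n).X.u * (Z n).X.u) → V (N + 1) := fun n =>
    vp (Z n).X.g (Z n).X.M ((Z n).X.lv 0) _
  obtain ⟨q, hq⟩ := ev_ex (p := fun n (q : (Z n).X.Ω → Fin m → ℝ) =>
      Fn (Z n).X.P q ((Z n).X.O (-1)) ∧ (∀ ω ∈ (Z n).X.P.S, ∀ u, (C * (F (Real.exp |a n|) *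
        Real.exp |a n|)) ^ C ≤ Real.exp u → Gq μ (Z n) q ω u (R * (Z n).X.u)) ∧
      Det (NQ (Z n).X.P N _) (fun v => q v.1) (fun v => ((Z n).d.T v.1, (Z n).X.S 0 v.1,
        vc ((Z n).X.S 0 v.1).ν (2 * (R + 1) * (Z n).X.u) (y n v)))
        ((C * (F (Real.exp |a n|) * Real.exp |a n|)) ^ C)) (fun _ => 0) (by
    filter_upwards [H, f1, f2, s0.2 1 one_pos, s2.2 1 one_pos, s3.2 1 one_pos,
      uw.bg (R + 1 : ℕ)] with n ⟨⟨b1, b2⟩, b3, _⟩ g1 g2 l0 l2 l3 w1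
    have k0 := s0.1 n
    have k1 := s1.1 n
    have k2 := s2.1 n
    have f0 := hF.1 _ k0
    have f2 := hF.1 _ k2
    have t0 := dl_pos (uu (sX Z)) (R + 1 : ℕ) n
    have t1 : Real.exp (-w n) ≤ dl (uu (sX Z)) (R + 1 : ℕ) n := ex_le (neg_le_neg w1)
    have t2 : Real.exp (1 * (Z n).X.u) * dl (uu (sX Z)) (R + 1 : ℕ) n =
        Real.exp (-(R * (Z n).X.u)) := by
      rw [dl, ← Real.exp_add]; congr 1; push_cast; ring
    have t3 : Real.exp (-(R * (Z n).X.u : ℝ)) ≤ 1 :=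
      Real.exp_le_one_iff.2 (neg_nonpos.2 (by positivity))
    have t4 : dl (uu (sX Z)) (R + 1 : ℕ) n ≤ 1 :=
      Real.exp_le_one_iff.2 (neg_nonpos.2 (by positivity))
    have e0 : Real.exp (a n) ≤ Real.exp |a n| := ex_le (le_abs_self _)
    simp only [one_mul] at l0
    beta_reduce at k0 k1 k2 f0 f2
    generalize Real.exp |a n| = L at *
    generalize dl (uu (sX Z)) (R + 1 : ℕ) n = θ at *
    have p0 := Real.exp_pos (-w n)
    have e1 : L ≤ F L * L := le_mul_of_one_le_left (by linarith) f0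
    have e2 : Real.exp (-w n) ≤ F L * L * θ := t1.trans (le_mul_of_one_le_left t0.le k1)
    have mem := fun v (hv : v ∈ (NQ (Z n).X.P N ((Z n).X.u * (Z n).X.u)).S) =>
      ((S20.mem_prod v).1 hv).1
    obtain ⟨q, q1, q2, q3⟩ := np π.κ (Fin N) _ _ _ _ π.kk (fun a => 0 < μ a) (Z n).X.P
      (NQ (Z n).X.P N _) Prod.fst ((Z n).X.O (-1)) (fun v => ((Z n).d.T v.1, (Z n).X.S 0 v.1,
        vc ((Z n).X.S 0 v.1).ν (2 * (R + 1) * (Z n).X.u) (y n v)))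
      (fun ω => ((Z n).B ω, (Z n).d.c π.σ ω, (Z n).pf ω)) (Z n).pt
      (fun v => (Z n).ev v.1 (y n v)) (F L * L) θ le_rfl k1 t0.le
      (((mul_le_mul_of_nonneg_right l2 t0.le).trans_eq t2).trans t3)
      ((g1.trans ((Fn.fst _ _).trans g2)).pair ((Fn.snd _ _).trans g2))
      (fun ω hω => ⟨(b1 ω hω).1.wk (e0.trans e1) t1, (b1 ω hω).2.1.wk (e0.trans e1)⟩)
      (fun v hv => ⟨mem v hv, by
        obtain ⟨u1, u2, -, -, u3⟩ := b1 _ (mem v hv)
        have u4 := b2 _ (mem v hv) _ (seg_mono (by norm_num) (vp_mem _ _ _ _ v))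
        rw [Mb.Nb, rho (by simp)] at u4
        exact (cv _ _ _ _ _ _ _ _ L _ _ _ le_rfl u1.fr k0 p0.le (by linarith)
          (fun a => Lt.eb_mono (u1.bB a) e0) (u2.wk e0) (fun ξ e => u3 ξ fun j => (e j).trans l0)
          (u4.wk (fun _ => zero_le_one) e0 le_rfl)).wk (fun _ => zero_le_one) e1
          (mul_le_mul (le_mul_of_one_le_right (by linarith) k0) t1 p0.le (by linarith))⟩)
      fun v hv v' hv' e => by
        have u1 := congrArg Prod.fst e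
        have u2 := congrArg (fun z => z.2.1) e
        have u3 := congrArg (fun z => z.2.2) e
        dsimp only at u1 u2 u3
        rw [u2] at u3
        obtain ⟨t, u4, u5⟩ := b3 _ (mem v hv) _ (mem v' hv') (Prod.ext u2 u1) _ _ u3.symm
        exact ⟨g1 _ (mem v' hv') _ (mem v hv) u1, t, u4.wk (fun _ => zero_le_one) (e0.trans e1) e2,
          u5.wk (mul_le_mul_of_nonneg_right (e0.trans e1) t0.le)⟩
    refine ⟨q, q1, fun ω hω u hu => ?_, q3⟩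
    obtain ⟨u1, -, u2, u3, u4⟩ := b1 ω hω
    obtain ⟨v1, v2⟩ := q2 ω hω
    have e3 := (Ch.gr_pw c1).le _ k1
    rw [one_mul] at l2
    generalize (C * (F L * L)) ^ C = L₂ at *
    have e4 : F L₂ * (L₂ * θ) ≤ Real.exp (-(R * (Z n).X.u)) := by
      rw [← mul_assoc]; exact (mul_le_mul_of_nonneg_right l3 t0.le).trans_eq t2
    refine ⟨?_, fun p => (v1 p).trans hu, ?_⟩
    · obtain ⟨t, ξ, -, -, z⟩ := v2
      have := z π.o
      rw [Pi.sub_apply, u2, u3, abs_sub_comm] at this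
      exact this.trans ((le_mul_of_one_le_left (by positivity) f2).trans e4)
    · rw [Mb.Nb, rho rfl]
      exact (cv _ _ _ _ _ _ _ _ L₂ _ _ _ le_rfl u1.fr k2 (by positivity)
        (mul_le_of_le_one_right (by linarith) t4) (fun a => Lt.eb_mono (u1.bB a) (by linarith)) v1
        (fun ξ e => neg_sub (α := GA.Mt (Fin m)) _ _ ▸ Lt.eb_neg (Lt.eb_mono
          (u4 ξ fun j => (e j).trans l2) (t1.trans (le_mul_of_one_le_left t0.le k2)))) v2).wk
        (fun _ => zero_le_one) hu e4)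
  refine ⟨q, hq.mono fun _ k => k.1, hZ _ _ _ _ _ (fun n => (Z n).X.u) (fun n => (Z n).X.u * (Z n).X.u) _ q
    (2 * (R + 1)) (h.m4.ts.toTq.tb.o1' pa le_rfl (Set.mem_univ 0)) (fun K => (hB.ev K).mono
      fun n e => Nat.mul_le_mul_right _ (by exact_mod_cast e)) fun c e => ?_, fun c e => ?_⟩
  · filter_upwards [hq, H, uw.sm _ (half_pos e), s2.log _ (half_pos e)] with n k ⟨_, _, b⟩ u v
    have m1 := fun v (hv : v ∈ (NQ (Z n).X.P N ((Z n).X.u * (Z n).X.u)).S) =>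
      ((S20.mem_prod v).1 hv).1
    have z1 := ch_det k.2.2
    have z2 := ch_det (P := NQ (Z n).X.P N _) (F := fun v => (Z n).d.T v.1) (G := fun v =>
      ((Z n).X.S 0 v.1, vc ((Z n).X.S 0 v.1).ν (2 * (R + 1) * (Z n).X.u) (y n v)))
      fun v hv => (b.few _ (m1 v hv)).imp fun _ k =>
        ⟨k.1, fun v' hv' z => k.2 _ (m1 v' hv') (congrArg Prod.fst z)⟩
    rw [Real.log_exp] at z2
    have z3 := (ch_tri _ _ _).trans (add_le_add z2 z1)
    exact z3.trans (by linarith)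
  · filter_upwards [hq, s2.2 c e] with n k u ω hω using k.2.1 ω hω _ u

theorem ofOrb : OfOrb := by
  intro hN hJ ha hc cl N D m π Hs W μ γ Z hZ pa ok hμ h co vh
  have hB : Big (uu (sX Z)) := h.m4.ts.big
  choose q q1 q2 q3 using orb_step hN hJ ha hc hZ pa ok hμ h co vh
  obtain ⟨k, hk, e⟩ := ks.spill (fun k n => Fn (Z n).X.P (q k n) ((Z n).X.O (-1)) ∧
    ch (Z n).X.P (q k n) ((Z n).X.S 0) ≤ 0 + 1 / (k + 1) * (Z n).X.u ∧ ∀ ω ∈ (Z n).X.P.S,
      Gq μ (Z n) (q k n) ω (1 / (k + 1) * (Z n).X.u) (k * (Z n).X.u)) fun k =>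
    (q1 k).and ((q2 k _ (by positivity)).and (q3 k _ (by positivity)))
  replace e := e.mono fun n a => a _ le_rfl
  choose G g1 g2 using fun n => Ob.ent_few (Z n).X.P (q (k n) n) ((Z n).X.S 0)
  obtain ⟨G', i1, -, i2⟩ := ex_trf (X := sX Z) (G := G) h.m4.ts.fa.bU fun c hc =>
    (G39.dl_lt h.m4.ts.fa.bU one_half_pos hc).mono fun n a => a.le.trans (g1 n)
  have sm := fun {c : ℝ} (hc : 0 < c) => (K31.small hc hk).mono fun n a =>
    mul_le_mul_of_nonneg_right a (Nat.cast_nonneg (α := ℝ) (Z n).X.u)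
  refine ⟨fun n => ((Z n).res (G' n)).ref (q (k n) n), fun n => q (k n) n,
    (cl N D m π μ γ _ ((cl N D m π μ γ Z h).1 G' i2)).2 _ _
      (e.mono fun _ a => Fl.fn_sub a.1 fun _ => cE_sub) fun c hc => ?_,
    fun c hc T => (co c hc T).mono fun _ a ω hω => a ω (cE_sub hω),
    Eventually.of_forall fun _ => (Fn.snd _ _).trans Fl.fn_atm, fun c hc T => ?_⟩
  · filter_upwards [e, i2.mem, sm (show 0 < c / 4 by positivity), hB.ev (2 / c)] with n a b u v ω hω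
    obtain ⟨U, u1, u2⟩ := g2 n ω (b ω hω).1
    refine ⟨U, u1.trans (ex_le ?_), fun z hz y => u2 z (b z hz).1 (congrArg Prod.fst y)
      (i1 _ _ (b z hz).2)⟩
    rw [div_le_iff₀ hc] at v
    linarith [a.2.1]
  · filter_upwards [e, sm hc, hk.ev T] with n a u v ω hω
    exact (a.2.2 ω (cE_sub hω)).wk u (mul_le_mul_of_nonneg_right v (Nat.cast_nonneg _))

end Orb1

theorem sOrb : SOrb := ofOrb Ob.sNet Ob.sJoin (ofOa Ob.sTay Ob.sPrt) (ofOc sBF Fl.rOut) sClo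

section SplH

open H19 H17S H17F R4 AN Filter Finset Matrix IsNilpotent
open GA (Mt ex vec cm)
open N6 (Eb)
open LC (Au Mo ex_le)
open PA (sP sM)
open Lt Vh Fl

variable {N D m : ℕ} {π : Pa m}

/-- A class with additional sure facts. -/
theorem payf {κ' : Type} {Ω Λ : ℕ → Type} {K : (∀ n, PA.Pr κ' (Ω n) (Λ n)) → Prop} {kf : ℕ → ℕ}
    (h : Czf kf K)
    (ψ : ∀ n, Ω n → ℝ → ℝ → Prop) (hm : ∀ n ω, Mo (ψ n ω)) :
    Czf kf fun X => K X ∧ Au (sM X) fun n u w => ∀ ω ∈ (X n).P.S, ψ n ω u w :=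
  ⟨h.cf.and (LC.cf_au (S := fun n => PA.Pr κ' (Ω n) (Λ n)) (fun _ z => z.M)
      (fun n z u w => ∀ ω ∈ z.P.S, ψ n ω u w) fun n _ _ _ _ _ a b c ω x => hm n ω _ _ _ _ a b (c ω x)),
    fun X e a b c => ⟨h.idx X e a b c.1, c.2.unit (cmp_idx (h.big X c.1) 0 a)
      fun n _ _ _ _ a b c ω x => hm n ω _ _ _ _ a b (c ω x)⟩,
    fun X G c g => ⟨h.res X G c.1 g, fun e he T => (c.2 e he T).mono fun _ a ω x => a ω (cE_sub x)⟩,
    fun X c => h.big X c.1, fun X c => h.nest X c.1, fun X c => h.two X c.1⟩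

open SplH in
theorem splH_of (hB : SBr) (hF : SBF) (hO : SOk) (h3 : AB.SL3) : SSpl := by
  intro N D m π Hs W μ γ Z q ok hμ h co ob
  have big := h.m4.ts.big
  unfold Com Al at co
  have l1 := h.m4.l1
  have l2 := h.m4.l2
  have l3 := h3 _ _ _ _ _ _ _ _ _ _ _ _ _ _ _ _ _ _ _ _ h.m4.ts.toTq h.m4.fm.toMI h.m4.hb l1 l2
  have bf := hF N D m π _ h.m4
  obtain ⟨K, cz, k0, hK⟩ := hB N D m π _ h.m4
  obtain ⟨u, w, a1, a2⟩ := au_ex big ob.nb
  let χ := fun n (ξ : (Z n).X.Ω → Fin N → ℝ) u w => ∀ ω ∈ (Z n).X.P.S, (∀ j, |ξ ω j| ≤ Real.exp u) ∧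
    ∃ t, Ob.Bo (fun a => 0 < μ a) 1 (Real.exp u) (Real.exp (-w)) t ∧ Ob.Vb (Real.exp (-w))
      ((Z n).pt ω - ex ((Z n).B ω) t *ᵥ (exp (∑ j, ξ ω j • (Z n).ph ω j) *ᵥ q n ω))
  obtain ⟨ξ, hξ⟩ := ev_ex (p := fun n ξ => χ n ξ (u n) (w n)) (fun _ _ => 0) (a2.mono fun n x => by
    choose! t ξ b1 b2 b3 using fun ω y => (x ω y).2.2
    exact ⟨ξ, fun ω y => ⟨b2 ω y, t ω, fun a => by simpa using b1 ω y a, b3 ω y⟩⟩)
  have aξ : Au (uu (sX Z)) fun n => χ n (ξ n) := au_of a1 (fun n _ _ _ _ a e x ω y =>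
    ⟨fun j => ((x ω y).1 j).trans (ex_le a), (x ω y).2.imp fun t b => ⟨fun i =>
      ⟨fun c => ((b.1 i).1 c).trans (mul_le_mul_of_nonneg_right (ex_le a) zero_le_one),
        fun c => ((b.1 i).2 c).trans (ex_le (neg_le_neg e))⟩,
      vb_mono b.2 (ex_le (neg_le_neg e))⟩⟩) hξ
  have nil : ∀ᶠ n in UF, ∀ ω ∈ (Z n).X.P.S, (∑ j, ξ n ω j • (Z n).ph ω j) ^ (D + 1) = 0 := by
    obtain ⟨Γ, -, dB⟩ := h.m4.fm.dB
    filter_upwards [h.m4.ph, h.m4.fm.sp, dB, h.fl 1 one_pos 0, bf 0 (by norm_num) le_rfl 1 one_pos 0]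
      with n x y z f g ω s
    have e := ((((Ob.sTay N D m _ _ (y ω s)).2 _ (x ω s).2.2).2 (dg_li (z ω s)
      fun _ => Real.exp_pos _)).2.2 (ξ n ω)).1
    have i := (GA.sMul _ _ _ _ _ (((GA.sFr _ _ _ _ _).2 _ _ (f.inv ω s)).1 ok.fr)).neg ((Z n).d.k ω)
    have : ∑ j, ξ n ω j • (Z n).ph ω j = ex ((Z n).B ω) ((Z n).d.k ω) *
        (∑ j, ξ n ω j • (((Z n).F.J ω)⁻¹ * (Z n).φ ω j * (Z n).F.J ω)) *
        ex ((Z n).B ω) (-(Z n).d.k ω) := by
      rw [mul_sum, sum_mul]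
      refine sum_congr rfl fun j _ => ?_
      rw [Mb.ph, Mb.G, Fd.G, Matrix.mul_inv_rev, Matrix.inv_eq_left_inv (show ex ((Z n).B ω) _ *
        ex ((Z n).B ω) (-(Z n).d.k ω) = 1 from i.2)]
      simp only [mul_smul_comm, smul_mul_assoc, mul_assoc]
      rfl
    rw [this]
    exact (Units.conj_pow ⟨_, _, i.2, i.1⟩ _ _).trans (by rw [e, mul_zero, zero_mul])
  let z : ∀ n, Spl.Od (Fin m) (N2.El π.la) (Option (Fin N)) (Z n).X.Ω := fun n =>
    ⟨fun ω j => j.elim (exp (∑ j, ξ n ω j • (Z n).ph ω j)) ((Z n).ph ω),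
      fun ω => exp (-∑ j, ξ n ω j • (Z n).ph ω j), q n,
      fun ω j => if j = 0 then Pi.single π.o 1 else AB.jet (Z n).X (Z n).F ω j,
      fun ω i => AB.lt π.la ((Z n).A ω) i π.τ π.o⟩
  let ψ := fun n (ω : (Z n).X.Ω) (u w : ℝ) => (∀ j, |ξ n ω j| ≤ Real.exp u) ∧
    ∀ j p q, ¬π.kk q < π.kk p → |(Z n).ph ω j p q| ≤ Real.exp (-w)
  obtain ⟨γ', X', d', pos, t, m1, -, o1, out, -, rel⟩ := Spl.sSplf _ _ _ _ _ _ _ _ _ π.kf π.σ
    (fun n => (Z n).bd) _ Hs W μ γ π.o π.τ lg none z (fun n => (Z n).pr) (fun n => (Z n).d) ok hμ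
    (payf cz ψ fun n ω _ _ _ _ a e x => ⟨fun j => (x.1 j).trans (ex_le a),
      fun j p q y => (x.2 j p q y).trans (ex_le (neg_le_neg e))⟩)
    ⟨⟨k0, fun c hc T => ((aξ c hc T).and (co c hc T)).mono fun n x ω y =>
      ⟨(x.1 ω y).1, fun j p q => (x.2 ω y j p q).2.1⟩⟩, bf, h.fl⟩ (hO m π h.m4.fm.ko).2
    (fun j c hc T => by
      filter_upwards [l1.mem, h.m4.vecH, l2.long c hc, l3.bd c hc, l3.zero (T + 1), l3.r6 (T + 1),
        G39.big_dl big π.C hc, G39.big_dl big (m * π.C + 1) one_pos] with n x y b1 b2 b3 b4 b5 b6 ω s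
      have e0 : G39.dl (uu (sX Z)) (T + 1) n * (m * π.C + 1) ≤ Real.exp (-(T * (Z n).X.u)) := by
        rw [G39.dl_add, mul_assoc]
        exact mul_le_of_le_one_right (G39.dl_pos _ _ _).le
          ((le_inv_mul_iff₀ (G39.dl_pos _ _ _)).1 (by rwa [mul_one]))
      rw [G39.dl_inv] at b5
      refine ⟨(b1 ω s).imp fun a e => ⟨?_, (y ω s a).symm ▸ e⟩, by simp [z], fun r i =>
        ⟨?_, ((x ω s i).2.2.2 _ _).1.trans b5⟩, fun i r => ?_⟩
      · have := (((x ω s a).2.2.2 _ _).2 (abs_pos.1 ((Real.exp_pos _).trans_le e))).2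
        rw [h.m4.fm.lo, h.m4.fm.lτ, sub_zero] at this
        exact this.symm
      · simp only [z]
        split_ifs
        · exact le_trans (by rw [Pi.single_apply]; split_ifs <;> simp)
            (Real.one_le_exp (by positivity))
        · exact b2 ω s j r
      · have p := G39.dl_pos (uu (sX Z)) (T + 1) n
        have c0 : 0 ≤ π.C := (abs_nonneg _).trans ((x ω s i).2.2.2 r r).1
        have c1 : 0 ≤ m * π.C := by positivity
        have := b4 ω s i j r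
        simp only [z, y ω s i, if_neg j.succ_ne_zero]
        split_ifs with e
        · have k := vb_mv (fun q p => ((x ω s i).2.2.2 p q).1) p.le (v := Pi.single π.o 1 -
            AB.jet (Z n).X (Z n).F ω 0) (fun q => by
              rw [Pi.sub_apply, abs_sub_comm, Pi.single_apply, ← one_apply]; exact b3 ω s q) r
          rw [mulVec_sub, Pi.sub_apply] at k
          subst e
          exact ((abs_sub_le _ _ _).trans (add_le_add k this)).trans (le_trans (le_of_eq (by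
            rw [mul_add, mul_one, mul_comm])) e0)
        · exact this.trans (le_trans (by nlinarith) e0))
    ⟨ob.fn, au_lin big (au_and co (au_and aξ ob.nb)) (fun _ => Spl.mo_ob)
      (C := (2 * (D + 1) + 2 : ℕ) * ((2 * (m + 1) + (D + 1) : ℕ) + N + 2))
      (one_le_mul_of_one_le_of_one_le (by exact_mod_cast (by omega)) (by
        linarith [Nat.cast_nonneg (α := ℝ) (2 * (m + 1) + (D + 1)), Nat.cast_nonneg (α := ℝ) N]))
      (nil.mono fun n x u w u1 w1 y ω s => by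
        obtain ⟨b1, t, b2, b3⟩ := y.2.1 ω s
        obtain ⟨c1, c2, c3⟩ := pw (w := w) u1 (x ω s) b1 fun j q p => (y.1 ω s j p q).1
        have C1 : (1 : ℝ) ≤ (2 * (D + 1) + 2 : ℕ) * ((2 * (m + 1) + (D + 1) : ℕ) + N + 2) :=
          one_le_mul_of_one_le_of_one_le (by exact_mod_cast (by omega)) (by
            linarith [Nat.cast_nonneg (α := ℝ) (2 * (m + 1) + (D + 1)), Nat.cast_nonneg (α := ℝ) N])
        generalize (2 * (D + 1) + 2 : ℕ) * ((2 * (m + 1) + (D + 1) : ℕ) + N + 2 : ℝ) = C at *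
        have m0 : 0 ≤ C * uu (sX Z) n := by positivity
        have e1 : Real.exp u ≤ Real.exp (C * u) := ex_le (by nlinarith)
        have e2 : Real.exp (-w) ≤ Real.exp (-(w - C * (u + uu (sX Z) n))) := ex_le (by nlinarith)
        refine ⟨exp_neg_mul_exp_self ⟨_, x ω s⟩, fun j p r => ⟨?_, c2 r p,
          ((y.2.2 ω s).2.1 r).trans e1⟩, (y.2.2 ω s).1.trans e2, fun a j p r e => ?_, t, fun a =>
          ⟨?_, fun e => ((b2 a).2 e.not_gt).trans e2⟩, fun r => (b3 r).trans e2⟩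
        · cases j
          exacts [c1 r p, (y.1 ω s _ p r).1.trans e1]
        · cases j
          exacts [(c3 _ (fun j q p => (y.1 ω s j p q).2.2 a e) r p).trans
            (ex_le (neg_le_neg (sub_le_sub_left (mul_le_mul_of_nonneg_left
              (le_add_of_nonneg_right (Nat.cast_nonneg _)) (by linarith)) w))),
            ((y.1 ω s _ p r).2.2 a e).trans e2]
        · by_cases e : 0 < μ a
          · exact (((b2 a).1 e).trans_eq (mul_one _)).trans e1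
          · exact ((b2 a).2 e).trans (ex_le (by nlinarith)))⟩
  obtain ⟨P, u', lv, S, s, j, p1, p2, p3⟩ := hK X' m1.k.1
  let Z' : ℕ → Mb N D π := fun n => ⟨(Z n).toBs.sub (P n) (u' n) (lv n) (S n) (s n) (j n), d' n⟩
  have tr : ∀ {φ : ∀ n, (Z n).X.Ω → ℝ → ℝ → Prop},
      (Au (sM X') fun n u w => ∀ ω ∈ (X' n).P.S, φ n ω u w) → Al Z' φ := fun a c hc T => by
    filter_upwards [a c hc T, p3] with n x y
    simp only [sM] at x
    rw [y] at x
    exact x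
  have ph : ∀ᶠ n in UF, ∀ ω ∈ (P n).S, (Z' n).ph ω = (Z n).ph ω := by
    filter_upwards [rel, p3] with n x y ω s
    rw [y] at x
    funext j
    rw [Mb.ph, show (Z' n).G ω = (Z n).G ω from (x ω s).2]
    rfl
  refine ⟨γ', Z', q, pos, t, unp p1 p2 p3 m1.fl, fun c hc T => ?_, ⟨?_, fun c hc T => ?_⟩,
    out.live, out.tau, out.wt, fun c hc T => ?_, fun v hv => tr (out.cur v hv)⟩
  · filter_upwards [ph, tr o1.ob c hc T, tr m1.k.2 c hc T] with n x y y' ω s j p r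
    rw [x ω s]
    exact ⟨((y ω s).bd (some j) p r).1, (y' ω s).2 j p r, fun a e => (y ω s).com a (some j) p r e⟩
  · filter_upwards [o1.fq, p3] with n x y
    simp only [sP] at x
    rw [y] at x
    exact x
  · filter_upwards [ph, tr o1.ob c hc T, tr m1.k.2 c hc T] with n x y y' ω s
    obtain ⟨t, b1, b2⟩ := (y ω s).orb
    refine ⟨(y ω s).qo, fun p => ((y ω s).bd none p p).2.2, t, ξ n ω, fun a =>
      ⟨fun _ => by simpa using (b1 a).1, fun e => (b1 a).2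
        (le_antisymm (not_lt.1 e) (ok.bd _ (hμ a)).1)⟩, (y' ω s).1, ?_⟩
    rw [x ω s]
    exact b2
  · exact (tr out.sp c hc T).mono fun n x ω s =>
      let k := x ω s; ⟨k.chB, k.chA, k.chi, k.stab, k.sub, k.cur⟩

end SplH

theorem sSpl : SSpl := splH_of sBr sBF sOk AB.sL3

section Os

open H19 H17S H17F R4 AN AN.N6 Filter Matrix IsNilpotent Finset Os
open GA (Mt IsFr ex)
open N2 (El tri)
open Ob (Vb Bo)
open Fr (act)
open Ch (Orb)

theorem sOrbs_of (hO : SOa) : SOrbs := by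
  classical
  intro N D m π Hs W μ γ Z q pos t ok hμ g v0 v1
  obtain ⟨F, pF, hF⟩ := two m (Fintype.card π.κ + Fintype.card (Fin N))
  obtain ⟨fB, -, al⟩ := hO N D m π Hs W μ γ Z ok hμ g.m5 g.com
  have big : Big (uu (sX Z)) := g.m5.m4.ts.big
  unfold VH P5.Al at v0 v1
  obtain ⟨u₀, w, uw, H⟩ := Fl.au_ex big (Fl.au_and (Fl.au_and (Fl.au_and g.m5.fl al)
    (Fl.au_and g.orb.nb g.out.sp)) (Fl.au_and v0 v1))
  obtain ⟨u, u1, hu⟩ : ∃ u : ℕ → ℝ, (∀ n, 0 ≤ u n) ∧ ∀ᶠ n in UF, u₀ n = u n :=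
    ⟨fun n => max (u₀ n) 0, fun _ => le_max_right _ _,
      uw.one.mono fun n a => (max_eq_left (zero_le_one.trans a)).symm⟩
  have sm : Sm (uu (sX Z)) u := fun c hc => by
    filter_upwards [uw.sm c hc, hu] with n a b using by rwa [zero_add, ← b]
  have sL := Sub.exp sm u1
  have mu := fun a => ok.bd _ (hμ a)
  have W0 : 0 ≤ W := (ok.bd _ ok.zero).2
  obtain ⟨Γ, sΓ, hΓ⟩ := g.m5.m4.fm.dg 0
  obtain ⟨A, hA⟩ : ∃ A : ℝ, A = 2 ^ (Fintype.card π.κ + Fintype.card (Fin N) + m * m) +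
    (Fintype.card π.κ + Fintype.card (Fin N) + m * m + m + 1) := ⟨_, rfl⟩
  have A1 : 1 ≤ A := by
    rw [hA]
    exact le_add_of_le_of_nonneg (one_le_pow₀ one_le_two) (by positivity)
  obtain ⟨K, -, hK⟩ := Ob.sPg F pF
  have m1 : (1 : ℝ) ≤ m + 1 := by simp
  have k1 : (1 : ℝ) ≤ (Fintype.card π.κ + 1) * 2 ^ m :=
    one_le_mul_of_one_le_of_one_le (by simp) (one_le_pow₀ one_le_two)
  have s1 := (sL.mul sL).const_mul big A1
  have s2 := (sΓ.const_mul big m1).mul (pF.2 _ _ big sL)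
  refine ⟨fun n ω => Tq.fd π.kk ((Z n).B ω) (fun a => 0 < μ a)
    (fun a => Real.exp (μ a * (Z n).X.u)) ((Z n).pf ω) ((Fintype.card π.κ + 1) *
      Real.exp (u n + W * (Z n).X.u) ^ 3 * Real.exp (-w n))
    (Real.exp (u n) * Real.exp (u n + W * (Z n).X.u)) (q n ω)
    (act ((Z n).d.E ω)⁻¹ ((Z n).F.E ω)), W, W0, ?_, fun R => ⟨_, s1.add s2 big, ?_⟩⟩
  · filter_upwards [fB, g.orb.fn, H] with n a b ⟨⟨⟨o, _⟩, _⟩, _⟩ x hx y hy e
    have a1 := a x hx y hy e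
    simp only [Prod.mk.injEq] at a1
    have a2 : (Z n).F.E x = (Z n).F.E y := o.f0 x hx y hy e
    simp only [a1.1, a1.2.2, b x hx y hy e, o.fE x hx y hy e, a2]
  filter_upwards [H, hu, hΓ, g.m5.m4.fm.sp, g.m5.m4.fm.uj, sm 1 one_pos, uw.bg (2 * W),
    uw.bg (K * (K + (W + 2)) + R), uw.bg (1 + (3 + m) * (W + 2)), (big.sub k1).2 1 one_pos, big.ev 1] with n
    ⟨⟨⟨o, a⟩, b, s⟩, h0, h1⟩ e dg sp uj c1 c2 c3 c4 c5 c6 ω hω
  rw [e] at o a b h0 h1
  change _ ≤ 0 + 1 * ((Z n).X.u : ℝ) at c1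
  change _ * ((Z n).X.u : ℝ) ≤ _ at c2 c3 c4
  change _ ≤ Real.exp (1 * ((Z n).X.u : ℝ)) at c5
  change _ ≤ ((Z n).X.u : ℝ) at c6
  obtain ⟨a1, a2, -, -, a3⟩ := a ω hω
  have u0 := u1 n
  have l1 := a1.one
  have wu : 0 ≤ W * (Z n).X.u := by positivity
  have mu' : ∀ a, 0 ≤ μ a * (Z n).X.u ∧ μ a * (Z n).X.u ≤ W * (Z n).X.u := fun a =>
    ⟨mul_nonneg (mu a).1 (by linarith), mul_le_mul_of_nonneg_right (mu a).2 (by linarith)⟩
  have al : Ob.Al π.kk ((Z n).B ω) ((Z n).d.c π.σ ω) (fun a => 0 < μ a)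
      (fun a => Real.exp (μ a * (Z n).X.u)) ((Z n).pf ω) (Real.exp (u n))
      (Real.exp (u n + W * (Z n).X.u)) (Real.exp (-w n)) :=
    ⟨a1.fr, l1, LC.ex_le (by linarith), a1.pos, fun a => ⟨Real.one_le_exp (mu' a).1,
      LC.ex_le (by linarith [(mu' a).2])⟩, a1.bB, a1.bc, fun a a' e x y z => by
      rw [mul_assoc, ← Real.exp_add, ← Real.exp_add]
      by_cases k : μ e < μ a + μ a'
      · refine (mul_le_mul_of_nonneg_right (o.fil ω hω a a' e (.inl ⟨x, y, k⟩))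
          (Real.exp_pos _).le).trans ?_
        rw [← Real.exp_add]
        exact LC.ex_le (by linarith [(mu' a).2, (mu' a').2, (mu' e).1])
      · refine (mul_le_mul_of_nonneg_right (a1.bc a a' e) (Real.exp_pos _).le).trans ?_
        rw [← Real.exp_add]
        exact LC.ex_le (by nlinarith [not_lt.1 k]), a1.ld, a1.mf, a1.bf, a1.cf, a1.ff⟩
  have lw : Real.exp (u n) * Real.exp (u n + W * (Z n).X.u) ≤ Real.exp ((W + 2) * (Z n).X.u) := by
    rw [← Real.exp_add]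
    exact LC.ex_le (by linarith)
  have e2 : (Fintype.card π.κ + 1) * Real.exp (u n + W * (Z n).X.u) ^ 3 * Real.exp (-w n) *
      (2 * (Real.exp (u n) * Real.exp (u n + W * (Z n).X.u))) ^ m ≤ 1 := by
    calc _ = (Fintype.card π.κ + 1) * 2 ^ m * (Real.exp (u n + W * (Z n).X.u) ^ 3 *
          (Real.exp (u n) * Real.exp (u n + W * (Z n).X.u)) ^ m * Real.exp (-w n)) := by ring
      _ ≤ Real.exp (1 * (Z n).X.u) * (Real.exp ((W + 2) * (Z n).X.u) ^ 3 *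
          Real.exp ((W + 2) * (Z n).X.u) ^ m * Real.exp (-w n)) := by
        gcongr
        linarith
      _ ≤ 1 := by
        rw [← Real.exp_nat_mul, ← Real.exp_nat_mul, ← Real.exp_add, ← Real.exp_add, ← Real.exp_add]
        refine Real.exp_le_one_iff.2 ?_
        push_cast
        linarith
  obtain ⟨b1, b2, b3⟩ := b ω hω
  obtain ⟨g1, x, x0, x1, x2⟩ := Tq.alg_wt al le_rfl e2 (act ((Z n).d.E ω)⁻¹ ((Z n).F.E ω)) b2
    (pos := pos) (fun a k k' r => (s ω hω).stab a r k k') (X := A * (Real.exp (u n) *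
      Real.exp (u n))) (by rw [hA])
  have M := GA.sMul _ _ _ _ _ a1.fr
  have p1 := (s1.pos n).le
  have p2 := (s2.pos n).le
  have f1 := pF.1 _ l1
  have γ1 := sΓ.1 n
  have p3 : F (Real.exp (u n)) ≤ A * (Real.exp (u n) * Real.exp (u n)) +
      (m + 1) * Γ n * F (Real.exp (u n)) := le_add_of_nonneg_of_le p1
    (le_mul_of_one_le_left (by linarith) (one_le_mul_of_one_le_of_one_le m1 γ1))
  have f2 := (hK _ (one_le_mul_of_one_le_of_one_le l1 (l1.trans al.le))).trans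
    ((pow_le_pow_left₀ (by positivity) (mul_le_mul_of_nonneg_left lw (Nat.cast_nonneg K)) K).trans
      (Fl.FlOut.pw c6))
  have eG : ∀ y, (Z n).ev ω y = ex ((Z n).B ω) (-(Z n).d.g ω) *ᵥ
      Ob.ev (act ((Z n).d.E ω)⁻¹ ((Z n).F.E ω)) y := fun y => by
    rw [P5.Mb.ev, P5.Mb.G, Fl.Fd.G, o.fac ω hω, mul_assoc, (M.neg _).2, mul_one, Matrix.mul_inv_rev,
      inv_eq_right_inv (M.neg _).2, Fr.act_mul, P5Oc.ev_act]
  have key := fun ρ' y h h' => (hF _ _ _ _ _ _ _ ρ' _ ((Z n).ph ω) _ _ _ _ (q n ω) ((Z n).pt ω)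
    ((Z n).ev ω y) ((Z n).d.g ω) ((Z n).d.k ω) le_rfl al le_rfl e2
    (fun a => ⟨fun k => ((o.bg ω hω a).1 k).trans_eq (Real.exp_add _ _), fun k => (o.bg ω hω a).2
      (le_antisymm (not_lt.1 k) (mu a).1)⟩) (o.bk ω hω) b2 a2
    (fun ξ k => a3 ξ fun j => (k j).trans (LC.ex_le (by linarith)))
    (by simpa [Mb.Nb, Pi.one_def] using b3) h h').imp fun _ k => And.intro (orb_mono k.1 p3
      (show _ ≤ G39.dl (uu (sX Z)) R n from by
        refine (mul_le_mul_of_nonneg_right f2 (Real.exp_pos _).le).trans ?_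
        rw [← Real.exp_add]
        exact LC.ex_le (by change _ ≤ -(R * ((Z n).X.u : ℝ)); linarith))) k.2
  simp only [eG, mulVec_mulVec, (M.neg _).2, one_mulVec] at key
  refine ⟨⟨g1.fr, fun a a' e => (g1.bc a a' e).trans (by linarith), fun a p r =>
    (g1.bb a p r).trans ?_, fun p => (g1.bp p).trans (by linarith)⟩, fun y hy => ?_,
    fun y hy => ?_, x, x0, fun a p => (x1 a p).trans
      (mul_le_mul_of_nonneg_right (by linarith) (x0 a)), x2.trans ?_⟩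
  · rw [Real.exp_add, ← mul_assoc]
    exact mul_le_mul_of_nonneg_right (le_add_of_le_of_nonneg
      (le_mul_of_one_le_left (by positivity) A1) p2) (Real.exp_pos _).le
  · have := h1 ω hω y (seg_mono (by norm_num) hy)
    rw [Mb.Nb, eG] at this
    exact (key _ y (fun a => by simp) this).imp fun _ k => k.1
  · have := h0 ω hω y (seg_mono (by norm_num) hy)
    rw [Mb.Nb, eG] at this
    obtain ⟨r, r1, r2⟩ := key _ y (fun a => by simpa using (mu' a).1) this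
    refine ⟨r, r1, fun G hG => ?_⟩
    obtain ⟨c, rfl⟩ := sp ω hω G
    refine ⟨c ᵥ* (ex ((Z n).B ω) (-(Z n).d.k ω) * ex ((Z n).B ω) (-(Z n).d.g ω)), ?_, ?_⟩
    · have eJ : ((Z n).F.J ω)⁻¹ = ex ((Z n).B ω) (-(Z n).d.k ω) * ex ((Z n).B ω) (-(Z n).d.g ω) *
          ((Z n).d.E ω)⁻¹ := by
        rw [show (Z n).F.J ω = _ from o.fac ω hω, Matrix.mul_inv_rev, Matrix.mul_inv_rev,
          inv_eq_right_inv (M.neg _).2, inv_eq_right_inv (M.neg _).2, mul_assoc]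
      rw [AB.Fd.f, eJ, Fr.act_mul, Fr.sum_act]
      rfl
    · rw [vecMul_vecMul]
      refine Tq.vb_mono (Tq.vb_vm (b := Γ n) (fun i => ?_) (r2 (by simp [Pi.one_def])) (by linarith)
        (by linarith)) (by linarith)
      have := (dg ω hω).2 c i
      rw [AB.rd, AB.lb, g.m5.m4.hb n, sub_self, mul_zero, neg_zero, Real.exp_zero, mul_one] at this
      exact this.trans (mul_le_of_le_one_right (by linarith) hG)
  · rw [← Real.exp_sum, ← sum_mul]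
    exact mul_le_mul_of_nonneg_right (by linarith) (Real.exp_pos _).le

theorem sOrbs : SOrbs := sOrbs_of (ofOa Ob.sTay Ob.sPrt)

end Os

end Pool.Agent.MP_5168f5_an.QA.P5.F
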