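import Pool.Agent.MP_4b405e_nt.SK.SlD
import Pool.Agent.MP_4b405e_nt.SK.FairK
import Pool.Agent.MP_4b405e_nt.H6.Pick

/-! Sparse heights: the selection of the tangent system. -/

namespace Pool.Agent.MP_5168f5_an.QA

open H19 H17S H17F MX Filter Finset Pen Chn

/-- The data of the selection, without the heights. -/
structure Pd0 {N : ℕ} (y : ℕ → Cfg N) (M L : ℕ → ℕ) (W : ℕ → Finset ℕ) (Dh : ℕ → ℕ → ℝ)
    (ε : ℝ) : Prop where
  dsk : DSK y M
  paid : ∀ᶠ n in UF, ∑ j ∈ W n, ch (y n).P (fun ω => fl1 ((j + 1) * L n) ((y n).z ω))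
    (fun ω => (fl1 (j * L n) ((y n).z ω), (y n).ln ω)) ≤ ε * M n
  mono : ∀ n, Monotone (Dh n) ∧ Dh n 0 = 0
  top : ∀ᶠ n in UF, Dh n (M n) ≤ 4 * M n

/-- Fair heights at all levels. -/
def Fair {N : ℕ} (y : ℕ → Cfg N) (M kf : ℕ → ℕ) : Prop :=
  ∀ δ : ℝ, 0 < δ → ∀ᶠ n in UF, ∀ a b, a ≤ b → b ≤ M n → pb (y n).P (fun ω =>
    ¬cm (y n).P ((shOf (y n)).O a) ((shOf (y n)).O b) ω ≤
      Real.exp 2 * bw (kf n : ℝ)⁻¹ a b ((y n).z ω)) ≤ δ

/-- The selection of the tangent system. -/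
def SPkf : Prop := ∀ (N D : ℕ) (y : ℕ → Cfg N) (M L w kf : ℕ → ℕ) (W : ℕ → Finset ℕ)
  (Dh : ℕ → ℕ → ℝ) (Y : ∀ n, Chn D (y n)) (η₀ ε η t v s C C₀ : ℝ) (X : ℕ → ℕ → ℝ) (I : ℕ),
  Pd0 y M L W Dh ε → Fair y M kf → Big kf → (Sm w fun n => kf n) →
  0 < η₀ → 0 ≤ ε → 0 ≤ s → 0 ≤ C → 0 ≤ C₀ → 0 < I →
  (∀ᶠ n in UF, N * lg * ((W n).card * L n) + η₀ * M n ≤ mu (y n) (M n)) →
  (N + 1) * ε + s + 8 * (v + 1 / I) * C₀ ≤ η₀ / 16 → Big w → (Sm M fun n => L n) →
  (∀ r < I, ∃ L₂ : ℕ → ℕ, (Sm L₂ fun n => w n) ∧ (Sm L₂ fun n => X n r) ∧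
    (∀ A : ℝ, ∀ᶠ n in UF, A * L₂ n < X n (r + 1)) ∧ Sm L fun n => L₂ n) →
  (∀ᶠ n in UF, Pen.Ok t v (X n) ∧ (Y n).M = M n ∧ (Y n).w = w n ∧
    (Y n).Ok η t v s C C₀ (X n) I) →
  ∃ (θ β js Γ : ℝ) (sl : ℕ → ℝ) (Z : ℕ → St N D), 0 ≤ θ ∧ θ ≤ t ∧ η₀ / 1000 ≤ β ∧
    T1g Z η θ β js kf sl ∧ Lip Z Set.univ Γ

theorem two_of {kf w u : ℕ → ℕ} (hk : Big kf) (kw : Sm w fun n => kf n) (uw : Sm u fun n => w n) :
    Two kf u := ⟨hk, tendsto_atTop.2 fun K => by
  filter_upwards [kw (1 / (K + 1 : ℝ)) (by positivity), uw 1 one_pos, hk.ev 1] with n a b c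
  refine (Nat.le_div_iff_mul_le (by exact_mod_cast one_pos.trans_le c)).2 ?_
  rw [zero_add, one_div, inv_mul_eq_div, le_div_iff₀ (by positivity)] at a
  have : (K : ℝ) * kf n ≤ u n := by nlinarith
  exact_mod_cast this⟩

section

variable {N D : ℕ} {y : ℕ → Cfg N} {M L w c u kf : ℕ → ℕ} {W : ℕ → Finset ℕ} {Dh X : ℕ → ℕ → ℝ}
  {Y : ∀ n, Chn D (y n)} {η₀ ε η t v s C C₀ β τ : ℝ} {I r : ℕ}

/-- The first zoom. -/
theorem st1f (pd : Pd0 y M L W Dh ε) (e0 : 0 < η₀) (hε : 0 ≤ ε) (hs : 0 ≤ s) (hC : 0 ≤ C)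
    (hC₀ : 0 ≤ C₀) (hI : 0 < I)
    (a3 : ∀ᶠ n in UF, N * lg * ((W n).card * L n) + η₀ * M n ≤ mu (y n) (M n))
    (a4 : (N + 1) * ε + s + 8 * (v + 1 / I) * C₀ ≤ η₀ / 16) (hw : Big w) (hL : Sm M fun n => L n)
    (h2 : ∀ r < I, ∃ L₂ : ℕ → ℕ, (Sm L₂ fun n => w n) ∧ (Sm L₂ fun n => X n r) ∧
      (∀ A : ℝ, ∀ᶠ n in UF, A * L₂ n < X n (r + 1)) ∧ Sm L fun n => L₂ n)
    (ok : ∀ᶠ n in UF, Pen.Ok t v (X n) ∧ (Y n).M = M n ∧ (Y n).w = w n ∧
      (Y n).Ok η t v s C C₀ (X n) I) :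
    ∃ r < I, ∃ (β τ : ℝ) (c₁ u : ℕ → ℕ), η₀ / 64 ≤ β ∧ 0 ≤ τ ∧ Big u ∧ (Sm u fun n => w n) ∧
      (Sm u fun n => X n r) ∧ (∀ A : ℝ, ∀ᶠ n in UF, A * u n < X n (r + 1)) ∧ Unp M L W u c₁ ∧
      LinAt u c₁ (fun n => (Y n).mV η t v C (X n) r (L n) (W n)) β ∧
      LinAt u c₁ (fun n => (Y n).mD η (Dh n)) τ := by
  obtain ⟨⟨r, hr⟩, a5⟩ := ev_ex (J := Fin I) (p := fun r n =>
    ∑ j ∈ range (Y n).T, ((y n).P.E fun ω => dr t v (X n) r ((Y n).jp j ω)) ≤
      (v + 1 / I) * ∑ j ∈ range (Y n).T, (y n).P.E fun ω => pn t v (X n) I ((Y n).jp j ω))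
    (ok.mono fun n a => (a.1.pick hI _ _ _ fun j _ ω _ => (Y n).jp_nn j ω).elim fun i b =>
      ⟨⟨i, b.1⟩, b.2⟩)
  obtain ⟨L₂, l1, l2, l3, l4⟩ := h2 r hr
  have k1 : ∀ᶠ n in UF, (w n : ℝ) ≤ L₂ n := (l1 1 one_pos).mono fun n a => by linarith
  have k2 : Sm L fun n => w n := l4.mono k1
  have k3 : Sm M fun n => w n := hL.mono ((k2 1 one_pos).mono fun n a => by linarith)
  have k4 : Big L₂ := tendsto_atTop_mono' _ (k1.mono fun n a => by exact_mod_cast a) hw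
  have v0 : 0 ≤ v := ok.exists.elim fun _ a => a.1.v0
  have s1 : s ≤ η₀ / 16 := by
    have : 0 ≤ (N + 1) * ε + 8 * (v + 1 / I) * C₀ := by positivity
    linarith
  have g0 := lg_pos
  have d0 : 0 < η₀ / 4 / (35 * C + 2 * C ^ 2 + 1) := by positivity
  obtain ⟨β, τ, c₁, M₀, b1, b2, b3, b4⟩ := win (M := M) (L := L) (L₂ := L₂) (W := W)
    (V := fun n => (Y n).mV η t v C (X n) r (L n) (W n)) (D := fun n => (Y n).mD η (Dh n))
    (e := fun n => ((N + 1) * lg + s) * w n) (g := N * lg) (C := (N + 1) * lg + s) (η := η₀ / 2)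
    (A := 5 + 6 * C) k4 l4 hL (by positivity) (by positivity) (by positivity) (by positivity)
    (l1.smul (by positivity)) (fun n => (Y n).mD_mono η (pd.mono n).1) (by
      filter_upwards [ok, pd.top, k3 1 one_pos, hw.ev 1] with n ⟨_, a, b, c⟩ d e f
      have := c.mD_tot (b ▸ by exact_mod_cast one_pos.trans_le f) (Dh n)
      rw [a, b, (pd.mono n).2] at this
      nlinarith) (by
      filter_upwards [ok, k2.smul (c := (N + 1) * lg + s) (by positivity) (η₀ / 16) (by positivity),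
        hw.ev 1, k2 1 one_pos] with n ⟨p, a, b, c⟩ d e f j hj k
      have := c.mV_step (r := r) (L := L n) (W := W n) p hs (b ▸ by
        exact_mod_cast one_pos.trans_le e) (Nat.mul_le_mul_right (L n) (Nat.le_succ j)) (a ▸ k)
      have z := Hp_paid (x := y n) (L := L n) (by exact_mod_cast (by linarith : (0 : ℝ) < L n)) hj
      rw [b] at this
      push_cast at this
      nlinarith [mul_le_mul_of_nonneg_right s1 (Nat.cast_nonneg (α := ℝ) (L n))]) (by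
      filter_upwards [ok, hw.ev 1] with n ⟨p, a, b, c⟩ e c₁ c₂ k k'
      have := c.mV_step (r := r) (L := L n) (W := W n) p hs
        (b ▸ by exact_mod_cast one_pos.trans_le e) k (a ▸ k')
      have z := Hz_le (x := y n) (c := c₁) (c' := c₂) (d := c₂ - c₁) (by omega)
      rw [Nat.cast_sub k] at z
      rw [b] at this
      linarith [Hp_mono (x := y n) (L n) (W n) k]) (by
      filter_upwards [ok, pd.paid, a3, a5, hw.sm 1 _ d0, k3 _ d0, pd.dsk.big.sm 1 _ d0]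
        with n ⟨p, a, b, c⟩ f2 f3 f4 f5 f6 f7
      rw [← a] at f2 f3 f6 f7 ⊢
      rw [← b] at f5 f6
      refine Perf.gain c p hI hε hC (pd.dsk.triv n) f2 f3 a4 f4 d0 (by linarith) (by linarith)
        (by linarith) ?_ e0.le
      rw [← mul_div_assoc, div_le_iff₀ (by positivity)]
      linarith)
  obtain ⟨u, u1, u2, u3⟩ := ex_mid k4 (sm_max b3 (sm_max l1 l2))
  refine ⟨r, hr, β, τ, c₁, u, by linarith, b2, u1, u3.mono (Eventually.of_forall fun n =>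
    le_max_of_le_right (le_max_left _ _)), u3.mono (Eventually.of_forall fun n =>
    le_max_of_le_right (le_max_right _ _)), fun A => ?_,
    b4 u u1 u2 (u3.mono (Eventually.of_forall fun n => le_max_left _ _))⟩
  filter_upwards [l3 |A|, u2 1 one_pos] with n a b
  exact (mul_le_mul (le_abs_self A) (by linarith) (Nat.cast_nonneg _) (abs_nonneg _)).trans_lt a

/-- The heights stay fair given the context. -/
theorem fa0 (pd : Pd0 y M L W Dh ε) (fr : Fair y M kf) (hk : Big kf) (kw : Sm w fun n => kf n)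
    (uw : Sm u fun n => w n) (un : Unp M L W u c) (hτ : 0 ≤ τ)
    (ld : LinAt u c (fun n => (Y n).mD η (Dh n)) τ)
    (ok : ∀ᶠ n in UF, (Y n).w = w n ∧ (Y n).Ok η t v s C C₀ (X n) I) (b : ℕ → ℕ) :
    ∃ E, Whp (fun n => (y n).P) E ∧ ∀ o : ∀ n, (y n).Ω,
      (∀ᶠ n in UF, o n ∈ (y n).P.S ∧ E n (o n)) → ∀ ε : ℝ, 0 < ε →
      Whp (fun n => (Y n).atom ((Y n).ix (b n)) (o n)) fun n =>
        Fa0 ((Y n).atom ((Y n).ix (b n)) (o n)) (shOf (y n)) (kf n) (c n) (c n + u n)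
          (ε * sU kf u n) := by
  have tw := two_of hk kw uw
  refine fa_val (P := fun n => (y n).P) (g := fun n => shOf (y n)) (d := fun n => c n + u n)
    (K := fun n => (Y n).χ ((Y n).ix (b n))) tw.bU (fun δ hδ κ hκ => ?_) fun δ hδ => ?_
  · filter_upwards [fr κ hκ, un 1, tw.bU.sm 2 δ hδ] with n g e f
    exact le_trans (pb_mono fun ω _ z q => z (Fa0.mono q (by linarith)))
      (g _ _ (Nat.le_add_right _ _) (e.2 _ (by simp)).1)
  · have p : 0 < δ / 2 / (τ + 1) := by positivity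
    filter_upwards [lin_le ld one_pos, ok, kw _ p, tw.le, hk.ev 1] with n e o k1 k2 k3
    have le := Nat.le_add_right (c n) (u n)
    have g' := ((Y n).mD_parts η (pd.mono n).1 le).2.2.2.trans (e _ _ le le le_rfl)
    rw [← (Y n).Inf_sub le, o.1] at g'
    have g : mi (y n).P ((shOf (y n)).O (c n + u n)) ((Y n).χ ((Y n).ix (b n)))
        ((shOf (y n)).O (c n)) ≤ mi (y n).P ((shOf (y n)).zc (c n + u n)) ((Y n).χ ((Y n).T + 1))
          fun ω => ((shOf (y n)).zc (c n) ω, (shOf (y n)).l ω) :=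
      ((mi_cond (fun _ _ _ _ z => Prod.ext (congrArg (·.2) z) (congrArg (·.1) z))
        fun _ _ _ _ z => Prod.ext (congrArg (·.2.2) z) (congrArg (·.2.1) z)).trans
        (mi_mono' fun _ _ _ _ z => Prod.ext (congrArg (·.2.2) z) (congrArg (·.1) z))).trans
        (mi_mono ((o.2.nest' (((Y n).ix_le _).trans (Nat.le_succ _))).left _))
    refine g.trans ?_
    generalize mi (y n).P ((shOf (y n)).zc (c n + u n)) ((Y n).χ ((Y n).T + 1))
      (fun ω => ((shOf (y n)).zc (c n) ω, (shOf (y n)).l ω)) = m at g'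
    have k0 : (0 : ℝ) < kf n := by linarith
    have w0 : (0 : ℝ) < w n := (pos_iff_pos_of_mul_pos (k0.trans_le (k1.trans_eq (zero_add _)))).1 p
    rw [div_le_iff₀ k0] at k2
    refine le_of_mul_le_mul_left (g'.trans ?_) w0
    have z : (τ + 1) * (δ / 2 / (τ + 1) * w n) = δ / 2 * w n := by field_simp
    have z1 := mul_le_mul_of_nonneg_left k1 (show 0 ≤ (τ + 1) * (2 * sU kf u n) by positivity)
    have z2 := mul_le_mul_of_nonneg_left k2 (show 0 ≤ τ + 1 by positivity)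
    push_cast
    nlinarith

/-- The choice of the path. -/
theorem st2f (pd : Pd0 y M L W Dh ε) (fr : Fair y M kf) (hk : Big kf) (kw : Sm w fun n => kf n)
    (e0 : 0 < η₀) (hC : 0 ≤ C) (hw : Big w) (hu : Big u)
    (uw : Sm u fun n => w n) (un : Unp M L W u c) (hβ : η₀ / 64 ≤ β) (hτ : 0 ≤ τ)
    (lV : LinAt u c (fun n => (Y n).mV η t v C (X n) r (L n) (W n)) β)
    (ld : LinAt u c (fun n => (Y n).mD η (Dh n)) τ)
    (ok : ∀ᶠ n in UF, Pen.Ok t v (X n) ∧ (Y n).M = M n ∧ (Y n).w = w n ∧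
      (Y n).Ok η t v s C C₀ (X n) I) :
    ∃ (A : ℝ) (o : ∀ n, (y n).Ω),
      (∀ ε : ℝ, 0 < ε → Whp (fun n => (Y n).atom ((Y n).ix (c n - u n)) (o n)) fun n =>
        Fa0 ((Y n).atom ((Y n).ix (c n - u n)) (o n)) (shOf (y n)) (kf n) (c n) (c n + u n)
          (ε * sU kf u n)) ∧
      (∀ᶠ n in UF, o n ∈ (y n).P.S ∧ η₀ / 100 * u n ≤ (Y n).ψ η ((Y n).ix (c n + u n)) (o n) -
        (Y n).ψ η ((Y n).ix (c n)) (o n) -
        8 * ((Y n).pw (fun j ω => dr t v (X n) r ((Y n).jp j ω)) (o n) (c n + u n) -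
          (Y n).pw (fun j ω => dr t v (X n) r ((Y n).jp j ω)) (o n) (c n)) ∧
        (Y n).pw ((Y n).tv η) (o n) (c n + u n) - (Y n).pw ((Y n).tv η) (o n) (c n) ≤ A * u n) ∧
      (Sm u fun n => (Y n).pw ((Y n).Rr η C) (o n) (c n + u n) -
        (Y n).pw ((Y n).Rr η C) (o n) (c n)) ∧
      Sm u fun n => -Real.log (cm (y n).P ((Y n).χ ((Y n).ix (c n + u n)))
        ((Y n).χ ((Y n).ix (c n - u n))) (o n)) := by
  obtain ⟨E, e1, e2⟩ := fa0 pd fr hk kw uw un hτ ld (ok.mono fun _ a => a.2.2) fun n => c n - u n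
  have k : ∀ a : ℕ → ℕ, (∀ n, c n ≤ a n + u n ∧ a n ≤ c n) → Sm u fun n =>
      (Y n).up (fun j => 1 + (Y n).hc j) (c n + u n) - (Y n).up (fun j => 1 + (Y n).hc j) (a n) :=
    fun a h => sm_div (A := 2 * τ + 1) hw (by
      filter_upwards [lin_le ld one_pos, ok] with n e o
      have f := e (a n) (c n + u n) (h n).1 (by linarith [h n]) le_rfl
      have g := ((Y n).mD_parts η (pd.mono n).1 (c := a n) (c' := c n + u n)
        (by linarith [h n])).2.2.1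
      have f1 : (c n : ℝ) ≤ a n + u n := by exact_mod_cast (h n).1
      push_cast at f
      rw [o.2.2.1] at g
      nlinarith)
  obtain ⟨E', f1, f2⟩ := whp_diag fun j : ℕ => (KSA.mark (fun n => (y n).P) u
    (fun n ω => (Y n).pw ((Y n).Rr η C) ω (c n + u n) - (Y n).pw ((Y n).Rr η C) ω (c n))
    (1 / (j + 1 : ℝ)) hu (by positivity) (Eventually.of_forall fun n ω _ => sub_nonneg.2
      ((Y n).pw_mono (fun _ => le_max_left _ _) (Nat.le_add_right _ _)))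
    (((k c fun n => ⟨Nat.le_add_right _ _, le_rfl⟩).smul hC).mono
      (ok.mono fun n o => o.2.2.2.E_Rr (Nat.le_add_right _ _)))).and (KSA.mark (fun n => (y n).P) u
    (fun n ω => -Real.log (cm (y n).P ((Y n).χ ((Y n).ix (c n + u n)))
      ((Y n).χ ((Y n).ix (c n - u n))) ω)) (1 / (j + 1 : ℝ)) hu (by positivity)
    (Eventually.of_forall fun n ω hω => neg_nonneg.2
      (Real.log_nonpos (cm_pos _ _ hω).le (cm_le_one _ _ _ _)))
    ((k (fun n => c n - u n) fun n => ⟨by omega, by omega⟩).mono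
      (ok.mono fun n o => o.2.2.2.E_sur (by omega))))
  have a0 : 0 < η₀ / 1000 / (τ + 1) := by positivity
  obtain ⟨o, ho⟩ := ev_choice (fun n => (y n).P) (p := fun n ω => ω ∈ (y n).P.S ∧
    (E n ω ∧ E' n ω) ∧ η₀ / 100 * u n < (Y n).ψ η ((Y n).ix (c n + u n)) ω -
      (Y n).ψ η ((Y n).ix (c n)) ω -
      8 * ((Y n).pw (fun j ω => dr t v (X n) r ((Y n).jp j ω)) ω (c n + u n) -
        (Y n).pw (fun j ω => dr t v (X n) r ((Y n).jp j ω)) ω (c n)) -
      ((Y n).pw ((Y n).Rr η C) ω (c n + u n) - (Y n).pw ((Y n).Rr η C) ω (c n)) ∧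
    η₀ / 1000 / (τ + 1) * ((Y n).pw ((Y n).tv η) ω (c n + u n) -
      (Y n).pw ((Y n).tv η) ω (c n)) ≤ 2 * C * u n) (by
    filter_upwards [ok, e1.and f1 (η₀ / 1000 / (2 * C + 1)) (by positivity), lin_le ld one_pos,
      lV 1 (η₀ / 1000) (by positivity), un 1, hu.ev 1, hw.ev 1, uw 1 one_pos]
      with n ⟨p, m1, m2, o⟩ g1 g2 g3 g4 g5 g6 g7
    have le := Nat.le_add_right (c n) (u n)
    have ab : |((c n + u n : ℕ) : ℝ) - c n| ≤ 1 * u n := by simp
    refine Chn.sel _ (by positivity) a0.le (fun ω _ => ⟨?_, sub_nonneg.2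
      ((Y n).pw_mono (fun j => (Y n).tv_nn η j ω) le)⟩) ?_
    · have := (Y n).psi_le η hC (m2 ▸ by exact_mod_cast one_pos.trans_le g6) ω le
        (m1 ▸ (g4.2 _ ab).1)
      have z := (Y n).pw_mono (a := fun j ω => dr t v (X n) r ((Y n).jp j ω)) (ω := ω)
        (fun j => p.dr_nonneg ((Y n).jp_nn j ω)) le
      rw [m2] at this
      push_cast at this
      nlinarith
    · rw [FP.E_sub, FP.E_sub, FP.E_sub, FP.E_mul, E_pw, E_pw _ ((Y n).tv η)]
      have z1 := o.E_Rr le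
      have z2 := (abs_le.1 (g3 _ ab)).1
      have z3 := ((Y n).mD_parts η (pd.mono n).1 le).2.1.trans (g2 _ _ le le le_rfl)
      have z4 := mul_le_mul_of_nonneg_left z3 a0.le
      have z5 := mul_le_mul_of_nonneg_left g1 (show 0 ≤ 2 * C * u n by positivity)
      have z6 : 2 * C * u n * (η₀ / 1000 / (2 * C + 1)) ≤ η₀ / 1000 * u n := by
        rw [← mul_div_assoc, div_le_iff₀ (by positivity)]
        nlinarith
      have z7 : η₀ / 1000 / (τ + 1) * (τ * (((c n + u n : ℕ) : ℝ) - c n) + 1 * u n) =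
          η₀ / 1000 * u n := by push_cast; field_simp; ring
      have z8 := Hp_mono (x := y n) (L n) (W n) le
      have z9 := mul_le_mul_of_nonneg_right hβ (Nat.cast_nonneg (α := ℝ) (u n))
      simp only [mV, Nat.cast_add, add_sub_cancel_left] at z2
      nlinarith)
  refine ⟨2 * C / (η₀ / 1000 / (τ + 1)), o, e2 o (ho.mono fun _ a => ⟨a.1, a.2.1.1⟩),
    ho.mono fun n a => ⟨a.1, ?_, ?_⟩, fun δ hδ => ?_, fun δ hδ => ?_⟩
  · linarith [a.2.2.1, (Y n).pw_mono (a := (Y n).Rr η C) (ω := o n) (fun _ => le_max_left _ _)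
      (Nat.le_add_right (c n) (u n))]
  · rw [div_mul_eq_mul_div, le_div_iff₀' a0]
    exact a.2.2.2
  all_goals
    obtain ⟨j, hj⟩ := exists_nat_one_div_lt hδ
    filter_upwards [ho, f2 j] with n a b
    have := mul_le_mul_of_nonneg_right hj.le (Nat.cast_nonneg (α := ℝ) (u n))
    linarith [(b _ a.2.1.2).1, (b _ a.2.1.2).2]

end

section

variable {N D : ℕ} {y : ℕ → Cfg N} {u d w a b kf : ℕ → ℕ} {X : ℕ → ℕ → ℝ} {Y : ∀ n, Chn D (y n)}
  {η t v s C C₀ β js Γ : ℝ} {I r : ℕ} {sl : ℕ → ℝ} {o : ∀ n, (y n).Ω}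

theorem finf (tw : Two kf u) (bx : ∀ n, (y n).Box) (hr : r ≤ I) (ht : 0 ≤ t) (hu : Big u) (uw : Sm u fun n => w n)
    (uX : Sm u fun n => X n r)
    (hs : Sm u fun n => -Real.log (cm (y n).P ((Y n).χ (a n)) ((Y n).χ (b n)) (o n)))
    (ok : ∀ᶠ n in UF, o n ∈ (y n).P.S ∧ (Y n).w = w n ∧ 0 < (Y n).w ∧
      (Y n).Ok η t v s C C₀ (X n) I)
    (m : ∀ R : ℝ, ∀ᶠ n in UF, R * u n ≤ d n)
    (wn : ∀ R : ℝ, ∀ᶠ n in UF, ∀ c : ℕ, |(c : ℝ) - d n| ≤ R * u n →
      c ≤ (Y n).M ∧ a n ≤ (Y n).ix c ∧ (Y n).ix c < b n)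
    (l1 : ∀ k ≤ dV N D, LinAt u d (fun n c => sg k ((Y n).S ((Y n).ix c) (o n)).ν) (sl k))
    (l2 : LinAt u d (fun n c => Real.log ((Y n).S ((Y n).ix c) (o n)).J) js)
    (l3 : LinAt u d (fun n c => (Y n).ψ η ((Y n).ix c) (o n)) β)
    (l4 : LinAt u d (fun n => (Y n).pw ((Y n).tv η) (o n)) Γ)
    (hh : ∀ (R : ℝ) (c c' : ℕ → ℕ),
      (∀ᶠ n in UF, (d n : ℝ) ≤ c n + R * u n ∧ c n ≤ c' n ∧ (c' n : ℝ) ≤ d n + R * u n) →
      ∀ ε : ℝ, 0 < ε → Whp (fun n => (Y n).atom (b n) (o n)) fun n =>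
        Fa0 ((Y n).atom (b n) (o n)) (shOf (y n)) (kf n) (c n) (c' n) (ε * sU kf u n))
    (dr : th t v r * ∑ k ∈ range (dV N D + 1), |sl k| ≤ β / 8) :
    ∃ Z : ℕ → St N D, T1g Z η (th t v r) β js kf sl ∧ Lip Z Set.univ |Γ| := by
  have K : ∀ x : ℚ, ∀ᶠ n in UF, |(lx u d x n : ℝ) - d n - x * u n| ≤ 1 ∧ lx u d x n ≤ (Y n).M ∧
      a n ≤ (Y n).ix (lx u d x n) ∧ (Y n).ix (lx u d x n) < b n ∧
      ((Y n).lv ((Y n).ix (lx u d x n)) : ℝ) ≤ lx u d x n ∧
      (lx u d x n : ℝ) ≤ (Y n).lv ((Y n).ix (lx u d x n)) + w n := fun x => by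
    filter_upwards [lx_near hu m x, wn (|(x : ℝ)| + 1), ok] with n e f g
    obtain ⟨f1, f2, f3⟩ := f _ e.2
    exact ⟨e.1, f1, f2, f3, by exact_mod_cast (Y n).lv_ix_le f1,
      by exact_mod_cast g.2.1 ▸ (Y n).le_lv_ix g.2.2.1 f1⟩
  refine ⟨fun n => ⟨(y n).Ω, (Y n).atom (b n) (o n), shOf (y n), (Y n).M, u n,
    fun x => (Y n).lv ((Y n).ix (lx u d x n)), fun x => (Y n).S ((Y n).ix (lx u d x n)),
    fun k => sg k ((Y n).S ((Y n).ix (d n)) (o n)).ν, Real.log ((Y n).S ((Y n).ix (d n)) (o n)).J⟩,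
    ⟨⟨hu, Eventually.of_forall fun n ω hω => box (bx n) ω (cE_sub hω),
      fun x _ => (K x).mono fun n e => ((Y n).lv_ix_le e.2.1).trans e.2.1,
      fun x _ x' _ e => Eventually.of_forall fun n => (Y n).lv_anti ((Y n).ix_anti (lx_mono e n)),
      fun x _ x' _ => (Le.of_sub (uw.add (hu.sm 2)) ?_),
      fun x _ => ok.mono fun n e ω hω => e.2.2.2.val _ ((Y n).ix_le _) ω (cE_sub hω),
      fun x _ => (ok.and (K x)).mono fun n e ω hω ω' hω' z => ?_, fun x _ ε hε => ?_,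
      fun x _ ε hε => ?_⟩, ⟨tw, fun x x' e => ?_⟩, fun x _ x' _ ε hε => ?_,
      fun x _ ε hε => ?_, dr⟩, ?_⟩
  · filter_upwards [K x, K x'] with n e e'
    linarith [(abs_le.1 e.1).1, (abs_le.1 e'.1).2, e.2.2.2.2.2, e'.2.2.2.2.1]
  · have b1 := e.1.2.2.2.mem e.1.1 hω e.2.2.2.2.1.le
    have b2 := e.1.2.2.2.mem e.1.1 hω' e.2.2.2.2.1.le
    exact e.1.2.2.2.fn _ ((Y n).ix_le _) ω b1.1 ω' b2.1 (Prod.ext z (b1.2.trans b2.2.symm))
  · filter_upwards [ok, K x, (((uX.smul ht).add (hu.sm C)).add hs) ε hε] with n e f g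
    exact Stp.opd_mono (e.2.2.2.opd e.1 f.2.2.1 f.2.2.2.1.le ((Y n).ix_le _) hr) (by linarith) le_rfl
  · have p : 0 < ε / 2 / (dV N D + 1 : ℝ) := by positivity
    filter_upwards [ok, K x, uw _ p, (eventually_all_finite (Set.finite_Iic (dV N D))).2
      fun k hk => lin_lx (l1 k hk) hu m x p] with n e f g g' ω hω
    have b1 := e.2.2.2.mem e.1 hω f.2.2.2.1
    refine (sum_le_card_nsmul _ _ (2 * (ε / 2 / (dV N D + 1 : ℝ) * u n)) fun k hk => ?_).trans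
      (le_of_eq (by rw [card_range, nsmul_eq_mul]; push_cast; field_simp))
    have k1 := Nat.lt_succ_iff.1 (mem_range.1 hk)
    have z := (e.2.2.2.obs _ ((Y n).ix_le _) _ b1.1 _ e.1 b1.2).1 k k1
    rw [e.2.1] at z
    exact (abs_sub_le _ _ _).trans ((add_le_add z (g' k k1)).trans (by linarith))
  · refine hh (|(x : ℝ)| + |(x' : ℝ)| + 2) (fun n => (Y n).lv ((Y n).ix (lx u d x n)))
      (fun n => (Y n).lv ((Y n).ix (lx u d x' n))) ?_
    filter_upwards [K x, K x', uw 1 one_pos, hu.ev 1] with n g g' k k'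
    have p := Nat.cast_nonneg (α := ℝ) (u n)
    refine ⟨?_, (Y n).lv_anti ((Y n).ix_anti (lx_mono e n)), ?_⟩ <;>
      linarith [(abs_le.1 g.1).1, (abs_le.1 g'.1).2, g.2.2.2.2.2,
      g'.2.2.2.2.1, mul_le_mul_of_nonneg_right (neg_abs_le (x : ℝ)) p,
      mul_le_mul_of_nonneg_right (le_abs_self (x' : ℝ)) p, mul_nonneg (abs_nonneg (x : ℝ)) p,
      mul_nonneg (abs_nonneg (x' : ℝ)) p]
  · have p : 0 < ε / 3 := by positivity
    filter_upwards [ok, K x, K x', ((uw.smul zero_le_two).add hs) _ p, lin_lx l3 hu m x p,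
      lin_lx l3 hu m x' p] with n e f f' g k k' W Q π B h
    have z := e.2.2.2.los e.1 ⟨f.2.2.1, f.2.2.2.1, (Y n).ix_le _⟩
      ⟨f'.2.2.1, f'.2.2.2.1, (Y n).ix_le _⟩ h
    rw [e.2.1] at z
    simp only [St.vl]
    linarith [(abs_le.1 k).1, (abs_le.1 k').2]
  · filter_upwards [ok, K x, uw _ (half_pos hε), lin_lx l2 hu m x (half_pos hε)]
      with n e f g g' ω hω
    have b1 := e.2.2.2.mem e.1 hω f.2.2.2.1
    have z := (e.2.2.2.obs _ ((Y n).ix_le _) _ b1.1 _ e.1 b1.2).2.1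
    rw [e.2.1] at z
    exact (abs_sub_le _ _ _).trans ((add_le_add z g').trans (by linarith))
  · have key : ∀ x x' : ℚ, x ≤ x' → ∀ ε : ℝ, 0 < ε → ∀ᶠ n in UF,
        ∀ ω ∈ ((Y n).atom (b n) (o n)).S, Nr ((|Γ| * |(x' : ℝ) - x| + ε) * u n)
          ((Y n).S ((Y n).ix (lx u d x' n)) ω).ν ((Y n).S ((Y n).ix (lx u d x n)) ω).ν := by
      intro x x' h ε hε
      have p : 0 < ε / 3 := by positivity
      filter_upwards [ok, K x, (uw.smul zero_le_two) _ p, lin_lx l4 hu m x p,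
        lin_lx l4 hu m x' p] with n e f g k k' ω hω
      have v0 := fun i hi => (e.2.2.2.val i hi ω (cE_sub hω)).2.hb
      refine nr_mono (e.2.2.2.lip e.1 hω (lx_mono h n) f.2.2.2.1) (v0 _ ((Y n).ix_le _))
        (v0 _ ((Y n).ix_le _)) ?_
      have z := mul_le_mul_of_nonneg_right ((le_abs_self _).trans_eq (abs_mul Γ ((x' : ℝ) - x)))
        (Nat.cast_nonneg (α := ℝ) (u n))
      rw [e.2.1]
      linarith [(abs_le.1 k).1, (abs_le.1 k').2]
    intro x _ x' _ ε hε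
    rcases le_total x x' with h | h
    · rw [abs_sub_comm]
      exact (key x x' h ε hε).mono fun n e ω hω F => (e ω hω F).symm
    · exact key x' x h ε hε

end

theorem sPkf : SPkf := by
  intro N D y M L w kf W Dh Y η₀ ε η t v s C C₀ X I pd fr hk kw e0 hε hs hC hC₀ hI a3 a4 hw hL h2 ok
  obtain ⟨r, hr, β₁, τ, c, u, b1, b2, hu, uw, uX, xu, un, lV, ld⟩ :=
    st1f pd e0 hε hs hC hC₀ hI a3 a4 hw hL h2 ok
  obtain ⟨A, o, H, p1, p2, p3⟩ := st2f pd fr hk kw e0 hC hw hu uw un b1 b2 lV ld ok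
  obtain ⟨M₁, m1, m2⟩ := fa_slow H
  obtain ⟨X₀, p0⟩ : ∃ X₀, Pen.Ok t v X₀ := ok.exists.elim fun _ a => ⟨_, a.1⟩
  have θ0 := p0.th_nonneg r
  have mj := fun n => (Y n).pw_mono (a := (Y n).jp) (ω := o n) fun j => (Y n).jp_nn j _
  obtain ⟨σ, Γ, β, d, M₀, β0, m3, m4⟩ := zoom (ι := Option (Option (Fin (dV N D + 1)))) (u := u)
    (c := c) (f := fun j n a => j.elim ((Y n).pw (Y n).jp (o n) a) fun j =>
      j.elim (Real.log ((Y n).S ((Y n).ix a) (o n)).J) fun k => sg k ((Y n).S ((Y n).ix a) (o n)).ν)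
    (T := fun n => (Y n).pw ((Y n).tv η) (o n)) (A := A) (C := C) (g := η₀ / 100) (δ := η₀ / 200)
    (φ := fun n a => (Y n).ψ η ((Y n).ix a) (o n) - 8 * th t v r * (Y n).pw (Y n).jp (o n) a)
    hu (by positivity) (fun n => (Y n).pw_mono fun j => (Y n).tv_nn η j _) (fun j n a a' e => by
      rcases j with _ | _ | k
      · exact (abs_of_nonneg (sub_nonneg.2 (mj n e))).trans_le ((Y n).pw_jp η _ e)
      · exact (Y n).dom (F := fun j => Real.log ((Y n).S j (o n)).J)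
          (fun j => ((Y n).jp_tv η j _).2.2) e
      · exact ((single_le_sum (f := fun k => |sg k ((Y n).S ((Y n).ix a') (o n)).ν -
          sg k ((Y n).S ((Y n).ix a) (o n)).ν|) (fun _ _ => abs_nonneg _)
          (mem_range.2 k.2)).trans ((Y n).sg_sum _ e)).trans ((Y n).pw_jp η _ e))
    (p1.mono fun _ a => a.2.2) (fun δ hδ => by
      filter_upwards [ok, ((uw.smul hC).add p2) δ hδ, un 1, hw.ev 1] with n k f g g' a a' e1 e2 e3
      have z := (Y n).psi_le η hC (k.2.2.1 ▸ by exact_mod_cast one_pos.trans_le g') (o n) e2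
        (e3.trans (k.2.1 ▸ (g.2 _ (by simp)).1))
      have mR := (Y n).pw_mono (a := (Y n).Rr η C) (ω := o n) fun _ => le_max_left _ _
      rw [k.2.2.1] at z
      linarith [mR e1, mR e3, mul_le_mul_of_nonneg_left (mj n e2) θ0]) (by
      filter_upwards [p1, xu A] with n k f
      have le := Nat.le_add_right (c n) (u n)
      have z := ((Y n).pw_jp η (o n) le).trans_lt (k.2.2.trans_lt f)
      have z1 := k.2.1
      have z3 := (Y n).up_sub (fun j => (Y n).jp j (o n)) le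
      simp only [pw, z3] at z
      have z2 := path (t := t) (v := v) _ _ (fun j _ => (Y n).jp_nn j _) z
      rw [← z3] at z2
      simp only [pw, (Y n).up_sub _ le] at z1
      simp only [pw]
      linarith)
  obtain ⟨u', u1, u2, u3⟩ := ex_mid hu (sm_max (sm_max m1 m3) (sm_max uw (sm_max uX p3)))
  have uw' : Sm u' fun n => w n :=
    u3.mono (Eventually.of_forall fun n => le_max_of_le_right (le_max_left _ _))
  obtain ⟨d1, d2, d3, d4⟩ := m4 u' u2
    (u3.mono (Eventually.of_forall fun n => le_max_of_le_left (le_max_right _ _)))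
  have l1 : ∀ k ≤ dV N D, LinAt u' (fun n => c n + d n)
      (fun n a => sg k ((Y n).S ((Y n).ix a) (o n)).ν)
      (if h : k < dV N D + 1 then σ (some (some ⟨k, h⟩)) else 0) := fun k hk => by
    rw [dif_pos (Nat.lt_succ_of_le hk)]
    exact d2 (some (some ⟨k, _⟩))
  have s1 := slope_le u1 l1 (d2 none) fun n a a' e => (Y n).sg_sum (o n) e
  have s2 := mul_nonneg θ0 ((sum_nonneg fun _ _ => abs_nonneg _).trans s1)
  have wd : ∀ R : ℝ, ∀ᶠ n in UF, ∀ a : ℕ, ((c n + d n : ℕ) : ℝ) ≤ a + R * u' n → c n ≤ a :=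
    fun R => (d1 R).mono fun n e a f => by
      push_cast at f
      exact_mod_cast (by linarith [e.1] : (c n : ℝ) ≤ a)
  have wd' : ∀ R : ℝ, ∀ᶠ n in UF, ∀ a : ℕ, (a : ℝ) ≤ (c n + d n : ℕ) + R * u' n → a ≤ c n + u n :=
    fun R => (d1 R).mono fun n e a f => by
      push_cast at f
      exact_mod_cast (by linarith [e.2] : (a : ℝ) ≤ c n + u n)
  obtain ⟨Z, z1, z2⟩ := finf (a := fun n => (Y n).ix (c n + u n)) (b := fun n => (Y n).ix (c n - u n))
    (kf := kf) (β := 1 * β + 8 * th t v r * σ none) (two_of hk kw uw') pd.dsk.box hr.le p0.t0 u1 uw'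
    (u3.mono (Eventually.of_forall fun n => le_max_of_le_right (le_max_of_le_right
      (le_max_left _ _)))) (u3.mono (Eventually.of_forall fun n => le_max_of_le_right
      (le_max_of_le_right (le_max_right _ _)))) (by
      filter_upwards [ok, p1, hw.ev 1] with n k f g
      exact ⟨f.1, k.2.2.1, k.2.2.1 ▸ by exact_mod_cast one_pos.trans_le g, k.2.2.2⟩)
    (fun R => (d1 R).mono fun n e => by
      push_cast
      linarith [e.1, (Nat.cast_nonneg (c n) : (0 : ℝ) ≤ _)]) (fun R => by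
      filter_upwards [wd R, wd' R, ok, un 1, uw 1 one_pos, hw.ev 1] with n e e' k f g g' a h
      have f1 := e a (by linarith [(abs_le.1 h).1])
      have f2 := e' a (by linarith [(abs_le.1 h).2])
      have f3 : c n + u n ≤ (Y n).M := k.2.1 ▸ (f.2 _ (by simp)).1
      have f4 : u n ≤ c n := by exact_mod_cast (by linarith [f.1] : (u n : ℝ) ≤ c n)
      have f5 : w n ≤ u n := by exact_mod_cast (by linarith : (w n : ℝ) ≤ u n)
      have f6 : 0 < w n := by exact_mod_cast one_pos.trans_le g'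
      refine ⟨f2.trans f3, (Y n).ix_anti f2, ((Y n).ix_anti f1).trans_lt ?_⟩
      have f7 : (c n - u n) / w n + 1 ≤ c n / w n := by
        rw [← Nat.add_div_right _ f6]
        exact Nat.div_le_div_right (by omega)
      have f8 : c n / w n ≤ (Y n).M / w n := Nat.div_le_div_right (by omega)
      simp only [ix, T, k.2.2.1]
      omega) l1 (d2 (some none)) (d4.comb (d2 none) 1 _ fun n a => by
        simp only [Option.elim]; ring) d3 (fun R a a' e =>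
      m2 u' (u3.mono (Eventually.of_forall fun n => le_max_of_le_left (le_max_left _ _)))
        (two_of hk kw uw') a a' (by
          filter_upwards [e, wd R, wd' R] with n f g g' using ⟨g _ f.1, f.2.1, g' _ f.2.2⟩))
    (by linarith [mul_le_mul_of_nonneg_left s1 θ0])
  exact ⟨_, _, _, _, _, Z, θ0, (p0.th_anti (Nat.zero_le r)).trans_eq th_zero, by linarith,
    z1, z2⟩

end Pool.Agent.MP_5168f5_an.QA
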