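import Pool.Agent.MP_4b405e_nt.SK.N2
import Pool.Agent.MP_4b405e_nt.SK.W5F

/-! Sparse heights: the zoomed system with caps and frames. Records and statements. -/

namespace Pool.Agent.MP_5168f5_an.QA.Cp

open H19 H17S H17F R4 AN Filter Matrix
open GA (Mt IsFr Wd br)
open LC (Au)
open S20 (dn)

variable {ι κ α : Type} [Fintype ι] [DecidableEq ι] [Fintype κ] [DecidableEq κ] [Fintype α]

/-- Anti-concentration of pairs in a piece, for heights of spacing `k`. -/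
def Ba.Acf {Ω Λ : Type} (σ : Cs ι κ α) (X : Ba ι κ α Ω) (k : ℕ) (K : Ω → Λ) (d u w : ℝ) : Prop :=
  ∀ ω ∈ X.P.S, ∀ h : ℝ, h ≤ w → ∀ (φ : κ → ℝ) (E : Ω → Prop),
  (∀ b, (σ.μ b = 0 → φ b = 0) ∧ |φ b| ≤ X.F * Real.exp w) → (∃ i, 1 ≤ |φ ⬝ᵥ X.A ω i|) →
  (∀ v v', X.At K ω v → X.At K ω v' → E v → E v' →
    |∑ b, φ b * (Real.exp (σ.μ b * d) * X.t v v' b)| ≤ Real.exp (-h)) →
  pb (cv X.P K (K ω)) E ≤ Real.exp ((u - h / σ.L₁) / k)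

/-- The zoomed system: the window of caps together with the group element `g`, the line `l`, the
height `zz`, the base level `c₀`, the number `W` of levels and the deep cell `T`. -/
structure Zd (ι κ α Ω Λ Li Γ : Type) : Type extends Wn ι κ α Ω Λ where
  g : Ω → Mt ι
  l : Ω → Li
  zz : Ω → ℝ
  c₀ : ℕ
  W : ℕ
  ka : ℝ
  T : Ω → Γ

namespace Zd

variable {Ω Λ L Γ : Type} (σ : Cs ι κ α) (X : Zd ι κ α Ω Λ L Γ)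

/-- The data with the group element. -/
def Y : Ba ι κ α Ω := ⟨X.P, X.F, X.L, X.g, X.B, X.c, X.A⟩

/-- The piece of depth `c`. -/
noncomputable def Q (c : ℕ) (ω : Ω) : L × ℤ := (X.l ω, fl1 (X.c₀ + c) (X.zz ω))

/-- The facts on one space, with spacing `k`, loss `u` and range `w`. -/
structure Ok (k : ℕ) (u w : ℝ) : Prop where
  top : Fn X.P (X.O true 0) (X.Q 0)
  z0 : ∀ ω ∈ X.P.S, ∀ v ∈ X.P.S, fl1 X.c₀ (X.zz ω) = fl1 X.c₀ (X.zz v)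
  unit : ∀ ω ∈ X.P.S, IsUnit (X.g ω)
  ex : ∀ ω ∈ X.P.S, ∀ v ∈ X.P.S, X.g v = X.g ω * GA.ex (X.B ω) (X.Y.t ω v) ∧
    ∀ b, |X.Y.t ω v b| ≤ Real.exp u
  grW : ∀ ω ∈ X.P.S, ∀ a b e, 0 < σ.μ e → ¬Hw σ.μ a b e →
    |X.c ω a b e| * Real.exp ((σ.μ e - σ.μ a - σ.μ b) * X.W) * X.F ≤ 1
  inc : ∀ c ≤ X.W, X.Y.IncO σ (X.Q c) c u
  ac : ∀ c ≤ X.W, X.Y.Acf σ k (X.Q c) c u w
  ka : Real.exp (-u) ≤ X.ka ∧ X.ka ≤ Real.exp u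
  tt : ∀ ω v, X.Y.At (X.Q 0) ω v →
    |X.Y.t ω v σ.τ - X.ka * 2 ^ X.c₀ * (X.zz v - X.zz ω)| ≤ Real.exp (-(w + lg * X.W))
  fa : ∀ ω ∈ X.P.S, MX.cm X.P (X.Q 0) (X.Q X.W) ω ≤
    Real.exp (u / k) * bw (k : ℝ)⁻¹ X.c₀ (X.c₀ + X.W) (X.zz ω)
  fT : Fn X.P X.T (X.Q X.W)
  zT : Fn X.P (fun ω => fl1 (X.c₀ + X.W) (X.zz ω)) X.T
  loc : ∀ ω v, X.Y.At X.T ω v → ∀ b, |X.Y.t ω v b| ≤ Real.exp (u - σ.μ b * X.W)
  ind : mi X.P X.T (X.O true 0) (fun _ => ()) ≤ u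

end Zd

/-- The zoomed system with caps and frames. The unit is the unit of the window of caps. -/
structure Cap {Ω Λ L Γ : ℕ → Type} (σ : Cs ι κ α) (X : ∀ n, Zd ι κ α (Ω n) (Λ n) (L n) (Γ n))
    (mm ϑ La D s₀ : ℝ) (vt : κ → ℝ) (F F' : ℕ → Matrix κ κ ℝ)
    (u u' : ∀ n, Ω n → Matrix κ κ ℝ) : Prop where
  g0 : 0 < σ.g
  wt : ∀ a, σ.μ a = 0 ∨ σ.g ≤ σ.μ a
  be0 : 0 < σ.be
  lgτ : σ.μ σ.τ = lg
  ww : N2.WW σ (fun n => (X n).toWn) ϑ La D s₀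
  fr : FR σ (fun n => (X n).toWn) s₀ vt F F' u u'
  dm : 0 ≤ D ∧ D ≤ mm ∧ s₀ ≤ mm
  fu : ∀ n ω v, (X n).O true 0 ω = (X n).O true 0 v → u n ω = u n v ∧ u' n ω = u' n v
  two : Two σ.kf fun n => (X n).M
  ok : Au (fun n => (X n).M) fun n p w => (X n).Ok σ (σ.kf n) p w
  wide : ∀ ε : ℝ, 0 < ε → ∀ᶠ n in UF, (X n).F ≤ Real.exp (ε * (X n).W) ∧
    ∃ T : Finset (Λ n), (T.card : ℝ) ≤ Real.exp (ε * (X n).W) ∧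
      ∀ ω ∈ (X n).P.S, (X n).O true 0 ω ∈ T
  cnt : ∃ c : ℝ, 0 < c ∧ ∀ᶠ n in UF, ∃ G : Finset (Γ n),
    (G.card : ℝ) ≤ Real.exp ((σ.m - σ.be / 2) * (X n).W) ∧ ∀ ω ∈ (X n).P.S,
      c ≤ pb (cv (X n).P ((X n).Q 0) ((X n).Q 0 ω)) fun v => (X n).T v ∈ G

/-- The statement of the block. -/
def SpA : Prop := ∀ (ι κ α : Type) [Fintype ι] [DecidableEq ι] [Fintype κ] [DecidableEq κ]
  [Fintype α] (σ : Cs ι κ α) (Y : ℕ → Pd ι κ α) (lv : ℕ → ℚ → ℕ) (zz : ∀ n, (Y n).Ω → ℝ),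
  PreGf σ Y lv zz → ∀ mm : ℝ, 0 < mm → ∃ (Ω Λ L Γ : ℕ → Type)
    (X : ∀ n, Zd ι κ α (Ω n) (Λ n) (L n) (Γ n)) (ϑ La D s₀ : ℝ) (vt : κ → ℝ)
    (F F' : ℕ → Matrix κ κ ℝ) (u u' : ∀ n, Ω n → Matrix κ κ ℝ),
    Cap σ X mm ϑ La D s₀ vt F F' u u'

/-! ### The parts of the proof -/

/-- The facts on the grid `i / N`, with loss `v`. -/
structure Pd.Gf (σ : Cs ι κ α) (X : Pd ι κ α) (k : ℕ) (lv : ℚ → ℕ) (zz : X.Ω → ℝ) (N : ℕ)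
    (v : ℝ) : Prop where
  zT : Fn X.P (X.z 0) X.T
  zS : Fn X.P (X.z 1) X.S
  tS : Fn X.P X.T X.S
  tO : Fn X.P X.T (X.O 0)
  fB : Fn X.P (fun ω => (X.B ω, X.c ω)) X.T
  fA : Fn X.P X.A (X.O 0)
  alg : ∀ ω ∈ X.P.S, X.Alg σ v ω
  near : X.Near σ v
  tt : X.Tt σ v
  inc : ∀ i ≤ N, X.Inc σ (i / N) v
  ac : ∀ i ≤ N, X.Acf σ k (i / N) v
  hz : ∀ x ω w, X.z x ω = X.z x w ↔ fl1 (lv x) (zz ω) = fl1 (lv x) (zz w)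
  zt : ∀ ω, X.zt ω = Real.exp (lg * (lv 1 - X.M)) * zz ω
  mono : ∀ i i' : ℕ, i ≤ i' → i' ≤ N → lv (i / N) ≤ lv (i' / N)
  lev : ∀ i ≤ N, ∀ i' ≤ N,
    |(lv (i' / N) : ℝ) - lv (i / N) - ((i' : ℝ) - i) / N * X.M| ≤ v
  fa : ∀ i i' : ℕ, i ≤ i' → i' ≤ N → ∀ ω ∈ X.P.S, MX.cm X.P (X.O (i / N)) (X.O (i' / N)) ω ≤
    Real.exp (v / k) * bw (k : ℝ)⁻¹ (lv (i / N)) (lv (i' / N)) (zz ω)
  top : mi X.P X.l X.S X.T ≤ (σ.m - σ.be) * X.M + v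

/-- Rounding of the directions. -/
noncomputable def rd (δ : ℝ) (A : α → κ → ℝ) : α → κ → ℝ := fun i b => ⌊A i b / δ⌋ * δ

/-- The data at the depth `x`, on the event `E`, with floor `exp D`, directions rounded at
`exp (-3 D)`. -/
noncomputable def Pd.ld (X : Pd ι κ α) {β : Type} (E G : X.Ω → Prop) (L : ℝ) (D : ℕ) (x : ℚ)
    (C : X.Ω → β) : Ld ι κ α X.Ω (β × (α → κ → ℝ)) β :=
  ⟨⟨cE X.P E, Real.exp (1 * D), L, fun _ => 1, X.B, X.c,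
    fun ω => rd (Real.exp (-(3 * D))) (X.A ω)⟩, D, x * X.M, C,
    fun ω => (C ω, rd (Real.exp (-(3 * D))) (X.A ω)), G⟩

/-- The zoomed data between the grid points `i ≤ i'`. -/
noncomputable def Pd.zd (X : Pd ι κ α) {Λ β : Type} (Z : Wn ι κ α X.Ω Λ) (lv : ℚ → ℕ)
    (zz : X.Ω → ℝ) (x x' : ℚ) (C' : X.Ω → β) : Zd ι κ α X.Ω Λ X.L β :=
  ⟨Z, X.j, X.l, zz, lv x, lv x' - lv x, Real.exp (lg * (x * X.M + lv 1 - X.M - lv x)), C'⟩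

/-- In an atom of `C` the group elements agree to the depth `x`. -/
def Pd.Loc (σ : Cs ι κ α) (X : Pd ι κ α) {β : Type} (C : X.Ω → β) (x : ℚ) (u : ℝ) : Prop :=
  ∀ ω ∈ X.P.S, ∀ v ∈ X.P.S, C ω = C v → X.j v = X.j ω * GA.ex (X.B ω) (X.t ω v) ∧
    ∀ b, |X.t ω v b| ≤ Real.exp (u - σ.μ b * (x * X.M))

/-- The heights have small entropy. -/
def RowH : Prop := ∀ (ι κ α : Type) [Fintype ι] [DecidableEq ι] [Fintype κ] [DecidableEq κ]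
  [Fintype α] (σ : Cs ι κ α) (Y : ℕ → Pd ι κ α) (lv : ℕ → ℚ → ℕ) (zz : ∀ n, (Y n).Ω → ℝ),
  PreGf σ Y lv zz → Sm (sM Y) fun n => ch (Y n).P ((Y n).z 1) ((Y n).O 0)

/-- The choice of the level, the event of the count and the event of independence. -/
def RowP : Prop := ∀ (Ω β γ δ : Type) (P : FP Ω) (C : ℕ → Ω → β) (O : ℕ → Ω → γ) (A : Ω → δ)
  (n : ℕ) (a b H θ : ℝ), 0 < b → b ≤ a → 4 * a ≤ b * n → 0 < θ →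
  (∀ k < n, Fn P (C k) (C (k + 1))) → (∀ k ≤ n, Fn P (C k) (O k)) →
  ch P (C n) (C 0) ≤ (a - b) * n → ch P A (C 0) ≤ H →
  ∃ k, 1 ≤ k ∧ k < n ∧ ∃ E G : Ω → Prop, Fn P E (O k) ∧ b / (4 * a) ≤ pb P E ∧
    (∀ o, ∃ T : Finset β, (T.card : ℝ) ≤ Real.exp a ∧ ∀ ω ∈ P.S, E ω → C k ω = o →
      b / (4 * a) ≤ pb (cv P (O k) (O k ω)) fun v => C (k + 1) v ∈ T) ∧
    Fn (cE P E) G (fun ω => (C k ω, A ω)) ∧ pb (cE P E) (fun ω => ¬G ω) ≤ θ ∧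
    ∀ G' : Ω → Prop, Fn (cE P E) G' (fun ω => (C k ω, A ω)) → (∀ ω, G' ω → G ω) →
      (∃ ω ∈ (cE P E).S, G' ω) →
      (∀ ω ∈ (cE P E).S, ∀ v ∈ (cE P E).S, G' ω → G' v → C k ω = C k v) →
      mi (cE (cE P E) G') (C (k + 1)) (fun ω => (C k ω, A ω)) (fun _ => ()) ≤
        4 * a / b * (4 * a / b * (H / n) + 1) / θ

/-- The algebra and the caps for the rounded directions. -/
def RowR : Prop := ∀ (ι κ α β : Type) [Fintype ι] [DecidableEq ι] [Fintype κ] [DecidableEq κ]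
  [Fintype α] (σ : Cs ι κ α) (X : Pd ι κ α) (E G : X.Ω → Prop) (D : ℕ) (x : ℚ) (C : X.Ω → β)
  (w : ℝ) (ω : X.Ω), 0 < σ.g → 0 ≤ x → x ≤ 1 → 0 ≤ w → w + Fintype.card κ + 3 ≤ D → D ≤ X.M →
  w + 2 * D ≤ σ.g * (1 - x) * X.M → X.Alg σ w ω →
  (X.ld E G (2 * Fintype.card κ ^ 2 * Real.exp w) D x C).Alg σ (x * X.M) ω ∧
  ((X.ld E G (2 * Fintype.card κ ^ 2 * Real.exp w) D x C).da σ ω).Good (S0 κ) ∧
  ∀ S, ((X.ld E G (2 * Fintype.card κ ^ 2 * Real.exp w) D x C).da σ ω).Good S →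
    (X.da σ (Real.exp (1 * X.M)) (2 * Fintype.card κ ^ 2 * Real.exp w + 1) ω).Good S

/-- The words in the rounded directions; the number of values of the rounded directions. -/
def RowC : Prop := ∀ (ι κ α : Type) [Fintype ι] [DecidableEq ι] [Fintype κ] [DecidableEq κ]
  [Fintype α] (σ : Cs ι κ α),
  (∀ y : Wd α, ∃ K : ℝ, ∀ (β : Type) (X : Pd ι κ α) (E G : X.Ω → Prop) (L : ℝ) (D : ℕ) (x : ℚ)
    (C : X.Ω → β) (w w' : ℝ), 0 ≤ w → K * (w + 1) ≤ D → w' + 2 * D ≤ σ.g * X.M → 1 ≤ D →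
    (∀ ω ∈ X.P.S, X.Alg σ w ω) → X.Cur σ y w' → (X.ld E G L D x C).Cur σ y) ∧
  ∀ (D : ℕ) (w : ℝ), 0 ≤ w → ∃ T : Finset (α → κ → ℝ),
    (T.card : ℝ) ≤ Real.exp (Fintype.card α * Fintype.card κ * (3 * D + w + 2)) ∧
    ∀ A : α → κ → ℝ, (∀ i b, |A i b| ≤ Real.exp w) → rd (Real.exp (-(3 * D))) A ∈ T

/-- The geometric facts of the zoomed system. -/
def RowZ : Prop := ∀ (ι κ α : Type) [Fintype ι] [DecidableEq ι] [Fintype κ] [DecidableEq κ]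
  [Fintype α] (σ : Cs ι κ α), σ.Ok → 0 < σ.g → (∀ a, σ.μ a = 0 ∨ σ.g ≤ σ.μ a) → σ.μ σ.τ = lg →
  ∃ K : ℝ, ∀ (Λ β : Type) (X : Pd ι κ α) (k : ℕ) (lv : ℚ → ℕ) (zz : X.Ω → ℝ) (N i i' D : ℕ)
    (v L p w : ℝ) (C C' : X.Ω → β) (E G G₀ : X.Ω → Prop) (Z : Wn ι κ α X.Ω Λ),
    X.Gf σ k lv zz N v → 0 < N → i ≤ i' → i' ≤ N → 0 ≤ v → 1 ≤ k →
    K * (v + X.M / N + 1) ≤ p → p ≤ D → w + K ≤ D → K * D * N ≤ (N - i') * X.M →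
    Z.toBa = (X.ld E G₀ L D (i / N) C).toBa.nw σ G (((i / N : ℚ) : ℝ) * X.M) →
    (∀ ω v, Z.O true 0 ω = Z.O true 0 v ↔
      (X.ld E G₀ L D (i / N) C).l ω = (X.ld E G₀ L D (i / N) C).l v) →
    (∃ ω ∈ X.P.S, E ω) → (∃ ω ∈ (cE X.P E).S, G ω) → Fn X.P E (X.O (i / N)) →
    Fn (cE X.P E) G (X.ld E G₀ L D (i / N) C).l →
    (∀ ω ∈ (cE X.P E).S, ∀ v ∈ (cE X.P E).S, G ω → G v → C ω = C v) →
    Fn X.P C (X.O (i / N)) → Fn X.P (X.z (i / N)) C → X.Loc σ C (i / N) v →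
    Fn X.P C' (X.O (i' / N)) → Fn X.P (X.z (i' / N)) C' → X.Loc σ C' (i' / N) v →
    mi Z.P C' (Z.O true 0) (fun _ => ()) ≤ p →
    (X.zd Z lv zz (i / N) (i' / N) C').Ok σ k p w ∧
      ∀ ω ∈ Z.P.S, ∀ H : X.Ω → Prop, pb (cv Z.P ((X.zd Z lv zz (i / N) (i' / N) C').Q 0)
        ((X.zd Z lv zz (i / N) (i' / N) C').Q 0 ω)) H = pb (cv X.P (X.O (i / N)) (X.O (i / N) ω)) H

end Pool.Agent.MP_5168f5_an.QA.Cp
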