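import Pool.Agent.MP_4b405e_nt.SK.SpH
import Pool.Agent.MP_4b405e_nt.SK.BGre
import Pool.Agent.MP_4b405e_nt.SK.BRob

/-! Sparse slopes, block B: witnesses, the rows of the descent. -/

namespace Pool.Agent.MP_5168f5_an.QA.SH

open H19 H17S H17F R4 AN Filter Matrix Finset
open P7 (Kc)

variable {ι κ : Type} [Fintype ι] [DecidableEq ι] [Fintype κ] [DecidableEq κ]

namespace St

variable (σ : Kc ι κ) (wk : κ → ℝ) {X : Wo ι κ} (S : St X)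

/-- The functional `ξ` kills the brackets with the pieces up to `s`. -/
def Wit (D : ℕ) (s h : ℝ) (ξ : κ → ℝ) (ω : X.Ω) : Prop :=
  ∀ a p, 0 < vt σ p → wk p ≤ s → |S.cq σ D ω a p ⬝ᵥ ξ| ≤ Real.exp (-h)

/-- The functional `ξ` kills the vectors of rate `s` of the frame of `v`. -/
def Ev (D : ℕ) (s h : ℝ) (ξ : κ → ℝ) (v : X.Ω) : Prop :=
  ∀ a, vt σ a = s → |S.φ σ D v v a ⬝ᵥ ξ| ≤ Real.exp (-h)

/-- The event `A` of the class `k` carries a smaller chain. -/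
def Gd (h : ℝ) (D : ℕ) (k : S.β) (A : X.Ω → Prop) : Prop := ∃ ω ∈ X.P.S, S.cp D ω = k ∧ S.E D ω ∧
  ∃ (m s : ℝ) (ξ : κ → ℝ), Un σ wk m s ξ ∧ S.Wit σ wk D s h ξ ω ∧
    ∀ v ∈ X.P.S, S.cp D v = k → A v → S.Ev σ D s h ξ v

/-- The level `h` lies between the loss and the range. -/
structure Num (C h : ℝ) : Prop where
  e0 : 1 ≤ X.e
  lo : C * S.e ≤ h
  hi : C * h ≤ S.r
  rM : S.r ≤ X.M
  w : C * X.M ≤ X.w

end St

/-- A statement about one space, with a constant that depends only on the weights. -/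
def OnF (p : ∀ (ι κ : Type) [Fintype ι] [DecidableEq ι] [Fintype κ] [DecidableEq κ]
    (_ : Kc ι κ) (_ : κ → ℝ) (X : Wo ι κ), St X → ℝ → ℝ → Prop) : Prop :=
  ∀ (ι κ : Type) [Fintype ι] [DecidableEq ι] [Fintype κ] [DecidableEq κ] (σ : Kc ι κ)
    (wk : κ → ℝ), Ko σ → (∀ p, 0 < vt σ p → ∃ a, 0 < vt σ a ∧ wk p = vt σ a) →
    ∃ C : ℝ, 1 ≤ C ∧ ∀ (X : Wo ι κ) (S : St X) (m₀ m₁ h : ℝ), X.Ok σ m₀ → S.Ok σ wk m₁ →
      S.Num C h → p ι κ σ wk X S C h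

/-- A functional that kills the letters of many samples of a class kills the algebra. -/
def RowK : Prop := OnF fun _ κ _ _ _ _ σ wk X S C h => ∀ D < X.M, ∀ ω ∈ X.P.S, S.E D ω →
  ∀ (m s : ℝ) (ξ : κ → ℝ), Un σ wk m s ξ →
  Real.exp (-(h / C)) < pb (cv X.P (S.cp D) (S.cp D ω)) (fun v => ∀ a, σ.G1 a → ∀ p, 0 < vt σ p →
    wk p = s → |∑ p', ξ p' * S.act σ D v a p p'| ≤ Real.exp (-h)) → S.Wit σ wk D s (h / 2) ξ ω

/-- A functional that kills the algebra and sees the frame of the sample sees the source. -/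
def RowL : Prop := OnF fun _ κ _ _ _ _ σ wk X S C h => ∀ D < X.M, ∀ d : ℕ,
  2 * Vm σ * d ≤ S.r → C * h ≤ d → ∀ ω ∈ X.P.S, S.E D ω →
  ∀ (m s : ℝ) (ξ : κ → ℝ) (l : X.Λ → κ → ℝ), Un σ wk m s ξ → S.Wit σ wk D s (h / 2) ξ ω →
  pb (cv X.P (S.cp D) (S.cp D ω)) (fun v => S.Thin σ wk D d s h ξ (l (X.C (D + d) v)) v ∧
    ¬S.Ev σ D s (h / 4) ξ v) ≤ Real.exp (-(h / C))

/-- The pivot step on one space. -/
def RowS : Prop := OnF fun _ κ _ _ _ _ σ wk X S C h => ∀ (x z δ : ℝ) (r : Bool → ℕ) (e : Bool → ℝ)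
  (R : ℕ → X.Ω → Prop) (s : ℕ → X.Ω → ℕ), 0 ≤ x → 0 < δ → 1 ≤ z → z ≤ h →
  S.e + x + C ≤ e true → r true + C * S.e ≤ z → S.e + x + z + C ≤ e false →
  r false + 3 * z + C ≤ h → (∀ b, 2 * e b + C ≤ r b) →
  (∀ D < X.M, SB.Cut X.P (S.cp D) X.lam (S.Gd σ wk h D) (Real.exp (-x)) (R D) (s D)) →
  δ * X.M ≤ ∑ D ∈ range X.M, pb X.P (R D) →
  ∃ (y : κ × κ × Bool) (S' : St X), 0 < vt σ y.1 ∧ wk y.1 < vt σ y.2.1 ∧ S'.r = r y.2.2 ∧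
    S'.e = e y.2.2 ∧ S'.Ok σ (Function.update wk y.1 (vt σ y.2.1)) (δ / (2 * Fintype.card κ))

end Pool.Agent.MP_5168f5_an.QA.SH
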