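import Pool.Agent.MP_4b405e_nt.SK.TanS

/-! Sparse heights: independence of the blocks, without a tower of widths. -/

namespace Pool.Agent.MP_5168f5_an.QA.Tan

open H19 H17S H17F Finset

variable {κ : Type} {h : (κ → ℝ) → ℝ} {r : κ → ℕ}

/-- The entropy of the block of class `i` given the blocks of the lower classes. -/
noncomputable def Gc (h : (κ → ℝ) → ℝ) (r : κ → ℕ) (i : ℕ) (d : ℝ) (s : κ → ℝ) : ℝ :=
  h (up (fun a => r a = i) d (up (fun a => r a < i) d s)) - h (up (fun a => r a < i) d s)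

/-- One move along the direction `v`, which almost fixes the class `i`. -/
theorem Sub.move (H : Sub h) {i : ℕ} {v : κ → ℝ} {d d' τ e : ℝ} (hd : 0 ≤ d') (e' : d' ≤ d)
    (v0 : ∀ a, r a = i → 0 ≤ v a ∧ v a ≤ τ) (v1 : ∀ a, i < r a → d' ≤ v a)
    (v2 : ∀ a, r a < i → d' - v a ≤ d) (he : ∀ s, h (up (fun a => r a = i) τ s) - h s ≤ e)
    (x : κ → ℝ) : Jc h r (i + 1) d' x
      ≤ Jc h r i d x + Jc h r i d (x + v) + (Gc h r i d' x - Gc h r i d' (x + v)) + e := by
  obtain ⟨f, hf⟩ : ∃ f, f = up (fun a => r a < i) d' x := ⟨_, rfl⟩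
  obtain ⟨f', hf'⟩ : ∃ f', f' = up (fun a => r a < i) d' (x + v) := ⟨_, rfl⟩
  obtain ⟨g, hg⟩ : ∃ g, g = up (fun a => ¬r a < i + 1) d' x := ⟨_, rfl⟩
  have tri : ∀ {p : κ → Prop}, (∀ a, r a < i → ¬r a = i → r a < i + 1 → p a) →
      (∀ a, ¬r a < i → r a = i → r a < i + 1 → p a) →
      (∀ a, ¬r a < i → ¬r a = i → ¬r a < i + 1 → p a) → ∀ a, p a := fun h1 h2 h3 a => by
    rcases lt_trichotomy (r a) i with c | c | c
    exacts [h1 a c c.ne (by omega), h2 a (by omega) c (by omega), h3 a (by omega) c.ne' (by omega)]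
  have h1 : Jc h r (i + 1) d' x = I3 h (up (fun a => r a = i) d' f) g x := by
    rw [Jc, hg, hf]
    congr 1
    exact funext (tri (fun a c1 c2 c3 => by simp only [up, c1, c2, c3, if_true, if_false])
      (fun a c1 c2 c3 => by simp only [up, c1, if_pos c2, c3, if_true, if_false])
      fun a c1 c2 c3 => by simp only [up, c1, c2, c3, if_false])
  have h2 : I3 h f g x ≤ Jc h r i d x := H.both (hf ▸ up_le hd e' (fun _ => id) x)
    (hg ▸ up_le hd e' (fun a => by omega) x) x
  have h3 : I3 h (f ⊔ f') (up (fun a => r a = i) d' f') f' ≤ Jc h r i d (x + v) := by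
    refine H.win (hd.trans e') (hf' ▸ le_up hd _ _) le_sup_right (le_up hd _ _)
      (tri (fun a c1 c2 c3 => ⟨fun _ => ?_, fun k => absurd c1 k⟩)
        (fun a c1 c2 c3 => ⟨fun k => absurd k c1, fun _ => ?_⟩)
        fun a c1 c2 c3 => ⟨fun k => absurd k c1, fun _ => ?_⟩)
      (tri (fun a c1 c2 c3 => ⟨fun _ => if_neg c2, fun k => absurd c1 k⟩)
        (fun a c1 c2 c3 => ⟨fun k => absurd k c1, fun _ => ?_⟩)
        fun a c1 c2 c3 => ⟨fun k => absurd k c1, fun _ => ?_⟩)
    · have := v2 a c1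
      simp only [hf, hf', up, c1, if_true, Pi.sup_apply, Pi.add_apply, sup_le_iff]
      constructor <;> linarith
    · simpa [hf, hf', up, c1] using (v0 a c2).1
    · simpa [hf, hf', up, c1] using hd.trans (v1 a (by omega))
    · simpa [hf', up, c1, if_pos c2] using e'
    · simpa [hf', up, c1, c2] using hd.trans e'
  have h4 := H.le (c := up (fun a => r a = i) d' fun a => if r a = i then f a else (f ⊔ f') a)
    (s := f ⊔ g) (a := up (fun a => r a = i) d' f ⊔ g) (b := f ⊔ f')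
    (sup_le_sup_right (le_up hd _ _) _)
    (sup_le le_sup_left (tri (fun a c1 c2 c3 => le_sup_of_le_left (by
        simp only [hf, hg, up, if_pos c1, if_neg (not_not.2 c3)]; linarith))
      (fun a c1 c2 c3 => le_sup_of_le_left (by
        simp only [hf, hg, up, if_neg c1, if_neg (not_not.2 c3), le_refl]))
      fun a c1 c2 c3 => le_sup_of_le_right (by
        have := v1 a (by omega)
        simp only [hf', hg, up, if_neg c1, if_pos c3, Pi.add_apply]; linarith)))
    fun a => by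
      by_cases c : r a = i
      · exact le_sup_of_le_left (le_sup_of_le_left (by simp [up, c]))
      · exact le_sup_of_le_right (by simp [up, c])
  have h5 := he (up (fun a => r a = i) d' fun a => if r a = i then f a else (f ⊔ f') a)
  have h6 := H.mono (s := f ⊔ f' ⊔ up (fun a => r a = i) d' f') (a := up (fun a => r a = i) τ
    (up (fun a => r a = i) d' fun a => if r a = i then f a else (f ⊔ f') a)) fun a => by
      by_cases c : r a = i
      · have := v0 a c
        simp only [hf, hf', up, if_pos c, if_neg (show ¬r a < i by omega), Pi.sup_apply,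
          Pi.add_apply, sup_le_iff]
        refine ⟨⟨?_, ?_⟩, ?_⟩ <;> linarith
      · simp [up, c]
  rw [h1, Gc, Gc, ← hf, ← hf']
  unfold I3 at *
  linarith

variable {n : ℕ}

/-- The widths `d` and the directions `v`; the direction `v i` moves the class `i` by at most
`τ`, raises the higher classes by the width, and lowers the lower classes by less than `d i`. -/
structure Dr (r : κ → ℕ) (d : ℕ → ℝ) (τ : ℝ) (v : Fin n → κ → ℝ) : Prop where
  d0 : ∀ i, 0 ≤ d i
  an : ∀ i, d (i + 1) ≤ d i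
  v0 : ∀ (i : Fin n) a, r a = i → 0 ≤ v i a ∧ v i a ≤ τ
  v1 : ∀ (i : Fin n) a, i < r a → d (i + 1) ≤ v i a
  v2 : ∀ (i : Fin n) a, r a < i → d (i + 1) - v i a ≤ d i

variable {d : ℕ → ℝ} {v : Fin n → κ → ℝ} {T : Fin n → ℕ} {τ e e' : ℝ} {T₀ : ℕ}

theorem Sub.sum_Jc (H : Sub h) (W : Dr r d τ v) (T0 : 0 < T₀) (hT : ∀ i, T₀ ≤ T i)
    (he : ∀ (i : Fin n) s, h (up (fun a => r a = i) (d 0) s) - h s ≤ e)
    (he' : ∀ (i : Fin n) s, h (up (fun a => r a = i) τ s) - h s ≤ e') :
    ∀ i ≤ n, ∀ s, ∑ t ∈ off T, Jc h r i (d i) (loc s v t)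
      ≤ (2 ^ i - 1) * (e / T₀ + e') * (off T).card := by
  intro i hi
  induction i with
  | zero => simp [Jc_zero (W.d0 0)]
  | succ i ih =>
    intro s
    have ih := ih (by omega)
    obtain ⟨j, rfl⟩ : ∃ j : Fin n, j.1 = i := ⟨⟨i, hi⟩, rfl⟩
    have t0 : (0 : ℝ) < T₀ := by exact_mod_cast T0
    have t1 : (T₀ : ℝ) ≤ T j := by exact_mod_cast hT j
    have g0 : ∀ x, 0 ≤ Gc h r j (d (j + 1)) x := fun x => sub_nonneg.2 (H.mono (le_up (W.d0 _) _ _))
    have g1 : ∀ x, Gc h r j (d (j + 1)) x ≤ e := fun x => le_trans (sub_le_sub_right (H.mono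
      (up_le (W.d0 _) (antitone_nat_of_succ_le W.an (Nat.zero_le _)) (fun _ => id) _)) _) (he j _)
    have k := sum_le_sum fun t (_ : t ∈ off T) => H.move (W.d0 _) (W.an _) (W.v0 j) (W.v1 j)
      (W.v2 j) (he' j) (loc s v t)
    have l : ∀ t, loc s v t + v j = loc (s + v j) v t := fun t => add_right_comm _ _ _
    have m : ∑ t ∈ off T, (Gc h r j (d (j + 1)) (loc s v t) - Gc h r j (d (j + 1)) (loc s v t + v j))
        ≤ e / T₀ * (off T).card := by
      have q := sum_upd (T := T) j fun t =>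
        Gc h r j (d (j + 1)) (loc s v t) - Gc h r j (d (j + 1)) (loc s v t + v j)
      have q' : ∀ t ∈ off T, ∑ k ∈ range (T j), (Gc h r j (d (j + 1))
          (loc s v (Function.update t j k)) - Gc h r j (d (j + 1))
            (loc s v (Function.update t j k) + v j)) ≤ e := fun t _ => by
        have := sum_range_sub' (fun k : ℕ => Gc h r j (d (j + 1))
          (loc s v (Function.update t j 0) + (k : ℝ) • v j)) (T j)
        simp only [Nat.cast_succ, add_smul, one_smul, ← add_assoc, ← loc_upd] at this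
        rw [this]
        exact (sub_le_self _ (g0 _)).trans (g1 _)
      have q'' := q.le.trans (sum_le_card_nsmul _ _ _ q')
      refine le_of_mul_le_mul_left (q''.trans ?_) (t0.trans_le t1)
      have e0 : 0 ≤ e := (g0 s).trans (g1 s)
      rw [nsmul_eq_mul, ← mul_assoc, mul_comm]
      refine mul_le_mul_of_nonneg_right ?_ (Nat.cast_nonneg _)
      rw [← mul_div_assoc, le_div_iff₀ t0, mul_comm]
      exact mul_le_mul_of_nonneg_right t1 e0
    rw [sum_add_distrib, sum_add_distrib, sum_add_distrib, sum_const, nsmul_eq_mul] at k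
    have i1 := ih s
    have i2 := ih (s + v j)
    simp only [← l] at i2
    rw [pow_succ]
    linarith

theorem Sub.box (H : Sub h) (W : Dr r d τ v) (hr : ∀ a, r a < n) (T0 : 0 < T₀)
    (hT : ∀ i, T₀ ≤ T i) (he : ∀ (i : Fin n) s, h (up (fun a => r a = i) (d 0) s) - h s ≤ e)
    (he' : ∀ (i : Fin n) s, h (up (fun a => r a = i) τ s) - h s ≤ e') (e0 : 0 ≤ e / T₀ + e')
    (s : κ → ℝ) : avg (off T) (fun t => Tc h r n (d n) (loc s v t))
      ≤ n * (2 ^ n * (e / T₀ + e')) := by
  have c0 : (0 : ℝ) < (off T).card := by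
    exact_mod_cast (off_ne fun i => T0.trans_le (hT i)).card_pos
  have k : ∀ i ∈ range n, ∑ t ∈ off T, Jc h r (i + 1) (d n) (loc s v t)
      ≤ 2 ^ n * (e / T₀ + e') * (off T).card := fun i hi => by
    refine (sum_le_sum fun t _ => H.Jc_mono (W.d0 n)
      (antitone_nat_of_succ_le W.an (mem_range.1 hi)) _ _).trans
      ((H.sum_Jc W T0 hT he he' (i + 1) (mem_range.1 hi) s).trans ?_)
    have : (2 : ℝ) ^ (i + 1) ≤ 2 ^ n := pow_le_pow_right₀ one_le_two (mem_range.1 hi)
    gcongr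
    linarith
  rw [avg, div_le_iff₀ c0]
  refine (sum_le_sum fun t _ => H.Tc_le hr (W.d0 n) _).trans ?_
  rw [sum_comm]
  simpa [mul_assoc] using sum_le_card_nsmul _ _ _ k

variable {Ω β : Type} {P : FP Ω} {K : (κ → ℝ) → Ω → β}

/-- The product structure at most locations: the error is the entropy `e` of the widest block
divided by the number of steps, plus the entropy `e'` of a block of width `τ`. -/
theorem tanB (C : Cells P K) (W : Dr r d τ v) (hr : ∀ a, r a < n) (T0 : 0 < T₀)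
    (hT : ∀ i, T₀ ≤ T i) (t0 : 0 ≤ τ) (e0 : 0 ≤ e / T₀ + e')
    (he : ∀ (i : Fin n) s, ch P (K (up (fun a => r a = i) (d 0) s)) (K s) ≤ e)
    (he' : ∀ (i : Fin n) s, ch P (K (up (fun a => r a = i) τ s)) (K s) ≤ e') (s : κ → ℝ) :
    avg (off T) (fun t => Tc (fun s => hh P (K s)) r n (d n) (loc s v t))
      ≤ n * (2 ^ n * (e / T₀ + e')) :=
  C.sub.box W hr T0 hT (fun i s => by rw [← C.ch_eq (le_up (W.d0 _) _ s)]; exact he i s)
    (fun i s => by rw [← C.ch_eq (le_up t0 _ s)]; exact he' i s) e0 s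

/-- Natural depths `μ l + w d`: classes of the slopes `μ / w`, listed increasingly by `ρ`.
The direction of class `i` is `(l, d) = (q i, -ρ i * q i)`. -/
theorem dr_nat {μ w : κ → ℝ} {ρ : ℕ → ℝ} {g c H : ℝ} (hg : 0 < g) (hH : 0 ≤ H)
    (hμ : ∀ a, μ a = ρ (r a) * w a) (h1 : ∀ a i, i < r a → g ≤ (ρ (r a) - ρ i) * w a)
    (h2 : ∀ a i, i < n → (ρ i - ρ (r a)) * w a ≤ c) (c0 : 0 ≤ c) {q : Fin n → ℝ}
    (q1 : ∀ i : Fin n, (1 + 2 * c / g) ^ (n - (i + 1)) * H / g ≤ q i)
    (q2 : ∀ i : Fin n, q i ≤ 2 * ((1 + 2 * c / g) ^ (n - (i + 1)) * H / g)) :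
    Dr r (fun i => (1 + 2 * c / g) ^ (n - i) * H) 0 fun (i : Fin n) a =>
      μ a * q i + w a * (-ρ i * q i) := by
  have b : 1 ≤ 1 + 2 * c / g := le_add_of_nonneg_right (by positivity)
  have q0 : ∀ i, 0 ≤ q i := fun i => le_trans (by positivity) (q1 i)
  refine ⟨fun i => by positivity, fun i => mul_le_mul_of_nonneg_right
    (pow_le_pow_right₀ b (by omega)) hH, fun i a c => ?_, fun i a c => ?_, fun i a _ => ?_⟩
  · rw [hμ, c]; constructor <;> linarith
  · have := mul_le_mul_of_nonneg_right (h1 a i c) (q0 i)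
    have := (div_le_iff₀' hg).1 (q1 i)
    rw [hμ]; linarith
  · have := mul_le_mul_of_nonneg_right (h2 a i i.2) (q0 i)
    have := mul_le_mul_of_nonneg_left (q2 i) c0
    rw [hμ, show n - i = n - (i + 1) + 1 by omega, pow_succ]
    have e : (1 + 2 * c / g) ^ (n - (i + 1)) * (1 + 2 * c / g) * H
        = (1 + 2 * c / g) ^ (n - (i + 1)) * H
          + c * (2 * ((1 + 2 * c / g) ^ (n - (i + 1)) * H / g)) := by ring
    linarith

end Pool.Agent.MP_5168f5_an.QA.Tan
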