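import Pool.Agent.MP_5168f5_an.H17F.Api

/-! Sparse heights: the blocks of digits of different classes are almost independent at most
points of a grid. -/

namespace Pool.Agent.MP_5168f5_an.QA.TanG

open H19 H17S H17F Finset

variable {κ : Type}

/-- Monotone, submodular and of bounded rate. -/
structure Sb (f : (κ → ℝ) → ℝ) (C : ℝ) : Prop where
  sub : ∀ x y m M : κ → ℝ, (∀ b, m b ≤ x b) → (∀ b, m b ≤ y b) → (∀ b, M b ≤ x b ∨ M b ≤ y b) →
    f M + f m ≤ f x + f y
  lip : ∀ (x y : κ → ℝ) (h : ℝ), 0 ≤ h → (∀ b, y b ≤ x b + h) → f y ≤ f x + C * (h + 1)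

theorem Sb.mono {f : (κ → ℝ) → ℝ} {C : ℝ} (h : Sb f C) {x y : κ → ℝ} (e : ∀ b, x b ≤ y b) :
    f x ≤ f y := by
  have := h.sub y y x y e e fun _ => .inl le_rfl
  linarith

theorem Sb.c0 {f : (κ → ℝ) → ℝ} {C : ℝ} (h : Sb f C) : 0 ≤ C := by
  have := h.lip 0 0 0 le_rfl fun _ => by simp
  linarith

open Classical in
/-- The point with the coordinates of `u'` on `S` and of `u` off `S`. -/
noncomputable def pw (S : κ → Prop) (u u' : κ → ℝ) : κ → ℝ := fun b => if S b then u' b else u b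

/-- The information across the cut `S` in the box between `u` and `u'`. -/
noncomputable def cut (f : (κ → ℝ) → ℝ) (S : κ → Prop) (u u' : κ → ℝ) : ℝ :=
  f (pw S u u') + f (pw S u' u) - f u' - f u

theorem Sb.cut_mono {f : (κ → ℝ) → ℝ} {C : ℝ} (h : Sb f C) (S : κ → Prop) {u w w' u' : κ → ℝ}
    (a : ∀ b, u b ≤ w b) (e : ∀ b, w b ≤ w' b) (k : ∀ b, w' b ≤ u' b) :
    cut f S w w' ≤ cut f S u u' := by
  have t : ∀ x y m M : κ → ℝ, (∀ b, u b ≤ w b → w b ≤ w' b → w' b ≤ u' b →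
      m b ≤ x b ∧ m b ≤ y b ∧ (M b ≤ x b ∨ M b ≤ y b)) → f M + f m ≤ f x + f y :=
    fun x y m M q => h.sub x y m M (fun b => (q b (a b) (e b) (k b)).1)
      (fun b => (q b (a b) (e b) (k b)).2.1) fun b => (q b (a b) (e b) (k b)).2.2
  have h1 := t (pw S w u') w' (pw S w w') (pw S w' u') fun b _ _ _ => by
    unfold pw; split_ifs <;> grind
  have h2 := t (pw S u' w) (pw S w' u') (pw S w' w) u' fun b _ _ _ => by
    unfold pw; split_ifs <;> grind
  have h3 := t (pw S u u') w (pw S u w) (pw S w u') fun b _ _ _ => by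
    unfold pw; split_ifs <;> grind
  have h4 := t (pw S u' u) (pw S u w) u (pw S u' w) fun b _ _ _ => by
    unfold pw; split_ifs <;> grind
  unfold cut
  linarith

open Classical in
/-- Three blocks. -/
noncomputable def t3 (ρ : κ → ℝ) (r : ℝ) (x y z : κ → ℝ) : κ → ℝ :=
  fun b => if ρ b < r then x b else if ρ b = r then y b else z b

/-- The entropy of the block of the class `r`. -/
noncomputable def blk (f : (κ → ℝ) → ℝ) (ρ : κ → ℝ) (r h : ℝ) (y : κ → ℝ) : ℝ :=
  f (t3 ρ r (fun b => y b - h) (fun b => y b + h) fun b => y b - h) - f fun b => y b - h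

theorem Sb.blk_mem {f : (κ → ℝ) → ℝ} {C : ℝ} (s : Sb f C) (ρ : κ → ℝ) (r : ℝ) {h : ℝ}
    (h1 : 1 ≤ h) (y : κ → ℝ) : 0 ≤ blk f ρ r h y ∧ blk f ρ r h y ≤ 3 * C * h := by
  have a := s.mono (x := fun b => y b - h)
    (y := t3 ρ r (fun b => y b - h) (fun b => y b + h) fun b => y b - h) fun b => by
      unfold t3; split_ifs <;> linarith
  have e := s.lip (fun b => y b - h)
    (t3 ρ r (fun b => y b - h) (fun b => y b + h) fun b => y b - h) (2 * h) (by linarith)
    fun b => by unfold t3; split_ifs <;> linarith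
  have := mul_le_mul_of_nonneg_left h1 s.c0
  unfold blk
  constructor <;> nlinarith

theorem Sb.step {f : (κ → ℝ) → ℝ} {C : ℝ} (s : Sb f C) (ρ : κ → ℝ) (r : ℝ) {h h' : ℝ}
    (h0 : 0 ≤ h) (y v : κ → ℝ) (lo : ∀ b, ρ b < r → v b ≤ 0) (mid : ∀ b, ρ b = r → 0 ≤ v b ∧ v b ≤ 1)
    (hi : ∀ b, r < ρ b → 2 * h ≤ v b) (ab : ∀ b, h + |v b| ≤ h') :
    cut f (fun b => ρ b ≤ r) (fun b => y b - h) (fun b => y b + h) ≤
      blk f ρ r h y - blk f ρ r h (fun b => y b + v b) + 2 * C +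
        2 * cut f (fun b => ρ b < r) (fun b => y b - h') fun b => y b + h' := by
  set m : κ → ℝ := fun b => y b - h with hm
  set p : κ → ℝ := fun b => y b + h with hp
  set q : κ → ℝ := fun b => y b + v b - h with hq
  have tr : ∀ b, (ρ b < r ∧ v b ≤ 0) ∨ (ρ b = r ∧ 0 ≤ v b ∧ v b ≤ 1) ∨ (r < ρ b ∧ 2 * h ≤ v b) :=
    fun b => (lt_trichotomy (ρ b) r).imp (fun a => ⟨a, lo b a⟩)
      (.imp (fun a => ⟨a, mid b a⟩) fun a => ⟨a, hi b a⟩)
  have ab' : ∀ b, h + v b ≤ h' ∧ h - v b ≤ h' := fun b => by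
    have := ab b; have := le_abs_self (v b); have := neg_abs_le (v b); constructor <;> linarith
  have t : ∀ x z n M : κ → ℝ, (∀ b, n b ≤ x b ∧ n b ≤ z b ∧ (M b ≤ x b ∨ M b ≤ z b)) →
      f M + f n ≤ f x + f z := fun x z n M q =>
    s.sub x z n M (fun b => (q b).1) (fun b => (q b).2.1) fun b => (q b).2.2
  have e1 : pw (fun b => ρ b ≤ r) m p = t3 ρ r p p m := by
    funext b; have := tr b; unfold pw t3; split_ifs <;> grind
  have e2 : pw (fun b => ρ b ≤ r) p m = t3 ρ r m m p := by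
    funext b; have := tr b; unfold pw t3; split_ifs <;> grind
  have e3 : pw (fun b => ρ b < r) m p = t3 ρ r p m m := by
    funext b; unfold pw t3; split_ifs <;> rfl
  have e4 : pw (fun b => ρ b < r) p m = t3 ρ r m p p := by
    funext b; unfold pw t3; split_ifs <;> rfl
  have e5 : pw (fun b => ρ b < r) (t3 ρ r q m q) (t3 ρ r m p q) = t3 ρ r m m q := by
    funext b; unfold pw t3; split_ifs <;> rfl
  have e6 : pw (fun b => ρ b < r) (t3 ρ r m p q) (t3 ρ r q m q) = t3 ρ r q p q := by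
    funext b; unfold pw t3; split_ifs <;> rfl
  have a1 := t (t3 ρ r p m m) (t3 ρ r m p m) m (t3 ρ r p p m) fun b => by
    unfold t3; split_ifs <;> simp only [hm, hp] <;> grind
  have a2 := t (t3 ρ r m p p) (t3 ρ r m m q) (t3 ρ r m m p) (t3 ρ r m p q) fun b => by
    have := tr b; unfold t3; split_ifs <;> simp only [hm, hp, hq] <;> grind
  have a3 := s.cut_mono (fun b => ρ b < r) (u := fun b => y b - h') (w := t3 ρ r q m q)
    (w' := t3 ρ r m p q) (u' := fun b => y b + h')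
    (fun b => by
      have := tr b; have := ab' b; unfold t3; split_ifs <;> simp only [hm, hq] <;> grind)
    (fun b => by have := tr b; unfold t3; split_ifs <;> simp only [hm, hp, hq] <;> grind)
    fun b => by
      have := tr b; have := ab' b; unfold t3; split_ifs <;> simp only [hm, hp, hq] <;> grind
  have a4 := s.cut_mono (fun b => ρ b < r) (u := fun b => y b - h') (w := m) (w' := p)
    (u' := fun b => y b + h') (fun b => by have := ab' b; simp only [hm]; grind)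
    (fun b => by simp only [hm, hp]; grind) fun b => by have := ab' b; simp only [hp]; grind
  have a5 := s.lip (t3 ρ r q p q) (t3 ρ r q (fun b => y b + v b + h) q) 1 zero_le_one fun b => by
    have := tr b; unfold t3; split_ifs <;> grind
  have a6 := s.mono (x := t3 ρ r q m q) (y := q) fun b => by
    have := tr b; unfold t3; split_ifs <;> grind
  unfold cut at a3 a4 ⊢
  unfold blk
  rw [e5, e6] at a3
  rw [e3, e4] at a4
  rw [e1, e2]
  linarith

theorem tel_nat {φ : ℤ → ℝ} {B : ℝ} (h : ∀ i, 0 ≤ φ i ∧ φ i ≤ B) (n k : ℕ) :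
    ∑ i ∈ range n, (φ i - φ (i + k)) ≤ B * k := by
  have a := sum_range_add (fun i : ℕ => φ i) n k
  have b := sum_range_add (fun i : ℕ => φ i) k n
  have c : ∑ i ∈ range k, φ i ≤ ∑ _i ∈ range k, B := sum_le_sum fun i _ => (h i).2
  have d : 0 ≤ ∑ i ∈ range k, φ ((n + i : ℕ) : ℤ) := sum_nonneg fun i _ => (h _).1
  have e : ∑ i ∈ range n, φ ((k + i : ℕ) : ℤ) = ∑ i ∈ range n, φ (i + k) :=
    sum_congr rfl fun i _ => by rw [Nat.cast_add, add_comm]
  rw [add_comm k n] at b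
  rw [sum_const, card_range, nsmul_eq_mul] at c
  rw [sum_sub_distrib]
  linarith

theorem tel {φ : ℤ → ℝ} {B : ℝ} (h : ∀ i, 0 ≤ φ i ∧ φ i ≤ B) (n : ℕ) (k : ℤ) :
    ∑ i ∈ range n, (φ i - φ (i + k)) ≤ B * |(k : ℝ)| := by
  obtain ⟨m, rfl | rfl⟩ := k.eq_nat_or_neg
  · simpa using tel_nat h n m
  · have := tel_nat (φ := fun i => B - φ (i - m)) (B := B)
      (fun i => by have := h (i - m); constructor <;> linarith) n m
    simp only [add_sub_cancel_right, sub_sub_sub_cancel_left] at this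
    simpa [sub_eq_add_neg] using this

/-- The points of the grid. -/
def pt (o ρ : κ → ℝ) (l d : ℤ) : κ → ℝ := fun b => o b + ρ b * l + d

theorem ind (ρ : κ → ℝ) [Fintype κ] {g R : ℝ} (g0 : 0 < g) (g1 : g ≤ 1) (R1 : 1 ≤ R)
    (gap : ∀ a b, ρ a < ρ b → ρ a + g ≤ ρ b) (bd : ∀ a, |ρ a| ≤ R) (m : ℕ) :
    ∃ c : ℝ, 0 ≤ c ∧ ∀ (f : (κ → ℝ) → ℝ) (C : ℝ), Sb f C → ∀ (o : κ → ℝ) (r h : ℝ) (L D : ℕ),
      1 ≤ h → (univ.filter fun b => ρ b < r).card ≤ m →
      ∑ l ∈ range L, ∑ d ∈ range D, cut f (fun b => ρ b < r) (fun b => pt o ρ l d b - h)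
        (fun b => pt o ρ l d b + h) ≤ c * C * (h ^ 2 * (L + D) + L * D) := by
  induction m with
  | zero =>
    refine ⟨0, le_rfl, fun f C s o r h L D _ hc => le_of_eq ?_⟩
    have e : ∀ b, ¬ρ b < r := fun b hb => by
      have := card_pos.2 ⟨b, (mem_filter.2 ⟨mem_univ b, hb⟩ : b ∈ univ.filter fun b => ρ b < r)⟩
      omega
    have z : ∀ u u' : κ → ℝ, cut f (fun b => ρ b < r) u u' = 0 := fun u u' => by
      have : ∀ x y : κ → ℝ, pw (fun b => ρ b < r) x y = x := fun x y =>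
        funext fun b => if_neg (e b)
      unfold cut
      rw [this, this]
      ring
    simp [z]
  | succ m ih =>
    obtain ⟨c, c0, ih⟩ := ih
    obtain ⟨t, ht⟩ : ∃ t : ℝ, t = R / g := ⟨_, rfl⟩
    have t1 : 1 ≤ t := by rw [ht, le_div_iff₀ g0]; linarith
    refine ⟨3 * (2 + 8 * t) + 2 + 2 * c * (2 + 8 * t) ^ 2, by positivity,
      fun f C s o r h L D h1 hc => ?_⟩
    have C0 := s.c0
    have pos : 0 ≤ h ^ 2 * ((L : ℝ) + D) := by positivity
    have pos' : 0 ≤ (L : ℝ) * D := by positivity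
    have q1 : 1 ≤ (2 + 8 * t) ^ 2 := one_le_pow₀ (by linarith)
    rcases (univ.filter fun b => ρ b < r).eq_empty_or_nonempty with e | e
    · refine (ih f C s o r h L D h1 (by simp [e])).trans ?_
      gcongr
      nlinarith
    obtain ⟨b₀, hb, mx⟩ := exists_max_image _ ρ e
    have hb' := (mem_filter.1 hb).2
    have eS : (fun b => ρ b < r) = fun b => ρ b ≤ ρ b₀ := funext fun b => propext
      ⟨fun u => mx b (mem_filter.2 ⟨mem_univ b, u⟩), fun u => u.trans_lt hb'⟩
    have cd : (univ.filter fun b => ρ b < ρ b₀).card ≤ m := by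
      have : (univ.filter fun b => ρ b < ρ b₀) ⊂ univ.filter fun b => ρ b < r :=
        (ssubset_iff_of_subset fun b u => mem_filter.2 ⟨mem_univ b,
          (mem_filter.1 u).2.trans hb'⟩).2 ⟨b₀, hb, by simp⟩
      have := card_lt_card this
      omega
    obtain ⟨a, a1, a2⟩ : ∃ a : ℕ, 3 * h ≤ g * a ∧ R * a ≤ 4 * t * h := by
      refine ⟨⌈3 * h / g⌉₊, ?_, ?_⟩
      · rw [← div_le_iff₀' g0]; exact Nat.le_ceil _
      · have u := (Nat.ceil_lt_add_one (show 0 ≤ 3 * h / g by positivity)).le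
        have w : 1 ≤ h / g := by rw [le_div_iff₀ g0]; linarith
        have z : 4 * t * h = R * (4 * (h / g)) := by rw [ht]; ring
        rw [z, mul_div_assoc] at *
        exact mul_le_mul_of_nonneg_left (by linarith) (by linarith)
    have a0 : (0 : ℝ) ≤ a := Nat.cast_nonneg a
    have f1 := Int.floor_le (ρ b₀ * a)
    have f2 := Int.lt_floor_add_one (ρ b₀ * a)
    obtain ⟨k, hk⟩ : ∃ k : ℤ, k = ⌊ρ b₀ * a⌋ := ⟨_, rfl⟩
    rw [← hk] at f1 f2
    have bd' : ∀ b, -(R * a) ≤ ρ b * a ∧ ρ b * a ≤ R * a := fun b => by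
      have := abs_le.1 (bd b); constructor <;> nlinarith
    have th : t ≤ t * h := le_mul_of_one_le_right (by linarith) h1
    have st : ∀ l d : ℤ, cut f (fun b => ρ b ≤ ρ b₀) (fun b => pt o ρ l d b - h)
        (fun b => pt o ρ l d b + h) ≤ (blk f ρ (ρ b₀) h (pt o ρ l d) -
          blk f ρ (ρ b₀) h (pt o ρ (l + a) d)) + (blk f ρ (ρ b₀) h (pt o ρ (l + a) d) -
          blk f ρ (ρ b₀) h (pt o ρ (l + a) (d + -k))) + 2 * C + 2 * cut f (fun b => ρ b < ρ b₀)
          (fun b => pt o ρ l d b - (2 + 8 * t) * h) fun b => pt o ρ l d b + (2 + 8 * t) * h := by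
      intro l d
      have := s.step ρ (ρ b₀) (h := h) (h' := (2 + 8 * t) * h) (by linarith) (pt o ρ l d)
        (fun b => ρ b * a - k) (fun b u => by have := gap _ _ u; nlinarith)
        (fun b u => by rw [u]; constructor <;> linarith)
        (fun b u => by have := gap _ _ u; nlinarith) fun b => by
          have := bd' b; have := bd' b₀
          have : |ρ b * a - k| ≤ 8 * t * h + 1 := abs_le.2 ⟨by linarith, by linarith⟩
          linarith
      have e : (fun b => pt o ρ l d b + (ρ b * a - k)) = pt o ρ (l + a) (d + -k) := by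
        funext b; simp only [pt]; push_cast; ring
      rw [e] at this
      linarith
    have i := ih f C s o (ρ b₀) ((2 + 8 * t) * h) L D (by nlinarith) cd
    have B := fun y => s.blk_mem ρ (ρ b₀) h1 y
    have B0 : 0 ≤ 3 * C * h := by positivity
    have t1' : ∑ l ∈ range L, ∑ d ∈ range D, (blk f ρ (ρ b₀) h (pt o ρ l d) -
        blk f ρ (ρ b₀) h (pt o ρ (l + a) d)) ≤ D * (3 * C * h * ((2 + 8 * t) * h)) := by
      rw [sum_comm]
      refine (sum_le_card_nsmul _ _ _ fun d _ => ?_).trans_eq (by rw [card_range, nsmul_eq_mul])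
      refine (tel_nat (φ := fun l => blk f ρ (ρ b₀) h (pt o ρ l d)) (fun _ => B _) L a).trans ?_
      exact mul_le_mul_of_nonneg_left (by nlinarith) B0
    have t2' : ∑ l ∈ range L, ∑ d ∈ range D, (blk f ρ (ρ b₀) h (pt o ρ (l + a) d) -
        blk f ρ (ρ b₀) h (pt o ρ (l + a) (d + -k))) ≤ L * (3 * C * h * ((2 + 8 * t) * h)) := by
      refine (sum_le_card_nsmul _ _ _ fun l _ => ?_).trans_eq (by rw [card_range, nsmul_eq_mul])
      refine (tel (φ := fun d => blk f ρ (ρ b₀) h (pt o ρ (l + a) d)) (fun _ => B _) D _).trans ?_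
      refine mul_le_mul_of_nonneg_left ?_ B0
      have := bd' b₀
      push_cast
      exact abs_le.2 ⟨by linarith, by linarith⟩
    rw [eS]
    refine (sum_le_sum fun (l : ℕ) _ => sum_le_sum fun (d : ℕ) _ => st l d).trans ?_
    simp only [sum_add_distrib, ← mul_sum, sum_const, card_range, nsmul_eq_mul]
    have u1 := mul_nonneg C0 pos
    have u2 := mul_nonneg C0 pos'
    have u3 := mul_nonneg c0 u2
    have u4 : 0 ≤ t * (C * ((L : ℝ) * D)) := mul_nonneg (by linarith) u2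
    nlinarith

/-- The information across a cut is small on average over the grid. -/
theorem grid (ρ : κ → ℝ) [Fintype κ] : ∃ c : ℝ, 0 ≤ c ∧ ∀ (f : (κ → ℝ) → ℝ) (C : ℝ), Sb f C →
    ∀ (o : κ → ℝ) (r h : ℝ) (L D : ℕ), 1 ≤ h →
      ∑ l ∈ range L, ∑ d ∈ range D, cut f (fun b => ρ b < r) (fun b => pt o ρ l d b - h)
        (fun b => pt o ρ l d b + h) ≤ c * C * (h ^ 2 * (L + D) + L * D) := by
  have e1 : ∀ᶠ g in nhdsWithin (0 : ℝ) (Set.Ioi 0), ∀ a b, ρ a < ρ b → ρ a + g ≤ ρ b := by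
    refine Filter.eventually_all.2 fun a => Filter.eventually_all.2 fun b => ?_
    by_cases u : ρ a < ρ b
    · filter_upwards [Ioo_mem_nhdsGT (sub_pos.2 u)] with g hg _
      linarith [hg.2]
    · exact .of_forall fun _ w => absurd w u
  obtain ⟨g, a, b⟩ := (e1.and (Ioo_mem_nhdsGT (zero_lt_one' ℝ))).exists
  obtain ⟨c, c0, h⟩ := ind ρ b.1 b.2.le (R := 1 + ∑ a, |ρ a|)
    (le_add_of_nonneg_right (sum_nonneg fun _ _ => abs_nonneg _)) a (fun a => by
      have := single_le_sum (f := fun a => |ρ a|) (fun _ _ => abs_nonneg _) (mem_univ a)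
      linarith) (Fintype.card κ)
  exact ⟨c, c0, fun f C s o r k L D k1 => h f C s o r k L D k1 (card_le_univ _)⟩

variable {Ω Λ : Type} {P : FP Ω} {F : (κ → ℝ) → Ω → Λ} {C : ℝ}

/-- Cells indexed by a vector of depths: nested, joined coordinatewise, of bounded rate. -/
structure Cel (P : FP Ω) (F : (κ → ℝ) → Ω → Λ) (C : ℝ) : Prop where
  mono : ∀ x y : κ → ℝ, (∀ b, x b ≤ y b) → Fn P (F x) (F y)
  join : ∀ x y M : κ → ℝ, (∀ b, M b ≤ x b ∨ M b ≤ y b) → Fn P (F M) fun ω => (F x ω, F y ω)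
  rate : ∀ (x : κ → ℝ) (h : ℝ), 0 ≤ h → ch P (F fun b => x b + h) (F x) ≤ C * (h + 1)

theorem Cel.ch_eq (c : Cel P F C) {x y : κ → ℝ} (e : ∀ b, x b ≤ y b) :
    ch P (F y) (F x) = hh P (F y) - hh P (F x) := by
  unfold ch
  rw [hh_congr ((Fn.rfl _).pair (c.mono x y e)) (Fn.fst _ _)]

theorem Cel.sb (c : Cel P F C) : Sb (fun y => hh P (F y)) C where
  sub x y m M a b e := by
    have h1 := hh_submod (c.mono m x a) (c.mono m y b)
    have h2 := hh_mono (c.join x y M e)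
    linarith
  lip x y h h0 e := by
    have h1 := c.rate x h h0
    have h2 := hh_mono (c.mono y _ e)
    rw [c.ch_eq fun b => by linarith] at h1
    linarith

theorem Cel.mi_eq (c : Cel P F C) (S : κ → Prop) {u u' : κ → ℝ} (e : ∀ b, u b ≤ u' b) :
    mi P (F (pw S u u')) (F (pw S u' u)) (F u) = cut (fun y => hh P (F y)) S u u' := by
  have a : ∀ b, u b ≤ pw S u u' b ∧ u b ≤ pw S u' u b ∧ pw S u u' b ≤ u' b ∧ pw S u' u b ≤ u' b ∧
      (u' b ≤ pw S u u' b ∨ u' b ≤ pw S u' u b) := fun b => by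
    have := e b; unfold pw; split_ifs <;> grind
  have h1 : ch P (F (pw S u u')) (fun ω => (F (pw S u' u) ω, F u ω)) =
      ch P (F u') (F (pw S u' u)) :=
    ch_congr ((c.mono _ _ fun b => (a b).2.2.1).left _) (c.join _ _ _ fun b => (a b).2.2.2.2)
      ((Fn.rfl _).pair (c.mono _ _ fun b => (a b).2.1)) (Fn.fst _ _)
  unfold mi cut
  rw [h1, c.ch_eq fun b => (a b).1, c.ch_eq fun b => (a b).2.2.2.1]
  ring

/-- The lower classes and the upper classes are almost independent at most points. -/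
theorem tan (ρ : κ → ℝ) [Fintype κ] : ∃ c : ℝ, 0 ≤ c ∧ ∀ (Ω Λ : Type) (P : FP Ω)
    (F : (κ → ℝ) → Ω → Λ) (C : ℝ), Cel P F C → ∀ (o : κ → ℝ) (r h : ℝ) (L D : ℕ), 1 ≤ h →
      ∑ l ∈ range L, ∑ d ∈ range D,
        mi P (F (pw (fun b => ρ b < r) (fun b => pt o ρ l d b - h) fun b => pt o ρ l d b + h))
          (F (pw (fun b => ρ b < r) (fun b => pt o ρ l d b + h) fun b => pt o ρ l d b - h))
          (F fun b => pt o ρ l d b - h) ≤ c * C * (h ^ 2 * (L + D) + L * D) := by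
  obtain ⟨c, c0, g⟩ := grid ρ
  refine ⟨c, c0, fun Ω Λ P F C s o r h L D h1 => le_trans (le_of_eq ?_) (g _ C s.sb o r h L D h1)⟩
  exact sum_congr rfl fun l _ => sum_congr rfl fun d _ => s.mi_eq _ fun b => by linarith

end Pool.Agent.MP_5168f5_an.QA.TanG
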