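import Pool.Agent.MP_5168f5_an.H17F.Sq2

/-! Sparse heights: blocks of digits of different classes are independent at most locations. -/

namespace Pool.Agent.MP_5168f5_an.QA.Tan

open H19 H17S H17F Finset

variable {κ : Type}

open Classical in
/-- The depths `s`, increased by `d` on the coordinates in `A`. -/
noncomputable def up (A : κ → Prop) (d : ℝ) (s : κ → ℝ) : κ → ℝ :=
  fun a => if A a then s a + d else s a

/-- A submodular function of the depths. -/
def Sub (h : (κ → ℝ) → ℝ) : Prop := ∀ a b s, s ≤ a → s ≤ b → h (a ⊔ b) + h s ≤ h a + h b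

/-- The information between the depths `a` and `b` given the depth `s`. -/
def I3 (h : (κ → ℝ) → ℝ) (a b s : κ → ℝ) : ℝ := h a + h b - h s - h (a ⊔ b)

/-- The offsets. -/
def off {n : ℕ} (T : Fin n → ℕ) : Finset (Fin n → ℕ) := Fintype.piFinset fun i => range (T i)

/-- The location with offset `t`. -/
def loc {n : ℕ} (s : κ → ℝ) (v : Fin n → κ → ℝ) (t : Fin n → ℕ) : κ → ℝ :=
  s + ∑ i, (t i : ℝ) • v i

section real

variable {h : (κ → ℝ) → ℝ} {a a' b b' s s' : κ → ℝ} {A B : κ → Prop} {d d' : ℝ}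

theorem le_up (hd : 0 ≤ d) (A : κ → Prop) (s : κ → ℝ) : s ≤ up A d s := fun a => by
  unfold up; split_ifs <;> linarith

theorem up_le (hd : 0 ≤ d) (e : d ≤ d') (k : ∀ a, A a → B a) (s : κ → ℝ) :
    up A d s ≤ up B d' s := fun a => by
  unfold up
  split_ifs with h1 h2
  exacts [by linarith, absurd (k a h1) h2, by linarith, le_rfl]

theorem up_sup (hd : 0 ≤ d) (A B : κ → Prop) (s : κ → ℝ) :
    up A d s ⊔ up B d s = up (fun a => A a ∨ B a) d s := funext fun a => by
  by_cases h1 : A a <;> by_cases h2 : B a <;> simp [up, h1, h2, hd]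

theorem up_congr (k : ∀ a, A a ↔ B a) (d : ℝ) (s : κ → ℝ) : up A d s = up B d s := by
  rw [funext fun a => propext (k a)]

theorem up_false (k : ∀ a, ¬A a) (d : ℝ) (s : κ → ℝ) : up A d s = s :=
  funext fun a => if_neg (k a)

theorem Sub.mono (H : Sub h) (e : s ≤ a) : h s ≤ h a := by
  have := H a a s e e
  rw [sup_idem] at this; linarith

theorem Sub.le (H : Sub h) {c : κ → ℝ} (e : s ≤ a) (e' : s ≤ b) (k : c ≤ a ⊔ b) :
    h c + h s ≤ h a + h b := by linarith [H a b s e e', H.mono k]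

theorem I3_symm (h : (κ → ℝ) → ℝ) (a b s : κ → ℝ) : I3 h a b s = I3 h b a s := by
  unfold I3; rw [sup_comm]; ring

theorem Sub.nonneg (H : Sub h) (e : s ≤ a) (e' : s ≤ b) : 0 ≤ I3 h a b s := by
  have := H a b s e e'
  unfold I3; linarith

theorem Sub.left (H : Sub h) (e : a ≤ a') (b s : κ → ℝ) : I3 h a b s ≤ I3 h a' b s := by
  have := H.le (c := a' ⊔ b) e (le_sup_left (b := b)) (sup_le_sup_left le_sup_right _)
  unfold I3; linarith

theorem Sub.both (H : Sub h) (e : a ≤ a') (e' : b ≤ b') (s : κ → ℝ) :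
    I3 h a b s ≤ I3 h a' b' s :=
  (H.left e b s).trans (by rw [I3_symm, I3_symm h a']; exact H.left e' a' s)

/-- A deeper condition which is read from the first variable. -/
theorem Sub.cond (H : Sub h) (e : s ≤ s') (e' : s' ≤ a) (k : s ≤ b) :
    I3 h a (b ⊔ s') s' ≤ I3 h a b s := by
  have := H b s' s k e
  unfold I3
  rw [← sup_assoc, sup_right_comm, sup_eq_left.2 e']
  linarith

/-- Smaller windows inside the window of width `d` above `s`. -/
theorem Sub.win (H : Sub h) (hd : 0 ≤ d) (e : s ≤ s') (ha : s' ≤ a) (hb : s' ≤ b)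
    (ka : ∀ x, (A x → a x ≤ s x + d) ∧ (¬A x → a x = s' x))
    (kb : ∀ x, (A x → b x = s' x) ∧ (¬A x → b x ≤ s x + d)) :
    I3 h a b s' ≤ I3 h (up A d s) (up (fun x => ¬A x) d s) s := by
  classical
  obtain ⟨m, hm⟩ : ∃ m : κ → ℝ, m = fun x => if A x then s' x else s x := ⟨_, rfl⟩
  have m1 : s ≤ m := fun x => by by_cases c : A x <;> simp [hm, c, e x]
  have m2 : m ≤ s' := fun x => by by_cases c : A x <;> simp [hm, c, e x]
  have m3 : m ≤ up A d s := fun x => by
    by_cases c : A x
    · simpa [hm, up, c] using (ha x).trans ((ka x).1 c)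
    · simp [hm, up, c]
  have h1 := H.cond m1 m3 (le_up hd (fun x => ¬A x) s)
  have h2 := H.cond (a := up (fun x => ¬A x) d s ⊔ m) m2 (fun x => by
    by_cases c : A x
    · exact le_sup_of_le_right (by simp [hm, c])
    · exact le_sup_of_le_left (by simpa [up, c] using (hb x).trans ((kb x).2 c))) m3
  rw [I3_symm, I3_symm h _ _ m] at h2
  refine le_trans (H.both (fun x => ?_) (fun x => ?_) s') (h2.trans h1)
  · by_cases c : A x
    · exact le_sup_of_le_left (by simpa [up, c] using (ka x).1 c)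
    · exact le_sup_of_le_right ((ka x).2 c).le
  · by_cases c : A x
    · exact le_sup_of_le_right (by simp [hm, c, (kb x).1 c])
    · exact le_sup_of_le_left (by simpa [up, c] using (kb x).2 c)

variable (h) (r : κ → ℕ)

/-- The information between the classes below `i` and the others. -/
noncomputable def Jc (i : ℕ) (d : ℝ) (s : κ → ℝ) : ℝ :=
  I3 h (up (fun a => r a < i) d s) (up (fun a => ¬r a < i) d s) s

variable {h r}

theorem Jc_zero (hd : 0 ≤ d) (s : κ → ℝ) : Jc h r 0 d s = 0 := by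
  rw [Jc, up_false (by simp), I3, sup_eq_right.2 (le_up hd _ _)]; ring

theorem Sub.Jc_mono (H : Sub h) (hd : 0 ≤ d) (e : d ≤ d') (i : ℕ) (s : κ → ℝ) :
    Jc h r i d s ≤ Jc h r i d' s :=
  H.both (up_le hd e (fun _ => id) s) (up_le hd e (fun _ => id) s) s

/-- One class. -/
theorem Sub.step (H : Sub h) {i T : ℕ} {v : κ → ℝ} {e : ℝ} (hd : 0 ≤ d') (e' : d' ≤ d)
    (v0 : ∀ a, r a = i → v a = 0) (v1 : ∀ a, i < r a → d' ≤ v a)
    (v2 : ∀ a, r a < i → 2 * T * |v a| + d' ≤ d)
    (he : ∀ s, h (up (fun a => r a = i) d' s) - h s ≤ e) (s : κ → ℝ) :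
    ∑ k ∈ range T, Jc h r (i + 1) d' (s + (k : ℝ) • v)
      ≤ ∑ k ∈ range T, Jc h r i d (s + (k : ℝ) • v) + e := by
  obtain ⟨f, hf⟩ : ∃ f : ℕ → κ → ℝ, f = fun (k : ℕ) a =>
    if r a < i then s a + T * |v a| + d' else s a + k * v a := ⟨_, rfl⟩
  obtain ⟨D, hD⟩ : ∃ D : (κ → ℝ) → ℝ, D = fun x => h (up (fun a => r a = i) d' x) - h x := ⟨_, rfl⟩
  have anti : ∀ x y, x ≤ y → (∀ a, r a = i → x a = y a) → D y ≤ D x := fun x y xy k => by
    have := H.le (c := up (fun a => r a = i) d' y) (le_up hd (fun a => r a = i) x) xy fun a => by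
      by_cases c : r a = i
      · exact le_sup_of_le_left (by simp [up, c, k a c])
      · exact le_sup_of_le_right (by simp [up, c])
    simp only [hD]; linarith
  have one : ∀ k ∈ range T, Jc h r (i + 1) d' (s + (k : ℝ) • v)
      ≤ Jc h r i d (s + (k : ℝ) • v) + (D (f k) - D (f (k + 1))) := fun k hk => by
    have kT : (k : ℝ) ≤ T := by exact_mod_cast (mem_range.1 hk).le
    have kv : ∀ a, |(k : ℝ) * v a| ≤ T * |v a| := fun a => by
      rw [abs_mul, Nat.abs_cast]; exact mul_le_mul_of_nonneg_right kT (abs_nonneg _)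
    obtain ⟨x, hx⟩ : ∃ x, x = s + (k : ℝ) • v := ⟨_, rfl⟩
    have xa : ∀ a, x a = s a + k * v a := fun a => by rw [hx]; rfl
    rw [← hx]
    obtain ⟨g, hg⟩ : ∃ g, g = up (fun a => ¬r a < i + 1) d' x := ⟨_, rfl⟩
    have h1 : Jc h r (i + 1) d' x ≤ I3 h (up (fun a => r a = i) d' (f k)) g x := by
      rw [hg]
      refine H.left (fun a => ?_) _ _
      have := abs_le.1 (kv a)
      rcases lt_trichotomy (r a) i with c | c | c
      · simp only [up, hf, xa, c, c.ne, Nat.lt_succ_of_lt c, if_true, if_false]; linarith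
      · simp [up, hf, xa, c]
      · simp [up, hf, xa, c.ne', c.le.not_gt, Nat.lt_succ_iff.not.2 c.not_ge]
    have h2 : I3 h (f k) g x ≤ Jc h r i d x := by
      refine H.both (fun a => ?_) (hg ▸ up_le hd e' (fun a => by omega) x) x
      have := abs_le.1 (kv a)
      by_cases c : r a < i
      · have := v2 a c
        simp only [up, hf, xa, c, if_true]; linarith
      · simp [up, hf, xa, c]
    have q : ∀ a, r a = i → g a = f k a := fun a c => by simp [hg, up, hf, xa, c]
    have h3 : D (f (k + 1)) ≤ D (f k ⊔ g) := by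
      refine anti _ _ (fun a => ?_) fun a c => ?_
      · have := abs_le.1 (kv a)
        rcases lt_trichotomy (r a) i with c | c | c
        · simp only [Pi.sup_apply, hg, up, hf, xa, c, Nat.lt_succ_of_lt c, if_true, not_true,
            if_false, max_le_iff]
          exact ⟨le_rfl, by linarith⟩
        · simp [q a c, hf, c, v0 a c]
        · have := v1 a c
          simp only [Pi.sup_apply, hg, up, hf, xa, c.le.not_gt, Nat.lt_succ_iff.not.2 c.not_ge,
            if_false, not_false_iff, if_true, max_le_iff]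
          push_cast
          constructor <;> linarith
      · simp [q a c, hf, c, v0 a c]
    have h4 : up (fun a => r a = i) d' (f k ⊔ g) = up (fun a => r a = i) d' (f k) ⊔ g :=
      funext fun a => by
        by_cases c : r a = i
        · simp [up, c, q a c, hd]
        · simp [up, c]
    simp only [hD, h4, I3] at h1 h2 h3 ⊢
    linarith
  have last : 0 ≤ D (f T) := by rw [hD]; exact sub_nonneg.2 (H.mono (le_up hd _ _))
  have := sum_le_sum one
  rw [sum_add_distrib, sum_range_sub' fun k => D (f k)] at this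
  have := he (f 0)
  simp only [hD] at *
  linarith

variable {n : ℕ} {T : Fin n → ℕ}

theorem sum_upd (i : Fin n) (F : (Fin n → ℕ) → ℝ) :
    T i * ∑ t ∈ off T, F t = ∑ t ∈ off T, ∑ k ∈ range (T i), F (Function.update t i k) := by
  have : T i * ∑ t ∈ off T, F t = ∑ t ∈ off T, ∑ _k ∈ range (T i), F t := by simp [mul_sum]
  rw [this, ← sum_product', ← sum_product']
  have m : ∀ p ∈ off T ×ˢ range (T i), (Function.update p.1 i p.2, p.1 i) ∈ off T ×ˢ range (T i) :=
    fun p hp => by
      obtain ⟨h1, h2⟩ := mem_product.1 hp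
      refine mem_product.2 ⟨Fintype.mem_piFinset.2 fun j => ?_, Fintype.mem_piFinset.1 h1 i⟩
      by_cases c : j = i
      · subst c; simpa using h2
      · simpa [c] using Fintype.mem_piFinset.1 h1 j
  exact sum_nbij' (fun p => (Function.update p.1 i p.2, p.1 i))
    (fun p => (Function.update p.1 i p.2, p.1 i)) m m (fun p _ => by simp) (fun p _ => by simp)
    fun p _ => by simp

theorem loc_upd (s : κ → ℝ) (v : Fin n → κ → ℝ) (t : Fin n → ℕ) (i : Fin n) (k : ℕ) :
    loc s v (Function.update t i k) = loc s v (Function.update t i 0) + (k : ℝ) • v i := by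
  have : ∀ k : ℕ, ∑ j, ((Function.update t i k j : ℕ) : ℝ) • v j
      = (k : ℝ) • v i + ∑ j ∈ univ.erase i, (t j : ℝ) • v j := fun k => by
    rw [← add_sum_erase _ _ (mem_univ i), Function.update_self]
    exact congrArg _ (sum_congr rfl fun j hj => by rw [Function.update_of_ne (ne_of_mem_erase hj)])
  simp only [loc, this, Nat.cast_zero, zero_smul, zero_add]
  abel

theorem off_ne (hT : ∀ i, 0 < T i) : (off T).Nonempty :=
  ⟨fun _ => 0, Fintype.mem_piFinset.2 fun i => mem_range.2 (hT i)⟩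

/-- The tower of widths `d`, directions `v` and numbers of steps `T`. -/
structure Tw (r : κ → ℕ) (d : ℕ → ℝ) (v : Fin n → κ → ℝ) (T : Fin n → ℕ) : Prop where
  T0 : ∀ i, 0 < T i
  d0 : ∀ i, 0 ≤ d i
  an : ∀ i, d (i + 1) ≤ d i
  v0 : ∀ (i : Fin n) a, r a = i → v i a = 0
  v1 : ∀ (i : Fin n) a, i < r a → d (i + 1) ≤ v i a
  v2 : ∀ (i : Fin n) a, r a < i → 2 * T i * |v i a| + d (i + 1) ≤ d i

variable {d : ℕ → ℝ} {v : Fin n → κ → ℝ} {e : Fin n → ℝ}

theorem Sub.avg_Jc (H : Sub h) (W : Tw r d v T)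
    (he : ∀ (i : Fin n) s, h (up (fun a => r a = i) (d (i + 1)) s) - h s ≤ e i) (s : κ → ℝ) :
    ∀ i ≤ n, avg (off T) (fun t => Jc h r i (d i) (loc s v t))
      ≤ ∑ j : Fin n with j.1 < i, e j / T j := by
  intro i hi
  have c0 : (0 : ℝ) < (off T).card := by exact_mod_cast (off_ne W.T0).card_pos
  induction i with
  | zero => simp [avg, Jc_zero (W.d0 0)]
  | succ i ih =>
    have ih := ih (by omega)
    obtain ⟨j, rfl⟩ : ∃ j : Fin n, j.1 = i := ⟨⟨i, hi⟩, rfl⟩
    have T0 : (0 : ℝ) < T j := by exact_mod_cast W.T0 j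
    have : (univ.filter fun k : Fin n => k.1 < j.1 + 1) = insert j (univ.filter fun k => k.1 < j.1) := by
      ext k; simp [Fin.ext_iff]; omega
    rw [this, sum_insert (by simp)]
    have k := sum_le_sum fun t (_ : t ∈ off T) => H.step (T := T j) (W.d0 _) (W.an _) (W.v0 j)
      (W.v1 j) (W.v2 j) (he j) (loc s v (Function.update t j 0))
    simp only [← loc_upd] at k
    rw [sum_add_distrib, ← sum_upd j fun t => Jc h r (j + 1) (d (j + 1)) (loc s v t),
      ← sum_upd j fun t => Jc h r j (d j) (loc s v t), sum_const, nsmul_eq_mul] at k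
    unfold avg at ih ⊢
    rw [div_le_iff₀ c0] at ih ⊢
    refine le_of_mul_le_mul_left (k.trans ?_) T0
    have := mul_le_mul_of_nonneg_left ih T0.le
    rw [add_mul, mul_add, ← mul_assoc, mul_div_cancel₀ _ T0.ne']
    linarith

/-- The total correlation of the blocks of width `w` above `s`. -/
noncomputable def Tc (h : (κ → ℝ) → ℝ) (r : κ → ℕ) (n : ℕ) (w : ℝ) (s : κ → ℝ) : ℝ :=
  ∑ i ∈ range n, (h (up (fun a => r a = i) w s) - h s) - (h (up (fun _ => True) w s) - h s)

theorem Sub.Tc_le (H : Sub h) (hr : ∀ a, r a < n) {w : ℝ} (hw : 0 ≤ w) (s : κ → ℝ) :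
    Tc h r n w s ≤ ∑ i ∈ range n, Jc h r (i + 1) w s := by
  have k := sum_range_sub' (fun i => h (up (fun a => ¬r a < i) w s)) n
  rw [up_congr (B := fun _ => True) (by simp),
    up_false (A := fun a => ¬r a < n) (fun a => by simp [hr a])] at k
  rw [Tc, ← k, ← sum_sub_distrib]
  refine sum_le_sum fun i _ => le_trans ?_ (H.left (up_le hw le_rfl
    (A := fun a => r a = i) (fun a => by omega) s) _ _)
  rw [I3, up_sup hw, up_congr (A := fun a => r a = i ∨ ¬r a < i + 1) (B := fun a => ¬r a < i)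
    fun a => by omega]
  linarith

theorem Sub.up_sum (H : Sub h) {w : ℝ} (hw : 0 ≤ w) (s : κ → ℝ) (A : Finset ℕ) :
    h (up (fun a => r a ∈ A) w s) - h s ≤ ∑ i ∈ A, (h (up (fun a => r a = i) w s) - h s) := by
  induction A using Finset.induction_on with
  | empty => simp [up_false]
  | insert i A hi ih =>
    have := H _ _ s (le_up hw (fun a => r a = i) s) (le_up hw (fun a => r a ∈ A) s)
    rw [up_sup hw] at this
    rw [sum_insert hi, up_congr fun a => mem_insert]
    linarith

/-- The information between a set of classes and the other classes. -/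
theorem Sub.I3_le (H : Sub h) (hr : ∀ a, r a < n) {w : ℝ} (hw : 0 ≤ w) (s : κ → ℝ) (A : ℕ → Prop) :
    I3 h (up (fun a => A (r a)) w s) (up (fun a => ¬A (r a)) w s) s ≤ Tc h r n w s := by
  classical
  have h1 := H.up_sum (r := r) hw s ((range n).filter A)
  have h2 := H.up_sum (r := r) hw s ((range n).filter fun i => ¬A i)
  rw [up_congr (B := fun a => A (r a)) fun a => by simp [hr a]] at h1
  rw [up_congr (B := fun a => ¬A (r a)) fun a => by simp [hr a]] at h2
  rw [Tc, ← sum_filter_add_sum_filter_not (range n) A, I3, up_sup hw,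
    up_congr (A := fun a => A (r a) ∨ ¬A (r a)) (B := fun _ => True) fun a => by simp [em]]
  linarith

/-- The total correlation is small on average over the offsets. -/
theorem Sub.avg_Tc (H : Sub h) (W : Tw r d v T) (hr : ∀ a, r a < n)
    (he : ∀ (i : Fin n) s, h (up (fun a => r a = i) (d (i + 1)) s) - h s ≤ e i) (s : κ → ℝ) :
    avg (off T) (fun t => Tc h r n (d n) (loc s v t)) ≤ n * ∑ j, e j / T j := by
  have c0 : (0 : ℝ) < (off T).card := by exact_mod_cast (off_ne W.T0).card_pos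
  have e0 : ∀ j, 0 ≤ e j / T j := fun j => div_nonneg
    ((sub_nonneg.2 (H.mono (le_up (W.d0 _) _ s))).trans (he j s)) (Nat.cast_nonneg _)
  have k : ∀ i ∈ range n, ∑ t ∈ off T, Jc h r (i + 1) (d n) (loc s v t)
      ≤ (∑ j, e j / T j) * (off T).card := fun i hi => by
    have := (H.avg_Jc W he s (i + 1) (mem_range.1 hi)).trans
      (sum_le_sum_of_subset_of_nonneg (filter_subset _ _) fun j _ _ => e0 j)
    rw [avg, div_le_iff₀ c0] at this
    exact (sum_le_sum fun t _ => H.Jc_mono (W.d0 n)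
      (antitone_nat_of_succ_le W.an (mem_range.1 hi)) _ _).trans this
  rw [avg, div_le_iff₀ c0]
  refine (sum_le_sum fun t _ => H.Tc_le hr (W.d0 n) _).trans ?_
  rw [sum_comm]
  simpa [mul_assoc] using sum_le_card_nsmul _ _ _ k

end real

/-! ### Cells -/

variable {Ω β : Type} {P : FP Ω} {K : (κ → ℝ) → Ω → β}

/-- A family of cells indexed by depths. -/
structure Cells (P : FP Ω) (K : (κ → ℝ) → Ω → β) : Prop where
  mono : ∀ s s', s ≤ s' → Fn P (K s) (K s')
  join : ∀ s s', Fn P (K (s ⊔ s')) fun ω => (K s ω, K s' ω)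

theorem Cells.hh_sup (C : Cells P K) (a b : κ → ℝ) :
    hh P (fun ω => (K a ω, K b ω)) = hh P (K (a ⊔ b)) :=
  hh_congr ((C.mono _ _ le_sup_left).pair (C.mono _ _ le_sup_right)) (C.join a b)

theorem Cells.sub (C : Cells P K) : Sub fun s => hh P (K s) := fun a b s e e' => by
  have := hh_submod (C.mono _ _ e) (C.mono _ _ e')
  rwa [C.hh_sup] at this

theorem Cells.ch_eq (C : Cells P K) {a s : κ → ℝ} (e : s ≤ a) :
    ch P (K a) (K s) = hh P (K a) - hh P (K s) := by rw [ch, C.hh_sup, sup_eq_left.2 e]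

theorem Cells.mi_eq (C : Cells P K) {a b s : κ → ℝ} (e : s ≤ a) (e' : s ≤ b) :
    mi P (K a) (K b) (K s) = I3 (fun s => hh P (K s)) a b s := by
  have : ch P (K a) (fun ω => (K b ω, K s ω)) = ch P (K a) (K b) :=
    le_antisymm (ch_anti (Fn.fst _ _)) (ch_anti ((Fn.rfl _).pair (C.mono _ _ e')))
  rw [mi, this, C.ch_eq e, ch, C.hh_sup, I3]; ring

/-- Cells made of a context and of nested digits of the coordinates. -/
theorem cells_of {γ δ : Type} (G : Ω → γ) (V : κ → ℝ → Ω → δ)
    (hV : ∀ a x y, x ≤ y → Fn P (V a x) fun ω => (V a y ω, G ω)) :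
    Cells P fun s ω => (G ω, fun a => V a (s a) ω) := by
  refine ⟨fun s s' e x hx y hy k => ?_, fun s s' x hx y hy k => ?_⟩
  · simp only [Prod.mk.injEq] at k ⊢
    exact ⟨k.1, funext fun a => hV a _ _ (e a) x hx y hy (Prod.ext (congrFun k.2 a) k.1)⟩
  · simp only [Prod.mk.injEq] at k ⊢
    refine ⟨k.1.1, funext fun a => ?_⟩
    rcases le_total (s a) (s' a) with c | c
    · rw [Pi.sup_apply, sup_eq_right.2 c]; exact congrFun k.2.2 a
    · rw [Pi.sup_apply, sup_eq_left.2 c]; exact congrFun k.1.2 a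

variable {r : κ → ℕ} {n : ℕ}

/-- The entropies of the blocks add up to the total correlation. -/
theorem Cells.sum_ch (C : Cells P K) {w : ℝ} (hw : 0 ≤ w) (s : κ → ℝ) :
    ∑ i ∈ range n, ch P (K (up (fun a => r a = i) w s)) (K s)
      = ch P (K (up (fun _ => True) w s)) (K s) + Tc (fun s => hh P (K s)) r n w s := by
  simp only [C.ch_eq (le_up hw _ s), Tc]; ring

/-- Blocks inside the window are independent up to the total correlation. -/
theorem Cells.mi_le (C : Cells P K) (hr : ∀ a, r a < n) {w : ℝ} (hw : 0 ≤ w) (A : ℕ → Prop)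
    {s s' a b : κ → ℝ} (e : s ≤ s') (ha : s' ≤ a) (hb : s' ≤ b)
    (ka : ∀ x, (A (r x) → a x ≤ s x + w) ∧ (¬A (r x) → a x = s' x))
    (kb : ∀ x, (A (r x) → b x = s' x) ∧ (¬A (r x) → b x ≤ s x + w)) :
    mi P (K a) (K b) (K s') ≤ Tc (fun s => hh P (K s)) r n w s := by
  rw [C.mi_eq ha hb]
  exact (C.sub.win (A := fun x => A (r x)) hw e ha hb ka kb).trans (C.sub.I3_le hr hw s A)

/-- The product structure at most locations. -/
theorem tan {d : ℕ → ℝ} {v : Fin n → κ → ℝ} {T : Fin n → ℕ} {e : Fin n → ℝ} (C : Cells P K)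
    (W : Tw r d v T) (hr : ∀ a, r a < n)
    (he : ∀ (i : Fin n) s, ch P (K (up (fun a => r a = i) (d (i + 1)) s)) (K s) ≤ e i)
    (s : κ → ℝ) : avg (off T) (fun t => Tc (fun s => hh P (K s)) r n (d n) (loc s v t))
      ≤ n * ∑ j, e j / T j :=
  C.sub.avg_Tc W hr (fun i s => by rw [← C.ch_eq (le_up (W.d0 _) _ s)]; exact he i s) s

end Pool.Agent.MP_5168f5_an.QA.Tan
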